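import Pool.Agent.Lib.MP_e95c01_co.X.AuxT76

/-!
# `λ = 3`, thick torsos: the accounts of the hubs
-/

namespace Pool.Agent.Lib.MP_e95c01_co.N

open Finset

variable {V : Type} [Fintype V] [DecidableEq V]

namespace CG

variable {G : CG V} {Fa : Finset (Finset V)}

theorem T6s.ph {l l' q p x y z g : V} (h : G.T6s Fa l l' q p x y z) (hg : g ∈ G.nb l) (hh : G.Hub g) : G.PH Fa l g := by
  rw [h.nb] at hg
  simp only [mem_insert, mem_singleton] at hg
  rcases hg with rfl | rfl | rfl | rfl | rfl | rfl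
  · exact absurd h.low' hh.1
  · exact absurd ⟨_, h.t⟩ hh.2
  · exact absurd (tw_of76' h.t) hh.2
  · exact h.hx
  · exact h.hy
  · exact h.hz

theorem mem_of_pO76 {B : Finset V} {l x : V} (h : x ∈ G.pO B l) : x ∈ G.nb l :=
  (mem_inter.1 h).1

theorem R_of_nR76 {x z : V} (h : x ∈ G.nR Fa z) : x ∈ R Fa := (mem_inter.1 h).2

theorem SK.lR {l x : V} (h : G.SK Fa l x) :
    l ∈ R Fa ∧ (G.I Fa l).card ≤ 1 ∧ G.PH Fa l x ∧ x ∈ G.nb l := by
  rcases h with ⟨h, h1⟩ | ⟨_, h, h1, h2, h3, h4, h5⟩ | ⟨_, h, h1, h2⟩ |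
    ⟨_, h, h1, h2, h3, h4, h5⟩ | ⟨_, h, h1, h2, h3⟩
  · refine ⟨h.lR, by rw [h.I0, card_empty]; omega, ⟨h.hx, ?_, h.nx⟩, by rw [h.nb]; simp⟩
    rcases h1 with h1 | h1
    · omega
    · rw [h1.1, card_empty]; omega
  · exact ⟨h.lR, by rw [h.I0, card_empty]; omega, h.ph h2 h4, h2⟩
  · exact ⟨h.lR, by rw [h.I0, card_empty]; omega, h.ph h2.1 h2.2.2.1.1, h2.1⟩
  · refine ⟨h.lR, by rw [h.I1, card_singleton], ?_, ?_⟩
    · rcases h3 with h3 | h3
      · rw [h3]; exact h.hx
      · rw [h3]; exact h.hy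
    · exact mem_of_pO76 ((Finset.ext_iff.1 h.out _).2 (by
        rw [mem_insert, mem_singleton]; exact h3))
  · refine ⟨h.lR, by rw [h.I1, card_singleton], ?_, ?_⟩
    · rcases h2 with h3 | h3
      · rw [h3]; exact h.hx
      · rw [h3]; exact h.hy
    · exact mem_of_pO76 ((Finset.ext_iff.1 h.out _).2 (by
        rw [mem_insert, mem_singleton]; exact h2))

theorem SK.mem_HPl {l x : V} (h : G.SK Fa l x) :
    l ∈ G.HPl Fa x := by
  classical
  obtain ⟨h1, h2, h3, h4⟩ := h.lR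
  rw [HPl, mem_filter, nR, mem_inter]
  exact ⟨⟨G.sym _ _ h4, h1⟩, h.lowz, h3.2.2, Or.inl h2⟩

theorem PQ.mem_HPt {q x : V} (h : G.PQ Fa q x) : q ∈ G.HPt Fa x := by
  classical
  have h1 := h.2.2.2.2
  rw [NH, mem_filter, nR, mem_inter] at h1
  rw [HPt, mem_filter, nR, mem_inter]
  exact ⟨⟨G.sym _ _ h1.1.1, h.1⟩, h.2.1, Or.inl (by rw [h.2.2.1, card_empty]; omega)⟩

/-- the account of a hub -/
theorem hub_acc76 {x : V} (hx : x ∈ R Fa) (hh : G.Hub x)
    (hk : (G.I Fa x).card ≤ 1) : open Classical in 2 * G.ch5 Fa x - G.ask Fa x =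
      4 * ((G.I Fa x).card : ℤ) - 8 + 4 * ((G.FuL Fa x).card : ℤ) + 2 * ((G.FuT Fa x).card : ℤ) -
      4 * (((R Fa).filter fun l => G.HD Fa l x).card : ℤ) -
      2 * (((R Fa).filter fun l => G.HS Fa l x).card : ℤ) := by
  classical
  have h1 := (stCh5_28 G).hub0 Fa x hx hh hk
  have h2 : G.ask Fa x = 4 * (((R Fa).filter fun l => G.SK Fa l x).card : ℤ) +
      4 * (((R Fa).filter fun l => G.HD Fa l x).card : ℤ) +
      2 * (((R Fa).filter fun l => G.HS Fa l x).card : ℤ) +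
      2 * (((R Fa).filter fun l => G.PQ Fa l x).card : ℤ) := by
    unfold ask
    rw [sum_congr rfl fun z _ => dn5_hub76 (Fa := Fa) (z := z) hh, sum_add_distrib,
      sum_add_distrib, sum_add_distrib, ← sum_filter, ← sum_filter, ← sum_filter, ← sum_filter,
      sum_const, sum_const, sum_const, sum_const]
    simp only [nsmul_eq_mul]
    ring
  have h3 : (G.HPl Fa x).card = (G.FuL Fa x).card +
      ((R Fa).filter fun l => G.SK Fa l x).card := by
    have h4 : (R Fa).filter (fun l => G.SK Fa l x) =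
        (G.HPl Fa x).filter (fun l => G.SK Fa l x) := by
      ext l
      rw [mem_filter, mem_filter]
      exact ⟨fun h => ⟨h.2.mem_HPl, h.2⟩, fun h => ⟨h.2.lR.1, h.2⟩⟩
    rw [h4, FuL, add_comm, card_filter_add_card_filter_not]
  have h5 : (G.HPt Fa x).card = (G.FuT Fa x).card +
      ((R Fa).filter fun l => G.PQ Fa l x).card := by
    have h4 : (R Fa).filter (fun l => G.PQ Fa l x) =
        (G.HPt Fa x).filter (fun l => G.PQ Fa l x) := by
      ext l
      rw [mem_filter, mem_filter]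
      exact ⟨fun h => ⟨h.2.mem_HPt, h.2⟩, fun h => ⟨h.2.1, h.2⟩⟩
    rw [h4, FuT, add_comm, card_filter_add_card_filter_not]
  rw [h1, h2, h3, h5]
  push_cast
  ring

/-- weight of two different full payers -/
theorem two_full76 {x e e' : V} (h : G.Full Fa e x) (h' : G.Full Fa e' x) (hne : e ≠ e')
    (hnt : ¬ G.Tw e e') (h9 : 9 ≤ Fintype.card V) :
    8 ≤ 4 * ((G.FuL Fa x).card : ℤ) + 2 * ((G.FuT Fa x).card : ℤ) := by
  have key : ∀ (S : Finset V) (n : ℕ) (l : List V), l.Nodup → (∀ u ∈ l, u ∈ S) →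
      l.length = n → n ≤ S.card := by
    intro S n l h1 h2 h3
    rw [← h3, ← List.toFinset_card_of_nodup h1]
    exact card_le_card fun u hu => h2 u (List.mem_toFinset.1 hu)
  rcases h with h | ⟨f, h1, h2, h3⟩
  · rcases h' with h' | ⟨f', h1', h2', h3'⟩
    · have := key (G.FuL Fa x) 2 [e, e'] (by simp [hne]) (by simp [h, h']) rfl
      omega
    · have a1 := key (G.FuL Fa x) 1 [e] (by simp) (by simp [h]) rfl
      have a2 := key (G.FuT Fa x) 2 [e', f'] (by simp [ne_of_nb5 h1'.1])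
        (by simp [h2', h3']) rfl
      omega
  · have hef := ne_of_nb5 h1.1
    rcases h' with h' | ⟨f', h1', h2', h3'⟩
    · have a1 := key (G.FuL Fa x) 1 [e'] (by simp) (by simp [h']) rfl
      have a2 := key (G.FuT Fa x) 2 [e, f] (by simp [hef]) (by simp [h2, h3]) rfl
      omega
    · have hef' := ne_of_nb5 h1'.1
      have b1 : f ≠ e' := fun e1 => hnt (by rw [← e1]; exact h1)
      have b2 : f ≠ f' := by
        intro e1
        rw [e1] at h1
        exact hne ((stTwHL_5 G).uniq h9 f' e e' (tw_symm76 h1) (tw_symm76 h1'))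
      have b3 : e ≠ f' := by
        intro e1
        rw [e1] at hnt
        exact hnt (tw_symm76 h1')
      have a2 := key (G.FuT Fa x) 4 [e, f, e', f'] (by simp [hne, hef, hef', b1, b2, b3])
        (by simp [h2, h3, h2', h3']) rfl
      omega

theorem one_full76 {x e : V} (h : G.Full Fa e x) :
    4 ≤ 4 * ((G.FuL Fa x).card : ℤ) + 2 * ((G.FuT Fa x).card : ℤ) := by
  rcases h with h | ⟨f, h1, h2, h3⟩
  · have := card_pos.2 ⟨e, h⟩
    omega
  · have hef := ne_of_nb5 h1.1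
    have a2 : 2 ≤ (G.FuT Fa x).card := by
      rw [← card_pair hef]
      refine card_le_card ?_
      intro u hu
      rw [mem_insert, mem_singleton] at hu
      rcases hu with rfl | rfl
      · exact h2
      · exact h3
    omega

end CG

end Pool.Agent.Lib.MP_e95c01_co.N
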