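import Pool.Agent.Lib.MP_e95c01_co.X.K3c_28

/-!
# `λ = 3`, thick torsos: twin vertices in two or more neighbourhoods
-/

namespace Pool.Agent.Lib.MP_e95c01_co.N

open Finset

variable {V : Type} [Fintype V] [DecidableEq V]

namespace CG

namespace K28

variable {G : CG V} {Fa : Finset (Finset V)}

theorem pay_tw_le {z x : V} (ht : G.IsTw z) : G.pay5 Fa z x ≤ 1 := by
  have hl := tw_not_low11 ht
  unfold pay5
  by_cases a1 : 2 ≤ (G.I Fa x).card ∨ ¬ G.Us5 Fa z x
  · rw [if_pos a1]
    norm_num
  · rw [if_neg a1, if_neg hl]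
    split_ifs <;> norm_num

theorem v5_many {z x : V} (hk : 2 ≤ (G.I Fa z).card) :
    G.v5 Fa x z = 2 - (G.m Fa x z : ℤ) - G.pay5 Fa z x := by
  rw [v5, pay_to_many hk, add_zero]

theorem v5_nonneg {z x : V} (ht : G.IsTw z) (hk : 2 ≤ (G.I Fa z).card) (h : G.m Fa x z ≤ 2) :
    0 ≤ G.v5 Fa x z := by
  rw [v5_many hk]
  by_cases h2 : 2 ≤ (G.I Fa x).card
  · rw [pay_to_many h2]
    have : (G.m Fa x z : ℤ) ≤ 2 := by exact_mod_cast h
    linarith
  · have h3 := m_le_left (G := G) (Fa := Fa) x z
    have h4 : (G.m Fa x z : ℤ) ≤ 1 := by exact_mod_cast (show G.m Fa x z ≤ 1 by omega)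
    have h5 := pay_tw_le (G := G) (Fa := Fa) (x := x) ht
    linarith

theorem v5_zero {z x : V} (ht : G.IsTw z) (hk : 2 ≤ (G.I Fa z).card) (h : G.m Fa x z = 0) :
    1 ≤ G.v5 Fa x z := by
  rw [v5_many hk, h]
  have h5 := pay_tw_le (G := G) (Fa := Fa) (x := x) ht
  push_cast
  linarith

theorem flv_tw {S : Finset V} {z : V} (ht : G.IsTw z) : G.flv S z =
    - (by classical exact if G.RF S z then (1 : ℤ) else 0) := by
  classical
  have hl := tw_not_low11 ht
  have h1 : G.s5 S z = 0 := s5_zero fun v h => hl h.2.1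
  have h3 : ¬ G.U3 S z := fun h => hl h.2.1
  have h4 : ¬ G.T3 S z := fun h => hl h.2.1
  have h5 : ¬ G.HF S z := fun h => hl h.2.1
  rw [flv, h1, if_neg h3, if_neg h4, if_neg h5]
  ring

theorem ff_tw {B : Finset V} {z : V} (ht : G.IsTw z) : -1 ≤ ff G B z ∧
    (ff G B z < 0 → G.RF (G.Co B) z) ∧ (¬ G.RF (G.Co B) z → G.RF B z → 1 ≤ ff G B z) := by
  classical
  rw [ff, flv_tw ht, flv_tw ht]
  refine ⟨?_, ?_, ?_⟩
  · split_ifs <;> norm_num
  · intro h
    by_contra hc
    rw [if_neg hc] at h
    split_ifs at h <;> norm_num at h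
  · intro h1 h2
    rw [if_neg h1, if_pos h2]
    norm_num

theorem two_hid (h9 : 9 ≤ Fintype.card V) (h : G.Reg Fa) (hbig : ∀ B ∈ Fa, 3 ≤ B.card)
    {z : V} (hzR : z ∈ R Fa) (ht : G.IsTw z) {B : Finset V} (hB : B ∈ G.I Fa z) :
    2 ≤ (G.nb z ∩ B).card := (stTwHL_5 G).hid Fa h hbig z hzR ht B hB

/-- twin vertices in two or more neighbourhoods -/
theorem tw_two (h9 : 9 ≤ Fintype.card V) (h : G.Reg Fa) (hbig : ∀ B ∈ Fa, 3 ≤ B.card)
    {z : V} (hzR : z ∈ R Fa) (ht : G.IsTw z) (hk : 2 ≤ (G.I Fa z).card) :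
    0 ≤ G.ch5 Fa z := by
  classical
  have hc := (G.stCh5_28).tw2 h9 Fa h z hzR ht
  have h7 := tw_card11 ht
  have hid := fun B (hB : B ∈ G.I Fa z) => two_hid h9 h hbig hzR ht hB
  obtain ⟨z', hz'⟩ := ht
  have htw : G.IsTw z := ⟨z', hz'⟩
  have hsp := nb_split76 h hzR
  have hsum : 2 * ((G.I Fa z).card : ℤ) ≤ ∑ B ∈ G.I Fa z, (G.d z B : ℤ) := by
    have h1 : ∑ B ∈ G.I Fa z, (2 : ℤ) = 2 * ((G.I Fa z).card : ℤ) := by
      rw [sum_const, nsmul_eq_mul]
      ring
    rw [← h1]
    exact sum_le_sum fun B hB => by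
      have := hid B hB
      exact_mod_cast this
  obtain ⟨hz'R, hI'⟩ := (stTwHL_5 G).twI Fa h z hzR z' hz'
  have hz'n : z' ∈ G.nR Fa z := mem_nR76.2 ⟨hz'.1, hz'R⟩
  have hm' : G.m Fa z' z = (G.I Fa z).card := by rw [m, hI', inter_self]
  have hpay' : G.pay5 Fa z z' = 0 := pay_to_many (by rw [hI']; exact hk)
  have hv' : G.v5 Fa z' z = 2 - ((G.I Fa z).card : ℤ) := by
    rw [v5_many hk, hm', hpay']
    ring
  rw [h7] at hsp
  have hnR : 1 ≤ (G.nR Fa z).card := card_pos.2 ⟨z', hz'n⟩
  have hk3 : (G.I Fa z).card ≤ 3 := by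
    by_contra hc'
    have : (4 : ℤ) ≤ ((G.I Fa z).card : ℤ) := by exact_mod_cast (show 4 ≤ (G.I Fa z).card by omega)
    have h2 : (0 : ℤ) ≤ ((G.nR Fa z).card : ℤ) := by positivity
    push_cast at hsp
    linarith
  have hsplit : ∑ x ∈ G.nR Fa z, G.v5 Fa x z =
      G.v5 Fa z' z + ∑ x ∈ (G.nR Fa z).erase z', G.v5 Fa x z :=
    (add_sum_erase (G.nR Fa z) (fun x => G.v5 Fa x z) hz'n).symm
  have hfg : -1 * ((G.I Fa z).card : ℤ) ≤ G.fg5 Fa z := by
    rw [fg_eq]
    have h1 : ∑ B ∈ G.I Fa z, (-1 : ℤ) = -1 * ((G.I Fa z).card : ℤ) := by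
      rw [sum_const, nsmul_eq_mul]
      ring
    rw [← h1]
    exact sum_le_sum fun B _ => (ff_tw htw).1
  by_cases hk3' : (G.I Fa z).card = 3
  · -- three neighbourhoods
    have h1 : ((G.nR Fa z).card : ℤ) ≤ 1 := by
      rw [hk3'] at hsum
      push_cast at hsp hsum
      linarith
    have h2 : (G.nR Fa z).erase z' = ∅ := by
      rw [← card_eq_zero, card_erase_of_mem hz'n]
      have : (G.nR Fa z).card ≤ 1 := by exact_mod_cast h1
      omega
    rw [h2, sum_empty] at hsplit
    rw [hsplit, hv', hk3'] at hc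
    rw [hk3'] at hfg
    push_cast at hc hfg
    linarith
  have hk2 : (G.I Fa z).card = 2 := by omega
  obtain ⟨B1, B2, hne, hI⟩ := card_eq_two.1 hk2
  -- the others
  have hm2 : ∀ x, G.m Fa x z ≤ 2 := fun x => by
    have := m_le11 (G := G) (Fa := Fa) x z
    omega
  have hX0 : ∀ x ∈ (G.nR Fa z).erase z', 0 ≤ G.v5 Fa x z :=
    fun x _ => v5_nonneg htw hk (hm2 x)
  have hXs : 0 ≤ ∑ x ∈ (G.nR Fa z).erase z', G.v5 Fa x z := sum_nonneg hX0
  have hfg2 : G.fg5 Fa z = ff G B1 z + ff G B2 z := by
    rw [fg_eq, hI, sum_pair hne]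
  rw [hsplit, hv', hk2, hfg2] at hc
  push_cast at hc
  -- one side
  have key : ∀ B B' : Finset V, B ≠ B' → G.I Fa z = {B, B'} → ff G B z < 0 →
      (1 ≤ ff G B' z ∨ (1 ≤ ∑ x ∈ (G.nR Fa z).erase z', G.v5 Fa x z ∧
        (ff G B' z < 0 → 2 ≤ ∑ x ∈ (G.nR Fa z).erase z', G.v5 Fa x z))) := by
    intro B B' hBB hIz hneg
    have hB : B ∈ G.I Fa z := by rw [hIz]; exact mem_insert_self _ _
    have hB' : B' ∈ G.I Fa z := by rw [hIz]; exact mem_insert_of_mem (mem_singleton_self _)
    have hBF := (mem_I76.1 hB).1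
    have hB'F := (mem_I76.1 hB').1
    have hfr := h.frag B hBF
    have hfr' := h.frag B' hB'F
    obtain ⟨-, p', w, w', k1, k2, k3, k4, k5, k6⟩ := (ff_tw htw).2.1 hneg
    rw [pT_Co hfr] at k3
    rw [pO_Co hfr] at k5
    have k4' : (G.nb z ∩ G.Co B).card = 4 := k4
    have hp' : p' = z' := (stTwHL_5 G).uniq h9 _ _ _ k1 hz'
    subst hp'
    -- the others are not in `N B`
    have hout : ∀ x ∈ (G.nR Fa z).erase p', x ∉ G.N B := by
      intro x hx hN
      rw [mem_erase, mem_nR76] at hx
      have : x ∈ G.pT B z := mem_inter.2 ⟨hx.2.1, hN⟩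
      rw [k3, mem_singleton] at this
      exact hx.1 this
    have hIB : ∀ x ∈ (G.nR Fa z).erase p', B ∉ G.I Fa x := fun x hx hB' =>
      hout x hx (mem_I76.1 hB').2
    -- visible neighbours and hidden ones
    have hcard : (G.nb z ∩ B').card + ((G.nR Fa z).erase p').card = 4 := by
      have e1 : G.nb z ∩ G.Co B = (G.nb z ∩ B') ∪ (G.nR Fa z).erase p' := by
        ext x
        rw [mem_union, mem_inter, mem_inter, mem_erase, mem_nR76]
        constructor
        · rintro ⟨x1, x2⟩
          by_cases x3 : x ∈ R Fa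
          · refine Or.inr ⟨?_, x1, x3⟩
            rintro rfl
            have : x ∈ G.pT B z := by rw [k3]; exact mem_singleton_self _
            exact (mem_Co76.1 x2).2 (mem_inter.1 this).2
          · left
            refine ⟨x1, ?_⟩
            rw [mem_R76] at x3
            push Not at x3
            obtain ⟨D, hD, hxD⟩ := x3
            have hDI := I_of_nb76 hzR hD x1 hxD
            rw [hIz, mem_insert, mem_singleton] at hDI
            rcases hDI with rfl | rfl
            · exact absurd hxD (mem_Co76.1 x2).1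
            · exact hxD
        · rintro (⟨x1, x2⟩ | ⟨x1, x2, x3⟩)
          · exact ⟨x1, blob_Co h hBF hB'F hBB x2⟩
          · refine ⟨x2, mem_Co76.2 ⟨mem_R76.1 x3 B hBF, ?_⟩⟩
            exact hout x (mem_erase.2 ⟨x1, mem_nR76.2 ⟨x2, x3⟩⟩)
      have e2 : Disjoint (G.nb z ∩ B') ((G.nR Fa z).erase p') := by
        rw [disjoint_left]
        intro x hx hx'
        rw [mem_erase, mem_nR76] at hx'
        exact mem_R76.1 hx'.2.2 B' hB'F (mem_inter.1 hx).2
      rw [← card_union_of_disjoint e2, ← e1, k4']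
    have hh' := hid B' hB'
    have hmX : ∀ x ∈ (G.nR Fa z).erase p', B' ∉ G.I Fa x → G.m Fa x z = 0 := by
      intro x hx hx'
      rw [m, hIz, card_eq_zero, eq_empty_iff_forall_notMem]
      intro D hD
      rw [mem_inter, mem_insert, mem_singleton] at hD
      rcases hD.2 with rfl | rfl
      · exact hIB x hx hD.1
      · exact hx' hD.1
    by_cases hX : (G.nR Fa z).erase p' = ∅
    · left
      rw [hX, card_empty] at hcard
      have hnb : G.nb z ∩ G.N B' = {p'} := by
        ext x
        rw [mem_inter, mem_singleton]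
        constructor
        · rintro ⟨x1, x2⟩
          by_contra hc'
          have : x ∈ (G.nR Fa z).erase p' := mem_erase.2 ⟨hc', mem_nR76.2 ⟨x1, N_R h hB'F x2⟩⟩
          rw [hX] at this
          exact absurd this (notMem_empty _)
        · rintro rfl
          refine ⟨hz'.1, ?_⟩
          have : B' ∈ G.I Fa x := by rw [hI']; exact hB'
          exact (mem_I76.1 this).2
      have h6 := d_split76 (G := G) z B'
      have h6B := d_split76 (G := G) z B
      have e4 : (G.nb z ∩ G.N B').card = 1 := by rw [hnb, card_singleton]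
      have e4B : (G.nb z ∩ G.N B).card = 1 := by
        have : G.nb z ∩ G.N B = {p'} := k3
        rw [this, card_singleton]
      unfold d at h6 h6B
      have e5 : G.nb z ∩ B ⊆ G.nb z ∩ G.Co B' := fun x hx =>
        mem_inter.2 ⟨(mem_inter.1 hx).1, blob_Co h hB'F hBF hBB.symm (mem_inter.1 hx).2⟩
      have e6 : G.nb z ∩ B = G.nb z ∩ G.Co B' := eq_of_subset_of_card_le e5 (by omega)
      refine (ff_tw htw).2.2 ?_ ?_
      · rintro ⟨-, a, b, c, -, -, -, l4, -⟩
        have l4' : (G.nb z ∩ G.Co B').card = 4 := l4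
        rw [← e6, k5, card_pair k2] at l4'
        omega
      · refine ⟨(mem_I76.1 hB').2, p', w, w', k1, k2, hnb, ?_, ?_, k6⟩
        · show (G.nb z ∩ B').card = 4
          omega
        · show G.nb z ∩ G.Co B' = {w, w'}
          rw [← e6]
          exact k5
    · right
      obtain ⟨x, hx⟩ := nonempty_iff_ne_empty.2 hX
      constructor
      · by_cases hex : ∃ u ∈ (G.nR Fa z).erase p', B' ∉ G.I Fa u
        · obtain ⟨u, hu, hu'⟩ := hex
          have u1 := v5_zero (Fa := Fa) (x := u) htw hk (hmX u hu hu')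
          exact le_trans u1 (single_le_sum (f := fun x => G.v5 Fa x z) hX0 hu)
        · push Not at hex
          have u0 : G.m Fa x z ≤ 1 := by
            have : G.I Fa x ∩ G.I Fa z ⊆ {B'} := by
              intro D hD
              rw [mem_inter, hIz, mem_insert, mem_singleton] at hD
              rcases hD.2 with rfl | rfl
              · exact absurd hD.1 (hIB x hx)
              · exact mem_singleton_self _
            exact le_trans (card_le_card this) (by simp)
          have u1 : G.pay5 Fa z x = 0 := by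
            unfold pay5
            by_cases a1 : 2 ≤ (G.I Fa x).card ∨ ¬ G.Us5 Fa z x
            · rw [if_pos a1]
            · exfalso
              apply a1
              right
              rintro (a2 | a2 | ⟨u, a2, a3, a4⟩)
              · omega
              · have : B' ∈ G.I Fa x ∩ G.I Fa z := mem_inter.2 ⟨hex x hx, hB'⟩
                rw [m, card_eq_zero] at a2
                rw [a2] at this
                exact absurd this (notMem_empty _)
              · have a5 : B' ∉ G.I Fa u := by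
                  intro a6
                  have : B' ∈ G.I Fa x ∩ G.I Fa u := mem_inter.2 ⟨hex x hx, a6⟩
                  rw [m, card_eq_zero] at a3
                  rw [a3] at this
                  exact absurd this (notMem_empty _)
                rcases a4 with a4 | ⟨b, -, a4⟩ | ⟨a, -, a4, -⟩
                · have a6 : u ∈ (G.nR Fa z).erase p' := by
                    refine mem_erase.2 ⟨?_, mem_nR76.2 ⟨a4, (mem_nR76.1 a2).2⟩⟩
                    rintro rfl
                    exact a5 (by rw [hI']; exact hB')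
                  exact a5 (hex u a6)
                · exact tw_not_low11 htw a4.1
                · exact tw_not_low11 htw a4.2.1
          have u2 : 1 ≤ G.v5 Fa x z := by
            rw [v5_many hk, u1]
            have : (G.m Fa x z : ℤ) ≤ 1 := by exact_mod_cast u0
            linarith
          exact le_trans u2 (single_le_sum (f := fun x => G.v5 Fa x z) hX0 hx)
      · intro hneg'
        obtain ⟨-, p, y, y', t1, t2, t3, t4, t5, -⟩ := (ff_tw htw).2.1 hneg'
        rw [pT_Co hfr'] at t3
        rw [pO_Co hfr'] at t5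
        have hp : p = p' := (stTwHL_5 G).uniq h9 _ _ _ t1 hz'
        subst hp
        have hall : ∀ x ∈ (G.nR Fa z).erase p, 1 ≤ G.v5 Fa x z := by
          intro x hx
          refine v5_zero htw hk (hmX x hx fun hc' => ?_)
          have hx' := mem_erase.1 hx
          have : x ∈ G.pT B' z := mem_inter.2 ⟨(mem_nR76.1 hx'.2).1, (mem_I76.1 hc').2⟩
          rw [t3, mem_singleton] at this
          exact hx'.1 this
        have h2 : (G.nb z ∩ B').card = 2 := by rw [t5, card_pair t2]
        have h3 : ((G.nR Fa z).erase p).card = 2 := by omega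
        have h4 := sum_le_sum hall
        rw [sum_const, h3, nsmul_eq_mul] at h4
        push_cast at h4
        linarith
  have n1 := (ff_tw (G := G) (B := B1) htw).1
  have n2 := (ff_tw (G := G) (B := B2) htw).1
  by_cases g1 : ff G B1 z < 0
  · rcases key B1 B2 hne hI g1 with g2 | ⟨g2, g3⟩
    · linarith
    · by_cases g4 : ff G B2 z < 0
      · have := g3 g4
        linarith
      · linarith
  · by_cases g4 : ff G B2 z < 0
    · rcases key B2 B1 hne.symm (by rw [hI, pair_comm]) g4 with g2 | ⟨g2, g3⟩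
      · linarith
      · linarith
    · linarith

end K28

end CG

end Pool.Agent.Lib.MP_e95c01_co.N
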