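import Pool.Agent.Lib.MP_e95c01_co.X.Dn_53
import Pool.Agent.Lib.MP_e95c01_co.X.K3d_28

/-!
# C6a: low vertices in no neighbourhood are not asked
-/

namespace Pool.Agent.Lib.MP_e95c01_co.N

open Finset

variable {V : Type} [Fintype V] [DecidableEq V]

namespace CG

variable {G : CG V} {Fa : Finset (Finset V)}

/-- the flags of a twin vertex in one neighbourhood -/
theorem fg_tw53 {q : V} (ht : G.IsTw q) {B : Finset V} (hI : G.I Fa q = {B}) :
    -1 ≤ G.fg5 Fa q ∧ (G.fg5 Fa q < 0 → G.RF (G.Co B) q) := by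
  have h1 : G.fg5 Fa q = K28.ff G B q := by rw [K28.fg_single hI, K28.ff]
  have h2 := K28.ff_tw (G := G) (B := B) ht
  rw [h1]
  exact ⟨h2.1, h2.2.1⟩

/-- a lower bound for the charge of a twin vertex in one neighbourhood -/
theorem tw_lb53 (hG : G.Gen5 Fa) {q : V} (hq : q ∈ R Fa) (ht : G.IsTw q) {B : Finset V}
    (hI : G.I Fa q = {B}) : (G.d q (G.Co B) : ℤ) - 8 + 3 * ((G.NO Fa q).card : ℤ) +
      ((G.NT Fa q).card : ℤ) + G.fg5 Fa q ≤ G.ch5 Fa q := by
  have h1 := (G.stCh5_28).tw1 hG.n9 Fa hG.reg q hq ht B hI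
  have h2 := nR_one50 hG.reg hq hI
  have h3 := d_split76 (G := G) q B
  have h7 := tw_card11 ht
  obtain ⟨p, hp⟩ := ht
  have hpR := q_I76 (qs16 G) hG.reg hq hp
  have hpt : G.IsTw p := ⟨q, (stTwHL_5 G).symm _ _ hp⟩
  have hpl := tw_not_low11 hpt
  have hd1 : Disjoint (G.NH Fa q) (G.NO Fa q) := by
    rw [disjoint_left]
    intro x hx hx'
    exact (mem_NH53.1 hx).2.1.1 (mem_NO53.1 hx').2.1
  have hd2 : p ∉ G.NH Fa q ∪ G.NO Fa q := by
    rw [mem_union]
    rintro (hx | hx)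
    · exact (mem_NH53.1 hx).2.1.2 hpt
    · exact hpl (mem_NO53.1 hx).2.1
  have hsub : insert p (G.NH Fa q ∪ G.NO Fa q) ⊆ G.nR Fa q := by
    intro x hx
    rw [mem_insert, mem_union] at hx
    rcases hx with rfl | hx | hx
    · exact mem_nR76.2 ⟨hp.1, hpR.1⟩
    · exact (mem_NH53.1 hx).1
    · exact (mem_NO53.1 hx).1
  have h4 := card_le_card hsub
  rw [card_insert_of_notMem hd2, card_union_of_disjoint hd1] at h4
  have h5 : (G.nb q ∩ B).card = G.d q B := rfl
  have h6 : (G.nb q ∩ G.N B).card = G.d q (G.N B) := rfl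
  have h8 : (G.nb q ∩ G.Co B).card = G.d q (G.Co B) := rfl
  rw [h7] at h2
  push_cast at h2
  rw [h1]
  have h9 : ((G.NH Fa q).card : ℤ) + ((G.NO Fa q).card : ℤ) + 1 ≤ ((G.nR Fa q).card : ℤ) := by
    exact_mod_cast h4
  have h10 : (G.d q B : ℤ) + (G.d q (G.N B) : ℤ) + (G.d q (G.Co B) : ℤ) = 7 := by
    rw [h7] at h3
    exact_mod_cast h3
  linarith

/-- a twin vertex in one neighbourhood with two low neighbours without a common neighbourhood -/
theorem tw_two53 (hG : G.Gen5 Fa) {q : V} (hq : q ∈ R Fa) (ht : G.IsTw q) {B : Finset V}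
    (hI : G.I Fa q = {B}) {l l' : V} (hne : l ≠ l') (h1 : l ∈ G.NO Fa q)
    (h2 : l' ∈ G.NO Fa q) : 1 ≤ G.ch5 Fa q := by
  have h3 := tw_lb53 hG hq ht hI
  have h4 : 3 ≤ G.d q (G.Co B) := by
    obtain ⟨p, hp⟩ := ht
    exact e1q_86 hG hp hq hI
  have h5 : 2 ≤ (G.NO Fa q).card := by
    rw [← card_pair hne]
    refine card_le_card ?_
    intro x hx
    rw [mem_insert, mem_singleton] at hx
    rcases hx with rfl | rfl
    exacts [h1, h2]
  obtain ⟨h6, h7⟩ := fg_tw53 ht hI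
  have h8 : (2 : ℤ) ≤ ((G.NO Fa q).card : ℤ) := by exact_mod_cast h5
  have h9 : (3 : ℤ) ≤ (G.d q (G.Co B) : ℤ) := by exact_mod_cast h4
  have h11 : (0 : ℤ) ≤ ((G.NT Fa q).card : ℤ) := by positivity
  by_cases h10 : G.fg5 Fa q < 0
  · have h12 := (RF_type16 (h7 h10)).2.2.1
    have h13 : (G.d q (G.Co B) : ℤ) = 4 := by
      exact_mod_cast h12
    linarith
  · linarith

/-- a vertex in no neighbourhood has no common neighbourhood with any other -/
theorem m_zero53 {x z : V} (h : G.I Fa x = ∅) : G.m Fa x z = 0 := by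
  rw [m, h, empty_inter, card_empty]

/-- the neighbours of a vertex in no neighbourhood are in `R` -/
theorem nb_R53 {x z : V} (hz : z ∈ R Fa) (hI : G.I Fa z = ∅) (hx : x ∈ G.nb z) : x ∈ R Fa :=
  mem_R76.2 fun B hB hxB => by
    have h := I_of_nb76 hz hB hx hxB
    rw [hI] at h
    exact absurd h (notMem_empty _)

/-- C6a -/
theorem stC6a_53 (G : CG V) (hT : G.StT6) : G.StC6a := by
  classical
  intro Fa hG d hd
  rw [ask]
  refine sum_eq_zero fun z _ => ?_
  rw [dn5_low53 hG.g5.n9 hd.low]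
  have h1 : ¬ G.AL Fa z d := by
    intro h
    have := AL_I53 h
    rw [hd.I0] at this
    exact absurd this not_nonempty_empty
  have h2 : ¬ G.DL Fa z d := by
    intro h
    obtain ⟨q, p, x, y, w, h6, hN, -⟩ := DL_I53 hd.lR h hd.I0
    have hadj := hT.adj Fa hG _ _ _ _ _ _ _ h6
    have hI : (G.I Fa q).card = 1 := by
      have h3 : 0 < (G.I Fa q).card := by
        rcases hT.d0 Fa hG _ _ _ _ _ _ _ h6 with h | h
        · exact card_pos.2 h
        · rw [hd.I0] at h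
          exact absurd h not_nonempty_empty
      have := h6.kq
      omega
    obtain ⟨B, hB⟩ := card_eq_one.1 hI
    have hqz : q ∈ G.nb z := by
      rw [h6.nb]
      simp
    have hdz : d ∈ G.nb z := by
      rw [h6.nb]
      simp
    have hqR : q ∈ R Fa := nb_R53 h6.lR h6.I0 hqz
    have hch := tw_two53 hG.g5 hqR ⟨p, h6.t⟩ hB (ne_of_nb5 hdz)
      (mem_NO53.2 ⟨mem_nR76.2 ⟨G.sym _ _ hqz, h6.lR⟩, h6.low, m_zero53 h6.I0⟩)
      (mem_NO53.2 ⟨mem_nR76.2 ⟨G.sym _ _ hadj, hd.lR⟩, hd.low, m_zero53 hd.I0⟩)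
    rcases hN.2 with h7 | h7
    · rw [h7, card_empty] at hI
      exact absurd hI (by norm_num)
    · linarith
  rw [if_neg h1, if_neg h2, add_zero]

end CG

end Pool.Agent.Lib.MP_e95c01_co.N
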