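import Pool.Agent.Lib.MP_e95c01_co.X.K3e_28

/-!
# `λ = 3`, thick torsos: low vertices in two neighbourhoods, the flags `U3`, `T3`, `HF`
-/

namespace Pool.Agent.Lib.MP_e95c01_co.N

open Finset

variable {V : Type} [Fintype V] [DecidableEq V]

namespace CG

namespace K28

variable {G : CG V} {Fa : Finset (Finset V)} {z : V} {B B' : Finset V}

namespace Tw2

/-- what makes up for the flags of `B` -/
def Side (G : CG V) (Fa : Finset (Finset V)) (z : V) (B B' : Finset V) : Prop :=
  (2 ≤ ∑ x ∈ G.pT B z, G.w5 Fa x z ∧ ∀ x ∈ G.pT B z, x ∉ G.N B') ∨ 2 ≤ ff G B' z ∨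
    (0 ≤ ff G B' z ∧ 2 ≤ ∑ x ∈ G.nR Fa z, G.w5 Fa x z) ∨ 4 ≤ ∑ x ∈ G.nR Fa z, G.w5 Fa x z

/-- a pair in `N B` -/
theorem pair_side (c : Tw2 G Fa z B B') (hT : G.PairSet (G.pT B z)) :
    (2 ≤ ∑ x ∈ G.pT B z, G.w5 Fa x z ∧ ∀ x ∈ G.pT B z, x ∉ G.N B') ∨
      ∀ x ∈ G.pT B z, x ∈ G.N B' := by
  obtain ⟨p, p', h1, h2⟩ := hT
  have hp : p ∈ G.pT B z := by rw [h2]; exact mem_insert_self _ _
  have hp' : p' ∈ G.pT B z := by rw [h2]; exact mem_insert_of_mem (mem_singleton_self _)
  have hpR := (mem_nR76.1 (c.T_vis hp)).2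
  obtain ⟨-, hI⟩ := (stTwHL_5 G).twI Fa c.reg p hpR p' h1
  have hiff : p ∈ G.N B' ↔ p' ∈ G.N B' := by
    constructor
    · intro h
      have : B' ∈ G.I Fa p' := by rw [hI]; exact mem_I76.2 ⟨c.F2, h⟩
      exact (mem_I76.1 this).2
    · intro h
      have : B' ∈ G.I Fa p := by rw [← hI]; exact mem_I76.2 ⟨c.F2, h⟩
      exact (mem_I76.1 this).2
  by_cases h3 : p ∈ G.N B'
  · right
    intro x hx
    rw [h2, mem_insert, mem_singleton] at hx
    rcases hx with rfl | rfl
    · exact h3
    · exact hiff.1 h3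
  · left
    have h4 : p' ∉ G.N B' := fun h => h3 (hiff.2 h)
    refine ⟨?_, ?_⟩
    · rw [h2, sum_pair (tw_ne h1)]
      have e1 := w5_tw (G := G) (Fa := Fa) (x := p) (z := z) ⟨p', h1⟩ (c.symm.m_le1 h3)
      have e2 := w5_tw (G := G) (Fa := Fa) (x := p') (z := z)
        ⟨p, (stTwHL_5 G).symm _ _ h1⟩ (c.symm.m_le1 h4)
      linarith
    · intro x hx
      rw [h2, mem_insert, mem_singleton] at hx
      rcases hx with rfl | rfl
      · exact h3
      · exact h4

/-- `U3` -/
theorem side_U3 (c : Tw2 G Fa z B B') (h : G.U3 B z) : Side G Fa z B B' := by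
  have h1 := U3_card h
  have h2 : (G.nb z ∩ B).card = 3 := h1.1
  have h3 : (G.nb z ∩ G.N B).card = 2 := h1.2
  have h6 := six_low c.low B
  have h7 := c.split_card
  have h8 := c.hid2
  rcases c.pair_side h.2.2.2 with h4 | h4
  · exact Or.inl h4
  · right; left
    have h9 : (G.nR Fa z).filter (fun x => x ∉ G.N B) = ∅ := by
      rw [← card_eq_zero]
      omega
    have hall : ∀ x ∈ G.nR Fa z, x ∈ G.N B := by
      intro x hx
      by_contra hc
      have : x ∈ (G.nR Fa z).filter (fun x => x ∉ G.N B) := mem_filter.2 ⟨hx, hc⟩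
      rw [h9] at this
      exact absurd this (notMem_empty _)
    have hall' : ∀ x ∈ G.nR Fa z, x ∈ G.N B' := fun x hx =>
      h4 x (mem_inter.2 ⟨(mem_nR76.1 hx).1, hall x hx⟩)
    have e1 := c.eq_Co hall'
    have e2 : G.pT B' z = G.pT B z := by
      ext x
      constructor
      · intro hx
        exact mem_inter.2 ⟨(mem_inter.1 hx).1, hall x (c.symm.T_vis hx)⟩
      · intro hx
        exact mem_inter.2 ⟨(mem_inter.1 hx).1, h4 x hx⟩
    have h10 : (G.nb z ∩ B').card = 1 := by omega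
    refine ff_pos c.fr2 c.low (Or.inl ⟨?_, c.low, ?_, ?_⟩) ?_ ?_ ?_ ?_
    · rw [(G.stCo_37 B' c.fr2).2.1]
      exact (mem_I76.1 c.mem2).2
    · show (G.nb z ∩ G.Co B').card = 3
      rw [e1, h2]
    · rw [pT_Co c.fr2, e2]
      exact h.2.2.2
    · intro v hv
      have : (G.nb z ∩ B').card = 2 := (S0_card hv).1
      omega
    · intro hh
      have : (G.nb z ∩ B').card = 3 := (U3_card hh).1
      omega
    · intro hh
      have := (T3_card hh).2.2
      rw [pO_Co c.fr2] at this
      omega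
    · intro hh
      have : (G.nb z ∩ G.Co B').card = 4 := (HF_card hh).1
      rw [e1] at this
      omega

/-- `T3` -/
theorem side_T3 (c : Tw2 G Fa z B B') (h : G.T3 (G.Co B) z) : Side G Fa z B B' := by
  have h1 := T3_card h
  have hP := T3_pair h
  rw [pT_Co c.fr1] at hP
  rw [pT_Co c.fr1, pO_Co c.fr1] at h1
  have h2 : (G.nb z ∩ G.Co B).card = 2 := h1.1
  have h3 : (G.nb z ∩ G.N B).card = 2 := h1.2.1
  have h4 : (G.nb z ∩ B).card = 2 := h1.2.2
  have h7 := c.split_card
  have h8 := c.hid2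
  rcases c.pair_side hP with h5 | h5
  · exact Or.inl h5
  have hnt : ∀ x ∈ G.pT B z, ∀ u, ¬ G.HL x z u := fun x hx u hh =>
    (stTwHL_5 G).notHL c.h9 _ _ _ hh (PairSet_tw c.h9 hP hx)
  by_cases h10 : (G.nb z ∩ B').card = 2
  · -- nothing else is visible
    right; left
    have h9 : (G.nR Fa z).filter (fun x => x ∉ G.N B) = ∅ := by
      rw [← card_eq_zero]
      omega
    have hall : ∀ x ∈ G.nR Fa z, x ∈ G.N B := by
      intro x hx
      by_contra hc
      have : x ∈ (G.nR Fa z).filter (fun x => x ∉ G.N B) := mem_filter.2 ⟨hx, hc⟩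
      rw [h9] at this
      exact absurd this (notMem_empty _)
    have hall' : ∀ x ∈ G.nR Fa z, x ∈ G.N B' := fun x hx =>
      h5 x (mem_inter.2 ⟨(mem_nR76.1 hx).1, hall x hx⟩)
    have e1 := c.eq_Co hall'
    have e2 : G.pT B' z = G.pT B z := by
      ext x
      constructor
      · intro hx
        exact mem_inter.2 ⟨(mem_inter.1 hx).1, hall x (c.symm.T_vis hx)⟩
      · intro hx
        exact mem_inter.2 ⟨(mem_inter.1 hx).1, h5 x hx⟩
    -- the data of `T3`
    obtain ⟨-, -, -, Q, Q', r, r', hh, t1, t2, t3, t4, t5, t6, t7, t8⟩ := h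
    rw [pT_Co c.fr1] at t4 t7
    rw [pO_Co c.fr1] at t5 t8
    have t6' : (G.nb Q ∩ G.Co B).card = 2 := t6
    have hQm : Q ∈ G.pT B z := by rw [t4]; exact mem_insert_self _ _
    have hQR := (mem_nR76.1 (c.T_vis hQm)).2
    have hQB' : Q ∈ G.N B' := h5 Q hQm
    have hQB : Q ∈ G.N B := (mem_inter.1 hQm).2
    have hQh : 2 ≤ (G.nb Q ∩ B').card :=
      two_hid c.h9 c.reg c.big hQR ⟨Q', t1⟩ (mem_I76.2 ⟨c.F2, hQB'⟩)
    -- the neighbours of `Q` outside of `B`, `N B` are in `B'`
    have e3 : G.nb Q ∩ B' = G.nb Q ∩ G.Co B := by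
      refine eq_of_subset_of_card_le ?_ (by omega)
      intro x hx
      exact mem_inter.2 ⟨(mem_inter.1 hx).1, blob_Co c.reg c.F1 c.F2 c.ne (mem_inter.1 hx).2⟩
    have e4 : (G.nb Q ∩ B').card = 2 := by rw [e3, t6']
    have t7' : G.nb Q ∩ G.N B = {Q', z} := t7
    have hzB' : z ∈ G.N B' := (mem_I76.1 c.mem2).2
    have hQ'B' : Q' ∈ G.N B' := h5 Q' (by rw [t4]; exact mem_insert_of_mem (mem_singleton_self _))
    -- the neighbours of `Q` in `N B'`
    have e5 : G.nb Q ∩ G.N B' = {Q', z} := by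
      rw [← t7']
      ext x
      rw [mem_inter, mem_inter]
      constructor
      · rintro ⟨x1, x2⟩
        refine ⟨x1, ?_⟩
        by_contra hc
        have x3 := N_R c.reg c.F2 x2
        have x4 : x ∈ G.nb Q ∩ G.Co B :=
          mem_inter.2 ⟨x1, mem_Co76.2 ⟨mem_R76.1 x3 B c.F1, hc⟩⟩
        rw [← e3, mem_inter] at x4
        exact mem_R76.1 x3 B' c.F2 x4.2
      · rintro ⟨x1, x2⟩
        refine ⟨x1, ?_⟩
        have : x ∈ G.nb Q ∩ G.N B := mem_inter.2 ⟨x1, x2⟩
        rw [t7', mem_insert, mem_singleton] at this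
        rcases this with rfl | rfl
        · exact hQ'B'
        · exact hzB'
    have e6 : G.nb Q ∩ G.Co B' = {r, r', hh} := by
      have k1 : G.nb Q ∩ B = {r, r', hh} := t8
      rw [← k1]
      have k2 := d_split76 (G := G) Q B'
      have k3 := d_split76 (G := G) Q B
      unfold d at k2 k3
      rw [e5] at k2
      rw [t7'] at k3
      symm
      refine eq_of_subset_of_card_le ?_ (by omega)
      intro x hx
      exact mem_inter.2 ⟨(mem_inter.1 hx).1, blob_Co c.reg c.F2 c.F1 c.ne.symm (mem_inter.1 hx).2⟩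
    refine ff_pos c.fr2 c.low (Or.inr (Or.inl ?_)) ?_ ?_ ?_ ?_
    · refine ⟨hzB', c.low, h10, Q, Q', r, r', hh, t1, t2, t3, ?_, ?_, e4, e5, e6⟩
      · rw [e2]
        exact t4
      · show G.nb z ∩ G.Co B' = {r, r'}
        rw [e1]
        exact t5
    · intro v hv
      have k1 := (S0_card hv).2
      rw [e2] at k1
      have : (G.pT B z).card = 2 := h1.2.1
      omega
    · intro hh
      have : (G.nb z ∩ B').card = 3 := (U3_card hh).1
      omega
    · rintro ⟨-, -, -, P, P', s, s', k, u1, u2, u3, u4, u5, u6, u7, u8⟩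
      rw [pT_Co c.fr2, e2, t4] at u4
      have u6' : (G.nb P ∩ G.Co B').card = 2 := u6
      have hP1 : P = Q ∨ P = Q' := by
        have : P ∈ ({Q, Q'} : Finset V) := by rw [u4]; exact mem_insert_self _ _
        rw [mem_insert, mem_singleton] at this
        exact this
      have hcl : ∀ x, x ∈ G.Co B' → x ∈ G.nb Q → x ≠ P → x ∈ G.nb P := by
        intro x _ hx hxP
        rcases hP1 with rfl | rfl
        · exact hx
        · exact Tw_nb5 t1 hx (by
            intro he
            exact hxP he)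
      have k9 : G.nb Q ∩ G.Co B' ⊆ G.nb P ∩ G.Co B' := by
        intro x hx
        rw [mem_inter] at hx ⊢
        refine ⟨hcl x hx.2 hx.1 ?_, hx.2⟩
        rintro rfl
        have : x ∈ G.N B' := by
          rcases hP1 with rfl | rfl
          · exact hQB'
          · exact hQ'B'
        exact (mem_Co76.1 hx.2).2 this
      have k10 := card_le_card k9
      have k11 : (G.nb Q ∩ B).card = (G.nb Q ∩ G.Co B').card := by
        rw [e6]
        exact congrArg card t8
      have k12 := d_split76 (G := G) Q B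
      unfold d at k12
      rw [t7'] at k12
      have k13 : (G.nb Q).card = 7 := t1.2.1
      have k14 : ({Q', z} : Finset V).card = 2 := by
        refine card_pair ?_
        rintro rfl
        exact tw_not_low11 ⟨Q, (stTwHL_5 G).symm _ _ t1⟩ c.low
      omega
    · intro hh
      have k1 := (HF_card hh).2
      rw [pT_Co c.fr2, e2] at k1
      have : (G.pT B z).card = 2 := h1.2.1
      omega
  · -- one more visible vertex
    have h11 : (G.nb z ∩ B').card = 1 := by omega
    have h12 : ((G.nR Fa z).filter fun x => x ∉ G.N B).card = 1 := by omega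
    obtain ⟨x, hx⟩ := card_eq_one.1 h12
    have hxm : x ∈ (G.nR Fa z).filter fun x => x ∉ G.N B := by rw [hx]; exact mem_singleton_self _
    rw [mem_filter] at hxm
    right; right; left
    refine ⟨c.ff_nonneg_pair hP h5 h10 (by omega), ?_⟩
    refine le_trans ?_ (single_le_sum (f := fun x => G.w5 Fa x z) (fun x _ => c.w_nonneg x) hxm.1)
    show 2 ≤ G.w5 Fa x z
    by_cases hl : G.Low x
    · rw [w5_low hl]
      have : (G.m Fa x z : ℤ) ≤ 1 := by exact_mod_cast c.m_le1 hxm.2
      linarith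
    by_cases hxB' : x ∈ G.N B'
    · refine w5_unpaid (c.m_le1 hxm.2) (c.useless hxB' ?_ ?_ hnt)
      · intro u hu
        by_cases hu' : u ∈ G.N B
        · exact h5 u (mem_inter.2 ⟨(mem_nR76.1 hu).1, hu'⟩)
        · have : u ∈ (G.nR Fa z).filter fun x => x ∉ G.N B := mem_filter.2 ⟨hu, hu'⟩
          rw [hx, mem_singleton] at this
          rw [this]
          exact hxB'
      · intro b hb hbl
        by_cases hb' : b ∈ G.N B
        · exact tw_not_low11 (PairSet_tw c.h9 hP (mem_inter.2 ⟨(mem_nR76.1 hb).1, hb'⟩)) hbl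
        · have : b ∈ (G.nR Fa z).filter fun x => x ∉ G.N B := mem_filter.2 ⟨hb, hb'⟩
          rw [hx, mem_singleton] at this
          rw [this] at hbl
          exact hl hbl
    · exact w5_zero (c.m_zero hxm.2 hxB')

/-- `HF` -/
theorem side_HF (c : Tw2 G Fa z B B') (h : G.HF (G.Co B) z) : Side G Fa z B B' := by
  have h1 := HF_card h
  rw [pT_Co c.fr1] at h1
  have h2 : (G.nb z ∩ G.Co B).card = 4 := h1.1
  have h3 : (G.nb z ∩ G.N B).card = 1 := h1.2
  have h6 := six_low c.low B
  have h7 := c.split_card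
  have h8 := c.hid2
  obtain ⟨-, -, -, a, b, t1, t2, t3, t4⟩ := h
  rw [(G.stCo_37 B c.fr1).2.1] at t2 t3
  rw [pT_Co c.fr1] at t4
  have ham : a ∈ G.pT B z := by rw [t4]; exact mem_singleton_self _
  have hpay := pay_HL (Fa := Fa) c.h9 c.low t1
  have hT : ∀ x ∈ G.pT B z, x = a := fun x hx => by rwa [t4, mem_singleton] at hx
  by_cases haB' : a ∈ G.N B'
  swap
  · left
    refine ⟨?_, fun x hx => by rw [hT x hx]; exact haB'⟩
    rw [t4, sum_singleton]
    exact w5_unpaid (c.symm.m_le1 haB') hpay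
  have hbB' : b ∈ G.N B' := by
    have e1 := HL_I76 t1 (mem_nR76.1 (c.T_vis ham)).2 (N_R c.reg c.F1 t3) c.zR
    have : B' ∈ G.I Fa b := by rw [← e1]; exact mem_I76.2 ⟨c.F2, haB'⟩
    exact (mem_I76.1 this).2
  have hnt : ∀ x ∈ G.pT B z, ∀ u, ¬ G.HL x z u := fun x hx u hh => by
    rw [hT x hx] at hh
    exact (stTwHL_5 G).nomut c.h9 _ _ _ _ _ t1 hh rfl
  -- negative flags of `B'`
  have hff : 0 ≤ ff G B' z ∨ 4 ≤ ∑ x ∈ G.nR Fa z, G.w5 Fa x z := by
    have haT' : a ∈ G.pT B' z := mem_inter.2 ⟨(mem_inter.1 ham).1, haB'⟩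
    have hal : ¬ G.Low a := HL_not_low76 t1
    have hat : ¬ G.IsTw a := (stTwHL_5 G).notHL c.h9 _ _ _ t1
    rcases ff_cases c.fr2 c.low with k | ⟨-, k | k | k | k⟩
    · exact Or.inl k
    · obtain ⟨v, hv, -⟩ := k
      have := S0_uniq hv haT'
      exact absurd (by rw [this]; exact hv.2.2.1) hal
    · exact absurd (PairSet_tw c.h9 k.2.2.2 haT') hat
    · have k2 := T3_pair k
      rw [pT_Co c.fr2] at k2
      exact absurd (PairSet_tw c.h9 k2 haT') hat
    · right
      have k1 := HF_card k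
      rw [pT_Co c.fr2] at k1
      have k2 : (G.nb z ∩ G.Co B').card = 4 := k1.1
      have k3 : (G.nb z ∩ G.N B').card = 1 := k1.2
      have k6 := six_low c.low B'
      have k4 : ((G.nR Fa z).filter fun x => x ∉ G.N B).card = 3 := by omega
      have k5 : ∀ x ∈ (G.nR Fa z).filter (fun x => x ∉ G.N B), 2 ≤ G.w5 Fa x z := by
        intro x hx
        rw [mem_filter] at hx
        refine w5_zero (c.m_zero hx.2 fun hxB' => ?_)
        have : x ∈ G.pT B' z := mem_inter.2 ⟨(mem_nR76.1 hx.1).1, hxB'⟩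
        obtain ⟨y, hy⟩ := card_eq_one.1 (show (G.pT B' z).card = 1 from k3)
        rw [hy, mem_singleton] at this haT'
        rw [this, ← haT'] at hx
        exact hx.2 (mem_inter.1 ham).2
      have k7 := sum_le_sum k5
      rw [sum_const, k4, nsmul_eq_mul] at k7
      have k8 := c.sum_ge (S := (G.nR Fa z).filter fun x => x ∉ G.N B) (filter_subset _ _)
      push_cast at k7
      linarith
  rcases hff with hff | hff
  swap
  · exact Or.inr (Or.inr (Or.inr hff))
  by_cases hX : (G.nR Fa z).filter (fun x => x ∉ G.N B) = ∅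
  · right; left
    rw [hX, card_empty] at h7
    have hall : ∀ x ∈ G.nR Fa z, x ∈ G.N B := by
      intro x hx
      by_contra hc
      have : x ∈ (G.nR Fa z).filter (fun x => x ∉ G.N B) := mem_filter.2 ⟨hx, hc⟩
      rw [hX] at this
      exact absurd this (notMem_empty _)
    have e2 : G.pT B' z = {a} := by
      ext x
      rw [mem_singleton]
      constructor
      · intro hx
        exact hT x (mem_inter.2 ⟨(mem_inter.1 hx).1, hall x (c.symm.T_vis hx)⟩)
      · rintro rfl
        exact mem_inter.2 ⟨(mem_inter.1 ham).1, haB'⟩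
    have h4 : (G.nb z ∩ B').card = 4 := by omega
    have k6 := six_low c.low B'
    have k3 : (G.nb z ∩ G.N B').card = 1 := by
      have : G.nb z ∩ G.N B' = {a} := e2
      rw [this, card_singleton]
    refine ff_pos c.fr2 c.low (Or.inr (Or.inr ⟨(mem_I76.1 c.mem2).2, c.low, h4, a, b, t1, haB',
      hbB', e2⟩)) ?_ ?_ ?_ ?_
    · intro v hv
      have : (G.nb z ∩ B').card = 2 := (S0_card hv).1
      omega
    · intro hh
      have : (G.nb z ∩ B').card = 3 := (U3_card hh).1
      omega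
    · intro hh
      have := (T3_card hh).2.2
      rw [pO_Co c.fr2] at this
      omega
    · intro hh
      have : (G.nb z ∩ G.Co B').card = 4 := (HF_card hh).1
      omega
  · right; right; left
    refine ⟨hff, ?_⟩
    by_cases hlow : ∃ x ∈ (G.nR Fa z).filter (fun x => x ∉ G.N B), G.Low x ∨ x ∉ G.N B'
    · obtain ⟨x, hx, hx'⟩ := hlow
      rw [mem_filter] at hx
      refine le_trans ?_
        (single_le_sum (f := fun x => G.w5 Fa x z) (fun x _ => c.w_nonneg x) hx.1)
      show 2 ≤ G.w5 Fa x z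
      rcases hx' with hl | hxB'
      · rw [w5_low hl]
        have : (G.m Fa x z : ℤ) ≤ 1 := by exact_mod_cast c.m_le1 hx.2
        linarith
      · exact w5_zero (c.m_zero hx.2 hxB')
    · push Not at hlow
      obtain ⟨x, hx⟩ := nonempty_iff_ne_empty.2 hX
      have hx0 := mem_filter.1 hx
      refine le_trans ?_
        (single_le_sum (f := fun x => G.w5 Fa x z) (fun x _ => c.w_nonneg x) hx0.1)
      show 2 ≤ G.w5 Fa x z
      refine w5_unpaid (c.m_le1 hx0.2) (c.useless (hlow x hx).2 ?_ ?_ hnt)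
      · intro u hu
        by_cases hu' : u ∈ G.N B
        · rw [hT u (mem_inter.2 ⟨(mem_nR76.1 hu).1, hu'⟩)]
          exact haB'
        · exact (hlow u (mem_filter.2 ⟨hu, hu'⟩)).2
      · intro y hy hyl
        by_cases hy' : y ∈ G.N B
        · rw [hT y (mem_inter.2 ⟨(mem_nR76.1 hy).1, hy'⟩)] at hyl
          exact HL_not_low76 t1 hyl
        · exact (hlow y (mem_filter.2 ⟨hy, hy'⟩)).1 hyl

/-- `S0` with the partner not in `N B'` -/
theorem side_S0 (c : Tw2 G Fa z B B') {v : V} (h : G.S0 B z v) (hv : v ∉ G.N B') :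
    Side G Fa z B B' := by
  have h1 := h.2.2.2.1
  left
  rw [h1, sum_singleton]
  refine ⟨?_, fun x hx => by rw [mem_singleton.1 hx]; exact hv⟩
  rw [w5_low h.2.2.1]
  have : (G.m Fa v z : ℤ) ≤ 1 := by exact_mod_cast c.symm.m_le1 hv
  linarith

/-- the only negative vertices -/
theorem main (c : Tw2 G Fa z B B') (hneg : G.ch5 Fa z < 0) :
    (∃ v, G.S0 B z v ∧ v ∈ G.N B') ∨ ∃ v, G.S0 B' z v ∧ v ∈ G.N B := by
  by_contra hcon
  rw [not_or] at hcon
  have side : ∀ {D D' : Finset V}, Tw2 G Fa z D D' → (¬ ∃ v, G.S0 D z v ∧ v ∈ G.N D') →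
      ff G D z < 0 → Side G Fa z D D' := by
    intro D D' c' hn hf
    rcases ff_cases c'.fr1 c'.low with k | ⟨-, k | k | k | k⟩
    · linarith
    · obtain ⟨v, hv, -⟩ := k
      exact c'.side_S0 hv fun hh => hn ⟨v, hv, hh⟩
    · exact c'.side_U3 k
    · exact c'.side_T3 k
    · exact c'.side_HF k
  have hS : 0 ≤ ∑ x ∈ G.nR Fa z, G.w5 Fa x z := sum_nonneg fun x _ => c.w_nonneg x
  have f1 := ff_ge (G := G) c.fr1 c.low
  have f2 := ff_ge (G := G) c.fr2 c.low
  rw [c.ch] at hneg
  have s1 : ff G B z < 0 → Side G Fa z B B' := side c hcon.1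
  have s2 : ff G B' z < 0 → Side G Fa z B' B := side c.symm hcon.2
  by_cases g1 : ff G B z < 0
  · by_cases g2 : ff G B' z < 0
    · rcases s1 g1 with ⟨k1, k2⟩ | k1 | ⟨k1, -⟩ | k1
      · rcases s2 g2 with ⟨k3, k4⟩ | k3 | ⟨k3, -⟩ | k3
        · have hd : Disjoint (G.pT B z) (G.pT B' z) := by
            rw [disjoint_left]
            intro x hx hx'
            exact k2 x hx (mem_inter.1 hx').2
          have k5 := c.sum_ge (union_subset c.T_vis c.symm.T_vis)
          rw [sum_union hd] at k5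
          linarith
        · linarith
        · linarith
        · linarith
      · linarith
      · linarith
      · linarith
    · rcases s1 g1 with ⟨k1, k2⟩ | k1 | ⟨k1, k2⟩ | k1
      · have k5 := c.sum_ge c.T_vis
        linarith
      · linarith
      · linarith
      · linarith
  · by_cases g2 : ff G B' z < 0
    · rcases s2 g2 with ⟨k1, k2⟩ | k1 | ⟨k1, k2⟩ | k1
      · have k5 := c.sum_ge c.symm.T_vis
        linarith
      · linarith
      · linarith
      · linarith
    · linarith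

end Tw2

end K28

end CG

end Pool.Agent.Lib.MP_e95c01_co.N
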