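import Pool.Agent.Lib.MP_e95c01_co.X.StmtsU76
import Pool.Agent.Lib.MP_e95c01_co.X.K3f_28

/-!
# `λ = 3`, thick torsos: C6c, low vertices with four or more outer neighbours (helper88)
-/

namespace Pool.Agent.Lib.MP_e95c01_co.N

open Finset

variable {V : Type} [Fintype V] [DecidableEq V]

namespace CG

namespace C6c88

variable {G : CG V} {Fa : Finset (Finset V)}

open K28

theorem notPD {z d : V} (hd : G.Low d) : ¬ G.PD Fa z d := by
  intro h
  cases h with
  | t3 h1 h2 h3 => exact tw_not_low11 ⟨_, h1.t⟩ hd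
  | t6 h1 h2 h3 h4 h5 => exact tw_not_low11 ⟨_, h1.t⟩ hd
  | eps h1 h2 h3 => exact tw_not_low11 ⟨_, h1.t⟩ hd
  | s0 h1 h2 h3 => exact tw_not_low11 ⟨_, h1.t⟩ hd

theorem notPF {z d : V} (hd : G.Low d) : ¬ G.PF Fa z d := by
  intro h
  cases h with
  | t4 h1 h2 h3 => exact tw_not_low11 ⟨_, h1.t⟩ hd

theorem notPS {z d : V} (hd : G.Low d) : ¬ G.PS Fa z d := by
  intro h
  cases h with
  | t3 h1 h2 h3 => exact tw_not_low11 ⟨_, h1.t⟩ hd
  | t6 h1 h2 h3 h4 h5 => exact tw_not_low11 ⟨_, h1.t⟩ hd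

theorem notSK {z d : V} (hd : G.Low d) : ¬ G.SK Fa z d := by
  intro h
  cases h with
  | t4 h1 h2 => exact h1.hx.1 hd
  | t6q g h1 h2 h3 h4 h5 h6 => exact h5.1 hd
  | t6l g h1 h2 h3 => exact h3.2.2.1.1.1 hd
  | gam g h1 h2 h3 h4 h5 h6 =>
    rcases h4 with rfl | rfl
    · exact h1.hx.1.1 hd
    · exact h1.hy.1.1 hd
  | the g h1 h2 h3 h4 =>
    rcases h3 with rfl | rfl
    · exact h1.hx.1.1 hd
    · exact h1.hy.1.1 hd

theorem notHD {z d : V} (hd : G.Low d) : ¬ G.HD Fa z d := by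
  intro h
  cases h with
  | eta h1 h2 h3 => exact HL_not_low76 h1.hl hd
  | ast g h1 h2 h3 h4 h5 h6 h7 h8 h9 => exact h8.1 hd

theorem notHS {z d : V} (hd : G.Low d) : ¬ G.HS Fa z d := by
  intro h
  cases h with
  | dbl g h1 h2 h3 h4 h5 h6 h7 h8 => exact h8.1 hd

theorem notPQ {z d : V} (hd : G.Low d) : ¬ G.PQ Fa z d := by
  classical
  intro h
  have h1 := h.2.2.2.2
  rw [NH, mem_filter] at h1
  exact h1.2.1.1 hd

open Classical in
theorem dn_low {z d : V} (hd : G.Low d) : G.dn5 Fa d z =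
    (if G.DL Fa z d then -2 * G.ch5 Fa z else 0) + (if G.AL Fa z d then 2 else 0) := by
  rw [dn5, if_neg (notPD hd), if_neg (notPF hd), if_neg (notPS hd), if_neg (notSK hd),
    if_neg (notHD hd), if_neg (notHS hd), if_neg (notPQ hd)]
  ring

theorem S0_T {B : Finset V} {z v : V} (h : G.S0 B z v) : v ∈ G.nb z ∧ v ∈ G.N B ∧ G.Low z := by
  have h1 : v ∈ G.pT B z := by
    rw [h.2.2.2.1]
    exact mem_singleton_self _
  exact ⟨(mem_inter.1 h1).1, (mem_inter.1 h1).2, h.2.1⟩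

theorem mem_NF_low {z d : V} (hd : G.Low d) (hdR : d ∈ R Fa) (h : d ∈ G.nb z) :
    d ∈ G.NF Fa z := by
  classical
  rw [NF, mem_filter]
  exact ⟨mem_nR76.2 ⟨h, hdR⟩, Or.inl hd⟩

/-- a claimant that is no `l` of THETA or ETA is an adjacent low vertex with deficit at most 2 -/
theorem claim_low (hG : G.Gen6 Fa) {z d : V} {B : Finset V} (hL : G.L1 Fa B d)
    (hn : ¬ (∃ l a, ((∃ x y, G.The Fa B l a d x y) ∨ ∃ q p, G.Eta Fa B l a d q p) ∧
      G.DL Fa l d)) (h : G.DL Fa z d) : G.Low z ∧ d ∈ G.nb z ∧ -2 ≤ G.ch5 Fa z := by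
  have h9 := hG.g5.n9
  have hreg := hG.g5.reg
  have hd := hL.low
  have hdR := hL.lR
  have key0 : ∀ {z : V}, G.L0 Fa z → d ∈ G.nb z → G.Low z ∧ d ∈ G.nb z ∧ -2 ≤ G.ch5 Fa z := by
    intro z hz hdz
    refine ⟨hz.low, hdz, ?_⟩
    have h1 := (G.stCh5_28).low0 h9 Fa hreg z hz.lR hz.low hz.I0
    have h2 : 0 < (G.NF Fa z).card := card_pos.2 ⟨d, mem_NF_low hd hdR hdz⟩
    have h3 : (1 : ℤ) ≤ ((G.NF Fa z).card : ℤ) := by exact_mod_cast h2
    linarith
  have key1 : ∀ {z : V} {D : Finset V}, G.L1 Fa D z → d ∈ G.nb z → ∀ r : ℕ,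
      (G.pO D z).card = r → 0 ≤ 2 * (r : ℤ) - 4 + G.fg5 Fa z →
      G.Low z ∧ d ∈ G.nb z ∧ -2 ≤ G.ch5 Fa z := by
    intro z D hz hdz r hr hf
    refine ⟨hz.low, hdz, ?_⟩
    have h1 := (G.stCh5_28).low1 h9 Fa hreg z hz.lR hz.low D hz.I1
    have h2 : 0 < (G.NF Fa z).card := card_pos.2 ⟨d, mem_NF_low hd hdR hdz⟩
    have h3 : (1 : ℤ) ≤ ((G.NF Fa z).card : ℤ) := by exact_mod_cast h2
    have h4 : (0 : ℤ) ≤ ((G.NP Fa z).card : ℤ) := by positivity
    have h5 : G.d z (G.Co D) = r := hr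
    rw [h5] at h1
    linarith
  have hfr : ∀ {z : V} {D : Finset V}, G.L1 Fa D z → G.Frag D := by
    intro z D hz
    exact hreg.frag D (mem_I76.1 (hz.I1.symm ▸ mem_singleton_self D : D ∈ G.I Fa z)).1
  have hff : ∀ {z : V} {D : Finset V}, G.L1 Fa D z → G.fg5 Fa z = ff G D z := by
    intro z D hz
    rw [fg_eq, hz.I1, sum_singleton]
  cases h with
  | gam h1 h2 h3 =>
    rename_i D x y
    have hdT := h1.dT
    refine key1 h1.toL1 (mem_inter.1 hdT).1 2 (by rw [h1.out]; exact card_pair h1.ne) ?_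
    rw [hff h1.toL1]
    have h5 := ff_low h9 (hfr h1.toL1) h1.low hd hdT
    have h6 := s5_nonneg (G := G) (G.Co D) z
    have h7 : G.s5 D z = 0 := s5_zero fun v hv => by
      have e1 := S0_card hv
      have e2 := six_low h1.low D
      have e3 : (G.nb z ∩ G.Co D).card = 2 := by
        have := h1.out
        rw [pO] at this
        rw [this]
        exact card_pair h1.ne
      rw [pX, pT] at e1
      omega
    push_cast
    linarith
  | the h1 h2 h3 h4 =>
    rename_i D a x y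
    exfalso
    apply hn
    have ha : a ∈ R Fa := N_R hreg (mem_I76.1 (h1.I1.symm ▸ mem_singleton_self D :
      D ∈ G.I Fa z)).1 (mem_inter.1 h1.aT).2
    have h5 := HL_I76 h1.hl ha hdR h1.lR
    have h6 : D ∈ G.I Fa a := mem_I76.2 ⟨(mem_I76.1 (h1.I1.symm ▸ mem_singleton_self D :
      D ∈ G.I Fa z)).1, (mem_inter.1 h1.aT).2⟩
    rw [h5, hL.I1, mem_singleton] at h6
    subst h6
    exact ⟨z, a, Or.inl ⟨x, y, h1⟩, DL.the h1 h2 h3 h4⟩
  | eps h1 h2 h3 =>
    rename_i D q p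
    refine key1 h1.toL1 (mem_inter.1 h1.dT).1 2 (by rw [h1.out]; exact card_pair (tw_ne h1.t)) ?_
    rw [h1.flag]
    norm_num
  | eta h1 h2 h3 =>
    rename_i D a q p
    exfalso
    apply hn
    have ha : a ∈ R Fa := N_R hreg (mem_I76.1 (h1.I1.symm ▸ mem_singleton_self D :
      D ∈ G.I Fa z)).1 (mem_inter.1 h1.aT).2
    have h5 := HL_I76 h1.hl ha hdR h1.lR
    have h6 : D ∈ G.I Fa a := mem_I76.2 ⟨(mem_I76.1 (h1.I1.symm ▸ mem_singleton_self D :
      D ∈ G.I Fa z)).1, (mem_inter.1 h1.aT).2⟩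
    rw [h5, hL.I1, mem_singleton] at h6
    subst h6
    exact ⟨z, a, Or.inr ⟨q, p, h1⟩, DL.eta h1 h2 h3⟩
  | s0 h1 h2 h3 =>
    rename_i D q p y
    have e1 := S0_card h1.s0
    have e2 := six_low h1.low D
    rw [pX, pT] at e1
    refine key1 h1.toL1 (S0_T h1.s0).1 3 (by rw [pO]; omega) ?_
    rw [hff h1.toL1]
    have h5 := ff_ge (hfr h1.toL1) h1.low
    push_cast
    linarith
  | t3 h1 h2 h3 =>
    exact key0 h1.toL0 (by rw [h1.nb]; exact mem_insert_self _ _)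
  | t6 h1 h2 h3 =>
    exact key0 h1.toL0 (by rw [h1.nb]; exact mem_insert_self _ _)
  | k2 h1 h2 h3 h4 =>
    rename_i D
    obtain ⟨e1, e2, e3⟩ := S0_T h3
    refine ⟨e3, e1, ?_⟩
    have hzR : z ∈ R Fa := N_R hreg (mem_I76.1 h2).1 (mem_I76.1 h2).2
    have hk : (G.I Fa z).card = 2 := by
      by_contra hk
      have := low_three h9 hreg hzR e3 (by omega)
      linarith
    obtain ⟨D1, D2, hne, hI⟩ := card_eq_two.1 hk
    have c : Tw2 G Fa z D1 D2 := ⟨h9, hreg, hG.g5.big, hzR, e3, hne, hI⟩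
    have h5 := c.ch
    have h6 : G.w5 Fa d z ≤ ∑ x ∈ G.nR Fa z, G.w5 Fa x z := by
      have := c.sum_ge (S := {d}) (by
        intro x hx
        rw [mem_singleton] at hx
        subst hx
        exact mem_nR76.2 ⟨e1, hdR⟩)
      rwa [sum_singleton] at this
    have h7 : (2 : ℤ) ≤ G.w5 Fa d z := by
      rw [w5_low hd]
      have h8 := m_le_left (G := G) (Fa := Fa) d z
      rw [hL.I1, card_singleton] at h8
      have : (G.m Fa d z : ℤ) ≤ 1 := by exact_mod_cast h8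
      linarith
    have h8 := ff_ge c.fr1 e3
    have h9' := ff_ge c.fr2 e3
    linarith

/-- the pairs of twins of type ALPHA -/
theorem claim_al {z d : V} {B : Finset V} (hL : G.L1 Fa B d) (h : G.AL Fa z d) :
    z ∈ G.NP Fa d := by
  classical
  obtain ⟨D, p, e, f, h', h1⟩ := h
  have h2 : d ∈ G.pT D z := by
    rw [h1.nT]
    exact mem_insert_of_mem (mem_singleton_self _)
  have h3 : D ∈ G.I Fa z := h1.I1.symm ▸ mem_singleton_self D
  have h4 : D ∈ G.I Fa d := mem_I76.2 ⟨(mem_I76.1 h3).1, (mem_inter.1 h2).2⟩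
  rw [NP, mem_filter]
  refine ⟨mem_nR76.2 ⟨G.sym _ _ (mem_inter.1 h2).1, h1.qR⟩, ⟨p, h1.t⟩, by
    rw [h1.I1, card_singleton], ?_⟩
  rw [m]
  intro h5
  rw [card_eq_zero] at h5
  have h6 : D ∈ G.I Fa z ∩ G.I Fa d := mem_inter.2 ⟨h3, h4⟩
  rw [h5] at h6
  exact notMem_empty _ h6

open Classical in
/-- the sum of all claims, if there is no `l` of THETA or ETA -/
theorem ask_le (hG : G.Gen6 Fa) {d : V} {B : Finset V} (hL : G.L1 Fa B d)
    (hn : ¬ (∃ l a, ((∃ x y, G.The Fa B l a d x y) ∨ ∃ q p, G.Eta Fa B l a d q p) ∧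
      G.DL Fa l d)) :
    G.ask Fa d ≤ 4 * (((G.nR Fa d).filter fun z => G.Low z ∧ G.DL Fa z d).card : ℤ) +
      2 * (((G.NP Fa d).filter fun z => G.AL Fa z d).card : ℤ) := by
  have e1 : G.ask Fa d = ∑ z ∈ R Fa, (if G.DL Fa z d then -2 * G.ch5 Fa z else 0) +
      ∑ z ∈ R Fa, (if G.AL Fa z d then (2 : ℤ) else 0) := by
    rw [ask, ← sum_add_distrib]
    exact sum_congr rfl fun z _ => dn_low hL.low
  have e2 : ∑ z ∈ R Fa, (if G.DL Fa z d then -2 * G.ch5 Fa z else 0) ≤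
      4 * (((G.nR Fa d).filter fun z => G.Low z ∧ G.DL Fa z d).card : ℤ) := by
    rw [← sum_filter]
    have e3 : (R Fa).filter (fun z => G.DL Fa z d) ⊆
        (G.nR Fa d).filter fun z => G.Low z ∧ G.DL Fa z d := by
      intro z hz
      rw [mem_filter] at hz
      obtain ⟨c1, c2, c3⟩ := claim_low hG hL hn hz.2
      rw [mem_filter]
      exact ⟨mem_nR76.2 ⟨G.sym _ _ c2, hz.1⟩, c1, hz.2⟩
    have e4 : ∑ z ∈ (R Fa).filter (fun z => G.DL Fa z d), -2 * G.ch5 Fa z ≤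
        ∑ z ∈ (R Fa).filter (fun z => G.DL Fa z d), (4 : ℤ) := by
      refine sum_le_sum fun z hz => ?_
      rw [mem_filter] at hz
      obtain ⟨c1, c2, c3⟩ := claim_low hG hL hn hz.2
      linarith
    rw [sum_const, nsmul_eq_mul] at e4
    have e5 : (((R Fa).filter (fun z => G.DL Fa z d)).card : ℤ) ≤
        (((G.nR Fa d).filter fun z => G.Low z ∧ G.DL Fa z d).card : ℤ) := by
      exact_mod_cast card_le_card e3
    linarith
  have e3 : ∑ z ∈ R Fa, (if G.AL Fa z d then (2 : ℤ) else 0) ≤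
      2 * (((G.NP Fa d).filter fun z => G.AL Fa z d).card : ℤ) := by
    rw [← sum_filter, sum_const, nsmul_eq_mul]
    have e5 : (R Fa).filter (fun z => G.AL Fa z d) ⊆
        (G.NP Fa d).filter fun z => G.AL Fa z d := by
      intro z hz
      rw [mem_filter] at hz
      rw [mem_filter]
      exact ⟨claim_al hL hz.2, hz.2⟩
    have e6 : (((R Fa).filter (fun z => G.AL Fa z d)).card : ℤ) ≤
        (((G.NP Fa d).filter fun z => G.AL Fa z d).card : ℤ) := by
      exact_mod_cast card_le_card e5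
    linarith
  rw [e1]
  linarith

end C6c88

open K28 C6c88 in
/-- C6c -/
theorem stC6c_88 (G : CG V) : G.StC6c := by
  classical
  intro Fa hG B d hL hr hn
  have h9 := hG.g5.n9
  have hreg := hG.g5.reg
  have h1 := (G.stCh5_28).low1 h9 Fa hreg d hL.lR hL.low B hL.I1
  have h2 := ask_le hG hL hn
  have hB : B ∈ Fa := (mem_I76.1 (hL.I1.symm ▸ mem_singleton_self B : B ∈ G.I Fa d)).1
  have h3 : (((G.NP Fa d).filter fun z => G.AL Fa z d).card : ℤ) ≤ ((G.NP Fa d).card : ℤ) := by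
    exact_mod_cast card_le_card (filter_subset _ _)
  have hsub : ((G.nR Fa d).filter fun z => G.Low z ∧ G.DL Fa z d) ⊆ G.NF Fa d := by
    intro z hz
    rw [mem_filter] at hz
    rw [NF, mem_filter]
    exact ⟨hz.1, Or.inl hz.2.1⟩
  have h4 : (((G.nR Fa d).filter fun z => G.Low z ∧ G.DL Fa z d).card : ℤ) ≤
      ((G.NF Fa d).card : ℤ) := by
    exact_mod_cast card_le_card hsub
  have h5 : G.fg5 Fa d = ff G B d := by
    rw [fg_eq, hL.I1, sum_singleton]
  have h6 := six_low hL.low B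
  have h7 : (4 : ℤ) ≤ (G.d d (G.Co B) : ℤ) := by exact_mod_cast hr
  have h8 : 4 ≤ (G.nb d ∩ G.Co B).card := hr
  rcases ff_cases (hreg.frag B hB) hL.low with h | ⟨h, h' | h' | h' | h'⟩
  · rw [h5] at h1
    linarith
  · obtain ⟨v, hv, -⟩ := h'
    have e1 := S0_card hv
    rw [pX, pT] at e1
    omega
  · have e1 := U3_card h'
    rw [pX, pT] at e1
    omega
  · have e1 := T3_card h'
    rw [pX, pT, pO_Co (hreg.frag B hB), (G.stCo_37 B (hreg.frag B hB)).2.1] at e1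
    omega
  · obtain ⟨-, -, -, a, b, hab, ha, -, hT⟩ := h'
    rw [(G.stCo_37 B (hreg.frag B hB)).2.1] at ha
    have haT : a ∈ G.nb d := by
      have : a ∈ G.pT (G.Co B) d := by
        rw [hT]
        exact mem_singleton_self _
      exact (mem_inter.1 this).1
    have haR : a ∈ R Fa := N_R hreg hB ha
    have haNF : a ∈ G.NF Fa d := by
      rw [NF, mem_filter]
      exact ⟨mem_nR76.2 ⟨haT, haR⟩, Or.inr (Or.inr ⟨b, hab⟩)⟩
    have hanot : a ∉ (G.nR Fa d).filter fun z => G.Low z ∧ G.DL Fa z d := by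
      rw [mem_filter]
      rintro ⟨-, h10, -⟩
      exact HL_not_low76 hab h10
    have h10 : ((G.nR Fa d).filter fun z => G.Low z ∧ G.DL Fa z d).card + 1 ≤
        (G.NF Fa d).card := by
      rw [← card_insert_of_notMem hanot]
      apply card_le_card
      intro z hz
      rw [mem_insert] at hz
      rcases hz with rfl | hz
      · exact haNF
      · exact hsub hz
    have h11 : (((G.nR Fa d).filter fun z => G.Low z ∧ G.DL Fa z d).card : ℤ) + 1 ≤
        ((G.NF Fa d).card : ℤ) := by exact_mod_cast h10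
    rw [h5] at h1
    linarith


end CG

end Pool.Agent.Lib.MP_e95c01_co.N
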