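import Pool.Agent.Lib.MP_e95c01_co.X.StmtsU76

/-!
# `λ = 3`, thick torsos: auxiliary facts about the types and the donations
-/

namespace Pool.Agent.Lib.MP_e95c01_co.N

open Finset

variable {V : Type} [Fintype V] [DecidableEq V]

namespace CG

variable {G : CG V} {Fa : Finset (Finset V)}

/-! ### hubs, twins, lows -/

theorem hub_not_tw76 {x : V} (h : G.Hub x) : ¬ G.IsTw x := h.2

theorem hub_not_low76 {x : V} (h : G.Hub x) : ¬ G.Low x := h.1

theorem tw_of76 {q p : V} (h : G.Tw q p) : G.IsTw q := ⟨p, h⟩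

theorem tw_of76' {q p : V} (h : G.Tw q p) : G.IsTw p := ⟨q, (stTwHL_5 G).symm _ _ h⟩

theorem tw_symm76 {q p : V} (h : G.Tw q p) : G.Tw p q := (stTwHL_5 G).symm _ _ h

theorem tw_not_low76 {q : V} (h : G.IsTw q) : ¬ G.Low q := tw_not_low11 h

theorem trich76 (x : V) : G.Low x ∨ G.IsTw x ∨ G.Hub x := by
  by_cases h1 : G.Low x
  · exact Or.inl h1
  by_cases h2 : G.IsTw x
  · exact Or.inr (Or.inl h2)
  · exact Or.inr (Or.inr ⟨h1, h2⟩)

theorem tw_not_HL76 (h9 : 9 ≤ Fintype.card V) {z : V} (hz : G.IsTw z) (l : V) :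
    ¬ ∃ b, G.HL z b l := fun ⟨_, h⟩ => (stTwHL_5 G).notHL h9 _ _ _ h hz

theorem low_not_HL76 {z : V} (hz : G.Low z) (l : V) : ¬ ∃ b, G.HL z b l := by
  rintro ⟨b, h⟩
  have h1 := h.1
  have h2 : (G.nb z).card = 6 := hz
  omega

/-! ### symmetries of the types -/

theorem T3s.swap {l l' q p q' p' x : V} (h : G.T3s Fa l l' q p q' p' x)
    (hr : G.Reg Fa) : G.T3s Fa l l' p q q' p' x :=
  { toL0 := h.toL0
    nb := by rw [h.nb]; ext u; simp only [mem_insert, mem_singleton]; tauto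
    low' := h.low'
    t := tw_symm76 h.t
    t' := h.t'
    kq := by
      have hq : q ∈ G.nb l := by rw [h.nb]; simp
      have hqR : q ∈ R Fa := by
        have h1 := h.I0
        by_contra hc
        rw [R, mem_compl, not_not, mem_biUnion] at hc
        obtain ⟨B, hB, hqB⟩ := hc
        have hlR := h.lR
        rw [R, mem_compl, mem_biUnion] at hlR
        have h2 : l ∈ G.N B := mem_N76.2 ⟨fun h3 => hlR ⟨B, hB, h3⟩, q, hqB, G.sym _ _ hq⟩
        have h3 : B ∈ G.I Fa l := mem_I76.2 ⟨hB, h2⟩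
        rw [h1] at h3
        simp at h3
      rw [((stTwHL_5 G).twI Fa hr q hqR p h.t).2]
      exact h.kq
    kq' := h.kq'
    hx := h.hx }

theorem T3s.comm {l l' q p q' p' x : V} (h : G.T3s Fa l l' q p q' p' x) :
    G.T3s Fa l l' q' p' q p x :=
  { toL0 := h.toL0
    nb := by rw [h.nb]; ext u; simp only [mem_insert, mem_singleton]; tauto
    low' := h.low'
    t := h.t'
    t' := h.t
    kq := h.kq'
    kq' := h.kq
    hx := h.hx }

/-- neighbours of a vertex that is in no neighbourhood lie in `R` -/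
theorem nb_R76 {l q : V} (hl : l ∈ R Fa) (hI : G.I Fa l = ∅) (hq : q ∈ G.nb l) : q ∈ R Fa := by
  by_contra hc
  rw [R, mem_compl, not_not, mem_biUnion] at hc
  obtain ⟨B, hB, hqB⟩ := hc
  rw [R, mem_compl, mem_biUnion] at hl
  have h2 : l ∈ G.N B := mem_N76.2 ⟨fun h3 => hl ⟨B, hB, h3⟩, q, hqB, G.sym _ _ hq⟩
  have h3 : B ∈ G.I Fa l := mem_I76.2 ⟨hB, h2⟩
  rw [hI] at h3
  simp at h3

theorem nR_eq76 {l : V} (hl : l ∈ R Fa) (hI : G.I Fa l = ∅) : G.nR Fa l = G.nb l := by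
  ext q
  rw [nR, mem_inter]
  exact ⟨fun h => h.1, fun h => ⟨h, nb_R76 hl hI h⟩⟩

theorem T6s.swap {l l' q p x y z : V} (h : G.T6s Fa l l' q p x y z) (hr : G.Reg Fa) :
    G.T6s Fa l l' p q x y z :=
  { toL0 := h.toL0
    nb := by rw [h.nb]; ext u; simp only [mem_insert, mem_singleton]; tauto
    low' := h.low'
    t := tw_symm76 h.t
    kq := by
      have hq : q ∈ G.nb l := by rw [h.nb]; simp
      rw [((stTwHL_5 G).twI Fa hr q (nb_R76 h.lR h.I0 hq) p h.t).2]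
      exact h.kq
    hx := h.hx
    hy := h.hy
    hz := h.hz }

theorem T6s.perm1 {l l' q p x y z : V} (h : G.T6s Fa l l' q p x y z) :
    G.T6s Fa l l' q p y x z :=
  { toL0 := h.toL0
    nb := by rw [h.nb]; ext u; simp only [mem_insert, mem_singleton]; tauto
    low' := h.low'
    t := h.t
    kq := h.kq
    hx := h.hy
    hy := h.hx
    hz := h.hz }

theorem T6s.perm2 {l l' q p x y z : V} (h : G.T6s Fa l l' q p x y z) :
    G.T6s Fa l l' q p x z y :=
  { toL0 := h.toL0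
    nb := by rw [h.nb]; ext u; simp only [mem_insert, mem_singleton]; tauto
    low' := h.low'
    t := h.t
    kq := h.kq
    hx := h.hx
    hy := h.hz
    hz := h.hy }

theorem T4s.comm {l q p q' p' x y : V} (h : G.T4s Fa l q p q' p' x y) :
    G.T4s Fa l q' p' q p y x :=
  { toL0 := h.toL0
    nb := by rw [h.nb]; ext u; simp only [mem_insert, mem_singleton]; tauto
    t := h.t'
    t' := h.t
    hx := h.hy
    hy := h.hx
    nx := h.ny
    ny := h.nx
    adj := G.sym _ _ h.adj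
    blobs := by
      obtain ⟨B, B', h1, h2, h3⟩ := h.blobs
      exact ⟨B', B, h2, h1, h3.symm⟩
    nq := h.nq'
    nq' := h.nq }

/-- the visible neighbours of the twin -/
theorem nR_tw76 {q p : V} (h : G.Tw q p) (hqR : q ∈ R Fa) :
    G.nR Fa p = insert q ((G.nR Fa q).erase p) := by
  have hqp : q ≠ p := fun e => G.irr p (by have := h.1; rwa [e] at this)
  ext u
  rw [nR, mem_inter, mem_insert, mem_erase, nR, mem_inter]
  have hcl : ∀ v, v ∈ G.cl q ↔ v ∈ G.cl p := fun v => by rw [h.2.2]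
  have h1 := hcl u
  rw [cl, cl, mem_insert, mem_insert] at h1
  constructor
  · rintro ⟨h2, h3⟩
    rcases h1.2 (Or.inr h2) with h4 | h4
    · exact Or.inl h4
    · exact Or.inr ⟨fun e => G.irr p (by rwa [e] at h2), h4, h3⟩
  · rintro (h2 | ⟨h2, h3, h4⟩)
    · subst h2
      exact ⟨G.sym _ _ h.1, hqR⟩
    · exact ⟨(h1.1 (Or.inr h3)).resolve_left h2, h4⟩

theorem T4s.swap {l q p q' p' x y : V} (h : G.T4s Fa l q p q' p' x y) (hr : G.Reg Fa)
    (h9 : 9 ≤ Fintype.card V) : G.T4s Fa l p q q' p' x y := by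
  have hq : q ∈ G.nb l := by rw [h.nb]; simp
  have hqR := nb_R76 h.lR h.I0 hq
  have hI := (stTwHL_5 G).twI Fa hr q hqR p h.t
  have hqp : q ≠ p := fun e => G.irr p (by have := h.t.1; rwa [e] at this)
  have hpl : p ≠ l := fun e => tw_not_low76 (tw_of76' h.t) (by rw [e]; exact h.low)
  have hq' : q' ≠ p := by
    intro e
    obtain ⟨B, B', h1, h2, h3⟩ := h.blobs
    rw [e, hI.2, h1] at h2
    exact h3 (singleton_injective h2)
  have hp' : p' ≠ p := by
    intro e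
    have h1 : q' = q := (stTwHL_5 G).uniq h9 p' q' q (tw_symm76 h.t')
      (by rw [e]; exact tw_symm76 h.t)
    obtain ⟨B, B', h2, h3, h4⟩ := h.blobs
    rw [h1, h2] at h3
    exact h4 (singleton_injective h3)
  have hx : x ≠ p := fun e => h.hx.2 (by rw [e]; exact tw_of76' h.t)
  have hadj : q' ∈ G.nb p := by
    have h1 : q' ∈ G.cl q := mem_insert_of_mem h.adj
    rw [h.t.2.2, cl, mem_insert] at h1
    exact h1.resolve_left hq'
  refine
    { toL0 := h.toL0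
      nb := by rw [h.nb]; ext u; simp only [mem_insert, mem_singleton]; tauto
      t := tw_symm76 h.t
      t' := h.t'
      hx := h.hx
      hy := h.hy
      nx := h.nx
      ny := h.ny
      adj := hadj
      blobs := by
        obtain ⟨B, B', h1, h2, h3⟩ := h.blobs
        exact ⟨B, B', by rw [hI.2, h1], h2, h3⟩
      nq := ?_
      nq' := ?_ }
  · rw [nR_tw76 h.t hqR, h.nq]
    ext u
    simp only [mem_insert, mem_singleton, mem_erase]
    constructor
    · rintro (h1 | ⟨h1, h2⟩)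
      · exact Or.inl h1
      · rcases h2 with h2 | h2 | h2 | h2 | h2
        · exact absurd h2 h1
        · exact Or.inr (Or.inl h2)
        · exact Or.inr (Or.inr (Or.inl h2))
        · exact Or.inr (Or.inr (Or.inr (Or.inl h2)))
        · exact Or.inr (Or.inr (Or.inr (Or.inr h2)))
    · rintro (h1 | h1 | h1 | h1 | h1)
      · exact Or.inl h1
      · exact Or.inr ⟨by rw [h1]; exact hpl.symm, by simp [h1]⟩
      · exact Or.inr ⟨by rw [h1]; exact hq', by simp [h1]⟩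
      · exact Or.inr ⟨by rw [h1]; exact hp', by simp [h1]⟩
      · exact Or.inr ⟨by rw [h1]; exact hx, by simp [h1]⟩
  · rw [h.nq']
    ext u
    simp only [mem_insert, mem_singleton]
    tauto

/-! ### charges of the types -/

theorem T3s.NF_eq (h9 : 9 ≤ Fintype.card V) {l l' q p q' p' x : V}
    (h : G.T3s Fa l l' q p q' p' x) (hr : G.Reg Fa) : G.NF Fa l = {l'} := by
  classical
  have hk : ∀ u w, G.Tw u w → u ∈ G.nb l → (G.I Fa u).card ≤ 1 → ¬ G.Low w ∧
      ¬ 2 ≤ (G.I Fa w).card ∧ ¬ ∃ b, G.HL w b l := by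
    intro u w hu hul hI
    have h1 := (stTwHL_5 G).twI Fa hr u (nb_R76 h.lR h.I0 hul) w hu
    refine ⟨tw_not_low76 (tw_of76' hu), ?_, tw_not_HL76 h9 (tw_of76' hu) l⟩
    rw [h1.2]
    omega
  have hq : q ∈ G.nb l := by rw [h.nb]; simp
  have hp : p ∈ G.nb l := by rw [h.nb]; simp
  have hq' : q' ∈ G.nb l := by rw [h.nb]; simp
  have hp' : p' ∈ G.nb l := by rw [h.nb]; simp
  have h1 := h.swap hr
  have h2 := h.comm.swap hr
  ext u
  rw [NF, mem_filter, nR_eq76 h.lR h.I0, mem_singleton, h.nb]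
  simp only [mem_insert, mem_singleton]
  constructor
  · rintro ⟨h3, h4⟩
    rcases h3 with rfl | rfl | rfl | rfl | rfl | rfl
    · rfl
    · exact absurd h4 (by have := hk _ _ (tw_symm76 h.t) hp h1.kq; tauto)
    · exact absurd h4 (by have := hk _ _ h.t hq h.kq; tauto)
    · exact absurd h4 (by have := hk _ _ (tw_symm76 h.t') hp' h2.kq; tauto)
    · exact absurd h4 (by have := hk _ _ h.t' hq' h.kq'; tauto)
    · exfalso
      have h5 := h.hx
      rcases h4 with h4 | h4 | h4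
      · exact h5.1.1 h4
      · have := h5.2.1; omega
      · exact h5.2.2 h4
  · rintro rfl
    exact ⟨Or.inl rfl, Or.inl h.low'⟩

theorem T3s.ch (h9 : 9 ≤ Fintype.card V) {l l' q p q' p' x : V}
    (h : G.T3s Fa l l' q p q' p' x) (hr : G.Reg Fa) : G.ch5 Fa l = -2 := by
  have h1 := (stCh5_28 G).low0 h9 Fa hr l h.lR h.low h.I0
  rw [h.NF_eq h9 hr, card_singleton] at h1
  rw [h1]
  norm_num

theorem T6s.NF_eq (h9 : 9 ≤ Fintype.card V) {l l' q p x y z : V}
    (h : G.T6s Fa l l' q p x y z) (hr : G.Reg Fa) : G.NF Fa l = {l'} := by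
  classical
  have hk : ∀ u w, G.Tw u w → u ∈ G.nb l → (G.I Fa u).card ≤ 1 → ¬ G.Low w ∧
      ¬ 2 ≤ (G.I Fa w).card ∧ ¬ ∃ b, G.HL w b l := by
    intro u w hu hul hI
    have h1 := (stTwHL_5 G).twI Fa hr u (nb_R76 h.lR h.I0 hul) w hu
    refine ⟨tw_not_low76 (tw_of76' hu), ?_, tw_not_HL76 h9 (tw_of76' hu) l⟩
    rw [h1.2]
    omega
  have hh : ∀ u, G.PH Fa l u → ¬ (G.Low u ∨ 2 ≤ (G.I Fa u).card ∨ ∃ b, G.HL u b l) := by
    intro u h5 h4
    rcases h4 with h4 | h4 | h4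
    · exact h5.1.1 h4
    · have := h5.2.1; omega
    · exact h5.2.2 h4
  have hq : q ∈ G.nb l := by rw [h.nb]; simp
  have hp : p ∈ G.nb l := by rw [h.nb]; simp
  have h1 := h.swap hr
  ext u
  rw [NF, mem_filter, nR_eq76 h.lR h.I0, mem_singleton, h.nb]
  simp only [mem_insert, mem_singleton]
  constructor
  · rintro ⟨h3, h4⟩
    rcases h3 with rfl | rfl | rfl | rfl | rfl | rfl
    · rfl
    · exact absurd h4 (by have := hk _ _ (tw_symm76 h.t) hp h1.kq; tauto)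
    · exact absurd h4 (by have := hk _ _ h.t hq h.kq; tauto)
    · exact absurd h4 (hh _ h.hx)
    · exact absurd h4 (hh _ h.hy)
    · exact absurd h4 (hh _ h.hz)
  · rintro rfl
    exact ⟨Or.inl rfl, Or.inl h.low'⟩

theorem T6s.ch (h9 : 9 ≤ Fintype.card V) {l l' q p x y z : V}
    (h : G.T6s Fa l l' q p x y z) (hr : G.Reg Fa) : G.ch5 Fa l = -2 := by
  have h1 := (stCh5_28 G).low0 h9 Fa hr l h.lR h.low h.I0
  rw [h.NF_eq h9 hr, card_singleton] at h1
  rw [h1]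
  norm_num

/-! ### the donations -/

theorem DL.neg (hG : G.Gen6 Fa) {z x : V} (h : G.DL Fa z x) : G.ch5 Fa z < 0 := by
  have h9 := hG.g5.n9
  have hr := hG.g5.reg
  rcases h with ⟨h, h1, h2⟩ | ⟨h, h1, h2, h3⟩ | ⟨h, h1, h2⟩ | ⟨h, h1, h2⟩ | ⟨h, h1, h2⟩ |
    ⟨h, h1, h2⟩ | ⟨h, h1, h2, h3⟩ | ⟨h, h1, h2, h3⟩
  · exact h1
  · exact h1
  · exact h1
  · exact h1
  · exact h1
  · have := h.ch h9 hr; omega
  · have := h.ch h9 hr; omega
  · exact h3

theorem PD.neg (hG : G.Gen6 Fa) {z x : V} (h : G.PD Fa z x) : G.ch5 Fa z < 0 := by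
  have h9 := hG.g5.n9
  have hr := hG.g5.reg
  rcases h with ⟨h, h1, h2⟩ | ⟨h, h1, h2, h3, h4⟩ | ⟨h, h1, h2⟩ | ⟨h, h1, h2⟩
  · have := h.ch h9 hr; omega
  · have := h.ch h9 hr; omega
  · exact h1
  · exact h1

/-! ### who pays -/

theorem DL.lowd {z x : V} (h : G.DL Fa z x) : G.Low x := by
  rcases h with ⟨h, h1, h2⟩ | ⟨h, h1, h2, h3⟩ | ⟨h, h1, h2⟩ | ⟨h, h1, h2⟩ | ⟨h, h1, h2⟩ |
    ⟨h, h1, h2⟩ | ⟨h, h1, h2, h3⟩ | ⟨h, h1, h2, h3⟩
  · exact h.dl
  · exact h.hl.2.1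
  · exact h.dl
  · exact h.hl.2.1
  · exact h.s0.2.2.1
  · exact h.low'
  · exact h.low'
  · exact h2.2.2.1

theorem DL.lowz {z x : V} (h : G.DL Fa z x) : G.Low z := by
  rcases h with ⟨h, h1, h2⟩ | ⟨h, h1, h2, h3⟩ | ⟨h, h1, h2⟩ | ⟨h, h1, h2⟩ | ⟨h, h1, h2⟩ |
    ⟨h, h1, h2⟩ | ⟨h, h1, h2, h3⟩ | ⟨h, h1, h2, h3⟩
  · exact h.low
  · exact h.low
  · exact h.low
  · exact h.low
  · exact h.low
  · exact h.low
  · exact h.low
  · exact h2.2.1

theorem PD.twd {z x : V} (h : G.PD Fa z x) : G.IsTw x := by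
  rcases h with ⟨h, h1, h2⟩ | ⟨h, h1, h2, h3, h4⟩ | ⟨h, h1, h2⟩ | ⟨h, h1, h2⟩ <;>
    exact ⟨_, h.t⟩

theorem PD.lowz {z x : V} (h : G.PD Fa z x) : G.Low z := by
  rcases h with ⟨h, h1, h2⟩ | ⟨h, h1, h2, h3, h4⟩ | ⟨h, h1, h2⟩ | ⟨h, h1, h2⟩ <;>
    exact h.low

theorem PF.twd {z x : V} (h : G.PF Fa z x) : G.IsTw x := by
  rcases h with ⟨h, h1, h2⟩
  exact ⟨_, h.t⟩

theorem PF.lowz {z x : V} (h : G.PF Fa z x) : G.Low z := by
  rcases h with ⟨h, h1, h2⟩
  exact h.low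

theorem PS.twd {z x : V} (h : G.PS Fa z x) : G.IsTw x := by
  rcases h with ⟨h, h1, h2⟩ | ⟨h, h1, h2, h3, h4⟩ <;> exact ⟨_, h.t⟩

theorem PS.lowz {z x : V} (h : G.PS Fa z x) : G.Low z := by
  rcases h with ⟨h, h1, h2⟩ | ⟨h, h1, h2, h3, h4⟩ <;> exact h.low

theorem SK.hub {z x : V} (h : G.SK Fa z x) : G.Hub x := by
  rcases h with ⟨h, h1⟩ | ⟨_, h, h1, h2, h3, h4, h5⟩ | ⟨_, h, h1, h2⟩ |
    ⟨_, h, h1, h2, h3, h4, h5⟩ | ⟨_, h, h1, h2, h3⟩
  · exact h.hx
  · exact h4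
  · exact h2.2.2.1.1
  · rcases h3 with h3 | h3
    · rw [h3]; exact h.hx.1
    · rw [h3]; exact h.hy.1
  · rcases h2 with h3 | h3
    · rw [h3]; exact h.hx.1
    · rw [h3]; exact h.hy.1

theorem SK.lowz {z x : V} (h : G.SK Fa z x) : G.Low z := by
  rcases h with ⟨h, h1⟩ | ⟨_, h, h1, h2, h3, h4, h5⟩ | ⟨_, h, h1, h2⟩ |
    ⟨_, h, h1, h2, h3, h4, h5⟩ | ⟨_, h, h1, h2, h3⟩ <;> exact h.low

theorem HL_hubT76 (h9 : 9 ≤ Fintype.card V) {a b t : V} (h : G.HL a b t) : G.Hub a := by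
  refine ⟨fun h3 => ?_, fun h3 => (stTwHL_5 G).notHL h9 _ _ _ h h3⟩
  have h4 := h.1
  have h5 : (G.nb a).card = 6 := h3
  omega

theorem HD.hub (h9 : 9 ≤ Fintype.card V) {z x : V} (h : G.HD Fa z x) : G.Hub x := by
  rcases h with ⟨h, h1, h2⟩ | ⟨_, h, h1, h2, h3, h4, h5, h6, h7, h8⟩
  · exact HL_hubT76 h9 h.hl
  · exact h7

theorem HD.lowz {z x : V} (h : G.HD Fa z x) : G.Low z := by
  rcases h with ⟨h, h1, h2⟩ | ⟨_, h, h1, h2, h3, h4, h5, h6, h7, h8⟩ <;> exact h.low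

theorem HS.hub {z x : V} (h : G.HS Fa z x) : G.Hub x := by
  rcases h with ⟨_, h, h1, h2, h3, h4, h5, h6, h7⟩
  exact h7

theorem HS.lowz {z x : V} (h : G.HS Fa z x) : G.Low z := by
  rcases h with ⟨_, h, h1, h2, h3, h4, h5, h6, h7⟩
  exact h.low

theorem PQ.hub {z x : V} (h : G.PQ Fa z x) : G.Hub x := by
  classical
  have h1 := h.2.2.2.2
  rw [NH, mem_filter] at h1
  exact h1.2.1

theorem AL.lowd {z x : V} (h : G.AL Fa z x) : G.Low x := by
  obtain ⟨B, p, e, f, h, h1⟩ := h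
  exact h1.yl

theorem AL.twz {z x : V} (h : G.AL Fa z x) : G.IsTw z := by
  obtain ⟨B, p, e, f, h, h1⟩ := h
  exact ⟨p, h1.t⟩

theorem dn5_nonneg76 (hG : G.Gen6 Fa) (x z : V) : 0 ≤ G.dn5 Fa x z := by
  classical
  have h1 : G.DL Fa z x → 0 ≤ -2 * G.ch5 Fa z := fun h => by have := h.neg hG; omega
  have h2 : G.PD Fa z x → 0 ≤ -G.ch5 Fa z := fun h => by have := h.neg hG; omega
  unfold dn5
  have e1 : 0 ≤ (if G.DL Fa z x then -2 * G.ch5 Fa z else 0) := by
    split_ifs with h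
    · exact h1 h
    · exact le_rfl
  have e2 : 0 ≤ (if G.PD Fa z x then -G.ch5 Fa z else 0) := by
    split_ifs with h
    · exact h2 h
    · exact le_rfl
  have e3 : ∀ (P : Prop) [Decidable P] (n : ℤ), 0 ≤ n → 0 ≤ (if P then n else 0) := by
    intro P _ n hn
    split_ifs
    · exact hn
    · exact le_rfl
  have := e3 (G.PF Fa z x) 2 (by norm_num)
  have := e3 (G.PS Fa z x) 1 (by norm_num)
  have := e3 (G.SK Fa z x) 4 (by norm_num)
  have := e3 (G.HD Fa z x) 4 (by norm_num)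
  have := e3 (G.HS Fa z x) 2 (by norm_num)
  have := e3 (G.PQ Fa z x) 2 (by norm_num)
  have := e3 (G.AL Fa z x) 2 (by norm_num)
  omega

open Classical in
/-- donations of a hub -/
theorem dn5_hub76 {x z : V} (hx : G.Hub x) : G.dn5 Fa x z =
    (if G.SK Fa z x then 4 else 0) + (if G.HD Fa z x then 4 else 0) +
    (if G.HS Fa z x then 2 else 0) + (if G.PQ Fa z x then 2 else 0) := by
  unfold dn5
  rw [if_neg (show ¬ G.DL Fa z x from fun h => hx.1 h.lowd),
    if_neg (show ¬ G.PD Fa z x from fun h => hx.2 h.twd),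
    if_neg (show ¬ G.PF Fa z x from fun h => hx.2 h.twd),
    if_neg (show ¬ G.PS Fa z x from fun h => hx.2 h.twd),
    if_neg (show ¬ G.AL Fa z x from fun h => hx.1 h.lowd)]
  ring

open Classical in
/-- donations of a twin vertex -/
theorem dn5_tw76 (h9 : 9 ≤ Fintype.card V) {x z : V} (hx : G.IsTw x) : G.dn5 Fa x z =
    (if G.PD Fa z x then -G.ch5 Fa z else 0) + (if G.PF Fa z x then 2 else 0) +
    (if G.PS Fa z x then 1 else 0) := by
  have hl := tw_not_low76 hx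
  unfold dn5
  rw [if_neg (show ¬ G.DL Fa z x from fun h => hl h.lowd),
    if_neg (show ¬ G.SK Fa z x from fun h => h.hub.2 hx),
    if_neg (show ¬ G.HD Fa z x from fun h => (h.hub h9).2 hx),
    if_neg (show ¬ G.HS Fa z x from fun h => h.hub.2 hx),
    if_neg (show ¬ G.PQ Fa z x from fun h => h.hub.2 hx),
    if_neg (show ¬ G.AL Fa z x from fun h => hl h.lowd)]
  ring

open Classical in
/-- donations of a low vertex -/
theorem dn5_low76 (h9 : 9 ≤ Fintype.card V) {x z : V} (hx : G.Low x) : G.dn5 Fa x z =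
    (if G.DL Fa z x then -2 * G.ch5 Fa z else 0) + (if G.AL Fa z x then 2 else 0) := by
  have hl : ¬ G.IsTw x := fun h => tw_not_low76 h hx
  unfold dn5
  rw [if_neg (show ¬ G.PD Fa z x from fun h => hl h.twd),
    if_neg (show ¬ G.PF Fa z x from fun h => hl h.twd),
    if_neg (show ¬ G.PS Fa z x from fun h => hl h.twd),
    if_neg (show ¬ G.SK Fa z x from fun h => h.hub.1 hx),
    if_neg (show ¬ G.HD Fa z x from fun h => (h.hub h9).1 hx),
    if_neg (show ¬ G.HS Fa z x from fun h => h.hub.1 hx),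
    if_neg (show ¬ G.PQ Fa z x from fun h => h.hub.1 hx)]
  ring

end CG

end Pool.Agent.Lib.MP_e95c01_co.N
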