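import Pool.Agent.Lib.MP_e95c01_co.X.C6c_88
import Pool.Agent.Lib.MP_e95c01_co.X.AuxT76

/-!
# `λ = 3`, thick torsos: C6d, low vertices with three outer neighbours
-/

namespace Pool.Agent.Lib.MP_e95c01_co.N

open Finset

variable {V : Type} [Fintype V] [DecidableEq V]

namespace CG

namespace C6d89

variable {G : CG V} {Fa : Finset (Finset V)}

open K28 C6c88

/-- a low vertex in one neighbourhood with three outer neighbours -/
structure D3 (G : CG V) (Fa : Finset (Finset V)) (B : Finset V) (d : V) : Prop where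
  hG : G.Gen6 Fa
  hL : G.L1 Fa B d
  three : (G.pO B d).card = 3

variable {B : Finset V} {d : V}

theorem mem_pT {z x : V} : x ∈ G.pT B z ↔ x ∈ G.nb z ∧ x ∈ G.N B := mem_inter

theorem mem_pO {z x : V} : x ∈ G.pO B z ↔ x ∈ G.nb z ∧ x ∈ G.Co B := mem_inter

theorem mem_pX {z x : V} : x ∈ G.pX B z ↔ x ∈ G.nb z ∧ x ∈ B := mem_inter

theorem L1B {z : V} (h : G.L1 Fa B z) : B ∈ Fa ∧ z ∈ G.N B :=
  mem_I76.1 (h.I1.symm ▸ mem_singleton_self B)

namespace D3

theorem h9 (c : D3 G Fa B d) : 9 ≤ Fintype.card V := c.hG.g5.n9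

theorem reg (c : D3 G Fa B d) : G.Reg Fa := c.hG.g5.reg

theorem fr (c : D3 G Fa B d) : G.Frag B := c.reg.frag B (L1B c.hL).1

theorem six (c : D3 G Fa B d) : (G.pX B d).card + (G.pT B d).card = 3 := by
  have h1 := six_low c.hL.low B
  have h2 := c.three
  rw [pX, pT]
  rw [pO] at h2
  omega

theorem x1 (c : D3 G Fa B d) : 1 ≤ (G.pX B d).card := d_pos76 (L1B c.hL).2

theorem DB (c : D3 G Fa B d) {D : Finset V} (h1 : D ∈ Fa) (h2 : d ∈ G.N D) : D = B := by
  have h3 : D ∈ G.I Fa d := mem_I76.2 ⟨h1, h2⟩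
  rw [c.hL.I1, mem_singleton] at h3
  exact h3

theorem TR (c : D3 G Fa B d) {x : V} (h : x ∈ G.pT B d) : x ∈ G.nR Fa d :=
  mem_nR76.2 ⟨(mem_pT.1 h).1, N_R c.reg (L1B c.hL).1 (mem_pT.1 h).2⟩

theorem OR (c : D3 G Fa B d) {x : V} (h : x ∈ G.pO B d) : x ∈ G.nR Fa d := by
  refine mem_nR76.2 ⟨(mem_pO.1 h).1, mem_R76.2 fun D hD hx => ?_⟩
  have h1 := c.DB hD (mem_I76.1 (I_of_nb76 c.hL.lR hD (mem_pO.1 h).1 hx)).2
  subst h1
  exact (mem_Co76.1 (mem_pO.1 h).2).1 hx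

theorem tri (c : D3 G Fa B d) {x : V} (h : x ∈ G.nR Fa d) : x ∈ G.pT B d ∨ x ∈ G.pO B d := by
  obtain ⟨h1, h2⟩ := mem_nR76.1 h
  have h3 := mem_R76.1 h2 B (L1B c.hL).1
  by_cases h4 : x ∈ G.N B
  · exact Or.inl (mem_pT.2 ⟨h1, h4⟩)
  · exact Or.inr (mem_pO.2 ⟨h1, mem_Co76.2 ⟨h3, h4⟩⟩)

theorem m0 (c : D3 G Fa B d) {x : V} (h : x ∈ G.pO B d) : G.m Fa d x = 0 := by
  rw [m, card_eq_zero, c.hL.I1]
  ext D
  constructor
  · intro hD
    rw [mem_inter, mem_singleton] at hD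
    obtain ⟨rfl, h2⟩ := hD
    exact absurd (mem_I76.1 h2).2 (mem_Co76.1 (mem_pO.1 h).2).2
  · intro hD
    exact absurd hD (notMem_empty _)

/-- `HL a d z` does not occur -/
theorem no_HL (c : D3 G Fa B d) {z a : V} (hz : G.L1 Fa B z) (ha : a ∈ R Fa)
    (h : G.HL a d z) (hs : ∀ u ∈ G.pO B z, u ∈ G.nb d) : False := by
  have hI := HL_I76 h ha c.hL.lR hz.lR
  have hza : z ≠ a := (ne_of_nb5 (HL_nb5 h)).symm
  have had : a ≠ d := ne_of_nb5 h.2.2.1
  have hzd : z ≠ d := by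
    rintro rfl
    exact h.2.2.2.1 (mem_insert_self _ _)
  have h1 := e3_86 c.hG.g5 hza hzd had hz.lR ha c.hL.lR hz.I1 (hI.trans c.hL.I1) c.hL.I1
  have h2 : (G.nb z ∪ G.nb a ∪ G.nb d) ∩ G.Co B ⊆ G.pO B d := by
    intro u hu
    rw [mem_inter, mem_union, mem_union] at hu
    obtain ⟨hu, hu2⟩ := hu
    refine mem_pO.2 ⟨?_, hu2⟩
    rcases hu with (hu | hu) | hu
    · exact hs u (mem_pO.2 ⟨hu, hu2⟩)
    · have h3 : u ∈ G.cl a := mem_insert_of_mem hu
      rw [h.2.2.2.2, mem_insert] at h3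
      rcases h3 with rfl | h3
      · exact absurd (L1B hz).2 (mem_Co76.1 hu2).2
      · rw [cl, mem_insert] at h3
        rcases h3 with rfl | h3
        · exact absurd (L1B c.hL).2 (mem_Co76.1 hu2).2
        · exact h3
    · exact hu
  have h3 := card_le_card h2
  have h4 := c.three
  omega

theorem aR (c : D3 G Fa B d) {D : Finset V} {z a : V} (hz : G.L1 Fa D z)
    (ha : a ∈ G.pT D z) (h : G.HL a d z) : a ∈ R Fa ∧ D = B := by
  have h1 : a ∈ R Fa := N_R c.reg (L1B hz).1 (mem_pT.1 ha).2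
  have hI := HL_I76 h h1 c.hL.lR hz.lR
  have h2 : D ∈ G.I Fa a := mem_I76.2 ⟨(L1B hz).1, (mem_pT.1 ha).2⟩
  rw [hI] at h2
  exact ⟨h1, c.DB (mem_I76.1 h2).1 (mem_I76.1 h2).2⟩

theorem no_the (c : D3 G Fa B d) {D : Finset V} {l a x y : V} (h : G.The Fa D l a d x y) :
    False := by
  obtain ⟨h1, rfl⟩ := c.aR h.toL1 h.aT h.hl
  refine c.no_HL h.toL1 h1 h.hl fun u hu => ?_
  rw [h.out, mem_insert, mem_singleton] at hu
  rcases hu with rfl | rfl
  · exact h.bx
  · exact h.by'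

theorem no_eta (c : D3 G Fa B d) {D : Finset V} {l a q p : V} (h : G.Eta Fa D l a d q p) :
    False := by
  obtain ⟨h1, rfl⟩ := c.aR h.toL1 h.aT h.hl
  refine c.no_HL h.toL1 h1 h.hl fun u hu => ?_
  have hp : p ∈ G.pO D l := by rw [h.out]; simp
  rw [h.out, mem_insert, mem_singleton] at hu
  rcases hu with rfl | rfl
  · exact h.bq
  · have h2 : d ≠ u := by
      rintro rfl
      exact absurd (L1B c.hL).2 (mem_Co76.1 (mem_pO.1 hp).2).2
    exact G.sym _ _ (Tw_nb5 h.t (G.sym _ _ h.bq) h2)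

theorem no_k2 (c : D3 G Fa B d) {D : Finset V} {l : V} (h1 : 2 ≤ (G.I Fa l).card)
    (h2 : D ∈ G.I Fa l) (h3 : G.S0 D l d) (h4 : G.ch5 Fa l < 0) : False := by
  have hdT : d ∈ G.pT D l := by
    rw [h3.2.2.2.1]
    exact mem_singleton_self _
  have hDB := c.DB (mem_I76.1 h2).1 (mem_pT.1 hdT).2
  subst hDB
  have hlR : l ∈ R Fa := N_R c.reg (mem_I76.1 h2).1 h3.1
  have hk : (G.I Fa l).card = 2 := by
    by_contra hk
    have := low_three c.h9 c.reg hlR h3.2.1 (by omega)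
    omega
  obtain ⟨D1, hne, hI⟩ : ∃ D1, D ≠ D1 ∧ G.I Fa l = {D, D1} := by
    obtain ⟨D1, D2, hne, hI⟩ := card_eq_two.1 hk
    rw [hI, mem_insert, mem_singleton] at h2
    rcases h2 with rfl | rfl
    · exact ⟨D2, hne, hI⟩
    · exact ⟨D1, hne.symm, by rw [hI, pair_comm]⟩
  have c' : Tw2 G Fa l D D1 := ⟨c.h9, c.reg, c.hG.g5.big, hlR, h3.2.1, hne, hI⟩
  have hD1 : D1 ∈ Fa := (mem_I76.1 (hI.symm ▸ (by simp) : D1 ∈ G.I Fa l)).1
  rcases c'.main h4 with ⟨v, h5, h6⟩ | ⟨v, h5, h6⟩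
  · have h7 := h3.2.2.2.1
    rw [h5.2.2.2.1, singleton_inj] at h7
    subst h7
    exact hne (c.DB hD1 h6).symm
  · have h7 : v ∈ G.pT D1 l := by
      rw [h5.2.2.2.1]
      exact mem_singleton_self _
    have h8 : v ∈ G.pT D l := mem_pT.2 ⟨(mem_pT.1 h7).1, h6⟩
    rw [h3.2.2.2.1, mem_singleton] at h8
    subst h8
    exact hne (c.DB hD1 (mem_pT.1 h7).2).symm

/-- who asks `d` -/
theorem cls (c : D3 G Fa B d) {z : V} (h : G.DL Fa z d) :
    (∃ x y, G.Gam Fa B z d x y ∧ G.ch5 Fa z < 0) ∨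
    (∃ q p, G.Eps Fa B z d q p ∧ G.ch5 Fa z < 0 ∧ 2 ≤ G.ch5 Fa d) ∨
    (∃ q p y, G.S0s Fa B z d q p y ∧ G.ch5 Fa z < 0 ∧ 1 ≤ G.ch5 Fa d) ∨
    (∃ q p q' p' x, G.T3s Fa z d q p q' p' x ∧ q' ∉ G.nb q) ∨
    (∃ q p x y w, G.T6s Fa z d q p x y w ∧ G.NoQ Fa z q ∧ (∀ g, ¬ G.Good Fa z d g) ∧
      2 ≤ G.ch5 Fa d) := by
  cases h with
  | gam h1 h2 h3 =>
    rename_i D x y
    have h4 := c.DB (L1B h1.toL1).1 (mem_pT.1 h1.dT).2
    subst h4
    exact Or.inl ⟨x, y, h1, h2⟩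
  | the h1 h2 h3 h4 => exact (c.no_the h1).elim
  | eps h1 h2 h3 =>
    rename_i D q p
    have h4 := c.DB (L1B h1.toL1).1 (mem_pT.1 h1.dT).2
    subst h4
    exact Or.inr (Or.inl ⟨q, p, h1, h2, h3⟩)
  | eta h1 h2 h3 => exact (c.no_eta h1).elim
  | s0 h1 h2 h3 =>
    rename_i D q p y
    have h5 : d ∈ G.pT D z := by
      rw [h1.s0.2.2.2.1]
      exact mem_singleton_self _
    have h4 := c.DB (L1B h1.toL1).1 (mem_pT.1 h5).2
    subst h4
    exact Or.inr (Or.inr (Or.inl ⟨q, p, y, h1, h2, h3⟩))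
  | t3 h1 h2 h3 => exact Or.inr (Or.inr (Or.inr (Or.inl ⟨_, _, _, _, _, h1, h2⟩)))
  | t6 h1 h2 h3 h4 =>
    exact Or.inr (Or.inr (Or.inr (Or.inr ⟨_, _, _, _, _, h1, h2, h3, h4⟩)))
  | k2 h1 h2 h3 h4 => exact (c.no_k2 h1 h2 h3 h4).elim

theorem hn (c : D3 G Fa B d) :
    ¬ (∃ l a, ((∃ x y, G.The Fa B l a d x y) ∨ ∃ q p, G.Eta Fa B l a d q p) ∧
      G.DL Fa l d) := by
  rintro ⟨l, a, (⟨x, y, h⟩ | ⟨q, p, h⟩), -⟩
  · exact c.no_the h
  · exact c.no_eta h

theorem ff_eq (c : D3 G Fa B d) : G.fg5 Fa d = ff G B d := by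
  rw [fg_eq, c.hL.I1, sum_singleton]

theorem ch (c : D3 G Fa B d) : G.ch5 Fa d = 2 * ((G.NF Fa d).card : ℤ) +
    ((G.NP Fa d).card : ℤ) - 2 + ff G B d := by
  have h1 := (stCh5_28 G).low1 c.h9 Fa c.reg d c.hL.lR c.hL.low B c.hL.I1
  have h2 : G.d d (G.Co B) = 3 := c.three
  rw [h2, c.ff_eq] at h1
  rw [h1]
  push_cast
  ring

theorem NP_sub (c : D3 G Fa B d) {x : V} (hx : x ∈ G.NP Fa d) : x ∈ G.pT B d ∧ G.IsTw x := by
  classical
  rw [NP, mem_filter] at hx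
  refine ⟨(c.tri hx.1).resolve_right fun h => hx.2.2.2 ?_, hx.2.1⟩
  have h1 := c.m0 h
  rw [m] at h1 ⊢
  rw [inter_comm, h1]

/-- a pair of twins in `T(d)` -/
theorem case_tw (c : D3 G Fa B d) {q : V} (hq : q ∈ G.pT B d) (ht : G.IsTw q) :
    G.ask Fa d ≤ 2 * G.ch5 Fa d := by
  classical
  obtain ⟨p, hqp⟩ := ht
  have hqR := (mem_nR76.1 (c.TR hq)).2
  obtain ⟨hpR, hpI⟩ := (stTwHL_5 G).twI Fa c.reg q hqR p hqp
  have hB := (L1B c.hL).1
  have hpN : p ∈ G.N B := by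
    have h1 : B ∈ G.I Fa q := mem_I76.2 ⟨hB, (mem_pT.1 hq).2⟩
    rw [← hpI] at h1
    exact (mem_I76.1 h1).2
  have hdp : d ≠ p := by
    rintro rfl
    exact tw_not_low11 ⟨q, (stTwHL_5 G).symm _ _ hqp⟩ c.hL.low
  have hp : p ∈ G.pT B d := mem_pT.2
    ⟨G.sym _ _ (Tw_nb5 hqp (G.sym _ _ (mem_pT.1 hq).1) hdp), hpN⟩
  have hne : q ≠ p := tw_ne hqp
  have hsix := c.six
  have hx1 := c.x1
  have h3 := c.three
  have hT : G.pT B d = {q, p} := by
    symm
    refine eq_of_subset_of_card_le ?_ ?_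
    · intro x hx
      rw [mem_insert, mem_singleton] at hx
      rcases hx with rfl | rfl
      · exact hq
      · exact hp
    · rw [card_pair hne]
      omega
  have hTc : (G.pT B d).card = 2 := by rw [hT, card_pair hne]
  have hX3 : (G.pX (G.Co B) d).card = 3 := h3
  have hf : 2 ≤ ff G B d := by
    refine ff_pos c.fr c.hL.low (Or.inl ?_) ?_ ?_ ?_ ?_
    · refine ⟨?_, c.hL.low, hX3, ?_⟩
      · rw [(G.stCo_37 B c.fr).2.1]
        exact (L1B c.hL).2
      · rw [pT_Co c.fr, hT]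
        exact ⟨q, p, hqp, rfl⟩
    · intro v hv
      have := S0_card hv
      omega
    · intro hv
      have := U3_card hv
      omega
    · intro hv
      have := T3_card hv
      omega
    · intro hv
      have := HF_card hv
      omega
  have hch := c.ch
  have hask := ask_le c.hG c.hL c.hn
  set Cl := (G.nR Fa d).filter fun z => G.Low z ∧ G.DL Fa z d with hCl
  set A := (G.NP Fa d).filter fun z => G.AL Fa z d with hA
  have hA1 : A.card ≤ (G.NP Fa d).card := card_le_card (filter_subset _ _)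
  have hA2 : A.card ≤ 2 := by
    rw [← hTc]
    refine card_le_card fun x hx => ?_
    exact (c.NP_sub (filter_subset _ _ hx)).1
  have hCN : Cl ⊆ G.NF Fa d := by
    intro x hx
    rw [hCl, mem_filter] at hx
    rw [NF, mem_filter]
    exact ⟨hx.1, Or.inl hx.2.1⟩
  have htq : G.IsTw q := ⟨p, hqp⟩
  have htp : G.IsTw p := ⟨q, (stTwHL_5 G).symm _ _ hqp⟩
  by_cases hk : 2 ≤ (G.I Fa q).card
  · have h4 : Cl.card + 2 ≤ (G.NF Fa d).card := by
      have h5 : Disjoint Cl {q, p} := by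
        rw [disjoint_left]
        intro x hx hx2
        rw [hCl, mem_filter] at hx
        rw [mem_insert, mem_singleton] at hx2
        rcases hx2 with rfl | rfl
        · exact tw_not_low11 htq hx.2.1
        · exact tw_not_low11 htp hx.2.1
      rw [← card_pair hne, ← card_union_of_disjoint h5]
      refine card_le_card ?_
      intro x hx
      rw [mem_union, mem_insert, mem_singleton] at hx
      rcases hx with hx | rfl | rfl
      · exact hCN hx
      · rw [NF, mem_filter]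
        exact ⟨c.TR hq, Or.inr (Or.inl hk)⟩
      · rw [NF, mem_filter]
        exact ⟨c.TR hp, Or.inr (Or.inl (by rw [hpI]; exact hk))⟩
    have h5 : (Cl.card : ℤ) + 2 ≤ ((G.NF Fa d).card : ℤ) := by exact_mod_cast h4
    have h6 : (A.card : ℤ) ≤ 2 := by exact_mod_cast hA2
    have h7 : (0 : ℤ) ≤ ((G.NP Fa d).card : ℤ) := by positivity
    linarith
  · have h4 : (Cl.card : ℤ) ≤ ((G.NF Fa d).card : ℤ) := by exact_mod_cast card_le_card hCN
    have h5 : (A.card : ℤ) ≤ ((G.NP Fa d).card : ℤ) := by exact_mod_cast hA1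
    linarith

/-- the number of claimants, no twins in `T(d)` -/
theorem ask_nt (c : D3 G Fa B d) (hT : ∀ x ∈ G.pT B d, ¬ G.IsTw x) :
    G.NP Fa d = ∅ ∧ (∀ z, ¬ G.AL Fa z d) := by
  have h1 : G.NP Fa d = ∅ := by
    rw [eq_empty_iff_forall_notMem]
    intro x hx
    exact hT x (c.NP_sub hx).1 (c.NP_sub hx).2
  refine ⟨h1, fun z hz => ?_⟩
  have h2 := claim_al c.hL hz
  rw [h1] at h2
  exact notMem_empty _ h2

theorem L0_O (c : D3 G Fa B d) {z : V} (hz : G.L0 Fa z) (h : d ∈ G.nb z) : z ∈ G.pO B d := by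
  refine mem_pO.2 ⟨G.sym _ _ h, mem_Co76.2 ⟨mem_R76.1 hz.lR B (L1B c.hL).1, fun h1 => ?_⟩⟩
  have h2 : B ∈ G.I Fa z := mem_I76.2 ⟨(L1B c.hL).1, h1⟩
  rw [hz.I0] at h2
  exact notMem_empty _ h2

theorem m00 {z x : V} (h : G.I Fa z = ∅) : G.m Fa z x = 0 := by
  rw [m, h, empty_inter, card_empty]

theorem t3_adj (hG : G.Gen6 Fa) {z l' q p q' p' x : V} (h : G.T3s Fa z l' q p q' p' x)
    (hn : q' ∉ G.nb q) : q ∈ G.nb l' := by
  have h9 := hG.g5.n9
  have hqz : q ∈ G.nb z := by rw [h.nb]; simp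
  have hqR := nb_R76 h.lR h.I0 hqz
  have htq : G.IsTw q := ⟨p, h.t⟩
  have htp : G.IsTw p := ⟨q, (stTwHL_5 G).symm _ _ h.t⟩
  have htq' : G.IsTw q' := ⟨p', h.t'⟩
  have htp' : G.IsTw p' := ⟨q', (stTwHL_5 G).symm _ _ h.t'⟩
  have cas : ∀ u ∈ G.nb z, u = l' ∨ u = q ∨ u = p ∨ u = q' ∨ u = p' ∨ u = x := by
    intro u hu
    rw [h.nb] at hu
    simpa only [mem_insert, mem_singleton] using hu
  rcases cov3_76 (qs16 G) (tor86 hG.g5) h.lR (mem_nR76.2 ⟨hqz, hqR⟩) (m00 h.I0) with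
    h1 | h1 | h1 | h1 | h1
  · obtain ⟨w, h2, -, h3, h4⟩ := h1
    rcases cas w (mem_nR76.1 h2).1 with rfl | rfl | rfl | rfl | rfl | rfl
    · exact h4
    · exact absurd h3 (tw_not_low11 htq)
    · exact absurd h3 (tw_not_low11 htp)
    · exact absurd h3 (tw_not_low11 htq')
    · exact absurd h3 (tw_not_low11 htp')
    · exact absurd h3 h.hx.1.1
  · exfalso
    obtain ⟨v, w, h2, -, h3, h4, h5⟩ := h1
    have htv : G.IsTw v := ⟨w, h3⟩
    rcases cas v (mem_nR76.1 h2).1 with rfl | rfl | rfl | rfl | rfl | rfl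
    · exact tw_not_low11 htv h.low'
    · exact G.irr _ h4
    · have := (stTwHL_5 G).uniq h9 _ _ _ h3 ((stTwHL_5 G).symm _ _ h.t)
      subst this
      exact G.irr _ h5
    · exact hn (G.sym _ _ h4)
    · have := (stTwHL_5 G).uniq h9 _ _ _ h3 ((stTwHL_5 G).symm _ _ h.t')
      subst this
      exact hn (G.sym _ _ h5)
    · exact h.hx.1.2 htv
  · exfalso
    obtain ⟨a, b, h2, -, -, h3, -⟩ := h1
    have ha1 := HL_not_low76 h3
    have ha2 := (stTwHL_5 G).notHL h9 _ _ _ h3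
    rcases cas a (mem_nR76.1 h2).1 with rfl | rfl | rfl | rfl | rfl | rfl
    · exact ha1 h.low'
    · exact ha2 htq
    · exact ha2 htp
    · exact ha2 htq'
    · exact ha2 htp'
    · exact h.hx.2.2 ⟨b, h3⟩
  · obtain ⟨a, b, -, -, h3, -⟩ := h1
    exact absurd h3 (tw_not_low11 htq)
  · obtain ⟨a, b, -, -, -, h3⟩ := h1
    exact absurd htq (twLL_5 (LL_symm5 h3))

theorem no_t3 (c : D3 G Fa B d) (hT : ∀ x ∈ G.pT B d, ¬ G.IsTw x) {z q p q' p' x : V}
    (h : G.T3s Fa z d q p q' p' x) (hn : q' ∉ G.nb q) : False := by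
  classical
  have h1 := t3_adj c.hG h hn
  have h2 := t3_adj c.hG h.comm (fun h3 => hn (G.sym _ _ h3))
  have htq : G.IsTw q := ⟨p, h.t⟩
  have htp : G.IsTw p := ⟨q, (stTwHL_5 G).symm _ _ h.t⟩
  have htq' : G.IsTw q' := ⟨p', h.t'⟩
  have htp' : G.IsTw p' := ⟨q', (stTwHL_5 G).symm _ _ h.t'⟩
  have h3 : ∀ u v, G.Tw u v → u ∈ G.nb d → v ∈ G.nb d := by
    intro u v huv hu
    refine G.sym _ _ (Tw_nb5 huv (G.sym _ _ hu) ?_)
    rintro rfl
    exact tw_not_low11 ⟨u, (stTwHL_5 G).symm _ _ huv⟩ c.hL.low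
  have h4 : ∀ u ∈ G.nb z, u ≠ d → u ≠ x → u ∈ G.pO B d := by
    intro u hu hud hux
    have hR := nb_R76 h.lR h.I0 hu
    have h5 : u ∈ G.nb d ∧ G.IsTw u := by
      rw [h.nb] at hu
      simp only [mem_insert, mem_singleton] at hu
      rcases hu with rfl | rfl | rfl | rfl | rfl | rfl
      · exact absurd rfl hud
      · exact ⟨h1, htq⟩
      · exact ⟨h3 _ _ h.t h1, htp⟩
      · exact ⟨h2, htq'⟩
      · exact ⟨h3 _ _ h.t' h2, htp'⟩
      · exact absurd rfl hux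
    exact (c.tri (mem_nR76.2 ⟨h5.1, hR⟩)).resolve_left fun h6 => hT u h6 h5.2
  have h5 : ((G.nb z).erase d).erase x ⊆ G.pO B d := by
    intro u hu
    rw [mem_erase, mem_erase] at hu
    exact h4 u hu.2.2 hu.2.1 hu.1
  have h6 := card_le_card h5
  have h7 : (G.nb z).card = 6 := h.low
  have h8 := pred_card_le_card_erase (s := G.nb z) (a := d)
  have h9 := pred_card_le_card_erase (s := (G.nb z).erase d) (a := x)
  have h10 := c.three
  omega

/-- cover of the edge from a low vertex of type `T6` to a hub -/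
theorem t6_cov (hG : G.Gen6 Fa) {z d q p x y w : V} (h : G.T6s Fa z d q p x y w) {u : V}
    (hu : u ∈ G.nb z) (huh : G.Hub u) (huq : u ∉ G.nb q) :
    u ∈ G.nb d ∨ ∃ b ∈ R Fa, G.LL d b z u := by
  have h9 := hG.g5.n9
  have huR := nb_R76 h.lR h.I0 hu
  have htq : G.IsTw q := ⟨p, h.t⟩
  have htp : G.IsTw p := ⟨q, (stTwHL_5 G).symm _ _ h.t⟩
  have cas : ∀ u ∈ G.nb z, u = d ∨ u = q ∨ u = p ∨ u = x ∨ u = y ∨ u = w := by
    intro u hu
    rw [h.nb] at hu
    simpa only [mem_insert, mem_singleton] using hu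
  rcases cov3_76 (qs16 G) (tor86 hG.g5) h.lR (mem_nR76.2 ⟨hu, huR⟩) (m00 h.I0) with
    h1 | h1 | h1 | h1 | h1
  · obtain ⟨v, h2, -, h3, h4⟩ := h1
    rcases cas v (mem_nR76.1 h2).1 with rfl | rfl | rfl | rfl | rfl | rfl
    · exact Or.inl h4
    · exact absurd h3 (tw_not_low11 htq)
    · exact absurd h3 (tw_not_low11 htp)
    · exact absurd h3 h.hx.1.1
    · exact absurd h3 h.hy.1.1
    · exact absurd h3 h.hz.1.1
  · exfalso
    obtain ⟨v, v', h2, -, h3, h4, h5⟩ := h1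
    have htv : G.IsTw v := ⟨v', h3⟩
    rcases cas v (mem_nR76.1 h2).1 with rfl | rfl | rfl | rfl | rfl | rfl
    · exact tw_not_low11 htv h.low'
    · exact huq h4
    · have := (stTwHL_5 G).uniq h9 _ _ _ h3 ((stTwHL_5 G).symm _ _ h.t)
      subst this
      exact huq h5
    · exact h.hx.1.2 htv
    · exact h.hy.1.2 htv
    · exact h.hz.1.2 htv
  · exfalso
    obtain ⟨a, b, h2, -, -, h3, -⟩ := h1
    have ha1 := HL_not_low76 h3
    have ha2 := (stTwHL_5 G).notHL h9 _ _ _ h3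
    rcases cas a (mem_nR76.1 h2).1 with rfl | rfl | rfl | rfl | rfl | rfl
    · exact ha1 h.low'
    · exact ha2 htq
    · exact ha2 htp
    · exact h.hx.2.2 ⟨b, h3⟩
    · exact h.hy.2.2 ⟨b, h3⟩
    · exact h.hz.2.2 ⟨b, h3⟩
  · obtain ⟨a, b, -, -, h3, -⟩ := h1
    exact absurd h3 huh.1
  · obtain ⟨a, b, h2, hb, -, h3⟩ := h1
    have h4 := h3.1
    rcases cas a (mem_nR76.1 h2).1 with rfl | rfl | rfl | rfl | rfl | rfl
    · exact Or.inr ⟨b, hb, h3⟩
    · exact absurd h4 (tw_not_low11 htq)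
    · exact absurd h4 (tw_not_low11 htp)
    · exact absurd h4 h.hx.1.1
    · exact absurd h4 h.hy.1.1
    · exact absurd h4 h.hz.1.1

/-- a twin vertex in one neighbourhood with two lows outside of it is not poor -/
theorem q_rich (hG : G.Gen6 Fa) {q p z d : V} {D : Finset V} (ht : G.Tw q p) (hqR : q ∈ R Fa)
    (hI : G.I Fa q = {D}) (hz : z ∈ G.nR Fa q) (hzl : G.Low z) (hzm : G.m Fa z q = 0)
    (hd : d ∈ G.nR Fa q) (hdl : G.Low d) (hdm : G.m Fa d q = 0) (hzd : z ≠ d) :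
    1 ≤ G.ch5 Fa q := by
  classical
  have h9 := hG.g5.n9
  have hreg := hG.g5.reg
  have htq : G.IsTw q := ⟨p, ht⟩
  have htp : G.IsTw p := ⟨q, (stTwHL_5 G).symm _ _ ht⟩
  have h1 := (stCh5_28 G).tw1 h9 Fa hreg q hqR htq D hI
  have h2 := d_split76 (G := G) q D
  have h3 := nb_split76 hreg hqR
  rw [hI, sum_singleton] at h3
  have h7 := tw_card11 htq
  rw [h7] at h2 h3
  have hpR : p ∈ G.nR Fa q := mem_nR76.2 ⟨ht.1, ((stTwHL_5 G).twI Fa hreg q hqR p ht).1⟩
  have h4 : 2 ≤ (G.NO Fa q).card := by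
    rw [← card_pair hzd]
    refine card_le_card ?_
    intro u hu
    rw [mem_insert, mem_singleton] at hu
    rw [NO, mem_filter]
    rcases hu with rfl | rfl
    · exact ⟨hz, hzl, hzm⟩
    · exact ⟨hd, hdl, hdm⟩
  have h5 : (G.NH Fa q).card + 3 ≤ (G.nR Fa q).card := by
    have hzp : z ≠ p := by
      rintro rfl
      exact tw_not_low11 htp hzl
    have hdp : d ≠ p := by
      rintro rfl
      exact tw_not_low11 htp hdl
    have e1 : ({z, d, p} : Finset V).card = 3 := by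
      rw [card_insert_of_notMem, card_pair hdp]
      rw [mem_insert, mem_singleton]
      exact fun e => e.elim hzd hzp
    have e2 : Disjoint (G.NH Fa q) {z, d, p} := by
      rw [disjoint_left]
      intro u hu hu2
      rw [NH, mem_filter] at hu
      rw [mem_insert, mem_insert, mem_singleton] at hu2
      rcases hu2 with rfl | rfl | rfl
      · exact hu.2.1.1 hzl
      · exact hu.2.1.1 hdl
      · exact hu.2.1.2 htp
    rw [← e1, ← card_union_of_disjoint e2]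
    refine card_le_card ?_
    intro u hu
    rw [mem_union, mem_insert, mem_insert, mem_singleton] at hu
    rcases hu with hu | rfl | rfl | rfl
    · rw [NH, mem_filter] at hu
      exact hu.1
    · exact hz
    · exact hd
    · exact hpR
  have h6 := e1q_86 hG.g5 ht hqR hI
  have h8 := ff_tw (G := G) (B := D) htq
  have h10 : G.fg5 Fa q = ff G D q := by rw [fg_eq, hI, sum_singleton]
  have h11 : ff G D q < 0 → G.d q (G.Co D) = 4 := by
    intro h
    obtain ⟨-, p', m, m', -, -, -, e1, -⟩ := h8.2.1 h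
    exact e1
  have h12 : G.d q (G.N D) = (G.nb q ∩ G.N D).card := rfl
  rw [h10, h12] at h1
  have h13 := h8.1
  by_cases hf : ff G D q < 0
  · have h14 := h11 hf
    omega
  · omega

/-- no hub of `l` in one neighbourhood and adjacent to `d` that is not paid by `d` -/
theorem t6_good {z q p x y w : V} (h : G.T6s Fa z d q p x y w) {u : V}
    (hu : u ∈ G.nb z) (hud : u ∈ G.nb d) (huh : G.PH Fa z u) (h1 : (G.I Fa u).card = 1) :
    G.Good Fa z d u := by
  refine ⟨hu, hud, ⟨huh.1, huh.2.1, ?_⟩, h1⟩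
  rintro ⟨b, hb⟩
  have hdz : d ∈ G.nb z := by rw [h.nb]; simp
  have h2 : z ∈ G.cl u := mem_insert_of_mem (G.sym _ _ hu)
  rw [hb.2.2.2.2, mem_insert] at h2
  rcases h2 with h2 | h2
  · exact ne_of_nb5 hdz h2
  · rw [cl, mem_insert] at h2
    rcases h2 with rfl | h2
    · exact hb.2.2.2.1 (mem_insert_of_mem hdz)
    · have h3 := G.sym _ _ h2
      rw [h.nb] at h3
      simp only [mem_insert, mem_singleton] at h3
      have h4 := hb.2.1
      rcases h3 with rfl | rfl | rfl | rfl | rfl | rfl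
      · exact hb.2.2.2.1 (mem_insert_self _ _)
      · exact tw_not_low11 ⟨p, h.t⟩ h4
      · exact tw_not_low11 ⟨q, (stTwHL_5 G).symm _ _ h.t⟩ h4
      · exact h.hx.1.1 h4
      · exact h.hy.1.1 h4
      · exact h.hz.1.1 h4

/-- a claimant of type `T6` is the only one -/
theorem t6_only (c : D3 G Fa B d) (hT6 : G.StT6) (hT : ∀ x ∈ G.pT B d, ¬ G.IsTw x)
    {z q p x y w : V} (h : G.T6s Fa z d q p x y w) (hq : G.NoQ Fa z q)
    (hg : ∀ g, ¬ G.Good Fa z d g) {z' : V} (hz' : G.DL Fa z' d) : z' = z := by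
  classical
  have h9 := c.h9
  have hqd : q ∈ G.nb d := hT6.adj Fa c.hG z d q p x y w h
  have hdz : d ∈ G.nb z := by rw [h.nb]; simp
  have hqz : q ∈ G.nb z := by rw [h.nb]; simp
  have hpz : p ∈ G.nb z := by rw [h.nb]; simp
  have htq : G.IsTw q := ⟨p, h.t⟩
  have htp : G.IsTw p := ⟨q, (stTwHL_5 G).symm _ _ h.t⟩
  have hzO := c.L0_O h.toL0 hdz
  have hqR := nb_R76 h.lR h.I0 hqz
  obtain ⟨hpR, hpI⟩ := (stTwHL_5 G).twI Fa c.reg q hqR p h.t
  have hqO : q ∈ G.pO B d := (c.tri (mem_nR76.2 ⟨hqd, hqR⟩)).resolve_left fun h1 => hT q h1 htq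
  have hpd : p ∈ G.nb d := by
    refine G.sym _ _ (Tw_nb5 h.t (G.sym _ _ hqd) ?_)
    rintro rfl
    exact tw_not_low11 htp c.hL.low
  have hpO : p ∈ G.pO B d := (c.tri (mem_nR76.2 ⟨hpd, hpR⟩)).resolve_left fun h1 => hT p h1 htp
  have hzq : z ≠ q := ne_of_nb5 hqz
  have hzp : z ≠ p := ne_of_nb5 hpz
  have hqp : q ≠ p := tw_ne h.t
  have hO : G.pO B d = {z, q, p} := by
    symm
    refine eq_of_subset_of_card_le ?_ ?_
    · intro u hu
      rw [mem_insert, mem_insert, mem_singleton] at hu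
      rcases hu with rfl | rfl | rfl
      exacts [hzO, hqO, hpO]
    · rw [c.three, card_insert_of_notMem, card_pair hqp]
      rw [mem_insert, mem_singleton]
      exact fun e => e.elim hzq hzp
  have hI : G.I Fa q = ∅ := by
    rcases hq.2 with h1 | h1
    · exact h1
    · by_contra h2
      have h3 : (G.I Fa q).card = 1 := by
        have := h.kq
        have := card_pos.2 (nonempty_iff_ne_empty.2 h2)
        omega
      obtain ⟨D, hD⟩ := card_eq_one.1 h3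
      have h4 := q_rich c.hG h.t hqR hD (mem_nR76.2 ⟨G.sym _ _ hqz, h.lR⟩) h.low (m00 h.I0)
        (mem_nR76.2 ⟨G.sym _ _ hqd, c.hL.lR⟩) c.hL.low (c.m0 hqO) (ne_of_nb5 hdz)
      omega
  have hc := lq_D0_86 c.hG.g5 (by have := c.hG.n13; omega) h.low h.t hqz ⟨h.lR, h.I0⟩
    ⟨hqR, hI⟩ ⟨hpR, hpI.trans hI⟩
  have h6 : (G.nb z).card = 6 := h.low
  have hH : 2 ≤ ((G.nb z \ G.nb q).erase q).card := by
    have h1 := card_sdiff_add_card_inter (G.nb z) (G.nb q)
    have h2 := pred_card_le_card_erase (s := G.nb z \ G.nb q) (a := q)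
    omega
  obtain ⟨g1, hg1, g2, hg2, hne⟩ := one_lt_card.1 hH
  have hub : ∀ g ∈ (G.nb z \ G.nb q).erase q, g ∈ G.nb z ∧ g ∉ G.nb q ∧ G.PH Fa z g := by
    intro g hg'
    rw [mem_erase, mem_sdiff] at hg'
    refine ⟨hg'.2.1, hg'.2.2, ?_⟩
    have h1 := hg'.2.1
    rw [h.nb] at h1
    simp only [mem_insert, mem_singleton] at h1
    rcases h1 with h1 | h1 | h1 | h1 | h1 | h1
    · exact absurd (G.sym _ _ hqd) (by rw [← h1]; exact hg'.2.2)
    · exact absurd h1 hg'.1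
    · exact absurd h.t.1 (by rw [← h1]; exact hg'.2.2)
    · rw [h1]; exact h.hx
    · rw [h1]; exact h.hy
    · rw [h1]; exact h.hz
  have hLL : ∀ g ∈ (G.nb z \ G.nb q).erase q, ∃ b ∈ R Fa, G.LL d b z g := by
    intro g hg'
    obtain ⟨h1, h2, h3⟩ := hub g hg'
    refine (t6_cov c.hG h h1 h3.1 h2).resolve_left fun h4 => ?_
    rcases c.tri (mem_nR76.2 ⟨h4, nb_R76 h.lR h.I0 h1⟩) with h5 | h5
    · have h6 : B ∈ G.I Fa g := mem_I76.2 ⟨(L1B c.hL).1, (mem_pT.1 h5).2⟩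
      have h7 : 0 < (G.I Fa g).card := card_pos.2 ⟨B, h6⟩
      exact hg g (t6_good h h1 h4 h3 (by have := h3.2.1; omega))
    · rw [hO, mem_insert, mem_insert, mem_singleton] at h5
      rcases h5 with rfl | rfl | rfl
      · exact G.irr _ h1
      · exact h3.1.2 htq
      · exact h3.1.2 htp
  obtain ⟨b1, hb1R, hb1⟩ := hLL g1 hg1
  obtain ⟨b2, hb2R, hb2⟩ := hLL g2 hg2
  have hb : ∀ b g, b ∈ R Fa → G.LL d b z g → g ∈ R Fa → b ∈ G.pT B d ∧ b ≠ z := by
    intro b g h1 h2 h3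
    have h4 := LL_I76 h2 c.hL.lR h1 h.lR h3
    have h5 : B ∈ G.I Fa b := by
      rw [← h4, c.hL.I1]
      exact mem_singleton_self _
    refine ⟨mem_pT.2 ⟨LL_ab76 h2, (mem_I76.1 h5).2⟩, ?_⟩
    rintro rfl
    rw [h.I0] at h5
    exact notMem_empty _ h5
  have hg1R := nb_R76 h.lR h.I0 (hub g1 hg1).1
  have hg2R := nb_R76 h.lR h.I0 (hub g2 hg2).1
  obtain ⟨hb1T, hb1z⟩ := hb b1 g1 hb1R hb1 hg1R
  obtain ⟨hb2T, hb2z⟩ := hb b2 g2 hb2R hb2 hg2R
  have hbb : b1 ≠ b2 := by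
    rintro rfl
    have h1 := hb1.2.2.2.2.2.2
    rw [← hb2.2.2.2.2.2.2] at h1
    have h2 : g1 ∈ insert g2 (G.cl d) := by
      rw [← h1]
      exact mem_insert_self _ _
    rw [mem_insert] at h2
    exact h2.elim hne (fun h3 => hb1.2.2.2.2.2.1 h3)
  have hsix := c.six
  have hx1 := c.x1
  have hTT : G.pT B d = {b1, b2} := by
    symm
    refine eq_of_subset_of_card_le ?_ ?_
    · intro u hu
      rw [mem_insert, mem_singleton] at hu
      rcases hu with rfl | rfl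
      exacts [hb1T, hb2T]
    · rw [card_pair hbb]
      omega
  have hadj : b1 ∈ G.nb b2 := by
    have h1 : b1 ∈ insert g2 (G.cl d) :=
      mem_insert_of_mem (mem_insert_of_mem (mem_pT.1 hb1T).1)
    rw [hb2.2.2.2.2.2.2, mem_insert, cl, mem_insert] at h1
    rcases h1 with h1 | h1 | h1
    · exact absurd h1 hb1z
    · exact absurd h1 hbb
    · exact h1
  have hoth : ∀ u ∈ G.pT B d, ∃ v ∈ G.pT B d, v ∈ G.nb u ∧ G.Low v := by
    intro u hu
    rw [hTT, mem_insert, mem_singleton] at hu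
    rcases hu with rfl | rfl
    · exact ⟨b2, hb2T, G.sym _ _ hadj, hb2.2.1⟩
    · exact ⟨b1, hb1T, hadj, hb1.2.1⟩
  have hno : ∀ v ∈ G.pT B d, v ≠ d := by
    rintro v hv rfl
    exact G.irr _ (mem_pT.1 hv).1
  have hNF : ∀ u, G.L1 Fa B u → d ∈ G.pT B u → G.NF Fa u ≠ {d} ∧ G.pT B u ≠ {d} := by
    intro u hu hdu
    obtain ⟨v, hv, hvu, hvl⟩ := hoth u (mem_pT.2 ⟨G.sym _ _ (mem_pT.1 hdu).1, (L1B hu).2⟩)
    refine ⟨fun h1 => ?_, fun h1 => ?_⟩
    · have h2 := mem_NF_low hvl (mem_nR76.1 (c.TR hv)).2 hvu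
      rw [h1, mem_singleton] at h2
      exact hno v hv h2
    · have h2 : v ∈ G.pT B u := mem_pT.2 ⟨hvu, (mem_pT.1 hv).2⟩
      rw [h1, mem_singleton] at h2
      exact hno v hv h2
  rcases c.cls hz' with ⟨x', y', h1, -⟩ | ⟨q', p', h1, -, -⟩ | ⟨q', p', y', h1, -, -⟩ |
    ⟨q', p', q2, p2, x', h1, h2⟩ | ⟨q', p', x', y', w', h1, -, -, -⟩
  · exact absurd h1.nf (hNF z' h1.toL1 h1.dT).1
  · exact absurd h1.nf (hNF z' h1.toL1 h1.dT).1
  · have h2 := h1.s0.2.2.2.1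
    exact absurd h2 (hNF z' h1.toL1 (by rw [h2]; exact mem_singleton_self _)).2
  · exact (c.no_t3 hT h1 h2).elim
  · have h2 := c.L0_O h1.toL0 (by rw [h1.nb]; simp)
    rw [hO, mem_insert, mem_insert, mem_singleton] at h2
    rcases h2 with h2 | rfl | rfl
    · exact h2
    · exact absurd h1.low (tw_not_low11 htq)
    · exact absurd h1.low (tw_not_low11 htp)

/-- outer neighbours are in `R` -/
theorem L1_OR {z x : V} (hz : G.L1 Fa B z) (h : x ∈ G.pO B z) : x ∈ R Fa := by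
  refine mem_R76.2 fun D hD hx => ?_
  have h1 := I_of_nb76 hz.lR hD (mem_pO.1 h).1 hx
  rw [hz.I1, mem_singleton] at h1
  subst h1
  exact (mem_Co76.1 (mem_pO.1 h).2).1 hx

theorem ask_one (c : D3 G Fa B d) (hT : ∀ x ∈ G.pT B d, ¬ G.IsTw x) {t : V}
    (h : ∀ z, G.DL Fa z d → z = t) {M : ℤ} (hM0 : 0 ≤ M)
    (hM : G.DL Fa t d → -2 * G.ch5 Fa t ≤ M) : G.ask Fa d ≤ M := by
  classical
  obtain ⟨-, hAL⟩ := c.ask_nt hT
  have h1 : G.ask Fa d ≤ ∑ z ∈ R Fa, (if z = t then M else 0) := by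
    rw [ask]
    refine sum_le_sum fun z _ => ?_
    rw [dn_low c.hL.low, if_neg (hAL z), add_zero]
    by_cases hz : G.DL Fa z d
    · have h2 := h z hz
      subst h2
      rw [if_pos hz, if_pos rfl]
      exact hM hz
    · rw [if_neg hz]
      split_ifs
      · exact hM0
      · exact le_rfl
  refine h1.trans ?_
  rw [sum_ite_eq']
  split_ifs
  · exact le_rfl
  · exact hM0

/-- a claimant in `T(d)` -/
structure Cl (G : CG V) (Fa : Finset (Finset V)) (B : Finset V) (d t : V) : Prop where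
  L : G.L1 Fa B t
  tT : t ∈ G.pT B d
  dT : d ∈ G.pT B t
  neg : G.ch5 Fa t < 0
  typ : (∃ x y, G.Gam Fa B t d x y) ∨ (∃ q p, G.Eps Fa B t d q p ∧ 2 ≤ G.ch5 Fa d) ∨
    (∃ q p y, G.S0s Fa B t d q p y ∧ 1 ≤ G.ch5 Fa d)

theorem cl_of (c : D3 G Fa B d) (hT : ∀ x ∈ G.pT B d, ¬ G.IsTw x)
    (h6 : ∀ z q p x y w, G.T6s Fa z d q p x y w → G.NoQ Fa z q → (∀ g, ¬ G.Good Fa z d g) →
      ¬ 2 ≤ G.ch5 Fa d) {t : V} (h : G.DL Fa t d) : Cl G Fa B d t := by
  have key : G.L1 Fa B t → d ∈ G.pT B t → t ∈ G.pT B d := fun h1 h2 =>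
    mem_pT.2 ⟨G.sym _ _ (mem_pT.1 h2).1, (L1B h1).2⟩
  rcases c.cls h with ⟨x', y', h1, h2⟩ | ⟨q', p', h1, h2, h3⟩ | ⟨q', p', y', h1, h2, h3⟩ |
    ⟨q', p', q2, p2, x', h1, h2⟩ | ⟨q', p', x', y', w', h1, h2, h3, h4⟩
  · exact ⟨h1.toL1, key h1.toL1 h1.dT, h1.dT, h2, Or.inl ⟨x', y', h1⟩⟩
  · exact ⟨h1.toL1, key h1.toL1 h1.dT, h1.dT, h2, Or.inr (Or.inl ⟨q', p', h1, h3⟩)⟩
  · have h5 : d ∈ G.pT B t := by
      rw [h1.s0.2.2.2.1]
      exact mem_singleton_self _
    exact ⟨h1.toL1, key h1.toL1 h5, h5, h2, Or.inr (Or.inr ⟨q', p', y', h1, h3⟩)⟩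
  · exact (c.no_t3 hT h1 h2).elim
  · exact (h6 _ _ _ _ _ _ h1 h2 h3 h4).elim

theorem cl_ge {t : V} (c : D3 G Fa B d) (h : G.DL Fa t d) :
    -2 ≤ G.ch5 Fa t := (claim_low c.hG c.hL c.hn h).2.2

/-- `LL d b t x`: `b` is in `T(d)` -/
theorem LL_T (c : D3 G Fa B d) {t x b : V} (ht : t ∈ R Fa) (hx : x ∈ R Fa) (hb : b ∈ R Fa)
    (h : G.LL d b t x) : b ∈ G.pT B d ∧ b ≠ t := by
  have h4 := LL_I76 h c.hL.lR hb ht hx
  have h5 : B ∈ G.I Fa b := by
    rw [← h4, c.hL.I1]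
    exact mem_singleton_self _
  refine ⟨mem_pT.2 ⟨LL_ab76 h, (mem_I76.1 h5).2⟩, ?_⟩
  rintro rfl
  exact h.2.2.2.2.1 (mem_insert_self _ _)

theorem notdT {t : V} (h : t ∈ G.pT B d) : t ≠ d := by
  rintro rfl
  exact G.irr _ (mem_pT.1 h).1

/-- GAMMA: at least two unpaid neighbours -/
theorem gam_two (c : D3 G Fa B d) (hT : ∀ x ∈ G.pT B d, ¬ G.IsTw x) {t x y : V}
    (h : G.Gam Fa B t d x y) (htT : t ∈ G.pT B d) : 2 ≤ (G.NF Fa d).card := by
  classical
  have h9 := c.h9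
  have htR := h.lR
  have htN := (L1B h.toL1).2
  have htNF : t ∈ G.NF Fa d := mem_NF_low h.low htR (mem_pT.1 htT).1
  by_contra hc
  have h1 : G.NF Fa d = {t} := by
    symm
    refine eq_of_subset_of_card_le (singleton_subset_iff.2 htNF) ?_
    rw [card_singleton]
    omega
  have hO2 : (G.pO B t).card = 2 := by rw [h.out]; exact card_pair h.ne
  have key : ∀ o ∈ G.pO B d, o ∉ G.nb t → ∃ v v', v ∈ G.pO B d ∧ v' ∈ G.pO B d ∧ G.Tw v v' ∧
      o ∈ G.nb v ∧ o ∈ G.nb v' := by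
    intro o ho hot
    have hoN : o ≠ t := by
      rintro rfl
      exact (mem_Co76.1 (mem_pO.1 ho).2).2 htN
    rcases cov3_76 (qs16 G) (tor86 c.hG.g5) c.hL.lR (c.OR ho) (c.m0 ho) with
      h2 | h2 | h2 | h2 | h2
    · exfalso
      obtain ⟨w, e1, -, e3, e4⟩ := h2
      have e5 := mem_NF_low e3 (mem_nR76.1 e1).2 (mem_nR76.1 e1).1
      rw [h1, mem_singleton] at e5
      subst e5
      exact hot e4
    · obtain ⟨v, w, e1, e2, e3, e4, e5⟩ := h2
      exact ⟨v, w, (c.tri e1).resolve_left fun e => hT v e ⟨w, e3⟩,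
        (c.tri e2).resolve_left fun e => hT w e ⟨v, (stTwHL_5 G).symm _ _ e3⟩, e3, e4, e5⟩
    · exfalso
      obtain ⟨a, b, e1, -, -, e3, -⟩ := h2
      have e5 : a ∈ G.NF Fa d := by
        rw [NF, mem_filter]
        exact ⟨e1, Or.inr (Or.inr ⟨b, e3⟩)⟩
      rw [h1, mem_singleton] at e5
      subst e5
      exact HL_not_low76 e3 h.low
    · exfalso
      obtain ⟨a, b, -, -, e3, -⟩ := h2
      have e5 := mem_NF_low e3 (mem_nR76.1 (c.OR ho)).2 (mem_pO.1 ho).1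
      rw [h1, mem_singleton] at e5
      exact hoN e5
    · exfalso
      obtain ⟨a, b, e1, e2, -, e3⟩ := h2
      have e5 := mem_NF_low e3.1 (mem_nR76.1 e1).2 (mem_nR76.1 e1).1
      rw [h1, mem_singleton] at e5
      subst e5
      have e6 := mem_NF_low e3.2.1 e2 (LL_ab76 e3)
      rw [h.nf, mem_singleton] at e6
      subst e6
      exact e3.2.2.2.2.1 (mem_insert_self _ _)
  obtain ⟨o, ho, hot⟩ : ∃ o ∈ G.pO B d, o ∉ G.pO B t := by
    by_contra hcon
    have := card_le_card (show G.pO B d ⊆ G.pO B t from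
      fun o ho => by_contra fun h => hcon ⟨o, ho, h⟩)
    have := c.three
    omega
  have hot' : o ∉ G.nb t := fun e => hot (mem_pO.2 ⟨e, (mem_pO.1 ho).2⟩)
  obtain ⟨v, v', hv, hv', hvv, hov, hov'⟩ := key o ho hot'
  have hvt : v ∉ G.nb t := by
    intro e
    have e1 : v ∈ G.pO B t := mem_pO.2 ⟨e, (mem_pO.1 hv).2⟩
    rw [h.out, mem_insert, mem_singleton] at e1
    rcases e1 with rfl | rfl
    · exact h.hx.1.2 ⟨v', hvv⟩
    · exact h.hy.1.2 ⟨v', hvv⟩
  obtain ⟨u, u', hu, hu', huu, hvu, hvu'⟩ := key v hv hvt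
  have hov1 : o ≠ v := (ne_of_nb5 hov).symm
  have hov2 : o ≠ v' := (ne_of_nb5 hov').symm
  have hvv' : v ≠ v' := tw_ne hvv
  have hO : G.pO B d = {o, v, v'} := by
    symm
    refine eq_of_subset_of_card_le ?_ ?_
    · intro z hz
      rw [mem_insert, mem_insert, mem_singleton] at hz
      rcases hz with rfl | rfl | rfl
      exacts [ho, hv, hv']
    · rw [c.three, card_insert_of_notMem, card_pair hvv']
      rw [mem_insert, mem_singleton]
      exact fun e => e.elim hov1 hov2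
  have hsym := (stTwHL_5 G).symm _ _ hvv
  rw [hO, mem_insert, mem_insert, mem_singleton] at hu hu'
  rcases hu with rfl | rfl | rfl
  · rcases hu' with rfl | rfl | rfl
    · exact G.irr _ huu.1
    · exact G.irr _ hvu'
    · exact hov1 ((stTwHL_5 G).uniq h9 _ _ _ hsym ((stTwHL_5 G).symm _ _ huu)).symm
  · exact G.irr _ hvu
  · have e := (stTwHL_5 G).uniq h9 _ _ _ huu hsym
    subst e
    exact G.irr _ hvu'

theorem ff_nonneg (c : D3 G Fa B d) (h1 : (G.pT B d).card = 2) : 0 ≤ ff G B d := by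
  have h2 := c.six
  have h3 : (G.pX (G.Co B) d).card = 3 := c.three
  rcases ff_cases c.fr c.hL.low with h | ⟨-, ⟨v, h, -⟩ | h | h | h⟩
  · exact h
  · have := S0_card h
    omega
  · have := U3_card h
    omega
  · have := T3_card h
    omega
  · have := HF_card h
    omega

/-- `S0-` claimants need two hidden neighbours of `d` -/
theorem s0_X {t q p y : V} (h : G.S0s Fa B t d q p y) : 2 ≤ (G.pX B d).card := by
  obtain ⟨-, -, hd, hT, ⟨q1, q2, h1, h2, h3⟩, -⟩ := h.s0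
  have hq1 : q1 ∈ G.pX B t := by rw [h2]; simp
  have hq2 : q2 ∈ G.pX B t := by rw [h2]; simp
  have h4 : d ≠ q2 := by
    rintro rfl
    exact tw_not_low11 ⟨q1, (stTwHL_5 G).symm _ _ h1⟩ hd
  have h5 := Tw_nb5 h1 (G.sym _ _ h3) h4
  rw [← card_pair (tw_ne h1)]
  refine card_le_card ?_
  intro u hu
  rw [mem_insert, mem_singleton] at hu
  rcases hu with rfl | rfl
  · exact mem_pX.2 ⟨h3, (mem_pX.1 hq1).2⟩
  · exact mem_pX.2 ⟨G.sym _ _ h5, (mem_pX.1 hq2).2⟩

/-- two claimants in `T(d)` do not occur -/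
theorem no_two (c : D3 G Fa B d) {t1 t2 : V} (h12 : t1 ≠ t2) (hT : G.pT B d = {t1, t2})
    (k1 : Cl G Fa B d t1) (k2 : Cl G Fa B d t2) : False := by
  classical
  have hX : (G.pX B d).card = 1 := by
    have := c.six
    rw [hT, card_pair h12] at this
    omega
  have hO : ∀ {t t' : V}, G.pT B d = {t, t'} → Cl G Fa B d t → Cl G Fa B d t' →
      (G.pO B t').card = 2 → ∀ o ∈ G.pO B t, o ∈ G.nb d := by
    intro t t' hT k k' hc o ho
    rcases k.typ with ⟨x, y, h⟩ | ⟨q, p, h, -⟩ | ⟨q, p, y, h, -⟩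
    · have main : ∀ o ∈ G.pO B t, (o ∈ G.nb d ∨ ∃ b ∈ R Fa, G.LL d b t o) → o ∈ G.nb d := by
        rintro o ho (h1 | ⟨b, hb, h1⟩)
        · exact h1
        · exfalso
          obtain ⟨h2, h3⟩ := c.LL_T k.L.lR (L1_OR k.L ho) hb h1
          rw [hT, mem_insert, mem_singleton] at h2
          have h4 := h2.resolve_left h3
          subst h4
          have h5 : G.pO B d ⊆ G.pO B b := by
            intro u hu
            have h6 : u ∈ insert o (G.cl d) :=
              mem_insert_of_mem (mem_insert_of_mem (mem_pO.1 hu).1)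
            rw [h1.2.2.2.2.2.2, mem_insert, cl, mem_insert] at h6
            rcases h6 with rfl | rfl | h6
            · exact absurd (L1B k.L).2 (mem_Co76.1 (mem_pO.1 hu).2).2
            · exact absurd (L1B k'.L).2 (mem_Co76.1 (mem_pO.1 hu).2).2
            · exact mem_pO.2 ⟨h6, (mem_pO.1 hu).2⟩
          have h7 := card_le_card h5
          have h8 := c.three
          omega
      refine main o ho ?_
      rw [h.out, mem_insert, mem_singleton] at ho
      rcases ho with rfl | rfl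
      · exact h.covx
      · exact h.covy
    · rw [h.out, mem_insert, mem_singleton] at ho
      rcases ho with rfl | rfl
      · exact h.dq
      · refine G.sym _ _ (Tw_nb5 h.t (G.sym _ _ h.dq) ?_)
        rintro rfl
        exact tw_not_low11 ⟨q, (stTwHL_5 G).symm _ _ h.t⟩ c.hL.low
    · have := s0_X h
      omega
  have hc : ∀ {t : V}, Cl G Fa B d t → (G.pO B t).card = 2 := by
    intro t k
    rcases k.typ with ⟨x, y, h⟩ | ⟨q, p, h, -⟩ | ⟨q, p, y, h, -⟩
    · rw [h.out]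
      exact card_pair h.ne
    · rw [h.out]
      exact card_pair (tw_ne h.t)
    · have := s0_X h
      omega
  have e1 := hO hT k1 k2 (hc k2)
  have e2 := hO (by rw [hT, pair_comm]) k2 k1 (hc k1)
  have h1 := e3_86 c.hG.g5 (notdT k1.tT).symm (notdT k2.tT).symm h12 c.hL.lR k1.L.lR k2.L.lR
    c.hL.I1 k1.L.I1 k2.L.I1
  have h2 : (G.nb d ∪ G.nb t1 ∪ G.nb t2) ∩ G.Co B ⊆ G.pO B d := by
    intro u hu
    rw [mem_inter, mem_union, mem_union] at hu
    refine mem_pO.2 ⟨?_, hu.2⟩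
    rcases hu.1 with (h3 | h3) | h3
    · exact h3
    · exact e1 u (mem_pO.2 ⟨h3, hu.2⟩)
    · exact e2 u (mem_pO.2 ⟨h3, hu.2⟩)
  have h3 := card_le_card h2
  have h4 := c.three
  omega

/-- two visible neighbours in `T(d)` -/
theorem case_two (c : D3 G Fa B d) (hT : ∀ x ∈ G.pT B d, ¬ G.IsTw x)
    (h6 : ∀ z, G.DL Fa z d → Cl G Fa B d z) (hc : (G.pT B d).card = 2) :
    G.ask Fa d ≤ max 0 (2 * G.ch5 Fa d) := by
  classical
  by_cases hex : ∃ t, G.DL Fa t d
  · obtain ⟨t, ht⟩ := hex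
    have k := h6 t ht
    have hone : ∀ z, G.DL Fa z d → z = t := by
      intro z hz
      by_contra hne
      have kz := h6 z hz
      refine c.no_two hne ?_ kz k
      symm
      refine eq_of_subset_of_card_le ?_ ?_
      · intro u hu
        rw [mem_insert, mem_singleton] at hu
        rcases hu with rfl | rfl
        exacts [kz.tT, k.tT]
      · rw [hc, card_pair hne]
    have hch : 2 ≤ G.ch5 Fa d := by
      rcases k.typ with ⟨x, y, h⟩ | ⟨q, p, h, h'⟩ | ⟨q, p, y, h, -⟩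
      · have h1 := c.gam_two hT h k.tT
        have h2 := c.ch
        have h3 := c.ff_nonneg hc
        have h4 : (2 : ℤ) ≤ ((G.NF Fa d).card : ℤ) := by exact_mod_cast h1
        have h5 : (0 : ℤ) ≤ ((G.NP Fa d).card : ℤ) := by positivity
        linarith
      · exact h'
      · have := s0_X h
        have := c.six
        omega
    refine c.ask_one hT hone (le_max_left _ _) fun _ => ?_
    have := c.cl_ge ht
    exact le_max_of_le_right (by linarith)
  · exact c.ask_one hT (t := d) (fun z hz => absurd ⟨z, hz⟩ hex) (le_max_left _ _)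
      fun hz => absurd ⟨d, hz⟩ hex

/-- GAMMA with one visible neighbour in `T(d)`: cover of the third outer neighbour -/
theorem gam_cov (c : D3 G Fa B d) {t x y : V} (h : G.Gam Fa B t d x y) (hT : G.pT B d = {t})
    {o : V} (hO : G.pO B d = {x, y, o}) (hox : o ≠ x) (hoy : o ≠ y) :
    G.Low o ∧ G.pT B t ≠ {d} := by
  classical
  have htN := (L1B h.toL1).2
  have htd : t ∈ G.nb d := by
    have : t ∈ G.pT B d := by rw [hT]; exact mem_singleton_self _
    exact (mem_pT.1 this).1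
  have ho : o ∈ G.pO B d := by rw [hO]; simp
  have hot : o ∉ G.nb t := by
    intro e
    have e1 : o ∈ G.pO B t := mem_pO.2 ⟨e, (mem_pO.1 ho).2⟩
    rw [h.out, mem_insert, mem_singleton] at e1
    exact e1.elim hox hoy
  have hxt : x ∈ G.nb t := by
    have : x ∈ G.pO B t := by rw [h.out]; simp
    exact (mem_pO.1 this).1
  have hyt : y ∈ G.nb t := by
    have : y ∈ G.pO B t := by rw [h.out]; simp
    exact (mem_pO.1 this).1
  have cas : ∀ u ∈ G.nR Fa d, u = t ∨ u = x ∨ u = y ∨ u = o := by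
    intro u hu
    rcases c.tri hu with h1 | h1
    · rw [hT, mem_singleton] at h1
      exact Or.inl h1
    · rw [hO, mem_insert, mem_insert, mem_singleton] at h1
      exact Or.inr h1
  have hnt : ∀ b ∈ R Fa, G.Low b → b ∈ G.nb t → b = d := by
    intro b hb hbl hbt
    have e6 := mem_NF_low hbl hb hbt
    rw [h.nf, mem_singleton] at e6
    exact e6
  rcases cov3_76 (qs16 G) (tor86 c.hG.g5) c.hL.lR (c.OR ho) (c.m0 ho) with
    h2 | h2 | h2 | h2 | h2
  · exfalso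
    obtain ⟨w, e1, -, e3, e4⟩ := h2
    rcases cas w e1 with rfl | rfl | rfl | rfl
    · exact hot e4
    · exact h.hx.1.1 e3
    · exact h.hy.1.1 e3
    · exact G.irr _ e4
  · exfalso
    obtain ⟨v, w, e1, e2, e3, e4, e5⟩ := h2
    rcases cas v e1 with rfl | rfl | rfl | rfl
    · exact tw_not_low11 ⟨w, e3⟩ h.low
    · exact h.hx.1.2 ⟨w, e3⟩
    · exact h.hy.1.2 ⟨w, e3⟩
    · exact G.irr _ e4
  · exfalso
    obtain ⟨a, b, e1, e2, -, e3, -, e4⟩ := h2
    have key : a ∈ G.nb t → False := by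
      intro e5
      have e6 : t ∈ G.cl a := mem_insert_of_mem (G.sym _ _ e5)
      rw [e3.2.2.2.2, mem_insert, cl, mem_insert] at e6
      rcases e6 with e6 | rfl | e6
      · exact ne_of_nb5 htd e6.symm
      · exact e3.2.2.2.1 (mem_insert_of_mem (G.sym _ _ htd))
      · have e7 := hnt b e2 e3.2.1 (G.sym _ _ e6)
        subst e7
        exact e3.2.2.2.1 (mem_insert_self _ _)
    rcases cas a e1 with rfl | rfl | rfl | rfl
    · exact HL_not_low76 e3 h.low
    · exact key hxt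
    · exact key hyt
    · exact e4 rfl
  · obtain ⟨a, b, e1, e2, e3, e4, e5⟩ := h2
    refine ⟨e3, fun e6 => ?_⟩
    have hbt : b = t := by
      rcases cas b e1 with rfl | rfl | rfl | rfl
      · rfl
      · exact absurd e4.2.1 h.hx.1.1
      · exact absurd e4.2.1 h.hy.1.1
      · exact absurd (mem_insert_self _ _) e4.2.2.2.1
    subst hbt
    have e7 := HL_I76 e4 e2 h.lR (mem_nR76.1 (c.OR ho)).2
    have e8 : B ∈ G.I Fa a := by
      rw [e7, h.I1]
      exact mem_singleton_self _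
    have e9 : a ∈ G.pT B b := mem_pT.2 ⟨G.sym _ _ e4.2.2.1, (mem_I76.1 e8).2⟩
    rw [e6, mem_singleton] at e9
    exact e5 e9.symm
  · exfalso
    obtain ⟨a, b, e1, e2, -, e3⟩ := h2
    rcases cas a e1 with rfl | rfl | rfl | rfl
    · have e6 := hnt b e2 e3.2.1 (LL_ab76 e3)
      subst e6
      exact e3.2.2.2.2.1 (mem_insert_self _ _)
    · exact h.hx.1.1 e3.1
    · exact h.hy.1.1 e3.1
    · exact e3.2.2.2.2.2.1 (mem_insert_self _ _)

/-- GAMMA with one visible neighbour in `T(d)` -/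
theorem gam_one (c : D3 G Fa B d) {t x y : V} (h : G.Gam Fa B t d x y) (hT : G.pT B d = {t}) :
    2 ≤ G.ch5 Fa d := by
  classical
  have h9 := c.h9
  have htT : t ∈ G.pT B d := by rw [hT]; exact mem_singleton_self _
  have htd := (mem_pT.1 htT).1
  have hcov : ∀ u ∈ G.pO B t, (u ∈ G.nb d ∨ ∃ b ∈ R Fa, G.LL d b t u) → u ∈ G.pO B d := by
    rintro u hu (h1 | ⟨b, hb, h1⟩)
    · exact mem_pO.2 ⟨h1, (mem_pO.1 hu).2⟩
    · exfalso
      obtain ⟨h2, h3⟩ := c.LL_T h.lR (L1_OR h.toL1 hu) hb h1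
      rw [hT, mem_singleton] at h2
      exact h3 h2
  have hxt : x ∈ G.pO B t := by rw [h.out]; simp
  have hyt : y ∈ G.pO B t := by rw [h.out]; simp
  have hx := hcov x hxt h.covx
  have hy := hcov y hyt h.covy
  have hc1 : (((G.pO B d).erase x).erase y).card = 1 := by
    rw [card_erase_of_mem (mem_erase.2 ⟨h.ne.symm, hy⟩), card_erase_of_mem hx, c.three]
  obtain ⟨o, ho⟩ := card_eq_one.1 hc1
  have ho' : o ∈ ((G.pO B d).erase x).erase y := by rw [ho]; exact mem_singleton_self _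
  rw [mem_erase, mem_erase] at ho'
  have hO : G.pO B d = {x, y, o} := by
    symm
    refine eq_of_subset_of_card_le ?_ ?_
    · intro u hu
      rw [mem_insert, mem_insert, mem_singleton] at hu
      rcases hu with rfl | rfl | rfl
      exacts [hx, hy, ho'.2.2]
    · rw [c.three, card_insert_of_notMem, card_pair ho'.1.symm]
      rw [mem_insert, mem_singleton]
      exact fun e => e.elim h.ne ho'.2.1.symm
  obtain ⟨hol, hpT⟩ := c.gam_cov h hT hO ho'.2.1 ho'.1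
  have hoR := (mem_nR76.1 (c.OR ho'.2.2)).2
  have hot : o ≠ t := by
    rintro rfl
    exact (mem_Co76.1 (mem_pO.1 ho'.2.2).2).2 (L1B h.toL1).2
  have hNF : 2 ≤ (G.NF Fa d).card := by
    rw [← card_pair hot]
    refine card_le_card ?_
    intro u hu
    rw [mem_insert, mem_singleton] at hu
    rcases hu with rfl | rfl
    · exact mem_NF_low hol hoR (mem_pO.1 ho'.2.2).1
    · exact mem_NF_low h.low h.lR htd
  have hs5 : G.s5 B d = 0 := by
    refine s5_LLs' fun v hv => ?_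
    have hvt := S0_uniq hv htT
    subst hvt
    refine ⟨?_, hpT⟩
    obtain ⟨q, q', e1, e2, e3⟩ := hv.2.2.2.2.1
    have e4 : t ≠ q' := by
      rintro rfl
      exact tw_not_low11 ⟨q, (stTwHL_5 G).symm _ _ e1⟩ h.low
    have e5 := G.sym _ _ (Tw_nb5 e1 (G.sym _ _ e3) e4)
    have hsub : G.pX B d ⊆ G.pX B t := by
      intro u hu
      have hu2 := (mem_pX.1 hu).2
      rw [e2, mem_insert, mem_singleton] at hu
      refine mem_pX.2 ⟨?_, hu2⟩
      rcases hu with rfl | rfl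
      exacts [e3, e5]
    have hXd : (G.pX B d).card = 2 := by rw [e2]; exact card_pair (tw_ne e1)
    have hsix := six_low h.low B
    have hO2 : (G.pO B t).card = 2 := by rw [h.out]; exact card_pair h.ne
    have hT2 : 2 ≤ (G.pT B t).card := by
      by_contra hcon
      apply hpT
      symm
      refine eq_of_subset_of_card_le (singleton_subset_iff.2 h.dT) ?_
      rw [card_singleton]
      omega
    have hXe : G.pX B d = G.pX B t := by
      refine eq_of_subset_of_card_le hsub ?_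
      rw [hXd]
      rw [pX]
      rw [pO] at hO2
      rw [pT] at hT2
      omega
    refine ⟨?_, hXe.symm⟩
    refine ll_four86 c.hL.low h.low htd (le_antisymm (ll_le86 h9 c.hL.low h.low htd) ?_)
    have hdis : Disjoint (G.pX B d) (G.pO B t) := by
      rw [disjoint_left]
      intro u hu hu2
      exact (mem_Co76.1 (mem_pO.1 hu2).2).1 (mem_pX.1 hu).2
    have e6 : (G.pX B d ∪ G.pO B t).card = 4 := by
      rw [card_union_of_disjoint hdis, hXd, hO2]
    rw [← e6]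
    refine card_le_card ?_
    intro u hu
    rw [mem_union] at hu
    rcases hu with hu | hu
    · exact mem_inter.2 ⟨(mem_pX.1 hu).1, (mem_pX.1 (hsub hu)).1⟩
    · refine mem_inter.2 ⟨?_, (mem_pO.1 hu).1⟩
      rw [h.out, mem_insert, mem_singleton] at hu
      rcases hu with rfl | rfl
      exacts [(mem_pO.1 hx).1, (mem_pO.1 hy).1]
  have h1 := ff_low h9 c.fr c.hL.low h.low htT
  have h2 := s5_nonneg (G := G) (G.Co B) d
  have h3 := c.ch
  have h4 : (2 : ℤ) ≤ ((G.NF Fa d).card : ℤ) := by exact_mod_cast hNF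
  have h5 : (0 : ℤ) ≤ ((G.NP Fa d).card : ℤ) := by positivity
  rw [hs5] at h1
  linarith

/-- `S0-` with one visible neighbour in `T(d)` -/
theorem s0_one (c : D3 G Fa B d) (hT : ∀ x ∈ G.pT B d, ¬ G.IsTw x) {t q p y : V}
    (h : G.S0s Fa B t d q p y) (htT : t ∈ G.pT B d) (hd1 : 1 ≤ G.ch5 Fa d) :
    -G.ch5 Fa t ≤ G.ch5 Fa d := by
  classical
  have h9 := c.h9
  have hdT : d ∈ G.pT B t := by
    rw [h.s0.2.2.2.1]
    exact mem_singleton_self _
  have e1 := S0_card h.s0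
  have e2 := six_low h.low B
  have e3 : (G.nb t ∩ G.Co B).card = 3 := by
    rw [pX, pT] at e1
    omega
  have e4 : G.d t (G.Co B) = 3 := e3
  have h1 := (stCh5_28 G).low1 h9 Fa c.reg t h.lR h.low B h.I1
  have e5 : G.fg5 Fa t = ff G B t := by rw [fg_eq, h.I1, sum_singleton]
  rw [e4, e5] at h1
  have e6 : 1 ≤ (G.NF Fa t).card :=
    card_pos.2 ⟨d, mem_NF_low c.hL.low c.hL.lR (mem_pT.1 hdT).1⟩
  have e7 := ff_low h9 c.fr h.low c.hL.low hdT
  have e8 := s5_nonneg (G := G) (G.Co B) t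
  have e9 := s5_le (G := G) B t
  have h2 : - G.s5 B t ≤ G.ch5 Fa t := by omega
  by_cases h3 : G.s5 B t ≤ 1
  · linarith
  by_contra h4
  have h5 : G.ch5 Fa d = 1 := by omega
  have h6 := c.ch
  rw [(c.ask_nt hT).1, card_empty, h5] at h6
  have h7 : G.s5 (G.Co B) d = 0 := s5_zero fun v hv => by
    have e10 := (S0_card hv).1
    have e11 : (G.pX (G.Co B) d).card = 3 := c.three
    omega
  have h8 : ∃ k : ℤ, ff G B d = 2 * k - G.s5 B d := by
    refine ⟨(if G.U3 (G.Co B) d then (1 : ℤ) else 0) - (if G.T3 (G.Co B) d then (1 : ℤ) else 0) -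
      (if G.HF (G.Co B) d then (1 : ℤ) else 0) - (if G.U3 B d then (1 : ℤ) else 0) +
      (if G.T3 B d then (1 : ℤ) else 0) + (if G.HF B d then (1 : ℤ) else 0), ?_⟩
    rw [ff, flv_low c.hL.low, flv_low c.hL.low, h7]
    ring
  obtain ⟨k, hk⟩ := h8
  have h10 := s5_nonneg (G := G) B d
  have h11 := s5_le (G := G) B d
  have h12 : G.s5 B d = 1 := by omega
  have h13 : ∃ v, G.S0 B d v := by
    by_contra hcon
    have := s5_zero (G := G) (S := B) (z := d) fun v hv => hcon ⟨v, hv⟩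
    omega
  obtain ⟨v, hv⟩ := h13
  have hvt := S0_uniq hv htT
  subst hvt
  have h14 : G.LLs B d t := by
    by_contra hcon
    have := s5_two hv hcon
    omega
  have h15 : G.s5 B t ≤ 1 := by
    refine s5_LLs fun v hv' => ?_
    have hvd := S0_uniq hv' hdT
    subst hvd
    obtain ⟨⟨a, b, e10⟩, e11⟩ := h14
    exact ⟨⟨b, a, LL_symm76 e10⟩, e11.symm⟩
  exact h3 h15

/-- one visible neighbour in `T(d)` -/
theorem case_one (c : D3 G Fa B d) (hT : ∀ x ∈ G.pT B d, ¬ G.IsTw x)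
    (h6 : ∀ z, G.DL Fa z d → Cl G Fa B d z) {t : V} (hc : G.pT B d = {t}) :
    G.ask Fa d ≤ max 0 (2 * G.ch5 Fa d) := by
  classical
  have hone : ∀ z, G.DL Fa z d → z = t := by
    intro z hz
    have h1 := (h6 z hz).tT
    rw [hc, mem_singleton] at h1
    exact h1
  refine c.ask_one hT hone (le_max_left _ _) fun ht => ?_
  have k := h6 t ht
  have h2 := c.cl_ge ht
  rcases k.typ with ⟨x, y, h⟩ | ⟨q, p, h, h'⟩ | ⟨q, p, y, h, h'⟩
  · have := c.gam_one h hc
    exact le_max_of_le_right (by linarith)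
  · exact le_max_of_le_right (by linarith)
  · have := c.s0_one hT h k.tT h'
    exact le_max_of_le_right (by linarith)

end D3

end C6d89

open C6d89 K28 C6c88 in
/-- C6d -/
theorem stC6d_89 (G : CG V) (hT6 : G.StT6) : G.StC6d := by
  classical
  intro Fa hG B d hL h3
  have c : D3 G Fa B d := ⟨hG, hL, h3⟩
  by_cases htw : ∃ q ∈ G.pT B d, G.IsTw q
  · obtain ⟨q, hq, ht⟩ := htw
    exact (c.case_tw hq ht).trans (le_max_right _ _)
  have hT : ∀ x ∈ G.pT B d, ¬ G.IsTw x := fun x hx ht => htw ⟨x, hx, ht⟩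
  by_cases h6 : ∃ z q p x y w, G.T6s Fa z d q p x y w ∧ G.NoQ Fa z q ∧
      (∀ g, ¬ G.Good Fa z d g) ∧ 2 ≤ G.ch5 Fa d
  · obtain ⟨z, q, p, x, y, w, h1, h2, h4, h5⟩ := h6
    refine c.ask_one hT (fun z' hz' => c.t6_only hT6 hT h1 h2 h4 hz') (le_max_left _ _)
      fun ht => ?_
    have := c.cl_ge ht
    exact le_max_of_le_right (by linarith)
  have hcl : ∀ z, G.DL Fa z d → D3.Cl G Fa B d z := fun z hz =>
    c.cl_of hT (fun z' q p x y w h1 h2 h4 h5 => h6 ⟨z', q, p, x, y, w, h1, h2, h4, h5⟩) hz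
  have h7 := c.six
  have h8 := c.x1
  have h9 : (G.pT B d).card = 0 ∨ (G.pT B d).card = 1 ∨ (G.pT B d).card = 2 := by omega
  rcases h9 with h9 | h9 | h9
  · refine c.ask_one hT (t := d) (fun z hz => ?_) (le_max_left _ _) fun hz => ?_
    · have h10 := (hcl z hz).tT
      rw [card_eq_zero.1 h9] at h10
      exact absurd h10 (notMem_empty _)
    · have h10 := (hcl d hz).tT
      rw [card_eq_zero.1 h9] at h10
      exact absurd h10 (notMem_empty _)
  · obtain ⟨t, ht⟩ := card_eq_one.1 h9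
    exact c.case_one hT hcl ht
  · exact c.case_two hT hcl h9

end CG

end Pool.Agent.Lib.MP_e95c01_co.N
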