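import Pool.Agent.Lib.MP_e95c01_co.X.C6c_88
import Pool.Agent.Lib.MP_e95c01_co.X.AuxT76

/-!
# `λ = 3`, thick torsos: C6e, low vertices with two outer neighbours (helper11)
-/

namespace Pool.Agent.Lib.MP_e95c01_co.N

open Finset

variable {V : Type} [Fintype V] [DecidableEq V]

namespace CG

namespace C6e11

variable {G : CG V} {Fa : Finset (Finset V)} {B : Finset V} {d : V}

open K28 C6c88

omit [Fintype V] in
theorem len_le {S : Finset V} (l : List V) (h1 : l.Nodup) (h2 : ∀ u ∈ l, u ∈ S) :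
    l.length ≤ S.card := by
  rw [← List.toFinset_card_of_nodup h1]
  exact card_le_card fun u hu => h2 u (List.mem_toFinset.1 hu)

theorem L1.F (hL : G.L1 Fa B d) : B ∈ Fa :=
  (mem_I76.1 (hL.I1.symm ▸ mem_singleton_self B : B ∈ G.I Fa d)).1

theorem L1.N (hL : G.L1 Fa B d) : d ∈ G.N B :=
  (mem_I76.1 (hL.I1.symm ▸ mem_singleton_self B : B ∈ G.I Fa d)).2

theorem L1.memI (hL : G.L1 Fa B d) {D : Finset V} (h : D ∈ Fa) (h' : d ∈ G.N D) : D = B := by
  have h1 : D ∈ G.I Fa d := mem_I76.2 ⟨h, h'⟩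
  rw [hL.I1, mem_singleton] at h1
  exact h1

theorem side {u : V} (hB : B ∈ Fa) (hu : u ∈ R Fa) : u ∈ G.N B ∨ u ∈ G.Co B := by
  by_cases h : u ∈ G.N B
  · exact Or.inl h
  · exact Or.inr (mem_Co76.2 ⟨mem_R76.1 hu B hB, h⟩)

theorem L0_Co {z : V} (hB : B ∈ Fa) (hz : G.L0 Fa z) : z ∈ G.Co B := by
  rcases side (G := G) hB hz.lR with h | h
  · exfalso
    have h1 : B ∈ G.I Fa z := mem_I76.2 ⟨hB, h⟩
    rw [hz.I0] at h1
    exact notMem_empty _ h1
  · exact h

/-- a pair of twins adjacent to `d`, not both in `pO B d` -/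
theorem pair_T (hG : G.Gen6 Fa) (hL : G.L1 Fa B d) (hr : G.d d (G.Co B) = 2) {q p o : V}
    (ht : G.Tw q p) (hqR : q ∈ R Fa) (hq : q ∈ G.nb d) (hp : p ∈ G.nb d)
    (ho : o ∈ G.pO B d) (hol : G.Low o) : q ∈ G.pT B d ∧ p ∈ G.pT B d := by
  have hreg := hG.g5.reg
  obtain ⟨hpR, hI⟩ := (stTwHL_5 G).twI Fa hreg q hqR p ht
  have hB := L1.F hL
  have hqo : q ≠ o := fun e => tw_not_low11 ⟨p, ht⟩ (by rw [e]; exact hol)
  have hpo : p ≠ o := fun e => tw_not_low11 (tw_of76' ht) (by rw [e]; exact hol)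
  have h1 : q ∈ G.N B ↔ p ∈ G.N B := by
    constructor
    · intro h
      have h2 : B ∈ G.I Fa q := mem_I76.2 ⟨hB, h⟩
      rw [← hI] at h2
      exact (mem_I76.1 h2).2
    · intro h
      have h2 : B ∈ G.I Fa p := mem_I76.2 ⟨hB, h⟩
      rw [hI] at h2
      exact (mem_I76.1 h2).2
  rcases side (G := G) hB hqR with h2 | h2
  · exact ⟨mem_inter.2 ⟨hq, h2⟩, mem_inter.2 ⟨hp, h1.1 h2⟩⟩
  · exfalso
    rcases side (G := G) hB hpR with h3 | h3
    · exact (mem_Co76.1 h2).2 (h1.2 h3)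
    · have h4 := len_le (S := G.nb d ∩ G.Co B) [q, p, o] (by
        simp [hqo, hpo, ne_of_nb5 ht.1]) (by
        intro u hu
        simp only [List.mem_cons, List.not_mem_nil, or_false] at hu
        rcases hu with rfl | rfl | rfl
        · exact mem_inter.2 ⟨hq, h2⟩
        · exact mem_inter.2 ⟨hp, h3⟩
        · exact ho)
      rw [CG.d] at hr
      simp only [List.length_cons, List.length_nil] at h4
      omega

/-- a claimant of type `T6` -/
theorem t6_info (hG : G.Gen6 Fa) (hT : G.StT6) (hL : G.L1 Fa B d) (hr : G.d d (G.Co B) = 2)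
    {z q p x y w : V} (h : G.T6s Fa z d q p x y w) :
    z ∈ G.pO B d ∧ q ∈ G.pT B d ∧ p ∈ G.pT B d := by
  have hdz : d ∈ G.nb z := by rw [h.nb]; simp
  have hqz : q ∈ G.nb z := by rw [h.nb]; simp
  have hz : z ∈ G.pO B d := mem_inter.2 ⟨G.sym _ _ hdz, L0_Co (L1.F hL) h.toL0⟩
  have h1 := hT.adj Fa hG z d q p x y w h
  have h2 := hT.adj Fa hG z d p q x y w (h.swap hG.g5.reg)
  exact ⟨hz, pair_T hG hL hr h.t (nb_R76 h.lR h.I0 hqz) h1 h2 hz h.low⟩

/-- `T3`: the low neighbour is adjacent to the pairs -/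
theorem t3_adj (hG : G.Gen6 Fa) {z q p q' p' x : V} (h : G.T3s Fa z d q p q' p' x)
    (hn : q' ∉ G.nb q) : q ∈ G.nb d := by
  have h9 := hG.g5.n9
  have hreg := hG.g5.reg
  have hqz : q ∈ G.nb z := by rw [h.nb]; simp
  have hqR := nb_R76 h.lR h.I0 hqz
  have hql : ¬ G.Low q := tw_not_low11 ⟨p, h.t⟩
  have htw : ∀ u, u = q ∨ u = p ∨ u = q' ∨ u = p' → G.IsTw u := by
    rintro u (rfl | rfl | rfl | rfl)
    · exact ⟨_, h.t⟩
    · exact tw_of76' h.t
    · exact ⟨_, h.t'⟩
    · exact tw_of76' h.t'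
  rcases cov_lh86 hG.g5 h.lR (mem_nR76.2 ⟨hqz, hqR⟩) (m_empty5 h.I0) hql with
    h1 | ⟨a, b, h1, h2, h3, -⟩ | ⟨a, b, h1, h2, h3, h4⟩
  · rcases h1 with ⟨w, h1, h2, h3⟩ | ⟨v, w, h1, h2, h3, h4, h5⟩
    · have h4 := (mem_nR76.1 h1).1
      rw [h.nb] at h4
      simp only [mem_insert, mem_singleton] at h4
      have h5 : w = d := by
        by_contra hc
        rcases h4 with h4 | h4 | h4 | h4 | h4 | h4
        · exact hc h4
        · exact tw_not_low11 (htw w (Or.inl h4)) h3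
        · exact tw_not_low11 (htw w (Or.inr (Or.inl h4))) h3
        · exact tw_not_low11 (htw w (Or.inr (Or.inr (Or.inl h4)))) h3
        · exact tw_not_low11 (htw w (Or.inr (Or.inr (Or.inr h4)))) h3
        · rw [h4] at h3
          exact h.hx.1.1 h3
      rw [h5] at h2
      exact G.sym _ _ (mem_nR76.1 h2).1
    · exfalso
      have h6 := (mem_nR76.1 h1).1
      rw [h.nb] at h6
      simp only [mem_insert, mem_singleton] at h6
      have h7 := (mem_nR76.1 h3).1
      have h8 := (mem_nR76.1 h4).1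
      rcases h6 with h6 | h6 | h6 | h6 | h6 | h6
      · rw [h6] at h5
        exact tw_not_low11 ⟨_, h5⟩ h.low'
      · rw [h6] at h7
        exact G.irr _ h7
      · rw [h6] at h5
        have h9' := (stTwHL_5 G).uniq h9 _ _ _ h5 (tw_symm76 h.t)
        rw [h9'] at h8
        exact G.irr _ h8
      · rw [h6] at h7
        exact hn h7
      · rw [h6] at h5
        have h9' := (stTwHL_5 G).uniq h9 _ _ _ h5 (tw_symm76 h.t')
        rw [h9'] at h8
        exact hn h8
      · rw [h6] at h5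
        exact h.hx.1.2 ⟨_, h5⟩
  · exfalso
    have h4 := (mem_nR76.1 h1).1
    rw [h.nb] at h4
    simp only [mem_insert, mem_singleton] at h4
    have h5 := (stTwHL_5 G).notHL h9 _ _ _ h3
    rcases h4 with h4 | h4 | h4 | h4 | h4 | h4
    · rw [h4] at h3
      exact HL_not_low76 h3 h.low'
    · exact h5 (htw a (Or.inl h4))
    · exact h5 (htw a (Or.inr (Or.inl h4)))
    · exact h5 (htw a (Or.inr (Or.inr (Or.inl h4))))
    · exact h5 (htw a (Or.inr (Or.inr (Or.inr h4))))
    · rw [h4] at h3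
      exact h.hx.2.2 ⟨b, h3⟩
  · exact absurd ⟨p, h.t⟩ ((stTwHL_5 G).twLL _ _ _ _ h4).2

/-- no claimant of type `T3` -/
theorem no_t3 (hG : G.Gen6 Fa) (hL : G.L1 Fa B d) (hr : G.d d (G.Co B) = 2)
    {z q p q' p' x : V} (h : G.T3s Fa z d q p q' p' x) (hn : q' ∉ G.nb q) : False := by
  have hreg := hG.g5.reg
  have hn' : q ∉ G.nb q' := fun h1 => hn (G.sym _ _ h1)
  have hz : z ∈ G.pO B d := by
    have hdz : d ∈ G.nb z := by rw [h.nb]; simp
    exact mem_inter.2 ⟨G.sym _ _ hdz, L0_Co (L1.F hL) h.toL0⟩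
  have hqz : q ∈ G.nb z := by rw [h.nb]; simp
  have hqz' : q' ∈ G.nb z := by rw [h.nb]; simp
  have a1 := t3_adj hG h hn
  have a3 := t3_adj hG h.comm hn'
  have hdp : d ≠ p := fun e => tw_not_low11 (tw_of76' h.t) (by rw [← e]; exact h.low')
  have hdp' : d ≠ p' := fun e => tw_not_low11 (tw_of76' h.t') (by rw [← e]; exact h.low')
  have a2 : p ∈ G.nb d := G.sym _ _ (Tw_nb5 h.t (G.sym _ _ a1) hdp)
  have a4 : p' ∈ G.nb d := G.sym _ _ (Tw_nb5 h.t' (G.sym _ _ a3) hdp')
  obtain ⟨b1, b2⟩ := pair_T hG hL hr h.t (nb_R76 h.lR h.I0 hqz) a1 a2 hz h.low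
  obtain ⟨b3, b4⟩ := pair_T hG hL hr h.t' (nb_R76 h.lR h.I0 hqz') a3 a4 hz h.low
  have h6 : ({d, q, p, q', p', x} : Finset V).card = 6 := by
    rw [← h.nb]
    exact h.low
  have c1 : q ≠ p := ne_of_nb5 h.t.1
  have c2 : q' ≠ p' := ne_of_nb5 h.t'.1
  have key : ∀ s : Finset V, ({d, q, p, q', p', x} : Finset V) ⊆ s → s.card ≤ 5 → False := by
    intro s e1 e2
    have := card_le_card e1
    omega
  have h5 : ∀ a b c e f : V, ({a, b, c, e, f} : Finset V).card ≤ 5 := by
    intro a b c e f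
    exact card_le_five
  have c3 : q ≠ q' := by
    intro e
    exact key {d, p, q', p', x} (by rw [e]; intro u hu; simp at hu ⊢; tauto) (h5 _ _ _ _ _)
  have c4 : q ≠ p' := by
    intro e
    exact key {d, p, q', p', x} (by rw [e]; intro u hu; simp at hu ⊢; tauto) (h5 _ _ _ _ _)
  have c5 : p ≠ q' := by
    intro e
    exact key {d, q, q', p', x} (by rw [e]; intro u hu; simp at hu ⊢; tauto) (h5 _ _ _ _ _)
  have c6 : p ≠ p' := by
    intro e
    exact key {d, q, q', p', x} (by rw [e]; intro u hu; simp at hu ⊢; tauto) (h5 _ _ _ _ _)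
  have h7 := len_le (S := G.nb d ∩ G.N B) [q, p, q', p'] (by simp [c1, c2, c3, c4, c5, c6]) (by
    intro u hu
    simp only [List.mem_cons, List.not_mem_nil, or_false] at hu
    rcases hu with rfl | rfl | rfl | rfl
    · exact b1
    · exact b2
    · exact b3
    · exact b4)
  have h8 := six_low hL.low B
  have h9 := hid1 (mem_I76.2 ⟨L1.F hL, L1.N hL⟩ : B ∈ G.I Fa d)
  rw [CG.d] at hr
  simp only [List.length_cons, List.length_nil] at h7
  omega

/-- two elements of a set with two elements -/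
theorem O_eq (hr : G.d d (G.Co B) = 2) {q p : V} (h : q ∈ G.pO B d) (h' : p ∈ G.pO B d)
    (hne : q ≠ p) : G.pO B d = {q, p} := by
  symm
  apply eq_of_subset_of_card_le
  · intro u hu
    rw [mem_insert, mem_singleton] at hu
    rcases hu with rfl | rfl
    · exact h
    · exact h'
  · rw [card_pair hne]
    exact le_of_eq hr

/-- no claimant of type `EPS` -/
theorem no_eps (hG : G.Gen6 Fa) (hL : G.L1 Fa B d) (hr : G.d d (G.Co B) = 2)
    {D : Finset V} {z q p : V} (h : G.Eps Fa D z d q p) : False := by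
  have hD : D = B := L1.memI hL (L1.F h.toL1) (mem_inter.1 h.dT).2
  subst hD
  have hdp : d ≠ p := fun e => tw_not_low11 (tw_of76' h.t) (by rw [← e]; exact h.dl)
  have a2 : p ∈ G.nb d := G.sym _ _ (Tw_nb5 h.t (G.sym _ _ h.dq) hdp)
  have hq : q ∈ G.pO D z := by rw [h.out]; simp
  have hp : p ∈ G.pO D z := by rw [h.out]; simp
  have e1 := O_eq hr (mem_inter.2 ⟨h.dq, (mem_inter.1 hq).2⟩)
    (mem_inter.2 ⟨a2, (mem_inter.1 hp).2⟩) (ne_of_nb5 h.t.1)
  have h1 := e2_86 hG.g5 (ne_of_nb5 (mem_inter.1 h.dT).1) h.lR hL.lR h.I1 hL.I1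
  rw [union_inter_distrib_right] at h1
  have h2 : G.nb z ∩ G.Co D = {q, p} := h.out
  have h3 : G.nb d ∩ G.Co D = {q, p} := e1
  rw [h2, h3, union_self, card_pair (ne_of_nb5 h.t.1)] at h1
  omega

/-- no claimant in two or more neighbourhoods -/
theorem no_k2 (hG : G.Gen6 Fa) (hL : G.L1 Fa B d) {D : Finset V} {z : V}
    (h1 : 2 ≤ (G.I Fa z).card) (h2 : D ∈ G.I Fa z) (h3 : G.S0 D z d) (h4 : G.ch5 Fa z < 0) :
    False := by
  have h9 := hG.g5.n9
  have hreg := hG.g5.reg
  obtain ⟨e1, e2, e3⟩ := S0_T h3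
  have hD : D = B := L1.memI hL (mem_I76.1 h2).1 e2
  subst hD
  have hzR : z ∈ R Fa := N_R hreg (mem_I76.1 h2).1 (mem_I76.1 h2).2
  have hk : (G.I Fa z).card = 2 := by
    by_contra hk
    have := low_three h9 hreg hzR e3 (by omega)
    linarith
  obtain ⟨D', hD'⟩ : ∃ D', G.I Fa z = {D, D'} ∧ D ≠ D' := by
    obtain ⟨D1, D2, hne, hI⟩ := card_eq_two.1 hk
    rw [hI, mem_insert, mem_singleton] at h2
    rcases h2 with rfl | rfl
    · exact ⟨D2, hI, hne⟩
    · exact ⟨D1, by rw [hI, pair_comm], hne.symm⟩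
  have c : Tw2 G Fa z D D' := ⟨h9, hreg, hG.g5.big, hzR, e3, hD'.2, hD'.1⟩
  rcases c.main h4 with ⟨v, h5, h6⟩ | ⟨v, h5, h6⟩
  · obtain ⟨f1, f2, -⟩ := S0_T h5
    have h7 : v = d := S0_uniq h3 (mem_inter.2 ⟨f1, f2⟩)
    rw [h7] at h6
    exact hD'.2 (L1.memI hL c.F2 h6).symm
  · obtain ⟨f1, f2, -⟩ := S0_T h5
    have h7 : v = d := S0_uniq h3 (mem_inter.2 ⟨f1, h6⟩)
    rw [h7] at f2
    exact hD'.2 (L1.memI hL c.F2 f2).symm

/-- no claimant of type `S0` -/
theorem no_s0 (hG : G.Gen6 Fa) (hL : G.L1 Fa B d) (hr : G.d d (G.Co B) = 2)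
    {D : Finset V} {z q p y : V} (h : G.S0s Fa D z d q p y) (hz : G.ch5 Fa z < 0)
    (hd : 1 ≤ G.ch5 Fa d) : False := by
  classical
  have h9 := hG.g5.n9
  have hreg := hG.g5.reg
  have hS := h.s0
  obtain ⟨e1, e2, e3⟩ := S0_T hS
  have hD : D = B := L1.memI hL (L1.F h.toL1) e2
  subst hD
  have hfr := hreg.frag D (L1.F hL)
  have hdp : d ≠ p := fun e => tw_not_low11 (tw_of76' h.t) (by rw [← e]; exact hL.low)
  have a2 : p ∈ G.nb d := G.sym _ _ (Tw_nb5 h.t (G.sym _ _ h.vq) hdp)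
  have hq : q ∈ G.pO D z := by rw [h.out]; simp
  have hp : p ∈ G.pO D z := by rw [h.out]; simp
  have hy : y ∈ G.pO D z := by rw [h.out]; simp
  have hqp := ne_of_nb5 h.t.1
  have hO := O_eq hr (mem_inter.2 ⟨h.vq, (mem_inter.1 hq).2⟩)
    (mem_inter.2 ⟨a2, (mem_inter.1 hp).2⟩) hqp
  obtain ⟨-, -, -, hTz, ⟨a, a', ht, hX, had⟩, -⟩ := hS
  have hza' : d ≠ a' := fun e => tw_not_low11 (tw_of76' ht) (by rw [← e]; exact hL.low)
  have had' : a' ∈ G.nb d := G.sym _ _ (Tw_nb5 ht (G.sym _ _ had) hza')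
  have ha : a ∈ G.pX D z := by rw [hX]; simp
  have ha' : a' ∈ G.pX D z := by rw [hX]; simp
  have haa := ne_of_nb5 ht.1
  have hzT : z ∈ G.pT D d := mem_inter.2 ⟨G.sym _ _ e1, L1.N h.toL1⟩
  have h6 := six_low hL.low D
  have h6z := six_low h.low D
  rw [CG.d] at hr
  have hX2 := len_le (S := G.nb d ∩ D) [a, a'] (by simp [haa]) (by
    intro u hu
    simp only [List.mem_cons, List.not_mem_nil, or_false] at hu
    rcases hu with rfl | rfl
    · exact mem_inter.2 ⟨had, (mem_inter.1 ha).2⟩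
    · exact mem_inter.2 ⟨had', (mem_inter.1 ha').2⟩)
  simp only [List.length_cons, List.length_nil] at hX2
  have hT1 : 1 ≤ (G.nb d ∩ G.N D).card := card_pos.2 ⟨z, hzT⟩
  have hOz : (G.nb z ∩ G.Co D).card = 3 := by
    have k1 : (G.nb z ∩ D).card = 2 := by
      have : G.nb z ∩ D = {a, a'} := hX
      rw [this, card_pair haa]
    have k2 : (G.nb z ∩ G.N D).card = 1 := by
      have : G.nb z ∩ G.N D = {d} := hTz
      rw [this, card_singleton]
    omega
  have hyq : y ≠ q := by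
    intro e
    have : G.nb z ∩ G.Co D = {q, p} := by
      have e4 := h.out
      rw [pO] at e4
      rw [e4, e]
      ext u
      simp only [mem_insert, mem_singleton]
      tauto
    rw [this, card_pair hqp] at hOz
    omega
  have hyp : y ≠ p := by
    intro e
    have : G.nb z ∩ G.Co D = {q, p} := by
      have e4 := h.out
      rw [pO] at e4
      rw [e4, e]
      ext u
      simp only [mem_insert, mem_singleton]
      tauto
    rw [this, card_pair hqp] at hOz
    omega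
  have hyd : y ∉ G.nb d := by
    intro e
    have : y ∈ G.pO D d := mem_inter.2 ⟨e, (mem_inter.1 hy).2⟩
    rw [hO, mem_insert, mem_singleton] at this
    exact this.elim hyq hyp
  have hffz := ff_low h9 hfr h.low hL.low (mem_inter.2 ⟨e1, e2⟩ : d ∈ G.pT D z)
  by_cases hc : (G.nb d ∩ G.N D).card = 1
  · -- `T d = {z}`
    have hTd : G.pT D d = {z} := by
      obtain ⟨u, hu⟩ := card_eq_one.1 hc
      have h7 : z ∈ G.nb d ∩ G.N D := hzT
      rw [hu, mem_singleton] at h7
      rw [pT, hu, h7]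
    have hX3 : (G.nb d ∩ D).card = 3 := by omega
    have hNF : G.NF Fa d ⊆ {z} := by
      intro u hu
      rw [NF, mem_filter] at hu
      obtain ⟨u1, u2⟩ := mem_nR76.1 hu.1
      rcases side (G := G) (L1.F hL) u2 with u3 | u3
      · have : u ∈ G.pT D d := mem_inter.2 ⟨u1, u3⟩
        rwa [hTd] at this
      · exfalso
        have : u ∈ G.pO D d := mem_inter.2 ⟨u1, u3⟩
        rw [hO, mem_insert, mem_singleton] at this
        have hqR : q ∈ R Fa := (mem_nR76.1 (nR_Co5 h.lR h.I1 hq)).2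
        rcases this with rfl | rfl
        · rcases hu.2 with k | k | k
          · exact tw_not_low11 ⟨_, h.t⟩ k
          · have := h.kq
            omega
          · exact tw_not_HL76 h9 ⟨_, h.t⟩ d k
        · rcases hu.2 with k | k | k
          · exact tw_not_low11 (tw_of76' h.t) k
          · have k1 := ((stTwHL_5 G).twI Fa hreg q hqR u h.t).2
            have := h.kq
            rw [k1] at k
            omega
          · exact tw_not_HL76 h9 (tw_of76' h.t) d k
    have hNP : G.NP Fa d = ∅ := by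
      rw [NP, filter_eq_empty_iff]
      rintro u hu ⟨k1, -, k2⟩
      obtain ⟨u1, u2⟩ := mem_nR76.1 hu
      rcases side (G := G) (L1.F hL) u2 with u3 | u3
      · have : u ∈ G.pT D d := mem_inter.2 ⟨u1, u3⟩
        rw [hTd, mem_singleton] at this
        rw [this] at k1
        exact tw_not_low11 k1 h.low
      · apply k2
        rw [m_comm76]
        exact m_Co5 hL.I1 u3
    have hff : ff G D d ≤ 2 := by
      have k1 : ¬ G.U3 (G.Co D) d := by
        intro k
        have := (U3_card k).1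
        rw [pX] at this
        omega
      have k2 : ¬ G.T3 D d := by
        intro k
        have := (T3_card k).1
        rw [pX] at this
        omega
      have k3 : ¬ G.HF D d := by
        intro k
        have := (HF_card k).1
        rw [pX] at this
        omega
      have k4 := s5_le (G := G) (G.Co D) d
      have k5 := s5_nonneg (G := G) D d
      rw [ff, flv_low hL.low, flv_low hL.low, if_neg k1, if_neg k2, if_neg k3]
      have n2 : (0 : ℤ) ≤ (if G.U3 D d then (1 : ℤ) else 0) := by split_ifs <;> norm_num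
      have n3 : (0 : ℤ) ≤ (if G.T3 (G.Co D) d then (1 : ℤ) else 0) := by split_ifs <;> norm_num
      have n4 : (0 : ℤ) ≤ (if G.HF (G.Co D) d then (1 : ℤ) else 0) := by split_ifs <;> norm_num
      linarith
    have h1 := (G.stCh5_28).low1 h9 Fa hreg d hL.lR hL.low D hL.I1
    have h2 := card_le_card hNF
    rw [card_singleton] at h2
    have h3 : ((G.NF Fa d).card : ℤ) ≤ 1 := by exact_mod_cast h2
    rw [hNP, card_empty, fg_eq, hL.I1, sum_singleton, CG.d, hr] at h1
    push_cast at h1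
    linarith
  · -- `T d = {z, u}`
    have hT2 : (G.nb d ∩ G.N D).card = 2 := by omega
    have hX2' : (G.nb d ∩ D).card = 2 := by omega
    obtain ⟨u, hu⟩ : ∃ u, u ≠ z ∧ G.nb d ∩ G.N D = {z, u} := by
      obtain ⟨u1, u2, hne, hI⟩ := card_eq_two.1 hT2
      have h7 : z ∈ G.nb d ∩ G.N D := hzT
      rw [hI, mem_insert, mem_singleton] at h7
      rcases h7 with rfl | rfl
      · exact ⟨u2, hne.symm, hI⟩
      · exact ⟨u1, hne, by rw [hI, pair_comm]⟩
    have hXd : G.nb d ∩ D = {a, a'} := by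
      symm
      apply eq_of_subset_of_card_le
      · intro w hw
        rw [mem_insert, mem_singleton] at hw
        rcases hw with rfl | rfl
        · exact mem_inter.2 ⟨had, (mem_inter.1 ha).2⟩
        · exact mem_inter.2 ⟨had', (mem_inter.1 ha').2⟩
      · rw [card_pair haa, hX2']
    have huN : u ∈ G.nb d ∩ G.N D := by rw [hu.2]; simp
    have hnd : G.nb d = {a, a', z, u, q, p} := by
      ext w
      have h7 := fun (hw : w ∈ G.nb d) => (show w ∈ D ∨ w ∈ G.N D ∨ w ∈ G.Co D by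
        by_cases k1 : w ∈ D
        · exact Or.inl k1
        by_cases k2 : w ∈ G.N D
        · exact Or.inr (Or.inl k2)
        · exact Or.inr (Or.inr (mem_Co76.2 ⟨k1, k2⟩)))
      have h8 : G.nb d ∩ G.Co D = {q, p} := hO
      simp only [mem_insert, mem_singleton]
      constructor
      · intro hw
        rcases h7 hw with k | k | k
        · have : w ∈ G.nb d ∩ D := mem_inter.2 ⟨hw, k⟩
          rw [hXd, mem_insert, mem_singleton] at this
          tauto
        · have : w ∈ G.nb d ∩ G.N D := mem_inter.2 ⟨hw, k⟩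
          rw [hu.2, mem_insert, mem_singleton] at this
          tauto
        · have : w ∈ G.nb d ∩ G.Co D := mem_inter.2 ⟨hw, k⟩
          rw [h8, mem_insert, mem_singleton] at this
          tauto
      · rintro (rfl | rfl | rfl | rfl | rfl | rfl)
        · exact had
        · exact had'
        · exact (mem_inter.1 hzT).1
        · exact (mem_inter.1 huN).1
        · exact h.vq
        · exact a2
    have hnz : G.nb z = {a, a', d, q, p, y} := by
      ext w
      have h7 := fun (hw : w ∈ G.nb z) => (show w ∈ D ∨ w ∈ G.N D ∨ w ∈ G.Co D by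
        by_cases k1 : w ∈ D
        · exact Or.inl k1
        by_cases k2 : w ∈ G.N D
        · exact Or.inr (Or.inl k2)
        · exact Or.inr (Or.inr (mem_Co76.2 ⟨k1, k2⟩)))
      simp only [mem_insert, mem_singleton]
      constructor
      · intro hw
        rcases h7 hw with k | k | k
        · have : w ∈ G.pX D z := mem_inter.2 ⟨hw, k⟩
          rw [hX, mem_insert, mem_singleton] at this
          tauto
        · have : w ∈ G.pT D z := mem_inter.2 ⟨hw, k⟩
          rw [hTz, mem_singleton] at this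
          tauto
        · have : w ∈ G.pO D z := mem_inter.2 ⟨hw, k⟩
          rw [h.out, mem_insert, mem_insert, mem_singleton] at this
          tauto
      · rintro (rfl | rfl | rfl | rfl | rfl | rfl)
        · exact (mem_inter.1 ha).1
        · exact (mem_inter.1 ha').1
        · exact e1
        · exact (mem_inter.1 hq).1
        · exact (mem_inter.1 hp).1
        · exact (mem_inter.1 hy).1
    have hLL : G.LL z d y u := by
      refine ⟨h.low, hL.low, e1, ?_, ?_, ?_, ?_⟩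
      · intro e
        rw [← e] at huN
        exact hyd (mem_inter.1 huN).1
      · rw [cl, mem_insert, not_or]
        refine ⟨?_, hyd⟩
        intro e
        rw [e] at hy
        exact (mem_Co76.1 (mem_inter.1 hy).2).2 e2
      · rw [cl, mem_insert, not_or]
        refine ⟨hu.1, ?_⟩
        intro e
        have : u ∈ G.pT D z := mem_inter.2 ⟨e, (mem_inter.1 huN).2⟩
        rw [hTz, mem_singleton] at this
        rw [this] at huN
        exact G.irr d (mem_inter.1 huN).1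
      · rw [cl, cl, hnd, hnz]
        ext w
        simp only [mem_insert, mem_singleton]
        tauto
    have hs : G.s5 D z = 0 := by
      refine s5_LLs' fun v hv => ?_
      have hvd : v = d := (S0_uniq h.s0 (mem_inter.2 ⟨(S0_T hv).1, (S0_T hv).2.1⟩))
      subst hvd
      refine ⟨⟨⟨y, u, hLL⟩, ?_⟩, ?_⟩
      · rw [hX, pX, hXd]
      · intro e
        have k1 : G.nb v ∩ G.N D = {z} := e
        rw [k1, card_singleton] at hT2
        omega
    have h1 := (G.stCh5_28).low1 h9 Fa hreg z h.lR h.low D h.I1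
    have h2 : 0 < (G.NF Fa z).card := card_pos.2 ⟨d, mem_NF_low hL.low hL.lR e1⟩
    have h3 : (1 : ℤ) ≤ ((G.NF Fa z).card : ℤ) := by exact_mod_cast h2
    have h4 : (0 : ℤ) ≤ ((G.NP Fa z).card : ℤ) := by positivity
    have h5 := s5_nonneg (G := G) (G.Co D) z
    rw [fg_eq, h.I1, sum_singleton, CG.d, hOz] at h1
    push_cast at h1
    linarith

/-! ### GAMMA -/

theorem Gam_symm {D : Finset V} {z x y : V} (h : G.Gam Fa D z d x y) : G.Gam Fa D z d y x :=
  { toL1 := h.toL1
    out := by rw [h.out, pair_comm]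
    ne := h.ne.symm
    hx := h.hy
    hy := h.hx
    dT := h.dT
    dl := h.dl
    nf := h.nf
    np := h.np
    covx := h.covy
    covy := h.covx }

/-- the vertex `b` with `LL d b z x` -/
theorem gam_b (hL : G.L1 Fa B d) {z x y b : V}
    (h : G.Gam Fa B z d x y) (hb : b ∈ R Fa) (hLL : G.LL d b z x) :
    G.I Fa b = {B} ∧ G.Low b ∧ b ∈ G.pT B d ∧ b ≠ z ∧ b ≠ d ∧
      (∀ u ∈ G.pO B b, u = x ∨ u ∈ G.pO B d) ∧ (∀ u ∈ G.pO B d, u ∈ G.pO B b) ∧
      x ∈ G.pO B b := by
  have hx : x ∈ G.pO B z := by rw [h.out]; simp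
  have hxR : x ∈ R Fa := (mem_nR76.1 (nR_Co5 h.lR h.I1 hx)).2
  have hI : G.I Fa b = {B} := by rw [← LL_I76 hLL hL.lR hb h.lR hxR, hL.I1]
  have hbN : b ∈ G.N B := (mem_I76.1 (hI.symm ▸ mem_singleton_self B : B ∈ G.I Fa b)).2
  have hdb := LL_ab76 hLL
  refine ⟨hI, hLL.2.1, mem_inter.2 ⟨hdb, hbN⟩, (LL_tb76 hLL).2.symm, (ne_of_nb5 hdb).symm,
    ?_, ?_, ?_⟩
  · intro u hu
    by_cases hux : u = x
    · exact Or.inl hux
    · right
      rcases LL_from76 hLL (mem_inter.1 hu).1 hux with k | k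
      · exfalso
        rw [k] at hu
        exact (mem_Co76.1 (mem_inter.1 hu).2).2 (L1.N hL)
      · exact mem_inter.2 ⟨k, (mem_inter.1 hu).2⟩
  · intro u hu
    have huz : u ≠ z := by
      intro e
      rw [e] at hu
      exact (mem_Co76.1 (mem_inter.1 hu).2).2 (L1.N h.toL1)
    rcases LL_to76 hLL (mem_inter.1 hu).1 huz with k | k
    · exfalso
      rw [k] at hu
      exact (mem_Co76.1 (mem_inter.1 hu).2).2 hbN
    · exact mem_inter.2 ⟨k, (mem_inter.1 hu).2⟩
  · exact mem_inter.2 ⟨LL_u76 hLL, (mem_inter.1 hx).2⟩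

theorem gam_half (hG : G.Gen6 Fa) (hL : G.L1 Fa B d) (hr : G.d d (G.Co B) = 2) {z x y : V}
    (h : G.Gam Fa B z d x y) (hx : x ∉ G.nb d) : y ∉ G.nb d := by
  intro hy
  have hxO : x ∈ G.pO B z := by rw [h.out]; simp
  have hyO : y ∈ G.pO B z := by rw [h.out]; simp
  have hyd : y ∈ G.pO B d := mem_inter.2 ⟨hy, (mem_inter.1 hyO).2⟩
  obtain ⟨b, hb, hLL⟩ := h.covx.resolve_left hx
  obtain ⟨b1, b2, b3, b4, b5, b6, b7, b8⟩ := gam_b hL h hb hLL
  have h1 := e3_86 hG.g5 (ne_of_nb5 (mem_inter.1 h.dT).1) b4.symm b5.symm h.lR hL.lR hb h.I1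
    hL.I1 b1
  have h2 : (G.nb z ∪ G.nb d ∪ G.nb b) ∩ G.Co B ⊆ insert x (G.nb d ∩ G.Co B) := by
    intro u hu
    rw [mem_inter, mem_union, mem_union] at hu
    rw [mem_insert]
    rcases hu.1 with (k | k) | k
    · have : u ∈ G.pO B z := mem_inter.2 ⟨k, hu.2⟩
      rw [h.out, mem_insert, mem_singleton] at this
      rcases this with k1 | k1
      · exact Or.inl k1
      · rw [k1]
        exact Or.inr hyd
    · exact Or.inr (mem_inter.2 ⟨k, hu.2⟩)
    · exact b6 u (mem_inter.2 ⟨k, hu.2⟩)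
  have h3 := card_le_card h2
  have h4 := card_insert_le x (G.nb d ∩ G.Co B)
  rw [CG.d] at hr
  omega

theorem gam_out (hG : G.Gen6 Fa) (hL : G.L1 Fa B d) (hr : G.d d (G.Co B) = 2) {z x y : V}
    (h : G.Gam Fa B z d x y) : x ∉ G.nb d ∧ y ∉ G.nb d := by
  by_cases hx : x ∈ G.nb d
  · by_cases hy : y ∈ G.nb d
    · exfalso
      have hxO : x ∈ G.pO B z := by rw [h.out]; simp
      have hyO : y ∈ G.pO B z := by rw [h.out]; simp
      have e1 := O_eq hr (mem_inter.2 ⟨hx, (mem_inter.1 hxO).2⟩)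
        (mem_inter.2 ⟨hy, (mem_inter.1 hyO).2⟩) h.ne
      have h1 := e2_86 hG.g5 (ne_of_nb5 (mem_inter.1 h.dT).1) h.lR hL.lR h.I1 hL.I1
      rw [union_inter_distrib_right] at h1
      have h2 : G.nb z ∩ G.Co B = {x, y} := h.out
      have h3 : G.nb d ∩ G.Co B = {x, y} := e1
      rw [h2, h3, union_self, card_pair h.ne] at h1
      omega
    · exact absurd hx (gam_half hG hL hr (Gam_symm h) hy)
  · exact ⟨hx, gam_half hG hL hr h hx⟩

/-- the structure of `GAMMA` -/
theorem gam_info (hG : G.Gen6 Fa) (hL : G.L1 Fa B d) (hr : G.d d (G.Co B) = 2) {z x y : V}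
    (h : G.Gam Fa B z d x y) : ∃ b b', G.pT B d = {z, b, b'} ∧ b ≠ b' ∧ b ≠ z ∧ b' ≠ z ∧
      G.Low b ∧ G.Low b' ∧ 3 ≤ (G.pO B b).card ∧ 3 ≤ (G.pO B b').card ∧ (G.nb d ∩ B).card = 1 := by
  obtain ⟨hx, hy⟩ := gam_out hG hL hr h
  obtain ⟨b, hb, hLL⟩ := h.covx.resolve_left hx
  obtain ⟨b', hb', hLL'⟩ := h.covy.resolve_left hy
  obtain ⟨b1, b2, b3, b4, b5, b6, b7, b8⟩ := gam_b hL h hb hLL
  obtain ⟨c1, c2, c3, c4, c5, c6, c7, c8⟩ := gam_b hL (Gam_symm h) hb' hLL'
  have hbb : b ≠ b' := by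
    rintro rfl
    rcases c6 x b8 with k | k
    · exact h.ne k
    · exact hx (mem_inter.1 k).1
  have hzT : z ∈ G.pT B d := mem_inter.2 ⟨G.sym _ _ (mem_inter.1 h.dT).1, L1.N h.toL1⟩
  have h3 := len_le (S := G.nb d ∩ G.N B) [z, b, b'] (by simp [hbb, b4.symm, c4.symm]) (by
    intro u hu
    simp only [List.mem_cons, List.not_mem_nil, or_false] at hu
    rcases hu with rfl | rfl | rfl
    · exact hzT
    · exact b3
    · exact c3)
  simp only [List.length_cons, List.length_nil] at h3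
  have h6 := six_low hL.low B
  have h1 := hid1 (mem_I76.2 ⟨L1.F hL, L1.N hL⟩ : B ∈ G.I Fa d)
  have hr' : (G.nb d ∩ G.Co B).card = 2 := hr
  have key : ∀ (c v : V), (∀ u ∈ G.pO B d, u ∈ G.pO B c) → v ∈ G.pO B c → v ∉ G.nb d →
      3 ≤ (G.pO B c).card := by
    intro c v k1 k2 k3
    have k4 : v ∉ G.pO B d := fun k => k3 (mem_inter.1 k).1
    have k5 : insert v (G.pO B d) ⊆ G.pO B c := by
      intro u hu
      rw [mem_insert] at hu
      rcases hu with rfl | hu
      · exact k2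
      · exact k1 u hu
    have k6 := card_le_card k5
    rw [card_insert_of_notMem k4] at k6
    have k7 : (G.pO B d).card = 2 := hr
    omega
  refine ⟨b, b', ?_, hbb, b4, c4, b2, c2, key b x b7 b8 hx, key b' y c7 c8 hy, by omega⟩
  symm
  apply eq_of_subset_of_card_le
  · intro u hu
    simp only [mem_insert, mem_singleton] at hu
    rcases hu with rfl | rfl | rfl
    · exact hzT
    · exact b3
    · exact c3
  · rw [card_insert_of_notMem (by simp [b4.symm, c4.symm]), card_pair hbb]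
    rw [pT]
    omega

/-- the charge if there is a claimant of type `GAMMA` -/
theorem gam_ch (hG : G.Gen6 Fa) (hL : G.L1 Fa B d) (hr : G.d d (G.Co B) = 2) {z x y : V}
    (h : G.Gam Fa B z d x y) : 2 ≤ G.ch5 Fa d := by
  classical
  have h9 := hG.g5.n9
  have hreg := hG.g5.reg
  obtain ⟨b, b', hT, hbb, hbz, hbz', hb, hb', -⟩ := gam_info hG hL hr h
  have hTc : (G.pT B d).card = 3 := by
    rw [hT, card_insert_of_notMem (by simp [hbz.symm, hbz'.symm]), card_pair hbb]
  have hfr := hreg.frag B (L1.F hL)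
  have hlow : ∀ u ∈ G.pT B d, G.Low u := by
    intro u hu
    rw [hT] at hu
    simp only [mem_insert, mem_singleton] at hu
    rcases hu with rfl | rfl | rfl
    · exact h.low
    · exact hb
    · exact hb'
  have h1 := (G.stCh5_28).low1 h9 Fa hreg d hL.lR hL.low B hL.I1
  have h2 : G.pT B d ⊆ G.NF Fa d := by
    intro u hu
    exact mem_NF_low (hlow u hu) (N_R hreg (L1.F hL) (mem_inter.1 hu).2) (mem_inter.1 hu).1
  have h3 := card_le_card h2
  rw [hTc] at h3
  have h4 : (3 : ℤ) ≤ ((G.NF Fa d).card : ℤ) := by exact_mod_cast h3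
  have h5 : (0 : ℤ) ≤ ((G.NP Fa d).card : ℤ) := by positivity
  have hff : 0 ≤ ff G B d := by
    rcases ff_cases hfr hL.low with k | ⟨-, k | k | k | k⟩
    · exact k
    · obtain ⟨v, hv, -⟩ := k
      have := (S0_card hv).2
      omega
    · have := (U3_card k).2
      omega
    · have := (T3_card k).2.1
      rw [pT_Co hfr] at this
      omega
    · have := (HF_card k).2
      rw [pT_Co hfr] at this
      omega
  rw [fg_eq, hL.I1, sum_singleton, hr] at h1
  push_cast at h1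
  linarith

/-! ### all claimants -/

/-- the types of the claimants -/
theorem claim_cases (hG : G.Gen6 Fa) (hL : G.L1 Fa B d) (hr : G.d d (G.Co B) = 2)
    (hn : ¬ (∃ l a, ((∃ x y, G.The Fa B l a d x y) ∨ ∃ q p, G.Eta Fa B l a d q p) ∧
      G.DL Fa l d)) {z : V} (h : G.DL Fa z d) : (∃ x y, G.Gam Fa B z d x y) ∨
    (∃ q p x y w, G.T6s Fa z d q p x y w ∧ G.NoQ Fa z q ∧ 2 ≤ G.ch5 Fa d) := by
  have hreg := hG.g5.reg
  cases h with
  | gam h1 h2 h3 =>
    rename_i D x y
    have hD : D = B := L1.memI hL (L1.F h1.toL1) (mem_inter.1 h1.dT).2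
    subst hD
    exact Or.inl ⟨x, y, h1⟩
  | the h1 h2 h3 h4 =>
    rename_i D a x y
    exfalso
    apply hn
    have ha : a ∈ R Fa := N_R hreg (L1.F h1.toL1) (mem_inter.1 h1.aT).2
    have h5 := HL_I76 h1.hl ha hL.lR h1.lR
    have h6 : D ∈ G.I Fa a := mem_I76.2 ⟨L1.F h1.toL1, (mem_inter.1 h1.aT).2⟩
    rw [h5, hL.I1, mem_singleton] at h6
    subst h6
    exact ⟨z, a, Or.inl ⟨x, y, h1⟩, DL.the h1 h2 h3 h4⟩
  | eps h1 h2 h3 => exact (no_eps hG hL hr h1).elim
  | eta h1 h2 h3 =>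
    rename_i D a q p
    exfalso
    apply hn
    have ha : a ∈ R Fa := N_R hreg (L1.F h1.toL1) (mem_inter.1 h1.aT).2
    have h5 := HL_I76 h1.hl ha hL.lR h1.lR
    have h6 : D ∈ G.I Fa a := mem_I76.2 ⟨L1.F h1.toL1, (mem_inter.1 h1.aT).2⟩
    rw [h5, hL.I1, mem_singleton] at h6
    subst h6
    exact ⟨z, a, Or.inr ⟨q, p, h1⟩, DL.eta h1 h2 h3⟩
  | s0 h1 h2 h3 => exact (no_s0 hG hL hr h1 h2 h3).elim
  | t3 h1 h2 h3 => exact (no_t3 hG hL hr h1 h2).elim
  | t6 h1 h2 h3 h4 => exact Or.inr ⟨_, _, _, _, _, h1, h2, h4⟩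
  | k2 h1 h2 h3 h4 => exact (no_k2 hG hL h1 h2 h3 h4).elim

/-- two claimants of type `T6` -/
theorem t6_t6 (hG : G.Gen6 Fa) (hT : G.StT6) (hL : G.L1 Fa B d) (hr : G.d d (G.Co B) = 2)
    {z q p x y w z' q' p' x' y' w' : V} (h : G.T6s Fa z d q p x y w)
    (h' : G.T6s Fa z' d q' p' x' y' w') (hN : G.NoQ Fa z q) (hne : z ≠ z') : False := by
  classical
  have h9 := hG.g5.n9
  have hreg := hG.g5.reg
  obtain ⟨a1, a2, a3⟩ := t6_info hG hT hL hr h
  obtain ⟨c1, c2, c3⟩ := t6_info hG hT hL hr h'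
  have hO := O_eq hr a1 c1 hne
  have hr' : (G.nb d ∩ G.Co B).card = 2 := hr
  have h6 := six_low hL.low B
  have h1 := hid1 (mem_I76.2 ⟨L1.F hL, L1.N hL⟩ : B ∈ G.I Fa d)
  have hqp := ne_of_nb5 h.t.1
  have hqp' := ne_of_nb5 h'.t.1
  -- the pairs are equal
  have hqq : q = q' ∨ q = p' := by
    by_contra hc
    rw [not_or] at hc
    have e1 : p ≠ q' := by
      intro e
      have k1 := h.t
      rw [e] at k1
      have := (stTwHL_5 G).uniq h9 q' q p' (tw_symm76 k1) h'.t
      exact hc.2 this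
    have e2 : p ≠ p' := by
      intro e
      have k1 := h.t
      rw [e] at k1
      have := (stTwHL_5 G).uniq h9 p' q q' (tw_symm76 k1) (tw_symm76 h'.t)
      exact hc.1 this
    have h3 := len_le (S := G.nb d ∩ G.N B) [q, p, q', p'] (by
      simp [hqp, hqp', hc.1, hc.2, e1, e2]) (by
      intro u hu
      simp only [List.mem_cons, List.not_mem_nil, or_false] at hu
      rcases hu with rfl | rfl | rfl | rfl
      · exact a2
      · exact a3
      · exact c2
      · exact c3)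
    simp only [List.length_cons, List.length_nil] at h3
    omega
  have hz'q : z' ∈ G.nb q := by
    rcases hqq with e | e
    · rw [e]
      exact G.sym _ _ (by rw [h'.nb]; simp)
    · rw [e]
      exact G.sym _ _ (by rw [h'.nb]; simp)
  have hzq : z ∈ G.nb q := G.sym _ _ (by rw [h.nb]; simp)
  have hdq : d ∈ G.nb q := G.sym _ _ (mem_inter.1 a2).1
  have hqR : q ∈ R Fa := N_R hreg (L1.F hL) (mem_inter.1 a2).2
  have hqI : G.I Fa q = {B} := by
    have k1 : B ∈ G.I Fa q := mem_I76.2 ⟨L1.F hL, (mem_inter.1 a2).2⟩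
    obtain ⟨C, hC⟩ := card_eq_one.1 (le_antisymm h.kq (card_pos.2 ⟨B, k1⟩))
    rw [hC, mem_singleton] at k1
    rw [hC, k1]
  have hch : G.ch5 Fa q ≤ 0 := by
    rcases hN.2 with k | k
    · rw [hqI] at k
      exact absurd k (singleton_ne_empty _)
    · exact k
  have htw : G.IsTw q := ⟨p, h.t⟩
  have t1 := (G.stCh5_28).tw1 h9 Fa hreg q hqR htw B hqI
  have t2 := (ff_tw (G := G) (B := B) htw).1
  rw [fg_eq, hqI, sum_singleton] at t1
  have t3 := e1q_86 hG.g5 h.t hqR hqI
  -- lows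
  have n1 := len_le (S := G.NO Fa q) [z, z'] (by simp [hne]) (by
    intro u hu
    simp only [List.mem_cons, List.not_mem_nil, or_false] at hu
    rw [NO, mem_filter]
    rcases hu with rfl | rfl
    · exact ⟨mem_nR76.2 ⟨hzq, h.lR⟩, h.low, m_empty5 h.I0⟩
    · exact ⟨mem_nR76.2 ⟨hz'q, h'.lR⟩, h'.low, m_empty5 h'.I0⟩)
  have n2 : 1 ≤ (G.NT Fa q).card := by
    apply card_pos.2
    refine ⟨d, ?_⟩
    rw [NT, mem_filter]
    refine ⟨mem_nR76.2 ⟨hdq, hL.lR⟩, hL.low, ?_, Or.inl (by rw [hL.I1, card_singleton])⟩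
    rw [m, hL.I1, hqI, inter_self, card_singleton]
    norm_num
  have n3 : (G.NH Fa q).card + 4 ≤ G.d q (G.Co B) + G.d q (G.N B) := by
    have k1 : G.NH Fa q ⊆ ((G.nb q ∩ G.Co B) ∪ (G.nb q ∩ G.N B)) \ {z, z', p, d} := by
      intro u hu
      rw [NH, mem_filter] at hu
      obtain ⟨u1, u2⟩ := mem_nR76.1 hu.1
      rw [mem_sdiff, mem_union]
      constructor
      · rcases side (G := G) (L1.F hL) u2 with u3 | u3
        · exact Or.inr (mem_inter.2 ⟨u1, u3⟩)
        · exact Or.inl (mem_inter.2 ⟨u1, u3⟩)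
      · intro k
        simp only [mem_insert, mem_singleton] at k
        rcases k with rfl | rfl | rfl | rfl
        · exact hu.2.1.1 h.low
        · exact hu.2.1.1 h'.low
        · exact hu.2.1.2 (tw_of76' h.t)
        · exact hu.2.1.1 hL.low
    have hpN : p ∈ G.nb q ∩ G.N B := mem_inter.2 ⟨h.t.1, (mem_inter.1 a3).2⟩
    have hdN : d ∈ G.nb q ∩ G.N B := mem_inter.2 ⟨hdq, L1.N hL⟩
    have hzN : z ∈ G.nb q ∩ G.Co B := mem_inter.2 ⟨hzq, (mem_inter.1 a1).2⟩
    have hz'N : z' ∈ G.nb q ∩ G.Co B := mem_inter.2 ⟨hz'q, (mem_inter.1 c1).2⟩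
    have k2 : ({z, z', p, d} : Finset V) ⊆ (G.nb q ∩ G.Co B) ∪ (G.nb q ∩ G.N B) := by
      intro u hu
      simp only [mem_insert, mem_singleton] at hu
      rw [mem_union]
      rcases hu with rfl | rfl | rfl | rfl
      · exact Or.inl hzN
      · exact Or.inl hz'N
      · exact Or.inr hpN
      · exact Or.inr hdN
    have k3 := card_le_card k1
    rw [card_sdiff_of_subset k2] at k3
    have k4 : ({z, z', p, d} : Finset V).card = 4 := by
      have z1 : z ≠ p := fun e => tw_not_low11 (tw_of76' h.t) (by rw [← e]; exact h.low)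
      have z2 : z' ≠ p := fun e => tw_not_low11 (tw_of76' h.t) (by rw [← e]; exact h'.low)
      have z3 : p ≠ d := fun e => tw_not_low11 (tw_of76' h.t) (by rw [e]; exact hL.low)
      have z4 : z ≠ d := fun e => (mem_Co76.1 (mem_inter.1 hzN).2).2 (by rw [e]; exact L1.N hL)
      have z5 : z' ≠ d := fun e => (mem_Co76.1 (mem_inter.1 hz'N).2).2 (by rw [e]; exact L1.N hL)
      rw [card_insert_of_notMem (by simp [hne, z1, z4]), card_insert_of_notMem (by simp [z2, z5]),
        card_pair z3]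
    have k5 := card_le_card k2
    have k6 := card_union_le (G.nb q ∩ G.Co B) (G.nb q ∩ G.N B)
    rw [CG.d, CG.d]
    omega
  simp only [List.length_cons, List.length_nil] at n1
  have m1 : (2 : ℤ) ≤ ((G.NO Fa q).card : ℤ) := by exact_mod_cast n1
  have m2 : (1 : ℤ) ≤ ((G.NT Fa q).card : ℤ) := by exact_mod_cast n2
  have m3 : ((G.NH Fa q).card : ℤ) + 4 ≤ (G.d q (G.Co B) : ℤ) + (G.d q (G.N B) : ℤ) := by
    exact_mod_cast n3
  have m4 : (3 : ℤ) ≤ (G.d q (G.Co B) : ℤ) := by exact_mod_cast t3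
  linarith

/-- there is at most one claimant -/
theorem uniq (hG : G.Gen6 Fa) (hT : G.StT6) (hL : G.L1 Fa B d) (hr : G.d d (G.Co B) = 2)
    (hn : ¬ (∃ l a, ((∃ x y, G.The Fa B l a d x y) ∨ ∃ q p, G.Eta Fa B l a d q p) ∧
      G.DL Fa l d)) {z z' : V} (h : G.DL Fa z d) (h' : G.DL Fa z' d) : z = z' := by
  by_contra hne
  -- GAMMA and another claimant
  have key : ∀ {z z' x y : V}, z ≠ z' → G.Gam Fa B z d x y → G.DL Fa z' d → False := by
    intro z z' x y hne h h'
    obtain ⟨b, b', e1, e2, e3, e4, e5, e6, e7, e8, e9⟩ := gam_info hG hL hr h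
    rcases claim_cases hG hL hr hn h' with ⟨x', y', k⟩ | ⟨q, p, x', y', w', k, -⟩
    · have k1 : z' ∈ G.pT B d :=
        mem_inter.2 ⟨G.sym _ _ (mem_inter.1 k.dT).1, L1.N k.toL1⟩
      have k2 : (G.pO B z').card = 2 := by rw [k.out, card_pair k.ne]
      rw [e1] at k1
      simp only [mem_insert, mem_singleton] at k1
      rcases k1 with k1 | k1 | k1
      · exact hne k1.symm
      · rw [k1] at k2
        omega
      · rw [k1] at k2
        omega
    · obtain ⟨-, k1, -⟩ := t6_info hG hT hL hr k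
      rw [e1] at k1
      simp only [mem_insert, mem_singleton] at k1
      have k2 := tw_not_low11 (⟨p, k.t⟩ : G.IsTw q)
      rcases k1 with k1 | k1 | k1
      · rw [k1] at k2
        exact k2 h.low
      · rw [k1] at k2
        exact k2 e5
      · rw [k1] at k2
        exact k2 e6
  rcases claim_cases hG hL hr hn h with ⟨x, y, k⟩ | ⟨q, p, x, y, w, k, k1, -⟩
  · exact key hne k h'
  · rcases claim_cases hG hL hr hn h' with ⟨x', y', k'⟩ | ⟨q', p', x', y', w', k', -⟩
    · exact key (Ne.symm hne) k' h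
    · exact t6_t6 hG hT hL hr k k' k1 hne

/-- the charge if there is a claimant -/
theorem ch_pos (hG : G.Gen6 Fa) (hL : G.L1 Fa B d) (hr : G.d d (G.Co B) = 2)
    (hn : ¬ (∃ l a, ((∃ x y, G.The Fa B l a d x y) ∨ ∃ q p, G.Eta Fa B l a d q p) ∧
      G.DL Fa l d)) {z : V} (h : G.DL Fa z d) : 2 ≤ G.ch5 Fa d := by
  rcases claim_cases hG hL hr hn h with ⟨x, y, k⟩ | ⟨q, p, x, y, w, -, -, k⟩
  · exact gam_ch hG hL hr k
  · exact k

/-- no pair of type `ALPHA` -/
theorem no_al (hG : G.Gen6 Fa) (hM : G.StM2) (hL : G.L1 Fa B d) (hr : G.d d (G.Co B) = 2)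
    {z : V} : ¬ G.AL Fa z d := by
  rintro ⟨D, p, e, f, h, k⟩
  have hr' : (G.nb d ∩ G.Co B).card = 2 := hr
  have hF : D ∈ Fa := (mem_I76.1 (k.I1.symm ▸ mem_singleton_self D : D ∈ G.I Fa z)).1
  have hdT : d ∈ G.pT D z := by rw [k.nT]; simp
  have hD : D = B := L1.memI hL hF (mem_inter.1 hdT).2
  subst hD
  rcases (hM.alp Fa hG D z p d e f h k).2 with ⟨-, u, k1, k2, k3⟩ | ⟨-, k1⟩
  · simp only [mem_insert, mem_singleton, not_or] at k3
    have he : e ∈ G.pO D z := by rw [k.out]; simp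
    have hf : f ∈ G.pO D z := by rw [k.out]; simp
    have h1 : ∀ v, v = e ∨ v = f ∨ v = u → v ∈ G.nb d := by
      rintro v (rfl | rfl | rfl)
      · exact (mem_nR76.1 (show v ∈ G.nR Fa d by rw [k1]; simp)).1
      · exact (mem_nR76.1 (show v ∈ G.nR Fa d by rw [k1]; simp)).1
      · exact (mem_nR76.1 (show v ∈ G.nR Fa d by rw [k1]; simp)).1
    have h2 := len_le (S := G.nb d ∩ G.Co D) [e, f, u] (by
      simp [ne_of_nb5 k.t'.1, Ne.symm k3.1, Ne.symm k3.2.1]) (by
      intro v hv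
      simp only [List.mem_cons, List.not_mem_nil, or_false] at hv
      refine mem_inter.2 ⟨h1 v hv, ?_⟩
      rcases hv with rfl | rfl | rfl
      · exact (mem_inter.1 he).2
      · exact (mem_inter.1 hf).2
      · exact k2)
    simp only [List.length_cons, List.length_nil] at h2
    omega
  · rw [hL.I1, card_singleton] at k1
    omega

end C6e11

open K28 C6c88 C6e11 in
/-- C6e -/
theorem stC6e_11 (G : CG V) (hM : G.StM2) (hT : G.StT6) (hb : G.StC6b) : G.StC6e := by
  classical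
  intro Fa hG B d hL hr
  by_cases hn : (∃ l a, ((∃ x y, G.The Fa B l a d x y) ∨ ∃ q p, G.Eta Fa B l a d q p) ∧
      G.DL Fa l d)
  · exact le_max_of_le_right (hb Fa hG B d hL hn)
  have h1 := ask_le hG hL hn
  have h2 : ((G.NP Fa d).filter fun z => G.AL Fa z d) = ∅ := by
    rw [filter_eq_empty_iff]
    intro z _
    exact no_al hG hM hL hr
  have h3 : ((G.nR Fa d).filter fun z => G.Low z ∧ G.DL Fa z d).card ≤ 1 := by
    rw [card_le_one]
    intro z hz z' hz'
    rw [mem_filter] at hz hz'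
    exact uniq hG hT hL hr hn hz.2.2 hz'.2.2
  rw [h2, card_empty] at h1
  have h4 : (((G.nR Fa d).filter fun z => G.Low z ∧ G.DL Fa z d).card : ℤ) ≤ 1 := by
    exact_mod_cast h3
  rcases ((G.nR Fa d).filter fun z => G.Low z ∧ G.DL Fa z d).eq_empty_or_nonempty with k | ⟨z, k⟩
  · rw [k, card_empty] at h1
    refine le_max_of_le_left ?_
    push_cast at h1
    linarith
  · rw [mem_filter] at k
    have h5 := ch_pos hG hL hr hn k.2.2
    refine le_max_of_le_right ?_
    push_cast at h1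
    linarith

end CG

end Pool.Agent.Lib.MP_e95c01_co.N
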