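import Pool.Agent.Lib.MP_e95c01_co.X.C6fc_28

/-!
# `λ = 3`, thick torsos, row C6f: adjacent claimants only, the result
-/

namespace Pool.Agent.Lib.MP_e95c01_co.N

open Finset

variable {V : Type} [Fintype V] [DecidableEq V]

namespace CG

open K28

namespace C6f

variable {G : CG V} {Fa : Finset (Finset V)}

theorem mem_pT {d x : V} {D : Finset V} (hx : x ∈ G.nR Fa d) (hD : D ∈ G.I Fa x) :
    x ∈ G.pT D d := mem_inter.2 ⟨(mem_nR76.1 hx).1, (mem_I76.1 hD).2⟩

theorem adj_w {d l : V} (h : AdjC G Fa d l) : 2 ≤ G.w5 Fa l d := by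
  rw [w5_low h.low]
  have h5 : (G.m Fa l d : ℤ) ≤ 1 := by exact_mod_cast (m_le_left _ _).trans h.k
  linarith

theorem cl_sub {d : V} (h : ∀ l ∈ Cl G Fa d, AdjC G Fa d l) : Cl G Fa d ⊆ G.nR Fa d :=
  fun l hl => (h l hl).vis

theorem cl_w {d : V} (h : ∀ l ∈ Cl G Fa d, AdjC G Fa d l) :
    2 * ((Cl G Fa d).card : ℤ) ≤ ∑ l ∈ Cl G Fa d, G.w5 Fa l d := by
  have h1 : ∀ l ∈ Cl G Fa d, (2 : ℤ) ≤ G.w5 Fa l d := fun l hl => adj_w (h l hl)
  have h2 := sum_le_sum h1
  rw [sum_const, nsmul_eq_mul] at h2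
  linarith

theorem one_of {d l : V} (h2 : 2 ≤ G.ch5 Fa d) (h : ∀ l' ∈ Cl G Fa d, l' = l) :
    2 * ((Cl G Fa d).card : ℤ) ≤ G.ch5 Fa d := by
  have h3 : ((Cl G Fa d).card : ℤ) ≤ 1 := by exact_mod_cast cl_one h
  linarith

/-- a claimant of type EPS or `T6` -/
theorem neg_E {d l q p : V} {D D' : Finset V} (c : Tw2 G Fa d D D') (hneg : ff G D d < 0)
    (h : ∀ l ∈ Cl G Fa d, AdjC G Fa d l) (hl : AdjC G Fa d l) (ht : G.Tw q p)
    (hq : q ∈ G.nR Fa d) (hp : p ∈ G.nR Fa d) (h2 : 2 ≤ G.ch5 Fa d) :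
    2 * ((Cl G Fa d).card : ℤ) ≤ G.ch5 Fa d := by
  refine one_of (l := l) h2 fun l2 hl2 => ?_
  by_contra hne
  have h3 := h l2 hl2
  have ht' := tw_of76' ht
  have htot := total c
  have i1 := hid1 c.mem1
  have i2 := hid1 c.mem2
  have n1 := low_ne_tw hl.low ⟨p, ht⟩
  have n2 := low_ne_tw hl.low ht'
  have n3 := low_ne_tw h3.low ⟨p, ht⟩
  have n4 := low_ne_tw h3.low ht'
  have h4 := four_le5 hl.vis h3.vis hq hp (Ne.symm hne) n1 n2 n3 n4 (tw_ne ht)
  have hall := four_eq (by omega) hl.vis h3.vis hq hp (Ne.symm hne) n1 n2 n3 n4 (tw_ne ht)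
  have h5 : 0 ≤ ff G D d := by
    refine ff_one c.h9 c.fr1 c.low (by omega) fun a ha => ?_
    have h6 : a ∈ G.nR Fa d := c.T_vis (by rw [ha]; exact mem_singleton_self _)
    rcases hall a h6 with rfl | rfl | rfl | rfl
    · exact Or.inl hl.low
    · exact Or.inl h3.low
    · exact Or.inr ⟨p, ht⟩
    · exact Or.inr ht'
  linarith

/-- a claimant of type `S0` -/
theorem case_S {d l q p : V} {B B' : Finset V} (hG : G.Gen6 Fa) (c : Tw2 G Fa d B B')
    (h : ∀ l ∈ Cl G Fa d, AdjC G Fa d l) (hl : AdjC G Fa d l) (ht : G.Tw q p)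
    (hq : q ∈ G.nR Fa d) (hp : p ∈ G.nR Fa d) (hk : (G.I Fa q).card ≤ 1)
    (h2 : 2 ≤ (G.nb d ∩ B).card) : 2 * ((Cl G Fa d).card : ℤ) ≤ G.ch5 Fa d := by
  have ht' := tw_of76' ht
  have htot := total c
  have i2 := hid1 c.mem2
  have n1 := low_ne_tw hl.low ⟨p, ht⟩
  have n2 := low_ne_tw hl.low ht'
  have h4 := three_le hl.vis hq hp n1 n2 (tw_ne ht)
  have hall := three_eq (by omega) hl.vis hq hp n1 n2 (tw_ne ht)
  have hkp : (G.I Fa p).card ≤ 1 := by
    rw [((stTwHL_5 G).twI Fa hG.g5.reg q (mem_nR76.1 hq).2 p ht).2]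
    exact hk
  have f1 := ff_ge c.fr1 c.low
  have f2 : 0 ≤ ff G B' d := by
    refine ff_one c.h9 c.fr2 c.low (by omega) fun a ha => ?_
    have h6 : a ∈ G.nR Fa d := c.symm.T_vis (by rw [ha]; exact mem_singleton_self _)
    rcases hall a h6 with rfl | rfl | rfl
    · exact Or.inl hl.low
    · exact Or.inr ⟨p, ht⟩
    · exact Or.inr ht'
  have w1 := adj_w hl
  have w2 : 1 ≤ G.w5 Fa q d := w5_tw ⟨p, ht⟩ ((m_le_left _ _).trans hk)
  have w3 : 1 ≤ G.w5 Fa p d := w5_tw ht' ((m_le_left _ _).trans hkp)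
  have hsub : ({l, q, p} : Finset V) ⊆ G.nR Fa d := by
    intro x hx
    simp only [mem_insert, mem_singleton] at hx
    rcases hx with rfl | rfl | rfl
    · exact hl.vis
    · exact hq
    · exact hp
  have h5 := c.sum_ge hsub
  rw [sum_insert (by simp [n1, n2]), sum_pair (tw_ne ht)] at h5
  have hch := c.ch
  refine one_of (l := l) (by linarith) fun l' hl' => ?_
  have h6 := h l' hl'
  rcases hall l' h6.vis with h7 | h7 | h7
  · exact h7
  · exact absurd h6.low (h7 ▸ tw_not_low76 ⟨p, ht⟩)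
  · exact absurd h6.low (h7 ▸ tw_not_low76 ht')

/-- the covers if `pT D d` has only one vertex -/
theorem cv_of {d l x t : V} {D D' : Finset V} (c : Tw2 G Fa d D D') (hT : G.pT D d = {t})
    (h : Cv G Fa d l x) : (x ∈ G.nR Fa d ∧ G.Hub x ∧ G.I Fa x = ∅) ∨
      (G.Low t ∧ t ≠ l ∧ G.LL d t l x) := by
  rcases h with h | ⟨b, h1, h2, h3, h4, h5⟩
  · exact Or.inl h
  · right
    have h6 : b ∈ G.pT D d := mem_pT h1 (by rw [h3]; exact c.mem1)
    rw [hT, mem_singleton] at h6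
    subst h6
    exact ⟨h2, h4, h5⟩

theorem not_I {d x : V} {D : Finset V} (hx : G.I Fa x = ∅) (hD : D ∈ Fa)
    (h : x ∈ G.pT D d) : False := by
  have h1 : D ∈ G.I Fa x := mem_I76.2 ⟨hD, (mem_inter.1 h).2⟩
  rw [hx] at h1
  exact notMem_empty _ h1

/-- two visible hubs in no neighbourhood -/
theorem two_hubs {d l x y : V} {D D' : Finset V} (c : Tw2 G Fa d D D')
    (hl : AdjC G Fa d l) (hx : x ∈ G.nR Fa d ∧ G.Hub x ∧ G.I Fa x = ∅)
    (hy : y ∈ G.nR Fa d ∧ G.Hub y ∧ G.I Fa y = ∅) (hne : x ≠ y) :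
    6 ≤ ∑ u ∈ G.nR Fa d, G.w5 Fa u d := by
  have w1 := adj_w hl
  have w2 : 2 ≤ G.w5 Fa x d := w5_zero (m_empty5 hx.2.2)
  have w3 : 2 ≤ G.w5 Fa y d := w5_zero (m_empty5 hy.2.2)
  have n1 := low_ne_hub hl.low hx.2.1
  have n2 := low_ne_hub hl.low hy.2.1
  have hsub : ({l, x, y} : Finset V) ⊆ G.nR Fa d := by
    intro u hu
    simp only [mem_insert, mem_singleton] at hu
    rcases hu with rfl | rfl | rfl
    · exact hl.vis
    · exact hx.1
    · exact hy.1
  have h5 := c.sum_ge hsub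
  rw [sum_insert (by simp [n1, n2]), sum_pair hne] at h5
  linarith

/-- one visible hub in no neighbourhood -/
theorem one_hub {d v l x : V} {D D' : Finset V} (c : Tw2 G Fa d D D')
    (h : ∀ l ∈ Cl G Fa d, AdjC G Fa d l) (hl : AdjC G Fa d l) (hv : G.Low v)
    (hvR : v ∈ G.nR Fa d) (hvC : v ∉ Cl G Fa d) (hne : v ≠ l) (h2 : (G.nb d ∩ D).card = 2)
    (hx : x ∈ G.nR Fa d ∧ G.Hub x ∧ G.I Fa x = ∅) :
    2 * ((Cl G Fa d).card : ℤ) ≤ G.ch5 Fa d := by
  have htot := total c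
  have i2 := hid1 c.mem2
  have n1 := low_ne_hub hl.low hx.2.1
  have n2 := low_ne_hub hv hx.2.1
  have h4 := three_le hvR hl.vis hx.1 hne n2 n1
  have hall := three_eq (by omega) hvR hl.vis hx.1 hne n2 n1
  have f1 := ff_ge c.fr1 c.low
  have f2 : 0 ≤ ff G D' d := by
    refine ff_one c.h9 c.fr2 c.low (by omega) fun a ha => ?_
    have h7 : a ∈ G.pT D' d := by rw [ha]; exact mem_singleton_self _
    have h6 : a ∈ G.nR Fa d := c.symm.T_vis h7
    rcases hall a h6 with rfl | rfl | rfl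
    · exact Or.inl hv
    · exact Or.inl hl.low
    · exact (not_I hx.2.2 c.F2 h7).elim
  have w1 := adj_w hl
  have w2 : 2 ≤ G.w5 Fa x d := w5_zero (m_empty5 hx.2.2)
  have hsub : ({l, x} : Finset V) ⊆ G.nR Fa d := by
    intro u hu
    simp only [mem_insert, mem_singleton] at hu
    rcases hu with rfl | rfl
    · exact hl.vis
    · exact hx.1
  have h5 := c.sum_ge hsub
  rw [sum_pair n1] at h5
  have hch := c.ch
  refine one_of (l := l) (by linarith) fun l' hl' => ?_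
  have h6 := h l' hl'
  rcases hall l' h6.vis with h7 | h7 | h7
  · exact absurd hl' (h7 ▸ hvC)
  · exact h7
  · exact absurd h6.low (h7 ▸ hx.2.1.1)

/-- all claimants are of type GAMMA -/
theorem neg_G {d l : V} {D D' : Finset V} (c : Tw2 G Fa d D D') (hneg : ff G D d < 0)
    (h : ∀ l ∈ Cl G Fa d, AdjC G Fa d l)
    (hg : ∀ l ∈ Cl G Fa d, ∃ B x y, x ≠ y ∧ G.I Fa l = {B} ∧ B ∈ G.I Fa d ∧ Cv G Fa d l x ∧
      Cv G Fa d l y) (hl : l ∈ Cl G Fa d) : 2 * ((Cl G Fa d).card : ℤ) ≤ G.ch5 Fa d := by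
  have h9 := c.h9
  have htot := total c
  have i1 := hid1 c.mem1
  have i2 := hid1 c.mem2
  have hch := c.ch
  have f1 := ff_ge c.fr1 c.low
  have hla := h l hl
  obtain ⟨B, x, y, hxy, hIl, hBd, cx, cy⟩ := hg l hl
  rcases ff_cases c.fr1 c.low with k | ⟨-, k | k | k | k⟩
  · linarith
  · -- S0
    obtain ⟨v, hv, -⟩ := k
    have hT : G.pT D d = {v} := hv.2.2.2.1
    have hvl : G.Low v := hv.2.2.1
    have hX : (G.nb d ∩ D).card = 2 := (S0_card hv).1
    have hvR : v ∈ G.nR Fa d := c.T_vis (by rw [hT]; exact mem_singleton_self _)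
    by_cases hvC : v ∈ Cl G Fa d
    · have hva := h v hvC
      obtain ⟨B1, x1, y1, hxy1, hIv, hB1, cx1, cy1⟩ := hg v hvC
      have k1 : x1 ∈ G.nR Fa d ∧ G.Hub x1 ∧ G.I Fa x1 = ∅ := by
        rcases cv_of c hT cx1 with h1 | h1
        · exact h1
        · exact absurd rfl h1.2.1
      have k2 : y1 ∈ G.nR Fa d ∧ G.Hub y1 ∧ G.I Fa y1 = ∅ := by
        rcases cv_of c hT cy1 with h1 | h1
        · exact h1
        · exact absurd rfl h1.2.1
      have n1 := low_ne_hub hvl k1.2.1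
      have n2 := low_ne_hub hvl k2.2.1
      have h4 := three_le hvR k1.1 k2.1 n1 n2 hxy1
      have hall := three_eq (by omega) hvR k1.1 k2.1 n1 n2 hxy1
      have w := two_hubs c hva k1 k2 hxy1
      have f2 : 0 ≤ ff G D' d := by
        refine ff_one c.h9 c.fr2 c.low (by omega) fun a ha => ?_
        have h7 : a ∈ G.pT D' d := by rw [ha]; exact mem_singleton_self _
        have h6 : a ∈ G.nR Fa d := c.symm.T_vis h7
        rcases hall a h6 with rfl | rfl | rfl
        · exact Or.inl hvl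
        · exact (not_I k1.2.2 c.F2 h7).elim
        · exact (not_I k2.2.2 c.F2 h7).elim
      refine one_of (l := v) (by linarith) fun l' hl' => ?_
      have h6 := h l' hl'
      rcases hall l' h6.vis with h7 | h7 | h7
      · exact h7
      · exact absurd h6.low (h7 ▸ k1.2.1.1)
      · exact absurd h6.low (h7 ▸ k2.2.1.1)
    · have hvl' : v ≠ l := fun e => hvC (e ▸ hl)
      rcases cv_of c hT cx with h1 | h1
      · exact one_hub c h hla hvl hvR hvC hvl' hX h1
      · rcases cv_of c hT cy with h2 | h2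
        · exact one_hub c h hla hvl hvR hvC hvl' hX h2
        · exact absurd (LL_same h1.2.2 h2.2.2) hxy
  · -- U3
    exfalso
    obtain ⟨Q, Q', hQ, hT⟩ := k.2.2.2
    have hX : (G.nb d ∩ D).card = 3 := (U3_card k).1
    have e1 : Q ∈ G.nR Fa d := c.T_vis (by rw [hT]; exact mem_insert_self _ _)
    have e2 : Q' ∈ G.nR Fa d :=
      c.T_vis (by rw [hT]; exact mem_insert_of_mem (mem_singleton_self _))
    have := three_le hla.vis e1 e2 (low_ne_tw hla.low ⟨Q', hQ⟩)
      (low_ne_tw hla.low (tw_of76' hQ)) (tw_ne hQ)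
    omega
  · -- T3
    exfalso
    have k2 := T3_pair k
    rw [pT_Co c.fr1] at k2
    obtain ⟨Q, Q', hQ, hT⟩ := k2
    have hX := (T3_card k).2.2
    rw [pO_Co c.fr1] at hX
    have e1 : Q ∈ G.nR Fa d := c.T_vis (by rw [hT]; exact mem_insert_self _ _)
    have e2 : Q' ∈ G.nR Fa d :=
      c.T_vis (by rw [hT]; exact mem_insert_of_mem (mem_singleton_self _))
    have hall := three_eq (by omega) hla.vis e1 e2 (low_ne_tw hla.low ⟨Q', hQ⟩)
      (low_ne_tw hla.low (tw_of76' hQ)) (tw_ne hQ)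
    rcases cx with ⟨h1, h2, h3⟩ | ⟨b, h1, h2, h3, h4, h5⟩
    · rcases hall x h1 with rfl | rfl | rfl
      · exact h2.1 hla.low
      · exact h2.2 ⟨Q', hQ⟩
      · exact h2.2 (tw_of76' hQ)
    · rcases hall b h1 with rfl | rfl | rfl
      · exact h4 rfl
      · exact tw_not_low76 ⟨Q', hQ⟩ h2
      · exact tw_not_low76 (tw_of76' hQ) h2
  · -- HF
    obtain ⟨-, -, h4, a, b, hab, -, -, hT⟩ := k
    rw [pT_Co c.fr1] at hT
    have hah := HL_hubT76 h9 hab
    have haT : a ∈ G.pT D d := by rw [hT]; exact mem_singleton_self _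
    have haR : a ∈ G.nR Fa d := c.T_vis haT
    have k1 : x ∈ G.nR Fa d ∧ G.Hub x ∧ G.I Fa x = ∅ := by
      rcases cv_of c hT cx with h1 | h1
      · exact h1
      · exact absurd h1.1 hah.1
    have k2 : y ∈ G.nR Fa d ∧ G.Hub y ∧ G.I Fa y = ∅ := by
      rcases cv_of c hT cy with h1 | h1
      · exact h1
      · exact absurd h1.1 hah.1
    have n1 := low_ne_hub hla.low k1.2.1
    have n2 := low_ne_hub hla.low k2.2.1
    have n3 := (low_ne_hub hla.low hah).symm
    have n4 : a ≠ x := by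
      rintro rfl
      exact not_I k1.2.2 c.F1 haT
    have n5 : a ≠ y := by
      rintro rfl
      exact not_I k2.2.2 c.F1 haT
    have h5 := four_le5 haR hla.vis k1.1 k2.1 n3 n4 n5 n1 n2 hxy
    have hall := four_eq (by omega) haR hla.vis k1.1 k2.1 n3 n4 n5 n1 n2 hxy
    have w := two_hubs c hla k1 k2 hxy
    have hlT : l ∈ G.pT D' d := by
      refine mem_pT hla.vis ?_
      have hB := hBd
      rw [c.I, mem_insert, mem_singleton] at hB
      rcases hB with rfl | rfl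
      · exfalso
        have h6 : l ∈ G.pT B d := mem_pT hla.vis (by rw [hIl]; exact mem_singleton_self _)
        rw [hT, mem_singleton] at h6
        exact n3 h6.symm
      · rw [hIl]
        exact mem_singleton_self _
    have f2 : 0 ≤ ff G D' d := by
      refine ff_one c.h9 c.fr2 c.low (by omega) fun a' ha => ?_
      rw [ha, mem_singleton] at hlT
      rw [← hlT]
      exact Or.inl hla.low
    refine one_of (l := l) (by linarith) fun l' hl' => ?_
    have h6 := h l' hl'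
    rcases hall l' h6.vis with h7 | h7 | h7 | h7
    · exact absurd h6.low (h7 ▸ hah.1)
    · exact h7
    · exact absurd h6.low (h7 ▸ k1.2.1.1)
    · exact absurd h6.low (h7 ▸ k2.2.1.1)

/-- a negative flag -/
theorem neg_any {d l : V} {D D' : Finset V} (hG : G.Gen6 Fa) (c : Tw2 G Fa d D D')
    (hneg : ff G D d < 0) (h : ∀ l ∈ Cl G Fa d, AdjC G Fa d l) (hl : l ∈ Cl G Fa d) :
    2 * ((Cl G Fa d).card : ℤ) ≤ G.ch5 Fa d := by
  by_cases hg : ∀ l ∈ Cl G Fa d, ∃ B x y, x ≠ y ∧ G.I Fa l = {B} ∧ B ∈ G.I Fa d ∧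
      Cv G Fa d l x ∧ Cv G Fa d l y
  · exact neg_G c hneg h hg hl
  · push Not at hg
    obtain ⟨l', hl', h'⟩ := hg
    have h1 := h l' hl'
    rcases h1.ty with ⟨q, p, k1, k2, k3, k4⟩ | ⟨B, q, p, k1, k2, k3, k4, k5, k6⟩ |
      ⟨B, x, y, k1, k2, k3, k4, k5⟩
    · exact neg_E c hneg h h1 k1 k2 k3 k4
    · rw [c.I, mem_insert, mem_singleton] at k5
      rcases k5 with rfl | rfl
      · exact case_S hG c h h1 k1 k2 k3 k4 k6
      · exact case_S hG c.symm h h1 k1 k2 k3 k4 k6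
    · exact absurd k5 (h' B x y k1 k2 k3 k4)

/-- adjacent claimants only -/
theorem case_adj (hG : G.Gen6 Fa) {d l : V} (hdR : d ∈ R Fa) (hd : G.Low d)
    (hk : 2 ≤ (G.I Fa d).card) (h : ∀ l ∈ Cl G Fa d, AdjC G Fa d l) (hl : l ∈ Cl G Fa d) :
    2 * ((Cl G Fa d).card : ℤ) ≤ G.ch5 Fa d := by
  have h1 := cl_w h
  by_cases hk3 : 3 ≤ (G.I Fa d).card
  · exact h1.trans (low_three_sub hG.g5.n9 hG.g5.reg hdR hd hk3 (cl_sub h))
  · obtain ⟨B, B', c⟩ := tw2_of hG hdR hd (by omega)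
    by_cases f1 : ff G B d < 0
    · exact neg_any hG c f1 h hl
    by_cases f2 : ff G B' d < 0
    · exact neg_any hG c.symm f2 h hl
    push Not at f1 f2
    have h2 := c.ch
    have h3 := c.sum_ge (cl_sub h)
    linarith

end C6f

open C6f in
/-- C6f -/
theorem stC6f_28 (G : CG V) : G.StC6f := by
  intro Fa hG d hdR hd hk
  by_cases hn : ∀ z, ¬ G.Don2 Fa d z
  · by_cases hA : ∀ q, ¬ G.AL Fa q d
    · have h1 := ask_le hG hd hA fun l hl => (dl_cases hG hdR hd hk hn hl).1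
      by_cases hH : ∃ l a u w, HLc G Fa d l a u w
      · obtain ⟨l, a, u, w, h⟩ := hH
        have h2 := case_hl hG hdR hd hk hn h
        exact le_max_of_le_right (by linarith)
      · have hadj : ∀ l ∈ Cl G Fa d, AdjC G Fa d l := by
          intro l hl
          rcases (dl_cases hG hdR hd hk hn (mem_Cl.1 hl).2).2 with h2 | ⟨a, u, w, h2⟩
          · exact h2
          · exact absurd ⟨l, a, u, w, h2⟩ hH
        rcases (Cl G Fa d).eq_empty_or_nonempty with h2 | ⟨l, hl⟩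
        · rw [h2, card_empty] at h1
          exact le_max_of_le_left (by simpa using h1)
        · have h2 := case_adj hG hdR hd hk hadj hl
          exact le_max_of_le_right (by linarith)
    · push Not at hA
      obtain ⟨q, hq⟩ := hA
      exact le_max_of_le_right (case_al hG hdR hd hk hn hq)
  · push Not at hn
    obtain ⟨z, hz⟩ := hn
    exact le_max_of_le_right (case_don hG hz)

end CG

end Pool.Agent.Lib.MP_e95c01_co.N
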