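import Pool.Agent.Lib.MP_e95c01_co.X.C7a2_16

/-!
# `λ = 3`, thick torsos: row C7a, pairs of twins in one neighbourhood can pay
-/

namespace Pool.Agent.Lib.MP_e95c01_co.N

open Finset

variable {V : Type} [Fintype V] [DecidableEq V]

namespace CG

open K28

namespace C7x16

variable {G : CG V} {Fa : Finset (Finset V)}

/-- the setting -/
structure One (G : CG V) (Fa : Finset (Finset V)) (q p : V) (B : Finset V) : Prop where
  hG : G.Gen6 Fa
  qR : q ∈ R Fa
  t : G.Tw q p
  I1 : G.I Fa q = {B}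

variable {q p : V} {B : Finset V}

theorem One.BI (c : One G Fa q p B) : B ∈ G.I Fa q := c.I1.symm ▸ mem_singleton_self B

theorem One.BF (c : One G Fa q p B) : B ∈ Fa := (mem_I76.1 c.BI).1

theorem One.qN (c : One G Fa q p B) : q ∈ G.N B := (mem_I76.1 c.BI).2

theorem One.h9 (c : One G Fa q p B) : 9 ≤ Fintype.card V := c.hG.g5.n9

theorem One.pI (c : One G Fa q p B) : p ∈ R Fa ∧ G.I Fa p = {B} := by
  have := q_I76 (qs16 G) c.hG.g5.reg c.qR c.t
  exact ⟨this.1, this.2.trans c.I1⟩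

theorem One.pN (c : One G Fa q p B) : p ∈ G.N B :=
  (mem_I76.1 (c.pI.2.symm ▸ mem_singleton_self B : B ∈ G.I Fa p)).2

theorem One.m_iff (c : One G Fa q p B) (x : V) : G.m Fa x q = 0 ↔ B ∉ G.I Fa x := by
  constructor
  · intro h hc
    rw [m, card_eq_zero] at h
    have : B ∈ G.I Fa x ∩ G.I Fa q := mem_inter.2 ⟨hc, c.BI⟩
    rw [h] at this
    exact notMem_empty _ this
  · intro h
    exact (m_X76 c.I1 h).2

theorem One.mem_NO (c : One G Fa q p B) (x : V) :
    x ∈ G.NO Fa q ↔ x ∈ G.nR Fa q ∧ G.Low x ∧ B ∉ G.I Fa x := by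
  rw [NO, mem_filter, c.m_iff]

theorem One.Co (c : One G Fa q p B) {x : V} (h : x ∈ G.nR Fa q) (h' : B ∉ G.I Fa x) :
    x ∈ G.nb q ∩ G.Co B := (mem_X76 c.qR c.I1).2 ⟨h, h'⟩

theorem One.claim (c : One G Fa q p B) {l : V} (h : G.dn5 Fa q l ≠ 0) : l ∈ G.NO Fa q := by
  obtain ⟨h1, h2, h3, h4⟩ := claim_out c.h9 (tw1 c.t) h
  rw [c.mem_NO]
  refine ⟨mem_nR76.2 ⟨G.sym _ _ h3, h1⟩, h2, fun hc => ?_⟩
  rcases h4 with h4 | ⟨B', h4, h5⟩
  · rw [h4] at hc
    exact notMem_empty _ hc
  · rw [h4, mem_singleton] at hc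
    subst hc
    exact (mem_Co76.1 h5).2 c.qN

theorem One.ask_eq (c : One G Fa q p B) : G.ask Fa q = ∑ l ∈ G.NO Fa q, G.dn5 Fa q l := by
  rw [ask]
  symm
  apply sum_subset
  · intro x hx
    rw [c.mem_NO] at hx
    exact (mem_nR76.1 hx.1).2
  · intro x _ hx
    by_contra hc
    exact hx (c.claim hc)

/-- the number of neighbours -/
theorem One.count (c : One G Fa q p B) {W : Finset V} (hW : W ⊆ G.nR Fa q) (hp : p ∉ W)
    (h1 : ∀ x ∈ W, x ∉ G.NO Fa q) (h2 : ∀ x ∈ W, x ∉ G.NH Fa q) :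
    1 + (G.NO Fa q).card + (G.NH Fa q).card + W.card ≤
      G.d q (G.N B) + G.d q (G.Co B) := by
  classical
  have e1 : (G.nR Fa q).card ≤ G.d q (G.N B) + G.d q (G.Co B) := by
    refine (card_le_card ?_).trans (card_union_le (G.nb q ∩ G.N B) (G.nb q ∩ G.Co B))
    intro x hx
    have hx1 := mem_nR76.1 hx
    rw [mem_union, mem_inter, mem_inter, mem_Co76]
    by_cases hxN : x ∈ G.N B
    · exact Or.inl ⟨hx1.1, hxN⟩
    · exact Or.inr ⟨hx1.1, mem_R76.1 hx1.2 B c.BF, hxN⟩
  have d1 : Disjoint (G.NO Fa q) (G.NH Fa q) := by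
    rw [disjoint_left]
    intro x hx hx'
    rw [c.mem_NO] at hx
    rw [NH, mem_filter] at hx'
    exact hx'.2.1.1 hx.2.1
  have d2 : Disjoint (G.NO Fa q ∪ G.NH Fa q) W := by
    rw [disjoint_left]
    intro x hx hx'
    rcases mem_union.1 hx with h | h
    · exact h1 x hx' h
    · exact h2 x hx' h
  have hpn : p ∉ (G.NO Fa q ∪ G.NH Fa q) ∪ W := by
    rw [mem_union, mem_union, not_or, not_or]
    refine ⟨⟨fun h => ?_, fun h => ?_⟩, hp⟩
    · rw [c.mem_NO] at h
      exact tw_not_low11 (tw2 c.t) h.2.1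
    · rw [NH, mem_filter] at h
      exact h.2.1.2 (tw2 c.t)
  have e2 : insert p ((G.NO Fa q ∪ G.NH Fa q) ∪ W) ⊆ G.nR Fa q := by
    intro x hx
    rw [mem_insert, mem_union, mem_union] at hx
    rcases hx with rfl | (h | h) | h
    · exact mem_nR76.2 ⟨c.t.1, c.pI.1⟩
    · exact (mem_filter.1 h).1
    · exact (mem_filter.1 h).1
    · exact hW h
  have e3 := card_le_card e2
  rw [card_insert_of_notMem hpn, card_union_of_disjoint d2, card_union_of_disjoint d1] at e3
  omega

theorem One.ch_eq (c : One G Fa q p B) :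
    G.ch5 Fa q = 2 * (G.d q (G.Co B) : ℤ) + (G.d q (G.N B) : ℤ) - 9 +
      2 * ((G.NO Fa q).card : ℤ) + ((G.NT Fa q).card : ℤ) - ((G.NH Fa q).card : ℤ) +
      G.fg5 Fa q :=
  (G.stCh5_28).tw1 c.h9 Fa c.hG.g5.reg q c.qR (tw1 c.t) B c.I1

/-- the base inequality -/
theorem One.base (c : One G Fa q p B) {W : Finset V} (hW : W ⊆ G.nR Fa q) (hp : p ∉ W)
    (h1 : ∀ x ∈ W, x ∉ G.NO Fa q) (h2 : ∀ x ∈ W, x ∉ G.NH Fa q) :
    (G.d q (G.Co B) : ℤ) + G.fg5 Fa q - 8 + 3 * ((G.NO Fa q).card : ℤ) + (W.card : ℤ) ≤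
      G.ch5 Fa q := by
  have e1 := c.count hW hp h1 h2
  have e2 := c.ch_eq
  have e3 : (1 : ℤ) + (G.NO Fa q).card + (G.NH Fa q).card + W.card ≤
      G.d q (G.N B) + G.d q (G.Co B) := by exact_mod_cast e1
  have e4 : (0 : ℤ) ≤ ((G.NT Fa q).card : ℤ) := by positivity
  linarith

theorem One.r_ge (c : One G Fa q p B) : 3 ≤ G.d q (G.Co B) := e1q_86 c.hG.g5 c.t c.qR c.I1

theorem One.r_le (c : One G Fa q p B) : G.d q (G.Co B) ≤ 4 := by
  have h1 := d_split76 (G := G) q B
  have h2 := tw_card11 (tw1 c.t)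
  have h3 : 2 ≤ G.d q B := two_hid c.h9 c.hG.g5.reg c.hG.g5.big c.qR (tw1 c.t) c.BI
  have h4 : 1 ≤ (G.nb q ∩ G.N B).card := card_pos.2 ⟨p, mem_inter.2 ⟨c.t.1, c.pN⟩⟩
  omega

theorem One.fg (c : One G Fa q p B) : -1 ≤ G.fg5 Fa q ∧
    (G.fg5 Fa q < 0 → G.RFt Fa q ∧ G.d q (G.Co B) = 4) := by
  have h := ff_tw (G := G) (B := B) (tw1 c.t)
  rw [ff, ← fg_single c.I1] at h
  refine ⟨h.1, fun h1 => ?_⟩
  have h2 := h.2.1 h1
  refine ⟨⟨B, c.BI, h2⟩, ?_⟩
  obtain ⟨-, p', m, m', -, -, -, h3, -⟩ := h2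
  exact h3

/-- three -/
theorem One.r_fg (c : One G Fa q p B) : (3 : ℤ) ≤ (G.d q (G.Co B) : ℤ) + G.fg5 Fa q ∧
    ((G.d q (G.Co B) : ℤ) + G.fg5 Fa q < 4 → G.d q (G.Co B) = 3 ∨ G.RFt Fa q) := by
  have h1 := c.r_ge
  have h2 := c.r_le
  obtain ⟨h3, h4⟩ := c.fg
  have h5 : (3 : ℤ) ≤ (G.d q (G.Co B) : ℤ) := by exact_mod_cast h1
  constructor
  · by_contra hc
    have h6 : G.fg5 Fa q < 0 := by linarith
    have h7 := (h4 h6).2
    rw [h7] at hc
    apply hc
    push_cast
    linarith
  · intro h6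
    rcases Nat.lt_or_ge (G.d q (G.Co B)) 4 with h7 | h7
    · left
      omega
    · right
      have h8 : (4 : ℤ) ≤ (G.d q (G.Co B) : ℤ) := by exact_mod_cast h7
      exact (h4 (by linarith)).1

/-- the vertex that asks in EPS and S0 together with the low vertex `d` in `N B'` -/
theorem One.low_NO (c : One G Fa q p B) {l d : V} {B' : Finset V} (hl : l ∈ G.NO Fa q)
    (hI : G.I Fa l = {B'}) (hd : d ∈ G.pT B' l) (hdl : G.Low d) (hqd : q ∈ G.nb d)
    (hch : G.ch5 Fa d < 2) : d ∈ G.NO Fa q ∧ d ≠ l := by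
  have hl1 := (c.mem_NO l).1 hl
  have hd1 := mem_inter.1 hd
  have hB' : B' ∈ Fa := (mem_I76.1 (hI.symm ▸ mem_singleton_self B' : B' ∈ G.I Fa l)).1
  have hdR : d ∈ R Fa := N_R c.hG.g5.reg hB' hd1.2
  have hdl' : d ≠ l := by
    rintro rfl
    exact G.irr _ hd1.1
  refine ⟨?_, hdl'⟩
  rw [c.mem_NO]
  refine ⟨mem_nR76.2 ⟨G.sym _ _ hqd, hdR⟩, hdl, fun hc => ?_⟩
  have hne : B ≠ B' := by
    rintro rfl
    exact hl1.2.2 (hI.symm ▸ mem_singleton_self B)
  have := big_low c.hG.g5 hdR hdl c.qR c.t c.I1 hqd (mem_I76.1 hc).2 (G.sym _ _ hd1.1)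
    (mem_nR76.1 hl1.1).2 hl1.2.1 hI hne hd1.2
  linarith

/-! ### one claim -/

/-- nobody asks -/
theorem One.none (c : One G Fa q p B) (h2 : G.StM2) (h : G.ask Fa q ≤ 0) : G.ask Fa q ≤
    2 * G.ch5 Fa q + ∑ x ∈ R Fa, G.dn5 Fa x q +
      (by classical exact if G.InK6 Fa q then 2 else 0) := by
  classical
  have htq := tw1 c.t
  have hnn : ∀ x ∈ R Fa, 0 ≤ G.dn5 Fa x q ∧ (G.AL Fa q x → 2 ≤ G.dn5 Fa x q) := by
    intro x _
    have nl : ¬ G.Low q := tw_not_low11 htq
    have e1 : ¬ G.DL Fa q x := by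
      intro h
      cases h with
      | gam h _ _ => exact nl h.low
      | the h _ _ _ => exact nl h.low
      | eps h _ _ => exact nl h.low
      | eta h _ _ => exact nl h.low
      | s0 h _ _ => exact nl h.low
      | t3 h _ _ => exact nl h.low
      | t6 h _ _ _ => exact nl h.low
      | k2 _ _ h _ => exact nl h.2.1
    have e2 : ¬ G.PD Fa q x := by
      intro h
      cases h with
      | t3 h _ _ => exact nl h.low
      | t6 h _ _ _ _ => exact nl h.low
      | eps h _ _ => exact nl h.low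
      | s0 h _ _ => exact nl h.low
    unfold dn5
    rw [if_neg e1, if_neg e2]
    constructor
    · positivity
    · intro h3
      rw [if_pos h3]
      have : (0 : ℤ) ≤ 0 + 0 + (if G.PF Fa q x then 2 else 0) +
          (if G.PS Fa q x then 1 else 0) + (if G.SK Fa q x then 4 else 0) +
          (if G.HD Fa q x then 4 else 0) + (if G.HS Fa q x then 2 else 0) +
          (if G.PQ Fa q x then 2 else 0) := by positivity
      linarith
  have hs : 0 ≤ ∑ x ∈ R Fa, G.dn5 Fa x q := sum_nonneg fun x hx => (hnn x hx).1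
  have hk : (0 : ℤ) ≤ if G.InK6 Fa q then 2 else 0 := by positivity
  rcases lt_or_ge (G.ch5 Fa q) 0 with hc | hc
  · obtain ⟨h3, h4⟩ := h2.cls Fa c.hG q c.qR B htq c.I1 hc
    rcases h4 with h4 | ⟨p', y, e, f, h', h4⟩
    · rw [if_pos h4]
      linarith
    · have hy : y ∈ R Fa := by
        have h5 : y ∈ G.pT B q := by rw [h4.nT]; simp
        exact N_R c.hG.g5.reg c.BF (mem_inter.1 h5).2
      have h6 := (hnn y hy).2 ⟨B, p', e, f, h', h4⟩
      have h7 : G.dn5 Fa y q ≤ ∑ x ∈ R Fa, G.dn5 Fa x q :=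
        single_le_sum (fun x hx => (hnn x hx).1) hy
      linarith
  · linarith

/-- a claim by the only low vertex in `Co B` -/
theorem One.single (c : One G Fa q p B) {l : V} (hNO : G.NO Fa q = {l})
    (hl : G.dn5 Fa q l ≠ 0) : 1 ≤ G.ch5 Fa q := by
  classical
  have h9 := c.h9
  have hG := c.hG.g5
  have hlN := c.claim hl
  have hl1 := (c.mem_NO l).1 hlN
  have hcard : ((G.NO Fa q).card : ℤ) = 1 := by rw [hNO, card_singleton]; rfl
  rcases claims h9 (tw1 c.t) hl with ⟨l', p₁, q', p', x, a, h1, h2⟩ |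
    ⟨l', p₁, q', p', x, a, h1, h2⟩ | ⟨l', p₁, x, y, z, a, h1, h2⟩ | ⟨B', d, p₁, a, h1⟩ |
    ⟨B', v, p₁, y, a, h1⟩ | ⟨p₁, q', p', x, y, a, h1, h2⟩
  · have hp := uniq h9 c.t a.t
    subst hp
    have hn := six_nodup a.nb a.low
    simp only [List.nodup_cons, List.mem_cons, List.not_mem_nil, or_false, not_or] at hn
    have hsub : ({l', q', p'} : Finset V) ⊆ G.nR Fa q := by
      intro w hw
      simp only [mem_insert, mem_singleton] at hw
      have hwl : w ∈ G.nb l := by
        rw [a.nb]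
        rcases hw with rfl | rfl | rfl <;> simp
      refine mem_nR76.2 ⟨?_, nb_R a.lR a.I0 hwl⟩
      rcases hw with rfl | rfl | rfl
      · exact h2
      · exact h1
      · exact G.sym _ _ (Tw_nb5 a.t' (G.sym _ _ h1) hn.2.1.2.2.1)
    have e1 := c.base hsub (by
      simp only [mem_insert, mem_singleton, not_or]
      exact ⟨fun e => hn.1.2.1 e.symm, hn.2.2.1.1, hn.2.2.1.2.1⟩) (by
      intro w hw
      simp only [mem_insert, mem_singleton] at hw
      intro hw'
      rw [hNO, mem_singleton] at hw'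
      subst hw'
      have hwl : w ∈ G.nb w := by
        rw [a.nb]
        rcases hw with e | e | e <;> simp [← e]
      exact G.irr _ hwl) (by
      intro w hw hw'
      simp only [mem_insert, mem_singleton] at hw
      rw [NH, mem_filter] at hw'
      rcases hw with rfl | rfl | rfl
      · exact hw'.2.1.1 a.low'
      · exact hw'.2.1.2 (tw1 a.t')
      · exact hw'.2.1.2 (tw2 a.t'))
    have e2 : ({l', q', p'} : Finset V).card = 3 := by
      rw [card_insert_of_notMem (by
        rw [mem_insert, mem_singleton, not_or]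
        exact ⟨hn.1.2.2.1, hn.1.2.2.2.1⟩), card_pair hn.2.2.2.1.1]
    rw [e2, hcard] at e1
    have e3 := c.r_fg.1
    push_cast at e1
    linarith
  · exfalso
    have e1 := T3cov hG a h1
    have hll : l' ∈ G.nb l := by rw [a.nb]; simp
    have e2 : l' ∈ G.NO Fa q := by
      rw [c.mem_NO]
      refine ⟨mem_nR76.2 ⟨e1, nb_R a.lR a.I0 hll⟩, a.low', ?_⟩
      rw [h2]
      exact notMem_empty _
    rw [hNO, mem_singleton] at e2
    subst e2
    exact G.irr _ hll
  · exact h2
  · exfalso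
    have e1 := c.low_NO hlN a.I1 a.dT a.dl a.dq h1
    rw [hNO, mem_singleton] at e1
    exact e1.2 e1.1
  · exfalso
    have e1 := c.low_NO (d := v) hlN a.I1 (by rw [a.s0.2.2.2.1]; simp) a.s0.2.2.1 a.vq
      (by linarith)
    rw [hNO, mem_singleton] at e1
    exact e1.2 e1.1
  · have hp := uniq h9 c.t a.t
    subst hp
    have hn := six_nodup a.nb a.low
    simp only [List.nodup_cons, List.mem_cons, List.not_mem_nil, or_false, not_or] at hn
    have h3 : q' ∈ G.nR Fa q := by rw [a.nq]; simp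
    have h4 : p' ∈ G.nR Fa q := by rw [a.nq]; simp
    have h5 : x ∈ G.nR Fa q := by rw [a.nq]; simp
    obtain ⟨B1, B2, b1, b2, b3⟩ := a.blobs
    have b4 : B = B1 := by
      have := c.BI
      rw [b1, mem_singleton] at this
      exact this
    subst b4
    have b5 : B ∉ G.I Fa q' := by
      rw [b2, mem_singleton]
      exact b3
    have b6 := (q_I76 (qs16 G) hG.reg (mem_nR76.1 h3).2 a.t').2
    have hsub : ({q', p'} : Finset V) ⊆ G.nR Fa q := by
      intro w hw
      rw [mem_insert, mem_singleton] at hw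
      rcases hw with rfl | rfl
      exacts [h3, h4]
    have e1 := c.base hsub (by
      rw [mem_insert, mem_singleton, not_or]
      exact ⟨hn.2.1.1, hn.2.1.2.1⟩) (by
      intro w hw hw'
      rw [mem_insert, mem_singleton] at hw
      rw [c.mem_NO] at hw'
      rcases hw with rfl | rfl
      · exact tw_not_low11 (tw1 a.t') hw'.2.1
      · exact tw_not_low11 (tw2 a.t') hw'.2.1) (by
      intro w hw hw'
      rw [mem_insert, mem_singleton] at hw
      rw [NH, mem_filter] at hw'
      rcases hw with rfl | rfl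
      · exact hw'.2.1.2 (tw1 a.t')
      · exact hw'.2.1.2 (tw2 a.t'))
    rw [card_pair hn.2.2.1.1, hcard] at e1
    have e2 : 4 ≤ G.d q (G.Co B) := by
      have h6 : ({l, q', p', x} : Finset V) ⊆ G.nb q ∩ G.Co B := by
        intro w hw
        simp only [mem_insert, mem_singleton] at hw
        rcases hw with rfl | rfl | rfl | rfl
        · exact c.Co hl1.1 hl1.2.2
        · exact c.Co h3 b5
        · exact c.Co h4 (by
            rw [b6]
            exact b5)
        · exact c.Co h5 (by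
            rw [h1]
            exact notMem_empty _)
      have h7 : ({l, q', p', x} : Finset V).card = 4 := by
        have hl' : ∀ w ∈ G.nb l, l ≠ w := by
          rintro w hw rfl
          exact G.irr _ hw
        rw [card_insert_of_notMem, card_insert_of_notMem, card_pair hn.2.2.2.1.1]
        · rw [mem_insert, mem_singleton, not_or]
          exact ⟨hn.2.2.1.1, hn.2.2.1.2.1⟩
        · simp only [mem_insert, mem_singleton, not_or]
          refine ⟨hl' _ ?_, hl' _ ?_, hl' _ ?_⟩ <;> rw [a.nb] <;> simp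
      have h8 := card_le_card h6
      rw [h7] at h8
      exact h8
    have e3 := c.r_fg
    have e4 : (4 : ℤ) ≤ (G.d q (G.Co B) : ℤ) + G.fg5 Fa q := by
      by_contra hc
      rcases e3.2 (by linarith) with h6 | h6
      · omega
      · exact h2 h6
    push_cast at e1
    linarith

/-! ### two claims -/

/-- the claim of `l` if `l2` is the only other low vertex -/
theorem One.cases2 (c : One G Fa q p B) (h7 : G.StC7t) (h6 : G.StT6) {l l2 : V}
    (hW : ∀ w ∈ G.nR Fa q, w ≠ p → w ∈ G.NO Fa q ∨ w ∈ G.NH Fa q)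
    (hNO : ∀ w ∈ G.NO Fa q, w = l ∨ w = l2) (hl : G.dn5 Fa q l ≠ 0) :
    (G.dn5 Fa q l ≤ 1 ∧ ∃ q', G.IsTw q' ∧ q' ≠ q ∧ q' ≠ p ∧ q' ∈ G.nb l2) ∨
    (∃ x y z, G.T6s Fa l l2 q p x y z ∧ G.NoSk Fa l q) ∨ G.dn5 Fa q l2 = 0 ∨
    G.dn5 Fa q l + G.dn5 Fa q l2 ≤ 2 := by
  classical
  have h9 := c.h9
  have hG := c.hG.g5
  have hlN := c.claim hl
  have hl1 := (c.mem_NO l).1 hlN
  have htwq : ∀ w ∈ G.nR Fa q, G.IsTw w → w = p := by
    intro w hw hw'
    by_contra hc
    rcases hW w hw hc with h | h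
    · rw [c.mem_NO] at h
      exact tw_not_low11 hw' h.2.1
    · rw [NH, mem_filter] at h
      exact h.2.1.2 hw'
  have hlowq : ∀ w ∈ G.nR Fa q, G.Low w → w ∈ G.NO Fa q := by
    intro w hw hw'
    rcases hW w hw (by
      rintro rfl
      exact tw_not_low11 (tw2 c.t) hw') with h | h
    · exact h
    · rw [NH, mem_filter] at h
      exact absurd hw' h.2.1.1
  rcases claims h9 (tw1 c.t) hl with ⟨l', p₁, q', p', x, a, h1, h2⟩ |
    ⟨l', p₁, q', p', x, a, h1, h2⟩ | ⟨l', p₁, x, y, z, a, h1, h2⟩ | ⟨B', d, p₁, a, h1⟩ |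
    ⟨B', v, p₁, y, a, h1⟩ | ⟨p₁, q', p', x, y, a, h1, h2⟩
  · exfalso
    have hp := uniq h9 c.t a.t
    subst hp
    have hn := six_nodup a.nb a.low
    simp only [List.nodup_cons, List.mem_cons, List.not_mem_nil, or_false, not_or] at hn
    have := htwq q' (mem_nR76.2 ⟨h1, nb_R a.lR a.I0 (by rw [a.nb]; simp)⟩) (tw1 a.t')
    exact hn.2.2.1.1 this.symm
  · left
    have hp := uniq h9 c.t a.t
    subst hp
    have hn := six_nodup a.nb a.low
    simp only [List.nodup_cons, List.mem_cons, List.not_mem_nil, or_false, not_or] at hn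
    refine ⟨T3_dn h9 a h1, q', tw1 a.t', fun e => hn.2.1.2.1 e.symm, fun e => hn.2.2.1.1 e.symm,
      ?_⟩
    have hll : l' ∈ G.nb l := by rw [a.nb]; simp
    have e1 := T3cov hG a h1
    have e2 := hlowq l' (mem_nR76.2 ⟨e1, nb_R a.lR a.I0 hll⟩) a.low'
    have e3 : l' = l2 := by
      rcases hNO l' e2 with e | e
      · subst e
        exact absurd hll (G.irr _)
      · exact e
    have e4 := T3cov hG (T3swap a) (fun h => h1 (G.sym _ _ h))
    rw [e3] at e4
    exact G.sym _ _ e4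
  · right
    left
    have hp := uniq h9 c.t a.t
    subst hp
    have hll : l' ∈ G.nb l := by rw [a.nb]; simp
    have e1 := h6.adj Fa c.hG _ _ _ _ _ _ _ a
    have e2 := hlowq l' (mem_nR76.2 ⟨G.sym _ _ e1, nb_R a.lR a.I0 hll⟩) a.low'
    have e3 : l' = l2 := by
      rcases hNO l' e2 with e | e
      · subst e
        exact absurd hll (G.irr _)
      · exact e
    subst e3
    exact ⟨x, y, z, a, h1⟩
  · right
    right
    left
    have e1 := c.low_NO hlN a.I1 a.dT a.dl a.dq h1
    have e2 : d = l2 := by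
      rcases hNO d e1.1 with e | e
      · exact absurd e e1.2
      · exact e
    have := h7.lq Fa c.hG q c.qR (tw1 c.t) l d p₁ B' a
    rwa [e2] at this
  · right
    right
    right
    have e1 := c.low_NO (d := v) hlN a.I1 (by rw [a.s0.2.2.2.1]; simp) a.s0.2.2.1 a.vq
      (by linarith)
    have e2 : v = l2 := by
      rcases hNO v e1.1 with e | e
      · exact absurd e e1.2
      · exact e
    have := h7.lv Fa c.hG q c.qR (tw1 c.t) l v p₁ B' y a
    rwa [e2] at this
  · exfalso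
    have hp := uniq h9 c.t a.t
    subst hp
    have hn := six_nodup a.nb a.low
    simp only [List.nodup_cons, List.mem_cons, List.not_mem_nil, or_false, not_or] at hn
    have := htwq q' (by rw [a.nq]; simp) (tw1 a.t')
    exact hn.2.1.1 this.symm

/-- two claims of type `T6` -/
theorem One.double (c : One G Fa q p B) (h6 : G.StT6) {l l2 x y z x2 y2 z2 : V}
    (hW : ∀ w ∈ G.nR Fa q, w ≠ p → w ∈ G.NO Fa q ∨ w ∈ G.NH Fa q)
    (hNO : ∀ w ∈ G.NO Fa q, w = l ∨ w = l2) (hl : l ∈ G.NO Fa q) (hl2 : l2 ∈ G.NO Fa q)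
    (a : G.T6s Fa l l2 q p x y z) (a2 : G.T6s Fa l2 l q p x2 y2 z2) (h : G.NoSk Fa l q)
    (h2 : G.NoSk Fa l2 q) (hr : G.d q (G.Co B) = 3 ∨ G.RFt Fa q) :
    G.dn5 Fa q l + G.dn5 Fa q l2 ≤ 2 := by
  classical
  have h9 := c.h9
  have hG := c.hG.g5
  rcases hr with hr | hr
  · exfalso
    have hlowq : ∀ w ∈ G.nR Fa q, G.Low w → w = l ∨ w = l2 := by
      intro w hw hw'
      rcases hW w hw (by
        rintro rfl
        exact tw_not_low11 (tw2 c.t) hw') with h | h
      · exact hNO w h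
      · rw [NH, mem_filter] at h
        exact absurd hw' h.2.1.1
    obtain ⟨g, g1, g2, g3, g4⟩ := priv hG a (h6.adj Fa c.hG _ _ _ _ _ _ _ a) hlowq
    obtain ⟨g', g1', g2', g3', g4'⟩ := priv hG a2 (h6.adj Fa c.hG _ _ _ _ _ _ _ a2)
      (fun w hw hw' => (hlowq w hw hw').symm)
    have k : ∀ {l g : V}, G.NoSk Fa l q → g ∈ G.nb l → G.PH Fa l g → g ∈ G.nb q → g ∈ R Fa →
        g ∈ G.nb q ∩ G.Co B := by
      intro l g h g1 g3 g4 gR
      refine c.Co (mem_nR76.2 ⟨g4, gR⟩) fun hc => ?_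
      have h5 := h (by rw [c.I1, card_singleton]) g g1 g4 g3.1
      have h6 := g3.2.1
      have h7 : 1 ≤ (G.I Fa g).card := card_pos.2 ⟨B, hc⟩
      omega
    have k1 := k h g1 g3 g4 (nb_R a.lR a.I0 g1)
    have k2 := k h2 g1' g3' g4' (nb_R a2.lR a2.I0 g1')
    have hl1 := (c.mem_NO l).1 hl
    have hl21 := (c.mem_NO l2).1 hl2
    have k3 := c.Co hl1.1 hl1.2.2
    have k4 := c.Co hl21.1 hl21.2.2
    have h8 : ({l, l2, g, g'} : Finset V) ⊆ G.nb q ∩ G.Co B := by
      intro w hw
      simp only [mem_insert, mem_singleton] at hw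
      rcases hw with rfl | rfl | rfl | rfl
      exacts [k3, k4, k1, k2]
    have hll : l2 ∈ G.nb l := by rw [a.nb]; simp
    have h9 : ({l, l2, g, g'} : Finset V).card = 4 := by
      rw [card_insert_of_notMem, card_insert_of_notMem, card_pair]
      · rintro rfl
        exact g2 g1'
      · rw [mem_insert, mem_singleton, not_or]
        constructor
        · rintro rfl
          exact g3.1.1 a.low'
        · rintro rfl
          exact g3'.1.1 a.low'
      · simp only [mem_insert, mem_singleton, not_or]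
        refine ⟨?_, ?_, ?_⟩
        · rintro rfl
          exact G.irr _ hll
        · rintro rfl
          exact g3.1.1 a.low
        · rintro rfl
          exact g3'.1.1 a.low
    have h10 := card_le_card h8
    rw [h9] at h10
    change 4 ≤ G.d q (G.Co B) at h10
    omega
  · have e1 := T6_dn h9 a ⟨hr, ⟨_, _, _, _, a2⟩, h2⟩
    have e2 := T6_dn h9 a2 ⟨hr, ⟨_, _, _, _, a⟩, h⟩
    linarith

end C7x16

open C7x16

/-- row C7a -/
theorem stC7a_16 (G : CG V) (h2 : G.StM2) (ht : G.StC7t) (h6 : G.StT6) : G.StC7a := by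
  classical
  intro Fa hG q hq htw hI
  obtain ⟨p, hp⟩ := htw
  obtain ⟨B, hB⟩ := card_eq_one.1 hI
  have c : One G Fa q p B := ⟨hG, hq, hp, hB⟩
  have h9 := c.h9
  by_cases hask : G.ask Fa q ≤ 0
  · exact c.none h2 hask
  have hsn : 0 ≤ ∑ x ∈ R Fa, G.dn5 Fa x q + (if G.InK6 Fa q then (2 : ℤ) else 0) := by
    have htq := tw1 c.t
    have nl : ¬ G.Low q := tw_not_low11 htq
    have e1 : ∀ x, ¬ G.DL Fa q x := by
      intro x h
      cases h with
      | gam h _ _ => exact nl h.low
      | the h _ _ _ => exact nl h.low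
      | eps h _ _ => exact nl h.low
      | eta h _ _ => exact nl h.low
      | s0 h _ _ => exact nl h.low
      | t3 h _ _ => exact nl h.low
      | t6 h _ _ _ => exact nl h.low
      | k2 _ _ h _ => exact nl h.2.1
    have e2 : ∀ x, ¬ G.PD Fa q x := by
      intro x h
      cases h with
      | t3 h _ _ => exact nl h.low
      | t6 h _ _ _ _ => exact nl h.low
      | eps h _ _ => exact nl h.low
      | s0 h _ _ => exact nl h.low
    refine add_nonneg (sum_nonneg fun x _ => ?_) (by positivity)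
    unfold dn5
    rw [if_neg (e1 x), if_neg (e2 x)]
    positivity
  suffices hmain : G.ask Fa q ≤ 2 * G.ch5 Fa q by linarith
  have hasum := c.ask_eq
  have hone : ∀ l ∈ G.NO Fa q, G.dn5 Fa q l ≤ 2 := fun l hl =>
    ht.one Fa hG q hq (tw1 hp) l (mem_nR76.1 ((c.mem_NO l).1 hl).1).2
  have hle : G.ask Fa q ≤ 2 * ((G.NO Fa q).card : ℤ) := by
    rw [hasum]
    refine (sum_le_sum hone).trans ?_
    rw [sum_const, nsmul_eq_mul]
    linarith
  have hb := c.base (W := ∅) (empty_subset _) (notMem_empty _) (by simp) (by simp)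
  rw [card_empty] at hb
  have hr := c.r_fg
  rcases Nat.lt_or_ge (G.NO Fa q).card 3 with h3 | h3
  · have h4 : (G.NO Fa q).card = 0 ∨ (G.NO Fa q).card = 1 ∨ (G.NO Fa q).card = 2 := by omega
    rcases h4 with h4 | h4 | h4
    · rw [h4] at hle
      exact absurd hle (by push_cast; simpa using hask)
    · obtain ⟨l, hl⟩ := card_eq_one.1 h4
      have h5 : G.dn5 Fa q l ≠ 0 := by
        intro h
        rw [hl, sum_singleton, h] at hasum
        exact hask hasum.le
      have := c.single hl h5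
      rw [h4] at hle
      push_cast at hle
      linarith
    · obtain ⟨l, l2, hne, hll⟩ := card_eq_two.1 h4
      have hl : l ∈ G.NO Fa q := by rw [hll]; simp
      have hl2 : l2 ∈ G.NO Fa q := by rw [hll]; simp
      rw [h4] at hle hb
      push_cast at hle hb
      by_cases hch : 2 ≤ G.ch5 Fa q
      · linarith
      have hch1 : 1 ≤ G.ch5 Fa q := by linarith [hr.1]
      have hW : ∀ w ∈ G.nR Fa q, w ≠ p → w ∈ G.NO Fa q ∨ w ∈ G.NH Fa q := by
        intro w hw hwp
        by_contra hc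
        rw [not_or] at hc
        have := c.base (W := {w}) (by
          rw [singleton_subset_iff]
          exact hw) (by
          rw [mem_singleton]
          exact fun e => hwp e.symm) (by
          intro x hx
          rw [mem_singleton] at hx
          subst hx
          exact hc.1) (by
          intro x hx
          rw [mem_singleton] at hx
          subst hx
          exact hc.2)
        rw [card_singleton, h4] at this
        push_cast at this
        have := hr.1
        apply hch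
        linarith
      have hNO : ∀ w ∈ G.NO Fa q, w = l ∨ w = l2 := by
        intro w hw
        rw [hll, mem_insert, mem_singleton] at hw
        exact hw
      have hr3 : G.d q (G.Co B) = 3 ∨ G.RFt Fa q := hr.2 (by
        by_contra hc
        apply hch
        linarith)
      have hs : G.ask Fa q = G.dn5 Fa q l + G.dn5 Fa q l2 := by
        rw [hasum, hll, sum_pair hne]
      have hgoal : G.dn5 Fa q l + G.dn5 Fa q l2 ≤ 2 := by
        have o1 := hone l hl
        have o2 := hone l2 hl2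
        by_cases d1 : G.dn5 Fa q l = 0
        · linarith
        by_cases d2 : G.dn5 Fa q l2 = 0
        · linarith
        have hNO' : ∀ w ∈ G.NO Fa q, w = l2 ∨ w = l := fun w hw => (hNO w hw).symm
        have tn : ∀ {l l2 x y z q' : V}, G.T6s Fa l l2 q p x y z → G.IsTw q' → q' ≠ q →
            q' ≠ p → q' ∈ G.nb l → False := by
          intro l l2 x y z q' a b1 b2 b3 b4
          rw [a.nb] at b4
          simp only [mem_insert, mem_singleton] at b4
          rcases b4 with e | e | e | e | e | e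
          · exact tw_not_low11 b1 (e ▸ a.low')
          · exact b2 e
          · exact b3 e
          · exact (e ▸ a.hx.1 : G.Hub q').2 b1
          · exact (e ▸ a.hy.1 : G.Hub q').2 b1
          · exact (e ▸ a.hz.1 : G.Hub q').2 b1
        rcases c.cases2 ht h6 hW hNO d1 with ⟨a1, q', b1, b2, b3, b4⟩ | ⟨x, y, z, a, b⟩ |
          a1 | a1
        · rcases c.cases2 ht h6 hW hNO' d2 with ⟨a2, -⟩ | ⟨x, y, z, a, b⟩ | a2 | a2
          · linarith
          · exact (tn a b1 b2 b3 b4).elim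
          · exact absurd a2 d1
          · linarith
        · rcases c.cases2 ht h6 hW hNO' d2 with ⟨a2, q', b1, b2, b3, b4⟩ |
            ⟨x2, y2, z2, a2, b2⟩ | a2 | a2
          · exact (tn a b1 b2 b3 b4).elim
          · exact c.double h6 hW hNO hl hl2 a a2 b b2 hr3
          · exact absurd a2 d1
          · linarith
        · exact absurd a1 d2
        · exact a1
      linarith
  · have h4 : (3 : ℤ) ≤ ((G.NO Fa q).card : ℤ) := by exact_mod_cast h3
    push_cast at hb
    linarith [hr.1]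

end CG

end Pool.Agent.Lib.MP_e95c01_co.N
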