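import Pool.Agent.Lib.MP_e95c01_co.X.C7b3_88

/-!
# `λ = 3`, thick torsos: C7b, twin vertices in no neighbourhood (helper88)
-/

namespace Pool.Agent.Lib.MP_e95c01_co.N

open Finset

variable {V : Type} [Fintype V] [DecidableEq V]

namespace CG

namespace C7b88

variable {G : CG V} {Fa : Finset (Finset V)}

open K28

/-- a vertex in no neighbourhood outside of `N B`: `Co B` has at least four vertices -/
theorem Co_four (hG : G.Gen6 Fa) {B : Finset V} (hB : B ∈ Fa) {q : V} (hqR : q ∈ R Fa)
    (hq : q ∈ G.Co B) (h3 : 3 ≤ (G.Co B).card) : 4 ≤ (G.Co B).card := by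
  by_contra hcon
  have hr := hG.g5.reg
  have e3 : (G.Co B).card = 3 := by omega
  have hone : ∀ B' ∈ Fa, B' = B := by
    intro B' hB'
    by_contra hne
    have h1 : B' ⊆ G.Co B := by
      intro x hx
      have hd := hr.dis B hB B' hB' (fun e => hne e.symm)
      exact mem_Co76.2 ⟨fun h => disjoint_left.1 hd.1 h hx, fun h => disjoint_left.1 hd.2 h hx⟩
    have h2 := hG.g5.big B' hB'
    have h4 : B' = G.Co B := eq_of_subset_of_card_le h1 (by omega)
    exact mem_R76.1 hqR B' hB' (h4 ▸ hq)
  have hfr := hr.frag B hB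
  have hbig : G.Big (G.Co B) := by
    have e1 := G.stCo_37 B hfr
    refine ⟨⟨card_pos.1 (by omega), by rw [e1.2.1]; exact hfr.2.1, ?_⟩, h3, ?_⟩
    · rw [e1.2.2]
      exact hfr.1
    · rw [e1.2.2]
      exact hG.g5.big B hB
  have h5 := (hG.g5.nobig (G.Co B) hbig (by
    intro z hz
    obtain ⟨h6, h7⟩ := mem_Co76.1 hz
    refine ⟨mem_R76.2 fun B' hB' => by rw [hone B' hB']; exact h6, ?_⟩
    rw [eq_empty_iff_forall_notMem]
    intro B' hB'
    have h8 := mem_I76.1 hB'
    rw [hone B' h8.1] at h8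
    exact h7 h8.2)).1
  omega

/-- no claimant near a pair of twins with two lows and four hubs -/
theorem not204 (hG : G.Gen6 Fa) (h1 : G.StM1) {q z c p : V} (hqR : q ∈ R Fa)
    (hq0 : G.I Fa q = ∅) (hp : G.Tw q p) (h : Cl G Fa q z c) {x y u w : V}
    (hnb : G.nb q = {p, z, c, x, y, u, w}) (hx : G.Hub x) (hy : G.Hub y) (hu : G.Hub u)
    (hw : G.Hub w) : False := by
  have h9 := hG.g5.n9
  have hr := hG.g5.reg
  have hqt : G.IsTw q := ⟨p, hp⟩
  have hpI := twI88 hr hqR hp
  obtain ⟨k1, k2, k3⟩ := h1.t204 Fa hG q hqR p hp hq0 z c x y u w hnb h.lowz h.lowc hx hy hu hw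
  have hzq : z ∈ G.nb q := by rw [hnb]; simp
  have hcq : c ∈ G.nb q := by rw [hnb]; simp
  cases h with
  | A g1 g2 g3 =>
    rename_i p1 q' p' x'
    have := lq_D0_86 hG.g5 (by have := hG.n13; omega) g1.low hp
      (by rw [g1.nb]; simp) ⟨g1.lR, g1.I0⟩ ⟨hqR, hq0⟩ ⟨hpI.1, by rw [hpI.2, hq0]⟩
    omega
  | S g1 g2 g3 =>
    rename_i B p1 y1
    obtain ⟨b, b', hb, hb', hnbz, -⟩ := S_nb hG g1 hq0 hqR
    obtain ⟨hB, -⟩ := L1.mem g1.toL1
    have hsub : G.nb z ∩ G.nb q ⊆ {c, p1, y1} := by
      intro v hv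
      rw [mem_inter, hnbz] at hv
      obtain ⟨hv1, hv2⟩ := hv
      have hvR : v ∈ R Fa := nb_R76 hqR hq0 hv2
      simp only [mem_insert, mem_singleton] at hv1 ⊢
      rcases hv1 with e | e | e | e | e | e
      · exact absurd e.symm (ne_of_R hB hb hvR)
      · exact absurd e.symm (ne_of_R hB hb' hvR)
      · exact Or.inl e
      · rw [e] at hv2
        exact absurd hv2 (G.irr q)
      · exact Or.inr (Or.inl e)
      · exact Or.inr (Or.inr e)
    have := card_le_card hsub
    have := card_le_three (a := c) (b := p1) (c := y1)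
    omega
  | E g1 g2 g3 =>
    rename_i B p1
    obtain rfl : p = p1 := (stTwHL_5 G).uniq h9 _ _ _ hp g1.t
    obtain ⟨hB, hlB⟩ := L1.mem g1.toL1
    have hL := E_I hG g1 hq0 hqR g3
    obtain ⟨o1, o2, o3⟩ := E_out hG g1 hq0 hqR g3
    obtain ⟨e1, e2, e3, e4, e5⟩ := E_nb g1
    obtain ⟨t1, t2, t3⟩ := h1.tight Fa hG q hqR hqt hq0 z hzq g1.low k1
    obtain ⟨s1, s2, s3⟩ := h1.tight Fa hG q hqR hqt hq0 c hcq g1.dl k2
    have hqp : q ≠ p := ne_of_nb5 hp.1
    have hqC : q ∈ G.Co B := (mem_inter.1 o2).2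
    have hpC : p ∈ G.Co B := (mem_inter.1 o3).2
    -- the third outer neighbour of `c`
    obtain ⟨y1, hy1⟩ : ∃ y1, ((G.pO B c).erase q).erase p = {y1} := by
      apply card_eq_one.1
      rw [card_erase_of_mem (mem_erase.2 ⟨hqp.symm, o3⟩), card_erase_of_mem o2, o1]
    have hO : ∀ v ∈ G.pO B c, v = q ∨ v = p ∨ v = y1 := by
      intro v hv
      by_cases c1 : v = q
      · exact Or.inl c1
      by_cases c2 : v = p
      · exact Or.inr (Or.inl c2)
      · have : v ∈ ((G.pO B c).erase q).erase p := mem_erase.2 ⟨c2, mem_erase.2 ⟨c1, hv⟩⟩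
        rw [hy1, mem_singleton] at this
        exact Or.inr (Or.inr this)
    -- the neighbours of `q` in `Co B`
    have hqO : ∀ v ∈ G.nb q, v ∈ G.Co B → v = p ∨ v = y1 := by
      intro v hv hvC
      have hvq : v ≠ q := fun e => G.irr q (e ▸ hv)
      have hhub : v ∈ ({x, y, u, w} : Finset V) → v = p ∨ v = y1 := by
        intro h5
        have hvh : G.Hub v := by
          simp only [mem_insert, mem_singleton] at h5
          rcases h5 with rfl | rfl | rfl | rfl <;> assumption
        rcases k3 v h5 with h6 | h6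
        · have h7 : v ∈ G.pO B z := mem_inter.2 ⟨h6, hvC⟩
          rw [g1.out, mem_insert, mem_singleton] at h7
          rcases h7 with h7 | h7
          · exact absurd h7 hvq
          · exact Or.inl h7
        · rcases hO v (mem_inter.2 ⟨h6, hvC⟩) with h7 | h7 | h7
          · exact absurd h7 hvq
          · exact Or.inl h7
          · exact Or.inr h7
      rw [hnb] at hv
      simp only [mem_insert, mem_singleton] at hv
      rcases hv with h5 | h5 | h5 | h5 | h5 | h5 | h5
      · exact Or.inl h5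
      · rw [h5] at hvC
        exact absurd hlB (mem_Co76.1 hvC).2
      · rw [h5] at hvC
        exact absurd e2 (mem_Co76.1 hvC).2
      · exact hhub (by simp [h5])
      · exact hhub (by simp [h5])
      · exact hhub (by simp [h5])
      · exact hhub (by simp [h5])
    -- the set `B ∪ {z, c, q, p}`
    have hNB : (G.N B).card = 6 := (hr.frag B hB).2.1
    have hzc : z ≠ c := ne_of_nb5 e1
    have hCo3 : 3 ≤ (G.Co B).card := by
      have h5 : G.pO B c ⊆ G.Co B := inter_subset_right
      have := card_le_card h5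
      omega
    have hCo4 := Co_four hG hB hqR hqC hCo3
    have hsub : G.N (B ∪ {z, c, q, p}) ⊆ ((G.N B).erase z).erase c ∪ {y1} := by
      intro v hv
      obtain ⟨hv1, a, ha, hva⟩ := mem_N76.1 hv
      rw [mem_union, not_or] at hv1
      obtain ⟨hvB, hv2⟩ := hv1
      simp only [mem_insert, mem_singleton, not_or] at hv2
      obtain ⟨n1, n2, n3, n4⟩ := hv2
      rw [mem_union]
      by_cases hvN : v ∈ G.N B
      · exact Or.inl (mem_erase.2 ⟨n2, mem_erase.2 ⟨n1, hvN⟩⟩)
      right
      rw [mem_singleton]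
      have hvC : v ∈ G.Co B := mem_Co76.2 ⟨hvB, hvN⟩
      rw [mem_union] at ha
      rcases ha with ha | ha
      · exact absurd (mem_N76.2 ⟨hvB, a, ha, hva⟩) hvN
      · simp only [mem_insert, mem_singleton] at ha
        rcases ha with ha | ha | ha | ha
        · rw [ha] at hva
          have h7 : v ∈ G.pO B z := mem_inter.2 ⟨hva, hvC⟩
          rw [g1.out, mem_insert, mem_singleton] at h7
          exact absurd h7 (by tauto)
        · rw [ha] at hva
          rcases hO v (mem_inter.2 ⟨hva, hvC⟩) with h7 | h7 | h7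
          · exact absurd h7 n3
          · exact absurd h7 n4
          · exact h7
        · rw [ha] at hva
          rcases hqO v hva hvC with h7 | h7
          · exact absurd h7 n4
          · exact h7
        · rw [ha] at hva
          have h8 : v ∈ G.nb q := Tw_nb5 (tw_symm76 hp) hva n3
          rcases hqO v h8 hvC with h7 | h7
          · exact absurd h7 n4
          · exact h7
    have h5 := card_le_card hsub
    have h6 := card_union_le (((G.N B).erase z).erase c) {y1}
    have h7 : (((G.N B).erase z).erase c).card = 4 := by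
      rw [card_erase_of_mem (mem_erase.2 ⟨hzc.symm, e2⟩), card_erase_of_mem hlB, hNB]
    rw [card_singleton] at h6
    have h8 := card_union_le B {z, c, q, p}
    have h10 := card_le_four (a := z) (b := c) (c := q) (d := p)
    have h11 := card_Co86 G B
    have h12 := six_le86 G (S := B ∪ {z, c, q, p}) ⟨z, by simp⟩ (by omega)
    omega

/-- the cover of a twin neighbour: a common low vertex or another common pair -/
theorem cov_pair (hG : G.Gen6 Fa) {q p e f : V} (hqR : q ∈ R Fa) (hq0 : G.I Fa q = ∅)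
    (hp : G.Tw q p) (he : G.Tw e f) (heq : e ∈ G.nb q) :
    (∃ w, G.Low w ∧ w ∈ G.nb q ∧ w ∈ G.nb e) ∨
    (∃ e' f', G.Tw e' f' ∧ e' ∈ G.nb q ∧ f' ∈ G.nb q ∧ e' ∈ G.nb e ∧ f' ∈ G.nb e) := by
  have heR := nb_R76 hqR hq0 heq
  rcases cov_qh86 hG.g5 hqR ⟨p, hp⟩ (mem_nR76.2 ⟨heq, heR⟩)
    (by rw [m, hq0, empty_inter, card_empty]) (tw_not_low76 (tw_of76 he)) with
    ⟨w, h1, h2, h3⟩ | ⟨v, w, h1, h2, h3, h4, h5⟩
  · exact Or.inl ⟨w, h3, (mem_nR76.1 h1).1, (mem_nR76.1 h2).1⟩
  · exact Or.inr ⟨v, w, h5, (mem_nR76.1 h1).1, (mem_nR76.1 h2).1, (mem_nR76.1 h3).1,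
      (mem_nR76.1 h4).1⟩

/-- three mutually adjacent pairs -/
theorem inK6 (hG : G.Gen6 Fa) {q p e f e' f' : V} (hqR : q ∈ R Fa) (hq0 : G.I Fa q = ∅)
    (hp : G.Tw q p) (he : G.Tw e f) (he' : G.Tw e' f') (heq : e ∈ G.nb q) (hn : ¬ G.Tw q e)
    (h1 : e' ∈ G.nb q) (h2 : f' ∈ G.nb q) (h3 : e' ∈ G.nb e) (h4 : f' ∈ G.nb e) :
    G.InK6 Fa q := by
  have h9 := hG.g5.n9
  have hr := hG.g5.reg
  have hun := (stTwHL_5 G).uniq h9
  have hfq : f ∈ G.nb q := tw_nb he heq (by rintro rfl; exact hn (tw_symm76 he))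
  have a1 : q ≠ p := ne_of_nb5 hp.1
  have a2 : q ≠ e := ne_of_nb5 heq
  have a3 : q ≠ f := ne_of_nb5 hfq
  have a4 : q ≠ e' := ne_of_nb5 h1
  have a5 : q ≠ f' := ne_of_nb5 h2
  have a6 : p ≠ e := fun h => hn (by rw [← h]; exact hp)
  have a7 : p ≠ f := fun h => a2 (hun _ _ _ (tw_symm76 hp) (by rw [h]; exact tw_symm76 he))
  have a8 : p ≠ e' := fun h => a5 (hun _ _ _ (tw_symm76 hp) (by rw [h]; exact he'))
  have a9 : p ≠ f' := fun h => a4 (hun _ _ _ (tw_symm76 hp) (by rw [h]; exact tw_symm76 he'))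
  have a10 : e ≠ f := ne_of_nb5 he.1
  have a11 : e ≠ e' := ne_of_nb5 h3
  have a12 : e ≠ f' := ne_of_nb5 h4
  have a13 : f ≠ e' := fun h => a12 (hun _ _ _ (tw_symm76 he) (by rw [h]; exact he'))
  have a14 : f ≠ f' := fun h => a11 (hun _ _ _ (tw_symm76 he) (by rw [h]; exact tw_symm76 he'))
  have a15 : e' ≠ f' := ne_of_nb5 he'.1
  have cq : G.cl q = G.cl p := hp.2.2
  have ce : G.cl e = G.cl f := he.2.2
  have ce' : G.cl e' = G.cl f' := he'.2.2
  have self : ∀ v : V, v ∈ G.cl v := fun v => mem_insert_self _ _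
  have nbcl : ∀ {u v : V}, u ∈ G.nb v → u ∈ G.cl v := fun h => mem_insert_of_mem h
  have hcard : ({q, p, e, f, e', f'} : Finset V).card = 6 := by
    rw [card_insert_of_notMem, card_insert_of_notMem, card_insert_of_notMem,
      card_insert_of_notMem, card_pair a15]
    · simp [a13, a14]
    · simp [a10, a11, a12]
    · simp [a6, a7, a8, a9]
    · simp [a1, a2, a3, a4, a5]
  -- the three closed neighbourhoods
  have q_q := self q
  have p_q : p ∈ G.cl q := nbcl hp.1
  have e_q : e ∈ G.cl q := nbcl heq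
  have f_q : f ∈ G.cl q := nbcl hfq
  have e'_q : e' ∈ G.cl q := nbcl h1
  have f'_q : f' ∈ G.cl q := nbcl h2
  have q_e : q ∈ G.cl e := cl_symm e_q
  have p_e : p ∈ G.cl e := cl_symm (by rw [← cq]; exact e_q)
  have e_e := self e
  have f_e : f ∈ G.cl e := nbcl he.1
  have e'_e : e' ∈ G.cl e := nbcl h3
  have f'_e : f' ∈ G.cl e := nbcl h4
  have q_e' : q ∈ G.cl e' := cl_symm e'_q
  have p_e' : p ∈ G.cl e' := cl_symm (by rw [← cq]; exact e'_q)
  have e_e' : e ∈ G.cl e' := cl_symm e'_e
  have f_e' : f ∈ G.cl e' := cl_symm (by rw [← ce]; exact e'_e)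
  have e'_e' := self e'
  have f'_e' : f' ∈ G.cl e' := nbcl he'.1
  have hall : ∀ x ∈ ({q, p, e, f, e', f'} : Finset V), ∀ y ∈ ({q, p, e, f, e', f'} : Finset V),
      y ∈ G.cl x := by
    intro x hx y hy
    have hc : G.cl x = G.cl q ∨ G.cl x = G.cl e ∨ G.cl x = G.cl e' := by
      simp only [mem_insert, mem_singleton] at hx
      rcases hx with rfl | rfl | rfl | rfl | rfl | rfl
      · exact Or.inl rfl
      · exact Or.inl cq.symm
      · exact Or.inr (Or.inl rfl)
      · exact Or.inr (Or.inl ce.symm)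
      · exact Or.inr (Or.inr rfl)
      · exact Or.inr (Or.inr ce'.symm)
    simp only [mem_insert, mem_singleton] at hy
    rcases hc with hc | hc | hc <;> rw [hc] <;>
      rcases hy with rfl | rfl | rfl | rfl | rfl | rfl <;> assumption
  have heR := nb_R76 hqR hq0 heq
  have hpI := twI88 hr hqR hp
  have hfI := twI88 hr heR he
  have heR' := nb_R76 hqR hq0 h1
  have hfI' := twI88 hr heR' he'
  refine ⟨{q, p, e, f, e', f'}, ⟨hcard, ?_, ?_⟩, ?_, ?_, by simp⟩
  · intro x hx
    simp only [mem_insert, mem_singleton] at hx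
    rcases hx with rfl | rfl | rfl | rfl | rfl | rfl
    · exact ⟨_, hp⟩
    · exact tw_of76' hp
    · exact ⟨_, he⟩
    · exact tw_of76' he
    · exact ⟨_, he'⟩
    · exact tw_of76' he'
  · intro x hx y hy hne
    have h5 := hall x hx y hy
    rw [cl, mem_insert] at h5
    exact h5.resolve_left (fun h6 => hne h6.symm)
  · intro x hx
    simp only [mem_insert, mem_singleton] at hx
    rcases hx with rfl | rfl | rfl | rfl | rfl | rfl
    exacts [hqR, hpI.1, heR, hfI.1, heR', hfI'.1]
  · intro B hB
    by_contra hcon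
    have hqN : q ∉ G.N B := fun h => by
      have : B ∈ G.I Fa q := mem_I76.2 ⟨hB, h⟩
      rw [hq0] at this
      exact notMem_empty _ this
    have hpN : p ∉ G.N B := fun h => by
      have : B ∈ G.I Fa p := mem_I76.2 ⟨hB, h⟩
      rw [hpI.2, hq0] at this
      exact notMem_empty _ this
    have hfe : ∀ {a b : V}, G.Tw a b → a ∈ R Fa → (a ∈ G.N B ↔ b ∈ G.N B) := by
      intro a b hab haR
      have h5 := twI88 hr haR hab
      constructor
      · intro h6
        have : B ∈ G.I Fa b := by rw [h5.2]; exact mem_I76.2 ⟨hB, h6⟩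
        exact (mem_I76.1 this).2
      · intro h6
        have : B ∈ G.I Fa a := by rw [← h5.2]; exact mem_I76.2 ⟨hB, h6⟩
        exact (mem_I76.1 this).2
    have e1 : e ∈ G.N B := by
      by_contra h5
      have h6 : f ∉ G.N B := fun h => h5 ((hfe he heR).2 h)
      have : ({q, p, e, f, e', f'} : Finset V) ∩ G.N B ⊆ {e', f'} := by
        intro x hx
        rw [mem_inter] at hx
        obtain ⟨hx1, hx2⟩ := hx
        simp only [mem_insert, mem_singleton] at hx1 ⊢
        rcases hx1 with rfl | rfl | rfl | rfl | rfl | rfl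
        · exact absurd hx2 hqN
        · exact absurd hx2 hpN
        · exact absurd hx2 h5
        · exact absurd hx2 h6
        · exact Or.inl rfl
        · exact Or.inr rfl
      have := card_le_card this
      have := card_le_two (a := e') (b := f')
      omega
    have e2 : e' ∈ G.N B := by
      by_contra h5
      have h6 : f' ∉ G.N B := fun h => h5 ((hfe he' heR').2 h)
      have : ({q, p, e, f, e', f'} : Finset V) ∩ G.N B ⊆ {e, f} := by
        intro x hx
        rw [mem_inter] at hx
        obtain ⟨hx1, hx2⟩ := hx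
        simp only [mem_insert, mem_singleton] at hx1 ⊢
        rcases hx1 with rfl | rfl | rfl | rfl | rfl | rfl
        · exact absurd hx2 hqN
        · exact absurd hx2 hpN
        · exact Or.inl rfl
        · exact Or.inr rfl
        · exact absurd hx2 h5
        · exact absurd hx2 h6
      have := card_le_card this
      have := card_le_two (a := e) (b := f)
      omega
    have e3 := (hfe he heR).1 e1
    have e4 := (hfe he' heR').1 e2
    have hBe : B ∈ G.I Fa e := mem_I76.2 ⟨hB, e1⟩
    have nbe : ∀ v ∈ [q, p, f, e', f'], v ∈ G.nb e := by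
      intro v hv
      simp only [List.mem_cons, List.not_mem_nil, or_false] at hv
      have h5 := hall e (by simp) v (by simp; tauto)
      rw [cl, mem_insert] at h5
      refine h5.resolve_left (fun h6 => ?_)
      rcases hv with h7 | h7 | h7 | h7 | h7
      · exact a2 (by rw [← h7, h6])
      · exact a6 (by rw [← h7, h6])
      · exact a10 (by rw [← h7, h6])
      · exact a11 (by rw [← h7, h6])
      · exact a12 (by rw [← h7, h6])
    have c7 : (G.nb e).card = 7 := he.2.1
    have hIe : G.I Fa e = {B} := by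
      rw [eq_singleton_iff_unique_mem]
      refine ⟨hBe, fun C hC => ?_⟩
      by_contra hne
      have d1 := hid_5 hr hG.g5.big heR ⟨f, he⟩ hBe
      have d2 := hid_5 hr hG.g5.big heR ⟨f, he⟩ hC
      have hCF := (mem_I76.1 hC).1
      have hdis : Disjoint (G.nb e ∩ B) (G.nb e ∩ C) :=
        disjoint_of_subset_left inter_subset_right
          (disjoint_of_subset_right inter_subset_right
            (hr.dis B hB C hCF (fun h => hne h.symm)).1)
      have d3 := card_union_of_disjoint hdis
      have hdis2 : Disjoint ((G.nb e ∩ B) ∪ (G.nb e ∩ C)) ([q, p, f, e', f'].toFinset) := by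
        rw [disjoint_left]
        intro v hv hv2
        have hv3 : v ∈ R Fa := by
          rw [List.mem_toFinset] at hv2
          simp only [List.mem_cons, List.not_mem_nil, or_false] at hv2
          rcases hv2 with rfl | rfl | rfl | rfl | rfl
          exacts [hqR, hpI.1, hfI.1, heR', hfI'.1]
        rw [mem_union, mem_inter, mem_inter] at hv
        rcases hv with hv | hv
        · exact mem_R76.1 hv3 B hB hv.2
        · exact mem_R76.1 hv3 C hCF hv.2
      have d4 := card_union_of_disjoint hdis2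
      have d5 : ([q, p, f, e', f'].toFinset).card = 5 := by
        rw [List.toFinset_card_of_nodup (by
          simp [a1, a3, a4, a5, a7, a8, a9, a13, a14, a15])]
        rfl
      have d6 : ((G.nb e ∩ B) ∪ (G.nb e ∩ C)) ∪ ([q, p, f, e', f'].toFinset) ⊆ G.nb e := by
        intro v hv
        rw [mem_union, mem_union] at hv
        rcases hv with (hv | hv) | hv
        · exact (mem_inter.1 hv).1
        · exact (mem_inter.1 hv).1
        · exact nbe v (List.mem_toFinset.1 hv)
      have d7 := card_le_card d6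
      have d1' : 2 ≤ (G.nb e ∩ B).card := d1
      have d2' : 2 ≤ (G.nb e ∩ C).card := d2
      omega
    have d1 := hid_5 hr hG.g5.big heR ⟨f, he⟩ hBe
    have d2 := e1q_86 hG.g5 he heR hIe
    have d3 := d_split76 (G := G) e B
    have d4 := nodup_le (S := G.nb e ∩ G.N B) (l := [f, e', f']) (by
      simp [a13, a14, a15]) (by
      intro v hv
      simp only [List.mem_cons, List.not_mem_nil, or_false] at hv
      rw [mem_inter]
      rcases hv with rfl | rfl | rfl
      · exact ⟨nbe _ (by simp), e3⟩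
      · exact ⟨nbe _ (by simp), e2⟩
      · exact ⟨nbe _ (by simp), e4⟩)
    simp only [List.length_cons, List.length_nil] at d4
    omega

end C7b88

open K28 C7b88 in
/-- C7b -/
theorem stC7b_88 (G : CG V) (h1 : G.StM1) (ht : G.StC7t) : G.StC7b := by
  classical
  intro Fa hG q hqR hqt hq0
  have h9 := hG.g5.n9
  have hr := hG.g5.reg
  obtain ⟨p, hp⟩ := hqt
  have hqt : G.IsTw q := ⟨p, hp⟩
  have hpI := twI88 hr hqR hp
  have hnR : G.nR Fa q = G.nb q := nR_eq76 hqR hq0
  have h7 : (G.nb q).card = 7 := hp.2.1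
  set A := (G.nR Fa q).filter fun x => G.Low x with hA
  set T := (G.nR Fa q).filter fun x => G.IsTw x ∧ ¬ G.Tw q x with hT
  have htl : G.tl Fa q = A.card := rfl
  have htt : G.tt Fa q = T.card := rfl
  have memA : ∀ {z}, z ∈ A ↔ z ∈ G.nb q ∧ G.Low z := by
    intro z
    rw [hA, mem_filter, hnR]
  have memT : ∀ {z}, z ∈ T ↔ z ∈ G.nb q ∧ G.IsTw z ∧ ¬ G.Tw q z := by
    intro z
    rw [hT, mem_filter, hnR]
  have hRq : ∀ {z}, z ∈ G.nb q → z ∈ R Fa := fun h => nb_R76 hqR hq0 h
  -- numbers
  have hnum : A.card + T.card + (G.NH Fa q).card ≤ 6 := by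
    have d1 : Disjoint A T := by
      rw [disjoint_left]
      intro z hz hz'
      exact tw_not_low76 (memT.1 hz').2.1 (memA.1 hz).2
    have d2 : Disjoint (A ∪ T) (G.NH Fa q) := by
      rw [disjoint_left]
      intro z hz hz'
      rw [NH, mem_filter] at hz'
      rw [mem_union] at hz
      rcases hz with hz | hz
      · exact hz'.2.1.1 (memA.1 hz).2
      · exact hz'.2.1.2 (memT.1 hz).2.1
    have d3 : A ∪ T ∪ G.NH Fa q ⊆ (G.nb q).erase p := by
      intro z hz
      rw [mem_union, mem_union] at hz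
      rw [mem_erase]
      rcases hz with (hz | hz) | hz
      · exact ⟨low_ne_tw (memA.1 hz).2 (tw_of76' hp), (memA.1 hz).1⟩
      · exact ⟨fun e => (memT.1 hz).2.2 (by rw [e]; exact hp), (memT.1 hz).1⟩
      · rw [NH, mem_filter, hnR] at hz
        exact ⟨fun e => hz.2.1.2 (by rw [e]; exact tw_of76' hp), hz.1⟩
    have d4 := card_le_card d3
    rw [card_union_of_disjoint d2, card_union_of_disjoint d1, card_erase_of_mem hp.1, h7] at d4
    exact d4
  have hch := (stCh5_28 G).tw0 h9 Fa hr q hqR hqt hq0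
  rw [htl] at hch
  -- the claims
  have hex : ∀ z, ∃ c, G.dn5 Fa q z ≠ 0 → Cl G Fa q z c := by
    intro z
    by_cases h0 : G.dn5 Fa q z = 0
    · exact ⟨z, fun h => absurd h0 h⟩
    · obtain ⟨c, hc⟩ := exists_Cl hG hqR hqt hq0 h0
      exact ⟨c, fun _ => hc⟩
  choose M hM using hex
  have hask : G.ask Fa q = ∑ z ∈ A, G.dn5 Fa q z := by
    rw [ask]
    symm
    refine sum_subset (fun z hz => hRq (memA.1 hz).1) fun z hz hzA => ?_
    by_contra h0
    obtain ⟨k1, k2, -⟩ := ht.low Fa hG q hqR hqt z hz h0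
    exact hzA (memA.2 ⟨k2, k1⟩)
  have hMA : ∀ z ∈ A, G.dn5 Fa q z ≠ 0 → M z ∈ A := fun z _ h0 =>
    memA.2 ⟨(hM z h0).cq hG, (hM z h0).lowc⟩
  have hle2 : ∀ z ∈ A, G.dn5 Fa q z ≤ 2 := fun z hz =>
    ht.one Fa hG q hqR hqt z (hRq (memA.1 hz).1)
  have htot : G.ask Fa q ≤ A.card := by
    rw [hask]
    exact count (fun z _ => dn5_nonneg76 hG q z) hle2 hMA
      (fun z _ h0 => (hM z h0).two hG hqR hqt hq0 ht)
      (fun z _ h0 z' _ h0' he => (hM z h0).inj hG hqR hq0 (by rw [he]; exact hM z' h0'))
  have hin0 : 0 ≤ ∑ x ∈ R Fa, G.dn5 Fa x q := sum_nonneg fun x _ => dn5_nonneg76 hG x q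
  have hK0 : (0 : ℤ) ≤ if G.InK6 Fa q then 2 else 0 := by split_ifs <;> norm_num
  -- the income
  have hin : (G.ch5 Fa q < 0 ∨ (G.tl Fa q = 3 ∧ G.tt Fa q = 0)) →
      2 * ((G.NH Fa q).card : ℤ) ≤ ∑ x ∈ R Fa, G.dn5 Fa x q := by
    intro hc
    have e1 : G.NH Fa q ⊆ R Fa := fun x hx => by
      rw [NH, mem_filter] at hx
      exact (mem_nR76.1 hx.1).2
    have e2 : ∑ x ∈ G.NH Fa q, (2 : ℤ) ≤ ∑ x ∈ G.NH Fa q, G.dn5 Fa x q := by
      refine sum_le_sum fun x hx => ?_
      have hx' := hx
      rw [NH, mem_filter] at hx'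
      have e3 : G.PQ Fa q x := ⟨hqR, hqt, hq0, hc, hx⟩
      rw [dn5_hub76 hx'.2.1, if_pos e3]
      have f1 : (0 : ℤ) ≤ if G.SK Fa q x then 4 else 0 := by split_ifs <;> norm_num
      have f2 : (0 : ℤ) ≤ if G.HD Fa q x then 4 else 0 := by split_ifs <;> norm_num
      have f3 : (0 : ℤ) ≤ if G.HS Fa q x then 2 else 0 := by split_ifs <;> norm_num
      linarith
    rw [sum_const, nsmul_eq_mul] at e2
    have e3 := sum_le_sum_of_subset_of_nonneg e1 (f := fun x => G.dn5 Fa x q)
      fun x _ _ => dn5_nonneg76 hG x q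
    linarith
  have htwo := h1.two Fa hG q hqR hqt hq0
  rw [htl] at htwo
  have hn1 : (A.card : ℤ) + T.card + (G.NH Fa q).card ≤ 6 := by exact_mod_cast hnum
  have hT0 : (0 : ℤ) ≤ T.card := by positivity
  have hH0 : (0 : ℤ) ≤ (G.NH Fa q).card := by positivity
  -- a pair near `q`
  have hpair : ∀ e ∈ T, ∃ f ∈ T, G.Tw e f := by
    intro e he
    obtain ⟨a1, ⟨f, hf⟩, a3⟩ := memT.1 he
    have hqf : q ≠ f := by
      rintro rfl
      exact a3 (tw_symm76 hf)
    refine ⟨f, memT.2 ⟨tw_nb hf a1 hqf, tw_of76' hf, fun h => ?_⟩, hf⟩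
    have : q = e := (stTwHL_5 G).uniq h9 _ _ _ (tw_symm76 h) (tw_symm76 hf)
    rw [← this] at a1
    exact G.irr _ a1
  by_cases c4 : 4 ≤ A.card
  · have : (4 : ℤ) ≤ A.card := by exact_mod_cast c4
    linarith
  by_cases c3 : A.card = 3
  · have c3' : (A.card : ℤ) = 3 := by exact_mod_cast c3
    by_cases t0 : T.card = 0
    · have := hin (Or.inr ⟨by rw [htl, c3], by rw [htt, t0]⟩)
      linarith
    · obtain ⟨e, he⟩ := card_pos.1 (Nat.pos_of_ne_zero t0)
      obtain ⟨f, hf, hef⟩ := hpair e he
      obtain ⟨a1, -, a3⟩ := memT.1 he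
      have hT2 : 2 ≤ T.card := by
        have := nodup_le (S := T) (l := [e, f]) (by simp [ne_of_nb5 hef.1]) (by
          intro u hu
          simp only [List.mem_cons, List.not_mem_nil, or_false] at hu
          rcases hu with rfl | rfl <;> assumption)
        simpa using this
      have hT2' : (2 : ℤ) ≤ T.card := by exact_mod_cast hT2
      suffices h2 : G.ask Fa q ≤ 2 by linarith
      by_cases hno : ∀ z ∈ A, G.dn5 Fa q z = 0
      · rw [hask, sum_eq_zero hno]
        norm_num
      · simp only [not_forall] at hno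
        obtain ⟨z, hz, h0⟩ := hno
        have hc := hM z h0
        have hcA := hMA z hz h0
        have hzc : z ≠ M z := ne_of_nb5 hc.zc
        have n1 := hc.nopair hG hqR hq0 hef a1 a3
        -- the third low vertex
        obtain ⟨w, hw⟩ : ∃ w, (A.erase z).erase (M z) = {w} := by
          apply card_eq_one.1
          rw [card_erase_of_mem (mem_erase.2 ⟨hzc.symm, hcA⟩), card_erase_of_mem hz, c3]
        have hwm : w ∈ (A.erase z).erase (M z) := hw.symm ▸ mem_singleton_self w
        rw [mem_erase, mem_erase] at hwm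
        have hAw : ∀ u ∈ A, u = z ∨ u = M z ∨ u = w := by
          intro u hu
          by_cases b1 : u = z
          · exact Or.inl b1
          by_cases b2 : u = M z
          · exact Or.inr (Or.inl b2)
          · have : u ∈ (A.erase z).erase (M z) := mem_erase.2 ⟨b2, mem_erase.2 ⟨b1, hu⟩⟩
            rw [hw, mem_singleton] at this
            exact Or.inr (Or.inr this)
        have hwe : w ∈ G.nb e := by
          rcases cov_pair hG hqR hq0 hp hef a1 with ⟨u, b1, b2, b3⟩ | ⟨e', f', b1, b2, b3, b4, b5⟩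
          · rcases hAw u (memA.2 ⟨b2, b1⟩) with rfl | rfl | rfl
            · exact absurd (G.sym _ _ b3) n1.1
            · exact absurd (G.sym _ _ b3) n1.2
            · exact b3
          · exfalso
            have b6 : ¬ G.Tw q e' := by
              intro h
              have : q = f' := (stTwHL_5 G).uniq h9 _ _ _ (tw_symm76 h) b1
              rw [← this] at b3
              exact G.irr _ b3
            have b7 : ¬ G.Tw q f' := by
              intro h
              have : q = e' := (stTwHL_5 G).uniq h9 _ _ _ (tw_symm76 h) (tw_symm76 b1)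
              rw [← this] at b2
              exact G.irr _ b2
            have m1 : e' ∈ T := memT.2 ⟨b2, tw_of76 b1, b6⟩
            have m2 : f' ∈ T := memT.2 ⟨b3, tw_of76' b1, b7⟩
            have g1 : e ≠ e' := ne_of_nb5 b4
            have g2 : e ≠ f' := ne_of_nb5 b5
            have g3 : f ≠ e' := fun h => g2 ((stTwHL_5 G).uniq h9 _ _ _ (tw_symm76 hef)
              (by rw [h]; exact b1))
            have g4 : f ≠ f' := fun h => g1 ((stTwHL_5 G).uniq h9 _ _ _ (tw_symm76 hef)
              (by rw [h]; exact tw_symm76 b1))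
            have := nodup_le (S := T) (l := [e, f, e', f']) (by
              simp [ne_of_nb5 hef.1, ne_of_nb5 b1.1, g1, g2, g3, g4]) (by
              intro u hu
              simp only [List.mem_cons, List.not_mem_nil, or_false] at hu
              rcases hu with rfl | rfl | rfl | rfl <;> assumption)
            simp only [List.length_cons, List.length_nil] at this
            omega
        have hw0 : G.dn5 Fa q w = 0 := by
          by_contra h0w
          exact ((hM w h0w).nopair hG hqR hq0 hef a1 a3).1 (G.sym _ _ hwe)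
        have e1 := add_sum_erase A (fun u => G.dn5 Fa q u) hz
        have e2 := add_sum_erase (A.erase z) (fun u => G.dn5 Fa q u)
          (mem_erase.2 ⟨hzc.symm, hcA⟩)
        rw [hw, sum_singleton, hw0] at e2
        have e3 := hc.two hG hqR hqt hq0 ht
        rw [hask]
        linarith
  have c2 : A.card = 2 := by omega
  have c2' : (A.card : ℤ) = 2 := by exact_mod_cast c2
  by_cases hno : ∀ z ∈ A, G.dn5 Fa q z = 0
  · rw [hask, sum_eq_zero hno]
    by_cases hneg : G.ch5 Fa q < 0
    · have := hin (Or.inl hneg)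
      linarith
    · linarith
  · simp only [not_forall] at hno
    obtain ⟨z, hz, h0⟩ := hno
    have hc := hM z h0
    have hcA := hMA z hz h0
    have hzc : z ≠ M z := ne_of_nb5 hc.zc
    have hAeq : A = {z, M z} := by
      symm
      refine eq_of_subset_of_card_le ?_ (by rw [c2, card_pair hzc])
      intro u hu
      rw [mem_insert, mem_singleton] at hu
      rcases hu with rfl | rfl <;> assumption
    by_cases t0 : T.card = 0
    · -- four hubs
      exfalso
      have hTe : T = ∅ := card_eq_zero.1 t0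
      have hzp : z ≠ p := low_ne_tw hc.lowz (tw_of76' hp)
      have hcp : M z ≠ p := low_ne_tw hc.lowc (tw_of76' hp)
      have hm1 : z ∈ (G.nb q).erase p := mem_erase.2 ⟨hzp, (memA.1 hz).1⟩
      have hm2 : M z ∈ ((G.nb q).erase p).erase z :=
        mem_erase.2 ⟨hzc.symm, mem_erase.2 ⟨hcp, (memA.1 hcA).1⟩⟩
      have hcard : ((((G.nb q).erase p).erase z).erase (M z)).card = 4 := by
        rw [card_erase_of_mem hm2, card_erase_of_mem hm1, card_erase_of_mem hp.1, h7]
      have hhub : ∀ v ∈ (((G.nb q).erase p).erase z).erase (M z), G.Hub v := by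
        intro v hv
        rw [mem_erase, mem_erase, mem_erase] at hv
        obtain ⟨v1, v2, v3, v4⟩ := hv
        refine ⟨fun hl => ?_, fun hl => ?_⟩
        · have : v ∈ A := memA.2 ⟨v4, hl⟩
          rw [hAeq, mem_insert, mem_singleton] at this
          exact this.elim v2 v1
        · have : v ∈ T := memT.2 ⟨v4, hl, fun h => v3 ((stTwHL_5 G).uniq h9 _ _ _ h hp)⟩
          rw [hTe] at this
          exact notMem_empty _ this
      obtain ⟨x, hx⟩ := card_pos.1 (show 0 < ((((G.nb q).erase p).erase z).erase (M z)).card by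
        omega)
      have hcard3 : (((((G.nb q).erase p).erase z).erase (M z)).erase x).card = 3 := by
        rw [card_erase_of_mem hx, hcard]
      obtain ⟨y, u, w, n1, n2, n3, h3⟩ := card_eq_three.1 hcard3
      have hy : y ∈ (((((G.nb q).erase p).erase z).erase (M z)).erase x) := by rw [h3]; simp
      have hu : u ∈ (((((G.nb q).erase p).erase z).erase (M z)).erase x) := by rw [h3]; simp
      have hw : w ∈ (((((G.nb q).erase p).erase z).erase (M z)).erase x) := by rw [h3]; simp
      refine not204 hG h1 hqR hq0 hp hc (x := x) (y := y) (u := u) (w := w) ?_ (hhub x hx)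
        (hhub y (mem_erase.1 hy).2) (hhub u (mem_erase.1 hu).2) (hhub w (mem_erase.1 hw).2)
      rw [← insert_erase hp.1, ← insert_erase hm1, ← insert_erase hm2, ← insert_erase hx, h3]
    · -- a `K6`
      obtain ⟨e, he⟩ := card_pos.1 (Nat.pos_of_ne_zero t0)
      obtain ⟨f, hf, hef⟩ := hpair e he
      obtain ⟨a1, -, a3⟩ := memT.1 he
      have n1 := hc.nopair hG hqR hq0 hef a1 a3
      rcases cov_pair hG hqR hq0 hp hef a1 with ⟨u, b1, b2, b3⟩ | ⟨e', f', b1, b2, b3, b4, b5⟩
      · exfalso
        have : u ∈ A := memA.2 ⟨b2, b1⟩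
        rw [hAeq, mem_insert, mem_singleton] at this
        rcases this with rfl | rfl
        · exact n1.1 (G.sym _ _ b3)
        · exact n1.2 (G.sym _ _ b3)
      · have hK := inK6 hG hqR hq0 hp hef b1 a1 a3 b2 b3 b4 b5
        have b6 : ¬ G.Tw q e' := by
          intro h
          have : q = f' := (stTwHL_5 G).uniq h9 _ _ _ (tw_symm76 h) b1
          rw [← this] at b3
          exact G.irr _ b3
        have b7 : ¬ G.Tw q f' := by
          intro h
          have : q = e' := (stTwHL_5 G).uniq h9 _ _ _ (tw_symm76 h) (tw_symm76 b1)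
          rw [← this] at b2
          exact G.irr _ b2
        have m1 : e' ∈ T := memT.2 ⟨b2, tw_of76 b1, b6⟩
        have m2 : f' ∈ T := memT.2 ⟨b3, tw_of76' b1, b7⟩
        have g1 : e ≠ e' := ne_of_nb5 b4
        have g2 : e ≠ f' := ne_of_nb5 b5
        have g3 : f ≠ e' := fun h => g2 ((stTwHL_5 G).uniq h9 _ _ _ (tw_symm76 hef)
          (by rw [h]; exact b1))
        have g4 : f ≠ f' := fun h => g1 ((stTwHL_5 G).uniq h9 _ _ _ (tw_symm76 hef)
          (by rw [h]; exact tw_symm76 b1))
        have h4 := nodup_le (S := T) (l := [e, f, e', f']) (by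
          simp [ne_of_nb5 hef.1, ne_of_nb5 b1.1, g1, g2, g3, g4]) (by
          intro u hu
          simp only [List.mem_cons, List.not_mem_nil, or_false] at hu
          rcases hu with rfl | rfl | rfl | rfl <;> assumption)
        simp only [List.length_cons, List.length_nil] at h4
        have h4' : (4 : ℤ) ≤ T.card := by exact_mod_cast h4
        rw [if_pos hK]
        linarith

end CG

end Pool.Agent.Lib.MP_e95c01_co.N
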