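import Pool.Agent.Lib.MP_e95c01_co.X.K3a_28

/-!
# `λ = 3`, thick torsos: flags of a low vertex, case distinction
-/

namespace Pool.Agent.Lib.MP_e95c01_co.N

open Finset

variable {V : Type} [Fintype V] [DecidableEq V]

namespace CG

namespace K28

variable {G : CG V} {Fa : Finset (Finset V)}

theorem tw_ne {v w : V} (h : G.Tw v w) : v ≠ w := ne_of_nb5 h.1

theorem S0_card {S : Finset V} {z v : V} (h : G.S0 S z v) :
    (G.pX S z).card = 2 ∧ (G.pT S z).card = 1 := by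
  obtain ⟨-, -, -, h1, ⟨q, q', h2, h3, -⟩, -⟩ := h
  rw [h1, h3]
  exact ⟨card_pair (tw_ne h2), card_singleton _⟩

theorem PairSet_card {A : Finset V} (h : G.PairSet A) : A.card = 2 := by
  obtain ⟨v, w, h1, h2⟩ := h
  rw [h2]
  exact card_pair (tw_ne h1)

theorem PairSet_tw (h9 : 9 ≤ Fintype.card V) {A : Finset V} (h : G.PairSet A) {x : V}
    (hx : x ∈ A) : G.IsTw x := by
  obtain ⟨v, w, h1, h2⟩ := h
  rw [h2, mem_insert, mem_singleton] at hx
  rcases hx with rfl | rfl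
  · exact ⟨w, h1⟩
  · exact ⟨v, (stTwHL_5 G).symm _ _ h1⟩

theorem U3_card {S : Finset V} {z : V} (h : G.U3 S z) :
    (G.pX S z).card = 3 ∧ (G.pT S z).card = 2 :=
  ⟨h.2.2.1, PairSet_card h.2.2.2⟩

theorem T3_card {S : Finset V} {z : V} (h : G.T3 S z) :
    (G.pX S z).card = 2 ∧ (G.pT S z).card = 2 ∧ (G.pO S z).card = 2 := by
  obtain ⟨-, -, h1, Q, Q', r, r', hh, t1, t2, -, h2, h3, -⟩ := h
  rw [h2, h3]
  exact ⟨h1, card_pair (tw_ne t1), card_pair (tw_ne t2)⟩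

theorem T3_pair {S : Finset V} {z : V} (h : G.T3 S z) : G.PairSet (G.pT S z) := by
  obtain ⟨-, -, h1, Q, Q', r, r', hh, t1, t2, -, h2, -⟩ := h
  exact ⟨Q, Q', t1, h2⟩

theorem HF_card {S : Finset V} {z : V} (h : G.HF S z) :
    (G.pX S z).card = 4 ∧ (G.pT S z).card = 1 := by
  obtain ⟨-, -, h1, a, b, -, -, -, h2⟩ := h
  rw [h2]
  exact ⟨h1, card_singleton _⟩

theorem six_low {z : V} (hz : G.Low z) (B : Finset V) :
    (G.nb z ∩ B).card + (G.nb z ∩ G.N B).card + (G.nb z ∩ G.Co B).card = 6 := by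
  have h1 := d_split76 (G := G) z B
  have h6 : (G.nb z).card = 6 := hz
  rw [h6] at h1
  unfold d at h1
  omega

theorem pT_Co {B : Finset V} (hB : G.Frag B) (z : V) : G.pT (G.Co B) z = G.pT B z := by
  rw [pT, pT, (G.stCo_37 B hB).2.1]

theorem pO_Co {B : Finset V} (hB : G.Frag B) (z : V) : G.pO (G.Co B) z = G.nb z ∩ B := by
  rw [pO, (G.stCo_37 B hB).2.2]

/-- the four cases of a negative contribution -/
theorem ff_cases {B : Finset V} (hB : G.Frag B) {z : V} (hz : G.Low z) :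
    0 ≤ ff G B z ∨ (-2 ≤ ff G B z ∧
      ((∃ v, G.S0 B z v ∧ - G.s5 B z ≤ ff G B z) ∨ G.U3 B z ∨ G.T3 (G.Co B) z ∨
        G.HF (G.Co B) z)) := by
  classical
  have h6 := six_low hz B
  have hf : ff G B z = (G.s5 (G.Co B) z + 2 * (if G.U3 (G.Co B) z then (1 : ℤ) else 0) -
      2 * (if G.T3 (G.Co B) z then (1 : ℤ) else 0) - 2 * (if G.HF (G.Co B) z then (1 : ℤ) else 0)) -
      (G.s5 B z + 2 * (if G.U3 B z then (1 : ℤ) else 0) - 2 * (if G.T3 B z then (1 : ℤ) else 0) -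
        2 * (if G.HF B z then (1 : ℤ) else 0)) := by
    rw [ff, flv_low hz, flv_low hz]
  have n1 := s5_nonneg (G := G) (G.Co B) z
  have n2 : (0 : ℤ) ≤ (if G.U3 (G.Co B) z then (1 : ℤ) else 0) := by split_ifs <;> norm_num
  have n3 : (0 : ℤ) ≤ (if G.T3 B z then (1 : ℤ) else 0) := by split_ifs <;> norm_num
  have n4 : (0 : ℤ) ≤ (if G.HF B z then (1 : ℤ) else 0) := by split_ifs <;> norm_num
  have n5 := s5_le (G := G) B z
  have c1 : ∀ v, G.S0 B z v → (G.nb z ∩ B).card = 2 ∧ (G.nb z ∩ G.N B).card = 1 :=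
    fun v h => S0_card h
  have c2 : G.U3 B z → (G.nb z ∩ B).card = 3 ∧ (G.nb z ∩ G.N B).card = 2 := fun h => U3_card h
  have c3 : G.T3 (G.Co B) z → (G.nb z ∩ G.Co B).card = 2 ∧ (G.nb z ∩ G.N B).card = 2 := by
    intro h
    have h1 := T3_card h
    rw [pT_Co hB] at h1
    exact ⟨h1.1, h1.2.1⟩
  have c4 : G.HF (G.Co B) z → (G.nb z ∩ G.Co B).card = 4 ∧ (G.nb z ∩ G.N B).card = 1 := by
    intro h
    have h1 := HF_card h
    rw [pT_Co hB] at h1
    exact h1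
  by_cases a1 : ∃ v, G.S0 B z v
  · obtain ⟨v, hv⟩ := a1
    have k1 := c1 v hv
    have e2 : ¬ G.U3 B z := fun h => by have := c2 h; omega
    have e3 : ¬ G.T3 (G.Co B) z := fun h => by have := c3 h; omega
    have e4 : ¬ G.HF (G.Co B) z := fun h => by have := c4 h; omega
    rw [if_neg e2, if_neg e3, if_neg e4] at hf
    exact Or.inr ⟨by linarith, Or.inl ⟨v, hv, by linarith⟩⟩
  · have z1 : G.s5 B z = 0 := s5_zero fun v h => a1 ⟨v, h⟩
    rw [z1] at hf
    by_cases a2 : G.U3 B z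
    · have k1 := c2 a2
      have e3 : ¬ G.T3 (G.Co B) z := fun h => by have := c3 h; omega
      have e4 : ¬ G.HF (G.Co B) z := fun h => by have := c4 h; omega
      rw [if_pos a2, if_neg e3, if_neg e4] at hf
      exact Or.inr ⟨by linarith, Or.inr (Or.inl a2)⟩
    · rw [if_neg a2] at hf
      by_cases a3 : G.T3 (G.Co B) z
      · have k1 := c3 a3
        have e4 : ¬ G.HF (G.Co B) z := fun h => by have := c4 h; omega
        rw [if_pos a3, if_neg e4] at hf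
        exact Or.inr ⟨by linarith, Or.inr (Or.inr (Or.inl a3))⟩
      · rw [if_neg a3] at hf
        by_cases a4 : G.HF (G.Co B) z
        · rw [if_pos a4] at hf
          exact Or.inr ⟨by linarith, Or.inr (Or.inr (Or.inr a4))⟩
        · rw [if_neg a4] at hf
          exact Or.inl (by linarith)

theorem ff_ge {B : Finset V} (hB : G.Frag B) {z : V} (hz : G.Low z) : -2 ≤ ff G B z := by
  rcases ff_cases hB hz with h | h
  · linarith
  · exact h.1

/-- with a positive flag as well -/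
theorem ff_pos {B : Finset V} (hB : G.Frag B) {z : V} (hz : G.Low z)
    (h1 : G.U3 (G.Co B) z ∨ G.T3 B z ∨ G.HF B z) (h2 : ∀ v, ¬ G.S0 B z v) (h3 : ¬ G.U3 B z)
    (h4 : ¬ G.T3 (G.Co B) z) (h5 : ¬ G.HF (G.Co B) z) : 2 ≤ ff G B z := by
  classical
  have n1 := s5_nonneg (G := G) (G.Co B) z
  have hf : ff G B z = (G.s5 (G.Co B) z + 2 * (if G.U3 (G.Co B) z then (1 : ℤ) else 0) -
      2 * (if G.T3 (G.Co B) z then (1 : ℤ) else 0) - 2 * (if G.HF (G.Co B) z then (1 : ℤ) else 0)) -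
      (G.s5 B z + 2 * (if G.U3 B z then (1 : ℤ) else 0) - 2 * (if G.T3 B z then (1 : ℤ) else 0) -
        2 * (if G.HF B z then (1 : ℤ) else 0)) := by
    rw [ff, flv_low hz, flv_low hz]
  rw [s5_zero h2, if_neg h3, if_neg h4, if_neg h5] at hf
  have n2 : (0 : ℤ) ≤ (if G.U3 (G.Co B) z then (1 : ℤ) else 0) := by split_ifs <;> norm_num
  have n3 : (0 : ℤ) ≤ (if G.T3 B z then (1 : ℤ) else 0) := by split_ifs <;> norm_num
  have n4 : (0 : ℤ) ≤ (if G.HF B z then (1 : ℤ) else 0) := by split_ifs <;> norm_num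
  rcases h1 with h1 | h1 | h1
  · rw [if_pos h1] at hf
    linarith
  · rw [if_pos h1] at hf
    linarith
  · rw [if_pos h1] at hf
    linarith

/-- only `S0` on both sides -/
theorem ff_S0 {B : Finset V} (hB : G.Frag B) {z : V} (hz : G.Low z) (h3 : ¬ G.U3 B z)
    (h4 : ¬ G.T3 (G.Co B) z) (h5 : ¬ G.HF (G.Co B) z) :
    G.s5 (G.Co B) z - G.s5 B z ≤ ff G B z := by
  classical
  have hf : ff G B z = (G.s5 (G.Co B) z + 2 * (if G.U3 (G.Co B) z then (1 : ℤ) else 0) -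
      2 * (if G.T3 (G.Co B) z then (1 : ℤ) else 0) - 2 * (if G.HF (G.Co B) z then (1 : ℤ) else 0)) -
      (G.s5 B z + 2 * (if G.U3 B z then (1 : ℤ) else 0) - 2 * (if G.T3 B z then (1 : ℤ) else 0) -
        2 * (if G.HF B z then (1 : ℤ) else 0)) := by
    rw [ff, flv_low hz, flv_low hz]
  rw [if_neg h3, if_neg h4, if_neg h5] at hf
  have n2 : (0 : ℤ) ≤ (if G.U3 (G.Co B) z then (1 : ℤ) else 0) := by split_ifs <;> norm_num
  have n3 : (0 : ℤ) ≤ (if G.T3 B z then (1 : ℤ) else 0) := by split_ifs <;> norm_num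
  have n4 : (0 : ℤ) ≤ (if G.HF B z then (1 : ℤ) else 0) := by split_ifs <;> norm_num
  linarith

/-- a low vertex in `pT`: no other negative flags -/
theorem low_pT {B : Finset V} (h9 : 9 ≤ Fintype.card V) (hB : G.Frag B) {z v : V}
    (hv : G.Low v) (h : v ∈ G.pT B z) :
    ¬ G.U3 B z ∧ ¬ G.T3 (G.Co B) z ∧ ¬ G.HF (G.Co B) z := by
  refine ⟨fun h1 => ?_, fun h1 => ?_, fun h1 => ?_⟩
  · exact tw_not_low11 (PairSet_tw h9 h1.2.2.2 h) hv
  · have h2 := T3_pair h1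
    rw [pT_Co hB] at h2
    exact tw_not_low11 (PairSet_tw h9 h2 h) hv
  · obtain ⟨-, -, -, a, b, h2, -, -, h3⟩ := h1
    rw [pT_Co hB] at h3
    rw [h3, mem_singleton] at h
    subst h
    exact HL_not_low76 h2 hv

theorem ff_low {B : Finset V} (h9 : 9 ≤ Fintype.card V) (hB : G.Frag B) {z v : V}
    (hz : G.Low z) (hv : G.Low v) (h : v ∈ G.pT B z) :
    G.s5 (G.Co B) z - G.s5 B z ≤ ff G B z := by
  obtain ⟨h1, h2, h3⟩ := low_pT h9 hB hv h
  exact ff_S0 hB hz h1 h2 h3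

end K28

end CG

end Pool.Agent.Lib.MP_e95c01_co.N
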