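import Pool.Agent.Lib.MP_e95c01_co.X.AuxT76
import Pool.Agent.Lib.MP_e95c01_co.X.K3b_28

/-!
# `λ = 3`, thick torsos: what the low vertices ask from a twin vertex
-/

namespace Pool.Agent.Lib.MP_e95c01_co.N

open Finset

variable {V : Type} [Fintype V] [DecidableEq V]

namespace CG

namespace T57

variable {G : CG V} {Fa : Finset (Finset V)}

omit [Fintype V] in
/-- six different elements -/
theorem nodup6 {S : Finset V} {a b c d e f : V} (h : S = {a, b, c, d, e, f})
    (h6 : S.card = 6) : [a, b, c, d, e, f].Nodup := by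
  have h1 : [a, b, c, d, e, f].toFinset = S := by
    rw [h]
    simp
  have h2 : [a, b, c, d, e, f].dedup.length = 6 := by
    rw [← List.card_toFinset, h1, h6]
  have h3 := (List.dedup_sublist [a, b, c, d, e, f]).eq_of_length (by rw [h2]; rfl)
  rw [← h3]
  exact List.nodup_dedup _

/-- the blob of a vertex in one neighbourhood -/
theorem mem_I_of_pT {B : Finset V} {l d : V} (hI : G.I Fa l = {B}) (hd : d ∈ G.pT B l) :
    B ∈ G.I Fa d := by
  have h1 : B ∈ G.I Fa l := by rw [hI]; exact mem_singleton_self B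
  exact mem_I76.2 ⟨(mem_I76.1 h1).1, (mem_inter.1 hd).2⟩

theorem pT_R {B : Finset V} (hr : G.Reg Fa) {l d : V} (hI : G.I Fa l = {B})
    (hd : d ∈ G.pT B l) : d ∈ G.nR Fa l := by
  have h1 : B ∈ G.I Fa l := by rw [hI]; exact mem_singleton_self B
  have h2 := (mem_I76.1 h1).1
  have h3 := mem_inter.1 hd
  refine mem_nR76.2 ⟨h3.1, ?_⟩
  rw [mem_R76]
  intro B' hB' hdB'
  by_cases e : B = B'
  · subst e
    exact (mem_N76.1 h3.2).1 hdB'
  · exact disjoint_left.1 ((hr.dis B h2 B' hB' e).2) h3.2 hdB'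

theorem pT_symm {B : Finset V} {l d : V} (hl : l ∈ G.N B) (hd : d ∈ G.pT B l) :
    l ∈ G.pT B d := by
  have h3 := mem_inter.1 hd
  exact mem_inter.2 ⟨G.sym _ _ h3.1, hl⟩

theorem l1_N {B : Finset V} {l : V} (h : G.L1 Fa B l) : l ∈ G.N B ∧ B ∈ Fa := by
  have h1 : B ∈ G.I Fa l := by rw [h.I1]; exact mem_singleton_self B
  exact ⟨(mem_I76.1 h1).2, (mem_I76.1 h1).1⟩

/-! ### the types exclude each other -/

theorem T4_nolow {l q p q' p' x y : V} (h : G.T4s Fa l q p q' p' x y) :
    ∀ u ∈ G.nb l, ¬ G.Low u := by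
  intro u hu hl
  rw [h.nb] at hu
  simp only [mem_insert, mem_singleton] at hu
  rcases hu with rfl | rfl | rfl | rfl | rfl | rfl
  · exact tw_not_low76 (tw_of76 h.t) hl
  · exact tw_not_low76 (tw_of76' h.t) hl
  · exact tw_not_low76 (tw_of76 h.t') hl
  · exact tw_not_low76 (tw_of76' h.t') hl
  · exact h.hx.1 hl
  · exact h.hy.1 hl

/-- the low neighbour of `T3` is unique -/
theorem T3_low {l l' q p q' p' x u : V} (h : G.T3s Fa l l' q p q' p' x) (hu : u ∈ G.nb l)
    (hl : G.Low u) : u = l' := by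
  rw [h.nb] at hu
  simp only [mem_insert, mem_singleton] at hu
  rcases hu with rfl | rfl | rfl | rfl | rfl | rfl
  · rfl
  · exact absurd hl (tw_not_low76 (tw_of76 h.t))
  · exact absurd hl (tw_not_low76 (tw_of76' h.t))
  · exact absurd hl (tw_not_low76 (tw_of76 h.t'))
  · exact absurd hl (tw_not_low76 (tw_of76' h.t'))
  · exact absurd hl h.hx.1.1

theorem T3_tw {l l' q p q' p' x u : V} (h : G.T3s Fa l l' q p q' p' x) (hu : u ∈ G.nb l)
    (hl : G.IsTw u) : u = q ∨ u = p ∨ u = q' ∨ u = p' := by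
  rw [h.nb] at hu
  simp only [mem_insert, mem_singleton] at hu
  rcases hu with rfl | rfl | rfl | rfl | rfl | rfl
  · exact absurd h.low' (tw_not_low76 hl)
  · tauto
  · tauto
  · tauto
  · tauto
  · exact absurd hl h.hx.1.2

theorem T6_low {l l' q p x y z u : V} (h : G.T6s Fa l l' q p x y z) (hu : u ∈ G.nb l)
    (hl : G.Low u) : u = l' := by
  rw [h.nb] at hu
  simp only [mem_insert, mem_singleton] at hu
  rcases hu with rfl | rfl | rfl | rfl | rfl | rfl
  · rfl
  · exact absurd hl (tw_not_low76 (tw_of76 h.t))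
  · exact absurd hl (tw_not_low76 (tw_of76' h.t))
  · exact absurd hl h.hx.1.1
  · exact absurd hl h.hy.1.1
  · exact absurd hl h.hz.1.1

theorem T6_tw {l l' q p x y z u : V} (h : G.T6s Fa l l' q p x y z) (hu : u ∈ G.nb l)
    (hl : G.IsTw u) : u = q ∨ u = p := by
  rw [h.nb] at hu
  simp only [mem_insert, mem_singleton] at hu
  rcases hu with rfl | rfl | rfl | rfl | rfl | rfl
  · exact absurd h.low' (tw_not_low76 hl)
  · tauto
  · tauto
  · exact absurd hl h.hx.1.2
  · exact absurd hl h.hy.1.2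
  · exact absurd hl h.hz.1.2

/-- adjacency to the twins of a pair -/
theorem nb_tw {q p u : V} (h : G.Tw q p) (h1 : u ≠ q) (h2 : u ≠ p) :
    u ∈ G.nb q ↔ u ∈ G.nb p := by
  have hcl : u ∈ G.cl q ↔ u ∈ G.cl p := by rw [h.2.2]
  rw [cl, cl, mem_insert, mem_insert] at hcl
  tauto

theorem nb_tw' {q p u : V} (h : G.Tw q p) (h1 : u ≠ q) (h2 : u ≠ p) :
    q ∈ G.nb u ↔ p ∈ G.nb u := by
  have h3 := nb_tw h h1 h2
  exact ⟨fun h4 => G.sym _ _ (h3.1 (G.sym _ _ h4)), fun h4 => G.sym _ _ (h3.2 (G.sym _ _ h4))⟩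

/-- two descriptions of `T3` with the same pair -/
theorem T3_T3 (h9 : 9 ≤ Fintype.card V) {l l' q p q' p' x l1 p1 q1 r1 x1 : V}
    (h : G.T3s Fa l l' q p q' p' x) (k : G.T3s Fa l l1 q p1 q1 r1 x1) :
    (q' ∈ G.nb q ↔ q1 ∈ G.nb q) := by
  have hp : p = p1 := (stTwHL_5 G).uniq h9 q p p1 h.t k.t
  subst hp
  have n1 := nodup6 h.nb h.low
  have n2 := nodup6 k.nb k.low
  simp only [List.nodup_cons, List.mem_cons, List.not_mem_nil, or_false, not_or] at n1 n2
  have hq1 : q1 ∈ G.nb l := by rw [k.nb]; simp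
  have e1 := T3_tw h hq1 (tw_of76 k.t')
  have e2 : q1 = q' ∨ q1 = p' := by
    rcases e1 with e | e | e | e
    · exact absurd e.symm (by tauto)
    · exact absurd e.symm (by tauto)
    · exact Or.inl e
    · exact Or.inr e
  rcases e2 with e | e
  · rw [e]
  · rw [e]
    have h3 := nb_tw' (G := G) (u := q) h.t' (by tauto) (by tauto)
    exact h3

theorem T3_T6 (h9 : 9 ≤ Fintype.card V) {l l' q p q' p' x l1 p1 x1 y1 z1 : V}
    (h : G.T3s Fa l l' q p q' p' x) (k : G.T6s Fa l l1 q p1 x1 y1 z1) : False := by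
  have hp : p = p1 := (stTwHL_5 G).uniq h9 q p p1 h.t k.t
  subst hp
  have n1 := nodup6 h.nb h.low
  simp only [List.nodup_cons, List.mem_cons, List.not_mem_nil, or_false, not_or] at n1
  have hq1 : q' ∈ G.nb l := by rw [h.nb]; simp
  have e1 := T6_tw k hq1 (tw_of76 h.t')
  rcases e1 with e | e
  · exact absurd e.symm (by tauto)
  · exact absurd e.symm (by tauto)

theorem L0_L1 {B : Finset V} {l : V} (h : G.L0 Fa l) (k : G.L1 Fa B l) : False := by
  have h1 := h.I0
  rw [k.I1] at h1
  exact singleton_ne_empty B h1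

/-! ### charges -/

theorem Eps.swap {B : Finset V} {l d q p : V} (hr : G.Reg Fa)
    (h : G.Eps Fa B l d q p) : G.Eps Fa B l d p q := by
  have hq : q ∈ G.pO B l := by rw [h.out]; simp
  have hqR : q ∈ R Fa := by
    have h1 := (stTwHL_5 G).twI Fa hr
    by_contra hc
    rw [mem_R76] at hc
    push Not at hc
    obtain ⟨B', hB', hqB⟩ := hc
    have h2 := l1_N h.toL1
    have h3 : l ∈ G.N B' := mem_N76.2 ⟨mem_R76.1 h.lR B' hB', q, hqB, G.sym _ _ (mem_inter.1 hq).1⟩
    have h4 : B' ∈ G.I Fa l := mem_I76.2 ⟨hB', h3⟩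
    rw [h.I1, mem_singleton] at h4
    subst h4
    have h5 := (mem_inter.1 hq).2
    rw [Co, mem_compl, mem_union] at h5
    exact h5 (Or.inl hqB)
  have hI := (stTwHL_5 G).twI Fa hr q hqR p h.t
  have hdp : d ≠ p := fun e => tw_not_low76 (tw_of76' h.t) (by rw [← e]; exact h.dl)
  have hdq : d ≠ q := fun e => tw_not_low76 (tw_of76 h.t) (by rw [← e]; exact h.dl)
  exact
    { toL1 := h.toL1
      out := by rw [h.out]; exact pair_comm q p
      t := tw_symm76 h.t
      kq := by rw [hI.2]; exact h.kq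
      dT := h.dT
      dl := h.dl
      nf := h.nf
      np := h.np
      dq := (nb_tw' h.t hdq hdp).1 h.dq
      flag := h.flag }

theorem Eps.ch {B : Finset V} {l d q p : V} (hr : G.Reg Fa) (h9 : 9 ≤ Fintype.card V)
    (h : G.Eps Fa B l d q p) : G.ch5 Fa l = -2 := by
  have h1 := (stCh5_28 G).low1 h9 Fa hr l h.lR h.low B h.I1
  have h2 : G.d l (G.Co B) = 2 := by
    show (G.pO B l).card = 2
    rw [h.out]
    exact card_pair (ne_of_nb5 h.t.1)
  rw [h2, h.nf, h.np, card_singleton, card_empty, h.flag] at h1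
  rw [h1]
  norm_num

/-- outer neighbours in `R` -/
theorem pO_R {B : Finset V} {l q : V} (h : G.L1 Fa B l) (hq : q ∈ G.pO B l) : q ∈ R Fa := by
  by_contra hc
  rw [mem_R76] at hc
  push Not at hc
  obtain ⟨B', hB', hqB⟩ := hc
  have h3 : l ∈ G.N B' := mem_N76.2 ⟨mem_R76.1 h.lR B' hB', q, hqB, G.sym _ _ (mem_inter.1 hq).1⟩
  have h4 : B' ∈ G.I Fa l := mem_I76.2 ⟨hB', h3⟩
  rw [h.I1, mem_singleton] at h4
  subst h4
  have h5 := (mem_inter.1 hq).2
  rw [Co, mem_compl, mem_union] at h5
  exact h5 (Or.inl hqB)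

theorem S0s.swap {B : Finset V} {l v q p y : V} (hr : G.Reg Fa)
    (h : G.S0s Fa B l v q p y) : G.S0s Fa B l v p q y := by
  have hq : q ∈ G.pO B l := by rw [h.out]; simp
  have hI := (stTwHL_5 G).twI Fa hr q (pO_R h.toL1 hq) p h.t
  have hdp : v ≠ p := fun e => tw_not_low76 (tw_of76' h.t) (by rw [← e]; exact h.s0.2.2.1)
  have hdq : v ≠ q := fun e => tw_not_low76 (tw_of76 h.t) (by rw [← e]; exact h.s0.2.2.1)
  exact
    { toL1 := h.toL1
      s0 := h.s0
      out := by
        rw [h.out]
        ext u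
        simp only [mem_insert, mem_singleton]
        tauto
      t := tw_symm76 h.t
      kq := by rw [hI.2]; exact h.kq
      hy := h.hy
      vq := (nb_tw' h.t hdq hdp).1 h.vq }

theorem S0s.card3 {B : Finset V} {l v q p y : V} (h : G.S0s Fa B l v q p y) :
    (G.pO B l).card = 3 := by
  have h1 := ne_of_nb5 h.t.1
  have h2 : y ≠ q := fun e => h.hy.1.2 (by rw [e]; exact tw_of76 h.t)
  have h3 : y ≠ p := fun e => h.hy.1.2 (by rw [e]; exact tw_of76' h.t)
  rw [h.out, card_eq_three]
  exact ⟨q, p, y, h1, h2.symm, h3.symm, rfl⟩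

/-- the vertex `v` of the flag -/
theorem S0s.v_pT {B : Finset V} {l v q p y : V} (h : G.S0s Fa B l v q p y) :
    v ∈ G.pT B l := by
  rw [h.s0.2.2.2.1]
  exact mem_singleton_self v

theorem S0s.v_NF {B : Finset V} {l v q p y : V} (hr : G.Reg Fa)
    (h : G.S0s Fa B l v q p y) : v ∈ G.NF Fa l := by
  classical
  rw [NF, mem_filter]
  exact ⟨pT_R hr h.I1 (S0s.v_pT h), Or.inl h.s0.2.2.1⟩

theorem S0s.ch_ge {B : Finset V} {l v q p y : V} (hr : G.Reg Fa) (h9 : 9 ≤ Fintype.card V)
    (h : G.S0s Fa B l v q p y) : - G.s5 B l ≤ G.ch5 Fa l := by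
  have h1 := (stCh5_28 G).low1 h9 Fa hr l h.lR h.low B h.I1
  have h2 : G.d l (G.Co B) = 3 := S0s.card3 h
  have h3 : 1 ≤ (G.NF Fa l).card := card_pos.2 ⟨v, S0s.v_NF hr h⟩
  have hB := hr.frag B (l1_N h.toL1).2
  have h4 := K28.ff_low h9 hB h.low h.s0.2.2.1 (S0s.v_pT h)
  have h5 := K28.s5_nonneg (G := G) (G.Co B) l
  have h6 : G.fg5 Fa l = K28.ff G B l := by
    rw [K28.fg_single h.I1]
    rfl
  rw [h2, h6] at h1
  omega

theorem S0s.ch_ge2 {B : Finset V} {l v q p y : V} (hr : G.Reg Fa) (h9 : 9 ≤ Fintype.card V)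
    (h : G.S0s Fa B l v q p y) : -2 ≤ G.ch5 Fa l := by
  have h1 := S0s.ch_ge hr h9 h
  have h2 := K28.s5_le (G := G) B l
  omega

/-! ### the donations of a twin vertex -/

theorem PD.ge {l q : V} (hG : G.Gen6 Fa) (h : G.PD Fa l q) : -2 ≤ G.ch5 Fa l := by
  have h9 := hG.g5.n9
  have hr := hG.g5.reg
  rcases h with ⟨h, h1, h2⟩ | ⟨h, h1, h2, h3, h4⟩ | ⟨h, h1, h2⟩ | ⟨h, h1, h2⟩
  · rw [h.ch h9 hr]
  · rw [h.ch h9 hr]
  · rw [Eps.ch hr h9 h]
  · exact S0s.ch_ge2 hr h9 h

/-- a low neighbour -/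
theorem PD.hasLow {l q : V} (h : G.PD Fa l q) : ∃ u ∈ G.nb l, G.Low u := by
  rcases h with ⟨h, h1, h2⟩ | ⟨h, h1, h2, h3, h4⟩ | ⟨h, h1, h2⟩ | ⟨h, h1, h2⟩
  · exact ⟨_, by rw [h.nb]; simp, h.low'⟩
  · exact ⟨_, by rw [h.nb]; simp, h.low'⟩
  · exact ⟨_, (mem_inter.1 h.dT).1, h.dl⟩
  · exact ⟨_, (mem_inter.1 (S0s.v_pT h)).1, h.s0.2.2.1⟩

theorem PS.hasLow {l q : V} (h : G.PS Fa l q) : ∃ u ∈ G.nb l, G.Low u := by
  rcases h with ⟨h, h1, h2⟩ | ⟨h, h1, h2, h3, h4⟩
  · exact ⟨_, by rw [h.nb]; simp, h.low'⟩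
  · exact ⟨_, by rw [h.nb]; simp, h.low'⟩

theorem PF.noLow {l q : V} (h : G.PF Fa l q) : ∀ u ∈ G.nb l, ¬ G.Low u := by
  rcases h with ⟨h, h1, h2⟩
  exact T4_nolow h

theorem PD_PS (hG : G.Gen6 Fa) {l q : V} (h : G.PD Fa l q) (k : G.PS Fa l q) : False := by
  have h9 := hG.g5.n9
  rcases h with ⟨h, h1, h2⟩ | ⟨h, h1, h2, h3, h4⟩ | ⟨h, h1, h2⟩ | ⟨h, h1, h2⟩
  · rcases k with ⟨k, k1, k2⟩ | ⟨k, k1, k2, k3, k4⟩
    · exact k1 ((T3_T3 h9 h k).1 h1)
    · exact T3_T6 h9 h k
  · rcases k with ⟨k, k1, k2⟩ | ⟨k, k1, k2, k3, k4⟩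
    · exact T3_T6 h9 k h
    · have e : _ := T6_low h (show _ ∈ G.nb l by rw [k.nb]; simp) k.low'
      rw [e] at k4
      exact h4 k4
  · rcases k with ⟨k, k1, k2⟩ | ⟨k, k1, k2, k3, k4⟩
    · exact L0_L1 k.toL0 h.toL1
    · exact L0_L1 k.toL0 h.toL1
  · rcases k with ⟨k, k1, k2⟩ | ⟨k, k1, k2, k3, k4⟩
    · exact L0_L1 k.toL0 h.toL1
    · exact L0_L1 k.toL0 h.toL1

/-- only one donation -/
theorem dn_le (hG : G.Gen6 Fa) {q l : V} (hq : G.IsTw q) : G.dn5 Fa q l ≤ 2 := by
  classical
  rw [dn5_tw76 hG.g5.n9 hq]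
  by_cases h1 : G.PD Fa l q
  · have e1 : ¬ G.PF Fa l q := fun h2 => by
      obtain ⟨u, hu, hl⟩ := PD.hasLow h1
      exact PF.noLow h2 u hu hl
    have e2 : ¬ G.PS Fa l q := fun h2 => PD_PS hG h1 h2
    rw [if_pos h1, if_neg e1, if_neg e2]
    have := PD.ge hG h1
    omega
  · rw [if_neg h1]
    by_cases h2 : G.PF Fa l q
    · have e2 : ¬ G.PS Fa l q := fun h3 => by
        obtain ⟨u, hu, hl⟩ := PS.hasLow h3
        exact PF.noLow h2 u hu hl
      rw [if_pos h2, if_neg e2]
      norm_num
    · rw [if_neg h2]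
      split_ifs <;> norm_num

theorem T4_ch (hr : G.Reg Fa) (h9 : 9 ≤ Fintype.card V) {l q p q' p' x y : V}
    (h : G.T4s Fa l q p q' p' x y) (hx : (G.I Fa x).card ≤ 1) :
    G.NF Fa l ⊆ {y} := by
  classical
  have hk : ∀ u w, G.Tw u w → u ∈ G.nb l → (G.I Fa u).card = 1 →
      ¬ (G.Low w ∨ 2 ≤ (G.I Fa w).card ∨ ∃ b, G.HL w b l) := by
    intro u w hu hul hI
    have h1 := (stTwHL_5 G).twI Fa hr u (nb_R76 h.lR h.I0 hul) w hu
    have h2 := tw_not_low76 (tw_of76' hu)
    have h3 := tw_not_HL76 h9 (tw_of76' hu) l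
    have h4 : ¬ 2 ≤ (G.I Fa w).card := by rw [h1.2]; omega
    tauto
  have hq : q ∈ G.nb l := by rw [h.nb]; simp
  have hp : p ∈ G.nb l := by rw [h.nb]; simp
  have hq' : q' ∈ G.nb l := by rw [h.nb]; simp
  have hp' : p' ∈ G.nb l := by rw [h.nb]; simp
  obtain ⟨B, B', b1, b2, b3⟩ := h.blobs
  have c1 : (G.I Fa q).card = 1 := by rw [b1, card_singleton]
  have c2 : (G.I Fa q').card = 1 := by rw [b2, card_singleton]
  have c3 : (G.I Fa p).card = 1 := by
    rw [((stTwHL_5 G).twI Fa hr q (nb_R76 h.lR h.I0 hq) p h.t).2]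
    exact c1
  have c4 : (G.I Fa p').card = 1 := by
    rw [((stTwHL_5 G).twI Fa hr q' (nb_R76 h.lR h.I0 hq') p' h.t').2]
    exact c2
  intro u hu
  rw [NF, mem_filter] at hu
  obtain ⟨hu1, hu2⟩ := hu
  rw [nR_eq76 h.lR h.I0, h.nb] at hu1
  simp only [mem_insert, mem_singleton] at hu1
  rcases hu1 with rfl | rfl | rfl | rfl | rfl | rfl
  · exact absurd hu2 (hk _ _ (tw_symm76 h.t) hp c3)
  · exact absurd hu2 (hk _ _ h.t hq c1)
  · exact absurd hu2 (hk _ _ (tw_symm76 h.t') hp' c4)
  · exact absurd hu2 (hk _ _ h.t' hq' c2)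
  · exfalso
    rcases hu2 with h4 | h4 | h4
    · exact h.hx.1 h4
    · omega
    · exact h.nx h4
  · exact mem_singleton_self _

theorem T4_neg (hr : G.Reg Fa) (h9 : 9 ≤ Fintype.card V) {l q p q' p' x y : V}
    (h : G.T4s Fa l q p q' p' x y) (hx : (G.I Fa x).card ≤ 1) : G.ch5 Fa l < 0 := by
  have h1 := (stCh5_28 G).low0 h9 Fa hr l h.lR h.low h.I0
  have h2 := card_le_card (T4_ch hr h9 h hx)
  rw [card_singleton] at h2
  omega

/-- who asks a twin vertex -/
theorem dn_ne (hG : G.Gen6 Fa) {q l : V} (hq : G.IsTw q) (h : G.dn5 Fa q l ≠ 0) :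
    G.PD Fa l q ∨ G.PF Fa l q ∨ G.PS Fa l q := by
  classical
  rw [dn5_tw76 hG.g5.n9 hq] at h
  by_contra hc
  push Not at hc
  rw [if_neg hc.1, if_neg hc.2.1, if_neg hc.2.2] at h
  exact h (by norm_num)

theorem PD.mem {q l : V} (h : G.PD Fa l q) : q ∈ G.nb l := by
  rcases h with ⟨h, h1, h2⟩ | ⟨h, h1, h2, h3, h4⟩ | ⟨h, h1, h2⟩ | ⟨h, h1, h2⟩
  · rw [h.nb]; simp
  · rw [h.nb]; simp
  · refine (mem_inter.1 ((Finset.ext_iff.1 h.out q).2 ?_)).1
    simp
  · refine (mem_inter.1 ((Finset.ext_iff.1 h.out q).2 ?_)).1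
    simp

theorem dn_low (hG : G.Gen6 Fa) {q l : V} (hq : G.IsTw q) (h : G.dn5 Fa q l ≠ 0) :
    G.Low l ∧ l ∈ G.nb q ∧ G.ch5 Fa l < 0 := by
  have h9 := hG.g5.n9
  have hr := hG.g5.reg
  rcases dn_ne hG hq h with h | h | h
  · exact ⟨h.lowz, G.sym _ _ (PD.mem h), h.neg hG⟩
  · refine ⟨h.lowz, ?_, ?_⟩
    · rcases h with ⟨h, h1, h2⟩
      exact G.sym _ _ (by rw [h.nb]; simp)
    · rcases h with ⟨h, h1, h2⟩
      exact T4_neg hr h9 h (by rw [h1, card_empty]; omega)
  · refine ⟨h.lowz, ?_, ?_⟩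
    · rcases h with ⟨h, h1, h2⟩ | ⟨h, h1, h2, h3, h4⟩
      · exact G.sym _ _ (by rw [h.nb]; simp)
      · exact G.sym _ _ (by rw [h.nb]; simp)
    · rcases h with ⟨h, h1, h2⟩ | ⟨h, h1, h2, h3, h4⟩
      · have := h.ch h9 hr; omega
      · have := h.ch h9 hr; omega

/-- EPS: the low vertex `d` asks nothing from the pair of `l` -/
theorem dn_lq (hG : G.Gen6 Fa) {q l d p : V} {B : Finset V} (hq : G.IsTw q)
    (h : G.Eps Fa B l d q p) : G.dn5 Fa q d = 0 := by
  classical
  by_contra hne
  have h9 := hG.g5.n9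
  have hr := hG.g5.reg
  have hBd : B ∈ G.I Fa d := mem_I_of_pT h.I1 h.dT
  have hlN := (l1_N h.toL1).1
  have hB := hr.frag B (l1_N h.toL1).2
  have hld : l ∈ G.pT B d := pT_symm hlN h.dT
  have hne0 : G.I Fa d ≠ ∅ := fun e => by rw [e] at hBd; simp at hBd
  rcases dn_ne hG hq hne with k | k | k
  · rcases k with ⟨k, k1, k2⟩ | ⟨k, k1, k2, k3, k4⟩ | ⟨k, k1, k2⟩ | ⟨k, k1, k2⟩
    · exact hne0 k.I0
    · exact hne0 k.I0
    · -- two vertices with the same outer neighbours
      rename_i B' d' p'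
      have e1 : B = B' := by
        rw [k.I1, mem_singleton] at hBd
        exact hBd
      subst e1
      have e2 : p = p' := (stTwHL_5 G).uniq h9 q p p' h.t k.t
      subst e2
      have h5 := hG.g5.exp B (l1_N h.toL1).2 {l, d} ⟨l, by simp⟩
        (card_le_two.trans (by norm_num)) (by
          intro y hy
          rw [mem_insert, mem_singleton] at hy
          rcases hy with rfl | rfl
          · exact ⟨h.lR, h.I1⟩
          · exact ⟨k.lR, k.I1⟩)
      have hne2 : l ≠ d := (ne_of_nb5 (mem_inter.1 h.dT).1)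
      rw [card_pair hne2] at h5
      have h6 : G.N {l, d} ∩ G.Co B ⊆ {q, p} := by
        intro u hu
        rw [mem_inter] at hu
        obtain ⟨-, w, hw, huw⟩ := mem_N76.1 hu.1
        rw [mem_insert, mem_singleton] at hw
        rcases hw with rfl | rfl
        · rw [← h.out]
          exact mem_inter.2 ⟨huw, hu.2⟩
        · rw [← k.out]
          exact mem_inter.2 ⟨huw, hu.2⟩
      have h7 := card_le_card h6
      have h8 : ({q, p} : Finset V).card ≤ 2 := card_le_two
      omega
    · -- flags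
      rename_i B' v' p' y'
      have e1 : B = B' := by
        rw [k.I1, mem_singleton] at hBd
        exact hBd
      subst e1
      have e2 : p = p' := (stTwHL_5 G).uniq h9 q p p' h.t k.t
      subst e2
      have e3 : l = v' := by
        have h1 := k.s0.2.2.2.1
        rw [h1, mem_singleton] at hld
        exact hld
      subst e3
      obtain ⟨s1, s2, s3, s4, ⟨r, r', s5, s6, s7⟩, s8⟩ := k.s0
      have hrr : r ≠ r' := ne_of_nb5 s5.1
      have hrX : r ∈ G.pX B d := by rw [s6]; simp
      have hrX' : r' ∈ G.pX B d := by rw [s6]; simp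
      have hlr' : r' ∈ G.nb l := by
        have a1 : l ≠ r := fun e => tw_not_low76 (tw_of76 s5) (by rw [← e]; exact h.low)
        have a2 : l ≠ r' := fun e => tw_not_low76 (tw_of76' s5) (by rw [← e]; exact h.low)
        exact (nb_tw' s5 a1 a2).1 s7
      have hsub : ({r, r'} : Finset V) ⊆ G.pX B l := by
        intro u hu
        rw [mem_insert, mem_singleton] at hu
        rcases hu with rfl | rfl
        · exact mem_inter.2 ⟨s7, (mem_inter.1 hrX).2⟩
        · exact mem_inter.2 ⟨hlr', (mem_inter.1 hrX').2⟩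
      have hsum := K28.six_low h.low B
      have hO : (G.nb l ∩ G.Co B).card = 2 := by
        show (G.pO B l).card = 2
        rw [h.out]
        exact card_pair (ne_of_nb5 h.t.1)
      have hX2 : 2 ≤ (G.nb l ∩ B).card := by
        have := card_le_card hsub
        rw [card_pair hrr] at this
        exact this
      have hT1 : 1 ≤ (G.nb l ∩ G.N B).card := card_pos.2 ⟨d, h.dT⟩
      have hneg := k1
      have hge := S0s.ch_ge hr h9 k
      by_cases hT : G.pT B l = {d}
      · -- the flag of `l` on the other side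
        have hS : G.S0 (G.Co B) l d := by
          refine ⟨?_, h.low, h.dl, ?_, ⟨q, p, h.t, ?_, ?_⟩, ?_⟩
          · rw [(G.stCo_37 B hB).2.1]
            exact hlN
          · rw [K28.pT_Co hB]
            exact hT
          · exact h.out
          · exact G.sym _ _ (G.sym _ _ h.dq)
          · rintro ⟨-, h2⟩
            rw [K28.pO_Co hB] at h2
            have h3 : (G.nb d ∩ B) = {r, r'} := s6
            rw [h3, card_pair hrr] at h2
            omega
        have hLL : ¬ G.LLs (G.Co B) l d := by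
          rintro ⟨-, h2⟩
          have h3 : (G.pO B d).card = (G.pO B l).card := by
            show (G.pX (G.Co B) d).card = (G.pX (G.Co B) l).card
            rw [h2]
          rw [S0s.card3 k] at h3
          have h4 : (G.pO B l).card = 2 := hO
          omega
        have h5 := K28.s5_two hS hLL
        have h6 := K28.ff_low h9 hB h.low h.dl h.dT
        have h7 : G.s5 B l = 0 := K28.s5_zero fun v hv => by
          have h8 := K28.S0_card hv
          have h9' : (G.nb l ∩ B).card = 2 := h8.1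
          have h10 : (G.nb l ∩ G.N B).card = 1 := h8.2
          omega
        have h8 : G.fg5 Fa l = K28.ff G B l := by
          rw [K28.fg_single h.I1]
          rfl
        have h9' := h.flag
        omega
      · -- an `LL` pair with the same neighbours in `B`
        have hT2 : 2 ≤ (G.nb l ∩ G.N B).card := by
          by_contra hc
          have h1 : (G.pT B l).card = 1 := by
            show (G.nb l ∩ G.N B).card = 1
            omega
          rw [card_eq_one] at h1
          obtain ⟨a, ha⟩ := h1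
          have h2 := h.dT
          rw [ha, mem_singleton] at h2
          rw [← h2] at ha
          exact hT ha
        have hXeq : G.pX B l = {r, r'} := by
          refine (eq_of_subset_of_card_le hsub ?_).symm
          rw [card_pair hrr]
          show (G.nb l ∩ B).card ≤ 2
          omega
        obtain ⟨z, hz1, hz2⟩ : ∃ z ∈ G.pT B l, z ≠ d := by
          by_contra hc
          push Not at hc
          apply hT
          ext u
          rw [mem_singleton]
          exact ⟨hc u, fun e => by rw [e]; exact h.dT⟩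
        have hT2' : G.pT B l = {d, z} := by
          refine (eq_of_subset_of_card_le ?_ ?_).symm
          · intro u hu
            rw [mem_insert, mem_singleton] at hu
            rcases hu with rfl | rfl
            · exact h.dT
            · exact hz1
          · rw [card_pair hz2.symm]
            show (G.nb l ∩ G.N B).card ≤ 2
            omega
        have hnl : G.nb l = {r, r', d, z, q, p} := by
          ext u
          have hu : u ∈ G.nb l ↔ u ∈ G.pX B l ∨ u ∈ G.pT B l ∨ u ∈ G.pO B l := by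
            rw [pX, pT, pO, mem_inter, mem_inter, mem_inter]
            have : u ∈ B ∨ u ∈ G.N B ∨ u ∈ G.Co B := by
              by_cases a1 : u ∈ B
              · exact Or.inl a1
              by_cases a2 : u ∈ G.N B
              · exact Or.inr (Or.inl a2)
              · right; right
                rw [Co, mem_compl, mem_union]
                tauto
            tauto
          rw [hu, hXeq, hT2', h.out]
          simp only [mem_insert, mem_singleton, or_assoc]
        have hnd : G.nb d = {r, r', l, q, p, y'} := by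
          ext u
          have hu : u ∈ G.nb d ↔ u ∈ G.pX B d ∨ u ∈ G.pT B d ∨ u ∈ G.pO B d := by
            rw [pX, pT, pO, mem_inter, mem_inter, mem_inter]
            have : u ∈ B ∨ u ∈ G.N B ∨ u ∈ G.Co B := by
              by_cases a1 : u ∈ B
              · exact Or.inl a1
              by_cases a2 : u ∈ G.N B
              · exact Or.inr (Or.inl a2)
              · right; right
                rw [Co, mem_compl, mem_union]
                tauto
            tauto
          rw [hu, s6, s4, k.out]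
          simp only [mem_insert, mem_singleton, or_assoc]
        have hy' : y' ∉ G.nb l := fun hc => by
          have h1 : y' ∈ G.pO B l := mem_inter.2 ⟨hc, by
            have h2 : y' ∈ G.pO B d := by rw [k.out]; simp
            exact (mem_inter.1 h2).2⟩
          rw [h.out, mem_insert, mem_singleton] at h1
          rcases h1 with h1 | h1
          · exact k.hy.1.2 (by rw [h1]; exact tw_of76 h.t)
          · exact k.hy.1.2 (by rw [h1]; exact tw_of76' h.t)
        have hz' : z ∉ G.nb d := fun hc => by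
          have h1 : z ∈ G.pT B d := mem_inter.2 ⟨hc, (mem_inter.1 hz1).2⟩
          rw [s4, mem_singleton] at h1
          subst h1
          exact G.irr _ (mem_inter.1 hz1).1
        have hyl : y' ≠ l := by
          rintro rfl
          exact k.hy.1.1 h.low
        have hyd : y' ≠ d := by
          rintro rfl
          exact k.hy.1.1 k.low
        have hzl : z ≠ l := by
          rintro rfl
          exact G.irr _ (mem_inter.1 hz1).1
        have hyz : y' ≠ z := by
          rintro rfl
          exact hy' (mem_inter.1 hz1).1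
        have hLL : G.LL d l y' z := by
          refine ⟨k.low, h.low, (mem_inter.1 hld).1, hyz, ?_, ?_, ?_⟩
          · rw [mem_cl5]
            tauto
          · rw [mem_cl5]
            tauto
          · apply Finset.Subset.antisymm
            · intro u hu
              simp only [mem_insert, cl, hnl, hnd, mem_singleton] at hu ⊢
              rcases hu with rfl | rfl | rfl | rfl | rfl | rfl | rfl | rfl <;> simp
            · intro u hu
              simp only [mem_insert, cl, hnl, hnd, mem_singleton] at hu ⊢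
              rcases hu with rfl | rfl | rfl | rfl | rfl | rfl | rfl | rfl <;> simp
        have h5 : G.s5 B d = 0 := K28.s5_LLs' fun v hv => by
          have e : l = v := K28.S0_uniq hv (by rw [s4]; exact mem_singleton_self l)
          subst e
          refine ⟨⟨⟨y', z, hLL⟩, ?_⟩, hT⟩
          rw [hXeq, s6]
        omega
  · rcases k with ⟨k, k1, k2⟩
    exact hne0 k.I0
  · rcases k with ⟨k, k1, k2⟩ | ⟨k, k1, k2, k3, k4⟩
    · exact hne0 k.I0
    · exact hne0 k.I0

theorem dn_L1 (hG : G.Gen6 Fa) {q l : V} {B : Finset V} (hq : G.IsTw q) (h : G.L1 Fa B l)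
    (hn : G.ch5 Fa l < 0) : G.dn5 Fa q l ≤ - G.ch5 Fa l := by
  classical
  rw [dn5_tw76 hG.g5.n9 hq]
  have e1 : ¬ G.PF Fa l q := by
    rintro ⟨k, k1, k2⟩
    exact L0_L1 k.toL0 h
  have e2 : ¬ G.PS Fa l q := by
    rintro (⟨k, k1, k2⟩ | ⟨k, k1, k2, k3, k4⟩)
    · exact L0_L1 k.toL0 h
    · exact L0_L1 k.toL0 h
  rw [if_neg e1, if_neg e2]
  split_ifs <;> omega

/-- the neighbours of a vertex, split by a set -/
theorem nb_split {B X T O : Finset V} {l : V} (hX : G.pX B l = X) (hT : G.pT B l = T)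
    (hO : G.pO B l = O) (u : V) : u ∈ G.nb l ↔ u ∈ X ∨ u ∈ T ∨ u ∈ O := by
  rw [← hX, ← hT, ← hO, pX, pT, pO, mem_inter, mem_inter, mem_inter]
  have : u ∈ B ∨ u ∈ G.N B ∨ u ∈ G.Co B := by
    by_cases a1 : u ∈ B
    · exact Or.inl a1
    by_cases a2 : u ∈ G.N B
    · exact Or.inr (Or.inl a2)
    · right; right
      rw [Co, mem_compl, mem_union]
      tauto
  tauto

/-- `S0-`: `l` and `v` together ask at most 2 -/
theorem dn_lv (hG : G.Gen6 Fa) {q l v p y : V} {B : Finset V} (hq : G.IsTw q)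
    (h : G.S0s Fa B l v q p y) : G.dn5 Fa q l + G.dn5 Fa q v ≤ 2 := by
  classical
  have h9 := hG.g5.n9
  have hr := hG.g5.reg
  have hBd : B ∈ G.I Fa v := mem_I_of_pT h.I1 (S0s.v_pT h)
  have hlN := (l1_N h.toL1).1
  have hld : l ∈ G.pT B v := pT_symm hlN (S0s.v_pT h)
  have hne0 : G.I Fa v ≠ ∅ := fun e => by rw [e] at hBd; simp at hBd
  by_cases hv : G.dn5 Fa q v = 0
  · rw [hv]
    have := dn_le hG (l := l) hq
    omega
  by_cases hl : G.dn5 Fa q l = 0
  · rw [hl]
    have := dn_le hG (l := v) hq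
    omega
  have hlneg := (dn_low hG hq hl).2.2
  rcases dn_ne hG hq hv with k | k | k
  · rcases k with ⟨k, k1, k2⟩ | ⟨k, k1, k2, k3, k4⟩ | ⟨k, k1, k2⟩ | ⟨k, k1, k2⟩
    · exact absurd k.I0 hne0
    · exact absurd k.I0 hne0
    · rename_i B' d' p'
      have e1 : B = B' := by
        rw [k.I1, mem_singleton] at hBd
        exact hBd
      subst e1
      have e3 : l ∈ G.NF Fa v := by
        rw [NF, mem_filter]
        exact ⟨pT_R hr k.I1 hld, Or.inl h.low⟩
      rw [k.nf, mem_singleton] at e3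
      subst e3
      exact absurd (dn_lq hG hq k) hl
    · rename_i B' v' p' y'
      have e1 : B = B' := by
        rw [k.I1, mem_singleton] at hBd
        exact hBd
      subst e1
      have e2 : p = p' := (stTwHL_5 G).uniq h9 q p p' h.t k.t
      subst e2
      have e3 : l = v' := by
        have h1 := k.s0.2.2.2.1
        rw [h1, mem_singleton] at hld
        exact hld
      subst e3
      obtain ⟨s1, s2, s3, s4, ⟨r, r', s5, s6, s7⟩, s8⟩ := h.s0
      obtain ⟨u1, u2, u3, u4, ⟨w, w', u5, u6, u7⟩, u8⟩ := k.s0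
      have hwX : w ∈ G.pX B l := by
        refine mem_inter.2 ⟨u7, ?_⟩
        have : w ∈ G.pX B v := by rw [u6]; simp
        exact (mem_inter.1 this).2
      have hXv : G.pX B v = {r, r'} := by
        rw [s6, mem_insert, mem_singleton] at hwX
        rcases hwX with e | e
        · rw [e] at u5 u6
          have := (stTwHL_5 G).uniq h9 r r' w' s5 u5
          rw [u6, this]
        · rw [e] at u5 u6
          have := (stTwHL_5 G).uniq h9 r' r w' (tw_symm76 s5) u5
          rw [u6, ← this]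
          exact pair_comm _ _
      have hnl : G.nb l = {r, r', v, q, p, y} := by
        ext u
        rw [nb_split s6 s4 h.out u]
        simp only [mem_insert, mem_singleton, or_assoc]
      have hnv : G.nb v = {r, r', l, q, p, y'} := by
        ext u
        rw [nb_split hXv u4 k.out u]
        simp only [mem_insert, mem_singleton, or_assoc]
      have htl : ∀ a, G.IsTw a → a ≠ l ∧ a ≠ v := fun a ha =>
        ⟨fun e => tw_not_low76 ha (by rw [e]; exact h.low),
          fun e => tw_not_low76 ha (by rw [e]; exact k.low)⟩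
      have hyl : y ≠ l := fun e => h.hy.1.1 (by rw [e]; exact h.low)
      have hyv : y ≠ v := fun e => h.hy.1.1 (by rw [e]; exact k.low)
      have hyl' : y' ≠ l := fun e => k.hy.1.1 (by rw [e]; exact h.low)
      have hyv' : y' ≠ v := fun e => k.hy.1.1 (by rw [e]; exact k.low)
      have hyy : y ≠ y' := by
        intro e
        subst e
        have h1 := G.conn {l, v} {r, r', q, p, y} ⟨l, by simp⟩ ?_ ?_ ?_
        · have h2 : ({r, r', q, p, y} : Finset V).card ≤ 5 := card_le_five
          omega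
        · rw [disjoint_left]
          intro a ha hb
          simp only [mem_insert, mem_singleton] at ha hb
          have hb' : (a ≠ l ∧ a ≠ v) := by
            rcases hb with rfl | rfl | rfl | rfl | rfl
            · exact htl _ (tw_of76 s5)
            · exact htl _ (tw_of76' s5)
            · exact htl _ (tw_of76 h.t)
            · exact htl _ (tw_of76' h.t)
            · exact ⟨hyl, hyv⟩
          tauto
        · intro u hu
          rw [mem_insert, mem_singleton] at hu
          rcases hu with rfl | rfl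
          · rw [hnl]
            intro a ha
            simp only [mem_insert, mem_singleton, mem_union] at ha ⊢
            tauto
          · rw [hnv]
            intro a ha
            simp only [mem_insert, mem_singleton, mem_union] at ha ⊢
            tauto
        · by_contra hc
          push Not at hc
          have h2 : (univ : Finset V) ⊆ {l, v} ∪ {r, r', q, p, y} := fun a _ => hc a
          have h3 := card_le_card h2
          have h4 := card_union_le ({l, v} : Finset V) {r, r', q, p, y}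
          have h5 : ({r, r', q, p, y} : Finset V).card ≤ 5 := card_le_five
          have h6 : ({l, v} : Finset V).card ≤ 2 := card_le_two
          rw [card_univ] at h3
          omega
      have hy1 : y ∉ G.nb v := by
        rw [hnv]
        simp only [mem_insert, mem_singleton, not_or]
        have a1 : y ≠ r := fun e => h.hy.1.2 (by rw [e]; exact tw_of76 s5)
        have a2 : y ≠ r' := fun e => h.hy.1.2 (by rw [e]; exact tw_of76' s5)
        have a3 : y ≠ q := fun e => h.hy.1.2 (by rw [e]; exact tw_of76 h.t)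
        have a4 : y ≠ p := fun e => h.hy.1.2 (by rw [e]; exact tw_of76' h.t)
        exact ⟨a1, a2, hyl, a3, a4, hyy⟩
      have hy2 : y' ∉ G.nb l := by
        rw [hnl]
        simp only [mem_insert, mem_singleton, not_or]
        have a1 : y' ≠ r := fun e => k.hy.1.2 (by rw [e]; exact tw_of76 s5)
        have a2 : y' ≠ r' := fun e => k.hy.1.2 (by rw [e]; exact tw_of76' s5)
        have a3 : y' ≠ q := fun e => k.hy.1.2 (by rw [e]; exact tw_of76 h.t)
        have a4 : y' ≠ p := fun e => k.hy.1.2 (by rw [e]; exact tw_of76' h.t)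
        exact ⟨a1, a2, hyv', a3, a4, hyy.symm⟩
      have hLL : G.LL l v y y' := by
        refine ⟨h.low, k.low, (mem_inter.1 (S0s.v_pT h)).1, hyy, ?_, ?_, ?_⟩
        · rw [mem_cl5]
          tauto
        · rw [mem_cl5]
          tauto
        · apply Finset.Subset.antisymm
          · intro u hu
            simp only [mem_insert, cl, hnl, hnv, mem_singleton] at hu ⊢
            rcases hu with rfl | rfl | rfl | rfl | rfl | rfl | rfl | rfl <;> simp
          · intro u hu
            simp only [mem_insert, cl, hnl, hnv, mem_singleton] at hu ⊢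
            rcases hu with rfl | rfl | rfl | rfl | rfl | rfl | rfl | rfl <;> simp
      have f1 : G.s5 B l ≤ 1 := K28.s5_LLs fun a ha => by
        have e : v = a := K28.S0_uniq ha (by rw [s4]; exact mem_singleton_self v)
        subst e
        exact ⟨⟨y, y', hLL⟩, by rw [hXv, s6]⟩
      have f2 : G.s5 B v ≤ 1 := K28.s5_LLs fun a ha => by
        have e : l = a := K28.S0_uniq ha (by rw [u4]; exact mem_singleton_self l)
        subst e
        exact ⟨⟨y', y, LL_symm5 hLL⟩, by rw [hXv, s6]⟩
      have g1 := S0s.ch_ge hr h9 h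
      have g2 := S0s.ch_ge hr h9 k
      have g3 := dn_L1 hG hq h.toL1 hlneg
      have g4 := dn_L1 hG hq k.toL1 k1
      omega
  · rcases k with ⟨k, k1, k2⟩
    exact absurd k.I0 hne0
  · rcases k with ⟨k, k1, k2⟩ | ⟨k, k1, k2, k3, k4⟩
    · exact absurd k.I0 hne0
    · exact absurd k.I0 hne0

end T57

/-- C7t -/
theorem stC7t_57 (G : CG V) : G.StC7t where
  one := fun _ hG _ _ hq _ _ => T57.dn_le hG hq
  low := fun _ hG _ _ hq _ _ h => T57.dn_low hG hq h
  lq := fun _ hG _ _ hq _ _ _ _ h => T57.dn_lq hG hq h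
  lv := fun _ hG _ _ hq _ _ _ _ _ h => T57.dn_lv hG hq h

end CG

end Pool.Agent.Lib.MP_e95c01_co.N
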