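import Pool.Agent.Lib.MP_e95c01_co.X.Defs76
import Pool.Agent.Lib.MP_e95c01_co.U.Ident11

/-!
# X1a, X1b, X1e: the identity and the formulas for `P5`
-/

namespace Pool.Agent.Lib.MP_e95c01_co.N

open Finset

variable {V : Type} [Fintype V] [DecidableEq V]

namespace CG

variable {G : CG V} {Fa : Finset (Finset V)}

/-- X1a -/
theorem stId5_50 (G : CG V) : G.StId5 := by
  classical
  intro Fa h
  have h1 := sum_split76 h (fun v => 2 * G.a5 v)
  have h2 := sum_N76 h (fun B w => G.a5 w + G.c5 w * ((G.d w B : ℤ) - (G.d w (G.Co B) : ℤ)) +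
    (G.flv B w - G.flv (G.Co B) w))
  have hP : ∑ B ∈ Fa, G.P5 B = ∑ B ∈ Fa, ∑ v ∈ B, 2 * G.a5 v +
      ∑ B ∈ Fa, ∑ w ∈ G.N B, (G.a5 w + G.c5 w * ((G.d w B : ℤ) - (G.d w (G.Co B) : ℤ)) +
        (G.flv B w - G.flv (G.Co B) w)) := by
    rw [← sum_add_distrib]
    rfl
  have hz : ∀ z ∈ R Fa, G.bal5 Fa z = 2 * G.a5 z - ∑ B ∈ G.I Fa z,
      (G.a5 z + G.c5 z * ((G.d z B : ℤ) - (G.d z (G.Co B) : ℤ)) +
        (G.flv B z - G.flv (G.Co B) z)) := by
    intro z hz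
    have h3 : ∑ B ∈ G.I Fa z, (G.flv B z - G.flv (G.Co B) z) =
        - ∑ B ∈ G.I Fa z, (G.flv (G.Co B) z - G.flv B z) := by
      rw [← sum_neg_distrib]
      exact sum_congr rfl fun B _ => by ring
    rw [sum_add_distrib, sum_add_distrib, ← mul_sum, sum_d11 h hz, sum_const, nsmul_eq_mul, h3,
      bal5]
    ring
  rw [sum_congr rfl hz, sum_sub_distrib, ← h2, hP, h1]
  ring

/-- X1b -/
theorem stPs5_50 (G : CG V) : G.StPs5 := by
  intro F hF
  obtain ⟨h1, h2, h3⟩ := G.stCo_37 F hF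
  rw [P5, P5, h2, h3, G.part11 F]
  have h4 : ∑ w ∈ G.N F, (G.a5 w + G.c5 w * ((G.d w F : ℤ) - (G.d w (G.Co F) : ℤ)) +
        (G.flv F w - G.flv (G.Co F) w)) +
      ∑ w ∈ G.N F, (G.a5 w + G.c5 w * ((G.d w (G.Co F) : ℤ) - (G.d w F : ℤ)) +
        (G.flv (G.Co F) w - G.flv F w)) = ∑ w ∈ G.N F, 2 * G.a5 w := by
    rw [← sum_add_distrib]
    exact sum_congr rfl fun w _ => by ring
  linarith

theorem sum_a5_50 (G : CG V) (S : Finset V) :
    ∑ v ∈ S, 2 * G.a5 v = 12 * (G.l S : ℤ) - 4 * (S.card : ℤ) := by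
  have h1 : ∀ v ∈ S, 2 * G.a5 v = 12 * (if G.Low v then 1 else 0) - 4 := by
    intro v _
    rw [a5]
    split_ifs <;> ring
  rw [sum_congr rfl h1, sum_sub_distrib, ← mul_sum, l, card_filter]
  push_cast
  rw [sum_const, nsmul_eq_mul]
  ring

/-- X1c -/
theorem stTot5_50 (G : CG V) : G.StTot5 := G.sum_a5_50 univ

/-- X1d -/
theorem stPay5_50 (G : CG V) : G.StPay5 :=
  fun _ p => swap11 (fun x z => p x z - p z x) fun x z => by ring

/-- X1e -/
theorem stP5F_50 (G : CG V) : G.StP5F := by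
  classical
  intro F hF
  rw [P5, sum_a5_50, sum_add_distrib]
  have h6 : (G.N F).card = 6 := hF.2.1
  have h1 : ∀ w ∈ G.N F, G.a5 w + G.c5 w * ((G.d w F : ℤ) - (G.d w (G.Co F) : ℤ)) =
      -2 + (if G.Low w then (4 * (G.d w F : ℤ) + 2 * (G.d w (G.N F) : ℤ) - 6) else 0) +
        (if G.IsTw w then (2 * (G.d w F : ℤ) + (G.d w (G.N F) : ℤ) - 7) else 0) := by
    intro w _
    have h2 := d_split76 (G := G) w F
    have h3 : (G.nb w ∩ G.N F).card = G.d w (G.N F) := rfl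
    rw [h3] at h2
    rw [a5, c5]
    by_cases hl : G.Low w
    · have ht : ¬ G.IsTw w := fun h => tw_not_low11 h hl
      rw [if_pos hl, if_pos hl, if_pos hl, if_neg ht]
      have h4 : (G.nb w).card = 6 := hl
      omega
    · by_cases ht : G.IsTw w
      · rw [if_neg hl, if_neg hl, if_neg hl, if_pos ht, if_pos ht]
        have h4 := tw_card11 ht
        omega
      · rw [if_neg hl, if_neg hl, if_neg hl, if_neg ht, if_neg ht]
        ring
  rw [sum_congr rfl h1, sum_add_distrib, sum_add_distrib, sum_const, h6, ← sum_filter,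
    ← sum_filter]
  have h7 : ∀ p : V → Prop, ∀ i1 i2 : DecidablePred p, ∀ f : V → ℤ,
      ∑ w ∈ @Finset.filter V p i1 (G.N F), f w = ∑ w ∈ @Finset.filter V p i2 (G.N F), f w := by
    intro p i1 i2 f
    congr
  simp only [nsmul_eq_mul]
  push_cast
  rw [h7 (fun w => G.IsTw w) _ (fun a => Classical.propDecidable _)]
  ring

end CG

end Pool.Agent.Lib.MP_e95c01_co.N
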