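import Pool.Agent.Lib.MP_e95c01_co.X.Defs76
import Pool.Agent.Lib.MP_e95c01_co.U.StCh4_11

/-!
# X1f: the balances without flags
-/

namespace Pool.Agent.Lib.MP_e95c01_co.N

open Finset

variable {V : Type} [Fintype V] [DecidableEq V]

namespace CG

variable {G : CG V} {Fa : Finset (Finset V)}

/-- a hub has no flags -/
theorem flv_hub50 {z : V} (hz : G.Hub z) (S : Finset V) : G.flv S z = 0 := by
  classical
  have h1 : ¬ ∃ v, G.S0 S z v ∧ ¬ G.LLs S z v := fun ⟨_, h, _⟩ => hz.1 h.2.1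
  have h2 : ¬ ∃ v, G.S0 S z v ∧ G.pT S v = {z} := fun ⟨_, h, _⟩ => hz.1 h.2.1
  have h3 : ¬ G.U3 S z := fun h => hz.1 h.2.1
  have h4 : ¬ G.T3 S z := fun h => hz.1 h.2.1
  have h5 : ¬ G.HF S z := fun h => hz.1 h.2.1
  have h6 : ¬ G.RF S z := fun ⟨_, p', _, _, h, _⟩ => hz.2 ⟨p', h⟩
  rw [flv, s5, if_neg h1, if_neg h2, if_neg h3, if_neg h4, if_neg h5, if_neg h6]
  norm_num

/-- neighbours in `R` of a vertex in one neighbourhood -/
theorem nR_one50 (h : G.Reg Fa) {z : V} (hz : z ∈ R Fa) {B : Finset V} (hI : G.I Fa z = {B}) :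
    ((G.nR Fa z).card : ℤ) + (G.d z B : ℤ) = ((G.nb z).card : ℤ) := by
  have h1 := nb_split76 h hz
  rw [hI] at h1
  simp only [sum_singleton] at h1
  linarith

theorem bal_empty50 (h : G.Reg Fa) {z : V} (hz : z ∈ R Fa) (hI : G.I Fa z = ∅) :
    G.bal5 Fa z = 2 * G.a5 z := by
  obtain ⟨h1, h2⟩ := nR_empty11 h hz hI
  rw [bal5, hI, card_empty, sum_empty, sum_sub_distrib, h2, sum_const, nsmul_eq_mul, h1]
  push_cast
  ring

theorem bal_single50 (h : G.Reg Fa) {z : V} (hz : z ∈ R Fa) {B : Finset V}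
    (hI : G.I Fa z = {B}) : G.bal5 Fa z = G.a5 z +
      G.c5 z * ((G.d z (G.Co B) : ℤ) - (G.d z B : ℤ)) + (G.flv (G.Co B) z - G.flv B z) := by
  have h1 := nR_one50 h hz hI
  have h2 := nR_single11 h hz hI
  have h3 : ∑ x ∈ G.nR Fa z, (2 - (G.m Fa x z : ℤ)) =
      2 * ((G.nR Fa z).card : ℤ) - ∑ x ∈ G.nR Fa z, (G.m Fa x z : ℤ) := by
    rw [sum_sub_distrib, sum_const, nsmul_eq_mul]
    ring
  have h4 : (((({B} : Finset (Finset V)).card : ℤ) - 2) * ((G.nb z).card : ℤ) +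
      ∑ x ∈ G.nR Fa z, (2 - (G.m Fa x z : ℤ))) = (G.d z (G.Co B) : ℤ) - (G.d z B : ℤ) := by
    rw [h3, card_singleton]
    push_cast
    linarith
  rw [bal5, hI, sum_singleton, h4, card_singleton]
  push_cast
  ring

/-- X1f -/
theorem stBal5_50 (G : CG V) : G.StBal5 := by
  classical
  intro _ Fa h _ z hz
  refine ⟨fun hl => ⟨fun hI => ?_, fun B hI => ?_⟩, fun ht => ⟨fun hI => ?_, fun B hI => ?_⟩,
    fun hh => ?_⟩
  · rw [bal_empty50 h hz hI, a5, if_pos hl]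
    norm_num
  · rw [bal_single50 h hz hI, a5, if_pos hl, c5, if_pos hl]
    ring
  · rw [bal_empty50 h hz hI, a5, if_neg (tw_not_low11 ht)]
    norm_num
  · rw [bal_single50 h hz hI, a5, if_neg (tw_not_low11 ht), c5, if_neg (tw_not_low11 ht),
      if_pos ht]
    ring
  · have h0 : ∑ B ∈ G.I Fa z, (G.flv (G.Co B) z - G.flv B z) = 0 :=
      sum_eq_zero fun B _ => by rw [flv_hub50 hh, flv_hub50 hh, sub_zero]
    rw [bal5, a5, if_neg hh.1, c5, if_neg hh.1, if_neg hh.2, h0]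
    ring

end CG

end Pool.Agent.Lib.MP_e95c01_co.N
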