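import Pool.Agent.Lib.MP_e95c01_co.X.K0_28
import Pool.Agent.Lib.MP_e95c01_co.X.Ident50
import Pool.Agent.Lib.MP_e95c01_co.X.StBal50
import Pool.Agent.Lib.MP_e95c01_co.U.StTwHL5

/-!
# `λ = 3`, thick torsos: the charges after the first payments
-/

namespace Pool.Agent.Lib.MP_e95c01_co.N

open Finset

variable {V : Type} [Fintype V] [DecidableEq V]

namespace CG

namespace K28

variable {G : CG V} {Fa : Finset (Finset V)}

theorem pay_to_low {x z : V} (hz : G.Low z) : G.pay5 Fa x z = 0 := by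
  classical
  have h1 : ¬ G.Hub z := fun h => h.1 hz
  unfold pay5
  by_cases h2 : 2 ≤ (G.I Fa z).card ∨ ¬ G.Us5 Fa x z
  · rw [if_pos h2]
  · rw [if_neg h2]
    by_cases h3 : G.Low x
    · rw [if_pos h3, if_pos hz]
    · rw [if_neg h3]
      by_cases h4 : G.IsTw x
      · rw [if_pos h4, if_neg h1]
      · rw [if_neg h4]

theorem pay_from_hub {x z : V} (hz : G.Hub z) : G.pay5 Fa z x = 0 := by
  classical
  unfold pay5
  by_cases h2 : 2 ≤ (G.I Fa x).card ∨ ¬ G.Us5 Fa z x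
  · rw [if_pos h2]
  · rw [if_neg h2, if_neg hz.1, if_neg hz.2]

theorem pay_to_many {x z : V} (hz : 2 ≤ (G.I Fa z).card) : G.pay5 Fa x z = 0 := by
  unfold pay5
  rw [if_pos (Or.inl hz)]

theorem us_few {w x : V} (h : (G.I Fa w).card ≤ 1) : G.Us5 Fa w x := Or.inl h

theorem us_m {w x : V} (h : G.m Fa x w = 0) : G.Us5 Fa w x := Or.inr (Or.inl h)

theorem us_empty {w x : V} (h : G.I Fa x = ∅) : G.Us5 Fa w x := us_m (by
  rw [m, h, empty_inter, card_empty])

theorem tw_not_hub {z : V} (hz : G.IsTw z) : ¬ G.Hub z := fun h => h.2 hz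

theorem tw_not_HL (h9 : 9 ≤ Fintype.card V) {z : V} (hz : G.IsTw z) : ¬ ∃ b t, G.HL z b t :=
  fun ⟨_, _, h⟩ => (stTwHL_5 G).notHL h9 _ _ _ h hz

open Classical in
/-- the payment of a low vertex in at most one neighbourhood -/
theorem pay_from_low (h9 : 9 ≤ Fintype.card V) {x z : V} (hz : G.Low z)
    (hk : (G.I Fa z).card ≤ 1) : G.pay5 Fa z x = 2 -
      2 * (if (G.Low x ∨ 2 ≤ (G.I Fa x).card ∨ ∃ b, G.HL x b z) then (1 : ℤ) else 0) -
      (if (G.IsTw x ∧ (G.I Fa x).card ≤ 1 ∧ G.m Fa x z ≠ 0) then (1 : ℤ) else 0) := by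
  unfold pay5
  by_cases h2 : 2 ≤ (G.I Fa x).card
  · rw [if_pos (Or.inl h2), if_pos (Or.inr (Or.inl h2)), if_neg (fun h => by omega)]
    norm_num
  · rw [if_neg (show ¬ (2 ≤ (G.I Fa x).card ∨ ¬ G.Us5 Fa z x) from
      fun h => h.elim h2 fun h => h (us_few hk)), if_pos hz]
    by_cases h3 : G.Low x
    · have h4 : ¬ G.IsTw x := fun h => tw_not_low11 h h3
      rw [if_pos h3, if_pos (Or.inl h3), if_neg (fun h => h4 h.1)]
      norm_num
    · rw [if_neg h3]
      by_cases h4 : G.IsTw x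
      · have h5 : ¬ ∃ b, G.HL x b z := fun ⟨b, hb⟩ => tw_not_HL h9 h4 ⟨b, z, hb⟩
        rw [if_pos h4, if_neg (show ¬ (G.Low x ∨ 2 ≤ (G.I Fa x).card ∨ ∃ b, G.HL x b z) by tauto)]
        by_cases h6 : G.m Fa x z = 0
        · rw [if_pos h6, if_neg (fun h => h.2.2 h6)]
          norm_num
        · rw [if_neg h6, if_pos ⟨h4, by omega, h6⟩]
          norm_num
      · rw [if_neg h4, if_neg (fun h : G.IsTw x ∧ _ => h4 h.1)]
        by_cases h5 : ∃ b, G.HL x b z
        · rw [if_pos h5, if_pos (Or.inr (Or.inr h5))]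
          norm_num
        · rw [if_neg h5,
            if_neg (show ¬ (G.Low x ∨ 2 ≤ (G.I Fa x).card ∨ ∃ b, G.HL x b z) by tauto)]
          norm_num

open Classical in
/-- the payment to a twin vertex in at most one neighbourhood -/
theorem pay_to_tw {x z : V} (hz : G.IsTw z) (hk : (G.I Fa z).card ≤ 1) :
    G.pay5 Fa x z = 2 * (if (G.Low x ∧ G.m Fa x z = 0) then (1 : ℤ) else 0) +
      (if (G.Low x ∧ G.m Fa x z ≠ 0 ∧ G.Us5 Fa x z) then (1 : ℤ) else 0) := by
  have h1 : ¬ G.Low z := tw_not_low11 hz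
  unfold pay5
  by_cases hu : G.Us5 Fa x z
  · rw [if_neg (show ¬ (2 ≤ (G.I Fa z).card ∨ ¬ G.Us5 Fa x z) from
      fun h => h.elim (fun h => by omega) fun h => h hu)]
    by_cases h3 : G.Low x
    · rw [if_pos h3, if_neg h1, if_pos hz]
      by_cases h6 : G.m Fa x z = 0
      · rw [if_pos (by rw [m_comm76]; exact h6), if_pos ⟨h3, h6⟩, if_neg (fun h => h.2.1 h6)]
        norm_num
      · rw [if_neg (by rw [m_comm76]; exact h6), if_neg (fun h => h6 h.2), if_pos ⟨h3, h6, hu⟩]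
        norm_num
    · rw [if_neg h3, if_neg (fun h : G.Low x ∧ _ => h3 h.1),
        if_neg (fun h : G.Low x ∧ _ => h3 h.1)]
      by_cases h4 : G.IsTw x
      · rw [if_pos h4, if_neg (tw_not_hub hz)]
        norm_num
      · rw [if_neg h4]
        norm_num
  · have h6 : ¬ G.m Fa x z = 0 := fun h => hu (us_m (by rw [m_comm76]; exact h))
    rw [if_pos (Or.inr hu), if_neg (fun h => h6 h.2), if_neg (fun h => hu h.2.2)]
    norm_num

open Classical in
/-- the payment of a twin vertex in at most one neighbourhood -/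
theorem pay_from_tw {x z : V} (hz : G.IsTw z) (hk : (G.I Fa z).card ≤ 1) :
    G.pay5 Fa z x = (if (G.Hub x ∧ (G.I Fa x).card ≤ 1) then (1 : ℤ) else 0) := by
  unfold pay5
  by_cases h2 : 2 ≤ (G.I Fa x).card
  · rw [if_pos (Or.inl h2), if_neg (fun h => by omega)]
  · rw [if_neg (show ¬ (2 ≤ (G.I Fa x).card ∨ ¬ G.Us5 Fa z x) from
      fun h => h.elim h2 fun h => h (us_few hk)), if_neg (tw_not_low11 hz), if_pos hz]
    by_cases h3 : G.Hub x
    · rw [if_pos h3, if_pos ⟨h3, by omega⟩]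
    · rw [if_neg h3, if_neg (fun h => h3 h.1)]

open Classical in
/-- the payment to a hub in at most one neighbourhood -/
theorem pay_to_hub {x z : V} (hz : G.Hub z) (hk : (G.I Fa z).card ≤ 1) :
    G.pay5 Fa x z =
      2 * (if G.Low x ∧ (¬ ∃ b, G.HL z b x) ∧ G.Us5 Fa x z then (1 : ℤ) else 0) +
      (if G.IsTw x ∧ G.Us5 Fa x z then (1 : ℤ) else 0) := by
  unfold pay5
  by_cases hu : G.Us5 Fa x z
  · rw [if_neg (show ¬ (2 ≤ (G.I Fa z).card ∨ ¬ G.Us5 Fa x z) from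
      fun h => h.elim (fun h => by omega) fun h => h hu)]
    by_cases h3 : G.Low x
    · have h4 : ¬ G.IsTw x := fun h => tw_not_low11 h h3
      rw [if_pos h3, if_neg hz.1, if_neg hz.2, if_neg (fun h : G.IsTw x ∧ _ => h4 h.1)]
      by_cases h5 : ∃ b, G.HL z b x
      · rw [if_pos h5, if_neg (fun h => h.2.1 h5)]
        norm_num
      · rw [if_neg h5, if_pos ⟨h3, h5, hu⟩]
        norm_num
    · rw [if_neg h3, if_neg (fun h : G.Low x ∧ _ => h3 h.1)]
      by_cases h4 : G.IsTw x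
      · rw [if_pos h4, if_pos hz, if_pos ⟨h4, hu⟩]
        norm_num
      · rw [if_neg h4, if_neg (fun h : G.IsTw x ∧ _ => h4 h.1)]
        norm_num
  · rw [if_pos (Or.inr hu), if_neg (fun h => hu h.2.2), if_neg (fun h => hu h.2)]
    norm_num

/-- income and payments of a low vertex in at most one neighbourhood -/
theorem inc_low (h9 : 9 ≤ Fintype.card V) {z : V} (hz : G.Low z) (hk : (G.I Fa z).card ≤ 1) :
    ∑ x ∈ G.nR Fa z, (G.pay5 Fa x z - G.pay5 Fa z x) =
      2 * ((G.NF Fa z).card : ℤ) + ((G.NP Fa z).card : ℤ) - 2 * ((G.nR Fa z).card : ℤ) := by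
  classical
  have e1 : ∑ x ∈ G.nR Fa z, (if (G.Low x ∨ 2 ≤ (G.I Fa x).card ∨ ∃ b, G.HL x b z) then (1 : ℤ)
      else 0) = ((G.NF Fa z).card : ℤ) := by
    rw [NF, card_filter]
    push_cast
    exact sum_congr rfl fun x _ => by split_ifs <;> rfl
  have e2 : ∑ x ∈ G.nR Fa z, (if (G.IsTw x ∧ (G.I Fa x).card ≤ 1 ∧ G.m Fa x z ≠ 0) then (1 : ℤ)
      else 0) = ((G.NP Fa z).card : ℤ) := by
    rw [NP, card_filter]
    push_cast
    exact sum_congr rfl fun x _ => by split_ifs <;> rfl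
  have e3 : ∑ x ∈ G.nR Fa z, (2 : ℤ) = 2 * ((G.nR Fa z).card : ℤ) := by
    rw [sum_const, nsmul_eq_mul]
    ring
  rw [← e1, ← e2, ← e3, mul_sum, ← sum_add_distrib, ← sum_sub_distrib]
  refine sum_congr rfl fun x _ => ?_
  rw [pay_to_low hz, pay_from_low h9 hz hk]
  ring

/-- income and payments of a twin vertex in at most one neighbourhood -/
theorem inc_tw {z : V} (hz : G.IsTw z) (hk : (G.I Fa z).card ≤ 1) :
    ∑ x ∈ G.nR Fa z, (G.pay5 Fa x z - G.pay5 Fa z x) =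
      2 * ((G.NO Fa z).card : ℤ) + ((G.NT Fa z).card : ℤ) - ((G.NH Fa z).card : ℤ) := by
  classical
  have e0 : ∑ x ∈ G.nR Fa z, (if (G.Low x ∧ G.m Fa x z = 0) then (1 : ℤ)
      else 0) = ((G.NO Fa z).card : ℤ) := by
    rw [NO, card_filter]
    push_cast
    exact sum_congr rfl fun x _ => by split_ifs <;> rfl
  have e1 : ∑ x ∈ G.nR Fa z, (if (G.Low x ∧ G.m Fa x z ≠ 0 ∧ G.Us5 Fa x z) then (1 : ℤ)
      else 0) = ((G.NT Fa z).card : ℤ) := by
    rw [NT, card_filter]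
    push_cast
    exact sum_congr rfl fun x _ => by split_ifs <;> rfl
  have e2 : ∑ x ∈ G.nR Fa z, (if (G.Hub x ∧ (G.I Fa x).card ≤ 1) then (1 : ℤ)
      else 0) = ((G.NH Fa z).card : ℤ) := by
    rw [NH, card_filter]
    push_cast
    exact sum_congr rfl fun x _ => by split_ifs <;> rfl
  rw [← e0, ← e1, ← e2, mul_sum, ← sum_add_distrib, ← sum_sub_distrib]
  refine sum_congr rfl fun x _ => ?_
  rw [pay_to_tw hz hk, pay_from_tw hz hk]

/-- income of a hub -/
theorem inc_hub {z : V} (hz : G.Hub z) (hk : (G.I Fa z).card ≤ 1) :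
    ∑ x ∈ G.nR Fa z, (G.pay5 Fa x z - G.pay5 Fa z x) =
      2 * ((G.HPl Fa z).card : ℤ) + ((G.HPt Fa z).card : ℤ) := by
  classical
  have e1 : ∑ x ∈ G.nR Fa z, (if (G.Low x ∧ (¬ ∃ b, G.HL z b x) ∧ G.Us5 Fa x z) then (1 : ℤ)
      else 0) = ((G.HPl Fa z).card : ℤ) := by
    rw [HPl, card_filter]
    push_cast
    exact sum_congr rfl fun x _ => by split_ifs <;> rfl
  have e2 : ∑ x ∈ G.nR Fa z, (if (G.IsTw x ∧ G.Us5 Fa x z) then (1 : ℤ)
      else 0) = ((G.HPt Fa z).card : ℤ) := by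
    rw [HPt, card_filter]
    push_cast
    exact sum_congr rfl fun x _ => by split_ifs <;> rfl
  rw [← e1, ← e2, mul_sum, ← sum_add_distrib]
  refine sum_congr rfl fun x _ => ?_
  rw [pay_to_hub hz hk, pay_from_hub hz]
  ring

/-- the balance of a hub -/
theorem bal_hub {z : V} (hz : G.Hub z) : G.bal5 Fa z = 2 * ((G.I Fa z).card : ℤ) - 4 := by
  have h0 : ∑ B ∈ G.I Fa z, (G.flv (G.Co B) z - G.flv B z) = 0 :=
    sum_eq_zero fun B _ => by rw [flv_hub50 hz, flv_hub50 hz, sub_zero]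
  rw [bal5, a5, if_neg hz.1, c5, if_neg hz.1, if_neg hz.2, h0]
  ring

/-- vertices without a neighbourhood: no flags, no common neighbourhoods -/
theorem NP_empty {z : V} (hI : G.I Fa z = ∅) : G.NP Fa z = ∅ := by
  classical
  rw [NP, filter_eq_empty_iff]
  rintro x _ ⟨-, -, h⟩
  apply h
  rw [m, hI, inter_empty, card_empty]

theorem NT_empty {z : V} (hI : G.I Fa z = ∅) : G.NT Fa z = ∅ := by
  classical
  rw [NT, filter_eq_empty_iff]
  rintro x _ ⟨-, h, -⟩
  apply h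
  rw [m, hI, inter_empty, card_empty]

theorem NO_empty {z : V} (hI : G.I Fa z = ∅) : (G.NO Fa z).card = G.tl Fa z := by
  classical
  rw [NO, tl]
  congr 1
  refine filter_congr fun x _ => ?_
  rw [m, hI, inter_empty, card_empty]
  simp

theorem fg_empty {z : V} (hI : G.I Fa z = ∅) : G.fg5 Fa z = 0 := by
  rw [fg5, hI, sum_empty]

theorem fg_single {z : V} {B : Finset V} (hI : G.I Fa z = {B}) :
    G.fg5 Fa z = G.flv (G.Co B) z - G.flv B z := by
  rw [fg5, hI, sum_singleton]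

theorem fg_hub {z : V} (hz : G.Hub z) : G.fg5 Fa z = 0 :=
  sum_eq_zero fun B _ => by rw [flv_hub50 hz, flv_hub50 hz, sub_zero]

end K28

open K28

/-- K1 -/
theorem stCh5_28 (G : CG V) : G.StCh5 := by
  classical
  refine ⟨fun Fa => ?_, fun h9 Fa h z hz hl hI => ?_, fun h9 Fa h z hz hl B hI => ?_,
    fun h9 Fa h z hz hl => ?_, fun h9 Fa h z hz ht hI => ?_, fun h9 Fa h z hz ht B hI => ?_,
    fun h9 Fa h z hz ht => ?_, fun Fa z hz hh hk => ?_, fun Fa z hz hh hk => ?_⟩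
  · have h1 := G.stPay5_50 Fa (G.pay5 Fa)
    unfold ch5
    rw [sum_add_distrib, h1, add_zero]
  · rw [ch5, inc_low h9 hl (by rw [hI]; simp), bal_empty50 h hz hI, a5, if_pos hl, NP_empty hI,
      card_empty, (nR_empty11 h hz hI).1]
    have h6 : (G.nb z).card = 6 := hl
    rw [h6]
    push_cast
    ring
  · rw [ch5, inc_low h9 hl (by rw [hI]; simp), bal_single50 h hz hI, a5, if_pos hl, c5,
      if_pos hl, fg_single hI]
    have h1 := nR_one50 h hz hI
    have h6 : (G.nb z).card = 6 := hl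
    rw [h6] at h1
    push_cast at h1
    linarith
  · have h6 : (G.nb z).card = 6 := hl
    have e : ∑ x ∈ G.nR Fa z, G.w5 Fa x z = 2 * ∑ x ∈ G.nR Fa z, (2 - (G.m Fa x z : ℤ)) +
        ∑ x ∈ G.nR Fa z, (G.pay5 Fa x z - G.pay5 Fa z x) := by
      rw [mul_sum, ← sum_add_distrib]
      refine sum_congr rfl fun x _ => ?_
      rw [w5, pay_to_low hl]
      ring
    rw [ch5, e, bal5, a5, if_pos hl, c5, if_pos hl, h6, fg5]
    push_cast
    ring
  · have hl := tw_not_low11 ht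
    rw [ch5, inc_tw ht (by rw [hI]; simp), bal_empty50 h hz hI, a5, if_neg hl, NT_empty hI,
      card_empty, NO_empty hI]
    push_cast
    ring
  · have hl := tw_not_low11 ht
    rw [ch5, inc_tw ht (by rw [hI]; simp), bal_single50 h hz hI, a5, if_neg hl, c5, if_neg hl,
      if_pos ht, fg_single hI]
    have h1 := d_split76 (G := G) z B
    have h3 := tw_card11 ht
    have h4 : (G.nb z ∩ G.N B).card = G.d z (G.N B) := rfl
    omega
  · have hl := tw_not_low11 ht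
    have e : ∑ x ∈ G.nR Fa z, G.v5 Fa x z = ∑ x ∈ G.nR Fa z, (2 - (G.m Fa x z : ℤ)) +
        ∑ x ∈ G.nR Fa z, (G.pay5 Fa x z - G.pay5 Fa z x) := by
      rw [← sum_add_distrib]
      refine sum_congr rfl fun x _ => ?_
      rw [v5]
      ring
    rw [ch5, e, bal5, a5, if_neg hl, c5, if_neg hl, if_pos ht, tw_card11 ht, fg5]
    push_cast
    ring
  · rw [ch5, inc_hub hh hk, bal_hub hh]
    ring
  · have e : ∑ x ∈ G.nR Fa z, (G.pay5 Fa x z - G.pay5 Fa z x) = 0 :=
      sum_eq_zero fun x _ => by rw [pay_to_many hk, pay_from_hub hh, sub_zero]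
    rw [ch5, e, bal_hub hh, add_zero]

end CG

end Pool.Agent.Lib.MP_e95c01_co.N
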