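import Pool.Agent.Lib.MP_e95c01_co.X.K2_86
import Pool.Agent.Lib.MP_e95c01_co.X.K1_28
import Pool.Agent.Lib.MP_e95c01_co.T.StHub42

/-!
# Thick torsos: hubs receive enough

The classes that cover an edge at a hub pay the hub.
-/

namespace Pool.Agent.Lib.MP_e95c01_co.N

open Finset

variable {V : Type} [Fintype V] [DecidableEq V]

namespace CG

variable {G : CG V} {Fa : Finset (Finset V)}

theorem mem_HPl50 {z w : V} : w ∈ G.HPl Fa z ↔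
    w ∈ G.nR Fa z ∧ G.Low w ∧ (¬ ∃ b, G.HL z b w) ∧ G.Us5 Fa w z := by
  classical
  rw [HPl, mem_filter]

theorem mem_HPt50 {z w : V} : w ∈ G.HPt Fa z ↔ w ∈ G.nR Fa z ∧ G.IsTw w ∧ G.Us5 Fa w z := by
  classical
  rw [HPt, mem_filter]

/-- the members of the family at `b` are also at `a` -/
theorem HL_I50 {a b t : V} (h : G.HL a b t) (ha : a ∈ R Fa) : G.I Fa b ⊆ G.I Fa a := by
  intro B hB
  obtain ⟨h1, h2⟩ := mem_I76.1 hB
  obtain ⟨h3, y, hy, h4⟩ := mem_N76.1 h2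
  have hyb : y ∈ G.nb b := G.sym _ _ h4
  have hya : y ≠ a := by
    rintro rfl
    exact mem_R76.1 ha B h1 hy
  exact I_of_nb76 ha h1 (HL_sub76 h hyb hya) hy

theorem LL_I50 {a b t u : V} (h : G.LL a b t u) (ha : a ∈ R Fa) (hu : u ∈ R Fa) :
    G.I Fa b ⊆ G.I Fa a := by
  intro B hB
  obtain ⟨h1, h2⟩ := mem_I76.1 hB
  obtain ⟨h3, y, hy, h4⟩ := mem_N76.1 h2
  have hyb : y ∈ G.nb b := G.sym _ _ h4
  have hyu : y ≠ u := by
    rintro rfl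
    exact mem_R76.1 hu B h1 hy
  have hya : y ≠ a := by
    rintro rfl
    exact mem_R76.1 ha B h1 hy
  rcases LL_from76 h hyb hyu with h5 | h5
  · exact absurd h5 hya
  · exact I_of_nb76 ha h1 h5 hy

/-- the covering classes of the edge `z u` at a vertex `z` that is not low, with the clause -/
theorem cls50 (hG : G.Gen5 Fa) {z u : V} (hz : z ∈ R Fa) (hh : ¬ G.Low z)
    (hu : u ∈ G.nR Fa z) (hm : G.m Fa z u = 0) :
    (∃ w ∈ G.nR Fa z, G.Low w ∧ G.Us5 Fa w z ∧ u ∈ G.nb w) ∨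
    (∃ v ∈ G.nR Fa z, ∃ w ∈ G.nR Fa z, G.Tw v w ∧ G.Us5 Fa v z ∧ G.Us5 Fa w z ∧
      u ∈ G.nb v ∧ u ∈ G.nb w) ∨
    (∃ b ∈ G.nR Fa z, ∃ a ∈ G.nR Fa z, G.Us5 Fa b z ∧ G.HL a b u) ∨
    (∃ a ∈ G.nR Fa z, ∃ b ∈ R Fa, G.Us5 Fa a z ∧ G.LL a b z u) := by
  rcases cov3_76 (qs16 G) (tor86 hG) hz hu hm with h | h | h | h | h
  · obtain ⟨w, h1, h2, h3, h4⟩ := h
    exact Or.inl ⟨w, h1, h3, Or.inr (Or.inr ⟨u, hu, hm, Or.inl h4⟩), h4⟩
  · obtain ⟨v, w, h1, h2, h3, h4, h5⟩ := h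
    exact Or.inr (Or.inl ⟨v, h1, w, h2, h3, Or.inr (Or.inr ⟨u, hu, hm, Or.inl h4⟩),
      Or.inr (Or.inr ⟨u, hu, hm, Or.inl h5⟩), h4, h5⟩)
  · obtain ⟨a, b, h1, h2, h3, -⟩ := h
    exact absurd h3 hh
  · obtain ⟨a, b, h1, h2, h3, h4, h5⟩ := h
    have h6 : z ∈ G.nb a := HL_sub76 h4 (G.sym _ _ (mem_nR76.1 h1).1) h5
    exact Or.inr (Or.inr (Or.inl ⟨b, h1, a, mem_nR76.2 ⟨G.sym _ _ h6, h2⟩,
      Or.inr (Or.inr ⟨u, hu, hm, Or.inr (Or.inr ⟨a, h2, h4, h6⟩)⟩), h4⟩))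
  · obtain ⟨a, b, h1, h2, h3, h4⟩ := h
    exact Or.inr (Or.inr (Or.inr ⟨a, h1, b, h2,
      Or.inr (Or.inr ⟨u, hu, hm, Or.inr (Or.inl ⟨b, h2, h4⟩)⟩), h4⟩))

/-- the covering classes of an edge at a hub pay the hub -/
theorem payer50 (hG : G.Gen5 Fa) {z u : V} (hz : z ∈ R Fa) (hh : G.Hub z)
    (hu : u ∈ G.nR Fa z) (hm : G.m Fa z u = 0) (hno : ∀ b t, ¬ G.HL z b t) :
    (∃ w ∈ G.HPl Fa z, u ∈ G.nb w) ∨
    (∃ v ∈ G.HPt Fa z, ∃ w ∈ G.HPt Fa z, G.Tw v w ∧ u ∈ G.nb v ∧ u ∈ G.nb w) ∨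
    (∃ b ∈ G.HPl Fa z, ∃ a ∈ G.nR Fa z, G.HL a b u) ∨
    (∃ a ∈ G.HPl Fa z, ∃ b ∈ R Fa, G.LL a b z u) := by
  rcases cls50 hG hz hh.1 hu hm with h | h | h | h
  · obtain ⟨w, h1, h2, h3, h4⟩ := h
    exact Or.inl ⟨w, mem_HPl50.2 ⟨h1, h2, fun ⟨b, hb⟩ => hno _ _ hb, h3⟩, h4⟩
  · obtain ⟨v, h1, w, h2, h3, h4, h5, h6, h7⟩ := h
    exact Or.inr (Or.inl ⟨v, mem_HPt50.2 ⟨h1, ⟨w, h3⟩, h4⟩, w,
      mem_HPt50.2 ⟨h2, ⟨v, (qs16 G).symm _ _ h3⟩, h5⟩, h3, h6, h7⟩)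
  · obtain ⟨b, h1, a, h2, h3, h4⟩ := h
    exact Or.inr (Or.inr (Or.inl ⟨b, mem_HPl50.2 ⟨h1, h4.2.1, fun ⟨b, hb⟩ => hno _ _ hb, h3⟩,
      a, h2, h4⟩))
  · obtain ⟨a, h1, b, h2, h3, h4⟩ := h
    exact Or.inr (Or.inr (Or.inr ⟨a, mem_HPl50.2 ⟨h1, h4.1, fun ⟨b, hb⟩ => hno _ _ hb, h3⟩,
      b, h2, h4⟩))

/-- the middle vertex of `HL z b t` is in `R` and pays `z` -/
theorem HLpay50 (hG : G.Gen5 Fa) {z b t : V} (hz : z ∈ R Fa) (h : G.HL z b t)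
    (hk : (G.I Fa z).card ≤ 1) (hd : ∀ B ∈ G.I Fa z, 2 ≤ G.d z (G.Co B)) :
    b ∈ G.HPl Fa z := by
  have hb : b ∈ G.nR Fa z := by
    refine nR_of5 hz h.2.2.1 ?_
    intro B' hB' hbB
    have h1 : G.nb z ∩ G.Co B' ⊆ {t} := by
      intro x hx
      rw [mem_inter] at hx
      rw [mem_singleton]
      by_contra hxt
      rcases HL_sup76 h hx.1 hxt with h2 | h2
      · subst h2
        exact (mem_Co76.1 hx.2).1 hbB
      · exact nb_Co76 hx.2 (G.sym _ _ h2) hbB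
    have h2 := Finset.card_le_card h1
    rw [Finset.card_singleton] at h2
    have h3 := hd B' hB'
    unfold d at h3
    omega
  obtain ⟨h1, h2, h3⟩ := HLb_paid42 (tor86 hG) h hb
  refine mem_HPl50.2 ⟨h1, h2, h3, Or.inl ?_⟩
  exact (card_le_card (HL_I50 h hz)).trans hk

/-- a hub in one neighbourhood is paid -/
theorem hub1_50 (hG : G.Gen5 Fa) {z : V} (hz : z ∈ R Fa) (hh : G.Hub z) {B : Finset V}
    (hI : G.I Fa z = {B}) : 1 ≤ (G.HPl Fa z).card ∨ 2 ≤ (G.HPt Fa z).card := by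
  have hd := e1_86 hG hz hI
  by_cases hHL : ∃ b t, G.HL z b t
  · obtain ⟨b, t, h⟩ := hHL
    left
    refine card_pos.2 ⟨b, HLpay50 hG hz h (by rw [hI, card_singleton]) ?_⟩
    intro B' hB'
    rw [hI, mem_singleton] at hB'
    rw [hB']
    exact hd
  · have hno : ∀ b t, ¬ G.HL z b t := fun b t h => hHL ⟨b, t, h⟩
    have h1 : (G.nb z ∩ G.Co B).Nonempty := by
      rw [← Finset.card_pos]
      unfold d at hd
      omega
    obtain ⟨u, hu⟩ := h1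
    rcases payer50 hG hz hh (nR_Co5 hz hI hu) (m_Co5 hI (mem_inter.1 hu).2) hno with
      h | h | h | h
    · obtain ⟨w, h2, -⟩ := h
      exact Or.inl (card_pos.2 ⟨w, h2⟩)
    · obtain ⟨v, h2, w, h3, h4, -⟩ := h
      exact Or.inr (two_le5 h2 h3 (ne_of_nb5 h4.1))
    · obtain ⟨b, h2, -⟩ := h
      exact Or.inl (card_pos.2 ⟨b, h2⟩)
    · obtain ⟨a, h2, -⟩ := h
      exact Or.inl (card_pos.2 ⟨a, h2⟩)

/-- a hub in no neighbourhood is paid twice -/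
theorem hub0_50 (hG : G.Gen5 Fa) {z : V} (hz : z ∈ R Fa) (hh : G.Hub z)
    (hI : G.I Fa z = ∅) : 4 ≤ 2 * (G.HPl Fa z).card + (G.HPt Fa z).card := by
  classical
  have h1 := hub0_42 (qs16 G) (tor86 hG) hz hh hI
  have h2 : ∀ w, G.Us5 Fa w z := fun w => Or.inr (Or.inl (m_empty5 hI))
  have h3 : G.tp Fa z = (G.HPl Fa z).card := by
    rw [tp, HPl]
    congr 1
    ext w
    rw [mem_filter, mem_filter]
    exact ⟨fun h => ⟨h.1, h.2.1, h.2.2, h2 w⟩, fun h => ⟨h.1, h.2.1, h.2.2.1⟩⟩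
  have h4 : G.tq G.Tw Fa z = (G.HPt Fa z).card := by
    rw [tq, HPt]
    congr 1
    ext w
    rw [mem_filter, mem_filter]
    exact ⟨fun h => ⟨h.1, h.2.1, h2 w⟩, fun h => ⟨h.1, h.2.1, fun h5 => hh.2 ⟨w, h5⟩⟩⟩
  rw [h3, h4] at h1
  exact h1

/-- hubs have charges of at least zero after the first payments -/
theorem ch_hub50 (hG : G.Gen5 Fa) {z : V} (hz : z ∈ R Fa) (hh : G.Hub z) :
    0 ≤ G.ch5 Fa z := by
  have hc := stCh5_28 G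
  rcases Nat.lt_or_ge (G.I Fa z).card 2 with hk | hk
  · have h1 := hc.hub0 Fa z hz hh (by omega)
    have h2 : (G.I Fa z).card = 0 ∨ (G.I Fa z).card = 1 := by omega
    rcases h2 with h2 | h2
    · have h3 := hub0_50 hG hz hh (card_eq_zero.1 h2)
      rw [h2] at h1
      have h4 : (4 : ℤ) ≤ 2 * ((G.HPl Fa z).card : ℤ) + ((G.HPt Fa z).card : ℤ) := by
        exact_mod_cast h3
      push_cast at h1
      linarith
    · obtain ⟨B, hB⟩ := card_eq_one.1 h2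
      have h3 := hub1_50 hG hz hh hB
      have h4 : 2 ≤ 2 * (G.HPl Fa z).card + (G.HPt Fa z).card := by omega
      have h5 : (2 : ℤ) ≤ 2 * ((G.HPl Fa z).card : ℤ) + ((G.HPt Fa z).card : ℤ) := by
        exact_mod_cast h4
      rw [h2] at h1
      push_cast at h1
      linarith
  · rw [hc.hub2 Fa z hz hh hk]
    have h1 : (2 : ℤ) ≤ ((G.I Fa z).card : ℤ) := by exact_mod_cast hk
    linarith

end CG

end Pool.Agent.Lib.MP_e95c01_co.N
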