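import Pool.Agent.Lib.MP_e95c01_co.X.AuxT76
import Pool.Agent.Lib.MP_e95c01_co.X.K4_50

/-!
# `λ = 3`, thick torsos: who pays the hubs (C8a, C8b, C8d)
-/

namespace Pool.Agent.Lib.MP_e95c01_co.N

open Finset

variable {V : Type} [Fintype V] [DecidableEq V]

namespace CG

variable {G : CG V} {Fa : Finset (Finset V)}

theorem mem_FuL50 {x l : V} : l ∈ G.FuL Fa x ↔ l ∈ G.HPl Fa x ∧ ¬ G.SK Fa l x := by
  classical
  rw [FuL, mem_filter]

theorem mem_FuT50 {x q : V} : q ∈ G.FuT Fa x ↔ q ∈ G.HPt Fa x ∧ ¬ G.PQ Fa q x := by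
  classical
  rw [FuT, mem_filter]

theorem mem_NH50 {x z : V} : x ∈ G.NH Fa z ↔ x ∈ G.nR Fa z ∧ G.Hub x ∧ (G.I Fa x).card ≤ 1 := by
  classical
  rw [NH, mem_filter]

theorem mem_NF50 {x z : V} : x ∈ G.NF Fa z ↔ x ∈ G.nR Fa z ∧
    (G.Low x ∨ 2 ≤ (G.I Fa x).card ∨ ∃ b, G.HL x b z) := by
  classical
  rw [NF, mem_filter]

/-- a vertex of a neighbourhood that sees a member of the family -/
theorem I_nb50 {B : Finset V} {l b : V} (hB : B ∈ Fa) (hl : l ∈ R Fa) (hb : b ∈ G.nb l)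
    (hbB : b ∈ B) : B ∈ G.I Fa l := by
  rw [R, mem_compl, mem_biUnion] at hl
  exact mem_I76.2 ⟨hB, mem_N76.2 ⟨fun h3 => hl ⟨B, hB, h3⟩, b, hbB, G.sym _ _ hb⟩⟩

/-- a common neighbour of a vertex `l` with `I l = {B}` and of a vertex of `Co B` is in `R` -/
theorem R_of50 {B : Finset V} {l g b : V} (hl : l ∈ R Fa) (hI : G.I Fa l = {B})
    (hg : g ∈ G.Co B) (hbl : b ∈ G.nb l) (hbg : b ∈ G.nb g) : b ∈ R Fa := by
  by_contra hc
  rw [R, mem_compl, not_not, mem_biUnion] at hc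
  obtain ⟨B', hB', hbB⟩ := hc
  have h1 := I_nb50 hB' hl hbl hbB
  rw [hI, mem_singleton] at h1
  subst h1
  exact nb_Co76 hg hbg hbB

/-- a low vertex adjacent to a twin vertex in no neighbourhood skips `x` only in type `T6` -/
theorem SK_cases50 (hG : G.Gen6 Fa) {w x q : V} (hq : q ∈ R Fa) (hqt : G.IsTw q)
    (hqI : G.I Fa q = ∅) (hqw : q ∈ G.nb w) (h : G.SK Fa w x) :
    ∃ l' q p y z u, G.T6s Fa w l' q p y z u ∧ G.NoQ Fa w q ∧ G.Good Fa w l' x := by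
  have hr := hG.g5.reg
  have hqCo : ∀ B, G.L1 Fa B w → q ∈ G.pO B w := by
    intro B hB
    refine mem_inter.2 ⟨hqw, mem_Co76.2 ⟨?_, ?_⟩⟩
    · have hBF : B ∈ Fa := (mem_I76.1 (hB.I1.symm ▸ mem_singleton_self B : B ∈ G.I Fa w)).1
      exact mem_R76.1 hq B hBF
    · have hBF : B ∈ Fa := (mem_I76.1 (hB.I1.symm ▸ mem_singleton_self B : B ∈ G.I Fa w)).1
      intro h1
      have h2 : B ∈ G.I Fa q := mem_I76.2 ⟨hBF, h1⟩
      rw [hqI] at h2
      simp at h2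
  rcases h with ⟨h, h1⟩ | ⟨_, h, h1, h2, h3, h4, h5⟩ | ⟨_, h, h1, h2⟩ |
    ⟨_, h, h1, h2, h3, h4, h5⟩ | ⟨_, h, h1, h2, h3⟩
  · exfalso
    obtain ⟨B, B', e1, e2, -⟩ := h.blobs
    have e3 := h.t
    have e4 := h.t'
    rename_i q1 p1 q2 p2 y
    have m1 : q1 ∈ G.nb w := by rw [h.nb]; simp
    have m2 : q2 ∈ G.nb w := by rw [h.nb]; simp
    have i1 := (stTwHL_5 G).twI Fa hr q1 (nb_R76 h.lR h.I0 m1) p1 e3
    have i2 := (stTwHL_5 G).twI Fa hr q2 (nb_R76 h.lR h.I0 m2) p2 e4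
    have hn := hqw
    rw [h.nb] at hn
    simp only [mem_insert, mem_singleton] at hn
    rcases hn with rfl | rfl | rfl | rfl | rfl | rfl
    · rw [e1] at hqI; simp at hqI
    · rw [i1.2, e1] at hqI; simp at hqI
    · rw [e2] at hqI; simp at hqI
    · rw [i2.2, e2] at hqI; simp at hqI
    · exact h.hx.2 hqt
    · exact h.hy.2 hqt
  · exfalso
    have e3 := h.t
    rename_i l' q1 p1 y z u
    have m1 : q1 ∈ G.nb w := by rw [h.nb]; simp
    have i1 := (stTwHL_5 G).twI Fa hr q1 (nb_R76 h.lR h.I0 m1) p1 e3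
    have hn := hqw
    rw [h.nb] at hn
    simp only [mem_insert, mem_singleton] at hn
    rcases hn with rfl | rfl | rfl | rfl | rfl | rfl
    · exact tw_not_low76 hqt h.low'
    · rw [hqI] at h1; simp at h1
    · rw [i1.2] at hqI; rw [hqI] at h1; simp at h1
    · exact h.hx.1.2 hqt
    · exact h.hy.1.2 hqt
    · exact h.hz.1.2 hqt
  · exact ⟨_, _, _, _, _, _, h, h1, h2⟩
  · exfalso
    have h6 := hqCo _ h.toL1
    rw [h.out, mem_insert, mem_singleton] at h6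
    rcases h6 with rfl | rfl
    · exact h.hx.1.2 hqt
    · exact h.hy.1.2 hqt
  · exfalso
    have h6 := hqCo _ h.toL1
    rw [h.out, mem_insert, mem_singleton] at h6
    rcases h6 with rfl | rfl
    · exact h.hx.1.2 hqt
    · exact h.hy.1.2 hqt

/-- T6: the vertex `l'` pays the hubs which `l` skips -/
theorem T6_full50 (hG : G.Gen6 Fa) (hT6 : G.StT6) {l l' q p x y z g : V}
    (h : G.T6s Fa l l' q p x y z) (hn : G.NoQ Fa l q) (hg : G.Good Fa l l' g) :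
    l' ∈ G.FuL Fa g := by
  obtain ⟨hgl, hgl', hPH, -⟩ := hg
  have h9 := hG.g5.n9
  have hr := hG.g5.reg
  have hl' : l' ∈ G.nb l := by rw [h.nb]; simp
  have hl'R := nb_R76 h.lR h.I0 hl'
  have hgR := nb_R76 h.lR h.I0 hgl
  have h0 := hT6.np Fa hG _ _ _ _ _ _ _ h hn
  refine mem_FuL50.2 ⟨mem_HPl50.2 ⟨mem_nR76.2 ⟨G.sym _ _ hgl', hl'R⟩, h.low', hPH.2.2, ?_⟩, ?_⟩
  · refine Or.inr (Or.inr ⟨l, mem_nR76.2 ⟨G.sym _ _ hgl, h.lR⟩, ?_, Or.inl (G.sym _ _ hl')⟩)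
    rw [m, h.I0, inter_empty, card_empty]
  · intro hs
    rcases hs with ⟨h', h1⟩ | ⟨_, h', h1, h2, h3, h4, h5⟩ | ⟨_, h', h1, h2⟩ |
      ⟨_, h', h1, h2, h3, h4, h5⟩ | ⟨_, h', h1, h2, h3⟩
    · have h2 : l ∈ G.nb l' := G.sym _ _ hl'
      rw [h'.nb] at h2
      simp only [mem_insert, mem_singleton] at h2
      rcases h2 with rfl | rfl | rfl | rfl | rfl | rfl
      · exact tw_not_low76 (tw_of76 h'.t) h.low
      · exact tw_not_low76 (tw_of76' h'.t) h.low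
      · exact tw_not_low76 (tw_of76 h'.t') h.low
      · exact tw_not_low76 (tw_of76' h'.t') h.low
      · exact h'.hx.1 h.low
      · exact h'.hy.1 h.low
    · have := h'.ch h9 hr; omega
    · have := h'.ch h9 hr; omega
    · omega
    · omega

/-- a low payer of `x` near a twin vertex in no neighbourhood: a full payer -/
theorem low_full50 (hG : G.Gen6 Fa) (hT6 : G.StT6) {w x q : V} (hq : q ∈ R Fa)
    (hqt : G.IsTw q) (hqI : G.I Fa q = ∅) (hqw : q ∈ G.nb w) (hw : w ∈ G.HPl Fa x) :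
    ∃ e ∈ G.nb q, e ∈ G.FuL Fa x := by
  by_cases hs : G.SK Fa w x
  · obtain ⟨l', q1, p1, y, z, u, h1, h2, h3⟩ := SK_cases50 hG hq hqt hqI hqw hs
    refine ⟨l', ?_, T6_full50 hG hT6 h1 h2 h3⟩
    have ha : q1 ∈ G.nb l' := hT6.adj Fa hG _ _ _ _ _ _ _ h1
    have hn := hqw
    rw [h1.nb] at hn
    simp only [mem_insert, mem_singleton] at hn
    rcases hn with rfl | rfl | rfl | rfl | rfl | rfl
    · exact absurd h1.low' (tw_not_low76 hqt)
    · exact G.sym _ _ ha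
    · have h8 : l' ∈ G.cl q1 := mem_insert_of_mem (G.sym _ _ ha)
      rw [h1.t.2.2, cl, mem_insert] at h8
      rcases h8 with h8 | h8
      · exact absurd h1.low' (by rw [h8]; exact tw_not_low76 hqt)
      · exact h8
    · exact absurd hqt h1.hx.1.2
    · exact absurd hqt h1.hy.1.2
    · exact absurd hqt h1.hz.1.2
  · exact ⟨w, G.sym _ _ hqw, mem_FuL50.2 ⟨hw, hs⟩⟩

/-- C8a: the covering class of a poor pair `q` at the hub `x` -/
theorem stC8a_50 (hM1 : G.StM1) (hT6 : G.StT6) : G.StC8a := by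
  intro Fa hG x hx hh hk q hPQ
  obtain ⟨hq, hqt, hqI, -, hNH⟩ := hPQ
  obtain ⟨h1, -, -⟩ := mem_NH50.1 hNH
  obtain ⟨hxq, -⟩ := mem_nR76.1 h1
  have hm : G.m Fa q x = 0 := by rw [m, hqI, empty_inter, card_empty]
  have hm' : G.m Fa x q = 0 := by rw [m, hqI, inter_empty, card_empty]
  have hqx : q ∈ G.nR Fa x := mem_nR76.2 ⟨G.sym _ _ hxq, hq⟩
  rcases cov_qh86 hG.g5 hq hqt h1 hm hh.1 with h | h
  · obtain ⟨w, h2, h3, h4⟩ := h
    have hqw : q ∈ G.nb w := G.sym _ _ (mem_nR76.1 h2).1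
    by_cases hb : ∃ b, G.HL x b w
    · obtain ⟨b, hb⟩ := hb
      have h5 : b ∈ G.HPl Fa x := HLpay50 hG.g5 hx hb hk (by
        intro B hB
        refine e1_86 hG.g5 hx ?_
        have h6 : (G.I Fa x).card = 1 := by
          have := card_pos.2 ⟨B, hB⟩
          omega
        obtain ⟨B', hB'⟩ := card_eq_one.1 h6
        rw [hB', mem_singleton] at hB
        rw [hB', hB])
      have h6 : q ∈ G.nb b := by
        have h7 : q ≠ w := fun e => tw_not_low76 hqt (by rw [e]; exact h4)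
        rcases HL_sup76 hb (G.sym _ _ hxq) h7 with h8 | h8
        · exact absurd hb.2.1 (by rw [← h8]; exact tw_not_low76 hqt)
        · exact h8
      obtain ⟨e, h7, h8⟩ := low_full50 hG hT6 hq hqt hqI h6 h5
      exact ⟨e, h7, Or.inl h8⟩
    · have h5 : w ∈ G.HPl Fa x :=
        mem_HPl50.2 ⟨h3, h4, hb, Or.inr (Or.inr ⟨q, hqx, hm', Or.inl hqw⟩)⟩
      obtain ⟨e, h7, h8⟩ := low_full50 hG hT6 hq hqt hqI hqw h5
      exact ⟨e, h7, Or.inl h8⟩
  · obtain ⟨v, w, h2, h3, h4, h5, h6⟩ := h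
    obtain ⟨h2, h2R⟩ := mem_nR76.1 h2
    obtain ⟨h3, h3R⟩ := mem_nR76.1 h3
    have key : ∀ v w, G.Tw v w → v ∈ G.nb q → w ∈ G.nb q → v ∈ G.nR Fa x → v ∈ G.FuT Fa x := by
      intro v w h h2 h3 h4
      have hnt : ¬ G.Tw q v := by
        intro h7
        have h8 := (stTwHL_5 G).uniq hG.g5.n9 v q w (tw_symm76 h7) h
        rw [← h8] at h3
        exact G.irr _ h3
      have hc := hM1.cov1 Fa hG q hq hqt hqI v w x h h2 hnt hh hxq
        (G.sym _ _ (mem_nR76.1 h4).1)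
      refine mem_FuT50.2 ⟨mem_HPt50.2 ⟨h4, ⟨w, h⟩, Or.inl (by omega)⟩, fun h8 => ?_⟩
      rw [h8.2.2.1] at hc
      simp at hc
    exact ⟨v, h2, Or.inr ⟨w, h6, key v w h6 h2 h3 h4, key w v (tw_symm76 h6) h3 h2 h5⟩⟩

end CG

end Pool.Agent.Lib.MP_e95c01_co.N
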