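import Pool.Agent.Lib.MP_e95c01_co.X.C8a_50

/-!
# `λ = 3`, thick torsos: hubs in one neighbourhood have a full payer (C8b)
-/

namespace Pool.Agent.Lib.MP_e95c01_co.N

open Finset

variable {V : Type} [Fintype V] [DecidableEq V]

namespace CG

variable {G : CG V} {Fa : Finset (Finset V)}

/-- the hub `g` in `Co B` is not the top of `HL g b u` if `u` is adjacent to `l` and the only
vertex of `NF l` -/
theorem noHL50 {B : Finset V} {l g u v : V} (hl : l ∈ R Fa) (hI : G.I Fa l = {B})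
    (hg : g ∈ G.Co B) (hgR : g ∈ R Fa) (hgl : g ∈ G.nb l) (hnf : G.NF Fa l = {v})
    (hlu : l ≠ u) (hv : v = u ∨ ¬ G.Low v) (hr : G.Reg Fa) (hu : u ∈ R Fa) :
    ¬ ∃ b, G.HL g b u := by
  rintro ⟨b, hb⟩
  rcases HL_sup76 hb (G.sym _ _ hgl) hlu with h2 | h2
  · subst h2
    have h3 := (stTwHL_5 G).hlI Fa hr g hgR l hl u hu hb
    have h4 : B ∈ G.I Fa g := by rw [h3, hI]; exact mem_singleton_self _
    exact (mem_Co76.1 hg).2 (mem_I76.1 h4).2
  · have h3 : b ∈ G.nb l := G.sym _ _ h2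
    have h4 : b ∈ R Fa := R_of50 hl hI hg h3 hb.2.2.1
    have h5 : b ∈ G.NF Fa l := mem_NF50.2 ⟨mem_nR76.2 ⟨h3, h4⟩, Or.inl hb.2.1⟩
    rw [hnf, mem_singleton] at h5
    subst h5
    rcases hv with hv | hv
    · exact (HL_bt76 hb).2 hv.symm
    · exact hv hb.2.1

/-- a skipped hub has a full payer -/
theorem SK_full50 (hG : G.Gen6 Fa) (hT6 : G.StT6) {l x : V} (h : G.SK Fa l x) :
    ∃ e, G.Full Fa e x := by
  have h9 := hG.g5.n9
  have hr := hG.g5.reg
  rcases h with ⟨h, h1⟩ | ⟨_, h, h1, h2, h3, h4, h5⟩ | ⟨_, h, h1, h2⟩ |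
    ⟨_, h, h1, h2, h3, h4, h5⟩ | ⟨_, h, h1, h2, h3⟩
  · rename_i q p q' p' y
    have h' := h.swap hr h9
    have hx : x ∈ G.nb l := by rw [h.nb]; simp
    have hxR := nb_R76 h.lR h.I0 hx
    have key : ∀ {q p : V}, G.T4s Fa l q p q' p' x y → q ∈ G.FuT Fa x := by
      intro q p h
      have hq : q ∈ G.nb l := by rw [h.nb]; simp
      have hqR := nb_R76 h.lR h.I0 hq
      have hxq : x ∈ G.nR Fa q := by rw [h.nq]; simp
      obtain ⟨B, B', e1, -, -⟩ := h.blobs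
      refine mem_FuT50.2 ⟨mem_HPt50.2 ⟨mem_nR76.2 ⟨G.sym _ _ (mem_nR76.1 hxq).1, hqR⟩,
        ⟨p, h.t⟩, Or.inl (by rw [e1, card_singleton])⟩, fun h8 => ?_⟩
      have h9 := h8.2.2.1
      rw [e1] at h9
      simp at h9
    exact ⟨q, Or.inr ⟨p, h.t, key h, key h'⟩⟩
  · rename_i l' q p a b c
    have hq : q ∈ G.nb l := by rw [h.nb]; simp
    have hqR := nb_R76 h.lR h.I0 hq
    have hp : p ∈ G.nb l := by rw [h.nb]; simp
    have hpR := nb_R76 h.lR h.I0 hp
    have hI := (stTwHL_5 G).twI Fa hr q hqR p h.t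
    have hxp : x ∈ G.nb p := by
      have h6 : x ∈ G.cl q := mem_insert_of_mem h3
      rw [h.t.2.2, cl, mem_insert] at h6
      rcases h6 with h6 | h6
      · exact absurd (tw_of76' h.t) (by rw [← h6]; exact h4.2)
      · exact h6
    refine ⟨q, Or.inr ⟨p, h.t, mem_FuT50.2 ⟨mem_HPt50.2 ⟨mem_nR76.2 ⟨G.sym _ _ h3, hqR⟩,
      ⟨p, h.t⟩, Or.inl h1.le⟩, fun h8 => ?_⟩, mem_FuT50.2 ⟨mem_HPt50.2
      ⟨mem_nR76.2 ⟨G.sym _ _ hxp, hpR⟩, tw_of76' h.t, Or.inl (by rw [hI.2]; exact h1.le)⟩,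
      fun h8 => ?_⟩⟩⟩
    · have h9 := h8.2.2.1
      rw [h9] at h1
      simp at h1
    · have h9 := h8.2.2.1
      rw [← hI.2, h9] at h1
      simp at h1
  · exact ⟨_, Or.inl (T6_full50 hG hT6 h h1 h2)⟩
  · rename_i B d u v
    have hgO : x ∈ G.pO B l := by
      rw [h.out, mem_insert, mem_singleton]
      exact h3
    obtain ⟨hgl, hgCo⟩ := mem_inter.1 hgO
    have hd : d ∈ G.NF Fa l := by rw [h.nf]; exact mem_singleton_self _
    have hdR := (mem_nR76.1 (mem_NF50.1 hd).1).2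
    have hdl : d ∈ G.nb l := (mem_nR76.1 (mem_NF50.1 hd).1).1
    have hgH : G.Hub x := by
      rcases h3 with rfl | rfl
      · exact h.hx.1
      · exact h.hy.1
    have hgR : x ∈ R Fa := (mem_nR76.1 (nR_Co5 h.lR h.I1 hgO)).2
    have hm : G.m Fa x l = 0 := by rw [m_comm76]; exact m_Co5 h.I1 hgCo
    refine ⟨d, Or.inl (mem_FuL50.2 ⟨mem_HPl50.2 ⟨mem_nR76.2 ⟨G.sym _ _ h4, hdR⟩, h.dl, ?_, ?_⟩,
      ?_⟩)⟩
    · exact noHL50 h.lR h.I1 hgCo hgR hgl h.nf (ne_of_nb5 hdl) (Or.inl rfl) hr hdR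
    · exact Or.inr (Or.inr ⟨l, mem_nR76.2 ⟨G.sym _ _ hgl, h.lR⟩, hm, Or.inl (G.sym _ _ hdl)⟩)
    · intro hs
      have e0 : ∀ {w : V}, G.L0 Fa w → w ≠ d := by
        rintro w hw rfl
        rw [hw.I0] at h2
        simp at h2
      have e1 : ∀ {w : V} {B : Finset V}, G.L1 Fa B w → w ≠ d := by
        rintro w B hw rfl
        rw [hw.I1] at h2
        simp at h2
      rcases hs with ⟨h', -⟩ | ⟨_, h', -⟩ | ⟨_, h', -⟩ | ⟨_, h', -⟩ | ⟨_, h', -⟩
      · exact e0 h'.toL0 rfl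
      · exact e0 h'.toL0 rfl
      · exact e0 h'.toL0 rfl
      · exact e1 h'.toL1 rfl
      · exact e1 h'.toL1 rfl
  · rename_i B a b u v
    have hgO : x ∈ G.pO B l := by
      rw [h.out, mem_insert, mem_singleton]
      exact h2
    obtain ⟨hgl, hgCo⟩ := mem_inter.1 hgO
    have ha : a ∈ G.NF Fa l := by rw [h.nf]; exact mem_singleton_self _
    have haR := (mem_nR76.1 (mem_NF50.1 ha).1).2
    have hIab : G.I Fa a = G.I Fa b := (stTwHL_5 G).hlI Fa hr a haR b h.bR l h.lR h.hl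
    have hgb : x ∈ G.nb b := by
      rcases h2 with rfl | rfl
      · exact h.bx
      · exact h.by'
    have hgR : x ∈ R Fa := (mem_nR76.1 (nR_Co5 h.lR h.I1 hgO)).2
    have hm : G.m Fa x l = 0 := by rw [m_comm76]; exact m_Co5 h.I1 hgCo
    have hgH : G.Hub x := by
      rcases h2 with rfl | rfl
      · exact h.hx.1
      · exact h.hy.1
    have hBF : B ∈ Fa := (mem_I76.1 (h.I1.symm ▸ mem_singleton_self B : B ∈ G.I Fa l)).1
    have haB : B ∈ G.I Fa a := mem_I76.2 ⟨hBF, (mem_inter.1 h.aT).2⟩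
    have hxa : x ≠ a := by
      rintro rfl
      exact (mem_Co76.1 hgCo).2 (mem_I76.1 haB).2
    have hga : x ∈ G.nb a := HL_sub76 h.hl hgb hxa
    have hlb : l ≠ b := (HL_bt76 h.hl).2
    refine ⟨b, Or.inl (mem_FuL50.2 ⟨mem_HPl50.2 ⟨mem_nR76.2 ⟨G.sym _ _ hgb, h.bR⟩, h.hl.2.1, ?_,
      ?_⟩, ?_⟩)⟩
    · exact noHL50 h.lR h.I1 hgCo hgR hgl h.nf hlb (Or.inr (HL_not_low76 h.hl)) hr h.bR
    · exact Or.inr (Or.inr ⟨l, mem_nR76.2 ⟨G.sym _ _ hgl, h.lR⟩, hm,
        Or.inr (Or.inr ⟨a, haR, h.hl, hga⟩)⟩)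
    · intro hs
      have hbB : B ∈ G.I Fa b := hIab ▸ haB
      have e0 : ¬ G.L0 Fa b := by
        intro hw
        rw [hw.I0] at hbB
        simp at hbB
      have e1 : ∀ {B' : Finset V} {u v : V}, G.L1 Fa B' b → G.pO B' b ≠ {u, v} := by
        intro B' u v hw ho
        have hB' := hw.I1
        rw [hB', mem_singleton] at hbB
        subst hbB
        have hIa : G.I Fa a = {B} := hIab.trans hB'
        have hab : a ≠ b := (ne_of_nb5 h.hl.2.2.1)
        have hla : l ≠ a := by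
          have := HL_t76 h.hl
          exact (ne_of_nb5 this).symm
        have h4 := e3_86 hG.g5 hla hlb hab h.lR haR h.bR h.I1 hIa hB'
        have h5 : (G.nb l ∪ G.nb a ∪ G.nb b) ∩ G.Co B ⊆ G.pO B b := by
          intro w hw
          rw [mem_inter, mem_union, mem_union] at hw
          obtain ⟨hw1, hw2⟩ := hw
          rw [pO, mem_inter]
          refine ⟨?_, hw2⟩
          rcases hw1 with (hw1 | hw1) | hw1
          · have h6 : w ∈ G.pO B l := mem_inter.2 ⟨hw1, hw2⟩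
            rw [h.out, mem_insert, mem_singleton] at h6
            rcases h6 with rfl | rfl
            · exact h.bx
            · exact h.by'
          · have h7 : w ≠ l := by
              rintro rfl
              exact (mem_Co76.1 hw2).2
                (mem_I76.1 (h.I1.symm ▸ mem_singleton_self B : B ∈ G.I Fa w)).2
            rcases HL_sup76 h.hl hw1 h7 with h8 | h8
            · subst h8
              exact absurd (mem_I76.1 (hB'.symm ▸ mem_singleton_self B : B ∈ G.I Fa w)).2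
                (mem_Co76.1 hw2).2
            · exact h8
          · exact hw1
        have h6 := card_le_card h5
        rw [ho] at h6
        have h7 := card_le_two (a := u) (b := v)
        omega
      rcases hs with ⟨h', -⟩ | ⟨_, h', -⟩ | ⟨_, h', -⟩ | ⟨_, h', -⟩ | ⟨_, h', -⟩
      · exact e0 h'.toL0
      · exact e0 h'.toL0
      · exact e0 h'.toL0
      · exact e1 h'.toL1 h'.out
      · exact e1 h'.toL1 h'.out

/-- C8b: hubs in one neighbourhood have a full payer -/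
theorem stC8b_50 (hC8a : G.StC8a) (hT6 : G.StT6) : G.StC8b := by
  intro Fa hG x hx hh hk
  have low : ∀ w ∈ G.HPl Fa x, ∃ e, G.Full Fa e x := by
    intro w hw
    by_cases hs : G.SK Fa w x
    · exact SK_full50 hG hT6 hs
    · exact ⟨w, Or.inl (mem_FuL50.2 ⟨hw, hs⟩)⟩
  obtain ⟨B, hB⟩ := card_eq_one.1 hk
  have hd := e1_86 hG.g5 hx hB
  by_cases hHL : ∃ b t, G.HL x b t
  · obtain ⟨b, t, h⟩ := hHL
    refine low b (HLpay50 hG.g5 hx h hk.le ?_)
    intro B' hB'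
    rw [hB, mem_singleton] at hB'
    rw [hB']
    exact hd
  · have hno : ∀ b t, ¬ G.HL x b t := fun b t h => hHL ⟨b, t, h⟩
    have h1 : (G.nb x ∩ G.Co B).Nonempty := by
      rw [← Finset.card_pos]
      unfold d at hd
      omega
    obtain ⟨u, hu⟩ := h1
    rcases payer50 hG.g5 hx hh (nR_Co5 hx hB hu) (m_Co5 hB (mem_inter.1 hu).2) hno with
      h | h | h | h
    · obtain ⟨w, h2, -⟩ := h
      exact low w h2
    · obtain ⟨v, h2, w, h3, h4, -⟩ := h
      by_cases e1 : G.PQ Fa v x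
      · obtain ⟨e, -, h5⟩ := hC8a Fa hG x hx hh hk.le v e1
        exact ⟨e, h5⟩
      by_cases e2 : G.PQ Fa w x
      · obtain ⟨e, -, h5⟩ := hC8a Fa hG x hx hh hk.le w e2
        exact ⟨e, h5⟩
      exact ⟨v, Or.inr ⟨w, h4, mem_FuT50.2 ⟨h2, e1⟩, mem_FuT50.2 ⟨h3, e2⟩⟩⟩
    · obtain ⟨b, h2, -⟩ := h
      exact low b h2
    · obtain ⟨a, h2, -⟩ := h
      exact low a h2

end CG

end Pool.Agent.Lib.MP_e95c01_co.N
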