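import Pool.Agent.Lib.MP_e95c01_co.X.AuxT76
import Pool.Agent.Lib.MP_e95c01_co.X.K4_50
import Pool.Agent.Lib.MP_e95c01_co.X.Acc76

/-!
# `λ = 3`, thick torsos: row C8c

A hub in no neighbourhood with a low vertex of type `T4` that skips it has two full payers.
-/

namespace Pool.Agent.Lib.MP_e95c01_co.N

open Finset

variable {V : Type} [Fintype V] [DecidableEq V]

namespace CG

variable {G : CG V} {Fa : Finset (Finset V)}

/-- the pair of twins of a low vertex of type `T4` is a full payer of the hub -/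
theorem T4s.full27 {l q p q' p' x y : V} (h : G.T4s Fa l q p q' p' x y) (hG : G.Gen6 Fa)
    (hI : G.I Fa x = ∅) : G.Full Fa q x := by
  classical
  have key : ∀ {q p : V}, G.T4s Fa l q p q' p' x y → q ∈ G.FuT Fa x := by
    intro q p h
    have hx : x ∈ G.nR Fa q := by rw [h.nq]; simp
    have hq : q ∈ G.nb l := by rw [h.nb]; simp
    have hqR := nb_R76 h.lR h.I0 hq
    rw [FuT, mem_filter, mem_HPt50]
    refine ⟨⟨mem_inter.2 ⟨G.sym _ _ (mem_inter.1 hx).1, hqR⟩, tw_of76 h.t,
      Or.inr (Or.inl (m_empty5 hI))⟩, ?_⟩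
    intro hc
    obtain ⟨B, B', h1, -, -⟩ := h.blobs
    have h2 := hc.2.2.1
    rw [h1] at h2
    exact singleton_ne_empty _ h2
  exact Or.inr ⟨p, h.t, key h, key (h.swap hG.g5.reg hG.g5.n9)⟩

theorem T4s.ne27 {l q p q' p' x y : V} (h : G.T4s Fa l q p q' p' x y) : x ≠ y := by
  intro e
  have h1 : (G.nb l).card = 6 := h.low
  rw [h.nb, e] at h1
  have h2 : ({q, p, q', p', y, y} : Finset V) = {q, p, q', p', y} := by
    ext u
    simp only [mem_insert, mem_singleton]
    tauto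
  rw [h2] at h1
  have h3 := card_le_five (a := q) (b := p) (c := q') (d := p') (e := y)
  omega

theorem T4s.xR27 {l q p q' p' x y : V} (h : G.T4s Fa l q p q' p' x y) : x ∈ R Fa :=
  nb_R76 h.lR h.I0 (by rw [h.nb]; simp)

/-- `x` is not adjacent to the second pair -/
theorem T4s.nbx27 {l q p q' p' x y : V} (h : G.T4s Fa l q p q' p' x y) (hG : G.Gen6 Fa)
    {u : V} (hu : u ∈ G.nb x) (hul : u ∈ G.nb l) : u = q ∨ u = p ∨ u = y := by
  have key : ∀ {q' p' : V}, G.T4s Fa l q p q' p' x y → q' ∉ G.nb x := by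
    intro q' p' h hc
    have h1 : x ∈ G.nR Fa q' := mem_inter.2 ⟨G.sym _ _ hc, h.xR27⟩
    rw [h.nq'] at h1
    simp only [mem_insert, mem_singleton] at h1
    rcases h1 with e | e | e | e | e
    · exact h.hx.2 (by rw [e]; exact tw_of76' h.t')
    · exact h.hx.1 (by rw [e]; exact h.low)
    · exact h.hx.2 (by rw [e]; exact tw_of76 h.t)
    · exact h.hx.2 (by rw [e]; exact tw_of76' h.t)
    · exact h.ne27 e
  rw [h.nb] at hul
  simp only [mem_insert, mem_singleton] at hul
  rcases hul with e | e | e | e | e | e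
  · exact Or.inl e
  · exact Or.inr (Or.inl e)
  · exact absurd (e ▸ hu) (key h)
  · exact absurd (e ▸ hu) (key ((h.comm.swap hG.g5.reg hG.g5.n9).comm))
  · exact absurd hu (by rw [e]; exact G.irr _)
  · exact Or.inr (Or.inr e)

theorem T4s.noHL27 {l q p q' p' x y : V} (h : G.T4s Fa l q p q' p' x y) (hG : G.Gen6 Fa)
    (f : V) : ¬ G.HL x l f := by
  intro hf
  have h1 : G.nb x ⊆ {f, l, q, p, y} := by
    intro u hu
    simp only [mem_insert, mem_singleton]
    by_cases hf' : u = f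
    · exact Or.inl hf'
    · rcases HL_sup76 hf hu hf' with e | e
      · exact Or.inr (Or.inl e)
      · rcases h.nbx27 hG hu e with e | e | e
        · exact Or.inr (Or.inr (Or.inl e))
        · exact Or.inr (Or.inr (Or.inr (Or.inl e)))
        · exact Or.inr (Or.inr (Or.inr (Or.inr e)))
  have h2 := card_le_card h1
  have h3 := card_le_five (a := f) (b := l) (c := q) (d := p) (e := y)
  have h4 := hf.1
  omega

/-- the visible low neighbour of the pair -/
theorem T4s.lowq27 {l q p q' p' x y : V} (h : G.T4s Fa l q p q' p' x y)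
    {g : V} (hg : g ∈ G.nb q) (hR : g ∈ R Fa) (hlow : G.Low g) : g = l := by
  have h1 : g ∈ G.nR Fa q := mem_inter.2 ⟨hg, hR⟩
  rw [h.nq] at h1
  simp only [mem_insert, mem_singleton] at h1
  rcases h1 with e | e | e | e | e
  · exact absurd (by rw [e]; exact tw_of76' h.t) (fun h2 : G.IsTw g => tw_not_low76 h2 hlow)
  · exact e
  · exact absurd (by rw [e]; exact tw_of76 h.t') (fun h2 : G.IsTw g => tw_not_low76 h2 hlow)
  · exact absurd (by rw [e]; exact tw_of76' h.t') (fun h2 : G.IsTw g => tw_not_low76 h2 hlow)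
  · exact absurd (by rw [← e]; exact hlow) h.hx.1

/-- a full payer next to `g` is neither `q` nor its twin -/
theorem tw_cases27 {q p : V} (ht : G.Tw q p) (h9 : 9 ≤ Fintype.card V) {e : V}
    (he : G.Tw q e) : e = p := (stTwHL_5 G).uniq h9 q e p he ht

theorem nb_tw27 {q p g : V} (ht : G.Tw q p) (hg : g ∈ G.nb p) (hgq : g ≠ q) : g ∈ G.nb q := by
  have h1 : g ∈ G.cl p := mem_insert_of_mem hg
  rw [← ht.2.2, cl, mem_insert] at h1
  exact h1.resolve_left hgq

theorem T4s.lowpay27 {l q p q' p' x y : V} (h : G.T4s Fa l q p q' p' x y) (hG : G.Gen6 Fa)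
    (hI : G.I Fa x = ∅) {f : V} (hf : f ∈ G.nR Fa x) (hlow : G.Low f) (hfl : f ≠ l) :
    ∃ e, G.Full Fa e x ∧ e ≠ q ∧ ¬ G.Tw q e := by
  classical
  have h9 := hG.g5.n9
  obtain ⟨g, hg, hgl⟩ : ∃ g ∈ G.HPl Fa x, g ≠ l := by
    by_cases hb : ∃ b, G.HL x b f
    · obtain ⟨b, hb⟩ := hb
      refine ⟨b, HLpay50 hG.g5 h.xR27 hb (by rw [hI, card_empty]; omega) ?_, ?_⟩
      · intro B hB
        rw [hI] at hB
        simp at hB
      · rintro rfl
        exact h.noHL27 hG _ hb
    · exact ⟨f, mem_HPl50.2 ⟨hf, hlow, hb, Or.inr (Or.inl (m_empty5 hI))⟩, hfl⟩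
  have hg2 := mem_HPl50.1 hg
  by_cases hs : G.SK Fa g x
  · have hk : (G.I Fa x).card ≠ 1 := by rw [hI, card_empty]; omega
    rcases hs with ⟨h1, h2⟩ | ⟨_, h1, h2, h3, h4, h5, h6⟩ | ⟨_, h1, h2, h7⟩ |
      ⟨_, h1, h2, h3, h4, h5, h6⟩ | ⟨_, h1, h2, h3, h4⟩
    · rename_i q1 p1 q1' p1' y1
      refine ⟨q1, h1.full27 hG hI, ?_, ?_⟩
      · intro e
        have h3 : g ∈ G.nb q := by
          rw [← e]
          exact G.sym _ _ (by rw [h1.nb]; simp)
        exact hgl (h.lowq27 h3 h1.lR h1.low)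
      · intro e
        have h4 := tw_cases27 h.t h9 e
        have h3 : g ∈ G.nb q := by
          refine nb_tw27 h.t ?_ ?_
          · rw [← h4]
            exact G.sym _ _ (by rw [h1.nb]; simp)
          · intro h5
            exact tw_not_low76 (tw_of76 h.t) (by rw [← h5]; exact h1.low)
        exact hgl (h.lowq27 h3 h1.lR h1.low)
    · exact absurd h6 hk
    · exact absurd h7.2.2.2 hk
    · exact absurd h6 hk
    · exact absurd h4 hk
  · refine ⟨g, Or.inl (by rw [FuL, mem_filter]; exact ⟨hg, hs⟩), ?_, ?_⟩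
    · intro e
      exact tw_not_low76 (tw_of76 h.t) (by rw [← e]; exact hg2.2.1)
    · intro e
      exact tw_not_low76 (tw_of76' e) hg2.2.1

theorem T4s.pqpay27 {l q p q' p' x y : V} (h : G.T4s Fa l q p q' p' x y) (hG : G.Gen6 Fa)
    (hI : G.I Fa x = ∅) (h8 : G.StC8a) {v : V} (hv : G.PQ Fa v x)
    (hvq : v ≠ q) (hvp : v ≠ p) : ∃ e, G.Full Fa e x ∧ e ≠ q ∧ ¬ G.Tw q e := by
  have h9 := hG.g5.n9
  have key : v ∉ G.nb q := by
    intro hc
    have hvR : v ∈ R Fa := hv.1
    have h1 : v ∈ G.nR Fa q := mem_inter.2 ⟨hc, hvR⟩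
    rw [h.nq] at h1
    simp only [mem_insert, mem_singleton] at h1
    obtain ⟨B, B', -, h2, -⟩ := h.blobs
    have hIv : G.I Fa v = ∅ := hv.2.2.1
    have hq'l : q' ∈ G.nb l := by rw [h.nb]; simp
    rcases h1 with e | e | e | e | e
    · exact hvp e
    · exact tw_not_low76 hv.2.1 (by rw [e]; exact h.low)
    · rw [e, h2] at hIv
      exact singleton_ne_empty _ hIv
    · rw [e, ((stTwHL_5 G).twI Fa hG.g5.reg q' (nb_R76 h.lR h.I0 hq'l) p' h.t').2, h2] at hIv
      exact singleton_ne_empty _ hIv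
    · exact h.hx.2 (by rw [← e]; exact hv.2.1)
  obtain ⟨e, he, hf⟩ := h8 Fa hG x h.xR27 h.hx (by rw [hI, card_empty]; omega) v hv
  refine ⟨e, hf, ?_, ?_⟩
  · intro e1
    rw [e1] at he
    exact key (G.sym _ _ he)
  · intro e1
    have h4 := tw_cases27 h.t h9 e1
    rw [h4] at he
    exact key (nb_tw27 h.t (G.sym _ _ he) hvq)

theorem T4s.twpay27 {l q p q' p' x y : V} (h : G.T4s Fa l q p q' p' x y) (hG : G.Gen6 Fa)
    (hI : G.I Fa x = ∅) (h8 : G.StC8a) {v w : V} (hv : v ∈ G.nR Fa x) (hw : w ∈ G.nR Fa x)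
    (ht : G.Tw v w) (hvq : v ≠ q) (hvp : v ≠ p) :
    ∃ e, G.Full Fa e x ∧ e ≠ q ∧ ¬ G.Tw q e := by
  classical
  have h9 := hG.g5.n9
  by_cases h1 : G.PQ Fa v x
  · exact h.pqpay27 hG hI h8 h1 hvq hvp
  by_cases h2 : G.PQ Fa w x
  · refine h.pqpay27 hG hI h8 h2 ?_ ?_
    · intro e
      rw [e] at ht
      exact hvp ((stTwHL_5 G).uniq h9 q v p (tw_symm76 ht) h.t)
    · intro e
      rw [e] at ht
      exact hvq ((stTwHL_5 G).uniq h9 p v q (tw_symm76 ht) (tw_symm76 h.t))
  · refine ⟨v, Or.inr ⟨w, ht, ?_, ?_⟩, hvq, ?_⟩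
    · rw [FuT, mem_filter, mem_HPt50]
      exact ⟨⟨hv, tw_of76 ht, Or.inr (Or.inl (m_empty5 hI))⟩, h1⟩
    · rw [FuT, mem_filter, mem_HPt50]
      exact ⟨⟨hw, tw_of76' ht, Or.inr (Or.inl (m_empty5 hI))⟩, h2⟩
    · intro e
      exact hvp (tw_cases27 h.t h9 e)

/-- C8c -/
theorem stC8c_27 (G : CG V) (h8 : G.StC8a) : G.StC8c := by
  classical
  intro Fa hG l q p q' p' x y h hI _
  have h9 := hG.g5.n9
  have hxR := h.xR27
  obtain ⟨w, hw, hwl, hwl'⟩ : ∃ w ∈ G.nb x, w ≠ l ∧ w ∉ G.nb l := by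
    by_contra hc
    push Not at hc
    have h1 : G.nb x ⊆ {l, q, p, y} := by
      intro u hu
      simp only [mem_insert, mem_singleton]
      by_cases hl : u = l
      · exact Or.inl hl
      · rcases h.nbx27 hG hu (hc u hu hl) with e | e | e
        · exact Or.inr (Or.inl e)
        · exact Or.inr (Or.inr (Or.inl e))
        · exact Or.inr (Or.inr (Or.inr e))
    have h2 := card_le_card h1
    have h3 := card_le_four (a := l) (b := q) (c := p) (d := y)
    have h4 := G.deg x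
    omega
  have hwR : w ∈ G.nR Fa x := by
    rw [nR_eq76 hxR hI]
    exact hw
  have hfin : ∃ e, G.Full Fa e x ∧ e ≠ q ∧ ¬ G.Tw q e := by
    rcases cls50 hG.g5 hxR h.hx.1 hwR (m_empty5 hI) with h1 | h1 | h1 | h1
    · obtain ⟨f, h2, h3, -, h4⟩ := h1
      refine h.lowpay27 hG hI h2 h3 ?_
      rintro rfl
      exact hwl' h4
    · obtain ⟨v, h2, v', h3, h4, -, -, h5, h6⟩ := h1
      have key : w ∉ G.nb q := by
        intro hc
        have h7 : w ∈ G.nR Fa q := mem_inter.2 ⟨hc, (mem_inter.1 hwR).2⟩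
        rw [h.nq] at h7
        rw [h.nb] at hwl'
        simp only [mem_insert, mem_singleton, not_or] at h7 hwl'
        rcases h7 with e | e | e | e | e
        · exact hwl'.2.1 e
        · exact hwl e
        · exact hwl'.2.2.1 e
        · exact hwl'.2.2.2.1 e
        · exact hwl'.2.2.2.2.1 e
      refine h.twpay27 hG hI h8 h2 h3 h4 ?_ ?_
      · rintro rfl
        exact key h5
      · rintro rfl
        refine key (nb_tw27 h.t h5 ?_)
        rintro rfl
        exact hwl' (by rw [h.nb]; simp)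
    · obtain ⟨b, h2, a, h3, -, h4⟩ := h1
      refine h.lowpay27 hG hI h2 h4.2.1 ?_
      rintro rfl
      have h5 : a ∈ G.nb b := G.sym _ _ h4.2.2.1
      have h6 := HL_hubT76 h9 h4
      rw [h.nb] at h5
      simp only [mem_insert, mem_singleton] at h5
      rcases h5 with e | e | e | e | e | e
      · exact h6.2 (by rw [e]; exact tw_of76 h.t)
      · exact h6.2 (by rw [e]; exact tw_of76' h.t)
      · exact h6.2 (by rw [e]; exact tw_of76 h.t')
      · exact h6.2 (by rw [e]; exact tw_of76' h.t')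
      · rw [e] at h3
        exact G.irr _ (mem_inter.1 h3).1
      · subst e
        have hqb : q ∈ G.nb b := by rw [h.nb]; simp
        have h7 : q ∈ G.nb a := HL_sub76 h4 hqb (by
          rintro rfl
          exact h6.2 (tw_of76 h.t))
        have h8 : a ∈ G.nR Fa q := mem_inter.2 ⟨G.sym _ _ h7, (mem_inter.1 h3).2⟩
        rw [h.nq] at h8
        simp only [mem_insert, mem_singleton] at h8
        rcases h8 with e | e | e | e | e
        · exact h6.2 (by rw [e]; exact tw_of76' h.t)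
        · exact h6.1 (by rw [e]; exact h.low)
        · exact h6.2 (by rw [e]; exact tw_of76 h.t')
        · exact h6.2 (by rw [e]; exact tw_of76' h.t')
        · exact h.ne27 e.symm
    · obtain ⟨a, h2, b, h3, -, h4⟩ := h1
      refine h.lowpay27 hG hI h2 h4.1 ?_
      rintro rfl
      have h5 : b ∈ G.nb a := h4.2.2.1
      have h6 : G.Low b := h4.2.1
      rw [h.nb] at h5
      simp only [mem_insert, mem_singleton] at h5
      rcases h5 with e | e | e | e | e | e
      · exact tw_not_low76 (tw_of76 h.t) (by rw [← e]; exact h6)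
      · exact tw_not_low76 (tw_of76' h.t) (by rw [← e]; exact h6)
      · exact tw_not_low76 (tw_of76 h.t') (by rw [← e]; exact h6)
      · exact tw_not_low76 (tw_of76' h.t') (by rw [← e]; exact h6)
      · exact h.hx.1 (by rw [← e]; exact h6)
      · exact h.hy.1 (by rw [← e]; exact h6)
  obtain ⟨e, h1, h2, h3⟩ := hfin
  exact ⟨q, e, h.full27 hG hI, h1, h2.symm, h3⟩

end CG

end Pool.Agent.Lib.MP_e95c01_co.N
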