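import Pool.Agent.Lib.MP_e95c01_co.X.C8b_50

/-!
# `λ = 3`, thick torsos: hubs in no neighbourhood (C8d)
-/

namespace Pool.Agent.Lib.MP_e95c01_co.N

open Finset

variable {V : Type} [Fintype V] [DecidableEq V]

namespace CG

variable {G : CG V} {Fa : Finset (Finset V)}

/-- the common neighbours of twins -/
theorem nR_tw50 {q p u : V} (h : G.Tw q p) (hq : q ∈ R Fa) (hu : u ≠ q)
    (hu' : u ≠ p) : u ∈ G.nR Fa p ↔ u ∈ G.nR Fa q := by
  rw [nR_tw76 h hq, mem_insert, mem_erase]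
  exact ⟨fun h1 => h1.elim (fun e => absurd e hu) fun e => e.2, fun h1 => Or.inr ⟨hu', h1⟩⟩

/-- twins in no neighbourhood: charges, low neighbours, twin neighbours -/
theorem ch_tw50 (hG : G.Gen6 Fa) {q p : V} (h : G.Tw q p) (hq : q ∈ R Fa)
    (hI : G.I Fa q = ∅) : G.ch5 Fa p = G.ch5 Fa q ∧ G.tl Fa p = G.tl Fa q ∧
      G.tt Fa p = G.tt Fa q := by
  classical
  have h9 := hG.g5.n9
  have hr := hG.g5.reg
  have hp := (stTwHL_5 G).twI Fa hr q hq p h
  have e1 := (stCh5_28 G).tw0 h9 Fa hr q hq ⟨p, h⟩ hI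
  have e2 := (stCh5_28 G).tw0 h9 Fa hr p hp.1 (tw_of76' h) (hp.2.trans hI)
  have e3 : G.tl Fa p = G.tl Fa q := by
    rw [tl, tl]
    congr 1
    ext u
    rw [mem_filter, mem_filter]
    constructor
    · rintro ⟨h1, h2⟩
      exact ⟨(nR_tw50 h hq (fun e => tw_not_low76 (tw_of76 h) (by rw [← e]; exact h2))
        (fun e => tw_not_low76 (tw_of76' h) (by rw [← e]; exact h2))).1 h1, h2⟩
    · rintro ⟨h1, h2⟩
      exact ⟨(nR_tw50 h hq (fun e => tw_not_low76 (tw_of76 h) (by rw [← e]; exact h2))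
        (fun e => tw_not_low76 (tw_of76' h) (by rw [← e]; exact h2))).2 h1, h2⟩
  have e4 : G.NH Fa p = G.NH Fa q := by
    ext u
    rw [mem_NH50, mem_NH50]
    constructor
    · rintro ⟨h1, h2, h3⟩
      exact ⟨(nR_tw50 h hq (fun e => h2.2 (by rw [e]; exact tw_of76 h))
        (fun e => h2.2 (by rw [e]; exact tw_of76' h))).1 h1, h2, h3⟩
    · rintro ⟨h1, h2, h3⟩
      exact ⟨(nR_tw50 h hq (fun e => h2.2 (by rw [e]; exact tw_of76 h))
        (fun e => h2.2 (by rw [e]; exact tw_of76' h))).2 h1, h2, h3⟩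
  have e5 : G.tt Fa p = G.tt Fa q := by
    rw [tt, tt]
    congr 1
    ext u
    rw [mem_filter, mem_filter]
    constructor
    · rintro ⟨h1, h2, h3⟩
      have h4 : u ≠ q := fun e => h3 (by rw [e]; exact tw_symm76 h)
      have h5 : u ≠ p := by
        rintro rfl
        exact G.irr _ (mem_nR76.1 h1).1
      refine ⟨(nR_tw50 h hq h4 h5).1 h1, h2, fun h6 => h5 ?_⟩
      exact (stTwHL_5 G).uniq h9 q u p h6 h
    · rintro ⟨h1, h2, h3⟩
      have h4 : u ≠ p := fun e => h3 (by rw [e]; exact h)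
      have h5 : u ≠ q := by
        rintro rfl
        exact G.irr _ (mem_nR76.1 h1).1
      refine ⟨(nR_tw50 h hq h5 h4).2 h1, h2, fun h6 => h5 ?_⟩
      exact (stTwHL_5 G).uniq h9 p u q h6 (tw_symm76 h)
  exact ⟨by rw [e1, e2, e3, e4], e3, e5⟩

/-- both twins are poor -/
theorem PQ_tw50 (hG : G.Gen6 Fa) {q p x : V} (h : G.Tw q p) (hP : G.PQ Fa q x) :
    G.PQ Fa p x := by
  have hr := hG.g5.reg
  obtain ⟨hq, hqt, hI, hc, hN⟩ := hP
  have hp := (stTwHL_5 G).twI Fa hr q hq p h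
  obtain ⟨h1, h2, h3⟩ := mem_NH50.1 hN
  obtain ⟨e1, e2, e3⟩ := ch_tw50 hG h hq hI
  refine ⟨hp.1, tw_of76' h, hp.2.trans hI, by rw [e1, e2, e3]; exact hc,
    mem_NH50.2 ⟨(nR_tw50 h hq (fun e => h2.2 (by rw [e]; exact tw_of76 h))
        (fun e => h2.2 (by rw [e]; exact tw_of76' h))).2 h1, h2, h3⟩⟩

/-- C8d: hubs in no neighbourhood with at most one full payer -/
theorem stC8d_50 (hC8a : G.StC8a) (hC8c : G.StC8c) : G.StC8d := by
  intro Fa hG x hx hh hI
  classical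
  have h9 := hG.g5.n9
  have hr := hG.g5.reg
  by_cases h2 : ∃ e e', G.Full Fa e x ∧ G.Full Fa e' x ∧ e ≠ e' ∧ ¬ G.Tw e e'
  · exact Or.inl h2
  right
  have huni : ∀ e e', G.Full Fa e x → G.Full Fa e' x → e' = e ∨ G.Tw e e' := by
    intro e e' he he'
    by_contra hc
    rw [not_or] at hc
    exact h2 ⟨e, e', he, he', fun e0 => hc.1 e0.symm, hc.2⟩
  have hm : ∀ w, G.m Fa x w = 0 := fun w => m_empty5 hI
  have hus : ∀ w, G.Us5 Fa w x := fun w => Or.inr (Or.inl (hm w))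
  -- lows
  have hlow : ∀ w ∈ G.HPl Fa x, G.Full Fa w x := by
    intro w hw
    refine Or.inl (mem_FuL50.2 ⟨hw, fun hs => ?_⟩)
    rcases hs with ⟨h, h1⟩ | ⟨_, h, h1, h2, h3, h4, h5⟩ | ⟨_, h, h1, h2, h3, h4, h5⟩ |
      ⟨_, h, h1, h2, h3, h4, h5⟩ | ⟨_, h, h1, h2, h3⟩
    · rcases h1 with h1 | ⟨h1, h3⟩
      · rw [hI] at h1; simp at h1
      · exact h2 (hC8c Fa hG _ _ _ _ _ _ _ h h1 h3)
    · rw [hI] at h5; simp at h5
    · rw [hI] at h5; simp at h5
    · rw [hI] at h5; simp at h5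
    · rw [hI] at h3; simp at h3
  -- twins
  have htw : ∀ q ∈ G.nb x, G.IsTw q → G.PQ Fa q x ∨ G.Full Fa q x := by
    intro q hq hqt
    by_cases hP : G.PQ Fa q x
    · exact Or.inl hP
    right
    obtain ⟨p, hp⟩ := hqt
    have hqR := nb_R76 hx hI hq
    have hpI := (stTwHL_5 G).twI Fa hr q hqR p hp
    have hqn : q ∈ G.nR Fa x := mem_nR76.2 ⟨hq, hqR⟩
    have hxp : x ∈ G.nb p := by
      have h6 : x ∈ G.cl q := mem_insert_of_mem (G.sym _ _ hq)
      rw [hp.2.2, cl, mem_insert] at h6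
      rcases h6 with h6 | h6
      · exact absurd (tw_of76' hp) (by rw [← h6]; exact hh.2)
      · exact h6
    refine Or.inr ⟨p, hp, mem_FuT50.2 ⟨mem_HPt50.2 ⟨hqn, ⟨p, hp⟩, hus q⟩, hP⟩,
      mem_FuT50.2 ⟨mem_HPt50.2 ⟨mem_nR76.2 ⟨G.sym _ _ hxp, hpI.1⟩, tw_of76' hp, hus p⟩,
      fun h6 => hP (PQ_tw50 hG (tw_symm76 hp) h6)⟩⟩
  have h4 := hub0_50 hG.g5 hx hh hI
  -- a full payer
  obtain ⟨e, he⟩ : ∃ e, G.Full Fa e x := by
    rcases Nat.eq_zero_or_pos (G.HPl Fa x).card with h5 | h5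
    · have h6 : 0 < (G.HPt Fa x).card := by omega
      obtain ⟨q, hq⟩ := card_pos.1 h6
      obtain ⟨h7, h8, -⟩ := mem_HPt50.1 hq
      rcases htw q (mem_nR76.1 h7).1 h8 with h9 | h9
      · obtain ⟨e, -, h10⟩ := hC8a Fa hG x hx hh (by rw [hI]; simp) q h9
        exact ⟨e, h10⟩
      · exact ⟨q, h9⟩
    · obtain ⟨w, hw⟩ := card_pos.1 h5
      exact ⟨w, hlow w hw⟩
  have hetw : ∀ w, G.Low w → G.Full Fa w x → w = e := by
    intro w hw h5
    rcases huni e w he h5 with h6 | h6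
    · exact h6
    · exact absurd hw (tw_not_low76 (tw_of76' h6))
  have hSlow : ∀ d ∈ G.nb x, G.Low d → d = e ∨ G.HL x e d := by
    intro d hd hdl
    by_cases hb : ∃ b, G.HL x b d
    · obtain ⟨b, hb⟩ := hb
      have h5 := HLpay50 hG.g5 hx hb (by rw [hI]; simp) (by intro B hB; rw [hI] at hB; simp at hB)
      have h6 := hetw b hb.2.1 (hlow b h5)
      rw [← h6]
      exact Or.inr hb
    · exact Or.inl (hetw d hdl (hlow d (mem_HPl50.2 ⟨mem_nR76.2 ⟨hd, nb_R76 hx hI hd⟩, hdl, hb,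
        hus d⟩)))
  have hStw : ∀ q ∈ G.nb x, G.IsTw q → q = e ∨ G.Tw e q ∨ G.PQ Fa q x := by
    intro q hq hqt
    rcases htw q hq hqt with h5 | h5
    · exact Or.inr (Or.inr h5)
    · rcases huni e q he h5 with h6 | h6
      · exact Or.inl h6
      · exact Or.inr (Or.inl h6)
  have heP : ¬ G.PQ Fa e x := by
    intro h5
    rcases he with h6 | ⟨f, h6, h7, h8⟩
    · exact tw_not_low76 h5.2.1 (mem_HPl50.1 (mem_FuL50.1 h6).1).2.1
    · exact (mem_FuT50.1 h7).2 h5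
  have hadj : ∀ q, G.PQ Fa q x → e ∈ G.nb q := by
    intro q hq
    obtain ⟨e', h5, h6⟩ := hC8a Fa hG x hx hh (by rw [hI]; simp) q hq
    rcases huni e e' he h6 with h7 | h7
    · rw [← h7]; exact h5
    · have h8 : q ∈ G.cl e' := mem_insert_of_mem (G.sym _ _ h5)
      rw [← h7.2.2, cl, mem_insert] at h8
      rcases h8 with h8 | h8
      · exact absurd hq (by rw [h8]; exact heP)
      · exact G.sym _ _ h8
  refine ⟨e, ⟨hx, hh, hI, he, hSlow, hStw, hadj⟩, ?_⟩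
  by_contra hno
  have hno' : ∀ q, ¬ G.PQ Fa q x := fun q hq => hno ⟨q, hq⟩
  by_cases hel : G.Low e
  · have h5 : G.HPt Fa x = ∅ := by
      rw [eq_empty_iff_forall_notMem]
      intro q hq
      obtain ⟨h7, h8, -⟩ := mem_HPt50.1 hq
      rcases hStw q (mem_nR76.1 h7).1 h8 with h9 | h9 | h9
      · exact tw_not_low76 h8 (by rw [h9]; exact hel)
      · exact tw_not_low76 (tw_of76 h9) hel
      · exact hno' q h9
    have h6 : G.HPl Fa x ⊆ {e} := by
      intro w hw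
      rw [mem_singleton]
      exact hetw w (mem_HPl50.1 hw).2.1 (hlow w hw)
    have h7 := card_le_card h6
    rw [card_singleton] at h7
    rw [h5, card_empty] at h4
    omega
  · have h5 : G.HPl Fa x = ∅ := by
      rw [eq_empty_iff_forall_notMem]
      intro w hw
      have h6 := hetw w (mem_HPl50.1 hw).2.1 (hlow w hw)
      exact hel (h6 ▸ (mem_HPl50.1 hw).2.1)
    rcases he with h6 | ⟨f, h6, h7, h8⟩
    · exact hel (mem_HPl50.1 (mem_FuL50.1 h6).1).2.1
    · have h9 : G.HPt Fa x ⊆ {e, f} := by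
        intro q hq
        obtain ⟨h10, h11, -⟩ := mem_HPt50.1 hq
        rw [mem_insert, mem_singleton]
        rcases hStw q (mem_nR76.1 h10).1 h11 with h12 | h12 | h12
        · exact Or.inl h12
        · exact Or.inr ((stTwHL_5 G).uniq hG.g5.n9 e q f h12 h6)
        · exact absurd h12 (hno' q)
      have h10 := card_le_card h9
      have h11 := card_le_two (a := e) (b := f)
      rw [h5, card_empty] at h4
      omega

end CG

end Pool.Agent.Lib.MP_e95c01_co.N
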