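import Pool.Agent.Lib.MP_e95c01_co.X.C8e_50

/-!
# `λ = 3`, thick torsos, C8f: a hub with one full payer and one poor pair with two lows
-/

namespace Pool.Agent.Lib.MP_e95c01_co.N

open Finset

variable {V : Type} [Fintype V] [DecidableEq V]

namespace CG

/-- the situation -/
structure F33 (G : CG V) (Fa : Finset (Finset V)) (x e q p : V) : Prop where
  hG : G.Gen6 Fa
  s : G.Sing Fa x e
  t : G.Tw q p
  hP : G.PQ Fa q x
  un : ∀ q', G.PQ Fa q' x → q' = q ∨ q' = p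

variable {G : CG V} {Fa : Finset (Finset V)} {x e q p : V}

namespace F33

variable (c : F33 G Fa x e q p)

include c

theorem qR : q ∈ R Fa := c.hP.1

theorem qT : G.IsTw q := ⟨p, c.t⟩

theorem qI : G.I Fa q = ∅ := c.hP.2.2.1

theorem xq : x ∈ G.nb q := PQ.nb50 c.hP

theorem eq' : e ∈ G.nb q := c.s.adj q c.hP

theorem ex : e ∈ G.nb x := (mem_nR76.1 (Full.nR50 c.s.full)).1

theorem xe : x ∈ G.nb e := G.sym _ _ c.ex

theorem eR : e ∈ R Fa := R0_86 c.qR c.qI c.eq'

theorem xR {w : V} (h : w ∈ G.nb x) : w ∈ R Fa := R0_86 c.s.xR c.s.I0 h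

theorem ep : e ≠ p := by
  rintro rfl
  exact Full.noPQ50 c.s.full (PQ_tw50 c.hG c.t c.hP)

theorem qe : q ∈ G.nb e := G.sym _ _ c.eq'

theorem pe : p ∈ G.nb e := G.sym _ _ (Tw_nb5 c.t c.eq' c.ep)

theorem qx : q ≠ x := ne_of_nb5 c.xq

theorem qp : q ≠ p := ne_of_nb5 c.t.1

theorem px : p ≠ x := by
  rintro rfl
  exact c.s.hub.2 (tw_of76' c.t)

theorem ne_ex : e ≠ x := by
  rintro rfl
  exact G.irr _ c.ex

/-- the hub `x` has at least seven neighbours -/
theorem x7 {S : Finset V} (hS : S.card ≤ 6) : ∃ w ∈ G.nb x, w ∉ S := by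
  by_contra hc
  push Not at hc
  have h1 : (G.nb x).card ≤ 6 := (card_le_card hc).trans hS
  have h2 : (G.nb x).card ≠ 6 := fun h => c.s.hub.1 h
  have h3 : G.N {x} = G.nb x := by
    ext w
    rw [mem_N76, mem_singleton]
    constructor
    · rintro ⟨-, u, hu, h4⟩
      rw [mem_singleton] at hu
      rw [hu] at h4
      exact h4
    · intro h4
      refine ⟨?_, x, mem_singleton_self _, h4⟩
      rintro rfl
      exact G.irr _ h4
  have h4 := six_le86 G (S := {x}) ⟨x, mem_singleton_self _⟩ (by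
    rw [h3, card_singleton]
    have := c.hG.n13
    omega)
  rw [h3] at h4
  omega

/-- twin neighbours of `x` if `e` is low -/
theorem twx (el : G.Low e) {v : V} (hv : v ∈ G.nb x) (ht : G.IsTw v) : v = q ∨ v = p := by
  rcases c.s.tw v hv ht with h1 | h1 | h1
  · rw [h1] at ht
    exact absurd el (tw_not_low76 ht)
  · exact absurd el (tw_not_low76 ⟨v, h1⟩)
  · exact c.un v h1

/-- a low vertex `d` with `HL x e d` -/
theorem roleT (el : G.Low e) {d : V} (h : G.HL x e d) :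
    d ∈ G.nb q ∧ G.Low d ∧ d ∉ G.nb e ∧ d ≠ e ∧ G.I Fa e = ∅ := by
  have hd : d ∈ G.nb x := HL_t76 h
  have hdR := c.xR hd
  have hI : G.I Fa e = ∅ := by rw [← HL_I76 h c.s.xR c.eR hdR]; exact c.s.I0
  have huniq : ∀ w, G.HL x e w → w = d := by
    intro w hw
    have h1 : w ∈ G.cl x := mem_clT76.2 (Or.inr (HL_t76 hw))
    rw [h.2.2.2.2, mem_insert] at h1
    exact h1.resolve_right hw.2.2.2.1
  have hlowx : ∀ w ∈ G.nb x, G.Low w → w = e ∨ w = d := fun w hw wl =>
    (c.s.low w hw wl).imp id (huniq w)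
  have hdn : d ∈ G.nR Fa x := mem_nR76.2 ⟨hd, hdR⟩
  have hm : G.m Fa x d = 0 := by rw [m, c.s.I0, empty_inter, card_empty]
  have hdl : G.Low d := (tor86 c.hG.g5).sat _ _ _ h
  refine ⟨?_, hdl, (HL_bt76 h).1, (HL_bt76 h).2, hI⟩
  rcases cov3_76 (qs16 G) (tor86 c.hG.g5) c.s.xR hdn hm with h1 | h1 | h1 | h1 | h1
  · exfalso
    obtain ⟨w, h2, h3, h4, h5⟩ := h1
    rcases hlowx w (mem_nR76.1 h2).1 h4 with rfl | rfl
    · exact (HL_bt76 h).1 h5
    · exact G.irr _ h5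
  · obtain ⟨v, w, h2, h3, h4, h5, h6⟩ := h1
    rcases c.twx el (mem_nR76.1 h2).1 ⟨w, h4⟩ with rfl | rfl
    · exact h5
    · have : w = q := (stTwHL_5 G).uniq c.hG.g5.n9 _ _ _ h4 (tw_symm76 c.t)
      rw [this] at h6
      exact h6
  · obtain ⟨a, b, -, -, h2, -⟩ := h1
    exact absurd h2 c.s.hub.1
  · exfalso
    obtain ⟨a, b, h2, h3, h4, h5, h6⟩ := h1
    rcases hlowx b (mem_nR76.1 h2).1 h5.2.1 with rfl | rfl
    · have h7 : G.cl x = G.cl a := by rw [h.2.2.2.2, h5.2.2.2.2]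
      have h8 : x ∈ G.cl a := by
        rw [← h7]
        exact mem_clT76.2 (Or.inl rfl)
      have h9 := (mem_clT76.1 h8).resolve_left h6
      exact c.s.hub.2 ⟨a, G.sym _ _ h9, h.1, h7⟩
    · exact (HL_bt76 h5).2 rfl
  · exfalso
    obtain ⟨a, b, h2, h3, h4, h5⟩ := h1
    rcases hlowx a (mem_nR76.1 h2).1 h5.1 with rfl | rfl
    · have h6 : b ∈ G.nb a := LL_ab76 h5
      have h7 : b ≠ x := by
        rintro rfl
        exact c.s.hub.1 h5.2.1
      exact (LL_tb76 h5).1 (G.sym _ _ (HL_sub76 h h6 h7))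
    · exact (LL_ua76 h5).2 rfl

/-- the neighbours of `x` if `e` is low and there is no `HL x e d` -/
theorem kinds (el : G.Low e) (hT : ∀ d, ¬ G.HL x e d) {w : V} (hw : w ∈ G.nb x) :
    w = q ∨ w = p ∨ w = e ∨ (G.Hub w ∧ (w ∈ G.nb q ∨ w ∈ G.nb e ∨
      ∃ b ∈ G.nb q, b ∈ G.nb e ∧ G.Low b ∧ w ∈ G.nb b)) := by
  have hlow : ∀ v ∈ G.nb x, G.Low v → v = e := fun v hv vl =>
    (c.s.low v hv vl).resolve_right (hT v)
  rcases trich76 (G := G) w with h | h | h
  · exact Or.inr (Or.inr (Or.inl (hlow w hw h)))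
  · rcases c.twx el hw h with h1 | h1
    · exact Or.inl h1
    · exact Or.inr (Or.inl h1)
  refine Or.inr (Or.inr (Or.inr ⟨h, ?_⟩))
  have hwn : w ∈ G.nR Fa x := mem_nR76.2 ⟨hw, c.xR hw⟩
  have hm : G.m Fa x w = 0 := by rw [m, c.s.I0, empty_inter, card_empty]
  rcases cov3_76 (qs16 G) (tor86 c.hG.g5) c.s.xR hwn hm with h1 | h1 | h1 | h1 | h1
  · obtain ⟨v, h3, h4, h5, h6⟩ := h1
    rw [hlow v (mem_nR76.1 h3).1 h5] at h6
    exact Or.inr (Or.inl h6)
  · obtain ⟨v, v', h3, h4, h5, h6, h7⟩ := h1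
    rcases c.twx el (mem_nR76.1 h3).1 ⟨v', h5⟩ with rfl | rfl
    · exact Or.inl h6
    · have : v' = q := (stTwHL_5 G).uniq c.hG.g5.n9 _ _ _ h5 (tw_symm76 c.t)
      rw [this] at h7
      exact Or.inl h7
  · obtain ⟨a, b, -, -, h3, -⟩ := h1
    exact absurd h3 c.s.hub.1
  · obtain ⟨a, b, -, -, h3, -⟩ := h1
    exact absurd h3 h.1
  · obtain ⟨a, b, h3, h4, h5, h6⟩ := h1
    have h7 := hlow a (mem_nR76.1 h3).1 h6.1
    rw [h7] at h6
    refine Or.inr (Or.inr ⟨b, ?_, LL_ab76 h6, h6.2.1, h5⟩)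
    rcases LL_to76 h6 c.qe c.qx with h8 | h8
    · exfalso
      rw [← h8] at h6
      exact tw_not_low76 (tw_of76 c.t) h6.2.1
    · exact G.sym _ _ h8

/-- `e` low: all lows near `q` have three common neighbours with `q` -/
theorem tight (hM1 : G.StM1) (el : G.Low e)
    (ht : ∀ l ∈ G.nb q, G.Low l → (G.nb l ∩ G.nb q).card = 4) {H : Finset V}
    (hH : ∀ w ∈ G.nb q, G.Hub w → w = x ∨ w ∈ H) (hc : H.card ≤ 3) : False := by
  obtain ⟨h1, -, h2⟩ := hM1.tight Fa c.hG q c.qR c.qT c.qI e c.eq' el (ht e c.eq' el)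
  have hT : ∀ d, ¬ G.HL x e d := by
    intro d hd
    rw [(c.roleT el hd).2.2.2.2, card_empty] at h1
    omega
  obtain ⟨w, hw, hwS⟩ := c.x7 (S := {q, p, e} ∪ H) (by
    have h3 := card_union_le {q, p, e} H
    have h4 : ({q, p, e} : Finset V).card ≤ 3 := card_le_three
    omega)
  rw [mem_union, not_or] at hwS
  obtain ⟨k1, k2⟩ := hwS
  simp only [mem_insert, mem_singleton, not_or] at k1
  obtain ⟨w1, w2, w3⟩ := k1
  have hwx : w ≠ x := by
    rintro rfl
    exact G.irr _ hw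
  have key : w ∈ G.nb q → G.Hub w → False := fun h3 h4 =>
    (hH w h3 h4).elim hwx k2
  rcases c.kinds el hT hw with h | h | h | ⟨h, h3 | h3 | ⟨b, b1, b2, b3, b4⟩⟩
  · exact w1 h
  · exact w2 h
  · exact w3 h
  · exact key h3 h
  · exact key ((mem_clT76.1 (h2 (mem_nR76.2 ⟨h3, c.xR hw⟩))).resolve_left w1) h
  · obtain ⟨-, -, h4⟩ := hM1.tight Fa c.hG q c.qR c.qT c.qI b b1 b3 (ht b b1 b3)
    exact key ((mem_clT76.1 (h4 (mem_nR76.2 ⟨b4, c.xR hw⟩))).resolve_left w1) h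

/-- `e` is a twin vertex: all neighbours of `x` -/
theorem kindsT {f : V} (hf : G.Tw e f) {w : V} (hw : w ∈ G.nb x) :
    w = q ∨ w = p ∨ w = e ∨ w = f ∨ (G.Hub w ∧ (w ∈ G.nb q ∨ w ∈ G.nb e)) := by
  have hlow : ∀ v ∈ G.nb x, ¬ G.Low v := by
    intro v hv vl
    rcases c.s.low v hv vl with h1 | h1
    · rw [h1] at vl
      exact tw_not_low76 ⟨f, hf⟩ vl
    · exact tw_not_low76 ⟨f, hf⟩ h1.2.1
  have htw : ∀ v ∈ G.nb x, G.IsTw v → v = q ∨ v = p ∨ v = e ∨ v = f := by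
    intro v hv vt
    rcases c.s.tw v hv vt with h1 | h1 | h1
    · exact Or.inr (Or.inr (Or.inl h1))
    · exact Or.inr (Or.inr (Or.inr ((stTwHL_5 G).uniq c.hG.g5.n9 _ _ _ h1 hf)))
    · rcases c.un v h1 with h2 | h2
      · exact Or.inl h2
      · exact Or.inr (Or.inl h2)
  rcases trich76 (G := G) w with h | h | h
  · exact absurd h (hlow w hw)
  · rcases htw w hw h with h1 | h1 | h1 | h1
    · exact Or.inl h1
    · exact Or.inr (Or.inl h1)
    · exact Or.inr (Or.inr (Or.inl h1))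
    · exact Or.inr (Or.inr (Or.inr (Or.inl h1)))
  refine Or.inr (Or.inr (Or.inr (Or.inr ⟨h, ?_⟩)))
  have hwn : w ∈ G.nR Fa x := mem_nR76.2 ⟨hw, c.xR hw⟩
  have hm : G.m Fa x w = 0 := by rw [m, c.s.I0, empty_inter, card_empty]
  rcases cov3_76 (qs16 G) (tor86 c.hG.g5) c.s.xR hwn hm with h1 | h1 | h1 | h1 | h1
  · obtain ⟨v, h3, h4, h5, h6⟩ := h1
    exact absurd h5 (hlow v (mem_nR76.1 h3).1)
  · obtain ⟨v, v', h3, h4, h5, h6, h7⟩ := h1
    rcases htw v (mem_nR76.1 h3).1 ⟨v', h5⟩ with h8 | h8 | h8 | h8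
    · rw [h8] at h6
      exact Or.inl h6
    · rw [h8] at h5
      rw [(stTwHL_5 G).uniq c.hG.g5.n9 _ _ _ h5 (tw_symm76 c.t)] at h7
      exact Or.inl h7
    · rw [h8] at h6
      exact Or.inr h6
    · rw [h8] at h5
      rw [(stTwHL_5 G).uniq c.hG.g5.n9 _ _ _ h5 (tw_symm76 hf)] at h7
      exact Or.inr h7
  · obtain ⟨a, b, -, -, h3, -⟩ := h1
    exact absurd h3 c.s.hub.1
  · obtain ⟨a, b, -, -, h3, -⟩ := h1
    exact absurd h3 h.1
  · obtain ⟨a, b, h3, h4, h5, h6⟩ := h1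
    exact absurd h6.1 (hlow a (mem_nR76.1 h3).1)

/-- `e` is a twin vertex -/
theorem noTw (hM1 : G.StM1) {f y l : V} (hf : G.Tw e f) (hl : G.Low l) (hlq : l ∈ G.nb q)
    (hle : l ∈ G.nb e) (hH : ∀ w ∈ G.nb q, G.Hub w → w = x ∨ w = y) : False := by
  have hqe : ¬ G.Tw q e := by
    intro h
    exact c.ep ((stTwHL_5 G).uniq c.hG.g5.n9 _ _ _ h c.t)
  have h1 := hM1.cov1 Fa c.hG q c.qR c.qT c.qI e f x hf c.eq' hqe c.s.hub c.xq c.xe
  have hI : G.I Fa e ≠ ∅ := by
    intro h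
    rw [h, card_empty] at h1
    omega
  have hfq : f ≠ q := by
    rintro rfl
    exact hqe (tw_symm76 hf)
  have hfp : f ≠ p := by
    rintro rfl
    have : e = q := (stTwHL_5 G).uniq c.hG.g5.n9 _ _ _ (tw_symm76 hf) (tw_symm76 c.t)
    have h2 := c.eq'
    rw [this] at h2
    exact G.irr _ h2
  have hfR : f ∈ R Fa := ((stTwHL_5 G).twI Fa c.hG.g5.reg e c.eR f hf).1
  have hpR : p ∈ R Fa := ((stTwHL_5 G).twI Fa c.hG.g5.reg q c.qR p c.t).1
  have hlR : l ∈ R Fa := R0_86 c.qR c.qI hlq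
  have hS : ({f, q, p, l, x} : Finset V) ⊆ G.nR Fa e := by
    intro w hw
    simp only [mem_insert, mem_singleton] at hw
    rw [mem_nR76]
    rcases hw with rfl | rfl | rfl | rfl | rfl
    exacts [⟨hf.1, hfR⟩, ⟨c.qe, c.qR⟩, ⟨c.pe, hpR⟩, ⟨hle, hlR⟩, ⟨c.xe, c.s.xR⟩]
  have hft : G.IsTw f := tw_of76' hf
  have hpt : G.IsTw p := tw_of76' c.t
  have h5 : ({f, q, p, l, x} : Finset V).card = 5 := by
    refine card5_50 hfq hfp ?_ ?_ c.qp ?_ c.qx ?_ c.px ?_
    · rintro rfl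
      exact tw_not_low76 hft hl
    · rintro rfl
      exact c.s.hub.2 hft
    · rintro rfl
      exact tw_not_low76 c.qT hl
    · rintro rfl
      exact tw_not_low76 hpt hl
    · rintro rfl
      exact c.s.hub.1 hl
  obtain ⟨-, h6⟩ := one_tw86 c.hG.g5 c.eR hf hI hS (by omega)
  obtain ⟨w, hw, hwS⟩ := c.x7 (S := {q, p, e, f, y}) (by
    have h4 : ({q, p, e, f, y} : Finset V).card ≤ 5 := card_le_five
    omega)
  simp only [mem_insert, mem_singleton, not_or] at hwS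
  obtain ⟨w1, w2, w3, w4, w5⟩ := hwS
  have hwx : w ≠ x := by
    rintro rfl
    exact G.irr _ hw
  rcases c.kindsT hf hw with h | h | h | h | ⟨h, h3 | h3⟩
  · exact w1 h
  · exact w2 h
  · exact w3 h
  · exact w4 h
  · exact (hH w h3 h).elim hwx w5
  · have h7 : w ∈ G.nR Fa e := mem_nR76.2 ⟨h3, c.xR hw⟩
    rw [h6] at h7
    simp only [mem_insert, mem_singleton] at h7
    rcases h7 with h7 | h7 | h7 | h7 | h7
    · exact w4 h7
    · exact w1 h7
    · exact w2 h7
    · rw [h7] at h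
      exact h.1 hl
    · exact hwx h7

/-- cases (ii) and (ii') with `e` low -/
theorem last (el : G.Low e) {l1 a b y1 y2 l2 : V} (hl1 : G.Low l1)
    (hq : ∀ w ∈ G.nb q, G.Low w → w = l1 ∨ w = l2) (h1q : l1 ∈ G.nb q) (h2q : l2 ∈ G.nb q)
    (ha : G.Tw a b) (hy1 : G.Hub y1)
    (hH : ∀ w ∈ G.nb q, G.Hub w → w = y1 ∨ w = y2)
    (h : (G.nR Fa l1 = {q, p, a, b, l2} ∧ l1 ∈ G.nb l2 ∧ y2 ∈ G.nb l2 ∧ y1 ∉ G.nb l2) ∨
        (G.nR Fa l1 = {q, p, a, b, y1} ∧ G.HL y1 l1 l2 ∧ y1 ∈ G.nb l2 ∧ y2 ∈ G.nb l2 ∧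
          l1 ∉ G.nb l2)) (hy1q : y1 ∈ G.nb q) (hl2 : G.Low l2) : False := by
  have hl1R : l1 ∈ R Fa := R0_86 c.qR c.qI h1q
  have hl2R : l2 ∈ R Fa := R0_86 c.qR c.qI h2q
  have hy1R : y1 ∈ R Fa := R0_86 c.qR c.qI hy1q
  have h12 : l1 ≠ l2 := by
    rintro rfl
    rcases h with ⟨-, h, -, -⟩ | ⟨-, h, -, -, -⟩
    · exact G.irr _ h
    · exact (HL_bt76 h).2 rfl
  -- `l1` is in some neighbourhood
  have hI1 : G.I Fa l1 ≠ ∅ := by
    intro h0
    have h5 : (G.nb l1).card = 6 := hl1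
    rw [← nR0_86 hl1R h0] at h5
    have h6 : ∀ z : V, ({q, p, a, b, z} : Finset V).card ≤ 5 := fun z => card_le_five
    rcases h with ⟨h, -, -, -⟩ | ⟨h, -, -, -, -⟩
    · rw [h] at h5
      have := h6 l2
      omega
    · rw [h] at h5
      have := h6 y1
      omega
  -- `x ≠ y1` in the second case
  have hxy1 : G.HL y1 l1 l2 → x ≠ y1 := by
    rintro h3 rfl
    apply hI1
    rw [← HL_I76 h3 hy1R hl1R hl2R]
    exact c.s.I0
  have hxl1 : x ∉ G.nb l1 := by
    intro h3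
    have h4 : x ∈ G.nR Fa l1 := mem_nR76.2 ⟨h3, c.s.xR⟩
    have hat : G.IsTw a := tw_of76 ha
    have hbt : G.IsTw b := tw_of76' ha
    rcases h with ⟨h, -, -, -⟩ | ⟨h, h5, -, -, -⟩
    · rw [h] at h4
      simp only [mem_insert, mem_singleton] at h4
      rcases h4 with h4 | h4 | h4 | h4 | h4
      · exact c.qx h4.symm
      · exact c.px h4.symm
      · exact c.s.hub.2 (h4 ▸ hat)
      · exact c.s.hub.2 (h4 ▸ hbt)
      · exact c.s.hub.1 (h4 ▸ hl2)
    · rw [h] at h4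
      simp only [mem_insert, mem_singleton] at h4
      rcases h4 with h4 | h4 | h4 | h4 | h4
      · exact c.qx h4.symm
      · exact c.px h4.symm
      · exact c.s.hub.2 (h4 ▸ hat)
      · exact c.s.hub.2 (h4 ▸ hbt)
      · exact hxy1 h5 h4
  have hel : e = l2 := by
    rcases hq e c.eq' el with h3 | h3
    · exact absurd (h3 ▸ c.xe) hxl1
    · exact h3
  subst hel
  have hxy : x ≠ y1 := by
    rcases h with ⟨-, -, -, h3⟩ | ⟨-, h3, -⟩
    · rintro rfl
      exact h3 c.xe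
    · exact hxy1 h3
  have hx2 : x = y2 := (hH x c.xq c.s.hub).resolve_left hxy
  -- no `HL x e d`
  have hT : ∀ d, ¬ G.HL x e d := by
    intro d hd
    obtain ⟨d1, d2, d3, d4, d5⟩ := c.roleT el hd
    have h3 : d = l1 := (hq d d1 d2).resolve_right d4
    rw [h3] at hd
    have h4 : x ∈ G.nb l1 := G.sym _ _ (HL_t76 hd)
    exact hxl1 h4
  have hout : ∀ w, G.Hub w → w ∈ R Fa → w ∈ G.nb l1 → w = y1 := by
    intro w hw hwR h3
    have h4 : w ∈ G.nR Fa l1 := mem_nR76.2 ⟨h3, hwR⟩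
    have hat : G.IsTw a := tw_of76 ha
    have hbt : G.IsTw b := tw_of76' ha
    rcases h with ⟨h, -, -, -⟩ | ⟨h, h5, -, -, -⟩
    · rw [h] at h4
      simp only [mem_insert, mem_singleton] at h4
      rcases h4 with h4 | h4 | h4 | h4 | h4
      · exact absurd (h4 ▸ c.qT) hw.2
      · exact absurd (h4 ▸ tw_of76' c.t) hw.2
      · exact absurd (h4 ▸ hat) hw.2
      · exact absurd (h4 ▸ hbt) hw.2
      · exact absurd (h4 ▸ hl2) hw.1
    · rw [h] at h4
      simp only [mem_insert, mem_singleton] at h4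
      rcases h4 with h4 | h4 | h4 | h4 | h4
      · exact absurd (h4 ▸ c.qT) hw.2
      · exact absurd (h4 ▸ tw_of76' c.t) hw.2
      · exact absurd (h4 ▸ hat) hw.2
      · exact absurd (h4 ▸ hbt) hw.2
      · exact h4
  -- the rest of `nb e`
  obtain ⟨g, hg, hgq, hgp, hgx, hgl⟩ : ∃ g ∈ G.nb e, g ≠ q ∧ g ≠ p ∧ g ≠ x ∧
      (G.Hub g → g = y1) := by
    rcases h with ⟨-, h3, -, -⟩ | ⟨-, -, h3, -, -⟩
    · refine ⟨l1, h3, ?_, ?_, ?_, fun h4 => absurd hl1 h4.1⟩
      · rintro rfl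
        exact tw_not_low76 c.qT hl1
      · rintro rfl
        exact tw_not_low76 (tw_of76' c.t) hl1
      · rintro rfl
        exact c.s.hub.1 hl1
    · refine ⟨y1, h3, ?_, ?_, hxy.symm, fun _ => rfl⟩
      · rintro rfl
        exact hy1.2 c.qT
      · rintro rfl
        exact hy1.2 (tw_of76' c.t)
  have h4 : ({q, p, x, g} : Finset V).card = 4 := by
    rw [card_insert_of_notMem, card_insert_of_notMem, card_pair hgx.symm]
    · simp only [mem_insert, mem_singleton, not_or]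
      exact ⟨c.px, hgp.symm⟩
    · simp only [mem_insert, mem_singleton, not_or]
      exact ⟨c.qp, c.qx, hgq.symm⟩
  have h5 : ({q, p, x, g} : Finset V) ⊆ G.nb e := by
    intro w hw
    simp only [mem_insert, mem_singleton] at hw
    rcases hw with rfl | rfl | rfl | rfl
    exacts [c.qe, c.pe, c.xe, hg]
  have h6 : (G.nb e \ {q, p, x, g}).card = 2 := by
    rw [card_sdiff_of_subset h5, h4]
    have : (G.nb e).card = 6 := el
    omega
  obtain ⟨w, hw, hwS⟩ := c.x7 (S := {q, p, e, y1} ∪ (G.nb e \ {q, p, x, g})) (by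
    have h3 := card_union_le {q, p, e, y1} (G.nb e \ {q, p, x, g})
    have h7 : ({q, p, e, y1} : Finset V).card ≤ 4 := card_le_four
    omega)
  rw [mem_union, not_or, mem_sdiff, not_and, not_not] at hwS
  obtain ⟨k1, k2⟩ := hwS
  simp only [mem_insert, mem_singleton, not_or] at k1 k2
  obtain ⟨w1, w2, w3, w4⟩ := k1
  have hwx : w ≠ x := by
    rintro rfl
    exact G.irr _ hw
  rcases c.kinds el hT hw with h | h | h | ⟨h, h3 | h3 | ⟨b', b1, b2, b3, b4⟩⟩
  · exact w1 h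
  · exact w2 h
  · exact w3 h
  · rcases hH w h3 h with h7 | h7
    · exact w4 h7
    · exact hwx (h7.trans hx2.symm)
  · rcases k2 h3 with h7 | h7 | h7 | h7
    · exact w1 h7
    · exact w2 h7
    · exact hwx h7
    · rw [h7] at h
      exact w4 (h7.trans (hgl h))
  · have h7 : b' = l1 := by
      rcases hq b' b1 b3 with h8 | h8
      · exact h8
      · rw [h8] at b2
        exact absurd b2 (G.irr _)
    rw [h7] at b4
    exact w4 (hout w h (c.xR hw) b4)

end F33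

theorem stC8f_33 (hM1 : G.StM1) : G.StC8f := by
  intro Fa hG x e s q p t hP un h2
  have c : F33 G Fa x e q p := ⟨hG, s, t, hP, un⟩
  have hpt : G.IsTw p := tw_of76' t
  have htl : ((G.nb q).filter fun u => G.Low u).card = 2 := by
    rw [← h2, tl, nR0_86 c.qR c.qI]
  rcases hM1.poor Fa hG q c.qR p t c.qI hP.2.2.2.1 with ⟨l, l', y1, y2, y3, y4, h, k1, k2, ha, hb, hc, hd⟩ |
    ⟨l, l', a, b, y1, y2, h, k1, k2, ht, ha, hb⟩ | ⟨l, l', l'', y1, y2, y3, h, k1, k2, k3, ha, hb, hc⟩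
  · -- two lows, four hubs
    have hlow : ∀ w ∈ G.nb q, G.Low w → w = l ∨ w = l' := by
      intro w hw wl
      rw [h] at hw
      simp only [mem_insert, mem_singleton] at hw
      rcases hw with rfl | rfl | rfl | rfl | rfl | rfl | rfl
      · exact absurd wl (tw_not_low76 hpt)
      · exact Or.inl rfl
      · exact Or.inr rfl
      · exact absurd wl ha.1
      · exact absurd wl hb.1
      · exact absurd wl hc.1
      · exact absurd wl hd.1
    obtain ⟨t1, t2, -⟩ := hM1.t204 Fa hG q c.qR p t c.qI l l' y1 y2 y3 y4 h k1 k2 ha hb hc hd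
    have el : G.Low e := by
      have := c.eq'
      rw [h] at this
      simp only [mem_insert, mem_singleton] at this
      have hne : ¬ G.Hub e := by
        intro h3
        rcases s.full with h4 | ⟨f, h4, -⟩
        · exact h3.1 (mem_HPl50.1 (mem_FuL50.1 h4).1).2.1
        · exact h3.2 ⟨f, h4⟩
      rcases this with h3 | h3 | h3 | h3 | h3 | h3 | h3
      · exact absurd h3 c.ep
      · rw [h3]; exact k1
      · rw [h3]; exact k2
      · exact absurd (h3 ▸ ha) hne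
      · exact absurd (h3 ▸ hb) hne
      · exact absurd (h3 ▸ hc) hne
      · exact absurd (h3 ▸ hd) hne
    refine c.tight hM1 el ?_ (H := ({y1, y2, y3, y4} : Finset V).erase x) ?_ ?_
    · intro w hw wl
      rcases hlow w hw wl with h3 | h3 <;> rw [h3]
      exacts [t1, t2]
    · intro w hw wh
      by_cases hwx : w = x
      · exact Or.inl hwx
      · right
        rw [mem_erase]
        refine ⟨hwx, ?_⟩
        rw [h] at hw
        simp only [mem_insert, mem_singleton] at hw ⊢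
        rcases hw with h3 | h3 | h3 | h3 | h3 | h3 | h3
        · exact absurd (h3 ▸ hpt) wh.2
        · exact absurd (h3 ▸ k1) wh.1
        · exact absurd (h3 ▸ k2) wh.1
        · exact Or.inl h3
        · exact Or.inr (Or.inl h3)
        · exact Or.inr (Or.inr (Or.inl h3))
        · exact Or.inr (Or.inr (Or.inr h3))
    · have hx : x ∈ ({y1, y2, y3, y4} : Finset V) := by
        have hw := c.xq
        have wh := s.hub
        rw [h] at hw
        simp only [mem_insert, mem_singleton] at hw ⊢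
        rcases hw with h3 | h3 | h3 | h3 | h3 | h3 | h3
        · exact absurd (h3 ▸ hpt) wh.2
        · exact absurd (h3 ▸ k1) wh.1
        · exact absurd (h3 ▸ k2) wh.1
        · exact Or.inl h3
        · exact Or.inr (Or.inl h3)
        · exact Or.inr (Or.inr (Or.inl h3))
        · exact Or.inr (Or.inr (Or.inr h3))
      rw [card_erase_of_mem hx]
      have : ({y1, y2, y3, y4} : Finset V).card ≤ 4 := card_le_four
      omega
  · -- two lows, a pair, two hubs
    have hat : G.IsTw a := tw_of76 ht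
    have hbt : G.IsTw b := tw_of76' ht
    have hlow : ∀ w ∈ G.nb q, G.Low w → w = l ∨ w = l' := by
      intro w hw wl
      rw [h] at hw
      simp only [mem_insert, mem_singleton] at hw
      rcases hw with rfl | rfl | rfl | rfl | rfl | rfl | rfl
      · exact absurd wl (tw_not_low76 hpt)
      · exact Or.inl rfl
      · exact Or.inr rfl
      · exact absurd wl (tw_not_low76 hat)
      · exact absurd wl (tw_not_low76 hbt)
      · exact absurd wl ha.1
      · exact absurd wl hb.1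
    have hH : ∀ w ∈ G.nb q, G.Hub w → w = y1 ∨ w = y2 := by
      intro w hw wh
      rw [h] at hw
      simp only [mem_insert, mem_singleton] at hw
      rcases hw with h3 | h3 | h3 | h3 | h3 | h3 | h3
      · exact absurd (h3 ▸ hpt) wh.2
      · exact absurd (h3 ▸ k1) wh.1
      · exact absurd (h3 ▸ k2) wh.1
      · exact absurd (h3 ▸ hat) wh.2
      · exact absurd (h3 ▸ hbt) wh.2
      · exact Or.inl h3
      · exact Or.inr h3
    have hl : l ∈ G.nb q := by rw [h]; simp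
    have hl' : l' ∈ G.nb q := by rw [h]; simp
    have hy1 : y1 ∈ G.nb q := by rw [h]; simp
    have hy2 : y2 ∈ G.nb q := by rw [h]; simp
    -- a low vertex adjacent to the pair `a b`
    have hT := hM1.t212 Fa hG q c.qR p t c.qI l l' a b y1 y2 h k1 k2 ht ha hb
    have hla : ∃ l0 ∈ G.nb q, G.Low l0 ∧ l0 ∈ G.nb a ∧ l0 ∈ G.nb b := by
      have tw : ∀ l0, G.Low l0 → a ∈ G.nb l0 → l0 ∈ G.nb a ∧ l0 ∈ G.nb b := by
        intro l0 h3 h4
        refine ⟨G.sym _ _ h4, Tw_nb5 ht (G.sym _ _ h4) ?_⟩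
        rintro rfl
        exact tw_not_low76 hbt h3
      rcases hT with ⟨-, -, h3 | h3⟩ | ⟨l1, l2, z1, z2, h3, -, -, h4, -⟩
      · exact ⟨l, hl, k1, tw l k1 h3⟩
      · exact ⟨l', hl', k2, tw l' k2 h3⟩
      · have h5 : l1 ∈ G.nR Fa a := by rw [h4]; simp
        have h6 : l1 ∈ G.nb q ∧ G.Low l1 := by
          rcases h3 with ⟨h3, -⟩ | ⟨h3, -⟩ <;> rw [h3]
          exacts [⟨hl, k1⟩, ⟨hl', k2⟩]
        exact ⟨l1, h6.1, h6.2, tw l1 h6.2 (G.sym _ _ (mem_nR76.1 h5).1)⟩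
    by_cases el : G.Low e
    · rcases hT with ⟨t1, t2, -⟩ | ⟨l1, l2, z1, z2, h3, h4, -, -, h5, -⟩
      · refine c.tight hM1 el ?_ (H := {y1, y2}) ?_ ?_
        · intro w hw wl
          rcases hlow w hw wl with h3 | h3 <;> rw [h3]
          exacts [t1, t2]
        · intro w hw wh
          right
          rw [mem_insert, mem_singleton]
          exact hH w hw wh
        · have : ({y1, y2} : Finset V).card ≤ 2 := card_le_two
          omega
      · have h31 : G.Low l1 ∧ G.Low l2 ∧ l1 ∈ G.nb q ∧ l2 ∈ G.nb q ∧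
            ∀ w ∈ G.nb q, G.Low w → w = l1 ∨ w = l2 := by
          rcases h3 with ⟨h3, h6⟩ | ⟨h3, h6⟩ <;> rw [h3, h6]
          · exact ⟨k1, k2, hl, hl', hlow⟩
          · exact ⟨k2, k1, hl', hl, fun w hw wl => (hlow w hw wl).symm⟩
        have h41 : G.Hub z1 ∧ z1 ∈ G.nb q ∧ ∀ w ∈ G.nb q, G.Hub w → w = z1 ∨ w = z2 := by
          rcases h4 with ⟨h4, h6⟩ | ⟨h4, h6⟩ <;> rw [h4, h6]
          · exact ⟨ha, hy1, hH⟩
          · exact ⟨hb, hy2, fun w hw wl => (hH w hw wl).symm⟩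
        obtain ⟨m1, m2, m3, m4, m5⟩ := h31
        obtain ⟨n1, n2, n3⟩ := h41
        exact c.last el m1 m5 m3 m4 ht n1 n3 h5 n2 m2
    · -- `e` is a twin vertex
      obtain ⟨l0, z1, z2, z3, z4⟩ := hla
      obtain ⟨y, hy⟩ : ∃ y, ∀ w ∈ G.nb q, G.Hub w → w = x ∨ w = y := by
        rcases hH x c.xq s.hub with h3 | h3
        · exact ⟨y2, fun w hw wh => (hH w hw wh).imp (fun h4 => h4.trans h3.symm) id⟩
        · exact ⟨y1, fun w hw wh => ((hH w hw wh).imp id (fun h4 => h4.trans h3.symm)).symm⟩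
      have h3 := c.eq'
      have hne : ¬ G.Hub e := by
        intro h3
        rcases s.full with h4 | ⟨f, h4, -⟩
        · exact h3.1 (mem_HPl50.1 (mem_FuL50.1 h4).1).2.1
        · exact h3.2 ⟨f, h4⟩
      rw [h] at h3
      simp only [mem_insert, mem_singleton] at h3
      rcases h3 with h3 | h3 | h3 | h3 | h3 | h3 | h3
      · exact absurd h3 c.ep
      · exact el (h3 ▸ k1)
      · exact el (h3 ▸ k2)
      · subst h3
        exact c.noTw hM1 ht z2 z1 z3 hy
      · subst h3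
        exact c.noTw hM1 (tw_symm76 ht) z2 z1 z4 hy
      · exact absurd (h3 ▸ ha) hne
      · exact absurd (h3 ▸ hb) hne
  · -- three lows: `tl = 3`
    have hnd : [p, l, l', l'', y1, y2, y3].Nodup := by
      refine nodup7_86 ?_
      rw [← h, t.2.1]
    simp only [List.nodup_cons, List.mem_cons, List.not_mem_nil, not_or, or_false] at hnd
    have h3 : ({l, l', l''} : Finset V) ⊆ (G.nb q).filter fun u => G.Low u := by
      intro w hw
      simp only [mem_insert, mem_singleton] at hw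
      rw [mem_filter, h]
      rcases hw with rfl | rfl | rfl
      exacts [⟨by simp, k1⟩, ⟨by simp, k2⟩, ⟨by simp, k3⟩]
    have h4 : ({l, l', l''} : Finset V).card = 3 := by
      rw [card_insert_of_notMem, card_pair hnd.2.2.1.1]
      simp only [mem_insert, mem_singleton, not_or]
      exact ⟨hnd.2.1.1, hnd.2.1.2.1⟩
    have h5 := card_le_card h3
    omega

end CG

end Pool.Agent.Lib.MP_e95c01_co.N
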