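import Pool.Agent.Lib.MP_e95c01_co.X.V1_16

/-!
# `λ = 3`, the ports of a `K6` (V2) and the number of the `K6`'s (V3)
-/

namespace Pool.Agent.Lib.MP_e95c01_co.N

open Finset

variable {V : Type} [Fintype V] [DecidableEq V]

namespace CG

variable {G : CG V}

theorem tw_card16 {v w : V} (h : G.Tw v w) : (G.nb v).card = 7 := h.2.1

theorem isTw_card16 {v : V} (h : G.IsTw v) : (G.nb v).card = 7 := by
  obtain ⟨w, h⟩ := h
  exact h.2.1

/-- the second port -/
theorem port_aux16 (hC : G.Crit) {S : Finset V} (hS : G.IsK6 S) {q u : V} (hq : q ∈ S)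
    (hu : u ∈ G.nb q) (huS : u ∉ S) :
    ∃ v ∈ G.nb q, v ∉ S ∧ v ≠ u ∧ G.Low v ∧ v ∈ G.nb u ∧
      G.nb q = insert u (insert v (S.erase q)) := by
  classical
  obtain ⟨hc6, htw, hadj⟩ := hS
  have hsub : insert u (S.erase q) ⊆ G.nb q := by
    intro x hx
    rw [mem_insert, mem_erase] at hx
    rcases hx with rfl | ⟨hx, hxS⟩
    · exact hu
    · exact hadj q hq x hxS hx.symm
  have hcard : (insert u (S.erase q)).card = 6 := by
    rw [card_insert_of_notMem (fun h => huS (mem_erase.1 h).2), card_erase_of_mem hq, hc6]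
  have h7 : (G.nb q).card = 7 := isTw_card16 (htw q hq)
  obtain ⟨v, hvq, hvn⟩ : ∃ v ∈ G.nb q, v ∉ insert u (S.erase q) := by
    by_contra hno
    push Not at hno
    have h1 := card_le_card (fun x hx => hno x hx : G.nb q ⊆ insert u (S.erase q))
    omega
  have hvu : v ≠ u := fun h => hvn (by rw [h]; exact mem_insert_self _ _)
  have hvq' : v ≠ q := fun h => G.irr q (h ▸ hvq)
  have hvS : v ∉ S := fun h => hvn (mem_insert_of_mem (mem_erase.2 ⟨hvq', h⟩))
  have hnb : G.nb q = insert u (insert v (S.erase q)) := by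
    symm
    apply eq_of_subset_of_card_le
    · intro x hx
      rw [mem_insert, mem_insert] at hx
      rcases hx with h | h | h
      · rw [h]
        exact hu
      · rw [h]
        exact hvq
      · exact hsub (mem_insert_of_mem h)
    · rw [insert_comm, card_insert_of_notMem hvn, hcard, h7]
  -- the fragment
  obtain ⟨E, hE, hqE, huE⟩ := hC q u hu
  obtain ⟨X, hX, hqX, huX, hdis⟩ : ∃ X, G.Frag X ∧ q ∈ G.N X ∧ u ∈ G.N X ∧ ∀ s ∈ S, s ∉ X := by
    by_cases h : ∃ s ∈ S, s ∈ E
    · obtain ⟨s, hsS, hsE⟩ := h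
      obtain ⟨h1, h2, h3⟩ := stCo_37 G E hE
      refine ⟨G.Co E, h1, by rw [h2]; exact hqE, by rw [h2]; exact huE, fun s' hs' hs'C => ?_⟩
      rw [mem_Co76] at hs'C
      have hne : s ≠ s' := fun h => hs'C.1 (h ▸ hsE)
      exact hs'C.2 (mem_N76.2 ⟨hs'C.1, s, hsE, hadj s hsS s' hs' hne⟩)
    · push Not at h
      exact ⟨E, hE, hqE, huE, h⟩
  have honly : ∀ x ∈ X, x ∈ G.nb q → x = v := by
    intro x hx hxq
    rw [hnb, mem_insert, mem_insert, mem_erase] at hxq
    rcases hxq with h | h | h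
    · exact absurd hx (h ▸ (mem_N76.1 huX).1)
    · exact h
    · exact absurd hx (hdis x h.2)
  have hvX : v ∈ X := by
    obtain ⟨-, x, hx, hxq⟩ := mem_N76.1 hqX
    have h1 := honly x hx (G.sym _ _ hxq)
    rw [← h1]
    exact hx
  obtain ⟨q', htq⟩ := htw q hq
  have hq'X : q' ∈ G.N X := twN16 hX htq hqX
  have honly' : ∀ x ∈ X, x ∈ G.nb q' → x = v := by
    intro x hx hxq
    have h1 : x ∈ G.cl q := by
      rw [htq.2.2]
      exact mem_insert_of_mem hxq
    rcases mem_insert.1 h1 with h2 | h2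
    · exact absurd hx (h2 ▸ (mem_N76.1 hqX).1)
    · exact honly x hx h2
  have hXv : X = {v} := by
    by_contra hne
    have hY : (X.erase v).Nonempty := by
      rw [nonempty_iff_ne_empty]
      intro h0
      apply hne
      rw [erase_eq_empty_iff] at h0
      rcases h0 with h0 | h0
      · rw [h0] at hvX
        exact absurd hvX (notMem_empty _)
      · exact h0
    have hN : G.N (X.erase v) ⊆ insert v (((G.N X).erase q).erase q') := by
      intro y hy
      rw [mem_N76] at hy
      obtain ⟨hy1, x, hx, hyx⟩ := hy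
      rw [mem_erase] at hx
      rw [mem_insert]
      by_cases hyv : y = v
      · exact Or.inl hyv
      · right
        have hyX : y ∉ X := fun h => hy1 (mem_erase.2 ⟨hyv, h⟩)
        rw [mem_erase, mem_erase]
        refine ⟨?_, ?_, mem_N76.2 ⟨hyX, x, hx.2, hyx⟩⟩
        · intro h
          rw [h] at hyx
          exact hx.1 (honly' x hx.2 (G.sym _ _ hyx))
        · intro h
          rw [h] at hyx
          exact hx.1 (honly x hx.2 (G.sym _ _ hyx))
    have hCo : (G.Co (X.erase v)).Nonempty := by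
      obtain ⟨c, hc⟩ := hX.2.2
      refine ⟨c, ?_⟩
      rw [mem_Co76] at hc ⊢
      refine ⟨fun h => hc.1 (mem_erase.1 h).2, fun h => ?_⟩
      obtain ⟨-, x, hx, hcx⟩ := mem_N76.1 h
      exact hc.2 (mem_N76.2 ⟨hc.1, x, (mem_erase.1 hx).2, hcx⟩)
    have h6 := stN6_37 G (X.erase v) hY hCo
    have h1 := card_le_card hN
    have h2 := card_insert_le v (((G.N X).erase q).erase q')
    have hqq : q' ≠ q := fun h => G.irr q (h ▸ htq.1)
    rw [card_erase_of_mem (mem_erase.2 ⟨hqq, hq'X⟩), card_erase_of_mem hqX, hX.2.1] at h2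
    omega
  have hNv : G.N X = G.nb v := by
    rw [hXv]
    ext y
    rw [mem_N76]
    constructor
    · rintro ⟨-, x, hx, hyx⟩
      rw [mem_singleton] at hx
      rw [← hx]
      exact hyx
    · intro hy
      refine ⟨fun h => ?_, v, mem_singleton_self _, hy⟩
      rw [mem_singleton] at h
      rw [h] at hy
      exact G.irr v hy
  refine ⟨v, hvq, hvS, hvu, ?_, ?_, hnb⟩
  · rw [Low, ← hNv]
    exact hX.2.1
  · rw [hNv] at huX
    exact G.sym _ _ huX

/-- V2 -/
theorem stPort_16 (G : CG V) : G.StPort := by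
  intro hC _ S hS q hq u hu huS
  obtain ⟨v, h1, h2, h3, h4, h5, h6⟩ := port_aux16 hC hS hq hu huS
  obtain ⟨w, k1, k2, k3, k4, k5, k6⟩ := port_aux16 hC hS hq h1 h2
  have huw : u = w := by
    rw [k6, mem_insert, mem_insert, mem_erase] at hu
    rcases hu with h | h | h
    · exact absurd h.symm h3
    · exact h
    · exact absurd h.2 huS
  refine ⟨?_, v, h1, h2, h3, h4, h5, h6⟩
  rw [huw]
  exact k4

/-- the twin of a vertex of a `K6` is in the `K6` -/
theorem k6_twin16 (hC : G.Crit) (h9 : 9 ≤ Fintype.card V) {S : Finset V} (hS : G.IsK6 S) {q q' : V}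
    (hq : q ∈ S) (h : G.Tw q q') : q' ∈ S := by
  by_contra hn
  obtain ⟨h1, -⟩ := stPort_16 G hC h9 S hS q hq q' h.1 hn
  exact tw_not_low11 ⟨q, (stTwHL_5 G).symm _ _ h⟩ h1

/-- vertices of `N S` are low -/
theorem k6_low16 (hC : G.Crit) (h9 : 9 ≤ Fintype.card V) {S : Finset V} (hS : G.IsK6 S) {w : V}
    (hw : w ∈ G.N S) : G.Low w ∧ 2 ≤ (G.nb w ∩ S).card ∧ ∃ v ∈ G.nb w, G.Low v := by
  classical
  obtain ⟨hwS, q, hq, hwq⟩ := mem_N76.1 hw
  obtain ⟨h1, v, hv1, hv2, hv3, hv4, hv5, hv6⟩ := stPort_16 G hC h9 S hS q hq w hwq hwS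
  refine ⟨h1, ?_, v, hv5, hv4⟩
  obtain ⟨q', htq⟩ := hS.2.1 q hq
  have hq'S := k6_twin16 hC h9 hS hq htq
  have hqq : q ≠ q' := fun h => G.irr q (by have := htq.1; rw [← h] at this; exact this)
  have hw' : w ∈ G.nb q' := by
    have h2 : w ∈ G.cl q' := by
      rw [← htq.2.2]
      exact mem_insert_of_mem hwq
    rcases mem_insert.1 h2 with h3 | h3
    · exact absurd (h3 ▸ hq'S) hwS
    · exact h3
  have h3 : ({q, q'} : Finset V) ⊆ G.nb w ∩ S := by
    intro x hx
    rw [mem_insert, mem_singleton] at hx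
    rw [mem_inter]
    rcases hx with rfl | rfl
    · exact ⟨G.sym _ _ hwq, hq⟩
    · exact ⟨G.sym _ _ hw', hq'S⟩
  have h4 := card_le_card h3
  rwa [card_pair hqq] at h4

/-- two `K6`'s with a common vertex are equal -/
theorem k6_eq16 (hC : G.Crit) (h9 : 9 ≤ Fintype.card V) {S S' : Finset V} (hS : G.IsK6 S)
    (hS' : G.IsK6 S') {q : V} (hq : q ∈ S) (hq' : q ∈ S') : S = S' := by
  have h1 : S' ⊆ S := by
    intro x hx
    by_cases hxq : x = q
    · rw [hxq]
      exact hq
    · by_contra hn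
      obtain ⟨h1, -⟩ := stPort_16 G hC h9 S hS q hq x (hS'.2.2 q hq' x hx (Ne.symm hxq)) hn
      exact tw_not_low11 (hS'.2.1 x hx) h1
  exact (eq_of_subset_of_card_le h1 (by rw [hS.1, hS'.1])).symm

/-- V3 -/
theorem stKap_16 (G : CG V) : G.StKap := by
  classical
  intro hC h9
  by_cases hsm : ∃ S, G.IsK6 S ∧ ∀ x, x ∈ S ∨ x ∈ G.N S
  · left
    obtain ⟨S, hS, hall⟩ := hsm
    have h1 : (univ : Finset V) \ S ⊆ univ.filter fun v => G.Low v := by
      intro x hx
      rw [mem_sdiff] at hx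
      rw [mem_filter]
      refine ⟨mem_univ _, (k6_low16 hC h9 hS ?_).1⟩
      rcases hall x with h | h
      · exact absurd h hx.2
      · exact h
    have h2 := card_le_card h1
    have h3 : ((univ : Finset V) \ S).card = Fintype.card V - 6 := by
      rw [card_sdiff_of_subset (subset_univ _), card_univ, hS.1]
    rw [h3] at h2
    have h4 : (univ.filter fun v => G.Low v).card = G.l univ := rfl
    rw [h4] at h2
    omega
  · right
    push Not at hsm
    set K : Finset (Finset V) := univ.filter fun S : Finset V => G.IsK6 S ∧ 4 ≤ (S ∩ univ).card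
      with hK
    have hkap : G.kap univ = K.card := rfl
    rw [hkap]
    have hKS : ∀ S ∈ K, G.IsK6 S := fun S h => by
      rw [hK, mem_filter] at h
      exact h.2.1
    set L : Finset V := univ.filter fun v => G.Low v with hL
    have hl : G.l univ = L.card := rfl
    rw [hl]
    have h1 := sum_card_bipartiteAbove_eq_sum_card_bipartiteBelow (s := K) (t := L)
      (fun S w => w ∈ G.N S)
    have h2 : ∀ S ∈ K, 6 ≤ (L.bipartiteAbove (fun S w => w ∈ G.N S) S).card := by
      intro S hS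
      have h3 : L.bipartiteAbove (fun S w => w ∈ G.N S) S = G.N S := by
        ext w
        rw [mem_bipartiteAbove, hL, mem_filter]
        exact ⟨fun h => h.2, fun h => ⟨⟨mem_univ _, (k6_low16 hC h9 (hKS S hS) h).1⟩, h⟩⟩
      rw [h3]
      apply stN6_37 G S
      · rw [← card_pos, (hKS S hS).1]
        omega
      · obtain ⟨x, hx1, hx2⟩ := hsm S (hKS S hS)
        exact ⟨x, mem_Co76.2 ⟨hx1, hx2⟩⟩
    have h4 : ∀ w ∈ L, (K.bipartiteBelow (fun S w => w ∈ G.N S) w).card ≤ 2 := by
      intro w hw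
      by_contra hgt
      push Not at hgt
      set M := K.bipartiteBelow (fun S w => w ∈ G.N S) w with hM
      have hMK : ∀ S ∈ M, G.IsK6 S ∧ w ∈ G.N S := fun S h => by
        rw [hM, mem_bipartiteBelow] at h
        exact ⟨hKS S h.1, h.2⟩
      have hlow : (G.nb w).card = 6 := by
        rw [hL, mem_filter] at hw
        exact hw.2
      obtain ⟨S0, hS0⟩ : M.Nonempty := by
        rw [← card_pos]
        omega
      obtain ⟨-, -, v, hv, hvl⟩ := k6_low16 hC h9 (hMK S0 hS0).1 (hMK S0 hS0).2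
      have h5 : (M.biUnion fun S => G.nb w ∩ S) ⊆ (G.nb w).erase v := by
        intro x hx
        rw [mem_biUnion] at hx
        obtain ⟨S, hS, hx⟩ := hx
        rw [mem_inter] at hx
        rw [mem_erase]
        refine ⟨fun h => ?_, hx.1⟩
        rw [h] at hx
        exact tw_not_low11 ((hMK S hS).1.2.1 v hx.2) hvl
      have h6 := card_le_card h5
      rw [card_erase_of_mem hv, hlow, card_biUnion] at h6
      · have h7 : M.card • 2 ≤ ∑ S ∈ M, (G.nb w ∩ S).card :=
          card_nsmul_le_sum _ _ _ fun S hS => (k6_low16 hC h9 (hMK S hS).1 (hMK S hS).2).2.1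
        rw [smul_eq_mul] at h7
        omega
      · intro S hS S' hS' hne
        rw [Function.onFun, disjoint_left]
        intro x hx hx'
        rw [mem_inter] at hx hx'
        exact hne (k6_eq16 hC h9 (hMK S hS).1 (hMK S' hS').1 hx.2 hx'.2)
    have h5 : K.card • 6 ≤ ∑ S ∈ K, (L.bipartiteAbove (fun S w => w ∈ G.N S) S).card :=
      card_nsmul_le_sum _ _ _ h2
    have h6 : ∑ w ∈ L, (K.bipartiteBelow (fun S w => w ∈ G.N S) w).card ≤ L.card • 2 :=
      sum_le_card_nsmul _ _ _ h4
    rw [smul_eq_mul] at h5 h6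
    omega

end CG

end Pool.Agent.Lib.MP_e95c01_co.N
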