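import Pool.Agent.Lib.MP_e95c01_co.X.StmtsT76
import Pool.Agent.Lib.MP_e95c01_co.X.V2_16

/-!
# Thick torsos: pairs of twins in no neighbourhood
-/

namespace Pool.Agent.Lib.MP_e95c01_co.N

open Finset

variable {V : Type} [Fintype V] [DecidableEq V]

namespace CG

variable {G : CG V} {Fa : Finset (Finset V)}

/-! ### general facts -/

/-- all neighbours of a vertex in no neighbourhood are in `R` -/
theorem R0_86 {z x : V} (hz : z ∈ R Fa) (hI : G.I Fa z = ∅) (hx : x ∈ G.nb z) : x ∈ R Fa :=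
  (mem_nR76.1 (nR_of5 hz hx (by rw [hI]; simp))).2

theorem nR0_86 {z : V} (hz : z ∈ R Fa) (hI : G.I Fa z = ∅) : G.nR Fa z = G.nb z := by
  ext x
  rw [mem_nR76]
  exact ⟨fun h => h.1, fun h => ⟨h, R0_86 hz hI h⟩⟩

/-- visible and hidden neighbours -/
theorem splitM86 (hr : G.Reg Fa) {z : V} (hz : z ∈ R Fa) :
    (G.nR Fa z).card + ∑ B ∈ G.I Fa z, G.d z B = (G.nb z).card := by
  have h1 : G.nb z = G.nR Fa z ∪ (G.I Fa z).biUnion (fun B => G.nb z ∩ B) := by
    ext x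
    rw [mem_union, mem_nR76, mem_biUnion]
    constructor
    · intro hx
      by_cases h2 : x ∈ R Fa
      · exact Or.inl ⟨hx, h2⟩
      · rw [mem_R76] at h2
        push Not at h2
        obtain ⟨B, hB, hxB⟩ := h2
        exact Or.inr ⟨B, I_of_nb76 hz hB hx hxB, mem_inter.2 ⟨hx, hxB⟩⟩
    · rintro (h | ⟨B, -, h⟩)
      · exact h.1
      · exact (mem_inter.1 h).1
  have h2 : Disjoint (G.nR Fa z) ((G.I Fa z).biUnion (fun B => G.nb z ∩ B)) := by
    rw [disjoint_left]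
    intro x hx h3
    rw [mem_biUnion] at h3
    obtain ⟨B, hB, h4⟩ := h3
    exact mem_R76.1 (mem_nR76.1 hx).2 B (mem_I76.1 hB).1 (mem_inter.1 h4).2
  have h3 : ((G.I Fa z).biUnion (fun B => G.nb z ∩ B)).card = ∑ B ∈ G.I Fa z, G.d z B := by
    rw [card_biUnion]
    · rfl
    · intro B hB B' hB' hne
      have h4 := (hr.dis B (mem_I76.1 hB).1 B' (mem_I76.1 hB').1 hne).1
      refine disjoint_left.2 ?_
      intro x hx hx'
      exact disjoint_left.1 h4 (mem_inter.1 hx).2 (mem_inter.1 hx').2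
  conv_rhs => rw [h1]
  rw [card_union_of_disjoint h2, h3]

/-- a lower bound for the number of vertices -/
theorem nge86 (hG : G.Gen5 Fa) (hn : Fa = ∅ → 13 ≤ Fintype.card V) {Z : Finset V}
    (hZ : ∀ z ∈ Z, z ∈ R Fa ∧ G.I Fa z = ∅) (h4 : Z.card ≤ 4) : 9 + Z.card ≤ Fintype.card V := by
  rcases Fa.eq_empty_or_nonempty with h | ⟨B, hB⟩
  · have := hn h
    omega
  · have h1 := card_Co86 G B
    have h2 := (hG.reg.frag B hB).2.1
    have h3 := hG.big B hB
    have h5 : Z ⊆ G.Co B := by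
      intro z hz
      refine mem_Co76.2 ⟨mem_R76.1 (hZ z hz).1 B hB, fun h6 => ?_⟩
      have h7 : B ∈ G.I Fa z := mem_I76.2 ⟨hB, h6⟩
      rw [(hZ z hz).2] at h7
      simp at h7
    have h6 := card_le_card h5
    omega

/-- `E0` for at most four vertices -/
theorem E04_86 (hG : G.Gen5 Fa) (hn : Fa = ∅ → 13 ≤ Fintype.card V) {Z : Finset V}
    (h3 : 3 ≤ Z.card) (h4 : Z.card ≤ 4) (hZ : ∀ z ∈ Z, z ∈ R Fa ∧ G.I Fa z = ∅) :
    7 ≤ (G.N Z).card := by
  by_contra h7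
  have h1 := card_Co86 G Z
  have h2 := nge86 hG hn hZ h4
  exact h7 (E0_86 hG h3 (by omega) hZ (by omega))

/-- partners and low vertices -/
theorem low_ne86 {v w l : V} (ht : G.Tw v w) (hl : G.Low l) : l ≠ w ∧ l ≠ v := by
  have h1 : (G.nb l).card = 6 := hl
  have h2 := (symm_5 ht).2.1
  have h3 := ht.2.1
  constructor <;> rintro rfl <;> omega

/-- adjacent pairs of twins -/
theorem tw_adjM86 (n9 : 9 ≤ Fintype.card V) {a a' b b' : V} (ha : G.Tw a a') (hb : G.Tw b b')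
    (h : b ∈ G.nb a) (hne : b ≠ a') :
    b' ∈ G.nb a ∧ b ∈ G.nb a' ∧ b' ∈ G.nb a' ∧ b' ≠ a ∧ b' ≠ a' := by
  have h1 : b' ≠ a := by
    rintro rfl
    exact hne (uniq_5 n9 (symm_5 hb) ha)
  have h2 : b ∈ G.nb a' := Tw_nb5 ha h hne
  have h3 : b' ≠ a' := by
    rintro rfl
    have := uniq_5 n9 (symm_5 hb) (symm_5 ha)
    subst this
    exact G.irr _ h
  have h4 : b' ∈ G.nb a := G.sym _ _ (Tw_nb5 hb (G.sym _ _ h) h1.symm)
  exact ⟨h4, h2, Tw_nb5 ha h4 h3, h1, h3⟩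

/-- the cover of a neighbour of a pair of twins in no neighbourhood -/
theorem cov0_86 (hG : G.Gen5 Fa) {v w z : V} (hv : v ∈ R Fa) (ht : G.Tw v w)
    (hI : G.I Fa v = ∅) (hz : z ∈ G.nb v) :
    (∃ l ∈ G.nb v, G.Low l ∧ z ∈ G.nb l) ∨
    (∃ p ∈ G.nb v, ∃ p' ∈ G.nb v, p ≠ w ∧ p' ≠ w ∧ G.Tw p p' ∧ z ∈ G.nb p ∧ z ∈ G.nb p') ∨
    (∃ a ∈ G.nb v, ∃ b ∈ G.nb v, G.Low z ∧ G.Low b ∧ G.HL a b z) := by
  have h0 : z ∈ G.nR Fa v := by rw [nR0_86 hv hI]; exact hz
  rcases cov3_76 (qs16 G) (tor86 hG) hv h0 (m_empty5 hI) with h | h | h | h | h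
  · obtain ⟨l, h1, -, h2, h3⟩ := h
    exact Or.inl ⟨l, (mem_nR76.1 h1).1, h2, h3⟩
  · obtain ⟨p, p', h1, h2, h3, h4, h5⟩ := h
    refine Or.inr (Or.inl ⟨p, (mem_nR76.1 h1).1, p', (mem_nR76.1 h2).1, ?_, ?_, h3, h4, h5⟩)
    · rintro rfl
      have := uniq_5 hG.n9 h3 (symm_5 ht)
      subst this
      exact G.irr _ (mem_nR76.1 h2).1
    · rintro rfl
      have := uniq_5 hG.n9 (symm_5 h3) (symm_5 ht)
      subst this
      exact G.irr _ (mem_nR76.1 h1).1
  · obtain ⟨a, b, -, -, h1, -⟩ := h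
    exact absurd rfl (low_ne86 ht h1).2
  · obtain ⟨a, b, h1, h2, h3, h4, h5⟩ := h
    have h6 : v ∈ G.nb a := HL_sub76 h4 (G.sym _ _ (mem_nR76.1 h1).1) h5
    exact Or.inr (Or.inr ⟨a, G.sym _ _ h6, b, (mem_nR76.1 h1).1, h3, h4.2.1, h4⟩)
  · obtain ⟨a, b, -, -, -, h1⟩ := h
    exact absurd ⟨w, ht⟩ (twLL_5 h1)

/-- three mutually adjacent pairs of twins -/
theorem k6_of86 (n9 : 9 ≤ Fintype.card V) {v w p p' q q' : V} (ht : G.Tw v w) (hp : p ∈ G.nb v)
    (hpw : p ≠ w) (htp : G.Tw p p') (hq : q ∈ G.nb v) (hqw : q ≠ w) (htq : G.Tw q q')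
    (hpq : q ∈ G.nb p) (hne : q ≠ p') : G.IsK6 {v, w, p, p', q, q'} := by
  obtain ⟨a1, a2, a3, a4, a5⟩ := tw_adjM86 n9 ht htp hp hpw
  obtain ⟨b1, b2, b3, b4, b5⟩ := tw_adjM86 n9 ht htq hq hqw
  obtain ⟨c1, c2, c3, c4, c5⟩ := tw_adjM86 n9 htp htq hpq hne
  have d1 := ht.1
  have d2 := htp.1
  have d3 := htq.1
  have e1 := ne_of_nb5 d1
  have e2 := ne_of_nb5 d2
  have e3 := ne_of_nb5 d3
  have f1 := ne_of_nb5 hp
  have f2 := ne_of_nb5 hq
  have f3 := ne_of_nb5 hpq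
  refine ⟨?_, ?_, ?_⟩
  · rw [card_insert_of_notMem, card_insert_of_notMem, card_insert_of_notMem,
      card_insert_of_notMem, card_insert_of_notMem, card_singleton]
    · simpa using e3
    · simp only [mem_insert, mem_singleton, not_or]
      exact ⟨hne.symm, c5.symm⟩
    · simp only [mem_insert, mem_singleton, not_or]
      exact ⟨e2, f3, c4.symm⟩
    · simp only [mem_insert, mem_singleton, not_or]
      exact ⟨hpw.symm, a5.symm, hqw.symm, b5.symm⟩
    · simp only [mem_insert, mem_singleton, not_or]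
      exact ⟨e1, f1, a4.symm, f2, b4.symm⟩
  · intro x hx
    simp only [mem_insert, mem_singleton] at hx
    rcases hx with rfl | rfl | rfl | rfl | rfl | rfl
    exacts [⟨_, ht⟩, ⟨_, symm_5 ht⟩, ⟨_, htp⟩, ⟨_, symm_5 htp⟩, ⟨_, htq⟩, ⟨_, symm_5 htq⟩]
  · intro x hx y hy hxy
    simp only [mem_insert, mem_singleton] at hx hy
    have g1 := G.sym _ _ d1
    have g2 := G.sym _ _ d2
    have g3 := G.sym _ _ d3
    have g4 := G.sym _ _ hp
    have g5 := G.sym _ _ hq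
    have g6 := G.sym _ _ hpq
    have g7 := G.sym _ _ a1
    have g8 := G.sym _ _ a2
    have g9 := G.sym _ _ a3
    have i7 := G.sym _ _ b1
    have i8 := G.sym _ _ b2
    have i9 := G.sym _ _ b3
    have j7 := G.sym _ _ c1
    have j8 := G.sym _ _ c2
    have j9 := G.sym _ _ c3
    rcases hx with rfl | rfl | rfl | rfl | rfl | rfl <;>
      rcases hy with rfl | rfl | rfl | rfl | rfl | rfl <;>
      first
        | exact absurd rfl hxy
        | assumption

/-- no two adjacent pairs of twins near `v` (besides its own pair) -/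
def NK86 (G : CG V) (v w : V) : Prop :=
  ∀ p ∈ G.nb v, p ≠ w → ∀ p', G.Tw p p' → ∀ q ∈ G.nb v, q ≠ w → G.IsTw q → q ≠ p' → q ∉ G.nb p

theorem nk_or86 (n9 : 9 ≤ Fintype.card V) {v w : V} (ht : G.Tw v w) :
    (∃ S, G.IsK6 S ∧ v ∈ S) ∨ G.NK86 v w := by
  by_cases h : G.NK86 v w
  · exact Or.inr h
  · left
    unfold NK86 at h
    push Not at h
    obtain ⟨p, hp, hpw, p', htp, q, hq, hqw, ⟨q', htq⟩, hne, hqp⟩ := h
    exact ⟨_, k6_of86 n9 ht hp hpw htp hq hqw htq hqp hne, by simp⟩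

/-- the low neighbours of a vertex of a `K6` -/
theorem k6_low86 (hG : G.Gen5 Fa) {S : Finset V} (hS : G.IsK6 S) {v : V} (hv : v ∈ S) :
    ∃ l ∈ G.nb v, ∃ l' ∈ G.nb v, l ∉ S ∧ l' ∉ S ∧ l ≠ l' ∧ G.Low l ∧ G.Low l' ∧ l' ∈ G.nb l ∧
      G.nb v = insert l (insert l' (S.erase v)) := by
  have h1 : (G.nb v).card = 7 := isTw_card16 (hS.2.1 v hv)
  have h2 : (S.erase v).card = 5 := by rw [card_erase_of_mem hv, hS.1]
  obtain ⟨l, hl, hlS⟩ : ∃ l ∈ G.nb v, l ∉ S := by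
    by_contra hc
    push Not at hc
    have h3 : G.nb v ⊆ S.erase v := fun x hx =>
      mem_erase.2 ⟨fun e => (ne_of_nb5 hx) e.symm, hc x hx⟩
    have := card_le_card h3
    omega
  obtain ⟨h3, l', hl', h4, h5, h6, h7, h8⟩ := stPort_16 G hG.crit hG.n9 S hS v hv l hl hlS
  exact ⟨l, hl, l', hl', hlS, h4, h5.symm, h3, h6, h7, h8⟩

/-- without `K6`, every twin vertex near `v` has a low neighbour near `v` -/
theorem tw_lowM86 (hG : G.Gen5 Fa) {v w p p' : V} (hv : v ∈ R Fa) (ht : G.Tw v w)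
    (hI : G.I Fa v = ∅) (hk : G.NK86 v w) (hp : p ∈ G.nb v) (hpw : p ≠ w) (htp : G.Tw p p') :
    ∃ l ∈ G.nb v, G.Low l ∧ p ∈ G.nb l := by
  rcases cov0_86 hG hv ht hI hp with h | h | h
  · exact h
  · obtain ⟨q, hq, q', hq', hqw, -, htq, h1, h2⟩ := h
    exfalso
    refine hk p hp hpw p' htp q hq hqw ⟨q', htq⟩ ?_ (G.sym _ _ h1)
    rintro rfl
    have := uniq_5 hG.n9 htq (symm_5 htp)
    subst this
    exact G.irr _ h2
  · obtain ⟨a, -, b, -, h1, -, -⟩ := h
    exact absurd rfl (low_ne86 htp h1).2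

/-- a pair of twins in no neighbourhood has a low neighbour -/
theorem low1_86 (hG : G.Gen5 Fa) {v w : V} (hv : v ∈ R Fa) (ht : G.Tw v w)
    (hI : G.I Fa v = ∅) : ∃ l ∈ G.nb v, G.Low l := by
  rcases nk_or86 hG.n9 ht with ⟨S, hS, hvS⟩ | hk
  · obtain ⟨l, hl, l', -, -, -, -, h, -⟩ := k6_low86 hG hS hvS
    exact ⟨l, hl, h⟩
  · obtain ⟨z, hz, hzw⟩ : ∃ z ∈ G.nb v, z ≠ w := by
      by_contra hc
      push Not at hc
      have h1 : G.nb v ⊆ {w} := fun x hx => mem_singleton.2 (hc x hx)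
      have h2 := card_le_card h1
      rw [ht.2.1, card_singleton] at h2
      omega
    rcases cov0_86 hG hv ht hI hz with h | h | h
    · obtain ⟨l, h1, h2, -⟩ := h
      exact ⟨l, h1, h2⟩
    · obtain ⟨p, hp, p', -, hpw, -, htp, -, -⟩ := h
      obtain ⟨l, h1, h2, -⟩ := tw_lowM86 hG hv ht hI hk hp hpw htp
      exact ⟨l, h1, h2⟩
    · obtain ⟨a, -, b, h1, -, h2, -⟩ := h
      exact ⟨b, h1, h2⟩

/-- two low neighbours -/
theorem low2_86 (hG : G.Gen5 Fa) (hn : Fa = ∅ → 13 ≤ Fintype.card V) {v w : V} (hv : v ∈ R Fa)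
    (ht : G.Tw v w) (hI : G.I Fa v = ∅) :
    ∃ l ∈ G.nb v, ∃ l' ∈ G.nb v, l ≠ l' ∧ G.Low l ∧ G.Low l' := by
  rcases nk_or86 hG.n9 ht with ⟨S, hS, hvS⟩ | hk
  · obtain ⟨l, hl, l', hl', -, -, h1, h2, h3, -, -⟩ := k6_low86 hG hS hvS
    exact ⟨l, hl, l', hl', h1, h2, h3⟩
  obtain ⟨l, hl, hlow⟩ := low1_86 hG hv ht hI
  by_contra hc
  have huniq : ∀ x ∈ G.nb v, G.Low x → x = l := by
    intro x hx hxl
    by_contra hne
    exact hc ⟨x, hx, l, hl, hne, hxl, hlow⟩
  have hlw := (low_ne86 ht hlow).1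
  have n10 : 10 ≤ Fintype.card V := by
    have := nge86 hG hn (Z := {v}) (by
      intro z hz
      rw [mem_singleton] at hz
      subst hz
      exact ⟨hv, hI⟩) (by simp)
    rw [card_singleton] at this
    omega
  have hcov : ∀ z ∈ G.nb v, z ∈ G.nb l ∨ ∃ p ∈ G.nb v, ∃ p' ∈ G.nb v, p ≠ w ∧ p' ≠ w ∧
      G.Tw p p' ∧ z ∈ G.nb p ∧ z ∈ G.nb p' := by
    intro z hz
    rcases cov0_86 hG hv ht hI hz with h | h | h
    · obtain ⟨x, h1, h2, h3⟩ := h
      rw [huniq x h1 h2] at h3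
      exact Or.inl h3
    · exact Or.inr h
    · obtain ⟨a, -, b, h1, h2, h3, h4⟩ := h
      exfalso
      have e1 := huniq z hz h2
      have e2 := huniq b h1 h3
      exact (HL_bt76 h4).2 (e1.trans e2.symm)
  have htw : ∀ p ∈ G.nb v, p ≠ w → ∀ p', G.Tw p p' → p ∈ G.nb l := by
    intro p hp hpw p' htp
    obtain ⟨x, h1, h2, h3⟩ := tw_lowM86 hG hv ht hI hk hp hpw htp
    rw [huniq x h1 h2] at h3
    exact h3
  have hle := lq_le86 hG.n9 hlow ht (G.sym _ _ hl)
  rcases hcov l hl with h | ⟨p, hp, p', hp', hpw, hpw', htp, hlp, hlp'⟩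
  · exact G.irr _ h
  have hle2 := qq_le86 n10 ht htp hp hpw
  have hvl : w ∈ G.nb l := G.sym _ _ (Tw_nb5 ht hl hlw)
  -- no other pair
  have hno : ∀ q ∈ G.nb v, q ≠ w → ∀ q', G.Tw q q' → q = p ∨ q = p' := by
    intro q hq hqw q' htq
    by_contra hne
    push Not at hne
    obtain ⟨e1, e2, e3, e4, e5⟩ := tw_adjM86 hG.n9 ht htq hq hqw
    have f1 : q' ≠ p := by
      rintro rfl
      exact hne.2 (uniq_5 hG.n9 (symm_5 htq) htp)
    have f2 : q' ≠ p' := by
      rintro rfl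
      exact hne.1 (uniq_5 hG.n9 (symm_5 htq) (symm_5 htp))
    have h5 : ({w, p, p', q, q'} : Finset V) ⊆ G.nb l ∩ G.nb v := by
      intro x hx
      simp only [mem_insert, mem_singleton] at hx
      rw [mem_inter]
      rcases hx with rfl | rfl | rfl | rfl | rfl
      · exact ⟨hvl, ht.1⟩
      · exact ⟨htw _ hp hpw _ htp, hp⟩
      · exact ⟨htw _ hp' hpw' _ (symm_5 htp), hp'⟩
      · exact ⟨htw _ hq hqw _ htq, hq⟩
      · exact ⟨htw _ e1 e5 _ (symm_5 htq), e1⟩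
    have h6 := card_le_card h5
    rw [card_insert_of_notMem, card_insert_of_notMem, card_insert_of_notMem,
      card_insert_of_notMem, card_singleton] at h6
    · omega
    · simpa using ne_of_nb5 htq.1
    · simp only [mem_insert, mem_singleton, not_or]
      exact ⟨Ne.symm hne.2, f2.symm⟩
    · simp only [mem_insert, mem_singleton, not_or]
      exact ⟨ne_of_nb5 htp.1, Ne.symm hne.1, f1.symm⟩
    · simp only [mem_insert, mem_singleton, not_or]
      exact ⟨hpw.symm, hpw'.symm, hqw.symm, e5.symm⟩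
  -- the three other neighbours
  have hX : G.nb v ⊆ {w, l, p, p'} ∪ (G.nb l ∩ (G.nb v \ {w, l, p, p'})) ∪
      (G.nb p ∩ (G.nb v \ {w, l, p, p'})) := by
    intro x hx
    by_cases h1 : x ∈ ({w, l, p, p'} : Finset V)
    · exact mem_union_left _ (mem_union_left _ h1)
    · rcases hcov x hx with h2 | ⟨q, hq, q', hq', hqw, -, htq, h2, h3⟩
      · exact mem_union_left _ (mem_union_right _ (mem_inter.2 ⟨h2, mem_sdiff.2 ⟨hx, h1⟩⟩))
      · have h4 : x ∈ G.nb p := by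
          rcases hno q hq hqw q' htq with rfl | rfl
          · exact h2
          · have := uniq_5 hG.n9 htq (symm_5 htp)
            subst this
            exact h3
        exact mem_union_right _ (mem_inter.2 ⟨h4, mem_sdiff.2 ⟨hx, h1⟩⟩)
  have c1 : (G.nb l ∩ (G.nb v \ {w, l, p, p'})).card ≤ 1 := by
    have h5 : insert w (insert p (insert p' (G.nb l ∩ (G.nb v \ {w, l, p, p'})))) ⊆
        G.nb l ∩ G.nb v := by
      intro x hx
      simp only [mem_insert] at hx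
      rw [mem_inter]
      rcases hx with rfl | rfl | rfl | h
      · exact ⟨hvl, ht.1⟩
      · exact ⟨htw _ hp hpw _ htp, hp⟩
      · exact ⟨htw _ hp' hpw' _ (symm_5 htp), hp'⟩
      · exact ⟨(mem_inter.1 h).1, (mem_sdiff.1 (mem_inter.1 h).2).1⟩
    have h6 := card_le_card h5
    rw [card_insert_of_notMem, card_insert_of_notMem, card_insert_of_notMem] at h6
    · omega
    · simp
    · simp [ne_of_nb5 htp.1]
    · simp [hpw.symm, hpw'.symm]
  have c2 : (G.nb p ∩ (G.nb v \ {w, l, p, p'})).card ≤ 1 := by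
    have h5 : insert w (insert l (insert p' (G.nb p ∩ (G.nb v \ {w, l, p, p'})))) ⊆
        G.nb v ∩ G.nb p := by
      intro x hx
      simp only [mem_insert] at hx
      rw [mem_inter]
      rcases hx with rfl | rfl | rfl | h
      · exact ⟨ht.1, G.sym _ _ (Tw_nb5 ht hp hpw)⟩
      · exact ⟨hl, hlp⟩
      · exact ⟨hp', htp.1⟩
      · exact ⟨(mem_sdiff.1 (mem_inter.1 h).2).1, (mem_inter.1 h).1⟩
    have h6 := card_le_card h5
    rw [card_insert_of_notMem, card_insert_of_notMem, card_insert_of_notMem] at h6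
    · omega
    · simp
    · simp [(ne_of_nb5 hlp').symm]
    · simp [hlw.symm, hpw'.symm]
  have h1 := card_le_card hX
  have h2 := card_union_le ({w, l, p, p'} ∪ (G.nb l ∩ (G.nb v \ {w, l, p, p'})))
    (G.nb p ∩ (G.nb v \ {w, l, p, p'}))
  have h3 := card_union_le ({w, l, p, p'} : Finset V) (G.nb l ∩ (G.nb v \ {w, l, p, p'}))
  have h4 : ({w, l, p, p'} : Finset V).card ≤ 4 := card_le_four
  have h5 := ht.2.1
  omega

/-! ### counting -/

/-- indicator -/
def ind86 (S : Finset V) (u : V) : ℕ := if u ∈ S then 1 else 0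

omit [Fintype V] in
theorem ind_le86 (S : Finset V) (u : V) : ind86 S u ≤ 1 := by
  unfold ind86
  split_ifs <;> omega

omit [Fintype V] in
theorem ind_one86 {S : Finset V} {u : V} : ind86 S u = 1 ↔ u ∈ S := by
  unfold ind86
  split_ifs with h <;> simp [h]

omit [Fintype V] in
theorem ind_zero86 {S : Finset V} {u : V} : ind86 S u = 0 ↔ u ∉ S := by
  unfold ind86
  split_ifs with h <;> simp [h]

theorem ind_symm86 (G : CG V) (a b : V) : ind86 (G.nb a) b = ind86 (G.nb b) a := by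
  by_cases h : b ∈ G.nb a
  · rw [ind_one86.2 h, ind_one86.2 (G.sym _ _ h)]
  · rw [ind_zero86.2 h, ind_zero86.2 (fun h1 => h (G.sym _ _ h1))]

omit [Fintype V] in
theorem nodup7_86 {a b c d e f g : V} (h : ({a, b, c, d, e, f, g} : Finset V).card = 7) :
    [a, b, c, d, e, f, g].Nodup := by
  have h1 : (([a, b, c, d, e, f, g] : List V) : Multiset V).toFinset =
      {a, b, c, d, e, f, g} := by
    ext x
    simp
  rw [← h1] at h
  exact Multiset.coe_nodup.1 (Multiset.toFinset_card_eq_card_iff_nodup.1 h)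

omit [Fintype V] in
theorem card7_86 {S T : Finset V} {a b c d e f g : V} (hT : T = {a, b, c, d, e, f, g})
    (h : T.card = 7) : (S ∩ T).card = ind86 S a + ind86 S b + ind86 S c + ind86 S d +
      ind86 S e + ind86 S f + ind86 S g := by
  subst hT
  have hn := nodup7_86 h
  have h1 : S ∩ {a, b, c, d, e, f, g} =
      ({a, b, c, d, e, f, g} : Finset V).filter (fun u => u ∈ S) := by
    ext x
    simp only [mem_inter, mem_filter]
    tauto
  rw [h1, card_filter]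
  simp only [List.nodup_cons, List.mem_cons, List.not_mem_nil, not_or, or_false] at hn
  obtain ⟨⟨n1, n2, n3, n4, n5, n6⟩, ⟨n7, n8, n9, n10, n11⟩, ⟨n12, n13, n14, n15⟩,
    ⟨n16, n17, n18⟩, ⟨n19, n20⟩, n21, -⟩ := hn
  rw [sum_insert, sum_insert, sum_insert, sum_insert, sum_insert, sum_insert, sum_singleton]
  · simp only [ind86]
    omega
  · simp only [mem_singleton]; exact n21
  · simp only [mem_insert, mem_singleton, not_or]; exact ⟨n19, n20⟩
  · simp only [mem_insert, mem_singleton, not_or]; exact ⟨n16, n17, n18⟩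
  · simp only [mem_insert, mem_singleton, not_or]; exact ⟨n12, n13, n14, n15⟩
  · simp only [mem_insert, mem_singleton, not_or]; exact ⟨n7, n8, n9, n10, n11⟩
  · simp only [mem_insert, mem_singleton, not_or]; exact ⟨n1, n2, n3, n4, n5, n6⟩

/-- a low neighbour with three common neighbours besides the partner -/
theorem tight86 (hG : G.Gen5 Fa) (hn : Fa = ∅ → 13 ≤ Fintype.card V) {q p l : V}
    (hq : q ∈ R Fa) (ht : G.Tw q p) (hI : G.I Fa q = ∅) (hl : l ∈ G.nb q) (hlow : G.Low l)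
    (h4 : (G.nb l ∩ G.nb q).card = 4) : (G.I Fa l).card = 1 ∧ (G.nR Fa l).card = 5 ∧
      G.nR Fa l ⊆ G.cl q := by
  have hlR := R0_86 hq hI hl
  have hpI := q_I76 (qs16 G) hG.reg hq ht
  have h6 : (G.nb l).card = 6 := hlow
  have hne : G.I Fa l ≠ ∅ := by
    intro hIl
    have n12 : 12 ≤ Fintype.card V := by
      have := nge86 hG hn (Z := {l, q, p}) (by
        intro z hz
        rw [mem_insert, mem_insert, mem_singleton] at hz
        rcases hz with rfl | rfl | rfl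
        exacts [⟨hlR, hIl⟩, ⟨hq, hI⟩, ⟨hpI.1, hpI.2.trans hI⟩]) (by
          have : ({l, q, p} : Finset V).card ≤ 3 := card_le_three
          omega)
      rw [card_insert_of_notMem, card_insert_of_notMem, card_singleton] at this
      · omega
      · simpa using ne_of_nb5 ht.1
      · simp only [mem_insert, mem_singleton, not_or]
        exact ⟨(low_ne86 ht hlow).2, (low_ne86 ht hlow).1⟩
    have := lq_D0_86 hG n12 hlow ht (G.sym _ _ hl) ⟨hlR, hIl⟩ ⟨hq, hI⟩
      ⟨hpI.1, hpI.2.trans hI⟩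
    omega
  have h1 := splitM86 hG.reg hlR
  have h2 : (G.I Fa l).card ≤ ∑ B ∈ G.I Fa l, G.d l B := by
    rw [card_eq_sum_ones]
    exact sum_le_sum fun B hB => d_pos76 (mem_I76.1 hB).2
  have h3 : 1 ≤ (G.I Fa l).card := card_pos.2 (nonempty_iff_ne_empty.2 hne)
  have h5 : insert q (G.nb l ∩ G.nb q) ⊆ G.nR Fa l := by
    intro x hx
    rw [mem_insert, mem_inter] at hx
    rw [mem_nR76]
    rcases hx with rfl | ⟨hx, hx'⟩
    · exact ⟨G.sym _ _ hl, hq⟩
    · exact ⟨hx, R0_86 hq hI hx'⟩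
  have h7 := card_le_card h5
  have h8 : q ∉ G.nb l ∩ G.nb q := fun h => G.irr _ (mem_inter.1 h).2
  rw [card_insert_of_notMem h8] at h7
  refine ⟨by omega, by omega, ?_⟩
  have h9 : insert q (G.nb l ∩ G.nb q) = G.nR Fa l :=
    eq_of_subset_of_card_le h5 (by rw [card_insert_of_notMem h8]; omega)
  rw [← h9]
  intro x hx
  rw [mem_insert, mem_inter] at hx
  rw [mem_clT76]
  exact hx.imp id fun h => h.2

/-- a pair of twins that sees five vertices (the partner is counted) -/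
theorem one_tw86 (hG : G.Gen5 Fa) {e f : V} (he : e ∈ R Fa) (ht : G.Tw e f)
    (hI : G.I Fa e ≠ ∅) {S : Finset V} (hS : S ⊆ G.nR Fa e) (h5 : 5 ≤ S.card) :
    (G.I Fa e).card = 1 ∧ G.nR Fa e = S := by
  have h1 := splitM86 hG.reg he
  have h2 : 2 * (G.I Fa e).card ≤ ∑ B ∈ G.I Fa e, G.d e B := by
    rw [card_eq_sum_ones, mul_sum]
    refine sum_le_sum fun B hB => ?_
    have := (stTwHL_5 G).hid Fa hG.reg hG.big e he ⟨f, ht⟩ B hB
    omega
  have h3 : 1 ≤ (G.I Fa e).card := card_pos.2 (nonempty_iff_ne_empty.2 hI)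
  have h4 := ht.2.1
  have h6 := card_le_card hS
  refine ⟨by omega, (eq_of_subset_of_card_le hS (by omega)).symm⟩

/-- two adjacent pairs with two common neighbours besides the partners are not both in no
neighbourhood -/
theorem d0_tw86 (hG : G.Gen5 Fa) (hn : Fa = ∅ → 13 ≤ Fintype.card V) {q p e f : V}
    (hq : q ∈ R Fa) (ht : G.Tw q p) (hI : G.I Fa q = ∅) (he : e ∈ G.nb q) (hep : e ≠ p)
    (ht' : G.Tw e f) (h4 : 4 ≤ (G.nb q ∩ G.nb e).card) : G.I Fa e ≠ ∅ := by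
  intro hIe
  have heR := R0_86 hq hI he
  have hpI := q_I76 (qs16 G) hG.reg hq ht
  have hfI := q_I76 (qs16 G) hG.reg heR ht'
  obtain ⟨a1, a2, a3, a4, a5⟩ := tw_adjM86 hG.n9 ht ht' he hep
  have n13 : 13 ≤ Fintype.card V := by
    have := nge86 hG hn (Z := {q, p, e, f}) (by
      intro z hz
      rw [mem_insert, mem_insert, mem_insert, mem_singleton] at hz
      rcases hz with rfl | rfl | rfl | rfl
      exacts [⟨hq, hI⟩, ⟨hpI.1, hpI.2.trans hI⟩, ⟨heR, hIe⟩, ⟨hfI.1, hfI.2.trans hIe⟩])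
      card_le_four
    rw [card_insert_of_notMem, card_insert_of_notMem, card_insert_of_notMem,
      card_singleton] at this
    · omega
    · simpa using ne_of_nb5 ht'.1
    · simp only [mem_insert, mem_singleton, not_or]
      exact ⟨hep.symm, a5.symm⟩
    · simp only [mem_insert, mem_singleton, not_or]
      exact ⟨ne_of_nb5 ht.1, ne_of_nb5 he, a4.symm⟩
  have := qq_D0_86 hG n13 ht ht' he hep ⟨hq, hI⟩ ⟨hpI.1, hpI.2.trans hI⟩ ⟨heR, hIe⟩
    ⟨hfI.1, hfI.2.trans hIe⟩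
  omega

/-- a pair of twins that covers a hub of the pair `q` -/
theorem cov1_86 (hG : G.Gen5 Fa) (hn : Fa = ∅ → 13 ≤ Fintype.card V) {q p e f x : V}
    (hq : q ∈ R Fa) (ht : G.Tw q p) (hI : G.I Fa q = ∅) (ht' : G.Tw e f) (he : e ∈ G.nb q)
    (hep : e ≠ p) (hx : G.Hub x) (hxq : x ∈ G.nb q) (hxe : x ∈ G.nb e) :
    (G.I Fa e).card = 1 := by
  have heR := R0_86 hq hI he
  obtain ⟨a1, a2, a3, a4, a5⟩ := tw_adjM86 hG.n9 ht ht' he hep
  have hfq : f ∈ G.nb q := a1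
  rcases nk_or86 hG.n9 ht with ⟨S, hS, hqS⟩ | hk
  · exfalso
    obtain ⟨l, hl, l', hl', -, -, -, h1, h2, -, h3⟩ := k6_low86 hG hS hqS
    rw [h3, mem_insert, mem_insert] at hxq
    rcases hxq with h4 | h4 | h4
    · subst h4; exact hx.1 h1
    · subst h4; exact hx.1 h2
    · exact hx.2 (hS.2.1 x (mem_erase.1 h4).2)
  obtain ⟨l, hl, hlow, hel⟩ := tw_lowM86 hG hq ht hI hk he hep ht'
  have hxl : x ≠ l := by
    rintro rfl
    exact hx.1 hlow
  have hxp : x ≠ p := by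
    rintro rfl
    exact hx.2 ⟨q, symm_5 ht⟩
  have hxf : x ≠ f := by
    rintro rfl
    exact hx.2 ⟨e, symm_5 ht'⟩
  have h1 : ({p, f, l, x} : Finset V) ⊆ G.nb q ∩ G.nb e := by
    intro y hy
    rw [mem_insert, mem_insert, mem_insert, mem_singleton] at hy
    rw [mem_inter]
    rcases hy with rfl | rfl | rfl | rfl
    · exact ⟨ht.1, G.sym _ _ a2⟩
    · exact ⟨hfq, ht'.1⟩
    · exact ⟨hl, G.sym _ _ hel⟩
    · exact ⟨hxq, hxe⟩
  have h2 : ({p, f, l, x} : Finset V).card = 4 := by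
    rw [card_insert_of_notMem, card_insert_of_notMem, card_insert_of_notMem, card_singleton]
    · simpa using hxl.symm
    · simp only [mem_insert, mem_singleton, not_or]
      exact ⟨(low_ne86 ht' hlow).1.symm, hxf.symm⟩
    · simp only [mem_insert, mem_singleton, not_or]
      exact ⟨a5.symm, (low_ne86 ht hlow).1.symm, hxp.symm⟩
  have h3 := card_le_card h1
  have h4 := d0_tw86 hG hn hq ht hI he hep ht' (by omega)
  have h5 : insert q ({p, f, l, x} : Finset V) ⊆ G.nR Fa e := by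
    intro y hy
    rw [mem_nR76]
    rcases mem_insert.1 hy with rfl | hy
    · exact ⟨G.sym _ _ he, hq⟩
    · have := mem_inter.1 (h1 hy)
      exact ⟨this.2, R0_86 hq hI this.1⟩
  refine (one_tw86 hG heR ht' h4 h5 ?_).1
  rw [card_insert_of_notMem, h2]
  intro h
  exact G.irr _ (mem_inter.1 (h1 h)).1

/-- two lows and four hubs -/
theorem t204_86 (hG : G.Gen5 Fa) {q p l l' x y z w : V} (hq : q ∈ R Fa) (ht : G.Tw q p)
    (hI : G.I Fa q = ∅) (hnb : G.nb q = {p, l, l', x, y, z, w}) (hl : G.Low l) (hl' : G.Low l')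
    (hx : G.Hub x) (hy : G.Hub y) (hz : G.Hub z) (hw : G.Hub w) :
    (G.nb l ∩ G.nb q).card = 4 ∧ (G.nb l' ∩ G.nb q).card = 4 ∧
      ∀ u ∈ ({x, y, z, w} : Finset V), u ∈ G.nb l ∨ u ∈ G.nb l' := by
  have m1 : p ∈ G.nb q := by rw [hnb]; simp
  have m2 : l ∈ G.nb q := by rw [hnb]; simp
  have m3 : l' ∈ G.nb q := by rw [hnb]; simp
  have hp : G.IsTw p := ⟨q, symm_5 ht⟩
  have hlow : ∀ u ∈ G.nb q, G.Low u → u = l ∨ u = l' := by
    intro u hu h1
    rw [hnb] at hu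
    simp only [mem_insert, mem_singleton] at hu
    rcases hu with rfl | rfl | rfl | rfl | rfl | rfl | rfl
    · exact absurd rfl (low_ne86 ht h1).1
    · exact Or.inl rfl
    · exact Or.inr rfl
    exacts [absurd h1 hx.1, absurd h1 hy.1, absurd h1 hz.1, absurd h1 hw.1]
  have htw : ∀ u ∈ G.nb q, G.IsTw u → u = p := by
    intro u hu h1
    rw [hnb] at hu
    simp only [mem_insert, mem_singleton] at hu
    rcases hu with rfl | rfl | rfl | rfl | rfl | rfl | rfl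
    · rfl
    · exact absurd hl (fun h => by obtain ⟨t, h2⟩ := h1; exact (low_ne86 h2 h).2 rfl)
    · exact absurd hl' (fun h => by obtain ⟨t, h2⟩ := h1; exact (low_ne86 h2 h).2 rfl)
    exacts [absurd h1 hx.2, absurd h1 hy.2, absurd h1 hz.2, absurd h1 hw.2]
  have hcov : ∀ u ∈ G.nb q, (u ∈ G.nb l ∨ u ∈ G.nb l') ∨
      ∃ a ∈ G.nb q, ∃ b ∈ G.nb q, G.Low u ∧ G.Low b ∧ G.HL a b u := by
    intro u hu
    rcases cov0_86 hG hq ht hI hu with h | h | h
    · obtain ⟨s, h1, h2, h3⟩ := h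
      rcases hlow s h1 h2 with rfl | rfl
      · exact Or.inl (Or.inl h3)
      · exact Or.inl (Or.inr h3)
    · obtain ⟨s, h1, s', -, h2, -, h3, -, -⟩ := h
      exact absurd (htw s h1 ⟨s', h3⟩) h2
    · exact Or.inr h
  have hhub : ∀ u ∈ ({x, y, z, w} : Finset V), u ∈ G.nb l ∨ u ∈ G.nb l' := by
    intro u hu
    have h1 : u ∈ G.nb q := by
      rw [hnb]
      simp only [mem_insert, mem_singleton] at hu ⊢
      exact Or.inr (Or.inr (Or.inr hu))
    have h2 : ¬ G.Low u := by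
      simp only [mem_insert, mem_singleton] at hu
      rcases hu with rfl | rfl | rfl | rfl
      exacts [hx.1, hy.1, hz.1, hw.1]
    rcases hcov u h1 with h | ⟨a, -, b, -, h, -⟩
    · exact h
    · exact absurd h h2
  have c1 := lq_le86 hG.n9 hl ht (G.sym _ _ m2)
  have c2 := lq_le86 hG.n9 hl' ht (G.sym _ _ m3)
  have e1 := card7_86 (S := G.nb l) hnb ht.2.1
  have e2 := card7_86 (S := G.nb l') hnb ht.2.1
  have i1 : ind86 (G.nb l) p = 1 :=
    ind_one86.2 (G.sym _ _ (Tw_nb5 ht m2 (low_ne86 ht hl).1))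
  have i2 : ind86 (G.nb l') p = 1 :=
    ind_one86.2 (G.sym _ _ (Tw_nb5 ht m3 (low_ne86 ht hl').1))
  have i3 := ind_symm86 G l l'
  have k : ∀ u ∈ ({x, y, z, w} : Finset V), 1 ≤ ind86 (G.nb l) u + ind86 (G.nb l') u := by
    intro u hu
    rcases hhub u hu with h | h
    · rw [ind_one86.2 h]; omega
    · rw [ind_one86.2 h]; omega
  have kx := k x (by simp)
  have ky := k y (by simp)
  have kz := k z (by simp)
  have kw := k w (by simp)
  refine ⟨?_, ?_, hhub⟩ <;>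
  · by_cases hll : l' ∈ G.nb l
    · have j1 := ind_one86.2 hll
      omega
    · have j0 := ind_zero86.2 hll
      have hll' : l ∉ G.nb l' := fun h => hll (G.sym _ _ h)
      obtain ⟨a, ha, b, hb, -, hbl, hh⟩ := (hcov l m2).resolve_left
        (fun h => h.elim (fun h => G.irr _ h) hll')
      obtain ⟨a', ha', b', hb', -, hbl', hh'⟩ := (hcov l' m3).resolve_left
        (fun h => h.elim hll (fun h => G.irr _ h))
      have hb1 : b = l' := (hlow b hb hbl).resolve_left (HL_bt76 hh).2.symm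
      have hb2 : b' = l := (hlow b' hb' hbl').resolve_right (HL_bt76 hh').2.symm
      subst hb1 hb2
      have hne : a ≠ a' := by
        rintro rfl
        exact (stTwHL_5 G).nomut hG.n9 _ _ _ _ _ hh hh' rfl
      have g1 := ind_one86.2 (G.sym _ _ (HL_t76 hh))
      have g2 := ind_one86.2 (G.sym _ _ (HL_b76 hh))
      have g3 := ind_one86.2 (G.sym _ _ (HL_t76 hh'))
      have g4 := ind_one86.2 (G.sym _ _ (HL_b76 hh'))
      have hA : ∀ {a b t : V}, G.HL a b t → a ∈ G.nb q → a = x ∨ a = y ∨ a = z ∨ a = w := by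
        intro a b t h1 h2
        rw [hnb] at h2
        simp only [mem_insert, mem_singleton] at h2
        rcases h2 with rfl | rfl | rfl | h2
        · exact absurd hp ((stTwHL_5 G).notHL hG.n9 _ _ _ h1)
        · exact absurd hl (HL_not_low76 h1)
        · exact absurd hl' (HL_not_low76 h1)
        · exact h2
      rcases hA hh ha with rfl | rfl | rfl | rfl <;>
        rcases hA hh' ha' with rfl | rfl | rfl | rfl <;>
        first
          | exact absurd rfl hne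
          | omega

/-- two lows, a pair of twins and two hubs, `e` adjacent to `l` -/
theorem t212a86 (hG : G.Gen5 Fa) (hn : Fa = ∅ → 13 ≤ Fintype.card V) {q p l l' e f x y : V}
    (hq : q ∈ R Fa) (ht : G.Tw q p) (hI : G.I Fa q = ∅) (hnb : G.nb q = {p, l, l', e, f, x, y})
    (hl : G.Low l) (hl' : G.Low l') (ht' : G.Tw e f) (hx : G.Hub x) (hy : G.Hub y)
    (hel : e ∈ G.nb l) :
    ((G.nb l ∩ G.nb q).card = 4 ∧ (G.nb l' ∩ G.nb q).card = 4) ∨
    (∃ y1 y2, ((y1 = x ∧ y2 = y) ∨ (y1 = y ∧ y2 = x)) ∧ (G.I Fa e).card = 1 ∧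
      G.nR Fa e = {f, q, p, l, y1} ∧
      ((G.nR Fa l = {q, p, e, f, l'} ∧ l ∈ G.nb l' ∧ y2 ∈ G.nb l' ∧ y1 ∉ G.nb l') ∨
        (G.nR Fa l = {q, p, e, f, y1} ∧ G.HL y1 l l' ∧ y1 ∈ G.nb l' ∧ y2 ∈ G.nb l' ∧
          l ∉ G.nb l')) ∧ e ∉ G.nb l') := by
  have hnd := nodup7_86 (a := p) (b := l) (c := l') (d := e) (e := f) (f := x) (g := y)
    (by rw [← hnb]; exact ht.2.1)
  simp only [List.nodup_cons, List.mem_cons, List.not_mem_nil, not_or, or_false] at hnd
  obtain ⟨⟨n1, n2, n3, n4, n5, n6⟩, ⟨n7, n8, n9, n10, n11⟩, ⟨n12, n13, n14, n15⟩,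
    ⟨n16, n17, n18⟩, ⟨n19, n20⟩, n21, -⟩ := hnd
  have m1 : p ∈ G.nb q := by rw [hnb]; simp
  have m2 : l ∈ G.nb q := by rw [hnb]; simp
  have m3 : l' ∈ G.nb q := by rw [hnb]; simp
  have m4 : e ∈ G.nb q := by rw [hnb]; simp
  have m5 : f ∈ G.nb q := by rw [hnb]; simp
  have m6 : x ∈ G.nb q := by rw [hnb]; simp
  have m7 : y ∈ G.nb q := by rw [hnb]; simp
  have hp : G.IsTw p := ⟨q, symm_5 ht⟩
  have heT : G.IsTw e := ⟨f, ht'⟩
  have hfT : G.IsTw f := ⟨e, symm_5 ht'⟩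
  have hlow : ∀ u ∈ G.nb q, G.Low u → u = l ∨ u = l' := by
    intro u hu h1
    rw [hnb] at hu
    simp only [mem_insert, mem_singleton] at hu
    rcases hu with rfl | rfl | rfl | rfl | rfl | rfl | rfl
    · exact absurd rfl (low_ne86 ht h1).1
    · exact Or.inl rfl
    · exact Or.inr rfl
    · exact absurd rfl (low_ne86 ht' h1).2
    · exact absurd rfl (low_ne86 ht' h1).1
    exacts [absurd h1 hx.1, absurd h1 hy.1]
  have hcov : ∀ u ∈ G.nb q, (u ∈ G.nb l ∨ u ∈ G.nb l' ∨ (u ∈ G.nb e ∧ u ∈ G.nb f)) ∨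
      ∃ a ∈ G.nb q, ∃ b ∈ G.nb q, G.Low u ∧ G.Low b ∧ G.HL a b u := by
    intro u hu
    rcases cov0_86 hG hq ht hI hu with h | h | h
    · obtain ⟨s, h1, h2, h3⟩ := h
      rcases hlow s h1 h2 with rfl | rfl
      · exact Or.inl (Or.inl h3)
      · exact Or.inl (Or.inr (Or.inl h3))
    · obtain ⟨s, h1, s', h1', h2, h2', h3, h4, h5⟩ := h
      have h6 : s = e ∨ s = f := by
        rw [hnb] at h1
        simp only [mem_insert, mem_singleton] at h1
        rcases h1 with rfl | rfl | rfl | h1 | h1 | rfl | rfl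
        · exact absurd rfl h2
        · exact absurd rfl (low_ne86 h3 hl).2
        · exact absurd rfl (low_ne86 h3 hl').2
        · exact Or.inl h1
        · exact Or.inr h1
        · exact absurd ⟨s', h3⟩ hx.2
        · exact absurd ⟨s', h3⟩ hy.2
      rcases h6 with rfl | rfl
      · have := uniq_5 hG.n9 h3 ht'
        subst this
        exact Or.inl (Or.inr (Or.inr ⟨h4, h5⟩))
      · have := uniq_5 hG.n9 h3 (symm_5 ht')
        subst this
        exact Or.inl (Or.inr (Or.inr ⟨h5, h4⟩))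
    · exact Or.inr h
  have hhub : ∀ u, G.Hub u → u ∈ G.nb q → 1 ≤ ind86 (G.nb l) u + ind86 (G.nb l') u +
      ind86 (G.nb e) u := by
    intro u hu h1
    rcases hcov u h1 with (h | h | h) | ⟨a, -, b, -, h, -⟩
    · rw [ind_one86.2 h]; omega
    · rw [ind_one86.2 h]; omega
    · rw [ind_one86.2 h.1]; omega
    · exact absurd h hu.1
  have n10c : 10 ≤ Fintype.card V := by
    have := nge86 hG hn (Z := {q}) (by
      intro z hz
      rw [mem_singleton] at hz
      subst hz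
      exact ⟨hq, hI⟩) (by simp)
    rw [card_singleton] at this
    omega
  have c1 := lq_le86 hG.n9 hl ht (G.sym _ _ m2)
  have c2 := lq_le86 hG.n9 hl' ht (G.sym _ _ m3)
  have c3 : (G.nb e ∩ G.nb q).card ≤ 4 := by
    rw [inter_comm]
    exact qq_le86 n10c ht ht' m4 (Ne.symm n3)
  have e1 := card7_86 (S := G.nb l) hnb ht.2.1
  have e2 := card7_86 (S := G.nb l') hnb ht.2.1
  have e3 := card7_86 (S := G.nb e) hnb ht.2.1
  obtain ⟨a1, a2, a3, a4, a5⟩ := tw_adjM86 hG.n9 ht ht' m4 (Ne.symm n3)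
  have i1 : ind86 (G.nb l) p = 1 :=
    ind_one86.2 (G.sym _ _ (Tw_nb5 ht m2 (low_ne86 ht hl).1))
  have i2 : ind86 (G.nb l') p = 1 :=
    ind_one86.2 (G.sym _ _ (Tw_nb5 ht m3 (low_ne86 ht hl').1))
  have i3 : ind86 (G.nb e) p = 1 := ind_one86.2 (G.sym _ _ a2)
  have i4 : ind86 (G.nb e) f = 1 := ind_one86.2 ht'.1
  have i5 : ind86 (G.nb e) e = 0 := ind_zero86.2 (G.irr e)
  have i6 : ind86 (G.nb l) l = 0 := ind_zero86.2 (G.irr l)
  have i7 : ind86 (G.nb l') l' = 0 := ind_zero86.2 (G.irr l')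
  have s1 := ind_symm86 G l l'
  have s2 := ind_symm86 G l e
  have s3 := ind_symm86 G l' e
  have t1 : ind86 (G.nb l) f = 1 :=
    ind_one86.2 (G.sym _ _ (Tw_nb5 ht' (G.sym _ _ hel) (low_ne86 ht' hl).1))
  have t2 : ind86 (G.nb l) e = 1 := ind_one86.2 hel
  have t3 : ind86 (G.nb l') e = ind86 (G.nb l') f := by
    by_cases h : e ∈ G.nb l'
    · rw [ind_one86.2 h, ind_one86.2 (G.sym _ _ (Tw_nb5 ht' (G.sym _ _ h)
        (low_ne86 ht' hl').1))]
    · rw [ind_zero86.2 h, ind_zero86.2 (fun h1 => h (G.sym _ _ (Tw_nb5 (symm_5 ht')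
        (G.sym _ _ h1) (low_ne86 ht' hl').2)))]
  have kx := hhub x hx m6
  have ky := hhub y hy m7
  have b1 := ind_le86 (G.nb l) x
  have b2 := ind_le86 (G.nb l) y
  have b3 := ind_le86 (G.nb l) l'
  have b4 := ind_le86 (G.nb l') x
  have b5 := ind_le86 (G.nb l') y
  have b6 := ind_le86 (G.nb l') e
  have b7 := ind_le86 (G.nb e) x
  have b8 := ind_le86 (G.nb e) y
  -- the neighbours of `e` and `l`
  have hnRe : ∀ y1, G.Hub y1 → y1 ∈ G.nb q → y1 ∈ G.nb e →
      (G.I Fa e).card = 1 ∧ G.nR Fa e = {f, q, p, l, y1} := by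
    intro y1 h1 h2 h3
    have h5 : ({f, q, p, l, y1} : Finset V) ⊆ G.nR Fa e := by
      intro u hu
      simp only [mem_insert, mem_singleton] at hu
      rw [mem_nR76]
      rcases hu with rfl | rfl | rfl | rfl | rfl
      · exact ⟨ht'.1, R0_86 hq hI m5⟩
      · exact ⟨G.sym _ _ m4, hq⟩
      · exact ⟨G.sym _ _ a2, R0_86 hq hI m1⟩
      · exact ⟨G.sym _ _ hel, R0_86 hq hI m2⟩
      · exact ⟨h3, R0_86 hq hI h2⟩
    have h6 : ({f, q, p, l, y1} : Finset V).card = 5 := by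
      have g1 : f ≠ y1 := by
        rintro rfl
        exact h1.2 hfT
      have g2 : p ≠ y1 := by
        rintro rfl
        exact h1.2 hp
      have g3 : l ≠ y1 := by
        rintro rfl
        exact h1.1 hl
      rw [card_insert_of_notMem, card_insert_of_notMem, card_insert_of_notMem,
        card_insert_of_notMem, card_singleton]
      · simpa using g3
      · simp only [mem_insert, mem_singleton, not_or]
        exact ⟨n1, g2⟩
      · simp only [mem_insert, mem_singleton, not_or]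
        exact ⟨ne_of_nb5 m1, ne_of_nb5 m2, ne_of_nb5 h2⟩
      · simp only [mem_insert, mem_singleton, not_or]
        exact ⟨(ne_of_nb5 m5).symm, Ne.symm n4, Ne.symm n9, g1⟩
    have h7 : 4 ≤ (G.nb q ∩ G.nb e).card := by
      have h8 : ({f, p, l, y1} : Finset V) ⊆ G.nb q ∩ G.nb e := by
        intro u hu
        simp only [mem_insert, mem_singleton] at hu
        rw [mem_inter]
        rcases hu with rfl | rfl | rfl | rfl
        · exact ⟨m5, ht'.1⟩
        · exact ⟨m1, G.sym _ _ a2⟩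
        · exact ⟨m2, G.sym _ _ hel⟩
        · exact ⟨h2, h3⟩
      have h9 : ({f, q, p, l, y1} : Finset V) ⊆ insert q ({f, p, l, y1} : Finset V) := by
        intro u hu
        simp only [mem_insert, mem_singleton] at hu ⊢
        rcases hu with h | h | h | h | h
        exacts [Or.inr (Or.inl h), Or.inl h, Or.inr (Or.inr (Or.inl h)),
          Or.inr (Or.inr (Or.inr (Or.inl h))), Or.inr (Or.inr (Or.inr (Or.inr h)))]
      have h10 := card_le_card h8
      have h11 := card_le_card h9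
      have h12 := card_insert_le q ({f, p, l, y1} : Finset V)
      omega
    exact one_tw86 hG (R0_86 hq hI m4) ht' (d0_tw86 hG hn hq ht hI m4 (Ne.symm n3) ht' h7) h5
      (by omega)
  have hnRl : ∀ u, u ∈ G.nb l → u ∈ G.nb q → u ≠ p → u ≠ e → u ≠ f →
      (G.nb l ∩ G.nb q).card = 4 → G.nR Fa l = {q, p, e, f, u} := by
    intro u h1 h2 g1 g2 g3 h4
    obtain ⟨-, h5, -⟩ := tight86 hG hn hq ht hI m2 hl h4
    symm
    apply eq_of_subset_of_card_le
    · intro w hw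
      simp only [mem_insert, mem_singleton] at hw
      rw [mem_nR76]
      rcases hw with rfl | rfl | rfl | rfl | rfl
      · exact ⟨G.sym _ _ m2, hq⟩
      · exact ⟨ind_one86.1 i1, R0_86 hq hI m1⟩
      · exact ⟨hel, R0_86 hq hI m4⟩
      · exact ⟨ind_one86.1 t1, R0_86 hq hI m5⟩
      · exact ⟨h1, R0_86 hq hI h2⟩
    · rw [h5, card_insert_of_notMem, card_insert_of_notMem, card_insert_of_notMem,
        card_insert_of_notMem, card_singleton]
      · simpa using g3.symm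
      · simp only [mem_insert, mem_singleton, not_or]
        exact ⟨n16, g2.symm⟩
      · simp only [mem_insert, mem_singleton, not_or]
        exact ⟨n3, n4, g1.symm⟩
      · simp only [mem_insert, mem_singleton, not_or]
        exact ⟨ne_of_nb5 m1, ne_of_nb5 m4, ne_of_nb5 m5, ne_of_nb5 h2⟩
  by_cases hel' : e ∈ G.nb l'
  · have j1 := ind_one86.2 hel'
    left
    constructor <;> omega
  have j0 := ind_zero86.2 hel'
  by_cases hll : l' ∈ G.nb l
  · have j1 := ind_one86.2 hll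
    by_cases hA : (G.nb l' ∩ G.nb q).card = 4
    · left
      exact ⟨by omega, hA⟩
    right
    have hl4 : (G.nb l ∩ G.nb q).card = 4 := by omega
    have hR := hnRl l' hll m3 (Ne.symm n2) n12 n13 hl4
    have hll' : l ∈ G.nb l' := G.sym _ _ hll
    by_cases hxe : x ∈ G.nb e
    · have k1 := ind_one86.2 hxe
      have k2 : y ∈ G.nb l' := ind_one86.1 (by omega)
      have k3 := ind_one86.2 k2
      have k4 : x ∉ G.nb l' := ind_zero86.1 (by omega)
      obtain ⟨r1, r2⟩ := hnRe x hx m6 hxe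
      exact ⟨x, y, Or.inl ⟨rfl, rfl⟩, r1, r2, Or.inl ⟨hR, hll', k2, k4⟩, hel'⟩
    · have k1 := ind_zero86.2 hxe
      have k2 : x ∈ G.nb l' := ind_one86.1 (by omega)
      have k3 := ind_one86.2 k2
      have k4 : y ∉ G.nb l' := ind_zero86.1 (by omega)
      have k5 := ind_zero86.2 k4
      have k6 : y ∈ G.nb e := ind_one86.1 (by omega)
      obtain ⟨r1, r2⟩ := hnRe y hy m7 k6
      exact ⟨y, x, Or.inr ⟨rfl, rfl⟩, r1, r2, Or.inl ⟨hR, hll', k2, k4⟩, hel'⟩
  · have j1 := ind_zero86.2 hll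
    have hll' : l ∉ G.nb l' := fun h => hll (G.sym _ _ h)
    have j2 := ind_zero86.2 hll'
    obtain ⟨a, ha, b, hb, -, hbl, hh⟩ := (hcov l' m3).resolve_left (by
      rintro (h | h | h)
      · exact hll h
      · exact G.irr _ h
      · exact hel' (G.sym _ _ h.1))
    have hb2 : b = l := (hlow b hb hbl).resolve_right (HL_bt76 hh).2.symm
    subst hb2
    have g3 := ind_one86.2 (G.sym _ _ (HL_t76 hh))
    have g4 := ind_one86.2 (G.sym _ _ (HL_b76 hh))
    have ha2 : a = x ∨ a = y := by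
      rw [hnb] at ha
      simp only [mem_insert, mem_singleton] at ha
      rcases ha with rfl | rfl | rfl | rfl | rfl | h
      · exact absurd hp ((stTwHL_5 G).notHL hG.n9 _ _ _ hh)
      · exact absurd hl (HL_not_low76 hh)
      · exact absurd hl' (HL_not_low76 hh)
      · exact absurd heT ((stTwHL_5 G).notHL hG.n9 _ _ _ hh)
      · exact absurd hfT ((stTwHL_5 G).notHL hG.n9 _ _ _ hh)
      · exact h
    have hae : e ∈ G.nb a := HL_sub76 hh hel (by
      rintro rfl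
      rcases ha2 with h | h
      · exact n17 h
      · exact n18 h)
    have g5 := ind_one86.2 (G.sym _ _ hae)
    rcases ha2 with rfl | rfl
    · right
      have k2 : y ∈ G.nb l' := ind_one86.1 (by omega)
      obtain ⟨r1, r2⟩ := hnRe a hx m6 (G.sym _ _ hae)
      have hR := hnRl a (G.sym _ _ (HL_b76 hh)) m6 (Ne.symm n5) (Ne.symm n17) (Ne.symm n19)
        (by omega)
      exact ⟨a, y, Or.inl ⟨rfl, rfl⟩, r1, r2,
        Or.inr ⟨hR, hh, G.sym _ _ (HL_t76 hh), k2, hll'⟩, hel'⟩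
    · right
      have k2 : x ∈ G.nb l' := ind_one86.1 (by omega)
      obtain ⟨r1, r2⟩ := hnRe a hy m7 (G.sym _ _ hae)
      have hR := hnRl a (G.sym _ _ (HL_b76 hh)) m7 (Ne.symm n6) (Ne.symm n18) (Ne.symm n20)
        (by omega)
      exact ⟨a, x, Or.inr ⟨rfl, rfl⟩, r1, r2,
        Or.inr ⟨hR, hh, G.sym _ _ (HL_t76 hh), k2, hll'⟩, hel'⟩

omit [Fintype V] in
theorem perm212_86 {p l l' e f x y : V} :
    ({p, l, l', e, f, x, y} : Finset V) = {p, l', l, e, f, x, y} := by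
  ext u
  simp only [mem_insert, mem_singleton]
  constructor <;> rintro (h | h | h | h) <;> simp [h]

/-- two lows, a pair of twins and two hubs -/
theorem t212_86 (hG : G.Gen5 Fa) (hn : Fa = ∅ → 13 ≤ Fintype.card V) {q p l l' e f x y : V}
    (hq : q ∈ R Fa) (ht : G.Tw q p) (hI : G.I Fa q = ∅) (hnb : G.nb q = {p, l, l', e, f, x, y})
    (hl : G.Low l) (hl' : G.Low l') (ht' : G.Tw e f) (hx : G.Hub x) (hy : G.Hub y) :
    ((G.nb l ∩ G.nb q).card = 4 ∧ (G.nb l' ∩ G.nb q).card = 4 ∧ (e ∈ G.nb l ∨ e ∈ G.nb l')) ∨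
    (∃ l1 l2 y1 y2, ((l1 = l ∧ l2 = l') ∨ (l1 = l' ∧ l2 = l)) ∧
      ((y1 = x ∧ y2 = y) ∨ (y1 = y ∧ y2 = x)) ∧ (G.I Fa e).card = 1 ∧
      G.nR Fa e = {f, q, p, l1, y1} ∧
      ((G.nR Fa l1 = {q, p, e, f, l2} ∧ l1 ∈ G.nb l2 ∧ y2 ∈ G.nb l2 ∧ y1 ∉ G.nb l2) ∨
        (G.nR Fa l1 = {q, p, e, f, y1} ∧ G.HL y1 l1 l2 ∧ y1 ∈ G.nb l2 ∧ y2 ∈ G.nb l2 ∧
          l1 ∉ G.nb l2)) ∧ e ∉ G.nb l2) := by
  have heT : G.IsTw e := ⟨f, ht'⟩
  have m4 : e ∈ G.nb q := by rw [hnb]; simp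
  have hc : e ∈ G.nb l ∨ e ∈ G.nb l' := by
    rcases cov0_86 hG hq ht hI m4 with h | h | h
    · obtain ⟨s, h1, h2, h3⟩ := h
      rw [hnb] at h1
      simp only [mem_insert, mem_singleton] at h1
      rcases h1 with rfl | rfl | rfl | rfl | rfl | rfl | rfl
      · exact absurd rfl (low_ne86 ht h2).1
      · exact Or.inl h3
      · exact Or.inr h3
      · exact absurd rfl (low_ne86 ht' h2).2
      · exact absurd rfl (low_ne86 ht' h2).1
      · exact absurd h2 hx.1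
      · exact absurd h2 hy.1
    · obtain ⟨s, h1, s', h1', h2, h2', h3, h4, h5⟩ := h
      exfalso
      rw [hnb] at h1
      simp only [mem_insert, mem_singleton] at h1
      rcases h1 with h1 | h1 | h1 | h1 | h1 | h1 | h1
      · exact h2 h1
      · subst h1; exact (low_ne86 h3 hl).2 rfl
      · subst h1; exact (low_ne86 h3 hl').2 rfl
      · subst h1; exact G.irr _ h4
      · subst h1
        have := uniq_5 hG.n9 h3 (symm_5 ht')
        subst this
        exact G.irr _ h5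
      · subst h1; exact hx.2 ⟨s', h3⟩
      · subst h1; exact hy.2 ⟨s', h3⟩
    · obtain ⟨a, -, b, -, h1, -⟩ := h
      exact absurd rfl (low_ne86 ht' h1).2
  rcases hc with hel | hel
  · rcases t212a86 hG hn hq ht hI hnb hl hl' ht' hx hy hel with ⟨h1, h2⟩ | ⟨y1, y2, h1, h2⟩
    · exact Or.inl ⟨h1, h2, Or.inl hel⟩
    · exact Or.inr ⟨l, l', y1, y2, Or.inl ⟨rfl, rfl⟩, h1, h2⟩
  · rw [perm212_86] at hnb
    rcases t212a86 hG hn hq ht hI hnb hl' hl ht' hx hy hel with ⟨h1, h2⟩ | ⟨y1, y2, h1, h2⟩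
    · exact Or.inl ⟨h2, h1, Or.inr hel⟩
    · exact Or.inr ⟨l', l, y1, y2, Or.inr ⟨rfl, rfl⟩, h1, h2⟩

/-- the low vertices, the twin vertices and the hubs near `q` -/
theorem part86 (n9 : 9 ≤ Fintype.card V) {q p : V} (ht : G.Tw q p) :
    ∃ L T H : Finset V, (∀ u, u ∈ L ↔ u ∈ G.nb q ∧ G.Low u) ∧
      (∀ u, u ∈ T ↔ u ∈ G.nb q ∧ u ≠ p ∧ G.IsTw u) ∧ (∀ u, u ∈ H ↔ u ∈ G.nb q ∧ G.Hub u) ∧
      L.card + T.card + H.card = 6 ∧ G.nb q = insert p (L ∪ (T ∪ H)) ∧
      (∀ e ∈ T, ∀ f, G.Tw e f → f ∈ T ∧ f ≠ e) := by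
  classical
  have h1 : G.nb q = insert p ((G.nb q).filter (fun u => G.Low u) ∪
      ((G.nb q).filter (fun u => u ≠ p ∧ G.IsTw u) ∪ (G.nb q).filter (fun u => G.Hub u))) := by
    ext u
    simp only [mem_insert, mem_union, mem_filter]
    constructor
    · intro hu
      by_cases h1 : u = p
      · exact Or.inl h1
      by_cases h2 : G.Low u
      · exact Or.inr (Or.inl ⟨hu, h2⟩)
      by_cases h3 : G.IsTw u
      · exact Or.inr (Or.inr (Or.inl ⟨hu, h1, h3⟩))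
      · exact Or.inr (Or.inr (Or.inr ⟨hu, h2, h3⟩))
    · rintro (h | h | h | h)
      · rw [h]; exact ht.1
      · exact h.1
      · exact h.1
      · exact h.1
  have d1 : Disjoint ((G.nb q).filter (fun u => u ≠ p ∧ G.IsTw u))
      ((G.nb q).filter (fun u => G.Hub u)) := by
    rw [disjoint_left]
    intro u hu hu'
    exact (mem_filter.1 hu').2.2 (mem_filter.1 hu).2.2
  have d2 : Disjoint ((G.nb q).filter (fun u => G.Low u))
      ((G.nb q).filter (fun u => u ≠ p ∧ G.IsTw u) ∪ (G.nb q).filter (fun u => G.Hub u)) := by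
    rw [disjoint_left]
    intro u hu hu'
    rcases mem_union.1 hu' with h | h
    · obtain ⟨t, h2⟩ := (mem_filter.1 h).2.2
      exact (low_ne86 h2 (mem_filter.1 hu).2).2 rfl
    · exact (mem_filter.1 h).2.1 (mem_filter.1 hu).2
  have d3 : p ∉ (G.nb q).filter (fun u => G.Low u) ∪
      ((G.nb q).filter (fun u => u ≠ p ∧ G.IsTw u) ∪ (G.nb q).filter (fun u => G.Hub u)) := by
    intro h
    rcases mem_union.1 h with h | h
    · exact (low_ne86 ht (mem_filter.1 h).2).1 rfl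
    rcases mem_union.1 h with h | h
    · exact (mem_filter.1 h).2.1 rfl
    · exact (mem_filter.1 h).2.2 ⟨q, symm_5 ht⟩
  refine ⟨(G.nb q).filter (fun u => G.Low u), (G.nb q).filter (fun u => u ≠ p ∧ G.IsTw u),
    (G.nb q).filter (fun u => G.Hub u), fun u => mem_filter, fun u => mem_filter,
    fun u => mem_filter, ?_, h1, ?_⟩
  · have h2 := congrArg card h1
    rw [card_insert_of_notMem d3, card_union_of_disjoint d2, card_union_of_disjoint d1,
      ht.2.1] at h2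
    omega
  · intro e he f hf
    obtain ⟨h2, h3, h4⟩ := mem_filter.1 he
    obtain ⟨a1, a2, a3, a4, a5⟩ := tw_adjM86 n9 ht hf h2 h3
    exact ⟨mem_filter.2 ⟨a1, a5, ⟨e, symm_5 hf⟩⟩, (ne_of_nb5 hf.1).symm⟩

omit [Fintype V] in
theorem card4_86 {S : Finset V} (h : S.card = 4) : ∃ a b c d, S = {a, b, c, d} := by
  obtain ⟨a, T, h1, rfl, h2⟩ := card_eq_succ.1 h
  obtain ⟨b, c, d, -, -, -, rfl⟩ := card_eq_three.1 h2
  exact ⟨a, b, c, d, rfl⟩

/-- the poor pairs -/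
theorem poor86 (hG : G.Gen5 Fa) (hn : Fa = ∅ → 13 ≤ Fintype.card V) {q p : V}
    (hq : q ∈ R Fa) (ht : G.Tw q p) (hI : G.I Fa q = ∅)
    (hc : G.ch5 Fa q < 0 ∨ (G.tl Fa q = 3 ∧ G.tt Fa q = 0)) :
    (∃ l l' x y z w, G.nb q = {p, l, l', x, y, z, w} ∧ G.Low l ∧ G.Low l' ∧ G.Hub x ∧ G.Hub y ∧
      G.Hub z ∧ G.Hub w) ∨
    (∃ l l' e f x y, G.nb q = {p, l, l', e, f, x, y} ∧ G.Low l ∧ G.Low l' ∧ G.Tw e f ∧ G.Hub x ∧
      G.Hub y) ∨
    (∃ l l' l'' x y z, G.nb q = {p, l, l', l'', x, y, z} ∧ G.Low l ∧ G.Low l' ∧ G.Low l'' ∧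
      G.Hub x ∧ G.Hub y ∧ G.Hub z) := by
  classical
  obtain ⟨L, T, H, hL, hT, hH, h6, hnb, htw⟩ := part86 hG.n9 ht
  have h1 := (stCh5_28 G).tw0 hG.n9 Fa hG.reg q hq ⟨p, ht⟩ hI
  have h2 : G.tl Fa q = L.card := by
    rw [tl, nR0_86 hq hI]
    congr 1
    ext u
    rw [mem_filter, hL]
  have h3 : (G.NH Fa q).card ≤ H.card := by
    apply card_le_card
    intro u hu
    rw [NH, mem_filter, mem_nR76] at hu
    exact (hH u).2 ⟨hu.1.1, hu.2.1⟩
  obtain ⟨l0, g1, l1, g2, g3, g4, g5⟩ := low2_86 hG hn hq ht hI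
  have h4 : 2 ≤ L.card := two_le5 ((hL l0).2 ⟨g1, g4⟩) ((hL l1).2 ⟨g2, g5⟩) g3
  have hT1 : T.card ≠ 1 := by
    intro h
    obtain ⟨e, he⟩ := card_eq_one.1 h
    obtain ⟨f, hf⟩ := ((hT e).1 (by rw [he]; simp)).2.2
    obtain ⟨h5, h7⟩ := htw e (by rw [he]; simp) f hf
    rw [he, mem_singleton] at h5
    exact h7 h5
  have hT3 : T.card ≠ 3 := by
    intro h
    obtain ⟨e, he⟩ : T.Nonempty := card_pos.1 (by omega)
    obtain ⟨f, hf⟩ := ((hT e).1 he).2.2
    obtain ⟨h5, h7⟩ := htw e he f hf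
    have h8 : ((T.erase e).erase f).card = 1 := by
      rw [card_erase_of_mem (mem_erase.2 ⟨h7, h5⟩), card_erase_of_mem he]
      omega
    obtain ⟨g, hg⟩ := card_eq_one.1 h8
    have hg1 : g ∈ (T.erase e).erase f := by rw [hg]; simp
    obtain ⟨k1, k2⟩ := mem_erase.1 hg1
    obtain ⟨k3, k4⟩ := mem_erase.1 k2
    obtain ⟨k, hk⟩ := ((hT g).1 k4).2.2
    obtain ⟨k5, k6⟩ := htw g k4 k hk
    have k7 : k ∈ (T.erase e).erase f := by
      refine mem_erase.2 ⟨?_, mem_erase.2 ⟨?_, k5⟩⟩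
      · rintro rfl
        exact k3 (uniq_5 hG.n9 (symm_5 hk) (symm_5 hf))
      · rintro rfl
        exact k1 (uniq_5 hG.n9 (symm_5 hk) hf)
    rw [hg, mem_singleton] at k7
    exact k6 k7
  have htt : G.tt Fa q = T.card := by
    rw [tt, nR0_86 hq hI]
    congr 1
    ext u
    rw [mem_filter, hT]
    constructor
    · rintro ⟨g6, g7, g8⟩
      exact ⟨g6, fun g9 => g8 (by rw [g9]; exact ht), g7⟩
    · rintro ⟨g6, g7, g8⟩
      exact ⟨g6, g8, fun g9 => g7 (uniq_5 hG.n9 g9 ht)⟩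
  rw [h1, h2, htt] at hc
  have h7 : (L.card = 2 ∧ T.card = 0 ∧ H.card = 4) ∨ (L.card = 2 ∧ T.card = 2 ∧ H.card = 2) ∨
      (L.card = 3 ∧ T.card = 0 ∧ H.card = 3) := by
    omega
  rcases h7 with ⟨k1, k2, k3⟩ | ⟨k1, k2, k3⟩ | ⟨k1, k2, k3⟩
  · obtain ⟨l, l', -, hLe⟩ := card_eq_two.1 k1
    obtain ⟨x, y, z, w, hHe⟩ := card4_86 k3
    rw [card_eq_zero] at k2
    refine Or.inl ⟨l, l', x, y, z, w, ?_, ((hL l).1 (by rw [hLe]; simp)).2,
      ((hL l').1 (by rw [hLe]; simp)).2, ((hH x).1 (by rw [hHe]; simp)).2,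
      ((hH y).1 (by rw [hHe]; simp)).2, ((hH z).1 (by rw [hHe]; simp)).2,
      ((hH w).1 (by rw [hHe]; simp)).2⟩
    rw [hnb, hLe, hHe, k2]
    ext u
    simp only [mem_insert, mem_union, mem_singleton, notMem_empty, false_or, or_assoc]
  · obtain ⟨l, l', -, hLe⟩ := card_eq_two.1 k1
    obtain ⟨e, f, hef, hTe⟩ := card_eq_two.1 k2
    obtain ⟨x, y, -, hHe⟩ := card_eq_two.1 k3
    have heT : e ∈ T := by rw [hTe]; simp
    obtain ⟨f', hf'⟩ := ((hT e).1 heT).2.2
    obtain ⟨k4, k5⟩ := htw e heT f' hf'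
    rw [hTe, mem_insert, mem_singleton] at k4
    have k6 : f' = f := k4.resolve_left k5
    subst k6
    refine Or.inr (Or.inl ⟨l, l', e, f', x, y, ?_, ((hL l).1 (by rw [hLe]; simp)).2,
      ((hL l').1 (by rw [hLe]; simp)).2, hf', ((hH x).1 (by rw [hHe]; simp)).2,
      ((hH y).1 (by rw [hHe]; simp)).2⟩)
    rw [hnb, hLe, hHe, hTe]
    ext u
    simp only [mem_insert, mem_union, mem_singleton, or_assoc]
  · obtain ⟨l, l', l'', -, -, -, hLe⟩ := card_eq_three.1 k1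
    obtain ⟨x, y, z, -, -, -, hHe⟩ := card_eq_three.1 k3
    rw [card_eq_zero] at k2
    refine Or.inr (Or.inr ⟨l, l', l'', x, y, z, ?_, ((hL l).1 (by rw [hLe]; simp)).2,
      ((hL l').1 (by rw [hLe]; simp)).2, ((hL l'').1 (by rw [hLe]; simp)).2,
      ((hH x).1 (by rw [hHe]; simp)).2, ((hH y).1 (by rw [hHe]; simp)).2,
      ((hH z).1 (by rw [hHe]; simp)).2⟩)
    rw [hnb, hLe, hHe, k2]
    ext u
    simp only [mem_insert, mem_union, mem_singleton, notMem_empty, false_or, or_assoc]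

/-- M1 -/
theorem stM1_86 (G : CG V) : G.StM1 where
  two := by
    intro Fa hG q hq hqt hI
    obtain ⟨p, ht⟩ := hqt
    obtain ⟨l, h1, l', h2, h3, h4, h5⟩ := low2_86 hG.g5 (fun _ => hG.n13) hq ht hI
    rw [← nR0_86 hq hI] at h1 h2
    exact tl_two5 h1 h4 h2 h5 h3
  poor := by
    intro Fa hG q hq p ht hI hc
    exact poor86 hG.g5 (fun _ => hG.n13) hq ht hI hc
  t204 := by
    intro Fa hG q hq p ht hI l l' x y z w h1 h2 h3 h4 h5 h6 h7
    exact t204_86 hG.g5 hq ht hI h1 h2 h3 h4 h5 h6 h7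
  t212 := by
    intro Fa hG q hq p ht hI l l' e f x y h1 h2 h3 h4 h5 h6
    exact t212_86 hG.g5 (fun _ => hG.n13) hq ht hI h1 h2 h3 h4 h5 h6
  tight := by
    intro Fa hG q hq hqt hI l hl h1 h2
    obtain ⟨p, ht⟩ := hqt
    exact tight86 hG.g5 (fun _ => hG.n13) hq ht hI hl h1 h2
  cov1 := by
    intro Fa hG q hq hqt hI e f x h1 h2 h3 h4 h5 h6
    obtain ⟨p, ht⟩ := hqt
    exact cov1_86 hG.g5 (fun _ => hG.n13) hq ht hI h1 h2 (by rintro rfl; exact h3 ht) h4 h5 h6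

end CG

end Pool.Agent.Lib.MP_e95c01_co.N
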