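import Pool.Agent.Lib.MP_e95c01_co.X.C8d_50
import Pool.Agent.Lib.MP_e95c01_co.X.M1_86

/-!
# `λ = 3`, thick torsos, C8g: a hub with one full payer and one poor pair with three lows
-/

namespace Pool.Agent.Lib.MP_e95c01_co.N

open Finset

variable {V : Type} [Fintype V] [DecidableEq V]

namespace CG

/-- the situation -/
structure G38 (G : CG V) (Fa : Finset (Finset V)) (x e q p l2 l3 x2 x3 : V) : Prop where
  hG : G.Gen6 Fa
  s : G.Sing Fa x e
  t : G.Tw q p
  qR : q ∈ R Fa
  qI : G.I Fa q = ∅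
  un : ∀ q' ∈ G.nb x, G.IsTw q' → q' = q ∨ q' = p
  nq : G.nb q = {p, e, l2, l3, x, x2, x3}
  le : G.Low e
  l2l : G.Low l2
  l3l : G.Low l3
  h2 : G.Hub x2
  h3 : G.Hub x3
  ex : e ∈ G.nb x
  nHL : ¬ ∃ b, G.HL x b e

variable {G : CG V} {Fa : Finset (Finset V)} {x e q p l2 l3 x2 x3 : V}

/-- from the type of the poor pair -/
theorem G38.of (hM1 : G.StM1) (hG : G.Gen6 Fa) (s : G.Sing Fa x e) (t : G.Tw q p)
    (hP : G.PQ Fa q x) (un : ∀ q', G.PQ Fa q' x → q' = q ∨ q' = p) (h3 : G.tl Fa q = 3) :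
    ∃ l2 l3 x2 x3, G38 G Fa x e q p l2 l3 x2 x3 := by
  classical
  have hP' := hP
  obtain ⟨hq, hqt, hI, hc, hN⟩ := hP
  have hxq : x ∈ G.nb q := (mem_nR76.1 (mem_NH50.1 hN).1).1
  have heq : e ∈ G.nb q := s.adj q hP'
  have hpt : G.IsTw p := tw_of76' t
  have htl : ((G.nb q).filter fun u => G.Low u).card = 3 := by
    rw [← h3, tl, nR0_86 hq hI]
  have two : ∀ l l', (∀ u ∈ G.nb q, G.Low u → u = l ∨ u = l') → False := by
    intro l l' h
    have h1 : ((G.nb q).filter fun u => G.Low u) ⊆ {l, l'} := by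
      intro u hu
      rw [mem_filter] at hu
      rw [mem_insert, mem_singleton]
      exact h u hu.1 hu.2
    have h2 := card_le_card h1
    have h4 : ({l, l'} : Finset V).card ≤ 2 := card_le_two
    omega
  rcases hM1.poor Fa hG q hq p t hI hc with ⟨l, l', a, b, c, d, h, -, -, ha, hb, hc, hd⟩ |
    ⟨l, l', e', f', a, b, h, -, -, ht, ha, hb⟩ | ⟨l, l', l'', a, b, c, h, k1, k2, k3, ha, hb, hc⟩
  · exfalso
    refine two l l' fun u hu ul => ?_
    rw [h] at hu
    simp only [mem_insert, mem_singleton] at hu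
    rcases hu with rfl | rfl | rfl | rfl | rfl | rfl | rfl
    · exact absurd ul (tw_not_low76 hpt)
    · exact Or.inl rfl
    · exact Or.inr rfl
    · exact absurd ul ha.1
    · exact absurd ul hb.1
    · exact absurd ul hc.1
    · exact absurd ul hd.1
  · exfalso
    refine two l l' fun u hu ul => ?_
    rw [h] at hu
    simp only [mem_insert, mem_singleton] at hu
    rcases hu with rfl | rfl | rfl | rfl | rfl | rfl | rfl
    · exact absurd ul (tw_not_low76 hpt)
    · exact Or.inl rfl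
    · exact Or.inr rfl
    · exact absurd ul (tw_not_low76 (tw_of76 ht))
    · exact absurd ul (tw_not_low76 (tw_of76' ht))
    · exact absurd ul ha.1
    · exact absurd ul hb.1
  · -- `e` is low
    have hel : G.Low e ∧ e ∈ G.nb x ∧ ¬ ∃ b, G.HL x b e := by
      rcases s.full with h1 | ⟨f, h1, h2, h4⟩
      · obtain ⟨h2, -⟩ := mem_FuL50.1 h1
        obtain ⟨h4, h5, h6, -⟩ := mem_HPl50.1 h2
        exact ⟨h5, (mem_nR76.1 h4).1, h6⟩
      · exfalso
        obtain ⟨h5, h6⟩ := mem_FuT50.1 h2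
        have hep : e = p := by
          have := heq
          rw [h] at this
          simp only [mem_insert, mem_singleton] at this
          have het : G.IsTw e := ⟨f, h1⟩
          rcases this with rfl | rfl | rfl | rfl | rfl | rfl | rfl
          · rfl
          · exact absurd k1 (tw_not_low76 het)
          · exact absurd k2 (tw_not_low76 het)
          · exact absurd k3 (tw_not_low76 het)
          · exact absurd het ha.2
          · exact absurd het hb.2
          · exact absurd het hc.2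
        subst hep
        exact h6 (PQ_tw50 hG t hP')
    obtain ⟨hel, hex, hHL⟩ := hel
    -- the lows
    obtain ⟨l2, l3, hl2, hl3, hL⟩ : ∃ l2 l3, G.Low l2 ∧ G.Low l3 ∧
        ∀ u, (u = l ∨ u = l' ∨ u = l'') ↔ (u = e ∨ u = l2 ∨ u = l3) := by
      have := heq
      rw [h] at this
      simp only [mem_insert, mem_singleton] at this
      rcases this with rfl | rfl | rfl | rfl | rfl | rfl | rfl
      · exact absurd hel (tw_not_low76 hpt)
      · exact ⟨l', l'', k2, k3, fun u => Iff.rfl⟩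
      · exact ⟨l, l'', k1, k3, fun u => or_left_comm⟩
      · exact ⟨l, l', k1, k2, fun u => by rw [← or_assoc, or_comm]⟩
      · exact absurd hel ha.1
      · exact absurd hel hb.1
      · exact absurd hel hc.1
    obtain ⟨x2, x3, hx2, hx3, hX⟩ : ∃ x2 x3, G.Hub x2 ∧ G.Hub x3 ∧
        ∀ u, (u = a ∨ u = b ∨ u = c) ↔ (u = x ∨ u = x2 ∨ u = x3) := by
      have := hxq
      have hh := s.hub
      rw [h] at this
      simp only [mem_insert, mem_singleton] at this
      rcases this with rfl | rfl | rfl | rfl | rfl | rfl | rfl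
      · exact absurd hpt hh.2
      · exact absurd k1 hh.1
      · exact absurd k2 hh.1
      · exact absurd k3 hh.1
      · exact ⟨b, c, hb, hc, fun u => Iff.rfl⟩
      · exact ⟨a, c, ha, hc, fun u => or_left_comm⟩
      · exact ⟨a, b, ha, hb, fun u => by rw [← or_assoc, or_comm]⟩
    refine ⟨l2, l3, x2, x3, hG, s, t, hq, hI, ?_, ?_, hel, hl2, hl3, hx2, hx3, hex, hHL⟩
    · intro q' hq' ht'
      rcases s.tw q' hq' ht' with h1 | h1 | h1
      · rw [h1] at ht'
        exact absurd hel (tw_not_low76 ht')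
      · exact absurd hel (tw_not_low76 ⟨q', h1⟩)
      · exact un q' h1
    · rw [h]
      ext u
      simp only [mem_insert, mem_singleton]
      have e1 : (u = p ∨ u = l ∨ u = l' ∨ u = l'' ∨ u = a ∨ u = b ∨ u = c) ↔
          (u = p ∨ (u = l ∨ u = l' ∨ u = l'') ∨ (u = a ∨ u = b ∨ u = c)) := by
        simp only [or_assoc]
      have e2 : (u = p ∨ u = e ∨ u = l2 ∨ u = l3 ∨ u = x ∨ u = x2 ∨ u = x3) ↔
          (u = p ∨ (u = e ∨ u = l2 ∨ u = l3) ∨ (u = x ∨ u = x2 ∨ u = x3)) := by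
        simp only [or_assoc]
      rw [e1, e2, hL u, hX u]

namespace G38

variable (c : G38 G Fa x e q p l2 l3 x2 x3)

include c

theorem nd : [p, e, l2, l3, x, x2, x3].Nodup := by
  refine nodup7_86 ?_
  rw [← c.nq, c.t.2.1]

theorem neq : p ≠ e ∧ p ≠ x ∧ e ≠ l2 ∧ e ≠ l3 ∧ l2 ≠ l3 ∧ e ≠ x ∧ q ≠ x ∧ q ≠ e ∧ q ≠ p := by
  have h := c.nd
  simp only [List.nodup_cons, List.mem_cons, List.not_mem_nil, not_or, or_false] at h
  have hxq : x ∈ G.nb q := by rw [c.nq]; simp
  have heq : e ∈ G.nb q := by rw [c.nq]; simp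
  exact ⟨h.1.1, h.1.2.2.2.1, h.2.1.1, h.2.1.2.1, h.2.2.1.1, h.2.1.2.2.1, ne_of_nb5 hxq,
    ne_of_nb5 heq, ne_of_nb5 c.t.1⟩

theorem xq : x ∈ G.nb q := by rw [c.nq]; simp

theorem eq' : e ∈ G.nb q := by rw [c.nq]; simp

theorem pI : p ∈ R Fa ∧ G.I Fa p = ∅ := by
  have h := (stTwHL_5 G).twI Fa c.hG.g5.reg q c.qR p c.t
  exact ⟨h.1, h.2.trans c.qI⟩

theorem eR : e ∈ R Fa := R0_86 c.qR c.qI c.eq'

theorem xe : x ∈ G.nb e := G.sym _ _ c.ex

theorem qe : q ∈ G.nb e := G.sym _ _ c.eq'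

theorem pe : p ∈ G.nb e := G.sym _ _ (Tw_nb5 c.t c.eq' c.neq.1.symm)

theorem xR {w : V} (h : w ∈ G.nb x) : w ∈ R Fa := R0_86 c.s.xR c.s.I0 h

/-- twin vertices near `q` -/
theorem twq {v : V} (hv : v ∈ G.nb q) (ht : G.IsTw v) : v = p := by
  rw [c.nq] at hv
  simp only [mem_insert, mem_singleton] at hv
  rcases hv with rfl | rfl | rfl | rfl | rfl | rfl | rfl
  · rfl
  · exact absurd c.le (tw_not_low76 ht)
  · exact absurd c.l2l (tw_not_low76 ht)
  · exact absurd c.l3l (tw_not_low76 ht)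
  · exact absurd ht c.s.hub.2
  · exact absurd ht c.h2.2
  · exact absurd ht c.h3.2

/-- low vertices near `q` -/
theorem lowq {v : V} (hv : v ∈ G.nb q) (ht : G.Low v) : v = e ∨ v = l2 ∨ v = l3 := by
  rw [c.nq] at hv
  simp only [mem_insert, mem_singleton] at hv
  rcases hv with rfl | rfl | rfl | rfl | rfl | rfl | rfl
  · exact absurd ht (tw_not_low76 (tw_of76' c.t))
  · exact Or.inl rfl
  · exact Or.inr (Or.inl rfl)
  · exact Or.inr (Or.inr rfl)
  · exact absurd ht c.s.hub.1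
  · exact absurd ht c.h2.1
  · exact absurd ht c.h3.1

/-- covers at `q` -/
theorem covq {z : V} (hz : z ∈ G.nb q) : (∃ l ∈ G.nb q, G.Low l ∧ z ∈ G.nb l) ∨
    (∃ a ∈ G.nb q, ∃ b ∈ G.nb q, G.Low z ∧ G.Low b ∧ G.HL a b z) := by
  rcases cov0_86 c.hG.g5 c.qR c.t c.qI hz with h | ⟨v, hv, v', hv', h1, h2, h3, h4, h5⟩ | h
  · exact Or.inl h
  · exact absurd (c.twq hv ⟨v', h3⟩) h1
  · exact Or.inr h

/-- the cover of `e` at `q` -/
theorem cc : ∃ u, u ∈ G.nb e ∧ u ∈ G.nb q ∧ u ≠ x ∧ u ≠ p := by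
  rcases c.covq c.eq' with ⟨l, h1, h2, h3⟩ | ⟨a, ha, b, hb, h1, h2, h3⟩
  · refine ⟨l, G.sym _ _ h3, h1, ?_, ?_⟩
    · rintro rfl
      exact c.s.hub.1 h2
    · rintro rfl
      exact tw_not_low76 (tw_of76' c.t) h2
  · refine ⟨a, G.sym _ _ (HL_t76 h3), ha, ?_, ?_⟩
    · rintro rfl
      exact c.nHL ⟨b, h3⟩
    · rintro rfl
      exact tw_not_HL76 c.hG.g5.n9 (tw_of76' c.t) e ⟨b, h3⟩

/-- at most two neighbours of `e` outside of `q` and its neighbourhood -/
theorem out2 : (G.nb e \ G.cl q).card ≤ 2 := by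
  obtain ⟨u, h1, h2, h3, h4⟩ := c.cc
  obtain ⟨-, n2, -, -, -, -, n7, n8, n9⟩ := c.neq
  have h6 : (G.nb e).card = 6 := c.le
  have h5 := card_sdiff_add_card_inter (G.nb e) (G.cl q)
  have h7 : ({q, p, x, u} : Finset V) ⊆ G.nb e ∩ G.cl q := by
    intro w hw
    simp only [mem_insert, mem_singleton] at hw
    rw [mem_inter, mem_clT76]
    rcases hw with rfl | rfl | rfl | rfl
    exacts [⟨c.qe, Or.inl rfl⟩, ⟨c.pe, Or.inr c.t.1⟩, ⟨c.xe, Or.inr c.xq⟩, ⟨h1, Or.inr h2⟩]
  have h8 := card_le_card h7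
  have hqu : q ≠ u := ne_of_nb5 h2
  rw [card_insert_of_notMem (by
      simp only [mem_insert, mem_singleton, not_or]; exact ⟨n9, n7, hqu⟩),
    card_insert_of_notMem (by
      simp only [mem_insert, mem_singleton, not_or]; exact ⟨n2, h4.symm⟩),
    card_pair h3.symm] at h8
  omega

/-- `e` in no neighbourhood: a small fragment -/
theorem noD0 (hI : G.I Fa e = ∅) (hN : ∀ w ∈ G.nb x, w ∈ G.cl q ∨ w ∈ G.cl e) : False := by
  obtain ⟨n1, n2, n3, n4, n5, n6, n7, n8, n9⟩ := c.neq
  have hc : ({x, e, q, p} : Finset V).card = 4 := by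
    rw [card_insert_of_notMem, card_insert_of_notMem, card_pair n9]
    · simp only [mem_insert, mem_singleton, not_or]
      exact ⟨n8.symm, n1.symm⟩
    · simp only [mem_insert, mem_singleton, not_or]
      exact ⟨n6.symm, n7.symm, n2.symm⟩
  have h7 := E04_86 c.hG.g5 (fun _ => c.hG.n13) (Z := {x, e, q, p}) (by omega) (by omega) (by
    intro z hz
    simp only [mem_insert, mem_singleton] at hz
    rcases hz with rfl | rfl | rfl | rfl
    exacts [⟨c.s.xR, c.s.I0⟩, ⟨c.eR, hI⟩, ⟨c.qR, c.qI⟩, c.pI])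
  have hsub : G.N {x, e, q, p} ⊆ {l2, l3, x2, x3} ∪ (G.nb e \ G.cl q) := by
    intro w hw
    rw [mem_N76] at hw
    obtain ⟨hw1, u, hu, hw2⟩ := hw
    simp only [mem_insert, mem_singleton, not_or] at hw1 hu
    obtain ⟨w1, w2, w3, w4⟩ := hw1
    have h1 : w ∈ G.cl q ∨ w ∈ G.cl e := by
      rcases hu with rfl | rfl | rfl | rfl
      · exact hN w hw2
      · exact Or.inr (mem_clT76.2 (Or.inr hw2))
      · exact Or.inl (mem_clT76.2 (Or.inr hw2))
      · exact Or.inl (mem_clT76.2 (Or.inr (Tw_nb5 (tw_symm76 c.t) hw2 w3)))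
    rw [mem_union, mem_sdiff]
    by_cases h2 : w ∈ G.cl q
    · left
      have h3 := (mem_clT76.1 h2).resolve_left w3
      rw [c.nq] at h3
      simp only [mem_insert, mem_singleton] at h3 ⊢
      rcases h3 with h | h | h | h | h | h | h
      exacts [absurd h w4, absurd h w2, Or.inl h, Or.inr (Or.inl h), absurd h w1,
        Or.inr (Or.inr (Or.inl h)), Or.inr (Or.inr (Or.inr h))]
    · right
      exact ⟨(mem_clT76.1 (h1.resolve_left h2)).resolve_left w2, h2⟩
  have h8 := card_le_card hsub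
  have h9 := card_union_le {l2, l3, x2, x3} (G.nb e \ G.cl q)
  have h10 : ({l2, l3, x2, x3} : Finset V).card ≤ 4 := card_le_four
  have := c.out2
  omega

/-- no low vertex `d` with `HL x e d` -/
theorem noT (d : V) : ¬ G.HL x e d := by
  intro h
  have hd : d ∈ G.nb x := HL_t76 h
  have hdR := c.xR hd
  have hI : G.I Fa e = ∅ := by rw [← HL_I76 h c.s.xR c.eR hdR]; exact c.s.I0
  have huniq : ∀ w, G.HL x e w → w = d := by
    intro w hw
    have h1 : w ∈ G.cl x := mem_clT76.2 (Or.inr (HL_t76 hw))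
    rw [h.2.2.2.2, mem_insert] at h1
    exact h1.resolve_right hw.2.2.2.1
  have hlowx : ∀ w ∈ G.nb x, G.Low w → w = e ∨ w = d := fun w hw wl =>
    (c.s.low w hw wl).imp id (huniq w)
  have hdq : d ∈ G.nb q := by
    have hdn : d ∈ G.nR Fa x := mem_nR76.2 ⟨hd, hdR⟩
    have hm : G.m Fa x d = 0 := by rw [m, c.s.I0, empty_inter, card_empty]
    rcases cov3_76 (qs16 G) (tor86 c.hG.g5) c.s.xR hdn hm with h1 | h1 | h1 | h1 | h1
    · exfalso
      obtain ⟨w, h2, h3, h4, h5⟩ := h1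
      rcases hlowx w (mem_nR76.1 h2).1 h4 with rfl | rfl
      · exact (HL_bt76 h).1 h5
      · exact G.irr _ h5
    · obtain ⟨v, w, h2, h3, h4, h5, h6⟩ := h1
      rcases c.un v (mem_nR76.1 h2).1 ⟨w, h4⟩ with rfl | rfl
      · exact G.sym _ _ (G.sym _ _ h5)
      · have : w = q := (stTwHL_5 G).uniq c.hG.g5.n9 _ _ _ h4 (tw_symm76 c.t)
        rw [this] at h6
        exact h6
    · obtain ⟨a, b, -, -, h2, -⟩ := h1
      exact absurd h2 c.s.hub.1
    · exfalso
      obtain ⟨a, b, h2, h3, h4, h5, h6⟩ := h1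
      rcases hlowx b (mem_nR76.1 h2).1 h5.2.1 with rfl | rfl
      · have h7 : G.cl x = G.cl a := by rw [h.2.2.2.2, h5.2.2.2.2]
        have h8 : x ∈ G.cl a := by
          rw [← h7]
          exact mem_clT76.2 (Or.inl rfl)
        have h9 := (mem_clT76.1 h8).resolve_left h6
        exact c.s.hub.2 ⟨a, G.sym _ _ h9, h.1, h7⟩
      · exact (HL_bt76 h5).2 rfl
    · exfalso
      obtain ⟨a, b, h2, h3, h4, h5⟩ := h1
      rcases hlowx a (mem_nR76.1 h2).1 h5.1 with rfl | rfl
      · have h6 : b ∈ G.nb a := LL_ab76 h5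
        have h7 : b ≠ x := by
          rintro rfl
          exact c.s.hub.1 h5.2.1
        exact (LL_tb76 h5).1 (G.sym _ _ (HL_sub76 h h6 h7))
      · exact (LL_ua76 h5).2 rfl
  refine c.noD0 hI fun w hw => ?_
  by_cases hwd : w = d
  · rw [hwd]
    exact Or.inl (mem_clT76.2 (Or.inr hdq))
  · exact Or.inr (mem_clT76.2 (HL_sup76 h hw hwd))

theorem lowx {w : V} (hw : w ∈ G.nb x) (wl : G.Low w) : w = e :=
  (c.s.low w hw wl).resolve_right (c.noT w)

/-- a hub near `x` that is not near `q` or `e` -/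
theorem far {w : V} (hw : w ∈ G.nb x) (hh : G.Hub w) (h1 : w ∉ G.nb q) (h2 : w ∉ G.nb e) :
    ∃ b ∈ R Fa, G.LL e b x w := by
  have hwn : w ∈ G.nR Fa x := mem_nR76.2 ⟨hw, c.xR hw⟩
  have hm : G.m Fa x w = 0 := by rw [m, c.s.I0, empty_inter, card_empty]
  rcases cov3_76 (qs16 G) (tor86 c.hG.g5) c.s.xR hwn hm with h | h | h | h | h
  · exfalso
    obtain ⟨v, h3, h4, h5, h6⟩ := h
    rw [c.lowx (mem_nR76.1 h3).1 h5] at h6
    exact h2 h6
  · exfalso
    obtain ⟨v, v', h3, h4, h5, h6, h7⟩ := h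
    rcases c.un v (mem_nR76.1 h3).1 ⟨v', h5⟩ with rfl | rfl
    · exact h1 h6
    · have : v' = q := (stTwHL_5 G).uniq c.hG.g5.n9 _ _ _ h5 (tw_symm76 c.t)
      rw [this] at h7
      exact h1 h7
  · obtain ⟨a, b, -, -, h3, -⟩ := h
    exact absurd h3 c.s.hub.1
  · obtain ⟨a, b, -, -, h3, -⟩ := h
    exact absurd h3 hh.1
  · obtain ⟨a, b, h3, h4, h5, h6⟩ := h
    have h7 := c.lowx (mem_nR76.1 h3).1 h6.1
    rw [h7] at h6
    exact ⟨b, h4, h6⟩

/-- the hub `x` has at least seven neighbours -/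
theorem x7 {S : Finset V} (hS : S.card ≤ 6) : ∃ w ∈ G.nb x, w ∉ S := by
  by_contra hc
  push Not at hc
  have h1 : (G.nb x).card ≤ 6 := (card_le_card hc).trans hS
  have h2 : (G.nb x).card ≠ 6 := fun h => c.s.hub.1 h
  have h3 : G.N {x} = G.nb x := by
    ext w
    rw [mem_N76, mem_singleton]
    constructor
    · rintro ⟨-, u, hu, h4⟩
      rw [mem_singleton] at hu
      rw [hu] at h4
      exact h4
    · intro h4
      refine ⟨?_, x, mem_singleton_self _, h4⟩
      rintro rfl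
      exact G.irr _ h4
  have h4 := six_le86 G (S := {x}) ⟨x, mem_singleton_self _⟩ (by
    rw [h3, card_singleton]
    have := c.hG.n13
    omega)
  rw [h3] at h4
  omega

/-- neighbours of `x` -/
theorem kinds {w : V} (hw : w ∈ G.nb x) : w = q ∨ w = p ∨ w = e ∨ G.Hub w := by
  rcases trich76 (G := G) w with h | h | h
  · exact Or.inr (Or.inr (Or.inl (c.lowx hw h)))
  · rcases c.un w hw h with h1 | h1
    · exact Or.inl h1
    · exact Or.inr (Or.inl h1)
  · exact Or.inr (Or.inr (Or.inr h))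

/-- all neighbours of `x` near `q` or `e`: impossible -/
theorem beta0 (hN : ∀ w ∈ G.nb x, w ∈ G.cl q ∨ w ∈ G.cl e) : False := by
  classical
  by_cases hI : G.I Fa e = ∅
  · exact c.noD0 hI hN
  obtain ⟨B, hB⟩ := nonempty_iff_ne_empty.2 hI
  obtain ⟨hBF, heN⟩ := mem_I76.1 hB
  obtain ⟨-, b, hb, hb'⟩ := mem_N76.1 heN
  have hbR : b ∉ R Fa := fun h => mem_R76.1 h B hBF hb
  have hbe : b ∈ G.nb e \ G.cl q := by
    rw [mem_sdiff, mem_clT76, not_or]
    refine ⟨G.sym _ _ hb', ?_, ?_⟩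
    · rintro rfl
      exact hbR c.qR
    · exact fun h => hbR (R0_86 c.qR c.qI h)
  have h1 := c.out2
  have h2 : ((G.nb e \ G.cl q).erase b).card ≤ 1 := by
    rw [card_erase_of_mem hbe]
    omega
  obtain ⟨w, hw, hwn⟩ := c.x7 (S := {q, p, e, x2, x3} ∪ (G.nb e \ G.cl q).erase b) (by
    have h3 := card_union_le {q, p, e, x2, x3} ((G.nb e \ G.cl q).erase b)
    have h4 : ({q, p, e, x2, x3} : Finset V).card ≤ 5 := card_le_five
    omega)
  rw [mem_union, not_or] at hwn
  obtain ⟨k1, k2⟩ := hwn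
  simp only [mem_insert, mem_singleton, not_or] at k1
  obtain ⟨w1, w2, w3, w4, w5⟩ := k1
  have hh : G.Hub w := by
    rcases c.kinds hw with h | h | h | h
    exacts [absurd h w1, absurd h w2, absurd h w3, h]
  have hwq : w ∉ G.cl q := by
    intro h
    have h3 := (mem_clT76.1 h).resolve_left w1
    rw [c.nq] at h3
    simp only [mem_insert, mem_singleton] at h3
    rcases h3 with h3 | h3 | h3 | h3 | h3 | h3 | h3
    · exact w2 h3
    · exact w3 h3
    · rw [h3] at hh
      exact hh.1 c.l2l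
    · rw [h3] at hh
      exact hh.1 c.l3l
    · rw [h3] at hw
      exact G.irr _ hw
    · exact w4 h3
    · exact w5 h3
  refine k2 (mem_erase.2 ⟨?_, mem_sdiff.2 ⟨?_, hwq⟩⟩)
  · rintro rfl
    exact hbR (c.xR hw)
  · exact (mem_clT76.1 ((hN w hw).resolve_left hwq)).resolve_left w3

/-- facts about an `LL` pair `e b` -/
theorem LLf {b y : V} (h : G.LL e b x y) (hy : y ∉ G.nb q) : b ∈ G.nb q ∧ b ∈ G.nb e ∧
    (b = l2 ∨ b = l3) ∧ x ∉ G.nb b ∧ ∀ u ∈ G.nb q, u ∈ G.nb b → u = e ∨ u ∈ G.nb e := by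
  have hbe : b ∈ G.nb e := LL_ab76 h
  have hbq : b ∈ G.nb q := by
    rcases LL_to76 h c.qe c.neq.2.2.2.2.2.2.1 with h1 | h1
    · exfalso
      rw [← h1] at h
      exact tw_not_low76 (tw_of76 c.t) h.2.1
    · exact G.sym _ _ h1
  refine ⟨hbq, hbe, ?_, (LL_tb76 h).1, ?_⟩
  · rcases c.lowq hbq h.2.1 with h1 | h1
    · rw [h1] at hbe
      exact absurd hbe (G.irr _)
    · exact h1
  · intro u hu hub
    refine LL_from76 h hub ?_
    rintro rfl
    exact hy hu

theorem final (hM1 : G.StM1) : False := by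
  classical
  obtain ⟨n1, n2, n3, n4, n5, n6, n7, n8, n9⟩ := c.neq
  by_cases hN : ∀ w ∈ G.nb x, w ∈ G.cl q ∨ w ∈ G.cl e
  · exact c.beta0 hN
  push Not at hN
  obtain ⟨y, hy, hyq, hye⟩ := hN
  rw [mem_clT76, not_or] at hyq hye
  have hyh : G.Hub y := by
    rcases c.kinds hy with h | h | h | h
    · exact absurd h hyq.1
    · rw [h] at hyq
      exact absurd c.t.1 hyq.2
    · exact absurd h hye.1
    · exact h
  obtain ⟨b, hbR, hLL⟩ := c.far hy hyh hyq.2 hye.2
  obtain ⟨b1, b2, b3, b4, b5⟩ := c.LLf hLL hyq.2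
  have hbx : b ≠ x := by
    rintro rfl
    exact c.s.hub.1 hLL.2.1
  have hbp : b ≠ p := by
    rintro rfl
    exact tw_not_low76 (tw_of76' c.t) hLL.2.1
  have hp : p ∈ G.nb e ∩ G.nb q := mem_inter.2 ⟨c.pe, c.t.1⟩
  have hx : x ∈ G.nb e ∩ G.nb q := mem_inter.2 ⟨c.xe, c.xq⟩
  have hb : b ∈ G.nb e ∩ G.nb q := mem_inter.2 ⟨b2, b1⟩
  have hsub : ({p, x, b} : Finset V) ⊆ G.nb e ∩ G.nb q := by
    intro u hu
    simp only [mem_insert, mem_singleton] at hu
    rcases hu with rfl | rfl | rfl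
    exacts [hp, hx, hb]
  have hc3 : ({p, x, b} : Finset V).card = 3 := by
    rw [card_insert_of_notMem, card_pair hbx.symm]
    simp only [mem_insert, mem_singleton, not_or]
    exact ⟨n2, hbp.symm⟩
  have h3 := card_le_card hsub
  by_cases h4 : (G.nb e ∩ G.nb q).card = 4
  · -- three common neighbours
    obtain ⟨-, -, ht⟩ := hM1.tight Fa c.hG q c.qR ⟨p, c.t⟩ c.qI e c.eq' c.le h4
    obtain ⟨y', hy', hyn⟩ := c.x7 (S := {q, p, e, x2, x3, y}) (by
      exact card_le_six)
    simp only [mem_insert, mem_singleton, not_or] at hyn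
    obtain ⟨w1, w2, w3, w4, w5, w6⟩ := hyn
    have hh' : G.Hub y' := by
      rcases c.kinds hy' with h | h | h | h
      exacts [absurd h w1, absurd h w2, absurd h w3, h]
    have hy'q : y' ∉ G.nb q := by
      intro h
      rw [c.nq] at h
      simp only [mem_insert, mem_singleton] at h
      rcases h with h | h | h | h | h | h | h
      · exact w2 h
      · exact w3 h
      · rw [h] at hh'
        exact hh'.1 c.l2l
      · rw [h] at hh'
        exact hh'.1 c.l3l
      · rw [h] at hy'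
        exact G.irr _ hy'
      · exact w4 h
      · exact w5 h
    have hy'e : y' ∉ G.nb e := by
      intro h
      have h5 := ht (mem_nR76.2 ⟨h, c.xR hy'⟩)
      rcases mem_clT76.1 h5 with h6 | h6
      · exact w1 h6
      · exact hy'q h6
    obtain ⟨b', hbR', hLL'⟩ := c.far hy' hh' hy'q hy'e
    obtain ⟨c1, c2, c3, c4, c5⟩ := c.LLf hLL' hy'q
    have hbb : b ≠ b' := by
      rintro rfl
      have h5 : y' ∈ insert y (G.cl e) := by
        rw [hLL.2.2.2.2.2.2, ← hLL'.2.2.2.2.2.2]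
        exact mem_insert_self _ _
      rw [mem_insert] at h5
      exact h5.elim w6 hLL'.2.2.2.2.2.1
    have hC : G.nb e ∩ G.nb q = {p, x, b, b'} := by
      refine (eq_of_subset_of_card_le ?_ ?_).symm
      · intro u hu
        simp only [mem_insert, mem_singleton] at hu
        rcases hu with rfl | rfl | rfl | rfl
        exacts [hp, hx, hb, mem_inter.2 ⟨c2, c1⟩]
      · have hb'x : b' ≠ x := by
          rintro rfl
          exact c.s.hub.1 hLL'.2.1
        have hb'p : b' ≠ p := by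
          rintro rfl
          exact tw_not_low76 (tw_of76' c.t) hLL'.2.1
        rw [h4, card_insert_of_notMem, card_insert_of_notMem, card_pair hbb]
        · simp only [mem_insert, mem_singleton, not_or]
          exact ⟨hbx.symm, hb'x.symm⟩
        · simp only [mem_insert, mem_singleton, not_or]
          exact ⟨n2, hbp.symm, hb'p.symm⟩
    have hx2q : x2 ∈ G.nb q := by rw [c.nq]; simp
    have hx2e : x2 ∉ G.nb e := by
      intro h
      have h5 : x2 ∈ G.nb e ∩ G.nb q := mem_inter.2 ⟨h, hx2q⟩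
      have hnd := c.nd
      simp only [List.nodup_cons, List.mem_cons, List.not_mem_nil, not_or, or_false] at hnd
      rw [hC] at h5
      simp only [mem_insert, mem_singleton] at h5
      rcases h5 with h5 | h5 | h5 | h5
      · exact hnd.1.2.2.2.2.1 h5.symm
      · exact hnd.2.2.2.2.1.1 h5.symm
      · exact c.h2.1 (h5 ▸ hLL.2.1)
      · exact c.h2.1 (h5 ▸ hLL'.2.1)
    have hx2l : ∀ l, (l = l2 ∨ l = l3) → x2 ∉ G.nb l := by
      intro l hl h
      have h5 : l = b ∨ l = b' := by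
        rcases b3 with e1 | e1 <;> rcases c3 with e2 | e2
        · exact absurd (e1.trans e2.symm) hbb
        · rw [e1, e2]
          exact hl
        · rw [e1, e2]
          exact hl.symm
        · exact absurd (e1.trans e2.symm) hbb
      rcases h5 with rfl | rfl
      · rcases b5 x2 hx2q h with h6 | h6
        · exact c.h2.1 (h6 ▸ c.le)
        · exact hx2e h6
      · rcases c5 x2 hx2q h with h6 | h6
        · exact c.h2.1 (h6 ▸ c.le)
        · exact hx2e h6
    rcases c.covq hx2q with ⟨l, h5, h6, h7⟩ | ⟨a, ha, a', ha', h5, -⟩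
    · rcases c.lowq h5 h6 with rfl | h8
      · exact hx2e h7
      · exact hx2l l h8 h7
    · exact c.h2.1 h5
  · -- two common neighbours
    have h5 := lq_le86 c.hG.g5.n9 c.le c.t (G.sym _ _ c.eq')
    have hC : G.nb e ∩ G.nb q = {p, x, b} :=
      (eq_of_subset_of_card_le hsub (by omega)).symm
    obtain ⟨l, hlq, hll, hlb, hle, hall⟩ : ∃ l, l ∈ G.nb q ∧ G.Low l ∧ l ≠ b ∧ l ≠ e ∧
        ∀ u ∈ G.nb q, G.Low u → u = e ∨ u = b ∨ u = l := by
      rcases b3 with e1 | e1
      · refine ⟨l3, by rw [c.nq]; simp, c.l3l, ?_, n4.symm, ?_⟩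
        · rw [e1]
          exact n5.symm
        · intro u hu ul
          rw [e1]
          exact c.lowq hu ul
      · refine ⟨l2, by rw [c.nq]; simp, c.l2l, ?_, n3.symm, ?_⟩
        · rw [e1]
          exact n5
        · intro u hu ul
          rw [e1]
          rcases c.lowq hu ul with h | h | h
          exacts [Or.inl h, Or.inr (Or.inr h), Or.inr (Or.inl h)]
    have hlx : l ≠ x := by
      rintro rfl
      exact c.s.hub.1 hll
    have hlp : l ≠ p := by
      rintro rfl
      exact tw_not_low76 (tw_of76' c.t) hll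
    have hle' : l ∉ G.nb e := by
      intro h
      have h6 : l ∈ G.nb e ∩ G.nb q := mem_inter.2 ⟨h, hlq⟩
      rw [hC] at h6
      simp only [mem_insert, mem_singleton] at h6
      rcases h6 with h6 | h6 | h6
      exacts [hlp h6, hlx h6, hlb h6]
    have hlb' : l ∉ G.nb b := by
      intro h
      rcases b5 l hlq h with h6 | h6
      exacts [hle h6, hle' h6]
    rcases c.covq hlq with ⟨u, h6, h7, h8⟩ | ⟨a, ha, a', ha', h6, h7, h8⟩
    · rcases hall u h6 h7 with rfl | rfl | rfl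
      · exact hle' h8
      · exact hlb' h8
      · exact G.irr _ h8
    · have hal : ¬ G.Low a := HL_not_low76 h8
      have hap : a ≠ p := by
        rintro rfl
        exact tw_not_HL76 c.hG.g5.n9 (tw_of76' c.t) l ⟨a', h8⟩
      have key : a ∈ G.nb e → a = x := by
        intro h9
        have h10 : a ∈ G.nb e ∩ G.nb q := mem_inter.2 ⟨h9, ha⟩
        rw [hC] at h10
        simp only [mem_insert, mem_singleton] at h10
        rcases h10 with h10 | h10 | h10
        · exact absurd h10 hap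
        · exact h10
        · rw [h10] at hal
          exact absurd hLL.2.1 hal
      rcases hall a' ha' h7 with rfl | rfl | rfl
      · have h9 := key (G.sym _ _ (HL_b76 h8))
        rw [h9] at h8
        exact c.noT l h8
      · have h9 : a ∈ G.nb a' := G.sym _ _ (HL_b76 h8)
        rcases b5 a ha h9 with h10 | h10
        · rw [h10] at hal
          exact hal c.le
        · rw [key h10] at h9
          exact b4 h9
      · exact (HL_bt76 h8).2 rfl

end G38

/-- C8g -/
theorem stC8g_38 (G : CG V) (hM1 : G.StM1) : G.StC8g := by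
  intro Fa hG x e s q p t hP un h3
  obtain ⟨l2, l3, x2, x3, c⟩ := G38.of hM1 hG s t hP un h3
  exact c.final hM1

end CG

end Pool.Agent.Lib.MP_e95c01_co.N
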