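import Pool.Agent.Lib.MP_e95c01_co.X.C6bx_53
import Pool.Agent.Lib.MP_e95c01_co.X.Acc76

/-!
# C8h: hubs that pay a low vertex of type ETA
-/

namespace Pool.Agent.Lib.MP_e95c01_co.N

open Finset

variable {V : Type} [Fintype V] [DecidableEq V]

namespace CG

variable {G : CG V} {Fa : Finset (Finset V)}

/-- the vertex `b`, `HL a b l`, in two or more neighbourhoods, with a pair of twins in at most one
neighbourhood -/
theorem ch_many53 (hG : G.Gen5 Fa) {a b l q p : V} (h : G.HL a b l) (ha : a ∈ R Fa)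
    (hb : b ∈ R Fa) (hl : l ∈ R Fa) (hk : 2 ≤ (G.I Fa b).card) (ht : G.Tw q p)
    (hq : q ∈ G.nR Fa b) (hp : p ∈ G.nR Fa b) (hkq : (G.I Fa q).card ≤ 1) :
    2 ≤ G.ch5 Fa b := by
  classical
  have n9 := hG.n9
  have h1 := (G.stCh5_28).low2 n9 Fa hG.reg b hb h.2.1
  have h2 := fg_b53 n9 hG.reg h ha hb hl
  have hqp : q ≠ p := ne_of_nb5 ht.1
  have hah := hubHL53 n9 h
  have haq : a ≠ q := fun e => hah.2 (e ▸ tw_of76 ht)
  have hap : a ≠ p := fun e => hah.2 (e ▸ tw_of76' ht)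
  have hab : a ∈ G.nR Fa b := mem_nR76.2 ⟨G.sym _ _ (HL_b76 h), ha⟩
  have hkp : (G.I Fa p).card ≤ 1 := by
    rw [(q_I76 (qs16 G) hG.reg (mem_nR76.1 hq).2 ht).2]
    exact hkq
  have h3 : 3 ≤ (G.nR Fa b).card := by
    have h4 : ({a, q, p} : Finset V).card = 3 := by
      rw [card_insert_of_notMem, card_pair hqp]
      rw [mem_insert, mem_singleton]
      exact fun e => e.elim haq hap
    rw [← h4]
    refine card_le_card ?_
    intro u hu
    simp only [mem_insert, mem_singleton] at hu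
    rcases hu with rfl | rfl | rfl
    exacts [hab, hq, hp]
  have h4 := nb_split76 hG.reg hb
  have h5 : ((G.I Fa b).card : ℤ) ≤ ∑ B ∈ G.I Fa b, (G.d b B : ℤ) := by
    have h6 : ∑ B ∈ G.I Fa b, (1 : ℤ) = ((G.I Fa b).card : ℤ) := by
      rw [sum_const, nsmul_eq_mul, mul_one]
    rw [← h6]
    exact sum_le_sum fun B hB => by
      have := d_pos76 (mem_I76.1 hB).2
      exact_mod_cast this
  have h6 : (G.nb b).card = 6 := h.2.1
  rw [h6] at h4
  push_cast at h4
  obtain ⟨k, hk'⟩ : ∃ k : ℤ, k = ((G.I Fa b).card : ℤ) := ⟨_, rfl⟩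
  obtain ⟨r, hr⟩ : ∃ r : ℤ, r = ((G.nR Fa b).card : ℤ) := ⟨_, rfl⟩
  have hk2 : 2 ≤ k := by
    rw [hk']
    exact_mod_cast hk
  have hr3 : 3 ≤ r := by
    rw [hr]
    exact_mod_cast h3
  have hkr : k + r ≤ 6 := by
    rw [hk', hr]
    linarith
  have h7 : ∀ x ∈ G.nR Fa b, (if x = q ∨ x = p then (1 : ℤ) else -(2 * (k - 2))) ≤
      G.w5 Fa x b := by
    intro x _
    split_ifs with hx
    · rcases hx with rfl | rfl
      · exact K28.w5_tw (tw_of76 ht) ((K28.m_le_left _ _).trans hkq)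
      · exact K28.w5_tw (tw_of76' ht) ((K28.m_le_left _ _).trans hkp)
    · refine K28.w5_ge (k - 2) (by linarith) ?_
      have h8 : G.m Fa x b ≤ (G.I Fa b).card := card_le_card inter_subset_right
      have h9 : (G.m Fa x b : ℤ) ≤ k := by
        rw [hk']
        exact_mod_cast h8
      linarith
  have h8 := sum_le_sum h7
  have h9 : ∑ x ∈ G.nR Fa b, (if x = q ∨ x = p then (1 : ℤ) else -(2 * (k - 2))) =
      2 - 2 * (k - 2) * (r - 2) := by
    rw [sum_ite, sum_const, sum_const, nsmul_eq_mul, nsmul_eq_mul]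
    have e1 : (G.nR Fa b).filter (fun x => x = q ∨ x = p) = {q, p} := by
      ext u
      simp only [mem_filter, mem_insert, mem_singleton]
      constructor
      · exact fun e => e.2
      · rintro (rfl | rfl)
        exacts [⟨hq, Or.inl rfl⟩, ⟨hp, Or.inr rfl⟩]
    have e2 := card_filter_add_card_filter_not (s := G.nR Fa b) (fun x => x = q ∨ x = p)
    rw [e1, card_pair hqp] at e2
    rw [e1, card_pair hqp]
    have e3 : (((G.nR Fa b).filter fun x => ¬ (x = q ∨ x = p)).card : ℤ) = r - 2 := by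
      rw [hr]
      have e4 : (2 : ℤ) + (((G.nR Fa b).filter fun x => ¬ (x = q ∨ x = p)).card : ℤ) =
          ((G.nR Fa b).card : ℤ) := by exact_mod_cast e2
      linarith
    rw [e3]
    push_cast
    ring
  rw [h9] at h8
  rw [h1, h2, ← hk']
  have hkc : k = 2 ∨ k = 3 := by
    rcases (show k ≤ 3 by linarith).lt_or_eq with h10 | h10
    · left
      linarith [Int.lt_add_one_iff.1 (show k < 2 + 1 by linarith)]
    · exact Or.inr h10
  rcases hkc with rfl | rfl
  · linarith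
  · linarith

/-- C8h -/
theorem stC8h_53 (G : CG V) : G.StC8h := by
  classical
  intro Fa hG B l a b q p h _ hb2
  have g5 := hG.g5
  have n9 := g5.n9
  have haR := (NF_R53 h.nf).1
  obtain ⟨hB, hlN⟩ := mem_I_L1_53 h.I1
  have hIab := HL_I76 (Fa := Fa) h.hl haR h.bR h.lR
  have hBa : B ∈ G.I Fa a := mem_I_pT53 hB h.aT
  have hBb : B ∈ G.I Fa b := hIab ▸ hBa
  have hq : q ∈ G.pO B l := h.out.symm ▸ mem_insert_self _ _
  have hqR : q ∈ R Fa := by
    refine mem_R76.2 fun A hA hxA => ?_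
    have h1 : A ∈ G.I Fa l := I_of_nb76 h.lR hA (mem_inter.1 hq).1 hxA
    rw [h.I1, mem_singleton] at h1
    subst h1
    exact (mem_Co76.1 (mem_inter.1 hq).2).1 hxA
  have hpI := q_I76 (qs16 G) g5.reg hqR h.t
  have hqb : q ∈ G.nR Fa b := mem_nR76.2 ⟨h.bq, hqR⟩
  have hpb : p ∈ G.nR Fa b := mem_nR76.2 ⟨h.pb, hpI.1⟩
  have hk1 : (G.I Fa b).card = 1 := by
    by_contra hc
    have h1 : 0 < (G.I Fa b).card := card_pos.2 ⟨B, hBb⟩
    have := ch_many53 g5 h.hl haR h.bR h.lR (by omega) h.t hqb hpb h.kq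
    linarith
  have hIb : G.I Fa b = {B} := by
    obtain ⟨C, hC⟩ := card_eq_one.1 hk1
    rw [hC, mem_singleton] at hBb
    rw [hC, hBb]
  have hb := h.bb g5 hIb
  have hqt := tw_of76 h.t
  have hpt := tw_of76' h.t
  have hqp : q ≠ p := ne_of_nb5 h.t.1
  obtain ⟨hqC, hqO⟩ := hb.tw_Co n9 hqb hqt
  obtain ⟨hpC, hpO⟩ := hb.tw_Co n9 hpb hpt
  have hNF : ∀ u, u ∉ G.NF Fa b := fun u hu => by
    have := hb.ch_of g5 hu
    linarith
  rcases hb.cov g5 hqb hqC (tw_not_low11 hqt) with h1 | ⟨v, w, hv, hw, hvq, hwq, hvw⟩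
  · linarith
  have hvt : G.IsTw v := tw_of76 hvw
  have hwt : G.IsTw w := tw_of76' hvw
  have hnvw : v ≠ w := ne_of_nb5 hvw.1
  obtain ⟨hvC, hvO⟩ := hb.tw_Co n9 hv hvt
  obtain ⟨hwC, hwO⟩ := hb.tw_Co n9 hw hwt
  have hvq' : v ≠ q := fun e => G.irr q (e ▸ (mem_nR76.1 hvq).1)
  have hwq' : w ≠ q := fun e => G.irr q (e ▸ (mem_nR76.1 hwq).1)
  have hvp : v ≠ p := fun e => hwq' ((stTwHL_5 G).uniq n9 _ _ _ hvw (e ▸ tw_symm76 h.t))
  have hwp : w ≠ p := fun e =>
    hvq' ((stTwHL_5 G).uniq n9 _ _ _ (tw_symm76 hvw) (e ▸ tw_symm76 h.t))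
  have hkv : (G.I Fa v).card ≤ 1 := by
    by_contra hc
    exact hNF v (mem_NF53.2 ⟨hv, Or.inr (Or.inl (by omega))⟩)
  have hah : G.Hub a := hubHL53 n9 h.hl
  have hnba : ∀ {u : V}, u ∈ G.nR Fa b → G.IsTw u → u ∈ G.nR Fa a := fun {u} hu ht =>
    mem_nR76.2 ⟨HL_sub76 h.hl (mem_nR76.1 hu).1 (fun e => hah.2 (e ▸ ht)), (mem_nR76.1 hu).2⟩
  have hqa := hnba hqb hqt
  have hpa := hnba hpb hpt
  have hva := hnba hv hvt
  have hwa := hnba hw hwt
  have hIa := hb.Ia
  -- `O(b)`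
  have hO : ∀ {u : V}, u ∈ G.pO B b → u = q ∨ u = p ∨ u = v ∨ u = w := by
    intro u hu
    by_contra hc
    rw [not_or, not_or, not_or] at hc
    obtain ⟨c1, c2, c3, c4⟩ := hc
    refine hb.five (L := [u, q, p, v, w]) ?_ ?_ rfl
    · simp [c1, c2, c3, c4, hqp, hnvw, hvq'.symm, hwq'.symm, hvp.symm, hwp.symm]
    · intro x hx
      simp only [List.mem_cons, List.not_mem_nil, or_false] at hx
      rcases hx with rfl | rfl | rfl | rfl | rfl
      exacts [hu, hqO, hpO, hvO, hwO]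
  -- payers
  have hbFu : b ∈ G.FuL Fa a := by
    rw [FuL, mem_filter, HPl, mem_filter]
    refine ⟨⟨mem_nR76.2 ⟨HL_b76 h.hl, h.bR⟩, h.hl.2.1, ?_, Or.inl hk1.le⟩, ?_⟩
    · rintro ⟨b', hb'⟩
      exact (stTwHL_5 G).nomut n9 _ _ _ _ _ hb' h.hl rfl
    · intro hSK
      have hne : G.I Fa b ≠ ∅ := by
        rw [hIb]
        exact singleton_ne_empty _
      rcases hSK with ⟨h1⟩ | ⟨_, h1⟩ | ⟨_, h1⟩ | ⟨_, h1, _, _, h2⟩ | ⟨_, h1, _, h2⟩
      · exact hne h1.I0
      · exact hne h1.I0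
      · exact hne h1.I0
      · have h3 := h1.I1
        rw [hIb, singleton_inj] at h3
        subst h3
        have h4 : a ∈ G.pO B b := by
          rw [h1.out, mem_insert, mem_singleton]
          exact h2
        exact (mem_Co76.1 (mem_inter.1 h4).2).2 (mem_I76.1 hBa).2
      · have h3 := h1.I1
        rw [hIb, singleton_inj] at h3
        subst h3
        have h4 : a ∈ G.pO B b := by
          rw [h1.out, mem_insert, mem_singleton]
          exact h2
        exact (mem_Co76.1 (mem_inter.1 h4).2).2 (mem_I76.1 hBa).2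
  have hFuT : 2 ≤ (G.FuT Fa a).card := by
    have key : ∀ {q p : V}, G.Tw q p → q ∈ G.nR Fa a → p ∈ G.nR Fa a → q ∈ R Fa →
        (G.I Fa q).card ≤ 1 → G.I Fa q ≠ ∅ → 2 ≤ (G.FuT Fa a).card := by
      intro q p ht hq hp hqR hk hne
      have hI := (q_I76 (qs16 G) g5.reg hqR ht).2
      rw [← card_pair (ne_of_nb5 ht.1)]
      refine card_le_card ?_
      intro u hu
      rw [mem_insert, mem_singleton] at hu
      rw [FuT, mem_filter, HPt, mem_filter]
      rcases hu with rfl | rfl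
      · exact ⟨⟨hq, tw_of76 ht, Or.inl hk⟩, fun e => hne e.2.2.1⟩
      · exact ⟨⟨hp, tw_of76' ht, Or.inl (hI ▸ hk)⟩, fun e => hne (hI ▸ e.2.2.1)⟩
    by_cases h1 : G.I Fa q = ∅
    · by_cases h2 : G.I Fa v = ∅
      · exfalso
        have hvR := (mem_nR76.1 hv).2
        have hwI := q_I76 (qs16 G) g5.reg hvR hvw
        have h3 := qq_D0_86 g5 hG.n13 h.t hvw (mem_nR76.1 hvq).1 hvp ⟨hqR, h1⟩
          ⟨hpI.1, hpI.2.trans h1⟩ ⟨hvR, h2⟩ ⟨hwI.1, hwI.2.trans h2⟩
        have h4 : ({p, w, a, b} : Finset V) ⊆ G.nb q ∩ G.nb v := by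
          intro u hu
          simp only [mem_insert, mem_singleton] at hu
          rcases hu with rfl | rfl | rfl | rfl
          · refine mem_inter.2 ⟨h.t.1, G.sym _ _ ?_⟩
            exact Tw_nb5 h.t (mem_nR76.1 hvq).1 hvp
          · exact mem_inter.2 ⟨(mem_nR76.1 hwq).1, hvw.1⟩
          · exact mem_inter.2 ⟨G.sym _ _ (mem_nR76.1 hqa).1, G.sym _ _ (mem_nR76.1 hva).1⟩
          · exact mem_inter.2 ⟨G.sym _ _ h.bq, G.sym _ _ (mem_nR76.1 hv).1⟩
        have h5 : ({p, w, a, b} : Finset V).card = 4 := by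
          have e1 : p ≠ a := fun e => hah.2 (e ▸ hpt)
          have e2 : w ≠ a := fun e => hah.2 (e ▸ hwt)
          have e3 : p ≠ b := fun e => tw_not_low11 hpt (e ▸ h.hl.2.1)
          have e4 : w ≠ b := fun e => tw_not_low11 hwt (e ▸ h.hl.2.1)
          have e5 : a ≠ b := ne_of_nb5 (HL_b76 h.hl)
          rw [card_insert_of_notMem, card_insert_of_notMem, card_pair e5]
          · rw [mem_insert, mem_singleton]
            exact fun e => e.elim e2 e4
          · rw [mem_insert, mem_insert, mem_singleton]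
            exact fun e => e.elim (fun e => hwp e.symm) fun e => e.elim e1 e3
        have := card_le_card h4
        omega
      · exact key hvw hva hwa (mem_nR76.1 hv).2 hkv h2
    · exact key h.t hqa hpa hqR h.kq h1
  have hHD : ((R Fa).filter fun z => G.HD Fa z a).card ≤ 1 := by
    rw [← card_singleton l]
    refine card_le_card ?_
    intro z hz
    rw [mem_filter] at hz
    rw [mem_singleton]
    rcases hz.2 with ⟨h1⟩ | ⟨_, _, _, _, _, _, _, _, _, h1⟩
    · have h2 := b_uniq_5 n9 h1.hl h.hl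
      have h3 := h1.hl
      rw [h2] at h3
      exact HL_uniq53 n9 h.hl h3 fun _ => rfl
    · rw [hIa] at h1
      exact absurd h1 (singleton_ne_empty _)
  have hHS : ((R Fa).filter fun z => G.HS Fa z a).card = 0 := by
    rw [card_eq_zero, filter_eq_empty_iff]
    rintro z - ⟨_, h1, _, _, _, _, h2, _⟩
    have h3 : z ∈ G.nb a := G.sym _ _ h2
    have h4 : z ≠ l := by
      rintro rfl
      have h5 := h1.I0
      rw [h.I1] at h5
      exact singleton_ne_empty _ h5
    rcases HL_sup76 h.hl h3 h4 with e | e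
    · have h5 := h1.I0
      rw [e, hIb] at h5
      exact singleton_ne_empty _ h5
    · rcases hb.mem e h1.lR with e1 | ⟨-, e1⟩
      · exact hah.1 (e1 ▸ h1.low)
      · have hzl := h1.low
        rcases hO e1 with e2 | e2 | e2 | e2
        · exact tw_not_low11 hqt (e2 ▸ hzl)
        · exact tw_not_low11 hpt (e2 ▸ hzl)
        · exact tw_not_low11 hvt (e2 ▸ hzl)
        · exact tw_not_low11 hwt (e2 ▸ hzl)
  have hacc := hub_acc76 haR hah (by rw [hIa, card_singleton])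
  rw [hIa, card_singleton] at hacc
  have hL : 1 ≤ (G.FuL Fa a).card := card_pos.2 ⟨b, hbFu⟩
  have e1 : (1 : ℤ) ≤ ((G.FuL Fa a).card : ℤ) := by exact_mod_cast hL
  have e2 : (2 : ℤ) ≤ ((G.FuT Fa a).card : ℤ) := by exact_mod_cast hFuT
  have e3 : (((R Fa).filter fun z => G.HD Fa z a).card : ℤ) ≤ 1 := by exact_mod_cast hHD
  have e4 : (((R Fa).filter fun z => G.HS Fa z a).card : ℤ) = 0 := by exact_mod_cast hHS
  push_cast at hacc
  linarith

end CG

end Pool.Agent.Lib.MP_e95c01_co.N
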