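import Pool.Agent.Lib.MP_e95c01_co.X.M1_86
import Pool.Agent.Lib.MP_e95c01_co.X.Acc76
import Pool.Agent.Lib.MP_e95c01_co.X.K4_50
import Pool.Agent.Lib.MP_e95c01_co.X.C6a_53

/-!
# Thick torsos: hubs that pay low vertices of type `T6`
-/

namespace Pool.Agent.Lib.MP_e95c01_co.N

open Finset

variable {V : Type} [Fintype V] [DecidableEq V]

namespace CG

variable {G : CG V} {Fa : Finset (Finset V)}

/-! ### full payers -/

/-- a low vertex that pays the hub `x` in no neighbourhood is a full payer, or of type `T4`, and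
then its first pair of twins is a full payer -/
theorem fullow86 (hG : G.Gen5 Fa) {x b : V} (hI : G.I Fa x = ∅)
    (hb : b ∈ G.HPl Fa x) :
    G.Full Fa b x ∨ ∃ q p q' p' y, G.T4s Fa b q p q' p' x y ∧ G.Full Fa q x := by
  classical
  by_cases h : G.SK Fa b x
  · right
    have hne : (G.I Fa x).card ≠ 1 := by rw [hI, card_empty]; omega
    cases h with
    | @t4 l q p q' p' x' y h1 h2 =>
      refine ⟨q, p, q', p', y, h1, Or.inr ⟨p, h1.t, ?_, ?_⟩⟩
      all_goals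
        obtain ⟨B, B', h3, h4, h5⟩ := h1.blobs
        have hq : q ∈ G.nb b := by rw [h1.nb]; simp
        have hqR : q ∈ R Fa := R0_86 h1.lR h1.I0 hq
        have hxq : x ∈ G.nb q := by
          have : x ∈ G.nR Fa q := by rw [h1.nq]; simp
          exact (mem_nR76.1 this).1
        have hpI := q_I76 (qs16 G) hG.reg hqR h1.t
        have hxp : x ≠ p := by
          rintro rfl
          exact h1.hx.2 ⟨q, symm_5 h1.t⟩
        have hxp' : x ∈ G.nb p := Tw_nb5 h1.t hxq hxp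
      · rw [FuT, mem_filter, mem_HPt50]
        refine ⟨⟨mem_nR76.2 ⟨G.sym _ _ hxq, hqR⟩, ⟨p, h1.t⟩, Or.inr (Or.inl ?_)⟩, ?_⟩
        · exact m_empty5 hI
        · intro h6
          have := h6.2.2.1
          rw [h3] at this
          simp at this
      · rw [FuT, mem_filter, mem_HPt50]
        refine ⟨⟨mem_nR76.2 ⟨G.sym _ _ hxp', hpI.1⟩, ⟨q, symm_5 h1.t⟩, Or.inr (Or.inl ?_)⟩, ?_⟩
        · exact m_empty5 hI
        · intro h6
          have := h6.2.2.1
          rw [hpI.2, h3] at this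
          simp at this
    | t6q g h1 h2 h3 h4 h5 h6 => exact absurd h6 hne
    | t6l g h1 h2 h3 => exact absurd h3.2.2.2 hne
    | gam g h1 h2 h3 h4 h5 h6 => exact absurd h6 hne
    | the g h1 h2 h3 h4 => exact absurd h4 hne
  · left
    left
    rw [FuL, mem_filter]
    exact ⟨hb, h⟩

/-- a class near the hub `x` that is not in `W` gives a full payer that is not in `W` -/
theorem third86 (hG : G.Gen6 Fa) (h8a : G.StC8a) {x : V} (hx : x ∈ R Fa) (hh : G.Hub x)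
    (hI : G.I Fa x = ∅) (W : Finset V) (hW : ∀ e f, G.Tw e f → e ∈ W → f ∈ W)
    (hPQ : ∀ e ∈ G.nb x, G.IsTw e → e ∉ W → ∀ u ∈ W, u ∉ G.nb e)
    (hHL : ∀ b e, G.HL x b e → b ∉ W)
    (hT4 : ∀ l q p q' p' y, G.T4s Fa l q p q' p' x y → l ∉ W → q ∉ W)
    {e : V} (he : e ∈ G.nb x) (hc : G.Low e ∨ G.IsTw e) (heW : e ∉ W) :
    ∃ e', G.Full Fa e' x ∧ e' ∉ W := by
  classical
  have hk : (G.I Fa x).card ≤ 1 := by rw [hI, card_empty]; omega
  have hlow : ∀ b, b ∈ G.HPl Fa x → b ∉ W → ∃ e', G.Full Fa e' x ∧ e' ∉ W := by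
    intro b hb hbW
    rcases fullow86 hG.g5 hI hb with h | ⟨q, p, q', p', y, h1, h2⟩
    · exact ⟨b, h, hbW⟩
    · exact ⟨q, h2, hT4 _ _ _ _ _ _ h1 hbW⟩
  rcases hc with hc | hc
  · by_cases hHLe : ∃ b, G.HL x b e
    · obtain ⟨b, hb⟩ := hHLe
      refine hlow b (mem_HPl50.2 ⟨mem_nR76.2 ⟨HL_b76 hb, R0_86 hx hI (HL_b76 hb)⟩, hb.2.1, ?_,
        Or.inr (Or.inl (m_empty5 hI))⟩) (hHL b e hb)
      rintro ⟨b', hb'⟩
      exact (stTwHL_5 G).nomut hG.g5.n9 _ _ _ _ _ hb' hb rfl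
    · exact hlow e (mem_HPl50.2 ⟨mem_nR76.2 ⟨he, R0_86 hx hI he⟩, hc, hHLe,
        Or.inr (Or.inl (m_empty5 hI))⟩) heW
  · obtain ⟨f, hf⟩ := hc
    have heR := R0_86 hx hI he
    have hxf : x ≠ f := by
      rintro rfl
      exact hh.2 ⟨e, symm_5 hf⟩
    have hfx : f ∈ G.nb x := G.sym _ _ (Tw_nb5 hf (G.sym _ _ he) hxf)
    have hfW : f ∉ W := fun h => heW (hW f e (symm_5 hf) h)
    have hpq : ∀ g ∈ G.nb x, G.IsTw g → g ∉ W → G.PQ Fa g x →
        ∃ e', G.Full Fa e' x ∧ e' ∉ W := by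
      intro g h1 h2 h3 h4
      obtain ⟨e', h5, h6⟩ := h8a Fa hG x hx hh hk g h4
      exact ⟨e', h6, fun h7 => hPQ g h1 h2 h3 e' h7 h5⟩
    by_cases h1 : G.PQ Fa e x
    · exact hpq e he ⟨f, hf⟩ heW h1
    by_cases h2 : G.PQ Fa f x
    · exact hpq f hfx ⟨e, symm_5 hf⟩ hfW h2
    refine ⟨e, Or.inr ⟨f, hf, ?_, ?_⟩, heW⟩
    · rw [FuT, mem_filter, mem_HPt50]
      exact ⟨⟨mem_nR76.2 ⟨he, heR⟩, ⟨f, hf⟩, Or.inr (Or.inl (m_empty5 hI))⟩, h1⟩
    · rw [FuT, mem_filter, mem_HPt50]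
      exact ⟨⟨mem_nR76.2 ⟨hfx, R0_86 hx hI hfx⟩, ⟨e, symm_5 hf⟩,
        Or.inr (Or.inl (m_empty5 hI))⟩, h2⟩

/-- the cover of an edge at a hub in no neighbourhood: a class near the hub -/
theorem covhub86 (hG : G.Gen5 Fa) {x w : V} (hx : x ∈ R Fa) (hh : G.Hub x) (hI : G.I Fa x = ∅)
    (hw : w ∈ G.nb x) :
    (∃ e ∈ G.nb x, (G.Low e ∨ G.IsTw e) ∧ w ∈ G.nb e) ∨ G.Low w ∨
      (∃ a ∈ G.nb x, ∃ b, G.LL a b x w) := by
  have hwR : w ∈ G.nR Fa x := mem_nR76.2 ⟨hw, R0_86 hx hI hw⟩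
  rcases cov3_76 (qs16 G) (tor86 hG) hx hwR (m_empty5 hI) with h | h | h | h | h
  · obtain ⟨u, h1, -, h3, h4⟩ := h
    exact Or.inl ⟨u, (mem_nR76.1 h1).1, Or.inl h3, h4⟩
  · obtain ⟨v, v', h1, -, h3, h4, -⟩ := h
    exact Or.inl ⟨v, (mem_nR76.1 h1).1, Or.inr ⟨v', h3⟩, h4⟩
  · obtain ⟨a, b, -, -, h3, -⟩ := h
    exact absurd h3 hh.1
  · obtain ⟨a, b, -, -, h3, -⟩ := h
    exact Or.inr (Or.inl h3)
  · obtain ⟨a, b, h1, -, -, h4⟩ := h
    exact Or.inr (Or.inr ⟨a, (mem_nR76.1 h1).1, b, h4⟩)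

/-- the low vertex of type `T6` has only one low neighbour and one pair of twins -/
theorem T6s.only86 {l l' q p x y z u : V}
    (h : G.T6s Fa l l' q p x y z) (hu : u ∈ G.nb l) :
    (G.Low u → u = l') ∧ (G.IsTw u → u = q ∨ u = p) ∧
      (G.Hub u → u = x ∨ u = y ∨ u = z) := by
  rw [h.nb] at hu
  simp only [mem_insert, mem_singleton] at hu
  have hq : G.IsTw q := ⟨p, h.t⟩
  have hp : G.IsTw p := ⟨q, symm_5 h.t⟩
  refine ⟨fun h1 => ?_, fun h1 => ?_, fun h1 => ?_⟩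
  · rcases hu with rfl | rfl | rfl | rfl | rfl | rfl
    · rfl
    · exact absurd rfl (low_ne86 h.t h1).2
    · exact absurd rfl (low_ne86 h.t h1).1
    exacts [absurd h1 h.hx.1.1, absurd h1 h.hy.1.1, absurd h1 h.hz.1.1]
  · rcases hu with rfl | rfl | rfl | rfl | rfl | rfl
    · obtain ⟨t, h2⟩ := h1
      exact absurd rfl (low_ne86 h2 h.low').2
    · exact Or.inl rfl
    · exact Or.inr rfl
    exacts [absurd h1 h.hx.1.2, absurd h1 h.hy.1.2, absurd h1 h.hz.1.2]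
  · rcases hu with rfl | rfl | rfl | rfl | rfl | rfl
    · exact absurd h.low' h1.1
    · exact absurd hq h1.2
    · exact absurd hp h1.2
    exacts [Or.inl rfl, Or.inr (Or.inl rfl), Or.inr (Or.inr rfl)]

theorem T6s.mem86 {l l' q p x y z : V} (h : G.T6s Fa l l' q p x y z) :
    l' ∈ G.nb l ∧ q ∈ G.nb l ∧ p ∈ G.nb l ∧ x ∈ G.nb l ∧ y ∈ G.nb l ∧ z ∈ G.nb l := by
  rw [h.nb]
  simp

/-- a hub near a low vertex of type `T6` is near its pair or near its low neighbour, or covered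
with `LL` -/
theorem T6s.cov86 (hG : G.Gen5 Fa) {l l' q p x y z g : V} (h : G.T6s Fa l l' q p x y z)
    (hg : g ∈ G.nb l) (hh : G.Hub g) :
    g ∈ G.nb q ∨ g ∈ G.nb l' ∨ ∃ b ∈ R Fa, G.LL l' b l g := by
  have hgR : g ∈ G.nR Fa l := mem_nR76.2 ⟨hg, R0_86 h.lR h.I0 hg⟩
  rcases cov3_76 (qs16 G) (tor86 hG) h.lR hgR (m_empty5 h.I0) with k | k | k | k | k
  · obtain ⟨u, h1, -, h3, h4⟩ := k
    have := (h.only86 (mem_nR76.1 h1).1).1 h3
    subst this
    exact Or.inr (Or.inl h4)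
  · obtain ⟨v, v', h1, h2, h3, h4, h5⟩ := k
    rcases (h.only86 (mem_nR76.1 h1).1).2.1 ⟨v', h3⟩ with rfl | rfl
    · exact Or.inl h4
    · have := uniq_5 hG.n9 h3 (symm_5 h.t)
      subst this
      exact Or.inl h5
  · obtain ⟨a, b, h1, h2, h3, h4, -⟩ := k
    have h5 : G.Hub a := HL_hubT76 hG.n9 h4
    exact absurd ⟨b, h4⟩ (h.ph (mem_nR76.1 h1).1 h5).2.2
  · obtain ⟨a, b, -, -, h3, -⟩ := k
    exact absurd h3 hh.1
  · obtain ⟨a, b, h1, h2, h3, h4⟩ := k
    have := (h.only86 (mem_nR76.1 h1).1).1 h4.1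
    subst this
    exact Or.inr (Or.inr ⟨b, h2, h4⟩)

/-- DOUBLE: the common hubs of `l` and `l'` are not adjacent to the pair -/
theorem dbl86 (hG : G.Gen5 Fa) {l l' q p p' x y z x' y' z' : V}
    (h : G.T6s Fa l l' q p x y z) (h' : G.T6s Fa l' l q p' x' y' z')
    (hq : (G.I Fa q).card = 1) {g : V} (hg : g ∈ G.nb l) (hg' : g ∈ G.nb l') (hh : G.Hub g) :
    g ∉ G.nb q ∧ p' = p := by
  have hpp : p' = p := uniq_5 hG.n9 h'.t h.t
  refine ⟨?_, hpp⟩
  subst hpp
  intro hgq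
  obtain ⟨m1, m2, m3, m4, m5, m6⟩ := h.mem86
  obtain ⟨m1', m2', m3', m4', m5', m6'⟩ := h'.mem86
  have hqR : q ∈ R Fa := R0_86 h.lR h.I0 m2
  have hcard : ({l', q, p', x, y, z} : Finset V).card = 6 := by rw [← h.nb]; exact h.low
  have hcard' : ({l, q, p', x', y', z'} : Finset V).card = 6 := by rw [← h'.nb]; exact h'.low
  have hll := ll_le86 hG.n9 h.low h'.low m1
  -- a hub of `l` that is not near `l'` is near `q`
  have key : ∀ {l l' x y z : V}, G.T6s Fa l l' q p' x y z → (∃ x' y' z',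
      G.T6s Fa l' l q p' x' y' z') → (G.nb l ∩ G.nb l').card ≤ 4 →
      ∃ u, u ∈ G.nb l ∧ u ∈ G.nb q ∧ u ∉ G.nb l' ∧ G.Hub u := by
    intro l l' x y z h ⟨x', y', z', h'⟩ hll
    obtain ⟨m1, m2, m3, m4, m5, m6⟩ := h.mem86
    obtain ⟨m1', m2', m3', m4', m5', m6'⟩ := h'.mem86
    have hcard : ({l', q, p', x, y, z} : Finset V).card = 6 := by rw [← h.nb]; exact h.low
    by_contra hc
    push Not at hc
    have hall : ∀ u ∈ G.nb l, G.Hub u → u ∈ G.nb l' := by
      intro u hu hhu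
      by_contra hn
      rcases h.cov86 hG hu hhu with h1 | h1 | ⟨b, h1, h2⟩
      · exact hc u hu h1 hn hhu
      · exact hn h1
      · have h3 : b ∈ G.nb l' := LL_ab76 h2
        have h4 := (h'.only86 h3).1 h2.2.1
        subst h4
        exact (LL_tb76 h2).2 rfl
    have h1 : ({q, p', x, y, z} : Finset V) ⊆ G.nb l ∩ G.nb l' := by
      intro u hu
      simp only [mem_insert, mem_singleton] at hu
      rw [mem_inter]
      rcases hu with rfl | rfl | rfl | rfl | rfl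
      · exact ⟨m2, m2'⟩
      · exact ⟨m3, m3'⟩
      · exact ⟨m4, hall _ m4 h.hx.1⟩
      · exact ⟨m5, hall _ m5 h.hy.1⟩
      · exact ⟨m6, hall _ m6 h.hz.1⟩
    have h2 := card_le_card h1
    have h3 := card_insert_le l' ({q, p', x, y, z} : Finset V)
    omega
  obtain ⟨u, a1, a2, a3, a4⟩ := key h ⟨x', y', z', h'⟩ hll
  obtain ⟨u', b1, b2, b3, b4⟩ := key h' ⟨x, y, z, h⟩ (by rw [inter_comm]; exact hll)
  -- the pair sees at most four vertices
  have hs := splitM86 hG.reg hqR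
  have h2 : 2 * (G.I Fa q).card ≤ ∑ B ∈ G.I Fa q, G.d q B := by
    rw [card_eq_sum_ones, mul_sum]
    refine sum_le_sum fun B hB => ?_
    have := (stTwHL_5 G).hid Fa hG.reg hG.big q hqR ⟨p', h.t⟩ B hB
    omega
  have h7 := h.t.2.1
  have h3 : ({p', l, l', u, u', g} : Finset V) ⊆ G.nR Fa q := by
    intro w hw
    simp only [mem_insert, mem_singleton] at hw
    rw [mem_nR76]
    rcases hw with rfl | rfl | rfl | rfl | rfl | rfl
    · exact ⟨h.t.1, R0_86 h.lR h.I0 m3⟩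
    · exact ⟨G.sym _ _ m2, h.lR⟩
    · exact ⟨G.sym _ _ m2', h'.lR⟩
    · exact ⟨a2, R0_86 h.lR h.I0 a1⟩
    · exact ⟨b2, R0_86 h'.lR h'.I0 b1⟩
    · exact ⟨hgq, R0_86 h.lR h.I0 hg⟩
  have h4 : ({p', l, l', u, u', g} : Finset V).card = 6 := by
    have e1 : ∀ w, G.Hub w → p' ≠ w := by
      rintro w hw rfl
      exact hw.2 ⟨q, symm_5 h.t⟩
    have e2 : ∀ w, G.Hub w → l ≠ w := by
      rintro w hw rfl
      exact hw.1 h.low
    have e3 : ∀ w, G.Hub w → l' ≠ w := by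
      rintro w hw rfl
      exact hw.1 h.low'
    rw [card_insert_of_notMem, card_insert_of_notMem, card_insert_of_notMem,
      card_insert_of_notMem, card_insert_of_notMem, card_singleton]
    · rw [mem_singleton]
      rintro rfl
      exact b3 hg
    · simp only [mem_insert, mem_singleton, not_or]
      refine ⟨?_, ?_⟩
      · rintro rfl
        exact a3 b1
      · rintro rfl
        exact a3 hg'
    · simp only [mem_insert, mem_singleton, not_or]
      exact ⟨e3 u a4, e3 u' b4, e3 g hh⟩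
    · simp only [mem_insert, mem_singleton, not_or]
      exact ⟨ne_of_nb5 m1, e2 u a4, e2 u' b4, e2 g hh⟩
    · simp only [mem_insert, mem_singleton, not_or]
      exact ⟨Ne.symm (low_ne86 h.t h.low).1, Ne.symm (low_ne86 h.t h.low').1, e1 u a4,
        e1 u' b4, e1 g hh⟩
  have h5 := card_le_card h3
  omega

/-- the account of the two full payers and a third one -/
theorem acc_a86 {x l q p e : V} (hl : l ∈ G.FuL Fa x) (hq : q ∈ G.FuT Fa x)
    (hp : p ∈ G.FuT Fa x) (hqp : q ≠ p) (hW : ∀ e f, G.Tw e f → e ∈ ({l, q, p} : Finset V) →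
      f ∈ ({l, q, p} : Finset V)) (he : G.Full Fa e x) (heW : e ∉ ({l, q, p} : Finset V)) :
    12 ≤ 4 * ((G.FuL Fa x).card : ℤ) + 2 * ((G.FuT Fa x).card : ℤ) := by
  have hT : 2 ≤ (G.FuT Fa x).card := two_le5 hq hp hqp
  have hL : 1 ≤ (G.FuL Fa x).card := card_pos.2 ⟨l, hl⟩
  have h0 := heW
  simp only [mem_insert, mem_singleton, not_or] at heW
  rcases he with he | ⟨f, h1, h2, h3⟩
  · have := two_le5 hl he (Ne.symm heW.1)
    omega
  · have h4 : f ∉ ({l, q, p} : Finset V) := fun h => h0 (hW f e (symm_5 h1) h)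
    simp only [mem_insert, mem_singleton, not_or] at h4
    have := four_le5 hq hp h2 h3 hqp (Ne.symm heW.2.1) (Ne.symm h4.2.1) (Ne.symm heW.2.2)
      (Ne.symm h4.2.2) (ne_of_nb5 h1.1)
    omega

theorem acc_b86 {x l l' e : V} (hl : l ∈ G.FuL Fa x) (hl' : l' ∈ G.FuL Fa x) (hne : l ≠ l')
    (he : G.Full Fa e x) (heW : e ∉ ({l, l'} : Finset V)) :
    12 ≤ 4 * ((G.FuL Fa x).card : ℤ) + 2 * ((G.FuT Fa x).card : ℤ) := by
  have hL : 2 ≤ (G.FuL Fa x).card := two_le5 hl hl' hne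
  simp only [mem_insert, mem_singleton, not_or] at heW
  rcases he with he | ⟨f, h1, h2, h3⟩
  · have h5 : ({l, l', e} : Finset V) ⊆ G.FuL Fa x := by
      intro u hu
      simp only [mem_insert, mem_singleton] at hu
      rcases hu with rfl | rfl | rfl
      exacts [hl, hl', he]
    have h6 := card_le_card h5
    rw [card_insert_of_notMem, card_insert_of_notMem, card_singleton] at h6
    · omega
    · simpa using Ne.symm heW.2
    · simp only [mem_insert, mem_singleton, not_or]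
      exact ⟨hne, Ne.symm heW.1⟩
  · have := two_le5 h2 h3 (ne_of_nb5 h1.1)
    omega

/-- structure of the case (A*) -/
def Ast86 (G : CG V) : Prop := ∀ Fa, G.Gen6 Fa → ∀ l l' q p x y z,
  G.T6s Fa l l' q p x y z → (G.I Fa q).card = 1 → G.NoQ Fa l q → G.ch5 Fa l' < 2 →
  (∀ h, ¬ G.Good Fa l l' h) → ∃ h h', G.nR Fa q = {p, l, l', h, h'} ∧ h ∈ G.nb l ∧
    h' ∈ G.nb l ∧ h ≠ h' ∧ h ∉ G.nb l' ∧ h' ∉ G.nb l' ∧ G.Hub h ∧ G.Hub h'

/-- (A*): a third full payer -/
theorem x1_86 (hG : G.Gen6 Fa) (h8a : G.StC8a) (hA : G.Ast86) {l l' q p x y z g : V}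
    (h : G.T6s Fa l l' q p x y z) (hk : (G.I Fa q).card = 1) (hnq : G.NoQ Fa l q)
    (hch : G.ch5 Fa l' < 2) (hgd : ∀ h, ¬ G.Good Fa l l' h) (hgl : g ∈ G.nb l)
    (hgq : g ∈ G.nb q) (hh : G.Hub g) (hI : G.I Fa g = ∅) :
    ∃ e, G.Full Fa e g ∧ e ∉ ({l, q, p} : Finset V) := by
  have hg5 := hG.g5
  obtain ⟨m1, m2, m3, m4, m5, m6⟩ := h.mem86
  have hqR : q ∈ R Fa := R0_86 h.lR h.I0 m2
  have hgR : g ∈ R Fa := R0_86 h.lR h.I0 hgl
  have hl'R : l' ∈ R Fa := R0_86 h.lR h.I0 m1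
  have hgp : g ≠ p := by
    rintro rfl
    exact hh.2 ⟨q, symm_5 h.t⟩
  obtain ⟨k, k', hnR, k1, k2, k3, k4, k5, k6, k7⟩ := hA Fa hG l l' q p x y z h hk hnq hch hgd
  -- `g` is one of the two hubs
  have key : ∃ k', G.nR Fa q = {p, l, l', g, k'} ∧ k' ∈ G.nb l ∧ g ≠ k' ∧ g ∉ G.nb l' ∧
      k' ∉ G.nb l' ∧ G.Hub k' := by
    have h1 : g ∈ G.nR Fa q := mem_nR76.2 ⟨hgq, hgR⟩
    rw [hnR] at h1
    simp only [mem_insert, mem_singleton] at h1
    rcases h1 with h1 | h1 | h1 | h1 | h1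
    · exact absurd h1 hgp
    · exact absurd h.low (h1 ▸ hh.1)
    · exact absurd h.low' (h1 ▸ hh.1)
    · subst h1
      exact ⟨k', hnR, k2, k3, k4, k5, k7⟩
    · subst h1
      refine ⟨k, ?_, k1, k3.symm, k5, k4, k6⟩
      rw [hnR]
      ext u
      simp only [mem_insert, mem_singleton]
      constructor <;> rintro (h | h | h | h | h) <;> simp [h]
  clear hnR k1 k2 k3 k4 k5 k6 k7
  obtain ⟨k', hnR, k2, k3, k4, k5, k7⟩ := key
  have hcl : ∀ e f, G.Tw e f → e ∈ ({l, q, p} : Finset V) → f ∈ ({l, q, p} : Finset V) := by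
    intro e f hef he
    simp only [mem_insert, mem_singleton] at he ⊢
    rcases he with rfl | rfl | rfl
    · exact absurd rfl (low_ne86 hef h.low).2
    · exact Or.inr (Or.inr (uniq_5 hg5.n9 hef h.t))
    · exact Or.inr (Or.inl (uniq_5 hg5.n9 hef (symm_5 h.t)))
  -- a vertex `w` of `N(g)` that is not adjacent to `l` or `q`
  obtain ⟨w, hw, hwl, hwW⟩ : ∃ w ∈ G.nb g, w ∉ G.nb l ∧ w ∉ ({l, q, p} : Finset V) := by
    by_contra hc
    push Not at hc
    have h1 : G.nb g ⊆ insert l ((G.nb l).erase g |>.erase l') := by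
      intro u hu
      rw [mem_insert, mem_erase, mem_erase]
      by_cases h2 : u = l
      · exact Or.inl h2
      · right
        refine ⟨?_, (ne_of_nb5 hu).symm, ?_⟩
        · rintro rfl
          exact k4 (G.sym _ _ hu)
        · by_contra h3
          have h4 := hc u hu h3
          simp only [mem_insert, mem_singleton] at h4
          rcases h4 with h4 | h4 | h4
          · exact h2 h4
          · subst h4; exact h3 m2
          · subst h4; exact h3 m3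
    have h2 := card_le_card h1
    have h3 : ((G.nb l).erase g |>.erase l').card = 4 := by
      have hne : l' ≠ g := by
        rintro rfl
        exact hh.1 h.low'
      rw [card_erase_of_mem (mem_erase.2 ⟨hne, m1⟩), card_erase_of_mem hgl]
      have : (G.nb l).card = 6 := h.low
      omega
    have h4 := card_insert_le l ((G.nb l).erase g |>.erase l')
    have h5 : 6 ≤ (G.nb g).card := G.deg g
    have h6 : (G.nb g).card ≠ 6 := hh.1
    omega
  have hwR : w ∈ R Fa := R0_86 hgR hI hw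
  -- a third class near `g`
  have hcls : ∃ e ∈ G.nb g, (G.Low e ∨ G.IsTw e) ∧ e ∉ ({l, q, p} : Finset V) := by
    rcases covhub86 hg5 hgR hh hI hw with ⟨e, h1, h2, h3⟩ | h1 | ⟨a, h1, b, h2⟩
    · refine ⟨e, h1, h2, ?_⟩
      intro he
      simp only [mem_insert, mem_singleton] at he
      have hq' : w ∉ G.nb q := by
        intro h4
        have h5 : w ∈ G.nR Fa q := mem_nR76.2 ⟨h4, hwR⟩
        rw [hnR] at h5
        simp only [mem_insert, mem_singleton] at h5 hwW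
        rcases h5 with h5 | h5 | h5 | h5 | h5
        · exact hwW (Or.inr (Or.inr h5))
        · exact hwW (Or.inl h5)
        · subst h5; exact k4 (G.sym _ _ hw)
        · exact ne_of_nb5 hw h5.symm
        · subst h5; exact hwl k2
      rcases he with rfl | rfl | rfl
      · exact hwl h3
      · exact hq' h3
      · refine hq' (Tw_nb5 (symm_5 h.t) h3 ?_)
        rintro rfl
        simp at hwW
    · exact ⟨w, hw, Or.inl h1, hwW⟩
    · refine ⟨a, h1, Or.inl h2.1, ?_⟩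
      intro ha
      simp only [mem_insert, mem_singleton] at ha
      rcases ha with rfl | rfl | rfl
      · have h3 : b ∈ G.nb a := LL_ab76 h2
        have h4 := (h.only86 h3).1 h2.2.1
        subst h4
        rcases LL_to76 h2 k2 (Ne.symm k3) with h5 | h5
        · exact absurd h.low' (h5 ▸ k7.1)
        · exact k5 h5
      · exact (low_ne86 h.t h2.1).2 rfl
      · exact (low_ne86 h.t h2.1).1 rfl
  obtain ⟨e, he, hec, heW⟩ := hcls
  refine third86 hG h8a hgR hh hI _ hcl ?_ ?_ ?_ he hec heW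
  · intro e he hec heW u hu hue
    simp only [mem_insert, mem_singleton] at hu heW
    have heR := R0_86 hgR hI he
    have hq' : e ∉ G.nb q := by
      intro h4
      have h5 : e ∈ G.nR Fa q := mem_nR76.2 ⟨h4, heR⟩
      rw [hnR] at h5
      simp only [mem_insert, mem_singleton] at h5
      rcases h5 with h5 | h5 | h5 | h5 | h5
      · exact heW (Or.inr (Or.inr h5))
      · exact heW (Or.inl h5)
      · subst h5; exact k4 (G.sym _ _ he)
      · exact ne_of_nb5 he h5.symm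
      · subst h5; exact k7.2 hec
    rcases hu with rfl | rfl | rfl
    · rcases (h.only86 (G.sym _ _ hue)).2.1 hec with h5 | h5
      · exact heW (Or.inr (Or.inl h5))
      · exact heW (Or.inr (Or.inr h5))
    · exact hq' (G.sym _ _ hue)
    · refine hq' (Tw_nb5 (symm_5 h.t) (G.sym _ _ hue) ?_)
      rintro rfl
      exact heW (Or.inr (Or.inl rfl))
  · intro b e hb hbW
    simp only [mem_insert, mem_singleton] at hbW
    rcases hbW with rfl | rfl | rfl
    · have h5 : l' ∈ G.nb g := HL_sub76 hb m1 (fun e => hh.1 (e ▸ h.low'))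
      exact k4 (G.sym _ _ h5)
    · exact (low_ne86 h.t hb.2.1).2 rfl
    · exact (low_ne86 h.t hb.2.1).1 rfl
  · intro l2 q2 p2 q2' p2' y2 h4 hl2 hq2
    simp only [mem_insert, mem_singleton] at hq2 hl2
    have hl2q : l2 ∈ G.nR Fa q2 := by rw [h4.nq]; simp
    have hgl2 : g ∈ G.nb l2 := by rw [h4.nb]; simp
    have hl2' : l2 ≠ l' := by
      rintro rfl
      exact k4 hgl2
    have hno : l2 ∉ G.nb q := by
      intro h5
      have h6 : l2 ∈ G.nR Fa q := mem_nR76.2 ⟨h5, h4.lR⟩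
      rw [hnR] at h6
      simp only [mem_insert, mem_singleton] at h6
      rcases h6 with h6 | h6 | h6 | h6 | h6
      · exact hl2 (Or.inr (Or.inr h6))
      · exact hl2 (Or.inl h6)
      · exact hl2' h6
      · exact hh.1 (h6 ▸ h4.low)
      · exact k7.1 (h6 ▸ h4.low)
    rcases hq2 with rfl | rfl | rfl
    · exact (low_ne86 h4.t h.low).2 rfl
    · exact hno (mem_nR76.1 hl2q).1
    · refine hno (Tw_nb5 (symm_5 h.t) (mem_nR76.1 hl2q).1 ?_)
      rintro rfl
      exact hl2 (Or.inr (Or.inl rfl))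

/-- DOUBLE: a third full payer -/
theorem x2_86 (hG : G.Gen6 Fa) (h8a : G.StC8a) {l l' q p p' x y z x' y' z' g : V}
    (h : G.T6s Fa l l' q p x y z) (h' : G.T6s Fa l' l q p' x' y' z')
    (hk : (G.I Fa q).card = 1) (hgl : g ∈ G.nb l)
    (hgl' : g ∈ G.nb l') (hh : G.Hub g) (hI : G.I Fa g = ∅) :
    ∃ e, G.Full Fa e g ∧ e ∉ ({l, l'} : Finset V) := by
  have hg5 := hG.g5
  obtain ⟨hgq, hpp⟩ := dbl86 hg5 h h' hk hgl hgl' hh
  subst hpp
  obtain ⟨m1, m2, m3, m4, m5, m6⟩ := h.mem86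
  obtain ⟨m1', m2', m3', m4', m5', m6'⟩ := h'.mem86
  have hqR : q ∈ R Fa := R0_86 h.lR h.I0 m2
  have hgR : g ∈ R Fa := R0_86 h.lR h.I0 hgl
  have hgp : g ≠ p' := by
    rintro rfl
    exact hh.2 ⟨q, symm_5 h.t⟩
  have hgq' : g ≠ q := by
    rintro rfl
    exact hh.2 ⟨p', h.t⟩
  have hgp' : g ∉ G.nb p' := fun h1 => hgq (Tw_nb5 (symm_5 h.t) h1 hgq')
  have hcl : ∀ e f, G.Tw e f → e ∈ ({l, l'} : Finset V) → f ∈ ({l, l'} : Finset V) := by
    intro e f hef he
    simp only [mem_insert, mem_singleton] at he ⊢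
    rcases he with rfl | rfl
    · exact absurd rfl (low_ne86 hef h.low).2
    · exact absurd rfl (low_ne86 hef h.low').2
  -- a vertex `w` of `N(g)` that is not adjacent to `l` or `l'`
  obtain ⟨w, hw, hwl, hwl', hwW⟩ : ∃ w ∈ G.nb g, w ∉ G.nb l ∧ w ∉ G.nb l' ∧
      w ∉ ({l, l'} : Finset V) := by
    by_contra hc
    push Not at hc
    have hub3 : ∀ {l l' x y z : V}, G.T6s Fa l l' q p' x y z → g ∈ G.nb l →
        ((((G.nb l).erase g).erase q).erase p').erase l' = ((((G.nb l).erase g).erase q).erase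
          p').erase l' ∧ (((((G.nb l).erase g).erase q).erase p').erase l').card = 2 := by
      intro l l' x y z h hgl
      obtain ⟨m1, m2, m3, m4, m5, m6⟩ := h.mem86
      have e1 : q ≠ g := Ne.symm hgq'
      have e2 : p' ≠ g := Ne.symm hgp
      have e3 : p' ≠ q := Ne.symm (ne_of_nb5 h.t.1)
      have e4 : l' ≠ g := by
        rintro rfl
        exact hh.1 h.low'
      have e5 : l' ≠ q := (low_ne86 h.t h.low').2
      have e6 : l' ≠ p' := (low_ne86 h.t h.low').1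
      have h6 : (G.nb l).card = 6 := h.low
      refine ⟨rfl, ?_⟩
      rw [card_erase_of_mem, card_erase_of_mem, card_erase_of_mem, card_erase_of_mem hgl, h6]
      · exact mem_erase.2 ⟨e1, m2⟩
      · exact mem_erase.2 ⟨e3, mem_erase.2 ⟨e2, m3⟩⟩
      · exact mem_erase.2 ⟨e6, mem_erase.2 ⟨e5, mem_erase.2 ⟨e4, m1⟩⟩⟩
    have h1 : G.nb g ⊆ insert l (insert l' ((((((G.nb l).erase g).erase q).erase p').erase l') ∪
        (((((G.nb l').erase g).erase q).erase p').erase l))) := by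
      intro u hu
      have e1 : u ≠ g := (ne_of_nb5 hu).symm
      have e2 : u ≠ q := by
        rintro rfl
        exact hgq (G.sym _ _ hu)
      have e3 : u ≠ p' := by
        rintro rfl
        exact hgp' (G.sym _ _ hu)
      by_cases h2 : u = l
      · rw [h2]; exact mem_insert_self _ _
      by_cases h3 : u = l'
      · rw [h3]; exact mem_insert_of_mem (mem_insert_self _ _)
      refine mem_insert_of_mem (mem_insert_of_mem (mem_union.2 ?_))
      by_cases h4 : u ∈ G.nb l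
      · exact Or.inl (mem_erase.2 ⟨h3, mem_erase.2 ⟨e3, mem_erase.2 ⟨e2, mem_erase.2
          ⟨e1, h4⟩⟩⟩⟩)
      by_cases h5 : u ∈ G.nb l'
      · exact Or.inr (mem_erase.2 ⟨h2, mem_erase.2 ⟨e3, mem_erase.2 ⟨e2, mem_erase.2
          ⟨e1, h5⟩⟩⟩⟩)
      have h6 := hc u hu h4 h5
      simp only [mem_insert, mem_singleton] at h6
      exact absurd h6 (by rintro (h | h); exacts [h2 h, h3 h])
    have h2 := card_le_card h1
    have h3 := (hub3 h hgl).2
    have h4 := (hub3 h' hgl').2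
    have h5 := card_union_le (((((G.nb l).erase g).erase q).erase p').erase l')
      (((((G.nb l').erase g).erase q).erase p').erase l)
    have h6 := card_insert_le l' ((((((G.nb l).erase g).erase q).erase p').erase l') ∪
        (((((G.nb l').erase g).erase q).erase p').erase l))
    have h7 := card_insert_le l (insert l' ((((((G.nb l).erase g).erase q).erase p').erase l') ∪
        (((((G.nb l').erase g).erase q).erase p').erase l)))
    have h8 : 6 ≤ (G.nb g).card := G.deg g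
    have h9 : (G.nb g).card ≠ 6 := hh.1
    omega
  -- a third class near `g`
  have hcls : ∃ e ∈ G.nb g, (G.Low e ∨ G.IsTw e) ∧ e ∉ ({l, l'} : Finset V) := by
    rcases covhub86 hg5 hgR hh hI hw with ⟨e, h1, h2, h3⟩ | h1 | ⟨a, h1, b, h2⟩
    · refine ⟨e, h1, h2, ?_⟩
      intro he
      simp only [mem_insert, mem_singleton] at he
      rcases he with rfl | rfl
      · exact hwl h3
      · exact hwl' h3
    · exact ⟨w, hw, Or.inl h1, hwW⟩
    · refine ⟨a, h1, Or.inl h2.1, ?_⟩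
      intro ha
      simp only [mem_insert, mem_singleton] at ha
      have h3 : b ∈ G.nb a := LL_ab76 h2
      have h6 : w ∈ G.nb b := LL_u76 h2
      rcases ha with rfl | rfl
      · have h4 := (h.only86 h3).1 h2.2.1
        subst h4
        exact hwl' h6
      · have h4 := (h'.only86 h3).1 h2.2.1
        subst h4
        exact hwl h6
  obtain ⟨e, he, hec, heW⟩ := hcls
  refine third86 hG h8a hgR hh hI _ hcl ?_ ?_ ?_ he hec heW
  · intro e he hec heW u hu hue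
    simp only [mem_insert, mem_singleton] at hu heW
    have h5 : e = q ∨ e = p' := by
      rcases hu with rfl | rfl
      · exact (h.only86 (G.sym _ _ hue)).2.1 hec
      · exact (h'.only86 (G.sym _ _ hue)).2.1 hec
    rcases h5 with rfl | rfl
    · exact hgq (G.sym _ _ he)
    · exact hgp' (G.sym _ _ he)
  · intro b e hb hbW
    simp only [mem_insert, mem_singleton] at hbW
    have h5 : q ∈ G.nb b := by
      rcases hbW with rfl | rfl
      · exact m2
      · exact m2'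
    exact hgq (G.sym _ _ (HL_sub76 hb h5 (Ne.symm hgq')))
  · intro l2 q2 p2 q2' p2' y2 h4 hl2 hq2
    simp only [mem_insert, mem_singleton] at hq2
    rcases hq2 with rfl | rfl
    · exact (low_ne86 h4.t h.low).2 rfl
    · exact (low_ne86 h4.t h.low').2 rfl

/-- a twin vertex in one neighbourhood with two low neighbours in no neighbourhood -/
theorem rich86 (hG : G.Gen5 Fa) {q p l l2 : V} (hq : q ∈ R Fa) (ht : G.Tw q p)
    (hk : (G.I Fa q).card = 1) (hl : l ∈ G.nb q) (hlow : G.Low l) (hlR : l ∈ R Fa)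
    (hlI : G.I Fa l = ∅) (hl2 : l2 ∈ G.nb q) (hlow2 : G.Low l2) (hl2R : l2 ∈ R Fa)
    (hl2I : G.I Fa l2 = ∅) (hne : l ≠ l2) : 1 ≤ G.ch5 Fa q := by
  classical
  obtain ⟨B, hB⟩ := card_eq_one.1 hk
  have h1 := tw_lb53 hG hq ⟨p, ht⟩ hB
  have h2 := e1q_86 hG ht hq hB
  have h3 : 2 ≤ (G.NO Fa q).card := by
    refine two_le5 (a := l) (b := l2) ?_ ?_ hne <;> rw [NO, mem_filter, mem_nR76]
    · exact ⟨⟨hl, hlR⟩, hlow, m_empty5 hlI⟩
    · exact ⟨⟨hl2, hl2R⟩, hlow2, m_empty5 hl2I⟩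
  obtain ⟨h4, h5⟩ := fg_tw53 (G := G) ⟨p, ht⟩ hB
  by_cases h7 : G.RF (G.Co B) q
  · have h9 : G.d q (G.Co B) = 4 := (RF_type16 h7).2.2.1
    omega
  · have h8 : 0 ≤ G.fg5 Fa q := by
      by_contra h
      exact h7 (h5 (by omega))
    omega

/-- a low vertex of type `T6` is not of type `T4` and not in a neighbourhood -/
theorem T6s.notSK86 (hG : G.Gen6 Fa) {l l' q p x y z g : V} (h : G.T6s Fa l l' q p x y z)
    (h1 : (G.I Fa g).card ≠ 1 ∨ ((G.I Fa q).card = 1 ∧ 1 ≤ G.ch5 Fa q ∧ 1 ≤ G.ch5 Fa p ∧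
      g ∉ G.nb q)) (hg : G.Hub g) : ¬ G.SK Fa l g := by
  have hg5 := hG.g5
  obtain ⟨m1, m2, m3, m4, m5, m6⟩ := h.mem86
  intro hS
  have hqR : q ∈ R Fa := R0_86 h.lR h.I0 m2
  have hpI := q_I76 (qs16 G) hg5.reg hqR h.t
  cases hS with
  | @t4 _ q2 p2 q2' p2' _ y2 h2 h3 =>
    have h4 := m1
    rw [h2.nb] at h4
    simp only [mem_insert, mem_singleton] at h4
    rcases h4 with h4 | h4 | h4 | h4 | h4 | h4
    · exact (low_ne86 h2.t h.low').2 h4
    · exact (low_ne86 h2.t h.low').1 h4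
    · exact (low_ne86 h2.t' h.low').2 h4
    · exact (low_ne86 h2.t' h.low').1 h4
    · exact h2.hx.1 (h4 ▸ h.low')
    · exact h2.hy.1 (h4 ▸ h.low')
  | @t6q _ l2 q2 p2 x2 y2 z2 _ h2 h3 h4 h5 h6 h7 =>
    rcases h1 with h1 | ⟨k1, k2, k3, k4⟩
    · exact h1 h7
    · have h8 := (h.only86 h2.mem86.2.1).2.1 ⟨p2, h2.t⟩
      rcases h8 with rfl | rfl
      · exact k4 h5
      · refine k4 (Tw_nb5 (symm_5 h.t) h5 ?_)
        rintro rfl
        exact hg.2 ⟨_, h.t⟩
  | @t6l _ l2 q2 p2 x2 y2 z2 _ h2 h3 h4 =>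
    rcases h1 with h1 | ⟨k1, k2, k3, k4⟩
    · exact h1 h4.2.2.2
    · have h8 := (h.only86 h2.mem86.2.1).2.1 ⟨p2, h2.t⟩
      rcases h3.2 with h9 | h9
      · rcases h8 with rfl | rfl
        · rw [h9, card_empty] at k1; omega
        · rw [← hpI.2, h9, card_empty] at k1; omega
      · rcases h8 with rfl | rfl <;> omega
  | gam _ h2 h3 h4 h5 h6 h7 =>
    have := h2.I1
    rw [h.I0] at this
    exact absurd this.symm (singleton_ne_empty _)
  | the _ h2 h3 h4 h5 =>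
    have := h2.I1
    rw [h.I0] at this
    exact absurd this.symm (singleton_ne_empty _)

theorem T6s.fuL86 (hG : G.Gen6 Fa) {l l' q p x y z g : V} (h : G.T6s Fa l l' q p x y z)
    (h1 : (G.I Fa g).card ≠ 1 ∨ ((G.I Fa q).card = 1 ∧ 1 ≤ G.ch5 Fa q ∧ 1 ≤ G.ch5 Fa p ∧
      g ∉ G.nb q)) (hgl : g ∈ G.nb l) (hg : G.Hub g) : l ∈ G.FuL Fa g := by
  classical
  rw [FuL, mem_filter, mem_HPl50, mem_nR76]
  refine ⟨⟨⟨G.sym _ _ hgl, h.lR⟩, h.low, (h.ph hgl hg).2.2, Or.inl ?_⟩, h.notSK86 hG h1 hg⟩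
  rw [h.I0, card_empty]
  omega

theorem T6s.fuT86 (hG : G.Gen6 Fa) {l l' q p x y z g : V} (h : G.T6s Fa l l' q p x y z)
    (hk : (G.I Fa q).card = 1) (hgq : g ∈ G.nb q) (hg : G.Hub g) :
    q ∈ G.FuT Fa g ∧ p ∈ G.FuT Fa g := by
  classical
  have hg5 := hG.g5
  obtain ⟨m1, m2, m3, m4, m5, m6⟩ := h.mem86
  have hqR : q ∈ R Fa := R0_86 h.lR h.I0 m2
  have hpI := q_I76 (qs16 G) hg5.reg hqR h.t
  have hgp : g ≠ p := by
    rintro rfl
    exact hg.2 ⟨q, symm_5 h.t⟩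
  constructor <;> rw [FuT, mem_filter, mem_HPt50, mem_nR76]
  · refine ⟨⟨⟨G.sym _ _ hgq, hqR⟩, ⟨p, h.t⟩, Or.inl (by omega)⟩, ?_⟩
    intro h2
    rw [h2.2.2.1, card_empty] at hk
    omega
  · refine ⟨⟨⟨G.sym _ _ (Tw_nb5 h.t hgq hgp), hpI.1⟩, ⟨q, symm_5 h.t⟩,
      Or.inl (by rw [hpI.2]; omega)⟩, ?_⟩
    intro h2
    have := h2.2.2.1
    rw [hpI.2] at this
    rw [this, card_empty] at hk
    omega

/-- facts about a claim of type DOUBLE -/
theorem hs86 (hG : G.Gen6 Fa) {l g : V} (h : G.HS Fa l g) : ∃ l' q p x y z x' y' z',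
    G.T6s Fa l l' q p x y z ∧ G.T6s Fa l' l q p x' y' z' ∧ (G.I Fa q).card = 1 ∧
    g ∈ G.nb l ∧ g ∈ G.nb l' ∧ G.Hub g ∧ G.HS Fa l' g ∧ l ∈ G.FuL Fa g ∧ l' ∈ G.FuL Fa g := by
  have hg5 := hG.g5
  cases h with
  | @dbl l' q p x y z _ h h1 h2 h3 h4 h5 h6 h7 =>
    obtain ⟨k1, ⟨p', x', y', z', h'⟩, k3⟩ := h4
    have hpp : p' = p := uniq_5 hg5.n9 h'.t h.t
    subst hpp
    obtain ⟨m1, m2, m3, m4, m5, m6⟩ := h.mem86
    obtain ⟨m1', m2', m3', m4', m5', m6'⟩ := h'.mem86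
    have hqR : q ∈ R Fa := R0_86 h.lR h.I0 m2
    have hpI := q_I76 (qs16 G) hg5.reg hqR h.t
    have hgq := (dbl86 hg5 h h' h1 h5 h6 h7).1
    have c1 := rich86 hg5 hqR h.t h1 (G.sym _ _ m2) h.low h.lR h.I0 (G.sym _ _ m2') h'.low
      h'.lR h'.I0 (ne_of_nb5 m1)
    have c2 := rich86 hg5 hpI.1 (symm_5 h.t) (by rw [hpI.2]; exact h1) (G.sym _ _ m3) h.low
      h.lR h.I0 (G.sym _ _ m3') h'.low h'.lR h'.I0 (ne_of_nb5 m1)
    refine ⟨l', q, p', x, y, z, x', y', z', h, h', h1, h5, h6, h7, ?_,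
      h.fuL86 hG (Or.inr ⟨h1, c1, c2, hgq⟩) h5 h7, h'.fuL86 hG (Or.inr ⟨h1, c1, c2, hgq⟩) h6 h7⟩
    exact HS.dbl g h' h1 k3 h3 ⟨k1, ⟨p', x, y, z, h⟩, h2⟩ h6 h5 h7

/-- C8i -/
theorem stC8i_86 (G : CG V) (h8a : G.StC8a) (h8h : G.StC8h) (hA : G.Ast86) : G.StC8i := by
  classical
  intro Fa hG x hx hh hcl
  have hg5 := hG.g5
  by_cases hE : ∃ B l b q p, G.Eta Fa B l x b q p ∧ G.ch5 Fa l < 0 ∧ G.ch5 Fa b < 2
  · obtain ⟨B, l, b, q, p, h1, h2, h3⟩ := hE
    exact h8h Fa hG B l x b q p h1 h2 h3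
  have hHD : ∀ l, G.HD Fa l x → ∃ l' q p x1 y1 z1, G.T6s Fa l l' q p x1 y1 z1 ∧
      (G.I Fa q).card = 1 ∧ G.NoQ Fa l q ∧ G.ch5 Fa l' < 2 ∧ (∀ h, ¬ G.Good Fa l l' h) ∧
      x ∈ G.nb l ∧ x ∈ G.nb q ∧ G.I Fa x = ∅ := by
    intro l hl
    rcases hl with ⟨h, h1, h2⟩ | ⟨_, h, h1, h2, h3, h4, h5, h6, h7, h8⟩
    · exact absurd ⟨_, _, _, _, _, h, h1, h2⟩ hE
    · exact ⟨_, _, _, _, _, _, h, h1, h2, h3, h4, h5, h6, h8⟩
  have hk : (G.I Fa x).card ≤ 1 := by
    obtain ⟨l0, h1 | ⟨h1, -⟩⟩ := hcl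
    · obtain ⟨l', q, p, x1, y1, z1, -, -, -, h2, -, -, h5, -, h7, -⟩ := hs86 hG h1
      exact (h2.ph h5 h7).2.1
    · obtain ⟨l', q, p, x1, y1, z1, -, -, -, -, -, -, -, h8⟩ := hHD l0 h1
      rw [h8, card_empty]
      omega
  have hacc := hub_acc76 (G := G) (Fa := Fa) hx hh hk
  set HDs := (R Fa).filter fun l => G.HD Fa l x with hHDs
  set HSs := (R Fa).filter fun l => G.HS Fa l x with hHSs
  suffices h : 0 ≤ 4 * ((G.I Fa x).card : ℤ) - 8 + 4 * ((G.FuL Fa x).card : ℤ) +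
      2 * ((G.FuT Fa x).card : ℤ) - 4 * (HDs.card : ℤ) - 2 * (HSs.card : ℤ) by
    omega
  -- the claimants pay `x`
  have f1 : HDs ⊆ G.FuL Fa x := by
    intro l hl
    obtain ⟨l', q, p, x1, y1, z1, h, -, -, -, -, h5, -, h7⟩ := hHD l (mem_filter.1 hl).2
    exact h.fuL86 hG (Or.inl (by rw [h7, card_empty]; omega)) h5 hh
  have f2 : HSs ⊆ G.FuL Fa x := by
    intro l hl
    obtain ⟨l', q, p, x1, y1, z1, -, -, -, -, -, -, -, -, -, -, h8, -⟩ :=
      hs86 hG (mem_filter.1 hl).2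
    exact h8
  have f3 : Disjoint HDs HSs := by
    rw [disjoint_left]
    intro l hl hl'
    obtain ⟨l', q, p, x1, y1, z1, h, h1, h2, -, -, -, -, -⟩ := hHD l (mem_filter.1 hl).2
    obtain ⟨k', q2, p2, x2, y2, z2, x3, y3, z3, k, kk, k1, -, -, -, -, -, -⟩ :=
      hs86 hG (mem_filter.1 hl').2
    have hqR : q ∈ R Fa := R0_86 h.lR h.I0 h.mem86.2.1
    have e1 : k' = l' := (h.only86 k.mem86.1).1 k.low'
    subst e1
    have hqk : q ∈ G.nb k' := by
      rcases (h.only86 k.mem86.2.1).2.1 ⟨p2, k.t⟩ with e2 | e2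
      · subst e2
        exact kk.mem86.2.1
      · subst e2
        have e3 := uniq_5 hg5.n9 k.t (symm_5 h.t)
        subst e3
        exact kk.mem86.2.2.1
    have h3 := rich86 hg5 hqR h.t h1 (G.sym _ _ h.mem86.2.1) h.low h.lR h.I0
      (G.sym _ _ hqk) kk.low kk.lR kk.I0 (ne_of_nb5 h.mem86.1)
    rcases h2.2 with h4 | h4
    · rw [h4, card_empty] at h1
      omega
    · omega
  have f4 : HDs.card + HSs.card ≤ (G.FuL Fa x).card := by
    rw [← card_union_of_disjoint f3]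
    exact card_le_card (union_subset f1 f2)
  have f5 : 2 * HDs.card ≤ (G.FuT Fa x).card := by
    have h1 : HDs.biUnion (fun l => (G.nb l).filter fun u => G.IsTw u) ⊆ G.FuT Fa x := by
      intro u hu
      rw [mem_biUnion] at hu
      obtain ⟨l, hl, hu⟩ := hu
      obtain ⟨l', q, p, x1, y1, z1, h, h1, -, -, -, -, h6, -⟩ := hHD l (mem_filter.1 hl).2
      obtain ⟨h7, h8⟩ := h.fuT86 hG h1 h6 hh
      rcases (h.only86 (mem_filter.1 hu).1).2.1 (mem_filter.1 hu).2 with e | e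
      · rw [e]; exact h7
      · rw [e]; exact h8
    have h2 : (HDs.biUnion (fun l => (G.nb l).filter fun u => G.IsTw u)).card =
        ∑ l ∈ HDs, ((G.nb l).filter fun u => G.IsTw u).card := by
      rw [card_biUnion]
      intro l hl l2 hl2 hne
      refine disjoint_left.2 ?_
      intro u hu hu2
      obtain ⟨l', q, p, x1, y1, z1, h, h1, h2, -, -, -, -, -⟩ := hHD l (mem_filter.1 hl).2
      obtain ⟨l2', q2, p2, x2, y2, z2, k, k1, k2, -, -, -, -, -⟩ :=
        hHD l2 (mem_filter.1 hl2).2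
      have hqR : q ∈ R Fa := R0_86 h.lR h.I0 h.mem86.2.1
      have hql2 : q ∈ G.nb l2 := by
        rcases (h.only86 (mem_filter.1 hu).1).2.1 (mem_filter.1 hu).2 with e | e
        · subst e
          exact (mem_filter.1 hu2).1
        · subst e
          exact G.sym _ _ (Tw_nb5 (symm_5 h.t) (G.sym _ _ (mem_filter.1 hu2).1)
            (low_ne86 h.t k.low).2)
      have h3 := rich86 hg5 hqR h.t h1 (G.sym _ _ h.mem86.2.1) h.low h.lR h.I0
        (G.sym _ _ hql2) k.low k.lR k.I0 hne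
      rcases h2.2 with h4 | h4
      · rw [h4, card_empty] at h1
        omega
      · omega
    have h3 : ∑ _l ∈ HDs, 2 ≤ ∑ l ∈ HDs, ((G.nb l).filter fun u => G.IsTw u).card := by
      refine sum_le_sum ?_
      intro l hl
      obtain ⟨l', q, p, x1, y1, z1, h, -⟩ := hHD l (mem_filter.1 hl).2
      exact two_le5 (mem_filter.2 ⟨h.mem86.2.1, ⟨p, h.t⟩⟩)
        (mem_filter.2 ⟨h.mem86.2.2.1, ⟨q, symm_5 h.t⟩⟩) (ne_of_nb5 h.t.1)
    rw [sum_const, smul_eq_mul] at h3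
    have h4 := card_le_card h1
    omega
  -- the claims of type DOUBLE come in pairs
  have f6 : HSs = ∅ ∨ ∃ l l' q p x1 y1 z1 x2 y2 z2, G.T6s Fa l l' q p x1 y1 z1 ∧
      G.T6s Fa l' l q p x2 y2 z2 ∧ (G.I Fa q).card = 1 ∧ x ∈ G.nb l ∧ x ∈ G.nb l' ∧
      l ∈ HSs ∧ l' ∈ HSs ∧ (HSs = {l, l'} ∨ 4 ≤ HSs.card) := by
    rcases HSs.eq_empty_or_nonempty with h | ⟨l, hl⟩
    · exact Or.inl h
    right
    obtain ⟨l', q, p, x1, y1, z1, x2, y2, z2, h1, h2, h3, h4, h5, h6, h7, h8, h9⟩ :=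
      hs86 hG (mem_filter.1 hl).2
    have hl' : l' ∈ HSs := mem_filter.2 ⟨h2.lR, h7⟩
    refine ⟨l, l', q, p, x1, y1, z1, x2, y2, z2, h1, h2, h3, h4, h5, hl, hl', ?_⟩
    by_cases hc : HSs ⊆ {l, l'}
    · left
      refine Finset.Subset.antisymm hc ?_
      intro u hu
      simp only [mem_insert, mem_singleton] at hu
      rcases hu with rfl | rfl
      · exact hl
      · exact hl'
    · right
      obtain ⟨k, hk1, hk2⟩ := not_subset.1 hc
      simp only [mem_insert, mem_singleton, not_or] at hk2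
      obtain ⟨k', q', p', x1', y1', z1', x2', y2', z2', g1, g2, g3, g4, g5, g6, g7, g8, g9⟩ :=
        hs86 hG (mem_filter.1 hk1).2
      have hk' : k' ∈ HSs := mem_filter.2 ⟨g2.lR, g7⟩
      have e1 : l ≠ l' := ne_of_nb5 h1.mem86.1
      have e2 : k ≠ k' := ne_of_nb5 g1.mem86.1
      have e3 : k' ≠ l := by
        rintro rfl
        exact hk2.2 ((h1.only86 g2.mem86.1).1 g1.low)
      have e4 : k' ≠ l' := by
        rintro rfl
        exact hk2.1 ((h2.only86 g2.mem86.1).1 g1.low)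
      exact four_le5 hl hl' hk1 hk' e1 (Ne.symm hk2.1) (Ne.symm e3) (Ne.symm hk2.2)
        (Ne.symm e4) e2
  have hk2 : (G.I Fa x).card = 0 ∨ (G.I Fa x).card = 1 := by omega
  rcases hk2 with hk2 | hk2
  · have hI : G.I Fa x = ∅ := card_eq_zero.1 hk2
    rcases Nat.lt_or_ge HDs.card 2 with hn | hn
    · rcases f6 with f6 | ⟨l, l', q, p, x1, y1, z1, x2, y2, z2, h1, h2, h3, h4, h5, h6, h7, h8⟩
      · -- only claims of type (A*)
        have hs0 : HSs.card = 0 := by rw [f6, card_empty]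
        obtain ⟨l, hl⟩ : HDs.Nonempty := by
          obtain ⟨l0, h1 | ⟨h1, l', q, p, u, v, w, h2⟩⟩ := hcl
          · exfalso
            obtain ⟨l', q, p, x1, y1, z1, x2, y2, z2, k1, -⟩ := hs86 hG h1
            have : l0 ∈ HSs := mem_filter.2 ⟨k1.lR, h1⟩
            rw [f6] at this
            simp at this
          · exact ⟨l0, mem_filter.2 ⟨h2.lR, h1⟩⟩
        have hn1 : HDs.card = 1 := by
          have := card_pos.2 ⟨l, hl⟩
          omega
        obtain ⟨l', q, p, x1, y1, z1, h, h1, h2, h3, h4, h5, h6, h7⟩ :=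
          hHD l (mem_filter.1 hl).2
        obtain ⟨e, he, heW⟩ := x1_86 hG h8a hA h h1 h2 h3 h4 h5 h6 hh hI
        obtain ⟨k1, k2⟩ := h.fuT86 hG h1 h6 hh
        have hcl2 : ∀ e f, G.Tw e f → e ∈ ({l, q, p} : Finset V) →
            f ∈ ({l, q, p} : Finset V) := by
          intro e f hef he
          simp only [mem_insert, mem_singleton] at he ⊢
          rcases he with rfl | rfl | rfl
          · exact absurd rfl (low_ne86 hef h.low).2
          · exact Or.inr (Or.inr (uniq_5 hg5.n9 hef h.t))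
          · exact Or.inr (Or.inl (uniq_5 hg5.n9 hef (symm_5 h.t)))
        have := acc_a86 (f1 hl) k1 k2 (ne_of_nb5 h.t.1) hcl2 he heW
        omega
      · rcases h8 with h8 | h8
        · have hs2 : HSs.card = 2 := by
            rw [h8, card_pair (ne_of_nb5 h1.mem86.1)]
          obtain ⟨e, he, heW⟩ := x2_86 hG h8a h1 h2 h3 h4 h5 hh hI
          have := acc_b86 (f2 h6) (f2 h7) (ne_of_nb5 h1.mem86.1) he heW
          rcases Nat.eq_zero_or_pos HDs.card with h9 | h9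
          · omega
          · omega
        · omega
    · omega
  · have hn0 : HDs.card = 0 := by
      rw [card_eq_zero]
      by_contra h
      obtain ⟨l, hl⟩ := nonempty_iff_ne_empty.2 h
      obtain ⟨l', q, p, x1, y1, z1, -, -, -, -, -, -, -, h7⟩ := hHD l (mem_filter.1 hl).2
      rw [h7, card_empty] at hk2
      omega
    rcases f6 with f6 | ⟨l, l', q, p, x1, y1, z1, x2, y2, z2, h1, -, -, -, -, h6, h7, -⟩
    · exfalso
      obtain ⟨l0, h1 | ⟨h1, l', q, p, u, v, w, h2⟩⟩ := hcl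
      · obtain ⟨l', q, p, x1, y1, z1, x2, y2, z2, k1, -⟩ := hs86 hG h1
        have : l0 ∈ HSs := mem_filter.2 ⟨k1.lR, h1⟩
        rw [f6] at this
        simp at this
      · have : l0 ∈ HDs := mem_filter.2 ⟨h2.lR, h1⟩
        rw [card_eq_zero] at hn0
        rw [hn0] at this
        simp at this
    · have := two_le5 h6 h7 (ne_of_nb5 h1.mem86.1)
      omega

end CG

end Pool.Agent.Lib.MP_e95c01_co.N
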