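import Pool.Agent.Lib.MP_e95c01_co.X.K3k_28

/-!
# `λ = 3`, thick torsos: vertices in two or more neighbourhoods

`Don2 v z`: `z` is a low vertex in two neighbourhoods with a negative charge, the low vertex `v`
pays `- ch5 z` to it.
-/

namespace Pool.Agent.Lib.MP_e95c01_co.N

open Finset

variable {V : Type} [Fintype V] [DecidableEq V]

namespace CG

/-- `v` pays to the low vertex `z`, which is in two neighbourhoods -/
def Don2 (G : CG V) (Fa : Finset (Finset V)) (v z : V) : Prop :=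
  z ∈ R Fa ∧ G.Low z ∧ G.ch5 Fa z < 0 ∧ ∃ B B', B ≠ B' ∧ G.I Fa z = {B, B'} ∧ G.S0 B z v ∧
    v ∈ G.N B'

namespace K28

variable {G : CG V} {Fa : Finset (Finset V)} {z v : V} {B B' : Finset V}

theorem don2_S2 (hG : G.Gen5 Fa) (h : G.Don2 Fa v z) : ∃ B B', S2 G Fa z v B B' := by
  obtain ⟨h1, h2, h3, B, B', h4, h5, h6, h7⟩ := h
  exact ⟨B, B', ⟨hG.n9, hG.reg, hG.big, h1, h2, h4, h5⟩, h6, h7, h3⟩

/-- the vertices in two or more neighbourhoods with a negative charge -/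
theorem neg2 (hG : G.Gen5 Fa) (hz : z ∈ R Fa) (hk : 2 ≤ (G.I Fa z).card)
    (hneg : G.ch5 Fa z < 0) : G.Low z ∧ (G.I Fa z).card = 2 ∧ ∃ v, G.Don2 Fa v z := by
  by_cases hl : G.Low z
  · have hk2 : (G.I Fa z).card = 2 := by
      by_contra hne
      have := low_three hG.n9 hG.reg hz hl (by omega)
      linarith
    obtain ⟨B, B', hne, hI⟩ := card_eq_two.1 hk2
    have c : Tw2 G Fa z B B' := ⟨hG.n9, hG.reg, hG.big, hz, hl, hne, hI⟩
    refine ⟨hl, hk2, ?_⟩
    rcases c.main hneg with ⟨v, h1, h2⟩ | ⟨v, h1, h2⟩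
    · exact ⟨v, hz, hl, hneg, B, B', hne, hI, h1, h2⟩
    · exact ⟨v, hz, hl, hneg, B', B, hne.symm, by rw [hI, pair_comm], h1, h2⟩
  · exfalso
    by_cases ht : G.IsTw z
    · have := tw_two hG.n9 hG.reg hG.big hz ht hk
      linarith
    · have h1 := (G.stCh5_28).hub2 Fa z hz ⟨hl, ht⟩ hk
      have h2 : (2 : ℤ) ≤ ((G.I Fa z).card : ℤ) := by exact_mod_cast hk
      linarith

theorem don2_uniq (hG : G.Gen5 Fa) {v' : V} (h : G.Don2 Fa v z) (h' : G.Don2 Fa v' z) :
    v = v' := by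
  obtain ⟨-, -, -, B, B', h4, h5, h6, h7⟩ := h
  obtain ⟨-, -, -, D, D', k4, k5, k6, k7⟩ := h'
  have hv : v ∈ G.pT D z := by
    have h8 : v ∈ G.nb z := by
      have : v ∈ G.pT B z := by rw [h6.2.2.2.1]; exact mem_singleton_self _
      exact (mem_inter.1 this).1
    refine mem_inter.2 ⟨h8, ?_⟩
    have hD : D ∈ ({B, B'} : Finset (Finset V)) := by
      rw [← h5, k5]
      exact mem_insert_self _ _
    rw [mem_insert, mem_singleton] at hD
    rcases hD with rfl | rfl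
    · have : v ∈ G.pT D z := by rw [h6.2.2.2.1]; exact mem_singleton_self _
      exact (mem_inter.1 this).2
    · exact h7
  exact S0_uniq k6 hv

/-- properties of the donor -/
theorem don2_prop (hG : G.Gen5 Fa) (h : G.Don2 Fa v z) :
    G.Low v ∧ v ∈ G.nR Fa z ∧ z ∈ G.nR Fa v ∧ G.I Fa z ⊆ G.I Fa v ∧ (G.I Fa z).card = 2 ∧
      2 ≤ (G.I Fa v).card ∧ -2 ≤ G.ch5 Fa z ∧ Don G Fa v z := by
  obtain ⟨B, B', d⟩ := don2_S2 hG h
  have hsub : G.I Fa z ⊆ G.I Fa v := by
    intro D hD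
    rw [d.c.I, mem_insert, mem_singleton] at hD
    rcases hD with rfl | rfl
    · exact d.mem1
    · exact d.mem2
  refine ⟨d.vlow, mem_nR76.2 ⟨d.vnb, d.vR⟩, mem_nR76.2 ⟨d.znb, d.c.zR⟩, hsub, d.c.k2, ?_,
    d.result.2, d.result.1⟩
  have := card_le_card hsub
  rwa [d.c.k2] at this

open Classical in
/-- the donor can pay -/
theorem don2_cap (hG : G.Gen5 Fa) (h : G.Don2 Fa v z) :
    ∑ y ∈ univ.filter (fun y => G.Don2 Fa v y), (- G.ch5 Fa y) ≤ G.ch5 Fa v := by
  obtain ⟨h1, h2, h3, h4, h5, h6, h7, h8⟩ := don2_prop hG h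
  rcases h8.cap with ⟨k1, k2, k3, k4⟩ | ⟨k1, k2, k3⟩
  · have he : univ.filter (fun y => G.Don2 Fa v y) = {z} := by
      ext y
      rw [mem_filter, mem_singleton]
      constructor
      · rintro ⟨-, hy⟩
        obtain ⟨-, -, y3, y4, y5, -⟩ := don2_prop hG hy
        exact k4 y y3 (eq_of_subset_of_card_le y4 (by omega))
      · rintro rfl
        exact ⟨mem_univ _, h⟩
    rw [he, sum_singleton]
    exact k3
  · have hsub : univ.filter (fun y => G.Don2 Fa v y) ⊆ G.nR Fa v := by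
      intro y hy
      exact (don2_prop hG (mem_filter.1 hy).2).2.2.1
    have hc := card_le_card hsub
    have hs : ∑ y ∈ univ.filter (fun y => G.Don2 Fa v y), (- G.ch5 Fa y) ≤
        ∑ y ∈ univ.filter (fun y => G.Don2 Fa v y), (2 : ℤ) := by
      refine sum_le_sum fun y hy => ?_
      have := (don2_prop hG (mem_filter.1 hy).2).2.2.2.2.2.2.1
      linarith
    rw [sum_const, nsmul_eq_mul] at hs
    have h9 : ((univ.filter (fun y => G.Don2 Fa v y)).card : ℤ) ≤ 2 := by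
      exact_mod_cast hc.trans k3
    linarith

end K28

end CG

end Pool.Agent.Lib.MP_e95c01_co.N
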