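import Pool.Agent.Lib.MP_e95c01_co.X.M2b_38

/-!
# `λ = 3`, thick torsos, M2
-/

namespace Pool.Agent.Lib.MP_e95c01_co.N

open Finset

variable {V : Type} [Fintype V] [DecidableEq V]

namespace CG

namespace M38

open K28

variable {G : CG V} {Fa : Finset (Finset V)} {q p : V} {B : Finset V}

/-- two adjacent pairs of twins: all four edges -/
theorem four_adj (h9 : 9 ≤ Fintype.card V) {e f e' f' : V} (t : G.Tw e f) (t' : G.Tw e' f')
    (h : e' ∈ G.nb e) (hn : e' ≠ f) :
    e ≠ f ∧ e' ≠ f' ∧ e ≠ e' ∧ e ≠ f' ∧ f ≠ e' ∧ f ≠ f' ∧ f ∈ G.nb e ∧ f' ∈ G.nb e' ∧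
      e' ∈ G.nb e ∧ f' ∈ G.nb e ∧ e' ∈ G.nb f ∧ f' ∈ G.nb f := by
  have a1 : e ≠ f := ne_of_nb5 t.1
  have a2 : e' ≠ f' := ne_of_nb5 t'.1
  have a3 : e ≠ e' := ne_of_nb5 h
  have a4 : e ≠ f' := by
    rintro rfl
    exact hn ((stTwHL_5 G).uniq h9 _ _ _ (tw_symm76 t') t)
  have a5 : f ≠ f' := by
    rintro rfl
    exact a3 ((stTwHL_5 G).uniq h9 _ _ _ (tw_symm76 t) (tw_symm76 t'))
  have b1 : f' ∈ G.nb e := G.sym _ _ (Tw_nb5 t' (G.sym _ _ h) a4)
  have b2 : e' ∈ G.nb f := Tw_nb5 t h hn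
  have b3 : f' ∈ G.nb f := Tw_nb5 t b1 a5.symm
  exact ⟨a1, a2, a3, a4, hn.symm, a5, t.1, t'.1, h, b1, b2, b3⟩

/-- a `K6` -/
theorem isK6 (h9 : 9 ≤ Fintype.card V) {e f e' f' : V} (t0 : G.Tw q p) (t : G.Tw e f)
    (t' : G.Tw e' f') (h1 : e ∈ G.nb q) (n1 : e ≠ p) (h2 : e' ∈ G.nb q) (n2 : e' ≠ p)
    (h3 : e' ∈ G.nb e) (n3 : e' ≠ f) : G.IsK6 {q, p, e, f, e', f'} := by
  obtain ⟨a1, a2, a3, a4, a5, a6, b1, b2, b3, b4, b5, b6⟩ := four_adj h9 t0 t h1 n1
  obtain ⟨-, c2, c3, c4, c5, c6, -, d2, d3, d4, d5, d6⟩ := four_adj h9 t0 t' h2 n2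
  obtain ⟨-, -, e3, e4, e5, e6, -, -, f3, f4, f5, f6⟩ := four_adj h9 t t' h3 n3
  refine ⟨?_, ?_, ?_⟩
  · rw [card_insert_of_notMem, card_insert_of_notMem, card_insert_of_notMem,
      card_insert_of_notMem, card_pair c2]
    all_goals simp only [mem_insert, mem_singleton, not_or]
    · exact ⟨e5, e6⟩
    · exact ⟨a2, e3, e4⟩
    · exact ⟨a5, a6, c5, c6⟩
    · exact ⟨a1, a3, a4, c3, c4⟩
  · intro x hx
    simp only [mem_insert, mem_singleton] at hx
    rcases hx with rfl | rfl | rfl | rfl | rfl | rfl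
    exacts [⟨_, t0⟩, ⟨_, tw_symm76 t0⟩, ⟨_, t⟩, ⟨_, tw_symm76 t⟩, ⟨_, t'⟩, ⟨_, tw_symm76 t'⟩]
  · intro x hx y hy hxy
    simp only [mem_insert, mem_singleton] at hx hy
    have S := G.sym
    rcases hx with rfl | rfl | rfl | rfl | rfl | rfl <;>
      rcases hy with rfl | rfl | rfl | rfl | rfl | rfl <;>
      first
        | exact absurd rfl hxy
        | assumption
        | (apply S; assumption)

namespace Q1

/-- two adjacent pairs of a `K6` are not in the same neighbourhood if `q` is outside of it -/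
theorem not_both (c : Q1 G Fa q p B) {e f e' f' : V} (t : G.Tw e f) (t' : G.Tw e' f')
    (h1 : e ∈ G.nb q) (n1 : e ≠ p) (h3 : e' ∈ G.nb e) (n3 : e' ≠ f) {D : Finset V}
    (hD : D ∈ Fa) (hDB : D ≠ B) (he : e ∈ G.N D) (he' : e' ∈ G.N D) : False := by
  have h9 := c.g.n9
  have hr := c.g.reg
  obtain ⟨a1, a2, a3, a4, a5, a6, b1, b2, b3, b4, b5, b6⟩ := four_adj h9 c.t t h1 n1
  obtain ⟨-, e2, e3, e4, e5, e6, -, -, f3, f4, f5, f6⟩ := four_adj h9 t t' h3 n3
  have heR := N_R hr hD he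
  have he'R := N_R hr hD he'
  have hDI : D ∈ G.I Fa e := mem_I76.2 ⟨hD, he⟩
  have hDI' : D ∈ G.I Fa e' := mem_I76.2 ⟨hD, he'⟩
  have hf := (stTwHL_5 G).twI Fa hr e heR f t
  have hf' := (stTwHL_5 G).twI Fa hr e' he'R f' t'
  have hfN : f ∈ G.N D := (mem_I76.1 (by rw [hf.2]; exact hDI : D ∈ G.I Fa f)).2
  have hfN' : f' ∈ G.N D := (mem_I76.1 (by rw [hf'.2]; exact hDI' : D ∈ G.I Fa f')).2
  have hid := two_hid h9 hr c.g.big heR ⟨f, t⟩ hDI
  have hT : 3 ≤ (G.nb e ∩ G.N D).card := by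
    have h4 : ({f, e', f'} : Finset V) ⊆ G.nb e ∩ G.N D := by
      intro x hx
      simp only [mem_insert, mem_singleton] at hx
      rcases hx with rfl | rfl | rfl
      exacts [mem_inter.2 ⟨t.1, hfN⟩, mem_inter.2 ⟨f3, he'⟩, mem_inter.2 ⟨f4, hfN'⟩]
    have h5 := card_le_card h4
    rwa [card_insert_of_notMem (by
      rw [mem_insert, mem_singleton, not_or]; exact ⟨e5, e6⟩), card_pair e2] at h5
  have hO : 3 ≤ (G.nb e ∩ G.Co D).card := by
    by_cases k : G.I Fa e = {D}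
    · exact e1q_86 c.g t heR k
    · obtain ⟨D', hD', hne⟩ : ∃ D' ∈ G.I Fa e, D' ≠ D := by
        by_contra hc
        push Not at hc
        apply k
        ext X
        rw [mem_singleton]
        exact ⟨fun hX => hc X hX, fun hX => hX ▸ hDI⟩
      have hid' := two_hid h9 hr c.g.big heR ⟨f, t⟩ hD'
      have hqC : q ∈ G.nb e ∩ G.Co D := by
        refine mem_inter.2 ⟨G.sym _ _ h1, mem_Co76.2 ⟨mem_R76.1 c.qR D hD, fun h4 => hDB ?_⟩⟩
        have : D ∈ G.I Fa q := mem_I76.2 ⟨hD, h4⟩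
        rw [c.I, mem_singleton] at this
        exact this
      have hqn : q ∉ G.nb e ∩ D' := fun h4 =>
        mem_R76.1 c.qR D' (mem_I76.1 hD').1 (mem_inter.1 h4).2
      have h4 : insert q (G.nb e ∩ D') ⊆ G.nb e ∩ G.Co D := by
        intro x hx
        rw [mem_insert] at hx
        rcases hx with rfl | hx
        · exact hqC
        · exact mem_inter.2 ⟨(mem_inter.1 hx).1, blob_Co hr hD (mem_I76.1 hD').1 hne.symm
            (mem_inter.1 hx).2⟩
      have h5 := card_le_card h4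
      rw [card_insert_of_notMem hqn] at h5
      omega
  have h7 := d_split76 (G := G) e D
  rw [t.2.1] at h7
  unfold d at h7
  omega

theorem inK6 (c : Q1 G Fa q p B) (h : Tri G q B) : G.InK6 Fa q := by
  obtain ⟨e, f, e', f', t, t', h3, n3, hO, -⟩ := h
  have heO : e ∈ G.nb q ∩ G.Co B := by rw [hO]; simp
  have hfO : f ∈ G.nb q ∩ G.Co B := by rw [hO]; simp
  have heO' : e' ∈ G.nb q ∩ G.Co B := by rw [hO]; simp
  have hfO' : f' ∈ G.nb q ∩ G.Co B := by rw [hO]; simp
  have n1 : e ≠ p := by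
    rintro rfl
    exact (mem_Co76.1 (mem_inter.1 heO).2).2 c.pN
  have n2 : e' ≠ p := by
    rintro rfl
    exact (mem_Co76.1 (mem_inter.1 heO').2).2 c.pN
  have hr := c.g.reg
  have heR := (mem_nR76.1 (c.O_nR heO)).2
  have he'R := (mem_nR76.1 (c.O_nR heO')).2
  have hfR := (mem_nR76.1 (c.O_nR hfO)).2
  have hf'R := (mem_nR76.1 (c.O_nR hfO')).2
  have hf := (stTwHL_5 G).twI Fa hr e heR f t
  have hf' := (stTwHL_5 G).twI Fa hr e' he'R f' t'
  refine ⟨{q, p, e, f, e', f'}, isK6 c.g.n9 c.t t t' (mem_inter.1 heO).1 n1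
    (mem_inter.1 heO').1 n2 h3 n3, ?_, ?_, by simp⟩
  · intro x hx
    simp only [mem_insert, mem_singleton] at hx
    rcases hx with rfl | rfl | rfl | rfl | rfl | rfl
    exacts [c.qR, c.twI.1, heR, hfR, he'R, hf'R]
  · intro D hD
    have two : ∀ a b : V, ({a, b} : Finset V).card ≤ 2 := fun a b => card_le_two
    by_cases hDB : D = B
    · subst hDB
      refine le_trans (card_le_card (t := {q, p}) ?_) (two q p)
      intro x hx
      rw [mem_inter] at hx
      have hx1 := hx.1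
      simp only [mem_insert, mem_singleton] at hx1
      rw [mem_insert, mem_singleton]
      rcases hx1 with rfl | rfl | rfl | rfl | rfl | rfl
      · exact Or.inl rfl
      · exact Or.inr rfl
      · exact absurd hx.2 (mem_Co76.1 (mem_inter.1 heO).2).2
      · exact absurd hx.2 (mem_Co76.1 (mem_inter.1 hfO).2).2
      · exact absurd hx.2 (mem_Co76.1 (mem_inter.1 heO').2).2
      · exact absurd hx.2 (mem_Co76.1 (mem_inter.1 hfO').2).2
    · have hq : q ∉ G.N D := fun h4 => by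
        have : D ∈ G.I Fa q := mem_I76.2 ⟨hD, h4⟩
        rw [c.I, mem_singleton] at this
        exact hDB this
      have hp : p ∉ G.N D := fun h4 => by
        have : D ∈ G.I Fa p := mem_I76.2 ⟨hD, h4⟩
        rw [c.twI.2, mem_singleton] at this
        exact hDB this
      have kf : f ∈ G.N D → e ∈ G.N D := fun h4 => by
        have : D ∈ G.I Fa f := mem_I76.2 ⟨hD, h4⟩
        rw [hf.2] at this
        exact (mem_I76.1 this).2
      have kf' : f' ∈ G.N D → e' ∈ G.N D := fun h4 => by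
        have : D ∈ G.I Fa f' := mem_I76.2 ⟨hD, h4⟩
        rw [hf'.2] at this
        exact (mem_I76.1 this).2
      by_cases k : e ∈ G.N D
      · have k' : e' ∉ G.N D := fun k' =>
          c.not_both t t' (mem_inter.1 heO).1 n1 h3 n3 hD hDB k k'
        refine le_trans (card_le_card (t := {e, f}) ?_) (two e f)
        intro x hx
        rw [mem_inter] at hx
        have hx1 := hx.1
        simp only [mem_insert, mem_singleton] at hx1
        rw [mem_insert, mem_singleton]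
        rcases hx1 with rfl | rfl | rfl | rfl | rfl | rfl
        · exact absurd hx.2 hq
        · exact absurd hx.2 hp
        · exact Or.inl rfl
        · exact Or.inr rfl
        · exact absurd hx.2 k'
        · exact absurd (kf' hx.2) k'
      · refine le_trans (card_le_card (t := {e', f'}) ?_) (two e' f')
        intro x hx
        rw [mem_inter] at hx
        have hx1 := hx.1
        simp only [mem_insert, mem_singleton] at hx1
        rw [mem_insert, mem_singleton]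
        rcases hx1 with rfl | rfl | rfl | rfl | rfl | rfl
        · exact absurd hx.2 hq
        · exact absurd hx.2 hp
        · exact absurd hx.2 k
        · exact absurd (kf hx.2) k
        · exact Or.inl rfl
        · exact Or.inr rfl

end Q1

/-! ### ALPHA -/

theorem Q1_of (hG : G.Gen6 Fa) {y e f h : V} (a : G.Alp Fa B q p y e f h) : Q1 G Fa q p B :=
  ⟨hG.g5, a.t, a.qR, a.I1⟩

theorem alp (hG : G.Gen6 Fa) {y e f h : V} (a : G.Alp Fa B q p y e f h) : 2 ≤ G.ch5 Fa y ∧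
    ((G.I Fa y = {B} ∧ ∃ z, G.nR Fa y = {q, p, e, f, z} ∧ z ∈ G.Co B ∧
      z ∉ ({e, f, h} : Finset V)) ∨ (G.nR Fa y = {q, p, e, f} ∧ (G.I Fa y).card = 2)) := by
  classical
  have c := Q1_of hG a
  have h9 := hG.g5.n9
  have hr := hG.g5.reg
  have hyT : y ∈ G.nb q ∩ G.N B := by
    have h1 : y ∈ G.pT B q := by rw [a.nT]; simp
    exact h1
  have hO : G.nb q ∩ G.Co B = {e, f, h} := a.out
  have heO : e ∈ G.nb q ∩ G.Co B := by rw [hO]; simp
  have hfO : f ∈ G.nb q ∩ G.Co B := by rw [hO]; simp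
  have yl := a.yl
  have hyp : y ≠ p := by
    rintro rfl
    exact tw_not_low76 c.symm.isTw yl
  have hyf : y ≠ f := by
    rintro rfl
    exact tw_not_low76 (tw_of76' a.t') yl
  have hyR := (mem_nR76.1 (c.T_nR hyT)).2
  have yI : B ∈ G.I Fa y := mem_I76.2 ⟨c.BF, (mem_inter.1 hyT).2⟩
  have y6 := six_low yl B
  have yh := hid1 yI
  have yq : q ∈ G.nb y := G.sym _ _ (mem_inter.1 hyT).1
  have yp : p ∈ G.nb y := G.sym _ _ (Tw_nb5 c.t (mem_inter.1 hyT).1 hyp)
  have ye := a.ye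
  have yf : f ∈ G.nb y := G.sym _ _ (Tw_nb5 a.t' (G.sym _ _ ye) hyf)
  have hqp : q ≠ p := ne_of_nb5 c.t.1
  have hef : e ≠ f := ne_of_nb5 a.t'.1
  have sT : ({q, p} : Finset V) ⊆ G.nb y ∩ G.N B := by
    intro x hx
    rw [mem_insert, mem_singleton] at hx
    rcases hx with rfl | rfl
    exacts [mem_inter.2 ⟨yq, c.qN⟩, mem_inter.2 ⟨yp, c.pN⟩]
  have cT := card_le_card sT
  rw [card_pair hqp] at cT
  have eC : e ∈ G.nb y ∩ G.Co B := mem_inter.2 ⟨ye, (mem_inter.1 heO).2⟩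
  have fC : f ∈ G.nb y ∩ G.Co B := mem_inter.2 ⟨yf, (mem_inter.1 hfO).2⟩
  -- the positive flag
  have flag : (G.nb y ∩ G.N B).card = 2 → (G.nb y ∩ B).card = 1 →
      (G.nb y ∩ G.Co B).card = 3 → 2 ≤ ff G B y := by
    intro k1 k2 k3
    have e1 : G.nb y ∩ G.N B = {q, p} := (eq_of_subset_of_card_le sT (by
      rw [card_pair hqp]; omega)).symm
    have kX : (G.pX (G.Co B) y).card = 3 := k3
    have kB : (G.pX B y).card = 1 := k2
    refine ff_pos c.fr yl (Or.inl ⟨?_, yl, kX, ?_⟩) (fun v h1 => ?_) (fun h1 => ?_)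
      (fun h1 => ?_) (fun h1 => ?_)
    · rw [(G.stCo_37 B c.fr).2.1]
      exact (mem_inter.1 hyT).2
    · rw [pT_Co c.fr]
      exact ⟨q, p, c.t, e1⟩
    · have := (S0_card h1).1
      omega
    · have := (U3_card h1).1
      omega
    · have := (T3_card h1).1
      omega
    · have := (HF_card h1).1
      omega
  have third : ∀ {b : V}, b ∈ G.nb y ∩ G.Co B → b ≠ e → b ≠ f →
      (G.nb y ∩ G.N B).card = 2 ∧ (G.nb y ∩ B).card = 1 ∧ (G.nb y ∩ G.Co B).card = 3 ∧
        G.nb y ∩ G.N B = {q, p} ∧ G.nb y ∩ G.Co B = {e, f, b} := by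
    intro b hb hbe hbf
    have h3 : ({e, f, b} : Finset V).card = 3 := by
      rw [card_insert_of_notMem, card_pair hbf.symm]
      rw [mem_insert, mem_singleton, not_or]
      exact ⟨hef, hbe.symm⟩
    have h4 : ({e, f, b} : Finset V) ⊆ G.nb y ∩ G.Co B := by
      intro x hx
      rw [mem_insert, mem_insert, mem_singleton] at hx
      rcases hx with rfl | rfl | rfl
      exacts [eC, fC, hb]
    have h5 := card_le_card h4
    have k1 : (G.nb y ∩ G.N B).card = 2 := by omega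
    have k2 : (G.nb y ∩ B).card = 1 := by omega
    have k3 : (G.nb y ∩ G.Co B).card = 3 := by omega
    exact ⟨k1, k2, k3, (eq_of_subset_of_card_le sT (by rw [card_pair hqp]; omega)).symm,
      (eq_of_subset_of_card_le h4 (by omega)).symm⟩
  by_cases kI : G.I Fa y = {B}
  · -- one neighbourhood
    have yq' : y ≠ q := ne_of_nb5 (G.sym _ _ yq) |>.symm
    have h4 := e3q_86 hG.g5 c.t yq' hyp hyR c.qR kI c.I
    obtain ⟨z, hz, hzn⟩ : ∃ z ∈ G.nb y ∩ G.Co B, z ∉ ({e, f, h} : Finset V) := by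
      by_contra hc
      push Not at hc
      have h5 : (G.nb y ∪ G.nb q) ∩ G.Co B ⊆ {e, f, h} := by
        intro x hx
        rw [mem_inter, mem_union] at hx
        rcases hx.1 with h6 | h6
        · exact hc x (mem_inter.2 ⟨h6, hx.2⟩)
        · rw [← hO]
          exact mem_inter.2 ⟨h6, hx.2⟩
      have h6 := card_le_card h5
      have h7 : ({e, f, h} : Finset V).card ≤ 3 := card_le_three
      omega
    have hzn' := hzn
    rw [mem_insert, mem_insert, mem_singleton, not_or, not_or] at hzn'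
    obtain ⟨k1, k2, k3, k4, k5⟩ := third hz hzn'.1 hzn'.2.1
    have hnR : G.nR Fa y = {q, p, e, f, z} := by
      ext x
      constructor
      · intro hx
        rw [mem_nR76] at hx
        have h5 : x ∈ G.nb y ∩ G.N B ∨ x ∈ G.nb y ∩ G.Co B := by
          by_cases h6 : x ∈ G.N B
          · exact Or.inl (mem_inter.2 ⟨hx.1, h6⟩)
          · exact Or.inr (mem_inter.2 ⟨hx.1, mem_Co76.2 ⟨mem_R76.1 hx.2 B c.BF, h6⟩⟩)
        rw [k4, k5] at h5
        simp only [mem_insert, mem_singleton] at h5 ⊢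
        tauto
      · intro hx
        have h5 : x ∈ G.nb y ∩ G.N B ∨ x ∈ G.nb y ∩ G.Co B := by
          rw [k4, k5]
          simp only [mem_insert, mem_singleton] at hx ⊢
          tauto
        rcases h5 with h5 | h5
        · exact mem_nR76.2 ⟨(mem_inter.1 h5).1, N_R hr c.BF (mem_inter.1 h5).2⟩
        · exact nR_Co5 hyR kI h5
    have hm : ∀ x, B ∈ G.I Fa x → G.m Fa x y ≠ 0 := by
      intro x hx h5
      rw [m, card_eq_zero] at h5
      have h6 : B ∈ G.I Fa x ∩ G.I Fa y := mem_inter.2 ⟨hx, yI⟩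
      rw [h5] at h6
      exact absurd h6 (notMem_empty _)
    have hNP : 2 ≤ (G.NP Fa y).card := by
      refine two_le5 (a := q) (b := p) ?_ ?_ hqp <;> rw [NP, mem_filter]
      · exact ⟨by rw [hnR]; simp, c.isTw, by rw [c.I]; simp, hm q c.mI⟩
      · exact ⟨by rw [hnR]; simp, c.symm.isTw, by rw [c.symm.I]; simp, hm p c.symm.mI⟩
    have hch := (G.stCh5_28).low1 h9 Fa hr y hyR yl B kI
    have hfg : G.fg5 Fa y = ff G B y := by rw [fg_eq, kI, sum_singleton]
    have hfl := flag k1 k2 k3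
    have hd : G.d y (G.Co B) = 3 := k3
    rw [hfg, hd] at hch
    have z1 : (0 : ℤ) ≤ ((G.NF Fa y).card : ℤ) := by positivity
    have z2 : (2 : ℤ) ≤ ((G.NP Fa y).card : ℤ) := by exact_mod_cast hNP
    refine ⟨?_, Or.inl ⟨kI, z, hnR, (mem_inter.1 hz).2, hzn⟩⟩
    rw [hch]
    push_cast
    linarith
  · -- two neighbourhoods
    obtain ⟨D, hD, hDB⟩ : ∃ D ∈ G.I Fa y, D ≠ B := by
      by_contra hc
      push Not at hc
      apply kI
      ext X
      rw [mem_singleton]
      exact ⟨fun hX => hc X hX, fun hX => hX ▸ yI⟩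
    have hDF := (mem_I76.1 hD).1
    obtain ⟨b, hb⟩ := card_pos.1 (hid1 hD)
    have hbR : b ∉ R Fa := fun h1 => mem_R76.1 h1 D hDF (mem_inter.1 hb).2
    have hbO : b ∈ G.nb y ∩ G.Co B :=
      mem_inter.2 ⟨(mem_inter.1 hb).1, blob_Co hr c.BF hDF hDB.symm (mem_inter.1 hb).2⟩
    have heR := (mem_nR76.1 (c.O_nR heO)).2
    have hfR := (mem_nR76.1 (c.O_nR hfO)).2
    have hbe : b ≠ e := by
      rintro rfl
      exact hbR heR
    have hbf : b ≠ f := by
      rintro rfl
      exact hbR hfR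
    obtain ⟨k1, k2, k3, k4, k5⟩ := third hbO hbe hbf
    have hnR : G.nR Fa y = {q, p, e, f} := by
      ext x
      constructor
      · intro hx
        rw [mem_nR76] at hx
        have h5 : x ∈ G.nb y ∩ G.N B ∨ x ∈ G.nb y ∩ G.Co B := by
          by_cases h6 : x ∈ G.N B
          · exact Or.inl (mem_inter.2 ⟨hx.1, h6⟩)
          · exact Or.inr (mem_inter.2 ⟨hx.1, mem_Co76.2 ⟨mem_R76.1 hx.2 B c.BF, h6⟩⟩)
        have hxb : x ≠ b := by
          rintro rfl
          exact hbR hx.2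
        rw [k4, k5] at h5
        simp only [mem_insert, mem_singleton] at h5 ⊢
        tauto
      · intro hx
        simp only [mem_insert, mem_singleton] at hx
        rcases hx with rfl | rfl | rfl | rfl
        exacts [mem_nR76.2 ⟨yq, c.qR⟩, mem_nR76.2 ⟨yp, c.twI.1⟩, mem_nR76.2 ⟨ye, heR⟩,
          mem_nR76.2 ⟨yf, hfR⟩]
    have hI2 : G.I Fa y = {B, D} := by
      ext X
      rw [mem_insert, mem_singleton]
      constructor
      · intro hX
        by_contra hc
        rw [not_or] at hc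
        have hXF := (mem_I76.1 hX).1
        obtain ⟨b', hb'⟩ := card_pos.1 (hid1 hX)
        have hbO' : b' ∈ G.nb y ∩ G.Co B :=
          mem_inter.2 ⟨(mem_inter.1 hb').1, blob_Co hr c.BF hXF (Ne.symm hc.1)
            (mem_inter.1 hb').2⟩
        have hbR' : b' ∉ R Fa := fun h1 => mem_R76.1 h1 X hXF (mem_inter.1 hb').2
        rw [k5, mem_insert, mem_insert, mem_singleton] at hbO'
        rcases hbO' with rfl | rfl | rfl
        · exact hbR' heR
        · exact hbR' hfR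
        · exact disjoint_left.1 (hr.dis D hDF X hXF (fun e1 => hc.2 e1.symm)).1
            (mem_inter.1 hb).2 (mem_inter.1 hb').2
      · rintro (rfl | rfl)
        exacts [yI, hD]
    have c2 : Tw2 G Fa y B D := ⟨h9, hr, hG.g5.big, hyR, yl, hDB.symm, hI2⟩
    have hw : ∀ x ∈ G.nR Fa y, 1 ≤ G.w5 Fa x y := by
      intro x hx
      rw [hnR] at hx
      simp only [mem_insert, mem_singleton] at hx
      rcases hx with rfl | rfl | rfl | rfl
      · refine w5_tw c.isTw (le_trans (m_le_left _ _) ?_)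
        rw [c.I]
        simp
      · refine w5_tw c.symm.isTw (le_trans (m_le_left _ _) ?_)
        rw [c.symm.I]
        simp
      · exact w5_tw (tw_of76 a.t') (c2.m_le1 (mem_Co76.1 (mem_inter.1 heO).2).2)
      · exact w5_tw (tw_of76' a.t') (c2.m_le1 (mem_Co76.1 (mem_inter.1 hfO).2).2)
    have h4 : ((G.nR Fa y).card : ℤ) ≤ ∑ x ∈ G.nR Fa y, G.w5 Fa x y := by
      have h5 : ∑ x ∈ G.nR Fa y, (1 : ℤ) = ((G.nR Fa y).card : ℤ) := by
        rw [sum_const, nsmul_eq_mul, mul_one]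
      rw [← h5]
      exact sum_le_sum hw
    have h5 : (G.nR Fa y).card = 4 := by
      have n1 : ∀ u ∈ ({q, p} : Finset V), u ∈ G.N B := by
        intro u hu
        rw [mem_insert, mem_singleton] at hu
        rcases hu with rfl | rfl
        exacts [c.qN, c.pN]
      have e1 : e ∉ G.N B := (mem_Co76.1 (mem_inter.1 heO).2).2
      have e2 : f ∉ G.N B := (mem_Co76.1 (mem_inter.1 hfO).2).2
      rw [hnR, card_insert_of_notMem, card_insert_of_notMem, card_pair hef]
      · rw [mem_insert, mem_singleton, not_or]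
        exact ⟨fun h6 => e1 (h6 ▸ c.pN), fun h6 => e2 (h6 ▸ c.pN)⟩
      · rw [mem_insert, mem_insert, mem_singleton, not_or, not_or]
        exact ⟨hqp, fun h6 => e1 (h6 ▸ c.qN), fun h6 => e2 (h6 ▸ c.qN)⟩
    have h6 := c2.ch
    have h7 := flag k1 k2 k3
    have h8 := ff_ge c2.fr2 yl
    rw [h5] at h4
    push_cast at h4
    exact ⟨by linarith, Or.inr ⟨hnR, c2.k2⟩⟩

end M38

open M38

/-- M2 -/
theorem stM2_38 (G : CG V) : G.StM2 := by
  refine ⟨fun Fa hG q hq B ht hI hneg => ?_, fun Fa hG B q p y e f h a => alp hG a,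
    fun Fa hG q hq ht hk => K28.tw_two hG.g5.n9 hG.g5.reg hG.g5.big hq ht hk⟩
  obtain ⟨p, t⟩ := ht
  have c : Q1 G Fa q p B := ⟨hG.g5, t, hq, hI⟩
  rcases c.main with h | ⟨h1, h2 | ⟨y, e, f, h, h2⟩⟩
  · exact absurd h (not_le.2 hneg)
  · exact ⟨h1, Or.inl (c.inK6 h2)⟩
  · exact ⟨h1, Or.inr ⟨p, y, e, f, h, h2⟩⟩

end CG

end Pool.Agent.Lib.MP_e95c01_co.N
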