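import Pool.Agent.Lib.MP_e95c01_co.X.StmtsT76

/-!
# Thick torsos, low vertices in no neighbourhood

If `z` is such a vertex and at most one neighbour is not paid, then no neighbour `a` has
`HL a b z`. The types `T3`, `T4`, `T6`.
-/

namespace Pool.Agent.Lib.MP_e95c01_co.N

open Finset

variable {V : Type} [Fintype V] [DecidableEq V]

namespace CG

variable {G : CG V} {Fa : Finset (Finset V)}

omit [Fintype V] in
theorem len_le33 {S : Finset V} (L : List V) (hL : L.Nodup) (h : ∀ x ∈ L, x ∈ S) :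
    L.length ≤ S.card := by
  rw [← List.toFinset_card_of_nodup hL]
  exact card_le_card fun x hx => h x (List.mem_toFinset.1 hx)

/-- all neighbours of a vertex in no neighbourhood are in `R` -/
theorem nRall33 {z : V} (hz : z ∈ R Fa) (hI : G.I Fa z = ∅) : G.nR Fa z = G.nb z := by
  refine Subset.antisymm inter_subset_left fun x hx => nR_of5 hz hx ?_
  intro B hB
  rw [hI] at hB
  exact absurd hB (notMem_empty B)

theorem mem_NF33 {z x : V} : x ∈ G.NF Fa z ↔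
    x ∈ G.nR Fa z ∧ (G.Low x ∨ 2 ≤ (G.I Fa x).card ∨ ∃ b, G.HL x b z) := by
  classical
  rw [NF, mem_filter]

theorem tw_not_low33 {v : V} (h : G.IsTw v) : ¬ G.Low v := q_not_low76 (qs16 G) h

theorem pair_disj33 (n9 : 9 ≤ Fintype.card V) {v w v1 w1 : V} (h : G.Tw v w) (h1 : G.Tw v1 w1)
    (e1 : v1 ≠ v) (e2 : v1 ≠ w) : w1 ≠ v ∧ w1 ≠ w := by
  constructor
  · rintro rfl
    exact e2 ((stTwHL_5 G).uniq n9 _ _ _ h ((stTwHL_5 G).symm _ _ h1)).symm
  · rintro rfl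
    exact e1 ((stTwHL_5 G).uniq n9 _ _ _ ((stTwHL_5 G).symm _ _ h1) ((stTwHL_5 G).symm _ _ h))

/-- the low vertex of `HL` is in `R` -/
theorem HLR33 (hG : G.Gen5 Fa) {a b z : V} (h : G.HL a b z) (ha : a ∈ R Fa) (hz : z ∈ R Fa) :
    b ∈ R Fa := by
  by_contra hb
  have hb' : ∃ B ∈ Fa, b ∈ B := by
    by_contra hc
    exact hb (mem_R76.2 fun B hB hbB => hc ⟨B, hB, hbB⟩)
  obtain ⟨B, hB, hbB⟩ := hb'
  have haN : a ∈ G.N B := mem_N76.2 ⟨mem_R76.1 ha B hB, b, hbB, G.sym _ _ (HL_b76 h)⟩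
  have sub : ∀ x ∈ G.nb a, x ≠ z → x ∈ B ∨ x ∈ G.N B := by
    intro x hx hxz
    rcases HL_sup76 h hx hxz with e | e
    · left
      rw [e]
      exact hbB
    · by_cases hxB : x ∈ B
      · exact Or.inl hxB
      · exact Or.inr (mem_N76.2 ⟨hxB, b, hbB, e⟩)
  by_cases h1 : G.I Fa a = {B}
  · have h2 := e1_86 hG ha h1
    have h3 : G.nb a ∩ G.Co B ⊆ {z} := by
      intro x hx
      rw [mem_inter, mem_Co76] at hx
      rw [mem_singleton]
      by_contra hxz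
      rcases sub x hx.1 hxz with e | e
      · exact hx.2.1 e
      · exact hx.2.2 e
    have h4 := card_le_card h3
    rw [card_singleton] at h4
    rw [d] at h2
    omega
  · have hBI : B ∈ G.I Fa a := mem_I76.2 ⟨hB, haN⟩
    have h2 : ∃ B' ∈ G.I Fa a, B' ≠ B := by
      by_contra hc
      refine h1 (eq_singleton_iff_unique_mem.2 ⟨hBI, fun D hD => ?_⟩)
      by_contra hne
      exact hc ⟨D, hD, hne⟩
    obtain ⟨B', hB', hne⟩ := h2
    obtain ⟨h3, h4⟩ := mem_I76.1 hB'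
    obtain ⟨-, u, hu, hau⟩ := mem_N76.1 h4
    have huz : u ≠ z := by
      rintro rfl
      exact mem_R76.1 hz B' h3 hu
    rcases sub u (G.sym _ _ hau) huz with e | e
    · exact disjoint_left.1 (hG.reg.dis B' h3 B hB hne).1 hu e
    · exact disjoint_left.1 (hG.reg.dis B hB B' h3 hne.symm).2 e hu

/-- the neighbourhood of `{z, a, b}` if `HL a b z` -/
theorem N_zab33 {a b z : V} (h : G.HL a b z) (hz : G.Low z) :
    (G.N {z, a, b}).card + ((G.nb z).erase a ∩ G.nb b).card = 10 := by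
  have hbt := HL_bt76 h
  have hza : a ∈ G.nb z := G.sym _ _ (HL_t76 h)
  have hba : a ∈ G.nb b := G.sym _ _ (HL_b76 h)
  have hbz : b ∉ G.nb z := fun e => hbt.1 (G.sym _ _ e)
  have h1 : G.N {z, a, b} = (G.nb z).erase a ∪ (G.nb b).erase a := by
    ext x
    rw [mem_N76, mem_insert, mem_insert, mem_singleton, mem_union, mem_erase, mem_erase]
    constructor
    · rintro ⟨h1, u, hu, hx⟩
      have hxz : x ≠ z := fun e => h1 (Or.inl e)
      have hxa : x ≠ a := fun e => h1 (Or.inr (Or.inl e))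
      have hxb : x ≠ b := fun e => h1 (Or.inr (Or.inr e))
      rw [mem_insert, mem_insert, mem_singleton] at hu
      rcases hu with rfl | rfl | rfl
      · exact Or.inl ⟨hxa, hx⟩
      · rcases HL_sup76 h hx hxz with e | e
        · exact absurd e hxb
        · exact Or.inr ⟨hxa, e⟩
      · exact Or.inr ⟨hxa, hx⟩
    · rintro (⟨h1, h2⟩ | ⟨h1, h2⟩)
      · refine ⟨?_, z, by simp, h2⟩
        rintro (e | e | e)
        · exact G.irr z (e ▸ h2)
        · exact h1 e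
        · exact hbz (e ▸ h2)
      · refine ⟨?_, b, by simp, h2⟩
        rintro (e | e | e)
        · exact hbt.1 (e ▸ h2)
        · exact h1 e
        · exact G.irr b (e ▸ h2)
  have h2 := card_union_add_card_inter ((G.nb z).erase a) ((G.nb b).erase a)
  have h3 : (G.nb z).erase a ∩ (G.nb b).erase a = (G.nb z).erase a ∩ G.nb b := by
    ext x
    rw [mem_inter, mem_inter, mem_erase, mem_erase]
    tauto
  have h4 := card_erase_of_mem hza
  have h5 := card_erase_of_mem hba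
  have h6 : (G.nb z).card = 6 := hz
  have h7 : (G.nb b).card = 6 := h.2.1
  rw [h1, ← h3]
  omega

/-- the visible neighbours of a twin vertex in some neighbourhood -/
theorem vis33 (hG : G.Gen5 Fa) {v : V} (hv : v ∈ R Fa) (ht : G.IsTw v) (hI : G.I Fa v ≠ ∅) :
    (G.nR Fa v).card ≤ 5 := by
  obtain ⟨B, hB⟩ := nonempty_iff_ne_empty.2 hI
  have h1 := (stTwHL_5 G).hid Fa hG.reg hG.big v hv ht B hB
  have h2 : Disjoint (G.nR Fa v) (G.nb v ∩ B) := by
    rw [disjoint_left]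
    intro x hx hxB
    exact mem_R76.1 (mem_nR76.1 hx).2 B (mem_I76.1 hB).1 (mem_inter.1 hxB).2
  have h3 : G.nR Fa v ∪ (G.nb v ∩ B) ⊆ G.nb v :=
    union_subset inter_subset_left inter_subset_left
  have h4 := card_le_card h3
  rw [card_union_of_disjoint h2] at h4
  obtain ⟨w, hw⟩ := ht
  have h5 : (G.nb v).card = 7 := hw.2.1
  rw [d] at h1
  omega

/-- a pair of twins in `N B` only has at most one common neighbour with it, the partner not
counted -/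
theorem vT33 (hG : G.Gen5 Fa) {v w a b : V} (hv : v ∈ R Fa) (ht : G.Tw v w) {B : Finset V}
    (hI : G.I Fa v = {B}) (ha : a ∈ G.nb v) (hb : b ∈ G.nb v) (haN : a ∈ G.N B) (hbN : b ∈ G.N B)
    (hab : a ≠ b) (haw : a ≠ w) (hbw : b ≠ w) : False := by
  have hBI : B ∈ G.I Fa v := hI.symm ▸ mem_singleton_self B
  have h1 := (stTwHL_5 G).hid Fa hG.reg hG.big v hv ⟨w, ht⟩ B hBI
  have h2 := e1q_86 hG ht hv hI
  have hw := q_I76 (qs16 G) hG.reg hv ht
  have hwN : w ∈ G.N B := (mem_I76.1 (hw.2.symm ▸ hBI : B ∈ G.I Fa w)).2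
  have h3 : ({w, a, b} : Finset V) ⊆ G.nb v ∩ G.N B := by
    intro x hx
    rw [mem_insert, mem_insert, mem_singleton] at hx
    rcases hx with rfl | rfl | rfl
    exacts [mem_inter.2 ⟨ht.1, hwN⟩, mem_inter.2 ⟨ha, haN⟩, mem_inter.2 ⟨hb, hbN⟩]
  have h4 := card_le_card h3
  have h5 : ({w, a, b} : Finset V).card = 3 := by
    rw [card_insert_of_notMem, card_pair hab]
    rw [mem_insert, mem_singleton]
    exact fun e => e.elim (fun e => haw e.symm) (fun e => hbw e.symm)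
  have h6 : (G.nb v ∩ B).card + (G.nb v ∩ G.N B).card + (G.nb v ∩ G.Co B).card
      ≤ (G.nb v).card := by
    have e1 : Disjoint (G.nb v ∩ B) (G.nb v ∩ G.N B) := by
      rw [disjoint_left]
      intro x hx hx'
      exact (mem_N76.1 (mem_inter.1 hx').2).1 (mem_inter.1 hx).2
    have e2 : Disjoint ((G.nb v ∩ B) ∪ (G.nb v ∩ G.N B)) (G.nb v ∩ G.Co B) := by
      rw [disjoint_left]
      intro x hx hx'
      have h7 := mem_Co76.1 (mem_inter.1 hx').2
      rcases mem_union.1 hx with h8 | h8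
      · exact h7.1 (mem_inter.1 h8).2
      · exact h7.2 (mem_inter.1 h8).2
    rw [← card_union_of_disjoint e1, ← card_union_of_disjoint e2]
    exact card_le_card (union_subset (union_subset inter_subset_left inter_subset_left)
      inter_subset_left)
  have h7 : (G.nb v).card = 7 := ht.2.1
  rw [d] at h1 h2
  omega

/-- a low vertex in no neighbourhood with at most one unpaid neighbour is no third vertex of
`HL` -/
theorem noT33 (hG : G.Gen5 Fa) (n12 : 12 ≤ Fintype.card V) {z a b : V} (hz : z ∈ R Fa)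
    (hl : G.Low z) (hI : G.I Fa z = ∅) (hc : (G.NF Fa z).card ≤ 1) (ha : a ∈ G.nb z)
    (h : G.HL a b z) : False := by
  have hq := qs16 G
  have hT := tor86 hG
  have n9 := hG.n9
  have hTw := stTwHL_5 G
  have hnR : G.nR Fa z = G.nb z := nRall33 hz hI
  have inR : ∀ x ∈ G.nb z, x ∈ R Fa := fun x hx => (mem_nR76.1 (hnR.symm ▸ hx : x ∈ G.nR Fa z)).2
  have haR := inR a ha
  have hbR : b ∈ R Fa := HLR33 hG h haR hz
  have hbt := HL_bt76 h
  have hbz : b ∉ G.nb z := fun e => hbt.1 (G.sym _ _ e)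
  have haF : a ∈ G.NF Fa z := mem_NF33.2 ⟨hnR.symm ▸ ha, Or.inr (Or.inr ⟨b, h⟩)⟩
  have one : ∀ x ∈ G.NF Fa z, x = a := fun x hx => card_le_one.1 hc x hx a haF
  have hX : ∀ x ∈ G.nb z, x ≠ a → ¬ G.Low x ∧ (G.I Fa x).card ≤ 1 ∧ ∀ b', ¬ G.HL x b' z := by
    intro x hx hxa
    have h1 : ¬ (G.Low x ∨ 2 ≤ (G.I Fa x).card ∨ ∃ b, G.HL x b z) := fun h2 =>
      hxa (one x (mem_NF33.2 ⟨hnR.symm ▸ hx, h2⟩))
    rw [not_or, not_or] at h1
    exact ⟨h1.1, by omega, fun b' h2 => h1.2.2 ⟨b', h2⟩⟩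
  have hal := HL_not_low76 h
  have hat : ¬ G.IsTw a := hTw.notHL n9 _ _ _ h
  have nolow : ∀ x ∈ G.nb z, ¬ G.Low x := by
    intro x hx
    by_cases hxa : x = a
    · rw [hxa]
      exact hal
    · exact (hX x hx hxa).1
  -- covers at `z`
  have cov : ∀ x ∈ G.nb z, (∃ v w, v ∈ G.nb z ∧ w ∈ G.nb z ∧ G.Tw v w ∧ x ∈ G.nb v ∧
      x ∈ G.nb w) ∨ (x ≠ a ∧ x ∈ G.nb b) := by
    intro x hx
    have hxR : x ∈ G.nR Fa z := hnR.symm ▸ hx
    rcases cov3_76 hq hT hz hxR (m_empty5 hI) with h1 | h1 | h1 | h1 | h1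
    · obtain ⟨w, h2, -, h3, -⟩ := h1
      exact absurd h3 (nolow w (mem_nR76.1 h2).1)
    · obtain ⟨v, w, h2, h3, h4, h5, h6⟩ := h1
      exact Or.inl ⟨v, w, (mem_nR76.1 h2).1, (mem_nR76.1 h3).1, h4, h5, h6⟩
    · obtain ⟨a', b', h2, h3, -, h4, h5, h6⟩ := h1
      have h7 : a' = a := one a' (mem_NF33.2 ⟨h2, Or.inr (Or.inr ⟨b', h4⟩)⟩)
      subst h7
      refine Or.inr ⟨h6, ?_⟩
      have h8 := HL_sub76 h4 h5 h6
      rcases HL_sup76 h h8 (ne_of_nb5 hx).symm with h9 | h9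
      · exact absurd (h9 ▸ hx) hbz
      · exact h9
    · obtain ⟨a', b', h2, -, -, h4, -⟩ := h1
      exact absurd h4.2.1 (nolow b' (mem_nR76.1 h2).1)
    · obtain ⟨a', b', h2, -, -, h4⟩ := h1
      exact absurd h4.1 (nolow a' (mem_nR76.1 h2).1)
  -- a pair of twins at `a`
  obtain ⟨v, w, hv, hw, ht, hva, hwa⟩ : ∃ v w, v ∈ G.nb z ∧ w ∈ G.nb z ∧ G.Tw v w ∧
      a ∈ G.nb v ∧ a ∈ G.nb w := by
    rcases cov a ha with h1 | h1
    · exact h1
    · exact absurd rfl h1.1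
  have ht' := hTw.symm _ _ ht
  have twa : ∀ {x y : V}, G.Tw x y → x ≠ a := fun {x y} h1 e => hat ⟨y, e ▸ h1⟩
  have toY : ∀ {x y : V}, x ∈ G.nb z → G.Tw x y → a ∈ G.nb x → x ∈ G.nb b := by
    intro x y hx hxy hxa
    rcases HL_sup76 h (G.sym _ _ hxa) (ne_of_nb5 hx).symm with h1 | h1
    · exact absurd (h1 ▸ hx) hbz
    · exact h1
  have hvb := toY hv ht hva
  have hwb := toY hw ht' hwa
  have hvw : v ≠ w := ne_of_nb5 ht.1
  have hvR := inR v hv
  have hwR := inR w hw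
  have hwI := (q_I76 hq hG.reg hvR ht).2
  have hzv : z ∈ G.nb v := G.sym _ _ hv
  have hbv : b ∈ G.nb v := G.sym _ _ hvb
  have hzb : z ≠ b := fun e => hbt.2 e
  -- at most one more common neighbour
  have F3 : ∀ x ∈ G.nb z, ∀ y ∈ G.nb z, x ≠ a → x ≠ w → y ≠ a → y ≠ w → x ≠ y → x ∈ G.nb v →
      y ∈ G.nb v → False := by
    intro x hx y hy x1 x2 y1 y2 hxy hxv hyv
    have xv := ne_of_nb5 hxv
    have yv := ne_of_nb5 hyv
    have xz := ne_of_nb5 hx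
    have yz := ne_of_nb5 hy
    have wz := ne_of_nb5 hw
    have az := ne_of_nb5 ha
    have xb : x ≠ b := fun e => hbz (e ▸ hx)
    have yb : y ≠ b := fun e => hbz (e ▸ hy)
    have wb : w ≠ b := fun e => hbz (e ▸ hw)
    have ab : a ≠ b := fun e => hbz (e ▸ ha)
    have aw : a ≠ w := fun e => hat (e ▸ ⟨v, ht'⟩)
    by_cases hIv : G.I Fa v = ∅
    · have h1 := lq_D0_86 hG n12 hl ht hv ⟨hz, hI⟩ ⟨hvR, hIv⟩ ⟨hwR, hwI.trans hIv⟩
      have h2 := len_le33 (S := G.nb z ∩ G.nb v) [w, a, x, y] (by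
        simp only [List.nodup_cons, List.mem_cons, List.not_mem_nil, or_false, not_or,
          not_false_iff, List.nodup_nil, and_true]
        exact ⟨⟨aw.symm, x2.symm, y2.symm⟩, ⟨x1.symm, y1.symm⟩, hxy⟩) (by
        intro u hu
        simp only [List.mem_cons, List.not_mem_nil, or_false] at hu
        rw [mem_inter]
        rcases hu with rfl | rfl | rfl | rfl
        exacts [⟨hw, ht.1⟩, ⟨ha, hva⟩, ⟨hx, hxv⟩, ⟨hy, hyv⟩])
      simp only [List.length_cons, List.length_nil] at h2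
      omega
    · have h1 := vis33 hG hvR ⟨w, ht⟩ hIv
      have h2 := len_le33 (S := G.nR Fa v) [w, z, a, b, x, y] (by
        simp only [List.nodup_cons, List.mem_cons, List.not_mem_nil, or_false, not_or,
          not_false_iff, List.nodup_nil, and_true]
        exact ⟨⟨wz.symm, aw.symm, wb, x2.symm, y2.symm⟩, ⟨az, hzb, xz, yz⟩,
          ⟨ab, x1.symm, y1.symm⟩, ⟨xb.symm, yb.symm⟩, hxy⟩) (by
        intro u hu
        simp only [List.mem_cons, List.not_mem_nil, or_false] at hu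
        rw [mem_nR76]
        rcases hu with rfl | rfl | rfl | rfl | rfl | rfl
        exacts [⟨ht.1, hwR⟩, ⟨hzv, hz⟩, ⟨hva, haR⟩, ⟨hbv, hbR⟩, ⟨hxv, inR _ hx⟩,
          ⟨hyv, inR _ hy⟩])
      simp only [List.length_cons, List.length_nil] at h2
      omega
  -- six different vertices of `N(z) - a`
  have hX5 : ((G.nb z).erase a).card = 5 := by
    rw [card_erase_of_mem ha]
    have : (G.nb z).card = 6 := hl
    omega
  have six : ∀ x1 x2 x3 x4 x5 x6 : V, [x1, x2, x3, x4, x5, x6].Nodup →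
      (∀ x ∈ [x1, x2, x3, x4, x5, x6], x ∈ G.nb z ∧ x ≠ a) → False := by
    intro x1 x2 x3 x4 x5 x6 h1 h2
    have h3 := len_le33 (S := (G.nb z).erase a) _ h1 (fun x hx =>
      mem_erase.2 ⟨(h2 x hx).2, (h2 x hx).1⟩)
    simp only [List.length_cons, List.length_nil] at h3
    omega
  have hN := N_zab33 h hl
  have hcard3 : ({z, a, b} : Finset V).card = 3 := by
    rw [card_insert_of_notMem, card_pair]
    · exact fun e => hbz (e ▸ ha)
    · rw [mem_insert, mem_singleton]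
      exact fun e => e.elim (fun e => ne_of_nb5 ha e) hzb
  -- at most one vertex of `N(z) - a` is not adjacent to `b`
  have sym1 : ∀ x ∈ G.nb z, ∀ y ∈ G.nb z, x ≠ a → y ≠ a → x ≠ y → x ∉ G.nb b → y ∉ G.nb b →
      x ∉ G.nb v → False := by
    intro x hx y hy xa ya hxy hxb hyb hxv
    have hxv' : x ≠ v := fun e => hxb (e ▸ hvb)
    have hxw : x ≠ w := fun e => hxb (e ▸ hwb)
    have hyv' : y ≠ v := fun e => hyb (e ▸ hvb)
    have hyw : y ≠ w := fun e => hyb (e ▸ hwb)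
    rcases cov x hx with ⟨v1, w1, g1, g2, g3, g4, g5⟩ | g
    swap
    · exact hxb g.2
    rcases cov y hy with ⟨v2, w2, k1, k2, k3, k4, k5⟩ | k
    swap
    · exact hyb k.2
    have e1 : v1 ≠ v := fun e => hxv (e ▸ g4)
    have e2 : v1 ≠ w := by
      rintro rfl
      exact hxv (Tw_nb5 ht' g4 hxv')
    obtain ⟨e3, e4⟩ := pair_disj33 n9 ht g3 e1 e2
    have e5 : v1 ≠ w1 := ne_of_nb5 g3.1
    have e6 : v1 ≠ x := ne_of_nb5 g4
    have e7 : w1 ≠ x := ne_of_nb5 g5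
    have a1 : v1 ≠ a := twa g3
    have a2 : w1 ≠ a := twa (hTw.symm _ _ g3)
    -- `y` is one of `v1`, `w1`
    have hy1 : y = v1 ∨ y = w1 := by
      by_contra hc1
      rw [not_or] at hc1
      refine six v w v1 w1 x y ?_ ?_
      · simp only [List.nodup_cons, List.mem_cons, List.not_mem_nil, or_false, not_or,
          not_false_iff, List.nodup_nil, and_true]
        exact ⟨⟨hvw, e1.symm, e3.symm, hxv'.symm, hyv'.symm⟩, ⟨e2.symm, e4.symm, hxw.symm,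
          hyw.symm⟩, ⟨e5, e6, Ne.symm hc1.1⟩, ⟨e7, Ne.symm hc1.2⟩, hxy⟩
      · intro u hu
        simp only [List.mem_cons, List.not_mem_nil, or_false] at hu
        rcases hu with rfl | rfl | rfl | rfl | rfl | rfl
        exacts [⟨hv, twa ht⟩, ⟨hw, twa ht'⟩, ⟨g1, a1⟩, ⟨g2, a2⟩, ⟨hx, xa⟩, ⟨hy, ya⟩]
    have hyt : ∃ y', G.Tw y y' ∧ y' ∈ G.nb z ∧ y' ≠ v ∧ y' ≠ w ∧ y' ≠ a := by
      rcases hy1 with rfl | rfl
      · exact ⟨w1, g3, g2, e3, e4, a2⟩
      · exact ⟨v1, hTw.symm _ _ g3, g1, e1, e2, a1⟩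
    obtain ⟨y', t1, t2, t3, t4, t5⟩ := hyt
    -- the pair that covers `y`
    have f1 : v2 ≠ y := ne_of_nb5 k4
    have f2 : w2 ≠ y := ne_of_nb5 k5
    have f3 : v2 ≠ y' := by
      rintro rfl
      exact f2 (hTw.uniq n9 _ _ _ k3 (hTw.symm _ _ t1))
    obtain ⟨f4, f5⟩ := pair_disj33 n9 t1 k3 f1 f3
    by_cases hv2 : v2 = v ∨ v2 = w
    · have hyv : y ∈ G.nb v := by
        rcases hv2 with rfl | rfl
        · exact k4
        · exact Tw_nb5 ht' k4 hyv'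
      have hy'v : y' ∈ G.nb v :=
        G.sym _ _ (Tw_nb5 t1 (G.sym _ _ hyv) (fun e => t3 e.symm))
      exact F3 y hy y' t2 ya hyw t5 t4 (ne_of_nb5 t1.1) hyv hy'v
    · rw [not_or] at hv2
      obtain ⟨f6, f7⟩ := pair_disj33 n9 ht k3 hv2.1 hv2.2
      refine six v w y y' v2 w2 ?_ ?_
      · simp only [List.nodup_cons, List.mem_cons, List.not_mem_nil, or_false, not_or,
          not_false_iff, List.nodup_nil, and_true]
        exact ⟨⟨hvw, hyv'.symm, t3.symm, Ne.symm hv2.1, f6.symm⟩, ⟨hyw.symm, t4.symm,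
          Ne.symm hv2.2, f7.symm⟩, ⟨ne_of_nb5 t1.1, f1.symm, f2.symm⟩, ⟨f3.symm, f5.symm⟩,
          ne_of_nb5 k3.1⟩
      · intro u hu
        simp only [List.mem_cons, List.not_mem_nil, or_false] at hu
        rcases hu with rfl | rfl | rfl | rfl | rfl | rfl
        exacts [⟨hv, twa ht⟩, ⟨hw, twa ht'⟩, ⟨hy, ya⟩, ⟨t2, t5⟩, ⟨k1, twa k3⟩,
          ⟨k2, twa (hTw.symm _ _ k3)⟩]
  have uniq : ∀ x ∈ G.nb z, ∀ y ∈ G.nb z, x ≠ a → y ≠ a → x ∉ G.nb b → y ∉ G.nb b → x = y := by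
    intro x hx y hy xa ya hxb hyb
    by_contra hxy
    by_cases hxv : x ∈ G.nb v
    · by_cases hyv : y ∈ G.nb v
      · exact F3 x hx y hy xa (fun e => hxb (e ▸ hwb)) ya (fun e => hyb (e ▸ hwb)) hxy hxv hyv
      · exact sym1 y hy x hx ya xa (Ne.symm hxy) hyb hxb hyv
    · exact sym1 x hx y hy xa ya hxy hxb hyb hxv
  -- there is exactly one such vertex
  obtain ⟨y0, hy0, y0a, y0b⟩ : ∃ y ∈ G.nb z, y ≠ a ∧ y ∉ G.nb b := by
    by_contra hc1
    have h1 : (G.nb z).erase a ⊆ (G.nb z).erase a ∩ G.nb b := by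
      intro x hx
      refine mem_inter.2 ⟨hx, ?_⟩
      by_contra hxb
      exact hc1 ⟨x, (mem_erase.1 hx).2, (mem_erase.1 hx).1, hxb⟩
    have h2 := card_le_card h1
    have h3 := six_le86 G (S := {z, a, b}) ⟨z, by simp⟩ (by omega)
    omega
  have hY : (G.nb z).erase a ∩ G.nb b = ((G.nb z).erase a).erase y0 := by
    ext x
    rw [mem_inter, mem_erase, mem_erase, mem_erase]
    constructor
    · rintro ⟨h1, h2⟩
      exact ⟨fun e => y0b (e ▸ h2), h1⟩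
    · rintro ⟨h1, h2⟩
      refine ⟨h2, ?_⟩
      by_contra hxb
      exact h1 (uniq x h2.2 y0 hy0 h2.1 y0a hxb y0b)
  have hY4 : ((G.nb z).erase a ∩ G.nb b).card = 4 := by
    rw [hY, card_erase_of_mem (mem_erase.2 ⟨y0a, hy0⟩)]
    omega
  -- `b` is in a neighbourhood
  have hIab := HL_I76 h haR hbR hz
  have hIb : G.I Fa b ≠ ∅ := by
    intro hIb
    have h1 := E03_86 hG n12 hcard3 (by
      intro u hu
      rw [mem_insert, mem_insert, mem_singleton] at hu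
      rcases hu with rfl | rfl | rfl
      exacts [⟨hz, hI⟩, ⟨haR, hIab.trans hIb⟩, ⟨hbR, hIb⟩])
    omega
  obtain ⟨B, hB⟩ := nonempty_iff_ne_empty.2 hIb
  obtain ⟨hBF, hbN⟩ := mem_I76.1 hB
  obtain ⟨-, w0, hw0, hbw0⟩ := mem_N76.1 hbN
  have hw0R : w0 ∉ R Fa := fun e => mem_R76.1 e B hBF hw0
  have hnb : G.nR Fa b = insert a ((G.nb z).erase a ∩ G.nb b) := by
    symm
    apply Finset.eq_of_subset_of_card_le
    · intro x hx
      rw [mem_nR76]
      rcases mem_insert.1 hx with rfl | hx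
      · exact ⟨G.sym _ _ (HL_b76 h), haR⟩
      · rw [mem_inter, mem_erase] at hx
        exact ⟨hx.2, inR x hx.1.2⟩
    · rw [card_insert_of_notMem (by simp), hY4]
      have h1 : G.nR Fa b ⊆ (G.nb b).erase w0 := by
        intro x hx
        rw [mem_nR76] at hx
        exact mem_erase.2 ⟨fun e => hw0R (e ▸ hx.2), hx.1⟩
      have h2 := card_le_card h1
      rw [card_erase_of_mem (G.sym _ _ hbw0)] at h2
      have h3 : (G.nb b).card = 6 := h.2.1
      omega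
  have inY : ∀ x ∈ G.nR Fa b, x ≠ a → x ∈ G.nb z ∧ x ∈ G.nb b := by
    intro x hx hxa
    rw [hnb, mem_insert] at hx
    rcases hx with hx | hx
    · exact absurd hx hxa
    · rw [mem_inter, mem_erase] at hx
      exact ⟨hx.1.2, hx.2⟩
  -- the edge `b v`
  have hm : G.m Fa b v = 0 := by
    rw [m, card_eq_zero, eq_empty_iff_forall_notMem]
    intro D hD
    obtain ⟨h1, h2⟩ := mem_inter.1 hD
    have h3 := (hX v hv (twa ht)).2.1
    have h4 : G.I Fa v = {D} := by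
      apply eq_singleton_iff_unique_mem.2
      exact ⟨h2, fun D' hD' => card_le_one.1 h3 D' hD' D h2⟩
    have h5 := (mem_I76.1 h1).2
    have h6 := (mem_I76.1 (hIab.symm ▸ h1 : D ∈ G.I Fa a)).2
    exact vT33 hG hvR ht h4 hva hbv h6 h5 (fun e => hbz (e ▸ ha))
      (fun e => hat (e ▸ ⟨v, ht'⟩)) (fun e => hbz (e ▸ hw))
  have hvbR : v ∈ G.nR Fa b := mem_nR76.2 ⟨hvb, hvR⟩
  have notw : ¬ G.Low v := tw_not_low33 ⟨w, ht⟩
  rcases cov3_76 hq hT hbR hvbR hm with h1 | h1 | h1 | h1 | h1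
  · obtain ⟨u, h2, -, h3, -⟩ := h1
    by_cases hua : u = a
    · exact hal (hua ▸ h3)
    · exact nolow u (inY u h2 hua).1 h3
  · obtain ⟨v1, w1, h2, h3, h4, h5, h6⟩ := h1
    have g1 := inY v1 h2 (twa h4)
    have g2 := inY w1 h3 (twa (hTw.symm _ _ h4))
    have e1 : v1 ≠ w := by
      rintro rfl
      exact ne_of_nb5 h6 (hTw.uniq n9 _ _ _ h4 ht')
    have e2 : w1 ≠ w := by
      rintro rfl
      exact ne_of_nb5 h5 (hTw.uniq n9 _ _ _ (hTw.symm _ _ h4) ht')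
    exact F3 v1 g1.1 w1 g2.1 (twa h4) e1 (twa (hTw.symm _ _ h4)) e2 (ne_of_nb5 h4.1)
      (G.sym _ _ h5) (G.sym _ _ h6)
  · obtain ⟨a', b', h2, h3, -, h4, h5, h6⟩ := h1
    have e1 : a' ≠ a := by
      rintro rfl
      exact hTw.nomut n9 _ _ _ _ _ h4 h rfl
    have g1 := inY a' h2 e1
    have h7 : a' ∈ G.nb v := G.sym _ _ (HL_sub76 h4 h5 h6)
    have h8 : ¬ G.IsTw a' := hTw.notHL n9 _ _ _ h4
    have e2 : a' ≠ w := fun e => h8 (e ▸ ⟨v, ht'⟩)
    have e3 : a' ≠ v := Ne.symm h6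
    have e4 : a' ≠ y0 := fun e => y0b (e ▸ g1.2)
    have y0w : y0 ≠ w := fun e => y0b (e ▸ hwb)
    have y0v : y0 ≠ v := fun e => y0b (e ▸ hvb)
    rcases cov y0 hy0 with ⟨v1, w1, g1', g2, g3, g4, g5⟩ | g
    swap
    · exact y0b g.2
    by_cases hv1 : v1 = v ∨ v1 = w
    · have hyv : y0 ∈ G.nb v := by
        rcases hv1 with rfl | rfl
        · exact g4
        · exact Tw_nb5 ht' g4 y0v
      exact F3 a' g1.1 y0 hy0 e1 e2 y0a y0w e4 h7 hyv
    · rw [not_or] at hv1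
      obtain ⟨f6, f7⟩ := pair_disj33 n9 ht g3 hv1.1 hv1.2
      refine six v w v1 w1 a' y0 ?_ ?_
      · simp only [List.nodup_cons, List.mem_cons, List.not_mem_nil, or_false, not_or,
          not_false_iff, List.nodup_nil, and_true]
        exact ⟨⟨hvw, Ne.symm hv1.1, f6.symm, e3.symm, y0v.symm⟩, ⟨Ne.symm hv1.2, f7.symm,
          e2.symm, y0w.symm⟩, ⟨ne_of_nb5 g3.1, fun e => h8 (e ▸ ⟨w1, g3⟩), ne_of_nb5 g4⟩,
          ⟨fun e => h8 (e ▸ ⟨v1, hTw.symm _ _ g3⟩), ne_of_nb5 g5⟩, e4⟩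
      · intro u hu
        simp only [List.mem_cons, List.not_mem_nil, or_false] at hu
        rcases hu with rfl | rfl | rfl | rfl | rfl | rfl
        exacts [⟨hv, twa ht⟩, ⟨hw, twa ht'⟩, ⟨g1', twa g3⟩, ⟨g2, twa (hTw.symm _ _ g3)⟩,
          ⟨g1.1, e1⟩, ⟨hy0, y0a⟩]
  · obtain ⟨a', b', -, -, h2, -⟩ := h1
    exact notw h2
  · obtain ⟨a', b', -, -, -, h2⟩ := h1
    exact twLL_5 (LL_symm76 h2) ⟨w, ht⟩

/-- the cover of the edge `z x` -/
theorem L0cov33 (hG : G.Gen5 Fa) (n12 : 12 ≤ Fintype.card V) {z : V} (hz : z ∈ R Fa)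
    (hl : G.Low z) (hI : G.I Fa z = ∅) (hc : (G.NF Fa z).card ≤ 1) {x : V} (hx : x ∈ G.nb z) :
    (∃ l' ∈ G.nb z, G.Low l' ∧ l' ≠ x ∧ (x ∈ G.nb l' ∨ ∃ b ∈ R Fa, G.LL l' b z x)) ∨
    (∃ v w, v ∈ G.nb z ∧ w ∈ G.nb z ∧ G.Tw v w ∧ x ∈ G.nb v ∧ x ∈ G.nb w) := by
  have hnR : G.nR Fa z = G.nb z := nRall33 hz hI
  have hxR : x ∈ G.nR Fa z := hnR.symm ▸ hx
  rcases cov3_76 (qs16 G) (tor86 hG) hz hxR (m_empty5 hI) with h1 | h1 | h1 | h1 | h1
  · obtain ⟨w, h2, -, h3, h4⟩ := h1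
    exact Or.inl ⟨w, (mem_nR76.1 h2).1, h3, ne_of_nb5 h4, Or.inl h4⟩
  · obtain ⟨v, w, h2, h3, h4, h5, h6⟩ := h1
    exact Or.inr ⟨v, w, (mem_nR76.1 h2).1, (mem_nR76.1 h3).1, h4, h5, h6⟩
  · obtain ⟨a', b', h2, -, -, h4, -⟩ := h1
    exact (noT33 hG n12 hz hl hI hc (mem_nR76.1 h2).1 h4).elim
  · obtain ⟨a', b', h2, -, h3, h4, -⟩ := h1
    have h5 := card_le_one.1 hc b' (mem_NF33.2 ⟨h2, Or.inl h4.2.1⟩) x
      (mem_NF33.2 ⟨hxR, Or.inl h3⟩)
    exact absurd h5.symm (HL_bt76 h4).2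
  · obtain ⟨a', b', h2, h3, -, h4⟩ := h1
    exact Or.inl ⟨a', (mem_nR76.1 h2).1, h4.1, (LL_ua76 h4).2.symm, Or.inr ⟨b', h3, h4⟩⟩

/-- there is a pair of twins -/
theorem L0pair33 (hG : G.Gen5 Fa) (n12 : 12 ≤ Fintype.card V) {z : V} (hz : z ∈ R Fa)
    (hl : G.Low z) (hI : G.I Fa z = ∅) (hc : (G.NF Fa z).card ≤ 1) :
    ∃ v w, v ∈ G.nb z ∧ w ∈ G.nb z ∧ G.Tw v w := by
  by_contra h
  have hnR : G.nR Fa z = G.nb z := nRall33 hz hI
  have key : ∀ x ∈ G.nb z, ∃ l' ∈ G.NF Fa z, l' ≠ x := by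
    intro x hx
    rcases L0cov33 hG n12 hz hl hI hc hx with h1 | h1
    · obtain ⟨l', h2, h3, h4, -⟩ := h1
      exact ⟨l', mem_NF33.2 ⟨hnR.symm ▸ h2, Or.inl h3⟩, h4⟩
    · obtain ⟨v, w, h2, h3, h4, -⟩ := h1
      exact absurd ⟨v, w, h2, h3, h4⟩ h
  have h6 : (G.nb z).card = 6 := hl
  obtain ⟨x, hx⟩ : (G.nb z).Nonempty := card_pos.1 (by omega)
  obtain ⟨l1, h1, -⟩ := key x hx
  obtain ⟨l2, h2, h3⟩ := key l1 (hnR ▸ (mem_NF33.1 h1).1)
  exact h3 (card_le_one.1 hc l2 h2 l1 h1)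

/-- not three pairs of twins -/
theorem L0three33 (hG : G.Gen5 Fa) (n12 : 12 ≤ Fintype.card V) {z : V} (hz : z ∈ R Fa)
    (hl : G.Low z) (hI : G.I Fa z = ∅) (hc : (G.NF Fa z).card ≤ 1) {v w v' w' x y : V}
    (hnb : G.nb z = {v, w, v', w', x, y}) (t1 : G.Tw v w) (t2 : G.Tw v' w') (t3 : G.Tw x y) :
    False := by
  have n9 := hG.n9
  have hTw := stTwHL_5 G
  have h6 : (G.nb z).card = 6 := hl
  have nd : [v, w, v', w', x, y].Nodup := by
    have h1 : [v, w, v', w', x, y].toFinset = G.nb z := by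
      rw [hnb]
      ext u
      simp
    have h2 := List.toFinset_card_le [v, w, v', w', x, y]
    have h3 : [v, w, v', w', x, y].dedup.length = [v, w, v', w', x, y].length := by
      rw [← List.card_toFinset, h1, h6]
      rfl
    rw [← List.dedup_eq_self]
    exact (List.dedup_sublist _).eq_of_length h3
  simp only [List.nodup_cons, List.mem_cons, List.not_mem_nil, or_false, not_or,
    not_false_iff, List.nodup_nil, and_true] at nd
  obtain ⟨⟨d1, d2, d3, d4, d5⟩, ⟨d6, d7, d8, d9⟩, ⟨d10, d11, d12⟩, ⟨d13, d14⟩, d15⟩ := nd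
  have mem : ∀ u, u ∈ G.nb z ↔ u = v ∨ u = w ∨ u = v' ∨ u = w' ∨ u = x ∨ u = y := by
    intro u
    rw [hnb]
    simp
  have tw : ∀ u ∈ G.nb z, G.IsTw u := by
    intro u hu
    rcases (mem u).1 hu with rfl | rfl | rfl | rfl | rfl | rfl
    exacts [⟨_, t1⟩, ⟨_, hTw.symm _ _ t1⟩, ⟨_, t2⟩, ⟨_, hTw.symm _ _ t2⟩, ⟨_, t3⟩,
      ⟨_, hTw.symm _ _ t3⟩]
  -- adjacency between pairs
  have full : ∀ {a b c d : V}, G.Tw a b → G.Tw c d → a ≠ c → a ≠ d → b ≠ c → b ≠ d →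
      (c ∈ G.nb a ∨ d ∈ G.nb a ∨ c ∈ G.nb b ∨ d ∈ G.nb b) →
      c ∈ G.nb a ∧ d ∈ G.nb a ∧ a ∈ G.nb c ∧ a ∈ G.nb d := by
    intro a b c d h1 h2 e1 e2 e3 e4 h3
    have h4 : c ∈ G.nb a := by
      rcases h3 with h3 | h3 | h3 | h3
      · exact h3
      · exact G.sym _ _ (Tw_nb5 (hTw.symm _ _ h2) (G.sym _ _ h3) e1)
      · exact Tw_nb5 (hTw.symm _ _ h1) h3 e1.symm
      · have h5 := Tw_nb5 (hTw.symm _ _ h1) h3 e2.symm
        exact G.sym _ _ (Tw_nb5 (hTw.symm _ _ h2) (G.sym _ _ h5) e1)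
    have h5 : d ∈ G.nb a := G.sym _ _ (Tw_nb5 h2 (G.sym _ _ h4) e2)
    exact ⟨h4, h5, G.sym _ _ h4, G.sym _ _ h5⟩
  have cov : ∀ u ∈ G.nb z, ∃ a b, a ∈ G.nb z ∧ G.Tw a b ∧ u ∈ G.nb a ∧ u ∈ G.nb b := by
    intro u hu
    rcases L0cov33 hG n12 hz hl hI hc hu with h1 | h1
    · obtain ⟨l', h2, h3, -⟩ := h1
      exact absurd h3 (tw_not_low33 (tw l' h2))
    · obtain ⟨a, b, h2, -, h4, h5, h6⟩ := h1
      exact ⟨a, b, h2, h4, h5, h6⟩
  -- every pair is adjacent to another one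
  have step : ∀ {a b c d e f : V}, G.Tw a b → G.Tw c d → G.Tw e f → a ∈ G.nb z →
      (∀ u ∈ G.nb z, u = a ∨ u = b ∨ u = c ∨ u = d ∨ u = e ∨ u = f) →
      a ∈ G.nb c ∨ a ∈ G.nb d ∨ a ∈ G.nb e ∨ a ∈ G.nb f := by
    intro a b c d e f h1 h2 h3 ha hall
    obtain ⟨u, u', k1, k2, k3, k4⟩ := cov a ha
    rcases hall u k1 with rfl | rfl | rfl | rfl | rfl | rfl
    · exact absurd k3 (G.irr _)
    · have := hTw.uniq n9 _ _ _ k2 (hTw.symm _ _ h1)
      subst this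
      exact absurd k4 (G.irr _)
    · exact Or.inl k3
    · exact Or.inr (Or.inl k3)
    · exact Or.inr (Or.inr (Or.inl k3))
    · exact Or.inr (Or.inr (Or.inr k3))
  -- five common neighbours
  have five : ∀ {a b c d e f : V}, G.Tw a b → a ∈ G.nb z → b ∈ G.nb z → c ∈ G.nb z →
      d ∈ G.nb z → e ∈ G.nb z → f ∈ G.nb z → [b, c, d, e, f].Nodup → c ∈ G.nb a →
      d ∈ G.nb a → e ∈ G.nb a → f ∈ G.nb a → False := by
    intro a b c d e f h1 ha hb hc hd he hf hnd k1 k2 k3 k4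
    have h2 := lq_le86 n9 hl h1 ha
    have h3 := len_le33 (S := G.nb z ∩ G.nb a) _ hnd (by
      intro u hu
      simp only [List.mem_cons, List.not_mem_nil, or_false] at hu
      rw [mem_inter]
      rcases hu with rfl | rfl | rfl | rfl | rfl
      exacts [⟨hb, h1.1⟩, ⟨hc, k1⟩, ⟨hd, k2⟩, ⟨he, k3⟩, ⟨hf, k4⟩])
    simp only [List.length_cons, List.length_nil] at h3
    omega
  have mv : v ∈ G.nb z := (mem v).2 (by tauto)
  have mw : w ∈ G.nb z := (mem w).2 (by tauto)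
  have mv' : v' ∈ G.nb z := (mem v').2 (by tauto)
  have mw' : w' ∈ G.nb z := (mem w').2 (by tauto)
  have mx : x ∈ G.nb z := (mem x).2 (by tauto)
  have my : y ∈ G.nb z := (mem y).2 (by tauto)
  have s1 := step t1 t2 t3 mv (fun u hu => (mem u).1 hu)
  have s2 := step t2 t1 t3 mv' (fun u hu => by have := (mem u).1 hu; tauto)
  have s3 := step t3 t1 t2 mx (fun u hu => by have := (mem u).1 hu; tauto)
  have f12 := full t1 t2 d2 d3 d6 d7
  have f13 := full t1 t3 d4 d5 d8 d9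
  have f23 := full t2 t3 d11 d12 d13 d14
  have n21 : [w', v, w, x, y].Nodup := by
    simp only [List.nodup_cons, List.mem_cons, List.not_mem_nil, or_false, not_or,
      not_false_iff, List.nodup_nil, and_true]
    exact ⟨⟨Ne.symm d3, Ne.symm d7, d13, d14⟩, ⟨d1, d4, d5⟩, ⟨d8, d9⟩, d15⟩
  have n1 : [w, v', w', x, y].Nodup := by
    simp only [List.nodup_cons, List.mem_cons, List.not_mem_nil, or_false, not_or,
      not_false_iff, List.nodup_nil, and_true]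
    exact ⟨⟨d6, d7, d8, d9⟩, ⟨d10, d11, d12⟩, ⟨d13, d14⟩, d15⟩
  have n3 : [y, v, w, v', w'].Nodup := by
    simp only [List.nodup_cons, List.mem_cons, List.not_mem_nil, or_false, not_or,
      not_false_iff, List.nodup_nil, and_true]
    exact ⟨⟨Ne.symm d5, Ne.symm d9, Ne.symm d12, Ne.symm d14⟩, ⟨d1, d2, d3⟩, ⟨d6, d7⟩, d10⟩
  have tot : ∀ {a b c d : V}, G.Tw a b → G.Tw c d → a ≠ c → a ≠ d → b ≠ c → b ≠ d →
      (c ∈ G.nb a ∨ d ∈ G.nb a ∨ c ∈ G.nb b ∨ d ∈ G.nb b) →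
      (c ∈ G.nb a ∧ d ∈ G.nb a) ∧ (a ∈ G.nb c ∧ b ∈ G.nb c) := by
    intro a b c d h1 h2 e1 e2 e3 e4 h3
    have k1 := full h1 h2 e1 e2 e3 e4 h3
    exact ⟨⟨k1.1, k1.2.1⟩, k1.2.2.1, G.sym _ _ (Tw_nb5 h1 k1.1 e3.symm)⟩
  have c12 : (v' ∈ G.nb v ∨ w' ∈ G.nb v ∨ v' ∈ G.nb w ∨ w' ∈ G.nb w) →
      (x ∈ G.nb v ∨ y ∈ G.nb v ∨ x ∈ G.nb w ∨ y ∈ G.nb w) → False := by
    intro h1 h2
    have k1 := tot t1 t2 d2 d3 d6 d7 h1
    have k2 := tot t1 t3 d4 d5 d8 d9 h2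
    exact five t1 mv mw mv' mw' mx my n1 k1.1.1 k1.1.2 k2.1.1 k2.1.2
  have c21 : (v' ∈ G.nb v ∨ w' ∈ G.nb v ∨ v' ∈ G.nb w ∨ w' ∈ G.nb w) →
      (x ∈ G.nb v' ∨ y ∈ G.nb v' ∨ x ∈ G.nb w' ∨ y ∈ G.nb w') → False := by
    intro h1 h2
    have k1 := tot t1 t2 d2 d3 d6 d7 h1
    have k2 := tot t2 t3 d11 d12 d13 d14 h2
    exact five t2 mv' mw' mv mw mx my n21 k1.2.1 k1.2.2 k2.1.1 k2.1.2
  have c31 : (x ∈ G.nb v ∨ y ∈ G.nb v ∨ x ∈ G.nb w ∨ y ∈ G.nb w) →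
      (x ∈ G.nb v' ∨ y ∈ G.nb v' ∨ x ∈ G.nb w' ∨ y ∈ G.nb w') → False := by
    intro h1 h2
    have k1 := tot t1 t3 d4 d5 d8 d9 h1
    have k2 := tot t2 t3 d11 d12 d13 d14 h2
    exact five t3 mx my mv mw mv' mw' n3 k1.2.1 k1.2.2 k2.2.1 k2.2.2
  have sy : ∀ {a b : V}, a ∈ G.nb b → b ∈ G.nb a := fun {a b} h => G.sym _ _ h
  rcases s1 with h1 | h1 | h1 | h1
  · have p12 : v' ∈ G.nb v ∨ w' ∈ G.nb v ∨ v' ∈ G.nb w ∨ w' ∈ G.nb w := Or.inl (sy h1)
    rcases s3 with h3 | h3 | h3 | h3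
    · exact c12 p12 (Or.inl h3)
    · exact c12 p12 (Or.inr (Or.inr (Or.inl h3)))
    · exact c21 p12 (Or.inl h3)
    · exact c21 p12 (Or.inr (Or.inr (Or.inl h3)))
  · have p12 : v' ∈ G.nb v ∨ w' ∈ G.nb v ∨ v' ∈ G.nb w ∨ w' ∈ G.nb w :=
      Or.inr (Or.inl (sy h1))
    rcases s3 with h3 | h3 | h3 | h3
    · exact c12 p12 (Or.inl h3)
    · exact c12 p12 (Or.inr (Or.inr (Or.inl h3)))
    · exact c21 p12 (Or.inl h3)
    · exact c21 p12 (Or.inr (Or.inr (Or.inl h3)))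
  · have p13 : x ∈ G.nb v ∨ y ∈ G.nb v ∨ x ∈ G.nb w ∨ y ∈ G.nb w := Or.inl (sy h1)
    rcases s2 with h3 | h3 | h3 | h3
    · exact c12 (Or.inl h3) p13
    · exact c12 (Or.inr (Or.inr (Or.inl h3))) p13
    · exact c31 p13 (Or.inl (sy h3))
    · exact c31 p13 (Or.inr (Or.inl (sy h3)))
  · have p13 : x ∈ G.nb v ∨ y ∈ G.nb v ∨ x ∈ G.nb w ∨ y ∈ G.nb w := Or.inr (Or.inl (sy h1))
    rcases s2 with h3 | h3 | h3 | h3
    · exact c12 (Or.inl h3) p13
    · exact c12 (Or.inr (Or.inr (Or.inl h3))) p13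
    · exact c31 p13 (Or.inl (sy h3))
    · exact c31 p13 (Or.inr (Or.inl (sy h3)))

/-- M3c -/
theorem stM3c_33 (G : CG V) : G.StM3c := by
  intro Fa hG l hL a b q p hh ht hq hk hlow hu htw
  have hnR : G.nR Fa l = G.nb l := nRall33 hL.lR hL.I0
  have hn := hG.n13
  have hsub : G.NF Fa l ⊆ {a} := by
    intro x hx
    rw [mem_singleton]
    by_contra hxa
    obtain ⟨h1, h2⟩ := mem_NF33.1 hx
    have h3 : x ∈ G.nb l := (mem_nR76.1 h1).1
    rcases h2 with h2 | h2 | ⟨b', h2⟩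
    · exact hlow x h3 h2
    · rcases hu x h3 hxa with h4 | h4
      · have := htw x h3 h4
        omega
      · have := h4.2.1
        omega
    · rcases hu x h3 hxa with h4 | h4
      · exact (stTwHL_5 G).notHL hG.g5.n9 _ _ _ h2 h4
      · exact h4.2.2 ⟨b', h2⟩
  have hc := card_le_card hsub
  rw [card_singleton] at hc
  exact noT33 hG.g5 (by omega) hL.lR hL.low hL.I0 hc (G.sym _ _ (HL_t76 hh)) hh

/-- M3 -/
theorem stM3_33 (G : CG V) (h3b : G.StM3b) : G.StM3 := by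
  intro Fa hG l hL hneg
  have hg := hG.g5
  have n9 := hg.n9
  have n13 := hG.n13
  have n12 : 12 ≤ Fintype.card V := by omega
  have hTw := stTwHL_5 G
  have hz := hL.lR
  have hl := hL.low
  have hI := hL.I0
  have hc : (G.NF Fa l).card ≤ 1 := by
    have h1 := (stCh5_28 G).low0 n9 Fa hg.reg l hz hl hI
    omega
  have hnR : G.nR Fa l = G.nb l := nRall33 hz hI
  have h6 : (G.nb l).card = 6 := hl
  have hHL : ∀ x ∈ G.nb l, ¬ ∃ b, G.HL x b l := fun x hx ⟨b, hb⟩ =>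
    noT33 hg n12 hz hl hI hc hx hb
  have ktw : ∀ {x y : V}, x ∈ G.nb l → y ∈ G.nb l → G.Tw x y → (G.I Fa x).card ≤ 1 := by
    intro x y hx hy ht
    by_contra h
    have h1 := (q_I76 (qs16 G) hg.reg (mem_nR76.1 (hnR.symm ▸ hx : x ∈ G.nR Fa l)).2 ht).2
    exact ne_of_nb5 ht.1 (card_le_one.1 hc x (mem_NF33.2 ⟨hnR.symm ▸ hx, Or.inr (Or.inl
      (by omega))⟩) y (mem_NF33.2 ⟨hnR.symm ▸ hy, Or.inr (Or.inl (by rw [h1]; omega))⟩))
  have toPH : ∀ {l' x : V}, l' ∈ G.nb l → G.Low l' → x ∈ G.nb l → x ≠ l' → G.Hub x →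
      G.PH Fa l x := by
    intro l' x h1 h2 h3 h4 h5
    refine ⟨h5, ?_, hHL x h3⟩
    by_contra h
    exact h4 (card_le_one.1 hc x (mem_NF33.2 ⟨hnR.symm ▸ h3, Or.inr (Or.inl (by omega))⟩) l'
      (mem_NF33.2 ⟨hnR.symm ▸ h1, Or.inl h2⟩))
  have oneLow : ∀ {x y : V}, x ∈ G.nb l → y ∈ G.nb l → G.Low x → G.Low y → x = y := by
    intro x y h1 h2 h3 h4
    exact card_le_one.1 hc x (mem_NF33.2 ⟨hnR.symm ▸ h1, Or.inl h3⟩) y
      (mem_NF33.2 ⟨hnR.symm ▸ h2, Or.inl h4⟩)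
  obtain ⟨v, w, hv, hw, ht⟩ := L0pair33 hg n12 hz hl hI hc
  have ht' := hTw.symm _ _ ht
  have hvw : v ≠ w := ne_of_nb5 ht.1
  have partner : ∀ {x y : V}, x ∈ G.nb l → G.Tw x y → y ∈ G.nb l := by
    intro x y hx hxy
    have h1 : y ≠ l := by
      rintro rfl
      exact tw_not_low33 ⟨x, hTw.symm _ _ hxy⟩ hl
    exact G.sym _ _ (Tw_nb5 hxy (G.sym _ _ hx) h1.symm)
  have c4 : (((G.nb l).erase v).erase w).card = 4 := by
    rw [card_erase_of_mem (mem_erase.2 ⟨hvw.symm, hw⟩), card_erase_of_mem hv]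
    omega
  by_cases hA : ∃ v' ∈ ((G.nb l).erase v).erase w, G.IsTw v'
  · obtain ⟨v', hv', w', ht2⟩ := hA
    rw [mem_erase, mem_erase] at hv'
    obtain ⟨e2, e1, hv'⟩ := hv'
    have hw' := partner hv' ht2
    obtain ⟨e3, e4⟩ := pair_disj33 n9 ht ht2 e1 e2
    have e5 : v' ≠ w' := ne_of_nb5 ht2.1
    have c2 : ((((((G.nb l).erase v).erase w).erase v').erase w')).card = 2 := by
      rw [card_erase_of_mem, card_erase_of_mem, c4]
      · rw [mem_erase, mem_erase]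
        exact ⟨e2, e1, hv'⟩
      · rw [mem_erase, mem_erase, mem_erase]
        exact ⟨e5.symm, e4, e3, hw'⟩
    obtain ⟨x, y, hxy, hS⟩ := card_eq_two.1 c2
    have hmem : ∀ u, (u ∈ G.nb l ∧ u ≠ v ∧ u ≠ w ∧ u ≠ v' ∧ u ≠ w') ↔ (u = x ∨ u = y) := by
      intro u
      have h1 : u ∈ ((((G.nb l).erase v).erase w).erase v').erase w' ↔
          u ∈ ({x, y} : Finset V) := by rw [hS]
      simp only [mem_erase, mem_insert, mem_singleton] at h1
      tauto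
    obtain ⟨hx, x1, x2, x3, x4⟩ := (hmem x).2 (Or.inl rfl)
    obtain ⟨hy, y1, y2, y3, y4⟩ := (hmem y).2 (Or.inr rfl)
    have hnb : G.nb l = {v, w, v', w', x, y} := by
      ext u
      simp only [mem_insert, mem_singleton]
      constructor
      · intro hu
        by_cases h1 : u = v
        · exact Or.inl h1
        by_cases h2 : u = w
        · exact Or.inr (Or.inl h2)
        by_cases h3 : u = v'
        · exact Or.inr (Or.inr (Or.inl h3))
        by_cases h4 : u = w'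
        · exact Or.inr (Or.inr (Or.inr (Or.inl h4)))
        exact Or.inr (Or.inr (Or.inr (Or.inr ((hmem u).1 ⟨hu, h1, h2, h3, h4⟩))))
      · rintro (rfl | rfl | rfl | rfl | rfl | rfl) <;> assumption
    have hxt : ¬ G.IsTw x := by
      rintro ⟨x', hx'⟩
      have h1 := partner hx hx'
      obtain ⟨g1, g2⟩ := pair_disj33 n9 ht hx' x1 x2
      obtain ⟨g3, g4⟩ := pair_disj33 n9 ht2 hx' x3 x4
      rcases (hmem x').1 ⟨h1, g1, g2, g3, g4⟩ with h2 | h2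
      · exact ne_of_nb5 hx'.1 h2.symm
      · subst h2
        exact L0three33 hg n12 hz hl hI hc hnb ht ht2 hx'
    have hyt : ¬ G.IsTw y := by
      rintro ⟨y', hy'⟩
      have h1 := partner hy hy'
      obtain ⟨g1, g2⟩ := pair_disj33 n9 ht hy' y1 y2
      obtain ⟨g3, g4⟩ := pair_disj33 n9 ht2 hy' y3 y4
      rcases (hmem y').1 ⟨h1, g1, g2, g3, g4⟩ with h2 | h2
      · subst h2
        exact hxt ⟨_, hTw.symm _ _ hy'⟩
      · exact ne_of_nb5 hy'.1 h2.symm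
    by_cases lx : G.Low x
    · by_cases ly : G.Low y
      · exact absurd (oneLow hx hy lx ly) hxy
      · left
        refine ⟨x, v, w, v', w', y, ⟨hL, ?_, lx, ht, ht2, ktw hv hw ht, ktw hv' hw' ht2,
          toPH hx lx hy hxy.symm ⟨ly, hyt⟩⟩⟩
        rw [hnb]
        ext u
        simp only [mem_insert, mem_singleton]
        tauto
    · by_cases ly : G.Low y
      · left
        refine ⟨y, v, w, v', w', x, ⟨hL, ?_, ly, ht, ht2, ktw hv hw ht, ktw hv' hw' ht2,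
          toPH hy ly hx hxy ⟨lx, hxt⟩⟩⟩
        rw [hnb]
        ext u
        simp only [mem_insert, mem_singleton]
        tauto
      · right
        left
        rcases h3b Fa hG l hL v w v' w' x y hnb ht ht2 ⟨lx, hxt⟩ ⟨ly, hyt⟩ (hHL x hx) (hHL y hy)
          (ktw hv hw ht) (ktw hv' hw' ht2) with h | h
        · exact ⟨_, _, _, _, _, _, h⟩
        · exact ⟨_, _, _, _, _, _, h⟩
  · have hB : ∀ u ∈ G.nb l, u ≠ v → u ≠ w → ¬ G.IsTw u := fun u hu h1 h2 h3 =>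
      hA ⟨u, mem_erase.2 ⟨h2, mem_erase.2 ⟨h1, hu⟩⟩, h3⟩
    obtain ⟨l', hl', hlow, -⟩ : ∃ l' ∈ G.nb l, G.Low l' ∧ l' ≠ v ∧
        (v ∈ G.nb l' ∨ ∃ b ∈ R Fa, G.LL l' b l v) := by
      rcases L0cov33 hg n12 hz hl hI hc hv with h1 | h1
      · exact h1
      · exfalso
        obtain ⟨v1, w1, k1, k2, k3, k4, k5⟩ := h1
        have g1 : v1 ≠ v := ne_of_nb5 k4
        have g2 : v1 ≠ w := by
          rintro rfl
          exact ne_of_nb5 k5 (hTw.uniq n9 _ _ _ k3 ht')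
        exact hB v1 k1 g1 g2 ⟨w1, k3⟩
    have g1 : l' ≠ v := fun e => tw_not_low33 ⟨w, ht⟩ (e ▸ hlow)
    have g2 : l' ≠ w := fun e => tw_not_low33 ⟨v, ht'⟩ (e ▸ hlow)
    have c3 : ((((G.nb l).erase v).erase w).erase l').card = 3 := by
      rw [card_erase_of_mem, c4]
      rw [mem_erase, mem_erase]
      exact ⟨g2, g1, hl'⟩
    obtain ⟨x, y, u, hxy, hxu, hyu, hS⟩ := card_eq_three.1 c3
    have hmem : ∀ t, (t ∈ G.nb l ∧ t ≠ v ∧ t ≠ w ∧ t ≠ l') ↔ (t = x ∨ t = y ∨ t = u) := by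
      intro t
      have h1 : t ∈ (((G.nb l).erase v).erase w).erase l' ↔ t ∈ ({x, y, u} : Finset V) := by
        rw [hS]
      simp only [mem_erase, mem_insert, mem_singleton] at h1
      tauto
    have fin : ∀ t, (t = x ∨ t = y ∨ t = u) → G.PH Fa l t := by
      intro t h1
      obtain ⟨h2, h3, h4, h5⟩ := (hmem t).2 h1
      exact toPH hl' hlow h2 h5 ⟨fun h6 => h5 (oneLow h2 hl' h6 hlow), hB t h2 h3 h4⟩
    right
    right
    refine ⟨l', v, w, x, y, u, ⟨hL, ?_, hlow, ht, ktw hv hw ht, fin x (Or.inl rfl),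
      fin y (Or.inr (Or.inl rfl)), fin u (Or.inr (Or.inr rfl))⟩⟩
    ext t
    simp only [mem_insert, mem_singleton]
    constructor
    · intro h1
      by_cases h2 : t = l'
      · exact Or.inl h2
      by_cases h3 : t = v
      · exact Or.inr (Or.inl h3)
      by_cases h4 : t = w
      · exact Or.inr (Or.inr (Or.inl h4))
      exact Or.inr (Or.inr (Or.inr ((hmem t).1 ⟨h1, h3, h4, h2⟩)))
    · rintro (rfl | rfl | rfl | h1)
      · exact hl'
      · exact hv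
      · exact hw
      · exact ((hmem t).2 h1).1

end CG

end Pool.Agent.Lib.MP_e95c01_co.N
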