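import Pool.Agent.Lib.MP_e95c01_co.X.M3_33
import Pool.Agent.Lib.MP_e95c01_co.X.AuxT76

/-!
# `λ = 3`, thick torsos: low vertices with two pairs of twins and two hubs
-/

namespace Pool.Agent.Lib.MP_e95c01_co.N

open Finset

variable {V : Type} [Fintype V] [DecidableEq V]

namespace CG

variable {G : CG V} {Fa : Finset (Finset V)}

/-- the common part -/
structure B4 (G : CG V) (Fa : Finset (Finset V)) (l q p q' p' x y : V) : Prop
    extends G.L0 Fa l where
  nb : G.nb l = {q, p, q', p', x, y}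
  t : G.Tw q p
  t' : G.Tw q' p'
  hx : G.Hub x
  hy : G.Hub y
  nx : ¬ ∃ b, G.HL x b l
  ny : ¬ ∃ b, G.HL y b l
  kq : (G.I Fa q).card ≤ 1
  kq' : (G.I Fa q').card ≤ 1

theorem B4.comm {l q p q' p' x y : V} (h : G.B4 Fa l q p q' p' x y) :
    G.B4 Fa l q' p' q p x y :=
  { toL0 := h.toL0
    nb := by rw [h.nb]; ext u; simp only [mem_insert, mem_singleton]; tauto
    t := h.t'
    t' := h.t
    hx := h.hx
    hy := h.hy
    nx := h.nx
    ny := h.ny
    kq := h.kq'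
    kq' := h.kq }

theorem B4.comm2 {l q p q' p' x y : V} (h : G.B4 Fa l q p q' p' x y) :
    G.B4 Fa l q p q' p' y x :=
  { toL0 := h.toL0
    nb := by rw [h.nb]; ext u; simp only [mem_insert, mem_singleton]; tauto
    t := h.t
    t' := h.t'
    hx := h.hy
    hy := h.hx
    nx := h.ny
    ny := h.nx
    kq := h.kq
    kq' := h.kq' }

theorem B4.nd {l q p q' p' x y : V} (h : G.B4 Fa l q p q' p' x y) :
    [q, p, q', p', x, y].Nodup := by
  have h6 : (G.nb l).card = 6 := h.low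
  have h1 : [q, p, q', p', x, y].toFinset = G.nb l := by
    rw [h.nb]; ext u; simp
  have h3 : [q, p, q', p', x, y].dedup.length = [q, p, q', p', x, y].length := by
    rw [← List.card_toFinset, h1, h6]
    rfl
  rw [← List.dedup_eq_self]
  exact (List.dedup_sublist _).eq_of_length h3

theorem tw_adj76 {q p u : V} (h : G.Tw q p) (hu : u ∈ G.nb q) (hup : u ≠ p) : u ∈ G.nb p := by
  have h1 : u ∈ G.cl q := mem_insert_of_mem hu
  rw [h.2.2, cl, mem_insert] at h1
  exact h1.resolve_left hup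

/-- covers at `l` -/
theorem B4.cov {l q p q' p' x y : V} (hG : G.Gen6 Fa) (h : G.B4 Fa l q p q' p' x y) {u : V}
    (hu : u ∈ G.nb l) (hul : ¬ G.Low u) :
    (u ∈ G.nb q ∧ u ∈ G.nb p) ∨ (u ∈ G.nb q' ∧ u ∈ G.nb p') := by
  have hnl : ∀ v ∈ G.nb l, ¬ G.Low v := by
    intro v hv
    rw [h.nb] at hv
    simp only [mem_insert, mem_singleton] at hv
    rcases hv with rfl | rfl | rfl | rfl | rfl | rfl
    · exact tw_not_low76 ⟨_, h.t⟩
    · exact tw_not_low76 (tw_of76' h.t)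
    · exact tw_not_low76 ⟨_, h.t'⟩
    · exact tw_not_low76 (tw_of76' h.t')
    · exact h.hx.1
    · exact h.hy.1
  have hnR := nR_eq76 h.lR h.I0
  have h9 := hG.g5.n9
  rcases cov_lh86 hG.g5 h.lR (x := u) (by rw [hnR]; exact hu) (m_empty5 h.I0) hul with
    h1 | h1 | h1
  · rcases h1 with ⟨w, h2, h3, h4⟩ | ⟨v, w, h2, h3, h4, h5, h6⟩
    · rw [hnR] at h2
      exact absurd h4 (hnl w h2)
    · have hv : v ∈ G.nb l := by rw [← hnR]; exact h2
      have hv4 : u ∈ G.nb v := G.sym _ _ (mem_nR76.1 h4).1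
      have hw4 : u ∈ G.nb w := G.sym _ _ (mem_nR76.1 h5).1
      rw [h.nb] at hv
      simp only [mem_insert, mem_singleton] at hv
      rcases hv with rfl | rfl | rfl | rfl | rfl | rfl
      · have : w = p := (stTwHL_5 G).uniq h9 _ _ _ h6 h.t
        subst this
        exact Or.inl ⟨hv4, hw4⟩
      · have : w = q := (stTwHL_5 G).uniq h9 _ _ _ h6 (tw_symm76 h.t)
        subst this
        exact Or.inl ⟨hw4, hv4⟩
      · have : w = p' := (stTwHL_5 G).uniq h9 _ _ _ h6 h.t'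
        subst this
        exact Or.inr ⟨hv4, hw4⟩
      · have : w = q' := (stTwHL_5 G).uniq h9 _ _ _ h6 (tw_symm76 h.t')
        subst this
        exact Or.inr ⟨hw4, hv4⟩
      · exact absurd ⟨_, h6⟩ h.hx.2
      · exact absurd ⟨_, h6⟩ h.hy.2
  · obtain ⟨a, b, h2, -, h3, -⟩ := h1
    rw [hnR, h.nb] at h2
    simp only [mem_insert, mem_singleton] at h2
    exfalso
    rcases h2 with rfl | rfl | rfl | rfl | rfl | rfl
    · exact tw_not_HL76 h9 ⟨_, h.t⟩ l ⟨b, h3⟩
    · exact tw_not_HL76 h9 (tw_of76' h.t) l ⟨b, h3⟩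
    · exact tw_not_HL76 h9 ⟨_, h.t'⟩ l ⟨b, h3⟩
    · exact tw_not_HL76 h9 (tw_of76' h.t') l ⟨b, h3⟩
    · exact h.nx ⟨b, h3⟩
    · exact h.ny ⟨b, h3⟩
  · obtain ⟨a, b, h2, -, -, h3⟩ := h1
    rw [hnR] at h2
    exact absurd h3.1 (hnl a h2)

theorem B4.adj {l q p q' p' x y : V} (hG : G.Gen6 Fa) (h : G.B4 Fa l q p q' p' x y) :
    q' ∈ G.nb q ∧ p' ∈ G.nb q := by
  have hnd := h.nd
  simp only [List.nodup_cons, List.mem_cons, List.not_mem_nil, or_false, not_or,
    List.nodup_nil, and_true] at hnd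
  obtain ⟨⟨n1, n2, n3, n4, n5⟩, ⟨n6, n7, n8, n9⟩, ⟨n10, n11, n12⟩, ⟨n13, n14⟩, n15⟩ := hnd
  have hq : q ∈ G.nb l := by rw [h.nb]; simp
  rcases h.cov hG hq (tw_not_low76 ⟨_, h.t⟩) with h1 | h1
  · exact absurd h1.1 (G.irr q)
  · exact ⟨G.sym _ _ h1.1, G.sym _ _ h1.2⟩

/-- the structure -/
theorem B4.T4 {l q p q' p' x y : V} (hG : G.Gen6 Fa) (h : G.B4 Fa l q p q' p' x y)
    (hxq : x ∈ G.nb q) (hyq : y ∈ G.nb q') : G.T4s Fa l q p q' p' x y := by
  have hnd := h.nd
  simp only [List.nodup_cons, List.mem_cons, List.not_mem_nil, or_false, not_or,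
    List.nodup_nil, and_true, not_false_eq_true] at hnd
  obtain ⟨⟨n1, n2, n3, n4, n5⟩, ⟨n6, n7, n8, n9⟩, ⟨n10, n11, n12⟩, ⟨n13, n14⟩, n15⟩ := hnd
  have h9 := hG.g5.n9
  have h13 := hG.n13
  have hr := hG.g5.reg
  have hnR := nR_eq76 h.lR h.I0
  have hR : ∀ u ∈ G.nb l, u ∈ R Fa := fun u hu => nb_R76 h.lR h.I0 hu
  -- a vertex `q` of a pair that sees `l`, its twin, the other pair and a hub
  have key : ∀ q p q' p' x, G.Tw q p → G.Tw q' p' → q ∈ G.nb l → p ∈ G.nb l → q' ∈ G.nb l →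
      p' ∈ G.nb l → x ∈ G.nb l → [p, l, q', p', x].Nodup → q' ∈ G.nb q → p' ∈ G.nb q →
      x ∈ G.nb q → (G.I Fa q).card ≤ 1 → ∃ B, G.I Fa q = {B} ∧
        G.nR Fa q = {p, l, q', p', x} := by
    intro q p q' p' x t t' hq hp hq' hp' hx hnd a1 a2 a3 hk
    have hpq : p ∈ G.nb q := t.1
    have hlq : l ∈ G.nb q := G.sym _ _ hq
    have hne : G.I Fa q ≠ ∅ := by
      intro hI
      have hIp := (stTwHL_5 G).twI Fa hr q (hR q hq) p t
      have h1 := lq_D0_86 hG.g5 (by omega) h.low t hq ⟨h.lR, h.I0⟩ ⟨hR q hq, hI⟩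
        ⟨hR p hp, by rw [hIp.2, hI]⟩
      have h2 : [p, q', p', x].Nodup := by
        simp only [List.nodup_cons, List.mem_cons, List.not_mem_nil, or_false, not_or,
          List.nodup_nil, and_true, not_false_eq_true] at hnd ⊢
        tauto
      have h3 := len_le33 (S := G.nb l ∩ G.nb q) [p, q', p', x] h2 (by
        intro u hu
        simp only [List.mem_cons, List.not_mem_nil, or_false] at hu
        rw [mem_inter]
        rcases hu with rfl | rfl | rfl | rfl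
        · exact ⟨hp, hpq⟩
        · exact ⟨hq', a1⟩
        · exact ⟨hp', a2⟩
        · exact ⟨hx, a3⟩)
      simp only [List.length_cons, List.length_nil] at h3
      omega
    have h1 : (G.I Fa q).card = 1 := by
      have := card_pos.2 (nonempty_iff_ne_empty.2 hne)
      omega
    obtain ⟨B, hB⟩ := card_eq_one.1 h1
    refine ⟨B, hB, ?_⟩
    have h2 := vis33 hG.g5 (hR q hq) ⟨p, t⟩ hne
    have h3 : ({p, l, q', p', x} : Finset V) ⊆ G.nR Fa q := by
      intro u hu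
      simp only [mem_insert, mem_singleton] at hu
      rw [mem_nR76]
      rcases hu with rfl | rfl | rfl | rfl | rfl
      · exact ⟨hpq, hR _ hp⟩
      · exact ⟨hlq, h.lR⟩
      · exact ⟨a1, hR _ hq'⟩
      · exact ⟨a2, hR _ hp'⟩
      · exact ⟨a3, hR _ hx⟩
    have h4 : ({p, l, q', p', x} : Finset V).card = 5 := by
      have := List.toFinset_card_of_nodup hnd
      simpa using this
    exact (eq_of_subset_of_card_le h3 (by omega)).symm
  have hq : q ∈ G.nb l := by rw [h.nb]; simp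
  have hp : p ∈ G.nb l := by rw [h.nb]; simp
  have hq' : q' ∈ G.nb l := by rw [h.nb]; simp
  have hp' : p' ∈ G.nb l := by rw [h.nb]; simp
  have hx : x ∈ G.nb l := by rw [h.nb]; simp
  have hy : y ∈ G.nb l := by rw [h.nb]; simp
  have hll : ∀ u ∈ G.nb l, u ≠ l := fun u hu e => G.irr l (by rw [e] at hu; exact hu)
  obtain ⟨a1, a2⟩ := h.adj hG
  obtain ⟨a1', a2'⟩ := h.comm.adj hG
  obtain ⟨B, hB, e1⟩ := key q p q' p' x h.t h.t' hq hp hq' hp' hx (by
    simp [hll p hp, (hll q' hq').symm, (hll p' hp').symm, (hll x hx).symm, n6, n7, n8, n10, n11,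
      n13]) a1 a2 hxq h.kq
  obtain ⟨B', hB', e2⟩ := key q' p' q p y h.t' h.t hq' hp' hq hp hy (by
    simp [hll p' hp', (hll q hq).symm, (hll p hp).symm, (hll y hy).symm, Ne.symm n3,
      Ne.symm n7, n14, n1, n5, n9]) a1' a2' hyq h.kq'
  refine
    { toL0 := h.toL0
      nb := h.nb
      t := h.t
      t' := h.t'
      hx := h.hx
      hy := h.hy
      nx := h.nx
      ny := h.ny
      adj := a1
      blobs := ⟨B, B', hB, hB', ?_⟩
      nq := e1
      nq' := e2 }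
  rintro rfl
  have h3 := e1q_86 hG.g5 h.t (hR q hq) hB
  have hIp := (stTwHL_5 G).twI Fa hr q (hR q hq) p h.t
  have hIp' := (stTwHL_5 G).twI Fa hr q' (hR q' hq') p' h.t'
  have hBF : B ∈ Fa := (mem_I76.1 (hB.symm ▸ mem_singleton_self B : B ∈ G.I Fa q)).1
  have hN : ∀ u, G.I Fa u = {B} → u ∉ G.Co B := by
    intro u hu hc
    exact (mem_Co76.1 hc).2 (mem_I76.1 (hu.symm ▸ mem_singleton_self B : B ∈ G.I Fa u)).2
  have h4 : G.nb q ∩ G.Co B ⊆ {l, x} := by
    intro u hu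
    obtain ⟨hu1, hu2⟩ := mem_inter.1 hu
    have huR : u ∈ R Fa := by
      rw [mem_R76]
      intro B' hB' huB'
      by_cases e : B' = B
      · subst e
        exact (mem_Co76.1 hu2).1 huB'
      · have h5 : q ∈ G.N B' := mem_N76.2 ⟨mem_R76.1 (hR q hq) B' hB', u, huB', G.sym _ _ hu1⟩
        have h6 : B' ∈ G.I Fa q := mem_I76.2 ⟨hB', h5⟩
        rw [hB, mem_singleton] at h6
        exact e h6
    have h7 : u ∈ G.nR Fa q := mem_nR76.2 ⟨hu1, huR⟩
    rw [e1] at h7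
    simp only [mem_insert, mem_singleton] at h7 ⊢
    rcases h7 with rfl | rfl | rfl | rfl | rfl
    · exact absurd hu2 (hN _ (by rw [hIp.2, hB]))
    · exact Or.inl rfl
    · exact absurd hu2 (hN _ hB')
    · exact absurd hu2 (hN _ (by rw [hIp'.2, hB']))
    · exact Or.inr rfl
  have h5 := card_le_card h4
  have h6 := card_le_two (a := l) (b := x)
  rw [d] at h3
  omega

/-- M3b -/
theorem stM3b_76 (G : CG V) : G.StM3b := by
  intro Fa hG l hL q p q' p' x y hnb t t' hx hy nx ny kq kq'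
  have h : G.B4 Fa l q p q' p' x y :=
    { toL0 := hL, nb := hnb, t := t, t' := t', hx := hx, hy := hy, nx := nx, ny := ny,
      kq := kq, kq' := kq' }
  have hnd := h.nd
  simp only [List.nodup_cons, List.mem_cons, List.not_mem_nil, or_false, not_or,
    List.nodup_nil, and_true, not_false_eq_true] at hnd
  obtain ⟨⟨n1, n2, n3, n4, n5⟩, ⟨n6, n7, n8, n9⟩, ⟨n10, n11, n12⟩, ⟨n13, n14⟩, n15⟩ := hnd
  have hxl : x ∈ G.nb l := by rw [hnb]; simp
  have hyl : y ∈ G.nb l := by rw [hnb]; simp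
  have hq : q ∈ G.nb l := by rw [hnb]; simp
  have hp : p ∈ G.nb l := by rw [hnb]; simp
  have hq' : q' ∈ G.nb l := by rw [hnb]; simp
  have hp' : p' ∈ G.nb l := by rw [hnb]; simp
  obtain ⟨a1, a2⟩ := h.adj hG
  obtain ⟨a1', a2'⟩ := h.comm.adj hG
  -- not both hubs at the same pair
  have key : ∀ q p q' p', G.Tw q p → q ∈ G.nb l → p ∈ G.nb l → q' ∈ G.nb l → p' ∈ G.nb l →
      [p, q', p', x, y].Nodup → q' ∈ G.nb q → p' ∈ G.nb q → x ∈ G.nb q → y ∈ G.nb q →
      False := by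
    intro q p q' p' t hq hp hq' hp' hnd b1 b2 b3 b4
    have h1 := lq_le86 hG.g5.n9 h.low t hq
    have h3 := len_le33 (S := G.nb l ∩ G.nb q) [p, q', p', x, y] hnd (by
      intro u hu
      simp only [List.mem_cons, List.not_mem_nil, or_false] at hu
      rw [mem_inter]
      rcases hu with rfl | rfl | rfl | rfl | rfl
      · exact ⟨hp, t.1⟩
      · exact ⟨hq', b1⟩
      · exact ⟨hp', b2⟩
      · exact ⟨hxl, b3⟩
      · exact ⟨hyl, b4⟩)
    simp only [List.length_cons, List.length_nil] at h3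
    omega
  have k1 := key q p q' p' t hq hp hq' hp' (by simp [n6, n7, n8, n9, n10, n11, n12, n13, n14, n15])
    a1 a2
  have k2 := key q' p' q p t' hq' hp' hq hp (by
    simp [Ne.symm n3, Ne.symm n7, n13, n14, n1, n4, n5, n8, n9, n15]) a1' a2'
  rcases h.cov hG hxl hx.1 with c1 | c1
  · rcases h.cov hG hyl hy.1 with c2 | c2
    · exact (k1 c1.1 c2.1).elim
    · exact Or.inl (h.T4 hG c1.1 c2.1)
  · rcases h.cov hG hyl hy.1 with c2 | c2
    · exact Or.inr (h.comm2.T4 hG c2.1 c1.1)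
    · exact (k2 c1.1 c2.1).elim

end CG

end Pool.Agent.Lib.MP_e95c01_co.N
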