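import Pool.Agent.Lib.MP_e95c01_co.X.M4b_53

/-!
# M4: low vertices in one neighbourhood
-/

namespace Pool.Agent.Lib.MP_e95c01_co.N

open Finset

variable {V : Type} [Fintype V] [DecidableEq V]

namespace CG

variable {G : CG V} {Fa : Finset (Finset V)}

namespace L1

variable {B : Finset V} {l : V}

/-- the flag `T3` seen from `Co B` -/
theorem t3C_m53 (hG : G.Gen5 Fa) (h : G.L1 Fa B l) (ht : G.T3 (G.Co B) l) : 0 ≤ G.ch5 Fa l := by
  classical
  by_contra hc
  have hc : G.ch5 Fa l < 0 := lt_of_not_ge hc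
  have n9 := hG.n9
  have hF := hG.reg.frag B h.hB_m53
  obtain ⟨-, -, -, h4⟩ := h.num_m53 hG
  have hr2 : (G.pO B l).card = 2 := (T3_type16 ht).2.1
  have h3 : (G.pO B l).card ≠ 3 := by omega
  have h4' : (G.pO B l).card ≠ 4 := by omega
  rw [h.flB_m53 hG, h.flC_m53, s5B_m53 h3, if_neg (U3C_m53 h3), if_neg (HFC_m53 h4'), if_pos ht, hr2] at h4
  have h5 : (0 : ℤ) ≤ (if G.T3 B l then (1 : ℤ) else 0) := by split_ifs <;> norm_num
  have h6 : (0 : ℤ) ≤ ((G.NP Fa l).card : ℤ) := by positivity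
  have h7 := (s5_nn16 G (G.Co B) l).1
  push_cast at h4
  obtain ⟨-, -, -, Q, Q', r, r', hh, hTw, -, -, hT, -, hX, hTQ, hOQ⟩ := ht
  rw [pT_co16 hF] at hT hTQ
  rw [pO_co16 hF] at hOQ
  rw [pX_co16] at hX
  have hQT : Q ∈ G.pT B l := hT.symm ▸ mem_insert_self _ _
  have hQT' : Q' ∈ G.pT B l := hT.symm ▸ mem_insert_of_mem (mem_singleton_self _)
  have hQR := (mem_nR76.1 (h.visT_m53 hQT)).2
  have hQR' := (mem_nR76.1 (h.visT_m53 hQT')).2
  have hBQ : B ∈ G.I Fa Q := mem_I_pT53 h.hB_m53 hQT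
  have hk : 2 ≤ (G.I Fa Q).card := by
    by_contra hk
    have h8 : 0 < (G.I Fa Q).card := card_pos.2 ⟨B, hBQ⟩
    obtain ⟨C, hC⟩ := card_eq_one.1 (show (G.I Fa Q).card = 1 by omega)
    have h9 : G.I Fa Q = {B} := by
      rw [hC, mem_singleton] at hBQ
      rw [hC, hBQ]
    have h10 : 3 ≤ (G.pO B Q).card := e1q_86 hG hTw hQR h9
    omega
  have hk' : 2 ≤ (G.I Fa Q').card := by
    rw [(q_I76 (qs16 G) hG.reg hQR hTw).2]
    exact hk
  have hNFs : ({Q, Q'} : Finset V) ⊆ G.NF Fa l := by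
    intro u hu
    rw [mem_insert, mem_singleton] at hu
    rcases hu with rfl | rfl
    · exact mem_NF53.2 ⟨h.visT_m53 hQT, Or.inr (Or.inl hk)⟩
    · exact mem_NF53.2 ⟨h.visT_m53 hQT', Or.inr (Or.inl hk')⟩
  have hNF : G.NF Fa l = {Q, Q'} := by
    refine (eq_of_subset_of_card_le hNFs ?_).symm
    rw [card_pair (ne_of_nb5 hTw.1)]
    have : ((G.NF Fa l).card : ℤ) < 3 := by linarith
    have : (G.NF Fa l).card < 3 := by exact_mod_cast this
    omega
  have hQt := tw_of76 hTw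
  have hQt' := tw_of76' hTw
  have hOQ' : ∀ o ∈ G.pO B l, o ∈ G.pO B Q := by
    intro o ho
    have hol : ¬ G.Low o := fun e => by
      have h8 : o ∈ G.NF Fa l := mem_NF53.2 ⟨h.visO_m53 ho, Or.inl e⟩
      rw [hNF, mem_insert, mem_singleton] at h8
      rcases h8 with rfl | rfl
      · exact tw_not_low11 hQt e
      · exact tw_not_low11 hQt' e
    refine mem_inter.2 ⟨?_, (mem_inter.1 ho).2⟩
    rcases h.cover_m53 hG ho hol with ⟨w, hw, h8, -⟩ | ⟨u, w, h8, h9, h10, h11, h12⟩ |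
      ⟨u, w, h8, h9, h10, h11, h12⟩ | ⟨a, ha, b, -, h8, -⟩ | ⟨a, ha, b, -, h8⟩
    · rw [hNF, mem_insert, mem_singleton] at hw
      rcases hw with rfl | rfl
      · exact absurd h8 (tw_not_low11 hQt)
      · exact absurd h8 (tw_not_low11 hQt')
    · rw [hT, mem_insert, mem_singleton] at h9
      rcases h9 with rfl | rfl
      · exact G.sym _ _ h11
      · have e := (stTwHL_5 G).uniq n9 _ _ _ h8 (tw_symm76 hTw)
        exact G.sym _ _ (e ▸ h12)
    · exfalso
      have h13 : ({o, u, w} : Finset V) ⊆ G.pO B l := by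
        intro x hx
        simp only [mem_insert, mem_singleton] at hx
        rcases hx with rfl | rfl | rfl
        exacts [ho, h9, h10]
      have h14 := card_le_card h13
      rw [card_insert_of_notMem, card_pair (ne_of_nb5 h8.1), hr2] at h14
      · omega
      · rw [mem_insert, mem_singleton]
        rintro (e | e)
        · exact G.irr o (e ▸ h11)
        · exact G.irr o (e ▸ h12)
    · rw [hNF, mem_insert, mem_singleton] at ha
      rcases ha with rfl | rfl
      · exact absurd hQt ((stTwHL_5 G).notHL n9 _ _ _ h8)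
      · exact absurd hQt' ((stTwHL_5 G).notHL n9 _ _ _ h8)
    · rw [hNF, mem_insert, mem_singleton] at ha
      rcases ha with rfl | rfl
      · exact absurd h8.1 (tw_not_low11 hQt)
      · exact absurd h8.1 (tw_not_low11 hQt')
  have hOO : G.pO B l = G.pO B Q := eq_of_subset_of_card_le hOQ' (by rw [hX, hr2])
  have hI : G.I Fa Q ⊆ {B} := by
    refine I_sub53 hG.reg h.hB_m53 fun u hu => ?_
    by_cases h8 : u ∈ B
    · exact Or.inr h8
    left
    by_cases h9 : u ∈ G.N B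
    · have h10 : u ∈ G.pT B Q := mem_inter.2 ⟨hu, h9⟩
      rw [hTQ, mem_insert, mem_singleton] at h10
      rcases h10 with rfl | rfl
      exacts [hQR', h.lR]
    · have h10 : u ∈ G.pO B Q := mem_inter.2 ⟨hu, mem_Co76.2 ⟨h8, h9⟩⟩
      rw [← hOO] at h10
      exact (mem_nR76.1 (h.visO_m53 h10)).2
  have h8 := card_le_card hI
  rw [card_singleton] at h8
  omega

/-- no outer neighbour is left uncovered: `NF` is not empty -/
theorem r2a_m53 (hG : G.Gen5 Fa) (h : G.L1 Fa B l) (hr : (G.pO B l).card = 2)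
    (hNF : G.NF Fa l = ∅) : False := by
  classical
  have n9 := hG.n9
  obtain ⟨hX, -, hsum, -⟩ := h.num_m53 hG
  have hnl : ∀ {o : V}, o ∈ G.pO B l → ¬ G.Low o := fun {o} ho hol => by
    have : o ∈ G.NF Fa l := mem_NF53.2 ⟨h.visO_m53 ho, Or.inl hol⟩
    rw [hNF] at this
    exact absurd this (notMem_empty _)
  have cov : ∀ {o : V}, o ∈ G.pO B l → ∃ v w, G.Tw v w ∧ v ∈ G.pT B l ∧ w ∈ G.pT B l ∧
      v ∈ G.nb o ∧ w ∈ G.nb o := by
    intro o ho
    rcases h.cover_m53 hG ho (hnl ho) with ⟨w, hw, -⟩ | h8 | ⟨u, w, h8, h9, h10, h11, h12⟩ |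
      ⟨a, ha, -⟩ | ⟨a, ha, -⟩
    · rw [hNF] at hw
      exact absurd hw (notMem_empty _)
    · exact h8
    · exfalso
      have h13 : ({o, u, w} : Finset V) ⊆ G.pO B l := by
        intro x hx
        simp only [mem_insert, mem_singleton] at hx
        rcases hx with rfl | rfl | rfl
        exacts [ho, h9, h10]
      have h14 := card_le_card h13
      rw [card_insert_of_notMem, card_pair (ne_of_nb5 h8.1), hr] at h14
      · omega
      · rw [mem_insert, mem_singleton]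
        rintro (e | e)
        · exact G.irr o (e ▸ h11)
        · exact G.irr o (e ▸ h12)
    · rw [hNF] at ha
      exact absurd ha (notMem_empty _)
    · rw [hNF] at ha
      exact absurd ha (notMem_empty _)
  obtain ⟨o, ho⟩ := card_pos.1 (show 0 < (G.pO B l).card by omega)
  obtain ⟨v, w, k1, k2, k3, k4, k5⟩ := cov ho
  have hall : ∀ {x : V}, x ∈ G.pO B l → x ∈ G.nb v := by
    intro x hx
    obtain ⟨v', w', m1, m2, m3, m4, m5⟩ := cov hx
    rcases three_m53 n9 (show (G.pT B l).card ≤ 3 by omega) k1 m1 k2 k3 m2 m3 with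
      ⟨e, -⟩ | ⟨-, e⟩
    · exact G.sym _ _ (e ▸ m4)
    · exact G.sym _ _ (e ▸ m5)
  have hvR := (mem_nR76.1 (h.visT_m53 k2)).2
  have hBv : B ∈ G.I Fa v := mem_I_pT53 h.hB_m53 k2
  have hkv : (G.I Fa v).card = 1 := by
    have h8 : 0 < (G.I Fa v).card := card_pos.2 ⟨B, hBv⟩
    by_contra h9
    have : v ∈ G.NF Fa l := mem_NF53.2 ⟨h.visT_m53 k2, Or.inr (Or.inl (by omega))⟩
    rw [hNF] at this
    exact absurd this (notMem_empty _)
  have hIv : G.I Fa v = {B} := by
    obtain ⟨C, hC⟩ := card_eq_one.1 hkv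
    rw [hC, mem_singleton] at hBv
    rw [hC, hBv]
  have hlv : l ≠ v := fun e => tw_not_low11 (tw_of76 k1) (e ▸ h.low)
  have hlw : l ≠ w := fun e => tw_not_low11 (tw_of76' k1) (e ▸ h.low)
  have h8 := e3q_86 hG k1 hlv hlw h.lR hvR h.I1 hIv
  have h9 : (G.nb l ∪ G.nb v) ∩ G.Co B ⊆ G.pO B v := by
    intro u hu
    rw [mem_inter, mem_union] at hu
    rcases hu.1 with h9 | h9
    · exact mem_inter.2 ⟨hall (mem_inter.2 ⟨h9, hu.2⟩), hu.2⟩
    · exact mem_inter.2 ⟨h9, hu.2⟩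
  have h10 := card_le_card h9
  have h11 : 2 ≤ (G.pX B v).card := (stTwHL_5 G).hid Fa hG.reg hG.big v hvR (tw_of76 k1) B
    hBv
  have h12 : ({l, w} : Finset V) ⊆ G.pT B v := by
    intro u hu
    rw [mem_insert, mem_singleton] at hu
    rcases hu with rfl | rfl
    · exact mem_inter.2 ⟨G.sym _ _ (mem_inter.1 k2).1, h.lN_m53⟩
    · exact mem_inter.2 ⟨k1.1, (mem_inter.1 k3).2⟩
  have h13 := card_le_card h12
  rw [card_pair hlw] at h13
  have h14 := dg16 G B v
  have h15 := tw_card11 (tw_of76 k1)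
  omega

/-- two outer neighbours -/
theorem r2_m53 (hG : G.Gen5 Fa) (h : G.L1 Fa B l) (hr : (G.pO B l).card = 2)
    (hc : G.ch5 Fa l < 0) : (∃ d x y, G.Gam Fa B l d x y) ∨ (∃ a b x y, G.The Fa B l a b x y) ∨
      (∃ d q p, G.Eps Fa B l d q p) ∨ (∃ a b q p, G.Eta Fa B l a b q p) := by
  classical
  have n9 := hG.n9
  have hF := hG.reg.frag B h.hB_m53
  have hT3 : ¬ G.T3 (G.Co B) l := fun e => by
    have := h.t3C_m53 hG e
    linarith
  obtain ⟨hX, -, hsum, h4⟩ := h.num_m53 hG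
  have h3 : (G.pO B l).card ≠ 3 := by omega
  have h4' : (G.pO B l).card ≠ 4 := by omega
  rw [h.flB_m53 hG, h.flC_m53, s5B_m53 h3, if_neg (U3C_m53 h3), if_neg (HFC_m53 h4'), if_neg hT3, hr] at h4
  have h5 : (0 : ℤ) ≤ (if G.T3 B l then (1 : ℤ) else 0) := by split_ifs <;> norm_num
  have h6 : (0 : ℤ) ≤ ((G.NP Fa l).card : ℤ) := by positivity
  have h7 := (s5_nn16 G (G.Co B) l).1
  push_cast at h4
  have hNF1 : (G.NF Fa l).card = 1 := by
    have e1 : (G.NF Fa l).card ≠ 0 := fun e => h.r2a_m53 hG hr (card_eq_zero.1 e)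
    have e2 : ((G.NF Fa l).card : ℤ) < 2 := by linarith
    have e3 : (G.NF Fa l).card < 2 := by exact_mod_cast e2
    omega
  obtain ⟨f, hNF⟩ := card_eq_one.1 hNF1
  have hNP : G.NP Fa l = ∅ := by
    refine h.NP2_m53 hG.reg ?_
    rw [hNF1] at h4
    push_cast at h4
    have e2 : ((G.NP Fa l).card : ℤ) < 2 := by linarith
    have e3 : (G.NP Fa l).card < 2 := by exact_mod_cast e2
    omega
  have hfF : f ∈ G.NF Fa l := hNF.symm ▸ mem_singleton_self f
  obtain ⟨hfn, hff⟩ := mem_NF53.1 hfF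
  -- no pair of twins in `T`
  have noT : ∀ {v w : V}, G.Tw v w → v ∈ G.pT B l → False := by
    intro v w ht hv
    rcases (h.pairT_m53 hG.reg ht hv).2 with ⟨e1, e2⟩ | ⟨e1, -⟩
    · rw [hNF, mem_singleton] at e1 e2
      exact ne_of_nb5 ht.1 (e1.trans e2.symm)
    · rw [hNP] at e1
      exact absurd e1 (notMem_empty _)
  have noO : ∀ {o v w : V}, o ∈ G.pO B l → G.Tw v w → v ∈ G.pO B l → w ∈ G.pO B l →
      v ≠ o → w ≠ o → False := by
    intro o u w ho h8 h9 h10 h11 h12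
    have h13 : ({o, u, w} : Finset V) ⊆ G.pO B l := by
      intro x hx
      simp only [mem_insert, mem_singleton] at hx
      rcases hx with rfl | rfl | rfl
      exacts [ho, h9, h10]
    have h14 := card_le_card h13
    rw [card_insert_of_notMem, card_pair (ne_of_nb5 h8.1), hr] at h14
    · omega
    · rw [mem_insert, mem_singleton]
      exact fun e => e.elim (fun e => h11 e.symm) fun e => h12 e.symm
  have cov : ∀ {o : V}, o ∈ G.pO B l → ¬ G.Low o → (G.Low f ∧ o ∈ G.nb f) ∨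
      (∃ b ∈ R Fa, G.HL f b l ∧ o ∈ G.nb b ∧ o ≠ f) ∨ (∃ b ∈ R Fa, G.LL f b l o) := by
    intro o ho hol
    rcases h.cover_m53 hG ho hol with ⟨w, hw, h8, h9⟩ | ⟨u, w, h8, h9, -⟩ |
      ⟨u, w, h8, h9, h10, h11, h12⟩ | ⟨a, ha, b, hb, h8, h9, -, h10⟩ | ⟨a, ha, b, hb, h8⟩
    · rw [hNF, mem_singleton] at hw
      exact Or.inl ⟨hw ▸ h8, hw ▸ h9⟩
    · exact (noT h8 h9).elim
    · exact (noO ho h8 h9 h10 (fun e => G.irr o (e ▸ h11)) (fun e => G.irr o (e ▸ h12))).elim
    · rw [hNF, mem_singleton] at ha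
      subst ha
      exact Or.inr (Or.inl ⟨b, hb, h8, h9, h10⟩)
    · rw [hNF, mem_singleton] at ha
      subst ha
      exact Or.inr (Or.inr ⟨b, hb, h8⟩)
  -- `f` is in `T`
  have hfT : f ∈ G.pT B l := by
    rcases h.vis_m53 hfn with e | hfO
    · exact e
    exfalso
    by_cases hfl : G.Low f
    · rcases cov3_76 (qs16 G) (tor86 hG) h.lR (h.visO_m53 hfO) (h.m0_m53 hfO) with
        ⟨w, w1, w2, w3, -⟩ | ⟨v, w, w1, w2, w3, w4, w5⟩ | ⟨a, b, w1, -, -, w2, -⟩ |
        ⟨a, b, w1, -, -, w2, -⟩ | ⟨a, b, w1, -, -, w2⟩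
      · have e : w ∈ G.NF Fa l := mem_NF53.2 ⟨w1, Or.inl w3⟩
        rw [hNF, mem_singleton] at e
        exact G.irr f (e ▸ (mem_nR76.1 w2).1)
      · rcases h.vis_m53 w1 with e | e
        · exact noT w3 e
        · exact noO hfO w3 e (h.pairO_m53 hG.reg w3 e) (fun e => G.irr v (e ▸ w4))
            (fun e => G.irr w (e ▸ w5))
      · have e : a ∈ G.NF Fa l := mem_NF53.2 ⟨w1, Or.inr (Or.inr ⟨b, w2⟩)⟩
        rw [hNF, mem_singleton] at e
        exact HL_not_low76 w2 (e ▸ hfl)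
      · have e : b ∈ G.NF Fa l := mem_NF53.2 ⟨w1, Or.inl w2.2.1⟩
        rw [hNF, mem_singleton] at e
        exact (HL_bt76 w2).2 e.symm
      · have e : a ∈ G.NF Fa l := mem_NF53.2 ⟨w1, Or.inl w2.1⟩
        rw [hNF, mem_singleton] at e
        exact (LL_ua76 w2).2 e.symm
    · rcases cov hfO hfl with ⟨e, -⟩ | ⟨b, -, -, -, e⟩ | ⟨b, -, e⟩
      · exact hfl e
      · exact e rfl
      · exact hfl e.1
  have hOF : ∀ {o : V}, o ∈ G.pO B l → o ∉ G.NF Fa l := fun {o} ho hoF => by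
    rw [hNF, mem_singleton] at hoF
    exact h.TO_m53 (hoF ▸ hfT) ho
  have hnl : ∀ {o : V}, o ∈ G.pO B l → ¬ G.Low o := fun {o} ho hol =>
    hOF ho (mem_NF53.2 ⟨h.visO_m53 ho, Or.inl hol⟩)
  have hk : ∀ {o : V}, o ∈ G.pO B l → (G.I Fa o).card ≤ 1 := fun {o} ho => by
    by_contra h8
    exact hOF ho (mem_NF53.2 ⟨h.visO_m53 ho, Or.inr (Or.inl (by omega))⟩)
  have hHL : ∀ {o : V}, o ∈ G.pO B l → ¬ ∃ b, G.HL o b l := fun {o} ho h8 =>
    hOF ho (mem_NF53.2 ⟨h.visO_m53 ho, Or.inr (Or.inr h8)⟩)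
  obtain ⟨x, y, hxy, hO⟩ := card_eq_two.1 hr
  have hx : x ∈ G.pO B l := hO.symm ▸ mem_insert_self _ _
  have hy : y ∈ G.pO B l := hO.symm ▸ mem_insert_of_mem (mem_singleton_self _)
  by_cases htw : G.IsTw x
  · -- a pair of twins
    obtain ⟨p, hp⟩ := htw
    have hpy : p = y := by
      have e := h.pairO_m53 hG.reg hp hx
      rw [hO, mem_insert, mem_singleton] at e
      exact e.resolve_left fun e => ne_of_nb5 hp.1 e.symm
    subst hpy
    by_cases hfl : G.Low f
    · -- EPS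
      right; right; left
      have hxf : x ∈ G.nb f := by
        rcases cov hx (hnl hx) with ⟨-, e⟩ | ⟨b, -, e, -⟩ | ⟨b, -, e⟩
        · exact e
        · exact absurd hfl (HL_not_low76 e)
        · exact absurd (tw_of76 hp) (twLL_5 (LL_symm5 e))
      have hT3B : ¬ G.T3 B l := fun e => by
        obtain ⟨-, -, e3, -⟩ := T3_type16 e
        obtain ⟨v, w, e4, e5⟩ := e3
        exact noT e4 (e5.symm ▸ mem_insert_self _ _)
      have hs5 : G.s5 (G.Co B) l = 0 := by
        by_contra hs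
        rw [if_neg hT3B, hNF1, hNP, card_empty] at h4
        push_cast at h4
        have hs1 : G.s5 (G.Co B) l < 2 := by linarith
        have hs2 : ∃ v, G.S0 (G.Co B) l v ∧ G.pT (G.Co B) v = {l} ∧ G.LLs (G.Co B) l v := by
          unfold s5 at hs hs1
          by_cases c1 : ∃ v, G.S0 (G.Co B) l v ∧ ¬ G.LLs (G.Co B) l v
          · rw [if_pos c1] at hs1
            exact absurd hs1 (by norm_num)
          · rw [if_neg c1] at hs
            by_cases c2 : ∃ v, G.S0 (G.Co B) l v ∧ G.pT (G.Co B) v = {l}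
            · obtain ⟨v, c3, c4⟩ := c2
              refine ⟨v, c3, c4, ?_⟩
              by_contra c5
              exact c1 ⟨v, c3, c5⟩
            · rw [if_neg c2] at hs
              exact absurd rfl hs
        obtain ⟨v, c1, c2, -, c3⟩ := hs2
        have hvf : f = v := by
          have c4 := c1.2.2.2.1
          rw [pT_co16 hF] at c4
          rw [c4, mem_singleton] at hfT
          exact hfT
        subst hvf
        rw [pT_co16 hF] at c2
        rw [pX_co16, pX_co16] at c3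
        have hfR := (mem_nR76.1 (h.visT_m53 hfT)).2
        have hIf : G.I Fa f = {B} := by
          have e1 : G.I Fa f ⊆ {B} := by
            refine I_sub53 hG.reg h.hB_m53 fun u hu => ?_
            by_cases e2 : u ∈ B
            · exact Or.inr e2
            left
            by_cases e3 : u ∈ G.N B
            · have e4 : u ∈ G.pT B f := mem_inter.2 ⟨hu, e3⟩
              rw [c2, mem_singleton] at e4
              exact e4 ▸ h.lR
            · have e4 : u ∈ G.pO B f := mem_inter.2 ⟨hu, mem_Co76.2 ⟨e2, e3⟩⟩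
              rw [c3] at e4
              exact (mem_nR76.1 (h.visO_m53 e4)).2
          exact (subset_singleton_iff.1 e1).resolve_left fun e =>
            absurd (mem_I_pT53 h.hB_m53 hfT) (e ▸ notMem_empty _)
        have e1 := e2_86 hG (ne_of_nb5 (mem_inter.1 hfT).1) h.lR hfR h.I1 hIf
        have e2 : (G.nb l ∪ G.nb f) ∩ G.Co B ⊆ G.pO B l := by
          intro u hu
          rw [mem_inter, mem_union] at hu
          rcases hu.1 with e3 | e3
          · exact mem_inter.2 ⟨e3, hu.2⟩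
          · rw [← c3]
            exact mem_inter.2 ⟨e3, hu.2⟩
        have e3 := card_le_card e2
        omega
      have hfg : G.fg5 Fa l = 0 := by
        rw [K28.fg_single h.I1, h.flB_m53 hG, h.flC_m53, s5B_m53 h3, if_neg (U3C_m53 h3), if_neg (HFC_m53 h4'),
          if_neg hT3, if_neg hT3B, hs5]
        norm_num
      exact ⟨f, x, p, ⟨h, hO, hp, hk hx, hfT, hfl, hNF, hNP, hxf, hfg⟩⟩
    · -- ETA
      right; right; right
      rcases cov hx (hnl hx) with ⟨e, -⟩ | ⟨b, hb, e1, e2, -⟩ | ⟨b, -, e⟩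
      · exact absurd e hfl
      · exact ⟨f, b, x, p, ⟨h, hO, hp, hk hx, hfT, hb, e1, hNF, hNP, e2⟩⟩
      · exact absurd e.1 hfl
  · -- hubs
    have htwy : ¬ G.IsTw y := by
      rintro ⟨p, hp⟩
      have e := h.pairO_m53 hG.reg hp hy
      rw [hO, mem_insert, mem_singleton] at e
      rcases e with e | e
      · exact htw (e ▸ tw_of76' hp)
      · exact ne_of_nb5 hp.1 e.symm
    have hPx : G.PH Fa l x := ⟨⟨hnl hx, htw⟩, hk hx, hHL hx⟩
    have hPy : G.PH Fa l y := ⟨⟨hnl hy, htwy⟩, hk hy, hHL hy⟩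
    by_cases hfl : G.Low f
    · -- GAMMA
      left
      have key : ∀ {o : V}, o ∈ G.pO B l → o ∈ G.nb f ∨ ∃ b ∈ R Fa, G.LL f b l o := by
        intro o ho
        rcases cov ho (hnl ho) with ⟨-, e⟩ | ⟨b, -, e, -⟩ | e
        · exact Or.inl e
        · exact absurd hfl (HL_not_low76 e)
        · exact Or.inr e
      exact ⟨f, x, y, ⟨h, hO, hxy, hPx, hPy, hfT, hfl, hNF, hNP, key hx, key hy⟩⟩
    · -- THETA
      right; left
      rcases cov hx (hnl hx) with ⟨e, -⟩ | ⟨b, hb, e1, e2, -⟩ | ⟨b, -, e⟩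
      · exact absurd e hfl
      · rcases cov hy (hnl hy) with ⟨e, -⟩ | ⟨b', hb', e1', e2', -⟩ | ⟨b', -, e⟩
        · exact absurd e hfl
        · have e3 := b_uniq_5 n9 e1 e1'
          exact ⟨f, b, x, y, ⟨h, hO, hxy, hPx, hPy, hfT, hb, e1, hNF, hNP, e2, e3 ▸ e2'⟩⟩
        · exact absurd e.1 hfl
      · exact absurd e.1 hfl

end L1

/-- M4 -/
theorem stM4_53 (G : CG V) : G.StM4 := by
  intro Fa hG B l h hc
  have g5 := hG.g5
  obtain ⟨-, h2, -, -⟩ := h.num_m53 g5
  by_cases h4 : 4 ≤ (G.pO B l).card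
  · have := h.r4_m53 g5 h4
    linarith
  by_cases h3 : (G.pO B l).card = 3
  · exact Or.inr (Or.inr (Or.inr (Or.inr (h.r3_m53 g5 h3 hc))))
  · rcases h.r2_m53 g5 (by omega) hc with e | e | e | e
    · exact Or.inl e
    · exact Or.inr (Or.inl e)
    · exact Or.inr (Or.inr (Or.inl e))
    · exact Or.inr (Or.inr (Or.inr (Or.inl e)))

end CG

end Pool.Agent.Lib.MP_e95c01_co.N
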