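import Pool.Agent.Lib.MP_e95c01_co.X.M6_57

/-!
# `λ = 3`, thick torsos: the poor lows in no neighbourhood get enough (M5)
-/

namespace Pool.Agent.Lib.MP_e95c01_co.N

open Finset

variable {V : Type} [Fintype V] [DecidableEq V]

namespace CG

namespace T57

variable {G : CG V} {Fa : Finset (Finset V)}

/-! ### twins in one neighbourhood have the same charge -/

theorem pX_tw {S : Finset V} {q p : V} (h : G.Tw q p) (hq : q ∉ S) (hp : p ∉ S) :
    G.nb p ∩ S = G.nb q ∩ S := by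
  ext u
  rw [mem_inter, mem_inter]
  constructor
  · rintro ⟨h1, h2⟩
    exact ⟨(nb_tw h (fun e => hq (by rw [← e]; exact h2)) (fun e => hp (by rw [← e]; exact h2))).2
      h1, h2⟩
  · rintro ⟨h1, h2⟩
    exact ⟨(nb_tw h (fun e => hq (by rw [← e]; exact h2)) (fun e => hp (by rw [← e]; exact h2))).1
      h1, h2⟩

theorem pT_tw {S : Finset V} {q p : V} (h : G.Tw q p) (hq : q ∈ S) (hp : p ∈ S) :
    G.nb p ∩ S = insert q ((G.nb q ∩ S).erase p) := by
  have hne := ne_of_nb5 h.1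
  ext u
  rw [mem_inter, mem_insert, mem_erase, mem_inter]
  constructor
  · rintro ⟨h1, h2⟩
    by_cases e : u = q
    · exact Or.inl e
    · have e2 : u ≠ p := fun e2 => G.irr p (by rw [e2] at h1; exact h1)
      exact Or.inr ⟨e2, (nb_tw h e e2).2 h1, h2⟩
  · rintro (h1 | ⟨h1, h2, h3⟩)
    · subst h1
      exact ⟨G.sym _ _ h.1, hq⟩
    · have e : u ≠ q := fun e2 => G.irr q (by rw [e2] at h2; exact h2)
      exact ⟨(nb_tw h e h1).1 h2, h3⟩

theorem pT_tw_card {S : Finset V} {q p : V} (h : G.Tw q p) (hq : q ∈ S) (hp : p ∈ S) :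
    (G.nb p ∩ S).card = (G.nb q ∩ S).card := by
  rw [pT_tw h hq hp, card_insert_of_notMem, card_erase_of_mem (mem_inter.2 ⟨h.1, hp⟩)]
  · have : 0 < (G.nb q ∩ S).card := card_pos.2 ⟨p, mem_inter.2 ⟨h.1, hp⟩⟩
    omega
  · rw [mem_erase, mem_inter]
    rintro ⟨-, h1, -⟩
    exact G.irr _ h1

theorem RF_sw (h9 : 9 ≤ Fintype.card V) {S : Finset V} {q p : V} (h : G.Tw q p)
    (hR : G.RF S q) : G.RF S p := by
  obtain ⟨hq, p', m, m', h1, h2, h3, h4, h5, h6⟩ := hR
  have e : p = p' := (stTwHL_5 G).uniq h9 q p p' h h1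
  subst e
  have hpT : p ∈ G.pT S q := by rw [h3]; simp
  have hp := (mem_inter.1 hpT).2
  have hqS : q ∉ S := (mem_N76.1 hq).1
  have hpS : p ∉ S := (mem_N76.1 hp).1
  have hC : ∀ u, u ∈ G.N S → u ∉ G.Co S := by
    intro u hu hc
    rw [Co, mem_compl, mem_union] at hc
    exact hc (Or.inr hu)
  refine ⟨hp, q, m, m', tw_symm76 h, h2, ?_, ?_, ?_, h6⟩
  · show G.nb p ∩ G.N S = {q}
    rw [pT_tw h hq hp]
    have h7 : G.nb q ∩ G.N S = {p} := h3
    rw [h7]
    simp
  · show (G.nb p ∩ S).card = 4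
    rw [pX_tw h hqS hpS]
    exact h4
  · show G.nb p ∩ G.Co S = {m, m'}
    rw [pX_tw h (hC q hq) (hC p hp)]
    exact h5

theorem RF_iff (h9 : 9 ≤ Fintype.card V) {S : Finset V} {q p : V} (h : G.Tw q p) :
    G.RF S q ↔ G.RF S p :=
  ⟨RF_sw h9 h, RF_sw h9 (tw_symm76 h)⟩

theorem flv_twin (h9 : 9 ≤ Fintype.card V) {S : Finset V} {q p : V} (h : G.Tw q p) :
    G.flv S q = G.flv S p := by
  classical
  have key : ∀ z, G.IsTw z → G.flv S z = - (if G.RF S z then (1 : ℤ) else 0) := by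
    intro z ht
    have hl := tw_not_low11 ht
    have h1 : G.s5 S z = 0 := K28.s5_zero fun v h => hl h.2.1
    have h3 : ¬ G.U3 S z := fun h => hl h.2.1
    have h4 : ¬ G.T3 S z := fun h => hl h.2.1
    have h5 : ¬ G.HF S z := fun h => hl h.2.1
    rw [flv, h1, if_neg h3, if_neg h4, if_neg h5]
    ring
  rw [key q (tw_of76 h), key p (tw_of76' h), if_congr (RF_iff h9 h) rfl rfl]

theorem nR_iff {q p u : V} (h : G.Tw q p) (h1 : u ≠ q) (h2 : u ≠ p) :
    u ∈ G.nR Fa q ↔ u ∈ G.nR Fa p := by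
  rw [mem_nR76, mem_nR76, nb_tw h h1 h2]

theorem NT_sw (hr : G.Reg Fa) (h9 : 9 ≤ Fintype.card V) {q p : V} (h : G.Tw q p)
    (hq : q ∈ R Fa) (hI : (G.I Fa q).card = 1) : G.NT Fa q ⊆ G.NT Fa p := by
  classical
  have hI2 := ((stTwHL_5 G).twI Fa hr q hq p h).2
  have hm : ∀ x, G.m Fa x p = G.m Fa x q := fun x => by rw [m, m, hI2]
  have hm' : ∀ x, G.m Fa p x = G.m Fa q x := fun x => by rw [m, m, hI2]
  have hmqp : G.m Fa q p ≠ 0 := by
    rw [m, hI2, inter_self, hI]
    norm_num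
  intro x hx
  rw [NT, mem_filter] at hx ⊢
  obtain ⟨h1, h2, h3, h4⟩ := hx
  have x1 : x ≠ q := fun e => tw_not_low76 (tw_of76 h) (by rw [← e]; exact h2)
  have x2 : x ≠ p := fun e => tw_not_low76 (tw_of76' h) (by rw [← e]; exact h2)
  refine ⟨(nR_iff h x1 x2).1 h1, h2, by rw [hm]; exact h3, ?_⟩
  rcases h4 with h4 | h4 | ⟨u, hu, hu2, h4⟩
  · exact Or.inl h4
  · exact Or.inr (Or.inl (by rw [hm']; exact h4))
  · have u1 : u ≠ q := fun e => G.irr q (by rw [e] at hu; exact (mem_nR76.1 hu).1)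
    have u2 : u ≠ p := fun e => hmqp (by rw [e] at hu2; exact hu2)
    refine Or.inr (Or.inr ⟨u, (nR_iff h u1 u2).1 hu, by rw [hm']; exact hu2, ?_⟩)
    rcases h4 with h4 | ⟨b, hb, h4⟩ | ⟨a, ha, h4, h5⟩
    · exact Or.inl h4
    · exact absurd (tw_of76 h) ((stTwHL_5 G).twLL _ _ _ _ h4).1
    · have a1 : a ≠ q := fun e => (stTwHL_5 G).notHL h9 _ _ _ h4 (by rw [e]; exact tw_of76 h)
      have a2 : a ≠ p := fun e => (stTwHL_5 G).notHL h9 _ _ _ h4 (by rw [e]; exact tw_of76' h)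
      exact Or.inr (Or.inr ⟨a, ha, h4, (nb_tw' h a1 a2).1 h5⟩)

theorem NO_sw (hr : G.Reg Fa) {q p : V} (h : G.Tw q p) (hq : q ∈ R Fa) :
    G.NO Fa q ⊆ G.NO Fa p := by
  classical
  have hI2 := ((stTwHL_5 G).twI Fa hr q hq p h).2
  have hm : ∀ x, G.m Fa x p = G.m Fa x q := fun x => by rw [m, m, hI2]
  intro x hx
  rw [NO, mem_filter] at hx ⊢
  obtain ⟨h1, h2, h3⟩ := hx
  have x1 : x ≠ q := fun e => tw_not_low76 (tw_of76 h) (by rw [← e]; exact h2)
  have x2 : x ≠ p := fun e => tw_not_low76 (tw_of76' h) (by rw [← e]; exact h2)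
  exact ⟨(nR_iff h x1 x2).1 h1, h2, by rw [hm]; exact h3⟩

theorem NH_sw {q p : V} (h : G.Tw q p) : G.NH Fa q ⊆ G.NH Fa p := by
  classical
  intro x hx
  rw [NH, mem_filter] at hx ⊢
  obtain ⟨h1, h2, h3⟩ := hx
  have x1 : x ≠ q := fun e => h2.2 (by rw [e]; exact tw_of76 h)
  have x2 : x ≠ p := fun e => h2.2 (by rw [e]; exact tw_of76' h)
  exact ⟨(nR_iff h x1 x2).1 h1, h2, h3⟩

/-- twins in one neighbourhood have the same charge -/
theorem ch_twin (hr : G.Reg Fa) (h9 : 9 ≤ Fintype.card V) {q p : V} (h : G.Tw q p)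
    (hq : q ∈ R Fa) (hI : (G.I Fa q).card = 1) : G.ch5 Fa p = G.ch5 Fa q := by
  have hp := (stTwHL_5 G).twI Fa hr q hq p h
  have hI' : (G.I Fa p).card = 1 := by rw [hp.2]; exact hI
  obtain ⟨B, hB⟩ := card_eq_one.1 hI
  have hBp : G.I Fa p = {B} := by rw [hp.2, hB]
  have e1 := (stCh5_28 G).tw1 h9 Fa hr q hq (tw_of76 h) B hB
  have e2 := (stCh5_28 G).tw1 h9 Fa hr p hp.1 (tw_of76' h) B hBp
  have hqN : q ∈ G.N B ∧ B ∈ Fa := by
    have h1 : B ∈ G.I Fa q := by rw [hB]; exact mem_singleton_self B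
    exact ⟨(mem_I76.1 h1).2, (mem_I76.1 h1).1⟩
  have hpN : p ∈ G.N B := by
    have h1 : B ∈ G.I Fa p := by rw [hBp]; exact mem_singleton_self B
    exact (mem_I76.1 h1).2
  have hC : ∀ u, u ∈ G.N B → u ∉ G.Co B := by
    intro u hu hc
    rw [Co, mem_compl, mem_union] at hc
    exact hc (Or.inr hu)
  have f1 : G.d p (G.Co B) = G.d q (G.Co B) := by
    unfold d
    rw [pX_tw h (hC q hqN.1) (hC p hpN)]
  have f2 : G.d p (G.N B) = G.d q (G.N B) := pT_tw_card h hqN.1 hpN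
  have f3 : G.NO Fa p = G.NO Fa q :=
    Subset.antisymm (NO_sw hr (tw_symm76 h) hp.1) (NO_sw hr h hq)
  have f4 : G.NT Fa p = G.NT Fa q :=
    Subset.antisymm (NT_sw hr h9 (tw_symm76 h) hp.1 hI') (NT_sw hr h9 h hq hI)
  have f5 : G.NH Fa p = G.NH Fa q := Subset.antisymm (NH_sw (tw_symm76 h)) (NH_sw h)
  have f6 : G.fg5 Fa p = G.fg5 Fa q := by
    rw [K28.fg_single hBp, K28.fg_single hB, flv_twin h9 h, flv_twin h9 h]
  rw [e1, e2, f1, f2, f3, f4, f5, f6]

/-! ### symmetry of the conditions -/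

theorem RFt_sw (hr : G.Reg Fa) (h9 : 9 ≤ Fintype.card V) {q p : V} (h : G.Tw q p)
    (hq : q ∈ R Fa) (hR : G.RFt Fa q) : G.RFt Fa p := by
  obtain ⟨B, hB, h1⟩ := hR
  exact ⟨B, by rw [((stTwHL_5 G).twI Fa hr q hq p h).2]; exact hB, RF_sw h9 h h1⟩

theorem NoSk_sw (hr : G.Reg Fa) {l q p : V} (h : G.Tw q p) (hq : q ∈ R Fa)
    (hN : G.NoSk Fa l q) : G.NoSk Fa l p := by
  intro hI g hg hgp hgh
  rw [((stTwHL_5 G).twI Fa hr q hq p h).2] at hI
  have g1 : g ≠ q := fun e => hgh.2 (by rw [e]; exact tw_of76 h)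
  have g2 : g ≠ p := fun e => hgh.2 (by rw [e]; exact tw_of76' h)
  exact hN hI g hg ((nb_tw h g1 g2).2 hgp) hgh

theorem Dbl_sw (hr : G.Reg Fa) (h9 : 9 ≤ Fintype.card V) {l l' q p : V} (h : G.Tw q p)
    (hq : q ∈ R Fa) (hD : G.Dbl Fa l l' q) : G.Dbl Fa l l' p := by
  obtain ⟨h1, ⟨p', x, y, z, h2⟩, h3⟩ := hD
  have e : p = p' := (stTwHL_5 G).uniq h9 q p p' h h2.t
  subst e
  exact ⟨RFt_sw hr h9 h hq h1, ⟨q, x, y, z, h2.swap hr⟩, NoSk_sw hr h hq h3⟩

/-! ### `T3` -/

theorem M5_t3 (hG : G.Gen6 Fa) {l l' q p q' p' x : V} (h : G.T3s Fa l l' q p q' p' x) :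
    0 ≤ 2 * G.ch5 Fa l + ∑ x ∈ R Fa, G.dn5 Fa x l := by
  have hr := hG.g5.reg
  have h9 := hG.g5.n9
  have hc : G.ch5 Fa l = -2 := h.ch h9 hr
  have n1 := nodup6 h.nb h.low
  simp only [List.nodup_cons, List.mem_cons, List.not_mem_nil, or_false, not_or] at n1
  have hl' : l' ∈ G.nb l := by rw [h.nb]; simp
  have hq : q ∈ G.nb l := by rw [h.nb]; simp
  have hp : p ∈ G.nb l := by rw [h.nb]; simp
  have hq' : q' ∈ G.nb l := by rw [h.nb]; simp
  have hp' : p' ∈ G.nb l := by rw [h.nb]; simp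
  have hR : ∀ u ∈ G.nb l, u ∈ R Fa := fun u hu => nb_R76 h.lR h.I0 hu
  by_cases h1 : q' ∈ G.nb q
  · -- the cover of `l l'`
    have hcov := hG.g5.cov l h.lR l' (hR l' hl') hl' (by rw [m, h.I0, empty_inter, card_empty])
    have key : l' ∈ G.nb q ∨ l' ∈ G.nb q' := by
      rcases hcov with ⟨w, -, hw, k1, k2⟩ | ⟨v, -, w, -, hvw, k1, k2, k3, k4⟩ |
        ⟨a, -, b, -, k1, k2, k3⟩ | ⟨a, -, b, -, k1, k2, k3⟩ | ⟨a, -, b, -, k1⟩
      · have e := T3_low h (G.sym _ _ k1) hw
        rw [e] at k2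
        exact absurd k2 (G.irr _)
      · have e := T3_tw h (G.sym _ _ k1) (tw_of76 hvw)
        have a1 : ∀ u, G.IsTw u → l' ≠ u := fun u hu e =>
          tw_not_low76 hu (by rw [← e]; exact h.low')
        rcases e with e | e | e | e
        · rw [e] at k2
          exact Or.inl k2
        · rw [e] at k2
          exact Or.inl ((nb_tw h.t (a1 _ (tw_of76 h.t)) (a1 _ (tw_of76' h.t))).2 k2)
        · rw [e] at k2
          exact Or.inr k2
        · rw [e] at k2
          exact Or.inr ((nb_tw h.t' (a1 _ (tw_of76 h.t')) (a1 _ (tw_of76' h.t'))).2 k2)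
      · exfalso
        have a0 : G.Hub a := HL_hubT76 h9 k1
        have a1 : l ∈ G.cl a := by
          rw [k1.2.2.2.2]
          exact mem_insert_self _ _
        rw [mem_cl5] at a1
        have a2 : a ∈ G.nb l := by
          rcases a1 with a1 | a1
          · exact absurd h.low (by rw [a1]; exact a0.1)
          · exact G.sym _ _ a1
        rw [h.nb] at a2
        simp only [mem_insert, mem_singleton] at a2
        rcases a2 with e | e | e | e | e | e
        · exact a0.1 (by rw [e]; exact h.low')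
        · exact a0.2 (by rw [e]; exact tw_of76 h.t)
        · exact a0.2 (by rw [e]; exact tw_of76' h.t)
        · exact a0.2 (by rw [e]; exact tw_of76 h.t')
        · exact a0.2 (by rw [e]; exact tw_of76' h.t')
        · rw [e] at k1
          exact h.hx.2.2 ⟨b, k1⟩
      · exfalso
        have e := T3_low h (G.sym _ _ k2) k1.2.1
        rw [e] at k1
        exact k1.2.2.2.1 (cl_self5 _)
      · exfalso
        have e := T3_low h (G.sym _ _ (LL_nb5 k1)) k1.1
        rw [e] at k1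
        exact k1.2.2.2.2.2.1 (cl_self5 _)
    have a1 : ∀ u, G.IsTw u → l' ≠ u := fun u hu e =>
      tw_not_low76 hu (by rw [← e]; exact h.low')
    rcases key with k | k
    · have b1 : G.PD Fa l q := PD.t3 h h1 k
      have b2 : G.PD Fa l p := PD.t3 (h.swap hr)
        ((nb_tw h.t (fun e => by tauto) (fun e => by tauto)).1 h1)
        ((nb_tw h.t (a1 _ (tw_of76 h.t)) (a1 _ (tw_of76' h.t))).1 k)
      exact get_PD hG (hR q hq) (hR p hp) (ne_of_nb5 h.t.1) b1 b2
    · have h1' : q ∈ G.nb q' := G.sym _ _ h1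
      have b1 : G.PD Fa l q' := PD.t3 h.comm h1' k
      have b2 : G.PD Fa l p' := PD.t3 (h.comm.swap hr)
        ((nb_tw h.t' (fun e => by tauto) (fun e => by tauto)).1 h1')
        ((nb_tw h.t' (a1 _ (tw_of76 h.t')) (a1 _ (tw_of76' h.t'))).1 k)
      exact get_PD hG (hR q' hq') (hR p' hp') (ne_of_nb5 h.t'.1) b1 b2
  · by_cases h2 : (G.I Fa l').Nonempty
    · exact get_DL hG (hR l' hl') (DL.t3 h h1 h2)
    · rw [not_nonempty_iff_eq_empty] at h2
      have h1' : q ∉ G.nb q' := fun e => h1 (G.sym _ _ e)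
      have b1 := (dn_parts hG q l).2.2.2.1 (PS.t3 h h1 h2)
      have b2 := (dn_parts hG p l).2.2.2.1 (PS.t3 (h.swap hr)
        (fun e => h1 ((nb_tw h.t (fun e => by tauto) (fun e => by tauto)).2 e)) h2)
      have b3 := (dn_parts hG q' l).2.2.2.1 (PS.t3 h.comm h1' h2)
      have b4 := (dn_parts hG p' l).2.2.2.1 (PS.t3 (h.comm.swap hr)
        (fun e => h1' ((nb_tw h.t' (fun e => by tauto) (fun e => by tauto)).2 e)) h2)
      have b5 : ∑ x ∈ ({q, p, q', p'} : Finset V), G.dn5 Fa x l ≤ ∑ x ∈ R Fa, G.dn5 Fa x l := by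
        refine sum_le_sum_of_subset_of_nonneg ?_ fun x _ _ => dn5_nonneg76 hG x l
        intro u hu
        simp only [mem_insert, mem_singleton] at hu
        rcases hu with rfl | rfl | rfl | rfl
        · exact hR _ hq
        · exact hR _ hp
        · exact hR _ hq'
        · exact hR _ hp'
      rw [sum_insert, sum_insert, sum_insert, sum_singleton] at b5
      · omega
      · simp only [mem_singleton]
        tauto
      · simp only [mem_insert, mem_singleton]
        tauto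
      · simp only [mem_insert, mem_singleton]
        tauto

/-! ### `T4` -/

/-- what `l` gets on the side of `x` -/
theorem T4_side (hG : G.Gen6 Fa) {l q p q' p' x y : V} (h : G.T4s Fa l q p q' p' x y)
    (hx : (G.I Fa x).card ≤ 1) :
    4 ≤ G.dn5 Fa q l + G.dn5 Fa p l + G.dn5 Fa x l := by
  have hr := hG.g5.reg
  have h9 := hG.g5.n9
  have n1 := dn5_nonneg76 hG q l
  have n2 := dn5_nonneg76 hG p l
  have n3 := dn5_nonneg76 hG x l
  have hq : q ∈ G.nb l := by rw [h.nb]; simp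
  have hqR := nb_R76 h.lR h.I0 hq
  by_cases h1 : (G.I Fa x).card = 1
  · have := (dn_parts hG x l).2.2.2.2.1 (SK.t4 h (Or.inl h1))
    omega
  · have h0 : G.I Fa x = ∅ := card_eq_zero.1 (by omega)
    by_cases h2 : G.RFt Fa q
    · have := (dn_parts hG x l).2.2.2.2.1 (SK.t4 h (Or.inr ⟨h0, h2⟩))
      omega
    · have b1 := (dn_parts hG q l).2.2.1 (PF.t4 h h0 h2)
      have b2 := (dn_parts hG p l).2.2.1 (PF.t4 (h.swap hr h9) h0
        (fun e => h2 (RFt_sw hr h9 (tw_symm76 h.t)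
          ((stTwHL_5 G).twI Fa hr q hqR p h.t).1 e)))
      omega

theorem M5_t4 (hG : G.Gen6 Fa) {l q p q' p' x y : V} (h : G.T4s Fa l q p q' p' x y)
    (hn : G.ch5 Fa l < 0) : 0 ≤ 2 * G.ch5 Fa l + ∑ x ∈ R Fa, G.dn5 Fa x l := by
  have hr := hG.g5.reg
  have h9 := hG.g5.n9
  have n1 := nodup6 h.nb h.low
  simp only [List.nodup_cons, List.mem_cons, List.not_mem_nil, or_false, not_or] at n1
  have hq : q ∈ G.nb l := by rw [h.nb]; simp
  have hp : p ∈ G.nb l := by rw [h.nb]; simp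
  have hq' : q' ∈ G.nb l := by rw [h.nb]; simp
  have hp' : p' ∈ G.nb l := by rw [h.nb]; simp
  have hx : x ∈ G.nb l := by rw [h.nb]; simp
  have hy : y ∈ G.nb l := by rw [h.nb]; simp
  have hR : ∀ u ∈ G.nb l, u ∈ R Fa := fun u hu => nb_R76 h.lR h.I0 hu
  have hch := (stCh5_28 G).low0 h9 Fa hr l h.lR h.low h.I0
  have b5 : ∑ x ∈ ({q, p, x, q', p', y} : Finset V), G.dn5 Fa x l ≤
      ∑ x ∈ R Fa, G.dn5 Fa x l := by
    refine sum_le_sum_of_subset_of_nonneg ?_ fun x _ _ => dn5_nonneg76 hG x l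
    intro u hu
    simp only [mem_insert, mem_singleton] at hu
    rcases hu with rfl | rfl | rfl | rfl | rfl | rfl
    · exact hR _ hq
    · exact hR _ hp
    · exact hR _ hx
    · exact hR _ hq'
    · exact hR _ hp'
    · exact hR _ hy
  rw [sum_insert, sum_insert, sum_insert, sum_insert, sum_insert, sum_singleton] at b5
  · have m1 := dn5_nonneg76 hG q l
    have m2 := dn5_nonneg76 hG p l
    have m3 := dn5_nonneg76 hG x l
    have m4 := dn5_nonneg76 hG q' l
    have m5 := dn5_nonneg76 hG p' l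
    have m6 := dn5_nonneg76 hG y l
    by_cases c1 : (G.I Fa x).card ≤ 1
    · have s1 := T4_side hG h c1
      by_cases c2 : (G.I Fa y).card ≤ 1
      · have s2 := T4_side hG h.comm c2
        omega
      · have : 1 ≤ (G.NF Fa l).card := by
          classical
          refine card_pos.2 ⟨y, ?_⟩
          rw [NF, mem_filter, nR_eq76 h.lR h.I0]
          exact ⟨hy, Or.inr (Or.inl (by omega))⟩
        omega
    · by_cases c2 : (G.I Fa y).card ≤ 1
      · have s2 := T4_side hG h.comm c2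
        have : 1 ≤ (G.NF Fa l).card := by
          classical
          refine card_pos.2 ⟨x, ?_⟩
          rw [NF, mem_filter, nR_eq76 h.lR h.I0]
          exact ⟨hx, Or.inr (Or.inl (by omega))⟩
        omega
      · have : 2 ≤ (G.NF Fa l).card := by
          classical
          have h3 : ({x, y} : Finset V) ⊆ G.NF Fa l := by
            intro u hu
            rw [NF, mem_filter, nR_eq76 h.lR h.I0]
            rw [mem_insert, mem_singleton] at hu
            rcases hu with rfl | rfl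
            · exact ⟨hx, Or.inr (Or.inl (by omega))⟩
            · exact ⟨hy, Or.inr (Or.inl (by omega))⟩
          have h4 := card_le_card h3
          rw [card_pair (by tauto)] at h4
          exact h4
        omega
  all_goals
    simp only [mem_insert, mem_singleton, not_or]
    tauto

/-! ### `T6` -/

theorem M5_t6 (hG : G.Gen6 Fa) (h6 : G.StT6) {l l' q p x y z : V}
    (h : G.T6s Fa l l' q p x y z) :
    0 ≤ 2 * G.ch5 Fa l + ∑ x ∈ R Fa, G.dn5 Fa x l := by
  have hr := hG.g5.reg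
  have h9 := hG.g5.n9
  have hc : G.ch5 Fa l = -2 := h.ch h9 hr
  have hc' : -2 ≤ G.ch5 Fa l := by omega
  have hl' : l' ∈ G.nb l := by rw [h.nb]; simp
  have hq : q ∈ G.nb l := by rw [h.nb]; simp
  have hp : p ∈ G.nb l := by rw [h.nb]; simp
  have hR : ∀ u ∈ G.nb l, u ∈ R Fa := fun u hu => nb_R76 h.lR h.I0 hu
  have hqR := hR q hq
  have hI2 := ((stTwHL_5 G).twI Fa hr q hqR p h.t).2
  have hkq := h.kq
  rcases Nat.lt_or_ge (G.I Fa q).card 1 with h1 | h1
  · -- in no neighbourhood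
    have h0 : G.I Fa q = ∅ := card_eq_zero.1 (by omega)
    have hNQ : G.NoQ Fa l q := ⟨fun e => by rw [h0, card_empty] at e; omega, Or.inl h0⟩
    obtain ⟨-, h3⟩ := h6.b Fa hG l l' q p x y z h h0
    by_cases h4 : ∃ g, G.Good Fa l l' g
    · obtain ⟨g, hg⟩ := h4
      exact get_SK hG (hR g hg.1) (SK.t6l g h hNQ hg) hc'
    · have h5 := h3.resolve_left h4
      push Not at h4
      exact get_DL hG (hR l' hl') (DL.t6 h hNQ h4 h5)
  · have h1' : (G.I Fa q).card = 1 := by omega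
    by_cases h2 : G.NoSk Fa l q
    · by_cases h3 : 1 ≤ G.ch5 Fa q
      · have h3' : 1 ≤ G.ch5 Fa p := by rw [ch_twin hr h9 h.t hqR h1']; exact h3
        have h2' := NoSk_sw hr h.t hqR h2
        have hIp : (G.I Fa p).card = 1 := by rw [hI2]; exact h1'
        by_cases h4 : G.Dbl Fa l l' q
        · have h4' := Dbl_sw hr h9 h.t hqR h4
          obtain ⟨g, hg1, hg2, hg3⟩ := h6.dbl Fa hG l l' q p x y z h h1' h2 h4
          have b1 := (dn_parts hG q l).2.2.2.1 (PS.t6 h h1' h2 h3 h4)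
          have b2 := (dn_parts hG p l).2.2.2.1 (PS.t6 (h.swap hr) hIp h2' h3' h4')
          have b3 := (dn_parts hG g l).2.2.2.2.2.2 (HS.dbl g h h1' h2 h3 h4 hg1 hg2 hg3)
          have g1 : g ≠ q := fun e => hg3.2 (by rw [e]; exact tw_of76 h.t)
          have g2 : g ≠ p := fun e => hg3.2 (by rw [e]; exact tw_of76' h.t)
          have b5 : ∑ x ∈ ({q, p, g} : Finset V), G.dn5 Fa x l ≤
              ∑ x ∈ R Fa, G.dn5 Fa x l := by
            refine sum_le_sum_of_subset_of_nonneg ?_ fun x _ _ => dn5_nonneg76 hG x l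
            intro u hu
            simp only [mem_insert, mem_singleton] at hu
            rcases hu with rfl | rfl | rfl
            · exact hR _ hq
            · exact hR _ hp
            · exact hR _ hg1
          have hqp := ne_of_nb5 h.t.1
          rw [sum_insert, sum_insert, sum_singleton] at b5
          · omega
          · rw [mem_singleton]
            exact g2.symm
          · rw [mem_insert, mem_singleton, not_or]
            exact ⟨hqp, g1.symm⟩
        · have h4' : ¬ G.Dbl Fa l l' p := fun e =>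
            h4 (Dbl_sw hr h9 (tw_symm76 h.t) (hR p hp) e)
          exact get_PD hG hqR (hR p hp) (ne_of_nb5 h.t.1) (PD.t6 h h1' h2 h3 h4)
            (PD.t6 (h.swap hr) hIp h2' h3' h4')
      · have hNQ : G.NoQ Fa l q := ⟨h2, Or.inr (by omega)⟩
        by_cases h4 : ∃ g, G.Good Fa l l' g
        · obtain ⟨g, hg⟩ := h4
          exact get_SK hG (hR g hg.1) (SK.t6l g h hNQ hg) hc'
        · have h5 := (h6.a Fa hG l l' q p x y z h h1' hNQ).resolve_left h4
          push Not at h4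
          by_cases h7 : 2 ≤ G.ch5 Fa l'
          · exact get_DL hG (hR l' hl') (DL.t6 h hNQ h4 h7)
          · obtain ⟨g, k1, k2, k3, k4⟩ := h5.resolve_left h7
            exact get_HD hG (hR g k1) (HD.ast g h h1' hNQ (by omega) h4 k1 k2 k3 k4) hc'
    · unfold NoSk at h2
      push Not at h2
      obtain ⟨-, g, k1, k2, k3, k4⟩ := h2
      exact get_SK hG (hR g k1) (SK.t6q g h h1' k1 k2 k3 k4) hc'

end T57

/-- M5 -/
theorem stM5_57 (G : CG V) (h3 : G.StM3) (h6 : G.StT6) : G.StM5 := by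
  intro Fa hG l hl hn
  rcases h3 Fa hG l hl hn with ⟨l', q, p, q', p', x, h⟩ | ⟨q, p, q', p', x, y, h⟩ |
    ⟨l', q, p, x, y, z, h⟩
  · exact T57.M5_t3 hG h
  · exact T57.M5_t4 hG h hn
  · exact T57.M5_t6 hG h6 h

end CG

end Pool.Agent.Lib.MP_e95c01_co.N
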