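import Pool.Agent.Lib.MP_e95c01_co.X.C7t_57

/-!
# `λ = 3`, thick torsos: the poor lows in one neighbourhood get enough (M6)
-/

namespace Pool.Agent.Lib.MP_e95c01_co.N

open Finset

variable {V : Type} [Fintype V] [DecidableEq V]

namespace CG

namespace T57

variable {G : CG V} {Fa : Finset (Finset V)}

/-- a lower bound for what `l` gets -/
theorem sum_one (hG : G.Gen6 Fa) {l a : V} (ha : a ∈ R Fa) :
    G.dn5 Fa a l ≤ ∑ x ∈ R Fa, G.dn5 Fa x l :=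
  single_le_sum (f := fun x => G.dn5 Fa x l) (fun x _ => dn5_nonneg76 hG x l) ha

theorem sum_two (hG : G.Gen6 Fa) {l a b : V} (ha : a ∈ R Fa) (hb : b ∈ R Fa) (hab : a ≠ b) :
    G.dn5 Fa a l + G.dn5 Fa b l ≤ ∑ x ∈ R Fa, G.dn5 Fa x l := by
  rw [← sum_pair hab (f := fun x => G.dn5 Fa x l)]
  refine sum_le_sum_of_subset_of_nonneg ?_ fun x _ _ => dn5_nonneg76 hG x l
  intro u hu
  rw [mem_insert, mem_singleton] at hu
  rcases hu with rfl | rfl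
  · exact ha
  · exact hb

theorem ite_nn (P : Prop) [Decidable P] (n : ℤ) (hn : 0 ≤ n) : 0 ≤ (if P then n else 0) := by
  split_ifs
  · exact hn
  · exact le_rfl

/-- all summands of `dn5` are nonnegative -/
theorem dn_parts (hG : G.Gen6 Fa) (x z : V) :
    (G.DL Fa z x → -2 * G.ch5 Fa z ≤ G.dn5 Fa x z) ∧ (G.PD Fa z x → - G.ch5 Fa z ≤ G.dn5 Fa x z) ∧
    (G.PF Fa z x → 2 ≤ G.dn5 Fa x z) ∧ (G.PS Fa z x → 1 ≤ G.dn5 Fa x z) ∧
    (G.SK Fa z x → 4 ≤ G.dn5 Fa x z) ∧ (G.HD Fa z x → 4 ≤ G.dn5 Fa x z) ∧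
    (G.HS Fa z x → 2 ≤ G.dn5 Fa x z) := by
  classical
  have h1 : 0 ≤ (if G.DL Fa z x then -2 * G.ch5 Fa z else 0) := by
    split_ifs with h
    · have := h.neg hG; omega
    · exact le_rfl
  have h2 : 0 ≤ (if G.PD Fa z x then -G.ch5 Fa z else 0) := by
    split_ifs with h
    · have := h.neg hG; omega
    · exact le_rfl
  have h3 := ite_nn (G.PF Fa z x) 2 (by norm_num)
  have h4 := ite_nn (G.PS Fa z x) 1 (by norm_num)
  have h5 := ite_nn (G.SK Fa z x) 4 (by norm_num)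
  have h6 := ite_nn (G.HD Fa z x) 4 (by norm_num)
  have h7 := ite_nn (G.HS Fa z x) 2 (by norm_num)
  have h8 := ite_nn (G.PQ Fa z x) 2 (by norm_num)
  have h9 := ite_nn (G.AL Fa z x) 2 (by norm_num)
  unfold dn5
  refine ⟨fun h => ?_, fun h => ?_, fun h => ?_, fun h => ?_, fun h => ?_, fun h => ?_,
    fun h => ?_⟩
  · rw [if_pos h]
    omega
  · rw [if_pos h]
    omega
  · rw [if_pos h]
    omega
  · rw [if_pos h]
    omega
  · rw [if_pos h]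
    omega
  · rw [if_pos h]
    omega
  · rw [if_pos h]
    omega

theorem get_DL (hG : G.Gen6 Fa) {l x : V} (hx : x ∈ R Fa) (h : G.DL Fa l x) :
    0 ≤ 2 * G.ch5 Fa l + ∑ x ∈ R Fa, G.dn5 Fa x l := by
  have h1 := (dn_parts hG x l).1 h
  have h2 := sum_one hG (l := l) hx
  omega

theorem get_SK (hG : G.Gen6 Fa) {l x : V} (hx : x ∈ R Fa) (h : G.SK Fa l x)
    (hc : -2 ≤ G.ch5 Fa l) : 0 ≤ 2 * G.ch5 Fa l + ∑ x ∈ R Fa, G.dn5 Fa x l := by
  have h1 := (dn_parts hG x l).2.2.2.2.1 h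
  have h2 := sum_one hG (l := l) hx
  omega

theorem get_HD (hG : G.Gen6 Fa) {l x : V} (hx : x ∈ R Fa) (h : G.HD Fa l x)
    (hc : -2 ≤ G.ch5 Fa l) : 0 ≤ 2 * G.ch5 Fa l + ∑ x ∈ R Fa, G.dn5 Fa x l := by
  have h1 := (dn_parts hG x l).2.2.2.2.2.1 h
  have h2 := sum_one hG (l := l) hx
  omega

theorem get_PD (hG : G.Gen6 Fa) {l q p : V} (hq : q ∈ R Fa) (hp : p ∈ R Fa) (hqp : q ≠ p)
    (h : G.PD Fa l q) (h' : G.PD Fa l p) :
    0 ≤ 2 * G.ch5 Fa l + ∑ x ∈ R Fa, G.dn5 Fa x l := by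
  have h1 := (dn_parts hG q l).2.1 h
  have h1' := (dn_parts hG p l).2.1 h'
  have h2 := sum_two hG (l := l) hq hp hqp
  omega

/-- no negative flag with two outer neighbours -/
theorem fg_two (hG : G.Gen6 Fa) {B : Finset V} {l c : V} (h : G.L1 Fa B l)
    (h2 : (G.pO B l).card = 2) (hc : c ∈ G.pT B l) (hct : ¬ G.IsTw c) : 0 ≤ G.fg5 Fa l := by
  have h9 := hG.g5.n9
  have hr := hG.g5.reg
  have hB := hr.frag B (l1_N h).2
  have h6 : G.fg5 Fa l = K28.ff G B l := by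
    rw [K28.fg_single h.I1]
    rfl
  have hO : (G.nb l ∩ G.Co B).card = 2 := h2
  have hs := K28.six_low h.low B
  rw [h6]
  rcases K28.ff_cases hB h.low with k | ⟨-, k⟩
  · exact k
  · exfalso
    rcases k with ⟨v, k, -⟩ | k | k | k
    · have h8 := K28.S0_card k
      have e1 : (G.nb l ∩ B).card = 2 := h8.1
      have e2 : (G.nb l ∩ G.N B).card = 1 := h8.2
      omega
    · exact hct (K28.PairSet_tw h9 k.2.2.2 hc)
    · have h8 := K28.T3_pair k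
      rw [K28.pT_Co hB] at h8
      exact hct (K28.PairSet_tw h9 h8 hc)
    · have h8 := (K28.HF_card k).1
      have e1 : (G.nb l ∩ G.Co B).card = 4 := h8
      omega

theorem Gam.ch_ge (hG : G.Gen6 Fa) {B : Finset V} {l d x y : V} (h : G.Gam Fa B l d x y) :
    -2 ≤ G.ch5 Fa l := by
  have h9 := hG.g5.n9
  have hr := hG.g5.reg
  have h1 := (stCh5_28 G).low1 h9 Fa hr l h.lR h.low B h.I1
  have hO : (G.pO B l).card = 2 := by rw [h.out]; exact card_pair h.ne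
  have h2 : G.d l (G.Co B) = 2 := hO
  have h3 := fg_two hG h.toL1 hO h.dT (fun e => tw_not_low76 e h.dl)
  rw [h2, h.nf, h.np, card_singleton, card_empty] at h1
  omega

theorem The.ch_ge (hG : G.Gen6 Fa) {B : Finset V} {l a b x y : V} (h : G.The Fa B l a b x y) :
    -2 ≤ G.ch5 Fa l := by
  have h9 := hG.g5.n9
  have hr := hG.g5.reg
  have h1 := (stCh5_28 G).low1 h9 Fa hr l h.lR h.low B h.I1
  have hO : (G.pO B l).card = 2 := by rw [h.out]; exact card_pair h.ne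
  have h2 : G.d l (G.Co B) = 2 := hO
  have h3 := fg_two hG h.toL1 hO h.aT (fun e => (stTwHL_5 G).notHL h9 _ _ _ h.hl e)
  rw [h2, h.nf, h.np, card_singleton, card_empty] at h1
  omega

theorem Eta.ch_ge (hG : G.Gen6 Fa) {B : Finset V} {l a b q p : V} (h : G.Eta Fa B l a b q p) :
    -2 ≤ G.ch5 Fa l := by
  have h9 := hG.g5.n9
  have hr := hG.g5.reg
  have h1 := (stCh5_28 G).low1 h9 Fa hr l h.lR h.low B h.I1
  have hO : (G.pO B l).card = 2 := by rw [h.out]; exact card_pair (ne_of_nb5 h.t.1)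
  have h2 : G.d l (G.Co B) = 2 := hO
  have h3 := fg_two hG h.toL1 hO h.aT (fun e => (stTwHL_5 G).notHL h9 _ _ _ h.hl e)
  rw [h2, h.nf, h.np, card_singleton, card_empty] at h1
  omega

/-- GAMMA gets enough -/
theorem M6_gam (hG : G.Gen6 Fa) {B : Finset V} {l d x y : V} (h : G.Gam Fa B l d x y)
    (hn : G.ch5 Fa l < 0) : 0 ≤ 2 * G.ch5 Fa l + ∑ x ∈ R Fa, G.dn5 Fa x l := by
  have hr := hG.g5.reg
  have hc := Gam.ch_ge hG h
  have hdR : d ∈ R Fa := (mem_nR76.1 (pT_R hr h.I1 h.dT)).2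
  have hx : x ∈ R Fa := pO_R h.toL1 (by rw [h.out]; simp)
  have hy : y ∈ R Fa := pO_R h.toL1 (by rw [h.out]; simp)
  by_cases h1 : (G.I Fa d).card ≤ 1
  · exact get_DL hG hdR (DL.gam h hn (Or.inl h1))
  · by_cases h2 : x ∈ G.nb d ∧ (G.I Fa x).card = 1
    · exact get_SK hG hx (SK.gam x h hn (by omega) (Or.inl rfl) h2.1 h2.2) hc
    · by_cases h3 : y ∈ G.nb d ∧ (G.I Fa y).card = 1
      · exact get_SK hG hy (SK.gam y h hn (by omega) (Or.inr rfl) h3.1 h3.2) hc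
      · refine get_DL hG hdR (DL.gam h hn (Or.inr ⟨fun h4 h5 => h2 ⟨h4, h5⟩,
          fun h4 h5 => h3 ⟨h4, h5⟩⟩))

theorem M6_the (hG : G.Gen6 Fa) {B : Finset V} {l a b x y : V} (h : G.The Fa B l a b x y)
    (hn : G.ch5 Fa l < 0) : 0 ≤ 2 * G.ch5 Fa l + ∑ x ∈ R Fa, G.dn5 Fa x l := by
  have hc := The.ch_ge hG h
  have hx : x ∈ R Fa := pO_R h.toL1 (by rw [h.out]; simp)
  have hy : y ∈ R Fa := pO_R h.toL1 (by rw [h.out]; simp)
  by_cases h1 : (G.I Fa x).card = 1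
  · exact get_SK hG hx (SK.the x h hn (Or.inl rfl) h1) hc
  · by_cases h2 : (G.I Fa y).card = 1
    · exact get_SK hG hy (SK.the y h hn (Or.inr rfl) h2) hc
    · exact get_DL hG h.bR (DL.the h hn h1 h2)

theorem M6_eps (hG : G.Gen6 Fa) {B : Finset V} {l d q p : V} (h : G.Eps Fa B l d q p)
    (hn : G.ch5 Fa l < 0) : 0 ≤ 2 * G.ch5 Fa l + ∑ x ∈ R Fa, G.dn5 Fa x l := by
  have hr := hG.g5.reg
  have hdR : d ∈ R Fa := (mem_nR76.1 (pT_R hr h.I1 h.dT)).2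
  have hq : q ∈ R Fa := pO_R h.toL1 (by rw [h.out]; simp)
  have hp : p ∈ R Fa := pO_R h.toL1 (by rw [h.out]; simp)
  by_cases h1 : 2 ≤ G.ch5 Fa d
  · exact get_DL hG hdR (DL.eps h hn h1)
  · exact get_PD hG hq hp (ne_of_nb5 h.t.1) (PD.eps h hn (by omega))
      (PD.eps (Eps.swap hr h) hn (by omega))

theorem M6_eta (hG : G.Gen6 Fa) {B : Finset V} {l a b q p : V} (h : G.Eta Fa B l a b q p)
    (hn : G.ch5 Fa l < 0) : 0 ≤ 2 * G.ch5 Fa l + ∑ x ∈ R Fa, G.dn5 Fa x l := by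
  have hr := hG.g5.reg
  have hc := Eta.ch_ge hG h
  have haR : a ∈ R Fa := (mem_nR76.1 (pT_R hr h.I1 h.aT)).2
  by_cases h1 : 2 ≤ G.ch5 Fa b
  · exact get_DL hG h.bR (DL.eta h hn h1)
  · exact get_HD hG haR (HD.eta h hn (by omega)) hc

theorem M6_s0 (hG : G.Gen6 Fa) {B : Finset V} {l v q p y : V} (h : G.S0s Fa B l v q p y)
    (hn : G.ch5 Fa l < 0) : 0 ≤ 2 * G.ch5 Fa l + ∑ x ∈ R Fa, G.dn5 Fa x l := by
  have hr := hG.g5.reg
  have hvR : v ∈ R Fa := (mem_nR76.1 (pT_R hr h.I1 (S0s.v_pT h))).2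
  have hq : q ∈ R Fa := pO_R h.toL1 (by rw [h.out]; simp)
  have hp : p ∈ R Fa := pO_R h.toL1 (by rw [h.out]; simp)
  by_cases h1 : 1 ≤ G.ch5 Fa v
  · exact get_DL hG hvR (DL.s0 h hn h1)
  · exact get_PD hG hq hp (ne_of_nb5 h.t.1) (PD.s0 h hn (by omega))
      (PD.s0 (S0s.swap hr h) hn (by omega))

end T57

/-- M6 -/
theorem stM6_57 (G : CG V) (h4 : G.StM4) : G.StM6 := by
  intro Fa hG B l hl hn
  rcases h4 Fa hG B l hl hn with ⟨d, x, y, h⟩ | ⟨a, b, x, y, h⟩ | ⟨d, q, p, h⟩ |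
    ⟨a, b, q, p, h⟩ | ⟨v, q, p, y, h⟩
  · exact T57.M6_gam hG h hn
  · exact T57.M6_the hG h hn
  · exact T57.M6_eps hG h hn
  · exact T57.M6_eta hG h hn
  · exact T57.M6_s0 hG h hn

end CG

end Pool.Agent.Lib.MP_e95c01_co.N
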