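import Pool.Agent.Lib.MP_e95c01_co.X.AuxT76

/-!
# `λ = 3`, thick torsos: the sum
-/

namespace Pool.Agent.Lib.MP_e95c01_co.N

open Finset

variable {V : Type} [Fintype V] [DecidableEq V]

namespace CG

/-- M9 -/
theorem stM9_76 (G : CG V) (h5 : G.StM5) (h6 : G.StM6) (hk : G.StK3) (c6 : G.StC6)
    (c7 : G.StC7) (c8 : G.StC8) : G.StM9 := by
  classical
  intro Fa hG
  have h9 := hG.g5.n9
  have hr := hG.g5.reg
  rw [← (stCh5_28 G).sum Fa]
  -- the final charges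
  have hlow : ∀ z ∈ R Fa, G.Low z → 0 ≤ 2 * G.ch5 Fa z + ∑ x ∈ R Fa, G.dn5 Fa x z -
      ∑ x ∈ R Fa, G.dn5 Fa z x := by
    intro z hz hl
    have e1 := c6 Fa hG z hz hl
    have e2 : 0 ≤ ∑ x ∈ R Fa, G.dn5 Fa x z := sum_nonneg fun x _ => dn5_nonneg76 hG x z
    by_cases h1 : 0 ≤ G.ch5 Fa z
    · rw [max_eq_right (by omega)] at e1
      omega
    · rw [max_eq_left (by omega)] at e1
      suffices h : 0 ≤ 2 * G.ch5 Fa z + ∑ x ∈ R Fa, G.dn5 Fa x z by omega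
      by_cases h0 : (G.I Fa z).card = 0
      · exact h5 Fa hG z ⟨hz, hl, card_eq_zero.1 h0⟩ (by omega)
      by_cases h1' : (G.I Fa z).card = 1
      · obtain ⟨B, hB⟩ := card_eq_one.1 h1'
        exact h6 Fa hG B z ⟨hz, hl, hB⟩ (by omega)
      · have h2 : 2 ≤ (G.I Fa z).card := by omega
        obtain ⟨B, hB, v, hs, hv, -⟩ := hk.low Fa hG z hz hl h2 (by omega)
        have h3 : G.DL Fa z v := DL.k2 h2 hB hs (by omega)
        have h4 : -2 * G.ch5 Fa z ≤ G.dn5 Fa v z := by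
          rw [dn5_low76 h9 hs.2.2.1, if_pos h3]
          have : (0 : ℤ) ≤ if G.AL Fa z v then 2 else 0 := by split_ifs <;> norm_num
          omega
        have h7 := single_le_sum (f := fun x => G.dn5 Fa x z)
          (fun x _ => dn5_nonneg76 hG x z) hv
        omega
  have htw : ∀ z ∈ R Fa, G.IsTw z → -(if G.InK6 Fa z then 2 else 0 : ℤ) ≤
      2 * G.ch5 Fa z + ∑ x ∈ R Fa, G.dn5 Fa x z - ∑ x ∈ R Fa, G.dn5 Fa z x := by
    intro z hz hl
    have e1 := c7 Fa hG z hz hl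
    omega
  have hhub : ∀ z ∈ R Fa, G.Hub z → 0 ≤ 2 * G.ch5 Fa z + ∑ x ∈ R Fa, G.dn5 Fa x z -
      ∑ x ∈ R Fa, G.dn5 Fa z x := by
    intro z hz hl
    have e1 := c8 Fa hG z hz hl
    have e2 : 0 ≤ ∑ x ∈ R Fa, G.dn5 Fa x z := sum_nonneg fun x _ => dn5_nonneg76 hG x z
    omega
  have hall : ∀ z ∈ R Fa, -(if G.InK6 Fa z then 2 else 0 : ℤ) ≤
      2 * G.ch5 Fa z + ∑ x ∈ R Fa, G.dn5 Fa x z - ∑ x ∈ R Fa, G.dn5 Fa z x := by
    intro z hz
    have e3 : (0 : ℤ) ≤ if G.InK6 Fa z then 2 else 0 := by split_ifs <;> norm_num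
    rcases trich76 (G := G) z with h | h | h
    · have := hlow z hz h; omega
    · exact htw z hz h
    · have := hhub z hz h; omega
  -- the sum of the final charges
  have hsum : ∑ z ∈ R Fa, (2 * G.ch5 Fa z + ∑ x ∈ R Fa, G.dn5 Fa x z -
      ∑ x ∈ R Fa, G.dn5 Fa z x) = 2 * ∑ z ∈ R Fa, G.ch5 Fa z := by
    rw [sum_sub_distrib, sum_add_distrib, sum_comm (f := fun z x => G.dn5 Fa x z), mul_sum]
    ring
  have h1 := sum_le_sum hall
  rw [hsum, sum_neg_distrib, ← sum_filter, sum_const, nsmul_eq_mul] at h1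
  -- the `K6`'s
  have h2 : ((R Fa).filter fun z => G.InK6 Fa z).card ≤ 6 * G.cen Fa := by
    have h3 : ((R Fa).filter fun z => G.InK6 Fa z) ⊆
        (univ.filter fun S : Finset V => G.IsK6 S ∧ S ⊆ R Fa ∧
          ∀ B ∈ Fa, (S ∩ G.N B).card ≤ 2).biUnion id := by
      intro z hz
      obtain ⟨S, s1, s2, s3, s4⟩ := (mem_filter.1 hz).2
      rw [mem_biUnion]
      exact ⟨S, mem_filter.2 ⟨mem_univ _, s1, s2, s3⟩, s4⟩
    refine (card_le_card h3).trans ?_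
    refine (card_biUnion_le_card_mul _ _ 6 ?_).trans ?_
    · intro S hS
      exact (mem_filter.1 hS).2.1.1.le
    · rw [cen, mul_comm]
  have h4 : (((R Fa).filter fun z => G.InK6 Fa z).card : ℤ) ≤ 6 * (G.cen Fa : ℤ) := by
    exact_mod_cast h2
  linarith

/-- C6: all low vertices -/
theorem stC6_76 (G : CG V) (ha : G.StC6a) (hb : G.StC6b) (hc : G.StC6c) (hd : G.StC6d)
    (he : G.StC6e) (hf : G.StC6f) : G.StC6 := by
  intro Fa hG d hd' hl
  change G.ask Fa d ≤ _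
  by_cases h0 : (G.I Fa d).card = 0
  · rw [ha Fa hG d ⟨hd', hl, card_eq_zero.1 h0⟩]
    exact le_max_left _ _
  by_cases h1 : (G.I Fa d).card = 1
  · obtain ⟨B, hB⟩ := card_eq_one.1 h1
    have hL : G.L1 Fa B d := ⟨hd', hl, hB⟩
    have h2 := e1_86 hG.g5 hd' hB
    by_cases h3 : G.d d (G.Co B) = 2
    · exact he Fa hG B d hL h3
    by_cases h4 : G.d d (G.Co B) = 3
    · exact hd Fa hG B d hL h4
    by_cases h5 : ∃ l a, ((∃ x y, G.The Fa B l a d x y) ∨ ∃ q p, G.Eta Fa B l a d q p) ∧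
        G.DL Fa l d
    · exact (hb Fa hG B d hL h5).trans (le_max_right _ _)
    · exact (hc Fa hG B d hL (by omega) h5).trans (le_max_right _ _)
  · exact hf Fa hG d hd' hl (by omega)

end CG

end Pool.Agent.Lib.MP_e95c01_co.N
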