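import Pool.Agent.Lib.MP_e95c01_co.X.K2_86

/-!
# Ten vertices, exactly three low vertices: impossible

The complement of the graph has three vertices of degree 3, all others have degree at most 2.
Every pair that is not adjacent in the complement is covered by a low vertex or by a 4-cycle of the
complement that avoids it.
-/

namespace Pool.Agent.Lib.MP_e95c01_co.N

open Finset

variable {V : Type} [Fintype V] [DecidableEq V]

namespace CG

/-- a 4-cycle -/
def Q4_42 (D : V → Finset V) (u w u' w' : V) : Prop :=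
  u ≠ u' ∧ w ≠ w' ∧ w ∈ D u ∧ w' ∈ D u ∧ w ∈ D u' ∧ w' ∈ D u'

/-- the complement -/
structure C10_42 (D : V → Finset V) (L : Finset V) (a b c : V) : Prop where
  sym : ∀ u v, v ∈ D u → u ∈ D v
  irr : ∀ v, v ∉ D v
  hL : ∀ v, v ∈ L ↔ v = a ∨ v = b ∨ v = c
  ab : a ≠ b
  ac : a ≠ c
  bc : b ≠ c
  da : (D a).card = 3
  db : (D b).card = 3
  dc : (D c).card = 3
  two : ∀ v, v ∉ L → (D v).card ≤ 2
  k23 : ∀ u v, u ≠ v → (D u ∩ D v).card ≤ 2
  n10 : Fintype.card V = 10
  cov : ∀ x y, x ≠ y → y ∉ D x →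
    (∃ v ∈ L, v ≠ x ∧ v ≠ y ∧ v ∉ D x ∧ v ∉ D y) ∨
    (∃ u w u' w', Q4_42 D u w u' w' ∧ (x ≠ u ∧ x ≠ w ∧ x ≠ u' ∧ x ≠ w') ∧
      (y ≠ u ∧ y ≠ w ∧ y ≠ u' ∧ y ≠ w'))

/-- an isolated 4-cycle without low vertices -/
def Iso42 (D : V → Finset V) (L K : Finset V) : Prop :=
  K.card = 4 ∧ (∀ v ∈ K, v ∉ L) ∧ (∀ v ∈ K, D v ⊆ K) ∧
    ∀ K' : Finset V, (∀ v ∈ K', D v ⊆ K') → ∀ v ∈ K, v ∈ K' → K ⊆ K'

/-- a 4-cycle with exactly one low vertex `g` -/
structure One42 (D : V → Finset V) (L : Finset V) (g w w' z : V) : Prop where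
  ww : w ≠ w'
  wg : w ∈ D g
  wg' : w' ∈ D g
  zw : z ∈ D w
  zw' : z ∈ D w'
  wL : w ∉ L
  wL' : w' ∉ L
  zL : z ∉ L
  fw : ∀ t ∈ D w, t = g ∨ t = z
  fw' : ∀ t ∈ D w', t = g ∨ t = z
  fz : ∀ t ∈ D z, t = w ∨ t = w'

variable {D : V → Finset V} {L : Finset V} {a b c : V}

omit [Fintype V] in
theorem ll42 {S : Finset V} (M : List V) (hM : M.Nodup) (h : ∀ x ∈ M, x ∈ S) :
    M.length ≤ S.card := by
  rw [← List.toFinset_card_of_nodup hM]
  exact card_le_card fun x hx => h x (List.mem_toFinset.1 hx)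

namespace C10_42

theorem p1 (h : C10_42 D L a b c) : C10_42 D L b a c :=
  { sym := h.sym, irr := h.irr, hL := fun v => by rw [h.hL]; tauto, ab := h.ab.symm, ac := h.bc,
    bc := h.ac, da := h.db, db := h.da, dc := h.dc, two := h.two, k23 := h.k23, n10 := h.n10,
    cov := h.cov }

theorem p2 (h : C10_42 D L a b c) : C10_42 D L a c b :=
  { sym := h.sym, irr := h.irr, hL := fun v => by rw [h.hL]; tauto, ab := h.ac, ac := h.ab,
    bc := h.bc.symm, da := h.da, db := h.dc, dc := h.db, two := h.two, k23 := h.k23,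
    n10 := h.n10, cov := h.cov }

theorem aL (h : C10_42 D L a b c) : a ∈ L := (h.hL a).2 (Or.inl rfl)

theorem ne (h : C10_42 D L a b c) {u v : V} (huv : v ∈ D u) : v ≠ u := by
  rintro rfl
  exact h.irr _ huv

/-- vertices of degree two -/
theorem full (h : C10_42 D L a b c) {v s t : V} (hv : v ∉ L) (hs : s ∈ D v) (ht : t ∈ D v)
    (hst : s ≠ t) : ∀ u ∈ D v, u = s ∨ u = t := by
  intro u hu
  by_contra hc
  rw [not_or] at hc
  have h1 := ll42 (S := D v) [u, s, t] (by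
    simp only [List.nodup_cons, List.mem_cons, List.not_mem_nil, or_false, not_or,
      not_false_iff, List.nodup_nil, and_true]
    exact ⟨hc, hst⟩) (by
    intro x hx
    simp only [List.mem_cons, List.not_mem_nil, or_false] at hx
    rcases hx with rfl | rfl | rfl
    exacts [hu, hs, ht])
  have h2 := h.two v hv
  simp only [List.length_cons, List.length_nil] at h1
  omega

theorem le7 (h : C10_42 D L a b c) {S : Finset V} (hS : ∀ v ∈ S, v ∉ L) : S.card ≤ 7 := by
  have h1 : Disjoint S L := by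
    rw [disjoint_left]
    exact fun v hv => hS v hv
  have h2 := card_le_univ (S ∪ L)
  rw [card_union_of_disjoint h1, h.n10] at h2
  have h3 := ll42 (S := L) [a, b, c] (by
    simp only [List.nodup_cons, List.mem_cons, List.not_mem_nil, or_false, not_or,
      not_false_iff, List.nodup_nil, and_true]
    exact ⟨⟨h.ab, h.ac⟩, h.bc⟩) (by
    intro x hx
    simp only [List.mem_cons, List.not_mem_nil, or_false] at hx
    exact (h.hL x).2 hx)
  simp only [List.length_cons, List.length_nil] at h3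
  omega

/-- two isolated 4-cycles -/
theorem iso2 (h : C10_42 D L a b c) {K K' : Finset V} (hK : Iso42 D L K) (hK' : Iso42 D L K')
    {p : V} (hp : p ∈ K) (hp' : p ∉ K') : False := by
  have h1 : Disjoint K K' := by
    rw [disjoint_left]
    intro v hv hv'
    exact hp' (hK.2.2.2 K' hK'.2.2.1 v hv hv' hp)
  have h2 := h.le7 (S := K ∪ K') (by
    intro v hv
    rcases mem_union.1 hv with h3 | h3
    exacts [hK.2.1 v h3, hK'.2.1 v h3])
  rw [card_union_of_disjoint h1, hK.1, hK'.1] at h2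
  omega

/-- an isolated 4-cycle has no neighbours of low vertices -/
theorem iso_nb (h : C10_42 D L a b c) {K : Finset V} (hK : Iso42 D L K) {g v : V} (hg : g ∈ L)
    (hv : v ∈ D g) : v ∉ K := fun h1 => hK.2.1 g (hK.2.2.1 v h1 (h.sym _ _ hv)) hg

/-- an isolated 4-cycle and a 4-cycle with one low vertex are disjoint -/
theorem iso_one (h : C10_42 D L a b c) {K : Finset V} (hK : Iso42 D L K) {g w w' z : V}
    (hg : g ∈ L) (ho : One42 D L g w w' z) : w ∉ K ∧ w' ∉ K ∧ z ∉ K := by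
  have h1 := h.iso_nb hK hg ho.wg
  exact ⟨h1, h.iso_nb hK hg ho.wg', fun h2 => h1 (hK.2.2.1 z h2 (h.sym _ _ ho.zw))⟩

theorem mkIso (h : C10_42 D L a b c) {u w u' w' : V} (hQ : Q4_42 D u w u' w')
    (hu : u ∉ L) (hw : w ∉ L) (hu' : u' ∉ L) (hw' : w' ∉ L) :
    Iso42 D L ({u, w, u', w'} : Finset V) := by
  obtain ⟨h1, h2, h3, h4, h5, h6⟩ := hQ
  have e1 : u ≠ w := (h.ne h3).symm
  have e2 : u ≠ w' := (h.ne h4).symm
  have e3 : w ≠ u' := h.ne h5
  have e4 : u' ≠ w' := (h.ne h6).symm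
  have mem : ∀ v, v ∈ ({u, w, u', w'} : Finset V) ↔ v = u ∨ v = w ∨ v = u' ∨ v = w' := by
    intro v
    simp
  have f1 := h.full hu h3 h4 h2
  have f2 := h.full hu' h5 h6 h2
  have f3 := h.full hw (h.sym _ _ h3) (h.sym _ _ h5) h1
  have f4 := h.full hw' (h.sym _ _ h4) (h.sym _ _ h6) h1
  refine ⟨?_, ?_, ?_, ?_⟩
  · rw [card_insert_of_notMem, card_insert_of_notMem, card_pair e4]
    · rw [mem_insert, mem_singleton]
      exact fun e => e.elim e3 h2
    · rw [mem_insert, mem_insert, mem_singleton]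
      exact fun e => e.elim e1 (fun e => e.elim h1 e2)
  · intro v hv
    rcases (mem v).1 hv with rfl | rfl | rfl | rfl
    exacts [hu, hw, hu', hw']
  · intro v hv t ht
    rw [mem]
    rcases (mem v).1 hv with rfl | rfl | rfl | rfl
    · rcases f1 t ht with e | e <;> tauto
    · rcases f3 t ht with e | e <;> tauto
    · rcases f2 t ht with e | e <;> tauto
    · rcases f4 t ht with e | e <;> tauto
  · intro K' hK' v hv hvK
    have key : u ∈ K' ∧ w ∈ K' ∧ u' ∈ K' ∧ w' ∈ K' := by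
      rcases (mem v).1 hv with rfl | rfl | rfl | rfl
      · have g1 := hK' v hvK h3
        have g2 := hK' v hvK h4
        exact ⟨hvK, g1, hK' w g1 (h.sym _ _ h5), g2⟩
      · have g1 := hK' v hvK (h.sym _ _ h3)
        have g2 := hK' v hvK (h.sym _ _ h5)
        exact ⟨g1, hvK, g2, hK' u g1 h4⟩
      · have g1 := hK' v hvK h5
        have g2 := hK' v hvK h6
        exact ⟨hK' w g1 (h.sym _ _ h3), g1, hvK, g2⟩
      · have g1 := hK' v hvK (h.sym _ _ h4)
        have g2 := hK' v hvK (h.sym _ _ h6)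
        exact ⟨g1, hK' u g1 h3, g2, hvK⟩
    intro t ht
    rcases (mem t).1 ht with rfl | rfl | rfl | rfl
    exacts [key.1, key.2.1, key.2.2.1, key.2.2.2]

/-- the possible forms of a 4-cycle that avoids `a` and `y` -/
def Cyc (D : V → Finset V) (L : Finset V) (a b c y : V) : Prop :=
  (∃ K, Iso42 D L K ∧ y ∉ K) ∨
  (∃ w w' z, One42 D L b w w' z ∧ y ≠ b ∧ y ≠ w ∧ y ≠ w' ∧ y ≠ z) ∨
  (∃ w w' z, One42 D L c w w' z ∧ y ≠ c ∧ y ≠ w ∧ y ≠ w' ∧ y ≠ z) ∨
  (y ≠ b ∧ y ≠ c ∧ ∃ s t, c ∈ D b ∧ s ∈ D c ∧ t ∈ D b ∧ t ∈ D s ∧ s ∉ L ∧ t ∉ L ∧ y ≠ s ∧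
    y ≠ t) ∨
  (y ≠ b ∧ y ≠ c ∧ ∃ u u', u ≠ u' ∧ u ∈ D b ∧ u' ∈ D b ∧ u ∈ D c ∧ u' ∈ D c ∧ a ≠ u ∧ a ≠ u' ∧
    y ≠ u ∧ y ≠ u')

theorem Cyc.swap (h : C10_42 D L a b c) {y : V} (hc : Cyc D L a b c y) : Cyc D L a c b y := by
  rcases hc with h1 | h1 | h1 | ⟨h1, h2, s, t, h3, h4, h5, h6, h7, h8, h9, h10⟩ |
    ⟨h1, h2, u, u', h3, h4, h5, h6, h7, h8, h9, h10, h11⟩
  · exact Or.inl h1
  · exact Or.inr (Or.inr (Or.inl h1))
  · exact Or.inr (Or.inl h1)
  · exact Or.inr (Or.inr (Or.inr (Or.inl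
      ⟨h2, h1, t, s, h.sym _ _ h3, h5, h4, h.sym _ _ h6, h8, h7, h10, h9⟩)))
  · exact Or.inr (Or.inr (Or.inr (Or.inr ⟨h2, h1, u, u', h3, h6, h7, h4, h5, h8, h9, h10, h11⟩)))

theorem cycb (h : C10_42 D L a b c) {w u' w' y : V} (hQ : Q4_42 D b w u' w')
    (ha : a ≠ w ∧ a ≠ u' ∧ a ≠ w') (hy : y ≠ b ∧ y ≠ w ∧ y ≠ u' ∧ y ≠ w') :
    Cyc D L a b c y := by
  obtain ⟨h1, h2, h3, h4, h5, h6⟩ := hQ
  obtain ⟨y1, y2, y3, y4⟩ := hy
  obtain ⟨a1, a2, a3⟩ := ha
  have wb : w ≠ b := h.ne h3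
  have wb' : w' ≠ b := h.ne h4
  by_cases c1 : c = w
  · subst c1
    refine Or.inr (Or.inr (Or.inr (Or.inl ⟨y1, y2, u', w', h3, h.sym _ _ h5, h4, h6, ?_, ?_, y3,
      y4⟩)))
    · rw [h.hL]
      rintro (e | e | e)
      exacts [a2 e.symm, h1 e.symm, h.ne h5 e.symm]
    · rw [h.hL]
      rintro (e | e | e)
      exacts [a3 e.symm, wb' e, h2 e.symm]
  by_cases c2 : c = w'
  · subst c2
    refine Or.inr (Or.inr (Or.inr (Or.inl ⟨y1, y4, u', w, h4, h.sym _ _ h6, h3, h5, ?_, ?_, y3,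
      y2⟩)))
    · rw [h.hL]
      rintro (e | e | e)
      exacts [a2 e.symm, h1 e.symm, h.ne h6 e.symm]
    · rw [h.hL]
      rintro (e | e | e)
      exacts [a1 e.symm, wb e, h2 e]
  by_cases c3 : c = u'
  · subst c3
    exact Or.inr (Or.inr (Or.inr (Or.inr ⟨y1, y3, w, w', h2, h3, h4, h5, h6, a1, a3, y2, y4⟩)))
  have wL : w ∉ L := by
    rw [h.hL]
    rintro (e | e | e)
    exacts [a1 e.symm, wb e, c1 e.symm]
  have wL' : w' ∉ L := by
    rw [h.hL]
    rintro (e | e | e)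
    exacts [a3 e.symm, wb' e, c2 e.symm]
  have zL : u' ∉ L := by
    rw [h.hL]
    rintro (e | e | e)
    exacts [a2 e.symm, h1 e.symm, c3 e.symm]
  exact Or.inr (Or.inl ⟨w, w', u', ⟨h2, h3, h4, h.sym _ _ h5, h.sym _ _ h6, wL, wL', zL,
    h.full wL (h.sym _ _ h3) (h.sym _ _ h5) h1, h.full wL' (h.sym _ _ h4) (h.sym _ _ h6) h1,
    h.full zL h5 h6 h2⟩, y1, y2, y4, y3⟩)

theorem rot (h : C10_42 D L a b c) {u w u' w' : V} (hQ : Q4_42 D u w u' w') :
    Q4_42 D w u' w' u := by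
  obtain ⟨h1, h2, h3, h4, h5, h6⟩ := hQ
  exact ⟨h2, h1.symm, h.sym _ _ h5, h.sym _ _ h3, h.sym _ _ h6, h.sym _ _ h4⟩

theorem cyc (h : C10_42 D L a b c) {u w u' w' y : V} (hQ : Q4_42 D u w u' w')
    (ha : a ≠ u ∧ a ≠ w ∧ a ≠ u' ∧ a ≠ w') (hy : y ≠ u ∧ y ≠ w ∧ y ≠ u' ∧ y ≠ w') :
    Cyc D L a b c y := by
  have key : ∀ {b c : V}, C10_42 D L a b c → (b = u ∨ b = w ∨ b = u' ∨ b = w') →
      Cyc D L a b c y := by
    intro b c h hb
    obtain ⟨a1, a2, a3, a4⟩ := ha
    obtain ⟨y1, y2, y3, y4⟩ := hy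
    rcases hb with rfl | rfl | rfl | rfl
    · exact h.cycb hQ ⟨a2, a3, a4⟩ ⟨y1, y2, y3, y4⟩
    · exact h.cycb (h.rot hQ) ⟨a3, a4, a1⟩ ⟨y2, y3, y4, y1⟩
    · exact h.cycb (h.rot (h.rot hQ)) ⟨a4, a1, a2⟩ ⟨y3, y4, y1, y2⟩
    · exact h.cycb (h.rot (h.rot (h.rot hQ))) ⟨a1, a2, a3⟩ ⟨y4, y1, y2, y3⟩
  by_cases hb : b = u ∨ b = w ∨ b = u' ∨ b = w'
  · exact key h hb
  by_cases hc : c = u ∨ c = w ∨ c = u' ∨ c = w'
  · exact (key h.p2 hc).swap h.p2
  · left
    simp only [not_or] at hb hc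
    obtain ⟨b1, b2, b3, b4⟩ := hb
    obtain ⟨c1, c2, c3, c4⟩ := hc
    obtain ⟨a1, a2, a3, a4⟩ := ha
    obtain ⟨y1, y2, y3, y4⟩ := hy
    have hn : ∀ v, a ≠ v → b ≠ v → c ≠ v → v ∉ L := by
      intro v e1 e2 e3
      rw [h.hL]
      rintro (e | e | e)
      exacts [e1 e.symm, e2 e.symm, e3 e.symm]
    refine ⟨{u, w, u', w'}, h.mkIso hQ (hn _ a1 b1 c1) (hn _ a2 b2 c2) (hn _ a3 b3 c3)
      (hn _ a4 b4 c4), ?_⟩
    rw [mem_insert, mem_insert, mem_insert, mem_singleton]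
    rintro (e | e | e | e)
    exacts [y1 e, y2 e, y3 e, y4 e]

/-- the pair `a y` is covered by a 4-cycle if `b` and `c` do not cover it -/
theorem need (h : C10_42 D L a b c) {y : V} (hy : a ≠ y) (hya : y ∉ D a)
    (hb : b ∈ D a ∨ b ∈ D y ∨ b = y) (hc : c ∈ D a ∨ c ∈ D y ∨ c = y) : Cyc D L a b c y := by
  rcases h.cov a y hy hya with ⟨v, h1, h2, h3, h4, h5⟩ | ⟨u, w, u', w', h1, h2, h3⟩
  · exfalso
    rcases (h.hL v).1 h1 with rfl | rfl | rfl
    · exact h2 rfl
    · tauto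
    · tauto
  · exact h.cyc h1 h2 h3

/-- at most three neighbours of `b` -/
theorem three (h : C10_42 D L a b c) {g s t u v : V} (hg : g ∈ L) (hs : s ∈ D g) (ht : t ∈ D g)
    (hu : u ∈ D g) (hv : v ∈ D g) (hn : [s, t, u, v].Nodup) : False := by
  have h1 := ll42 (S := D g) _ hn (by
    intro x hx
    simp only [List.mem_cons, List.not_mem_nil, or_false] at hx
    rcases hx with rfl | rfl | rfl | rfl
    exacts [hs, ht, hu, hv])
  simp only [List.length_cons, List.length_nil] at h1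
  have h2 := h.da
  have h3 := h.db
  have h4 := h.dc
  rcases (h.hL g).1 hg with rfl | rfl | rfl <;> omega

/-- at most two common neighbours -/
theorem com2 (h : C10_42 D L a b c) {g g' s t u : V} (hg : g ≠ g') (hs : s ∈ D g) (ht : t ∈ D g)
    (hu : u ∈ D g) (hs' : s ∈ D g') (ht' : t ∈ D g') (hu' : u ∈ D g') (h1 : s ≠ t) (h2 : s ≠ u)
    (h3 : t ≠ u) : False := by
  have h4 := ll42 (S := D g ∩ D g') [s, t, u] (by
    simp only [List.nodup_cons, List.mem_cons, List.not_mem_nil, or_false, not_or,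
      not_false_iff, List.nodup_nil, and_true]
    exact ⟨⟨h1, h2⟩, h3⟩) (by
    intro x hx
    simp only [List.mem_cons, List.not_mem_nil, or_false] at hx
    rw [mem_inter]
    rcases hx with rfl | rfl | rfl
    exacts [⟨hs, hs'⟩, ⟨ht, ht'⟩, ⟨hu, hu'⟩])
  have h5 := h.k23 g g' hg
  simp only [List.length_cons, List.length_nil] at h4
  omega

theorem bL (h : C10_42 D L a b c) : b ∈ L := (h.hL b).2 (Or.inr (Or.inl rfl))

theorem cL (h : C10_42 D L a b c) : c ∈ L := (h.hL c).2 (Or.inr (Or.inr rfl))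

/-! ### three edges between the low vertices -/

/-- the third neighbour -/
theorem third (h : C10_42 D L a b c) (hb : b ∈ D a) (hc : c ∈ D a) :
    ∃ a' ∈ D a, a' ∉ L ∧ ∀ v ∈ D a, v = b ∨ v = c ∨ v = a' := by
  have h1 : (((D a).erase b).erase c).card = 1 := by
    rw [card_erase_of_mem (mem_erase.2 ⟨h.bc.symm, hc⟩), card_erase_of_mem hb, h.da]
  obtain ⟨a', ha'⟩ := card_eq_one.1 h1
  have h2 : a' ∈ ((D a).erase b).erase c := ha'.symm ▸ mem_singleton_self a'
  rw [mem_erase, mem_erase] at h2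
  refine ⟨a', h2.2.2, ?_, ?_⟩
  · rw [h.hL]
    rintro (e | e | e)
    exacts [h.irr a (e ▸ h2.2.2), h2.2.1 e, h2.1 e]
  · intro v hv
    by_cases e1 : v = b
    · exact Or.inl e1
    by_cases e2 : v = c
    · exact Or.inr (Or.inl e2)
    right; right
    have h3 : v ∈ ((D a).erase b).erase c := mem_erase.2 ⟨e2, mem_erase.2 ⟨e1, hv⟩⟩
    rw [ha', mem_singleton] at h3
    exact h3

/-- the 4-cycle at `a`, three edges -/
theorem f3cyc (h : C10_42 D L a b c) (hab : b ∈ D a) (hac : c ∈ D a) (hbc : c ∈ D b) {y : V}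
    (hyL : y ∉ L) (hya : y ∉ D a) : (∃ K, Iso42 D L K ∧ y ∉ K) ∨
    ∃ s t, s ∈ D c ∧ t ∈ D b ∧ t ∈ D s ∧ s ∉ L ∧ t ∉ L ∧ y ≠ s ∧ y ≠ t := by
  have hay : a ≠ y := fun e => hyL (e ▸ h.aL)
  have one : ∀ {b c : V}, C10_42 D L a b c → b ∈ D a → c ∈ D b → ∀ {w w' z : V},
      One42 D L b w w' z → False := by
    intro b c h hab hbc w w' z ho
    refine h.three h.bL (h.sym _ _ hab) hbc ho.wg ho.wg' ?_
    simp only [List.nodup_cons, List.mem_cons, List.not_mem_nil, or_false, not_or,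
      not_false_iff, List.nodup_nil, and_true]
    exact ⟨⟨h.ac, fun e => ho.wL (e ▸ h.aL), fun e => ho.wL' (e ▸ h.aL)⟩,
      ⟨fun e => ho.wL (e ▸ h.cL), fun e => ho.wL' (e ▸ h.cL)⟩, ho.ww⟩
  rcases h.need hay hya (Or.inl hab) (Or.inl hac) with h1 | ⟨w, w', z, h1, -⟩ |
    ⟨w, w', z, h1, -⟩ | ⟨-, -, s, t, -, h2, h3, h4, h5, h6, h7, h8⟩ |
    ⟨-, -, u, u', h1, h2, h3, h4, h5, h6, h7, -⟩
  · exact Or.inl h1
  · exact (one h hab hbc h1).elim
  · exact (one h.p2 hac (h.sym _ _ hbc) h1).elim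
  · exact Or.inr ⟨s, t, h2, h3, h4, h5, h6, h7, h8⟩
  · exfalso
    refine h.three h.bL (h.sym _ _ hab) hbc h2 h3 ?_
    simp only [List.nodup_cons, List.mem_cons, List.not_mem_nil, or_false, not_or,
      not_false_iff, List.nodup_nil, and_true]
    exact ⟨⟨h.ac, h6, h7⟩, ⟨(h.ne h4).symm, (h.ne h5).symm⟩, h1⟩

theorem f3 (h : C10_42 D L a b c) (hab : b ∈ D a) (hac : c ∈ D a) (hbc : c ∈ D b) : False := by
  obtain ⟨a', ha, haL, ha'⟩ := h.third hab hac
  obtain ⟨b', hb, hbL, hb'⟩ := h.p1.third (h.sym _ _ hab) hbc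
  obtain ⟨c', hc, hcL, hc'⟩ := h.p2.p1.third (h.sym _ _ hac) (h.sym _ _ hbc)
  have uc : ∀ s ∈ D c, s ∉ L → s = c' := by
    intro s hs hsL
    rcases hc' s hs with e | e | e
    exacts [absurd (e ▸ h.aL) hsL, absurd (e ▸ h.bL) hsL, e]
  have ub : ∀ s ∈ D b, s ∉ L → s = b' := by
    intro s hs hsL
    rcases hb' s hs with e | e | e
    exacts [absurd (e ▸ h.aL) hsL, absurd (e ▸ h.cL) hsL, e]
  have ua : ∀ s ∈ D a, s ∉ L → s = a' := by
    intro s hs hsL
    rcases ha' s hs with e | e | e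
    exacts [absurd (e ▸ h.bL) hsL, absurd (e ▸ h.cL) hsL, e]
  have nL : ∀ {v w : V}, v ∉ L → w ∈ L → w ≠ v := fun hv hw e => hv (e ▸ hw)
  have three3 : ∀ v, v ∉ L → a ∈ D v → b ∈ D v → c ∈ D v → False := by
    intro v hv h1 h2 h3
    rcases h.full hv h1 h2 h.ab c h3 with e | e
    exacts [h.ac e.symm, h.bc e.symm]
  have hiso : ∃ K, Iso42 D L K := by
    by_contra hno
    have key : ∀ y, y ∉ L → y ∉ D a → y ≠ b' ∧ y ≠ c' := by
      intro y hy hya
      rcases h.f3cyc hab hac hbc hy hya with ⟨K, hK, -⟩ | ⟨s, t, h1, h2, h3, h4, h5, h6, h7⟩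
      · exact absurd ⟨K, hK⟩ hno
      · rw [uc s h1 h4] at h6
        rw [ub t h2 h5] at h7
        exact ⟨h7, h6⟩
    have h1 : b' ∈ D a := by
      by_contra h2
      exact (key b' hbL h2).1 rfl
    have h2 : c' ∈ D a := by
      by_contra h3
      exact (key c' hcL h3).2 rfl
    have h3 := ua b' h1 hbL
    have h4 := ua c' h2 hcL
    exact three3 b' hbL (h.sym _ _ h1) (h.sym _ _ hb) (h.sym _ _ (by rw [h3, ← h4]; exact hc))
  obtain ⟨K, hK⟩ := hiso
  obtain ⟨p, hp⟩ : K.Nonempty := card_pos.1 (by rw [hK.1]; norm_num)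
  have hpL := hK.2.1 p hp
  have np : ∀ g ∈ L, p ∉ D g := fun g hg h1 => h.iso_nb hK hg h1 hp
  have e1 : c' ∈ D b' := by
    rcases h.f3cyc hab hac hbc hpL (np a h.aL) with ⟨K', hK', h2⟩ |
      ⟨s, t, h1, h2, h3, h4, h5, -⟩
    · exact (h.iso2 hK hK' hp h2).elim
    · rw [uc s h1 h4, ub t h2 h5] at h3
      exact h.sym _ _ h3
  have e2 : c' ∈ D a' := by
    rcases h.p1.f3cyc (h.sym _ _ hab) hbc hac hpL (np b h.bL) with ⟨K', hK', h2⟩ |
      ⟨s, t, h1, h2, h3, h4, h5, -⟩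
    · exact (h.iso2 hK hK' hp h2).elim
    · rw [uc s h1 h4, ua t h2 h5] at h3
      exact h.sym _ _ h3
  have e3 : b' ∈ D a' := by
    rcases h.p2.p1.f3cyc (h.sym _ _ hac) (h.sym _ _ hbc) hab hpL (np c h.cL) with
      ⟨K', hK', h2⟩ | ⟨s, t, h1, h2, h3, h4, h5, -⟩
    · exact (h.iso2 hK hK' hp h2).elim
    · rw [ub s h1 h4, ua t h2 h5] at h3
      exact h.sym _ _ h3
  rcases h.full haL e2 e3 (h.ne e1) a (h.sym _ _ ha) with e | e
  exacts [nL hcL h.aL e, nL hbL h.aL e]

/-! ### two edges -/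

theorem f2 (h : C10_42 D L a b c) (hab : b ∈ D a) (hac : c ∈ D a) (hbc : c ∉ D b) : False := by
  obtain ⟨a', ha, haL, ha'⟩ := h.third hab hac
  have noiso : ∀ K, ¬ Iso42 D L K := by
    intro K hK
    obtain ⟨p, hp⟩ : K.Nonempty := card_pos.1 (by rw [hK.1]; norm_num)
    have hpL := hK.2.1 p hp
    have hap : a ≠ p := fun e => hpL (e ▸ h.aL)
    have one : ∀ {g w w' z : V}, g ∈ L → g ≠ a → One42 D L g w w' z → False := by
      intro g w w' z hg hga ho
      obtain ⟨h1, h2, h3⟩ := h.iso_one hK hg ho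
      have e1 : w ≠ z := (h.ne ho.zw).symm
      have e2 : w' ≠ z := (h.ne ho.zw').symm
      have a1 : a' ≠ w := by
        rintro rfl
        rcases ho.fw a (h.sym _ _ ha) with e | e
        exacts [hga e.symm, ho.zL (e ▸ h.aL)]
      have a2 : a' ≠ w' := by
        rintro rfl
        rcases ho.fw' a (h.sym _ _ ha) with e | e
        exacts [hga e.symm, ho.zL (e ▸ h.aL)]
      have a3 : a' ≠ z := by
        rintro rfl
        rcases ho.fz a (h.sym _ _ ha) with e | e
        exacts [ho.wL (e ▸ h.aL), ho.wL' (e ▸ h.aL)]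
      have a4 : a' ∉ K := h.iso_nb hK h.aL ha
      have h4 : (({a', w, w', z} : Finset V)).card = 4 := by
        rw [card_insert_of_notMem, card_insert_of_notMem, card_pair e2]
        · rw [mem_insert, mem_singleton]
          exact fun e => e.elim ho.ww e1
        · rw [mem_insert, mem_insert, mem_singleton]
          exact fun e => e.elim a1 (fun e => e.elim a2 a3)
      have h5 : Disjoint K ({a', w, w', z} : Finset V) := by
        rw [disjoint_right]
        intro v hv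
        rw [mem_insert, mem_insert, mem_insert, mem_singleton] at hv
        rcases hv with rfl | rfl | rfl | rfl
        exacts [a4, h1, h2, h3]
      have h6 := h.le7 (S := K ∪ {a', w, w', z}) (by
        intro v hv
        rcases mem_union.1 hv with hv | hv
        · exact hK.2.1 v hv
        · rw [mem_insert, mem_insert, mem_insert, mem_singleton] at hv
          rcases hv with rfl | rfl | rfl | rfl
          exacts [haL, ho.wL, ho.wL', ho.zL])
      rw [card_union_of_disjoint h5, hK.1, h4] at h6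
      omega
    rcases h.need hap (h.iso_nb hK h.aL · hp) (Or.inl hab) (Or.inl hac) with
      ⟨K', hK', h1⟩ | ⟨w, w', z, h1, -⟩ |
      ⟨w, w', z, h1, -⟩ | ⟨-, -, s, t, h2, -⟩ | ⟨-, -, u, u', h1, h2, h3, h4, h5, h6, h7, -⟩
    · exact h.iso2 hK hK' hp h1
    · exact one h.bL h.ab.symm h1
    · exact one h.cL h.ac.symm h1
    · exact hbc h2
    · exact h.com2 h.bc (h.sym _ _ hab) h2 h3 (h.sym _ _ hac) h4 h5 h6 h7 h1
  -- the pair `b c`
  rcases h.p1.need h.bc hbc (Or.inl (h.sym _ _ hab)) (Or.inr (Or.inr rfl)) with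
    ⟨K', hK', h1⟩ | ⟨w, w', z, h1, -⟩ |
    ⟨w, w', z, h1, h2, -⟩ | ⟨-, h2, -⟩ | ⟨-, h2, -⟩
  · exact noiso _ hK'
  · refine h.three h.aL hab hac h1.wg h1.wg' ?_
    simp only [List.nodup_cons, List.mem_cons, List.not_mem_nil, or_false, not_or,
      not_false_iff, List.nodup_nil, and_true]
    exact ⟨⟨h.bc, fun e => h1.wL (e ▸ h.bL), fun e => h1.wL' (e ▸ h.bL)⟩,
      ⟨fun e => h1.wL (e ▸ h.cL), fun e => h1.wL' (e ▸ h.cL)⟩, h1.ww⟩
  · exact h2 rfl
  · exact h2 rfl
  · exact h2 rfl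

/-! ### one edge -/

theorem f1 (h : C10_42 D L a b c) (hab : b ∈ D a) (hac : c ∉ D a) (hbc : c ∉ D b) : False := by
  have cX : ∀ v ∈ D c, v ∉ L := by
    intro v hv
    rw [h.hL]
    rintro (e | e | e)
    · exact hac (h.sym _ _ (e ▸ hv))
    · exact hbc (h.sym _ _ (e ▸ hv))
    · exact h.irr c (e ▸ hv)
  have noiso : ∀ K, ¬ Iso42 D L K := by
    intro K hK
    have aX : ∀ v ∈ (D a).erase b, v ∉ L := by
      intro v hv
      rw [mem_erase] at hv
      rw [h.hL]
      rintro (e | e | e)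
      · exact h.irr a (e ▸ hv.2)
      · exact hv.1 e
      · exact hac (e ▸ hv.2)
    have bX : ∀ v ∈ (D b).erase a, v ∉ L := by
      intro v hv
      rw [mem_erase] at hv
      rw [h.hL]
      rintro (e | e | e)
      · exact hv.1 e
      · exact h.irr b (e ▸ hv.2)
      · exact hbc (e ▸ hv.2)
    have d1 : Disjoint K (D c) := by
      rw [disjoint_right]
      exact fun v hv => h.iso_nb hK h.cL hv
    have h1 := h.le7 (S := K ∪ D c) (by
      intro v hv
      rcases mem_union.1 hv with hv | hv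
      exacts [hK.2.1 v hv, cX v hv])
    -- every vertex outside of `K` and `L` is in `D c`
    have all : ∀ v, v ∉ L → v ∉ K → v ∈ D c := by
      intro v hvL hvK
      by_contra hvc
      have h2 := h.le7 (S := insert v (K ∪ D c)) (by
        intro w hw
        rcases mem_insert.1 hw with rfl | hw
        · exact hvL
        · rcases mem_union.1 hw with hw | hw
          exacts [hK.2.1 w hw, cX w hw])
      rw [card_insert_of_notMem (by rw [mem_union]; exact fun e => e.elim hvK hvc),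
        card_union_of_disjoint d1, hK.1, h.dc] at h2
      omega
    have d2 : Disjoint ((D a).erase b) ((D b).erase a) := by
      rw [disjoint_left]
      intro v hv hv'
      have h2 := aX v hv
      rw [mem_erase] at hv hv'
      have h3 := all v h2 (h.iso_nb hK h.aL hv.2)
      rcases h.full h2 (h.sym _ _ hv.2) (h.sym _ _ hv'.2) h.ab c (h.sym _ _ h3) with e | e
      exacts [h.ac e.symm, h.bc e.symm]
    have h2 : (D a).erase b ∪ (D b).erase a ⊆ D c := by
      intro v hv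
      rcases mem_union.1 hv with hv | hv
      · exact all v (aX v hv) (h.iso_nb hK h.aL (mem_erase.1 hv).2)
      · exact all v (bX v hv) (h.iso_nb hK h.bL (mem_erase.1 hv).2)
    have h3 := card_le_card h2
    rw [card_union_of_disjoint d2, card_erase_of_mem hab, card_erase_of_mem (h.sym _ _ hab), h.da,
      h.db, h.dc] at h3
    omega
  obtain ⟨w, w', z, ho⟩ : ∃ w w' z, One42 D L b w w' z := by
    rcases h.need h.ac hac (Or.inl hab) (Or.inr (Or.inr rfl)) with
      ⟨K', hK', h1⟩ | ⟨w, w', z, h1, -⟩ |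
      ⟨w, w', z, h1, h2, -⟩ | ⟨-, h2, -⟩ | ⟨-, h2, -⟩
    · exact (noiso _ hK').elim
    · exact ⟨w, w', z, h1⟩
    · exact (h2 rfl).elim
    · exact (h2 rfl).elim
    · exact (h2 rfl).elim
  obtain ⟨v, v', y, ho'⟩ : ∃ w w' z, One42 D L a w w' z := by
    rcases h.p1.need h.bc hbc (Or.inl (h.sym _ _ hab)) (Or.inr (Or.inr rfl)) with
      ⟨K', hK', h1⟩ | ⟨w, w', z, h1, -⟩ |
      ⟨w, w', z, h1, h2, -⟩ | ⟨-, h2, -⟩ | ⟨-, h2, -⟩
    · exact (noiso _ hK').elim
    · exact ⟨w, w', z, h1⟩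
    · exact (h2 rfl).elim
    · exact (h2 rfl).elim
    · exact (h2 rfl).elim
  -- disjointness
  have notw : ∀ {g g' w w' z v : V}, g ∈ L → g' ∈ L → g ≠ g' → One42 D L g w w' z → v ∈ D g' →
      v ≠ w ∧ v ≠ w' ∧ v ≠ z := by
    intro g g' w w' z v hg hg' hgg ho hv
    have hv' := h.sym _ _ hv
    refine ⟨?_, ?_, ?_⟩
    · rintro rfl
      rcases ho.fw g' hv' with e | e
      exacts [hgg e.symm, ho.zL (e ▸ hg')]
    · rintro rfl
      rcases ho.fw' g' hv' with e | e
      exacts [hgg e.symm, ho.zL (e ▸ hg')]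
    · rintro rfl
      rcases ho.fz g' hv' with e | e
      exacts [ho.wL (e ▸ hg'), ho.wL' (e ▸ hg')]
  have n1 := notw h.bL h.aL h.ab.symm ho ho'.wg
  have n2 := notw h.bL h.aL h.ab.symm ho ho'.wg'
  have n3 := notw h.aL h.bL h.ab ho' ho.wg
  have n4 := notw h.aL h.bL h.ab ho' ho.wg'
  have nz : y ≠ z := by
    rintro rfl
    rcases ho.fz v (h.sym _ _ ho'.zw) with e | e
    exacts [n1.1 e, n1.2.1 e]
  have hS : ({v, v', y, w, w', z} : Finset V).card = 6 := by
    have h1 : ({v, v', y, w, w', z} : Finset V) = [v, v', y, w, w', z].toFinset := by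
      ext t
      simp
    rw [h1, List.toFinset_card_of_nodup]
    · rfl
    · simp only [List.nodup_cons, List.mem_cons, List.not_mem_nil, or_false, not_or,
        not_false_iff, List.nodup_nil, and_true]
      exact ⟨⟨ho'.ww, (h.ne ho'.zw).symm, n1.1, n1.2.1, n1.2.2⟩, ⟨(h.ne ho'.zw').symm, n2.1,
        n2.2.1, n2.2.2⟩, ⟨n3.2.2.symm, n4.2.2.symm, nz⟩, ⟨ho.ww, (h.ne ho.zw).symm⟩,
        (h.ne ho.zw').symm⟩
  have d1 : Disjoint (D c) ({v, v', y, w, w', z} : Finset V) := by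
    rw [disjoint_left]
    intro t ht ht'
    have k1 := notw h.aL h.cL h.ac ho' ht
    have k2 := notw h.bL h.cL h.bc ho ht
    simp only [mem_insert, mem_singleton] at ht'
    rcases ht' with e | e | e | e | e | e
    exacts [k1.1 e, k1.2.1 e, k1.2.2 e, k2.1 e, k2.2.1 e, k2.2.2 e]
  have h1 := h.le7 (S := D c ∪ {v, v', y, w, w', z}) (by
    intro t ht
    rcases mem_union.1 ht with ht | ht
    · exact cX t ht
    · simp only [mem_insert, mem_singleton] at ht
      rcases ht with rfl | rfl | rfl | rfl | rfl | rfl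
      exacts [ho'.wL, ho'.wL', ho'.zL, ho.wL, ho.wL', ho.zL])
  rw [card_union_of_disjoint d1, hS, h.dc] at h1
  omega

/-! ### no edge -/

/-- a vertex `y` of `D b ∩ D c` and a 4-cycle with one low vertex `b` -/
theorem f0b (h : C10_42 D L a b c) (hab : b ∉ D a) (hac : c ∉ D a) (hbc : c ∉ D b)
    (noiso : ∀ K, ¬ Iso42 D L K) {y : V} (hyb : y ∈ D b) (hyc : y ∈ D c) {w w' z : V}
    (ho : One42 D L b w w' z) (yw : y ≠ w) (yw' : y ≠ w') (yz : y ≠ z) : False := by
  have out : ∀ {g g' : V}, g ∈ L → g' ∈ L → g ∉ D g' := by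
    intro g g' hg hg'
    rcases (h.hL g).1 hg with rfl | rfl | rfl <;> rcases (h.hL g').1 hg' with rfl | rfl | rfl
    exacts [h.irr _, fun e => hab (h.sym _ _ e), fun e => hac (h.sym _ _ e), hab, h.irr _,
      fun e => hbc (h.sym _ _ e), hac, hbc, h.irr _]
  have inX : ∀ {g v : V}, g ∈ L → v ∈ D g → v ∉ L := fun hg hv hvL => out hvL hg hv
  have notw : ∀ {g' v : V}, g' ∈ L → b ≠ g' → v ∈ D g' → v ≠ w ∧ v ≠ w' ∧ v ≠ z := by
    intro g' v hg' hgg hv
    have hv' := h.sym _ _ hv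
    refine ⟨?_, ?_, ?_⟩
    · rintro rfl
      rcases ho.fw g' hv' with e | e
      exacts [hgg e.symm, ho.zL (e ▸ hg')]
    · rintro rfl
      rcases ho.fw' g' hv' with e | e
      exacts [hgg e.symm, ho.zL (e ▸ hg')]
    · rintro rfl
      rcases ho.fz g' hv' with e | e
      exacts [ho.wL (e ▸ hg'), ho.wL' (e ▸ hg')]
  have hyX := inX h.bL hyb
  have hya : y ∉ D a := by
    intro e
    rcases h.full hyX (h.sym _ _ hyb) (h.sym _ _ hyc) h.bc a (h.sym _ _ e) with e | e
    exacts [h.ab e, h.ac e]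
  -- `D c` has only `y` outside of `D a`
  have hsub : ∀ v ∈ D c, v ≠ y → v ∈ D a := by
    intro v hv hvy
    by_contra hva
    have k1 := notw h.cL h.bc hv
    have hS : ({v, y, w, w', z} : Finset V).card = 5 := by
      have h1 : ({v, y, w, w', z} : Finset V) = [v, y, w, w', z].toFinset := by
        ext t
        simp
      rw [h1, List.toFinset_card_of_nodup]
      · rfl
      · simp only [List.nodup_cons, List.mem_cons, List.not_mem_nil, or_false, not_or,
          not_false_iff, List.nodup_nil, and_true]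
        exact ⟨⟨hvy, k1⟩, ⟨yw, yw', yz⟩, ⟨ho.ww, (h.ne ho.zw).symm⟩, (h.ne ho.zw').symm⟩
    have d1 : Disjoint (D a) ({v, y, w, w', z} : Finset V) := by
      rw [disjoint_left]
      intro t ht ht'
      have k2 := notw h.aL h.ab.symm ht
      simp only [mem_insert, mem_singleton] at ht'
      rcases ht' with e | e | e | e | e
      exacts [hva (e ▸ ht), hya (e ▸ ht), k2.1 e, k2.2.1 e, k2.2.2 e]
    have h1 := h.le7 (S := D a ∪ {v, y, w, w', z}) (by
      intro t ht
      rcases mem_union.1 ht with ht | ht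
      · exact inX h.aL ht
      · simp only [mem_insert, mem_singleton] at ht
        rcases ht with rfl | rfl | rfl | rfl | rfl
        exacts [inX h.cL hv, hyX, ho.wL, ho.wL', ho.zL])
    rw [card_union_of_disjoint d1, hS, h.da] at h1
    omega
  have h2 : ((D c).erase y).card = 2 := by rw [card_erase_of_mem hyc, h.dc]
  obtain ⟨y1, y2, h12, hY⟩ := card_eq_two.1 h2
  have m1 : y1 ∈ (D c).erase y := hY.symm ▸ mem_insert_self _ _
  have m2 : y2 ∈ (D c).erase y := hY.symm ▸ mem_insert_of_mem (mem_singleton_self _)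
  rw [mem_erase] at m1 m2
  have a1 := hsub y1 m1.2 m1.1
  have a2 := hsub y2 m2.2 m2.1
  have y1L := inX h.cL m1.2
  have y2L := inX h.cL m2.2
  have f1 := h.full y1L (h.sym _ _ a1) (h.sym _ _ m1.2) h.ac
  have f2 := h.full y2L (h.sym _ _ a2) (h.sym _ _ m2.2) h.ac
  have by1 : b ≠ y1 := fun e => y1L (e ▸ h.bL)
  have hn : y1 ∉ D b := by
    intro e
    rcases f1 b (h.sym _ _ e) with e | e
    exacts [h.ab e.symm, h.bc e]
  -- a 4-cycle with one low vertex `g` (`g = a` or `g = c`) that avoids `y1`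
  have one : ∀ {g : V}, (g = a ∨ g = c) → ∀ {v v' u : V}, One42 D L g v v' u → y1 ≠ v → y1 ≠ v' →
      False := by
    intro g hg v v' u h3 e1 e2
    have gL : g ∈ L := by
      rcases hg with rfl | rfl
      exacts [h.aL, h.cL]
    have h4 : y1 ∈ D g := by
      rcases hg with rfl | rfl
      exacts [a1, m1.2]
    have h5 : y2 ∈ D g := by
      rcases hg with rfl | rfl
      exacts [a2, m2.2]
    have hca : ∃ g' ∈ L, g' ≠ g ∧ g' ∈ D y2 := by
      rcases hg with rfl | rfl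
      · exact ⟨c, h.cL, h.ac.symm, h.sym _ _ m2.2⟩
      · exact ⟨a, h.aL, h.ac, h.sym _ _ a2⟩
    obtain ⟨g', g1, g2, g3⟩ := hca
    have e3 : y2 ≠ v := by
      rintro rfl
      rcases h3.fw g' g3 with e | e
      exacts [g2 e, h3.zL (e ▸ g1)]
    have e4 : y2 ≠ v' := by
      rintro rfl
      rcases h3.fw' g' g3 with e | e
      exacts [g2 e, h3.zL (e ▸ g1)]
    refine h.three gL h4 h5 h3.wg h3.wg' ?_
    simp only [List.nodup_cons, List.mem_cons, List.not_mem_nil, or_false, not_or,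
      not_false_iff, List.nodup_nil, and_true]
    exact ⟨⟨h12, e1, e2⟩, ⟨e3, e4⟩, h3.ww⟩
  rcases h.p1.need by1 hn (Or.inr (Or.inl (h.sym _ _ a1))) (Or.inr (Or.inl (h.sym _ _ m1.2))) with
    ⟨K', hK', -⟩ | ⟨v, v', u, h3, -, e1, e2, -⟩ |
    ⟨v, v', u, h3, -, e1, e2, -⟩ | ⟨-, -, s, t, h3, -⟩ |
    ⟨-, -, u, u', h3, h4, h5, h6, h7, -, -, h8, h9⟩
  · exact noiso _ hK'
  · exact one (Or.inl rfl) h3 e1 e2
  · exact one (Or.inr rfl) h3 e1 e2
  · exact hac h3
  · exact h.com2 h.ac a1 h4 h5 m1.2 h6 h7 h8 h9 h3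

theorem f0 (h : C10_42 D L a b c) (hab : b ∉ D a) (hac : c ∉ D a) (hbc : c ∉ D b) {y : V}
    (hyb : y ∈ D b) (hyc : y ∈ D c) : False := by
  have out : ∀ {g g' : V}, g ∈ L → g' ∈ L → g ∉ D g' := by
    intro g g' hg hg'
    rcases (h.hL g).1 hg with rfl | rfl | rfl <;> rcases (h.hL g').1 hg' with rfl | rfl | rfl
    exacts [h.irr _, fun e => hab (h.sym _ _ e), fun e => hac (h.sym _ _ e), hab, h.irr _,
      fun e => hbc (h.sym _ _ e), hac, hbc, h.irr _]
  have inX : ∀ {g v : V}, g ∈ L → v ∈ D g → v ∉ L := fun hg hv hvL => out hvL hg hv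
  have hyX := inX h.bL hyb
  have hya : y ∉ D a := by
    intro e
    rcases h.full hyX (h.sym _ _ hyb) (h.sym _ _ hyc) h.bc a (h.sym _ _ e) with e | e
    exacts [h.ab e, h.ac e]
  have hay : a ≠ y := fun e => hyX (e ▸ h.aL)
  have noiso : ∀ K, ¬ Iso42 D L K := by
    intro K hK
    -- `D a` and `y` are outside of `K`
    have h1 : Disjoint K (insert y (D a)) := by
      rw [disjoint_right]
      intro v hv
      rcases mem_insert.1 hv with rfl | hv
      exacts [h.iso_nb hK h.bL hyb, h.iso_nb hK h.aL hv]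
    have h2 := h.le7 (S := K ∪ insert y (D a)) (by
      intro v hv
      rcases mem_union.1 hv with hv | hv
      · exact hK.2.1 v hv
      · rcases mem_insert.1 hv with rfl | hv
        exacts [hyX, inX h.aL hv])
    rw [card_union_of_disjoint h1, card_insert_of_notMem hya, hK.1, h.da] at h2
    omega
  rcases h.need hay hya (Or.inr (Or.inl (h.sym _ _ hyb))) (Or.inr (Or.inl (h.sym _ _ hyc))) with
    ⟨K', hK', -⟩ | ⟨v, v', u, h3, -, e1, e2, e3⟩ |
    ⟨v, v', u, h3, -, e1, e2, e3⟩ | ⟨-, -, s, t, h3, -⟩ |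
    ⟨-, -, u, u', h3, h4, h5, h6, h7, -, -, h8, h9⟩
  · exact noiso _ hK'
  · exact h.f0b hab hac hbc noiso hyb hyc h3 e1 e2 e3
  · exact h.p2.f0b hac hab (fun e => hbc (h.sym _ _ e)) noiso hyc hyb h3 e1 e2 e3
  · exact hbc h3
  · exact h.com2 h.bc hyb h4 h5 hyc h6 h7 h8 h9 h3

/-- impossible -/
theorem false (h : C10_42 D L a b c) : False := by
  have s := h.sym
  by_cases h1 : b ∈ D a
  · by_cases h2 : c ∈ D a
    · by_cases h3 : c ∈ D b
      · exact h.f3 h1 h2 h3
      · exact h.f2 h1 h2 h3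
    · by_cases h3 : c ∈ D b
      · exact h.p1.f2 (s _ _ h1) h3 h2
      · exact h.f1 h1 h2 h3
  · by_cases h2 : c ∈ D a
    · by_cases h3 : c ∈ D b
      · exact h.p2.p1.f2 (s _ _ h2) (s _ _ h3) h1
      · exact h.p2.f1 h2 h1 (fun e => h3 (s _ _ e))
    · by_cases h3 : c ∈ D b
      · exact h.p1.p2.f1 h3 (fun e => h1 (s _ _ e)) (fun e => h2 (s _ _ e))
      · -- no edge: a common neighbour
        have out : ∀ {g g' : V}, g ∈ L → g' ∈ L → g ∉ D g' := by
          intro g g' hg hg'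
          rcases (h.hL g).1 hg with rfl | rfl | rfl <;>
            rcases (h.hL g').1 hg' with rfl | rfl | rfl
          exacts [h.irr _, fun e => h1 (s _ _ e), fun e => h2 (s _ _ e), h1, h.irr _,
            fun e => h3 (s _ _ e), h2, h3, h.irr _]
        have inX : ∀ {g v : V}, g ∈ L → v ∈ D g → v ∉ L := fun hg hv hvL => out hvL hg hv
        by_cases d1 : Disjoint (D b) (D c)
        · by_cases d2 : Disjoint (D a) (D c)
          · by_cases d3 : Disjoint (D a) (D b)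
            · have h4 := h.le7 (S := (D a ∪ D b) ∪ D c) (by
                intro v hv
                rcases mem_union.1 hv with hv | hv
                · rcases mem_union.1 hv with hv | hv
                  exacts [inX h.aL hv, inX h.bL hv]
                · exact inX h.cL hv)
              rw [card_union_of_disjoint (disjoint_union_left.2 ⟨d2, d1⟩),
                card_union_of_disjoint d3, h.da, h.db, h.dc] at h4
              omega
            · rw [not_disjoint_iff] at d3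
              obtain ⟨y, y1, y2⟩ := d3
              exact h.p2.p1.f0 (fun e => h2 (s _ _ e)) (fun e => h3 (s _ _ e)) h1 y1 y2
          · rw [not_disjoint_iff] at d2
            obtain ⟨y, y1, y2⟩ := d2
            exact h.p1.f0 (fun e => h1 (s _ _ e)) h3 h2 y1 y2
        · rw [not_disjoint_iff] at d1
          obtain ⟨y, y1, y2⟩ := d1
          exact h.f0 h1 h2 h3 y1 y2

end C10_42

/-- ten vertices: not exactly three low vertices -/
theorem s12n10_42 (G : CG V) (hc : G.Crit) (hn : Fintype.card V = 10) : G.l univ ≠ 3 := by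
  classical
  intro hl
  set L : Finset V := univ.filter fun v => G.Low v with hLd
  have hL3 : L.card = 3 := hl
  obtain ⟨a, b, c, hab, hac, hbc, hLe⟩ := card_eq_three.1 hL3
  set D : V → Finset V := fun v => (G.cl v)ᶜ with hD
  have memD : ∀ u v, v ∈ D u ↔ v ≠ u ∧ v ∉ G.nb u := by
    intro u v
    rw [hD]
    simp only [mem_compl]
    rw [cl, mem_insert, not_or]
  have memL : ∀ v, v ∈ L ↔ G.Low v := by
    intro v
    rw [hLd, mem_filter]
    simp
  have cardD : ∀ v, (D v).card + (G.nb v).card = 9 := by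
    intro v
    have h1 : (D v).card = Fintype.card V - (G.cl v).card := card_compl _
    have h2 : (G.cl v).card = (G.nb v).card + 1 := card_insert_of_notMem (G.irr v)
    have h3 := card_le_univ (G.cl v)
    rw [hn] at h1 h3
    omega
  have low3 : ∀ v, v ∈ L → (D v).card = 3 := by
    intro v hv
    have h1 := cardD v
    have h2 : (G.nb v).card = 6 := (memL v).1 hv
    omega
  have hLm : ∀ v, v ∈ L ↔ v = a ∨ v = b ∨ v = c := by
    intro v
    rw [hLe]
    simp
  refine C10_42.false (D := D) (L := L) (a := a) (b := b) (c := c)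
    { sym := ?_, irr := ?_, hL := hLm, ab := hab, ac := hac, bc := hbc,
      da := low3 a ((hLm a).2 (by tauto)), db := low3 b ((hLm b).2 (by tauto)),
      dc := low3 c ((hLm c).2 (by tauto)), two := ?_, k23 := ?_, n10 := hn, cov := ?_ }
  · intro u v h
    rw [memD] at h ⊢
    exact ⟨h.1.symm, fun e => h.2 (G.sym _ _ e)⟩
  · intro v h
    rw [memD] at h
    exact h.1 rfl
  · intro v hv
    have h1 := cardD v
    have h2 := G.deg v
    have h3 : (G.nb v).card ≠ 6 := fun e => hv ((memL v).2 e)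
    omega
  · intro u v huv
    by_contra h1
    have h2 : D u ∩ D v ⊆ G.Co {u, v} := by
      intro t ht
      rw [mem_inter, memD, memD] at ht
      rw [mem_Co76]
      refine ⟨?_, fun h3 => ?_⟩
      · rw [mem_insert, mem_singleton]
        exact fun e => e.elim ht.1.1 ht.2.1
      · obtain ⟨-, w, hw, htw⟩ := mem_N76.1 h3
        rw [mem_insert, mem_singleton] at hw
        rcases hw with rfl | rfl
        exacts [ht.1.2 htw, ht.2.2 htw]
    have h3 := card_le_card h2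
    have h4 := card_Co86 G {u, v}
    have h5 := stN6_37 G {u, v} ⟨u, by simp⟩ (card_pos.1 (by omega))
    rw [card_pair huv] at h4
    omega
  · intro x y hxy hy
    have hy' : y ∈ G.nb x := by
      by_contra h1
      exact hy ((memD x y).2 ⟨hxy.symm, h1⟩)
    obtain ⟨E, hE, hx, hyE⟩ := hc x y hy'
    -- a fragment of one vertex
    have one : ∀ E : Finset V, G.Frag E → E.card = 1 → x ∈ G.N E → y ∈ G.N E →
        ∃ v ∈ L, v ≠ x ∧ v ≠ y ∧ v ∉ D x ∧ v ∉ D y := by
      intro E hE h1 hx hy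
      obtain ⟨v, hv⟩ := card_eq_one.1 h1
      have h2 : G.N E = G.nb v := by
        ext t
        rw [mem_N76, hv]
        constructor
        · rintro ⟨h3, w, hw, ht⟩
          rw [mem_singleton] at hw
          exact hw ▸ ht
        · intro ht
          refine ⟨fun h3 => ?_, v, mem_singleton_self v, ht⟩
          rw [mem_singleton] at h3
          exact G.irr v (h3 ▸ ht)
      have h3 : G.Low v := by
        have := hE.2.1
        rw [h2] at this
        exact this
      rw [h2] at hx hy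
      refine ⟨v, (memL v).2 h3, ?_, ?_, ?_, ?_⟩
      · rintro rfl
        exact G.irr _ hx
      · rintro rfl
        exact G.irr _ hy
      · rw [memD]
        exact fun h4 => h4.2 (G.sym _ _ hx)
      · rw [memD]
        exact fun h4 => h4.2 (G.sym _ _ hy)
    have h1 := card_Co86 G E
    rw [hE.2.1, hn] at h1
    have h2 : 1 ≤ E.card := card_pos.2 hE.1
    have h3 : 1 ≤ (G.Co E).card := card_pos.2 hE.2.2
    have h4 : E.card = 1 ∨ E.card = 2 ∨ E.card = 3 := by omega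
    rcases h4 with h4 | h4 | h4
    · exact Or.inl (one E hE h4 hx hyE)
    · right
      obtain ⟨u, u', huu, hEu⟩ := card_eq_two.1 h4
      obtain ⟨w, w', hww, hCw⟩ := card_eq_two.1 (show (G.Co E).card = 2 by omega)
      have key : ∀ s ∈ E, ∀ t ∈ G.Co E, t ∈ D s := by
        intro s hs t ht
        rw [mem_Co76] at ht
        rw [memD]
        refine ⟨fun e => ht.1 (e ▸ hs), fun e => ht.2 (mem_N76.2 ⟨ht.1, s, hs, e⟩)⟩
      have mu : u ∈ E := by rw [hEu]; simp
      have mu' : u' ∈ E := by rw [hEu]; simp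
      have mw : w ∈ G.Co E := by rw [hCw]; simp
      have mw' : w' ∈ G.Co E := by rw [hCw]; simp
      have av : ∀ t ∈ G.N E, t ≠ u ∧ t ≠ w ∧ t ≠ u' ∧ t ≠ w' := by
        intro t ht
        have h5 := (mem_N76.1 ht).1
        refine ⟨fun e => h5 (e ▸ mu), fun e => ?_, fun e => h5 (e ▸ mu'), fun e => ?_⟩
        · exact (mem_Co76.1 (e ▸ mw : t ∈ G.Co E)).2 ht
        · exact (mem_Co76.1 (e ▸ mw' : t ∈ G.Co E)).2 ht
      exact ⟨u, w, u', w', ⟨huu, hww, key u mu w mw, key u mu w' mw', key u' mu' w mw,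
        key u' mu' w' mw'⟩, av x hx, av y hyE⟩
    · left
      obtain ⟨h5, h6, -⟩ := stCo_37 G E hE
      exact one (G.Co E) h5 (by omega) (by rw [h6]; exact hx) (by rw [h6]; exact hyE)

end CG

end Pool.Agent.Lib.MP_e95c01_co.N
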