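import Pool.Agent.Lib.MP_e95c01_co.X.S12a_33

/-!
# Eleven vertices, three low vertices, no big fragment

A pair of twins that sees a hub sees all low vertices.
-/

set_option autoImplicit false

namespace Pool.Agent.Lib.MP_e95c01_co.N

open Finset

variable {V : Type} [Fintype V] [DecidableEq V]

namespace CG

variable {G : CG V}

omit [Fintype V] in
theorem ll75 {S : Finset V} (M : List V) (hM : M.Nodup) (h : ∀ x ∈ M, x ∈ S) :
    M.length ≤ S.card := by
  rw [← List.toFinset_card_of_nodup hM]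
  exact card_le_card fun x hx => h x (List.mem_toFinset.1 hx)

/-- non-neighbours -/
theorem nn75 (M : List V) (hM : M.Nodup) {z : V} (h : ∀ x ∈ M, x ∉ G.nb z) :
    (G.nb z).card + M.length ≤ Fintype.card V := by
  rw [← List.toFinset_card_of_nodup hM, ← card_union_of_disjoint]
  · exact card_le_univ _
  · rw [disjoint_right]
    intro x hx
    exact h x (List.mem_toFinset.1 hx)

theorem tw_nl75 {v : V} (hv : G.IsTw v) : ¬ G.Low v := q_not_low76 (qs16 G) hv

theorem low_ne75 {x v : V} (hx : G.Low x) (hv : G.IsTw v) : x ≠ v := by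
  rintro rfl
  exact tw_nl75 hv hx

/-- the pair `q p` sees `a`, `b` and not `c` -/
structure E11_75 (G : CG V) (q p a b c : V) : Prop where
  sm : G.Sm33
  n : Fintype.card V = 11
  t : G.Tw q p
  la : G.Low a
  lb : G.Low b
  lc : G.Low c
  ab : a ≠ b
  all : ∀ x, G.Low x → x = a ∨ x = b ∨ x = c
  qa : a ∈ G.nb q
  qb : b ∈ G.nb q
  qc : c ∉ G.nb q

namespace E11_75

variable {q p a b c : V}

theorem swap (h : E11_75 G q p a b c) : E11_75 G q p b a c :=
  { sm := h.sm, n := h.n, t := h.t, la := h.lb, lb := h.la, lc := h.lc, ab := h.ab.symm,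
    all := fun x hx => by rcases h.all x hx with h1 | h1 | h1 <;> tauto,
    qa := h.qb, qb := h.qa, qc := h.qc }

theorem t' (h : E11_75 G q p a b c) : G.Tw p q := (stTwHL_5 G).symm _ _ h.t

theorem pn (h : E11_75 G q p a b c) {z : V} (hz : z ∉ G.nb q) (hzq : z ≠ q) : z ∉ G.nb p :=
  fun h1 => hz (Tw_nb5 h.t' h1 hzq)

theorem pp (h : E11_75 G q p a b c) {z : V} (hz : z ∈ G.nb q) (hzp : z ≠ p) : z ∈ G.nb p :=
  Tw_nb5 h.t hz hzp

theorem ap (h : E11_75 G q p a b c) : a ≠ p := low_ne75 h.la ⟨q, h.t'⟩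

theorem aq (h : E11_75 G q p a b c) : a ≠ q := low_ne75 h.la ⟨p, h.t⟩

theorem cq (h : E11_75 G q p a b c) : c ≠ q := low_ne75 h.lc ⟨p, h.t⟩

theorem cp (h : E11_75 G q p a b c) : c ≠ p := low_ne75 h.lc ⟨q, h.t'⟩

theorem pq (h : E11_75 G q p a b c) : q ≠ p := ne_of_nb5 h.t.1

theorem ac (h : E11_75 G q p a b c) : a ≠ c := by
  rintro rfl
  exact h.qc h.qa

/-- a vertex outside misses at most one vertex -/
theorem miss (h : E11_75 G q p a b c) {z u v : V} (hz : z ∉ G.nb q) (hzq : z ≠ q)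
    (hl : ¬ G.Low z) (huv : u ≠ v) (hu : u ≠ z) (huq : u ≠ q) (hup : u ≠ p) (hv : v ≠ z)
    (hvq : v ≠ q) (hvp : v ≠ p) (hn : u ∉ G.nb z) : v ∈ G.nb z := by
  by_contra hc
  have hzp : z ≠ p := by
    rintro rfl
    exact hz h.t.1
  have hpq := h.pq
  have h0 : z ∉ G.nb z := G.irr z
  have h1 : q ∉ G.nb z := fun h1 => hz (G.sym _ _ h1)
  have h2 : p ∉ G.nb z := fun h1 => h.pn hz hzq (G.sym _ _ h1)
  have h3 := nn75 (G := G) [z, q, p, u, v] (by (simp only [List.nodup_cons, List.mem_cons, List.not_mem_nil, or_false, not_or,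
      List.nodup_nil, and_true, not_false_eq_true] <;> (repeat' apply And.intro) <;>
      first | assumption | (apply Ne.symm; assumption))) (z := z) (by (simp only [List.forall_mem_cons, List.not_mem_nil, false_imp_iff, implies_true,
      and_true] <;> (repeat' apply And.intro) <;> assumption))
  have h4 := G.deg z
  have h5 : (G.nb z).card ≠ 6 := hl
  have h6 := h.n
  simp only [List.length_cons, List.length_nil] at h3
  omega

/-- a low vertex with three common neighbours sees one vertex outside -/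
theorem one (h : E11_75 G q p a b c) {u v : V} (h4 : 4 ≤ (G.nb a ∩ G.nb q).card)
    (hu : u ∈ G.nb a) (hv : v ∈ G.nb a) (huq : u ≠ q) (hvq : v ≠ q) (hun : u ∉ G.nb q)
    (hvn : v ∉ G.nb q) : u = v := by
  by_contra hc
  have h1 : Disjoint ({q, u, v} : Finset V) (G.nb a ∩ G.nb q) := by
    rw [disjoint_left]
    intro x hx hx'
    have hx2 := (mem_inter.1 hx').2
    rw [mem_insert, mem_insert, mem_singleton] at hx
    rcases hx with rfl | rfl | rfl
    · exact G.irr _ hx2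
    · exact hun hx2
    · exact hvn hx2
  have h2 : ({q, u, v} : Finset V) ∪ (G.nb a ∩ G.nb q) ⊆ G.nb a := by
    intro x hx
    rcases mem_union.1 hx with hx | hx
    · rw [mem_insert, mem_insert, mem_singleton] at hx
      rcases hx with rfl | rfl | rfl
      · exact G.sym _ _ h.qa
      · exact hu
      · exact hv
    · exact (mem_inter.1 hx).1
  have h3 := card_le_card h2
  rw [card_union_of_disjoint h1] at h3
  have h5 : 3 ≤ ({q, u, v} : Finset V).card := by
    have h6 := ll75 (S := ({q, u, v} : Finset V)) [q, u, v]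
      (by
        have h7 : u ≠ v := hc
        (simp only [List.nodup_cons, List.mem_cons, List.not_mem_nil, or_false, not_or,
      List.nodup_nil, and_true, not_false_eq_true] <;> (repeat' apply And.intro) <;>
      first | assumption | (apply Ne.symm; assumption))) (by simp)
    simpa using h6
  have h6 : (G.nb a).card = 6 := h.la
  omega

/-- the two further vertices outside -/
theorem zz (h : E11_75 G q p a b c) : ∃ z y, z ≠ y ∧ z ≠ q ∧ z ∉ G.nb q ∧ z ≠ c ∧ y ≠ q ∧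
    y ∉ G.nb q ∧ y ≠ c ∧ ∀ v, v = q ∨ v ∈ G.nb q ∨ v = c ∨ v = z ∨ v = y := by
  have h1 : (insert c (insert q (G.nb q))).card = 9 := by
    rw [card_insert_of_notMem, card_insert_of_notMem (G.irr q), h.t.2.1]
    rw [mem_insert, not_or]
    exact ⟨h.cq, h.qc⟩
  have h2 : ((insert c (insert q (G.nb q)))ᶜ).card = 2 := by
    rw [card_compl, h1, h.n]
  obtain ⟨z, y, hzy, hS⟩ := card_eq_two.1 h2
  have hm : ∀ v, (v = z ∨ v = y) ↔ ¬ (v = c ∨ v = q ∨ v ∈ G.nb q) := by
    intro v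
    have h3 : v ∈ (insert c (insert q (G.nb q)))ᶜ ↔ v ∈ ({z, y} : Finset V) := by rw [hS]
    rw [mem_compl, mem_insert, mem_insert, mem_insert, mem_singleton] at h3
    exact h3.symm
  have hz := (hm z).1 (Or.inl rfl)
  have hy := (hm y).1 (Or.inr rfl)
  rw [not_or, not_or] at hz hy
  refine ⟨z, y, hzy, hz.2.1, hz.2.2, hz.1, hy.2.1, hy.2.2, hy.1, ?_⟩
  intro v
  by_cases h4 : v = z ∨ v = y
  · tauto
  · have := (hm v).2.mt h4
    tauto

theorem nlow (h : E11_75 G q p a b c) {z : V} (hz : z ∉ G.nb q) (hc : z ≠ c) : ¬ G.Low z := by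
  intro h1
  rcases h.all z h1 with rfl | rfl | rfl
  · exact hz h.qa
  · exact hz h.qb
  · exact hc rfl

/-- the cover of the edge `q a` -/
theorem ca (h : E11_75 G q p a b c) : b ∈ G.nb a ∨
    (∃ v w, v ∈ G.nb q ∧ G.Tw v w ∧ v ≠ p ∧ w ≠ p ∧ a ∈ G.nb v ∧ a ∈ G.nb w) ∨
    ∃ y, y ∈ G.nb q ∧ G.HL y b a := by
  rcases h.sm.covq h.t h.qa with ⟨w, h1, h2, h3⟩ | ⟨v, w, h1, h2, h3, h4, h5, h6, h7⟩ |
    ⟨_, y, b', h1, h2, h3⟩
  · rcases h.all w h2 with rfl | rfl | rfl
    · exact absurd h3 (G.irr _)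
    · exact Or.inl (G.sym _ _ h3)
    · exact absurd h1 h.qc
  · exact Or.inr (Or.inl ⟨v, w, h1, h3, h4, h5, h6, h7⟩)
  · rcases h.all b' h2.2.1 with rfl | rfl | rfl
    · exact absurd rfl (HL_bt76 h2).2
    · exact Or.inr (Or.inr ⟨y, h3, h2⟩)
    · exact absurd h1 h.qc

/-- two lows and hubs: three common neighbours -/
theorem cA (h : E11_75 G q p a b c) (ht : ∀ v ∈ G.nb q, G.IsTw v → v = p) :
    4 ≤ (G.nb a ∩ G.nb q).card ∧ 4 ≤ (G.nb b ∩ G.nb q).card := by
  have ua : (G.nb a ∩ G.nb q).card ≤ 4 := lq_le86 h.sm.n9 h.la h.t (G.sym _ _ h.qa)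
  have ub : (G.nb b ∩ G.nb q).card ≤ 4 := lq_le86 h.sm.n9 h.lb h.t (G.sym _ _ h.qb)
  have hbp := h.swap.ap
  have hap := h.ap
  have hab := h.ab
  obtain ⟨Y, hY⟩ : ∃ Y, Y = (((G.nb q).erase p).erase a).erase b := ⟨_, rfl⟩
  have memY : ∀ y, y ∈ Y ↔ y ≠ b ∧ y ≠ a ∧ y ≠ p ∧ y ∈ G.nb q := by
    intro y
    rw [hY, mem_erase, mem_erase, mem_erase]
  have hYc : Y.card = 4 := by
    rw [hY, card_erase_of_mem, card_erase_of_mem, card_erase_of_mem, h.t.2.1]
    · exact h.t.1
    · exact mem_erase.2 ⟨hap, h.qa⟩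
    · exact mem_erase.2 ⟨hab.symm, mem_erase.2 ⟨hbp, h.qb⟩⟩
  have lowY : ∀ y ∈ Y, ¬ G.Low y := by
    intro y hy h1
    obtain ⟨h2, h3, h4, h5⟩ := (memY y).1 hy
    rcases h.all y h1 with rfl | rfl | rfl
    · exact h3 rfl
    · exact h2 rfl
    · exact h.qc h5
  have cov : ∀ y ∈ Y, y ∈ G.nb a ∨ y ∈ G.nb b := by
    intro y hy
    rcases h.sm.covq h.t ((memY y).1 hy).2.2.2 with ⟨w, h1, h2, h3⟩ |
      ⟨v, w, h1, h2, h3, h4, h5, h6, h7⟩ | ⟨h1, _⟩
    · rcases h.all w h2 with rfl | rfl | rfl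
      · exact Or.inl h3
      · exact Or.inr h3
      · exact absurd h1 h.qc
    · exact absurd (ht v h1 ⟨w, h3⟩) h4
    · exact absurd h1 (lowY y hy)
  have pa : p ∈ G.nb a := G.sym _ _ (h.pp h.qa hap)
  have pb : p ∈ G.nb b := G.sym _ _ (h.pp h.qb hbp)
  have hAB : (Y ∩ G.nb a) ∪ (Y ∩ G.nb b) = Y := by
    ext y
    rw [mem_union, mem_inter, mem_inter]
    constructor
    · rintro (h1 | h1) <;> exact h1.1
    · intro h1
      rcases cov y h1 with h2 | h2
      · exact Or.inl ⟨h1, h2⟩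
      · exact Or.inr ⟨h1, h2⟩
  have hsum := card_union_add_card_inter (Y ∩ G.nb a) (Y ∩ G.nb b)
  rw [hAB, hYc] at hsum
  have hpY : p ∉ Y := fun h1 => ((memY p).1 h1).2.2.1 rfl
  have sA : insert p (Y ∩ G.nb a) ⊆ G.nb a ∩ G.nb q := by
    intro x hx
    rcases mem_insert.1 hx with rfl | hx
    · exact mem_inter.2 ⟨pa, h.t.1⟩
    · exact mem_inter.2 ⟨(mem_inter.1 hx).2, ((memY x).1 (mem_inter.1 hx).1).2.2.2⟩
  have sB : insert p (Y ∩ G.nb b) ⊆ G.nb b ∩ G.nb q := by
    intro x hx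
    rcases mem_insert.1 hx with rfl | hx
    · exact mem_inter.2 ⟨pb, h.t.1⟩
    · exact mem_inter.2 ⟨(mem_inter.1 hx).2, ((memY x).1 (mem_inter.1 hx).1).2.2.2⟩
  have kA := card_insert_of_notMem (s := Y ∩ G.nb a) (a := p) fun h1 => hpY (mem_inter.1 h1).1
  have kB := card_insert_of_notMem (s := Y ∩ G.nb b) (a := p) fun h1 => hpY (mem_inter.1 h1).1
  have cA := card_le_card sA
  have cB := card_le_card sB
  rw [kA] at cA
  rw [kB] at cB
  by_cases hadj : b ∈ G.nb a
  · have hadj' := G.sym _ _ hadj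
    have h1 : insert b (insert p (Y ∩ G.nb a)) ⊆ G.nb a ∩ G.nb q := by
      intro x hx
      rcases mem_insert.1 hx with rfl | hx
      · exact mem_inter.2 ⟨hadj, h.qb⟩
      · exact sA hx
    have h2 : insert a (insert p (Y ∩ G.nb b)) ⊆ G.nb b ∩ G.nb q := by
      intro x hx
      rcases mem_insert.1 hx with rfl | hx
      · exact mem_inter.2 ⟨hadj', h.qa⟩
      · exact sB hx
    have h3 := card_le_card h1
    have h4 := card_le_card h2
    rw [card_insert_of_notMem, kA] at h3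
    · rw [card_insert_of_notMem, kB] at h4
      · omega
      · rw [mem_insert, mem_inter, not_or]
        exact ⟨hap, fun h5 => ((memY a).1 h5.1).2.1 rfl⟩
    · rw [mem_insert, mem_inter, not_or]
      exact ⟨hbp, fun h5 => ((memY b).1 h5.1).1 rfl⟩
  · have key : ∀ {a' b' : V}, E11_75 G q p a' b' c → b' ∉ G.nb a' →
        ∃ y, y ∈ G.nb q ∧ G.HL y b' a' := by
      intro a' b' h' h1
      rcases h'.ca with h2 | ⟨v, w, h2, h3, h4, -⟩ | h2
      · exact absurd h2 h1
      · exact absurd (ht v h2 ⟨w, h3⟩) h4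
      · exact h2
    obtain ⟨y, hy1, hy2⟩ := key h hadj
    obtain ⟨x, hx1, hx2⟩ := key h.swap fun h1 => hadj (G.sym _ _ h1)
    have hxy : y ≠ x := by
      rintro rfl
      exact (stTwHL_5 G).nomut h.sm.n9 _ _ _ _ _ hy2 hx2 rfl
    have hyY : y ∈ (Y ∩ G.nb a) ∩ (Y ∩ G.nb b) := by
      have h1 := HL_t76 hy2
      have h2 := HL_b76 hy2
      have h3 : y ∈ Y := (memY y).2 ⟨ne_of_nb5 h2, ne_of_nb5 h1, fun h3 => by
        subst h3
        exact (stTwHL_5 G).notHL h.sm.n9 _ _ _ hy2 ⟨q, h.t'⟩, hy1⟩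
      exact mem_inter.2 ⟨mem_inter.2 ⟨h3, G.sym _ _ h1⟩, mem_inter.2 ⟨h3, G.sym _ _ h2⟩⟩
    have hxY : x ∈ (Y ∩ G.nb a) ∩ (Y ∩ G.nb b) := by
      have h1 := HL_t76 hx2
      have h2 := HL_b76 hx2
      have h3 : x ∈ Y := (memY x).2 ⟨ne_of_nb5 h1, ne_of_nb5 h2, fun h3 => by
        subst h3
        exact (stTwHL_5 G).notHL h.sm.n9 _ _ _ hx2 ⟨q, h.t'⟩, hx1⟩
      exact mem_inter.2 ⟨mem_inter.2 ⟨h3, G.sym _ _ h2⟩, mem_inter.2 ⟨h3, G.sym _ _ h1⟩⟩
    have h5 := two_le5 hyY hxY hxy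
    omega

/-- the edge `a z` has no cover -/
theorem coreA (h : E11_75 G q p a b c) (ht : ∀ v ∈ G.nb q, G.IsTw v → v = p)
    (ha : 4 ≤ (G.nb a ∩ G.nb q).card) (hb : 4 ≤ (G.nb b ∩ G.nb q).card) {z y : V}
    (hzq : z ≠ q) (hzn : z ∉ G.nb q) (hzc : z ≠ c) (hyq : y ≠ q)
    (hyn : y ∉ G.nb q) (hyc : y ≠ c) (all : ∀ v, v = q ∨ v ∈ G.nb q ∨ v = c ∨ v = z ∨ v = y)
    (hz : z ∈ G.nb a) (hy : y ∉ G.nb a) (hzb : z ∉ G.nb b) (hyb : y ∈ G.nb b) : False := by
  have hca : c ∉ G.nb a := fun h1 => hzc (h.one ha hz h1 hzq h.cq hzn h.qc)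
  have hcb : c ∉ G.nb b := fun h1 => hyc (h.swap.one hb hyb h1 hyq h.cq hyn h.qc)
  rcases h.sm.cov hz with ⟨w, h1, h2, h3⟩ | ⟨v, w, h1, h2, h3, h4, h5⟩ |
    ⟨a', b', h1, h2, h3, h4, h5⟩ | ⟨a', b', h1, h2, h3, h4⟩ | ⟨a', b', h1, h2, h3⟩
  · rcases h.all w h2 with rfl | rfl | rfl
    · exact G.irr _ h1
    · exact hzb h3
    · exact hca h1
  · rcases all v with rfl | h6 | rfl | rfl | rfl
    · exact hzn h4
    · have h7 := ht v h6 ⟨w, h3⟩
      subst h7
      exact h.pn hzn hzq h4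
    · exact tw_nl75 ⟨w, h3⟩ h.lc
    · exact G.irr _ h4
    · exact hy h1
  · rcases h.all b' h3.2.1 with rfl | rfl | rfl
    · exact (HL_bt76 h3).2 rfl
    · exact hzb h4
    · rcases all a' with rfl | h6 | rfl | rfl | rfl
      · exact h.qc (HL_b76 h3)
      · rcases HL_sup76 h3 (G.sym _ _ h6) h.aq.symm with h7 | h7
        · exact h.cq h7.symm
        · exact h.qc (G.sym _ _ h7)
      · exact G.irr _ (HL_b76 h3)
      · exact h5 rfl
      · exact hy h1
  · exact h.nlow hzn hzc h2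
  · rcases h.all a' h3.1 with rfl | rfl | rfl
    · exact G.irr _ h1
    · rcases h.all b' h3.2.1 with rfl | rfl | rfl
      · exact (LL_tb76 h3).2 rfl
      · exact G.irr _ (LL_ab76 h3)
      · exact hcb (LL_ab76 h3)
    · exact hca h1

/-- two lows and four hubs: impossible -/
theorem caseA (h : E11_75 G q p a b c) (ht : ∀ v ∈ G.nb q, G.IsTw v → v = p) : False := by
  obtain ⟨ha, hb⟩ := h.cA ht
  obtain ⟨z, y, hzy, hzq, hzn, hzc, hyq, hyn, hyc, all⟩ := h.zz
  have hab := h.ab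
  have hza : a ≠ z := by
    rintro rfl
    exact hzn h.qa
  have hzb : b ≠ z := by
    rintro rfl
    exact hzn h.qb
  have hya : a ≠ y := by
    rintro rfl
    exact hyn h.qa
  have hyb : b ≠ y := by
    rintro rfl
    exact hyn h.qb
  have hzl := h.nlow hzn hzc
  have hyl := h.nlow hyn hyc
  by_cases h1 : z ∈ G.nb a
  · have h2 : y ∉ G.nb a := fun h2 => hzy (h.one ha h1 h2 hzq hyq hzn hyn)
    have h3 : b ∈ G.nb y := h.miss hyn hyq hyl hab hya h.aq h.ap hyb h.swap.aq h.swap.ap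
      fun h3 => h2 (G.sym _ _ h3)
    have h4 : z ∉ G.nb b := fun h4 =>
      hzy (h.swap.one hb h4 (G.sym _ _ h3) hzq hyq hzn hyn)
    exact h.coreA ht ha hb hzq hzn hzc hyq hyn hyc all h1 h2 h4 (G.sym _ _ h3)
  · have h3 : b ∈ G.nb z := h.miss hzn hzq hzl hab hza h.aq h.ap hzb h.swap.aq h.swap.ap
      fun h3 => h1 (G.sym _ _ h3)
    have h4 : y ∉ G.nb b := fun h4 =>
      hzy (h.swap.one hb (G.sym _ _ h3) h4 hzq hyq hzn hyn)
    have h5 : a ∈ G.nb y := h.miss hyn hyq hyl hab.symm hyb h.swap.aq h.swap.ap hya h.aq h.ap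
      fun h3 => h4 (G.sym _ _ h3)
    exact h.coreA ht ha hb hyq hyn hyc hzq hzn hzc (fun v => by
      rcases all v with h6 | h6 | h6 | h6 | h6 <;> tauto) (G.sym _ _ h5) h1 h4 (G.sym _ _ h3)

end E11_75

/-- the pair `q p` sees `a`, `b`, the pair `e f` and `x`, `y` -/
structure F11_75 (G : CG V) (q p a b c e f x y : V) : Prop extends E11_75 G q p a b c where
  te : G.Tw e f
  qe : e ∈ G.nb q
  qf : f ∈ G.nb q
  ep : e ≠ p
  fp : f ≠ p
  qx : x ∈ G.nb q
  qy : y ∈ G.nb q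
  xy : x ≠ y
  xl : ¬ G.Low x
  yl : ¬ G.Low y
  xt : ¬ G.IsTw x
  yt : ¬ G.IsTw y
  nq : ∀ v, v ∈ G.nb q → v = p ∨ v = a ∨ v = b ∨ v = e ∨ v = f ∨ v = x ∨ v = y

namespace F11_75

variable {q p a b c e f x y : V}

theorem swab (h : F11_75 G q p a b c e f x y) : F11_75 G q p b a c e f x y :=
  { h.toE11_75.swap with
    te := h.te, qe := h.qe, qf := h.qf, ep := h.ep, fp := h.fp, qx := h.qx, qy := h.qy,
    xy := h.xy, xl := h.xl, yl := h.yl, xt := h.xt, yt := h.yt,
    nq := fun v hv => by rcases h.nq v hv with h1 | h1 | h1 | h1 | h1 | h1 | h1 <;> tauto }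

theorem swxy (h : F11_75 G q p a b c e f x y) : F11_75 G q p a b c e f y x :=
  { h.toE11_75 with
    te := h.te, qe := h.qe, qf := h.qf, ep := h.ep, fp := h.fp, qx := h.qy, qy := h.qx,
    xy := h.xy.symm, xl := h.yl, yl := h.xl, xt := h.yt, yt := h.xt,
    nq := fun v hv => by rcases h.nq v hv with h1 | h1 | h1 | h1 | h1 | h1 | h1 <;> tauto }

theorem te' (h : F11_75 G q p a b c e f x y) : G.Tw f e := (stTwHL_5 G).symm _ _ h.te

theorem ie (h : F11_75 G q p a b c e f x y) : G.IsTw e := ⟨f, h.te⟩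

theorem if' (h : F11_75 G q p a b c e f x y) : G.IsTw f := ⟨e, h.te'⟩

theorem iq (h : F11_75 G q p a b c e f x y) : G.IsTw q := ⟨p, h.t⟩

theorem ip (h : F11_75 G q p a b c e f x y) : G.IsTw p := ⟨q, h.t'⟩

theorem ae (h : F11_75 G q p a b c e f x y) : a ≠ e := low_ne75 h.la h.ie

theorem af (h : F11_75 G q p a b c e f x y) : a ≠ f := low_ne75 h.la h.if'

theorem ax (h : F11_75 G q p a b c e f x y) : a ≠ x := by
  rintro rfl
  exact h.xl h.la

theorem tx (h : F11_75 G q p a b c e f x y) {v : V} (hv : G.IsTw v) : v ≠ x := by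
  rintro rfl
  exact h.xt hv

theorem ef (h : F11_75 G q p a b c e f x y) : e ≠ f := ne_of_nb5 h.te.1

/-- twin vertices that `q` sees -/
theorem tq (h : F11_75 G q p a b c e f x y) {v : V} (hv : v ∈ G.nb q) (ht : G.IsTw v) :
    v = p ∨ v = e ∨ v = f := by
  rcases h.nq v hv with h1 | rfl | rfl | h1 | h1 | rfl | rfl
  · exact Or.inl h1
  · exact absurd h.la (tw_nl75 ht)
  · exact absurd h.lb (tw_nl75 ht)
  · exact Or.inr (Or.inl h1)
  · exact Or.inr (Or.inr h1)
  · exact absurd ht h.xt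
  · exact absurd ht h.yt

theorem toF (h : F11_75 G q p a b c e f x y) {z : V} (hz : z ∈ G.nb e) (hf : z ≠ f) :
    z ∈ G.nb f := Tw_nb5 h.te hz hf

theorem toE (h : F11_75 G q p a b c e f x y) {z : V} (hz : z ∈ G.nb f) (he : z ≠ e) :
    z ∈ G.nb e := Tw_nb5 h.te' hz he

/-- the cover of `q x` -/
theorem cx (h : F11_75 G q p a b c e f x y) : x ∈ G.nb a ∨ x ∈ G.nb b ∨ x ∈ G.nb e := by
  rcases h.sm.covq h.t h.qx with ⟨w, h1, h2, h3⟩ | ⟨v, w, h1, h2, h3, h4, h5, h6, h7⟩ |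
    ⟨h1, _⟩
  · rcases h.all w h2 with rfl | rfl | rfl
    · exact Or.inl h3
    · exact Or.inr (Or.inl h3)
    · exact absurd h1 h.qc
  · rcases h.tq h1 ⟨w, h3⟩ with h8 | rfl | rfl
    · exact absurd h8 h4
    · exact Or.inr (Or.inr h6)
    · exact Or.inr (Or.inr (h.toE h6 (h.tx h.ie).symm))
  · exact absurd h1 h.xl

/-- the cover of `q e` -/
theorem ce (h : F11_75 G q p a b c e f x y) : e ∈ G.nb a ∨ e ∈ G.nb b := by
  rcases h.sm.covq h.t h.qe with ⟨w, h1, h2, h3⟩ | ⟨v, w, h1, h2, h3, h4, h5, h6, h7⟩ |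
    ⟨h1, _⟩
  · rcases h.all w h2 with rfl | rfl | rfl
    · exact Or.inl h3
    · exact Or.inr h3
    · exact absurd h1 h.qc
  · rcases h.tq h1 ⟨w, h3⟩ with h8 | rfl | rfl
    · exact absurd h8 h4
    · exact absurd h6 (G.irr _)
    · rcases h.tq h2 ⟨v, (stTwHL_5 G).symm _ _ h3⟩ with h8 | rfl | rfl
      · exact absurd h8 h5
      · exact absurd h7 (G.irr _)
      · exact absurd h3.1 (G.irr _)
  · exact absurd h1 (tw_nl75 h.ie)

/-- at most three common neighbours with `a` besides the partner -/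
theorem no5 (h : F11_75 G q p a b c e f x y) (he : e ∈ G.nb a) {s s' : V} (hs : s ∈ G.nb q)
    (hs' : s' ∈ G.nb q) (ha : s ∈ G.nb a) (ha' : s' ∈ G.nb a) (hss : s ≠ s') (sp : s ≠ p)
    (se : s ≠ e) (sf : s ≠ f) (sp' : s' ≠ p) (se' : s' ≠ e) (sf' : s' ≠ f) : False := by
  have ua : (G.nb a ∩ G.nb q).card ≤ 4 := lq_le86 h.sm.n9 h.la h.t (G.sym _ _ h.qa)
  have h1 := h.ep
  have h2 := h.fp
  have h3 := h.ef
  have h4 := ll75 (S := G.nb a ∩ G.nb q) [p, e, f, s, s'] (by (simp only [List.nodup_cons, List.mem_cons, List.not_mem_nil, or_false, not_or,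
      List.nodup_nil, and_true, not_false_eq_true] <;> (repeat' apply And.intro) <;>
      first | assumption | (apply Ne.symm; assumption))) (by
    have g1 : p ∈ G.nb a ∩ G.nb q := mem_inter.2 ⟨G.sym _ _ (h.pp h.qa h.ap), h.t.1⟩
    have g2 : e ∈ G.nb a ∩ G.nb q := mem_inter.2 ⟨he, h.qe⟩
    have g3 : f ∈ G.nb a ∩ G.nb q := mem_inter.2 ⟨G.sym _ _ (h.toF (G.sym _ _ he) h.af), h.qf⟩
    have g4 : s ∈ G.nb a ∩ G.nb q := mem_inter.2 ⟨ha, hs⟩
    have g5 : s' ∈ G.nb a ∩ G.nb q := mem_inter.2 ⟨ha', hs'⟩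
    (simp only [List.forall_mem_cons, List.not_mem_nil, false_imp_iff, implies_true,
      and_true] <;> (repeat' apply And.intro) <;> assumption))
  simp only [List.length_cons, List.length_nil] at h4
  omega

/-- at most two common neighbours of the pairs -/
theorem noE (h : F11_75 G q p a b c e f x y) {s s' s'' : V} (hs : s ∈ G.nb q)
    (hs' : s' ∈ G.nb q) (hs'' : s'' ∈ G.nb q) (ha : s ∈ G.nb e) (ha' : s' ∈ G.nb e)
    (ha'' : s'' ∈ G.nb e) (h1 : s ≠ s') (h2 : s ≠ s'') (h3 : s' ≠ s'') (sp : s ≠ p)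
    (sf : s ≠ f) (sp' : s' ≠ p) (sf' : s' ≠ f) (sp'' : s'' ≠ p) (sf'' : s'' ≠ f) : False := by
  have ue : (G.nb q ∩ G.nb e).card ≤ 4 := qq_le86 h.sm.n10 h.t h.te h.qe h.ep
  have k2 := h.fp
  have h4 := ll75 (S := G.nb q ∩ G.nb e) [p, f, s, s', s''] (by (simp only [List.nodup_cons, List.mem_cons, List.not_mem_nil, or_false, not_or,
      List.nodup_nil, and_true, not_false_eq_true] <;> (repeat' apply And.intro) <;>
      first | assumption | (apply Ne.symm; assumption))) (by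
    have g1 : p ∈ G.nb q ∩ G.nb e := mem_inter.2 ⟨h.t.1, G.sym _ _ (h.pp h.qe h.ep)⟩
    have g2 : f ∈ G.nb q ∩ G.nb e := mem_inter.2 ⟨h.qf, h.te.1⟩
    have g3 : s ∈ G.nb q ∩ G.nb e := mem_inter.2 ⟨hs, ha⟩
    have g4 : s' ∈ G.nb q ∩ G.nb e := mem_inter.2 ⟨hs', ha'⟩
    have g5 : s'' ∈ G.nb q ∩ G.nb e := mem_inter.2 ⟨hs'', ha''⟩
    (simp only [List.forall_mem_cons, List.not_mem_nil, false_imp_iff, implies_true,
      and_true] <;> (repeat' apply And.intro) <;> assumption))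
  simp only [List.length_cons, List.length_nil] at h4
  omega

/-- a hub `h` with `HL h a b` is not needed if `a` sees `e`, but no other vertex -/
theorem hlb (h : F11_75 G q p a b c e f x y) (he : e ∈ G.nb a) {z : V} (hz : z ∈ G.nb q)
    (hl : G.HL z a b) : (z = x ∨ z = y) ∧ z ∈ G.nb a ∧ z ∈ G.nb e := by
  have h1 : ¬ G.IsTw z := (stTwHL_5 G).notHL h.sm.n9 _ _ _ hl
  have h2 : ¬ G.Low z := HL_not_low76 hl
  refine ⟨?_, G.sym _ _ (HL_b76 hl), ?_⟩
  · rcases h.nq z hz with rfl | rfl | rfl | rfl | rfl | h3 | h3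
    · exact absurd h.ip h1
    · exact absurd h.la h2
    · exact absurd h.lb h2
    · exact absurd h.ie h1
    · exact absurd h.if' h1
    · exact Or.inl h3
    · exact Or.inr h3
  · exact G.sym _ _ (HL_sub76 hl he fun h3 => h1 (h3 ▸ h.ie))

/-- `a` has three common neighbours with `q` -/
theorem four (h : F11_75 G q p a b c e f x y) (he : e ∈ G.nb a) :
    4 ≤ (G.nb a ∩ G.nb q).card := by
  have key : ∀ s, s ∈ G.nb q → s ∈ G.nb a → s ≠ p → s ≠ e → s ≠ f →
      4 ≤ (G.nb a ∩ G.nb q).card := by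
    intro s hs ha sp se sf
    have h1 := h.ep
    have h2 := h.fp
    have h3 := h.ef
    have h4 := ll75 (S := G.nb a ∩ G.nb q) [p, e, f, s] (by (simp only [List.nodup_cons, List.mem_cons, List.not_mem_nil, or_false, not_or,
      List.nodup_nil, and_true, not_false_eq_true] <;> (repeat' apply And.intro) <;>
      first | assumption | (apply Ne.symm; assumption))) (by
      have g1 : p ∈ G.nb a ∩ G.nb q := mem_inter.2 ⟨G.sym _ _ (h.pp h.qa h.ap), h.t.1⟩
      have g2 : e ∈ G.nb a ∩ G.nb q := mem_inter.2 ⟨he, h.qe⟩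
      have g3 : f ∈ G.nb a ∩ G.nb q :=
        mem_inter.2 ⟨G.sym _ _ (h.toF (G.sym _ _ he) h.af), h.qf⟩
      have g4 : s ∈ G.nb a ∩ G.nb q := mem_inter.2 ⟨ha, hs⟩
      (simp only [List.forall_mem_cons, List.not_mem_nil, false_imp_iff, implies_true,
      and_true] <;> (repeat' apply And.intro) <;> assumption))
    simpa using h4
  by_contra hc
  have nb : b ∉ G.nb a := fun h1 => hc (key b h.qb h1 h.swab.ap h.swab.ae h.swab.af)
  have nx : x ∉ G.nb a := fun h1 =>
    hc (key x h.qx h1 (h.tx h.ip).symm (h.tx h.ie).symm (h.tx h.if').symm)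
  have ny : y ∉ G.nb a := fun h1 =>
    hc (key y h.qy h1 (h.swxy.tx h.ip).symm (h.swxy.tx h.ie).symm (h.swxy.tx h.if').symm)
  have hbe : b ∈ G.nb e := by
    rcases h.swab.ca with h1 | ⟨v, w, h1, h2, h3, h4, h5, h6⟩ | ⟨z, h1, h2⟩
    · exact absurd (G.sym _ _ h1) nb
    · rcases h.tq h1 ⟨w, h2⟩ with h8 | rfl | rfl
      · exact absurd h8 h3
      · exact h5
      · exact h.toE h5 h.swab.ae
    · obtain ⟨h3 | h3, h4, -⟩ := h.hlb he h1 h2
      · exact absurd (h3 ▸ h4) nx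
      · exact absurd (h3 ▸ h4) ny
  have hae : a ∈ G.nb e := G.sym _ _ he
  have nxe : x ∉ G.nb e := fun h1 => h.noE h.qa h.qb h.qx hae hbe h1 h.ab h.ax h.swab.ax h.ap
    h.af h.swab.ap h.swab.af (h.tx h.ip).symm (h.tx h.if').symm
  have nye : y ∉ G.nb e := fun h1 => h.noE h.qa h.qb h.qy hae hbe h1 h.ab h.swxy.ax
    h.swxy.swab.ax h.ap h.af h.swab.ap h.swab.af (h.swxy.tx h.ip).symm (h.swxy.tx h.if').symm
  have hxb : x ∈ G.nb b := by
    rcases h.cx with h1 | h1 | h1
    · exact absurd h1 nx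
    · exact h1
    · exact absurd h1 nxe
  have hyb : y ∈ G.nb b := by
    rcases h.swxy.cx with h1 | h1 | h1
    · exact absurd h1 ny
    · exact h1
    · exact absurd h1 nye
  exact h.swab.no5 (G.sym _ _ hbe) h.qx h.qy hxb hyb h.xy (h.tx h.ip).symm (h.tx h.ie).symm
    (h.tx h.if').symm (h.swxy.tx h.ip).symm (h.swxy.tx h.ie).symm (h.swxy.tx h.if').symm

end F11_75

/-- the two vertices outside -/
structure H11_75 (G : CG V) (q p a b c e f x y z w : V) : Prop
    extends F11_75 G q p a b c e f x y where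
  he : e ∈ G.nb a
  zw : z ≠ w
  zq : z ≠ q
  zn : z ∉ G.nb q
  zc : z ≠ c
  wq : w ≠ q
  wn : w ∉ G.nb q
  wc : w ≠ c
  loc : ∀ v, v = q ∨ v ∈ G.nb q ∨ v = c ∨ v = z ∨ v = w

namespace H11_75

variable {q p a b c e f x y z w : V}

theorem swzw (h : H11_75 G q p a b c e f x y z w) : H11_75 G q p a b c e f x y w z :=
  { h.toF11_75 with
    he := h.he, zw := h.zw.symm, zq := h.wq, zn := h.wn, zc := h.wc, wq := h.zq, wn := h.zn,
    wc := h.zc,
    loc := fun v => by rcases h.loc v with h1 | h1 | h1 | h1 | h1 <;> tauto }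

theorem swxy (h : H11_75 G q p a b c e f x y z w) : H11_75 G q p a b c e f y x z w :=
  { h.toF11_75.swxy with
    he := h.he, zw := h.zw, zq := h.zq, zn := h.zn, zc := h.zc, wq := h.wq, wn := h.wn,
    wc := h.wc, loc := h.loc }

theorem nez (h : H11_75 G q p a b c e f x y z w) {v : V} (hv : v ∈ G.nb q) : v ≠ z := by
  rintro rfl
  exact h.zn hv

theorem zl (h : H11_75 G q p a b c e f x y z w) : ¬ G.Low z := h.nlow h.zn h.zc

theorem zp (h : H11_75 G q p a b c e f x y z w) : z ∉ G.nb p := h.pn h.zn h.zq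

/-- `z` misses at most one vertex of `q` -/
theorem mz (h : H11_75 G q p a b c e f x y z w) {u v : V} (hu : u ∈ G.nb q) (hv : v ∈ G.nb q)
    (huv : u ≠ v) (hup : u ≠ p) (hvp : v ≠ p) (hn : u ∉ G.nb z) : v ∈ G.nb z :=
  h.miss h.zn h.zq h.zl huv (h.nez hu) (ne_of_nb5 hu).symm hup (h.nez hv) (ne_of_nb5 hv).symm hvp
    hn

theorem ez (h : H11_75 G q p a b c e f x y z w) : e ∈ G.nb z := by
  by_contra h1
  have h2 := h.mz h.qe h.qf h.ef h.ep h.fp h1
  exact h1 (G.sym _ _ (h.toE (G.sym _ _ h2) (h.nez h.qe).symm))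

theorem fz (h : H11_75 G q p a b c e f x y z w) : f ∈ G.nb z :=
  G.sym _ _ (h.toF (G.sym _ _ h.ez) (h.nez h.qf).symm)

/-- the neighbours of `e` -/
theorem nE (h : H11_75 G q p a b c e f x y z w) {u v : V} (hu : u ∈ G.nb e) (hv : v ∈ G.nb e)
    (huv : u ≠ v) (uf : u ≠ f) (uq : u ≠ q) (up : u ≠ p) (ua : u ≠ a) (uz : u ≠ z) (uw : u ≠ w)
    (vf : v ≠ f) (vq : v ≠ q) (vp : v ≠ p) (va : v ≠ a) (vz : v ≠ z) (vw : v ≠ w) : False := by
  have k1 : f ≠ q := (ne_of_nb5 h.qf).symm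
  have k2 := h.fp
  have k3 := h.af
  have k4 := h.nez h.qf
  have k5 := h.swzw.nez h.qf
  have k6 := h.pq
  have k7 := h.aq
  have k8 := h.zq
  have k9 := h.wq
  have k10 := h.ap
  have k11 := h.nez h.t.1
  have k12 := h.swzw.nez h.t.1
  have k13 := h.nez h.qa
  have k14 := h.swzw.nez h.qa
  have k15 := h.zw
  have h4 := ll75 (S := G.nb e) [f, q, p, a, z, w, u, v] (by (simp only [List.nodup_cons, List.mem_cons, List.not_mem_nil, or_false, not_or,
      List.nodup_nil, and_true, not_false_eq_true] <;> (repeat' apply And.intro) <;>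
      first | assumption | (apply Ne.symm; assumption))) (by
    have g1 : f ∈ G.nb e := h.te.1
    have g2 : q ∈ G.nb e := G.sym _ _ h.qe
    have g3 : p ∈ G.nb e := G.sym _ _ (h.pp h.qe h.ep)
    have g4 : a ∈ G.nb e := G.sym _ _ h.he
    have g5 : z ∈ G.nb e := G.sym _ _ h.ez
    have g6 : w ∈ G.nb e := G.sym _ _ h.swzw.ez
    (simp only [List.forall_mem_cons, List.not_mem_nil, false_imp_iff, implies_true,
      and_true] <;> (repeat' apply And.intro) <;> assumption))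
  have h5 := h.te.2.1
  simp only [List.length_cons, List.length_nil] at h4
  omega

/-- `e` sees `c`: then the neighbours of `q` are known -/
theorem alpha (h : H11_75 G q p a b c e f x y z w) (hc : c ∈ G.nb e) :
    b ∈ G.nb a ∧ b ∉ G.nb e ∧ x ∈ G.nb b ∧ y ∈ G.nb b := by
  have cf : c ≠ f := low_ne75 h.lc h.if'
  have ca : c ≠ a := h.ac.symm
  have key : ∀ v, v ∈ G.nb q → v ≠ f → v ≠ p → v ≠ a → v ∉ G.nb e := by
    intro v hv vf vp va h1
    refine h.nE hc h1 ?_ cf h.cq h.cp ca h.zc.symm h.wc.symm vf (ne_of_nb5 hv).symm vp va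
      (h.nez hv) (h.swzw.nez hv)
    rintro rfl
    exact h.qc hv
  have nb : b ∉ G.nb e := key b h.qb h.swab.af h.swab.ap h.ab.symm
  have nx : x ∉ G.nb e := key x h.qx (h.tx h.if').symm (h.tx h.ip).symm h.ax.symm
  have ny : y ∉ G.nb e :=
    key y h.qy (h.swxy.tx h.if').symm (h.swxy.tx h.ip).symm h.toF11_75.swxy.ax.symm
  have hba : b ∈ G.nb a := by
    rcases h.swab.ca with h1 | ⟨v, w, h1, h2, h3, h4, h5, h6⟩ | ⟨z, h1, h2⟩
    · exact G.sym _ _ h1
    · exfalso
      rcases h.tq h1 ⟨w, h2⟩ with h8 | rfl | rfl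
      · exact h3 h8
      · exact nb h5
      · exact nb (h.toE h5 h.swab.ae)
    · exfalso
      obtain ⟨h3 | h3, -, h4⟩ := h.hlb h.he h1 h2
      · exact nx (h3 ▸ h4)
      · exact ny (h3 ▸ h4)
  have key2 : ∀ {x y : V}, F11_75 G q p a b c e f x y → x ∉ G.nb e → x ∈ G.nb b := by
    intro x y h' h1
    rcases h'.cx with h2 | h2 | h2
    · exact absurd h2 fun h3 => h'.no5 h.he h'.qb h'.qx hba h3 h'.swab.ax h'.swab.ap h'.swab.ae
        h'.swab.af (h'.tx h'.ip).symm (h'.tx h'.ie).symm (h'.tx h'.if').symm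
    · exact h2
    · exact absurd h2 h1
  exact ⟨hba, nb, key2 h.toF11_75 nx, key2 h.toF11_75.swxy ny⟩

/-- `e` sees `b`: one of the hubs sees `b` -/
theorem beta (h : H11_75 G q p a b c e f x y z w) (hb : b ∈ G.nb e) :
    x ∈ G.nb b ∨ y ∈ G.nb b := by
  have key : ∀ v, v ∈ G.nb q → v ≠ f → v ≠ p → v ≠ a → v ≠ b → v ∉ G.nb e := by
    intro v hv vf vp va vb h1
    exact h.nE hb h1 vb.symm h.swab.af h.swab.aq h.swab.ap h.ab.symm (h.nez h.qb)
      (h.swzw.nez h.qb) vf (ne_of_nb5 hv).symm vp va (h.nez hv) (h.swzw.nez hv)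
  have nx : x ∉ G.nb e := key x h.qx (h.tx h.if').symm (h.tx h.ip).symm h.ax.symm
    h.swab.ax.symm
  have ny : y ∉ G.nb e :=
    key y h.qy (h.swxy.tx h.if').symm (h.swxy.tx h.ip).symm h.toF11_75.swxy.ax.symm
      h.toF11_75.swxy.swab.ax.symm
  by_contra hc
  rw [not_or] at hc
  have hx : x ∈ G.nb a := by
    rcases h.cx with h1 | h1 | h1
    · exact h1
    · exact absurd h1 hc.1
    · exact absurd h1 nx
  have hy : y ∈ G.nb a := by
    rcases h.toF11_75.swxy.cx with h1 | h1 | h1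
    · exact h1
    · exact absurd h1 hc.2
    · exact absurd h1 ny
  exact h.no5 h.he h.qx h.qy hx hy h.xy (h.tx h.ip).symm (h.tx h.ie).symm
    (h.tx h.if').symm (h.swxy.tx h.ip).symm (h.swxy.tx h.ie).symm (h.swxy.tx h.if').symm

/-- the neighbours of `b` -/
theorem nB (h : H11_75 G q p a b c e f x y z w) {M : List V} (hM : M.Nodup)
    (hm : ∀ v ∈ M, v ∈ G.nb b) : M.length ≤ 6 := by
  have h1 := ll75 M hM hm
  have h2 : (G.nb b).card = 6 := h.lb
  omega

/-- `a` sees `c` -/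
theorem caseI (h : H11_75 G q p a b c e f x y z w) (hz : z ∉ G.nb a) (hw : w ∉ G.nb a) :
    False := by
  have za : a ∉ G.nb z := fun h1 => hz (G.sym _ _ h1)
  have wa : a ∉ G.nb w := fun h1 => hw (G.sym _ _ h1)
  have bz : z ∈ G.nb b := G.sym _ _ (h.mz h.qa h.qb h.ab h.ap h.swab.ap za)
  have bw : w ∈ G.nb b := G.sym _ _ (h.swzw.mz h.qa h.qb h.ab h.ap h.swab.ap wa)
  have hz' : z ∈ G.nb e := G.sym _ _ h.ez
  have bq : q ∈ G.nb b := G.sym _ _ h.qb
  have bp : p ∈ G.nb b := G.sym _ _ (h.pp h.qb h.swab.ap)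
  have n1 := h.pq
  have n2 := (ne_of_nb5 h.qe)
  have n3 := (ne_of_nb5 h.qf)
  have n4 := h.zq
  have n5 := h.wq
  have n6 := h.nez h.t.1
  have n7 := h.swzw.nez h.t.1
  have n8 := h.zw
  have n9 := h.nez h.qx
  have n10 := h.swzw.nez h.qx
  have n11 := h.nez h.qy
  have n12 := h.swzw.nez h.qy
  have n13 := ne_of_nb5 h.qx
  have n14 := ne_of_nb5 h.qy
  have n15 := h.tx h.ip
  have n16 := h.toF11_75.swxy.tx h.ip
  have n17 := h.xy
  rcases h.sm.cov hz' with ⟨v, h1, h2, h3⟩ | ⟨v, v', h1, h2, h3, h4, h5⟩ |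
    ⟨a', b', h1, h2, -⟩ | ⟨a', b', h1, h2, -⟩ | ⟨a', b', h1, h2, h3⟩
  · rcases h.all v h2 with rfl | rfl | rfl
    · exact hz h3
    · have m1 := h.ep
      have m2 := h.fp
      have m3 := h.ef
      have m4 := h.nez h.qe
      have m5 := h.nez h.qf
      have m6 := h.swzw.nez h.qe
      have m7 := h.swzw.nez h.qf
      have m8 := h.tx h.ie
      have m9 := h.tx h.if'
      have m10 := h.toF11_75.swxy.tx h.ie
      have m11 := h.toF11_75.swxy.tx h.if'
      have be : e ∈ G.nb v := G.sym _ _ h1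
      have bf : f ∈ G.nb v := G.sym _ _ (h.toF h1 h.swab.af)
      rcases h.beta h1 with h6 | h6
      · have := h.nB (M := [q, p, e, f, x, z, w]) (by (simp only [List.nodup_cons, List.mem_cons, List.not_mem_nil, or_false, not_or,
      List.nodup_nil, and_true, not_false_eq_true] <;> (repeat' apply And.intro) <;>
      first | assumption | (apply Ne.symm; assumption))) (by (simp only [List.forall_mem_cons, List.not_mem_nil, false_imp_iff, implies_true,
      and_true] <;> (repeat' apply And.intro) <;> assumption))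
        simp at this
      · have := h.nB (M := [q, p, e, f, y, z, w]) (by (simp only [List.nodup_cons, List.mem_cons, List.not_mem_nil, or_false, not_or,
      List.nodup_nil, and_true, not_false_eq_true] <;> (repeat' apply And.intro) <;>
      first | assumption | (apply Ne.symm; assumption))) (by (simp only [List.forall_mem_cons, List.not_mem_nil, false_imp_iff, implies_true,
      and_true] <;> (repeat' apply And.intro) <;> assumption))
        simp at this
    · obtain ⟨h6, h7, h8, h9⟩ := h.alpha h1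
      have m1 := h.aq
      have m2 := h.ap
      have m3 := h.nez h.qa
      have m4 := h.swzw.nez h.qa
      have m5 := h.ax
      have m6 := h.toF11_75.swxy.ax
      have ba := G.sym _ _ h6
      have := h.nB (M := [q, p, a, x, y, z, w]) (by (simp only [List.nodup_cons, List.mem_cons, List.not_mem_nil, or_false, not_or,
      List.nodup_nil, and_true, not_false_eq_true] <;> (repeat' apply And.intro) <;>
      first | assumption | (apply Ne.symm; assumption))) (by (simp only [List.forall_mem_cons, List.not_mem_nil, false_imp_iff, implies_true,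
      and_true] <;> (repeat' apply And.intro) <;> assumption))
      simp at this
  · have key : ∀ {v v' : V}, v ∈ G.nb e → v' ∈ G.nb e → G.Tw v v' → z ∈ G.nb v → v = w := by
      intro v v' g1 g2 g3 g4
      rcases h.loc v with rfl | g5 | rfl | rfl | g5
      · exact absurd g4 h.zn
      · exfalso
        rcases h.tq g5 ⟨v', g3⟩ with rfl | rfl | rfl
        · exact h.zp g4
        · exact G.irr _ g1
        · have := (stTwHL_5 G).uniq h.sm.n9 _ _ _ g3 h.te'
          exact G.irr _ (this ▸ g2)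
      · exact absurd h.lc (tw_nl75 ⟨v', g3⟩)
      · exact absurd g4 (G.irr _)
      · exact g5
    have g1 := key h1 h2 h3 h4
    have g2 := key h2 h1 ((stTwHL_5 G).symm _ _ h3) h5
    exact ne_of_nb5 h3.1 (g1.trans g2.symm)
  · exact tw_nl75 h.ie h2
  · exact h.zl h2
  · exact twLL_5 h3 h.ie

/-- `a` sees neither `c` nor `z` -/
theorem caseII (h : H11_75 G q p a b c e f x y z w) (hz : z ∉ G.nb a) (hc : c ∉ G.nb a) :
    False := by
  have za : a ∉ G.nb z := fun h1 => hz (G.sym _ _ h1)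
  have hpx := (h.tx h.ip).symm
  have hpy := (h.toF11_75.swxy.tx h.ip).symm
  have bz : z ∈ G.nb b := G.sym _ _ (h.mz h.qa h.qb h.ab h.ap h.swab.ap za)
  have cq' : q ∉ G.nb c := fun h1 => h.qc (G.sym _ _ h1)
  have cp' : p ∉ G.nb c := fun h1 => h.pn h.qc h.cq (G.sym _ _ h1)
  have ca' : a ∉ G.nb c := fun h1 => hc (G.sym _ _ h1)
  have cc' : c ∉ G.nb c := G.irr c
  have hce : c ∈ G.nb e := by
    by_contra h1
    have h2 : e ∉ G.nb c := fun h2 => h1 (G.sym _ _ h2)
    have h3 : f ∉ G.nb c := fun h3 => h1 (h.toE (G.sym _ _ h3) (low_ne75 h.lc h.ie))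
    have n1 := h.cq
    have n2 := h.cp
    have n3 := h.ac
    have n4 := low_ne75 h.lc h.ie
    have n5 := low_ne75 h.lc h.if'
    have n6 := h.pq
    have n7 := h.aq
    have n8 := h.ap
    have n9 := ne_of_nb5 h.qe
    have n10 := ne_of_nb5 h.qf
    have n11 := h.ep
    have n12 := h.fp
    have n13 := h.ae
    have n14 := h.af
    have n15 := h.ef
    have h4 := nn75 (G := G) [c, q, p, a, e, f] (by (simp only [List.nodup_cons, List.mem_cons, List.not_mem_nil, or_false, not_or,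
      List.nodup_nil, and_true, not_false_eq_true] <;> (repeat' apply And.intro) <;>
      first | assumption | (apply Ne.symm; assumption))) (z := c) (by (simp only [List.forall_mem_cons, List.not_mem_nil, false_imp_iff, implies_true,
      and_true] <;> (repeat' apply And.intro) <;> assumption))
    have h5 : (G.nb c).card = 6 := h.lc
    have h6 := h.n
    simp only [List.length_cons, List.length_nil] at h4
    omega
  obtain ⟨h6, h7, h8, h9⟩ := h.alpha hce
  have nB' : ∀ v ∈ G.nb b, v = q ∨ v = p ∨ v = a ∨ v = x ∨ v = y ∨ v = z := by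
    intro v hv
    by_contra hv'
    rw [not_or, not_or, not_or, not_or, not_or] at hv'
    obtain ⟨k1, k2, k3, k4, k5, k6⟩ := hv'
    have n1 := h.pq
    have n2 := h.aq
    have n3 := h.ap
    have n4 := h.zq
    have n5 := h.nez h.t.1
    have n6 := h.nez h.qa
    have n7 := h.nez h.qx
    have n8 := h.nez h.qy
    have n9 := ne_of_nb5 h.qx
    have n10 := ne_of_nb5 h.qy
    have n11 := h.ax
    have n12 := h.toF11_75.swxy.ax
    have n13 := h.xy
    have ba := G.sym _ _ h6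
    have bq : q ∈ G.nb b := G.sym _ _ h.qb
    have bp : p ∈ G.nb b := G.sym _ _ (h.pp h.qb h.swab.ap)
    have := h.nB (M := [q, p, a, x, y, z, v]) (by (simp only [List.nodup_cons, List.mem_cons, List.not_mem_nil, or_false, not_or,
      List.nodup_nil, and_true, not_false_eq_true] <;> (repeat' apply And.intro) <;>
      first | assumption | (apply Ne.symm; assumption))) (by (simp only [List.forall_mem_cons, List.not_mem_nil, false_imp_iff, implies_true,
      and_true] <;> (repeat' apply And.intro) <;> assumption))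
    simp at this
  have hcb : c ∉ G.nb b := by
    intro h1
    rcases nB' c h1 with h2 | h2 | h2 | h2 | h2 | h2
    · exact h.cq h2
    · exact h.cp h2
    · exact h.ac h2.symm
    · exact h.xl (h2 ▸ h.lc)
    · exact h.yl (h2 ▸ h.lc)
    · exact h.zc h2.symm
  rcases h.sm.cov bz with ⟨v, h1, h2, h3⟩ | ⟨v, v', h1, h2, h3, h4, h5⟩ |
    ⟨a', b', h1, h2, h3, h4, h5⟩ | ⟨a', b', h1, h2, -⟩ | ⟨a', b', h1, h2, h3⟩
  · rcases h.all v h2 with rfl | rfl | rfl
    · exact hz h3
    · exact G.irr _ h1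
    · exact hcb h1
  · rcases nB' v h1 with rfl | rfl | rfl | rfl | rfl | rfl
    · exact h.zn h4
    · exact h.zp h4
    · exact tw_nl75 ⟨v', h3⟩ h.la
    · exact h.xt ⟨v', h3⟩
    · exact h.yt ⟨v', h3⟩
    · exact G.irr _ h4
  · rcases h.all b' h3.2.1 with rfl | rfl | rfl
    · exact hz h4
    · exact (HL_bt76 h3).2 rfl
    · have key : ∀ v, v ∈ G.nb q → ¬ G.HL v b' b := by
        intro v hv g1
        rcases HL_sup76 g1 (G.sym _ _ hv) h.swab.aq.symm with g2 | g2
        · exact h.cq g2.symm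
        · exact cq' g2
      rcases nB' a' h1 with rfl | rfl | rfl | rfl | rfl | rfl
      · exact h.qc (HL_b76 h3)
      · exact key _ h.t.1 h3
      · exact key _ h.qa h3
      · exact key _ h.qx h3
      · exact key _ h.qy h3
      · exact h5 rfl
  · exact h.zl h2
  · rcases h.all a' h3.1 with rfl | rfl | rfl
    · rcases h.all b' h3.2.1 with rfl | rfl | rfl
      · exact G.irr _ (LL_ab76 h3)
      · exact (LL_tb76 h3).2 rfl
      · exact hc (LL_ab76 h3)
    · exact G.irr _ h1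
    · exact hcb h1

end H11_75

/-- two lows, a pair of twins and two hubs: impossible -/
theorem F11_75.caseB {q p a b c e f x y : V} (h : F11_75 G q p a b c e f x y)
    (he : e ∈ G.nb a) : False := by
  obtain ⟨z, w, hzw, hzq, hzn, hzc, hwq, hwn, hwc, all⟩ := h.zz
  have H : H11_75 G q p a b c e f x y z w :=
    { h with
      he := he, zw := hzw, zq := hzq, zn := hzn, zc := hzc, wq := hwq, wn := hwn, wc := hwc,
      loc := all }
  have h4 := h.four he
  by_cases hc : c ∈ G.nb a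
  · exact H.caseI (fun h1 => hzc (h.one h4 h1 hc hzq h.cq hzn h.qc))
      (fun h1 => hwc (h.one h4 h1 hc hwq h.cq hwn h.qc))
  · by_cases hz : z ∈ G.nb a
    · exact H.swzw.caseII (fun h1 => hzw (h.one h4 hz h1 hzq hwq hzn hwn)) hc
    · exact H.caseII hz hc

/-- S12 (1), 11 vertices -/
theorem E11_75.false {q p a b c : V} (h : E11_75 G q p a b c) {x : V} (hx : x ∈ G.nb q)
    (hh : G.Hub x) : False := by
  have hT := stTwHL_5 G
  by_cases ht : ∀ v ∈ G.nb q, G.IsTw v → v = p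
  · exact h.caseA ht
  push Not at ht
  obtain ⟨e, qe, ⟨f, te⟩, ep⟩ := ht
  have te' := hT.symm _ _ te
  have fp : f ≠ p := by
    rintro rfl
    have h1 := hT.uniq h.sm.n9 _ _ _ te' h.t'
    exact G.irr q (h1 ▸ qe)
  have qf' : q ≠ f := by
    rintro rfl
    exact ep (hT.uniq h.sm.n9 _ _ _ te' h.t)
  have qf : f ∈ G.nb q := G.sym _ _ (Tw_nb5 te (G.sym _ _ qe) qf')
  have ie : G.IsTw e := ⟨f, te⟩
  have if' : G.IsTw f := ⟨e, te'⟩
  have ip : G.IsTw p := ⟨q, h.t'⟩
  have tx : ∀ {v : V}, G.IsTw v → v ≠ x := by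
    rintro v hv rfl
    exact hh.2 hv
  have lx : ∀ {v : V}, G.Low v → v ≠ x := by
    rintro v hv rfl
    exact hh.1 hv
  have n1 := h.ap
  have n2 := h.swap.ap
  have n3 := h.ab
  have n4 := low_ne75 h.la ie
  have n5 := low_ne75 h.la if'
  have n6 := low_ne75 h.lb ie
  have n7 := low_ne75 h.lb if'
  have n8 := lx h.la
  have n9 := lx h.lb
  have n10 := tx ie
  have n11 := tx if'
  have n12 := tx ip
  have n13 := ne_of_nb5 te.1
  obtain ⟨S, hS⟩ : ∃ S, S = (((((((G.nb q).erase p).erase a).erase b).erase e).erase f).erase x) :=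
    ⟨_, rfl⟩
  have mS : ∀ v, v ∈ S ↔ v ≠ x ∧ v ≠ f ∧ v ≠ e ∧ v ≠ b ∧ v ≠ a ∧ v ≠ p ∧ v ∈ G.nb q := by
    intro v
    rw [hS, mem_erase, mem_erase, mem_erase, mem_erase, mem_erase, mem_erase]
  have cS : S.card = 1 := by
    rw [hS, card_erase_of_mem, card_erase_of_mem, card_erase_of_mem, card_erase_of_mem,
      card_erase_of_mem, card_erase_of_mem, h.t.2.1]
    · exact h.t.1
    · exact mem_erase.2 ⟨n1, h.qa⟩
    · exact mem_erase.2 ⟨n3.symm, mem_erase.2 ⟨n2, h.qb⟩⟩
    · exact mem_erase.2 ⟨n6.symm, mem_erase.2 ⟨n4.symm, mem_erase.2 ⟨ep, qe⟩⟩⟩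
    · exact mem_erase.2 ⟨n13.symm, mem_erase.2 ⟨n7.symm, mem_erase.2 ⟨n5.symm,
        mem_erase.2 ⟨fp, qf⟩⟩⟩⟩
    · exact mem_erase.2 ⟨n11.symm, mem_erase.2 ⟨n10.symm, mem_erase.2 ⟨n9.symm,
        mem_erase.2 ⟨n8.symm, mem_erase.2 ⟨n12.symm, hx⟩⟩⟩⟩⟩
  obtain ⟨y, hy⟩ := card_eq_one.1 cS
  have hyS : y ∈ S := by
    rw [hy]
    exact mem_singleton_self y
  obtain ⟨k1, k2, k3, k4, k5, k6, k7⟩ := (mS y).1 hyS
  have nq : ∀ v, v ∈ G.nb q → v = p ∨ v = a ∨ v = b ∨ v = e ∨ v = f ∨ v = x ∨ v = y := by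
    intro v hv
    by_contra hc
    rw [not_or, not_or, not_or, not_or, not_or, not_or] at hc
    obtain ⟨c1, c2, c3, c4, c5, c6, c7⟩ := hc
    have h1 : v ∈ S := (mS v).2 ⟨c6, c5, c4, c3, c2, c1, hv⟩
    rw [hy, mem_singleton] at h1
    exact c7 h1
  have yl : ¬ G.Low y := by
    intro h1
    rcases h.all y h1 with h2 | h2 | h2
    · exact k5 h2
    · exact k4 h2
    · exact h.qc (h2 ▸ k7)
  have yt : ¬ G.IsTw y := by
    rintro ⟨y', h1⟩
    have h2 := hT.symm _ _ h1
    have h3 : q ≠ y' := by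
      rintro rfl
      exact k6 (hT.uniq h.sm.n9 _ _ _ h2 h.t)
    have h4 : y' ∈ G.nb q := G.sym _ _ (Tw_nb5 h1 (G.sym _ _ k7) h3)
    rcases nq y' h4 with rfl | rfl | rfl | rfl | rfl | rfl | rfl
    · have h5 := hT.uniq h.sm.n9 _ _ _ h2 h.t'
      exact G.irr q (h5 ▸ k7)
    · exact tw_nl75 ⟨y, h2⟩ h.la
    · exact tw_nl75 ⟨y, h2⟩ h.lb
    · exact k2 (hT.uniq h.sm.n9 _ _ _ h2 te)
    · exact k3 (hT.uniq h.sm.n9 _ _ _ h2 te')
    · exact hh.2 ⟨y, h2⟩
    · exact G.irr _ h1.1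
  have F : F11_75 G q p a b c e f x y :=
    { h with
      te := te, qe := qe, qf := qf, ep := ep, fp := fp, qx := hx, qy := k7, xy := k1.symm,
      xl := hh.1, yl := yl, xt := hh.2, yt := yt, nq := nq }
  rcases F.ce with h1 | h1
  · exact F.caseB h1
  · exact F.swab.caseB h1

/-- St1a -/
theorem st1a_75 (G : CG V) : G.St1a := by
  intro sm n q x l ⟨p, t⟩ hh hx hl
  by_contra hc
  obtain ⟨u, v, huv, hu, hv, qu, qv⟩ := sm.two t
  obtain ⟨a, b, c, -, -, -, -, -, -, all⟩ := sm.lows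
  have hul : u ≠ l := by
    rintro rfl
    exact hc qu
  have hvl : v ≠ l := by
    rintro rfl
    exact hc qv
  have H : E11_75 G q p u v l :=
    { sm := sm, n := n, t := t, la := hu, lb := hv, lc := hl, ab := huv, qa := qu, qb := qv,
      qc := hc,
      all := by
        intro w hw
        by_contra hn
        rw [not_or, not_or] at hn
        obtain ⟨h1, h2, h3⟩ := hn
        have e1 := all u hu
        have e2 := all v hv
        have e3 := all l hl
        have e4 := all w hw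
        have h5 := ll75 (S := ({a, b, c} : Finset V)) [u, v, l, w] (by (simp only [List.nodup_cons, List.mem_cons, List.not_mem_nil, or_false, not_or,
      List.nodup_nil, and_true, not_false_eq_true] <;> (repeat' apply And.intro) <;>
      first | assumption | (apply Ne.symm; assumption))) (by
          have g1 : u ∈ ({a, b, c} : Finset V) := by simpa using e1
          have g2 : v ∈ ({a, b, c} : Finset V) := by simpa using e2
          have g3 : l ∈ ({a, b, c} : Finset V) := by simpa using e3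
          have g4 : w ∈ ({a, b, c} : Finset V) := by simpa using e4
          (simp only [List.forall_mem_cons, List.not_mem_nil, false_imp_iff, implies_true,
      and_true] <;> (repeat' apply And.intro) <;> assumption))
        have h6 : ({a, b, c} : Finset V).card ≤ 3 := card_le_three
        simp only [List.length_cons, List.length_nil] at h5
        omega }
  exact H.false hx hh

end CG

end Pool.Agent.Lib.MP_e95c01_co.N
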