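import Pool.Agent.Lib.MP_e95c01_co.X.S12b_33

/-!
# Graphs with 11 or 12 vertices and three low vertices: every pair of twins sees a hub
-/

namespace Pool.Agent.Lib.MP_e95c01_co.N

open Finset

variable {V : Type} [Fintype V] [DecidableEq V]

namespace CG

variable {G : CG V}

namespace Sm33

/-- a neighbour of a twin vertex in another pair -/
theorem outside (h : G.Sm33) {q p v w : V} (ht : G.Tw q p) (hvw : G.Tw v w) (hv : v ∈ G.nb q)
    (hvp : v ≠ p) : w ∈ G.nb q ∧ w ≠ p ∧ q ≠ w := by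
  have hT := stTwHL_5 G
  have qw : q ≠ w := by
    rintro rfl
    exact hvp (hT.uniq h.n9 _ _ _ (hT.symm _ _ hvw) ht)
  refine ⟨h.part hvw hv qw, ?_, qw⟩
  rintro rfl
  exact ne_of_nb5 hv (hT.uniq h.n9 _ _ _ (hT.symm _ _ ht) (hT.symm _ _ hvw))

/-- a pair in the neighbourhood of a twin vertex is covered by a low vertex -/
theorem covp (h : G.Sm33) {q p v w : V} (ht : G.Tw q p) (hvw : G.Tw v w) (hv : v ∈ G.nb q)
    (hvp : v ≠ p) : ∃ z, z ∈ G.nb q ∧ G.Low z ∧ v ∈ G.nb z := by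
  have hT := stTwHL_5 G
  rcases h.covq ht hv with k | k | k
  · exact k
  · exfalso
    obtain ⟨v2, w2, k1, k2, k3, k4, k5, k6, k7⟩ := k
    refine h.k6 ht hvw k3 hv hvp k1 k4 (G.sym _ _ k6) ?_
    rintro rfl
    have := hT.uniq h.n9 _ _ _ k3 (hT.symm _ _ hvw)
    subst this
    exact G.irr _ k7
  · exact absurd k.1 (q_not_low76 (qs16 G) ⟨w, hvw⟩)

/-- a low vertex does not see three pairs of twins with a middle one -/
theorem notboth (h : G.Sm33) {q p v w s t z : V} (ht : G.Tw q p) (hvw : G.Tw v w)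
    (hst : G.Tw s t) (hv : v ∈ G.nb q) (hvp : v ≠ p) (hs : s ∈ G.nb q) (hsp : s ≠ p)
    (sv : s ≠ v) (sw : s ≠ w) (hz : z ∈ G.nb q) (hzl : G.Low z) (h1 : v ∈ G.nb z)
    (h2 : s ∈ G.nb z) : False := by
  have hT := stTwHL_5 G
  obtain ⟨hw, hwp, qw⟩ := h.outside ht hvw hv hvp
  obtain ⟨ht2, htp, qt⟩ := h.outside ht hst hs hsp
  have ts : t ≠ v ∧ t ≠ w := by
    constructor
    · rintro rfl
      exact sw (hT.uniq h.n9 _ _ _ (hT.symm _ _ hst) hvw)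
    · rintro rfl
      exact sv (hT.uniq h.n9 _ _ _ (hT.symm _ _ hst) (hT.symm _ _ hvw))
  have pz : p ∈ G.nb z := h.part ht (G.sym _ _ hz) (tw_ne_low ⟨q, hT.symm _ _ ht⟩ hzl).symm
  have wz : w ∈ G.nb z := h.part hvw h1 (tw_ne_low ⟨v, hT.symm _ _ hvw⟩ hzl).symm
  have tz : t ∈ G.nb z := h.part hst h2 (tw_ne_low ⟨s, hT.symm _ _ hst⟩ hzl).symm
  have c := lq_le86 h.n9 hzl ht (G.sym _ _ hz)
  have l := len_le (S := G.nb z ∩ G.nb q) [p, v, w, s, t] (by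
    simp only [List.nodup_cons, List.mem_cons, List.not_mem_nil, or_false, not_or,
      not_false_iff, List.nodup_nil, and_true]
    exact ⟨⟨hvp.symm, hwp.symm, hsp.symm, htp.symm⟩, ⟨ne_of_nb5 hvw.1, sv.symm, ts.1.symm⟩,
      ⟨sw.symm, ts.2.symm⟩, ne_of_nb5 hst.1⟩) (by
    intro u hu
    simp only [List.mem_cons, List.not_mem_nil, or_false] at hu
    rw [mem_inter]
    rcases hu with rfl | rfl | rfl | rfl | rfl
    exacts [⟨pz, ht.1⟩, ⟨h1, hv⟩, ⟨wz, hw⟩, ⟨h2, hs⟩, ⟨tz, ht2⟩])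
  simp only [List.length_cons, List.length_nil] at l
  omega

/-- no hub: there are two pairs of twins besides the partner -/
theorem other (h : G.Sm33) {q p : V} (ht : G.Tw q p) (hno : ∀ x ∈ G.nb q, ¬ G.Hub x)
    {u u' : V} (hu : G.Tw u u') (huq : u ∈ G.nb q) (hup : u ≠ p) :
    ∃ s t, G.Tw s t ∧ s ∈ G.nb q ∧ s ≠ p ∧ s ≠ u ∧ s ≠ u' := by
  have hT := stTwHL_5 G
  obtain ⟨hu'q, hu'p, qu'⟩ := h.outside ht hu huq hup
  by_contra hc
  have h7 : (G.nb q).card = 7 := ht.2.1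
  have h1 : (((G.nb q).erase p).erase u).erase u' ⊆ univ.filter fun v => G.Low v := by
    intro x hx
    rw [mem_erase, mem_erase, mem_erase] at hx
    rw [mem_filter]
    refine ⟨mem_univ _, ?_⟩
    by_contra hxl
    by_cases hxt : G.IsTw x
    · obtain ⟨x', hx'⟩ := hxt
      exact hc ⟨x, x', hx', hx.2.2.2, hx.2.2.1, hx.2.1, hx.1⟩
    · exact hno x hx.2.2.2 ⟨hxl, hxt⟩
  have h2 := card_le_card h1
  have h3 : (univ.filter fun v => G.Low v).card = 3 := h.l3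
  rw [card_erase_of_mem, card_erase_of_mem, card_erase_of_mem ht.1] at h2
  · omega
  · exact mem_erase.2 ⟨hup, huq⟩
  · exact mem_erase.2 ⟨(ne_of_nb5 hu.1).symm, mem_erase.2 ⟨hu'p, hu'q⟩⟩

/-- no hub: there is a pair of twins besides the partner -/
theorem one (h : G.Sm33) {q p : V} (ht : G.Tw q p) (hno : ∀ x ∈ G.nb q, ¬ G.Hub x) :
    ∃ s t, G.Tw s t ∧ s ∈ G.nb q ∧ s ≠ p := by
  by_contra hc
  have h7 : (G.nb q).card = 7 := ht.2.1
  have h1 : (G.nb q).erase p ⊆ univ.filter fun v => G.Low v := by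
    intro x hx
    rw [mem_erase] at hx
    rw [mem_filter]
    refine ⟨mem_univ _, ?_⟩
    by_contra hxl
    by_cases hxt : G.IsTw x
    · obtain ⟨x', hx'⟩ := hxt
      exact hc ⟨x, x', hx', hx.2, hx.1⟩
    · exact hno x hx.2 ⟨hxl, hxt⟩
  have h2 := card_le_card h1
  have h3 : (univ.filter fun v => G.Low v).card = 3 := h.l3
  rw [card_erase_of_mem ht.1] at h2
  omega

/-- no hub: the structure seen from a neighbour pair -/
theorem str (h : G.Sm33) {q p : V} (ht : G.Tw q p) (hno : ∀ x ∈ G.nb q, ¬ G.Hub x)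
    {u u' z : V} (hu : G.Tw u u') (huq : u ∈ G.nb q) (hup : u ≠ p) (hz : z ∈ G.nb q)
    (hzl : G.Low z) (huz : u ∈ G.nb z) :
    ∃ z' s t, G.Low z' ∧ z' ∈ G.nb q ∧ z' ≠ z ∧ G.Tw s t ∧ s ∈ G.nb q ∧ s ≠ p ∧ s ≠ u ∧
      s ≠ u' ∧ s ∈ G.nb z' ∧ s ∉ G.nb z ∧ u ∉ G.nb z' ∧ s ∉ G.nb u := by
  have hT := stTwHL_5 G
  obtain ⟨s, t, hst, hs, hsp, su, su'⟩ := h.other ht hno hu huq hup
  obtain ⟨z', hz', hzl', hsz'⟩ := h.covp ht hst hs hsp
  have nz : s ∉ G.nb z := fun e => h.notboth ht hu hst huq hup hs hsp su su' hz hzl huz e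
  refine ⟨z', s, t, hzl', hz', ?_, hst, hs, hsp, su, su', hsz', nz, ?_, ?_⟩
  · rintro rfl
    exact nz hsz'
  · exact fun e => h.notboth ht hu hst huq hup hs hsp su su' hz' hzl' e hsz'
  · exact fun e => h.k6 ht hu hst huq hup hs hsp e su'

/-- every twin vertex sees a hub -/
theorem hub (h : G.Sm33) (h1 : ∀ q x l, G.IsTw q → G.Hub x → x ∈ G.nb q → G.Low l →
    l ∈ G.nb q) {q p : V} (ht : G.Tw q p) : ∃ x ∈ G.nb q, G.Hub x := by
  by_contra hc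
  have hT := stTwHL_5 G
  have n9 := h.n9
  have ht' := hT.symm _ _ ht
  have hno : ∀ x ∈ G.nb q, ¬ G.Hub x := fun x hx hh => hc ⟨x, hx, hh⟩
  obtain ⟨v, w, hvw, hv, hvp⟩ := h.one ht hno
  have hwv := hT.symm _ _ hvw
  obtain ⟨l1, hl1, L1, hvl1⟩ := h.covp ht hvw hv hvp
  obtain ⟨l2, s, t, L2, hl2, l21, hst, hs, hsp, sv, sw, hsl2, hsl1, hvl2, nsv⟩ :=
    h.str ht hno hvw hv hvp hl1 L1 hvl1
  have hts := hT.symm _ _ hst
  obtain ⟨hw, hwp, qw⟩ := h.outside ht hvw hv hvp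
  obtain ⟨ht2, htp, qt⟩ := h.outside ht hst hs hsp
  -- `v` and `s` see no hub
  have nov : ∀ x ∈ G.nb v, ¬ G.Hub x := by
    intro x hx hh
    exact hvl2 (G.sym _ _ (h1 v x l2 ⟨w, hvw⟩ hh hx L2))
  have nos : ∀ x ∈ G.nb s, ¬ G.Hub x := by
    intro x hx hh
    exact hsl1 (G.sym _ _ (h1 s x l1 ⟨t, hst⟩ hh hx L1))
  obtain ⟨c1, s1, t1, C1, hc1, c1l, hst1, hs1, s1w, s1q, s1p, hs1c, hs1l, hqc1, -⟩ :=
    h.str hvw nov ht (G.sym _ _ hv) qw (G.sym _ _ hvl1) L1 (G.sym _ _ hl1)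
  obtain ⟨c2, s2, t2, C2, hc2, c2l, hst2, hs2, s2t, s2q, s2p, hs2c, hs2l, hqc2, -⟩ :=
    h.str hst nos ht (G.sym _ _ hs) qt (G.sym _ _ hsl2) L2 (G.sym _ _ hl2)
  have c1l2 : c1 ≠ l2 := by
    rintro rfl
    exact hvl2 (G.sym _ _ hc1)
  have c2l1 : c2 ≠ l1 := by
    rintro rfl
    exact hsl1 (G.sym _ _ hc2)
  have hcc : c2 = c1 := by
    rcases h.lows3 l21.symm c1l.symm c1l2.symm L1 L2 C1 C2 with e | e | e
    · exact absurd e c2l1
    · exact absurd e c2l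
    · exact e
  subst hcc
  have hts1 := hT.symm _ _ hst1
  have hts2 := hT.symm _ _ hst2
  -- the pairs at `c2`
  have a1 : v ∈ G.nb c2 := G.sym _ _ hc1
  have a2 : w ∈ G.nb c2 := h.part hvw a1 (tw_ne_low ⟨v, hwv⟩ C2).symm
  have a3 : s ∈ G.nb c2 := G.sym _ _ hc2
  have a4 : t ∈ G.nb c2 := h.part hst a3 (tw_ne_low ⟨s, hts⟩ C2).symm
  have a6 : t1 ∈ G.nb c2 := h.part hst1 hs1c (tw_ne_low ⟨s1, hts1⟩ C2).symm
  have a8 : t2 ∈ G.nb c2 := h.part hst2 hs2c (tw_ne_low ⟨s2, hts2⟩ C2).symm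
  have part2 : ∀ {a b c d : V}, G.Tw a b → G.Tw c d → c ≠ a → c ≠ b → d ≠ a ∧ d ≠ b := by
    intro a b c d k1 k2 k3 k4
    constructor
    · rintro rfl
      exact k4 (hT.uniq n9 _ _ _ (hT.symm _ _ k2) k1)
    · rintro rfl
      exact k3 (hT.uniq n9 _ _ _ (hT.symm _ _ k2) (hT.symm _ _ k1))
  have e1 := part2 hvw hst sv sw
  have ntv : t ∉ G.nb v := by
    intro e
    exact nsv (G.sym _ _ (Tw_nb5 hts (G.sym _ _ e) sv.symm))
  have s1v : s1 ≠ v := (ne_of_nb5 hs1).symm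
  have e2 := part2 hvw hst1 s1v s1w
  have s1s : s1 ≠ s := by
    rintro rfl
    exact nsv hs1
  have s1t : s1 ≠ t := by
    rintro rfl
    exact ntv hs1
  have e3 := part2 hst hst1 s1s s1t
  have s2s : s2 ≠ s := (ne_of_nb5 hs2).symm
  have e4 := part2 hst hst2 s2s s2t
  have s2v : s2 ≠ v := by
    rintro rfl
    exact nsv (G.sym _ _ hs2)
  have s2w : s2 ≠ w := by
    rintro rfl
    exact nsv (Tw_nb5 hwv (G.sym _ _ hs2) sv)
  have e5 := part2 hvw hst2 s2v s2w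
  have hss : s2 = s1 ∨ s2 = t1 := by
    by_contra hne
    rw [not_or] at hne
    have e6 := part2 hst1 hst2 hne.1 hne.2
    have l := len_le (S := G.nb c2) [v, w, s, t, s1, t1, s2, t2] (by
      simp only [List.nodup_cons, List.mem_cons, List.not_mem_nil, or_false, not_or,
        not_false_iff, List.nodup_nil, and_true]
      exact ⟨⟨ne_of_nb5 hvw.1, sv.symm, e1.1.symm, s1v.symm, e2.1.symm, s2v.symm, e5.1.symm⟩,
        ⟨sw.symm, e1.2.symm, s1w.symm, e2.2.symm, s2w.symm, e5.2.symm⟩,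
        ⟨ne_of_nb5 hst.1, s1s.symm, e3.1.symm, s2s.symm, e4.1.symm⟩,
        ⟨s1t.symm, e3.2.symm, s2t.symm, e4.2.symm⟩,
        ⟨ne_of_nb5 hst1.1, Ne.symm hne.1, e6.1.symm⟩, ⟨Ne.symm hne.2, e6.2.symm⟩,
        ne_of_nb5 hst2.1⟩) (by
      intro u hu
      simp only [List.mem_cons, List.not_mem_nil, or_false] at hu
      rcases hu with rfl | rfl | rfl | rfl | rfl | rfl | rfl | rfl <;> assumption)
    simp only [List.length_cons, List.length_nil] at l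
    have : (G.nb c2).card = 6 := C2
    omega
  have hs1l2 : s1 ∉ G.nb l2 := by
    rcases hss with rfl | rfl
    · exact hs2l
    · intro e
      exact hs2l (h.part hst1 e (tw_ne_low ⟨s1, hts1⟩ L2).symm)
  obtain ⟨m, m', hmm, M1, M2, k1, k2⟩ := h.two hst1
  have key : ∀ {z : V}, G.Low z → z ∈ G.nb s1 → z = c2 := by
    intro z g1 g2
    rcases h.lows3 l21.symm c1l.symm c1l2.symm L1 L2 C2 g1 with e | e | e
    · exact absurd (G.sym _ _ (e ▸ g2)) hs1l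
    · exact absurd (G.sym _ _ (e ▸ g2)) hs1l2
    · exact e
  exact hmm ((key M1 k1).trans (key M2 k2).symm)

/-- there is no such graph -/
theorem final (h : G.Sm33) (ha : G.St1a) (h5 : G.St5a) : False := by
  have h1 : ∀ q x l, G.IsTw q → G.Hub x → x ∈ G.nb q → G.Low l → l ∈ G.nb q := by
    have e1 := h.n11
    have e2 := h.n12
    rcases (by omega : Fintype.card V = 11 ∨ Fintype.card V = 12) with e | e
    · exact ha h e
    · exact st1b_33 G h e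
  have h2 : ∀ q l, G.IsTw q → G.Low l → l ∈ G.nb q := by
    rintro q l ⟨p, ht⟩ hl
    obtain ⟨x, hx, hh⟩ := h.hub h1 ht
    exact h1 q x l ⟨p, ht⟩ hh hx hl
  refine h5 h h2 ?_
  rintro q v ⟨p, ht⟩ ⟨w, hvw⟩ hvq
  have hT := stTwHL_5 G
  by_cases hvp : v = p
  · rw [hvp]
    exact ht
  exfalso
  obtain ⟨hw, hwp, qw⟩ := h.outside ht hvw hvq hvp
  obtain ⟨a, b, c, hab, hac, hbc, La, Lb, Lc, -⟩ := h.lows
  have cq := qq_le86 h.n10 ht hvw hvq hvp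
  have tp : G.IsTw p := ⟨q, hT.symm _ _ ht⟩
  have tw : G.IsTw w := ⟨v, hT.symm _ _ hvw⟩
  have l := len_le (S := G.nb q ∩ G.nb v) [p, w, a, b, c] (by
    simp only [List.nodup_cons, List.mem_cons, List.not_mem_nil, or_false, not_or,
      not_false_iff, List.nodup_nil, and_true]
    exact ⟨⟨hwp.symm, tw_ne_low tp La, tw_ne_low tp Lb, tw_ne_low tp Lc⟩,
      ⟨tw_ne_low tw La, tw_ne_low tw Lb, tw_ne_low tw Lc⟩, ⟨hab, hac⟩, hbc⟩) (by
    intro u hu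
    simp only [List.mem_cons, List.not_mem_nil, or_false] at hu
    rw [mem_inter]
    rcases hu with rfl | rfl | rfl | rfl | rfl
    exacts [⟨ht.1, G.sym _ _ (Tw_nb5 ht hvq hvp)⟩, ⟨hw, hvw.1⟩,
      ⟨h2 q _ ⟨p, ht⟩ La, h2 v _ ⟨w, hvw⟩ La⟩, ⟨h2 q _ ⟨p, ht⟩ Lb, h2 v _ ⟨w, hvw⟩ Lb⟩,
      ⟨h2 q _ ⟨p, ht⟩ Lc, h2 v _ ⟨w, hvw⟩ Lc⟩])
  simp only [List.length_cons, List.length_nil] at l
  omega

end Sm33

end CG

end Pool.Agent.Lib.MP_e95c01_co.N
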