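import Pool.Agent.Lib.MP_e95c01_co.X.S12a_33

/-!
# Small graphs without big fragments: all pairs are adjacent to three lows and three hubs
-/

set_option autoImplicit false

namespace Pool.Agent.Lib.MP_e95c01_co.N

open Finset

variable {V : Type} [Fintype V] [DecidableEq V]

namespace CG

variable {G : CG V}

/-- lows by indices -/
theorem Sm33.fin96 (h : G.Sm33) : ∃ l : Fin 3 → V, (∀ i j, i ≠ j → l i ≠ l j) ∧
    (∀ i, G.Low (l i)) ∧ ∀ v, G.Low v → ∃ i, v = l i := by
  obtain ⟨a, b, c, h1, h2, h3, h4, h5, h6, h7⟩ := h.lows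
  refine ⟨![a, b, c], ?_, ?_, ?_⟩
  · intro i j hij
    fin_cases i <;> fin_cases j <;> first
      | exact absurd rfl hij
      | exact h1
      | exact h2
      | exact h3
      | exact h1.symm
      | exact h2.symm
      | exact h3.symm
  · intro i
    fin_cases i
    exacts [h4, h5, h6]
  · intro v hv
    rcases h7 v hv with rfl | rfl | rfl
    exacts [⟨0, rfl⟩, ⟨1, rfl⟩, ⟨2, rfl⟩]

/-- all pairs are adjacent to three lows and three hubs: impossible for eleven or twelve
vertices -/
theorem s12all_96 (h : G.Sm33) (hql : ∀ q l, G.IsTw q → G.Low l → l ∈ G.nb q)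
    (hqq : ∀ q v, G.IsTw q → G.IsTw v → v ∈ G.nb q → G.Tw q v) : False := by
  classical
  have n11 := h.n11
  have n9 : 9 ≤ Fintype.card V := by omega
  obtain ⟨l, hinj, hlow, hall⟩ := h.fin96
  obtain ⟨q, p, ht⟩ := h.tw
  have htwl : ∀ v, G.IsTw v → ¬ G.Low v := by
    rintro v ⟨w, hw⟩ hv
    have h5 := hw.2.1
    have h6 : (G.nb v).card = 6 := hv
    omega
  have hsymT : ∀ {v w : V}, G.Tw v w → G.Tw w v := fun h => (qs16 G).symm _ _ h
  have huniq : ∀ {v w w' : V}, G.Tw v w → G.Tw v w' → w = w' :=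
    fun h h' => q_uniq76 (qs16 G) n9 h h'
  have hq0 : G.IsTw q := ⟨p, ht⟩
  have hp0 : G.IsTw p := ⟨q, hsymT ht⟩
  -- no pair covers an edge at `q`
  have hnc : ∀ v w, G.Tw v w → q ∈ G.nb v → q ∈ G.nb w → False := by
    intro v w hvw hv hw
    have h5 := hqq q v hq0 ⟨_, hvw⟩ (G.sym _ _ hv)
    have h6 := hqq q w hq0 ⟨_, hsymT hvw⟩ (G.sym _ _ hw)
    exact ne_of_nb5 hvw.1 (huniq h5 h6)
  have hHLh : ∀ {a b t : V}, G.HL a b t → G.Hub a := fun h =>
    ⟨HL_not_low76 h, fun h1 => (stTwHL_5 G).notHL n9 _ _ _ h h1⟩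
  -- (ii) a low vertex without low neighbours
  have hii : ∀ i, (∀ j, l j ∉ G.nb (l i)) → ∃ a, ∃ k, G.HL a (l k) (l i) ∧ q ∈ G.nb a := by
    intro i hi
    rcases h.cov (G.sym _ _ (hql q (l i) hq0 (hlow i))) with h1 | h1 | h1 | h1 | h1
    · obtain ⟨w, h2, h3, -⟩ := h1
      obtain ⟨j, rfl⟩ := hall w h3
      exact absurd h2 (hi j)
    · obtain ⟨v, w, -, -, h2, h3, h4⟩ := h1
      exact (hnc v w h2 h3 h4).elim
    · obtain ⟨a, b, -, -, h2, h3, h4⟩ := h1
      obtain ⟨k, rfl⟩ := hall b h2.2.1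
      exact ⟨a, k, h2, HL_sub76 h2 h3 h4⟩
    · obtain ⟨a, b, -, h2, -⟩ := h1
      exact absurd h2 (htwl q hq0)
    · obtain ⟨a, b, h2, -, h3⟩ := h1
      obtain ⟨j, rfl⟩ := hall a h3.1
      exact absurd h2 (hi j)
  by_cases he : ∀ i j, l i ∉ G.nb (l j)
  · -- no edges between lows
    choose a s has haq using fun i => hii i (fun j => he j i)
    have h1 : ∀ i, s i ≠ i := by
      intro i hi
      have h1 := (HL_bt76 (has i)).2
      rw [hi] at h1
      exact h1 rfl
    have h2 : ∀ i, s (s i) = i := by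
      intro i
      by_contra hc
      exact hinj _ _ hc (h.rule (has i) (has (s i)))
    clear has haq
    revert h1 h2
    generalize s = s
    revert s
    decide
  push Not at he
  obtain ⟨i, j, hij⟩ := he
  have hne : i ≠ j := by
    rintro rfl
    exact G.irr _ hij
  have hji : l j ∈ G.nb (l i) := G.sym _ _ hij
  have hk : ∃ k, k ≠ i ∧ k ≠ j ∧ ∀ m, m = i ∨ m = j ∨ m = k := by
    revert hne
    generalize i = i, j = j
    revert i j
    decide
  obtain ⟨k, hki, hkj, hall3⟩ := hk
  -- the sets of lows, twins, hubs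
  set H : Finset V := univ.filter fun v => G.Hub v with hH
  set L : Finset V := univ.image l with hL
  set T : Finset V := univ.filter fun v => G.IsTw v with hT
  have hLc : L.card = 3 := by
    rw [hL, card_image_of_injective _ (fun i j h => by
      by_contra hc
      exact hinj _ _ hc h)]
    simp
  have hmemL : ∀ i, l i ∈ L := fun i => mem_image_of_mem _ (mem_univ i)
  have hLlow : ∀ v ∈ L, G.Low v := by
    intro v hv
    obtain ⟨i, -, rfl⟩ := mem_image.1 hv
    exact hlow i
  have hmemT : ∀ v, v ∈ T ↔ G.IsTw v := by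
    intro v
    rw [hT, mem_filter]
    exact ⟨fun h => h.2, fun h => ⟨mem_univ _, h⟩⟩
  have hmemH : ∀ v, v ∈ H ↔ G.Hub v := by
    intro v
    rw [hH, mem_filter]
    exact ⟨fun h => h.2, fun h => ⟨mem_univ _, h⟩⟩
  have htri : ∀ v, v ∈ L ∨ v ∈ T ∨ v ∈ H := by
    intro v
    by_cases hv : G.Low v
    · obtain ⟨i, rfl⟩ := hall v hv
      exact Or.inl (hmemL i)
    by_cases hv' : G.IsTw v
    · exact Or.inr (Or.inl ((hmemT v).2 hv'))
    · exact Or.inr (Or.inr ((hmemH v).2 ⟨hv, hv'⟩))
  have dLT : Disjoint L T := by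
    rw [disjoint_left]
    intro v hv hv'
    exact htwl v ((hmemT v).1 hv') (hLlow v hv)
  have dLH : Disjoint L H := by
    rw [disjoint_left]
    intro v hv hv'
    exact ((hmemH v).1 hv').1 (hLlow v hv)
  have dTH : Disjoint T H := by
    rw [disjoint_left]
    intro v hv hv'
    exact ((hmemH v).1 hv').2 ((hmemT v).1 hv)
  have hun : (L ∪ (T ∪ H)) = univ := by
    ext v
    simp only [mem_union, mem_univ, iff_true]
    exact htri v
  have hHc : H.card + T.card + 3 = Fintype.card V := by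
    have h5 : (L ∪ (T ∪ H)).card = Fintype.card V := by rw [hun, card_univ]
    rw [card_union_of_disjoint (disjoint_union_right.2 ⟨dLT, dLH⟩), card_union_of_disjoint dTH,
      hLc] at h5
    omega
  have hsplit : ∀ S : Finset V, S.card = (S ∩ L).card + (S ∩ T).card + (S ∩ H).card := by
    intro S
    have h5 : S = (S ∩ L) ∪ ((S ∩ T) ∪ (S ∩ H)) := by
      rw [← inter_union_distrib_left, ← inter_union_distrib_left, hun, inter_univ]
    have h6 : Disjoint (S ∩ L) ((S ∩ T) ∪ (S ∩ H)) :=
      disjoint_union_right.2 ⟨dLT.mono inter_subset_right inter_subset_right,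
        dLH.mono inter_subset_right inter_subset_right⟩
    have h7 : Disjoint (S ∩ T) (S ∩ H) := dTH.mono inter_subset_right inter_subset_right
    conv_lhs => rw [h5]
    rw [card_union_of_disjoint h6, card_union_of_disjoint h7]
    omega
  -- hubs of `q`
  have hqH : (G.nb q ∩ H).card = 3 := by
    have h5 := hsplit (G.nb q)
    have h6 : G.nb q ∩ L = L := by
      apply inter_eq_right.2
      intro v hv
      exact hql q v hq0 (hLlow v hv)
    have h7 : G.nb q ∩ T = {p} := by
      ext v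
      rw [mem_inter, mem_singleton]
      constructor
      · rintro ⟨h8, h9⟩
        exact huniq (hqq q v hq0 ((hmemT v).1 h9) h8) ht
      · rintro rfl
        exact ⟨ht.1, (hmemT v).2 hp0⟩
    rw [h6, h7, hLc, card_singleton, ht.2.1] at h5
    omega
  -- lows
  have hlowsum : ∀ y ∈ L, (G.nb y ∩ H).card + (G.nb y ∩ L).card + T.card = 6 := by
    intro y hy
    have h5 := hsplit (G.nb y)
    have h6 : G.nb y ∩ T = T := by
      apply inter_eq_right.2
      intro v hv
      exact G.sym _ _ (hql v y ((hmemT v).1 hv) (hLlow y hy))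
    have h7 : (G.nb y).card = 6 := hLlow y hy
    rw [h6, h7] at h5
    omega
  have hsumH : ∑ x ∈ H, (G.nb x ∩ L).card = ∑ y ∈ L, (G.nb y ∩ H).card := by
    have h5 := sum_card_bipartiteAbove_eq_sum_card_bipartiteBelow
      (s := H) (t := L) (fun x y => y ∈ G.nb x)
    have h6 : ∀ x ∈ H, (bipartiteAbove (fun x y => y ∈ G.nb x) L x).card = (G.nb x ∩ L).card := by
      intro x _
      congr 1
      ext v
      simp [bipartiteAbove, and_comm]
    have h7 : ∀ y ∈ L, (bipartiteBelow (fun x y => y ∈ G.nb x) H y).card = (G.nb y ∩ H).card := by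
      intro y _
      congr 1
      ext v
      simp only [bipartiteBelow, mem_filter, mem_inter]
      exact ⟨fun h => ⟨G.sym _ _ h.2, h.1⟩, fun h => ⟨h.2, G.sym _ _ h.1⟩⟩
    rw [sum_congr rfl h6, sum_congr rfl h7] at h5
    exact h5
  have hsumL : ∑ y ∈ L, (G.nb y ∩ H).card + ∑ y ∈ L, (G.nb y ∩ L).card + 3 * T.card = 18 := by
    have h5 : ∑ y ∈ L, ((G.nb y ∩ H).card + (G.nb y ∩ L).card + T.card) = 18 := by
      rw [sum_congr rfl hlowsum, sum_const, hLc]
      rfl
    rw [sum_add_distrib, sum_add_distrib, sum_const, hLc, smul_eq_mul] at h5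
    exact h5
  -- the edges between lows
  have hLsum : ∑ y ∈ L, (G.nb y ∩ L).card = (G.nb (l i) ∩ L).card + (G.nb (l j) ∩ L).card +
      (G.nb (l k) ∩ L).card := by
    have h5 : L = {l i, l j, l k} := by
      ext v
      rw [mem_insert, mem_insert, mem_singleton]
      constructor
      · intro hv
        obtain ⟨m, -, rfl⟩ := mem_image.1 hv
        rcases hall3 m with rfl | rfl | rfl
        exacts [Or.inl rfl, Or.inr (Or.inl rfl), Or.inr (Or.inr rfl)]
      · rintro (rfl | rfl | rfl) <;> exact hmemL _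
    conv_lhs => rw [h5]
    rw [sum_insert, sum_insert, sum_singleton]
    · conv_rhs => rw [h5]
      rw [← add_assoc]
    · rw [mem_singleton]
      exact hinj _ _ hkj.symm
    · rw [mem_insert, mem_singleton, not_or]
      exact ⟨hinj _ _ hne, hinj _ _ hki.symm⟩
  have hE : 2 ≤ ∑ y ∈ L, (G.nb y ∩ L).card := by
    rw [hLsum]
    have h5 : 1 ≤ (G.nb (l i) ∩ L).card := card_pos.2 ⟨l j, mem_inter.2 ⟨hji, hmemL j⟩⟩
    have h6 : 1 ≤ (G.nb (l j) ∩ L).card := card_pos.2 ⟨l i, mem_inter.2 ⟨hij, hmemL i⟩⟩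
    omega
  have hE4 : ∀ m, m ≠ k → l k ∈ G.nb (l m) → 4 ≤ ∑ y ∈ L, (G.nb y ∩ L).card := by
    intro m hm hkm
    rw [hLsum]
    have h7 : 1 ≤ (G.nb (l k) ∩ L).card :=
      card_pos.2 ⟨l m, mem_inter.2 ⟨G.sym _ _ hkm, hmemL m⟩⟩
    have h5 : 1 ≤ (G.nb (l i) ∩ L).card := card_pos.2 ⟨l j, mem_inter.2 ⟨hji, hmemL j⟩⟩
    have h6 : 1 ≤ (G.nb (l j) ∩ L).card := card_pos.2 ⟨l i, mem_inter.2 ⟨hij, hmemL i⟩⟩
    rcases hall3 m with rfl | rfl | rfl
    · have h8 : 2 ≤ (G.nb (l m) ∩ L).card := by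
        have h9 : ({l j, l k} : Finset V) ⊆ G.nb (l m) ∩ L := by
          intro w hw
          rw [mem_insert, mem_singleton] at hw
          rcases hw with rfl | rfl
          exacts [mem_inter.2 ⟨hji, hmemL _⟩, mem_inter.2 ⟨hkm, hmemL _⟩]
        have h10 := card_le_card h9
        rwa [card_pair (hinj _ _ hkj.symm)] at h10
      omega
    · have h8 : 2 ≤ (G.nb (l m) ∩ L).card := by
        have h9 : ({l i, l k} : Finset V) ⊆ G.nb (l m) ∩ L := by
          intro w hw
          rw [mem_insert, mem_singleton] at hw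
          rcases hw with rfl | rfl
          exacts [mem_inter.2 ⟨hij, hmemL _⟩, mem_inter.2 ⟨hkm, hmemL _⟩]
        have h10 := card_le_card h9
        rwa [card_pair (hinj _ _ hki.symm)] at h10
      omega
    · exact absurd rfl hm
  -- (i) every hub sees a low
  have hl1 : ∀ x ∈ H, 1 ≤ (G.nb x ∩ L).card := by
    intro x hx
    have hx' := (hmemH x).1 hx
    suffices key : ∃ w ∈ G.nb x, G.Low w by
      obtain ⟨w, h6, h7⟩ := key
      obtain ⟨m, rfl⟩ := hall w h7
      exact card_pos.2 ⟨l m, mem_inter.2 ⟨h6, hmemL m⟩⟩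
    by_contra hc
    push Not at hc
    -- every cover at `x` is a pair
    have hpair : ∀ u ∈ G.nb x, ∃ v w, v ∈ G.nb x ∧ w ∈ G.nb x ∧ G.Tw v w ∧ u ∈ G.nb v ∧
        u ∈ G.nb w := by
      intro u hu
      rcases h.cov hu with h1 | h1 | h1 | h1 | h1
      · obtain ⟨w, h2, h3, -⟩ := h1
        exact absurd h3 (hc w h2)
      · exact h1
      · obtain ⟨a, b, -, h2, -⟩ := h1
        exact absurd h2 hx'.1
      · obtain ⟨a, b, h2, -, h3, -⟩ := h1
        exact absurd h3.2.1 (hc b h2)
      · obtain ⟨a, b, h2, -, h3⟩ := h1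
        exact absurd h3.1 (hc a h2)
    have h5 : (G.nb x).Nonempty := by
      rw [← card_pos]
      have := G.deg x
      omega
    obtain ⟨u, hu⟩ := h5
    obtain ⟨v, w, h6, -, h7, -⟩ := hpair u hu
    obtain ⟨v', w', -, -, h8, h9, h10⟩ := hpair v h6
    have h11 := hqq v v' ⟨_, h7⟩ ⟨_, h8⟩ (G.sym _ _ h9)
    have h12 := hqq v w' ⟨_, h7⟩ ⟨_, hsymT h8⟩ (G.sym _ _ h10)
    exact ne_of_nb5 h8.1 (huniq h11 h12)
  -- a hub with exactly one low sees a pair
  have hl2 : ∀ x ∈ H, (G.nb x ∩ L).card ≤ 1 → ∃ v ∈ G.nb x, G.IsTw v := by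
    intro x hx hx1
    have hx' := (hmemH x).1 hx
    obtain ⟨w, hw⟩ := card_pos.1 (hl1 x hx)
    obtain ⟨h5, h6⟩ := mem_inter.1 hw
    have huq : ∀ w' ∈ G.nb x, G.Low w' → w' = w := by
      intro w' h7 h8
      obtain ⟨m, rfl⟩ := hall w' h8
      exact card_le_one.1 hx1 _ (mem_inter.2 ⟨h7, hmemL m⟩) _ hw
    rcases h.cov h5 with h1 | h1 | h1 | h1 | h1
    · obtain ⟨w', h2, h3, h4⟩ := h1
      rw [huq w' h2 h3] at h4
      exact absurd h4 (G.irr _)
    · obtain ⟨v, w', h2, -, h3, -⟩ := h1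
      exact ⟨v, h2, _, h3⟩
    · obtain ⟨a, b, -, h2, -⟩ := h1
      exact absurd h2 hx'.1
    · obtain ⟨a, b, h2, -, h3, -⟩ := h1
      exact absurd (huq b h2 h3.2.1) (HL_bt76 h3).2.symm
    · obtain ⟨a, b, h2, -, h3⟩ := h1
      exact absurd (huq a h2 h3.1).symm (LL_ua76 h3).2
  -- the hub of the isolated low
  have hiso : (∀ m, l m ∉ G.nb (l k)) → ∃ x ∈ H, q ∈ G.nb x ∧ (G.nb x ∩ L).card = 3 := by
    intro hk
    obtain ⟨a, m, h1, h2⟩ := hii k hk
    have ha := hHLh h1
    refine ⟨a, (hmemH a).2 ha, h2, ?_⟩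
    have h3 : G.nb a ∩ L = L := by
      apply inter_eq_right.2
      have hal : ∀ n, l n ≠ a := by
        rintro n rfl
        exact ha.1 (hlow n)
      have h4 : l i ∈ G.nb a ∧ l j ∈ G.nb a := by
        rcases hall3 m with rfl | rfl | rfl
        · exact ⟨HL_b76 h1, HL_sub76 h1 hji (hal _)⟩
        · exact ⟨HL_sub76 h1 hij (hal _), HL_b76 h1⟩
        · exact absurd rfl (HL_bt76 h1).2
      intro v hv
      obtain ⟨n, -, rfl⟩ := mem_image.1 hv
      rcases hall3 n with rfl | rfl | rfl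
      exacts [h4.1, h4.2, HL_t76 h1]
    rw [h3, hLc]
  have hTq : q ∈ T := (hmemT q).2 hq0
  have hTp : p ∈ T := (hmemT p).2 hp0
  have hpq : q ≠ p := ne_of_nb5 ht.1
  by_cases h2T : T = {q, p}
  · -- one pair
    have hTc : T.card = 2 := by rw [h2T, card_pair hpq]
    have hsee : ∀ x ∈ H, q ∉ G.nb x → 2 ≤ (G.nb x ∩ L).card := by
      intro x hx hxq
      by_contra hc
      obtain ⟨v, h5, h6⟩ := hl2 x hx (by omega)
      have h7 : v ∈ T := (hmemT v).2 h6
      rw [h2T, mem_insert, mem_singleton] at h7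
      rcases h7 with rfl | rfl
      · exact hxq h5
      · refine hxq (G.sym _ _ (Tw_nb5 (hsymT ht) (G.sym _ _ h5) ?_))
        rintro rfl
        exact ((hmemH x).1 hx).2 hq0
    have hf : ∑ x ∈ H, (if q ∈ G.nb x then 1 else 2) = 2 * H.card - 3 := by
      have h5 : (H.filter fun x => q ∈ G.nb x).card = 3 := by
        rw [← hqH]
        congr 1
        ext v
        rw [mem_filter, mem_inter]
        exact ⟨fun h => ⟨G.sym _ _ h.2, h.1⟩, fun h => ⟨h.2, G.sym _ _ h.1⟩⟩
      have h6 := card_filter_add_card_filter_not (s := H) (fun x => q ∈ G.nb x)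
      rw [sum_ite, sum_const, sum_const, smul_eq_mul, smul_eq_mul]
      omega
    by_cases hiso' : ∀ m, l m ∉ G.nb (l k)
    · obtain ⟨x, hx, hxq, hx3⟩ := hiso hiso'
      have h5 : ∑ y ∈ H.erase x, (if q ∈ G.nb y then 1 else 2) ≤
          ∑ y ∈ H.erase x, (G.nb y ∩ L).card := by
        apply sum_le_sum
        intro y hy
        split_ifs with hq'
        · exact hl1 y (mem_of_mem_erase hy)
        · exact hsee y (mem_of_mem_erase hy) hq'
      have h6 := add_sum_erase H (fun y => if q ∈ G.nb y then 1 else 2) hx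
      have h7 := add_sum_erase H (fun y => (G.nb y ∩ L).card) hx
      simp only [if_pos hxq] at h6
      simp only [hx3] at h7
      rw [hf] at h6
      omega
    · push Not at hiso'
      obtain ⟨m, hm⟩ := hiso'
      have hmk : m ≠ k := by
        rintro rfl
        exact G.irr _ hm
      have h4 := hE4 m hmk (G.sym _ _ hm)
      have h5 : ∑ y ∈ H, (if q ∈ G.nb y then 1 else 2) ≤ ∑ y ∈ H, (G.nb y ∩ L).card := by
        apply sum_le_sum
        intro y hy
        split_ifs with hq'
        · exact hl1 y hy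
        · exact hsee y hy hq'
      rw [hf] at h5
      omega
  · -- at least two pairs
    have hT4 : 4 ≤ T.card := by
      have h5 : ∃ v ∈ T, v ≠ q ∧ v ≠ p := by
        by_contra hc
        push Not at hc
        apply h2T
        ext v
        rw [mem_insert, mem_singleton]
        constructor
        · intro hv
          by_cases hvq : v = q
          · exact Or.inl hvq
          · exact Or.inr (hc v hv hvq)
        · rintro (rfl | rfl)
          exacts [hTq, hTp]
      obtain ⟨v, hv, hvq, hvp⟩ := h5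
      obtain ⟨w, hw⟩ := (hmemT v).1 hv
      have hwT : w ∈ T := (hmemT w).2 ⟨v, hsymT hw⟩
      have hwq : w ≠ q := by
        rintro rfl
        exact hvp (huniq (hsymT hw) ht)
      have hwp : w ≠ p := by
        rintro rfl
        exact hvq (huniq (hsymT hw) (hsymT ht))
      have hvw : v ≠ w := ne_of_nb5 hw.1
      have h6 : ({q, p, v, w} : Finset V) ⊆ T := by
        intro x hx
        simp only [mem_insert, mem_singleton] at hx
        rcases hx with rfl | rfl | rfl | rfl <;> assumption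
      have h7 := card_le_card h6
      rw [card_insert_of_notMem, card_insert_of_notMem, card_insert_of_notMem,
        card_singleton] at h7
      · exact h7
      · simpa using hvw
      · simp only [mem_insert, mem_singleton, not_or]
        exact ⟨hvp.symm, hwp.symm⟩
      · simp only [mem_insert, mem_singleton, not_or]
        exact ⟨hpq, hvq.symm, hwq.symm⟩
    by_cases hiso' : ∀ m, l m ∉ G.nb (l k)
    · obtain ⟨x, hx, hxq, hx3⟩ := hiso hiso'
      have h5 : (H.erase x).card ≤ ∑ y ∈ H.erase x, (G.nb y ∩ L).card := by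
        calc (H.erase x).card = ∑ _y ∈ H.erase x, 1 := by rw [sum_const]; simp
          _ ≤ _ := sum_le_sum fun y hy => hl1 y (mem_of_mem_erase hy)
      have h7 := add_sum_erase H (fun y => (G.nb y ∩ L).card) hx
      simp only [hx3] at h7
      rw [card_erase_of_mem hx] at h5
      have h8 : 0 < H.card := card_pos.2 ⟨x, hx⟩
      omega
    · push Not at hiso'
      obtain ⟨m, hm⟩ := hiso'
      have hmk : m ≠ k := by
        rintro rfl
        exact G.irr _ hm
      have h4 := hE4 m hmk (G.sym _ _ hm)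
      have h5 : H.card ≤ ∑ y ∈ H, (G.nb y ∩ L).card := by
        calc H.card = ∑ _y ∈ H, 1 := by rw [sum_const]; simp
          _ ≤ _ := sum_le_sum fun y hy => hl1 y hy
      omega

/-- all pairs are adjacent to three lows and three hubs -/
theorem st5a_96 (G : CG V) : G.St5a := fun h h1 h2 => s12all_96 h h1 h2

end CG

end Pool.Agent.Lib.MP_e95c01_co.N
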