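import Pool.Agent.Lib.MP_e95c01_co.X.StmtsT76
import Pool.Agent.Lib.MP_e95c01_co.X.S12a_42
import Pool.Agent.Lib.MP_e95c01_co.X.S12c_33
import Pool.Agent.Lib.MP_e95c01_co.X.S12b_75
import Pool.Agent.Lib.MP_e95c01_co.X.S12f_96
import Pool.Agent.Lib.MP_e95c01_co.N4.Closed76

/-!
# Graphs with at most twelve vertices and no big fragment
-/

namespace Pool.Agent.Lib.MP_e95c01_co.N

open Finset

variable {V : Type} [Fintype V] [DecidableEq V]

namespace CG

theorem HL76.hl33 {G : CG V} {a b t : V} (h : G.HL76 a b t) (hb : G.Low b) : G.HL a b t := by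
  have hab : a ≠ b := (ne_of_nb5 h.ab).symm
  have hta : t ≠ a := by
    rintro rfl
    exact h.nt h.ab
  have h6 : (G.nb b).card = 6 := hb
  have e1 : b ∉ (G.nb b).erase a := fun e => G.irr b (mem_erase.1 e).2
  have e2 : t ∉ insert b ((G.nb b).erase a) := by
    rw [mem_insert, mem_erase]
    rintro (e | e)
    exacts [h.tb e, h.nt e.2]
  refine ⟨?_, hb, G.sym _ _ h.ab, ?_, ?_⟩
  · rw [h.eq, card_insert_of_notMem e2, card_insert_of_notMem e1, card_erase_of_mem h.ab]
    omega
  · rw [cl, mem_insert]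
    rintro (e | e)
    exacts [h.tb e, h.nt e]
  · ext x
    rw [cl, cl, mem_insert, mem_insert, mem_insert, h.eq, mem_insert, mem_insert, mem_erase]
    constructor
    · rintro (rfl | rfl | rfl | h1)
      · exact Or.inr (Or.inr h.ab)
      · exact Or.inl rfl
      · exact Or.inr (Or.inl rfl)
      · exact Or.inr (Or.inr h1.2)
    · rintro (rfl | rfl | h1)
      · exact Or.inr (Or.inl rfl)
      · exact Or.inr (Or.inr (Or.inl rfl))
      · by_cases hxa : x = a
        · exact Or.inl hxa
        · exact Or.inr (Or.inr (Or.inr ⟨hxa, h1⟩))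

/-- S12 -/
theorem stS12_33 (G : CG V) : G.StS12 := by
  intro hc hs h9 h12 hb
  have hs' : G.Sat76 := fun a b t h1 h2 => hs a b t (h1.hl33 h2)
  have hne : Nonempty V := by
    rw [← Fintype.card_pos_iff]
    omega
  have h3 : 3 ≤ G.l univ := three_lows76 hc hs' hb hne
  have hk : (0 : ℤ) ≤ 6 * (G.kap univ : ℤ) := by positivity
  have key : 4 * Fintype.card V ≤ 12 * G.l univ := by
    by_cases e9 : Fintype.card V = 9
    · omega
    have h5 : G.l univ ≠ 3 := by
      by_cases e10 : Fintype.card V = 10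
      · exact s12n10_42 G hc e10
      · intro hl
        exact Sm33.final ⟨hc, hs, by omega, h12, hb, hl⟩ (st1a_75 G) (st5a_96 G)
    omega
  have key' : (4 * (Fintype.card V : ℤ)) ≤ 12 * (G.l univ : ℤ) := by exact_mod_cast key
  linarith

end CG

end Pool.Agent.Lib.MP_e95c01_co.N
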