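import Pool.Agent.Lib.MP_e95c01_co.X.Acc76

/-!
# `λ = 3`, thick torsos: all twin vertices, all hubs
-/

namespace Pool.Agent.Lib.MP_e95c01_co.N

open Finset

variable {V : Type} [Fintype V] [DecidableEq V]

namespace CG

variable {G : CG V} {Fa : Finset (Finset V)}

theorem PD.k {z q : V} (h : G.PD Fa z q) : (G.I Fa q).card ≤ 1 := by
  rcases h with ⟨h, h1, h2⟩ | ⟨h, h1, h2, h3, h4⟩ | ⟨h, h1, h2⟩ | ⟨h, h1, h2⟩
  · exact h.kq
  · exact h.kq
  · exact h.kq
  · exact h.kq

theorem PF.k {z q : V} (h : G.PF Fa z q) : (G.I Fa q).card ≤ 1 := by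
  rcases h with ⟨h, h1, h2⟩
  obtain ⟨B, B', h3, -⟩ := h.blobs
  rw [h3, card_singleton]

theorem PS.k {z q : V} (h : G.PS Fa z q) : (G.I Fa q).card ≤ 1 := by
  rcases h with ⟨h, h1, h2⟩ | ⟨h, h1, h2, h3, h4⟩ <;> exact h.kq

theorem ask_tw76 (h9 : 9 ≤ Fintype.card V) {q : V} (hq : G.IsTw q)
    (hk : 2 ≤ (G.I Fa q).card) : G.ask Fa q = 0 := by
  classical
  refine sum_eq_zero fun z _ => ?_
  rw [dn5_tw76 h9 hq, if_neg (fun h => by have := h.k; omega),
    if_neg (fun h => by have := h.k; omega), if_neg (fun h => by have := h.k; omega)]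
  ring

/-- C7: all twin vertices -/
theorem stC7_76 (G : CG V) (h2 : G.StM2) (ha : G.StC7a) (hb : G.StC7b) : G.StC7 := by
  classical
  intro Fa hG q hq hqt
  change G.ask Fa q ≤ _
  by_cases h0 : (G.I Fa q).card = 0
  · exact hb Fa hG q hq hqt (card_eq_zero.1 h0)
  by_cases h1 : (G.I Fa q).card = 1
  · exact ha Fa hG q hq hqt h1
  · rw [ask_tw76 hG.g5.n9 hqt (by omega)]
    have h3 := h2.two Fa hG q hq hqt (by omega)
    have h4 : 0 ≤ ∑ x ∈ R Fa, G.dn5 Fa x q := sum_nonneg fun x _ => dn5_nonneg76 hG x q
    have h5 : (0 : ℤ) ≤ if G.InK6 Fa q then 2 else 0 := by split_ifs <;> norm_num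
    omega

/-- C8: all hubs -/
theorem stC8_76 (G : CG V) (h1 : G.StM1) (hb : G.StC8b) (hd : G.StC8d) (he : G.StC8e)
    (hf : G.StC8f) (hg : G.StC8g) (hh : G.StC8h) (hi : G.StC8i) : G.StC8 := by
  classical
  intro Fa hG x hx hxh
  change G.ask Fa x ≤ _
  have h9 := hG.g5.n9
  -- payments to ETA
  by_cases c1 : ∃ l, ∃ B b q p, G.Eta Fa B l x b q p ∧ G.ch5 Fa l < 0 ∧ G.ch5 Fa b < 2
  · obtain ⟨l, B, b, q, p, e1, e2, e3⟩ := c1
    exact hh Fa hG B l x b q p e1 e2 e3
  -- payments to T6
  by_cases c2 : ∃ l, G.HS Fa l x ∨ (G.HD Fa l x ∧ ∃ l' q p u v w, G.T6s Fa l l' q p u v w)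
  · exact hi Fa hG x hx hxh c2
  have hHD : ∀ l, ¬ G.HD Fa l x := by
    intro l hl
    rcases hl with ⟨h, e1, e2⟩ | ⟨_, h, e1, e2, e3, e4, e5, e6, e7, e8⟩
    · exact c1 ⟨l, _, _, _, _, h, e1, e2⟩
    · exact c2 ⟨l, Or.inr ⟨HD.ast x h e1 e2 e3 e4 e5 e6 e7 e8, _, _, _, _, _, _, h⟩⟩
  have hHS : ∀ l, ¬ G.HS Fa l x := fun l hl => c2 ⟨l, Or.inl hl⟩
  by_cases hk : (G.I Fa x).card ≤ 1
  · have hacc := hub_acc76 (Fa := Fa) hx hxh hk
    rw [filter_false_of_mem fun l _ => hHD l, filter_false_of_mem fun l _ => hHS l,
      card_empty] at hacc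
    by_cases hk1 : (G.I Fa x).card = 1
    · obtain ⟨e, hE⟩ := hb Fa hG x hx hxh hk1
      have := one_full76 hE
      rw [hk1] at hacc
      push_cast at hacc
      omega
    · have hI : G.I Fa x = ∅ := card_eq_zero.1 (by omega)
      rcases hd Fa hG x hx hxh hI with ⟨e, e', f1, f2, f3, f4⟩ | ⟨e, hs, q, hq⟩
      · have := two_full76 f1 f2 f3 f4 h9
        rw [hI, card_empty] at hacc
        push_cast at hacc
        omega
      · exfalso
        obtain ⟨p, hqp⟩ := hq.2.1
        have huniq : ∀ q', G.PQ Fa q' x → q' = q ∨ q' = p := by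
          intro q' hq'
          by_cases e1 : q' = q
          · exact Or.inl e1
          · exact Or.inr ((stTwHL_5 G).uniq h9 q q' p (he Fa hG x e hs q q' hq hq' (Ne.symm e1))
              hqp)
        have hfil : ∀ s : Finset V, G.nb q = s → G.tl Fa q = (s.filter fun u => G.Low u).card := by
          intro s hs'
          rw [tl, nR_eq76 hq.1 hq.2.2.1, hs']
        have hpl : ¬ G.Low p := tw_not_low76 (tw_of76' hqp)
        rcases h1.poor Fa hG q hq.1 p hqp hq.2.2.1 hq.2.2.2.1 with
          ⟨l, l', a, b, c, d, e1, e2, e3, e4, e5, e6, e7⟩ |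
          ⟨l, l', a, b, c, d, e1, e2, e3, e4, e5, e6⟩ |
          ⟨l, l', l'', a, b, c, e1, e2, e3, e4, e5, e6, e7⟩
        · refine hf Fa hG x e hs q p hqp hq huniq ?_
          have hcard : (G.nb q).card = 7 := hqp.2.1
          rw [e1] at hcard
          have hne : l ≠ l' := by
            rintro rfl
            have : ({p, l, l, a, b, c, d} : Finset V) = {p, l, a, b, c, d} := by
              ext u; simp
            rw [this] at hcard
            have := card_le_six (a := p) (b := l) (c := a) (d := b) (e := c) (f := d)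
            omega
          rw [hfil _ e1, filter_insert, if_neg hpl, filter_insert, if_pos e2, filter_insert,
            if_pos e3, filter_insert, if_neg e4.1, filter_insert, if_neg e5.1, filter_insert,
            if_neg e6.1, filter_singleton, if_neg e7.1, insert_empty_eq, card_pair hne]
        · refine hf Fa hG x e hs q p hqp hq huniq ?_
          have hcard : (G.nb q).card = 7 := hqp.2.1
          rw [e1] at hcard
          have hne : l ≠ l' := by
            rintro rfl
            have : ({p, l, l, a, b, c, d} : Finset V) = {p, l, a, b, c, d} := by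
              ext u; simp
            rw [this] at hcard
            have := card_le_six (a := p) (b := l) (c := a) (d := b) (e := c) (f := d)
            omega
          have ha : ¬ G.Low a := tw_not_low76 ⟨_, e4⟩
          have hb' : ¬ G.Low b := tw_not_low76 (tw_of76' e4)
          rw [hfil _ e1, filter_insert, if_neg hpl, filter_insert, if_pos e2, filter_insert,
            if_pos e3, filter_insert, if_neg ha, filter_insert, if_neg hb', filter_insert,
            if_neg e5.1, filter_singleton, if_neg e6.1, insert_empty_eq, card_pair hne]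
        · refine hg Fa hG x e hs q p hqp hq huniq ?_
          have hcard : (G.nb q).card = 7 := hqp.2.1
          rw [e1] at hcard
          have key : ({p, l, l', l'', a, b, c} : Finset V).card = 7 → l ≠ l' ∧ l ≠ l'' ∧
              l' ≠ l'' := by
            intro h
            have hs6 : ∀ s : Finset V, ({p, l, l', l'', a, b, c} : Finset V) = s →
                s.card ≤ 6 → False := by
              intro s e1 e2
              rw [e1] at h
              omega
            refine ⟨?_, ?_, ?_⟩
            · rintro rfl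
              exact hs6 {p, l, l'', a, b, c} (by ext u; simp) card_le_six
            · rintro rfl
              exact hs6 {p, l, l', a, b, c} (by ext u; simp; tauto) card_le_six
            · rintro rfl
              exact hs6 {p, l, l', a, b, c} (by ext u; simp) card_le_six
          obtain ⟨n1, n2, n3⟩ := key hcard
          rw [hfil _ e1, filter_insert, if_neg hpl, filter_insert, if_pos e2, filter_insert,
            if_pos e3, filter_insert, if_pos e4, filter_insert, if_neg e5.1, filter_insert,
            if_neg e6.1, filter_singleton, if_neg e7.1, insert_empty_eq,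
            card_insert_of_notMem (by simp [n1, n2]), card_pair n3]
  · have h2 := (stCh5_28 G).hub2 Fa x hx hxh (by omega)
    have h3 : G.ask Fa x = 0 := by
      refine sum_eq_zero fun z _ => ?_
      rw [dn5_hub76 hxh, if_neg (fun h => by have := h.lR.2.2.1.2.1; omega),
        if_neg (hHD z), if_neg (hHS z), if_neg (fun h => by
          have h4 := h.2.2.2.2
          rw [NH, mem_filter] at h4
          omega)]
      ring
    rw [h3, h2]
    have h4 : (2 : ℤ) ≤ ((G.I Fa x).card : ℤ) := by exact_mod_cast (by omega)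
    linarith

end CG

end Pool.Agent.Lib.MP_e95c01_co.N
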