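import Pool.Agent.Lib.MP_e95c01_co.X.AuxT76

/-!
# `λ = 3`, thick torsos: the type `T6`, the parts (a), np, dbl
-/

namespace Pool.Agent.Lib.MP_e95c01_co.N

open Finset

variable {V : Type} [Fintype V] [DecidableEq V]

namespace CG

variable {G : CG V} {Fa : Finset (Finset V)}

namespace T6b85

/-! ### covers at a low vertex of type `T6` -/

theorem mem6 {l l' q p x y z : V} (h : G.T6s Fa l l' q p x y z) {u : V} (hu : u ∈ G.nb l) :
    u = l' ∨ u = q ∨ u = p ∨ u = x ∨ u = y ∨ u = z := by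
  rw [h.nb] at hu
  simpa only [mem_insert, mem_singleton] using hu

theorem hub6 {l l' q p x y z : V} (h : G.T6s Fa l l' q p x y z) {u : V}
    (hu : u = x ∨ u = y ∨ u = z) : G.PH Fa l u ∧ u ∈ G.nb l := by
  rw [h.nb]
  rcases hu with rfl | rfl | rfl
  · exact ⟨h.hx, by simp⟩
  · exact ⟨h.hy, by simp⟩
  · exact ⟨h.hz, by simp⟩

theorem low6 {l l' q p x y z : V} (h : G.T6s Fa l l' q p x y z) {u : V} (hu : u ∈ G.nb l)
    (hl : G.Low u) : u = l' := by
  rcases mem6 h hu with h1 | h1 | h1 | h1 | h1 | h1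
  · exact h1
  · exact absurd hl (by rw [h1]; exact tw_not_low76 (tw_of76 h.t))
  · exact absurd hl (by rw [h1]; exact tw_not_low76 (tw_of76' h.t))
  · exact absurd hl (by rw [h1]; exact h.hx.1.1)
  · exact absurd hl (by rw [h1]; exact h.hy.1.1)
  · exact absurd hl (by rw [h1]; exact h.hz.1.1)

theorem tw6 {l l' q p x y z : V} (h : G.T6s Fa l l' q p x y z) {u : V} (hu : u ∈ G.nb l)
    (ht : G.IsTw u) : u = q ∨ u = p := by
  rcases mem6 h hu with h1 | h1 | h1 | h1 | h1 | h1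
  · exact absurd h.low' (by rw [← h1]; exact tw_not_low76 ht)
  · exact Or.inl h1
  · exact Or.inr h1
  · exact absurd ht (by rw [h1]; exact h.hx.1.2)
  · exact absurd ht (by rw [h1]; exact h.hy.1.2)
  · exact absurd ht (by rw [h1]; exact h.hz.1.2)

theorem noHL6 (h9 : 9 ≤ Fintype.card V) {l l' q p x y z : V} (h : G.T6s Fa l l' q p x y z)
    {a b : V} (ha : a ∈ G.nb l) : ¬ G.HL a b l := by
  intro hc
  have h1 := HL_hubT76 h9 hc
  rcases mem6 h ha with h2 | h2 | h2 | h2 | h2 | h2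
  · exact h1.1 (by rw [h2]; exact h.low')
  · exact h1.2 (by rw [h2]; exact tw_of76 h.t)
  · exact h1.2 (by rw [h2]; exact tw_of76' h.t)
  · exact h.hx.2.2 ⟨b, by rw [← h2]; exact hc⟩
  · exact h.hy.2.2 ⟨b, by rw [← h2]; exact hc⟩
  · exact h.hz.2.2 ⟨b, by rw [← h2]; exact hc⟩

theorem ql6 {l l' q p x y z : V} (h : G.T6s Fa l l' q p x y z) : q ∈ G.nb l := by
  rw [h.nb]; simp

theorem pl6 {l l' q p x y z : V} (h : G.T6s Fa l l' q p x y z) : p ∈ G.nb l := by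
  rw [h.nb]; simp

theorem ll6 {l l' q p x y z : V} (h : G.T6s Fa l l' q p x y z) : l' ∈ G.nb l := by
  rw [h.nb]; simp

/-- an edge from `q` or `p` is an edge from `q` -/
theorem toq6 {q p v w u : V} (h : G.Tw q p) (h9 : 9 ≤ Fintype.card V) (hv : v = q ∨ v = p)
    (hvw : G.Tw v w) (h1 : u ∈ G.nb v) (h2 : u ∈ G.nb w) : u ∈ G.nb q := by
  rcases hv with rfl | rfl
  · exact h1
  · rwa [(stTwHL_5 G).uniq h9 _ _ _ hvw (tw_symm76 h)] at h2

/-- covers of the hubs at `l` -/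
theorem cov6 (hG : G.Gen6 Fa) {l l' q p x y z : V} (h : G.T6s Fa l l' q p x y z) {u : V}
    (hu : u = x ∨ u = y ∨ u = z) : u ∈ G.nb l' ∨ u ∈ G.nb q ∨ ∃ b ∈ R Fa, G.LL l' b l u := by
  have h9 := hG.g5.n9
  obtain ⟨hp, hul⟩ := hub6 h hu
  rcases cov3_76 (qs16 G) (tor86 hG.g5) h.lR (mem_nR76.2 ⟨hul, nb_R76 h.lR h.I0 hul⟩)
    (m_empty5 h.I0) with h1 | h1 | h1 | h1 | h1
  · obtain ⟨w, h2, -, h3, h4⟩ := h1
    rw [low6 h (mem_nR76.1 h2).1 h3] at h4
    exact Or.inl h4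
  · obtain ⟨v, w, h2, h3, h4, h5, h6⟩ := h1
    exact Or.inr (Or.inl (toq6 h.t h9 (tw6 h (mem_nR76.1 h2).1 ⟨w, h4⟩) h4 h5 h6))
  · obtain ⟨a, b, h2, -, -, h3, -⟩ := h1
    exact absurd h3 (noHL6 h9 h (mem_nR76.1 h2).1)
  · obtain ⟨a, b, -, -, h2, -⟩ := h1
    exact absurd h2 hp.1.1
  · obtain ⟨a, b, h2, h3, -, h4⟩ := h1
    rw [low6 h (mem_nR76.1 h2).1 h4.1] at h4
    exact Or.inr (Or.inr ⟨b, h3, h4⟩)

theorem adj6 (hG : G.Gen6 Fa) {l l' q p x y z : V} (h : G.T6s Fa l l' q p x y z) :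
    l' ∈ G.nb q := by
  have h9 := hG.g5.n9
  rcases cov3_76 (qs16 G) (tor86 hG.g5) h.lR (mem_nR76.2 ⟨ll6 h, nb_R76 h.lR h.I0 (ll6 h)⟩)
    (m_empty5 h.I0) with h1 | h1 | h1 | h1 | h1
  · obtain ⟨w, h2, -, h3, h4⟩ := h1
    rw [low6 h (mem_nR76.1 h2).1 h3] at h4
    exact absurd h4 (G.irr l')
  · obtain ⟨v, w, h2, h3, h4, h5, h6⟩ := h1
    exact toq6 h.t h9 (tw6 h (mem_nR76.1 h2).1 ⟨w, h4⟩) h4 h5 h6
  · obtain ⟨a, b, h2, -, -, h3, -⟩ := h1
    exact absurd h3 (noHL6 h9 h (mem_nR76.1 h2).1)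
  · obtain ⟨a, b, h2, -, -, h3, -⟩ := h1
    rw [low6 h (mem_nR76.1 h2).1 h3.2.1] at h3
    exact absurd rfl (HL_bt76 h3).2
  · obtain ⟨a, b, h2, h3, -, h4⟩ := h1
    rw [low6 h (mem_nR76.1 h2).1 h4.1] at h4
    exact absurd rfl (LL_ua76 h4).2

/-- all six neighbours are different -/
theorem nd6 {l l' q p x y z : V} (h : G.T6s Fa l l' q p x y z) :
    ({l', q, p, x, y, z} : Finset V).card = 6 := by
  rw [← h.nb]
  exact h.low

theorem ne6 {l l' q p x y z : V} (h : G.T6s Fa l l' q p x y z) : x ≠ y ∧ x ≠ z ∧ y ≠ z := by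
  have hn := nd6 h
  refine ⟨?_, ?_, ?_⟩
  · rintro rfl
    rw [insert_idem] at hn
    have h3 := Finset.card_le_five (a := l') (b := q) (c := p) (d := x) (e := z)
    omega
  · rintro rfl
    rw [insert_eq_of_mem (show x ∈ ({y, x} : Finset V) by simp)] at hn
    have h3 := Finset.card_le_five (a := l') (b := q) (c := p) (d := y) (e := x)
    omega
  · rintro rfl
    rw [insert_eq_of_mem (show y ∈ ({y} : Finset V) by simp)] at hn
    have h3 := Finset.card_le_five (a := l') (b := q) (c := p) (d := x) (e := y)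
    omega

/-- not all three hubs are covered by `l'` -/
theorem three6 (hG : G.Gen6 Fa) {l l' q p x y z : V} (h : G.T6s Fa l l' q p x y z)
    (hI : (G.I Fa l').Nonempty)
    (hc : ∀ u, u = x ∨ u = y ∨ u = z → u ∈ G.nb l' ∨ ∃ b ∈ R Fa, G.LL l' b l u) : False := by
  classical
  obtain ⟨B, hB⟩ := hI
  obtain ⟨hB1, hB2⟩ := mem_I76.1 hB
  obtain ⟨-, v, hv, hv2⟩ := mem_N76.1 hB2
  have hvl : v ∈ G.nb l' := G.sym _ _ hv2
  have hR : ∀ u ∈ R Fa, u ≠ v := by
    rintro u hu rfl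
    exact mem_R76.1 hu B hB1 hv
  have h1 : ∀ u, u = x ∨ u = y ∨ u = z → ∃ e, e ∈ G.nb l' ∧ e ∈ R Fa ∧ e ≠ l ∧ e ≠ q ∧ e ≠ p ∧
      (e = u ∨ (G.Low e ∧ G.LL l' e l u)) := by
    intro u hu
    obtain ⟨hp, hul⟩ := hub6 h hu
    rcases hc u hu with h2 | ⟨b, h2, h3⟩
    · refine ⟨u, h2, nb_R76 h.lR h.I0 hul, (ne_of_nb5 hul).symm, ?_, ?_, Or.inl rfl⟩
      · rintro rfl
        exact hp.1.2 (tw_of76 h.t)
      · rintro rfl
        exact hp.1.2 (tw_of76' h.t)
    · refine ⟨b, LL_ab76 h3, h2, (LL_tb76 h3).2.symm, ?_, ?_, Or.inr ⟨h3.2.1, h3⟩⟩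
      · rintro rfl
        exact tw_not_low76 (tw_of76 h.t) h3.2.1
      · rintro rfl
        exact tw_not_low76 (tw_of76' h.t) h3.2.1
  obtain ⟨e, e1, e2, e3, e4, e5, e6⟩ := h1 x (Or.inl rfl)
  obtain ⟨f, f1, f2, f3, f4, f5, f6⟩ := h1 y (Or.inr (Or.inl rfl))
  obtain ⟨g, g1, g2, g3, g4, g5, g6⟩ := h1 z (Or.inr (Or.inr rfl))
  have hxy := ne6 h
  have key : ∀ {u w e f : V}, u ≠ w → G.Hub u → G.Hub w → (e = u ∨ (G.Low e ∧ G.LL l' e l u)) →
      (f = w ∨ (G.Low f ∧ G.LL l' f l w)) → e ≠ f := by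
    rintro u w e f huw hu hw (rfl | ⟨h2, h3⟩) (rfl | ⟨h4, h5⟩)
    · exact huw
    · rintro rfl
      exact hu.1 h4
    · rintro rfl
      exact hw.1 h2
    · rintro rfl
      apply huw
      have h6 : u ∈ insert u (G.cl l') := mem_insert_self _ _
      rw [h3.2.2.2.2.2.2, ← h5.2.2.2.2.2.2, mem_insert] at h6
      rcases h6 with h6 | h6
      · exact h6
      · exact absurd h6 h3.2.2.2.2.2.1
  have k1 := key hxy.1 h.hx.1 h.hy.1 e6 f6
  have k2 := key hxy.2.1 h.hx.1 h.hz.1 e6 g6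
  have k3 := key hxy.2.2 h.hy.1 h.hz.1 f6 g6
  have hlR := h.lR
  have hqR := nb_R76 h.lR h.I0 (ql6 h)
  have hpR := nb_R76 h.lR h.I0 (pl6 h)
  have hqp : q ≠ p := ne_of_nb5 h.t.1
  have hlq : l ≠ q := ne_of_nb5 (ql6 h)
  have hlp : l ≠ p := ne_of_nb5 (pl6 h)
  have ql : q ∈ G.nb l' := G.sym _ _ (adj6 hG h)
  have hpl' : l' ≠ p := fun e => tw_not_low76 (tw_of76' h.t) (by rw [← e]; exact h.low')
  have pl : p ∈ G.nb l' := G.sym _ _ (Tw_nb5 h.t (adj6 hG h) hpl')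
  have ll : l ∈ G.nb l' := G.sym _ _ (ll6 h)
  have hs : ({l, q, p, e, f, g, v} : Finset V) ⊆ G.nb l' := by
    intro u hu
    simp only [mem_insert, mem_singleton] at hu
    rcases hu with rfl | rfl | rfl | rfl | rfl | rfl | rfl
    exacts [ll, ql, pl, e1, f1, g1, hvl]
  have hc7 : ({l, q, p, e, f, g, v} : Finset V).card = 7 := by
    rw [card_insert_of_notMem, card_insert_of_notMem, card_insert_of_notMem,
      card_insert_of_notMem, card_insert_of_notMem, card_insert_of_notMem, card_singleton]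
    · rw [mem_singleton]; exact hR g g2
    · simp only [mem_insert, mem_singleton, not_or]; exact ⟨k3, hR f f2⟩
    · simp only [mem_insert, mem_singleton, not_or]; exact ⟨k1, k2, hR e e2⟩
    · simp only [mem_insert, mem_singleton, not_or]
      exact ⟨e5.symm, f5.symm, g5.symm, hR p hpR⟩
    · simp only [mem_insert, mem_singleton, not_or]
      exact ⟨hqp, e4.symm, f4.symm, g4.symm, hR q hqR⟩
    · simp only [mem_insert, mem_singleton, not_or]
      exact ⟨hlq, hlp, e3.symm, f3.symm, g3.symm, hR l hlR⟩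
  have h6 : (G.nb l').card = 6 := h.low'
  have h7 := card_le_card hs
  omega

/-! ### flags -/

theorem fl_ge85 {B : Finset V} (hF : G.Frag B) {z : V} (hl : G.Low z) :
    -2 ≤ G.flv (G.Co B) z - G.flv B z := by
  have e1 := dg16 G B z
  have e2 : (G.nb z).card = 6 := hl
  have x1 : (G.pX (G.Co B) z).card = (G.pO B z).card := by rw [pX_co16]
  have x2 : (G.pT (G.Co B) z).card = (G.pT B z).card := by rw [pT_co16 hF]
  have s1 := (s5_nn16 G (G.Co B) z).1
  have s2 := (s5_nn16 G B z).2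
  have s3 : G.s5 B z = 0 ∨ ((G.pX B z).card = 2 ∧ (G.pT B z).card = 1) := by
    by_cases h : G.s5 B z = 0
    · exact Or.inl h
    · obtain ⟨v, hv⟩ := s5_type16 h
      exact Or.inr ⟨(S0_type16 hv).2.2.1, (S0_type16 hv).2.2.2.1⟩
  rw [flv_low16 hl, flv_low16 hl]
  by_cases hU : G.U3 B z
  · have u := U3_type16 hU
    have h1 : ¬ G.T3 (G.Co B) z := fun h => by have := (T3_type16 h).2.1; omega
    have h2 : ¬ G.HF (G.Co B) z := fun h => by have := (HF_type16 h).2.1; omega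
    rw [if_neg h1, if_neg h2, if_pos hU]
    split_ifs <;> omega
  · rw [if_neg hU]
    by_cases h1 : G.T3 (G.Co B) z
    · have t := T3_type16 h1
      have h2 : ¬ G.HF (G.Co B) z := fun h => by have := (HF_type16 h).2.1; omega
      rw [if_pos h1, if_neg h2]
      split_ifs <;> omega
    · rw [if_neg h1]
      by_cases h2 : G.HF (G.Co B) z
      · have t := HF_type16 h2
        rw [if_pos h2]
        split_ifs <;> omega
      · rw [if_neg h2]
        split_ifs <;> omega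

theorem fg_ge85 (hr : G.Reg Fa) {z : V} (hl : G.Low z) :
    -2 * ((G.I Fa z).card : ℤ) ≤ G.fg5 Fa z := by
  rw [fg5]
  have h1 : ∑ B ∈ G.I Fa z, (-2 : ℤ) ≤ ∑ B ∈ G.I Fa z, (G.flv (G.Co B) z - G.flv B z) :=
    sum_le_sum fun B hB => fl_ge85 (hr.frag B (mem_I76.1 hB).1) hl
  rw [sum_const, nsmul_eq_mul] at h1
  linarith

/-! ### the pair of twins in one neighbourhood that does not help -/

/-- the structure of the pair -/
structure QS85 (G : CG V) (Fa : Finset (Finset V)) (B : Finset V) (l l' q p h h' : V) : Prop where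
  ne : h ≠ h'
  l'N : l' ∈ G.N B
  pN : p ∈ G.N B
  vis : G.nR Fa q = {p, l, l', h, h'}
  out : G.nb q ∩ G.Co B = {l, h, h'}
  top : G.nb q ∩ G.N B = {p, l'}
  hub : G.Hub h
  hub' : G.Hub h'
  kh : (G.I Fa h).card ≤ 1
  kh' : (G.I Fa h').card ≤ 1

theorem qs85 (hG : G.Gen6 Fa) {l l' q p x y z : V} (h : G.T6s Fa l l' q p x y z)
    {B : Finset V} (hI : G.I Fa q = {B}) (hc : G.ch5 Fa q ≤ 0) :
    ∃ h h', QS85 G Fa B l l' q p h h' := by
  classical
  have h9 := hG.g5.n9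
  have hr := hG.g5.reg
  have hqR := nb_R76 h.lR h.I0 (ql6 h)
  have hlR := h.lR
  have hl'R := nb_R76 h.lR h.I0 (ll6 h)
  have hq : G.IsTw q := tw_of76 h.t
  have hB : B ∈ G.I Fa q := hI ▸ mem_singleton_self B
  have hpI := (stTwHL_5 G).twI Fa hr q hqR p h.t
  have hpN : p ∈ G.N B := (mem_I76.1 (by rw [hpI.2]; exact hB)).2
  have hqN : q ∈ G.N B := (mem_I76.1 hB).2
  have hid := (stTwHL_5 G).hid Fa hr hG.g5.big q hqR hq B hB
  have he1 := e1q_86 hG.g5 h.t hqR hI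
  have hsp := d_split76 (G := G) q B
  have h7 := tw_card11 hq
  have hnR := nR_one50 hr hqR hI
  have hdN : G.d q (G.N B) = (G.nb q ∩ G.N B).card := rfl
  have hch := (stCh5_28 G).tw1 h9 Fa hr q hqR hq B hI
  have hlq : l ∈ G.nb q := G.sym _ _ (ql6 h)
  have hl'q : l' ∈ G.nb q := adj6 hG h
  have hll' : l ≠ l' := ne_of_nb5 (ll6 h)
  have hpl : p ≠ l := (ne_of_nb5 (pl6 h)).symm
  have hpl' : p ≠ l' := fun e => tw_not_low76 (tw_of76' h.t) (by rw [e]; exact h.low')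
  have hlN : l ∉ G.N B := by
    intro h1
    have : B ∈ G.I Fa l := mem_I76.2 ⟨(mem_I76.1 hB).1, h1⟩
    rw [h.I0] at this
    simp at this
  have hlC : l ∈ G.Co B := mem_Co76.2 ⟨mem_R76.1 hlR B (mem_I76.1 hB).1, hlN⟩
  have hpnb : p ∈ G.nb q ∩ G.N B := mem_inter.2 ⟨h.t.1, hpN⟩
  have m1 : G.m Fa l q = 0 := m_empty5 h.I0
  have n1 : l ∈ G.NO Fa q := by
    rw [NO, mem_filter]
    exact ⟨mem_nR76.2 ⟨hlq, hlR⟩, h.low, m1⟩
  have hsub : G.NH Fa q ⊆ (((G.nR Fa q).erase p).erase l).erase l' := by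
    intro u hu
    rw [NH, mem_filter] at hu
    rw [mem_erase, mem_erase, mem_erase]
    refine ⟨?_, ?_, ?_, hu.1⟩
    · rintro rfl
      exact hu.2.1.1 h.low'
    · rintro rfl
      exact hu.2.1.1 h.low
    · rintro rfl
      exact hu.2.1.2 (tw_of76' h.t)
  have hpR : p ∈ G.nR Fa q := mem_nR76.2 ⟨h.t.1, hpI.1⟩
  have hc3 : ((((G.nR Fa q).erase p).erase l).erase l').card + 3 = (G.nR Fa q).card := by
    have a1 : l ∈ (G.nR Fa q).erase p := mem_erase.2 ⟨hpl.symm, mem_nR76.2 ⟨hlq, hlR⟩⟩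
    have a2 : l' ∈ ((G.nR Fa q).erase p).erase l :=
      mem_erase.2 ⟨hll'.symm, mem_erase.2 ⟨hpl'.symm, mem_nR76.2 ⟨hl'q, hl'R⟩⟩⟩
    have b1 := card_erase_add_one hpR
    have b2 := card_erase_add_one a1
    have b3 := card_erase_add_one a2
    omega
  have hNH := card_le_card hsub
  have hfg : G.fg5 Fa q = -(if G.RF (G.Co B) q then 1 else 0) + (if G.RF B q then 1 else 0) := by
    rw [K28.fg_single hI, flv_nl16 (tw_not_low76 hq), flv_nl16 (tw_not_low76 hq)]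
    ring
  have hRF : G.RF (G.Co B) q → G.d q (G.Co B) = 4 := fun h1 => (RF_type16 h1).2.2.1
  have hf1 : -1 ≤ G.fg5 Fa q := by
    rw [hfg]
    split_ifs <;> norm_num
  have hf0 : G.d q (G.Co B) = 3 → 0 ≤ G.fg5 Fa q := by
    intro h1
    rw [hfg, if_neg (fun h2 => by have := hRF h2; omega)]
    split_ifs <;> norm_num
  have htp : 1 ≤ (G.nb q ∩ G.N B).card := card_pos.2 ⟨p, hpnb⟩
  by_cases hl'N : l' ∈ G.N B
  · have ht2 : 2 ≤ (G.nb q ∩ G.N B).card :=
      two_le5 hpnb (mem_inter.2 ⟨hl'q, hl'N⟩) hpl'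
    have hBl' : B ∈ G.I Fa l' := mem_I76.2 ⟨(mem_I76.1 hB).1, hl'N⟩
    have m2 : G.m Fa l' q ≠ 0 := by
      rw [m, ← Nat.pos_iff_ne_zero, card_pos]
      exact ⟨B, mem_inter.2 ⟨hBl', hB⟩⟩
    have n2 : l' ∈ G.NT Fa q := by
      rw [NT, mem_filter]
      refine ⟨mem_nR76.2 ⟨hl'q, hl'R⟩, h.low', m2, Or.inr (Or.inr ⟨l, mem_nR76.2 ⟨hlq, hlR⟩, ?_,
        Or.inl (G.sym _ _ (ll6 h))⟩)⟩
      rw [m, h.I0, inter_empty, card_empty]
    have c1 : 1 ≤ (G.NO Fa q).card := card_pos.2 ⟨l, n1⟩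
    have c2 : 1 ≤ (G.NT Fa q).card := card_pos.2 ⟨l', n2⟩
    have r3 : G.d q (G.Co B) = 3 := by omega
    have t2 : (G.nb q ∩ G.N B).card = 2 := by omega
    have hf := hf0 r3
    rw [r3, hdN, t2] at hch
    have v5 : (G.nR Fa q).card = 5 := by omega
    have hH2 : (G.NH Fa q).card = 2 := by
      push_cast at hch
      omega
    obtain ⟨a, b, hab, hNHeq⟩ := card_eq_two.1 hH2
    have ha : a ∈ G.NH Fa q := by rw [hNHeq]; simp
    have hb : b ∈ G.NH Fa q := by rw [hNHeq]; simp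
    have hE : G.NH Fa q = (((G.nR Fa q).erase p).erase l).erase l' :=
      eq_of_subset_of_card_le hsub (by omega)
    have hvis : G.nR Fa q = {p, l, l', a, b} := by
      have a1 : l ∈ (G.nR Fa q).erase p := mem_erase.2 ⟨hpl.symm, mem_nR76.2 ⟨hlq, hlR⟩⟩
      have a2 : l' ∈ ((G.nR Fa q).erase p).erase l :=
        mem_erase.2 ⟨hll'.symm, mem_erase.2 ⟨hpl'.symm, mem_nR76.2 ⟨hl'q, hl'R⟩⟩⟩
      rw [← insert_erase hpR, ← insert_erase a1, ← insert_erase a2, ← hE, hNHeq]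
    have ha' := (mem_filter.1 (show a ∈ (G.nR Fa q).filter fun x => G.Hub x ∧
      (G.I Fa x).card ≤ 1 from ha)).2
    have hb' := (mem_filter.1 (show b ∈ (G.nR Fa q).filter fun x => G.Hub x ∧
      (G.I Fa x).card ≤ 1 from hb)).2
    have htop : G.nb q ∩ G.N B = {p, l'} := by
      symm
      refine eq_of_subset_of_card_le ?_ ?_
      · intro u hu
        rw [mem_insert, mem_singleton] at hu
        rcases hu with rfl | rfl
        · exact hpnb
        · exact mem_inter.2 ⟨hl'q, hl'N⟩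
      · rw [t2, card_pair hpl']
    refine ⟨a, b, hab, hl'N, hpN, hvis, ?_, htop, ha'.1, hb'.1, ha'.2, hb'.2⟩
    refine eq_of_subset_of_card_le ?_ ?_
    · intro u hu
      have h1 : u ∈ G.nR Fa q := nR_Co5 hqR hI hu
      rw [hvis] at h1
      have h2 := (mem_Co76.1 (mem_inter.1 hu).2).2
      simp only [mem_insert, mem_singleton] at h1 ⊢
      rcases h1 with rfl | rfl | rfl | rfl | rfl
      · exact absurd hpN h2
      · exact Or.inl rfl
      · exact absurd hl'N h2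
      · exact Or.inr (Or.inl rfl)
      · exact Or.inr (Or.inr rfl)
    · have h1 := card_le_three (a := l) (b := a) (c := b)
      have h2 : (G.nb q ∩ G.Co B).card = 3 := r3
      omega
  · exfalso
    have m2 : G.m Fa l' q = 0 := by
      rw [m, hI, card_eq_zero, ← not_nonempty_iff_eq_empty]
      rintro ⟨A, hA⟩
      rw [mem_inter, mem_singleton] at hA
      exact hl'N (by have := (mem_I76.1 hA.1).2; rwa [hA.2] at this)
    have n2 : l' ∈ G.NO Fa q := by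
      rw [NO, mem_filter]
      exact ⟨mem_nR76.2 ⟨hl'q, hl'R⟩, h.low', m2⟩
    have c1 : 2 ≤ (G.NO Fa q).card := two_le5 n1 n2 hll'
    rw [hdN] at hch
    have r34 : G.d q (G.Co B) = 3 ∨ G.d q (G.Co B) = 4 := by omega
    rcases r34 with r | r
    · have hf := hf0 r
      omega
    · omega

/-- part (a) -/
theorem a85 (hG : G.Gen6 Fa) {l l' q p x y z : V} (h : G.T6s Fa l l' q p x y z)
    (hk : (G.I Fa q).card = 1) (hN : G.NoQ Fa l q) :
    ∃ g ∈ G.nb l, g ∈ G.nb q ∧ G.Hub g ∧ G.I Fa g = ∅ := by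
  obtain ⟨B, hI⟩ := card_eq_one.1 hk
  have hc : G.ch5 Fa q ≤ 0 := by
    rcases hN.2 with h1 | h1
    · rw [h1] at hk
      simp at hk
    · exact h1
  obtain ⟨a, b, S⟩ := qs85 hG h hI hc
  have hqR := nb_R76 h.lR h.I0 (ql6 h)
  have hin : ∀ u, u ∈ G.nR Fa q → u ∈ G.nb q := fun u hu => (mem_nR76.1 hu).1
  have haq : a ∈ G.nb q := hin a (by rw [S.vis]; simp)
  have hbq : b ∈ G.nb q := hin b (by rw [S.vis]; simp)
  have key : ∀ g, g ∈ G.nb l → g ∈ G.nb q → G.Hub g → (G.I Fa g).card ≤ 1 → G.I Fa g = ∅ := by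
    intro g h1 h2 h3 h4
    have h5 := hN.1 hk g h1 h2 h3
    exact card_eq_zero.1 (by omega)
  by_cases h1 : a ∈ G.nb l
  · exact ⟨a, h1, haq, S.hub, key a h1 haq S.hub S.kh⟩
  by_cases h2 : b ∈ G.nb l
  · exact ⟨b, h2, hbq, S.hub', key b h2 hbq S.hub' S.kh'⟩
  exfalso
  refine three6 hG h ⟨B, mem_I76.2 ⟨(mem_I76.1 (hI ▸ mem_singleton_self B : B ∈ G.I Fa q)).1,
    S.l'N⟩⟩ fun u hu => ?_
  obtain ⟨hp, hul⟩ := hub6 h hu
  rcases cov6 hG h hu with h3 | h3 | h3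
  · exact Or.inl h3
  · exfalso
    have h4 : u ∈ G.nR Fa q := mem_nR76.2 ⟨h3, nb_R76 h.lR h.I0 hul⟩
    rw [S.vis] at h4
    simp only [mem_insert, mem_singleton] at h4
    rcases h4 with rfl | rfl | rfl | rfl | rfl
    · exact hp.1.2 (tw_of76' h.t)
    · exact hp.1.1 h.low
    · exact hp.1.1 h.low'
    · exact h1 hul
    · exact h2 hul
  · exact Or.inr h3

/-! ### the low neighbour -/

theorem d_tw85 {q p : V} (h : G.Tw q p) {S : Finset V} (h1 : q ∉ S) (h2 : p ∉ S) :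
    G.d p S = G.d q S := by
  rw [d, d]
  congr 1
  ext u
  rw [mem_inter, mem_inter]
  constructor
  · rintro ⟨h3, h4⟩
    exact ⟨(q_nb_iff76 (qs16 G) h (fun e => h1 (e ▸ h4)) (fun e => h2 (e ▸ h4))).2 h3, h4⟩
  · rintro ⟨h3, h4⟩
    exact ⟨(q_nb_iff76 (qs16 G) h (fun e => h1 (e ▸ h4)) (fun e => h2 (e ▸ h4))).1 h3, h4⟩

/-- data of the low neighbour if the pair is in one neighbourhood and does not help -/
structure LS85 (G : CG V) (Fa : Finset (Finset V)) (B : Finset V) (l l' q p : V) : Prop where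
  r2 : 2 ≤ G.d l' (G.Co B)
  nf : l ∈ G.NF Fa l'
  np : 2 ≤ (G.NP Fa l').card
  fg : 0 ≤ G.fg5 Fa l'
  nq : ∃ w ∈ G.nb l' ∩ G.Co B, w ∉ G.nb q ∩ G.Co B

theorem ls85 (hG : G.Gen6 Fa) {l l' q p x y z : V} (h : G.T6s Fa l l' q p x y z)
    {B : Finset V} (hI : G.I Fa q = {B}) {a b : V} (S : QS85 G Fa B l l' q p a b)
    (hI' : G.I Fa l' = {B}) : LS85 G Fa B l l' q p := by
  classical
  have h9 := hG.g5.n9
  have hr := hG.g5.reg
  have hqR := nb_R76 h.lR h.I0 (ql6 h)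
  have hl'R := nb_R76 h.lR h.I0 (ll6 h)
  have hq : G.IsTw q := tw_of76 h.t
  have hBq : B ∈ G.I Fa q := hI ▸ mem_singleton_self B
  have hBF := (mem_I76.1 hBq).1
  have hqN : q ∈ G.N B := (mem_I76.1 hBq).2
  have hpI := (stTwHL_5 G).twI Fa hr q hqR p h.t
  have ql : q ∈ G.nb l' := G.sym _ _ (adj6 hG h)
  have hpl' : l' ≠ p := fun e => tw_not_low76 (tw_of76' h.t) (by rw [← e]; exact h.low')
  have hql' : l' ≠ q := fun e => tw_not_low76 (tw_of76 h.t) (by rw [← e]; exact h.low')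
  have pl : p ∈ G.nb l' := G.sym _ _ (Tw_nb5 h.t (adj6 hG h) hpl')
  have ll : l ∈ G.nb l' := G.sym _ _ (ll6 h)
  have hqp : q ≠ p := ne_of_nb5 h.t.1
  have hlC : l ∈ G.Co B := by
    have : l ∈ G.nb q ∩ G.Co B := by rw [S.out]; simp
    exact (mem_inter.1 this).2
  have e4 := e3q_86 hG.g5 h.t hql' hpl' hl'R hqR hI' hI
  have hout3 : (G.nb q ∩ G.Co B).card ≤ 3 := by
    rw [S.out]
    exact card_le_three
  have hw : ∃ w ∈ G.nb l' ∩ G.Co B, w ∉ G.nb q ∩ G.Co B := by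
    by_contra hc
    push Not at hc
    have h1 : (G.nb l' ∪ G.nb q) ∩ G.Co B ⊆ G.nb q ∩ G.Co B := by
      intro u hu
      rw [mem_inter, mem_union] at hu
      rcases hu.1 with h2 | h2
      · exact hc u (mem_inter.2 ⟨h2, hu.2⟩)
      · exact mem_inter.2 ⟨h2, hu.2⟩
    have h2 := card_le_card h1
    omega
  have hr2 : 2 ≤ G.d l' (G.Co B) := by
    obtain ⟨w, hw1, hw2⟩ := hw
    rw [d]
    refine two_le5 (mem_inter.2 ⟨ll, hlC⟩) hw1 ?_
    rintro rfl
    exact hw2 (mem_inter.2 ⟨G.sym _ _ (ql6 h), hlC⟩)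
  have hqpT : q ∈ G.pT B l' ∧ p ∈ G.pT B l' :=
    ⟨mem_inter.2 ⟨ql, hqN⟩, mem_inter.2 ⟨pl, S.pN⟩⟩
  have hT2 : 2 ≤ (G.pT B l').card := two_le5 hqpT.1 hqpT.2 hqp
  have hfr := hr.frag B hBF
  have hdg := dg16 G B l'
  have h6 : (G.nb l').card = 6 := h.low'
  refine ⟨hr2, ?_, ?_, ?_, hw⟩
  · rw [NF, mem_filter]
    exact ⟨mem_nR76.2 ⟨ll, h.lR⟩, Or.inl h.low⟩
  · refine two_le5 (a := q) (b := p) ?_ ?_ hqp
    · rw [NP, mem_filter]
      refine ⟨mem_nR76.2 ⟨ql, hqR⟩, hq, by rw [hI]; simp, ?_⟩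
      rw [m, hI, hI', inter_self, card_singleton]
      exact one_ne_zero
    · rw [NP, mem_filter]
      refine ⟨mem_nR76.2 ⟨pl, hpI.1⟩, tw_of76' h.t, by rw [hpI.2, hI]; simp, ?_⟩
      rw [m, hpI.2, hI, hI', inter_self, card_singleton]
      exact one_ne_zero
  · rw [K28.fg_single hI', flv_low16 h.low', flv_low16 h.low']
    have hT3 : ¬ G.T3 (G.Co B) l' := by
      intro h1
      obtain ⟨-, -, hps, hc2, -, v, hv, hd2⟩ := T3_type16 h1
      rw [pT_co16 hfr] at hc2 hv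
      have h2 : G.pT B l' = {q, p} := by
        symm
        refine eq_of_subset_of_card_le ?_ (by rw [hc2, card_pair hqp])
        intro u hu
        rw [mem_insert, mem_singleton] at hu
        rcases hu with rfl | rfl
        exacts [hqpT.1, hqpT.2]
      have hq3 : G.d q (G.Co B) = 3 := by
        have e1 := e1q_86 hG.g5 h.t hqR hI
        have e2 : G.d q (G.Co B) = (G.nb q ∩ G.Co B).card := rfl
        omega
      have hqC : q ∉ G.Co B := fun h3 => (mem_Co76.1 h3).2 hqN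
      have hpC : p ∉ G.Co B := fun h3 => (mem_Co76.1 h3).2 S.pN
      have hp3 := d_tw85 h.t hqC hpC
      rw [h2, mem_insert, mem_singleton] at hv
      rcases hv with rfl | rfl <;> omega
    have hHF : ¬ G.HF (G.Co B) l' := by
      intro h1
      have h2 := (HF_type16 h1).2.2.1
      rw [pT_co16 hfr] at h2
      omega
    have hU3 : ¬ G.U3 B l' := by
      intro h1
      have h2 := (U3_type16 h1).2.2.2
      have h3 : G.d l' (G.Co B) = (G.pO B l').card := rfl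
      omega
    have hs : G.s5 B l' = 0 := by
      by_contra h1
      obtain ⟨v, hv⟩ := s5_type16 h1
      have := (S0_type16 hv).2.2.2.1
      omega
    have s1 := (s5_nn16 G (G.Co B) l').1
    rw [if_neg hT3, if_neg hHF, if_neg hU3, hs]
    split_ifs <;> omega

/-- payments between low vertices and from low vertices to twins -/
theorem w_low85 {l l' : V} (hl : G.Low l) (h0 : G.I Fa l = ∅) (hl' : G.Low l') :
    G.w5 Fa l l' = 4 := by
  rw [w5, m_empty5 h0, pay5, if_pos hl', if_pos hl]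
  split_ifs <;> norm_num

theorem w_tw85 {q l' : V} (hq : G.IsTw q) {B : Finset V} (hI : G.I Fa q = {B})
    (hl' : G.Low l') (hB : B ∈ G.I Fa l') : 1 ≤ G.w5 Fa q l' := by
  have h1 : G.m Fa q l' = 1 := by
    rw [m, hI, card_eq_one]
    refine ⟨B, ?_⟩
    ext A
    rw [mem_inter, mem_singleton]
    exact ⟨fun h => h.1, fun h => ⟨h, by rw [h]; exact hB⟩⟩
  rw [w5, pay5, if_pos hl', if_neg (tw_not_low76 hq), if_pos hq,
    if_neg (show ¬ (G.m Fa q l' = 0) by omega), h1]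
  split_ifs <;> norm_num

/-- the weights are not negative, if the neighbour is in at most two common neighbourhoods -/
theorem w_nn85 {x z : V} (h : G.m Fa x z ≤ 2) (h' : G.m Fa x z = 2 → 2 ≤ (G.I Fa x).card) :
    0 ≤ G.w5 Fa x z := by
  rw [w5, pay5]
  have h1 : G.m Fa x z = 0 ∨ G.m Fa x z = 1 ∨ G.m Fa x z = 2 := by omega
  rcases h1 with h1 | h1 | h1
  · rw [h1]
    split_ifs <;> norm_num
  · rw [h1]
    split_ifs <;> norm_num
  · rw [if_pos (Or.inl (h' h1)), h1]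
    norm_num

theorem m_le85 (x z : V) : G.m Fa x z ≤ (G.I Fa x).card ∧ G.m Fa x z ≤ (G.I Fa z).card :=
  ⟨card_le_card inter_subset_left, card_le_card inter_subset_right⟩

/-- the low neighbour in two or more neighbourhoods -/
theorem two85 (hG : G.Gen6 Fa) {l l' q p x y z : V} (h : G.T6s Fa l l' q p x y z)
    {B : Finset V} (hI : G.I Fa q = {B}) (hl'N : l' ∈ G.N B) (hk : 2 ≤ (G.I Fa l').card) :
    2 ≤ G.ch5 Fa l' := by
  classical
  have h9 := hG.g5.n9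
  have hr := hG.g5.reg
  have hqR := nb_R76 h.lR h.I0 (ql6 h)
  have hl'R := nb_R76 h.lR h.I0 (ll6 h)
  have hq : G.IsTw q := tw_of76 h.t
  have hBq : B ∈ G.I Fa q := hI ▸ mem_singleton_self B
  have hBl' : B ∈ G.I Fa l' := mem_I76.2 ⟨(mem_I76.1 hBq).1, hl'N⟩
  have hpI := (stTwHL_5 G).twI Fa hr q hqR p h.t
  have ql : q ∈ G.nb l' := G.sym _ _ (adj6 hG h)
  have hpl' : l' ≠ p := fun e => tw_not_low76 (tw_of76' h.t) (by rw [← e]; exact h.low')
  have pl : p ∈ G.nb l' := G.sym _ _ (Tw_nb5 h.t (adj6 hG h) hpl')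
  have ll : l ∈ G.nb l' := G.sym _ _ (ll6 h)
  have hqp : q ≠ p := ne_of_nb5 h.t.1
  have hlq : l ≠ q := ne_of_nb5 (ql6 h)
  have hlp : l ≠ p := ne_of_nb5 (pl6 h)
  have hch := (stCh5_28 G).low2 h9 Fa hr l' hl'R h.low'
  have hfg := fg_ge85 hr h.low'
  have w1 := w_low85 h.low h.I0 h.low'
  have w2 := w_tw85 hq hI h.low' hBl'
  have w3 := w_tw85 (tw_of76' h.t) (hpI.2.trans hI) h.low' hBl'
  have hs : ({l, q, p} : Finset V) ⊆ G.nR Fa l' := by
    intro u hu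
    rw [mem_insert, mem_insert, mem_singleton] at hu
    rcases hu with rfl | rfl | rfl
    exacts [mem_nR76.2 ⟨ll, h.lR⟩, mem_nR76.2 ⟨ql, hqR⟩, mem_nR76.2 ⟨pl, hpI.1⟩]
  have hsum : ∑ u ∈ ({l, q, p} : Finset V), G.w5 Fa u l' =
      G.w5 Fa l l' + (G.w5 Fa q l' + G.w5 Fa p l') := by
    rw [sum_insert (by rw [mem_insert, mem_singleton, not_or]; exact ⟨hlq, hlp⟩),
      sum_insert (by rw [mem_singleton]; exact hqp), sum_singleton]
  have hsd := sum_sdiff (f := fun u => G.w5 Fa u l') hs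
  -- the number of visible neighbours
  have hsp := nb_split76 hr hl'R
  have hd1 : ∑ A ∈ G.I Fa l', (1 : ℤ) ≤ ∑ A ∈ G.I Fa l', (G.d l' A : ℤ) := by
    refine sum_le_sum fun A hA => ?_
    have := d_pos76 (mem_I76.1 hA).2
    exact_mod_cast this
  rw [sum_const, nsmul_eq_mul, mul_one] at hd1
  have h6 : (G.nb l').card = 6 := h.low'
  rw [h6] at hsp
  have hc3 : ({l, q, p} : Finset V).card = 3 := by
    rw [card_insert_of_notMem (by rw [mem_insert, mem_singleton, not_or]; exact ⟨hlq, hlp⟩),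
      card_pair hqp]
  have hcs := card_sdiff_add_card_eq_card hs
  by_cases hk2 : (G.I Fa l').card = 2
  · have hnn : 0 ≤ ∑ u ∈ G.nR Fa l' \ {l, q, p}, G.w5 Fa u l' := by
      refine sum_nonneg fun u _ => ?_
      have h1 := m_le85 (G := G) (Fa := Fa) u l'
      exact w_nn85 (by omega) (fun h2 => by omega)
    rw [hk2] at hch hfg
    push_cast at hch hfg
    have : ∑ u ∈ G.nR Fa l', G.w5 Fa u l' = ∑ u ∈ G.nR Fa l' \ {l, q, p}, G.w5 Fa u l' +
      ∑ u ∈ ({l, q, p} : Finset V), G.w5 Fa u l' := hsd.symm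
    rw [this, hsum] at hch
    omega
  · have hk3 : 3 ≤ (G.I Fa l').card := by omega
    have hk3' : (3 : ℤ) ≤ ((G.I Fa l').card : ℤ) := by exact_mod_cast hk3
    have hz : (G.nR Fa l' \ {l, q, p}).card = 0 := by
      zify
      zify at hcs hc3
      omega
    have hz' : ∑ u ∈ G.nR Fa l' \ {l, q, p}, G.w5 Fa u l' = 0 := by
      rw [card_eq_zero.1 hz, sum_empty]
    have : ∑ u ∈ G.nR Fa l', G.w5 Fa u l' = ∑ u ∈ G.nR Fa l' \ {l, q, p}, G.w5 Fa u l' +
      ∑ u ∈ ({l, q, p} : Finset V), G.w5 Fa u l' := hsd.symm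
    rw [this, hsum, hz'] at hch
    omega

/-- the low neighbour, if the pair is in one neighbourhood and does not help -/
theorem np1_85 (hG : G.Gen6 Fa) {l l' q p x y z : V} (h : G.T6s Fa l l' q p x y z)
    (hk : (G.I Fa q).card = 1) (hN : G.NoQ Fa l q) : 0 ≤ G.ch5 Fa l' := by
  obtain ⟨B, hI⟩ := card_eq_one.1 hk
  have hc : G.ch5 Fa q ≤ 0 := by
    rcases hN.2 with h1 | h1
    · rw [h1] at hk
      simp at hk
    · exact h1
  obtain ⟨a, b, S⟩ := qs85 hG h hI hc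
  have hl'R := nb_R76 h.lR h.I0 (ll6 h)
  have hBl' : B ∈ G.I Fa l' :=
    mem_I76.2 ⟨(mem_I76.1 (hI ▸ mem_singleton_self B : B ∈ G.I Fa q)).1, S.l'N⟩
  by_cases h2 : 2 ≤ (G.I Fa l').card
  · have := two85 hG h hI S.l'N h2
    omega
  · have h3 : (G.I Fa l').card = 1 := by
      have : 0 < (G.I Fa l').card := card_pos.2 ⟨B, hBl'⟩
      omega
    obtain ⟨A, hA⟩ := card_eq_one.1 h3
    have hAB : A = B := by
      rw [hA, mem_singleton] at hBl'
      exact hBl'.symm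
    rw [hAB] at hA
    have L := ls85 hG h hI S hA
    have hch := (stCh5_28 G).low1 hG.g5.n9 Fa hG.g5.reg l' hl'R h.low' B hA
    have c1 : 1 ≤ (G.NF Fa l').card := card_pos.2 ⟨l, L.nf⟩
    have c2 := L.r2
    have c3 := L.np
    have c4 := L.fg
    omega

/-- the low neighbour, if the pair is in no neighbourhood -/
theorem np0_85 (hG : G.Gen6 Fa) {l l' q p x y z : V} (h : G.T6s Fa l l' q p x y z)
    (hI : G.I Fa q = ∅) (hk : (G.I Fa l').card = 1) : 0 ≤ G.ch5 Fa l' := by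
  classical
  have h9 := hG.g5.n9
  have hr := hG.g5.reg
  have hqR := nb_R76 h.lR h.I0 (ql6 h)
  have hl'R := nb_R76 h.lR h.I0 (ll6 h)
  obtain ⟨B, hB⟩ := card_eq_one.1 hk
  have hBF := (mem_I76.1 (hB ▸ mem_singleton_self B : B ∈ G.I Fa l')).1
  have hpI := (stTwHL_5 G).twI Fa hr q hqR p h.t
  have ql : q ∈ G.nb l' := G.sym _ _ (adj6 hG h)
  have hpl' : l' ≠ p := fun e => tw_not_low76 (tw_of76' h.t) (by rw [← e]; exact h.low')
  have pl : p ∈ G.nb l' := G.sym _ _ (Tw_nb5 h.t (adj6 hG h) hpl')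
  have ll : l ∈ G.nb l' := G.sym _ _ (ll6 h)
  have hqp : q ≠ p := ne_of_nb5 h.t.1
  have hlq : l ≠ q := ne_of_nb5 (ql6 h)
  have hlp : l ≠ p := ne_of_nb5 (pl6 h)
  have hCo : ∀ u ∈ R Fa, G.I Fa u = ∅ → u ∈ G.Co B := by
    intro u hu h0
    refine mem_Co76.2 ⟨mem_R76.1 hu B hBF, fun h1 => ?_⟩
    have h2 : B ∈ G.I Fa u := mem_I76.2 ⟨hBF, h1⟩
    rw [h0] at h2
    simp at h2
  have hlC := hCo l h.lR h.I0
  have hqC := hCo q hqR hI
  have hpC := hCo p hpI.1 (hpI.2.trans hI)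
  have hch := (stCh5_28 G).low1 h9 Fa hr l' hl'R h.low' B hB
  have nf : l ∈ G.NF Fa l' := by
    rw [NF, mem_filter]
    exact ⟨mem_nR76.2 ⟨ll, h.lR⟩, Or.inl h.low⟩
  have c1 : 1 ≤ (G.NF Fa l').card := card_pos.2 ⟨l, nf⟩
  have h3 : 3 ≤ (G.pO B l').card := by
    have hs : ({l, q, p} : Finset V) ⊆ G.pO B l' := by
      intro u hu
      rw [mem_insert, mem_insert, mem_singleton] at hu
      rcases hu with rfl | rfl | rfl
      exacts [mem_inter.2 ⟨ll, hlC⟩, mem_inter.2 ⟨ql, hqC⟩, mem_inter.2 ⟨pl, hpC⟩]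
    have hc3 : ({l, q, p} : Finset V).card = 3 := by
      rw [card_insert_of_notMem (by rw [mem_insert, mem_singleton, not_or]; exact ⟨hlq, hlp⟩),
        card_pair hqp]
    have := card_le_card hs
    omega
  have hd : G.d l' (G.Co B) = (G.pO B l').card := rfl
  have hfr := hr.frag B hBF
  have hdg := dg16 G B l'
  have h6 : (G.nb l').card = 6 := h.low'
  have x1 : (G.pX (G.Co B) l').card = (G.pO B l').card := by rw [pX_co16]
  have hT3 : ¬ G.T3 (G.Co B) l' := fun h1 => by have := (T3_type16 h1).2.1; omega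
  have hU3 : ¬ G.U3 B l' := fun h1 => by have := (U3_type16 h1).2.2.2; omega
  have s1 := (s5_nn16 G (G.Co B) l').1
  have s2 := (s5_nn16 G B l').2
  rw [K28.fg_single hB, flv_low16 h.low', flv_low16 h.low', if_neg hT3, if_neg hU3] at hch
  have hnn : (0 : ℤ) ≤ (if G.U3 (G.Co B) l' then 1 else 0) ∧
      (0 : ℤ) ≤ (if G.T3 B l' then 1 else 0) ∧ (0 : ℤ) ≤ (if G.HF B l' then 1 else 0) := by
    refine ⟨?_, ?_, ?_⟩ <;> split_ifs <;> norm_num
  obtain ⟨n1, n2, n3⟩ := hnn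
  by_cases hs : G.s5 B l' = 0
  · rw [hs] at hch
    by_cases hHF : G.HF (G.Co B) l'
    · have := (HF_type16 hHF).2.1
      rw [if_pos hHF] at hch
      omega
    · rw [if_neg hHF] at hch
      omega
  · obtain ⟨v, hv⟩ := s5_type16 hs
    have t := S0_type16 hv
    have hHF : ¬ G.HF (G.Co B) l' := fun h1 => by have := (HF_type16 h1).2.1; omega
    rw [if_neg hHF] at hch
    obtain ⟨-, -, hvl, hpT, -⟩ := hv
    have hvT : v ∈ G.pT B l' := by rw [hpT]; exact mem_singleton_self v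
    have hvN := (mem_inter.1 hvT).2
    have hvR : v ∈ R Fa := N_sub_R76 hr hBF hvN
    have nf2 : v ∈ G.NF Fa l' := by
      rw [NF, mem_filter]
      exact ⟨mem_nR76.2 ⟨(mem_inter.1 hvT).1, hvR⟩, Or.inl hvl⟩
    have hne : l ≠ v := by
      rintro rfl
      exact (mem_Co76.1 hlC).2 hvN
    have c2 : 2 ≤ (G.NF Fa l').card := two_le5 nf nf2 hne
    omega

/-- part np -/
theorem np85 (hG : G.Gen6 Fa) {l l' q p x y z : V} (h : G.T6s Fa l l' q p x y z)
    (hb : G.I Fa q = ∅ → (G.I Fa l').card = 1) (hN : G.NoQ Fa l q) : 0 ≤ G.ch5 Fa l' := by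
  have h1 := h.kq
  rcases Nat.eq_zero_or_pos (G.I Fa q).card with h2 | h2
  · exact np0_85 hG h (card_eq_zero.1 h2) (hb (card_eq_zero.1 h2))
  · exact np1_85 hG h (by omega) hN

/-- part dbl -/
theorem dbl85 (hG : G.Gen6 Fa) {l l' q p x y z : V} (h : G.T6s Fa l l' q p x y z)
    (hk : (G.I Fa q).card = 1) (hD : G.Dbl Fa l l' q) :
    ∃ g ∈ G.nb l, g ∈ G.nb l' ∧ G.Hub g := by
  classical
  obtain ⟨⟨B, hBI, hRF⟩, ⟨p2, x2, y2, z2, h2⟩, -⟩ := hD
  by_contra hc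
  push Not at hc
  have hr := hG.g5.reg
  have hqR := nb_R76 h.lR h.I0 (ql6 h)
  have hl'R := nb_R76 h.lR h.I0 (ll6 h)
  obtain ⟨A, hA⟩ := card_eq_one.1 hk
  have hAB : A = B := by
    rw [hA, mem_singleton] at hBI
    exact hBI.symm
  rw [hAB] at hA
  have hBF := (mem_I76.1 hBI).1
  have hfr := hr.frag B hBF
  have t := RF_type16 hRF
  rw [pT_co16 hfr] at t
  have hv : (G.nR Fa q).card = 5 := by
    have h3 := nR_one50 hr hqR hA
    have h4 := dg16 G B q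
    have h5 := tw_card11 (tw_of76 h.t)
    have h6 : G.d q B = (G.pX B q).card := rfl
    have h7 : (G.pX (G.Co B) q).card = (G.pO B q).card := by rw [pX_co16]
    omega
  have hq3 : ∀ u, u = x ∨ u = y ∨ u = z → u ∈ G.nR Fa q := by
    intro u hu
    obtain ⟨hp, hul⟩ := hub6 h hu
    rcases cov6 hG h hu with h3 | h3 | ⟨b, h3, h4⟩
    · exact absurd hp.1 (hc u hul h3)
    · exact mem_nR76.2 ⟨h3, nb_R76 h.lR h.I0 hul⟩
    · have h5 : b = l := low6 h2 (LL_ab76 h4) h4.2.1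
      exact absurd h5.symm (LL_tb76 h4).2
  have hxyz := ne6 h
  have hpI := (stTwHL_5 G).twI Fa hr q hqR p h.t
  have hpl : p ≠ l := (ne_of_nb5 (pl6 h)).symm
  have hpl' : p ≠ l' := fun e => tw_not_low76 (tw_of76' h.t) (by rw [e]; exact h.low')
  have hll' : l ≠ l' := ne_of_nb5 (ll6 h)
  have hs : ({p, l, l', x, y, z} : Finset V) ⊆ G.nR Fa q := by
    intro u hu
    simp only [mem_insert, mem_singleton] at hu
    rcases hu with rfl | rfl | rfl | hu
    · exact mem_nR76.2 ⟨h.t.1, hpI.1⟩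
    · exact mem_nR76.2 ⟨G.sym _ _ (ql6 h), h.lR⟩
    · exact mem_nR76.2 ⟨adj6 hG h, hl'R⟩
    · exact hq3 u hu
  have hne : ∀ u, G.Hub u → p ≠ u ∧ l ≠ u ∧ l' ≠ u := by
    intro u hu
    refine ⟨?_, ?_, ?_⟩
    · rintro rfl
      exact hu.2 (tw_of76' h.t)
    · rintro rfl
      exact hu.1 h.low
    · rintro rfl
      exact hu.1 h.low'
  have nx := hne x h.hx.1
  have ny := hne y h.hy.1
  have nz := hne z h.hz.1
  have hc6 : ({p, l, l', x, y, z} : Finset V).card = 6 := by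
    rw [card_insert_of_notMem, card_insert_of_notMem, card_insert_of_notMem,
      card_insert_of_notMem, card_insert_of_notMem, card_singleton]
    · rw [mem_singleton]; exact hxyz.2.2
    · simp only [mem_insert, mem_singleton, not_or]; exact ⟨hxyz.1, hxyz.2.1⟩
    · simp only [mem_insert, mem_singleton, not_or]; exact ⟨nx.2.2, ny.2.2, nz.2.2⟩
    · simp only [mem_insert, mem_singleton, not_or]; exact ⟨hll', nx.2.1, ny.2.1, nz.2.1⟩
    · simp only [mem_insert, mem_singleton, not_or]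
      exact ⟨hpl, hpl', nx.1, ny.1, nz.1⟩
  have := card_le_card hs
  omega

/-- the structure of (A*): the pair does not help and the low neighbour has a charge below 2 -/
theorem ast85 (hG : G.Gen6 Fa) {l l' q p x y z : V} (h : G.T6s Fa l l' q p x y z)
    (hk : (G.I Fa q).card = 1) (hN : G.NoQ Fa l q) (hc : G.ch5 Fa l' < 2) :
    ∃ B g g', QS85 G Fa B l l' q p g g' ∧ G.I Fa q = {B} ∧ G.I Fa l' = {B} ∧
      g ∈ G.nb l ∧ g' ∈ G.nb l ∧ g ∉ G.nb l' ∧ g' ∉ G.nb l' ∧ G.I Fa g = ∅ ∧ G.I Fa g' = ∅ ∧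
      (∃ w, G.nb l' ∩ G.Co B = {l, w} ∧ w ∉ G.nb q) := by
  classical
  obtain ⟨B, hI⟩ := card_eq_one.1 hk
  have hcq : G.ch5 Fa q ≤ 0 := by
    rcases hN.2 with h1 | h1
    · rw [h1] at hk
      simp at hk
    · exact h1
  obtain ⟨a, b, S⟩ := qs85 hG h hI hcq
  have hqR := nb_R76 h.lR h.I0 (ql6 h)
  have hl'R := nb_R76 h.lR h.I0 (ll6 h)
  have hBl' : B ∈ G.I Fa l' :=
    mem_I76.2 ⟨(mem_I76.1 (hI ▸ mem_singleton_self B : B ∈ G.I Fa q)).1, S.l'N⟩
  have hA : G.I Fa l' = {B} := by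
    by_cases h2 : 2 ≤ (G.I Fa l').card
    · have := two85 hG h hI S.l'N h2
      omega
    · have h3 : (G.I Fa l').card = 1 := by
        have : 0 < (G.I Fa l').card := card_pos.2 ⟨B, hBl'⟩
        omega
      obtain ⟨A, hA⟩ := card_eq_one.1 h3
      have hAB : A = B := by
        rw [hA, mem_singleton] at hBl'
        exact hBl'.symm
      rwa [hAB] at hA
  have L := ls85 hG h hI S hA
  have hch := (stCh5_28 G).low1 hG.g5.n9 Fa hG.g5.reg l' hl'R h.low' B hA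
  have c1 : 1 ≤ (G.NF Fa l').card := card_pos.2 ⟨l, L.nf⟩
  have c2 := L.r2
  have c3 := L.np
  have c4 := L.fg
  have hd : (G.nb l' ∩ G.Co B).card = 2 := by
    have : G.d l' (G.Co B) = (G.nb l' ∩ G.Co B).card := rfl
    omega
  obtain ⟨w, hw1, hw2⟩ := L.nq
  have hlout : l ∈ G.nb q ∩ G.Co B := by rw [S.out]; simp
  have hlw : l ≠ w := by
    rintro rfl
    exact hw2 hlout
  have hw : G.nb l' ∩ G.Co B = {l, w} := by
    symm
    refine eq_of_subset_of_card_le ?_ (by rw [hd, card_pair hlw])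
    intro u hu
    rw [mem_insert, mem_singleton] at hu
    rcases hu with rfl | rfl
    · exact mem_inter.2 ⟨G.sym _ _ (ll6 h), (mem_inter.1 hlout).2⟩
    · exact hw1
  have hwq : w ∉ G.nb q := fun h1 => hw2 (mem_inter.2 ⟨h1, (mem_inter.1 hw1).2⟩)
  have hout : ∀ u, u = a ∨ u = b → u ∈ G.nb q ∧ u ∈ G.Co B := by
    intro u hu
    have : u ∈ G.nb q ∩ G.Co B := by
      rw [S.out]
      rcases hu with rfl | rfl <;> simp
    exact mem_inter.1 this
  have hnl : ∀ u, u = a ∨ u = b → u ∉ G.nb l' := by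
    intro u hu h1
    have h2 := hout u hu
    have h3 : u ∈ G.nb l' ∩ G.Co B := mem_inter.2 ⟨h1, h2.2⟩
    rw [hw, mem_insert, mem_singleton] at h3
    rcases h3 with h3 | h3
    · have h4 : G.Hub u := by
        rcases hu with rfl | rfl
        exacts [S.hub, S.hub']
      exact h4.1 (by rw [h3]; exact h.low)
    · exact hwq (by rw [← h3]; exact h2.1)
  have hub : ∀ u, u = a ∨ u = b → G.Hub u ∧ (G.I Fa u).card ≤ 1 := by
    rintro u (rfl | rfl)
    exacts [⟨S.hub, S.kh⟩, ⟨S.hub', S.kh'⟩]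
  have hnb : ∀ u, u = a ∨ u = b → u ∈ G.nb l := by
    intro u hu
    have h2 := hout u hu
    have h3 := hub u hu
    have h4 : u ∈ G.nR Fa q := nR_Co5 hqR hI (mem_inter.2 h2)
    have h5 : G.m Fa q u = 0 := m_Co5 hI h2.2
    have key : ∀ v, v ∈ G.nR Fa q → v ∈ G.nR Fa u → (G.Low v ∨ G.IsTw v ∧ v ≠ p) →
        u ∈ G.nb l := by
      intro v h6 h7 h8
      rw [S.vis] at h6
      simp only [mem_insert, mem_singleton] at h6
      rcases h6 with rfl | rfl | rfl | rfl | rfl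
      · rcases h8 with h8 | h8
        · exact absurd h8 (tw_not_low76 (tw_of76' h.t))
        · exact absurd rfl h8.2
      · exact G.sym _ _ (mem_nR76.1 h7).1
      · exact absurd (G.sym _ _ (mem_nR76.1 h7).1) (hnl u hu)
      · rcases h8 with h8 | h8
        · exact absurd h8 S.hub.1
        · exact absurd h8.1 S.hub.2
      · rcases h8 with h8 | h8
        · exact absurd h8 S.hub'.1
        · exact absurd h8.1 S.hub'.2
    rcases cov_qh86 hG.g5 hqR (tw_of76 h.t) h4 h5 h3.1.1 with h6 | h6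
    · obtain ⟨v, h7, h8, h9⟩ := h6
      exact key v h7 h8 (Or.inl h9)
    · obtain ⟨v, v', h7, h8, h9, h10, h11⟩ := h6
      by_cases h12 : v = p
      · have h13 : v' = q := by
          rw [h12] at h11
          exact (stTwHL_5 G).uniq hG.g5.n9 _ _ _ h11 (tw_symm76 h.t)
        rw [h13] at h8
        exact absurd (mem_nR76.1 h8).1 (G.irr q)
      · exact key v h7 h9 (Or.inr ⟨⟨v', h11⟩, h12⟩)
  have hI0 : ∀ u, u = a ∨ u = b → G.I Fa u = ∅ := by
    intro u hu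
    have h3 := hub u hu
    have h4 := hN.1 hk u (hnb u hu) (hout u hu).1 h3.1
    exact card_eq_zero.1 (by omega)
  exact ⟨B, a, b, S, hI, hA, hnb a (Or.inl rfl), hnb b (Or.inr rfl), hnl a (Or.inl rfl),
    hnl b (Or.inr rfl), hI0 a (Or.inl rfl), hI0 b (Or.inr rfl), w, hw, hwq⟩

end T6b85

end CG

end Pool.Agent.Lib.MP_e95c01_co.N
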