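import Pool.Agent.Lib.MP_e95c01_co.X.T6_42
import Pool.Agent.Lib.MP_e95c01_co.X.T6b_85

/-!
# `λ = 3`, thick torsos: the type `T6`, all parts
-/

namespace Pool.Agent.Lib.MP_e95c01_co.N

open Finset

variable {V : Type} [Fintype V] [DecidableEq V]

namespace CG

theorem stT6_76 (G : CG V) : G.StT6 where
  adj := G.stT6_adj42
  d0 := G.stT6_d0_42
  b := G.stT6_b42
  a := fun _ hG _ _ _ _ _ _ _ h hk hN => Or.inr (Or.inr (T6b85.a85 hG h hk hN))
  np := fun _ hG _ _ _ _ _ _ _ h hN => T6b85.np85 hG h (fun h0 => (G.stT6_b42 _ hG _ _ _ _ _ _ _ h h0).1) hN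
  dbl := fun _ hG _ _ _ _ _ _ _ h hk _ hD => T6b85.dbl85 hG h hk hD

end CG

end Pool.Agent.Lib.MP_e95c01_co.N
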