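import Pool.Agent.Lib.MP_e95c01_co.X.Fin5_76
import Pool.Agent.Lib.MP_e95c01_co.X.M9_76
import Pool.Agent.Lib.MP_e95c01_co.X.Sum76
import Pool.Agent.Lib.MP_e95c01_co.X.T6_76
import Pool.Agent.Lib.MP_e95c01_co.X.M1_86
import Pool.Agent.Lib.MP_e95c01_co.X.M2_38
import Pool.Agent.Lib.MP_e95c01_co.X.M3_33
import Pool.Agent.Lib.MP_e95c01_co.X.M3b_76
import Pool.Agent.Lib.MP_e95c01_co.X.K3_28
import Pool.Agent.Lib.MP_e95c01_co.X.C6a_53
import Pool.Agent.Lib.MP_e95c01_co.X.C6b_53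
import Pool.Agent.Lib.MP_e95c01_co.X.C6c_88
import Pool.Agent.Lib.MP_e95c01_co.X.C6d_89
import Pool.Agent.Lib.MP_e95c01_co.X.C6e_11
import Pool.Agent.Lib.MP_e95c01_co.X.C6f_28
import Pool.Agent.Lib.MP_e95c01_co.X.C7a_16
import Pool.Agent.Lib.MP_e95c01_co.X.C8a_50
import Pool.Agent.Lib.MP_e95c01_co.X.C8b_50
import Pool.Agent.Lib.MP_e95c01_co.X.C8c_27
import Pool.Agent.Lib.MP_e95c01_co.X.C8d_50
import Pool.Agent.Lib.MP_e95c01_co.X.C8e_50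
import Pool.Agent.Lib.MP_e95c01_co.X.C8h_53
import Pool.Agent.Lib.MP_e95c01_co.X.C8i_86
import Pool.Agent.Lib.MP_e95c01_co.X.C8f_33
import Pool.Agent.Lib.MP_e95c01_co.X.C8g_38
import Pool.Agent.Lib.MP_e95c01_co.X.C7t_57
import Pool.Agent.Lib.MP_e95c01_co.X.C7b_88
import Pool.Agent.Lib.MP_e95c01_co.X.M4_53
import Pool.Agent.Lib.MP_e95c01_co.X.M5_57
import Pool.Agent.Lib.MP_e95c01_co.X.M6_57
import Pool.Agent.Lib.MP_e95c01_co.X.S12_33
import Pool.Agent.Lib.MP_e95c01_co.X.S12b_75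

/-!
# All rows together
-/

namespace Pool.Agent.Lib.MP_e95c01_co.N

open Finset

variable {V : Type} [Fintype V] [DecidableEq V]

namespace CG

theorem ast86_76 (G : CG V) : G.Ast86 := by
  intro Fa hG l l' q p x y z h hk hN hc _
  obtain ⟨B, g, g', S, -, -, h1, h2, h3, h4, -⟩ := T6b85.ast85 hG h hk hN hc
  exact ⟨g, g', S.vis, h1, h2, S.ne, h3, h4, S.hub, S.hub'⟩

theorem stC6_all76 (G : CG V) : G.StC6 :=
  have t6 := G.stT6_76
  have m2 := G.stM2_38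
  have b := G.stC6b_53 t6
  G.stC6_76 (G.stC6a_53 t6) b G.stC6c_88 (G.stC6d_89 t6) (G.stC6e_11 m2 t6 b) G.stC6f_28

theorem stC7_all76 (G : CG V) : G.StC7 :=
  have c7t := G.stC7t_57
  G.stC7_76 G.stM2_38 (G.stC7a_16 G.stM2_38 c7t G.stT6_76) (G.stC7b_88 G.stM1_86 c7t)

theorem stC8_all76 (G : CG V) : G.StC8 :=
  have t6 := G.stT6_76
  have m1 := G.stM1_86
  have a := stC8a_50 m1 t6
  have c := G.stC8c_27 a
  G.stC8_76 m1 (stC8b_50 a t6) (stC8d_50 a c) (stC8e_50 m1) (stC8f_33 m1) (G.stC8g_38 m1)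
    G.stC8h_53 (G.stC8i_86 a G.stC8h_53 G.ast86_76)

/-- torsos with expansion -/
theorem stM9_all76 (G : CG V) : G.StM9 :=
  G.stM9_76 (G.stM5_57 (G.stM3_33 G.stM3b_76) G.stT6_76) (G.stM6_57 G.stM4_53) G.stK3_28
    G.stC6_all76 G.stC7_all76 G.stC8_all76

/-- all graphs: `2 n ≤ 7 n_6` -/
theorem stFnV_all76 (G : CG V) : G.StFnV :=
  stFnV_of76 (fun G => G.stM9_all76) (fun G => G.stS12_33) G

/-- graphs without `K_6` on vertices of degree at most 7: `n ≤ 3 n_6` -/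
theorem stFnK_all76 (G : CG V) : G.StFnK :=
  stFnK_of76 (fun G => G.stM9_all76) (fun G => G.stS12_33) G

end CG

end Pool.Agent.Lib.MP_e95c01_co.N
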