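import Pool.Agent.Lib.MP_e95c01_co.X.SP_87

/-!
# Strips: balances of the vertices of `K0`
-/

namespace Pool.Agent.Lib.MP_e95c01_co.N

open Finset

variable {V : Type} [Fintype V] [DecidableEq V]

namespace CG

variable {G : CG V} {A B : Finset V}

theorem Sx.symm50 (h : G.Sx A B) (hs : G.Strip B A) : G.Sx B A := by
  refine ⟨hs, ?_, h.e2, h.e1⟩
  rw [pair_comm]
  exact h.cov

/-- a vertex of `K0 A B` has no neighbours in `B` -/
theorem pX_K0_50 (h : G.Strip A B) {x : V} (hx : x ∈ G.K0 A B) : G.pX B x = ∅ := by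
  rw [pX, eq_empty_iff_forall_notMem]
  intro v hv
  obtain ⟨h1, h2⟩ := mem_inter.1 hv
  have h3 := mem_K087.1 hx
  exact h3.2 (mem_N1.2 ⟨(h.s1_87.NA h3.1).2, v, h2, G.sym _ _ h1⟩)

theorem pO_K0_50 (h : G.Strip A B) {x : V} (hx : x ∈ G.K0 A B) :
    G.pO A x = G.nb x ∩ G.K0 B A := by
  rw [pO_eq87 h, pX_K0_50 h hx, empty_union]

theorem deg_K0_50 (h : G.Strip A B) {x : V} (hx : x ∈ G.K0 A B) : (G.nb x).card =
    (G.pX A x).card + (G.nb x ∩ G.K0 A B).card + (G.nb x ∩ G.Cc A B).card +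
      (G.nb x ∩ G.K0 B A).card := by
  have h1 := deg_Cc87 h x
  rw [pX_K0_50 h hx, card_empty] at h1
  omega

theorem K0_card50 (h : G.Strip A B) : (G.K0 A B).card = (G.K0 B A).card := h.s1_87.card_eq

theorem B5_low50 (h : G.Strip A B) {x : V} (hx : x ∈ G.K0 A B) (hl : G.Low x) :
    G.B5 A x = 4 * (((G.nb x ∩ G.K0 B A).card : ℤ) - 2) +
      2 * (((G.nb x ∩ G.K0 A B).card : ℤ) + ((G.nb x ∩ G.Cc A B).card : ℤ)) := by
  have h1 := deg_K0_50 h hx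
  have h2 : (G.nb x).card = 6 := hl
  have h3 : G.d x (G.Co A) = (G.nb x ∩ G.K0 B A).card := by
    have := pO_K0_50 h hx
    rw [pO] at this
    rw [d, this]
  have h4 : G.d x A = (G.pX A x).card := rfl
  rw [B5, h3, h4, a5, c5, if_pos hl, if_pos hl]
  omega

theorem B5_tw50 (h : G.Strip A B) {x : V} (hx : x ∈ G.K0 A B) (ht : G.IsTw x) :
    G.B5 A x = 2 * ((G.nb x ∩ G.K0 B A).card : ℤ) + ((G.nb x ∩ G.K0 A B).card : ℤ) +
      ((G.nb x ∩ G.Cc A B).card : ℤ) - 9 := by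
  have h1 := deg_K0_50 h hx
  have hl : ¬ G.Low x := fun h => low_not_tw87 h ht
  have h2 : (G.nb x).card = 7 := by
    obtain ⟨w, hw⟩ := ht
    exact Tw_card87 hw
  have h3 : G.d x (G.Co A) = (G.nb x ∩ G.K0 B A).card := by
    have := pO_K0_50 h hx
    rw [pO] at this
    rw [d, this]
  have h4 : G.d x A = (G.pX A x).card := rfl
  rw [B5, h3, h4, a5, c5, if_neg hl, if_neg hl, if_pos ht]
  omega

theorem B5_hub50 {x : V} (h1 : ¬ G.Low x) (h2 : ¬ G.IsTw x) : G.B5 A x = -2 := by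
  rw [B5, a5, c5, if_neg h1, if_neg h1, if_neg h2]
  ring

/-- balance of a hub in `K0 A B` -/
theorem bal_hub50 {x : V} (hx : G.Hub x) : G.B5 A x + G.phi A x = -2 := by
  rw [B5_hub50 hx.1 hx.2, phi_hub87 hx.1 hx.2, add_zero]

theorem s5A_50 (h : G.Strip A B) {x : V} (hx : x ∈ G.K0 A B)
    (hs : ¬ ((G.nb x ∩ G.K0 B A).card = 3 ∧
      (G.nb x ∩ G.K0 A B).card + (G.nb x ∩ G.Cc A B).card = 1)) : G.s5 A x = 0 := by
  by_contra h1
  obtain ⟨-, -, -, h2, h3, -⟩ := (stTy5_87 G).s2 A x h1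
  rw [pO_K0_50 h hx] at h3
  rw [pT_card87 A B x] at h2
  exact hs ⟨h3, h2⟩

theorem T3_50 (h : G.Strip A B) {x : V} (hx : x ∈ G.K0 A B) (ht : G.T3 (G.Co A) x) :
    (G.nb x ∩ G.K0 B A).card = 2 ∧
      (G.nb x ∩ G.K0 A B).card + (G.nb x ∩ G.Cc A B).card = 2 ∧
      ∃ Q Q', G.Tw Q Q' ∧ G.pT A x = {Q, Q'} ∧ (G.pO A Q).card = 2 := by
  have hf := h.fA87
  obtain ⟨h1, h2, -⟩ := (stTy5_87 G).t3 _ x ht
  rw [pXCo87, pO_K0_50 h hx] at h1
  rw [pTCo87 hf, pT_card87 A B x] at h2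
  obtain ⟨-, -, -, Q, Q', r, r', hh, h3, -, -, h4, -, h5, -⟩ := ht
  rw [pTCo87 hf] at h4
  rw [pXCo87] at h5
  exact ⟨h1, h2, Q, Q', h3, h4, h5⟩

open Classical in
/-- flags of a low vertex of `K0 A B` -/
theorem phi_ge50 (h : G.Strip A B) {x : V} (hx : x ∈ G.K0 A B) (hl : G.Low x)
    (h2 : 2 ≤ (G.nb x ∩ G.K0 B A).card) (h3 : (G.nb x ∩ G.K0 B A).card ≤ 3) :
    G.s5 (G.Co A) x - G.s5 A x - 2 * (if G.T3 (G.Co A) x then 1 else 0) ≤ G.phi A x := by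
  have h4 : ¬ G.U3 A x := by
    intro hu
    obtain ⟨-, -, h5⟩ := (stTy5_87 G).u3 A x hu
    rw [pO_K0_50 h hx] at h5
    omega
  have h6 : ¬ G.HF (G.Co A) x := by
    intro hu
    obtain ⟨h5, -, -⟩ := (stTy5_87 G).hf _ x hu
    rw [pXCo87, pO_K0_50 h hx] at h5
    omega
  rw [phi_low87 hl, if_neg h4, if_neg h6]
  have h7 : (0 : ℤ) ≤ (if G.U3 (G.Co A) x then 1 else 0) := by split_ifs <;> norm_num
  have h8 : (0 : ℤ) ≤ (if G.T3 A x then 1 else 0) := by split_ifs <;> norm_num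
  have h9 : (0 : ℤ) ≤ (if G.HF A x then 1 else 0) := by split_ifs <;> norm_num
  linarith

/-- `K0 A B` without twins: a low vertex with two neighbours in `K0 B A` -/
theorem bal_two50 (h : G.Strip A B) (hnt : ∀ y ∈ G.K0 A B, ¬ G.IsTw y) {x : V}
    (hx : x ∈ G.K0 A B) (hl : G.Low x) (h2 : (G.nb x ∩ G.K0 B A).card = 2) :
    0 ≤ G.B5 A x + G.phi A x ∧
    (1 ≤ (G.nb x ∩ G.K0 A B).card → 2 * ((G.nb x ∩ G.K0 A B).card : ℤ) +
      2 * ((G.nb x ∩ G.Cc A B).card : ℤ) + G.s5 (G.Co A) x ≤ G.B5 A x + G.phi A x) ∧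
    (1 ≤ (G.nb x ∩ G.Cc A B).card → 2 ≤ G.B5 A x + G.phi A x) := by
  classical
  have h3 := phi_ge50 h hx hl (by omega) (by omega)
  have h4 := s5A_50 h hx (by omega)
  have h5 := s5_nonneg87 (G := G) (G.Co A) x
  have h6 := B5_low50 h hx hl
  rw [h2] at h6
  by_cases h7 : G.T3 (G.Co A) x
  · rw [if_pos h7] at h3
    obtain ⟨-, h8, Q, Q', hQ, h9, -⟩ := T3_50 h hx h7
    have hs : (G.nb x ∩ G.K0 A B).card = 0 := by
      rw [card_eq_zero, eq_empty_iff_forall_notMem]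
      intro v hv
      have hvT : v ∈ G.pT A x := by
        rw [pT_eq87 (B := B)]
        exact mem_union_left _ hv
      rw [h9, mem_insert, mem_singleton] at hvT
      apply hnt v (mem_inter.1 hv).2
      rcases hvT with rfl | rfl
      · exact ⟨_, hQ⟩
      · exact ⟨_, symm_5 hQ⟩
    have h10 : ((G.nb x ∩ G.Cc A B).card : ℤ) = 2 := by omega
    rw [hs, h10] at h6
    push_cast at h6
    refine ⟨by linarith, ?_, ?_⟩
    · intro h10
      omega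
    · intro _
      linarith
  · rw [if_neg h7] at h3
    have h10 : (0 : ℤ) ≤ ((G.nb x ∩ G.K0 A B).card : ℤ) := Nat.cast_nonneg _
    have h11 : (0 : ℤ) ≤ ((G.nb x ∩ G.Cc A B).card : ℤ) := Nat.cast_nonneg _
    push_cast at h6
    refine ⟨by linarith, ?_, ?_⟩
    · intro _
      linarith
    · intro h12
      have h13 : (1 : ℤ) ≤ ((G.nb x ∩ G.Cc A B).card : ℤ) := by exact_mod_cast h12
      linarith

/-- a low vertex with three neighbours in `K0 B A` -/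
theorem bal_three50 (h : G.Strip A B) {x : V}
    (hx : x ∈ G.K0 A B) (hl : G.Low x) (h2 : (G.nb x ∩ G.K0 B A).card = 3) :
    2 + 2 * ((G.nb x ∩ G.K0 A B).card : ℤ) ≤ G.B5 A x + G.phi A x ∧
    (2 ≤ (G.nb x ∩ G.K0 A B).card →
      4 + 2 * ((G.nb x ∩ G.K0 A B).card : ℤ) ≤ G.B5 A x + G.phi A x) := by
  classical
  have h3 := phi_ge50 h hx hl (by omega) (by omega)
  have h5 := s5_nonneg87 (G := G) (G.Co A) x
  have h6 := B5_low50 h hx hl
  rw [h2] at h6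
  have h7 : ¬ G.T3 (G.Co A) x := by
    intro h7
    have := (T3_50 h hx h7).1
    omega
  rw [if_neg h7] at h3
  have h8 := s5_le87 (G := G) A x
  have h11 : (0 : ℤ) ≤ ((G.nb x ∩ G.Cc A B).card : ℤ) := Nat.cast_nonneg _
  push_cast at h6
  constructor
  · linarith
  · intro h12
    have h4 := s5A_50 h hx (by omega)
    linarith

end CG

end Pool.Agent.Lib.MP_e95c01_co.N
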