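import Pool.Agent.Lib.MP_e95c01_co.X.Dn_53
import Pool.Agent.Lib.MP_e95c01_co.X.AuxT76
import Pool.Agent.Lib.MP_e95c01_co.X.K3d_28

/-!
# C6b: the vertex `b` of THETA and ETA
-/

namespace Pool.Agent.Lib.MP_e95c01_co.N

open Finset

variable {V : Type} [Fintype V] [DecidableEq V]

namespace CG

variable {G : CG V} {Fa : Finset (Finset V)}

/-! ### the flags of `b` -/

/-- no flags at `b` if `a` is in `N S` and `HL a b l` -/
theorem flv_b53 (n9 : 9 ≤ Fintype.card V) {S : Finset V} {a b l : V} (h : G.HL a b l)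
    (ha : a ∈ G.N S) : G.flv S b = 0 := by
  classical
  have hab : a ∈ G.pT S b := mem_inter.2 ⟨G.sym _ _ (HL_b76 h), ha⟩
  have hal : ¬ G.Low a := HL_not_low76 h
  have hat : ¬ G.IsTw a := (stTwHL_5 G).notHL n9 _ _ _ h
  have h1 : G.s5 S b = 0 := K28.s5_zero fun v hv => by
    have h2 := hv.2.2.2.1
    rw [h2, mem_singleton] at hab
    rw [hab] at hal
    exact hal hv.2.2.1
  have h2 : ¬ G.U3 S b := by
    rintro ⟨-, -, -, v, w, h3, h4⟩
    rw [h4, mem_insert, mem_singleton] at hab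
    rcases hab with rfl | rfl
    · exact hat ⟨_, h3⟩
    · exact hat ⟨_, (stTwHL_5 G).symm _ _ h3⟩
  have h3 : ¬ G.T3 S b := by
    rintro ⟨-, -, -, Q, Q', r, r', hh, h3, -, -, h4, -⟩
    rw [h4, mem_insert, mem_singleton] at hab
    rcases hab with rfl | rfl
    · exact hat ⟨_, h3⟩
    · exact hat ⟨_, (stTwHL_5 G).symm _ _ h3⟩
  have h4 : ¬ G.HF S b := by
    rintro ⟨-, -, -, a', b', h4, -, -, h5⟩
    rw [h5, mem_singleton] at hab
    rw [← hab] at h4
    exact (stTwHL_5 G).nomut n9 _ _ _ _ _ h4 h rfl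
  have h5 : ¬ G.RF S b := fun ⟨_, p', _, _, h6, _⟩ => tw_not_low11 ⟨p', h6⟩ h.2.1
  rw [flv, h1, if_neg h2, if_neg h3, if_neg h4, if_neg h5]
  norm_num

/-- no flags at `b` -/
theorem fg_b53 (n9 : 9 ≤ Fintype.card V) (hr : G.Reg Fa) {a b l : V} (h : G.HL a b l)
    (ha : a ∈ R Fa) (hb : b ∈ R Fa) (hl : l ∈ R Fa) : G.fg5 Fa b = 0 := by
  have hI := HL_I76 (Fa := Fa) h ha hb hl
  rw [fg5]
  refine sum_eq_zero fun B hB => ?_
  rw [← hI] at hB
  obtain ⟨h1, h2⟩ := mem_I76.1 hB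
  have h3 : a ∈ G.N (G.Co B) := by
    rw [(stCo_37 G B (hr.frag B h1)).2.1]
    exact h2
  rw [flv_b53 n9 h h2, flv_b53 n9 h h3, sub_zero]

/-! ### `b` in one neighbourhood -/

/-- the structure of `b`, `HL a b l`, one neighbourhood -/
structure Bb53 (G : CG V) (Fa : Finset (Finset V)) (B : Finset V) (l a b : V) : Prop where
  hl : G.HL a b l
  lR : l ∈ R Fa
  aR : a ∈ R Fa
  bR : b ∈ R Fa
  Il : G.I Fa l = {B}
  Ia : G.I Fa a = {B}
  Ib : G.I Fa b = {B}
  x1 : (G.nb b ∩ B).card = 1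
  t1 : G.pT B b = {a}
  o4 : (G.pO B b).card = 4

theorem mem_N_I53 {B : Finset V} {z : V} (h : G.I Fa z = {B}) : z ∈ G.N B :=
  (mem_I76.1 (h.symm ▸ mem_singleton_self B : B ∈ G.I Fa z)).2

theorem bb53 (hG : G.Gen5 Fa) {B : Finset V} {l a b : V} (hl : G.HL a b l) (lR : l ∈ R Fa)
    (aR : a ∈ R Fa) (bR : b ∈ R Fa) (Il : G.I Fa l = {B}) (Ib : G.I Fa b = {B})
    (hsub : ∀ u ∈ G.pO B l, u ∈ G.nb b) : G.Bb53 Fa B l a b := by
  have Ia : G.I Fa a = {B} := (HL_I76 (Fa := Fa) hl aR bR lR).trans Ib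
  have hla : l ≠ a := (ne_of_nb5 (HL_t76 hl)).symm
  have hlb : l ≠ b := (HL_bt76 hl).2
  have hab : a ≠ b := ne_of_nb5 (HL_b76 hl)
  have h1 := e3_86 hG hla hlb hab lR aR bR Il Ia Ib
  have hlN := mem_N_I53 Il
  have haN := mem_N_I53 Ia
  have hbN := mem_N_I53 Ib
  have h2 : (G.nb l ∪ G.nb a ∪ G.nb b) ∩ G.Co B ⊆ G.pO B b := by
    intro u hu
    rw [mem_inter, mem_union, mem_union] at hu
    rcases hu.1 with (h3 | h3) | h3
    · exact mem_inter.2 ⟨hsub u (mem_inter.2 ⟨h3, hu.2⟩), hu.2⟩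
    · have h4 : u ≠ l := by
        rintro rfl
        exact (mem_Co76.1 hu.2).2 hlN
      rcases HL_sup76 hl h3 h4 with rfl | h5
      · exact absurd hbN (mem_Co76.1 hu.2).2
      · exact mem_inter.2 ⟨h5, hu.2⟩
    · exact mem_inter.2 ⟨h3, hu.2⟩
  have h3 : 4 ≤ (G.pO B b).card := h1.trans (card_le_card h2)
  have h4 : 1 ≤ (G.nb b ∩ B).card := d_pos76 hbN
  have h5 : a ∈ G.pT B b := mem_inter.2 ⟨G.sym _ _ (HL_b76 hl), haN⟩
  have h6 : (G.nb b ∩ B).card + (G.pT B b).card + (G.pO B b).card = 6 := by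
    have h7 := d_split76 (G := G) b B
    have h8 : (G.nb b).card = 6 := hl.2.1
    rw [h8] at h7
    exact h7
  have h7 : 0 < (G.pT B b).card := card_pos.2 ⟨a, h5⟩
  have h8 : (G.pT B b).card = 1 := by omega
  obtain ⟨a', ha'⟩ := card_eq_one.1 h8
  have h9 : a = a' := by
    rw [ha', mem_singleton] at h5
    exact h5
  exact ⟨hl, lR, aR, bR, Il, Ia, Ib, by omega, by rw [h9]; exact ha', by omega⟩

namespace Bb53

variable {B : Finset V} {l a b : V}

theorem mem (h : G.Bb53 Fa B l a b) {u : V} (hu : u ∈ G.nb b) (huR : u ∈ R Fa) :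
    u = a ∨ (u ∈ G.Co B ∧ u ∈ G.pO B b) := by
  by_cases h1 : u ∈ G.N B
  · left
    have h2 : u ∈ G.pT B b := mem_inter.2 ⟨hu, h1⟩
    rw [h.t1, mem_singleton] at h2
    exact h2
  · right
    have h3 : u ∈ G.Co B := mem_Co76.2
      ⟨mem_R76.1 huR B (mem_I_L1_53 h.Ib).1, h1⟩
    exact ⟨h3, mem_inter.2 ⟨hu, h3⟩⟩

/-- no common neighbourhood with a vertex of `Co B` -/
theorem m0 (h : G.Bb53 Fa B l a b) {u : V} (hu : u ∈ G.Co B) : G.m Fa b u = 0 := by
  rw [m, h.Ib, card_eq_zero, eq_empty_iff_forall_notMem]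
  intro C hC
  rw [mem_inter, mem_singleton] at hC
  obtain ⟨rfl, h2⟩ := hC
  exact (mem_Co76.1 hu).2 (mem_I76.1 h2).2

/-- the charge of `b` -/
theorem ch (hG : G.Gen5 Fa) (h : G.Bb53 Fa B l a b) :
    G.ch5 Fa b = 2 * ((G.NF Fa b).card : ℤ) + ((G.NP Fa b).card : ℤ) := by
  have h1 := (G.stCh5_28).low1 hG.n9 Fa hG.reg b h.bR h.hl.2.1 B h.Ib
  have h2 := fg_b53 hG.n9 hG.reg h.hl h.aR h.bR h.lR
  have h3 : G.d b (G.Co B) = 4 := h.o4
  rw [h1, h2, h3]
  push_cast
  ring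

theorem ch_of (hG : G.Gen5 Fa) (h : G.Bb53 Fa B l a b) {u : V} (hu : u ∈ G.NF Fa b) :
    2 ≤ G.ch5 Fa b := by
  rw [h.ch hG]
  have h1 : 0 < (G.NF Fa b).card := card_pos.2 ⟨u, hu⟩
  have h2 : (1 : ℤ) ≤ ((G.NF Fa b).card : ℤ) := by exact_mod_cast h1
  have h3 : (0 : ℤ) ≤ ((G.NP Fa b).card : ℤ) := by positivity
  linarith

/-- a neighbour of `b` in `Co B` that is not low is covered by a pair of twins, or `b` has a
charge -/
theorem cov (hG : G.Gen5 Fa) (h : G.Bb53 Fa B l a b) {u : V} (hu : u ∈ G.nR Fa b)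
    (hC : u ∈ G.Co B) (hul : ¬ G.Low u) : 2 ≤ G.ch5 Fa b ∨
    ∃ v w, v ∈ G.nR Fa b ∧ w ∈ G.nR Fa b ∧ v ∈ G.nR Fa u ∧ w ∈ G.nR Fa u ∧ G.Tw v w := by
  rcases cov_lh86 hG h.bR hu (h.m0 hC) hul with (⟨w, h1, -, h2⟩ | ⟨v, w, h1, h2, h3, h4, h5⟩) |
    ⟨a', b', h1, -, h2, -⟩ | ⟨a', b', h1, -, -, h2⟩
  · exact Or.inl (h.ch_of hG (mem_NF53.2 ⟨h1, Or.inl h2⟩))
  · exact Or.inr ⟨v, w, h1, h2, h3, h4, h5⟩
  · exact Or.inl (h.ch_of hG (mem_NF53.2 ⟨h1, Or.inr (Or.inr ⟨_, h2⟩)⟩))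
  · exact Or.inl (h.ch_of hG (mem_NF53.2 ⟨h1, Or.inl h2.1⟩))

/-- a twin vertex in `N b` is in `Co B` -/
theorem tw_Co (n9 : 9 ≤ Fintype.card V) (h : G.Bb53 Fa B l a b) {u : V} (hu : u ∈ G.nR Fa b)
    (ht : G.IsTw u) : u ∈ G.Co B ∧ u ∈ G.pO B b := by
  rcases h.mem (mem_nR76.1 hu).1 (mem_nR76.1 hu).2 with rfl | h1
  · exact absurd ht ((stTwHL_5 G).notHL n9 _ _ _ h.hl)
  · exact h1

/-- two hubs in `O(b)`: `b` has a charge -/
theorem the (hG : G.Gen5 Fa) (h : G.Bb53 Fa B l a b) {x y : V} (hx : x ∈ G.pO B b)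
    (hy : y ∈ G.pO B b) (hxR : x ∈ R Fa) (hxh : G.Hub x) (hyh : G.Hub y) (hne : x ≠ y) :
    2 ≤ G.ch5 Fa b := by
  obtain ⟨hxb, hxC⟩ := mem_inter.1 hx
  rcases h.cov hG (mem_nR76.2 ⟨hxb, hxR⟩) hxC hxh.1 with h1 | ⟨v, w, h1, h2, h3, h4, h5⟩
  · exact h1
  have hvt : G.IsTw v := ⟨w, h5⟩
  have hwt : G.IsTw w := ⟨v, (stTwHL_5 G).symm _ _ h5⟩
  obtain ⟨hvC, hvO⟩ := h.tw_Co hG.n9 h1 hvt
  obtain ⟨hwC, hwO⟩ := h.tw_Co hG.n9 h2 hwt
  have hvw : v ≠ w := ne_of_nb5 h5.1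
  have hO : G.pO B b = {x, y, v, w} := by
    symm
    refine eq_of_subset_of_card_le ?_ ?_
    · intro u hu
      simp only [mem_insert, mem_singleton] at hu
      rcases hu with rfl | rfl | rfl | rfl
      exacts [hx, hy, hvO, hwO]
    · rw [h.o4, card_insert_of_notMem, card_insert_of_notMem, card_pair hvw]
      · rw [mem_insert, mem_singleton]
        rintro (rfl | rfl)
        exacts [hyh.2 hvt, hyh.2 hwt]
      · rw [mem_insert, mem_insert, mem_singleton]
        rintro (rfl | rfl | rfl)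
        exacts [hne rfl, hxh.2 hvt, hxh.2 hwt]
  rcases h.cov hG h1 hvC (tw_not_low11 hvt) with h6 | ⟨v', w', k1, k2, k3, k4, k5⟩
  · exact h6
  exfalso
  have hv't : G.IsTw v' := ⟨w', k5⟩
  have hw't : G.IsTw w' := ⟨v', (stTwHL_5 G).symm _ _ k5⟩
  have h6 := (h.tw_Co hG.n9 k1 hv't).2
  have h7 := (h.tw_Co hG.n9 k2 hw't).2
  have e1 : v' = w := by
    rw [hO] at h6
    simp only [mem_insert, mem_singleton] at h6
    rcases h6 with rfl | rfl | rfl | e
    · exact absurd hv't hxh.2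
    · exact absurd hv't hyh.2
    · exact absurd (mem_nR76.1 k3).1 (G.irr _)
    · exact e
  have e2 : w' = w := by
    rw [hO] at h7
    simp only [mem_insert, mem_singleton] at h7
    rcases h7 with rfl | rfl | rfl | e
    · exact absurd hw't hxh.2
    · exact absurd hw't hyh.2
    · exact absurd (mem_nR76.1 k4).1 (G.irr _)
    · exact e
  exact ne_of_nb5 k5.1 (e1.trans e2.symm)

end Bb53

theorem The.bb (hG : G.Gen5 Fa) {B : Finset V} {l a b x y : V} (h : G.The Fa B l a b x y)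
    (Ib : G.I Fa b = {B}) : G.Bb53 Fa B l a b :=
  bb53 hG h.hl h.lR (NF_R53 h.nf).1 h.bR h.I1 Ib fun u hu => by
    rw [h.out, mem_insert, mem_singleton] at hu
    rcases hu with rfl | rfl
    exacts [h.bx, h.by']

theorem Eta.pb {B : Finset V} {l a b q p : V} (h : G.Eta Fa B l a b q p) : p ∈ G.nb b := by
  have h1 : b ≠ p := by
    rintro rfl
    exact tw_not_low11 (tw_of76' h.t) h.hl.2.1
  exact G.sym _ _ (Tw_nb5 h.t (G.sym _ _ h.bq) h1)

theorem Eta.bb (hG : G.Gen5 Fa) {B : Finset V} {l a b q p : V} (h : G.Eta Fa B l a b q p)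
    (Ib : G.I Fa b = {B}) : G.Bb53 Fa B l a b :=
  bb53 hG h.hl h.lR (NF_R53 h.nf).1 h.bR h.I1 Ib fun u hu => by
    rw [h.out, mem_insert, mem_singleton] at hu
    rcases hu with rfl | rfl
    exacts [h.bq, h.pb]

/-- the flags of `l` with `HL a b l`, two neighbours in `Co B`, `a` in `T` -/
theorem fl0_53 (n9 : 9 ≤ Fintype.card V) {S : Finset V} {l a : V} (hl : G.Low l)
    (ha : a ∈ G.pT S l) (hal : ¬ G.Low a) (hat : ¬ G.IsTw a) (hX : (G.pX S l).card ≠ 4) :
    G.flv S l = 0 := by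
  classical
  have h1 : G.s5 S l = 0 := K28.s5_zero fun v hv => by
    have h2 := hv.2.2.2.1
    rw [h2, mem_singleton] at ha
    rw [ha] at hal
    exact hal hv.2.2.1
  have h2 : ¬ G.U3 S l := by
    rintro ⟨-, -, -, v, w, h3, h4⟩
    rw [h4, mem_insert, mem_singleton] at ha
    rcases ha with rfl | rfl
    · exact hat ⟨_, h3⟩
    · exact hat ⟨_, (stTwHL_5 G).symm _ _ h3⟩
  have h3 : ¬ G.T3 S l := by
    rintro ⟨-, -, -, Q, Q', r, r', hh, h3, -, -, h4, -⟩
    rw [h4, mem_insert, mem_singleton] at ha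
    rcases ha with rfl | rfl
    · exact hat ⟨_, h3⟩
    · exact hat ⟨_, (stTwHL_5 G).symm _ _ h3⟩
  have h4 : ¬ G.HF S l := fun h => hX h.2.2.1
  have h5 : ¬ G.RF S l := fun ⟨_, p', _, _, h6, _⟩ => tw_not_low11 ⟨p', h6⟩ hl
  rw [flv, h1, if_neg h2, if_neg h3, if_neg h4, if_neg h5]
  norm_num

/-- the charge of a low vertex of type THETA or ETA -/
theorem ch_l53 (hG : G.Gen5 Fa) {B : Finset V} {l a b x y : V} (h : G.L1 Fa B l)
    (ho : G.pO B l = {x, y}) (hne : x ≠ y) (ha : a ∈ G.pT B l) (hl : G.HL a b l)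
    (nf : G.NF Fa l = {a}) (np : G.NP Fa l = ∅) : G.ch5 Fa l = -2 := by
  have hal : ¬ G.Low a := HL_not_low76 hl
  have hat : ¬ G.IsTw a := (stTwHL_5 G).notHL hG.n9 _ _ _ hl
  obtain ⟨hB, hlN⟩ := mem_I_L1_53 h.I1
  have hN : G.N (G.Co B) = G.N B := (stCo_37 G B (hG.reg.frag B hB)).2.1
  have hO : (G.nb l ∩ G.Co B).card = 2 := by
    have h1 : G.nb l ∩ G.Co B = {x, y} := ho
    rw [h1, card_pair hne]
  have hX : (G.nb l ∩ B).card ≠ 4 := by
    have h1 := d_split76 (G := G) l B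
    have h2 : (G.nb l).card = 6 := h.low
    have h3 : 0 < (G.nb l ∩ G.N B).card := card_pos.2 ⟨a, ha⟩
    rw [h2] at h1
    have h4 : (G.nb l ∩ B).card + (G.nb l ∩ G.N B).card + (G.nb l ∩ G.Co B).card = 6 := h1
    omega
  have h1 := (G.stCh5_28).low1 hG.n9 Fa hG.reg l h.lR h.low B h.I1
  have h2 : G.fg5 Fa l = 0 := by
    rw [K28.fg_single h.I1, fl0_53 hG.n9 h.low ha hal hat hX,
      fl0_53 hG.n9 (S := G.Co B) h.low (a := a) ?_ hal hat ?_, sub_zero]
    · rw [pT, hN]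
      exact ha
    · rw [pX, hO]
      norm_num
  have h3 : G.d l (G.Co B) = 2 := hO
  rw [h1, h2, h3, nf, np, card_singleton, card_empty]
  norm_num

theorem The.ch (hG : G.Gen5 Fa) {B : Finset V} {l a b x y : V} (h : G.The Fa B l a b x y) :
    G.ch5 Fa l = -2 := ch_l53 hG h.toL1 h.out h.ne h.aT h.hl h.nf h.np

theorem Eta.ch (hG : G.Gen5 Fa) {B : Finset V} {l a b q p : V} (h : G.Eta Fa B l a b q p) :
    G.ch5 Fa l = -2 := ch_l53 hG h.toL1 h.out (ne_of_nb5 h.t.1) h.aT h.hl h.nf h.np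

/-- at most one `l` with `HL a b l` -/
theorem HL_uniq53 {a a' b l l' : V} (n9 : 9 ≤ Fintype.card V) (h : G.HL a b l)
    (h' : G.HL a' b l') (ht : a' ∈ G.nb b → a' = a) : l' = l := by
  have h1 : a' = a := ht (G.sym _ _ (HL_b76 h'))
  rw [h1] at h'
  have h2 : l' ∈ G.nb a := HL_t76 h'
  by_contra hne
  rcases HL_sup76 h h2 hne with e | e
  · exact (HL_bt76 h').2 e
  · exact (HL_bt76 h').1 e

/-- the low neighbours of `b` in no neighbourhood: not `T3` -/
theorem no_T3_53 (hG : G.Gen5 Fa) {B : Finset V} {l a b : V} (h : G.Bb53 Fa B l a b)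
    {z q p q' p' x : V} (h3 : G.T3s Fa z b q p q' p' x) (hqq : q' ∉ G.nb q) : False := by
  have n9 := hG.n9
  have hbz : b ∈ G.nb z := by rw [h3.nb]; simp
  have hzb : z ∈ G.nb b := G.sym _ _ hbz
  have hza : z ≠ a := by
    rintro rfl
    exact HL_not_low76 h.hl h3.low
  have haz : a ∈ G.nb z := G.sym _ _ (HL_sub76 h.hl hzb hza)
  have hah : G.Hub a := hubHL53 n9 h.hl
  have hax : a = x := by
    rw [h3.nb] at haz
    simp only [mem_insert, mem_singleton] at haz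
    rcases haz with e | e | e | e | e | e
    · exact absurd h3.low' (e ▸ hah.1)
    · exact absurd (tw_of76 h3.t) (e ▸ hah.2)
    · exact absurd (tw_of76' h3.t) (e ▸ hah.2)
    · exact absurd (tw_of76 h3.t') (e ▸ hah.2)
    · exact absurd (tw_of76' h3.t') (e ▸ hah.2)
    · exact e
  -- the pairs are adjacent to `b`
  have key : ∀ {q p q' p' : V}, G.T3s Fa z b q p q' p' x → q' ∉ G.nb q → q ∈ G.nb b ∧
      p ∈ G.nb b := by
    intro q p q' p' h3 hqq
    have hq : q ∈ G.nb z := by rw [h3.nb]; simp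
    have hqR := nb_R76 h3.lR h3.I0 hq
    have hbp : b ≠ p := by
      rintro rfl
      exact tw_not_low11 (tw_of76' h3.t) h3.low'
    have hqb : q ∈ G.nb b := by
      rcases cov_lh86 hG h3.lR (mem_nR76.2 ⟨hq, hqR⟩)
        (by rw [m, h3.I0, empty_inter, card_empty]) (tw_not_low11 (tw_of76 h3.t)) with
        (⟨w, h1, h2, h4⟩ | ⟨v, w, h1, h2, h4, h5, h6⟩) | ⟨a', b', h1, -, h2, -⟩ |
        ⟨a', b', -, -, -, h2⟩
      · have e1 := (mem_nR76.1 h1).1
        rw [h3.nb] at e1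
        simp only [mem_insert, mem_singleton] at e1
        rcases e1 with rfl | rfl | rfl | rfl | rfl | rfl
        · exact G.sym _ _ (mem_nR76.1 h2).1
        · exact absurd h4 (tw_not_low11 (tw_of76 h3.t))
        · exact absurd h4 (tw_not_low11 (tw_of76' h3.t))
        · exact absurd h4 (tw_not_low11 (tw_of76 h3.t'))
        · exact absurd h4 (tw_not_low11 (tw_of76' h3.t'))
        · exact absurd h4 h3.hx.1.1
      · exfalso
        have e0 : v ≠ q := by
          rintro rfl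
          exact G.irr _ (mem_nR76.1 h4).1
        have e0' : w ≠ q := by
          rintro rfl
          exact G.irr _ (mem_nR76.1 h5).1
        have e1 := (mem_nR76.1 h1).1
        rw [h3.nb] at e1
        simp only [mem_insert, mem_singleton] at e1
        have hq'p : q' ∈ G.nb p → q' ∈ G.nb q := fun e => by
          by_cases e2 : q' = q
          · exfalso
            have e3 := (stTwHL_5 G).uniq n9 _ _ _ h3.t (e2 ▸ h3.t')
            have e4 : (G.nb z).card ≤ 4 := by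
              rw [h3.nb, e2, e3]
              have : ({b, q, p', q, p', x} : Finset V) ⊆ {b, q, p', x} := by
                intro u hu
                simp only [mem_insert, mem_singleton] at hu ⊢
                tauto
              exact (card_le_card this).trans card_le_four
            have e5 : (G.nb z).card = 6 := h3.low
            omega
          · exact Tw_nb5 (tw_symm76 h3.t) e e2
        rcases e1 with rfl | rfl | rfl | rfl | rfl | rfl
        · exact tw_not_low11 ⟨_, h6⟩ h3.low'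
        · exact e0 rfl
        · exact e0' ((stTwHL_5 G).uniq n9 _ _ _ h6 (tw_symm76 h3.t))
        · exact hqq (mem_nR76.1 h4).1
        · have e2 := (stTwHL_5 G).uniq n9 _ _ _ h6 (tw_symm76 h3.t')
          rw [e2] at h5
          exact hqq (mem_nR76.1 h5).1
        · exact h3.hx.1.2 ⟨_, h6⟩
      · exfalso
        have e1 := (mem_nR76.1 h1).1
        rw [h3.nb] at e1
        simp only [mem_insert, mem_singleton] at e1
        have e2 : G.Hub a' := hubHL53 n9 h2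
        rcases e1 with rfl | rfl | rfl | rfl | rfl | rfl
        · exact e2.1 h3.low'
        · exact e2.2 (tw_of76 h3.t)
        · exact e2.2 (tw_of76' h3.t)
        · exact e2.2 (tw_of76 h3.t')
        · exact e2.2 (tw_of76' h3.t')
        · exact h3.hx.2.2 ⟨_, h2⟩
      · exact absurd (tw_of76 h3.t) (twLL_5 (LL_symm5 h2))
    exact ⟨hqb, G.sym _ _ (Tw_nb5 h3.t (G.sym _ _ hqb) hbp)⟩
  obtain ⟨k1, k2⟩ := key h3 hqq
  obtain ⟨k3, k4⟩ := key h3.comm (fun e => hqq (G.sym _ _ e))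
  have hb6 : (G.nb b).card = 6 := h.hl.2.1
  have hz6 : (G.nb z).card = 6 := h3.low
  obtain ⟨u, hu⟩ := card_pos.1 (show 0 < (G.nb b ∩ B).card by rw [h.x1]; norm_num)
  obtain ⟨hub, huB⟩ := mem_inter.1 hu
  have huR : u ∉ R Fa := fun e => mem_R76.1 e B (mem_I_L1_53 h.Ib).1 huB
  have hzbz : ({z, q, p, q', p', x} : Finset V).card = 6 := by
    have h5 : ({z, q, p, q', p', x} : Finset V) = insert z ((G.nb z).erase b) := by
      rw [h3.nb]
      ext v
      have hbq : b ≠ q := fun e => tw_not_low11 (tw_of76 h3.t) (e ▸ h3.low')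
      have hbp : b ≠ p := fun e => tw_not_low11 (tw_of76' h3.t) (e ▸ h3.low')
      have hbq' : b ≠ q' := fun e => tw_not_low11 (tw_of76 h3.t') (e ▸ h3.low')
      have hbp' : b ≠ p' := fun e => tw_not_low11 (tw_of76' h3.t') (e ▸ h3.low')
      have hbx : b ≠ x := fun e => h3.hx.1.1 (e ▸ h3.low')
      simp only [mem_insert, mem_singleton, mem_erase]
      constructor
      · rintro (e | e | e | e | e | e)
        · exact Or.inl e
        · exact Or.inr ⟨fun e' => hbq (e'.symm.trans e), Or.inr (Or.inl e)⟩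
        · exact Or.inr ⟨fun e' => hbp (e'.symm.trans e), Or.inr (Or.inr (Or.inl e))⟩
        · exact Or.inr ⟨fun e' => hbq' (e'.symm.trans e), Or.inr (Or.inr (Or.inr (Or.inl e)))⟩
        · exact Or.inr ⟨fun e' => hbp' (e'.symm.trans e),
            Or.inr (Or.inr (Or.inr (Or.inr (Or.inl e))))⟩
        · exact Or.inr ⟨fun e' => hbx (e'.symm.trans e),
            Or.inr (Or.inr (Or.inr (Or.inr (Or.inr e))))⟩
      · rintro (e | ⟨e0, e | e | e | e | e | e⟩)
        · exact Or.inl e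
        · exact absurd e e0
        · exact Or.inr (Or.inl e)
        · exact Or.inr (Or.inr (Or.inl e))
        · exact Or.inr (Or.inr (Or.inr (Or.inl e)))
        · exact Or.inr (Or.inr (Or.inr (Or.inr (Or.inl e))))
        · exact Or.inr (Or.inr (Or.inr (Or.inr (Or.inr e))))
    rw [h5, card_insert_of_notMem (fun e => G.irr _ (mem_erase.1 e).2), card_erase_of_mem hbz,
      hz6]
  have hsub : ({z, q, p, q', p', x} : Finset V) ⊆ (G.nb b).erase u := by
    have hR : ∀ v ∈ G.nb z, v ∈ R Fa := fun v hv => nb_R76 h3.lR h3.I0 hv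
    intro v hv
    have hvb : v ∈ G.nb b := by
      simp only [mem_insert, mem_singleton] at hv
      rcases hv with rfl | rfl | rfl | rfl | rfl | rfl
      · exact hzb
      · exact k1
      · exact k2
      · exact k3
      · exact k4
      · rw [← hax]
        exact G.sym _ _ (HL_b76 h.hl)
    have hvR : v ∈ R Fa := by
      simp only [mem_insert, mem_singleton] at hv
      rcases hv with rfl | hv
      · exact h3.lR
      · refine hR v ?_
        rw [h3.nb]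
        simp only [mem_insert, mem_singleton]
        exact Or.inr hv
    exact mem_erase.2 ⟨fun e => huR (e ▸ hvR), hvb⟩
  have h5 := card_le_card hsub
  rw [hzbz, card_erase_of_mem hub, hb6] at h5
  omega

end CG

end Pool.Agent.Lib.MP_e95c01_co.N
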