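import Pool.Agent.Lib.MP_e95c01_co.X.C6b_53

/-!
# C6b: the vertex `b` of THETA and ETA is asked by `l` only
-/

namespace Pool.Agent.Lib.MP_e95c01_co.N

open Finset

variable {V : Type} [Fintype V] [DecidableEq V]

namespace CG

variable {G : CG V} {Fa : Finset (Finset V)}

theorem Bb53.five {B : Finset V} {l a b : V} (h : G.Bb53 Fa B l a b) {L : List V}
    (hn : L.Nodup) (hL : ∀ u ∈ L, u ∈ G.pO B b) (h5 : L.length = 5) : False := by
  have h1 : L.toFinset.card = 5 := by rw [List.toFinset_card_of_nodup hn, h5]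
  have h2 : L.toFinset ⊆ G.pO B b := fun u hu => hL u (List.mem_toFinset.1 hu)
  have h3 := card_le_card h2
  rw [h1, h.o4] at h3
  omega

/-- the low neighbour `z` of `b` in no neighbourhood is in `Co B` -/
theorem Bb53.zO {B : Finset V} {l a b z : V} (h : G.Bb53 Fa B l a b) (hz : z ∈ G.nb b)
    (hzR : z ∈ R Fa) (hzl : G.Low z) : z ∈ G.pO B b ∧ a ∈ G.nb z := by
  have hza : z ≠ a := by
    rintro rfl
    exact HL_not_low76 h.hl hzl
  refine ⟨?_, G.sym _ _ (HL_sub76 h.hl hz hza)⟩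
  rcases h.mem hz hzR with e | e
  · exact absurd e hza
  · exact e.2

/-- a vertex `z` of type `T6` with the hub `a` and the low neighbour `b`: not possible -/
theorem no_T6a_53 (hG : G.Gen5 Fa) (n12 : 12 ≤ Fintype.card V) {B : Finset V} {l a b : V}
    (h : G.Bb53 Fa B l a b) {z q p y w : V} (h6 : G.T6s Fa z b q p a y w)
    (hadj : q ∈ G.nb b) (hN : G.NoSk Fa z q) : False := by
  have n9 := hG.n9
  have hbz : b ∈ G.nb z := by rw [h6.nb]; simp
  have hqz : q ∈ G.nb z := by rw [h6.nb]; simp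
  have hyz : y ∈ G.nb z := by rw [h6.nb]; simp
  have hwz : w ∈ G.nb z := by rw [h6.nb]; simp
  obtain ⟨hzO, haz⟩ := h.zO (G.sym _ _ hbz) h6.lR h6.low
  have hqR := nb_R76 h6.lR h6.I0 hqz
  have hqt := tw_of76 h6.t
  have hpt := tw_of76' h6.t
  have hpI := q_I76 (qs16 G) hG.reg hqR h6.t
  have hpR := hpI.1
  have hbp : b ≠ p := fun e => tw_not_low11 hpt (e ▸ h6.low')
  have hpb : p ∈ G.nb b := G.sym _ _ (Tw_nb5 h6.t (G.sym _ _ hadj) hbp)
  have hqO := (h.tw_Co n9 (mem_nR76.2 ⟨hadj, hqR⟩) hqt).2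
  have hpO := (h.tw_Co n9 (mem_nR76.2 ⟨hpb, hpR⟩) hpt).2
  have hah : G.Hub a := hubHL53 n9 h.hl
  have hqa : q ≠ a := fun e => hah.2 (e ▸ hqt)
  have haq : a ∈ G.nb q := G.sym _ _ (HL_sub76 h.hl hadj hqa)
  have hIq : G.I Fa q = ∅ := by
    have h1 : (G.I Fa q).card ≠ 1 := fun e =>
      hN e a haz haq hah (by rw [h.Ia, card_singleton])
    have h2 := h6.kq
    rw [← card_eq_zero]
    omega
  have c1 : z ≠ q := fun e => tw_not_low11 hqt (e ▸ h6.low)
  have c2 : z ≠ p := fun e => tw_not_low11 hpt (e ▸ h6.low)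
  have d1 : q ≠ p := ne_of_nb5 h6.t.1
  have hpz : p ∈ G.nb z := by rw [h6.nb]; simp
  have hz6 : (G.nb z).card = 6 := h6.low
  have small : ∀ {s : Finset V}, s.card ≤ 5 → G.nb z ⊆ s → False := by
    intro s hs h1
    have := card_le_card h1
    omega
  have hyw : y ≠ w := by
    intro e
    refine small (s := {b, q, p, a, y}) card_le_five ?_
    rw [h6.nb, ← e]
    intro u hu
    simp only [mem_insert, mem_singleton] at hu ⊢
    tauto
  have hya : y ≠ a := by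
    intro e
    refine small (s := {b, q, p, a, w}) card_le_five ?_
    rw [h6.nb, e]
    intro u hu
    simp only [mem_insert, mem_singleton] at hu ⊢
    tauto
  have hwa : w ≠ a := by
    intro e
    refine small (s := {b, q, p, a, y}) card_le_five ?_
    rw [h6.nb, e]
    intro u hu
    simp only [mem_insert, mem_singleton] at hu ⊢
    tauto
  -- `y`, `w` are not adjacent to `q`
  have h3 := lq_D0_86 hG n12 h6.low h6.t hqz ⟨h6.lR, h6.I0⟩ ⟨hqR, hIq⟩ ⟨hpR, hpI.2.trans hIq⟩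
  have hnq : ∀ {s : V}, s ∈ G.nb z → G.Hub s → s ≠ a → s ∉ G.nb q := by
    intro s hs hsh hsa hsq
    have h4 : ({p, b, a, s} : Finset V) ⊆ G.nb z ∩ G.nb q := by
      intro u hu
      simp only [mem_insert, mem_singleton] at hu
      rcases hu with rfl | rfl | rfl | rfl
      · exact mem_inter.2 ⟨hpz, h6.t.1⟩
      · exact mem_inter.2 ⟨hbz, G.sym _ _ hadj⟩
      · exact mem_inter.2 ⟨haz, haq⟩
      · exact mem_inter.2 ⟨hs, hsq⟩
    have h5 : ({p, b, a, s} : Finset V).card = 4 := by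
      have e1 : p ≠ a := fun e => hah.2 (e ▸ hpt)
      have e2 : p ≠ s := fun e => hsh.2 (e ▸ hpt)
      have e3 : b ≠ a := fun e => hah.1 (e ▸ h6.low')
      have e4 : b ≠ s := fun e => hsh.1 (e ▸ h6.low')
      rw [card_insert_of_notMem, card_insert_of_notMem, card_pair hsa.symm]
      · rw [mem_insert, mem_singleton]
        exact fun e => e.elim e3 e4
      · rw [mem_insert, mem_insert, mem_singleton]
        exact fun e => e.elim (fun e => hbp e.symm) fun e => e.elim e1 e2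
    have := card_le_card h4
    omega
  have key : ∀ {s : V}, s ∈ G.nb z → G.Hub s → s ≠ a → s ∈ G.nb b ∨
      ∃ b', b' ∈ R Fa ∧ G.LL b b' z s := by
    intro s hs hsh hsa
    have hsR := nb_R76 h6.lR h6.I0 hs
    rcases cov_lh86 hG h6.lR (mem_nR76.2 ⟨hs, hsR⟩)
      (by rw [m, h6.I0, empty_inter, card_empty]) hsh.1 with
      (⟨u, h1, h2, h4⟩ | ⟨u, v, h1, h2, h4, h5, h7⟩) | ⟨a', b', h1, -, h2, -⟩ |
      ⟨a', b', h1, hb', -, h2⟩
    · have e1 := (mem_nR76.1 h1).1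
      rw [h6.nb] at e1
      simp only [mem_insert, mem_singleton] at e1
      rcases e1 with rfl | rfl | rfl | rfl | rfl | rfl
      · exact Or.inl (G.sym _ _ (mem_nR76.1 h2).1)
      · exact absurd h4 (tw_not_low11 hqt)
      · exact absurd h4 (tw_not_low11 hpt)
      · exact absurd h4 hah.1
      · exact absurd h4 h6.hy.1.1
      · exact absurd h4 h6.hz.1.1
    · exfalso
      have e1 := (mem_nR76.1 h1).1
      rw [h6.nb] at e1
      simp only [mem_insert, mem_singleton] at e1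
      rcases e1 with rfl | rfl | rfl | rfl | rfl | rfl
      · exact tw_not_low11 ⟨_, h7⟩ h6.low'
      · exact hnq hs hsh hsa (G.sym _ _ (mem_nR76.1 h4).1)
      · have e2 := (stTwHL_5 G).uniq n9 _ _ _ h7 (tw_symm76 h6.t)
        rw [e2] at h5
        exact hnq hs hsh hsa (G.sym _ _ (mem_nR76.1 h5).1)
      · exact hah.2 ⟨_, h7⟩
      · exact h6.hy.1.2 ⟨_, h7⟩
      · exact h6.hz.1.2 ⟨_, h7⟩
    · exfalso
      have e1 := (mem_nR76.1 h1).1
      rw [h6.nb] at e1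
      simp only [mem_insert, mem_singleton] at e1
      have e2 : G.Hub a' := hubHL53 n9 h2
      rcases e1 with rfl | rfl | rfl | rfl | rfl | rfl
      · exact e2.1 h6.low'
      · exact e2.2 hqt
      · exact e2.2 hpt
      · exact h6.hx.2.2 ⟨_, h2⟩
      · exact h6.hy.2.2 ⟨_, h2⟩
      · exact h6.hz.2.2 ⟨_, h2⟩
    · have e1 := (mem_nR76.1 h1).1
      rw [h6.nb] at e1
      simp only [mem_insert, mem_singleton] at e1
      rcases e1 with rfl | rfl | rfl | rfl | rfl | rfl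
      · exact Or.inr ⟨b', hb', h2⟩
      · exact absurd h2.1 (tw_not_low11 hqt)
      · exact absurd h2.1 (tw_not_low11 hpt)
      · exact absurd h2.1 hah.1
      · exact absurd h2.1 h6.hy.1.1
      · exact absurd h2.1 h6.hz.1.1
  -- at most one further vertex in `O(b)`
  have one : ∀ {s s' : V}, s ∈ G.pO B b → s' ∈ G.pO B b → s ≠ q → s ≠ p → s ≠ z → s' ≠ q →
      s' ≠ p → s' ≠ z → s = s' := by
    intro s s' h1 h2 k1 k2 k3 k4 k5 k6
    by_contra hne
    refine h.five (L := [s, s', z, q, p]) ?_ ?_ rfl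
    · simp [hne, k1, k2, k3, k4, k5, k6, c1, c2, d1]
    · intro u hu
      simp only [List.mem_cons, List.not_mem_nil, or_false] at hu
      rcases hu with rfl | rfl | rfl | rfl | rfl
      exacts [h1, h2, hzO, hqO, hpO]
  have hub : ∀ {s : V}, s ∈ G.nb z → G.Hub s → s ≠ a → s ∈ G.nb b → s ∈ G.pO B b ∧ s ≠ q ∧
      s ≠ p ∧ s ≠ z := by
    intro s hs hsh hsa hsb
    refine ⟨?_, fun e => hsh.2 (e ▸ hqt), fun e => hsh.2 (e ▸ hpt), fun e => hsh.1 (e ▸ h6.low)⟩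
    rcases h.mem hsb (nb_R76 h6.lR h6.I0 hs) with e | e
    · exact absurd e hsa
    · exact e.2
  have lol : ∀ {s b' : V}, b' ∈ R Fa → G.LL b b' z s → b' ∈ G.pO B b ∧ b' ≠ q ∧ b' ≠ p ∧
      b' ≠ z := by
    intro s b' hb' hLL
    have hbl : G.Low b' := hLL.2.1
    refine ⟨?_, fun e => tw_not_low11 hqt (e ▸ hbl), fun e => tw_not_low11 hpt (e ▸ hbl),
      fun e => (LL_tb76 hLL).2 e.symm⟩
    rcases h.mem (LL_ab76 hLL) hb' with e | e
    · exact absurd hbl (e ▸ hah.1)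
    · exact e.2
  have hyh := h6.hy.1
  have hwh := h6.hz.1
  rcases key hyz hyh hya with k1 | ⟨b1, hb1, k1⟩
  · obtain ⟨x1, x2, x3, x4⟩ := hub hyz hyh hya k1
    rcases key hwz hwh hwa with k2 | ⟨b2, hb2, k2⟩
    · obtain ⟨y1, y2, y3, y4⟩ := hub hwz hwh hwa k2
      exact hyw (one x1 y1 x2 x3 x4 y2 y3 y4)
    · obtain ⟨y1, y2, y3, y4⟩ := lol hb2 k2
      have e := one x1 y1 x2 x3 x4 y2 y3 y4
      rw [e] at hyh
      exact hyh.1 k2.2.1
  · obtain ⟨x1, x2, x3, x4⟩ := lol hb1 k1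
    rcases key hwz hwh hwa with k2 | ⟨b2, hb2, k2⟩
    · obtain ⟨y1, y2, y3, y4⟩ := hub hwz hwh hwa k2
      have e := one x1 y1 x2 x3 x4 y2 y3 y4
      rw [← e] at hwh
      exact hwh.1 k1.2.1
    · obtain ⟨y1, y2, y3, y4⟩ := lol hb2 k2
      have e := one x1 y1 x2 x3 x4 y2 y3 y4
      rw [← e] at k2
      have e1 : insert y (G.cl b) = insert w (G.cl b) :=
        k1.2.2.2.2.2.2.trans k2.2.2.2.2.2.2.symm
      have e2 : y ∈ insert w (G.cl b) := e1 ▸ mem_insert_self _ _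
      rcases mem_insert.1 e2 with e3 | e3
      · exact hyw e3
      · exact k1.2.2.2.2.2.1 e3

/-- no vertex `z` of type `T6` asks `b` -/
theorem no_T6_53 (hG : G.Gen6 Fa) {B : Finset V} {l a b : V} (h : G.Bb53 Fa B l a b)
    {z q p x y w : V} (h6 : G.T6s Fa z b q p x y w)
    (hadj : q ∈ G.nb b) (hN : G.NoSk Fa z q) : False := by
  have hbz : b ∈ G.nb z := by rw [h6.nb]; simp
  obtain ⟨-, haz⟩ := h.zO (G.sym _ _ hbz) h6.lR h6.low
  have hah : G.Hub a := hubHL53 hG.g5.n9 h.hl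
  have n12 : 12 ≤ Fintype.card V := by
    have := hG.n13
    omega
  rw [h6.nb] at haz
  simp only [mem_insert, mem_singleton] at haz
  rcases haz with rfl | rfl | rfl | rfl | rfl | rfl
  · exact hah.1 h6.low'
  · exact hah.2 (tw_of76 h6.t)
  · exact hah.2 (tw_of76' h6.t)
  · exact no_T6a_53 hG.g5 n12 h h6 hadj hN
  · exact no_T6a_53 hG.g5 n12 h h6.perm1 hadj hN
  · exact no_T6a_53 hG.g5 n12 h h6.perm2.perm1 hadj hN

theorem Bb53.mem_B {B : Finset V} {l a b : V} (h : G.Bb53 Fa B l a b) {B' : Finset V}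
    (hB' : B' ∈ Fa) (hb : b ∈ G.N B') : B' = B := by
  have h1 : B' ∈ G.I Fa b := mem_I76.2 ⟨hB', hb⟩
  rw [h.Ib, mem_singleton] at h1
  exact h1

/-- a vertex `z` of `N B'` with `b` in `T(z)` is `a` -/
theorem Bb53.eq_a {B : Finset V} {l a b : V} (h : G.Bb53 Fa B l a b) {B' : Finset V} {z : V}
    (hB' : B' ∈ Fa) (hz : z ∈ G.N B') (hb : b ∈ G.pT B' z) : z = a := by
  obtain ⟨h1, h2⟩ := mem_inter.1 hb
  have h3 := h.mem_B hB' h2
  subst h3
  have h4 : z ∈ G.pT B' b := mem_inter.2 ⟨G.sym _ _ h1, hz⟩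
  rw [h.t1, mem_singleton] at h4
  exact h4

/-- only `l` asks `b` -/
theorem Bb53.only (hG : G.Gen6 Fa) (hT : G.StT6) {B : Finset V} {l a b : V}
    (h : G.Bb53 Fa B l a b) {z : V} (hz : G.DL Fa z b) : z = l := by
  have n9 := hG.g5.n9
  have hal := HL_not_low76 h.hl
  have htr : ∀ {a' : V}, a' ∈ R Fa → z ∈ R Fa → G.HL a' b z → z = l := by
    intro a' ha' hzR hHL
    refine HL_uniq53 n9 h.hl hHL fun h1 => ?_
    have h2 : G.I Fa a' = {B} := (HL_I76 (Fa := Fa) hHL ha' h.bR hzR).trans h.Ib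
    have h3 : a' ∈ G.pT B b := mem_inter.2 ⟨h1, mem_N_I53 h2⟩
    rw [h.t1, mem_singleton] at h3
    exact h3
  rcases hz with ⟨h1⟩ | ⟨h1⟩ | ⟨h1⟩ | ⟨h1⟩ | ⟨h1⟩ | ⟨h1, h2⟩ | ⟨h1, h2⟩ | ⟨-, h1, h2⟩
  · exact absurd h1.low (h.eq_a (mem_I_L1_53 h1.I1).1 (mem_I_L1_53 h1.I1).2 h1.dT ▸ hal)
  · exact htr (NF_R53 h1.nf).1 h1.lR h1.hl
  · exact absurd h1.low (h.eq_a (mem_I_L1_53 h1.I1).1 (mem_I_L1_53 h1.I1).2 h1.dT ▸ hal)
  · exact htr (NF_R53 h1.nf).1 h1.lR h1.hl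
  · exact absurd h1.low (h.eq_a (mem_I_L1_53 h1.I1).1 (mem_I_L1_53 h1.I1).2
      (h1.s0.2.2.2.1.symm ▸ mem_singleton_self _) ▸ hal)
  · exact (no_T3_53 hG.g5 h h1 h2).elim
  · exact (no_T6_53 hG h h1 (hT.adj Fa hG _ _ _ _ _ _ _ h1) h2.1).elim
  · exact absurd h2.2.1 (h.eq_a (mem_I76.1 h1).1 (mem_I76.1 h1).2
      (h2.2.2.2.1.symm ▸ mem_singleton_self _) ▸ hal)

theorem Bb53.noAL (n9 : 9 ≤ Fintype.card V) {B : Finset V} {l a b : V}
    (h : G.Bb53 Fa B l a b) {z : V} : ¬ G.AL Fa z b := by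
  rintro ⟨B', p, e, f, w, h1⟩
  have h2 := h.eq_a (mem_I_L1_53 h1.I1).1 (mem_I_L1_53 h1.I1).2 (h1.nT.symm ▸ by simp)
  exact (stTwHL_5 G).notHL n9 _ _ _ h.hl (h2 ▸ tw_of76 h1.t)

/-- `b` pays the vertex `l` only -/
theorem Bb53.ask (hG : G.Gen6 Fa) (hT : G.StT6) {B : Finset V} {l a b : V}
    (h : G.Bb53 Fa B l a b) (hl : G.ch5 Fa l = -2) (hc : 2 ≤ G.ch5 Fa b) :
    G.ask Fa b ≤ 2 * G.ch5 Fa b := by
  classical
  have n9 := hG.g5.n9
  have h1 : G.ask Fa b = G.dn5 Fa b l := by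
    rw [CG.ask]
    refine sum_eq_single_of_mem l h.lR fun z _ hz => ?_
    rw [dn5_low53 n9 h.hl.2.1, if_neg (fun e => hz (h.only hG hT e)), if_neg (h.noAL n9), add_zero]
  rw [h1, dn5_low53 n9 h.hl.2.1, if_neg (h.noAL n9), hl]
  split_ifs <;> linarith

/-- C6b -/
theorem stC6b_53 (G : CG V) (hT : G.StT6) : G.StC6b := by
  intro Fa hG B b hb hla
  obtain ⟨l, a, h, hD⟩ := hla
  rcases h with ⟨x, y, h⟩ | ⟨q, p, h⟩
  · have hb' := h.bb hG.g5 hb.I1
    refine hb'.ask hG hT (h.ch hG.g5) ?_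
    have hx : x ∈ G.pO B l := h.out.symm ▸ mem_insert_self _ _
    have hy : y ∈ G.pO B l := h.out.symm ▸ mem_insert_of_mem (mem_singleton_self _)
    have hxC := (mem_inter.1 hx).2
    have hyC := (mem_inter.1 hy).2
    have hxR : x ∈ R Fa := by
      refine mem_R76.2 fun A hA hxA => ?_
      have h1 : A ∈ G.I Fa l := I_of_nb76 h.lR hA (mem_inter.1 hx).1 hxA
      rw [h.I1, mem_singleton] at h1
      subst h1
      exact (mem_Co76.1 hxC).1 hxA
    exact hb'.the hG.g5 (mem_inter.2 ⟨h.bx, hxC⟩) (mem_inter.2 ⟨h.by', hyC⟩) hxR h.hx.1 h.hy.1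
      h.ne
  · have hb' := h.bb hG.g5 hb.I1
    refine hb'.ask hG hT (h.ch hG.g5) ?_
    have hIl : (G.I Fa l).card = 1 := by rw [h.I1, card_singleton]
    rcases hD with ⟨h1⟩ | ⟨h1⟩ | ⟨h1⟩ | ⟨-, -, h1⟩ | ⟨h1⟩ | ⟨h1⟩ | ⟨h1⟩ | ⟨h1⟩
    · have h2 := h1.nf
      rw [h.nf, singleton_inj] at h2
      exact absurd hb.low (h2 ▸ HL_not_low76 h.hl)
    · have h2 := h1.I1
      rw [h.I1, singleton_inj] at h2
      subst h2
      have hq : q ∈ G.pO B l := h.out.symm ▸ mem_insert_self _ _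
      rw [h1.out, mem_insert, mem_singleton] at hq
      rcases hq with rfl | rfl
      · exact absurd (tw_of76 h.t) h1.hx.1.2
      · exact absurd (tw_of76 h.t) h1.hy.1.2
    · have h2 := h1.nf
      rw [h.nf, singleton_inj] at h2
      exact absurd hb.low (h2 ▸ HL_not_low76 h.hl)
    · exact h1
    · have h2 := h1.I1
      rw [h.I1, singleton_inj] at h2
      subst h2
      have h3 := h.aT
      rw [h1.s0.2.2.2.1, mem_singleton] at h3
      exact absurd hb.low (h3 ▸ HL_not_low76 h.hl)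
    · rw [h1.I0, card_empty] at hIl
      omega
    · rw [h1.I0, card_empty] at hIl
      omega
    · omega

end CG

end Pool.Agent.Lib.MP_e95c01_co.N
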