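import Pool.Agent.Lib.MP_e95c01_co.X.StmtsT76

/-!
# `λ = 3`, thick torsos: statements for the capacities
-/

namespace Pool.Agent.Lib.MP_e95c01_co.N

open Finset

variable {V : Type} [Fintype V] [DecidableEq V] (G : CG V)

namespace CG

open Classical in
/-- the low vertices that pay the hub `x` and do not skip it -/
noncomputable def FuL (Fa : Finset (Finset V)) (x : V) : Finset V :=
  (G.HPl Fa x).filter fun l => ¬ G.SK Fa l x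

open Classical in
/-- the twin vertices that pay the hub `x` and are not poor -/
noncomputable def FuT (Fa : Finset (Finset V)) (x : V) : Finset V :=
  (G.HPt Fa x).filter fun q => ¬ G.PQ Fa q x

/-- `e` is a full payer of `x` -/
def Full (Fa : Finset (Finset V)) (e x : V) : Prop :=
  e ∈ G.FuL Fa x ∨ ∃ f, G.Tw e f ∧ e ∈ G.FuT Fa x ∧ f ∈ G.FuT Fa x

/-! ## M5: receivers in no neighbourhood -/

/-- M5c: structure of `T6` -/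
structure StT6 : Prop where
  /-- the pair of twins is adjacent to `l'` -/
  adj : ∀ Fa, G.Gen6 Fa → ∀ l l' q p x y z, G.T6s Fa l l' q p x y z → q ∈ G.nb l'
  d0 : ∀ Fa, G.Gen6 Fa → ∀ l l' q p x y z, G.T6s Fa l l' q p x y z →
    (G.I Fa q).Nonempty ∨ (G.I Fa l').Nonempty
  /-- the pair of twins is in no neighbourhood -/
  b : ∀ Fa, G.Gen6 Fa → ∀ l l' q p x y z, G.T6s Fa l l' q p x y z → G.I Fa q = ∅ →
    (G.I Fa l').card = 1 ∧ ((∃ g, G.Good Fa l l' g) ∨ 2 ≤ G.ch5 Fa l')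
  /-- the pair of twins is in one neighbourhood -/
  a : ∀ Fa, G.Gen6 Fa → ∀ l l' q p x y z, G.T6s Fa l l' q p x y z → (G.I Fa q).card = 1 →
    G.NoQ Fa l q → (∃ g, G.Good Fa l l' g) ∨ 2 ≤ G.ch5 Fa l' ∨
      (∃ g ∈ G.nb l, g ∈ G.nb q ∧ G.Hub g ∧ G.I Fa g = ∅)
  /-- if the pair does not help, the low neighbour is not poor -/
  np : ∀ Fa, G.Gen6 Fa → ∀ l l' q p x y z, G.T6s Fa l l' q p x y z → G.NoQ Fa l q →
    0 ≤ G.ch5 Fa l'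
  dbl : ∀ Fa, G.Gen6 Fa → ∀ l l' q p x y z, G.T6s Fa l l' q p x y z → (G.I Fa q).card = 1 →
    G.NoSk Fa l q → G.Dbl Fa l l' q → ∃ g ∈ G.nb l, g ∈ G.nb l' ∧ G.Hub g

/-! ## C6: capacity of the low vertices -/

/-- what is asked from the vertex `d` -/
noncomputable def ask (Fa : Finset (Finset V)) (d : V) : ℤ := ∑ z ∈ R Fa, G.dn5 Fa d z

/-- C6a: low vertices in no neighbourhood -/
def StC6a : Prop := ∀ Fa, G.Gen6 Fa → ∀ d, G.L0 Fa d → G.ask Fa d = 0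

/-- C6b: the vertex `b` of THETA and ETA, `I b = {B}` -/
def StC6b : Prop := ∀ Fa, G.Gen6 Fa → ∀ B b, G.L1 Fa B b →
  (∃ l a, ((∃ x y, G.The Fa B l a b x y) ∨ ∃ q p, G.Eta Fa B l a b q p) ∧ G.DL Fa l b) →
  G.ask Fa b ≤ 2 * G.ch5 Fa b

/-- C6c: four or more outer neighbours -/
def StC6c : Prop := ∀ Fa, G.Gen6 Fa → ∀ B d, G.L1 Fa B d → 4 ≤ G.d d (G.Co B) →
  ¬ (∃ l a, ((∃ x y, G.The Fa B l a d x y) ∨ ∃ q p, G.Eta Fa B l a d q p) ∧ G.DL Fa l d) →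
  G.ask Fa d ≤ 2 * G.ch5 Fa d

/-- C6d: three outer neighbours -/
def StC6d : Prop := ∀ Fa, G.Gen6 Fa → ∀ B d, G.L1 Fa B d → G.d d (G.Co B) = 3 →
  G.ask Fa d ≤ max 0 (2 * G.ch5 Fa d)

/-- C6e: two outer neighbours -/
def StC6e : Prop := ∀ Fa, G.Gen6 Fa → ∀ B d, G.L1 Fa B d → G.d d (G.Co B) = 2 →
  G.ask Fa d ≤ max 0 (2 * G.ch5 Fa d)

/-- C6f: two or more neighbourhoods -/
def StC6f : Prop := ∀ Fa, G.Gen6 Fa → ∀ d ∈ R Fa, G.Low d → 2 ≤ (G.I Fa d).card →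
  G.ask Fa d ≤ max 0 (2 * G.ch5 Fa d)

/-! ## C7: capacity of the twin vertices -/

open Classical in
/-- C7a: in one neighbourhood -/
def StC7a : Prop := ∀ Fa, G.Gen6 Fa → ∀ q ∈ R Fa, G.IsTw q → (G.I Fa q).card = 1 →
  G.ask Fa q ≤ 2 * G.ch5 Fa q + ∑ x ∈ R Fa, G.dn5 Fa x q + (if G.InK6 Fa q then 2 else 0)

open Classical in
/-- C7b: in no neighbourhood -/
def StC7b : Prop := ∀ Fa, G.Gen6 Fa → ∀ q ∈ R Fa, G.IsTw q → G.I Fa q = ∅ →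
  G.ask Fa q ≤ 2 * G.ch5 Fa q + ∑ x ∈ R Fa, G.dn5 Fa x q + (if G.InK6 Fa q then 2 else 0)

/-- C7t: what the low vertices ask from the twin vertex `q` (not in two neighbourhoods) -/
structure StC7t : Prop where
  one : ∀ Fa, G.Gen6 Fa → ∀ q ∈ R Fa, G.IsTw q → ∀ l ∈ R Fa, G.dn5 Fa q l ≤ 2
  low : ∀ Fa, G.Gen6 Fa → ∀ q ∈ R Fa, G.IsTw q → ∀ l ∈ R Fa, G.dn5 Fa q l ≠ 0 →
    G.Low l ∧ l ∈ G.nb q ∧ G.ch5 Fa l < 0
  lq : ∀ Fa, G.Gen6 Fa → ∀ q ∈ R Fa, G.IsTw q → ∀ l d p B, G.Eps Fa B l d q p →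
    G.dn5 Fa q d = 0
  lv : ∀ Fa, G.Gen6 Fa → ∀ q ∈ R Fa, G.IsTw q → ∀ l v p B y, G.S0s Fa B l v q p y →
    G.dn5 Fa q l + G.dn5 Fa q v ≤ 2

/-! ## C8: capacity of the hubs -/

/-- C8a: the covering class of a poor pair `q` at the hub `x` -/
def StC8a : Prop := ∀ Fa, G.Gen6 Fa → ∀ x ∈ R Fa, G.Hub x → (G.I Fa x).card ≤ 1 → ∀ q,
  G.PQ Fa q x → ∃ e ∈ G.nb q, G.Full Fa e x

/-- C8b: hubs in one neighbourhood have a full payer -/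
def StC8b : Prop := ∀ Fa, G.Gen6 Fa → ∀ x ∈ R Fa, G.Hub x → (G.I Fa x).card = 1 →
  ∃ e, G.Full Fa e x

/-- the full payers of `x` are `e` and perhaps its twin; all other low or twin neighbours of `x`
are poor twin vertices or low vertices `d` with `HL x e d` -/
structure Sing (Fa : Finset (Finset V)) (x e : V) : Prop where
  xR : x ∈ R Fa
  hub : G.Hub x
  I0 : G.I Fa x = ∅
  full : G.Full Fa e x
  low : ∀ d ∈ G.nb x, G.Low d → d = e ∨ G.HL x e d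
  tw : ∀ q ∈ G.nb x, G.IsTw q → q = e ∨ G.Tw e q ∨ G.PQ Fa q x
  adj : ∀ q, G.PQ Fa q x → e ∈ G.nb q

/-- C8c: `x` with a low vertex of type `T4` that skips it -/
def StC8c : Prop := ∀ Fa, G.Gen6 Fa → ∀ l q p q' p' x y, G.T4s Fa l q p q' p' x y →
  G.I Fa x = ∅ → G.RFt Fa q → ∃ e e', G.Full Fa e x ∧ G.Full Fa e' x ∧ e ≠ e' ∧ ¬ G.Tw e e'

/-- C8d: hubs in no neighbourhood with at most one full payer -/
def StC8d : Prop := ∀ Fa, G.Gen6 Fa → ∀ x ∈ R Fa, G.Hub x → G.I Fa x = ∅ →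
  (∃ e e', G.Full Fa e x ∧ G.Full Fa e' x ∧ e ≠ e' ∧ ¬ G.Tw e e') ∨
  (∃ e, G.Sing Fa x e ∧ ∃ q, G.PQ Fa q x)

/-- C8e: two poor pairs -/
def StC8e : Prop := ∀ Fa, G.Gen6 Fa → ∀ x e, G.Sing Fa x e → ∀ q q', G.PQ Fa q x → G.PQ Fa q' x →
  q ≠ q' → G.Tw q q'

/-- C8f: one poor pair with two lows -/
def StC8f : Prop := ∀ Fa, G.Gen6 Fa → ∀ x e, G.Sing Fa x e → ∀ q p, G.Tw q p → G.PQ Fa q x →
  (∀ q', G.PQ Fa q' x → q' = q ∨ q' = p) → G.tl Fa q = 2 → False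

/-- C8g: one poor pair with three lows -/
def StC8g : Prop := ∀ Fa, G.Gen6 Fa → ∀ x e, G.Sing Fa x e → ∀ q p, G.Tw q p → G.PQ Fa q x →
  (∀ q', G.PQ Fa q' x → q' = q ∨ q' = p) → G.tl Fa q = 3 → False

/-- C8h: hubs that pay a low vertex of type ETA -/
def StC8h : Prop := ∀ Fa, G.Gen6 Fa → ∀ B l a b q p, G.Eta Fa B l a b q p → G.ch5 Fa l < 0 →
  G.ch5 Fa b < 2 → G.ask Fa a ≤ 2 * G.ch5 Fa a

/-- C8i: hubs that pay a low vertex of type `T6` -/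
def StC8i : Prop := ∀ Fa, G.Gen6 Fa → ∀ x ∈ R Fa, G.Hub x →
  (∃ l, G.HS Fa l x ∨ (G.HD Fa l x ∧ ∃ l' q p u v w, G.T6s Fa l l' q p u v w)) →
  G.ask Fa x ≤ 2 * G.ch5 Fa x

end CG

end Pool.Agent.Lib.MP_e95c01_co.N
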