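import Pool.Agent.Lib.MP_e95c01_co.X.Def_28
import Pool.Agent.Lib.MP_e95c01_co.X.StmtsU76

/-!
# `λ = 3`, thick torsos, row C6f: what is asked from a low vertex in two or more neighbourhoods
-/

namespace Pool.Agent.Lib.MP_e95c01_co.N

open Finset

variable {V : Type} [Fintype V] [DecidableEq V]

namespace CG

open K28

namespace C6f

variable {G : CG V} {Fa : Finset (Finset V)}

theorem out_R {B : Finset V} {l x : V} (h : G.L1 Fa B l) (hx : x ∈ G.pO B l) :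
    x ∈ R Fa ∧ x ∈ G.nb l ∧ x ∉ G.N B := by
  have h1 : x ∈ G.nb l ∩ G.Co B := hx
  have h2 := nR_Co5 h.lR h.I1 h1
  exact ⟨(mem_nR76.1 h2).2, (mem_inter.1 h1).1, (mem_Co76.1 (mem_inter.1 h1).2).2⟩

/-- data of a claimant of type GAMMA -/
theorem gam_mem {B : Finset V} {l d x y : V} (hG : G.Gen6 Fa) (h : G.Gam Fa B l d x y) :
    l ∈ G.nR Fa d ∧ x ∈ R Fa ∧ y ∈ R Fa ∧ d ∈ G.N B ∧ x ∈ G.pO B l ∧ y ∈ G.pO B l := by
  have h1 : x ∈ G.pO B l := by rw [h.out]; exact mem_insert_self _ _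
  have h2 : y ∈ G.pO B l := by rw [h.out]; exact mem_insert_of_mem (mem_singleton_self _)
  have h3 := mem_inter.1 h.dT
  exact ⟨mem_nR76.2 ⟨G.sym _ _ h3.1, h.lR⟩, (out_R h.toL1 h1).1, (out_R h.toL1 h2).1, h3.2, h1,
    h2⟩

theorem mld {B : Finset V} {l d : V} (h : G.L1 Fa B l) (hd : d ∈ G.N B) :
    G.m Fa l d = 1 := by
  have h1 : G.m Fa l d ≠ 0 := m_ne0 h.BF28 h.N28 hd
  have h2 := m_le_left (G := G) (Fa := Fa) l d
  rw [h.I1, card_singleton] at h2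
  omega

/-- the private neighbour of `b` -/
theorem LL_same {d b l x y : V} (h : G.LL d b l x) (h' : G.LL d b l y) : x = y := by
  by_contra hne
  rcases LL_from76 h' (LL_u76 h) hne with h1 | h1
  · exact (LL_ua76 h).2 h1
  · exact (LL_ua76 h).1 h1

/-- a pair `q p` adjacent to `d` -/
theorem pair_nR (hG : G.Gen6 Fa) {d q p : V} (hd : G.Low d) (ht : G.Tw q p) (hq : q ∈ G.nb d)
    (hqR : q ∈ R Fa) : q ∈ G.nR Fa d ∧ p ∈ G.nR Fa d := by
  have h1 := (stTwHL_5 G).twI Fa hG.g5.reg q hqR p ht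
  have h2 : d ≠ p := by
    rintro rfl
    exact tw_not_low76 (tw_of76' ht) hd
  exact ⟨mem_nR76.2 ⟨hq, hqR⟩, mem_nR76.2 ⟨G.sym _ _ (Tw_nb5 ht (G.sym _ _ hq) h2), h1.1⟩⟩

/-- four visible neighbours -/
theorem too_many {S : Finset V} {a b c e : V} (h : S.card ≤ 3) (ha : a ∈ S) (hb : b ∈ S)
    (hc : c ∈ S) (he : e ∈ S) (h1 : a ≠ b) (h2 : a ≠ c) (h3 : a ≠ e) (h4 : b ≠ c) (h5 : b ≠ e)
    (h6 : c ≠ e) : False := by
  have := four_le5 ha hb hc he h1 h2 h3 h4 h5 h6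
  omega

theorem low_ne_tw {z q : V} (hz : G.Low z) (hq : G.IsTw q) : z ≠ q := by
  rintro rfl
  exact tw_not_low76 hq hz

theorem low_ne_hub {z x : V} (hz : G.Low z) (hx : G.Hub x) : z ≠ x := by
  rintro rfl
  exact hx.1 hz

/-- a claimant in two or more neighbourhoods excludes all others -/
theorem excl (hG : G.Gen6 Fa) {d z l : V} (hz : G.Don2 Fa d z) (h : G.DL Fa l d) :
    G.Don2 Fa d l := by
  obtain ⟨p1, p2, p3, p4, p5, p6, p7, p8⟩ := don2_prop hG.g5 hz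
  have hzl := hz.2.1
  have hdR := (mem_nR76.1 p2).2
  have few := p8.few
  have hne1 : ∀ {l : V}, (G.I Fa l).card = 1 → z ≠ l := by
    intro l hl he
    rw [he, hl] at p5
    omega
  cases h with
  | @gam B l d x y h hneg hk =>
    exfalso
    obtain ⟨m1, m2, m3, m4, m5, m6⟩ := gam_mem hG h
    have hzl' : z ≠ l := hne1 (by rw [h.I1, card_singleton])
    have hm := mld h.toL1 m4
    have hx := h.hx.1
    have hy := h.hy.1
    have hb : ∀ {b u : V}, b ∈ R Fa → u ∈ R Fa → G.LL d b l u →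
        b ∈ G.nR Fa d ∧ z ≠ b ∧ l ≠ b ∧ G.Low b := by
      intro b u hb hu hL
      refine ⟨mem_nR76.2 ⟨LL_ab76 hL, hb⟩, ?_, (LL_tb76 hL).2, hL.2.1⟩
      rintro rfl
      have := p8.noLL l h.lR u hu hL
      omega
    rcases h.covx with cx | ⟨b, hbR, cx⟩
    · rcases h.covy with cy | ⟨b', hb'R, cy⟩
      · exact too_many few p3 m1 (mem_nR76.2 ⟨cx, m2⟩) (mem_nR76.2 ⟨cy, m3⟩) hzl'
          (low_ne_hub hzl hx) (low_ne_hub hzl hy) (low_ne_hub h.low hx) (low_ne_hub h.low hy) h.ne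
      · obtain ⟨n1, n2, n3, n4⟩ := hb hb'R m3 cy
        exact too_many few p3 m1 (mem_nR76.2 ⟨cx, m2⟩) n1 hzl' (low_ne_hub hzl hx) n2
          (low_ne_hub h.low hx) n3 (low_ne_hub n4 hx).symm
    · obtain ⟨n1, n2, n3, n4⟩ := hb hbR m2 cx
      rcases h.covy with cy | ⟨b', hb'R, cy⟩
      · exact too_many few p3 m1 (mem_nR76.2 ⟨cy, m3⟩) n1 hzl' (low_ne_hub hzl hy) n2
          (low_ne_hub h.low hy) n3 (low_ne_hub n4 hy).symm
      · obtain ⟨k1, k2, k3, k4⟩ := hb hb'R m3 cy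
        by_cases hbb : b = b'
        · rw [← hbb] at cy
          exact h.ne (LL_same cx cy)
        · exact too_many few p3 m1 n1 k1 hzl' n2 k2 n3 k3 hbb
  | @the B l a b x y h hneg h1 h2 =>
    exfalso
    have ha : a ∈ R Fa := N_R hG.g5.reg h.toL1.BF28 (mem_inter.1 h.aT).2
    exact p8.noHL a ha l h.lR h.hl
  | @eps B l d q p h hneg hk =>
    exfalso
    have hq : q ∈ G.pO B l := by rw [h.out]; exact mem_insert_self _ _
    obtain ⟨n1, n2⟩ := pair_nR hG h.dl h.t h.dq (out_R h.toL1 hq).1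
    have h3 := mem_inter.1 h.dT
    exact too_many few p3 (mem_nR76.2 ⟨G.sym _ _ h3.1, h.lR⟩) n1 n2
      (hne1 (by rw [h.I1, card_singleton])) (low_ne_tw hzl ⟨p, h.t⟩)
      (low_ne_tw hzl (tw_of76' h.t)) (low_ne_tw h.low ⟨p, h.t⟩)
      (low_ne_tw h.low (tw_of76' h.t)) (tw_ne h.t)
  | @eta B l a b q p h hneg hk =>
    exfalso
    have ha : a ∈ R Fa := N_R hG.g5.reg h.toL1.BF28 (mem_inter.1 h.aT).2
    exact p8.noHL a ha l h.lR h.hl
  | @s0 B l v q p y h hneg hk =>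
    exfalso
    have hq : q ∈ G.pO B l := by rw [h.out]; exact mem_insert_self _ _
    obtain ⟨n1, n2⟩ := pair_nR hG h.s0.2.2.1 h.t h.vq (out_R h.toL1 hq).1
    have h3 : d ∈ G.pT B l := by rw [h.s0.2.2.2.1]; exact mem_singleton_self _
    exact too_many few p3 (mem_nR76.2 ⟨G.sym _ _ (mem_inter.1 h3).1, h.lR⟩) n1 n2
      (hne1 (by rw [h.I1, card_singleton])) (low_ne_tw hzl ⟨p, h.t⟩)
      (low_ne_tw hzl (tw_of76' h.t)) (low_ne_tw h.low ⟨p, h.t⟩)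
      (low_ne_tw h.low (tw_of76' h.t)) (tw_ne h.t)
  | @t3 l l' q p q' p' x h hn hI =>
    exfalso
    obtain ⟨a1, a2, a3, a4⟩ := h.adj28 hG hn
    have hq : q ∈ G.nb l := by rw [h.nb]; simp
    have hq' : q' ∈ G.nb l := by rw [h.nb]; simp
    have hl' : d ∈ G.nb l := by rw [h.nb]; simp
    obtain ⟨n1, n2⟩ := pair_nR hG h.low' h.t a1 (nb_R76 h.lR h.I0 hq)
    have hzl0 : z ≠ l := by
      rintro rfl
      rw [h.I0, card_empty] at p5
      omega
    exact too_many few p3 (mem_nR76.2 ⟨G.sym _ _ hl', h.lR⟩) n1 n2 hzl0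
      (low_ne_tw hzl ⟨p, h.t⟩)
      (low_ne_tw hzl (tw_of76' h.t)) (low_ne_tw h.low ⟨p, h.t⟩)
      (low_ne_tw h.low (tw_of76' h.t)) (tw_ne h.t)
  | @t6 l l' q p x y z' h hn hg hI =>
    exfalso
    obtain ⟨a1, a2⟩ := h.adj28 hG
    have hq : q ∈ G.nb l := by rw [h.nb]; simp
    have hl' : d ∈ G.nb l := by rw [h.nb]; simp
    obtain ⟨n1, n2⟩ := pair_nR hG h.low' h.t a1 (nb_R76 h.lR h.I0 hq)
    have hzl0 : z ≠ l := by
      rintro rfl
      rw [h.I0, card_empty] at p5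
      omega
    exact too_many few p3 (mem_nR76.2 ⟨G.sym _ _ hl', h.lR⟩) n1 n2 hzl0
      (low_ne_tw hzl ⟨p, h.t⟩)
      (low_ne_tw hzl (tw_of76' h.t)) (low_ne_tw h.low ⟨p, h.t⟩)
      (low_ne_tw h.low (tw_of76' h.t)) (tw_ne h.t)
  | @k2 B l v hk hB hS hneg =>
    exact don2_of hG.g5 (N_R hG.g5.reg (mem_I76.1 hB).1 hS.1) hk hB hS hneg

/-- the four visible neighbours of the low vertex of ALPHA -/
theorem alp_mem (hG : G.Gen6 Fa) {B : Finset V} {q p d e f h : V}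
    (ha : G.Alp Fa B q p d e f h) : d ∈ R Fa ∧ q ∈ G.nR Fa d ∧ p ∈ G.nR Fa d ∧
      e ∈ G.nR Fa d ∧ f ∈ G.nR Fa d ∧ q ≠ p ∧ q ≠ e ∧ q ≠ f ∧ p ≠ e ∧ p ≠ f ∧ e ≠ f ∧
      e ∉ G.N B ∧ f ∉ G.N B ∧ d ∈ G.N B := by
  have hBF : B ∈ Fa := by
    have h1 : B ∈ G.I Fa q := by rw [ha.I1]; exact mem_singleton_self _
    exact (mem_I76.1 h1).1
  have hqB : q ∈ G.N B := by
    have h1 : B ∈ G.I Fa q := by rw [ha.I1]; exact mem_singleton_self _
    exact (mem_I76.1 h1).2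
  have hpT : p ∈ G.pT B q := by rw [ha.nT]; exact mem_insert_self _ _
  have hdT : d ∈ G.pT B q := by rw [ha.nT]; exact mem_insert_of_mem (mem_singleton_self _)
  have hdR : d ∈ R Fa := N_R hG.g5.reg hBF (mem_inter.1 hdT).2
  have heO : e ∈ G.nb q ∩ G.Co B := by
    have : e ∈ G.pO B q := by rw [ha.out]; exact mem_insert_self _ _
    exact this
  have hfO : f ∈ G.nb q ∩ G.Co B := by
    have : f ∈ G.pO B q := by
      rw [ha.out]
      exact mem_insert_of_mem (mem_insert_self _ _)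
    exact this
  have heR : e ∈ R Fa := (mem_nR76.1 (nR_Co5 ha.qR ha.I1 heO)).2
  obtain ⟨n1, n2⟩ := pair_nR hG ha.yl ha.t (G.sym _ _ (mem_inter.1 hdT).1) ha.qR
  obtain ⟨n3, n4⟩ := pair_nR hG ha.yl ha.t' ha.ye heR
  have heB := (mem_Co76.1 (mem_inter.1 heO).2).2
  have hfB := (mem_Co76.1 (mem_inter.1 hfO).2).2
  have hpB := (mem_inter.1 hpT).2
  refine ⟨hdR, n1, n2, n3, n4, tw_ne ha.t, ?_, ?_, ?_, ?_, tw_ne ha.t', heB, hfB,
    (mem_inter.1 hdT).2⟩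
  · rintro rfl
    exact heB hqB
  · rintro rfl
    exact hfB hqB
  · rintro rfl
    exact heB hpB
  · rintro rfl
    exact hfB hpB

/-- no ALPHA at a donor of a vertex in two neighbourhoods -/
theorem no_AL (hG : G.Gen6 Fa) {d z q : V} (hz : G.Don2 Fa d z) : ¬ G.AL Fa q d := by
  rintro ⟨B, p, e, f, h, ha⟩
  obtain ⟨p1, p2, p3, p4, p5, p6, p7, p8⟩ := don2_prop hG.g5 hz
  obtain ⟨-, n1, n2, n3, n4, m1, m2, m3, m4, m5, m6, -⟩ := alp_mem hG ha
  exact too_many p8.few n1 n2 n3 n4 m1 m2 m3 m4 m5 m6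

open Classical in
/-- C6f if there is a claimant in two neighbourhoods -/
theorem case_don (hG : G.Gen6 Fa) {d z : V} (hz : G.Don2 Fa d z) :
    G.ask Fa d ≤ 2 * G.ch5 Fa d := by
  have hd : G.Low d := (don2_prop hG.g5 hz).1
  have h1 : ∀ l ∈ R Fa, G.dn5 Fa d l = if G.Don2 Fa d l then 2 * (- G.ch5 Fa l) else 0 := by
    intro l hl
    rw [dn5_low76 hG.g5.n9 hd, if_neg (no_AL hG hz), add_zero]
    by_cases h : G.Don2 Fa d l
    · have h2 : G.DL Fa l d := by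
        obtain ⟨p1, p2, p3, p4, p5, p6, p7, p8⟩ := don2_prop hG.g5 h
        obtain ⟨-, -, k1, B, B', -, k2, k3, -⟩ := h
        exact DL.k2 (by rw [p5]) (by rw [k2]; exact mem_insert_self _ _) k3 k1
      rw [if_pos h, if_pos h2]
      ring
    · rw [if_neg h, if_neg (fun h2 => h (excl hG hz h2))]
  rw [ask, sum_congr rfl h1, ← sum_filter]
  have h2 := don2_cap hG.g5 hz
  have h3 : (R Fa).filter (fun l => G.Don2 Fa d l) = univ.filter fun l => G.Don2 Fa d l := by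
    ext l
    rw [mem_filter, mem_filter]
    exact ⟨fun h => ⟨mem_univ _, h.2⟩, fun h => ⟨h.2.1, h.2⟩⟩
  rw [h3, ← mul_sum]
  linarith

end C6f

end CG

end Pool.Agent.Lib.MP_e95c01_co.N
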