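import Pool.Agent.Lib.MP_e95c01_co.X.C6fa_28
import Pool.Agent.Lib.MP_e95c01_co.X.K3l_28
import Pool.Agent.Lib.MP_e95c01_co.X.K3f_28

/-!
# `λ = 3`, thick torsos, row C6f: the claimants, types
-/

namespace Pool.Agent.Lib.MP_e95c01_co.N

open Finset

variable {V : Type} [Fintype V] [DecidableEq V]

namespace CG

open K28

namespace C6f

variable {G : CG V} {Fa : Finset (Finset V)}

/-! ### counting -/

theorem three_le {S : Finset V} {a b c : V} (ha : a ∈ S) (hb : b ∈ S) (hc : c ∈ S)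
    (h1 : a ≠ b) (h2 : a ≠ c) (h3 : b ≠ c) : 3 ≤ S.card := by
  have h : ({a, b, c} : Finset V).card = 3 := by
    rw [card_insert_of_notMem, card_pair h3]
    simp [h1, h2]
  rw [← h]
  refine card_le_card fun x hx => ?_
  simp only [mem_insert, mem_singleton] at hx
  rcases hx with rfl | rfl | rfl <;> assumption

theorem five_le {S : Finset V} {a b c d e : V} (ha : a ∈ S) (hb : b ∈ S) (hc : c ∈ S)
    (hd : d ∈ S) (he : e ∈ S) (h1 : a ≠ b) (h2 : a ≠ c) (h3 : a ≠ d) (h4 : a ≠ e) (h5 : b ≠ c)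
    (h6 : b ≠ d) (h7 : b ≠ e) (h8 : c ≠ d) (h9 : c ≠ e) (h10 : d ≠ e) : 5 ≤ S.card := by
  have h : ({a, b, c, d, e} : Finset V).card = 5 := by
    rw [card_insert_of_notMem, card_insert_of_notMem, card_insert_of_notMem, card_pair h10]
    · simp [h8, h9]
    · simp [h5, h6, h7]
    · simp [h1, h2, h3, h4]
  rw [← h]
  refine card_le_card fun x hx => ?_
  simp only [mem_insert, mem_singleton] at hx
  rcases hx with rfl | rfl | rfl | rfl | rfl <;> assumption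

/-- all neighbours of `z` -/
theorem total {z : V} {B B' : Finset V} (c : Tw2 G Fa z B B') :
    (G.nb z ∩ B).card + (G.nb z ∩ B').card + (G.nR Fa z).card = 6 := by
  classical
  have h1 := six_low c.low B
  have h2 := c.split_card
  have h3 : ((G.nR Fa z).filter fun x => x ∈ G.N B) = G.nb z ∩ G.N B := by
    ext x
    rw [mem_filter, mem_inter]
    constructor
    · rintro ⟨k1, k2⟩
      exact ⟨(mem_nR76.1 k1).1, k2⟩
    · rintro ⟨k1, k2⟩
      exact ⟨c.T_vis (mem_inter.2 ⟨k1, k2⟩), k2⟩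
  have h4 := card_filter_add_card_filter_not (s := G.nR Fa z) (fun x => x ∈ G.N B)
  rw [h3] at h4
  omega

theorem le_four {d : V} (hG : G.Gen6 Fa) (hdR : d ∈ R Fa) (hd : G.Low d)
    (hk : 2 ≤ (G.I Fa d).card) : (G.nR Fa d).card ≤ 4 := by
  have := nR_card76 hG.g5.reg hdR hd
  omega

theorem le_three {d : V} (hG : G.Gen6 Fa) (hdR : d ∈ R Fa) (hd : G.Low d)
    (hk : 3 ≤ (G.I Fa d).card) : (G.nR Fa d).card ≤ 3 := by
  have := nR_card76 hG.g5.reg hdR hd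
  omega

/-! ### flags -/

/-- one neighbour in `B` and no hub in `pT`: no negative flag -/
theorem ff_one {z : V} {B : Finset V} (h9 : 9 ≤ Fintype.card V) (hB : G.Frag B) (hz : G.Low z)
    (h1 : (G.nb z ∩ B).card = 1) (h2 : ∀ a, G.pT B z = {a} → G.Low a ∨ G.IsTw a) :
    0 ≤ ff G B z := by
  rcases ff_cases hB hz with k | ⟨-, k | k | k | k⟩
  · exact k
  · obtain ⟨v, hv, -⟩ := k
    have : (G.nb z ∩ B).card = 2 := (S0_card hv).1
    omega
  · have : (G.nb z ∩ B).card = 3 := (U3_card k).1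
    omega
  · have k3 := (T3_card k).2.2
    rw [pO_Co hB] at k3
    omega
  · exfalso
    obtain ⟨-, -, -, a, b, k3, -, -, k4⟩ := k
    rw [pT_Co hB] at k4
    rcases h2 a k4 with h3 | h3
    · exact HL_not_low76 k3 h3
    · exact (stTwHL_5 G).notHL h9 _ _ _ k3 h3

/-- the top of `HL a z l` in `pT`: no negative flag -/
theorem ff_top {z a l : V} {B : Finset V} (h9 : 9 ≤ Fintype.card V) (hB : G.Frag B)
    (hz : G.Low z) (ha : a ∈ G.pT B z) (hl : G.HL a z l) : 0 ≤ ff G B z := by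
  have hat : ¬ G.IsTw a := (stTwHL_5 G).notHL h9 _ _ _ hl
  rcases ff_cases hB hz with k | ⟨-, k | k | k | k⟩
  · exact k
  · exfalso
    obtain ⟨v, hv, -⟩ := k
    have h1 := hv.2.2.2.1
    rw [h1, mem_singleton] at ha
    rw [ha] at hl
    exact HL_not_low76 hl hv.2.2.1
  · exact absurd (PairSet_tw h9 k.2.2.2 ha) hat
  · have k2 := T3_pair k
    rw [pT_Co hB] at k2
    exact absurd (PairSet_tw h9 k2 ha) hat
  · exfalso
    obtain ⟨-, -, -, a', b, k3, -, -, k4⟩ := k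
    rw [pT_Co hB] at k4
    rw [k4, mem_singleton] at ha
    rw [ha] at hl
    exact (stTwHL_5 G).nomut h9 _ _ _ _ _ k3 hl rfl

/-! ### the claimants -/

/-- `x` is a hub next to `d` or the fourth vertex of an `LL` pair -/
def Cv (G : CG V) (Fa : Finset (Finset V)) (d l x : V) : Prop :=
  (x ∈ G.nR Fa d ∧ G.Hub x ∧ G.I Fa x = ∅) ∨
    ∃ b ∈ G.nR Fa d, G.Low b ∧ G.I Fa b = G.I Fa d ∧ b ≠ l ∧ G.LL d b l x

/-- an adjacent claimant -/
structure AdjC (G : CG V) (Fa : Finset (Finset V)) (d l : V) : Prop where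
  vis : l ∈ G.nR Fa d
  low : G.Low l
  k : (G.I Fa l).card ≤ 1
  ty : (∃ q p, G.Tw q p ∧ q ∈ G.nR Fa d ∧ p ∈ G.nR Fa d ∧ 2 ≤ G.ch5 Fa d) ∨
    (∃ B q p, G.Tw q p ∧ q ∈ G.nR Fa d ∧ p ∈ G.nR Fa d ∧ (G.I Fa q).card ≤ 1 ∧
      B ∈ G.I Fa d ∧ 2 ≤ (G.nb d ∩ B).card) ∨
    (∃ B x y, x ≠ y ∧ G.I Fa l = {B} ∧ B ∈ G.I Fa d ∧ Cv G Fa d l x ∧ Cv G Fa d l y)

/-- a claimant over the edge `a d` -/
structure HLc (G : CG V) (Fa : Finset (Finset V)) (d l a u w : V) : Prop where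
  aR : a ∈ G.nR Fa d
  hl : G.HL a d l
  Ia : G.I Fa a = G.I Fa d
  lR : l ∈ R Fa
  low : G.Low l
  uR : u ∈ G.nR Fa d
  wR : w ∈ G.nR Fa d
  ne : u ≠ w
  ku : (G.I Fa u).card ≤ 1
  kw : (G.I Fa w).card ≤ 1
  nlu : ¬ G.Low u
  nlw : ¬ G.Low w
  ul : u ∈ G.nb l
  wl : w ∈ G.nb l
  ty : (G.I Fa u = ∅ ∧ G.I Fa w = ∅) ∨ (G.Tw u w ∧ 2 ≤ G.ch5 Fa d)

theorem card_ne {x : V} (h : (G.I Fa x).card ≤ 1) (h' : (G.I Fa x).card ≠ 1) :
    G.I Fa x = ∅ := card_eq_zero.1 (by omega)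

theorem dl_cases (hG : G.Gen6 Fa) {d l : V} (hdR : d ∈ R Fa) (hd : G.Low d)
    (hk : 2 ≤ (G.I Fa d).card) (hn : ∀ z, ¬ G.Don2 Fa d z) (h : G.DL Fa l d) :
    -2 ≤ G.ch5 Fa l ∧ (AdjC G Fa d l ∨ ∃ a u w, HLc G Fa d l a u w) := by
  have h9 := hG.g5.n9
  cases h with
  | @gam B l d x y h hneg hk' =>
    obtain ⟨m1, m2, m3, m4, m5, m6⟩ := gam_mem hG h
    have hk2 : (x ∈ G.nb d → (G.I Fa x).card ≠ 1) ∧ (y ∈ G.nb d → (G.I Fa y).card ≠ 1) := by
      rcases hk' with h1 | h1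
      · omega
      · exact h1
    refine ⟨h.ge28 hG, Or.inl ⟨m1, h.low, by rw [h.I1, card_singleton], Or.inr (Or.inr
      ⟨B, x, y, h.ne, h.I1, mem_I76.2 ⟨h.toL1.BF28, m4⟩, ?_, ?_⟩)⟩⟩
    · rcases h.covx with c1 | ⟨b, c1, c2⟩
      · exact Or.inl ⟨mem_nR76.2 ⟨c1, m2⟩, h.hx.1, card_ne h.hx.2.1 (hk2.1 c1)⟩
      · exact Or.inr ⟨b, mem_nR76.2 ⟨LL_ab76 c2, c1⟩, c2.2.1, (LL_I76 c2 hdR c1 h.lR m2).symm,
          (LL_tb76 c2).2.symm, c2⟩
    · rcases h.covy with c1 | ⟨b, c1, c2⟩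
      · exact Or.inl ⟨mem_nR76.2 ⟨c1, m3⟩, h.hy.1, card_ne h.hy.2.1 (hk2.2 c1)⟩
      · exact Or.inr ⟨b, mem_nR76.2 ⟨LL_ab76 c2, c1⟩, c2.2.1, (LL_I76 c2 hdR c1 h.lR m3).symm,
          (LL_tb76 c2).2.symm, c2⟩
  | @the B l a b x y h hneg h1 h2 =>
    have ha : a ∈ R Fa := N_R hG.g5.reg h.toL1.BF28 (mem_inter.1 h.aT).2
    obtain ⟨x1, x2, x3⟩ := out_R h.toL1 (x := x) (by rw [h.out]; exact mem_insert_self _ _)
    obtain ⟨y1, y2, y3⟩ := out_R h.toL1 (x := y)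
      (by rw [h.out]; exact mem_insert_of_mem (mem_singleton_self _))
    exact ⟨h.ge28 hG, Or.inr ⟨a, x, y,
      { aR := mem_nR76.2 ⟨G.sym _ _ (HL_b76 h.hl), ha⟩
        hl := h.hl
        Ia := HL_I76 h.hl ha hdR h.lR
        lR := h.lR
        low := h.low
        uR := mem_nR76.2 ⟨h.bx, x1⟩
        wR := mem_nR76.2 ⟨h.by', y1⟩
        ne := h.ne
        ku := h.hx.2.1
        kw := h.hy.2.1
        nlu := h.hx.1.1
        nlw := h.hy.1.1
        ul := x2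
        wl := y2
        ty := Or.inl ⟨card_ne h.hx.2.1 h1, card_ne h.hy.2.1 h2⟩ }⟩⟩
  | @eps B l d q p h hneg hk' =>
    have hq : q ∈ G.pO B l := by rw [h.out]; exact mem_insert_self _ _
    obtain ⟨n1, n2⟩ := pair_nR hG h.dl h.t h.dq (out_R h.toL1 hq).1
    have h3 := mem_inter.1 h.dT
    exact ⟨by rw [h.ch28 hG], Or.inl ⟨mem_nR76.2 ⟨G.sym _ _ h3.1, h.lR⟩, h.low,
      by rw [h.I1, card_singleton], Or.inl ⟨q, p, h.t, n1, n2, hk'⟩⟩⟩
  | @eta B l a b q p h hneg hk' =>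
    have ha : a ∈ R Fa := N_R hG.g5.reg h.toL1.BF28 (mem_inter.1 h.aT).2
    obtain ⟨x1, x2, x3⟩ := out_R h.toL1 (x := q) (by rw [h.out]; exact mem_insert_self _ _)
    obtain ⟨y1, y2, y3⟩ := out_R h.toL1 (x := p)
      (by rw [h.out]; exact mem_insert_of_mem (mem_singleton_self _))
    obtain ⟨n1, n2⟩ := pair_nR hG hd h.t h.bq x1
    exact ⟨h.ge28 hG, Or.inr ⟨a, q, p,
      { aR := mem_nR76.2 ⟨G.sym _ _ (HL_b76 h.hl), ha⟩
        hl := h.hl
        Ia := HL_I76 h.hl ha hdR h.lR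
        lR := h.lR
        low := h.low
        uR := n1
        wR := n2
        ne := tw_ne h.t
        ku := h.kq
        kw := by rw [((stTwHL_5 G).twI Fa hG.g5.reg q x1 p h.t).2]; exact h.kq
        nlu := tw_not_low76 ⟨p, h.t⟩
        nlw := tw_not_low76 (tw_of76' h.t)
        ul := x2
        wl := y2
        ty := Or.inr ⟨h.t, hk'⟩ }⟩⟩
  | @s0 B l v q p y h hneg hk' =>
    have hq : q ∈ G.pO B l := by rw [h.out]; exact mem_insert_self _ _
    obtain ⟨n1, n2⟩ := pair_nR hG h.s0.2.2.1 h.t h.vq (out_R h.toL1 hq).1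
    have h3 : d ∈ G.pT B l := by rw [h.s0.2.2.2.1]; exact mem_singleton_self _
    refine ⟨(h.ge28 hG).1, Or.inl ⟨mem_nR76.2 ⟨G.sym _ _ (mem_inter.1 h3).1, h.lR⟩, h.low,
      by rw [h.I1, card_singleton], Or.inr (Or.inl ⟨B, q, p, h.t, n1, n2, h.kq,
        mem_I76.2 ⟨h.toL1.BF28, (mem_inter.1 h3).2⟩, ?_⟩)⟩⟩
    obtain ⟨Q, Q', hQ, hX, hQd⟩ := h.s0.2.2.2.2.1
    have h4 : Q ∈ G.nb l ∩ B := by
      have : Q ∈ G.pX B l := by rw [hX]; exact mem_insert_self _ _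
      exact this
    have h5 : Q' ∈ G.nb l ∩ B := by
      have : Q' ∈ G.pX B l := by rw [hX]; exact mem_insert_of_mem (mem_singleton_self _)
      exact this
    have h6 : d ≠ Q' := low_ne_tw hd (tw_of76' hQ)
    have h7 : Q' ∈ G.nb d := G.sym _ _ (Tw_nb5 hQ (G.sym _ _ hQd) h6)
    have h8 : ({Q, Q'} : Finset V) ⊆ G.nb d ∩ B := by
      intro x hx
      rw [mem_insert, mem_singleton] at hx
      rcases hx with rfl | rfl
      · exact mem_inter.2 ⟨hQd, (mem_inter.1 h4).2⟩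
      · exact mem_inter.2 ⟨h7, (mem_inter.1 h5).2⟩
    have h9' := card_le_card h8
    rwa [card_pair (tw_ne hQ)] at h9'
  | @t3 l l' q p q' p' x h hn' hI =>
    exfalso
    obtain ⟨a1, a2, a3, a4⟩ := h.adj28 hG hn'
    have hq : q ∈ G.nb l := by rw [h.nb]; simp
    have hq' : q' ∈ G.nb l := by rw [h.nb]; simp
    have hl' : d ∈ G.nb l := by rw [h.nb]; simp
    obtain ⟨n1, n2⟩ := pair_nR hG h.low' h.t a1 (nb_R76 h.lR h.I0 hq)
    obtain ⟨n3, n4⟩ := pair_nR hG h.low' h.t' a3 (nb_R76 h.lR h.I0 hq')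
    have h6 : (G.nb l).card = 6 := h.low
    have key : ∀ {S : Finset V}, G.nb l ⊆ S → S.card ≤ 5 → False := by
      intro S h1 h2
      have := card_le_card h1
      omega
    have e1 : q ≠ q' := by
      rintro rfl
      refine key (S := {d, q, p, p', x}) ?_ card_le_five
      rw [h.nb]
      intro u hu
      simp only [mem_insert, mem_singleton] at hu ⊢
      tauto
    have e2 : q ≠ p' := by
      rintro rfl
      refine key (S := {d, q, p, q', x}) ?_ card_le_five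
      rw [h.nb]
      intro u hu
      simp only [mem_insert, mem_singleton] at hu ⊢
      tauto
    have e3 : p ≠ q' := by
      rintro rfl
      refine key (S := {d, q, p, p', x}) ?_ card_le_five
      rw [h.nb]
      intro u hu
      simp only [mem_insert, mem_singleton] at hu ⊢
      tauto
    have e4 : p ≠ p' := by
      rintro rfl
      refine key (S := {d, q, p, q', x}) ?_ card_le_five
      rw [h.nb]
      intro u hu
      simp only [mem_insert, mem_singleton] at hu ⊢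
      tauto
    have h7 := five_le (mem_nR76.2 ⟨G.sym _ _ hl', h.lR⟩ : l ∈ G.nR Fa d) n1 n2 n3 n4
      (low_ne_tw h.low ⟨p, h.t⟩) (low_ne_tw h.low (tw_of76' h.t)) (low_ne_tw h.low ⟨p', h.t'⟩)
      (low_ne_tw h.low (tw_of76' h.t')) (tw_ne h.t) e1 e2 e3 e4 (tw_ne h.t')
    have := le_four hG hdR hd hk
    omega
  | @t6 l l' q p x y z' h hn' hg hI =>
    obtain ⟨a1, a2⟩ := h.adj28 hG
    have hq : q ∈ G.nb l := by rw [h.nb]; simp
    have hl' : d ∈ G.nb l := by rw [h.nb]; simp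
    obtain ⟨n1, n2⟩ := pair_nR hG h.low' h.t a1 (nb_R76 h.lR h.I0 hq)
    exact ⟨by rw [h.ch h9 hG.g5.reg], Or.inl ⟨mem_nR76.2 ⟨G.sym _ _ hl', h.lR⟩, h.low,
      by rw [h.I0, card_empty]; omega, Or.inl ⟨q, p, h.t, n1, n2, hI⟩⟩⟩
  | @k2 B l v hk' hB hS hneg =>
    exact absurd (don2_of hG.g5 (N_R hG.g5.reg (mem_I76.1 hB).1 hS.1) hk' hB hS hneg) (hn l)

/-! ### what is asked -/

open Classical in
/-- the claimants -/
noncomputable def Cl (G : CG V) (Fa : Finset (Finset V)) (d : V) : Finset V :=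
  (R Fa).filter fun l => G.DL Fa l d

theorem mem_Cl {d l : V} : l ∈ Cl G Fa d ↔ l ∈ R Fa ∧ G.DL Fa l d := by
  classical
  rw [Cl, mem_filter]

theorem ask_le (hG : G.Gen6 Fa) {d : V} (hd : G.Low d) (hAL : ∀ q, ¬ G.AL Fa q d)
    (hge : ∀ l, G.DL Fa l d → -2 ≤ G.ch5 Fa l) :
    G.ask Fa d ≤ 4 * ((Cl G Fa d).card : ℤ) := by
  classical
  have h1 : ∀ l ∈ R Fa, G.dn5 Fa d l ≤ if G.DL Fa l d then 4 else 0 := by
    intro l hl
    rw [dn5_low76 hG.g5.n9 hd, if_neg (hAL l), add_zero]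
    by_cases h : G.DL Fa l d
    · rw [if_pos h, if_pos h]
      have := hge l h
      linarith
    · rw [if_neg h, if_neg h]
  have h2 := sum_le_sum h1
  rw [← sum_filter, sum_const, nsmul_eq_mul] at h2
  have h3 : (R Fa).filter (fun l => G.DL Fa l d) = Cl G Fa d := by
    ext l
    rw [mem_filter, mem_Cl]
  rw [h3] at h2
  rw [ask]
  linarith

end C6f

end CG

end Pool.Agent.Lib.MP_e95c01_co.N
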