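import Pool.Agent.Lib.MP_e95c01_co.X.C6fb_28

/-!
# `λ = 3`, thick torsos, row C6f: the cases
-/

namespace Pool.Agent.Lib.MP_e95c01_co.N

open Finset

variable {V : Type} [Fintype V] [DecidableEq V]

namespace CG

open K28

namespace C6f

variable {G : CG V} {Fa : Finset (Finset V)}

theorem tw2_of (hG : G.Gen6 Fa) {d : V} (hdR : d ∈ R Fa) (hd : G.Low d)
    (hk : (G.I Fa d).card = 2) : ∃ B B', Tw2 G Fa d B B' := by
  obtain ⟨B, B', hne, hI⟩ := card_eq_two.1 hk
  exact ⟨B, B', hG.g5.n9, hG.g5.reg, hG.g5.big, hdR, hd, hne, hI⟩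

/-- four elements -/
theorem four_eq {S : Finset V} {a b c e : V} (h : S.card ≤ 4) (ha : a ∈ S) (hb : b ∈ S)
    (hc : c ∈ S) (he : e ∈ S) (h1 : a ≠ b) (h2 : a ≠ c) (h3 : a ≠ e) (h4 : b ≠ c) (h5 : b ≠ e)
    (h6 : c ≠ e) : ∀ x ∈ S, x = a ∨ x = b ∨ x = c ∨ x = e := by
  intro x hx
  by_contra hc'
  push Not at hc'
  have := five_le hx ha hb hc he hc'.1 hc'.2.1 hc'.2.2.1 hc'.2.2.2 h1 h2 h3 h4 h5 h6
  omega

/-- three elements -/
theorem three_eq {S : Finset V} {a b c : V} (h : S.card ≤ 3) (ha : a ∈ S) (hb : b ∈ S)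
    (hc : c ∈ S) (h1 : a ≠ b) (h2 : a ≠ c) (h4 : b ≠ c) : ∀ x ∈ S, x = a ∨ x = b ∨ x = c := by
  intro x hx
  by_contra hc'
  push Not at hc'
  have := four_le5 hx ha hb hc hc'.1 hc'.2.1 hc'.2.2 h1 h2 h4
  omega

theorem cl_one {d l : V} (h : ∀ l' ∈ Cl G Fa d, l' = l) : (Cl G Fa d).card ≤ 1 := by
  have h1 : Cl G Fa d ⊆ {l} := fun x hx => mem_singleton.2 (h x hx)
  have := card_le_card h1
  rwa [card_singleton] at this

theorem cl_two {d l l2 : V} (h : ∀ l' ∈ Cl G Fa d, l' = l ∨ l' = l2) :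
    (Cl G Fa d).card ≤ 2 := by
  have h1 : Cl G Fa d ⊆ {l, l2} := fun x hx => by
    rw [mem_insert, mem_singleton]
    exact h x hx
  exact (card_le_card h1).trans card_le_two

/-! ### ALPHA -/

theorem case_al (hG : G.Gen6 Fa) {d q : V} (hdR : d ∈ R Fa) (hd : G.Low d)
    (hk : 2 ≤ (G.I Fa d).card) (hn : ∀ z, ¬ G.Don2 Fa d z) (ha : G.AL Fa q d) :
    G.ask Fa d ≤ 2 * G.ch5 Fa d := by
  classical
  have h9 := hG.g5.n9
  obtain ⟨B, p, e, f, h, ha⟩ := ha
  obtain ⟨-, n1, n2, n3, n4, m1, m2, m3, m4, m5, m6, k1, k2, k3⟩ := alp_mem hG ha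
  have hc4 := le_four hG hdR hd hk
  have hk2 : (G.I Fa d).card = 2 := by
    have := four_le5 n1 n2 n3 n4 m1 m2 m3 m4 m5 m6
    have := nR_card76 hG.g5.reg hdR hd
    omega
  have hBF : B ∈ Fa := by
    have h1 : B ∈ G.I Fa q := by rw [ha.I1]; exact mem_singleton_self _
    exact (mem_I76.1 h1).1
  have hBd : B ∈ G.I Fa d := mem_I76.2 ⟨hBF, k3⟩
  obtain ⟨B', c⟩ : ∃ B', Tw2 G Fa d B B' := by
    obtain ⟨D, D', c⟩ := tw2_of hG hdR hd hk2
    have h1 := hBd
    rw [c.I, mem_insert, mem_singleton] at h1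
    rcases h1 with rfl | rfl
    · exact ⟨D', c⟩
    · exact ⟨D, c.symm⟩
  have hall := four_eq hc4 n1 n2 n3 n4 m1 m2 m3 m4 m5 m6
  have htw : ∀ x ∈ G.nR Fa d, G.IsTw x := by
    intro x hx
    rcases hall x hx with rfl | rfl | rfl | rfl
    · exact ⟨p, ha.t⟩
    · exact tw_of76' ha.t
    · exact ⟨f, ha.t'⟩
    · exact tw_of76' ha.t'
  have ht := total c
  have h4 := four_le5 n1 n2 n3 n4 m1 m2 m3 m4 m5 m6
  have hid := hid1 c.mem1
  have hid' := hid1 c.mem2
  have f1 : 0 ≤ ff G B d := by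
    refine ff_one h9 c.fr1 hd (by omega) fun a h1 => Or.inr (htw a (c.T_vis ?_))
    rw [h1]
    exact mem_singleton_self _
  have f2 : 0 ≤ ff G B' d := by
    refine ff_one h9 c.fr2 hd (by omega) fun a h1 => Or.inr (htw a (c.symm.T_vis ?_))
    rw [h1]
    exact mem_singleton_self _
  -- weights
  have hqR := (mem_nR76.1 n1).2
  have hI := (stTwHL_5 G).twI Fa hG.g5.reg q hqR p ha.t
  have w1 : ∀ x ∈ G.nR Fa d, 1 ≤ G.w5 Fa x d := by
    intro x hx
    refine w5_tw (htw x hx) ?_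
    rcases hall x hx with rfl | rfl | rfl | rfl
    · have := m_le_left (G := G) (Fa := Fa) x d
      rwa [ha.I1, card_singleton] at this
    · have := m_le_left (G := G) (Fa := Fa) x d
      rwa [hI.2, ha.I1, card_singleton] at this
    · exact c.m_le1 k1
    · exact c.m_le1 k2
  have w2 := sum_le_sum w1
  rw [sum_const, nsmul_eq_mul, mul_one] at w2
  have w3 : (4 : ℤ) ≤ ((G.nR Fa d).card : ℤ) := by exact_mod_cast h4
  have hch := c.ch
  -- claims
  have h1 : ∀ l ∈ R Fa, G.dn5 Fa d l ≤ if l ∈ G.nR Fa d then 2 else 0 := by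
    intro l hl
    have hDL : ¬ G.DL Fa l d := by
      intro hD
      obtain ⟨-, h1 | ⟨a, u, w, h1⟩⟩ := dl_cases hG hdR hd hk hn hD
      · exact tw_not_low76 (htw l h1.vis) h1.low
      · exact (stTwHL_5 G).notHL h9 _ _ _ h1.hl (htw a h1.aR)
    rw [dn5_low76 h9 hd, if_neg hDL, zero_add]
    by_cases hA : G.AL Fa l d
    · have h2 : l ∈ G.nR Fa d := by
        obtain ⟨B1, p1, e1, f1, h1, hA1⟩ := hA
        exact (alp_mem hG hA1).2.1
      rw [if_pos hA, if_pos h2]
    · rw [if_neg hA]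
      split_ifs <;> norm_num
  have h2 := sum_le_sum h1
  rw [← sum_filter, sum_const, nsmul_eq_mul] at h2
  have h3 : (((R Fa).filter fun l => l ∈ G.nR Fa d).card : ℤ) ≤ 4 := by
    have : ((R Fa).filter fun l => l ∈ G.nR Fa d).card ≤ (G.nR Fa d).card :=
      card_le_card fun x hx => (mem_filter.1 hx).2
    exact_mod_cast this.trans hc4
  rw [ask]
  linarith

/-! ### HL -/

theorem hl_u (c' : 9 ≤ Fintype.card V) {d l a u w : V} (h : HLc G Fa d l a u w)
    (hk : 2 ≤ (G.I Fa d).card) : a ≠ u ∧ a ≠ w ∧ G.Hub a := by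
  refine ⟨?_, ?_, HL_hubT76 c' h.hl⟩
  · rintro rfl
    have h1 := h.ku
    rw [h.Ia] at h1
    omega
  · rintro rfl
    have h1 := h.kw
    rw [h.Ia] at h1
    omega

theorem hl_uniq {a d l l' : V} (h : G.HL a d l) (h' : G.HL a d l') : l = l' := by
  have h1 : l ∈ insert l' (G.cl d) := by
    rw [← h'.2.2.2.2, h.2.2.2.2]
    exact mem_insert_self _ _
  rcases mem_insert.1 h1 with h2 | h2
  · exact h2
  · exact absurd h2 h.2.2.2.1

/-- the weights of `u` and `w` -/
theorem hl_w {d l a u w : V} (h : HLc G Fa d l a u w) :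
    (1 ≤ G.w5 Fa u d ∧ 1 ≤ G.w5 Fa w d) ∧
      (G.I Fa u = ∅ ∧ G.I Fa w = ∅ → 2 ≤ G.w5 Fa u d ∧ 2 ≤ G.w5 Fa w d) := by
  have h1 : G.I Fa u = ∅ ∧ G.I Fa w = ∅ → 2 ≤ G.w5 Fa u d ∧ 2 ≤ G.w5 Fa w d :=
    fun h2 => ⟨w5_zero (m_empty5 h2.1), w5_zero (m_empty5 h2.2)⟩
  refine ⟨?_, h1⟩
  rcases h.ty with h2 | ⟨h2, -⟩
  · have := h1 h2
    constructor <;> linarith
  · exact ⟨w5_tw ⟨w, h2⟩ ((m_le_left _ _).trans h.ku),
      w5_tw (tw_of76' h2) ((m_le_left _ _).trans h.kw)⟩

/-- `u` and `w` in no neighbourhood if there are two claimants of this kind -/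
theorem hl_hl (hG : G.Gen6 Fa) {d l a u w l2 s u2 w2 : V} (hdR : d ∈ R Fa) (hd : G.Low d)
    (h : HLc G Fa d l a u w) (h' : HLc G Fa d l2 s u2 w2) (hne : l ≠ l2) (hs : a ≠ s)
    (hu : u2 = u ∨ u2 = w) (hw : w2 = u ∨ w2 = w) : G.I Fa u = ∅ ∧ G.I Fa w = ∅ := by
  have h9 := hG.g5.n9
  have hc : (u2 = u ∧ w2 = w) ∨ (u2 = w ∧ w2 = u) := by
    rcases hu with rfl | rfl
    · rcases hw with rfl | rfl
      · exact absurd rfl h'.ne
      · exact Or.inl ⟨rfl, rfl⟩
    · rcases hw with rfl | rfl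
      · exact Or.inr ⟨rfl, rfl⟩
      · exact absurd rfl h'.ne
  rcases h'.ty with h2 | ⟨h2, -⟩
  · rcases hc with ⟨rfl, rfl⟩ | ⟨rfl, rfl⟩
    · exact h2
    · exact ⟨h2.2, h2.1⟩
  rcases h.ty with h3 | ⟨h3, -⟩
  · exact h3
  have hul2 : u ∈ G.nb l2 := by
    rcases hc with ⟨rfl, rfl⟩ | ⟨rfl, rfl⟩
    · exact h'.ul
    · exact h'.wl
  have hut : G.IsTw u := ⟨w, h3⟩
  have ha := HL_hubT76 h9 h.hl
  have hsh := HL_hubT76 h9 h'.hl
  have e1 : u ≠ a := by
    rintro rfl
    exact ha.2 hut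
  have e2 : u ≠ s := by
    rintro rfl
    exact hsh.2 hut
  have hud : u ∈ G.nb d := (mem_nR76.1 h.uR).1
  have hua : u ∈ G.nb a := HL_sub76 h.hl hud e1
  have hus : u ∈ G.nb s := HL_sub76 h'.hl hud e2
  have huR := (mem_nR76.1 h.uR).2
  have hI := (stTwHL_5 G).twI Fa hG.g5.reg u huR w h3
  have key : G.I Fa u = ∅ := by
    by_contra hc'
    obtain ⟨B, hB⟩ := nonempty_iff_ne_empty.2 hc'
    have h5 := two_hid h9 hG.g5.reg hG.g5.big huR hut hB
    have hBF := (mem_I76.1 hB).1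
    have h6 : (G.nb u).card = 7 := h3.2.1
    have hS : ({w, d, l, l2, a, s} : Finset V).card = 6 := by
      have hwt := tw_of76' h3
      have n1 := low_ne_tw hd hwt
      have n2 := low_ne_tw h.low hwt
      have n3 := low_ne_tw h'.low hwt
      have n4 : w ≠ a := fun e => ha.2 (e ▸ hwt)
      have n5 : w ≠ s := fun e => hsh.2 (e ▸ hwt)
      have n6 := (HL_bt76 h.hl).2
      have n7 := (HL_bt76 h'.hl).2
      have n8 := low_ne_hub hd ha
      have n9 := low_ne_hub hd hsh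
      have n10 := low_ne_hub h.low ha
      have n11 := low_ne_hub h.low hsh
      have n12 := low_ne_hub h'.low ha
      have n13 := low_ne_hub h'.low hsh
      rw [card_insert_of_notMem, card_insert_of_notMem, card_insert_of_notMem,
        card_insert_of_notMem, card_pair hs]
      · simp [n12, n13]
      · simp [hne, n10, n11]
      · simp [n6.symm, n7.symm, n8, n9]
      · simp [n1.symm, n2.symm, n3.symm, n4, n5]
    have hsub : ({w, d, l, l2, a, s} : Finset V) ⊆ G.nb u ∩ R Fa := by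
      have hwR := hI.1
      have h10 := (mem_nR76.1 h.aR).2
      have h11 := (mem_nR76.1 h'.aR).2
      intro x hx
      simp only [mem_insert, mem_singleton] at hx
      rcases hx with rfl | rfl | rfl | rfl | rfl | rfl
      · exact mem_inter.2 ⟨h3.1, hwR⟩
      · exact mem_inter.2 ⟨G.sym _ _ hud, hdR⟩
      · exact mem_inter.2 ⟨G.sym _ _ h.ul, h.lR⟩
      · exact mem_inter.2 ⟨G.sym _ _ hul2, h'.lR⟩
      · exact mem_inter.2 ⟨G.sym _ _ hua, h10⟩
      · exact mem_inter.2 ⟨G.sym _ _ hus, h11⟩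
    have h7 := card_le_card hsub
    rw [hS] at h7
    have hdis : Disjoint (G.nb u ∩ R Fa) (G.nb u ∩ B) := by
      rw [disjoint_left]
      intro x hx hx'
      exact mem_R76.1 (mem_inter.1 hx).2 B hBF (mem_inter.1 hx').2
    have h8 : (G.nb u ∩ R Fa) ∪ (G.nb u ∩ B) ⊆ G.nb u :=
      union_subset inter_subset_left inter_subset_left
    have h10 := card_le_card h8
    rw [card_union_of_disjoint hdis] at h10
    omega
  exact ⟨key, by rw [hI.2]; exact key⟩

/-- a claimant over an edge -/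
theorem case_hl (hG : G.Gen6 Fa) {d l a u w : V} (hdR : d ∈ R Fa) (hd : G.Low d)
    (hk : 2 ≤ (G.I Fa d).card) (hn : ∀ z, ¬ G.Don2 Fa d z) (h : HLc G Fa d l a u w) :
    2 * ((Cl G Fa d).card : ℤ) ≤ G.ch5 Fa d := by
  classical
  have h9 := hG.g5.n9
  obtain ⟨e1, e2, hah⟩ := hl_u h9 h hk
  obtain ⟨⟨wu, ww⟩, hw2⟩ := hl_w h
  have hcl : ∀ l' ∈ Cl G Fa d, AdjC G Fa d l' ∨ ∃ a u w, HLc G Fa d l' a u w := fun l' hl' =>
    (dl_cases hG hdR hd hk hn (mem_Cl.1 hl').2).2
  have hone : 2 ≤ G.ch5 Fa d → (∀ l' ∈ Cl G Fa d, l' = l) →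
      2 * ((Cl G Fa d).card : ℤ) ≤ G.ch5 Fa d := by
    intro h1 h2
    have h3 : ((Cl G Fa d).card : ℤ) ≤ 1 := by exact_mod_cast cl_one h2
    linarith
  have hsub : ({u, w} : Finset V) ⊆ G.nR Fa d := by
    intro x hx
    rw [mem_insert, mem_singleton] at hx
    rcases hx with rfl | rfl
    · exact h.uR
    · exact h.wR
  by_cases hk3 : 3 ≤ (G.I Fa d).card
  · -- three neighbourhoods
    have hall := three_eq (le_three hG hdR hd hk3) h.aR h.uR h.wR e1 e2 h.ne
    have h2 : 2 ≤ G.ch5 Fa d := by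
      rcases h.ty with h1 | h1
      · have h3 := low_three_sub h9 hG.g5.reg hdR hd hk3 hsub
        rw [sum_pair h.ne] at h3
        linarith
      · exact h1.2
    refine hone h2 fun l' hl' => ?_
    rcases hcl l' hl' with h1 | ⟨a', u', w', h1⟩
    · exfalso
      rcases hall l' h1.vis with rfl | rfl | rfl
      · exact hah.1 h1.low
      · exact h.nlu h1.low
      · exact h.nlw h1.low
    · have h3 := h1.Ia
      rcases hall a' h1.aR with rfl | rfl | rfl
      · exact (hl_uniq h.hl h1.hl).symm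
      · exfalso
        have := h.ku
        rw [h3] at this
        omega
      · exfalso
        have := h.kw
        rw [h3] at this
        omega
  have hk2 : (G.I Fa d).card = 2 := by omega
  obtain ⟨B, B', c⟩ := tw2_of hG hdR hd hk2
  have haT : a ∈ G.pT B d := by
    refine mem_inter.2 ⟨(mem_nR76.1 h.aR).1, (mem_I76.1 (?_ : B ∈ G.I Fa a)).2⟩
    rw [h.Ia]
    exact c.mem1
  have haT' : a ∈ G.pT B' d := by
    refine mem_inter.2 ⟨(mem_nR76.1 h.aR).1, (mem_I76.1 (?_ : B' ∈ G.I Fa a)).2⟩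
    rw [h.Ia]
    exact c.mem2
  have f1 := ff_top h9 c.fr1 hd haT h.hl
  have f2 := ff_top h9 c.fr2 hd haT' h.hl
  have hch := c.ch
  by_cases hex : ∃ l2 ∈ Cl G Fa d, l2 ≠ l
  · obtain ⟨l2, hl2, hne⟩ := hex
    have htwo : 4 ≤ G.ch5 Fa d → (∀ l' ∈ Cl G Fa d, l' = l ∨ l' = l2) →
        2 * ((Cl G Fa d).card : ℤ) ≤ G.ch5 Fa d := by
      intro h1 h2
      have h3 : ((Cl G Fa d).card : ℤ) ≤ 2 := by exact_mod_cast cl_two h2
      linarith
    have hcard := le_four hG hdR hd hk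
    rcases hcl l2 hl2 with h1 | ⟨s, u2, w2, h1⟩
    · have g1 : a ≠ l2 := (low_ne_hub h1.low hah).symm
      have g2 : u ≠ l2 := fun e => h.nlu (e ▸ h1.low)
      have g3 : w ≠ l2 := fun e => h.nlw (e ▸ h1.low)
      have hall := four_eq hcard h.aR h.uR h.wR h1.vis e1 e2 g1 h.ne g2 g3
      have hsub3 : ({u, w, l2} : Finset V) ⊆ G.nR Fa d := by
        intro x hx
        simp only [mem_insert, mem_singleton] at hx
        rcases hx with rfl | rfl | rfl
        · exact h.uR
        · exact h.wR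
        · exact h1.vis
      have h3 := c.sum_ge hsub3
      rw [sum_insert (by simp [h.ne, g2]), sum_pair g3] at h3
      have h4 : 2 ≤ G.w5 Fa l2 d := by
        rw [w5_low h1.low]
        have h5 : (G.m Fa l2 d : ℤ) ≤ 1 := by exact_mod_cast (m_le_left _ _).trans h1.k
        linarith
      refine htwo (by linarith) fun l' hl' => ?_
      rcases hcl l' hl' with h5 | ⟨a', u', w', h5⟩
      · right
        rcases hall l' h5.vis with rfl | rfl | rfl | rfl
        · exact absurd h5.low hah.1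
        · exact absurd h5.low h.nlu
        · exact absurd h5.low h.nlw
        · rfl
      · left
        have h6 := h5.Ia
        rcases hall a' h5.aR with rfl | rfl | rfl | rfl
        · exact (hl_uniq h.hl h5.hl).symm
        · exfalso
          have := h.ku
          rw [h6] at this
          omega
        · exfalso
          have := h.kw
          rw [h6] at this
          omega
        · exact absurd h1.low (HL_not_low76 h5.hl)
    · obtain ⟨k1, k2, hsh⟩ := hl_u h9 h1 hk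
      have g1 : a ≠ s := by
        rintro rfl
        exact hne (hl_uniq h1.hl h.hl)
      have g2 : u ≠ s := by
        rintro rfl
        have h3 := h.ku
        rw [h1.Ia] at h3
        omega
      have g3 : w ≠ s := by
        rintro rfl
        have h3 := h.kw
        rw [h1.Ia] at h3
        omega
      have hall := four_eq hcard h.aR h.uR h.wR h1.aR e1 e2 g1 h.ne g2 g3
      have hx : ∀ x ∈ G.nR Fa d, (G.I Fa x).card ≤ 1 → x ≠ s → x = u ∨ x = w := by
        intro x hx hxk hxs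
        rcases hall x hx with rfl | rfl | rfl | rfl
        · exfalso
          rw [h.Ia] at hxk
          omega
        · exact Or.inl rfl
        · exact Or.inr rfl
        · exact absurd rfl hxs
      have h2 := hl_hl hG hdR hd h h1 (Ne.symm hne) g1 (hx u2 h1.uR h1.ku k1.symm)
        (hx w2 h1.wR h1.kw k2.symm)
      obtain ⟨v1, v2⟩ := hw2 h2
      have h3 := c.sum_ge hsub
      rw [sum_pair h.ne] at h3
      refine htwo (by linarith) fun l' hl' => ?_
      rcases hcl l' hl' with h5 | ⟨a', u', w', h5⟩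
      · exfalso
        rcases hall l' h5.vis with rfl | rfl | rfl | rfl
        · exact hah.1 h5.low
        · exact h.nlu h5.low
        · exact h.nlw h5.low
        · exact hsh.1 h5.low
      · have h6 := h5.Ia
        rcases hall a' h5.aR with rfl | rfl | rfl | rfl
        · left
          exact (hl_uniq h.hl h5.hl).symm
        · exfalso
          have := h.ku
          rw [h6] at this
          omega
        · exfalso
          have := h.kw
          rw [h6] at this
          omega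
        · right
          exact (hl_uniq h1.hl h5.hl).symm
  · push Not at hex
    refine hone ?_ hex
    rcases h.ty with h1 | h1
    · obtain ⟨v1, v2⟩ := hw2 h1
      have h3 := c.sum_ge hsub
      rw [sum_pair h.ne] at h3
      linarith
    · exact h1.2

end C6f

end CG

end Pool.Agent.Lib.MP_e95c01_co.N
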