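import Pool.Agent.Lib.MP_e95c01_co.X.K3d_28

/-!
# `λ = 3`, thick torsos: low vertices in two neighbourhoods, all flags but `S0`
-/

namespace Pool.Agent.Lib.MP_e95c01_co.N

open Finset

variable {V : Type} [Fintype V] [DecidableEq V]

namespace CG

namespace K28

variable {G : CG V} {Fa : Finset (Finset V)}

/-- a useless payer -/
theorem pay_useless {x z : V} (h1 : 2 ≤ (G.I Fa z).card) (h2 : G.m Fa x z ≠ 0)
    (hcn : ∀ u ∈ G.nR Fa x, u ∈ G.nb z → G.m Fa x u ≠ 0)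
    (hLL : ∀ b ∈ R Fa, ∀ u ∈ G.nR Fa x, G.m Fa x u = 0 → ¬ G.LL z b x u)
    (hHL : ∀ a ∈ R Fa, ∀ u ∈ G.nR Fa x, G.m Fa x u = 0 → ¬ G.HL a z u) :
    G.pay5 Fa z x = 0 := by
  unfold pay5
  rw [if_pos]
  right
  rintro (a2 | a2 | ⟨u, a2, a3, a4 | ⟨b, hb, a4⟩ | ⟨a, ha, a4, -⟩⟩)
  · omega
  · exact h2 a2
  · exact hcn u a2 a4 a3
  · exact hLL b hb u a2 a3 a4
  · exact hHL a ha u a2 a3 a4

/-- the situation: `z` is in exactly two neighbourhoods -/
structure Tw2 (G : CG V) (Fa : Finset (Finset V)) (z : V) (B B' : Finset V) : Prop where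
  h9 : 9 ≤ Fintype.card V
  reg : G.Reg Fa
  big : ∀ B ∈ Fa, 3 ≤ B.card
  zR : z ∈ R Fa
  low : G.Low z
  ne : B ≠ B'
  I : G.I Fa z = {B, B'}

variable {z : V} {B B' : Finset V}

namespace Tw2

theorem symm (c : Tw2 G Fa z B B') : Tw2 G Fa z B' B :=
  ⟨c.h9, c.reg, c.big, c.zR, c.low, c.ne.symm, by rw [c.I, pair_comm]⟩

theorem mem1 (c : Tw2 G Fa z B B') : B ∈ G.I Fa z := by
  rw [c.I]
  exact mem_insert_self _ _

theorem mem2 (c : Tw2 G Fa z B B') : B' ∈ G.I Fa z := c.symm.mem1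

theorem F1 (c : Tw2 G Fa z B B') : B ∈ Fa := (mem_I76.1 c.mem1).1

theorem F2 (c : Tw2 G Fa z B B') : B' ∈ Fa := c.symm.F1

theorem fr1 (c : Tw2 G Fa z B B') : G.Frag B := c.reg.frag B c.F1

theorem fr2 (c : Tw2 G Fa z B B') : G.Frag B' := c.symm.fr1

theorem k2 (c : Tw2 G Fa z B B') : (G.I Fa z).card = 2 := by
  rw [c.I, card_pair c.ne]

theorem ch (c : Tw2 G Fa z B B') : G.ch5 Fa z =
    ∑ x ∈ G.nR Fa z, G.w5 Fa x z + ff G B z + ff G B' z := by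
  have h1 := (G.stCh5_28).low2 c.h9 Fa c.reg z c.zR c.low
  rw [c.k2, fg_eq, c.I, sum_pair c.ne] at h1
  rw [h1]
  push_cast
  ring

theorem m_le (c : Tw2 G Fa z B B') (x : V) : G.m Fa x z ≤ 2 := by
  have := m_le11 (G := G) (Fa := Fa) x z
  rw [c.k2] at this
  exact this

theorem w_nonneg (c : Tw2 G Fa z B B') (x : V) : 0 ≤ G.w5 Fa x z := w5_nonneg (c.m_le x)

theorem sum_ge (c : Tw2 G Fa z B B') {S : Finset V} (hS : S ⊆ G.nR Fa z) :
    ∑ x ∈ S, G.w5 Fa x z ≤ ∑ x ∈ G.nR Fa z, G.w5 Fa x z :=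
  sum_le_sum_of_subset_of_nonneg hS fun x _ _ => c.w_nonneg x

theorem T_vis (c : Tw2 G Fa z B B') : G.pT B z ⊆ G.nR Fa z := fun _ hx =>
  mem_nR76.2 ⟨(mem_inter.1 hx).1, N_R c.reg c.F1 (mem_inter.1 hx).2⟩

/-- at most one common neighbourhood -/
theorem m_le1 (c : Tw2 G Fa z B B') {x : V} (hx : x ∉ G.N B) : G.m Fa x z ≤ 1 := by
  have : G.I Fa x ∩ G.I Fa z ⊆ {B'} := by
    intro D hD
    rw [mem_inter, c.I, mem_insert, mem_singleton] at hD
    rcases hD.2 with rfl | rfl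
    · exact absurd (mem_I76.1 hD.1).2 hx
    · exact mem_singleton_self _
  exact le_trans (card_le_card this) (by simp)

theorem m_zero (c : Tw2 G Fa z B B') {x : V} (hx : x ∉ G.N B) (hx' : x ∉ G.N B') :
    G.m Fa x z = 0 := by
  rw [m, c.I, card_eq_zero, eq_empty_iff_forall_notMem]
  intro D hD
  rw [mem_inter, mem_insert, mem_singleton] at hD
  rcases hD.2 with rfl | rfl
  · exact hx (mem_I76.1 hD.1).2
  · exact hx' (mem_I76.1 hD.1).2

theorem m_ne (c : Tw2 G Fa z B B') {x : V} (hx : x ∈ G.N B') : G.m Fa x z ≠ 0 := by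
  intro h
  rw [m, card_eq_zero] at h
  have : B' ∈ G.I Fa x ∩ G.I Fa z := mem_inter.2 ⟨mem_I76.2 ⟨c.F2, hx⟩, c.mem2⟩
  rw [h] at this
  exact absurd this (notMem_empty _)

/-- neighbours outside of `B` and `N B` -/
theorem split (c : Tw2 G Fa z B B') : G.nb z ∩ G.Co B =
    (G.nb z ∩ B') ∪ (G.nR Fa z).filter fun x => x ∉ G.N B := by
  ext x
  rw [mem_union, mem_inter, mem_inter, mem_filter, mem_nR76]
  constructor
  · rintro ⟨x1, x2⟩
    by_cases x3 : x ∈ R Fa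
    · exact Or.inr ⟨⟨x1, x3⟩, (mem_Co76.1 x2).2⟩
    · left
      refine ⟨x1, ?_⟩
      rw [mem_R76] at x3
      push Not at x3
      obtain ⟨D, hD, hxD⟩ := x3
      have hDI := I_of_nb76 c.zR hD x1 hxD
      rw [c.I, mem_insert, mem_singleton] at hDI
      rcases hDI with rfl | rfl
      · exact absurd hxD (mem_Co76.1 x2).1
      · exact hxD
  · rintro (⟨x1, x2⟩ | ⟨⟨x1, x2⟩, x3⟩)
    · exact ⟨x1, blob_Co c.reg c.F1 c.F2 c.ne x2⟩
    · exact ⟨x1, mem_Co76.2 ⟨mem_R76.1 x2 B c.F1, x3⟩⟩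

theorem split_card (c : Tw2 G Fa z B B') : (G.nb z ∩ G.Co B).card =
    (G.nb z ∩ B').card + ((G.nR Fa z).filter fun x => x ∉ G.N B).card := by
  rw [c.split]
  refine card_union_of_disjoint ?_
  rw [disjoint_left]
  intro x hx hx'
  rw [mem_filter, mem_nR76] at hx'
  exact mem_R76.1 hx'.1.2 B' c.F2 (mem_inter.1 hx).2

theorem hid2 (c : Tw2 G Fa z B B') : 1 ≤ (G.nb z ∩ B').card := hid1 c.mem2

theorem sub_Co (c : Tw2 G Fa z B B') : G.nb z ∩ B ⊆ G.nb z ∩ G.Co B' := fun _ hx =>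
  mem_inter.2 ⟨(mem_inter.1 hx).1, blob_Co c.reg c.F2 c.F1 c.ne.symm (mem_inter.1 hx).2⟩

/-- no other visible neighbour: the neighbours outside of `B'` and `N B'` are in `B` -/
theorem eq_Co (c : Tw2 G Fa z B B') (h : ∀ x ∈ G.nR Fa z, x ∈ G.N B') :
    G.nb z ∩ G.Co B' = G.nb z ∩ B := by
  rw [c.symm.split]
  have : (G.nR Fa z).filter (fun x => x ∉ G.N B') = ∅ :=
    filter_eq_empty_iff.2 fun x hx hx' => hx' (h x hx)
  rw [this, union_empty]

/-- the payment of `z` to `x` is useless if `z` has no low neighbour, no neighbour outside of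
`N B'` and `z` is not in the second place of an `HL` -/
theorem useless (c : Tw2 G Fa z B B') {x : V} (hx : x ∈ G.N B')
    (hall : ∀ u ∈ G.nR Fa z, u ∈ G.N B') (hlow : ∀ b ∈ G.nR Fa z, ¬ G.Low b)
    (hHL : ∀ a ∈ G.pT B z, ∀ u, ¬ G.HL a z u) : G.pay5 Fa z x = 0 := by
  have hmx : ∀ u, u ∈ G.N B' → G.m Fa x u ≠ 0 := by
    intro u hu h
    rw [m, card_eq_zero] at h
    have : B' ∈ G.I Fa x ∩ G.I Fa u :=
      mem_inter.2 ⟨mem_I76.2 ⟨c.F2, hx⟩, mem_I76.2 ⟨c.F2, hu⟩⟩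
    rw [h] at this
    exact absurd this (notMem_empty _)
  refine pay_useless (by rw [c.k2]) (c.m_ne hx) ?_ ?_ ?_
  · intro u hu hu'
    exact hmx u (hall u (mem_nR76.2 ⟨hu', (mem_nR76.1 hu).2⟩))
  · intro b hb u _ _ h
    exact hlow b (mem_nR76.2 ⟨LL_ab76 h, hb⟩) h.2.1
  · intro a ha u hu _ h
    have h1 := HL_I76 h ha c.zR (mem_nR76.1 hu).2
    have h2 : a ∈ G.N B := by
      have : B ∈ G.I Fa a := by rw [h1]; exact c.mem1
      exact (mem_I76.1 this).2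
    exact hHL a (mem_inter.2 ⟨G.sym _ _ (HL_b76 h), h2⟩) u h

/-- positive flags make up -/
theorem ff_nonneg_pair (c : Tw2 G Fa z B B') (hT : G.PairSet (G.pT B z))
    (hT' : ∀ x ∈ G.pT B z, x ∈ G.N B') (hs : ¬ (G.nb z ∩ B').card = 2)
    (hs3 : ¬ (G.nb z ∩ B').card = 3) : 0 ≤ ff G B' z := by
  rcases ff_cases c.fr2 c.low with h | ⟨-, h | h | h | h⟩
  · exact h
  · obtain ⟨v, hv, -⟩ := h
    exact absurd (S0_card hv).1 hs
  · exact absurd (U3_card h).1 hs3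
  · have := (T3_card h).2.2
    rw [pO_Co c.fr2] at this
    exact absurd this hs
  · exfalso
    have h1 := (HF_card h).2
    rw [pT_Co c.fr2] at h1
    have h2 : G.pT B z ⊆ G.pT B' z := fun x hx => mem_inter.2 ⟨(mem_inter.1 hx).1, hT' x hx⟩
    have h3 := card_le_card h2
    rw [PairSet_card hT, h1] at h3
    omega

end Tw2

end K28

end CG

end Pool.Agent.Lib.MP_e95c01_co.N
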