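import Pool.Agent.Lib.MP_e95c01_co.X.StmtsU76
import Pool.Agent.Lib.MP_e95c01_co.X.K3e_28

/-!
# `λ = 3`, thick torsos: what low vertices ask from a pair of twins
-/

namespace Pool.Agent.Lib.MP_e95c01_co.N

open Finset

variable {V : Type} [Fintype V] [DecidableEq V]

namespace CG

open K28

namespace C7x16

variable {G : CG V} {Fa : Finset (Finset V)}

theorem six_nodup {S : Finset V} {a b c d e f : V} (hS : S = {a, b, c, d, e, f})
    (h : S.card = 6) : [a, b, c, d, e, f].Nodup := by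
  have h1 : (([a, b, c, d, e, f] : Multiset V)).toFinset = S := by
    rw [hS]
    ext x
    simp
  have h2 := Multiset.toFinset_card_eq_card_iff_nodup (m := ([a, b, c, d, e, f] : Multiset V))
  rw [h1, h] at h2
  exact Multiset.coe_nodup.1 (h2.1 rfl)

theorem uniq (h9 : 9 ≤ Fintype.card V) {v w w' : V} (h : G.Tw v w) (h' : G.Tw v w') : w = w' :=
  (stTwHL_5 G).uniq h9 _ _ _ h h'

theorem sy {v w : V} (h : G.Tw v w) : G.Tw w v := (stTwHL_5 G).symm _ _ h

theorem tw1 {v w : V} (h : G.Tw v w) : G.IsTw v := ⟨w, h⟩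

theorem tw2 {v w : V} (h : G.Tw v w) : G.IsTw w := ⟨v, sy h⟩

/-- a low vertex in two neighbourhoods that sees a pair of twins in one and a low vertex in the
other -/
theorem big_low (hG : G.Gen5 Fa) {d q p l : V} {B B' : Finset V} (hd : d ∈ R Fa) (hdl : G.Low d)
    (hq : q ∈ R Fa) (ht : G.Tw q p) (hI : G.I Fa q = {B}) (hdq : q ∈ G.nb d) (hdN : d ∈ G.N B)
    (hl : l ∈ G.nb d) (hlR : l ∈ R Fa) (hll : G.Low l) (hIl : G.I Fa l = {B'}) (hne : B ≠ B')
    (hdN' : d ∈ G.N B') : 2 ≤ G.ch5 Fa d := by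
  classical
  have h9 := hG.n9
  have hB : B ∈ Fa := (mem_I76.1 (hI.symm ▸ mem_singleton_self B : B ∈ G.I Fa q)).1
  have hB' : B' ∈ Fa := (mem_I76.1 (hIl.symm ▸ mem_singleton_self B' : B' ∈ G.I Fa l)).1
  have hqN : q ∈ G.N B := (mem_I76.1 (hI.symm ▸ mem_singleton_self B : B ∈ G.I Fa q)).2
  have hpI := q_I76 (qs16 G) hG.reg hq ht
  have hIp : G.I Fa p = {B} := hpI.2.trans hI
  have hpN : p ∈ G.N B := (mem_I76.1 (hIp.symm ▸ mem_singleton_self B : B ∈ G.I Fa p)).2
  have hdp' : d ≠ p := by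
    rintro rfl
    exact tw_not_low11 (tw2 ht) hdl
  have hdp : p ∈ G.nb d := G.sym _ _ (Tw_nb5 ht (G.sym _ _ hdq) hdp')
  have hqp : q ≠ p := ne_of_nb5 ht.1
  have hlq : l ≠ q := by
    rintro rfl
    exact tw_not_low11 (tw1 ht) hll
  have hlp : l ≠ p := by
    rintro rfl
    exact tw_not_low11 (tw2 ht) hll
  have hBd : B ∈ G.I Fa d := mem_I76.2 ⟨hB, hdN⟩
  have hBd' : B' ∈ G.I Fa d := mem_I76.2 ⟨hB', hdN'⟩
  have hsub : ({l, q, p} : Finset V) ⊆ G.nR Fa d := by
    intro x hx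
    rw [mem_insert, mem_insert, mem_singleton] at hx
    rcases hx with rfl | rfl | rfl
    · exact mem_nR76.2 ⟨hl, hlR⟩
    · exact mem_nR76.2 ⟨hdq, hq⟩
    · exact mem_nR76.2 ⟨hdp, hpI.1⟩
  have ml : G.m Fa l d ≤ 1 := by
    have := m_le_left (G := G) (Fa := Fa) l d
    rwa [hIl, card_singleton] at this
  have mq : G.m Fa q d ≤ 1 := by
    have := m_le_left (G := G) (Fa := Fa) q d
    rwa [hI, card_singleton] at this
  have mp : G.m Fa p d ≤ 1 := by
    have := m_le_left (G := G) (Fa := Fa) p d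
    rwa [hIp, card_singleton] at this
  have hsum : 4 ≤ ∑ x ∈ ({l, q, p} : Finset V), G.w5 Fa x d := by
    rw [sum_insert (by
      rw [mem_insert, mem_singleton, not_or]
      exact ⟨hlq, hlp⟩), sum_pair hqp]
    have e1 := w5_low (G := G) (Fa := Fa) (z := d) hll
    have e2 := w5_tw (G := G) (Fa := Fa) (z := d) (tw1 ht) mq
    have e3 := w5_tw (G := G) (Fa := Fa) (z := d) (tw2 ht) mp
    have e4 : (G.m Fa l d : ℤ) ≤ 1 := by exact_mod_cast ml
    linarith
  have hk2 : 2 ≤ (G.I Fa d).card := two_le5 hBd hBd' hne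
  have hcard := nR_card76 hG.reg hd hdl
  have h3 : 3 ≤ (G.nR Fa d).card := by
    rw [← show ({l, q, p} : Finset V).card = 3 from by
      rw [card_insert_of_notMem (by
        rw [mem_insert, mem_singleton, not_or]
        exact ⟨hlq, hlp⟩), card_pair hqp]]
    exact card_le_card hsub
  rcases Nat.lt_or_ge (G.I Fa d).card 3 with hk | hk
  · have hId : G.I Fa d = {B, B'} := by
      symm
      apply eq_of_subset_of_card_le
      · intro x hx
        rw [mem_insert, mem_singleton] at hx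
        rcases hx with rfl | rfl
        · exact hBd
        · exact hBd'
      · rw [card_pair hne]
        omega
    have c : Tw2 G Fa d B B' := ⟨h9, hG.reg, hG.big, hd, hdl, hne, hId⟩
    have e1 := c.ch
    have e2 := c.sum_ge hsub
    have e3 := ff_ge (hG.reg.frag B' hB') hdl
    have e4 : 0 ≤ ff G B d := by
      have hqT : q ∈ G.pT B d := mem_inter.2 ⟨hdq, hqN⟩
      have hpT : p ∈ G.pT B d := mem_inter.2 ⟨hdp, hpN⟩
      have hr := e1q_86 hG ht hq hI
      have hr' := e1q_86 hG (sy ht) hpI.1 hIp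
      rcases ff_cases (hG.reg.frag B hB) hdl with k | ⟨-, k | k | k | k⟩
      · exact k
      · obtain ⟨v, k, -⟩ := k
        have k1 := k.2.2.2.1
        rw [k1, mem_singleton] at hqT
        subst hqT
        exact absurd k.2.2.1 (tw_not_low11 (tw1 ht))
      · exfalso
        have k1 := U3_card k
        have k2 := six_low hdl B
        have k3 : (G.nb d ∩ B).card = 3 := k1.1
        have k4 : (G.nb d ∩ G.N B).card = 2 := k1.2
        obtain ⟨y, hy⟩ := card_pos.1 (hid1 hBd')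
        have hlC : l ∈ G.Co B := by
          refine mem_Co76.2 ⟨mem_R76.1 hlR B hB, fun h => ?_⟩
          have : B ∈ G.I Fa l := mem_I76.2 ⟨hB, h⟩
          rw [hIl, mem_singleton] at this
          exact hne this
        have k5 : 2 ≤ (G.nb d ∩ G.Co B).card := by
          refine two_le5 (a := l) (b := y) (mem_inter.2 ⟨hl, hlC⟩)
            (mem_inter.2 ⟨(mem_inter.1 hy).1, blob_Co hG.reg hB hB' hne (mem_inter.1 hy).2⟩) ?_
          rintro rfl
          exact mem_R76.1 hlR B' hB' (mem_inter.1 hy).2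
        omega
      · exfalso
        obtain ⟨-, -, -, Q, Q', r, r', hh, t1, -, -, k2, -, k4, -⟩ := k
        have k5 : q ∈ ({Q, Q'} : Finset V) := by
          rw [← k2, pT_Co (hG.reg.frag B hB)]
          exact hqT
        rw [mem_insert, mem_singleton] at k5
        have k6 : G.d Q (G.Co B) = 2 := k4
        rcases k5 with rfl | rfl
        · omega
        · have := uniq h9 ht (sy t1)
          subst this
          omega
      · exfalso
        have k1 := (HF_card k).2
        rw [pT_Co (hG.reg.frag B hB)] at k1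
        have := two_le5 hqT hpT hqp
        omega
    linarith
  · have hk3 : (G.I Fa d).card = 3 := by omega
    have e5 : ({l, q, p} : Finset V) = G.nR Fa d := by
      apply eq_of_subset_of_card_le hsub
      rw [show ({l, q, p} : Finset V).card = 3 from by
        rw [card_insert_of_notMem (by
          rw [mem_insert, mem_singleton, not_or]
          exact ⟨hlq, hlp⟩), card_pair hqp]]
      omega
    have e1 := (G.stCh5_28).low2 h9 Fa hG.reg d hd hdl
    have e2 := fg_ge hG.reg hdl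
    rw [← e5, hk3] at e1
    rw [hk3] at e2
    push_cast at e1 e2
    linarith

/-! ### claims -/

/-- what a twin vertex gives -/
theorem dn_tw (h9 : 9 ≤ Fintype.card V) {q l : V} (hq : G.IsTw q) : G.dn5 Fa q l =
    (by classical exact (if G.PD Fa l q then -G.ch5 Fa l else 0) + (if G.PF Fa l q then 2 else 0) +
      (if G.PS Fa l q then 1 else 0)) := by
  classical
  have nl : ¬ G.Low q := tw_not_low11 hq
  have nh : ¬ G.Hub q := tw_not_hub hq
  have h1 : ¬ G.DL Fa l q := by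
    intro h
    cases h with
    | gam h _ _ => exact nl h.dl
    | the h _ _ _ => exact nl h.hl.2.1
    | eps h _ _ => exact nl h.dl
    | eta h _ _ => exact nl h.hl.2.1
    | s0 h _ _ => exact nl h.s0.2.2.1
    | t3 h _ _ => exact nl h.low'
    | t6 h _ _ _ => exact nl h.low'
    | k2 _ _ h _ => exact nl h.2.2.1
  have h2 : ¬ G.SK Fa l q := by
    intro h
    cases h with
    | t4 h _ => exact nh h.hx
    | t6q _ _ _ _ _ h _ => exact nh h
    | t6l _ _ _ h => exact nh h.2.2.1.1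
    | gam _ h _ _ h' _ _ =>
      rcases h' with h' | h'
      · rw [h'] at nh
        exact nh h.hx.1
      · rw [h'] at nh
        exact nh h.hy.1
    | the _ h _ h' _ =>
      rcases h' with h' | h'
      · rw [h'] at nh
        exact nh h.hx.1
      · rw [h'] at nh
        exact nh h.hy.1
  have h3 : ¬ G.HD Fa l q := by
    intro h
    cases h with
    | eta h _ _ => exact (stTwHL_5 G).notHL h9 _ _ _ h.hl hq
    | ast _ _ _ _ _ _ _ _ h _ => exact nh h
  have h4 : ¬ G.HS Fa l q := by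
    intro h
    cases h with
    | dbl _ _ _ _ _ _ _ _ h => exact nh h
  have h5 : ¬ G.PQ Fa l q := by
    intro h
    have := h.2.2.2.2
    rw [NH, mem_filter] at this
    exact nh this.2.1
  have h6 : ¬ G.AL Fa l q := by
    rintro ⟨B, p, e, f, hh, h⟩
    exact nl h.yl
  unfold dn5
  rw [if_neg h1, if_neg h2, if_neg h3, if_neg h4, if_neg h5, if_neg h6]
  ring

/-- the claims on a twin vertex -/
theorem claims (h9 : 9 ≤ Fintype.card V) {q l : V} (hq : G.IsTw q) (h : G.dn5 Fa q l ≠ 0) :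
    (∃ l' p q' p' x, G.T3s Fa l l' q p q' p' x ∧ q' ∈ G.nb q ∧ l' ∈ G.nb q) ∨
    (∃ l' p q' p' x, G.T3s Fa l l' q p q' p' x ∧ q' ∉ G.nb q ∧ G.I Fa l' = ∅) ∨
    (∃ l' p x y z, G.T6s Fa l l' q p x y z ∧ G.NoSk Fa l q ∧ 1 ≤ G.ch5 Fa q) ∨
    (∃ B d p, G.Eps Fa B l d q p ∧ G.ch5 Fa d < 2) ∨
    (∃ B v p y, G.S0s Fa B l v q p y ∧ G.ch5 Fa v < 1) ∨
    (∃ p q' p' x y, G.T4s Fa l q p q' p' x y ∧ G.I Fa x = ∅ ∧ ¬ G.RFt Fa q) := by
  classical
  rw [dn_tw h9 hq] at h
  by_cases h1 : G.PD Fa l q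
  · cases h1 with
    | t3 a b c => exact Or.inl ⟨_, _, _, _, _, a, b, c⟩
    | t6 a _ c d _ => exact Or.inr (Or.inr (Or.inl ⟨_, _, _, _, _, a, c, d⟩))
    | eps a _ c => exact Or.inr (Or.inr (Or.inr (Or.inl ⟨_, _, _, a, c⟩)))
    | s0 a _ c => exact Or.inr (Or.inr (Or.inr (Or.inr (Or.inl ⟨_, _, _, _, a, c⟩))))
  · by_cases h2 : G.PF Fa l q
    · cases h2 with
      | t4 a b c => exact Or.inr (Or.inr (Or.inr (Or.inr (Or.inr ⟨_, _, _, _, _, a, b, c⟩))))
    · by_cases h3 : G.PS Fa l q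
      · cases h3 with
        | t3 a b c => exact Or.inr (Or.inl ⟨_, _, _, _, _, a, b, c⟩)
        | t6 a _ c d _ => exact Or.inr (Or.inr (Or.inl ⟨_, _, _, _, _, a, c, d⟩))
      · simp only [if_neg h1, if_neg h2, if_neg h3] at h
        exact absurd rfl h

/-- the vertex that asks is low and not in `N B` -/
theorem claim_out (h9 : 9 ≤ Fintype.card V) {q l : V} (hq : G.IsTw q) (h : G.dn5 Fa q l ≠ 0) :
    l ∈ R Fa ∧ G.Low l ∧ q ∈ G.nb l ∧
      (G.I Fa l = ∅ ∨ ∃ B, G.I Fa l = {B} ∧ q ∈ G.Co B) := by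
  rcases claims h9 hq h with ⟨l', p, q', p', x, a, -⟩ | ⟨l', p, q', p', x, a, -⟩ |
    ⟨l', p, x, y, z, a, -⟩ | ⟨B, d, p, a, -⟩ | ⟨B, v, p, y, a, -⟩ | ⟨p, q', p', x, y, a, -⟩
  · exact ⟨a.lR, a.low, by rw [a.nb]; simp, Or.inl a.I0⟩
  · exact ⟨a.lR, a.low, by rw [a.nb]; simp, Or.inl a.I0⟩
  · exact ⟨a.lR, a.low, by rw [a.nb]; simp, Or.inl a.I0⟩
  · have h1 : q ∈ G.pO B l := by rw [a.out]; simp
    rw [pO, mem_inter] at h1
    exact ⟨a.lR, a.low, h1.1, Or.inr ⟨B, a.I1, h1.2⟩⟩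
  · have h1 : q ∈ G.pO B l := by rw [a.out]; simp
    rw [pO, mem_inter] at h1
    exact ⟨a.lR, a.low, h1.1, Or.inr ⟨B, a.I1, h1.2⟩⟩
  · exact ⟨a.lR, a.low, by rw [a.nb]; simp, Or.inl a.I0⟩

end C7x16

end CG

end Pool.Agent.Lib.MP_e95c01_co.N
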