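import Pool.Agent.Lib.MP_e95c01_co.X.C7a1_16

/-!
# `λ = 3`, thick torsos: the setting of row C7a and the types of the claims
-/

namespace Pool.Agent.Lib.MP_e95c01_co.N

open Finset

variable {V : Type} [Fintype V] [DecidableEq V]

namespace CG

open K28

namespace C7x16

variable {G : CG V} {Fa : Finset (Finset V)}

/-- the neighbours of a vertex in no neighbourhood are in `R` -/
theorem nb_R {l x : V} (hl : l ∈ R Fa) (hI : G.I Fa l = ∅) (hx : x ∈ G.nb l) : x ∈ R Fa := by
  rw [mem_R76]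
  intro B hB hxB
  have := I_of_nb76 hl hB hx hxB
  rw [hI] at this
  exact absurd this (notMem_empty _)

theorem m_zero0 {l x : V} (hI : G.I Fa l = ∅) : G.m Fa l x = 0 := by
  rw [m, hI, empty_inter, card_empty]

theorem hl_hub (h9 : 9 ≤ Fintype.card V) {a b l : V} (h : G.HL a b l) : G.Hub a :=
  ⟨HL_not_low76 h, (stTwHL_5 G).notHL h9 _ _ _ h⟩

/-- `T3`: not adjacent pairs are covered by the low vertex -/
theorem T3cov (hG : G.Gen5 Fa) {l l' q p q' p' x : V} (h : G.T3s Fa l l' q p q' p' x)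
    (hq' : q' ∉ G.nb q) : l' ∈ G.nb q := by
  have h9 := hG.n9
  have hql : q ∈ G.nb l := by rw [h.nb]; simp
  have hqR := nb_R h.lR h.I0 hql
  have hxh : G.Hub x := h.hx.1
  rcases cov_lh86 hG h.lR (mem_nR76.2 ⟨hql, hqR⟩) (m_zero0 h.I0) (tw_not_low11 (tw1 h.t)) with
    (⟨w, hw1, hw2, hw⟩ | ⟨v, w, hv1, hw1, hv2, hw2, ht⟩) | ⟨a, b, ha, hb, hl, -⟩ |
    ⟨a, b, -, -, -, hl⟩
  · have h1 := (mem_nR76.1 hw1).1
    rw [h.nb] at h1
    simp only [mem_insert, mem_singleton] at h1
    rcases h1 with rfl | rfl | rfl | rfl | rfl | rfl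
    · exact (mem_nR76.1 hw2).1
    · exact absurd hw (tw_not_low11 (tw1 h.t))
    · exact absurd hw (tw_not_low11 (tw2 h.t))
    · exact absurd hw (tw_not_low11 (tw1 h.t'))
    · exact absurd hw (tw_not_low11 (tw2 h.t'))
    · exact absurd hw hxh.1
  · exfalso
    have h1 := (mem_nR76.1 hv1).1
    have h2 := (mem_nR76.1 hv2).1
    have h3 := (mem_nR76.1 hw2).1
    rw [h.nb] at h1
    simp only [mem_insert, mem_singleton] at h1
    rcases h1 with rfl | rfl | rfl | rfl | rfl | rfl
    · exact tw_not_low11 (tw1 ht) h.low'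
    · exact G.irr _ h2
    · have := uniq h9 ht (sy h.t)
      subst this
      exact G.irr _ h3
    · exact hq' h2
    · have := uniq h9 ht (sy h.t')
      subst this
      exact hq' h3
    · exact hxh.2 (tw1 ht)
  · exfalso
    have h1 := (mem_nR76.1 ha).1
    rw [h.nb] at h1
    simp only [mem_insert, mem_singleton] at h1
    have h2 := hl_hub h9 hl
    rcases h1 with rfl | rfl | rfl | rfl | rfl | rfl
    · exact h2.1 h.low'
    · exact h2.2 (tw1 h.t)
    · exact h2.2 (tw2 h.t)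
    · exact h2.2 (tw1 h.t')
    · exact h2.2 (tw2 h.t')
    · exact h.hx.2.2 ⟨_, hl⟩
  · exact absurd (tw1 h.t) ((stTwHL_5 G).twLL _ _ _ _ hl).2

/-- `T3` with the pairs exchanged -/
theorem T3swap {l l' q p q' p' x : V} (h : G.T3s Fa l l' q p q' p' x) :
    G.T3s Fa l l' q' p' q p x where
  lR := h.lR
  low := h.low
  I0 := h.I0
  nb := by
    rw [h.nb]
    ext y
    simp only [mem_insert, mem_singleton]
    tauto
  low' := h.low'
  t := h.t'
  t' := h.t
  kq := h.kq'
  kq' := h.kq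
  hx := h.hx

theorem not_L0 {l : V} {B : Finset V} (h : G.I Fa l = ∅) (h' : G.I Fa l = {B}) : False := by
  rw [h] at h'
  exact (singleton_ne_empty B) h'.symm

/-- `T3` and `T6` at the same vertex -/
theorem T3_T6 (h9 : 9 ≤ Fintype.card V) {l l' q p q' p' x l2 p2 x2 y2 z2 : V}
    (h : G.T3s Fa l l' q p q' p' x) (h2 : G.T6s Fa l l2 q p2 x2 y2 z2) : False := by
  have hp := uniq h9 h.t h2.t
  subst hp
  have hn := six_nodup h.nb h.low
  have h1 : q' ∈ G.nb l := by rw [h.nb]; simp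
  rw [h2.nb] at h1
  simp only [List.nodup_cons, List.mem_cons, List.not_mem_nil, or_false, not_or] at hn
  simp only [mem_insert, mem_singleton] at h1
  rcases h1 with e | e | e | e | e | e
  · exact tw_not_low11 (tw1 h.t') (e ▸ h2.low')
  · exact hn.2.1.2.1 e.symm
  · exact hn.2.2.1.1 e.symm
  · exact (e ▸ h2.hx.1 : G.Hub q').2 (tw1 h.t')
  · exact (e ▸ h2.hy.1 : G.Hub q').2 (tw1 h.t')
  · exact (e ▸ h2.hz.1 : G.Hub q').2 (tw1 h.t')

/-- a vertex with a low neighbour is not of type `T4` -/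
theorem T4_low {l q p q' p' x y l' : V} (h : G.T4s Fa l q p q' p' x y) (hl : l' ∈ G.nb l)
    (h' : G.Low l') : False := by
  rw [h.nb] at hl
  simp only [mem_insert, mem_singleton] at hl
  rcases hl with rfl | rfl | rfl | rfl | rfl | rfl
  · exact tw_not_low11 (tw1 h.t) h'
  · exact tw_not_low11 (tw2 h.t) h'
  · exact tw_not_low11 (tw1 h.t') h'
  · exact tw_not_low11 (tw2 h.t') h'
  · exact h.hx.1 h'
  · exact h.hy.1 h'

/-- `T3` with not adjacent pairs asks at most 1 -/
theorem T3_dn (h9 : 9 ≤ Fintype.card V) {l l' q p q' p' x : V}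
    (h : G.T3s Fa l l' q p q' p' x) (hq' : q' ∉ G.nb q) : G.dn5 Fa q l ≤ 1 := by
  classical
  have h1 : ¬ G.PD Fa l q := by
    intro hc
    cases hc with
    | @t3 _ l2 _ p2 q2 r2 x2 h2 h3 h4 =>
      have hp := uniq h9 h.t h2.t
      subst hp
      have hn := six_nodup h2.nb h2.low
      have h1 : q2 ∈ G.nb l := by rw [h2.nb]; simp
      rw [h.nb] at h1
      simp only [List.nodup_cons, List.mem_cons, List.not_mem_nil, or_false, not_or] at hn
      simp only [mem_insert, mem_singleton] at h1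
      rcases h1 with e | e | e | e | e | e
      · exact tw_not_low11 (tw1 h2.t') (e ▸ h.low')
      · exact hn.2.1.2.1 e.symm
      · exact hn.2.2.1.1 e.symm
      · exact hq' (e ▸ h3)
      · refine hq' ?_
        have h5 : p' ∈ G.nb q := e ▸ h3
        have h6 : q ≠ q' := by
          have hn := six_nodup h.nb h.low
          simp only [List.nodup_cons, List.mem_cons, List.not_mem_nil, or_false, not_or] at hn
          exact hn.2.1.2.1
        exact G.sym _ _ (Tw_nb5 (sy h.t') (G.sym _ _ h5) h6)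
      · exact (e ▸ h.hx.1 : G.Hub q2).2 (tw1 h2.t')
    | t6 h2 => exact T3_T6 h9 h h2
    | eps h2 => exact not_L0 h.I0 h2.I1
    | s0 h2 => exact not_L0 h.I0 h2.I1
  have h2 : ¬ G.PF Fa l q := by
    intro hc
    cases hc with
    | t4 h2 => exact T4_low h2 (by rw [h.nb]; simp) h.low'
  rw [dn_tw h9 (tw1 h.t), if_neg h1, if_neg h2]
  split_ifs <;> norm_num

/-- two vertices of type `T6` that both ask: each asks at most 1 if the pair has `RF` -/
theorem T6_dn (h9 : 9 ≤ Fintype.card V) {l l' q p x y z : V}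
    (h : G.T6s Fa l l' q p x y z) (hD : G.Dbl Fa l l' q) : G.dn5 Fa q l ≤ 1 := by
  classical
  have h1 : ¬ G.PD Fa l q := by
    intro hc
    cases hc with
    | t3 h2 => exact T3_T6 h9 h2 h
    | @t6 _ l2 _ p2 x2 y2 z2 h2 h3 h4 h5 h6 =>
      have e : l2 = l' := by
        have h1 : l2 ∈ G.nb l := by rw [h2.nb]; simp
        rw [h.nb] at h1
        simp only [mem_insert, mem_singleton] at h1
        rcases h1 with e | e | e | e | e | e
        · exact e
        · exact absurd (e ▸ h2.low') (tw_not_low11 (tw1 h.t))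
        · exact absurd (e ▸ h2.low') (tw_not_low11 (tw2 h.t))
        · exact absurd h2.low' (e ▸ h.hx.1 : G.Hub l2).1
        · exact absurd h2.low' (e ▸ h.hy.1 : G.Hub l2).1
        · exact absurd h2.low' (e ▸ h.hz.1 : G.Hub l2).1
      rw [e] at h6
      exact h6 hD
    | eps h2 => exact not_L0 h.I0 h2.I1
    | s0 h2 => exact not_L0 h.I0 h2.I1
  have h2 : ¬ G.PF Fa l q := by
    intro hc
    cases hc with
    | t4 h2 => exact T4_low h2 (by rw [h.nb]; simp) h.low'
  rw [dn_tw h9 (tw1 h.t), if_neg h1, if_neg h2]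
  split_ifs <;> norm_num

/-- `T6`: a hub of `l` that is not adjacent to `l'` but to the pair -/
theorem priv (hG : G.Gen5 Fa) {l l' q p x y z : V} (h : G.T6s Fa l l' q p x y z)
    (hq : q ∈ G.nb l') (hlow : ∀ w ∈ G.nR Fa q, G.Low w → w = l ∨ w = l') :
    ∃ g, g ∈ G.nb l ∧ g ∉ G.nb l' ∧ G.PH Fa l g ∧ g ∈ G.nb q := by
  have h9 := hG.n9
  have hn := six_nodup h.nb h.low
  simp only [List.nodup_cons, List.mem_cons, List.not_mem_nil, or_false, not_or] at hn
  obtain ⟨⟨n1, n2, n3, n4, n5⟩, ⟨n6, n7, n8, n9⟩, ⟨n10, n11, n12⟩, ⟨n13, n14⟩, n15, -, -⟩ := hn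
  have hql : q ∈ G.nb l := by rw [h.nb]; simp
  have hpl : p ∈ G.nb l := by rw [h.nb]; simp
  have hl'l : l' ∈ G.nb l := by rw [h.nb]; simp
  have hp : p ∈ G.nb l' := G.sym _ _ (Tw_nb5 h.t (G.sym _ _ hq) n2)
  have key : ∃ g ∈ G.nb l, g ∉ G.nb l' ∧ G.PH Fa l g := by
    by_contra hc
    push Not at hc
    have h1 := ll_le86 h9 h.low h.low' hl'l
    have h2 : ({q, p, x, y, z} : Finset V) ⊆ G.nb l ∩ G.nb l' := by
      intro u hu
      have e1 : u ∈ G.nb l := by
        rw [h.nb]
        exact mem_insert_of_mem hu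
      refine mem_inter.2 ⟨e1, ?_⟩
      simp only [mem_insert, mem_singleton] at hu
      rcases hu with rfl | rfl | rfl | rfl | rfl
      · exact hq
      · exact hp
      · by_contra hc1
        exact hc _ e1 hc1 h.hx
      · by_contra hc1
        exact hc _ e1 hc1 h.hy
      · by_contra hc1
        exact hc _ e1 hc1 h.hz
    have h3 : ({q, p, x, y, z} : Finset V).card = 5 := by
      rw [card_insert_of_notMem, card_insert_of_notMem, card_insert_of_notMem, card_pair n15]
      · simp only [mem_insert, mem_singleton, not_or]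
        exact ⟨n13, n14⟩
      · simp only [mem_insert, mem_singleton, not_or]
        exact ⟨n10, n11, n12⟩
      · simp only [mem_insert, mem_singleton, not_or]
        exact ⟨n6, n7, n8, n9⟩
    have h4 := card_le_card h2
    omega
  obtain ⟨g, hg, hg', hgp⟩ := key
  refine ⟨g, hg, hg', hgp, ?_⟩
  have hlowl : ∀ w ∈ G.nb l, G.Low w → w = l' := by
    intro w h1 hw
    rw [h.nb] at h1
    simp only [mem_insert, mem_singleton] at h1
    rcases h1 with e | e | e | e | e | e
    · exact e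
    · exact absurd (e ▸ hw) (tw_not_low11 (tw1 h.t))
    · exact absurd (e ▸ hw) (tw_not_low11 (tw2 h.t))
    · exact absurd hw (e ▸ h.hx.1 : G.Hub w).1
    · exact absurd hw (e ▸ h.hy.1 : G.Hub w).1
    · exact absurd hw (e ▸ h.hz.1 : G.Hub w).1
  have htwl : ∀ w ∈ G.nb l, G.IsTw w → w = q ∨ w = p := by
    intro w h1 hw
    rw [h.nb] at h1
    simp only [mem_insert, mem_singleton] at h1
    rcases h1 with e | e | e | e | e | e
    · exact absurd h.low' (e ▸ tw_not_low11 hw)
    · exact Or.inl e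
    · exact Or.inr e
    · exact absurd hw (e ▸ h.hx.1 : G.Hub w).2
    · exact absurd hw (e ▸ h.hy.1 : G.Hub w).2
    · exact absurd hw (e ▸ h.hz.1 : G.Hub w).2
  rcases cov_lh86 hG h.lR (mem_nR76.2 ⟨hg, nb_R h.lR h.I0 hg⟩) (m_zero0 h.I0) hgp.1.1 with
    (⟨w, hw1, hw2, hw⟩ | ⟨v, w, hv1, hw1, hv2, hw2, ht⟩) | ⟨a, b, ha, hb, hl, -⟩ |
    ⟨a, b, ha, hb, hgb, hl⟩
  · have := hlowl w (mem_nR76.1 hw1).1 hw
    subst this
    exact absurd (G.sym _ _ (mem_nR76.1 hw2).1) hg'
  · rcases htwl v (mem_nR76.1 hv1).1 (tw1 ht) with e | e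
    · subst e
      exact G.sym _ _ (mem_nR76.1 hv2).1
    · subst e
      have := uniq h9 ht (sy h.t)
      subst this
      exact G.sym _ _ (mem_nR76.1 hw2).1
  · exfalso
    have h1 := (mem_nR76.1 ha).1
    rw [h.nb] at h1
    simp only [mem_insert, mem_singleton] at h1
    have h2 := hl_hub h9 hl
    rcases h1 with rfl | rfl | rfl | rfl | rfl | rfl
    · exact h2.1 h.low'
    · exact h2.2 (tw1 h.t)
    · exact h2.2 (tw2 h.t)
    · exact h.hx.2.2 ⟨_, hl⟩
    · exact h.hy.2.2 ⟨_, hl⟩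
    · exact h.hz.2.2 ⟨_, hl⟩
  · exfalso
    have e1 := hlowl a (mem_nR76.1 ha).1 hl.1
    subst e1
    have hab := LL_ab76 hl
    rcases LL_to76 hl hq (by
      rintro rfl
      exact G.irr _ hql) with e | e
    · subst e
      exact tw_not_low11 (tw1 h.t) hl.2.1
    · rcases hlow b (mem_nR76.2 ⟨G.sym _ _ e, hb⟩) hl.2.1 with e2 | e2
      · exact (LL_tb76 hl).2 e2.symm
      · subst e2
        exact G.irr _ hab

end C7x16

end CG

end Pool.Agent.Lib.MP_e95c01_co.N
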