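import Pool.Agent.Lib.MP_e95c01_co.X.AuxT76
import Pool.Agent.Lib.MP_e95c01_co.X.K3f_28

/-!
# `λ = 3`, thick torsos: C7b, twin vertices in no neighbourhood, the claimants (helper88)
-/

namespace Pool.Agent.Lib.MP_e95c01_co.N

open Finset

variable {V : Type} [Fintype V] [DecidableEq V]

namespace CG

namespace C7b88

variable {G : CG V} {Fa : Finset (Finset V)}

open K28

/-- the low vertex `z` asks the twin vertex `q`, `c` is its low neighbour near `q` -/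
inductive Cl (G : CG V) (Fa : Finset (Finset V)) (q z c : V) : Prop
  | A {p q' p' x : V} : G.T3s Fa z c q p q' p' x → q' ∉ G.nb q → G.I Fa c = ∅ → Cl G Fa q z c
  | E {B : Finset V} {p : V} : G.Eps Fa B z c q p → G.ch5 Fa z < 0 → G.ch5 Fa c < 2 →
      Cl G Fa q z c
  | S {B : Finset V} {p y : V} : G.S0s Fa B z c q p y → G.ch5 Fa z < 0 → G.ch5 Fa c < 1 →
      Cl G Fa q z c

/-! ### general facts -/

theorem nodup_le {S : Finset V} {l : List V} (h1 : l.Nodup) (h2 : ∀ u ∈ l, u ∈ S) :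
    l.length ≤ S.card := by
  rw [← List.toFinset_card_of_nodup h1]
  exact card_le_card fun u hu => h2 u (List.mem_toFinset.1 hu)

theorem cl_symm {a b : V} (h : a ∈ G.cl b) : b ∈ G.cl a := by
  rw [cl, mem_insert] at h ⊢
  rcases h with h | h
  · exact Or.inl h.symm
  · exact Or.inr (G.sym _ _ h)

/-- the partner of a twin neighbour -/
theorem tw_nb {z e f : V} (h : G.Tw e f) (he : e ∈ G.nb z) (hz : z ≠ f) : f ∈ G.nb z :=
  G.sym _ _ (Tw_nb5 h (G.sym _ _ he) hz)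

theorem low_ne_tw {z e : V} (h : G.Low z) (he : G.IsTw e) : z ≠ e := by
  rintro rfl
  exact tw_not_low76 he h

/-- `I` of the partner -/
theorem twI88 (hr : G.Reg Fa) {e f : V} (he : e ∈ R Fa) (h : G.Tw e f) :
    f ∈ R Fa ∧ G.I Fa f = G.I Fa e := (stTwHL_5 G).twI Fa hr e he f h

/-- a visible vertex in no neighbourhood is in `Co B` -/
theorem Co_of {q : V} {B : Finset V} (hB : B ∈ Fa) (hq : q ∈ R Fa) (h : B ∉ G.I Fa q) :
    q ∈ G.Co B :=
  mem_Co76.2 ⟨mem_R76.1 hq B hB, fun h1 => h (mem_I76.2 ⟨hB, h1⟩)⟩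

theorem L1.mem {B : Finset V} {l : V} (h : G.L1 Fa B l) : B ∈ Fa ∧ l ∈ G.N B :=
  mem_I76.1 (h.I1.symm ▸ mem_singleton_self B : B ∈ G.I Fa l)

/-- a hidden neighbour -/
theorem hidden {B : Finset V} {l : V} (h : l ∈ G.N B) : ∃ b ∈ B, b ∈ G.nb l := by
  obtain ⟨-, b, hb, hl⟩ := mem_N76.1 h
  exact ⟨b, hb, G.sym _ _ hl⟩

theorem ne_of_R {B : Finset V} (hB : B ∈ Fa) {b x : V} (hb : b ∈ B) (hx : x ∈ R Fa) : b ≠ x := by
  rintro rfl
  exact mem_R76.1 hx B hB hb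

/-! ### type `T3` -/

theorem A_nbq (hG : G.Gen6 Fa) {l l' q p q' p' x : V} (h : G.T3s Fa l l' q p q' p' x)
    (hn : q' ∉ G.nb q) : l' ∈ G.nb q := by
  have h9 := hG.g5.n9
  have hr := hG.g5.reg
  have hql : q ∈ G.nb l := by rw [h.nb]; simp
  have hqR := nb_R76 h.lR h.I0 hql
  have hqt : G.IsTw q := ⟨_, h.t⟩
  have hm : G.m Fa l q = 0 := by rw [m, h.I0, empty_inter, card_empty]
  rcases cov_lh86 hG.g5 h.lR (mem_nR76.2 ⟨hql, hqR⟩) hm (tw_not_low76 hqt) with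
    (⟨w, h1, h2, h3⟩ | ⟨v, w, h1, h2, h3, h4, h5⟩) | ⟨a, b, h1, h2, h3, -⟩ | ⟨a, b, -, -, -, h4⟩
  · have e1 := (mem_nR76.1 h1).1
    rw [h.nb] at e1
    simp only [mem_insert, mem_singleton] at e1
    rcases e1 with rfl | rfl | rfl | rfl | rfl | rfl
    · exact (mem_nR76.1 h2).1
    · exact absurd h3 (tw_not_low76 hqt)
    · exact absurd h3 (tw_not_low76 (tw_of76' h.t))
    · exact absurd h3 (tw_not_low76 (tw_of76 h.t'))
    · exact absurd h3 (tw_not_low76 (tw_of76' h.t'))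
    · exact absurd h3 h.hx.1.1
  · exfalso
    have e1 := (mem_nR76.1 h1).1
    have e3 := (mem_nR76.1 h3).1
    have e4 := (mem_nR76.1 h4).1
    rw [h.nb] at e1
    simp only [mem_insert, mem_singleton] at e1
    rcases e1 with rfl | rfl | rfl | rfl | rfl | rfl
    · exact tw_not_low76 (tw_of76 h5) h.low'
    · exact G.irr _ e3
    · have : w = q := (stTwHL_5 G).uniq h9 _ _ _ h5 (tw_symm76 h.t)
      rw [this] at e4
      exact G.irr _ e4
    · exact hn e3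
    · have : w = q' := (stTwHL_5 G).uniq h9 _ _ _ h5 (tw_symm76 h.t')
      rw [this] at e4
      exact hn e4
    · exact h.hx.1.2 (tw_of76 h5)
  · exfalso
    have e1 := (mem_nR76.1 h1).1
    rw [h.nb] at e1
    simp only [mem_insert, mem_singleton] at e1
    have e2 := HL_hubT76 h9 h3
    rcases e1 with rfl | rfl | rfl | rfl | rfl | rfl
    · exact e2.1 h.low'
    · exact e2.2 hqt
    · exact e2.2 (tw_of76' h.t)
    · exact e2.2 (tw_of76 h.t')
    · exact e2.2 (tw_of76' h.t')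
    · exact h.hx.2.2 ⟨b, h3⟩
  · exact absurd hqt ((stTwHL_5 G).twLL _ _ _ _ h4).2

theorem A_np (hG : G.Gen6 Fa) {l l' q p q' p' x : V} (h : G.T3s Fa l l' q p q' p' x)
    (hn : q' ∉ G.nb q) : p' ∉ G.nb q := by
  intro h1
  have hr := hG.g5.reg
  have hqp' : q ≠ q' := by
    rintro rfl
    have e : p = p' := (stTwHL_5 G).uniq hG.g5.n9 _ _ _ h.t h.t'
    subst e
    have h6 : (G.nb l).card = 6 := h.low
    rw [h.nb] at h6
    have : ({l', q, p, q, p, x} : Finset V) = {l', q, p, x} := by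
      ext u; simp
    rw [this] at h6
    have := card_le_four (a := l') (b := q) (c := p) (d := x)
    omega
  exact hn (G.sym _ _ (Tw_nb5 (tw_symm76 h.t') (G.sym _ _ h1) hqp'))

/-- the neighbours of `l'` in a `T3` (B2) -/
theorem A_nb (hG : G.Gen6 Fa) {l l' q p q' p' x : V} (h : G.T3s Fa l l' q p q' p' x)
    (hn : q' ∉ G.nb q) : [l, q, p, q', p'].Nodup ∧ ∀ u ∈ [l, q, p, q', p'], u ∈ G.nb l' := by
  have hr := hG.g5.reg
  have h1 := A_nbq hG h hn
  have h2 := A_nbq hG h.comm (fun e => hn (G.sym _ _ e))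
  have hl' : l' ∈ G.nb l := by rw [h.nb]; simp
  have hq : q ∈ G.nb l := by rw [h.nb]; simp
  have hp : p ∈ G.nb l := by rw [h.nb]; simp
  have hq' : q' ∈ G.nb l := by rw [h.nb]; simp
  have hp' : p' ∈ G.nb l := by rw [h.nb]; simp
  have a1 : q ∈ G.nb l' := G.sym _ _ h1
  have a2 : q' ∈ G.nb l' := G.sym _ _ h2
  have a3 : p ∈ G.nb l' := tw_nb h.t a1 (low_ne_tw h.low' (tw_of76' h.t))
  have a4 : p' ∈ G.nb l' := tw_nb h.t' a2 (low_ne_tw h.low' (tw_of76' h.t'))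
  have hnp := A_np hG h hn
  have b1 : l ≠ q := low_ne_tw h.low (tw_of76 h.t)
  have b2 : l ≠ p := low_ne_tw h.low (tw_of76' h.t)
  have b3 : l ≠ q' := low_ne_tw h.low (tw_of76 h.t')
  have b4 : l ≠ p' := low_ne_tw h.low (tw_of76' h.t')
  have b5 : q ≠ p := ne_of_nb5 h.t.1
  have b6 : q' ≠ p' := ne_of_nb5 h.t'.1
  have b7 : p ≠ q' := fun e => hn (by rw [← e]; exact h.t.1)
  have b8 : p ≠ p' := fun e => hnp (by rw [← e]; exact h.t.1)
  have b9 : q ≠ p' := by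
    intro e
    have : p = q' := (stTwHL_5 G).uniq hG.g5.n9 _ _ _ h.t (by rw [e]; exact tw_symm76 h.t')
    exact b7 this
  have b10 : q ≠ q' := by
    intro e
    have : p = p' := (stTwHL_5 G).uniq hG.g5.n9 _ _ _ h.t (by rw [e]; exact h.t')
    exact b8 this
  refine ⟨?_, ?_⟩
  · simp [b1, b2, b3, b4, b5, b6, b7, b8, b9, b10]
  · intro u hu
    simp only [List.mem_cons, List.not_mem_nil, or_false] at hu
    rcases hu with rfl | rfl | rfl | rfl | rfl
    · exact G.sym _ _ hl'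
    · exact a1
    · exact a3
    · exact a2
    · exact a4

/-! ### type `EPS` -/

theorem E_nb {B : Finset V} {l d q p : V} (h : G.Eps Fa B l d q p) :
    d ∈ G.nb l ∧ d ∈ G.N B ∧ q ∈ G.nb l ∧ p ∈ G.nb l ∧ l ∈ G.pT B d := by
  have h1 : q ∈ G.pO B l := by rw [h.out]; simp
  have h2 : p ∈ G.pO B l := by rw [h.out]; simp
  have h3 := mem_inter.1 h.dT
  exact ⟨h3.1, h3.2, (mem_inter.1 h1).1, (mem_inter.1 h2).1,
    mem_inter.2 ⟨G.sym _ _ h3.1, (L1.mem h.toL1).2⟩⟩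

/-- the low vertex `d` is in `N B` only -/
theorem E_I (hG : G.Gen6 Fa) {B : Finset V} {l d q p : V} (h : G.Eps Fa B l d q p)
    (hq0 : G.I Fa q = ∅) (hqR : q ∈ R Fa) (hd : G.ch5 Fa d < 2) : G.L1 Fa B d := by
  have h9 := hG.g5.n9
  have hr := hG.g5.reg
  obtain ⟨hB, hlB⟩ := L1.mem h.toL1
  obtain ⟨e1, e2, e3, e4, e5⟩ := E_nb h
  have hdR : d ∈ R Fa := N_R hr hB e2
  have hBd : B ∈ G.I Fa d := mem_I76.2 ⟨hB, e2⟩
  have hp := twI88 hr hqR h.t
  have hdq : q ∈ G.nb d := h.dq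
  have hdp : p ∈ G.nb d := tw_nb h.t h.dq (low_ne_tw h.dl (tw_of76' h.t))
  have hld : l ∈ G.nb d := G.sym _ _ e1
  have n1 : q ≠ p := ne_of_nb5 h.t.1
  have n2 : l ≠ q := low_ne_tw h.low (tw_of76 h.t)
  have n3 : l ≠ p := low_ne_tw h.low (tw_of76' h.t)
  have hS : ({q, p, l} : Finset V) ⊆ G.nR Fa d := by
    intro u hu
    rw [mem_insert, mem_insert, mem_singleton] at hu
    rcases hu with rfl | rfl | rfl
    · exact mem_nR76.2 ⟨hdq, hqR⟩
    · exact mem_nR76.2 ⟨hdp, hp.1⟩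
    · exact mem_nR76.2 ⟨hld, h.lR⟩
  have hcard : ({q, p, l} : Finset V).card = 3 := by
    rw [card_insert_of_notMem (by simp [n1, n2.symm]), card_pair n3.symm]
  have mq : G.m Fa q d = 0 := by rw [m, hq0, empty_inter, card_empty]
  have mp : G.m Fa p d = 0 := by rw [m, hp.2, hq0, empty_inter, card_empty]
  have ml : G.m Fa l d ≤ 1 := by
    have := m_le_left (G := G) (Fa := Fa) l d
    rwa [h.I1, card_singleton] at this
  have wq : 2 ≤ G.w5 Fa q d := w5_zero mq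
  have wp : 2 ≤ G.w5 Fa p d := w5_zero mp
  have wl : 2 ≤ G.w5 Fa l d := by
    rw [w5_low h.low]
    have : (G.m Fa l d : ℤ) ≤ 1 := by exact_mod_cast ml
    linarith
  have hsum : ∑ u ∈ ({q, p, l} : Finset V), G.w5 Fa u d =
      G.w5 Fa q d + G.w5 Fa p d + G.w5 Fa l d := by
    rw [sum_insert (by simp [n1, n2.symm]), sum_pair n3.symm]
    ring
  refine ⟨hdR, h.dl, ?_⟩
  by_contra hne
  have hk : 2 ≤ (G.I Fa d).card := by
    by_contra hk
    apply hne
    have h1 : (G.I Fa d).card ≤ 1 := by omega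
    rw [eq_singleton_iff_unique_mem]
    exact ⟨hBd, fun C hC => card_le_one.1 h1 C hC B hBd⟩
  have hnR := nR_card76 hr hdR h.dl
  have hle := card_le_card hS
  have hk3 : (G.I Fa d).card ≤ 3 := by omega
  by_cases hk2 : (G.I Fa d).card = 2
  · obtain ⟨D1, D2, hne', hI⟩ := card_eq_two.1 hk2
    have c : Tw2 G Fa d D1 D2 := ⟨h9, hr, hG.g5.big, hdR, h.dl, hne', hI⟩
    have h5 := c.ch
    have h6 := c.sum_ge hS
    have h8 := ff_ge c.fr1 h.dl
    have h9' := ff_ge c.fr2 h.dl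
    linarith
  · have hk3' : (G.I Fa d).card = 3 := by omega
    have heq : G.nR Fa d = {q, p, l} := (eq_of_subset_of_card_le hS (by omega)).symm
    have h1 := (G.stCh5_28).low2 h9 Fa hr d hdR h.dl
    have h3 := fg_ge hr h.dl (Fa := Fa)
    rw [heq, hk3'] at h1
    rw [hk3'] at h3
    push_cast at h1 h3
    linarith

theorem E_out (hG : G.Gen6 Fa) {B : Finset V} {l d q p : V} (h : G.Eps Fa B l d q p)
    (hq0 : G.I Fa q = ∅) (hqR : q ∈ R Fa) (hd : G.ch5 Fa d < 2) :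
    (G.pO B d).card = 3 ∧ q ∈ G.pO B d ∧ p ∈ G.pO B d := by
  have h9 := hG.g5.n9
  have hr := hG.g5.reg
  have hL := E_I hG h hq0 hqR hd
  obtain ⟨hB, hlB⟩ := L1.mem h.toL1
  obtain ⟨e1, e2, e3, e4, e5⟩ := E_nb h
  have hp := twI88 hr hqR h.t
  have hdq : q ∈ G.nb d := h.dq
  have hdp : p ∈ G.nb d := tw_nb h.t h.dq (low_ne_tw h.dl (tw_of76' h.t))
  have a1 : q ∈ G.Co B := Co_of hB hqR (by rw [hq0]; exact notMem_empty _)
  have a2 : p ∈ G.Co B := Co_of hB hp.1 (by rw [hp.2, hq0]; exact notMem_empty _)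
  have b1 : q ∈ G.pO B d := mem_inter.2 ⟨hdq, a1⟩
  have b2 : p ∈ G.pO B d := mem_inter.2 ⟨hdp, a2⟩
  refine ⟨?_, b1, b2⟩
  have h2 := e2_86 hG.g5 (ne_of_nb5 e1) h.lR hL.lR h.I1 hL.I1
  have h3 : (G.nb l ∪ G.nb d) ∩ G.Co B ⊆ G.pO B d := by
    intro u hu
    rw [mem_inter, mem_union] at hu
    obtain ⟨hu1 | hu1, hu2⟩ := hu
    · have : u ∈ G.pO B l := mem_inter.2 ⟨hu1, hu2⟩
      rw [h.out, mem_insert, mem_singleton] at this
      rcases this with rfl | rfl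
      · exact b1
      · exact b2
    · exact mem_inter.2 ⟨hu1, hu2⟩
  have h4 := card_le_card h3
  by_contra hne
  have hr4 : 4 ≤ (G.pO B d).card := by omega
  have c1 := (G.stCh5_28).low1 h9 Fa hr d hL.lR hL.low B hL.I1
  have c2 := ff_low h9 (hr.frag B hB) hL.low h.low e5
  have c3 : G.s5 B d = 0 := s5_zero fun v hv => by
    have f1 := S0_card hv
    have f2 := six_low hL.low B
    rw [pX, pT] at f1
    have f3 : 4 ≤ (G.nb d ∩ G.Co B).card := hr4
    omega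
  have c4 := s5_nonneg (G := G) (G.Co B) d
  have c5 : G.fg5 Fa d = ff G B d := by rw [fg_eq, hL.I1, sum_singleton]
  have c6 : 0 < (G.NF Fa d).card := by
    refine card_pos.2 ⟨l, ?_⟩
    classical
    rw [NF, mem_filter]
    exact ⟨mem_nR76.2 ⟨G.sym _ _ e1, h.lR⟩, Or.inl h.low⟩
  have c7 : (1 : ℤ) ≤ ((G.NF Fa d).card : ℤ) := by exact_mod_cast c6
  have c8 : (4 : ℤ) ≤ (G.d d (G.Co B) : ℤ) := by exact_mod_cast hr4
  have c9 : (0 : ℤ) ≤ ((G.NP Fa d).card : ℤ) := by positivity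
  linarith

/-! ### type `S0` -/

theorem S_nb (hG : G.Gen6 Fa) {B : Finset V} {l v q p y : V} (h : G.S0s Fa B l v q p y)
    (hq0 : G.I Fa q = ∅) (hqR : q ∈ R Fa) :
    ∃ b b', b ∈ B ∧ b' ∈ B ∧ G.nb l = {b, b', v, q, p, y} ∧ G.pX B l = {b, b'} ∧
      [b, b', l, q, p].Nodup ∧ (∀ u ∈ [b, b', l, q, p], u ∈ G.nb v) ∧ v ∈ G.N B ∧
      G.Tw b b' ∧ v ∈ G.nb l := by
  have hr := hG.g5.reg
  obtain ⟨hB, hlB⟩ := L1.mem h.toL1
  obtain ⟨-, hl, hv, hT, ⟨b, b', ht, hX, hbv⟩, -⟩ := h.s0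
  have hb : b ∈ G.pX B l := by rw [hX]; simp
  have hb' : b' ∈ G.pX B l := by rw [hX]; simp
  have hvT : v ∈ G.pT B l := by rw [hT]; simp
  have hbB := (mem_inter.1 hb).2
  have hbB' := (mem_inter.1 hb').2
  have hvN := (mem_inter.1 hvT).2
  have hvR : v ∈ R Fa := N_R hr hB hvN
  have hp := twI88 hr hqR h.t
  have hqO : q ∈ G.pO B l := by rw [h.out]; simp
  have hpO : p ∈ G.pO B l := by rw [h.out]; simp
  have hql := (mem_inter.1 hqO).1
  have hvq : q ∈ G.nb v := G.sym _ _ (G.sym _ _ h.vq)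
  have hvp : p ∈ G.nb v := tw_nb h.t hvq (low_ne_tw hv (tw_of76' h.t))
  have hvb' : b' ∈ G.nb v := tw_nb ht hbv (low_ne_tw hv (tw_of76' ht))
  refine ⟨b, b', hbB, hbB', ?_, hX, ?_, ?_, hvN, ht, (mem_inter.1 hvT).1⟩
  · ext u
    constructor
    · intro hu
      by_cases h1 : u ∈ B
      · have : u ∈ G.pX B l := mem_inter.2 ⟨hu, h1⟩
        rw [hX, mem_insert, mem_singleton] at this
        rcases this with rfl | rfl <;> simp
      by_cases h2 : u ∈ G.N B
      · have : u ∈ G.pT B l := mem_inter.2 ⟨hu, h2⟩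
        rw [hT, mem_singleton] at this
        rw [this]
        simp
      · have : u ∈ G.pO B l := mem_inter.2 ⟨hu, mem_Co76.2 ⟨h1, h2⟩⟩
        rw [h.out, mem_insert, mem_insert, mem_singleton] at this
        rcases this with rfl | rfl | rfl <;> simp
    · intro hu
      simp only [mem_insert, mem_singleton] at hu
      rcases hu with rfl | rfl | rfl | rfl | rfl | rfl
      · exact (mem_inter.1 hb).1
      · exact (mem_inter.1 hb').1
      · exact (mem_inter.1 hvT).1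
      · exact hql
      · exact (mem_inter.1 hpO).1
      · have : u ∈ G.pO B l := by rw [h.out]; simp
        exact (mem_inter.1 this).1
  · have n1 : b ≠ b' := ne_of_nb5 ht.1
    have n2 : b ≠ l := ne_of_R hB hbB h.lR
    have n3 : b ≠ q := ne_of_R hB hbB hqR
    have n4 : b ≠ p := ne_of_R hB hbB hp.1
    have n5 : b' ≠ l := ne_of_R hB hbB' h.lR
    have n6 : b' ≠ q := ne_of_R hB hbB' hqR
    have n7 : b' ≠ p := ne_of_R hB hbB' hp.1
    have n8 : l ≠ q := low_ne_tw hl (tw_of76 h.t)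
    have n9 : l ≠ p := low_ne_tw hl (tw_of76' h.t)
    have n10 : q ≠ p := ne_of_nb5 h.t.1
    simp [n1, n2, n3, n4, n5, n6, n7, n8, n9, n10]
  · intro u hu
    simp only [List.mem_cons, List.not_mem_nil, or_false] at hu
    rcases hu with rfl | rfl | rfl | rfl | rfl
    · exact hbv
    · exact hvb'
    · exact G.sym _ _ (mem_inter.1 hvT).1
    · exact hvq
    · exact hvp

end C7b88

end CG

end Pool.Agent.Lib.MP_e95c01_co.N
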