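import Pool.Agent.Lib.MP_e95c01_co.X.C7b1_88

/-!
# `λ = 3`, thick torsos: C7b, facts about the claimants (helper88)
-/

namespace Pool.Agent.Lib.MP_e95c01_co.N

open Finset

variable {V : Type} [Fintype V] [DecidableEq V]

namespace CG

namespace C7b88

variable {G : CG V} {Fa : Finset (Finset V)}

open K28

theorem Cl.lowz {q z c : V} (h : Cl G Fa q z c) : G.Low z := by
  cases h with
  | A h1 h2 h3 => exact h1.low
  | E h1 h2 h3 => exact h1.low
  | S h1 h2 h3 => exact h1.low

theorem Cl.lowc {q z c : V} (h : Cl G Fa q z c) : G.Low c := by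
  cases h with
  | A h1 h2 h3 => exact h1.low'
  | E h1 h2 h3 => exact h1.dl
  | S h1 h2 h3 => exact h1.s0.2.2.1

theorem Cl.zR {q z c : V} (h : Cl G Fa q z c) : z ∈ R Fa := by
  cases h with
  | A h1 h2 h3 => exact h1.lR
  | E h1 h2 h3 => exact h1.lR
  | S h1 h2 h3 => exact h1.lR

theorem Cl.zc {q z c : V} (h : Cl G Fa q z c) : c ∈ G.nb z := by
  cases h with
  | A h1 h2 h3 => rw [h1.nb]; simp
  | E h1 h2 h3 => exact (E_nb h1).1
  | S h1 h2 h3 =>
    have := h1.s0.2.2.2.1
    exact (mem_inter.1 (this.symm ▸ mem_singleton_self c : c ∈ G.pT _ z)).1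

theorem Cl.cq (hG : G.Gen6 Fa) {q z c : V} (h : Cl G Fa q z c) : c ∈ G.nb q := by
  cases h with
  | A h1 h2 h3 => exact A_nbq hG h1 h2
  | E h1 h2 h3 => exact G.sym _ _ h1.dq
  | S h1 h2 h3 => exact G.sym _ _ (G.sym _ _ (G.sym _ _ h1.vq))

/-- the twins near `q` are not adjacent to `z`, `c` -/
theorem Cl.nopair (hG : G.Gen6 Fa) {q z c : V} (hqR : q ∈ R Fa) (hq0 : G.I Fa q = ∅)
    (h : Cl G Fa q z c) {e f : V} (he : G.Tw e f) (heq : e ∈ G.nb q) (hn : ¬ G.Tw q e) :
    e ∉ G.nb z ∧ e ∉ G.nb c := by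
  have h9 := hG.g5.n9
  have hr := hG.g5.reg
  have heR : e ∈ R Fa := nb_R76 hqR hq0 heq
  have hf := twI88 hr heR he
  have hef : e ≠ f := ne_of_nb5 he.1
  have hqf : q ≠ f := by
    rintro rfl
    exact hn (tw_symm76 he)
  have hqe : q ≠ e := ne_of_nb5 heq
  have key : ∀ {p : V}, G.Tw q p → e ≠ p ∧ f ≠ p := by
    intro p hp
    refine ⟨fun e1 => hn (by rw [e1]; exact hp), fun e1 => ?_⟩
    have : q = e := (stTwHL_5 G).uniq h9 _ _ _ (tw_symm76 hp) (by rw [← e1]; exact tw_symm76 he)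
    exact hqe this
  cases h with
  | A h1 h2 h3 =>
    rename_i p q' p' x
    obtain ⟨k1, k2⟩ := key h1.t
    have hnp := A_np hG h1 h2
    have hfq : f ∈ G.nb q := tw_nb he heq hqf
    have ez : ∀ w, w ∈ G.nb q → w ≠ q' ∧ w ≠ p' := by
      intro w hw
      exact ⟨fun e1 => h2 (by rw [← e1]; exact hw), fun e1 => hnp (by rw [← e1]; exact hw)⟩
    have e1 := ez e heq
    have e2 := ez f hfq
    refine ⟨fun h4 => ?_, fun h4 => ?_⟩
    · rw [h1.nb] at h4
      simp only [mem_insert, mem_singleton] at h4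
      rcases h4 with rfl | rfl | rfl | rfl | rfl | rfl
      · exact tw_not_low76 (tw_of76 he) h1.low'
      · exact hqe rfl
      · exact k1 rfl
      · exact e1.1 rfl
      · exact e1.2 rfl
      · exact h1.hx.1.2 (tw_of76 he)
    · obtain ⟨a1, a2⟩ := A_nb hG h1 h2
      have h5 : f ∈ G.nb c := tw_nb he h4 (low_ne_tw h1.low' (tw_of76' he))
      have hze : z ≠ e := low_ne_tw h1.low (tw_of76 he)
      have hzf : z ≠ f := low_ne_tw h1.low (tw_of76' he)
      have := nodup_le (S := G.nb c) (l := [z, q, p, q', p', e, f]) (by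
        simp only [List.nodup_cons, List.mem_cons, List.not_mem_nil, or_false, not_or,
          not_false_eq_true, List.nodup_nil, and_true] at a1 ⊢
        obtain ⟨⟨b1, b2, b3, b4⟩, ⟨b5, b6, b7⟩, ⟨b8, b9⟩, b10⟩ := a1
        exact ⟨⟨b1, b2, b3, b4, hze, hzf⟩, ⟨b5, b6, b7, hqe, hqf⟩, ⟨b8, b9, k1.symm, k2.symm⟩,
          ⟨b10, e1.1.symm, e2.1.symm⟩, ⟨e1.2.symm, e2.2.symm⟩, hef⟩) (by
        intro u hu
        simp only [List.mem_cons, List.not_mem_nil, or_false] at hu a2
        rcases hu with hu | hu | hu | hu | hu | hu | hu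
        · exact a2 u (by simp [hu])
        · exact a2 u (by simp [hu])
        · exact a2 u (by simp [hu])
        · exact a2 u (by simp [hu])
        · exact a2 u (by simp [hu])
        · rw [hu]; exact h4
        · rw [hu]; exact h5)
      have h6 : (G.nb c).card = 6 := h1.low'
      simp only [List.length_cons, List.length_nil] at this
      omega
  | E h1 h2 h3 =>
    rename_i B p
    obtain ⟨k1, k2⟩ := key h1.t
    obtain ⟨hB, hlB⟩ := L1.mem h1.toL1
    have hL := E_I hG h1 hq0 hqR h3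
    obtain ⟨o1, o2, o3⟩ := E_out hG h1 hq0 hqR h3
    obtain ⟨e1, e2, e3, e4, e5⟩ := E_nb h1
    refine ⟨fun h4 => ?_, fun h4 => ?_⟩
    · have h5 : e ∈ G.nR Fa z := mem_nR76.2 ⟨h4, heR⟩
      classical
      by_cases hk : 2 ≤ (G.I Fa e).card
      · have h6 : e ∈ G.NF Fa z := by
          rw [NF, mem_filter]
          exact ⟨h5, Or.inr (Or.inl hk)⟩
        rw [h1.nf, mem_singleton] at h6
        rw [h6] at he
        exact tw_not_low76 (tw_of76 he) h1.dl
      · by_cases hm : G.m Fa e z = 0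
        · have h7 : B ∉ G.I Fa e := by
            intro h7
            rw [m, card_eq_zero, h1.I1] at hm
            have : B ∈ G.I Fa e ∩ {B} := mem_inter.2 ⟨h7, mem_singleton_self B⟩
            rw [hm] at this
            exact notMem_empty _ this
          have h8 : e ∈ G.pO B z := mem_inter.2 ⟨h4, Co_of hB heR h7⟩
          rw [h1.out, mem_insert, mem_singleton] at h8
          rcases h8 with h8 | h8
          · exact hqe h8.symm
          · exact k1 h8
        · have h6 : e ∈ G.NP Fa z := by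
            rw [NP, mem_filter]
            exact ⟨h5, tw_of76 he, by omega, hm⟩
          rw [h1.np] at h6
          exact notMem_empty _ h6
    · have h5 : f ∈ G.nb c := tw_nb he h4 (low_ne_tw h1.dl (tw_of76' he))
      have h6 := six_low hL.low B
      have hqp : q ≠ p := ne_of_nb5 h1.t.1
      by_cases h7 : B ∈ G.I Fa e
      · have t1 : e ∈ G.nb c ∩ G.N B := mem_inter.2 ⟨h4, (mem_I76.1 h7).2⟩
        have t2 : f ∈ G.nb c ∩ G.N B := mem_inter.2 ⟨h5, (mem_I76.1 (hf.2.symm ▸ h7 :
          B ∈ G.I Fa f)).2⟩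
        have t3 : z ∈ G.nb c ∩ G.N B := e5
        have t4 := nodup_le (S := G.nb c ∩ G.N B) (l := [e, f, z]) (by
          simp [hef, (low_ne_tw h1.low (tw_of76 he)).symm,
            (low_ne_tw h1.low (tw_of76' he)).symm]) (by
          intro u hu
          simp only [List.mem_cons, List.not_mem_nil, or_false] at hu
          rcases hu with rfl | rfl | rfl
          exacts [t1, t2, t3])
        have t5 : 1 ≤ (G.nb c ∩ B).card := by
          obtain ⟨b, hb, hbc⟩ := hidden e2
          exact card_pos.2 ⟨b, mem_inter.2 ⟨hbc, hb⟩⟩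
        have t6 : (G.nb c ∩ G.Co B).card = 3 := o1
        simp only [List.length_cons, List.length_nil] at t4
        omega
      · have t1 : e ∈ G.pO B c := mem_inter.2 ⟨h4, Co_of hB heR h7⟩
        have t2 : f ∈ G.pO B c := mem_inter.2 ⟨h5, Co_of hB hf.1 (by rw [hf.2]; exact h7)⟩
        have t4 := nodup_le (S := G.pO B c) (l := [e, f, q, p]) (by
          simp [hef, hqe.symm, hqf.symm, k1, k2, hqp]) (by
          intro u hu
          simp only [List.mem_cons, List.not_mem_nil, or_false] at hu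
          rcases hu with rfl | rfl | rfl | rfl
          exacts [t1, t2, o2, o3])
        simp only [List.length_cons, List.length_nil] at t4
        omega
  | S h1 h2 h3 =>
    rename_i B p y
    obtain ⟨k1, k2⟩ := key h1.t
    obtain ⟨hB, hlB⟩ := L1.mem h1.toL1
    obtain ⟨b, b', hb, hb', hnb, hX, a1, a2, hvN, ht, hvz⟩ := S_nb hG h1 hq0 hqR
    have hbe : ∀ {u : V}, u ∈ R Fa → b ≠ u ∧ b' ≠ u := fun hu =>
      ⟨ne_of_R hB hb hu, ne_of_R hB hb' hu⟩
    refine ⟨fun h4 => ?_, fun h4 => ?_⟩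
    · rw [hnb] at h4
      simp only [mem_insert, mem_singleton] at h4
      rcases h4 with h4 | h4 | h4 | h4 | h4 | h4
      · exact (hbe heR).1 h4.symm
      · exact (hbe heR).2 h4.symm
      · rw [h4] at he
        exact tw_not_low76 (tw_of76 he) h1.s0.2.2.1
      · exact hqe h4.symm
      · exact k1 h4
      · rw [h4] at he
        exact h1.hy.1.2 (tw_of76 he)
    · have h5 : f ∈ G.nb c := tw_nb he h4 (low_ne_tw h1.s0.2.2.1 (tw_of76' he))
      have hze : z ≠ e := low_ne_tw h1.low (tw_of76 he)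
      have hzf : z ≠ f := low_ne_tw h1.low (tw_of76' he)
      have := nodup_le (S := G.nb c) (l := [b, b', z, q, p, e, f]) (by
        simp only [List.nodup_cons, List.mem_cons, List.not_mem_nil, or_false, not_or,
          not_false_eq_true, List.nodup_nil, and_true] at a1 ⊢
        obtain ⟨⟨b1, b2, b3, b4⟩, ⟨b5, b6, b7⟩, ⟨b8, b9⟩, b10⟩ := a1
        exact ⟨⟨b1, b2, b3, b4, (hbe heR).1, (hbe hf.1).1⟩,
          ⟨b5, b6, b7, (hbe heR).2, (hbe hf.1).2⟩, ⟨b8, b9, hze, hzf⟩,
          ⟨b10, hqe, hqf⟩, ⟨k1.symm, k2.symm⟩, hef⟩) (by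
        intro u hu
        simp only [List.mem_cons, List.not_mem_nil, or_false] at hu a2
        rcases hu with hu | hu | hu | hu | hu | hu | hu
        · exact a2 u (by simp [hu])
        · exact a2 u (by simp [hu])
        · exact a2 u (by simp [hu])
        · exact a2 u (by simp [hu])
        · exact a2 u (by simp [hu])
        · rw [hu]; exact h4
        · rw [hu]; exact h5)
      have h6 : (G.nb c).card = 6 := h1.s0.2.2.1
      simp only [List.length_cons, List.length_nil] at this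
      omega

/-- an `S0-` vertex whose mate has another visible low neighbour `z'`: the mate is in `N B` only
and `z'` is not in `N B` -/
theorem S_other (hG : G.Gen6 Fa) {B : Finset V} {z c q p y z' : V}
    (h : G.S0s Fa B z c q p y) (hz : G.ch5 Fa z < 0)
    (hq0 : G.I Fa q = ∅) (hqR : q ∈ R Fa) (hz' : z' ∈ R Fa) (hl' : G.Low z') (hn : z' ≠ z)
    (hc : z' ∈ G.nb c) : G.I Fa c = {B} ∧ z' ∉ G.N B := by
  have h9 := hG.g5.n9
  have hr := hG.g5.reg
  obtain ⟨hB, hlB⟩ := L1.mem h.toL1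
  obtain ⟨b, b', hb, hb', hnb, hX, a1, a2, hvN, ht, hvz⟩ := S_nb hG h hq0 hqR
  have hcl : G.Low c := h.s0.2.2.1
  have hcR : c ∈ R Fa := N_R hr hB hvN
  have hp := twI88 hr hqR h.t
  have hq : G.IsTw q := tw_of76 h.t
  have hlist : ∀ u ∈ G.nb c, u = b ∨ u = b' ∨ u = z ∨ u = q ∨ u = p ∨ u = z' := by
    intro u hu
    by_contra hcon
    simp only [not_or] at hcon
    obtain ⟨c1, c2, c3, c4, c5, c6⟩ := hcon
    have := nodup_le (S := G.nb c) (l := [b, b', z, q, p, z', u]) (by
      simp only [List.nodup_cons, List.mem_cons, List.not_mem_nil, or_false, not_or,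
        not_false_eq_true, List.nodup_nil, and_true] at a1 ⊢
      obtain ⟨⟨b1, b2, b3, b4⟩, ⟨b5, b6, b7⟩, ⟨b8, b9⟩, b10⟩ := a1
      exact ⟨⟨b1, b2, b3, b4, ne_of_R hB hb hz', Ne.symm c1⟩,
        ⟨b5, b6, b7, ne_of_R hB hb' hz', Ne.symm c2⟩, ⟨b8, b9, hn.symm, Ne.symm c3⟩,
        ⟨b10, (low_ne_tw hl' hq).symm, Ne.symm c4⟩,
        ⟨(low_ne_tw hl' (tw_of76' h.t)).symm, Ne.symm c5⟩, Ne.symm c6⟩) (by
      intro w hw
      simp only [List.mem_cons, List.not_mem_nil, or_false] at hw a2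
      rcases hw with hw | hw | hw | hw | hw | hw | hw
      · exact a2 w (by simp [hw])
      · exact a2 w (by simp [hw])
      · exact a2 w (by simp [hw])
      · exact a2 w (by simp [hw])
      · exact a2 w (by simp [hw])
      · rw [hw]; exact hc
      · rw [hw]; exact hu)
    have h6 : (G.nb c).card = 6 := hcl
    simp only [List.length_cons, List.length_nil] at this
    omega
  have hvis : ∀ {C : Finset V}, C ∈ Fa → ∀ {u : V}, u ∈ G.nb c → u ∈ C → u = b ∨ u = b' := by
    intro C hC u hu huC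
    have hRn : ∀ w ∈ R Fa, u ≠ w := fun w hw => ne_of_R hC huC hw
    rcases hlist u hu with e | e | e | e | e | e
    · exact Or.inl e
    · exact Or.inr e
    · exact absurd e (hRn _ h.lR)
    · exact absurd e (hRn _ hqR)
    · exact absurd e (hRn _ hp.1)
    · exact absurd e (hRn _ hz')
  have hI : G.I Fa c = {B} := by
    rw [eq_singleton_iff_unique_mem]
    refine ⟨mem_I76.2 ⟨hB, hvN⟩, fun C hC => ?_⟩
    obtain ⟨hC1, hC2⟩ := mem_I76.1 hC
    obtain ⟨u, hu, huc⟩ := hidden hC2
    have huB : u ∈ B := by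
      rcases hvis hC1 huc hu with e | e
      · rw [e]; exact hb
      · rw [e]; exact hb'
    by_contra hne
    exact disjoint_left.1 (hr.dis C hC1 B hB hne).1 hu huB
  refine ⟨hI, fun hzN => ?_⟩
  have hXc : G.pX B c = G.pX B z := by
    rw [hX]
    ext u
    rw [pX, mem_inter, mem_insert, mem_singleton]
    constructor
    · rintro ⟨h1, h2⟩
      exact hvis hB h1 h2
    · rintro (rfl | rfl)
      · exact ⟨a2 _ (by simp), hb⟩
      · exact ⟨a2 _ (by simp), hb'⟩
  have hzc : z ∈ G.nb c := G.sym _ _ hvz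
  have h4 : 4 ≤ (G.nb z ∩ G.nb c).card := by
    have := nodup_le (S := G.nb z ∩ G.nb c) (l := [b, b', q, p]) (by
      simp only [List.nodup_cons, List.mem_cons, List.not_mem_nil, or_false, not_or,
        not_false_eq_true, List.nodup_nil, and_true] at a1 ⊢
      obtain ⟨⟨b1, b2, b3, b4⟩, ⟨b5, b6, b7⟩, ⟨b8, b9⟩, b10⟩ := a1
      exact ⟨⟨b1, b3, b4⟩, ⟨b6, b7⟩, b10⟩) (by
      intro w hw
      simp only [List.mem_cons, List.not_mem_nil, or_false] at hw
      rw [mem_inter, hnb]
      rcases hw with rfl | rfl | rfl | rfl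
      · exact ⟨by simp, a2 _ (by simp)⟩
      · exact ⟨by simp, a2 _ (by simp)⟩
      · exact ⟨by simp, a2 _ (by simp)⟩
      · exact ⟨by simp, a2 _ (by simp)⟩)
    simpa using this
  have h4' := ll_le86 h9 h.low hcl hvz
  obtain ⟨t, u, hLL⟩ := ll_four86 h.low hcl hvz (by omega)
  have hLLs : G.LLs B z c := ⟨⟨t, u, hLL⟩, hXc⟩
  have hs5 : G.s5 B z = 0 := by
    refine s5_LLs' fun v hv => ?_
    have e1 : v = c := by
      have := hv.2.2.2.1
      rw [h.s0.2.2.2.1] at this
      exact (singleton_injective this).symm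
    subst e1
    refine ⟨hLLs, fun e2 => ?_⟩
    have : z' ∈ G.pT B v := mem_inter.2 ⟨hc, hzN⟩
    rw [e2, mem_singleton] at this
    exact hn this
  have hcT : c ∈ G.pT B z := by rw [h.s0.2.2.2.1]; simp
  have c1 := (G.stCh5_28).low1 h9 Fa hr z h.lR h.low B h.I1
  have c2 := ff_low h9 (hr.frag B hB) h.low hcl hcT
  have c4 := s5_nonneg (G := G) (G.Co B) z
  have c5 : G.fg5 Fa z = ff G B z := by rw [fg_eq, h.I1, sum_singleton]
  have c6 : 0 < (G.NF Fa z).card := by
    refine card_pos.2 ⟨c, ?_⟩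
    classical
    rw [NF, mem_filter]
    exact ⟨mem_nR76.2 ⟨hvz, hcR⟩, Or.inl hcl⟩
  have c7 : (1 : ℤ) ≤ ((G.NF Fa z).card : ℤ) := by exact_mod_cast c6
  have c8 : G.d z (G.Co B) = 3 := by
    have e1 : (G.nb z ∩ G.Co B).card = 3 := by
      have e2 := S0_card h.s0
      have e3 := six_low h.low B
      rw [pX, pT] at e2
      omega
    exact e1
  have c9 : (0 : ℤ) ≤ ((G.NP Fa z).card : ℤ) := by positivity
  rw [c8] at c1
  push_cast at c1
  linarith

end C7b88

end CG

end Pool.Agent.Lib.MP_e95c01_co.N
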