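import Pool.Agent.Lib.MP_e95c01_co.X.C7b2_88

/-!
# `λ = 3`, thick torsos: C7b, the number of claims (helper88)
-/

namespace Pool.Agent.Lib.MP_e95c01_co.N

open Finset

variable {V : Type} [Fintype V] [DecidableEq V]

namespace CG

namespace C7b88

variable {G : CG V} {Fa : Finset (Finset V)}

open K28

/-- the mate of `EPS` is in `N B` only, the mate of `S0-` is in `N B` -/
theorem Cl.I_ne (hG : G.Gen6 Fa) {B : Finset V} {z c : V}
    (h : c ∈ G.N B) (hB : B ∈ Fa) : G.I Fa c ≠ ∅ := by
  intro h1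
  have : B ∈ G.I Fa c := mem_I76.2 ⟨hB, h⟩
  rw [h1] at this
  exact notMem_empty _ this

theorem E_mateN {B : Finset V} {l d q p : V} (h : G.Eps Fa B l d q p) : d ∈ G.N B := (E_nb h).2.1

theorem S_mateN {B : Finset V} {l v q p y : V} (h : G.S0s Fa B l v q p y) : v ∈ G.N B := by
  have := h.s0.2.2.2.1
  exact (mem_inter.1 (this.symm ▸ mem_singleton_self v : v ∈ G.pT B l)).2

theorem S_mate_nb {B : Finset V} {l v q p y : V} (h : G.S0s Fa B l v q p y) : v ∈ G.nb l := by
  have := h.s0.2.2.2.1
  exact (mem_inter.1 (this.symm ▸ mem_singleton_self v : v ∈ G.pT B l)).1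

/-- different claimants have different mates -/
theorem Cl.inj (hG : G.Gen6 Fa) {q z z' c : V} (hqR : q ∈ R Fa) (hq0 : G.I Fa q = ∅)
    (h : Cl G Fa q z c) (h' : Cl G Fa q z' c) : z = z' := by
  by_contra hne
  have h9 := hG.g5.n9
  have hr := hG.g5.reg
  have key : ∀ {B : Finset V} {z z' p y : V}, G.S0s Fa B z c q p y → G.ch5 Fa z < 0 →
      Cl G Fa q z' c → z ≠ z' → False := by
    intro B z z' p y h1 h2 h3 hn
    obtain ⟨hB, hlB⟩ := L1.mem h1.toL1
    obtain ⟨k1, k2⟩ := S_other hG h1 h2 hq0 hqR h3.zR h3.lowz (fun e => hn e.symm)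
      (G.sym _ _ h3.zc)
    cases h3 with
    | A g1 g2 g3 =>
      rw [k1] at g3
      exact singleton_ne_empty _ g3
    | E g1 g2 g3 =>
      rename_i B' p'
      have e1 := E_mateN g1
      obtain ⟨hB', hlB'⟩ := L1.mem g1.toL1
      have e2 : B' ∈ G.I Fa c := mem_I76.2 ⟨hB', e1⟩
      rw [k1, mem_singleton] at e2
      rw [e2] at hlB'
      exact k2 hlB'
    | S g1 g2 g3 =>
      rename_i B' p' y'
      have e1 := S_mateN g1
      obtain ⟨hB', hlB'⟩ := L1.mem g1.toL1
      have e2 : B' ∈ G.I Fa c := mem_I76.2 ⟨hB', e1⟩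
      rw [k1, mem_singleton] at e2
      rw [e2] at hlB'
      exact k2 hlB'
  have hAI : ∀ {B : Finset V}, B ∈ Fa → c ∈ G.N B → G.I Fa c = ∅ → False := by
    intro B hB hc h1
    have : B ∈ G.I Fa c := mem_I76.2 ⟨hB, hc⟩
    rw [h1] at this
    exact notMem_empty _ this
  cases h with
  | S h1 h2 h3 => exact key h1 h2 h' hne
  | A h1 h2 h3 =>
    rename_i p q' p' x
    cases h' with
    | S g1 g2 g3 => exact hAI (L1.mem g1.toL1).1 (S_mateN g1) h3
    | E g1 g2 g3 => exact hAI (L1.mem g1.toL1).1 (E_mateN g1) h3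
    | A g1 g2 g3 =>
      rename_i p2 q2 p2' x2
      obtain rfl : p = p2 := (stTwHL_5 G).uniq h9 _ _ _ h1.t g1.t
      obtain ⟨a1, a2⟩ := A_nb hG h1 h2
      obtain ⟨b1, b2⟩ := A_nb hG g1 g2
      have hnp := A_np hG h1 h2
      -- the neighbours of `c`
      have hlist : ∀ u ∈ G.nb c, u = z ∨ u = q ∨ u = p ∨ u = q' ∨ u = p' ∨ u = z' := by
        intro u hu
        by_contra hcon
        simp only [not_or] at hcon
        obtain ⟨c1, c2, c3, c4, c5, c6⟩ := hcon
        have hzl := g1.low
        have := nodup_le (S := G.nb c) (l := [z, q, p, q', p', z', u]) (by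
          simp only [List.nodup_cons, List.mem_cons, List.not_mem_nil, or_false, not_or,
            not_false_eq_true, List.nodup_nil, and_true] at a1 ⊢
          obtain ⟨⟨f1, f2, f3, f4⟩, ⟨f5, f6, f7⟩, ⟨f8, f9⟩, f10⟩ := a1
          exact ⟨⟨f1, f2, f3, f4, hne, Ne.symm c1⟩,
            ⟨f5, f6, f7, (low_ne_tw hzl (tw_of76 h1.t)).symm, Ne.symm c2⟩,
            ⟨f8, f9, (low_ne_tw hzl (tw_of76' h1.t)).symm, Ne.symm c3⟩,
            ⟨f10, (low_ne_tw hzl (tw_of76 h1.t')).symm, Ne.symm c4⟩,
            ⟨(low_ne_tw hzl (tw_of76' h1.t')).symm, Ne.symm c5⟩, Ne.symm c6⟩) (by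
          intro w hw
          simp only [List.mem_cons, List.not_mem_nil, or_false] at hw
          rcases hw with hw | hw | hw | hw | hw | hw | hw
          · exact a2 w (by simp [hw])
          · exact a2 w (by simp [hw])
          · exact a2 w (by simp [hw])
          · exact a2 w (by simp [hw])
          · exact a2 w (by simp [hw])
          · exact b2 w (by simp [hw])
          · rw [hw]; exact hu)
        have h6 : (G.nb c).card = 6 := h1.low'
        simp only [List.length_cons, List.length_nil] at this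
        omega
      have hq2 : ∀ u, G.IsTw u → u ∈ G.nb c → u ∉ G.nb q → u ≠ q → u = q' ∨ u = p' := by
        intro u hu1 hu2 hu3 hu4
        rcases hlist u hu2 with e | e | e | e | e | e
        · exact absurd e.symm (low_ne_tw h1.low hu1)
        · exact absurd e hu4
        · exact absurd (by rw [e]; exact h1.t.1) hu3
        · exact Or.inl e
        · exact Or.inr e
        · exact absurd e.symm (low_ne_tw g1.low hu1)
      simp only [List.nodup_cons, List.mem_cons, List.not_mem_nil, or_false, not_or,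
        not_false_eq_true, List.nodup_nil, and_true] at a1 b1
      have e1 := hq2 q2 (tw_of76 g1.t') (b2 _ (by simp)) g2 (by
        obtain ⟨-, ⟨-, f6, -⟩, -⟩ := b1
        exact Ne.symm f6)
      have e2 := hq2 p2' (tw_of76' g1.t') (b2 _ (by simp)) (A_np hG g1 g2) (by
        obtain ⟨-, ⟨-, -, f7⟩, -⟩ := b1
        exact Ne.symm f7)
      -- the three lows
      have hzc := G.irr c
      have nzc : z ≠ c := ne_of_nb5 (by rw [h1.nb]; simp)
      have nzc' : z' ≠ c := ne_of_nb5 (by rw [g1.nb]; simp)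
      have hS : ({z, z', c} : Finset V).card = 3 := by
        rw [card_insert_of_notMem (by simp [hne, nzc]), card_pair nzc']
      have hcR : c ∈ R Fa := nb_R76 h1.lR h1.I0 (by rw [h1.nb]; simp)
      have h7 := E03_86 hG.g5 (by have := hG.n13; omega) hS (by
        intro u hu
        rw [mem_insert, mem_insert, mem_singleton] at hu
        rcases hu with rfl | rfl | rfl
        exacts [⟨h1.lR, h1.I0⟩, ⟨g1.lR, g1.I0⟩, ⟨hcR, h3⟩])
      have hsub : G.N {z, z', c} ⊆ {q, p, q', p', x, x2} := by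
        intro u hu
        obtain ⟨hu1, w, hw, huw⟩ := mem_N76.1 hu
        rw [mem_insert, mem_insert, mem_singleton, not_or, not_or] at hu1
        rw [mem_insert, mem_insert, mem_singleton] at hw
        rcases hw with rfl | rfl | rfl
        · rw [h1.nb] at huw
          simp only [mem_insert, mem_singleton] at huw
          rcases huw with e | e | e | e | e | e
          · exact absurd e hu1.2.2
          all_goals simp [e]
        · rw [g1.nb] at huw
          simp only [mem_insert, mem_singleton] at huw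
          rcases huw with e | e | e | e | e | e
          · exact absurd e hu1.2.2
          · simp [e]
          · simp [e]
          · rcases e1 with e1 | e1 <;> simp [e, e1]
          · rcases e2 with e2 | e2 <;> simp [e, e2]
          · simp [e]
        · rcases hlist u huw with e | e | e | e | e | e
          · exact absurd e hu1.1
          · simp [e]
          · simp [e]
          · simp [e]
          · simp [e]
          · exact absurd e hu1.2.1
      have h8 := card_le_card hsub
      have h10 := card_le_six (a := q) (b := p) (c := q') (d := p') (e := x) (f := x2)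
      omega
  | E h1 h2 h3 =>
    rename_i B p
    cases h' with
    | S g1 g2 g3 => exact key g1 g2 (Cl.E h1 h2 h3) (fun e => hne e.symm)
    | A g1 g2 g3 => exact hAI (L1.mem h1.toL1).1 (E_mateN h1) g3
    | E g1 g2 g3 =>
      rename_i B' p'
      have k1 := E_I hG h1 hq0 hqR h3
      have k2 := E_I hG g1 hq0 hqR g3
      have hBB : B' = B := by
        have := k1.I1
        rw [k2.I1] at this
        exact singleton_injective this
      subst hBB
      obtain rfl : p = p' := (stTwHL_5 G).uniq h9 _ _ _ h1.t g1.t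
      obtain ⟨o1, o2, o3⟩ := E_out hG h1 hq0 hqR h3
      have nzc : z ≠ c := ne_of_nb5 (E_nb h1).1
      have nzc' : z' ≠ c := ne_of_nb5 (E_nb g1).1
      have h4 := e3_86 hG.g5 hne nzc nzc' h1.lR g1.lR k1.lR h1.I1 g1.I1 k1.I1
      have hsub : (G.nb z ∪ G.nb z' ∪ G.nb c) ∩ G.Co B' ⊆ G.pO B' c := by
        intro u hu
        rw [mem_inter, mem_union, mem_union] at hu
        obtain ⟨(hu1 | hu1) | hu1, hu2⟩ := hu
        · have : u ∈ G.pO B' z := mem_inter.2 ⟨hu1, hu2⟩
          rw [h1.out, mem_insert, mem_singleton] at this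
          rcases this with rfl | rfl
          · exact o2
          · exact o3
        · have : u ∈ G.pO B' z' := mem_inter.2 ⟨hu1, hu2⟩
          rw [g1.out, mem_insert, mem_singleton] at this
          rcases this with rfl | rfl
          · exact o2
          · exact o3
        · exact mem_inter.2 ⟨hu1, hu2⟩
      have := card_le_card hsub
      omega

/-- only `T3` (B2), `EPS` and `S0-` ask a twin vertex in no neighbourhood -/
theorem exists_Cl (hG : G.Gen6 Fa) {q z : V} (hqR : q ∈ R Fa) (hqt : G.IsTw q)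
    (hq0 : G.I Fa q = ∅) (h : G.dn5 Fa q z ≠ 0) : ∃ c, Cl G Fa q z c := by
  classical
  have h9 := hG.g5.n9
  by_contra hno
  apply h
  rw [dn5_tw76 h9 hqt]
  have h1 : ¬ G.PD Fa z q := by
    intro h1
    cases h1 with
    | t3 g1 g2 g3 =>
      rename_i l' p q' p' x
      have hlq := lq_D0_86 hG.g5 (by have := hG.n13; omega) g1.low g1.t
        (by rw [g1.nb]; simp) ⟨g1.lR, g1.I0⟩ ⟨hqR, hq0⟩
        ⟨(twI88 hG.g5.reg hqR g1.t).1, by rw [(twI88 hG.g5.reg hqR g1.t).2, hq0]⟩
      have hqp' : q ≠ p' := by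
        intro e
        have : p = q' := (stTwHL_5 G).uniq h9 _ _ _ g1.t (by rw [e]; exact tw_symm76 g1.t')
        have h6 : (G.nb z).card = 6 := g1.low
        rw [g1.nb, ← e, this] at h6
        have e3 : ({l', q, q', q', q, x} : Finset V) = {l', q, q', x} := by
          ext u; simp; tauto
        rw [e3] at h6
        have := card_le_four (a := l') (b := q) (c := q') (d := x)
        omega
      have hp'q : p' ∈ G.nb q := tw_nb g1.t' g2 hqp'
      have := nodup_le (S := G.nb z ∩ G.nb q) (l := [p, q', p', l']) (by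
        have n1 : p ≠ q' := by
          intro e
          have e2 : q = p' := (stTwHL_5 G).uniq h9 _ _ _ (tw_symm76 g1.t)
            (by rw [e]; exact g1.t')
          exact hqp' e2
        have n2 : p ≠ p' := by
          intro e
          have e2 : q = q' := (stTwHL_5 G).uniq h9 _ _ _ (tw_symm76 g1.t)
            (by rw [e]; exact tw_symm76 g1.t')
          rw [← e2] at g2
          exact G.irr _ g2
        have n3 : p ≠ l' := (low_ne_tw g1.low' (tw_of76' g1.t)).symm
        have n4 : q' ≠ p' := ne_of_nb5 g1.t'.1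
        have n5 : q' ≠ l' := (low_ne_tw g1.low' (tw_of76 g1.t')).symm
        have n6 : p' ≠ l' := (low_ne_tw g1.low' (tw_of76' g1.t')).symm
        simp [n1, n2, n3, n4, n5, n6]) (by
        intro u hu
        simp only [List.mem_cons, List.not_mem_nil, or_false] at hu
        rw [mem_inter, g1.nb]
        rcases hu with rfl | rfl | rfl | rfl
        · exact ⟨by simp, g1.t.1⟩
        · exact ⟨by simp, g2⟩
        · exact ⟨by simp, hp'q⟩
        · exact ⟨by simp, g3⟩)
      simp only [List.length_cons, List.length_nil] at this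
      omega
    | t6 g1 g2 g3 g4 g5 =>
      rw [hq0, card_empty] at g2
      omega
    | eps g1 g2 g3 => exact hno ⟨_, Cl.E g1 g2 g3⟩
    | s0 g1 g2 g3 => exact hno ⟨_, Cl.S g1 g2 g3⟩
  have h2 : ¬ G.PF Fa z q := by
    rintro ⟨g1, g2, g3⟩
    obtain ⟨B, B', e1, e2, e3⟩ := g1.blobs
    rw [hq0] at e1
    exact singleton_ne_empty _ e1.symm
  have h3 : ¬ G.PS Fa z q := by
    intro h3
    cases h3 with
    | t3 g1 g2 g3 => exact hno ⟨_, Cl.A g1 g2 g3⟩
    | t6 g1 g2 g3 g4 g5 =>
      rw [hq0, card_empty] at g2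
      omega
  rw [if_neg h1, if_neg h2, if_neg h3]
  norm_num

/-- a vertex in no neighbourhood gets at most 1 -/
theorem dn_le_one (hG : G.Gen6 Fa) {q z : V} (hqR : q ∈ R Fa) (hqt : G.IsTw q)
    (hq0 : G.I Fa q = ∅) (hz0 : G.I Fa z = ∅) (ht : G.StC7t) (hz : z ∈ R Fa) :
    G.dn5 Fa q z ≤ 1 := by
  classical
  have h9 := hG.g5.n9
  by_cases h0 : G.dn5 Fa q z = 0
  · rw [h0]; norm_num
  obtain ⟨c, hc⟩ := exists_Cl hG hqR hqt hq0 h0
  rw [dn5_tw76 h9 hqt]
  cases hc with
  | A g1 g2 g3 =>
    rename_i p q' p' x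
    have h1 : ¬ G.PD Fa z q := by
      intro h1
      cases h1 with
      | t3 k1 k2 k3 =>
        rename_i l2 p2 q2 p2' x2
        obtain rfl : p = p2 := (stTwHL_5 G).uniq h9 _ _ _ g1.t k1.t
        have e1 : q2 ∈ G.nb z := by rw [k1.nb]; simp
        rw [g1.nb] at e1
        simp only [mem_insert, mem_singleton] at e1
        have hnp := A_np hG g1 g2
        rcases e1 with rfl | rfl | rfl | rfl | rfl | rfl
        · exact tw_not_low76 (tw_of76 k1.t') g1.low'
        · exact G.irr _ k2
        · have e3 : q = p2' := (stTwHL_5 G).uniq h9 _ _ _ (tw_symm76 g1.t) k1.t'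
          have h6 : (G.nb z).card = 6 := k1.low
          rw [k1.nb, ← e3] at h6
          have e4 : ({l2, q, q2, q2, q, x2} : Finset V) = {l2, q, q2, x2} := by
            ext u; simp; tauto
          rw [e4] at h6
          have := card_le_four (a := l2) (b := q) (c := q2) (d := x2)
          omega
        · exact g2 k2
        · exact hnp k2
        · exact g1.hx.1.2 (tw_of76 k1.t')
      | t6 k1 k2 k3 k4 k5 =>
        rw [hq0, card_empty] at k2
        omega
      | eps k1 k2 k3 =>
        rw [k1.I1] at hz0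
        exact singleton_ne_empty _ hz0
      | s0 k1 k2 k3 =>
        rw [k1.I1] at hz0
        exact singleton_ne_empty _ hz0
    have h2 : ¬ G.PF Fa z q := by
      rintro ⟨g1, g2, g3⟩
      obtain ⟨B, B', e1, e2, e3⟩ := g1.blobs
      rw [hq0] at e1
      exact singleton_ne_empty _ e1.symm
    rw [if_neg h1, if_neg h2]
    split_ifs <;> norm_num
  | E g1 g2 g3 =>
    rw [g1.I1] at hz0
    exact absurd hz0 (singleton_ne_empty _)
  | S g1 g2 g3 =>
    rw [g1.I1] at hz0
    exact absurd hz0 (singleton_ne_empty _)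

/-- a claimant and its mate -/
theorem Cl.two (hG : G.Gen6 Fa) {q z c : V} (hqR : q ∈ R Fa) (hqt : G.IsTw q)
    (hq0 : G.I Fa q = ∅) (ht : G.StC7t) (h : Cl G Fa q z c) :
    G.dn5 Fa q z + G.dn5 Fa q c ≤ 2 := by
  have hzR := h.zR
  cases h with
  | A h1 h2 h3 =>
    have e1 := dn_le_one hG hqR hqt hq0 h1.I0 ht h1.lR
    have e2 := dn_le_one hG hqR hqt hq0 h3 ht (nb_R76 h1.lR h1.I0 (by rw [h1.nb]; simp))
    linarith
  | E h1 h2 h3 =>
    have e1 := ht.one Fa hG q hqR hqt z hzR
    have e2 := ht.lq Fa hG q hqR hqt _ _ _ _ h1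
    linarith
  | S h1 h2 h3 => exact ht.lv Fa hG q hqR hqt _ _ _ _ _ h1

/-- double counting -/
theorem count {A : Finset V} {f : V → ℤ} {M : V → V} (h0 : ∀ z ∈ A, 0 ≤ f z)
    (h2 : ∀ z ∈ A, f z ≤ 2) (hM : ∀ z ∈ A, f z ≠ 0 → M z ∈ A)
    (hs : ∀ z ∈ A, f z ≠ 0 → f z + f (M z) ≤ 2)
    (hi : ∀ z ∈ A, f z ≠ 0 → ∀ z' ∈ A, f z' ≠ 0 → M z = M z' → z = z') :
    ∑ z ∈ A, f z ≤ A.card := by
  classical
  set C := A.filter fun z => f z ≠ 0 with hC
  have hCA : C ⊆ A := filter_subset _ _
  have e1 : ∑ z ∈ A, f z = ∑ z ∈ C, f z := (sum_filter_ne_zero A).symm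
  have hinj : Set.InjOn M (C : Set V) := by
    intro z hz z' hz' he
    have hz1 := mem_filter.1 (mem_coe.1 hz)
    have hz2 := mem_filter.1 (mem_coe.1 hz')
    exact hi z hz1.1 hz1.2 z' hz2.1 hz2.2 he
  have hMC : C.image M ⊆ A := by
    intro u hu
    obtain ⟨z, hz, rfl⟩ := mem_image.1 hu
    have hz1 := mem_filter.1 hz
    exact hM z hz1.1 hz1.2
  have hcard : (C.image M).card = C.card := card_image_of_injOn hinj
  have e2 : ∑ w ∈ C.image M, f w = ∑ z ∈ C, f (M z) := sum_image hinj
  have e3 : ∑ w ∈ A \ C.image M, f w ≤ ∑ w ∈ A \ C.image M, (2 : ℤ) :=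
    sum_le_sum fun w hw => h2 w (mem_sdiff.1 hw).1
  have e4 : ∑ w ∈ A \ C.image M, f w + ∑ w ∈ C.image M, f w = ∑ w ∈ A, f w :=
    sum_sdiff hMC
  rw [sum_const, nsmul_eq_mul, card_sdiff_of_subset hMC, hcard] at e3
  have e5 : C.card ≤ A.card := card_le_card hCA
  rw [Nat.cast_sub e5] at e3
  have e6 : ∑ z ∈ C, f z + ∑ z ∈ C, f (M z) ≤ 2 * (C.card : ℤ) := by
    rw [← sum_add_distrib]
    have : ∑ z ∈ C, (f z + f (M z)) ≤ ∑ z ∈ C, (2 : ℤ) := sum_le_sum fun z hz => by
      have hz1 := mem_filter.1 hz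
      exact hs z hz1.1 hz1.2
    rw [sum_const, nsmul_eq_mul] at this
    linarith
  linarith

end C7b88

end CG

end Pool.Agent.Lib.MP_e95c01_co.N
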