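import Pool.Agent.Lib.MP_e95c01_co.X.C8d_50
import Pool.Agent.Lib.MP_e95c01_co.X.M1_86

/-!
# `λ = 3`, thick torsos: two poor pairs at a hub with one full payer (C8e)
-/

namespace Pool.Agent.Lib.MP_e95c01_co.N

open Finset

variable {V : Type} [Fintype V] [DecidableEq V]

namespace CG

variable {G : CG V} {Fa : Finset (Finset V)}

theorem Full.nR50 {e x : V} (h : G.Full Fa e x) : e ∈ G.nR Fa x := by
  rcases h with h | ⟨f, -, h, -⟩
  · exact (mem_HPl50.1 (mem_FuL50.1 h).1).1
  · exact (mem_HPt50.1 (mem_FuT50.1 h).1).1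

theorem Full.noPQ50 {e x : V} (h : G.Full Fa e x) : ¬ G.PQ Fa e x := by
  intro h5
  rcases h with h6 | ⟨f, h6, h7, h8⟩
  · exact tw_not_low76 h5.2.1 (mem_HPl50.1 (mem_FuL50.1 h6).1).2.1
  · exact (mem_FuT50.1 h7).2 h5

theorem PQ.nb50 {q x : V} (h : G.PQ Fa q x) : x ∈ G.nb q :=
  (mem_nR76.1 (mem_NH50.1 h.2.2.2.2).1).1

/-- `HL x b e` is impossible -/
theorem Sing.noHL50 (hG : G.Gen6 Fa) {x e b : V} (h : G.Sing Fa x e) : ¬ G.HL x b e := by
  intro hb
  rcases h.low b hb.2.2.1 hb.2.1 with h1 | h1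
  · subst h1
    exact (HL_bt76 hb).2 rfl
  · exact (stTwHL_5 G).nomut hG.g5.n9 _ _ _ _ _ hb h1 rfl

/-- a low neighbour of `x` that is adjacent to `e` does not exist -/
theorem Sing.low50 {x e d : V} (h : G.Sing Fa x e) (hd : d ∈ G.nb x) (hl : G.Low d)
    (hde : d ∈ G.nb e) : False := by
  rcases h.low d hd hl with h1 | h1
  · subst h1
    exact G.irr _ hde
  · exact (HL_bt76 h1).1 hde

omit [Fintype V] in
theorem six_of50 {S T : Finset V} (h : S.card = 6) (hT : T ⊆ S) (h5 : T.card = 5) :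
    ∃ w, w ∉ T ∧ S = insert w T := by
  have h1 : (S \ T).card = 1 := by
    rw [card_sdiff_of_subset hT]
    omega
  obtain ⟨w, hw⟩ := card_eq_one.1 h1
  have h2 : w ∈ S \ T := hw.symm ▸ mem_singleton_self w
  rw [mem_sdiff] at h2
  refine ⟨w, h2.2, ?_⟩
  ext y
  rw [mem_insert]
  constructor
  · intro hy
    by_cases hyT : y ∈ T
    · exact Or.inr hyT
    · left
      have h3 : y ∈ S \ T := mem_sdiff.2 ⟨hy, hyT⟩
      rw [hw, mem_singleton] at h3
      exact h3
  · rintro (rfl | hy)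
    · exact h2.1
    · exact hT hy

omit [Fintype V] in
theorem card5_50 {a b c d e : V} (h1 : a ≠ b) (h2 : a ≠ c) (h3 : a ≠ d) (h4 : a ≠ e)
    (h5 : b ≠ c) (h6 : b ≠ d) (h7 : b ≠ e) (h8 : c ≠ d) (h9 : c ≠ e) (h10 : d ≠ e) :
    ({a, b, c, d, e} : Finset V).card = 5 := by
  rw [card_insert_of_notMem, card_insert_of_notMem, card_insert_of_notMem,
    card_insert_of_notMem, card_singleton]
  · simpa using h10
  · simpa using ⟨h8, h9⟩
  · simpa using ⟨h5, h6, h7⟩
  · simpa using ⟨h1, h2, h3, h4⟩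

/-- two poor pairs at `x` -/
structure TwoP50 (G : CG V) (Fa : Finset (Finset V)) (x e q p q' p' u : V) : Prop where
  S : G.Sing Fa x e
  t : G.Tw q p
  t' : G.Tw q' p'
  P : G.PQ Fa q x
  P' : G.PQ Fa q' x
  na : q' ∉ G.nb q
  ne : q' ≠ q
  np : q' ≠ p
  el : G.Low e
  nbe : G.nb e = {q, p, q', p', x, u}
  ux : u ≠ x

theorem TwoP50.swap {x e q p q' p' u : V} (h : TwoP50 G Fa x e q p q' p' u)
    (hG : G.Gen6 Fa) : TwoP50 G Fa x e q' p' q p u where
  S := h.S
  t := h.t'
  t' := h.t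
  P := h.P'
  P' := h.P
  na := fun h1 => h.na (G.sym _ _ h1)
  ne := h.ne.symm
  np := by
    rintro rfl
    exact h.np ((stTwHL_5 G).uniq hG.g5.n9 _ _ _ (tw_symm76 h.t') h.t)
  el := h.el
  nbe := by
    rw [h.nbe]
    ext v
    simp only [mem_insert, mem_singleton]
    tauto
  ux := h.ux

/-- the setting -/
theorem twoP_of50 (hG : G.Gen6 Fa) (hM1 : G.StM1) {x e q p q' p' : V} (hS : G.Sing Fa x e)
    (t : G.Tw q p) (t' : G.Tw q' p') (P : G.PQ Fa q x) (P' : G.PQ Fa q' x) (hne : q' ≠ q)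
    (hnp : q' ≠ p) : ∃ u, TwoP50 G Fa x e q p q' p' u := by
  have h9 := hG.g5.n9
  have hr := hG.g5.reg
  have hT := stTwHL_5 G
  have Pp := PQ_tw50 hG t P
  have Pp' := PQ_tw50 hG t' P'
  have hpp : p' ≠ p := by
    rintro rfl
    exact hne (hT.uniq h9 _ _ _ (tw_symm76 t') (tw_symm76 t))
  have hpq : p' ≠ q := by
    rintro rfl
    exact hnp (hT.uniq h9 _ _ _ (tw_symm76 t') t)
  have hex := hS.full.nR50
  have hexn := (mem_nR76.1 hex).1
  have eP := hS.full.noPQ50
  have eq : e ≠ q := by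
    rintro rfl
    exact eP P
  have ep : e ≠ p := by
    rintro rfl
    exact eP Pp
  have eq' : e ≠ q' := by
    rintro rfl
    exact eP P'
  have ep' : e ≠ p' := by
    rintro rfl
    exact eP Pp'
  have a1 := hS.adj q P
  have a2 := hS.adj p Pp
  have a3 := hS.adj q' P'
  have a4 := hS.adj p' Pp'
  have x1 := P.nb50
  have x2 := Pp.nb50
  have x3 := P'.nb50
  have x4 := Pp'.nb50
  have xe : e ≠ x := (ne_of_nb5 hexn).symm
  have hxq : x ≠ q := ne_of_nb5 (G.sym _ _ x1)
  have hxp : x ≠ p := ne_of_nb5 (G.sym _ _ x2)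
  have hxq' : x ≠ q' := ne_of_nb5 (G.sym _ _ x3)
  have hxp' : x ≠ p' := ne_of_nb5 (G.sym _ _ x4)
  have qp := ne_of_nb5 t.1
  have qp' := ne_of_nb5 t'.1
  have na : q' ∉ G.nb q := by
    intro h1
    obtain ⟨c1, c2, c3, c4, c5⟩ := tw_adjM86 h9 t t' h1 hnp
    have h2 := qq_D0_86 hG.g5 hG.n13 t t' h1 hnp ⟨P.1, P.2.2.1⟩ ⟨Pp.1, Pp.2.2.1⟩
      ⟨P'.1, P'.2.2.1⟩ ⟨Pp'.1, Pp'.2.2.1⟩
    have h3 : ({p, p', x, e} : Finset V) ⊆ G.nb q ∩ G.nb q' := by
      intro v hv
      simp only [mem_insert, mem_singleton] at hv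
      rw [mem_inter]
      rcases hv with rfl | rfl | rfl | rfl
      · exact ⟨t.1, G.sym _ _ c2⟩
      · exact ⟨c1, t'.1⟩
      · exact ⟨x1, x3⟩
      · exact ⟨a1, a3⟩
    have h4 := card_le_card h3
    rw [card_insert_of_notMem, card_insert_of_notMem, card_insert_of_notMem,
      card_singleton] at h4
    · omega
    · simpa using xe.symm
    · simpa using ⟨hxp'.symm, ep'.symm⟩
    · simpa using ⟨hpp.symm, hxp.symm, ep.symm⟩
  have el : G.Low e := by
    rcases hS.full with h1 | ⟨f, hf, -, -⟩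
    · exact (mem_HPl50.1 (mem_FuL50.1 h1).1).2.1
    · exfalso
      have heR := (mem_nR76.1 hex).2
      have h1 := hM1.cov1 Fa hG q P.1 ⟨p, t⟩ P.2.2.1 e f x hf a1
        (fun h => eP (PQ_tw50 hG h P)) hS.hub x1 (G.sym _ _ hexn)
      obtain ⟨B, hB⟩ := card_eq_one.1 h1
      have hBm : B ∈ G.I Fa e := by rw [hB]; exact mem_singleton_self _
      have h2 := hT.hid Fa hr hG.g5.big e heR ⟨f, hf⟩ B hBm
      have h3 := splitM86 hr heR
      rw [hB, sum_singleton, hf.2.1] at h3
      have hfR := (hT.twI Fa hr e heR f hf).1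
      have fq : ∀ v, v ≠ e → G.PQ Fa v x → f ≠ v := by
        rintro v hv h4 rfl
        exact eP (PQ_tw50 hG (tw_symm76 hf) h4)
      have h4 : insert f ({q, p, q', p', x} : Finset V) ⊆ G.nR Fa e := by
        intro v hv
        simp only [mem_insert, mem_singleton] at hv
        rw [mem_nR76]
        rcases hv with rfl | rfl | rfl | rfl | rfl | rfl
        · exact ⟨hf.1, hfR⟩
        · exact ⟨G.sym _ _ a1, P.1⟩
        · exact ⟨G.sym _ _ a2, Pp.1⟩
        · exact ⟨G.sym _ _ a3, P'.1⟩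
        · exact ⟨G.sym _ _ a4, Pp'.1⟩
        · exact ⟨G.sym _ _ hexn, hS.xR⟩
      have h5 := card_le_card h4
      rw [card_insert_of_notMem, card5_50 qp hne.symm hpq.symm hxq.symm hnp.symm hpp.symm
        hxp.symm qp' hxq'.symm hxp'.symm] at h5
      · omega
      · simp only [mem_insert, mem_singleton, not_or]
        exact ⟨fq q eq.symm P, fq p ep.symm Pp, fq q' eq'.symm P', fq p' ep'.symm Pp',
          fun h => hS.hub.2 (by rw [← h]; exact tw_of76' hf)⟩
  obtain ⟨u, hu, hnb⟩ := six_of50 (S := G.nb e) (T := {q, p, q', p', x}) el (by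
    intro v hv
    simp only [mem_insert, mem_singleton] at hv
    rcases hv with rfl | rfl | rfl | rfl | rfl
    · exact G.sym _ _ a1
    · exact G.sym _ _ a2
    · exact G.sym _ _ a3
    · exact G.sym _ _ a4
    · exact G.sym _ _ hexn) (card5_50 qp hne.symm hpq.symm hxq.symm hnp.symm hpp.symm
        hxp.symm qp' hxq'.symm hxp'.symm)
  simp only [mem_insert, mem_singleton, not_or] at hu
  refine ⟨u, hS, t, t', P, P', na, hne, hnp, el, ?_, hu.2.2.2.2⟩
  rw [hnb]
  ext v
  simp only [mem_insert, mem_singleton]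
  tauto

/-- the sixth neighbour of `e` -/
theorem TwoP50.u2 {x e q p q' p' u : V} (h : TwoP50 G Fa x e q p q' p' u)
    (hG : G.Gen6 Fa) : u ∈ G.nb q' ∧ (G.Low u ∨ ∃ b ∈ G.nb q', G.Low b ∧ G.HL u b e) := by
  have h9 := hG.g5.n9
  have he := h.S.adj q' h.P'
  have hna : ∀ v ∈ G.nb q', v ≠ q ∧ v ≠ p := by
    intro v hv
    constructor
    · rintro rfl
      exact h.na (G.sym _ _ hv)
    · rintro rfl
      exact h.na (Tw_nb5 (tw_symm76 h.t) (G.sym _ _ hv) h.ne)
  rcases cov0_86 hG.g5 h.P'.1 h.t' h.P'.2.2.1 he with h1 | h1 | h1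
  · obtain ⟨l, h1, h2, h3⟩ := h1
    have h4 : l ∈ G.nb e := G.sym _ _ h3
    rw [h.nbe] at h4
    simp only [mem_insert, mem_singleton] at h4
    rcases h4 with rfl | rfl | rfl | rfl | rfl | rfl
    · exact absurd h2 (tw_not_low76 (tw_of76 h.t))
    · exact absurd h2 (tw_not_low76 (tw_of76' h.t))
    · exact absurd h2 (tw_not_low76 (tw_of76 h.t'))
    · exact absurd h2 (tw_not_low76 (tw_of76' h.t'))
    · exact absurd h2 h.S.hub.1
    · exact ⟨h1, Or.inl h2⟩
  · obtain ⟨v, hv, v', hv', h2, h3, h4, h5, h6⟩ := h1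
    exfalso
    have key : ∀ v, v ∈ G.nb q' → v ≠ p' → G.IsTw v → e ∈ G.nb v → v = u := by
      intro v hv h2 h4 h5
      have h6 : v ∈ G.nb e := G.sym _ _ h5
      rw [h.nbe] at h6
      simp only [mem_insert, mem_singleton] at h6
      rcases h6 with rfl | rfl | rfl | rfl | rfl | rfl
      · exact absurd rfl (hna v hv).1
      · exact absurd rfl (hna v hv).2
      · exact absurd hv (G.irr _)
      · exact absurd rfl h2
      · exact absurd h4 h.S.hub.2
      · rfl
    have e1 := key v hv h2 ⟨v', h4⟩ h5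
    have e2 := key v' hv' h3 ⟨v, tw_symm76 h4⟩ h6
    exact (ne_of_nb5 h4.1) (e1.trans e2.symm)
  · obtain ⟨a, ha, b, hb, -, h3, h4⟩ := h1
    have h5 : a ∈ G.nb e := G.sym _ _ (HL_t76 h4)
    have h6 : ¬ G.IsTw a := (stTwHL_5 G).notHL h9 _ _ _ h4
    rw [h.nbe] at h5
    simp only [mem_insert, mem_singleton] at h5
    rcases h5 with rfl | rfl | rfl | rfl | rfl | rfl
    · exact absurd (tw_of76 h.t) h6
    · exact absurd (tw_of76' h.t) h6
    · exact absurd (tw_of76 h.t') h6
    · exact absurd (tw_of76' h.t') h6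
    · exact absurd h4 (h.S.noHL50 hG)
    · exact ⟨ha, Or.inr ⟨b, hb, h3, h4⟩⟩

/-- the composition of `q` -/
theorem TwoP50.comp {x e q p q' p' u : V} (h : TwoP50 G Fa x e q p q' p' u)
    (hG : G.Gen6 Fa) (hM1 : G.StM1) : ∃ l l' l'' y z w, G.nb q = {p, l, l', l'', y, z, w} ∧
      G.Low l ∧ G.Low l' ∧ G.Low l'' ∧ G.Hub y ∧ G.Hub z ∧ G.Hub w := by
  have h9 := hG.g5.n9
  have he := h.S.adj q h.P
  have hu := (h.u2 hG).1
  have hna : ∀ v ∈ G.nb q, v ≠ q' ∧ v ≠ p' := by
    intro v hv
    constructor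
    · rintro rfl
      exact h.na hv
    · rintro rfl
      exact h.na (G.sym _ _ (Tw_nb5 (tw_symm76 h.t') (G.sym _ _ hv) h.ne.symm))
  have hc : (G.nb e ∩ G.nb q).card ≤ 3 := by
    have h1 : G.nb e ∩ G.nb q ⊆ {p, x, u} := by
      intro v hv
      rw [mem_inter, h.nbe] at hv
      simp only [mem_insert, mem_singleton] at hv ⊢
      obtain ⟨h1, h2⟩ := hv
      rcases h1 with rfl | rfl | rfl | rfl | rfl | rfl
      · exact absurd h2 (G.irr _)
      · exact Or.inl rfl
      · exact absurd rfl (hna v h2).1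
      · exact absurd rfl (hna v h2).2
      · exact Or.inr (Or.inl rfl)
      · exact Or.inr (Or.inr rfl)
    exact (card_le_card h1).trans card_le_three
  rcases hM1.poor Fa hG q h.P.1 p h.t h.P.2.2.1 h.P.2.2.2.1 with h1 | h1 | h1
  · exfalso
    obtain ⟨l, l', y, z, w, w', hnb, hl, hl', hy, hz, hw, hw'⟩ := h1
    obtain ⟨e1, e2, -⟩ := hM1.t204 Fa hG q h.P.1 p h.t h.P.2.2.1 l l' y z w w' hnb hl hl' hy hz
      hw hw'
    have h2 := he
    rw [hnb] at h2
    simp only [mem_insert, mem_singleton] at h2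
    rcases h2 with rfl | rfl | rfl | rfl | rfl | rfl | rfl
    · exact tw_not_low76 (tw_of76' h.t) h.el
    · omega
    · omega
    · exact hy.1 h.el
    · exact hz.1 h.el
    · exact hw.1 h.el
    · exact hw'.1 h.el
  · exfalso
    obtain ⟨l, l', e1, f1, y, z, hnb, hl, hl', ht1, hy, hz⟩ := h1
    have hcard : ({p, l, l', e1, f1, y, z} : Finset V).card = 7 := by rw [← hnb]; exact h.t.2.1
    have hnd := nodup7_86 hcard
    have h2 := he
    rw [hnb] at h2
    simp only [mem_insert, mem_singleton] at h2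
    have he2 : e = l ∨ e = l' := by
      rcases h2 with h2 | h2 | h2 | h2 | h2 | h2 | h2
      · exact absurd h.el (by rw [h2]; exact tw_not_low76 (tw_of76' h.t))
      · exact Or.inl h2
      · exact Or.inr h2
      · exact absurd h.el (by rw [h2]; exact tw_not_low76 (tw_of76 ht1))
      · exact absurd h.el (by rw [h2]; exact tw_not_low76 (tw_of76' ht1))
      · exact absurd h.el (by rw [h2]; exact hy.1)
      · exact absurd h.el (by rw [h2]; exact hz.1)
    have e1q : e1 ∈ G.nb q := by rw [hnb]; simp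
    have f1q : f1 ∈ G.nb q := by rw [hnb]; simp
    rcases hM1.t212 Fa hG q h.P.1 p h.t h.P.2.2.1 l l' e1 f1 y z hnb hl hl' ht1 hy hz with
      h3 | h3
    · obtain ⟨c1, c2, -⟩ := h3
      rcases he2 with rfl | rfl
      · omega
      · omega
    · obtain ⟨l1, l2, y1, y2, hll, hyy, -, -, h4, h5⟩ := h3
      have hnt : ∀ v ∈ G.nb q, G.IsTw v → v ∈ G.nb e → v = p ∨ v = u := by
        intro v hv hvt hve
        rw [h.nbe] at hve
        simp only [mem_insert, mem_singleton] at hve
        rcases hve with h6 | h6 | h6 | h6 | h6 | h6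
        · exact absurd hv (by rw [h6]; exact G.irr _)
        · exact Or.inl h6
        · exact absurd h6 (hna v hv).1
        · exact absurd h6 (hna v hv).2
        · exact absurd hvt (by rw [h6]; exact h.S.hub.2)
        · exact Or.inr h6
      have el2 : e = l2 := by
        have h6 : e = l1 ∨ e = l2 := by
          rcases hll with ⟨rfl, rfl⟩ | ⟨rfl, rfl⟩
          · exact he2
          · exact he2.symm
        rcases h6 with h6 | h6
        · exfalso
          have h7 : e1 ∈ G.nb e ∧ f1 ∈ G.nb e := by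
            rcases h4 with ⟨h4, -⟩ | ⟨h4, -⟩
            · constructor
              · have : e1 ∈ G.nR Fa l1 := by rw [h4]; simp
                rw [h6]; exact (mem_nR76.1 this).1
              · have : f1 ∈ G.nR Fa l1 := by rw [h4]; simp
                rw [h6]; exact (mem_nR76.1 this).1
            · constructor
              · have : e1 ∈ G.nR Fa l1 := by rw [h4]; simp
                rw [h6]; exact (mem_nR76.1 this).1
              · have : f1 ∈ G.nR Fa l1 := by rw [h4]; simp
                rw [h6]; exact (mem_nR76.1 this).1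
          have g1 := hnt e1 e1q (tw_of76 ht1) h7.1
          have g2 := hnt f1 f1q (tw_of76' ht1) h7.2
          have g3 := ne_of_nb5 ht1.1
          have g4 : e1 ≠ p := by
            rintro rfl
            have := (stTwHL_5 G).uniq h9 _ _ _ (tw_symm76 h.t) ht1
            subst this
            exact G.irr _ f1q
          have g5 : f1 ≠ p := by
            rintro rfl
            have := (stTwHL_5 G).uniq h9 _ _ _ (tw_symm76 h.t) (tw_symm76 ht1)
            subst this
            exact G.irr _ e1q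
          exact g3 ((g1.resolve_left g4).trans (g2.resolve_left g5).symm)
        · exact h6
      have hq' : q' ∈ G.nb u := G.sym _ _ hu
      have hy1 : G.Hub y1 := by
        rcases hyy with ⟨rfl, rfl⟩ | ⟨rfl, rfl⟩
        · exact hy
        · exact hz
      have hy2 : G.Hub y2 := by
        rcases hyy with ⟨rfl, rfl⟩ | ⟨rfl, rfl⟩
        · exact hz
        · exact hy
      have hl1 : G.Low l1 := by
        rcases hll with ⟨rfl, rfl⟩ | ⟨rfl, rfl⟩
        · exact hl
        · exact hl'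
      have hq'R : ∀ a ∈ ({q, p, e1, f1} : Finset V), q' ≠ a := by
        intro a ha
        simp only [mem_insert, mem_singleton] at ha
        rcases ha with rfl | rfl | rfl | rfl
        · exact h.ne
        · exact h.np
        · rintro rfl
          exact h.na e1q
        · rintro rfl
          exact h.na f1q
      rcases h4 with ⟨h4, h6, h7, h8⟩ | ⟨h4, h6, h7, h8, h9'⟩
      · -- (ii)
        have h10 : l1 ∈ G.nb e := by rw [el2]; exact h6
        have h11 : l1 = u := by
          rw [h.nbe] at h10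
          simp only [mem_insert, mem_singleton] at h10
          rcases h10 with h10 | h10 | h10 | h10 | h10 | h10
          · exact absurd hl1 (by rw [h10]; exact tw_not_low76 (tw_of76 h.t))
          · exact absurd hl1 (by rw [h10]; exact tw_not_low76 (tw_of76' h.t))
          · exact absurd hl1 (by rw [h10]; exact tw_not_low76 (tw_of76 h.t'))
          · exact absurd hl1 (by rw [h10]; exact tw_not_low76 (tw_of76' h.t'))
          · exact absurd hl1 (by rw [h10]; exact h.S.hub.1)
          · exact h10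
        have h12 : q' ∈ G.nR Fa l1 := mem_nR76.2 ⟨by rw [h11]; exact hq', h.P'.1⟩
        rw [h4] at h12
        simp only [mem_insert, mem_singleton] at h12
        rcases h12 with h12 | h12 | h12 | h12 | h12
        · exact hq'R q (by simp) h12
        · exact hq'R p (by simp) h12
        · exact hq'R e1 (by simp) h12
        · exact hq'R f1 (by simp) h12
        · exact tw_not_low76 (tw_of76 h.t') (by rw [h12, ← el2]; exact h.el)
      · -- (ii')
        have key : ∀ v, G.Hub v → v ∈ G.nb l2 → v = x ∨ v = u := by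
          intro v hv hvn
          rw [← el2, h.nbe] at hvn
          simp only [mem_insert, mem_singleton] at hvn
          rcases hvn with h10 | h10 | h10 | h10 | h10 | h10
          · exact absurd (tw_of76 h.t) (by rw [← h10]; exact hv.2)
          · exact absurd (tw_of76' h.t) (by rw [← h10]; exact hv.2)
          · exact absurd (tw_of76 h.t') (by rw [← h10]; exact hv.2)
          · exact absurd (tw_of76' h.t') (by rw [← h10]; exact hv.2)
          · exact Or.inl h10
          · exact Or.inr h10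
        have h10 : y1 = u := by
          rcases key y1 hy1 h7 with h11 | h11
          · exfalso
            rw [h11, ← el2] at h6
            exact h.S.noHL50 hG h6
          · exact h11
        have h11 : q' ∈ G.nb y1 := by rw [h10]; exact hq'
        have h12 : q' ≠ l2 := by
          rw [← el2]
          exact fun h12 => tw_not_low76 (tw_of76 h.t') (by rw [h12]; exact h.el)
        rcases HL_sup76 h6 h11 h12 with h13 | h13
        · exact tw_not_low76 (tw_of76 h.t') (by rw [h13]; exact hl1)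
        · have h14 : q' ∈ G.nR Fa l1 := mem_nR76.2 ⟨h13, h.P'.1⟩
          rw [h4] at h14
          simp only [mem_insert, mem_singleton] at h14
          rcases h14 with h15 | h15 | h15 | h15 | h15
          · exact hq'R q (by simp) h15
          · exact hq'R p (by simp) h15
          · exact hq'R e1 (by simp) h15
          · exact hq'R f1 (by simp) h15
          · exact hy1.2 (by rw [← h15]; exact tw_of76 h.t')
  · exact h1

theorem I_empty50 {z : V} (h : ∀ v ∈ G.nb z, v ∈ R Fa) : G.I Fa z = ∅ := by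
  rw [eq_empty_iff_forall_notMem]
  intro B hB
  obtain ⟨h1, h2⟩ := mem_I76.1 hB
  obtain ⟨-, y, hy, h4⟩ := mem_N76.1 h2
  exact mem_R76.1 (h y (G.sym _ _ h4)) B h1 hy

omit [Fintype V] [DecidableEq V] in
theorem third50 {a b c e u : V} (hab : a ≠ b) (hac : a ≠ c) (hbc : b ≠ c)
    (he : e = a ∨ e = b ∨ e = c) (hu : u = a ∨ u = b ∨ u = c) (hne : e ≠ u) :
    ∃ d, (d = a ∨ d = b ∨ d = c) ∧ d ≠ e ∧ d ≠ u ∧
      ∀ v, (v = a ∨ v = b ∨ v = c) → v = e ∨ v = u ∨ v = d := by
  rcases he with rfl | rfl | rfl <;> rcases hu with rfl | rfl | rfl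
  · exact absurd rfl hne
  · exact ⟨c, by simp, hac.symm, hbc.symm, fun v h => h⟩
  · exact ⟨b, by simp, hab.symm, hbc, fun v h => by tauto⟩
  · exact ⟨c, by simp, hbc.symm, hac.symm, fun v h => by tauto⟩
  · exact absurd rfl hne
  · exact ⟨a, by simp, hab, hac, fun v h => by tauto⟩
  · exact ⟨b, by simp, hbc, hab.symm, fun v h => by tauto⟩
  · exact ⟨a, by simp, hac, hab, fun v h => by tauto⟩
  · exact absurd rfl hne

omit [Fintype V] [DecidableEq V] in
theorem two50 {a b c x : V} (hab : a ≠ b) (hac : a ≠ c) (hbc : b ≠ c)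
    (hx : x = a ∨ x = b ∨ x = c) : ∃ d d', (d = a ∨ d = b ∨ d = c) ∧
      (d' = a ∨ d' = b ∨ d' = c) ∧ d ≠ x ∧ d' ≠ x ∧ d ≠ d' := by
  rcases hx with rfl | rfl | rfl
  · exact ⟨b, c, by simp, by simp, hab.symm, hac.symm, hbc⟩
  · exact ⟨a, c, by simp, by simp, hab, hbc.symm, hac⟩
  · exact ⟨a, b, by simp, by simp, hac, hbc, hab⟩

/-- three lows and three hubs -/
theorem c303_50 {q p l l' l'' y z w e u x : V} (ht : G.Tw q p)
    (hnb : G.nb q = {p, l, l', l'', y, z, w}) (hl : G.Low l) (hl' : G.Low l')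
    (hl'' : G.Low l'') (hy : G.Hub y) (hz : G.Hub z) (hw : G.Hub w) (he : e ∈ G.nb q)
    (hel : G.Low e) (hu : u ∈ G.nb q) (hul : G.Low u) (hne : e ≠ u) (hx : x ∈ G.nb q)
    (hxh : G.Hub x) : (∀ v ∈ G.nb q, G.IsTw v → v = p) ∧
      (∃ l3 ∈ G.nb q, G.Low l3 ∧ l3 ≠ e ∧ l3 ≠ u ∧
        ∀ v ∈ G.nb q, G.Low v → v = e ∨ v = u ∨ v = l3) ∧
      ∃ y2 ∈ G.nb q, ∃ y3 ∈ G.nb q, G.Hub y2 ∧ G.Hub y3 ∧ y2 ≠ x ∧ y3 ≠ x ∧ y2 ≠ y3 := by
  have hcard : ({p, l, l', l'', y, z, w} : Finset V).card = 7 := by rw [← hnb]; exact ht.2.1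
  have hnd := nodup7_86 hcard
  simp only [List.nodup_cons, List.mem_cons, not_or, List.not_mem_nil, not_false_eq_true,
    and_true, List.nodup_nil] at hnd
  obtain ⟨-, ⟨a1, a2, -⟩, ⟨a3, -⟩, -, ⟨b1, b2⟩, b3⟩ := hnd
  have mem : ∀ v, v ∈ G.nb q ↔ v = p ∨ v = l ∨ v = l' ∨ v = l'' ∨ v = y ∨ v = z ∨ v = w := by
    intro v
    rw [hnb]
    simp only [mem_insert, mem_singleton]
  have htp := tw_of76' ht
  have lows : ∀ v ∈ G.nb q, G.Low v → v = l ∨ v = l' ∨ v = l'' := by
    intro v hv hvl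
    rcases (mem v).1 hv with h | h | h | h | h | h | h
    · exact absurd hvl (by rw [h]; exact tw_not_low76 htp)
    · exact Or.inl h
    · exact Or.inr (Or.inl h)
    · exact Or.inr (Or.inr h)
    · exact absurd hvl (by rw [h]; exact hy.1)
    · exact absurd hvl (by rw [h]; exact hz.1)
    · exact absurd hvl (by rw [h]; exact hw.1)
  have hubs : ∀ v ∈ G.nb q, G.Hub v → v = y ∨ v = z ∨ v = w := by
    intro v hv hvl
    rcases (mem v).1 hv with h | h | h | h | h | h | h
    · exact absurd htp (by rw [← h]; exact hvl.2)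
    · exact absurd hl (by rw [← h]; exact hvl.1)
    · exact absurd hl' (by rw [← h]; exact hvl.1)
    · exact absurd hl'' (by rw [← h]; exact hvl.1)
    · exact Or.inl h
    · exact Or.inr (Or.inl h)
    · exact Or.inr (Or.inr h)
  refine ⟨?_, ?_, ?_⟩
  · intro v hv hvt
    rcases (mem v).1 hv with h | h | h | h | h | h | h
    · exact h
    · exact absurd hl (by rw [← h]; exact tw_not_low76 hvt)
    · exact absurd hl' (by rw [← h]; exact tw_not_low76 hvt)
    · exact absurd hl'' (by rw [← h]; exact tw_not_low76 hvt)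
    · exact absurd hvt (by rw [h]; exact hy.2)
    · exact absurd hvt (by rw [h]; exact hz.2)
    · exact absurd hvt (by rw [h]; exact hw.2)
  · obtain ⟨d, h1, h2, h3, h4⟩ := third50 a1 a2 a3 (lows e he hel) (lows u hu hul) hne
    refine ⟨d, ?_, ?_, h2, h3, fun v hv hvl => h4 v (lows v hv hvl)⟩
    · rw [hnb]
      rcases h1 with h1 | h1 | h1 <;> rw [h1] <;> simp
    · rcases h1 with h1 | h1 | h1 <;> rw [h1] <;> assumption
  · obtain ⟨d, d', h1, h2, h3, h4, h5⟩ := two50 b1 b2 b3 (hubs x hx hxh)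
    refine ⟨d, ?_, d', ?_, ?_, ?_, h3, h4, h5⟩
    · rw [hnb]
      rcases h1 with h1 | h1 | h1 <;> rw [h1] <;> simp
    · rw [hnb]
      rcases h2 with h2 | h2 | h2 <;> rw [h2] <;> simp
    · rcases h1 with h1 | h1 | h1 <;> rw [h1] <;> assumption
    · rcases h2 with h2 | h2 | h2 <;> rw [h2] <;> assumption

omit [Fintype V] in
theorem seven_le50 {S : Finset V} {a b c d e f g : V} (h1 : a ∈ S) (h2 : b ∈ S) (h3 : c ∈ S)
    (h4 : d ∈ S) (h5 : e ∈ S) (h6 : f ∈ S) (h7 : g ∈ S)
    (hn : [a, b, c, d, e, f, g].Nodup) : 7 ≤ S.card := by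
  have h8 : ([a, b, c, d, e, f, g].toFinset).card = 7 := by
    rw [List.toFinset_card_of_nodup hn]
    rfl
  rw [← h8]
  refine card_le_card ?_
  intro v hv
  simp only [List.mem_toFinset, List.mem_cons, List.not_mem_nil, or_false] at hv
  rcases hv with rfl | rfl | rfl | rfl | rfl | rfl | rfl <;> assumption

/-- membership in the neighbourhood of `e` -/
theorem TwoP50.mem {x e q p q' p' u : V} (h : TwoP50 G Fa x e q p q' p' u) {v : V}
    (hv : v ∈ G.nb e) : G.IsTw v ∨ v = x ∨ v = u := by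
  rw [h.nbe] at hv
  simp only [mem_insert, mem_singleton] at hv
  rcases hv with rfl | rfl | rfl | rfl | rfl | rfl
  · exact Or.inl (tw_of76 h.t)
  · exact Or.inl (tw_of76' h.t)
  · exact Or.inl (tw_of76 h.t')
  · exact Or.inl (tw_of76' h.t')
  · exact Or.inr (Or.inl rfl)
  · exact Or.inr (Or.inr rfl)

/-- the third low vertex of `q`, `u` low -/
theorem TwoP50.l3 {x e q p q' p' u u' : V} (h : TwoP50 G Fa x e q p q' p' u) (hG : G.Gen6 Fa)
    (hM1 : G.StM1) (hu : G.Low u) (huq : u ∈ G.nb q)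
    (hnu : G.nb u = insert u' {e, q, p, q', p'}) : ∃ y2 y3, G.Hub y2 ∧ G.Hub y3 ∧ y2 ≠ y3 ∧
      u' ∈ G.nb q ∧ G.Low u' ∧ y2 ∈ G.nb u' ∧ y3 ∈ G.nb u' := by
  have h9 := hG.g5.n9
  obtain ⟨l, l', l'', y, z, w, hnb, hl, hl', hl'', hy, hz, hw⟩ := h.comp hG hM1
  have he := h.S.adj q h.P
  have hue : u ∈ G.nb e := by rw [h.nbe]; simp
  have heu : e ≠ u := ne_of_nb5 hue
  have hxq := h.P.nb50
  obtain ⟨htw, ⟨l3, hl3, hl3l, hl3e, hl3u, hlows⟩, y2, hy2, y3, hy3, hy2h, hy3h, hy2x, hy3x,
    hy23⟩ := c303_50 h.t hnb hl hl' hl'' hy hz hw he h.el huq hu heu hxq h.S.hub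
  have hxu : x ∉ G.nb u := fun h1 => h.S.low50 (G.sym _ _ h1) hu hue
  have memu : ∀ v ∈ G.nb u, v = u' ∨ v = e ∨ G.IsTw v := by
    intro v hv
    rw [hnu] at hv
    simp only [mem_insert, mem_singleton] at hv
    rcases hv with rfl | rfl | rfl | rfl | rfl | rfl
    · exact Or.inl rfl
    · exact Or.inr (Or.inl rfl)
    · exact Or.inr (Or.inr (tw_of76 h.t))
    · exact Or.inr (Or.inr (tw_of76' h.t))
    · exact Or.inr (Or.inr (tw_of76 h.t'))
    · exact Or.inr (Or.inr (tw_of76' h.t'))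
  have e3 : l3 = u' := by
    rcases cov0_86 hG.g5 h.P.1 h.t h.P.2.2.1 hl3 with h1 | h1 | h1
    · obtain ⟨v, h1, h2, h3⟩ := h1
      rcases hlows v h1 h2 with rfl | rfl | rfl
      · rcases h.mem h3 with h4 | h4 | h4
        · exact absurd hl3l (tw_not_low76 h4)
        · exact absurd hl3l (by rw [h4]; exact h.S.hub.1)
        · exact absurd h4 hl3u
      · rcases memu l3 h3 with h4 | h4 | h4
        · exact h4
        · exact absurd h4 hl3e
        · exact absurd hl3l (tw_not_low76 h4)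
      · exact absurd h3 (G.irr _)
    · obtain ⟨v, hv, v', -, h2, -, h4, -⟩ := h1
      exact absurd (htw v hv ⟨v', h4⟩) h2
    · obtain ⟨a, ha, b, hb, -, h3, h4⟩ := h1
      exfalso
      have hat : ¬ G.IsTw a := (stTwHL_5 G).notHL h9 _ _ _ h4
      have hal : ¬ G.Low a := HL_not_low76 h4
      have hab : a ∈ G.nb b := G.sym _ _ h4.2.2.1
      rcases hlows b hb h3 with rfl | rfl | rfl
      · rcases h.mem hab with h5 | h5 | h5
        · exact hat h5
        · rw [h5] at h4
          exact h.S.low50 (HL_sub76 h4 hue h.ux) hu hue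
        · exact hal (by rw [h5]; exact hu)
      · rcases memu a hab with h5 | h5 | h5
        · have h6 : e ∈ G.nb a := HL_sub76 h4 (G.sym _ _ hue)
            (fun h7 => hal (by rw [← h7]; exact h.el))
          rcases h.mem (G.sym _ _ h6) with h7 | h7 | h7
          · exact hat h7
          · exact hxu (by rw [← h7]; exact hab)
          · exact G.irr b (by rw [h7] at hab; exact hab)
        · exact hal (by rw [h5]; exact h.el)
        · exact hat h5
      · exact (HL_bt76 h4).2 rfl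
  have hyy : ∀ y2 ∈ G.nb q, G.Hub y2 → y2 ≠ x → y2 ∈ G.nb u' := by
    intro y2 hy2 hy2h hy2x
    rcases cov0_86 hG.g5 h.P.1 h.t h.P.2.2.1 hy2 with h1 | h1 | h1
    · obtain ⟨v, h1, h2, h3⟩ := h1
      rcases hlows v h1 h2 with rfl | rfl | rfl
      · rcases h.mem h3 with h4 | h4 | h4
        · exact absurd h4 hy2h.2
        · exact absurd h4 hy2x
        · exact absurd hu (by rw [← h4]; exact hy2h.1)
      · rcases memu y2 h3 with h4 | h4 | h4
        · exact absurd hl3l (by rw [e3, ← h4]; exact hy2h.1)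
        · exact absurd h.el (by rw [← h4]; exact hy2h.1)
        · exact absurd h4 hy2h.2
      · rw [← e3]; exact h3
    · obtain ⟨v, hv, v', -, h2, -, h4, -⟩ := h1
      exact absurd (htw v hv ⟨v', h4⟩) h2
    · obtain ⟨a, ha, b, hb, h3, -⟩ := h1
      exact absurd h3 hy2h.1
  exact ⟨y2, y3, hy2h, hy3h, hy23, by rw [← e3]; exact hl3, by rw [← e3]; exact hl3l,
    hyy y2 hy2 hy2h hy2x, hyy y3 hy3 hy3h hy3x⟩

/-- two poor pairs are impossible -/
theorem TwoP50.false {x e q p q' p' u : V} (h : TwoP50 G Fa x e q p q' p' u) (hG : G.Gen6 Fa)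
    (hM1 : G.StM1) : False := by
  have h9 := hG.g5.n9
  have hT := stTwHL_5 G
  obtain ⟨huq', hu'⟩ := h.u2 hG
  obtain ⟨huq, -⟩ := (h.swap hG).u2 hG
  have hue : u ∈ G.nb e := by rw [h.nbe]; simp
  have heu : e ≠ u := ne_of_nb5 hue
  have hne := h.ne
  have hnp := h.np
  have qp := ne_of_nb5 h.t.1
  have qp' := ne_of_nb5 h.t'.1
  have hpp : p' ≠ p := by
    rintro rfl
    exact hne (hT.uniq h9 _ _ _ (tw_symm76 h.t') (tw_symm76 h.t))
  have hpq : p' ≠ q := by
    rintro rfl
    exact hnp (hT.uniq h9 _ _ _ (tw_symm76 h.t') h.t)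
  have twl : ∀ v w : V, G.IsTw v → G.Low w → v ≠ w := by
    rintro v w hv hw rfl
    exact tw_not_low76 hv hw
  have t1 := tw_of76 h.t
  have t2 := tw_of76' h.t
  have t3 := tw_of76 h.t'
  have t4 := tw_of76' h.t'
  by_cases hu : G.Low u
  · -- `u` low
    have hup : u ∈ G.nb p := Tw_nb5 h.t huq (twl p u t2 hu).symm
    have hup' : u ∈ G.nb p' := Tw_nb5 h.t' huq' (twl p' u t4 hu).symm
    obtain ⟨u', hu'n, hnu⟩ := six_of50 (S := G.nb u) (T := {e, q, p, q', p'}) hu (by
      intro v hv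
      simp only [mem_insert, mem_singleton] at hv
      rcases hv with rfl | rfl | rfl | rfl | rfl
      · exact G.sym _ _ hue
      · exact G.sym _ _ huq
      · exact G.sym _ _ hup
      · exact G.sym _ _ huq'
      · exact G.sym _ _ hup') (card5_50 (twl q e t1 h.el).symm (twl p e t2 h.el).symm
        (twl q' e t3 h.el).symm (twl p' e t4 h.el).symm qp hne.symm hpq.symm hnp.symm
        hpp.symm qp')
    obtain ⟨y2, y3, g1, g2, g3, g4, g5, g6, g7⟩ := h.l3 hG hM1 hu huq hnu
    have hnu2 : G.nb u = insert u' {e, q', p', q, p} := by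
      rw [hnu]
      ext v
      simp only [mem_insert, mem_singleton]
      tauto
    obtain ⟨-, -, -, -, -, k4, -⟩ := (h.swap hG).l3 hG hM1 hu huq' hnu2
    have m1 : u' ∈ G.nb p := Tw_nb5 h.t g4 (twl p u' t2 g5).symm
    have m2 : u' ∈ G.nb p' := Tw_nb5 h.t' k4 (twl p' u' t4 g5).symm
    have m3 : u' ∈ G.nb u := by rw [hnu]; simp
    have hub : ∀ v w : V, G.IsTw v ∨ G.Low v → G.Hub w → v ≠ w := by
      rintro v w hv hw rfl
      rcases hv with hv | hv
      · exact hw.2 hv
      · exact hw.1 hv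
    have h7 := seven_le50 (G.sym _ _ g4) (G.sym _ _ m1) (G.sym _ _ k4) (G.sym _ _ m2)
      (G.sym _ _ m3) g6 g7 (by
        simp only [List.nodup_cons, List.mem_cons, not_or, List.not_mem_nil, not_false_eq_true,
          and_true, List.nodup_nil]
        exact ⟨⟨qp, hne.symm, hpq.symm, twl q u t1 hu, hub q y2 (Or.inl t1) g1,
          hub q y3 (Or.inl t1) g2⟩, ⟨hnp.symm, hpp.symm, twl p u t2 hu,
          hub p y2 (Or.inl t2) g1, hub p y3 (Or.inl t2) g2⟩, ⟨qp', twl q' u t3 hu,
          hub q' y2 (Or.inl t3) g1, hub q' y3 (Or.inl t3) g2⟩, ⟨twl p' u t4 hu,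
          hub p' y2 (Or.inl t4) g1, hub p' y3 (Or.inl t4) g2⟩, ⟨hub u y2 (Or.inr hu) g1,
          hub u y3 (Or.inr hu) g2⟩, g3⟩)
    have h8 : (G.nb u').card = 6 := g5
    omega
  · -- `u` a hub
    obtain ⟨b, hbq', hbl, hHL⟩ := hu'.resolve_left hu
    have hb : ∀ v, G.IsTw v → u ∈ G.nb v → v ∈ G.nb b := by
      intro v hv huv
      rcases HL_sup76 hHL (G.sym _ _ huv) (twl v e hv h.el) with h1 | h1
      · exact absurd hbl (by rw [← h1]; exact tw_not_low76 hv)
      · exact h1
    have hup : u ∈ G.nb p := Tw_nb5 h.t huq (fun h1 => (HL_hubT76 h9 hHL).2 (by rw [h1]; exact t2))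
    have hup' : u ∈ G.nb p' :=
      Tw_nb5 h.t' huq' (fun h1 => (HL_hubT76 h9 hHL).2 (by rw [h1]; exact t4))
    have uh := HL_hubT76 h9 hHL
    have hnut : ∀ v, G.IsTw v → v ≠ u := by
      rintro v hv rfl
      exact uh.2 hv
    obtain ⟨w, hwn, hnb⟩ := six_of50 (S := G.nb b) (T := {q, p, q', p', u}) hbl (by
      intro v hv
      simp only [mem_insert, mem_singleton] at hv
      rcases hv with rfl | rfl | rfl | rfl | rfl
      · exact hb _ t1 huq
      · exact hb _ t2 hup
      · exact hb _ t3 huq'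
      · exact hb _ t4 hup'
      · exact G.sym _ _ hHL.2.2.1) (card5_50 qp hne.symm hpq.symm (hnut q t1) hnp.symm
        hpp.symm (hnut p t2) qp' (hnut q' t3) (hnut p' t4))
    have hqR := h.P.1
    have hpR := (PQ_tw50 hG h.t h.P).1
    have hqR' := h.P'.1
    have hpR' := (PQ_tw50 hG h.t' h.P').1
    have heR : e ∈ R Fa := R0_86 h.P.1 h.P.2.2.1 (h.S.adj q h.P)
    have huR : u ∈ R Fa := R0_86 h.P.1 h.P.2.2.1 huq
    have hbR : b ∈ R Fa := R0_86 h.P'.1 h.P'.2.2.1 hbq'
    have memb : ∀ v ∈ G.nb b, v = w ∨ v = q ∨ v = p ∨ v = q' ∨ v = p' ∨ v = u := by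
      intro v hv
      rw [hnb] at hv
      simpa only [mem_insert, mem_singleton] using hv
    have hbe : b ≠ e := fun h1 => (HL_bt76 hHL).2 h1.symm
    have hbu : b ≠ u := (ne_of_nb5 hHL.2.2.1).symm
    have hwR : w ∉ R Fa := by
      intro hw
      have nbR : ∀ v ∈ G.nb b, v ∈ R Fa := by
        intro v hv
        rcases memb v hv with rfl | rfl | rfl | rfl | rfl | rfl <;> assumption
      have n1 : G.I Fa e = ∅ := I_empty50 (by
        intro v hv
        rw [h.nbe] at hv
        simp only [mem_insert, mem_singleton] at hv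
        rcases hv with rfl | rfl | rfl | rfl | rfl | rfl
        · exact hqR
        · exact hpR
        · exact hqR'
        · exact hpR'
        · exact h.S.xR
        · exact huR)
      have n2 : G.I Fa b = ∅ := I_empty50 nbR
      have n3 : G.I Fa u = ∅ := I_empty50 (by
        intro v hv
        by_cases hve : v = e
        · rw [hve]; exact heR
        rcases HL_sup76 hHL hv hve with h1 | h1
        · rw [h1]; exact hbR
        · exact nbR v h1)
      have hc : ({e, b, u} : Finset V).card = 3 := by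
        rw [card_insert_of_notMem, card_pair hbu]
        simpa using ⟨hbe.symm, heu⟩
      have h7 := E03_86 hG.g5 (by have := hG.n13; omega) hc (by
        intro v hv
        simp only [mem_insert, mem_singleton] at hv
        rcases hv with rfl | rfl | rfl
        · exact ⟨heR, n1⟩
        · exact ⟨hbR, n2⟩
        · exact ⟨huR, n3⟩)
      have h8 : G.N {e, b, u} ⊆ {q, p, q', p', x, w} := by
        intro v hv
        obtain ⟨h1, s, hs, h2⟩ := mem_N76.1 hv
        simp only [mem_insert, mem_singleton, not_or] at h1 hs ⊢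
        have hb2 : v ∈ G.nb b → v = q ∨ v = p ∨ v = q' ∨ v = p' ∨ v = x ∨ v = w := by
          intro h3
          rcases memb v h3 with h4 | h4 | h4 | h4 | h4 | h4
          · exact Or.inr (Or.inr (Or.inr (Or.inr (Or.inr h4))))
          · exact Or.inl h4
          · exact Or.inr (Or.inl h4)
          · exact Or.inr (Or.inr (Or.inl h4))
          · exact Or.inr (Or.inr (Or.inr (Or.inl h4)))
          · exact absurd h4 h1.2.2
        rcases hs with rfl | rfl | rfl
        · rw [h.nbe] at h2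
          simp only [mem_insert, mem_singleton] at h2
          rcases h2 with h4 | h4 | h4 | h4 | h4 | h4
          · exact Or.inl h4
          · exact Or.inr (Or.inl h4)
          · exact Or.inr (Or.inr (Or.inl h4))
          · exact Or.inr (Or.inr (Or.inr (Or.inl h4)))
          · exact Or.inr (Or.inr (Or.inr (Or.inr (Or.inl h4))))
          · exact absurd h4 h1.2.2
        · exact hb2 h2
        · rcases HL_sup76 hHL h2 h1.1 with h3 | h3
          · exact absurd h3 h1.2.1
          · exact hb2 h3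
      have h10 := card_le_card h8
      have h11 : ({q, p, q', p', x, w} : Finset V).card ≤ 6 := card_le_six
      omega
    obtain ⟨l, l', l'', y, z, w', hnq, hl, hl', hl'', hy, hz, hw⟩ := h.comp hG hM1
    have hbq : b ∈ G.nb q := G.sym _ _ (hb q t1 huq)
    obtain ⟨htw, ⟨l3, hl3, hl3l, hl3e, hl3b, hlows⟩, -⟩ := c303_50 h.t hnq hl hl' hl'' hy hz hw
      (h.S.adj q h.P) h.el hbq hbl hbe.symm h.P.nb50 h.S.hub
    have hl3R : l3 ∈ R Fa := R0_86 h.P.1 h.P.2.2.1 hl3
    have hub_b : ∀ v ∈ G.nb b, v ∈ R Fa → ¬ G.IsTw v → v = u := by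
      intro v hv hvR hvt
      rcases memb v hv with h4 | h4 | h4 | h4 | h4 | h4
      · exact absurd hvR (by rw [h4]; exact hwR)
      · exact absurd t1 (by rw [← h4]; exact hvt)
      · exact absurd t2 (by rw [← h4]; exact hvt)
      · exact absurd t3 (by rw [← h4]; exact hvt)
      · exact absurd t4 (by rw [← h4]; exact hvt)
      · exact h4
    rcases cov0_86 hG.g5 h.P.1 h.t h.P.2.2.1 hl3 with h1 | h1 | h1
    · obtain ⟨v, h1, h2, h3⟩ := h1
      rcases hlows v h1 h2 with rfl | rfl | rfl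
      · rcases h.mem h3 with h4 | h4 | h4
        · exact tw_not_low76 h4 hl3l
        · exact h.S.hub.1 (by rw [← h4]; exact hl3l)
        · exact hu (by rw [← h4]; exact hl3l)
      · have h4 := hub_b l3 h3 hl3R (fun h5 => tw_not_low76 h5 hl3l)
        exact hu (by rw [← h4]; exact hl3l)
      · exact G.irr _ h3
    · obtain ⟨v, hv, v', -, h2, -, h4, -⟩ := h1
      exact h2 (htw v hv ⟨v', h4⟩)
    · obtain ⟨a, ha, b', hb', -, h3, h4⟩ := h1
      have hat : ¬ G.IsTw a := hT.notHL h9 _ _ _ h4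
      have hal : ¬ G.Low a := HL_not_low76 h4
      have hab : a ∈ G.nb b' := G.sym _ _ h4.2.2.1
      have haR : a ∈ R Fa := R0_86 h.P.1 h.P.2.2.1 ha
      rcases hlows b' hb' h3 with rfl | rfl | rfl
      · rcases h.mem hab with h5 | h5 | h5
        · exact hat h5
        · rw [h5] at h4
          have h6 : x ∈ G.nb u := G.sym _ _ (HL_sub76 h4 hue h.ux)
          rcases HL_sup76 hHL h6 (fun h7 => h.S.hub.1 (by rw [h7]; exact h.el)) with h7 | h7
          · exact h.S.hub.1 (by rw [h7]; exact hbl)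
          · exact h.ux (hub_b x h7 h.S.xR h.S.hub.2).symm
        · rw [h5] at h4
          rcases HL_sup76 h4 hHL.2.2.1 hl3b.symm with h7 | h7
          · exact hbe h7
          · exact (HL_bt76 hHL).1 (G.sym _ _ h7)
      · have h5 := hub_b a hab haR hat
        rw [h5] at h4
        rcases HL_sup76 hHL (HL_t76 h4) hl3e with h7 | h7
        · exact hl3b h7
        · exact (HL_bt76 h4).1 h7
      · exact (HL_bt76 h4).2 rfl

/-- C8e: two poor pairs -/
theorem stC8e_50 (hM1 : G.StM1) : G.StC8e := by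
  intro Fa hG x e hS q q' P P' hne
  by_contra hnt
  obtain ⟨p, t⟩ := P.2.1
  obtain ⟨p', t'⟩ := P'.2.1
  have hnp : q' ≠ p := by
    rintro rfl
    exact hnt t
  obtain ⟨u, h⟩ := twoP_of50 hG hM1 hS t t' P P' hne.symm hnp
  exact h.false hG hM1

end CG

end Pool.Agent.Lib.MP_e95c01_co.N
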