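import Pool.Agent.Lib.MP_e95c01_co.X.K3s_28
import Pool.Agent.Lib.MP_e95c01_co.X.AuxT76

/-!
# `λ = 3`, thick torsos: deficits of the poor low vertices, first adjacencies
-/

namespace Pool.Agent.Lib.MP_e95c01_co.N

open Finset

variable {V : Type} [Fintype V] [DecidableEq V]

namespace CG

open K28

variable {G : CG V} {Fa : Finset (Finset V)}

/-! ### deficits -/

theorem L1.BF28 {B : Finset V} {l : V} (h : G.L1 Fa B l) : B ∈ Fa := by
  have h1 : B ∈ G.I Fa l := by rw [h.I1]; exact mem_singleton_self _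
  exact (mem_I76.1 h1).1

theorem L1.N28 {B : Finset V} {l : V} (h : G.L1 Fa B l) : l ∈ G.N B := by
  have h1 : B ∈ G.I Fa l := by rw [h.I1]; exact mem_singleton_self _
  exact (mem_I76.1 h1).2

theorem L1.ch28 (hG : G.Gen6 Fa) {B : Finset V} {l : V} (h : G.L1 Fa B l) :
    G.ch5 Fa l = 2 * ((G.pO B l).card : ℤ) + 2 * ((G.NF Fa l).card : ℤ) +
      ((G.NP Fa l).card : ℤ) - 8 + ff G B l := by
  have h1 := (stCh5_28 G).low1 hG.g5.n9 Fa hG.g5.reg l h.lR h.low B h.I1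
  rw [fg_eq, h.I1, sum_singleton] at h1
  exact h1

/-- `r = 2`, one unpaid neighbour -/
theorem two_one28 (hG : G.Gen6 Fa) {B : Finset V} {l u x y : V} (h : G.L1 Fa B l)
    (ho : G.pO B l = {x, y}) (hne : x ≠ y) (hf : G.NF Fa l = {u}) (hp : G.NP Fa l = ∅) :
    G.ch5 Fa l = -2 + ff G B l := by
  have h1 := h.ch28 hG
  rw [ho, hf, hp, card_pair hne, card_singleton, card_empty] at h1
  rw [h1]
  push_cast
  ring

theorem no_S0_28 {B : Finset V} {l v : V} (hl : G.Low l) (h2 : (G.nb l ∩ G.Co B).card = 2) :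
    ¬ G.S0 B l v := by
  intro h
  have h1 := S0_card h
  have h3 := six_low hl B
  have h4 : (G.nb l ∩ B).card = 2 := h1.1
  have h5 : (G.nb l ∩ G.N B).card = 1 := h1.2
  omega

/-- no negative flag if a low vertex is in `pT` -/
theorem ff_nn_low28 (hG : G.Gen6 Fa) {B : Finset V} {l d : V} (h : G.L1 Fa B l)
    (h2 : (G.nb l ∩ G.Co B).card = 2) (hd : d ∈ G.pT B l) (hdl : G.Low d) : 0 ≤ ff G B l := by
  have h1 := ff_low hG.g5.n9 (hG.g5.reg.frag B h.BF28) h.low hdl hd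
  have h3 : G.s5 B l = 0 := s5_zero fun v => no_S0_28 h.low h2
  have h4 := s5_nonneg (G := G) (G.Co B) l
  linarith

/-- no negative flag if the top `a` of `HL a b l` is in `pT` -/
theorem ff_nn_HL28 (hG : G.Gen6 Fa) {B : Finset V} {l a b : V} (h : G.L1 Fa B l)
    (h2 : (G.nb l ∩ G.Co B).card = 2) (ha : a ∈ G.pT B l) (hab : G.HL a b l) :
    0 ≤ ff G B l := by
  have hfr := hG.g5.reg.frag B h.BF28
  have hat : ¬ G.IsTw a := (stTwHL_5 G).notHL hG.g5.n9 _ _ _ hab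
  rcases ff_cases hfr h.low with k | ⟨-, k | k | k | k⟩
  · exact k
  · obtain ⟨v, hv, -⟩ := k
    exact absurd hv (no_S0_28 h.low h2)
  · exact absurd (PairSet_tw hG.g5.n9 k.2.2.2 ha) hat
  · have k2 := T3_pair k
    rw [pT_Co hfr] at k2
    exact absurd (PairSet_tw hG.g5.n9 k2 ha) hat
  · have k2 : (G.nb l ∩ G.Co B).card = 4 := (HF_card k).1
    omega

theorem Gam.c2_28 {B : Finset V} {l d x y : V} (h : G.Gam Fa B l d x y) :
    (G.nb l ∩ G.Co B).card = 2 := by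
  have h1 : G.nb l ∩ G.Co B = {x, y} := h.out
  rw [h1, card_pair h.ne]

theorem The.c2_28 {B : Finset V} {l a b x y : V} (h : G.The Fa B l a b x y) :
    (G.nb l ∩ G.Co B).card = 2 := by
  have h1 : G.nb l ∩ G.Co B = {x, y} := h.out
  rw [h1, card_pair h.ne]

theorem Eps.c2_28 {B : Finset V} {l d q p : V} (h : G.Eps Fa B l d q p) :
    (G.nb l ∩ G.Co B).card = 2 := by
  have h1 : G.nb l ∩ G.Co B = {q, p} := h.out
  rw [h1, card_pair (tw_ne h.t)]

theorem Eta.c2_28 {B : Finset V} {l a b q p : V} (h : G.Eta Fa B l a b q p) :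
    (G.nb l ∩ G.Co B).card = 2 := by
  have h1 : G.nb l ∩ G.Co B = {q, p} := h.out
  rw [h1, card_pair (tw_ne h.t)]

theorem Gam.ge28 (hG : G.Gen6 Fa) {B : Finset V} {l d x y : V} (h : G.Gam Fa B l d x y) :
    -2 ≤ G.ch5 Fa l := by
  have h1 := two_one28 hG h.toL1 h.out h.ne h.nf h.np
  have h2 := ff_nn_low28 hG h.toL1 h.c2_28 h.dT h.dl
  linarith

theorem The.ge28 (hG : G.Gen6 Fa) {B : Finset V} {l a b x y : V} (h : G.The Fa B l a b x y) :
    -2 ≤ G.ch5 Fa l := by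
  have h1 := two_one28 hG h.toL1 h.out h.ne h.nf h.np
  have h2 := ff_nn_HL28 hG h.toL1 h.c2_28 h.aT h.hl
  linarith

theorem Eps.ch28 (hG : G.Gen6 Fa) {B : Finset V} {l d q p : V} (h : G.Eps Fa B l d q p) :
    G.ch5 Fa l = -2 := by
  have h1 := two_one28 hG h.toL1 h.out (tw_ne h.t) h.nf h.np
  have h2 := h.flag
  rw [fg_eq, h.I1, sum_singleton] at h2
  rw [h1, h2]
  norm_num

theorem Eta.ge28 (hG : G.Gen6 Fa) {B : Finset V} {l a b q p : V} (h : G.Eta Fa B l a b q p) :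
    -2 ≤ G.ch5 Fa l := by
  have h1 := two_one28 hG h.toL1 h.out (tw_ne h.t) h.nf h.np
  have h2 := ff_nn_HL28 hG h.toL1 h.c2_28 h.aT h.hl
  linarith

theorem S0s.ge28 (hG : G.Gen6 Fa) {B : Finset V} {l v q p y : V} (h : G.S0s Fa B l v q p y) :
    -2 ≤ G.ch5 Fa l ∧ - G.s5 B l ≤ G.ch5 Fa l := by
  classical
  have h1 := h.toL1.ch28 hG
  have h2 : (G.pO B l).card = 3 := by
    have h3 := six_low h.low B
    have h4 : (G.nb l ∩ B).card = 2 := (S0_card h.s0).1
    have h5 : (G.nb l ∩ G.N B).card = 1 := (S0_card h.s0).2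
    show (G.nb l ∩ G.Co B).card = 3
    omega
  have hvT : v ∈ G.pT B l := by rw [h.s0.2.2.2.1]; exact mem_singleton_self _
  have h3 : 1 ≤ (G.NF Fa l).card := by
    refine card_pos.2 ⟨v, ?_⟩
    rw [NF, mem_filter]
    exact ⟨mem_nR76.2 ⟨(mem_inter.1 hvT).1, N_R hG.g5.reg h.toL1.BF28 (mem_inter.1 hvT).2⟩,
      Or.inl h.s0.2.2.1⟩
  have h4 := ff_low hG.g5.n9 (hG.g5.reg.frag B h.toL1.BF28) h.low h.s0.2.2.1 hvT
  have h5 := s5_nonneg (G := G) (G.Co B) l
  have h6 := s5_le (G := G) B l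
  have h7 : (1 : ℤ) ≤ ((G.NF Fa l).card : ℤ) := by exact_mod_cast h3
  have h8 : (0 : ℤ) ≤ ((G.NP Fa l).card : ℤ) := by positivity
  rw [h2] at h1
  push_cast at h1
  constructor <;> linarith

/-! ### adjacencies of `T3` and `T6` -/

theorem T6s.adj28 (hG : G.Gen6 Fa) {l l' q p x y z : V} (h : G.T6s Fa l l' q p x y z) :
    q ∈ G.nb l' ∧ p ∈ G.nb l' := by
  have h9 := hG.g5.n9
  have hq : q ∈ G.nb l := by rw [h.nb]; simp
  have hqn : q ∈ G.nR Fa l := mem_nR76.2 ⟨hq, nb_R76 h.lR h.I0 hq⟩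
  have key : q ∈ G.nb l' := by
    rcases cov_lh86 hG.g5 h.lR hqn (m_empty5 h.I0) (tw_not_low76 ⟨p, h.t⟩) with
      (⟨w, h1, h2, h3⟩ | ⟨v, w, h1, h2, h3, h4, h5⟩) | ⟨a, b, h1, -, h3, -⟩ |
      ⟨a, b, -, -, -, h4⟩
    · have h4 := (mem_nR76.1 h1).1
      rw [h.nb] at h4
      simp only [mem_insert, mem_singleton] at h4
      rcases h4 with rfl | rfl | rfl | rfl | rfl | rfl
      · exact G.sym _ _ (mem_nR76.1 h2).1
      · exact absurd h3 (tw_not_low76 ⟨p, h.t⟩)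
      · exact absurd h3 (tw_not_low76 (tw_of76' h.t))
      · exact absurd h3 h.hx.1.1
      · exact absurd h3 h.hy.1.1
      · exact absurd h3 h.hz.1.1
    · exfalso
      have k1 := (mem_nR76.1 h1).1
      have hvt : G.IsTw v := ⟨w, h5⟩
      rw [h.nb] at k1
      simp only [mem_insert, mem_singleton] at k1
      rcases k1 with rfl | rfl | rfl | rfl | rfl | rfl
      · exact tw_not_low76 hvt h.low'
      · exact G.irr _ (mem_nR76.1 h3).1
      · have := (stTwHL_5 G).uniq h9 _ _ _ h5 (tw_symm76 h.t)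
        rw [this] at h4
        exact G.irr _ (mem_nR76.1 h4).1
      · exact h.hx.1.2 hvt
      · exact h.hy.1.2 hvt
      · exact h.hz.1.2 hvt
    · exfalso
      have k1 := (mem_nR76.1 h1).1
      have hal := HL_not_low76 h3
      have hat : ¬ G.IsTw a := (stTwHL_5 G).notHL h9 _ _ _ h3
      rw [h.nb] at k1
      simp only [mem_insert, mem_singleton] at k1
      rcases k1 with rfl | rfl | rfl | rfl | rfl | rfl
      · exact hal h.low'
      · exact hat ⟨_, h.t⟩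
      · exact hat (tw_of76' h.t)
      · exact h.hx.2.2 ⟨b, h3⟩
      · exact h.hy.2.2 ⟨b, h3⟩
      · exact h.hz.2.2 ⟨b, h3⟩
    · exact absurd ⟨p, h.t⟩ ((stTwHL_5 G).twLL _ _ _ _ h4).2
  refine ⟨key, G.sym _ _ (Tw_nb5 h.t (G.sym _ _ key) ?_)⟩
  rintro rfl
  exact tw_not_low76 (tw_of76' h.t) h.low'

theorem T3s.adj28 (hG : G.Gen6 Fa) {l l' q p q' p' x : V} (h : G.T3s Fa l l' q p q' p' x)
    (hn : q' ∉ G.nb q) : q ∈ G.nb l' ∧ p ∈ G.nb l' ∧ q' ∈ G.nb l' ∧ p' ∈ G.nb l' := by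
  have h9 := hG.g5.n9
  have key : ∀ {q p q' p' : V}, G.T3s Fa l l' q p q' p' x → q' ∉ G.nb q →
      q ∈ G.nb l' ∧ p ∈ G.nb l' := by
    intro q p q' p' h hn
    have hq : q ∈ G.nb l := by rw [h.nb]; simp
    have hqn : q ∈ G.nR Fa l := mem_nR76.2 ⟨hq, nb_R76 h.lR h.I0 hq⟩
    have key : q ∈ G.nb l' := by
      rcases cov_lh86 hG.g5 h.lR hqn (m_empty5 h.I0) (tw_not_low76 ⟨p, h.t⟩) with
        (⟨w, h1, h2, h3⟩ | ⟨v, w, h1, h2, h3, h4, h5⟩) | ⟨a, b, h1, -, h3, -⟩ |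
        ⟨a, b, -, -, -, h4⟩
      · have h4 := (mem_nR76.1 h1).1
        rw [h.nb] at h4
        simp only [mem_insert, mem_singleton] at h4
        rcases h4 with rfl | rfl | rfl | rfl | rfl | rfl
        · exact G.sym _ _ (mem_nR76.1 h2).1
        · exact absurd h3 (tw_not_low76 ⟨p, h.t⟩)
        · exact absurd h3 (tw_not_low76 (tw_of76' h.t))
        · exact absurd h3 (tw_not_low76 ⟨p', h.t'⟩)
        · exact absurd h3 (tw_not_low76 (tw_of76' h.t'))
        · exact absurd h3 h.hx.1.1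
      · exfalso
        have k1 := (mem_nR76.1 h1).1
        have hvt : G.IsTw v := ⟨w, h5⟩
        rw [h.nb] at k1
        simp only [mem_insert, mem_singleton] at k1
        rcases k1 with rfl | rfl | rfl | rfl | rfl | rfl
        · exact tw_not_low76 hvt h.low'
        · exact G.irr _ (mem_nR76.1 h3).1
        · have := (stTwHL_5 G).uniq h9 _ _ _ h5 (tw_symm76 h.t)
          rw [this] at h4
          exact G.irr _ (mem_nR76.1 h4).1
        · exact hn (mem_nR76.1 h3).1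
        · have := (stTwHL_5 G).uniq h9 _ _ _ h5 (tw_symm76 h.t')
          rw [this] at h4
          exact hn (mem_nR76.1 h4).1
        · exact h.hx.1.2 hvt
      · exfalso
        have k1 := (mem_nR76.1 h1).1
        have hal := HL_not_low76 h3
        have hat : ¬ G.IsTw a := (stTwHL_5 G).notHL h9 _ _ _ h3
        rw [h.nb] at k1
        simp only [mem_insert, mem_singleton] at k1
        rcases k1 with rfl | rfl | rfl | rfl | rfl | rfl
        · exact hal h.low'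
        · exact hat ⟨_, h.t⟩
        · exact hat (tw_of76' h.t)
        · exact hat ⟨_, h.t'⟩
        · exact hat (tw_of76' h.t')
        · exact h.hx.2.2 ⟨b, h3⟩
      · exact absurd ⟨p, h.t⟩ ((stTwHL_5 G).twLL _ _ _ _ h4).2
    refine ⟨key, G.sym _ _ (Tw_nb5 h.t (G.sym _ _ key) ?_)⟩
    rintro rfl
    exact tw_not_low76 (tw_of76' h.t) h.low'
  obtain ⟨k1, k2⟩ := key h hn
  obtain ⟨k3, k4⟩ := key h.comm fun hh => hn (G.sym _ _ hh)
  exact ⟨k1, k2, k3, k4⟩

end CG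

end Pool.Agent.Lib.MP_e95c01_co.N
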