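import Pool.Agent.Lib.MP_e95c01_co.U.Defs37

/-!
# `n ≤ 3 n_6` for all 6-contraction-critical graphs: definitions

All numbers are doubled: low 8, all other vertices -4. The functional is
`Σ_(v in S) 2 a5 v + Σ_(w in N S) (a5 w + c5 w (d w S - d w (Co S)) + flv S w - flv (Co S) w)`, where
`flv S w = s5 + 2 [U3] - 2 [T3] - 2 [HF] - [RF]`.
-/

namespace Pool.Agent.Lib.MP_e95c01_co.N

open Finset

variable {V : Type} [Fintype V] [DecidableEq V] (G : CG V)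

namespace CG

/-- neighbours in `S` -/
def pX (S : Finset V) (w : V) : Finset V := G.nb w ∩ S

/-- neighbours in `N S` -/
def pT (S : Finset V) (w : V) : Finset V := G.nb w ∩ G.N S

/-- neighbours in `Co S` -/
def pO (S : Finset V) (w : V) : Finset V := G.nb w ∩ G.Co S

/-- `A` is a pair of twins -/
def PairSet (A : Finset V) : Prop := ∃ v w, G.Tw v w ∧ A = {v, w}

/-- half of the initial weight of a vertex (times two) -/
def a5 (v : V) : ℤ := if G.Low v then 4 else -2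

open Classical in
/-- the coefficient of a vertex -/
noncomputable def c5 (v : V) : ℤ := if G.Low v then 2 else if G.IsTw v then 1 else 0

/-! ### flags -/

/-- `S0`: `u = (q; v; 3)`, `q` a pair of twins, `v` low, adjacent to `q`, `v ≠ (..; u; 1)` -/
def S0 (S : Finset V) (u v : V) : Prop :=
  u ∈ G.N S ∧ G.Low u ∧ G.Low v ∧ G.pT S u = {v} ∧
    (∃ q q', G.Tw q q' ∧ G.pX S u = {q, q'} ∧ q ∈ G.nb v) ∧
    ¬ (G.pT S v = {u} ∧ (G.pO S v).card = 1)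

/-- `u` and `v` form an `LL` pair with the same neighbours in `S` -/
def LLs (S : Finset V) (u v : V) : Prop := (∃ x y, G.LL u v x y) ∧ G.pX S v = G.pX S u

open Classical in
/-- weight of `S0` together with the reduction for `LL` pairs -/
noncomputable def s5 (S : Finset V) (u : V) : ℤ :=
  if ∃ v, G.S0 S u v ∧ ¬ G.LLs S u v then 2
  else if ∃ v, G.S0 S u v ∧ G.pT S v = {u} then 1 else 0

/-- `U3`: low, three neighbours in `S`, exactly one pair of twins in `N S` -/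
def U3 (S : Finset V) (w : V) : Prop :=
  w ∈ G.N S ∧ G.Low w ∧ (G.pX S w).card = 3 ∧ G.PairSet (G.pT S w)

/-- `T3`: `l = (2; Q; R)`, `Q = (2; l; R and a hub)` -/
def T3 (S : Finset V) (l : V) : Prop :=
  l ∈ G.N S ∧ G.Low l ∧ (G.pX S l).card = 2 ∧ ∃ Q Q' r r' h, G.Tw Q Q' ∧ G.Tw r r' ∧ G.Hub h ∧
    G.pT S l = {Q, Q'} ∧ G.pO S l = {r, r'} ∧ (G.pX S Q).card = 2 ∧ G.pT S Q = {Q', l} ∧
    G.pO S Q = {r, r', h}

/-- `HL` flag: `t = (4; a; 1)` -/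
def HF (S : Finset V) (t : V) : Prop :=
  t ∈ G.N S ∧ G.Low t ∧ (G.pX S t).card = 4 ∧
    ∃ a b, G.HL a b t ∧ a ∈ G.N S ∧ b ∈ G.N S ∧ G.pT S t = {a}

/-- three mutually adjacent pairs of twins, `q0` in the first, `q1` in the second -/
def K6 (q0 q1 : V) : Prop := ∃ q0' q1' q2 q2', G.Tw q0 q0' ∧ G.Tw q1 q1' ∧ G.Tw q2 q2' ∧
  q1 ∈ G.nb q0 ∧ q2 ∈ G.nb q0 ∧ q2 ∈ G.nb q1 ∧ q1 ≠ q0' ∧ q2 ≠ q0' ∧ q2 ≠ q1'

/-- adjacent ports of different pairs of a `K6` -/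
def K6X (m m' : V) : Prop := G.Low m ∧ G.Low m' ∧ m' ∈ G.nb m ∧
  ∃ q0 q1, G.K6 q0 q1 ∧ q0 ∈ G.nb m ∧ q1 ∈ G.nb m'

/-- `RQ` flag: a twin vertex `(4; 0; m, m')`, `m`, `m'` an `LL` pair or ports of a `K6` -/
def RF (S : Finset V) (p : V) : Prop :=
  p ∈ G.N S ∧ ∃ p' m m', G.Tw p p' ∧ m ≠ m' ∧ G.pT S p = {p'} ∧ (G.pX S p).card = 4 ∧
    G.pO S p = {m, m'} ∧ ((∃ x y, G.LL m m' x y) ∨ G.K6X m m')

open Classical in
/-- the flags of a vertex `z` of `N S`, seen from `S` -/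
noncomputable def flv (S : Finset V) (z : V) : ℤ :=
  G.s5 S z + 2 * (if G.U3 S z then 1 else 0) - 2 * (if G.T3 S z then 1 else 0) -
    2 * (if G.HF S z then 1 else 0) - (if G.RF S z then 1 else 0)

/-- the functional -/
noncomputable def P5 (S : Finset V) : ℤ :=
  ∑ v ∈ S, 2 * G.a5 v +
    ∑ w ∈ G.N S, (G.a5 w + G.c5 w * ((G.d w S : ℤ) - (G.d w (G.Co S) : ℤ)) +
      (G.flv S w - G.flv (G.Co S) w))

/-- the balance of `z` before payments -/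
noncomputable def bal5 (Fa : Finset (Finset V)) (z : V) : ℤ :=
  (2 - ((G.I Fa z).card : ℤ)) * G.a5 z +
    G.c5 z * ((((G.I Fa z).card : ℤ) - 2) * ((G.nb z).card : ℤ) +
      ∑ x ∈ G.nR Fa z, (2 - (G.m Fa x z : ℤ))) +
    ∑ B ∈ G.I Fa z, (G.flv (G.Co B) z - G.flv B z)

/-! ## Statements -/

/-- X1a: identity -/
def StId5 : Prop := ∀ Fa : Finset (Finset V), G.Reg Fa →
  ∑ v : V, 2 * G.a5 v - ∑ B ∈ Fa, G.P5 B = ∑ z ∈ R Fa, G.bal5 Fa z

/-- X1b -/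
def StPs5 : Prop := ∀ F : Finset V, G.Frag F →
  G.P5 F + G.P5 (G.Co F) = ∑ v : V, 2 * G.a5 v

/-- X1c -/
def StTot5 : Prop := ∑ v : V, 2 * G.a5 v = 12 * (G.l univ : ℤ) - 4 * (Fintype.card V : ℤ)

/-- X1d: payments cancel -/
def StPay5 : Prop := ∀ (Fa : Finset (Finset V)) (p : V → V → ℤ),
  ∑ z ∈ R Fa, ∑ x ∈ G.nR Fa z, (p x z - p z x) = 0

open Classical in
/-- X1e: the formula for `P5` with the neighbours in `F` and in `N F` -/
def StP5F : Prop := ∀ F : Finset V, G.Frag F →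
  G.P5 F = 12 * (G.l F : ℤ) - 4 * (F.card : ℤ) - 12 +
    (∑ w ∈ (G.N F).filter (fun w => G.Low w), (4 * (G.d w F : ℤ) + 2 * (G.d w (G.N F) : ℤ) - 6)) +
    (∑ w ∈ (G.N F).filter (fun w => G.IsTw w), (2 * (G.d w F : ℤ) + (G.d w (G.N F) : ℤ) - 7)) +
    ∑ w ∈ G.N F, (G.flv F w - G.flv (G.Co F) w)

/-- X1f: the balances without flags -/
def StBal5 : Prop := 9 ≤ Fintype.card V → ∀ Fa : Finset (Finset V), G.Reg Fa →
  (∀ B ∈ Fa, 3 ≤ B.card) → ∀ z ∈ R Fa,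
  (G.Low z → (G.I Fa z = ∅ → G.bal5 Fa z = 8) ∧
    (∀ B, G.I Fa z = {B} → G.bal5 Fa z = 4 - 2 * (G.d z B : ℤ) + 2 * (G.d z (G.Co B) : ℤ) +
      (G.flv (G.Co B) z - G.flv B z))) ∧
  (G.IsTw z → (G.I Fa z = ∅ → G.bal5 Fa z = -4) ∧
    (∀ B, G.I Fa z = {B} → G.bal5 Fa z = -2 - (G.d z B : ℤ) + (G.d z (G.Co B) : ℤ) +
      (G.flv (G.Co B) z - G.flv B z))) ∧
  (G.Hub z → G.bal5 Fa z = 2 * ((G.I Fa z).card : ℤ) - 4)

/-- no edge needs to be added: X1g, the third vertex of `HL` may be assumed low -/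
def StSa5 : Prop := G.Crit → 9 ≤ Fintype.card V → ∀ a b t, G.HL a b t → ¬ G.Low t →
  ∃ G' : CG V, G'.Crit ∧ G'.l univ ≤ G.l univ ∧ ∑ v, (G.nb v).card < ∑ v, (G'.nb v).card

/-- the main theorem for `CG` -/
def StC3 : Prop := G.Crit → Fintype.card V ≤ 3 * G.l univ

end CG

end Pool.Agent.Lib.MP_e95c01_co.N
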