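import Pool.Agent.Lib.MP_e95c01_co.X.StmtsU76

/-!
# Thick torsos: who can be asked

The donations `DL`, `AL` concern low vertices, `PD`, `PF`, `PS` twin vertices, `SK`, `HD`, `HS`, `PQ`
hubs.
-/

namespace Pool.Agent.Lib.MP_e95c01_co.N

open Finset

variable {V : Type} [Fintype V] [DecidableEq V]

namespace CG

variable {G : CG V} {Fa : Finset (Finset V)}

theorem mem_NF53 {x z : V} : x ∈ G.NF Fa z ↔
    x ∈ G.nR Fa z ∧ (G.Low x ∨ 2 ≤ (G.I Fa x).card ∨ ∃ b, G.HL x b z) := by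
  classical
  rw [NF, mem_filter]

theorem mem_NP53 {x z : V} : x ∈ G.NP Fa z ↔
    x ∈ G.nR Fa z ∧ (G.IsTw x ∧ (G.I Fa x).card ≤ 1 ∧ G.m Fa x z ≠ 0) := by
  classical
  rw [NP, mem_filter]

theorem mem_NH53 {x z : V} : x ∈ G.NH Fa z ↔ x ∈ G.nR Fa z ∧ (G.Hub x ∧ (G.I Fa x).card ≤ 1) := by
  classical
  rw [NH, mem_filter]

theorem mem_NO53 {x z : V} : x ∈ G.NO Fa z ↔ x ∈ G.nR Fa z ∧ (G.Low x ∧ G.m Fa x z = 0) := by
  classical
  rw [NO, mem_filter]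

theorem mem_NT53 {x z : V} : x ∈ G.NT Fa z ↔
    x ∈ G.nR Fa z ∧ (G.Low x ∧ G.m Fa x z ≠ 0 ∧ G.Us5 Fa x z) := by
  classical
  rw [NT, mem_filter]

theorem NF_R53 {a l : V} (h : G.NF Fa l = {a}) : a ∈ R Fa ∧ a ∈ G.nb l := by
  have h1 : a ∈ G.NF Fa l := h.symm ▸ mem_singleton_self a
  have h2 := mem_nR76.1 (mem_NF53.1 h1).1
  exact ⟨h2.2, h2.1⟩

theorem hubHL53 (n9 : 9 ≤ Fintype.card V) {a b t : V} (h : G.HL a b t) : G.Hub a :=
  ⟨HL_not_low76 h, (stTwHL_5 G).notHL n9 _ _ _ h⟩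

theorem DL_low53 {l d : V} (h : G.DL Fa l d) : G.Low d := by
  cases h with
  | gam h1 _ _ => exact h1.dl
  | the h1 _ _ _ => exact h1.hl.2.1
  | eps h1 _ _ => exact h1.dl
  | eta h1 _ _ => exact h1.hl.2.1
  | s0 h1 _ _ => exact h1.s0.2.2.1
  | t3 h1 _ _ => exact h1.low'
  | t6 h1 _ _ _ => exact h1.low'
  | k2 _ _ h1 _ => exact h1.2.2.1

theorem PD_tw53 {l q : V} (h : G.PD Fa l q) : G.IsTw q := by
  cases h with
  | t3 h1 _ _ => exact ⟨_, h1.t⟩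
  | t6 h1 _ _ _ _ => exact ⟨_, h1.t⟩
  | eps h1 _ _ => exact ⟨_, h1.t⟩
  | s0 h1 _ _ => exact ⟨_, h1.t⟩

theorem PF_tw53 {l q : V} (h : G.PF Fa l q) : G.IsTw q := by
  cases h with
  | t4 h1 _ _ => exact ⟨_, h1.t⟩

theorem PS_tw53 {l q : V} (h : G.PS Fa l q) : G.IsTw q := by
  cases h with
  | t3 h1 _ _ => exact ⟨_, h1.t⟩
  | t6 h1 _ _ _ _ => exact ⟨_, h1.t⟩

theorem SK_hub53 {l x : V} (h : G.SK Fa l x) : G.Hub x := by
  cases h with
  | t4 h1 _ => exact h1.hx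
  | t6q _ _ _ _ _ h1 _ => exact h1
  | t6l _ _ _ h1 => exact h1.2.2.1.1
  | gam _ h1 _ _ h2 _ _ =>
    rcases h2 with rfl | rfl
    exacts [h1.hx.1, h1.hy.1]
  | the _ h1 _ h2 _ =>
    rcases h2 with rfl | rfl
    exacts [h1.hx.1, h1.hy.1]

theorem HD_hub53 (n9 : 9 ≤ Fintype.card V) {l x : V} (h : G.HD Fa l x) : G.Hub x := by
  cases h with
  | eta h1 _ _ => exact hubHL53 n9 h1.hl
  | ast _ _ _ _ _ _ _ _ h1 _ => exact h1

theorem HS_hub53 {l x : V} (h : G.HS Fa l x) : G.Hub x := by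
  cases h with
  | dbl _ _ _ _ _ _ _ _ h1 => exact h1

theorem PQ_hub53 {q x : V} (h : G.PQ Fa q x) : G.Hub x := by
  exact (mem_NH53.1 h.2.2.2.2).2.1

theorem AL_low53 {q y : V} (h : G.AL Fa q y) : G.Low y := by
  obtain ⟨_, _, _, _, _, h⟩ := h
  exact h.yl

open Classical in
/-- what a low vertex is asked for -/
theorem dn5_low53 (n9 : 9 ≤ Fintype.card V) {d z : V} (hd : G.Low d) : G.dn5 Fa d z =
    (if G.DL Fa z d then -2 * G.ch5 Fa z else 0) + (if G.AL Fa z d then 2 else 0) := by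
  have h1 : ¬ G.IsTw d := fun h => tw_not_low11 h hd
  have h2 : ¬ G.Hub d := fun h => h.1 hd
  rw [dn5, if_neg (fun h => h1 (PD_tw53 h)), if_neg (fun h => h1 (PF_tw53 h)),
    if_neg (fun h => h1 (PS_tw53 h)), if_neg (fun h => h2 (SK_hub53 h)),
    if_neg (fun h => h2 (HD_hub53 n9 h)), if_neg (fun h => h2 (HS_hub53 h)),
    if_neg (fun h => h2 (PQ_hub53 h))]
  ring

open Classical in
/-- what a twin vertex is asked for -/
theorem dn5_tw53 (n9 : 9 ≤ Fintype.card V) {q z : V} (hq : G.IsTw q) : G.dn5 Fa q z =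
    (if G.PD Fa z q then -G.ch5 Fa z else 0) + (if G.PF Fa z q then 2 else 0) +
      (if G.PS Fa z q then 1 else 0) := by
  have h1 : ¬ G.Low q := tw_not_low11 hq
  have h2 : ¬ G.Hub q := fun h => h.2 hq
  rw [dn5, if_neg (fun h => h1 (DL_low53 h)), if_neg (fun h => h1 (AL_low53 h)),
    if_neg (fun h => h2 (SK_hub53 h)), if_neg (fun h => h2 (HD_hub53 n9 h)),
    if_neg (fun h => h2 (HS_hub53 h)), if_neg (fun h => h2 (PQ_hub53 h))]
  ring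

open Classical in
/-- what a hub is asked for -/
theorem dn5_hub53 {x z : V} (hx : G.Hub x) : G.dn5 Fa x z =
    (if G.SK Fa z x then 4 else 0) + (if G.HD Fa z x then 4 else 0) +
      (if G.HS Fa z x then 2 else 0) + (if G.PQ Fa z x then 2 else 0) := by
  rw [dn5, if_neg (fun h => hx.1 (DL_low53 h)), if_neg (fun h => hx.1 (AL_low53 h)),
    if_neg (fun h => hx.2 (PD_tw53 h)), if_neg (fun h => hx.2 (PF_tw53 h)),
    if_neg (fun h => hx.2 (PS_tw53 h))]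
  ring

/-- the vertex `d` is in the neighbourhood of `B` -/
theorem mem_I_pT53 {B : Finset V} {z d : V} (hB : B ∈ Fa) (hd : d ∈ G.pT B z) :
    B ∈ G.I Fa d := mem_I76.2 ⟨hB, (mem_inter.1 hd).2⟩

theorem mem_I_L1_53 {B : Finset V} {l : V} (h : G.I Fa l = {B}) : B ∈ Fa ∧ l ∈ G.N B :=
  mem_I76.1 (h.symm ▸ mem_singleton_self B)

/-- the low vertex `d` is asked by a vertex in no neighbourhood or is itself in a neighbourhood -/
theorem DL_I53 {l d : V} (hdR : d ∈ R Fa) (h : G.DL Fa l d) (h0 : G.I Fa d = ∅) :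
    ∃ q p x y z, G.T6s Fa l d q p x y z ∧ G.NoQ Fa l q ∧ 2 ≤ G.ch5 Fa d := by
  have key : ∀ {B : Finset V}, B ∈ G.I Fa d → False := by
    intro B hB
    rw [h0] at hB
    exact absurd hB (notMem_empty _)
  cases h with
  | gam h1 _ _ => exact (key (mem_I_pT53 (mem_I_L1_53 h1.I1).1 h1.dT)).elim
  | the h1 _ _ _ =>
    have h3 := HL_I76 (Fa := Fa) h1.hl (NF_R53 h1.nf).1 hdR h1.lR
    exact (key (h3 ▸ mem_I_pT53 (mem_I_L1_53 h1.I1).1 h1.aT)).elim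
  | eps h1 _ _ => exact (key (mem_I_pT53 (mem_I_L1_53 h1.I1).1 h1.dT)).elim
  | eta h1 _ _ =>
    have h3 := HL_I76 (Fa := Fa) h1.hl (NF_R53 h1.nf).1 hdR h1.lR
    exact (key (h3 ▸ mem_I_pT53 (mem_I_L1_53 h1.I1).1 h1.aT)).elim
  | s0 h1 _ _ =>
    exact (key (mem_I_pT53 (mem_I_L1_53 h1.I1).1 (h1.s0.2.2.2.1.symm ▸ mem_singleton_self _))).elim
  | t3 h1 _ h2 =>
    rw [h0] at h2
    exact absurd h2 not_nonempty_empty
  | t6 h1 h2 _ h3 => exact ⟨_, _, _, _, _, h1, h2, h3⟩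
  | k2 _ h1 h2 _ =>
    exact (key (mem_I_pT53 (mem_I76.1 h1).1 (h2.2.2.2.1.symm ▸ mem_singleton_self _))).elim

theorem AL_I53 {q y : V} (h : G.AL Fa q y) : (G.I Fa y).Nonempty := by
  obtain ⟨B, p, e, f, h', h⟩ := h
  exact ⟨B, mem_I_pT53 (z := q) (mem_I_L1_53 h.I1).1 (h.nT.symm ▸ by simp)⟩

end CG

end Pool.Agent.Lib.MP_e95c01_co.N
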