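import Pool.Agent.Lib.MP_e95c01_co.X.E9_38

/-!
# S12b
-/

namespace Pool.Agent.Lib.MP_e95c01_co.N

open Finset

variable {V : Type} [Fintype V] [DecidableEq V]

namespace CG

variable {G : CG V} {A B : Finset V}

/-- `A` together with the third pair -/
theorem ext38 (h : G.Strip A B) (hT : ∀ x ∈ A, G.IsTw x)
    (hcl : ∀ x ∈ A, ∀ y ∈ A, x ≠ y → y ∈ G.nb x) {s t : V} (ht : G.Tw s t)
    (hsA : s ∈ G.N A) (htA : t ∈ G.N A) (hsub : A ⊆ G.nb s) :
    (∀ x ∈ A ∪ {s, t}, G.IsTw x) ∧
      (∀ x ∈ A ∪ {s, t}, ∀ y ∈ A ∪ {s, t}, x ≠ y → y ∈ G.nb x) ∧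
      (A ∪ {s, t}).card = A.card + 2 := by
  have ht' := (stTwHL_5 G).symm _ _ ht
  have hsub' : A ⊆ G.nb t := by
    intro x hx
    refine Tw_nb5 ht (hsub hx) ?_
    rintro rfl
    exact (mem_N1.1 htA).1 hx
  have _ := h
  refine ⟨?_, ?_, ?_⟩
  · intro x hx
    rw [mem_union, mem_insert, mem_singleton] at hx
    rcases hx with hx | rfl | rfl
    · exact hT x hx
    · exact ⟨t, ht⟩
    · exact ⟨s, ht'⟩
  · intro x hx y hy hxy
    rw [mem_union, mem_insert, mem_singleton] at hx hy
    rcases hx with hx | rfl | rfl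
    · rcases hy with hy | rfl | rfl
      · exact hcl x hx y hy hxy
      · exact G.sym _ _ (hsub hx)
      · exact G.sym _ _ (hsub' hx)
    · rcases hy with hy | rfl | rfl
      · exact hsub hy
      · exact absurd rfl hxy
      · exact ht.1
    · rcases hy with hy | rfl | rfl
      · exact hsub' hy
      · exact ht'.1
      · exact absurd rfl hxy
  · rw [card_union_of_disjoint, card_pair (Tw_ne87 ht)]
    rw [disjoint_left]
    intro x hx hx'
    rw [mem_insert, mem_singleton] at hx'
    rcases hx' with rfl | rfl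
    · exact (mem_N1.1 hsA).1 hx
    · exact (mem_N1.1 htA).1 hx

/-- the strip of the larger fragment -/
theorem strip38 (h : G.Strip A B) (h4 : A.card = 4) {s t : V} (ht : G.Tw s t)
    (hs : s ∈ G.K0 A B) (ht0 : t ∈ G.K0 A B) (hsub : A ⊆ G.nb s) :
    G.Strip (A ∪ {s, t}) B ∧ ∀ w, w ∈ G.K0 A B → w ≠ s → w ≠ t → w ∈ G.K0 (A ∪ {s, t}) B := by
  have ht' := (stTwHL_5 G).symm _ _ ht
  obtain ⟨hsA, hsB⟩ := mem_K087.1 hs
  obtain ⟨htA, htB⟩ := mem_K087.1 ht0
  have hAB := h.reg.dis A (by simp) B (by simp) h.ne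
  have hBA := h.reg.dis B (by simp) A (by simp) h.ne.symm
  have hsub' : A ⊆ G.nb t := by
    intro x hx
    refine Tw_nb5 ht (hsub hx) ?_
    rintro rfl
    exact (mem_N1.1 htA).1 hx
  have hsnA : s ∉ A := (mem_N1.1 hsA).1
  have htnA : t ∉ A := (mem_N1.1 htA).1
  have hsnB : s ∉ B := (h.s1_87.NA hsA).2
  have htnB : t ∉ B := (h.s1_87.NA htA).2
  -- neighbours of `s`, `t` are not in `B`
  have nbB : ∀ w, w ∈ G.nb s ∨ w ∈ G.nb t → w ∉ B := by
    rintro w (h1 | h1) hw
    · exact hsB (mem_N1.2 ⟨hsnB, w, hw, G.sym _ _ h1⟩)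
    · exact htB (mem_N1.2 ⟨htnB, w, hw, G.sym _ _ h1⟩)
  have memN : ∀ w, w ∈ G.N (A ∪ {s, t}) → (w ∈ (G.N A \ {s, t}) ∪ (G.nb s \ (insert t A))) ∧
      w ∉ B := by
    intro w hw
    obtain ⟨h1, a, ha, haw⟩ := mem_N1.1 hw
    rw [mem_union, mem_insert, mem_singleton, not_or, not_or] at h1
    obtain ⟨h1, h2, h3⟩ := h1
    rw [mem_union, mem_insert, mem_singleton] at ha
    rcases ha with ha | rfl | rfl
    · have h5 : w ∈ G.N A := mem_N1.2 ⟨h1, a, ha, haw⟩
      refine ⟨mem_union_left _ (mem_sdiff.2 ⟨h5, ?_⟩), (h.s1_87.NA h5).2⟩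
      rw [mem_insert, mem_singleton, not_or]
      exact ⟨h2, h3⟩
    · refine ⟨mem_union_right _ (mem_sdiff.2 ⟨haw, ?_⟩), nbB w (Or.inl haw)⟩
      rw [mem_insert, not_or]
      exact ⟨h3, h1⟩
    · refine ⟨mem_union_right _ (mem_sdiff.2 ⟨Tw_nb5 ht' haw h2, ?_⟩), nbB w (Or.inr haw)⟩
      rw [mem_insert, not_or]
      exact ⟨h3, h1⟩
  have hle : (G.N (A ∪ {s, t})).card ≤ 6 := by
    have h1 : G.N (A ∪ {s, t}) ⊆ (G.N A \ {s, t}) ∪ (G.nb s \ (insert t A)) :=
      fun w hw => (memN w hw).1
    have h2 := (card_le_card h1).trans (card_union_le _ _)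
    have h3 : (G.N A \ {s, t}).card = 4 := by
      rw [card_sdiff_of_subset, card_pair (Tw_ne87 ht), h.fA87.2.1]
      intro x hx
      rw [mem_insert, mem_singleton] at hx
      rcases hx with rfl | rfl <;> assumption
    have h5 : (G.nb s \ (insert t A)).card = 2 := by
      rw [card_sdiff_of_subset, card_insert_of_notMem htnA, h4, Tw_card87 ht]
      intro x hx
      rcases mem_insert.1 hx with rfl | hx
      · exact ht.1
      · exact hsub hx
    omega
  have hBco : B ⊆ G.Co (A ∪ {s, t}) := by
    intro x hx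
    refine mem_Co1.2 ⟨?_, fun h1 => (memN x h1).2 hx⟩
    rw [mem_union, mem_insert, mem_singleton, not_or, not_or]
    refine ⟨disjoint_right.1 hAB.1 hx, ?_, ?_⟩
    · rintro rfl
      exact hsnB hx
    · rintro rfl
      exact htnB hx
  have hBne : B.Nonempty := h.fB87.1
  have hfrag : G.Frag (A ∪ {s, t}) := by
    have h1 : (A ∪ {s, t}).Nonempty := ⟨s, by simp⟩
    have h2 : (G.Co (A ∪ {s, t})).Nonempty := hBne.mono hBco
    exact ⟨h1, le_antisymm hle (G.stN6_37 _ h1 h2), h2⟩
  have hstrip : G.Strip (A ∪ {s, t}) B := by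
    refine ⟨?_, ?_, ?_, h.bigB, h.n9, h.sat, ?_⟩
    · intro h1
      exact hsnB (h1 ▸ (by simp : s ∈ A ∪ {s, t}))
    · refine ⟨?_, ?_⟩
      · intro D hD
        rw [mem_insert, mem_singleton] at hD
        rcases hD with rfl | rfl
        · exact hfrag
        · exact h.fB87
      · have e1 : Disjoint (A ∪ {s, t}) B := by
          rw [disjoint_right]
          intro x hx
          exact (mem_Co1.1 (hBco hx)).1
        have e2 : Disjoint (G.N (A ∪ {s, t})) B := by
          rw [disjoint_right]
          intro x hx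
          exact (mem_Co1.1 (hBco hx)).2
        have e3 : Disjoint (G.N B) (A ∪ {s, t}) := by
          rw [disjoint_left]
          intro x hx hx'
          rw [mem_union, mem_insert, mem_singleton] at hx'
          rcases hx' with hx' | rfl | rfl
          · exact disjoint_left.1 hBA.2 hx hx'
          · exact hsB hx
          · exact htB hx
        intro D hD D' hD' hne
        rw [mem_insert, mem_singleton] at hD hD'
        rcases hD with rfl | rfl <;> rcases hD' with rfl | rfl
        · exact absurd rfl hne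
        · exact ⟨e1, e2⟩
        · exact ⟨e1.symm, e3⟩
        · exact absurd rfl hne
    · exact h.bigA.trans (card_le_card subset_union_left)
    · intro v hv
      obtain ⟨h1, h2⟩ := memR2_1.1 hv
      have h1' := h1
      rw [mem_union, not_or] at h1
      rcases mem_union.1 (h.sub (memR2_1.2 ⟨h1.1, h2⟩)) with h3 | h3
      · obtain ⟨-, a, ha, hav⟩ := mem_N1.1 h3
        exact mem_union_left _ (mem_N1.2 ⟨h1', a, mem_union_left _ ha, hav⟩)
      · exact mem_union_right _ h3
  refine ⟨hstrip, fun w hw h1 h2 => ?_⟩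
  obtain ⟨g1, g2⟩ := mem_K087.1 hw
  obtain ⟨g3, a, ha, haw⟩ := mem_N1.1 g1
  refine mem_K087.2 ⟨mem_N1.2 ⟨?_, a, mem_union_left _ ha, haw⟩, g2⟩
  rw [mem_union, mem_insert, mem_singleton, not_or, not_or]
  exact ⟨g3, h1, h2⟩

/-- S12b -/
theorem stEx23_38 (G : CG V) (hC : G.Crit) : G.StEx23 := by
  intro A B h hE h2
  obtain ⟨hT, hcl, hcard⟩ := hE
  rcases hcard with h6 | ⟨h4, s, t, ht, hsA, htA, hsub⟩
  · obtain ⟨u0, v0, u1, v1, u2, v2, k⟩ := frame6_38 hC h.st hT hcl h6
    exact Or.inl (k.main23 h h2)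
  · by_cases hsB : s ∈ G.N B
    · obtain ⟨u0, v0, u1, v1, k⟩ := frame4_38 hC h.st hT hcl h4 ht hsA htA hsub hsB
      exact Or.inl (k.all23 h h2)
    · have hs : s ∈ G.K0 A B := mem_K087.2 ⟨hsA, hsB⟩
      have ht0 := h.st.twK38 hs ht
      obtain ⟨x1, x2, x3⟩ := ext38 h.st hT hcl ht hsA htA hsub
      rcases h2 with h2 | h2
      · right
        have hK : G.K0 A B = {s, t} := by
          symm
          apply eq_of_subset_of_card_le
          · intro x hx
            rw [mem_insert, mem_singleton] at hx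
            rcases hx with rfl | rfl <;> assumption
          · rw [h2, card_pair (Tw_ne87 ht)]
        have hCo : G.Co B = A ∪ {s, t} := by rw [Co_eq87 h.st.symm38, hK]
        rw [hCo]
        exact ⟨x1, x2, Or.inl (by rw [x3, h4])⟩
      · left
        obtain ⟨hst, hmem⟩ := strip38 h.st h4 ht hs ht0 hsub
        have h6 : (A ∪ {s, t}).card = 6 := by rw [x3, h4]
        obtain ⟨u0, v0, u1, v1, u2, v2, k⟩ := frame6_38 hC hst x1 x2 h6
        -- the third vertex
        have hsubK : ({s, t} : Finset V) ⊆ G.K0 A B := by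
          intro x hx
          rw [mem_insert, mem_singleton] at hx
          rcases hx with rfl | rfl <;> assumption
        have h7 : (G.K0 A B \ {s, t}).card = 1 := by
          rw [card_sdiff_of_subset hsubK, card_pair (Tw_ne87 ht), h2]
        obtain ⟨x, hx⟩ := card_eq_one.1 h7
        have hxm : x ∈ G.K0 A B \ {s, t} := by rw [hx]; exact mem_singleton_self _
        obtain ⟨hxK, hxn⟩ := mem_sdiff.1 hxm
        rw [mem_insert, mem_singleton, not_or] at hxn
        have hx' := hmem x hxK hxn.1 hxn.2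
        have hK' : G.K0 (A ∪ {s, t}) B = {x} := by
          ext w
          rw [mem_singleton]
          constructor
          · intro hw
            obtain ⟨g1, g2⟩ := mem_K087.1 hw
            obtain ⟨g3, a, ha, haw⟩ := mem_N1.1 g1
            rw [mem_union, mem_insert, mem_singleton, not_or, not_or] at g3
            have hwA : w ∈ G.N A := by
              by_contra g4
              have g5 : w ∉ B := (hst.s1_87.NA g1).2
              rcases mem_union.1 (h.st.sub (memR2_1.2 ⟨g3.1, g5⟩)) with g6 | g6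
              · exact g4 g6
              · exact g2 g6
            have : w ∈ G.K0 A B \ {s, t} := by
              refine mem_sdiff.2 ⟨mem_K087.2 ⟨hwA, g2⟩, ?_⟩
              rw [mem_insert, mem_singleton, not_or]
              exact g3.2
            rw [hx, mem_singleton] at this
            exact this
          · rintro rfl
            exact hx'
        have hc1 : (G.K0 (A ∪ {s, t}) B).card = 1 := by rw [hK', card_singleton]
        refine k.main1 hc1 ?_
        intro y hy _
        obtain ⟨y', hy'⟩ := card_eq_one.1 (hst.s1_87.card_eq ▸ hc1)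
        have hyy : y = y' := by
          have : y ∈ G.N B \ G.N (A ∪ {s, t}) := hy
          rw [hy', mem_singleton] at this
          exact this
        subst hyy
        have hxy : y ∈ G.nb x := hst.s1_87.adj hK' hy'
        obtain ⟨y1, y2⟩ := mem_K087.1 hy
        have hyR := hst.s1_87.symm.NA y1
        -- `y` is in `K0 B A`
        have hyA : y ∉ G.N A := by
          intro g1
          obtain ⟨-, a, ha, hay⟩ := mem_N1.1 g1
          exact y2 (mem_N1.2 ⟨hyR.2, a, mem_union_left _ ha, hay⟩)
        have hyK : y ∈ G.K0 B A := mem_K087.2 ⟨y1, hyA⟩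
        have hxR := hst.s1_87.NA (mem_K087.1 hx').1
        -- a vertex adjacent to both
        have both : ∀ w, x ∈ G.nb w → y ∈ G.nb w → (G.nb y ∩ G.Cc (A ∪ {s, t}) B).Nonempty := by
          intro w g1 g2
          refine ⟨w, mem_inter.2 ⟨G.sym _ _ g2, ?_⟩⟩
          have g3 : w ∉ A ∪ {s, t} := fun g3 => y2 (mem_N1.2 ⟨hyR.2, w, g3, g2⟩)
          have g4 : w ∉ B := fun g4 => (mem_K087.1 hx').2 (mem_N1.2 ⟨hxR.2, w, g4, g1⟩)
          rcases hst.parts38 (memR2_1.2 ⟨g3, g4⟩) with g5 | g5 | g5
          · rw [hK', mem_singleton] at g5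
            exact absurd (g5 ▸ g1) (G.irr _)
          · have : w ∈ G.N B \ G.N (A ∪ {s, t}) := g5
            rw [hy', mem_singleton] at this
            exact absurd (this ▸ g2) (G.irr _)
          · exact g5
        rcases (stCvS_38 G) A B h x hxK y hyK hxy with c | c | c | c | c
        · obtain ⟨w, -, g1, g2, -⟩ := c
          exact both w g1 g2
        · obtain ⟨v, w, -, g1, g2, -⟩ := c
          exact both v g1 g2
        · obtain ⟨a, b, g0, -, -, g1, -⟩ := c
          exact both a g1 (HL_t76 g0)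
        · obtain ⟨a, b, g0, -, -, g1, -⟩ := c
          exact both a (HL_t76 g0) g1
        · obtain ⟨u, v, g0, g1⟩ := c
          have hyv := LL_u76 g0
          have hvB : v ∈ G.N B := by
            rcases g1 with ⟨-, g1⟩ | ⟨-, g1⟩ | ⟨-, g1⟩
            · exact (mem_Cc87.1 g1).2
            · exfalso
              have hvs : v ≠ s := by
                rintro rfl
                exact low_not_tw87 g0.2.1 ⟨t, ht⟩
              have hvt : v ≠ t := by
                rintro rfl
                exact low_not_tw87 g0.2.1 ⟨s, (stTwHL_5 G).symm _ _ ht⟩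
              have : v ∈ G.K0 A B \ {s, t} := by
                refine mem_sdiff.2 ⟨g1, ?_⟩
                rw [mem_insert, mem_singleton, not_or]
                exact ⟨hvs, hvt⟩
              rw [hx, mem_singleton] at this
              exact (LL_tb76 g0).2 this.symm
            · exact (mem_K087.1 g1).1
          have hvy : v ≠ y := by
            rintro rfl
            exact G.irr _ hyv
          refine ⟨v, mem_inter.2 ⟨G.sym _ _ hyv, ?_⟩⟩
          rcases hst.parts38 (memR2_1.2 ((hst.s1_87.symm.NA hvB).symm)) with g5 | g5 | g5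
          · exact absurd hvB (mem_K087.1 g5).2
          · have : v ∈ G.N B \ G.N (A ∪ {s, t}) := g5
            rw [hy', mem_singleton] at this
            exact absurd this hvy
          · exact g5

end CG

end Pool.Agent.Lib.MP_e95c01_co.N
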