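import Pool.Agent.Lib.MP_e95c01_co.X.StmtsS87
import Pool.Agent.Lib.MP_e95c01_co.T.Aux76
import Pool.Agent.Lib.MP_e95c01_co.U.StThin1_1

/-!
# S7 (covers in strips) and S11 (assembly for two or three vertices on each side)
-/

namespace Pool.Agent.Lib.MP_e95c01_co.N

open Finset

variable {V : Type} [Fintype V] [DecidableEq V]

namespace CG

variable {G : CG V} {A B : Finset V}

/-! ### strips -/

theorem Strip.st1_38 (h : G.Strip A B) : G.St1 A B := ⟨h.ne, h.reg, h.sub⟩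

theorem Strip.symm38 (h : G.Strip A B) : G.Strip B A := by
  have hp : ({B, A} : Finset (Finset V)) = {A, B} := pair_comm B A
  exact ⟨h.ne.symm, by rw [hp]; exact h.reg, h.bigB, h.bigA, h.n9, h.sat,
    by rw [hp, union_comm]; exact h.sub⟩

theorem Sx.symm38 (h : G.Sx A B) : G.Sx B A := by
  have hp : ({B, A} : Finset (Finset V)) = {A, B} := pair_comm B A
  exact ⟨h.st.symm38, by rw [hp]; exact h.cov, h.e2, h.e1⟩

/-- vertices of the neighbourhoods are in `R` -/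
theorem Strip.RA38 (h : G.Strip A B) {z : V} (hz : z ∈ G.N A) :
    z ∈ R ({A, B} : Finset (Finset V)) := memR2_1.2 (h.st1_38.NA hz)

theorem Strip.RB38 (h : G.Strip A B) {z : V} (hz : z ∈ G.N B) :
    z ∈ R ({A, B} : Finset (Finset V)) := memR2_1.2 ((h.st1_38.symm.NA hz).symm)

/-- the three parts of `R` -/
theorem Strip.parts38 (h : G.Strip A B) {z : V} (hz : z ∈ R ({A, B} : Finset (Finset V))) :
    z ∈ G.K0 A B ∨ z ∈ G.K0 B A ∨ z ∈ G.Cc A B := by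
  obtain ⟨h1, h2⟩ := memR2_1.1 hz
  exact h.st1_38.cases h1 h2

theorem Ik38 {z : V} (hz : z ∈ G.K0 A B) : G.I {A, B} z = {A} := St1.IA hz

theorem Il38 {z : V} (hz : z ∈ G.K0 B A) : G.I {A, B} z = {B} := by
  have hp : ({A, B} : Finset (Finset V)) = {B, A} := pair_comm A B
  rw [hp]
  exact St1.IA hz

theorem Ic38 {z : V} (hz : z ∈ G.Cc A B) : G.I {A, B} z = {A, B} := St1.IC hz

/-- two vertices of `R` in the same neighbourhoods are in the same part -/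
theorem Strip.same38 (h : G.Strip A B) {v w : V} (hv : v ∈ R ({A, B} : Finset (Finset V)))
    (_ : w ∈ R ({A, B} : Finset (Finset V))) (hI : G.I {A, B} v = G.I {A, B} w) :
    (v ∈ G.Cc A B ∧ w ∈ G.Cc A B) ∨ (v ∈ G.K0 A B ∧ w ∈ G.K0 A B) ∨
      (v ∈ G.K0 B A ∧ w ∈ G.K0 B A) := by
  have h1 : (v ∈ G.N A ↔ w ∈ G.N A) := by
    have h2 : A ∈ G.I {A, B} v ↔ A ∈ G.I {A, B} w := by rw [hI]
    rw [memI2_1, memI2_1] at h2
    simpa using h2
  have h2 : (v ∈ G.N B ↔ w ∈ G.N B) := by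
    have h2 : B ∈ G.I {A, B} v ↔ B ∈ G.I {A, B} w := by rw [hI]
    rw [memI2_1, memI2_1] at h2
    simpa using h2
  rcases h.parts38 hv with h3 | h3 | h3
  · have h4 := mem_sdiff.1 h3
    exact Or.inr (Or.inl ⟨h3, mem_sdiff.2 ⟨h1.1 h4.1, fun h5 => h4.2 (h2.2 h5)⟩⟩)
  · have h4 := mem_sdiff.1 h3
    exact Or.inr (Or.inr ⟨h3, mem_sdiff.2 ⟨h2.1 h4.1, fun h5 => h4.2 (h1.2 h5)⟩⟩)
  · have h4 := mem_inter.1 h3
    exact Or.inl ⟨h3, mem_inter.2 ⟨h1.1 h4.1, h2.1 h4.2⟩⟩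

/-- S7 -/
theorem stCvS_38 (G : CG V) : G.StCvS := by
  intro A B h x hx y hy hxy
  have hs := h.st
  have hxR : x ∈ R ({A, B} : Finset (Finset V)) := hs.RA38 (mem_sdiff.1 hx).1
  have hyR : y ∈ R ({A, B} : Finset (Finset V)) := hs.RB38 (mem_sdiff.1 hy).1
  have hm : G.m {A, B} x y = 0 := by
    rw [m, Ik38 hx, Il38 hy, Finset.card_eq_zero]
    rw [Finset.singleton_inter_of_notMem]
    rw [mem_singleton]
    exact hs.ne
  rcases h.cov x hxR y hyR hxy hm with h1 | h1 | h1 | h1 | h1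
  · obtain ⟨w, hw, h2, h3, h4⟩ := h1
    refine Or.inl ⟨w, h2, h3, h4, ?_⟩
    rcases hs.parts38 hw with h5 | h5 | h5
    · exact Or.inr (Or.inl h5)
    · exact Or.inr (Or.inr h5)
    · exact Or.inl h5
  · obtain ⟨v, hv, w, hw, h2, h3, h4, h5, h6⟩ := h1
    refine Or.inr (Or.inl ⟨v, w, h2, h3, h4, Tw_nb5 h2 h3 h5, Tw_nb5 h2 h4 h6, ?_⟩)
    exact hs.same38 hv hw ((stTwHL_5 G).twI _ hs.reg v hv w h2).2.symm
  · obtain ⟨a, ha, b, hb, h2, h3, h4⟩ := h1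
    refine Or.inr (Or.inr (Or.inr (Or.inl ⟨a, b, h2, hs.sat _ _ _ h2, h3,
      HL_sub76 h2 h3 h4, ?_⟩)))
    exact hs.same38 ha hb (HL_I76 h2 ha hb hxR)
  · obtain ⟨a, ha, b, hb, h2, h3, h4⟩ := h1
    refine Or.inr (Or.inr (Or.inl ⟨a, b, h2, hs.sat _ _ _ h2, h3, HL_sub76 h2 h3 h4, ?_⟩))
    exact hs.same38 ha hb (HL_I76 h2 ha hb hyR)
  · obtain ⟨a, ha, b, hb, h2⟩ := h1
    refine Or.inr (Or.inr (Or.inr (Or.inr ⟨a, b, h2, ?_⟩)))
    exact hs.same38 ha hb (LL_I76 h2 ha hb hxR hyR)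

/-! ### assembly -/

/-- a twin of a vertex of `K0 A B` is in `K0 A B` -/
theorem Strip.twK38 (h : G.Strip A B) {x x' : V} (hx : x ∈ G.K0 A B) (ht : G.Tw x x') :
    x' ∈ G.K0 A B := by
  have hxR : x ∈ R ({A, B} : Finset (Finset V)) := h.RA38 (mem_sdiff.1 hx).1
  have h1 := (stTwHL_5 G).twI _ h.reg x hxR x' ht
  rcases h.same38 hxR h1.1 h1.2.symm with h2 | h2 | h2
  · exact absurd (mem_inter.1 h2.1).2 (mem_sdiff.1 hx).2
  · exact h2.2
  · exact absurd (mem_sdiff.1 h2.1).1 (mem_sdiff.1 hx).2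

theorem Strip.cardK38 (h : G.Strip A B) : (G.K0 B A).card = (G.K0 A B).card :=
  (h.st1_38.card_eq).symm

theorem Strip.two38 (h : G.Strip A B) (h2 : (G.K0 A B).card = 2)
    (ht : ∃ x ∈ G.K0 A B, G.IsTw x) : ∃ X X', G.Tw X X' ∧ G.K0 A B = {X, X'} := by
  obtain ⟨X, hX, X', hT⟩ := ht
  refine ⟨X, X', hT, ?_⟩
  have hX' := h.twK38 hX hT
  symm
  apply Finset.eq_of_subset_of_card_le
  · intro z hz
    rw [mem_insert, mem_singleton] at hz
    rcases hz with rfl | rfl <;> assumption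
  · rw [Finset.card_pair (ne_of_nb5 hT.1), h2]

theorem Strip.three38 (h : G.Strip A B) (h3 : (G.K0 A B).card = 3)
    (ht : ∃ x ∈ G.K0 A B, G.IsTw x) : ∃ X X' x, G.Tw X X' ∧ G.K0 A B = {X, X', x} := by
  obtain ⟨X, hX, X', hT⟩ := ht
  have hX' := h.twK38 hX hT
  have hsub : ({X, X'} : Finset V) ⊆ G.K0 A B := by
    intro z hz
    rw [mem_insert, mem_singleton] at hz
    rcases hz with rfl | rfl <;> assumption
  have h4 : (G.K0 A B \ {X, X'}).card = 1 := by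
    rw [Finset.card_sdiff_of_subset hsub, Finset.card_pair (ne_of_nb5 hT.1), h3]
  obtain ⟨x, hx⟩ := Finset.card_eq_one.1 h4
  refine ⟨X, X', x, hT, ?_⟩
  have h5 : G.K0 A B = {X, X'} ∪ (G.K0 A B \ {X, X'}) := (Finset.union_sdiff_of_subset hsub).symm
  rw [h5, hx]
  ext z
  simp only [mem_union, mem_insert, mem_singleton, or_assoc]

/-- S11 -/
theorem stTh23_38 (G : CG V) (h2s : G.StTh2s) (h2x : G.StTh2x) (h2xy : G.StTh2xy)
    (h3s : G.StTh3s) (h3x : G.StTh3x) (h3xy : G.StTh3xy) : G.StTh23 := by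
  intro A B h hc
  have hp : ({B, A} : Finset (Finset V)) = {A, B} := pair_comm B A
  have hcB := h.st.cardK38
  by_cases hA : ∃ x ∈ G.K0 A B, G.IsTw x
  · by_cases hB : ∃ y ∈ G.K0 B A, G.IsTw y
    · rcases hc with hc | hc
      · exact h2xy A B h hc (h.st.two38 hc hA) (h.st.symm38.two38 (hcB.trans hc) hB)
      · exact h3xy A B h hc (h.st.three38 hc hA) (h.st.symm38.three38 (hcB.trans hc) hB)
    · have hB' : ∀ y ∈ G.K0 B A, ¬ G.IsTw y := fun y hy hty => hB ⟨y, hy, hty⟩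
      rcases hc with hc | hc
      · exact h2x A B h hc (h.st.two38 hc hA) hB'
      · exact h3x A B h hc (h.st.three38 hc hA) hB'
  · have hA' : ∀ x ∈ G.K0 A B, ¬ G.IsTw x := fun x hx htx => hA ⟨x, hx, htx⟩
    by_cases hB : ∃ y ∈ G.K0 B A, G.IsTw y
    · rcases hc with hc | hc
      · have h1 := h2x B A h.symm38 (hcB.trans hc) (h.st.symm38.two38 (hcB.trans hc) hB) hA'
        rwa [hp] at h1
      · have h1 := h3x B A h.symm38 (hcB.trans hc) (h.st.symm38.three38 (hcB.trans hc) hB) hA'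
        rwa [hp] at h1
    · have hB' : ∀ y ∈ G.K0 B A, ¬ G.IsTw y := fun y hy hty => hB ⟨y, hy, hty⟩
      rcases hc with hc | hc
      · exact h2s A B h hc hA' hB'
      · exact h3s A B h hc hA' hB'

end CG

end Pool.Agent.Lib.MP_e95c01_co.N
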