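import Pool.Agent.Lib.MP_e95c01_co.X.SP_87
import Pool.Agent.Lib.MP_e95c01_co.X.Ident50
import Pool.Agent.Lib.MP_e95c01_co.X.S7_38

/-!
# S12: values of the vertices of `N B`, seen from `Co B`
-/

namespace Pool.Agent.Lib.MP_e95c01_co.N

open Finset

variable {V : Type} [Fintype V] [DecidableEq V]

namespace CG

variable {G : CG V} {A B : Finset V}

/-- the contribution of `z ∈ N B` to `P5 (Co B)` -/
noncomputable def vv38 (G : CG V) (B : Finset V) (z : V) : ℤ := G.B5 B z + G.phi B z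

theorem P5Co38 (hB : G.Frag B) :
    G.P5 (G.Co B) = ∑ v ∈ G.Co B, 2 * G.a5 v + ∑ w ∈ G.N B, vv38 G B w := by
  rw [P5, NCo87 hB, CoCo87 hB]
  rfl

theorem a5_low38 {z : V} (h : G.Low z) : G.a5 z = 4 := by rw [a5, if_pos h]

theorem a5_nlow38 {z : V} (h : ¬ G.Low z) : G.a5 z = -2 := by rw [a5, if_neg h]

theorem c5_low38 {z : V} (h : G.Low z) : G.c5 z = 2 := by rw [c5, if_pos h]

theorem c5_tw38 {z : V} (h : G.IsTw z) : G.c5 z = 1 := by
  rw [c5, if_neg fun h1 => low_not_tw87 h1 h, if_pos h]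

theorem c5_hub38 {z : V} (h : ¬ G.Low z) (h' : ¬ G.IsTw z) : G.c5 z = 0 := by
  rw [c5, if_neg h, if_neg h']

/-- a hub -/
theorem vv_hub38 {z : V} (h : ¬ G.Low z) (h' : ¬ G.IsTw z) : vv38 G B z = -2 := by
  rw [vv38, B5, phi_hub87 h h', a5_nlow38 h, c5_hub38 h h']
  ring

/-- a low vertex without its flags -/
theorem B5_low38 {z : V} (h : G.Low z) :
    G.B5 B z = 4 * ((G.pO B z).card : ℤ) + 2 * ((G.pT B z).card : ℤ) - 8 := by
  have h1 := nb_split87 (G := G) B z
  have h2 : (G.nb z).card = 6 := h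
  rw [B5, a5_low38 h, c5_low38 h]
  change 4 + 2 * (((G.pO B z).card : ℤ) - ((G.pX B z).card : ℤ)) = _
  omega

open Classical in
/-- a low vertex -/
theorem vv_low38 {z : V} (h : G.Low z) :
    4 * ((G.pO B z).card : ℤ) + 2 * ((G.pT B z).card : ℤ) - 8 + G.s5 (G.Co B) z
      - (if (G.pO B z).card = 3 ∧ (G.pT B z).card = 1 then 2 else 0)
      - 2 * (if G.U3 B z then 1 else 0) - 2 * (if G.T3 (G.Co B) z then 1 else 0)
      - 2 * (if G.HF (G.Co B) z then 1 else 0) ≤ vv38 G B z := by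
  rw [vv38, B5_low38 h, phi_low87 h]
  have h1 : G.s5 B z ≤ if (G.pO B z).card = 3 ∧ (G.pT B z).card = 1 then 2 else 0 := by
    split_ifs with h2
    · exact s5_le87 B z
    · by_contra h3
      push Not at h3
      have h4 := (stTy5_87 G).s2 B z (by omega)
      exact h2 ⟨h4.2.2.2.2.1, h4.2.2.2.1⟩
  have h2 : (0 : ℤ) ≤ if G.U3 (G.Co B) z then 1 else 0 := by split_ifs <;> norm_num
  have h3 : (0 : ℤ) ≤ if G.T3 B z then 1 else 0 := by split_ifs <;> norm_num
  have h4 : (0 : ℤ) ≤ if G.HF B z then 1 else 0 := by split_ifs <;> norm_num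
  linarith

/-- numbers of the flags of a low vertex -/
theorem fl38 (hB : G.Frag B) {z : V} :
    (G.U3 B z → (G.pO B z).card = 1 ∧ (G.pT B z).card = 2) ∧
    (G.T3 (G.Co B) z → (G.pO B z).card = 2 ∧ (G.pT B z).card = 2) ∧
    (G.HF (G.Co B) z → (G.pO B z).card = 4 ∧ (G.pT B z).card = 1) := by
  refine ⟨fun h => ?_, fun h => ?_, fun h => ?_⟩
  · obtain ⟨-, h1, h2⟩ := (stTy5_87 G).u3 B z h
    exact ⟨h2, h1⟩
  · obtain ⟨h1, h2, -⟩ := (stTy5_87 G).t3 _ z h
    rw [pTCo87 hB] at h2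
    exact ⟨h1, h2⟩
  · obtain ⟨h1, h2, -⟩ := (stTy5_87 G).hf _ z h
    rw [pTCo87 hB] at h2
    exact ⟨h1, h2⟩

/-- low vertices with at least two neighbours in `Co B` -/
theorem vv_ge38 (hB : G.Frag B) {z : V} (h : G.Low z) :
    ((G.pO B z).card = 1 → ¬ G.U3 B z → 1 ≤ (G.pT B z).card → -2 ≤ vv38 G B z) ∧
    ((G.pO B z).card = 2 → 0 ≤ vv38 G B z) ∧
    ((G.pO B z).card = 2 → ¬ G.T3 (G.Co B) z →
      2 * ((G.pT B z).card : ℤ) + G.s5 (G.Co B) z ≤ vv38 G B z) ∧
    ((G.pO B z).card = 3 → 4 ≤ vv38 G B z) ∧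
    ((G.pO B z).card = 4 → 8 ≤ vv38 G B z) ∧
    ((G.pO B z).card = 4 → (G.pT B z).card = 1 → ¬ G.HF (G.Co B) z → 10 ≤ vv38 G B z) ∧
    ((G.pO B z).card = 5 → 12 ≤ vv38 G B z) := by
  classical
  have h1 := vv_low38 (B := B) h
  obtain ⟨hu, ht, hh⟩ := fl38 hB (z := z)
  have h2 := s5_nonneg87 (G := G) (G.Co B) z
  refine ⟨fun e e1 e2 => ?_, fun e => ?_, fun e e1 => ?_, fun e => ?_, fun e => ?_,
    fun e e1 e2 => ?_, fun e => ?_⟩
  · rw [if_neg (by omega), if_neg e1, if_neg fun h => by have := ht h; omega,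
      if_neg fun h => by have := hh h; omega] at h1
    omega
  · rw [if_neg (by omega), if_neg fun h => by have := hu h; omega,
      if_neg (c := G.HF _ _) fun h => by have := hh h; omega] at h1
    split_ifs at h1 with h3
    · have := ht h3
      omega
    · omega
  · rw [if_neg (by omega), if_neg fun h => by have := hu h; omega, if_neg e1,
      if_neg fun h => by have := hh h; omega] at h1
    omega
  · rw [if_neg (c := G.U3 _ _) fun h => by have := hu h; omega,
      if_neg (c := G.T3 _ _) fun h => by have := ht h; omega,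
      if_neg (c := G.HF _ _) fun h => by have := hh h; omega] at h1
    split_ifs at h1 with h3 <;> omega
  · rw [if_neg (by omega), if_neg (c := G.U3 _ _) fun h => by have := hu h; omega,
      if_neg (c := G.T3 _ _) fun h => by have := ht h; omega] at h1
    split_ifs at h1 with h3
    · have := hh h3
      omega
    · omega
  · rw [if_neg (by omega), if_neg (c := G.U3 _ _) fun h => by have := hu h; omega,
      if_neg (c := G.T3 _ _) fun h => by have := ht h; omega, if_neg e2] at h1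
    omega
  · rw [if_neg (by omega), if_neg (c := G.U3 _ _) fun h => by have := hu h; omega,
      if_neg (c := G.T3 _ _) fun h => by have := ht h; omega,
      if_neg (c := G.HF _ _) fun h => by have := hh h; omega] at h1
    omega

open Classical in
/-- a twin vertex -/
theorem vv_tw38 {z : V} (h : G.IsTw z) :
    vv38 G B z = 2 * ((G.pO B z).card : ℤ) + ((G.pT B z).card : ℤ) - 9
      + (if G.RF B z then 1 else 0) - (if G.RF (G.Co B) z then 1 else 0) := by
  have h1 := nb_split87 (G := G) B z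
  have h0 := h
  obtain ⟨w, hw⟩ := h0
  have h2 : (G.nb z).card = 7 := Tw_card87 hw
  have h3 : ¬ G.Low z := fun h4 => low_not_tw87 h4 h
  rw [vv38, B5, a5_nlow38 h3, c5_tw38 h, phi_tw87 h]
  change -2 + 1 * (((G.pO B z).card : ℤ) - ((G.pX B z).card : ℤ)) + _ = _
  have h4 : ((G.pX B z).card : ℤ) = 7 - (G.pO B z).card - (G.pT B z).card := by omega
  rw [h4]
  ring

end CG

end Pool.Agent.Lib.MP_e95c01_co.N
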