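import Pool.Agent.Lib.MP_e95c01_co.X.E1_38

/-!
# S12: pairs of ports
-/

namespace Pool.Agent.Lib.MP_e95c01_co.N

open Finset

variable {V : Type} [Fintype V] [DecidableEq V]

namespace CG

variable {G : CG V} {A B : Finset V}

/-- a pair of ports of a pair of twins of `A` -/
structure PP38 (G : CG V) (A : Finset V) (u v : V) : Prop where
  mu : u ∈ G.N A
  mv : v ∈ G.N A
  lu : G.Low u
  lv : G.Low v
  adj : v ∈ G.nb u
  q : ∃ q q', G.Tw q q' ∧ G.nb u ∩ A = {q, q'} ∧ G.nb v ∩ A = {q, q'}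

theorem PP38.symm {u v : V} (p : PP38 G A u v) : PP38 G A v u := by
  obtain ⟨q, q', h1, h2, h3⟩ := p.q
  exact ⟨p.mv, p.mu, p.lv, p.lu, G.sym _ _ p.adj, q, q', h1, h3, h2⟩

/-- number of neighbours in `K0 A B` -/
def ka38 (G : CG V) (A B : Finset V) (z : V) : ℕ := (G.nb z ∩ G.K0 A B).card

theorem PP38.f (h : G.Strip A B) {u v : V} (p : PP38 G A u v) :
    (G.pO B u).card = 2 + ka38 G A B u := by
  obtain ⟨q, q', h1, h2, -⟩ := p.q
  rw [pO_card87 h.symm38 u]
  have h3 : (G.pX A u).card = 2 := by rw [pX, h2, card_pair (Tw_ne87 h1)]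
  rw [h3, ka38]

/-- one port -/
theorem PP38.one (h : G.Strip A B) {u v : V} (p : PP38 G A u v) (hu : u ∈ G.N B)
    (hk : 1 ≤ ka38 G A B u) : 4 * (ka38 G A B u : ℤ) ≤ vv38 G B u := by
  have h1 := p.f h
  have h2 := nb_split87 (G := G) B u
  have h3 : (G.nb u).card = 6 := p.lu
  have h4 := pX_pos87 hu
  obtain ⟨-, -, -, e3, e4, -, e5⟩ := vv_ge38 h.fB87 p.lu
  have h5 : ka38 G A B u = 1 ∨ ka38 G A B u = 2 ∨ ka38 G A B u = 3 := by omega
  rcases h5 with h5 | h5 | h5
  · have := e3 (by omega)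
    omega
  · have := e4 (by omega)
    omega
  · have := e5 (by omega)
    omega

/-- a port of a pair without neighbours in `K0 A B` -/
theorem PP38.zero (h : G.Strip A B) {u v : V} (p : PP38 G A u v) (hu : u ∈ G.N B)
    (hv : v ∈ G.N B) (hk : ka38 G A B u = 0) : 4 ≤ vv38 G B u ∨
      (ka38 G A B v = 2 ∧ 2 ≤ vv38 G B u ∧ 10 ≤ vv38 G B v) ∨
      (ka38 G A B v = 0 ∧ 2 ≤ vv38 G B u ∧ G.pT B u = {v} ∧
        (G.pT B v = {u} → 3 ≤ vv38 G B u)) := by
  classical
  have h1 := p.f h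
  have h1' := p.symm.f h
  have hvT : v ∈ G.pT B u := mem_inter.2 ⟨p.adj, hv⟩
  have huT : u ∈ G.pT B v := mem_inter.2 ⟨G.sym _ _ p.adj, hu⟩
  have ht : 1 ≤ (G.pT B u).card := by
    rw [Nat.succ_le_iff, card_pos]
    exact ⟨v, hvT⟩
  have hfB := h.fB87
  have hT3 : ¬ G.T3 (G.Co B) u := by
    rintro ⟨-, -, -, Q, Q', r, r', x, h2, -, -, h3, -⟩
    rw [pTCo87 hfB] at h3
    rw [h3, mem_insert, mem_singleton] at hvT
    rcases hvT with rfl | rfl
    · exact low_not_tw87 p.lv ⟨_, h2⟩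
    · exact low_not_tw87 p.lv ⟨_, (stTwHL_5 G).symm _ _ h2⟩
  obtain ⟨-, -, e2, -, -, -, -⟩ := vv_ge38 hfB p.lu
  have h2 := e2 (by omega) hT3
  have hs := s5_nonneg87 (G := G) (G.Co B) u
  by_cases h3 : 2 ≤ (G.pT B u).card
  · left
    omega
  have h4 : (G.pT B u).card = 1 := by omega
  have h5 : G.pT B u = {v} := by
    obtain ⟨x, hx⟩ := card_eq_one.1 h4
    rw [hx, mem_singleton] at hvT
    rw [hx, hvT]
  by_cases hex : G.pT B v = {u} ∧ (G.pX B v).card = 1
  · right
    left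
    have h6 := nb_split87 (G := G) B v
    have h7 : (G.nb v).card = 6 := p.lv
    have h8 : (G.pT B v).card = 1 := by rw [hex.1, card_singleton]
    have h9 := hex.2
    have hHF : ¬ G.HF (G.Co B) v := by
      rintro ⟨-, -, -, a, b, h10, -, -, h11⟩
      rw [pTCo87 hfB, hex.1, singleton_inj] at h11
      exact HL_a87 h10 (h11 ▸ p.lu)
    obtain ⟨-, -, -, -, -, e4, -⟩ := vv_ge38 hfB p.lv
    have h10 := e4 (by omega) h8 hHF
    exact ⟨by omega, by omega, h10⟩
  · obtain ⟨q, q', g1, g2, g3⟩ := p.q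
    have hS0 : G.S0 (G.Co B) u v := by
      refine ⟨by rw [NCo87 hfB]; exact hu, p.lu, p.lv, by rw [pTCo87 hfB]; exact h5,
        ⟨q, q', g1, ?_, ?_⟩, ?_⟩
      · rw [pXCo87, pO_eq87 h.symm38]
        rw [ka38, Finset.card_eq_zero] at hk
        rw [hk, union_empty]
        exact g2
      · have : q ∈ G.nb v ∩ A := by rw [g3]; exact mem_insert_self _ _
        exact (mem_inter.1 this).1
      · rw [pTCo87 hfB, pOCo87 hfB]
        exact hex
    by_cases hLL : G.LLs (G.Co B) u v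
    · right
      right
      have h6 := hLL.2
      rw [pXCo87, pXCo87] at h6
      have h7 : (G.pO B v).card = (G.pO B u).card := by rw [h6]
      refine ⟨by omega, by omega, h5, fun h8 => ?_⟩
      have h9 : 1 ≤ G.s5 (G.Co B) u := by
        rw [s5]
        split_ifs with c1 c2
        · norm_num
        · norm_num
        · exact absurd ⟨v, hS0, by rw [pTCo87 hfB]; exact h8⟩ c2
      omega
    · left
      have h9 : G.s5 (G.Co B) u = 2 := by
        rw [s5, if_pos ⟨v, hS0, hLL⟩]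
      omega

/-- two ports -/
theorem PP38.two (h : G.Strip A B) {u v : V} (p : PP38 G A u v) (hu : u ∈ G.N B)
    (hv : v ∈ G.N B) : 6 ≤ vv38 G B u + vv38 G B v ∧
      4 * ((ka38 G A B u : ℤ) + ka38 G A B v) ≤ vv38 G B u + vv38 G B v ∧
      (1 ≤ ka38 G A B u + ka38 G A B v → 8 ≤ vv38 G B u + vv38 G B v) ∧
      (2 ≤ ka38 G A B u ∨ 2 ≤ ka38 G A B v → 12 ≤ vv38 G B u + vv38 G B v) := by
  have hU := p.zero h hu hv
  have hV := p.symm.zero h hv hu
  have h1 := p.one h hu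
  have h2 := p.symm.one h hv
  by_cases ku : ka38 G A B u = 0
  · have hU' := hU ku
    by_cases kv : ka38 G A B v = 0
    · have hV' := hV kv
      rcases hU' with a1 | ⟨a1, -, -⟩ | ⟨-, a1, a2, a3⟩
      · rcases hV' with b1 | ⟨b1, -, -⟩ | ⟨-, b1, b2, b3⟩
        · omega
        · omega
        · omega
      · omega
      · rcases hV' with b1 | ⟨b1, -, -⟩ | ⟨-, b1, b2, b3⟩
        · omega
        · omega
        · have := a3 b2
          have := b3 a2
          omega
    · have h2' := h2 (by omega)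
      rcases hU' with a1 | ⟨a1, a2, a3⟩ | ⟨a1, -, -, -⟩
      · omega
      · omega
      · omega
  · have h1' := h1 (by omega)
    by_cases kv : ka38 G A B v = 0
    · have hV' := hV kv
      rcases hV' with a1 | ⟨a1, a2, a3⟩ | ⟨a1, -, -, -⟩
      · omega
      · omega
      · omega
    · have h2' := h2 (by omega)
      omega

end CG

end Pool.Agent.Lib.MP_e95c01_co.N
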