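import Pool.Agent.Lib.MP_e95c01_co.X.E2_38

/-!
# S12: the sum over `N A` and over `K0 B A`
-/

namespace Pool.Agent.Lib.MP_e95c01_co.N

open Finset

variable {V : Type} [Fintype V] [DecidableEq V]

namespace CG

variable {G : CG V} {A B : Finset V}

/-- contribution of a vertex of `N A` -/
noncomputable def con38 (G : CG V) (B : Finset V) (w : V) : ℤ :=
  if w ∈ G.N B then vv38 G B w else 2 * G.a5 w

/-- number of neighbours in `K0 A B` of a common vertex -/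
def kk38 (G : CG V) (A B : Finset V) (w : V) : ℕ := if w ∈ G.N B then ka38 G A B w else 0

omit [Fintype V] in
theorem six38 {a b c d e f : V} (h : ({a, b, c, d, e, f} : Finset V).card = 6) :
    a ∉ ({b, c, d, e, f} : Finset V) ∧ b ∉ ({c, d, e, f} : Finset V) ∧
      c ∉ ({d, e, f} : Finset V) ∧ d ∉ ({e, f} : Finset V) ∧ e ≠ f := by
  have h1 := card_insert_le a ({b, c, d, e, f} : Finset V)
  have h2 := card_insert_le b ({c, d, e, f} : Finset V)
  have h3 := card_insert_le c ({d, e, f} : Finset V)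
  have h4 := card_insert_le d ({e, f} : Finset V)
  have h5 : ({e, f} : Finset V).card ≤ 2 := card_le_two
  refine ⟨fun k => ?_, fun k => ?_, fun k => ?_, fun k => ?_, fun k => ?_⟩
  · rw [insert_eq_of_mem k] at h
    omega
  · rw [insert_eq_of_mem k] at h h1 h2
    omega
  · rw [insert_eq_of_mem k] at h h1 h2 h3
    omega
  · rw [insert_eq_of_mem k] at h h1 h2 h3 h4
    omega
  · subst k
    rw [pair_eq_singleton] at h h1 h2 h3 h4 h5
    rw [card_singleton] at h4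
    omega

omit [Fintype V] in
theorem sum_six38 {M : Type} [AddCommMonoid M] {a b c d e f : V}
    (h : ({a, b, c, d, e, f} : Finset V).card = 6) (g : V → M) :
    ∑ x ∈ ({a, b, c, d, e, f} : Finset V), g x = g a + (g b + (g c + (g d + (g e + g f)))) := by
  obtain ⟨h1, h2, h3, h4, h5⟩ := six38 h
  rw [sum_insert h1, sum_insert h2, sum_insert h3, sum_insert h4, sum_pair h5]

theorem NA_eq38 (G : CG V) (A B : Finset V) : G.N A = G.K0 A B ∪ G.Cc A B := by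
  ext v
  rw [mem_union, mem_K087, mem_Cc87]
  tauto

theorem NB_eq38 (G : CG V) (A B : Finset V) : G.N B = G.K0 B A ∪ G.Cc A B := by
  ext v
  rw [mem_union, mem_K087, mem_Cc87]
  tauto

theorem disj38 (G : CG V) (A B : Finset V) : Disjoint (G.K0 A B) (G.Cc A B) := by
  rw [disjoint_left]
  intro v h1 h2
  exact (mem_K087.1 h1).2 (mem_Cc87.1 h2).2

theorem disj38' (G : CG V) (A B : Finset V) : Disjoint (G.K0 B A) (G.Cc A B) := by
  rw [disjoint_left]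
  intro v h1 h2
  exact (mem_K087.1 h1).2 (mem_Cc87.1 h2).1

/-- the formula -/
theorem P5_split38 (h : G.Strip A B) : G.P5 (G.Co B) = ∑ v ∈ A, 2 * G.a5 v +
    ∑ w ∈ G.N A, con38 G B w + ∑ y ∈ G.K0 B A, vv38 G B y := by
  have h1 : Disjoint A (G.K0 A B) := by
    rw [disjoint_left]
    intro v hv hv'
    exact (mem_N1.1 (mem_K087.1 hv').1).1 hv
  have h2 : ∑ w ∈ G.K0 A B, con38 G B w = ∑ w ∈ G.K0 A B, 2 * G.a5 w := by
    refine sum_congr rfl fun w hw => ?_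
    rw [con38, if_neg (mem_K087.1 hw).2]
  have h3 : ∑ w ∈ G.Cc A B, con38 G B w = ∑ w ∈ G.Cc A B, vv38 G B w := by
    refine sum_congr rfl fun w hw => ?_
    rw [con38, if_pos (mem_Cc87.1 hw).2]
  rw [P5Co38 h.fB87, Co_eq87 h.symm38, sum_union h1, NB_eq38 G A B, sum_union (disj38' G A B),
    NA_eq38 G A B, sum_union (disj38 G A B), h2, h3]
  ring

/-- the neighbours in `K0 A B` of the common vertices -/
theorem kk_sum38 (G : CG V) (A B : Finset V) :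
    ∑ w ∈ G.N A, kk38 G A B w = ∑ x ∈ G.K0 A B, (G.nb x ∩ G.Cc A B).card := by
  have h2 : ∑ w ∈ G.K0 A B, kk38 G A B w = 0 := by
    refine sum_eq_zero fun w hw => ?_
    rw [kk38, if_neg (mem_K087.1 hw).2]
  have h3 : ∑ w ∈ G.Cc A B, kk38 G A B w = ∑ w ∈ G.Cc A B, ∑ x ∈ G.K0 A B,
      (if x ∈ G.nb w then 1 else 0) := by
    refine sum_congr rfl fun w hw => ?_
    rw [kk38, if_pos (mem_Cc87.1 hw).2, ka38, inter_comm, ← filter_mem_eq_inter, card_filter]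
  rw [NA_eq38 G A B, sum_union (disj38 G A B), h2, h3, zero_add, sum_comm]
  refine sum_congr rfl fun x _ => ?_
  rw [inter_comm, ← filter_mem_eq_inter, card_filter]
  refine sum_congr rfl fun w _ => ?_
  have : x ∈ G.nb w ↔ w ∈ G.nb x := ⟨G.sym _ _, G.sym _ _⟩
  simp only [this]

/-- the degree of a vertex of `K0 A B` -/
theorem degK38 (h : G.Strip A B) {x : V} (hx : x ∈ G.K0 A B) : (G.nb x).card =
    (G.nb x ∩ A).card + (G.nb x ∩ G.K0 A B).card + (G.nb x ∩ G.Cc A B).card +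
      (G.nb x ∩ G.K0 B A).card := by
  have h1 := nb_split87 (G := G) A x
  rw [pT_card87 A B x, pO_card87 h x] at h1
  have h2 : (G.pX B x).card = 0 := by
    rw [Finset.card_eq_zero, eq_empty_iff_forall_notMem]
    intro v hv
    obtain ⟨hv1, hv2⟩ := mem_inter.1 hv
    have h3 := mem_K087.1 hx
    exact h3.2 (mem_N1.2 ⟨(h.s1_87.NA h3.1).2, v, hv2, G.sym _ _ hv1⟩)
  rw [pX] at h1
  omega

/-- `pO` for a vertex of `K0 B A` -/
theorem pOK38 (h : G.Strip A B) {y : V} (hy : y ∈ G.K0 B A) :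
    G.pO B y = G.nb y ∩ G.K0 A B := by
  rw [pO_eq87 h.symm38]
  have h2 : G.pX A y = ∅ := by
    rw [eq_empty_iff_forall_notMem]
    intro v hv
    obtain ⟨hv1, hv2⟩ := mem_inter.1 hv
    have h3 := mem_K087.1 hy
    exact h3.2 (mem_N1.2 ⟨(h.s1_87.symm.NA h3.1).2, v, hv2, G.sym _ _ hv1⟩)
  rw [h2, empty_union]

/-- frame for the computation -/
structure Gf38 (G : CG V) (A B : Finset V) (b : ℤ) (u0 v0 u1 v1 s t : V) : Prop where
  st : G.Strip A B
  sa : ∑ v ∈ A, 2 * G.a5 v = b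
  NA : G.N A = {u0, v0, u1, v1, s, t}
  p0 : PP38 G A u0 v0
  p1 : PP38 G A u1 v1
  sB : s ∈ G.N B
  tB : t ∈ G.N B
  th0 : -18 ≤ b + vv38 G B s + vv38 G B t
  th1 : 1 ≤ ka38 G A B s + ka38 G A B t → -16 ≤ b + vv38 G B s + vv38 G B t
  th2 : 2 ≤ ka38 G A B s ∨ 2 ≤ ka38 G A B t → -12 ≤ b + vv38 G B s + vv38 G B t
  kq : ∀ x, (x = u0 ∨ x = v0) → ∀ y, (y = u1 ∨ y = v1) →
    ∃ q q1, G.K6 q q1 ∧ q ∈ G.nb x ∧ q1 ∈ G.nb y
  tw : ∀ z ∈ G.Cc A B, G.IsTw z → ∀ y ∈ G.K0 B A, y ∉ G.nb z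

namespace Gf38

variable {b : ℤ} {u0 v0 u1 v1 s t : V}

theorem c6 (k : Gf38 G A B b u0 v0 u1 v1 s t) :
    ({u0, v0, u1, v1, s, t} : Finset V).card = 6 := by
  rw [← k.NA]
  exact k.st.fA87.2.1

theorem total (k : Gf38 G A B b u0 v0 u1 v1 s t) : G.P5 (G.Co B) = b + con38 G B u0 +
    con38 G B v0 + con38 G B u1 + con38 G B v1 + vv38 G B s + vv38 G B t +
    ∑ y ∈ G.K0 B A, vv38 G B y := by
  rw [P5_split38 k.st, k.sa, k.NA, sum_six38 k.c6]
  have h1 : con38 G B s = vv38 G B s := by rw [con38, if_pos k.sB]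
  have h2 : con38 G B t = vv38 G B t := by rw [con38, if_pos k.tB]
  rw [h1, h2]
  ring

theorem ktotal (k : Gf38 G A B b u0 v0 u1 v1 s t) : kk38 G A B u0 + kk38 G A B v0 +
    kk38 G A B u1 + kk38 G A B v1 + ka38 G A B s + ka38 G A B t =
    ∑ x ∈ G.K0 A B, (G.nb x ∩ G.Cc A B).card := by
  rw [← kk_sum38, k.NA, sum_six38 k.c6]
  have h1 : kk38 G A B s = ka38 G A B s := by rw [kk38, if_pos k.sB]
  have h2 : kk38 G A B t = ka38 G A B t := by rw [kk38, if_pos k.tB]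
  rw [h1, h2]
  ring

theorem swap0 (k : Gf38 G A B b u0 v0 u1 v1 s t) : Gf38 G A B b v0 u0 u1 v1 s t := by
  refine ⟨k.st, k.sa, ?_, k.p0.symm, k.p1, k.sB, k.tB, k.th0, k.th1, k.th2, ?_, k.tw⟩
  · rw [k.NA]
    exact Finset.insert_comm _ _ _
  · intro x hx y hy
    exact k.kq x hx.symm y hy

theorem swap1 (k : Gf38 G A B b u0 v0 u1 v1 s t) : Gf38 G A B b u0 v0 v1 u1 s t := by
  refine ⟨k.st, k.sa, ?_, k.p0, k.p1.symm, k.sB, k.tB, k.th0, k.th1, k.th2, ?_, k.tw⟩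
  · rw [k.NA, Finset.insert_comm u1 v1]
  · intro x hx y hy
    exact k.kq x hx y hy.symm

theorem K6_symm38 (n9 : 9 ≤ Fintype.card V) {q q1 : V} (h : G.K6 q q1) : G.K6 q1 q := by
  obtain ⟨q0', q1', q2, q2', h1, h2, h3, h4, h5, h6, h7, h8, h9⟩ := h
  refine ⟨q1', q0', q2, q2', h2, h1, h3, G.sym _ _ h4, h6, h5, ?_, h9, h8⟩
  rintro rfl
  exact h7 ((stTwHL_5 G).uniq n9 _ _ _ ((stTwHL_5 G).symm _ _ h2) h1)

theorem swap (k : Gf38 G A B b u0 v0 u1 v1 s t) : Gf38 G A B b u1 v1 u0 v0 s t := by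
  refine ⟨k.st, k.sa, ?_, k.p1, k.p0, k.sB, k.tB, k.th0, k.th1, k.th2, ?_, k.tw⟩
  · rw [k.NA]
    ext z
    simp only [mem_insert, mem_singleton]
    tauto
  · intro x hx y hy
    obtain ⟨q, q1, h1, h2, h3⟩ := k.kq y hy x hx
    exact ⟨q1, q, K6_symm38 k.st.n9 h1, h3, h2⟩

end Gf38

end CG

end Pool.Agent.Lib.MP_e95c01_co.N
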