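import Pool.Agent.Lib.MP_e95c01_co.X.E3_38

/-!
# S12: the value of `P5 (Co B)` in a frame
-/

namespace Pool.Agent.Lib.MP_e95c01_co.N

open Finset

variable {V : Type} [Fintype V] [DecidableEq V]

namespace CG

variable {G : CG V} {A B : Finset V}

/-! ### the vertices of `K0 B A` -/

theorem Strip.card_eq38 (h : G.Strip A B) : (G.K0 B A).card = (G.K0 A B).card := h.cardK38

/-- non-twins, at least two neighbours in `K0 A B` -/
theorem y_single38 (h : G.Strip A B) {y : V} (hy : y ∈ G.K0 B A) (ht : ¬ G.IsTw y)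
    (h2 : 2 ≤ (G.nb y ∩ G.K0 A B).card) (h3 : (G.K0 A B).card ≤ 3) : -2 ≤ vv38 G B y := by
  by_cases hl : G.Low y
  · have h4 := pOK38 h hy
    have h5 : (G.nb y ∩ G.K0 A B).card ≤ (G.K0 A B).card := card_le_card inter_subset_right
    obtain ⟨-, e2, -, e3, -, -, -⟩ := vv_ge38 h.fB87 hl
    rw [h4] at e2 e3
    have h6 : (G.nb y ∩ G.K0 A B).card = 2 ∨ (G.nb y ∩ G.K0 A B).card = 3 := by omega
    rcases h6 with h6 | h6
    · have := e2 h6
      omega
    · have := e3 h6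
      omega
  · rw [vv_hub38 hl ht]

/-- twins -/
theorem y_twin38 (h : G.Strip A B) {y : V} (hy : y ∈ G.K0 B A) (ht : G.IsTw y)
    (h3 : (G.nb y ∩ G.K0 A B).card ≤ 3) : 2 * ((G.nb y ∩ G.K0 A B).card : ℤ) +
      ((G.pT B y).card : ℤ) - 9 ≤ vv38 G B y ∧ 1 ≤ (G.pT B y).card ∧
      (G.RF B y → 2 * ((G.nb y ∩ G.K0 A B).card : ℤ) +
      ((G.pT B y).card : ℤ) - 8 ≤ vv38 G B y) := by
  have h4 := pOK38 h hy
  have h5 : ¬ G.RF (G.Co B) y := by
    intro h6
    have h7 := ((stTy5_87 G).rf _ y h6).2.2.1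
    rw [pXCo87, h4] at h7
    omega
  obtain ⟨y', hyy⟩ := ht
  have h6 := h.symm38.twK38 hy hyy
  have h7 : 1 ≤ (G.pT B y).card := by
    rw [Nat.succ_le_iff, card_pos]
    exact ⟨y', mem_inter.2 ⟨hyy.1, (mem_K087.1 h6).1⟩⟩
  refine ⟨?_, h7, fun h8 => ?_⟩
  · rw [vv_tw38 ⟨y', hyy⟩, if_neg h5, h4]
    split_ifs <;> omega
  · rw [vv_tw38 ⟨y', hyy⟩, if_neg h5, if_pos h8, h4]
    omega

/-- the flag of a pair of twins of `K0 B A` against two vertices -/
theorem y_RF38 (h : G.Strip A B) {y m m' : V} (hy : y ∈ G.K0 B A) (ht : G.IsTw y)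
    (h1 : (G.pT B y).card = 1) (hK : G.K0 A B = {m, m'}) (hne : m ≠ m')
    (h2 : (G.nb y ∩ G.K0 A B).card = 2) (hm : (∃ x z, G.LL m m' x z) ∨ G.K6X m m') :
    G.RF B y := by
  obtain ⟨y', hyy⟩ := ht
  have h3 := nb_split87 (G := G) B y
  have h4 : (G.nb y).card = 7 := Tw_card87 hyy
  have h5 := pOK38 h hy
  have h6 : G.nb y ∩ G.K0 A B = G.K0 A B := by
    apply eq_of_subset_of_card_le inter_subset_right
    rw [h2, hK, card_pair hne]
  have h7 := h.symm38.twK38 hy hyy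
  refine ⟨(mem_K087.1 hy).1, y', m, m', hyy, hne, ?_, ?_, ?_, hm⟩
  · obtain ⟨x, hx⟩ := card_eq_one.1 h1
    have : y' ∈ G.pT B y := mem_inter.2 ⟨hyy.1, (mem_K087.1 h7).1⟩
    rw [hx, mem_singleton] at this
    rw [hx, this]
  · rw [h5, h2] at h3
    omega
  · rw [h5, h6, hK]

namespace Gf38

variable {b : ℤ} {u0 v0 u1 v1 s t : V}

/-- a port in `K0 A B` -/
theorem conK (_k : Gf38 G A B b u0 v0 u1 v1 s t) {x : V} (hx : x ∈ G.K0 A B) (hl : G.Low x) :
    con38 G B x = 8 ∧ kk38 G A B x = 0 := by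
  have h1 := (mem_K087.1 hx).2
  rw [con38, kk38, if_neg h1, if_neg h1, a5_low38 hl]
  norm_num

/-- a common port -/
theorem conC (_k : Gf38 G A B b u0 v0 u1 v1 s t) {x : V} (hx : x ∈ G.N B) :
    con38 G B x = vv38 G B x ∧ kk38 G A B x = ka38 G A B x := by
  rw [con38, kk38, if_pos hx, if_pos hx]
  exact ⟨rfl, rfl⟩

/-- a vertex of `N A` outside of `K0 A B` is common -/
theorem memC (_k : Gf38 G A B b u0 v0 u1 v1 s t) {x : V} (hx : x ∈ G.N A)
    (h : x ∉ G.K0 A B) : x ∈ G.N B := by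
  by_contra h1
  exact h (mem_K087.2 ⟨hx, h1⟩)

theorem ka_pos (_k : Gf38 G A B b u0 v0 u1 v1 s t) {x z : V} (hx : x ∈ G.K0 A B)
    (h : x ∈ G.nb z) : 1 ≤ ka38 G A B z := by
  rw [ka38, Nat.succ_le_iff, card_pos]
  exact ⟨x, mem_inter.2 ⟨h, hx⟩⟩

/-- common neighbours of a port in `K0 A B` -/
theorem degP (k : Gf38 G A B b u0 v0 u1 v1 s t) {x x' : V} (p : PP38 G A x x')
    (hx : x ∈ G.K0 A B) : (G.nb x ∩ G.K0 A B).card + (G.nb x ∩ G.Cc A B).card +
      (G.nb x ∩ G.K0 B A).card = 4 := by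
  have h1 := degK38 k.st hx
  obtain ⟨q, q', h2, h3, -⟩ := p.q
  have h4 : (G.nb x ∩ A).card = 2 := by rw [h3, card_pair (Tw_ne87 h2)]
  have h5 : (G.nb x).card = 6 := p.lu
  omega

/-- the two pairs `u1 v1` and `s t` outside of `K0 A B` -/
theorem rest (k : Gf38 G A B b u0 v0 u1 v1 s t) (hu : u1 ∈ G.N B) (hv : v1 ∈ G.N B)
    (h2 : ka38 G A B u1 + ka38 G A B v1 + ka38 G A B s + ka38 G A B t = 2) :
    -10 ≤ b + vv38 G B u1 + vv38 G B v1 + vv38 G B s + vv38 G B t ∧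
    (2 ≤ ka38 G A B u1 ∨ 2 ≤ ka38 G A B v1 ∨ 2 ≤ ka38 G A B s ∨ 2 ≤ ka38 G A B t →
      -6 ≤ b + vv38 G B u1 + vv38 G B v1 + vv38 G B s + vv38 G B t) := by
  obtain ⟨p1, p2, p3, p4⟩ := k.p1.two k.st hu hv
  have h3 := k.th0
  have h4 := k.th1
  have h5 := k.th2
  constructor
  · by_cases h6 : 1 ≤ ka38 G A B s + ka38 G A B t
    · have := h4 h6
      by_cases h7 : 1 ≤ ka38 G A B u1 + ka38 G A B v1
      · have := p3 h7
        omega
      · omega
    · have := p3 (by omega)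
      omega
  · rintro (h6 | h6 | h6 | h6)
    · have := p4 (Or.inl h6)
      omega
    · have := p4 (Or.inr h6)
      omega
    · have := h5 (Or.inl h6)
      omega
    · have := h5 (Or.inr h6)
      omega

/-- one vertex on each side -/
theorem one (k : Gf38 G A B b u0 v0 u1 v1 s t) (hK : G.K0 A B = {u0})
    (hc : ∀ y ∈ G.K0 B A, G.Low y → (G.nb y ∩ G.Cc A B).Nonempty) : 0 ≤ G.P5 (G.Co B) := by
  have hcard : (G.K0 B A).card = 1 := by rw [k.st.card_eq38, hK, card_singleton]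
  obtain ⟨y, hY⟩ := card_eq_one.1 hcard
  have hyK : y ∈ G.K0 B A := by rw [hY]; exact mem_singleton_self _
  have hu : u0 ∈ G.K0 A B := by rw [hK]; exact mem_singleton_self _
  obtain ⟨n1, n2, n3, n4, n5⟩ := six38 k.c6
  simp only [mem_insert, mem_singleton, not_or] at n1
  have hadj : y ∈ G.nb u0 := k.st.s1_87.adj hK hY
  have mC : ∀ x ∈ G.N A, x ≠ u0 → x ∈ G.N B := by
    intro x hx hne
    refine k.memC hx ?_
    rw [hK, mem_singleton]
    exact hne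
  have hv0 := mC v0 k.p0.mv (Ne.symm n1.1)
  have hu1 := mC u1 k.p1.mu (Ne.symm n1.2.1)
  have hv1 := mC v1 k.p1.mv (Ne.symm n1.2.2.1)
  obtain ⟨a1, a2⟩ := k.conK hu k.p0.lu
  obtain ⟨b1, b2⟩ := k.conC hv0
  obtain ⟨c1, c2⟩ := k.conC hu1
  obtain ⟨d1, d2⟩ := k.conC hv1
  have e1 := k.total
  have e2 := k.ktotal
  have e3 := k.degP k.p0 hu
  have e4 : (G.nb u0 ∩ G.K0 B A).card = 1 := by
    rw [hY, inter_singleton_of_mem hadj, card_singleton]
  have e5 : (G.nb u0 ∩ G.K0 A B).card = 0 := by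
    rw [hK, inter_singleton_of_notMem (G.irr _), card_empty]
  rw [hK, sum_singleton] at e2
  have e6 : ka38 G A B v0 = 1 := by
    rw [ka38, hK, inter_singleton_of_mem (G.sym _ _ k.p0.adj), card_singleton]
  have e7 := k.p0.symm.one k.st hv0 (by omega)
  have e8 := (k.rest hu1 hv1 (by omega)).1
  have e9 : -2 ≤ vv38 G B y := by
    have hnt : ¬ G.IsTw y := by
      rintro ⟨y', hy'⟩
      have h1 := k.st.symm38.twK38 hyK hy'
      rw [hY, mem_singleton] at h1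
      exact Tw_ne87 hy' h1.symm
    by_cases hl : G.Low y
    · obtain ⟨g1, -, -, -, -, -, -⟩ := vv_ge38 k.st.fB87 hl
      refine g1 ?_ ?_ ?_
      · rw [pOK38 k.st hyK, hK, inter_singleton_of_mem (G.sym _ _ hadj), card_singleton]
      · rintro ⟨-, -, -, p, p', h1, h2⟩
        have h3 : p ∈ G.pT B y := by rw [h2]; exact mem_insert_self _ _
        obtain ⟨h4, h5⟩ := mem_inter.1 h3
        rw [NB_eq38 G A B, mem_union] at h5
        rcases h5 with h5 | h5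
        · rw [hY, mem_singleton] at h5
          exact G.irr _ (h5 ▸ h4)
        · exact k.tw p h5 ⟨p', h1⟩ y hyK (G.sym _ _ h4)
      · obtain ⟨c, hc'⟩ := hc y hyK hl
        rw [Nat.succ_le_iff, card_pos]
        refine ⟨c, mem_inter.2 ⟨(mem_inter.1 hc').1, ?_⟩⟩
        exact (mem_Cc87.1 (mem_inter.1 hc').2).2
    · rw [vv_hub38 hl hnt]
  rw [hY, sum_singleton] at e1
  rw [e1, a1, b1, c1, d1]
  rw [e6] at e7
  push_cast at e7
  linarith

end Gf38

end CG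

end Pool.Agent.Lib.MP_e95c01_co.N
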