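import Pool.Agent.Lib.MP_e95c01_co.X.E4_38

/-!
# S12: two or three vertices on each side
-/

namespace Pool.Agent.Lib.MP_e95c01_co.N

open Finset

variable {V : Type} [Fintype V] [DecidableEq V]

namespace CG

variable {G : CG V} {A B : Finset V}

theorem aux38a {a b c d p : Prop} (hp : ¬ p) (h : ¬ (a ∨ (b ∨ c) ∨ d)) :
    ¬ (a ∨ (c ∨ b) ∨ p ∨ d) := by tauto

theorem aux38b {a b c d p : Prop} (hp : ¬ p) (h : ¬ (a ∨ (b ∨ c) ∨ d)) :
    ¬ (a ∨ (b ∨ c) ∨ p ∨ d) := by tauto

theorem aux38c {a b c d e p : Prop} :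
    (e ∨ (a ∨ (b ∨ c) ∨ d ∨ p)) ↔ (d ∨ (a ∨ (c ∨ b) ∨ e ∨ p)) := by tauto

/-- two vertices on each side: the vertices of `K0 B A` -/
theorem ysum2_38 (h : G.Sx A B) {m m' : V} (hK : G.K0 A B = {m, m'}) (hne : m ≠ m') :
    -8 ≤ ∑ y ∈ G.K0 B A, vv38 G B y ∧
    (((∃ x z, G.LL m m' x z) ∨ G.K6X m m') → -6 ≤ ∑ y ∈ G.K0 B A, vv38 G B y) := by
  have hc : (G.K0 A B).card = 2 := by rw [hK, card_pair hne]
  have hc' : (G.K0 B A).card = 2 := by rw [h.st.card_eq38, hc]
  have hf : ∀ y ∈ G.K0 B A, (G.nb y ∩ G.K0 A B).card = 2 := by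
    intro y hy
    have h1 := h.e2.one y hy
    have h2 : (G.nb y ∩ G.K0 A B).card ≤ (G.K0 A B).card := card_le_card inter_subset_right
    omega
  have key : ∀ y ∈ G.K0 B A, -4 ≤ vv38 G B y := by
    intro y hy
    have h1 := hf y hy
    by_cases ht : G.IsTw y
    · obtain ⟨h2, h3, -⟩ := y_twin38 h.st hy ht (by omega)
      rw [h1] at h2
      push_cast at h2
      omega
    · have := y_single38 h.st hy ht (by omega) (by omega)
      omega
  constructor
  · have h1 := card_nsmul_le_sum (G.K0 B A) (fun y => vv38 G B y) (-4) key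
    rw [hc'] at h1
    simpa using h1
  · intro hm
    have key2 : ∀ y ∈ G.K0 B A, -3 ≤ vv38 G B y := by
      intro y hy
      have h1 := hf y hy
      by_cases ht : G.IsTw y
      · obtain ⟨h2, h3, h4⟩ := y_twin38 h.st hy ht (by omega)
        rw [h1] at h2 h4
        push_cast at h2 h4
        by_cases h5 : (G.pT B y).card = 1
        · have := h4 (y_RF38 h.st hy ht h5 hK hne h1 hm)
          omega
        · omega
      · have := y_single38 h.st hy ht (by omega) (by omega)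
        omega
    have h1 := card_nsmul_le_sum (G.K0 B A) (fun y => vv38 G B y) (-3) key2
    rw [hc'] at h1
    simpa using h1

/-- three vertices on each side: the vertices of `K0 B A` -/
theorem ysum3_38 (h : G.Sx A B) (hK : (G.K0 A B).card = 3) :
    -6 ≤ ∑ y ∈ G.K0 B A, vv38 G B y := by
  have hc' : (G.K0 B A).card = 3 := by rw [h.st.card_eq38, hK]
  have key : ∀ y ∈ G.K0 B A, -2 ≤ vv38 G B y := by
    intro y hy
    have h1 := h.e2.one y hy
    by_cases ht : G.IsTw y
    · obtain ⟨y', hyy⟩ := ht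
      have h2 := h.st.symm38.twK38 hy hyy
      have h3 : G.nb y ∩ G.K0 A B = G.K0 A B := by
        apply Subset.antisymm inter_subset_right
        intro x hx
        refine mem_inter.2 ⟨?_, hx⟩
        rcases mem_union.1 (h.e2.two (by omega) y hy y' h2 (Tw_ne87 hyy) hx) with h4 | h4
        · exact h4
        · refine Tw_nb5 ((stTwHL_5 G).symm _ _ hyy) h4 ?_
          rintro rfl
          exact (mem_K087.1 hx).2 (mem_K087.1 hy).1
      obtain ⟨h4, h5, -⟩ := y_twin38 h.st hy ⟨y', hyy⟩ (by rw [h3]; omega)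
      rw [h3, hK] at h4
      push_cast at h4
      omega
    · exact y_single38 h.st hy ht h1 (by omega)
  have h1 := card_nsmul_le_sum (G.K0 B A) (fun y => vv38 G B y) (-2) key
  rw [hc'] at h1
  simpa using h1

namespace Gf38

variable {b : ℤ} {u0 v0 u1 v1 s t : V}

/-- `K0 A B` is a pair of ports -/
theorem twoA (k : Gf38 G A B b u0 v0 u1 v1 s t) (h : G.Sx A B) (hK : G.K0 A B = {u0, v0}) :
    0 ≤ G.P5 (G.Co B) := by
  have hne : u0 ≠ v0 := ne_of_nb5 k.p0.adj
  obtain ⟨n1, n2, n3, n4, n5⟩ := six38 k.c6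
  simp only [mem_insert, mem_singleton, not_or] at n1 n2
  have hu : u0 ∈ G.K0 A B := by rw [hK]; exact mem_insert_self _ _
  have hv : v0 ∈ G.K0 A B := by rw [hK]; exact mem_insert_of_mem (mem_singleton_self _)
  have mC : ∀ x ∈ G.N A, x ≠ u0 → x ≠ v0 → x ∈ G.N B := by
    intro x hx h1 h2
    refine k.memC hx ?_
    rw [hK, mem_insert, mem_singleton, not_or]
    exact ⟨h1, h2⟩
  have hu1 := mC u1 k.p1.mu (Ne.symm n1.2.1) (Ne.symm n2.1)
  have hv1 := mC v1 k.p1.mv (Ne.symm n1.2.2.1) (Ne.symm n2.2.1)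
  obtain ⟨a1, a2⟩ := k.conK hu k.p0.lu
  obtain ⟨b1, b2⟩ := k.conK hv k.p0.lv
  obtain ⟨c1, c2⟩ := k.conC hu1
  obtain ⟨d1, d2⟩ := k.conC hv1
  have hc : (G.K0 A B).card = 2 := by rw [hK, card_pair hne]
  have hc' : (G.K0 B A).card = 2 := by rw [h.st.card_eq38, hc]
  have hfull : ∀ x ∈ G.K0 A B, G.nb x ∩ G.K0 B A = G.K0 B A := by
    intro x hx
    apply eq_of_subset_of_card_le inter_subset_right
    have := h.e1.one x hx
    omega
  have hu2 : (G.nb u0 ∩ G.K0 B A).card = 2 := by rw [hfull u0 hu, hc']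
  have hv2 : (G.nb v0 ∩ G.K0 B A).card = 2 := by rw [hfull v0 hv, hc']
  have hu3 : G.nb u0 ∩ G.K0 A B = {v0} := by
    rw [hK]
    ext x
    simp only [mem_inter, mem_insert, mem_singleton]
    constructor
    · rintro ⟨h1, h2 | h2⟩
      · exact absurd (h2 ▸ h1) (G.irr _)
      · exact h2
    · rintro rfl
      exact ⟨k.p0.adj, Or.inr rfl⟩
  have hv3 : G.nb v0 ∩ G.K0 A B = {u0} := by
    rw [hK]
    ext x
    simp only [mem_inter, mem_insert, mem_singleton]
    constructor
    · rintro ⟨h1, h2 | h2⟩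
      · exact h2
      · exact absurd (h2 ▸ h1) (G.irr _)
    · rintro rfl
      exact ⟨G.sym _ _ k.p0.adj, Or.inl rfl⟩
  have du := k.degP k.p0 hu
  have dv := k.degP k.p0.symm hv
  rw [hu3, card_singleton, hu2] at du
  rw [hv3, card_singleton, hv2] at dv
  obtain ⟨w1, hw1⟩ := card_eq_one.1 (show (G.nb u0 ∩ G.Cc A B).card = 1 by omega)
  obtain ⟨w2, hw2⟩ := card_eq_one.1 (show (G.nb v0 ∩ G.Cc A B).card = 1 by omega)
  have e1 := k.total
  have e2 := k.ktotal
  rw [hK, sum_pair hne, hw1, hw2, card_singleton, card_singleton] at e2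
  obtain ⟨r1, r2⟩ := k.rest hu1 hv1 (by omega)
  obtain ⟨s1, s2⟩ := ysum2_38 h hK hne
  rw [a1, b1, c1, d1] at e1
  have m1 : w1 ∈ G.nb u0 ∩ G.Cc A B := by rw [hw1]; exact mem_singleton_self _
  have m2 : w2 ∈ G.nb v0 ∩ G.Cc A B := by rw [hw2]; exact mem_singleton_self _
  by_cases hw : w1 = w2
  · subst hw
    have m3 := (mem_Cc87.1 (mem_inter.1 m1).2)
    have m4 : 2 ≤ ka38 G A B w1 := by
      rw [ka38, hK]
      exact two_le5 (a := u0) (b := v0) (mem_inter.2 ⟨G.sym _ _ (mem_inter.1 m1).1,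
        mem_insert_self _ _⟩) (mem_inter.2 ⟨G.sym _ _ (mem_inter.1 m2).1,
        mem_insert_of_mem (mem_singleton_self _)⟩) hne
    have m5 : w1 ≠ u0 := fun h1 => (mem_K087.1 hu).2 (h1 ▸ m3.2)
    have m6 : w1 ≠ v0 := fun h1 => (mem_K087.1 hv).2 (h1 ▸ m3.2)
    have m7 := m3.1
    rw [k.NA] at m7
    simp only [mem_insert, mem_singleton] at m7
    have m8 : 2 ≤ ka38 G A B u1 ∨ 2 ≤ ka38 G A B v1 ∨ 2 ≤ ka38 G A B s ∨ 2 ≤ ka38 G A B t := by
      rcases m7 with rfl | rfl | rfl | rfl | rfl | rfl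
      · exact absurd rfl m5
      · exact absurd rfl m6
      · exact Or.inl m4
      · exact Or.inr (Or.inl m4)
      · exact Or.inr (Or.inr (Or.inl m4))
      · exact Or.inr (Or.inr (Or.inr m4))
    have := r2 m8
    linarith
  · have hLL : G.LL u0 v0 w1 w2 := by
      obtain ⟨q, q', g1, g2, g3⟩ := k.p0.q
      have hcl : ∀ x x' w : V, x ∈ G.K0 A B → PP38 G A x x' → G.nb x ∩ A = {q, q'} →
          G.nb x ∩ G.K0 A B = {x'} → G.nb x ∩ G.Cc A B = {w} →
          ∀ z, z ∈ G.cl x ↔ (z = q ∨ z = q') ∨ (z = x ∨ z = x') ∨ z = w ∨ z ∈ G.K0 B A := by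
        intro x x' w hx p g hx3 hxw z
        rw [mem_clT76]
        constructor
        · rintro (h1 | h1)
          · exact Or.inr (Or.inl (Or.inl h1))
          · by_cases hzA : z ∈ A
            · have : z ∈ G.nb x ∩ A := mem_inter.2 ⟨h1, hzA⟩
              rw [g, mem_insert, mem_singleton] at this
              exact Or.inl this
            · have hzB : z ∉ B := by
                intro hzB
                have h3 := mem_K087.1 hx
                exact h3.2 (mem_N1.2 ⟨(h.st.s1_87.NA h3.1).2, z, hzB, G.sym _ _ h1⟩)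
              rcases h.st.parts38 (memR2_1.2 ⟨hzA, hzB⟩) with h2 | h2 | h2
              · have : z ∈ G.nb x ∩ G.K0 A B := mem_inter.2 ⟨h1, h2⟩
                rw [hx3, mem_singleton] at this
                exact Or.inr (Or.inl (Or.inr this))
              · exact Or.inr (Or.inr (Or.inr h2))
              · have : z ∈ G.nb x ∩ G.Cc A B := mem_inter.2 ⟨h1, h2⟩
                rw [hxw, mem_singleton] at this
                exact Or.inr (Or.inr (Or.inl this))
        · rintro (h1 | (h1 | h1) | h1 | h1)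
          · right
            have : z ∈ G.nb x ∩ A := by rw [g, mem_insert, mem_singleton]; exact h1
            exact (mem_inter.1 this).1
          · exact Or.inl h1
          · right
            rw [h1]
            exact p.adj
          · right
            have : z ∈ G.nb x ∩ G.Cc A B := by rw [hxw, mem_singleton]; exact h1
            exact (mem_inter.1 this).1
          · right
            have : z ∈ G.nb x ∩ G.K0 B A := by rw [hfull x hx]; exact h1
            exact (mem_inter.1 this).1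
      have c1 := hcl u0 v0 w1 hu k.p0 g2 hu3 hw1
      have c2 := hcl v0 u0 w2 hv k.p0.symm g3 hv3 hw2
      have o1 := (mem_Cc87.1 (mem_inter.1 m1).2)
      have o2 := (mem_Cc87.1 (mem_inter.1 m2).2)
      have hqA : q ∈ A ∧ q' ∈ A := by
        constructor
        · have : q ∈ G.nb u0 ∩ A := by rw [g2]; exact mem_insert_self _ _
          exact (mem_inter.1 this).2
        · have : q' ∈ G.nb u0 ∩ A := by rw [g2]; exact mem_insert_of_mem (mem_singleton_self _)
          exact (mem_inter.1 this).2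
      have out : ∀ w, w ∈ G.N A → w ∈ G.N B → ¬ ((w = q ∨ w = q') ∨ (w = u0 ∨ w = v0) ∨
          w ∈ G.K0 B A) := by
        rintro w hwA hwB ((rfl | rfl) | (rfl | rfl) | h1)
        · exact (mem_N1.1 hwA).1 hqA.1
        · exact (mem_N1.1 hwA).1 hqA.2
        · exact (mem_K087.1 hu).2 hwB
        · exact (mem_K087.1 hv).2 hwB
        · exact (mem_K087.1 h1).2 hwA
      have out1 := out w1 o1.1 o1.2
      have out2 := out w2 o2.1 o2.2
      refine ⟨k.p0.lu, k.p0.lv, k.p0.adj, hw, ?_, ?_, ?_⟩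
      · rw [c2]
        exact aux38a hw out1
      · rw [c1]
        exact aux38b (fun h1 => hw h1.symm) out2
      · ext z
        rw [mem_insert, mem_insert, c1, c2]
        exact aux38c
    have := s2 (Or.inl ⟨w1, w2, hLL⟩)
    linarith

/-- `K0 A B` consists of ports of different pairs -/
theorem twoB (k : Gf38 G A B b u0 v0 u1 v1 s t) (h : G.Sx A B) (hK : G.K0 A B = {u0, u1}) :
    0 ≤ G.P5 (G.Co B) := by
  obtain ⟨n1, n2, n3, n4, n5⟩ := six38 k.c6
  simp only [mem_insert, mem_singleton, not_or] at n1 n2 n3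
  have hne : u0 ≠ u1 := n1.2.1
  have hu : u0 ∈ G.K0 A B := by rw [hK]; exact mem_insert_self _ _
  have hv : u1 ∈ G.K0 A B := by rw [hK]; exact mem_insert_of_mem (mem_singleton_self _)
  have mC : ∀ x ∈ G.N A, x ≠ u0 → x ≠ u1 → x ∈ G.N B := by
    intro x hx h1 h2
    refine k.memC hx ?_
    rw [hK, mem_insert, mem_singleton, not_or]
    exact ⟨h1, h2⟩
  have hv0 := mC v0 k.p0.mv (Ne.symm n1.1) n2.1
  have hv1 := mC v1 k.p1.mv (Ne.symm n1.2.2.1) (Ne.symm n3.1)
  obtain ⟨a1, a2⟩ := k.conK hu k.p0.lu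
  obtain ⟨b1, b2⟩ := k.conK hv k.p1.lu
  obtain ⟨c1, c2⟩ := k.conC hv0
  obtain ⟨d1, d2⟩ := k.conC hv1
  have hc : (G.K0 A B).card = 2 := by rw [hK, card_pair hne]
  have hc' : (G.K0 B A).card = 2 := by rw [h.st.card_eq38, hc]
  have hfull : ∀ x ∈ G.K0 A B, (G.nb x ∩ G.K0 B A).card = 2 := by
    intro x hx
    have h1 := h.e1.one x hx
    have h2 : (G.nb x ∩ G.K0 B A).card ≤ (G.K0 B A).card := card_le_card inter_subset_right
    omega
  have hu2 := hfull u0 hu
  have hv2 := hfull u1 hv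
  have p1 := k.ka_pos hu (G.sym _ _ k.p0.adj)
  have p2 := k.ka_pos hv (G.sym _ _ k.p1.adj)
  have o1 := k.p0.symm.one k.st hv0 p1
  have o2 := k.p1.symm.one k.st hv1 p2
  have du := k.degP k.p0 hu
  have dv := k.degP k.p1 hv
  have e1 := k.total
  have e2 := k.ktotal
  rw [hK, sum_pair hne] at e2
  obtain ⟨s1, s2⟩ := ysum2_38 h hK hne
  have t0 := k.th0
  have t1 := k.th1
  rw [a1, b1, c1, d1] at e1
  by_cases hadj : u1 ∈ G.nb u0
  · have hX : G.K6X u0 u1 := ⟨k.p0.lu, k.p1.lu, hadj, k.kq u0 (Or.inl rfl) u1 (Or.inl rfl)⟩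
    have := s2 (Or.inr hX)
    omega
  · have g1 : (G.nb u0 ∩ G.K0 A B).card = 0 := by
      rw [Finset.card_eq_zero, eq_empty_iff_forall_notMem]
      intro x hx
      rw [hK, mem_inter, mem_insert, mem_singleton] at hx
      rcases hx with ⟨h1, rfl | rfl⟩
      · exact G.irr _ h1
      · exact hadj h1
    have g2 : (G.nb u1 ∩ G.K0 A B).card = 0 := by
      rw [Finset.card_eq_zero, eq_empty_iff_forall_notMem]
      intro x hx
      rw [hK, mem_inter, mem_insert, mem_singleton] at hx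
      rcases hx with ⟨h1, rfl | rfl⟩
      · exact hadj (G.sym _ _ h1)
      · exact G.irr _ h1
    by_cases hj : 1 ≤ ka38 G A B s + ka38 G A B t
    · have := t1 hj
      omega
    · omega

/-- `K0 A B` consists of a pair of ports and a third port -/
theorem three (k : Gf38 G A B b u0 v0 u1 v1 s t) (h : G.Sx A B)
    (hK : G.K0 A B = {u0, v0, u1}) : 0 ≤ G.P5 (G.Co B) := by
  obtain ⟨n1, n2, n3, n4, n5⟩ := six38 k.c6
  simp only [mem_insert, mem_singleton, not_or] at n1 n2 n3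
  have hu : u0 ∈ G.K0 A B := by rw [hK]; simp
  have hv : v0 ∈ G.K0 A B := by rw [hK]; simp
  have hu1 : u1 ∈ G.K0 A B := by rw [hK]; simp
  have hv1 : v1 ∈ G.N B := by
    refine k.memC k.p1.mv ?_
    rw [hK]
    simp only [mem_insert, mem_singleton, not_or]
    exact ⟨Ne.symm n1.2.2.1, Ne.symm n2.2.1, Ne.symm n3.1⟩
  obtain ⟨a1, -⟩ := k.conK hu k.p0.lu
  obtain ⟨b1, -⟩ := k.conK hv k.p0.lv
  obtain ⟨c1, -⟩ := k.conK hu1 k.p1.lu
  obtain ⟨d1, -⟩ := k.conC hv1
  have p2 := k.ka_pos hu1 (G.sym _ _ k.p1.adj)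
  have o2 := k.p1.symm.one k.st hv1 p2
  have hc : (G.K0 A B).card = 3 := by
    rw [hK, card_insert_of_notMem, card_pair n2.1]
    simp only [mem_insert, mem_singleton, not_or]
    exact ⟨n1.1, n1.2.1⟩
  have s1 := ysum3_38 h hc
  have e1 := k.total
  have t0 := k.th0
  rw [a1, b1, c1, d1] at e1
  omega

end Gf38

end CG

end Pool.Agent.Lib.MP_e95c01_co.N
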