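import Pool.Agent.Lib.MP_e95c01_co.X.E5_38
import Pool.Agent.Lib.MP_e95c01_co.N.StStruct53
import Pool.Agent.Lib.MP_e95c01_co.U.Bridge76

/-!
# S12: the ports of an exceptional fragment are low
-/

namespace Pool.Agent.Lib.MP_e95c01_co.N

open Finset

variable {V : Type} [Fintype V] [DecidableEq V]

namespace CG

variable {G : CG V} {A B : Finset V}

/-- the twin of a vertex of a fragment is in the fragment -/
theorem twA38 (hA : G.Frag A) {z z' : V} (hz : z ∈ A) (h : G.Tw z z') : z' ∈ A := by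
  by_contra h1
  have h2 : z' ∈ G.N A := mem_N1.2 ⟨h1, z, hz, h.1⟩
  rw [← NCo87 hA] at h2
  obtain ⟨-, y, hy, h3⟩ := mem_N1.1 h2
  have h4 : z ≠ y := by
    rintro rfl
    exact (mem_Co1.1 hy).1 hz
  have h5 : y ∈ G.nb z := Tw_nb5 ((stTwHL_5 G).symm _ _ h) (G.sym _ _ h3) h4.symm
  rcases nb_B1 hz h5 with h6 | h6
  · exact (mem_Co1.1 hy).1 h6
  · exact (mem_Co1.1 hy).2 h6

theorem Strip.big38 (h : G.Strip A B) : G.Big A := by
  refine ⟨h.fA87, h.bigA, ?_⟩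
  rw [Co_eq87 h]
  exact h.bigB.trans (card_le_card subset_union_left)

/-- the edges between a pair of twins of `A` and its ports -/
theorem scov38 (hC : G.Crit) (hA : G.Big A) {q q' u : V} (hq : q ∈ A) (ht : G.Tw q q')
    (hu : u ∈ G.N A) (hqu : u ∈ G.nb q) (hn : G.nb u ∩ A ⊆ {q, q'}) : G.SCov q u := by
  by_contra hns
  rcases (G.stStruct_53 G.stN6_37 G.stCo_37) hC A hA q hq u hqu hns with
    ⟨D, hD, hDA, h1, h2⟩ | ⟨-, h1⟩
  · obtain ⟨-, x, hx, h3⟩ := mem_N1.1 h2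
    have h4 : x ∈ G.nb u ∩ A := mem_inter.2 ⟨G.sym _ _ h3, hDA.1 hx⟩
    have h5 := hn h4
    rw [mem_insert, mem_singleton] at h5
    have h6 : q ∉ D := (mem_N1.1 h1).1
    rcases h5 with rfl | rfl
    · exact h6 hx
    · exact h6 (twA38 hD.1 hx ((stTwHL_5 G).symm _ _ ht))
  · exact (mem_N1.1 hu).1 h1

/-- a port is covered by the other port only -/
theorem port38 (hC : G.Crit) (h : G.Strip A B) (hT : ∀ x ∈ A, G.IsTw x) {q q' u v : V}
    (hq : q ∈ A) (ht : G.Tw q q') (hu : u ∈ G.N A) (hv : v ∈ G.N A) (hqu : u ∈ G.nb q)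
    (hn : G.nb u ∩ A ⊆ {q, q'})
    (hN : ∀ x ∈ G.nb q, x ∈ A ∨ x = u ∨ x = v ∨ (G.IsTw x ∧ u ∉ G.nb x)) :
    G.Low v ∧ v ∈ G.nb u := by
  obtain ⟨E, hE, hE2, h1, h2⟩ := scov38 hC h.big38 hq ht hu hqu hn
  have hqt : G.IsTw q := ⟨q', ht⟩
  rcases G.stSmall_76 E hE hE2 q u h1 h2 (ne_of_nb5 hqu) with c | c | c | c | c
  · obtain ⟨w, -, hw, h3, h4⟩ := c
    rcases hN w (G.sym _ _ h3) with h5 | rfl | rfl | ⟨h5, -⟩
    · exact absurd (hT w h5) (low_not_tw87 hw)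
    · exact absurd h4 (G.irr _)
    · exact ⟨hw, G.sym _ _ h4⟩
    · exact absurd h5 (low_not_tw87 hw)
  · obtain ⟨x, -, w, -, h3, h4, h5, h6, h7⟩ := c
    exfalso
    rcases hN x (G.sym _ _ h4) with h8 | rfl | rfl | ⟨-, h8⟩
    · have h9 : x ∈ G.nb u ∩ A := mem_inter.2 ⟨G.sym _ _ h5, h8⟩
      have h10 := hn h9
      rw [mem_insert, mem_singleton] at h10
      rcases h10 with rfl | rfl
      · exact G.irr _ h4
      · exact h6 ((stTwHL_5 G).uniq h.n9 _ _ _ ((stTwHL_5 G).symm _ _ ht) h3)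
    · exact G.irr _ h5
    · have h8 : w ∈ G.nb q := G.sym _ _ (Tw_nb5 h3 h4 h6)
      rcases hN w h8 with h9 | rfl | rfl | ⟨-, h9⟩
      · exact (mem_N1.1 hv).1 (twA38 h.fA87 h9 ((stTwHL_5 G).symm _ _ h3))
      · exact h7 rfl
      · exact Tw_ne87 h3 rfl
      · exact h9 (Tw_nb5 h3 h5 h7)
    · exact h8 h5
  · obtain ⟨a, -, b, -, h3, -, -⟩ := c
    exact absurd hqt (low_not_tw87 (h.sat _ _ _ h3))
  · obtain ⟨a, -, b, -, h3, h4, h5⟩ := c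
    exfalso
    have hb : G.Low b := h3.2.1
    have h6 : a ∈ G.nb q := G.sym _ _ (HL_sub76 h3 h4 h5)
    have h7 : ¬ G.IsTw a := (stTwHL_5 G).notHL h.n9 _ _ _ h3
    rcases hN a h6 with h8 | rfl | rfl | ⟨h8, -⟩
    · exact h7 (hT a h8)
    · exact G.irr _ (HL_t76 h3)
    · rcases hN b (G.sym _ _ h4) with h8 | rfl | rfl | ⟨h8, -⟩
      · exact low_not_tw87 hb (hT b h8)
      · exact (HL_bt76 h3).2 rfl
      · exact G.irr _ (HL_b76 h3)
      · exact low_not_tw87 hb h8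
    · exact h7 h8
  · obtain ⟨a, -, b, -, h3⟩ := c
    exact absurd hqt ((stTwHL_5 G).twLL _ _ _ _ h3).1

/-- a pair of ports -/
theorem mkPP38 (hC : G.Crit) (h : G.Strip A B) (hT : ∀ x ∈ A, G.IsTw x) {q q' u v : V}
    (hq : q ∈ A) (ht : G.Tw q q') (hu : u ∈ G.N A) (hv : v ∈ G.N A) (hqu : u ∈ G.nb q)
    (hqv : v ∈ G.nb q) (hnu : G.nb u ∩ A ⊆ {q, q'}) (hnv : G.nb v ∩ A ⊆ {q, q'})
    (hN : ∀ x ∈ G.nb q, x ∈ A ∨ x = u ∨ x = v ∨ (G.IsTw x ∧ u ∉ G.nb x ∧ v ∉ G.nb x)) :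
    PP38 G A u v := by
  have hq' : q' ∈ A := twA38 h.fA87 hq ht
  obtain ⟨l1, l2⟩ := port38 hC h hT hq ht hu hv hqu hnu (fun x hx => by
    rcases hN x hx with h1 | h1 | h1 | ⟨h1, h2, -⟩
    · exact Or.inl h1
    · exact Or.inr (Or.inl h1)
    · exact Or.inr (Or.inr (Or.inl h1))
    · exact Or.inr (Or.inr (Or.inr ⟨h1, h2⟩)))
  obtain ⟨l3, -⟩ := port38 hC h hT hq ht hv hu hqv hnv (fun x hx => by
    rcases hN x hx with h1 | h1 | h1 | ⟨h1, -, h2⟩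
    · exact Or.inl h1
    · exact Or.inr (Or.inr (Or.inl h1))
    · exact Or.inr (Or.inl h1)
    · exact Or.inr (Or.inr (Or.inr ⟨h1, h2⟩)))
  have key : ∀ w ∈ G.N A, w ∈ G.nb q → G.nb w ∩ A ⊆ {q, q'} → G.nb w ∩ A = {q, q'} := by
    intro w hw hqw hs
    refine Subset.antisymm hs ?_
    intro x hx
    rw [mem_insert, mem_singleton] at hx
    rcases hx with rfl | rfl
    · exact mem_inter.2 ⟨G.sym _ _ hqw, hq⟩
    · refine mem_inter.2 ⟨G.sym _ _ (Tw_nb5 ht hqw ?_), hq'⟩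
      rintro rfl
      exact (mem_N1.1 hw).1 hq'
  exact ⟨hu, hv, l3, l1, l2, q, q', ht, key u hu hqu hnu, key v hv hqv hnv⟩

end CG

end Pool.Agent.Lib.MP_e95c01_co.N
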