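import Pool.Agent.Lib.MP_e95c01_co.X.E6_38

/-!
# S12: all subsets in a frame; three mutually adjacent pairs
-/

namespace Pool.Agent.Lib.MP_e95c01_co.N

open Finset

variable {V : Type} [Fintype V] [DecidableEq V]

namespace CG

variable {G : CG V} {A B : Finset V}

omit [Fintype V] in
theorem sub4_2_38 {S : Finset V} {a b c d : V} (hS : S ⊆ {a, b, c, d}) (h : S.card = 2) :
    S = {a, b} ∨ S = {a, c} ∨ S = {a, d} ∨ S = {b, c} ∨ S = {b, d} ∨ S = {c, d} := by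
  obtain ⟨x, y, hxy, rfl⟩ := card_eq_two.1 h
  have hx := hS (mem_insert_self x {y})
  have hy := hS (mem_insert_of_mem (mem_singleton_self y))
  simp only [mem_insert, mem_singleton] at hx hy
  rcases hx with rfl | rfl | rfl | rfl <;> rcases hy with rfl | rfl | rfl | rfl <;>
    first
    | exact absurd rfl hxy
    | exact Or.inl rfl
    | exact Or.inr (Or.inl rfl)
    | exact Or.inr (Or.inr (Or.inl rfl))
    | exact Or.inr (Or.inr (Or.inr (Or.inl rfl)))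
    | exact Or.inr (Or.inr (Or.inr (Or.inr (Or.inl rfl))))
    | exact Or.inr (Or.inr (Or.inr (Or.inr (Or.inr rfl))))
    | exact Or.inl (pair_comm _ _)
    | exact Or.inr (Or.inl (pair_comm _ _))
    | exact Or.inr (Or.inr (Or.inl (pair_comm _ _)))
    | exact Or.inr (Or.inr (Or.inr (Or.inl (pair_comm _ _))))
    | exact Or.inr (Or.inr (Or.inr (Or.inr (Or.inl (pair_comm _ _)))))
    | exact Or.inr (Or.inr (Or.inr (Or.inr (Or.inr (pair_comm _ _)))))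

omit [Fintype V] in
theorem sub4_3_38 {S : Finset V} {a b c d : V} (hS : S ⊆ {a, b, c, d})
    (hn : ({a, b, c, d} : Finset V).card = 4) (h : S.card = 3) :
    S = {a, b, c} ∨ S = {a, b, d} ∨ S = {c, d, a} ∨ S = {c, d, b} := by
  have h1 : (({a, b, c, d} : Finset V) \ S).card = 1 := by
    rw [card_sdiff_of_subset hS, hn, h]
  obtain ⟨w, hw⟩ := card_eq_one.1 h1
  have hw1 : w ∈ ({a, b, c, d} : Finset V) \ S := by rw [hw]; exact mem_singleton_self _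
  have key : ∀ T : Finset V, T ⊆ {a, b, c, d} → w ∉ T → T.card = 3 → S = T := by
    intro T hT hwT hTc
    symm
    apply eq_of_subset_of_card_le _ (by omega)
    intro x hx
    by_contra hxS
    have : x ∈ ({a, b, c, d} : Finset V) \ S := mem_sdiff.2 ⟨hT hx, hxS⟩
    rw [hw, mem_singleton] at this
    exact hwT (this ▸ hx)
  have hne : a ≠ b ∧ a ≠ c ∧ a ≠ d ∧ b ≠ c ∧ b ≠ d ∧ c ≠ d := by
    have h2 := card_insert_le a ({b, c, d} : Finset V)
    have h3 := card_insert_le b ({c, d} : Finset V)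
    have h4 : ({c, d} : Finset V).card ≤ 2 := card_le_two
    have e1 : a ∉ ({b, c, d} : Finset V) := by
      intro k
      rw [insert_eq_of_mem k] at hn
      omega
    have e2 : b ∉ ({c, d} : Finset V) := by
      intro k
      rw [insert_eq_of_mem k] at h2 h3 hn
      omega
    have e3 : c ≠ d := by
      intro k
      subst k
      rw [pair_eq_singleton] at h2 h3 h4 hn
      rw [card_singleton] at h3
      omega
    simp only [mem_insert, mem_singleton, not_or] at e1 e2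
    exact ⟨e1.1, e1.2.1, e1.2.2, e2.1, e2.2, e3⟩
  obtain ⟨n1, n2, n3, n4, n5, n6⟩ := hne
  have c3 : ∀ x y z : V, x ≠ y → x ≠ z → y ≠ z → ({x, y, z} : Finset V).card = 3 := by
    intro x y z g1 g2 g3
    rw [card_insert_of_notMem, card_pair g3]
    simp only [mem_insert, mem_singleton, not_or]
    exact ⟨g1, g2⟩
  have hw2 := (mem_sdiff.1 hw1).1
  simp only [mem_insert, mem_singleton] at hw2
  rcases hw2 with rfl | rfl | rfl | rfl
  · refine Or.inr (Or.inr (Or.inr (key _ ?_ ?_ (c3 _ _ _ n6 n4.symm n5.symm))))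
    · intro x; simp only [mem_insert, mem_singleton]; tauto
    · simp only [mem_insert, mem_singleton, not_or]; exact ⟨n2, n3, n1⟩
  · refine Or.inr (Or.inr (Or.inl (key _ ?_ ?_ (c3 _ _ _ n6 n2.symm n3.symm))))
    · intro x; simp only [mem_insert, mem_singleton]; tauto
    · simp only [mem_insert, mem_singleton, not_or]; exact ⟨n4, n5, n1.symm⟩
  · refine Or.inr (Or.inl (key _ ?_ ?_ (c3 _ _ _ n1 n3 n5)))
    · intro x; simp only [mem_insert, mem_singleton]; tauto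
    · simp only [mem_insert, mem_singleton, not_or]; exact ⟨n2.symm, n4.symm, n6⟩
  · refine Or.inl (key _ ?_ ?_ (c3 _ _ _ n1 n2 n4))
    · intro x; simp only [mem_insert, mem_singleton]; tauto
    · simp only [mem_insert, mem_singleton, not_or]; exact ⟨n3.symm, n5.symm, n6.symm⟩

namespace Gf38

variable {b : ℤ} {u0 v0 u1 v1 s t : V}

theorem sub4 (k : Gf38 G A B b u0 v0 u1 v1 s t) : G.K0 A B ⊆ {u0, v0, u1, v1} := by
  intro x hx
  obtain ⟨h1, h2⟩ := mem_K087.1 hx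
  rw [k.NA] at h1
  simp only [mem_insert, mem_singleton] at h1 ⊢
  rcases h1 with h1 | h1 | h1 | h1 | h1 | h1
  · exact Or.inl h1
  · exact Or.inr (Or.inl h1)
  · exact Or.inr (Or.inr (Or.inl h1))
  · exact Or.inr (Or.inr (Or.inr h1))
  · exact absurd (h1 ▸ k.sB) h2
  · exact absurd (h1 ▸ k.tB) h2

theorem c4 (k : Gf38 G A B b u0 v0 u1 v1 s t) : ({u0, v0, u1, v1} : Finset V).card = 4 := by
  obtain ⟨n1, n2, n3, n4, n5⟩ := six38 k.c6
  simp only [mem_insert, mem_singleton, not_or] at n1 n2 n3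
  rw [card_insert_of_notMem, card_insert_of_notMem, card_pair n3.1]
  · simp only [mem_insert, mem_singleton, not_or]
    exact ⟨n2.1, n2.2.1⟩
  · simp only [mem_insert, mem_singleton, not_or]
    exact ⟨n1.1, n1.2.1, n1.2.2.1⟩

theorem all1 (k : Gf38 G A B b u0 v0 u1 v1 s t) (h : (G.K0 A B).card = 1)
    (hc : ∀ y ∈ G.K0 B A, G.Low y → (G.nb y ∩ G.Cc A B).Nonempty) : 0 ≤ G.P5 (G.Co B) := by
  obtain ⟨x, hx⟩ := card_eq_one.1 h
  have h1 := k.sub4 (show x ∈ G.K0 A B by rw [hx]; exact mem_singleton_self _)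
  simp only [mem_insert, mem_singleton] at h1
  rcases h1 with rfl | rfl | rfl | rfl
  · exact k.one hx hc
  · exact k.swap0.one hx hc
  · exact k.swap.one hx hc
  · exact k.swap.swap0.one hx hc

theorem all23 (k : Gf38 G A B b u0 v0 u1 v1 s t) (h : G.Sx A B)
    (h2 : (G.K0 A B).card = 2 ∨ (G.K0 A B).card = 3) : 0 ≤ G.P5 (G.Co B) := by
  rcases h2 with h2 | h2
  · rcases sub4_2_38 k.sub4 h2 with h3 | h3 | h3 | h3 | h3 | h3
    · exact k.twoA h h3
    · exact k.twoB h h3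
    · exact k.swap1.twoB h h3
    · exact k.swap0.twoB h h3
    · exact k.swap0.swap1.twoB h h3
    · exact k.swap.twoA h h3
  · rcases sub4_3_38 k.sub4 k.c4 h2 with h3 | h3 | h3 | h3
    · exact k.three h h3
    · exact k.swap1.three h h3
    · exact k.swap.three h h3
    · exact k.swap.swap1.three h h3

end Gf38

/-- frame for three mutually adjacent pairs -/
structure Fr38 (G : CG V) (A B : Finset V) (u0 v0 u1 v1 u2 v2 : V) : Prop where
  st : G.Strip A B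
  sa : ∑ v ∈ A, 2 * G.a5 v = -24
  NA : G.N A = {u0, v0, u1, v1, u2, v2}
  p0 : PP38 G A u0 v0
  p1 : PP38 G A u1 v1
  p2 : PP38 G A u2 v2
  k01 : ∀ x, (x = u0 ∨ x = v0) → ∀ y, (y = u1 ∨ y = v1) →
    ∃ q q1, G.K6 q q1 ∧ q ∈ G.nb x ∧ q1 ∈ G.nb y
  k02 : ∀ x, (x = u0 ∨ x = v0) → ∀ y, (y = u2 ∨ y = v2) →
    ∃ q q1, G.K6 q q1 ∧ q ∈ G.nb x ∧ q1 ∈ G.nb y
  k12 : ∀ x, (x = u1 ∨ x = v1) → ∀ y, (y = u2 ∨ y = v2) →
    ∃ q q1, G.K6 q q1 ∧ q ∈ G.nb x ∧ q1 ∈ G.nb y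

namespace Fr38

variable {u0 v0 u1 v1 u2 v2 : V}

theorem c6 (k : Fr38 G A B u0 v0 u1 v1 u2 v2) :
    ({u0, v0, u1, v1, u2, v2} : Finset V).card = 6 := by
  rw [← k.NA]
  exact k.st.fA87.2.1

/-- the third pair is disjoint from `K0 A B` -/
theorem toGf (k : Fr38 G A B u0 v0 u1 v1 u2 v2) (hu : u2 ∈ G.N B) (hv : v2 ∈ G.N B) :
    Gf38 G A B (-24) u0 v0 u1 v1 u2 v2 := by
  obtain ⟨h1, h2, h3, h4⟩ := k.p2.two k.st hu hv
  refine ⟨k.st, k.sa, k.NA, k.p0, k.p1, hu, hv, by linarith, fun h => ?_, fun h => ?_, k.k01, ?_⟩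
  · have := h3 h
    linarith
  · have := h4 h
    linarith
  · intro z hz ht
    exfalso
    have h5 := (mem_Cc87.1 hz).1
    rw [k.NA] at h5
    simp only [mem_insert, mem_singleton] at h5
    rcases h5 with rfl | rfl | rfl | rfl | rfl | rfl
    · exact low_not_tw87 k.p0.lu ht
    · exact low_not_tw87 k.p0.lv ht
    · exact low_not_tw87 k.p1.lu ht
    · exact low_not_tw87 k.p1.lv ht
    · exact low_not_tw87 k.p2.lu ht
    · exact low_not_tw87 k.p2.lv ht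

theorem flip12 (k : Fr38 G A B u0 v0 u1 v1 u2 v2) : Fr38 G A B u0 v0 u2 v2 u1 v1 := by
  refine ⟨k.st, k.sa, ?_, k.p0, k.p2, k.p1, k.k02, k.k01, ?_⟩
  · rw [k.NA]
    ext z
    simp only [mem_insert, mem_singleton]
    tauto
  · intro x hx y hy
    obtain ⟨q, q1, h1, h2, h3⟩ := k.k12 y hy x hx
    exact ⟨q1, q, Gf38.K6_symm38 k.st.n9 h1, h3, h2⟩

theorem flip01 (k : Fr38 G A B u0 v0 u1 v1 u2 v2) : Fr38 G A B u1 v1 u0 v0 u2 v2 := by
  refine ⟨k.st, k.sa, ?_, k.p1, k.p0, k.p2, ?_, k.k12, k.k02⟩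
  · rw [k.NA]
    ext z
    simp only [mem_insert, mem_singleton]
    tauto
  · intro x hx y hy
    obtain ⟨q, q1, h1, h2, h3⟩ := k.k01 y hy x hx
    exact ⟨q1, q, Gf38.K6_symm38 k.st.n9 h1, h3, h2⟩

/-- a pair that meets `K0 A B` -/
theorem meet (k : Fr38 G A B u0 v0 u1 v1 u2 v2) {u v : V} (p : PP38 G A u v)
    (h : u ∈ G.K0 A B ∨ v ∈ G.K0 A B) : 12 ≤ con38 G B u + con38 G B v := by
  have aux : ∀ {u v : V}, PP38 G A u v → u ∈ G.K0 A B → 12 ≤ con38 G B u + con38 G B v := by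
    intro u v p hu
    have h1 : con38 G B u = 8 := by
      rw [con38, if_neg (mem_K087.1 hu).2, a5_low38 p.lu]
      norm_num
    by_cases hv : v ∈ G.N B
    · have h2 : 1 ≤ ka38 G A B v := by
        rw [ka38, Nat.succ_le_iff, card_pos]
        exact ⟨u, mem_inter.2 ⟨G.sym _ _ p.adj, hu⟩⟩
      have h3 := p.symm.one k.st hv h2
      rw [h1, con38, if_pos hv]
      omega
    · rw [h1, con38, if_neg hv, a5_low38 p.lv]
      norm_num
  rcases h with h | h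
  · exact aux p h
  · rw [add_comm]
    exact aux p.symm h

theorem nmeet (k : Fr38 G A B u0 v0 u1 v1 u2 v2) {u v : V} (p : PP38 G A u v)
    (h : ¬ (u ∈ G.K0 A B ∨ v ∈ G.K0 A B)) : u ∈ G.N B ∧ v ∈ G.N B := by
  rw [not_or] at h
  constructor
  · by_contra h1
    exact h.1 (mem_K087.2 ⟨p.mu, h1⟩)
  · by_contra h1
    exact h.2 (mem_K087.2 ⟨p.mv, h1⟩)

/-- one of the pairs is disjoint from `K0 A B` or all three meet it -/
theorem split (k : Fr38 G A B u0 v0 u1 v1 u2 v2) :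
    (∃ a b c d e f, Gf38 G A B (-24) a b c d e f) ∨
    ((u0 ∈ G.K0 A B ∨ v0 ∈ G.K0 A B) ∧ (u1 ∈ G.K0 A B ∨ v1 ∈ G.K0 A B) ∧
      (u2 ∈ G.K0 A B ∨ v2 ∈ G.K0 A B)) := by
  by_cases h0 : u0 ∈ G.K0 A B ∨ v0 ∈ G.K0 A B
  · by_cases h1 : u1 ∈ G.K0 A B ∨ v1 ∈ G.K0 A B
    · by_cases h2 : u2 ∈ G.K0 A B ∨ v2 ∈ G.K0 A B
      · exact Or.inr ⟨h0, h1, h2⟩
      · obtain ⟨g1, g2⟩ := k.nmeet k.p2 h2
        exact Or.inl ⟨_, _, _, _, _, _, k.toGf g1 g2⟩
    · obtain ⟨g1, g2⟩ := k.nmeet k.p1 h1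
      exact Or.inl ⟨_, _, _, _, _, _, k.flip12.toGf g1 g2⟩
  · obtain ⟨g1, g2⟩ := k.nmeet k.p0 h0
    exact Or.inl ⟨_, _, _, _, _, _, k.flip01.flip12.toGf g1 g2⟩

theorem three_le (k : Fr38 G A B u0 v0 u1 v1 u2 v2) (h0 : u0 ∈ G.K0 A B ∨ v0 ∈ G.K0 A B)
    (h1 : u1 ∈ G.K0 A B ∨ v1 ∈ G.K0 A B) (h2 : u2 ∈ G.K0 A B ∨ v2 ∈ G.K0 A B) :
    3 ≤ (G.K0 A B).card := by
  obtain ⟨n1, n2, n3, n4, n5⟩ := six38 k.c6
  simp only [mem_insert, mem_singleton, not_or] at n1 n2 n3 n4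
  obtain ⟨a, ha, haK⟩ : ∃ a, (a = u0 ∨ a = v0) ∧ a ∈ G.K0 A B := by
    rcases h0 with h | h
    exacts [⟨u0, Or.inl rfl, h⟩, ⟨v0, Or.inr rfl, h⟩]
  obtain ⟨b, hb, hbK⟩ : ∃ a, (a = u1 ∨ a = v1) ∧ a ∈ G.K0 A B := by
    rcases h1 with h | h
    exacts [⟨u1, Or.inl rfl, h⟩, ⟨v1, Or.inr rfl, h⟩]
  obtain ⟨c, hc, hcK⟩ : ∃ a, (a = u2 ∨ a = v2) ∧ a ∈ G.K0 A B := by
    rcases h2 with h | h
    exacts [⟨u2, Or.inl rfl, h⟩, ⟨v2, Or.inr rfl, h⟩]
  have e1 : a ≠ b := by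
    rcases ha with rfl | rfl <;> rcases hb with rfl | rfl
    exacts [n1.2.1, n1.2.2.1, n2.1, n2.2.1]
  have e2 : a ≠ c := by
    rcases ha with rfl | rfl <;> rcases hc with rfl | rfl
    exacts [n1.2.2.2.1, n1.2.2.2.2, n2.2.2.1, n2.2.2.2]
  have e3 : b ≠ c := by
    rcases hb with rfl | rfl <;> rcases hc with rfl | rfl
    exacts [n3.2.1, n3.2.2, n4.1, n4.2]
  have h3 : ({a, b, c} : Finset V).card = 3 := by
    rw [card_insert_of_notMem, card_pair e3]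
    simp only [mem_insert, mem_singleton, not_or]
    exact ⟨e1, e2⟩
  rw [← h3]
  apply card_le_card
  intro x hx
  simp only [mem_insert, mem_singleton] at hx
  rcases hx with rfl | rfl | rfl <;> assumption

theorem main1 (k : Fr38 G A B u0 v0 u1 v1 u2 v2) (h : (G.K0 A B).card = 1)
    (hc : ∀ y ∈ G.K0 B A, G.Low y → (G.nb y ∩ G.Cc A B).Nonempty) : 0 ≤ G.P5 (G.Co B) := by
  rcases k.split with ⟨a, b, c, d, e, f, kk⟩ | ⟨h0, h1, h2⟩
  · exact kk.all1 h hc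
  · have := k.three_le h0 h1 h2
    omega

theorem main23 (k : Fr38 G A B u0 v0 u1 v1 u2 v2) (h : G.Sx A B)
    (h2 : (G.K0 A B).card = 2 ∨ (G.K0 A B).card = 3) : 0 ≤ G.P5 (G.Co B) := by
  rcases k.split with ⟨a, b, c, d, e, f, kk⟩ | ⟨g0, g1, g2⟩
  · exact kk.all23 h h2
  · have h3 := k.three_le g0 g1 g2
    have m0 := k.meet k.p0 g0
    have m1 := k.meet k.p1 g1
    have m2 := k.meet k.p2 g2
    have s1 := ysum3_38 h (by omega)
    rw [P5_split38 k.st, k.sa, k.NA, sum_six38 k.c6]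
    linarith

end Fr38

end CG

end Pool.Agent.Lib.MP_e95c01_co.N
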