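import Pool.Agent.Lib.MP_e95c01_co.X.E7_38

/-!
# S12: frames for the exceptional fragments
-/

namespace Pool.Agent.Lib.MP_e95c01_co.N

open Finset

variable {V : Type} [Fintype V] [DecidableEq V]

namespace CG

variable {G : CG V} {A B : Finset V}

/-- a set with twins contains a pair of twins, the rest is again such a set -/
theorem ex_pair38 (n9 : 9 ≤ Fintype.card V) {S : Finset V}
    (hS : ∀ x ∈ S, ∃ x' ∈ S, G.Tw x x') (hne : S.Nonempty) :
    ∃ q q', G.Tw q q' ∧ q ∈ S ∧ q' ∈ S ∧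
      (∀ x ∈ S \ {q, q'}, ∃ x' ∈ S \ {q, q'}, G.Tw x x') ∧ (S \ {q, q'}).card + 2 = S.card := by
  obtain ⟨q, hq⟩ := hne
  obtain ⟨q', hq', ht⟩ := hS q hq
  have hsub : ({q, q'} : Finset V) ⊆ S := by
    intro x hx
    rw [mem_insert, mem_singleton] at hx
    rcases hx with rfl | rfl <;> assumption
  have htw := stTwHL_5 G
  refine ⟨q, q', ht, hq, hq', ?_, ?_⟩
  · intro x hx
    obtain ⟨h1, h2⟩ := mem_sdiff.1 hx
    rw [mem_insert, mem_singleton, not_or] at h2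
    obtain ⟨x', hx', h3⟩ := hS x h1
    refine ⟨x', mem_sdiff.2 ⟨hx', ?_⟩, h3⟩
    rw [mem_insert, mem_singleton, not_or]
    constructor
    · rintro rfl
      exact h2.2 (htw.uniq n9 _ _ _ (htw.symm _ _ h3) ht)
    · rintro rfl
      exact h2.1 (htw.uniq n9 _ _ _ (htw.symm _ _ h3) (htw.symm _ _ ht))
  · have h1 := card_sdiff_add_card_eq_card hsub
    rw [card_pair (Tw_ne87 ht)] at h1
    exact h1

/-- the parts of the neighbourhood of a vertex of a complete fragment -/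
theorem pTcl38 (h : G.Strip A B) (hcl : ∀ x ∈ A, ∀ y ∈ A, x ≠ y → y ∈ G.nb x)
    (hT : ∀ x ∈ A, G.IsTw x) {q : V} (hq : q ∈ A) : (G.pT A q).card + A.card = 8 := by
  have h1 := nb_split87 (G := G) A q
  obtain ⟨q', hq'⟩ := hT q hq
  have h2 : (G.nb q).card = 7 := Tw_card87 hq'
  have h3 : G.pX A q = A.erase q := by
    ext x
    rw [pX, mem_inter, mem_erase]
    constructor
    · rintro ⟨g1, g2⟩
      exact ⟨(ne_of_nb5 g1).symm, g2⟩
    · rintro ⟨g1, g2⟩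
      exact ⟨hcl q hq x g2 g1.symm, g2⟩
  have h4 : (G.pX A q).card + 1 = A.card := by
    rw [h3, card_erase_of_mem hq]
    have := card_pos.2 ⟨q, hq⟩
    omega
  have h5 : (G.pO A q).card = 0 := by
    rw [Finset.card_eq_zero, eq_empty_iff_forall_notMem]
    intro x hx
    obtain ⟨g1, g2⟩ := mem_inter.1 hx
    rcases nb_B1 hq g1 with g3 | g3
    · exact (mem_Co1.1 g2).1 g3
    · exact (mem_Co1.1 g2).2 g3
  have _ := h
  omega

/-- twins of a fragment have the same neighbours outside of it -/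
theorem pTtw38 (h : G.Strip A B) {q q' : V} (hq : q ∈ A) (ht : G.Tw q q') :
    G.pT A q' = G.pT A q := by
  have hq' := twA38 h.fA87 hq ht
  have ht' := (stTwHL_5 G).symm _ _ ht
  ext x
  rw [pT, pT, mem_inter, mem_inter]
  constructor
  · rintro ⟨h1, h2⟩
    exact ⟨Tw_nb5 ht' h1 fun h3 => (mem_N1.1 h2).1 (h3 ▸ hq), h2⟩
  · rintro ⟨h1, h2⟩
    exact ⟨Tw_nb5 ht h1 fun h3 => (mem_N1.1 h2).1 (h3 ▸ hq'), h2⟩

theorem sumA38 (hT : ∀ x ∈ A, G.IsTw x) : ∑ v ∈ A, 2 * G.a5 v = -4 * (A.card : ℤ) := by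
  have h1 : ∀ v ∈ A, 2 * G.a5 v = -4 := by
    intro v hv
    rw [a5_nlow38 fun h => low_not_tw87 h (hT v hv)]
    norm_num
  rw [sum_congr rfl h1, sum_const, nsmul_eq_mul]
  ring

/-- three mutually adjacent pairs -/
theorem frame6_38 (hC : G.Crit) (h : G.Strip A B) (hT : ∀ x ∈ A, G.IsTw x)
    (hcl : ∀ x ∈ A, ∀ y ∈ A, x ≠ y → y ∈ G.nb x) (h6 : A.card = 6) :
    ∃ u0 v0 u1 v1 u2 v2, Fr38 G A B u0 v0 u1 v1 u2 v2 := by
  have n9 := h.n9
  have hS : ∀ x ∈ A, ∃ x' ∈ A, G.Tw x x' := by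
    intro x hx
    obtain ⟨x', hx'⟩ := hT x hx
    exact ⟨x', twA38 h.fA87 hx hx', hx'⟩
  obtain ⟨q0, q0', t0, m0, m0', hS1, c1⟩ := ex_pair38 n9 hS (card_pos.1 (by omega))
  obtain ⟨q1, q1', t1, m1, m1', hS2, c2⟩ := ex_pair38 n9 hS1 (card_pos.1 (by omega))
  obtain ⟨q2, q2', t2, m2, m2', hS3, c3⟩ := ex_pair38 n9 hS2 (card_pos.1 (by omega))
  have hA : ∀ x ∈ A, (x = q0 ∨ x = q0') ∨ (x = q1 ∨ x = q1') ∨ (x = q2 ∨ x = q2') := by
    intro x hx
    by_contra hno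
    push Not at hno
    obtain ⟨⟨a1, a2⟩, ⟨a3, a4⟩, a5, a6⟩ := hno
    have e0 : (((A \ {q0, q0'}) \ {q1, q1'}) \ {q2, q2'}).card = 0 := by omega
    rw [Finset.card_eq_zero] at e0
    have : x ∈ ((A \ {q0, q0'}) \ {q1, q1'}) \ {q2, q2'} := by
      simp only [mem_sdiff, mem_insert, mem_singleton, not_or]
      exact ⟨⟨⟨hx, a1, a2⟩, a3, a4⟩, a5, a6⟩
    rw [e0] at this
    exact notMem_empty _ this
  simp only [mem_sdiff, mem_insert, mem_singleton, not_or] at m1 m1' m2 m2'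
  have A1 := m1.1
  have A1' := m1'.1
  have A2 := m2.1.1
  have A2' := m2'.1.1
  have d0 := pTcl38 h hcl hT m0
  have d1 := pTcl38 h hcl hT A1
  have d2 := pTcl38 h hcl hT A2
  obtain ⟨u0, v0, n0, P0⟩ := card_eq_two.1 (show (G.pT A q0).card = 2 by omega)
  obtain ⟨u1, v1, n1, P1⟩ := card_eq_two.1 (show (G.pT A q1).card = 2 by omega)
  obtain ⟨u2, v2, n2, P2⟩ := card_eq_two.1 (show (G.pT A q2).card = 2 by omega)
  have P0' := (pTtw38 h m0 t0).trans P0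
  have P1' := (pTtw38 h A1 t1).trans P1
  have P2' := (pTtw38 h A2 t2).trans P2
  have hNA : G.N A = {u0, v0, u1, v1, u2, v2} := by
    ext w
    simp only [mem_insert, mem_singleton]
    constructor
    · intro hw
      obtain ⟨-, x, hx, hxw⟩ := mem_N1.1 hw
      have hw' : w ∈ G.pT A x := mem_inter.2 ⟨hxw, hw⟩
      rcases hA x hx with (rfl | rfl) | (rfl | rfl) | (rfl | rfl)
      · rw [P0, mem_insert, mem_singleton] at hw'
        rcases hw' with h1 | h1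
        exacts [Or.inl h1, Or.inr (Or.inl h1)]
      · rw [P0', mem_insert, mem_singleton] at hw'
        rcases hw' with h1 | h1
        exacts [Or.inl h1, Or.inr (Or.inl h1)]
      · rw [P1, mem_insert, mem_singleton] at hw'
        rcases hw' with h1 | h1
        exacts [Or.inr (Or.inr (Or.inl h1)), Or.inr (Or.inr (Or.inr (Or.inl h1)))]
      · rw [P1', mem_insert, mem_singleton] at hw'
        rcases hw' with h1 | h1
        exacts [Or.inr (Or.inr (Or.inl h1)), Or.inr (Or.inr (Or.inr (Or.inl h1)))]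
      · rw [P2, mem_insert, mem_singleton] at hw'
        rcases hw' with h1 | h1
        exacts [Or.inr (Or.inr (Or.inr (Or.inr (Or.inl h1)))),
          Or.inr (Or.inr (Or.inr (Or.inr (Or.inr h1))))]
      · rw [P2', mem_insert, mem_singleton] at hw'
        rcases hw' with h1 | h1
        exacts [Or.inr (Or.inr (Or.inr (Or.inr (Or.inl h1)))),
          Or.inr (Or.inr (Or.inr (Or.inr (Or.inr h1))))]
    · have aux : ∀ q u v : V, G.pT A q = {u, v} → u ∈ G.N A ∧ v ∈ G.N A := by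
        intro q u v hP
        have g1 : u ∈ G.pT A q := by rw [hP]; exact mem_insert_self _ _
        have g2 : v ∈ G.pT A q := by rw [hP]; exact mem_insert_of_mem (mem_singleton_self _)
        exact ⟨(mem_inter.1 g1).2, (mem_inter.1 g2).2⟩
      rintro (rfl | rfl | rfl | rfl | rfl | rfl)
      exacts [(aux _ _ _ P0).1, (aux _ _ _ P0).2, (aux _ _ _ P1).1, (aux _ _ _ P1).2,
        (aux _ _ _ P2).1, (aux _ _ _ P2).2]
  have hc6 : ({u0, v0, u1, v1, u2, v2} : Finset V).card = 6 := by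
    rw [← hNA]
    exact h.fA87.2.1
  obtain ⟨e1, e2, e3, e4, e5⟩ := six38 hc6
  simp only [mem_insert, mem_singleton, not_or] at e1 e2 e3 e4
  -- the ports of one pair
  have mk : ∀ q q' u v : V, q ∈ A → G.Tw q q' → G.pT A q = {u, v} →
      (∀ x ∈ A, x = q ∨ x = q' ∨ (u ∉ G.pT A x ∧ v ∉ G.pT A x)) → PP38 G A u v := by
    intro q q' u v hq ht hP hx
    have g1 : u ∈ G.pT A q := by rw [hP]; exact mem_insert_self _ _
    have g2 : v ∈ G.pT A q := by rw [hP]; exact mem_insert_of_mem (mem_singleton_self _)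
    obtain ⟨g3, g4⟩ := mem_inter.1 g1
    obtain ⟨g5, g6⟩ := mem_inter.1 g2
    refine mkPP38 hC h hT hq ht g4 g6 g3 g5 ?_ ?_ ?_
    · intro x hx'
      obtain ⟨k1, k2⟩ := mem_inter.1 hx'
      rw [mem_insert, mem_singleton]
      rcases hx x k2 with k3 | k3 | ⟨k3, -⟩
      · exact Or.inl k3
      · exact Or.inr k3
      · exact absurd (mem_inter.2 ⟨G.sym _ _ k1, g4⟩) k3
    · intro x hx'
      obtain ⟨k1, k2⟩ := mem_inter.1 hx'
      rw [mem_insert, mem_singleton]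
      rcases hx x k2 with k3 | k3 | ⟨-, k3⟩
      · exact Or.inl k3
      · exact Or.inr k3
      · exact absurd (mem_inter.2 ⟨G.sym _ _ k1, g6⟩) k3
    · intro x hx'
      rcases nb_B1 hq hx' with k1 | k1
      · exact Or.inl k1
      · have : x ∈ G.pT A q := mem_inter.2 ⟨hx', k1⟩
        rw [hP, mem_insert, mem_singleton] at this
        rcases this with k2 | k2
        · exact Or.inr (Or.inl k2)
        · exact Or.inr (Or.inr (Or.inl k2))
  have nm : ∀ {x a b : V} {S : Finset V}, S = {a, b} → x ≠ a → x ≠ b → x ∉ S := by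
    intro x a b S hS k1 k2 k3
    rw [hS, mem_insert, mem_singleton] at k3
    rcases k3 with k3 | k3
    exacts [k1 k3, k2 k3]
  have p0 : PP38 G A u0 v0 := by
    refine mk q0 q0' u0 v0 m0 t0 P0 fun x hx => ?_
    rcases hA x hx with (k | k) | (rfl | rfl) | (rfl | rfl)
    · exact Or.inl k
    · exact Or.inr (Or.inl k)
    · exact Or.inr (Or.inr ⟨nm P1 e1.2.1 e1.2.2.1, nm P1 e2.1 e2.2.1⟩)
    · exact Or.inr (Or.inr ⟨nm P1' e1.2.1 e1.2.2.1, nm P1' e2.1 e2.2.1⟩)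
    · exact Or.inr (Or.inr ⟨nm P2 e1.2.2.2.1 e1.2.2.2.2, nm P2 e2.2.2.1 e2.2.2.2⟩)
    · exact Or.inr (Or.inr ⟨nm P2' e1.2.2.2.1 e1.2.2.2.2, nm P2' e2.2.2.1 e2.2.2.2⟩)
  have p1 : PP38 G A u1 v1 := by
    refine mk q1 q1' u1 v1 A1 t1 P1 fun x hx => ?_
    rcases hA x hx with (rfl | rfl) | (k | k) | (rfl | rfl)
    · exact Or.inr (Or.inr ⟨nm P0 (Ne.symm e1.2.1) (Ne.symm e2.1),
        nm P0 (Ne.symm e1.2.2.1) (Ne.symm e2.2.1)⟩)
    · exact Or.inr (Or.inr ⟨nm P0' (Ne.symm e1.2.1) (Ne.symm e2.1),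
        nm P0' (Ne.symm e1.2.2.1) (Ne.symm e2.2.1)⟩)
    · exact Or.inl k
    · exact Or.inr (Or.inl k)
    · exact Or.inr (Or.inr ⟨nm P2 e3.2.1 e3.2.2, nm P2 e4.1 e4.2⟩)
    · exact Or.inr (Or.inr ⟨nm P2' e3.2.1 e3.2.2, nm P2' e4.1 e4.2⟩)
  have p2 : PP38 G A u2 v2 := by
    refine mk q2 q2' u2 v2 A2 t2 P2 fun x hx => ?_
    rcases hA x hx with (rfl | rfl) | (rfl | rfl) | (k | k)
    · exact Or.inr (Or.inr ⟨nm P0 (Ne.symm e1.2.2.2.1) (Ne.symm e2.2.2.1),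
        nm P0 (Ne.symm e1.2.2.2.2) (Ne.symm e2.2.2.2)⟩)
    · exact Or.inr (Or.inr ⟨nm P0' (Ne.symm e1.2.2.2.1) (Ne.symm e2.2.2.1),
        nm P0' (Ne.symm e1.2.2.2.2) (Ne.symm e2.2.2.2)⟩)
    · exact Or.inr (Or.inr ⟨nm P1 (Ne.symm e3.2.1) (Ne.symm e4.1),
        nm P1 (Ne.symm e3.2.2) (Ne.symm e4.2)⟩)
    · exact Or.inr (Or.inr ⟨nm P1' (Ne.symm e3.2.1) (Ne.symm e4.1),
        nm P1' (Ne.symm e3.2.2) (Ne.symm e4.2)⟩)
    · exact Or.inl k
    · exact Or.inr (Or.inl k)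
  -- adjacency of the pairs
  have hK01 : G.K6 q0 q1 := by
    refine ⟨q0', q1', q2, q2', t0, t1, t2, hcl _ m0 _ A1 ?_, hcl _ m0 _ A2 ?_, hcl _ A1 _ A2 ?_,
      m1.2.2, m2.1.2.2, m2.2.2⟩
    exacts [Ne.symm m1.2.1, Ne.symm m2.1.2.1, Ne.symm m2.2.1]
  have hK02 : G.K6 q0 q2 := by
    refine ⟨q0', q2', q1, q1', t0, t2, t1, hcl _ m0 _ A2 ?_, hcl _ m0 _ A1 ?_, hcl _ A2 _ A1 ?_,
      m2.1.2.2, m1.2.2, ?_⟩
    · exact Ne.symm m2.1.2.1
    · exact Ne.symm m1.2.1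
    · exact m2.2.1
    · exact Ne.symm m2'.2.1
  have hK12 : G.K6 q1 q2 := by
    refine ⟨q1', q2', q0, q0', t1, t2, t0, hcl _ A1 _ A2 ?_, hcl _ A1 _ m0 ?_, hcl _ A2 _ m0 ?_,
      m2.2.2, ?_, ?_⟩
    · exact Ne.symm m2.2.1
    · exact m1.2.1
    · exact m2.1.2.1
    · exact Ne.symm m1'.2.1
    · exact Ne.symm m2'.1.2.1
  have adj : ∀ q u v : V, G.pT A q = {u, v} → ∀ x, (x = u ∨ x = v) → q ∈ G.nb x := by
    intro q u v hP x hx
    have : x ∈ G.pT A q := by rw [hP, mem_insert, mem_singleton]; exact hx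
    exact G.sym _ _ (mem_inter.1 this).1
  refine ⟨u0, v0, u1, v1, u2, v2, h, ?_, hNA, p0, p1, p2, ?_, ?_, ?_⟩
  · rw [sumA38 hT, h6]
    norm_num
  · exact fun x hx y hy => ⟨q0, q1, hK01, adj _ _ _ P0 x hx, adj _ _ _ P1 y hy⟩
  · exact fun x hx y hy => ⟨q0, q2, hK02, adj _ _ _ P0 x hx, adj _ _ _ P2 y hy⟩
  · exact fun x hx y hy => ⟨q1, q2, hK12, adj _ _ _ P1 x hx, adj _ _ _ P2 y hy⟩

end CG

end Pool.Agent.Lib.MP_e95c01_co.N
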