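import Pool.Agent.Lib.MP_e95c01_co.X.E8_38

/-!
# S12a and S12b
-/

namespace Pool.Agent.Lib.MP_e95c01_co.N

open Finset

variable {V : Type} [Fintype V] [DecidableEq V]

namespace CG

variable {G : CG V} {A B : Finset V}

/-- the third pair in the neighbourhood, as a common vertex -/
theorem third38 (h : G.Strip A B) (h4 : A.card = 4) {s t : V} (ht : G.Tw s t) (htA : t ∈ G.N A)
    (hsB : s ∈ G.N B) (hsub : A ⊆ G.nb s) :
    ka38 G A B s = 0 ∧ G.pT B s = {t} ∧ -1 ≤ vv38 G B s := by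
  classical
  have htB : t ∈ G.N B := ((tw_part87 h (R_of_NB87 h hsB) ht).2.2).2 hsB
  have h1 := nb_split87 (G := G) B s
  have h2 : (G.nb s).card = 7 := Tw_card87 ht
  have h3 := pO_card87 h.symm38 s
  have h5 : (G.pX A s).card = 4 := by
    rw [pX, inter_eq_right.2 hsub, h4]
  have h6 := pX_tw87 h.symm38 hsB ⟨t, ht⟩
  have h7 : t ∈ G.pT B s := mem_inter.2 ⟨ht.1, htB⟩
  have h8 : 1 ≤ (G.pT B s).card := by
    rw [Nat.succ_le_iff, card_pos]
    exact ⟨t, h7⟩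
  have h9 : (G.pT B s).card = 1 := by omega
  have _ := htA
  refine ⟨by rw [ka38]; omega, ?_, ?_⟩
  · obtain ⟨x, hx⟩ := card_eq_one.1 h9
    rw [hx, mem_singleton] at h7
    rw [hx, h7]
  · rw [vv_tw38 ⟨t, ht⟩]
    split_ifs <;> omega

/-- two adjacent pairs with a third one in `N A ∩ N B` -/
theorem frame4_38 (hC : G.Crit) (h : G.Strip A B) (hT : ∀ x ∈ A, G.IsTw x)
    (hcl : ∀ x ∈ A, ∀ y ∈ A, x ≠ y → y ∈ G.nb x) (h4 : A.card = 4) {s t : V} (ht : G.Tw s t)
    (hsA : s ∈ G.N A) (htA : t ∈ G.N A) (hsub : A ⊆ G.nb s) (hsB : s ∈ G.N B) :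
    ∃ u0 v0 u1 v1, Gf38 G A B (-16) u0 v0 u1 v1 s t := by
  have n9 := h.n9
  have ht' := (stTwHL_5 G).symm _ _ ht
  have htB : t ∈ G.N B := ((tw_part87 h (R_of_NB87 h hsB) ht).2.2).2 hsB
  have hsub' : A ⊆ G.nb t := by
    intro x hx
    refine Tw_nb5 ht (hsub hx) ?_
    rintro rfl
    exact (mem_N1.1 htA).1 hx
  obtain ⟨s1, s2, s3⟩ := third38 h h4 ht htA hsB hsub
  obtain ⟨t1, t2, t3⟩ := third38 h h4 ht' hsA htB hsub'
  have hS : ∀ x ∈ A, ∃ x' ∈ A, G.Tw x x' := by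
    intro x hx
    obtain ⟨x', hx'⟩ := hT x hx
    exact ⟨x', twA38 h.fA87 hx hx', hx'⟩
  obtain ⟨q0, q0', t0, m0, m0', hS1, c1⟩ := ex_pair38 n9 hS (card_pos.1 (by omega))
  obtain ⟨q1, q1', tt1, m1, m1', hS2, c2⟩ := ex_pair38 n9 hS1 (card_pos.1 (by omega))
  have hA : ∀ x ∈ A, (x = q0 ∨ x = q0') ∨ (x = q1 ∨ x = q1') := by
    intro x hx
    by_contra hno
    push Not at hno
    obtain ⟨⟨a1, a2⟩, a3, a4⟩ := hno
    have e0 : ((A \ {q0, q0'}) \ {q1, q1'}).card = 0 := by omega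
    rw [Finset.card_eq_zero] at e0
    have : x ∈ (A \ {q0, q0'}) \ {q1, q1'} := by
      simp only [mem_sdiff, mem_insert, mem_singleton, not_or]
      exact ⟨⟨hx, a1, a2⟩, a3, a4⟩
    rw [e0] at this
    exact notMem_empty _ this
  simp only [mem_sdiff, mem_insert, mem_singleton, not_or] at m1 m1'
  have A1 := m1.1
  have d0 := pTcl38 h hcl hT m0
  have d1 := pTcl38 h hcl hT A1
  have hst : s ≠ t := Tw_ne87 ht
  have two : ∀ q ∈ A, (G.pT A q).card = 4 → ∃ u v, u ≠ v ∧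
      ∀ x, x ∈ G.pT A q ↔ x = u ∨ x = v ∨ x = s ∨ x = t := by
    intro q hq hc
    have g1 : s ∈ G.pT A q := mem_inter.2 ⟨G.sym _ _ (hsub hq), hsA⟩
    have g2 : t ∈ G.pT A q := mem_inter.2 ⟨G.sym _ _ (hsub' hq), htA⟩
    have g3 : ({s, t} : Finset V) ⊆ G.pT A q := by
      intro x hx
      rw [mem_insert, mem_singleton] at hx
      rcases hx with rfl | rfl <;> assumption
    have g4 : (G.pT A q \ {s, t}).card = 2 := by
      rw [card_sdiff_of_subset g3, card_pair hst, hc]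
    obtain ⟨u, v, huv, g5⟩ := card_eq_two.1 g4
    refine ⟨u, v, huv, fun x => ?_⟩
    constructor
    · intro hx
      by_cases hx' : x ∈ ({s, t} : Finset V)
      · rw [mem_insert, mem_singleton] at hx'
        exact Or.inr (Or.inr hx')
      · have : x ∈ G.pT A q \ {s, t} := mem_sdiff.2 ⟨hx, hx'⟩
        rw [g5, mem_insert, mem_singleton] at this
        rcases this with k | k
        exacts [Or.inl k, Or.inr (Or.inl k)]
    · rintro (k | k | k | k)
      · have : x ∈ G.pT A q \ {s, t} := by rw [g5, k]; exact mem_insert_self _ _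
        exact (mem_sdiff.1 this).1
      · have : x ∈ G.pT A q \ {s, t} := by
          rw [g5, k]; exact mem_insert_of_mem (mem_singleton_self _)
        exact (mem_sdiff.1 this).1
      · rw [k]; exact g1
      · rw [k]; exact g2
  obtain ⟨u0, v0, n0, P0⟩ := two q0 m0 (by omega)
  obtain ⟨u1, v1, n1, P1⟩ := two q1 A1 (by omega)
  have E0 := pTtw38 h m0 t0
  have E1 := pTtw38 h A1 tt1
  have hNA : G.N A = {u0, v0, u1, v1, s, t} := by
    ext w
    simp only [mem_insert, mem_singleton]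
    constructor
    · intro hw
      obtain ⟨-, x, hx, hxw⟩ := mem_N1.1 hw
      have hw' : w ∈ G.pT A x := mem_inter.2 ⟨hxw, hw⟩
      have hw2 : w ∈ G.pT A q0 ∨ w ∈ G.pT A q1 := by
        rcases hA x hx with (rfl | rfl) | (rfl | rfl)
        · exact Or.inl hw'
        · exact Or.inl (E0 ▸ hw')
        · exact Or.inr hw'
        · exact Or.inr (E1 ▸ hw')
      rcases hw2 with k | k
      · rcases (P0 w).1 k with k | k | k | k
        exacts [Or.inl k, Or.inr (Or.inl k), Or.inr (Or.inr (Or.inr (Or.inr (Or.inl k)))),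
          Or.inr (Or.inr (Or.inr (Or.inr (Or.inr k))))]
      · rcases (P1 w).1 k with k | k | k | k
        exacts [Or.inr (Or.inr (Or.inl k)), Or.inr (Or.inr (Or.inr (Or.inl k))),
          Or.inr (Or.inr (Or.inr (Or.inr (Or.inl k)))),
          Or.inr (Or.inr (Or.inr (Or.inr (Or.inr k))))]
    · rintro (k | k | k | k | k | k)
      · exact (mem_inter.1 ((P0 w).2 (Or.inl k))).2
      · exact (mem_inter.1 ((P0 w).2 (Or.inr (Or.inl k)))).2
      · exact (mem_inter.1 ((P1 w).2 (Or.inl k))).2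
      · exact (mem_inter.1 ((P1 w).2 (Or.inr (Or.inl k)))).2
      · rw [k]; exact hsA
      · rw [k]; exact htA
  have hc6 : ({u0, v0, u1, v1, s, t} : Finset V).card = 6 := by
    rw [← hNA]
    exact h.fA87.2.1
  obtain ⟨e1, e2, e3, e4, e5⟩ := six38 hc6
  simp only [mem_insert, mem_singleton, not_or] at e1 e2 e3 e4
  -- no port is adjacent to `s` or `t`
  have hno : ∀ w ∈ G.N A, w ≠ s → w ≠ t → w ∉ G.nb s ∧ w ∉ G.nb t := by
    intro w hw k1 k2
    have aux : ∀ s t : V, ka38 G A B s = 0 → G.pT B s = {t} → w ≠ t → w ∉ G.nb s := by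
      intro s t g1 g2 g3 g4
      by_cases g5 : w ∈ G.N B
      · have : w ∈ G.pT B s := mem_inter.2 ⟨g4, g5⟩
        rw [g2, mem_singleton] at this
        exact g3 this
      · rw [ka38, Finset.card_eq_zero] at g1
        have : w ∈ G.nb s ∩ G.K0 A B := mem_inter.2 ⟨g4, mem_K087.2 ⟨hw, g5⟩⟩
        rw [g1] at this
        exact notMem_empty _ this
    exact ⟨aux s t s1 s2 k2, aux t s t1 t2 k1⟩
  -- the ports of one pair
  have mk : ∀ q q' u v : V, q ∈ A → G.Tw q q' →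
      (∀ x, x ∈ G.pT A q ↔ x = u ∨ x = v ∨ x = s ∨ x = t) →
      (u ≠ s ∧ u ≠ t ∧ v ≠ s ∧ v ≠ t) →
      (∀ x ∈ A, x = q ∨ x = q' ∨ (u ∉ G.pT A x ∧ v ∉ G.pT A x)) → PP38 G A u v := by
    intro q q' u v hq hqq hP hne hx
    obtain ⟨k1, k2, k3, k4⟩ := hne
    obtain ⟨g3, g4⟩ := mem_inter.1 ((hP u).2 (Or.inl rfl))
    obtain ⟨g5, g6⟩ := mem_inter.1 ((hP v).2 (Or.inr (Or.inl rfl)))
    refine mkPP38 hC h hT hq hqq g4 g6 g3 g5 ?_ ?_ ?_
    · intro x hx'
      obtain ⟨l1, l2⟩ := mem_inter.1 hx'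
      rw [mem_insert, mem_singleton]
      rcases hx x l2 with l3 | l3 | ⟨l3, -⟩
      · exact Or.inl l3
      · exact Or.inr l3
      · exact absurd (mem_inter.2 ⟨G.sym _ _ l1, g4⟩) l3
    · intro x hx'
      obtain ⟨l1, l2⟩ := mem_inter.1 hx'
      rw [mem_insert, mem_singleton]
      rcases hx x l2 with l3 | l3 | ⟨-, l3⟩
      · exact Or.inl l3
      · exact Or.inr l3
      · exact absurd (mem_inter.2 ⟨G.sym _ _ l1, g6⟩) l3
    · intro x hx'
      rcases nb_B1 hq hx' with l1 | l1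
      · exact Or.inl l1
      · rcases (hP x).1 (mem_inter.2 ⟨hx', l1⟩) with l2 | l2 | l2 | l2
        · exact Or.inr (Or.inl l2)
        · exact Or.inr (Or.inr (Or.inl l2))
        · exact Or.inr (Or.inr (Or.inr ⟨l2 ▸ ⟨t, ht⟩, by rw [l2]; exact (hno u g4 k1 k2).1,
            by rw [l2]; exact (hno v g6 k3 k4).1⟩))
        · exact Or.inr (Or.inr (Or.inr ⟨l2 ▸ ⟨s, ht'⟩, by rw [l2]; exact (hno u g4 k1 k2).2,
            by rw [l2]; exact (hno v g6 k3 k4).2⟩))
  have p0 : PP38 G A u0 v0 := by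
    refine mk q0 q0' u0 v0 m0 t0 P0 ⟨e1.2.2.2.1, e1.2.2.2.2, e2.2.2.1, e2.2.2.2⟩ fun x hx => ?_
    have key : u0 ∉ G.pT A q1 ∧ v0 ∉ G.pT A q1 := by
      constructor
      · intro k
        rcases (P1 _).1 k with k | k | k | k
        exacts [e1.2.1 k, e1.2.2.1 k, e1.2.2.2.1 k, e1.2.2.2.2 k]
      · intro k
        rcases (P1 _).1 k with k | k | k | k
        exacts [e2.1 k, e2.2.1 k, e2.2.2.1 k, e2.2.2.2 k]
    rcases hA x hx with (k | k) | (rfl | rfl)
    · exact Or.inl k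
    · exact Or.inr (Or.inl k)
    · exact Or.inr (Or.inr key)
    · rw [E1]
      exact Or.inr (Or.inr key)
  have p1 : PP38 G A u1 v1 := by
    refine mk q1 q1' u1 v1 A1 tt1 P1 ⟨e3.2.1, e3.2.2, e4.1, e4.2⟩ fun x hx => ?_
    have key : u1 ∉ G.pT A q0 ∧ v1 ∉ G.pT A q0 := by
      constructor
      · intro k
        rcases (P0 _).1 k with k | k | k | k
        exacts [e1.2.1 k.symm, e2.1 k.symm, e3.2.1 k, e3.2.2 k]
      · intro k
        rcases (P0 _).1 k with k | k | k | k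
        exacts [e1.2.2.1 k.symm, e2.2.1 k.symm, e4.1 k, e4.2 k]
    rcases hA x hx with (rfl | rfl) | (k | k)
    · exact Or.inr (Or.inr key)
    · rw [E0]
      exact Or.inr (Or.inr key)
    · exact Or.inl k
    · exact Or.inr (Or.inl k)
  have sNA : s ∉ A := fun k => (mem_N1.1 hsA).1 k
  have hK01 : G.K6 q0 q1 := by
    refine ⟨q0', q1', s, t, t0, tt1, ht, hcl _ m0 _ A1 ?_, G.sym _ _ (hsub m0),
      G.sym _ _ (hsub A1), m1.2.2, ?_, ?_⟩
    · exact Ne.symm m1.2.1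
    · exact fun k => sNA (k ▸ m0')
    · exact fun k => sNA (k ▸ m1'.1)
  have adj : ∀ q u v : V, (∀ x, x ∈ G.pT A q ↔ x = u ∨ x = v ∨ x = s ∨ x = t) →
      ∀ x, (x = u ∨ x = v) → q ∈ G.nb x := by
    intro q u v hP x hx
    have : x ∈ G.pT A q := by
      rw [hP]
      rcases hx with k | k
      exacts [Or.inl k, Or.inr (Or.inl k)]
    exact G.sym _ _ (mem_inter.1 this).1
  refine ⟨u0, v0, u1, v1, h, ?_, hNA, p0, p1, hsB, htB, by linarith, ?_, ?_, ?_, ?_⟩
  · rw [sumA38 hT, h4]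
    norm_num
  · intro k
    omega
  · intro k
    omega
  · exact fun x hx y hy => ⟨q0, q1, hK01, adj _ _ _ P0 x hx, adj _ _ _ P1 y hy⟩
  · intro z hz htz y hy hyz
    obtain ⟨g1, g2⟩ := mem_Cc87.1 hz
    obtain ⟨g3, g4⟩ := mem_K087.1 hy
    have g5 : y ∈ G.pT B z := mem_inter.2 ⟨hyz, g3⟩
    rw [hNA] at g1
    simp only [mem_insert, mem_singleton] at g1
    rcases g1 with rfl | rfl | rfl | rfl | rfl | rfl
    · exact low_not_tw87 p0.lu htz
    · exact low_not_tw87 p0.lv htz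
    · exact low_not_tw87 p1.lu htz
    · exact low_not_tw87 p1.lv htz
    · rw [s2, mem_singleton] at g5
      exact g4 (g5 ▸ htA)
    · rw [t2, mem_singleton] at g5
      exact g4 (g5 ▸ hsA)

/-- S12a -/
theorem stEx1_38 (G : CG V) (hC : G.Crit) : G.StEx1 := by
  intro A B h hE h1 hcov
  obtain ⟨hT, hcl, hcard⟩ := hE
  have h1' : (G.K0 A B).card = 1 := h1
  have hc : ∀ y ∈ G.K0 B A, G.Low y → (G.nb y ∩ G.Cc A B).Nonempty := by
    intro y hy _
    obtain ⟨x, hx⟩ := card_eq_one.1 h1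
    obtain ⟨y', hy'⟩ := card_eq_one.1 (h.s1_87.card_eq ▸ h1)
    have hyy : y = y' := by
      have : y ∈ G.N B \ G.N A := hy
      rw [hy', mem_singleton] at this
      exact this
    subst hyy
    have hadj := h.s1_87.adj hx hy'
    have hxm : x ∈ G.N A \ G.N B := by rw [hx]; exact mem_singleton_self _
    have := (h.s1_87.cover h.sat G.stSmall_76 hx hy' (hcov y hy x hxm (G.sym _ _ hadj))).1
    rcases this with ⟨c, g1, g2, -⟩ | ⟨c, g1, -, -, -, g2, -⟩ | ⟨-, c, g1, g2⟩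
    all_goals exact ⟨c, mem_inter.2 ⟨g2, g1⟩⟩
  rcases hcard with h6 | ⟨h4, s, t, ht, hsA, htA, hsub⟩
  · obtain ⟨u0, v0, u1, v1, u2, v2, k⟩ := frame6_38 hC h hT hcl h6
    exact k.main1 h1' hc
  · have hsB : s ∈ G.N B := by
      by_contra hsB
      have g1 : s ∈ G.K0 A B := mem_K087.2 ⟨hsA, hsB⟩
      have g2 := h.twK38 g1 ht
      have := two_le5 g1 g2 (Tw_ne87 ht)
      omega
    obtain ⟨u0, v0, u1, v1, k⟩ := frame4_38 hC h hT hcl h4 ht hsA htA hsub hsB
    exact k.all1 h1' hc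

end CG

end Pool.Agent.Lib.MP_e95c01_co.N
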