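import Pool.Agent.Lib.MP_e95c01_co.X.StmtsF76
import Pool.Agent.Lib.MP_e95c01_co.X.Ident50
import Pool.Agent.Lib.MP_e95c01_co.T.F1_42
import Pool.Agent.Lib.MP_e95c01_co.T.F3_33

/-!
# `λ = 3`, fragments with three vertices: the situation (G0) and the bounds (G1)
-/

namespace Pool.Agent.Lib.MP_e95c01_co.N

open Finset

variable {V : Type} [Fintype V] [DecidableEq V]

namespace CG

variable {G : CG V} {F S : Finset V}

/-! ### partition of the neighbours, types of the flags -/

theorem dg16 (G : CG V) (S : Finset V) (z : V) :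
    (G.nb z).card = (G.pX S z).card + (G.pT S z).card + (G.pO S z).card :=
  (d_split76 (G := G) z S).symm

theorem pX_co16 (F : Finset V) (z : V) : G.pX (G.Co F) z = G.pO F z := rfl

theorem pT_co16 (hF : G.Frag F) (z : V) : G.pT (G.Co F) z = G.pT F z := by
  rw [pT, pT, (G.stCo_37 F hF).2.1]

theorem pO_co16 (hF : G.Frag F) (z : V) : G.pO (G.Co F) z = G.pX F z := by
  rw [pO, pX, (G.stCo_37 F hF).2.2]

theorem pair_card16 {A : Finset V} (h : G.PairSet A) : A.card = 2 := by
  obtain ⟨v, w, h1, rfl⟩ := h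
  exact card_pair (ne_of_nb5 h1.1)

theorem s5_nn16 (G : CG V) (S : Finset V) (z : V) : 0 ≤ G.s5 S z ∧ G.s5 S z ≤ 2 := by
  rw [s5]
  split_ifs <;> constructor <;> norm_num

theorem S0_type16 {z v : V} (h : G.S0 S z v) : z ∈ G.N S ∧ G.Low z ∧ (G.pX S z).card = 2 ∧
    (G.pT S z).card = 1 ∧ (G.pO S z).card = 3 := by
  obtain ⟨h1, h2, h3, h4, ⟨q, q', h5, h6, h7⟩, h8⟩ := h
  have e1 : (G.pX S z).card = 2 := by
    rw [h6]
    exact card_pair (ne_of_nb5 h5.1)
  have e2 : (G.pT S z).card = 1 := by
    rw [h4]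
    exact card_singleton _
  have e3 := dg16 G S z
  have e4 : (G.nb z).card = 6 := h2
  exact ⟨h1, h2, e1, e2, by omega⟩

theorem s5_type16 {z : V} (h : G.s5 S z ≠ 0) : ∃ v, G.S0 S z v := by
  rw [s5] at h
  split_ifs at h with h1 h2
  · obtain ⟨v, h3, -⟩ := h1
    exact ⟨v, h3⟩
  · obtain ⟨v, h3, -⟩ := h2
    exact ⟨v, h3⟩
  · exact absurd rfl h

theorem U3_type16 {z : V} (h : G.U3 S z) :
    G.Low z ∧ (G.pX S z).card = 3 ∧ (G.pT S z).card = 2 ∧ (G.pO S z).card = 1 := by
  obtain ⟨h1, h2, h3, h4⟩ := h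
  have e1 := pair_card16 h4
  have e2 := dg16 G S z
  have e3 : (G.nb z).card = 6 := h2
  exact ⟨h2, h3, e1, by omega⟩

theorem T3_type16 {z : V} (h : G.T3 S z) : G.Low z ∧ (G.pX S z).card = 2 ∧
    G.PairSet (G.pT S z) ∧ (G.pT S z).card = 2 ∧ (G.pO S z).card = 2 ∧
    ∃ v ∈ G.pT S z, G.d v S = 2 := by
  obtain ⟨h1, h2, h3, Q, Q', r, r', h, h4, h5, h6, h7, h8, h9, h10, h11⟩ := h
  have e0 : G.PairSet (G.pT S z) := ⟨Q, Q', h4, h7⟩
  have e1 := pair_card16 e0
  have e2 := dg16 G S z
  have e3 : (G.nb z).card = 6 := h2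
  refine ⟨h2, h3, e0, e1, by omega, Q, ?_, h9⟩
  rw [h7]
  exact mem_insert_self _ _

theorem HF_type16 {z : V} (h : G.HF S z) : G.Low z ∧ (G.pX S z).card = 4 ∧
    (G.pT S z).card = 1 ∧ (G.pO S z).card = 1 := by
  obtain ⟨h1, h2, h3, a, b, h4, h5, h6, h7⟩ := h
  have e1 : (G.pT S z).card = 1 := by
    rw [h7]
    exact card_singleton _
  have e2 := dg16 G S z
  have e3 : (G.nb z).card = 6 := h2
  exact ⟨h2, h3, e1, by omega⟩

theorem RF_type16 {z : V} (h : G.RF S z) : G.IsTw z ∧ ¬ G.Low z ∧ (G.pX S z).card = 4 ∧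
    (G.pT S z).card = 1 ∧ (G.pO S z).card = 2 := by
  obtain ⟨h1, p', m, m', h2, h3, h4, h5, h6, h7⟩ := h
  have e1 : (G.pT S z).card = 1 := by
    rw [h4]
    exact card_singleton _
  have e2 : (G.pO S z).card = 2 := by
    rw [h6]
    exact card_pair h3
  have e3 : G.IsTw z := ⟨p', h2⟩
  exact ⟨e3, fun h => tw_not_low11 e3 h, h5, e1, e2⟩

/-- the flags of a low vertex -/
theorem flv_low16 {z : V} (hl : G.Low z) : G.flv S z =
    G.s5 S z + 2 * (open Classical in if G.U3 S z then 1 else 0) -
      2 * (open Classical in if G.T3 S z then 1 else 0) -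
      2 * (open Classical in if G.HF S z then 1 else 0) := by
  have h : ¬ G.RF S z := fun h => (RF_type16 h).2.1 hl
  rw [flv, if_neg h]
  ring

/-- the flags of a vertex that is not low -/
theorem flv_nl16 {z : V} (hl : ¬ G.Low z) : G.flv S z =
    -(open Classical in if G.RF S z then 1 else 0) := by
  have h0 : G.s5 S z = 0 := by
    by_contra h
    obtain ⟨v, hv⟩ := s5_type16 h
    exact hl (S0_type16 hv).2.1
  have h1 : ¬ G.U3 S z := fun h => hl (U3_type16 h).1
  have h2 : ¬ G.T3 S z := fun h => hl (T3_type16 h).1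
  have h3 : ¬ G.HF S z := fun h => hl (HF_type16 h).1
  rw [flv, if_neg h1, if_neg h2, if_neg h3, h0]
  ring

/-! ### G0 -/

theorem qs16 (G : CG V) : G.QS G.Tw where
  tw _ _ h := h
  symm _ _ h := (stTwHL_5 G).symm _ _ h
  cov _ _ h h' := absurd h h'

/-- G0 -/
theorem st5F_16 (G : CG V) : G.St5F where
  sit hs F hF h3 hc := st11Cov_42 G G.Tw (qs16 G) hs F hF h3 hc
  P F hF h3 := by
    classical
    rw [stP5F_50 G F hF.1, h3]
    have h1 : ∀ w ∈ G.N F, G.gam5 F w =
        (if G.Low w then (4 * (G.d w F : ℤ) + 2 * (G.d w (G.N F) : ℤ) - 6) else 0) +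
        (if G.IsTw w then (2 * (G.d w F : ℤ) + (G.d w (G.N F) : ℤ) - 7) else 0) +
        (G.flv F w - G.flv (G.Co F) w) := by
      intro w _
      rw [gam5]
      have h3 : (G.pT F w).card = G.d w (G.N F) := rfl
      rw [h3]
      by_cases hl : G.Low w
      · have ht : ¬ G.IsTw w := fun h => tw_not_low11 h hl
        rw [if_pos hl, if_pos hl, if_neg ht]
        ring
      · by_cases ht : G.IsTw w
        · rw [if_neg hl, if_neg hl, if_pos ht]
          ring
        · rw [if_neg hl, if_neg hl, if_neg ht]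
          ring
    rw [sum_congr rfl h1, sum_add_distrib, sum_add_distrib, ← sum_filter, ← sum_filter]
    have h7 : ∀ p : V → Prop, ∀ i1 i2 : DecidablePred p, ∀ f : V → ℤ,
        ∑ w ∈ @Finset.filter V p i1 (G.N F), f w = ∑ w ∈ @Finset.filter V p i2 (G.N F), f w := by
      intro p i1 i2 f
      congr
    rw [h7 (fun w => G.IsTw w) _ (fun a => Classical.propDecidable _)]
    push_cast
    ring

/-! ### G1 -/

/-- the flag terms of a low vertex of `N F`, in one line -/
theorem gam_low16 {w : V} (hl : G.Low w) : G.gam5 F w =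
    4 * (G.d w F : ℤ) + 2 * ((G.pT F w).card : ℤ) - 6 + (G.flv F w - G.flv (G.Co F) w) := by
  rw [gam5, if_pos hl]

/-- upper bound for the flags from the other side -/
theorem flvCo16 (F : Finset V) {w : V} (hl : G.Low w) :
    G.flv (G.Co F) w ≤ G.s5 (G.Co F) w + 2 * (open Classical in if G.U3 (G.Co F) w then 1 else 0)
    := by
  rw [flv_low16 hl]
  split_ifs <;> omega

theorem s5Co16 (h : G.Frag F) {w : V} (hn : G.s5 (G.Co F) w ≠ 0) :
    (G.pX F w).card = 3 ∧ (G.pT F w).card = 1 ∧ (G.pO F w).card = 2 ∧ ∃ v, G.Low v ∧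
      G.pT F w = {v} := by
  obtain ⟨v, hv⟩ := s5_type16 hn
  obtain ⟨-, -, h1, h2, h3⟩ := S0_type16 hv
  rw [pX_co16 F] at h1
  rw [pO_co16 h] at h3
  have h4 := hv.2.2.2.1
  rw [pT_co16 h] at h2 h4
  exact ⟨h3, h2, h1, v, hv.2.2.1, h4⟩

theorem U3Co16 (h : G.Frag F) {w : V} (hu : G.U3 (G.Co F) w) :
    (G.pX F w).card = 1 ∧ G.PairSet (G.pT F w) ∧ (G.pT F w).card = 2 := by
  obtain ⟨h0, h1, h2, h3⟩ := U3_type16 hu
  have h4 := hu.2.2.2
  rw [pT_co16 h] at h2 h4
  rw [pO_co16 h] at h3
  exact ⟨h3, h4, h2⟩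

/-- G1 -/
theorem st5B_16 (G : CG V) : G.St5B := by
  classical
  have bas := stBas_33 G G.Tw
  constructor
  · -- hubs
    intro F h w hw hh
    rw [gam5, if_neg hh.1, if_neg hh.2, flv_nl16 hh.1, flv_nl16 hh.1]
    have h1 : ∀ S, ¬ G.RF S w := fun S h => hh.2 (RF_type16 h).1
    rw [if_neg (h1 _), if_neg (h1 _)]
    ring
  · -- low, three neighbours in `F`
    intro F h w hw hl hd
    have hF := h.big.1
    have ho := bas.out F h w hw
    have hdg := dg16 G F w
    have h6 : (G.nb w).card = 6 := hl
    have hd' : (G.pX F w).card = 3 := hd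
    have ho' : 1 ≤ (G.pO F w).card := ho
    have ht : (G.pT F w).card ≤ 2 := by omega
    have hs := s5_nn16 G F w
    have hsC := s5_nn16 G (G.Co F) w
    have hU : ¬ G.U3 (G.Co F) w := by
      intro hu
      have := (U3Co16 hF hu).1
      omega
    have hT : ¬ G.T3 F w := by
      intro hu
      have := (T3_type16 hu).2.1
      omega
    have hH : ¬ G.HF F w := by
      intro hu
      have := (HF_type16 hu).2.1
      omega
    have hC := flvCo16 F hl
    rw [if_neg hU] at hC
    have hfl := flv_low16 (S := F) hl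
    rw [if_neg hT, if_neg hH] at hfl
    have hg := gam_low16 (F := F) hl
    rw [hd] at hg
    have hU0 : (0 : ℤ) ≤ (if G.U3 F w then 1 else 0) := by split_ifs <;> norm_num
    have key : (G.pT F w).card ≠ 1 → G.s5 (G.Co F) w = 0 := by
      intro h1
      by_contra h2
      exact h1 (s5Co16 hF h2).2.1
    have key2 : ∀ v ∈ G.pT F w, ¬ G.Low v → G.s5 (G.Co F) w = 0 := by
      intro v hv hv2
      by_contra h2
      obtain ⟨-, -, -, v', h3, h4⟩ := s5Co16 hF h2
      rw [h4, mem_singleton] at hv
      rw [hv] at hv2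
      exact hv2 h3
    refine ⟨ht, ?_, ?_, ?_, ?_⟩
    · by_cases h1 : (G.pT F w).card = 1
      · rw [h1] at hg
        push_cast at hg
        linarith [hs.1, hsC.2]
      · have := key h1
        push_cast at hg
        have : (0 : ℤ) ≤ ((G.pT F w).card : ℤ) := Int.natCast_nonneg _
        linarith [hs.1]
    · intro h1
      have := key h1
      push_cast at hg
      linarith [hs.1]
    · intro v hv hv2
      have := key2 v hv hv2
      push_cast at hg
      linarith [hs.1]
    · intro hp
      have h2 := pair_card16 hp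
      have := key (by omega)
      have hu : G.U3 F w := ⟨hw, hl, hd', hp⟩
      rw [if_pos hu] at hfl
      rw [h2] at hg
      push_cast at hg
      linarith [hs.1]
  · -- low, two neighbours in `F`
    intro F h w hw hl hd
    have hF := h.big.1
    have ho := bas.out F h w hw
    have hdg := dg16 G F w
    have h6 : (G.nb w).card = 6 := hl
    have hd' : (G.pX F w).card = 2 := hd
    have ho' : 1 ≤ (G.pO F w).card := ho
    have ht : (G.pT F w).card ≤ 3 := by omega
    have hs := s5_nn16 G F w
    have hsC : G.s5 (G.Co F) w = 0 := by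
      by_contra h2
      have := (s5Co16 hF h2).1
      omega
    have hU : ¬ G.U3 (G.Co F) w := by
      intro hu
      have := (U3Co16 hF hu).1
      omega
    have hU' : ¬ G.U3 F w := by
      intro hu
      have := (U3_type16 hu).2.1
      omega
    have hH : ¬ G.HF F w := by
      intro hu
      have := (HF_type16 hu).2.1
      omega
    have hC := flvCo16 F hl
    rw [if_neg hU] at hC
    have hfl := flv_low16 (S := F) hl
    rw [if_neg hU', if_neg hH] at hfl
    have hg := gam_low16 (F := F) hl
    rw [hd] at hg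
    have hT1 : (if G.T3 F w then (1 : ℤ) else 0) ≤ 1 := by split_ifs <;> norm_num
    push_cast at hg
    refine ⟨ht, ?_, ?_, ?_⟩
    · intro hp
      have hT : ¬ G.T3 F w := fun h => hp (T3_type16 h).2.2.1
      rw [if_neg hT] at hfl
      linarith [hs.1]
    · intro hp
      have h2 := pair_card16 hp
      rw [h2] at hg
      push_cast at hg
      linarith [hs.1]
    · intro hp hv
      have h2 := pair_card16 hp
      have hT : ¬ G.T3 F w := by
        intro h
        obtain ⟨-, -, -, -, -, v, h3, h4⟩ := T3_type16 h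
        exact hv v h3 h4
      rw [if_neg hT] at hfl
      rw [h2] at hg
      push_cast at hg
      linarith [hs.1]
  · -- low, a pair in `F`
    intro F h w hw v hv
    have hF := h.big.1
    obtain ⟨-, hl, hd', h1, h3⟩ := S0_type16 hv
    have hd : G.d w F = 2 := hd'
    have hs := s5_nn16 G F w
    have hsC : G.s5 (G.Co F) w = 0 := by
      by_contra h2
      have := (s5Co16 hF h2).1
      omega
    have hU : ¬ G.U3 (G.Co F) w := by
      intro hu
      have := (U3Co16 hF hu).1
      omega
    have hU' : ¬ G.U3 F w := by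
      intro hu
      have := (U3_type16 hu).2.1
      omega
    have hT : ¬ G.T3 F w := by
      intro hu
      have := (T3_type16 hu).2.2.2.1
      omega
    have hH : ¬ G.HF F w := by
      intro hu
      have := (HF_type16 hu).2.1
      omega
    have hC := flvCo16 F hl
    rw [if_neg hU] at hC
    have hfl := flv_low16 (S := F) hl
    rw [if_neg hU', if_neg hH, if_neg hT] at hfl
    have hg := gam_low16 (F := F) hl
    rw [hd, h1] at hg
    push_cast at hg
    refine ⟨by linarith [hs.1], ?_, ?_⟩
    · intro h4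
      have : 1 ≤ G.s5 F w := by
        rw [s5]
        split_ifs with h5 h6
        · norm_num
        · norm_num
        · exact absurd ⟨v, hv, h4⟩ h6
      linarith
    · intro h4
      have : G.s5 F w = 2 := by
        rw [s5, if_pos ⟨v, hv, h4⟩]
      linarith
  · -- low, one neighbour in `F`
    intro F h w hw hl hd
    have hF := h.big.1
    have ho := bas.out F h w hw
    have hdg := dg16 G F w
    have h6 : (G.nb w).card = 6 := hl
    have hd' : (G.pX F w).card = 1 := hd
    have ho' : 1 ≤ (G.pO F w).card := ho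
    have ht : (G.pT F w).card ≤ 4 := by omega
    have hs := s5_nn16 G F w
    have hsC : G.s5 (G.Co F) w = 0 := by
      by_contra h2
      have := (s5Co16 hF h2).1
      omega
    have hU' : ¬ G.U3 F w := by
      intro hu
      have := (U3_type16 hu).2.1
      omega
    have hT : ¬ G.T3 F w := by
      intro hu
      have := (T3_type16 hu).2.1
      omega
    have hH : ¬ G.HF F w := by
      intro hu
      have := (HF_type16 hu).2.1
      omega
    have hC := flvCo16 F hl
    have hfl := flv_low16 (S := F) hl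
    rw [if_neg hU', if_neg hH, if_neg hT] at hfl
    have hg := gam_low16 (F := F) hl
    rw [hd] at hg
    push_cast at hg
    have hU1 : (if G.U3 (G.Co F) w then (1 : ℤ) else 0) ≤ 1 := by split_ifs <;> norm_num
    refine ⟨ht, ?_, ?_⟩
    · intro hp
      have hU : ¬ G.U3 (G.Co F) w := fun hu => hp (U3Co16 hF hu).2.1
      rw [if_neg hU] at hC
      linarith [hs.1]
    · intro hp
      have h2 := pair_card16 hp
      rw [h2] at hg
      push_cast at hg
      linarith [hs.1]
  · -- twin vertices
    intro F h w hw ht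
    have hF := h.big.1
    have hl : ¬ G.Low w := tw_not_low11 ht
    have h7 := tw_card11 ht
    have ho := bas.outq F h w hw ht
    have hdg := dg16 G F w
    have ho' : 2 ≤ (G.pO F w).card := ho
    have hr : G.Reg {F} := by
      refine ⟨fun B hB => ?_, fun B hB B' hB' hne => ?_⟩
      · rw [mem_singleton] at hB
        rw [hB]
        exact hF
      · rw [mem_singleton] at hB hB'
        exact absurd (hB.trans hB'.symm) hne
    have hbig : ∀ B ∈ ({F} : Finset (Finset V)), 3 ≤ B.card := by
      intro B hB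
      rw [mem_singleton] at hB
      rw [hB]
      exact h.big.2.1
    have hR : w ∈ R ({F} : Finset (Finset V)) := by
      rw [mem_R76]
      intro B hB
      rw [mem_singleton] at hB
      rw [hB]
      exact (mem_N76.1 hw).1
    have hI : F ∈ G.I {F} w := by
      rw [mem_I76]
      exact ⟨mem_singleton_self _, hw⟩
    have hd := hid_5 hr hbig hR ht hI
    have hdF : G.d w F = (G.pX F w).card := rfl
    refine ⟨hd, by omega, ?_⟩
    rw [gam5, if_neg hl, if_pos ht, flv_nl16 hl, flv_nl16 hl]
    have hRF : ¬ G.RF F w := by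
      intro hu
      have h1 := (RF_type16 hu).2.2.1
      have h2 : (G.pX F w).card ≤ F.card := card_le_card inter_subset_right
      rw [h.c3] at h2
      omega
    rw [if_neg hRF]
    split_ifs <;> linarith

end CG

end Pool.Agent.Lib.MP_e95c01_co.N
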