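import Pool.Agent.Lib.MP_e95c01_co.X.StmtsH76
import Pool.Agent.Lib.MP_e95c01_co.X.G01_16

/-!
# `λ = 3`, leaves with at least four vertices: the functional and the values (H0b, H0d)
-/

namespace Pool.Agent.Lib.MP_e95c01_co.N

open Finset

variable {V : Type} [Fintype V] [DecidableEq V]

namespace CG

variable {G : CG V} {F S : Finset V}

/-- H0b -/
theorem stLP_16 (G : CG V) : G.StLP := by
  classical
  intro F hF
  rw [stP5F_50 G F hF.1]
  have h1 : ∀ w ∈ G.N F, G.gam5 F w =
      (if G.Low w then (4 * (G.d w F : ℤ) + 2 * (G.d w (G.N F) : ℤ) - 6) else 0) +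
      (if G.IsTw w then (2 * (G.d w F : ℤ) + (G.d w (G.N F) : ℤ) - 7) else 0) +
      (G.flv F w - G.flv (G.Co F) w) := by
    intro w _
    rw [gam5]
    have h3 : (G.pT F w).card = G.d w (G.N F) := rfl
    rw [h3]
    by_cases hl : G.Low w
    · have ht : ¬ G.IsTw w := fun h => tw_not_low11 h hl
      rw [if_pos hl, if_pos hl, if_neg ht]
      ring
    · by_cases ht : G.IsTw w
      · rw [if_neg hl, if_neg hl, if_pos ht]
        ring
      · rw [if_neg hl, if_neg hl, if_neg ht]
        ring
  rw [sum_congr rfl h1, sum_add_distrib, sum_add_distrib, ← sum_filter, ← sum_filter]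
  have h7 : ∀ p : V → Prop, ∀ i1 i2 : DecidablePred p, ∀ f : V → ℤ,
      ∑ w ∈ @Finset.filter V p i1 (G.N F), f w = ∑ w ∈ @Finset.filter V p i2 (G.N F), f w := by
    intro p i1 i2 f
    congr
  rw [h7 (fun w => G.IsTw w) _ (fun a => Classical.propDecidable _)]
  ring

/-- one fragment as a family -/
theorem reg_one16 (hF : G.Frag F) : G.Reg {F} := by
  refine ⟨fun B hB => ?_, fun B hB B' hB' hne => ?_⟩
  · rw [mem_singleton] at hB
    rw [hB]
    exact hF
  · rw [mem_singleton] at hB hB'
    exact absurd (hB.trans hB'.symm) hne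

theorem memR_one16 {w : V} (hw : w ∉ F) : w ∈ R ({F} : Finset (Finset V)) := by
  rw [mem_R76]
  intro B hB
  rw [mem_singleton] at hB
  rw [hB]
  exact hw

theorem memI_one16 {w : V} (hw : w ∈ G.N F) : F ∈ G.I {F} w := by
  rw [mem_I76]
  exact ⟨mem_singleton_self _, hw⟩

/-- the partner of a twin vertex of `N F` is in `N F` -/
theorem twN16 (hF : G.Frag F) {v w : V} (h : G.Tw v w) (hv : v ∈ G.N F) : w ∈ G.N F := by
  obtain ⟨-, h2⟩ := twI_5 (reg_one16 hF) (memR_one16 (mem_N76.1 hv).1) h
  have h3 := memI_one16 hv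
  rw [← h2] at h3
  exact (mem_I76.1 h3).2

/-- twins in `N F` have the same numbers of neighbours -/
theorem tw_same16 (hF : G.Frag F) {v w : V} (h : G.Tw v w) (hv : v ∈ G.N F) :
    G.d w F = G.d v F ∧ (G.pT F w).card = (G.pT F v).card := by
  have hw := twN16 hF h hv
  have hs : G.Tw w v := (stTwHL_5 G).symm _ _ h
  have hvF : v ∉ F := (mem_N76.1 hv).1
  have hwF : w ∉ F := (mem_N76.1 hw).1
  have hne : v ≠ w := ne_of_nb5 h.1
  constructor
  · unfold d
    congr 1
    ext x
    rw [mem_inter, mem_inter]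
    constructor
    · rintro ⟨h1, h2⟩
      exact ⟨Tw_nb5 hs h1 (fun e => hvF (e ▸ h2)), h2⟩
    · rintro ⟨h1, h2⟩
      exact ⟨Tw_nb5 h h1 (fun e => hwF (e ▸ h2)), h2⟩
  · have e1 : (G.pT F w).erase v = (G.pT F v).erase w := by
      ext x
      rw [mem_erase, mem_erase, pT, pT, mem_inter, mem_inter]
      constructor
      · rintro ⟨h1, h2, h3⟩
        exact ⟨(ne_of_nb5 h2).symm, Tw_nb5 hs h2 h1, h3⟩
      · rintro ⟨h1, h2, h3⟩
        exact ⟨(ne_of_nb5 h2).symm, Tw_nb5 h h2 h1, h3⟩
    have m1 : v ∈ G.pT F w := mem_inter.2 ⟨hs.1, hv⟩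
    have m2 : w ∈ G.pT F v := mem_inter.2 ⟨h.1, hw⟩
    have e2 := card_erase_of_mem m1
    have e3 := card_erase_of_mem m2
    have p1 : 0 < (G.pT F w).card := card_pos.2 ⟨v, m1⟩
    have p2 : 0 < (G.pT F v).card := card_pos.2 ⟨w, m2⟩
    rw [e1] at e2
    omega

/-- the type `T3` in detail -/
theorem T3_full16 (hF : G.Frag F) {z : V} (h : G.T3 F z) : G.PairSet (G.pT F z) ∧
    G.PairSet (G.pO F z) ∧ ∀ v ∈ G.pT F z, G.d v F = 2 ∧ (G.pT F v).card = 2 := by
  obtain ⟨h1, h2, h3, Q, Q', r, r', h, h4, h5, h6, h7, h8, h9, h10, h11⟩ := h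
  refine ⟨⟨Q, Q', h4, h7⟩, ⟨r, r', h5, h8⟩, ?_⟩
  have hQ : Q ∈ G.pT F z := by
    rw [h7]
    exact mem_insert_self _ _
  have hQN : Q ∈ G.N F := (mem_inter.1 hQ).2
  have hQ' : Q' ∈ G.pT F z := by
    rw [h7]
    exact mem_insert_of_mem (mem_singleton_self _)
  have hne : Q' ≠ z := (ne_of_nb5 (mem_inter.1 hQ').1).symm
  have hc : (G.pT F Q).card = 2 := by
    rw [h10]
    exact card_pair hne
  have hd : G.d Q F = 2 := h9
  intro v hv
  rw [h7, mem_insert, mem_singleton] at hv
  rcases hv with rfl | rfl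
  · exact ⟨hd, hc⟩
  · obtain ⟨k1, k2⟩ := tw_same16 hF h4 hQN
    exact ⟨k1.trans hd, k2.trans hc⟩

/-- the flags of a low vertex from the other side, exactly -/
theorem S0Co16 (h : G.Frag F) {w : V} (hn : G.s5 (G.Co F) w ≠ 0) :
    ∃ v q q', G.Low v ∧ G.pT F w = {v} ∧ G.Tw q q' ∧ G.pO F w = {q, q'} ∧ q ∈ G.nb v ∧
      ¬ (G.pT F v = {w} ∧ G.d v F = 1) := by
  obtain ⟨v, hv⟩ := s5_type16 hn
  obtain ⟨h1, h2, h3, h4, ⟨q, q', h5, h6, h7⟩, h8⟩ := hv
  rw [pT_co16 h] at h4
  rw [pX_co16 F] at h6
  rw [pT_co16 h, pO_co16 h] at h8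
  exact ⟨v, q, q', h3, h4, h5, h6, h7, h8⟩

/-- H0d -/
theorem stLB_16 (G : CG V) : G.StLB := by
  classical
  have hout : ∀ F, G.Lf F → ∀ a ∈ G.N F, 1 ≤ (G.pO F a).card := fun F h a ha =>
    d_Co_pos76 h.big.1 ha
  constructor
  · -- hubs
    intro F h w hw hh
    rw [gam5, if_neg hh.1, if_neg hh.2, flv_nl16 hh.1, flv_nl16 hh.1]
    have h1 : ∀ S, ¬ G.RF S w := fun S h => hh.2 (RF_type16 h).1
    rw [if_neg (h1 _), if_neg (h1 _)]
    ring
  · -- low, five neighbours in `F`
    intro F h w hw hl hd
    have hF := h.big.1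
    have ho := hout F h w hw
    have hdg := dg16 G F w
    have h6 : (G.nb w).card = 6 := hl
    have hdX : G.d w F = (G.pX F w).card := rfl
    have hX : (G.pX F w).card = 5 := by omega
    have ht : (G.pT F w).card = 0 := by omega
    have hO : (G.pO F w).card = 1 := by omega
    have hs : G.s5 F w = 0 := by
      by_contra h2
      obtain ⟨v, hv⟩ := s5_type16 h2
      have := (S0_type16 hv).2.2.1
      omega
    have hsC : G.s5 (G.Co F) w = 0 := by
      by_contra h2
      have := (s5Co16 hF h2).1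
      omega
    have hU : ¬ G.U3 F w := by
      intro hu
      have := (U3_type16 hu).2.1
      omega
    have hT : ¬ G.T3 F w := by
      intro hu
      have := (T3_type16 hu).2.1
      omega
    have hH : ¬ G.HF F w := by
      intro hu
      have := (HF_type16 hu).2.1
      omega
    have hUC : ¬ G.U3 (G.Co F) w := by
      intro hu
      have := (U3_type16 hu).2.1
      rw [pX_co16 F] at this
      omega
    have hTC : ¬ G.T3 (G.Co F) w := by
      intro hu
      have := (T3_type16 hu).2.1
      rw [pX_co16 F] at this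
      omega
    have hHC : ¬ G.HF (G.Co F) w := by
      intro hu
      have := (HF_type16 hu).2.1
      rw [pX_co16 F] at this
      omega
    refine ⟨by omega, card_eq_zero.1 ht, ?_⟩
    rw [gam_low16 hl, flv_low16 hl, flv_low16 hl, if_neg hU, if_neg hT, if_neg hH, if_neg hUC,
      if_neg hTC, if_neg hHC, hs, hsC, hdX, hX, ht]
    norm_num
  · -- low, four neighbours in `F`
    intro F h w hw hl hd
    have hF := h.big.1
    have ho := hout F h w hw
    have hdg := dg16 G F w
    have h6 : (G.nb w).card = 6 := hl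
    have hX : (G.pX F w).card = 4 := hd
    have ht : (G.pT F w).card ≤ 1 := by omega
    have hs := s5_nn16 G F w
    have hsC : G.s5 (G.Co F) w = 0 := by
      by_contra h2
      have := (s5Co16 hF h2).1
      omega
    have hT : ¬ G.T3 F w := by
      intro hu
      have := (T3_type16 hu).2.1
      omega
    have hU : ¬ G.U3 F w := by
      intro hu
      have := (U3_type16 hu).2.1
      omega
    have hUC : ¬ G.U3 (G.Co F) w := by
      intro hu
      have := (U3Co16 hF hu).1
      omega
    have hC := flvCo16 F hl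
    rw [if_neg hUC] at hC
    have hfl := flv_low16 (S := F) hl
    rw [if_neg hT, if_neg hU] at hfl
    have hg := gam_low16 (F := F) hl
    rw [hd] at hg
    push_cast at hg
    refine ⟨ht, ?_⟩
    by_cases hH : G.HF F w
    · have ht1 := (HF_type16 hH).2.2.1
      rw [if_pos hH] at hfl
      rw [ht1] at hg
      push_cast at hg
      refine ⟨by linarith [hs.1], Or.inr ?_⟩
      obtain ⟨-, -, -, a, b, k1, k2, k3, k4⟩ := hH
      refine ⟨a, b, k1, k2, k3, k4, ?_, ?_⟩
      · exact HL_not_low76 k1
      · exact (stTwHL_5 G).notHL (by have := h.n12; omega) _ _ _ k1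
    · rw [if_neg hH] at hfl
      have h0 : (0 : ℤ) ≤ ((G.pT F w).card : ℤ) := Int.natCast_nonneg _
      exact ⟨by linarith [hs.1], Or.inl (by linarith [hs.1])⟩
  · -- low, three neighbours in `F`
    intro F h w hw hl hd
    have hF := h.big.1
    have ho := hout F h w hw
    have hdg := dg16 G F w
    have h6 : (G.nb w).card = 6 := hl
    have hX : (G.pX F w).card = 3 := hd
    have ht : (G.pT F w).card ≤ 2 := by omega
    have hs := s5_nn16 G F w
    have hsC := s5_nn16 G (G.Co F) w
    have hT : ¬ G.T3 F w := by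
      intro hu
      have := (T3_type16 hu).2.1
      omega
    have hH : ¬ G.HF F w := by
      intro hu
      have := (HF_type16 hu).2.1
      omega
    have hUC : ¬ G.U3 (G.Co F) w := by
      intro hu
      have := (U3Co16 hF hu).1
      omega
    have hC := flvCo16 F hl
    rw [if_neg hUC] at hC
    have hfl := flv_low16 (S := F) hl
    rw [if_neg hT, if_neg hH] at hfl
    have hg := gam_low16 (F := F) hl
    rw [hd] at hg
    push_cast at hg
    have hU0 : (0 : ℤ) ≤ (if G.U3 F w then 1 else 0) := by split_ifs <;> norm_num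
    have h0 : (0 : ℤ) ≤ ((G.pT F w).card : ℤ) := Int.natCast_nonneg _
    refine ⟨ht, ?_, ?_, ?_⟩
    · by_cases hz : G.s5 (G.Co F) w = 0
      · linarith [hs.1]
      · have ht1 := (s5Co16 hF hz).2.1
        rw [ht1] at hg
        push_cast at hg
        linarith [hs.1, hsC.2]
    · by_cases hz : G.s5 (G.Co F) w = 0
      · left
        linarith [hs.1]
      · right
        exact S0Co16 hF hz
    · intro hp
      have h2 := pair_card16 hp
      have hz : G.s5 (G.Co F) w = 0 := by
        by_contra hz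
        have := (s5Co16 hF hz).2.1
        omega
      have hu : G.U3 F w := ⟨hw, hl, hX, hp⟩
      rw [if_pos hu] at hfl
      rw [h2] at hg
      push_cast at hg
      linarith [hs.1]
  · -- low, two neighbours in `F`
    intro F h w hw hl hd
    have hF := h.big.1
    have ho := hout F h w hw
    have hdg := dg16 G F w
    have h6 : (G.nb w).card = 6 := hl
    have hX : (G.pX F w).card = 2 := hd
    have ht : (G.pT F w).card ≤ 3 := by omega
    have hs := s5_nn16 G F w
    have hsC : G.s5 (G.Co F) w = 0 := by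
      by_contra h2
      have := (s5Co16 hF h2).1
      omega
    have hUC : ¬ G.U3 (G.Co F) w := by
      intro hu
      have := (U3Co16 hF hu).1
      omega
    have hU : ¬ G.U3 F w := by
      intro hu
      have := (U3_type16 hu).2.1
      omega
    have hH : ¬ G.HF F w := by
      intro hu
      have := (HF_type16 hu).2.1
      omega
    have hC := flvCo16 F hl
    rw [if_neg hUC] at hC
    have hfl := flv_low16 (S := F) hl
    rw [if_neg hU, if_neg hH] at hfl
    have hg := gam_low16 (F := F) hl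
    rw [hd] at hg
    push_cast at hg
    have h0 : (0 : ℤ) ≤ ((G.pT F w).card : ℤ) := Int.natCast_nonneg _
    by_cases hT : G.T3 F w
    · have ht2 := (T3_type16 hT).2.2.2.1
      rw [if_pos hT] at hfl
      rw [ht2] at hg
      push_cast at hg
      have h4 : 4 ≤ G.gam5 F w := by linarith [hs.1]
      obtain ⟨k1, k2, k3⟩ := T3_full16 hF hT
      refine ⟨ht, Or.inr ⟨h4, k1, k2, k3⟩, ?_⟩
      have : min (2 * ((G.pT F w).card : ℤ)) 2 ≤ 2 := min_le_right _ _
      linarith
    · rw [if_neg hT] at hfl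
      have h4 : 2 + 2 * ((G.pT F w).card : ℤ) ≤ G.gam5 F w := by linarith [hs.1]
      refine ⟨ht, Or.inl h4, ?_⟩
      have : min (2 * ((G.pT F w).card : ℤ)) 2 ≤ 2 * ((G.pT F w).card : ℤ) := min_le_left _ _
      linarith
  · -- low, a pair in `F`
    intro F h w hw v hv
    have hF := h.big.1
    obtain ⟨-, hl, hd', h1, h3⟩ := S0_type16 hv
    have hd : G.d w F = 2 := hd'
    have hs := s5_nn16 G F w
    have hsC : G.s5 (G.Co F) w = 0 := by
      by_contra h2
      have := (s5Co16 hF h2).1
      omega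
    have hU : ¬ G.U3 (G.Co F) w := by
      intro hu
      have := (U3Co16 hF hu).1
      omega
    have hU' : ¬ G.U3 F w := by
      intro hu
      have := (U3_type16 hu).2.1
      omega
    have hT : ¬ G.T3 F w := by
      intro hu
      have := (T3_type16 hu).2.2.2.1
      omega
    have hH : ¬ G.HF F w := by
      intro hu
      have := (HF_type16 hu).2.1
      omega
    have hC := flvCo16 F hl
    rw [if_neg hU] at hC
    have hfl := flv_low16 (S := F) hl
    rw [if_neg hU', if_neg hH, if_neg hT] at hfl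
    have hg := gam_low16 (F := F) hl
    rw [hd, h1] at hg
    push_cast at hg
    refine ⟨by linarith [hs.1], ?_, ?_⟩
    · intro h4
      have : 1 ≤ G.s5 F w := by
        rw [s5]
        split_ifs with h5 h6
        · norm_num
        · norm_num
        · exact absurd ⟨v, hv, h4⟩ h6
      linarith
    · intro h4
      have : G.s5 F w = 2 := by
        rw [s5, if_pos ⟨v, hv, h4⟩]
      linarith
  · -- twin vertices
    intro F h w hw ht
    have hF := h.big.1
    have hl : ¬ G.Low w := tw_not_low11 ht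
    have h7 := tw_card11 ht
    have hdg := dg16 G F w
    have hco := G.stCo_37 F hF
    have hd := hid_5 (reg_one16 hF) (by
      intro B hB
      rw [mem_singleton] at hB
      rw [hB]
      exact h.big.2.1) (memR_one16 (mem_N76.1 hw).1) ht (memI_one16 hw)
    have hwC : w ∈ G.N (G.Co F) := by
      rw [hco.2.1]
      exact hw
    have ho : 2 ≤ (G.pO F w).card := hid_5 (reg_one16 hco.1) (by
      intro B hB
      rw [mem_singleton] at hB
      rw [hB]
      exact h.big.2.2) (memR_one16 (mem_N76.1 hwC).1) ht (memI_one16 hwC)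
    have hdF : G.d w F = (G.pX F w).card := rfl
    have ht1 : 1 ≤ (G.pT F w).card := by
      obtain ⟨w', hw'⟩ := ht
      exact card_pos.2 ⟨w', mem_inter.2 ⟨hw'.1, twN16 hF hw' hw⟩⟩
    refine ⟨hd, by omega, ht1, by omega, ?_, ?_⟩
    · intro h3
      rw [gam5, if_neg hl, if_pos ht, flv_nl16 hl, flv_nl16 hl]
      have hRF : ¬ G.RF F w := by
        intro hu
        have h1 := (RF_type16 hu).2.2.1
        omega
      rw [if_neg hRF]
      split_ifs <;> linarith
    · intro h4
      have e1 : (G.pT F w).card = 1 := by omega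
      rw [gam5, if_neg hl, if_pos ht, flv_nl16 hl, flv_nl16 hl, h4, e1]
      split_ifs <;> norm_num

end CG

end Pool.Agent.Lib.MP_e95c01_co.N
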