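import Pool.Agent.Lib.MP_e95c01_co.X.StmtsJ76
import Pool.Agent.Lib.MP_e95c01_co.X.H0b_16

/-!
# `λ = 3`: the sum of the values by the numbers of low neighbours (F6)

`LoT F` = the low vertices of `N F`, `Ln F v` = number of low vertices of `N F` adjacent to `v`.
-/

namespace Pool.Agent.Lib.MP_e95c01_co.N

open Finset

variable {V : Type} [Fintype V] [DecidableEq V] (G : CG V)

namespace CG

/-- the low vertices of `N F` -/
def LoT (F : Finset V) : Finset V := (G.N F).filter fun w => G.Low w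

/-- the other vertices of `N F` -/
def NoT (F : Finset V) : Finset V := (G.N F).filter fun w => ¬ G.Low w

/-- number of low vertices of `N F` adjacent to `v` -/
def Ln (F : Finset V) (v : V) : ℕ := (G.nb v ∩ G.LoT F).card

variable {G}

theorem mem_LoT38 {F : Finset V} {w : V} : w ∈ G.LoT F ↔ w ∈ G.N F ∧ G.Low w := mem_filter

theorem mem_NoT38 {F : Finset V} {w : V} : w ∈ G.NoT F ↔ w ∈ G.N F ∧ ¬ G.Low w := mem_filter

theorem sum_LoNo38 {M : Type} [AddCommMonoid M] (F : Finset V) (g : V → M) :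
    ∑ w ∈ G.N F, g w = ∑ w ∈ G.LoT F, g w + ∑ w ∈ G.NoT F, g w := by
  rw [LoT, NoT, sum_filter_add_sum_filter_not]

theorem card_LoNo38 (F : Finset V) : (G.LoT F).card + (G.NoT F).card = (G.N F).card := by
  rw [LoT, NoT, card_filter_add_card_filter_not]

/-- the numbers of neighbours in `N F` of the low vertices -/
theorem sum_t38 (F : Finset V) :
    ∑ w ∈ G.LoT F, (G.pT F w).card = ∑ v ∈ G.LoT F, G.Ln F v + ∑ v ∈ G.NoT F, G.Ln F v := by
  rw [← sum_LoNo38 F (fun v => G.Ln F v)]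
  have h1 : ∀ w ∈ G.LoT F, (G.pT F w).card = ∑ v ∈ G.N F, if v ∈ G.nb w then 1 else 0 := by
    intro w _
    rw [pT, inter_comm, ← filter_mem_eq_inter, card_filter]
  rw [sum_congr rfl h1, sum_comm]
  refine sum_congr rfl fun v _ => ?_
  rw [Ln, inter_comm, ← filter_mem_eq_inter, card_filter]
  refine sum_congr rfl fun w _ => ?_
  have : v ∈ G.nb w ↔ w ∈ G.nb v := ⟨G.sym _ _, G.sym _ _⟩
  simp only [this]

/-- (F6), general form: `e w` is the excess of the low vertex `w` -/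
theorem F6a_38 (F : Finset V) (e : V → ℤ)
    (he : ∀ w ∈ G.N F, G.Low w → 2 + 2 * ((G.pT F w).card : ℤ) + e w ≤ G.gam5 F w) :
    2 * ((G.LoT F).card : ℤ) + ∑ w ∈ G.LoT F, e w + 2 * ∑ w ∈ G.LoT F, (G.Ln F w : ℤ) +
      2 * ∑ v ∈ G.NoT F, (G.Ln F v : ℤ) + ∑ v ∈ G.NoT F, G.gam5 F v ≤
      ∑ w ∈ G.N F, G.gam5 F w := by
  have h1 : ∑ w ∈ G.LoT F, (2 + 2 * ((G.pT F w).card : ℤ) + e w) ≤ ∑ w ∈ G.LoT F, G.gam5 F w :=
    sum_le_sum fun w hw => he w (mem_LoT38.1 hw).1 (mem_LoT38.1 hw).2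
  have h2 : (∑ w ∈ G.LoT F, ((G.pT F w).card : ℤ)) =
      ∑ v ∈ G.LoT F, (G.Ln F v : ℤ) + ∑ v ∈ G.NoT F, (G.Ln F v : ℤ) := by
    exact_mod_cast sum_t38 (G := G) F
  rw [sum_add_distrib, sum_add_distrib, sum_const, nsmul_eq_mul, ← mul_sum, h2] at h1
  rw [sum_LoNo38 F (fun w => G.gam5 F w)]
  linarith

/-- (F6): every vertex of `N F` which is not low has a low neighbour in `N F` -/
theorem F6_38 (F : Finset V) (hF : (G.N F).card = 6) (e : V → ℤ)
    (he : ∀ w ∈ G.N F, G.Low w → 2 + 2 * ((G.pT F w).card : ℤ) + e w ≤ G.gam5 F w)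
    (hn : ∀ v ∈ G.NoT F, 1 ≤ G.Ln F v) :
    12 + ∑ w ∈ G.LoT F, e w + 2 * ∑ w ∈ G.LoT F, (G.Ln F w : ℤ) +
      2 * ∑ v ∈ G.NoT F, ((G.Ln F v : ℤ) - 1) + ∑ v ∈ G.NoT F, G.gam5 F v ≤
      ∑ w ∈ G.N F, G.gam5 F w := by
  have h1 := F6a_38 F e he
  have h2 := card_LoNo38 (G := G) F
  rw [sum_sub_distrib, sum_const, nsmul_eq_mul]
  have h3 : ((G.LoT F).card : ℤ) + ((G.NoT F).card : ℤ) = 6 := by
    have : (G.LoT F).card + (G.NoT F).card = 6 := by omega
    exact_mod_cast this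
  have _ := hn
  linarith

omit [Fintype V] [DecidableEq V] in
/-- a term of a sum of nonnegative terms -/
theorem term1_38 {S : Finset V} {g : V → ℤ} (h : ∀ v ∈ S, 0 ≤ g v) {x : V} (hx : x ∈ S) :
    g x ≤ ∑ v ∈ S, g v := single_le_sum h hx

omit [Fintype V] in
theorem term2_38 {S : Finset V} {g : V → ℤ} (h : ∀ v ∈ S, 0 ≤ g v) {x y : V} (hx : x ∈ S)
    (hy : y ∈ S) (hxy : x ≠ y) : g x + g y ≤ ∑ v ∈ S, g v := by
  rw [← sum_pair hxy]
  refine sum_le_sum_of_subset_of_nonneg ?_ fun v hv _ => h v hv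
  intro z hz
  rw [mem_insert, mem_singleton] at hz
  rcases hz with rfl | rfl <;> assumption

omit [Fintype V] in
theorem term3_38 {S : Finset V} {g : V → ℤ} (h : ∀ v ∈ S, 0 ≤ g v) {x y z : V} (hx : x ∈ S)
    (hy : y ∈ S) (hz : z ∈ S) (hxy : x ≠ y) (hxz : x ≠ z) (hyz : y ≠ z) :
    g x + g y + g z ≤ ∑ v ∈ S, g v := by
  have h1 : ∑ v ∈ ({x, y, z} : Finset V), g v = g x + g y + g z := by
    rw [sum_insert, sum_pair hyz, add_assoc]
    simp only [mem_insert, mem_singleton, not_or]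
    exact ⟨hxy, hxz⟩
  rw [← h1]
  refine sum_le_sum_of_subset_of_nonneg ?_ fun v hv _ => h v hv
  intro w hw
  simp only [mem_insert, mem_singleton] at hw
  rcases hw with rfl | rfl | rfl <;> assumption

/-- two adjacent low vertices of `N F` -/
theorem LL1_38 {F : Finset V} {x y : V} (hx : x ∈ G.LoT F) (hy : y ∈ G.LoT F)
    (h : y ∈ G.nb x) : 1 ≤ G.Ln F x ∧ 1 ≤ G.Ln F y ∧ 2 ≤ ∑ w ∈ G.LoT F, (G.Ln F w : ℤ) := by
  have h1 : 1 ≤ G.Ln F x := by
    rw [Ln, Nat.succ_le_iff, card_pos]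
    exact ⟨y, mem_inter.2 ⟨h, hy⟩⟩
  have h2 : 1 ≤ G.Ln F y := by
    rw [Ln, Nat.succ_le_iff, card_pos]
    exact ⟨x, mem_inter.2 ⟨G.sym _ _ h, hx⟩⟩
  have h3 := term2_38 (S := G.LoT F) (g := fun w => (G.Ln F w : ℤ)) (fun v _ => by positivity)
    hx hy (ne_of_nb5 h)
  refine ⟨h1, h2, ?_⟩
  omega

/-- the values of the low vertices of a leaf with five vertices: `2 + 2 t + e`, the excess `e` is
0, 2 (4 unless `S0` reversed, 6 for a pair), 6 (8 unless `HF`), 12 for `d = 2, 3, 4, 5` -/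
theorem low5_38 (hB : G.StLB) (hb : G.StLBas) (h7 : G.St7Bas) {F : Finset V} (h : G.L5 F) {w : V}
    (hw : w ∈ G.N F) (hl : G.Low w) :
    (2 ≤ G.d w F ∧ G.d w F ≤ 5 ∧ G.d w F + (G.pT F w).card ≤ 5) ∧
    2 + 2 * ((G.pT F w).card : ℤ) + (if G.d w F = 2 then 0 else if G.d w F = 3 then 2 else
      if G.d w F = 4 then 6 else 12) ≤ G.gam5 F w ∧
    (G.d w F = 3 → G.PairSet (G.pT F w) → 12 ≤ G.gam5 F w) := by
  have h2 := hb.pos F h.1 w hw
  have h2' := hb.out F h.1 w hw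
  have hdg : (G.nb w).card = G.d w F + (G.pT F w).card + G.d w (G.Co F) := by
    have h1 : G.nb w = (G.nb w ∩ F ∪ G.nb w ∩ G.N F) ∪ G.nb w ∩ G.Co F := by
      ext v
      simp only [mem_union, mem_inter, Co, mem_compl]
      tauto
    have hd1 : Disjoint (G.nb w ∩ F) (G.nb w ∩ G.N F) := by
      rw [disjoint_left]
      intro v hv hv'
      exact (mem_N76.1 (mem_inter.1 hv').2).1 (mem_inter.1 hv).2
    have hd2 : Disjoint (G.nb w ∩ F ∪ G.nb w ∩ G.N F) (G.nb w ∩ G.Co F) := by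
      rw [disjoint_left]
      intro v hv hv'
      have h4 := mem_Co76.1 (mem_inter.1 hv').2
      rcases mem_union.1 hv with h5 | h5
      · exact h4.1 (mem_inter.1 h5).2
      · exact h4.2 (mem_inter.1 h5).2
    conv_lhs => rw [h1]
    rw [card_union_of_disjoint hd2, card_union_of_disjoint hd1]
    rfl
  have h6 : (G.nb w).card = 6 := hl
  have hc : G.d w F ≤ 5 := by omega
  refine ⟨⟨h2, hc, by omega⟩, ?_, fun h3 hP => ?_⟩
  · have h4 : G.d w F = 2 ∨ G.d w F = 3 ∨ G.d w F = 4 ∨ G.d w F = 5 := by omega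
    rcases h4 with h4 | h4 | h4 | h4
    · rw [if_pos h4]
      obtain ⟨-, h5, -⟩ := hB.low2 F h.1 w hw hl h4
      rcases h5 with h5 | ⟨-, ⟨Q, Q', hQ, hQT⟩, -, h5⟩
      · linarith
      · exfalso
        have h8 : Q ∈ G.pT F w := by rw [hQT]; exact mem_insert_self _ _
        have h9 := (h5 Q h8).1
        have h10 := (h7.tw3 F h Q (mem_inter.1 h8).2 ⟨Q', hQ⟩).1
        omega
    · rw [if_neg (by omega), if_pos h4]
      obtain ⟨-, h5, h8, -⟩ := hB.low3 F h.1 w hw hl h4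
      rcases h8 with h8 | ⟨v, -, -, -, h9, -⟩
      · linarith
      · rw [h9, card_singleton]
        push_cast
        linarith
    · rw [if_neg (by omega), if_neg (by omega), if_pos h4]
      obtain ⟨h5, h8, h9⟩ := hB.low4 F h.1 w hw hl h4
      rcases h9 with h9 | ⟨a, b, -, -, -, h10, -⟩
      · linarith
      · rw [h10, card_singleton]
        push_cast
        linarith
    · rw [if_neg (by omega), if_neg (by omega), if_neg (by omega)]
      obtain ⟨-, h5, h8⟩ := hB.low5 F h.1 w hw hl (by omega)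
      rw [h5, card_empty, h8]
      norm_num
  · exact (hB.low3 F h.1 w hw hl h3).2.2.2 hP

/-- `d (1 + t) ≤ gam5`, for the sum over the vertices of `F` -/
theorem low5d_38 (hB : G.StLB) (hb : G.StLBas) (h7 : G.St7Bas) {F : Finset V} (h : G.L5 F) {w : V}
    (hw : w ∈ G.N F) (hl : G.Low w) :
    (G.d w F : ℤ) * (1 + ((G.pT F w).card : ℤ)) ≤ G.gam5 F w := by
  obtain ⟨⟨h1, h2, h3⟩, h4, -⟩ := low5_38 hB hb h7 h hw hl
  have h5 : G.d w F = 2 ∨ G.d w F = 3 ∨ G.d w F = 4 ∨ G.d w F = 5 := by omega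
  rcases h5 with h5 | h5 | h5 | h5
  · rw [if_pos h5] at h4
    rw [h5]
    push_cast
    linarith
  · rw [if_neg (by omega), if_pos h5] at h4
    rw [h5]
    have h6 : (G.pT F w).card = 0 ∨ (G.pT F w).card = 1 ∨ (G.pT F w).card = 2 := by omega
    rcases h6 with h6 | h6 | h6
    · rw [h6] at h4 ⊢
      push_cast at h4 ⊢
      linarith
    · rw [h6] at h4 ⊢
      push_cast at h4 ⊢
      linarith
    · obtain ⟨-, -, h8, -⟩ := hB.low3 F h.1 w hw hl h5
      rcases h8 with h8 | ⟨v, -, -, -, h9, -⟩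
      · rw [h6] at h8 ⊢
        push_cast at h8 ⊢
        linarith
      · rw [h9, card_singleton] at h6
        omega
  · rw [if_neg (by omega), if_neg (by omega), if_pos h5] at h4
    rw [h5]
    have h6 : ((G.pT F w).card : ℤ) ≤ 1 := by
      have : (G.pT F w).card ≤ 1 := by omega
      exact_mod_cast this
    push_cast
    linarith
  · rw [if_neg (by omega), if_neg (by omega), if_neg (by omega)] at h4
    rw [h5]
    have h6 : ((G.pT F w).card : ℤ) = 0 := by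
      have : (G.pT F w).card = 0 := by omega
      exact_mod_cast this
    push_cast
    linarith

/-- the sum over the vertices of `F` of the numbers `k + τ` -/
theorem sumW5_38 (hB : G.StLB) (hb : G.StLBas) (h7 : G.St7Bas) {F : Finset V} (h : G.L5 F) :
    ∑ x ∈ F, ∑ w ∈ G.nb x ∩ G.LoT F, (1 + ((G.pT F w).card : ℤ)) ≤
      ∑ w ∈ G.N F, G.gam5 F w := by
  have h1 : ∑ x ∈ F, ∑ w ∈ G.nb x ∩ G.LoT F, (1 + ((G.pT F w).card : ℤ)) =
      ∑ w ∈ G.LoT F, (G.d w F : ℤ) * (1 + ((G.pT F w).card : ℤ)) := by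
    have e1 : ∀ x ∈ F, ∑ w ∈ G.nb x ∩ G.LoT F, (1 + ((G.pT F w).card : ℤ)) =
        ∑ w ∈ G.LoT F, if w ∈ G.nb x then (1 + ((G.pT F w).card : ℤ)) else 0 := by
      intro x _
      rw [inter_comm, ← filter_mem_eq_inter, sum_filter]
    rw [sum_congr rfl e1, sum_comm]
    refine sum_congr rfl fun w _ => ?_
    have e2 : ∀ x ∈ F, (if w ∈ G.nb x then (1 + ((G.pT F w).card : ℤ)) else 0) =
        if x ∈ G.nb w then (1 + ((G.pT F w).card : ℤ)) else 0 := by
      intro x _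
      have : w ∈ G.nb x ↔ x ∈ G.nb w := ⟨G.sym _ _, G.sym _ _⟩
      simp only [this]
    rw [sum_congr rfl e2, ← sum_filter, sum_const, nsmul_eq_mul, d, filter_mem_eq_inter,
      inter_comm]
  rw [h1, sum_LoNo38 F (fun w => G.gam5 F w)]
  have h2 : ∑ w ∈ G.LoT F, (G.d w F : ℤ) * (1 + ((G.pT F w).card : ℤ)) ≤
      ∑ w ∈ G.LoT F, G.gam5 F w :=
    sum_le_sum fun w hw => low5d_38 hB hb h7 h (mem_LoT38.1 hw).1 (mem_LoT38.1 hw).2
  have h3 : 0 ≤ ∑ w ∈ G.NoT F, G.gam5 F w :=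
    sum_nonneg fun w hw => h7.nn F h w (mem_NoT38.1 hw).1
  linarith

end CG

end Pool.Agent.Lib.MP_e95c01_co.N
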