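import Pool.Agent.Lib.MP_e95c01_co.X.StmtsF76
import Pool.Agent.Lib.MP_e95c01_co.T.F4_42
import Pool.Agent.Lib.MP_e95c01_co.T.F3_33

/-!
# G2: fragments with three vertices, at least two of them low
-/

namespace Pool.Agent.Lib.MP_e95c01_co.N

open Finset

variable {V : Type} [Fintype V] [DecidableEq V]

namespace CG

variable {G : CG V} {F : Finset V}

theorem d_le3_30 (hc : F.card = 3) (w : V) : G.d w F ≤ 3 := by
  rw [← hc]
  exact card_le_card inter_subset_right

theorem mem_pT30 {w x : V} : x ∈ G.pT F w ↔ x ∈ G.nb w ∧ x ∈ G.N F := by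
  rw [pT, mem_inter]

theorem partner_pT30 (hF : G.S5 F) {v v' : V} (hv : v ∈ G.N F) (h : G.Tw v v') :
    v' ∈ G.pT F v :=
  mem_pT30.2 ⟨h.1, q_N42 hF.qs hF.big.1 h hv⟩

/-- low vertices -/
theorem gam_low30 (hB : G.St5B) (hF : G.S5 F) {w : V} (hw : w ∈ G.N F) (hl : G.Low w) :
    0 ≤ G.gam5 F w ∧ (2 ≤ G.d w F → 2 ≤ G.gam5 F w) ∧
      (2 ≤ G.d w F → 2 ≤ (G.pT F w).card → 4 ≤ G.gam5 F w) := by
  have h0 := d_pos76 hw
  have h3 := d_le3_30 (G := G) hF.c3 w
  rcases (by omega : G.d w F = 1 ∨ G.d w F = 2 ∨ G.d w F = 3) with h | h | h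
  · have h4 := low_one42 hF hw hl h
    have h5 : 1 ≤ (G.pT F w).card := h4
    obtain ⟨-, h6, h7⟩ := hB.low1 F hF w hw hl h
    refine ⟨?_, fun h8 => by omega, fun h8 => by omega⟩
    by_cases h8 : G.PairSet (G.pT F w)
    · exact h7 h8
    · have h9 := h6 h8
      have h10 : (1 : ℤ) ≤ ((G.pT F w).card : ℤ) := by exact_mod_cast h5
      linarith
  · obtain ⟨-, h6, h7, -⟩ := hB.low2 F hF w hw hl h
    have h10 : (0 : ℤ) ≤ ((G.pT F w).card : ℤ) := Int.natCast_nonneg _
    by_cases h8 : G.PairSet (G.pT F w)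
    · have h9 := h7 h8
      exact ⟨by linarith, fun _ => by linarith, fun _ _ => h9⟩
    · have h9 := h6 h8
      refine ⟨by linarith, fun _ => by linarith, fun _ h11 => ?_⟩
      have h12 : (2 : ℤ) ≤ ((G.pT F w).card : ℤ) := by exact_mod_cast h11
      linarith
  · obtain ⟨-, h6, -⟩ := hB.low3 F hF w hw hl h
    exact ⟨by linarith, fun _ => by linarith, fun _ _ => by linarith⟩

/-- every vertex has value at least `-2` -/
theorem gam_ge30 (hB : G.St5B) (hF : G.S5 F) {w : V} (hw : w ∈ G.N F) : -2 ≤ G.gam5 F w := by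
  by_cases hl : G.Low w
  · have := (gam_low30 hB hF hw hl).1
    linarith
  by_cases ht : G.IsTw w
  · obtain ⟨h1, -, h3⟩ := hB.tw F hF w hw ht
    obtain ⟨w', hww⟩ := ht
    have h4 : 1 ≤ (G.pT F w).card := card_pos.2 ⟨w', partner_pT30 hF hw hww⟩
    have h5 : (1 : ℤ) ≤ ((G.pT F w).card : ℤ) := by exact_mod_cast h4
    have h6 : (2 : ℤ) ≤ (G.d w F : ℤ) := by exact_mod_cast h1
    linarith
  · rw [hB.hub F hF w hw ⟨hl, ht⟩]
    norm_num

theorem st5LLL_30 (hB : G.St5B) : G.St5LLL := by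
  intro F hF _
  have hc : (G.N F).card = 6 := hF.big.1.2.1
  have h1 : ∑ w ∈ G.N F, (-2 : ℤ) ≤ ∑ w ∈ G.N F, G.gam5 F w :=
    sum_le_sum fun w hw => gam_ge30 hB hF hw
  rw [sum_const, hc] at h1
  simpa using h1

/-- two lows and a hub: the vertices with negative value -/
theorem llh_key30 (hB : G.St5B) (hS : G.St11Bas G.Tw) (hF : G.S5 F) {l l' h : V}
    (he : F = {l, l', h}) (hll : l ≠ l') (hl : G.Low l) (hl' : G.Low l') (hh : G.Hub h) {v : V}
    (hv : v ∈ G.N F) (hneg : G.gam5 F v < 0) (hvl : v ∉ G.nb l) :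
    -1 ≤ G.gam5 F v ∧ ∃ d ∈ G.N F, 4 ≤ G.gam5 F d := by
  have TH := stTwHL_5 G
  have n9 : 9 ≤ Fintype.card V := by
    have := hF.n12
    omega
  have mF : ∀ x, x ∈ F ↔ x = l ∨ x = l' ∨ x = h := by
    intro x
    rw [he]
    simp
  have lF : l ∈ F := (mF l).2 (Or.inl rfl)
  have l'F : l' ∈ F := (mF l').2 (Or.inr (Or.inl rfl))
  have hhF : h ∈ F := (mF h).2 (Or.inr (Or.inr rfl))
  have hlt : ¬ G.Low v := by
    intro h1
    have := (gam_low30 hB hF hv h1).1
    linarith
  have htw : G.IsTw v := by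
    by_contra h1
    rw [hB.hub F hF v hv ⟨hlt, h1⟩] at hneg
    exact lt_irrefl _ hneg
  obtain ⟨t1, -, t3⟩ := hB.tw F hF v hv htw
  obtain ⟨v', hvv⟩ := htw
  have hv' : v' ∈ G.pT F v := partner_pT30 hF hv hvv
  have hv'N : v' ∈ G.N F := (mem_pT30.1 hv').2
  have h6 : (2 : ℤ) ≤ (G.d v F : ℤ) := by exact_mod_cast t1
  have hp2 : (G.pT F v).card ≤ 2 := by
    by_contra hcon
    have h5 : (3 : ℤ) ≤ ((G.pT F v).card : ℤ) := by
      have : 3 ≤ (G.pT F v).card := by omega
      exact_mod_cast this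
    linarith
  -- the neighbours of `l` in `N F`
  have hvne : v ≠ v' := ne_of_nb5 hvv.1
  have hnot : ∀ x, x ∈ F → x ∉ G.N F := fun x hx h1 => (mem_N76.1 h1).1 hx
  have hv'l : v' ∉ G.nb l := by
    intro h1
    apply hvl
    have h2 := G.sym _ _ h1
    refine G.sym _ _ (Tw_nb5 (TH.symm _ _ hvv) h2 ?_)
    rintro rfl
    exact hnot _ lF hv
  have hall : ∀ x ∈ G.N F, x ∉ G.nb l → x = v ∨ x = v' := by
    intro x hx hxl
    by_contra hcon
    rw [not_or] at hcon
    have h1 := hS.missl F hF l lF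
    have h2 : G.Tz F l ⊆ (((G.N F).erase v).erase v').erase x := by
      intro y hy
      obtain ⟨h3, h4⟩ := mem_inter.1 hy
      refine mem_erase.2 ⟨?_, mem_erase.2 ⟨?_, mem_erase.2 ⟨?_, h4⟩⟩⟩
      · rintro rfl
        exact hxl h3
      · rintro rfl
        exact hv'l h3
      · rintro rfl
        exact hvl h3
    have h3 := card_le_card h2
    rw [card_erase_of_mem (mem_erase.2 ⟨hcon.2, mem_erase.2 ⟨hcon.1, hx⟩⟩),
      card_erase_of_mem (mem_erase.2 ⟨hvne.symm, hv'N⟩), card_erase_of_mem hv,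
      hF.big.1.2.1] at h3
    omega
  -- `v` is adjacent to `l'`
  have hvl' : v ∈ G.nb l' := by
    by_contra h1
    have h2 : G.nb v ∩ F ⊆ {h} := by
      intro x hx
      obtain ⟨h3, h4⟩ := mem_inter.1 hx
      rcases (mF x).1 h4 with rfl | rfl | rfl
      · exact absurd (G.sym _ _ h3) hvl
      · exact absurd (G.sym _ _ h3) h1
      · exact mem_singleton_self _
    have h3 := card_le_card h2
    rw [card_singleton] at h3
    have h4 : G.d v F ≤ 1 := h3
    omega
  have third : ∀ x ∈ G.pT F v, ∀ y ∈ G.pT F v, x ≠ y → x ≠ v' → y ≠ v' → False := by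
    intro x hx y hy h1 h2 h3
    have h4 : ({x, y, v'} : Finset V) ⊆ G.pT F v := by
      intro z hz
      simp only [mem_insert, mem_singleton] at hz
      rcases hz with rfl | rfl | rfl
      · exact hx
      · exact hy
      · exact hv'
    have h5 := card_le_card h4
    rw [card_insert_of_notMem, card_pair h3] at h5
    · omega
    · simp only [mem_insert, mem_singleton, not_or]
      exact ⟨h1, h2⟩
  rcases hF.cov l' l'F v hv hvl' with c | c | c | c | c
  · obtain ⟨w, hw, w1, w2, w3⟩ := c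
    have wN : w ∈ G.N F := by
      rcases mem_union.1 hw with h1 | h1
      · exfalso
        rcases (mF w).1 h1 with rfl | rfl | rfl
        · exact hvl w3
        · exact G.irr _ w2
        · exact hh.1 w1
      · exact h1
    have wne : w ≠ v := fun h1 => hlt (h1 ▸ w1)
    have wne' : w ≠ v' := by
      rintro rfl
      have h1 : (G.nb w).card = 7 := (TH.symm _ _ hvv).2.1
      have h2 : (G.nb w).card = 6 := w1
      omega
    have wl : w ∈ G.nb l := by
      by_contra h1
      rcases hall w wN h1 with h2 | h2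
      · exact wne h2
      · exact wne' h2
    have wv : w ∈ G.pT F v := mem_pT30.2 ⟨G.sym _ _ w3, wN⟩
    have h2 : 2 ≤ (G.pT F v).card := by
      have h4 : ({w, v'} : Finset V) ⊆ G.pT F v := by
        intro z hz
        simp only [mem_insert, mem_singleton] at hz
        rcases hz with rfl | rfl
        · exact wv
        · exact hv'
      have h5 := card_le_card h4
      rwa [card_pair wne'] at h5
    have h5 : (2 : ℤ) ≤ ((G.pT F v).card : ℤ) := by exact_mod_cast h2
    refine ⟨by linarith, w, wN, (gam_low30 hB hF wN w1).2.2 ?_ ?_⟩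
    · have h4 : ({l, l'} : Finset V) ⊆ G.nb w ∩ F := by
        intro z hz
        simp only [mem_insert, mem_singleton] at hz
        rcases hz with rfl | rfl
        · exact mem_inter.2 ⟨G.sym _ _ wl, lF⟩
        · exact mem_inter.2 ⟨w2, l'F⟩
      have h6 := card_le_card h4
      rwa [card_pair hll] at h6
    · have h4 : ({v, v'} : Finset V) ⊆ G.pT F w := by
        intro z hz
        simp only [mem_insert, mem_singleton] at hz
        rcases hz with rfl | rfl
        · exact mem_pT30.2 ⟨w3, hv⟩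
        · exact mem_pT30.2 ⟨G.sym _ _ (Tw_nb5 hvv (G.sym _ _ w3) wne'), hv'N⟩
      have h6 := card_le_card h4
      rwa [card_pair hvne] at h6
  · exfalso
    obtain ⟨x, hx, y, hy, hxy, x1, y1, x2, y2⟩ := c
    have inN : ∀ {x y : V}, x ∈ F ∪ G.N F → G.Tw x y → x ∈ G.N F := by
      intro x y hx hxy
      rcases mem_union.1 hx with h1 | h1
      · exfalso
        have h2 : (G.nb x).card = 7 := hxy.2.1
        rcases (mF x).1 h1 with rfl | rfl | rfl
        · have h3 : (G.nb x).card = 6 := hl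
          omega
        · have h3 : (G.nb x).card = 6 := hl'
          omega
        · exact hh.2 ⟨_, hxy⟩
      · exact h1
    refine third x (mem_pT30.2 ⟨G.sym _ _ x2, inN hx hxy⟩) y
      (mem_pT30.2 ⟨G.sym _ _ y2, inN hy (TH.symm _ _ hxy)⟩) (ne_of_nb5 hxy.1) ?_ ?_
    · rintro rfl
      have h1 := TH.uniq n9 _ _ _ hxy (TH.symm _ _ hvv)
      rw [h1] at y2
      exact G.irr _ y2
    · rintro rfl
      have h1 := TH.uniq n9 _ _ _ (TH.symm _ _ hxy) (TH.symm _ _ hvv)
      rw [h1] at x2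
      exact G.irr _ x2
  · exfalso
    obtain ⟨a, b, hab, -⟩ := c
    exact hlt (hF.sat _ _ _ hab)
  · exfalso
    obtain ⟨a, b, hab, b1, a1, h1⟩ := c
    rcases h1 with ⟨h1, h2⟩ | ⟨h1, h2⟩ | ⟨h1, h2, h3⟩
    · rcases (mF b).1 h2 with rfl | rfl | rfl
      · exact hvl b1
      · exact (HL_bt76 hab).2 rfl
      · exact hh.1 hab.2.1
    · refine third a (mem_pT30.2 ⟨G.sym _ _ a1, h1⟩) b (mem_pT30.2 ⟨G.sym _ _ b1, h2⟩)
        (ne_of_nb5 (HL_b76 hab)) ?_ ?_
      · rintro rfl
        exact TH.notHL n9 _ _ _ hab ⟨_, TH.symm _ _ hvv⟩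
      · rintro rfl
        have h3 : (G.nb b).card = 7 := (TH.symm _ _ hvv).2.1
        have h4 : (G.nb b).card = 6 := hab.2.1
        omega
    · have h4 : a ∉ G.nb l := by
        intro h5
        have h6 : l ∈ G.nb a ∩ F := mem_inter.2 ⟨G.sym _ _ h5, lF⟩
        rw [h3, mem_singleton] at h6
        exact hll h6
      rcases hall a h1 h4 with rfl | rfl
      · exact TH.notHL n9 _ _ _ hab ⟨_, hvv⟩
      · exact TH.notHL n9 _ _ _ hab ⟨_, TH.symm _ _ hvv⟩
  · exfalso
    obtain ⟨a, b, hab, -⟩ := c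
    exact (TH.twLL _ _ _ _ hab).2 ⟨_, hvv⟩

theorem st5LLH_30 (hB : G.St5B) (hS : G.St11Bas G.Tw) : G.St5LLH := by
  classical
  intro F hF l l' h he hll hl hl' hh
  have he' : F = {l', l, h} := by
    rw [he]
    ext x
    simp only [mem_insert, mem_singleton]
    tauto
  have mF : ∀ x, x ∈ F ↔ x = l ∨ x = l' ∨ x = h := by
    intro x
    rw [he]
    simp
  have lF : l ∈ F := (mF l).2 (Or.inl rfl)
  have l'F : l' ∈ F := (mF l').2 (Or.inr (Or.inl rfl))
  have hhF : h ∈ F := (mF h).2 (Or.inr (Or.inr rfl))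
  set B : Finset V := (G.N F).filter fun v => G.gam5 F v < 0 with hBd
  -- a vertex with negative value misses `l` or `l'`
  have hmiss : ∀ v ∈ B, v ∉ G.nb l ∨ v ∉ G.nb l' := by
    intro v hv
    obtain ⟨hv1, hv2⟩ := mem_filter.1 hv
    by_contra hcon
    rw [not_or, not_not, not_not] at hcon
    have TH := stTwHL_5 G
    have hlt : ¬ G.Low v := by
      intro h1
      have := (gam_low30 hB hF hv1 h1).1
      linarith
    have htw : G.IsTw v := by
      by_contra h1
      rw [hB.hub F hF v hv1 ⟨hlt, h1⟩] at hv2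
      exact lt_irrefl _ hv2
    obtain ⟨t1, -, t3⟩ := hB.tw F hF v hv1 htw
    obtain ⟨v', hvv⟩ := htw
    have hv' : v' ∈ G.pT F v := partner_pT30 hF hv1 hvv
    have hv'N : v' ∈ G.N F := (mem_pT30.1 hv').2
    have h4 : 1 ≤ (G.pT F v).card := card_pos.2 ⟨v', hv'⟩
    have h5 : (1 : ℤ) ≤ ((G.pT F v).card : ℤ) := by exact_mod_cast h4
    by_cases hvh : v ∈ G.nb h
    · have h6 : 3 ≤ G.d v F := by
        have h7 : F ⊆ G.nb v ∩ F := by
          intro x hx
          refine mem_inter.2 ⟨?_, hx⟩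
          rcases (mF x).1 hx with rfl | rfl | rfl
          · exact G.sym _ _ hcon.1
          · exact G.sym _ _ hcon.2
          · exact G.sym _ _ hvh
        have h8 := card_le_card h7
        rwa [hF.c3] at h8
      have h7 : (3 : ℤ) ≤ (G.d v F : ℤ) := by exact_mod_cast h6
      linarith
    · have hv'h : v' ∉ G.nb h := by
        intro h6
        apply hvh
        refine G.sym _ _ (Tw_nb5 (TH.symm _ _ hvv) (G.sym _ _ h6) ?_)
        rintro rfl
        exact (mem_N76.1 hv1).1 hhF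
      have h6 := hS.miss F hF h hhF hh.1
      have h7 : G.Tz F h ⊆ ((G.N F).erase v).erase v' := by
        intro y hy
        obtain ⟨h3, h4⟩ := mem_inter.1 hy
        refine mem_erase.2 ⟨?_, mem_erase.2 ⟨?_, h4⟩⟩
        · rintro rfl
          exact hv'h h3
        · rintro rfl
          exact hvh h3
      have h8 := card_le_card h7
      rw [card_erase_of_mem (mem_erase.2 ⟨(ne_of_nb5 hvv.1).symm, hv'N⟩), card_erase_of_mem hv1,
        hF.big.1.2.1] at h8
      omega
  have hkey : ∀ v ∈ B, -1 ≤ G.gam5 F v ∧ ∃ d ∈ G.N F, 4 ≤ G.gam5 F d := by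
    intro v hv
    obtain ⟨hv1, hv2⟩ := mem_filter.1 hv
    rcases hmiss v hv with h1 | h1
    · exact llh_key30 hB hS hF he hll hl hl' hh hv1 hv2 h1
    · exact llh_key30 hB hS hF he' hll.symm hl' hl hh hv1 hv2 h1
  -- at most four such vertices
  have hcard : B.card ≤ 4 := by
    have h1 : B ⊆ (G.N F \ G.nb l) ∪ (G.N F \ G.nb l') := by
      intro v hv
      have hv1 := (mem_filter.1 hv).1
      rcases hmiss v hv with h2 | h2
      · exact mem_union_left _ (mem_sdiff.2 ⟨hv1, h2⟩)
      · exact mem_union_right _ (mem_sdiff.2 ⟨hv1, h2⟩)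
    have h2 : ∀ z ∈ F, (G.N F \ G.nb z).card ≤ 2 := by
      intro z hz
      have h3 := hS.missl F hF z hz
      have h4 := card_sdiff_add_card_inter (G.N F) (G.nb z)
      have h5 : G.N F ∩ G.nb z = G.Tz F z := by
        rw [Tz, inter_comm]
      rw [h5, hF.big.1.2.1] at h4
      omega
    have h3 := (card_le_card h1).trans (card_union_le _ _)
    have h4 := h2 l lF
    have h5 := h2 l' l'F
    omega
  rcases B.eq_empty_or_nonempty with h0 | ⟨v, hv⟩
  · refine sum_nonneg fun w hw => ?_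
    by_contra h1
    have h2 : w ∈ B := mem_filter.2 ⟨hw, not_le.1 h1⟩
    rw [h0] at h2
    exact notMem_empty _ h2
  · obtain ⟨-, d, hd, hd4⟩ := hkey v hv
    have hdB : d ∉ B := by
      intro h1
      have := (mem_filter.1 h1).2
      linarith
    have h1 : ∑ w ∈ G.N F, ((if w ∈ B then -1 else 0) + (if w = d then 4 else 0) : ℤ)
        ≤ ∑ w ∈ G.N F, G.gam5 F w := by
      refine sum_le_sum fun w hw => ?_
      by_cases h2 : w ∈ B
      · have h3 : w ≠ d := fun h4 => hdB (h4 ▸ h2)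
        rw [if_pos h2, if_neg h3]
        have := (hkey w h2).1
        linarith
      · rw [if_neg h2]
        by_cases h3 : w = d
        · rw [if_pos h3, h3]
          linarith
        · rw [if_neg h3]
          by_contra h4
          apply h2
          refine mem_filter.2 ⟨hw, ?_⟩
          have := not_le.1 h4
          linarith
    have h2 : ∑ w ∈ G.N F, ((if w ∈ B then -1 else 0) + (if w = d then 4 else 0) : ℤ)
        = -(B.card : ℤ) + 4 := by
      have hsub : B ⊆ G.N F := filter_subset _ _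
      rw [sum_add_distrib, ← sum_filter, sum_const, filter_mem_eq_inter,
        inter_eq_right.2 hsub, sum_ite_eq', if_pos hd, nsmul_eq_mul]
      ring
    have h3 : (B.card : ℤ) ≤ 4 := by exact_mod_cast hcard
    linarith

end CG

end Pool.Agent.Lib.MP_e95c01_co.N
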