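import Pool.Agent.Lib.MP_e95c01_co.X.Cnt30
import Pool.Agent.Lib.MP_e95c01_co.X.G2_30
import Pool.Agent.Lib.MP_e95c01_co.T.F1_42

/-!
# G4: fragments with a low vertex and two hubs
-/

namespace Pool.Agent.Lib.MP_e95c01_co.N

open Finset

variable {V : Type} [Fintype V] [DecidableEq V]

namespace CG

variable {G : CG V}

namespace G4h30

variable {F : Finset V} {l h h' : V}

/-- the situation -/
structure Cx (G : CG V) (F : Finset V) (l h h' : V) : Prop where
  hB : G.St5B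
  hS : G.St11Bas G.Tw
  hF : G.S5 F
  mF : ∀ x, x ∈ F ↔ x = l ∨ x = h ∨ x = h'
  ne : h ≠ h'
  ll : G.Low l
  h1 : G.Hub h
  h2 : G.Hub h'

theorem Cx.symm (c : Cx G F l h h') : Cx G F l h' h :=
  ⟨c.hB, c.hS, c.hF, fun x => by rw [c.mF x]; tauto, c.ne.symm, c.ll, c.h2, c.h1⟩

theorem Cx.lF (c : Cx G F l h h') : l ∈ F := (c.mF l).2 (Or.inl rfl)
theorem Cx.hF1 (c : Cx G F l h h') : h ∈ F := (c.mF h).2 (Or.inr (Or.inl rfl))
theorem Cx.hF2 (c : Cx G F l h h') : h' ∈ F := (c.mF h').2 (Or.inr (Or.inr rfl))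

theorem Cx.n9 (c : Cx G F l h h') : 9 ≤ Fintype.card V := by
  have := c.hF.n12
  omega

theorem tw_nlow {v w : V} (h : G.Tw v w) : ¬ G.Low v := by
  intro h1
  have h2 := h.2.1
  have h3 : (G.nb v).card = 6 := h1
  omega

theorem Cx.low_eq (c : Cx G F l h h') {x : V} (hx : x ∈ F) (hl : G.Low x) : x = l := by
  rcases (c.mF x).1 hx with h0 | h0 | h0
  · exact h0
  · exact absurd (h0 ▸ hl) c.h1.1
  · exact absurd (h0 ▸ hl) c.h2.1

theorem Cx.notw (c : Cx G F l h h') {x : V} (hx : x ∈ F) : ¬ G.IsTw x := by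
  rcases (c.mF x).1 hx with h0 | h0 | h0
  · rintro ⟨w, hw⟩
    exact tw_nlow hw (h0 ▸ c.ll)
  · rw [h0]
    exact c.h1.2
  · rw [h0]
    exact c.h2.2

theorem Cx.cN (c : Cx G F l h h') : (G.N F).card = 6 := c.hF.big.1.2.1

theorem Cx.nNF (_ : Cx G F l h h') {x : V} (hx : x ∈ F) : x ∉ G.N F :=
  fun h1 => (mem_N76.1 h1).1 hx

theorem Cx.nocr (c : Cx G F l h h') : ¬ G.Cr F l := by
  intro hc
  have hlh : l ≠ h := fun h0 => c.h1.1 (h0 ▸ c.ll)
  have hlh' : l ≠ h' := fun h0 => c.h2.1 (h0 ▸ c.ll)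
  exact c.h1.2 ⟨h', c.hS.twin F c.hF l hc h c.hF1 h' c.hF2 c.ne hlh.symm hlh'.symm c.h1.1 c.h2.1⟩

theorem Cx.miss_one (c : Cx G F l h h') {y y' : V} (hy : y ∈ G.N F) (hy' : y' ∈ G.N F)
    (h3 : y ∉ G.nb h) (h4 : y' ∉ G.nb h) : y = y' := by
  by_contra hne
  have h6 := c.hS.miss F c.hF h c.hF1 c.h1.1
  have h7 : G.Tz F h ⊆ ((G.N F).erase y).erase y' := by
    intro x hx
    obtain ⟨h5, h8⟩ := mem_inter.1 hx
    refine mem_erase.2 ⟨?_, mem_erase.2 ⟨?_, h8⟩⟩
    · rintro rfl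
      exact h4 h5
    · rintro rfl
      exact h3 h5
  have h8 := card_le_card h7
  rw [card_erase_of_mem (mem_erase.2 ⟨fun e => hne e.symm, hy'⟩), card_erase_of_mem hy,
    c.cN] at h8
  omega

/-- the partner of a twin vertex outside of `nb z` is outside of `nb z` -/
theorem tw_out {v v' z : V} (hv : G.Tw v v') (hz : z ≠ v) (h1 : v ∉ G.nb z) :
    v' ∉ G.nb z := by
  intro h2
  exact h1 (G.sym _ _ (Tw_nb5 ((stTwHL_5 G).symm _ _ hv) (G.sym _ _ h2) hz))

theorem Cx.tw_hub (c : Cx G F l h h') {v v' : V} (hv : v ∈ G.N F) (hvv : G.Tw v v') :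
    v ∈ G.nb h := by
  by_contra h1
  have h2 : h ≠ v := by
    rintro rfl
    exact c.nNF c.hF1 hv
  exact ne_of_nb5 hvv.1 (c.miss_one hv (q_N42 c.hF.qs c.hF.big.1 hvv hv) h1 (tw_out hvv h2 h1))

theorem memX {y : V} : y ∈ G.Tz F l ↔ y ∈ G.nb l ∧ y ∈ G.N F := by
  rw [Tz, mem_inter]

theorem Cx.d2X (c : Cx G F l h h') {y : V} (hy : y ∈ G.Tz F l) : 2 ≤ G.d y F := by
  obtain ⟨h1, h2⟩ := memX.1 hy
  have h3 := d_pos76 h2
  by_contra h4
  have h5 : G.d y F = 1 := by omega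
  obtain ⟨x, hx⟩ := card_eq_one.1 h5
  have h6 : l ∈ G.nb y ∩ F := mem_inter.2 ⟨G.sym _ _ h1, c.lF⟩
  rw [hx, mem_singleton] at h6
  exact c.nocr ⟨y, h2, by rw [hx, h6]⟩

theorem Cx.d3tw (c : Cx G F l h h') {v v' : V} (hv : v ∈ G.Tz F l) (hvv : G.Tw v v') :
    G.d v F = 3 := by
  obtain ⟨h1, h2⟩ := memX.1 hv
  have h3 : F ⊆ G.nb v ∩ F := by
    intro x hx
    refine mem_inter.2 ⟨?_, hx⟩
    rcases (c.mF x).1 hx with rfl | rfl | rfl
    · exact G.sym _ _ h1
    · exact G.sym _ _ (c.tw_hub h2 hvv)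
    · exact G.sym _ _ (c.symm.tw_hub h2 hvv)
  have h4 := card_le_card h3
  rw [c.hF.c3] at h4
  have h5 := d_le3_30 (G := G) c.hF.c3 v
  have h6 : 3 ≤ G.d v F := h4
  omega

theorem Cx.pT2tw (c : Cx G F l h h') {v v' : V} (hv : v ∈ G.Tz F l) (hvv : G.Tw v v') :
    (G.pT F v).card ≤ 2 := by
  have h1 := (c.hB.tw F c.hF v (memX.1 hv).2 ⟨v', hvv⟩).2.1
  have h2 := c.d3tw hv hvv
  omega

theorem three_pT {v a b e : V} (ha : a ∈ G.pT F v) (hb : b ∈ G.pT F v) (he : e ∈ G.pT F v)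
    (h1 : a ≠ b) (h2 : a ≠ e) (h3 : b ≠ e) : 3 ≤ (G.pT F v).card := by
  have h4 : ({a, b, e} : Finset V) ⊆ G.pT F v := by
    intro z hz
    simp only [mem_insert, mem_singleton] at hz
    rcases hz with rfl | rfl | rfl
    · exact ha
    · exact hb
    · exact he
  have h5 := card_le_card h4
  rwa [card_insert_of_notMem, card_pair h3] at h5
  simp only [mem_insert, mem_singleton, not_or]
  exact ⟨h1, h2⟩

/-- the covers of the edges at `l` -/
theorem Cx.cov_l (c : Cx G F l h h') {y : V} (hy : y ∈ G.Tz F l) :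
    (∃ w ∈ G.Tz F l, G.Low w ∧ y ∈ G.nb w) ∨
    (∃ v ∈ G.Tz F l, ∃ w ∈ G.Tz F l, G.Tw v w ∧ y ∈ G.nb v ∧ y ∈ G.nb w) ∨
    (∃ a ∈ G.Tz F l, ∃ b ∈ G.Tz F l, G.HL a b y) ∨
    (∃ a ∈ G.Tz F l, ∃ b ∈ G.N F, G.HL a b l ∧ y ∈ G.nb b ∧ y ∈ G.nb a) ∨
    (∃ a ∈ G.Tz F l, ∃ b ∈ G.N F \ G.Tz F l, G.LL a b l y) := by
  obtain ⟨y1, y2⟩ := memX.1 hy
  rcases c.hF.cov l c.lF y y2 y1 with k | k | k | k | k
  · obtain ⟨w, hw, w1, w2, w3⟩ := k
    refine Or.inl ⟨w, ?_, w1, w3⟩
    rcases mem_union.1 hw with h0 | h0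
    · exfalso
      rw [c.low_eq h0 w1] at w2
      exact G.irr _ w2
    · exact memX.2 ⟨G.sym _ _ w2, h0⟩
  · obtain ⟨v, hv, w, hw, vw, v1, w1, v2, w2⟩ := k
    have inX : ∀ {v w : V}, v ∈ F ∪ G.N F → G.Tw v w → l ∈ G.nb v → v ∈ G.Tz F l := by
      intro v w hv hvw h1
      rcases mem_union.1 hv with h0 | h0
      · exact absurd ⟨w, hvw⟩ (c.notw h0)
      · exact memX.2 ⟨G.sym _ _ h1, h0⟩
    exact Or.inr (Or.inl ⟨v, inX hv vw v1, w, inX hw ((stTwHL_5 G).symm _ _ vw) w1, vw, v2, w2⟩)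
  · obtain ⟨a, b, hab, b1, a1, h3⟩ := k
    rcases h3 with ⟨ha, hb⟩ | ⟨ha, hb⟩
    · exfalso
      rw [c.low_eq hb hab.2.1] at b1
      exact G.irr _ b1
    · exact Or.inr (Or.inr (Or.inl ⟨a, memX.2 ⟨G.sym _ _ a1, ha⟩, b,
        memX.2 ⟨G.sym _ _ b1, hb⟩, hab⟩))
  · obtain ⟨a, b, hab, b1, a1, h3⟩ := k
    rcases h3 with ⟨ha, hb⟩ | ⟨ha, hb⟩ | ⟨ha, hb, h4⟩
    · exfalso
      exact (HL_bt76 hab).2 (c.low_eq hb hab.2.1).symm
    · exact Or.inr (Or.inr (Or.inr (Or.inl ⟨a, memX.2 ⟨G.sym _ _ (HL_t76 hab), ha⟩, b, hb,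
        hab, b1, a1⟩)))
    · exact absurd ⟨a, ha, h4⟩ c.nocr
  · obtain ⟨a, b, hab, h3⟩ := k
    have hal : l ∈ G.nb a := LL_t76 hab
    rcases h3 with ⟨ha, hb⟩ | ⟨ha, hb⟩ | ⟨ha, hb, h4⟩
    · exfalso
      rw [c.low_eq ha hab.1] at hal
      exact G.irr _ hal
    · rcases mem_union.1 hb with h0 | h0
      · exfalso
        exact (LL_tb76 hab).2 (c.low_eq h0 hab.2.1).symm
      · refine Or.inr (Or.inr (Or.inr (Or.inr ⟨a, memX.2 ⟨G.sym _ _ hal, ha⟩, b,
          mem_sdiff.2 ⟨h0, fun h5 => ?_⟩, hab⟩)))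
        exact (LL_tb76 hab).1 (G.sym _ _ (memX.1 h5).1)
    · exact absurd ⟨a, ha, h4⟩ c.nocr

/-- the covers of the edges between `l` and twin vertices -/
theorem Cx.cov_tw (c : Cx G F l h h') {y y' : V} (hy : y ∈ G.Tz F l) (hyy : G.Tw y y') :
    (∃ w ∈ G.Tz F l, G.Low w ∧ y ∈ G.nb w) ∨
    (∃ a ∈ G.Tz F l, ∃ b ∈ G.N F, G.HL a b l ∧ y ∈ G.nb b ∧ y ∈ G.nb a) := by
  have TH := stTwHL_5 G
  have hp := partner_pT30 c.hF (memX.1 hy).2 hyy
  rcases c.cov_l hy with k | k | k | k | k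
  · exact Or.inl k
  · exfalso
    obtain ⟨v, hv, w, hw, vw, v2, w2⟩ := k
    have h1 := c.pT2tw hy hyy
    have h3 : 3 ≤ (G.pT F y).card := by
      refine three_pT (mem_pT30.2 ⟨G.sym _ _ v2, (memX.1 hv).2⟩)
        (mem_pT30.2 ⟨G.sym _ _ w2, (memX.1 hw).2⟩) hp (ne_of_nb5 vw.1) ?_ ?_
      · rintro rfl
        have h4 := TH.uniq c.n9 _ _ _ vw (TH.symm _ _ hyy)
        rw [h4] at w2
        exact G.irr _ w2
      · rintro rfl
        have h4 := TH.uniq c.n9 _ _ _ (TH.symm _ _ vw) (TH.symm _ _ hyy)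
        rw [h4] at v2
        exact G.irr _ v2
    omega
  · exfalso
    obtain ⟨a, ha, b, hb, hab⟩ := k
    exact tw_nlow hyy (c.hF.sat _ _ _ hab)
  · exact Or.inr k
  · exfalso
    obtain ⟨a, ha, b, hb, hab⟩ := k
    exact (TH.twLL _ _ _ _ hab).2 ⟨_, hyy⟩

open Classical in
/-- the low vertices `b` with `HL a b l` -/
noncomputable def Bs (G : CG V) (F : Finset V) (l : V) : Finset V :=
  (G.N F).filter fun b => ∃ a ∈ G.N F, G.HL a b l

theorem mem_Bs {b : V} : b ∈ Bs G F l ↔ b ∈ G.N F ∧ ∃ a ∈ G.N F, G.HL a b l := by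
  classical
  unfold Bs
  rw [mem_filter]

theorem Bs_low {b : V} (hb : b ∈ Bs G F l) : G.Low b := by
  obtain ⟨-, a, -, h⟩ := mem_Bs.1 hb
  exact h.2.1

theorem Bs_notX {b : V} (hb : b ∈ Bs G F l) : b ∉ G.Tz F l := by
  obtain ⟨-, a, -, h⟩ := mem_Bs.1 hb
  intro h1
  exact (HL_bt76 h).1 (G.sym _ _ (memX.1 h1).1)

/-- lows in `X` and in `Bs`, and the other vertices of `X` -/
theorem Cx.val (c : Cx G F l h h') {w : V} (hw : w ∈ G.Tz F l ∪ Bs G F l) :
    (G.Low w → G.wt3 G.Tw w * ((G.tT G.Tw F w).card : ℤ) + 2 ≤ G.gam5 F w) ∧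
    (G.Low w → G.d w F = 3 → G.wt3 G.Tw w * ((G.tT G.Tw F w).card : ℤ) + 4 ≤ G.gam5 F w) ∧
    (¬ G.Low w → G.wt3 G.Tw w * ((G.tT G.Tw F w).card : ℤ) ≤ G.gam5 F w ∧
      G.wt3 G.Tw w * ((G.tT G.Tw F w).card : ℤ) ≤ 1) := by
  have TH := stTwHL_5 G
  have hwN : w ∈ G.N F := by
    rcases mem_union.1 hw with h0 | h0
    · exact (memX.1 h0).2
    · exact (mem_Bs.1 h0).1
  have hlow : G.Low w → G.wt3 G.Tw w * ((G.tT G.Tw F w).card : ℤ) =
      2 * ((G.pT F w).card : ℤ) := by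
    intro h0
    rw [wt3_low30 h0, tT_low42 c.hF.qs F h0]
    rfl
  have h3 : G.Low w → G.d w F = 3 →
      G.wt3 G.Tw w * ((G.tT G.Tw F w).card : ℤ) + 4 ≤ G.gam5 F w := by
    intro h0 h3
    rw [hlow h0]
    obtain ⟨-, h4, h5, -⟩ := c.hB.low3 F c.hF w hwN h0 h3
    by_cases h6 : (G.pT F w).card = 1
    · rw [h6]
      push_cast
      linarith
    · have := h5 h6
      linarith
  refine ⟨fun h0 => ?_, h3, fun h0 => ?_⟩
  · have hd2 : 2 ≤ G.d w F := by
      rcases mem_union.1 hw with h1 | h1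
      · exact c.d2X h1
      · -- `b` is adjacent to both hubs
        obtain ⟨-, a, ha, hab⟩ := mem_Bs.1 h1
        have key : ∀ {h h' : V}, Cx G F l h h' → w ∈ G.nb h := by
          intro h h' c
          by_contra h5
          have h6 : a ∉ G.nb h := by
            intro h7
            rcases HL_sup76 hab (G.sym _ _ h7) (by
              rintro rfl
              exact c.h1.1 c.ll) with h8 | h8
            · exact c.nNF c.hF1 (h8 ▸ hwN)
            · exact h5 (G.sym _ _ h8)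
          exact ne_of_nb5 (HL_b76 hab) (c.miss_one ha hwN h6 h5)
        have h4 : ({h, h'} : Finset V) ⊆ G.nb w ∩ F := by
          intro z hz
          simp only [mem_insert, mem_singleton] at hz
          rcases hz with rfl | rfl
          · exact mem_inter.2 ⟨G.sym _ _ (key c), c.hF1⟩
          · exact mem_inter.2 ⟨G.sym _ _ (key c.symm), c.hF2⟩
        have h5 := card_le_card h4
        rwa [card_pair c.ne] at h5
    have hd3 := d_le3_30 (G := G) c.hF.c3 w
    rcases (by omega : G.d w F = 2 ∨ G.d w F = 3) with h4 | h4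
    · rw [hlow h0]
      obtain ⟨-, h5, h6, h7⟩ := c.hB.low2 F c.hF w hwN h0 h4
      by_cases hP : G.PairSet (G.pT F w)
      · by_cases hP2 : ∀ v ∈ G.pT F w, G.d v F ≠ 2
        · have h8 := h7 hP hP2
          obtain ⟨p, p', hpp, he⟩ := hP
          rw [he, card_pair (ne_of_nb5 hpp.1)]
          push_cast
          linarith
        · exfalso
          push Not at hP2
          obtain ⟨v, hv, hv2⟩ := hP2
          obtain ⟨p, p', hpp, he⟩ := hP
          have hps : ∀ x ∈ G.pT F w, G.IsTw x := by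
            intro x hx
            rw [he, mem_insert, mem_singleton] at hx
            rcases hx with rfl | rfl
            · exact ⟨_, hpp⟩
            · exact ⟨_, TH.symm _ _ hpp⟩
          rcases mem_union.1 hw with h1 | h1
          · -- `w` in `X`
            have hout : ∀ x ∈ G.pT F w, x ∉ G.Tz F l := by
              have hvt := hps v hv
              obtain ⟨v', hvv⟩ := hvt
              have hvX : v ∉ G.Tz F l := by
                intro h8
                have := c.d3tw h8 hvv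
                omega
              have hvN := (mem_pT30.1 hv).2
              have hvl : v ∉ G.nb l := fun h8 => hvX (memX.2 ⟨h8, hvN⟩)
              have hlv : l ≠ v := by
                rintro rfl
                exact c.nNF c.lF hvN
              have hv'l := tw_out hvv hlv hvl
              have hset : ∀ x ∈ G.pT F w, x = v ∨ x = v' := by
                intro x hx
                rw [he, mem_insert, mem_singleton] at hx
                rw [he, mem_insert, mem_singleton] at hv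
                rcases hv with rfl | rfl
                · rcases hx with h9 | h9
                  · exact Or.inl h9
                  · right
                    rw [h9]
                    exact TH.uniq c.n9 _ _ _ hpp hvv
                · rcases hx with h9 | h9
                  · right
                    rw [h9]
                    exact TH.uniq c.n9 _ _ _ (TH.symm _ _ hpp) hvv
                  · exact Or.inl h9
              intro x hx h8
              rcases hset x hx with rfl | rfl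
              · exact hvl (memX.1 h8).1
              · exact hv'l (memX.1 h8).1
            rcases c.cov_l h1 with k | k | k | k | k
            · obtain ⟨e, e1, e2, e3⟩ := k
              exact hout e (mem_pT30.2 ⟨G.sym _ _ e3, (memX.1 e1).2⟩) e1
            · obtain ⟨e, e1, e', -, -, e3, -⟩ := k
              exact hout e (mem_pT30.2 ⟨G.sym _ _ e3, (memX.1 e1).2⟩) e1
            · obtain ⟨a, e1, b, -, hab⟩ := k
              exact hout a (mem_pT30.2 ⟨G.sym _ _ (HL_t76 hab), (memX.1 e1).2⟩) e1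
            · obtain ⟨a, e1, b, -, -, -, e3⟩ := k
              exact hout a (mem_pT30.2 ⟨G.sym _ _ e3, (memX.1 e1).2⟩) e1
            · obtain ⟨a, e1, b, e2, hab⟩ := k
              obtain ⟨b', hbb⟩ := hps b
                (mem_pT30.2 ⟨G.sym _ _ (LL_u76 hab), (mem_sdiff.1 e2).1⟩)
              exact tw_nlow hbb hab.2.1
          · obtain ⟨-, a, ha, hab⟩ := mem_Bs.1 h1
            exact TH.notHL c.n9 _ _ _ hab
              (hps a (mem_pT30.2 ⟨G.sym _ _ (HL_b76 hab), ha⟩))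
      · have := h5 hP
        linarith
    · have := h3 h0 h4
      linarith
  · have h1 : w ∈ G.Tz F l := by
      rcases mem_union.1 hw with h1 | h1
      · exact h1
      · exact absurd (Bs_low h1) h0
    by_cases ht : G.IsTw w
    · obtain ⟨w', hww⟩ := ht
      have h4 := c.d3tw h1 hww
      have h5 := c.pT2tw h1 hww
      have h6 := tT_q42 c.hF.qs c.n9 c.hF.big.1 hww hwN
      have h7 : (G.tT G.Tw F w).card + 1 = (G.pT F w).card := h6
      have h8 := (c.hB.tw F c.hF w hwN ⟨w', hww⟩).2.2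
      rw [h4] at h8
      rw [wt3_q30 c.hF.qs ⟨w', hww⟩, one_mul]
      have h9 : ((G.tT G.Tw F w).card : ℤ) + 1 = ((G.pT F w).card : ℤ) := by exact_mod_cast h7
      have h10 : ((G.pT F w).card : ℤ) ≤ 2 := by exact_mod_cast h5
      push_cast at h8
      constructor <;> linarith
    · have h4 : G.wt3 G.Tw w = 0 := by
        unfold wt3
        rw [if_neg h0, if_neg]
        exact ht
      rw [h4, zero_mul, c.hB.hub F c.hF w hwN ⟨h0, ht⟩]
      exact ⟨le_rfl, by norm_num⟩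

theorem sub_NF : G.Tz F l ∪ Bs G F l ⊆ G.N F := by
  intro w hw
  rcases mem_union.1 hw with h0 | h0
  · exact (memX.1 h0).2
  · exact (mem_Bs.1 h0).1

theorem Cx.count (c : Cx G F l h h') :
    2 * ((G.Tz F l).card : ℤ) ≤
      ∑ w ∈ G.Tz F l ∪ Bs G F l, G.wt3 G.Tw w * ((G.tT G.Tw F w).card : ℤ) := by
  refine (cnt30g c.hF (M := G.Tz F l) (S := G.Tz F l ∪ Bs G F l) subset_union_left sub_NF l
    ?_).1
  intro y hy
  rcases c.cov_l hy with k | k | k | k | k
  · obtain ⟨w, w1, w2, w3⟩ := k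
    exact Or.inl ⟨w, mem_union_left _ w1, w2, w3⟩
  · obtain ⟨v, v1, w, w1, h1, h2, h3⟩ := k
    exact Or.inr (Or.inl ⟨v, mem_union_left _ v1, w, mem_union_left _ w1, h1, h2, h3⟩)
  · obtain ⟨a, a1, b, b1, hab⟩ := k
    exact Or.inr (Or.inr (Or.inl ⟨a, a1, b, mem_union_left _ b1, hab⟩))
  · obtain ⟨a, a1, b, b1, hab, h2, h3⟩ := k
    exact Or.inl ⟨b, mem_union_right _ (mem_Bs.2 ⟨b1, a, (memX.1 a1).2, hab⟩), hab.2.1, h2⟩
  · obtain ⟨a, a1, b, b1, hab⟩ := k
    exact Or.inr (Or.inr (Or.inr ⟨a, mem_union_left _ a1, b, b1, hab⟩))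

/-- the neighbours of `l` miss at most two vertices -/
theorem Cx.cX (c : Cx G F l h h') : 4 ≤ (G.Tz F l).card := c.hS.missl F c.hF l c.lF

theorem Cx.cXs (c : Cx G F l h h') : (G.N F \ G.Tz F l).card + (G.Tz F l).card = 6 := by
  have h1 : G.Tz F l ⊆ G.N F := fun x hx => (memX.1 hx).2
  rw [card_sdiff_add_card_eq_card h1, c.cN]

/-- (a) a pair of twins outside of `X` -/
theorem Cx.caseA (c : Cx G F l h h') {v v' : V} (hv : v ∈ G.N F) (hvv : G.Tw v v')
    (hvl : v ∉ G.nb l) : 12 ≤ ∑ w ∈ G.N F, G.gam5 F w := by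
  have TH := stTwHL_5 G
  have hne := ne_of_nb5 hvv.1
  have hlv : l ≠ v := by
    rintro rfl
    exact c.nNF c.lF hv
  have hv'N : v' ∈ G.N F := q_N42 c.hF.qs c.hF.big.1 hvv hv
  have hv'l := tw_out hvv hlv hvl
  have hsd : G.N F \ G.Tz F l = {v, v'} := by
    symm
    refine eq_of_subset_of_card_le ?_ ?_
    · intro x hx
      simp only [mem_insert, mem_singleton] at hx
      rcases hx with rfl | rfl
      · exact mem_sdiff.2 ⟨hv, fun h1 => hvl (memX.1 h1).1⟩
      · exact mem_sdiff.2 ⟨hv'N, fun h1 => hv'l (memX.1 h1).1⟩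
    · rw [card_pair hne]
      have h1 := c.cX
      have h2 := c.cXs
      omega
  have hXc : (G.Tz F l).card = 4 := by
    have h2 := c.cXs
    rw [hsd, card_pair hne] at h2
    omega
  have hout : ∀ x ∈ G.N F, x ∉ G.Tz F l → x = v ∨ x = v' := by
    intro x hx hxX
    have h1 : x ∈ G.N F \ G.Tz F l := mem_sdiff.2 ⟨hx, hxX⟩
    rwa [hsd, mem_insert, mem_singleton] at h1
  have hvlow : ¬ G.Low v := tw_nlow hvv
  have hv'low : ¬ G.Low v' := tw_nlow (TH.symm _ _ hvv)
  have hnoLow : ∀ x ∈ G.N F, x ∉ G.Tz F l → ¬ G.Low x := by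
    intro x hx hxX
    rcases hout x hx hxX with rfl | rfl
    · exact hvlow
    · exact hv'low
  -- the low vertex of `X` adjacent to the pair
  obtain ⟨d0, d0X, d0l, d0v⟩ : ∃ d0 ∈ G.Tz F l, G.Low d0 ∧ v ∈ G.nb d0 := by
    rcases c.hF.cov h c.hF1 v hv (c.tw_hub hv hvv) with k | k | k | k | k
    · obtain ⟨w, hw, w1, w2, w3⟩ := k
      rcases mem_union.1 hw with h0 | h0
      · exfalso
        rw [c.low_eq h0 w1] at w3
        exact hvl w3
      · refine ⟨w, ?_, w1, w3⟩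
        by_contra h1
        exact hnoLow w h0 h1 w1
    · exfalso
      obtain ⟨e, he, e', he', ee, -, -, e2, e2'⟩ := k
      have heN : ∀ {e e' : V}, e ∈ F ∪ G.N F → G.Tw e e' → e ∈ G.N F := by
        intro e e' he ee
        rcases mem_union.1 he with h0 | h0
        · exact absurd ⟨e', ee⟩ (c.notw h0)
        · exact h0
      have hev : e ≠ v := by
        rintro rfl
        exact G.irr _ e2
      have hev' : e ≠ v' := by
        rintro rfl
        have h4 := TH.uniq c.n9 _ _ _ ee (TH.symm _ _ hvv)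
        rw [h4] at e2'
        exact G.irr _ e2'
      have heX : e ∈ G.Tz F l := by
        by_contra h1
        rcases hout e (heN he ee) h1 with h2 | h2
        · exact hev h2
        · exact hev' h2
      have h1 := c.pT2tw heX ee
      have h2 : e' ≠ v := by
        rintro rfl
        exact G.irr _ e2'
      have h3 : e' ≠ v' := by
        rintro rfl
        have h4 := TH.uniq c.n9 _ _ _ (TH.symm _ _ ee) (TH.symm _ _ hvv)
        exact hev h4
      have h4 := three_pT (partner_pT30 c.hF (memX.1 heX).2 ee) (mem_pT30.2 ⟨e2, hv⟩)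
        (mem_pT30.2 ⟨G.sym _ _ (Tw_nb5 hvv (G.sym _ _ e2) hev'), hv'N⟩) h2 h3 hne
      omega
    · exfalso
      obtain ⟨a, b, hab, -⟩ := k
      exact hvlow (c.hF.sat _ _ _ hab)
    · exfalso
      obtain ⟨a, b, hab, -⟩ := k
      exact c.h1.1 (c.hF.sat _ _ _ hab)
    · exfalso
      obtain ⟨a, b, hab, -⟩ := k
      exact (TH.twLL _ _ _ _ hab).2 ⟨_, hvv⟩
  have d0v' : v' ∈ G.nb d0 := by
    refine G.sym _ _ (Tw_nb5 hvv (G.sym _ _ d0v) ?_)
    rintro rfl
    exact hv'low d0l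
  have d0N := (memX.1 d0X).2
  -- the count
  have hcount := (cnt30g c.hF (M := G.Tz F l) (S := G.Tz F l) (Subset.refl _)
    (fun x hx => (memX.1 hx).2) l (by
      intro y hy
      rcases c.cov_l hy with k | k | k | k | k
      · exact Or.inl k
      · exact Or.inr (Or.inl k)
      · exact Or.inr (Or.inr (Or.inl k))
      · exfalso
        obtain ⟨a, a1, b, b1, hab, -⟩ := k
        exact hnoLow b b1 (fun h1 => (HL_bt76 hab).1 (G.sym _ _ (memX.1 h1).1)) hab.2.1
      · exact Or.inr (Or.inr (Or.inr k)))).2 (by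
      intro y _ a _ b hb hab
      exact hnoLow b (mem_sdiff.1 hb).1 (mem_sdiff.1 hb).2 hab.2.1)
  rw [hXc] at hcount
  have hsplit : ∑ w ∈ G.Tz F l, G.wt3 G.Tw w * ((G.tT G.Tw F w).card : ℤ) =
      ∑ w ∈ G.Tz F l, G.wt3 G.Tw w * ((G.tT G.Tw F w ∩ G.Tz F l).card : ℤ) +
      ∑ w ∈ G.Tz F l, G.wt3 G.Tw w * ((G.tT G.Tw F w \ G.Tz F l).card : ℤ) := by
    rw [← sum_add_distrib]
    refine sum_congr rfl fun w _ => ?_
    have h2 := card_inter_add_card_sdiff (G.tT G.Tw F w) (G.Tz F l)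
    rw [← mul_add]
    congr 1
    exact_mod_cast h2.symm
  have hext : (4 : ℤ) ≤ ∑ w ∈ G.Tz F l, G.wt3 G.Tw w * ((G.tT G.Tw F w \ G.Tz F l).card : ℤ) := by
    have h1 : (4 : ℤ) ≤ G.wt3 G.Tw d0 * ((G.tT G.Tw F d0 \ G.Tz F l).card : ℤ) := by
      rw [wt3_low30 d0l]
      have h2 : ({v, v'} : Finset V) ⊆ G.tT G.Tw F d0 \ G.Tz F l := by
        intro x hx
        simp only [mem_insert, mem_singleton] at hx
        rcases hx with rfl | rfl
        · exact mem_sdiff.2 ⟨mem_tT30.2 ⟨d0v, hv, fun h3 => tw_nlow h3 d0l⟩,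
            fun h3 => hvl (memX.1 h3).1⟩
        · exact mem_sdiff.2 ⟨mem_tT30.2 ⟨d0v', hv'N, fun h3 => tw_nlow h3 d0l⟩,
            fun h3 => hv'l (memX.1 h3).1⟩
      have h3 := card_le_card h2
      rw [card_pair hne] at h3
      have h4 : (2 : ℤ) ≤ ((G.tT G.Tw F d0 \ G.Tz F l).card : ℤ) := by exact_mod_cast h3
      linarith
    refine h1.trans (single_le_sum (f := fun w => G.wt3 G.Tw w *
      ((G.tT G.Tw F w \ G.Tz F l).card : ℤ)) (fun w _ => ?_) d0X)
    exact mul_nonneg (wt3_nonneg30 w) (Int.natCast_nonneg _)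
  -- the values in `X`
  have hX : ∑ w ∈ G.Tz F l, G.wt3 G.Tw w * ((G.tT G.Tw F w).card : ℤ) + 2 ≤
      ∑ w ∈ G.Tz F l, G.gam5 F w := by
    have h1 : ∑ w ∈ G.Tz F l, (G.wt3 G.Tw w * ((G.tT G.Tw F w).card : ℤ) +
        (if w = d0 then 2 else 0)) ≤ ∑ w ∈ G.Tz F l, G.gam5 F w := by
      refine sum_le_sum fun w hw => ?_
      obtain ⟨k1, -, k3⟩ := c.val (mem_union_left _ hw)
      split_ifs with h2
      · exact k1 (h2 ▸ d0l)
      · rw [add_zero]
        by_cases h3 : G.Low w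
        · have := k1 h3
          linarith
        · exact (k3 h3).1
    rw [sum_add_distrib, sum_ite_eq', if_pos d0X] at h1
    exact h1
  have hpair : (-2 : ℤ) ≤ ∑ w ∈ G.N F \ G.Tz F l, G.gam5 F w := by
    rw [hsd, sum_pair hne]
    have key : ∀ {v v' : V}, v ∈ G.N F → G.Tw v v' → v ∈ G.nb d0 → v' ≠ d0 →
        -1 ≤ G.gam5 F v := by
      intro v v' hv hvv hd hne
      obtain ⟨t1, -, t3⟩ := c.hB.tw F c.hF v hv ⟨v', hvv⟩
      have h2 : ({v', d0} : Finset V) ⊆ G.pT F v := by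
        intro x hx
        simp only [mem_insert, mem_singleton] at hx
        rcases hx with rfl | rfl
        · exact partner_pT30 c.hF hv hvv
        · exact mem_pT30.2 ⟨G.sym _ _ hd, d0N⟩
      have h3 := card_le_card h2
      rw [card_pair hne] at h3
      have h4 : (2 : ℤ) ≤ ((G.pT F v).card : ℤ) := by exact_mod_cast h3
      have h5 : (2 : ℤ) ≤ (G.d v F : ℤ) := by exact_mod_cast t1
      linarith
    have h1 := key hv hvv d0v (fun h0 => hv'low (h0 ▸ d0l))
    have h2 := key hv'N (TH.symm _ _ hvv) d0v' (fun h0 => hvlow (h0 ▸ d0l))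
    linarith
  have htot := sum_sdiff (f := fun w => G.gam5 F w)
    (show G.Tz F l ⊆ G.N F from fun x hx => (memX.1 hx).2)
  push_cast at hcount
  linarith

/-- (b2) one low vertex in `X`, not adjacent to `h` -/
theorem Cx.caseB2 (c : Cx G F l h h') (hnt : ∀ v ∈ G.N F, G.IsTw v → v ∈ G.Tz F l)
    (hc4 : (G.Tz F l).card = 4) {w0 : V} (hw0 : w0 ∈ G.Tz F l) (_hl0 : G.Low w0)
    (huniq : ∀ w ∈ G.Tz F l ∪ Bs G F l, G.Low w → w = w0) (hmis : w0 ∉ G.nb h) :
    ∃ y ∈ G.N F, y ∉ G.Tz F l ∧ G.Low y ∧ 2 ≤ G.d y F := by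
  have TH := stTwHL_5 G
  have hw0N := (memX.1 hw0).2
  have h2 := c.cXs
  obtain ⟨y1, y2, hy12, hsd⟩ := card_eq_two.1
    (show (G.N F \ G.Tz F l).card = 2 by omega)
  have hY : ∀ x, x ∈ G.N F \ G.Tz F l ↔ x = y1 ∨ x = y2 := by
    intro x
    rw [hsd, mem_insert, mem_singleton]
  have hB : ∀ b, b ∉ Bs G F l := by
    intro b hb
    have h3 := huniq b (mem_union_right _ hb) (Bs_low hb)
    exact Bs_notX hb (h3 ▸ hw0)
  have hadj : ∀ y ∈ G.N F \ G.Tz F l, y ∈ G.nb h := by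
    intro y hy
    by_contra h3
    have h4 := c.miss_one (mem_sdiff.1 hy).1 hw0N h3 hmis
    exact (mem_sdiff.1 hy).2 (h4 ▸ hw0)
  -- the covers of the edges `h y`
  have claim : ∀ y ∈ G.N F \ G.Tz F l, ∀ y' ∈ G.N F \ G.Tz F l,
      (∀ x ∈ G.N F \ G.Tz F l, x = y ∨ x = y') → G.Low y' ∨ (G.Low y ∧ y ∈ G.nb h') := by
    intro y hy y' hy' hall
    obtain ⟨hyN, hyX⟩ := mem_sdiff.1 hy
    have hyl : y ∉ G.nb l := fun h3 => hyX (memX.2 ⟨h3, hyN⟩)
    have fin : ∀ w ∈ G.N F, G.Low w → w ∈ G.nb h → w ≠ y → G.Low y' := by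
      intro w hw h3 h4 h5
      by_cases h6 : w ∈ G.Tz F l
      · exfalso
        rw [huniq w (mem_union_left _ h6) h3] at h4
        exact hmis h4
      · rcases hall w (mem_sdiff.2 ⟨hw, h6⟩) with h7 | h7
        · exact absurd h7 h5
        · exact h7 ▸ h3
    rcases c.hF.cov h c.hF1 y hyN (hadj y hy) with k | k | k | k | k
    · obtain ⟨w, hw, w1, w2, w3⟩ := k
      rcases mem_union.1 hw with h0 | h0
      · exfalso
        rw [c.low_eq h0 w1] at w3
        exact hyl w3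
      · exact Or.inl (fin w h0 w1 (G.sym _ _ w2) (fun h3 => G.irr _ (h3 ▸ w3)))
    · exfalso
      obtain ⟨e, he, e', he', ee, -, -, e2, e2'⟩ := k
      have heN : e ∈ G.N F := by
        rcases mem_union.1 he with h0 | h0
        · exact absurd ⟨e', ee⟩ (c.notw h0)
        · exact h0
      have heX := hnt e heN ⟨e', ee⟩
      have he'X := hnt e' (q_N42 c.hF.qs c.hF.big.1 ee heN) ⟨e, TH.symm _ _ ee⟩
      have h3 := c.pT2tw heX ee
      rcases c.cov_tw heX ee with k | k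
      · obtain ⟨w, w1, w2, w3⟩ := k
        have h4 := three_pT (partner_pT30 c.hF heN ee) (mem_pT30.2 ⟨e2, hyN⟩)
          (mem_pT30.2 ⟨G.sym _ _ w3, (memX.1 w1).2⟩) (fun h5 => hyX (h5 ▸ he'X))
          (fun h5 => tw_nlow (TH.symm _ _ ee) (h5 ▸ w2)) (fun h5 => hyX (h5 ▸ w1))
        omega
      · obtain ⟨a, a1, b, b1, hab, -⟩ := k
        exact hB b (mem_Bs.2 ⟨b1, a, (memX.1 a1).2, hab⟩)
    · obtain ⟨a, b, hab, b1, a1, h3⟩ := k
      have hylow := c.hF.sat _ _ _ hab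
      rcases h3 with ⟨ha, hb⟩ | ⟨ha, hb⟩
      · right
        refine ⟨hylow, ?_⟩
        rcases (c.mF a).1 ha with h4 | h4 | h4
        · exact absurd (h4 ▸ c.ll) (HL_not_low76 hab)
        · exact absurd (h4 ▸ a1) (G.irr _)
        · exact h4 ▸ HL_t76 hab
      · exact Or.inl (fin b hb hab.2.1 (G.sym _ _ b1) (HL_bt76 hab).2.symm)
    · exfalso
      obtain ⟨a, b, hab, -⟩ := k
      exact c.h1.1 (c.hF.sat _ _ _ hab)
    · obtain ⟨a, b, hab, h3⟩ := k
      left
      have hah : h ∈ G.nb a := LL_t76 hab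
      have hay : a ≠ y := (LL_ua76 hab).2.symm
      have haN : a ∈ G.N F := by
        rcases h3 with ⟨ha, hb⟩ | ⟨ha, -⟩ | ⟨ha, -⟩
        · exfalso
          have hal := c.low_eq ha hab.1
          rcases mem_union.1 hb with h0 | h0
          · have hbl := c.low_eq h0 hab.2.1
            have h4 := LL_ab76 hab
            rw [hal, hbl] at h4
            exact G.irr _ h4
          · obtain ⟨e, e1, e2⟩ := toCo42 c.hF.big.1 h0
            have hey : e ≠ y := by
              rintro rfl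
              exact (mem_Co76.1 e1).2 hyN
            rcases LL_from76 hab e2 hey with h5 | h5
            · exact (mem_Co76.1 e1).1 (h5 ▸ ha)
            · exact noed42 ha e1 h5
        · exact ha
        · exact ha
      exact fin a haN hab.1 (G.sym _ _ hah) hay
  have hY1 := (hY y1).2 (Or.inl rfl)
  have hY2 := (hY y2).2 (Or.inr rfl)
  have two : ∀ y ∈ G.N F \ G.Tz F l, y ∈ G.nb h' → 2 ≤ G.d y F := by
    intro y hy h3
    have h4 : ({h, h'} : Finset V) ⊆ G.nb y ∩ F := by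
      intro z hz
      simp only [mem_insert, mem_singleton] at hz
      rcases hz with rfl | rfl
      · exact mem_inter.2 ⟨G.sym _ _ (hadj y hy), c.hF1⟩
      · exact mem_inter.2 ⟨G.sym _ _ h3, c.hF2⟩
    have h5 := card_le_card h4
    rwa [card_pair c.ne] at h5
  have fin2 : ∀ y ∈ G.N F \ G.Tz F l, ∀ y' ∈ G.N F \ G.Tz F l,
      (∀ x ∈ G.N F \ G.Tz F l, x = y ∨ x = y') → y ∈ G.nb h' →
      ∃ y ∈ G.N F, y ∉ G.Tz F l ∧ G.Low y ∧ 2 ≤ G.d y F := by
    intro y hy y' hy' hall h3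
    rcases claim y' hy' y hy (fun x hx => (hall x hx).symm) with h4 | ⟨h4, h5⟩
    · exact ⟨y, (mem_sdiff.1 hy).1, (mem_sdiff.1 hy).2, h4, two y hy h3⟩
    · exact ⟨y', (mem_sdiff.1 hy').1, (mem_sdiff.1 hy').2, h4, two y' hy' h5⟩
  by_cases h3 : y1 ∈ G.nb h'
  · exact fin2 y1 hY1 y2 hY2 (fun x hx => (hY x).1 hx) h3
  · by_cases h4 : y2 ∈ G.nb h'
    · exact fin2 y2 hY2 y1 hY1 (fun x hx => ((hY x).1 hx).symm) h4
    · exact absurd (c.symm.miss_one (mem_sdiff.1 hY1).1 (mem_sdiff.1 hY2).1 h3 h4) hy12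

/-- (b1) no low vertex in `X`, one vertex in `Bs` -/
theorem Cx.caseB1 (c : Cx G F l h h') (hno : ∀ w ∈ G.Tz F l, ¬ G.Low w) {b : V}
    (hb : b ∈ Bs G F l) (huniq : ∀ b' ∈ Bs G F l, b' = b) : False := by
  have TH := stTwHL_5 G
  obtain ⟨hbN, a, haN, hab⟩ := mem_Bs.1 hb
  have haX : a ∈ G.Tz F l := memX.2 ⟨G.sym _ _ (HL_t76 hab), haN⟩
  rcases c.cov_l haX with k | k | k | k | k
  · obtain ⟨w, w1, w2, -⟩ := k
    exact hno w w1 w2
  · obtain ⟨v, v1, w, w1, vw, v2, w2⟩ := k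
    have h3 := c.pT2tw v1 vw
    rcases c.cov_tw v1 vw with k | k
    · obtain ⟨x, x1, x2, -⟩ := k
      exact hno x x1 x2
    · obtain ⟨a2, e1, b2, e2, hab2, e3, -⟩ := k
      have hb2 := huniq b2 (mem_Bs.2 ⟨e2, a2, (memX.1 e1).2, hab2⟩)
      rw [hb2] at e3
      have h4 := three_pT (partner_pT30 c.hF (memX.1 v1).2 vw)
        (mem_pT30.2 ⟨G.sym _ _ e3, hbN⟩) (mem_pT30.2 ⟨v2, haN⟩)
        (fun h5 => tw_nlow (TH.symm _ _ vw) (h5 ▸ Bs_low hb))
        (fun h5 => TH.notHL c.n9 _ _ _ hab ⟨v, h5 ▸ TH.symm _ _ vw⟩)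
        (ne_of_nb5 (HL_b76 hab)).symm
      omega
  · obtain ⟨a2, e1, b2, e2, hab2⟩ := k
    exact HL_not_low76 hab (c.hF.sat _ _ _ hab2)
  · obtain ⟨a2, e1, b2, e2, hab2, -, e4⟩ := k
    have hb2 := huniq b2 (mem_Bs.2 ⟨e2, a2, (memX.1 e1).2, hab2⟩)
    rw [hb2] at hab2
    have h4 := TH.one c.n9 _ _ _ _ hab hab2
    rw [← h4] at e4
    exact G.irr _ e4
  · obtain ⟨a2, e1, b2, e2, hab2⟩ := k
    exact hno a2 e1 hab2.1

/-- (b) no twins outside of `X` -/
theorem Cx.caseB (c : Cx G F l h h') (hnt : ∀ v ∈ G.N F, G.IsTw v → v ∈ G.Tz F l) :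
    12 ≤ ∑ w ∈ G.N F, G.gam5 F w := by
  classical
  set S : Finset V := G.Tz F l ∪ Bs G F l with hSd
  set Λ : Finset V := S.filter fun w => G.Low w with hΛ
  have hSN : S ⊆ G.N F := sub_NF
  have hcount := c.count
  rw [← hSd] at hcount
  have h4 : (4 : ℤ) ≤ ((G.Tz F l).card : ℤ) := by exact_mod_cast c.cX
  have hrest : ∀ w ∈ G.N F \ S, 0 ≤ G.gam5 F w := by
    intro w hw
    obtain ⟨h1, h2⟩ := mem_sdiff.1 hw
    by_cases hl : G.Low w
    · exact (gam_low30 c.hB c.hF h1 hl).1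
    · have ht : ¬ G.IsTw w := fun h3 => h2 (mem_union_left _ (hnt w h1 h3))
      rw [c.hB.hub F c.hF w h1 ⟨hl, ht⟩]
  have hrest0 : 0 ≤ ∑ w ∈ G.N F \ S, G.gam5 F w := sum_nonneg hrest
  have htot := sum_sdiff (f := fun w => G.gam5 F w) hSN
  have hSsum : ∑ w ∈ S, G.wt3 G.Tw w * ((G.tT G.Tw F w).card : ℤ) + 2 * (Λ.card : ℤ) ≤
      ∑ w ∈ S, G.gam5 F w := by
    have h1 : ∑ w ∈ S, (G.wt3 G.Tw w * ((G.tT G.Tw F w).card : ℤ) +
        (if G.Low w then 2 else 0)) ≤ ∑ w ∈ S, G.gam5 F w := by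
      refine sum_le_sum fun w hw => ?_
      obtain ⟨k1, -, k3⟩ := c.val hw
      split_ifs with h2
      · exact k1 h2
      · rw [add_zero]
        exact (k3 h2).1
    rw [sum_add_distrib, ← sum_filter, sum_const, nsmul_eq_mul] at h1
    linarith
  rcases Nat.lt_or_ge Λ.card 2 with hc | hc
  · rcases (by omega : Λ.card = 0 ∨ Λ.card = 1) with h0 | h0
    · -- no lows
      exfalso
      rw [card_eq_zero] at h0
      have hno : ∀ w ∈ S, ¬ G.Low w := by
        intro w hw h1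
        have : w ∈ Λ := mem_filter.2 ⟨hw, h1⟩
        rw [h0] at this
        exact notMem_empty _ this
      have hBe : Bs G F l = ∅ := by
        rw [eq_empty_iff_forall_notMem]
        intro b hb
        exact hno b (mem_union_right _ hb) (Bs_low hb)
      have h1 : ∑ w ∈ S, G.wt3 G.Tw w * ((G.tT G.Tw F w).card : ℤ) ≤ ∑ _w ∈ S, (1 : ℤ) :=
        sum_le_sum fun w hw => ((c.val hw).2.2 (hno w hw)).2
      rw [sum_const, nsmul_eq_mul, mul_one] at h1
      have h2 : S = G.Tz F l := by rw [hSd, hBe, union_empty]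
      rw [h2] at h1 hcount
      linarith
    · obtain ⟨w0, hw0⟩ := card_eq_one.1 h0
      have hw0Λ : w0 ∈ Λ := by
        rw [hw0]
        exact mem_singleton_self _
      obtain ⟨hw0S, hw0l⟩ := mem_filter.1 hw0Λ
      have huniq : ∀ w ∈ S, G.Low w → w = w0 := by
        intro w hw h1
        have : w ∈ Λ := mem_filter.2 ⟨hw, h1⟩
        rwa [hw0, mem_singleton] at this
      rw [h0] at hSsum
      by_cases hX : w0 ∈ G.Tz F l
      · by_cases hd : G.d w0 F = 3
        · -- three neighbours in `F`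
          have h1 : ∑ w ∈ S, (G.wt3 G.Tw w * ((G.tT G.Tw F w).card : ℤ) +
              (if w = w0 then 4 else 0)) ≤ ∑ w ∈ S, G.gam5 F w := by
            refine sum_le_sum fun w hw => ?_
            obtain ⟨k1, k2, k3⟩ := c.val hw
            split_ifs with h2
            · exact k2 (h2 ▸ hw0l) (h2 ▸ hd)
            · rw [add_zero]
              by_cases h3 : G.Low w
              · exact absurd (huniq w hw h3) h2
              · exact (k3 h3).1
          rw [sum_add_distrib, sum_ite_eq', if_pos hw0S] at h1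
          linarith
        · rcases Nat.lt_or_ge (G.Tz F l).card 5 with h5 | h5
          · have hc4 : (G.Tz F l).card = 4 := by
              have := c.cX
              omega
            -- `w0` misses `h` or `h'`
            have hy : ∃ y ∈ G.N F, y ∉ G.Tz F l ∧ G.Low y ∧ 2 ≤ G.d y F := by
              by_cases h6 : w0 ∈ G.nb h
              · have h7 : w0 ∉ G.nb h' := by
                  intro h7
                  apply hd
                  have h8 : F ⊆ G.nb w0 ∩ F := by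
                    intro x hx
                    refine mem_inter.2 ⟨?_, hx⟩
                    rcases (c.mF x).1 hx with rfl | rfl | rfl
                    · exact G.sym _ _ (memX.1 hX).1
                    · exact G.sym _ _ h6
                    · exact G.sym _ _ h7
                  have h9 := card_le_card h8
                  rw [c.hF.c3] at h9
                  have h10 := d_le3_30 (G := G) c.hF.c3 w0
                  have h11 : 3 ≤ G.d w0 F := h9
                  omega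
                exact c.symm.caseB2 hnt hc4 hX hw0l huniq h7
              · exact c.caseB2 hnt hc4 hX hw0l huniq h6
            obtain ⟨y, y1, y2, y3, y4⟩ := hy
            have hyS : y ∉ S := by
              intro h6
              rcases mem_union.1 h6 with h7 | h7
              · exact y2 h7
              · exact y2 (huniq y h6 y3 ▸ hX)
            have h6 := (gam_low30 c.hB c.hF y1 y3).2.1 y4
            have h7 : G.gam5 F y ≤ ∑ w ∈ G.N F \ S, G.gam5 F w :=
              single_le_sum (f := fun w => G.gam5 F w) hrest (mem_sdiff.2 ⟨y1, hyS⟩)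
            push_cast at hSsum
            linarith
          · have h6 : (5 : ℤ) ≤ ((G.Tz F l).card : ℤ) := by exact_mod_cast h5
            push_cast at hSsum
            linarith
      · exfalso
        have hb : w0 ∈ Bs G F l := by
          rcases mem_union.1 hw0S with h1 | h1
          · exact absurd h1 hX
          · exact h1
        refine c.caseB1 ?_ hb ?_
        · intro w hw h1
          exact hX (huniq w (mem_union_left _ hw) h1 ▸ hw)
        · intro b' hb'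
          exact huniq b' (mem_union_right _ hb') (Bs_low hb')
  · have h5 : (2 : ℤ) ≤ (Λ.card : ℤ) := by exact_mod_cast hc
    linarith

end G4h30

open G4h30 in
theorem st5LHH_30 (hB : G.St5B) (hS : G.St11Bas G.Tw) : G.St5LHH := by
  intro F hF l h h' he hne hl h1 h2
  have c : Cx G F l h h' := ⟨hB, hS, hF, fun x => by rw [he]; simp, hne, hl, h1, h2⟩
  by_cases hnt : ∀ v ∈ G.N F, G.IsTw v → v ∈ G.Tz F l
  · exact c.caseB hnt
  · push Not at hnt
    obtain ⟨v, hv, ⟨v', hvv⟩, hvX⟩ := hnt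
    exact c.caseA hv hvv (fun h3 => hvX (memX.2 ⟨h3, hv⟩))

end CG

end Pool.Agent.Lib.MP_e95c01_co.N
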