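import Pool.Agent.Lib.MP_e95c01_co.X.StmtsF76
import Pool.Agent.Lib.MP_e95c01_co.T.F7_28
import Pool.Agent.Lib.MP_e95c01_co.U.StCh4_11

/-!
# G5: fragments with three hubs
-/

namespace Pool.Agent.Lib.MP_e95c01_co.N

open Finset

variable {V : Type} [Fintype V] [DecidableEq V]

namespace CG

variable {G : CG V} {F R : Finset V}

/-- no vertex of `N F` has exactly one neighbour in `F` -/
theorem cr5_28 (h3 : G.St11Bas G.Tw) (hF : G.S5 F) (hhub : ∀ z ∈ F, G.Hub z) (z : V) :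
    ¬ G.Cr F z := by
  rintro ⟨a, ha, hz⟩
  have hzF : z ∈ F := by
    have h1 : z ∈ G.nb a ∩ F := by rw [hz]; exact mem_singleton_self z
    exact (mem_inter.1 h1).2
  have hc : (F.erase z).card = 2 := by rw [card_erase_of_mem hzF, hF.c3]
  obtain ⟨x, y, hxy, he⟩ := card_eq_two.1 hc
  have hx : x ∈ F.erase z := by rw [he]; simp
  have hy : y ∈ F.erase z := by rw [he]; simp
  rw [mem_erase] at hx hy
  have h1 := h3.twin F hF z ⟨a, ha, hz⟩ x hx.2 y hy.2 hxy hx.1 hy.1 (hhub x hx.2).1 (hhub y hy.2).1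
  exact (hhub x hx.2).2 ⟨y, h1⟩

theorem d3_28 (hF : G.S5 F) (w : V) : G.d w F ≤ 3 := by
  rw [← hF.c3]
  exact card_le_card inter_subset_right

/-- two or three neighbours in `F` -/
theorem d23_28 (h3 : G.St11Bas G.Tw) (hF : G.S5 F) (hhub : ∀ z ∈ F, G.Hub z) :
    ∀ w ∈ G.N F, G.d w F = 2 ∨ G.d w F = 3 := by
  intro w hw
  have h1 := h3.pos F hF w hw
  have h2 := d3_28 hF w
  have h4 : G.d w F ≠ 1 := by
    intro h7
    obtain ⟨z, hz⟩ := card_eq_one.1 h7
    exact cr5_28 h3 hF hhub z ⟨w, hw, hz⟩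
  omega

/-- a vertex with two neighbours in `F` misses a vertex of `F` -/
theorem miss28 (hF : G.S5 F) {w : V} (hw : G.d w F = 2) : ∃ z ∈ F, z ∉ G.nb w := by
  by_contra hcon
  have h1 : F ⊆ G.nb w := by
    intro z hz
    by_contra h2
    exact hcon ⟨z, hz, h2⟩
  have h2 : G.nb w ∩ F = F := inter_eq_right.2 h1
  unfold d at hw
  rw [h2, hF.c3] at hw
  omega

/-- a vertex of `F` misses at most one vertex of `N F` -/
theorem one_miss28 (h3 : G.St11Bas G.Tw) (hF : G.S5 F) (hhub : ∀ z ∈ F, G.Hub z) {z u v : V}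
    (hz : z ∈ F) (hu : u ∈ G.N F) (hv : v ∈ G.N F) (huz : u ∉ G.nb z) (hvz : v ∉ G.nb z) :
    u = v := by
  by_contra huv
  have h6 : (G.N F).card = 6 := hF.big.1.2.1
  have h1 := h3.miss F hF z hz (hhub z hz).1
  have h2 : G.Tz F z ⊆ ((G.N F).erase u).erase v := by
    intro x hx
    have hx' := mem_Tz28.1 hx
    refine mem_erase.2 ⟨?_, mem_erase.2 ⟨?_, hx'.2⟩⟩
    · rintro rfl
      exact hvz hx'.1
    · rintro rfl
      exact huz hx'.1
  have h4 := card_le_card h2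
  rw [card_erase_of_mem (mem_erase.2 ⟨fun h => huv h.symm, hv⟩), card_erase_of_mem hu, h6] at h4
  omega

/-! ### pairs of twins -/

theorem twN28 (hF : G.S5 F) (hhub : ∀ z ∈ F, G.Hub z) {P P' : V} (hP : P ∈ G.N F)
    (hPP : G.Tw P P') : P' ∈ G.N F :=
  qN28 (q := G.Tw) hF.qs (fun z hz => (hhub z hz).2) hP hPP

theorem tw_d28 (h3 : G.St11Bas G.Tw) (hF : G.S5 F) (hhub : ∀ z ∈ F, G.Hub z) {P P' : V}
    (hP : P ∈ G.N F) (hPP : G.Tw P P') : G.d P F = 3 := by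
  rcases d23_28 h3 hF hhub P hP with h | h
  · exfalso
    obtain ⟨z, hz, hzP⟩ := miss28 hF h
    have hP' := twN28 hF hhub hP hPP
    have e := qF28 (q := G.Tw) hF.qs (fun z hz => (hhub z hz).2) hPP
    have hzP' : z ∉ G.nb P' := by
      intro h1
      have h2 : z ∈ G.nb P ∩ F := by rw [e]; exact mem_inter.2 ⟨h1, hz⟩
      exact hzP (mem_inter.1 h2).1
    have h1 := one_miss28 h3 hF hhub hz hP hP' (fun h2 => hzP (G.sym _ _ h2))
      (fun h2 => hzP' (G.sym _ _ h2))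
    exact ne_of_nb5 hPP.1 h1
  · exact h

/-- the low neighbour of a twin vertex -/
theorem tw_low28 (h3 : G.St11Bas G.Tw) (hB : G.St5B) (hF : G.S5 F)
    (hhub : ∀ z ∈ F, G.Hub z) {P P' : V} (hP : P ∈ G.N F) (hPP : G.Tw P P') :
    ∃ l, G.Low l ∧ l ∈ G.N F ∧ G.d l F = 3 ∧ G.pT F P = {P', l} := by
  have n9 : 9 ≤ Fintype.card V := le_trans (by norm_num) hF.n12
  have hP' := twN28 hF hhub hP hPP
  have hd := tw_d28 h3 hF hhub hP hPP
  have ht := hB.tw F hF P hP ⟨P', hPP⟩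
  have hPP' : P' ∈ G.pT F P := mem_inter.2 ⟨hPP.1, hP'⟩
  have hPF : F ⊆ G.nb P := by
    have h1 : G.nb P ∩ F = F := by
      apply eq_of_subset_of_card_le inter_subset_right
      rw [hF.c3]
      exact hd.ge
    rw [← h1]
    exact inter_subset_left
  have hPl : ¬ G.Low P := tw_not_low11 ⟨P', hPP⟩
  have key : ∀ z ∈ F, ∃ w, G.Low w ∧ w ∈ G.Tz F z ∧ w ∈ G.pT F P := by
    intro z hz
    have hPz : P ∈ G.Tz F z := mem_Tz28.2 ⟨G.sym _ _ (hPF hz), hP⟩
    rcases cover28 (q := G.Tw) hF hhub (cr5_28 h3 hF hhub) hz hPz with h | h | h | h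
    · obtain ⟨w, hw, h1, h2⟩ := h
      exact ⟨w, h1, hw, mem_inter.2 ⟨G.sym _ _ h2, (mem_Tz28.1 hw).2⟩⟩
    · exfalso
      obtain ⟨v, hv, w, hw, h1, h2, h4⟩ := h
      have hv' : v ∈ G.pT F P := mem_inter.2 ⟨G.sym _ _ h2, (mem_Tz28.1 hv).2⟩
      have hw' : w ∈ G.pT F P := mem_inter.2 ⟨G.sym _ _ h4, (mem_Tz28.1 hw).2⟩
      have hvP : v ≠ P' := by
        rintro rfl
        have h5 := (stTwHL_5 G).uniq n9 _ _ _ h1 ((stTwHL_5 G).symm _ _ hPP)
        subst h5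
        exact G.irr _ h4
      have hwP : w ≠ P' := by
        rintro rfl
        have h5 := (stTwHL_5 G).uniq n9 _ _ _ ((stTwHL_5 G).symm _ _ h1)
          ((stTwHL_5 G).symm _ _ hPP)
        subst h5
        exact G.irr _ h2
      have hvw : v ≠ w := ne_of_nb5 h1.1
      have h6 : ({P', v, w} : Finset V) ⊆ G.pT F P := by
        intro x hx
        simp only [mem_insert, mem_singleton] at hx
        rcases hx with rfl | rfl | rfl <;> assumption
      have h7 := card_le_card h6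
      rw [card_insert_of_notMem (by simp [hvP.symm, hwP.symm]), card_pair hvw] at h7
      omega
    · obtain ⟨a, -, b, -, h1⟩ := h
      exact absurd (hF.sat _ _ _ h1) hPl
    · obtain ⟨a, -, b, -, h1⟩ := h
      exact absurd ⟨P', hPP⟩ ((stTwHL_5 G).twLL _ _ _ _ h1).2
  have hne : F.Nonempty := by
    rw [← card_pos, hF.c3]
    norm_num
  obtain ⟨z0, hz0⟩ := hne
  obtain ⟨l, hl, hlz, hlP⟩ := key z0 hz0
  have hlP' : P' ≠ l := by
    rintro rfl
    exact tw_not_low11 ⟨P, (stTwHL_5 G).symm _ _ hPP⟩ hl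
  have hsub : ({P', l} : Finset V) ⊆ G.pT F P := by
    intro x hx
    rw [mem_insert, mem_singleton] at hx
    rcases hx with rfl | rfl
    · exact hPP'
    · exact hlP
  have heq : G.pT F P = {P', l} := by
    symm
    apply eq_of_subset_of_card_le hsub
    rw [card_pair hlP']
    omega
  refine ⟨l, hl, (mem_Tz28.1 hlz).2, ?_, heq⟩
  have hlF : F ⊆ G.nb l := by
    intro z hz
    obtain ⟨w, hw, hwz, hwP⟩ := key z hz
    rw [heq, mem_insert, mem_singleton] at hwP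
    rcases hwP with rfl | rfl
    · exact absurd hw (tw_not_low11 ⟨P, (stTwHL_5 G).symm _ _ hPP⟩)
    · exact G.sym _ _ (mem_Tz28.1 hwz).1
  unfold d
  rw [inter_eq_right.2 hlF, hF.c3]

/-- a pair of twins and its low neighbour -/
theorem pair5_28 (h3 : G.St11Bas G.Tw) (hB : G.St5B) (hF : G.S5 F)
    (hhub : ∀ z ∈ F, G.Hub z) {P P' : V} (hP : P ∈ G.N F) (hPP : G.Tw P P') :
    ∃ l, ∃ Q : Finset V, Q = {P, P', l} ∧ Q ⊆ G.N F ∧ Q.card = 3 ∧
      (∀ x ∈ Q, G.pT F x ⊆ Q) ∧ 14 ≤ ∑ w ∈ Q, G.gam5 F w := by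
  have hP' := twN28 hF hhub hP hPP
  have hPP2 := (stTwHL_5 G).symm _ _ hPP
  obtain ⟨l, hl, hlN, hlF, hpT⟩ := tw_low28 h3 hB hF hhub hP hPP
  obtain ⟨l', hl', hlN', hlF', hpT'⟩ := tw_low28 h3 hB hF hhub hP' hPP2
  have hlP : l ∈ G.nb P := by
    have h1 : l ∈ G.pT F P := by rw [hpT]; simp
    exact (mem_inter.1 h1).1
  have nlP : l ≠ P := fun h1 => tw_not_low11 ⟨P', hPP⟩ (h1 ▸ hl)
  have nlP' : l ≠ P' := fun h1 => tw_not_low11 ⟨P, hPP2⟩ (h1 ▸ hl)
  have hPP'ne : P ≠ P' := ne_of_nb5 hPP.1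
  have hlP' : l ∈ G.nb P' := Tw_nb5 hPP hlP nlP'
  have e : l' = l := by
    have h1 : l ∈ G.pT F P' := mem_inter.2 ⟨hlP', hlN⟩
    rw [hpT', mem_insert, mem_singleton] at h1
    rcases h1 with h1 | h1
    · exact absurd h1 nlP
    · exact h1.symm
  subst e
  obtain ⟨c1, -, -, -, c5⟩ := hB.low3 F hF l' hlN hl hlF
  have hsub : ({P, P'} : Finset V) ⊆ G.pT F l' := by
    intro x hx
    rw [mem_insert, mem_singleton] at hx
    rcases hx with rfl | rfl
    · exact mem_inter.2 ⟨G.sym _ _ hlP, hP⟩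
    · exact mem_inter.2 ⟨G.sym _ _ hlP', hP'⟩
  have hpl : G.pT F l' = {P, P'} := by
    symm
    apply eq_of_subset_of_card_le hsub
    rw [card_pair hPP'ne]
    exact c1
  have g1 := c5 ⟨P, P', hPP, hpl⟩
  have t1 := hB.tw F hF P hP ⟨P', hPP⟩
  have t2 := hB.tw F hF P' hP' ⟨P, hPP2⟩
  have d1 := tw_d28 h3 hF hhub hP hPP
  have d2 := tw_d28 h3 hF hhub hP' hPP2
  have k1 : (G.pT F P).card = 2 := by rw [hpT, card_pair nlP'.symm]
  have k2 : (G.pT F P').card = 2 := by rw [hpT', card_pair nlP.symm]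
  have g2 : 1 ≤ G.gam5 F P := by
    have := t1.2.2
    rw [d1, k1] at this
    push_cast at this
    linarith
  have g3 : 1 ≤ G.gam5 F P' := by
    have := t2.2.2
    rw [d2, k2] at this
    push_cast at this
    linarith
  refine ⟨l', {P, P', l'}, rfl, ?_, ?_, ?_, ?_⟩
  · intro x hx
    simp only [mem_insert, mem_singleton] at hx
    rcases hx with rfl | rfl | rfl <;> assumption
  · rw [card_insert_of_notMem (by simp [hPP'ne, nlP.symm]), card_pair nlP'.symm]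
  · intro x hx
    simp only [mem_insert, mem_singleton] at hx
    rcases hx with rfl | rfl | rfl
    · rw [hpT]
      intro y hy
      simp only [mem_insert, mem_singleton] at hy ⊢
      tauto
    · rw [hpT']
      intro y hy
      simp only [mem_insert, mem_singleton] at hy ⊢
      tauto
    · rw [hpl]
      intro y hy
      simp only [mem_insert, mem_singleton] at hy ⊢
      tauto
  · rw [sum_insert (by simp [hPP'ne, nlP.symm]), sum_pair nlP'.symm]
    linarith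

/-! ### sets without twins -/

/-- a set of vertices of `N F` without twins that contains its neighbours in `N F` -/
structure Rs28 (G : CG V) (F R : Finset V) : Prop where
  sub : R ⊆ G.N F
  cl : ∀ w ∈ R, G.pT F w ⊆ R
  ntw : ∀ w ∈ R, ¬ G.IsTw w

/-- the covers inside `R` -/
theorem coverR28 (h3 : G.St11Bas G.Tw) (hF : G.S5 F) (hhub : ∀ z ∈ F, G.Hub z)
    (hR : Rs28 G F R) {z y : V} (hz : z ∈ F) (hy : y ∈ G.Tz F z ∩ R) :
    (∃ w ∈ G.Tz F z ∩ R, G.Low w ∧ y ∈ G.nb w) ∨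
    (∃ a ∈ G.Tz F z ∩ R, ∃ b ∈ G.Tz F z ∩ R, G.HL a b y) ∨
    (∃ a ∈ G.Tz F z ∩ R, ∃ b ∈ G.N F \ (G.Tz F z ∩ R), G.LL a b z y) := by
  rw [mem_inter] at hy
  have step : ∀ {u v : V}, u ∈ R → v ∈ G.N F → u ∈ G.nb v → v ∈ R := fun hu hv h =>
    hR.cl _ hu (mem_inter.2 ⟨G.sym _ _ h, hv⟩)
  rcases cover28 (q := G.Tw) hF hhub (cr5_28 h3 hF hhub) hz hy.1 with h | h | h | h
  · obtain ⟨w, hw, h1, h2⟩ := h
    exact Or.inl ⟨w, mem_inter.2 ⟨hw, step hy.2 (mem_Tz28.1 hw).2 h2⟩, h1, h2⟩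
  · exfalso
    obtain ⟨v, hv, w, hw, h1, h2, h4⟩ := h
    exact hR.ntw v (step hy.2 (mem_Tz28.1 hv).2 h2) ⟨w, h1⟩
  · obtain ⟨a, ha, b, hb, h1⟩ := h
    have ha' := step hy.2 (mem_Tz28.1 ha).2 (HL_t76 h1)
    have hb' := step ha' (mem_Tz28.1 hb).2 (G.sym _ _ (HL_b76 h1))
    exact Or.inr (Or.inl ⟨a, mem_inter.2 ⟨ha, ha'⟩, b, mem_inter.2 ⟨hb, hb'⟩, h1⟩)
  · obtain ⟨a, ha, b, hb, h1⟩ := h
    have hb' := step hy.2 (mem_sdiff.1 hb).1 (LL_u76 h1)
    have ha' := step hb' (mem_Tz28.1 ha).2 (LL_ab76 h1)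
    exact Or.inr (Or.inr ⟨a, mem_inter.2 ⟨ha, ha'⟩, b,
      mem_sdiff.2 ⟨(mem_sdiff.1 hb).1, fun h2 => (mem_sdiff.1 hb).2 (mem_inter.1 h2).1⟩, h1⟩)

/-- a vertex of `R` has a neighbour in `N F` -/
theorem posR28 (h3 : G.St11Bas G.Tw) (hF : G.S5 F) (hhub : ∀ z ∈ F, G.Hub z)
    (hR : Rs28 G F R) {y : V} (hy : y ∈ R) : 1 ≤ (G.pT F y).card := by
  have hyN := hR.sub hy
  obtain ⟨hyF, z, hz, hzy⟩ := mem_N76.1 hyN
  have hyz : y ∈ G.Tz F z ∩ R := mem_inter.2 ⟨mem_Tz28.2 ⟨hzy, hyN⟩, hy⟩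
  rw [Nat.succ_le_iff, card_pos]
  rcases coverR28 h3 hF hhub hR hz hyz with h | h | h
  · obtain ⟨w, hw, -, h2⟩ := h
    exact ⟨w, mem_inter.2 ⟨G.sym _ _ h2, hR.sub (mem_inter.1 hw).2⟩⟩
  · obtain ⟨a, ha, b, hb, h1⟩ := h
    exact ⟨a, mem_inter.2 ⟨G.sym _ _ (HL_t76 h1), hR.sub (mem_inter.1 ha).2⟩⟩
  · obtain ⟨a, ha, b, hb, h1⟩ := h
    exact ⟨b, mem_inter.2 ⟨G.sym _ _ (LL_u76 h1), (mem_sdiff.1 hb).1⟩⟩

/-- lows of `R` with three neighbours in `F` -/
def L3_28 (G : CG V) (F R : Finset V) : Finset V := R.filter fun w => G.Low w ∧ G.d w F = 3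

/-- lows of `R` with two neighbours in `F` -/
def L2_28 (G : CG V) (F R : Finset V) : Finset V := R.filter fun w => G.Low w ∧ G.d w F = 2

theorem wt_tT28 {w : V} (hw : G.Low w) :
    G.wt3 G.Tw w * ((G.tT G.Tw F w).card : ℤ) = 2 * ((G.pT F w).card : ℤ) := by
  classical
  have h1 : G.tT G.Tw F w = G.pT F w := by
    unfold tT pT
    rw [filter_eq_self]
    intro x _ hx
    exact tw_not_low11 ⟨x, hx⟩ hw
  rw [wt3_low28 hw, h1]

/-- the counting lemma at `z` -/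
theorem cnt28 (h3 : G.St11Bas G.Tw) (h5 : G.St11Cnt G.Tw) (hF : G.S5 F)
    (hhub : ∀ z ∈ F, G.Hub z) (hR : Rs28 G F R) {z : V} (hz : z ∈ F) :
    ((G.Tz F z ∩ R).card : ℤ) ≤
      ∑ w ∈ (G.Tz F z ∩ R).filter (fun w => G.Low w), ((G.pT F w).card : ℤ) := by
  classical
  have h1 := (h5 F hF (G.Tz F z ∩ R) (fun x hx => hR.sub (mem_inter.1 hx).2)
    (fun v w hvw hv => absurd ⟨w, hvw⟩ (hR.ntw v (mem_inter.1 hv).2)) z (fun y hy => ?_)).1
  · have h2 : ∑ w ∈ G.Tz F z ∩ R, G.wt3 G.Tw w * ((G.tT G.Tw F w).card : ℤ) =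
        2 * ∑ w ∈ (G.Tz F z ∩ R).filter (fun w => G.Low w), ((G.pT F w).card : ℤ) := by
      rw [sum_filter, mul_sum]
      refine sum_congr rfl fun w hw => ?_
      by_cases hl : G.Low w
      · rw [if_pos hl, wt_tT28 hl]
      · rw [if_neg hl, wt3_hub28 (q := G.Tw) ⟨hl, hR.ntw w (mem_inter.1 hw).2⟩]
        ring
    rw [h2] at h1
    linarith
  · rcases coverR28 h3 hF hhub hR hz hy with h | h | h
    · exact Or.inl h
    · exact Or.inr (Or.inr (Or.inl h))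
    · exact Or.inr (Or.inr (Or.inr h))

/-- at most one vertex of `R` is not adjacent to `z` -/
theorem cardS28 (h3 : G.St11Bas G.Tw) (hF : G.S5 F) (hhub : ∀ z ∈ F, G.Hub z)
    (hR : Rs28 G F R) {z : V} (hz : z ∈ F) : (R.card : ℤ) - 1 ≤ ((G.Tz F z ∩ R).card : ℤ) := by
  have h1 : (R \ (G.Tz F z ∩ R)).card ≤ 1 := by
    rw [card_le_one]
    intro u hu v hv
    rw [mem_sdiff, mem_inter, not_and] at hu hv
    have e : ∀ {x : V}, x ∈ R → (x ∈ G.Tz F z → x ∉ R) → x ∉ G.nb z := fun hx h2 h4 =>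
      h2 (mem_Tz28.2 ⟨h4, hR.sub hx⟩) hx
    exact one_miss28 h3 hF hhub hz (hR.sub hu.1) (hR.sub hv.1) (e hu.1 hu.2) (e hv.1 hv.2)
  have h2 := card_sdiff_add_card_inter R (G.Tz F z)
  have h4 : R \ (G.Tz F z ∩ R) = R \ G.Tz F z := by
    ext x
    simp only [mem_sdiff, mem_inter, not_and]
    tauto
  rw [h4] at h1
  rw [inter_comm R] at h2
  have h6 : R.card ≤ (G.Tz F z ∩ R).card + 1 := by omega
  have h7 : (R.card : ℤ) ≤ ((G.Tz F z ∩ R).card : ℤ) + 1 := by exact_mod_cast h6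
  linarith

/-- the numbers -/
theorem num28 (h3 : G.St11Bas G.Tw) (h5 : G.St11Cnt G.Tw) (hB : G.St5B) (hF : G.S5 F)
    (hhub : ∀ z ∈ F, G.Hub z) (hR : Rs28 G F R) :
    ∃ T3 T2 s : ℤ, 2 * (3 * ((L3_28 G F R).card : ℤ) + T3 - s + ((L2_28 G F R).card : ℤ) + T2) ≤
        ∑ w ∈ R, G.gam5 F w ∧
      (R.card : ℤ) - 1 ≤ T3 + T2 ∧
      ((L2_28 G F R).card : ℤ) * ((R.card : ℤ) - 1) ≤ ((L2_28 G F R).card : ℤ) * (T3 + T2) - T2 ∧
      ((L2_28 G F R).card : ℤ) ≤ T2 ∧ T2 ≤ 3 * ((L2_28 G F R).card : ℤ) ∧ 0 ≤ s ∧ s ≤ T3 ∧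
      T3 ≤ 2 * ((L3_28 G F R).card : ℤ) - s := by
  classical
  set A := L3_28 G F R with hA
  set B := L2_28 G F R with hBd
  have memA : ∀ {w : V}, w ∈ A ↔ w ∈ R ∧ G.Low w ∧ G.d w F = 3 := by
    intro w
    rw [hA, L3_28, mem_filter]
  have memB : ∀ {w : V}, w ∈ B ↔ w ∈ R ∧ G.Low w ∧ G.d w F = 2 := by
    intro w
    rw [hBd, L2_28, mem_filter]
  have hdis : Disjoint A B := by
    rw [disjoint_left]
    intro w h1 h2
    have := (memA.1 h1).2.2
    have := (memB.1 h2).2.2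
    omega
  have hlow : ∀ w ∈ R, G.Low w → w ∈ A ∪ B := by
    intro w hw hl
    rw [mem_union, memA, memB]
    rcases d23_28 h3 hF hhub w (hR.sub hw) with h | h
    · exact Or.inr ⟨hw, hl, h⟩
    · exact Or.inl ⟨hw, hl, h⟩
  have hnp : ∀ w ∈ R, ¬ G.PairSet (G.pT F w) := by
    rintro w hw ⟨v, v', h1, h2⟩
    have h4 : v ∈ G.pT F w := by rw [h2]; simp
    exact hR.ntw v (hR.cl w hw h4) ⟨v', h1⟩
  refine ⟨∑ w ∈ A, ((G.pT F w).card : ℤ), ∑ w ∈ B, ((G.pT F w).card : ℤ),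
    ∑ w ∈ A, (if (G.pT F w).card = 1 then (1 : ℤ) else 0), ?_, ?_, ?_, ?_, ?_, ?_, ?_, ?_⟩
  · -- the sum
    have h1 : ∑ w ∈ R, G.gam5 F w = ∑ w ∈ A ∪ B, G.gam5 F w := by
      symm
      apply sum_subset
      · intro w hw
        rcases mem_union.1 hw with h | h
        · exact (memA.1 h).1
        · exact (memB.1 h).1
      · intro w hw h2
        exact hB.hub F hF w (hR.sub hw) ⟨fun hl => h2 (hlow w hw hl), hR.ntw w hw⟩
    have h2 : ∑ w ∈ A, (6 + 2 * ((G.pT F w).card : ℤ) -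
        2 * (if (G.pT F w).card = 1 then (1 : ℤ) else 0)) ≤ ∑ w ∈ A, G.gam5 F w := by
      refine sum_le_sum fun w hw => ?_
      obtain ⟨w1, w2, w3⟩ := memA.1 hw
      obtain ⟨-, c2, c3, -⟩ := hB.low3 F hF w (hR.sub w1) w2 w3
      by_cases h4 : (G.pT F w).card = 1
      · rw [if_pos h4, h4]
        push_cast
        linarith
      · rw [if_neg h4]
        have := c3 h4
        linarith
    have h4 : ∑ w ∈ B, (2 + 2 * ((G.pT F w).card : ℤ)) ≤ ∑ w ∈ B, G.gam5 F w := by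
      refine sum_le_sum fun w hw => ?_
      obtain ⟨w1, w2, w3⟩ := memB.1 hw
      exact (hB.low2 F hF w (hR.sub w1) w2 w3).2.1 (hnp w w1)
    rw [h1, sum_union hdis]
    rw [sum_sub_distrib, sum_add_distrib, sum_const, nsmul_eq_mul, ← mul_sum, ← mul_sum] at h2
    rw [sum_add_distrib, sum_const, nsmul_eq_mul, ← mul_sum] at h4
    linarith
  · -- (i)
    have hne : F.Nonempty := by
      rw [← card_pos, hF.c3]
      norm_num
    obtain ⟨z, hz⟩ := hne
    refine (cardS28 h3 hF hhub hR hz).trans ((cnt28 h3 h5 hF hhub hR hz).trans ?_)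
    rw [← sum_union hdis]
    refine sum_le_sum_of_subset_of_nonneg ?_ fun w _ _ => Int.natCast_nonneg _
    intro w hw
    rw [mem_filter, mem_inter] at hw
    exact hlow w hw.1.2 hw.2
  · -- (ii)
    have key : ∀ b ∈ B, (R.card : ℤ) - 1 ≤ ∑ w ∈ A, ((G.pT F w).card : ℤ) +
        ∑ w ∈ B, ((G.pT F w).card : ℤ) - ((G.pT F b).card : ℤ) := by
      intro b hb
      obtain ⟨b1, b2, b3⟩ := memB.1 hb
      obtain ⟨z, hz, hzb⟩ := miss28 hF b3
      refine (cardS28 h3 hF hhub hR hz).trans ((cnt28 h3 h5 hF hhub hR hz).trans ?_)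
      rw [← sum_union hdis]
      have h1 : ∑ w ∈ (A ∪ B).erase b, ((G.pT F w).card : ℤ) =
          ∑ w ∈ A ∪ B, ((G.pT F w).card : ℤ) - ((G.pT F b).card : ℤ) := by
        have h2 := add_sum_erase (A ∪ B) (fun w => ((G.pT F w).card : ℤ))
          (mem_union_right _ hb)
        linarith
      rw [← h1]
      refine sum_le_sum_of_subset_of_nonneg ?_ fun w _ _ => Int.natCast_nonneg _
      intro w hw
      rw [mem_filter, mem_inter] at hw
      refine mem_erase.2 ⟨?_, hlow w hw.1.2 hw.2⟩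
      rintro rfl
      exact hzb (G.sym _ _ (mem_Tz28.1 hw.1.1).1)
    have h1 := sum_le_sum key
    rw [sum_const, nsmul_eq_mul, sum_sub_distrib, sum_const, nsmul_eq_mul] at h1
    exact h1
  · -- `k ≤ T2`
    have h1 : ∑ _w ∈ B, (1 : ℤ) ≤ ∑ w ∈ B, ((G.pT F w).card : ℤ) := by
      refine sum_le_sum fun w hw => ?_
      exact_mod_cast posR28 h3 hF hhub hR (memB.1 hw).1
    rw [sum_const, nsmul_eq_mul, mul_one] at h1
    exact h1
  · have h1 : ∑ w ∈ B, ((G.pT F w).card : ℤ) ≤ ∑ _w ∈ B, (3 : ℤ) := by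
      refine sum_le_sum fun w hw => ?_
      obtain ⟨w1, w2, w3⟩ := memB.1 hw
      exact_mod_cast (hB.low2 F hF w (hR.sub w1) w2 w3).1
    rw [sum_const, nsmul_eq_mul] at h1
    linarith
  · refine sum_nonneg fun w _ => ?_
    split_ifs <;> norm_num
  · refine sum_le_sum fun w _ => ?_
    split_ifs with h
    · rw [h]; norm_num
    · exact Int.natCast_nonneg _
  · have h1 : ∑ w ∈ A, (((G.pT F w).card : ℤ) + (if (G.pT F w).card = 1 then (1 : ℤ) else 0)) ≤
        ∑ _w ∈ A, (2 : ℤ) := by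
      refine sum_le_sum fun w hw => ?_
      obtain ⟨w1, w2, w3⟩ := memA.1 hw
      have h2 := (hB.low3 F hF w (hR.sub w1) w2 w3).1
      split_ifs with h
      · rw [h]; norm_num
      · have : ((G.pT F w).card : ℤ) ≤ 2 := by exact_mod_cast h2
        linarith
    rw [sum_add_distrib, sum_const, nsmul_eq_mul] at h1
    linarith

/-- the vertices of `N F` with two neighbours in `F` -/
theorem few28 (h3 : G.St11Bas G.Tw) (hF : G.S5 F) (hhub : ∀ z ∈ F, G.Hub z) :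
    ((G.N F).filter fun w => G.d w F = 2).card ≤ 3 := by
  classical
  -- choose the missed vertex
  have hex : ∀ w, ∃ z, w ∈ (G.N F).filter (fun w => G.d w F = 2) → z ∈ F ∧ z ∉ G.nb w := by
    intro w
    by_cases h : w ∈ (G.N F).filter (fun w => G.d w F = 2)
    · obtain ⟨z, hz, hzw⟩ := miss28 hF (mem_filter.1 h).2
      exact ⟨z, fun _ => ⟨hz, hzw⟩⟩
    · exact ⟨w, fun h1 => absurd h1 h⟩
  choose f hf using hex
  rw [← hF.c3]
  refine card_le_card_of_injOn f (fun w hw => (hf w hw).1) ?_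
  intro u hu v hv huv
  have hu' : u ∈ (G.N F).filter (fun w => G.d w F = 2) := hu
  have hv' : v ∈ (G.N F).filter (fun w => G.d w F = 2) := hv
  obtain ⟨z1, z2⟩ := hf u hu'
  obtain ⟨z3, z4⟩ := hf v hv'
  refine one_miss28 h3 hF hhub z1 (mem_filter.1 hu').1 (mem_filter.1 hv').1
    (fun h => z2 (G.sym _ _ h)) (fun h => ?_)
  rw [huv] at h
  exact z4 (G.sym _ _ h)

/-- G5 -/
theorem st5HHH_28 (G : CG V) (h3 : G.St11Bas G.Tw) (h5 : G.St11Cnt G.Tw) (hB : G.St5B) :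
    G.St5HHH := by
  classical
  intro F hF hhub
  have h6 : (G.N F).card = 6 := hF.big.1.2.1
  have hfew := few28 h3 hF hhub
  have hk3 : ∀ R, R ⊆ G.N F → (L2_28 G F R).card ≤ 3 := by
    intro R hR
    refine (card_le_card ?_).trans hfew
    intro w hw
    rw [L2_28, mem_filter] at hw
    exact mem_filter.2 ⟨hR hw.1, hw.2.2⟩
  by_cases hP : ∃ P ∈ G.N F, G.IsTw P
  · obtain ⟨P, hP, P', hPP⟩ := hP
    obtain ⟨l, Q, hQ, hQN, hQ3, hQc, hQs⟩ := pair5_28 h3 hB hF hhub hP hPP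
    have hRc : (G.N F \ Q).card = 3 := by
      rw [card_sdiff_of_subset hQN, h6, hQ3]
    have hsum : ∑ w ∈ G.N F, G.gam5 F w = ∑ w ∈ G.N F \ Q, G.gam5 F w + ∑ w ∈ Q, G.gam5 F w :=
      (sum_sdiff hQN).symm
    -- `N F \ Q` contains its neighbours
    have hcl : ∀ w ∈ G.N F \ Q, G.pT F w ⊆ G.N F \ Q := by
      intro w hw x hx
      rw [mem_sdiff] at hw
      rw [pT, mem_inter] at hx
      refine mem_sdiff.2 ⟨hx.2, fun h1 => hw.2 ?_⟩
      exact hQc x h1 (mem_inter.2 ⟨G.sym _ _ hx.1, hw.1⟩)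
    by_cases hP2 : ∃ P2 ∈ G.N F \ Q, G.IsTw P2
    · obtain ⟨P2, hP2, P2', hPP2⟩ := hP2
      have hP2N := (mem_sdiff.1 hP2).1
      obtain ⟨l2, Q2, hQ2, hQN2, hQ32, hQc2, hQs2⟩ := pair5_28 h3 hB hF hhub hP2N hPP2
      have hsub : Q2 ⊆ G.N F \ Q := by
        -- every vertex of `Q2` is `P2` or adjacent to `P2`
        obtain ⟨l3, hl3, hl3N, -, hpT⟩ := tw_low28 h3 hB hF hhub hP2N hPP2
        have hP2'N := twN28 hF hhub hP2N hPP2
        have m1 : P2 ∈ Q2 := by rw [hQ2]; simp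
        have m2 := hQc2 P2 m1
        rw [hpT] at m2
        have nl3 : P2' ≠ l3 := fun h1 =>
          tw_not_low11 ⟨P2, (stTwHL_5 G).symm _ _ hPP2⟩ (h1 ▸ hl3)
        have nlP : P2 ≠ l3 := fun h1 => tw_not_low11 ⟨P2', hPP2⟩ (h1 ▸ hl3)
        have e : Q2 = {P2, P2', l3} := by
          symm
          apply eq_of_subset_of_card_le
          · intro x hx
            rw [mem_insert] at hx
            rcases hx with rfl | hx
            · exact m1
            · exact m2 hx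
          · rw [hQ32, card_insert_of_notMem (by simp [ne_of_nb5 hPP2.1, nlP]), card_pair nl3]
        have m3 := hcl P2 hP2
        rw [hpT] at m3
        rw [e]
        intro x hx
        rw [mem_insert] at hx
        rcases hx with rfl | hx
        · exact hP2
        · exact m3 hx
      have e2 : G.N F \ Q = Q2 := by
        symm
        apply eq_of_subset_of_card_le hsub
        rw [hRc, hQ32]
      rw [hsum, e2]
      linarith
    · have hR : Rs28 G F (G.N F \ Q) := ⟨sdiff_subset, hcl, fun w hw h1 => hP2 ⟨w, hw, h1⟩⟩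
      obtain ⟨T3, T2, s, e1, e2, e3, e4, e5, e6, e7, e8⟩ := num28 h3 h5 hB hF hhub hR
      have hk := hk3 _ hR.sub
      rw [hRc] at e2 e3
      rw [hsum]
      obtain ⟨k, hkd⟩ : ∃ k, k = (L2_28 G F (G.N F \ Q)).card := ⟨_, rfl⟩
      obtain ⟨a, had⟩ : ∃ a, a = (L3_28 G F (G.N F \ Q)).card := ⟨_, rfl⟩
      rw [← hkd] at e1 e3 e4 e5 hk
      rw [← had] at e1 e8
      interval_cases k <;> push_cast at * <;> omega
  · have hR : Rs28 G F (G.N F) := ⟨subset_rfl, fun w _ => inter_subset_right,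
      fun w hw h1 => hP ⟨w, hw, h1⟩⟩
    obtain ⟨T3, T2, s, e1, e2, e3, e4, e5, e6, e7, e8⟩ := num28 h3 h5 hB hF hhub hR
    have hk := hk3 _ hR.sub
    rw [h6] at e2 e3
    -- the exceptional case
    have hexc : ¬ ((L3_28 G F (G.N F)).card = 0 ∧ (L2_28 G F (G.N F)).card = 3) := by
      rintro ⟨x1, x2⟩
      have hlo : ∀ w ∈ G.N F, G.Low w → G.d w F = 2 := by
        intro w hw hl
        rcases d23_28 h3 hF hhub w hw with h | h
        · exact h
        · exfalso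
          rw [card_eq_zero] at x1
          have h1 : w ∈ L3_28 G F (G.N F) := mem_filter.2 ⟨hw, hl, h⟩
          rw [x1] at h1
          exact absurd h1 (notMem_empty w)
      have hhi : ∀ w ∈ G.N F, ¬ G.Low w → G.d w F = 3 := by
        intro w hw hl
        rcases d23_28 h3 hF hhub w hw with h | h
        · exfalso
          have h1 : insert w (L2_28 G F (G.N F)) ⊆ (G.N F).filter fun w => G.d w F = 2 := by
            intro x hx
            rw [mem_insert] at hx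
            rcases hx with rfl | hx
            · exact mem_filter.2 ⟨hw, h⟩
            · rw [L2_28, mem_filter] at hx
              exact mem_filter.2 ⟨hx.1, hx.2.2⟩
          have h2 := card_le_card h1
          rw [card_insert_of_notMem (fun h4 => hl (mem_filter.1 h4).2.1), x2] at h2
          omega
        · exact h
      have h1 := except28 (q := G.Tw) h3 hF hhub (cr5_28 h3 hF hhub) hlo hhi
        (fun w hw h1 => hR.ntw w hw h1)
      have h2 : G.l (G.N F) = (L2_28 G F (G.N F)).card := by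
        unfold l L2_28
        congr 1
        ext w
        simp only [mem_filter]
        constructor
        · rintro ⟨h4, h7⟩
          exact ⟨h4, h7, hlo w h4 h7⟩
        · rintro ⟨h4, h7, -⟩
          exact ⟨h4, h7⟩
      omega
    obtain ⟨k, hkd⟩ : ∃ k, k = (L2_28 G F (G.N F)).card := ⟨_, rfl⟩
    obtain ⟨a, had⟩ : ∃ a, a = (L3_28 G F (G.N F)).card := ⟨_, rfl⟩
    rw [← hkd] at e1 e3 e4 e5 hk hexc
    rw [← had] at e1 e8 hexc
    have hk4 : k = 0 ∨ k = 1 ∨ k = 2 ∨ k = 3 := by omega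
    rcases hk4 with h | h | h | h
    · rw [h] at e1 e3 e4 e5
      push_cast at e1 e3 e4 e5 e2
      omega
    · rw [h] at e1 e3 e4 e5
      push_cast at e1 e3 e4 e5 e2
      omega
    · rw [h] at e1 e3 e4 e5
      push_cast at e1 e3 e4 e5 e2
      omega
    · have ha : 1 ≤ a := by
        by_contra h7
        exact hexc ⟨by omega, h⟩
      rw [h] at e1 e3 e4 e5
      push_cast at e1 e3 e4 e5 e2
      omega

end CG

end Pool.Agent.Lib.MP_e95c01_co.N
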