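import Pool.Agent.Lib.MP_e95c01_co.X.G6b_89

/-!
# G6: fragments with three vertices, a hub and a pair of twins
-/

namespace Pool.Agent.Lib.MP_e95c01_co.N

open Finset

variable {V : Type} [Fintype V] [DecidableEq V]

namespace CG

variable {G : CG V} {F : Finset V} {h v w t : V} {Y : Finset V}

/-- the situation with twins `p`, `p'` in `N F`, `d` their low neighbour -/
structure D89 (G : CG V) (F : Finset V) (h v w t : V) (Y : Finset V) (p p' d y1 y2 : V) :
    Prop where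
  hC : G.C89 F h v w t Y
  tw : G.Tw p p'
  pY : p ∈ Y
  pY' : p' ∈ Y
  dY : d ∈ Y
  Y1 : y1 ∈ Y
  Y2 : y2 ∈ Y
  hp : h ∈ G.nb p
  hp' : h ∈ G.nb p'
  dl : G.Low d
  pp : G.pT F p = {p', d}
  pp' : G.pT F p' = {p, d}
  ym : ∀ y ∈ Y, y = p ∨ y = p' ∨ y = d ∨ y = y1 ∨ y = y2
  n1 : p ≠ p'
  n2 : p ≠ d
  n3 : p ≠ y1
  n4 : p ≠ y2
  n5 : p' ≠ d
  n6 : p' ≠ y1
  n7 : p' ≠ y2
  n8 : d ≠ y1
  n9 : d ≠ y2
  n10 : y1 ≠ y2

theorem D89.swap {p p' d y1 y2 : V} (hD : G.D89 F h v w t Y p p' d y1 y2) :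
    G.D89 F h v w t Y p p' d y2 y1 where
  hC := hD.hC
  tw := hD.tw
  pY := hD.pY
  pY' := hD.pY'
  dY := hD.dY
  Y1 := hD.Y2
  Y2 := hD.Y1
  hp := hD.hp
  hp' := hD.hp'
  dl := hD.dl
  pp := hD.pp
  pp' := hD.pp'
  ym y hy := by
    rcases hD.ym y hy with e | e | e | e | e
    · exact Or.inl e
    · exact Or.inr (Or.inl e)
    · exact Or.inr (Or.inr (Or.inl e))
    · exact Or.inr (Or.inr (Or.inr (Or.inr e)))
    · exact Or.inr (Or.inr (Or.inr (Or.inl e)))
  n1 := hD.n1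
  n2 := hD.n2
  n3 := hD.n4
  n4 := hD.n3
  n5 := hD.n5
  n6 := hD.n7
  n7 := hD.n6
  n8 := hD.n9
  n9 := hD.n8
  n10 := hD.n10.symm

theorem exD89 (hC : G.C89 F h v w t Y) (hB : G.St5B) {p : V} (hpY : p ∈ Y) (hpt : G.IsTw p) :
    ∃ p' d y1 y2, G.D89 F h v w t Y p p' d y1 y2 := by
  classical
  have TH := stTwHL_5 G
  obtain ⟨p', hpp⟩ := hpt
  have hpY' := hC.part _ _ hpp hpY
  have hpp' := TH.symm _ _ hpp
  have hne : p ≠ p' := ne_of_nb5 hpp.1
  have hhp : h ≠ p := by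
    rintro rfl
    exact hC.hT (hC.sub hpY)
  have hhp' : h ≠ p' := by
    rintro rfl
    exact hC.hT (hC.sub hpY')
  have hp : h ∈ G.nb p := by
    rcases hC.miss p (hC.sub hpY) p' (hC.sub hpY') hne with h1 | h1
    · exact h1
    · exact Tw_nb5 hpp' h1 hhp
  have hp' : h ∈ G.nb p' := Tw_nb5 hpp hp hhp'
  have hc : (G.pT F p).card ≤ 2 := by
    have h1 := (hB.tw F hC.hF p (hC.sub hpY) ⟨_, hpp⟩).2.1
    have h2 := hC.d3 p hpY hp
    omega
  have hc' : (G.pT F p').card ≤ 2 := by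
    have h1 := (hB.tw F hC.hF p' (hC.sub hpY') ⟨_, hpp'⟩).2.1
    have h2 := hC.d3 p' hpY' hp'
    omega
  have m1 : p' ∈ G.pT F p := mem_pT89.2 ⟨hpp.1, hC.sub hpY'⟩
  have m1' : p ∈ G.pT F p' := mem_pT89.2 ⟨hpp'.1, hC.sub hpY⟩
  have hcov : ∃ d ∈ Y, G.Low d ∧ p ∈ G.nb d := by
    rcases hC.c1 p hpY with h1 | h1 | h1
    · exact h1
    · exfalso
      obtain ⟨x, hx, x', hx', h2, h3, h4⟩ := h1
      have m2 : x ∈ G.pT F p := mem_pT89.2 ⟨G.sym _ _ h3, hC.sub hx⟩
      have m3 : x' ∈ G.pT F p := mem_pT89.2 ⟨G.sym _ _ h4, hC.sub hx'⟩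
      have e1 : x ≠ x' := ne_of_nb5 h2.1
      have e2 : p' ≠ x := by
        rintro rfl
        have h5 := TH.uniq hC.n9 _ _ _ hpp' h2
        rw [← h5] at h4
        exact G.irr _ h4
      have e3 : p' ≠ x' := by
        rintro rfl
        have h5 := TH.uniq hC.n9 _ _ _ hpp' (TH.symm _ _ h2)
        rw [← h5] at h3
        exact G.irr _ h3
      have h5 : ({p', x, x'} : Finset V) ⊆ G.pT F p := by
        intro y hy
        simp only [mem_insert, mem_singleton] at hy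
        rcases hy with e | e | e <;> rw [e] <;> assumption
      have h6 := card_le_card h5
      rw [card_insert_of_notMem (by simp [e2, e3]), card_pair e1] at h6
      omega
    · obtain ⟨a, ha, b, hb, h2⟩ := h1
      exact absurd (hC.hF.sat _ _ _ h2) (tnl89 ⟨_, hpp⟩)
  obtain ⟨d, hdY, hdl, hdp⟩ := hcov
  have hd1 : p ≠ d := fun e => tnl89 ⟨_, hpp⟩ (by rw [e]; exact hdl)
  have hd2 : p' ≠ d := fun e => tnl89 ⟨_, hpp'⟩ (by rw [e]; exact hdl)
  have m2 : d ∈ G.pT F p := mem_pT89.2 ⟨G.sym _ _ hdp, hC.sub hdY⟩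
  have m2' : d ∈ G.pT F p' :=
    mem_pT89.2 ⟨Tw_nb5 hpp (G.sym _ _ hdp) hd2.symm, hC.sub hdY⟩
  have pr : ∀ {a b x : V}, a ∈ G.pT F x → b ∈ G.pT F x → a ≠ b → (G.pT F x).card ≤ 2 →
      G.pT F x = {a, b} := by
    intro a b x h1 h2 h3 h4
    symm
    apply eq_of_subset_of_card_le
    · intro y hy
      simp only [mem_insert, mem_singleton] at hy
      rcases hy with e | e <;> rw [e] <;> assumption
    · rw [card_pair h3]; exact h4
  have hcard : (((Y.erase p).erase p').erase d).card = 2 := by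
    rw [card_erase_of_mem (mem_erase.2 ⟨hd2.symm, mem_erase.2 ⟨hd1.symm, hdY⟩⟩),
      card_erase_of_mem (mem_erase.2 ⟨hne.symm, hpY'⟩), card_erase_of_mem hpY, hC.c5]
  obtain ⟨y1, y2, h12, hY⟩ := card_eq_two.1 hcard
  have k1 : y1 ∈ ((Y.erase p).erase p').erase d := by rw [hY]; exact mem_insert_self _ _
  have k2 : y2 ∈ ((Y.erase p).erase p').erase d := by
    rw [hY]; exact mem_insert_of_mem (mem_singleton_self _)
  simp only [mem_erase] at k1 k2
  refine ⟨p', d, y1, y2, hC, hpp, hpY, hpY', hdY, k1.2.2.2, k2.2.2.2, hp, hp', hdl,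
    pr m1 m2 hd2 hc, pr m1' m2' hd1 hc', ?_, hne, hd1, k1.2.2.1.symm, k2.2.2.1.symm, hd2,
    k1.2.1.symm, k2.2.1.symm, k1.1.symm, k2.1.symm, h12⟩
  intro y hy
  by_cases e1 : y = p
  · exact Or.inl e1
  by_cases e2 : y = p'
  · exact Or.inr (Or.inl e2)
  by_cases e3 : y = d
  · exact Or.inr (Or.inr (Or.inl e3))
  have h1 : y ∈ ((Y.erase p).erase p').erase d :=
    mem_erase.2 ⟨e3, mem_erase.2 ⟨e2, mem_erase.2 ⟨e1, hy⟩⟩⟩
  rw [hY, mem_insert, mem_singleton] at h1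
  rcases h1 with e | e
  · exact Or.inr (Or.inr (Or.inr (Or.inl e)))
  · exact Or.inr (Or.inr (Or.inr (Or.inr e)))

section

variable {p p' d y1 y2 : V} (hD : G.D89 F h v w t Y p p' d y1 y2)

include hD

theorem D89.pnl : ¬ G.Low p := tnl89 ⟨_, hD.tw⟩

theorem D89.pnl' : ¬ G.Low p' := tnl89 ⟨_, (stTwHL_5 G).symm _ _ hD.tw⟩

/-- the neighbours of `p` in `N F` -/
theorem D89.nbp {x : V} (hx : x ∈ G.N F) (h1 : x ∈ G.nb p) : x = p' ∨ x = d := by
  have h2 : x ∈ G.pT F p := mem_pT89.2 ⟨h1, hx⟩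
  rw [hD.pp] at h2
  simpa using h2

theorem D89.nbp' {x : V} (hx : x ∈ G.N F) (h1 : x ∈ G.nb p') : x = p ∨ x = d := by
  have h2 : x ∈ G.pT F p' := mem_pT89.2 ⟨h1, hx⟩
  rw [hD.pp'] at h2
  simpa using h2

theorem D89.dp : p ∈ G.nb d := by
  have h1 : d ∈ G.pT F p := by rw [hD.pp]; simp
  exact G.sym _ _ (mem_pT89.1 h1).1

theorem D89.dp' : p' ∈ G.nb d := by
  have h1 : d ∈ G.pT F p' := by rw [hD.pp']; simp
  exact G.sym _ _ (mem_pT89.1 h1).1

/-- the values of the twins -/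
theorem D89.gp (hB : G.St5B) : 1 ≤ G.gam5 F p := by
  have h1 := (hB.tw F hD.hC.hF p (hD.hC.sub hD.pY) ⟨_, hD.tw⟩).2.2
  rw [hD.hC.d3 p hD.pY hD.hp, hD.pp, card_pair hD.n5] at h1
  push_cast at h1
  linarith

theorem D89.gp' (hB : G.St5B) : 1 ≤ G.gam5 F p' := by
  have h1 := (hB.tw F hD.hC.hF p' (hD.hC.sub hD.pY') ⟨_, (stTwHL_5 G).symm _ _ hD.tw⟩).2.2
  rw [hD.hC.d3 p' hD.pY' hD.hp', hD.pp', card_pair hD.n2] at h1
  push_cast at h1
  linarith

/-- the sum -/
theorem D89.sum : ∑ y ∈ G.N F, G.gam5 F y = G.gam5 F t + (G.gam5 F p + (G.gam5 F p' +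
    (G.gam5 F d + (G.gam5 F y1 + G.gam5 F y2)))) := by
  classical
  have hC := hD.hC
  have e1 : G.N F = insert t Y := by
    ext x
    rw [mem_insert]
    refine ⟨hC.all x, ?_⟩
    rintro (e | hx)
    · rw [e]; exact hC.tT
    · exact hC.sub hx
  have e2 : Y = {p, p', d, y1, y2} := by
    ext x
    simp only [mem_insert, mem_singleton]
    refine ⟨hD.ym x, ?_⟩
    rintro (e | e | e | e | e) <;> rw [e]
    exacts [hD.pY, hD.pY', hD.dY, hD.Y1, hD.Y2]
  rw [e1, sum_insert hC.tY, e2, sum_insert (by simp [hD.n1, hD.n2, hD.n3, hD.n4]),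
    sum_insert (by simp [hD.n5, hD.n6, hD.n7]), sum_insert (by simp [hD.n8, hD.n9]),
    sum_pair hD.n10]

/-- covers of the edge `v y1` -/
theorem D89.cv1 (hno : ¬ G.HL y2 d y1) : (G.Low y2 ∧ y1 ∈ G.nb y2) ∨ y1 ∈ G.nb d := by
  have hC := hD.hC
  have y1T := hC.sub hD.Y1
  have a1 : y1 ∉ G.nb p := by
    intro h1
    rcases hD.nbp y1T h1 with e | e
    · exact hD.n6 e.symm
    · exact hD.n8 e.symm
  have a2 : y1 ∉ G.nb p' := by
    intro h1
    rcases hD.nbp' y1T h1 with e | e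
    · exact hD.n3 e.symm
    · exact hD.n8 e.symm
  rcases hC.c1 y1 hD.Y1 with h1 | h1 | h1
  · obtain ⟨x, hx, h2, h3⟩ := h1
    rcases hD.ym x hx with e | e | e | e | e <;> rw [e] at h2 h3
    · exact absurd h2 hD.pnl
    · exact absurd h2 hD.pnl'
    · exact Or.inr h3
    · exact absurd h3 (G.irr _)
    · exact Or.inl ⟨h2, h3⟩
  · obtain ⟨x, hx, x', hx', h2, h3, h4⟩ := h1
    have key : ∀ x ∈ Y, G.IsTw x → y1 ∈ G.nb x → x = y2 := by
      intro x hx h2 h3
      rcases hD.ym x hx with e | e | e | e | e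
      · rw [e] at h3; exact absurd h3 a1
      · rw [e] at h3; exact absurd h3 a2
      · rw [e] at h2; exact absurd hD.dl (tnl89 h2)
      · rw [e] at h3; exact absurd h3 (G.irr _)
      · exact e
    have e1 := key x hx ⟨_, h2⟩ h3
    have e2 := key x' hx' ⟨_, (stTwHL_5 G).symm _ _ h2⟩ h4
    rw [e1, e2] at h2
    exact absurd h2.1 (G.irr _)
  · exfalso
    obtain ⟨a, ha, b, hb, h2⟩ := h1
    have h3 := HL_t76 h2
    have hanl := HL_not_low76 h2
    rcases hD.ym a ha with e | e | e | e | e <;> rw [e] at h2 h3 hanl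
    · exact absurd h3 a1
    · exact absurd h3 a2
    · exact absurd hD.dl hanl
    · exact absurd h3 (G.irr _)
    · have hbl : G.Low b := h2.2.1
      rcases hD.ym b hb with e' | e' | e' | e' | e' <;> rw [e'] at h2 hbl
      · exact absurd hbl hD.pnl
      · exact absurd hbl hD.pnl'
      · exact hno h2
      · exact absurd rfl (HL_bt76 h2).2
      · exact absurd (HL_b76 h2) (G.irr _)

/-- case (ii-a): `d` is adjacent to `h` -/
theorem D89.caseA (hB : G.St5B) (hd : h ∈ G.nb d) : 24 ≤ ∑ y ∈ G.N F, G.gam5 F y := by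
  classical
  have hC := hD.hC
  obtain ⟨c1, -, -, -, c2⟩ := hB.low3 F hC.hF d (hC.sub hD.dY) hD.dl (hC.d3 d hD.dY hd)
  have pd : G.pT F d = {p, p'} := by
    symm
    apply eq_of_subset_of_card_le
    · intro y hy
      simp only [mem_insert, mem_singleton] at hy
      rcases hy with e | e <;> rw [e, mem_pT89]
      · exact ⟨hD.dp, hC.sub hD.pY⟩
      · exact ⟨hD.dp', hC.sub hD.pY'⟩
    · rw [card_pair hD.n1]; exact c1
  have gd := c2 ⟨p, p', hD.tw, pd⟩
  have nd : ∀ {x : V}, x ∈ G.N F → x ∈ G.nb d → x = p ∨ x = p' := by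
    intro x hx h1
    have h2 : x ∈ G.pT F d := mem_pT89.2 ⟨h1, hx⟩
    rw [pd] at h2
    simpa using h2
  have e1 : y1 ∉ G.nb d := by
    intro h1
    rcases nd (hC.sub hD.Y1) h1 with e | e
    · exact hD.n3 e.symm
    · exact hD.n6 e.symm
  have e2 : y2 ∉ G.nb d := by
    intro h1
    rcases nd (hC.sub hD.Y2) h1 with e | e
    · exact hD.n4 e.symm
    · exact hD.n7 e.symm
  have f2 := (hD.cv1 (fun h1 => e2 (G.sym _ _ (HL_b76 h1)))).resolve_right e1
  have f1 := (hD.swap.cv1 (fun h1 => e1 (G.sym _ _ (HL_b76 h1)))).resolve_right e2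
  -- values of `y1`, `y2`
  have val : ∀ y y', y ∈ Y → y' ∈ Y → G.Low y → y' ∈ G.nb y → 4 ≤ G.gam5 F y ∧
      (h ∈ G.nb y → 6 ≤ G.gam5 F y) := by
    intro y y' hy hy' hl hn
    by_cases hh : h ∈ G.nb y
    · have h1 := (hC.v3 hB hy hl hh).2.1
      exact ⟨by linarith, fun _ => h1⟩
    · refine ⟨?_, fun h1 => absurd h1 hh⟩
      obtain ⟨-, h2, h3, -⟩ := hB.low2 F hC.hF y (hC.sub hy) hl (hC.d2 y hy hh)
      by_cases hp : G.PairSet (G.pT F y)
      · exact h3 hp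
      · have h4 := h2 hp
        have h5 : 0 < (G.pT F y).card := card_pos.2 ⟨y', mem_pT89.2 ⟨hn, hC.sub hy'⟩⟩
        have h6 : (1 : ℤ) ≤ ((G.pT F y).card : ℤ) := by exact_mod_cast h5
        linarith
  have g1 := val y1 y2 hD.Y1 hD.Y2 f1.1 f1.2
  have g2 := val y2 y1 hD.Y2 hD.Y1 f2.1 f2.2
  have g3 := hD.gp hB
  have g4 := hD.gp' hB
  have g5 := hC.g0 hB
  rw [hD.sum]
  rcases hC.miss y1 (hC.sub hD.Y1) y2 (hC.sub hD.Y2) hD.n10 with h1 | h1
  · have := g1.2 h1
    linarith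
  · have := g2.2 h1
    linarith

/-- case (ii-b), `y1` and `y2` low and adjacent, `y1` adjacent to `t` -/
theorem D89.sub1 (hB : G.St5B) (hd : h ∉ G.nb d) (l1 : G.Low y1) (l2 : G.Low y2)
    (h12 : y2 ∈ G.nb y1) (ht : t ∈ G.nb y1) : 24 ≤ ∑ y ∈ G.N F, G.gam5 F y := by
  classical
  have hC := hD.hC
  have hy1 : h ∈ G.nb y1 :=
    (hC.miss y1 (hC.sub hD.Y1) d (hC.sub hD.dY) hD.n8.symm).resolve_right hd
  have hy2 : h ∈ G.nb y2 :=
    (hC.miss y2 (hC.sub hD.Y2) d (hC.sub hD.dY) hD.n9.symm).resolve_right hd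
  have hty : t ≠ y2 := by
    rintro rfl
    exact hC.tY hD.Y2
  have k1 : 2 ≤ (G.pT F y1).card :=
    two_le5 (mem_pT89.2 ⟨h12, hC.sub hD.Y2⟩) (mem_pT89.2 ⟨ht, hC.tT⟩) hty.symm
  have g1 := (hC.v3 hB hD.Y1 l1 hy1).2.2.2
  have g2 := (hC.v3 hB hD.Y2 l2 hy2).2.1
  have k1' : (2 : ℤ) ≤ ((G.pT F y1).card : ℤ) := by exact_mod_cast k1
  have mp : p ∈ G.pT F d := mem_pT89.2 ⟨hD.dp, hC.sub hD.pY⟩
  have mp' : p' ∈ G.pT F d := mem_pT89.2 ⟨hD.dp', hC.sub hD.pY'⟩
  have gd : 6 ≤ G.gam5 F d := by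
    obtain ⟨c1, c2, -, c4⟩ := hB.low2 F hC.hF d (hC.sub hD.dY) hD.dl (hC.d2 d hD.dY hd)
    by_cases hps : G.PairSet (G.pT F d)
    · refine c4 hps ?_
      obtain ⟨a, b, hab, hp⟩ := hps
      have hsub : ({p, p'} : Finset V) ⊆ G.pT F d := by
        intro y hy
        simp only [mem_insert, mem_singleton] at hy
        rcases hy with e | e <;> rw [e] <;> assumption
      have hcd : (G.pT F d).card = 2 := by rw [hp, card_pair (ne_of_nb5 hab.1)]
      have heq : ({p, p'} : Finset V) = G.pT F d :=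
        eq_of_subset_of_card_le hsub (by rw [hcd, card_pair hD.n1])
      intro x hx
      rw [← heq] at hx
      simp only [mem_insert, mem_singleton] at hx
      rcases hx with e | e <;> rw [e]
      · rw [hC.d3 p hD.pY hD.hp]; norm_num
      · rw [hC.d3 p' hD.pY' hD.hp']; norm_num
    · have h1 := c2 hps
      have h2 : 2 ≤ (G.pT F d).card := two_le5 mp mp' hD.n1
      have h3 : (2 : ℤ) ≤ ((G.pT F d).card : ℤ) := by exact_mod_cast h2
      linarith
  have g3 := hD.gp hB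
  have g4 := hD.gp' hB
  have g5 := hC.g0 hB
  rw [hD.sum]
  linarith

/-- case (ii-b): `y1` is not covered by `y2`: impossible -/
theorem D89.sub2 (hB : G.St5B) (hd : h ∉ G.nb d) (hno : ¬ (G.Low y2 ∧ y1 ∈ G.nb y2)) :
    False := by
  classical
  have hC := hD.hC
  have TH := stTwHL_5 G
  have hy1 : h ∈ G.nb y1 :=
    (hC.miss y1 (hC.sub hD.Y1) d (hC.sub hD.dY) hD.n8.symm).resolve_right hd
  have hy2 : h ∈ G.nb y2 :=
    (hC.miss y2 (hC.sub hD.Y2) d (hC.sub hD.dY) hD.n9.symm).resolve_right hd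
  have hN : ∀ {x : V}, x ∈ G.N F → h ≠ x := by
    rintro x hx rfl
    exact hC.hT hx
  have nHL : ∀ {a x : V}, h ∈ G.nb a → x ∈ G.N F → ¬ G.HL a d x := by
    intro a x ha hx h1
    rcases HL_sup76 h1 ha (hN hx) with h2 | h2
    · exact hN (hC.sub hD.dY) h2
    · exact hd h2
  have mp : p ∈ G.pT F d := mem_pT89.2 ⟨hD.dp, hC.sub hD.pY⟩
  have mp' : p' ∈ G.pT F d := mem_pT89.2 ⟨hD.dp', hC.sub hD.pY'⟩
  have c3 : (G.pT F d).card ≤ 3 :=
    (hB.low2 F hC.hF d (hC.sub hD.dY) hD.dl (hC.d2 d hD.dY hd)).1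
  -- two further neighbours of `d` in `N F` are impossible
  have four : ∀ {x y : V}, x ∈ G.nb d → y ∈ G.nb d → x ∈ G.N F → y ∈ G.N F → x ≠ y → x ≠ p →
      x ≠ p' → y ≠ p → y ≠ p' → False := by
    intro x y h1 h2 h3 h4 h5 h6 h7 h8 h9
    have := four_le5 mp mp' (mem_pT89.2 ⟨h1, h3⟩) (mem_pT89.2 ⟨h2, h4⟩) hD.n1 h6.symm h8.symm
      h7.symm h9.symm h5
    omega
  have f1 : y1 ∈ G.nb d :=
    (hD.cv1 (nHL hy2 (hC.sub hD.Y1))).resolve_left hno
  have f2 : y2 ∉ G.nb d := fun h1 => four f1 h1 (hC.sub hD.Y1) (hC.sub hD.Y2) hD.n10 hD.n3.symm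
    hD.n6.symm hD.n4.symm hD.n7.symm
  obtain ⟨l1, h12⟩ := (hD.swap.cv1 (nHL hy1 (hC.sub hD.Y2))).resolve_right f2
  have nl2 : ¬ G.Low y2 := fun h1 => hno ⟨h1, G.sym _ _ h12⟩
  have tp : t ∉ G.nb p := by
    intro h1
    rcases hD.nbp hC.tT h1 with e | e
    · exact hC.tY (by rw [e]; exact hD.pY')
    · exact hC.tY (by rw [e]; exact hD.dY)
  have tp' : t ∉ G.nb p' := by
    intro h1
    rcases hD.nbp' hC.tT h1 with e | e
    · exact hC.tY (by rw [e]; exact hD.pY)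
    · exact hC.tY (by rw [e]; exact hD.dY)
  have ht : ∀ {x : V}, x ∈ Y → t ≠ x := by
    rintro x hx rfl
    exact hC.tY hx
  have td : t ∉ G.nb d := fun h1 => four f1 h1 (hC.sub hD.Y1) hC.tT (ht hD.Y1).symm hD.n3.symm
    hD.n6.symm (ht hD.pY) (ht hD.pY')
  have t1 : t ∉ G.nb y1 := by
    intro h1
    have h2 := (hC.v3 hB hD.Y1 l1 hy1).1
    have h3 : ({d, y2, t} : Finset V) ⊆ G.pT F y1 := by
      intro y hy
      simp only [mem_insert, mem_singleton] at hy
      rcases hy with e | e | e <;> rw [e, mem_pT89]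
      · exact ⟨G.sym _ _ f1, hC.sub hD.dY⟩
      · exact ⟨h12, hC.sub hD.Y2⟩
      · exact ⟨h1, hC.tT⟩
    have h4 := card_le_card h3
    rw [card_insert_of_notMem (by simp [hD.n9, (ht hD.dY).symm]),
      card_pair (ht hD.Y2).symm] at h4
    omega
  rcases hC.c0 with h6 | h6 | h6 | h6
  · obtain ⟨x, hx, h7, -, h8⟩ := h6
    rcases hD.ym x hx with e | e | e | e | e <;> rw [e] at h7 h8
    · exact tp h8
    · exact tp' h8
    · exact td h8
    · exact t1 h8
    · exact nl2 h7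
  · obtain ⟨x, hx, x', hx', h7, -, h8, h9⟩ := h6
    have key : ∀ x ∈ Y, t ∈ G.nb x → x = y2 := by
      intro x hx h3
      rcases hD.ym x hx with e | e | e | e | e
      · rw [e] at h3; exact absurd h3 tp
      · rw [e] at h3; exact absurd h3 tp'
      · rw [e] at h3; exact absurd h3 td
      · rw [e] at h3; exact absurd h3 t1
      · exact e
    have e1 := key x hx h8
    have e2 := key x' hx' h9
    rw [e1, e2] at h7
    exact G.irr _ h7.1
  · obtain ⟨a, ha, b, hb, h7, h8, h9⟩ := h6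
    have h10 := HL_t76 h7
    have hanl := HL_not_low76 h7
    rcases hD.ym a ha with e | e | e | e | e <;> rw [e] at h7 h10 hanl h8
    · exact tp h10
    · exact tp' h10
    · exact td h10
    · exact t1 h10
    · have hbl : G.Low b := h7.2.1
      rcases hD.ym b hb with e' | e' | e' | e' | e' <;> rw [e'] at h7 hbl h9
      · exact hD.pnl hbl
      · exact hD.pnl' hbl
      · exact hd h9
      · exact f2 (G.sym _ _ (HL_sub76 h7 (G.sym _ _ f1) hD.n9))
      · exact nl2 hbl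
  · obtain ⟨a, ha, b, hb, h7⟩ := h6
    have h8 := LL_u76 h7
    have hbl : G.Low b := h7.2.1
    rcases hD.ym b hb with e | e | e | e | e <;> rw [e] at h8 hbl
    · exact tp h8
    · exact tp' h8
    · exact td h8
    · exact t1 h8
    · exact nl2 hbl

/-- case (ii-b): `d` is not adjacent to `h` -/
theorem D89.caseB (hB : G.St5B) (hd : h ∉ G.nb d) : 24 ≤ ∑ y ∈ G.N F, G.gam5 F y := by
  classical
  have hC := hD.hC
  by_cases h1 : G.Low y2 ∧ y1 ∈ G.nb y2
  · by_cases h2 : G.Low y1 ∧ y2 ∈ G.nb y1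
    · -- a low neighbour of `t`
      have mp : p ∈ G.pT F d := mem_pT89.2 ⟨hD.dp, hC.sub hD.pY⟩
      have mp' : p' ∈ G.pT F d := mem_pT89.2 ⟨hD.dp', hC.sub hD.pY'⟩
      have c3 : (G.pT F d).card ≤ 3 :=
        (hB.low2 F hC.hF d (hC.sub hD.dY) hD.dl (hC.d2 d hD.dY hd)).1
      have tp : t ∉ G.nb p := by
        intro h1
        rcases hD.nbp hC.tT h1 with e | e
        · exact hC.tY (by rw [e]; exact hD.pY')
        · exact hC.tY (by rw [e]; exact hD.dY)
      have tp' : t ∉ G.nb p' := by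
        intro h1
        rcases hD.nbp' hC.tT h1 with e | e
        · exact hC.tY (by rw [e]; exact hD.pY)
        · exact hC.tY (by rw [e]; exact hD.dY)
      have ht : ∀ {x : V}, x ∈ Y → t ≠ x := by
        rintro x hx rfl
        exact hC.tY hx
      have key : t ∈ G.nb y1 ∨ t ∈ G.nb y2 := by
        rcases hC.c0 with h6 | h6 | h6 | h6
        · obtain ⟨x, hx, h7, h9, h8⟩ := h6
          rcases hD.ym x hx with e | e | e | e | e <;> rw [e] at h7 h8 h9
          · exact absurd h8 tp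
          · exact absurd h8 tp'
          · exact absurd h9 hd
          · exact Or.inl h8
          · exact Or.inr h8
        · obtain ⟨x, hx, x', hx', h7, h9, h8, -⟩ := h6
          rcases hD.ym x hx with e | e | e | e | e <;> rw [e] at h7 h8 h9
          · exact absurd h8 tp
          · exact absurd h8 tp'
          · exact absurd h9 hd
          · exact Or.inl h8
          · exact Or.inr h8
        · obtain ⟨a, ha, b, hb, h7, h8, h9⟩ := h6
          have h10 := HL_t76 h7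
          rcases hD.ym a ha with e | e | e | e | e <;> rw [e] at h10 h8
          · exact absurd h10 tp
          · exact absurd h10 tp'
          · exact absurd h8 hd
          · exact Or.inl h10
          · exact Or.inr h10
        · obtain ⟨a, ha, b, hb, h7⟩ := h6
          have h8 := LL_u76 h7
          have h9 := LL_ab76 h7
          have h10 := LL_t76 h7
          rcases hD.ym b hb with e | e | e | e | e <;> rw [e] at h8
          · exact absurd h8 tp
          · exact absurd h8 tp'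
          · exfalso
            rw [e] at h9
            have al : G.Low a := h7.1
            have n1 : a ≠ p := fun e' => hD.pnl (by rw [← e']; exact al)
            have n2 : a ≠ p' := fun e' => hD.pnl' (by rw [← e']; exact al)
            have := four_le5 mp mp' (mem_pT89.2 ⟨G.sym _ _ h9, hC.sub ha⟩)
              (mem_pT89.2 ⟨h8, hC.tT⟩) hD.n1 n1.symm (ht hD.pY).symm n2.symm
              (ht hD.pY').symm (ht ha).symm
            omega
          · exact Or.inl h8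
          · exact Or.inr h8
      rcases key with h3 | h3
      · exact hD.sub1 hB hd h2.1 h1.1 h2.2 h3
      · exact hD.swap.sub1 hB hd h1.1 h2.1 h1.2 h3
    · exact (hD.swap.sub2 hB hd h2).elim
  · exact (hD.sub2 hB hd h1).elim

end

variable (G)

/-- G6 -/
theorem st5HQ_89 (hB : G.St5B) : G.St5HQ := by
  classical
  intro F hF h v w hFe hh hvw
  obtain ⟨t, Y, hC⟩ := exC89 hF hFe hh hvw
  by_cases hT : ∃ x ∈ Y, G.IsTw x
  · obtain ⟨p, hpY, hp⟩ := hT
    obtain ⟨p', d, y1, y2, hD⟩ := exD89 hC hB hpY hp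
    by_cases hd : h ∈ G.nb d
    · exact hD.caseA hB hd
    · exact hD.caseB hB hd
  · exact hC.case1 hB fun x hx h1 => hT ⟨x, hx, h1⟩

end CG

end Pool.Agent.Lib.MP_e95c01_co.N
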