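import Pool.Agent.Lib.MP_e95c01_co.X.StmtsF76
import Pool.Agent.Lib.MP_e95c01_co.T.F3_33
import Pool.Agent.Lib.MP_e95c01_co.T.F4_42
import Pool.Agent.Lib.MP_e95c01_co.T.F5_30

/-!
# `λ = 3`, G7: fragments with three vertices, a low vertex and a pair of twins
-/

namespace Pool.Agent.Lib.MP_e95c01_co.N

open Finset

variable {V : Type} [Fintype V] [DecidableEq V]

namespace CG

namespace G7x33

variable {G : CG V} {F X : Finset V} {l v w t z z' : V}

theorem mem_pT {F : Finset V} {x y : V} : x ∈ G.pT F y ↔ x ∈ G.nb y ∧ x ∈ G.N F := mem_inter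

/-- the situation when the low vertex is adjacent to the pair -/
structure Cx (G : CG V) (F X : Finset V) (l v w t z z' : V) : Prop where
  hF : G.S5 F
  hB : G.St5B
  lF : l ∈ F
  vF : v ∈ F
  wF : w ∈ F
  all : ∀ x ∈ F, x = l ∨ x = v ∨ x = w
  lo : G.Low l
  tw : G.Tw v w
  lv : l ∈ G.nb v
  tN : t ∈ G.N F
  tv : v ∉ G.nb t
  tl : l ∈ G.nb t
  zN : z ∈ G.N F
  zN' : z' ∈ G.N F
  zl : l ∉ G.nb z
  zl' : l ∉ G.nb z'
  zv : v ∈ G.nb z
  zv' : v ∈ G.nb z'
  ne : z ≠ z'
  X3 : X.card = 3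
  XN : ∀ x ∈ X, x ∈ G.N F ∧ l ∈ G.nb x ∧ v ∈ G.nb x
  allN : ∀ x ∈ G.N F, x = t ∨ x ∈ X ∨ x = z ∨ x = z'

namespace Cx

theorem symm (c : Cx G F X l v w t z z') : Cx G F X l v w t z' z where
  hF := c.hF
  hB := c.hB
  lF := c.lF
  vF := c.vF
  wF := c.wF
  all := c.all
  lo := c.lo
  tw := c.tw
  lv := c.lv
  tN := c.tN
  tv := c.tv
  tl := c.tl
  zN := c.zN'
  zN' := c.zN
  zl := c.zl'
  zl' := c.zl
  zv := c.zv'
  zv' := c.zv
  ne := c.ne.symm
  X3 := c.X3
  XN := c.XN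
  allN := fun x hx => by
    rcases c.allN x hx with h | h | h | h
    · exact Or.inl h
    · exact Or.inr (Or.inl h)
    · exact Or.inr (Or.inr (Or.inr h))
    · exact Or.inr (Or.inr (Or.inl h))

theorem n9 (c : Cx G F X l v w t z z') : 9 ≤ Fintype.card V := by
  have := c.hF.n12
  omega

theorem notF (_ : Cx G F X l v w t z z') {x : V} (hx : x ∈ G.N F) : x ∉ F := (mem_N76.1 hx).1

theorem uniq (c : Cx G F X l v w t z z') {x y y' : V} (h : G.Tw x y) (h' : G.Tw x y') : y = y' :=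
  (stTwHL_5 G).uniq c.n9 _ _ _ h h'

theorem lw (c : Cx G F X l v w t z z') : l ∈ G.nb w := by
  refine Tw_nb5 c.tw c.lv ?_
  rintro rfl
  exact not_low33 ⟨v, c.tw.sym33⟩ c.lo

theorem lnv (c : Cx G F X l v w t z z') : l ≠ v := (ne_of_nb5 c.lv).symm

theorem lnw (c : Cx G F X l v w t z z') : l ≠ w := (ne_of_nb5 c.lw).symm

theorem nev (c : Cx G F X l v w t z z') {x : V} (hx : x ∈ G.N F) : x ≠ v := by
  rintro rfl
  exact c.notF hx c.vF

theorem new (c : Cx G F X l v w t z z') {x : V} (hx : x ∈ G.N F) : x ≠ w := by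
  rintro rfl
  exact c.notF hx c.wF

/-- `v` and `w` have the same neighbours in `N F` -/
theorem vw (c : Cx G F X l v w t z z') {x : V} (hx : x ∈ G.N F) (h : v ∈ G.nb x) : w ∈ G.nb x :=
  G.sym _ _ (Tw_nb5 c.tw (G.sym _ _ h) (c.new hx))

theorem wv (c : Cx G F X l v w t z z') {x : V} (hx : x ∈ G.N F) (h : w ∈ G.nb x) : v ∈ G.nb x :=
  G.sym _ _ (Tw_nb5 c.tw.sym33 (G.sym _ _ h) (c.nev hx))

/-- partners of vertices of `N F` -/
theorem par (c : Cx G F X l v w t z z') {x y : V} (hx : x ∈ G.N F) (h : G.Tw x y) :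
    y ∈ G.N F := by
  have hy : y ∉ F := by
    intro hy
    rcases c.all y hy with rfl | rfl | rfl
    · exact not_low33 ⟨x, h.sym33⟩ c.lo
    · exact c.notF hx (c.uniq h.sym33 c.tw ▸ c.wF)
    · exact c.notF hx (c.uniq h.sym33 c.tw.sym33 ▸ c.vF)
  obtain ⟨-, u, hu, hxu⟩ := mem_N76.1 hx
  have hne : u ≠ y := by
    rintro rfl
    exact hy hu
  exact mem_N76.2 ⟨hy, u, hu, G.sym _ _ (Tw_nb5 h (G.sym _ _ hxu) hne)⟩

theorem tX (c : Cx G F X l v w t z z') : t ∉ X := fun h => c.tv (c.XN t h).2.2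

theorem zX (c : Cx G F X l v w t z z') : z ∉ X := fun h => c.zl (c.XN z h).2.1

theorem tz (c : Cx G F X l v w t z z') : t ≠ z := by
  rintro rfl
  exact c.tv c.zv

/-- membership in `X` -/
theorem inX (c : Cx G F X l v w t z z') {x : V} (hx : x ∈ G.N F) (h1 : l ∈ G.nb x)
    (h2 : x ≠ t) : x ∈ X := by
  rcases c.allN x hx with h | h | h | h
  · exact absurd h h2
  · exact h
  · rw [h] at h1
    exact absurd h1 c.zl
  · rw [h] at h1
    exact absurd h1 c.zl'

/-- neighbours of `v` in `N F` -/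
theorem inV (c : Cx G F X l v w t z z') {x : V} (hx : x ∈ G.N F) (h1 : v ∈ G.nb x) :
    x ∈ X ∨ x = z ∨ x = z' := by
  rcases c.allN x hx with h | h | h | h
  · rw [h] at h1
    exact absurd h1 c.tv
  · exact Or.inl h
  · exact Or.inr (Or.inl h)
  · exact Or.inr (Or.inr h)

theorem parX (c : Cx G F X l v w t z z') {x y : V} (hx : x ∈ X) (h : G.Tw x y) : y ∈ X := by
  obtain ⟨h1, h2, h3⟩ := c.XN x hx
  have hy := c.par h1 h
  have hl : l ∈ G.nb y := G.sym _ _ (by
    have h4 : l ≠ y := by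
      rintro rfl
      exact c.notF hy c.lF
    exact G.sym _ _ (Tw_nb5 h h2 h4))
  have hv : v ∈ G.nb y := Tw_nb5 h h3 (c.nev hy).symm
  refine c.inX hy hl ?_
  rintro rfl
  exact c.tv hv

theorem parz (c : Cx G F X l v w t z z') {y : V} (h : G.Tw z y) : y = z' := by
  have hy := c.par c.zN h
  have hv : v ∈ G.nb y := Tw_nb5 h c.zv (c.nev hy).symm
  rcases c.inV hy hv with h1 | h1 | h1
  · exact absurd (c.parX h1 h.sym33) c.zX
  · exact absurd h1 h.ne33.symm
  · exact h1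

theorem dX (c : Cx G F X l v w t z z') {x : V} (hx : x ∈ X) : G.d x F = 3 := by
  obtain ⟨h1, h2, h3⟩ := c.XN x hx
  rw [d_full33, c.hF.c3]
  intro y hy
  rcases c.all y hy with rfl | rfl | rfl
  · exact h2
  · exact h3
  · exact c.vw h1 h3

theorem pXz (c : Cx G F X l v w t z z') : G.pX F z = {v, w} := by
  ext y
  rw [pX, mem_inter, mem_insert, mem_singleton]
  constructor
  · rintro ⟨h1, h2⟩
    rcases c.all y h2 with rfl | h | h
    · exact absurd h1 c.zl
    · exact Or.inl h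
    · exact Or.inr h
  · rintro (rfl | rfl)
    · exact ⟨c.zv, c.vF⟩
    · exact ⟨c.vw c.zN c.zv, c.wF⟩

theorem dz (c : Cx G F X l v w t z z') : G.d z F = 2 := by
  have h := congrArg Finset.card c.pXz
  rw [card_pair c.tw.ne33] at h
  exact h

theorem dt (c : Cx G F X l v w t z z') : G.d t F = 1 := by
  have h : G.nb t ∩ F = {l} := by
    ext y
    rw [mem_inter, mem_singleton]
    constructor
    · rintro ⟨h1, h2⟩
      rcases c.all y h2 with h | rfl | rfl
      · exact h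
      · exact absurd h1 c.tv
      · exact absurd (c.wv c.tN h1) c.tv
    · rintro rfl
      exact ⟨c.tl, c.lF⟩
  rw [d, h, card_singleton]

/-! ### values -/

theorem gX0 (c : Cx G F X l v w t z z') {x : V} (hx : x ∈ X) : 0 ≤ G.gam5 F x := by
  obtain ⟨h1, h2, h3⟩ := c.XN x hx
  have hd := c.dX hx
  by_cases hl : G.Low x
  · have := (c.hB.low3 F c.hF x h1 hl hd).2.1
    linarith
  by_cases ht : G.IsTw x
  · have h4 := (c.hB.tw F c.hF x h1 ht).2.2
    obtain ⟨y, hy⟩ := ht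
    have h5 : 1 ≤ (G.pT F x).card := by
      rw [Nat.succ_le_iff, Finset.card_pos]
      exact ⟨y, mem_pT.2 ⟨hy.1, c.par h1 hy⟩⟩
    have h6 : (1 : ℤ) ≤ ((G.pT F x).card : ℤ) := by exact_mod_cast h5
    rw [hd] at h4
    push_cast at h4
    linarith
  · rw [c.hB.hub F c.hF x h1 ⟨hl, ht⟩]

theorem gX1 (c : Cx G F X l v w t z z') {x : V} (hx : x ∈ X) (hl : G.Low x) :
    (G.pT F x).card ≤ 2 ∧
    6 ≤ G.gam5 F x ∧ ((G.pT F x).card ≠ 1 → 6 + 2 * ((G.pT F x).card : ℤ) ≤ G.gam5 F x) ∧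
    (∀ v ∈ G.pT F x, ¬ G.Low v → 6 + 2 * ((G.pT F x).card : ℤ) ≤ G.gam5 F x) ∧
    (G.PairSet (G.pT F x) → 12 ≤ G.gam5 F x) :=
  c.hB.low3 F c.hF x (c.XN x hx).1 hl (c.dX hx)

/-- twin vertices of `X` -/
theorem gX2 (c : Cx G F X l v w t z z') {x y : V} (hx : x ∈ X) (h : G.Tw x y) :
    (G.pT F x).card ≤ 2 ∧ ((G.pT F x).card : ℤ) - 1 ≤ G.gam5 F x := by
  obtain ⟨-, h1, h2⟩ := c.hB.tw F c.hF x (c.XN x hx).1 ⟨y, h⟩
  rw [c.dX hx] at h1 h2
  push_cast at h2
  exact ⟨by omega, by linarith⟩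

theorem gt (c : Cx G F X l v w t z z') : 0 ≤ G.gam5 F t := by
  have hd := c.dt
  by_cases hl : G.Low t
  · obtain ⟨-, h1, h2⟩ := c.hB.low1 F c.hF t c.tN hl hd
    by_cases hp : G.PairSet (G.pT F t)
    · exact h2 hp
    · have h3 := h1 hp
      have h4 : 1 ≤ (G.pT F t).card := low_one42 c.hF c.tN hl hd
      have h5 : (1 : ℤ) ≤ ((G.pT F t).card : ℤ) := by exact_mod_cast h4
      linarith
  by_cases ht : G.IsTw t
  · have h4 := (c.hB.tw F c.hF t c.tN ht).1
    omega
  · rw [c.hB.hub F c.hF t c.tN ⟨hl, ht⟩]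

theorem gz0 (c : Cx G F X l v w t z z') (hz : ¬ G.IsTw z) (hz' : ¬ G.IsTw z')
    (hl : G.Low z) : (G.pT F z).card ≤ 3 ∧ 2 + 2 * ((G.pT F z).card : ℤ) ≤ G.gam5 F z := by
  obtain ⟨h1, h2, -, h3⟩ := c.hB.low2 F c.hF z c.zN hl c.dz
  refine ⟨h1, ?_⟩
  by_cases hp : G.PairSet (G.pT F z)
  · have h4 := h3 hp (by
      intro u hu
      obtain ⟨a, b, hab, he⟩ := hp
      have htw : G.IsTw u := by
        rw [he, mem_insert, mem_singleton] at hu
        rcases hu with rfl | rfl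
        · exact ⟨_, hab⟩
        · exact ⟨_, hab.sym33⟩
      have hu' := (mem_pT.1 hu).2
      rcases c.allN u hu' with h | h | h | h
      · rw [h] at htw
        have h5 := (c.hB.tw F c.hF t c.tN htw).1
        have := c.dt
        omega
      · rw [c.dX h]
        omega
      · rw [h] at htw
        exact absurd htw hz
      · rw [h] at htw
        exact absurd htw hz')
    obtain ⟨a, b, hab, he⟩ := hp
    rw [he, card_pair hab.ne33]
    push_cast
    linarith
  · exact h2 hp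

/-- the covers of `v z` -/
theorem covz (c : Cx G F X l v w t z z') :
    (∃ u ∈ G.N F, G.Low u ∧ v ∈ G.nb u ∧ z ∈ G.nb u) ∨
    (∃ a ∈ G.N F, ∃ b ∈ G.N F, G.Tw a b ∧ v ∈ G.nb a ∧ v ∈ G.nb b ∧ z ∈ G.nb a ∧ z ∈ G.nb b) ∨
    (∃ a ∈ G.N F, ∃ b ∈ G.N F, G.HL a b z ∧ v ∈ G.nb b ∧ v ∈ G.nb a) := by
  have hlowF : ∀ x ∈ F, G.Low x → x = l := by
    intro x hx h
    rcases c.all x hx with h1 | rfl | rfl
    · exact h1
    · exact absurd h (not_low33 ⟨_, c.tw⟩)
    · exact absurd h (not_low33 ⟨_, c.tw.sym33⟩)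
  rcases c.hF.cov v c.vF z c.zN (G.sym _ _ c.zv) with h | h | h | h | h
  · obtain ⟨u, hu, h1, h2, h3⟩ := h
    rcases mem_union.1 hu with h4 | h4
    · rw [hlowF u h4 h1] at h3
      exact absurd (G.sym _ _ h3) c.zl
    · exact Or.inl ⟨u, h4, h1, h2, h3⟩
  · obtain ⟨a, ha, b, hb, h1, h2, h3, h4, h5⟩ := h
    have key : ∀ a b, a ∈ F ∪ G.N F → G.Tw a b → v ∈ G.nb a → v ∈ G.nb b → a ∈ G.N F := by
      intro a b ha h1 h2 h3
      rcases mem_union.1 ha with h4 | h4
      · exfalso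
        rcases c.all a h4 with rfl | rfl | rfl
        · exact not_low33 ⟨_, h1⟩ c.lo
        · exact G.irr _ h2
        · rw [← c.uniq c.tw.sym33 h1] at h3
          exact G.irr _ h3
      · exact h4
    exact Or.inr (Or.inl ⟨a, key a b ha h1 h2 h3, b, key b a hb h1.sym33 h3 h2, h1, h2, h3, h4,
      h5⟩)
  · obtain ⟨a, b, h1, h2, h3, h4 | h4⟩ := h
    · exfalso
      have hb := hlowF b h4.2 h1.2.1
      rcases c.all a h4.1 with rfl | rfl | rfl
      · exact HL_not_low76 h1 c.lo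
      · exact G.irr _ h3
      · exact (stTwHL_5 G).notHL c.n9 _ _ _ h1 ⟨_, c.tw.sym33⟩
    · exact Or.inr (Or.inr ⟨a, h4.1, b, h4.2, h1, h2, h3⟩)
  · obtain ⟨a, b, h1, -⟩ := h
    exact absurd (c.hF.sat _ _ _ h1) (not_low33 ⟨_, c.tw⟩)
  · obtain ⟨a, b, h1, -⟩ := h
    exact absurd ⟨_, c.tw⟩ ((stTwHL_5 G).twLL _ _ _ _ h1).1

/-- the covers of `l t` -/
theorem covt (c : Cx G F X l v w t z z') :
    (∃ u ∈ X, G.Low u ∧ t ∈ G.nb u) ∨
    (∃ a ∈ X, ∃ b ∈ X, G.Tw a b ∧ t ∈ G.nb a ∧ t ∈ G.nb b) ∨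
    (∃ a ∈ X, ∃ b ∈ X, G.HL a b t) ∨
    (∃ a ∈ X, ∃ b, (b = z ∨ b = z') ∧ G.HL a b l ∧ t ∈ G.nb b ∧ t ∈ G.nb a) ∨
    (∃ a ∈ X, ∃ b, (b = z ∨ b = z') ∧ G.LL a b l t) := by
  have hlowF : ∀ x ∈ F, G.Low x → x = l := by
    intro x hx h
    rcases c.all x hx with h1 | rfl | rfl
    · exact h1
    · exact absurd h (not_low33 ⟨_, c.tw⟩)
    · exact absurd h (not_low33 ⟨_, c.tw.sym33⟩)
  have hzz : ∀ b ∈ G.N F, l ∉ G.nb b → b = z ∨ b = z' := by
    intro b hb h
    rcases c.allN b hb with h1 | h1 | h1 | h1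
    · rw [h1] at h
      exact absurd c.tl h
    · exact absurd (c.XN b h1).2.1 h
    · exact Or.inl h1
    · exact Or.inr h1
  have hcr : ∀ a ∈ G.N F, G.nb a ∩ F = {l} → a = t := by
    intro a ha h
    have h0 : l ∈ G.nb a := by
      have : l ∈ G.nb a ∩ F := by
        rw [h]
        exact mem_singleton_self _
      exact (mem_inter.1 this).1
    by_contra hne
    have h1 := c.inX ha h0 hne
    have h2 : v ∈ G.nb a ∩ F := mem_inter.2 ⟨(c.XN a h1).2.2, c.vF⟩
    rw [h, mem_singleton] at h2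
    exact c.lnv h2.symm
  rcases c.hF.cov l c.lF t c.tN (G.sym _ _ c.tl) with h | h | h | h | h
  · obtain ⟨u, hu, h1, h2, h3⟩ := h
    rcases mem_union.1 hu with h4 | h4
    · rw [hlowF u h4 h1] at h2
      exact absurd h2 (G.irr _)
    · exact Or.inl ⟨u, c.inX h4 h2 (ne_of_nb5 h3), h1, h3⟩
  · obtain ⟨a, ha, b, hb, h1, h2, h3, h4, h5⟩ := h
    have key : ∀ a b, a ∈ F ∪ G.N F → G.Tw a b → l ∈ G.nb a → t ∈ G.nb a → a ∈ X := by
      intro a b ha h1 h2 h3
      rcases mem_union.1 ha with h4 | h4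
      · exfalso
        rcases c.all a h4 with rfl | rfl | rfl
        · exact not_low33 ⟨_, h1⟩ c.lo
        · exact c.tv (G.sym _ _ h3)
        · exact c.tv (c.wv c.tN (G.sym _ _ h3))
      · exact c.inX h4 h2 (ne_of_nb5 h3)
    exact Or.inr (Or.inl ⟨a, key a b ha h1 h2 h4, b, key b a hb h1.sym33 h3 h5, h1, h4, h5⟩)
  · obtain ⟨a, b, h1, h2, h3, h4 | h4⟩ := h
    · rw [hlowF b h4.2 h1.2.1] at h2
      exact absurd h2 (G.irr _)
    · exact Or.inr (Or.inr (Or.inl ⟨a, c.inX h4.1 h3 (ne_of_nb5 (HL_t76 h1)), b,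
        c.inX h4.2 h2 (HL_bt76 h1).2.symm, h1⟩))
  · obtain ⟨a, b, h1, h2, h3, h4⟩ := h
    have hla : l ∈ G.nb a := HL_t76 h1
    rcases h4 with h4 | h4 | h4
    · exact absurd (hlowF b h4.2 h1.2.1).symm (HL_bt76 h1).2
    · exact Or.inr (Or.inr (Or.inr (Or.inl ⟨a, c.inX h4.1 hla (ne_of_nb5 h3), b,
        hzz b h4.2 (HL_bt76 h1).1, h1, h2, h3⟩)))
    · rw [hcr a h4.1 h4.2.2] at h3
      exact absurd h3 (G.irr _)
  · obtain ⟨a, b, h1, h4⟩ := h
    have hla : l ∈ G.nb a := LL_t76 h1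
    have hta := (LL_ua76 h1).2
    have hlb := LL_tb76 h1
    rcases h4 with h4 | h4 | h4
    · rw [hlowF a h4.1 h1.1] at hla
      exact absurd hla (G.irr _)
    · rcases mem_union.1 h4.2 with h5 | h5
      · exact absurd (hlowF b h5 h1.2.1).symm hlb.2
      · exact Or.inr (Or.inr (Or.inr (Or.inr ⟨a, c.inX h4.1 hla hta.symm, b, hzz b h5 hlb.1,
          h1⟩)))
    · exact absurd (hcr a h4.1 h4.2.2).symm hta

/-- the sum -/
theorem sumN (c : Cx G F X l v w t z z') (f : V → ℤ) :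
    ∑ x ∈ G.N F, f x = f t + f z + f z' + ∑ x ∈ X, f x := by
  have he : G.N F = insert t (insert z (insert z' X)) := by
    ext x
    rw [mem_insert, mem_insert, mem_insert]
    constructor
    · intro hx
      rcases c.allN x hx with h | h | h | h
      · exact Or.inl h
      · exact Or.inr (Or.inr (Or.inr h))
      · exact Or.inr (Or.inl h)
      · exact Or.inr (Or.inr (Or.inl h))
    · rintro (h | h | h | h)
      · rw [h]
        exact c.tN
      · rw [h]
        exact c.zN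
      · rw [h]
        exact c.zN'
      · exact (c.XN x h).1
  rw [he, sum_insert, sum_insert, sum_insert c.symm.zX]
  · ring
  · rw [mem_insert]
    rintro (h | h)
    · exact c.ne h
    · exact c.zX h
  · rw [mem_insert, mem_insert]
    rintro (h | h | h)
    · exact c.tz h
    · exact c.symm.tz h
    · exact c.tX h

theorem sX1 (c : Cx G F X l v w t z z') {x : V} (hx : x ∈ X) :
    G.gam5 F x ≤ ∑ y ∈ X, G.gam5 F y :=
  single_le_sum (f := fun y => G.gam5 F y) (fun y hy => c.gX0 hy) hx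

theorem sX2 (c : Cx G F X l v w t z z') {x y : V} (hx : x ∈ X) (hy : y ∈ X) (hne : x ≠ y) :
    G.gam5 F x + G.gam5 F y ≤ ∑ y ∈ X, G.gam5 F y :=
  two_terms30 (f := fun y => G.gam5 F y) (fun y hy => c.gX0 hy) hx hy hne

theorem sX3 (c : Cx G F X l v w t z z') {x y u : V} (hx : x ∈ X) (hy : y ∈ X) (hu : u ∈ X)
    (h1 : x ≠ y) (h2 : x ≠ u) (h3 : y ≠ u) :
    G.gam5 F x + (G.gam5 F y + G.gam5 F u) ≤ ∑ y ∈ X, G.gam5 F y := by
  have h4 : x ∉ ({y, u} : Finset V) := by
    rw [mem_insert, mem_singleton]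
    rintro (h | h)
    · exact h1 h
    · exact h2 h
  rw [← sum_pair (f := fun y => G.gam5 F y) h3, ← sum_insert (f := fun y => G.gam5 F y) h4]
  refine sum_le_sum_of_subset_of_nonneg ?_ fun a ha _ => c.gX0 ha
  intro a ha
  rw [mem_insert, mem_insert, mem_singleton] at ha
  rcases ha with rfl | rfl | rfl
  · exact hx
  · exact hy
  · exact hu

/-! ### `N F` without the neighbours of `l` is a pair -/

theorem casePair (c : Cx G F X l v w t z z') (h : G.Tw z z') :
    12 ≤ ∑ x ∈ G.N F, G.gam5 F x := by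
  have hnl : ¬ G.Low z := not_low33 ⟨_, h⟩
  have hnl' : ¬ G.Low z' := not_low33 ⟨_, h.sym33⟩
  -- the low neighbour
  obtain ⟨u, hu, hul, hzu⟩ : ∃ u ∈ X, G.Low u ∧ z ∈ G.nb u := by
    rcases c.covz with h1 | h1 | h1
    · obtain ⟨u, h1, h2, h3, h4⟩ := h1
      rcases c.inV h1 h3 with h5 | h5 | h5
      · exact ⟨u, h5, h2, h4⟩
      · rw [h5] at h2
        exact absurd h2 hnl
      · rw [h5] at h2
        exact absurd h2 hnl'
    · exfalso
      obtain ⟨a, h1, b, h2, h3, h4, h5, h6, h7⟩ := h1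
      have haX : a ∈ X := by
        rcases c.inV h1 h4 with h8 | h8 | h8
        · exact h8
        · rw [h8] at h6
          exact absurd h6 (G.irr _)
        · rw [h8] at h3
          rw [c.uniq h3 h.sym33] at h7
          exact absurd h7 (G.irr _)
      have hbX := c.parX haX h3
      have h8 := (c.gX2 haX h3).1
      have haz' : a ≠ z' := by
        rintro rfl
        exact c.symm.zX haX
      have hz'a : z' ∈ G.nb a := h.adj33 h6 haz'
      have h9 : 3 ≤ (G.pT F a).card := by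
        refine three_le33 (a := b) (b := z) (c := z') (mem_pT.2 ⟨h3.1, h2⟩) (mem_pT.2 ⟨h6, c.zN⟩)
          (mem_pT.2 ⟨hz'a, c.zN'⟩) ?_ ?_ c.ne
        · rintro rfl
          exact c.zX hbX
        · rintro rfl
          exact c.symm.zX hbX
      omega
    · obtain ⟨a, h1, b, h2, h3, -⟩ := h1
      exact absurd (c.hF.sat _ _ _ h3) hnl
  have huz' : u ≠ z' := by
    rintro rfl
    exact c.symm.zX hu
  have hz'u : z' ∈ G.nb u := h.adj33 hzu huz'
  obtain ⟨g1, g2, -, -, g3⟩ := c.gX1 hu hul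
  have hpu : G.pT F u = {z, z'} := by
    symm
    apply eq_of_subset_of_card_le
    · intro x hx
      rw [mem_insert, mem_singleton] at hx
      rcases hx with rfl | rfl
      · exact mem_pT.2 ⟨hzu, c.zN⟩
      · exact mem_pT.2 ⟨hz'u, c.zN'⟩
    · rw [card_pair c.ne]
      exact g1
  have g4 := g3 ⟨z, z', h, hpu⟩
  -- the pair
  have g5 : -1 ≤ G.gam5 F z := by
    have h1 := (c.hB.tw F c.hF z c.zN ⟨_, h⟩).2.2
    have h2 : 2 ≤ (G.pT F z).card :=
      two_le5 (a := z') (b := u) (mem_pT.2 ⟨h.1, c.zN'⟩) (mem_pT.2 ⟨G.sym _ _ hzu, (c.XN u hu).1⟩)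
        huz'.symm
    have h3 : (2 : ℤ) ≤ ((G.pT F z).card : ℤ) := by exact_mod_cast h2
    rw [c.dz] at h1
    push_cast at h1
    linarith
  have g6 : -1 ≤ G.gam5 F z' := by
    have h1 := (c.hB.tw F c.hF z' c.zN' ⟨_, h.sym33⟩).2.2
    have h2 : 2 ≤ (G.pT F z').card :=
      two_le5 (a := z) (b := u) (mem_pT.2 ⟨h.sym33.1, c.zN⟩)
        (mem_pT.2 ⟨G.sym _ _ hz'u, (c.XN u hu).1⟩) (by
          rintro rfl
          exact c.zX hu)
    have h3 : (2 : ℤ) ≤ ((G.pT F z').card : ℤ) := by exact_mod_cast h2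
    rw [c.symm.dz] at h1
    push_cast at h1
    linarith
  rw [c.sumN]
  have gt := c.gt
  by_cases h2 : ∃ y ∈ X, y ≠ u ∧ G.Low y
  · obtain ⟨y, hy, hyu, hyl⟩ := h2
    have h3 := (c.gX1 hy hyl).2.1
    have h4 := c.sX2 hy hu hyu
    linarith
  have h2' : ∀ y ∈ X, G.Low y → y = u := by
    intro y hy hyl
    by_contra h3
    exact h2 ⟨y, hy, h3, hyl⟩
  have huu : ∀ x, x ∈ G.nb u → x ∈ G.N F → x = z ∨ x = z' := by
    intro x h3 h4
    have : x ∈ G.pT F u := mem_pT.2 ⟨h3, h4⟩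
    rw [hpu, mem_insert, mem_singleton] at this
    exact this
  have htu : t ∉ G.nb u := by
    intro h3
    rcases huu t h3 c.tN with h4 | h4
    · exact c.tz h4
    · exact c.symm.tz h4
  rcases c.covt with h3 | h3 | h3 | h3 | h3
  · obtain ⟨u', h3, h4, h5⟩ := h3
    rw [h2' u' h3 h4] at h5
    exact absurd h5 htu
  · obtain ⟨a, ha, b, hb, h4, h5, h6⟩ := h3
    have key : ∀ a b, a ∈ X → b ∈ X → G.Tw a b → t ∈ G.nb a → 1 ≤ G.gam5 F a := by
      intro a b ha hb h4 h5
      have h6 := (c.gX2 ha h4).2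
      have h7 : 2 ≤ (G.pT F a).card :=
        two_le5 (a := b) (b := t) (mem_pT.2 ⟨h4.1, (c.XN b hb).1⟩) (mem_pT.2 ⟨h5, c.tN⟩) (by
          rintro rfl
          exact c.tX hb)
      have h8 : (2 : ℤ) ≤ ((G.pT F a).card : ℤ) := by exact_mod_cast h7
      linarith
    have k1 := key a b ha hb h4 h5
    have k2 := key b a hb ha h4.sym33 h6
    have hau : a ≠ u := by
      rintro rfl
      exact htu h5
    have hbu : b ≠ u := by
      rintro rfl
      exact htu h6
    have k3 := c.sX3 ha hb hu h4.ne33 hau hbu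
    linarith
  · obtain ⟨a, ha, b, hb, h4⟩ := h3
    have hbu := h2' b hb h4.2.1
    have hab : a ∈ G.nb u := by
      rw [← hbu]
      exact G.sym _ _ (HL_b76 h4)
    exfalso
    rcases huu a hab (c.XN a ha).1 with h5 | h5
    · rw [h5] at ha
      exact c.zX ha
    · rw [h5] at ha
      exact c.symm.zX ha
  · exfalso
    obtain ⟨a, ha, b, hb, h4, -⟩ := h3
    have hbl := h4.2.1
    rcases hb with rfl | rfl
    · exact hnl hbl
    · exact hnl' hbl
  · exfalso
    obtain ⟨a, ha, b, hb, h4⟩ := h3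
    have hbl := h4.2.1
    rcases hb with rfl | rfl
    · exact hnl hbl
    · exact hnl' hbl

/-! ### no pair -/

theorem gz4 (c : Cx G F X l v w t z z') (hz : ¬ G.IsTw z) (hz' : ¬ G.IsTw z')
    (hl : G.Low z) : 1 ≤ (G.pT F z).card ∧ 4 ≤ G.gam5 F z := by
  have h1 : 1 ≤ (G.pT F z).card := by
    rw [Nat.succ_le_iff, Finset.card_pos]
    rcases c.covz with h | h | h
    · obtain ⟨u, h1, -, -, h4⟩ := h
      exact ⟨u, mem_pT.2 ⟨G.sym _ _ h4, h1⟩⟩
    · obtain ⟨a, h1, b, h2, h3, h4, h5, h6, h7⟩ := h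
      exact ⟨a, mem_pT.2 ⟨G.sym _ _ h6, h1⟩⟩
    · obtain ⟨a, h1, b, h2, h3, -⟩ := h
      exact ⟨a, mem_pT.2 ⟨G.sym _ _ (HL_t76 h3), h1⟩⟩
  have h2 := (c.gz0 hz hz' hl).2
  have h3 : (1 : ℤ) ≤ ((G.pT F z).card : ℤ) := by exact_mod_cast h1
  exact ⟨h1, by linarith⟩

theorem gz00 (c : Cx G F X l v w t z z') (hz : ¬ G.IsTw z) (hz' : ¬ G.IsTw z') :
    0 ≤ G.gam5 F z := by
  by_cases hl : G.Low z
  · have := (c.gz4 hz hz' hl).2
    linarith
  · rw [c.hB.hub F c.hF z c.zN ⟨hl, hz⟩]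

/-- the flag `S0` -/
theorem gzS0 (c : Cx G F X l v w t z z') (hz : G.Low z) {u : V} (hu : G.Low u)
    (h1 : G.pT F z = {u}) (hv : v ∈ G.nb u) (h2 : ¬ (G.pT F u = {z} ∧ (G.pO F u).card = 1)) :
    (G.pT F u = {z} → 5 ≤ G.gam5 F z) ∧ (¬ G.LLs F z u → 6 ≤ G.gam5 F z) :=
  (c.hB.low2s F c.hF z c.zN u ⟨c.zN, hz, hu, h1, ⟨v, w, c.tw, c.pXz, hv⟩, h2⟩).2

theorem pO_card (c : Cx G F X l v w t z z') {u : V} (hu : G.Low u) :
    G.d u F + (G.pT F u).card + (G.pO F u).card = 6 := by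
  have h0 : Disjoint F (G.N F) := by
    rw [Finset.disjoint_left]
    intro x h1 h2
    exact c.notF h2 h1
  have h1 : G.d u F + G.d u (G.N F) + G.d u (G.Co F) = (G.nb u).card := by
    rw [← d_union33 u h0, ← d_union33 u (by rw [Co]; exact disjoint_compl_right)]
    unfold d
    rw [Co, union_compl, inter_univ]
  have h2 : (G.nb u).card = 6 := hu
  rw [h2] at h1
  exact h1

/-- one low vertex in `X`, `z` low and `z'` not -/
theorem caseOne (c : Cx G F X l v w t z z') (hz : ¬ G.IsTw z) (hz' : ¬ G.IsTw z')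
    {x : V} (hx : x ∈ X) (hxl : G.Low x) (hun : ∀ y ∈ X, G.Low y → y = x) (hzl : G.Low z)
    (hzl' : ¬ G.Low z') : 12 ≤ ∑ x ∈ G.N F, G.gam5 F x := by
  rw [c.sumN]
  have g1 := c.gt
  have g2 := c.gz4 hz hz' hzl
  have g3 := c.symm.gz00 hz' hz
  have g4 := c.sX1 hx
  obtain ⟨g5, g6, g7, g8, -⟩ := c.gX1 hx hxl
  obtain ⟨-, g9⟩ := c.gz0 hz hz' hzl
  by_cases hpz : (G.pT F z).card = 1
  swap
  · have h1 : (2 : ℤ) ≤ ((G.pT F z).card : ℤ) := by
      have : 2 ≤ (G.pT F z).card := by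
        have := g2.1
        omega
      exact_mod_cast this
    linarith [g2.2]
  obtain ⟨y0, hy0⟩ := card_eq_one.1 hpz
  have hzy : ∀ y, y ∈ G.nb z → y ∈ G.N F → y = y0 := by
    intro y h1 h2
    have : y ∈ G.pT F z := mem_pT.2 ⟨h1, h2⟩
    rw [hy0, mem_singleton] at this
    exact this
  -- the cover of `v z`
  have hcov : z ∈ G.nb x ∨ ∃ a ∈ G.N F, v ∈ G.nb a ∧ a ∈ G.nb x := by
    rcases c.covz with h | h | h
    · obtain ⟨u, h1, h2, h3, h4⟩ := h
      left
      rcases c.inV h1 h3 with h5 | h5 | h5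
      · rw [← hun u h5 h2]
        exact h4
      · rw [h5] at h4
        exact absurd h4 (G.irr _)
      · rw [h5] at h2
        exact absurd h2 hzl'
    · exfalso
      obtain ⟨a, h1, b, h2, h3, h4, h5, h6, h7⟩ := h
      have h8 := hzy a (G.sym _ _ h6) h1
      have h9 := hzy b (G.sym _ _ h7) h2
      exact h3.ne33 (h8.trans h9.symm)
    · obtain ⟨a, h1, b, h2, h3, h4, h5⟩ := h
      right
      rcases c.inV h2 h4 with h6 | h6 | h6
      · exact ⟨a, h1, h5, by
          rw [← hun b h6 h3.2.1]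
          exact G.sym _ _ (HL_b76 h3)⟩
      · exact absurd h6.symm (HL_bt76 h3).2
      · have h7 := h3.2.1
        rw [h6] at h7
        exact absurd h7 hzl'
  have hpx : 1 ≤ (G.pT F x).card := by
    rw [Nat.succ_le_iff, Finset.card_pos]
    rcases hcov with h | ⟨a, h1, -, h2⟩
    · exact ⟨z, mem_pT.2 ⟨h, c.zN⟩⟩
    · exact ⟨a, mem_pT.2 ⟨h2, h1⟩⟩
  have hpx' : (1 : ℤ) ≤ ((G.pT F x).card : ℤ) := by exact_mod_cast hpx
  by_cases h1 : (G.pT F x).card = 1
  swap
  · have h2 := g7 h1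
    linarith [g2.2]
  obtain ⟨u, hu⟩ := card_eq_one.1 h1
  by_cases hul : G.Low u
  swap
  · have h2 := g8 u (by rw [hu]; exact mem_singleton_self _) hul
    linarith [g2.2]
  have hum := mem_pT.1 (show u ∈ G.pT F x by rw [hu]; exact mem_singleton_self _)
  have hux : ∀ y, y ∈ G.nb x → y ∈ G.N F → y = u := by
    intro y h1 h2
    have : y ∈ G.pT F x := mem_pT.2 ⟨h1, h2⟩
    rw [hu, mem_singleton] at this
    exact this
  -- `u = z`
  have huz : u = z := by
    rcases hcov with h | ⟨a, h2, h3, h4⟩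
    · exact (hux z h c.zN).symm
    · have h5 := hux a h4 h2
      subst h5
      rcases c.inV h2 h3 with h6 | h6 | h6
      · exfalso
        rw [hun a h6 hul] at h4
        exact G.irr _ h4
      · exact h6
      · rw [h6] at hul
        exact absurd hul hzl'
  have h2 : G.pT F z = {x} := by
    rw [hy0, hzy x (G.sym _ _ (huz ▸ hum.1)) (c.XN x hx).1]
  have h3 := (c.gzS0 hzl hxl h2 (c.XN x hx).2.2 (by
    rintro ⟨-, h4⟩
    have h5 := c.pO_card hxl
    rw [c.dX hx] at h5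
    omega)).2 (by
    rintro ⟨-, h4⟩
    have h5 := congrArg Finset.card h4
    have h6 : (G.pX F x).card = 3 := c.dX hx
    have h7 : (G.pX F z).card = 2 := c.dz
    omega)
  linarith

/-- one low vertex in `X`, `z` and `z'` are hubs -/
theorem caseHub (c : Cx G F X l v w t z z') (hz : ¬ G.IsTw z) (hz' : ¬ G.IsTw z')
    {x : V} (hx : x ∈ X) (hxl : G.Low x) (hun : ∀ y ∈ X, G.Low y → y = x) (hzl : ¬ G.Low z)
    (hzl' : ¬ G.Low z') : 12 ≤ ∑ x ∈ G.N F, G.gam5 F x := by
  rw [c.sumN]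
  have g1 := c.gt
  have g2 := c.gz00 hz hz'
  have g3 := c.symm.gz00 hz' hz
  obtain ⟨g5, g6, g7, g8, -⟩ := c.gX1 hx hxl
  -- covers of `v z` and `v z'`
  have key : ∀ z z', Cx G F X l v w t z z' → ¬ G.IsTw z → ¬ G.IsTw z' → ¬ G.Low z →
      ¬ G.Low z' → z ∈ G.nb x ∨ ∃ a ∈ X, ∃ b ∈ X, G.Tw a b ∧ z ∈ G.nb a ∧ z ∈ G.nb b := by
    intro z z' c hz hz' hzl hzl'
    rcases c.covz with h | h | h
    · obtain ⟨u, h1, h2, h3, h4⟩ := h
      left
      rcases c.inV h1 h3 with h5 | h5 | h5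
      · rw [← hun u h5 h2]
        exact h4
      · rw [h5] at h2
        exact absurd h2 hzl
      · rw [h5] at h2
        exact absurd h2 hzl'
    · obtain ⟨a, h1, b, h2, h3, h4, h5, h6, h7⟩ := h
      right
      rcases c.inV h1 h4 with h8 | h8 | h8
      · exact ⟨a, h8, b, c.parX h8 h3, h3, h6, h7⟩
      · rw [h8] at h3
        exact absurd ⟨_, h3⟩ hz
      · rw [h8] at h3
        exact absurd ⟨_, h3⟩ hz'
    · obtain ⟨a, h1, b, h2, h3, -⟩ := h
      exact absurd (c.hF.sat _ _ _ h3) hzl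
  have kz := key z z' c hz hz' hzl hzl'
  have kz' := key z' z c.symm hz' hz hzl' hzl
  have kt : t ∈ G.nb x ∨ (∃ a ∈ X, ∃ b ∈ X, G.Tw a b ∧ t ∈ G.nb a ∧ t ∈ G.nb b) ∨
      ∃ a ∈ X, a ∈ G.nb x ∧ ¬ G.IsTw a := by
    rcases c.covt with h | h | h | h | h
    · obtain ⟨u, h1, h2, h3⟩ := h
      left
      rw [← hun u h1 h2]
      exact h3
    · exact Or.inr (Or.inl h)
    · obtain ⟨a, ha, b, hb, h1⟩ := h
      right
      right
      refine ⟨a, ha, ?_, (stTwHL_5 G).notHL c.n9 _ _ _ h1⟩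
      rw [← hun b hb h1.2.1]
      exact G.sym _ _ (HL_b76 h1)
    · exfalso
      obtain ⟨a, ha, b, hb, h4, -⟩ := h
      have hbl := h4.2.1
      rcases hb with rfl | rfl
      · exact hzl hbl
      · exact hzl' hbl
    · exfalso
      obtain ⟨a, ha, b, hb, h4⟩ := h
      have hbl := h4.2.1
      rcases hb with rfl | rfl
      · exact hzl hbl
      · exact hzl' hbl
  -- sum for `x`
  have gx2 : 2 ≤ (G.pT F x).card → 10 ≤ G.gam5 F x := by
    intro h
    have h1 : (2 : ℤ) ≤ ((G.pT F x).card : ℤ) := by exact_mod_cast h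
    have h2 := g7 (by omega)
    linarith
  have hxN := (c.XN x hx).1
  have no3 : ∀ a b d, a ∈ G.nb x → b ∈ G.nb x → d ∈ G.nb x → a ∈ G.N F → b ∈ G.N F →
      d ∈ G.N F → a ≠ b → a ≠ d → b ≠ d → False := by
    intro a b d h1 h2 h3 h4 h5 h6 h7 h8 h9
    have := three_le33 (mem_pT.2 ⟨h1, h4⟩) (mem_pT.2 ⟨h2, h5⟩) (mem_pT.2 ⟨h3, h6⟩) h7 h8 h9
    omega
  by_cases hP : ∃ a ∈ X, G.IsTw a
  · obtain ⟨a, ha, b, hab⟩ := hP
    have hb := c.parX ha hab
    have hne := hab.ne33
    have hax : a ≠ x := by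
      rintro rfl
      exact not_low33 ⟨_, hab⟩ hxl
    have hbx : b ≠ x := by
      rintro rfl
      exact not_low33 ⟨_, hab.sym33⟩ hxl
    have haN := (c.XN a ha).1
    have hbN := (c.XN b hb).1
    -- the twins of `X`
    have hXm : ∀ y ∈ X, y = a ∨ y = b ∨ y = x := by
      have h1 : ({a, b, x} : Finset V) = X := by
        apply eq_of_subset_of_card_le
        · intro y hy
          simp only [mem_insert, mem_singleton] at hy
          rcases hy with rfl | rfl | rfl
          · exact ha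
          · exact hb
          · exact hx
        · rw [c.X3, Finset.card_eq_three.2 ⟨a, b, x, hne, hax, hbx, rfl⟩]
      intro y hy
      rw [← h1] at hy
      simpa using hy
    have htwX : ∀ a' ∈ X, ∀ b' ∈ X, G.Tw a' b' → ∀ y, y ∈ G.nb a' → y ∈ G.nb b' →
        y ∈ G.nb a ∧ y ∈ G.nb b := by
      intro a' ha' b' hb' h1 y h2 h3
      rcases hXm a' ha' with rfl | rfl | rfl
      · rw [c.uniq hab h1]
        exact ⟨h2, h3⟩
      · rw [c.uniq hab.sym33 h1]
        exact ⟨h3, h2⟩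
      · exact absurd hxl (not_low33 ⟨_, h1⟩)
    have kz2 : z ∈ G.nb x ∨ z ∈ G.nb a ∧ z ∈ G.nb b := by
      rcases kz with h | ⟨a', ha', b', hb', h1, h2, h3⟩
      · exact Or.inl h
      · exact Or.inr (htwX a' ha' b' hb' h1 z h2 h3)
    have kz2' : z' ∈ G.nb x ∨ z' ∈ G.nb a ∧ z' ∈ G.nb b := by
      rcases kz' with h | ⟨a', ha', b', hb', h1, h2, h3⟩
      · exact Or.inl h
      · exact Or.inr (htwX a' ha' b' hb' h1 z' h2 h3)
    have kt2 : t ∈ G.nb x ∨ t ∈ G.nb a ∧ t ∈ G.nb b := by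
      rcases kt with h | ⟨a', ha', b', hb', h1, h2, h3⟩ | ⟨a', ha', h1, h2⟩
      · exact Or.inl h
      · exact Or.inr (htwX a' ha' b' hb' h1 t h2 h3)
      · exfalso
        rcases hXm a' ha' with rfl | rfl | rfl
        · exact h2 ⟨_, hab⟩
        · exact h2 ⟨_, hab.sym33⟩
        · exact G.irr _ h1
    obtain ⟨ga1, ga2⟩ := c.gX2 ha hab
    obtain ⟨gb1, gb2⟩ := c.gX2 hb hab.sym33
    have ga0 := c.gX0 ha
    have gb0 := c.gX0 hb
    have hs := c.sX3 ha hb hx hne hax hbx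
    have tX := c.tX
    have zX := c.zX
    have zX' := c.symm.zX
    -- the pair sees at most one of the three vertices
    have noa : ∀ p r, p ∈ G.nb a → r ∈ G.nb a → p ∈ G.N F → r ∈ G.N F → p ≠ r → p ∉ X →
        r ∉ X → False := by
      intro p r h1 h2 h3 h4 h5 h6 h7
      have := three_le33 (a := b) (b := p) (c := r) (mem_pT.2 ⟨hab.1, hbN⟩) (mem_pT.2 ⟨h1, h3⟩)
        (mem_pT.2 ⟨h2, h4⟩) (by rintro rfl; exact h6 hb) (by rintro rfl; exact h7 hb) h5
      omega
    have one : ∀ p, p ∈ G.nb a ∧ p ∈ G.nb b → p ∈ G.N F → p ∉ X →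
        1 ≤ G.gam5 F a ∧ 1 ≤ G.gam5 F b := by
      rintro p ⟨h1, h2⟩ h3 h4
      have h5 : 2 ≤ (G.pT F a).card := two_le5 (a := b) (b := p) (mem_pT.2 ⟨hab.1, hbN⟩)
        (mem_pT.2 ⟨h1, h3⟩) (by rintro rfl; exact h4 hb)
      have h6 : 2 ≤ (G.pT F b).card := two_le5 (a := a) (b := p) (mem_pT.2 ⟨hab.sym33.1, haN⟩)
        (mem_pT.2 ⟨h2, h3⟩) (by rintro rfl; exact h4 ha)
      have h7 : (2 : ℤ) ≤ ((G.pT F a).card : ℤ) := by exact_mod_cast h5
      have h8 : (2 : ℤ) ≤ ((G.pT F b).card : ℤ) := by exact_mod_cast h6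
      exact ⟨by linarith, by linarith⟩
    have two : ∀ p r, p ∈ G.nb x → r ∈ G.nb x → p ∈ G.N F → r ∈ G.N F → p ≠ r →
        10 ≤ G.gam5 F x := fun p r h1 h2 h3 h4 h5 =>
      gx2 (two_le5 (mem_pT.2 ⟨h1, h3⟩) (mem_pT.2 ⟨h2, h4⟩) h5)
    have ntz := c.tz
    have ntz' := c.symm.tz
    rcases kz2 with h1 | h1
    · rcases kz2' with h2 | h2
      · rcases kt2 with h3 | h3
        · exact absurd (no3 z z' t h1 h2 h3 c.zN c.zN' c.tN c.ne ntz.symm ntz'.symm) id
        · have k1 := two z z' h1 h2 c.zN c.zN' c.ne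
          have k2 := one t h3 c.tN tX
          linarith [k2.1, k2.2]
      · rcases kt2 with h3 | h3
        · have k1 := two z t h1 h3 c.zN c.tN ntz.symm
          have k2 := one z' h2 c.zN' zX'
          linarith [k2.1, k2.2]
        · exact absurd (noa z' t h2.1 h3.1 c.zN' c.tN ntz'.symm zX' tX) id
    · rcases kz2' with h2 | h2
      · rcases kt2 with h3 | h3
        · have k1 := two z' t h2 h3 c.zN' c.tN ntz'.symm
          have k2 := one z h1 c.zN zX
          linarith [k2.1, k2.2]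
        · exact absurd (noa z t h1.1 h3.1 c.zN c.tN ntz.symm zX tX) id
      · exact absurd (noa z z' h1.1 h2.1 c.zN c.zN' c.ne zX zX') id
  · exfalso
    have hzx : z ∈ G.nb x := by
      rcases kz with h | ⟨a, ha, b, -, h1, -⟩
      · exact h
      · exact absurd ⟨a, ha, b, h1⟩ hP
    have hzx' : z' ∈ G.nb x := by
      rcases kz' with h | ⟨a, ha, b, -, h1, -⟩
      · exact h
      · exact absurd ⟨a, ha, b, h1⟩ hP
    rcases kt with h | ⟨a, ha, b, -, h1, -⟩ | ⟨a, ha, h1, -⟩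
    · exact no3 z z' t hzx hzx' h c.zN c.zN' c.tN c.ne c.tz.symm c.symm.tz.symm
    · exact hP ⟨a, ha, b, h1⟩
    · refine no3 z z' a hzx hzx' h1 c.zN c.zN' (c.XN a ha).1 c.ne ?_ ?_
      · rintro rfl
        exact c.zX ha
      · rintro rfl
        exact c.symm.zX ha

/-- no low vertex in `X`, the hub `a` of `HL a z l` -/
theorem caseBeta (c : Cx G F X l v w t z z') (hz : ¬ G.IsTw z) (hz' : ¬ G.IsTw z')
    (hno : ∀ y ∈ X, ¬ G.Low y) {a : V} (ha : a ∈ X) (hHL : G.HL a z l) (htz : t ∈ G.nb z) :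
    12 ≤ ∑ x ∈ G.N F, G.gam5 F x := by
  rw [c.sumN]
  have g1 := c.gt
  have hzl := hHL.2.1
  obtain ⟨g2, g3⟩ := c.gz0 hz hz' hzl
  have haN := (c.XN a ha).1
  have haz : a ∈ G.nb z := G.sym _ _ (HL_b76 hHL)
  have hta : t ≠ a := by
    rintro rfl
    exact c.tX ha
  have hsX := c.sX1 ha
  have ga := c.gX0 ha
  have key : G.Low z' → 3 ≤ (G.pT F z).card →
      12 ≤ G.gam5 F t + G.gam5 F z + G.gam5 F z' + ∑ x ∈ X, G.gam5 F x := by
    intro h1 h2
    have h3 := (c.symm.gz4 hz' hz h1).2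
    have h4 : (3 : ℤ) ≤ ((G.pT F z).card : ℤ) := by exact_mod_cast h2
    linarith
  rcases c.covz with h | h | h
  · obtain ⟨u, h1, h2, h3, h4⟩ := h
    rcases c.inV h1 h3 with h5 | h5 | h5
    · exact absurd h2 (hno u h5)
    · rw [h5] at h4
      exact absurd h4 (G.irr _)
    · subst h5
      refine key h2 (three_le33 (a := a) (b := t) (c := u) (mem_pT.2 ⟨haz, haN⟩)
        (mem_pT.2 ⟨htz, c.tN⟩) (mem_pT.2 ⟨G.sym _ _ h4, h1⟩) hta.symm ?_ c.symm.tz)
      rintro rfl
      exact c.symm.zX ha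
  · exfalso
    obtain ⟨a', h1, b', h2, h3, h4, h5, h6, h7⟩ := h
    have hat : ¬ G.IsTw a := (stTwHL_5 G).notHL c.n9 _ _ _ hHL
    have h8 : 4 ≤ (G.pT F z).card := by
      refine four_le5 (a := a) (b := t) (c := a') (d := b') (mem_pT.2 ⟨haz, haN⟩)
        (mem_pT.2 ⟨htz, c.tN⟩) (mem_pT.2 ⟨G.sym _ _ h6, h1⟩) (mem_pT.2 ⟨G.sym _ _ h7, h2⟩)
        hta.symm ?_ ?_ ?_ ?_ h3.ne33
      · rintro rfl
        exact hat ⟨_, h3⟩
      · rintro rfl
        exact hat ⟨_, h3.sym33⟩
      · rintro rfl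
        exact c.tv h4
      · rintro rfl
        exact c.tv h5
    omega
  · obtain ⟨a', h1, b', h2, h3, h4, h5⟩ := h
    have hb' : b' = z' := by
      rcases c.inV h2 h4 with h6 | h6 | h6
      · exact absurd h3.2.1 (hno b' h6)
      · exact absurd h6.symm (HL_bt76 h3).2
      · exact h6
    have hza : z ∈ G.nb a' := HL_t76 h3
    have hne : a ≠ a' := by
      rintro rfl
      exact (stTwHL_5 G).nomut c.n9 _ _ _ _ _ h3 hHL rfl
    refine key (hb' ▸ h3.2.1) (three_le33 (a := a) (b := t) (c := a') (mem_pT.2 ⟨haz, haN⟩)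
      (mem_pT.2 ⟨htz, c.tN⟩) (mem_pT.2 ⟨G.sym _ _ hza, h1⟩) hta.symm hne ?_)
    rintro rfl
    exact c.tv h5

/-- no low vertex in `X`, a pair in `X` adjacent to `t` -/
theorem caseAlpha (c : Cx G F X l v w t z z') (hz : ¬ G.IsTw z) (hz' : ¬ G.IsTw z')
    (hno : ∀ y ∈ X, ¬ G.Low y) {a b : V} (ha : a ∈ X) (hb : b ∈ X) (hab : G.Tw a b)
    (hta : t ∈ G.nb a) (htb : t ∈ G.nb b) :
    12 ≤ ∑ x ∈ G.N F, G.gam5 F x := by
  rw [c.sumN]
  have g1 := c.gt
  have haN := (c.XN a ha).1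
  have hbN := (c.XN b hb).1
  obtain ⟨ga1, ga2⟩ := c.gX2 ha hab
  obtain ⟨gb1, gb2⟩ := c.gX2 hb hab.sym33
  have hs := c.sX2 ha hb hab.ne33
  have hat : t ≠ a := by
    rintro rfl
    exact c.tX ha
  have hbt : t ≠ b := by
    rintro rfl
    exact c.tX hb
  have ga3 : 1 ≤ G.gam5 F a := by
    have h5 : 2 ≤ (G.pT F a).card := two_le5 (a := b) (b := t) (mem_pT.2 ⟨hab.1, hbN⟩)
      (mem_pT.2 ⟨hta, c.tN⟩) hbt.symm
    have h7 : (2 : ℤ) ≤ ((G.pT F a).card : ℤ) := by exact_mod_cast h5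
    linarith
  have gb3 : 1 ≤ G.gam5 F b := by
    have h5 : 2 ≤ (G.pT F b).card := two_le5 (a := a) (b := t) (mem_pT.2 ⟨hab.sym33.1, haN⟩)
      (mem_pT.2 ⟨htb, c.tN⟩) hat.symm
    have h7 : (2 : ℤ) ≤ ((G.pT F b).card : ℤ) := by exact_mod_cast h5
    linarith
  -- other vertices are not adjacent to `a`, `b`
  have noa : ∀ p, p ∈ G.N F → p ∉ X → p ≠ t → p ∉ G.nb a := by
    intro p h1 h2 h3 h4
    have := three_le33 (a := b) (b := p) (c := t) (mem_pT.2 ⟨hab.1, hbN⟩) (mem_pT.2 ⟨h4, h1⟩)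
      (mem_pT.2 ⟨hta, c.tN⟩) (by rintro rfl; exact h2 hb) hbt.symm h3
    omega
  have nob : ∀ p, p ∈ G.N F → p ∉ X → p ≠ t → p ∉ G.nb b := by
    intro p h1 h2 h3 h4
    have := three_le33 (a := a) (b := p) (c := t) (mem_pT.2 ⟨hab.sym33.1, haN⟩)
      (mem_pT.2 ⟨h4, h1⟩) (mem_pT.2 ⟨htb, c.tN⟩) (by rintro rfl; exact h2 ha) hat.symm h3
    omega
  -- the covers of `v z`: the other vertex is low
  have key : ∀ z z', Cx G F X l v w t z z' → ¬ G.IsTw z → ¬ G.IsTw z' →
      G.Low z' ∧ (z ∈ G.nb z' ∨ ∃ a' ∈ G.N F, G.HL a' z' z) := by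
    intro z z' c hz hz'
    rcases c.covz with h | h | h
    · obtain ⟨u, h1, h2, h3, h4⟩ := h
      rcases c.inV h1 h3 with h5 | h5 | h5
      · exact absurd h2 (hno u h5)
      · rw [h5] at h4
        exact absurd h4 (G.irr _)
      · subst h5
        exact ⟨h2, Or.inl h4⟩
    · exfalso
      obtain ⟨a', h1, b', h2, h3, h4, h5, h6, h7⟩ := h
      have haX : a' ∈ X := by
        rcases c.inV h1 h4 with h8 | h8 | h8
        · exact h8
        · rw [h8] at h3
          exact absurd ⟨_, h3⟩ hz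
        · rw [h8] at h3
          exact absurd ⟨_, h3⟩ hz'
      have hbX := c.parX haX h3
      have hza : a' ≠ a := by
        rintro rfl
        exact noa z c.zN c.zX c.tz.symm h6
      have hzb : a' ≠ b := by
        rintro rfl
        exact nob z c.zN c.zX c.tz.symm h6
      have hza' : b' ≠ a := by
        rintro rfl
        exact noa z c.zN c.zX c.tz.symm h7
      have hzb' : b' ≠ b := by
        rintro rfl
        exact nob z c.zN c.zX c.tz.symm h7
      have h8 := four_le5 haX hbX ha hb h3.ne33 hza hzb hza' hzb' hab.ne33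
      rw [c.X3] at h8
      omega
    · obtain ⟨a', h1, b', h2, h3, h4, h5⟩ := h
      have hb' : b' = z' := by
        rcases c.inV h2 h4 with h6 | h6 | h6
        · exact absurd h3.2.1 (hno b' h6)
        · exact absurd h6.symm (HL_bt76 h3).2
        · exact h6
      subst hb'
      exact ⟨h3.2.1, Or.inr ⟨a', h1, h3⟩⟩
  obtain ⟨hzl', kz⟩ := key z z' c hz hz'
  obtain ⟨hzl, kz'⟩ := key z' z c.symm hz' hz
  obtain ⟨p1, p2⟩ := c.gz4 hz hz' hzl
  obtain ⟨p1', p2'⟩ := c.symm.gz4 hz' hz hzl'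
  have p3 := (c.gz0 hz hz' hzl).2
  have p3' := (c.symm.gz0 hz' hz hzl').2
  by_cases h1 : (G.pT F z).card = 1
  swap
  · have h2 : 2 ≤ (G.pT F z).card := by omega
    have h3 : (2 : ℤ) ≤ ((G.pT F z).card : ℤ) := by exact_mod_cast h2
    linarith
  by_cases h1' : (G.pT F z').card = 1
  swap
  · have h2 : 2 ≤ (G.pT F z').card := by omega
    have h3 : (2 : ℤ) ≤ ((G.pT F z').card : ℤ) := by exact_mod_cast h2
    linarith
  obtain ⟨y0, hy0⟩ := card_eq_one.1 h1
  obtain ⟨y1, hy1⟩ := card_eq_one.1 h1'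
  have hzy : ∀ y, y ∈ G.nb z → y ∈ G.N F → y = y0 := by
    intro y h1 h2
    have : y ∈ G.pT F z := mem_pT.2 ⟨h1, h2⟩
    rw [hy0, mem_singleton] at this
    exact this
  have hzy' : ∀ y, y ∈ G.nb z' → y ∈ G.N F → y = y1 := by
    intro y h1 h2
    have : y ∈ G.pT F z' := mem_pT.2 ⟨h1, h2⟩
    rw [hy1, mem_singleton] at this
    exact this
  by_cases hadj : z ∈ G.nb z'
  · have e0 : G.pT F z = {z'} := by
      rw [hy0, hzy z' (G.sym _ _ hadj) c.zN']
    have e1 : G.pT F z' = {z} := by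
      rw [hy1, hzy' z hadj c.zN]
    have k1 := (c.gzS0 hzl hzl' e0 c.zv' (by
      rintro ⟨-, h4⟩
      have h5 := c.pO_card hzl'
      rw [c.symm.dz] at h5
      omega)).1 e1
    have k2 := (c.symm.gzS0 hzl' hzl e1 c.zv (by
      rintro ⟨-, h4⟩
      have h5 := c.pO_card hzl
      rw [c.dz] at h5
      omega)).1 e0
    linarith
  · exfalso
    obtain ⟨a1, ha1, hL1⟩ := kz.resolve_left hadj
    obtain ⟨a2, ha2, hL2⟩ := kz'.resolve_left (fun h => hadj (G.sym _ _ h))
    have e1 := hzy a1 (G.sym _ _ (HL_t76 hL1)) ha1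
    have e2 := hzy a2 (G.sym _ _ (HL_b76 hL2)) ha2
    have e3 : a1 = a2 := e1.trans e2.symm
    subst e3
    exact (stTwHL_5 G).nomut c.n9 _ _ _ _ _ hL1 hL2 rfl

/-- all cases -/
theorem main (c : Cx G F X l v w t z z') : 12 ≤ ∑ x ∈ G.N F, G.gam5 F x := by
  by_cases hp : G.Tw z z'
  · exact c.casePair hp
  have hz : ¬ G.IsTw z := by
    rintro ⟨y, hy⟩
    rw [c.parz hy] at hy
    exact hp hy
  have hz' : ¬ G.IsTw z' := by
    rintro ⟨y, hy⟩
    rw [c.symm.parz hy] at hy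
    exact hp hy.sym33
  by_cases h1 : ∃ x ∈ X, G.Low x
  · obtain ⟨x, hx, hxl⟩ := h1
    by_cases h2 : ∃ y ∈ X, y ≠ x ∧ G.Low y
    · obtain ⟨y, hy, hne, hyl⟩ := h2
      rw [c.sumN]
      have h3 := c.sX2 hx hy hne.symm
      have h4 := (c.gX1 hx hxl).2.1
      have h5 := (c.gX1 hy hyl).2.1
      have h6 := c.gt
      have h7 := c.gz00 hz hz'
      have h8 := c.symm.gz00 hz' hz
      linarith
    have hun : ∀ y ∈ X, G.Low y → y = x := by
      intro y hy hyl
      by_contra h3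
      exact h2 ⟨y, hy, h3, hyl⟩
    by_cases hzl : G.Low z
    · by_cases hzl' : G.Low z'
      · rw [c.sumN]
        have h3 := c.sX1 hx
        have h4 := (c.gX1 hx hxl).2.1
        have h6 := c.gt
        have h7 := (c.gz4 hz hz' hzl).2
        have h8 := (c.symm.gz4 hz' hz hzl').2
        linarith
      · exact c.caseOne hz hz' hx hxl hun hzl hzl'
    · by_cases hzl' : G.Low z'
      · exact c.symm.caseOne hz' hz hx hxl hun hzl' hzl
      · exact c.caseHub hz hz' hx hxl hun hzl hzl'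
  have hno : ∀ y ∈ X, ¬ G.Low y := fun y hy h => h1 ⟨y, hy, h⟩
  rcases c.covt with h | h | h | h | h
  · obtain ⟨u, h2, h3, -⟩ := h
    exact absurd h3 (hno u h2)
  · obtain ⟨a, ha, b, hb, h2, h3, h4⟩ := h
    exact c.caseAlpha hz hz' hno ha hb h2 h3 h4
  · obtain ⟨a, ha, b, hb, h2⟩ := h
    exact absurd h2.2.1 (hno b hb)
  · obtain ⟨a, ha, b, hb, h2, h3, h4⟩ := h
    rcases hb with rfl | rfl
    · exact c.caseBeta hz hz' hno ha h2 h3
    · exact c.symm.caseBeta hz' hz hno ha h2 h3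
  · obtain ⟨a, ha, b, hb, h2⟩ := h
    exact absurd h2.1 (hno a ha)

end Cx

end G7x33

open G7x33 in
/-- G7 -/
theorem st5LQ_33 (G : CG V) (hB : G.St5B) : G.St5LQ := by
  classical
  intro F hF l v w hFe hlo htw
  have n9 : 9 ≤ Fintype.card V := by
    have := hF.n12
    omega
  have hT6 : (G.N F).card = 6 := hF.big.1.2.1
  have lF : l ∈ F := by rw [hFe]; simp
  have vF : v ∈ F := by rw [hFe]; simp
  have wF : w ∈ F := by rw [hFe]; simp
  have hFm : ∀ x ∈ F, x = l ∨ x = v ∨ x = w := by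
    intro x hx
    rw [hFe] at hx
    simpa using hx
  have notF : ∀ x ∈ G.N F, x ∉ F := fun x hx => (mem_N76.1 hx).1
  have hlv : l ≠ v := by
    rintro rfl
    exact not_low33 ⟨_, htw⟩ hlo
  have hlw : l ≠ w := by
    rintro rfl
    exact not_low33 ⟨_, htw.sym33⟩ hlo
  have hlowF : ∀ x ∈ F, G.Low x → x = l := by
    intro x hx h
    rcases hFm x hx with h1 | rfl | rfl
    · exact h1
    · exact absurd h (not_low33 ⟨_, htw⟩)
    · exact absurd h (not_low33 ⟨_, htw.sym33⟩)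
  have hwv : ∀ x ∈ G.N F, w ∈ G.nb x → v ∈ G.nb x := fun x hx h =>
    G.sym _ _ (Tw_nb5 htw.sym33 (G.sym _ _ h) (fun h1 => notF x hx (h1 ▸ vF)))
  have hvw : ∀ x ∈ G.N F, v ∈ G.nb x → w ∈ G.nb x := fun x hx h =>
    G.sym _ _ (Tw_nb5 htw (G.sym _ _ h) (fun h1 => notF x hx (h1 ▸ wF)))
  by_cases hadj : l ∈ G.nb v
  · -- the low vertex is adjacent to the pair
    have hlw' : l ∈ G.nb w := Tw_nb5 htw hadj hlw
    -- one vertex misses the pair
    have hc5 : (G.nb v ∩ G.N F).card = 5 := by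
      have h1 : (G.nb v).card = 7 := htw.2.1
      have h2 : G.nb v = insert w (insert l (G.nb v ∩ G.N F)) := by
        ext y
        constructor
        · intro hy
          rcases nbF42 vF hy with h | h
          · rcases hFm y h with h3 | h3 | h3
            · rw [h3]; exact mem_insert_of_mem (mem_insert_self _ _)
            · rw [h3] at hy
              exact absurd hy (G.irr _)
            · rw [h3]; exact mem_insert_self _ _
          · exact mem_insert_of_mem (mem_insert_of_mem (mem_inter.2 ⟨hy, h⟩))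
        · intro hy
          rcases mem_insert.1 hy with h | h
          · rw [h]; exact htw.1
          rcases mem_insert.1 h with h | h
          · rw [h]; exact hadj
          · exact (mem_inter.1 h).1
      have h3 : l ∉ G.nb v ∩ G.N F := fun h => notF l (mem_inter.1 h).2 lF
      have h4 : w ∉ insert l (G.nb v ∩ G.N F) := by
        intro h
        rcases mem_insert.1 h with h | h
        · exact hlw h.symm
        · exact notF w (mem_inter.1 h).2 wF
      rw [h2, card_insert_of_notMem h4, card_insert_of_notMem h3] at h1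
      omega
    have hc4 : (G.nb l ∩ G.N F).card = 4 := by
      have h1 : (G.nb l).card = 6 := hlo
      have h2 : G.nb l = insert w (insert v (G.nb l ∩ G.N F)) := by
        ext y
        constructor
        · intro hy
          rcases nbF42 lF hy with h | h
          · rcases hFm y h with h3 | h3 | h3
            · rw [h3] at hy
              exact absurd hy (G.irr _)
            · rw [h3]; exact mem_insert_of_mem (mem_insert_self _ _)
            · rw [h3]; exact mem_insert_self _ _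
          · exact mem_insert_of_mem (mem_insert_of_mem (mem_inter.2 ⟨hy, h⟩))
        · intro hy
          rcases mem_insert.1 hy with h | h
          · rw [h]; exact G.sym _ _ hlw'
          rcases mem_insert.1 h with h | h
          · rw [h]; exact G.sym _ _ hadj
          · exact (mem_inter.1 h).1
      have h3 : v ∉ G.nb l ∩ G.N F := fun h => notF v (mem_inter.1 h).2 vF
      have h4 : w ∉ insert v (G.nb l ∩ G.N F) := by
        intro h
        rcases mem_insert.1 h with h | h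
        · exact htw.ne33 h.symm
        · exact notF w (mem_inter.1 h).2 wF
      rw [h2, card_insert_of_notMem h4, card_insert_of_notMem h3] at h1
      omega
    have h1 : (G.N F \ G.nb v).card = 1 := by
      have h2 := card_sdiff_add_card_inter (G.N F) (G.nb v)
      rw [inter_comm] at h2
      omega
    obtain ⟨t, ht⟩ := card_eq_one.1 h1
    have ht1 : t ∈ G.N F \ G.nb v := by
      rw [ht]
      exact mem_singleton_self _
    obtain ⟨tN, tv⟩ := mem_sdiff.1 ht1
    have tv' : v ∉ G.nb t := fun h => tv (G.sym _ _ h)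
    have tl : l ∈ G.nb t := by
      obtain ⟨-, u, hu, htu⟩ := mem_N76.1 tN
      rcases hFm u hu with rfl | rfl | rfl
      · exact G.sym _ _ htu
      · exact absurd htu tv
      · exact absurd (hwv t tN (G.sym _ _ htu)) tv'
    have hnt : ∀ x ∈ G.N F, x ≠ t → v ∈ G.nb x := by
      intro x hx hne
      by_contra h
      have h2 : x ∈ G.N F \ G.nb v := mem_sdiff.2 ⟨hx, fun h3 => h (G.sym _ _ h3)⟩
      rw [ht, mem_singleton] at h2
      exact hne h2
    have h2 : (G.N F \ G.nb l).card = 2 := by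
      have h2 := card_sdiff_add_card_inter (G.N F) (G.nb l)
      rw [inter_comm] at h2
      omega
    obtain ⟨z, z', hzz, hz⟩ := card_eq_two.1 h2
    have hz1 : z ∈ G.N F \ G.nb l := by rw [hz]; simp
    have hz2 : z' ∈ G.N F \ G.nb l := by rw [hz]; simp
    obtain ⟨zN, zl⟩ := mem_sdiff.1 hz1
    obtain ⟨zN', zl'⟩ := mem_sdiff.1 hz2
    have hzt : z ≠ t := by
      rintro rfl
      exact zl (G.sym _ _ tl)
    have hzt' : z' ≠ t := by
      rintro rfl
      exact zl' (G.sym _ _ tl)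
    refine Cx.main (X := (G.nb l ∩ G.N F).erase t) (t := t) (z := z) (z' := z') (l := l) (v := v)
      (w := w) {
        hF := hF
        hB := hB
        lF := lF
        vF := vF
        wF := wF
        all := hFm
        lo := hlo
        tw := htw
        lv := hadj
        tN := tN
        tv := tv'
        tl := tl
        zN := zN
        zN' := zN'
        zl := fun h => zl (G.sym _ _ h)
        zl' := fun h => zl' (G.sym _ _ h)
        zv := hnt z zN hzt
        zv' := hnt z' zN' hzt'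
        ne := hzz
        X3 := by
          rw [card_erase_of_mem (mem_inter.2 ⟨G.sym _ _ tl, tN⟩), hc4]
        XN := fun x hx => by
          obtain ⟨h3, h4⟩ := mem_erase.1 hx
          obtain ⟨h5, h6⟩ := mem_inter.1 h4
          exact ⟨h6, G.sym _ _ h5, hnt x h6 h3⟩
        allN := fun x hx => by
          by_cases h3 : x = t
          · exact Or.inl h3
          by_cases h4 : x ∈ G.nb l
          · exact Or.inr (Or.inl (mem_erase.2 ⟨h3, mem_inter.2 ⟨h4, hx⟩⟩))
          · have h5 : x ∈ G.N F \ G.nb l := mem_sdiff.2 ⟨hx, h4⟩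
            rw [hz, mem_insert, mem_singleton] at h5
            exact Or.inr (Or.inr h5) }
  · -- not adjacent: all vertices of `N F` are adjacent to all vertices of `F`
    have hlw' : l ∉ G.nb w := fun h => hadj (Tw_nb5 htw.sym33 h hlv)
    have hl6 : G.nb l = G.N F := by
      apply eq_of_subset_of_card_le
      · intro y hy
        rcases nbF42 lF hy with h | h
        · exfalso
          rcases hFm y h with h3 | h3 | h3
          · rw [h3] at hy
            exact G.irr _ hy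
          · rw [h3] at hy
            exact hadj (G.sym _ _ hy)
          · rw [h3] at hy
            exact hlw' (G.sym _ _ hy)
        · exact h
      · rw [hT6]
        exact hlo.ge
    have hv7 : insert w (G.N F) = G.nb v := by
      symm
      apply eq_of_subset_of_card_le
      · intro y hy
        rcases nbF42 vF hy with h | h
        · rcases hFm y h with h3 | h3 | h3
          · rw [h3] at hy
            exact absurd hy hadj
          · rw [h3] at hy
            exact absurd hy (G.irr _)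
          · rw [h3]
            exact mem_insert_self _ _
        · exact mem_insert_of_mem h
      · rw [card_insert_of_notMem (fun h => notF w h wF), hT6, htw.2.1]
    have hxl : ∀ x ∈ G.N F, l ∈ G.nb x := by
      intro x hx
      rw [← hl6] at hx
      exact G.sym _ _ hx
    have hxv : ∀ x ∈ G.N F, v ∈ G.nb x := by
      intro x hx
      have h1 : x ∈ G.nb v := by
        rw [← hv7]
        exact mem_insert_of_mem hx
      exact G.sym _ _ h1
    have hd3 : ∀ x ∈ G.N F, G.d x F = 3 := by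
      intro x hx
      rw [d_full33, hF.c3]
      intro y hy
      rcases hFm y hy with rfl | rfl | rfl
      · exact hxl x hx
      · exact hxv x hx
      · exact hvw x hx (hxv x hx)
    -- partners
    have par : ∀ x ∈ G.N F, ∀ y, G.Tw x y → y ∈ G.N F := by
      intro x hx y h
      have hy : y ≠ l := by
        rintro rfl
        exact not_low33 ⟨_, h.sym33⟩ hlo
      have h1 : y ∈ G.nb l := G.sym _ _ (Tw_nb5 h (hxl x hx) hy.symm)
      rw [hl6] at h1
      exact h1
    have tcard : ∀ x ∈ G.N F, G.IsTw x → (G.tT G.Tw F x).card + 1 ≤ (G.pT F x).card := by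
      intro x hx ht
      obtain ⟨y, hy⟩ := ht
      have h1 : insert y (G.tT G.Tw F x) ⊆ G.pT F x := by
        intro u hu
        rcases mem_insert.1 hu with h2 | h2
        · rw [h2]
          exact mem_pT.2 ⟨hy.1, par x hx y hy⟩
        · exact mem_pT.2 ⟨(mem_tT30.1 h2).1, (mem_tT30.1 h2).2.1⟩
      have h2 : y ∉ G.tT G.Tw F x := fun h => (mem_tT30.1 h).2.2 hy
      have h3 := card_le_card h1
      rw [card_insert_of_notMem h2] at h3
      exact h3
    have hg0 : ∀ x ∈ G.N F, 0 ≤ G.gam5 F x := by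
      intro x hx
      by_cases hl : G.Low x
      · have := (hB.low3 F hF x hx hl (hd3 x hx)).2.1
        linarith
      by_cases ht : G.IsTw x
      · have h4 := (hB.tw F hF x hx ht).2.2
        have h5 := tcard x hx ht
        have h6 : (1 : ℤ) ≤ ((G.pT F x).card : ℤ) := by
          have : 1 ≤ (G.pT F x).card := by omega
          exact_mod_cast this
        rw [hd3 x hx] at h4
        push_cast at h4
        linarith
      · rw [hB.hub F hF x hx ⟨hl, ht⟩]
    -- weights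
    have hw : ∀ x ∈ G.N F, G.wt3 G.Tw x * ((G.tT G.Tw F x).card : ℤ) ≤
        if G.Low x then 4 else 1 := by
      intro x hx
      by_cases hl : G.Low x
      · rw [if_pos hl, wt3_low30 hl]
        have h1 := (hB.low3 F hF x hx hl (hd3 x hx)).1
        have h2 : (G.tT G.Tw F x).card ≤ (G.pT F x).card := card_le_card fun u hu =>
          mem_pT.2 ⟨(mem_tT30.1 hu).1, (mem_tT30.1 hu).2.1⟩
        have h3 : ((G.tT G.Tw F x).card : ℤ) ≤ 2 := by
          have : (G.tT G.Tw F x).card ≤ 2 := by omega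
          exact_mod_cast this
        linarith
      by_cases ht : G.IsTw x
      · rw [if_neg hl, wt3_q30 hF.qs ht]
        have h1 := (hB.tw F hF x hx ht).2.1
        have h5 := tcard x hx ht
        rw [hd3 x hx] at h1
        have h3 : ((G.tT G.Tw F x).card : ℤ) ≤ 1 := by
          have : (G.tT G.Tw F x).card ≤ 1 := by omega
          exact_mod_cast this
        linarith
      · rw [if_neg hl]
        have : G.wt3 G.Tw x = 0 := by
          unfold wt3
          rw [if_neg hl, if_neg (show ¬ IsQ G.Tw x from ht)]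
        rw [this, zero_mul]
        norm_num
    -- counting
    have hcnt := (st11Cnt_30 G G.Tw F hF (G.N F) Subset.rfl (fun x y h hx => par x hx y h) v (by
      intro y hy
      have hyv : y ∈ G.nb v := G.sym _ _ (hxv y hy)
      rcases hF.cov v vF y hy hyv with h | h | h | h | h
      · obtain ⟨u, h1, h2, h3, h4⟩ := h
        rcases mem_union.1 h1 with h5 | h5
        · rw [hlowF u h5 h2] at h3
          exact absurd (G.sym _ _ h3) hadj
        · exact Or.inl ⟨u, h5, h2, h4⟩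
      · obtain ⟨a, ha, b, hb, h1, h2, h3, h4, h5⟩ := h
        have key : ∀ a b, a ∈ F ∪ G.N F → G.Tw a b → v ∈ G.nb a → v ∈ G.nb b → a ∈ G.N F := by
          intro a b ha h1 h2 h3
          rcases mem_union.1 ha with h4 | h4
          · exfalso
            rcases hFm a h4 with rfl | rfl | rfl
            · exact not_low33 ⟨_, h1⟩ hlo
            · exact G.irr _ h2
            · rw [← (stTwHL_5 G).uniq n9 _ _ _ htw.sym33 h1] at h3
              exact G.irr _ h3
          · exact h4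
        exact Or.inr (Or.inl ⟨a, key a b ha h1 h2 h3, b, key b a hb h1.sym33 h3 h2, h1, h4, h5⟩)
      · obtain ⟨a, b, h1, h2, h3, h4 | h4⟩ := h
        · exfalso
          rw [hlowF b h4.2 h1.2.1] at h2
          exact hadj (G.sym _ _ h2)
        · exact Or.inr (Or.inr (Or.inl ⟨a, h4.1, b, h4.2, h1⟩))
      · obtain ⟨a, b, h1, -⟩ := h
        exact absurd (hF.sat _ _ _ h1) (not_low33 ⟨_, htw⟩)
      · obtain ⟨a, b, h1, -⟩ := h
        exact absurd ⟨_, htw⟩ ((stTwHL_5 G).twLL _ _ _ _ h1).1)).1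
    rw [hT6] at hcnt
    have h1 := hcnt.trans (sum_le_sum hw)
    have h2 : ∑ x ∈ G.N F, (if G.Low x then (4 : ℤ) else 1) =
        3 * (((G.N F).filter fun x => G.Low x).card : ℤ) + 6 := by
      have h3 : ∀ x ∈ G.N F, (if G.Low x then (4 : ℤ) else 1) =
          (if G.Low x then (3 : ℤ) else 0) + 1 := by
        intro x _
        split_ifs <;> norm_num
      rw [sum_congr rfl h3, sum_add_distrib, ← sum_filter, sum_const, sum_const, hT6]
      simp only [nsmul_eq_mul]
      push_cast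
      ring
    rw [h2] at h1
    have h3 : 1 < ((G.N F).filter fun x => G.Low x).card := by
      push_cast at h1
      have : (1 : ℤ) < (((G.N F).filter fun x => G.Low x).card : ℤ) := by linarith
      exact_mod_cast this
    obtain ⟨x, hx, y, hy, hne⟩ := one_lt_card.1 h3
    rw [mem_filter] at hx hy
    have h4 := two_terms30 (f := fun x => G.gam5 F x) hg0 hx.1 hy.1 hne
    have h5 := (hB.low3 F hF x hx.1 hx.2 (hd3 x hx.1)).2.1
    have h6 := (hB.low3 F hF y hy.1 hy.2 (hd3 y hy.1)).2.1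
    linarith

end CG

end Pool.Agent.Lib.MP_e95c01_co.N
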