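import Pool.Agent.Lib.MP_e95c01_co.X.StmtsF76
import Pool.Agent.Lib.MP_e95c01_co.T.F10_76
import Pool.Agent.Lib.MP_e95c01_co.T.F3_33

/-!
# G8: fragments with three vertices, assembly
-/

namespace Pool.Agent.Lib.MP_e95c01_co.N

open Finset

variable {V : Type} [Fintype V] [DecidableEq V]

namespace CG

variable (G : CG V)

theorem stF5_76 (h0 : G.St5F) (h2 : G.St5LLL) (h3 : G.St5LLH) (h4 : G.St5LHH) (h5 : G.St5HHH)
    (h6 : G.St5HQ) (h7 : G.St5LQ) : G.StF5 := by
  classical
  intro hs F hb hc hcov
  have hF := h0.sit hs F hb hc hcov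
  have hP := h0.P F hb hc
  have n9 := F3s_n9_76 hF
  have hB := G.stBas_33 G.Tw
  have hTw := stTwHL_5 G
  -- the partner of a twin vertex of `F`
  have hpart : ∀ v w, G.Tw v w → v ∈ F → w ∈ F := by
    intro v w hvw hv
    by_contra hw
    have hwN : w ∈ G.N F := mem_N76.2 ⟨hw, v, hv, hvw.1⟩
    have h5 := hB.out F hF w hwN
    rw [d, Nat.succ_le_iff, Finset.card_pos] at h5
    obtain ⟨x, hx⟩ := h5
    obtain ⟨hx1, hx2⟩ := mem_inter.1 hx
    obtain ⟨hx3, hx4⟩ := mem_Co76.1 hx2
    have hxv : x ≠ v := by
      rintro rfl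
      exact hx3 hv
    have h6 : x ∈ G.nb v := Tw_nb5 (hTw.symm _ _ hvw) hx1 hxv
    exact hx4 (mem_N76.2 ⟨hx3, v, hv, h6⟩)
  by_cases hQ : ∃ v ∈ F, G.IsTw v
  · obtain ⟨v, hv, w, hvw⟩ := hQ
    have hw := hpart v w hvw hv
    have hne : v ≠ w := ne_of_nb5 hvw.1
    have hcard : ((F.erase v).erase w).card = 1 := by
      rw [Finset.card_erase_of_mem (mem_erase.2 ⟨hne.symm, hw⟩), Finset.card_erase_of_mem hv, hc]
    obtain ⟨z, hz⟩ := Finset.card_eq_one.1 hcard
    have hz1 : z ∈ (F.erase v).erase w := by rw [hz]; exact mem_singleton_self _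
    have hzw : z ≠ w := (mem_erase.1 hz1).1
    have hzv : z ≠ v := (mem_erase.1 (mem_erase.1 hz1).2).1
    have hzF : z ∈ F := (mem_erase.1 (mem_erase.1 hz1).2).2
    have hFe : F = {z, v, w} := by
      ext x
      constructor
      · intro hx
        by_cases hxv : x = v
        · rw [hxv]; simp
        by_cases hxw : x = w
        · rw [hxw]; simp
        have : x ∈ (F.erase v).erase w := mem_erase.2 ⟨hxw, mem_erase.2 ⟨hxv, hx⟩⟩
        rw [hz] at this
        rw [mem_singleton.1 this]; simp
      · intro hx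
        simp only [mem_insert, mem_singleton] at hx
        rcases hx with h | h | h <;> rw [h] <;> assumption
    by_cases hl : G.Low z
    · have h10 := h7 F hF z v w hFe hl hvw
      have : (1 : ℤ) ≤ (G.l F : ℤ) := by exact_mod_cast l_one76 hzF hl
      linarith
    · have hzt : ¬ G.IsTw z := by
        rintro ⟨z', hzz'⟩
        have h10 := hpart _ _ hzz' hzF
        have h11 : z' = z ∨ z' = v ∨ z' = w := by
          rw [hFe] at h10
          simpa using h10
        rcases h11 with h | h | h
        · exact ne_of_nb5 hzz'.1 h.symm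
        · rw [h] at hzz'
          exact hzw (hTw.uniq n9 _ _ _ (hTw.symm _ _ hzz') hvw)
        · rw [h] at hzz'
          exact hzv (hTw.uniq n9 _ _ _ (hTw.symm _ _ hzz') (hTw.symm _ _ hvw))
      have h10 := h6 F hF z v w hFe ⟨hl, hzt⟩ hvw
      have hl0 : (0 : ℤ) ≤ (G.l F : ℤ) := Int.natCast_nonneg _
      linarith
  · have hQ' : ∀ v ∈ F, ¬ G.IsTw v := fun v hv h => hQ ⟨v, hv, h⟩
    by_cases hL : ∃ u ∈ F, G.Low u
    · obtain ⟨u, hu, hul⟩ := hL
      have hcard : (F.erase u).card = 2 := by
        rw [Finset.card_erase_of_mem hu, hc]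
      obtain ⟨z, z', hzz', hz⟩ := Finset.card_eq_two.1 hcard
      have hz1 : z ∈ F.erase u := by rw [hz]; simp
      have hz1' : z' ∈ F.erase u := by rw [hz]; simp
      have hFe : F = {u, z, z'} := by
        rw [← Finset.insert_erase hu, hz]
      by_cases h10 : G.Low z
      · by_cases h11 : G.Low z'
        · have h12 := h2 F hF (by
            intro x hx
            rw [hFe] at hx
            simp only [mem_insert, mem_singleton] at hx
            rcases hx with h | h | h <;> rw [h] <;> assumption)
          have h13 : (3 : ℤ) ≤ (G.l F : ℤ) := by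
            have : G.l F = 3 := by
              rw [l, Finset.filter_true_of_mem, hc]
              intro x hx
              rw [hFe] at hx
              simp only [mem_insert, mem_singleton] at hx
              rcases hx with h | h | h <;> rw [h] <;> assumption
            rw [this]; norm_num
          linarith
        · have h12 := h3 F hF u z z' hFe (mem_erase.1 hz1).1.symm hul h10
            ⟨h11, hQ' z' (mem_erase.1 hz1').2⟩
          have : (2 : ℤ) ≤ (G.l F : ℤ) := by
            exact_mod_cast l_two76 hu hul (mem_erase.1 hz1).2 h10 (mem_erase.1 hz1).1.symm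
          linarith
      · by_cases h11 : G.Low z'
        · have hFe' : F = {u, z', z} := by
            rw [hFe]; ext x; simp only [mem_insert, mem_singleton]; tauto
          have h12 := h3 F hF u z' z hFe' (mem_erase.1 hz1').1.symm hul h11
            ⟨h10, hQ' z (mem_erase.1 hz1).2⟩
          have : (2 : ℤ) ≤ (G.l F : ℤ) := by
            exact_mod_cast l_two76 hu hul (mem_erase.1 hz1').2 h11 (mem_erase.1 hz1').1.symm
          linarith
        · have h12 := h4 F hF u z z' hFe hzz' hul ⟨h10, hQ' z (mem_erase.1 hz1).2⟩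
            ⟨h11, hQ' z' (mem_erase.1 hz1').2⟩
          have : (1 : ℤ) ≤ (G.l F : ℤ) := by exact_mod_cast l_one76 hu hul
          linarith
    · have h12 := h5 F hF (fun z hz => ⟨fun h => hL ⟨z, hz, h⟩, hQ' z hz⟩)
      have hl0 : (0 : ℤ) ≤ (G.l F : ℤ) := Int.natCast_nonneg _
      linarith

end CG

end Pool.Agent.Lib.MP_e95c01_co.N
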