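import Pool.Agent.Lib.MP_e95c01_co.X.StmtsH76
import Pool.Agent.Lib.MP_e95c01_co.T.F1_42
import Pool.Agent.Lib.MP_e95c01_co.T.F3_33

/-!
# `λ = 3`, leaves with at least four vertices: the situation and the basic facts (H0a)
-/

namespace Pool.Agent.Lib.MP_e95c01_co.N

open Finset

variable {V : Type} [Fintype V] [DecidableEq V]

namespace CG

variable {G : CG V} {F Z : Finset V}

theorem outq11 (hF : G.Big F) {a : V} (ha : a ∈ G.N F) (ht : G.IsTw a) :
    2 ≤ G.d a (G.Co F) := by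
  have hco := G.stCo_37 F hF.1
  have hr : G.Reg {G.Co F} := by
    refine ⟨fun B hB => ?_, fun B hB B' hB' hne => ?_⟩
    · rw [mem_singleton] at hB
      rw [hB]
      exact hco.1
    · rw [mem_singleton] at hB hB'
      exact absurd (hB.trans hB'.symm) hne
  have hbig : ∀ B ∈ ({G.Co F} : Finset (Finset V)), 3 ≤ B.card := by
    intro B hB
    rw [mem_singleton] at hB
    rw [hB]
    exact hF.2.2
  have hR : a ∈ R ({G.Co F} : Finset (Finset V)) := by
    rw [mem_R76]
    intro B hB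
    rw [mem_singleton] at hB
    rw [hB]
    intro h1
    exact (mem_Co76.1 h1).2 ha
  have hI : G.Co F ∈ G.I {G.Co F} a := by
    rw [mem_I76]
    refine ⟨mem_singleton_self _, ?_⟩
    rw [hco.2.1]
    exact ha
  exact hid_5 hr hbig hR ht hI

/-- the complement does not shrink -/
theorem Co_sub11 {S : Finset V} (hS : S ⊆ F) : G.Co F ⊆ G.Co S := by
  intro c hc
  obtain ⟨h1, h2⟩ := mem_Co76.1 hc
  refine mem_Co76.2 ⟨fun h => h1 (hS h), fun h => ?_⟩
  obtain ⟨-, y, hy, hyc⟩ := mem_N76.1 h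
  exact h2 (mem_N76.2 ⟨h1, y, hS hy, hyc⟩)

/-- the leaf property gives two neighbours in `F` -/
theorem pos11 (hF : G.Big F) (h4 : 4 ≤ F.card) (hl : ∀ B, G.Big B → ¬ B ⊂ F) {a : V}
    (ha : a ∈ G.N F) : 2 ≤ G.d a F := by
  have h1 := d_pos76 ha
  by_contra hc
  have h2 : (G.nb a ∩ F).card = 1 := by
    have : G.d a F = 1 := by omega
    exact this
  obtain ⟨z, hz⟩ := card_eq_one.1 h2
  obtain ⟨h3, h5⟩ := frag33 hF.1 (by omega) ha hz
  have hzF : z ∈ F := by
    have : z ∈ G.nb a ∩ F := by rw [hz]; exact mem_singleton_self _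
    exact (mem_inter.1 this).2
  refine hl (F.erase z) ⟨h3, ?_, ?_⟩ (erase_ssubset hzF)
  · rw [card_erase_of_mem hzF]
    omega
  · exact hF.2.2.trans (card_le_card (Co_sub11 (erase_subset _ _)))

theorem n12_11 (hF : G.Big F) : 12 ≤ Fintype.card V := by
  have n9 := big_n9_42 hF
  have h1 : (F ∪ G.N F).card = F.card + (G.N F).card := by
    apply card_union_of_disjoint
    rw [N]
    exact disjoint_sdiff
  have h2 : (G.Co F).card = Fintype.card V - (F ∪ G.N F).card := by
    rw [Co, card_compl]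
  have h4 := hF.1.2.1
  have h5 := hF.2.1
  have h6 := hF.2.2
  omega

/-- H0a, first part -/
theorem stLSit_11 (G : CG V) : G.StLSit := by
  intro hsat F hF h4 hlf hc
  refine ⟨hsat, hF, h4, n12_11 hF, hlf, ?_⟩
  intro z hz y hy hyz
  have hyC : y ∉ G.Co F := by
    intro h
    rcases mem_union.1 hy with h1 | h1
    · exact (mem_Co76.1 h).1 h1
    · exact (mem_Co76.1 h).2 h1
  obtain ⟨E, hE, hE2, hzE, hyE⟩ := hc z hz y hyz
  have hzy : z ≠ y := ne_of_nb5 hyz
  have inU : ∀ w, z ∈ G.nb w → w ∈ F ∪ G.N F := by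
    intro w hw
    exact mem_union.2 (nbF42 hz (G.sym _ _ hw))
  have one : ∀ a ∈ G.N F, G.nb a ∩ F ≠ {z} := by
    intro a ha h
    have h1 := pos11 hF h4 hlf ha
    have h2 : G.d a F = 1 := by
      rw [d, h, card_singleton]
    omega
  rcases G.stSmall_76 E hE hE2 z y hzE hyE hzy with ⟨w, -, h1, h2, h3'⟩ |
    ⟨v, -, w, -, h1, h2, h3', h4, h5⟩ | ⟨a, -, b, -, h1, h2, h3'⟩ |
    ⟨a, -, b, -, h1, h2, h3'⟩ | ⟨a, -, b, -, h1⟩
  · exact Or.inl ⟨w, inU w h2, h1, h2, h3'⟩
  · have hzw : z ∈ G.nb w := Tw_nb5 h1 h2 h4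
    exact Or.inr (Or.inl ⟨v, inU v h2, w, inU w hzw, h1, h2, hzw, h3', Tw_nb5 h1 h3' h5⟩)
  · -- HL a b z
    have hya : y ∈ G.nb a := HL_sub76 h1 h2 h3'
    have hza : z ∈ G.nb a := HL_t76 h1
    refine Or.inr (Or.inr (Or.inr (Or.inl ⟨a, b, h1, h2, hya, ?_⟩)))
    rcases nbF42 hz (G.sym _ _ hza) with ha | ha
    · left
      refine ⟨ha, ?_⟩
      rcases nbF42 ha (HL_b76 h1) with hb | hb
      · exact hb
      · exfalso
        obtain ⟨c, hc1, hc2⟩ := toCo42 hF.1 hb
        have hca : c ≠ a := by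
          rintro rfl
          exact (mem_Co76.1 hc1).1 ha
        exact noed42 ha hc1 (HL_sub76 h1 hc2 hca)
    · right
      rcases tri42 G F b with hb | hb | hb
      · exfalso
        obtain ⟨c, hc1, hc2⟩ := toCo42 hF.1 ha
        have hcz : c ≠ z := by
          rintro rfl
          exact (mem_Co76.1 hc1).1 hz
        rcases HL_sup76 h1 hc2 hcz with h6 | h6
        · subst h6
          exact (mem_Co76.1 hc1).1 hb
        · exact noed42 hb hc1 h6
      · exact ⟨ha, hb⟩
      · exfalso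
        refine one a ha ?_
        ext x
        rw [mem_inter, mem_singleton]
        constructor
        · rintro ⟨h6, h7⟩
          by_contra hxz
          rcases HL_sup76 h1 h6 hxz with h8 | h8
          · subst h8
            exact (mem_Co76.1 hb).1 h7
          · exact noed42 h7 hb (G.sym _ _ h8)
        · rintro rfl
          exact ⟨hza, hz⟩
  · -- HL a b y
    have hza : z ∈ G.nb a := HL_sub76 h1 h2 h3'
    have hya : y ∈ G.nb a := HL_t76 h1
    refine Or.inr (Or.inr (Or.inl ⟨a, b, h1, h2, hza, ?_⟩))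
    have hbU := nbF42 hz (G.sym _ _ h2)
    rcases nbF42 hz (G.sym _ _ hza) with ha | ha
    · left
      refine ⟨ha, ?_⟩
      rcases hbU with hb | hb
      · exact hb
      · exfalso
        obtain ⟨c, hc1, hc2⟩ := toCo42 hF.1 hb
        have hca : c ≠ a := by
          rintro rfl
          exact (mem_Co76.1 hc1).1 ha
        exact noed42 ha hc1 (HL_sub76 h1 hc2 hca)
    · right
      refine ⟨ha, ?_⟩
      rcases hbU with hb | hb
      · exfalso
        obtain ⟨c, hc1, hc2⟩ := toCo42 hF.1 ha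
        have hcy : c ≠ y := by
          rintro rfl
          exact hyC hc1
        rcases HL_sup76 h1 hc2 hcy with h6 | h6
        · subst h6
          exact (mem_Co76.1 hc1).1 hb
        · exact noed42 hb hc1 h6
      · exact hb
  · -- LL a b z y
    have hza : z ∈ G.nb a := LL_t76 h1
    refine Or.inr (Or.inr (Or.inr (Or.inr ⟨a, b, h1, ?_⟩)))
    rcases nbF42 hz (G.sym _ _ hza) with ha | ha
    · left
      refine ⟨ha, ?_⟩
      rcases nbF42 ha (LL_ab76 h1) with hb | hb
      · exact hb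
      · exfalso
        obtain ⟨c, hc1, hc2⟩ := toCo42 hF.1 hb
        have hcy : c ≠ y := by
          rintro rfl
          exact hyC hc1
        rcases LL_from76 h1 hc2 hcy with h6 | h6
        · subst h6
          exact (mem_Co76.1 hc1).1 ha
        · exact noed42 ha hc1 h6
    · right
      refine ⟨ha, ?_⟩
      rcases tri42 G F b with hb | hb | hb
      · exfalso
        obtain ⟨c, hc1, hc2⟩ := toCo42 hF.1 ha
        have hcz : c ≠ z := by
          rintro rfl
          exact (mem_Co76.1 hc1).1 hz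
        rcases LL_to76 h1 hc2 hcz with h6 | h6
        · subst h6
          exact (mem_Co76.1 hc1).1 hb
        · exact noed42 hb hc1 h6
      · exact hb
      · exfalso
        refine one a ha ?_
        ext x
        rw [mem_inter, mem_singleton]
        constructor
        · rintro ⟨h6, h7⟩
          by_contra hxz
          rcases LL_to76 h1 h6 hxz with h8 | h8
          · subst h8
            exact (mem_Co76.1 hb).1 h7
          · exact noed42 h7 hb (G.sym _ _ h8)
        · rintro rfl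
          exact ⟨hza, hz⟩

theorem twT11 (h : G.Lf F) {v w : V} (ht : G.Tw v w) (hv : v ∈ G.N F) : w ∈ G.N F := by
  obtain ⟨-, u, hu, hvu⟩ := mem_N76.1 hv
  obtain ⟨c, hc1, hc2⟩ := toCo42 h.big.1 hv
  have hw : w ∉ F := by
    intro hw
    have hcw : c ≠ w := by
      rintro rfl
      exact (mem_Co76.1 hc1).1 hw
    exact noed42 hw hc1 (ht.nb33 hc2 hcw)
  have huw : u ≠ w := by
    rintro rfl
    exact hw hu
  have h1 : u ∈ G.nb w := ht.nb33 (G.sym _ _ hvu) huw
  exact mem_N76.2 ⟨hw, u, hu, G.sym _ _ h1⟩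

theorem exp11 (h : G.Lf F) (hZ : Z ⊆ G.N F) (hZn : Z.Nonempty) (hR : (G.FZ F Z).Nonempty) :
    Z.card ≤ (G.N Z ∩ F).card ∧ (Z.card = (G.N Z ∩ F).card →
      (G.FZ F Z).card ≤ 2 ∧ G.Frag (G.FZ F Z) ∧ G.N (G.FZ F Z) = (G.N F \ Z) ∪ (G.N Z ∩ F)) := by
  have hsub : G.N (G.FZ F Z) ⊆ (G.N F \ Z) ∪ (G.N Z ∩ F) := by
    intro y hy
    obtain ⟨h1, x, hx, hxy⟩ := mem_N76.1 hy
    rw [FZ, mem_sdiff] at hx
    by_cases hyF : y ∈ F
    · refine mem_union_right _ (mem_inter.2 ⟨?_, hyF⟩)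
      by_contra h2
      exact h1 (mem_sdiff.2 ⟨hyF, h2⟩)
    · refine mem_union_left _ (mem_sdiff.2 ⟨mem_N76.2 ⟨hyF, x, hx.1, hxy⟩, ?_⟩)
      intro hyZ
      refine hx.2 (mem_N76.2 ⟨?_, y, hyZ, G.sym _ _ hxy⟩)
      intro hxZ
      exact (mem_N76.1 (hZ hxZ)).1 hx.1
  have hCo : (G.Co (G.FZ F Z)).Nonempty := by
    obtain ⟨c, hc⟩ := h.big.1.2.2
    exact ⟨c, Co_sub11 sdiff_subset hc⟩
  have h6 := G.stN6_37 _ hR hCo
  have hc1 : (G.N F \ Z).card = 6 - Z.card := by
    rw [card_sdiff_of_subset hZ, h.big.1.2.1]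
  have hZ6 : Z.card ≤ 6 := by
    have := card_le_card hZ
    rw [h.big.1.2.1] at this
    exact this
  have hle := card_le_card hsub
  have hun := card_union_le (G.N F \ Z) (G.N Z ∩ F)
  refine ⟨by omega, fun he => ?_⟩
  have h6' : (G.N (G.FZ F Z)).card = 6 := by omega
  have hfr : G.Frag (G.FZ F Z) := ⟨hR, h6', hCo⟩
  have hN : G.N (G.FZ F Z) = (G.N F \ Z) ∪ (G.N Z ∩ F) :=
    eq_of_subset_of_card_le hsub (by omega)
  refine ⟨?_, hfr, hN⟩
  by_contra hc
  have hz1 : 1 ≤ Z.card := hZn.card_pos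
  refine h.leaf (G.FZ F Z) ⟨hfr, by omega, ?_⟩ ?_
  · exact h.big.2.2.trans (card_le_card (Co_sub11 sdiff_subset))
  · rw [ssubset_iff_subset_ne]
    refine ⟨sdiff_subset, fun h1 => ?_⟩
    have h2 : 0 < (G.N Z ∩ F).card := by omega
    obtain ⟨x, hx⟩ := card_pos.1 h2
    rw [mem_inter] at hx
    have h3 := hx.2
    rw [← h1, FZ, mem_sdiff] at h3
    exact h3.2 hx.1

/-- H0a, second part -/
theorem stLBas_11 (G : CG V) : G.StLBas where
  pos F h a ha := pos11 h.big h.c4 h.leaf ha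
  out F h a ha := d_Co_pos76 h.big.1 ha
  outq F h a ha ht := outq11 h.big ha ht
  inn F h x hx := by
    by_contra hc
    have h0 : G.d x F = 0 := by omega
    have hz : ∀ y ∈ F, y ∉ G.nb x := fun y hy => of_zero33 h0 hy
    have hsub : G.N (F.erase x) ⊆ G.N F := by
      intro y hy
      obtain ⟨h1, w, hw, hyw⟩ := mem_N76.1 hy
      rw [mem_erase] at hw
      have hyx : y ≠ x := by
        rintro rfl
        exact hz w hw.2 (G.sym _ _ hyw)
      exact mem_N76.2 ⟨fun h2 => h1 (mem_erase.2 ⟨hyx, h2⟩), w, hw.2, hyw⟩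
    have h4 := h.c4
    have hne : (F.erase x).Nonempty := by
      rw [← card_pos, card_erase_of_mem hx]
      omega
    have hCo : (G.Co (F.erase x)).Nonempty := by
      obtain ⟨c, hc⟩ := h.big.1.2.2
      exact ⟨c, Co_sub11 (erase_subset _ _) hc⟩
    have h6 := G.stN6_37 _ hne hCo
    have h7 := card_le_card hsub
    rw [h.big.1.2.1] at h7
    refine h.leaf (F.erase x) ⟨⟨hne, by omega, hCo⟩, ?_, ?_⟩ (erase_ssubset hx)
    · rw [card_erase_of_mem hx]
      omega
    · exact h.big.2.2.trans (card_le_card (Co_sub11 (erase_subset _ _)))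
  deg F h x hx := by
    have h1 : G.nb x = (G.nb x ∩ F) ∪ (G.Tz F x) := by
      ext y
      rw [mem_union, mem_inter, Tz, mem_inter]
      constructor
      · intro hy
        rcases nbF42 hx hy with h2 | h2
        · exact Or.inl ⟨hy, h2⟩
        · exact Or.inr ⟨hy, h2⟩
      · rintro (h2 | h2)
        · exact h2.1
        · exact h2.1
    have h2 : Disjoint (G.nb x ∩ F) (G.Tz F x) := by
      rw [Finset.disjoint_left]
      intro y hy hy'
      exact (mem_N76.1 (mem_inter.1 hy').2).1 (mem_inter.1 hy).2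
    calc (G.nb x).card = ((G.nb x ∩ F) ∪ (G.Tz F x)).card := by rw [← h1]
      _ = (G.nb x ∩ F).card + (G.Tz F x).card := card_union_of_disjoint h2
  twT F h v w ht := by
    refine ⟨fun hv => twT11 h ht hv, fun hv => ?_⟩
    rcases nbF42 hv ht.1 with h1 | h1
    · exact h1
    · exact absurd hv (mem_N76.1 (twT11 h ht.sym33 h1)).1
  exp F h Z hZ hZn hR := exp11 h hZ hZn hR
  two F h Z hZ hZn he x y hxy hFZ hlx := by
    have hR : (G.FZ F Z).Nonempty := by
      rw [hFZ]
      exact ⟨x, mem_insert_self _ _⟩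
    obtain ⟨-, hfr, hN⟩ := (exp11 h hZ hZn hR).2 he
    rw [hFZ] at hfr hN
    have key : (∀ u, u ∈ G.nb x ↔ u = y ∨ u ∈ G.N {x, y}) →
        y ∈ G.nb x ∧ G.N F \ Z ⊆ G.nb x ∧ G.N Z ∩ F ⊆ G.nb x := by
      intro hx
      refine ⟨(hx y).2 (Or.inl rfl), fun u hu => (hx u).2 (Or.inr ?_), fun u hu =>
        (hx u).2 (Or.inr ?_)⟩
      · rw [hN]
        exact mem_union_left _ hu
      · rw [hN]
        exact mem_union_right _ hu
    rcases two33 hxy hfr with ⟨h1, -⟩ | ⟨h1, h2, -⟩ | ⟨t, ht, h1, h2, -⟩ | ⟨t, -, h1, -⟩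
    · exact absurd h1 hlx
    · obtain ⟨k1, k2, k3⟩ := key h2
      exact ⟨k1, k2, k3, Or.inl h1⟩
    · obtain ⟨k1, k2, k3⟩ := key h2
      rw [hN] at ht
      exact ⟨k1, k2, k3, Or.inr ⟨h1.2.1, t, ht, h1⟩⟩
    · exact absurd h1.2.1 hlx

end CG

end Pool.Agent.Lib.MP_e95c01_co.N
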