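import Pool.Agent.Lib.MP_e95c01_co.X.Defs76

/-!
# Thin torsos: statements

`A`, `B` opposite fragments, `K0 A B = N A \ N B`, `K0 B A = N B \ N A`, `Cc A B = N A ∩ N B`.
-/

namespace Pool.Agent.Lib.MP_e95c01_co.N

open Finset

variable {V : Type} [Fintype V] [DecidableEq V] (G : CG V)

namespace CG

/-- vertices of `N A` outside of `N B` -/
def K0 (A B : Finset V) : Finset V := G.N A \ G.N B

/-- common vertices of the neighbourhoods -/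
def Cc (A B : Finset V) : Finset V := G.N A ∩ G.N B

/-- flags of `z` at `A` in the balance -/
noncomputable def phi (A : Finset V) (z : V) : ℤ := G.flv (G.Co A) z - G.flv A z

/-- flags of a common vertex -/
noncomputable def ps5 (A B : Finset V) (z : V) : ℤ := G.phi A z + G.phi B z

/-- balance of a vertex of `K0 A B` without flags -/
noncomputable def B5 (A : Finset V) (x : V) : ℤ :=
  G.a5 x + G.c5 x * ((G.d x (G.Co A) : ℤ) - (G.d x A : ℤ))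

/-- a common vertex with a neighbour in `K0 A B` or in `K0 B A` -/
def Tch (A B : Finset V) (c : V) : Prop :=
  c ∈ G.Cc A B ∧ (G.nb c ∩ (G.K0 A B ∪ G.K0 B A)).Nonempty

open Classical in
/-- flags of `c` and of the vertex that is paid by `c` -/
noncomputable def e5 (A B : Finset V) (c : V) : ℤ :=
  G.ps5 A B c + ∑ z ∈ (G.Cc A B).filter (fun z => ¬ G.Tch A B z ∧ G.nb z ∩ G.Cc A B = {c}),
    min (G.ps5 A B z) 0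

open Classical in
/-- balance of the touched vertex `c` -/
noncomputable def net5 (A B : Finset V) (c : V) : ℤ :=
  G.c5 c * ((G.nb c ∩ (G.K0 A B ∪ G.K0 B A)).card : ℤ) + G.e5 A B c

/-- the kinds of a cost of the low common vertex `c` at `A` -/
def KA (A B : Finset V) (c : V) : Prop :=
  (G.nb c ∩ G.K0 A B = ∅ ∧ (G.nb c ∩ G.K0 B A).Nonempty ∧ (G.nb c ∩ G.Cc A B).Nonempty) ∨
  (G.nb c ∩ G.Cc A B = ∅ ∧
    ((∃ x ∈ G.K0 A B, G.Low x ∧ G.nb c ∩ G.K0 A B = {x} ∧ (G.pX A c).card = 2 ∧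
        (G.pO A c).card = 3 ∧ ¬ (G.pT A x = {c} ∧ (G.pO A x).card = 1)) ∨
      (G.PairSet (G.nb c ∩ G.K0 A B) ∧ (G.pX A c).card = 3 ∧ (G.pO A c).card = 1) ∨
      (∃ Q Q', G.Tw Q Q' ∧ G.nb c ∩ G.K0 A B = {Q, Q'} ∧ (G.pX A c).card = 2 ∧
        (G.pO A c).card = 2 ∧ G.pT A Q = {Q', c} ∧ (G.pO A Q).card = 2) ∨
      (∃ a ∈ G.K0 A B, ∃ b ∈ G.K0 A B, G.HL a b c ∧ G.nb c ∩ G.K0 A B = {a} ∧
        (G.pX A c).card = 1 ∧ (G.pO A c).card = 4)))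

/-- a vertex of `K0 A B` that is neither low nor a twin and has no low neighbour in `K0 A B` -/
def Pl (A B : Finset V) (x : V) : Prop :=
  x ∈ G.K0 A B ∧ G.Hub x ∧ ∀ b ∈ G.K0 A B, G.Low b → b ∉ G.nb x

/-- the low vertex `c` has a free unit for `x ∈ K0 A B` -/
def Gd (A B : Finset V) (c x : V) : Prop :=
  G.Pl A B x ∧ G.Tch A B c ∧ G.Low c ∧ x ∈ G.nb c ∧
    ((G.nb c ∩ G.K0 B A).Nonempty ∨
      (∃ a ∈ G.Cc A B, ∃ t ∈ G.K0 B A, G.HL a c t) ∨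
      (∃ v ∈ G.Cc A B, ∃ y ∈ G.K0 B A, G.LL c v x y))

/-- three mutually adjacent pairs, or two of them and a third one in the neighbourhood -/
def Ex5 (F : Finset V) : Prop :=
  (∀ x ∈ F, G.IsTw x) ∧ (∀ x ∈ F, ∀ y ∈ F, x ≠ y → y ∈ G.nb x) ∧
    (F.card = 6 ∨ (F.card = 4 ∧ ∃ q q', G.Tw q q' ∧ q ∈ G.N F ∧ q' ∈ G.N F ∧ F ⊆ G.nb q))

/-- expansion of `K0 A B` in `K0 B A` -/
structure Exps (A B : Finset V) : Prop where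
  one : ∀ x ∈ G.K0 A B, 2 ≤ (G.nb x ∩ G.K0 B A).card
  two : 3 ≤ (G.K0 A B).card → ∀ x ∈ G.K0 A B, ∀ x' ∈ G.K0 A B, x ≠ x' →
    G.K0 B A ⊆ G.nb x ∪ G.nb x'

/-- context for strips with at least two vertices on each side -/
structure Sx (A B : Finset V) : Prop where
  st : G.Strip A B
  cov : G.CovU {A, B}
  e1 : G.Exps A B
  e2 : G.Exps B A

/-! ## Statements -/

/-- S0: types of the flags -/
structure StTy5 : Prop where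
  s1 : ∀ S z, 0 ≤ G.s5 S z ∧ G.s5 S z ≤ 2
  s2 : ∀ S z, G.s5 S z ≠ 0 → z ∈ G.N S ∧ G.Low z ∧ (G.pX S z).card = 2 ∧ (G.pT S z).card = 1 ∧
    (G.pO S z).card = 3 ∧ ∃ v, G.S0 S z v
  u3 : ∀ S z, G.U3 S z → (G.pX S z).card = 3 ∧ (G.pT S z).card = 2 ∧ (G.pO S z).card = 1
  t3 : ∀ S z, G.T3 S z → (G.pX S z).card = 2 ∧ (G.pT S z).card = 2 ∧ (G.pO S z).card = 2
  hf : ∀ S z, G.HF S z → (G.pX S z).card = 4 ∧ (G.pT S z).card = 1 ∧ (G.pO S z).card = 1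
  rf : ∀ S z, G.RF S z → G.IsTw z ∧ ¬ G.Low z ∧ (G.pX S z).card = 4 ∧ (G.pT S z).card = 1 ∧
    (G.pO S z).card = 2
  nt : ∀ F, G.Frag F → G.N (G.Co F) = G.N F ∧ G.Co (G.Co F) = F
  co : ∀ F, G.Frag F → ∀ z, G.pX (G.Co F) z = G.pO F z ∧ G.pT (G.Co F) z = G.pT F z ∧
    G.pO (G.Co F) z = G.pX F z
  dg : ∀ F, G.Frag F → ∀ z, (G.nb z).card = (G.pX F z).card + (G.pT F z).card + (G.pO F z).card

open Classical in
/-- S1: the sum of the balances -/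
def StTotS : Prop := ∀ A B : Finset V, G.Strip A B →
  ∑ x ∈ G.K0 A B, (G.B5 A x + G.phi A x) + ∑ y ∈ G.K0 B A, (G.B5 B y + G.phi B y) +
    ∑ c ∈ (G.Cc A B).filter (fun c => G.Tch A B c), G.net5 A B c ≤ ∑ z ∈ R {A, B}, G.bal5 {A, B} z

/-- S2: common vertices without neighbours in `K0` -/
def StUn5 : Prop := ∀ A B : Finset V, G.Strip A B → ∀ z ∈ G.Cc A B, ¬ G.Tch A B z →
  G.ps5 A B z < 0 → ∃ v, G.Low v ∧ G.nb z ∩ G.Cc A B = {v} ∧ G.nb v ∩ G.Cc A B = {z} ∧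
    G.Low z ∧ G.Tch A B v ∧
    ((G.ps5 A B z = -2 ∧ G.nb v ∩ G.K0 B A = ∅ ∧ (G.pX B v).card = 1 ∧ G.pT B v = {z}) ∨
     (G.ps5 A B z = -2 ∧ G.nb v ∩ G.K0 A B = ∅ ∧ (G.pX A v).card = 1 ∧ G.pT A v = {z}) ∨
     (G.ps5 A B z = -1 ∧ G.phi A v = -1 ∧ G.nb v ∩ G.K0 A B = ∅ ∧ (G.nb v ∩ G.K0 B A).card = 1 ∧
        (G.pX A v).card = 2 ∧ (G.pX B v).card = 2) ∨
     (G.ps5 A B z = -1 ∧ G.phi B v = -1 ∧ G.nb v ∩ G.K0 B A = ∅ ∧ (G.nb v ∩ G.K0 A B).card = 1 ∧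
        (G.pX A v).card = 2 ∧ (G.pX B v).card = 2))

open Classical in
/-- S3: touched low vertices -/
def StLoc5 : Prop := ∀ A B : Finset V, G.Strip A B → ∀ c, G.Tch A B c → G.Low c →
  ∃ α β : ℤ, (α = 0 ∨ α = 1) ∧ (β = 0 ∨ β = 1) ∧ (α = 1 → G.KA A B c) ∧ (β = 1 → G.KA B A c) ∧
    2 * (if G.U3 (G.Co A) c then 1 else 0) + 2 * (if G.U3 (G.Co B) c then 1 else 0) -
      2 * α - 2 * β ≤ G.e5 A B c

/-- S4a: `HL` with `a`, `c` common -/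
def StE2 : Prop := ∀ A B : Finset V, G.Strip A B → ∀ a ∈ G.Cc A B, ∀ c ∈ G.Cc A B,
  ∀ t ∈ G.K0 B A, ∀ x ∈ G.K0 A B, G.HL a c t → x ∈ G.nb c → 0 ≤ G.e5 A B c

/-- S4b: `LL` with `u`, `v` common -/
def StE3 : Prop := ∀ A B : Finset V, G.Strip A B → ∀ u ∈ G.Cc A B, ∀ v ∈ G.Cc A B,
  ∀ x ∈ G.K0 A B, ∀ y ∈ G.K0 B A, G.LL u v x y → 0 ≤ G.e5 A B u ∧ 0 ≤ G.e5 A B v

/-- S5: common twin vertices -/
def StTwS : Prop := ∀ A B : Finset V, G.Strip A B → ∀ c ∈ G.Cc A B, G.IsTw c →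
  G.e5 A B c = G.ps5 A B c ∧ -1 ≤ G.ps5 A B c ∧ (¬ G.Tch A B c → 0 ≤ G.ps5 A B c) ∧
    ((G.nb c ∩ G.K0 A B).Nonempty → (G.nb c ∩ G.K0 B A).Nonempty → 0 ≤ G.ps5 A B c)

open Classical in
/-- S6: the net balances -/
structure StNet5 : Prop where
  pos : ∀ A B, G.Strip A B → ∀ c, G.Tch A B c → 0 ≤ G.net5 A B c
  hub : ∀ A B, G.Strip A B → ∀ c, G.Tch A B c → G.Low c →
    2 * (((G.K0 A B).filter fun x => G.Gd A B c x).card : ℤ) +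
      2 * (((G.K0 B A).filter fun y => G.Gd B A c y).card : ℤ) ≤ G.net5 A B c
  tw : ∀ A B, G.Strip A B → ∀ c, G.Tch A B c → G.IsTw c → (G.nb c ∩ G.K0 A B).Nonempty →
    (G.nb c ∩ G.K0 B A).Nonempty → ((G.nb c ∩ (G.K0 A B ∪ G.K0 B A)).card : ℤ) ≤ G.net5 A B c

/-- S7: covers of the edges between `K0 A B` and `K0 B A` -/
def StCvS : Prop := ∀ A B : Finset V, G.Sx A B → ∀ x ∈ G.K0 A B, ∀ y ∈ G.K0 B A, y ∈ G.nb x →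
  (∃ w, G.Low w ∧ x ∈ G.nb w ∧ y ∈ G.nb w ∧ (w ∈ G.Cc A B ∨ w ∈ G.K0 A B ∨ w ∈ G.K0 B A)) ∨
  (∃ v w, G.Tw v w ∧ x ∈ G.nb v ∧ y ∈ G.nb v ∧ x ∈ G.nb w ∧ y ∈ G.nb w ∧
    ((v ∈ G.Cc A B ∧ w ∈ G.Cc A B) ∨ (v ∈ G.K0 A B ∧ w ∈ G.K0 A B) ∨
      (v ∈ G.K0 B A ∧ w ∈ G.K0 B A))) ∨
  (∃ a b, G.HL a b y ∧ G.Low y ∧ x ∈ G.nb b ∧ x ∈ G.nb a ∧ ((a ∈ G.Cc A B ∧ b ∈ G.Cc A B) ∨
    (a ∈ G.K0 A B ∧ b ∈ G.K0 A B) ∨ (a ∈ G.K0 B A ∧ b ∈ G.K0 B A))) ∨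
  (∃ a b, G.HL a b x ∧ G.Low x ∧ y ∈ G.nb b ∧ y ∈ G.nb a ∧ ((a ∈ G.Cc A B ∧ b ∈ G.Cc A B) ∨
    (a ∈ G.K0 A B ∧ b ∈ G.K0 A B) ∨ (a ∈ G.K0 B A ∧ b ∈ G.K0 B A))) ∨
  (∃ u v, G.LL u v x y ∧ ((u ∈ G.Cc A B ∧ v ∈ G.Cc A B) ∨
    (u ∈ G.K0 A B ∧ v ∈ G.K0 A B) ∨ (u ∈ G.K0 B A ∧ v ∈ G.K0 B A)))

/-- S8: one vertex on each side -/
def StTh1_5 : Prop := ∀ A B : Finset V, G.Strip A B → (G.N A \ G.N B).card = 1 →
  (∀ y ∈ G.N B \ G.N A, ∀ s ∈ G.N A \ G.N B, s ∈ G.nb y → G.SCov y s) →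
  0 ≤ ∑ z ∈ R {A, B}, G.bal5 {A, B} z

/-- S9a: two vertices on each side, no twins among them -/
def StTh2s : Prop := ∀ A B : Finset V, G.Sx A B → (G.K0 A B).card = 2 →
  (∀ x ∈ G.K0 A B, ¬ G.IsTw x) → (∀ y ∈ G.K0 B A, ¬ G.IsTw y) →
  0 ≤ ∑ z ∈ R {A, B}, G.bal5 {A, B} z

/-- S9b: a pair of twins against two other vertices -/
def StTh2x : Prop := ∀ A B : Finset V, G.Sx A B → (G.K0 A B).card = 2 →
  (∃ X X', G.Tw X X' ∧ G.K0 A B = {X, X'}) → (∀ y ∈ G.K0 B A, ¬ G.IsTw y) →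
  0 ≤ ∑ z ∈ R {A, B}, G.bal5 {A, B} z

/-- S9c: two pairs of twins -/
def StTh2xy : Prop := ∀ A B : Finset V, G.Sx A B → (G.K0 A B).card = 2 →
  (∃ X X', G.Tw X X' ∧ G.K0 A B = {X, X'}) → (∃ Y Y', G.Tw Y Y' ∧ G.K0 B A = {Y, Y'}) →
  0 ≤ ∑ z ∈ R {A, B}, G.bal5 {A, B} z

/-- S10a: three vertices on each side, no twins among them -/
def StTh3s : Prop := ∀ A B : Finset V, G.Sx A B → (G.K0 A B).card = 3 →
  (∀ x ∈ G.K0 A B, ¬ G.IsTw x) → (∀ y ∈ G.K0 B A, ¬ G.IsTw y) →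
  0 ≤ ∑ z ∈ R {A, B}, G.bal5 {A, B} z

/-- S10b: a pair of twins and a vertex against three other vertices -/
def StTh3x : Prop := ∀ A B : Finset V, G.Sx A B → (G.K0 A B).card = 3 →
  (∃ X X' x, G.Tw X X' ∧ G.K0 A B = {X, X', x}) → (∀ y ∈ G.K0 B A, ¬ G.IsTw y) →
  0 ≤ ∑ z ∈ R {A, B}, G.bal5 {A, B} z

/-- S10c: pairs of twins on both sides -/
def StTh3xy : Prop := ∀ A B : Finset V, G.Sx A B → (G.K0 A B).card = 3 →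
  (∃ X X' x, G.Tw X X' ∧ G.K0 A B = {X, X', x}) →
  (∃ Y Y' y, G.Tw Y Y' ∧ G.K0 B A = {Y, Y', y}) →
  0 ≤ ∑ z ∈ R {A, B}, G.bal5 {A, B} z

/-- S11: assembly for two or three vertices on each side -/
def StTh23 : Prop := ∀ A B : Finset V, G.Sx A B →
  ((G.K0 A B).card = 2 ∨ (G.K0 A B).card = 3) → 0 ≤ ∑ z ∈ R {A, B}, G.bal5 {A, B} z

/-- S12a: one vertex added to an exceptional fragment -/
def StEx1 : Prop := ∀ A B : Finset V, G.Strip A B → G.Ex5 A → (G.N A \ G.N B).card = 1 →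
  (∀ y ∈ G.N B \ G.N A, ∀ s ∈ G.N A \ G.N B, s ∈ G.nb y → G.SCov y s) →
  0 ≤ G.P5 (G.Co B)

/-- S12b: two or three vertices added to an exceptional fragment -/
def StEx23 : Prop := ∀ A B : Finset V, G.Sx A B → G.Ex5 A →
  ((G.K0 A B).card = 2 ∨ (G.K0 A B).card = 3) → 0 ≤ G.P5 (G.Co B) ∨ G.Ex5 (G.Co B)

end CG

end Pool.Agent.Lib.MP_e95c01_co.N
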