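import Pool.Agent.Lib.MP_e95c01_co.X.StmtsF76
import Pool.Agent.Lib.MP_e95c01_co.X.StmtsS87

/-!
# `λ = 3`: leaves with at least four vertices, statements

A leaf is a big fragment `F` with at least four vertices such that no big fragment is contained
properly in `F`. Values `gam5`, `Tz` as for three vertices.
-/

namespace Pool.Agent.Lib.MP_e95c01_co.N

open Finset

variable {V : Type} [Fintype V] [DecidableEq V] (G : CG V)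

namespace CG

/-- the cover of the edge `z y`, `z ∈ F`, `y ∈ F ∪ N F`, seen from `z` (no crossing covers) -/
def CvL (F : Finset V) (z y : V) : Prop :=
  (∃ w ∈ F ∪ G.N F, G.Low w ∧ z ∈ G.nb w ∧ y ∈ G.nb w) ∨
  (∃ v ∈ F ∪ G.N F, ∃ w ∈ F ∪ G.N F, G.Tw v w ∧ z ∈ G.nb v ∧ z ∈ G.nb w ∧ y ∈ G.nb v ∧
    y ∈ G.nb w) ∨
  (∃ a b, G.HL a b y ∧ z ∈ G.nb b ∧ z ∈ G.nb a ∧ ((a ∈ F ∧ b ∈ F) ∨ (a ∈ G.N F ∧ b ∈ G.N F))) ∨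
  (∃ a b, G.HL a b z ∧ y ∈ G.nb b ∧ y ∈ G.nb a ∧ ((a ∈ F ∧ b ∈ F) ∨ (a ∈ G.N F ∧ b ∈ G.N F))) ∨
  (∃ a b, G.LL a b z y ∧ ((a ∈ F ∧ b ∈ F) ∨ (a ∈ G.N F ∧ b ∈ G.N F)))

/-- the situation: a leaf with at least four vertices, every edge at `F` covered -/
structure Lf (F : Finset V) : Prop where
  sat : G.Sat
  big : G.Big F
  c4 : 4 ≤ F.card
  n12 : 12 ≤ Fintype.card V
  leaf : ∀ B, G.Big B → ¬ B ⊂ F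
  cov : ∀ z ∈ F, ∀ y ∈ F ∪ G.N F, y ∈ G.nb z → G.CvL F z y

/-- vertices of `F` without a neighbour in `Z` -/
def FZ (F Z : Finset V) : Finset V := F \ G.N Z

/-! ## The situation, basic facts, values (also for five vertices) -/

/-- H0a -/
def StLSit : Prop := G.Sat → ∀ F, G.Big F → 4 ≤ F.card → (∀ B, G.Big B → ¬ B ⊂ F) →
  (∀ z ∈ F, ∀ v ∈ G.nb z, G.SCov z v) → G.Lf F

/-- H0b -/
def StLP : Prop := ∀ F, G.Big F →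
  G.P5 F = 12 * (G.l F : ℤ) - 4 * (F.card : ℤ) - 12 + ∑ w ∈ G.N F, G.gam5 F w

/-- H0c: basic facts -/
structure StLBas : Prop where
  pos : ∀ F, G.Lf F → ∀ a ∈ G.N F, 2 ≤ G.d a F
  out : ∀ F, G.Lf F → ∀ a ∈ G.N F, 1 ≤ G.d a (G.Co F)
  outq : ∀ F, G.Lf F → ∀ a ∈ G.N F, G.IsTw a → 2 ≤ G.d a (G.Co F)
  /-- every vertex of `F` has a neighbour in `F` -/
  inn : ∀ F, G.Lf F → ∀ x ∈ F, 1 ≤ G.d x F
  deg : ∀ F, G.Lf F → ∀ x ∈ F, (G.nb x).card = G.d x F + (G.Tz F x).card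
  /-- partners -/
  twT : ∀ F, G.Lf F → ∀ v w, G.Tw v w → (v ∈ G.N F → w ∈ G.N F) ∧ (v ∈ F → w ∈ F)
  /-- expansion -/
  exp : ∀ F, G.Lf F → ∀ Z ⊆ G.N F, Z.Nonempty → (G.FZ F Z).Nonempty →
    Z.card ≤ (G.N Z ∩ F).card ∧ (Z.card = (G.N Z ∩ F).card →
      (G.FZ F Z).card ≤ 2 ∧ G.Frag (G.FZ F Z) ∧ G.N (G.FZ F Z) = (G.N F \ Z) ∪ (G.N Z ∩ F))
  /-- the remainder has two vertices, `x` is not low -/
  two : ∀ F, G.Lf F → ∀ Z ⊆ G.N F, Z.Nonempty → Z.card = (G.N Z ∩ F).card →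
    ∀ x y, x ≠ y → G.FZ F Z = {x, y} → ¬ G.Low x →
    y ∈ G.nb x ∧ G.N F \ Z ⊆ G.nb x ∧ G.N Z ∩ F ⊆ G.nb x ∧
      ((G.Tw x y) ∨ (G.Low y ∧ ∃ t ∈ (G.N F \ Z) ∪ (G.N Z ∩ F), G.HL x y t))

/-- H0d: the values -/
structure StLB : Prop where
  hub : ∀ F, G.Lf F → ∀ w ∈ G.N F, G.Hub w → G.gam5 F w = 0
  /-- low, five neighbours in `F` -/
  low5 : ∀ F, G.Lf F → ∀ w ∈ G.N F, G.Low w → 5 ≤ G.d w F → G.d w F = 5 ∧ G.pT F w = ∅ ∧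
    G.gam5 F w = 14
  /-- low, four neighbours in `F` -/
  low4 : ∀ F, G.Lf F → ∀ w ∈ G.N F, G.Low w → G.d w F = 4 → (G.pT F w).card ≤ 1 ∧
    10 ≤ G.gam5 F w ∧ (10 + 2 * ((G.pT F w).card : ℤ) ≤ G.gam5 F w ∨
      ∃ a b, G.HL a b w ∧ a ∈ G.N F ∧ b ∈ G.N F ∧ G.pT F w = {a} ∧ G.Hub a)
  /-- low, three neighbours in `F` -/
  low3 : ∀ F, G.Lf F → ∀ w ∈ G.N F, G.Low w → G.d w F = 3 → (G.pT F w).card ≤ 2 ∧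
    6 ≤ G.gam5 F w ∧ (6 + 2 * ((G.pT F w).card : ℤ) ≤ G.gam5 F w ∨
      ∃ v q q', G.Low v ∧ G.pT F w = {v} ∧ G.Tw q q' ∧ G.pO F w = {q, q'} ∧ q ∈ G.nb v ∧
        ¬ (G.pT F v = {w} ∧ G.d v F = 1)) ∧
    (G.PairSet (G.pT F w) → 12 ≤ G.gam5 F w)
  /-- low, two neighbours in `F` -/
  low2 : ∀ F, G.Lf F → ∀ w ∈ G.N F, G.Low w → G.d w F = 2 → (G.pT F w).card ≤ 3 ∧
    (2 + 2 * ((G.pT F w).card : ℤ) ≤ G.gam5 F w ∨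
      (4 ≤ G.gam5 F w ∧ G.PairSet (G.pT F w) ∧ G.PairSet (G.pO F w) ∧
        ∀ v ∈ G.pT F w, G.d v F = 2 ∧ (G.pT F v).card = 2)) ∧
    2 + min (2 * ((G.pT F w).card : ℤ)) 2 ≤ G.gam5 F w
  /-- low, exactly a pair of twins in `F` -/
  low2s : ∀ F, G.Lf F → ∀ w ∈ G.N F, ∀ v, G.S0 F w v → 4 ≤ G.gam5 F w ∧
    (G.pT F v = {w} → 5 ≤ G.gam5 F w) ∧ (¬ G.LLs F w v → 6 ≤ G.gam5 F w)
  /-- twin vertices; the partner is in `pT` -/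
  tw : ∀ F, G.Lf F → ∀ w ∈ G.N F, G.IsTw w → 2 ≤ G.d w F ∧ G.d w F ≤ 4 ∧
    1 ≤ (G.pT F w).card ∧ G.d w F + (G.pT F w).card ≤ 5 ∧
    (G.d w F ≤ 3 → 2 * (G.d w F : ℤ) + ((G.pT F w).card : ℤ) - 7 ≤ G.gam5 F w) ∧
    (G.d w F = 4 → 1 ≤ G.gam5 F w)

/-- H0e: the counting lemma; `M ⊆ S ⊆ N F`, the vertices of `M` are covered from `S`
(as `cnt30g`, with all pairs of twins) -/
def StLCnt : Prop := G.Sat → 9 ≤ Fintype.card V → ∀ F M S : Finset V, M ⊆ S → S ⊆ G.N F →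
  ∀ z, (∀ y ∈ M,
    (∃ w ∈ S, G.Low w ∧ y ∈ G.nb w) ∨ (∃ v ∈ S, ∃ w ∈ S, G.Tw v w ∧ y ∈ G.nb v ∧ y ∈ G.nb w) ∨
    (∃ a ∈ M, ∃ b ∈ S, G.HL a b y) ∨ (∃ a ∈ S, ∃ b ∈ G.N F \ M, G.LL a b z y)) →
  2 * (M.card : ℤ) ≤ ∑ w ∈ S, G.wt3 G.Tw w * ((G.tT G.Tw F w).card : ℤ) ∧
  ((∀ y ∈ M, ∀ a ∈ S, ∀ b ∈ G.N F \ M, ¬ G.LL a b z y) →
    2 * (M.card : ℤ) ≤ ∑ w ∈ S, G.wt3 G.Tw w * ((G.tT G.Tw F w ∩ M).card : ℤ))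

/-! ## Four vertices -/

/-- the situation: a leaf with four vertices -/
def L4 (F : Finset V) : Prop := G.Lf F ∧ F.card = 4

/-- H1a: four lows -/
def St6LLLL : Prop := ∀ F, G.L4 F → (∀ z ∈ F, G.Low z) → -20 ≤ ∑ w ∈ G.N F, G.gam5 F w

/-- H1b: three lows and a hub -/
def St6LLLH : Prop := ∀ F, G.L4 F → ∀ h ∈ F, G.Hub h → (∀ z ∈ F, z ≠ h → G.Low z) →
  -8 ≤ ∑ w ∈ G.N F, G.gam5 F w

/-- H1: two lows and two hubs -/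
def St6LLHH : Prop := ∀ F, G.L4 F → ∀ l l' h h', F = {l, l', h, h'} → l ≠ l' → h ≠ h' →
  G.Low l → G.Low l' → G.Hub h → G.Hub h' → 4 ≤ ∑ w ∈ G.N F, G.gam5 F w

/-- H2: two lows and a pair of twins -/
def St6LLQ : Prop := ∀ F, G.L4 F → ∀ l l' v w, F = {l, l', v, w} → l ≠ l' → G.Low l → G.Low l' →
  G.Tw v w → 4 ≤ ∑ w ∈ G.N F, G.gam5 F w

/-- H3: a low and three hubs -/
def St6LHHH : Prop := ∀ F, G.L4 F → ∀ l ∈ F, G.Low l → (∀ z ∈ F, z ≠ l → G.Hub z) →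
  16 ≤ ∑ w ∈ G.N F, G.gam5 F w

/-- H4: a low, a hub and a pair of twins -/
def St6LHQ : Prop := ∀ F, G.L4 F → ∀ l h v w, F = {l, h, v, w} → G.Low l → G.Hub h →
  G.Tw v w → 16 ≤ ∑ w ∈ G.N F, G.gam5 F w

/-- H5: four hubs -/
def St6HHHH : Prop := ∀ F, G.L4 F → (∀ z ∈ F, G.Hub z) → 28 ≤ ∑ w ∈ G.N F, G.gam5 F w

/-- H6: two hubs and a pair of twins -/
def St6HHQ : Prop := ∀ F, G.L4 F → ∀ h h' v w, F = {h, h', v, w} → h ≠ h' → G.Hub h → G.Hub h' →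
  G.Tw v w → 28 ≤ ∑ w ∈ G.N F, G.gam5 F w

/-- the third pair of a `K6` whose other two pairs form `F` is in `N F` -/
def K4T (F : Finset V) : Prop := ∃ q q', G.Tw q q' ∧ q ∈ G.N F ∧ q' ∈ G.N F ∧ F ⊆ G.nb q

/-- H7: two pairs of twins (22 is needed for the value `-6` of the exception) -/
def St6QQ : Prop := ∀ F, G.L4 F → ∀ v w v' w', F = {v, w, v', w'} → G.Tw v w → G.Tw v' w' →
  v ≠ v' → v ≠ w' → 28 ≤ ∑ x ∈ G.N F, G.gam5 F x ∨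
    (v' ∈ G.nb v ∧ G.K4T F ∧ 22 ≤ ∑ x ∈ G.N F, G.gam5 F x)

/-- H8: leaves with four vertices -/
def StF6 : Prop := G.Sat → ∀ F, G.Big F → F.card = 4 → (∀ B, G.Big B → ¬ B ⊂ F) →
  (∀ z ∈ F, ∀ v ∈ G.nb z, G.SCov z v) → 0 ≤ G.P5 F ∨ (G.Ex5 F ∧ -6 ≤ G.P5 F)

end CG

end Pool.Agent.Lib.MP_e95c01_co.N
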