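import Pool.Agent.Lib.MP_e95c01_co.T.F5_30
import Pool.Agent.Lib.MP_e95c01_co.X.StmtsH76
import Pool.Agent.Lib.MP_e95c01_co.X.G01_16

/-!
# `λ = 3`, leaves with at least four vertices: the counting lemma (H0e)
-/

namespace Pool.Agent.Lib.MP_e95c01_co.N

open Finset

variable {V : Type} [Fintype V] [DecidableEq V]

namespace CG

/-- H0e: the counting lemma -/
theorem stLCnt_30 (G : CG V) : G.StLCnt := by
  classical
  intro hsat n9 F M S hMS hSN z hcov
  have hq : G.QS G.Tw := qs16 G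
  set q : V → V → Prop := G.Tw with hqd
  have TH := stTwHL_5 G
  set A1 : V → Prop := fun y => ∃ w ∈ S, G.Low w ∧ y ∈ G.nb w with hA1
  set A2 : V → Prop := fun y => ∃ v ∈ S, ∃ w ∈ S, q v w ∧ y ∈ G.nb v ∧ y ∈ G.nb w with hA2
  set A3 : V → Prop := fun y => ∃ a ∈ M, ∃ b ∈ S, G.HL a b y with hA3
  set A4 : V → Prop := fun y => ∃ a ∈ S, ∃ b ∈ G.N F \ M, G.LL a b z y with hA4
  set t : V → V → ℤ := fun x w => if x ∈ G.tT q F w then G.wt3 q w else 0 with ht
  have t0 : ∀ x w, 0 ≤ t x w := by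
    intro x w
    rw [ht]
    simp only
    split_ifs
    · exact wt3_nonneg30 w
    · exact le_refl _
  have tlow : ∀ x w, G.Low w → x ∈ G.N F → x ∈ G.nb w → t x w = 2 := by
    intro x w h1 h2 h3
    rw [ht]
    simp only
    rw [if_pos, wt3_low30 h1]
    exact mem_tT30.2 ⟨h3, h2, fun h4 => not_q_of_low76 hq h1 ⟨_, h4⟩⟩
  set c : V → ℤ := fun x => ∑ w ∈ S, t x w with hc
  have c0 : ∀ x, 0 ≤ c x := fun x => sum_nonneg fun w _ => t0 x w
  have hMN : M ⊆ G.N F := hMS.trans hSN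
  have c1 : ∀ y ∈ M, A1 y → 2 ≤ c y := by
    rintro y hy ⟨w, hw, h1, h2⟩
    rw [← tlow y w h1 (hMN hy) h2]
    exact single_le_sum (f := fun w => t y w) (fun x _ => t0 y x) hw
  have c2 : ∀ y ∈ M, A2 y → 2 ≤ c y := by
    rintro y hy ⟨v, hv, w, hw, h1, h2, h3⟩
    have e1 : t y v = 1 := by
      rw [ht]
      simp only
      rw [if_pos, wt3_q30 hq ⟨_, h1⟩]
      refine mem_tT30.2 ⟨h2, hMN hy, fun h4 => ?_⟩
      have h5 := q_uniq76 hq n9 h1 h4
      rw [h5] at h3
      exact G.irr _ h3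
    have e2 : t y w = 1 := by
      rw [ht]
      simp only
      rw [if_pos, wt3_q30 hq ⟨_, hq.symm _ _ h1⟩]
      refine mem_tT30.2 ⟨h3, hMN hy, fun h4 => ?_⟩
      have h5 := q_uniq76 hq n9 (hq.symm _ _ h1) h4
      rw [h5] at h2
      exact G.irr _ h2
    have h4 := two_terms30 (f := fun w => t y w) (fun x _ => t0 y x) hv hw (q_ne76 hq h1)
    rw [e1, e2] at h4
    exact h4
  have c3 : ∀ a b y, a ∈ M → b ∈ S → y ∈ S → G.HL a b y → 4 ≤ c a := by
    intro a b y ha hb hy h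
    have e1 : t a b = 2 := tlow a b h.2.1 (hMN ha) (G.sym _ _ (HL_b76 h))
    have e2 : t a y = 2 := tlow a y (hsat _ _ _ h) (hMN ha) (G.sym _ _ (HL_t76 h))
    have h4 := two_terms30 (f := fun w => t a w) (fun x _ => t0 a x) hb hy (HL_bt76 h).2.symm
    rw [e1, e2] at h4
    exact h4
  set E3 : Finset V := M.filter fun y => (¬ A1 y ∧ ¬ A2 y) ∧ A3 y with hE3
  set E4 : Finset V := M.filter fun y => (¬ A1 y ∧ ¬ A2 y) ∧ ¬ A3 y with hE4
  set S0 : Finset V := M.filter fun y => ¬ (¬ A1 y ∧ ¬ A2 y) with hS0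
  have hcard : (M.card : ℤ) = S0.card + E3.card + E4.card := by
    have h1 := card_filter_add_card_filter_not (s := M) (fun y => ¬ A1 y ∧ ¬ A2 y)
    have h2 := card_filter_add_card_filter_not
      (s := M.filter fun y => ¬ A1 y ∧ ¬ A2 y) (fun y => A3 y)
    rw [filter_filter, filter_filter] at h2
    have h3 : M.card = S0.card + E3.card + E4.card := by
      rw [hS0, hE3, hE4]
      omega
    exact_mod_cast h3
  -- the map for the third case
  have hch : ∀ y, ∃ a, y ∈ E3 → a ∈ M ∧ ∃ b ∈ S, G.HL a b y := by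
    intro y
    by_cases h : y ∈ E3
    · obtain ⟨a, ha, b, hb, h1⟩ := (mem_filter.1 h).2.2
      exact ⟨a, fun _ => ⟨ha, b, hb, h1⟩⟩
    · exact ⟨y, fun h1 => absurd h1 h⟩
  choose α hα using hch
  have hinj : Set.InjOn α E3 := by
    intro y hy y' hy' he
    by_contra hne
    obtain ⟨-, b, hb, h1⟩ := hα y (mem_coe.1 hy)
    obtain ⟨-, b', hb', h2⟩ := hα y' (mem_coe.1 hy')
    rw [← he] at h2
    obtain ⟨-, h3, -⟩ := TH.two n9 _ _ _ _ _ h1 h2 hne
    exact (mem_filter.1 (mem_coe.1 hy')).2.1.1 ⟨b, hb, h1.2.1, G.sym _ _ h3⟩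
  have him : E3.image α ⊆ S0 := by
    intro a ha
    obtain ⟨y, hy, rfl⟩ := mem_image.1 ha
    obtain ⟨h1, b, hb, h2⟩ := hα y hy
    refine mem_filter.2 ⟨h1, fun h3 => h3.1 ⟨b, hb, h2.2.1, G.sym _ _ (HL_b76 h2)⟩⟩
  have I1 : 2 * ((S0.card : ℤ) + E3.card) ≤ ∑ x ∈ M, c x := by
    have h1 : ∀ x ∈ S0, 2 + (if x ∈ E3.image α then 2 else 0) ≤ c x := by
      intro x hx
      have hx1 := (mem_filter.1 hx).1
      split_ifs with h2
      · obtain ⟨y, hy, h3⟩ := mem_image.1 h2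
        obtain ⟨h4, b, hb, h5⟩ := hα y hy
        rw [h3] at h4 h5
        exact c3 x b y hx1 hb (hMS (mem_filter.1 hy).1) h5
      · rw [add_zero]
        have h3 := (mem_filter.1 hx).2
        by_cases h4 : A1 x
        · exact c1 x hx1 h4
        · by_cases h5 : A2 x
          · exact c2 x hx1 h5
          · exact absurd ⟨h4, h5⟩ h3
    have h2 : ∑ x ∈ S0, ((2 : ℤ) + (if x ∈ E3.image α then 2 else 0)) =
        2 * ((S0.card : ℤ) + E3.card) := by
      rw [sum_add_distrib, sum_const, ← sum_filter, sum_const, filter_mem_eq_inter,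
        inter_eq_right.2 him, card_image_of_injOn hinj]
      simp only [nsmul_eq_mul]
      ring
    calc 2 * ((S0.card : ℤ) + E3.card) = ∑ x ∈ S0, ((2 : ℤ) + (if x ∈ E3.image α then 2 else 0)) :=
          h2.symm
      _ ≤ ∑ x ∈ S0, c x := sum_le_sum h1
      _ ≤ ∑ x ∈ M, c x :=
          sum_le_sum_of_subset_of_nonneg (filter_subset _ _) fun x _ _ => c0 x
  have eS : ∑ w ∈ S, G.wt3 q w * ((G.tT q F w ∩ M).card : ℤ) = ∑ x ∈ M, c x := swap30 F S M
  have hE4A : ∀ y ∈ E4, A4 y := by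
    intro y hy
    obtain ⟨h1, ⟨h2, h3⟩, h4⟩ := mem_filter.1 hy
    rcases hcov y h1 with h | h | h | h
    · exact absurd h h2
    · exact absurd h h3
    · exact absurd h h4
    · exact h
  constructor
  · -- the map for the fourth case
    have hch : ∀ y, ∃ p : V × V, y ∈ E4 → p.1 ∈ S ∧ p.2 ∈ G.N F \ M ∧ G.LL p.1 p.2 z y := by
      intro y
      by_cases h : y ∈ E4
      · obtain ⟨a, ha, b, hb, h1⟩ := hE4A y h
        exact ⟨(a, b), fun _ => ⟨ha, hb, h1⟩⟩
      · exact ⟨(y, y), fun h1 => absurd h1 h⟩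
    choose β hβ using hch
    have hinj2 : Set.InjOn β E4 := by
      intro y hy y' hy' he
      obtain ⟨-, -, h1⟩ := hβ y (mem_coe.1 hy)
      obtain ⟨-, -, h2⟩ := hβ y' (mem_coe.1 hy')
      rw [← he] at h2
      have h3 : y ∈ insert y' (G.cl (β y).1) := by
        rw [h2.2.2.2.2.2.2, ← h1.2.2.2.2.2.2]
        exact mem_insert_self _ _
      rcases mem_insert.1 h3 with h4 | h4
      · exact h4
      · exact absurd h4 h1.2.2.2.2.2.1
    have I2 : 2 * (E4.card : ℤ) ≤ ∑ w ∈ S, G.wt3 q w * ((G.tT q F w \ M).card : ℤ) := by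
      have h1 : ∑ w ∈ S, G.wt3 q w * ((G.tT q F w \ M).card : ℤ) =
          ∑ p ∈ (S ×ˢ (G.N F \ M)).filter (fun p => p.2 ∈ G.tT q F p.1), G.wt3 q p.1 := by
        rw [sum_filter, sum_product]
        refine sum_congr rfl fun w _ => ?_
        rw [← sum_filter]
        simp only
        rw [sum_const, nsmul_eq_mul, mul_comm]
        congr 3
        ext x
        rw [mem_sdiff, mem_filter, mem_sdiff]
        constructor
        · rintro ⟨h3, h4⟩
          exact ⟨⟨(mem_tT30.1 h3).2.1, h4⟩, h3⟩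
        · rintro ⟨⟨_, h4⟩, h3⟩
          exact ⟨h3, h4⟩
      rw [h1]
      have h2 : E4.image β ⊆ (S ×ˢ (G.N F \ M)).filter (fun p => p.2 ∈ G.tT q F p.1) := by
        intro p hp
        obtain ⟨y, hy, rfl⟩ := mem_image.1 hp
        obtain ⟨h3, h4, h5⟩ := hβ y hy
        rw [mem_filter, mem_product]
        refine ⟨⟨h3, h4⟩, mem_tT30.2 ⟨LL_ab76 h5, (mem_sdiff.1 h4).1, fun h6 => ?_⟩⟩
        exact not_q_of_low76 hq h5.1 ⟨_, h6⟩
      calc 2 * (E4.card : ℤ) = ∑ p ∈ E4.image β, G.wt3 q p.1 := by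
            rw [sum_image hinj2]
            have h3 : ∀ y ∈ E4, G.wt3 q (β y).1 = 2 := by
              intro y hy
              exact wt3_low30 (hβ y hy).2.2.1
            rw [sum_congr rfl h3, sum_const, nsmul_eq_mul, mul_comm]
        _ ≤ _ := sum_le_sum_of_subset_of_nonneg h2 fun p _ _ => wt3_nonneg30 p.1
    have h1 : ∑ w ∈ S, G.wt3 q w * ((G.tT q F w).card : ℤ) =
        ∑ w ∈ S, G.wt3 q w * ((G.tT q F w ∩ M).card : ℤ) +
        ∑ w ∈ S, G.wt3 q w * ((G.tT q F w \ M).card : ℤ) := by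
      rw [← sum_add_distrib]
      refine sum_congr rfl fun w _ => ?_
      have h2 := card_inter_add_card_sdiff (G.tT q F w) M
      rw [← mul_add]
      congr 1
      exact_mod_cast h2.symm
    rw [h1, eS]
    linarith
  · intro hno
    have h1 : E4 = ∅ := by
      rw [eq_empty_iff_forall_notMem]
      intro y hy
      obtain ⟨a, ha, b, hb, h1⟩ := hE4A y hy
      exact hno y (mem_filter.1 hy).1 a ha b hb h1
    rw [h1, card_empty, Nat.cast_zero, add_zero] at hcard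
    rw [eS]
    linarith

end CG

end Pool.Agent.Lib.MP_e95c01_co.N
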