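import Pool.Agent.Lib.MP_e95c01_co.X.H1_44

/-!
# `λ = 3`, H1: leaves with four vertices, two of them low, no pair of twins
-/

namespace Pool.Agent.Lib.MP_e95c01_co.N

open Finset

variable {V : Type} [Fintype V] [DecidableEq V]

namespace CG

namespace H1x44

variable {G : CG V} {F : Finset V} {l l' h h' : V}

/-- two lows and two hubs -/
structure Cx (G : CG V) (F : Finset V) (l l' h h' : V) : Prop where
  L : G.Lf F
  B : G.StLB
  Ba : G.StLBas
  c4 : F.card = 4
  lF : l ∈ F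
  lF' : l' ∈ F
  hF : h ∈ F
  hF' : h' ∈ F
  all : ∀ x ∈ F, x = l ∨ x = l' ∨ x = h ∨ x = h'
  ll : l ≠ l'
  hh : h ≠ h'
  lo : G.Low l
  lo' : G.Low l'
  hu : G.Hub h
  hu' : G.Hub h'

namespace Cx

theorem sl (c : Cx G F l l' h h') : Cx G F l' l h h' where
  L := c.L
  B := c.B
  Ba := c.Ba
  c4 := c.c4
  lF := c.lF'
  lF' := c.lF
  hF := c.hF
  hF' := c.hF'
  all := fun x hx => by
    rcases c.all x hx with e | e | e | e
    · exact Or.inr (Or.inl e)
    · exact Or.inl e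
    · exact Or.inr (Or.inr (Or.inl e))
    · exact Or.inr (Or.inr (Or.inr e))
  ll := c.ll.symm
  hh := c.hh
  lo := c.lo'
  lo' := c.lo
  hu := c.hu
  hu' := c.hu'

theorem sh (c : Cx G F l l' h h') : Cx G F l l' h' h where
  L := c.L
  B := c.B
  Ba := c.Ba
  c4 := c.c4
  lF := c.lF
  lF' := c.lF'
  hF := c.hF'
  hF' := c.hF
  all := fun x hx => by
    rcases c.all x hx with e | e | e | e
    · exact Or.inl e
    · exact Or.inr (Or.inl e)
    · exact Or.inr (Or.inr (Or.inr e))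
    · exact Or.inr (Or.inr (Or.inl e))
  ll := c.ll
  hh := c.hh.symm
  lo := c.lo
  lo' := c.lo'
  hu := c.hu'
  hu' := c.hu

theorem ntF (c : Cx G F l l' h h') {x : V} (hx : x ∈ F) : ¬ G.IsTw x := by
  rcases c.all x hx with rfl | rfl | rfl | rfl
  · exact not_tw33 c.lo
  · exact not_tw33 c.lo'
  · exact c.hu.2
  · exact c.hu'.2

theorem lowF (c : Cx G F l l' h h') {x : V} (hx : x ∈ F) (hl : G.Low x) : x = l ∨ x = l' := by
  rcases c.all x hx with e | e | e | e
  · exact Or.inl e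
  · exact Or.inr e
  · rw [e] at hl
    exact absurd hl c.hu.1
  · rw [e] at hl
    exact absurd hl c.hu'.1

theorem neF (c : Cx G F l l' h h') : l ≠ h ∧ l ≠ h' ∧ l' ≠ h ∧ l' ≠ h' := by
  refine ⟨?_, ?_, ?_, ?_⟩
  · intro e
    exact c.hu.1 (e ▸ c.lo)
  · intro e
    exact c.hu'.1 (e ▸ c.lo)
  · intro e
    exact c.hu.1 (e ▸ c.lo')
  · intro e
    exact c.hu'.1 (e ▸ c.lo')

/-- the cover of an edge `x y`, `y` in `N F` not low -/
theorem cvT (c : Cx G F l l' h h') {x y : V} (hx : x ∈ F) (hy : y ∈ G.N F) (hyx : x ∈ G.nb y)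
    (hn : ¬ G.Low y) :
    (∃ b ∈ F, G.Low b ∧ b ∈ G.nb y ∧ b ≠ x) ∨
    (∃ b ∈ G.N F, G.Low b ∧ b ∈ G.nb y ∧
      (b ∈ G.nb x ∨ ∃ a ∈ G.N F, a ∈ G.nb b ∧ ¬ G.IsTw a)) ∨
    (∃ v ∈ G.N F, ∃ w ∈ G.N F, G.Tw v w ∧ x ∈ G.nb v ∧ x ∈ G.nb w ∧ y ∈ G.nb v ∧
      y ∈ G.nb w) := by
  rcases c.L.cov x hx y (mem_union_right _ hy) (G.sym _ _ hyx) with
    ⟨w, hw, hl, h1, h2⟩ | ⟨v, hv, w, hw, ht, h1, h2, h3, h4⟩ | ⟨a, b, hab, h1, h2, hs⟩ |
    ⟨a, b, hab, h1, h2, hs⟩ | ⟨a, b, hab, hs⟩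
  · rcases mem_union.1 hw with hw | hw
    · exact Or.inl ⟨w, hw, hl, G.sym _ _ h2, ne_of_nb5 h1⟩
    · exact Or.inr (Or.inl ⟨w, hw, hl, G.sym _ _ h2, Or.inl (G.sym _ _ h1)⟩)
  · have hv' : v ∈ G.N F := (mem_union.1 hv).resolve_left fun e => c.ntF e ⟨w, ht⟩
    have hw' : w ∈ G.N F := (mem_union.1 hw).resolve_left fun e => c.ntF e ⟨v, ht.sym33⟩
    exact Or.inr (Or.inr ⟨v, hv', w, hw', ht, h1, h2, h3, h4⟩)
  · exact absurd (c.L.sat _ _ _ hab) hn
  · rcases hs with ⟨ha, hb⟩ | ⟨ha, hb⟩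
    · exact Or.inl ⟨b, hb, hab.2.1, G.sym _ _ h1, HL_ne33 hab⟩
    · exact Or.inr (Or.inl ⟨b, hb, hab.2.1, G.sym _ _ h1, Or.inr ⟨a, ha,
        G.sym _ _ hab.2.2.1, (stTwHL_5 G).notHL (n9 c.L) _ _ _ hab⟩⟩)
  · rcases hs with ⟨ha, hb⟩ | ⟨ha, hb⟩
    · exact Or.inl ⟨b, hb, hab.2.1, G.sym _ _ (LL_u76 hab), (LL_tb76 hab).2.symm⟩
    · exact Or.inr (Or.inl ⟨b, hb, hab.2.1, G.sym _ _ (LL_u76 hab), Or.inr ⟨a, ha,
        G.sym _ _ (LL_ab76 hab), not_tw33 hab.1⟩⟩)

/-- a vertex without class neighbours in `N F` -/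
def NC (G : CG V) (F : Finset V) (y : V) : Prop :=
  y ∈ G.N F ∧ ¬ G.Low y ∧ (∀ b ∈ G.N F, G.Low b → b ∉ G.nb y) ∧
    ∀ v ∈ G.N F, ∀ w ∈ G.N F, G.Tw v w → y ∈ G.nb v → y ∉ G.nb w

theorem A1 (c : Cx G F l l' h h') {y : V} (hy : NC G F y) : l ∈ G.nb y ∧ l' ∈ G.nb y := by
  obtain ⟨hy, hn, h1, h2⟩ := hy
  have key : ∀ x ∈ F, x ∈ G.nb y → ∃ b ∈ F, G.Low b ∧ b ∈ G.nb y ∧ b ≠ x := by
    intro x hx hyx
    rcases c.cvT hx hy hyx hn with h3 | ⟨b, hb, hl, h3, -⟩ | ⟨v, hv, w, hw, ht, -, -, h3, h4⟩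
    · exact h3
    · exact absurd h3 (h1 b hb hl)
    · exact absurd h4 (h2 v hv w hw ht h3)
  have hp := c.Ba.pos F c.L y hy
  obtain ⟨x, hx⟩ : (G.nb y ∩ F).Nonempty := by
    rw [← card_pos]
    unfold d at hp
    omega
  rw [mem_inter] at hx
  obtain ⟨b, hb, hl, h3, -⟩ := key x hx.2 hx.1
  obtain ⟨b', hb', hl', h3', hne⟩ := key b hb h3
  rcases c.lowF hb hl with rfl | rfl
  · rcases c.lowF hb' hl' with rfl | rfl
    · exact absurd rfl hne
    · exact ⟨h3, h3'⟩
  · rcases c.lowF hb' hl' with rfl | rfl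
    · exact ⟨h3', h3⟩
    · exact absurd rfl hne

theorem A2 (c : Cx G F l l' h h') {y : V} (hy : NC G F y) :
    l ∈ G.nb l' ∨ ∃ a ∈ F, G.HL a l' l := by
  have hl := (c.A1 hy).1
  obtain ⟨hy, hn, h1, h2⟩ := hy
  rcases c.L.cov l c.lF y (mem_union_right _ hy) (G.sym _ _ hl) with
    ⟨w, hw, hl, h3, h4⟩ | ⟨v, hv, w, hw, ht, h3, h4, h5, h6⟩ | ⟨a, b, hab, h3, h4, hs⟩ |
    ⟨a, b, hab, h3, h4, hs⟩ | ⟨a, b, hab, hs⟩
  · rcases mem_union.1 hw with hw | hw
    · rcases c.lowF hw hl with rfl | rfl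
      · exact absurd h3 (G.irr _)
      · exact Or.inl h3
    · exact absurd (G.sym _ _ h4) (h1 w hw hl)
  · have hv' : v ∈ G.N F := (mem_union.1 hv).resolve_left fun e => c.ntF e ⟨w, ht⟩
    have hw' : w ∈ G.N F := (mem_union.1 hw).resolve_left fun e => c.ntF e ⟨v, ht.sym33⟩
    exact absurd h6 (h2 v hv' w hw' ht h5)
  · exact absurd (c.L.sat _ _ _ hab) hn
  · rcases hs with ⟨ha, hb⟩ | ⟨ha, hb⟩
    · rcases c.lowF hb hab.2.1 with rfl | rfl
      · exact absurd rfl (HL_ne33 hab)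
      · exact Or.inr ⟨a, ha, hab⟩
    · exact absurd (G.sym _ _ h3) (h1 b hb hab.2.1)
  · rcases hs with ⟨ha, hb⟩ | ⟨ha, hb⟩
    · exfalso
      have e1 : b = l' := (c.lowF hb hab.2.1).resolve_left (LL_tb76 hab).2.symm
      have e2 : a = l' := (c.lowF ha hab.1).resolve_left
        (fun e => G.irr l (by have := LL_t76 hab; rwa [e] at this))
      have := LL_ab76 hab
      rw [e1, e2] at this
      exact G.irr _ this
    · exact absurd (G.sym _ _ (LL_u76 hab)) (h1 b hb hab.2.1)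

/-- a pair of twins in `N F` is adjacent to a hub of `F` -/
theorem NP (c : Cx G F l l' h h') {p p' : V} (hp : p ∈ G.N F) (ht : G.Tw p p')
    (h1 : h ∉ G.nb p) (h2 : h' ∉ G.nb p) : False := by
  have hp' := par c.Ba c.L hp ht
  have hZ : ({p, p'} : Finset V) ⊆ G.N F := by
    intro x hx
    rw [mem_insert, mem_singleton] at hx
    rcases hx with rfl | rfl <;> assumption
  have hm : ∀ x ∈ F, (x ∈ G.N {p, p'} ↔ x ∈ G.nb p) := by
    intro x hx
    rw [mem_N76]
    constructor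
    · rintro ⟨-, u, hu, hxu⟩
      rw [mem_insert, mem_singleton] at hu
      rcases hu with rfl | rfl
      · exact hxu
      · exact ht.sym33.nb33 hxu (fun e => notF hp (e ▸ hx))
    · intro hx1
      refine ⟨fun hx2 => notF (hZ hx2) hx, p, mem_insert_self _ _, hx1⟩
  have hne : (G.FZ F {p, p'}).Nonempty := by
    refine ⟨h, ?_⟩
    rw [FZ, mem_sdiff, hm h c.hF]
    exact ⟨c.hF, h1⟩
  have hsub : G.N {p, p'} ∩ F ⊆ {l, l'} := by
    intro x hx
    rw [mem_inter] at hx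
    have hx1 := (hm x hx.2).1 hx.1
    rw [mem_insert, mem_singleton]
    rcases c.all x hx.2 with e | e | e | e
    · exact Or.inl e
    · exact Or.inr e
    · rw [e] at hx1
      exact absurd hx1 h1
    · rw [e] at hx1
      exact absurd hx1 h2
  have hc := card_le_card hsub
  rw [card_pair c.ll] at hc
  obtain ⟨e1, e2⟩ := c.Ba.exp F c.L {p, p'} hZ ⟨p, mem_insert_self _ _⟩ hne
  rw [card_pair ht.ne33] at e1 e2
  have e3 : 2 = (G.N {p, p'} ∩ F).card := by omega
  have e4 : G.N {p, p'} ∩ F = {l, l'} := eq_of_subset_of_card_le hsub (by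
    rw [card_pair c.ll]
    omega)
  have e5 : G.FZ F {p, p'} = {h, h'} := by
    ext x
    rw [FZ, mem_sdiff, mem_insert, mem_singleton]
    constructor
    · rintro ⟨hx1, hx2⟩
      rcases c.all x hx1 with e | e | e | e
      · exfalso
        apply hx2
        have : x ∈ G.N {p, p'} ∩ F := by
          rw [e4, e]
          exact mem_insert_self _ _
        exact (mem_inter.1 this).1
      · exfalso
        apply hx2
        have : x ∈ G.N {p, p'} ∩ F := by
          rw [e4, e]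
          exact mem_insert_of_mem (mem_singleton_self _)
        exact (mem_inter.1 this).1
      · exact Or.inl e
      · exact Or.inr e
    · rintro (rfl | rfl)
      · exact ⟨c.hF, fun e => h1 ((hm _ c.hF).1 e)⟩
      · exact ⟨c.hF', fun e => h2 ((hm _ c.hF').1 e)⟩
  obtain ⟨-, -, -, h5 | h5⟩ := c.Ba.two F c.L {p, p'} hZ ⟨p, mem_insert_self _ _⟩
    (by rw [card_pair ht.ne33]; exact e3) h h' c.hh e5 c.hu.1
  · exact c.hu.2 ⟨h', h5⟩
  · exact c.hu'.1 h5.1

/-- neighbours in `F` of a twin vertex with two neighbours in `F`, up to symmetry -/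
theorem two_cases (c : Cx G F l l' h h') {P : V → V → V → V → Prop} {p p' : V}
    (hp : p ∈ G.N F) (ht : G.Tw p p') (hd : G.d p F = 2)
    (hs1 : ∀ x x' y y', Cx G F x x' y y' → y ∈ G.nb p → y' ∈ G.nb p → x ∉ G.nb p →
      x' ∉ G.nb p → P x x' y y')
    (hs2 : ∀ x x' y y', Cx G F x x' y y' → x ∈ G.nb p → y ∈ G.nb p → x' ∉ G.nb p →
      y' ∉ G.nb p → P x x' y y') :
    P l l' h h' ∨ P l' l h h' ∨ P l l' h' h ∨ P l' l h' h := by
  obtain ⟨n1, n2, n3, n4⟩ := c.neF
  have h3 : ∀ x y z, x ∈ F → y ∈ F → z ∈ F → x ∈ G.nb p → y ∈ G.nb p → z ∈ G.nb p → x ≠ y →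
      x ≠ z → y ≠ z → False := by
    intro x y z a1 a2 a3 b1 b2 b3 d1 d2 d3
    have := three_le (A := G.nb p ∩ F) (mem_inter.2 ⟨b1, a1⟩) (mem_inter.2 ⟨b2, a2⟩)
      (mem_inter.2 ⟨b3, a3⟩) d1 d2 d3
    unfold d at hd
    omega
  have h1 : ∀ x, (∀ y ∈ F, y ∈ G.nb p → y = x) → False := by
    intro x hx
    have : G.nb p ∩ F ⊆ {x} := by
      intro y hy
      rw [mem_inter] at hy
      exact mem_singleton.2 (hx y hy.2 hy.1)
    have h4 := card_le_card this
    rw [card_singleton] at h4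
    unfold d at hd
    omega
  by_cases k1 : h ∈ G.nb p
  · by_cases k2 : h' ∈ G.nb p
    · left
      exact hs1 _ _ _ _ c k1 k2 (fun k3 => h3 l h h' c.lF c.hF c.hF' k3 k1 k2 n1 n2 c.hh)
        (fun k3 => h3 l' h h' c.lF' c.hF c.hF' k3 k1 k2 n3 n4 c.hh)
    · by_cases k3 : l ∈ G.nb p
      · left
        exact hs2 _ _ _ _ c k3 k1 (fun k4 => h3 l l' h c.lF c.lF' c.hF k3 k4 k1 c.ll n1 n3) k2
      · by_cases k4 : l' ∈ G.nb p
        · right
          left
          exact hs2 _ _ _ _ c.sl k4 k1 k3 k2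
        · exfalso
          apply h1 h
          intro y hy hyp
          rcases c.all y hy with e | e | e | e
          · exact absurd (e ▸ hyp) k3
          · exact absurd (e ▸ hyp) k4
          · exact e
          · exact absurd (e ▸ hyp) k2
  · by_cases k2 : h' ∈ G.nb p
    · by_cases k3 : l ∈ G.nb p
      · right
        right
        left
        exact hs2 _ _ _ _ c.sh k3 k2
          (fun k4 => h3 l l' h' c.lF c.lF' c.hF' k3 k4 k2 c.ll n2 n4) k1
      · by_cases k4 : l' ∈ G.nb p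
        · right
          right
          right
          exact hs2 _ _ _ _ c.sl.sh k4 k2 k3 k1
        · exfalso
          apply h1 h'
          intro y hy hyp
          rcases c.all y hy with e | e | e | e
          · exact absurd (e ▸ hyp) k3
          · exact absurd (e ▸ hyp) k4
          · exact absurd (e ▸ hyp) k1
          · exact e
    · exact absurd (c.NP hp ht k1 k2) id

/-- expansion, upper bound two -/
theorem expz (c : Cx G F l l' h h') {Z : Finset V} (hZ : Z ⊆ G.N F) (hne : Z.Nonempty) {x y y' : V}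
    (hx : x ∈ F) (hxZ : ∀ u ∈ Z, x ∉ G.nb u) (hy : ∀ u ∈ Z, ∀ z ∈ F, z ∈ G.nb u → z = y ∨ z = y') :
    Z.card ≤ 2 := by
  have h1 : (G.FZ F Z).Nonempty := by
    refine ⟨x, ?_⟩
    rw [FZ, mem_sdiff, mem_N76]
    refine ⟨hx, ?_⟩
    rintro ⟨-, u, hu, hxu⟩
    exact hxZ u hu hxu
  have h2 := (c.Ba.exp F c.L Z hZ hne h1).1
  have h3 : G.N Z ∩ F ⊆ {y, y'} := by
    intro z hz
    rw [mem_inter, mem_N76] at hz
    obtain ⟨⟨-, u, hu, hzu⟩, hzF⟩ := hz
    rw [mem_insert, mem_singleton]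
    exact hy u hu z hzF hzu
  have h4 := card_le_card h3
  have h5 : ({y, y'} : Finset V).card ≤ 2 := card_le_two
  omega

/-- neighbours of the partner in `N F` -/
theorem pTpar (_ : Cx G F l l' h h') {p p' x : V} (ht : G.Tw p p') (hx : x ∈ G.pT F p)
    (hne : x ≠ p') : x ∈ G.pT F p' := by
  rw [mpT] at hx ⊢
  exact ⟨ht.nb33 hx.1 hne, hx.2⟩

/-- a pair `v w` adjacent to `p`: three vertices of `N F` are adjacent to `p` -/
theorem pair3 (c : Cx G F l l' h h') {p p' v w : V} (hp : p ∈ G.N F) (ht : G.Tw p p')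
    (hv : v ∈ G.N F) (hw : w ∈ G.N F) (hvw : G.Tw v w) (h1 : p ∈ G.nb v) (h2 : p ∈ G.nb w) :
    v ≠ p' ∧ w ≠ p' ∧ v ∈ G.pT F p ∧ w ∈ G.pT F p ∧ p' ∈ G.pT F p ∧ 3 ≤ (G.pT F p).card := by
  have hp' := par c.Ba c.L hp ht
  have e1 : v ≠ p' := by
    rintro rfl
    have := uniq c.L hvw ht.sym33
    rw [this] at h2
    exact G.irr _ h2
  have e2 : w ≠ p' := by
    rintro rfl
    have := uniq c.L hvw.sym33 ht.sym33
    rw [this] at h1
    exact G.irr _ h1
  have a1 : v ∈ G.pT F p := mpT.2 ⟨G.sym _ _ h1, hv⟩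
  have a2 : w ∈ G.pT F p := mpT.2 ⟨G.sym _ _ h2, hw⟩
  have a3 : p' ∈ G.pT F p := mpT.2 ⟨ht.1, hp'⟩
  exact ⟨e1, e2, a1, a2, a3, three_le a1 a2 a3 hvw.ne33 e1 e2⟩

/-- a bad pair: the class neighbour -/
theorem badx (c : Cx G F l l' h h') {p p' : V} (hp : p ∈ G.N F) (ht : G.Tw p p')
    (hc : (G.pT F p).card ≤ 2) {x : V} (hx : x ∈ F) (hxp : x ∈ G.nb p)
    (hno : ∀ b ∈ F, G.Low b → b ∈ G.nb p → b = x) :
    ∃ b ∈ G.N F, G.Low b ∧ G.pT F p = {p', b} ∧
      (b ∈ G.nb x ∨ ∃ a ∈ G.N F, a ∈ G.nb b ∧ ¬ G.IsTw a) := by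
  rcases c.cvT hx hp hxp (not_low33 ⟨p', ht⟩) with ⟨b, hb, hl, h1, h2⟩ | ⟨b, hb, hl, h1, h2⟩ |
    ⟨v, hv, w, hw, hvw, -, -, h1, h2⟩
  · exact absurd (hno b hb hl h1) h2
  · refine ⟨b, hb, hl, ?_, h2⟩
    have hp' := par c.Ba c.L hp ht
    have hne : p' ≠ b := by
      rintro rfl
      exact not_low33 ⟨p, ht.sym33⟩ hl
    symm
    apply eq_of_subset_of_card_le
    · intro z hz
      rw [mem_insert, mem_singleton] at hz
      rcases hz with rfl | rfl
      · exact mpT.2 ⟨ht.1, hp'⟩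
      · exact mpT.2 ⟨h1, hb⟩
    · rw [card_pair hne]
      exact hc
  · have := (c.pair3 hp ht hv hw hvw h1 h2).2.2.2.2.2
    omega

theorem badb (c : Cx G F l l' h h') {p p' : V} (hp : p ∈ G.N F) (ht : G.Tw p p')
    (hd : G.d p F = 2) (hc : (G.pT F p).card ≤ 2) :
    ∃ b ∈ G.N F, G.Low b ∧ G.pT F p = {p', b} := by
  have h1 := c.two_cases (P := fun _ _ _ _ => ∃ b ∈ G.N F, G.Low b ∧ G.pT F p = {p', b}) hp ht hd
    (by
      intro x x' y y' c hy hy' hx hx'
      obtain ⟨b, hb, hl, h1, -⟩ := c.badx hp ht hc c.hF hy (fun b hb hl hbp => by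
        rcases c.lowF hb hl with rfl | rfl
        · exact absurd hbp hx
        · exact absurd hbp hx')
      exact ⟨b, hb, hl, h1⟩)
    (by
      intro x x' y y' c hx hy hx' hy'
      obtain ⟨b, hb, hl, h1, -⟩ := c.badx hp ht hc c.lF hx (fun b hb hl hbp => by
        rcases c.lowF hb hl with rfl | rfl
        · rfl
        · exact absurd hbp hx')
      exact ⟨b, hb, hl, h1⟩)
  rcases h1 with h1 | h1 | h1 | h1 <;> exact h1

/-- some vertex is bad -/
theorem bad (c : Cx G F l l' h h') {p : V} (hb0 : Bad G F p) : 4 ≤ ∑ w ∈ G.N F, G.gam5 F w := by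
  obtain ⟨hp, ⟨p', ht⟩, hd, hc⟩ := hb0
  obtain ⟨b, hb, hl, hpT⟩ := c.badb hp ht hd hc
  have hp' := par c.Ba c.L hp ht
  have hbp : b ∈ G.pT F p := by
    rw [hpT]
    exact mem_insert_of_mem (mem_singleton_self _)
  have hne1 : b ≠ p := by
    rintro rfl
    exact not_low33 ⟨_, ht⟩ hl
  have hne2 : b ≠ p' := by
    rintro rfl
    exact not_low33 ⟨_, ht.sym33⟩ hl
  have hpp := ht.ne33
  have hbp' : b ∈ G.pT F p' := c.pTpar ht hbp hne2
  have hpb : p ∈ G.pT F b := mpT.2 ⟨G.sym _ _ (mpT.1 hbp).1, hp⟩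
  have hpb' : p' ∈ G.pT F b := mpT.2 ⟨G.sym _ _ (mpT.1 hbp').1, hp'⟩
  set R := (((G.N F).erase p).erase p').erase b with hR
  have mR : ∀ x, x ∈ R ↔ x ≠ b ∧ x ≠ p' ∧ x ≠ p ∧ x ∈ G.N F := by
    intro x
    rw [hR, mem_erase, mem_erase, mem_erase]
  have m1 : p' ∈ (G.N F).erase p := mem_erase.2 ⟨hpp.symm, hp'⟩
  have m2 : b ∈ ((G.N F).erase p).erase p' := mem_erase.2 ⟨hne2, mem_erase.2 ⟨hne1, hb⟩⟩
  have hcR : R.card = 3 := by
    rw [hR, card_erase_of_mem m2, card_erase_of_mem m1, card_erase_of_mem hp, c6 c.L]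
  have hsum : ∑ w ∈ G.N F, G.gam5 F w =
      G.gam5 F p + (G.gam5 F p' + (G.gam5 F b + ∑ w ∈ R, G.gam5 F w)) := by
    rw [hR, add_sum_erase _ _ m2, add_sum_erase _ _ m1, add_sum_erase _ _ hp]
  have g1 : -1 ≤ G.gam5 F p := (vtw c.B c.L hp ⟨_, ht⟩).2.2.1
    (two_le (mpT.2 ⟨ht.1, hp'⟩) hbp hne2.symm)
  have g2 : -1 ≤ G.gam5 F p' := (vtw c.B c.L hp' ⟨_, ht.sym33⟩).2.2.1
    (two_le (mpT.2 ⟨ht.sym33.1, hp⟩) hbp' hne1.symm)
  obtain ⟨b1, b2, b3, b4⟩ := vlow c.Ba c.B c.L hb hl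
  have b5 := b2 ⟨p, hpb⟩
  have b6 := b4 (two_le hpb hpb' hpp)
  by_cases hbad : ∃ q ∈ R, Bad G F q
  · obtain ⟨q, hqR, hq, ⟨q', hqt⟩, hqd, hqc⟩ := hbad
    obtain ⟨e, he, hel, hqT⟩ := c.badb hq hqt hqd hqc
    have hq' := par c.Ba c.L hq hqt
    obtain ⟨q1, q2, q3, -⟩ := (mR q).1 hqR
    have heq : e ∈ G.pT F q := by
      rw [hqT]
      exact mem_insert_of_mem (mem_singleton_self _)
    have hqe : q ∈ G.pT F e := mpT.2 ⟨G.sym _ _ (mpT.1 heq).1, hq⟩
    have k1 : q' ≠ b := by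
      rintro rfl
      exact not_low33 ⟨_, hqt.sym33⟩ hl
    have k2 : q' ≠ p' := by
      rintro rfl
      exact q3 (uniq c.L hqt.sym33 ht.sym33)
    have k3 : q' ≠ p := by
      rintro rfl
      exact q2 (uniq c.L hqt.sym33 ht)
    have hqR' : q' ∈ R := (mR q').2 ⟨k1, k2, k3, hq'⟩
    have k4 : e ≠ p := by
      rintro rfl
      exact not_low33 ⟨_, ht⟩ hel
    have k5 : e ≠ p' := by
      rintro rfl
      exact not_low33 ⟨_, ht.sym33⟩ hel
    have k6 : e ≠ q := by
      rintro rfl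
      exact not_low33 ⟨_, hqt⟩ hel
    have k7 : e ≠ q' := by
      rintro rfl
      exact not_low33 ⟨_, hqt.sym33⟩ hel
    have heq' : e ∈ G.pT F q' := c.pTpar hqt heq k7
    have k8 : e ≠ b := by
      rintro rfl
      have := four_le hpb hpb' hqe (mpT.2 ⟨G.sym _ _ (mpT.1 heq').1, hq'⟩) hpp q3.symm k3.symm
        q2.symm k2.symm hqt.ne33
      omega
    have heR : e ∈ R := (mR e).2 ⟨k8, k5, k4, he⟩
    have m3 : q' ∈ R.erase q := mem_erase.2 ⟨hqt.ne33.symm, hqR'⟩
    have m4 : e ∈ (R.erase q).erase q' := mem_erase.2 ⟨k7, mem_erase.2 ⟨k6, heR⟩⟩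
    have hc0 : ((R.erase q).erase q').erase e = ∅ := by
      rw [← card_eq_zero, card_erase_of_mem m4, card_erase_of_mem m3, card_erase_of_mem hqR, hcR]
    have hs2 : ∑ w ∈ R, G.gam5 F w = G.gam5 F q + (G.gam5 F q' + G.gam5 F e) := by
      rw [← add_sum_erase _ _ hqR, ← add_sum_erase _ _ m3, ← add_sum_erase _ _ m4, hc0,
        sum_empty, add_zero]
    have g3 : -1 ≤ G.gam5 F q := (vtw c.B c.L hq ⟨_, hqt⟩).2.2.1
      (two_le (mpT.2 ⟨hqt.1, hq'⟩) heq k7.symm)
    have g4 : -1 ≤ G.gam5 F q' := (vtw c.B c.L hq' ⟨_, hqt.sym33⟩).2.2.1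
      (two_le (mpT.2 ⟨hqt.sym33.1, hq⟩) heq' k6.symm)
    have g5 := (vlow c.Ba c.B c.L he hel).2.1 ⟨q, hqe⟩
    rw [hsum, hs2]
    omega
  have hR0 : ∀ x ∈ R, 0 ≤ G.gam5 F x := fun x hx =>
    vnn c.Ba c.B c.L ((mR x).1 hx).2.2.2 (fun hb => hbad ⟨x, hx, hb⟩)
  have hRs := sum_nonneg hR0
  rcases b6 with b6 | ⟨b6, b7, b8⟩
  · rw [hsum]
    omega
  have hbT : G.pT F b = {p, p'} := by
    symm
    apply eq_of_subset_of_card_le
    · intro z hz
      rw [mem_insert, mem_singleton] at hz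
      rcases hz with rfl | rfl <;> assumption
    · obtain ⟨v, w, hvw, e⟩ := b7
      rw [e, card_pair hvw.ne33, card_pair hpp]
  by_cases hs : 2 ≤ ∑ w ∈ R, G.gam5 F w
  · rw [hsum]
    omega
  exfalso
  have s1 : ∀ x ∈ R, G.gam5 F x ≤ 1 := by
    intro x hx
    have := single_le_sum hR0 hx
    omega
  have s2 : ∀ x ∈ R, ∀ y ∈ R, x ≠ y → G.gam5 F x + G.gam5 F y ≤ 1 := by
    intro x hx y hy hxy
    have h1 : ({x, y} : Finset V) ⊆ R := by
      intro z hz
      rw [mem_insert, mem_singleton] at hz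
      rcases hz with rfl | rfl <;> assumption
    have h2 := sum_ge h1 (f := G.gam5 F) (fun z hz => hR0 z (mem_sdiff.1 hz).1)
    rw [sum_pair hxy] at h2
    omega
  have nlR : ∀ x ∈ R, ¬ G.Low x := by
    intro x hx hlx
    have := (vlow c.Ba c.B c.L ((mR x).1 hx).2.2.2 hlx).1
    have := s1 x hx
    omega
  have parR : ∀ x ∈ R, ∀ y, G.Tw x y → y ∈ R := by
    intro x hx y hxy
    obtain ⟨x1, x2, x3, x4⟩ := (mR x).1 hx
    refine (mR y).2 ⟨?_, ?_, ?_, par c.Ba c.L x4 hxy⟩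
    · rintro rfl
      exact not_low33 ⟨_, hxy.sym33⟩ hl
    · rintro rfl
      exact x3 (uniq c.L hxy.sym33 ht.sym33)
    · rintro rfl
      exact x2 (uniq c.L hxy.sym33 ht)
  have hNC : ∀ y ∈ R, NC G F y := by
    intro y hy
    obtain ⟨y1, y2, y3, y4⟩ := (mR y).1 hy
    refine ⟨y4, nlR y hy, ?_, ?_⟩
    · intro e he hel hey
      by_cases e1 : e = b
      · rw [e1] at hey
        have : y ∈ G.pT F b := mpT.2 ⟨G.sym _ _ hey, y4⟩
        rw [hbT, mem_insert, mem_singleton] at this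
        rcases this with e | e
        · exact y3 e
        · exact y2 e
      · refine nlR e ((mR e).2 ⟨e1, ?_, ?_, he⟩) hel
        · rintro rfl
          exact not_low33 ⟨_, ht.sym33⟩ hel
        · rintro rfl
          exact not_low33 ⟨_, ht⟩ hel
    · have key : ∀ v ∈ G.N F, ∀ w, G.Tw v w → y ∈ G.nb v → v ∈ R := by
        intro v hv w hvw h1
        refine (mR v).2 ⟨?_, ?_, ?_, hv⟩
        · rintro rfl
          exact not_low33 ⟨_, hvw⟩ hl
        · rintro rfl
          have h2 := c.pTpar ht.sym33 (mpT.2 ⟨h1, y4⟩) y3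
          rw [hpT, mem_insert, mem_singleton] at h2
          rcases h2 with e | e
          · exact y2 e
          · exact y1 e
        · rintro rfl
          have h2 : y ∈ G.pT F v := mpT.2 ⟨h1, y4⟩
          rw [hpT, mem_insert, mem_singleton] at h2
          rcases h2 with e | e
          · exact y2 e
          · exact y1 e
      intro v hv w hw hvw h1 h2
      have hvR := key v hv w hvw h1
      have hwR := key w hw v hvw.sym33 h2
      have t1 : 2 ≤ (G.pT F v).card := two_le (mpT.2 ⟨hvw.1, hw⟩) (mpT.2 ⟨h1, y4⟩)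
        (ne_of_nb5 h2)
      have t2 : 2 ≤ (G.pT F w).card := two_le (mpT.2 ⟨hvw.sym33.1, hv⟩) (mpT.2 ⟨h2, y4⟩)
        (ne_of_nb5 h1)
      have t3 := s2 v hvR w hwR hvw.ne33
      have t4 := (vtw c.B c.L hv ⟨_, hvw⟩).2.2.2.1 t1
      have t5 := (vtw c.B c.L hw ⟨_, hvw.sym33⟩).2.2.2.1 t2
      have t6 := dpar c.Ba c.L hv hvw
      have t7 := (c.B.tw F c.L v hv ⟨_, hvw⟩).1
      have t8 : G.d v F = 2 := by
        by_contra h3
        have := t4 (by omega)
        have := t5 (by omega)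
        omega
      have t9 : 3 ≤ (G.pT F v).card := by
        by_contra h3
        exact hbad ⟨v, hvR, hv, ⟨_, hvw⟩, t8, by omega⟩
      have t10 : G.pT F v ⊆ R.erase v := by
        intro z hz
        have hz' := mpT.1 hz
        refine mem_erase.2 ⟨(ne_of_nb5 hz'.1).symm, (mR z).2 ⟨?_, ?_, ?_, hz'.2⟩⟩
        · rintro rfl
          have : v ∈ G.pT F z := mpT.2 ⟨G.sym _ _ hz'.1, hv⟩
          rw [hbT, mem_insert, mem_singleton] at this
          obtain ⟨v1, v2, v3, v4⟩ := (mR v).1 hvR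
          rcases this with e | e
          · exact v3 e
          · exact v2 e
        · rintro rfl
          obtain ⟨v1, v2, v3, v4⟩ := (mR v).1 hvR
          have h2 := c.pTpar ht.sym33 (mpT.2 ⟨G.sym _ _ hz'.1, hv⟩) v3
          rw [hpT, mem_insert, mem_singleton] at h2
          rcases h2 with e | e
          · exact v2 e
          · exact v1 e
        · rintro rfl
          obtain ⟨v1, v2, v3, v4⟩ := (mR v).1 hvR
          have h2 : v ∈ G.pT F z := mpT.2 ⟨G.sym _ _ hz'.1, hv⟩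
          rw [hpT, mem_insert, mem_singleton] at h2
          rcases h2 with e | e
          · exact v2 e
          · exact v1 e
      have t11 := card_le_card t10
      rw [card_erase_of_mem hvR, hcR] at t11
      omega
  have hnt : ¬ ∃ a ∈ G.N F, a ∈ G.nb b ∧ ¬ G.IsTw a := by
    rintro ⟨a, ha, hab, hna⟩
    have : a ∈ G.pT F b := mpT.2 ⟨hab, ha⟩
    rw [hbT, mem_insert, mem_singleton] at this
    rcases this with rfl | rfl
    · exact hna ⟨_, ht⟩
    · exact hna ⟨_, ht.sym33⟩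
  have huq : ∀ e ∈ G.N F, G.Low e → G.pT F p = {p', e} → e = b := by
    intro e he hel heT
    rw [heT, mem_insert, mem_singleton] at hbp
    exact (hbp.resolve_left hne2).symm
  have hfin := c.two_cases (P := fun _ _ _ _ => False) hp ht hd
    (by
      intro x x' y y' c hy hy' hx hx'
      have hno : ∀ z, ∀ e ∈ F, G.Low e → e ∈ G.nb p → e = z := by
        intro z e he hel hep
        rcases c.lowF he hel with rfl | rfl
        · exact absurd hep hx
        · exact absurd hep hx'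
      obtain ⟨e, he, hel, h1, h2⟩ := c.badx hp ht hc c.hF hy (hno _)
      obtain ⟨e', he', hel', h1', h2'⟩ := c.badx hp ht hc c.hF' hy' (hno _)
      have e1 := huq e he hel h1
      have e2 := huq e' he' hel' h1'
      subst e1
      subst e2
      have h3 := h2.resolve_right hnt
      have h3' := h2'.resolve_right hnt
      have hE : G.nb e' ∩ F = {y, y'} := by
        symm
        apply eq_of_subset_of_card_le
        · intro z hz
          rw [mem_insert, mem_singleton] at hz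
          rcases hz with rfl | rfl
          · exact mem_inter.2 ⟨G.sym _ _ h3, c.hF⟩
          · exact mem_inter.2 ⟨G.sym _ _ h3', c.hF'⟩
        · rw [card_pair c.hh]
          exact b8.le
      have hP : G.nb p ∩ F = {y, y'} := by
        symm
        apply eq_of_subset_of_card_le
        · intro z hz
          rw [mem_insert, mem_singleton] at hz
          rcases hz with rfl | rfl
          · exact mem_inter.2 ⟨hy, c.hF⟩
          · exact mem_inter.2 ⟨hy', c.hF'⟩
        · rw [card_pair c.hh]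
          exact hd.le
      have hall : ∀ u ∈ ({p, p', e'} : Finset V), ∀ z ∈ F, z ∈ G.nb u → z = y ∨ z = y' := by
        intro u hu z hz hzu
        rw [mem_insert, mem_insert, mem_singleton] at hu
        rcases hu with rfl | rfl | rfl
        · have : z ∈ G.nb u ∩ F := mem_inter.2 ⟨hzu, hz⟩
          rw [hP, mem_insert, mem_singleton] at this
          exact this
        · have : z ∈ G.nb p ∩ F := mem_inter.2
            ⟨ht.sym33.nb33 hzu (fun e => notF hp (e ▸ hz)), hz⟩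
          rw [hP, mem_insert, mem_singleton] at this
          exact this
        · have : z ∈ G.nb u ∩ F := mem_inter.2 ⟨hzu, hz⟩
          rw [hE, mem_insert, mem_singleton] at this
          exact this
      have h4 := c.expz (Z := {p, p', e'}) (by
        intro z hz
        rw [mem_insert, mem_insert, mem_singleton] at hz
        rcases hz with rfl | rfl | rfl <;> assumption) ⟨p, mem_insert_self _ _⟩ c.lF
        (fun u hu hxu => by
          rcases hall u hu x c.lF hxu with e | e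
          · exact c.neF.1 e
          · exact c.neF.2.1 e) hall
      rw [card_insert_of_notMem (by
        rw [mem_insert, mem_singleton]
        rintro (e | e)
        · exact hpp e
        · exact hne1 e.symm), card_pair hne2.symm] at h4
      omega)
    (by
      intro x x' y y' c hx hy hx' hy'
      obtain ⟨e, he, hel, h1, h2⟩ := c.badx hp ht hc c.lF hx (fun e he hel hep => by
        rcases c.lowF he hel with rfl | rfl
        · rfl
        · exact absurd hep hx')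
      have e1 := huq e he hel h1
      subst e1
      have h3 := h2.resolve_right hnt
      have h4 : G.N F ⊆ G.Tz F x := by
        intro z hz
        refine mem_inter.2 ⟨?_, hz⟩
        by_cases z1 : z = e
        · rw [z1]
          exact h3
        by_cases z2 : z = p
        · rw [z2]
          exact G.sym _ _ hx
        by_cases z3 : z = p'
        · rw [z3]
          exact G.sym _ _ (ht.nb33 hx (fun e => notF hp' (e ▸ c.lF)))
        · exact G.sym _ _ (c.A1 (hNC z ((mR z).2 ⟨z1, z3, z2, hz⟩))).1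
      have h5 := card_le_card h4
      rw [c6 c.L] at h5
      have h6 := c.Ba.deg F c.L x c.lF
      have h7 := c.Ba.inn F c.L x c.lF
      have h8 : (G.nb x).card = 6 := c.lo
      omega)
  rcases hfin with h1 | h1 | h1 | h1 <;> exact h1

/-- no bad vertex, small sum: no twin vertex has two neighbours in `F` -/
theorem no2 (c : Cx G F l l' h h') (h0 : ∀ w ∈ G.N F, ¬ Bad G F w)
    (hs : ∑ w ∈ G.N F, G.gam5 F w ≤ 3) {p p' : V} (hp : p ∈ G.N F) (ht : G.Tw p p')
    (hd : G.d p F = 2) : False := by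
  have hp' := par c.Ba c.L hp ht
  have hnn : ∀ w ∈ G.N F, 0 ≤ G.gam5 F w := fun w hw => vnn c.Ba c.B c.L hw (h0 w hw)
  have hT : (G.pT F p).card = 3 := by
    have h1 := (c.B.tw F c.L p hp ⟨_, ht⟩).2.2.2.1
    have h2 : ¬ (G.pT F p).card ≤ 2 := fun h3 => h0 p hp ⟨hp, ⟨_, ht⟩, hd, h3⟩
    omega
  have hlow : ∀ b ∈ G.N F, G.Low b → b ∉ G.nb p := by
    intro b hb hl hbp
    have h1 := (vlow c.Ba c.B c.L hb hl).2.1 ⟨p, mpT.2 ⟨G.sym _ _ hbp, hp⟩⟩
    have h2 := single_le_sum hnn hb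
    omega
  have key : ∀ x ∈ F, x ∈ G.nb p → (∀ b ∈ F, G.Low b → b ∈ G.nb p → b = x) →
      ∃ v ∈ G.N F, ∃ w ∈ G.N F, G.Tw v w ∧ x ∈ G.nb v ∧ x ∈ G.nb w ∧ p ∈ G.nb v ∧
        p ∈ G.nb w := by
    intro x hx hxp hno
    rcases c.cvT hx hp hxp (not_low33 ⟨_, ht⟩) with ⟨b, hb, hl, h1, h2⟩ | ⟨b, hb, hl, h1, -⟩ |
      h1
    · exact absurd (hno b hb hl h1) h2
    · exact absurd h1 (hlow b hb hl)
    · exact h1
  have kd : ∀ v ∈ G.N F, ∀ w ∈ G.N F, G.Tw v w → p ∈ G.nb v → p ∈ G.nb w → G.d v F = 2 := by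
    intro v hv w hw hvw h1 h2
    obtain ⟨e1, e2, -, -, -, -⟩ := c.pair3 hp ht hv hw hvw h1 h2
    have h3 : p' ∈ G.nb v := G.sym _ _ (ht.nb33 (G.sym _ _ h1) e1)
    have h4 := three_le (A := G.pT F v) (mpT.2 ⟨hvw.1, hw⟩) (mpT.2 ⟨h1, hp⟩) (mpT.2 ⟨h3, hp'⟩)
      (ne_of_nb5 h2) e2 ht.ne33
    obtain ⟨h5, -, -, h6, -, -⟩ := c.B.tw F c.L v hv ⟨_, hvw⟩
    omega
  have hfin := c.two_cases (P := fun _ _ _ _ => False) hp ht hd
    (by
      intro x x' y y' c hy hy' hx hx'
      have hno : ∀ z, ∀ e ∈ F, G.Low e → e ∈ G.nb p → e = z := by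
        intro z e he hel hep
        rcases c.lowF he hel with rfl | rfl
        · exact absurd hep hx
        · exact absurd hep hx'
      obtain ⟨v, hv, w, hw, hvw, h1, h2, h3, h4⟩ := key y c.hF hy (hno _)
      obtain ⟨v2, hv2, w2, hw2, hvw2, h1', h2', h3', h4'⟩ := key y' c.hF' hy' (hno _)
      have hdv := kd v hv w hw hvw h3 h4
      obtain ⟨e1, e2, e3, e4, e5, -⟩ := c.pair3 hp ht hv hw hvw h3 h4
      obtain ⟨f1, -, f3, -, -, -⟩ := c.pair3 hp ht hv2 hw2 hvw2 h3' h4'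
      have hy'v : y' ∈ G.nb v := by
        by_cases k1 : v2 = v
        · rw [← k1]
          exact h1'
        by_cases k2 : v2 = w
        · have := hvw.sym33.nb33 (k2 ▸ h1') (fun e => notF hv (e ▸ c.hF'))
          exact this
        · exfalso
          have := four_le e3 e4 e5 f3 hvw.ne33 e1 (Ne.symm k1) e2 (Ne.symm k2) f1.symm
          omega
      have hV : G.nb v ∩ F = {y, y'} := by
        symm
        apply eq_of_subset_of_card_le
        · intro z hz
          rw [mem_insert, mem_singleton] at hz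
          rcases hz with rfl | rfl
          · exact mem_inter.2 ⟨h1, c.hF⟩
          · exact mem_inter.2 ⟨hy'v, c.hF'⟩
        · rw [card_pair c.hh]
          exact hdv.le
      have hP : G.nb p ∩ F = {y, y'} := by
        symm
        apply eq_of_subset_of_card_le
        · intro z hz
          rw [mem_insert, mem_singleton] at hz
          rcases hz with rfl | rfl
          · exact mem_inter.2 ⟨hy, c.hF⟩
          · exact mem_inter.2 ⟨hy', c.hF'⟩
        · rw [card_pair c.hh]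
          exact hd.le
      have hall : ∀ u ∈ ({p, p', v} : Finset V), ∀ z ∈ F, z ∈ G.nb u → z = y ∨ z = y' := by
        intro u hu z hz hzu
        rw [mem_insert, mem_insert, mem_singleton] at hu
        rcases hu with rfl | rfl | rfl
        · have : z ∈ G.nb u ∩ F := mem_inter.2 ⟨hzu, hz⟩
          rw [hP, mem_insert, mem_singleton] at this
          exact this
        · have : z ∈ G.nb p ∩ F := mem_inter.2
            ⟨ht.sym33.nb33 hzu (fun e => notF hp (e ▸ hz)), hz⟩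
          rw [hP, mem_insert, mem_singleton] at this
          exact this
        · have : z ∈ G.nb u ∩ F := mem_inter.2 ⟨hzu, hz⟩
          rw [hV, mem_insert, mem_singleton] at this
          exact this
      have h5 := c.expz (Z := {p, p', v}) (by
        intro z hz
        rw [mem_insert, mem_insert, mem_singleton] at hz
        rcases hz with rfl | rfl | rfl <;> assumption) ⟨p, mem_insert_self _ _⟩ c.lF
        (fun u hu hxu => by
          rcases hall u hu x c.lF hxu with e | e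
          · exact c.neF.1 e
          · exact c.neF.2.1 e) hall
      rw [card_insert_of_notMem (by
        rw [mem_insert, mem_singleton]
        rintro (e | e)
        · exact ht.ne33 e
        · rw [e] at h3
          exact G.irr _ h3), card_pair e1.symm] at h5
      omega)
    (by
      intro x x' y y' c hx hy hx' hy'
      obtain ⟨v, hv, w, hw, hvw, h1, h2, h3, h4⟩ := key x c.lF hx (fun e he hel hep => by
        rcases c.lowF he hel with rfl | rfl
        · rfl
        · exact absurd hep hx')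
      have hdv := kd v hv w hw hvw h3 h4
      obtain ⟨e1, e2, e3, e4, e5, -⟩ := c.pair3 hp ht hv hw hvw h3 h4
      have hxv : x' ∉ G.nb v := by
        intro hxv
        have hV : G.nb v ∩ F = {x, x'} := by
          symm
          apply eq_of_subset_of_card_le
          · intro z hz
            rw [mem_insert, mem_singleton] at hz
            rcases hz with rfl | rfl
            · exact mem_inter.2 ⟨h1, c.lF⟩
            · exact mem_inter.2 ⟨hxv, c.lF'⟩
          · rw [card_pair c.ll]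
            exact hdv.le
        obtain ⟨n1, n2, n3, n4⟩ := c.neF
        refine c.NP hv hvw ?_ ?_
        · intro k
          have : y ∈ G.nb v ∩ F := mem_inter.2 ⟨k, c.hF⟩
          rw [hV, mem_insert, mem_singleton] at this
          rcases this with e | e
          · exact n1 e.symm
          · exact n3 e.symm
        · intro k
          have : y' ∈ G.nb v ∩ F := mem_inter.2 ⟨k, c.hF'⟩
          rw [hV, mem_insert, mem_singleton] at this
          rcases this with e | e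
          · exact n2 e.symm
          · exact n4 e.symm
      have h5 : G.Tz F x' ⊆ G.N F \ {p, p', v, w} := by
        intro z hz
        have hz' := mem_inter.1 hz
        refine mem_sdiff.2 ⟨hz'.2, ?_⟩
        have hxz : x' ∈ G.nb z := G.sym _ _ hz'.1
        intro k
        rw [mem_insert, mem_insert, mem_insert, mem_singleton] at k
        rcases k with rfl | rfl | rfl | rfl
        · exact hx' hxz
        · exact hx' (ht.sym33.nb33 hxz (fun e => notF hp (e ▸ c.lF')))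
        · exact hxv hxz
        · exact hxv (hvw.sym33.nb33 hxz (fun e => notF hv (e ▸ c.lF')))
      have h6 := card_le_card h5
      have h7 : ({p, p', v, w} : Finset V) ⊆ G.N F := by
        intro z hz
        rw [mem_insert, mem_insert, mem_insert, mem_singleton] at hz
        rcases hz with rfl | rfl | rfl | rfl <;> assumption
      have h8 : 4 ≤ ({p, p', v, w} : Finset V).card := by
        refine four_le (x := p) (y := p') (z := v) (u := w) (by simp) (by simp) (by simp)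
          (by simp) ht.ne33 ?_ ?_ e1.symm e2.symm hvw.ne33
        · exact (ne_of_nb5 h3).symm
        · exact (ne_of_nb5 h4).symm
      rw [card_sdiff_of_subset h7, c6 c.L] at h6
      have h9 := c.Ba.deg F c.L x' c.lF'
      have h10 : (G.nb x').card = 6 := c.lo'
      have h11 : G.nb x' ∩ F ⊆ F.erase x' := by
        intro z hz
        rw [mem_inter] at hz
        exact mem_erase.2 ⟨fun e => G.irr x' (e ▸ hz.1), hz.2⟩
      have h12 := card_le_card h11
      rw [card_erase_of_mem c.lF', c.c4] at h12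
      unfold d at h9
      omega)
  rcases hfin with h1 | h1 | h1 | h1 <;> exact h1

/-- all but one vertex of `N F` have no class neighbours in `N F` -/
theorem exe (c : Cx G F l l' h h') (h0 : ∀ w ∈ G.N F, ¬ Bad G F w)
    (hs : ∑ w ∈ G.N F, G.gam5 F w ≤ 3) : ∃ e ∈ G.N F, ∀ y ∈ G.N F, y ≠ e → NC G F y := by
  have hnn : ∀ w ∈ G.N F, 0 ≤ G.gam5 F w := fun w hw => vnn c.Ba c.B c.L hw (h0 w hw)
  have h1 : ∀ x ∈ G.N F, G.gam5 F x ≤ 3 := by
    intro x hx
    have := single_le_sum hnn hx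
    omega
  have h2 : ∀ x ∈ G.N F, ∀ y ∈ G.N F, x ≠ y → G.gam5 F x + G.gam5 F y ≤ 3 := by
    intro x hx y hy hxy
    have k1 : ({x, y} : Finset V) ⊆ G.N F := by
      intro z hz
      rw [mem_insert, mem_singleton] at hz
      rcases hz with rfl | rfl <;> assumption
    have k2 := sum_ge k1 (f := G.gam5 F) (fun z hz => hnn z (mem_sdiff.1 hz).1)
    rw [sum_pair hxy] at k2
    omega
  have h3 : ∀ x ∈ G.N F, ∀ y ∈ G.N F, ∀ z ∈ G.N F, x ≠ y → x ≠ z → y ≠ z →
      G.gam5 F x + (G.gam5 F y + G.gam5 F z) ≤ 3 := by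
    intro x hx y hy z hz hxy hxz hyz
    have k1 : ({x, y, z} : Finset V) ⊆ G.N F := by
      intro u hu
      rw [mem_insert, mem_insert, mem_singleton] at hu
      rcases hu with rfl | rfl | rfl <;> assumption
    have k2 := sum_ge k1 (f := G.gam5 F) (fun u hu => hnn u (mem_sdiff.1 hu).1)
    rw [sum_insert (by simp [hxy, hxz]), sum_pair hyz] at k2
    omega
  /- a pair with a neighbour -/
  have h4 : ∀ v ∈ G.N F, ∀ w ∈ G.N F, ∀ y ∈ G.N F, G.Tw v w → y ∈ G.nb v → y ∈ G.nb w →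
      1 ≤ G.gam5 F v ∧ 3 ≤ G.d v F := by
    intro v hv w hw y hy hvw k1 k2
    have t1 : 2 ≤ (G.pT F v).card := two_le (mpT.2 ⟨hvw.1, hw⟩) (mpT.2 ⟨k1, hy⟩) (ne_of_nb5 k2)
    have t2 := (vtw c.B c.L hv ⟨_, hvw⟩).2.2.2.1 t1
    have t3 := (c.B.tw F c.L v hv ⟨_, hvw⟩).1
    have t4 : 3 ≤ G.d v F := by
      by_contra t4
      exact c.no2 h0 hs hv hvw (by omega)
    exact ⟨t2 t4, t4⟩
  by_cases hlow : ∃ b ∈ G.N F, G.Low b
  · obtain ⟨b, hb, hl⟩ := hlow
    obtain ⟨b1, b2, -, -⟩ := vlow c.Ba c.B c.L hb hl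
    have hbT : ∀ y ∈ G.N F, y ∉ G.nb b := by
      intro y hy hyb
      have := b2 ⟨y, mpT.2 ⟨hyb, hy⟩⟩
      have := h1 b hb
      omega
    have hlu : ∀ e ∈ G.N F, G.Low e → e = b := by
      intro e he hel
      by_contra hne
      have := (vlow c.Ba c.B c.L he hel).1
      have := h2 e he b hb hne
      omega
    refine ⟨b, hb, fun y hy hyb => ⟨hy, fun k => hyb (hlu y hy k), ?_, ?_⟩⟩
    · intro e he hel hey
      rw [hlu e he hel] at hey
      exact hbT y hy (G.sym _ _ hey)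
    · intro v hv w hw hvw k1 k2
      have t1 := (h4 v hv w hw y hy hvw k1 k2).1
      have t2 := (h4 w hw v hv y hy hvw.sym33 k2 k1).1
      have t3 := h3 v hv w hw b hb hvw.ne33 (fun e => not_low33 ⟨w, e ▸ hvw⟩ hl)
        (fun e => not_low33 ⟨v, e ▸ hvw.sym33⟩ hl)
      omega
  · have hnl : ∀ e ∈ G.N F, ¬ G.Low e := fun e he hel => hlow ⟨e, he, hel⟩
    by_cases hy : ∃ y ∈ G.N F, ∃ v ∈ G.N F, ∃ w ∈ G.N F, G.Tw v w ∧ y ∈ G.nb v ∧ y ∈ G.nb w
    · obtain ⟨y0, hy0, v0, hv0, w0, hw0, hvw0, k1, k2⟩ := hy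
      refine ⟨y0, hy0, fun y hy hyy => ⟨hy, hnl y hy, fun e he hel => absurd hel (hnl e he), ?_⟩⟩
      intro v hv w hw hvw k3 k4
      have t1 := h4 v hv w hw y hy hvw k3 k4
      have t2 := h4 w hw v hv y hy hvw.sym33 k4 k3
      have t3 := h4 v0 hv0 w0 hw0 y0 hy0 hvw0 k1 k2
      have t4 := h4 w0 hw0 v0 hv0 y0 hy0 hvw0.sym33 k2 k1
      have hc3 : ∀ a ∈ G.N F, ∀ b, b ∈ G.N F → G.Tw a b → y ∈ G.nb a → y ∈ G.nb b →
          y0 ∈ G.nb a → y0 ∈ G.nb b → 3 ≤ G.d a F → False := by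
        intro a ha b hb hab m1 m2 m3 m4 m5
        have h5 := three_le (A := G.pT F a) (mpT.2 ⟨hab.1, hb⟩) (mpT.2 ⟨m1, hy⟩)
          (mpT.2 ⟨m3, hy0⟩) (ne_of_nb5 m2) (ne_of_nb5 m4) hyy
        have h6 := (c.B.tw F c.L a ha ⟨_, hab⟩).2.2.2.1
        omega
      by_cases e1 : v = v0
      · have e2 : w = w0 := uniq c.L (e1 ▸ hvw) hvw0
        exact hc3 v hv w hw hvw k3 k4 (e1 ▸ k1) (e2 ▸ k2) t1.2
      by_cases e2 : v = w0
      · have e3 : w = v0 := uniq c.L (e2 ▸ hvw) hvw0.sym33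
        exact hc3 v hv w hw hvw k3 k4 (e2 ▸ k2) (e3 ▸ k1) t1.2
      have e3 : w ≠ v0 := fun e => e2 (uniq c.L (e ▸ hvw.sym33) hvw0)
      have e4 : w ≠ w0 := fun e => e1 (uniq c.L (e ▸ hvw.sym33) hvw0.sym33)
      have k5 : ({v, w, v0, w0} : Finset V) ⊆ G.N F := by
        intro u hu
        rw [mem_insert, mem_insert, mem_insert, mem_singleton] at hu
        rcases hu with rfl | rfl | rfl | rfl <;> assumption
      have k6 := sum_ge k5 (f := G.gam5 F) (fun u hu => hnn u (mem_sdiff.1 hu).1)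
      rw [sum_insert (by simp [hvw.ne33, e1, e2]), sum_insert (by simp [e3, e4]),
        sum_pair hvw0.ne33] at k6
      omega
    · obtain ⟨e, he⟩ : (G.N F).Nonempty := by
        rw [← card_pos, c6 c.L]
        norm_num
      refine ⟨e, he, fun y hy' _ => ⟨hy', hnl y hy', fun e he hel => absurd hel (hnl e he), ?_⟩⟩
      intro v hv w hw hvw k3 k4
      exact hy ⟨y, hy', v, hv, w, hw, hvw, k3, k4⟩

theorem final (c : Cx G F l l' h h') : 4 ≤ ∑ w ∈ G.N F, G.gam5 F w := by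
  by_contra hcon
  have h0 : ∀ w ∈ G.N F, ¬ Bad G F w := fun w _ hb => hcon (c.bad hb)
  obtain ⟨e, he, hNC⟩ := c.exe h0 (by omega)
  obtain ⟨y, hy⟩ : ((G.N F).erase e).Nonempty := by
    rw [← card_pos, card_erase_of_mem he, c6 c.L]
    norm_num
  rw [mem_erase] at hy
  have hyN := hNC y hy.2 hy.1
  have hlc : ∀ x x' z z', Cx G F x x' z z' → G.d x F ≤ 1 := by
    intro x x' z z' c
    have h1 : (G.N F).erase e ⊆ G.Tz F x := by
      intro u hu
      rw [mem_erase] at hu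
      exact mem_inter.2 ⟨G.sym _ _ (c.A1 (hNC u hu.2 hu.1)).1, hu.2⟩
    have h2 := card_le_card h1
    rw [card_erase_of_mem he, c6 c.L] at h2
    have h3 := c.Ba.deg F c.L x c.lF
    have h4 : (G.nb x).card = 6 := c.lo
    omega
  have d1 := hlc _ _ _ _ c
  have d2 := hlc _ _ _ _ c.sl
  have hone : ∀ x u v, u ∈ F → v ∈ F → u ∈ G.nb x → v ∈ G.nb x → G.d x F ≤ 1 → u = v := by
    intro x u v hu hv k1 k2 k3
    by_contra hne
    have := two_le (A := G.nb x ∩ F) (mem_inter.2 ⟨k1, hu⟩) (mem_inter.2 ⟨k2, hv⟩) hne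
    unfold d at k3
    omega
  have hll : l ∈ G.nb l' := by
    rcases c.A2 hyN with h1 | ⟨a, ha, h1⟩
    · exact h1
    rcases c.sl.A2 hyN with h2 | ⟨a', ha', h2⟩
    · exact G.sym _ _ h2
    exfalso
    have h3 : a = a' := hone l a a' ha ha' (G.sym _ _ (HL_t76 h1)) (G.sym _ _ h2.2.2.1) d1
    subst h3
    exact (stTwHL_5 G).nomut (n9 c.L) _ _ _ _ _ h1 h2 rfl
  obtain ⟨n1, n2, n3, n4⟩ := c.neF
  have k1 : h ∉ G.nb l := fun k => n3 (hone l l' h c.lF' c.hF (G.sym _ _ hll) k d1)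
  have k2 : h ∉ G.nb l' := fun k => n1 (hone l' l h c.lF c.hF hll k d2)
  have k3 : G.nb h ∩ F ⊆ {h'} := by
    intro u hu
    rw [mem_inter] at hu
    rw [mem_singleton]
    rcases c.all u hu.2 with e | e | e | e
    · exact absurd (G.sym _ _ (e ▸ hu.1)) k1
    · exact absurd (G.sym _ _ (e ▸ hu.1)) k2
    · exact absurd (e ▸ hu.1) (G.irr _)
    · exact e
  have k4 := card_le_card k3
  rw [card_singleton] at k4
  have k5 := c.Ba.deg F c.L h c.hF
  have k6 : 7 ≤ (G.nb h).card := by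
    have h1 := G.deg h
    have h2 : (G.nb h).card ≠ 6 := c.hu.1
    omega
  have k7 : G.Tz F h = G.N F := by
    have k : (G.N F).card ≤ (G.Tz F h).card := by
      rw [c6 c.L]
      unfold d at k5
      omega
    exact eq_of_subset_of_card_le inter_subset_right k
  have k8 : y ∈ G.nb h := by
    have : y ∈ G.Tz F h := by
      rw [k7]
      exact hy.2
    exact (mem_inter.1 this).1
  obtain ⟨-, hn, h1, h2⟩ := hyN
  have k9 : ∀ b ∈ F, G.Low b → b ∉ G.nb h := by
    intro b hb hl hbh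
    rcases c.lowF hb hl with rfl | rfl
    · exact k1 (G.sym _ _ hbh)
    · exact k2 (G.sym _ _ hbh)
  rcases c.L.cov h c.hF y (mem_union_right _ hy.2) k8 with
    ⟨w, hw, hl, h3, h4⟩ | ⟨v, hv, w, hw, ht, h3, h4, h5, h6⟩ | ⟨a, b, hab, h3, h4, hs⟩ |
    ⟨a, b, hab, h3, h4, hs⟩ | ⟨a, b, hab, hs⟩
  · rcases mem_union.1 hw with hw | hw
    · exact k9 w hw hl (G.sym _ _ h3)
    · exact h1 w hw hl (G.sym _ _ h4)
  · have hv' : v ∈ G.N F := (mem_union.1 hv).resolve_left fun e => c.ntF e ⟨w, ht⟩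
    have hw' : w ∈ G.N F := (mem_union.1 hw).resolve_left fun e => c.ntF e ⟨v, ht.sym33⟩
    exact h2 v hv' w hw' ht h5 h6
  · exact hn (c.L.sat _ _ _ hab)
  · exact c.hu.1 (c.L.sat _ _ _ hab)
  · rcases hs with ⟨ha, hb⟩ | ⟨ha, hb⟩
    · exact k9 a ha hab.1 (G.sym _ _ (LL_t76 hab))
    · exact h1 b hb hab.2.1 (G.sym _ _ (LL_u76 hab))

end Cx

end H1x44

open H1x44

theorem st6LLHH_44 (G : CG V) (hBa : G.StLBas) (hB : G.StLB) : G.St6LLHH := by
  intro F hF l l' h h' hFe hl hh h1 h2 h3 h4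
  refine Cx.final (l := l) (l' := l') (h := h) (h' := h')
    { L := hF.1, B := hB, Ba := hBa, c4 := hF.2, lF := ?_, lF' := ?_, hF := ?_, hF' := ?_,
      all := ?_, ll := hl, hh := hh, lo := h1, lo' := h2, hu := h3, hu' := h4 }
  · rw [hFe]
    simp
  · rw [hFe]
    simp
  · rw [hFe]
    simp
  · rw [hFe]
    simp
  · intro x hx
    rw [hFe] at hx
    simpa using hx

end CG

end Pool.Agent.Lib.MP_e95c01_co.N
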