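import Pool.Agent.Lib.MP_e95c01_co.X.StmtsH76
import Pool.Agent.Lib.MP_e95c01_co.X.G01_16
import Pool.Agent.Lib.MP_e95c01_co.T.F5_30

/-!
# `λ = 3`, leaves with four vertices: two lows and a pair of twins (H2)
-/

namespace Pool.Agent.Lib.MP_e95c01_co.N

open Finset

variable {V : Type} [Fintype V] [DecidableEq V]

namespace CG

namespace H2x42

variable {G : CG V} {F : Finset V} {l l' v w z z' b b' : V}

theorem mem_pT {F : Finset V} {x y : V} : x ∈ G.pT F y ↔ x ∈ G.nb y ∧ x ∈ G.N F := mem_inter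

theorem three_le {S : Finset V} {x y z : V} (hx : x ∈ S) (hy : y ∈ S) (hz : z ∈ S) (h1 : x ≠ y)
    (h2 : x ≠ z) (h3 : y ≠ z) : 3 ≤ S.card := by
  have h : ({x, y, z} : Finset V) ⊆ S := by
    intro u hu
    rw [mem_insert, mem_insert, mem_singleton] at hu
    rcases hu with h | h | h
    · rw [h]; exact hx
    · rw [h]; exact hy
    · rw [h]; exact hz
  have h4 := card_le_card h
  rw [card_insert_of_notMem, card_pair h3] at h4
  · exact h4
  · rw [mem_insert, mem_singleton]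
    rintro (h5 | h5)
    · exact h1 h5
    · exact h2 h5

/-- the situation -/
structure Cx (G : CG V) (F : Finset V) (l l' v w : V) : Prop where
  hF : G.Lf F
  hBas : G.StLBas
  hB : G.StLB
  lF : l ∈ F
  lF' : l' ∈ F
  vF : v ∈ F
  wF : w ∈ F
  all : ∀ x ∈ F, x = l ∨ x = l' ∨ x = v ∨ x = w
  ne : l ≠ l'
  low : G.Low l
  low' : G.Low l'
  tw : G.Tw v w

namespace Cx

theorem swap (c : Cx G F l l' v w) : Cx G F l' l v w where
  hF := c.hF
  hBas := c.hBas
  hB := c.hB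
  lF := c.lF'
  lF' := c.lF
  vF := c.vF
  wF := c.wF
  all := fun x hx => by
    rcases c.all x hx with h | h | h | h
    · exact Or.inr (Or.inl h)
    · exact Or.inl h
    · exact Or.inr (Or.inr (Or.inl h))
    · exact Or.inr (Or.inr (Or.inr h))
  ne := c.ne.symm
  low := c.low'
  low' := c.low
  tw := c.tw

theorem n9 (c : Cx G F l l' v w) : 9 ≤ Fintype.card V := by
  have := c.hF.n12
  omega

theorem notF (_ : Cx G F l l' v w) {x : V} (hx : x ∈ G.N F) : x ∉ F :=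
  (mem_N76.1 hx).1

theorem uniq (c : Cx G F l l' v w) {x y y' : V} (h : G.Tw x y)
    (h' : G.Tw x y') : y = y' := (stTwHL_5 G).uniq c.n9 _ _ _ h h'

theorem vw (c : Cx G F l l' v w) {x : V} (hx : x ∈ G.N F) (h : v ∈ G.nb x) :
    w ∈ G.nb x :=
  G.sym _ _ (Tw_nb5 c.tw (G.sym _ _ h) (fun h1 => c.notF hx (h1 ▸ c.wF)))

theorem wv (c : Cx G F l l' v w) {x : V} (hx : x ∈ G.N F) (h : w ∈ G.nb x) :
    v ∈ G.nb x :=
  G.sym _ _ (Tw_nb5 c.tw.sym33 (G.sym _ _ h) (fun h1 => c.notF hx (h1 ▸ c.vF)))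

theorem lv (c : Cx G F l l' v w) : l ≠ v := fun h => not_low33 ⟨_, c.tw⟩ (h ▸ c.low)

theorem lw (c : Cx G F l l' v w) : l ≠ w := fun h => not_low33 ⟨_, c.tw.sym33⟩ (h ▸ c.low)

/-- twins of `N F` see the same vertices of `F` -/
theorem cls (c : Cx G F l l' v w) {p r x : V} (h : G.Tw p r) (hp : p ∈ G.N F) (hx : x ∈ F)
    (hxp : x ∈ G.nb p) : x ∈ G.nb r :=
  Tw_nb5 h hxp (fun h1 => c.notF ((c.hBas.twT F c.hF _ _ h).1 hp) (h1 ▸ hx))

theorem par (c : Cx G F l l' v w) {p r : V} (h : G.Tw p r) (hp : p ∈ G.N F) : r ∈ G.N F :=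
  (c.hBas.twT F c.hF _ _ h).1 hp

theorem dsum (c : Cx G F l l' v w) (x : V) :
    G.d x F = (if l ∈ G.nb x then 1 else 0) + (if l' ∈ G.nb x then 1 else 0) +
      (if v ∈ G.nb x then 1 else 0) + (if w ∈ G.nb x then 1 else 0) := by
  have h4 : F = {l, l', v, w} := by
    ext x
    simp only [mem_insert, mem_singleton]
    constructor
    · exact c.all x
    · rintro (h | h | h | h)
      · rw [h]; exact c.lF
      · rw [h]; exact c.lF'
      · rw [h]; exact c.vF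
      · rw [h]; exact c.wF
  have e1 : G.d x F = ∑ y ∈ F, if y ∈ G.nb x then 1 else 0 := by
    rw [d, inter_comm, ← filter_mem_eq_inter, card_filter]
  rw [e1, h4, sum_insert, sum_insert, sum_insert, sum_singleton]
  · ring
  · rw [mem_singleton]
    exact c.tw.ne33
  · rw [mem_insert, mem_singleton]
    rintro (h | h)
    · exact c.swap.lv h
    · exact c.swap.lw h
  · rw [mem_insert, mem_insert, mem_singleton]
    rintro (h | h | h)
    · exact c.ne h
    · exact c.lv h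
    · exact c.lw h

theorem dT (c : Cx G F l l' v w) {x : V} (hx : x ∈ G.N F) :
    G.d x F = (if l ∈ G.nb x then 1 else 0) + (if l' ∈ G.nb x then 1 else 0) +
      (if v ∈ G.nb x then 2 else 0) := by
  rw [c.dsum]
  by_cases h : v ∈ G.nb x
  · simp only [if_pos h, if_pos (c.vw hx h)]
  · simp only [if_neg h, if_neg (fun h1 => h (c.wv hx h1))]

/-- a low vertex of `F` misses `d` vertices -/
theorem mL (c : Cx G F l l' v w) : (G.N F \ G.nb l).card = G.d l F := by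
  have h1 := c.hBas.deg F c.hF l c.lF
  have h2 : (G.nb l).card = 6 := c.low
  have h3 : (G.N F).card = 6 := c.hF.big.1.2.1
  have h4 := card_sdiff_add_card_inter (G.N F) (G.nb l)
  rw [inter_comm] at h4
  have h5 : (G.nb l ∩ G.N F).card = (G.Tz F l).card := rfl
  omega

theorem mV (c : Cx G F l l' v w) : (G.N F \ G.nb v).card + 1 = G.d v F := by
  have h1 := c.hBas.deg F c.hF v c.vF
  have h2 : (G.nb v).card = 7 := c.tw.2.1
  have h3 : (G.N F).card = 6 := c.hF.big.1.2.1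
  have h4 := card_sdiff_add_card_inter (G.N F) (G.nb v)
  rw [inter_comm] at h4
  have h5 : (G.nb v ∩ G.N F).card = (G.Tz F v).card := rfl
  have h6 : (G.N F ∩ G.nb v).card = (G.nb v ∩ G.N F).card := by rw [inter_comm]
  have h7 : (G.Tz F v).card ≤ (G.N F).card := card_le_card inter_subset_right
  omega

theorem posA (c : Cx G F l l' v w) {x : V} (hx : x ∈ G.N F) (h : v ∉ G.nb x) :
    l ∈ G.nb x ∧ l' ∈ G.nb x := by
  have h1 := c.hBas.pos F c.hF x hx
  rw [c.dT hx, if_neg h] at h1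
  constructor
  · by_contra h2
    rw [if_neg h2] at h1
    split_ifs at h1 <;> omega
  · by_contra h2
    rw [if_neg h2] at h1
    split_ifs at h1 <;> omega

theorem posV (c : Cx G F l l' v w) {x : V} (hx : x ∈ G.N F) (h : l ∉ G.nb x) : v ∈ G.nb x := by
  by_contra h1
  exact h (c.posA hx h1).1

theorem d4 (c : Cx G F l l' v w) {x : V} (hx : x ∈ G.N F) : 2 ≤ G.d x F ∧ G.d x F ≤ 4 := by
  refine ⟨c.hBas.pos F c.hF x hx, ?_⟩
  rw [c.dT hx]
  split_ifs <;> omega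

/-! ### values -/

theorem g2 (c : Cx G F l l' v w) {x : V} (hx : x ∈ G.N F) (hl : G.Low x) :
    2 ≤ G.gam5 F x ∧ (∀ y ∈ G.pT F x, 4 ≤ G.gam5 F x) ∧ (3 ≤ G.d x F → 6 ≤ G.gam5 F x) ∧
      (G.d x F = 4 → (G.pT F x).card ≤ 1) ∧ (G.d x F = 3 → (G.pT F x).card ≤ 2) := by
  have hd := c.d4 hx
  have hc : (0 : ℤ) ≤ ((G.pT F x).card : ℤ) := Int.natCast_nonneg _
  have h2 : G.d x F = 2 ∨ G.d x F = 3 ∨ G.d x F = 4 := by omega
  rcases h2 with h | h | h
  · obtain ⟨-, -, k3⟩ := c.hB.low2 F c.hF x hx hl h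
    refine ⟨?_, ?_, fun h1 => by omega, fun h1 => by omega, fun h1 => by omega⟩
    · have : (0 : ℤ) ≤ min (2 * ((G.pT F x).card : ℤ)) 2 := le_min (by linarith) (by norm_num)
      linarith
    · intro y hy
      have h1 : (1 : ℤ) ≤ ((G.pT F x).card : ℤ) := by
        have : 1 ≤ (G.pT F x).card := Finset.card_pos.2 ⟨_, hy⟩
        exact_mod_cast this
      have : (2 : ℤ) ≤ min (2 * ((G.pT F x).card : ℤ)) 2 := le_min (by linarith) le_rfl
      linarith
  · obtain ⟨k0, k1, -⟩ := c.hB.low3 F c.hF x hx hl h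
    exact ⟨by linarith, fun y _ => by linarith, fun _ => k1, fun h1 => by omega, fun _ => k0⟩
  · obtain ⟨k0, k1, -⟩ := c.hB.low4 F c.hF x hx hl h
    exact ⟨by linarith, fun y _ => by linarith, fun _ => by linarith, fun _ => k0,
      fun h1 => by omega⟩

theorem gen (c : Cx G F l l' v w) {x : V} (hx : x ∈ G.N F) :
    -2 ≤ G.gam5 F x ∧ (¬ (G.IsTw x ∧ G.d x F = 2) → 0 ≤ G.gam5 F x) := by
  by_cases hl : G.Low x
  · have := (c.g2 hx hl).1
    exact ⟨by linarith, fun _ => by linarith⟩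
  · by_cases ht : G.IsTw x
    · obtain ⟨k1, k2, k3, k4, k5, k6⟩ := c.hB.tw F c.hF x hx ht
      have k7 : (1 : ℤ) ≤ ((G.pT F x).card : ℤ) := by exact_mod_cast k3
      have k8 : (2 : ℤ) ≤ (G.d x F : ℤ) := by exact_mod_cast k1
      constructor
      · by_cases h : G.d x F ≤ 3
        · have := k5 h
          linarith
        · have := k6 (by omega)
          linarith
      · intro h
        by_cases h' : G.d x F ≤ 3
        · have h3 : G.d x F = 3 := by
            by_contra h4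
            exact h ⟨ht, by omega⟩
          have := k5 h'
          rw [h3] at this
          push_cast at this
          linarith
        · have := k6 (by omega)
          linarith
    · rw [c.hB.hub F c.hF x hx ⟨hl, ht⟩]
      exact ⟨by norm_num, fun _ => le_refl _⟩

theorem one4 (_ : Cx G F l l' v w) (h0 : ∀ x ∈ G.N F, 0 ≤ G.gam5 F x) {u : V} (hu : u ∈ G.N F)
    (h : 4 ≤ G.gam5 F u) : 4 ≤ ∑ x ∈ G.N F, G.gam5 F x :=
  le_trans h (single_le_sum h0 hu)

theorem negS (c : Cx G F l l' v w) (hA : (G.N F \ G.nb v).card = 2) {S : Finset V}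
    (hS : ∀ x ∈ S, x ∈ G.N F ∧ v ∈ G.nb x) (h8 : 8 ≤ ∑ x ∈ S, G.gam5 F x)
    (h0 : ∀ x ∈ G.N F, v ∈ G.nb x → x ∉ S → 0 ≤ G.gam5 F x) :
    4 ≤ ∑ x ∈ G.N F, G.gam5 F x := by
  have h1 := sum_inter_add_sum_sdiff (G.N F) (G.nb v) (fun x => G.gam5 F x)
  have h2 := card_nsmul_le_sum (G.N F \ G.nb v) (fun x => G.gam5 F x) (-2)
    (fun x hx => (c.gen (mem_sdiff.1 hx).1).1)
  rw [hA] at h2
  have h3 : ∑ x ∈ S, G.gam5 F x ≤ ∑ x ∈ G.N F ∩ G.nb v, G.gam5 F x := by
    refine sum_le_sum_of_subset_of_nonneg ?_ ?_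
    · intro x hx
      exact mem_inter.2 ⟨(hS x hx).1, G.sym _ _ (hS x hx).2⟩
    · intro x hx hxS
      exact h0 x (mem_inter.1 hx).1 (G.sym _ _ (mem_inter.1 hx).2) hxS
  simp only [nsmul_eq_mul] at h2
  push_cast at h2
  linarith

/-! ### covers -/

theorem noHL (c : Cx G F l l' v w) {p r t : V} (hp : p ∈ F) : ¬ G.HL p r t := by
  intro h1
  rcases c.all p hp with h | h | h | h
  · exact HL_not_low76 h1 (h ▸ c.low)
  · exact HL_not_low76 h1 (h ▸ c.low')
  · exact (stTwHL_5 G).notHL c.n9 _ _ _ h1 (h ▸ ⟨_, c.tw⟩)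
  · exact (stTwHL_5 G).notHL c.n9 _ _ _ h1 (h ▸ ⟨_, c.tw.sym33⟩)

theorem covV (c : Cx G F l l' v w) {y : V} (hy : y ∈ G.N F) (hv : v ∈ G.nb y)
    (h1 : v ∈ G.nb l → l ∉ G.nb y) (h2 : v ∈ G.nb l' → l' ∉ G.nb y) :
    (∃ u ∈ G.N F, G.Low u ∧ v ∈ G.nb u ∧ y ∈ G.nb u) ∨
    (∃ p ∈ G.N F, ∃ r ∈ G.N F, G.Tw p r ∧ v ∈ G.nb p ∧ v ∈ G.nb r ∧ y ∈ G.nb p ∧
      y ∈ G.nb r) ∨
    (∃ p ∈ G.N F, ∃ r ∈ G.N F, G.HL p r y ∧ v ∈ G.nb r ∧ v ∈ G.nb p) := by
  have noF : ∀ u ∈ F, G.Low u → v ∈ G.nb u → y ∉ G.nb u := by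
    intro u hu hl hvu hyu
    rcases c.all u hu with h | h | h | h
    · rw [h] at hvu hyu
      exact h1 hvu (G.sym _ _ hyu)
    · rw [h] at hvu hyu
      exact h2 hvu (G.sym _ _ hyu)
    · exact not_low33 ⟨_, c.tw⟩ (h ▸ hl)
    · exact not_low33 ⟨_, c.tw.sym33⟩ (h ▸ hl)
  rcases c.hF.cov v c.vF y (mem_union.2 (Or.inr hy)) (G.sym _ _ hv) with h | h | h | h | h
  · obtain ⟨u, k1, k2, k3, k4⟩ := h
    rcases mem_union.1 k1 with k5 | k5
    · exact absurd k4 (noF u k5 k2 k3)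
    · exact Or.inl ⟨u, k5, k2, k3, k4⟩
  · obtain ⟨p, hp, r, hr, k1, k2, k3, k4, k5⟩ := h
    have key : ∀ p r, p ∈ F ∪ G.N F → G.Tw p r → v ∈ G.nb p → v ∈ G.nb r → p ∈ G.N F := by
      intro p r hp k1 k2 k3
      rcases mem_union.1 hp with k4 | k4
      · exfalso
        rcases c.all p k4 with h | h | h | h
        · exact not_low33 ⟨_, k1⟩ (h ▸ c.low)
        · exact not_low33 ⟨_, k1⟩ (h ▸ c.low')
        · rw [h] at k2
          exact G.irr _ k2
        · rw [h] at k1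
          rw [← c.uniq c.tw.sym33 k1] at k3
          exact G.irr _ k3
      · exact k4
    exact Or.inr (Or.inl ⟨p, key p r hp k1 k2 k3, r, key r p hr k1.sym33 k3 k2, k1, k2, k3,
      k4, k5⟩)
  · obtain ⟨p, r, k1, k2, k3, k4 | k4⟩ := h
    · exact absurd k1 (c.noHL k4.1)
    · exact Or.inr (Or.inr ⟨p, k4.1, r, k4.2, k1, k2, k3⟩)
  · obtain ⟨p, r, k1, -⟩ := h
    exact absurd (c.hF.sat _ _ _ k1) (not_low33 ⟨_, c.tw⟩)
  · obtain ⟨p, r, k1, -⟩ := h
    exact absurd ⟨_, c.tw⟩ ((stTwHL_5 G).twLL _ _ _ _ k1).1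

theorem covL (c : Cx G F l l' v w) (he : l' ∉ G.nb l) {y : V} (hy : y ∈ G.N F)
    (hv : v ∉ G.nb y) :
    (∃ u ∈ G.N F, G.Low u ∧ l ∈ G.nb u ∧ y ∈ G.nb u) ∨
    (∃ p ∈ G.N F, ∃ r ∈ G.N F, G.Tw p r ∧ l ∈ G.nb p ∧ l ∈ G.nb r ∧ y ∈ G.nb p ∧
      y ∈ G.nb r) ∨
    (∃ p ∈ G.N F, ∃ r ∈ G.N F, G.HL p r y) ∨
    (∃ p ∈ G.N F, ∃ r ∈ G.N F, G.HL p r l ∧ y ∈ G.nb r ∧ y ∈ G.nb p) ∨
    (∃ p ∈ G.N F, ∃ r ∈ G.N F, G.LL p r l y) := by
  have noF : ∀ u ∈ F, G.Low u → l ∉ G.nb u := by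
    intro u hu hl hlu
    rcases c.all u hu with h | h | h | h
    · rw [h] at hlu
      exact G.irr _ hlu
    · rw [h] at hlu
      exact he (G.sym _ _ hlu)
    · exact not_low33 ⟨_, c.tw⟩ (h ▸ hl)
    · exact not_low33 ⟨_, c.tw.sym33⟩ (h ▸ hl)
  rcases c.hF.cov l c.lF y (mem_union.2 (Or.inr hy)) (G.sym _ _ (c.posA hy hv).1) with
    h | h | h | h | h
  · obtain ⟨u, k1, k2, k3, k4⟩ := h
    rcases mem_union.1 k1 with k5 | k5
    · exact absurd k3 (noF u k5 k2)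
    · exact Or.inl ⟨u, k5, k2, k3, k4⟩
  · obtain ⟨p, hp, r, hr, k1, k2, k3, k4, k5⟩ := h
    have key : ∀ p r, p ∈ F ∪ G.N F → G.Tw p r → y ∈ G.nb p → p ∈ G.N F := by
      intro p r hp k1 k2
      rcases mem_union.1 hp with k4 | k4
      · exfalso
        rcases c.all p k4 with h | h | h | h
        · exact not_low33 ⟨_, k1⟩ (h ▸ c.low)
        · exact not_low33 ⟨_, k1⟩ (h ▸ c.low')
        · rw [h] at k2
          exact hv (G.sym _ _ k2)
        · rw [h] at k2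
          exact hv (c.wv hy (G.sym _ _ k2))
      · exact k4
    exact Or.inr (Or.inl ⟨p, key p r hp k1 k4, r, key r p hr k1.sym33 k5, k1, k2, k3,
      k4, k5⟩)
  · obtain ⟨p, r, k1, k2, k3, k4 | k4⟩ := h
    · exact absurd k1 (c.noHL k4.1)
    · exact Or.inr (Or.inr (Or.inl ⟨p, k4.1, r, k4.2, k1⟩))
  · obtain ⟨p, r, k1, k2, k3, k4 | k4⟩ := h
    · exact absurd k1 (c.noHL k4.1)
    · exact Or.inr (Or.inr (Or.inr (Or.inl ⟨p, k4.1, r, k4.2, k1, k2, k3⟩)))
  · obtain ⟨p, r, k1, k4 | k4⟩ := h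
    · exact absurd (LL_t76 k1) (noF p k4.1 k1.1)
    · exact Or.inr (Or.inr (Or.inr (Or.inr ⟨p, k4.1, r, k4.2, k1⟩)))

/-! ### one of the lows is not adjacent to the twins -/

theorem caseI (c : Cx G F l l' v w) (h : v ∉ G.nb l') : 4 ≤ ∑ x ∈ G.N F, G.gam5 F x := by
  have hw : w ∉ G.nb l' := fun h1 => h (G.sym _ _ (Tw_nb5 c.tw.sym33 (G.sym _ _ h1)
    c.swap.lv))
  have e0 : l' ∉ G.nb v := fun h1 => h (G.sym _ _ h1)
  have e1 : l ∈ G.nb l' := by
    by_contra h1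
    have h2 := c.hBas.inn F c.hF l' c.lF'
    rw [c.dsum, if_neg h1, if_neg (G.irr l'), if_neg h, if_neg hw] at h2
    omega
  have d1 : (G.N F \ G.nb l').card = 1 := by
    rw [c.swap.mL, c.dsum, if_pos e1, if_neg (G.irr l'), if_neg h, if_neg hw]
  have d2 : (G.N F \ G.nb v).card ≤ 1 := by
    have h1 := c.mV
    rw [c.dsum, if_neg e0, if_neg (G.irr v), if_pos c.tw.1] at h1
    split_ifs at h1 <;> omega
  have d3 : 1 ≤ (G.N F \ G.nb l).card := by
    rw [c.mL, c.dsum, if_pos (G.sym _ _ e1)]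
    omega
  -- two vertices of one class miss neither `l'` nor `v`
  have tw1 : ∀ {p r : V}, G.Tw p r → p ∈ G.N F → l' ∈ G.nb p ∧ v ∈ G.nb p := by
    intro p r h1 hp
    have hr := c.par h1 hp
    constructor
    · by_contra h2
      have h3 : l' ∉ G.nb r := fun h4 => h2 (c.cls h1.sym33 hr c.lF' h4)
      have := two_le5 (mem_sdiff.2 ⟨hp, fun h4 => h2 (G.sym _ _ h4)⟩ : p ∈ G.N F \ G.nb l')
        (mem_sdiff.2 ⟨hr, fun h4 => h3 (G.sym _ _ h4)⟩) h1.ne33
      omega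
    · by_contra h2
      have h3 : v ∉ G.nb r := fun h4 => h2 (c.cls h1.sym33 hr c.vF h4)
      have := two_le5 (mem_sdiff.2 ⟨hp, fun h4 => h2 (G.sym _ _ h4)⟩ : p ∈ G.N F \ G.nb v)
        (mem_sdiff.2 ⟨hr, fun h4 => h3 (G.sym _ _ h4)⟩) h1.ne33
      omega
  have h0 : ∀ x ∈ G.N F, 0 ≤ G.gam5 F x := by
    intro x hx
    refine (c.gen hx).2 ?_
    rintro ⟨⟨y, hy⟩, h2⟩
    obtain ⟨k1, k2⟩ := tw1 hy hx
    rw [c.dT hx, if_pos k1, if_pos k2] at h2
    omega
  -- a low with a neighbour in `N F`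
  have fin : ∀ u ∈ G.N F, G.Low u → ∀ y ∈ G.N F, y ∈ G.nb u →
      4 ≤ ∑ x ∈ G.N F, G.gam5 F x := by
    intro u hu hl y hy h1
    exact c.one4 h0 hu ((c.g2 hu hl).2.1 y (mem_pT.2 ⟨h1, hy⟩))
  obtain ⟨y, hy⟩ := Finset.card_pos.1 d3
  obtain ⟨hyN, hy2⟩ := mem_sdiff.1 hy
  have hyl : l ∉ G.nb y := fun h1 => hy2 (G.sym _ _ h1)
  rcases c.covV hyN (c.posV hyN hyl) (fun _ => hyl) (fun h1 => absurd h1 h) with h1 | h1 | h1
  · obtain ⟨u, hu, k1, k2, k3⟩ := h1
    exact fin u hu k1 y hyN k3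
  · obtain ⟨p, hp, r, hr, k1, k2, k3, k4, k5⟩ := h1
    obtain ⟨j1, j2⟩ := tw1 k1 hp
    have hyr : y ≠ r := (ne_of_nb5 k5).symm
    have m1 : y ∈ G.pT F p := mem_pT.2 ⟨k4, hyN⟩
    have m2 : r ∈ G.pT F p := mem_pT.2 ⟨k1.1, hr⟩
    have h2 := two_le5 m1 m2 hyr
    obtain ⟨-, -, -, i4, -, -⟩ := c.hB.tw F c.hF p hp ⟨_, k1⟩
    have hlp : l ∉ G.nb p := by
      intro h3
      have h4 := c.dT hp
      rw [if_pos h3, if_pos j1, if_pos j2] at h4
      omega
    have hd3 : G.d p F = 3 := by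
      rw [c.dT hp, if_neg hlp, if_pos j1, if_pos j2]
    rcases c.covV hp k2 (fun _ => hlp) (fun h1 => absurd h1 h) with h3 | h3 | h3
    · obtain ⟨u, hu, n1, n2, n3⟩ := h3
      exact fin u hu n1 p hp n3
    · exfalso
      obtain ⟨p', hp', r', hr', n1, n2, n3, n4, n5⟩ := h3
      have o1 : p' ∈ G.pT F p := mem_pT.2 ⟨G.sym _ _ n4, hp'⟩
      have o2 : r' ∈ G.pT F p := mem_pT.2 ⟨G.sym _ _ n5, hr'⟩
      have q1 : p' ≠ r := by
        intro h4
        rw [h4] at n1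
        rw [← c.uniq k1.sym33 n1] at n5
        exact G.irr _ n5
      have q2 : r' ≠ r := by
        intro h4
        rw [h4] at n1
        rw [← c.uniq k1.sym33 n1.sym33] at n4
        exact G.irr _ n4
      have := three_le o1 o2 m2 n1.ne33 q1 q2
      omega
    · obtain ⟨p', hp', r', hr', n1, -⟩ := h3
      exact absurd (c.hF.sat _ _ _ n1) (not_low33 ⟨_, k1⟩)
  · obtain ⟨p, hp, r, hr, k1, k2, k3⟩ := h1
    exact fin r hr k1.2.1 p hp (G.sym _ _ (HL_b76 k1))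

/-! ### both lows are adjacent to the twins, but not to each other -/

theorem caseIII (c : Cx G F l l' v w) (h1 : v ∈ G.nb l) (h2 : v ∈ G.nb l') (he : l' ∉ G.nb l) :
    4 ≤ ∑ x ∈ G.N F, G.gam5 F x := by
  have he' : l ∉ G.nb l' := fun h => he (G.sym _ _ h)
  have h1w : w ∈ G.nb l := G.sym _ _ (Tw_nb5 c.tw (G.sym _ _ h1) c.lw)
  have h2w : w ∈ G.nb l' := G.sym _ _ (Tw_nb5 c.tw (G.sym _ _ h2) c.swap.lw)
  have d1 : (G.N F \ G.nb l).card = 2 := by
    rw [c.mL, c.dsum, if_neg (G.irr l), if_neg he, if_pos h1, if_pos h1w]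
  have d2 : (G.N F \ G.nb l').card = 2 := by
    rw [c.swap.mL, c.dsum, if_neg (G.irr l'), if_neg he', if_pos h2, if_pos h2w]
  have d3 : (G.N F \ G.nb v).card = 2 := by
    have h := c.mV
    rw [c.dsum, if_pos (G.sym _ _ h1), if_pos (G.sym _ _ h2), if_neg (G.irr v),
      if_pos c.tw.1] at h
    omega
  -- vertices adjacent to the twins have values at least `0`
  have hY : ∀ x ∈ G.N F, v ∈ G.nb x → ¬ (G.IsTw x ∧ G.d x F = 2) := by
    rintro z hz hzv ⟨⟨z', ht⟩, hd⟩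
    have hz' := c.par ht hz
    have e1 : l ∉ G.nb z := by
      intro h
      rw [c.dT hz, if_pos h, if_pos hzv] at hd
      omega
    have e2 : l' ∉ G.nb z := by
      intro h
      rw [c.dT hz, if_pos h, if_pos hzv] at hd
      omega
    have e1' : l ∉ G.nb z' := fun h => e1 (c.cls ht.sym33 hz' c.lF h)
    have e2' : l' ∉ G.nb z' := fun h => e2 (c.cls ht.sym33 hz' c.lF' h)
    have hfull : ∀ u ∈ G.N F, u ≠ z → u ≠ z' → v ∈ G.nb u → G.d u F = 4 := by
      intro u hu n1 n2 huv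
      have a1 : l ∈ G.nb u := by
        by_contra h
        have := three_le (mem_sdiff.2 ⟨hu, fun h4 => h (G.sym _ _ h4)⟩ : u ∈ G.N F \ G.nb l)
          (mem_sdiff.2 ⟨hz, fun h4 => e1 (G.sym _ _ h4)⟩)
          (mem_sdiff.2 ⟨hz', fun h4 => e1' (G.sym _ _ h4)⟩) n1 n2 ht.ne33
        omega
      have a2 : l' ∈ G.nb u := by
        by_contra h
        have := three_le (mem_sdiff.2 ⟨hu, fun h4 => h (G.sym _ _ h4)⟩ : u ∈ G.N F \ G.nb l')
          (mem_sdiff.2 ⟨hz, fun h4 => e2 (G.sym _ _ h4)⟩)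
          (mem_sdiff.2 ⟨hz', fun h4 => e2' (G.sym _ _ h4)⟩) n1 n2 ht.ne33
        omega
      rw [c.dT hu, if_pos a1, if_pos a2, if_pos huv]
    rcases c.covV hz hzv (fun _ => e1) (fun _ => e2) with h | h | h
    · obtain ⟨u, hu, k1, k2, k3⟩ := h
      have n1 : u ≠ z := fun h => not_low33 ⟨_, ht⟩ (h ▸ k1)
      have n2 : u ≠ z' := fun h => not_low33 ⟨_, ht.sym33⟩ (h ▸ k1)
      have k4 : z' ∈ G.nb u := G.sym _ _ (Tw_nb5 ht (G.sym _ _ k3) n2)
      have := (c.g2 hu k1).2.2.2.1 (hfull u hu n1 n2 k2)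
      have := two_le5 (mem_pT.2 ⟨k3, hz⟩ : z ∈ G.pT F u) (mem_pT.2 ⟨k4, hz'⟩) ht.ne33
      omega
    · obtain ⟨p, hp, r, hr, k1, k2, k3, k4, k5⟩ := h
      have n1 : p ≠ z := ne_of_nb5 k4
      have n2 : p ≠ z' := by
        intro h
        rw [h] at k1
        rw [← c.uniq ht.sym33 k1] at k5
        exact G.irr _ k5
      have := hfull p hp n1 n2 k2
      obtain ⟨-, -, -, i4, -, -⟩ := c.hB.tw F c.hF p hp ⟨_, k1⟩
      have := two_le5 (mem_pT.2 ⟨k4, hz⟩ : z ∈ G.pT F p) (mem_pT.2 ⟨k1.1, hr⟩)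
        (ne_of_nb5 k5).symm
      omega
    · obtain ⟨p, hp, r, hr, k1, -⟩ := h
      exact absurd (c.hF.sat _ _ _ k1) (not_low33 ⟨_, ht⟩)
  obtain ⟨a, a', haa, hA⟩ := card_eq_two.1 d3
  have mA : ∀ x, x = a ∨ x = a' ↔ x ∈ G.N F ∧ v ∉ G.nb x := by
    intro x
    have : x ∈ G.N F \ G.nb v ↔ x ∈ ({a, a'} : Finset V) := by rw [hA]
    rw [mem_insert, mem_singleton, mem_sdiff] at this
    rw [← this]
    exact ⟨fun h => ⟨h.1, fun h' => h.2 (G.sym _ _ h')⟩,
      fun h => ⟨h.1, fun h' => h.2 (G.sym _ _ h')⟩⟩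
  obtain ⟨aN, av⟩ := (mA a).1 (Or.inl rfl)
  obtain ⟨aN', av'⟩ := (mA a').1 (Or.inr rfl)
  by_cases hta : G.IsTw a
  · -- `A` is a pair
    have ht : G.Tw a a' := by
      obtain ⟨y, hy⟩ := hta
      have hyN := c.par hy aN
      have hyv : v ∉ G.nb y := fun h => av (c.cls hy.sym33 hyN c.vF h)
      rcases (mA y).2 ⟨hyN, hyv⟩ with h | h
      · exact absurd h hy.ne33.symm
      · rw [h] at hy
        exact hy
    rcases c.covL he aN av with h | h | h | h | h
    · obtain ⟨u, hu, k1, k2, k3⟩ := h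
      have n2 : u ≠ a' := fun h => not_low33 ⟨_, ht.sym33⟩ (h ▸ k1)
      have n1 : u ≠ a := fun h => not_low33 ⟨_, ht⟩ (h ▸ k1)
      have k4 : a' ∈ G.nb u := G.sym _ _ (Tw_nb5 ht (G.sym _ _ k3) n2)
      have huv : v ∈ G.nb u := by
        by_contra h
        rcases (mA u).2 ⟨hu, h⟩ with h | h
        · exact n1 h
        · exact n2 h
      have m1 : a ∈ G.pT F u := mem_pT.2 ⟨k3, aN⟩
      have m2 : a' ∈ G.pT F u := mem_pT.2 ⟨k4, aN'⟩
      have t2 := two_le5 m1 m2 haa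
      have g := c.g2 hu k1
      have hd : G.d u F = 3 := by
        have h4 : G.d u F ≠ 4 := fun h => by
          have := g.2.2.2.1 h
          omega
        have h5 := (c.d4 hu).2
        have h6 := c.dT hu
        rw [if_pos k2, if_pos huv] at h6
        split_ifs at h6 <;> omega
      have t3 := g.2.2.2.2 hd
      have hP : G.PairSet (G.pT F u) := by
        refine ⟨a, a', ht, ?_⟩
        symm
        refine eq_of_subset_of_card_le ?_ ?_
        · intro x hx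
          rw [mem_insert, mem_singleton] at hx
          rcases hx with h | h
          · rw [h]; exact m1
          · rw [h]; exact m2
        · rw [card_pair haa]
          exact t3
      have h12 := (c.hB.low3 F c.hF u hu k1 hd).2.2.2 hP
      refine c.negS d3 (S := {u}) ?_ ?_ fun x hx hxv _ => (c.gen hx).2 (hY x hx hxv)
      · intro x hx
        rw [mem_singleton] at hx
        rw [hx]
        exact ⟨hu, huv⟩
      · rw [sum_singleton]
        linarith
    · exfalso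
      obtain ⟨p, hp, r, hr, k1, k2, k3, k4, k5⟩ := h
      have n1 : p ≠ a := ne_of_nb5 k4
      have n2 : p ≠ a' := by
        intro h
        rw [h] at k1
        rw [← c.uniq ht.sym33 k1] at k5
        exact G.irr _ k5
      have hpv : v ∈ G.nb p := by
        by_contra h
        rcases (mA p).2 ⟨hp, h⟩ with h | h
        · exact n1 h
        · exact n2 h
      have k6 : a' ∈ G.nb p := G.sym _ _ (Tw_nb5 ht (G.sym _ _ k4) n2)
      have n3 : r ≠ a := ne_of_nb5 k5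
      have n4 : r ≠ a' := by
        intro h
        rw [h] at k1
        exact n1 (c.uniq k1.sym33 ht.sym33)
      obtain ⟨-, -, -, i4, -, -⟩ := c.hB.tw F c.hF p hp ⟨_, k1⟩
      have := three_le (mem_pT.2 ⟨k1.1, hr⟩ : r ∈ G.pT F p) (mem_pT.2 ⟨k4, aN⟩)
        (mem_pT.2 ⟨k6, aN'⟩) n3 n4 haa
      have h6 := c.dT hp
      rw [if_pos k2, if_pos hpv] at h6
      split_ifs at h6 <;> omega
    · obtain ⟨p, hp, r, hr, k1⟩ := h
      exact absurd (c.hF.sat _ _ _ k1) (not_low33 ⟨_, ht⟩)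
    · obtain ⟨p, hp, r, hr, k1, k2, k3⟩ := h
      have hrl : l ∉ G.nb r := (HL_bt76 k1).1
      have hrv := c.posV hr hrl
      have hr' : G.Low r := k1.2.1
      have n2 : r ≠ a' := fun h => not_low33 ⟨_, ht.sym33⟩ (h ▸ hr')
      have k4 : a' ∈ G.nb r := G.sym _ _ (Tw_nb5 ht (G.sym _ _ k2) n2)
      have hpT : ¬ G.IsTw p := (stTwHL_5 G).notHL c.n9 _ _ _ k1
      have m1 : a ∈ G.pT F r := mem_pT.2 ⟨k2, aN⟩
      have m2 : a' ∈ G.pT F r := mem_pT.2 ⟨k4, aN'⟩
      have m3 : p ∈ G.pT F r := mem_pT.2 ⟨G.sym _ _ (HL_b76 k1), hp⟩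
      have t3 := three_le m1 m2 m3 haa (fun h => hpT (h ▸ ⟨_, ht⟩))
        (fun h => hpT (h ▸ ⟨_, ht.sym33⟩))
      have g := c.g2 hr hr'
      have hd : G.d r F = 2 := by
        have h3 : G.d r F ≠ 3 := fun h => by
          have := g.2.2.2.2 h
          omega
        have h4 := c.d4 hr
        have h5 : G.d r F ≠ 4 := fun h => by
          have := g.2.2.2.1 h
          omega
        omega
      have t3' : (3 : ℤ) ≤ ((G.pT F r).card : ℤ) := by exact_mod_cast t3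
      have h8 : 8 ≤ G.gam5 F r := by
        rcases (c.hB.low2 F c.hF r hr hr' hd).2.1 with h | h
        · linarith
        · exfalso
          obtain ⟨x, y, h5, h6⟩ := h.2.1
          rw [h6, card_pair h5.ne33] at t3
          omega
      refine c.negS d3 (S := {r}) ?_ ?_ fun x hx hxv _ => (c.gen hx).2 (hY x hx hxv)
      · intro x hx
        rw [mem_singleton] at hx
        rw [hx]
        exact ⟨hr, hrv⟩
      · rw [sum_singleton]
        exact h8
    · obtain ⟨p, hp, r, hr, k1⟩ := h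
      exact absurd ⟨_, ht⟩ ((stTwHL_5 G).twLL _ _ _ _ k1).2
  · -- no twins in `A`
    have hta' : ¬ G.IsTw a' := by
      rintro ⟨y, hy⟩
      have hyN := c.par hy aN'
      have hyv : v ∉ G.nb y := fun h => av' (c.cls hy.sym33 hyN c.vF h)
      rcases (mA y).2 ⟨hyN, hyv⟩ with h | h
      · rw [h] at hy
        exact hta ⟨_, hy.sym33⟩
      · exact absurd h hy.ne33.symm
    have h0 : ∀ x ∈ G.N F, 0 ≤ G.gam5 F x := by
      intro x hx
      by_cases hxv : v ∈ G.nb x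
      · exact (c.gen hx).2 (hY x hx hxv)
      · refine (c.gen hx).2 fun h => ?_
        rcases (mA x).2 ⟨hx, hxv⟩ with h3 | h3
        · exact hta (h3 ▸ h.1)
        · exact hta' (h3 ▸ h.1)
    by_contra hcon
    have fin : ∀ u ∈ G.N F, G.Low u → ∀ y ∈ G.N F, y ∈ G.nb u → False := by
      intro u hu hl y hy h1
      exact hcon (c.one4 h0 hu ((c.g2 hu hl).2.1 y (mem_pT.2 ⟨h1, hy⟩)))
    have key : ∀ x, x ∈ G.N F → v ∉ G.nb x → ∃ p ∈ G.N F, ∃ r ∈ G.N F, G.Tw p r ∧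
        l' ∉ G.nb p ∧ G.d p F = 3 ∧ (G.pT F p).card ≤ 2 ∧ x ∈ G.nb p ∧ x ∈ G.nb r := by
      intro x hx hxv
      rcases c.covL he hx hxv with h | h | h | h | h
      · obtain ⟨u, hu, k1, k2, k3⟩ := h
        exact (fin u hu k1 x hx k3).elim
      · obtain ⟨p, hp, r, hr, k1, k2, k3, k4, k5⟩ := h
        have hpv : v ∈ G.nb p := by
          by_contra h
          rcases (mA p).2 ⟨hp, h⟩ with h | h
          · exact hta (h ▸ ⟨_, k1⟩)
          · exact hta' (h ▸ ⟨_, k1⟩)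
        obtain ⟨-, -, -, i4, -, -⟩ := c.hB.tw F c.hF p hp ⟨_, k1⟩
        have t2 := two_le5 (mem_pT.2 ⟨k4, hx⟩ : x ∈ G.pT F p) (mem_pT.2 ⟨k1.1, hr⟩)
          (ne_of_nb5 k5).symm
        have hlp : l' ∉ G.nb p := by
          intro h
          have h6 := c.dT hp
          rw [if_pos k2, if_pos hpv, if_pos h] at h6
          omega
        have hd : G.d p F = 3 := by
          rw [c.dT hp, if_pos k2, if_pos hpv, if_neg hlp]
        exact ⟨p, hp, r, hr, k1, hlp, hd, by omega, k4, k5⟩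
      · obtain ⟨p, hp, r, hr, k1⟩ := h
        exact (fin r hr k1.2.1 p hp (G.sym _ _ (HL_b76 k1))).elim
      · obtain ⟨p, hp, r, hr, k1, -⟩ := h
        exact (fin r hr k1.2.1 p hp (G.sym _ _ (HL_b76 k1))).elim
      · obtain ⟨p, hp, r, hr, k1⟩ := h
        exact (fin p hp k1.1 r hr k1.2.2.1).elim
    obtain ⟨p, hp, r, hr, k1, k2, k3, k4, k5, k6⟩ := key a aN av
    obtain ⟨p', hp', r', hr', n1, n2, n3, n4, n5, n6⟩ := key a' aN' av'
    have k2' : l' ∉ G.nb r := fun h => k2 (c.cls k1.sym33 hr c.lF' h)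
    have hpp : p' = p ∨ p' = r := by
      by_contra h
      rw [not_or] at h
      have := three_le (mem_sdiff.2 ⟨hp', fun h4 => n2 (G.sym _ _ h4)⟩ : p' ∈ G.N F \ G.nb l')
        (mem_sdiff.2 ⟨hp, fun h4 => k2 (G.sym _ _ h4)⟩)
        (mem_sdiff.2 ⟨hr, fun h4 => k2' (G.sym _ _ h4)⟩) h.1 h.2 k1.ne33
      omega
    have hap : a' ∈ G.nb p := by
      rcases hpp with h | h
      · rw [← h]
        exact n5
      · rw [h] at n5
        refine Tw_nb5 k1.sym33 n5 ?_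
        intro h7
        exact hta' (h7 ▸ ⟨_, k1⟩)
    have n3 : r ≠ a := ne_of_nb5 k6
    have n4 : r ≠ a' := fun h => hta' (h ▸ ⟨_, k1.sym33⟩)
    have := three_le (mem_pT.2 ⟨k1.1, hr⟩ : r ∈ G.pT F p) (mem_pT.2 ⟨k5, aN⟩)
      (mem_pT.2 ⟨hap, aN'⟩) n3 n4 haa
    omega

end Cx

/-! ### `F` is complete -/

/-- the situation: `z, z'` miss both lows, `b` misses `l'`, `b'` misses `l` -/
structure Cy (G : CG V) (F : Finset V) (l l' v w z z' b b' : V) : Prop extends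
    Cx G F l l' v w where
  cA : (G.N F \ G.nb v).card = 2
  zN : z ∈ G.N F
  zN' : z' ∈ G.N F
  bN : b ∈ G.N F
  bN' : b' ∈ G.N F
  zv : v ∈ G.nb z
  zv' : v ∈ G.nb z'
  bv : v ∈ G.nb b
  bv' : v ∈ G.nb b'
  z1 : l ∉ G.nb z
  z2 : l' ∉ G.nb z
  z1' : l ∉ G.nb z'
  z2' : l' ∉ G.nb z'
  b1 : l ∈ G.nb b
  b2 : l' ∉ G.nb b
  b1' : l ∉ G.nb b'
  b2' : l' ∈ G.nb b'
  zz : z ≠ z'
  allY : ∀ x ∈ G.N F, v ∈ G.nb x → x = z ∨ x = z' ∨ x = b ∨ x = b'

namespace Cy

theorem symZ (c : Cy G F l l' v w z z' b b') : Cy G F l l' v w z' z b b' :=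
  { c with
    zN := c.zN', zN' := c.zN, zv := c.zv', zv' := c.zv, z1 := c.z1', z1' := c.z1
    z2 := c.z2', z2' := c.z2, zz := c.zz.symm
    allY := fun x hx hxv => by
      rcases c.allY x hx hxv with h | h | h | h
      · exact Or.inr (Or.inl h)
      · exact Or.inl h
      · exact Or.inr (Or.inr (Or.inl h))
      · exact Or.inr (Or.inr (Or.inr h)) }

theorem bb (c : Cy G F l l' v w z z' b b') : b ≠ b' := fun h => c.b1' (h ▸ c.b1)

theorem zb (c : Cy G F l l' v w z z' b b') : z ≠ b := fun h => c.z1 (h ▸ c.b1)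

theorem zb' (c : Cy G F l l' v w z z' b b') : z ≠ b' := fun h => c.z2 (h ▸ c.b2')

theorem dZ (c : Cy G F l l' v w z z' b b') : G.pX F z = {v, w} ∧ G.d z F = 2 := by
  have h1 : G.pX F z = {v, w} := by
    ext y
    rw [pX, mem_inter, mem_insert, mem_singleton]
    constructor
    · rintro ⟨h1, h2⟩
      rcases c.all y h2 with h | h | h | h
      · rw [h] at h1
        exact absurd h1 c.z1
      · rw [h] at h1
        exact absurd h1 c.z2
      · exact Or.inl h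
      · exact Or.inr h
    · rintro (h | h)
      · rw [h]
        exact ⟨c.zv, c.vF⟩
      · rw [h]
        exact ⟨c.vw c.zN c.zv, c.wF⟩
  refine ⟨h1, ?_⟩
  have h := congrArg Finset.card h1
  rw [card_pair c.tw.ne33] at h
  exact h

theorem dB (c : Cy G F l l' v w z z' b b') : G.d b F = 3 := by
  rw [c.dT c.bN, if_pos c.b1, if_neg c.b2, if_pos c.bv]

theorem dB' (c : Cy G F l l' v w z z' b b') : G.d b' F = 3 := by
  rw [c.dT c.bN', if_neg c.b1', if_pos c.b2', if_pos c.bv']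

/-- two different vertices of one class are `z, z'` -/
theorem same (c : Cy G F l l' v w z z' b b') {p r : V} (hp : p ∈ G.N F) (hr : r ∈ G.N F)
    (pv : v ∈ G.nb p) (rv : v ∈ G.nb r) (h1 : l ∈ G.nb p ↔ l ∈ G.nb r)
    (h2 : l' ∈ G.nb p ↔ l' ∈ G.nb r) (hpz : p ≠ z) (hrz : r ≠ z) : p = r := by
  have b1 := c.b1
  have b2 := c.b2
  have b1' := c.b1'
  have b2' := c.b2'
  have z1' := c.z1'
  have z2' := c.z2'
  rcases c.allY p hp pv with h | h | h | h
  · exact absurd h hpz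
  · rcases c.allY r hr rv with k | k | k | k
    · exact absurd k hrz
    · rw [h, k]
    · rw [h, k] at h1
      exact absurd (h1.2 b1) z1'
    · rw [h, k] at h2
      exact absurd (h2.2 b2') z2'
  · rcases c.allY r hr rv with k | k | k | k
    · exact absurd k hrz
    · rw [h, k] at h1
      exact absurd (h1.1 b1) z1'
    · rw [h, k]
    · rw [h, k] at h1
      exact absurd (h1.1 b1) b1'
  · rcases c.allY r hr rv with k | k | k | k
    · exact absurd k hrz
    · rw [h, k] at h2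
      exact absurd (h2.1 b2') z2'
    · rw [h, k] at h2
      exact absurd (h2.1 b2') b2
    · rw [h, k]

theorem covZ (c : Cy G F l l' v w z z' b b') :
    (G.Low z' ∧ z ∈ G.nb z') ∨ ∃ u, (u = b ∨ u = b') ∧ G.Low u ∧ z ∈ G.nb u := by
  rcases c.covV c.zN c.zv (fun _ => c.z1) (fun _ => c.z2) with h | h | h
  · obtain ⟨u, hu, k1, k2, k3⟩ := h
    rcases c.allY u hu k2 with h | h | h | h
    · rw [h] at k3
      exact absurd k3 (G.irr _)
    · rw [h] at k1 k3
      exact Or.inl ⟨k1, k3⟩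
    · exact Or.inr ⟨u, Or.inl h, k1, k3⟩
    · exact Or.inr ⟨u, Or.inr h, k1, k3⟩
  · exfalso
    obtain ⟨p, hp, r, hr, k1, k2, k3, k4, k5⟩ := h
    exact k1.ne33 (c.same hp hr k2 k3 ⟨c.cls k1 hp c.lF, c.cls k1.sym33 hr c.lF⟩
      ⟨c.cls k1 hp c.lF', c.cls k1.sym33 hr c.lF'⟩ (ne_of_nb5 k4) (ne_of_nb5 k5))
  · exfalso
    obtain ⟨p, hp, r, hr, k1, k2, k3⟩ := h
    have key : ∀ x ∈ F, x ∈ G.nb p ↔ x ∈ G.nb r := by
      intro x hx
      constructor
      · intro h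
        rcases HL_cl33 k1 h with h1 | h1 | h1
        · exact absurd hx (h1 ▸ c.notF c.zN)
        · exact absurd hx (h1 ▸ c.notF hr)
        · exact h1
      · intro h
        exact HL_nb33 k1 h (fun h1 => c.notF hp (h1 ▸ hx))
    exact ne_of_nb5 (HL_b76 k1) (c.same hp hr k3 k2 (key l c.lF) (key l' c.lF')
      (ne_of_nb5 (HL_t76 k1)) (HL_bt76 k1).2.symm)

/-- values of lows in `B0` with a low neighbour -/
theorem gZ (c : Cy G F l l' v w z z' b b') (hl : G.Low z) {u : V} (hu : u ∈ G.pT F z)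
    (hul : G.Low u) : 2 + 2 * ((G.pT F z).card : ℤ) ≤ G.gam5 F z := by
  obtain ⟨h1, h2, -⟩ := c.hB.low2 F c.hF z c.zN hl c.dZ.2
  rcases h2 with h2 | h2
  · exact h2
  · exfalso
    obtain ⟨p, r, h3, h4⟩ := h2.2.1
    rw [h4, mem_insert, mem_singleton] at hu
    rcases hu with h | h
    · rw [h] at hul
      exact not_low33 ⟨_, h3⟩ hul
    · rw [h] at hul
      exact not_low33 ⟨_, h3.sym33⟩ hul

/-- two adjacent lows in `B0` -/
theorem typeI (c : Cy G F l l' v w z z' b b') (hl : G.Low z) (hl' : G.Low z')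
    (h : z ∈ G.nb z') : 10 ≤ G.gam5 F z + G.gam5 F z' := by
  have e1 : z' ∈ G.pT F z := mem_pT.2 ⟨G.sym _ _ h, c.zN'⟩
  have e2 : z ∈ G.pT F z' := mem_pT.2 ⟨h, c.zN⟩
  have key : ∀ {l l' v w z z' b b' : V}, Cy G F l l' v w z z' b b' → G.Low z →
      G.Low z' → z' ∈ G.pT F z → z ∈ G.pT F z' →
      (6 ≤ G.gam5 F z ∨ (G.pT F z = {z'} ∧ 4 ≤ G.gam5 F z ∧
        (G.pT F z' = {z} → 5 ≤ G.gam5 F z))) := by
    intro l l' v w z z' b b' c hl hl' e1 e2
    have h1 : 1 ≤ (G.pT F z).card := Finset.card_pos.2 ⟨_, e1⟩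
    have h2 := c.gZ hl e1 hl'
    by_cases h3 : (G.pT F z).card = 1
    · right
      have h4 : G.pT F z = {z'} := by
        obtain ⟨y, hy⟩ := card_eq_one.1 h3
        rw [hy, mem_singleton] at e1
        rw [hy, e1]
      have hs : G.S0 F z z' := by
        refine ⟨c.zN, hl, hl', h4, ⟨v, w, c.tw, c.dZ.1, c.zv'⟩, ?_⟩
        rintro ⟨h5, h6⟩
        have h7 := dg16 G F z'
        have h8 : (G.nb z').card = 6 := hl'
        have h9 : (G.pX F z').card = 2 := c.symZ.dZ.2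
        have h10 : (G.pT F z').card = 1 := by rw [h5, card_singleton]
        omega
      obtain ⟨k1, k2, -⟩ := c.hB.low2s F c.hF z c.zN z' hs
      exact ⟨h4, k1, k2⟩
    · left
      have h4 : (2 : ℤ) ≤ ((G.pT F z).card : ℤ) := by
        have : 2 ≤ (G.pT F z).card := by omega
        exact_mod_cast this
      linarith
  have k1 := key c hl hl' e1 e2
  have k2 := key c.symZ hl' hl e2 e1
  rcases k1 with k1 | ⟨k1, k1', k1''⟩
  · rcases k2 with k2 | ⟨k2, k2', -⟩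
    · linarith
    · linarith
  · rcases k2 with k2 | ⟨k2, k2', k2''⟩
    · linarith
    · have := k1'' k2
      have := k2'' k1
      linarith

theorem main (c : Cy G F l l' v w z z' b b') : 4 ≤ ∑ x ∈ G.N F, G.gam5 F x := by
  have hb : ∀ u, (u = b ∨ u = b') → u ∈ G.N F ∧ v ∈ G.nb u ∧ G.d u F = 3 := by
    rintro u (h | h)
    · rw [h]; exact ⟨c.bN, c.bv, c.dB⟩
    · rw [h]; exact ⟨c.bN', c.bv', c.dB'⟩
  have hz : ∀ u, (u = b ∨ u = b') → u ≠ z ∧ u ≠ z' := by
    rintro u (h | h)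
    · rw [h]; exact ⟨c.zb.symm, c.symZ.zb.symm⟩
    · rw [h]; exact ⟨c.zb'.symm, c.symZ.zb'.symm⟩
  by_cases ht : G.IsTw z
  · -- `B0` is a pair
    obtain ⟨y, hy⟩ := ht
    have hyN := c.par hy c.zN
    have hyv := c.cls hy c.zN c.vF c.zv
    have hy' : y = z' := by
      by_contra hne
      have h1 := c.symZ.same c.zN hyN c.zv hyv ⟨c.cls hy c.zN c.lF, c.cls hy.sym33 hyN c.lF⟩
        ⟨c.cls hy c.zN c.lF', c.cls hy.sym33 hyN c.lF'⟩ c.zz hne
      exact hy.ne33 h1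
    rw [hy'] at hy
    rcases c.covZ with h | h
    · exact absurd h.1 (not_low33 ⟨_, hy.sym33⟩)
    · obtain ⟨u, h1, h2, h3⟩ := h
      obtain ⟨hu, huv, hd⟩ := hb u h1
      obtain ⟨n1, n2⟩ := hz u h1
      have k4 : z' ∈ G.nb u := G.sym _ _ (Tw_nb5 hy (G.sym _ _ h3) n2)
      have m1 : z ∈ G.pT F u := mem_pT.2 ⟨h3, c.zN⟩
      have m2 : z' ∈ G.pT F u := mem_pT.2 ⟨k4, c.zN'⟩
      have t3 := (c.g2 hu h2).2.2.2.2 hd
      have hP : G.PairSet (G.pT F u) := by
        refine ⟨z, z', hy, ?_⟩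
        symm
        refine eq_of_subset_of_card_le ?_ ?_
        · intro x hx
          rw [mem_insert, mem_singleton] at hx
          rcases hx with h | h
          · rw [h]; exact m1
          · rw [h]; exact m2
        · rw [card_pair c.zz]
          exact t3
      have h12 := (c.hB.low3 F c.hF u hu h2 hd).2.2.2 hP
      have val : ∀ {z z' : V}, Cy G F l l' v w z z' b b' → G.Tw z z' → z ∈ G.nb u →
          -1 ≤ G.gam5 F z := by
        intro z z' c hy h3
        obtain ⟨k1, k2, k3, k4, k5, k6⟩ := c.hB.tw F c.hF z c.zN ⟨_, hy⟩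
        have h5 := k5 (by rw [c.dZ.2]; norm_num)
        have h6 := two_le5 (mem_pT.2 ⟨hy.1, c.zN'⟩ : z' ∈ G.pT F z)
          (mem_pT.2 ⟨G.sym _ _ h3, hu⟩) (fun h => not_low33 ⟨_, hy.sym33⟩ (h ▸ h2))
        have h7 : (2 : ℤ) ≤ ((G.pT F z).card : ℤ) := by exact_mod_cast h6
        rw [c.dZ.2] at h5
        push_cast at h5
        linarith
      have v1 := val c.symZ.symZ hy h3
      have v2 := val c.symZ hy.sym33 k4
      refine c.negS c.cA (S := {z, z', u}) ?_ ?_ ?_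
      · intro x hx
        rw [mem_insert, mem_insert, mem_singleton] at hx
        rcases hx with h | h | h
        · rw [h]; exact ⟨c.zN, c.zv⟩
        · rw [h]; exact ⟨c.zN', c.zv'⟩
        · rw [h]; exact ⟨hu, huv⟩
      · rw [sum_insert, sum_pair n2.symm]
        · linarith
        · rw [mem_insert, mem_singleton]
          rintro (h | h)
          · exact c.zz h
          · exact n1 h.symm
      · intro x hx hxv hxS
        rw [mem_insert, mem_insert, mem_singleton, not_or, not_or] at hxS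
        refine (c.gen hx).2 fun h => ?_
        rcases c.allY x hx hxv with h5 | h5 | h5 | h5
        · exact hxS.1 h5
        · exact hxS.2.1 h5
        · have := c.dB
          rw [h5] at h
          omega
        · have := c.dB'
          rw [h5] at h
          omega
  · have ht' : ¬ G.IsTw z' := by
      rintro ⟨y, hy⟩
      have hyN := c.par hy c.zN'
      have hyv := c.cls hy c.zN' c.vF c.zv'
      have hyz : y ≠ z := fun h => ht (h ▸ ⟨_, hy.sym33⟩)
      exact hy.ne33 (c.same c.zN' hyN c.zv' hyv ⟨c.cls hy c.zN' c.lF, c.cls hy.sym33 hyN c.lF⟩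
        ⟨c.cls hy c.zN' c.lF', c.cls hy.sym33 hyN c.lF'⟩ c.zz.symm hyz)
    have h0 : ∀ x ∈ G.N F, v ∈ G.nb x → 0 ≤ G.gam5 F x := by
      intro x hx hxv
      refine (c.gen hx).2 fun h => ?_
      rcases c.allY x hx hxv with h5 | h5 | h5 | h5
      · exact ht (h5 ▸ h.1)
      · exact ht' (h5 ▸ h.1)
      · have := c.dB
        rw [h5] at h
        omega
      · have := c.dB'
        rw [h5] at h
        omega
    have fin1 : ∀ x ∈ G.N F, v ∈ G.nb x → 8 ≤ G.gam5 F x → 4 ≤ ∑ x ∈ G.N F, G.gam5 F x := by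
      intro x hx hxv h8
      refine c.negS c.cA (S := {x}) ?_ ?_ fun y hy hyv _ => h0 y hy hyv
      · intro y hy
        rw [mem_singleton] at hy
        rw [hy]
        exact ⟨hx, hxv⟩
      · rw [sum_singleton]
        exact h8
    have fin2 : ∀ x ∈ G.N F, v ∈ G.nb x → ∀ x' ∈ G.N F, v ∈ G.nb x' → x ≠ x' →
        8 ≤ G.gam5 F x + G.gam5 F x' → 4 ≤ ∑ x ∈ G.N F, G.gam5 F x := by
      intro x hx hxv x' hx' hxv' hne h8
      refine c.negS c.cA (S := {x, x'}) ?_ ?_ fun y hy hyv _ => h0 y hy hyv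
      · intro y hy
        rw [mem_insert, mem_singleton] at hy
        rcases hy with h | h
        · rw [h]
          exact ⟨hx, hxv⟩
        · rw [h]
          exact ⟨hx', hxv'⟩
      · rw [sum_pair hne]
        exact h8
    -- `z` low, adjacent to `z'` and to a low of `b, b'`
    have mix : ∀ {z z' : V}, Cy G F l l' v w z z' b b' → G.Low z → z' ∈ G.nb z → ∀ u,
        (u = b ∨ u = b') → G.Low u → z ∈ G.nb u → 4 ≤ ∑ x ∈ G.N F, G.gam5 F x := by
      intro z z' c hl hz' u h1 h2 h3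
      obtain ⟨hu, huv, hd⟩ := hb u h1
      have m1 : z' ∈ G.pT F z := mem_pT.2 ⟨hz', c.zN'⟩
      have m2 : u ∈ G.pT F z := mem_pT.2 ⟨G.sym _ _ h3, hu⟩
      have hne : z' ≠ u := by
        intro h
        rcases h1 with h4 | h4
        · exact c.symZ.zb (h.trans h4)
        · exact c.symZ.zb' (h.trans h4)
      have h4 := two_le5 m1 m2 hne
      have h5 := c.gZ hl m2 h2
      have h6 : (2 : ℤ) ≤ ((G.pT F z).card : ℤ) := by exact_mod_cast h4
      have h7 := (c.g2 hu h2).2.2.1 (by omega)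
      refine fin2 z c.zN c.zv u hu huv (fun h => ?_) (by linarith)
      rw [← h] at h3
      exact G.irr _ h3
    rcases c.covZ with h | ⟨u, h1, h2, h3⟩
    · rcases c.symZ.covZ with k | ⟨u', k1, k2, k3⟩
      · exact fin2 z c.zN c.zv z' c.zN' c.zv' c.zz (by
          have := c.typeI k.1 h.1 h.2
          linarith)
      · exact mix c.symZ h.1 h.2 u' k1 k2 k3
    · rcases c.symZ.covZ with k | ⟨u', k1, k2, k3⟩
      · exact mix c k.1 k.2 u h1 h2 h3
      · obtain ⟨hu, huv, hd⟩ := hb u h1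
        obtain ⟨hu', huv', hd'⟩ := hb u' k1
        by_cases hne : u = u'
        · rw [← hne] at k3
          have m1 : z ∈ G.pT F u := mem_pT.2 ⟨h3, c.zN⟩
          have m2 : z' ∈ G.pT F u := mem_pT.2 ⟨k3, c.zN'⟩
          have t2 := two_le5 m1 m2 c.zz
          have t3 : (2 : ℤ) ≤ ((G.pT F u).card : ℤ) := by exact_mod_cast t2
          rcases (c.hB.low3 F c.hF u hu h2 hd).2.2.1 with h | h
          · exact fin1 u hu huv (by linarith)
          · exfalso
            obtain ⟨x, q, q', -, h5, -⟩ := h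
            rw [h5, card_singleton] at t2
            omega
        · have g1 := (c.g2 hu h2).2.2.1 (by omega)
          have g2 := (c.g2 hu' k2).2.2.1 (by omega)
          exact fin2 u hu huv u' hu' huv' hne (by linarith)

end Cy

namespace Cx

theorem caseII (c : Cx G F l l' v w) (h1 : v ∈ G.nb l) (h2 : v ∈ G.nb l') (he : l' ∈ G.nb l) :
    4 ≤ ∑ x ∈ G.N F, G.gam5 F x := by
  classical
  have he' : l ∈ G.nb l' := G.sym _ _ he
  have h1w : w ∈ G.nb l := G.sym _ _ (Tw_nb5 c.tw (G.sym _ _ h1) c.lw)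
  have h2w : w ∈ G.nb l' := G.sym _ _ (Tw_nb5 c.tw (G.sym _ _ h2) c.swap.lw)
  have d1 : (G.N F \ G.nb l).card = 3 := by
    rw [c.mL, c.dsum, if_neg (G.irr l), if_pos he, if_pos h1, if_pos h1w]
  have d2 : (G.N F \ G.nb l').card = 3 := by
    rw [c.swap.mL, c.dsum, if_neg (G.irr l'), if_pos he', if_pos h2, if_pos h2w]
  have d3 : (G.N F \ G.nb v).card = 2 := by
    have h := c.mV
    rw [c.dsum, if_pos (G.sym _ _ h1), if_pos (G.sym _ _ h2), if_neg (G.irr v),
      if_pos c.tw.1] at h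
    omega
  have d4 : (G.N F ∩ G.nb v).card = 4 := by
    have h3 : (G.N F).card = 6 := c.hF.big.1.2.1
    have h4 := card_sdiff_add_card_inter (G.N F) (G.nb v)
    omega
  have sub : (G.N F \ G.nb l) ∪ (G.N F \ G.nb l') ⊆ G.N F ∩ G.nb v := by
    intro x hx
    rcases mem_union.1 hx with h | h
    · obtain ⟨k1, k2⟩ := mem_sdiff.1 h
      exact mem_inter.2 ⟨k1, G.sym _ _ (c.posV k1 fun h => k2 (G.sym _ _ h))⟩
    · obtain ⟨k1, k2⟩ := mem_sdiff.1 h
      exact mem_inter.2 ⟨k1, G.sym _ _ (c.swap.posV k1 fun h => k2 (G.sym _ _ h))⟩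
  have cu := card_union_add_card_inter (G.N F \ G.nb l) (G.N F \ G.nb l')
  have cs := card_le_card sub
  have hZ : ((G.N F \ G.nb l) ∩ (G.N F \ G.nb l')).card ≤ 2 := by
    set Z := (G.N F \ G.nb l) ∩ (G.N F \ G.nb l') with hZd
    have hmem : ∀ x ∈ Z, x ∈ G.N F ∧ l ∉ G.nb x ∧ l' ∉ G.nb x := by
      intro x hx
      obtain ⟨k1, k2⟩ := mem_inter.1 hx
      exact ⟨(mem_sdiff.1 k1).1, fun h => (mem_sdiff.1 k1).2 (G.sym _ _ h),
        fun h => (mem_sdiff.1 k2).2 (G.sym _ _ h)⟩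
    have hne : Z.Nonempty := by
      rw [← Finset.card_pos]
      omega
    have hFZ : (G.FZ F Z).Nonempty := by
      refine ⟨l, mem_sdiff.2 ⟨c.lF, fun h => ?_⟩⟩
      obtain ⟨-, u, hu, hul⟩ := mem_N76.1 h
      exact (hmem u hu).2.1 hul
    have h5 := (c.hBas.exp F c.hF Z (fun x hx => (hmem x hx).1) hne hFZ).1
    have h6 : G.N Z ∩ F ⊆ {v, w} := by
      intro x hx
      obtain ⟨k1, k2⟩ := mem_inter.1 hx
      obtain ⟨-, u, hu, hul⟩ := mem_N76.1 k1
      rw [mem_insert, mem_singleton]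
      rcases c.all x k2 with h | h | h | h
      · rw [h] at hul
        exact absurd hul (hmem u hu).2.1
      · rw [h] at hul
        exact absurd hul (hmem u hu).2.2
      · exact Or.inl h
      · exact Or.inr h
    have h7 := card_le_card h6
    rw [card_pair c.tw.ne33] at h7
    omega
  have hZ2 : ((G.N F \ G.nb l) ∩ (G.N F \ G.nb l')).card = 2 := by omega
  have hU : (G.N F \ G.nb l) ∪ (G.N F \ G.nb l') = G.N F ∩ G.nb v := by
    refine eq_of_subset_of_card_le sub ?_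
    omega
  have e1 : ((G.N F \ G.nb l) \ (G.N F \ G.nb l')).card = 1 := by
    have := card_sdiff_add_card_inter (G.N F \ G.nb l) (G.N F \ G.nb l')
    omega
  have e2 : ((G.N F \ G.nb l') \ (G.N F \ G.nb l)).card = 1 := by
    have := card_sdiff_add_card_inter (G.N F \ G.nb l') (G.N F \ G.nb l)
    rw [inter_comm] at this
    omega
  obtain ⟨z, z', hzz, hZe⟩ := card_eq_two.1 hZ2
  obtain ⟨b', hb'⟩ := card_eq_one.1 e1
  obtain ⟨b, hb⟩ := card_eq_one.1 e2
  have mZ : ∀ x, x = z ∨ x = z' → x ∈ G.N F ∧ l ∉ G.nb x ∧ l' ∉ G.nb x := by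
    intro x hx
    have h3 : x ∈ (G.N F \ G.nb l) ∩ (G.N F \ G.nb l') := by
      rw [hZe, mem_insert, mem_singleton]
      exact hx
    obtain ⟨k1, k2⟩ := mem_inter.1 h3
    exact ⟨(mem_sdiff.1 k1).1, fun h => (mem_sdiff.1 k1).2 (G.sym _ _ h),
      fun h => (mem_sdiff.1 k2).2 (G.sym _ _ h)⟩
  obtain ⟨zN, z1, z2⟩ := mZ z (Or.inl rfl)
  obtain ⟨zN', z1', z2'⟩ := mZ z' (Or.inr rfl)
  have mB' : b' ∈ G.N F ∧ l ∉ G.nb b' ∧ l' ∈ G.nb b' := by
    have h3 : b' ∈ (G.N F \ G.nb l) \ (G.N F \ G.nb l') := by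
      rw [hb', mem_singleton]
    obtain ⟨k1, k2⟩ := mem_sdiff.1 h3
    obtain ⟨k3, k4⟩ := mem_sdiff.1 k1
    refine ⟨k3, fun h => k4 (G.sym _ _ h), ?_⟩
    by_contra h
    exact k2 (mem_sdiff.2 ⟨k3, fun h5 => h (G.sym _ _ h5)⟩)
  have mB : b ∈ G.N F ∧ l' ∉ G.nb b ∧ l ∈ G.nb b := by
    have h3 : b ∈ (G.N F \ G.nb l') \ (G.N F \ G.nb l) := by
      rw [hb, mem_singleton]
    obtain ⟨k1, k2⟩ := mem_sdiff.1 h3
    obtain ⟨k3, k4⟩ := mem_sdiff.1 k1
    refine ⟨k3, fun h => k4 (G.sym _ _ h), ?_⟩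
    by_contra h
    exact k2 (mem_sdiff.2 ⟨k3, fun h5 => h (G.sym _ _ h5)⟩)
  have cy : Cy G F l l' v w z z' b b' :=
    { c with
      cA := d3
      zN := zN
      zN' := zN'
      bN := mB.1
      bN' := mB'.1
      zv := c.posV zN z1
      zv' := c.posV zN' z1'
      bv := c.swap.posV mB.1 mB.2.1
      bv' := c.posV mB'.1 mB'.2.1
      z1 := z1
      z2 := z2
      z1' := z1'
      z2' := z2'
      b1 := mB.2.2
      b2 := mB.2.1
      b1' := mB'.2.1
      b2' := mB'.2.2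
      zz := hzz
      allY := fun x hx hxv => by
        have h3 : x ∈ G.N F ∩ G.nb v := mem_inter.2 ⟨hx, G.sym _ _ hxv⟩
        rw [← hU] at h3
        by_cases k1 : x ∈ G.N F \ G.nb l
        · by_cases k2 : x ∈ G.N F \ G.nb l'
          · have h4 : x ∈ (G.N F \ G.nb l) ∩ (G.N F \ G.nb l') := mem_inter.2 ⟨k1, k2⟩
            rw [hZe, mem_insert, mem_singleton] at h4
            rcases h4 with h | h
            · exact Or.inl h
            · exact Or.inr (Or.inl h)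
          · have h4 : x ∈ (G.N F \ G.nb l) \ (G.N F \ G.nb l') := mem_sdiff.2 ⟨k1, k2⟩
            rw [hb', mem_singleton] at h4
            exact Or.inr (Or.inr (Or.inr h4))
        · have k2 : x ∈ G.N F \ G.nb l' := (mem_union.1 h3).resolve_left k1
          have h4 : x ∈ (G.N F \ G.nb l') \ (G.N F \ G.nb l) := mem_sdiff.2 ⟨k2, k1⟩
          rw [hb, mem_singleton] at h4
          exact Or.inr (Or.inr (Or.inl h4)) }
  exact cy.main

end Cx

end H2x42

open H2x42 in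
/-- H2 -/
theorem st6LLQ_42 (G : CG V) (hBas : G.StLBas) (hB : G.StLB) : G.St6LLQ := by
  rintro F ⟨hF, hc4⟩ l l' v w hFe hne hl hl' htw
  have c : Cx G F l l' v w :=
    { hF := hF
      hBas := hBas
      hB := hB
      lF := by rw [hFe]; simp
      lF' := by rw [hFe]; simp
      vF := by rw [hFe]; simp
      wF := by rw [hFe]; simp
      all := by
        intro x hx
        rw [hFe] at hx
        simpa using hx
      ne := hne
      low := hl
      low' := hl'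
      tw := htw }
  by_cases h2 : v ∈ G.nb l'
  · by_cases h1 : v ∈ G.nb l
    · by_cases he : l' ∈ G.nb l
      · exact c.caseII h1 h2 he
      · exact c.caseIII h1 h2 he
    · exact c.swap.caseI h1
  · exact c.caseI h2

end CG

end Pool.Agent.Lib.MP_e95c01_co.N
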