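import Pool.Agent.Lib.MP_e95c01_co.X.H3c_12

/-!
# H3: leaves with four vertices, a low vertex and three hubs
-/

namespace Pool.Agent.Lib.MP_e95c01_co.N

open Finset

variable {V : Type} [Fintype V] [DecidableEq V]

namespace CG

variable {G : CG V}

namespace H3h12

variable {F : Finset V} {l : V}

omit [Fintype V] in
theorem sum_list' (f : V → ℤ) (S : Finset V) (L : List V) (hn : L.Nodup) (hs : ∀ x ∈ L, x ∈ S)
    (h0 : ∀ x ∈ S, x ∉ L → 0 ≤ f x) : (L.map f).sum ≤ ∑ x ∈ S, f x := by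
  rw [← List.sum_toFinset f hn]
  exact sum_le_sum_of_subset_of_nonneg (fun x hx => hs x (List.mem_toFinset.1 hx))
    (fun x hx hx' => h0 x hx (fun h => hx' (List.mem_toFinset.2 h)))

theorem three_only {A : Finset V} (hA : A.card = 3) {a b e z : V} (ha : a ∈ A) (hb : b ∈ A)
    (he : e ∈ A) (h1 : a ≠ b) (h2 : a ≠ e) (h3 : b ≠ e) (hz : z ∈ A) : z = a ∨ z = b ∨ z = e := by
  by_contra h
  push Not at h
  have h4 := four_card ha hb he hz h1 h2 h3 h.1.symm h.2.1.symm h.2.2.symm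
  omega

theorem two_only {A : Finset V} (hA : A.card ≤ 2) {a b z : V} (ha : a ∈ A) (hb : b ∈ A)
    (h1 : a ≠ b) (hz : z ∈ A) : z = a ∨ z = b := by
  by_contra h
  push Not at h
  have h4 := three_card ha hb hz h1 h.1.symm h.2.symm
  omega

section

variable (c : Cx G F l)
include c

theorem Cx.hub_l (hd : G.d l F = 3) : ∀ z ∈ F, z ≠ l → z ∈ G.nb l := by
  have h1 : G.nb l ∩ F = F.erase l := by
    refine eq_of_subset_of_card_le ?_ ?_
    · intro z hz
      obtain ⟨z1, z2⟩ := mem_inter.1 hz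
      refine mem_erase.2 ⟨?_, z2⟩
      rintro rfl
      exact G.irr _ z1
    · rw [card_erase_of_mem c.lF, c.c4]
      exact hd.symm.le
  intro z z1 z2
  have h2 : z ∈ G.nb l ∩ F := by
    rw [h1]
    exact mem_erase.2 ⟨z2, z1⟩
  exact (mem_inter.1 h2).1

/-- a neighbour in `F` other than `l` -/
theorem Cx.exH {v : V} (hv : v ∈ G.N F) (hvl : v ∉ G.nb l) : ∃ h ∈ F, h ≠ l ∧ v ∈ G.nb h := by
  obtain ⟨-, h, h1, h2⟩ := mem_N76.1 hv
  refine ⟨h, h1, ?_, h2⟩
  rintro rfl
  exact hvl h2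

/-- no pairs of twins -/
theorem Cx.d3iii (hd : G.d l F = 3) (hno : ∀ w ∈ G.N F, ¬ G.IsTw w) :
    16 ≤ ∑ w ∈ G.N F, G.gam5 F w := by
  classical
  have TH := stTwHL_5 G
  have hX := c.cX
  have hX3 : (G.Tz F l).card = 3 := by omega
  set lam : V → ℤ := fun y => ∑ w ∈ G.N F, (if G.Low w ∧ y ∈ G.nb w then 1 else 0) with hlam
  have lam0 : ∀ y, 0 ≤ lam y := fun y => sum_nonneg fun w _ => by split_ifs <;> norm_num
  have lam1 : ∀ y, ∀ w ∈ G.N F, G.Low w → y ∈ G.nb w → 1 ≤ lam y := by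
    intro y w hw h1 h2
    have h3 := single_le_sum (f := fun w => if G.Low w ∧ y ∈ G.nb w then (1 : ℤ) else 0)
      (fun x _ => by split_ifs <;> norm_num) hw
    simp only [if_pos (And.intro h1 h2)] at h3
    exact h3
  have lam2 : ∀ y, ∀ w ∈ G.N F, ∀ w' ∈ G.N F, w ≠ w' → G.Low w → G.Low w' → y ∈ G.nb w →
      y ∈ G.nb w' → 2 ≤ lam y := by
    intro y w hw w' hw' hne h1 h1' h2 h2'
    have h3 := two_terms30 (f := fun w => if G.Low w ∧ y ∈ G.nb w then (1 : ℤ) else 0)
      (fun x _ => by split_ifs <;> norm_num) hw hw' hne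
    simp only [if_pos (And.intro h1 h2), if_pos (And.intro h1' h2')] at h3
    linarith
  -- the values
  have hgam : ∑ y ∈ G.N F, (2 * ((if G.Low y then 1 else 0) + lam y)) ≤
      ∑ w ∈ G.N F, G.gam5 F w := by
    have h1 : ∀ w ∈ G.N F, (if G.Low w then 2 + 2 * ((G.pT F w).card : ℤ) else 0) ≤
        G.gam5 F w := by
      intro w hw
      by_cases h : G.Low w
      · rw [if_pos h]
        exact (c.low_val hw h).2.2.2.2.2.2.2
          (fun v hv hvt => absurd hvt (hno v (mem_pT30.1 hv).2))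
      · rw [if_neg h, c.hub_val hw h (hno w hw)]
    refine le_trans (le_of_eq ?_) (sum_le_sum h1)
    have h2 : ∀ w ∈ G.N F, (if G.Low w then 2 + 2 * ((G.pT F w).card : ℤ) else 0) =
        2 * (if G.Low w then 1 else 0) +
          2 * ∑ y ∈ G.N F, (if G.Low w ∧ y ∈ G.nb w then (1 : ℤ) else 0) := by
      intro w _
      by_cases h : G.Low w
      · have h3 : (G.N F).filter (fun y => G.Low w ∧ y ∈ G.nb w) = G.pT F w := by
          ext y
          rw [mem_filter, mem_pT30]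
          exact ⟨fun k => ⟨k.2.2, k.1⟩, fun k => ⟨k.2, h, k.1⟩⟩
        rw [← sum_filter, sum_const, nsmul_eq_mul, mul_one, h3, if_pos h, if_pos h]
        ring
      · simp [h]
    rw [sum_congr rfl h2, sum_add_distrib, ← mul_sum, ← mul_sum, ← mul_sum, sum_add_distrib,
      mul_add, hlam]
    simp only
    rw [sum_comm]
  -- every hub has a low neighbour
  have hasH : ∀ y ∈ G.N F, ¬ G.Low y → ∃ w ∈ G.N F, G.Low w ∧ y ∈ G.nb w := by
    intro y hy hyl
    by_cases h1 : y ∈ G.nb l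
    · rcases c.cov_l h1 (mem_union_right _ hy) with k | k | k | k | k
      · obtain ⟨w, w1, w2, w3⟩ := k
        exact ⟨w, (memT.1 w1).2, w2, w3⟩
      · obtain ⟨v, v1, w, -, vw, -⟩ := k
        exact absurd ⟨w, vw⟩ (hno v (memT.1 v1).2)
      · obtain ⟨a, -, b, -, hab⟩ := k
        exact absurd (c.hL.sat _ _ _ hab) hyl
      · obtain ⟨a, -, b, b1, hab, h2, -⟩ := k
        exact ⟨b, (mem_sdiff.1 b1).1, hab.2.1, h2⟩
      · obtain ⟨a, -, b, b1, hab⟩ := k
        exact ⟨b, (mem_sdiff.1 b1).1, hab.2.1, LL_u76 hab⟩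
    · obtain ⟨h, hF, hne, hyh⟩ := c.exH hy h1
      rcases c.cov_h hF hne hy hyh with k | k | k | k | k | k
      · exact absurd k.2 h1
      · obtain ⟨w, w1, w2, w3⟩ := k
        exact ⟨w, (memT.1 w1).2, w2, w3⟩
      · obtain ⟨v, v1, w, -, vw, -⟩ := k
        exact absurd ⟨w, vw⟩ (hno v (memT.1 v1).2)
      · obtain ⟨a, -, hab, -⟩ := k
        exact absurd (c.hL.sat _ _ _ hab) hyl
      · obtain ⟨a, -, b, -, hab⟩ := k
        exact absurd (c.hL.sat _ _ _ hab) hyl
      · obtain ⟨a, -, b, b1, hab⟩ := k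
        exact ⟨b, (mem_sdiff.1 b1).1, hab.2.1, LL_u76 hab⟩
  have hf1 : ∀ y ∈ G.N F, (1 : ℤ) ≤ (if G.Low y then 1 else 0) + lam y := by
    intro y hy
    by_cases h : G.Low y
    · rw [if_pos h]
      linarith [lam0 y]
    · obtain ⟨w, w1, w2, w3⟩ := hasH y hy h
      rw [if_neg h, zero_add]
      exact lam1 y w w1 w2 w3
  -- two vertices with excess
  have fin : ∀ s1 ∈ G.N F, ∀ s2 ∈ G.N F, s1 ≠ s2 → (2 : ℤ) ≤ (if G.Low s1 then 1 else 0) + lam s1 →
      (2 : ℤ) ≤ (if G.Low s2 then 1 else 0) + lam s2 → 16 ≤ ∑ w ∈ G.N F, G.gam5 F w := by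
    intro s1 h1 s2 h2 hne e1 e2
    have h3 := two_terms30 (S := G.N F)
      (f := fun y => ((if G.Low y then 1 else 0) + lam y) - 1)
      (fun x hx => by have := hf1 x hx; linarith) h1 h2 hne
    rw [sum_sub_distrib, sum_const, c.cN, nsmul_eq_mul] at h3
    rw [← mul_sum] at hgam
    push_cast at h3
    linarith
  have lowf : ∀ y, G.Low y → (∃ w ∈ G.N F, G.Low w ∧ y ∈ G.nb w) →
      (2 : ℤ) ≤ (if G.Low y then 1 else 0) + lam y := by
    rintro y h1 ⟨w, w1, w2, w3⟩
    rw [if_pos h1]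
    linarith [lam1 y w w1 w2 w3]
  -- the exceptional cover in `X`
  have exc : ∀ x ∈ G.Tz F l, ∀ a ∈ G.Tz F l, ∀ b ∈ G.Tz F l, G.HL a b x →
      16 ≤ ∑ w ∈ G.N F, G.gam5 F w := by
    intro x hx a ha b hb hab
    have xa : x ≠ a := (ne_of_nb5 (HL_t76 hab)).symm
    have xb : x ≠ b := (HL_bt76 hab).2
    have ab : a ≠ b := ne_of_nb5 (HL_b76 hab)
    have hxl := c.hL.sat _ _ _ hab
    have hset : ∀ z ∈ G.Tz F l, z = x ∨ z = a ∨ z = b := fun z hz =>
      three_only hX3 hx ha hb xa xb ab hz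
    refine fin a (memT.1 ha).2 b (memT.1 hb).2 ab ?_ ?_
    · have := lam2 a b (memT.1 hb).2 x (memT.1 hx).2 (Ne.symm xb) hab.2.1 hxl
        (G.sym _ _ (HL_b76 hab)) (G.sym _ _ (HL_t76 hab))
      rw [if_neg (HL_not_low76 hab)]
      linarith
    · refine lowf b hab.2.1 ?_
      obtain ⟨b1, b2⟩ := memT.1 hb
      rcases c.cov_l b1 (mem_union_right _ b2) with k | k | k | k | k
      · obtain ⟨w, w1, w2, w3⟩ := k
        exact ⟨w, (memT.1 w1).2, w2, w3⟩
      · obtain ⟨v, v1, w, -, vw, -⟩ := k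
        exact absurd ⟨w, vw⟩ (hno v (memT.1 v1).2)
      · exfalso
        obtain ⟨a', a1', b', b1', hab'⟩ := k
        have ha' : a' = a := by
          rcases hset a' a1' with h | h | h
          · exact absurd (h ▸ hxl) (HL_not_low76 hab')
          · exact h
          · exact absurd (h ▸ hab.2.1) (HL_not_low76 hab')
        have hb' : b' = x := by
          rcases hset b' b1' with h | h | h
          · exact h
          · exact absurd (h ▸ hab'.2.1) (HL_not_low76 hab)
          · exact absurd h.symm (HL_bt76 hab').2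
        rw [ha', hb'] at hab'
        exact TH.nomut c.n9 _ _ _ _ _ hab hab' rfl
      · obtain ⟨a', -, b', b1', hab', h2, -⟩ := k
        exact ⟨b', (mem_sdiff.1 b1').1, hab'.2.1, h2⟩
      · obtain ⟨a', -, b', b1', hab'⟩ := k
        exact ⟨b', (mem_sdiff.1 b1').1, hab'.2.1, LL_u76 hab'⟩
  by_cases hex : ∃ x ∈ G.Tz F l, ∃ a ∈ G.Tz F l, ∃ b ∈ G.Tz F l, G.HL a b x
  · obtain ⟨x, hx, a, ha, b, hb, hab⟩ := hex
    exact exc x hx a ha b hb hab
  · have hasX : ∀ x ∈ G.Tz F l, ∃ w ∈ G.N F, G.Low w ∧ x ∈ G.nb w := by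
      intro x hx
      obtain ⟨x1, x2⟩ := memT.1 hx
      rcases c.cov_l x1 (mem_union_right _ x2) with k | k | k | k | k
      · obtain ⟨w, w1, w2, w3⟩ := k
        exact ⟨w, (memT.1 w1).2, w2, w3⟩
      · obtain ⟨v, v1, w, -, vw, -⟩ := k
        exact absurd ⟨w, vw⟩ (hno v (memT.1 v1).2)
      · obtain ⟨a, a1, b, b1, hab⟩ := k
        exact absurd ⟨x, hx, a, a1, b, b1, hab⟩ hex
      · obtain ⟨a', -, b', b1', hab', h2, -⟩ := k
        exact ⟨b', (mem_sdiff.1 b1').1, hab'.2.1, h2⟩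
      · obtain ⟨a', -, b', b1', hab'⟩ := k
        exact ⟨b', (mem_sdiff.1 b1').1, hab'.2.1, LL_u76 hab'⟩
    by_cases h2 : ∃ x1 ∈ G.Tz F l, ∃ x2 ∈ G.Tz F l, x1 ≠ x2 ∧ G.Low x1 ∧ G.Low x2
    · obtain ⟨x1, h1, x2, h2, hne, l1, l2⟩ := h2
      exact fin x1 (memT.1 h1).2 x2 (memT.1 h2).2 hne (lowf x1 l1 (hasX x1 h1))
        (lowf x2 l2 (hasX x2 h2))
    · push Not at h2
      have key : ∀ x ∈ G.Tz F l, (∀ w ∈ G.Tz F l, w ≠ x → ¬ G.Low w) →
          ∃ a ∈ G.Tz F l, ∃ b ∈ G.N F \ G.Tz F l, G.HL a b l ∧ x ∈ G.nb b ∧ x ∈ G.nb a := by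
        intro x hx hxo
        obtain ⟨x1, x2⟩ := memT.1 hx
        rcases c.cov_l x1 (mem_union_right _ x2) with k | k | k | k | k
        · obtain ⟨w, w1, w2, w3⟩ := k
          exact absurd w2 (hxo w w1 (ne_of_nb5 w3))
        · obtain ⟨v, v1, w, -, vw, -⟩ := k
          exact absurd ⟨w, vw⟩ (hno v (memT.1 v1).2)
        · obtain ⟨a, a1, b, b1, hab⟩ := k
          exact absurd ⟨x, hx, a, a1, b, b1, hab⟩ hex
        · exact k
        · obtain ⟨a, a1, b, b1, hab⟩ := k
          exact absurd hab.1 (hxo a a1 (LL_ua76 hab).2.symm)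
      by_cases h3 : ∃ x ∈ G.Tz F l, G.Low x
      · obtain ⟨x, x1, x2⟩ := h3
        obtain ⟨a, a1, b, b1, hab, e1, e2⟩ := key x x1 (fun w w1 w2 w3 => h2 w w1 x x1 w2 w3 x2)
        obtain ⟨b2, b3⟩ := mem_sdiff.1 b1
        have hne : x ≠ b := by
          rintro rfl
          exact b3 x1
        exact fin x (memT.1 x1).2 b b2 hne (lowf x x2 ⟨b, b2, hab.2.1, e1⟩)
          (lowf b hab.2.1 ⟨x, (memT.1 x1).2, x2, G.sym _ _ e1⟩)
      · push Not at h3
        obtain ⟨x0, hx0⟩ := card_pos.1 (show 0 < (G.Tz F l).card by omega)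
        obtain ⟨a, a1, b, b1, hab, -, -⟩ := key x0 hx0 (fun w w1 _ => h3 w w1)
        obtain ⟨a', a1', b', b1', hab', e1, e2⟩ := key a a1 (fun w w1 _ => h3 w w1)
        obtain ⟨b2, b3⟩ := mem_sdiff.1 b1
        obtain ⟨b2', b3'⟩ := mem_sdiff.1 b1'
        have hbb : b' ≠ b := by
          rintro rfl
          have h1 := TH.one c.n9 _ _ _ _ hab hab'
          rw [h1] at e2
          exact G.irr _ e2
        have hadj : b' ∈ G.nb b := by
          rcases HL_sup76 hab (G.sym _ _ e1) (ne_FN c.lF b2').symm with h1 | h1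
          · exact absurd h1 hbb
          · exact h1
        exact fin b b2 b' b2' hbb.symm (lowf b hab.2.1 ⟨b', b2', hab'.2.1, G.sym _ _ hadj⟩)
          (lowf b' hab'.2.1 ⟨b, b2, hab.2.1, hadj⟩)

/-- a pair of twins not adjacent to `l` -/
theorem Cx.d3ii (hd : G.d l F = 3) {p p' : V} (hp : p ∈ G.N F) (hpp : G.Tw p p')
    (hpl : p ∉ G.nb l) (hXt : ∀ x ∈ G.Tz F l, ¬ G.IsTw x) :
    16 ≤ ∑ w ∈ G.N F, G.gam5 F w := by
  have TH := stTwHL_5 G
  have hX := c.cX
  have hX3 : (G.Tz F l).card = 3 := by omega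
  have hp' := c.partner hp hpp
  have hpl' := tw_out hpp (ne_FN c.lF hp) hpl
  have hne := ne_of_nb5 hpp.1
  have hV3 : (G.N F \ G.nb l).card = 3 := by
    have := c.miss (h := l)
    omega
  -- the third vertex
  obtain ⟨v, hv, vp, vp'⟩ : ∃ v ∈ G.N F \ G.nb l, v ≠ p ∧ v ≠ p' := by
    have h3 : 0 < ((G.N F \ G.nb l) \ {p, p'}).card := by
      have h4 : ({p, p'} : Finset V).card ≤ 2 := card_le_two
      have h5 := le_card_sdiff ({p, p'} : Finset V) (G.N F \ G.nb l)
      omega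
    obtain ⟨y, hy⟩ := card_pos.1 h3
    obtain ⟨y1, y2⟩ := mem_sdiff.1 hy
    simp only [mem_insert, mem_singleton, not_or] at y2
    exact ⟨y, y1, y2.1, y2.2⟩
  obtain ⟨hvN, hvl⟩ := mem_sdiff.1 hv
  have hset : ∀ x ∈ G.N F, x ∉ G.nb l → x = p ∨ x = p' ∨ x = v := fun x h1 h2 =>
    three_only hV3 (mem_sdiff.2 ⟨hp, hpl⟩) (mem_sdiff.2 ⟨hp', hpl'⟩) hv hne vp.symm vp'.symm
      (mem_sdiff.2 ⟨h1, h2⟩)
  have htw : ∀ x ∈ G.N F, G.IsTw x → x = p ∨ x = p' := by
    rintro x h1 ⟨x', h2⟩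
    have h3 : x ∉ G.nb l := fun h => hXt x (memT.2 ⟨h, h1⟩) ⟨x', h2⟩
    have h4 := tw_out h2 (ne_FN c.lF h1) h3
    rcases hset x h1 h3 with h5 | h5 | h5
    · exact Or.inl h5
    · exact Or.inr h5
    · exfalso
      rcases hset x' (c.partner h1 h2) h4 with h6 | h6 | h6
      · rw [h6] at h2
        exact vp' (h5.symm.trans (TH.uniq c.n9 _ _ _ (tw_symm h2) hpp))
      · rw [h6] at h2
        exact vp (h5.symm.trans (TH.uniq c.n9 _ _ _ (tw_symm h2) (tw_symm hpp)))
      · rw [h5, h6] at h2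
        exact G.irr _ h2.1
  have covp : ∀ h ∈ F, h ≠ l → p ∈ G.nb h → ∃ w ∈ G.Tz F h, G.Low w ∧ p ∈ G.nb w := by
    intro h h1 h2 h3
    rcases c.cov_h_tw h1 h2 hp h3 hpp (Or.inr htw) with k | k
    · exact absurd k.2 hpl
    · exact k
  have claimA : ∀ w ∈ G.N F, G.Low w → w ∈ G.nb l → p ∈ G.nb w → G.d w F ≤ 2 := by
    intro w w1 w2 w3 w4
    by_contra h0
    have h1 := ((c.low_val w1 w2).2.2.2.2.1 (by omega)).1
    have wp' : w ≠ p' := fun h => tw_nlow (tw_symm hpp) (h ▸ w2)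
    have wp : w ≠ p := fun h => tw_nlow hpp (h ▸ w2)
    have hpT : ∀ z ∈ G.pT F w, z = p ∨ z = p' := fun z hz =>
      two_only h1 (mem_pT30.2 ⟨w4, hp⟩) (mem_pT30.2 ⟨tw_in hpp wp' w4, hp'⟩) hne hz
    have nlow : ∀ z ∈ G.pT F w, ¬ G.Low z := by
      intro z hz
      rcases hpT z hz with h | h
      · rw [h]
        exact tw_nlow hpp
      · rw [h]
        exact tw_nlow (tw_symm hpp)
    rcases c.cov_l w3 (mem_union_right _ w1) with k | k | k | k | k
    · obtain ⟨z, z1, z2, z3⟩ := k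
      exact nlow z (mem_pT30.2 ⟨G.sym _ _ z3, (memT.1 z1).2⟩) z2
    · obtain ⟨z, z1, z', -, z2, -⟩ := k
      exact hXt z z1 ⟨z', z2⟩
    · obtain ⟨a, a1, b, -, hab⟩ := k
      rcases hpT a (mem_pT30.2 ⟨G.sym _ _ (HL_t76 hab), (memT.1 a1).2⟩) with h | h
      · exact hpl (h ▸ (memT.1 a1).1)
      · exact hpl' (h ▸ (memT.1 a1).1)
    · obtain ⟨a, -, b, b1, hab, h2, -⟩ := k
      exact nlow b (mem_pT30.2 ⟨G.sym _ _ h2, (mem_sdiff.1 b1).1⟩) hab.2.1
    · obtain ⟨a, -, b, b1, hab⟩ := k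
      exact nlow b (mem_pT30.2 ⟨G.sym _ _ (LL_u76 hab), (mem_sdiff.1 b1).1⟩) hab.2.1
  -- the third vertex is low and adjacent to the pair and to all hubs
  obtain ⟨lv, hpv, hvH⟩ : G.Low v ∧ p ∈ G.nb v ∧ ∀ z ∈ F, z ≠ l → v ∈ G.nb z := by
    obtain ⟨g1, g2, g3, g4, g5⟩ := c.tw_val hp hpp
    have outV : ∀ w ∈ G.N F, G.Low w → w ∉ G.nb l → w = v := by
      intro w w1 w2 w3
      rcases hset w w1 w3 with h | h | h
      · exact absurd (h ▸ w2) (tw_nlow hpp)
      · exact absurd (h ▸ w2) (tw_nlow (tw_symm hpp))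
      · exact h
    by_cases hd2 : G.d p F = 2
    · obtain ⟨-, h3, m3, n3, q3, r3, s3, t3, u3, -⟩ := c.pair2 hp hpp hd2
      have step : ∀ z ∈ F, z ≠ l → z ≠ h3 → v ∈ G.nb z ∧ G.Low v ∧ p ∈ G.nb v := by
        intro z z1 z2 z3
        obtain ⟨w, w1, w2, w3⟩ := covp z z1 z2 (G.sym _ _ (u3 z z1 z3 z2))
        obtain ⟨w4, w5⟩ := memT.1 w1
        have wp' : w ≠ p' := fun h => tw_nlow (tw_symm hpp) (h ▸ w2)
        have wp : w ≠ p := fun h => tw_nlow hpp (h ▸ w2)
        have wl : w ∉ G.nb l := by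
          intro h0
          have h1 := claimA w w5 w2 h0 w3
          have h2 : 3 ≤ G.d w F := three_card (mem_inter.2 ⟨G.sym _ _ h0, c.lF⟩)
            (mem_inter.2 ⟨G.sym _ _ (s3 w w5 wp wp'), m3⟩) (mem_inter.2 ⟨G.sym _ _ w4, z1⟩)
            n3.symm z2.symm z3.symm
          omega
        have := outV w w5 w2 wl
        rw [this] at w2 w3 w4
        exact ⟨w4, w2, w3⟩
      obtain ⟨z, z1, z2, z3⟩ : ∃ z ∈ F, z ≠ l ∧ z ≠ h3 := by
        have h1 : 0 < ((F.erase l).erase h3).card := by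
          rw [card_erase_of_mem (mem_erase.2 ⟨n3, m3⟩), card_erase_of_mem c.lF, c.c4]
          norm_num
        obtain ⟨k, hk⟩ := card_pos.1 h1
        rw [mem_erase, mem_erase] at hk
        exact ⟨k, hk.2.2, hk.2.1, hk.1⟩
      obtain ⟨-, e2, e3⟩ := step z z1 z2 z3
      refine ⟨e2, e3, fun y y1 y2 => ?_⟩
      by_cases y3 : y = h3
      · rw [y3]
        exact s3 v hvN vp vp'
      · exact (step y y1 y2 y3).1
    · have hd3 : 3 ≤ G.d p F := by omega
      have hall : ∀ z ∈ F, z ≠ l → p ∈ G.nb z := by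
        have h1 : G.nb p ∩ F = F.erase l := by
          refine eq_of_subset_of_card_le ?_ ?_
          · intro z hz
            obtain ⟨z1, z2⟩ := mem_inter.1 hz
            refine mem_erase.2 ⟨?_, z2⟩
            rintro rfl
            exact hpl (G.sym _ _ z1)
          · rw [card_erase_of_mem c.lF, c.c4]
            exact hd3
        intro z z1 z2
        have h2 : z ∈ G.nb p ∩ F := by
          rw [h1]
          exact mem_erase.2 ⟨z2, z1⟩
        exact G.sym _ _ (mem_inter.1 h2).1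
      have hc := (g5 hd3).2.2
      obtain ⟨z0, z01, z02⟩ : ∃ z ∈ F, z ≠ l := by
        have h1 : 0 < (F.erase l).card := by
          rw [card_erase_of_mem c.lF, c.c4]
          norm_num
        obtain ⟨k, hk⟩ := card_pos.1 h1
        rw [mem_erase] at hk
        exact ⟨k, hk.2, hk.1⟩
      obtain ⟨w, w1, w2, w3⟩ := covp z0 z01 z02 (hall z0 z01 z02)
      obtain ⟨w4, w5⟩ := memT.1 w1
      have wp' : w ≠ p' := fun h => tw_nlow (tw_symm hpp) (h ▸ w2)
      have hw : ∀ z ∈ F, z ≠ l → w ∈ G.nb z := by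
        intro z z1 z2
        obtain ⟨y, y1, y2, y3⟩ := covp z z1 z2 (hall z z1 z2)
        obtain ⟨y4, y5⟩ := memT.1 y1
        have yp' : y ≠ p' := fun h => tw_nlow (tw_symm hpp) (h ▸ y2)
        rcases two_only hc (c.partner_pT hp hpp) (mem_pT30.2 ⟨G.sym _ _ w3, w5⟩) wp'.symm
          (mem_pT30.2 ⟨G.sym _ _ y3, y5⟩) with h1 | h1
        · exact absurd h1 yp'
        · exact h1 ▸ y4
      have wl : w ∉ G.nb l := by
        intro h0
        have h1 := claimA w w5 w2 h0 w3
        have h2 : F ⊆ G.nb w ∩ F := by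
          intro z hz
          refine mem_inter.2 ⟨?_, hz⟩
          by_cases h3 : z = l
          · rw [h3]
            exact G.sym _ _ h0
          · exact G.sym _ _ (hw z hz h3)
        have h3 := card_le_card h2
        rw [c.c4] at h3
        have h4 : 4 ≤ G.d w F := h3
        omega
      have hwv := outV w w5 w2 wl
      rw [hwv] at w2 w3 hw
      exact ⟨w2, w3, hw⟩
  -- the values
  have hpv' : p' ∈ G.nb v := tw_in hpp vp' hpv
  have dv : G.d v F = 3 := by
    have h1 : G.nb v ∩ F = F.erase l := by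
      ext z
      rw [mem_inter, mem_erase]
      constructor
      · rintro ⟨h2, h3⟩
        refine ⟨?_, h3⟩
        rintro rfl
        exact hvl (G.sym _ _ h2)
      · rintro ⟨h2, h3⟩
        exact ⟨G.sym _ _ (hvH z h3 h2), h3⟩
    unfold d
    rw [h1, card_erase_of_mem c.lF, c.c4]
  obtain ⟨-, -, -, -, k5, -, k7, -⟩ := c.low_val hvN lv
  have hpT : ∀ z ∈ G.pT F v, z = p ∨ z = p' := fun z hz =>
    two_only (k5 (by omega)).1 (mem_pT30.2 ⟨hpv, hp⟩) (mem_pT30.2 ⟨hpv', hp'⟩) hne hz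
  have gv : 12 ≤ G.gam5 F v := by
    refine k7 dv ⟨p, p', hpp, ?_⟩
    ext z
    rw [mem_insert, mem_singleton]
    constructor
    · exact hpT z
    · rintro (h | h)
      · rw [h]
        exact mem_pT30.2 ⟨hpv, hp⟩
      · rw [h]
        exact mem_pT30.2 ⟨hpv', hp'⟩
  have gtw : ∀ {q q' : V}, q ∈ G.N F → G.Tw q q' → v ∈ G.nb q → v ≠ q' → -1 ≤ G.gam5 F q := by
    intro q q' h1 h2 h4 h5
    obtain ⟨k0, -, k1, k3, k2⟩ := c.tw_val h1 h2
    have h6 := two_card (c.partner_pT h1 h2) (mem_pT30.2 ⟨h4, hvN⟩) (Ne.symm h5)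
    have h8 : (1 : ℤ) ≤ ((G.tT G.Tw F q).card : ℤ) := by
      have : 1 ≤ (G.tT G.Tw F q).card := by omega
      exact_mod_cast this
    by_cases h7 : G.d q F = 2
    · have := k3 h7
      linarith
    · have := (k2 (by omega)).1
      linarith
  have gp := gtw hp hpp (G.sym _ _ hpv) vp'
  have gp' := gtw hp' (tw_symm hpp) (G.sym _ _ hpv') vp
  -- the vertices of `X`
  have key : ∀ x ∈ G.Tz F l, (∃ w ∈ G.Tz F l, G.Low w ∧ w ≠ x) ∧ 1 ≤ (G.pT F x).card := by
    intro x hx
    obtain ⟨x1, x2⟩ := memT.1 hx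
    have nvx : x ∉ G.nb v := by
      intro h0
      rcases hpT x (mem_pT30.2 ⟨h0, x2⟩) with h | h
      · exact hpl (h ▸ x1)
      · exact hpl' (h ▸ x1)
    have bv : ∀ b ∈ G.N F \ G.Tz F l, G.Low b → b = v := by
      intro b b1 b2
      obtain ⟨b3, b4⟩ := mem_sdiff.1 b1
      rcases hset b b3 (fun h => b4 (memT.2 ⟨h, b3⟩)) with h | h | h
      · exact absurd (h ▸ b2) (tw_nlow hpp)
      · exact absurd (h ▸ b2) (tw_nlow (tw_symm hpp))
      · exact h
    rcases c.cov_l x1 (mem_union_right _ x2) with k | k | k | k | k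
    · obtain ⟨w, w1, w2, w3⟩ := k
      exact ⟨⟨w, w1, w2, ne_of_nb5 w3⟩,
        card_pos.2 ⟨w, mem_pT30.2 ⟨G.sym _ _ w3, (memT.1 w1).2⟩⟩⟩
    · obtain ⟨z, z1, z', -, z2, -⟩ := k
      exact absurd ⟨z', z2⟩ (hXt z z1)
    · obtain ⟨a, a1, b, b1, hab⟩ := k
      exact ⟨⟨b, b1, hab.2.1, (HL_bt76 hab).2.symm⟩,
        card_pos.2 ⟨a, mem_pT30.2 ⟨G.sym _ _ (HL_t76 hab), (memT.1 a1).2⟩⟩⟩
    · obtain ⟨a, -, b, b1, hab, h2, -⟩ := k
      exact absurd (bv b b1 hab.2.1 ▸ h2) nvx
    · obtain ⟨a, -, b, b1, hab⟩ := k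
      exact absurd (bv b b1 hab.2.1 ▸ LL_u76 hab) nvx
  obtain ⟨x0, hx0⟩ := card_pos.1 (show 0 < (G.Tz F l).card by omega)
  obtain ⟨⟨w1, a1, a2, -⟩, -⟩ := key x0 hx0
  obtain ⟨⟨w2, b1, b2, b3⟩, a3⟩ := key w1 a1
  obtain ⟨-, b4⟩ := key w2 b1
  have gw1 := (c.low_val (memT.1 a1).2 a2).2.2.2.1 a3
  have gw2 := (c.low_val (memT.1 b1).2 b2).2.2.2.1 b4
  have ninX : ∀ {w : V}, w ∈ G.Tz F l → w ≠ v ∧ w ≠ p ∧ w ≠ p' := by
    intro w hw
    have h1 := (memT.1 hw).1
    exact ⟨fun h => hvl (h ▸ h1), fun h => hpl (h ▸ h1), fun h => hpl' (h ▸ h1)⟩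
  obtain ⟨i1, i2, i3⟩ := ninX a1
  obtain ⟨j1, j2, j3⟩ := ninX b1
  have g3 := sum_list' (fun w => G.gam5 F w) (G.N F) [v, p, p', w1, w2]
    (by simp [vp, vp', hne, i1.symm, i2.symm, i3.symm, j1.symm, j2.symm, j3.symm, b3.symm])
    (by simp [hvN, hp, hp', (memT.1 a1).2, (memT.1 b1).2]) (fun x hx hx' => by
      simp only [List.mem_cons, List.not_mem_nil, or_false, not_or] at hx'
      by_cases h1 : G.Low x
      · have := (c.low_val hx h1).2.2.1
        linarith
      · rw [c.hub_val hx h1 (fun h2 => ?_)]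
        rcases htw x hx h2 with h3 | h3
        · exact hx'.2.1 h3
        · exact hx'.2.2.1 h3)
  simp only [List.map_cons, List.map_nil, List.sum_cons, List.sum_nil, add_zero] at g3
  linarith

/-- a pair of twins adjacent to `l` -/
theorem Cx.d3i (hd : G.d l F = 3) {p p' : V} (hp : p ∈ G.N F) (hpp : G.Tw p p')
    (hpl : p ∈ G.nb l) : 16 ≤ ∑ w ∈ G.N F, G.gam5 F w := by
  have TH := stTwHL_5 G
  have hX := c.cX
  have hX3 : (G.Tz F l).card = 3 := by omega
  have hp' := c.partner hp hpp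
  have hpl' := tw_in hpp (ne_FN c.lF hp') hpl
  have hne := ne_of_nb5 hpp.1
  have hV3 : (G.N F \ G.nb l).card = 3 := by
    have := c.miss (h := l)
    omega
  have hPX : ∀ v ∈ G.N F, G.IsTw v → v ∈ G.nb l → 3 ≤ G.d v F := by
    rintro v h1 ⟨v', h2⟩ h3
    by_contra h4
    have h5 := (c.tw_val h1 h2).1
    exact (c.pair2 h1 h2 (by omega)).1 h3
  have dp := hPX p hp ⟨p', hpp⟩ hpl
  have dp' := hPX p' hp' ⟨p, tw_symm hpp⟩ hpl'
  obtain ⟨x, hx, lx, hpx⟩ := c.cov_l_tw hPX (memT.2 ⟨hpl, hp⟩) hpp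
  obtain ⟨hxl, hxN⟩ := memT.1 hx
  have xp' : x ≠ p' := fun h => tw_nlow (tw_symm hpp) (h ▸ lx)
  have xp : x ≠ p := fun h => tw_nlow hpp (h ▸ lx)
  have hpx' : p' ∈ G.nb x := tw_in hpp xp' hpx
  have hsetX : ∀ z ∈ G.N F, z ∈ G.nb l → z = p ∨ z = p' ∨ z = x := fun z h1 h2 =>
    three_only hX3 (memT.2 ⟨hpl, hp⟩) (memT.2 ⟨hpl', hp'⟩) hx hne xp.symm xp'.symm
      (memT.2 ⟨h2, h1⟩)
  have hpT : ∀ z ∈ G.pT F p, z = p' ∨ z = x :=
    c.tw_pT hp hpp dp hxN (G.sym _ _ hpx) xp'
  have hpT' : ∀ z ∈ G.pT F p', z = p ∨ z = x :=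
    c.tw_pT hp' (tw_symm hpp) dp' hxN (G.sym _ _ hpx') xp
  have gtw : ∀ {q q' y : V}, q ∈ G.N F → G.Tw q q' → y ∈ G.N F → y ∈ G.nb q → y ≠ q' →
      -1 ≤ G.gam5 F q ∧ (3 ≤ G.d q F → 1 ≤ G.gam5 F q) := by
    intro q q' y h1 h2 h3 h4 h5
    obtain ⟨k0, -, k1, k3, k2⟩ := c.tw_val h1 h2
    have h6 := two_card (c.partner_pT h1 h2) (mem_pT30.2 ⟨h4, h3⟩) (Ne.symm h5)
    have h8 : (1 : ℤ) ≤ ((G.tT G.Tw F q).card : ℤ) := by
      have : 1 ≤ (G.tT G.Tw F q).card := by omega
      exact_mod_cast this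
    constructor
    · by_cases h7 : G.d q F = 2
      · have := k3 h7
        linarith
      · have := (k2 (by omega)).1
        linarith
    · intro h7
      have := (k2 h7).1
      linarith
  have gp := (gtw hp hpp hxN (G.sym _ _ hpx) xp').2 dp
  have gp' := (gtw hp' (tw_symm hpp) hxN (G.sym _ _ hpx') xp).2 dp'
  -- vertices outside of `X` are not adjacent to the pair
  have nVp : ∀ {v : V}, v ∈ G.N F → v ∉ G.nb l → v ∉ G.nb p ∧ v ∉ G.nb p' := by
    intro v h1 h2
    constructor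
    · intro h3
      rcases hpT v (mem_pT30.2 ⟨h3, h1⟩) with h4 | h4
      · exact h2 (h4 ▸ hpl')
      · exact h2 (h4 ▸ hxl)
    · intro h3
      rcases hpT' v (mem_pT30.2 ⟨h3, h1⟩) with h4 | h4
      · exact h2 (h4 ▸ hpl)
      · exact h2 (h4 ▸ hxl)
  have lowV : ∀ {w : V}, w ∈ G.N F → G.Low w → w = x ∨ w ∉ G.nb l := by
    intro w h1 h2
    by_cases h3 : w ∈ G.nb l
    · rcases hsetX w h1 h3 with h | h | h
      · exact absurd (h ▸ h2) (tw_nlow hpp)
      · exact absurd (h ▸ h2) (tw_nlow (tw_symm hpp))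
      · exact Or.inl h
    · exact Or.inr h3
  have twV : ∀ {w : V}, w ∈ G.N F → G.IsTw w → w = p ∨ w = p' ∨ w ∉ G.nb l := by
    rintro w h1 ⟨w', h2⟩
    by_cases h3 : w ∈ G.nb l
    · rcases hsetX w h1 h3 with h | h | h
      · exact Or.inl h
      · exact Or.inr (Or.inl h)
      · exact absurd (h ▸ lx) (tw_nlow h2)
    · exact Or.inr (Or.inr h3)
  -- the third vertex outside of `X`, if there is a pair
  have third : ∀ {v v' : V}, v ∈ G.N F → G.Tw v v' → v ∉ G.nb l → ∃ u ∈ G.N F, u ∉ G.nb l ∧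
      u ≠ v ∧ u ≠ v' ∧ ∀ z ∈ G.N F, z ∉ G.nb l → z = v ∨ z = v' ∨ z = u := by
    intro v v' h1 h2 h3
    have h4 := c.partner h1 h2
    have h5 := tw_out h2 (ne_FN c.lF h1) h3
    have h6 : 0 < ((G.N F \ G.nb l) \ {v, v'}).card := by
      have h4 : ({v, v'} : Finset V).card ≤ 2 := card_le_two
      have h5 := le_card_sdiff ({v, v'} : Finset V) (G.N F \ G.nb l)
      omega
    obtain ⟨u, hu⟩ := card_pos.1 h6
    obtain ⟨u1, u2⟩ := mem_sdiff.1 hu
    simp only [mem_insert, mem_singleton, not_or] at u2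
    refine ⟨u, (mem_sdiff.1 u1).1, (mem_sdiff.1 u1).2, u2.1, u2.2, fun z z1 z2 => ?_⟩
    exact three_only hV3 (mem_sdiff.2 ⟨h1, h3⟩) (mem_sdiff.2 ⟨h4, h5⟩) u1 (ne_of_nb5 h2.1)
      (Ne.symm u2.1) (Ne.symm u2.2) (mem_sdiff.2 ⟨z1, z2⟩)
  by_cases hdx : 3 ≤ G.d x F
  · -- `x` has three neighbours in `F`
    obtain ⟨-, -, -, -, k5, k6, k7, -⟩ := c.low_val hxN lx
    have hc2 := two_card (mem_pT30.2 ⟨hpx, hp⟩) (mem_pT30.2 ⟨hpx', hp'⟩) hne
    have dx : G.d x F = 3 := by
      have h1 := c.d4 x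
      by_contra h2
      have := k6 (by omega)
      omega
    have hxT : ∀ z ∈ G.pT F x, z = p ∨ z = p' := fun z hz =>
      two_only (k5 (by omega)).1 (mem_pT30.2 ⟨hpx, hp⟩) (mem_pT30.2 ⟨hpx', hp'⟩) hne hz
    have gx : 12 ≤ G.gam5 F x := by
      refine k7 dx ⟨p, p', hpp, ?_⟩
      ext z
      rw [mem_insert, mem_singleton]
      constructor
      · exact hxT z
      · rintro (h | h)
        · rw [h]
          exact mem_pT30.2 ⟨hpx, hp⟩
        · rw [h]
          exact mem_pT30.2 ⟨hpx', hp'⟩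
    have nVx : ∀ {v : V}, v ∈ G.N F → v ∉ G.nb l → v ∉ G.nb x := by
      intro v h1 h2 h3
      rcases hxT v (mem_pT30.2 ⟨h3, h1⟩) with h4 | h4
      · exact h2 (h4 ▸ hpl)
      · exact h2 (h4 ▸ hpl')
    by_cases hVt : ∃ v ∈ G.N F, G.IsTw v ∧ v ∉ G.nb l
    · obtain ⟨v, hv, ⟨v', hvv⟩, hvl⟩ := hVt
      have hv' := c.partner hv hvv
      have hvl' := tw_out hvv (ne_FN c.lF hv) hvl
      have hnev := ne_of_nb5 hvv.1
      obtain ⟨u, hu, hul, uv, uv', hsetV⟩ := third hv hvv hvl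
      obtain ⟨h, hF, hne', hvh⟩ := c.exH hv hvl
      have hlowu : ∀ w ∈ G.N F, G.Low w → v ∈ G.nb w → w = u := by
        intro w w1 w2 w3
        rcases lowV w1 w2 with h1 | h1
        · exact absurd (h1 ▸ w3) (nVx hv hvl)
        · rcases hsetV w w1 h1 with h2 | h2 | h2
          · exact absurd (h2 ▸ w2) (tw_nlow hvv)
          · exact absurd (h2 ▸ w2) (tw_nlow (tw_symm hvv))
          · exact h2
      obtain ⟨lu, hvu⟩ : G.Low u ∧ v ∈ G.nb u := by
        rcases c.cov_h hF hne' hv hvh with k | k | k | k | k | k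
        · exact absurd k.2 hvl
        · obtain ⟨w, w1, w2, w3⟩ := k
          have h1 := hlowu w (memT.1 w1).2 w2 w3
          exact ⟨h1 ▸ w2, h1 ▸ w3⟩
        · exfalso
          obtain ⟨a, a1, b, b1, hab, a2, b2⟩ := k
          have aN := (memT.1 a1).2
          rcases twV aN ⟨b, hab⟩ with h1 | h1 | h1
          · exact (nVp hv hvl).1 (h1 ▸ a2)
          · exact (nVp hv hvl).2 (h1 ▸ a2)
          · rcases hsetV a aN h1 with h2 | h2 | h2
            · exact G.irr _ (h2 ▸ a2)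
            · rw [h2] at hab
              rw [TH.uniq c.n9 _ _ _ hab (tw_symm hvv)] at b2
              exact G.irr _ b2
            · have h3 := tw_out hab (ne_FN c.lF aN) h1
              rcases hsetV b (memT.1 b1).2 h3 with h4 | h4 | h4
              · exact G.irr _ (h4 ▸ b2)
              · rw [h4] at hab
                rw [TH.uniq c.n9 _ _ _ (tw_symm hab) (tw_symm hvv)] at a2
                exact G.irr _ a2
              · rw [h2, h4] at hab
                exact G.irr _ hab.1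
        · exfalso
          obtain ⟨a, -, hab, -⟩ := k
          exact tw_nlow hvv (c.hL.sat _ _ _ hab)
        · exfalso
          obtain ⟨a, -, b, -, hab⟩ := k
          exact tw_nlow hvv (c.hL.sat _ _ _ hab)
        · exfalso
          obtain ⟨a, -, b, -, hab⟩ := k
          exact (TH.twLL _ _ _ _ hab).2 ⟨_, hvv⟩
      have hvu' : v' ∈ G.nb u := tw_in hvv uv' hvu
      have gu := (c.low_val hu lu).2.2.2.1 (card_pos.2 ⟨v, mem_pT30.2 ⟨hvu, hv⟩⟩)
      have gv := (gtw hv hvv hu (G.sym _ _ hvu) uv').1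
      have gv' := (gtw hv' (tw_symm hvv) hu (G.sym _ _ hvu') uv).1
      have ninX : ∀ {w : V}, w ∉ G.nb l → w ≠ x ∧ w ≠ p ∧ w ≠ p' := by
        intro w hw
        exact ⟨fun h => hw (h ▸ hxl), fun h => hw (h ▸ hpl), fun h => hw (h ▸ hpl')⟩
      obtain ⟨i1, i2, i3⟩ := ninX hvl
      obtain ⟨j1, j2, j3⟩ := ninX hvl'
      obtain ⟨o1, o2, o3⟩ := ninX hul
      have g3 := sum_list' (fun w => G.gam5 F w) (G.N F) [x, p, p', v, v', u]
        (by simp [xp, xp', hne, i1.symm, i2.symm, i3.symm, j1.symm, j2.symm, j3.symm, o1.symm,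
          o2.symm, o3.symm, hnev, uv.symm, uv'.symm])
        (by simp [hxN, hp, hp', hv, hv', hu]) (fun z hz hz' => by
          exfalso
          simp only [List.mem_cons, List.not_mem_nil, or_false, not_or] at hz'
          by_cases h1 : z ∈ G.nb l
          · rcases hsetX z hz h1 with h2 | h2 | h2
            · exact hz'.2.1 h2
            · exact hz'.2.2.1 h2
            · exact hz'.1 h2
          · rcases hsetV z hz h1 with h2 | h2 | h2
            · exact hz'.2.2.2.1 h2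
            · exact hz'.2.2.2.2.1 h2
            · exact hz'.2.2.2.2.2 h2)
      simp only [List.map_cons, List.map_nil, List.sum_cons, List.sum_nil, add_zero] at g3
      linarith
    · push Not at hVt
      have hrest : ∀ z ∈ G.N F, z ≠ p → z ≠ p' → 0 ≤ G.gam5 F z := by
        intro z hz h1 h2
        by_cases h3 : G.Low z
        · have := (c.low_val hz h3).2.2.1
          linarith
        · by_cases h4 : G.IsTw z
          · exfalso
            rcases twV hz h4 with h5 | h5 | h5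
            · exact h1 h5
            · exact h2 h5
            · exact h5 (hVt z hz h4)
          · rw [c.hub_val hz h3 h4]
      by_cases hVl : ∃ u ∈ G.N F, G.Low u ∧ u ∉ G.nb l
      · obtain ⟨u, hu, lu, hul⟩ := hVl
        have gu := (c.low_val hu lu).2.2.1
        have o1 : u ≠ x := fun h => hul (h ▸ hxl)
        have o2 : u ≠ p := fun h => hul (h ▸ hpl)
        have o3 : u ≠ p' := fun h => hul (h ▸ hpl')
        have g3 := sum_list' (fun w => G.gam5 F w) (G.N F) [x, p, p', u]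
          (by simp [xp, xp', hne, o1.symm, o2.symm, o3.symm])
          (by simp [hxN, hp, hp', hu]) (fun z hz hz' => by
            simp only [List.mem_cons, List.not_mem_nil, or_false, not_or] at hz'
            exact hrest z hz hz'.2.1 hz'.2.2.1)
        simp only [List.map_cons, List.map_nil, List.sum_cons, List.sum_nil, add_zero] at g3
        linarith
      · exfalso
        push Not at hVl
        obtain ⟨v, hv⟩ := card_pos.1 (show 0 < (G.N F \ G.nb l).card by omega)
        obtain ⟨hvN, hvl⟩ := mem_sdiff.1 hv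
        obtain ⟨h, hF, hne', hvh⟩ := c.exH hvN hvl
        have nolow : ∀ w ∈ G.N F, G.Low w → v ∉ G.nb w := by
          intro w w1 w2 w3
          rcases lowV w1 w2 with h1 | h1
          · exact nVx hvN hvl (h1 ▸ w3)
          · exact h1 (hVl w w1 w2)
        rcases c.cov_h hF hne' hvN hvh with k | k | k | k | k | k
        · exact hvl k.2
        · obtain ⟨w, w1, w2, w3⟩ := k
          exact nolow w (memT.1 w1).2 w2 w3
        · obtain ⟨a, a1, b, b1, hab, a2, b2⟩ := k
          have aN := (memT.1 a1).2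
          rcases twV aN ⟨b, hab⟩ with h1 | h1 | h1
          · exact (nVp hvN hvl).1 (h1 ▸ a2)
          · exact (nVp hvN hvl).2 (h1 ▸ a2)
          · exact h1 (hVt a aN ⟨b, hab⟩)
        · obtain ⟨a, -, hab, -⟩ := k
          exact hvl (hVl v hvN (c.hL.sat _ _ _ hab))
        · obtain ⟨a, -, b, -, hab⟩ := k
          exact hvl (hVl v hvN (c.hL.sat _ _ _ hab))
        · obtain ⟨a, -, b, b1, hab⟩ := k
          exact nolow b (mem_sdiff.1 b1).1 hab.2.1 (LL_u76 hab)
  · -- `x` has two neighbours in `F`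
    have dx : G.d x F = 2 := by
      have := (c.low_val hxN lx).1
      omega
    -- the second neighbour of `x`
    obtain ⟨h1, m1, n1, hxh⟩ : ∃ h ∈ F, h ≠ l ∧ x ∈ G.nb h := by
      by_contra h0
      push Not at h0
      have h1 : G.nb x ∩ F ⊆ {l} := by
        intro z hz
        obtain ⟨z1, z2⟩ := mem_inter.1 hz
        rw [mem_singleton]
        by_contra h2
        exact h0 z z2 h2 (G.sym _ _ z1)
      have h2 := card_le_card h1
      rw [card_singleton] at h2
      have h3 : (G.nb x ∩ F).card = 2 := dx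
      omega
    have hxo : ∀ z ∈ F, z ≠ l → z ≠ h1 → x ∉ G.nb z := by
      intro z z1 z2 z3 z4
      rcases d2_only dx c.lF (G.sym _ _ hxl) m1 (G.sym _ _ hxh) n1.symm z1 (G.sym _ _ z4)
        with h | h
      · exact z2 h
      · exact z3 h
    have hpo : ∀ z ∈ F, z ≠ l → z ≠ h1 → p ∈ G.nb z := by
      intro z z1 z2 z3
      by_contra h2
      exact c.no3 z1 z2 hp hp' hxN hne xp.symm xp'.symm h2
        (tw_out hpp (ne_FN z1 hp) h2) (hxo z z1 z2 z3)
    have dp3 : G.d p F = 3 := by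
      have h2 := (c.tw_val hp hpp).2.1
      have h3 := two_card (c.partner_pT hp hpp) (mem_pT30.2 ⟨G.sym _ _ hpx, hxN⟩) xp'.symm
      omega
    have dp3' : G.d p' F = 3 := by
      rw [← c.tw_d hp hpp]
      exact dp3
    have hph : p ∉ G.nb h1 := by
      intro h2
      have h3 : F ⊆ G.nb p ∩ F := by
        intro z hz
        refine mem_inter.2 ⟨?_, hz⟩
        by_cases e1 : z = l
        · rw [e1]
          exact G.sym _ _ hpl
        · by_cases e2 : z = h1
          · rw [e2]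
            exact G.sym _ _ h2
          · exact G.sym _ _ (hpo z hz e1 e2)
      have h4 := card_le_card h3
      rw [c.c4] at h4
      have h5 : (G.nb p ∩ F).card = 3 := dp3
      omega
    have hph' : p' ∉ G.nb h1 := tw_out hpp (ne_FN m1 hp) hph
    have hVh : ∀ {v : V}, v ∈ G.N F → v ∉ G.nb l → v ∈ G.nb h1 := by
      intro v h2 h3
      by_contra h4
      exact c.no3 m1 n1 hp hp' h2 hne (fun h => h3 (h ▸ hpl)) (fun h => h3 (h ▸ hpl')) hph hph' h4
    have noHL : ∀ {a y : V}, a ∈ F → ¬ G.HL a l y := by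
      intro a y h2 h3
      have e1 := HL_sub76 h3 hxl (ne_FN h2 hxN).symm
      have e2 := HL_sub76 h3 hpl (ne_FN h2 hp).symm
      have e3 : a ≠ l := by
        rintro rfl
        exact G.irr _ (HL_b76 h3)
      by_cases e4 : a = h1
      · exact hph (e4 ▸ e2)
      · exact hxo a h2 e3 e4 e1
    have hxT3 := (c.low_val hxN lx).2.1
    have xT : ∀ v ∈ G.pT F x, v ∉ G.nb l → ¬ G.IsTw v := by
      rintro v h2 h3 ⟨v', h4⟩
      obtain ⟨h5, h6⟩ := mem_pT30.1 h2
      have h7 := c.partner h6 h4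
      have h8 := tw_out h4 (ne_FN c.lF h6) h3
      have xv' : x ≠ v' := fun h => tw_nlow (tw_symm h4) (h ▸ lx)
      have h9 := four_card (mem_pT30.2 ⟨hpx, hp⟩) (mem_pT30.2 ⟨hpx', hp'⟩) h2
        (mem_pT30.2 ⟨tw_in h4 xv' h5, h7⟩) hne (fun h => h3 (h ▸ hpl)) (fun h => h3 (h ▸ hpl'))
        (fun h => h8 (h ▸ hpl)) (fun h => h8 (h ▸ hpl')) (ne_of_nb5 h4.1)
      omega
    have gx : 2 + 2 * ((G.pT F x).card : ℤ) ≤ G.gam5 F x := by
      refine (c.low_val hxN lx).2.2.2.2.2.2.2 fun v hv hvt => ?_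
      rcases twV (mem_pT30.1 hv).2 hvt with h | h | h
      · rw [h, dp3]
        norm_num
      · rw [h, dp3']
        norm_num
      · exact absurd hvt (xT v hv h)
    have gx2 : (2 : ℤ) ≤ ((G.pT F x).card : ℤ) := by
      exact_mod_cast two_card (mem_pT30.2 ⟨hpx, hp⟩) (mem_pT30.2 ⟨hpx', hp'⟩) hne
    have ninX : ∀ {w : V}, w ∉ G.nb l → w ≠ x ∧ w ≠ p ∧ w ≠ p' := by
      intro w hw
      exact ⟨fun h => hw (h ▸ hxl), fun h => hw (h ▸ hpl), fun h => hw (h ▸ hpl')⟩
    by_cases hVt : ∃ v ∈ G.N F, G.IsTw v ∧ v ∉ G.nb l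
    · obtain ⟨v, hv, ⟨v', hvv⟩, hvl⟩ := hVt
      have hv' := c.partner hv hvv
      have hvl' := tw_out hvv (ne_FN c.lF hv) hvl
      have hnev := ne_of_nb5 hvv.1
      obtain ⟨u, hu, hul, uv, uv', hsetV⟩ := third hv hvv hvl
      obtain ⟨i1, i2, i3⟩ := ninX hvl
      obtain ⟨j1, j2, j3⟩ := ninX hvl'
      obtain ⟨o1, o2, o3⟩ := ninX hul
      have hvo : ∀ z ∈ F, z ≠ l → v ∈ G.nb z := by
        intro z z1 z2
        by_cases z3 : z = h1
        · rw [z3]
          exact hVh hv hvl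
        · by_contra h2
          exact c.no3 z1 z2 hv hv' hxN hnev i1 j1 h2
            (tw_out hvv (ne_FN z1 hv) h2) (hxo z z1 z2 z3)
      have dv : 3 ≤ G.d v F := by
        have h2 : F.erase l ⊆ G.nb v ∩ F := by
          intro z hz
          obtain ⟨z1, z2⟩ := mem_erase.1 hz
          exact mem_inter.2 ⟨G.sym _ _ (hvo z z2 z1), z2⟩
        have h3 := card_le_card h2
        rw [card_erase_of_mem c.lF, c.c4] at h3
        exact h3
      have dv' : 3 ≤ G.d v' F := by
        rw [← c.tw_d hv hvv]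
        exact dv
      obtain ⟨h2, m2, n2, o2'⟩ : ∃ z ∈ F, z ≠ l ∧ z ≠ h1 := by
        have h1' : 0 < ((F.erase l).erase h1).card := by
          rw [card_erase_of_mem (mem_erase.2 ⟨n1, m1⟩), card_erase_of_mem c.lF, c.c4]
          norm_num
        obtain ⟨k, hk⟩ := card_pos.1 h1'
        rw [mem_erase, mem_erase] at hk
        exact ⟨k, hk.2.2, hk.2.1, hk.1⟩
      obtain ⟨lu, hvu⟩ : G.Low u ∧ v ∈ G.nb u := by
        rcases c.cov_h_tw m2 n2 hv (hvo h2 m2 n2) hvv (Or.inl dv) with k | k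
        · exact absurd k.2 hvl
        · obtain ⟨w, w1, w2, w3⟩ := k
          obtain ⟨w4, w5⟩ := memT.1 w1
          rcases lowV w5 w2 with h3 | h3
          · exact absurd (h3 ▸ w4) (hxo h2 m2 n2 o2')
          · rcases hsetV w w5 h3 with h4 | h4 | h4
            · exact absurd (h4 ▸ w2) (tw_nlow hvv)
            · exact absurd (h4 ▸ w2) (tw_nlow (tw_symm hvv))
            · exact ⟨h4 ▸ w2, h4 ▸ w3⟩
      have hvu' : v' ∈ G.nb u := tw_in hvv uv' hvu
      have gv := (gtw hv hvv hu (G.sym _ _ hvu) uv').2 dv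
      have gv' := (gtw hv' (tw_symm hvv) hu (G.sym _ _ hvu') uv).2 dv'
      have gu : 2 + 2 * ((G.pT F u).card : ℤ) ≤ G.gam5 F u := by
        refine (c.low_val hu lu).2.2.2.2.2.2.2 fun z hz hzt => ?_
        have hzN := (mem_pT30.1 hz).2
        rcases twV hzN hzt with h | h | h
        · rw [h, dp3]
          norm_num
        · rw [h, dp3']
          norm_num
        · obtain ⟨z', hzz⟩ := hzt
          rcases hsetV z hzN h with h3 | h3 | h3
          · rw [h3]
            omega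
          · rw [h3]
            omega
          · exact absurd (h3 ▸ lu) (tw_nlow hzz)
      have gu2 : (2 : ℤ) ≤ ((G.pT F u).card : ℤ) := by
        exact_mod_cast two_card (mem_pT30.2 ⟨hvu, hv⟩) (mem_pT30.2 ⟨hvu', hv'⟩) hnev
      have g3 := sum_list' (fun w => G.gam5 F w) (G.N F) [x, p, p', v, v', u]
        (by simp [xp, xp', hne, i1.symm, i2.symm, i3.symm, j1.symm, j2.symm, j3.symm, o1.symm,
          o2.symm, o3.symm, hnev, uv.symm, uv'.symm])
        (by simp [hxN, hp, hp', hv, hv', hu]) (fun z hz hz' => by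
          exfalso
          simp only [List.mem_cons, List.not_mem_nil, or_false, not_or] at hz'
          by_cases h1 : z ∈ G.nb l
          · rcases hsetX z hz h1 with h2 | h2 | h2
            · exact hz'.2.1 h2
            · exact hz'.2.2.1 h2
            · exact hz'.1 h2
          · rcases hsetV z hz h1 with h2 | h2 | h2
            · exact hz'.2.2.2.1 h2
            · exact hz'.2.2.2.2.1 h2
            · exact hz'.2.2.2.2.2 h2)
      simp only [List.map_cons, List.map_nil, List.sum_cons, List.sum_nil, add_zero] at g3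
      linarith
    · push Not at hVt
      have hrest : ∀ z ∈ G.N F, z ≠ p → z ≠ p' → 0 ≤ G.gam5 F z := by
        intro z hz h1 h2
        by_cases h3 : G.Low z
        · have := (c.low_val hz h3).2.2.1
          linarith
        · by_cases h4 : G.IsTw z
          · exfalso
            rcases twV hz h4 with h5 | h5 | h5
            · exact h1 h5
            · exact h2 h5
            · exact h5 (hVt z hz h4)
          · rw [c.hub_val hz h3 h4]
      have hvalV : ∀ w, w ∈ G.N F → G.Low w → 2 + 2 * ((G.pT F w).card : ℤ) ≤ G.gam5 F w := by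
        intro w h2 h3
        refine (c.low_val h2 h3).2.2.2.2.2.2.2 fun z hz hzt => ?_
        have hzN := (mem_pT30.1 hz).2
        rcases twV hzN hzt with h | h | h
        · rw [h, dp3]
          norm_num
        · rw [h, dp3']
          norm_num
        · exact absurd (hVt z hzN hzt) h
      -- the covers at `h1`
      have key : ∀ v ∈ G.N F, v ∉ G.nb l → (∃ w ∈ G.Tz F h1, G.Low w ∧ v ∈ G.nb w) ∨
          (∃ a ∈ G.Tz F h1, ∃ b ∈ G.Tz F h1, G.HL a b v) := by
        intro v h2 h3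
        rcases c.cov_h m1 n1 h2 (hVh h2 h3) with k | k | k | k | k | k
        · exact absurd k.2 h3
        · exact Or.inl k
        · exfalso
          obtain ⟨a, a1, b, b1, hab, a2, b2⟩ := k
          obtain ⟨a3, aN⟩ := memT.1 a1
          rcases twV aN ⟨b, hab⟩ with h4 | h4 | h4
          · exact hph (h4 ▸ a3)
          · exact hph' (h4 ▸ a3)
          · exact h4 (hVt a aN ⟨b, hab⟩)
        · exfalso
          obtain ⟨a, a1, hab, -⟩ := k
          exact noHL a1 hab
        · exact Or.inr k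
        · exfalso
          obtain ⟨a, -, b, b1, hab⟩ := k
          obtain ⟨b2, b3⟩ := mem_sdiff.1 b1
          have b4 : b ∉ G.nb h1 := fun h => b3 (memT.2 ⟨h, b2⟩)
          rcases lowV b2 hab.2.1 with h4 | h4
          · exact b4 (h4 ▸ hxh)
          · exact b4 (hVh b2 h4)
      have lowpos : ∀ v ∈ G.N F, v ∉ G.nb l → 1 ≤ (G.pT F v).card := by
        intro v h2 h3
        rcases key v h2 h3 with ⟨w, w1, -, w3⟩ | ⟨a, a1, b, -, hab⟩
        · exact card_pos.2 ⟨w, mem_pT30.2 ⟨G.sym _ _ w3, (memT.1 w1).2⟩⟩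
        · exact card_pos.2 ⟨a, mem_pT30.2 ⟨G.sym _ _ (HL_t76 hab), (memT.1 a1).2⟩⟩
      by_cases h2 : ∃ v ∈ G.N F, ∃ v' ∈ G.N F, v ≠ v' ∧ v ∉ G.nb l ∧ v' ∉ G.nb l ∧ G.Low v ∧
          G.Low v'
      · obtain ⟨v, hv, v', hv', hnev, hvl, hvl', lv, lv'⟩ := h2
        obtain ⟨i1, i2, i3⟩ := ninX hvl
        obtain ⟨j1, j2, j3⟩ := ninX hvl'
        have gv := (c.low_val hv lv).2.2.2.1 (lowpos v hv hvl)
        have gv' := (c.low_val hv' lv').2.2.2.1 (lowpos v' hv' hvl')
        have g3 := sum_list' (fun w => G.gam5 F w) (G.N F) [x, p, p', v, v']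
          (by simp [xp, xp', hne, i1.symm, i2.symm, i3.symm, j1.symm, j2.symm, j3.symm, hnev])
          (by simp [hxN, hp, hp', hv, hv']) (fun z hz hz' => by
            simp only [List.mem_cons, List.not_mem_nil, or_false, not_or] at hz'
            exact hrest z hz hz'.2.1 hz'.2.2.1)
        simp only [List.map_cons, List.map_nil, List.sum_cons, List.sum_nil, add_zero] at g3
        linarith
      · push Not at h2
        -- the vertices outside of `X`
        obtain ⟨a, b, e, hab, hae, hbe, hse⟩ := card_eq_three.1 hV3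
        have ma : a ∈ G.N F \ G.nb l := by
          rw [hse]
          simp
        have mb : b ∈ G.N F \ G.nb l := by
          rw [hse]
          simp
        have me : e ∈ G.N F \ G.nb l := by
          rw [hse]
          simp
        obtain ⟨aN, al⟩ := mem_sdiff.1 ma
        obtain ⟨bN, bl⟩ := mem_sdiff.1 mb
        obtain ⟨eN, el⟩ := mem_sdiff.1 me
        have one : ∀ {a b e : V}, a ∈ G.N F → a ∉ G.nb l → b ∈ G.N F → b ∉ G.nb l → e ∈ G.N F →
            e ∉ G.nb l → a ≠ b → a ≠ e → b ≠ e → G.Low a →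
            16 ≤ ∑ w ∈ G.N F, G.gam5 F w := by
          intro a b e aN al bN bl eN el hab hae hbe la
          have lb : ¬ G.Low b := fun h => h2 a aN b bN hab al bl la h
          have le : ¬ G.Low e := fun h => h2 a aN e eN hae al el la h
          have lowxa : ∀ w ∈ G.N F, G.Low w → w = x ∨ w = a := by
            intro w w1 w2
            rcases lowV w1 w2 with h3 | h3
            · exact Or.inl h3
            · right
              by_contra h4
              exact h2 w w1 a aN h4 h3 al w2 la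
          obtain ⟨i1, i2, i3⟩ := ninX al
          rcases key a aN al with ⟨w, w1, w2, w3⟩ | ⟨g, g1, g', g1', hgg⟩
          · have hw : w = x := by
              rcases lowxa w (memT.1 w1).2 w2 with h3 | h3
              · exact h3
              · exact absurd w3 (h3 ▸ G.irr _)
            rw [hw] at w3
            have hc3 := three_card (mem_pT30.2 ⟨hpx, hp⟩) (mem_pT30.2 ⟨hpx', hp'⟩)
              (mem_pT30.2 ⟨w3, aN⟩) hne i2.symm i3.symm
            have nx : ∀ {y : V}, y ∈ G.N F → y ∉ G.nb l → y ≠ a → y ∉ G.nb x := by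
              intro y y1 y2 y3 y4
              obtain ⟨-, j2, j3⟩ := ninX y2
              have := four_card (mem_pT30.2 ⟨hpx, hp⟩) (mem_pT30.2 ⟨hpx', hp'⟩)
                (mem_pT30.2 ⟨w3, aN⟩) (mem_pT30.2 ⟨y4, y1⟩) hne i2.symm i3.symm j2.symm j3.symm
                y3.symm
              omega
            have na : ∀ {y : V}, y ∈ G.N F → y ∉ G.nb l → y ≠ a → ¬ G.Low y → y ∈ G.nb a := by
              intro y y1 y2 y3 y4
              rcases key y y1 y2 with ⟨w, u1, u2, u3⟩ | ⟨g, -, g', -, hgg⟩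
              · rcases lowxa w (memT.1 u1).2 u2 with h3 | h3
                · exact absurd (h3 ▸ u3) (nx y1 y2 y3)
                · exact h3 ▸ u3
              · exact absurd (c.hL.sat _ _ _ hgg) y4
            have hb := na bN bl hab.symm lb
            have he := na eN el hae.symm le
            obtain ⟨j1, -, -⟩ := ninX bl
            obtain ⟨o1, -, -⟩ := ninX el
            have e3 : (3 : ℤ) ≤ ((G.pT F a).card : ℤ) := by
              exact_mod_cast three_card (mem_pT30.2 ⟨hb, bN⟩) (mem_pT30.2 ⟨he, eN⟩)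
                (mem_pT30.2 ⟨G.sym _ _ w3, hxN⟩) hbe j1 o1
            have e4 : (3 : ℤ) ≤ ((G.pT F x).card : ℤ) := by exact_mod_cast hc3
            have ga := hvalV a aN la
            have g3 := sum_list' (fun w => G.gam5 F w) (G.N F) [x, p, p', a]
              (by simp [xp, xp', hne, i1.symm, i2.symm, i3.symm])
              (by simp [hxN, hp, hp', aN]) (fun z hz hz' => by
                simp only [List.mem_cons, List.not_mem_nil, or_false, not_or] at hz'
                exact hrest z hz hz'.2.1 hz'.2.2.1)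
            simp only [List.map_cons, List.map_nil, List.sum_cons, List.sum_nil, add_zero] at g3
            linarith
          · exfalso
            have hg' : g' = x := by
              rcases lowxa g' (memT.1 g1').2 hgg.2.1 with h3 | h3
              · exact h3
              · exact absurd h3.symm (HL_bt76 hgg).2
            rw [hg'] at hgg
            have gp : p ≠ g := fun h => TH.notHL c.n9 _ _ _ hgg ⟨p', h ▸ hpp⟩
            have h3 := HL_sub76 hgg hpx gp
            rcases hpT g (mem_pT30.2 ⟨G.sym _ _ h3, (memT.1 g1).2⟩) with h4 | h4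
            · exact TH.notHL c.n9 _ _ _ hgg ⟨p, h4 ▸ tw_symm hpp⟩
            · exact HL_not_low76 hgg (h4 ▸ lx)
        by_cases la : G.Low a
        · exact one aN al bN bl eN el hab hae hbe la
        · by_cases lb : G.Low b
          · exact one bN bl aN al eN el hab.symm hbe hae lb
          · by_cases le : G.Low e
            · exact one eN el aN al bN bl hae.symm hbe.symm hab le
            · exfalso
              have nolow : ∀ w ∈ G.N F, G.Low w → w = x := by
                intro w w1 w2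
                rcases lowV w1 w2 with h3 | h3
                · exact h3
                · have h4 : w ∈ G.N F \ G.nb l := mem_sdiff.2 ⟨w1, h3⟩
                  rw [hse] at h4
                  simp only [mem_insert, mem_singleton] at h4
                  rcases h4 with h4 | h4 | h4
                  · exact absurd (h4 ▸ w2) la
                  · exact absurd (h4 ▸ w2) lb
                  · exact absurd (h4 ▸ w2) le
              have nx : ∀ {y : V}, y ∈ G.N F → y ∉ G.nb l → ¬ G.Low y → y ∈ G.nb x := by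
                intro y y1 y2 y4
                rcases key y y1 y2 with ⟨w, u1, u2, u3⟩ | ⟨g, -, g', -, hgg⟩
                · exact nolow w (memT.1 u1).2 u2 ▸ u3
                · exact absurd (c.hL.sat _ _ _ hgg) y4
              obtain ⟨-, j2, j3⟩ := ninX al
              obtain ⟨-, k2, k3⟩ := ninX bl
              have := four_card (mem_pT30.2 ⟨hpx, hp⟩) (mem_pT30.2 ⟨hpx', hp'⟩)
                (mem_pT30.2 ⟨nx aN al la, aN⟩) (mem_pT30.2 ⟨nx bN bl lb, bN⟩) hne j2.symm j3.symm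
                k2.symm k3.symm hab
              omega

/-- `l` has three neighbours in `F` -/
theorem Cx.d3 (hd : G.d l F = 3) : 16 ≤ ∑ w ∈ G.N F, G.gam5 F w := by
  by_cases h1 : ∃ p ∈ G.N F, G.IsTw p ∧ p ∈ G.nb l
  · obtain ⟨p, hp, ⟨p', hpp⟩, hpl⟩ := h1
    exact c.d3i hd hp hpp hpl
  · push Not at h1
    have hXt : ∀ x ∈ G.Tz F l, ¬ G.IsTw x := fun x hx h =>
      h1 x (memT.1 hx).2 h (memT.1 hx).1
    by_cases h2 : ∃ p ∈ G.N F, G.IsTw p
    · obtain ⟨p, hp, p', hpp⟩ := h2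
      exact c.d3ii hd hp hpp (h1 p hp ⟨p', hpp⟩) hXt
    · push Not at h2
      exact c.d3iii hd h2

end

end H3h12

/-- H3 -/
theorem st6LHHH_12 (G : CG V) (hBas : G.StLBas) (hB : G.StLB) (hCnt : G.StLCnt) :
    G.St6LHHH := by
  intro F hF l hl ll hh
  have c : H3h12.Cx G F l := ⟨hBas, hB, hCnt, hF.1, hF.2, hl, ll, hh⟩
  have h1 := c.dF hl
  have h2 := hBas.inn F hF.1 l hl
  rcases (by omega : G.d l F = 1 ∨ G.d l F = 2 ∨ G.d l F = 3) with h | h | h
  · exact c.d1 h
  · exact c.d2 h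
  · exact c.d3 h

end CG

end Pool.Agent.Lib.MP_e95c01_co.N
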