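import Pool.Agent.Lib.MP_e95c01_co.X.H4g_50

/-!
# Leaves with four vertices, a low vertex, a hub and a pair of twins: `l` and `h` not adjacent
-/

namespace Pool.Agent.Lib.MP_e95c01_co.N

open Finset

variable {V : Type} [Fintype V] [DecidableEq V]

namespace CG

variable {G : CG V} {F : Finset V} {l h v w a a' p p' z z' : V}

open Lx (mem_pT)

/-- `l` and `h` are not adjacent -/
structure Ez (G : CG V) (F : Finset V) (l h v w a a' p p' z z' : V) : Prop where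
  m : Mx G F l h v w a a'
  hl : h ∉ G.nb l
  pN : p ∈ G.N F
  pN' : p' ∈ G.N F
  pl : l ∉ G.nb p
  pl' : l ∉ G.nb p'
  pne : p ≠ p'
  allW : ∀ x ∈ G.N F, l ∉ G.nb x → x = p ∨ x = p'
  zN : z ∈ G.N F
  zN' : z' ∈ G.N F
  zl : l ∈ G.nb z
  zl' : l ∈ G.nb z'
  zv : v ∈ G.nb z
  zv' : v ∈ G.nb z'
  zne : z ≠ z'
  allZ : ∀ x ∈ G.N F, l ∈ G.nb x → v ∈ G.nb x → x = z ∨ x = z'

namespace Ez

theorem sW (e : Ez G F l h v w a a' p p' z z') : Ez G F l h v w a a' p' p z z' :=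
  ⟨e.m, e.hl, e.pN', e.pN, e.pl', e.pl, e.pne.symm, fun x hx h1 => (e.allW x hx h1).symm,
    e.zN, e.zN', e.zl, e.zl', e.zv, e.zv', e.zne, e.allZ⟩

theorem sZ (e : Ez G F l h v w a a' p p' z z') : Ez G F l h v w a a' p p' z' z :=
  ⟨e.m, e.hl, e.pN, e.pN', e.pl, e.pl', e.pne, e.allW,
    e.zN', e.zN, e.zl', e.zl, e.zv', e.zv, e.zne.symm, fun x hx h1 h2 => (e.allZ x hx h1 h2).symm⟩

theorem pv (e : Ez G F l h v w a a' p p' z z') : v ∈ G.nb p := e.m.c.vol e.pN e.pl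

theorem one (e : Ez G F l h v w a a' p p' z z') : (G.ms50 F h).card ≤ 1 := by
  classical
  have := e.m.ch
  rw [if_neg e.hl] at this
  exact this

/-- at most one vertex is not adjacent to `h` -/
theorem oneh (e : Ez G F l h v w a a' p p' z z') {x y : V} (hx : x ∈ G.N F) (hy : y ∈ G.N F)
    (hxy : x ≠ y) (hxh : h ∉ G.nb x) : h ∈ G.nb y := e.m.one_h e.one hx hy hxy hxh

theorem noHL (e : Ez G F l h v w a a' p p' z z') {y : V} : ¬ G.HL h l y := fun h1 =>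
  e.hl (G.sym _ _ (HL_b76 h1))

theorem nWZ (_ : Ez G F l h v w a a' p p' z z') {x y : V} (hx : l ∉ G.nb x) (hy : l ∈ G.nb y) :
    x ≠ y := by
  rintro rfl
  exact hx hy

/-- twins are adjacent to `h`, `A` excluded -/
theorem twh (e : Ez G F l h v w a a' p p' z z') {x y : V} (hx : x ∈ G.N F) (hxy : G.Tw x y) :
    h ∈ G.nb x := by
  by_contra h1
  have hy := e.m.c.par hx hxy
  exact h1 ((e.m.c.parF hx hxy e.m.c.hhF).1 (e.oneh hx hy hxy.ne33 h1))

theorem nn (e : Ez G F l h v w a a' p p' z z') {x : V} (hx : x ∈ G.N F)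
    (hA : G.IsTw x → v ∈ G.nb x) : 0 ≤ G.gam5 F x := by
  refine e.m.c.g0 hx ?_
  rintro ⟨y, hxy⟩ h1
  have hxh := e.twh hx hxy
  have hxv := hA ⟨y, hxy⟩
  by_cases h2 : l ∈ G.nb x
  · have := e.m.c.d_LH hx h2 hxh hxv
    omega
  · have := e.m.c.d_lV hx h2 hxh
    omega

theorem nnA (e : Ez G F l h v w a a' p p' z z') (hA : ¬ G.Tw a a') :
    ∀ x ∈ G.N F, 0 ≤ G.gam5 F x := by
  intro x hx
  refine e.nn hx ?_
  rintro ⟨y, hxy⟩
  by_contra h1
  rcases e.m.allA x hx h1 with h2 | h2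
  · rw [h2] at hxy
    exact hA (e.m.twa hxy ▸ hxy)
  · rw [h2] at hxy
    exact hA ((e.m.symm.twa hxy ▸ hxy : G.Tw a' a).sym33)

/-- `a`, `a'` are twins -/
theorem c3 (e : Ez G F l h v w a a' p p' z z') (ht : G.Tw a a') :
    16 ≤ ∑ x ∈ G.N F, G.gam5 F x := by
  have m := e.m
  obtain ⟨u, hu, hul, hlu, hvu, hhu, hpT, hg⟩ := m.AP ht
  have mau : a ∈ G.nb u := by
    have h1 : a ∈ G.pT F u := by rw [hpT]; simp
    exact (mem_pT.1 h1).1
  obtain ⟨x, hx, hxl, hx12⟩ : ∃ x ∈ G.N F, l ∉ G.nb x ∧ 12 ≤ G.gam5 F x := by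
    rcases m.c.hF.cov h m.c.hhF a (mem_union_right _ m.aN) (G.sym _ _ m.ah) with
      h1 | h1 | h1 | h1 | h1
    · obtain ⟨x, hx, hxL, hhx, hax⟩ := h1
      have hhx' : h ∈ G.nb x := hhx
      rcases mem_union.1 hx with h5 | h5
      · exfalso
        rcases m.c.all h5 with h6 | h6 | h6 | h6
        · rw [h6] at hhx'
          exact e.hl hhx'
        · rw [h6] at hhx'
          exact G.irr _ hhx'
        · exact absurd m.c.vt (not_tw33 (h6 ▸ hxL))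
        · exact absurd m.c.symm.vt (not_tw33 (h6 ▸ hxL))
      · have m1 : a ∈ G.pT F x := mem_pT.2 ⟨hax, m.aN⟩
        have m2 := m.c.pair_pT m.aN ht hxL m1
        by_cases hxl : l ∈ G.nb x
        · exfalso
          by_cases hxv : v ∈ G.nb x
          · have h6 := (m.c.gL4 h5 hxL (m.c.d_LH h5 hxl hhx' hxv)).1
            have h7 := two_le5 m1 m2 m.ne
            omega
          · rcases m.allA x h5 hxv with h6 | h6
            · exact not_low33 ⟨_, ht⟩ (h6 ▸ hxL)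
            · exact not_low33 ⟨_, ht.sym33⟩ (h6 ▸ hxL)
        · exact ⟨x, h5, hxl,
            ((m.c.gL3 h5 hxL (m.c.d_lV h5 hxl hhx')).2.2.2.2.2 a a' ht m1 m2).2⟩
    · exfalso
      obtain ⟨q, hq, q', hq', hqq, h2, h3, h4, h5⟩ := h1
      have hqN : ∀ q q', q ∈ F ∪ G.N F → G.Tw q q' → a ∈ G.nb q → q ∈ G.N F := by
        intro q q' hq hqq h4
        rcases mem_union.1 hq with h6 | h6
        · exfalso
          rcases m.c.all h6 with h7 | h7 | h7 | h7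
          · exact not_low33 ⟨_, hqq⟩ (h7 ▸ m.c.lo)
          · exact m.c.hub.2 (h7 ▸ ⟨_, hqq⟩)
          · exact m.av (G.sym _ _ (h7 ▸ h4))
          · exact m.av ((m.c.vwi m.aN).1 (G.sym _ _ (h7 ▸ h4)))
        · exact h6
      have n1 := hqN q q' hq hqq h4
      have n2 := hqN q' q hq' hqq.sym33 h5
      have e1 : q ≠ a' := by
        rintro rfl
        rw [m.c.uniq hqq ht.sym33] at h5
        exact G.irr _ h5
      have e2 : q' ≠ a' := by
        rintro rfl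
        rw [m.c.uniq hqq.sym33 ht.sym33] at h4
        exact G.irr _ h4
      have e3 : q ≠ u := fun h6 => not_low33 ⟨_, hqq⟩ (h6 ▸ hul)
      have e4 : q' ≠ u := fun h6 => not_low33 ⟨_, hqq.sym33⟩ (h6 ▸ hul)
      have e5 : a' ≠ u := fun h6 => not_low33 ⟨_, ht.sym33⟩ (h6 ▸ hul)
      have h6 := four_le5 (mem_pT.2 ⟨G.sym _ _ h4, n1⟩ : q ∈ G.pT F a)
        (mem_pT.2 ⟨G.sym _ _ h5, n2⟩) (mem_pT.2 ⟨ht.1, m.aN'⟩) (mem_pT.2 ⟨G.sym _ _ mau, hu⟩)
        hqq.ne33 e1 e3 e2 e4 e5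
      have h7 := (m.c.gT m.aN ⟨_, ht⟩).2.1
      have h8 := m.da
      omega
    · obtain ⟨x, y, h2, -⟩ := h1
      exact absurd (m.c.hF.sat _ _ _ h2) (not_low33 ⟨_, ht⟩)
    · obtain ⟨x, y, h2, -⟩ := h1
      exact absurd (m.c.hF.sat _ _ _ h2) m.c.hub.1
    · obtain ⟨x, y, h2, -⟩ := h1
      exact absurd ⟨_, ht⟩ (twLL_5 (LL_symm5 h2))
  have g1 := (m.c.gT m.aN ⟨_, ht⟩).2.2.1
  have g2 := (m.c.gT m.aN' ⟨_, ht.sym33⟩).2.2.1
  have h7 := out2_50 (f := G.gam5 F) m.aN m.aN' m.ne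
  obtain ⟨hxa, hxa'⟩ := m.nWA hxl
  obtain ⟨hua, hua'⟩ := m.nVA hvu
  have h8 := ge2_50 (T := ((G.N F).erase a).erase a') (f := G.gam5 F) (by
      intro y hy
      obtain ⟨h9, h10⟩ := mem_erase.1 hy
      obtain ⟨h11, h12⟩ := mem_erase.1 h10
      refine e.nn h12 (fun _ => ?_)
      by_contra h13
      rcases m.allA y h12 h13 with h14 | h14
      · exact h11 h14
      · exact h9 h14)
    (mem_erase.2 ⟨hxa', mem_erase.2 ⟨hxa, hx⟩⟩)
    (mem_erase.2 ⟨hua', mem_erase.2 ⟨hua, hu⟩⟩) (e.nWZ hxl hlu)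
  linarith

/-- `p`, `p'` are twins, `z` is low and adjacent to them -/
theorem c1a (e : Ez G F l h v w a a' p p' z z') (hA : ¬ G.Tw a a') (ht : G.Tw p p')
    (hz : G.Low z) (m1 : p ∈ G.pT F z) (m2 : p' ∈ G.pT F z) :
    16 ≤ ∑ x ∈ G.N F, G.gam5 F x := by
  have m := e.m
  have hzh : h ∉ G.nb z := by
    intro h1
    have h2 := (m.c.gL4 e.zN hz (m.c.d_LH e.zN e.zl h1 e.zv)).1
    have h3 := two_le5 m1 m2 e.pne
    omega
  obtain ⟨h1, h2⟩ := (m.c.gL3 e.zN hz (m.c.d_Lh e.zN e.zl hzh)).2.2.2.2.2 p p' ht m1 m2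
  have hzh' := e.oneh e.zN e.zN' e.zne hzh
  by_cases hz' : G.Low z'
  · have h3 := (m.c.gL4 e.zN' hz' (m.c.d_LH e.zN' e.zl' hzh' e.zv')).2.1
    have h4 := ge2_50 (e.nnA hA) e.zN e.zN' e.zne
    linarith
  · have hZ : ∀ u ∈ G.N F, G.Low u → l ∈ G.nb u → v ∈ G.nb u → u = z := by
      intro u hu huL hlu hvu
      rcases e.allZ u hu hlu hvu with h3 | h3
      · exact h3
      · exact absurd (h3 ▸ huL) hz'
    have h3 := (m.A8 (fun u hu huL hlu hvu y hy => by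
      rw [hZ u hu huL hlu hvu, h1, mem_insert, mem_singleton] at hy
      rcases hy with h4 | h4
      · exact h4 ▸ e.pl
      · exact h4 ▸ e.pl') (Or.inr fun u hu hul huL => by
      rcases e.allW u hu hul with h4 | h4
      · exact not_low33 ⟨_, ht⟩ (h4 ▸ huL)
      · exact not_low33 ⟨_, ht.sym33⟩ (h4 ▸ huL))).2
    obtain ⟨hza, hza'⟩ := m.nVA e.zv
    have h4 := ge3_50 (e.nnA hA) m.aN m.aN' e.zN m.ne hza.symm hza'.symm
    linarith

/-- `p`, `p'` are twins -/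
theorem c1 (e : Ez G F l h v w a a' p p' z z') (hA : ¬ G.Tw a a') (ht : G.Tw p p') :
    16 ≤ ∑ x ∈ G.N F, G.gam5 F x := by
  have m := e.m
  obtain ⟨d, hd, hdL, hdv, m1, m2, -⟩ := Ey.tws m e.pN e.pl (e.twh e.pN ht) ht
  have hdl : l ∈ G.nb d := by
    by_contra h1
    rcases e.allW d hd h1 with h2 | h2
    · exact not_low33 ⟨_, ht⟩ (h2 ▸ hdL)
    · exact not_low33 ⟨_, ht.sym33⟩ (h2 ▸ hdL)
  rcases e.allZ d hd hdl hdv with h1 | h1
  · rw [h1] at hdL m1 m2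
    exact e.c1a hA ht hdL m1 m2
  · rw [h1] at hdL m1 m2
    exact e.sZ.c1a hA ht hdL m1 m2

/-- `z`, `z'` are twins -/
theorem c2 (e : Ez G F l h v w a a' p p' z z') (hA : ¬ G.Tw a a') (hW : ¬ G.Tw p p')
    (ht : G.Tw z z') : 16 ≤ ∑ x ∈ G.N F, G.gam5 F x := by
  have m := e.m
  have hZt : ∀ u ∈ G.N F, l ∈ G.nb u → v ∈ G.nb u → G.IsTw u := by
    intro u hu h1 h2
    rcases e.allZ u hu h1 h2 with h3 | h3
    · exact h3 ▸ ⟨_, ht⟩
    · exact h3 ▸ ⟨_, ht.sym33⟩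
  have hZp : ∀ u ∈ G.N F, l ∈ G.nb u → v ∈ G.nb u → ∀ y ∈ G.pT F u, l ∈ G.nb y := by
    intro u hu h1 h2 y hy
    rcases e.allZ u hu h1 h2 with h3 | h3
    · rw [h3] at hy
      rw [(m.Ztw e.zN e.zl e.zv ht).2.2 y hy]
      exact e.zl'
    · rw [h3] at hy
      rw [(m.Ztw e.zN' e.zl' e.zv' ht.sym33).2.2 y hy]
      exact e.zl
  have step : ∀ p p', Ez G F l h v w a a' p p' z z' → ¬ G.Tw p p' → G.Low p' ∧ p' ∈ G.nb p := by
    intro p p' e hW
    have hWt : ∀ x ∈ G.N F, l ∉ G.nb x → ¬ G.IsTw x := by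
      rintro x hx hxl ⟨y, hxy⟩
      have hy := m.c.par hx hxy
      have hyl : l ∉ G.nb y := fun h1 => hxl ((m.c.parF hx hxy m.c.lF).1 h1)
      rcases e.allW x hx hxl with h1 | h1 <;> rcases e.allW y hy hyl with h2 | h2
      · exact hxy.ne33 (h1.trans h2.symm)
      · rw [h1, h2] at hxy
        exact hW hxy
      · rw [h1, h2] at hxy
        exact hW hxy.sym33
      · exact hxy.ne33 (h1.trans h2.symm)
    rcases m.covW e.pN e.pl with h1 | h1 | h1 | h1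
    · obtain ⟨u, hu, huL, hvu, hup⟩ := h1
      have hul : l ∉ G.nb u := fun h2 => not_low33 (hZt u hu h2 hvu) huL
      rcases e.allW u hu hul with h2 | h2
      · rw [h2] at hup
        exact absurd hup (G.irr _)
      · rw [h2] at hup huL
        exact ⟨huL, hup⟩
    · exfalso
      obtain ⟨q, hq, q', hq', hqq, h2, h3, h4, h5⟩ := h1
      by_cases h6 : l ∈ G.nb q
      · exact e.pl (hZp q hq h6 h2 p (mem_pT.2 ⟨G.sym _ _ h4, e.pN⟩))
      · exact hWt q hq h6 ⟨_, hqq⟩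
    · exfalso
      obtain ⟨q, hq, b, hb, h2, h3, h4⟩ := h1
      have hbl : l ∉ G.nb b := fun h5 => not_low33 (hZt b hb h5 h4) h2.2.1
      have hql : l ∉ G.nb q := fun h5 => (stTwHL_5 G).notHL m.c.n9 _ _ _ h2 (hZt q hq h5 h3)
      have h6 : b = p' := by
        rcases e.allW b hb hbl with h5 | h5
        · exact absurd h5.symm (HL_bt76 h2).2
        · exact h5
      rcases e.allW q hq hql with h5 | h5
      · exact ne_of_nb5 (HL_t76 h2) h5
      · exact ne_of_nb5 (HL_b76 h2) (h5.trans h6.symm)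
    · exact absurd h1 e.noHL
  obtain ⟨l2, h2⟩ := step p p' e hW
  obtain ⟨l1, -⟩ := step p' p e.sW (fun h1 => hW h1.sym33)
  have h3 : 10 ≤ G.gam5 F p + G.gam5 F p' := by
    by_cases h4 : h ∈ G.nb p
    · have h5 := m.six e.pN e.pl h4 l1
      by_cases h6 : h ∈ G.nb p'
      · linarith [m.six e.pN' e.pl' h6 l2]
      · have := (m.c.gL2 e.pN' l2 (m.c.d_lv e.pN' e.pl' h6)).2.2.1
          (card_pos.2 ⟨p, mem_pT.2 ⟨G.sym _ _ h2, e.pN⟩⟩)
        linarith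
    · have h5 := m.six e.pN' e.pl' (e.oneh e.pN e.pN' e.pne h4) l2
      have := (m.c.gL2 e.pN l1 (m.c.d_lv e.pN e.pl h4)).2.2.1
        (card_pos.2 ⟨p', mem_pT.2 ⟨h2, e.pN'⟩⟩)
      linarith
  have h4 := (m.A8 (fun u hu huL hlu hvu => absurd huL (not_low33 (hZt u hu hlu hvu)))
    (Or.inl fun u hu hlu hvu => not_low33 (hZt u hu hlu hvu))).2
  obtain ⟨n1, n2⟩ := m.nWA e.pl
  obtain ⟨n3, n4⟩ := m.nWA e.pl'
  have h5 := ge4_50 (e.nnA hA) m.aN m.aN' e.pN e.pN' m.ne n1.symm n3.symm n2.symm n4.symm e.pne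
  linarith

/-- no twins, `z` and `z'` low -/
theorem c4a (e : Ez G F l h v w a a' p p' z z') (nt : ∀ x ∈ G.N F, ¬ G.IsTw x)
    (h1 : G.Low z) (h2 : G.Low z') : 16 ≤ ∑ x ∈ G.N F, G.gam5 F x := by
  have m := e.m
  have h3 := ge2_50 (m.v0 nt) e.zN e.zN' e.zne
  by_cases h4 : h ∈ G.nb z
  · have h5 := (m.c.gL4 e.zN h1 (m.c.d_LH e.zN e.zl h4 e.zv)).2.1
    by_cases h6 : h ∈ G.nb z'
    · linarith [(m.c.gL4 e.zN' h2 (m.c.d_LH e.zN' e.zl' h6 e.zv')).2.1]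
    · linarith [(m.c.gL3 e.zN' h2 (m.c.d_Lh e.zN' e.zl' h6)).2.1]
  · have h5 := (m.c.gL3 e.zN h1 (m.c.d_Lh e.zN e.zl h4)).2.1
    have h6 := e.oneh e.zN e.zN' e.zne h4
    linarith [(m.c.gL4 e.zN' h2 (m.c.d_LH e.zN' e.zl' h6 e.zv')).2.1]

/-- lows adjacent to `v` -/
theorem lowV (e : Ez G F l h v w a a' p p' z z') (hz' : ¬ G.Low z') {u : V} (hu : u ∈ G.N F)
    (huL : G.Low u) (hvu : v ∈ G.nb u) : (u = p ∧ G.Low p) ∨ (u = p' ∧ G.Low p') ∨ u = z := by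
  by_cases h1 : l ∈ G.nb u
  · rcases e.allZ u hu h1 hvu with h2 | h2
    · exact Or.inr (Or.inr h2)
    · exact absurd (h2 ▸ huL) hz'
  · rcases e.allW u hu h1 with h2 | h2
    · exact Or.inl ⟨h2, h2 ▸ huL⟩
    · exact Or.inr (Or.inl ⟨h2, h2 ▸ huL⟩)

/-- covers of `p`, `p'` not low -/
theorem cvp (e : Ez G F l h v w a a' p p' z z') (nt : ∀ x ∈ G.N F, ¬ G.IsTw x)
    (hz' : ¬ G.Low z') (lp' : ¬ G.Low p') :
    (z ∈ G.pT F p ∧ p ∈ G.pT F z) ∨ (z' ∈ G.pT F p ∧ z' ∈ G.pT F z) := by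
  have m := e.m
  rcases m.covW e.pN e.pl with h1 | h1 | h1 | h1
  · obtain ⟨u, hu, huL, hvu, hup⟩ := h1
    rcases e.lowV hz' hu huL hvu with h2 | h2 | h2
    · rw [h2.1] at hup
      exact absurd hup (G.irr _)
    · exact absurd h2.2 lp'
    · rw [h2] at hup
      exact Or.inl ⟨mem_pT.2 ⟨hup, e.zN⟩, mem_pT.2 ⟨G.sym _ _ hup, e.pN⟩⟩
  · obtain ⟨q, hq, q', hq', hqq, -⟩ := h1
    exact absurd ⟨_, hqq⟩ (nt q hq)
  · obtain ⟨q, hq, b, hb, h2, h3, h4⟩ := h1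
    right
    have hbz : b = z := by
      rcases e.lowV hz' hb h2.2.1 h4 with h5 | h5 | h5
      · exact absurd h5.1.symm (HL_bt76 h2).2
      · exact absurd h5.2 lp'
      · exact h5
    rw [hbz] at h2
    have hql : l ∈ G.nb q := HL_sub76 h2 e.zl (m.c.nel hq).symm
    have hqz : q = z' := by
      rcases e.allZ q hq hql h3 with h5 | h5
      · exact absurd h5 (ne_of_nb5 (HL_b76 h2))
      · exact h5
    rw [hqz] at h2
    exact ⟨mem_pT.2 ⟨G.sym _ _ (HL_t76 h2), e.zN'⟩, mem_pT.2 ⟨G.sym _ _ (HL_b76 h2), e.zN'⟩⟩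
  · exact absurd h1 e.noHL

/-- covers of `p'`, not low -/
theorem cvn (e : Ez G F l h v w a a' p p' z z') (nt : ∀ x ∈ G.N F, ¬ G.IsTw x)
    (hz' : ¬ G.Low z') (lp' : ¬ G.Low p') :
    (p' ∈ G.pT F p ∧ G.Low p) ∨ p' ∈ G.pT F z := by
  have m := e.m
  obtain ⟨u, hu, huL, hvu, hup⟩ := m.covN nt e.pN' e.pl' lp'
  rcases e.lowV hz' hu huL hvu with h2 | h2 | h2
  · rw [h2.1] at hup
    exact Or.inl ⟨mem_pT.2 ⟨G.sym _ _ hup, e.pN'⟩, h2.2⟩
  · exact absurd h2.2 lp'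
  · rw [h2] at hup
    exact Or.inr (mem_pT.2 ⟨G.sym _ _ hup, e.pN'⟩)

/-- no twins, `z` low and adjacent to `h`, `z'` not low, `p` low, `p'` not low -/
theorem c4b1 (e : Ez G F l h v w a a' p p' z z') (nt : ∀ x ∈ G.N F, ¬ G.IsTw x)
    (h1 : G.Low z) (h2 : ¬ G.Low z') (hzh : h ∈ G.nb z) (lp : G.Low p) (lp' : ¬ G.Low p')  :
    16 ≤ ∑ x ∈ G.N F, G.gam5 F x := by
  have m := e.m
  have hg := m.c.gL4 e.zN h1 (m.c.d_LH e.zN e.zl hzh e.zv)
  have h3 := ge2_50 (m.v0 nt) e.pN e.zN (e.nWZ e.pl e.zl)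
  have hp6 : 6 ≤ G.gam5 F p := by
    by_cases h4 : h ∈ G.nb p
    · exact m.six e.pN e.pl h4 lp
    · have h5 := m.v2 nt e.pN lp (m.c.d_lv e.pN e.pl h4)
      have h6 : 2 ≤ (G.pT F p).card := by
        have hnz : ∀ s ∈ G.pT F z, s ≠ p' → p' ∈ G.pT F p := by
          intro s hs hsp
          rcases e.cvn nt h2 lp' with h7 | h7
          · exact h7.1
          · exfalso
            have := two_le5 hs h7 hsp
            omega
        rcases e.cvp nt h2 lp' with h7 | h7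
        · exact two_le5 h7.1 (hnz p h7.2 e.pne) (e.nWZ e.pl' e.zl).symm
        · exact two_le5 h7.1 (hnz z' h7.2 (e.nWZ e.pl' e.zl').symm) (e.nWZ e.pl' e.zl').symm
      have h7 : (2 : ℤ) ≤ ((G.pT F p).card : ℤ) := by exact_mod_cast h6
      linarith
  linarith [hg.2.1]

/-- no twins, `z` low and not adjacent to `h`, `z'` not low, `p` low, `p'` not low -/
theorem c4b2 (e : Ez G F l h v w a a' p p' z z') (nt : ∀ x ∈ G.N F, ¬ G.IsTw x)
    (h1 : G.Low z) (h2 : ¬ G.Low z') (hzh : h ∉ G.nb z) (lp : G.Low p) (lp' : ¬ G.Low p')  :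
    16 ≤ ∑ x ∈ G.N F, G.gam5 F x := by
  have m := e.m
  have hg := m.c.gL3 e.zN h1 (m.c.d_Lh e.zN e.zl hzh)
  have hph := e.oneh e.zN e.pN (e.nWZ e.pl e.zl).symm hzh
  have hp := m.c.gL3 e.pN lp (m.c.d_lV e.pN e.pl hph)
  have h3 := ge2_50 (m.v0 nt) e.pN e.zN (e.nWZ e.pl e.zl)
  obtain ⟨s, t, hs, ht, n1, n2⟩ : ∃ s t, s ∈ G.pT F p ∧ t ∈ G.pT F z ∧ s ≠ p' ∧ t ≠ p' := by
    rcases e.cvp nt h2 lp' with h7 | h7
    · exact ⟨z, p, h7.1, h7.2, (e.nWZ e.pl' e.zl).symm, e.pne⟩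
    · exact ⟨z', z', h7.1, h7.2, (e.nWZ e.pl' e.zl').symm, (e.nWZ e.pl' e.zl').symm⟩
  rcases e.cvn nt h2 lp' with h4 | h4
  · have h5 := two_le5 hs h4.1 n1
    have h6 := hp.1
    linarith [hp.2.2.2.1 (by omega), hg.2.1]
  · have h5 := two_le5 ht h4 n2
    have h6 := hg.1
    linarith [hg.2.2.2.1 (by omega), hp.2.1]

/-- no twins, `z` low, `z'` not low -/
theorem c4b (e : Ez G F l h v w a a' p p' z z') (nt : ∀ x ∈ G.N F, ¬ G.IsTw x)
    (h1 : G.Low z) (h2 : ¬ G.Low z') : 16 ≤ ∑ x ∈ G.N F, G.gam5 F x := by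
  have m := e.m
  by_cases hzh : h ∈ G.nb z
  · by_cases lp : G.Low p
    · by_cases lp' : G.Low p'
      · have hg := (m.c.gL4 e.zN h1 (m.c.d_LH e.zN e.zl hzh e.zv)).2.1
        by_cases hph : h ∈ G.nb p
        · have h3 := ge2_50 (m.v0 nt) e.pN e.zN (e.nWZ e.pl e.zl)
          linarith [m.six e.pN e.pl hph lp]
        · have h3 := ge2_50 (m.v0 nt) e.pN' e.zN (e.nWZ e.pl' e.zl)
          linarith [m.six e.pN' e.pl' (e.oneh e.pN e.pN' e.pne hph) lp']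
      · exact e.c4b1 nt h1 h2 hzh lp lp'
    · by_cases lp' : G.Low p'
      · exact e.sW.c4b1 nt h1 h2 hzh lp' lp
      · exfalso
        have hg := (m.c.gL4 e.zN h1 (m.c.d_LH e.zN e.zl hzh e.zv)).1
        have k1 : p' ∈ G.pT F z := by
          rcases e.cvn nt h2 lp' with h3 | h3
          · exact absurd h3.2 lp
          · exact h3
        have k2 : p ∈ G.pT F z := by
          rcases e.sW.cvn nt h2 lp with h3 | h3
          · exact absurd h3.2 lp'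
          · exact h3
        have := two_le5 k1 k2 e.pne.symm
        omega
  · have hg := m.c.gL3 e.zN h1 (m.c.d_Lh e.zN e.zl hzh)
    have hph := e.oneh e.zN e.pN (e.nWZ e.pl e.zl).symm hzh
    have hph' := e.oneh e.zN e.pN' (e.nWZ e.pl' e.zl).symm hzh
    by_cases lp : G.Low p
    · by_cases lp' : G.Low p'
      · have h3 := ge3_50 (m.v0 nt) e.pN e.pN' e.zN e.pne (e.nWZ e.pl e.zl) (e.nWZ e.pl' e.zl)
        linarith [m.six e.pN e.pl hph lp, m.six e.pN' e.pl' hph' lp', hg.2.1]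
      · exact e.c4b2 nt h1 h2 hzh lp lp'
    · by_cases lp' : G.Low p'
      · exact e.sW.c4b2 nt h1 h2 hzh lp' lp
      · have k1 : p' ∈ G.pT F z := by
          rcases e.cvn nt h2 lp' with h3 | h3
          · exact absurd h3.2 lp
          · exact h3
        have k2 : p ∈ G.pT F z := by
          rcases e.sW.cvn nt h2 lp with h3 | h3
          · exact absurd h3.2 lp'
          · exact h3
        have h3 := two_le5 k1 k2 e.pne.symm
        have h4 := hg.1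
        have h5 := hg.2.2.2.1 (by omega)
        have hpT : ∀ y ∈ G.pT F z, l ∉ G.nb y := by
          intro y hy hyl
          have := three_le33 k1 k2 hy e.pne.symm (e.nWZ e.pl' hyl) (e.nWZ e.pl hyl)
          omega
        have h6 := (m.A8 (fun u hu huL hlu hvu y hy => by
          rcases e.allZ u hu hlu hvu with h7 | h7
          · rw [h7] at hy
            exact hpT y hy
          · exact absurd (h7 ▸ huL) h2) (Or.inr fun u hu hul huL => by
          rcases e.allW u hu hul with h7 | h7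
          · exact lp (h7 ▸ huL)
          · exact lp' (h7 ▸ huL))).2
        obtain ⟨n1, n2⟩ := m.nVA e.zv
        have h7 := ge3_50 (m.v0 nt) m.aN m.aN' e.zN m.ne n1.symm n2.symm
        linarith

/-- no twins, `z`, `z'` not low -/
theorem c4c (e : Ez G F l h v w a a' p p' z z') (nt : ∀ x ∈ G.N F, ¬ G.IsTw x)
    (h1 : ¬ G.Low z) (h2 : ¬ G.Low z') : 16 ≤ ∑ x ∈ G.N F, G.gam5 F x := by
  have m := e.m
  have hZ : ∀ u ∈ G.N F, l ∈ G.nb u → v ∈ G.nb u → ¬ G.Low u := by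
    intro u hu h3 h4 h5
    rcases e.allZ u hu h3 h4 with h6 | h6
    · exact h1 (h6 ▸ h5)
    · exact h2 (h6 ▸ h5)
  have hA := (m.A8 (fun u hu hul hlu hvu => absurd hul (hZ u hu hlu hvu)) (Or.inl hZ)).2
  rcases m.c.clv m.hlv with h3 | h3 | h3
  · obtain ⟨u, hu, huL, hlu, hvu⟩ := h3
    exact absurd huL (hZ u hu hlu hvu)
  · obtain ⟨q, hq, q', hq', hqq, -⟩ := h3
    exact absurd ⟨_, hqq⟩ (nt q hq)
  · obtain ⟨x, hx, b, hb, h4, h5, h6⟩ := h3
    have hbl : l ∉ G.nb b := (HL_bt76 h4).1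
    have hbh : h ∈ G.nb b := by
      by_contra h7
      have h8 := e.oneh hb hx (ne_of_nb5 (HL_b76 h4)).symm h7
      rcases HL_sup76 h4 h8 m.c.lh.symm with h9 | h9
      · exact m.c.neh hb h9.symm
      · exact h7 h9
    have mx : x ∈ G.pT F b := mem_pT.2 ⟨G.sym _ _ (HL_b76 h4), hx⟩
    have h7 := (m.c.gL3 hb h4.2.1 (m.c.d_lV hb hbl hbh)).2.2.1 x mx (HL_not_low76 h4)
    have h8 : (1 : ℤ) ≤ ((G.pT F b).card : ℤ) := by exact_mod_cast card_pos.2 ⟨x, mx⟩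
    obtain ⟨n1, n2⟩ := m.nWA hbl
    have h9 := ge3_50 (m.v0 nt) m.aN m.aN' hb m.ne n1.symm n2.symm
    linarith

/-- `l` and `h` are not adjacent -/
theorem main (e : Ez G F l h v w a a' p p' z z') : 16 ≤ ∑ x ∈ G.N F, G.gam5 F x := by
  have m := e.m
  by_cases hA : G.Tw a a'
  · exact e.c3 hA
  by_cases hW : G.Tw p p'
  · exact e.c1 hA hW
  by_cases hZ : G.Tw z z'
  · exact e.c2 hA hW hZ
  have nt : ∀ x ∈ G.N F, ¬ G.IsTw x := by
    rintro x hx ⟨y, hxy⟩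
    have hy := m.c.par hx hxy
    by_cases h1 : l ∈ G.nb x
    · by_cases h2 : v ∈ G.nb x
      · have h3 : l ∈ G.nb y := (m.c.parF hx hxy m.c.lF).2 h1
        have h4 : v ∈ G.nb y := (m.c.parF hx hxy m.c.vF).2 h2
        rcases e.allZ x hx h1 h2 with h5 | h5 <;> rcases e.allZ y hy h3 h4 with h6 | h6
        · exact hxy.ne33 (h5.trans h6.symm)
        · rw [h5, h6] at hxy
          exact hZ hxy
        · rw [h5, h6] at hxy
          exact hZ hxy.sym33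
        · exact hxy.ne33 (h5.trans h6.symm)
      · rcases m.allA x hx h2 with h5 | h5
        · rw [h5] at hxy
          exact hA (m.twa hxy ▸ hxy)
        · rw [h5] at hxy
          exact hA ((m.symm.twa hxy ▸ hxy : G.Tw a' a).sym33)
    · have h3 : l ∉ G.nb y := fun h4 => h1 ((m.c.parF hx hxy m.c.lF).1 h4)
      rcases e.allW x hx h1 with h5 | h5 <;> rcases e.allW y hy h3 with h6 | h6
      · exact hxy.ne33 (h5.trans h6.symm)
      · rw [h5, h6] at hxy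
        exact hW hxy
      · rw [h5, h6] at hxy
        exact hW hxy.sym33
      · exact hxy.ne33 (h5.trans h6.symm)
  by_cases h1 : G.Low z
  · by_cases h2 : G.Low z'
    · exact e.c4a nt h1 h2
    · exact e.c4b nt h1 h2
  · by_cases h2 : G.Low z'
    · exact e.sZ.c4b nt h2 h1
    · exact e.c4c nt h1 h2

end Ez

/-- leaves with a low vertex, a hub and a pair of twins -/
theorem st6LHQ_50 (G : CG V) (hBas : G.StLBas) (hB : G.StLB) (hCnt : G.StLCnt) : G.St6LHQ := by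
  classical
  intro F hL l h v w fe lo hub tw
  have c : Lx G F l h v w := ⟨hBas, hB, hCnt, hL, fe, lo, hub, tw⟩
  by_cases hlv : v ∈ G.nb l
  swap
  · exact c.case1 hlv
  by_cases hhv : v ∈ G.nb h
  swap
  · exact c.case2a hlv hhv
  have hA : (G.ms50 F v).card = 2 := by
    have h1 := c.mv
    rw [c.dv, if_pos (G.sym _ _ hlv), if_pos (G.sym _ _ hhv)] at h1
    omega
  obtain ⟨a, a', hne, hA⟩ := card_eq_two.1 hA
  have ha : a ∈ G.ms50 F v := by rw [hA]; simp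
  have ha' : a' ∈ G.ms50 F v := by rw [hA]; simp
  obtain ⟨aN, av⟩ := mem_ms50.1 ha
  obtain ⟨aN', av'⟩ := mem_ms50.1 ha'
  have m : Mx G F l h v w a a' := ⟨c, hlv, hhv, aN, aN', av, av', hne, fun x hx h1 => by
    have h2 : x ∈ G.ms50 F v := mem_ms50.2 ⟨hx, h1⟩
    rw [hA, mem_insert, mem_singleton] at h2
    exact h2⟩
  have hZ := m.cZ
  have hW := m.cW
  by_cases hl : h ∈ G.nb l
  · rw [if_pos hl] at hZ
    obtain ⟨z, hz⟩ := card_eq_one.1 (show (Mx.Zs G F l a a').card = 1 by omega)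
    have h1 : z ∈ Mx.Zs G F l a a' := by rw [hz]; simp
    obtain ⟨zN, zl, zv⟩ := m.memZ.1 h1
    refine Ey.main ⟨m, hl, zN, zl, zv, fun x hx h2 h3 => ?_⟩
    have h4 := m.memZ.2 ⟨hx, h2, h3⟩
    rw [hz, mem_singleton] at h4
    exact h4
  · rw [if_neg hl] at hZ hW
    obtain ⟨z, z', zne, hz⟩ := card_eq_two.1 (show (Mx.Zs G F l a a').card = 2 by omega)
    obtain ⟨p, p', pne, hp⟩ := card_eq_two.1 (show (G.ms50 F l).card = 2 by omega)
    have h1 : z ∈ Mx.Zs G F l a a' := by rw [hz]; simp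
    have h2 : z' ∈ Mx.Zs G F l a a' := by rw [hz]; simp
    have h3 : p ∈ G.ms50 F l := by rw [hp]; simp
    have h4 : p' ∈ G.ms50 F l := by rw [hp]; simp
    obtain ⟨zN, zl, zv⟩ := m.memZ.1 h1
    obtain ⟨zN', zl', zv'⟩ := m.memZ.1 h2
    obtain ⟨pN, pl⟩ := mem_ms50.1 h3
    obtain ⟨pN', pl'⟩ := mem_ms50.1 h4
    refine Ez.main ⟨m, hl, pN, pN', pl, pl', pne, fun x hx h5 => ?_, zN, zN', zl, zl', zv, zv',
      zne, fun x hx h5 h6 => ?_⟩
    · have h7 := mem_ms50.2 ⟨hx, h5⟩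
      rw [hp, mem_insert, mem_singleton] at h7
      exact h7
    · have h7 := m.memZ.2 ⟨hx, h5, h6⟩
      rw [hz, mem_insert, mem_singleton] at h7
      exact h7

end CG

end Pool.Agent.Lib.MP_e95c01_co.N
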