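import Pool.Agent.Lib.MP_e95c01_co.X.StmtsH76
import Pool.Agent.Lib.MP_e95c01_co.T.F7_28
import Pool.Agent.Lib.MP_e95c01_co.U.StCh4_11

/-!
# H5: leaves with four hubs
-/

namespace Pool.Agent.Lib.MP_e95c01_co.N

open Finset

variable {V : Type} [Fintype V] [DecidableEq V]

namespace CG

variable {G : CG V} {F : Finset V}

/-- the context of H5 -/
structure H5c (G : CG V) (F : Finset V) : Prop where
  bas : G.StLBas
  b : G.StLB
  cnt : G.StLCnt
  f : G.Lf F
  c : F.card = 4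
  hub : ∀ z ∈ F, G.Hub z

namespace H5c

theorem n9 (K : H5c G F) : 9 ≤ Fintype.card V := le_trans (by norm_num) K.f.n12

theorem c6 (K : H5c G F) : (G.N F).card = 6 := K.f.big.1.2.1

theorem d4 (K : H5c G F) (w : V) : G.d w F ≤ 4 := by
  rw [← K.c]
  exact card_le_card inter_subset_right

theorem deg7 (K : H5c G F) {h : V} (hh : h ∈ F) : 7 ≤ (G.nb h).card := by
  have h1 := G.deg h
  have h2 : (G.nb h).card ≠ 6 := (K.hub h hh).1
  omega

theorem dF (K : H5c G F) {h : V} (hh : h ∈ F) : G.d h F ≤ 3 := by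
  have h1 : G.nb h ∩ F ⊆ F.erase h := by
    intro x hx
    rw [mem_inter] at hx
    refine mem_erase.2 ⟨?_, hx.2⟩
    rintro rfl
    exact G.irr _ hx.1
  have h2 := card_le_card h1
  rw [card_erase_of_mem hh, K.c] at h2
  exact h2

theorem tz4 (K : H5c G F) {h : V} (hh : h ∈ F) : 4 ≤ (G.Tz F h).card := by
  have h1 := K.bas.deg F K.f h hh
  have h2 := K.deg7 hh
  have h3 := K.dF hh
  omega

theorem notF (K : H5c G F) {w : V} (hw : w ∈ F ∪ G.N F) (h : ¬ G.Hub w) : w ∈ G.N F := by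
  rcases mem_union.1 hw with h1 | h1
  · exact absurd (K.hub w h1) h
  · exact h1

/-- covers at `z`, seen from `z` -/
theorem cov (K : H5c G F) {z y : V} (hz : z ∈ F) (hy : y ∈ F ∪ G.N F) (hzy : y ∈ G.nb z) :
    (∃ w ∈ G.Tz F z, G.Low w ∧ y ∈ G.nb w) ∨
    (∃ v ∈ G.Tz F z, ∃ w ∈ G.Tz F z, G.Tw v w ∧ y ∈ G.nb v ∧ y ∈ G.nb w) ∨
    (∃ a ∈ G.Tz F z, ∃ b ∈ G.Tz F z, G.HL a b y) ∨
    (∃ a ∈ G.Tz F z, ∃ b ∈ G.N F \ G.Tz F z, G.LL a b z y) := by
  have hlow : ∀ w, G.Low w → ¬ G.Hub w := fun w h1 h2 => h2.1 h1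
  have htw : ∀ v w, G.Tw v w → ¬ G.Hub v := fun v w h1 h2 => h2.2 ⟨w, h1⟩
  rcases K.f.cov z hz y hy hzy with h | h | h | h | h
  · obtain ⟨w, hw, h1, h2, h4⟩ := h
    exact Or.inl ⟨w, mem_Tz28.2 ⟨G.sym _ _ h2, K.notF hw (hlow w h1)⟩, h1, h4⟩
  · obtain ⟨v, hv, w, hw, h1, h2, h4, h5, h6⟩ := h
    exact Or.inr (Or.inl ⟨v, mem_Tz28.2 ⟨G.sym _ _ h2, K.notF hv (htw v w h1)⟩, w,
      mem_Tz28.2 ⟨G.sym _ _ h4, K.notF hw (htw w v ((stTwHL_5 G).symm _ _ h1))⟩, h1, h5, h6⟩)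
  · obtain ⟨a, b, h1, h2, h4, h5⟩ := h
    rcases h5 with h5 | h5
    · exact absurd h1.2.1 (K.hub b h5.2).1
    · exact Or.inr (Or.inr (Or.inl ⟨a, mem_Tz28.2 ⟨G.sym _ _ h4, h5.1⟩, b,
        mem_Tz28.2 ⟨G.sym _ _ h2, h5.2⟩, h1⟩))
  · obtain ⟨a, b, h1, -⟩ := h
    exact absurd (K.f.sat _ _ _ h1) (K.hub z hz).1
  · obtain ⟨a, b, h1, h2⟩ := h
    rcases h2 with h2 | h2
    · exact absurd h1.1 (K.hub a h2.1).1
    · refine Or.inr (Or.inr (Or.inr ⟨a, mem_Tz28.2 ⟨G.sym _ _ (LL_t76 h1), h2.1⟩, b,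
        mem_sdiff.2 ⟨h2.2, fun h4 => ?_⟩, h1⟩))
      exact (LL_tb76 h1).1 (G.sym _ _ (mem_Tz28.1 h4).1)

/-- no twins in `N F` -/
theorem ntw (K : H5c G F) {P : V} (hP : P ∈ G.N F) : ¬ G.IsTw P := by
  rintro ⟨P', hPP⟩
  have hPP2 := (stTwHL_5 G).symm _ _ hPP
  have hP' : P' ∈ G.N F := (K.bas.twT F K.f P P' hPP).1 hP
  obtain ⟨t1, t2, t3, t4, -⟩ := K.b.tw F K.f P hP ⟨P', hPP⟩
  have hne : P ≠ P' := ne_of_nb5 hPP.1
  have hPP' : P' ∈ G.pT F P := mem_inter.2 ⟨hPP.1, hP'⟩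
  have hPl : ¬ G.Low P := tw_not_low11 ⟨P', hPP⟩
  have hPF : ∀ z ∈ F, z ≠ P ∧ z ≠ P' := fun z hz =>
    ⟨fun h => (mem_N76.1 hP).1 (h ▸ hz), fun h => (mem_N76.1 hP').1 (h ▸ hz)⟩
  -- the cover of `z P`
  have key : 3 ≤ G.d P F → ∀ z ∈ F, z ∈ G.nb P → ∃ w, G.Low w ∧ w ∈ G.Tz F z ∧ w ∈ G.pT F P := by
    intro h3 z hz hzP
    rcases K.cov hz (mem_union_right _ hP) (G.sym _ _ hzP) with h | h | h | h
    · obtain ⟨w, hw, h1, h2⟩ := h
      exact ⟨w, h1, hw, mem_inter.2 ⟨G.sym _ _ h2, (mem_Tz28.1 hw).2⟩⟩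
    · exfalso
      obtain ⟨v, hv, w, hw, h1, h2, h4⟩ := h
      have hv' : v ∈ G.pT F P := mem_inter.2 ⟨G.sym _ _ h2, (mem_Tz28.1 hv).2⟩
      have hw' : w ∈ G.pT F P := mem_inter.2 ⟨G.sym _ _ h4, (mem_Tz28.1 hw).2⟩
      have hvP : v ≠ P' := by
        rintro rfl
        have h5 := (stTwHL_5 G).uniq K.n9 _ _ _ h1 hPP2
        subst h5
        exact G.irr _ h4
      have hwP : w ≠ P' := by
        rintro rfl
        have h5 := (stTwHL_5 G).uniq K.n9 _ _ _ ((stTwHL_5 G).symm _ _ h1) hPP2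
        subst h5
        exact G.irr _ h2
      have h6 : ({P', v, w} : Finset V) ⊆ G.pT F P := by
        intro x hx
        simp only [mem_insert, mem_singleton] at hx
        rcases hx with rfl | rfl | rfl <;> assumption
      have h7 := card_le_card h6
      rw [card_insert_of_notMem (by simp [hvP.symm, hwP.symm]), card_pair (ne_of_nb5 h1.1)] at h7
      omega
    · obtain ⟨a, -, b, -, h1⟩ := h
      exact absurd (K.f.sat _ _ _ h1) hPl
    · obtain ⟨a, -, b, -, h1⟩ := h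
      exact absurd ⟨P', hPP⟩ ((stTwHL_5 G).twLL _ _ _ _ h1).2
  by_cases h2 : G.d P F = 2
  · -- two neighbours
    have e1 : G.N {P, P'} ∩ F = G.nb P ∩ F := by
      ext z
      rw [mem_inter, mem_inter]
      constructor
      · rintro ⟨h1, hz⟩
        obtain ⟨-, v, hv, hzv⟩ := mem_N76.1 h1
        rw [mem_insert, mem_singleton] at hv
        rcases hv with rfl | rfl
        · exact ⟨hzv, hz⟩
        · exact ⟨Tw_nb5 hPP2 hzv (hPF z hz).1, hz⟩
      · rintro ⟨h1, hz⟩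
        refine ⟨mem_N76.2 ⟨?_, P, by simp, h1⟩, hz⟩
        rw [mem_insert, mem_singleton, not_or]
        exact hPF z hz
    have hZ : ({P, P'} : Finset V) ⊆ G.N F := by
      intro x hx
      rw [mem_insert, mem_singleton] at hx
      rcases hx with rfl | rfl <;> assumption
    have hc2 : (G.nb P ∩ F).card = 2 := h2
    have e2 : (G.FZ F {P, P'}).card = 2 := by
      have h3 := card_sdiff_add_card_inter F (G.N {P, P'})
      rw [inter_comm F, e1, hc2, K.c] at h3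
      have h4 : G.FZ F {P, P'} = F \ G.N {P, P'} := rfl
      rw [h4]
      omega
    obtain ⟨x, y, hxy, he⟩ := card_eq_two.1 e2
    have hx : x ∈ F := by
      have h3 : x ∈ G.FZ F {P, P'} := by rw [he]; simp
      exact (mem_sdiff.1 h3).1
    have hy : y ∈ F := by
      have h3 : y ∈ G.FZ F {P, P'} := by rw [he]; simp
      exact (mem_sdiff.1 h3).1
    have h3 := K.bas.two F K.f {P, P'} hZ ⟨P, by simp⟩ (by rw [e1, hc2, card_pair hne]) x y hxy he
      (K.hub x hx).1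
    rcases h3.2.2.2 with h4 | h4
    · exact (K.hub x hx).2 ⟨y, h4⟩
    · exact (K.hub y hy).1 h4.1
  · -- three neighbours
    have h3 : 3 ≤ G.d P F := by omega
    have hne' : (G.nb P ∩ F).Nonempty := by
      rw [← card_pos]
      exact lt_of_lt_of_le (by norm_num) h3
    obtain ⟨z0, hz0⟩ := hne'
    rw [mem_inter] at hz0
    obtain ⟨l, hl, hlz, hlP⟩ := key h3 z0 hz0.2 hz0.1
    have nlP' : P' ≠ l := by
      rintro rfl
      exact tw_not_low11 ⟨P, hPP2⟩ hl
    have nlP : P ≠ l := by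
      rintro rfl
      exact hPl hl
    have hsub : ({P', l} : Finset V) ⊆ G.pT F P := by
      intro x hx
      rw [mem_insert, mem_singleton] at hx
      rcases hx with rfl | rfl
      · exact hPP'
      · exact hlP
    have h4 := card_le_card hsub
    rw [card_pair nlP'] at h4
    have hd3 : G.d P F = 3 := by omega
    have heq : G.pT F P = {P', l} := by
      symm
      apply eq_of_subset_of_card_le hsub
      rw [card_pair nlP']
      omega
    have hlN : l ∈ G.N F := (mem_Tz28.1 hlz).2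
    have hlnb : l ∈ G.nb P := (mem_inter.1 hlP).1
    have hFl : G.nb P ∩ F ⊆ G.nb l ∩ F := by
      intro z hz
      rw [mem_inter] at hz
      obtain ⟨w, hw, hwz, hwP⟩ := key h3 z hz.2 hz.1
      rw [heq, mem_insert, mem_singleton] at hwP
      rcases hwP with rfl | rfl
      · exact absurd hw (tw_not_low11 ⟨P, hPP2⟩)
      · exact mem_inter.2 ⟨G.sym _ _ (mem_Tz28.1 hwz).1, hz.2⟩
    have hdl : 3 ≤ G.d l F := by
      rw [← hd3]
      exact card_le_card hFl
    have hlT : 2 ≤ (G.pT F l).card := by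
      have h5 : ({P, P'} : Finset V) ⊆ G.pT F l := by
        intro x hx
        rw [mem_insert, mem_singleton] at hx
        rcases hx with rfl | rfl
        · exact mem_inter.2 ⟨G.sym _ _ hlnb, hP⟩
        · exact mem_inter.2 ⟨G.sym _ _ (Tw_nb5 hPP hlnb nlP'.symm), hP'⟩
      have h6 := card_le_card h5
      rwa [card_pair hne] at h6
    have hdl3 : G.d l F = 3 := by
      have h5 := K.d4 l
      have h6 : G.d l F ≠ 4 := by
        intro h7
        have := (K.b.low4 F K.f l hlN hl h7).1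
        omega
      omega
    have heqF : G.nb P ∩ F = G.nb l ∩ F := by
      apply eq_of_subset_of_card_le hFl
      have e1 : (G.nb l ∩ F).card = 3 := hdl3
      have e2 : (G.nb P ∩ F).card = 3 := hd3
      omega
    -- the missed vertex
    obtain ⟨h0, hh0, hh0P⟩ : ∃ z ∈ F, z ∉ G.nb P := by
      by_contra hcon
      have h5 : F ⊆ G.nb P := by
        intro z hz
        by_contra h6
        exact hcon ⟨z, hz, h6⟩
      unfold d at hd3
      rw [inter_eq_right.2 h5, K.c] at hd3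
      omega
    have hh0l : h0 ∉ G.nb l := by
      intro h5
      have h6 : h0 ∈ G.nb P ∩ F := by rw [heqF]; exact mem_inter.2 ⟨h5, hh0⟩
      exact hh0P (mem_inter.1 h6).1
    have hh0P' : h0 ∉ G.nb P' := fun h5 => hh0P (Tw_nb5 hPP2 h5 (hPF h0 hh0).1)
    have h5 : G.Tz F h0 ⊆ (((G.N F).erase P).erase P').erase l := by
      intro x hx
      have hx' := mem_Tz28.1 hx
      refine mem_erase.2 ⟨?_, mem_erase.2 ⟨?_, mem_erase.2 ⟨?_, hx'.2⟩⟩⟩
      · rintro rfl
        exact hh0l (G.sym _ _ hx'.1)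
      · rintro rfl
        exact hh0P' (G.sym _ _ hx'.1)
      · rintro rfl
        exact hh0P (G.sym _ _ hx'.1)
    have h6 := card_le_card h5
    rw [card_erase_of_mem (mem_erase.2 ⟨nlP'.symm, mem_erase.2 ⟨nlP.symm, hlN⟩⟩),
      card_erase_of_mem (mem_erase.2 ⟨hne.symm, hP'⟩), card_erase_of_mem hP, K.c6] at h6
    have h7 := K.tz4 hh0
    omega

/-- the lows next to `h` in `N F` -/
def D (G : CG V) (F : Finset V) (h : V) : Finset V := (G.Tz F h).filter fun w => G.Low w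

theorem mem_D {h w : V} : w ∈ D G F h ↔ w ∈ G.nb h ∧ w ∈ G.N F ∧ G.Low w := by
  rw [D, mem_filter, mem_Tz28]
  tauto

/-- covers of a vertex of `N F` -/
theorem covT (K : H5c G F) {z y : V} (hz : z ∈ F) (hy : y ∈ G.Tz F z) :
    (∃ w ∈ D G F z, w ≠ y ∧ y ∈ G.nb w) ∨
    (∃ a ∈ G.Tz F z, ∃ b ∈ D G F z, b ≠ y ∧ G.HL a b y) ∨
    (∃ a ∈ D G F z, ∃ b ∈ G.N F \ G.Tz F z, a ≠ y ∧ G.LL a b z y) := by
  rw [mem_Tz28] at hy
  rcases K.cov hz (mem_union_right _ hy.2) hy.1 with h | h | h | h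
  · obtain ⟨w, hw, h1, h2⟩ := h
    exact Or.inl ⟨w, mem_filter.2 ⟨hw, h1⟩, ne_of_nb5 h2, h2⟩
  · obtain ⟨v, hv, w, hw, h1, -⟩ := h
    exact absurd ⟨w, h1⟩ (K.ntw (mem_Tz28.1 hv).2)
  · obtain ⟨a, ha, b, hb, h1⟩ := h
    exact Or.inr (Or.inl ⟨a, ha, b, mem_filter.2 ⟨hb, h1.2.1⟩, (HL_bt76 h1).2.symm, h1⟩)
  · obtain ⟨a, ha, b, hb, h1⟩ := h
    exact Or.inr (Or.inr ⟨a, mem_filter.2 ⟨ha, h1.1⟩, b, hb, (LL_ua76 h1).2.symm, h1⟩)

theorem wt_low {w : V} (hw : G.Low w) (F : Finset V) :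
    G.wt3 G.Tw w * ((G.tT G.Tw F w).card : ℤ) = 2 * ((G.pT F w).card : ℤ) := by
  classical
  have h1 : G.tT G.Tw F w = G.pT F w := by
    unfold tT pT
    rw [filter_eq_self]
    intro x _ hx
    exact tw_not_low11 ⟨x, hx⟩ hw
  rw [wt3_low28 hw, h1]

/-- the counting lemma in `N F` -/
theorem cntT (K : H5c G F) {h : V} (hh : h ∈ F) :
    ((G.Tz F h).card : ℤ) ≤ ∑ w ∈ D G F h, ((G.pT F w).card : ℤ) := by
  classical
  have h1 := (K.cnt K.f.sat K.n9 F (G.Tz F h) (G.Tz F h) subset_rfl inter_subset_right h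
    (fun y hy => ?_)).1
  · have h2 : ∑ w ∈ G.Tz F h, G.wt3 G.Tw w * ((G.tT G.Tw F w).card : ℤ) =
        2 * ∑ w ∈ D G F h, ((G.pT F w).card : ℤ) := by
      rw [D, sum_filter, mul_sum]
      refine sum_congr rfl fun w hw => ?_
      by_cases hl : G.Low w
      · rw [if_pos hl, wt_low hl]
      · rw [if_neg hl, wt3_hub28 (q := G.Tw) ⟨hl, K.ntw (mem_Tz28.1 hw).2⟩]
        ring
    rw [h2] at h1
    linarith
  · exact K.cov hh (mem_union_right _ (mem_Tz28.1 hy).2) (mem_Tz28.1 hy).1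

/-- if no vertex is covered by `LL`, only the neighbours in `Tz F h` count -/
theorem cntM (K : H5c G F) {h : V} (hh : h ∈ F)
    (hLL : ∀ y ∈ G.Tz F h, ∀ a ∈ G.Tz F h, ∀ b ∈ G.N F \ G.Tz F h, ¬ G.LL a b h y) :
    ((G.Tz F h).card : ℤ) ≤ ∑ w ∈ D G F h, ((G.pT F w ∩ G.Tz F h).card : ℤ) := by
  classical
  have h1 := (K.cnt K.f.sat K.n9 F (G.Tz F h) (G.Tz F h) subset_rfl inter_subset_right h
    (fun y hy => ?_)).2 hLL
  · have h2 : ∑ w ∈ G.Tz F h, G.wt3 G.Tw w * ((G.tT G.Tw F w ∩ G.Tz F h).card : ℤ) =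
        2 * ∑ w ∈ D G F h, ((G.pT F w ∩ G.Tz F h).card : ℤ) := by
      rw [D, sum_filter, mul_sum]
      refine sum_congr rfl fun w hw => ?_
      by_cases hl : G.Low w
      · have h1 : G.tT G.Tw F w = G.pT F w := by
          unfold tT pT
          rw [filter_eq_self]
          intro x _ hx
          exact tw_not_low11 ⟨x, hx⟩ hl
        rw [if_pos hl, wt3_low28 hl, h1]
      · rw [if_neg hl, wt3_hub28 (q := G.Tw) ⟨hl, K.ntw (mem_Tz28.1 hw).2⟩]
        ring
    rw [h2] at h1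
    linarith
  · exact K.cov hh (mem_union_right _ (mem_Tz28.1 hy).2) (mem_Tz28.1 hy).1

/-- the counting lemma with the neighbours in `F` -/
theorem cntF (K : H5c G F) {h : V} (hh : h ∈ F) :
    7 ≤ ∑ w ∈ D G F h, (((G.pT F w).card : ℤ) + (G.d w F : ℤ) - 1) := by
  classical
  set F' : Finset V := insert h (G.Co F) with hF'
  have hfr := K.f.big.1
  have hNC : G.N (G.Co F) = G.N F := (G.stCo_37 F hfr).2.1
  have hNF' : G.N F' = G.N F ∪ (G.nb h ∩ F) := by
    ext x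
    rw [mem_N76, mem_union, mem_inter, hF']
    constructor
    · rintro ⟨h1, v, hv, hxv⟩
      rw [mem_insert, not_or] at h1
      rw [mem_insert] at hv
      rcases hv with rfl | hv
      · by_cases h2 : x ∈ F
        · exact Or.inr ⟨hxv, h2⟩
        · left
          by_contra h3
          exact h1.2 (mem_Co76.2 ⟨h2, h3⟩)
      · left
        rw [← hNC]
        exact mem_N76.2 ⟨h1.2, v, hv, hxv⟩
    · rintro (h1 | ⟨h1, h2⟩)
      · have h3 := h1
        rw [← hNC] at h3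
        obtain ⟨h4, v, hv, hxv⟩ := mem_N76.1 h3
        refine ⟨?_, v, mem_insert_of_mem hv, hxv⟩
        rw [mem_insert, not_or]
        refine ⟨?_, h4⟩
        rintro rfl
        exact (mem_N76.1 h1).1 hh
      · refine ⟨?_, h, mem_insert_self _ _, h1⟩
        rw [mem_insert, not_or]
        refine ⟨?_, fun h3 => (mem_Co76.1 h3).1 h2⟩
        rintro rfl
        exact G.irr _ h1
  have hsub : G.nb h ⊆ G.N F' := by
    intro x hx
    rw [hNF', mem_union, mem_inter]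
    by_cases h2 : x ∈ F
    · exact Or.inr ⟨hx, h2⟩
    · exact Or.inl (mem_N76.2 ⟨h2, h, hh, hx⟩)
  have hcov : ∀ y ∈ G.nb h,
      (∃ w ∈ G.nb h, G.Low w ∧ y ∈ G.nb w) ∨
      (∃ v ∈ G.nb h, ∃ w ∈ G.nb h, G.Tw v w ∧ y ∈ G.nb v ∧ y ∈ G.nb w) ∨
      (∃ a ∈ G.nb h, ∃ b ∈ G.nb h, G.HL a b y) ∨
      (∃ a ∈ G.nb h, ∃ b ∈ G.N F' \ G.nb h, G.LL a b h y) := by
    intro y hy
    have hy' : y ∈ F ∪ G.N F := by
      rw [mem_union]
      by_cases h2 : y ∈ F
      · exact Or.inl h2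
      · exact Or.inr (mem_N76.2 ⟨h2, h, hh, hy⟩)
    rcases K.cov hh hy' hy with h1 | h1 | h1 | h1
    · obtain ⟨w, hw, h2, h3⟩ := h1
      exact Or.inl ⟨w, (mem_Tz28.1 hw).1, h2, h3⟩
    · obtain ⟨v, hv, w, hw, h2⟩ := h1
      exact Or.inr (Or.inl ⟨v, (mem_Tz28.1 hv).1, w, (mem_Tz28.1 hw).1, h2⟩)
    · obtain ⟨a, ha, b, hb, h2⟩ := h1
      exact Or.inr (Or.inr (Or.inl ⟨a, (mem_Tz28.1 ha).1, b, (mem_Tz28.1 hb).1, h2⟩))
    · obtain ⟨a, ha, b, hb, h2⟩ := h1
      rw [mem_sdiff] at hb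
      refine Or.inr (Or.inr (Or.inr ⟨a, (mem_Tz28.1 ha).1, b, mem_sdiff.2 ⟨?_, fun h3 =>
        hb.2 (mem_Tz28.2 ⟨h3, hb.1⟩)⟩, h2⟩))
      rw [hNF']
      exact mem_union_left _ hb.1
  have h1 := (K.cnt K.f.sat K.n9 F' (G.nb h) (G.nb h) subset_rfl hsub h hcov).1
  have h2 : ∑ w ∈ G.nb h, G.wt3 G.Tw w * ((G.tT G.Tw F' w).card : ℤ) ≤
      2 * ∑ w ∈ D G F h, (((G.pT F w).card : ℤ) + (G.d w F : ℤ) - 1) := by
    have e1 : ∑ w ∈ G.nb h, G.wt3 G.Tw w * ((G.tT G.Tw F' w).card : ℤ) =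
        ∑ w ∈ D G F h, G.wt3 G.Tw w * ((G.tT G.Tw F' w).card : ℤ) := by
      symm
      apply sum_subset
      · intro w hw
        exact (mem_D.1 hw).1
      · intro w hw hn
        have hnl : ¬ G.Low w := by
          intro hl
          apply hn
          refine mem_D.2 ⟨hw, ?_, hl⟩
          refine mem_N76.2 ⟨fun h3 => (K.hub w h3).1 hl, h, hh, hw⟩
        have hnt : ¬ G.IsTw w := by
          intro ht
          by_cases h3 : w ∈ F
          · exact (K.hub w h3).2 ht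
          · exact K.ntw (mem_N76.2 ⟨h3, h, hh, hw⟩) ht
        rw [wt3_hub28 (q := G.Tw) ⟨hnl, hnt⟩]
        ring
    rw [e1, mul_sum]
    refine sum_le_sum fun w hw => ?_
    obtain ⟨w1, w2, w3⟩ := mem_D.1 hw
    rw [wt_low w3]
    have e2 : G.pT F' w ⊆ G.pT F w ∪ (G.nb w ∩ F).erase h := by
      intro x hx
      rw [pT, hNF', mem_inter, mem_union, mem_inter] at hx
      rw [mem_union, pT, mem_inter, mem_erase, mem_inter]
      rcases hx.2 with h3 | h3
      · exact Or.inl ⟨hx.1, h3⟩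
      · refine Or.inr ⟨?_, hx.1, h3.2⟩
        rintro rfl
        exact G.irr _ h3.1
    have e3 := (card_le_card e2).trans (card_union_le _ _)
    rw [card_erase_of_mem (mem_inter.2 ⟨G.sym _ _ w1, hh⟩)] at e3
    have e4 : 1 ≤ (G.nb w ∩ F).card := card_pos.2 ⟨h, mem_inter.2 ⟨G.sym _ _ w1, hh⟩⟩
    have e5 : (G.nb w ∩ F).card = G.d w F := rfl
    rw [e5] at e3 e4
    have e6 : (G.pT F' w).card + 1 ≤ (G.pT F w).card + G.d w F := by omega
    have e7 : ((G.pT F' w).card : ℤ) + 1 ≤ ((G.pT F w).card : ℤ) + (G.d w F : ℤ) := by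
      exact_mod_cast e6
    linarith
  have h3 : (7 : ℤ) ≤ ((G.nb h).card : ℤ) := by exact_mod_cast K.deg7 hh
  linarith

/-! ### values -/

/-- `f` and `t` of a low vertex of `N F` -/
theorem fr (K : H5c G F) {w : V} (hw : w ∈ G.N F) (hl : G.Low w) :
    2 ≤ G.d w F ∧ G.d w F ≤ 4 ∧ (G.pT F w).card + G.d w F ≤ 5 := by
  have h1 := K.bas.pos F K.f w hw
  have h2 := K.d4 w
  refine ⟨h1, h2, ?_⟩
  have h3 : G.d w F = 2 ∨ G.d w F = 3 ∨ G.d w F = 4 := by omega
  rcases h3 with h3 | h3 | h3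
  · have := (K.b.low2 F K.f w hw hl h3).1
    omega
  · have := (K.b.low3 F K.f w hw hl h3).1
    omega
  · have := (K.b.low4 F K.f w hw hl h3).1
    omega

open Classical in
/-- the exceptional lows -/
noncomputable def sg (G : CG V) (F : Finset V) (w : V) : ℤ :=
  if 4 * (G.d w F : ℤ) - 6 + 2 * ((G.pT F w).card : ℤ) ≤ G.gam5 F w then 0 else 1

/-- the integral value -/
noncomputable def Xv (G : CG V) (F : Finset V) (w : V) : ℤ :=
  2 * (G.d w F : ℤ) - 3 + ((G.pT F w).card : ℤ) - sg G F w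

/-- the share of a vertex of `F` -/
noncomputable def om (G : CG V) (F : Finset V) (w : V) : ℤ :=
  if G.d w F = 2 then 6 * Xv G F w else if G.d w F = 3 then 4 * Xv G F w else 3 * Xv G F w

theorem noPair (K : H5c G F) {A : Finset V} (hA : A ⊆ G.N F) : ¬ G.PairSet A := by
  rintro ⟨v, w, h1, h2⟩
  have hv : v ∈ A := by rw [h2]; simp
  exact K.ntw (hA hv) ⟨w, h1⟩

theorem sgv (K : H5c G F) {w : V} (hw : w ∈ G.N F) (hl : G.Low w) :
    sg G F w = 0 ∨ (sg G F w = 1 ∧ (G.pT F w).card = 1 ∧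
      ((G.d w F = 4 ∧ ∃ a b, G.HL a b w ∧ a ∈ G.N F ∧ b ∈ G.N F ∧ G.pT F w = {a} ∧ G.Hub a) ∨
      (G.d w F = 3 ∧ ∃ v q q', G.Low v ∧ G.pT F w = {v} ∧ G.Tw q q' ∧ G.pO F w = {q, q'} ∧
        q ∈ G.nb v))) := by
  unfold sg
  split_ifs with h
  · exact Or.inl rfl
  · right
    refine ⟨rfl, ?_⟩
    have h1 := K.fr hw hl
    have h3 : G.d w F = 2 ∨ G.d w F = 3 ∨ G.d w F = 4 := by omega
    rcases h3 with h3 | h3 | h3
    · exfalso
      apply h
      rcases (K.b.low2 F K.f w hw hl h3).2.1 with h4 | h4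
      · rw [h3]
        push_cast
        linarith
      · exact absurd h4.2.1 (K.noPair inter_subset_right)
    · rcases (K.b.low3 F K.f w hw hl h3).2.2.1 with h4 | h4
      · exfalso
        apply h
        rw [h3]
        push_cast
        linarith
      · obtain ⟨v, q, q', e1, e2, e3, e4, e5, -⟩ := h4
        exact ⟨by rw [e2, card_singleton], Or.inr ⟨h3, v, q, q', e1, e2, e3, e4, e5⟩⟩
    · rcases (K.b.low4 F K.f w hw hl h3).2.2 with h4 | h4
      · exfalso
        apply h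
        rw [h3]
        push_cast
        linarith
      · obtain ⟨a, b, e1, e2, e3, e4, e5⟩ := h4
        exact ⟨by rw [e4, card_singleton], Or.inl ⟨h3, a, b, e1, e2, e3, e4, e5⟩⟩

theorem sg0 (K : H5c G F) {w : V} (hw : w ∈ G.N F) (hl : G.Low w) (h : (G.pT F w).card ≠ 1) :
    sg G F w = 0 := by
  rcases K.sgv hw hl with h1 | h1
  · exact h1
  · exact absurd h1.2.1 h

theorem Xg (K : H5c G F) {w : V} (hw : w ∈ G.N F) (hl : G.Low w) :
    2 * Xv G F w ≤ G.gam5 F w := by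
  by_cases h : 4 * (G.d w F : ℤ) - 6 + 2 * ((G.pT F w).card : ℤ) ≤ G.gam5 F w
  · have h1 : sg G F w = 0 := by
      unfold sg
      rw [if_pos h]
    unfold Xv
    rw [h1]
    linarith
  · have h1 : sg G F w = 1 := by
      unfold sg
      rw [if_neg h]
    rcases K.sgv hw hl with h2 | ⟨-, h2, h3⟩
    · omega
    · unfold Xv
      rw [h1, h2]
      rcases h3 with h3 | h3
      · have h4 := (K.b.low4 F K.f w hw hl h3.1).2.1
        rw [h3.1]
        push_cast
        linarith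
      · have h4 := (K.b.low3 F K.f w hw hl h3.1).2.1
        rw [h3.1]
        push_cast
        linarith

theorem om12 (K : H5c G F) {w : V} (hw : w ∈ G.N F) (hl : G.Low w) :
    (G.d w F : ℤ) * om G F w = 12 * Xv G F w := by
  have h1 := K.fr hw hl
  have h3 : G.d w F = 2 ∨ G.d w F = 3 ∨ G.d w F = 4 := by omega
  unfold om
  rcases h3 with h3 | h3 | h3
  · rw [if_pos h3, h3]
    push_cast
    ring
  · rw [if_neg (by omega), if_pos h3, h3]
    push_cast
    ring
  · rw [if_neg (by omega), if_neg (by omega), h3]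
    push_cast
    ring

theorem om6 (K : H5c G F) {w : V} (hw : w ∈ G.N F) (hl : G.Low w) :
    6 * (1 + ((G.pT F w).card : ℤ)) ≤ om G F w := by
  have h1 := K.fr hw hl
  have h3 : G.d w F = 2 ∨ G.d w F = 3 ∨ G.d w F = 4 := by omega
  have hs := K.sgv hw hl
  have ht : ((G.pT F w).card : ℤ) + (G.d w F : ℤ) ≤ 5 := by exact_mod_cast h1.2.2
  have h0 : (0 : ℤ) ≤ ((G.pT F w).card : ℤ) := Int.natCast_nonneg _
  have hs' : sg G F w = 0 ∨ (sg G F w = 1 ∧ ((G.pT F w).card : ℤ) = 1 ∧ G.d w F ≠ 2) := by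
    rcases hs with h | ⟨h, h4, h5⟩
    · exact Or.inl h
    · refine Or.inr ⟨h, by rw [h4]; rfl, ?_⟩
      rcases h5 with h5 | h5
      · rw [h5.1]; norm_num
      · rw [h5.1]; norm_num
  unfold om Xv
  rcases h3 with h3 | h3 | h3
  · rw [if_pos h3]
    rw [h3] at ht ⊢
    rcases hs' with h | h
    · rw [h]
      push_cast
      linarith
    · exact absurd h3 h.2.2
  · rw [if_neg (by omega), if_pos h3]
    rw [h3] at ht ⊢
    push_cast at ht ⊢
    rcases hs' with h | h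
    · rw [h]
      linarith
    · rw [h.1, h.2.1]
      norm_num
  · rw [if_neg (by omega), if_neg (by omega)]
    rw [h3] at ht ⊢
    push_cast at ht ⊢
    rcases hs' with h | h
    · rw [h]
      linarith
    · rw [h.1, h.2.1]
      norm_num

theorem X0 (K : H5c G F) {w : V} (hw : w ∈ G.N F) (hl : G.Low w) : 0 ≤ Xv G F w := by
  have h1 := K.om12 hw hl
  have h2 := K.om6 hw hl
  have h3 : (0 : ℤ) ≤ ((G.pT F w).card : ℤ) := Int.natCast_nonneg _
  have h4 : (0 : ℤ) ≤ (G.d w F : ℤ) * om G F w :=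
    mul_nonneg (Int.natCast_nonneg _) (by linarith)
  linarith

/-- double counting -/
theorem swapD (G : CG V) (F : Finset V) (g : V → ℤ) :
    ∑ z ∈ F, ∑ w ∈ D G F z, g w =
      ∑ w ∈ (G.N F).filter (fun w => G.Low w), (G.d w F : ℤ) * g w := by
  classical
  have h1 := swap28 G F (fun w => if G.Low w then g w else 0)
  have h2 : ∀ z ∈ F, ∑ w ∈ G.Tz F z, (if G.Low w then g w else 0) = ∑ w ∈ D G F z, g w := by
    intro z _
    rw [D, sum_filter]
  rw [sum_congr rfl h2] at h1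
  rw [h1, sum_filter]
  refine sum_congr rfl fun w _ => ?_
  by_cases h3 : G.Low w
  · rw [if_pos h3, if_pos h3]
  · rw [if_neg h3, if_neg h3, mul_zero]

/-- the shares -/
noncomputable def Wh (G : CG V) (F : Finset V) (h : V) : ℤ := ∑ w ∈ D G F h, om G F w

theorem sumW (K : H5c G F) :
    ∑ h ∈ F, Wh G F h = 12 * ∑ w ∈ (G.N F).filter (fun w => G.Low w), Xv G F w := by
  unfold Wh
  rw [swapD, mul_sum]
  refine sum_congr rfl fun w hw => ?_
  rw [mem_filter] at hw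
  exact K.om12 hw.1 hw.2

theorem sumX (K : H5c G F) :
    2 * ∑ w ∈ (G.N F).filter (fun w => G.Low w), Xv G F w ≤ ∑ w ∈ G.N F, G.gam5 F w := by
  classical
  rw [mul_sum, sum_filter]
  refine sum_le_sum fun w hw => ?_
  by_cases h : G.Low w
  · rw [if_pos h]
    exact K.Xg hw h
  · rw [if_neg h, K.b.hub F K.f w hw ⟨h, K.ntw hw⟩]

/-! ### types -/

/-- type A -/
def TyA (G : CG V) (F : Finset V) (h p e : V) : Prop :=
  p ≠ e ∧ D G F h = {p, e} ∧ G.d p F = 3 ∧ (G.pT F p).card = 2 ∧ G.d e F = 2 ∧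
    (G.pT F e).card = 2

/-- type B -/
def TyB (G : CG V) (F : Finset V) (h p e : V) : Prop :=
  p ≠ e ∧ D G F h = {p, e} ∧ G.d p F = 3 ∧ (G.pT F p).card = 2 ∧ G.d e F = 3 ∧
    (G.pT F e).card = 2

/-- type D -/
def TyD (G : CG V) (F : Finset V) (h p e : V) : Prop :=
  p ≠ e ∧ D G F h = {p, e} ∧ G.d p F = 3 ∧ (G.pT F p).card = 1 ∧ G.d e F = 2 ∧
    (G.pT F e).card = 3

/-- at least two lows -/
theorem two (K : H5c G F) {h : V} (hh : h ∈ F) : 2 ≤ (D G F h).card := by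
  by_contra hcon
  have h4 : (4 : ℤ) ≤ ((G.Tz F h).card : ℤ) := by exact_mod_cast K.tz4 hh
  have h1 := K.cntT hh
  have h2 : ∑ w ∈ D G F h, ((G.pT F w).card : ℤ) ≤ ∑ _w ∈ D G F h, 3 := by
    refine sum_le_sum fun w hw => ?_
    rw [mem_D] at hw
    have h3 := K.fr hw.2.1 hw.2.2
    have h5 : (G.pT F w).card ≤ 3 := by omega
    exact_mod_cast h5
  rw [sum_const, nsmul_eq_mul] at h2
  have h3 : ((D G F h).card : ℤ) ≤ 1 := by
    have : (D G F h).card ≤ 1 := by omega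
    exact_mod_cast this
  linarith

/-- an exceptional low does not occur with a low `(2; 3; 1)` -/
theorem noS (K : H5c G F) {h d e : V} (hh : h ∈ F) (hD : D G F h = {d, e})
    (he2 : G.d e F = 2) (he3 : (G.pT F e).card = 3) : sg G F d = 0 := by
  have hd : d ∈ D G F h := by rw [hD]; simp
  have he : e ∈ D G F h := by rw [hD]; simp
  have hd' := mem_D.1 hd
  have he' := mem_D.1 he
  have hdz : d ∈ G.Tz F h := mem_Tz28.2 ⟨hd'.1, hd'.2.1⟩
  have hez : e ∈ G.Tz F h := mem_Tz28.2 ⟨he'.1, he'.2.1⟩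
  have hoth : ∀ w ∈ D G F h, w ≠ e → w = d := by
    intro w hw h1
    rw [hD, mem_insert, mem_singleton] at hw
    exact hw.resolve_right h1
  have hoth' : ∀ w ∈ D G F h, w ≠ d → w = e := by
    intro w hw h1
    rw [hD, mem_insert, mem_singleton] at hw
    exact hw.resolve_left h1
  rcases K.sgv hd'.2.1 hd'.2.2 with h1 | ⟨-, -, h1⟩
  · exact h1
  exfalso
  rcases h1 with ⟨-, a, b, e1, e2, e3, e4, e5⟩ | ⟨f3, v, q, q', e1, e2, e3, e4, e5⟩
  · rcases K.covT hh hez with h2 | h2 | h2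
    · obtain ⟨w, hw, hwe, hn⟩ := h2
      rw [hoth w hw hwe] at hn
      have h3 : e ∈ G.pT F d := mem_inter.2 ⟨hn, he'.2.1⟩
      rw [e4, mem_singleton] at h3
      rw [h3] at he'
      exact e5.1 he'.2.2
    · obtain ⟨a', ha', b', hb', hbe, hHL⟩ := h2
      rw [hoth b' hb' hbe] at hHL
      have h3 : a' ∈ G.pT F d := mem_inter.2 ⟨G.sym _ _ (HL_b76 hHL), (mem_Tz28.1 ha').2⟩
      rw [e4, mem_singleton] at h3
      rw [h3] at hHL
      exact (stTwHL_5 G).nomut K.n9 _ _ _ _ _ e1 hHL rfl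
    · obtain ⟨a', ha', b', hb', hae, hLL⟩ := h2
      rw [hoth a' ha' hae] at hLL
      have h3 : b' ∈ G.pT F d := mem_inter.2 ⟨LL_ab76 hLL, (mem_sdiff.1 hb').1⟩
      rw [e4, mem_singleton] at h3
      rw [h3] at hLL
      exact e5.1 hLL.2.1
  · have hvF : v ∈ G.nb d := by
      have h3 : v ∈ G.pT F d := by rw [e2]; simp
      exact (mem_inter.1 h3).1
    rcases K.covT hh hez with h2 | h2 | h2
    · obtain ⟨w, hw, hwe, hn⟩ := h2
      rw [hoth w hw hwe] at hn
      have h3 : e ∈ G.pT F d := mem_inter.2 ⟨hn, he'.2.1⟩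
      rw [e2, mem_singleton] at h3
      have hq : q ∈ G.pO F d := by rw [e4]; simp
      have hq' : q' ∈ G.pO F d := by rw [e4]; simp
      have hqn : q ∈ G.nb e := by rw [h3]; exact e5
      have hq'n : q' ∈ G.nb e := by
        refine G.sym _ _ (Tw_nb5 e3 (G.sym _ _ hqn) ?_)
        rintro rfl
        exact tw_not_low11 ⟨q, (stTwHL_5 G).symm _ _ e3⟩ he'.2.2
      have hs : ({q, q'} : Finset V) ⊆ G.nb e ∩ G.Co F := by
        intro x hx
        rw [mem_insert, mem_singleton] at hx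
        rcases hx with rfl | rfl
        · exact mem_inter.2 ⟨hqn, (mem_inter.1 hq).2⟩
        · exact mem_inter.2 ⟨hq'n, (mem_inter.1 hq').2⟩
      have h5 := card_le_card hs
      rw [card_pair (ne_of_nb5 e3.1)] at h5
      have h6 : (G.nb e).card = 6 := he'.2.2
      have h7 : (G.nb e ∩ G.Co F) ∪ ((G.nb e ∩ F) ∪ (G.nb e ∩ G.N F)) ⊆ G.nb e := by
        intro x hx
        simp only [mem_union, mem_inter] at hx
        tauto
      have h8 := card_le_card h7
      have d1 : Disjoint (G.nb e ∩ F) (G.nb e ∩ G.N F) := by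
        rw [disjoint_left]
        intro x hx hx'
        exact (mem_N76.1 (mem_inter.1 hx').2).1 (mem_inter.1 hx).2
      have d2 : Disjoint (G.nb e ∩ G.Co F) ((G.nb e ∩ F) ∪ (G.nb e ∩ G.N F)) := by
        rw [disjoint_left]
        intro x hx hx'
        have h9 := mem_Co76.1 (mem_inter.1 hx).2
        rcases mem_union.1 hx' with h10 | h10
        · exact h9.1 (mem_inter.1 h10).2
        · exact h9.2 (mem_inter.1 h10).2
      rw [card_union_of_disjoint d2, card_union_of_disjoint d1] at h8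
      have h9 : (G.nb e ∩ F).card = 2 := he2
      have h10 : (G.nb e ∩ G.N F).card = 3 := he3
      omega
    · obtain ⟨a', ha', b', hb', hbe, hHL⟩ := h2
      rw [hoth b' hb' hbe] at hHL
      have h3 : a' ∈ G.pT F d := mem_inter.2 ⟨G.sym _ _ (HL_b76 hHL), (mem_Tz28.1 ha').2⟩
      rw [e2, mem_singleton] at h3
      rw [h3] at hHL
      exact HL_not_low76 hHL e1
    · obtain ⟨a', ha', b', hb', hae, hLL⟩ := h2
      rw [hoth a' ha' hae] at hLL
      have h3 : b' ∈ G.pT F d := mem_inter.2 ⟨LL_ab76 hLL, (mem_sdiff.1 hb').1⟩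
      rw [e2, mem_singleton] at h3
      rw [h3] at hLL
      -- `LL d v h e`
      rcases K.covT hh hdz with k2 | k2 | k2
      · obtain ⟨w, hw, hwd, hn⟩ := k2
        rw [hoth' w hw hwd] at hn
        have h4 : e ∈ G.pT F d := mem_inter.2 ⟨G.sym _ _ hn, he'.2.1⟩
        rw [e2, mem_singleton] at h4
        rw [h4] at hLL
        exact G.irr _ (LL_u76 hLL)
      · obtain ⟨a3, ha3, b3, hb3, hbd, hHL⟩ := k2
        have h4 : a3 ∈ G.pT F d := mem_inter.2 ⟨G.sym _ _ (HL_t76 hHL), (mem_Tz28.1 ha3).2⟩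
        rw [e2, mem_singleton] at h4
        rw [h4] at hHL
        exact HL_not_low76 hHL e1
      · obtain ⟨a3, ha3, b3, hb3, had, hLL'⟩ := k2
        rw [hoth' a3 ha3 had] at hLL'
        have h4 : b3 ∈ G.pT F d := mem_inter.2 ⟨G.sym _ _ (LL_u76 hLL'), (mem_sdiff.1 hb3).1⟩
        rw [e2, mem_singleton] at h4
        rw [h4] at hLL'
        have h5 : insert e (G.cl d) = insert d (G.cl e) :=
          hLL.2.2.2.2.2.2.trans hLL'.2.2.2.2.2.2.symm
        have h6 : G.nb d ∩ F ⊆ G.nb e ∩ F := by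
          intro x hx
          rw [mem_inter] at hx ⊢
          refine ⟨?_, hx.2⟩
          have h7 : x ∈ insert d (G.cl e) := by
            rw [← h5]
            exact mem_insert_of_mem (mem_clT76.2 (Or.inr hx.1))
          rcases mem_insert.1 h7 with h8 | h8
          · rw [h8] at hx
            exact absurd hx.1 (G.irr _)
          · rcases mem_clT76.1 h8 with h9 | h9
            · exact absurd (h9 ▸ hx.2) (mem_N76.1 he'.2.1).1
            · exact h9
        have h7 := card_le_card h6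
        have h8 : (G.nb d ∩ F).card = 3 := f3
        have h9 : (G.nb e ∩ F).card = 2 := he2
        omega

/-- the pair sum with a low `(2; 3; 1)` -/
theorem ty31 (K : H5c G F) {h d e : V} (hh : h ∈ F) (hne : d ≠ e) (hD : D G F h = {d, e})
    (hd1 : (G.pT F d).card = 1) (he3 : (G.pT F e).card = 3) :
    42 ≤ Wh G F h ∨ (TyD G F h d e ∧ 40 ≤ Wh G F h) := by
  have hd : d ∈ D G F h := by rw [hD]; simp
  have he : e ∈ D G F h := by rw [hD]; simp
  have hd' := mem_D.1 hd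
  have he' := mem_D.1 he
  have fd := K.fr hd'.2.1 hd'.2.2
  have fe := K.fr he'.2.1 he'.2.2
  have he2 : G.d e F = 2 := by omega
  have hs := K.noS hh hD he2 he3
  have hse : sg G F e = 0 := K.sg0 he'.2.1 he'.2.2 (by omega)
  have hF := K.cntF hh
  rw [hD, sum_pair hne, hd1, he3, he2] at hF
  push_cast at hF
  have hfd : 3 ≤ G.d d F := by
    have : (3 : ℤ) ≤ (G.d d F : ℤ) := by linarith
    exact_mod_cast this
  have hW : Wh G F h = om G F d + om G F e := by
    unfold Wh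
    rw [hD, sum_pair hne]
  have hoe : om G F e = 24 := by
    unfold om Xv
    rw [if_pos he2, he2, he3, hse]
    norm_num
  by_cases h3 : G.d d F = 3
  · right
    refine ⟨⟨hne, hD, h3, hd1, he2, he3⟩, ?_⟩
    have hod : om G F d = 16 := by
      unfold om Xv
      rw [if_neg (by omega), if_pos h3, h3, hd1, hs]
      norm_num
    rw [hW, hoe, hod]
    norm_num
  · left
    have h4 : G.d d F = 4 := by omega
    have hod : om G F d = 18 := by
      unfold om Xv
      rw [if_neg (by omega), if_neg h3, h4, hd1, hs]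
      norm_num
    rw [hW, hoe, hod]
    norm_num

/-- the pair sum with two lows with two neighbours in `N F` -/
theorem ty22 (K : H5c G F) {h d e : V} (hh : h ∈ F) (hne : d ≠ e) (hD : D G F h = {d, e})
    (hd2 : (G.pT F d).card = 2) (he2 : (G.pT F e).card = 2) :
    (TyA G F h d e ∧ 38 ≤ Wh G F h) ∨ (TyA G F h e d ∧ 38 ≤ Wh G F h) ∨
      (TyB G F h d e ∧ 40 ≤ Wh G F h) := by
  have hd : d ∈ D G F h := by rw [hD]; simp
  have he : e ∈ D G F h := by rw [hD]; simp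
  have hd' := mem_D.1 hd
  have he' := mem_D.1 he
  have fd := K.fr hd'.2.1 hd'.2.2
  have fe := K.fr he'.2.1 he'.2.2
  have hsd : sg G F d = 0 := K.sg0 hd'.2.1 hd'.2.2 (by omega)
  have hse : sg G F e = 0 := K.sg0 he'.2.1 he'.2.2 (by omega)
  have hF := K.cntF hh
  rw [hD, sum_pair hne, hd2, he2] at hF
  push_cast at hF
  have hfd : 5 ≤ G.d d F + G.d e F := by
    have : (5 : ℤ) ≤ (G.d d F : ℤ) + (G.d e F : ℤ) := by linarith
    exact_mod_cast this
  have hW : Wh G F h = om G F d + om G F e := by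
    unfold Wh
    rw [hD, sum_pair hne]
  have o3 : ∀ w, G.d w F = 3 → (G.pT F w).card = 2 → sg G F w = 0 → om G F w = 20 := by
    intro w h1 h2 h3
    unfold om Xv
    rw [if_neg (by omega), if_pos h1, h1, h2, h3]
    norm_num
  have o2 : ∀ w, G.d w F = 2 → (G.pT F w).card = 2 → sg G F w = 0 → om G F w = 18 := by
    intro w h1 h2 h3
    unfold om Xv
    rw [if_pos h1, h1, h2, h3]
    norm_num
  have hc : (G.d d F = 3 ∧ G.d e F = 2) ∨ (G.d d F = 2 ∧ G.d e F = 3) ∨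
      (G.d d F = 3 ∧ G.d e F = 3) := by omega
  rcases hc with ⟨c1, c2⟩ | ⟨c1, c2⟩ | ⟨c1, c2⟩
  · refine Or.inl ⟨⟨hne, hD, c1, hd2, c2, he2⟩, ?_⟩
    rw [hW, o3 d c1 hd2 hsd, o2 e c2 he2 hse]
    norm_num
  · refine Or.inr (Or.inl ⟨⟨hne.symm, by rw [hD, pair_comm], c2, he2, c1, hd2⟩, ?_⟩)
    rw [hW, o2 d c1 hd2 hsd, o3 e c2 he2 hse]
    norm_num
  · refine Or.inr (Or.inr ⟨⟨hne, hD, c1, hd2, c2, he2⟩, ?_⟩)
    rw [hW, o3 d c1 hd2 hsd, o3 e c2 he2 hse]
    norm_num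

/-- the shares -/
theorem types (K : H5c G F) {h : V} (hh : h ∈ F) :
    42 ≤ Wh G F h ∨ (∃ p e, TyA G F h p e ∧ 38 ≤ Wh G F h) ∨
      (∃ p e, TyB G F h p e ∧ 40 ≤ Wh G F h) ∨ (∃ p e, TyD G F h p e ∧ 40 ≤ Wh G F h) := by
  have h4 : (4 : ℤ) ≤ ((G.Tz F h).card : ℤ) := by exact_mod_cast K.tz4 hh
  have h1 := K.cntT hh
  have h2 := K.two hh
  have h3 : 6 * (((D G F h).card : ℤ) + ∑ w ∈ D G F h, ((G.pT F w).card : ℤ)) ≤ Wh G F h := by
    have e1 : ((D G F h).card : ℤ) = ∑ _w ∈ D G F h, 1 := by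
      rw [sum_const, nsmul_eq_mul, mul_one]
    rw [e1, ← sum_add_distrib, mul_sum]
    unfold Wh
    refine sum_le_sum fun w hw => ?_
    rw [mem_D] at hw
    exact K.om6 hw.2.1 hw.2.2
  by_cases h5 : 42 ≤ Wh G F h
  · exact Or.inl h5
  right
  have h6 : ((D G F h).card : ℤ) + ∑ w ∈ D G F h, ((G.pT F w).card : ℤ) ≤ 6 := by omega
  have h7 : (D G F h).card = 2 := by
    have : ((D G F h).card : ℤ) ≤ 2 := by linarith
    have h8 : (D G F h).card ≤ 2 := by exact_mod_cast this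
    omega
  obtain ⟨d, e, hne, hD⟩ := card_eq_two.1 h7
  have hd : d ∈ D G F h := by rw [hD]; simp
  have he : e ∈ D G F h := by rw [hD]; simp
  have hd' := mem_D.1 hd
  have he' := mem_D.1 he
  have fd := K.fr hd'.2.1 hd'.2.2
  have fe := K.fr he'.2.1 he'.2.2
  rw [h7, hD, sum_pair hne] at h6
  rw [hD, sum_pair hne] at h1
  push_cast at h6
  have h8 : (G.pT F d).card + (G.pT F e).card = 4 := by
    have : ((G.pT F d).card : ℤ) + ((G.pT F e).card : ℤ) = 4 := by linarith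
    exact_mod_cast this
  have h9 : ((G.pT F d).card = 1 ∧ (G.pT F e).card = 3) ∨
      ((G.pT F d).card = 3 ∧ (G.pT F e).card = 1) ∨
      ((G.pT F d).card = 2 ∧ (G.pT F e).card = 2) := by omega
  rcases h9 with ⟨c1, c2⟩ | ⟨c1, c2⟩ | ⟨c1, c2⟩
  · rcases K.ty31 hh hne hD c1 c2 with h10 | h10
    · exact absurd h10 h5
    · exact Or.inr (Or.inr ⟨d, e, h10⟩)
  · rcases K.ty31 hh hne.symm (by rw [hD, pair_comm]) c2 c1 with h10 | h10
    · exact absurd h10 h5
    · exact Or.inr (Or.inr ⟨e, d, h10⟩)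
  · rcases K.ty22 hh hne hD c1 c2 with h10 | h10 | h10
    · exact Or.inl ⟨d, e, h10⟩
    · exact Or.inl ⟨e, d, h10⟩
    · exact Or.inr (Or.inl ⟨d, e, h10⟩)

/-! ### some share is at least 42 -/

/-- `p1 = p2` -/
theorem peq {h1 h2 h3 h4 p1 e1 p2 e2 p3 e3 : V} (hF : F = {h1, h2, h3, h4})
    (m1 : h1 ∈ F) (m2 : h2 ∈ F) (m3 : h3 ∈ F)
    (t1 : TyA G F h1 p1 e1) (t2 : TyA G F h2 p2 e2) (t3 : TyA G F h3 p3 e3) : p1 = p2 := by
  by_contra hne
  -- a low with three neighbours in `D h` is the first one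
  have key : ∀ {h p e w : V}, TyA G F h p e → h ∈ F → w ∈ G.N F → G.Low w → G.d w F = 3 →
      h ∈ G.nb w → w = p := by
    intro h p e w t hh hw hl hd hn
    have h5 : w ∈ D G F h := mem_D.2 ⟨G.sym _ _ hn, hw, hl⟩
    rw [t.2.1, mem_insert, mem_singleton] at h5
    rcases h5 with h5 | h5
    · exact h5
    · rw [h5] at hd
      have := t.2.2.2.2.1
      omega
  have q1 : p1 ∈ D G F h1 := by rw [t1.2.1]; simp
  have q2 : p2 ∈ D G F h2 := by rw [t2.2.1]; simp
  rw [mem_D] at q1 q2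
  have d1 : G.d p1 F = 3 := t1.2.2.1
  have d2 : G.d p2 F = 3 := t2.2.2.1
  have n12 : h2 ∉ G.nb p1 := fun h => hne (key t2 m2 q1.2.1 q1.2.2 d1 h)
  have n21 : h1 ∉ G.nb p2 := fun h => hne (key t1 m1 q2.2.1 q2.2.2 d2 h).symm
  have n13 : h3 ∈ G.nb p1 := by
    by_contra h5
    have h6 : G.nb p1 ∩ F ⊆ {h1, h4} := by
      intro x hx
      rw [mem_inter, hF] at hx
      simp only [mem_insert, mem_singleton] at hx ⊢
      rcases hx.2 with rfl | rfl | rfl | rfl
      · exact Or.inl rfl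
      · exact absurd hx.1 n12
      · exact absurd hx.1 h5
      · exact Or.inr rfl
    have h7 := card_le_card h6
    have h8 := card_le_two (a := h1) (b := h4)
    have h9 : (G.nb p1 ∩ F).card = 3 := d1
    omega
  have n23 : h3 ∈ G.nb p2 := by
    by_contra h5
    have h6 : G.nb p2 ∩ F ⊆ {h2, h4} := by
      intro x hx
      rw [mem_inter, hF] at hx
      simp only [mem_insert, mem_singleton] at hx ⊢
      rcases hx.2 with rfl | rfl | rfl | rfl
      · exact absurd hx.1 n21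
      · exact Or.inl rfl
      · exact absurd hx.1 h5
      · exact Or.inr rfl
    have h7 := card_le_card h6
    have h8 := card_le_two (a := h2) (b := h4)
    have h9 : (G.nb p2 ∩ F).card = 3 := d2
    omega
  have r1 := key t3 m3 q1.2.1 q1.2.2 d1 n13
  have r2 := key t3 m3 q2.2.1 q2.2.2 d2 n23
  exact hne (r1.trans r2.symm)

/-- `e1 ≠ e2` -/
theorem ene (K : H5c G F) {h1 h2 h3 h4 p e1 e2 e3 : V} (hF : F = {h1, h2, h3, h4})
    (c12 : h1 ≠ h2) (c13 : h1 ≠ h3) (c14 : h1 ≠ h4) (c23 : h2 ≠ h3) (c24 : h2 ≠ h4)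
    (t1 : TyA G F h1 p e1) (t2 : TyA G F h2 p e2) (t3 : TyA G F h3 p e3)
    (hp : h4 ∉ G.nb p) : e1 ≠ e2 := by
  intro he
  have m1 : h1 ∈ F := by rw [hF]; simp
  have m2 : h2 ∈ F := by rw [hF]; simp
  have m3 : h3 ∈ F := by rw [hF]; simp
  have m4 : h4 ∈ F := by rw [hF]; simp
  have q1 : e1 ∈ D G F h1 := by rw [t1.2.1]; simp
  have q2 : e2 ∈ D G F h2 := by rw [t2.2.1]; simp
  rw [mem_D] at q1 q2
  rw [← he] at q2
  have d1 : (G.nb e1 ∩ F).card = 2 := t1.2.2.2.2.1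
  have h5 : ({h1, h2} : Finset V) ⊆ G.nb e1 ∩ F := by
    intro x hx
    rw [mem_insert, mem_singleton] at hx
    rcases hx with rfl | rfl
    · exact mem_inter.2 ⟨G.sym _ _ q1.1, m1⟩
    · exact mem_inter.2 ⟨G.sym _ _ q2.1, m2⟩
  have h6 : ({h1, h2} : Finset V) = G.nb e1 ∩ F := by
    apply eq_of_subset_of_card_le h5
    rw [d1, card_pair c12]
  have n4 : h4 ∉ G.nb e1 := by
    intro h7
    have h8 : h4 ∈ ({h1, h2} : Finset V) := by rw [h6]; exact mem_inter.2 ⟨h7, m4⟩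
    rw [mem_insert, mem_singleton] at h8
    rcases h8 with h8 | h8
    · exact c14 h8.symm
    · exact c24 h8.symm
  have h7 : D G F h4 ⊆ {e3} := by
    intro w hw
    rw [mem_singleton]
    have hw' := mem_D.1 hw
    have hwp : w ≠ p := by
      rintro rfl
      exact hp (G.sym _ _ hw'.1)
    have hwe : w ≠ e1 := by
      rintro rfl
      exact n4 (G.sym _ _ hw'.1)
    by_contra hw3
    have k1 : h1 ∉ G.nb w := by
      intro h8
      have h9 : w ∈ D G F h1 := mem_D.2 ⟨G.sym _ _ h8, hw'.2.1, hw'.2.2⟩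
      rw [t1.2.1, mem_insert, mem_singleton] at h9
      rcases h9 with h9 | h9
      · exact hwp h9
      · exact hwe h9
    have k2 : h2 ∉ G.nb w := by
      intro h8
      have h9 : w ∈ D G F h2 := mem_D.2 ⟨G.sym _ _ h8, hw'.2.1, hw'.2.2⟩
      rw [t2.2.1, mem_insert, mem_singleton, ← he] at h9
      rcases h9 with h9 | h9
      · exact hwp h9
      · exact hwe h9
    have k3 : h3 ∉ G.nb w := by
      intro h8
      have h9 : w ∈ D G F h3 := mem_D.2 ⟨G.sym _ _ h8, hw'.2.1, hw'.2.2⟩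
      rw [t3.2.1, mem_insert, mem_singleton] at h9
      rcases h9 with h9 | h9
      · exact hwp h9
      · exact hw3 h9
    have k4 : G.nb w ∩ F ⊆ {h4} := by
      intro x hx
      rw [mem_inter, hF] at hx
      simp only [mem_insert, mem_singleton] at hx ⊢
      rcases hx.2 with rfl | rfl | rfl | rfl
      · exact absurd hx.1 k1
      · exact absurd hx.1 k2
      · exact absurd hx.1 k3
      · rfl
    have k5 := card_le_card k4
    rw [card_singleton] at k5
    have k6 := (K.fr hw'.2.1 hw'.2.2).1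
    have k7 : (G.nb w ∩ F).card = G.d w F := rfl
    omega
  have h8 := card_le_card h7
  rw [card_singleton] at h8
  have h9 := K.two m4
  omega

/-- three vertices of type A -/
theorem threeA (K : H5c G F) {h1 h2 h3 h4 p1 e1 p2 e2 p3 e3 : V} (hF : F = {h1, h2, h3, h4})
    (c12 : h1 ≠ h2) (c13 : h1 ≠ h3) (c14 : h1 ≠ h4) (c23 : h2 ≠ h3) (c24 : h2 ≠ h4)
    (c34 : h3 ≠ h4)
    (t1 : TyA G F h1 p1 e1) (t2 : TyA G F h2 p2 e2) (t3 : TyA G F h3 p3 e3) :
    14 ≤ ∑ w ∈ (G.N F).filter (fun w => G.Low w), Xv G F w := by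
  classical
  have m1 : h1 ∈ F := by rw [hF]; simp
  have m2 : h2 ∈ F := by rw [hF]; simp
  have m3 : h3 ∈ F := by rw [hF]; simp
  have m4 : h4 ∈ F := by rw [hF]; simp
  have F2 : F = {h2, h3, h1, h4} := by
    rw [hF]
    ext x
    simp only [mem_insert, mem_singleton]
    tauto
  have F3 : F = {h1, h3, h2, h4} := by
    rw [hF]
    ext x
    simp only [mem_insert, mem_singleton]
    tauto
  have e12 : p1 = p2 := peq hF m1 m2 m3 t1 t2 t3
  have e23 : p2 = p3 := peq F2 m2 m3 m1 t2 t3 t1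
  rw [← e23, ← e12] at t3
  rw [← e12] at t2
  have q1 : p1 ∈ D G F h1 := by rw [t1.2.1]; simp
  have q2 : p1 ∈ D G F h2 := by rw [t2.2.1]; simp
  have q3 : p1 ∈ D G F h3 := by rw [t3.2.1]; simp
  have r1 : e1 ∈ D G F h1 := by rw [t1.2.1]; simp
  have r2 : e2 ∈ D G F h2 := by rw [t2.2.1]; simp
  have r3 : e3 ∈ D G F h3 := by rw [t3.2.1]; simp
  rw [mem_D] at q1 q2 q3 r1 r2 r3
  have dp : (G.nb p1 ∩ F).card = 3 := t1.2.2.1
  have hs : ({h1, h2, h3} : Finset V) ⊆ G.nb p1 ∩ F := by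
    intro x hx
    simp only [mem_insert, mem_singleton] at hx
    rcases hx with rfl | rfl | rfl
    · exact mem_inter.2 ⟨G.sym _ _ q1.1, m1⟩
    · exact mem_inter.2 ⟨G.sym _ _ q2.1, m2⟩
    · exact mem_inter.2 ⟨G.sym _ _ q3.1, m3⟩
  have c3 : ({h1, h2, h3} : Finset V).card = 3 := by
    rw [card_insert_of_notMem (by simp [c12, c13]), card_pair c23]
  have hs' : ({h1, h2, h3} : Finset V) = G.nb p1 ∩ F := by
    apply eq_of_subset_of_card_le hs
    rw [dp, c3]
  have hp : h4 ∉ G.nb p1 := by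
    intro h5
    have h6 : h4 ∈ ({h1, h2, h3} : Finset V) := by rw [hs']; exact mem_inter.2 ⟨h5, m4⟩
    simp only [mem_insert, mem_singleton] at h6
    rcases h6 with h6 | h6 | h6
    · exact c14 h6.symm
    · exact c24 h6.symm
    · exact c34 h6.symm
  have n12 : e1 ≠ e2 := K.ene hF c12 c13 c14 c23 c24 t1 t2 t3 hp
  have n23 : e2 ≠ e3 := K.ene F2 c23 c12.symm c24 c13.symm c34 t2 t3 t1 hp
  have n13 : e1 ≠ e3 := K.ene F3 c13 c12 c14 c23.symm c34 t1 t3 t2 hp
  have x3 : ∀ {h p e : V}, TyA G F h p e → Xv G F p = 5 ∧ Xv G F e = 3 := by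
    intro h p e t
    obtain ⟨a1, a2, a3, a4, a5, a6⟩ := t
    have b1 : p ∈ D G F h := by rw [a2]; simp
    have b2 : e ∈ D G F h := by rw [a2]; simp
    rw [mem_D] at b1 b2
    have s1 : sg G F p = 0 := K.sg0 b1.2.1 b1.2.2 (by omega)
    have s2 : sg G F e = 0 := K.sg0 b2.2.1 b2.2.2 (by omega)
    constructor
    · unfold Xv
      rw [a3, a4, s1]
      norm_num
    · unfold Xv
      rw [a5, a6, s2]
      norm_num
  have hsub : ({p1, e1, e2, e3} : Finset V) ⊆ (G.N F).filter (fun w => G.Low w) := by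
    intro x hx
    simp only [mem_insert, mem_singleton] at hx
    rw [mem_filter]
    rcases hx with rfl | rfl | rfl | rfl
    · exact ⟨q1.2.1, q1.2.2⟩
    · exact ⟨r1.2.1, r1.2.2⟩
    · exact ⟨r2.2.1, r2.2.2⟩
    · exact ⟨r3.2.1, r3.2.2⟩
  have hge := sum_le_sum_of_subset_of_nonneg (f := fun w => Xv G F w) hsub (fun w hw _ => by
    rw [mem_filter] at hw
    exact K.X0 hw.1 hw.2)
  have hsum : ∑ w ∈ ({p1, e1, e2, e3} : Finset V), Xv G F w = 14 := by
    rw [sum_insert (by simp [t1.1, t2.1, t3.1]), sum_insert (by simp [n12, n13]),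
      sum_pair n23, (x3 t1).1, (x3 t1).2, (x3 t2).2, (x3 t3).2]
    norm_num
  rw [hsum] at hge
  exact hge

/-! ### all shares are less than 42 -/

/-- the last case -/
theorem allTy (K : H5c G F)
    (hT : ∀ h ∈ F, ∃ p e, TyA G F h p e ∨ TyB G F h p e ∨ TyD G F h p e) : False := by
  classical
  have hbasic : ∀ h ∈ F, ∃ p e, p ≠ e ∧ D G F h = {p, e} ∧ G.d p F = 3 := by
    intro h hh
    obtain ⟨p, e, h1 | h1 | h1⟩ := hT h hh
    · exact ⟨p, e, h1.1, h1.2.1, h1.2.2.1⟩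
    · exact ⟨p, e, h1.1, h1.2.1, h1.2.2.1⟩
    · exact ⟨p, e, h1.1, h1.2.1, h1.2.2.1⟩
  -- a vertex missed by a low with three neighbours
  have miss : ∀ w, G.d w F = 3 → ∃ x ∈ F, x ∉ G.nb w := by
    intro w hw
    by_contra hcon
    have h5 : F ⊆ G.nb w := by
      intro z hz
      by_contra h6
      exact hcon ⟨z, hz, h6⟩
    unfold d at hw
    rw [inter_eq_right.2 h5, K.c] at hw
    omega
  -- a low with three neighbours has no other missed vertex
  have miss1 : ∀ w x, G.d w F = 3 → x ∈ F → x ∉ G.nb w → ∀ y ∈ F, y ≠ x → y ∈ G.nb w := by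
    intro w x hw hx hxw y hy hyx
    by_contra hyw
    have h1 : G.nb w ∩ F ⊆ (F.erase x).erase y := by
      intro z hz
      rw [mem_inter] at hz
      refine mem_erase.2 ⟨?_, mem_erase.2 ⟨?_, hz.2⟩⟩
      · rintro rfl
        exact hyw hz.1
      · rintro rfl
        exact hxw hz.1
    have h2 := card_le_card h1
    rw [card_erase_of_mem (mem_erase.2 ⟨hyx, hy⟩), card_erase_of_mem hx, K.c] at h2
    have h3 : (G.nb w ∩ F).card = 3 := hw
    omega
  -- the sum of the degrees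
  have hsum8 : ∑ w ∈ (G.N F).filter (fun w => G.Low w), (G.d w F : ℤ) = 8 := by
    have h1 := swapD G F (fun _ => 1)
    have h2 : ∀ z ∈ F, ∑ _w ∈ D G F z, (1 : ℤ) = 2 := by
      intro z hz
      obtain ⟨p, e, h3, h4, -⟩ := hbasic z hz
      rw [h4, sum_pair h3]
      norm_num
    rw [sum_congr rfl h2, sum_const, K.c] at h1
    simp only [mul_one] at h1
    rw [← h1]
    norm_num
  have hFne : F.Nonempty := by
    rw [← card_pos, K.c]
    norm_num
  obtain ⟨h0, hh0⟩ := hFne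
  obtain ⟨p, e00, hp0, hD0, dp⟩ := hbasic h0 hh0
  have hpD : p ∈ D G F h0 := by rw [hD0]; simp
  have hp := (mem_D.1 hpD).2
  obtain ⟨x, hx, hxp⟩ := miss p dp
  have hT' := hT x hx
  obtain ⟨p', e0, hty⟩ := hT'
  have hx3 : p' ≠ e0 ∧ D G F x = {p', e0} ∧ G.d p' F = 3 := by
    rcases hty with h1 | h1 | h1
    · exact ⟨h1.1, h1.2.1, h1.2.2.1⟩
    · exact ⟨h1.1, h1.2.1, h1.2.2.1⟩
    · exact ⟨h1.1, h1.2.1, h1.2.2.1⟩
  obtain ⟨hpe, hDx, dp'⟩ := hx3
  have hp'D : p' ∈ D G F x := by rw [hDx]; simp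
  have he0D : e0 ∈ D G F x := by rw [hDx]; simp
  have hp' := mem_D.1 hp'D
  have he0 := mem_D.1 he0D
  have hpp' : p ≠ p' := by
    rintro rfl
    exact hxp (G.sym _ _ hp'.1)
  have hpe0 : p ≠ e0 := by
    rintro rfl
    exact hxp (G.sym _ _ he0.1)
  -- no fifth low
  have hno : ∀ b, b ∈ G.N F → G.Low b → b = p ∨ b = p' ∨ b = e0 := by
    intro b hb hbl
    by_contra hcon
    rw [not_or, not_or] at hcon
    have hsub : ({p', e0, p, b} : Finset V) ⊆ (G.N F).filter (fun w => G.Low w) := by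
      intro y hy
      simp only [mem_insert, mem_singleton] at hy
      rw [mem_filter]
      rcases hy with rfl | rfl | rfl | rfl
      · exact hp'.2
      · exact he0.2
      · exact hp
      · exact ⟨hb, hbl⟩
    have h1 := sum_le_sum_of_subset_of_nonneg (f := fun w => (G.d w F : ℤ)) hsub
      (fun w _ _ => Int.natCast_nonneg _)
    rw [sum_insert (by simp [hpe, hpp'.symm, Ne.symm hcon.2.1]),
      sum_insert (by simp [hpe0.symm, Ne.symm hcon.2.2]), sum_pair (Ne.symm hcon.1), hsum8,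
      dp, dp'] at h1
    have h2 := (K.fr he0.2.1 he0.2.2).1
    have h3 := (K.fr hb hbl).1
    have h4 : (2 : ℤ) ≤ (G.d e0 F : ℤ) := by exact_mod_cast h2
    have h5 : (2 : ℤ) ≤ (G.d b F : ℤ) := by exact_mod_cast h3
    push_cast at h1
    linarith
  -- another vertex
  obtain ⟨x', hx', hxp'⟩ := miss p' dp'
  have hxx' : x' ≠ x := by
    rintro rfl
    exact hxp' (G.sym _ _ hp'.1)
  obtain ⟨y, hy, hyx, hyx'⟩ : ∃ y ∈ F, y ≠ x ∧ y ≠ x' := by
    have h1 : ((F.erase x).erase x').card = 2 := by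
      rw [card_erase_of_mem (mem_erase.2 ⟨hxx', hx'⟩), card_erase_of_mem hx, K.c]
    have h2 : ((F.erase x).erase x').Nonempty := by
      rw [← card_pos, h1]
      norm_num
    obtain ⟨y, hy⟩ := h2
    rw [mem_erase, mem_erase] at hy
    exact ⟨y, hy.2.2, hy.2.1, hy.1⟩
  have hyp : y ∈ G.nb p := miss1 p x dp hx hxp y hy hyx
  have hyp' : y ∈ G.nb p' := miss1 p' x' dp' hx' hxp' y hy hyx'
  have hpy : p ∈ D G F y := mem_D.2 ⟨G.sym _ _ hyp, hp.1, hp.2⟩
  have hp'y : p' ∈ D G F y := mem_D.2 ⟨G.sym _ _ hyp', hp'.2.1, hp'.2.2⟩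
  have hDy : D G F y = {p, p'} := by
    obtain ⟨a, b, h1, h2, -⟩ := hbasic y hy
    symm
    apply eq_of_subset_of_card_le
    · intro z hz
      rw [mem_insert, mem_singleton] at hz
      rcases hz with rfl | rfl
      · exact hpy
      · exact hp'y
    · rw [h2, card_pair h1, card_pair hpp']
  have htp' : (G.pT F p').card = 2 := by
    obtain ⟨a, b, h1⟩ := hT y hy
    have hp'ab : p' = a ∨ p' = b := by
      have h2 : D G F y = {a, b} := by
        rcases h1 with h1 | h1 | h1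
        · exact h1.2.1
        · exact h1.2.1
        · exact h1.2.1
      rw [h2, mem_insert, mem_singleton] at hp'y
      exact hp'y
    have hpab : p = a ∨ p = b := by
      have h2 : D G F y = {a, b} := by
        rcases h1 with h1 | h1 | h1
        · exact h1.2.1
        · exact h1.2.1
        · exact h1.2.1
      rw [h2, mem_insert, mem_singleton] at hpy
      exact hpy
    have hb3 : G.d b F = 3 := by
      rcases hp'ab with h2 | h2
      · rcases hpab with h3 | h3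
        · exact absurd (h3.trans h2.symm) hpp'
        · rw [← h3]
          exact dp
      · rw [← h2]
        exact dp'
    rcases h1 with ⟨a1, a2, a3, a4, a5, a6⟩ | ⟨a1, a2, a3, a4, a5, a6⟩ | ⟨a1, a2, a3, a4, a5, a6⟩
    · omega
    · rcases hp'ab with h2 | h2
      · rw [h2]
        exact a4
      · rw [h2]
        exact a6
    · omega
  have hte : (G.pT F e0).card ≤ 2 := by
    rcases hty with ⟨a1, a2, a3, a4, a5, a6⟩ | ⟨a1, a2, a3, a4, a5, a6⟩ | ⟨a1, a2, a3, a4, a5, a6⟩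
    · omega
    · omega
    · omega
  have hde : G.d e0 F ≤ 3 := by
    rcases hty with ⟨a1, a2, a3, a4, a5, a6⟩ | ⟨a1, a2, a3, a4, a5, a6⟩ | ⟨a1, a2, a3, a4, a5, a6⟩
    · omega
    · omega
    · omega
  -- a neighbour of `p'` outside `Tz F x`
  have hstar : ∃ b ∈ G.pT F p', b ∉ G.nb x := by
    by_cases hadj : p ∈ G.nb p'
    · exact ⟨p, mem_inter.2 ⟨hadj, hp.1⟩, fun h => hxp (G.sym _ _ h)⟩
    · have hp'z : p' ∈ G.Tz F y := mem_Tz28.2 ⟨G.sym _ _ hyp', hp'.2.1⟩
      have hoth : ∀ w ∈ D G F y, w ≠ p' → w = p := by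
        intro w hw h1
        rw [hDy, mem_insert, mem_singleton] at hw
        exact hw.resolve_right h1
      rcases K.covT hy hp'z with h2 | h2 | h2
      · obtain ⟨w, hw, hwe, hn⟩ := h2
        rw [hoth w hw hwe] at hn
        exact absurd (G.sym _ _ hn) hadj
      · obtain ⟨a, ha, b, hb, hbe, hHL⟩ := h2
        rw [hoth b hb hbe] at hHL
        refine ⟨a, mem_inter.2 ⟨G.sym _ _ (HL_t76 hHL), (mem_Tz28.1 ha).2⟩, fun h => ?_⟩
        have hxp2 : x ≠ p' := by
          rintro rfl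
          exact (mem_N76.1 hp'.2.1).1 hx
        rcases HL_sup76 hHL (G.sym _ _ h) hxp2 with h3 | h3
        · rw [h3] at hx
          exact (mem_N76.1 hp.1).1 hx
        · exact hxp h3
      · obtain ⟨a, ha, b, hb, hae, hLL⟩ := h2
        rw [hoth a ha hae] at hLL
        exfalso
        have hbN := mem_sdiff.1 hb
        have hbe0 : b = e0 := by
          rcases hno b hbN.1 hLL.2.1 with h3 | h3 | h3
          · exact absurd (h3 ▸ mem_Tz28.2 ⟨G.sym _ _ hyp, hp.1⟩) hbN.2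
          · exact absurd (h3 ▸ hp'z) hbN.2
          · exact h3
        rw [hbe0] at hLL
        have hxp2 : x ≠ p' := by
          rintro rfl
          exact (mem_N76.1 hp'.2.1).1 hx
        rcases LL_from76 hLL (G.sym _ _ he0.1) hxp2 with h3 | h3
        · rw [h3] at hx
          exact (mem_N76.1 hp.1).1 hx
        · exact hxp h3
  -- no `LL` at `x`
  have hLLx : ∀ z ∈ G.Tz F x, ∀ a ∈ G.Tz F x, ∀ b ∈ G.N F \ G.Tz F x, ¬ G.LL a b x z := by
    intro z hz a ha b hb hLL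
    have hbN := mem_sdiff.1 hb
    have hbp : b = p := by
      rcases hno b hbN.1 hLL.2.1 with h3 | h3 | h3
      · exact h3
      · exact absurd (h3 ▸ mem_Tz28.2 ⟨hp'.1, hp'.2.1⟩) hbN.2
      · exact absurd (h3 ▸ mem_Tz28.2 ⟨he0.1, he0.2.1⟩) hbN.2
    rw [hbp] at hLL
    have haD : a ∈ D G F x := mem_D.2 ⟨(mem_Tz28.1 ha).1, (mem_Tz28.1 ha).2, hLL.1⟩
    have hda : G.d a F ≤ 3 := by
      rw [hDx, mem_insert, mem_singleton] at haD
      rcases haD with h3 | h3
      · rw [h3, dp']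
      · rw [h3]
        exact hde
    have hall : F ⊆ G.nb a := by
      intro w hw
      by_cases hwx : w = x
      · rw [hwx]
        exact LL_t76 hLL
      · have hwp := miss1 p x dp hx hxp w hw hwx
        have hwz : w ≠ z := by
          rintro rfl
          exact (mem_N76.1 (mem_Tz28.1 hz).2).1 hw
        rcases LL_from76 hLL hwp hwz with h3 | h3
        · rw [h3] at hw
          exact absurd hw (mem_N76.1 (mem_Tz28.1 ha).2).1
        · exact h3
    have h4 : G.d a F = 4 := by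
      unfold d
      rw [inter_eq_right.2 hall, K.c]
    omega
  have hcnt := K.cntM hx hLLx
  rw [hDx, sum_pair hpe] at hcnt
  have h4 : (4 : ℤ) ≤ ((G.Tz F x).card : ℤ) := by exact_mod_cast K.tz4 hx
  obtain ⟨b, hb, hbx⟩ := hstar
  have h5 : G.pT F p' ∩ G.Tz F x ⊆ (G.pT F p').erase b := by
    intro z hz
    rw [mem_inter] at hz
    refine mem_erase.2 ⟨?_, hz.1⟩
    rintro rfl
    exact hbx (mem_Tz28.1 hz.2).1
  have h6 := card_le_card h5
  rw [card_erase_of_mem hb, htp'] at h6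
  have h7 : (G.pT F e0 ∩ G.Tz F x).card ≤ 2 := (card_le_card inter_subset_left).trans hte
  have h8 : ((G.pT F p' ∩ G.Tz F x).card : ℤ) ≤ 1 := by exact_mod_cast h6
  have h9 : ((G.pT F e0 ∩ G.Tz F x).card : ℤ) ≤ 2 := by exact_mod_cast h7
  linarith

/-- the bound -/
theorem main (K : H5c G F) : 28 ≤ ∑ w ∈ G.N F, G.gam5 F w := by
  classical
  by_contra hcon
  have h1 := K.sumX
  have h2 := K.sumW
  have hN : ∑ w ∈ (G.N F).filter (fun w => G.Low w), Xv G F w ≤ 13 := by omega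
  have hW : ∑ h ∈ F, Wh G F h ≤ 156 := by
    rw [h2]
    linarith
  have h38 : ∀ h ∈ F, 38 ≤ Wh G F h := by
    intro h hh
    rcases K.types hh with h3 | ⟨p, e, h3, h4⟩ | ⟨p, e, h3, h4⟩ | ⟨p, e, h3, h4⟩
    · linarith
    · exact h4
    · linarith
    · linarith
  by_cases hall : ∀ h ∈ F, Wh G F h < 42
  · apply K.allTy
    intro h hh
    rcases K.types hh with h3 | ⟨p, e, h3, h4⟩ | ⟨p, e, h3, h4⟩ | ⟨p, e, h3, h4⟩
    · have := hall h hh
      omega
    · exact ⟨p, e, Or.inl h3⟩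
    · exact ⟨p, e, Or.inr (Or.inl h3)⟩
    · exact ⟨p, e, Or.inr (Or.inr h3)⟩
  · push Not at hall
    obtain ⟨h4, m4, hW4⟩ := hall
    have hc3 : (F.erase h4).card = 3 := by rw [card_erase_of_mem m4, K.c]
    obtain ⟨h1', h2', h3', c12, c13, c23, hE⟩ := card_eq_three.1 hc3
    have e1 : h1' ∈ F.erase h4 := by rw [hE]; simp
    have e2 : h2' ∈ F.erase h4 := by rw [hE]; simp
    have e3 : h3' ∈ F.erase h4 := by rw [hE]; simp
    rw [mem_erase] at e1 e2 e3
    have hF : F = {h1', h2', h3', h4} := by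
      rw [← insert_erase m4, hE]
      ext x
      simp only [mem_insert, mem_singleton]
      tauto
    have hs : ∀ g : V → ℤ, ∑ h ∈ F, g h = g h1' + (g h2' + (g h3' + g h4)) := by
      intro g
      rw [hF, sum_insert (by simp [c12, c13, e1.1]), sum_insert (by simp [c23, e2.1]),
        sum_pair e3.1]
    rw [hs (Wh G F)] at hW
    have w1 := h38 h1' e1.2
    have w2 := h38 h2' e2.2
    have w3 := h38 h3' e3.2
    have tA : ∀ h ∈ F, Wh G F h ≤ 38 → ∃ p e, TyA G F h p e := by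
      intro h hh hle
      rcases K.types hh with h3 | ⟨p, e, h3, h4⟩ | ⟨p, e, h3, h4⟩ | ⟨p, e, h3, h4⟩
      · omega
      · exact ⟨p, e, h3⟩
      · omega
      · omega
    obtain ⟨p1, d1, t1⟩ := tA h1' e1.2 (by linarith)
    obtain ⟨p2, d2, t2⟩ := tA h2' e2.2 (by linarith)
    obtain ⟨p3, d3, t3⟩ := tA h3' e3.2 (by linarith)
    have := K.threeA hF c12 c13 e1.1 c23 e2.1 e3.1 t1 t2 t3
    omega

end H5c

/-- H5 -/
theorem st6HHHH_28 (G : CG V) (hBas : G.StLBas) (hB : G.StLB) (hCnt : G.StLCnt) :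
    G.St6HHHH := by
  intro F hF hub
  exact H5c.main (K := ⟨hBas, hB, hCnt, hF.1, hF.2, hub⟩)

end CG

end Pool.Agent.Lib.MP_e95c01_co.N
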