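import Pool.Agent.Lib.MP_e95c01_co.X.StmtsH76
import Pool.Agent.Lib.MP_e95c01_co.X.G01_16
import Pool.Agent.Lib.MP_e95c01_co.U.StTwHL76

/-!
# `λ = 3`, leaves with four vertices: two pairs of twins (H7)
-/

namespace Pool.Agent.Lib.MP_e95c01_co.N

open Finset

variable {V : Type} [Fintype V] [DecidableEq V]

namespace CG

variable {G : CG V} {F : Finset V}

theorem tnl53 {x y : V} (h : G.Tw x y) : ¬ G.Low x := by
  intro hl
  have h1 := h.2.1
  have h2 : (G.nb x).card = 6 := hl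
  omega

theorem twc53 {x y : V} (h : G.Tw x y) : (G.nb y).card = 7 := by
  have h1 := congrArg Finset.card h.2.2
  rw [cl, cl, card_insert_of_notMem (G.irr x), card_insert_of_notMem (G.irr y)] at h1
  have := h.2.1
  omega

theorem tws53 {x y : V} (h : G.Tw x y) : G.Tw y x :=
  ⟨G.sym _ _ h.1, twc53 h, h.2.2.symm⟩

theorem twn53 {x y z : V} (h : G.Tw x y) (hz : z ∈ G.nb x) (hzy : z ≠ y) : z ∈ G.nb y := by
  have h1 : z ∈ G.cl y := by
    rw [← h.2.2]
    exact mem_insert_of_mem hz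
  rcases mem_insert.1 h1 with h2 | h2
  · exact absurd h2 hzy
  · exact h2

theorem twn53' {x y z : V} (h : G.Tw x y) (hz : x ∈ G.nb z) (hzy : z ≠ y) : y ∈ G.nb z :=
  G.sym _ _ (twn53 h (G.sym _ _ hz) hzy)

/-- the situation: `F = {v, w, v', w'}`, the pairs are adjacent -/
structure Q53 (G : CG V) (F : Finset V) (v w v' w' m1 m2 a1 a2 b1 b2 : V) : Prop where
  lf : G.Lf F
  hF : ∀ x ∈ F, x = v ∨ x = w ∨ x = v' ∨ x = w'
  vF : v ∈ F
  wF : w ∈ F
  vF' : v' ∈ F
  wF' : w' ∈ F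
  c4 : F.card = 4
  tw : G.Tw v w
  tw' : G.Tw v' w'
  hT : ∀ y ∈ G.N F, y = m1 ∨ y = m2 ∨ y = a1 ∨ y = a2 ∨ y = b1 ∨ y = b2
  m1T : m1 ∈ G.N F
  m2T : m2 ∈ G.N F
  a1T : a1 ∈ G.N F
  a2T : a2 ∈ G.N F
  b1T : b1 ∈ G.N F
  b2T : b2 ∈ G.N F
  m12 : m1 ≠ m2
  a12 : a1 ≠ a2
  b12 : b1 ≠ b2
  m1v : m1 ∈ G.nb v
  m2v : m2 ∈ G.nb v
  a1v : a1 ∈ G.nb v
  a2v : a2 ∈ G.nb v
  b1v : b1 ∉ G.nb v
  b2v : b2 ∉ G.nb v
  m1v' : m1 ∈ G.nb v'
  m2v' : m2 ∈ G.nb v'
  b1v' : b1 ∈ G.nb v'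
  b2v' : b2 ∈ G.nb v'
  a1v' : a1 ∉ G.nb v'
  a2v' : a2 ∉ G.nb v'
  np : G.Tw m1 m2 → a1 ∉ G.nb m1 ∧ a2 ∉ G.nb m1 ∧ b1 ∉ G.nb m1 ∧ b2 ∉ G.nb m1

namespace Q53

variable {v w v' w' m1 m2 a1 a2 b1 b2 : V}

/-- exchange of the two pairs -/
theorem swap (C : G.Q53 F v w v' w' m1 m2 a1 a2 b1 b2) : G.Q53 F v' w' v w m1 m2 b1 b2 a1 a2 where
  lf := C.lf
  hF := fun x hx => by have := C.hF x hx; tauto
  vF := C.vF'
  wF := C.wF'
  vF' := C.vF
  wF' := C.wF
  c4 := C.c4
  tw := C.tw'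
  tw' := C.tw
  hT := fun x hx => by have := C.hT x hx; tauto
  m1T := C.m1T
  m2T := C.m2T
  a1T := C.b1T
  a2T := C.b2T
  b1T := C.a1T
  b2T := C.a2T
  m12 := C.m12
  a12 := C.b12
  b12 := C.a12
  m1v := C.m1v'
  m2v := C.m2v'
  a1v := C.b1v'
  a2v := C.b2v'
  b1v := C.a1v'
  b2v := C.a2v'
  m1v' := C.m1v
  m2v' := C.m2v
  b1v' := C.a1v
  b2v' := C.a2v
  a1v' := C.b1v
  a2v' := C.b2v
  np := fun h => by have := C.np h; tauto

/-- exchange of the two vertices of `M` -/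
theorem mswap (C : G.Q53 F v w v' w' m1 m2 a1 a2 b1 b2) :
    G.Q53 F v w v' w' m2 m1 a1 a2 b1 b2 where
  lf := C.lf
  hF := C.hF
  vF := C.vF
  wF := C.wF
  vF' := C.vF'
  wF' := C.wF'
  c4 := C.c4
  tw := C.tw
  tw' := C.tw'
  hT := fun x hx => by have := C.hT x hx; tauto
  m1T := C.m2T
  m2T := C.m1T
  a1T := C.a1T
  a2T := C.a2T
  b1T := C.b1T
  b2T := C.b2T
  m12 := C.m12.symm
  a12 := C.a12
  b12 := C.b12
  m1v := C.m2v
  m2v := C.m1v
  a1v := C.a1v
  a2v := C.a2v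
  b1v := C.b1v
  b2v := C.b2v
  m1v' := C.m2v'
  m2v' := C.m1v'
  b1v' := C.b1v'
  b2v' := C.b2v'
  a1v' := C.a1v'
  a2v' := C.a2v'
  np := fun h => by
    have h1 := tws53 h
    have h2 := C.np h1
    exact ⟨fun h3 => h2.1 (twn53 h h3 fun e => C.a1v' (e ▸ C.m1v')),
      fun h3 => h2.2.1 (twn53 h h3 fun e => C.a2v' (e ▸ C.m1v')),
      fun h3 => h2.2.2.1 (twn53 h h3 fun e => C.b1v (e ▸ C.m1v)),
      fun h3 => h2.2.2.2 (twn53 h h3 fun e => C.b2v (e ▸ C.m1v))⟩

/-- exchange of `a1`, `a2` -/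
theorem aswap (C : G.Q53 F v w v' w' m1 m2 a1 a2 b1 b2) :
    G.Q53 F v w v' w' m1 m2 a2 a1 b1 b2 where
  lf := C.lf
  hF := C.hF
  vF := C.vF
  wF := C.wF
  vF' := C.vF'
  wF' := C.wF'
  c4 := C.c4
  tw := C.tw
  tw' := C.tw'
  hT := fun x hx => by have := C.hT x hx; tauto
  m1T := C.m1T
  m2T := C.m2T
  a1T := C.a2T
  a2T := C.a1T
  b1T := C.b1T
  b2T := C.b2T
  m12 := C.m12
  a12 := C.a12.symm
  b12 := C.b12
  m1v := C.m1v
  m2v := C.m2v
  a1v := C.a2v
  a2v := C.a1v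
  b1v := C.b1v
  b2v := C.b2v
  m1v' := C.m1v'
  m2v' := C.m2v'
  b1v' := C.b1v'
  b2v' := C.b2v'
  a1v' := C.a2v'
  a2v' := C.a1v'
  np := fun h => by have := C.np h; tauto

theorem nlow (C : G.Q53 F v w v' w' m1 m2 a1 a2 b1 b2) {x : V} (hx : x ∈ F) : ¬ G.Low x := by
  rcases C.hF x hx with h | h | h | h
  · rw [h]; exact tnl53 C.tw
  · rw [h]; exact tnl53 (tws53 C.tw)
  · rw [h]; exact tnl53 C.tw'
  · rw [h]; exact tnl53 (tws53 C.tw')

theorem nF {x : V} (h : x ∈ G.N F) : x ∉ F := (mem_N76.1 h).1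

/-- neighbours of `v` in `N F` -/
theorem nbv (C : G.Q53 F v w v' w' m1 m2 a1 a2 b1 b2) {x : V} (hx : x ∈ G.N F)
    (h : v ∈ G.nb x) : x = m1 ∨ x = m2 ∨ x = a1 ∨ x = a2 := by
  have h1 := G.sym _ _ h
  rcases C.hT x hx with e | e | e | e | e | e
  · exact Or.inl e
  · exact Or.inr (Or.inl e)
  · exact Or.inr (Or.inr (Or.inl e))
  · exact Or.inr (Or.inr (Or.inr e))
  · rw [e] at h1; exact absurd h1 C.b1v
  · rw [e] at h1; exact absurd h1 C.b2v

theorem dm (C : G.Q53 F v w v' w' m1 m2 a1 a2 b1 b2) : G.d m1 F = 4 := by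
  have h1 : G.nb m1 ∩ F = F := by
    rw [inter_eq_right]
    intro x hx
    have hm : m1 ∉ F := nF C.m1T
    rcases C.hF x hx with h | h | h | h
    · rw [h]; exact G.sym _ _ C.m1v
    · rw [h]
      exact twn53' C.tw (G.sym _ _ C.m1v) (fun e => hm (e ▸ C.wF))
    · rw [h]; exact G.sym _ _ C.m1v'
    · rw [h]
      exact twn53' C.tw' (G.sym _ _ C.m1v') (fun e => hm (e ▸ C.wF'))
  rw [d, h1, C.c4]

theorem pXa (C : G.Q53 F v w v' w' m1 m2 a1 a2 b1 b2) : G.pX F a1 = {v, w} := by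
  have hm : a1 ∉ F := nF C.a1T
  ext x
  rw [pX, mem_inter, mem_insert, mem_singleton]
  constructor
  · rintro ⟨h1, h2⟩
    rcases C.hF x h2 with h | h | h | h
    · exact Or.inl h
    · exact Or.inr h
    · rw [h] at h1
      exact absurd (G.sym _ _ h1) C.a1v'
    · rw [h] at h1
      exact absurd (G.sym _ _ (twn53' (tws53 C.tw') h1 (fun e => hm (e ▸ C.vF')))) C.a1v'
  · rintro (h | h)
    · rw [h]; exact ⟨G.sym _ _ C.a1v, C.vF⟩
    · rw [h]
      exact ⟨twn53' C.tw (G.sym _ _ C.a1v) (fun e => hm (e ▸ C.wF)), C.wF⟩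

theorem da (C : G.Q53 F v w v' w' m1 m2 a1 a2 b1 b2) : G.d a1 F = 2 := by
  have h1 := C.pXa
  rw [pX] at h1
  rw [d, h1]
  exact card_pair (ne_of_nb5 C.tw.1)

/-- `m` (low) helps `a` -/
def U (G : CG V) (m m' a : V) : Prop := G.Low m ∧ (a ∈ G.nb m ∨ G.HL m' m a)

theorem am1 (C : G.Q53 F v w v' w' m1 m2 a1 a2 b1 b2) : a1 ≠ m1 := fun e => C.a1v' (e ▸ C.m1v')

theorem am2 (C : G.Q53 F v w v' w' m1 m2 a1 a2 b1 b2) : a1 ≠ m2 := fun e => C.a1v' (e ▸ C.m2v')

/-- no twins `a`, `m` -/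
theorem ntam (C : G.Q53 F v w v' w' m1 m2 a1 a2 b1 b2) : ¬ G.Tw a1 m1 := by
  intro h
  have h1 : a1 ∈ G.nb v' := twn53' (tws53 h) (G.sym _ _ (G.sym _ _ C.m1v'))
    (fun e => nF C.a1T (e ▸ C.vF'))
  exact C.a1v' h1

/-- cover of `v a1` -/
theorem cova (C : G.Q53 F v w v' w' m1 m2 a1 a2 b1 b2) (hBas : G.StLBas) :
    (G.Low a2 ∧ a1 ∈ G.nb a2) ∨ U G m1 m2 a1 ∨ U G m2 m1 a1 := by
  have hvT : v ∉ G.N F := fun h => nF h C.vF
  have ha1F : a1 ∉ F := nF C.a1T
  have hlowT : ∀ x ∈ F ∪ G.N F, G.Low x → x ∈ G.N F := by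
    intro x hx hl
    rcases mem_union.1 hx with h | h
    · exact absurd hl (C.nlow h)
    · exact h
  rcases C.lf.cov v C.vF a1 (mem_union_right _ C.a1T) C.a1v with
    ⟨x, hx, hl, h1, h2⟩ | ⟨p, hp, r, hr, ht, h1, h2, h3, h4⟩ | ⟨p, r, hh, h1, h2, h3⟩ |
    ⟨p, r, hh, -⟩ | ⟨p, r, hh, h3⟩
  · rcases C.nbv (hlowT x hx hl) h1 with e | e | e | e
    · exact Or.inr (Or.inl ⟨e ▸ hl, Or.inl (e ▸ h2)⟩)
    · exact Or.inr (Or.inr ⟨e ▸ hl, Or.inl (e ▸ h2)⟩)
    · rw [e] at h2; exact absurd h2 (G.irr _)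
    · exact Or.inl ⟨e ▸ hl, e ▸ h2⟩
  · -- a pair
    exfalso
    have hout : ∀ x ∈ F, v ∈ G.nb x → a1 ∈ G.nb x → x = w := by
      intro x hx hvx hax
      rcases C.hF x hx with e | e | e | e
      · rw [e] at hvx; exact absurd hvx (G.irr _)
      · exact e
      · rw [e] at hax; exact absurd hax C.a1v'
      · rw [e] at hax
        exact absurd (twn53 (tws53 C.tw') hax (fun e' => ha1F (e' ▸ C.vF'))) C.a1v'
    have hpr : p ≠ r := ne_of_nb5 ht.1
    have hpT : p ∈ G.N F := by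
      rcases mem_union.1 hp with hpF | hpT
      · have hrF := (hBas.twT F C.lf p r ht).2 hpF
        exact absurd ((hout p hpF h1 h3).trans (hout r hrF h2 h4).symm) hpr
      · exact hpT
    have hrT := (hBas.twT F C.lf p r ht).1 hpT
    have key : ∀ x y, G.Tw x y → x = a2 → (y = m1 ∨ y = m2) → False := by
      intro x y hxy e1 e2
      rw [e1] at hxy
      rcases e2 with e2 | e2
      · rw [e2] at hxy; exact C.aswap.ntam hxy
      · rw [e2] at hxy; exact C.aswap.mswap.ntam hxy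
    have hpa : p ≠ a1 := fun e => G.irr a1 (by rw [e] at h3; exact h3)
    have hra : r ≠ a1 := fun e => G.irr a1 (by rw [e] at h4; exact h4)
    rcases C.nbv hpT h1 with e | e | e | e
    · rcases C.nbv hrT h2 with e' | e' | e' | e'
      · exact hpr (e.trans e'.symm)
      · rw [e, e'] at ht; rw [e] at h3; exact (C.np ht).1 h3
      · exact hra e'
      · exact key r p (tws53 ht) e' (Or.inl e)
    · rcases C.nbv hrT h2 with e' | e' | e' | e'
      · rw [e, e'] at ht; rw [e'] at h4; exact (C.np (tws53 ht)).1 h4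
      · exact hpr (e.trans e'.symm)
      · exact hra e'
      · exact key r p (tws53 ht) e' (Or.inr e)
    · exact hpa e
    · rcases C.nbv hrT h2 with e' | e' | e' | e'
      · exact key p r ht e (Or.inl e')
      · exact key p r ht e (Or.inr e')
      · exact hra e'
      · exact hpr (e.trans e'.symm)
  · -- `HL p r a1`
    have hrl : G.Low r := hh.2.1
    have hT2 : p ∈ G.N F ∧ r ∈ G.N F := by
      rcases h3 with h3 | h3
      · exact absurd hrl (C.nlow h3.2)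
      · exact h3
    have hpr : p ≠ r := ne_of_nb5 hh.2.2.1
    have hra : r ≠ a1 := fun e => hh.2.2.2.1 (by rw [e]; exact mem_insert_self _ _)
    have hpl : ¬ G.Low p := by
      intro h
      have h5 := hh.1
      have h6 : (G.nb p).card = 6 := h
      omega
    have hpa : p ≠ a1 := fun e => hpl (by rw [e]; exact C.lf.sat _ _ _ hh)
    have hva : v' ≠ a1 := fun e => ha1F (e ▸ C.vF')
    have hv'a2 : v' ∉ G.cl a2 := by
      intro h
      rcases mem_insert.1 h with h | h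
      · exact nF C.a2T (h ▸ C.vF')
      · exact C.a2v' (G.sym _ _ h)
    have k1 : ∀ m, m = m1 ∨ m = m2 → v' ∈ G.cl m := by
      rintro m (e | e)
      · rw [e]; exact mem_insert_of_mem (G.sym _ _ C.m1v')
      · rw [e]; exact mem_insert_of_mem (G.sym _ _ C.m2v')
    have key1 : p = a2 → (r = m1 ∨ r = m2) → False := by
      intro e1 e2
      apply hv'a2
      rw [← e1, hh.2.2.2.2]
      exact mem_insert_of_mem (k1 r e2)
    have key2 : r = a2 → (p = m1 ∨ p = m2) → False := by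
      intro e1 e2
      have h5 := k1 p e2
      rw [hh.2.2.2.2] at h5
      rcases mem_insert.1 h5 with h6 | h6
      · exact hva h6
      · rw [e1] at h6
        exact hv'a2 h6
    rcases C.nbv hT2.1 h2 with e | e | e | e
    · rcases C.nbv hT2.2 h1 with e' | e' | e' | e'
      · exact absurd (e.trans e'.symm) hpr
      · rw [e, e'] at hh; rw [e'] at hrl; exact Or.inr (Or.inr ⟨hrl, Or.inr hh⟩)
      · exact absurd e' hra
      · exact (key2 e' (Or.inl e)).elim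
    · rcases C.nbv hT2.2 h1 with e' | e' | e' | e'
      · rw [e, e'] at hh; rw [e'] at hrl; exact Or.inr (Or.inl ⟨hrl, Or.inr hh⟩)
      · exact absurd (e.trans e'.symm) hpr
      · exact absurd e' hra
      · exact (key2 e' (Or.inr e)).elim
    · exact absurd e hpa
    · rcases C.nbv hT2.2 h1 with e' | e' | e' | e'
      · exact (key1 e (Or.inl e')).elim
      · exact (key1 e (Or.inr e')).elim
      · exact absurd e' hra
      · exact absurd (e.trans e'.symm) hpr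
  · exact absurd (C.lf.sat _ _ _ hh) (C.nlow C.vF)
  · -- `LL p r v a1`
    exfalso
    obtain ⟨hpl, hrl, hrp, hva, hvr, hap, heq⟩ := hh
    have h5 : v ∈ G.cl p := by
      have h6 : v ∈ insert a1 (G.cl p) := by rw [heq]; exact mem_insert_self _ _
      rcases mem_insert.1 h6 with h7 | h7
      · exact absurd h7 hva
      · exact h7
    have hpv : v ∈ G.nb p := by
      rcases mem_insert.1 h5 with h7 | h7
      · rw [← h7] at hpl; exact absurd hpl (C.nlow C.vF)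
      · exact h7
    have hwp : w ∈ G.nb p := twn53' C.tw hpv (fun e => C.nlow C.wF (e ▸ hpl))
    have h8 : w ∈ insert v (G.cl r) := by
      rw [← heq]; exact mem_insert_of_mem (mem_insert_of_mem hwp)
    rcases mem_insert.1 h8 with h9 | h9
    · exact (ne_of_nb5 C.tw.1) h9.symm
    · rcases mem_insert.1 h9 with h10 | h10
      · rw [← h10] at hrl; exact C.nlow C.wF hrl
      · exact hvr (mem_insert_of_mem (twn53' (tws53 C.tw) h10
          (fun e => C.nlow C.vF (e ▸ hrl))))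

/-- values of a low `m` -/
theorem valm (C : G.Q53 F v w v' w' m1 m2 a1 a2 b1 b2) (hB : G.StLB) (hl : G.Low m1) :
    (G.pT F m1).card ≤ 1 ∧ 10 ≤ G.gam5 F m1 := by
  obtain ⟨h1, h2, -⟩ := hB.low4 F C.lf m1 C.m1T hl C.dm
  exact ⟨h1, h2⟩

theorem pTone {m x y : V} (h : (G.pT F m).card ≤ 1) (hx : x ∈ G.pT F m) (hy : y ∈ G.pT F m) :
    x = y := card_le_one.1 h x hx y hy

/-- a low `m` helps one vertex only -/
theorem uniq (C : G.Q53 F v w v' w' m1 m2 a1 a2 b1 b2) (hB : G.StLB) {x y : V}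
    (hx : x ∈ G.N F) (hy : y ∈ G.N F) (_hx1 : x ≠ m1) (hx2 : x ≠ m2) (_hy1 : y ≠ m1) (hy2 : y ≠ m2)
    (h1 : U G m1 m2 x) (h2 : U G m1 m2 y) : x = y := by
  have hc := (C.valm hB h1.1).1
  have hm : ∀ z, G.HL m2 m1 z → m2 ∈ G.pT F m1 := fun z hz =>
    mem_inter.2 ⟨G.sym _ _ hz.2.2.1, C.m2T⟩
  rcases h1.2 with h3 | h3
  · have h4 : x ∈ G.pT F m1 := mem_inter.2 ⟨h3, hx⟩
    rcases h2.2 with h5 | h5
    · exact pTone hc h4 (mem_inter.2 ⟨h5, hy⟩)
    · exact absurd (pTone hc h4 (hm _ h5)) hx2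
  · rcases h2.2 with h5 | h5
    · exact absurd (pTone hc (mem_inter.2 ⟨h5, hy⟩) (hm _ h3)) hy2
    · have h6 : x ∈ G.cl m2 := by rw [h3.2.2.2.2]; exact mem_insert_self _ _
      rw [h5.2.2.2.2] at h6
      rcases mem_insert.1 h6 with h7 | h7
      · exact h7
      · exact absurd h7 h3.2.2.2.1

/-- value of a low `m` which helps a low vertex -/
theorem val12 (C : G.Q53 F v w v' w' m1 m2 a1 a2 b1 b2) (hB : G.StLB) {x : V} (hx : x ∈ G.N F)
    (hxl : G.Low x) (h1 : U G m1 m2 x) : 12 ≤ G.gam5 F m1 := by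
  obtain ⟨hc, h2, h3⟩ := hB.low4 F C.lf m1 C.m1T h1.1 C.dm
  have h9 : 9 ≤ Fintype.card V := le_trans (by norm_num) C.lf.n12
  rcases h1.2 with h4 | h4
  · have h5 : x ∈ G.pT F m1 := mem_inter.2 ⟨h4, hx⟩
    have h6 : 1 ≤ (G.pT F m1).card := card_pos.2 ⟨x, h5⟩
    rcases h3 with h3 | ⟨a, b, -, -, -, h7, h8⟩
    · omega
    · rw [h7, mem_singleton] at h5
      rw [← h5] at h8
      exact absurd hxl h8.1
  · have h5 : m2 ∈ G.pT F m1 := mem_inter.2 ⟨G.sym _ _ h4.2.2.1, C.m2T⟩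
    have h6 : 1 ≤ (G.pT F m1).card := card_pos.2 ⟨m2, h5⟩
    rcases h3 with h3 | ⟨a, b, h10, -, -, h7, h8⟩
    · omega
    · rw [h7, mem_singleton] at h5
      rw [← h5] at h10
      exact absurd rfl (nomut76 h9 h10 h4)

/-- `a1` is not a twin vertex -/
theorem ntw (C : G.Q53 F v w v' w' m1 m2 a1 a2 b1 b2) (hBas : G.StLBas) (hB : G.StLB) :
    ¬ G.IsTw a1 := by
  rintro ⟨y, hy⟩
  have hyT := (hBas.twT F C.lf a1 y hy).1 C.a1T
  have hvy : v ∈ G.nb y := twn53 hy (G.sym _ _ C.a1v) (fun e => nF hyT (e ▸ C.vF))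
  have hya : y = a2 := by
    rcases C.nbv hyT hvy with e | e | e | e
    · rw [e] at hy; exact absurd hy C.ntam
    · rw [e] at hy; exact absurd hy C.mswap.ntam
    · exact absurd e.symm (ne_of_nb5 hy.1)
    · exact e
  rw [hya] at hy
  have key : ∀ m, m ∈ G.N F → m ≠ a2 → m ≠ a1 → (G.pT F m).card ≤ 1 → a1 ∉ G.nb m := by
    intro m hm h1 h2 h3 h4
    have h5 : a2 ∈ G.nb m := twn53' hy h4 h1
    exact C.a12 (pTone h3 (mem_inter.2 ⟨h4, C.a1T⟩) (mem_inter.2 ⟨h5, C.a2T⟩))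
  rcases C.cova hBas with ⟨h, -⟩ | ⟨h, h1 | h1⟩ | ⟨h, h1 | h1⟩
  · exact tnl53 (tws53 hy) h
  · exact key m1 C.m1T C.aswap.am1.symm C.am1.symm (C.valm hB h).1 h1
  · exact tnl53 hy (C.lf.sat _ _ _ h1)
  · exact key m2 C.m2T C.aswap.am2.symm C.am2.symm (C.mswap.valm hB h).1 h1
  · exact tnl53 hy (C.lf.sat _ _ _ h1)

theorem vala (C : G.Q53 F v w v' w' m1 m2 a1 a2 b1 b2) (hBas : G.StLBas) (hB : G.StLB) :
    0 ≤ G.gam5 F a1 := by
  by_cases hl : G.Low a1
  · obtain ⟨-, -, h⟩ := hB.low2 F C.lf a1 C.a1T hl C.da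
    have : (0 : ℤ) ≤ min (2 * ((G.pT F a1).card : ℤ)) 2 := by positivity
    omega
  · exact (hB.hub F C.lf a1 C.a1T ⟨hl, C.ntw hBas hB⟩).ge

/-- low `a1` whose neighbours in `N F` are not a pair -/
theorem vala2 (C : G.Q53 F v w v' w' m1 m2 a1 a2 b1 b2) (hB : G.StLB) (hl : G.Low a1)
    (ha : a2 ∈ G.nb a1) (h2 : ¬ G.IsTw a2) :
    2 + 2 * ((G.pT F a1).card : ℤ) ≤ G.gam5 F a1 := by
  obtain ⟨-, h, -⟩ := hB.low2 F C.lf a1 C.a1T hl C.da
  rcases h with h | ⟨-, ⟨p, r, hpr, he⟩, -⟩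
  · exact h
  · exfalso
    have h3 : a2 ∈ G.pT F a1 := mem_inter.2 ⟨ha, C.a2T⟩
    rw [he, mem_insert, mem_singleton] at h3
    rcases h3 with h3 | h3
    · rw [← h3] at hpr; exact h2 ⟨_, hpr⟩
    · rw [← h3] at hpr; exact h2 ⟨_, tws53 hpr⟩

theorem s0 (C : G.Q53 F v w v' w' m1 m2 a1 a2 b1 b2) (hl : G.Low a1)
    (hl2 : G.Low a2) (ha : a2 ∈ G.nb a1) (h1 : (G.pT F a1).card = 1) : G.S0 F a1 a2 := by
  have h3 : a2 ∈ G.pT F a1 := mem_inter.2 ⟨ha, C.a2T⟩
  obtain ⟨x, hx⟩ := card_eq_one.1 h1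
  have hx2 : a2 = x := by rw [hx, mem_singleton] at h3; exact h3
  refine ⟨C.a1T, hl, hl2, by rw [hx, hx2], ⟨v, w, C.tw, C.pXa, G.sym _ _ C.a2v⟩, ?_⟩
  rintro ⟨h4, h5⟩
  have h6 := dg16 G F a2
  have h7 : (G.nb a2).card = 6 := hl2
  have h8 : (G.pX F a2).card = 2 := C.aswap.da
  have h9 : (G.pT F a2).card = 1 := by rw [h4]; exact card_singleton _
  omega

/-- (i) -/
theorem typeI (C : G.Q53 F v w v' w' m1 m2 a1 a2 b1 b2) (hBas : G.StLBas) (hB : G.StLB)
    (hl : G.Low a1) (hl2 : G.Low a2) (ha : a2 ∈ G.nb a1) : 10 ≤ G.gam5 F a1 + G.gam5 F a2 := by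
  have n1 := C.ntw hBas hB
  have n2 := C.aswap.ntw hBas hB
  have ha' : a1 ∈ G.nb a2 := G.sym _ _ ha
  have e1 := C.vala2 hB hl ha n2
  have e2 := C.aswap.vala2 hB hl2 ha' n1
  have p1 : 1 ≤ (G.pT F a1).card := card_pos.2 ⟨a2, mem_inter.2 ⟨ha, C.a2T⟩⟩
  have p2 : 1 ≤ (G.pT F a2).card := card_pos.2 ⟨a1, mem_inter.2 ⟨ha', C.a1T⟩⟩
  by_cases c1 : (G.pT F a1).card = 1
  · have s1 := C.s0 hl hl2 ha c1
    obtain ⟨f1, f2, -⟩ := hB.low2s F C.lf a1 C.a1T a2 s1
    by_cases c2 : (G.pT F a2).card = 1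
    · have s2 := C.aswap.s0 hl2 hl ha' c2
      obtain ⟨g1, g2, -⟩ := hB.low2s F C.lf a2 C.a2T a1 s2
      have t1 : G.pT F a2 = {a1} := s2.2.2.2.1
      have t2 : G.pT F a1 = {a2} := s1.2.2.2.1
      have := f2 t1
      have := g2 t2
      omega
    · omega
  · by_cases c2 : (G.pT F a2).card = 1
    · have s2 := C.aswap.s0 hl2 hl ha' c2
      obtain ⟨g1, g2, -⟩ := hB.low2s F C.lf a2 C.a2T a1 s2
      omega
    · omega

/-- (ii): `a1` is helped, `a2` is not -/
theorem typeII (C : G.Q53 F v w v' w' m1 m2 a1 a2 b1 b2) (hBas : G.StLBas) (hB : G.StLB)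
    (h1 : U G m1 m2 a1) (h2 : ¬ U G m1 m2 a2) (h3 : ¬ U G m2 m1 a2) :
    G.Low a1 ∧ 6 ≤ G.gam5 F a1 ∧ 0 ≤ G.gam5 F a2 := by
  have h4 : G.Low a1 ∧ a2 ∈ G.nb a1 := by
    rcases C.aswap.cova hBas with h | h | h
    · exact h
    · exact absurd h h2
    · exact absurd h h3
  have e1 := C.vala2 hB h4.1 h4.2 (C.aswap.ntw hBas hB)
  refine ⟨h4.1, ?_, C.aswap.vala hBas hB⟩
  have h5 : a2 ∈ G.pT F a1 := mem_inter.2 ⟨h4.2, C.a2T⟩
  have h6 : ∃ m ∈ G.pT F a1, m = m1 ∨ m = m2 := by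
    rcases h1.2 with h | h
    · exact ⟨m1, mem_inter.2 ⟨G.sym _ _ h, C.m1T⟩, Or.inl rfl⟩
    · refine ⟨m2, mem_inter.2 ⟨?_, C.m2T⟩, Or.inr rfl⟩
      have h7 : a1 ∈ G.cl m2 := by rw [h.2.2.2.2]; exact mem_insert_self _ _
      rcases mem_insert.1 h7 with h8 | h8
      · exact absurd h8 C.am2
      · exact G.sym _ _ h8
  obtain ⟨m, hm, hm'⟩ := h6
  have h7 : m ≠ a2 := by
    rcases hm' with e | e
    · rw [e]; exact C.aswap.am1.symm
    · rw [e]; exact C.aswap.am2.symm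
  have h8 : 2 ≤ (G.pT F a1).card := by
    have h9 : ({m, a2} : Finset V) ⊆ G.pT F a1 := by
      intro x hx
      rw [mem_insert, mem_singleton] at hx
      rcases hx with e | e
      · rw [e]; exact hm
      · rw [e]; exact h5
    have h10 := card_le_card h9
    rw [card_pair h7] at h10
    exact h10
  omega

/-- some vertex of `A` is helped by `m1` -/
def HA (G : CG V) (m m' a a' : V) : Prop := U G m m' a ∨ U G m m' a'

/-- nobody in `A` is helped -/
theorem none (C : G.Q53 F v w v' w' m1 m2 a1 a2 b1 b2) (hBas : G.StLBas) (hB : G.StLB)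
    (h1 : ¬ HA G m1 m2 a1 a2) (h2 : ¬ HA G m2 m1 a1 a2) : 10 ≤ G.gam5 F a1 + G.gam5 F a2 := by
  have h3 : G.Low a2 ∧ a1 ∈ G.nb a2 := by
    rcases C.cova hBas with h | h | h
    · exact h
    · exact absurd (Or.inl h) h1
    · exact absurd (Or.inl h) h2
  have h4 : G.Low a1 ∧ a2 ∈ G.nb a1 := by
    rcases C.aswap.cova hBas with h | h | h
    · exact h
    · exact absurd (Or.inr h) h1
    · exact absurd (Or.inr h) h2
  exact C.typeI hBas hB h4.1 h3.1 h4.2

/-- only `m1` helps in `A` -/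
theorem one (C : G.Q53 F v w v' w' m1 m2 a1 a2 b1 b2) (hBas : G.StLBas) (hB : G.StLB)
    (h1 : HA G m1 m2 a1 a2) (h2 : ¬ HA G m2 m1 a1 a2) :
    6 ≤ G.gam5 F a1 + G.gam5 F a2 ∧ 12 ≤ G.gam5 F m1 := by
  rcases h1 with h1 | h1
  · have h3 : ¬ U G m1 m2 a2 := fun h => C.a12 (C.uniq hB C.a1T C.a2T C.am1 C.am2 C.aswap.am1
      C.aswap.am2 h1 h)
    have h4 := C.typeII hBas hB h1 h3 (fun h => h2 (Or.inr h))
    exact ⟨by omega, C.val12 hB C.a1T h4.1 h1⟩
  · have h3 : ¬ U G m1 m2 a1 := fun h => C.a12 (C.uniq hB C.a1T C.a2T C.am1 C.am2 C.aswap.am1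
      C.aswap.am2 h h1)
    have h4 := C.aswap.typeII hBas hB h1 h3 (fun h => h2 (Or.inl h))
    exact ⟨by omega, C.val12 hB C.a2T h4.1 h1⟩

/-- `m1` does not help on both sides -/
theorem notboth (C : G.Q53 F v w v' w' m1 m2 a1 a2 b1 b2) (hB : G.StLB)
    (h1 : HA G m1 m2 a1 a2) : ¬ HA G m1 m2 b1 b2 := by
  intro h2
  have hne : ∀ x y, (x = a1 ∨ x = a2) → (y = b1 ∨ y = b2) → x ≠ y := by
    rintro x y hx hy rfl
    have h3 : x ∈ G.nb v := by
      rcases hx with e | e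
      · rw [e]; exact C.a1v
      · rw [e]; exact C.a2v
    rcases hy with e | e
    · exact C.b1v (e ▸ h3)
    · exact C.b2v (e ▸ h3)
  have kA : ∀ x, (x = a1 ∨ x = a2) → x ∈ G.N F ∧ x ≠ m1 ∧ x ≠ m2 := by
    rintro x (e | e)
    · rw [e]; exact ⟨C.a1T, C.am1, C.am2⟩
    · rw [e]; exact ⟨C.a2T, C.aswap.am1, C.aswap.am2⟩
  have kB : ∀ x, (x = b1 ∨ x = b2) → x ∈ G.N F ∧ x ≠ m1 ∧ x ≠ m2 := by
    rintro x (e | e)
    · rw [e]; exact ⟨C.b1T, C.swap.am1, C.swap.am2⟩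
    · rw [e]; exact ⟨C.b2T, C.swap.aswap.am1, C.swap.aswap.am2⟩
  have k : ∀ x y, (x = a1 ∨ x = a2) → (y = b1 ∨ y = b2) → U G m1 m2 x → U G m1 m2 y → False := by
    intro x y hx hy ux uy
    have h3 := kA x hx
    have h4 := kB y hy
    exact hne x y hx hy (C.uniq hB h3.1 h4.1 h3.2.1 h3.2.2 h4.2.1 h4.2.2 ux uy)
  rcases h1 with h1 | h1 <;> rcases h2 with h2 | h2
  · exact k a1 b1 (Or.inl rfl) (Or.inl rfl) h1 h2
  · exact k a1 b2 (Or.inl rfl) (Or.inr rfl) h1 h2
  · exact k a2 b1 (Or.inr rfl) (Or.inl rfl) h1 h2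
  · exact k a2 b2 (Or.inr rfl) (Or.inr rfl) h1 h2

/-- the six values -/
theorem six (C : G.Q53 F v w v' w' m1 m2 a1 a2 b1 b2) (hBas : G.StLBas) (hB : G.StLB)
    (hm : G.Low m1) : 28 ≤ G.gam5 F m1 + G.gam5 F m2 + (G.gam5 F a1 + G.gam5 F a2) +
      (G.gam5 F b1 + G.gam5 F b2) := by
  have A0 : 0 ≤ G.gam5 F a1 + G.gam5 F a2 := add_nonneg (C.vala hBas hB) (C.aswap.vala hBas hB)
  have B0 : 0 ≤ G.gam5 F b1 + G.gam5 F b2 :=
    add_nonneg (C.swap.vala hBas hB) (C.swap.aswap.vala hBas hB)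
  have M1 := (C.valm hB hm).2
  by_cases hm2 : G.Low m2
  · have M2 := (C.mswap.valm hB hm2).2
    by_cases a1h : HA G m1 m2 a1 a2
    · by_cases a2h : HA G m2 m1 a1 a2
      · have h1 := C.notboth hB a1h
        have h2 := C.mswap.notboth hB a2h
        have := C.swap.none hBas hB h1 h2
        omega
      · have h1 := C.notboth hB a1h
        have h3 := (C.one hBas hB a1h a2h).1
        by_cases b2h : HA G m2 m1 b1 b2
        · have h4 := (C.swap.mswap.one hBas hB b2h h1).1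
          omega
        · have := C.swap.none hBas hB h1 b2h
          omega
    · by_cases a2h : HA G m2 m1 a1 a2
      · have h2 := C.mswap.notboth hB a2h
        have h3 := (C.mswap.one hBas hB a2h a1h).1
        by_cases b1h : HA G m1 m2 b1 b2
        · have h4 := (C.swap.one hBas hB b1h h2).1
          omega
        · have := C.swap.none hBas hB b1h h2
          omega
      · have := C.none hBas hB a1h a2h
        omega
  · have n2 : ∀ x y, ¬ HA G m2 m1 x y := by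
      rintro x y (h | h)
      · exact hm2 h.1
      · exact hm2 h.1
    have M2 : 0 ≤ G.gam5 F m2 := by
      refine (hB.hub F C.lf m2 C.m2T ⟨hm2, ?_⟩).ge
      rintro ⟨y, hy⟩
      have hyT := (hBas.twT F C.lf m2 y hy).1 C.m2T
      have hvy : v ∈ G.nb y := twn53 hy (G.sym _ _ C.m2v) (fun e => nF hyT (e ▸ C.vF))
      rcases C.nbv hyT hvy with e | e | e | e
      · rw [e] at hy; exact tnl53 (tws53 hy) hm
      · exact (ne_of_nb5 hy.1) e.symm
      · rw [e] at hy; exact C.mswap.ntam (tws53 hy)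
      · rw [e] at hy; exact C.aswap.mswap.ntam (tws53 hy)
    by_cases a1h : HA G m1 m2 a1 a2
    · have h1 := C.notboth hB a1h
      have h3 := C.one hBas hB a1h (n2 _ _)
      have := C.swap.none hBas hB h1 (n2 _ _)
      omega
    · have h3 := C.none hBas hB a1h (n2 _ _)
      by_cases b1h : HA G m1 m2 b1 b2
      · have h4 := C.swap.one hBas hB b1h (n2 _ _)
        omega
      · have := C.swap.none hBas hB b1h (n2 _ _)
        omega

/-- the exception: `M` is a pair -/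
theorem pairM (C : G.Q53 F v w v' w' m1 m2 a1 a2 b1 b2) (hBas : G.StLBas) (hB : G.StLB)
    (ht : G.Tw m1 m2) : 22 ≤ G.gam5 F m1 + G.gam5 F m2 + (G.gam5 F a1 + G.gam5 F a2) +
      (G.gam5 F b1 + G.gam5 F b2) := by
  have n1 : ∀ x y, ¬ HA G m1 m2 x y := by
    rintro x y (h | h)
    · exact tnl53 ht h.1
    · exact tnl53 ht h.1
  have n2 : ∀ x y, ¬ HA G m2 m1 x y := by
    rintro x y (h | h)
    · exact tnl53 (tws53 ht) h.1
    · exact tnl53 (tws53 ht) h.1
  have h1 := C.none hBas hB (n1 _ _) (n2 _ _)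
  have h2 := C.swap.none hBas hB (n1 _ _) (n2 _ _)
  have h3 := (hB.tw F C.lf m1 C.m1T ⟨_, ht⟩).2.2.2.2.2 C.dm
  have h4 := (hB.tw F C.lf m2 C.m2T ⟨_, tws53 ht⟩).2.2.2.2.2 C.mswap.dm
  omega

end Q53

/-- pairs which are not adjacent -/
theorem qqn53 (hBas : G.StLBas) (hB : G.StLB) (hCnt : G.StLCnt) (hL : G.Lf F)
    {v w v' w' : V} (hF : F = {v, w, v', w'}) (ht : G.Tw v w) (ht' : G.Tw v' w')
    (h1 : v ≠ v') (h2 : v ≠ w') (hc : F.card = 4) (hn : v' ∉ G.nb v) :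
    28 ≤ ∑ x ∈ G.N F, G.gam5 F x := by
  classical
  have hFm : ∀ x ∈ F, x = v ∨ x = w ∨ x = v' ∨ x = w' := by
    intro x hx
    rw [hF] at hx
    simpa only [mem_insert, mem_singleton] using hx
  have vF : v ∈ F := by rw [hF]; simp
  have wF : w ∈ F := by rw [hF]; simp
  have vF' : v' ∈ F := by rw [hF]; simp
  have wF' : w' ∈ F := by rw [hF]; simp
  have hnl : ∀ x ∈ F, ¬ G.Low x := by
    intro x hx
    rcases hFm x hx with h | h | h | h
    · rw [h]; exact tnl53 ht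
    · rw [h]; exact tnl53 (tws53 ht)
    · rw [h]; exact tnl53 ht'
    · rw [h]; exact tnl53 (tws53 ht')
  have hvw' : w' ∉ G.nb v := by
    intro h
    exact hn (G.sym _ _ (twn53 (tws53 ht') (G.sym _ _ h) h1))
  have T6 : (G.N F).card = 6 := hL.big.1.2.1
  have all : ∀ x y z z' : V, G.Tw x y → x ∈ F → (∀ u ∈ F, u = x ∨ u = y ∨ u = z ∨ u = z') →
      z ∉ G.nb x → z' ∉ G.nb x → ∀ a ∈ G.N F, a ∈ G.nb x := by
    intro x y z z' hxy hx hm hz hz'
    have h3 : G.nb x ⊆ insert y (G.nb x ∩ G.N F) := by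
      intro u hu
      by_cases huF : u ∈ F
      · rcases hm u huF with e | e | e | e
        · rw [e] at hu; exact absurd hu (G.irr _)
        · rw [e]; exact mem_insert_self _ _
        · rw [e] at hu; exact absurd hu hz
        · rw [e] at hu; exact absurd hu hz'
      · exact mem_insert_of_mem (mem_inter.2 ⟨hu, mem_N76.2 ⟨huF, x, hx, hu⟩⟩)
    have h4 := card_le_card h3
    have h5 := card_insert_le y (G.nb x ∩ G.N F)
    have h6 := hxy.2.1
    have h7 : G.nb x ∩ G.N F = G.N F := eq_of_subset_of_card_le inter_subset_right (by omega)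
    intro a ha
    rw [← h7] at ha
    exact (mem_inter.1 ha).1
  have allv := all v w v' w' ht vF hFm hn hvw'
  have allv' := all v' w' v w ht' vF' (fun u hu => by have := hFm u hu; tauto)
    (fun h => hn (G.sym _ _ h)) (fun h => by
      have h3 : w ∈ G.nb v' := h
      have h4 : v' ∈ G.nb w := G.sym _ _ h3
      exact hn (twn53 (tws53 ht) h4 (Ne.symm h1)))
  have nF : ∀ {x : V}, x ∈ G.N F → x ∉ F := fun h => (mem_N76.1 h).1
  have d4 : ∀ a ∈ G.N F, G.d a F = 4 := by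
    intro a ha
    have h3 : G.nb a ∩ F = F := by
      rw [inter_eq_right]
      intro x hx
      rcases hFm x hx with h | h | h | h
      · rw [h]; exact G.sym _ _ (allv a ha)
      · rw [h]
        exact twn53' ht (G.sym _ _ (allv a ha)) (fun e => nF ha (e ▸ wF))
      · rw [h]; exact G.sym _ _ (allv' a ha)
      · rw [h]
        exact twn53' ht' (G.sym _ _ (allv' a ha)) (fun e => nF ha (e ▸ wF'))
    rw [d, h3, hc]
  have h9 : 9 ≤ Fintype.card V := le_trans (by norm_num) hL.n12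
  have hcnt := (hCnt hL.sat h9 F (G.N F) (G.N F) (Subset.refl _) (Subset.refl _) v (by
    intro y hy
    have hlow : ∀ x ∈ F ∪ G.N F, G.Low x → x ∈ G.N F := by
      intro x hx hl
      rcases mem_union.1 hx with h | h
      · exact absurd hl (hnl x h)
      · exact h
    rcases hL.cov v vF y (mem_union_right _ hy) (allv y hy) with
      ⟨x, hx, hl, -, h4⟩ | ⟨p, hp, r, hr, htw, h3, h4, h5, h6⟩ | ⟨p, r, hh, h3, h4, h5⟩ |
      ⟨p, r, hh, -⟩ | ⟨p, r, hh, h3⟩
    · exact Or.inl ⟨x, hlow x hx hl, hl, h4⟩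
    · have hpT : p ∈ G.N F := by
        rcases mem_union.1 hp with hpF | hpT
        · exfalso
          have hrF := (hBas.twT F hL p r htw).2 hpF
          have k : ∀ u ∈ F, v ∈ G.nb u → u = w := by
            intro u hu hv
            rcases hFm u hu with e | e | e | e
            · rw [e] at hv; exact absurd hv (G.irr _)
            · exact e
            · rw [e] at hv; exact absurd (G.sym _ _ hv) hn
            · rw [e] at hv; exact absurd (G.sym _ _ hv) hvw'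
          exact (ne_of_nb5 htw.1) ((k p hpF h3).trans (k r hrF h4).symm)
        · exact hpT
      exact Or.inr (Or.inl ⟨p, hpT, r, (hBas.twT F hL p r htw).1 hpT, htw, h5, h6⟩)
    · rcases h5 with h5 | h5
      · exact absurd hh.2.1 (hnl r h5.2)
      · exact Or.inr (Or.inr (Or.inl ⟨p, h5.1, r, h5.2, hh⟩))
    · exact absurd (hL.sat _ _ _ hh) (hnl v vF)
    · exfalso
      have hr : r ∈ G.N F := by
        rcases h3 with h3 | h3
        · exact absurd hh.2.1 (hnl r h3.2)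
        · exact h3.2
      exact hh.2.2.2.2.1 (mem_insert_of_mem (G.sym _ _ (allv r hr))))).1
  rw [T6] at hcnt
  have hterm : ∀ x ∈ G.N F, 5 * (G.wt3 G.Tw x * ((G.tT G.Tw F x).card : ℤ)) ≤ G.gam5 F x := by
    intro x hx
    have dx := d4 x hx
    by_cases hl : G.Low x
    · obtain ⟨k1, k2, -⟩ := hB.low4 F hL x hx hl dx
      have k3 : (G.tT G.Tw F x).card ≤ (G.pT F x).card := card_le_card (filter_subset _ _)
      rw [wt3, if_pos hl]
      have : ((G.tT G.Tw F x).card : ℤ) ≤ 1 := by exact_mod_cast k3.trans k1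
      linarith
    · by_cases hq : G.IsTw x
      · obtain ⟨-, -, k1, k2, -, k3⟩ := hB.tw F hL x hx hq
        have k4 := k3 dx
        obtain ⟨y, hy⟩ := hq
        have k5 : (G.tT G.Tw F x).card = 0 := by
          rw [card_eq_zero, eq_empty_iff_forall_notMem]
          intro u hu
          rw [tT, mem_filter] at hu
          have k6 : y ∈ G.nb x ∩ G.N F := mem_inter.2 ⟨hy.1, (hBas.twT F hL x y hy).1 hx⟩
          have k7 : (G.nb x ∩ G.N F).card ≤ 1 := by
            have : (G.pT F x).card ≤ 1 := by omega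
            exact this
          have k8 := card_le_one.1 k7 u hu.1 y k6
          exact hu.2 (k8 ▸ hy)
        rw [k5]
        simp only [Nat.cast_zero, mul_zero]
        omega
      · rw [hB.hub F hL x hx ⟨hl, hq⟩]
        have k1 : G.wt3 G.Tw x = 0 := by
          rw [wt3, if_neg hl, if_neg]
          exact hq
        rw [k1]
        simp
  have h5 := sum_le_sum hterm
  rw [← mul_sum] at h5
  have h6 : (((6 : ℕ) : ℤ)) = 6 := rfl
  rw [h6] at hcnt
  linarith

theorem st6QQ_53 (G : CG V) (hBas : G.StLBas) (hB : G.StLB) (hCnt : G.StLCnt) : G.St6QQ := by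
  classical
  rintro F ⟨hL, hc⟩ v w v' w' hF ht ht' h1 h2
  by_cases hn : v' ∈ G.nb v
  swap
  · exact Or.inl (qqn53 hBas hB hCnt hL hF ht ht' h1 h2 hc hn)
  have hFm : ∀ x ∈ F, x = v ∨ x = w ∨ x = v' ∨ x = w' := by
    intro x hx
    rw [hF] at hx
    simpa only [mem_insert, mem_singleton] using hx
  have vF : v ∈ F := by rw [hF]; simp
  have wF : w ∈ F := by rw [hF]; simp
  have vF' : v' ∈ F := by rw [hF]; simp
  have wF' : w' ∈ F := by rw [hF]; simp
  have hnl : ∀ x ∈ F, ¬ G.Low x := by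
    intro x hx
    rcases hFm x hx with h | h | h | h
    · rw [h]; exact tnl53 ht
    · rw [h]; exact tnl53 (tws53 ht)
    · rw [h]; exact tnl53 ht'
    · rw [h]; exact tnl53 (tws53 ht')
  have nF : ∀ {x : V}, x ∈ G.N F → x ∉ F := fun h => (mem_N76.1 h).1
  have T6 : (G.N F).card = 6 := hL.big.1.2.1
  have hv'v : v ∈ G.nb v' := G.sym _ _ hn
  have hw'v : w' ∈ G.nb v := twn53' ht' hn h2
  have hww : v' ∈ G.nb w := by
    refine twn53 ht hn ?_
    rintro rfl
    have : F.card ≤ 3 := by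
      rw [hF]
      refine le_trans (card_le_card (t := {v, v', w'}) ?_) card_le_three
      intro x hx
      simp only [mem_insert, mem_singleton] at hx ⊢
      tauto
    omega
  have hwne : w ≠ v' := by
    rintro rfl
    exact G.irr _ hww
  have hwne' : w ≠ w' := by
    rintro rfl
    have : F.card ≤ 3 := by
      rw [hF]
      refine le_trans (card_le_card (t := {v, w, v'}) ?_) card_le_three
      intro x hx
      simp only [mem_insert, mem_singleton] at hx ⊢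
      tauto
    omega
  have hwv' : w ∈ G.nb v' := G.sym _ _ hww
  -- four neighbours in `N F`
  have c7 : ∀ x y z z' : V, G.Tw x y → x ∈ F → (∀ u ∈ F, u = x ∨ u = y ∨ u = z ∨ u = z') →
      y ∈ F → z ∈ F → z' ∈ F → y ≠ z → y ≠ z' → z ≠ z' → z ∈ G.nb x → z' ∈ G.nb x →
      (G.nb x ∩ G.N F).card = 4 := by
    intro x y z z' hxy hx hm hy hz hz' e1 e2 e3 hzx hzx'
    have h3 : G.nb x = {y, z, z'} ∪ (G.nb x ∩ G.N F) := by
      ext u
      constructor
      · intro hu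
        by_cases huF : u ∈ F
        · rcases hm u huF with e | e | e | e
          · rw [e] at hu; exact absurd hu (G.irr _)
          · rw [e]; exact mem_union_left _ (by simp)
          · rw [e]; exact mem_union_left _ (by simp)
          · rw [e]; exact mem_union_left _ (by simp)
        · exact mem_union_right _ (mem_inter.2 ⟨hu, mem_N76.2 ⟨huF, x, hx, hu⟩⟩)
      · intro hu
        rcases mem_union.1 hu with h | h
        · simp only [mem_insert, mem_singleton] at h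
          rcases h with e | e | e
          · rw [e]; exact hxy.1
          · rw [e]; exact hzx
          · rw [e]; exact hzx'
        · exact (mem_inter.1 h).1
    have h4 : Disjoint ({y, z, z'} : Finset V) (G.nb x ∩ G.N F) := by
      rw [disjoint_left]
      intro u hu hu'
      have h5 : u ∈ F := by
        simp only [mem_insert, mem_singleton] at hu
        rcases hu with e | e | e
        · rw [e]; exact hy
        · rw [e]; exact hz
        · rw [e]; exact hz'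
      exact nF (mem_inter.1 hu').2 h5
    have h5 := card_union_of_disjoint h4
    rw [← h3, hxy.2.1, card_eq_three.2 ⟨y, z, z', e1, e2, e3, rfl⟩] at h5
    omega
  have hne' : v' ≠ w' := ne_of_nb5 ht'.1
  have hne : v ≠ w := ne_of_nb5 ht.1
  have cX := c7 v w v' w' ht vF hFm wF vF' wF' hwne hwne' hne' hn hw'v
  have cY := c7 v' w' v w ht' vF' (fun u hu => by have := hFm u hu; tauto) wF' vF wF
    (Ne.symm h2) (Ne.symm hwne') hne hv'v hwv'
  set X := G.nb v ∩ G.N F with hX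
  set Y := G.nb v' ∩ G.N F with hY
  have hXY : X ∪ Y = G.N F := by
    refine subset_antisymm (union_subset inter_subset_right inter_subset_right) ?_
    intro a ha
    obtain ⟨haF, u, hu, hau⟩ := mem_N76.1 ha
    rcases hFm u hu with e | e | e | e
    · rw [e] at hau; exact mem_union_left _ (mem_inter.2 ⟨hau, ha⟩)
    · rw [e] at hau
      exact mem_union_left _ (mem_inter.2 ⟨twn53 (tws53 ht) hau (fun e' => haF (e' ▸ vF)), ha⟩)
    · rw [e] at hau; exact mem_union_right _ (mem_inter.2 ⟨hau, ha⟩)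
    · rw [e] at hau
      exact mem_union_right _ (mem_inter.2 ⟨twn53 (tws53 ht') hau (fun e' => haF (e' ▸ vF')), ha⟩)
  have cU := card_union_add_card_inter X Y
  rw [hXY, T6, cX, cY] at cU
  have cM : (X ∩ Y).card = 2 := by omega
  have cA : (X \ Y).card = 2 := by
    have := card_sdiff_add_card_inter X Y
    omega
  have cB : (Y \ X).card = 2 := by
    have := card_sdiff_add_card_inter Y X
    rw [inter_comm] at this
    omega
  obtain ⟨m1, m2, m12, eM⟩ := card_eq_two.1 cM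
  obtain ⟨a1, a2, a12, eA⟩ := card_eq_two.1 cA
  obtain ⟨b1, b2, b12, eB⟩ := card_eq_two.1 cB
  have mM : ∀ x, (x = m1 ∨ x = m2) ↔ (x ∈ G.nb v ∧ x ∈ G.nb v' ∧ x ∈ G.N F) := by
    intro x
    have h3 : x ∈ X ∩ Y ↔ x ∈ ({m1, m2} : Finset V) := by rw [eM]
    rw [mem_inter, hX, hY, mem_inter, mem_inter, mem_insert, mem_singleton] at h3
    tauto
  have mA : ∀ x, (x = a1 ∨ x = a2) ↔ (x ∈ G.nb v ∧ x ∉ G.nb v' ∧ x ∈ G.N F) := by
    intro x
    have h3 : x ∈ X \ Y ↔ x ∈ ({a1, a2} : Finset V) := by rw [eA]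
    rw [mem_sdiff, hX, hY, mem_inter, mem_inter, mem_insert, mem_singleton] at h3
    tauto
  have mB : ∀ x, (x = b1 ∨ x = b2) ↔ (x ∉ G.nb v ∧ x ∈ G.nb v' ∧ x ∈ G.N F) := by
    intro x
    have h3 : x ∈ Y \ X ↔ x ∈ ({b1, b2} : Finset V) := by rw [eB]
    rw [mem_sdiff, hX, hY, mem_inter, mem_inter, mem_insert, mem_singleton] at h3
    tauto
  have fm1 := (mM m1).1 (Or.inl rfl)
  have fm2 := (mM m2).1 (Or.inr rfl)
  have fa1 := (mA a1).1 (Or.inl rfl)
  have fa2 := (mA a2).1 (Or.inr rfl)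
  have fb1 := (mB b1).1 (Or.inl rfl)
  have fb2 := (mB b2).1 (Or.inr rfl)
  have hT : ∀ y ∈ G.N F, y = m1 ∨ y = m2 ∨ y = a1 ∨ y = a2 ∨ y = b1 ∨ y = b2 := by
    intro y hy
    have h3 := mM y
    have h4 := mA y
    have h5 := mB y
    have h6 : y ∈ X ∪ Y := by rw [hXY]; exact hy
    rw [mem_union, hX, hY, mem_inter, mem_inter] at h6
    tauto
  have hsum : ∑ x ∈ G.N F, G.gam5 F x = G.gam5 F m1 + G.gam5 F m2 +
      (G.gam5 F a1 + G.gam5 F a2) + (G.gam5 F b1 + G.gam5 F b2) := by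
    have h3 : G.N F = (X ∩ Y) ∪ (X \ Y) ∪ (Y \ X) := by
      rw [← hXY]
      ext x
      simp only [mem_union, mem_inter, mem_sdiff]
      tauto
    have h4 : Disjoint (X ∩ Y ∪ X \ Y) (Y \ X) := by
      rw [disjoint_left]
      intro x hx hx'
      simp only [mem_union, mem_inter, mem_sdiff] at hx hx'
      tauto
    have h5 : Disjoint (X ∩ Y) (X \ Y) := by
      rw [disjoint_left]
      intro x hx hx'
      simp only [mem_inter, mem_sdiff] at hx hx'
      tauto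
    rw [h3, sum_union h4, sum_union h5, eM, eA, eB, sum_pair m12, sum_pair a12, sum_pair b12]
  -- the edge `v v'`
  have hvv : G.Low m1 ∨ G.Low m2 ∨ G.Tw m1 m2 := by
    have hlow : ∀ x ∈ F ∪ G.N F, G.Low x → x ∈ G.N F := by
      intro x hx hl
      rcases mem_union.1 hx with h | h
      · exact absurd hl (hnl x h)
      · exact h
    rcases hL.cov v vF v' (mem_union_left _ vF') hn with
      ⟨x, hx, hl, h3, h4⟩ | ⟨p, hp, r, hr, htw, h3, h4, h5, h6⟩ | ⟨p, r, hh, -⟩ |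
      ⟨p, r, hh, -⟩ | ⟨p, r, hh, -⟩
    · rcases (mM x).2 ⟨G.sym _ _ h3, G.sym _ _ h4, hlow x hx hl⟩ with e | e
      · exact Or.inl (e ▸ hl)
      · exact Or.inr (Or.inl (e ▸ hl))
    · right; right
      have hpr : p ≠ r := ne_of_nb5 htw.1
      have hpT : p ∈ G.N F := by
        rcases mem_union.1 hp with hpF | hpT
        · exfalso
          have hrF := (hBas.twT F hL p r htw).2 hpF
          -- `p`, `r` are `w`, `w'`
          have k : ∀ u ∈ F, v ∈ G.nb u → v' ∈ G.nb u → u = w ∨ u = w' := by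
            intro u hu hv hv'
            rcases hFm u hu with e | e | e | e
            · rw [e] at hv; exact absurd hv (G.irr _)
            · exact Or.inl e
            · rw [e] at hv'; exact absurd hv' (G.irr _)
            · exact Or.inr e
          have htt : G.Tw w w' := by
            rcases k p hpF h3 h5 with e | e <;> rcases k r hrF h4 h6 with e' | e'
            · exact absurd (e.trans e'.symm) hpr
            · rw [e, e'] at htw; exact htw
            · rw [e, e'] at htw; exact tws53 htw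
            · exact absurd (e.trans e'.symm) hpr
          have k1 : a1 ∈ G.nb w := twn53 ht fa1.1 (fun e => nF fa1.2.2 (e ▸ wF))
          have k2 : a1 ∈ G.nb w' := twn53 htt k1 (fun e => nF fa1.2.2 (e ▸ wF'))
          exact fa1.2.1 (twn53 (tws53 ht') k2 (fun e => nF fa1.2.2 (e ▸ vF')))
        · exact hpT
      have hrT := (hBas.twT F hL p r htw).1 hpT
      rcases (mM p).2 ⟨G.sym _ _ h3, G.sym _ _ h5, hpT⟩ with e | e <;>
        rcases (mM r).2 ⟨G.sym _ _ h4, G.sym _ _ h6, hrT⟩ with e' | e'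
      · exact absurd (e.trans e'.symm) hpr
      · rw [e, e'] at htw; exact htw
      · rw [e, e'] at htw; exact tws53 htw
      · exact absurd (e.trans e'.symm) hpr
    · exact absurd (hL.sat _ _ _ hh) (hnl v' vF')
    · exact absurd (hL.sat _ _ _ hh) (hnl v vF)
    · exfalso
      obtain ⟨hpl, hrl, hrp, hva, hvr, hap, heq⟩ := hh
      have h5 : v ∈ G.cl p := by
        have h6 : v ∈ insert v' (G.cl p) := by rw [heq]; exact mem_insert_self _ _
        rcases mem_insert.1 h6 with h7 | h7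
        · exact absurd h7 hva
        · exact h7
      have hpv : v ∈ G.nb p := by
        rcases mem_insert.1 h5 with h7 | h7
        · rw [← h7] at hpl; exact absurd hpl (hnl v vF)
        · exact h7
      have hwp : w ∈ G.nb p := twn53' ht hpv (fun e => hnl w wF (e ▸ hpl))
      have h8 : w ∈ insert v (G.cl r) := by
        rw [← heq]; exact mem_insert_of_mem (mem_insert_of_mem hwp)
      rcases mem_insert.1 h8 with h9 | h9
      · exact hne h9.symm
      · rcases mem_insert.1 h9 with h10 | h10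
        · rw [← h10] at hrl; exact hnl w wF hrl
        · exact hvr (mem_insert_of_mem (twn53' (tws53 ht) h10 (fun e => hnl v vF (e ▸ hrl))))
  -- the situation
  have npair : G.Tw m1 m2 → a1 ∉ G.nb m1 ∧ a2 ∉ G.nb m1 ∧ b1 ∉ G.nb m1 ∧ b2 ∉ G.nb m1 := by
    intro hm
    have h3 := hB.tw F hL m1 fm1.2.2 ⟨m2, hm⟩
    have hd : G.d m1 F = 4 := by
      have h4 : G.nb m1 ∩ F = F := by
        rw [inter_eq_right]
        intro x hx
        have hmF := nF fm1.2.2
        rcases hFm x hx with h | h | h | h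
        · rw [h]; exact G.sym _ _ fm1.1
        · rw [h]; exact twn53' ht (G.sym _ _ fm1.1) (fun e => hmF (e ▸ wF))
        · rw [h]; exact G.sym _ _ fm1.2.1
        · rw [h]; exact twn53' ht' (G.sym _ _ fm1.2.1) (fun e => hmF (e ▸ wF'))
      rw [d, h4, hc]
    have h4 : (G.pT F m1).card ≤ 1 := by
      have := h3.2.2.2.1
      omega
    have h5 : m2 ∈ G.pT F m1 := mem_inter.2 ⟨hm.1, fm2.2.2⟩
    have h6 : ∀ x ∈ G.N F, x ≠ m2 → x ∉ G.nb m1 := by
      intro x hx hne2 hx2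
      exact hne2 (card_le_one.1 h4 x (mem_inter.2 ⟨hx2, hx⟩) m2 h5)
    refine ⟨h6 a1 fa1.2.2 ?_, h6 a2 fa2.2.2 ?_, h6 b1 fb1.2.2 ?_, h6 b2 fb2.2.2 ?_⟩
    · rintro rfl; exact fa1.2.1 fm2.2.1
    · rintro rfl; exact fa2.2.1 fm2.2.1
    · rintro rfl; exact fb1.1 fm2.1
    · rintro rfl; exact fb2.1 fm2.1
  have C : G.Q53 F v w v' w' m1 m2 a1 a2 b1 b2 :=
    { lf := hL, hF := hFm, vF := vF, wF := wF, vF' := vF', wF' := wF', c4 := hc, tw := ht,
      tw' := ht', hT := hT, m1T := fm1.2.2, m2T := fm2.2.2, a1T := fa1.2.2, a2T := fa2.2.2,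
      b1T := fb1.2.2, b2T := fb2.2.2, m12 := m12, a12 := a12, b12 := b12, m1v := fm1.1,
      m2v := fm2.1, a1v := fa1.1, a2v := fa2.1, b1v := fb1.1, b2v := fb2.1, m1v' := fm1.2.1,
      m2v' := fm2.2.1, b1v' := fb1.2.1, b2v' := fb2.2.1, a1v' := fa1.2.1, a2v' := fa2.2.1,
      np := npair }
  rw [hsum]
  rcases hvv with hl | hl | hm
  · exact Or.inl (C.six hBas hB hl)
  · refine Or.inl ?_
    have h3 := C.mswap.six hBas hB hl
    linarith
  · refine Or.inr ⟨hn, ⟨m1, m2, hm, fm1.2.2, fm2.2.2, ?_⟩, C.pairM hBas hB hm⟩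
    intro x hx
    have hmF := nF fm1.2.2
    rcases hFm x hx with h | h | h | h
    · rw [h]; exact G.sym _ _ fm1.1
    · rw [h]; exact twn53' ht (G.sym _ _ fm1.1) (fun e => hmF (e ▸ wF))
    · rw [h]; exact G.sym _ _ fm1.2.1
    · rw [h]; exact twn53' ht' (G.sym _ _ fm1.2.1) (fun e => hmF (e ▸ wF'))

end CG

end Pool.Agent.Lib.MP_e95c01_co.N
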