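import Pool.Agent.Lib.MP_e95c01_co.X.StmtsJ76
import Pool.Agent.Lib.MP_e95c01_co.X.K1_28

/-!
# `λ = 3`: leaves with four or five vertices, assembly
-/

namespace Pool.Agent.Lib.MP_e95c01_co.N

open Finset

variable {V : Type} [Fintype V] [DecidableEq V]

namespace CG

variable {G : CG V}

/-- partition of a set without twins -/
theorem part_LH76 {F : Finset V} (h : ∀ z ∈ F, G.Low z ∨ G.Hub z) : open Classical in
    F = (F.filter fun z => G.Low z) ∪ (F.filter fun z => G.Hub z) ∧
    F.card = G.l F + (F.filter fun z => G.Hub z).card := by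
  classical
  have h1 : F = (F.filter fun z => G.Low z) ∪ (F.filter fun z => G.Hub z) := by
    ext z
    rw [mem_union, mem_filter, mem_filter]
    constructor
    · intro hz
      rcases h z hz with h1 | h1
      · exact Or.inl ⟨hz, h1⟩
      · exact Or.inr ⟨hz, h1⟩
    · rintro (h1 | h1) <;> exact h1.1
  refine ⟨h1, ?_⟩
  have h2 : Disjoint (F.filter fun z => G.Low z) (F.filter fun z => G.Hub z) := by
    rw [disjoint_left]
    intro z hz hz'
    exact (mem_filter.1 hz').2.1 (mem_filter.1 hz).2
  have h3 := card_union_of_disjoint h2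
  rw [← h1] at h3
  rw [h3, l]

theorem l_insert_low76 {F : Finset V} {z : V} (hz : z ∉ F) (h : G.Low z) :
    G.l (insert z F) = G.l F + 1 := by
  unfold l
  rw [filter_insert, if_pos h, card_insert_of_notMem (fun h1 => hz (mem_filter.1 h1).1)]

theorem l_insert_not76 {F : Finset V} {z : V} (h : ¬ G.Low z) :
    G.l (insert z F) = G.l F := by
  unfold l
  rw [filter_insert, if_neg h]

theorem l_empty76 : G.l (∅ : Finset V) = 0 := by
  unfold l
  rw [filter_empty, card_empty]

theorem twn76 {v w : V} (h : G.Tw v w) : ¬ G.Low v ∧ ¬ G.Low w :=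
  ⟨tw_not_low11 ⟨w, h⟩, tw_not_low11 ⟨v, (stTwHL_5 G).symm _ _ h⟩⟩

theorem low_or_hub76 {z : V} (h : ¬ G.IsTw z) : G.Low z ∨ G.Hub z := by
  by_cases h1 : G.Low z
  · exact Or.inl h1
  · exact Or.inr ⟨h1, h⟩

omit [Fintype V] in
/-- the remainder of a set with a pair of twins -/
theorem rem_pair76 {F : Finset V} {v w : V} (hv : v ∈ F) (hw : w ∈ F) (h : v ≠ w) :
    F = insert v (insert w ((F.erase v).erase w)) ∧ ((F.erase v).erase w).card + 2 = F.card ∧
      v ∉ (insert w ((F.erase v).erase w)) ∧ w ∉ ((F.erase v).erase w) := by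
  have h1 : w ∈ F.erase v := mem_erase.2 ⟨h.symm, hw⟩
  refine ⟨by rw [insert_erase h1, insert_erase hv], ?_, ?_, ?_⟩
  · rw [card_erase_of_mem h1, card_erase_of_mem hv]
    have := card_pos.2 ⟨w, h1⟩
    rw [card_erase_of_mem hv] at this
    omega
  · rw [insert_erase h1]
    exact notMem_erase _ _
  · exact notMem_erase _ _

/-- H8 -/
theorem stF6_76 (G : CG V) (hsit : G.StLSit) (hP : G.StLP) (hB : G.StLBas) (h1 : G.St6LLLL)
    (h1b : G.St6LLLH) (h1c : G.St6LLHH) (h2 : G.St6LLQ) (h3 : G.St6LHHH) (h4 : G.St6LHQ)
    (h5 : G.St6HHHH) (h6 : G.St6HHQ) (h7 : G.St6QQ) : G.StF6 := by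
  classical
  intro hsat F hF hc hleaf hcov
  have hLf := hsit hsat F hF (by omega) hleaf hcov
  have h4F : G.L4 F := ⟨hLf, hc⟩
  have h9 : 9 ≤ Fintype.card V := by have := hLf.n12; omega
  have hp := hP F hF
  rw [hc] at hp
  push_cast at hp
  by_cases htw : ∃ v ∈ F, G.IsTw v
  · obtain ⟨v, hv, w, hvw⟩ := htw
    have hw := (hB.twT F hLf v w hvw).2 hv
    have hne : v ≠ w := fun e => G.irr w (by have := hvw.1; rwa [e] at this)
    obtain ⟨e1, e2, e3, e4⟩ := rem_pair76 hv hw hne
    rw [hc] at e2
    obtain ⟨a, b, hab, e5⟩ := card_eq_two.1 (show ((F.erase v).erase w).card = 2 by omega)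
    rw [e5] at e1 e3 e4
    have ha : a ∈ F := by rw [e1]; simp
    have hb : b ∈ F := by rw [e1]; simp
    have hFs : F = {a, b, v, w} := by
      rw [e1]; ext u; simp only [mem_insert, mem_singleton]; tauto
    have hFs' : F = {b, a, v, w} := by
      rw [e1]; ext u; simp only [mem_insert, mem_singleton]; tauto
    have ea : a ≠ v ∧ a ≠ w := by
      simp only [mem_insert, mem_singleton, not_or] at e3 e4
      exact ⟨Ne.symm e3.2.1, Ne.symm e4.1⟩
    have eb : b ≠ v ∧ b ≠ w := by
      simp only [mem_insert, mem_singleton, not_or] at e3 e4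
      exact ⟨Ne.symm e3.2.2, Ne.symm e4.2⟩
    have hl : G.l F = G.l {a, b} := by
      rw [e1, l_insert_not76 (twn76 hvw).1, l_insert_not76 (twn76 hvw).2]
    have hpart : ∀ x y, G.Tw x y → x ∈ F → x ≠ v → x ≠ w → y = a ∨ y = b := by
      intro x y hxy hx hxv hxw
      have hy := (hB.twT F hLf x y hxy).2 hx
      rw [e1] at hy
      simp only [mem_insert, mem_singleton] at hy
      rcases hy with rfl | rfl | h | h
      · exact absurd ((stTwHL_5 G).uniq h9 _ _ _ ((stTwHL_5 G).symm _ _ hxy) hvw) hxw
      · exact absurd ((stTwHL_5 G).uniq h9 _ _ _ ((stTwHL_5 G).symm _ _ hxy)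
          ((stTwHL_5 G).symm _ _ hvw)) hxv
      · exact Or.inl h
      · exact Or.inr h
    -- two pairs
    have hQQ : G.Tw a b → 0 ≤ G.P5 F ∨ (G.Ex5 F ∧ -6 ≤ G.P5 F) := by
      intro hab'
      have hl0 : G.l F = 0 := by
        rw [hl, l_insert_not76 (twn76 hab').1, show ({b} : Finset V) = insert b ∅ from rfl,
          l_insert_not76 (twn76 hab').2, l_empty76]
      rw [hl0] at hp
      push_cast at hp
      rcases h7 F h4F a b v w hFs hab' hvw ea.1 ea.2 with h | ⟨k1, k2, k3⟩
      · left; omega
      · right
        refine ⟨⟨?_, ?_, Or.inr ⟨hc, k2⟩⟩, by omega⟩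
        · intro x hx
          rw [hFs] at hx
          simp only [mem_insert, mem_singleton] at hx
          rcases hx with rfl | rfl | rfl | rfl
          · exact ⟨_, hab'⟩
          · exact ⟨_, (stTwHL_5 G).symm _ _ hab'⟩
          · exact ⟨_, hvw⟩
          · exact ⟨_, (stTwHL_5 G).symm _ _ hvw⟩
        · have adj : ∀ {x y u : V}, G.Tw x y → u ∈ G.nb x → u ≠ y → u ∈ G.nb y := by
            intro x y u hxy hu huy
            have h1 : u ∈ G.cl x := mem_insert_of_mem hu
            rw [hxy.2.2, cl, mem_insert] at h1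
            exact h1.resolve_left huy
          have a1 : v ∈ G.nb a := k1
          have a2 : a ∈ G.nb v := G.sym _ _ a1
          have a3 : a ∈ G.nb w := adj hvw a2 ea.2
          have a4 : w ∈ G.nb a := G.sym _ _ a3
          have a5 : v ∈ G.nb b := adj hab' a1 eb.1.symm
          have a6 : w ∈ G.nb b := adj hab' a4 eb.2.symm
          have a7 : b ∈ G.nb a := hab'.1
          have a8 : w ∈ G.nb v := hvw.1
          intro x hx y hy hxy
          rw [hFs] at hx hy
          simp only [mem_insert, mem_singleton] at hx hy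
          rcases hx with rfl | rfl | rfl | rfl <;> rcases hy with rfl | rfl | rfl | rfl <;>
            first
              | exact absurd rfl hxy
              | assumption
              | exact G.sym _ _ (by assumption)
    by_cases hta : G.IsTw a
    · obtain ⟨y, hy⟩ := hta
      rcases hpart a y hy ha ea.1 ea.2 with rfl | rfl
      · exact absurd hy.1 (G.irr _)
      · exact hQQ hy
    by_cases htb : G.IsTw b
    · obtain ⟨y, hy⟩ := htb
      rcases hpart b y hy hb eb.1 eb.2 with rfl | rfl
      · exact hQQ ((stTwHL_5 G).symm _ _ hy)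
      · exact absurd hy.1 (G.irr _)
    left
    have hnb : a ∉ ({b} : Finset V) := by rw [mem_singleton]; exact hab
    rcases low_or_hub76 hta with la | la <;> rcases low_or_hub76 htb with lb | lb
    · have := h2 F h4F a b v w hFs hab la lb hvw
      rw [hl, l_insert_low76 hnb la, show ({b} : Finset V) = insert b ∅ from rfl,
        l_insert_low76 (notMem_empty _) lb, l_empty76] at hp
      push_cast at hp
      omega
    · have := h4 F h4F a b v w hFs la lb hvw
      rw [hl, l_insert_low76 hnb la, show ({b} : Finset V) = insert b ∅ from rfl,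
        l_insert_not76 lb.1, l_empty76] at hp
      push_cast at hp
      omega
    · have := h4 F h4F b a v w hFs' lb la hvw
      rw [hl, l_insert_not76 la.1, show ({b} : Finset V) = insert b ∅ from rfl,
        l_insert_low76 (notMem_empty _) lb, l_empty76] at hp
      push_cast at hp
      omega
    · have := h6 F h4F a b v w hFs hab la lb hvw
      rw [hl, l_insert_not76 la.1, show ({b} : Finset V) = insert b ∅ from rfl,
        l_insert_not76 lb.1, l_empty76] at hp
      push_cast at hp
      omega
  · push Not at htw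
    left
    obtain ⟨e1, e2⟩ := part_LH76 (G := G) (F := F) (fun z hz => low_or_hub76 (htw z hz))
    rw [hc] at e2
    have hcases : G.l F = 4 ∨ G.l F = 3 ∨ G.l F = 2 ∨ G.l F = 1 ∨ G.l F = 0 := by omega
    rcases hcases with h | h | h | h | h
    · have : ∀ z ∈ F, G.Low z := by
        intro z hz
        by_contra hl
        have h0 : (F.filter fun z => G.Hub z).card = 0 := by omega
        have h0' : z ∈ F.filter fun z => G.Hub z :=
          mem_filter.2 ⟨hz, (low_or_hub76 (htw z hz)).resolve_left hl⟩
        rw [card_eq_zero.1 h0] at h0'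
        simp at h0'
      have := h1 F h4F this
      rw [h] at hp
      push_cast at hp
      omega
    · obtain ⟨x, hx⟩ := card_eq_one.1 (show (F.filter fun z => G.Hub z).card = 1 by omega)
      have hx1 : x ∈ F.filter fun z => G.Hub z := by rw [hx]; simp
      have := h1b F h4F x (mem_filter.1 hx1).1 (mem_filter.1 hx1).2 (by
        intro z hz hzx
        by_contra hl
        have h0' : z ∈ F.filter fun z => G.Hub z :=
          mem_filter.2 ⟨hz, (low_or_hub76 (htw z hz)).resolve_left hl⟩
        rw [hx, mem_singleton] at h0'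
        exact hzx h0')
      rw [h] at hp
      push_cast at hp
      omega
    · obtain ⟨x, y, hxy, hx⟩ :=
        card_eq_two.1 (show (F.filter fun z => G.Hub z).card = 2 by omega)
      have h' : (F.filter fun z => G.Low z).card = 2 := h
      obtain ⟨x', y', hxy', hx'⟩ := card_eq_two.1 h'
      have m1 : x ∈ F.filter fun z => G.Hub z := by rw [hx]; simp
      have m2 : y ∈ F.filter fun z => G.Hub z := by rw [hx]; simp
      have m3 : x' ∈ F.filter fun z => G.Low z := by rw [hx']; simp
      have m4 : y' ∈ F.filter fun z => G.Low z := by rw [hx']; simp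
      have := h1c F h4F x' y' x y (by
        rw [e1]
        ext u
        have := Finset.ext_iff.1 hx u
        have := Finset.ext_iff.1 hx' u
        simp only [mem_union, mem_insert, mem_singleton] at *
        tauto) hxy' hxy (mem_filter.1 m3).2 (mem_filter.1 m4).2 (mem_filter.1 m1).2
        (mem_filter.1 m2).2
      rw [h] at hp
      push_cast at hp
      omega
    · have h' : (F.filter fun z => G.Low z).card = 1 := h
      obtain ⟨x, hx⟩ := card_eq_one.1 h'
      have hx1 : x ∈ F.filter fun z => G.Low z := by rw [hx]; simp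
      have := h3 F h4F x (mem_filter.1 hx1).1 (mem_filter.1 hx1).2 (by
        intro z hz hzx
        refine (low_or_hub76 (htw z hz)).resolve_left fun hl => ?_
        have h0' : z ∈ F.filter fun z => G.Low z := mem_filter.2 ⟨hz, hl⟩
        rw [hx, mem_singleton] at h0'
        exact hzx h0')
      rw [h] at hp
      push_cast at hp
      omega
    · have h' : (F.filter fun z => G.Low z).card = 0 := h
      have := h5 F h4F (by
        intro z hz
        refine (low_or_hub76 (htw z hz)).resolve_left fun hl => ?_
        have h0' : z ∈ F.filter fun z => G.Low z := mem_filter.2 ⟨hz, hl⟩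
        rw [card_eq_zero.1 h'] at h0'
        simp at h0')
      rw [h] at hp
      push_cast at hp
      omega

/-- J10 -/
theorem stF7_76 (G : CG V) (hsit : G.StLSit) (hP : G.StLP) (hB : G.StLBas) (j1 : G.St7L3)
    (j2 : G.St7LLHHH) (j3 : G.St7LLHQ) (j4 : G.St7LHHHH) (ja : G.St7LHHQa) (jb : G.St7LHHQb)
    (jc : G.St7LHHQc) (jd : G.St7LHHQd) (j6 : G.St7LQQ) (j7 : G.St7HHHHH) (j8 : G.St7HHHQ)
    (j9 : G.St7HQQ) : G.StF7 := by
  classical
  intro hsat F hF hc hleaf hcov
  have hLf := hsit hsat F hF (by omega) hleaf hcov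
  have h5F : G.L5 F := ⟨hLf, hc⟩
  have h9 : 9 ≤ Fintype.card V := by have := hLf.n12; omega
  have hp := hP F hF
  rw [hc] at hp
  push_cast at hp
  by_cases hl3 : 3 ≤ G.l F
  · have := j1 F h5F
    have h3 : (3 : ℤ) ≤ (G.l F : ℤ) := by exact_mod_cast hl3
    omega
  by_cases htw : ∃ v ∈ F, G.IsTw v
  · obtain ⟨v, hv, w, hvw⟩ := htw
    have hw := (hB.twT F hLf v w hvw).2 hv
    have hne : v ≠ w := fun e => G.irr w (by have := hvw.1; rwa [e] at this)
    obtain ⟨e1, e2, e3, e4⟩ := rem_pair76 hv hw hne
    rw [hc] at e2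
    obtain ⟨a, b, c, hab, hac, hbc, e5⟩ :=
      card_eq_three.1 (show ((F.erase v).erase w).card = 3 by omega)
    rw [e5] at e1 e3 e4
    have ha : a ∈ F := by rw [e1]; simp
    have hb : b ∈ F := by rw [e1]; simp
    have hcF : c ∈ F := by rw [e1]; simp
    simp only [mem_insert, mem_singleton, not_or] at e3 e4
    have hl : G.l F = G.l {a, b, c} := by
      rw [e1, l_insert_not76 (twn76 hvw).1, l_insert_not76 (twn76 hvw).2]
    have hpart : ∀ x y, G.Tw x y → x ∈ F → x ≠ v → x ≠ w → y = a ∨ y = b ∨ y = c := by
      intro x y hxy hx hxv hxw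
      have hy := (hB.twT F hLf x y hxy).2 hx
      rw [e1] at hy
      simp only [mem_insert, mem_singleton] at hy
      rcases hy with rfl | rfl | h | h | h
      · exact absurd ((stTwHL_5 G).uniq h9 _ _ _ ((stTwHL_5 G).symm _ _ hxy) hvw) hxw
      · exact absurd ((stTwHL_5 G).uniq h9 _ _ _ ((stTwHL_5 G).symm _ _ hxy)
          ((stTwHL_5 G).symm _ _ hvw)) hxv
      · exact Or.inl h
      · exact Or.inr (Or.inl h)
      · exact Or.inr (Or.inr h)
    -- two pairs and a third vertex
    have hQQ : ∀ a b c, F = {v, w, a, b, c} → a ≠ c → b ≠ c → a ≠ v → a ≠ w → c ≠ v → c ≠ w →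
        G.Tw a b → 0 ≤ G.P5 F := by
      intro a b c hFs nac nbc nav naw ncv ncw hab'
      have hcF : c ∈ F := by rw [hFs]; simp
      have hct : ¬ G.IsTw c := by
        rintro ⟨y, hy⟩
        have hyF := (hB.twT F hLf c y hy).2 hcF
        rw [hFs] at hyF
        simp only [mem_insert, mem_singleton] at hyF
        have hs := (stTwHL_5 G).symm _ _ hy
        rcases hyF with rfl | rfl | rfl | rfl | rfl
        · exact ncw ((stTwHL_5 G).uniq h9 _ _ _ hs hvw)
        · exact ncv ((stTwHL_5 G).uniq h9 _ _ _ hs ((stTwHL_5 G).symm _ _ hvw))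
        · exact nbc ((stTwHL_5 G).uniq h9 _ _ _ hs hab').symm
        · exact nac ((stTwHL_5 G).uniq h9 _ _ _ hs ((stTwHL_5 G).symm _ _ hab')).symm
        · exact G.irr y hy.1
      have hFs' : F = {c, a, b, v, w} := by
        rw [hFs]; ext u; simp only [mem_insert, mem_singleton]; tauto
      have hl' : G.l F = G.l {c} := by
        rw [hFs, l_insert_not76 (twn76 hvw).1, l_insert_not76 (twn76 hvw).2,
          l_insert_not76 (twn76 hab').1, l_insert_not76 (twn76 hab').2]
      rcases low_or_hub76 hct with lc | lc
      · have := j6 F h5F c a b v w hFs' lc hab' hvw nav naw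
        rw [hl', show ({c} : Finset V) = insert c ∅ from rfl,
          l_insert_low76 (notMem_empty _) lc, l_empty76] at hp
        push_cast at hp
        omega
      · have := j9 F h5F c a b v w hFs' lc hab' hvw nav naw
        rw [hl', show ({c} : Finset V) = insert c ∅ from rfl,
          l_insert_not76 lc.1, l_empty76] at hp
        push_cast at hp
        omega
    have tsym := (stTwHL_5 G).symm
    have s1 : F = {v, w, a, b, c} := e1
    have s2 : F = {v, w, a, c, b} := by
      rw [e1]; ext u; simp only [mem_insert, mem_singleton]; tauto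
    have s3 : F = {v, w, b, c, a} := by
      rw [e1]; ext u; simp only [mem_insert, mem_singleton]; tauto
    by_cases hta : G.IsTw a
    · obtain ⟨y, hy⟩ := hta
      rcases hpart a y hy ha (Ne.symm e3.2.1) (Ne.symm e4.1) with rfl | rfl | rfl
      · exact absurd hy.1 (G.irr y)
      · exact hQQ a y c s1 hac hbc (Ne.symm e3.2.1) (Ne.symm e4.1) (Ne.symm e3.2.2.2)
          (Ne.symm e4.2.2) hy
      · exact hQQ a y b s2 hab (Ne.symm hbc) (Ne.symm e3.2.1) (Ne.symm e4.1) (Ne.symm e3.2.2.1)
          (Ne.symm e4.2.1) hy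
    by_cases htb : G.IsTw b
    · obtain ⟨y, hy⟩ := htb
      rcases hpart b y hy hb (Ne.symm e3.2.2.1) (Ne.symm e4.2.1) with rfl | rfl | rfl
      · exact absurd ⟨_, tsym _ _ hy⟩ hta
      · exact absurd hy.1 (G.irr y)
      · exact hQQ b y a s3 (Ne.symm hab) (Ne.symm hac) (Ne.symm e3.2.2.1) (Ne.symm e4.2.1)
          (Ne.symm e3.2.1) (Ne.symm e4.1) hy
    by_cases htc : G.IsTw c
    · obtain ⟨y, hy⟩ := htc
      rcases hpart c y hy hcF (Ne.symm e3.2.2.2) (Ne.symm e4.2.2) with rfl | rfl | rfl
      · exact absurd ⟨_, tsym _ _ hy⟩ hta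
      · exact absurd ⟨_, tsym _ _ hy⟩ htb
      · exact absurd hy.1 (G.irr y)
    -- exactly one pair; `a`, `b`, `c` are low vertices or hubs
    have two : ∀ a b c, F = {v, w, a, b, c} → a ≠ b → a ≠ c → b ≠ c → G.Low a → G.Low b →
        G.Hub c → 0 ≤ G.P5 F := by
      intro a b c hFs nab nac nbc la lb lc
      have := j3 F h5F a b c v w (by
        rw [hFs]; ext u; simp only [mem_insert, mem_singleton]; tauto) nab la lb lc hvw
      have hlF : G.l F = 2 := by
        rw [hFs, l_insert_not76 (twn76 hvw).1, l_insert_not76 (twn76 hvw).2,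
          l_insert_low76 (by simp [nab, nac]) la, l_insert_low76 (by simp [nbc]) lb,
          show ({c} : Finset V) = insert c ∅ from rfl, l_insert_not76 lc.1, l_empty76]
      rw [hlF] at hp
      push_cast at hp
      omega
    have one : ∀ a b c, F = {v, w, a, b, c} → a ≠ b → a ≠ c → b ≠ c → G.Low a → G.Hub b →
        G.Hub c → 0 ≤ G.P5 F := by
      intro a b c hFs nab nac nbc la lb lc
      have hs : F = {a, b, c, v, w} := by
        rw [hFs]; ext u; simp only [mem_insert, mem_singleton]; tauto
      have h20 : 20 ≤ ∑ w ∈ G.N F, G.gam5 F w := by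
        by_cases k1 : a ∈ G.nb v
        · by_cases k2 : ∃ P ∈ G.N F, G.IsTw P
          · by_cases k3 : ∃ P ∈ G.N F, G.IsTw P ∧ (P ∉ G.nb a ∨ P ∉ G.nb v)
            · exact jc F h5F a b c v w hs nbc la lb lc hvw k1 k3
            · refine jd F h5F a b c v w hs nbc la lb lc hvw k1 k2 ?_
              intro P hP' hPt
              by_contra hcon
              exact k3 ⟨P, hP', hPt, by tauto⟩
          · refine jb F h5F a b c v w hs nbc la lb lc hvw k1 ?_
            intro P hP' hPt
            exact k2 ⟨P, hP', hPt⟩
        · exact ja F h5F a b c v w hs nbc la lb lc hvw k1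
      have hlF : G.l F = 1 := by
        rw [hFs, l_insert_not76 (twn76 hvw).1, l_insert_not76 (twn76 hvw).2,
          l_insert_low76 (by simp [nab, nac]) la, l_insert_not76 lb.1,
          show ({c} : Finset V) = insert c ∅ from rfl, l_insert_not76 lc.1, l_empty76]
      rw [hlF] at hp
      push_cast at hp
      omega
    have perm1 : F = {v, w, b, a, c} := by
      rw [e1]; ext u; simp only [mem_insert, mem_singleton]; tauto
    have perm2 : F = {v, w, c, a, b} := by
      rw [e1]; ext u; simp only [mem_insert, mem_singleton]; tauto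
    rcases low_or_hub76 hta with la | la <;> rcases low_or_hub76 htb with lb | lb <;>
      rcases low_or_hub76 htc with lc | lc
    · exfalso
      rw [hl, l_insert_low76 (by simp [hab, hac]) la, l_insert_low76 (by simp [hbc]) lb,
        show ({c} : Finset V) = insert c ∅ from rfl, l_insert_low76 (notMem_empty _) lc] at hl3
      omega
    · exact two a b c s1 hab hac hbc la lb lc
    · exact two a c b s2 hac hab hbc.symm la lc lb
    · exact one a b c s1 hab hac hbc la lb lc
    · exact two b c a s3 hbc hab.symm hac.symm lb lc la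
    · exact one b a c perm1 hab.symm hbc hac lb la lc
    · exact one c a b perm2 hac.symm hbc.symm hab lc la lb
    · have := j8 F h5F v hv w hw hvw (by
        intro z hz hzv hzw
        rw [e1] at hz
        simp only [mem_insert, mem_singleton] at hz
        rcases hz with h | h | h | h | h
        · exact absurd h hzv
        · exact absurd h hzw
        · rw [h]; exact la
        · rw [h]; exact lb
        · rw [h]; exact lc)
      rw [hl, l_insert_not76 la.1, l_insert_not76 lb.1,
        show ({c} : Finset V) = insert c ∅ from rfl, l_insert_not76 lc.1, l_empty76] at hp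
      push_cast at hp
      omega
  · push Not at htw
    obtain ⟨e1, e2⟩ := part_LH76 (G := G) (F := F) (fun z hz => low_or_hub76 (htw z hz))
    rw [hc] at e2
    have hcases : G.l F = 2 ∨ G.l F = 1 ∨ G.l F = 0 := by omega
    rcases hcases with h | h | h
    · have h' : (F.filter fun z => G.Low z).card = 2 := h
      obtain ⟨x', y', hxy', hx'⟩ := card_eq_two.1 h'
      have m3 : x' ∈ F.filter fun z => G.Low z := by rw [hx']; simp
      have m4 : y' ∈ F.filter fun z => G.Low z := by rw [hx']; simp
      have := j2 F h5F x' (mem_filter.1 m3).1 y' (mem_filter.1 m4).1 hxy' (mem_filter.1 m3).2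
        (mem_filter.1 m4).2 (by
        intro z hz h1 h2
        refine (low_or_hub76 (htw z hz)).resolve_left fun hl => ?_
        have h0' : z ∈ F.filter fun z => G.Low z := mem_filter.2 ⟨hz, hl⟩
        rw [hx', mem_insert, mem_singleton] at h0'
        exact h0'.elim h1 h2)
      rw [h] at hp
      push_cast at hp
      omega
    · have h' : (F.filter fun z => G.Low z).card = 1 := h
      obtain ⟨x, hx⟩ := card_eq_one.1 h'
      have hx1 : x ∈ F.filter fun z => G.Low z := by rw [hx]; simp
      have := j4 F h5F x (mem_filter.1 hx1).1 (mem_filter.1 hx1).2 (by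
        intro z hz hzx
        refine (low_or_hub76 (htw z hz)).resolve_left fun hl => ?_
        have h0' : z ∈ F.filter fun z => G.Low z := mem_filter.2 ⟨hz, hl⟩
        rw [hx, mem_singleton] at h0'
        exact hzx h0')
      rw [h] at hp
      push_cast at hp
      omega
    · have h' : (F.filter fun z => G.Low z).card = 0 := h
      have := j7 F h5F (by
        intro z hz
        refine (low_or_hub76 (htw z hz)).resolve_left fun hl => ?_
        have h0' : z ∈ F.filter fun z => G.Low z := mem_filter.2 ⟨hz, hl⟩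
        rw [card_eq_zero.1 h'] at h0'
        simp at h0')
      rw [h] at hp
      push_cast at hp
      omega

end CG

end Pool.Agent.Lib.MP_e95c01_co.N
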