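import Pool.Agent.Lib.MP_e95c01_co.X.StmtsJ76
import Pool.Agent.Lib.MP_e95c01_co.X.H0a_11

/-!
# `λ = 3`, leaves with five vertices: basic facts (J0, J1)
-/

namespace Pool.Agent.Lib.MP_e95c01_co.N

open Finset

variable {V : Type} [Fintype V] [DecidableEq V]

namespace CG

variable {G : CG V} {F Z : Finset V}

theorem NZ_card11 (F Z : Finset V) (G : CG V) :
    (G.FZ F Z).card + (G.N Z ∩ F).card = F.card := by
  rw [FZ, inter_comm, add_comm]
  exact card_inter_add_card_sdiff F (G.N Z)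

/-- at least two neighbours -/
theorem pair7_11 (hBas : G.StLBas) (h : G.L5 F) (hZ : Z ⊆ G.N F) (h2 : 2 ≤ Z.card) :
    3 ≤ (G.N Z ∩ F).card := by
  have hc := NZ_card11 F Z G
  have h5 := h.2
  have hZn : Z.Nonempty := by
    rw [← card_pos]
    omega
  rcases (G.FZ F Z).eq_empty_or_nonempty with he | hR
  · rw [he, card_empty] at hc
    omega
  · obtain ⟨k1, k2⟩ := hBas.exp F h.1 Z hZ hZn hR
    by_contra hlt
    obtain ⟨k3, -⟩ := k2 (by omega)
    omega

theorem NZ_pair11 {x y : V} (hx : x ∈ G.N F) (hy : y ∈ G.N F) :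
    G.N {x, y} ∩ F = (G.nb x ∪ G.nb y) ∩ F := by
  ext u
  rw [mem_inter, mem_inter, mem_union, mem_N76]
  constructor
  · rintro ⟨⟨-, w, hw, huw⟩, hu⟩
    rw [mem_insert, mem_singleton] at hw
    rcases hw with rfl | rfl
    · exact ⟨Or.inl huw, hu⟩
    · exact ⟨Or.inr huw, hu⟩
  · rintro ⟨h1, hu⟩
    refine ⟨⟨?_, ?_⟩, hu⟩
    · rw [mem_insert, mem_singleton]
      rintro (rfl | rfl)
      · exact (mem_N76.1 hx).1 hu
      · exact (mem_N76.1 hy).1 hu
    · rcases h1 with h1 | h1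
      · exact ⟨x, mem_insert_self _ _, h1⟩
      · exact ⟨y, mem_insert_of_mem (mem_singleton_self _), h1⟩

theorem two7_11 (hBas : G.StLBas) (h : G.L5 F) {x y : V} (hx : x ∈ G.N F) (hy : y ∈ G.N F)
    (hxy : x ≠ y) : 3 ≤ ((G.nb x ∪ G.nb y) ∩ F).card := by
  rw [← NZ_pair11 hx hy]
  refine pair7_11 hBas h ?_ (by rw [card_pair hxy])
  intro u hu
  rw [mem_insert, mem_singleton] at hu
  rcases hu with rfl | rfl
  · exact hx
  · exact hy

theorem tw7_11 (hBas : G.StLBas) (h : G.L5 F) {w : V} (hw : w ∈ G.N F) (ht : G.IsTw w) :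
    3 ≤ G.d w F ∧ (G.d w F = 3 ∨ G.d w F = 4) := by
  obtain ⟨w', hw'⟩ := ht
  have hwN := (hBas.twT F h.1 w w' hw').1 hw
  have h3 := two7_11 hBas h hw hwN hw'.ne33
  have he : (G.nb w ∪ G.nb w') ∩ F = G.nb w ∩ F := by
    ext u
    rw [mem_inter, mem_union, mem_inter]
    constructor
    · rintro ⟨h1 | h1, h2⟩
      · exact ⟨h1, h2⟩
      · refine ⟨hw'.sym33.nb33 h1 ?_, h2⟩
        rintro rfl
        exact (mem_N76.1 hw).1 h2
    · rintro ⟨h1, h2⟩
      exact ⟨Or.inl h1, h2⟩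
  rw [he] at h3
  have h4 := hBas.outq F h.1 w hw ⟨w', hw'⟩
  have h7 : (G.nb w).card = 7 := hw'.2.1
  have hs := d_split76 (G := G) w F
  have h8 : 1 ≤ G.d w (G.N F) := d_one33 hwN hw'.1
  have h9 : G.d w F = (G.nb w ∩ F).card := rfl
  simp only [← h9] at h3
  have h10 : G.d w F + G.d w (G.N F) + G.d w (G.Co F) = 7 := by
    rw [← h7]
    exact hs
  omega

theorem nn7_11 (hBas : G.StLBas) (hB : G.StLB) (h : G.L5 F) {w : V} (hw : w ∈ G.N F) :
    0 ≤ G.gam5 F w := by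
  have h5 : G.d w F ≤ 5 := by
    rw [← h.2]
    exact d_le33 w F
  have h2 := hBas.pos F h.1 w hw
  by_cases hl : G.Low w
  · rcases (by omega : G.d w F = 2 ∨ G.d w F = 3 ∨ G.d w F = 4 ∨ 5 ≤ G.d w F) with h6 | h6 | h6 | h6
    · have h7 := (hB.low2 F h.1 w hw hl h6).2.2
      have h8 : (0 : ℤ) ≤ min (2 * ((G.pT F w).card : ℤ)) 2 :=
        le_min (by positivity) (by norm_num)
      linarith
    · have h7 := (hB.low3 F h.1 w hw hl h6).2.1
      linarith
    · have h7 := (hB.low4 F h.1 w hw hl h6).2.1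
      linarith
    · have h7 := (hB.low5 F h.1 w hw hl h6).2.2
      linarith
  · by_cases ht : G.IsTw w
    · obtain ⟨-, h3⟩ := tw7_11 hBas h hw ht
      obtain ⟨-, -, h6, -, h7, h8⟩ := hB.tw F h.1 w hw ht
      rcases h3 with h3 | h3
      · have h9 := h7 (by omega)
        have h10 : (1 : ℤ) ≤ ((G.pT F w).card : ℤ) := by exact_mod_cast h6
        rw [h3] at h9
        push_cast at h9
        linarith
      · have h9 := h8 h3
        linarith
    · rw [hB.hub F h.1 w hw ⟨hl, ht⟩]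

theorem conn7_11 (h : G.L5 F) {S : Finset V} (hS : S ⊆ F) (hSn : S.Nonempty) (hne : S ≠ F) :
    ∃ x ∈ S, ∃ y ∈ F \ S, y ∈ G.nb x := by
  by_contra hc
  push Not at hc
  have key : ∀ T : Finset V, T ⊂ F → 3 ≤ T.card → (∀ x ∈ T, ∀ y ∈ F, y ∉ T → y ∉ G.nb x) →
      False := by
    intro T hT h3 hn
    have hsub : G.N T ⊆ G.N F := by
      intro y hy
      obtain ⟨h1, x, hx, hxy⟩ := mem_N76.1 hy
      refine mem_N76.2 ⟨fun hyF => hn x hx y hyF h1 hxy, x, hT.1 hx, hxy⟩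
    have hTn : T.Nonempty := by
      rw [← card_pos]
      omega
    have hCo : (G.Co T).Nonempty := by
      obtain ⟨c, hc⟩ := h.1.big.1.2.2
      exact ⟨c, Co_sub11 hT.1 hc⟩
    have h6 := G.stN6_37 _ hTn hCo
    have h7 := card_le_card hsub
    rw [h.1.big.1.2.1] at h7
    exact h.1.leaf T ⟨⟨hTn, by omega, hCo⟩, h3,
      h.1.big.2.2.trans (card_le_card (Co_sub11 hT.1))⟩ hT
  have hss : S ⊂ F := Finset.ssubset_iff_subset_ne.2 ⟨hS, hne⟩
  have hc5 : S.card + (F \ S).card = 5 := by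
    rw [← h.2, card_sdiff_of_subset hS]
    have := card_le_card hS
    omega
  rcases (by omega : 3 ≤ S.card ∨ 3 ≤ (F \ S).card) with h3 | h3
  · exact key S hss h3 fun x hx y hy hyS => hc x hx y (mem_sdiff.2 ⟨hy, hyS⟩)
  · refine key (F \ S) ?_ h3 ?_
    · rw [Finset.ssubset_iff_subset_ne]
      refine ⟨sdiff_subset, fun he => ?_⟩
      obtain ⟨x, hx⟩ := hSn
      have h1 : x ∈ F \ S := by
        rw [he]
        exact hS hx
      exact (mem_sdiff.1 h1).2 hx
    · intro x hx y hy hyS hxy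
      have hyS' : y ∈ S := by
        by_contra h1
        exact hyS (mem_sdiff.2 ⟨hy, h1⟩)
      exact hc y hyS' x hx (G.sym _ _ hxy)

/-- J0 -/
theorem st7Bas_11 (G : CG V) (hBas : G.StLBas) (hB : G.StLB) : G.St7Bas where
  two F h x hx y hy hxy := two7_11 hBas h hx hy hxy
  tw3 F h w hw ht := tw7_11 hBas h hw ht
  three F h Z hZ h3 hN := by
    have hc := NZ_card11 F Z G
    have h5 := h.2
    have hZn : Z.Nonempty := by
      rw [← card_pos]
      omega
    have hR2 : (G.FZ F Z).card = 2 := by omega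
    obtain ⟨x, y, hxy, hFZ⟩ := card_eq_two.1 hR2
    have key : ∀ u v, u ≠ v → G.FZ F Z = {u, v} → ¬ G.Low u →
        v ∈ G.nb u ∧ G.N F \ Z ⊆ G.nb u ∧ G.N Z ∩ F ⊆ G.nb u ∧
        ((G.Tw u v) ∨ (G.Low v ∧ ∃ t ∈ (G.N F \ Z) ∪ (G.N Z ∩ F), G.HL u v t)) :=
      fun u v huv hu hl => hBas.two F h.1 Z hZ hZn (by omega) u v huv hu hl
    refine ⟨x, y, hxy, hFZ, ?_, ?_⟩
    · rintro ⟨h1, h2⟩
      rcases (key x y hxy hFZ h1.1).2.2.2 with h6 | h6
      · exact h1.2 ⟨_, h6⟩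
      · exact h2.1 h6.1
    · intro u hu hlu
      rw [hFZ, mem_insert, mem_singleton] at hu
      rcases hu with rfl | rfl
      · obtain ⟨k1, k2, k3, -⟩ := key u y hxy hFZ hlu
        refine ⟨k2, k3, fun w hw hwu => ?_⟩
        rw [hFZ, mem_insert, mem_singleton] at hw
        rcases hw with rfl | rfl
        · exact absurd rfl hwu
        · exact k1
      · obtain ⟨k1, k2, k3, -⟩ := key u x hxy.symm (by rw [hFZ, pair_comm]) hlu
        refine ⟨k2, k3, fun w hw hwu => ?_⟩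
        rw [hFZ, mem_insert, mem_singleton] at hw
        rcases hw with rfl | rfl
        · exact k1
        · exact absurd rfl hwu
  three' F h Z hZ h3 := pair7_11 hBas h hZ (by omega)
  nn F h w hw := nn7_11 hBas hB h hw
  conn F h S hS hSn hne := conn7_11 h hS hSn hne

/-- J1 -/
theorem st7L3_11 (G : CG V) (hBas : G.StLBas) (hB : G.StLB) : G.St7L3 := by
  intro F h
  have h1 : 0 ≤ ∑ w ∈ G.N F, G.gam5 F w := sum_nonneg fun w hw => nn7_11 hBas hB h hw
  linarith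

end CG

end Pool.Agent.Lib.MP_e95c01_co.N
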