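import Pool.Agent.Lib.MP_e95c01_co.X.StmtsV76

/-!
# `λ = 3`: leaves with five vertices, statements

`/team-store/L3_leaf36c.md`; the situation, the basic facts and the values are in `X/StmtsH76`.
-/

namespace Pool.Agent.Lib.MP_e95c01_co.N

open Finset

variable {V : Type} [Fintype V] [DecidableEq V] (G : CG V)

namespace CG

/-- the situation: a leaf with five vertices -/
def L5 (F : Finset V) : Prop := G.Lf F ∧ F.card = 5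

/-- J0: expansion and values for five vertices -/
structure St7Bas : Prop where
  two : ∀ F, G.L5 F → ∀ x ∈ G.N F, ∀ y ∈ G.N F, x ≠ y → 3 ≤ ((G.nb x ∪ G.nb y) ∩ F).card
  tw3 : ∀ F, G.L5 F → ∀ w ∈ G.N F, G.IsTw w → 3 ≤ G.d w F ∧ (G.d w F = 3 ∨ G.d w F = 4)
  /-- three vertices of `N F` with only three neighbours in `F`: the remainder is a fragment with
  two vertices, not two hubs; a vertex `x` of the remainder that is not low is adjacent to the other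
  one and to all of its neighbourhood -/
  three : ∀ F, G.L5 F → ∀ Z ⊆ G.N F, Z.card = 3 → (G.N Z ∩ F).card = 3 →
    ∃ x y, x ≠ y ∧ G.FZ F Z = {x, y} ∧ ¬ (G.Hub x ∧ G.Hub y) ∧
      ∀ u ∈ G.FZ F Z, ¬ G.Low u → G.N F \ Z ⊆ G.nb u ∧ G.N Z ∩ F ⊆ G.nb u ∧
        ∀ w ∈ G.FZ F Z, w ≠ u → w ∈ G.nb u
  three' : ∀ F, G.L5 F → ∀ Z ⊆ G.N F, Z.card = 3 → 3 ≤ (G.N Z ∩ F).card
  nn : ∀ F, G.L5 F → ∀ w ∈ G.N F, 0 ≤ G.gam5 F w
  conn : ∀ F, G.L5 F → ∀ S ⊆ F, S.Nonempty → S ≠ F → ∃ x ∈ S, ∃ y ∈ F \ S, y ∈ G.nb x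

/-- J1: at least three lows -/
def St7L3 : Prop := ∀ F, G.L5 F → -4 ≤ ∑ w ∈ G.N F, G.gam5 F w

/-- J2: two lows and three hubs -/
def St7LLHHH : Prop := ∀ F, G.L5 F → ∀ l ∈ F, ∀ l' ∈ F, l ≠ l' → G.Low l → G.Low l' →
  (∀ z ∈ F, z ≠ l → z ≠ l' → G.Hub z) → 8 ≤ ∑ w ∈ G.N F, G.gam5 F w

/-- J3: two lows, a hub and a pair of twins -/
def St7LLHQ : Prop := ∀ F, G.L5 F → ∀ l l' h v w, F = {l, l', h, v, w} → l ≠ l' → G.Low l →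
  G.Low l' → G.Hub h → G.Tw v w → 8 ≤ ∑ w ∈ G.N F, G.gam5 F w

/-- J4: a low and four hubs -/
def St7LHHHH : Prop := ∀ F, G.L5 F → ∀ l ∈ F, G.Low l → (∀ z ∈ F, z ≠ l → G.Hub z) →
  20 ≤ ∑ w ∈ G.N F, G.gam5 F w

/-- J5a: a low, two hubs and a pair of twins; the low is not adjacent to the pair -/
def St7LHHQa : Prop := ∀ F, G.L5 F → ∀ l h h' v w, F = {l, h, h', v, w} → h ≠ h' → G.Low l →
  G.Hub h → G.Hub h' → G.Tw v w → l ∉ G.nb v → 20 ≤ ∑ w ∈ G.N F, G.gam5 F w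

/-- J5b: the low is adjacent to the pair, no twins in `N F` -/
def St7LHHQb : Prop := ∀ F, G.L5 F → ∀ l h h' v w, F = {l, h, h', v, w} → h ≠ h' → G.Low l →
  G.Hub h → G.Hub h' → G.Tw v w → l ∈ G.nb v → (∀ P ∈ G.N F, ¬ G.IsTw P) →
  20 ≤ ∑ w ∈ G.N F, G.gam5 F w

/-- J5c: some twin vertex `P` of `N F` is not adjacent to `l` or not adjacent to the pair -/
def St7LHHQc : Prop := ∀ F, G.L5 F → ∀ l h h' v w, F = {l, h, h', v, w} → h ≠ h' → G.Low l →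
  G.Hub h → G.Hub h' → G.Tw v w → l ∈ G.nb v →
  (∃ P ∈ G.N F, G.IsTw P ∧ (P ∉ G.nb l ∨ P ∉ G.nb v)) → 20 ≤ ∑ w ∈ G.N F, G.gam5 F w

/-- J5d: all twin vertices of `N F` are adjacent to `l` and to the pair, there are some -/
def St7LHHQd : Prop := ∀ F, G.L5 F → ∀ l h h' v w, F = {l, h, h', v, w} → h ≠ h' → G.Low l →
  G.Hub h → G.Hub h' → G.Tw v w → l ∈ G.nb v → (∃ P ∈ G.N F, G.IsTw P) →
  (∀ P ∈ G.N F, G.IsTw P → P ∈ G.nb l ∧ P ∈ G.nb v) → 20 ≤ ∑ w ∈ G.N F, G.gam5 F w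

/-- J6: a low and two pairs of twins -/
def St7LQQ : Prop := ∀ F, G.L5 F → ∀ l v w v' w', F = {l, v, w, v', w'} → G.Low l → G.Tw v w →
  G.Tw v' w' → v ≠ v' → v ≠ w' → 20 ≤ ∑ w ∈ G.N F, G.gam5 F w

/-- J7: five hubs -/
def St7HHHHH : Prop := ∀ F, G.L5 F → (∀ z ∈ F, G.Hub z) → 32 ≤ ∑ w ∈ G.N F, G.gam5 F w

/-- J8: three hubs and a pair of twins -/
def St7HHHQ : Prop := ∀ F, G.L5 F → ∀ v ∈ F, ∀ w ∈ F, G.Tw v w →
  (∀ z ∈ F, z ≠ v → z ≠ w → G.Hub z) → 32 ≤ ∑ w ∈ G.N F, G.gam5 F w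

/-- J9: a hub and two pairs of twins -/
def St7HQQ : Prop := ∀ F, G.L5 F → ∀ h v w v' w', F = {h, v, w, v', w'} → G.Hub h → G.Tw v w →
  G.Tw v' w' → v ≠ v' → v ≠ w' → 32 ≤ ∑ w ∈ G.N F, G.gam5 F w

end CG

end Pool.Agent.Lib.MP_e95c01_co.N
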