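import Pool.Agent.Lib.MP_e95c01_co.X.H1b_44
import Pool.Agent.Lib.MP_e95c01_co.X.StmtsJ76
import Pool.Agent.Lib.MP_e95c01_co.X.G01_16
import Pool.Agent.Lib.MP_e95c01_co.T.F5_30

/-!
# `λ = 3`, J2: leaves with five vertices, two lows and three hubs
-/

namespace Pool.Agent.Lib.MP_e95c01_co.N

open Finset

variable {V : Type} [Fintype V] [DecidableEq V]

namespace CG

namespace J2x44

open H1x44

variable {G : CG V} {F : Finset V} {l l' : V}

/-- the cover of an edge `x y`, `y` in `N F` not low, no twins in `F` -/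
theorem cvTg (h : G.Lf F) (hnt : ∀ x ∈ F, ¬ G.IsTw x) {x y : V} (hx : x ∈ F) (hy : y ∈ G.N F)
    (hyx : x ∈ G.nb y) (hn : ¬ G.Low y) :
    (∃ b ∈ F, G.Low b ∧ b ∈ G.nb y ∧ b ≠ x) ∨
    (∃ b ∈ G.N F, G.Low b ∧ b ∈ G.nb y ∧
      (b ∈ G.nb x ∨ ∃ a ∈ G.N F, a ∈ G.nb b ∧ ¬ G.IsTw a)) ∨
    (∃ v ∈ G.N F, ∃ w ∈ G.N F, G.Tw v w ∧ x ∈ G.nb v ∧ x ∈ G.nb w ∧ y ∈ G.nb v ∧
      y ∈ G.nb w) := by
  rcases h.cov x hx y (mem_union_right _ hy) (G.sym _ _ hyx) with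
    ⟨w, hw, hl, h1, h2⟩ | ⟨v, hv, w, hw, ht, h1, h2, h3, h4⟩ | ⟨a, b, hab, h1, h2, hs⟩ |
    ⟨a, b, hab, h1, h2, hs⟩ | ⟨a, b, hab, hs⟩
  · rcases mem_union.1 hw with hw | hw
    · exact Or.inl ⟨w, hw, hl, G.sym _ _ h2, ne_of_nb5 h1⟩
    · exact Or.inr (Or.inl ⟨w, hw, hl, G.sym _ _ h2, Or.inl (G.sym _ _ h1)⟩)
  · have hv' : v ∈ G.N F := (mem_union.1 hv).resolve_left fun e => hnt _ e ⟨w, ht⟩
    have hw' : w ∈ G.N F := (mem_union.1 hw).resolve_left fun e => hnt _ e ⟨v, ht.sym33⟩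
    exact Or.inr (Or.inr ⟨v, hv', w, hw', ht, h1, h2, h3, h4⟩)
  · exact absurd (h.sat _ _ _ hab) hn
  · rcases hs with ⟨ha, hb⟩ | ⟨ha, hb⟩
    · exact Or.inl ⟨b, hb, hab.2.1, G.sym _ _ h1, HL_ne33 hab⟩
    · exact Or.inr (Or.inl ⟨b, hb, hab.2.1, G.sym _ _ h1, Or.inr ⟨a, ha,
        G.sym _ _ hab.2.2.1, (stTwHL_5 G).notHL (n9 h) _ _ _ hab⟩⟩)
  · rcases hs with ⟨ha, hb⟩ | ⟨ha, hb⟩
    · exact Or.inl ⟨b, hb, hab.2.1, G.sym _ _ (LL_u76 hab), (LL_tb76 hab).2.symm⟩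
    · exact Or.inr (Or.inl ⟨b, hb, hab.2.1, G.sym _ _ (LL_u76 hab), Or.inr ⟨a, ha,
        G.sym _ _ (LL_ab76 hab), not_tw33 hab.1⟩⟩)

/-- two lows and three hubs, small sum -/
structure D (G : CG V) (F : Finset V) (l l' : V) : Prop where
  L : G.L5 F
  B : G.StLB
  Ba : G.StLBas
  B7 : G.St7Bas
  C : G.StLCnt
  lF : l ∈ F
  lF' : l' ∈ F
  ll : l ≠ l'
  lo : G.Low l
  lo' : G.Low l'
  hu : ∀ z ∈ F, z ≠ l → z ≠ l' → G.Hub z
  hs : ∑ w ∈ G.N F, G.gam5 F w ≤ 7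

/-- excess of a vertex of `N F` -/
noncomputable def ex (G : CG V) (F : Finset V) (w : V) : ℤ :=
  G.gam5 F w - G.wt3 G.Tw w * ((G.tT G.Tw F w).card : ℤ) - (if G.Low w then 2 else 0)

/-- the vertices of `N F` that are low or have a class neighbour in `N F` -/
noncomputable def VV (G : CG V) (F : Finset V) : Finset V := by
  classical
  exact (G.N F).filter fun y => ¬ Cx.NC G F y

namespace D

theorem sl (c : D G F l l') : D G F l' l where
  L := c.L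
  B := c.B
  Ba := c.Ba
  B7 := c.B7
  C := c.C
  lF := c.lF'
  lF' := c.lF
  ll := c.ll.symm
  lo := c.lo'
  lo' := c.lo
  hu := fun z hz h1 h2 => c.hu z hz h2 h1
  hs := c.hs

theorem ntF (c : D G F l l') {x : V} (hx : x ∈ F) : ¬ G.IsTw x := by
  by_cases h1 : x = l
  · rw [h1]
    exact not_tw33 c.lo
  by_cases h2 : x = l'
  · rw [h2]
    exact not_tw33 c.lo'
  exact (c.hu x hx h1 h2).2

theorem lowF (c : D G F l l') {x : V} (hx : x ∈ F) (hl : G.Low x) : x = l ∨ x = l' := by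
  by_contra hc
  rw [not_or] at hc
  exact (c.hu x hx hc.1 hc.2).1 hl

theorem A1 (c : D G F l l') {y : V} (hy : Cx.NC G F y) : l ∈ G.nb y ∧ l' ∈ G.nb y := by
  obtain ⟨hy, hn, h1, h2⟩ := hy
  have key : ∀ x ∈ F, x ∈ G.nb y → ∃ b ∈ F, G.Low b ∧ b ∈ G.nb y ∧ b ≠ x := by
    intro x hx hyx
    rcases cvTg c.L.1 (fun _ => c.ntF) hx hy hyx hn with h3 | ⟨b, hb, hl, h3, -⟩ |
      ⟨v, hv, w, hw, ht, -, -, h3, h4⟩
    · exact h3
    · exact absurd h3 (h1 b hb hl)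
    · exact absurd h4 (h2 v hv w hw ht h3)
  have hp := c.Ba.pos F c.L.1 y hy
  obtain ⟨x, hx⟩ : (G.nb y ∩ F).Nonempty := by
    rw [← card_pos]
    unfold d at hp
    omega
  rw [mem_inter] at hx
  obtain ⟨b, hb, hl, h3, -⟩ := key x hx.2 hx.1
  obtain ⟨b', hb', hl', h3', hne⟩ := key b hb h3
  rcases c.lowF hb hl with rfl | rfl
  · rcases c.lowF hb' hl' with rfl | rfl
    · exact absurd rfl hne
    · exact ⟨h3, h3'⟩
  · rcases c.lowF hb' hl' with rfl | rfl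
    · exact ⟨h3', h3⟩
    · exact absurd rfl hne

theorem A2 (c : D G F l l') {y : V} (hy : Cx.NC G F y) :
    l ∈ G.nb l' ∨ ∃ a ∈ F, G.HL a l' l := by
  have hl := (c.A1 hy).1
  obtain ⟨hy, hn, h1, h2⟩ := hy
  rcases c.L.1.cov l c.lF y (mem_union_right _ hy) (G.sym _ _ hl) with
    ⟨w, hw, hl, h3, h4⟩ | ⟨v, hv, w, hw, ht, h3, h4, h5, h6⟩ | ⟨a, b, hab, h3, h4, hs⟩ |
    ⟨a, b, hab, h3, h4, hs⟩ | ⟨a, b, hab, hs⟩
  · rcases mem_union.1 hw with hw | hw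
    · rcases c.lowF hw hl with rfl | rfl
      · exact absurd h3 (G.irr _)
      · exact Or.inl h3
    · exact absurd (G.sym _ _ h4) (h1 w hw hl)
  · have hv' : v ∈ G.N F := (mem_union.1 hv).resolve_left fun e => c.ntF e ⟨w, ht⟩
    have hw' : w ∈ G.N F := (mem_union.1 hw).resolve_left fun e => c.ntF e ⟨v, ht.sym33⟩
    exact absurd h6 (h2 v hv' w hw' ht h5)
  · exact absurd (c.L.1.sat _ _ _ hab) hn
  · rcases hs with ⟨ha, hb⟩ | ⟨ha, hb⟩
    · rcases c.lowF hb hab.2.1 with rfl | rfl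
      · exact absurd rfl (HL_ne33 hab)
      · exact Or.inr ⟨a, ha, hab⟩
    · exact absurd (G.sym _ _ h3) (h1 b hb hab.2.1)
  · rcases hs with ⟨ha, hb⟩ | ⟨ha, hb⟩
    · exfalso
      have e1 : b = l' := (c.lowF hb hab.2.1).resolve_left (LL_tb76 hab).2.symm
      have e2 : a = l' := (c.lowF ha hab.1).resolve_left
        (fun e => G.irr l (by have := LL_t76 hab; rwa [e] at this))
      have := LL_ab76 hab
      rw [e1, e2] at this
      exact G.irr _ this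
    · exact absurd (G.sym _ _ (LL_u76 hab)) (h1 b hb hab.2.1)

/-- lows with at least two neighbours: no `T3` -/
theorem lowv (c : D G F l l') {w : V} (hw : w ∈ G.N F) (hl : G.Low w) :
    2 + 2 * ((G.pT F w).card : ℤ) ≤ G.gam5 F w ∧
      (3 ≤ G.d w F → (∀ v ∈ G.N F, G.Low v → v ∈ G.nb w → False) →
        4 + 2 * ((G.pT F w).card : ℤ) ≤ G.gam5 F w) ∧
      (3 ≤ G.d w F → 4 + 2 * ((G.pT F w).card : ℤ) ≤ G.gam5 F w) := by
  have hp := c.Ba.pos F c.L.1 w hw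
  rcases Nat.lt_or_ge (G.d w F) 5 with h5 | h5
  · rcases Nat.lt_or_ge (G.d w F) 4 with h4 | h4
    · rcases Nat.lt_or_ge (G.d w F) 3 with h3 | h3
      · obtain ⟨a1, a2, a3⟩ := c.B.low2 F c.L.1 w hw hl (by omega)
        have h0 : (0 : ℤ) ≤ ((G.pT F w).card : ℤ) := Int.natCast_nonneg _
        rcases a2 with a2 | ⟨-, ⟨v, v', hv, e⟩, -, a2⟩
        · exact ⟨a2, fun h => absurd h (by omega), fun h => absurd h (by omega)⟩
        · exfalso
          have h6 : v ∈ G.pT F w := by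
            rw [e]
            exact mem_insert_self _ _
          have h7 := (c.B7.tw3 F c.L v (mpT.1 h6).2 ⟨_, hv⟩).1
          have h8 := (a2 v h6).1
          omega
      · obtain ⟨a1, a2, a3, -⟩ := c.B.low3 F c.L.1 w hw hl (by omega)
        rcases a3 with a3 | ⟨v, q, q', -, e, -⟩
        · exact ⟨by omega, fun _ _ => by omega, fun _ => by omega⟩
        · rw [e, card_singleton]
          exact ⟨by push_cast; omega, fun _ _ => by push_cast; omega,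
            fun _ => by push_cast; omega⟩
    · obtain ⟨a1, a2, -⟩ := c.B.low4 F c.L.1 w hw hl (by omega)
      exact ⟨by omega, fun _ _ => by omega, fun _ => by omega⟩
  · obtain ⟨a1, a2, a3⟩ := c.B.low5 F c.L.1 w hw hl h5
    rw [a2, card_empty]
    exact ⟨by push_cast; omega, fun _ _ => by push_cast; omega, fun _ => by push_cast; omega⟩

theorem tTlow (_ : D G F l l') {w : V} (hl : G.Low w) :
    (G.tT G.Tw F w).card = (G.pT F w).card := tT_low42 (qs16 G) F hl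

theorem tTtw (c : D G F l l') {v w : V} (hv : v ∈ G.N F) (h : G.Tw v w) :
    (G.tT G.Tw F v).card + 1 = (G.pT F v).card := tT_q42 (qs16 G) (n9 c.L.1) c.L.1.big.1 h hv

/-- the excess is nonnegative -/
theorem exnn (c : D G F l l') {w : V} (hw : w ∈ G.N F) :
    0 ≤ ex G F w ∧ (G.Low w → 3 ≤ G.d w F → 2 ≤ ex G F w) ∧
      (G.IsTw w → G.d w F = 4 → 1 ≤ ex G F w) := by
  unfold ex
  by_cases hl : G.Low w
  · obtain ⟨h1, -, h2⟩ := c.lowv hw hl
    rw [wt3_low30 hl, c.tTlow hl, if_pos hl]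
    exact ⟨by omega, fun _ h => by have := h2 h; omega, fun h => absurd hl (not_low33 h)⟩
  rw [if_neg hl]
  by_cases ht : G.IsTw w
  · obtain ⟨w', hw'⟩ := ht
    have h1 := c.tTtw hw hw'
    obtain ⟨a1, a2, a3, a4, a5, a6⟩ := c.B.tw F c.L.1 w hw ⟨_, hw'⟩
    rw [wt3_q30 (qs16 G) ⟨w', hw'⟩]
    obtain ⟨h3, h4 | h4⟩ := c.B7.tw3 F c.L w hw ⟨_, hw'⟩
    · have h5 := a5 (by omega)
      refine ⟨by omega, fun h => absurd h hl, fun _ h => absurd h (by omega)⟩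
    · have h5 := a6 h4
      have h6 : (G.tT G.Tw F w).card = 0 := by omega
      rw [h6]
      refine ⟨by push_cast; omega, fun h => absurd h hl, fun _ _ => by push_cast; omega⟩
  · have h1 : G.wt3 G.Tw w = 0 := by
      rw [wt3, if_neg hl, if_neg (show ¬ IsQ G.Tw w from ht)]
    rw [h1, c.B.hub F c.L.1 w hw ⟨hl, ht⟩]
    exact ⟨by omega, fun h => absurd h hl, fun h => absurd h ht⟩

theorem mVV (_ : D G F l l') {y : V} : y ∈ VV G F ↔ y ∈ G.N F ∧ ¬ Cx.NC G F y := by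
  classical
  unfold VV
  exact mem_filter

/-- the count -/
theorem cnt (c : D G F l l') :
    2 * ((VV G F).card : ℤ) + ∑ w ∈ G.N F, ex G F w ≤ ∑ w ∈ G.N F, G.gam5 F w := by
  classical
  set A := (G.N F).filter fun w => G.Low w with hA
  set U := (VV G F).filter fun w => ¬ G.Low w with hU
  have h1 : VV G F = A ∪ U := by
    ext y
    rw [mem_union, hA, hU, mem_filter, mem_filter, c.mVV]
    constructor
    · rintro ⟨k1, k2⟩
      by_cases hl : G.Low y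
      · exact Or.inl ⟨k1, hl⟩
      · exact Or.inr ⟨⟨k1, k2⟩, hl⟩
    · rintro (⟨k1, k2⟩ | ⟨k1, -⟩)
      · exact ⟨k1, fun h => h.2.1 k2⟩
      · exact k1
  have h2 : (VV G F).card = A.card + U.card := by
    rw [h1]
    apply card_union_of_disjoint
    rw [disjoint_left]
    intro y hy1 hy2
    exact (mem_filter.1 hy2).2 (mem_filter.1 hy1).2
  have h3 : U ⊆ G.N F := fun y hy => (c.mVV.1 (mem_filter.1 hy).1).1
  have h4 := (c.C c.L.1.sat (n9 c.L.1) F U (G.N F) h3 (Subset.refl _) l (by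
    intro y hy
    obtain ⟨k1, k2⟩ := mem_filter.1 hy
    obtain ⟨k3, k4⟩ := c.mVV.1 k1
    by_cases k5 : ∃ b ∈ G.N F, G.Low b ∧ b ∈ G.nb y
    · obtain ⟨b, hb, hbl, hby⟩ := k5
      exact Or.inl ⟨b, hb, hbl, G.sym _ _ hby⟩
    · right
      left
      by_contra k6
      apply k4
      refine ⟨k3, k2, fun b hb hbl hby => k5 ⟨b, hb, hbl, hby⟩, ?_⟩
      intro v hv w hw hvw k7 k8
      exact k6 ⟨v, hv, w, hw, hvw, k7, k8⟩)).1
  have h5 : ∑ w ∈ G.N F, (if G.Low w then (2 : ℤ) else 0) = 2 * (A.card : ℤ) := by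
    rw [← sum_filter, sum_const]
    simp [hA]
    ring
  have h6 : ∑ w ∈ G.N F, G.gam5 F w = ∑ w ∈ G.N F, ex G F w +
      (∑ w ∈ G.N F, G.wt3 G.Tw w * ((G.tT G.Tw F w).card : ℤ) +
        ∑ w ∈ G.N F, (if G.Low w then (2 : ℤ) else 0)) := by
    rw [← sum_add_distrib, ← sum_add_distrib]
    apply sum_congr rfl
    intro w _
    unfold ex
    ring
  rw [h6, h5, h2]
  push_cast
  omega

theorem exs (c : D G F l l') : 0 ≤ ∑ w ∈ G.N F, ex G F w :=
  sum_nonneg fun _ hw => (c.exnn hw).1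

theorem V3 (c : D G F l l') : (VV G F).card ≤ 3 := by
  have h1 := c.cnt
  have h2 := c.exs
  have h3 := c.hs
  omega

theorem nV (c : D G F l l') {y : V} (hy : y ∈ G.N F) (h : y ∉ VV G F) : Cx.NC G F y := by
  by_contra h1
  exact h (c.mVV.2 ⟨hy, h1⟩)

theorem lowV (c : D G F l l') {y : V} (hy : y ∈ G.N F) (h : G.Low y) : y ∈ VV G F :=
  c.mVV.2 ⟨hy, fun h1 => h1.2.1 h⟩

theorem mlV (c : D G F l l') : G.N F \ G.nb l ⊆ VV G F := by
  intro y hy
  rw [mem_sdiff] at hy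
  exact c.mVV.2 ⟨hy.1, fun h => hy.2 (G.sym _ _ (c.A1 h).1)⟩

theorem ml (c : D G F l l') : (G.N F \ G.nb l).card = G.d l F := by
  have h1 := c.Ba.deg F c.L.1 l c.lF
  have h2 : (G.nb l).card = 6 := c.lo
  have h3 : (G.N F \ G.nb l).card = (G.N F).card - (G.nb l ∩ G.N F).card := card_sdiff
  have h4 : (G.Tz F l).card = (G.nb l ∩ G.N F).card := rfl
  rw [h3, c6 c.L.1]
  omega

theorem cF (c : D G F l l') : F.card = 5 := c.L.2

theorem hll (c : D G F l l') : l ∈ G.nb l' := by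
  obtain ⟨y, hy⟩ : (G.N F \ VV G F).Nonempty := by
    rw [← card_pos]
    have h1 := le_card_sdiff (VV G F) (G.N F)
    have h2 := c.V3
    rw [c6 c.L.1] at h1
    omega
  rw [mem_sdiff] at hy
  have hNC := c.nV hy.1 hy.2
  rcases c.A2 hNC with h1 | ⟨a, ha, h1⟩
  · exact h1
  rcases c.sl.A2 hNC with h2 | ⟨a', ha', h2⟩
  · exact G.sym _ _ h2
  exfalso
  have hne : a ≠ a' := by
    rintro rfl
    exact (stTwHL_5 G).nomut (n9 c.L.1) _ _ _ _ _ h1 h2 rfl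
  have e1 : a ≠ l := fun e => HL_not_low76 h1 (e ▸ c.lo)
  have e2 : a ≠ l' := fun e => HL_not_low76 h1 (e ▸ c.lo')
  have e3 : a' ≠ l := fun e => HL_not_low76 h2 (e ▸ c.lo)
  have e4 : a' ≠ l' := fun e => HL_not_low76 h2 (e ▸ c.lo')
  have d1 : 2 ≤ G.d l F := two_le (A := G.nb l ∩ F)
    (mem_inter.2 ⟨G.sym _ _ (HL_t76 h1), ha⟩) (mem_inter.2 ⟨G.sym _ _ h2.2.2.1, ha'⟩) hne
  have d2 : 2 ≤ G.d l' F := two_le (A := G.nb l' ∩ F)
    (mem_inter.2 ⟨G.sym _ _ h1.2.2.1, ha⟩) (mem_inter.2 ⟨G.sym _ _ (HL_t76 h2), ha'⟩) hne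
  have h3 : Disjoint (G.N F \ G.nb l) (G.N F \ G.nb l') := by
    rw [disjoint_left]
    intro z hz1 hz2
    rw [mem_sdiff] at hz1 hz2
    have hzF := notF hz1.1
    have k1 : z ∉ G.nb a := by
      intro k
      rcases HL_cl33 h1 k with e | e | e
      · exact hzF (e ▸ c.lF)
      · exact hzF (e ▸ c.lF')
      · exact hz2.2 e
    have k2 : z ∉ G.nb a' := by
      intro k
      rcases HL_cl33 h2 k with e | e | e
      · exact hzF (e ▸ c.lF')
      · exact hzF (e ▸ c.lF)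
      · exact hz1.2 e
    have k3 : G.nb z ∩ F ⊆ (((F.erase l).erase l').erase a).erase a' := by
      intro u hu
      rw [mem_inter] at hu
      refine mem_erase.2 ⟨?_, mem_erase.2 ⟨?_, mem_erase.2 ⟨?_, mem_erase.2 ⟨?_, hu.2⟩⟩⟩⟩
      · rintro rfl
        exact k2 (G.sym _ _ hu.1)
      · rintro rfl
        exact k1 (G.sym _ _ hu.1)
      · rintro rfl
        exact hz2.2 (G.sym _ _ hu.1)
      · rintro rfl
        exact hz1.2 (G.sym _ _ hu.1)
    have k4 := card_le_card k3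
    rw [card_erase_of_mem (mem_erase.2 ⟨hne.symm, mem_erase.2 ⟨e4, mem_erase.2 ⟨e3, ha'⟩⟩⟩),
      card_erase_of_mem (mem_erase.2 ⟨e2, mem_erase.2 ⟨e1, ha⟩⟩),
      card_erase_of_mem (mem_erase.2 ⟨c.ll.symm, c.lF'⟩), card_erase_of_mem c.lF, c.cF] at k4
    have k5 := c.Ba.pos F c.L.1 z hz1.1
    unfold d at k5
    omega
  have h4 := card_le_card (union_subset c.mlV c.sl.mlV)
  rw [card_union_of_disjoint h3, c.ml, c.sl.ml] at h4
  have h5 := c.V3
  omega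

/-- a hub of `F` adjacent to no low of `F` has no neighbour without class neighbours -/
theorem nocov (c : D G F l l') {z y : V} (hz : z ∈ F) (hn : ¬ G.Low z) (h1 : z ∉ G.nb l)
    (h2 : z ∉ G.nb l') (hy : Cx.NC G F y) (hyz : y ∈ G.nb z) : False := by
  have k9 : ∀ b ∈ F, G.Low b → b ∉ G.nb z := by
    intro b hb hl hbh
    rcases c.lowF hb hl with rfl | rfl
    · exact h1 (G.sym _ _ hbh)
    · exact h2 (G.sym _ _ hbh)
  obtain ⟨hyN, hyn, h3, h4⟩ := hy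
  rcases c.L.1.cov z hz y (mem_union_right _ hyN) hyz with
    ⟨w, hw, hl, h5, h6⟩ | ⟨v, hv, w, hw, ht, h5, h6, h7, h8⟩ | ⟨a, b, hab, h5, h6, hs⟩ |
    ⟨a, b, hab, h5, h6, hs⟩ | ⟨a, b, hab, hs⟩
  · rcases mem_union.1 hw with hw | hw
    · exact k9 w hw hl (G.sym _ _ h5)
    · exact h3 w hw hl (G.sym _ _ h6)
  · have hv' : v ∈ G.N F := (mem_union.1 hv).resolve_left fun e => c.ntF e ⟨w, ht⟩
    have hw' : w ∈ G.N F := (mem_union.1 hw).resolve_left fun e => c.ntF e ⟨v, ht.sym33⟩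
    exact h4 v hv' w hw' ht h7 h8
  · exact hyn (c.L.1.sat _ _ _ hab)
  · exact hn (c.L.1.sat _ _ _ hab)
  · rcases hs with ⟨ha, hb⟩ | ⟨ha, hb⟩
    · exact k9 a ha hab.1 (G.sym _ _ (LL_t76 hab))
    · exact h3 b hb hab.2.1 (G.sym _ _ (LL_u76 hab))

theorem hub1 (c : D G F l l') {z : V} (hz : z ∈ F) (h1 : z ≠ l) (h2 : z ≠ l') :
    z ∈ G.nb l ∨ z ∈ G.nb l' := by
  by_contra hc
  rw [not_or] at hc
  have hh := c.hu z hz h1 h2
  have k3 : G.nb z ∩ F ⊆ ((F.erase l).erase l').erase z := by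
    intro u hu
    rw [mem_inter] at hu
    refine mem_erase.2 ⟨(ne_of_nb5 hu.1).symm, mem_erase.2 ⟨?_, mem_erase.2 ⟨?_, hu.2⟩⟩⟩
    · rintro rfl
      exact hc.2 (G.sym _ _ hu.1)
    · rintro rfl
      exact hc.1 (G.sym _ _ hu.1)
  have k4 := card_le_card k3
  rw [card_erase_of_mem (mem_erase.2 ⟨h2, mem_erase.2 ⟨h1, hz⟩⟩),
    card_erase_of_mem (mem_erase.2 ⟨c.ll.symm, c.lF'⟩), card_erase_of_mem c.lF, c.cF] at k4
  have k5 := c.Ba.deg F c.L.1 z hz
  have k6 : 7 ≤ (G.nb z).card := by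
    have e1 := G.deg z
    have e2 : (G.nb z).card ≠ 6 := hh.1
    omega
  have k7 : G.Tz F z ⊆ VV G F := by
    intro y hy
    by_contra k8
    exact c.nocov hz hh.1 hc.1 hc.2 (c.nV (mem_inter.1 hy).2 k8) (mem_inter.1 hy).1
  have k8 := card_le_card k7
  have k9 := c.V3
  unfold d at k5
  omega

/-- an edge of `F` between a low and a hub that is covered by a pair -/
theorem edge (c : D G F l l') (hV : VV G F = G.N F \ G.nb l) {z : V} (hz : z ∈ F)
    (hn : ¬ G.Low z) (h1 : z ∈ G.nb l) (h2 : z ∉ G.nb l') :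
    ∃ v ∈ G.N F, ∃ w ∈ G.N F, G.Tw v w ∧ l ∈ G.nb v ∧ l ∈ G.nb w ∧ z ∈ G.nb v ∧ z ∈ G.nb w := by
  have k1 : ∀ w ∈ G.N F, G.Low w → w ∉ G.nb l := by
    intro w hw hl
    have := c.lowV hw hl
    rw [hV, mem_sdiff] at this
    exact this.2
  rcases c.L.1.cov l c.lF z (mem_union_left _ hz) h1 with
    ⟨w, hw, hl, h5, h6⟩ | ⟨v, hv, w, hw, ht, h5, h6, h7, h8⟩ | ⟨a, b, hab, h5, h6, hs⟩ |
    ⟨a, b, hab, h5, h6, hs⟩ | ⟨a, b, hab, hs⟩
  · exfalso
    rcases mem_union.1 hw with hw | hw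
    · rcases c.lowF hw hl with rfl | rfl
      · exact G.irr _ h5
      · exact h2 h6
    · exact k1 w hw hl (G.sym _ _ h5)
  · have hv' : v ∈ G.N F := (mem_union.1 hv).resolve_left fun e => c.ntF e ⟨w, ht⟩
    have hw' : w ∈ G.N F := (mem_union.1 hw).resolve_left fun e => c.ntF e ⟨v, ht.sym33⟩
    exact ⟨v, hv', w, hw', ht, h5, h6, h7, h8⟩
  · exact absurd (c.L.1.sat _ _ _ hab) hn
  · exfalso
    rcases hs with ⟨ha, hb⟩ | ⟨ha, hb⟩
    · rcases c.lowF hb hab.2.1 with rfl | rfl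
      · exact HL_ne33 hab rfl
      · exact h2 h5
    · have k2 : a ∉ VV G F := by
        rw [hV, mem_sdiff]
        exact fun k => k.2 (G.sym _ _ (HL_t76 hab))
      exact (c.nV ha k2).2.2.1 b hb hab.2.1 hab.2.2.1
  · exfalso
    rcases hs with ⟨ha, hb⟩ | ⟨ha, hb⟩
    · have e1 : b = l' := (c.lowF hb hab.2.1).resolve_left (LL_tb76 hab).2.symm
      have e2 : a = l' := (c.lowF ha hab.1).resolve_left
        (fun e => G.irr l (by have := LL_t76 hab; rwa [e] at this))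
      have := LL_ab76 hab
      rw [e1, e2] at this
      exact G.irr _ this
    · exact k1 a ha hab.1 (G.sym _ _ (LL_t76 hab))

/-- the cover of an edge `x y`, `x` and `y` not low -/
theorem cvH (c : D G F l l') {x y : V} (hx : x ∈ F) (hxn : ¬ G.Low x) (hy : y ∈ G.N F)
    (hyx : x ∈ G.nb y) (hn : ¬ G.Low y) :
    (∃ b ∈ F, G.Low b ∧ b ∈ G.nb y) ∨
    (∃ b ∈ G.N F, G.Low b ∧ b ∈ G.nb y ∧ x ∈ G.nb b) ∨
    (∃ a ∈ G.N F, ∃ b ∈ G.N F, G.Low a ∧ G.Low b ∧ a ≠ b) ∨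
    (∃ v ∈ G.N F, ∃ w ∈ G.N F, G.Tw v w ∧ x ∈ G.nb v ∧ x ∈ G.nb w ∧ y ∈ G.nb v ∧
      y ∈ G.nb w) := by
  rcases c.L.1.cov x hx y (mem_union_right _ hy) (G.sym _ _ hyx) with
    ⟨w, hw, hl, h1, h2⟩ | ⟨v, hv, w, hw, ht, h1, h2, h3, h4⟩ | ⟨a, b, hab, h1, h2, hs⟩ |
    ⟨a, b, hab, h1, h2, hs⟩ | ⟨a, b, hab, hs⟩
  · rcases mem_union.1 hw with hw | hw
    · exact Or.inl ⟨w, hw, hl, G.sym _ _ h2⟩
    · exact Or.inr (Or.inl ⟨w, hw, hl, G.sym _ _ h2, h1⟩)
  · have hv' : v ∈ G.N F := (mem_union.1 hv).resolve_left fun e => c.ntF e ⟨w, ht⟩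
    have hw' : w ∈ G.N F := (mem_union.1 hw).resolve_left fun e => c.ntF e ⟨v, ht.sym33⟩
    exact Or.inr (Or.inr (Or.inr ⟨v, hv', w, hw', ht, h1, h2, h3, h4⟩))
  · exact absurd (c.L.1.sat _ _ _ hab) hn
  · exact absurd (c.L.1.sat _ _ _ hab) hxn
  · rcases hs with ⟨ha, hb⟩ | ⟨ha, hb⟩
    · exact Or.inl ⟨b, hb, hab.2.1, G.sym _ _ (LL_u76 hab)⟩
    · exact Or.inr (Or.inr (Or.inl ⟨a, ha, b, hb, hab.1, hab.2.1, ne_of_nb5 (LL_ab76 hab)⟩))

/-- a low vertex of `N F` without neighbours in `N F`, two neighbours in `F` -/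
theorem low0 (c : D G F l l') {e x x' : V} (he : e ∈ G.N F) (hT : G.pT F e = ∅)
    (h1 : l ∉ G.nb e) (h2 : l' ∉ G.nb e) (hE : G.nb e ∩ F = {x, x'}) :
    x' ∈ G.nb l ∧ x' ∈ G.nb l' := by
  have hx : x ∈ G.nb e ∩ F := by
    rw [hE]
    exact mem_insert_self _ _
  have hx' : x' ∈ G.nb e ∩ F := by
    rw [hE]
    exact mem_insert_of_mem (mem_singleton_self _)
  rw [mem_inter] at hx hx'
  have hll := c.hll
  have hnl : ¬ G.Low x := by
    intro k
    rcases c.lowF hx.2 k with e | e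
    · exact h1 (e ▸ hx.1)
    · exact h2 (e ▸ hx.1)
  have kF : ∀ b ∈ F, G.Low b → b ∉ G.nb e := by
    intro b hb hl
    rcases c.lowF hb hl with rfl | rfl
    · exact h1
    · exact h2
  have kT : ∀ b ∈ G.N F, b ∉ G.nb e := by
    intro b hb hbe
    have : b ∈ G.pT F e := mpT.2 ⟨hbe, hb⟩
    rw [hT] at this
    exact absurd this (notMem_empty _)
  rcases c.L.1.cov x hx.2 e (mem_union_right _ he) (G.sym _ _ hx.1) with
    ⟨w, hw, hl, h5, h6⟩ | ⟨v, hv, w, hw, ht, h5, h6, h7, h8⟩ | ⟨a, b, hab, h5, h6, hs⟩ |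
    ⟨a, b, hab, h5, h6, hs⟩ | ⟨a, b, hab, hs⟩
  · exfalso
    rcases mem_union.1 hw with hw | hw
    · exact kF w hw hl (G.sym _ _ h6)
    · exact kT w hw (G.sym _ _ h6)
  · exfalso
    have hv' : v ∈ G.N F := (mem_union.1 hv).resolve_left fun e => c.ntF e ⟨w, ht⟩
    exact kT v hv' (G.sym _ _ h7)
  · rcases hs with ⟨ha, hb⟩ | ⟨ha, hb⟩
    · have e1 : a = x' := by
        have k : a ∈ G.nb e ∩ F := mem_inter.2 ⟨G.sym _ _ (HL_t76 hab), ha⟩
        rw [hE, mem_insert, mem_singleton] at k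
        refine k.resolve_left ?_
        rintro rfl
        exact G.irr _ h6
      subst e1
      have n1 : l ≠ a := fun e => HL_not_low76 hab (e ▸ c.lo)
      have n2 : l' ≠ a := fun e => HL_not_low76 hab (e ▸ c.lo')
      rcases c.lowF hb hab.2.1 with rfl | rfl
      · exact ⟨G.sym _ _ hab.2.2.1, G.sym _ _ (HL_nb33 hab (G.sym _ _ hll) n2)⟩
      · exact ⟨G.sym _ _ (HL_nb33 hab hll n1), G.sym _ _ hab.2.2.1⟩
    · exact absurd (G.sym _ _ (HL_t76 hab)) (kT a ha)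
  · exact absurd (c.L.1.sat _ _ _ hab) hnl
  · exfalso
    rcases hs with ⟨ha, hb⟩ | ⟨ha, hb⟩
    · exact kF b hb hab.2.1 (G.sym _ _ (LL_u76 hab))
    · exact kT b hb (G.sym _ _ (LL_u76 hab))

/-- two pairs in a set with three vertices are equal -/
theorem samepair (c : D G F l l') {A : Finset V} (hA : A.card ≤ 3) {p p' v w : V} (hp : p ∈ A)
    (hp' : p' ∈ A) (hv : v ∈ A) (hw : w ∈ A) (h1 : G.Tw p p') (h2 : G.Tw v w) :
    (p = v ∧ p' = w) ∨ (p = w ∧ p' = v) := by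
  by_cases e1 : p = v
  · exact Or.inl ⟨e1, uniq c.L.1 h1 (e1 ▸ h2)⟩
  by_cases e2 : p = w
  · exact Or.inr ⟨e2, uniq c.L.1 h1 (e2 ▸ h2.sym33)⟩
  exfalso
  have e3 : p' ≠ v := fun e => e2 (uniq c.L.1 h1.sym33 (e ▸ h2))
  have e4 : p' ≠ w := fun e => e1 (uniq c.L.1 h1.sym33 (e ▸ h2.sym33))
  have := four_le hp hp' hv hw h1.ne33 e1 e2 e3 e4 h2.ne33
  omega

theorem main (c : D G F l l') (h3 : 3 ≤ G.d l F) : False := by
  have hV3 := c.V3
  have hml := c.ml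
  have hV : VV G F = G.N F \ G.nb l :=
    (eq_of_subset_of_card_le c.mlV (by omega)).symm
  have hVc : (VV G F).card = 3 := by
    rw [hV]
    rw [hV] at hV3
    omega
  have hd3 : G.d l F = 3 := by
    rw [← hml, ← hV]
    exact hVc
  have hT3 : (G.Tz F l).card = 3 := by
    have h1 := c.Ba.deg F c.L.1 l c.lF
    have h2 : (G.nb l).card = 6 := c.lo
    omega
  have hnn : ∀ w ∈ G.N F, 0 ≤ G.gam5 F w := c.B7.nn F c.L
  have hex : ∑ w ∈ G.N F, ex G F w ≤ 1 := by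
    have h1 := c.cnt
    have h2 := c.hs
    rw [hVc] at h1
    push_cast at h1
    omega
  have hex0 : ∀ w ∈ G.N F, 0 ≤ ex G F w := fun w hw => (c.exnn hw).1
  have hlow2 : ∀ w ∈ G.N F, G.Low w → G.d w F = 2 := by
    intro w hw hl
    have h1 := c.Ba.pos F c.L.1 w hw
    by_contra h2
    have h4 := (c.exnn hw).2.1 hl (by omega)
    have h5 := single_le_sum hex0 hw
    omega
  have htw3 : ∀ w ∈ G.N F, G.IsTw w → G.d w F = 3 := by
    intro w hw ht
    rcases (c.B7.tw3 F c.L w hw ht).2 with h1 | h1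
    · exact h1
    exfalso
    obtain ⟨w', hw'⟩ := ht
    have h2 := par c.Ba c.L.1 hw hw'
    have h4 := (c.exnn hw).2.2 ⟨_, hw'⟩ h1
    have h5 := (c.exnn h2).2.2 ⟨_, hw'.sym33⟩ ((dpar c.Ba c.L.1 hw hw').trans h1)
    have k1 : ({w, w'} : Finset V) ⊆ G.N F := by
      intro z hz
      rw [mem_insert, mem_singleton] at hz
      rcases hz with rfl | rfl <;> assumption
    have k2 := sum_ge k1 (f := ex G F) (fun z hz => hex0 z (mem_sdiff.1 hz).1)
    rw [sum_pair hw'.ne33] at k2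
    omega
  have hpTtw : ∀ w ∈ G.N F, G.IsTw w → (G.pT F w).card ≤ 2 := by
    intro w hw ht
    have h1 := (c.B.tw F c.L.1 w hw ht).2.2.2.1
    have h2 := htw3 w hw ht
    omega
  have hTl : ∀ w ∈ G.N F, w ∉ VV G F → w ∈ G.Tz F l := by
    intro w hw h1
    refine mem_inter.2 ⟨?_, hw⟩
    rw [hV, mem_sdiff] at h1
    by_contra h2
    exact h1 ⟨hw, h2⟩
  have hll := c.hll
  set B := (F.erase l).erase l' with hB
  have mB : ∀ x, x ∈ B ↔ x ≠ l' ∧ x ≠ l ∧ x ∈ F := by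
    intro x
    rw [hB, mem_erase, mem_erase]
  have hBc : B.card = 3 := by
    rw [hB, card_erase_of_mem (mem_erase.2 ⟨c.ll.symm, c.lF'⟩), card_erase_of_mem c.lF, c.cF]
  have hubB : ∀ x ∈ B, G.Hub x := fun x hx => c.hu x ((mB x).1 hx).2.2 ((mB x).1 hx).2.1
    ((mB x).1 hx).1
  /- d l F = 1 + number of hubs -/
  have hdl : ∀ a b, ({a, b} : Finset V) = {l, l'} → a ≠ b → a ∈ F → b ∈ F → b ∈ G.nb a →
      G.d a F = (G.nb a ∩ B).card + 1 := by
    intro a b hab hne ha hb hba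
    have k1 : G.nb a ∩ F = insert b (G.nb a ∩ B) := by
      ext x
      rw [mem_insert, mem_inter, mem_inter, mB]
      have hx : (x ≠ l' ∧ x ≠ l) ↔ (x ≠ a ∧ x ≠ b) := by
        have : x ∈ ({a, b} : Finset V) ↔ x ∈ ({l, l'} : Finset V) := by rw [hab]
        rw [mem_insert, mem_singleton, mem_insert, mem_singleton] at this
        constructor
        · rintro ⟨k1, k2⟩
          exact ⟨fun e => (this.1 (Or.inl e)).elim k2 k1, fun e => (this.1 (Or.inr e)).elim k2 k1⟩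
        · rintro ⟨k1, k2⟩
          exact ⟨fun e => (this.2 (Or.inr e)).elim k1 k2, fun e => (this.2 (Or.inl e)).elim k1 k2⟩
      constructor
      · rintro ⟨k1, k2⟩
        by_cases e : x = b
        · exact Or.inl e
        · have := hx.2 ⟨(ne_of_nb5 k1).symm, e⟩
          exact Or.inr ⟨k1, this.1, this.2, k2⟩
      · rintro (rfl | ⟨k1, -, -, k2⟩)
        · exact ⟨hba, hb⟩
        · exact ⟨k1, k2⟩
    unfold d
    rw [k1, card_insert_of_notMem]
    intro k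
    rw [mem_inter, mB] at k
    have : b ∈ ({l, l'} : Finset V) := by
      rw [← hab]
      exact mem_insert_of_mem (mem_singleton_self _)
    rw [mem_insert, mem_singleton] at this
    rcases this with e | e
    · exact k.2.2.1 e
    · exact k.2.1 e
  have hd1 := hdl l l' rfl c.ll c.lF c.lF' (G.sym _ _ hll)
  have hd2 := hdl l' l (pair_comm _ _) c.ll.symm c.lF' c.lF hll
  have hd4 : G.d l' F ≤ 3 := by
    rw [← c.sl.ml]
    exact (card_le_card c.sl.mlV).trans hV3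
  /- the hub `g` -/
  obtain ⟨g, hg⟩ : (B \ G.nb l').Nonempty := by
    rw [← card_pos]
    have h1 : (B \ G.nb l').card = B.card - (G.nb l' ∩ B).card := card_sdiff
    omega
  rw [mem_sdiff] at hg
  have hgl : g ∈ G.nb l := (c.hub1 ((mB g).1 hg.1).2.2 ((mB g).1 hg.1).2.1
    ((mB g).1 hg.1).1).resolve_right hg.2
  obtain ⟨p, hp, p', hp', hpp, hlp, hlp', hgp, hgp'⟩ := c.edge hV ((mB g).1 hg.1).2.2
    (hubB g hg.1).1 hgl hg.2
  have hpl : p ∈ G.Tz F l := mem_inter.2 ⟨G.sym _ _ hlp, hp⟩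
  have hpl' : p' ∈ G.Tz F l := mem_inter.2 ⟨G.sym _ _ hlp', hp'⟩
  have hpV : p ∉ VV G F := by
    rw [hV, mem_sdiff]
    exact fun k => k.2 (mem_inter.1 hpl).1
  have hpNC := c.nV hp hpV
  have hl'p := (c.A1 hpNC).2
  have guniq : ∀ g2 ∈ B, g2 ∉ G.nb l' → g2 = g := by
    intro g2 hg2 h1
    by_contra hne
    have h2 : g2 ∈ G.nb l := (c.hub1 ((mB g2).1 hg2).2.2 ((mB g2).1 hg2).2.1
      ((mB g2).1 hg2).1).resolve_right h1
    obtain ⟨v, hv, w, hw, hvw, k1, k2, k3, k4⟩ := c.edge hV ((mB g2).1 hg2).2.2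
      (hubB g2 hg2).1 h2 h1
    have k5 := c.samepair (A := G.Tz F l) hT3.le hpl hpl' (mem_inter.2 ⟨G.sym _ _ k1, hv⟩)
      (mem_inter.2 ⟨G.sym _ _ k2, hw⟩) hpp hvw
    have k6 : g2 ∈ G.nb p := by
      rcases k5 with ⟨e, -⟩ | ⟨e, -⟩
      · rw [e]
        exact k3
      · rw [e]
        exact k4
    have k7 := four_le (A := G.nb p ∩ F) (mem_inter.2 ⟨hlp, c.lF⟩) (mem_inter.2 ⟨hl'p, c.lF'⟩)
      (mem_inter.2 ⟨hgp, ((mB g).1 hg.1).2.2⟩) (mem_inter.2 ⟨k6, ((mB g2).1 hg2).2.2⟩) c.ll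
      ((mB g).1 hg.1).2.1.symm ((mB g2).1 hg2).2.1.symm ((mB g).1 hg.1).1.symm
      ((mB g2).1 hg2).1.symm (Ne.symm hne)
    have k8 := htw3 p hp ⟨_, hpp⟩
    unfold d at k8
    omega
  have hB2 : (G.nb l' ∩ B).card = 2 := by
    have k1 : B.erase g ⊆ G.nb l' ∩ B := by
      intro x hx
      rw [mem_erase] at hx
      refine mem_inter.2 ⟨?_, hx.2⟩
      by_contra k
      exact hx.1 (guniq x hx.2 k)
    have k2 := card_le_card k1
    rw [card_erase_of_mem hg.1, hBc] at k2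
    omega
  have hV' : VV G F = G.N F \ G.nb l' :=
    (eq_of_subset_of_card_le c.sl.mlV (by
      rw [c.sl.ml]
      omega)).symm
  have hVl : ∀ y ∈ VV G F, l ∉ G.nb y ∧ l' ∉ G.nb y := by
    intro y hy
    have k1 : y ∈ G.N F \ G.nb l := hV ▸ hy
    have k2 : y ∈ G.N F \ G.nb l' := hV' ▸ hy
    exact ⟨fun k => (mem_sdiff.1 k1).2 (G.sym _ _ k), fun k => (mem_sdiff.1 k2).2 (G.sym _ _ k)⟩
  /- at most one hub is adjacent to both lows -/
  have both : ∀ x ∈ B, ∀ y ∈ B, x ≠ y → x ∈ G.nb l → x ∈ G.nb l' → y ∈ G.nb l → y ∈ G.nb l' →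
      False := by
    intro x hx y hy hxy k1 k2 k3 k4
    obtain ⟨u, hu⟩ : (B \ G.nb l).Nonempty := by
      rw [← card_pos]
      have h1 : (B \ G.nb l).card = B.card - (G.nb l ∩ B).card := card_sdiff
      omega
    rw [mem_sdiff] at hu
    have e1 : x ≠ u := fun e => hu.2 (e ▸ k1)
    have e2 : y ≠ u := fun e => hu.2 (e ▸ k3)
    have e3 : x ≠ g := fun e => hg.2 (e ▸ k2)
    have e4 : y ≠ g := fun e => hg.2 (e ▸ k4)
    have e5 : u ≠ g := fun e => hu.2 (e ▸ hgl)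
    have := four_le hx hy hu.1 hg.1 hxy e1 e3 e2 e4 e5
    omega
  have lowpT : ∀ e ∈ G.N F, G.Low e → (G.pT F e).Nonempty := by
    intro e he hl
    by_contra hem
    rw [not_nonempty_iff_eq_empty] at hem
    have h1 := hVl e (c.lowV he hl)
    have h2 := hlow2 e he hl
    unfold d at h2
    obtain ⟨x, x', hxx, hE⟩ := card_eq_two.1 h2
    have h4 := c.low0 he hem h1.1 h1.2 hE
    have h5 := c.low0 he hem h1.1 h1.2 (hE.trans (pair_comm _ _))
    have hx : x ∈ G.nb e ∩ F := by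
      rw [hE]
      exact mem_insert_self _ _
    have hx' : x' ∈ G.nb e ∩ F := by
      rw [hE]
      exact mem_insert_of_mem (mem_singleton_self _)
    rw [mem_inter] at hx hx'
    have m1 : x ∈ B := (mB x).2 ⟨fun k => h1.2 (k ▸ hx.1), fun k => h1.1 (k ▸ hx.1), hx.2⟩
    have m2 : x' ∈ B := (mB x').2 ⟨fun k => h1.2 (k ▸ hx'.1), fun k => h1.1 (k ▸ hx'.1), hx'.2⟩
    exact both x m1 x' m2 hxx h5.1 h5.2 h4.1 h4.2
  have low1 : ∀ a ∈ G.N F, ∀ b ∈ G.N F, G.Low a → G.Low b → a = b := by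
    intro a ha b hb hla hlb
    by_contra hne
    have h1 := (c.lowv ha hla).1
    have h2 := (c.lowv hb hlb).1
    have h4 := card_pos.2 (lowpT a ha hla)
    have h5 := card_pos.2 (lowpT b hb hlb)
    have k1 : ({a, b} : Finset V) ⊆ G.N F := by
      intro z hz
      rw [mem_insert, mem_singleton] at hz
      rcases hz with rfl | rfl <;> assumption
    have k2 := sum_ge k1 (f := G.gam5 F) (fun z hz => hnn z (mem_sdiff.1 hz).1)
    rw [sum_pair hne] at k2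
    have := c.hs
    omega
  have nontw : ∀ u ∈ VV G F, ¬ G.IsTw u := by
    rintro u hu ⟨u', hut⟩
    obtain ⟨huN, hun⟩ := c.mVV.1 hu
    have hu' := par c.Ba c.L.1 huN hut
    have hnl := not_low33 (G := G) ⟨u', hut⟩
    apply hun
    refine ⟨huN, hnl, ?_, ?_⟩
    · intro b hb hl hbu
      have hbn : b ≠ u' := fun e => not_low33 (G := G) ⟨u, hut.sym33⟩ (e ▸ hl)
      have hbn' : b ≠ u := fun e => hnl (e ▸ hl)
      have hbu' : b ∈ G.nb u' := hut.nb33 hbu hbn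
      have g1 := (c.lowv hb hl).1
      have g2 := two_le (A := G.pT F b) (mpT.2 ⟨G.sym _ _ hbu, huN⟩) (mpT.2 ⟨G.sym _ _ hbu', hu'⟩)
        hut.ne33
      have g3 := (vtw c.B c.L.1 huN ⟨_, hut⟩).2.2.2.1
        (two_le (mpT.2 ⟨hut.1, hu'⟩) (mpT.2 ⟨hbu, hb⟩) hbn.symm) (by
          have := htw3 u huN ⟨_, hut⟩
          omega)
      have g4 := (vtw c.B c.L.1 hu' ⟨_, hut.sym33⟩).2.2.2.1
        (two_le (mpT.2 ⟨hut.sym33.1, huN⟩) (mpT.2 ⟨hbu', hb⟩) hbn'.symm) (by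
          have := htw3 u' hu' ⟨_, hut.sym33⟩
          omega)
      have k1 : ({b, u, u'} : Finset V) ⊆ G.N F := by
        intro z hz
        rw [mem_insert, mem_insert, mem_singleton] at hz
        rcases hz with rfl | rfl | rfl <;> assumption
      have k2 := sum_ge k1 (f := G.gam5 F) (fun z hz => hnn z (mem_sdiff.1 hz).1)
      rw [sum_insert (by simp [hbn, hbn']), sum_pair hut.ne33] at k2
      have := c.hs
      omega
    · intro v hv w hw hvw h1 h2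
      have e1 : v ≠ u' := by
        rintro rfl
        have := uniq c.L.1 hvw hut.sym33
        rw [this] at h2
        exact G.irr _ h2
      have e2 : w ≠ u' := by
        rintro rfl
        have := uniq c.L.1 hvw.sym33 hut.sym33
        rw [this] at h1
        exact G.irr _ h1
      have h4 := three_le (A := G.pT F u) (mpT.2 ⟨G.sym _ _ h1, hv⟩) (mpT.2 ⟨G.sym _ _ h2, hw⟩)
        (mpT.2 ⟨hut.1, hu'⟩) hvw.ne33 e1 e2
      have h5 := hpTtw u huN ⟨_, hut⟩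
      omega
  have adj : ∀ u ∈ VV G F, ¬ G.Low u → u ∈ G.nb p := by
    intro u hu hnl
    by_contra hup
    obtain ⟨huN, -⟩ := c.mVV.1 hu
    have h1 := hVl u hu
    have key : ∀ x ∈ F, x ∈ G.nb u → ∃ b ∈ G.N F, G.Low b ∧ b ∈ G.nb u ∧ x ∈ G.nb b := by
      intro x hx hxu
      have hxB : x ∈ B := (mB x).2 ⟨fun k => h1.2 (k ▸ hxu), fun k => h1.1 (k ▸ hxu), hx⟩
      rcases c.cvH hx (hubB x hxB).1 huN hxu hnl with ⟨b, hb, hl, k1⟩ | k1 |
        ⟨a, ha, b, hb, hla, hlb, hne⟩ | ⟨v, hv, w, hw, hvw, -, -, k3, k4⟩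
      · exfalso
        rcases c.lowF hb hl with rfl | rfl
        · exact h1.1 k1
        · exact h1.2 k1
      · exact k1
      · exact absurd (low1 a ha b hb hla hlb) hne
      · exfalso
        have m1 := hTl v hv (fun k => nontw v k ⟨_, hvw⟩)
        have m2 := hTl w hw (fun k => nontw w k ⟨_, hvw.sym33⟩)
        rcases c.samepair hT3.le hpl hpl' m1 m2 hpp hvw with ⟨e, -⟩ | ⟨e, -⟩
        · exact hup (e ▸ k3)
        · exact hup (e ▸ k4)
    have hp2 := c.Ba.pos F c.L.1 u huN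
    obtain ⟨x0, hx0⟩ : (G.nb u ∩ F).Nonempty := by
      rw [← card_pos]
      unfold d at hp2
      omega
    rw [mem_inter] at hx0
    obtain ⟨e, he, hel, heu, -⟩ := key x0 hx0.2 hx0.1
    have hsub : (G.nb u ∪ G.nb e) ∩ F ⊆ G.nb e ∩ F := by
      intro x hx
      rw [mem_inter, mem_union] at hx
      refine mem_inter.2 ⟨?_, hx.2⟩
      rcases hx.1 with k | k
      · obtain ⟨b, hb, hl, -, k2⟩ := key x hx.2 k
        rw [low1 b hb e he hl hel] at k2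
        exact k2
      · exact k
    have h4 := card_le_card hsub
    have h5 := c.B7.two F c.L u huN e he (fun k => hnl (k ▸ hel))
    have h6 := hlow2 e he hel
    unfold d at h6
    omega
  /- two non-lows in `VV` -/
  obtain ⟨u, hu⟩ : ((VV G F).filter fun w => ¬ G.Low w).Nonempty := by
    by_contra hem
    rw [not_nonempty_iff_eq_empty, filter_eq_empty_iff] at hem
    obtain ⟨x, y, z, hxy, -, -, e⟩ := card_eq_three.1 hVc
    have m1 : x ∈ VV G F := by rw [e]; simp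
    have m2 : y ∈ VV G F := by rw [e]; simp
    exact hxy (low1 x (c.mVV.1 m1).1 y (c.mVV.1 m2).1 (not_not.1 (hem m1)) (not_not.1 (hem m2)))
  rw [mem_filter] at hu
  obtain ⟨u2, hu2⟩ : (((VV G F).erase u).filter fun w => ¬ G.Low w).Nonempty := by
    by_contra hem
    rw [not_nonempty_iff_eq_empty, filter_eq_empty_iff] at hem
    have h1 : ((VV G F).erase u).card = 2 := by
      rw [card_erase_of_mem hu.1, hVc]
    obtain ⟨x, y, hxy, e⟩ := card_eq_two.1 h1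
    have m1 : x ∈ (VV G F).erase u := by rw [e]; simp
    have m2 : y ∈ (VV G F).erase u := by rw [e]; simp
    exact hxy (low1 x (c.mVV.1 (mem_of_mem_erase m1)).1 y (c.mVV.1 (mem_of_mem_erase m2)).1
      (not_not.1 (hem m1)) (not_not.1 (hem m2)))
  rw [mem_filter, mem_erase] at hu2
  have h1 := adj u hu.1 hu.2
  have h2 := adj u2 hu2.1.2 hu2.2
  have h4 := three_le (A := G.pT F p) (mpT.2 ⟨h1, (c.mVV.1 hu.1).1⟩)
    (mpT.2 ⟨h2, (c.mVV.1 hu2.1.2).1⟩) (mpT.2 ⟨hpp.1, hp'⟩) hu2.1.1.symm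
    (fun e => nontw u hu.1 (e ▸ ⟨_, hpp.sym33⟩)) (fun e => nontw u2 hu2.1.2 (e ▸ ⟨_, hpp.sym33⟩))
  have h5 := hpTtw p hp ⟨_, hpp⟩
  omega

theorem five (c : D G F l l') : 5 ≤ G.d l F + G.d l' F := by
  have hll := c.hll
  have h1 : F ⊆ (G.nb l ∩ F) ∪ (G.nb l' ∩ F) := by
    intro x hx
    rw [mem_union, mem_inter, mem_inter]
    by_cases e1 : x = l
    · rw [e1]
      exact Or.inr ⟨hll, c.lF⟩
    by_cases e2 : x = l'
    · rw [e2]
      exact Or.inl ⟨G.sym _ _ hll, c.lF'⟩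
    rcases c.hub1 hx e1 e2 with k | k
    · exact Or.inl ⟨k, hx⟩
    · exact Or.inr ⟨k, hx⟩
  have h2 := card_le_card h1
  have h3 := card_union_le (G.nb l ∩ F) (G.nb l' ∩ F)
  rw [c.cF] at h2
  unfold d
  omega

end D

end J2x44

open J2x44

theorem st7LLHHH_44 (G : CG V) (hBa : G.StLBas) (hB : G.StLB) (hC : G.StLCnt) (h7 : G.St7Bas) :
    G.St7LLHHH := by
  intro F hF l hl l' hl' hne h1 h2 h3
  by_contra hcon
  have c : D G F l l' :=
    { L := hF, B := hB, Ba := hBa, B7 := h7, C := hC, lF := hl, lF' := hl', ll := hne, lo := h1,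
      lo' := h2, hu := h3, hs := by omega }
  have h4 := c.five
  by_cases h5 : 3 ≤ G.d l F
  · exact c.main h5
  · exact c.sl.main (by omega)

end CG

end Pool.Agent.Lib.MP_e95c01_co.N
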