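import Pool.Agent.Lib.MP_e95c01_co.X.J4d_38

/-!
# J4: leaves with a low vertex and four hubs, the theorem
-/

namespace Pool.Agent.Lib.MP_e95c01_co.N

open Finset

variable {V : Type} [Fintype V] [DecidableEq V]

namespace CG

variable {G : CG V} {F : Finset V} {l : V}

/-- incidences -/
theorem sum_dS38 (F S : Finset V) :
    ∑ w ∈ S, G.d w F = ∑ z ∈ F, (G.nb z ∩ S).card := by
  have h1 : ∀ w ∈ S, G.d w F = ∑ z ∈ F, if z ∈ G.nb w then 1 else 0 := by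
    intro w _
    rw [d, inter_comm, ← filter_mem_eq_inter, card_filter]
  rw [sum_congr rfl h1, sum_comm]
  refine sum_congr rfl fun z _ => ?_
  rw [inter_comm, ← filter_mem_eq_inter, card_filter]
  refine sum_congr rfl fun w _ => ?_
  by_cases h : z ∈ G.nb w
  · rw [if_pos h, if_pos (G.sym _ _ h)]
  · rw [if_neg h, if_neg fun h2 => h (G.sym _ _ h2)]

namespace S4_38

/-- the main inequality -/
theorem lt7 (s : S4_38 G F l) (hb : G.StLBas) (hB : G.StLB) (h7 : G.St7Bas)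
    (hlt : ∑ w ∈ G.N F, G.gam5 F w < 20) :
    ∑ w ∈ G.LoT F, ex G F w + 2 * ∑ w ∈ G.LoT F, (G.Ln F w : ℤ) +
      2 * ∑ v ∈ G.NoT F, ((G.Ln F v : ℤ) - 1) ≤ 7 := by
  have h1 := s.f6 hb hB h7
  obtain ⟨-, -, -, h2⟩ := s.sums_nn hb hB h7
  linarith

/-- excess by degree -/
theorem exd (s : S4_38 G F l) (hb : G.StLBas) (hB : G.StLB) (h7 : G.St7Bas) {w : V}
    (hw : w ∈ G.LoT F) : (3 ≤ G.d w F → 2 ≤ ex G F w) ∧ (4 ≤ G.d w F → 6 ≤ ex G F w) ∧
      (5 ≤ G.d w F → 12 ≤ ex G F w) := by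
  obtain ⟨h1, h2⟩ := mem_LoT38.1 hw
  obtain ⟨⟨h4, h5, -⟩, h3, -⟩ := low5_38 hB hb h7 s.h h1 h2
  rw [ex]
  have h6 : G.d w F = 2 ∨ G.d w F = 3 ∨ G.d w F = 4 ∨ G.d w F = 5 := by omega
  rcases h6 with h6 | h6 | h6 | h6
  · rw [h6]
    refine ⟨fun h => ?_, fun h => ?_, fun h => ?_⟩ <;> omega
  · rw [h6] at h3 ⊢
    norm_num at h3
    refine ⟨fun _ => by linarith, fun h => ?_, fun h => ?_⟩ <;> omega
  · rw [h6] at h3 ⊢
    norm_num at h3
    refine ⟨fun _ => by linarith, fun h => by linarith, fun h => ?_⟩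
    omega
  · rw [h6] at h3 ⊢
    norm_num at h3
    exact ⟨fun _ => by linarith, fun _ => by linarith, fun _ => by linarith⟩

theorem xnn (s : S4_38 G F l) (hb : G.StLBas) (hB : G.StLB) (h7 : G.St7Bas) :
    ∀ v ∈ G.NoT F, 0 ≤ ((G.Ln F v : ℤ) - 1) := by
  intro v hv
  have := s.ln hb hB h7 v hv
  have h1 : (1 : ℤ) ≤ G.Ln F v := by exact_mod_cast this
  linarith

/-- two lows at a vertex -/
theorem ln2 {v a b : V} (ha : a ∈ G.LoT F) (hb : b ∈ G.LoT F) (h1 : a ∈ G.nb v) (h2 : b ∈ G.nb v)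
    (h : a ≠ b) : (2 : ℤ) ≤ G.Ln F v := by
  have : 2 ≤ G.Ln F v := two_le5 (mem_inter.2 ⟨h1, ha⟩) (mem_inter.2 ⟨h2, hb⟩) h
  exact_mod_cast this

/-- three lows at a vertex -/
theorem ln3 {v a b c : V} (ha : a ∈ G.LoT F) (hb : b ∈ G.LoT F) (hc : c ∈ G.LoT F)
    (h1 : a ∈ G.nb v) (h2 : b ∈ G.nb v) (h3 : c ∈ G.nb v) (h : a ≠ b) (h' : a ≠ c) (h'' : b ≠ c) :
    (3 : ℤ) ≤ G.Ln F v := by
  have : 3 ≤ G.Ln F v := three_le33 (mem_inter.2 ⟨h1, ha⟩) (mem_inter.2 ⟨h2, hb⟩)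
    (mem_inter.2 ⟨h3, hc⟩) h h' h''
  exact_mod_cast this

/-- no low vertex adjacent to `l` -/
theorem c0 (s : S4_38 G F l) (hb : G.StLBas) (hB : G.StLB) (h7 : G.St7Bas)
    (nt : ∀ v ∈ G.N F, ¬ G.IsTw v) (hlt : ∑ w ∈ G.N F, G.gam5 F w < 20)
    (h0 : (G.nb l ∩ G.LoT F).card = 0) (hX : 0 < (G.Tz F l).card) : False := by
  rw [Finset.card_eq_zero] at h0
  obtain ⟨a1, m1, b1, n1, a2, m2, b2, n2, k1, k2, k3, k4, k5, k6⟩ :=
    s.nx0 nt h0 (card_pos.1 hX)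
  have h1 := s.lt7 hb hB h7 hlt
  obtain ⟨g1, -, -, -⟩ := s.sums_nn hb hB h7
  have h2 := (LL1_38 n1 n2 k6).2.2
  have hbb : b1 ≠ b2 := ne_of_nb5 k6
  have h3 := ln2 n1 n2 (HL_b76 k1) (G.sym _ _ k3) hbb
  have h4 := ln2 n1 n2 (G.sym _ _ k5) (HL_b76 k2) hbb
  have h5 := term2_38 (s.xnn hb hB h7) (mem_NoT38.2 ⟨m1, HL_not_low76 k1⟩)
    (mem_NoT38.2 ⟨m2, HL_not_low76 k2⟩) (ne_of_nb5 k4).symm
  linarith

/-- one low vertex adjacent to `l` -/
theorem c1 (s : S4_38 G F l) (hb : G.StLBas) (hB : G.StLB) (h7 : G.St7Bas)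
    (nt : ∀ v ∈ G.N F, ¬ G.IsTw v) (hlt : ∑ w ∈ G.N F, G.gam5 F w < 20)
    (h0 : (G.nb l ∩ G.LoT F).card = 1) : False := by
  obtain ⟨x, hx⟩ := card_eq_one.1 h0
  obtain ⟨hxL, hxl, a, ma, b, nb, k1, k2, k3⟩ := s.nx1 nt hx
  have h1 := s.lt7 hb hB h7 hlt
  obtain ⟨g1, -, -, -⟩ := s.sums_nn hb hB h7
  have hxb : x ≠ b := (ne_of_nb5 k2).symm
  have h2 := (LL1_38 nb hxL k2).2.2
  have haN : a ∈ G.NoT F := mem_NoT38.2 ⟨ma, HL_not_low76 k1⟩
  have h3 := ln2 nb hxL (HL_b76 k1) k3 hxb.symm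
  have h4 := term1_38 (s.xnn hb hB h7) haN
  -- the lows
  have hLo : ∀ v ∈ G.LoT F, v = x ∨ v = b := by
    intro v hv
    by_contra hno
    rw [not_or] at hno
    have hvl : v ∉ G.nb l := by
      intro h
      have : v ∈ G.nb l ∩ G.LoT F := mem_inter.2 ⟨h, hv⟩
      rw [hx, mem_singleton] at this
      exact hno.1 this
    rcases s.vlow hb nt hv hvl with ⟨w, g2, g3⟩ | ⟨y, g2, b', g3, g4⟩
    · have := twoE38 nb hxL g2 hv k2 g3 (fun h => hno.1 h.2.symm) (fun h => hno.2 h.1.symm)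
      linarith
    · have hyN : y ∈ G.NoT F := mem_NoT38.2 ⟨g2, HL_not_low76 g4⟩
      by_cases hya : y = a
      · subst hya
        have h5 := ln3 nb hxL hv (HL_b76 k1) k3 (HL_t76 g4) hxb.symm
          (fun h => hno.2 h.symm) (fun h => hno.1 h.symm)
        linarith
      · have h5 := ln2 g3 hv (HL_b76 g4) (HL_t76 g4) (HL_bt76 g4).2.symm
        have h6 := term2_38 (s.xnn hb hB h7) haN hyN (Ne.symm hya)
        linarith
  have hLo2 : G.LoT F = {x, b} := by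
    ext v
    rw [mem_insert, mem_singleton]
    constructor
    · exact hLo v
    · rintro (rfl | rfl) <;> assumption
  have h5 := sum_t38 (G := G) F
  have h6 : ((G.NoT F).card : ℤ) = 4 := by
    have h7 := card_LoNo38 (G := G) F
    rw [hLo2, card_pair hxb, s.h.1.big.1.2.1] at h7
    have : (G.NoT F).card = 4 := by omega
    exact_mod_cast this
  have h8 : ∑ v ∈ G.NoT F, ((G.Ln F v : ℤ) - 1) = ∑ v ∈ G.NoT F, (G.Ln F v : ℤ) - 4 := by
    rw [sum_sub_distrib, sum_const, nsmul_eq_mul, mul_one, h6]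
  have h9 : ∑ w ∈ G.LoT F, (G.pT F w).card = (G.pT F x).card + (G.pT F b).card := by
    rw [hLo2, sum_pair hxb]
  have t1 := (s.t3 hb hB h7 hxL)
  have t2 := (s.t3 hb hB h7 nb)
  have h10 : (∑ w ∈ G.LoT F, (G.pT F w).card : ℕ) ≤ 6 := by omega
  rw [h5] at h10
  have h11 : ∑ v ∈ G.LoT F, (G.Ln F v : ℤ) + ∑ v ∈ G.NoT F, (G.Ln F v : ℤ) ≤ 6 := by
    exact_mod_cast h10
  linarith

/-- `d = 4`, two lows -/
theorem c42 (s : S4_38 G F l) (hb : G.StLBas) (hB : G.StLB) (h7 : G.St7Bas)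
    (nt : ∀ v ∈ G.N F, ¬ G.IsTw v) (hlt : ∑ w ∈ G.N F, G.gam5 F w < 20)
    (hd : G.d l F = 4) (h0 : (G.nb l ∩ G.LoT F).card = 2) : False := by
  have h1 := s.lt7 hb hB h7 hlt
  obtain ⟨g1, -, g3, -⟩ := s.sums_nn hb hB h7
  have hX : (G.Tz F l).card = 2 := by
    have := s.degl hb
    omega
  have hDX : G.nb l ∩ G.LoT F = G.Tz F l := by
    apply eq_of_subset_of_card_le
    · intro w hw
      obtain ⟨h2, h3⟩ := mem_inter.1 hw
      exact mem_inter.2 ⟨h2, LoN h3⟩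
    · omega
  have allow : ∀ a ∈ G.N F, l ∈ G.nb a → G.Low a := by
    intro a ha h
    have : a ∈ G.Tz F l := mem_inter.2 ⟨G.sym _ _ h, ha⟩
    rw [← hDX] at this
    exact LoL (mem_inter.1 this).2
  obtain ⟨x1, x2, h12, hD⟩ := card_eq_two.1 h0
  have memD : ∀ w ∈ G.LoT F, l ∈ G.nb w → w = x1 ∨ w = x2 := by
    intro w hw h
    have : w ∈ G.nb l ∩ G.LoT F := mem_inter.2 ⟨G.sym _ _ h, hw⟩
    rw [hD, mem_insert, mem_singleton] at this
    exact this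
  have hx1 : x1 ∈ G.nb l ∩ G.LoT F := by rw [hD]; exact mem_insert_self _ _
  have hx2 : x2 ∈ G.nb l ∩ G.LoT F := by rw [hD]; exact mem_insert_of_mem (mem_singleton_self _)
  obtain ⟨x1l, x1L⟩ := mem_inter.1 hx1
  obtain ⟨x2l, x2L⟩ := mem_inter.1 hx2
  -- covers at `l`
  have hadj : x1 ∈ G.nb x2 := by
    rcases s.covl' nt (mem_union_right _ (LoN x1L)) x1l with c | c | c | c
    · obtain ⟨w, g4, g5, g6⟩ := c
      rcases memD w g4 g5 with rfl | rfl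
      · exact absurd g6 (G.irr _)
      · exact g6
    · obtain ⟨a, g4, b, -, g5, -, g6⟩ := c
      exact absurd (allow a g4 g6) (HL_not_low76 g5)
    · obtain ⟨a, g4, b, -, g5, -⟩ := c
      exact absurd (allow a g4 (HL_t76 g5)) (HL_not_low76 g5)
    · exfalso
      obtain ⟨a, g4, b, g5, g6⟩ := c
      have h2 := memD a g4 (LL_t76 g6)
      have h3 : a ≠ x1 := (LL_ua76 g6).2.symm
      rcases h2 with h2 | h2
      · exact h3 h2
      · subst h2
        have h4 := twoE38 g4 g5 g5 x1L (LL_ab76 g6) (LL_u76 g6)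
          (fun h => ne_of_nb5 (LL_ab76 g6) h.1) (fun h => h12 h.1.symm)
        linarith
  have hub : ∀ z ∈ F, z ∈ G.nb l → z ∈ G.nb x1 ∨ z ∈ G.nb x2 := by
    intro z hz hzl
    have hzne : z ≠ l := (ne_of_nb5 hzl).symm
    rcases s.covl' nt (mem_union_left _ hz) hzl with c | c | c | c
    · obtain ⟨w, g4, g5, g6⟩ := c
      rcases memD w g4 g5 with rfl | rfl
      · exact Or.inl g6
      · exact Or.inr g6
    · obtain ⟨a, -, b, -, g5, -⟩ := c
      exact absurd (s.h.1.sat _ _ _ g5) (s.hub z hz hzne).1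
    · obtain ⟨a, g4, b, -, g5, -⟩ := c
      exact absurd (allow a g4 (HL_t76 g5)) (HL_not_low76 g5)
    · exfalso
      obtain ⟨a, g4, b, g5, g6⟩ := c
      have hbl : l ∉ G.nb b := (LL_tb76 g6).1
      have h4 := twoE38 x2L x1L g4 g5 hadj (LL_ab76 g6)
        (fun h => hbl (h.2 ▸ G.sym _ _ x1l)) (fun h => hbl (h.1 ▸ G.sym _ _ x2l))
      linarith
  have hF : G.nb l ∩ F = F.erase l := by
    apply eq_of_subset_of_card_le
    · intro x hx
      obtain ⟨h2, h3⟩ := mem_inter.1 hx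
      exact mem_erase.2 ⟨(ne_of_nb5 h2).symm, h3⟩
    · rw [card_erase_of_mem s.lF, s.h.2]
      have : (G.nb l ∩ F).card = G.d l F := rfl
      omega
  have hsum := sum_dS38 (G := G) F {x1, x2}
  rw [sum_pair h12] at hsum
  have hge : 6 ≤ ∑ z ∈ F, (G.nb z ∩ {x1, x2}).card := by
    rw [← add_sum_erase F _ s.lF]
    have e1 : 2 ≤ (G.nb l ∩ {x1, x2}).card :=
      two_le5 (mem_inter.2 ⟨x1l, mem_insert_self _ _⟩)
        (mem_inter.2 ⟨x2l, mem_insert_of_mem (mem_singleton_self _)⟩) h12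
    have e2 : (F.erase l).card • 1 ≤ ∑ z ∈ F.erase l, (G.nb z ∩ {x1, x2}).card := by
      refine card_nsmul_le_sum _ _ 1 fun z hz => ?_
      rw [← hF] at hz
      obtain ⟨z1, z2⟩ := mem_inter.1 hz
      rw [Nat.succ_le_iff, card_pos]
      rcases hub z z2 z1 with g | g
      · exact ⟨x1, mem_inter.2 ⟨G.sym _ _ g, mem_insert_self _ _⟩⟩
      · exact ⟨x2, mem_inter.2 ⟨G.sym _ _ g, mem_insert_of_mem (mem_singleton_self _)⟩⟩
    rw [card_erase_of_mem s.lF, s.h.2, smul_eq_mul] at e2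
    omega
  have t1 := (s.t3 hb hB h7 x1L)
  have t2 := (s.t3 hb hB h7 x2L)
  obtain ⟨a1, a2, a3⟩ := s.exd hb hB h7 x1L
  obtain ⟨b1, b2, b3⟩ := s.exd hb hB h7 x2L
  have h5 := term2_38 (g := fun w => ex G F w) (fun v hv => s.ex_nn hb hB h7 hv) x1L x2L h12
  have h6 := (LL1_38 x2L x1L hadj).2.2
  have n1 := s.ex_nn hb hB h7 x1L
  have n2 := s.ex_nn hb hB h7 x2L
  have hcase : (3 ≤ G.d x1 F ∧ 3 ≤ G.d x2 F) ∨ 4 ≤ G.d x1 F ∨ 4 ≤ G.d x2 F := by omega
  rcases hcase with ⟨q1, q2⟩ | q1 | q1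
  · have := a1 q1
    have := b1 q2
    linarith
  · have := a2 q1
    linarith
  · have := b2 q1
    linarith

/-- `d = 3`, three lows -/
theorem c33 (s : S4_38 G F l) (hb : G.StLBas) (hB : G.StLB) (h7 : G.St7Bas)
    (nt : ∀ v ∈ G.N F, ¬ G.IsTw v) (hlt : ∑ w ∈ G.N F, G.gam5 F w < 20)
    (hd : G.d l F = 3) (h0 : (G.nb l ∩ G.LoT F).card = 3) : False := by
  have h1 := s.lt7 hb hB h7 hlt
  obtain ⟨g1, -, g3, -⟩ := s.sums_nn hb hB h7
  have hX : (G.Tz F l).card = 3 := by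
    have := s.degl hb
    omega
  have hDX : G.nb l ∩ G.LoT F = G.Tz F l := by
    apply eq_of_subset_of_card_le
    · intro w hw
      obtain ⟨h2, h3⟩ := mem_inter.1 hw
      exact mem_inter.2 ⟨h2, LoN h3⟩
    · omega
  have allow : ∀ a ∈ G.N F, l ∈ G.nb a → G.Low a := by
    intro a ha h
    have : a ∈ G.Tz F l := mem_inter.2 ⟨G.sym _ _ h, ha⟩
    rw [← hDX] at this
    exact LoL (mem_inter.1 this).2
  have nbr : ∀ x ∈ G.nb l ∩ G.LoT F, ∃ v ∈ G.LoT F, v ∈ G.nb x := by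
    intro x hx
    obtain ⟨xl, xL⟩ := mem_inter.1 hx
    rcases s.covl' nt (mem_union_right _ (LoN xL)) xl with c | c | c | c
    · obtain ⟨w, g4, -, g6⟩ := c
      exact ⟨w, g4, G.sym _ _ g6⟩
    · obtain ⟨a, g4, b, -, g5, -, g6⟩ := c
      exact absurd (allow a g4 g6) (HL_not_low76 g5)
    · obtain ⟨a, g4, b, -, g5, -⟩ := c
      exact absurd (allow a g4 (HL_t76 g5)) (HL_not_low76 g5)
    · obtain ⟨a, g4, b, g5, g6⟩ := c
      exact ⟨b, g5, G.sym _ _ (LL_u76 g6)⟩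
  obtain ⟨x1, x2, x3, h12, h13, h23, hD⟩ := card_eq_three.1 h0
  have m1 : x1 ∈ G.nb l ∩ G.LoT F := by rw [hD]; simp
  have m2 : x2 ∈ G.nb l ∩ G.LoT F := by rw [hD]; simp
  have m3 : x3 ∈ G.nb l ∩ G.LoT F := by rw [hD]; simp
  obtain ⟨v1, p1, q1⟩ := nbr x1 m1
  obtain ⟨v2, p2, q2⟩ := nbr x2 m2
  obtain ⟨v3, p3, q3⟩ := nbr x3 m3
  have e1 : v1 = x2 := by
    by_contra hno
    have := twoE38 (mem_inter.1 m1).2 p1 (mem_inter.1 m2).2 p2 q1 q2 (fun h => h12 h.1)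
      (fun h => hno h.2)
    linarith
  have e2 : v1 = x3 := by
    by_contra hno
    have := twoE38 (mem_inter.1 m1).2 p1 (mem_inter.1 m3).2 p3 q1 q3 (fun h => h13 h.1)
      (fun h => hno h.2)
    linarith
  exact h23 (e1 ▸ e2)

/-- `d = 3`, two lows which are not adjacent -/
theorem c32b (s : S4_38 G F l) (hb : G.StLBas) (hB : G.StLB) (h7 : G.St7Bas)
    (nt : ∀ v ∈ G.N F, ¬ G.IsTw v) (hlt : ∑ w ∈ G.N F, G.gam5 F w < 20)
    (hd : G.d l F = 3) {x1 x2 : V}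
    (h12 : x1 ≠ x2) (hD : G.nb l ∩ G.LoT F = {x1, x2}) (hna : x1 ∉ G.nb x2) : False := by
  have hX : (G.Tz F l).card = 3 := by
    have := s.degl hb
    omega
  have h1 := s.lt7 hb hB h7 hlt
  obtain ⟨g1, -, g3, -⟩ := s.sums_nn hb hB h7
  have hna' : x2 ∉ G.nb x1 := fun h => hna (G.sym _ _ h)
  -- one direction
  have key : ∀ y1 y2 : V, y1 ≠ y2 → G.nb l ∩ G.LoT F = {y1, y2} → y1 ∉ G.nb y2 →
      (∃ v ∈ G.LoT F, v ∈ G.nb y1) ∨ ∃ a ∈ G.Tz F l, G.HL a y2 y1 := by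
    intro y1 y2 hy hD' hn
    have m1 : y1 ∈ G.nb l ∩ G.LoT F := by rw [hD']; exact mem_insert_self _ _
    obtain ⟨y1l, y1L⟩ := mem_inter.1 m1
    have memD : ∀ w ∈ G.LoT F, l ∈ G.nb w → w = y1 ∨ w = y2 := by
      intro w hw h
      have : w ∈ G.nb l ∩ G.LoT F := mem_inter.2 ⟨G.sym _ _ h, hw⟩
      rw [hD', mem_insert, mem_singleton] at this
      exact this
    rcases s.covl' nt (mem_union_right _ (LoN y1L)) y1l with c | c | c | c
    · obtain ⟨w, g4, -, g6⟩ := c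
      exact Or.inl ⟨w, g4, G.sym _ _ g6⟩
    · obtain ⟨a, g4, b, g5, g6, g7, g8⟩ := c
      rcases memD b g5 g7 with h | h
      · exact absurd h.symm (HL_bt76 g6).2
      · subst h
        exact Or.inr ⟨a, mem_inter.2 ⟨G.sym _ _ g8, g4⟩, g6⟩
    · obtain ⟨a, -, b, g5, -, g6, -⟩ := c
      exact Or.inl ⟨b, g5, G.sym _ _ g6⟩
    · obtain ⟨a, -, b, g5, g6⟩ := c
      exact Or.inl ⟨b, g5, G.sym _ _ (LL_u76 g6)⟩
  have half : ∀ y1 y2 : V, y1 ∈ G.LoT F → y2 ∈ G.LoT F → y1 ≠ y2 → y2 ∉ G.nb y1 →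
      (∃ v ∈ G.LoT F, v ∈ G.nb y1) → ((∃ v ∈ G.LoT F, v ∈ G.nb y2) ∨ ∃ a ∈ G.Tz F l, G.HL a y1 y2) →
      False := by
    intro y1 y2 hy1 hy2 hy hn hv h
    obtain ⟨v, hv1, hv2⟩ := hv
    rcases h with ⟨v', hv1', hv2'⟩ | ⟨a, ha, hHL⟩
    · have := twoE38 hy1 hv1 hy2 hv1' hv2 hv2' (fun h => hy h.1) (fun h => hn (h.2 ▸ hv2))
      linarith
    · have hva : v ≠ a := fun h => HL_not_low76 hHL (h ▸ LoL hv1)
      have hva' : v ∈ G.nb a := HL_sub76 hHL hv2 hva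
      have h2 := ln3 hy1 hy2 hv1 (HL_b76 hHL) (HL_t76 hHL) hva' hy (ne_of_nb5 hv2)
        (fun h => hn (h ▸ hv2))
      have h3 := term1_38 (s.xnn hb hB h7)
        (mem_NoT38.2 ⟨(mem_inter.1 ha).2, HL_not_low76 hHL⟩)
      have h4 := (LL1_38 hy1 hv1 hv2).2.2
      linarith
  have hD' : G.nb l ∩ G.LoT F = {x2, x1} := by rw [hD, pair_comm]
  have m1 : x1 ∈ G.nb l ∩ G.LoT F := by rw [hD]; exact mem_insert_self _ _
  have m2 : x2 ∈ G.nb l ∩ G.LoT F := by rw [hD]; exact mem_insert_of_mem (mem_singleton_self _)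
  have k1 := key x1 x2 h12 hD hna
  have k2 := key x2 x1 h12.symm hD' hna'
  rcases k1 with k1 | ⟨a, ha, k1⟩
  · exact half x1 x2 (mem_inter.1 m1).2 (mem_inter.1 m2).2 h12 hna' k1 k2
  · rcases k2 with k2 | ⟨a', ha', k2⟩
    · exact half x2 x1 (mem_inter.1 m2).2 (mem_inter.1 m1).2 h12.symm hna k2 (Or.inr ⟨a, ha, k1⟩)
    · -- the hub is the same
      have hsub : ({x1, x2} : Finset V) ⊆ G.Tz F l := by
        rw [← hD]
        intro y hy
        obtain ⟨y1, y2⟩ := mem_inter.1 hy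
        exact mem_inter.2 ⟨y1, LoN y2⟩
      have hc1 : (G.Tz F l \ {x1, x2}).card = 1 := by
        rw [card_sdiff_of_subset hsub, card_pair h12]
        omega
      have hmem : ∀ a b t, a ∈ G.Tz F l → G.HL a b t → a ∈ G.Tz F l \ {x1, x2} := by
        intro a b t h h'
        refine mem_sdiff.2 ⟨h, ?_⟩
        rw [mem_insert, mem_singleton, not_or]
        exact ⟨fun h2 => HL_not_low76 h' (h2 ▸ LoL (mem_inter.1 m1).2),
          fun h2 => HL_not_low76 h' (h2 ▸ LoL (mem_inter.1 m2).2)⟩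
      obtain ⟨c, hc⟩ := card_eq_one.1 hc1
      have e1 := hmem a _ _ ha k1
      have e2 := hmem a' _ _ ha' k2
      rw [hc, mem_singleton] at e1 e2
      subst e1
      subst e2
      exact (stTwHL_5 G).nomut s.n9 _ _ _ _ _ k1 k2 rfl

/-- `d = 3`, two lows which are adjacent -/
theorem c32a (s : S4_38 G F l) (hb : G.StLBas) (hB : G.StLB) (h7 : G.St7Bas) (hc : G.StLCnt)
    (nt : ∀ v ∈ G.N F, ¬ G.IsTw v) (hlt : ∑ w ∈ G.N F, G.gam5 F w < 20)
    (hd : G.d l F = 3) {x1 x2 : V}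
    (h12 : x1 ≠ x2) (hD : G.nb l ∩ G.LoT F = {x1, x2}) (hna : x1 ∈ G.nb x2) : False := by
  have h1 := s.lt7 hb hB h7 hlt
  obtain ⟨g1, -, g3, -⟩ := s.sums_nn hb hB h7
  have m1 : x1 ∈ G.nb l ∩ G.LoT F := by rw [hD]; exact mem_insert_self _ _
  have m2 : x2 ∈ G.nb l ∩ G.LoT F := by rw [hD]; exact mem_insert_of_mem (mem_singleton_self _)
  obtain ⟨x1l, x1L⟩ := mem_inter.1 m1
  obtain ⟨x2l, x2L⟩ := mem_inter.1 m2
  have memD : ∀ w ∈ G.LoT F, w ∈ G.nb l → w = x1 ∨ w = x2 := by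
    intro w hw h
    have : w ∈ G.nb l ∩ G.LoT F := mem_inter.2 ⟨h, hw⟩
    rw [hD, mem_insert, mem_singleton] at this
    exact this
  have h6 := (LL1_38 x2L x1L hna).2.2
  -- other lows
  have oth : ∀ v ∈ G.LoT F, v ≠ x1 → v ≠ x2 → ∃ y ∈ G.NoT F, ∃ b ∈ G.LoT F, G.HL y b v := by
    intro v hv n1 n2
    have hvl : v ∉ G.nb l := by
      intro h
      rcases memD v hv h with h | h
      · exact n1 h
      · exact n2 h
    rcases s.vlow hb nt hv hvl with ⟨w, g2, g3⟩ | ⟨y, g2, b', g3, g4⟩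
    · exfalso
      have := twoE38 x2L x1L g2 hv hna g3 (fun h => n1 h.2.symm) (fun h => n2 h.1.symm)
      linarith
    · exact ⟨y, mem_NoT38.2 ⟨g2, HL_not_low76 g4⟩, b', g3, g4⟩
  -- incidences
  have hinc : 7 ≤ ∑ w ∈ G.LoT F, G.d w F := by
    rw [sum_dS38]
    have hlnot : l ∉ G.nb l ∩ F := fun h => G.irr _ (mem_inter.1 h).1
    have e1 : insert l (G.nb l ∩ F) ⊆ F := by
      intro x hx
      rcases mem_insert.1 hx with rfl | hx
      · exact s.lF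
      · exact (mem_inter.1 hx).2
    rw [← sum_sdiff e1, sum_insert hlnot, hD, card_pair h12]
    have e2 : 3 ≤ ∑ z ∈ G.nb l ∩ F, (G.nb z ∩ G.LoT F).card := by
      have := card_nsmul_le_sum (G.nb l ∩ F) (fun z => (G.nb z ∩ G.LoT F).card) 1 fun z hz => by
        obtain ⟨z1, z2⟩ := mem_inter.1 hz
        have hzl : z ≠ l := (ne_of_nb5 z1).symm
        rw [Nat.succ_le_iff, card_pos]
        rcases s.covl' nt (mem_union_left _ z2) z1 with c | c | c | c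
        · obtain ⟨w, g4, -, g6⟩ := c
          exact ⟨w, mem_inter.2 ⟨G.sym _ _ g6, g4⟩⟩
        · obtain ⟨a, -, b, -, g5, -⟩ := c
          exact absurd (s.h.1.sat _ _ _ g5) (s.hub z z2 hzl).1
        · obtain ⟨a, -, b, g5, -, g6, -⟩ := c
          exact ⟨b, mem_inter.2 ⟨G.sym _ _ g6, g5⟩⟩
        · obtain ⟨a, -, b, g5, g6⟩ := c
          exact ⟨b, mem_inter.2 ⟨G.sym _ _ (LL_u76 g6), g5⟩⟩
      have e : (G.nb l ∩ F).card = G.d l F := rfl
      rw [smul_eq_mul, mul_one, e, hd] at this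
      exact this
    have e3 : 2 ≤ ∑ z ∈ F \ insert l (G.nb l ∩ F), (G.nb z ∩ G.LoT F).card := by
      have e4 : 0 < (F \ insert l (G.nb l ∩ F)).card := by
        rw [card_sdiff_of_subset e1, card_insert_of_notMem hlnot, s.h.2]
        have e : (G.nb l ∩ F).card = G.d l F := rfl
        omega
      obtain ⟨z, hz⟩ := card_pos.1 e4
      obtain ⟨z1, z2⟩ := mem_sdiff.1 hz
      rw [mem_insert, not_or] at z2
      have z3 := (s.farh hb hB h7 hc nt z1 z2.1 fun h => z2.2 (mem_inter.2 ⟨h, z1⟩)).1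
      exact le_trans z3 (single_le_sum (f := fun z => (G.nb z ∩ G.LoT F).card)
        (fun _ _ => Nat.zero_le _) hz)
    omega
  by_cases hV : ∃ v ∈ G.LoT F, v ≠ x1 ∧ v ≠ x2
  · obtain ⟨v, hv, n1, n2⟩ := hV
    obtain ⟨y, hy, b, hb', hHL⟩ := oth v hv n1 n2
    have h3 := ln2 hb' hv (HL_b76 hHL) (HL_t76 hHL) (HL_bt76 hHL).2.symm
    have h4 := term1_38 (s.xnn hb hB h7) hy
    -- all lows have two neighbours in `F`
    have hd2 : ∀ w ∈ G.LoT F, G.d w F = 2 := by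
      intro w hw
      have t1 := s.t3 hb hB h7 hw
      by_contra hne
      have h5 := (s.exd hb hB h7 hw).1 (by omega)
      have h7' := term1_38 (g := fun w => ex G F w) (fun v hv => s.ex_nn hb hB h7 hv) hw
      linarith
    -- no other low
    have hLo : G.LoT F ⊆ {x1, x2, v} := by
      intro v' hv'
      by_contra hno
      simp only [mem_insert, mem_singleton, not_or] at hno
      obtain ⟨p1, p2, p3⟩ := hno
      obtain ⟨y', hy', b', hb'', hHL'⟩ := oth v' hv' p1 p2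
      by_cases hyy : y' = y
      · subst hyy
        have hbb := b_uniq_5 s.n9 hHL hHL'
        subst hbb
        have h5 := ln3 hb' hv hv' (HL_b76 hHL) (HL_t76 hHL) (HL_t76 hHL')
          (HL_bt76 hHL).2.symm (HL_bt76 hHL').2.symm (Ne.symm p3)
        linarith
      · have h5 := ln2 hb'' hv' (HL_b76 hHL') (HL_t76 hHL') (HL_bt76 hHL').2.symm
        have h6 := term2_38 (s.xnn hb hB h7) hy hy' (Ne.symm hyy)
        linarith
    have h5 : ∑ w ∈ G.LoT F, G.d w F = (G.LoT F).card * 2 := by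
      rw [sum_congr rfl hd2, sum_const, smul_eq_mul]
    have h8 := card_le_card hLo
    have h9 : ({x1, x2, v} : Finset V).card ≤ 3 := card_le_three
    omega
  · push Not at hV
    have hLo2 : G.LoT F = {x1, x2} := by
      ext v
      rw [mem_insert, mem_singleton]
      constructor
      · intro hv
        by_cases h : v = x1
        · exact Or.inl h
        · exact Or.inr (hV v hv h)
      · rintro (rfl | rfl) <;> assumption
    rw [hLo2, sum_pair h12] at hinc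
    have t1 := (s.t3 hb hB h7 x1L)
    have t2 := (s.t3 hb hB h7 x2L)
    obtain ⟨a1, a2, a3⟩ := s.exd hb hB h7 x1L
    obtain ⟨b1, b2, b3⟩ := s.exd hb hB h7 x2L
    have h5 := term2_38 (g := fun w => ex G F w) (fun v hv => s.ex_nn hb hB h7 hv) x1L x2L h12
    have n1 := s.ex_nn hb hB h7 x1L
    have n2 := s.ex_nn hb hB h7 x2L
    have hcase : (4 ≤ G.d x1 F) ∨ 4 ≤ G.d x2 F := by omega
    rcases hcase with q1 | q1
    · have := a2 q1
      linarith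
    · have := b2 q1
      linarith

theorem main (s : S4_38 G F l) (hb : G.StLBas) (hB : G.StLB) (h7 : G.St7Bas) (hc : G.StLCnt) :
    20 ≤ ∑ w ∈ G.N F, G.gam5 F w := by
  by_contra hlt
  push Not at hlt
  have nt : ∀ v ∈ G.N F, ¬ G.IsTw v := by
    rintro v hv ⟨w, hw⟩
    have := s.pairs hb hB h7 hv hw
    linarith
  have hd1 : 1 ≤ G.d l F := hb.inn F s.h.1 l s.lF
  have hd4 : G.d l F ≤ 4 := by
    have h1 : G.nb l ∩ F ⊆ F.erase l := by
      intro x hx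
      obtain ⟨h2, h3⟩ := mem_inter.1 hx
      exact mem_erase.2 ⟨(ne_of_nb5 h2).symm, h3⟩
    have h2 := card_le_card h1
    rw [card_erase_of_mem s.lF, s.h.2] at h2
    exact h2
  have htot := s.total hb hB h7 hc nt
  have hWl : 0 ≤ W G F l := sum_nonneg fun w _ => by positivity
  have hX := s.degl hb
  have hle : (G.nb l ∩ G.LoT F).card ≤ (G.Tz F l).card := by
    apply card_le_card
    intro w hw
    obtain ⟨h2, h3⟩ := mem_inter.1 hw
    exact mem_inter.2 ⟨h2, LoN h3⟩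
  have hd : G.d l F = 1 ∨ G.d l F = 2 ∨ G.d l F = 3 ∨ G.d l F = 4 := by omega
  rcases hd with hd | hd | hd | hd
  · rw [hd] at htot
    push_cast at htot
    linarith
  · have := s.two_l hb hB h7 nt hd
    rw [hd] at htot
    push_cast at htot
    linarith
  · have hn : (G.nb l ∩ G.LoT F).card = 0 ∨ (G.nb l ∩ G.LoT F).card = 1 ∨
        (G.nb l ∩ G.LoT F).card = 2 ∨ (G.nb l ∩ G.LoT F).card = 3 := by omega
    rcases hn with hn | hn | hn | hn
    · exact s.c0 hb hB h7 nt hlt hn (by omega)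
    · exact s.c1 hb hB h7 nt hlt hn
    · obtain ⟨x1, x2, h12, hD⟩ := card_eq_two.1 hn
      by_cases ha : x1 ∈ G.nb x2
      · exact s.c32a hb hB h7 hc nt hlt hd h12 hD ha
      · exact s.c32b hb hB h7 nt hlt hd h12 hD ha
    · exact s.c33 hb hB h7 nt hlt hd hn
  · have hn : (G.nb l ∩ G.LoT F).card = 0 ∨ (G.nb l ∩ G.LoT F).card = 1 ∨
        (G.nb l ∩ G.LoT F).card = 2 := by omega
    rcases hn with hn | hn | hn
    · exact s.c0 hb hB h7 nt hlt hn (by omega)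
    · exact s.c1 hb hB h7 nt hlt hn
    · exact s.c42 hb hB h7 nt hlt hd hn

end S4_38

/-- row J4 -/
theorem st7LHHHH_38 (G : CG V) (hb : G.StLBas) (hB : G.StLB) (h7 : G.St7Bas) (hc : G.StLCnt) :
    G.St7LHHHH := fun _ h _ lF low hub =>
  S4_38.main ⟨h, lF, low, hub⟩ hb hB h7 hc

end CG

end Pool.Agent.Lib.MP_e95c01_co.N
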