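import Pool.Agent.Lib.MP_e95c01_co.X.StmtsJ76
import Pool.Agent.Lib.MP_e95c01_co.T.F3_33
import Pool.Agent.Lib.MP_e95c01_co.T.F4_42
import Pool.Agent.Lib.MP_e95c01_co.T.F5_30

/-!
# `λ = 3`, leaves with five vertices: a low, two hubs and a pair of twins, the low is not adjacent
to the pair (J5a)
-/

set_option autoImplicit false

namespace Pool.Agent.Lib.MP_e95c01_co.N

open Finset

variable {V : Type} [Fintype V] [DecidableEq V]

namespace CG

namespace J5a96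

variable {G : CG V} {F : Finset V} {l h h' v w : V}

theorem mem_pT {F : Finset V} {x y : V} : x ∈ G.pT F y ↔ x ∈ G.nb y ∧ x ∈ G.N F := mem_inter

/-- the situation -/
structure Cx (G : CG V) (F : Finset V) (l h h' v w : V) : Prop where
  hL : G.L5 F
  hBas : G.StLBas
  hB : G.StLB
  h0 : G.St7Bas
  Fe : F = {l, h, h', v, w}
  ne : h ≠ h'
  ll : G.Low l
  hh : G.Hub h
  hh' : G.Hub h'
  tw : G.Tw v w
  lv : l ∉ G.nb v

namespace Cx

theorem symm (c : Cx G F l h h' v w) : Cx G F l h' h v w where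
  hL := c.hL
  hBas := c.hBas
  hB := c.hB
  h0 := c.h0
  Fe := by
    rw [c.Fe]
    ext x
    simp only [mem_insert, mem_singleton]
    tauto
  ne := c.ne.symm
  ll := c.ll
  hh := c.hh'
  hh' := c.hh
  tw := c.tw
  lv := c.lv

theorem all (c : Cx G F l h h' v w) {x : V} (hx : x ∈ F) :
    x = l ∨ x = h ∨ x = h' ∨ x = v ∨ x = w := by
  rw [c.Fe] at hx
  simpa using hx

theorem lF (c : Cx G F l h h' v w) : l ∈ F := by rw [c.Fe]; simp
theorem hF (c : Cx G F l h h' v w) : h ∈ F := by rw [c.Fe]; simp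
theorem hF' (c : Cx G F l h h' v w) : h' ∈ F := by rw [c.Fe]; simp
theorem vF (c : Cx G F l h h' v w) : v ∈ F := by rw [c.Fe]; simp
theorem wF (c : Cx G F l h h' v w) : w ∈ F := by rw [c.Fe]; simp

theorem n9 (c : Cx G F l h h' v w) : 9 ≤ Fintype.card V := by
  have := c.hL.1.n12
  omega

theorem T6 (c : Cx G F l h h' v w) : (G.N F).card = 6 := c.hL.1.big.1.2.1

theorem notF (_ : Cx G F l h h' v w) {x : V} (hx : x ∈ G.N F) : x ∉ F := (mem_N76.1 hx).1

theorem uniq (c : Cx G F l h h' v w) {x y y' : V} (h : G.Tw x y) (h' : G.Tw x y') : y = y' :=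
  (stTwHL_5 G).uniq c.n9 _ _ _ h h'

theorem lw (c : Cx G F l h h' v w) : l ∉ G.nb w := by
  intro h1
  have h2 : l ≠ v := by
    rintro rfl
    exact not_low33 ⟨_, c.tw⟩ c.ll
  exact c.lv (c.tw.sym33.nb33 h1 h2)

theorem vl (c : Cx G F l h h' v w) : v ∉ G.nb l := fun h => c.lv (G.sym _ _ h)
theorem wl (c : Cx G F l h h' v w) : w ∉ G.nb l := fun h => c.lw (G.sym _ _ h)

/-- a low vertex of `F` is `l` -/
theorem lowF (c : Cx G F l h h' v w) {x : V} (hx : x ∈ F) (hl : G.Low x) : x = l := by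
  rcases c.all hx with h1 | h1 | h1 | h1 | h1
  · exact h1
  · exact absurd (h1 ▸ hl) c.hh.1
  · exact absurd (h1 ▸ hl) c.hh'.1
  · exact absurd (h1 ▸ hl) (not_low33 ⟨_, c.tw⟩)
  · exact absurd (h1 ▸ hl) (not_low33 ⟨_, c.tw.sym33⟩)

/-- a twin vertex of `F` is `v` or `w` -/
theorem twF (c : Cx G F l h h' v w) {x : V} (hx : x ∈ F) (ht : G.IsTw x) : x = v ∨ x = w := by
  rcases c.all hx with h1 | h1 | h1 | h1 | h1
  · exact absurd c.ll (not_low33 (h1 ▸ ht))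
  · exact absurd (h1 ▸ ht) c.hh.2
  · exact absurd (h1 ▸ ht) c.hh'.2
  · exact Or.inl h1
  · exact Or.inr h1

/-- `v` and `w` have the same neighbours in `N F` -/
theorem vw (c : Cx G F l h h' v w) {x : V} (hx : x ∈ G.N F) : v ∈ G.nb x ↔ w ∈ G.nb x := by
  have h1 : x ≠ v := fun e => c.notF hx (e ▸ c.vF)
  have h2 : x ≠ w := fun e => c.notF hx (e ▸ c.wF)
  exact ⟨fun h => c.tw.adj33 h h2, fun h => c.tw.sym33.adj33 h h1⟩

/-- `l` misses at most two vertices -/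
theorem ml (c : Cx G F l h h' v w) : (G.N F \ G.nb l).card ≤ 2 := by
  have h1 : G.nb l ∩ F ⊆ {h, h'} := by
    intro x hx
    rw [mem_inter] at hx
    rcases c.all hx.2 with h1 | h1 | h1 | h1 | h1
    · rw [h1] at hx
      exact absurd hx.1 (G.irr l)
    · simp [h1]
    · simp [h1]
    · rw [h1] at hx
      exact absurd hx.1 c.vl
    · rw [h1] at hx
      exact absurd hx.1 c.wl
  have h2 := card_le_card h1
  have h3 : ({h, h'} : Finset V).card ≤ 2 := card_le_two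
  have h4 : (G.nb l).card ≤ (G.nb l ∩ F).card + (G.N F ∩ G.nb l).card := by
    have h5 : G.nb l ⊆ (G.nb l ∩ F) ∪ (G.N F ∩ G.nb l) := by
      intro x hx
      rcases nbF42 c.lF hx with h4 | h4
      · exact mem_union_left _ (mem_inter.2 ⟨hx, h4⟩)
      · exact mem_union_right _ (mem_inter.2 ⟨h4, hx⟩)
    exact (card_le_card h5).trans (card_union_le _ _)
  have h5 := card_sdiff_add_card_inter (G.N F) (G.nb l)
  have h6 := c.T6
  have h7 : (G.nb l).card = 6 := c.ll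
  omega

/-- `v` misses at most two vertices -/
theorem mv (c : Cx G F l h h' v w) : (G.N F \ G.nb v).card ≤ 2 := by
  have h1 : G.nb v ∩ F ⊆ {h, h', w} := by
    intro x hx
    rw [mem_inter] at hx
    rcases c.all hx.2 with h1 | h1 | h1 | h1 | h1
    · rw [h1] at hx
      exact absurd hx.1 c.lv
    · simp [h1]
    · simp [h1]
    · rw [h1] at hx
      exact absurd hx.1 (G.irr v)
    · simp [h1]
  have h2 := card_le_card h1
  have h3 : ({h, h', w} : Finset V).card ≤ 3 := card_le_three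
  have h4 : (G.nb v).card ≤ (G.nb v ∩ F).card + (G.N F ∩ G.nb v).card := by
    have h5 : G.nb v ⊆ (G.nb v ∩ F) ∪ (G.N F ∩ G.nb v) := by
      intro x hx
      rcases nbF42 c.vF hx with h4 | h4
      · exact mem_union_left _ (mem_inter.2 ⟨hx, h4⟩)
      · exact mem_union_right _ (mem_inter.2 ⟨h4, hx⟩)
    exact (card_le_card h5).trans (card_union_le _ _)
  have h5 := card_sdiff_add_card_inter (G.N F) (G.nb v)
  have h6 := c.T6
  have h7 : (G.nb v).card = 7 := c.tw.2.1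
  omega

/-! ### covers -/

/-- covers at `v` -/
theorem covv (c : Cx G F l h h' v w) {y : V} (hy : y ∈ G.nb v) :
    (∃ u ∈ G.N F, G.Low u ∧ v ∈ G.nb u ∧ y ∈ G.nb u) ∨
    (∃ a ∈ G.N F, ∃ b ∈ G.N F, G.Tw a b ∧ v ∈ G.nb a ∧ v ∈ G.nb b ∧ y ∈ G.nb a ∧ y ∈ G.nb b) ∨
    (∃ a ∈ G.N F, ∃ b ∈ G.N F, G.HL a b y ∧ v ∈ G.nb b ∧ v ∈ G.nb a) := by
  have hyF : y ∈ F ∪ G.N F := mem_union.2 (nbF42 c.vF hy)
  rcases c.hL.1.cov v c.vF y hyF hy with h1 | h1 | h1 | h1 | h1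
  · obtain ⟨u, hu, h1, h2, h3⟩ := h1
    rcases mem_union.1 hu with h4 | h4
    · rw [c.lowF h4 h1] at h2
      exact absurd h2 c.vl
    · exact Or.inl ⟨u, h4, h1, h2, h3⟩
  · obtain ⟨a, ha, b, hb, h1, h2, h3, h4, h5⟩ := h1
    have key : ∀ a b, a ∈ F ∪ G.N F → G.Tw a b → v ∈ G.nb a → v ∈ G.nb b → a ∈ G.N F := by
      intro a b ha h1 h2 h3
      rcases mem_union.1 ha with h4 | h4
      · exfalso
        rcases c.twF h4 ⟨_, h1⟩ with rfl | rfl
        · exact G.irr _ h2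
        · rw [← c.uniq c.tw.sym33 h1] at h3
          exact G.irr _ h3
      · exact h4
    exact Or.inr (Or.inl ⟨a, key a b ha h1 h2 h3, b, key b a hb h1.sym33 h3 h2, h1, h2, h3, h4,
      h5⟩)
  · obtain ⟨a, b, h1, h2, h3, h4 | h4⟩ := h1
    · rw [c.lowF h4.2 h1.2.1] at h2
      exact absurd h2 c.vl
    · exact Or.inr (Or.inr ⟨a, h4.1, b, h4.2, h1, h2, h3⟩)
  · obtain ⟨a, b, h1, -⟩ := h1
    exact absurd (c.hL.1.sat _ _ _ h1) (not_low33 ⟨_, c.tw⟩)
  · obtain ⟨a, b, h1, -⟩ := h1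
    exact absurd ⟨_, c.tw⟩ ((stTwHL_5 G).twLL _ _ _ _ h1).1

/-- covers at `l` -/
theorem covl (c : Cx G F l h h' v w) {y : V} (hy : y ∈ G.nb l) :
    (∃ u ∈ G.N F, G.Low u ∧ l ∈ G.nb u ∧ y ∈ G.nb u) ∨
    (∃ a ∈ G.N F, ∃ b ∈ G.N F, G.Tw a b ∧ l ∈ G.nb a ∧ l ∈ G.nb b ∧ y ∈ G.nb a ∧ y ∈ G.nb b) ∨
    (∃ a ∈ G.N F, ∃ b ∈ G.N F, G.HL a b y ∧ l ∈ G.nb b ∧ l ∈ G.nb a) ∨
    (∃ a ∈ G.N F, ∃ b ∈ G.N F, G.HL a b l ∧ y ∈ G.nb b ∧ y ∈ G.nb a) ∨
    (∃ a ∈ G.N F, ∃ b ∈ G.N F, G.LL a b l y) := by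
  have hyF : y ∈ F ∪ G.N F := mem_union.2 (nbF42 c.lF hy)
  rcases c.hL.1.cov l c.lF y hyF hy with h1 | h1 | h1 | h1 | h1
  · obtain ⟨u, hu, h1, h2, h3⟩ := h1
    rcases mem_union.1 hu with h4 | h4
    · rw [c.lowF h4 h1] at h2
      exact absurd h2 (G.irr l)
    · exact Or.inl ⟨u, h4, h1, h2, h3⟩
  · obtain ⟨a, ha, b, hb, h1, h2, h3, h4, h5⟩ := h1
    have key : ∀ a b, a ∈ F ∪ G.N F → G.Tw a b → l ∈ G.nb a → a ∈ G.N F := by
      intro a b ha h1 h2
      rcases mem_union.1 ha with h4 | h4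
      · exfalso
        rcases c.twF h4 ⟨_, h1⟩ with rfl | rfl
        · exact c.lv h2
        · exact c.lw h2
      · exact h4
    exact Or.inr (Or.inl ⟨a, key a b ha h1 h2, b, key b a hb h1.sym33 h3, h1, h2, h3, h4, h5⟩)
  · obtain ⟨a, b, h1, h2, h3, h4 | h4⟩ := h1
    · rw [c.lowF h4.2 h1.2.1] at h2
      exact absurd h2 (G.irr l)
    · exact Or.inr (Or.inr (Or.inl ⟨a, h4.1, b, h4.2, h1, h2, h3⟩))
  · obtain ⟨a, b, h1, h2, h3, h4 | h4⟩ := h1
    · have h5 := (HL_bt76 h1).2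
      exact absurd (c.lowF h4.2 h1.2.1).symm h5
    · exact Or.inr (Or.inr (Or.inr (Or.inl ⟨a, h4.1, b, h4.2, h1, h2, h3⟩)))
  · obtain ⟨a, b, h1, h4 | h4⟩ := h1
    · have h5 := LL_ab76 h1
      rw [c.lowF h4.1 h1.1, c.lowF h4.2 h1.2.1] at h5
      exact absurd h5 (G.irr l)
    · exact Or.inr (Or.inr (Or.inr (Or.inr ⟨a, h4.1, b, h4.2, h1⟩)))

/-- covers at `h` of a vertex that is adjacent neither to `l` nor to the pair -/
theorem covh (c : Cx G F l h h' v w) {y : V} (hy : y ∈ G.nb h) (hyN : y ∈ G.N F)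
    (hyl : y ∉ G.nb l) (hyv : v ∉ G.nb y) :
    (∃ u ∈ G.N F, G.Low u ∧ y ∈ G.nb u) ∨ (∃ a ∈ G.N F, G.IsTw a) ∨ G.Low y := by
  have hyF : y ∈ F ∪ G.N F := mem_union_right _ hyN
  rcases c.hL.1.cov h c.hF y hyF hy with h1 | h1 | h1 | h1 | h1
  · obtain ⟨u, hu, h1, h2, h3⟩ := h1
    rcases mem_union.1 hu with h4 | h4
    · rw [c.lowF h4 h1] at h3
      exact absurd h3 hyl
    · exact Or.inl ⟨u, h4, h1, h3⟩
  · obtain ⟨a, ha, b, hb, h1, h2, h3, h4, h5⟩ := h1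
    rcases mem_union.1 ha with h6 | h6
    · exfalso
      rcases c.twF h6 ⟨_, h1⟩ with rfl | rfl
      · exact hyv (G.sym _ _ h4)
      · exact hyv ((c.vw hyN).2 (G.sym _ _ h4))
    · exact Or.inr (Or.inl ⟨a, h6, ⟨_, h1⟩⟩)
  · obtain ⟨a, b, h1, -⟩ := h1
    exact Or.inr (Or.inr (c.hL.1.sat _ _ _ h1))
  · obtain ⟨a, b, h1, -⟩ := h1
    exact absurd (c.hL.1.sat _ _ _ h1) c.hh.1
  · obtain ⟨a, b, h1, h4 | h4⟩ := h1
    · have h5 := LL_ab76 h1
      rw [c.lowF h4.1 h1.1, c.lowF h4.2 h1.2.1] at h5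
      exact absurd h5 (G.irr l)
    · exact Or.inl ⟨b, h4.2, h1.2.1, LL_u76 h1⟩

/-! ### values -/

theorem f5 (c : Cx G F l h h' v w) (u : V) : G.d u F ≤ 5 := by
  have := d_le33 (G := G) u F
  have := c.hL.2
  omega

/-- a low vertex of `N F` -/
theorem lowd (c : Cx G F l h h' v w) {u : V} (hu : u ∈ G.N F) (hl : G.Low u) :
    G.d u F + (G.pT F u).card ≤ 5 := by
  have h1 := c.hBas.pos F c.hL.1 u hu
  have h2 := c.f5 u
  rcases (by omega : G.d u F = 2 ∨ G.d u F = 3 ∨ G.d u F = 4 ∨ 5 ≤ G.d u F) with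
    h6 | h6 | h6 | h6
  · have := (c.hB.low2 F c.hL.1 u hu hl h6).1
    omega
  · have := (c.hB.low3 F c.hL.1 u hu hl h6).1
    omega
  · have := (c.hB.low4 F c.hL.1 u hu hl h6).1
    omega
  · obtain ⟨h7, h8, -⟩ := c.hB.low5 F c.hL.1 u hu hl h6
    rw [h8, card_empty]
    omega

/-! ### no twins in `N F` -/

theorem noTw (c : Cx G F l h h' v w) {p : V} (hp : p ∈ G.N F) : ¬ G.IsTw p := by
  rintro ⟨p', ht⟩
  have TH := stTwHL_5 G
  have hp' : p' ∈ G.N F := (c.hBas.twT F c.hL.1 p p' ht).1 hp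
  obtain ⟨hd3, hd34⟩ := c.h0.tw3 F c.hL p hp ⟨_, ht⟩
  obtain ⟨-, -, -, hdt, -⟩ := c.hB.tw F c.hL.1 p hp ⟨_, ht⟩
  have hpp : p' ∈ G.pT F p := mem_pT.2 ⟨ht.1, hp'⟩
  have hnl : ¬ G.Low p := not_low33 ⟨_, ht⟩
  have hnl' : ¬ G.Low p' := not_low33 ⟨_, ht.sym33⟩
  -- not three neighbours
  have no3 : ∀ a b, a ∈ G.N F → b ∈ G.N F → a ∈ G.nb p → b ∈ G.nb p → a ≠ b → a ≠ p' → b ≠ p' →
      False := by
    intro a b ha hb h1 h2 h3 h4 h5
    have := three_le33 (a := a) (b := b) (c := p') (mem_pT.2 ⟨h1, ha⟩) (mem_pT.2 ⟨h2, hb⟩) hpp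
      h3 h4 h5
    omega
  have notw : ∀ a b, a ∈ G.N F → b ∈ G.N F → G.Tw a b → p ∈ G.nb a → p ∈ G.nb b → False := by
    intro a b ha hb h1 h2 h3
    refine no3 a b ha hb (G.sym _ _ h2) (G.sym _ _ h3) h1.ne33 ?_ ?_
    · rintro rfl
      rw [c.uniq h1 ht.sym33] at h3
      exact G.irr _ h3
    · rintro rfl
      rw [c.uniq h1.sym33 ht.sym33] at h2
      exact G.irr _ h2
  -- the low neighbour
  obtain ⟨u, hu, hul, hpu, hcase⟩ : ∃ u ∈ G.N F, G.Low u ∧ p ∈ G.nb u ∧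
      ((v ∈ G.nb p ∧ v ∈ G.nb u) ∨ (v ∉ G.nb p ∧ l ∈ G.nb p ∧ l ∈ G.nb u)) := by
    by_cases hv : v ∈ G.nb p
    · rcases c.covv (G.sym _ _ hv) with h1 | h1 | h1
      · obtain ⟨u, h1, h2, h3, h4⟩ := h1
        exact ⟨u, h1, h2, h4, Or.inl ⟨hv, h3⟩⟩
      · obtain ⟨a, ha, b, hb, h1, h2, h3, h4, h5⟩ := h1
        exact (notw a b ha hb h1 h4 h5).elim
      · obtain ⟨a, ha, b, hb, h1, -⟩ := h1
        exact absurd (c.hL.1.sat _ _ _ h1) hnl
    · have hw : w ∉ G.nb p := fun h1 => hv ((c.vw hp).2 h1)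
      have hlp : l ∈ G.nb p := by
        by_contra hlp
        have h1 : G.nb p ∩ F ⊆ {h, h'} := by
          intro x hx
          rw [mem_inter] at hx
          rcases c.all hx.2 with h1 | h1 | h1 | h1 | h1
          · rw [h1] at hx
            exact absurd hx.1 hlp
          · simp [h1]
          · simp [h1]
          · rw [h1] at hx
            exact absurd hx.1 hv
          · rw [h1] at hx
            exact absurd hx.1 hw
        have h2 := card_le_card h1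
        have h3 : ({h, h'} : Finset V).card ≤ 2 := card_le_two
        have h4 : G.d p F = (G.nb p ∩ F).card := rfl
        omega
      rcases c.covl (G.sym _ _ hlp) with h1 | h1 | h1 | h1 | h1
      · obtain ⟨u, h1, h2, h3, h4⟩ := h1
        exact ⟨u, h1, h2, h4, Or.inr ⟨hv, hlp, h3⟩⟩
      · obtain ⟨a, ha, b, hb, h1, h2, h3, h4, h5⟩ := h1
        exact (notw a b ha hb h1 h4 h5).elim
      · obtain ⟨a, ha, b, hb, h1, -⟩ := h1
        exact absurd (c.hL.1.sat _ _ _ h1) hnl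
      · obtain ⟨a, ha, b, hb, h1, h2, h3⟩ := h1
        refine (no3 a b ha hb (G.sym _ _ h3) (G.sym _ _ h2) (ne_of_nb5 (HL_b76 h1)) ?_ ?_).elim
        · rintro rfl
          exact TH.notHL c.n9 _ _ _ h1 ⟨_, ht.sym33⟩
        · rintro rfl
          exact hnl' h1.2.1
      · obtain ⟨a, ha, b, hb, h1⟩ := h1
        exact absurd ⟨_, ht⟩ (TH.twLL _ _ _ _ h1).2
  have hup' : u ≠ p' := by
    rintro rfl
    exact hnl' hul
  have hpu' : p' ∈ G.nb u := ht.adj33 hpu hup'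
  have hup : u ≠ p := ne_of_nb5 hpu
  have hdu := c.lowd hu hul
  have hpTu : p ∈ G.pT F u := mem_pT.2 ⟨hpu, hp⟩
  have hpTu' : p' ∈ G.pT F u := mem_pT.2 ⟨hpu', hp'⟩
  have h2u : 2 ≤ (G.pT F u).card := two_le5 hpTu hpTu' ht.ne33
  have hupT : u ∈ G.pT F p := mem_pT.2 ⟨G.sym _ _ hpu, hu⟩
  have hd3' : G.d p F = 3 := by
    have := two_le5 hupT hpp hup'
    omega
  -- `u` is adjacent to the pair
  have hvu : v ∈ G.nb u := by
    rcases hcase with h1 | ⟨h1, -, -⟩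
    · exact h1.2
    · by_contra h2
      have h3 : v ∉ G.nb p' := fun h4 => h1 (ht.sym33.nb33 h4
        (fun e => c.notF hp (e ▸ c.vF)))
      have h4 : 3 ≤ (G.N F \ G.nb v).card := by
        refine three_le33 (a := p) (b := p') (c := u) ?_ ?_ ?_ ht.ne33 hup.symm hup'.symm
        · exact mem_sdiff.2 ⟨hp, fun e => h1 (G.sym _ _ e)⟩
        · exact mem_sdiff.2 ⟨hp', fun e => h3 (G.sym _ _ e)⟩
        · exact mem_sdiff.2 ⟨hu, fun e => h2 (G.sym _ _ e)⟩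
      have := c.mv
      omega
  -- `u` is adjacent to `l`
  have hlu : l ∈ G.nb u := by
    rcases hcase with ⟨h1, -⟩ | ⟨-, -, h1⟩
    swap
    · exact h1
    by_cases hlp : l ∈ G.nb p
    · rcases c.covl (G.sym _ _ hlp) with h1 | h1 | h1 | h1 | h1
      · obtain ⟨x, h1, h2, h3, h4⟩ := h1
        by_cases hxu : x = u
        · rw [← hxu]
          exact h3
        · refine (no3 x u h1 hu (G.sym _ _ h4) (G.sym _ _ hpu) hxu ?_ hup').elim
          rintro rfl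
          exact hnl' h2
      · obtain ⟨a, ha, b, hb, h1, h2, h3, h4, h5⟩ := h1
        exact (notw a b ha hb h1 h4 h5).elim
      · obtain ⟨a, ha, b, hb, h1, -⟩ := h1
        exact absurd (c.hL.1.sat _ _ _ h1) hnl
      · obtain ⟨a, ha, b, hb, h1, h2, h3⟩ := h1
        refine (no3 a b ha hb (G.sym _ _ h3) (G.sym _ _ h2) (ne_of_nb5 (HL_b76 h1)) ?_ ?_).elim
        · rintro rfl
          exact TH.notHL c.n9 _ _ _ h1 ⟨_, ht.sym33⟩
        · rintro rfl
          exact hnl' h1.2.1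
      · obtain ⟨a, ha, b, hb, h1⟩ := h1
        exact absurd ⟨_, ht⟩ (TH.twLL _ _ _ _ h1).2
    · by_contra h2
      have h3 : l ∉ G.nb p' := fun h4 => hlp (ht.sym33.nb33 h4
        (fun e => c.notF hp (e ▸ c.lF)))
      have h4 : 3 ≤ (G.N F \ G.nb l).card := by
        refine three_le33 (a := p) (b := p') (c := u) ?_ ?_ ?_ ht.ne33 hup.symm hup'.symm
        · exact mem_sdiff.2 ⟨hp, fun e => hlp (G.sym _ _ e)⟩
        · exact mem_sdiff.2 ⟨hp', fun e => h3 (G.sym _ _ e)⟩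
        · exact mem_sdiff.2 ⟨hu, fun e => h2 (G.sym _ _ e)⟩
      have := c.ml
      omega
  have hwu : w ∈ G.nb u := (c.vw hu).1 hvu
  have hlv : l ≠ v := by
    rintro rfl
    exact not_low33 ⟨_, c.tw⟩ c.ll
  have hlw : l ≠ w := by
    rintro rfl
    exact not_low33 ⟨_, c.tw.sym33⟩ c.ll
  have h3u : 3 ≤ G.d u F := by
    have := three_le33 (S := G.nb u ∩ F) (a := l) (b := v) (c := w) (mem_inter.2 ⟨hlu, c.lF⟩)
      (mem_inter.2 ⟨hvu, c.vF⟩) (mem_inter.2 ⟨hwu, c.wF⟩) hlv hlw c.tw.ne33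
    exact this
  have hud : G.d u F = 3 ∧ (G.pT F u).card = 2 := by omega
  have huT : G.pT F u = {p, p'} := by
    symm
    apply eq_of_subset_of_card_le
    · intro x hx
      rw [mem_insert, mem_singleton] at hx
      rcases hx with rfl | rfl
      · exact hpTu
      · exact hpTu'
    · rw [card_pair ht.ne33]
      omega
  have nbu : ∀ x, x ∈ G.N F → x ∈ G.nb u → x = p ∨ x = p' := by
    intro x h1 h2
    have h3 : x ∈ G.pT F u := mem_pT.2 ⟨h2, h1⟩
    rw [huT] at h3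
    simpa using h3
  have nolow : ∀ x, x ∈ G.N F → x ∈ G.nb u → ¬ G.Low x := by
    intro x h1 h2
    rcases nbu x h1 h2 with rfl | rfl
    · exact hnl
    · exact hnl'
  have nohl : ∀ a b t, a ∈ G.N F → a ∈ G.nb u → ¬ G.HL a b t := by
    intro a b t h1 h2 h3
    rcases nbu a h1 h2 with rfl | rfl
    · exact TH.notHL c.n9 _ _ _ h3 ⟨_, ht⟩
    · exact TH.notHL c.n9 _ _ _ h3 ⟨_, ht.sym33⟩
  by_cases hv : v ∈ G.nb p
  · by_cases hlp : l ∈ G.nb p
    · -- `P` and `u` have the same neighbours in `F`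
      have huF : G.nb u ∩ F = {l, v, w} := by
        symm
        apply eq_of_subset_of_card_le
        · intro x hx
          simp only [mem_insert, mem_singleton] at hx
          rcases hx with rfl | rfl | rfl
          · exact mem_inter.2 ⟨hlu, c.lF⟩
          · exact mem_inter.2 ⟨hvu, c.vF⟩
          · exact mem_inter.2 ⟨hwu, c.wF⟩
        · rw [Finset.card_eq_three.2 ⟨l, v, w, hlv, hlw, c.tw.ne33, rfl⟩]
          exact hud.1.le
      have hpF : G.nb p ∩ F = {l, v, w} := by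
        symm
        apply eq_of_subset_of_card_le
        · intro x hx
          simp only [mem_insert, mem_singleton] at hx
          rcases hx with rfl | rfl | rfl
          · exact mem_inter.2 ⟨hlp, c.lF⟩
          · exact mem_inter.2 ⟨hv, c.vF⟩
          · exact mem_inter.2 ⟨(c.vw hp).1 hv, c.wF⟩
        · rw [Finset.card_eq_three.2 ⟨l, v, w, hlv, hlw, c.tw.ne33, rfl⟩]
          exact hd3'.le
      have key : ∀ x ∈ F, (∃ z ∈ ({p, p', u} : Finset V), x ∈ G.nb z) → x = l ∨ x = v ∨ x = w := by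
        rintro x hx ⟨z, hz, hxz⟩
        simp only [mem_insert, mem_singleton] at hz
        have h1 : x ∈ G.nb p ∩ F ∨ x ∈ G.nb u ∩ F := by
          rcases hz with rfl | rfl | rfl
          · exact Or.inl (mem_inter.2 ⟨hxz, hx⟩)
          · exact Or.inl (mem_inter.2 ⟨ht.sym33.nb33 hxz (fun e => c.notF hp (e ▸ hx)), hx⟩)
          · exact Or.inr (mem_inter.2 ⟨hxz, hx⟩)
        rcases h1 with h1 | h1
        · rw [hpF] at h1
          simpa using h1
        · rw [huF] at h1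
          simpa using h1
      have hNZ : G.N {p, p', u} ∩ F = {l, v, w} := by
        ext x
        rw [mem_inter, mem_N76]
        constructor
        · rintro ⟨⟨-, h1⟩, hx⟩
          simpa using key x hx h1
        · intro hx
          have h1 : x ∈ G.nb u ∩ F := by rw [huF]; exact hx
          have h2 := mem_inter.1 h1
          refine ⟨⟨?_, u, by simp, h2.1⟩, h2.2⟩
          intro h3
          simp only [mem_insert, mem_singleton] at h3
          rcases h3 with rfl | rfl | rfl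
          · exact c.notF hp h2.2
          · exact c.notF hp' h2.2
          · exact c.notF hu h2.2
      obtain ⟨x, y, hxy, hFZ, hno, -⟩ := c.h0.three F c.hL {p, p', u} (by
        intro x hx
        simp only [mem_insert, mem_singleton] at hx
        rcases hx with rfl | rfl | rfl
        · exact hp
        · exact hp'
        · exact hu) (Finset.card_eq_three.2 ⟨p, p', u, ht.ne33, hup.symm, hup'.symm, rfl⟩)
        (by rw [hNZ]; exact Finset.card_eq_three.2 ⟨l, v, w, hlv, hlw, c.tw.ne33, rfl⟩)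
      have hm : ∀ z ∈ F, z ≠ l → z ≠ v → z ≠ w → z = x ∨ z = y := by
        intro z hz h1 h2 h3
        have h4 : z ∈ G.FZ F {p, p', u} := by
          rw [FZ, mem_sdiff]
          refine ⟨hz, fun h5 => ?_⟩
          have h6 : z ∈ G.N {p, p', u} ∩ F := mem_inter.2 ⟨h5, hz⟩
          rw [hNZ] at h6
          simp only [mem_insert, mem_singleton] at h6
          tauto
        rw [hFZ] at h4
        simpa using h4
      have e1 := hm h c.hF (fun e => c.hh.1 (e ▸ c.ll)) (fun e => c.hh.2 (e ▸ ⟨_, c.tw⟩))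
        (fun e => c.hh.2 (e ▸ ⟨_, c.tw.sym33⟩))
      have e2 := hm h' c.hF' (fun e => c.hh'.1 (e ▸ c.ll)) (fun e => c.hh'.2 (e ▸ ⟨_, c.tw⟩))
        (fun e => c.hh'.2 (e ▸ ⟨_, c.tw.sym33⟩))
      apply hno
      rcases e1 with e1 | e1 <;> rcases e2 with e2 | e2
      · exact absurd (e1.trans e2.symm) c.ne
      · exact ⟨e1 ▸ c.hh, e2 ▸ c.hh'⟩
      · exact ⟨e2 ▸ c.hh', e1 ▸ c.hh⟩
      · exact absurd (e1.trans e2.symm) c.ne
    · -- the edge `l u`
      rcases c.covl (G.sym _ _ hlu) with h1 | h1 | h1 | h1 | h1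
      · obtain ⟨x, h1, h2, h3, h4⟩ := h1
        exact nolow x h1 (G.sym _ _ h4) h2
      · obtain ⟨a, ha, b, hb, h1, h2, h3, h4, h5⟩ := h1
        rcases nbu a ha (G.sym _ _ h4) with rfl | rfl
        · exact hlp h2
        · exact hlp (ht.sym33.nb33 h2 (fun e => c.notF hp (e ▸ c.lF)))
      · obtain ⟨a, ha, b, hb, h1, -⟩ := h1
        exact nohl a b u ha (G.sym _ _ (HL_t76 h1)) h1
      · obtain ⟨a, ha, b, hb, h1, h2, h3⟩ := h1
        exact nolow b hb (G.sym _ _ h2) h1.2.1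
      · obtain ⟨a, ha, b, hb, h1⟩ := h1
        exact nolow b hb (G.sym _ _ (LL_u76 h1)) h1.2.1
  · -- the edge `v u`
    rcases c.covv (G.sym _ _ hvu) with h1 | h1 | h1
    · obtain ⟨x, h1, h2, h3, h4⟩ := h1
      exact nolow x h1 (G.sym _ _ h4) h2
    · obtain ⟨a, ha, b, hb, h1, h2, h3, h4, h5⟩ := h1
      rcases nbu a ha (G.sym _ _ h4) with rfl | rfl
      · exact hv h2
      · exact hv (ht.sym33.nb33 h2 (fun e => c.notF hp (e ▸ c.vF)))
    · obtain ⟨a, ha, b, hb, h1, -⟩ := h1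
      exact nohl a b u ha (G.sym _ _ (HL_t76 h1)) h1

/-! ### the lows of `N F` -/

/-- covers at `v`, no twins -/
theorem cv (c : Cx G F l h h' v w) {y : V} (hy : y ∈ G.nb v) :
    (∃ u ∈ G.N F, G.Low u ∧ v ∈ G.nb u ∧ y ∈ G.nb u) ∨
    (∃ a ∈ G.N F, ∃ b ∈ G.N F, G.HL a b y ∧ v ∈ G.nb b ∧ v ∈ G.nb a) := by
  rcases c.covv hy with h1 | h1 | h1
  · exact Or.inl h1
  · obtain ⟨a, ha, b, hb, h1, -⟩ := h1
    exact absurd ⟨_, h1⟩ (c.noTw ha)
  · exact Or.inr h1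

/-- every vertex of `N F` that is not low has a low neighbour in `N F` -/
theorem lown (c : Cx G F l h h' v w) {y : V} (hy : y ∈ G.N F) (hyl : ¬ G.Low y) :
    ∃ u ∈ G.N F, G.Low u ∧ y ∈ G.nb u := by
  by_cases hv : v ∈ G.nb y
  · rcases c.cv (G.sym _ _ hv) with h1 | h1
    · obtain ⟨u, h1, h2, -, h4⟩ := h1
      exact ⟨u, h1, h2, h4⟩
    · obtain ⟨a, ha, b, hb, h1, -⟩ := h1
      exact absurd (c.hL.1.sat _ _ _ h1) hyl
  by_cases hl : l ∈ G.nb y
  · rcases c.covl (G.sym _ _ hl) with h1 | h1 | h1 | h1 | h1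
    · obtain ⟨u, h1, h2, -, h4⟩ := h1
      exact ⟨u, h1, h2, h4⟩
    · obtain ⟨a, ha, b, hb, h1, -⟩ := h1
      exact absurd ⟨_, h1⟩ (c.noTw ha)
    · obtain ⟨a, ha, b, hb, h1, -⟩ := h1
      exact absurd (c.hL.1.sat _ _ _ h1) hyl
    · obtain ⟨a, ha, b, hb, h1, h2, h3⟩ := h1
      exact ⟨b, hb, h1.2.1, h2⟩
    · obtain ⟨a, ha, b, hb, h1⟩ := h1
      exact ⟨b, hb, h1.2.1, LL_u76 h1⟩
  · have hw : w ∉ G.nb y := fun h1 => hv ((c.vw hy).2 h1)
    have hh : h ∈ G.nb y := by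
      by_contra hh
      have h1 : G.nb y ∩ F ⊆ {h'} := by
        intro x hx
        rw [mem_inter] at hx
        rcases c.all hx.2 with h1 | h1 | h1 | h1 | h1
        · rw [h1] at hx
          exact absurd hx.1 hl
        · rw [h1] at hx
          exact absurd hx.1 hh
        · simp [h1]
        · rw [h1] at hx
          exact absurd hx.1 hv
        · rw [h1] at hx
          exact absurd hx.1 hw
      have h2 := card_le_card h1
      rw [card_singleton] at h2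
      have h3 := c.hBas.pos F c.hL.1 y hy
      have h4 : G.d y F = (G.nb y ∩ F).card := rfl
      omega
    rcases c.covh (G.sym _ _ hh) hy (fun e => hl (G.sym _ _ e)) hv with h1 | h1 | h1
    · exact h1
    · obtain ⟨a, ha, h1⟩ := h1
      exact absurd h1 (c.noTw ha)
    · exact absurd h1 hyl

theorem noPair (c : Cx G F l h h' v w) (u : V) : ¬ G.PairSet (G.pT F u) := by
  rintro ⟨a, b, h1, h2⟩
  have h3 : a ∈ G.pT F u := by rw [h2]; simp
  exact c.noTw (mem_pT.1 h3).2 ⟨_, h1⟩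

/-- the lows of `N F` -/
noncomputable def lo (G : CG V) (F : Finset V) : Finset V := (G.N F).filter fun u => G.Low u

theorem mem_lo {u : V} : u ∈ lo G F ↔ u ∈ G.N F ∧ G.Low u := mem_filter

/-- number of low neighbours in `N F` -/
noncomputable def Lw (G : CG V) (F : Finset V) (u : V) : ℕ := (lo G F ∩ G.nb u).card

/-- value of a low vertex -/
theorem val2 (c : Cx G F l h h' v w) {u : V} (hu : u ∈ G.N F) (hl : G.Low u) :
    2 + 2 * ((G.pT F u).card : ℤ) ≤ G.gam5 F u + 2 * (Lw G F u : ℤ) := by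
  have h1 := c.hBas.pos F c.hL.1 u hu
  have h2 := c.f5 u
  have h0 : (0 : ℤ) ≤ (Lw G F u : ℤ) := Int.natCast_nonneg _
  rcases (by omega : G.d u F = 2 ∨ G.d u F = 3 ∨ G.d u F = 4 ∨ 5 ≤ G.d u F) with
    h6 | h6 | h6 | h6
  · obtain ⟨-, h7, -⟩ := c.hB.low2 F c.hL.1 u hu hl h6
    rcases h7 with h7 | h7
    · linarith
    · exact absurd h7.2.1 (c.noPair u)
  · obtain ⟨h7, h8, -⟩ := c.hB.low3 F c.hL.1 u hu hl h6
    have h9 : ((G.pT F u).card : ℤ) ≤ 2 := by exact_mod_cast h7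
    linarith
  · obtain ⟨h7, h8, -⟩ := c.hB.low4 F c.hL.1 u hu hl h6
    have h9 : ((G.pT F u).card : ℤ) ≤ 1 := by exact_mod_cast h7
    linarith
  · obtain ⟨-, h8, h9⟩ := c.hB.low5 F c.hL.1 u hu hl h6
    rw [h8, card_empty]
    push_cast
    linarith

/-- value of a low vertex with at least three neighbours in `F` -/
theorem val3 (c : Cx G F l h h' v w) {u : V} (hu : u ∈ G.N F) (hl : G.Low u)
    (h3 : 3 ≤ G.d u F) :
    6 + 2 * ((G.pT F u).card : ℤ) ≤ G.gam5 F u + 2 * (Lw G F u : ℤ) ∧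
    (6 + 2 * ((G.pT F u).card : ℤ) ≤ G.gam5 F u ∨
      ∃ v' q q', G.Low v' ∧ G.pT F u = {v'} ∧ G.Tw q q' ∧ G.pO F u = {q, q'} ∧ q ∈ G.nb v') := by
  have h2 := c.f5 u
  have h0 : (0 : ℤ) ≤ (Lw G F u : ℤ) := Int.natCast_nonneg _
  rcases (by omega : G.d u F = 3 ∨ G.d u F = 4 ∨ 5 ≤ G.d u F) with h6 | h6 | h6
  · obtain ⟨h7, h8, h9, -⟩ := c.hB.low3 F c.hL.1 u hu hl h6
    rcases h9 with h9 | ⟨v', q, q', k1, k2, k3, k4, k5, -⟩
    · exact ⟨by linarith, Or.inl h9⟩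
    · refine ⟨?_, Or.inr ⟨v', q, q', k1, k2, k3, k4, k5⟩⟩
      have k6 : v' ∈ G.pT F u := by rw [k2]; simp
      have k7 : 1 ≤ Lw G F u := by
        rw [Lw, Nat.succ_le_iff, Finset.card_pos]
        exact ⟨v', mem_inter.2 ⟨mem_lo.2 ⟨(mem_pT.1 k6).2, k1⟩, (mem_pT.1 k6).1⟩⟩
      have k8 : (1 : ℤ) ≤ (Lw G F u : ℤ) := by exact_mod_cast k7
      rw [k2, card_singleton]
      push_cast
      linarith
  · obtain ⟨h7, h8, -⟩ := c.hB.low4 F c.hL.1 u hu hl h6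
    have h9 : ((G.pT F u).card : ℤ) ≤ 1 := by exact_mod_cast h7
    exact ⟨by linarith, Or.inl (by linarith)⟩
  · obtain ⟨-, h8, h9⟩ := c.hB.low5 F c.hL.1 u hu hl h6
    rw [h8, card_empty]
    push_cast
    exact ⟨by linarith, Or.inl (by linarith)⟩

/-- the sum -/
theorem sumge (c : Cx G F l h h' v w) :
    12 + ∑ u ∈ lo G F, (G.gam5 F u + 2 * (Lw G F u : ℤ) - 2 - 2 * ((G.pT F u).card : ℤ)) ≤
      ∑ u ∈ G.N F, G.gam5 F u := by
  -- the sum over the lows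
  have h1 : ∑ u ∈ lo G F, G.gam5 F u ≤ ∑ u ∈ G.N F, G.gam5 F u :=
    sum_le_sum_of_subset_of_nonneg (filter_subset _ _) fun x hx _ => c.h0.nn F c.hL x hx
  -- double counting
  have h2 : ∑ u ∈ lo G F, (G.pT F u).card = ∑ y ∈ G.N F, Lw G F y := by
    have e1 : ∀ u ∈ lo G F, (G.pT F u).card = ∑ y ∈ G.N F, if y ∈ G.nb u then 1 else 0 := by
      intro u _
      rw [← card_filter]
      congr 1
      ext x
      rw [mem_pT, mem_filter]
      exact and_comm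
    have e2 : ∀ y ∈ G.N F, Lw G F y = ∑ u ∈ lo G F, if y ∈ G.nb u then 1 else 0 := by
      intro y _
      rw [← card_filter, Lw]
      congr 1
      ext x
      rw [mem_inter, mem_filter]
      exact ⟨fun k => ⟨k.1, G.sym _ _ k.2⟩, fun k => ⟨k.1, G.sym _ _ k.2⟩⟩
    rw [sum_congr rfl e1, sum_congr rfl e2, sum_comm]
  have h3 : ∑ y ∈ G.N F, Lw G F y =
      ∑ y ∈ lo G F, Lw G F y + ∑ y ∈ (G.N F).filter (fun u => ¬ G.Low u), Lw G F y :=
    (sum_filter_add_sum_filter_not _ _ _).symm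
  have h4 : ((G.N F).filter fun u => ¬ G.Low u).card ≤
      ∑ y ∈ (G.N F).filter (fun u => ¬ G.Low u), Lw G F y := by
    rw [card_eq_sum_ones]
    apply sum_le_sum
    intro y hy
    obtain ⟨hy1, hy2⟩ := mem_filter.1 hy
    obtain ⟨u, hu, hul, hyu⟩ := c.lown hy1 hy2
    rw [Lw, Nat.succ_le_iff, Finset.card_pos]
    exact ⟨u, mem_inter.2 ⟨mem_lo.2 ⟨hu, hul⟩, G.sym _ _ hyu⟩⟩
  have h5 : (lo G F).card + ((G.N F).filter fun u => ¬ G.Low u).card = 6 := by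
    have g1 : (lo G F).card + ((G.N F).filter fun u => ¬ G.Low u).card = (G.N F).card :=
      card_filter_add_card_filter_not _
    exact g1.trans c.T6
  have h6 : 6 + ∑ y ∈ lo G F, Lw G F y ≤ (lo G F).card + ∑ u ∈ lo G F, (G.pT F u).card := by
    omega
  have h7 : (6 : ℤ) + ∑ y ∈ lo G F, (Lw G F y : ℤ) ≤
      (lo G F).card + ∑ u ∈ lo G F, ((G.pT F u).card : ℤ) := by exact_mod_cast h6
  have h8 : ∑ u ∈ lo G F, (G.gam5 F u + 2 * (Lw G F u : ℤ) - 2 - 2 * ((G.pT F u).card : ℤ)) =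
      ∑ u ∈ lo G F, G.gam5 F u + 2 * ∑ u ∈ lo G F, (Lw G F u : ℤ) - 2 * (lo G F).card -
        2 * ∑ u ∈ lo G F, ((G.pT F u).card : ℤ) := by
    rw [sum_sub_distrib, sum_sub_distrib, sum_add_distrib, ← mul_sum, ← mul_sum, sum_const,
      nsmul_eq_mul]
    ring
  rw [h8]
  linarith

/-- two lows with enough excess -/
theorem two (c : Cx G F l h h' v w) {a b : V} (ha : a ∈ G.N F) (hb : b ∈ G.N F)
    (hal : G.Low a) (hbl : G.Low b) (hab : a ≠ b)
    (hs : 8 ≤ (G.gam5 F a + 2 * (Lw G F a : ℤ) - 2 - 2 * ((G.pT F a).card : ℤ)) +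
      (G.gam5 F b + 2 * (Lw G F b : ℤ) - 2 - 2 * ((G.pT F b).card : ℤ))) :
    20 ≤ ∑ u ∈ G.N F, G.gam5 F u := by
  have h1 := c.sumge
  have h2 : ∑ u ∈ ({a, b} : Finset V),
      (G.gam5 F u + 2 * (Lw G F u : ℤ) - 2 - 2 * ((G.pT F u).card : ℤ)) ≤
      ∑ u ∈ lo G F, (G.gam5 F u + 2 * (Lw G F u : ℤ) - 2 - 2 * ((G.pT F u).card : ℤ)) := by
    apply sum_le_sum_of_subset_of_nonneg
    · intro x hx
      rw [mem_insert, mem_singleton] at hx
      rcases hx with rfl | rfl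
      · exact mem_lo.2 ⟨ha, hal⟩
      · exact mem_lo.2 ⟨hb, hbl⟩
    · intro x hx _
      obtain ⟨h3, h4⟩ := mem_lo.1 hx
      have := c.val2 h3 h4
      linarith
  rw [sum_pair hab] at h2
  linarith

/-- at most one vertex with only the pair as neighbours in `F` -/
theorem only (c : Cx G F l h h' v w) {x y : V} (hx : x ∈ G.N F) (hy : y ∈ G.N F) (hne : x ≠ y)
    (h1 : G.nb x ∩ F ⊆ {v, w}) (h2 : G.nb y ∩ F ⊆ {v, w}) : False := by
  have h3 := c.h0.two F c.hL x hx y hy hne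
  have h4 : (G.nb x ∪ G.nb y) ∩ F ⊆ {v, w} := by
    intro z hz
    rw [mem_inter, mem_union] at hz
    rcases hz.1 with h5 | h5
    · exact h1 (mem_inter.2 ⟨h5, hz.2⟩)
    · exact h2 (mem_inter.2 ⟨h5, hz.2⟩)
  have h5 := card_le_card h4
  have h6 : ({v, w} : Finset V).card ≤ 2 := card_le_two
  omega

theorem f2 (c : Cx G F l h h' v w) {x : V} (hx : x ∈ G.N F) (hv : v ∈ G.nb x)
    (h2 : ¬ 3 ≤ G.d x F) : G.nb x ∩ F ⊆ {v, w} := by
  have hw := (c.vw hx).1 hv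
  have h3 : ({v, w} : Finset V) = G.nb x ∩ F := by
    apply eq_of_subset_of_card_le
    · intro z hz
      rw [mem_insert, mem_singleton] at hz
      rcases hz with rfl | rfl
      · exact mem_inter.2 ⟨hv, c.vF⟩
      · exact mem_inter.2 ⟨hw, c.wF⟩
    · rw [card_pair c.tw.ne33]
      have h4 : G.d x F = (G.nb x ∩ F).card := rfl
      omega
  rw [h3]

theorem main (c : Cx G F l h h' v w) : 20 ≤ ∑ u ∈ G.N F, G.gam5 F u := by
  have hmv := c.mv
  have h4 : 4 ≤ (G.N F ∩ G.nb v).card := by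
    have h5 := card_sdiff_add_card_inter (G.N F) (G.nb v)
    have h6 := c.T6
    omega
  -- a low neighbour of `v`
  obtain ⟨y, hy⟩ : (G.N F ∩ G.nb v).Nonempty := by
    rw [← Finset.card_pos]
    omega
  rw [mem_inter] at hy
  obtain ⟨d1, n1, l1, v1⟩ : ∃ u ∈ G.N F, G.Low u ∧ v ∈ G.nb u := by
    rcases c.cv hy.2 with h1 | h1
    · obtain ⟨u, h1, h2, h3, -⟩ := h1
      exact ⟨u, h1, h2, h3⟩
    · obtain ⟨a, -, b, h2, h3, h4, -⟩ := h1
      exact ⟨b, h2, h3.2.1, h4⟩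
  -- another one
  have other : ∀ d, d ∈ G.N F → v ∈ G.nb d → ∃ u ∈ G.N F, G.Low u ∧ v ∈ G.nb u ∧ u ≠ d := by
    intro d hd hv
    rcases c.cv (G.sym _ _ hv) with h1 | h1
    · obtain ⟨u, h1, h2, h3, h4⟩ := h1
      exact ⟨u, h1, h2, h3, ne_of_nb5 h4⟩
    · obtain ⟨a, -, b, h2, h3, h4, -⟩ := h1
      exact ⟨b, h2, h3.2.1, h4, (HL_bt76 h3).2.symm⟩
  -- two lows with three neighbours in `F`
  by_cases h33 : ∃ a ∈ G.N F, ∃ b ∈ G.N F, G.Low a ∧ G.Low b ∧ a ≠ b ∧ 3 ≤ G.d a F ∧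
      3 ≤ G.d b F
  · obtain ⟨a, ha, b, hb, hal, hbl, hab, ha3, hb3⟩ := h33
    have k1 := (c.val3 ha hal ha3).1
    have k2 := (c.val3 hb hbl hb3).1
    exact c.two ha hb hal hbl hab (by linarith)
  -- the vertex `b0`
  obtain ⟨d2, n2, l2, v2, hne⟩ := other d1 n1 v1
  obtain ⟨b0, d, nb0, nd, lb0, ld, vb0, vd, hbd, hb2, hd3⟩ : ∃ b0 d, b0 ∈ G.N F ∧ d ∈ G.N F ∧
      G.Low b0 ∧ G.Low d ∧ v ∈ G.nb b0 ∧ v ∈ G.nb d ∧ b0 ≠ d ∧ ¬ 3 ≤ G.d b0 F ∧
      3 ≤ G.d d F := by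
    by_cases k1 : 3 ≤ G.d d1 F
    · by_cases k2 : 3 ≤ G.d d2 F
      · exact absurd ⟨d1, n1, d2, n2, l1, l2, hne.symm, k1, k2⟩ h33
      · exact ⟨d2, d1, n2, n1, l2, l1, v2, v1, hne, k2, k1⟩
    · by_cases k2 : 3 ≤ G.d d2 F
      · exact ⟨d1, d2, n1, n2, l1, l2, v1, v2, hne.symm, k1, k2⟩
      · exact (c.only n1 n2 hne.symm (c.f2 n1 v1 k1) (c.f2 n2 v2 k2)).elim
  have hbF := c.f2 nb0 vb0 hb2
  -- the lows that are adjacent to `v`
  have hD : ∀ u ∈ G.N F, G.Low u → v ∈ G.nb u → u = b0 ∨ u = d := by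
    intro u hu hul hvu
    by_contra hc
    rw [not_or] at hc
    by_cases k1 : 3 ≤ G.d u F
    · exact h33 ⟨u, hu, d, nd, hul, ld, hc.2, k1, hd3⟩
    · exact c.only hu nb0 hc.1 (c.f2 hu hvu k1) hbF
  -- `HL a b0 y` is impossible
  have hno : ∀ a y, a ∈ G.N F → y ∈ G.N F → ¬ G.HL a b0 y := by
    intro a y ha hy h1
    have hab : a ≠ b0 := ne_of_nb5 (HL_b76 h1)
    refine c.only ha nb0 hab ?_ hbF
    intro x hx
    rw [mem_inter] at hx
    have hxy : x ≠ y := fun e => c.notF hy (e ▸ hx.2)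
    rcases HL_sup76 h1 hx.1 hxy with h2 | h2
    · exact absurd (h2 ▸ hx.2) (c.notF nb0)
    · exact hbF (mem_inter.2 ⟨h2, hx.2⟩)
  -- `b0` and `d` are adjacent
  have hadj : d ∈ G.nb b0 := by
    rcases c.cv (G.sym _ _ vd) with h1 | h1
    · obtain ⟨u, h1, h2, h3, h4⟩ := h1
      rcases hD u h1 h2 h3 with rfl | rfl
      · exact h4
      · exact absurd h4 (G.irr _)
    · obtain ⟨a, ha, b, hb, h3, h4, -⟩ := h1
      rcases hD b hb h3.2.1 h4 with rfl | rfl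
      · exact absurd h3 (hno a d ha nd)
      · exact absurd rfl (HL_bt76 h3).2
  have hadj' : b0 ∈ G.nb d := G.sym _ _ hadj
  have hLb : 1 ≤ Lw G F b0 := by
    rw [Lw, Nat.succ_le_iff, Finset.card_pos]
    exact ⟨d, mem_inter.2 ⟨mem_lo.2 ⟨nd, ld⟩, hadj⟩⟩
  have hLd : 1 ≤ Lw G F d := by
    rw [Lw, Nat.succ_le_iff, Finset.card_pos]
    exact ⟨b0, mem_inter.2 ⟨mem_lo.2 ⟨nb0, lb0⟩, hadj'⟩⟩
  have hLb' : (1 : ℤ) ≤ (Lw G F b0 : ℤ) := by exact_mod_cast hLb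
  have hLd' : (1 : ℤ) ≤ (Lw G F d : ℤ) := by exact_mod_cast hLd
  have hvb : 2 + 2 * ((G.pT F b0).card : ℤ) ≤ G.gam5 F b0 := by
    have k1 := c.hBas.pos F c.hL.1 b0 nb0
    obtain ⟨-, k2, -⟩ := c.hB.low2 F c.hL.1 b0 nb0 lb0 (by omega)
    rcases k2 with k2 | k2
    · exact k2
    · exact absurd k2.2.1 (c.noPair b0)
  rcases (c.val3 nd ld hd3).2 with k1 | ⟨v', q, q', k1, k2, k3, k4, k5⟩
  · exact c.two nb0 nd lb0 ld hbd (by linarith)
  · exfalso
    have e1 : v' = b0 := by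
      have : b0 ∈ G.pT F d := mem_pT.2 ⟨hadj', nb0⟩
      rw [k2] at this
      exact (mem_singleton.1 this).symm
    subst e1
    have hq : q ∈ G.Co F := by
      have : q ∈ G.pO F d := by rw [k4]; simp
      exact (mem_inter.1 this).2
    have hq' : q' ∈ G.Co F := by
      have : q' ∈ G.pO F d := by rw [k4]; simp
      exact (mem_inter.1 this).2
    have hvq' : v' ≠ q' := by
      rintro rfl
      exact (mem_Co76.1 hq').2 nb0
    have hq'b : q' ∈ G.nb v' := k3.adj33 k5 hvq'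
    have h2 : 2 ≤ G.d v' (G.Co F) := d_two33 hq k5 hq' hq'b k3.ne33
    have hsp := d_split76 (G := G) v' F
    have h6 : (G.nb v').card = 6 := lb0
    have hpos := c.hBas.pos F c.hL.1 v' nb0
    have ht : (G.pT F v').card ≤ 2 := by
      have : (G.nb v' ∩ G.N F).card = (G.pT F v').card := rfl
      omega
    -- all neighbours of `v` in `N F` are neighbours of `b0`
    have hall : (G.N F ∩ G.nb v).erase v' ⊆ G.pT F v' := by
      intro y hy
      rw [mem_erase, mem_inter] at hy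
      obtain ⟨hyb, hyN, hyv⟩ := hy
      have hd1 : ∀ x, x ∈ G.N F → x ∈ G.nb d → x = v' := by
        intro x h1 h2
        have h3 : x ∈ G.pT F d := mem_pT.2 ⟨h2, h1⟩
        rw [k2] at h3
        exact mem_singleton.1 h3
      rcases c.cv hyv with h1 | h1
      · obtain ⟨u, h1, h2, h3, h4⟩ := h1
        rcases hD u h1 h2 h3 with rfl | rfl
        · exact mem_pT.2 ⟨h4, hyN⟩
        · exact absurd (hd1 y hyN h4) hyb
      · obtain ⟨a, ha, b, hb, h3, h4, -⟩ := h1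
        rcases hD b hb h3.2.1 h4 with rfl | rfl
        · exact absurd h3 (hno a y ha hyN)
        · have h5 := hd1 a ha (G.sym _ _ (HL_b76 h3))
          rw [h5] at h3
          exact absurd lb0 (HL_not_low76 h3)
    have h7 := card_le_card hall
    have h8 : v' ∈ G.N F ∩ G.nb v := mem_inter.2 ⟨nb0, G.sym _ _ vb0⟩
    rw [card_erase_of_mem h8] at h7
    omega

end Cx

end J5a96

open J5a96 in
/-- J5a -/
theorem st7LHHQa_96 (G : CG V) (hBas : G.StLBas) (hB : G.StLB) (h0 : G.St7Bas) :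
    G.St7LHHQa := by
  intro F hF l h h' v w hFe hne hl hh hh' htw hlv
  exact Cx.main (l := l) (h := h) (h' := h') (v := v) (w := w)
    ⟨hF, hBas, hB, h0, hFe, hne, hl, hh, hh', htw, hlv⟩

end CG

end Pool.Agent.Lib.MP_e95c01_co.N
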