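import Pool.Agent.Lib.MP_e95c01_co.X.StmtsJ76
import Pool.Agent.Lib.MP_e95c01_co.T.F3_33
import Pool.Agent.Lib.MP_e95c01_co.T.F4_42
import Pool.Agent.Lib.MP_e95c01_co.T.F5_30

/-!
# `λ = 3`, fragments with five vertices: a low, two hubs and a pair of twins; the low is adjacent to
the pair and there are no twins in `N F`
-/

namespace Pool.Agent.Lib.MP_e95c01_co.N

open Finset

variable {V : Type} [Fintype V] [DecidableEq V]

namespace CG

namespace J5x33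

variable {G : CG V} {F : Finset V} {l h h' v w : V}

theorem mem_pT {F : Finset V} {x y : V} : x ∈ G.pT F y ↔ x ∈ G.nb y ∧ x ∈ G.N F := mem_inter

/-- indicator -/
noncomputable def ch (p : Prop) : ℕ := by
  classical
  exact if p then 1 else 0

theorem ch1 {p : Prop} (h : p) : ch p = 1 := by
  unfold ch
  rw [if_pos h]

theorem ch0 {p : Prop} (h : ¬ p) : ch p = 0 := by
  unfold ch
  rw [if_neg h]

theorem ch_le (p : Prop) : ch p ≤ 1 := by
  unfold ch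
  split_ifs <;> omega

theorem ch_iff {p : Prop} : ch p = 1 ↔ p := by
  constructor
  · intro h
    by_contra h1
    rw [ch0 h1] at h
    omega
  · exact ch1

theorem ch_eq0 {p : Prop} : ch p = 0 ↔ ¬ p := by
  constructor
  · intro h h1
    rw [ch1 h1] at h
    omega
  · exact ch0

omit [Fintype V] in
theorem card_ch (A B : Finset V) : (A ∩ B).card = ∑ x ∈ B, ch (x ∈ A) := by
  classical
  have h1 : A ∩ B = B.filter (fun x => x ∈ A) := by
    ext x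
    rw [mem_inter, mem_filter]
    exact and_comm
  rw [h1, card_filter]
  refine sum_congr rfl fun x _ => ?_
  by_cases hx : x ∈ A
  · rw [ch1 hx, if_pos hx]
  · rw [ch0 hx, if_neg hx]

/-- the situation -/
structure Jx (G : CG V) (F : Finset V) (l h h' v w : V) : Prop where
  hL : G.Lf F
  c5 : F.card = 5
  bas : G.StLBas
  hB : G.StLB
  h7 : G.St7Bas
  lF : l ∈ F
  hF : h ∈ F
  hF' : h' ∈ F
  vF : v ∈ F
  wF : w ∈ F
  all : ∀ x ∈ F, x = l ∨ x = h ∨ x = h' ∨ x = v ∨ x = w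
  ll : G.Low l
  hh : G.Hub h
  hh' : G.Hub h'
  tw : G.Tw v w
  ne : h ≠ h'
  lv : l ∈ G.nb v
  noT : ∀ P ∈ G.N F, ¬ G.IsTw P

/-! ### counting -/

omit [Fintype V] [DecidableEq V] in
theorem sumch (S : Finset V) (p : V → Prop) [DecidablePred p] :
    ∑ x ∈ S, ch (p x) = (S.filter p).card := by
  rw [card_filter]
  refine sum_congr rfl fun x _ => ?_
  by_cases hx : p x
  · rw [ch1 hx, if_pos hx]
  · rw [ch0 hx, if_neg hx]

/-- number of low neighbours in `N F` -/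
noncomputable def Ln (G : CG V) (F : Finset V) (y : V) : ℕ :=
  ∑ z ∈ G.N F, ch (z ∈ G.nb y ∧ G.Low z)

/-- number of the other neighbours in `N F` -/
noncomputable def Hn (G : CG V) (F : Finset V) (y : V) : ℕ :=
  ∑ z ∈ G.N F, ch (z ∈ G.nb y ∧ ¬ G.Low z)

theorem LHn (y : V) : (G.pT F y).card = Ln G F y + Hn G F y := by
  rw [pT, card_ch, Ln, Hn, ← sum_add_distrib]
  refine sum_congr rfl fun x _ => ?_
  by_cases h1 : x ∈ G.nb y
  · by_cases h2 : G.Low x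
    · rw [ch1 h1, ch1 ⟨h1, h2⟩, ch0 (fun h3 => h3.2 h2)]
    · rw [ch1 h1, ch1 (show x ∈ G.nb y ∧ ¬ G.Low x from ⟨h1, h2⟩), ch0 (fun h3 => h2 h3.2)]
  · rw [ch0 h1, ch0 (fun h3 => h1 h3.1), ch0 (fun h3 => h1 h3.1)]

theorem Ln1 {y z : V} (hz : z ∈ G.N F) (h1 : z ∈ G.nb y) (h2 : G.Low z) : 1 ≤ Ln G F y := by
  classical
  rw [Ln, sumch, Nat.succ_le_iff, Finset.card_pos]
  exact ⟨z, mem_filter.2 ⟨hz, h1, h2⟩⟩

theorem Ln2 {y z z' : V} (hz : z ∈ G.N F) (h1 : z ∈ G.nb y) (h2 : G.Low z) (hz' : z' ∈ G.N F)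
    (h1' : z' ∈ G.nb y) (h2' : G.Low z') (hne : z ≠ z') : 2 ≤ Ln G F y := by
  classical
  rw [Ln, sumch]
  exact two_le5 (mem_filter.2 ⟨hz, h1, h2⟩) (mem_filter.2 ⟨hz', h1', h2'⟩) hne

theorem Hn1 {y z : V} (hz : z ∈ G.N F) (h1 : z ∈ G.nb y) (h2 : ¬ G.Low z) : 1 ≤ Hn G F y := by
  classical
  rw [Hn, sumch, Nat.succ_le_iff, Finset.card_pos]
  exact ⟨z, mem_filter.2 ⟨hz, h1, h2⟩⟩

/-- double counting -/
theorem dbl : ∑ y ∈ G.N F, ch (G.Low y) * Hn G F y = ∑ y ∈ G.N F, ch (¬ G.Low y) * Ln G F y := by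
  have h1 : ∀ y ∈ G.N F, ch (G.Low y) * Hn G F y =
      ∑ z ∈ G.N F, ch (G.Low y) * ch (z ∈ G.nb y ∧ ¬ G.Low z) := by
    intro y _
    rw [Hn, mul_sum]
  have h2 : ∀ y ∈ G.N F, ch (¬ G.Low y) * Ln G F y =
      ∑ z ∈ G.N F, ch (¬ G.Low y) * ch (z ∈ G.nb y ∧ G.Low z) := by
    intro y _
    rw [Ln, mul_sum]
  rw [sum_congr rfl h1, sum_congr rfl h2, sum_comm]
  refine sum_congr rfl fun z _ => sum_congr rfl fun y _ => ?_
  by_cases q1 : G.Low y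
  · by_cases q2 : G.Low z
    · rw [ch0 (show ¬ (z ∈ G.nb y ∧ ¬ G.Low z) from fun h3 => h3.2 q2),
        ch0 (show ¬ ¬ G.Low z from fun h3 => h3 q2)]
      ring
    · by_cases q3 : z ∈ G.nb y
      · rw [ch1 q1, ch1 q2, ch1 (show z ∈ G.nb y ∧ ¬ G.Low z from ⟨q3, q2⟩),
          ch1 (show y ∈ G.nb z ∧ G.Low y from ⟨G.sym _ _ q3, q1⟩)]
      · rw [ch0 (show ¬ (z ∈ G.nb y ∧ ¬ G.Low z) from fun h3 => q3 h3.1),
          ch0 (show ¬ (y ∈ G.nb z ∧ G.Low y) from fun h3 => q3 (G.sym _ _ h3.1))]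
        ring
  · rw [ch0 q1, ch0 (show ¬ (y ∈ G.nb z ∧ G.Low y) from fun h3 => q1 h3.2)]
    ring

/-- the weight of a vertex of `N F`, reduced by 2 if it misses `l` or the pair -/
noncomputable def Xw (G : CG V) (F : Finset V) (l v y : V) : ℤ :=
  G.gam5 F y - 2 * ((ch (G.Low y) * Hn G F y : ℕ) : ℤ) +
    2 * ((ch (¬ G.Low y) * Ln G F y : ℕ) : ℤ) - 2 * (ch (¬ (l ∈ G.nb y ∧ v ∈ G.nb y)) : ℤ)

/-- number of vertices of `N F` missing `l` and the pair -/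
noncomputable def an (G : CG V) (F : Finset V) (l v : V) : ℕ :=
  ∑ y ∈ G.N F, ch (l ∉ G.nb y ∧ v ∉ G.nb y)

namespace Jx

theorem symm (c : Jx G F l h h' v w) : Jx G F l h' h v w where
  hL := c.hL
  c5 := c.c5
  bas := c.bas
  hB := c.hB
  h7 := c.h7
  lF := c.lF
  hF := c.hF'
  hF' := c.hF
  vF := c.vF
  wF := c.wF
  all := fun x hx => by
    have := c.all x hx
    tauto
  ll := c.ll
  hh := c.hh'
  hh' := c.hh
  tw := c.tw
  ne := c.ne.symm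
  lv := c.lv
  noT := c.noT

theorem n9 (c : Jx G F l h h' v w) : 9 ≤ Fintype.card V := by
  have := c.hL.n12
  omega

theorem notF (_ : Jx G F l h h' v w) {x : V} (hx : x ∈ G.N F) : x ∉ F := (mem_N76.1 hx).1

theorem neF (c : Jx G F l h h' v w) {x z : V} (hx : x ∈ G.N F) (hz : z ∈ F) : z ≠ x := by
  rintro rfl
  exact c.notF hx hz

theorem uniq (c : Jx G F l h h' v w) {x y y' : V} (h : G.Tw x y) (h' : G.Tw x y') : y = y' :=
  (stTwHL_5 G).uniq c.n9 _ _ _ h h'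

theorem lh (c : Jx G F l h h' v w) : l ≠ h := by
  rintro rfl
  exact c.hh.1 c.ll

theorem nlv (c : Jx G F l h h' v w) : l ≠ v := (ne_of_nb5 c.lv).symm

theorem nlw (c : Jx G F l h h' v w) : l ≠ w := by
  rintro rfl
  exact not_low33 ⟨_, c.tw.sym33⟩ c.ll

theorem hv (c : Jx G F l h h' v w) : h ≠ v := by
  rintro rfl
  exact c.hh.2 ⟨_, c.tw⟩

theorem hw (c : Jx G F l h h' v w) : h ≠ w := by
  rintro rfl
  exact c.hh.2 ⟨_, c.tw.sym33⟩

theorem lowF (c : Jx G F l h h' v w) {x : V} (hx : x ∈ F) (hl : G.Low x) : x = l := by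
  rcases c.all x hx with h1 | h1 | h1 | h1 | h1
  · exact h1
  · exact absurd (h1 ▸ hl) c.hh.1
  · exact absurd (h1 ▸ hl) c.hh'.1
  · exact absurd (h1 ▸ hl) (not_low33 ⟨_, c.tw⟩)
  · exact absurd (h1 ▸ hl) (not_low33 ⟨_, c.tw.sym33⟩)

/-- a vertex of `F` that is neither low nor a twin -/
theorem hubF (c : Jx G F l h h' v w) {x : V} (hx : x ∈ F) (hl : ¬ G.Low x) (ht : ¬ G.IsTw x) :
    x = h ∨ x = h' := by
  rcases c.all x hx with h1 | h1 | h1 | h1 | h1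
  · exact absurd (h1 ▸ c.ll) hl
  · exact Or.inl h1
  · exact Or.inr h1
  · exact absurd (h1 ▸ ⟨_, c.tw⟩) ht
  · exact absurd (h1 ▸ ⟨_, c.tw.sym33⟩) ht

/-- `v` and `w` have the same neighbours -/
theorem vw (c : Jx G F l h h' v w) {x : V} (h1 : x ≠ v) (h2 : x ≠ w) :
    ch (w ∈ G.nb x) = ch (v ∈ G.nb x) := by
  by_cases h3 : v ∈ G.nb x
  · rw [ch1 h3, ch1 (G.sym _ _ (Tw_nb5 c.tw (G.sym _ _ h3) h2))]
  · rw [ch0 h3, ch0 (fun h4 => h3 (G.sym _ _ (Tw_nb5 c.tw.sym33 (G.sym _ _ h4) h1)))]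

theorem Feq (c : Jx G F l h h' v w) : F = insert l (insert h (insert h' (insert v {w}))) := by
  ext x
  rw [mem_insert, mem_insert, mem_insert, mem_insert, mem_singleton]
  constructor
  · exact c.all x
  · rintro (h1 | h1 | h1 | h1 | h1) <;> rw [h1]
    exacts [c.lF, c.hF, c.hF', c.vF, c.wF]

theorem sumF (c : Jx G F l h h' v w) (f : V → ℕ) :
    ∑ x ∈ F, f x = f l + (f h + (f h' + (f v + f w))) := by
  rw [c.Feq, sum_insert, sum_insert, sum_insert, sum_insert, sum_singleton]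
  · rw [mem_singleton]
    exact c.tw.ne33
  · rw [mem_insert, mem_singleton, not_or]
    exact ⟨c.symm.hv, c.symm.hw⟩
  · rw [mem_insert, mem_insert, mem_singleton, not_or, not_or]
    exact ⟨c.ne, c.hv, c.hw⟩
  · rw [mem_insert, mem_insert, mem_insert, mem_singleton, not_or, not_or, not_or]
    exact ⟨c.lh, c.symm.lh, c.nlv, c.nlw⟩

/-- number of neighbours in `F` -/
theorem dF (c : Jx G F l h h' v w) {y : V} (hy : y ∈ G.N F) :
    G.d y F = ch (l ∈ G.nb y) + ch (h ∈ G.nb y) + ch (h' ∈ G.nb y) + 2 * ch (v ∈ G.nb y) := by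
  rw [d, card_ch, c.sumF, c.vw (c.neF hy c.vF).symm (c.neF hy c.wF).symm]
  ring

theorem cardnb (c : Jx G F l h h' v w) {x : V} (hx : x ∈ F) :
    (G.N F \ G.nb x).card + (G.nb x).card = 6 + G.d x F := by
  have h3 : G.nb x = (G.nb x ∩ F) ∪ (G.N F ∩ G.nb x) := by
    ext y
    constructor
    · intro hy
      rcases nbF42 hx hy with h4 | h4
      · exact mem_union_left _ (mem_inter.2 ⟨hy, h4⟩)
      · exact mem_union_right _ (mem_inter.2 ⟨h4, hy⟩)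
    · intro hy
      rcases mem_union.1 hy with h4 | h4
      · exact (mem_inter.1 h4).1
      · exact (mem_inter.1 h4).2
  have h4 : Disjoint (G.nb x ∩ F) (G.N F ∩ G.nb x) := by
    rw [Finset.disjoint_left]
    intro y h5 h6
    exact c.notF (mem_inter.1 h6).1 (mem_inter.1 h5).2
  have h5 := card_union_of_disjoint h4
  rw [← h3] at h5
  have h6 := card_sdiff_add_card_inter (G.N F) (G.nb x)
  have h7 : (G.N F).card = 6 := c.hL.big.1.2.1
  have h8 : G.d x F = (G.nb x ∩ F).card := rfl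
  omega

theorem missl (c : Jx G F l h h' v w) :
    (G.N F \ G.nb l).card = 2 + ch (h ∈ G.nb l) + ch (h' ∈ G.nb l) := by
  have h1 := c.cardnb c.lF
  have h2 : (G.nb l).card = 6 := c.ll
  have h3 : G.d l F = 0 + (ch (h ∈ G.nb l) + (ch (h' ∈ G.nb l) + (1 + 1))) := by
    rw [d, card_ch, c.sumF, ch0 (G.irr l), c.vw c.nlv c.nlw, ch1 (G.sym _ _ c.lv)]
  omega

theorem missv (c : Jx G F l h h' v w) :
    (G.N F \ G.nb v).card = 1 + ch (h ∈ G.nb v) + ch (h' ∈ G.nb v) := by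
  have h1 := c.cardnb c.vF
  have h2 : (G.nb v).card = 7 := c.tw.2.1
  have h3 : G.d v F = 1 + (ch (h ∈ G.nb v) + (ch (h' ∈ G.nb v) + (0 + 1))) := by
    rw [d, card_ch, c.sumF, ch0 (G.irr v), ch1 c.lv, ch1 c.tw.1]
  omega

theorem chs (x y : V) : ch (x ∈ G.nb y) = ch (y ∈ G.nb x) := by
  by_cases h1 : x ∈ G.nb y
  · rw [ch1 h1, ch1 (G.sym _ _ h1)]
  · rw [ch0 h1, ch0 (fun h2 => h1 (G.sym _ _ h2))]

theorem missh (c : Jx G F l h h' v w) :
    (G.N F \ G.nb h).card + 1 ≤ ch (h ∈ G.nb l) + 2 * ch (h ∈ G.nb v) + ch (h' ∈ G.nb h) := by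
  have h1 := c.cardnb c.hF
  have h2 : (G.nb h).card ≠ 6 := c.hh.1
  have h4 := G.deg h
  have h3 : G.d h F = ch (h ∈ G.nb l) + (0 + (ch (h' ∈ G.nb h) +
      (ch (h ∈ G.nb v) + ch (h ∈ G.nb v)))) := by
    rw [d, card_ch, c.sumF, ch0 (G.irr h), c.vw c.hv c.hw, chs l h, chs v h]
  omega

theorem missS (x : V) : (G.N F \ G.nb x).card = ∑ y ∈ G.N F, ch (x ∉ G.nb y) := by
  classical
  rw [sumch]
  congr 1
  ext y
  rw [mem_sdiff, mem_filter]
  exact ⟨fun h1 => ⟨h1.1, fun h2 => h1.2 (G.sym _ _ h2)⟩,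
    fun h1 => ⟨h1.1, fun h2 => h1.2 (G.sym _ _ h2)⟩⟩

/-- a vertex not adjacent to the low and the pair sees both hubs -/
theorem see2 (c : Jx G F l h h' v w) {y : V} (hy : y ∈ G.N F) (h1 : l ∉ G.nb y)
    (h2 : v ∉ G.nb y) : h ∈ G.nb y ∧ h' ∈ G.nb y := by
  have h3 := c.bas.pos F c.hL y hy
  have h4 := c.dF hy
  rw [ch0 h1, ch0 h2] at h4
  have h5 := ch_le (h ∈ G.nb y)
  have h6 := ch_le (h' ∈ G.nb y)
  exact ⟨ch_iff.1 (by omega), ch_iff.1 (by omega)⟩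

theorem aOne (c : Jx G F l h h' v w) {x y : V} (hx : x ∈ G.N F) (hy : y ∈ G.N F)
    (h1 : l ∉ G.nb x) (h2 : v ∉ G.nb x) (h3 : l ∉ G.nb y) (h4 : v ∉ G.nb y) : x = y := by
  by_contra hne
  have h5 := c.h7.two F ⟨c.hL, c.c5⟩ x hx y hy hne
  have h6 : (G.nb x ∪ G.nb y) ∩ F ⊆ {h, h'} := by
    intro z hz
    obtain ⟨h7, h8⟩ := mem_inter.1 hz
    rw [mem_insert, mem_singleton]
    have hwx : ∀ u, u ∈ G.N F → v ∉ G.nb u → w ∉ G.nb u := by
      intro u hu h9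
      have := c.vw (c.neF hu c.vF).symm (c.neF hu c.wF).symm
      rw [ch0 h9] at this
      exact ch_eq0.1 this
    rcases c.all z h8 with rfl | h9 | h9 | rfl | rfl
    · rcases mem_union.1 h7 with h9 | h9
      · exact absurd h9 h1
      · exact absurd h9 h3
    · exact Or.inl h9
    · exact Or.inr h9
    · rcases mem_union.1 h7 with h9 | h9
      · exact absurd h9 h2
      · exact absurd h9 h4
    · rcases mem_union.1 h7 with h9 | h9
      · exact absurd h9 (hwx _ hx h2)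
      · exact absurd h9 (hwx _ hy h4)
  have h7 := card_le_card h6
  rw [card_pair c.ne] at h7
  omega

theorem bOne (c : Jx G F l h h' v w) {x y : V} (hx : x ∈ G.N F) (hy : y ∈ G.N F)
    (h1 : l ∉ G.nb x) (h2 : h ∉ G.nb x) (h2' : h' ∉ G.nb x) (h3 : l ∉ G.nb y) (h4 : h ∉ G.nb y)
    (h4' : h' ∉ G.nb y) : x = y := by
  by_contra hne
  have h5 := c.h7.two F ⟨c.hL, c.c5⟩ x hx y hy hne
  have h6 : (G.nb x ∪ G.nb y) ∩ F ⊆ {v, w} := by
    intro z hz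
    obtain ⟨h7, h8⟩ := mem_inter.1 hz
    rw [mem_insert, mem_singleton]
    rcases c.all z h8 with rfl | rfl | rfl | h9 | h9
    · rcases mem_union.1 h7 with h9 | h9
      · exact absurd h9 h1
      · exact absurd h9 h3
    · rcases mem_union.1 h7 with h9 | h9
      · exact absurd h9 h2
      · exact absurd h9 h4
    · rcases mem_union.1 h7 with h9 | h9
      · exact absurd h9 h2'
      · exact absurd h9 h4'
    · exact Or.inl h9
    · exact Or.inr h9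
  have h7 := card_le_card h6
  rw [card_pair c.tw.ne33] at h7
  omega

theorem an_le (c : Jx G F l h h' v w) : an G F l v ≤ 1 := by
  classical
  rw [an, sumch, Finset.card_le_one]
  intro x hx y hy
  rw [mem_filter] at hx hy
  exact c.aOne hx.1 hy.1 hx.2.1 hx.2.2 hy.2.1 hy.2.2

theorem an_ex (_ : Jx G F l h h' v w) (h1 : 1 ≤ an G F l v) :
    ∃ a ∈ G.N F, l ∉ G.nb a ∧ v ∉ G.nb a := by
  classical
  rw [an, sumch, Nat.succ_le_iff, Finset.card_pos] at h1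
  obtain ⟨a, ha⟩ := h1
  rw [mem_filter] at ha
  exact ⟨a, ha.1, ha.2⟩

/-- connected -/
theorem con (c : Jx G F l h h' v w) : 1 ≤ ch (h ∈ G.nb l) + ch (h' ∈ G.nb l) +
    ch (h ∈ G.nb v) + ch (h' ∈ G.nb v) := by
  have hS : ({h, h'} : Finset V) ⊆ F := by
    intro x hx
    rw [mem_insert, mem_singleton] at hx
    rcases hx with rfl | rfl
    · exact c.hF
    · exact c.hF'
  obtain ⟨x, hx, y, hy, hxy⟩ := c.h7.conn F ⟨c.hL, c.c5⟩ {h, h'} hS ⟨h, mem_insert_self _ _⟩ (by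
    intro h1
    have h2 := c.lF
    rw [← h1, mem_insert, mem_singleton] at h2
    rcases h2 with h2 | h2
    · exact c.lh h2
    · exact c.symm.lh h2)
  rw [mem_insert, mem_singleton] at hx
  rw [mem_sdiff, mem_insert, mem_singleton, not_or] at hy
  have key : ∀ {h h' : V}, Jx G F l h h' v w → y ∈ G.nb h →
      (y = l ∨ y = v ∨ y = w) → 1 ≤ ch (h ∈ G.nb l) + ch (h ∈ G.nb v) := by
    intro h h' c h1 h2
    rcases h2 with rfl | rfl | rfl
    · rw [ch1 (G.sym _ _ h1)]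
      omega
    · rw [ch1 (G.sym _ _ h1)]
      omega
    · rw [chs h v, ← c.vw c.hv c.hw, ch1 h1]
      omega
  have h3 : y = l ∨ y = v ∨ y = w := by
    have := c.all y hy.1
    have := hy.2
    tauto
  rcases hx with rfl | rfl
  · have := key c hxy h3
    omega
  · have := key c.symm hxy h3
    omega

/-- the number of vertices that miss something -/
theorem nout (c : Jx G F l h h' v w) :
    ∑ y ∈ G.N F, ch (¬ (l ∈ G.nb y ∧ v ∈ G.nb y)) + an G F l v =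
      3 + (ch (h ∈ G.nb l) + ch (h' ∈ G.nb l) + ch (h ∈ G.nb v) + ch (h' ∈ G.nb v)) := by
  have h1 := c.missl
  have h2 := c.missv
  rw [missS] at h1 h2
  have h3 : ∑ y ∈ G.N F, ch (¬ (l ∈ G.nb y ∧ v ∈ G.nb y)) + an G F l v =
      ∑ y ∈ G.N F, ch (l ∉ G.nb y) + ∑ y ∈ G.N F, ch (v ∉ G.nb y) := by
    rw [an, ← sum_add_distrib, ← sum_add_distrib]
    refine sum_congr rfl fun y _ => ?_
    by_cases q1 : l ∈ G.nb y
    · by_cases q2 : v ∈ G.nb y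
      · rw [ch0 (fun h3 => h3 ⟨q1, q2⟩), ch0 (fun h3 => h3.1 q1), ch0 (fun h3 => h3 q1),
          ch0 (fun h3 => h3 q2)]
      · rw [ch1 (show ¬ (l ∈ G.nb y ∧ v ∈ G.nb y) from fun h3 => q2 h3.2),
          ch0 (fun h3 => h3.1 q1), ch0 (fun h3 => h3 q1), ch1 q2]
    · by_cases q2 : v ∈ G.nb y
      · rw [ch1 (show ¬ (l ∈ G.nb y ∧ v ∈ G.nb y) from fun h3 => q1 h3.1),
          ch0 (fun h3 => h3.2 q2), ch1 q1, ch0 (fun h3 => h3 q2)]
      · rw [ch1 (show ¬ (l ∈ G.nb y ∧ v ∈ G.nb y) from fun h3 => q1 h3.1),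
          ch1 (show l ∉ G.nb y ∧ v ∉ G.nb y from ⟨q1, q2⟩), ch1 q1, ch1 q2]
  omega

/-- the sum -/
theorem red (c : Jx G F l h h' v w) : ∑ y ∈ G.N F, G.gam5 F y =
    ∑ y ∈ G.N F, Xw G F l v y + 2 * (3 + ((ch (h ∈ G.nb l) : ℤ) + (ch (h' ∈ G.nb l) : ℤ) +
      (ch (h ∈ G.nb v) : ℤ) + (ch (h' ∈ G.nb v) : ℤ))) - 2 * (an G F l v : ℤ) := by
  have h1 : ∑ y ∈ G.N F, Xw G F l v y = ∑ y ∈ G.N F, G.gam5 F y -
      2 * ((∑ y ∈ G.N F, ch (G.Low y) * Hn G F y : ℕ) : ℤ) +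
      2 * ((∑ y ∈ G.N F, ch (¬ G.Low y) * Ln G F y : ℕ) : ℤ) -
      2 * ((∑ y ∈ G.N F, ch (¬ (l ∈ G.nb y ∧ v ∈ G.nb y)) : ℕ) : ℤ) := by
    unfold Xw
    rw [sum_sub_distrib, sum_add_distrib, sum_sub_distrib, ← mul_sum, ← mul_sum, ← mul_sum]
    push_cast
    ring
  have h2 := c.nout
  rw [h1, dbl]
  have h3 : ((∑ y ∈ G.N F, ch (¬ (l ∈ G.nb y ∧ v ∈ G.nb y)) : ℕ) : ℤ) + (an G F l v : ℤ) =
      3 + ((ch (h ∈ G.nb l) : ℤ) + (ch (h' ∈ G.nb l) : ℤ) +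
      (ch (h ∈ G.nb v) : ℤ) + (ch (h' ∈ G.nb v) : ℤ)) := by exact_mod_cast h2
  linarith

/-- every vertex sees a hub that has no neighbour among the low and the pair -/
theorem seeh (c : Jx G F l h h' v w) {y : V} (hy : y ∈ G.N F) :
    1 ≤ ch (h ∈ G.nb l) + ch (h ∈ G.nb v) + ch (h ∈ G.nb y) := by
  by_contra h1
  have h2 := c.missh
  have h3 := ch_le (h' ∈ G.nb h)
  have h4 : h ∉ G.nb y := ch_eq0.1 (by omega)
  have h5 : 0 < (G.N F \ G.nb h).card :=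
    Finset.card_pos.2 ⟨y, mem_sdiff.2 ⟨hy, fun h6 => h4 (G.sym _ _ h6)⟩⟩
  omega


/-! ### covers -/

/-- covers at `v` -/
theorem covv (c : Jx G F l h h' v w) {y : V} (hy : y ∈ G.nb v) :
    l ∈ G.nb y ∨ (∃ u ∈ G.N F, G.Low u ∧ v ∈ G.nb u ∧ y ∈ G.nb u) ∨
    (∃ g, (g = h ∨ g = h') ∧ G.HL g l y) ∨
    (∃ a ∈ G.N F, ∃ b ∈ G.N F, G.HL a b y ∧ v ∈ G.nb b ∧ v ∈ G.nb a) := by
  have hyF : y ∈ F ∪ G.N F := by
    rcases nbF42 c.vF hy with h1 | h1
    · exact mem_union_left _ h1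
    · exact mem_union_right _ h1
  rcases c.hL.cov v c.vF y hyF hy with h1 | h1 | h1 | h1 | h1
  · obtain ⟨u, hu, h1, h2, h3⟩ := h1
    rcases mem_union.1 hu with h4 | h4
    · rw [c.lowF h4 h1] at h3
      exact Or.inl (G.sym _ _ h3)
    · exact Or.inr (Or.inl ⟨u, h4, h1, h2, h3⟩)
  · exfalso
    obtain ⟨a, ha, b, hb, h1, h2, h3, -⟩ := h1
    rcases mem_union.1 ha with h4 | h4
    · rcases c.all a h4 with h5 | h5 | h5 | h5 | h5
      · exact not_low33 ⟨_, h1⟩ (h5 ▸ c.ll)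
      · exact c.hh.2 (h5 ▸ ⟨_, h1⟩)
      · exact c.hh'.2 (h5 ▸ ⟨_, h1⟩)
      · rw [h5] at h2
        exact G.irr _ h2
      · rw [h5] at h1
        rw [← c.uniq c.tw.sym33 h1] at h3
        exact G.irr _ h3
    · exact c.noT a h4 ⟨_, h1⟩
  · obtain ⟨a, b, h1, h2, h3, h4 | h4⟩ := h1
    · rw [c.lowF h4.2 h1.2.1] at h1
      exact Or.inr (Or.inr (Or.inl ⟨a, c.hubF h4.1 (HL_not_low76 h1)
        ((stTwHL_5 G).notHL c.n9 _ _ _ h1), h1⟩))
    · exact Or.inr (Or.inr (Or.inr ⟨a, h4.1, b, h4.2, h1, h2, h3⟩))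
  · obtain ⟨a, b, h1, -⟩ := h1
    exact absurd (c.hL.sat _ _ _ h1) (not_low33 ⟨_, c.tw⟩)
  · obtain ⟨a, b, h1, -⟩ := h1
    exact absurd ⟨_, c.tw⟩ ((stTwHL_5 G).twLL _ _ _ _ h1).1

/-- covers at `l` -/
theorem covl (c : Jx G F l h h' v w) {y : V} (hy : y ∈ G.nb l) (hyN : y ∈ G.N F)
    (hv : v ∉ G.nb y) :
    (∃ u ∈ G.N F, G.Low u ∧ l ∈ G.nb u ∧ y ∈ G.nb u) ∨
    (∃ a ∈ G.N F, ∃ b ∈ G.N F, G.HL a b y ∧ l ∈ G.nb b ∧ l ∈ G.nb a) ∨
    (∃ a ∈ G.N F, ∃ b ∈ G.N F, G.HL a b l ∧ y ∈ G.nb b ∧ y ∈ G.nb a) ∨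
    (∃ a ∈ G.N F, ∃ b ∈ G.N F, G.LL a b l y) := by
  rcases c.hL.cov l c.lF y (mem_union_right _ hyN) hy with h1 | h1 | h1 | h1 | h1
  · obtain ⟨u, hu, h1, h2, h3⟩ := h1
    rcases mem_union.1 hu with h4 | h4
    · rw [c.lowF h4 h1] at h2
      exact absurd h2 (G.irr _)
    · exact Or.inl ⟨u, h4, h1, h2, h3⟩
  · exfalso
    obtain ⟨a, ha, b, hb, h1, h2, h3, h4, h5⟩ := h1
    rcases mem_union.1 ha with h6 | h6
    · rcases c.all a h6 with h7 | h7 | h7 | h7 | h7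
      · exact not_low33 ⟨_, h1⟩ (h7 ▸ c.ll)
      · exact c.hh.2 (h7 ▸ ⟨_, h1⟩)
      · exact c.hh'.2 (h7 ▸ ⟨_, h1⟩)
      · rw [h7] at h4
        exact hv (G.sym _ _ h4)
      · rw [h7] at h1
        rw [← c.uniq c.tw.sym33 h1] at h5
        exact hv (G.sym _ _ h5)
    · exact c.noT a h6 ⟨_, h1⟩
  · obtain ⟨a, b, h1, h2, h3, h4 | h4⟩ := h1
    · rw [c.lowF h4.2 h1.2.1] at h2
      exact absurd h2 (G.irr _)
    · exact Or.inr (Or.inl ⟨a, h4.1, b, h4.2, h1, h2, h3⟩)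
  · obtain ⟨a, b, h1, h2, h3, h4 | h4⟩ := h1
    · exact absurd (c.lowF h4.2 h1.2.1).symm (HL_bt76 h1).2
    · exact Or.inr (Or.inr (Or.inl ⟨a, h4.1, b, h4.2, h1, h2, h3⟩))
  · obtain ⟨a, b, h1, h4 | h4⟩ := h1
    · have h5 := LL_t76 h1
      rw [c.lowF h4.1 h1.1] at h5
      exact absurd h5 (G.irr _)
    · exact Or.inr (Or.inr (Or.inr ⟨a, h4.1, b, h4.2, h1⟩))

/-- a hub of `N F` that misses something has a low neighbour in `N F` -/
theorem Lpos (c : Jx G F l h h' v w) {y : V} (hy : y ∈ G.N F) (hl : ¬ G.Low y)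
    (ho : ¬ (l ∈ G.nb y ∧ v ∈ G.nb y)) : 1 ≤ Ln G F y := by
  have key : (∃ u ∈ G.N F, G.Low u ∧ y ∈ G.nb u) → 1 ≤ Ln G F y := by
    rintro ⟨u, h1, h2, h3⟩
    exact Ln1 h1 (G.sym _ _ h3) h2
  by_cases hv : v ∈ G.nb y
  · rcases c.covv (G.sym _ _ hv) with h1 | h1 | h1 | h1
    · exact absurd ⟨h1, hv⟩ ho
    · obtain ⟨u, h1, h2, -, h3⟩ := h1
      exact key ⟨u, h1, h2, h3⟩
    · obtain ⟨g, -, h1⟩ := h1
      exact absurd (c.hL.sat _ _ _ h1) hl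
    · obtain ⟨a, -, b, -, h1, -⟩ := h1
      exact absurd (c.hL.sat _ _ _ h1) hl
  by_cases hly : l ∈ G.nb y
  · rcases c.covl (G.sym _ _ hly) hy hv with h1 | h1 | h1 | h1
    · obtain ⟨u, h1, h2, -, h3⟩ := h1
      exact key ⟨u, h1, h2, h3⟩
    · obtain ⟨a, -, b, -, h1, -⟩ := h1
      exact absurd (c.hL.sat _ _ _ h1) hl
    · obtain ⟨a, -, b, hb, h1, h2, -⟩ := h1
      exact key ⟨b, hb, h1.2.1, h2⟩
    · obtain ⟨a, -, b, hb, h1⟩ := h1
      exact key ⟨b, hb, h1.2.1, LL_u76 h1⟩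
  have hh := (c.see2 hy hly hv).1
  rcases c.hL.cov h c.hF y (mem_union_right _ hy) (G.sym _ _ hh) with h1 | h1 | h1 | h1 | h1
  · obtain ⟨u, hu, h1, h2, h3⟩ := h1
    rcases mem_union.1 hu with h4 | h4
    · rw [c.lowF h4 h1] at h3
      exact absurd (G.sym _ _ h3) hly
    · exact key ⟨u, h4, h1, h3⟩
  · exfalso
    obtain ⟨a, ha, b, hb, h1, h2, h3, h4, h5⟩ := h1
    rcases mem_union.1 ha with h6 | h6
    · rcases c.all a h6 with h7 | h7 | h7 | h7 | h7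
      · exact not_low33 ⟨_, h1⟩ (h7 ▸ c.ll)
      · exact c.hh.2 (h7 ▸ ⟨_, h1⟩)
      · exact c.hh'.2 (h7 ▸ ⟨_, h1⟩)
      · rw [h7] at h4
        exact hv (G.sym _ _ h4)
      · rw [h7] at h1
        rw [← c.uniq c.tw.sym33 h1] at h5
        exact hv (G.sym _ _ h5)
    · exact c.noT a h6 ⟨_, h1⟩
  · obtain ⟨a, b, h1, -⟩ := h1
    exact absurd (c.hL.sat _ _ _ h1) hl
  · obtain ⟨a, b, h1, -⟩ := h1
    exact absurd (c.hL.sat _ _ _ h1) c.hh.1
  · obtain ⟨a, b, h1, h4 | h4⟩ := h1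
    · have h5 := LL_ab76 h1
      rw [c.lowF h4.1 h1.1, c.lowF h4.2 h1.2.1] at h5
      exact absurd h5 (G.irr _)
    · exact key ⟨b, h4.2, h1.2.1, LL_u76 h1⟩

/-- the cover of `v l` -/
theorem E2 (c : Jx G F l h h' v w) :
    (∃ z ∈ G.N F, G.Low z ∧ v ∈ G.nb z ∧ l ∈ G.nb z) ∨
    (∃ a ∈ G.N F, ∃ b ∈ G.N F, G.HL a b l ∧ v ∈ G.nb b ∧ v ∈ G.nb a ∧ ¬ G.Low a ∧ G.Low b ∧
      l ∈ G.nb a ∧ l ∉ G.nb b ∧ b ∈ G.nb a ∧ 2 ≤ Xw G F l v a) := by
  rcases c.covv c.lv with h1 | h1 | h1 | h1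
  · exact absurd h1 (G.irr _)
  · exact Or.inl h1
  · obtain ⟨g, -, h1⟩ := h1
    exact absurd rfl (HL_bt76 h1).2
  · obtain ⟨a, ha, b, hb, h1, h2, h3⟩ := h1
    refine Or.inr ⟨a, ha, b, hb, h1, h2, h3, HL_not_low76 h1, h1.2.1, HL_t76 h1, (HL_bt76 h1).1,
      HL_b76 h1, ?_⟩
    have h4 : G.gam5 F a = 0 := c.hB.hub F c.hL a ha ⟨HL_not_low76 h1, c.noT a ha⟩
    have h5 : 1 ≤ Ln G F a := Ln1 hb (HL_b76 h1) h1.2.1
    rw [Xw, h4, ch0 (HL_not_low76 h1), ch1 (HL_not_low76 h1),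
      ch0 (fun h6 => h6 ⟨HL_t76 h1, h3⟩)]
    push_cast
    have : (1 : ℤ) ≤ (Ln G F a : ℤ) := by exact_mod_cast h5
    linarith

/-! ### values -/

theorem noPS (c : Jx G F l h h' v w) (y : V) : ¬ G.PairSet (G.pT F y) := by
  rintro ⟨a, b, h1, h2⟩
  have h3 : a ∈ G.pT F y := by
    rw [h2]
    exact mem_insert_self _ _
  exact c.noT a (mem_pT.1 h3).2 ⟨_, h1⟩

theorem Xhub (c : Jx G F l h h' v w) {y : V} (hy : y ∈ G.N F) (hl : ¬ G.Low y) :
    Xw G F l v y = 2 * (Ln G F y : ℤ) - 2 * (ch (¬ (l ∈ G.nb y ∧ v ∈ G.nb y)) : ℤ) := by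
  have h4 : G.gam5 F y = 0 := c.hB.hub F c.hL y hy ⟨hl, c.noT y hy⟩
  rw [Xw, h4, ch0 hl, ch1 hl]
  push_cast
  ring

theorem Xlow {y : V} (hl : G.Low y) :
    Xw G F l v y = G.gam5 F y - 2 * (Hn G F y : ℤ) -
      2 * (ch (¬ (l ∈ G.nb y ∧ v ∈ G.nb y)) : ℤ) := by
  rw [Xw, ch1 hl, ch0 (fun h1 => h1 hl)]
  push_cast
  ring

theorem Lz {y : V} (h1 : ∃ a ∈ G.N F, G.pT F y = {a} ∧ ¬ G.Low a) : Ln G F y = 0 := by
  obtain ⟨a, h1, h2, h3⟩ := h1
  by_contra h4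
  classical
  rw [Ln, sumch, Finset.card_eq_zero] at h4
  obtain ⟨z, hz⟩ := Finset.nonempty_iff_ne_empty.2 h4
  rw [mem_filter] at hz
  have h5 : z ∈ G.pT F y := mem_pT.2 ⟨hz.2.1, hz.1⟩
  rw [h2, mem_singleton] at h5
  exact h3 (h5 ▸ hz.2.2)

theorem val (c : Jx G F l h h' v w) {y : V} (hy : y ∈ G.N F) (hl : G.Low y) :
    (G.d y F = 2 ∧ Ln G F y + Hn G F y ≤ 3 ∧
      2 + 2 * ((Ln G F y : ℤ) + (Hn G F y : ℤ)) ≤ G.gam5 F y) ∨
    (G.d y F = 3 ∧ Ln G F y + Hn G F y ≤ 2 ∧ 6 ≤ G.gam5 F y ∧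
      (6 + 2 * ((Ln G F y : ℤ) + (Hn G F y : ℤ)) ≤ G.gam5 F y ∨
        (Ln G F y = 1 ∧ Hn G F y = 0))) ∨
    (G.d y F = 4 ∧ Ln G F y + Hn G F y ≤ 1 ∧ 10 ≤ G.gam5 F y ∧
      (Ln G F y = 1 → 12 ≤ G.gam5 F y)) ∨
    (G.d y F = 5 ∧ Ln G F y + Hn G F y = 0 ∧ 14 ≤ G.gam5 F y) := by
  have h1 := c.bas.pos F c.hL y hy
  have ht := LHn (G := G) (F := F) y
  by_cases h5 : 5 ≤ G.d y F
  · obtain ⟨h6, h7, h8⟩ := c.hB.low5 F c.hL y hy hl h5
    rw [h7, card_empty] at ht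
    exact Or.inr (Or.inr (Or.inr ⟨h6, ht.symm, by rw [h8]⟩))
  have h6 : G.d y F = 2 ∨ G.d y F = 3 ∨ G.d y F = 4 := by omega
  rcases h6 with h6 | h6 | h6
  · obtain ⟨h7, h8, -⟩ := c.hB.low2 F c.hL y hy hl h6
    rw [ht] at h7 h8
    refine Or.inl ⟨h6, h7, ?_⟩
    rcases h8 with h8 | h8
    · push_cast at h8
      linarith
    · exact absurd h8.2.1 (c.noPS y)
  · obtain ⟨h7, h8, h9, -⟩ := c.hB.low3 F c.hL y hy hl h6
    rw [ht] at h7
    refine Or.inr (Or.inl ⟨h6, h7, h8, ?_⟩)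
    rcases h9 with h9 | ⟨u, q, q', h10, h11, -⟩
    · left
      rw [ht] at h9
      push_cast at h9
      linarith
    · right
      rw [h11, card_singleton] at ht
      have h12 : u ∈ G.pT F y := by
        rw [h11]
        exact mem_singleton_self _
      have h13 := Ln1 (G := G) (F := F) (mem_pT.1 h12).2 (mem_pT.1 h12).1 h10
      omega
  · obtain ⟨h7, h8, h9⟩ := c.hB.low4 F c.hL y hy hl h6
    rw [ht] at h7
    refine Or.inr (Or.inr (Or.inl ⟨h6, h7, h8, ?_⟩))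
    intro h10
    rcases h9 with h9 | ⟨a, b, h11, h12, -, h13, h14⟩
    · rw [ht] at h9
      push_cast at h9
      have : (0 : ℤ) ≤ (Hn G F y : ℤ) := Int.natCast_nonneg _
      rw [h10] at h9
      push_cast at h9
      linarith
    · have := Lz (G := G) (F := F) ⟨a, h12, h13, h14.1⟩
      omega

theorem chout {y : V} : ch (¬ (l ∈ G.nb y ∧ v ∈ G.nb y)) ≤ 1 := ch_le _

theorem Xnn (c : Jx G F l h h' v w) {y : V} (hy : y ∈ G.N F) : 0 ≤ Xw G F l v y := by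
  have h0 := chout (G := G) (l := l) (v := v) (y := y)
  by_cases hl : G.Low y
  · have h1 := Xlow (F := F) (l := l) (v := v) hl
    have h2 := c.val hy hl
    omega
  · have h1 := c.Xhub hy hl
    by_cases ho : l ∈ G.nb y ∧ v ∈ G.nb y
    · rw [ch0 (fun h3 => h3 ho)] at h1
      omega
    · have := c.Lpos hy hl ho
      omega

/-- low vertices adjacent to the pair -/
theorem VX (c : Jx G F l h h' v w) {y : V} (hy : y ∈ G.N F) (hl : G.Low y) (hv : v ∈ G.nb y) :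
    (ch (l ∈ G.nb y) + ch (h ∈ G.nb y) + ch (h' ∈ G.nb y) = 0 ∧ Ln G F y + Hn G F y ≤ 3 ∧
      2 * (Ln G F y : ℤ) ≤ Xw G F l v y) ∨
    (ch (l ∈ G.nb y) + ch (h ∈ G.nb y) + ch (h' ∈ G.nb y) = 1 ∧ Ln G F y + Hn G F y ≤ 2 ∧
      4 + 2 * (ch (l ∈ G.nb y) : ℤ) ≤ Xw G F l v y ∧
      (4 + 2 * (ch (l ∈ G.nb y) : ℤ) + 2 * (Ln G F y : ℤ) ≤ Xw G F l v y ∨
        (Ln G F y = 1 ∧ Hn G F y = 0))) ∨
    (ch (l ∈ G.nb y) + ch (h ∈ G.nb y) + ch (h' ∈ G.nb y) = 2 ∧ Ln G F y + Hn G F y ≤ 1 ∧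
      6 + 2 * (ch (l ∈ G.nb y) : ℤ) ≤ Xw G F l v y ∧
      (Ln G F y = 1 → 10 + 2 * (ch (l ∈ G.nb y) : ℤ) ≤ Xw G F l v y)) ∨
    (ch (l ∈ G.nb y) + ch (h ∈ G.nb y) + ch (h' ∈ G.nb y) = 3 ∧ Ln G F y + Hn G F y = 0 ∧
      12 + 2 * (ch (l ∈ G.nb y) : ℤ) ≤ Xw G F l v y) := by
  have h1 := Xlow (F := F) (l := l) (v := v) hl
  have h2 := c.val hy hl
  have h3 := c.dF hy
  rw [ch1 hv] at h3
  have h4 : ch (¬ (l ∈ G.nb y ∧ v ∈ G.nb y)) + ch (l ∈ G.nb y) = 1 := by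
    by_cases h5 : l ∈ G.nb y
    · rw [ch1 h5, ch0 (fun h6 => h6 ⟨h5, hv⟩)]
    · rw [ch0 h5, ch1 (fun h6 => h5 h6.1)]
  omega

/-- a low vertex not adjacent to the pair with a low neighbour -/
theorem Xlow2 (c : Jx G F l h h' v w) {y : V} (hy : y ∈ G.N F) (hl : G.Low y)
    (h2 : 1 ≤ Ln G F y) : 2 ≤ Xw G F l v y := by
  have h0 := chout (G := G) (l := l) (v := v) (y := y)
  have h1 := Xlow (F := F) (l := l) (v := v) hl
  have h2 := c.val hy hl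
  omega

/-- a hub with two low neighbours -/
theorem Xhub2 (c : Jx G F l h h' v w) {a y z : V} (ha : a ∈ G.N F) (hl : ¬ G.Low a)
    (hv : v ∈ G.nb a) (hy : y ∈ G.N F) (hz : z ∈ G.N F) (h1 : y ∈ G.nb a) (h2 : z ∈ G.nb a)
    (l1 : G.Low y) (l2 : G.Low z) (hne : y ≠ z) : 2 + 2 * (ch (l ∈ G.nb a) : ℤ) ≤
      Xw G F l v a := by
  have h3 := c.Xhub ha hl
  have h4 := Ln2 (G := G) (F := F) hy h1 l1 hz h2 l2 hne
  have h5 : ch (¬ (l ∈ G.nb a ∧ v ∈ G.nb a)) + ch (l ∈ G.nb a) = 1 := by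
    by_cases h5 : l ∈ G.nb a
    · rw [ch1 h5, ch0 (fun h6 => h6 ⟨h5, hv⟩)]
    · rw [ch0 h5, ch1 (fun h6 => h5 h6.1)]
  omega

/-- the sum over a subset -/
theorem subX (c : Jx G F l h h' v w) {S : Finset V} (hS : ∀ x ∈ S, x ∈ G.N F) :
    ∑ y ∈ S, Xw G F l v y ≤ ∑ y ∈ G.N F, Xw G F l v y :=
  sum_le_sum_of_subset_of_nonneg hS fun x hx _ => c.Xnn hx

theorem s2 (c : Jx G F l h h' v w) {a b : V} (ha : a ∈ G.N F) (hb : b ∈ G.N F) (ab : a ≠ b) :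
    Xw G F l v a + Xw G F l v b ≤ ∑ y ∈ G.N F, Xw G F l v y := by
  have h1 := c.subX (S := {a, b}) (by
    intro x hx
    simp only [mem_insert, mem_singleton] at hx
    rcases hx with rfl | rfl <;> assumption)
  rw [sum_pair ab] at h1
  exact h1

theorem s3 (c : Jx G F l h h' v w) {a b d : V} (ha : a ∈ G.N F) (hb : b ∈ G.N F)
    (hd : d ∈ G.N F) (ab : a ≠ b) (ad : a ≠ d) (bd : b ≠ d) :
    Xw G F l v a + (Xw G F l v b + Xw G F l v d) ≤ ∑ y ∈ G.N F, Xw G F l v y := by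
  have h1 := c.subX (S := {a, b, d}) (by
    intro x hx
    simp only [mem_insert, mem_singleton] at hx
    rcases hx with rfl | rfl | rfl <;> assumption)
  rw [sum_insert (by simp only [mem_insert, mem_singleton, not_or]; exact ⟨ab, ad⟩),
    sum_pair bd] at h1
  exact h1

theorem s4 (c : Jx G F l h h' v w) {a b d e : V} (ha : a ∈ G.N F) (hb : b ∈ G.N F)
    (hd : d ∈ G.N F) (he : e ∈ G.N F) (ab : a ≠ b) (ad : a ≠ d) (ae : a ≠ e) (bd : b ≠ d)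
    (be : b ≠ e) (de : d ≠ e) :
    Xw G F l v a + (Xw G F l v b + (Xw G F l v d + Xw G F l v e)) ≤
      ∑ y ∈ G.N F, Xw G F l v y := by
  have h1 := c.subX (S := {a, b, d, e}) (by
    intro x hx
    simp only [mem_insert, mem_singleton] at hx
    rcases hx with rfl | rfl | rfl | rfl <;> assumption)
  rw [sum_insert (by simp only [mem_insert, mem_singleton, not_or]; exact ⟨ab, ad, ae⟩),
    sum_insert (by simp only [mem_insert, mem_singleton, not_or]; exact ⟨bd, be⟩),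
    sum_pair de] at h1
  exact h1

theorem s5 (c : Jx G F l h h' v w) {a b d e f : V} (ha : a ∈ G.N F) (hb : b ∈ G.N F)
    (hd : d ∈ G.N F) (he : e ∈ G.N F) (hf : f ∈ G.N F) (ab : a ≠ b) (ad : a ≠ d) (ae : a ≠ e)
    (af : a ≠ f) (bd : b ≠ d) (be : b ≠ e) (bf : b ≠ f) (de : d ≠ e) (df : d ≠ f) (ef : e ≠ f) :
    Xw G F l v a + (Xw G F l v b + (Xw G F l v d + (Xw G F l v e + Xw G F l v f))) ≤
      ∑ y ∈ G.N F, Xw G F l v y := by
  have h1 := c.subX (S := {a, b, d, e, f}) (by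
    intro x hx
    simp only [mem_insert, mem_singleton] at hx
    rcases hx with rfl | rfl | rfl | rfl | rfl <;> assumption)
  rw [sum_insert (by simp only [mem_insert, mem_singleton, not_or]; exact ⟨ab, ad, ae, af⟩),
    sum_insert (by simp only [mem_insert, mem_singleton, not_or]; exact ⟨bd, be, bf⟩),
    sum_insert (by simp only [mem_insert, mem_singleton, not_or]; exact ⟨de, df⟩),
    sum_pair ef] at h1
  exact h1


/-! ### the hubs of `F` -/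

theorem e3 (c : Jx G F l h h' v w) (h1 : h ∈ G.nb v) (h2 : h ∉ G.nb l) :
    ∃ u ∈ G.N F, G.Low u ∧ v ∈ G.nb u ∧ h ∈ G.nb u := by
  rcases c.covv h1 with h3 | h3 | ⟨g, -, h3⟩ | ⟨a, -, b, -, h3, -⟩
  · exact absurd (G.sym _ _ h3) h2
  · exact h3
  · exact absurd (c.hL.sat _ _ _ h3) c.hh.1
  · exact absurd (c.hL.sat _ _ _ h3) c.hh.1

theorem HLh (c : Jx G F l h h' v w) {d : V} (hd : v ∈ G.nb d) (H : G.HL h l d) :
    an G F l v = 0 ∧ ch (h ∈ G.nb l) = 1 ∧ ch (h ∈ G.nb v) = 1 ∧ ch (h ∈ G.nb d) = 1 := by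
  refine ⟨?_, ch1 (G.sym _ _ (HL_b76 H)), ch1 (G.sym _ _ (HL_sub76 H (G.sym _ _ c.lv) c.hv.symm)),
    ch1 (G.sym _ _ (HL_t76 H))⟩
  by_contra h1
  obtain ⟨a, h2, h3, h4⟩ := c.an_ex (by omega)
  have h5 := G.sym _ _ (c.see2 h2 h3 h4).1
  rcases HL_sup76 H h5 (by
    rintro rfl
    exact h4 hd) with h6 | h6
  · exact c.neF h2 c.lF h6.symm
  · exact h3 (G.sym _ _ h6)

/-- number of the vertices that miss only `l` -/
theorem Wc (c : Jx G F l h h' v w) : ∑ y ∈ G.N F, ch (l ∉ G.nb y ∧ v ∈ G.nb y) + an G F l v =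
    2 + ch (h ∈ G.nb l) + ch (h' ∈ G.nb l) := by
  have h1 := c.missl
  rw [missS] at h1
  rw [← h1, an, ← sum_add_distrib]
  refine sum_congr rfl fun y _ => ?_
  by_cases q1 : l ∈ G.nb y
  · rw [ch0 (fun h3 => h3.1 q1), ch0 (fun h3 => h3.1 q1), ch0 (fun h3 => h3 q1)]
  · by_cases q2 : v ∈ G.nb y
    · rw [ch1 (show l ∉ G.nb y ∧ v ∈ G.nb y from ⟨q1, q2⟩), ch0 (fun h3 => h3.2 q2), ch1 q1]
    · rw [ch0 (fun h3 => q2 h3.2), ch1 (show l ∉ G.nb y ∧ v ∉ G.nb y from ⟨q1, q2⟩), ch1 q1]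

theorem k1a (c : Jx G F l h h' v w) {d : V} (hd : d ∈ G.N F)
    (lo : ∀ y ∈ G.N F, G.Low y → v ∈ G.nb y → y = d) :
    1 ≤ ch (h ∈ G.nb l) + ch (h ∈ G.nb d) := by
  by_contra h1
  have h2 := c.seeh hd
  have h3 := ch_le (h ∈ G.nb v)
  obtain ⟨u, h4, h5, h6, h7⟩ := c.e3 (ch_iff.1 (by omega)) (ch_eq0.1 (by omega))
  rw [lo u h4 h5 h6] at h7
  rw [ch1 h7] at h1
  omega

/-- one low vertex adjacent to the pair is not enough -/
theorem k1 (c : Jx G F l h h' v w) {d : V} (hd : d ∈ G.N F) (dl : G.Low d) (dv : v ∈ G.nb d)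
    (lo : ∀ y ∈ G.N F, G.Low y → v ∈ G.nb y → y = d) : False := by
  classical
  have a1 := c.k1a hd lo
  have a2 := c.symm.k1a hd lo
  have hW := c.Wc
  rw [sumch] at hW
  set S := (G.N F).filter (fun y => l ∉ G.nb y ∧ v ∈ G.nb y) with hS
  have hS1 : ∀ y ∈ S, y ≠ d → y ∈ G.pT F d := by
    intro y hy hne
    rw [hS, mem_filter] at hy
    obtain ⟨hyN, hyl, hyv⟩ := hy
    have hnl : ¬ G.Low y := fun h1 => hne (lo y hyN h1 hyv)
    rcases c.covv (G.sym _ _ hyv) with h1 | h1 | ⟨g, -, h1⟩ | ⟨a, -, b, -, h1, -⟩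
    · exact absurd h1 hyl
    · obtain ⟨u, h1, h2, h3, h4⟩ := h1
      rw [lo u h1 h2 h3] at h4
      exact mem_pT.2 ⟨h4, hyN⟩
    · exact absurd (c.hL.sat _ _ _ h1) hnl
    · exact absurd (c.hL.sat _ _ _ h1) hnl
  have hV := c.VX hd dl dv
  have hp := LHn (G := G) (F := F) d
  have han := c.an_le
  have e1 := ch_le (h ∈ G.nb l)
  have e2 := ch_le (h' ∈ G.nb l)
  by_cases hld : l ∈ G.nb d
  · have h1 : S ⊆ G.pT F d := by
      intro y hy
      refine hS1 y hy ?_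
      rintro rfl
      rw [hS, mem_filter] at hy
      exact hy.2.1 hld
    have h2 := card_le_card h1
    rw [ch1 hld] at hV
    omega
  · have h1 : S.erase d ⊆ G.pT F d := by
      intro y hy
      rw [mem_erase] at hy
      exact hS1 y hy.2 hy.1
    have h2 := card_le_card h1
    have h3 := pred_card_le_card_erase (s := S) (a := d)
    rw [ch0 hld] at hV
    rcases c.covv (G.sym _ _ dv) with h4 | h4 | ⟨g, hg, h4⟩ | ⟨a, -, b, hb, h4, h5, -⟩
    · exact hld h4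
    · obtain ⟨u, h4, h5, h6, h7⟩ := h4
      rw [lo u h4 h5 h6] at h7
      exact G.irr _ h7
    · rcases hg with rfl | rfl
      · have := c.HLh dv h4
        omega
      · have := c.symm.HLh dv h4
        omega
    · exact (HL_bt76 h4).2 (lo b hb h4.2.1 h5).symm

end Jx

/-- the sum is large enough -/
def Gl (G : CG V) (F : Finset V) (l h h' v : V) : Prop :=
  14 + 2 * (an G F l v : ℤ) ≤ ∑ y ∈ G.N F, Xw G F l v y + 2 * ((ch (h ∈ G.nb l) : ℤ) +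
    (ch (h' ∈ G.nb l) : ℤ) + (ch (h ∈ G.nb v) : ℤ) + (ch (h' ∈ G.nb v) : ℤ))

/-- two low vertices adjacent to the pair -/
structure Kx (G : CG V) (F : Finset V) (l h h' v w d d' : V) : Prop where
  c : Jx G F l h h' v w
  dN : d ∈ G.N F
  dN' : d' ∈ G.N F
  dl : G.Low d
  dl' : G.Low d'
  dv : v ∈ G.nb d
  dv' : v ∈ G.nb d'
  ne : d ≠ d'
  lo : ∀ y ∈ G.N F, G.Low y → v ∈ G.nb y → y = d ∨ y = d'

namespace Kx

variable {d d' : V}

theorem sD (k : Kx G F l h h' v w d d') : Kx G F l h h' v w d' d where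
  c := k.c
  dN := k.dN'
  dN' := k.dN
  dl := k.dl'
  dl' := k.dl
  dv := k.dv'
  dv' := k.dv
  ne := k.ne.symm
  lo := fun y h1 h2 h3 => (k.lo y h1 h2 h3).symm

theorem covd (k : Kx G F l h h' v w d d') : l ∈ G.nb d ∨ d ∈ G.nb d' ∨
    (an G F l v = 0 ∧ 2 ≤ ch (h ∈ G.nb l) + ch (h' ∈ G.nb l) + ch (h ∈ G.nb v) +
      ch (h' ∈ G.nb v) ∧ ∃ g ∈ F, G.HL g l d) ∨
    (∃ a ∈ G.N F, ¬ G.Low a ∧ v ∈ G.nb a ∧ G.HL a d' d) := by
  rcases k.c.covv (G.sym _ _ k.dv) with h1 | h1 | ⟨g, hg, h1⟩ | ⟨a, ha, b, hb, h1, h2, h3⟩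
  · exact Or.inl h1
  · obtain ⟨u, h1, h2, h3, h4⟩ := h1
    rcases k.lo u h1 h2 h3 with h5 | h5
    · rw [h5] at h4
      exact absurd h4 (G.irr _)
    · rw [h5] at h4
      exact Or.inr (Or.inl h4)
  · rcases hg with rfl | rfl
    · have := k.c.HLh k.dv h1
      exact Or.inr (Or.inr (Or.inl ⟨this.1, by omega, g, k.c.hF, h1⟩))
    · have := k.c.symm.HLh k.dv h1
      exact Or.inr (Or.inr (Or.inl ⟨this.1, by omega, g, k.c.hF', h1⟩))
  · rcases k.lo b hb h1.2.1 h2 with h5 | h5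
    · exact absurd h5.symm (HL_bt76 h1).2
    · rw [h5] at h1
      exact Or.inr (Or.inr (Or.inr ⟨a, ha, HL_not_low76 h1, h3, h1⟩))

theorem kZZ (k : Kx G F l h h' v w d d') (h1 : l ∈ G.nb d) (h2 : l ∈ G.nb d') :
    Gl G F l h h' v := by
  unfold Gl
  have v1 := k.c.VX k.dN k.dl k.dv
  have v2 := k.c.VX k.dN' k.dl' k.dv'
  have v3 := k.c.s2 k.dN k.dN' k.ne
  have v4 := k.c.seeh k.dN
  have v5 := k.c.symm.seeh k.dN
  have v6 := k.c.seeh k.dN'
  have v7 := k.c.symm.seeh k.dN'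
  have v8 := k.c.con
  have v9 := k.c.an_le
  rw [ch1 h1] at v1
  rw [ch1 h2] at v2
  omega

/-- both low vertices have no other neighbour in `N F` -/
theorem exc (k : Kx G F l h h' v w d d') (h1 : l ∉ G.nb d) (h2 : l ∈ G.nb d')
    (hadj : d ∈ G.nb d') (t1 : Ln G F d + Hn G F d = 1) (t2 : Ln G F d' + Hn G F d' = 1)
    (f1 : ch (h ∈ G.nb d') = 0) (f2 : ch (h' ∈ G.nb d') = 0) :
    ch (h ∈ G.nb l) = 0 ∧ ch (h' ∈ G.nb l) = 0 ∧ ch (h ∈ G.nb v) = 1 ∧ ch (h' ∈ G.nb v) = 1 ∧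
    ∃ x ∈ G.N F, x ≠ d ∧ x ≠ d' ∧ 2 ≤ Xw G F l v x := by
  classical
  have pd : ∀ x ∈ G.N F, x ∈ G.nb d → x = d' := by
    intro x hx hxd
    by_contra hne
    have := two_le5 (a := x) (b := d') (mem_pT.2 ⟨hxd, hx⟩)
      (mem_pT.2 ⟨G.sym _ _ hadj, k.dN'⟩) hne
    rw [LHn] at this
    omega
  have pd' : ∀ x ∈ G.N F, x ∈ G.nb d' → x = d := by
    intro x hx hxd
    by_contra hne
    have := two_le5 (a := x) (b := d) (mem_pT.2 ⟨hxd, hx⟩) (mem_pT.2 ⟨hadj, k.dN⟩) hne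
    rw [LHn] at this
    omega
  have Wd : ∀ y ∈ G.N F, v ∈ G.nb y → l ∉ G.nb y → y = d := by
    intro y hy hyv hyl
    by_cases hl : G.Low y
    · rcases k.lo y hy hl hyv with h3 | h3
      · exact h3
      · rw [h3] at hyl
        exact absurd h2 hyl
    · exfalso
      rcases k.c.covv (G.sym _ _ hyv) with h3 | h3 | ⟨g, -, h3⟩ | ⟨a, -, b, -, h3, -⟩
      · exact hyl h3
      · obtain ⟨u, h3, h4, h5, h6⟩ := h3
        rcases k.lo u h3 h4 h5 with h7 | h7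
        · rw [h7] at h6
          rw [pd y hy h6] at hl
          exact hl k.dl'
        · rw [h7] at h6
          rw [pd' y hy h6] at hl
          exact hl k.dl
      · exact hl (k.c.hL.sat _ _ _ h3)
      · exact hl (k.c.hL.sat _ _ _ h3)
  have hW := k.c.Wc
  have hW1 : ∑ y ∈ G.N F, ch (l ∉ G.nb y ∧ v ∈ G.nb y) ≤ 1 := by
    rw [sumch, Finset.card_le_one]
    intro x hx y hy
    rw [mem_filter] at hx hy
    rw [Wd x hx.1 hx.2.2 hx.2.1, Wd y hy.1 hy.2.2 hy.2.1]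
  have han := k.c.an_le
  have e1 : ch (h ∈ G.nb l) = 0 := by omega
  have e2 : ch (h' ∈ G.nb l) = 0 := by omega
  have q1 := k.c.seeh k.dN'
  have q2 := k.c.symm.seeh k.dN'
  have q3 := ch_le (h ∈ G.nb v)
  have q4 := ch_le (h' ∈ G.nb v)
  refine ⟨e1, e2, by omega, by omega, ?_⟩
  have hA := k.c.missv
  obtain ⟨a0, a0N, a0l, a0v⟩ := k.c.an_ex (by omega)
  have ha0 : a0 ∈ G.N F \ G.nb v := mem_sdiff.2 ⟨a0N, fun h3 => a0v (G.sym _ _ h3)⟩
  have hA2 := card_erase_of_mem ha0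
  obtain ⟨a1, a2, a12, hAe⟩ := card_eq_two.1
    (show ((G.N F \ G.nb v).erase a0).card = 2 by omega)
  have allA : ∀ x ∈ G.N F, v ∉ G.nb x → x = a0 ∨ x = a1 ∨ x = a2 := by
    intro x hx hxv
    by_cases h3 : x = a0
    · exact Or.inl h3
    · right
      have h4 : x ∈ (G.N F \ G.nb v).erase a0 :=
        mem_erase.2 ⟨h3, mem_sdiff.2 ⟨hx, fun h5 => hxv (G.sym _ _ h5)⟩⟩
      rw [hAe, mem_insert, mem_singleton] at h4
      exact h4
  have hmem : ∀ x, x = a1 ∨ x = a2 → x ∈ G.N F ∧ v ∉ G.nb x ∧ l ∈ G.nb x ∧ x ≠ a0 := by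
    intro x hx
    have h4 : x ∈ (G.N F \ G.nb v).erase a0 := by
      rw [hAe, mem_insert, mem_singleton]
      exact hx
    rw [mem_erase, mem_sdiff] at h4
    have h5 : v ∉ G.nb x := fun h6 => h4.2.2 (G.sym _ _ h6)
    refine ⟨h4.2.1, h5, ?_, h4.1⟩
    by_contra h6
    exact h4.1 (k.c.aOne h4.2.1 a0N h6 h5 a0l a0v)
  obtain ⟨a1N, a1v, a1l, a10⟩ := hmem a1 (Or.inl rfl)
  obtain ⟨a2N, a2v, a2l, a20⟩ := hmem a2 (Or.inr rfl)
  by_contra hcon
  have hno : ∀ x ∈ G.N F, (v ∉ G.nb x ∨ ¬ G.Low x) → ¬ 2 ≤ Xw G F l v x := by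
    intro x hx h3 h4
    refine hcon ⟨x, hx, ?_, ?_, h4⟩
    · rintro rfl
      rcases h3 with h3 | h3
      · exact h3 k.dv
      · exact h3 k.dl
    · rintro rfl
      rcases h3 with h3 | h3
      · exact h3 k.dv'
      · exact h3 k.dl'
  -- a vertex of `A` with a low neighbour is not low
  have hno2 : ∀ x ∈ G.N F, v ∉ G.nb x → ∀ u ∈ G.N F, G.Low u → x ∈ G.nb u → ¬ G.Low x := by
    intro x hx hxv u hu hul hxu hxl
    exact hno x hx (Or.inl hxv) (k.c.Xlow2 hx hxl (Ln1 hu (G.sym _ _ hxu) hul))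
  have key : ∀ a b, a ∈ G.N F → b ∈ G.N F → v ∉ G.nb a → v ∉ G.nb b → l ∈ G.nb a →
      l ∈ G.nb b → (∀ x ∈ G.N F, v ∉ G.nb x → x = a0 ∨ x = a ∨ x = b) →
      (G.Low b ∧ a ∈ G.nb b) ∨ (G.Low a0 ∧ a ∈ G.nb a0 ∧ G.HL b a0 l) := by
    intro a b aN bN av bv al bl all
    have hlowA : ∀ u ∈ G.N F, G.Low u → a ∈ G.nb u → v ∉ G.nb u := by
      intro u hu hul hau huv
      rcases k.lo u hu hul huv with h3 | h3
      · rw [h3] at hau
        rw [pd a aN hau] at av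
        exact av k.dv'
      · rw [h3] at hau
        rw [pd' a aN hau] at av
        exact av k.dv
    rcases k.c.covl (G.sym _ _ al) aN av with h3 | h3 | h3 | h3
    · obtain ⟨u, hu, hul, hlu, hau⟩ := h3
      left
      rcases all u hu (hlowA u hu hul hau) with h4 | h4 | h4
      · rw [h4] at hlu
        exact absurd hlu a0l
      · rw [h4] at hau
        exact absurd hau (G.irr _)
      · rw [h4] at hul hau
        exact ⟨hul, hau⟩
    · exfalso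
      obtain ⟨x, hx, y, hy, h3, h4, h5⟩ := h3
      have hyv : v ∉ G.nb y := by
        intro h6
        rcases k.lo y hy h3.2.1 h6 with h7 | h7
        · rw [h7] at h4
          exact h1 h4
        · have h8 := G.sym _ _ (HL_b76 h3)
          rw [h7] at h8
          have h9 := HL_not_low76 h3
          rw [pd' x hx h8] at h9
          exact h9 k.dl
      have h6 : 2 ≤ Ln G F x := Ln2 hy (HL_b76 h3) h3.2.1 aN (HL_t76 h3)
        (k.c.hL.sat _ _ _ h3) (HL_bt76 h3).2.symm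
      have h7 := k.c.Xhub hx (HL_not_low76 h3)
      have h8 := Jx.chout (G := G) (l := l) (v := v) (y := x)
      exact hno x hx (Or.inr (HL_not_low76 h3)) (by omega)
    · obtain ⟨x, hx, y, hy, h3, h4, h5⟩ := h3
      have hyv := hlowA y hy h3.2.1 h4
      have hya : y = a0 := k.c.aOne hy a0N (HL_bt76 h3).1 hyv a0l a0v
      rw [hya] at h3 h4
      right
      refine ⟨h3.2.1, h4, ?_⟩
      have hxv : v ∉ G.nb x := by
        intro h6
        have h7 := k.c.Xhub hx (HL_not_low76 h3)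
        rw [ch0 (fun h8 => h8 ⟨HL_t76 h3, h6⟩)] at h7
        have h8 : 1 ≤ Ln G F x := Ln1 a0N (HL_b76 h3) h3.2.1
        exact hno x hx (Or.inr (HL_not_low76 h3)) (by omega)
      rcases all x hx hxv with h6 | h6 | h6
      · have h7 := HL_t76 h3
        rw [h6] at h7
        exact absurd h7 a0l
      · rw [h6] at h5
        exact absurd h5 (G.irr _)
      · rw [h6] at h3
        exact h3
    · exfalso
      obtain ⟨x, hx, y, hy, h3⟩ := h3
      have h4 := LL_u76 h3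
      have hyv := hlowA y hy h3.2.1 h4
      exact hno2 y hy hyv x hx h3.1 (LL_ab76 h3) h3.2.1
  rcases key a1 a2 a1N a2N a1v a2v a1l a2l allA with ⟨h3, h4⟩ | ⟨h3, h4, h5⟩
  · rcases key a2 a1 a2N a1N a2v a1v a2l a1l (fun x hx hxv => by
      have := allA x hx hxv
      tauto) with ⟨h3', h4'⟩ | ⟨h3', h4', h5'⟩
    · exact hno2 a1 a1N a1v a2 a2N h3 h4 h3'
    · exact hno2 a2 a2N a2v a0 a0N h3' h4' h3
  · rcases key a2 a1 a2N a1N a2v a1v a2l a1l (fun x hx hxv => by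
      have := allA x hx hxv
      tauto) with ⟨h3', h4'⟩ | ⟨h3', h4', h5'⟩
    · exact hno2 a1 a1N a1v a0 a0N h3 h4 h3'
    · exact a12 ((stTwHL_5 G).one k.c.n9 _ _ _ _ h5' h5)

theorem kWZ (k : Kx G F l h h' v w d d') (h1 : l ∉ G.nb d) (h2 : l ∈ G.nb d')
    (hb : 1 ≤ ch (h ∈ G.nb d) + ch (h' ∈ G.nb d)) : Gl G F l h h' v := by
  unfold Gl
  have v1 := k.c.VX k.dN k.dl k.dv
  have v2 := k.c.VX k.dN' k.dl' k.dv'
  have v3 := k.c.s2 k.dN k.dN' k.ne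
  have v9 := k.c.an_le
  rw [ch0 h1] at v1
  rw [ch1 h2] at v2
  rcases k.covd with h3 | h3 | ⟨h3, h4, -⟩ | ⟨a, ha, h3, h4, h5⟩
  · exact absurd h3 h1
  · have w1 := Ln1 (G := G) (F := F) k.dN h3 k.dl
    have w2 := Ln1 (G := G) (F := F) k.dN' (G.sym _ _ h3) k.dl'
    have v4 := k.c.seeh k.dN
    have v5 := k.c.symm.seeh k.dN
    have v6 := k.c.seeh k.dN'
    have v7 := k.c.symm.seeh k.dN'
    have v8 := k.c.con
    by_cases hx : Ln G F d + Hn G F d = 1 ∧ Ln G F d' + Hn G F d' = 1 ∧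
        ch (h ∈ G.nb d') = 0 ∧ ch (h' ∈ G.nb d') = 0
    · obtain ⟨e1, e2, e3, e4, x, hx, xd, xd', hX⟩ := k.exc h1 h2 h3 hx.1 hx.2.1 hx.2.2.1 hx.2.2.2
      have := k.c.s3 k.dN k.dN' hx k.ne xd.symm xd'.symm
      omega
    · omega
  · omega
  · have h6 := HL_sub76 h5 h2 (k.c.neF ha k.c.lF)
    have h7 := k.c.Xhub2 ha h3 h4 k.dN' k.dN (HL_b76 h5) (HL_t76 h5) k.dl' k.dl k.ne.symm
    have ad : a ≠ d := by
      rintro rfl
      exact h3 k.dl
    have ad' : a ≠ d' := by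
      rintro rfl
      exact h3 k.dl'
    have := k.c.s3 k.dN k.dN' ha k.ne ad.symm ad'.symm
    have h8 := k.c.con
    rw [ch1 h6] at h7
    omega

theorem kWW (k : Kx G F l h h' v w d d') (h1 : l ∉ G.nb d) (h2 : l ∉ G.nb d')
    (hb : 1 ≤ ch (h ∈ G.nb d) + ch (h' ∈ G.nb d))
    (hb' : 1 ≤ ch (h ∈ G.nb d') + ch (h' ∈ G.nb d')) : Gl G F l h h' v := by
  unfold Gl
  have v1 := k.c.VX k.dN k.dl k.dv
  have v2 := k.c.VX k.dN' k.dl' k.dv'
  have v9 := k.c.an_le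
  have v8 := k.c.con
  rw [ch0 h1] at v1
  rw [ch0 h2] at v2
  rcases k.c.E2 with ⟨z, hz, h3, h4, h5⟩ | ⟨a, aN, b, bN, H, bv, av, al, bl, la, lb, ba, hX⟩
  · exfalso
    rcases k.lo z hz h3 h4 with h6 | h6
    · exact h1 (h6 ▸ h5)
    · exact h2 (h6 ▸ h5)
  have ad : a ≠ d := by
    rintro rfl
    exact al k.dl
  have ad' : a ≠ d' := by
    rintro rfl
    exact al k.dl'
  by_cases hadj : d ∈ G.nb d'
  · have w1 := Ln1 (G := G) (F := F) k.dN hadj k.dl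
    have w2 := Ln1 (G := G) (F := F) k.dN' (G.sym _ _ hadj) k.dl'
    have w3 := k.c.s3 k.dN k.dN' aN k.ne ad.symm ad'.symm
    rcases k.lo b bN bl bv with h6 | h6
    · rw [h6] at H ba
      have h7 := HL_sub76 H (G.sym _ _ hadj) ad'.symm
      have h8 := Hn1 (G := G) (F := F) aN (G.sym _ _ ba) al
      have h9 := k.c.Xhub2 aN al av k.dN k.dN' ba h7 k.dl k.dl' k.ne
      rw [ch1 la] at h9
      omega
    · rw [h6] at H ba
      have h7 := HL_sub76 H hadj ad.symm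
      have h8 := Hn1 (G := G) (F := F) aN (G.sym _ _ ba) al
      have h9 := k.c.Xhub2 aN al av k.dN' k.dN ba h7 k.dl' k.dl k.ne.symm
      rw [ch1 la] at h9
      omega
  · have w3 := k.c.s3 k.dN k.dN' aN k.ne ad.symm ad'.symm
    rcases k.covd with h3 | h3 | ⟨h3, h4, -⟩ | ⟨a1, a1N, a1l, a1v, H1⟩
    · exact absurd h3 h1
    · exact absurd h3 hadj
    · omega
    rcases k.sD.covd with h3 | h3 | ⟨h3, h4, -⟩ | ⟨a2, a2N, a2l, a2v, H2⟩
    · exact absurd h3 h2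
    · exact absurd (G.sym _ _ h3) hadj
    · omega
    have a12 : a1 ≠ a2 := by
      rintro rfl
      exact (stTwHL_5 G).nomut k.c.n9 _ _ _ _ _ H1 H2 rfl
    have x1 := k.c.Xhub2 a1N a1l a1v k.dN' k.dN (HL_b76 H1) (HL_t76 H1) k.dl' k.dl k.ne.symm
    have x2 := k.c.Xhub2 a2N a2l a2v k.dN k.dN' (HL_b76 H2) (HL_t76 H2) k.dl k.dl' k.ne
    have a1d : a1 ≠ d := by
      rintro rfl
      exact a1l k.dl
    have a1d' : a1 ≠ d' := by
      rintro rfl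
      exact a1l k.dl'
    have a2d : a2 ≠ d := by
      rintro rfl
      exact a2l k.dl
    have a2d' : a2 ≠ d' := by
      rintro rfl
      exact a2l k.dl'
    by_cases q1 : a = a1
    · rw [← q1] at x1 a12
      rw [ch1 la] at x1
      have w4 := k.c.s4 k.dN k.dN' aN a2N k.ne ad.symm a2d.symm ad'.symm a2d'.symm a12
      omega
    · by_cases q2 : a = a2
      · rw [← q2] at x2 a12
        rw [ch1 la] at x2
        have w4 := k.c.s4 k.dN k.dN' aN a1N k.ne ad.symm a1d.symm ad'.symm a1d'.symm a12.symm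
        omega
      · have w4 := k.c.s5 k.dN k.dN' aN a1N a2N k.ne ad.symm a1d.symm a2d.symm ad'.symm
          a1d'.symm a2d'.symm q1 q2 a12
        omega

/-- `d` sees only the pair -/
theorem kB (k : Kx G F l h h' v w d d') (n0 : l ∉ G.nb d) (n1 : h ∉ G.nb d) (n2 : h' ∉ G.nb d) :
    Gl G F l h h' v := by
  unfold Gl
  have v1 := k.c.VX k.dN k.dl k.dv
  have v2 := k.c.VX k.dN' k.dl' k.dv'
  have v9 := k.c.an_le
  have v4 := k.c.seeh k.dN
  have v5 := k.c.symm.seeh k.dN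
  rw [ch0 n0, ch0 n1, ch0 n2] at v1
  rw [ch0 n1] at v4
  rw [ch0 n2] at v5
  have nd : 1 ≤ ch (l ∈ G.nb d') + ch (h ∈ G.nb d') + ch (h' ∈ G.nb d') := by
    by_contra h3
    exact k.ne (k.c.bOne k.dN k.dN' n0 n1 n2 (ch_eq0.1 (by omega)) (ch_eq0.1 (by omega))
      (ch_eq0.1 (by omega)))
  -- the hubs missed by `d'`
  have key : ∀ {h h' : V}, Kx G F l h h' v w d d' → h ∉ G.nb d →
      1 ≤ ch (h ∈ G.nb l) + ch (h ∈ G.nb d') ∧ 1 ≤ ch (h ∈ G.nb v) + ch (h ∈ G.nb d') := by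
    intro h h' k n1
    have v4 := k.c.seeh k.dN
    rw [ch0 n1] at v4
    constructor
    · by_contra h3
      have h4 := ch_le (h ∈ G.nb v)
      obtain ⟨u, h5, h6, h7, h8⟩ := k.c.e3 (ch_iff.1 (by omega)) (ch_eq0.1 (by omega))
      rcases k.lo u h5 h6 h7 with h9 | h9
      · exact n1 (h9 ▸ h8)
      · rw [h9] at h8
        rw [ch1 h8] at h3
        omega
    · by_contra h3
      have h4 := k.c.missh
      have h5 := ch_le (h' ∈ G.nb h)
      have h6 := ch_le (h ∈ G.nb l)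
      have h7 : h ∉ G.nb d' := ch_eq0.1 (by omega)
      have h8 := two_le5 (S := G.N F \ G.nb h) (a := d) (b := d')
        (mem_sdiff.2 ⟨k.dN, fun h9 => n1 (G.sym _ _ h9)⟩)
        (mem_sdiff.2 ⟨k.dN', fun h9 => h7 (G.sym _ _ h9)⟩) k.ne
      omega
  have ksym : Kx G F l h' h v w d d' := ⟨k.c.symm, k.dN, k.dN', k.dl, k.dl', k.dv, k.dv', k.ne,
    k.lo⟩
  obtain ⟨w1, w2⟩ := key k n1
  obtain ⟨w3, w4⟩ := key ksym n2
  have u1 := ch_le (h ∈ G.nb d')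
  have u2 := ch_le (h' ∈ G.nb d')
  have hcov : d ∈ G.nb d' ∨ ∃ a ∈ G.N F, ¬ G.Low a ∧ v ∈ G.nb a ∧ G.HL a d' d := by
    rcases k.c.covv (G.sym _ _ k.dv) with h1 | h1 | ⟨g, hg, h1⟩ | ⟨a, ha, b, hb, h1, h2, h3⟩
    · exact absurd h1 n0
    · obtain ⟨u, h1, h2, h3, h4⟩ := h1
      rcases k.lo u h1 h2 h3 with h5 | h5
      · rw [h5] at h4
        exact absurd h4 (G.irr _)
      · rw [h5] at h4
        exact Or.inl h4
    · exfalso
      rcases hg with rfl | rfl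
      · exact n1 (G.sym _ _ (HL_t76 h1))
      · exact n2 (G.sym _ _ (HL_t76 h1))
    · rcases k.lo b hb h1.2.1 h2 with h5 | h5
      · exact absurd h5.symm (HL_bt76 h1).2
      · rw [h5] at h1
        exact Or.inr ⟨a, ha, HL_not_low76 h1, h3, h1⟩
  have w5 := k.c.s2 k.dN k.dN' k.ne
  by_cases h2 : l ∈ G.nb d'
  · rw [ch1 h2] at v2
    rcases hcov with h3 | ⟨a, aN, al, av, H⟩
    · have w6 := Ln1 (G := G) (F := F) k.dN h3 k.dl
      have w7 := Ln1 (G := G) (F := F) k.dN' (G.sym _ _ h3) k.dl'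
      omega
    · have h6 := HL_sub76 H h2 (k.c.neF aN k.c.lF)
      have h7 := k.c.Xhub2 aN al av k.dN' k.dN (HL_b76 H) (HL_t76 H) k.dl' k.dl k.ne.symm
      have h8 := Hn1 (G := G) (F := F) aN (G.sym _ _ (HL_b76 H)) al
      have ad : a ≠ d := by
        rintro rfl
        exact al k.dl
      have ad' : a ≠ d' := by
        rintro rfl
        exact al k.dl'
      have := k.c.s3 k.dN k.dN' aN k.ne ad.symm ad'.symm
      rw [ch1 h6] at h7
      omega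
  · rw [ch0 h2] at v2 nd
    rcases k.c.E2 with ⟨z, hz, h3, h4, h5⟩ | ⟨a, aN, b, bN, H, bv, av, al, bl, la, lb, ba, hX⟩
    · exfalso
      rcases k.lo z hz h3 h4 with h6 | h6
      · exact n0 (h6 ▸ h5)
      · exact h2 (h6 ▸ h5)
    have ad : a ≠ d := by
      rintro rfl
      exact al k.dl
    have ad' : a ≠ d' := by
      rintro rfl
      exact al k.dl'
    have hadj : d ∈ G.nb d' := by
      rcases hcov with h3 | ⟨x, xN, xl, xv, H1⟩
      · exact h3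
      rcases k.c.covv (G.sym _ _ k.dv') with h3 | h3 | ⟨g, hg, h3⟩ | ⟨y, yN, z, zN, h3, zv, yv⟩
      · exact absurd h3 h2
      · obtain ⟨u, h3, h4, h5, h6⟩ := h3
        rcases k.lo u h3 h4 h5 with h7 | h7
        · rw [h7] at h6
          exact G.sym _ _ h6
        · rw [h7] at h6
          exact absurd h6 (G.irr _)
      · exfalso
        have gF : g ∈ F := by
          rcases hg with rfl | rfl
          · exact k.c.hF
          · exact k.c.hF'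
        have h4 : g ∈ G.nb x := HL_sub76 H1 (G.sym _ _ (HL_t76 h3)) (k.c.neF xN gF)
        have xd' : x ≠ d' := ne_of_nb5 (HL_b76 H1)
        rcases HL_sup76 h3 (G.sym _ _ h4) xd' with h5 | h5
        · exact k.c.neF xN k.c.lF h5.symm
        · rcases HL_sup76 H1 (G.sym _ _ h5) (k.c.neF k.dN k.c.lF) with h6 | h6
          · exact k.c.neF k.dN' k.c.lF h6
          · exact h2 h6
      · exfalso
        have hz : z = d := by
          rcases k.lo z zN h3.2.1 zv with h4 | h4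
          · exact h4
          · exact absurd h4.symm (HL_bt76 h3).2
        rw [hz] at h3
        have hn : ∀ x ∈ F, x ∉ G.nb d → x ∉ G.nb y := by
          intro x hx h4 h5
          rcases HL_sup76 h3 h5 (k.c.neF k.dN' hx) with h6 | h6
          · exact k.c.neF k.dN hx h6
          · exact h4 h6
        exact (ne_of_nb5 (HL_b76 h3)) (k.c.bOne yN k.dN (hn _ k.c.lF n0) (hn _ k.c.hF n1)
          (hn _ k.c.hF' n2) n0 n1 n2)
    have w6 := Ln1 (G := G) (F := F) k.dN hadj k.dl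
    have w7 := Ln1 (G := G) (F := F) k.dN' (G.sym _ _ hadj) k.dl'
    have w8 := k.c.s3 k.dN k.dN' aN k.ne ad.symm ad'.symm
    have h7 : d' ∈ G.nb a := by
      rcases k.lo b bN bl bv with h6 | h6
      · rw [h6] at H
        exact HL_sub76 H (G.sym _ _ hadj) ad'.symm
      · rw [h6] at ba
        exact ba
    have h8 := Hn1 (G := G) (F := F) aN (G.sym _ _ h7) al
    omega

end Kx

/-- three low vertices -/
theorem three_low (c : Jx G F l h h' v w) {d1 d2 d3 : V} (n1 : d1 ∈ G.N F) (n2 : d2 ∈ G.N F)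
    (n3 : d3 ∈ G.N F) (l1 : G.Low d1) (l2 : G.Low d2) (l3 : G.Low d3) (v1 : v ∈ G.nb d1)
    (v2 : v ∈ G.nb d2) (v3 : v ∈ G.nb d3) (d12 : d1 ≠ d2) (d13 : d1 ≠ d3) (d23 : d2 ≠ d3)
    (lo : ∀ y ∈ G.N F, G.Low y → v ∈ G.nb y → y = d1 ∨ y = d2 ∨ y = d3)
    (hb : ∀ y ∈ G.N F, G.Low y → v ∈ G.nb y →
      1 ≤ ch (l ∈ G.nb y) + ch (h ∈ G.nb y) + ch (h' ∈ G.nb y)) : Gl G F l h h' v := by
  unfold Gl
  have x1 := c.VX n1 l1 v1
  have x2 := c.VX n2 l2 v2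
  have x3 := c.VX n3 l3 v3
  have y1 := hb d1 n1 l1 v1
  have y2 := hb d2 n2 l2 v2
  have y3 := hb d3 n3 l3 v3
  have v9 := c.an_le
  have v8 := c.con
  have s := c.s3 n1 n2 n3 d12 d13 d23
  rcases c.E2 with ⟨z, hz, h3, h4, h5⟩ | ⟨a, aN, b, bN, H, bv, av, al, bl, la, lb, ba, hX⟩
  · rcases lo z hz h3 h4 with h6 | h6 | h6
    · rw [h6] at h5
      rw [ch1 h5] at x1
      omega
    · rw [h6] at h5
      rw [ch1 h5] at x2
      omega
    · rw [h6] at h5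
      rw [ch1 h5] at x3
      omega
  · have a1 : a ≠ d1 := by
      rintro rfl
      exact al l1
    have a2 : a ≠ d2 := by
      rintro rfl
      exact al l2
    have a3 : a ≠ d3 := by
      rintro rfl
      exact al l3
    have s' := c.s4 n1 n2 n3 aN d12 d13 a1.symm d23 a2.symm a3.symm
    omega

/-- three low vertices, the first one sees only the pair -/
theorem three_b (c : Jx G F l h h' v w) {d1 d2 d3 : V} (n1 : d1 ∈ G.N F) (n2 : d2 ∈ G.N F)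
    (n3 : d3 ∈ G.N F) (l1 : G.Low d1) (l2 : G.Low d2) (l3 : G.Low d3) (v1 : v ∈ G.nb d1)
    (v2 : v ∈ G.nb d2) (v3 : v ∈ G.nb d3) (d12 : d1 ≠ d2) (d13 : d1 ≠ d3) (d23 : d2 ≠ d3)
    (lo : ∀ y ∈ G.N F, G.Low y → v ∈ G.nb y → y = d1 ∨ y = d2 ∨ y = d3)
    (b0 : l ∉ G.nb d1) (b1 : h ∉ G.nb d1) (b2 : h' ∉ G.nb d1) : Gl G F l h h' v := by
  unfold Gl
  have x1 := c.VX n1 l1 v1
  have x2 := c.VX n2 l2 v2
  have x3 := c.VX n3 l3 v3
  have hb : ∀ y ∈ G.N F, y ≠ d1 →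
      1 ≤ ch (l ∈ G.nb y) + ch (h ∈ G.nb y) + ch (h' ∈ G.nb y) := by
    intro y hy hne
    by_contra h3
    exact hne (c.bOne hy n1 (ch_eq0.1 (by omega)) (ch_eq0.1 (by omega)) (ch_eq0.1 (by omega))
      b0 b1 b2)
  have y2 := hb d2 n2 d12.symm
  have y3 := hb d3 n3 d13.symm
  have v9 := c.an_le
  have v4 := c.seeh n1
  have v5 := c.symm.seeh n1
  rw [ch0 b0, ch0 b1, ch0 b2] at x1
  rw [ch0 b1] at v4
  rw [ch0 b2] at v5
  have hne : ∀ a, ¬ G.Low a → a ≠ d1 ∧ a ≠ d2 ∧ a ≠ d3 := by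
    intro a al
    refine ⟨?_, ?_, ?_⟩
    · rintro rfl
      exact al l1
    · rintro rfl
      exact al l2
    · rintro rfl
      exact al l3
  -- the cover of `v d1`
  have hcov : 2 ≤ Xw G F l v d1 ∨ ∃ x ∈ G.N F, ¬ G.Low x ∧
      2 + 2 * (ch (l ∈ G.nb x) : ℤ) ≤ Xw G F l v x := by
    rcases c.covv (G.sym _ _ v1) with h1 | h1 | ⟨g, hg, h1⟩ | ⟨x, hx, b, hb', h1, h2, h3⟩
    · exact absurd h1 b0
    · obtain ⟨u, h1, h2, h3, h4⟩ := h1
      left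
      have := Ln1 (G := G) (F := F) h1 (G.sym _ _ h4) h2
      omega
    · exfalso
      rcases hg with rfl | rfl
      · exact b1 (G.sym _ _ (HL_t76 h1))
      · exact b2 (G.sym _ _ (HL_t76 h1))
    · right
      exact ⟨x, hx, HL_not_low76 h1, c.Xhub2 hx (HL_not_low76 h1) h3 hb' n1 (HL_b76 h1)
        (HL_t76 h1) h1.2.1 l1 (HL_bt76 h1).2.symm⟩
  rcases c.E2 with ⟨z, hz, h3, h4, h5⟩ | ⟨a, aN, b, bN, H, bv, av, al, bl, la, lb, ba, hX⟩
  · have hz2 : 1 ≤ ch (l ∈ G.nb d2) + ch (l ∈ G.nb d3) := by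
      rcases lo z hz h3 h4 with h6 | h6 | h6
      · exact absurd (h6 ▸ h5) b0
      · rw [h6] at h5
        rw [ch1 h5]
        omega
      · rw [h6] at h5
        rw [ch1 h5]
        omega
    rcases hcov with h6 | ⟨x, xN, xl, hX⟩
    · have s := c.s3 n1 n2 n3 d12 d13 d23
      omega
    · obtain ⟨q1, q2, q3⟩ := hne x xl
      have s := c.s4 n1 n2 n3 xN d12 d13 q1.symm d23 q2.symm q3.symm
      omega
  · obtain ⟨p1, p2, p3⟩ := hne a al
    have s := c.s4 n1 n2 n3 aN d12 d13 p1.symm d23 p2.symm p3.symm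
    rcases hcov with h6 | ⟨x, xN, xl, hX'⟩
    · omega
    · by_cases hxa : x = a
      · rw [hxa, ch1 la] at hX'
        omega
      · obtain ⟨q1, q2, q3⟩ := hne x xl
        have s := c.s5 n1 n2 n3 aN xN d12 d13 p1.symm q1.symm d23 p2.symm q2.symm p3.symm q3.symm
          (Ne.symm hxa)
        omega

theorem Jx.main (c : Jx G F l h h' v w) : Gl G F l h h' v := by
  classical
  set K := (G.N F).filter (fun y => G.Low y ∧ v ∈ G.nb y) with hK
  have hKm : ∀ y, y ∈ K ↔ y ∈ G.N F ∧ G.Low y ∧ v ∈ G.nb y := by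
    intro y
    rw [hK, mem_filter]
  have hne : ∀ y ∈ K, K.card ≠ 1 := by
    intro y hy h1
    obtain ⟨z, hz⟩ := card_eq_one.1 h1
    have h2 : z ∈ K := by
      rw [hz]
      exact mem_singleton_self _
    obtain ⟨h3, h4, h5⟩ := (hKm z).1 h2
    refine c.k1 h3 h4 h5 ?_
    intro x hx hxl hxv
    have h6 : x ∈ K := (hKm x).2 ⟨hx, hxl, hxv⟩
    rw [hz, mem_singleton] at h6
    exact h6
  have hpos : 1 ≤ K.card := by
    rw [Nat.succ_le_iff, Finset.card_pos]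
    rcases c.E2 with ⟨z, hz, h3, h4, h5⟩ | ⟨a, aN, b, bN, H, bv, av, al, bl, la, lb, ba, hX⟩
    · exact ⟨z, (hKm z).2 ⟨hz, h3, h4⟩⟩
    · exact ⟨b, (hKm b).2 ⟨bN, bl, bv⟩⟩
  have h1 : K.card ≠ 1 := by
    intro h1
    obtain ⟨z, hz⟩ := card_eq_one.1 h1
    exact hne z (by rw [hz]; exact mem_singleton_self _) h1
  have v9 := c.an_le
  have v8 := c.con
  by_cases hb : ∃ b ∈ K, l ∉ G.nb b ∧ h ∉ G.nb b ∧ h' ∉ G.nb b
  · obtain ⟨b, hbK, b0, b1, b2⟩ := hb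
    obtain ⟨bN, bl, bv⟩ := (hKm b).1 hbK
    have hE := card_erase_of_mem hbK
    have hEm : ∀ y, y ∈ K.erase b ↔ y ≠ b ∧ y ∈ G.N F ∧ G.Low y ∧ v ∈ G.nb y := by
      intro y
      rw [mem_erase, hKm]
    have hlo : ∀ y ∈ G.N F, G.Low y → v ∈ G.nb y → y = b ∨ y ∈ K.erase b := by
      intro y hy hyl hyv
      by_cases h2 : y = b
      · exact Or.inl h2
      · exact Or.inr ((hEm y).2 ⟨h2, hy, hyl, hyv⟩)
    have h2 : K.card = 2 ∨ K.card = 3 ∨ 4 ≤ K.card := by omega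
    rcases h2 with h2 | h2 | h2
    · obtain ⟨d, hd⟩ := card_eq_one.1 (show (K.erase b).card = 1 by omega)
      obtain ⟨db, dN, dl, dv⟩ := (hEm d).1 (by rw [hd]; simp)
      refine Kx.kB (d := b) (d' := d) (w := w) ⟨c, bN, dN, bl, dl, bv, dv, db.symm, ?_⟩ b0 b1 b2
      intro y hy hyl hyv
      have := hlo y hy hyl hyv
      rw [hd, mem_singleton] at this
      exact this
    · obtain ⟨d, e, de, hd⟩ := card_eq_two.1 (show (K.erase b).card = 2 by omega)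
      obtain ⟨db, dN, dl, dv⟩ := (hEm d).1 (by rw [hd]; simp)
      obtain ⟨eb, eN, el, ev⟩ := (hEm e).1 (by rw [hd]; simp)
      refine three_b c bN dN eN bl dl el bv dv ev db.symm eb.symm de ?_ b0 b1 b2
      intro y hy hyl hyv
      have := hlo y hy hyl hyv
      rw [hd, mem_insert, mem_singleton] at this
      exact this
    · unfold Gl
      have h3 : ∀ y ∈ K.erase b, (4 : ℤ) ≤ Xw G F l v y := by
        intro y hy
        obtain ⟨yb, yN, yl, yv⟩ := (hEm y).1 hy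
        have h4 := c.VX yN yl yv
        have h5 : 1 ≤ ch (l ∈ G.nb y) + ch (h ∈ G.nb y) + ch (h' ∈ G.nb y) := by
          by_contra h3
          exact yb (c.bOne yN bN (ch_eq0.1 (by omega)) (ch_eq0.1 (by omega))
            (ch_eq0.1 (by omega)) b0 b1 b2)
        omega
      have h4 := card_nsmul_le_sum (K.erase b) (fun y => Xw G F l v y) 4 h3
      rw [nsmul_eq_mul] at h4
      have h5 := c.subX (S := K.erase b) (fun x hx => ((hEm x).1 hx).2.1)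
      have v4 := c.seeh bN
      have v5 := c.symm.seeh bN
      rw [ch0 b1] at v4
      rw [ch0 b2] at v5
      have h6 : (3 : ℤ) ≤ ((K.erase b).card : ℤ) := by
        have : 3 ≤ (K.erase b).card := by omega
        exact_mod_cast this
      omega
  · have hbb : ∀ y ∈ G.N F, G.Low y → v ∈ G.nb y →
        1 ≤ ch (l ∈ G.nb y) + ch (h ∈ G.nb y) + ch (h' ∈ G.nb y) := by
      intro y hy hyl hyv
      by_contra h3
      exact hb ⟨y, (hKm y).2 ⟨hy, hyl, hyv⟩, ch_eq0.1 (by omega), ch_eq0.1 (by omega),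
        ch_eq0.1 (by omega)⟩
    have h2 : K.card = 2 ∨ K.card = 3 ∨ 4 ≤ K.card := by omega
    rcases h2 with h2 | h2 | h2
    · obtain ⟨d, e, de, hd⟩ := card_eq_two.1 h2
      obtain ⟨dN, dl, dv⟩ := (hKm d).1 (by rw [hd]; simp)
      obtain ⟨eN, el, ev⟩ := (hKm e).1 (by rw [hd]; simp)
      have k : Kx G F l h h' v w d e := ⟨c, dN, eN, dl, el, dv, ev, de, by
        intro y hy hyl hyv
        have : y ∈ K := (hKm y).2 ⟨hy, hyl, hyv⟩
        rw [hd, mem_insert, mem_singleton] at this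
        exact this⟩
      have y1 := hbb d dN dl dv
      have y2 := hbb e eN el ev
      by_cases q1 : l ∈ G.nb d
      · by_cases q2 : l ∈ G.nb e
        · exact k.kZZ q1 q2
        · rw [ch0 q2, zero_add] at y2
          exact k.sD.kWZ q2 q1 y2
      · rw [ch0 q1, zero_add] at y1
        by_cases q2 : l ∈ G.nb e
        · exact k.kWZ q1 q2 y1
        · rw [ch0 q2, zero_add] at y2
          exact k.kWW q1 q2 y1 y2
    · obtain ⟨d1, d2, d3, d12, d13, d23, hd⟩ := Finset.card_eq_three.1 h2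
      obtain ⟨n1, l1, v1⟩ := (hKm d1).1 (by rw [hd]; simp)
      obtain ⟨n2, l2, v2⟩ := (hKm d2).1 (by rw [hd]; simp)
      obtain ⟨n3, l3, v3⟩ := (hKm d3).1 (by rw [hd]; simp)
      refine three_low c n1 n2 n3 l1 l2 l3 v1 v2 v3 d12 d13 d23 ?_ hbb
      intro y hy hyl hyv
      have : y ∈ K := (hKm y).2 ⟨hy, hyl, hyv⟩
      rw [hd, mem_insert, mem_insert, mem_singleton] at this
      exact this
    · unfold Gl
      have h3 : ∀ y ∈ K, (4 : ℤ) ≤ Xw G F l v y := by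
        intro y hy
        obtain ⟨yN, yl, yv⟩ := (hKm y).1 hy
        have h4 := c.VX yN yl yv
        have h5 := hbb y yN yl yv
        omega
      have h4 := card_nsmul_le_sum K (fun y => Xw G F l v y) 4 h3
      rw [nsmul_eq_mul] at h4
      have h5 := c.subX (S := K) (fun x hx => ((hKm x).1 hx).1)
      have h6 : (4 : ℤ) ≤ (K.card : ℤ) := by exact_mod_cast h2
      omega

end J5x33

open J5x33 in
/-- J5b -/
theorem st7LHHQb_33 (G : CG V) (hBas : G.StLBas) (hB : G.StLB) (h7 : G.St7Bas) :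
    G.St7LHHQb := by
  intro F hF l h h' v w hFe hne hll hh hh' htw hlv hnt
  have c : Jx G F l h h' v w := by
    refine ⟨hF.1, hF.2, hBas, hB, h7, ?_, ?_, ?_, ?_, ?_, ?_, hll, hh, hh', htw, hne, hlv, hnt⟩
    · rw [hFe]; simp
    · rw [hFe]; simp
    · rw [hFe]; simp
    · rw [hFe]; simp
    · rw [hFe]; simp
    · intro x hx
      rw [hFe] at hx
      simpa using hx
  have h1 := c.main
  unfold Gl at h1
  rw [c.red]
  linarith

end CG

end Pool.Agent.Lib.MP_e95c01_co.N
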