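import Pool.Agent.Lib.MP_e95c01_co.X.J5Cx_16

/-!
# `λ = 3`, fragments with five vertices: a low, two hubs and a pair; a pair of twins in `N F` that
misses the low or the pair (J5c)
-/

namespace Pool.Agent.Lib.MP_e95c01_co.N

open Finset

variable {V : Type} [Fintype V] [DecidableEq V]

namespace CG

namespace J5c16

open H6x33 (ch1 ch0 ch_le ch_iff ch_eq0 card_ch)


variable {G : CG V} {F : Finset V} {l h h' v w P P' d : V}

/-- a pair of `N F` with the low neighbour `d` -/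
structure Pr (G : CG V) (F : Finset V) (P P' d : V) : Prop where
  mP : P ∈ G.N F
  mP' : P' ∈ G.N F
  md : d ∈ G.N F
  tw : G.Tw P P'
  dl : G.Low d
  f : G.d P F = 3
  f' : G.d P' F = 3
  pT : G.pT F P = {P', d}
  pT' : G.pT F P' = {P, d}

/-- the other vertices of `N F` -/
def RR (G : CG V) (F : Finset V) (P P' d : V) : Finset V := (((G.N F).erase P).erase P').erase d

theorem mem_RR {x : V} : x ∈ RR G F P P' d ↔ x ∈ G.N F ∧ x ≠ P ∧ x ≠ P' ∧ x ≠ d := by
  rw [RR, mem_erase, mem_erase, mem_erase]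
  tauto

namespace Cx

theorem par (c : Cx G F l h h' v w) {x y : V} (hx : x ∈ G.N F) (ht : G.Tw x y) : y ∈ G.N F :=
  (c.bas.twT F c.L.1 x y ht).1 hx

/-- a twin vertex has at most one neighbour in `N F` besides its partner -/
theorem tw_nb (c : Cx G F l h h' v w) {a b : V} (hP : P ∈ G.N F) (ht : G.Tw P P')
    (ha : a ∈ G.pT F P) (hb : b ∈ G.pT F P) (ha' : a ≠ P') (hb' : b ≠ P') : a = b := by
  by_contra hne
  have hP' : P' ∈ G.pT F P := mem_inter.2 ⟨ht.1, c.par hP ht⟩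
  have h1 : ({P', a, b} : Finset V) ⊆ G.pT F P := by
    intro x hx
    simp only [mem_insert, mem_singleton] at hx
    rcases hx with rfl | rfl | rfl <;> assumption
  have h2 := card_le_card h1
  have h3 : ({P', a, b} : Finset V).card = 3 :=
    card_eq_three.2 ⟨P', a, b, ha'.symm, hb'.symm, hne, rfl⟩
  have h4 := (c.b.tw F c.L.1 P hP ⟨_, ht⟩).2.2.2.1
  have h5 := (c.s7.tw3 F c.L P hP ⟨_, ht⟩).1
  omega

theorem pr1 (c : Cx G F l h h' v w) (hP : P ∈ G.N F) (ht : G.Tw P P') (hd : d ∈ G.N F)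
    (hl : G.Low d) (hdP : P ∈ G.nb d) : G.pT F P = {P', d} ∧ G.d P F = 3 := by
  have hP' : P' ∈ G.pT F P := mem_inter.2 ⟨ht.1, c.par hP ht⟩
  have hd' : d ∈ G.pT F P := mem_inter.2 ⟨G.sym _ _ hdP, hd⟩
  have hne : d ≠ P' := fun e => not_low33 ⟨_, ht.sym33⟩ (e ▸ hl)
  have h1 : G.pT F P = {P', d} := by
    ext x
    rw [mem_insert, mem_singleton]
    constructor
    · intro hx
      by_cases hxP : x = P'
      · exact Or.inl hxP
      · exact Or.inr (c.tw_nb hP ht hx hd' hxP hne)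
    · rintro (rfl | rfl)
      · exact hP'
      · exact hd'
  refine ⟨h1, ?_⟩
  have h4 := (c.b.tw F c.L.1 P hP ⟨_, ht⟩).2.2.2.1
  have h5 := (c.s7.tw3 F c.L P hP ⟨_, ht⟩).1
  rw [h1, card_pair hne.symm] at h4
  omega

theorem pr (c : Cx G F l h h' v w) (hP : P ∈ G.N F) (ht : G.Tw P P') (hd : d ∈ G.N F)
    (hl : G.Low d) (hdP : P ∈ G.nb d) : Pr G F P P' d := by
  have hne : d ≠ P' := fun e => not_low33 ⟨_, ht.sym33⟩ (e ▸ hl)
  obtain ⟨h1, h2⟩ := c.pr1 hP ht hd hl hdP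
  obtain ⟨h3, h4⟩ := c.pr1 (c.par hP ht) ht.sym33 hd hl
    (G.sym _ _ (Tw_nb5 ht (G.sym _ _ hdP) hne))
  exact ⟨hP, c.par hP ht, hd, ht, hl, h2, h4, h1, h3⟩

theorem tw_ne (c : Cx G F l h h' v w) {a b : V} (ht : G.Tw P P') (hab : G.Tw a b)
    (h2 : P ∈ G.nb b) : a ≠ P' := by
  rintro rfl
  rw [c.uniq hab ht.sym33] at h2
  exact G.irr _ h2

theorem no_tw (c : Cx G F l h h' v w) {a b : V} (hP : P ∈ G.N F) (ht : G.Tw P P')
    (ha : a ∈ G.N F) (hb : b ∈ G.N F) (hab : G.Tw a b) (h1 : P ∈ G.nb a) (h2 : P ∈ G.nb b) :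
    False :=
  hab.ne33 (c.tw_nb hP ht (mem_inter.2 ⟨G.sym _ _ h1, ha⟩) (mem_inter.2 ⟨G.sym _ _ h2, hb⟩)
    (c.tw_ne ht hab h2) (c.tw_ne ht hab.sym33 h1))

/-- the low neighbour of a pair -/
theorem step1 (c : Cx G F l h h' v w) (hP : P ∈ G.N F) (ht : G.Tw P P')
    (hno : l ∉ G.nb P ∨ v ∉ G.nb P) :
    ∃ d, Pr G F P P' d ∧ ((l ∉ G.nb P ∧ v ∈ G.nb P ∧ v ∈ G.nb d) ∨
      (v ∉ G.nb P ∧ l ∈ G.nb P ∧ h ∈ G.nb P ∧ h' ∈ G.nb P ∧ l ∈ G.nb d)) := by
  by_cases hv : v ∈ G.nb P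
  · have hl : l ∉ G.nb P := by
      rcases hno with h1 | h1
      · exact h1
      · exact absurd hv h1
    rcases c.covv (G.sym _ _ hv) with ⟨u, hu, k1, k2, k3⟩ | k | ⟨a, ha, b, hb, k, k1, k2⟩ |
      ⟨a, ha, k⟩ | ⟨a, ha, b, hb, k, -⟩
    · exact ⟨u, c.pr hP ht hu k1 k3, Or.inl ⟨hl, hv, k2⟩⟩
    · exact absurd (G.sym _ _ k) hl
    · exact (c.no_tw hP ht ha hb k k1 k2).elim
    · exact absurd (c.L.1.sat _ _ _ k) (not_low33 ⟨_, ht⟩)
    · exact absurd (c.L.1.sat _ _ _ k) (not_low33 ⟨_, ht⟩)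
  · have h5 := (c.s7.tw3 F c.L P hP ⟨_, ht⟩).1
    rw [c.dN hP, ch0 hv] at h5
    have k1 := ch_le (l ∈ G.nb P)
    have k2 := ch_le (h ∈ G.nb P)
    have k3 := ch_le (h' ∈ G.nb P)
    have hl : l ∈ G.nb P := ch_iff.1 (by omega)
    have hh : h ∈ G.nb P := ch_iff.1 (by omega)
    have hh' : h' ∈ G.nb P := ch_iff.1 (by omega)
    rcases c.covl (G.sym _ _ hl) (fun h => hv (G.sym _ _ h)) with ⟨u, hu, k1, k2, k3⟩ |
      ⟨a, ha, b, hb, k, -, -, k1, k2⟩ | ⟨a, ha, b, hb, k, -⟩ | ⟨a, ha, b, hb, k, k1, k2⟩ |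
      ⟨a, ha, b, hb, k⟩
    · exact ⟨u, c.pr hP ht hu k1 k3, Or.inr ⟨hv, hl, hh, hh', k2⟩⟩
    · exact (c.no_tw hP ht ha hb k k1 k2).elim
    · exact absurd (c.L.1.sat _ _ _ k) (not_low33 ⟨_, ht⟩)
    · exfalso
      have h1 : a ≠ P' := fun e => (stTwHL_5 G).notHL c.n9 _ _ _ k (e ▸ ⟨_, ht.sym33⟩)
      have h2 : b ≠ P' := fun e => not_low33 ⟨_, ht.sym33⟩ (e ▸ k.2.1)
      have h3 := c.tw_nb hP ht (mem_inter.2 ⟨G.sym _ _ k2, ha⟩) (mem_inter.2 ⟨G.sym _ _ k1, hb⟩)
        h1 h2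
      have h4 := k.2.2.1
      rw [h3] at h4
      exact G.irr _ h4
    · exact absurd ⟨_, ht⟩ ((stTwHL_5 G).twLL _ _ _ _ k).2

theorem P_ne (p : Pr G F P P' d) : P' ≠ P ∧ d ≠ P ∧ d ≠ P' :=
  ⟨p.tw.ne33.symm, fun e => not_low33 ⟨_, p.tw⟩ (e ▸ p.dl),
    fun e => not_low33 ⟨_, p.tw.sym33⟩ (e ▸ p.dl)⟩

theorem card_RR (c : Cx G F l h h' v w) (p : Pr G F P P' d) : (RR G F P P' d).card = 3 := by
  obtain ⟨h1, h2, h3⟩ := P_ne p
  rw [RR, card_erase_of_mem (mem_erase.2 ⟨h3, mem_erase.2 ⟨h2, p.md⟩⟩),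
    card_erase_of_mem (mem_erase.2 ⟨h1, p.mP'⟩), card_erase_of_mem p.mP, c.card6]

theorem sum_RR (p : Pr G F P P' d) : ∑ y ∈ G.N F, G.gam5 F y =
    G.gam5 F P + (G.gam5 F P' + (G.gam5 F d + ∑ y ∈ RR G F P P' d, G.gam5 F y)) := by
  obtain ⟨h1, h2, h3⟩ := P_ne p
  rw [RR, add_sum_erase _ _ (mem_erase.2 ⟨h3, mem_erase.2 ⟨h2, p.md⟩⟩),
    add_sum_erase _ _ (mem_erase.2 ⟨h1, p.mP'⟩), add_sum_erase _ _ p.mP]

theorem sub_RR {x : V} (hx : x ∈ RR G F P P' d) : x ∈ G.N F := (mem_RR.1 hx).1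

theorem sum1 (c : Cx G F l h h' v w) {x : V} (hx : x ∈ RR G F P P' d) :
    G.gam5 F x ≤ ∑ y ∈ RR G F P P' d, G.gam5 F y :=
  single_le_sum (fun _ hy => c.nn (sub_RR hy)) hx

theorem sum2 (c : Cx G F l h h' v w) {x y : V} (hx : x ∈ RR G F P P' d)
    (hy : y ∈ RR G F P P' d) (hne : x ≠ y) :
    G.gam5 F x + G.gam5 F y ≤ ∑ y ∈ RR G F P P' d, G.gam5 F y := by
  rw [← sum_pair hne]
  refine sum_le_sum_of_subset_of_nonneg ?_ fun z hz _ => c.nn (sub_RR hz)
  intro z hz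
  rw [mem_insert, mem_singleton] at hz
  rcases hz with rfl | rfl <;> assumption

theorem sum3 (c : Cx G F l h h' v w) {x y z : V} (hx : x ∈ RR G F P P' d)
    (hy : y ∈ RR G F P P' d) (hz : z ∈ RR G F P P' d) (h1 : x ≠ y) (h2 : x ≠ z) (h3 : y ≠ z) :
    G.gam5 F x + (G.gam5 F y + G.gam5 F z) ≤ ∑ y ∈ RR G F P P' d, G.gam5 F y := by
  rw [← sum_pair h3, ← sum_insert (s := {y, z}) (a := x)]
  · refine sum_le_sum_of_subset_of_nonneg ?_ fun z hz _ => c.nn (sub_RR hz)
    intro t ht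
    rw [mem_insert, mem_insert, mem_singleton] at ht
    rcases ht with rfl | rfl | rfl <;> assumption
  · rw [mem_insert, mem_singleton]
    tauto

theorem Pd (p : Pr G F P P' d) : P ∈ G.pT F d ∧ P' ∈ G.pT F d := by
  have h1 : d ∈ G.pT F P := by
    rw [p.pT]
    simp
  have h2 : d ∈ G.pT F P' := by
    rw [p.pT']
    simp
  exact ⟨mem_inter.2 ⟨G.sym _ _ (mem_inter.1 h1).1, p.mP⟩,
    mem_inter.2 ⟨G.sym _ _ (mem_inter.1 h2).1, p.mP'⟩⟩

theorem two_le (p : Pr G F P P' d) : 2 ≤ (G.pT F d).card := by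
  rw [← card_pair p.tw.ne33]
  refine card_le_card fun x hx => ?_
  rw [mem_insert, mem_singleton] at hx
  rcases hx with rfl | rfl
  · exact (Pd p).1
  · exact (Pd p).2

theorem dle (c : Cx G F l h h' v w) (p : Pr G F P P' d) : G.d d F = 2 ∨ G.d d F = 3 := by
  have h1 := c.bas.pos F c.L.1 d p.md
  have h2 := two_le p
  by_cases h5 : 5 ≤ G.d d F
  · have h3 := (c.b.low5 F c.L.1 d p.md p.dl h5).2.1
    rw [h3, card_empty] at h2
    omega
  · by_cases h4 : G.d d F = 4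
    · have h3 := (c.b.low4 F c.L.1 d p.md p.dl h4).1
      omega
    · omega

theorem d3 (c : Cx G F l h h' v w) (p : Pr G F P P' d) (h3 : G.d d F = 3) :
    G.pT F d = {P, P'} ∧ 12 ≤ G.gam5 F d := by
  obtain ⟨k1, -, -, k2⟩ := c.b.low3 F c.L.1 d p.md p.dl h3
  have h1 : G.pT F d = {P, P'} := by
    symm
    apply eq_of_subset_of_card_le
    · intro x hx
      rw [mem_insert, mem_singleton] at hx
      rcases hx with rfl | rfl
      · exact (Pd p).1
      · exact (Pd p).2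
    · rw [card_pair p.tw.ne33]
      exact k1
  exact ⟨h1, k2 ⟨P, P', p.tw, h1⟩⟩

theorem gP (c : Cx G F l h h' v w) (p : Pr G F P P' d) :
    1 ≤ G.gam5 F P ∧ 1 ≤ G.gam5 F P' := by
  obtain ⟨h1, h2, h3⟩ := P_ne p
  refine ⟨(c.valt p.mP ⟨_, p.tw⟩).2 ?_, (c.valt p.mP' ⟨_, p.tw.sym33⟩).2 ?_⟩
  · rw [p.pT, card_pair h3.symm]
  · rw [p.pT', card_pair h2.symm]

/-- neighbours of the other vertices -/
theorem nbR (p : Pr G F P P' d) (hd3 : G.pT F d = {P, P'}) {x y : V}
    (hy : y ∈ RR G F P P' d) (hx : x ∈ G.N F) (hxy : x ∈ G.nb y) : x ∈ RR G F P P' d := by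
  obtain ⟨h1, h2, h3, h4⟩ := mem_RR.1 hy
  have key : ∀ z, x = z → y ∈ G.pT F z := by
    rintro z rfl
    exact mem_inter.2 ⟨G.sym _ _ hxy, h1⟩
  rw [mem_RR]
  refine ⟨hx, fun e => ?_, fun e => ?_, fun e => ?_⟩
  · have := key _ e
    rw [p.pT, mem_insert, mem_singleton] at this
    tauto
  · have := key _ e
    rw [p.pT', mem_insert, mem_singleton] at this
    tauto
  · have := key _ e
    rw [hd3, mem_insert, mem_singleton] at this
    tauto

theorem TCR (p : Pr G F P P' d) (hd3 : G.pT F d = {P, P'}) {y : V}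
    (hy : y ∈ RR G F P P' d) (k : TC G F y) :
    (∃ u ∈ RR G F P P' d, G.Low u ∧ y ≠ u) ∨
    (∃ a ∈ RR G F P P' d, ∃ b ∈ RR G F P P' d, G.Tw a b ∧ y ∈ G.nb a ∧ y ∈ G.nb b) := by
  rcases k with ⟨u, hu, k1, k2⟩ | ⟨a, ha, b, hb, k, k1, k2⟩ | ⟨a, ha, b, hb, k⟩
  · exact Or.inl ⟨u, nbR p hd3 hy hu (G.sym _ _ k2), k1, fun e => G.irr _ (e ▸ k2)⟩
  · exact Or.inr ⟨a, nbR p hd3 hy ha (G.sym _ _ k1), b, nbR p hd3 hy hb (G.sym _ _ k2), k, k1,
      k2⟩
  · have h1 := nbR p hd3 hy ha (G.sym _ _ (HL_nb5 k))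
    exact Or.inl ⟨b, nbR p hd3 h1 hb (HL_b76 k), k.2.1, (HL_bt76 k).2⟩

/-- a covered low -/
theorem pT_pos {y : V} (k : TC G F y) : 1 ≤ (G.pT F y).card := by
  rw [Nat.one_le_iff_ne_zero, ← Nat.pos_iff_ne_zero, card_pos]
  rcases k with ⟨u, hu, k1, k2⟩ | ⟨a, ha, b, hb, k, k1, k2⟩ | ⟨a, ha, b, hb, k⟩
  · exact ⟨u, mem_inter.2 ⟨G.sym _ _ k2, hu⟩⟩
  · exact ⟨a, mem_inter.2 ⟨G.sym _ _ k1, ha⟩⟩
  · exact ⟨a, mem_inter.2 ⟨G.sym _ _ (HL_nb5 k), ha⟩⟩

theorem valT (c : Cx G F l h h' v w) {y : V} (hy : y ∈ G.N F) (hl : G.Low y)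
    (k : TC G F y) : 4 ≤ G.gam5 F y := by
  have h1 := pT_pos k
  have h2 := c.bas.pos F c.L.1 y hy
  by_cases h3 : G.d y F = 2
  · have := c.val2 hy hl h3
    omega
  · have := c.val3 hy hl (by omega)
    omega

theorem valT2 (c : Cx G F l h h' v w) {y a b : V} (hy : y ∈ G.N F) (hl : G.Low y)
    (ha : a ∈ G.N F) (hb : b ∈ G.N F) (ha' : a ∈ G.nb y) (hb' : b ∈ G.nb y) (hne : a ≠ b) :
    6 ≤ G.gam5 F y := by
  have h1 : ({a, b} : Finset V) ⊆ G.pT F y := by
    intro x hx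
    rw [mem_insert, mem_singleton] at hx
    rcases hx with rfl | rfl
    · exact mem_inter.2 ⟨ha', ha⟩
    · exact mem_inter.2 ⟨hb', hb⟩
  have h0 := card_le_card h1
  rw [card_pair hne] at h0
  have h2 := c.bas.pos F c.L.1 y hy
  by_cases h3 : G.d y F = 2
  · have := c.val2 hy hl h3
    omega
  · have := c.val3 hy hl (by omega)
    omega

/-- no low among the other vertices -/
theorem R6 (c : Cx G F l h h' v w) (p : Pr G F P P' d) (hf : G.d d F = 3)
    (hs : ∑ y ∈ RR G F P P' d, G.gam5 F y < 6) : ∀ y ∈ RR G F P P' d, ¬ G.Low y := by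
  obtain ⟨hd3, -⟩ := c.d3 p hf
  have h2 : ∀ y ∈ RR G F P P' d, G.Low y → G.d y F = 2 := by
    intro y hy hl
    by_contra h3
    have h4 := c.bas.pos F c.L.1 y (sub_RR hy)
    have h5 := c.val3 (sub_RR hy) hl (by omega)
    have h6 := c.sum1 hy
    omega
  have h3 : ∀ y ∈ RR G F P P' d, G.Low y → TC G F y := by
    intro y hy hl
    have h4 := h2 y hy hl
    rw [c.dN (sub_RR hy)] at h4
    refine c.tcov (sub_RR hy) ?_ ?_
    · by_contra hc
      push Not at hc
      rw [ch1 hc.1, ch1 hc.2] at h4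
      omega
    · intro _ hv
      rw [ch1 hv] at h4
      exact ⟨ch_eq0.1 (by omega), ch_eq0.1 (by omega)⟩
  intro y hy hl
  have h4 := c.valT (sub_RR hy) hl (h3 y hy hl)
  rcases TCR p hd3 hy (h3 y hy hl) with ⟨u, hu, k1, k2⟩ | ⟨a, ha, b, hb, k, k1, k2⟩
  · have h5 := c.valT (sub_RR hu) k1 (h3 u hu k1)
    have h6 := c.sum2 hy hu k2
    omega
  · have h5 := c.valT2 (sub_RR hy) hl (sub_RR ha) (sub_RR hb) (G.sym _ _ k1) (G.sym _ _ k2)
      k.ne33
    have h6 := c.sum1 hy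
    omega

theorem R6b (c : Cx G F l h h' v w) (p : Pr G F P P' d) (hf : G.d d F = 3)
    (hs : ∑ y ∈ RR G F P P' d, G.gam5 F y < 6) {y : V} (hy : y ∈ RR G F P P' d)
    (h1 : l ∉ G.nb y ∨ v ∉ G.nb y) :
    ∃ a ∈ RR G F P P' d, ∃ b ∈ RR G F P P' d, G.Tw a b ∧ y ∈ G.nb a ∧ y ∈ G.nb b := by
  have hn := c.R6 p hf hs
  obtain ⟨hd3, -⟩ := c.d3 p hf
  rcases TCR p hd3 hy (c.tcov (sub_RR hy) h1 (fun k => absurd k (hn y hy))) with
    ⟨u, hu, k1, k2⟩ | k
  · exact absurd k1 (hn u hu)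
  · exact k

theorem R6c (c : Cx G F l h h' v w) (p : Pr G F P P' d) (hf : G.d d F = 3)
    (hs : ∑ y ∈ RR G F P P' d, G.gam5 F y < 6) {y y' : V} (hy : y ∈ RR G F P P' d)
    (h1 : l ∉ G.nb y ∨ v ∉ G.nb y) (hy' : y' ∈ RR G F P P' d)
    (h1' : l ∉ G.nb y' ∨ v ∉ G.nb y') : y = y' := by
  by_contra hne
  obtain ⟨a, ha, b, hb, k, k1, k2⟩ := c.R6b p hf hs hy h1
  have hya : y ≠ a := fun e => G.irr _ (e ▸ k1)
  have hyb : y ≠ b := fun e => G.irr _ (e ▸ k2)
  have hR : RR G F P P' d = {y, a, b} := by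
    symm
    apply eq_of_subset_of_card_le
    · intro x hx
      simp only [mem_insert, mem_singleton] at hx
      rcases hx with rfl | rfl | rfl <;> assumption
    · rw [c.card_RR p, card_eq_three.2 ⟨y, a, b, hya, hyb, k.ne33, rfl⟩]
  have key : ∀ q, G.Tw y' q → (∀ x ∈ RR G F P P' d, x = y ∨ x = y' ∨ x = q) → False := by
    intro q hq hall
    obtain ⟨a1, ha1, b1, hb1, m, m1, m2⟩ := c.R6b p hf hs hy' h1'
    have hx : ∀ a1 b1, a1 ∈ RR G F P P' d → G.Tw a1 b1 → y' ∈ G.nb a1 → y' ∈ G.nb b1 → a1 = y := by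
      intro a1 b1 ha1 m m1 m2
      rcases hall a1 ha1 with e | e | e
      · exact e
      · rw [e] at m1
        exact absurd m1 (G.irr _)
      · rw [e] at m
        rw [c.uniq m hq.sym33] at m2
        exact absurd m2 (G.irr _)
    have e1 := hx a1 b1 ha1 m m1 m2
    have e2 := hx b1 a1 hb1 m.sym33 m2 m1
    exact m.ne33 (e1.trans e2.symm)
  have h3 : y' = a ∨ y' = b := by
    rw [hR] at hy'
    simp only [mem_insert, mem_singleton] at hy'
    rcases hy' with e | e | e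
    · exact absurd e.symm hne
    · exact Or.inl e
    · exact Or.inr e
  rcases h3 with e | e
  · refine key b (e ▸ k) fun x hx => ?_
    rw [hR] at hx
    simpa [e] using hx
  · refine key a (e ▸ k.sym33) fun x hx => ?_
    rw [hR] at hx
    simp only [mem_insert, mem_singleton] at hx
    rw [e]
    tauto

theorem total (c : Cx G F l h h' v w) (p : Pr G F P P' d) {m n : ℤ} (hd : m ≤ G.gam5 F d)
    (hs : n ≤ ∑ y ∈ RR G F P P' d, G.gam5 F y) (hmn : 18 ≤ m + n) :
    20 ≤ ∑ y ∈ G.N F, G.gam5 F y := by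
  rw [sum_RR p]
  have := c.gP p
  omega

/-- the cover of `h` and `P` -/
theorem hP_cov (c : Cx G F l h h' v w) (p : Pr G F P P' d) (hh : h ∈ G.nb P)
    (h1 : h ∉ G.nb l ∨ l ∉ G.nb P) (h2 : h ∉ G.nb v ∨ v ∉ G.nb P) : h ∈ G.nb d := by
  rcases c.covh (G.sym _ _ hh) with ⟨u, hu, k1, k2, k3⟩ | ⟨k1, k2⟩ | ⟨k1, k2⟩ |
    ⟨a, ha, b, hb, k, -, -, k1, k2⟩ | ⟨a, ha, k, k1⟩ | ⟨a, ha, b, hb, k, -⟩ | ⟨a, ha, b, hb, k⟩
  · have h3 : u ∈ G.pT F P := mem_inter.2 ⟨G.sym _ _ k3, hu⟩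
    rw [p.pT, mem_insert, mem_singleton] at h3
    rcases h3 with e | e
    · exact absurd k1 (e ▸ not_low33 ⟨_, p.tw.sym33⟩)
    · rw [← e]
      exact k2
  · rcases h1 with h1 | h1
    · exact absurd k1 h1
    · exact absurd (G.sym _ _ k2) h1
  · rcases h2 with h2 | h2
    · exact absurd k1 h2
    · exact absurd (G.sym _ _ k2) h2
  · exact (c.no_tw p.mP p.tw ha hb k k1 k2).elim
  · exact absurd (c.L.1.sat _ _ _ k) (not_low33 ⟨_, p.tw⟩)
  · exact absurd (c.L.1.sat _ _ _ k) (not_low33 ⟨_, p.tw⟩)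
  · exact absurd ⟨_, p.tw⟩ ((stTwHL_5 G).twLL _ _ _ _ k).2

/-- neighbours of `P'` in `F` -/
theorem P'iff (c : Cx G F l h h' v w) (p : Pr G F P P' d) {x : V} (hx : x ∈ F) :
    x ∈ G.nb P' ↔ x ∈ G.nb P := by
  have h1 : x ≠ P' := fun e => c.notF p.mP' (e ▸ hx)
  have h2 : x ≠ P := fun e => c.notF p.mP (e ▸ hx)
  exact ⟨fun k => Tw_nb5 p.tw.sym33 k h2, fun k => Tw_nb5 p.tw k h1⟩

/-- neighbours of `Z = {P, P', d}` in `F` -/
theorem NZ (c : Cx G F l h h' v w) (p : Pr G F P P' d) {x : V} (hx : x ∈ F) :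
    x ∈ G.N {P, P', d} ↔ x ∈ G.nb P ∨ x ∈ G.nb d := by
  rw [mem_N76]
  constructor
  · rintro ⟨-, u, hu, k⟩
    simp only [mem_insert, mem_singleton] at hu
    rcases hu with rfl | rfl | rfl
    · exact Or.inl k
    · exact Or.inl ((c.P'iff p hx).1 k)
    · exact Or.inr k
  · intro k
    refine ⟨fun k1 => ?_, ?_⟩
    · simp only [mem_insert, mem_singleton] at k1
      rcases k1 with rfl | rfl | rfl
      · exact c.notF p.mP hx
      · exact c.notF p.mP' hx
      · exact c.notF p.md hx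
    · rcases k with k | k
      · exact ⟨P, by simp, k⟩
      · exact ⟨d, by simp, k⟩

theorem Zsub (p : Pr G F P P' d) : ({P, P', d} : Finset V) ⊆ G.N F := by
  intro x hx
  simp only [mem_insert, mem_singleton] at hx
  rcases hx with rfl | rfl | rfl
  · exact p.mP
  · exact p.mP'
  · exact p.md

theorem Zcard (p : Pr G F P P' d) : ({P, P', d} : Finset V).card = 3 := by
  obtain ⟨h1, h2, h3⟩ := P_ne p
  exact card_eq_three.2 ⟨P, P', d, h1.symm, h2.symm, h3.symm, rfl⟩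

/-- case (a): `P` misses the pair -/
theorem caseA (c : Cx G F l h h' v w) (p : Pr G F P P' d) (hv : v ∉ G.nb P) (hl : l ∈ G.nb P)
    (hh : h ∈ G.nb P) (hh' : h' ∈ G.nb P) (hld : l ∈ G.nb d) :
    20 ≤ ∑ y ∈ G.N F, G.gam5 F y := by
  have hPl : P ∈ G.nb l ∧ P' ∈ G.nb l ∧ d ∈ G.nb l :=
    ⟨G.sym _ _ hl, G.sym _ _ ((c.P'iff p c.lF).2 hl), G.sym _ _ hld⟩
  have hsub : G.N F \ G.nb l ⊆ RR G F P P' d := by
    intro x hx
    rw [mem_sdiff] at hx
    rw [mem_RR]
    refine ⟨hx.1, fun e => hx.2 (e ▸ hPl.1), fun e => hx.2 (e ▸ hPl.2.1),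
      fun e => hx.2 (e ▸ hPl.2.2)⟩
  have hf : G.d d F = 3 := by
    by_cases hvd : v ∈ G.nb d
    · have h1 := c.dN p.md
      rw [ch1 hld, ch1 hvd] at h1
      have h2 := c.dle p
      omega
    · have hNZ : G.N {P, P', d} ∩ F = {l, h, h'} := by
        ext x
        rw [mem_inter]
        constructor
        · rintro ⟨k, hx⟩
          rw [c.NZ p hx] at k
          simp only [mem_insert, mem_singleton]
          rcases c.all hx with e | e | e | e | e
          · exact Or.inl e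
          · exact Or.inr (Or.inl e)
          · exact Or.inr (Or.inr e)
          · rw [e] at k
            tauto
          · rw [e] at k
            rcases k with k | k
            · exact absurd ((c.vw (c.nev p.mP) (c.new p.mP)).2 k) hv
            · exact absurd ((c.vw (c.nev p.md) (c.new p.md)).2 k) hvd
        · intro hx
          simp only [mem_insert, mem_singleton] at hx
          rcases hx with rfl | rfl | rfl
          · exact ⟨(c.NZ p c.lF).2 (Or.inl hl), c.lF⟩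
          · exact ⟨(c.NZ p c.hF).2 (Or.inl hh), c.hF⟩
          · exact ⟨(c.NZ p c.hF').2 (Or.inl hh'), c.hF'⟩
      have hc3 : (G.N {P, P', d} ∩ F).card = 3 := by
        rw [hNZ]
        exact card_eq_three.2 ⟨l, h, h', c.lh, c.symm.lh, c.ne, rfl⟩
      obtain ⟨-, -, -, -, -, hu⟩ := c.s7.three F c.L _ (Zsub p) (Zcard p) hc3
      have hvZ : v ∈ G.FZ F {P, P', d} := by
        rw [FZ, mem_sdiff]
        refine ⟨c.vF, fun k => ?_⟩
        rw [c.NZ p c.vF] at k
        tauto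
      obtain ⟨k1, k2, -⟩ := hu v hvZ (not_low33 ⟨_, c.tw⟩)
      have hR : ∀ y ∈ RR G F P P' d, y ∈ G.nb v := by
        intro y hy
        rw [mem_RR] at hy
        apply k1
        rw [mem_sdiff]
        refine ⟨hy.1, fun e => ?_⟩
        simp only [mem_insert, mem_singleton] at e
        tauto
      -- no vertex of `N F` is adjacent to `l` and `v` if all of `R` misses `l`
      have hm := c.missl
      have hle := card_le_card hsub
      rw [c.card_RR p] at hle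
      have he1 : h ∉ G.nb l ∧ h' ∉ G.nb l := by
        by_contra hc
        have h3 : 1 ≤ H6x33.ch (h ∈ G.nb l) + H6x33.ch (h' ∈ G.nb l) := by
          by_cases e1 : h ∈ G.nb l
          · rw [ch1 e1]
            omega
          · by_cases e2 : h' ∈ G.nb l
            · rw [ch1 e2]
              omega
            · exact absurd ⟨e1, e2⟩ hc
        have heq : G.N F \ G.nb l = RR G F P P' d :=
          eq_of_subset_of_card_le hsub (by rw [c.card_RR p]; omega)
        have hno : ∀ a ∈ G.N F, l ∈ G.nb a → v ∈ G.nb a → False := by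
          intro a ha h4 h5
          have h6 : a ∈ RR G F P P' d := by
            rw [mem_RR]
            refine ⟨ha, fun e => hv (e ▸ h5), fun e => ?_, fun e => hvd (e ▸ h5)⟩
            rw [e] at h5
            exact hv ((c.P'iff p c.vF).1 h5)
          rw [← heq, mem_sdiff] at h6
          exact h6.2 (G.sym _ _ h4)
        rcases c.covl (G.sym _ _ c.lv) (G.irr v) with ⟨u, hu, k1, k2, k3⟩ |
          ⟨a, ha, b, hb, k, k3, -, k1, k2⟩ | ⟨a, ha, b, hb, k, -⟩ | ⟨a, ha, b, hb, k, k1, k2⟩ |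
          ⟨a, ha, b, hb, k⟩
        · exact hno u hu k2 k3
        · exact hno a ha k3 k1
        · exact absurd (c.L.1.sat _ _ _ k) (not_low33 ⟨_, c.tw⟩)
        · exact hno a ha (HL_nb5 k) k2
        · exact absurd ⟨_, c.tw⟩ ((stTwHL_5 G).twLL _ _ _ _ k).2
      have h3 := c.hP_cov p hh (Or.inl he1.1) (Or.inr hv)
      have h4 := c.symm.hP_cov p hh' (Or.inl he1.2) (Or.inr hv)
      rw [c.dN p.md, ch1 h3, ch1 h4, ch1 hld, ch0 hvd]
  obtain ⟨-, hd⟩ := c.d3 p hf
  by_cases hs : ∑ y ∈ RR G F P P' d, G.gam5 F y < 6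
  · exfalso
    have hm := c.missl
    obtain ⟨y, hy, y', hy', hne⟩ := one_lt_card.1 (show 1 < (G.N F \ G.nb l).card by omega)
    exact hne (c.R6c p hf hs (hsub hy) (Or.inl fun k => (mem_sdiff.1 hy).2 (G.sym _ _ k))
      (hsub hy') (Or.inl fun k => (mem_sdiff.1 hy').2 (G.sym _ _ k)))
  · exact c.total p hd (not_lt.1 hs) (by norm_num)

/-- case (b): the remainder of `F` -/
theorem Zb (c : Cx G F l h h' v w) (p : Pr G F P P' d) (hlP : l ∉ G.nb P) (hvP : v ∈ G.nb P)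
    (hhP : h ∈ G.nb P) (hhP' : h' ∉ G.nb P) (hld : l ∉ G.nb d) (hhd : h' ∉ G.nb d) :
    l ∈ G.nb h' ∧ h ∈ G.nb h' ∧ v ∈ G.nb h' ∧ (∀ y ∈ RR G F P P' d, y ∈ G.nb h') ∧
      ∃ t ∈ RR G F P P' d, G.HL h' l t := by
  have hwP : w ∈ G.nb P := (c.vw (c.nev p.mP) (c.new p.mP)).1 hvP
  have hNZ : G.N {P, P', d} ∩ F = {h, v, w} := by
    ext x
    rw [mem_inter]
    constructor
    · rintro ⟨k, hx⟩
      rw [c.NZ p hx] at k
      simp only [mem_insert, mem_singleton]
      rcases c.all hx with e | e | e | e | e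
      · rw [e] at k
        tauto
      · exact Or.inl e
      · rw [e] at k
        tauto
      · exact Or.inr (Or.inl e)
      · exact Or.inr (Or.inr e)
    · intro hx
      simp only [mem_insert, mem_singleton] at hx
      rcases hx with rfl | rfl | rfl
      · exact ⟨(c.NZ p c.hF).2 (Or.inl hhP), c.hF⟩
      · exact ⟨(c.NZ p c.vF).2 (Or.inl hvP), c.vF⟩
      · exact ⟨(c.NZ p c.wF).2 (Or.inl hwP), c.wF⟩
  have hc3 : (G.N {P, P', d} ∩ F).card = 3 := by
    rw [hNZ]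
    exact card_eq_three.2 ⟨h, v, w, c.hv, c.hw, c.tw.ne33, rfl⟩
  have hFZ : G.FZ F {P, P', d} = {h', l} := by
    ext x
    rw [FZ, mem_sdiff, mem_insert, mem_singleton]
    constructor
    · rintro ⟨hx, k⟩
      rw [c.NZ p hx] at k
      rcases c.all hx with e | e | e | e | e
      · exact Or.inr e
      · rw [e] at k
        tauto
      · exact Or.inl e
      · rw [e] at k
        tauto
      · rw [e] at k
        tauto
    · rintro (rfl | rfl)
      · refine ⟨c.hF', ?_⟩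
        rw [c.NZ p c.hF']
        tauto
      · refine ⟨c.lF, ?_⟩
        rw [c.NZ p c.lF]
        tauto
  obtain ⟨k1, k2, k3, k4⟩ := c.bas.two F c.L.1 _ (Zsub p) ⟨P, by simp⟩
    (by rw [Zcard p, hc3]) h' l c.symm.lh.symm hFZ c.hh'.1
  rw [hNZ] at k3 k4
  refine ⟨k1, k3 (by simp), k3 (by simp), fun y hy => ?_, ?_⟩
  · rw [mem_RR] at hy
    apply k2
    rw [mem_sdiff]
    refine ⟨hy.1, fun e => ?_⟩
    simp only [mem_insert, mem_singleton] at e
    tauto
  · rcases k4 with k4 | ⟨-, t, ht, k5⟩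
    · exact absurd ⟨_, k4⟩ c.hh'.2
    · have hlt := c.L.1.sat _ _ _ k5
      rcases mem_union.1 ht with e | e
      · rw [mem_sdiff] at e
        refine ⟨t, ?_, k5⟩
        rw [mem_RR]
        refine ⟨e.1, ?_⟩
        have e2 := e.2
        simp only [mem_insert, mem_singleton] at e2
        tauto
      · exfalso
        simp only [mem_insert, mem_singleton] at e
        rcases e with e | e | e
        · exact c.hh.1 (e ▸ hlt)
        · exact not_low33 ⟨_, c.tw⟩ (e ▸ hlt)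
        · exact not_low33 ⟨_, c.tw.sym33⟩ (e ▸ hlt)

/-- case (b), `d` with three neighbours in `F` -/
theorem caseB3 (c : Cx G F l h h' v w) (p : Pr G F P P' d) (hlP : l ∉ G.nb P)
    (hvP : v ∈ G.nb P) (hhP : h ∈ G.nb P) (hhP' : h' ∉ G.nb P) (hvd : v ∈ G.nb d)
    (hf : G.d d F = 3) : 20 ≤ ∑ y ∈ G.N F, G.gam5 F y := by
  obtain ⟨-, hd⟩ := c.d3 p hf
  by_cases hs : ∑ y ∈ RR G F P P' d, G.gam5 F y < 6
  swap
  · exact c.total p hd (not_lt.1 hs) (by norm_num)
  exfalso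
  have hPv : P ∈ G.nb v ∧ P' ∈ G.nb v ∧ d ∈ G.nb v :=
    ⟨G.sym _ _ hvP, G.sym _ _ ((c.P'iff p c.vF).2 hvP), G.sym _ _ hvd⟩
  have hsub : G.N F \ G.nb v ⊆ RR G F P P' d := by
    intro x hx
    rw [mem_sdiff] at hx
    rw [mem_RR]
    refine ⟨hx.1, fun e => hx.2 (e ▸ hPv.1), fun e => hx.2 (e ▸ hPv.2.1),
      fun e => hx.2 (e ▸ hPv.2.2)⟩
  have hm := c.missv
  obtain ⟨y0, hy0⟩ := card_pos.1 (show 0 < (G.N F \ G.nb v).card by omega)
  have hv0 : ∀ y ∈ G.N F \ G.nb v, v ∉ G.nb y := fun y hy k =>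
    (mem_sdiff.1 hy).2 (G.sym _ _ k)
  have hall : G.N F \ G.nb v ⊆ {y0} := by
    intro y hy
    rw [mem_singleton]
    exact c.R6c p hf hs (hsub hy) (Or.inr (hv0 y hy)) (hsub hy0) (Or.inr (hv0 y0 hy0))
  have h1 := card_le_card hall
  rw [card_singleton] at h1
  have e1 : h ∉ G.nb v := ch_eq0.1 (by omega)
  have e2 : h' ∉ G.nb v := ch_eq0.1 (by omega)
  have hhd := c.hP_cov p hhP (Or.inr hlP) (Or.inl e1)
  have h2 := c.dN p.md
  rw [hf, ch1 hhd, ch1 hvd] at h2
  have h3 : l ∉ G.nb d := ch_eq0.1 (by omega)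
  have h4 : h' ∉ G.nb d := ch_eq0.1 (by omega)
  obtain ⟨-, -, k, -⟩ := c.Zb p hlP hvP hhP hhP' h3 h4
  exact e2 (G.sym _ _ k)

/-- case (b), `d` with two neighbours in `F` -/
theorem caseB2 (c : Cx G F l h h' v w) (p : Pr G F P P' d) (hlP : l ∉ G.nb P)
    (hvP : v ∈ G.nb P) (hhP : h ∈ G.nb P) (hhP' : h' ∉ G.nb P) (hvd : v ∈ G.nb d)
    (hf : G.d d F = 2) : 20 ≤ ∑ y ∈ G.N F, G.gam5 F y := by
  have h2 := c.dN p.md
  rw [hf, ch1 hvd] at h2
  have hld : l ∉ G.nb d := ch_eq0.1 (by omega)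
  have hhd : h ∉ G.nb d := ch_eq0.1 (by omega)
  have hhd' : h' ∉ G.nb d := ch_eq0.1 (by omega)
  obtain ⟨k1, k2, k3, k4, t, ht, kt⟩ := c.Zb p hlP hvP hhP hhP' hld hhd'
  have hd6 : 6 ≤ G.gam5 F d := by
    have e1 := c.val2 p.md p.dl hf
    have e2 := two_le p
    omega
  have htN := sub_RR ht
  have htl : G.Low t := c.L.1.sat _ _ _ kt
  have hlt : l ∉ G.nb t := fun k => (HL_bt76 kt).1 (G.sym _ _ k)
  have hhl : h ∈ G.nb l := by
    rcases HL_cl33 kt k2 with e | e | e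
    · exact absurd (e ▸ c.hF) (c.notF htN)
    · exact absurd e.symm c.lh
    · exact e
  have hrl : ∀ y ∈ RR G F P P' d, y ≠ t → y ∈ G.nb l := by
    intro y hy hne
    rcases HL_cl33 kt (k4 y hy) with e | e | e
    · exact absurd e hne
    · exact absurd (e ▸ c.lF) (c.notF (sub_RR hy))
    · exact e
  have hcard : ((RR G F P P' d).erase t).card = 2 := by
    rw [card_erase_of_mem ht, c.card_RR p]
  obtain ⟨r, s, hrs, hRe⟩ := card_eq_two.1 hcard
  have hr : r ∈ RR G F P P' d ∧ r ≠ t := by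
    have : r ∈ (RR G F P P' d).erase t := by
      rw [hRe]
      simp
    rw [mem_erase] at this
    exact ⟨this.2, this.1⟩
  have hs : s ∈ RR G F P P' d ∧ s ≠ t := by
    have : s ∈ (RR G F P P' d).erase t := by
      rw [hRe]
      simp
    rw [mem_erase] at this
    exact ⟨this.2, this.1⟩
  have hmem : ∀ x ∈ RR G F P P' d, x = t ∨ x = r ∨ x = s := by
    intro x hx
    by_cases hxt : x = t
    · exact Or.inl hxt
    · right
      have : x ∈ (RR G F P P' d).erase t := mem_erase.2 ⟨hxt, hx⟩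
      rw [hRe, mem_insert, mem_singleton] at this
      exact this
  have hNl : ∀ x ∈ G.N F, l ∈ G.nb x → x = r ∨ x = s := by
    intro x hx hlx
    have h3 : x ∈ RR G F P P' d := by
      rw [mem_RR]
      refine ⟨hx, fun e => hlP (e ▸ hlx), fun e => ?_, fun e => hld (e ▸ hlx)⟩
      rw [e] at hlx
      exact hlP ((c.P'iff p c.lF).1 hlx)
    rcases hmem x h3 with e | e | e
    · rw [e] at hlx
      exact absurd hlx hlt
    · exact Or.inl e
    · exact Or.inr e
  -- the edge `l r`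
  have lr : ∀ r s, r ∈ RR G F P P' d ∧ r ≠ t → s ∈ RR G F P P' d ∧ s ≠ t → r ≠ s →
      (∀ x ∈ G.N F, l ∈ G.nb x → x = r ∨ x = s) → v ∉ G.nb r →
      G.Low s ∨ (G.HL s t l ∧ r ∈ G.nb t ∧ r ∈ G.nb s) := by
    intro r s hr hs hrs hNl hvr
    have hlr : l ∈ G.nb r := G.sym _ _ (hrl r hr.1 hr.2)
    rcases c.covl (G.sym _ _ hlr) (fun k => hvr (G.sym _ _ k)) with ⟨u, hu, k1, k2, k3⟩ |
      ⟨a, ha, b, hb, k, k3, k5, k1, k2⟩ | ⟨a, ha, b, hb, k, k1, -⟩ | ⟨a, ha, b, hb, k, k1, k2⟩ |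
      ⟨a, ha, b, hb, k⟩
    · rcases hNl u hu k2 with e | e
      · exact absurd k3 (e ▸ G.irr _)
      · exact Or.inl (e ▸ k1)
    · exfalso
      have e1 : a = s := by
        rcases hNl a ha k3 with e | e
        · exact absurd k1 (e ▸ G.irr _)
        · exact e
      have e2 : b = s := by
        rcases hNl b hb k5 with e | e
        · exact absurd k2 (e ▸ G.irr _)
        · exact e
      exact k.ne33 (e1.trans e2.symm)
    · rcases hNl b hb k1 with e | e
      · exact absurd e.symm (HL_bt76 k).2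
      · exact Or.inl (e ▸ k.2.1)
    · have e1 : a = s := by
        rcases hNl a ha (HL_nb5 k) with e | e
        · exact absurd k2 (e ▸ G.irr _)
        · exact e
      have hlb : l ∉ G.nb b := (HL_bt76 k).1
      have hbl : G.Low b := k.2.1
      by_cases hbR : b ∈ RR G F P P' d
      · by_cases hbt : b = t
        · right
          rw [e1, hbt] at k
          rw [hbt] at k1
          rw [e1] at k2
          exact ⟨k, k1, k2⟩
        · exact absurd (G.sym _ _ (hrl b hbR hbt)) hlb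
      · exfalso
        have hbd : b = d := by
          by_contra hbd
          apply hbR
          rw [mem_RR]
          refine ⟨hb, fun e => ?_, fun e => ?_, hbd⟩
          · exact not_low33 ⟨_, p.tw⟩ (e ▸ hbl)
          · exact not_low33 ⟨_, p.tw.sym33⟩ (e ▸ hbl)
        have e2 : ({P, P', r, s} : Finset V) ⊆ G.pT F d := by
          intro x hx
          simp only [mem_insert, mem_singleton] at hx
          rcases hx with rfl | rfl | rfl | rfl
          · exact (Pd p).1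
          · exact (Pd p).2
          · exact mem_inter.2 ⟨hbd ▸ k1, sub_RR hr.1⟩
          · refine mem_inter.2 ⟨?_, sub_RR hs.1⟩
            rw [← hbd, ← e1]
            exact G.sym _ _ (HL_b76 k)
        have e3 := card_le_card e2
        have hr1 := mem_RR.1 hr.1
        have hs1 := mem_RR.1 hs.1
        have e4 : ({P, P', r, s} : Finset V).card = 4 := by
          rw [card_insert_of_notMem, card_insert_of_notMem, card_pair hrs]
          · rw [mem_insert, mem_singleton]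
            rintro (e | e)
            · exact hr1.2.2.1 e.symm
            · exact hs1.2.2.1 e.symm
          · rw [mem_insert, mem_insert, mem_singleton]
            rintro (e | e | e)
            · exact p.tw.ne33 e
            · exact hr1.2.1 e.symm
            · exact hs1.2.1 e.symm
        have e5 := (c.b.low2 F c.L.1 d p.md p.dl hf).1
        omega
    · left
      have h3 : a = s := by
        rcases hNl a ha (LL_t76 k) with e | e
        · exact absurd e.symm (LL_ua76 k).2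
        · exact e
      rw [← h3]
      exact k.1
  have lr1 := lr r s hr hs hrs hNl
  have lr2 := lr s r hs hr hrs.symm (fun x hx hl => (hNl x hx hl).symm)
  have hnHL : G.HL s t l → G.HL r t l → False := fun e1 e2 =>
    hrs ((stTwHL_5 G).one c.n9 _ _ _ _ e2 e1)
  suffices h12 : 12 ≤ ∑ y ∈ RR G F P P' d, G.gam5 F y from c.total p hd6 h12 (by norm_num)
  have hmv := c.missv
  rw [ch1 (G.sym _ _ k3)] at hmv
  have hPv : P ∈ G.nb v ∧ P' ∈ G.nb v ∧ d ∈ G.nb v :=
    ⟨G.sym _ _ hvP, G.sym _ _ ((c.P'iff p c.vF).2 hvP), G.sym _ _ hvd⟩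
  have hsub : G.N F \ G.nb v ⊆ RR G F P P' d := by
    intro x hx
    rw [mem_sdiff] at hx
    rw [mem_RR]
    refine ⟨hx.1, fun e => hx.2 (e ▸ hPv.1), fun e => hx.2 (e ▸ hPv.2.1),
      fun e => hx.2 (e ▸ hPv.2.2)⟩
  have hrt : ∀ x, G.HL x t l → x ∈ G.nb t := fun x k => G.sym _ _ (HL_b76 k)
  by_cases hθ : h ∈ G.nb v
  · -- all of `R` misses the pair
    rw [ch1 hθ] at hmv
    have heq : G.N F \ G.nb v = RR G F P P' d :=
      eq_of_subset_of_card_le hsub (by rw [c.card_RR p]; omega)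
    have hno : ∀ y ∈ RR G F P P' d, v ∉ G.nb y := by
      intro y hy k
      rw [← heq, mem_sdiff] at hy
      exact hy.2 (G.sym _ _ k)
    have hTC : ∀ y ∈ RR G F P P' d, TC G F y := fun y hy =>
      c.tcov (sub_RR hy) (Or.inr (hno y hy)) (fun _ k => absurd k (hno y hy))
    have h4t := c.valT htN htl (hTC t ht)
    rcases lr1 (hno r hr.1) with e1 | ⟨e1, e2, e3⟩
    · have h4s := c.valT (sub_RR hs.1) e1 (hTC s hs.1)
      rcases lr2 (hno s hs.1) with f1 | ⟨f1, f2, f3⟩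
      · have h4r := c.valT (sub_RR hr.1) f1 (hTC r hr.1)
        have := c.sum3 ht hr.1 hs.1 hr.2.symm hs.2.symm hrs
        omega
      · have g1 := c.valT2 htN htl (sub_RR hr.1) (sub_RR hs.1) (hrt r f1) f2 hrs
        have g2 := c.valT2 (sub_RR hs.1) e1 htN (sub_RR hr.1) (G.sym _ _ f2) (G.sym _ _ f3)
          hr.2.symm
        have := c.sum2 ht hs.1 hs.2.symm
        omega
    · rcases lr2 (hno s hs.1) with f1 | ⟨f1, f2, f3⟩
      · have g1 := c.valT2 htN htl (sub_RR hr.1) (sub_RR hs.1) e2 (hrt s e1) hrs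
        have g2 := c.valT2 (sub_RR hr.1) f1 htN (sub_RR hs.1) (G.sym _ _ e2) (G.sym _ _ e3)
          hs.2.symm
        have := c.sum2 ht hr.1 hr.2.symm
        omega
      · exact (hnHL e1 f1).elim
  · rw [ch0 hθ] at hmv
    -- every vertex except `d` is adjacent to `h`
    have hmh := c.missh
    have hvh : v ∉ G.nb h := fun k => hθ (G.sym _ _ k)
    rw [ch0 hvh] at hmh
    have hle1 := ch_le (l ∈ G.nb h)
    have hle2 := ch_le (h' ∈ G.nb h)
    have hRh : ∀ y ∈ RR G F P P' d, h ∈ G.nb y := by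
      intro y hy
      by_contra hc
      have hy' := mem_RR.1 hy
      have e1 : ({d, y} : Finset V) ⊆ G.N F \ G.nb h := by
        intro x hx
        rw [mem_insert, mem_singleton] at hx
        rw [mem_sdiff]
        rcases hx with rfl | rfl
        · exact ⟨p.md, fun k => hhd (G.sym _ _ k)⟩
        · exact ⟨hy'.1, fun k => hc (G.sym _ _ k)⟩
      have e2 := card_le_card e1
      rw [card_pair hy'.2.2.2.symm] at e2
      omega
    have hRh' : ∀ y ∈ RR G F P P' d, h' ∈ G.nb y := fun y hy => G.sym _ _ (k4 y hy)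
    have hlr : ∀ y ∈ RR G F P P' d, y ≠ t → l ∈ G.nb y := fun y hy hne => G.sym _ _ (hrl y hy hne)
    by_cases hvt : v ∈ G.nb t
    · have g1 : 10 ≤ G.gam5 F t := by
        refine c.val4 htN htl ?_
        rw [c.dN htN, ch1 (hRh t ht), ch1 (hRh' t ht), ch1 hvt]
        omega
      have hsub2 : G.N F \ G.nb v ⊆ (RR G F P P' d).erase t := by
        intro x hx
        refine mem_erase.2 ⟨fun e => ?_, hsub hx⟩
        rw [e, mem_sdiff] at hx
        exact hx.2 (G.sym _ _ hvt)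
      have heq : G.N F \ G.nb v = (RR G F P P' d).erase t :=
        eq_of_subset_of_card_le hsub2 (by rw [hcard]; omega)
      have hno : ∀ y ∈ RR G F P P' d, y ≠ t → v ∉ G.nb y := by
        intro y hy hne k
        have : y ∈ G.N F \ G.nb v := by
          rw [heq]
          exact mem_erase.2 ⟨hne, hy⟩
        exact (mem_sdiff.1 this).2 (G.sym _ _ k)
      have h6 : ∀ y ∈ RR G F P P' d, y ≠ t → G.Low y → 12 ≤ ∑ y ∈ RR G F P P' d, G.gam5 F y := by
        intro y hy hne hl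
        have e1 := c.val3 (sub_RR hy) hl (by
          rw [c.dN (sub_RR hy), ch1 (hRh y hy), ch1 (hRh' y hy), ch1 (hlr y hy hne)]
          omega)
        have e2 := c.sum2 ht hy hne.symm
        omega
      rcases lr1 (hno r hr.1 hr.2) with e1 | ⟨e1, -⟩
      · exact h6 s hs.1 hs.2 e1
      · rcases lr2 (hno s hs.1 hs.2) with f1 | ⟨f1, -⟩
        · exact h6 r hr.1 hr.2 f1
        · exact (hnHL e1 f1).elim
    · have h14 : ∀ y ∈ RR G F P P' d, y ≠ t → v ∈ G.nb y →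
          G.Low y ∨ G.HL y t l → 12 ≤ ∑ y ∈ RR G F P P' d, G.gam5 F y := by
        intro y hy hne hvy k
        have hl : G.Low y := by
          rcases k with k | k
          · exact k
          · exfalso
            rcases HL_cl33 k hvy with e | e | e
            · exact c.lv' e.symm
            · exact c.nev htN e.symm
            · exact hvt e
        have e1 : 5 ≤ G.d y F := by
          rw [c.dN (sub_RR hy), ch1 (hRh y hy), ch1 (hRh' y hy), ch1 (hlr y hy hne), ch1 hvy]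
        have e2 := (c.b.low5 F c.L.1 y (sub_RR hy) hl e1).2.2
        have e3 := c.sum1 hy
        omega
      by_cases hvr : v ∈ G.nb r
      · by_cases hvs : v ∈ G.nb s
        · exfalso
          have hsub2 : G.N F \ G.nb v ⊆ {t} := by
            intro x hx
            rw [mem_singleton]
            rcases hmem x (hsub hx) with e | e | e
            · exact e
            · rw [e, mem_sdiff] at hx
              exact absurd (G.sym _ _ hvr) hx.2
            · rw [e, mem_sdiff] at hx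
              exact absurd (G.sym _ _ hvs) hx.2
          have := card_le_card hsub2
          rw [card_singleton] at this
          omega
        · refine h14 r hr.1 hr.2 hvr ?_
          rcases lr2 hvs with e | ⟨e, -⟩
          · exact Or.inl e
          · exact Or.inr e
      · by_cases hvs : v ∈ G.nb s
        · refine h14 s hs.1 hs.2 hvs ?_
          rcases lr1 hvr with e | ⟨e, -⟩
          · exact Or.inl e
          · exact Or.inr e
        · exfalso
          have hsub2 : RR G F P P' d ⊆ G.N F \ G.nb v := by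
            intro x hx
            rw [mem_sdiff]
            refine ⟨sub_RR hx, fun k => ?_⟩
            rcases hmem x hx with e | e | e
            · exact hvt (e ▸ G.sym _ _ k)
            · exact hvr (e ▸ G.sym _ _ k)
            · exact hvs (e ▸ G.sym _ _ k)
          have := card_le_card hsub2
          rw [c.card_RR p] at this
          omega

end Cx

end J5c16

/-- J5c -/
theorem st7LHHQc_16 (G : CG V) (hBas : G.StLBas) (hB : G.StLB) (h7 : G.St7Bas) :
    G.St7LHHQc := by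
  intro F hL l h h' v w hF hne hl hh hh' ht hlv ⟨P, hP, ⟨P', hPt⟩, hno⟩
  have c : J5c16.Cx G F l h h' v w := ⟨hBas, hB, h7, hL, hF, hne, hl, hh, hh', ht, hlv⟩
  have hno' : l ∉ G.nb P ∨ v ∉ G.nb P := by
    rcases hno with k | k
    · exact Or.inl fun k' => k (G.sym _ _ k')
    · exact Or.inr fun k' => k (G.sym _ _ k')
  obtain ⟨d, p, ⟨k1, k2, k3⟩ | ⟨k1, k2, k3, k4, k5⟩⟩ := c.step1 hP hPt hno'
  · have h2 := c.dN p.mP
    rw [p.f, H6x33.ch0 k1, H6x33.ch1 k2] at h2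
    by_cases k4 : h ∈ G.nb P
    · rw [H6x33.ch1 k4] at h2
      have k5 : h' ∉ G.nb P := H6x33.ch_eq0.1 (by omega)
      rcases c.dle p with k6 | k6
      · exact c.caseB2 p k1 k2 k4 k5 k3 k6
      · exact c.caseB3 p k1 k2 k4 k5 k3 k6
    · rw [H6x33.ch0 k4] at h2
      have k5 : h' ∈ G.nb P := H6x33.ch_iff.1 (by omega)
      rcases c.dle p with k6 | k6
      · exact c.symm.caseB2 p k1 k2 k5 k4 k3 k6
      · exact c.symm.caseB3 p k1 k2 k5 k4 k3 k6
  · exact c.caseA p k1 k2 k3 k4 k5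

end CG

end Pool.Agent.Lib.MP_e95c01_co.N
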