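import Pool.Agent.Lib.MP_e95c01_co.X.StmtsJ76
import Pool.Agent.Lib.MP_e95c01_co.X.H7_53
import Pool.Agent.Lib.MP_e95c01_co.U.StTwHL5

/-!
# `λ = 3`, leaves with five vertices: a low, two hubs, a pair, all twins in `N F` see the low and
the pair (J5d)
-/

namespace Pool.Agent.Lib.MP_e95c01_co.N

open Finset

variable {V : Type} [Fintype V] [DecidableEq V]

namespace CG

variable {G : CG V} {F : Finset V}

/-- number of neighbours in a set with five vertices -/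
theorem d5_53 {l h h' v w : V} (hF : F = {l, h, h', v, w}) (n1 : l ≠ h) (n2 : l ≠ h')
    (n3 : l ≠ v) (n4 : l ≠ w) (n5 : h ≠ h') (n6 : h ≠ v) (n7 : h ≠ w) (n8 : h' ≠ v)
    (n9 : h' ≠ w) (n10 : v ≠ w) (x : V) :
    G.d x F = (if l ∈ G.nb x then 1 else 0) + (if h ∈ G.nb x then 1 else 0) +
      (if h' ∈ G.nb x then 1 else 0) + (if v ∈ G.nb x then 1 else 0) +
      (if w ∈ G.nb x then 1 else 0) := by
  have h1 : G.nb x ∩ F = F.filter (fun y => y ∈ G.nb x) := by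
    ext y
    rw [mem_inter, mem_filter]
    tauto
  rw [d, h1, card_filter, hF, sum_insert, sum_insert, sum_insert, sum_insert, sum_singleton]
  · ring
  · simpa using n10
  · simp [n8, n9]
  · simp [n5, n6, n7]
  · simp [n1, n2, n3, n4]

/-- the situation -/
structure J53 (G : CG V) (F : Finset V) (l h h' v w p p' : V) : Prop where
  lf : G.Lf F
  hF : F = {l, h, h', v, w}
  hm : ∀ x ∈ F, x = l ∨ x = h ∨ x = h' ∨ x = v ∨ x = w
  lF : l ∈ F
  hhF : h ∈ F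
  hhF' : h' ∈ F
  vF : v ∈ F
  wF : w ∈ F
  nhh : h ≠ h'
  ll : G.Low l
  hh : G.Hub h
  hh' : G.Hub h'
  tw : G.Tw v w
  lv : l ∈ G.nb v
  tp : G.Tw p p'
  pT : p ∈ G.N F
  pT' : p' ∈ G.N F
  pin : ∀ x ∈ G.N F, G.IsTw x → x ∈ G.nb l ∧ x ∈ G.nb v

namespace J53

variable {l h h' v w p p' : V}

theorem swap (C : G.J53 F l h h' v w p p') : G.J53 F l h' h v w p p' where
  lf := C.lf
  hF := by
    rw [C.hF]
    ext x
    simp only [mem_insert, mem_singleton]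
    tauto
  hm := fun x hx => by have := C.hm x hx; tauto
  lF := C.lF
  hhF := C.hhF'
  hhF' := C.hhF
  vF := C.vF
  wF := C.wF
  nhh := C.nhh.symm
  ll := C.ll
  hh := C.hh'
  hh' := C.hh
  tw := C.tw
  lv := C.lv
  tp := C.tp
  pT := C.pT
  pT' := C.pT'
  pin := C.pin

theorem n9 (C : G.J53 F l h h' v w p p') : 9 ≤ Fintype.card V :=
  le_trans (by norm_num) C.lf.n12

theorem nF {x : V} (h : x ∈ G.N F) : x ∉ F := (mem_N76.1 h).1

theorem lh (C : G.J53 F l h h' v w p p') : l ≠ h := fun e => C.hh.1 (e ▸ C.ll)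

theorem lvn (C : G.J53 F l h h' v w p p') : l ≠ v := fun e => tnl53 C.tw (e ▸ C.ll)

theorem lwn (C : G.J53 F l h h' v w p p') : l ≠ w := fun e => tnl53 (tws53 C.tw) (e ▸ C.ll)

theorem hv (C : G.J53 F l h h' v w p p') : h ≠ v := fun e => C.hh.2 ⟨w, e ▸ C.tw⟩

theorem hw (C : G.J53 F l h h' v w p p') : h ≠ w := fun e => C.hh.2 ⟨v, e ▸ tws53 C.tw⟩

/-- number of neighbours in `F` -/
theorem d5 (C : G.J53 F l h h' v w p p') (x : V) :
    G.d x F = (if l ∈ G.nb x then 1 else 0) + (if h ∈ G.nb x then 1 else 0) +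
      (if h' ∈ G.nb x then 1 else 0) + (if v ∈ G.nb x then 1 else 0) +
      (if w ∈ G.nb x then 1 else 0) :=
  d5_53 C.hF C.lh C.swap.lh C.lvn C.lwn C.nhh C.hv C.hw C.swap.hv C.swap.hw (ne_of_nb5 C.tw.1) x

theorem wiff (C : G.J53 F l h h' v w p p') {x : V} (h1 : x ≠ v) (h2 : x ≠ w) :
    w ∈ G.nb x ↔ v ∈ G.nb x :=
  ⟨fun h3 => twn53' (tws53 C.tw) h3 h1, fun h3 => twn53' C.tw h3 h2⟩

/-- the low in `F` -/
theorem lowF (C : G.J53 F l h h' v w p p') {x : V} (hx : x ∈ F) (hl : G.Low x) : x = l := by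
  rcases C.hm x hx with e | e | e | e | e
  · exact e
  · exact absurd (e ▸ hl) C.hh.1
  · exact absurd (e ▸ hl) C.hh'.1
  · exact absurd (e ▸ hl) (tnl53 C.tw)
  · exact absurd (e ▸ hl) (tnl53 (tws53 C.tw))

theorem twF (C : G.J53 F l h h' v w p p') {x : V} (hx : x ∈ F) (ht : G.IsTw x) :
    x = v ∨ x = w := by
  rcases C.hm x hx with e | e | e | e | e
  · obtain ⟨y, hy⟩ := ht
    exact absurd (e ▸ C.ll) (tnl53 hy)
  · exact absurd (e ▸ ht) C.hh.2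
  · exact absurd (e ▸ ht) C.hh'.2
  · exact Or.inl e
  · exact Or.inr e

/-- covers of an edge at `v` -/
theorem covv (C : G.J53 F l h h' v w p p') (hBas : G.StLBas) {y : V} (hy : y ∈ F ∪ G.N F)
    (hyv : y ∈ G.nb v) :
    (v ∈ G.nb l ∧ y ∈ G.nb l) ∨ (∃ c ∈ G.N F, G.Low c ∧ c ∈ G.nb v ∧ y ∈ G.nb c) ∨
    (∃ r ∈ G.N F, ∃ r' ∈ G.N F, G.Tw r r' ∧ r ∈ G.nb v ∧ y ∈ G.nb r ∧ y ∈ G.nb r') ∨
    (∃ a b, G.HL a b y ∧ a ∈ G.nb v ∧ b ∈ G.nb v ∧
      ((a ∈ F ∧ b ∈ F) ∨ (a ∈ G.N F ∧ b ∈ G.N F))) := by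
  have TH := stTwHL_5 G
  rcases C.lf.cov v C.vF y hy hyv with
    ⟨c, hc, hl, h1, h2⟩ | ⟨r, hr, r', hr', ht, h1, h2, h3, h4⟩ | ⟨a, b, hh, h1, h2, h3⟩ |
    ⟨a, b, hh, -⟩ | ⟨a, b, hh, -⟩
  · rcases mem_union.1 hc with h3 | h3
    · have e := C.lowF h3 hl
      exact Or.inl ⟨e ▸ h1, e ▸ h2⟩
    · exact Or.inr (Or.inl ⟨c, h3, hl, G.sym _ _ h1, h2⟩)
  · have hrT : r ∈ G.N F := by
      rcases mem_union.1 hr with h5 | h5
      · exfalso
        rcases C.twF h5 ⟨r', ht⟩ with e | e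
        · rw [e] at h1
          exact G.irr _ h1
        · rw [e] at ht
          have := TH.uniq C.n9 _ _ _ ht (tws53 C.tw)
          rw [this] at h2
          exact G.irr _ h2
      · exact h5
    exact Or.inr (Or.inr (Or.inl ⟨r, hrT, r', (hBas.twT F C.lf r r' ht).1 hrT, ht,
      G.sym _ _ h1, h3, h4⟩))
  · exact Or.inr (Or.inr (Or.inr ⟨a, b, hh, G.sym _ _ h2, G.sym _ _ h1, h3⟩))
  · exact absurd (C.lf.sat _ _ _ hh) (tnl53 C.tw)
  · exact absurd ⟨w, C.tw⟩ (TH.twLL _ _ _ _ hh).1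

/-- cover of `h p` for `p` with four neighbours in `F` -/
theorem covh (C : G.J53 F l h h' v w p p') (hB : G.StLB) (hp : h ∈ G.nb p) (hd : G.d p F = 4) :
    h ∈ G.nb l ∨ h ∈ G.nb v := by
  have TH := stTwHL_5 G
  have hT := hB.tw F C.lf p C.pT ⟨p', C.tp⟩
  have h1 : (G.pT F p).card ≤ 1 := by
    have := hT.2.2.2.1
    omega
  have h2 : p' ∈ G.pT F p := mem_inter.2 ⟨C.tp.1, C.pT'⟩
  have h3 : ∀ c ∈ G.N F, p ∈ G.nb c → c = p' := fun c hc hpc =>
    card_le_one.1 h1 c (mem_inter.2 ⟨G.sym _ _ hpc, hc⟩) p' h2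
  rcases C.lf.cov h C.hhF p (mem_union_right _ C.pT) (G.sym _ _ hp) with
    ⟨c, hc, hl, h4, h5⟩ | ⟨r, hr, r', hr', ht, h4, h5, h6, h7⟩ | ⟨a, b, hh, -⟩ |
    ⟨a, b, hh, -⟩ | ⟨a, b, hh, -⟩
  · rcases mem_union.1 hc with h8 | h8
    · have e := C.lowF h8 hl
      exact Or.inl (e ▸ h4)
    · have e := h3 c h8 h5
      exact absurd (e ▸ hl) (tnl53 (tws53 C.tp))
  · rcases mem_union.1 hr with h8 | h8
    · right
      rcases C.twF h8 ⟨r', ht⟩ with e | e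
      · exact e ▸ h4
      · rw [e] at h4
        exact twn53 (tws53 C.tw) h4 C.hv
    · rcases mem_union.1 hr' with h9 | h9
      · right
        rcases C.twF h9 ⟨r, tws53 ht⟩ with e | e
        · exact e ▸ h5
        · rw [e] at h5
          exact twn53 (tws53 C.tw) h5 C.hv
      · exact absurd ((h3 r h8 h6).trans (h3 r' h9 h7).symm) (ne_of_nb5 ht.1)
  · exact absurd (C.lf.sat _ _ _ hh) (tnl53 C.tp)
  · exact absurd (C.lf.sat _ _ _ hh) C.hh.1
  · exact absurd ⟨p', C.tp⟩ (TH.twLL _ _ _ _ hh).2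

/-- `Σ ≤ 2`, and the only common neighbours of `l`, `v` are `p`, `p'` if `Σ = 2` -/
theorem sig (C : G.J53 F l h h' v w p p') (hBas : G.StLBas) (h7 : G.St7Bas) (hc : F.card = 5) :
    ∃ e1 e2 t1 t2 : ℕ, (e1 = if h ∈ G.nb l then 1 else 0) ∧ (e2 = if h' ∈ G.nb l then 1 else 0) ∧
      (t1 = if h ∈ G.nb v then 1 else 0) ∧ (t2 = if h' ∈ G.nb v then 1 else 0) ∧
      e1 + e2 + t1 + t2 ≤ 2 ∧ (G.nb v ∩ G.N F).card + t1 + t2 = 5 ∧
      (e1 + e2 + t1 + t2 = 2 → ∀ x ∈ G.N F, x ∈ G.nb l → x ∈ G.nb v → x = p ∨ x = p') := by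
  have T6 : (G.N F).card = 6 := C.lf.big.1.2.1
  refine ⟨_, _, _, _, rfl, rfl, rfl, rfl, ?_⟩
  have dl := hBas.deg F C.lf l C.lF
  have dv := hBas.deg F C.lf v C.vF
  rw [C.d5] at dl dv
  have hll : (G.nb l).card = 6 := C.ll
  rw [hll, if_neg (G.irr l)] at dl
  have hvl : v ∈ G.nb l := G.sym _ _ C.lv
  have hwl : w ∈ G.nb l := (C.wiff C.lvn C.lwn).2 hvl
  rw [if_pos hvl, if_pos hwl] at dl
  rw [C.tw.2.1, if_neg (G.irr v), if_pos C.lv, if_pos C.tw.1] at dv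
  set X := G.nb l ∩ G.N F with hX
  set Y := G.nb v ∩ G.N F with hY
  have hXc : (G.Tz F l).card = X.card := rfl
  have hYc : (G.Tz F v).card = Y.card := rfl
  rw [hXc] at dl
  rw [hYc] at dv
  have hcU := card_union_add_card_inter X Y
  have hB1 : (G.N F \ (X ∪ Y)).card ≤ 1 := by
    rw [card_le_one]
    intro x hx y hy
    by_contra hne
    have k : ∀ z ∈ G.N F \ (X ∪ Y), z ∈ G.N F ∧ G.nb z ∩ F ⊆ {h, h'} := by
      intro z hz
      rw [mem_sdiff, mem_union, hX, hY, mem_inter, mem_inter] at hz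
      refine ⟨hz.1, ?_⟩
      intro u hu
      obtain ⟨hu1, hu2⟩ := mem_inter.1 hu
      have hzF := nF hz.1
      rcases C.hm u hu2 with e | e | e | e | e
      · rw [e] at hu1
        exact absurd (Or.inl ⟨G.sym _ _ hu1, hz.1⟩) hz.2
      · rw [e]; simp
      · rw [e]; simp
      · rw [e] at hu1
        exact absurd (Or.inr ⟨G.sym _ _ hu1, hz.1⟩) hz.2
      · rw [e] at hu1
        have h1 : v ∈ G.nb z := (C.wiff (x := z) (fun e' => hzF (e' ▸ C.vF))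
          (fun e' => hzF (e' ▸ C.wF))).1 hu1
        exact absurd (Or.inr ⟨G.sym _ _ h1, hz.1⟩) hz.2
    have h1 := h7.two F ⟨C.lf, hc⟩ x (k x hx).1 y (k y hy).1 hne
    have h2 : (G.nb x ∪ G.nb y) ∩ F ⊆ {h, h'} := by
      rw [union_inter_distrib_right]
      exact union_subset (k x hx).2 (k y hy).2
    have h3 := card_le_card h2
    have h4 : ({h, h'} : Finset V).card ≤ 2 := card_le_two
    omega
  have hsub : X ∪ Y ⊆ G.N F := union_subset inter_subset_right inter_subset_right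
  have hc2 := card_sdiff_add_card_eq_card hsub
  have hp1 := C.pin p C.pT ⟨p', C.tp⟩
  have hp2 := C.pin p' C.pT' ⟨p, tws53 C.tp⟩
  have hP : ({p, p'} : Finset V) ⊆ X ∩ Y := by
    intro x hx
    rw [mem_insert, mem_singleton] at hx
    rcases hx with e | e
    · rw [e]; exact mem_inter.2 ⟨mem_inter.2 ⟨hp1.1, C.pT⟩, mem_inter.2 ⟨hp1.2, C.pT⟩⟩
    · rw [e]; exact mem_inter.2 ⟨mem_inter.2 ⟨hp2.1, C.pT'⟩, mem_inter.2 ⟨hp2.2, C.pT'⟩⟩
  have hPc := card_le_card hP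
  rw [card_pair (ne_of_nb5 C.tp.1)] at hPc
  refine ⟨by omega, by omega, ?_⟩
  intro hs x hx h1 h2
  have h3 : ({p, p'} : Finset V) = X ∩ Y :=
    eq_of_subset_of_card_le hP (by rw [card_pair (ne_of_nb5 C.tp.1)]; omega)
  have h4 : x ∈ X ∩ Y := mem_inter.2 ⟨mem_inter.2 ⟨h1, hx⟩, mem_inter.2 ⟨h2, hx⟩⟩
  rw [← h3, mem_insert, mem_singleton] at h4
  exact h4

/-- `p` misses `h`: then `h ~ v` -/
theorem missh (C : G.J53 F l h h' v w p p') (hBas : G.StLBas) (hp : h ∉ G.nb p) :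
    h ∈ G.nb v ∧ (h ∈ G.nb l ∨ h' ∈ G.nb h) := by
  have T6 : (G.N F).card = 6 := C.lf.big.1.2.1
  have dh := hBas.deg F C.lf h C.hhF
  rw [C.d5, if_neg (G.irr h)] at dh
  have h1 := G.deg h
  have h2 : (G.nb h).card ≠ 6 := C.hh.1
  have hph : p ∉ G.nb h := fun h3 => hp (G.sym _ _ h3)
  have hph' : p' ∉ G.nb h := by
    intro h3
    exact hp (G.sym _ _ (twn53' (tws53 C.tp) h3 (fun e => nF C.pT (e ▸ C.hhF))))
  have h3 : G.Tz F h ⊆ (G.N F).erase p := by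
    intro x hx
    have h4 := mem_inter.1 hx
    exact mem_erase.2 ⟨fun e => hph (e ▸ h4.1), h4.2⟩
  have h4 : G.Tz F h ⊆ ((G.N F).erase p).erase p' := by
    intro x hx
    exact mem_erase.2 ⟨fun e => hph' (e ▸ (mem_inter.1 hx).1), h3 hx⟩
  have h5 := card_le_card h4
  rw [card_erase_of_mem (mem_erase.2 ⟨(ne_of_nb5 C.tp.1).symm, C.pT'⟩), card_erase_of_mem C.pT,
    T6] at h5
  have hvw : (if w ∈ G.nb h then 1 else 0) = (if v ∈ G.nb h then 1 else 0 : ℕ) := by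
    by_cases h6 : v ∈ G.nb h
    · rw [if_pos h6, if_pos ((C.wiff C.hv C.hw).2 h6)]
    · rw [if_neg h6, if_neg (fun h7 => h6 ((C.wiff C.hv C.hw).1 h7))]
  rw [hvw] at dh
  by_cases h6 : v ∈ G.nb h
  · refine ⟨G.sym _ _ h6, ?_⟩
    by_contra hcon
    push Not at hcon
    have h7 : l ∉ G.nb h := fun h8 => hcon.1 (G.sym _ _ h8)
    rw [if_neg h7, if_neg hcon.2, if_pos h6] at dh
    omega
  · exfalso
    rw [if_neg h6] at dh
    split_ifs at dh <;> omega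

/-- the low class at `v h` -/
theorem lowc (C : G.J53 F l h h' v w p p') (hBas : G.StLBas) (hl : h ∉ G.nb l)
    (hv : h ∈ G.nb v) (hp : h ∉ G.nb p)
    (hZ : ∀ x ∈ G.N F, x ∈ G.nb l → x ∈ G.nb v → x = p ∨ x = p') :
    ∃ c ∈ G.N F, G.Low c ∧ c ∈ G.nb v ∧ c ∉ G.nb l ∧ h ∈ G.nb c ∧ c ≠ p ∧ c ≠ p' := by
  have hp' : h ∉ G.nb p' := fun h3 =>
    hp (twn53 (tws53 C.tp) h3 (fun e => nF C.pT (e ▸ C.hhF)))
  rcases C.covv hBas (mem_union_left _ C.hhF) hv with h1 | ⟨c, h1, h2, h3, h4⟩ |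
    ⟨r, h1, r', h2, h3, h4, h5, h6⟩ | ⟨a, b, h1, -⟩
  · exact absurd h1.2 hl
  · have n1 : c ≠ p := fun e => tnl53 C.tp (e ▸ h2)
    have n2 : c ≠ p' := fun e => tnl53 (tws53 C.tp) (e ▸ h2)
    refine ⟨c, h1, h2, h3, fun h5 => ?_, h4, n1, n2⟩
    rcases hZ c h1 h5 h3 with e | e
    · exact n1 e
    · exact n2 e
  · exfalso
    have h7 := C.pin r h1 ⟨r', h3⟩
    rcases hZ r h1 h7.1 h7.2 with e | e
    · exact hp (e ▸ h5)
    · exact hp' (e ▸ h5)
  · exact absurd (C.lf.sat _ _ _ h1) C.hh.1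

/-- cover of `v c` for a low `c` not adjacent to `l` -/
theorem covc (C : G.J53 F l h h' v w p p') (hBas : G.StLBas)
    (hZ : ∀ x ∈ G.N F, x ∈ G.nb l → x ∈ G.nb v → x = p ∨ x = p')
    (nh : ¬ (h ∈ G.nb l ∧ h ∈ G.nb v)) (nh' : ¬ (h' ∈ G.nb l ∧ h' ∈ G.nb v)) {c : V}
    (hc : c ∈ G.N F) (hcl : G.Low c) (hcv : c ∈ G.nb v) (hcn : c ∉ G.nb l) :
    (∃ c2 ∈ G.N F, G.Low c2 ∧ c2 ∈ G.nb v ∧ c ∈ G.nb c2 ∧ c2 ≠ p ∧ c2 ≠ p' ∧ c2 ≠ c) ∨
    (c ∈ G.nb p ∧ c ∈ G.nb p') ∨ 5 ≤ (G.nb v ∩ G.N F).card := by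
  have TH := stTwHL_5 G
  rcases C.covv hBas (mem_union_right _ hc) hcv with h1 | ⟨c2, h1, h2, h3, h4⟩ |
    ⟨r, h1, r', h2, h3, h4, h5, h6⟩ | ⟨a, b, h1, h2, h3, h4⟩
  · exact absurd h1.2 hcn
  · exact Or.inl ⟨c2, h1, h2, h3, h4, fun e => tnl53 C.tp (e ▸ h2),
      fun e => tnl53 (tws53 C.tp) (e ▸ h2), fun e => G.irr c (by rw [e] at h4; exact h4)⟩
  · refine Or.inr (Or.inl ?_)
    have h7 := C.pin r h1 ⟨r', h3⟩
    have h8 := C.pin r' h2 ⟨r, tws53 h3⟩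
    have hne : r ≠ r' := ne_of_nb5 h3.1
    rcases hZ r h1 h7.1 h7.2 with e | e <;> rcases hZ r' h2 h8.1 h8.2 with e' | e'
    · exact absurd (e.trans e'.symm) hne
    · exact ⟨e ▸ h5, e' ▸ h6⟩
    · exact ⟨e' ▸ h6, e ▸ h5⟩
    · exact absurd (e.trans e'.symm) hne
  · have hbl : G.Low b := h1.2.1
    have hba : b ∈ G.nb a := h1.2.2.1
    have hatw : ¬ G.IsTw a := TH.notHL C.n9 _ _ _ h1
    rcases h4 with ⟨ha, hb⟩ | ⟨ha, hb⟩
    · exfalso
      have e := C.lowF hb hbl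
      rw [e] at hba
      rcases C.hm a ha with e' | e' | e' | e' | e'
      · rw [e'] at hba; exact G.irr _ hba
      · rw [e'] at hba h2; exact nh ⟨G.sym _ _ hba, h2⟩
      · rw [e'] at hba h2; exact nh' ⟨G.sym _ _ hba, h2⟩
      · rw [e'] at h2; exact G.irr _ h2
      · exact hatw (e' ▸ ⟨v, tws53 C.tw⟩)
    · refine Or.inr (Or.inr ?_)
      have p1 := C.pin p C.pT ⟨p', C.tp⟩
      have p2 := C.pin p' C.pT' ⟨p, tws53 C.tp⟩
      have q1 : a ≠ p := fun e => hatw (e ▸ ⟨p', C.tp⟩)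
      have q2 : a ≠ p' := fun e => hatw (e ▸ ⟨p, tws53 C.tp⟩)
      have q3 : b ≠ p := fun e => tnl53 C.tp (e ▸ hbl)
      have q4 : b ≠ p' := fun e => tnl53 (tws53 C.tp) (e ▸ hbl)
      have q5 : a ≠ b := ne_of_nb5 hba
      have q6 : c ≠ b := fun e => h1.2.2.2.1 (by rw [e]; exact mem_insert_self _ _)
      have q7 : c ≠ a := by
        intro e
        rw [← e] at h1
        have h5 := h1.1
        have h6 : (G.nb c).card = 6 := hcl
        omega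
      have q8 : c ≠ p := fun e => tnl53 C.tp (e ▸ hcl)
      have q9 : c ≠ p' := fun e => tnl53 (tws53 C.tp) (e ▸ hcl)
      have q10 : p ≠ p' := ne_of_nb5 C.tp.1
      have hs : ({a, b, c, p, p'} : Finset V) ⊆ G.nb v ∩ G.N F := by
        intro x hx
        simp only [mem_insert, mem_singleton] at hx
        rcases hx with e | e | e | e | e
        · rw [e]; exact mem_inter.2 ⟨h2, ha⟩
        · rw [e]; exact mem_inter.2 ⟨h3, hb⟩
        · rw [e]; exact mem_inter.2 ⟨hcv, hc⟩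
        · rw [e]; exact mem_inter.2 ⟨p1.2, C.pT⟩
        · rw [e]; exact mem_inter.2 ⟨p2.2, C.pT'⟩
      have h5 := card_le_card hs
      rw [card_insert_of_notMem, card_insert_of_notMem, card_insert_of_notMem, card_pair q10] at h5
      · exact h5
      · simp [q8, q9]
      · simp [q3, q4, q6.symm]
      · simp [q1, q2, q5, q7.symm]

/-- the value of `c` with four neighbours in `F` and a low neighbour in `N F` -/
theorem val12 (C : G.J53 F l h h' v w p p') (hB : G.StLB) {c c2 : V} (hc : c ∈ G.N F)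
    (hl : G.Low c) (hd : G.d c F = 4) (hc2 : c2 ∈ G.N F) (hl2 : G.Low c2) (hcc : c2 ∈ G.nb c) :
    12 ≤ G.gam5 F c := by
  obtain ⟨h1, -, h3⟩ := hB.low4 F C.lf c hc hl hd
  have h5 : c2 ∈ G.pT F c := mem_inter.2 ⟨hcc, hc2⟩
  have h6 : 1 ≤ (G.pT F c).card := card_pos.2 ⟨c2, h5⟩
  rcases h3 with h3 | ⟨a, b, -, -, -, h7, h8⟩
  · omega
  · rw [h7, mem_singleton] at h5
    rw [← h5] at h8
    exact absurd hl2 h8.1

/-- `p` misses both hubs -/
theorem three (C : G.J53 F l h h' v w p p') (hBas : G.StLBas) (h7 : G.St7Bas) (hB : G.StLB)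
    (hc : F.card = 5) (hp : h ∉ G.nb p) (hp' : h' ∉ G.nb p) : False := by
  obtain ⟨e1, e2, t1, t2, E1, E2, T1, T2, hs, hY, hZ⟩ := C.sig hBas h7 hc
  have m1 := (C.missh hBas hp).1
  have m2 := (C.swap.missh hBas hp').1
  rw [if_pos m1] at T1
  rw [if_pos m2] at T2
  have hl : h ∉ G.nb l := by
    intro h1
    rw [if_pos h1] at E1
    omega
  have hl' : h' ∉ G.nb l := by
    intro h1
    rw [if_pos h1] at E2
    omega
  rw [if_neg hl] at E1
  rw [if_neg hl'] at E2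
  have hZ' := hZ (by omega)
  obtain ⟨c, c1, c2, c3, c4, c5, c6, c7⟩ := C.lowc hBas hl m1 hp hZ'
  obtain ⟨c', c1', c2', c3', c4', c5', c6', c7'⟩ := C.swap.lowc hBas hl' m2 hp' hZ'
  have p1 := C.pin p C.pT ⟨p', C.tp⟩
  have p2 := C.pin p' C.pT' ⟨p, tws53 C.tp⟩
  -- only one more neighbour
  have uniq : ∀ x y, x ∈ G.N F → y ∈ G.N F → x ∈ G.nb v → y ∈ G.nb v → x ≠ p → x ≠ p' → y ≠ p →
      y ≠ p' → x = y := by
    intro x y hx hy hxv hyv n1 n2 n3 n4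
    by_contra hne
    have hs : ({x, y, p, p'} : Finset V) ⊆ G.nb v ∩ G.N F := by
      intro z hz
      simp only [mem_insert, mem_singleton] at hz
      rcases hz with e | e | e | e
      · rw [e]; exact mem_inter.2 ⟨hxv, hx⟩
      · rw [e]; exact mem_inter.2 ⟨hyv, hy⟩
      · rw [e]; exact mem_inter.2 ⟨p1.2, C.pT⟩
      · rw [e]; exact mem_inter.2 ⟨p2.2, C.pT'⟩
    have h5 := card_le_card hs
    rw [card_insert_of_notMem, card_insert_of_notMem, card_pair (ne_of_nb5 C.tp.1)] at h5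
    · omega
    · simp [n3, n4]
    · simp [n1, n2, hne]
  have ec : c' = c := uniq c' c c1' c1 c3' c3 c6' c7' c6 c7
  rw [ec] at c5'
  have hcF := nF c1
  have hvc : v ∈ G.nb c := G.sym _ _ c3
  have hwc : w ∈ G.nb c := (C.wiff (x := c) (fun e => hcF (e ▸ C.vF)) (fun e => hcF (e ▸ C.wF))).2 hvc
  have hd : G.d c F = 4 := by
    rw [C.d5, if_neg (fun h1 => c4 (G.sym _ _ h1)), if_pos c5, if_pos c5', if_pos hvc, if_pos hwc]
  have hc1 := (hB.low4 F C.lf c c1 c2 hd).1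
  rcases C.covc hBas hZ' (fun h1 => hl h1.1) (fun h1 => hl' h1.1) c1 c2 c3 c4 with
    ⟨x, x1, -, x3, -, x5, x6, x7⟩ | h1 | h1
  · exact x7 (uniq x c x1 c1 x3 c3 x5 x6 c6 c7)
  · exact (ne_of_nb5 C.tp.1) (card_le_one.1 hc1 p (mem_inter.2 ⟨G.sym _ _ h1.1, C.pT⟩) p'
      (mem_inter.2 ⟨G.sym _ _ h1.2, C.pT'⟩))
  · omega

/-- `p` misses `h'` only -/
theorem four (C : G.J53 F l h h' v w p p') (hBas : G.StLBas) (h7 : G.St7Bas) (hB : G.StLB)
    (hc : F.card = 5) (hp : h ∈ G.nb p) (hp' : h' ∉ G.nb p) :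
    20 ≤ ∑ x ∈ G.N F, G.gam5 F x := by
  obtain ⟨e1, e2, t1, t2, E1, E2, T1, T2, hs, hY, hZ⟩ := C.sig hBas h7 hc
  have p1 := C.pin p C.pT ⟨p', C.tp⟩
  have p2 := C.pin p' C.pT' ⟨p, tws53 C.tp⟩
  have T6 : (G.N F).card = 6 := C.lf.big.1.2.1
  have hpF := nF C.pT
  have hdp : G.d p F = 4 := by
    have hvp : v ∈ G.nb p := G.sym _ _ p1.2
    have hwp : w ∈ G.nb p := (C.wiff (x := p) (fun e => hpF (e ▸ C.vF))
      (fun e => hpF (e ▸ C.wF))).2 hvp
    rw [C.d5, if_pos (G.sym _ _ p1.1), if_pos hp, if_neg hp', if_pos hvp, if_pos hwp]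
  have hpF' := nF C.pT'
  have hph' : h' ∉ G.nb p' := fun h3 =>
    hp' (twn53 (tws53 C.tp) h3 (fun e => hpF (e ▸ C.hhF')))
  have hdp' : G.d p' F = 4 := by
    have hvp : v ∈ G.nb p' := G.sym _ _ p2.2
    have hwp : w ∈ G.nb p' := (C.wiff (x := p') (fun e => hpF' (e ▸ C.vF))
      (fun e => hpF' (e ▸ C.wF))).2 hvp
    have hhp : h ∈ G.nb p' := twn53 C.tp hp (fun e => hpF' (e ▸ C.hhF))
    rw [C.d5, if_pos (G.sym _ _ p2.1), if_pos hhp, if_neg hph', if_pos hvp, if_pos hwp]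
  have m2 := C.swap.missh hBas hp'
  have ch := C.covh hB hp hdp
  rw [if_pos m2.1] at T2
  -- `Σ = 2`
  have hl' : h' ∉ G.nb l := by
    intro h1
    rw [if_pos h1] at E2
    rcases ch with h2 | h2
    · rw [if_pos h2] at E1; omega
    · rw [if_pos h2] at T1; omega
  have hhh : h ∈ G.nb h' := by
    rcases m2.2 with h1 | h1
    · exact absurd h1 hl'
    · exact h1
  rw [if_neg hl'] at E2
  have hs2 : e1 + t1 = 1 := by
    rcases ch with h2 | h2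
    · rw [if_pos h2] at E1; omega
    · rw [if_pos h2] at T1; omega
  have hZ' := hZ (by omega)
  have nh : ¬ (h ∈ G.nb l ∧ h ∈ G.nb v) := by
    rintro ⟨h1, h2⟩
    rw [if_pos h1] at E1
    rw [if_pos h2] at T1
    omega
  obtain ⟨c, c1, c2, c3, c4, c5, c6, c7⟩ := C.swap.lowc hBas hl' m2.1 hp' hZ'
  have hpt : (G.pT F p).card ≤ 1 := by
    have := (hB.tw F C.lf p C.pT ⟨p', C.tp⟩).2.2.2.1
    omega
  rcases C.covc hBas hZ' nh (fun h1 => hl' h1.1) c1 c2 c3 c4 with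
    ⟨x, x1, x2, x3, x4, x5, x6, x7⟩ | h1 | h1
  rotate_left
  · exact absurd (card_le_one.1 hpt c (mem_inter.2 ⟨h1.1, c1⟩) p'
      (mem_inter.2 ⟨C.tp.1, C.pT'⟩)) c7
  · omega
  have hs : ({x, c, p, p'} : Finset V) ⊆ G.nb v ∩ G.N F := by
    intro z hz
    simp only [mem_insert, mem_singleton] at hz
    rcases hz with e | e | e | e
    · rw [e]; exact mem_inter.2 ⟨x3, x1⟩
    · rw [e]; exact mem_inter.2 ⟨c3, c1⟩
    · rw [e]; exact mem_inter.2 ⟨p1.2, C.pT⟩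
    · rw [e]; exact mem_inter.2 ⟨p2.2, C.pT'⟩
  have hcard : ({x, c, p, p'} : Finset V).card = 4 := by
    rw [card_insert_of_notMem, card_insert_of_notMem, card_pair (ne_of_nb5 C.tp.1)]
    · simp [c6, c7]
    · simp [x5, x6, x7]
  have h5 := card_le_card hs
  rw [hcard] at h5
  have ht1 : t1 = 0 := by omega
  have he1 : e1 = 1 := by omega
  have hlh : h ∈ G.nb l := by
    by_contra h1
    rw [if_neg h1] at E1
    omega
  have hvh : h ∉ G.nb v := by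
    intro h1
    rw [if_pos h1] at T1
    omega
  -- everything else sees `h'`
  have dh' := hBas.deg F C.lf h' C.hhF'
  have dh := hBas.deg F C.lf h C.hhF
  rw [C.d5] at dh dh'
  have w1 : w ∉ G.nb h := fun h1 => hvh (G.sym _ _ ((C.wiff C.hv C.hw).1 h1))
  rw [if_pos (G.sym _ _ hlh), if_neg (G.irr h), if_pos (G.sym _ _ hhh),
    if_neg (fun h1 => hvh (G.sym _ _ h1)), if_neg w1] at dh
  have v1 : v ∈ G.nb h' := G.sym _ _ m2.1
  have w2 : w ∈ G.nb h' := (C.wiff C.swap.hv C.swap.hw).2 v1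
  rw [if_neg (fun h1 => hl' (G.sym _ _ h1)), if_pos hhh, if_neg (G.irr h'), if_pos v1,
    if_pos w2] at dh'
  have g1 := G.deg h
  have g2 : (G.nb h).card ≠ 6 := C.hh.1
  have g3 := G.deg h'
  have g4 : (G.nb h').card ≠ 6 := C.hh'.1
  have hTh' : G.Tz F h' = ((G.N F).erase p).erase p' := by
    apply eq_of_subset_of_card_le
    · intro z hz
      have h8 := mem_inter.1 hz
      exact mem_erase.2 ⟨fun e => hph' (G.sym _ _ (e ▸ h8.1)),
        mem_erase.2 ⟨fun e => hp' (G.sym _ _ (e ▸ h8.1)), h8.2⟩⟩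
    · rw [card_erase_of_mem (mem_erase.2 ⟨(ne_of_nb5 C.tp.1).symm, C.pT'⟩),
        card_erase_of_mem C.pT, T6]
      omega
  have hTh : ((G.N F) \ G.Tz F h).card ≤ 1 := by
    have h8 := card_sdiff_add_card_eq_card (show G.Tz F h ⊆ G.N F from inter_subset_right)
    omega
  have hxh' : h' ∈ G.nb x := by
    have h8 : x ∈ G.Tz F h' := by
      rw [hTh']
      exact mem_erase.2 ⟨x6, mem_erase.2 ⟨x5, x1⟩⟩
    exact G.sym _ _ (mem_inter.1 h8).1
  have x4' : x ∉ G.nb l := by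
    intro h8
    rcases hZ' x x1 h8 x3 with e | e
    · exact x5 e
    · exact x6 e
  have hcF := nF c1
  have hxF := nF x1
  have dd : ∀ z, z ∈ G.N F → z ∈ G.nb v → z ∉ G.nb l → h' ∈ G.nb z →
      G.d z F = 3 + if h ∈ G.nb z then 1 else 0 := by
    intro z hz hzv hzl hzh
    have hzF := nF hz
    have hvz : v ∈ G.nb z := G.sym _ _ hzv
    have hwz : w ∈ G.nb z := (C.wiff (x := z) (fun e => hzF (e ▸ C.vF))
      (fun e => hzF (e ▸ C.wF))).2 hvz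
    rw [C.d5, if_neg (fun h1 => hzl (G.sym _ _ h1)), if_pos hzh, if_pos hvz, if_pos hwz]
    ring
  have dc := dd c c1 c3 c4 c5
  have dx := dd x x1 x3 x4' hxh'
  have six : ∀ z, z ∈ G.N F → G.Low z → 3 ≤ G.d z F → G.d z F ≤ 4 → 6 ≤ G.gam5 F z := by
    intro z hz hl h8 h9
    rcases Nat.lt_or_ge (G.d z F) 4 with h10 | h10
    · exact (hB.low3 F C.lf z hz hl (by omega)).2.1
    · have := (hB.low4 F C.lf z hz hl (by omega)).2.1
      omega
  have val : 18 ≤ G.gam5 F x + G.gam5 F c := by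
    by_cases hch : h ∈ G.nb c
    · rw [if_pos hch] at dc
      have h8 := C.val12 hB c1 c2 dc x1 x2 (G.sym _ _ x4)
      have h9 := six x x1 x2 (by omega) (by rw [dx]; split_ifs <;> omega)
      omega
    · have hxh : h ∈ G.nb x := by
        by_contra hcon
        have k1 : c ∈ (G.N F) \ G.Tz F h :=
          mem_sdiff.2 ⟨c1, fun h8 => hch (G.sym _ _ (mem_inter.1 h8).1)⟩
        have k2 : x ∈ (G.N F) \ G.Tz F h :=
          mem_sdiff.2 ⟨x1, fun h8 => hcon (G.sym _ _ (mem_inter.1 h8).1)⟩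
        exact x7 (card_le_one.1 hTh x k2 c k1)
      rw [if_pos hxh] at dx
      have h8 := C.val12 hB x1 x2 dx c1 c2 x4
      have h9 := six c c1 c2 (by omega) (by rw [dc]; split_ifs <;> omega)
      omega
  have vp := (hB.tw F C.lf p C.pT ⟨p', C.tp⟩).2.2.2.2.2 hdp
  have vp' := (hB.tw F C.lf p' C.pT' ⟨p, tws53 C.tp⟩).2.2.2.2.2 hdp'
  have hsum : ∑ z ∈ ({x, c, p, p'} : Finset V), G.gam5 F z ≤ ∑ z ∈ G.N F, G.gam5 F z :=
    sum_le_sum_of_subset_of_nonneg (hs.trans inter_subset_right)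
      (fun z hz _ => h7.nn F ⟨C.lf, hc⟩ z hz)
  rw [sum_insert, sum_insert, sum_pair (ne_of_nb5 C.tp.1)] at hsum
  · omega
  · simp [c6, c7]
  · simp [x5, x6, x7]

end J53

theorem st7LHHQd_53 (G : CG V) (hBas : G.StLBas) (h7 : G.St7Bas) (hB : G.StLB) :
    G.St7LHHQd := by
  rintro F ⟨hL, hc⟩ l h h' v w hF hne hl hh hh' ht hlv ⟨p, hp, p', hpp⟩ hall
  have hm : ∀ x ∈ F, x = l ∨ x = h ∨ x = h' ∨ x = v ∨ x = w := by
    intro x hx
    rw [hF] at hx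
    simpa only [mem_insert, mem_singleton] using hx
  have C : G.J53 F l h h' v w p p' :=
    { lf := hL, hF := hF, hm := hm, lF := by rw [hF]; simp, hhF := by rw [hF]; simp,
      hhF' := by rw [hF]; simp, vF := by rw [hF]; simp, wF := by rw [hF]; simp, nhh := hne,
      ll := hl, hh := hh, hh' := hh', tw := ht, lv := hlv, tp := hpp, pT := hp,
      pT' := (hBas.twT F hL p p' hpp).1 hp, pin := hall }
  by_cases h1 : h ∈ G.nb p
  · by_cases h2 : h' ∈ G.nb p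
    · exfalso
      have hpF := J53.nF hp
      have p1 := hall p hp ⟨p', hpp⟩
      have hvp : v ∈ G.nb p := G.sym _ _ p1.2
      have hwp : w ∈ G.nb p := (C.wiff (x := p) (fun e => hpF (e ▸ C.vF))
        (fun e => hpF (e ▸ C.wF))).2 hvp
      have hd : G.d p F = 5 := by
        rw [C.d5, if_pos (G.sym _ _ p1.1), if_pos h1, if_pos h2, if_pos hvp, if_pos hwp]
      have h3 := (hB.tw F hL p hp ⟨p', hpp⟩).2.1
      omega
    · exact C.four hBas h7 hB hc h1 h2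
  · by_cases h2 : h' ∈ G.nb p
    · exact C.swap.four hBas h7 hB hc h2 h1
    · exact (C.three hBas h7 hB hc h1 h2).elim

end CG

end Pool.Agent.Lib.MP_e95c01_co.N
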