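import Pool.Agent.Lib.MP_e95c01_co.X.J0_11
import Pool.Agent.Lib.MP_e95c01_co.T.F7_28

/-!
# `λ = 3`, leaves with five vertices: a low and two pairs of twins (J6)
-/

namespace Pool.Agent.Lib.MP_e95c01_co.N

open Finset

variable {V : Type} [Fintype V] [DecidableEq V]

namespace CG

/-- the situation -/
structure C88 (G : CG V) (F : Finset V) (l v w v' w' : V) : Prop where
  bas : G.StLBas
  b : G.StLB
  b7 : G.St7Bas
  h5 : G.L5 F
  eF : F = {l, v, w, v', w'}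
  ll : G.Low l
  t1 : G.Tw v w
  t2 : G.Tw v' w'
  n1 : v ≠ v'
  n2 : v ≠ w'

variable {G : CG V} {F : Finset V} {l v w v' w' : V}

namespace C88

theorem n9 (h : C88 G F l v w v' w') : 9 ≤ Fintype.card V := le_trans (by norm_num) h.h5.1.n12

theorem lv (h : C88 G F l v w v' w') : l ≠ v := fun e => tw_not_low11 ⟨w, h.t1⟩ (e ▸ h.ll)

theorem lw (h : C88 G F l v w v' w') : l ≠ w := fun e =>
  tw_not_low11 ⟨v, h.t1.sym33⟩ (e ▸ h.ll)

theorem lv' (h : C88 G F l v w v' w') : l ≠ v' := fun e => tw_not_low11 ⟨w', h.t2⟩ (e ▸ h.ll)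

theorem lw' (h : C88 G F l v w v' w') : l ≠ w' := fun e =>
  tw_not_low11 ⟨v', h.t2.sym33⟩ (e ▸ h.ll)

theorem vw (h : C88 G F l v w v' w') : v ≠ w := ne_of_nb5 h.t1.1

theorem v'w' (h : C88 G F l v w v' w') : v' ≠ w' := ne_of_nb5 h.t2.1

theorem wv' (h : C88 G F l v w v' w') : w ≠ v' := by
  rintro rfl
  exact h.n2 ((stTwHL_5 G).uniq h.n9 _ _ _ h.t1.sym33 h.t2)

theorem ww' (h : C88 G F l v w v' w') : w ≠ w' := by
  rintro rfl
  exact h.n1 ((stTwHL_5 G).uniq h.n9 _ _ _ h.t1.sym33 h.t2.sym33)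

theorem symm (h : C88 G F l v w v' w') : C88 G F l v' w' v w where
  bas := h.bas
  b := h.b
  b7 := h.b7
  h5 := h.h5
  eF := by
    rw [h.eF]
    ext x
    simp only [mem_insert, mem_singleton]
    tauto
  ll := h.ll
  t1 := h.t2
  t2 := h.t1
  n1 := h.n1.symm
  n2 := h.wv'.symm

theorem memF (h : C88 G F l v w v' w') {x : V} :
    x ∈ F ↔ x = l ∨ x = v ∨ x = w ∨ x = v' ∨ x = w' := by
  rw [h.eF]
  simp only [mem_insert, mem_singleton]

theorem lF (h : C88 G F l v w v' w') : l ∈ F := h.memF.2 (Or.inl rfl)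

theorem vF (h : C88 G F l v w v' w') : v ∈ F := h.memF.2 (Or.inr (Or.inl rfl))

theorem v'F (h : C88 G F l v w v' w') : v' ∈ F := h.symm.vF

theorem notN (_ : C88 G F l v w v' w') {x y : V} (hx : x ∈ F) (hy : y ∈ G.N F) : y ≠ x := by
  rintro rfl
  exact (mem_N76.1 hy).1 hx

/-- elements of `F` -/
theorem cases (h : C88 G F l v w v' w') {x : V} (hx : x ∈ F) : x = l ∨ G.IsTw x := by
  rcases h.memF.1 hx with rfl | rfl | rfl | rfl | rfl
  · exact Or.inl rfl
  · exact Or.inr ⟨_, h.t1⟩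
  · exact Or.inr ⟨_, h.t1.sym33⟩
  · exact Or.inr ⟨_, h.t2⟩
  · exact Or.inr ⟨_, h.t2.sym33⟩

theorem dsum (h : C88 G F l v w v' w') (y : V) : G.d y F =
    (if l ∈ G.nb y then 1 else 0) + ((if v ∈ G.nb y then 1 else 0) +
      ((if w ∈ G.nb y then 1 else 0) + ((if v' ∈ G.nb y then 1 else 0) +
        (if w' ∈ G.nb y then 1 else 0)))) := by
  have e : G.nb y ∩ F = F.filter (fun x => x ∈ G.nb y) := by
    ext x
    rw [mem_inter, mem_filter]
    exact and_comm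
  have e1 : F.filter (fun x => x ∈ G.nb y) =
      ({l, v, w, v', w'} : Finset V).filter (fun x => x ∈ G.nb y) := by rw [← h.eF]
  unfold d
  rw [e, e1, card_filter, sum_insert, sum_insert, sum_insert, sum_insert, sum_singleton]
  · simpa using h.v'w'
  · simp [h.wv', h.ww']
  · simp [h.vw, h.n1, h.n2]
  · simp [h.lv, h.lw, h.lv', h.lw']

/-- for a vertex of `N F` -/
theorem dT (h : C88 G F l v w v' w') {y : V} (hy : y ∈ G.N F) : G.d y F =
    (if y ∈ G.nb l then 1 else 0) + 2 * (if y ∈ G.nb v then 1 else 0) +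
      2 * (if y ∈ G.nb v' then 1 else 0) := by
  have key : ∀ {a b : V}, G.Tw a b → a ∈ F → b ∈ F → (a ∈ G.nb y ↔ b ∈ G.nb y) := by
    intro a b hab ha hb
    exact ⟨fun h1 => hab.adj33 h1 (h.notN hb hy), fun h1 => hab.sym33.adj33 h1 (h.notN ha hy)⟩
  have k1 := key h.t1 h.vF (h.memF.2 (by tauto))
  have k2 := key h.t2 h.v'F (h.memF.2 (by tauto))
  have s : ∀ a : V, (a ∈ G.nb y ↔ y ∈ G.nb a) := fun a => ⟨G.sym _ _, G.sym _ _⟩
  rw [h.dsum y]
  simp only [← k1, ← k2, s]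
  split_ifs <;> omega

theorem dl (h : C88 G F l v w v' w') : G.d l F =
    2 * (if l ∈ G.nb v then 1 else 0) + 2 * (if l ∈ G.nb v' then 1 else 0) := by
  have k1 : (v ∈ G.nb l ↔ w ∈ G.nb l) :=
    ⟨fun h1 => h.t1.adj33 h1 h.lw, fun h1 => h.t1.sym33.adj33 h1 h.lv⟩
  have k2 : (v' ∈ G.nb l ↔ w' ∈ G.nb l) :=
    ⟨fun h1 => h.t2.adj33 h1 h.lw', fun h1 => h.t2.sym33.adj33 h1 h.lv'⟩
  have s : ∀ a : V, (a ∈ G.nb l ↔ l ∈ G.nb a) := fun a => ⟨G.sym _ _, G.sym _ _⟩
  rw [h.dsum l]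
  simp only [← k1, ← k2, s, G.irr l, if_false]
  split_ifs <;> omega

theorem dv (h : C88 G F l v w v' w') : G.d v F =
    1 + (if l ∈ G.nb v then 1 else 0) + 2 * (if v' ∈ G.nb v then 1 else 0) := by
  have k2 : (v' ∈ G.nb v ↔ w' ∈ G.nb v) :=
    ⟨fun h1 => h.t2.adj33 h1 h.n2, fun h1 => h.t2.sym33.adj33 h1 h.n1⟩
  rw [h.dsum v]
  simp only [← k2, G.irr v, if_false, h.t1.1, if_true]
  split_ifs <;> omega

theorem card_miss (h : C88 G F l v w v' w') {x : V} (hx : x ∈ F) :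
    ((G.N F).filter (fun y => y ∉ G.nb x)).card + (G.nb x).card = 6 + G.d x F := by
  have h1 := h.bas.deg F h.h5.1 x hx
  have h2 : ((G.N F).filter (fun y => y ∈ G.nb x)).card = (G.Tz F x).card := by
    congr 1
    ext y
    rw [mem_filter, mem_Tz28]
    exact and_comm
  have h3 := card_filter_add_card_filter_not (s := G.N F) (fun y => y ∈ G.nb x)
  have h6 : (G.N F).card = 6 := h.h5.1.big.1.2.1
  omega

theorem ml (h : C88 G F l v w v' w') : ((G.N F).filter (fun y => y ∉ G.nb l)).card =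
    2 * (if l ∈ G.nb v then 1 else 0) + 2 * (if l ∈ G.nb v' then 1 else 0) := by
  have h1 := h.card_miss h.lF
  have h2 : (G.nb l).card = 6 := h.ll
  rw [h.dl] at h1
  omega

theorem mv (h : C88 G F l v w v' w') : ((G.N F).filter (fun y => y ∉ G.nb v)).card =
    (if l ∈ G.nb v then 1 else 0) + 2 * (if v' ∈ G.nb v then 1 else 0) := by
  have h1 := h.card_miss h.vF
  have h2 : (G.nb v).card = 7 := h.t1.2.1
  rw [h.dv] at h1
  omega

theorem mv' (h : C88 G F l v w v' w') : ((G.N F).filter (fun y => y ∉ G.nb v')).card =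
    (if l ∈ G.nb v' then 1 else 0) + 2 * (if v' ∈ G.nb v then 1 else 0) := by
  have h1 := h.symm.mv
  have s : (v ∈ G.nb v' ↔ v' ∈ G.nb v) := ⟨G.sym _ _, G.sym _ _⟩
  rw [h1]
  simp only [s]

/-- at least two neighbours: adjacent to one of the pairs -/
theorem qr (h : C88 G F l v w v' w') {y : V} (hy : y ∈ G.N F) : y ∈ G.nb v ∨ y ∈ G.nb v' := by
  by_contra hc
  push Not at hc
  have h1 := h.bas.pos F h.h5.1 y hy
  rw [h.dT hy, if_neg hc.1, if_neg hc.2] at h1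
  split_ifs at h1 <;> omega

/-- two different vertices with two neighbours -/
theorem uniq2 (h : C88 G F l v w v' w') {x y : V} (hx : x ∈ G.N F) (hy : y ∈ G.N F)
    (hxl : x ∉ G.nb l) (hyl : y ∉ G.nb l) (hxv : x ∉ G.nb v) (hyv : y ∉ G.nb v) : x = y := by
  by_contra hne
  have h1 := h.b7.two F h.h5 x hx y hy hne
  have key : ∀ {a b z : V}, G.Tw a b → a ∈ F → z ∈ G.N F → z ∉ G.nb a → b ∉ G.nb z := by
    intro a b z hab ha hz h1 h2
    exact h1 (G.sym _ _ (hab.sym33.adj33 h2 (h.notN ha hz)))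
  have h2 : (G.nb x ∪ G.nb y) ∩ F ⊆ {v', w'} := by
    intro z hz
    rw [mem_inter, mem_union, h.memF] at hz
    rw [mem_insert, mem_singleton]
    obtain ⟨h3, h4⟩ := hz
    rcases h4 with rfl | rfl | rfl | rfl | rfl
    · rcases h3 with h3 | h3
      · exact absurd (G.sym _ _ h3) hxl
      · exact absurd (G.sym _ _ h3) hyl
    · rcases h3 with h3 | h3
      · exact absurd (G.sym _ _ h3) hxv
      · exact absurd (G.sym _ _ h3) hyv
    · rcases h3 with h3 | h3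
      · exact absurd h3 (key h.t1 h.vF hx hxv)
      · exact absurd h3 (key h.t1 h.vF hy hyv)
    · exact Or.inl rfl
    · exact Or.inr rfl
  have h3 := (card_le_card h2).trans card_le_two
  omega

theorem sat (h : C88 G F l v w v' w') {a b t : V} (h1 : G.HL a b t) : G.Low t :=
  h.h5.1.sat _ _ _ h1

/-- no hub in `F` -/
theorem noHLF (h : C88 G F l v w v' w') {a b t : V} (h1 : G.HL a b t) : a ∉ F := by
  intro ha
  rcases h.cases ha with rfl | h2
  · exact HL_not_low76 h1 h.ll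
  · exact (stTwHL_5 G).notHL h.n9 _ _ _ h1 h2

/-- covers from `N F` at the pair `v` -/
theorem cov (h : C88 G F l v w v' w') {y : V} (hy : y ∈ G.N F) (hvy : y ∈ G.nb v)
    (h1 : ¬ (l ∈ G.nb v ∧ y ∈ G.nb l)) (h2 : ¬ (v' ∈ G.nb v ∧ y ∈ G.nb v')) :
    (∃ d ∈ G.N F, G.Low d ∧ d ∈ G.nb v ∧ y ∈ G.nb d) ∨
    (∃ d ∈ G.N F, ∃ d' ∈ G.N F, G.Tw d d' ∧ d ∈ G.nb v ∧ y ∈ G.nb d ∧ y ∈ G.nb d') ∨
    (∃ a ∈ G.N F, ∃ b ∈ G.N F, G.HL a b y ∧ a ∈ G.nb v ∧ b ∈ G.nb v) := by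
  rcases h.h5.1.cov v h.vF y (mem_union_right _ hy) hvy with h3 | h3 | h3 | h3 | h3
  · obtain ⟨d, hd, hdl, h4, h5⟩ := h3
    rw [mem_union] at hd
    rcases hd with hd | hd
    · exfalso
      rcases h.cases hd with rfl | h6
      · exact h1 ⟨G.sym _ _ h4, h5⟩
      · exact tw_not_low11 h6 hdl
    · exact Or.inl ⟨d, hd, hdl, G.sym _ _ h4, h5⟩
  · obtain ⟨a, ha, b, hb, hab, h4, h5, h6, h7⟩ := h3
    rw [mem_union] at ha
    rcases ha with ha | ha
    · exfalso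
      rcases h.memF.1 ha with rfl | rfl | rfl | rfl | rfl
      · exact tw_not_low11 ⟨_, hab⟩ h.ll
      · exact G.irr _ h4
      · have e := (stTwHL_5 G).uniq h.n9 _ _ _ hab h.t1.sym33
        subst e
        exact G.irr _ h5
      · exact h2 ⟨G.sym _ _ h4, h6⟩
      · have e := (stTwHL_5 G).uniq h.n9 _ _ _ hab h.t2.sym33
        subst e
        exact h2 ⟨G.sym _ _ h5, h7⟩
    · exact Or.inr (Or.inl ⟨a, ha, b, (h.bas.twT F h.h5.1 a b hab).1 ha, hab, G.sym _ _ h4, h6,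
        h7⟩)
  · obtain ⟨a, b, hab, h4, h5, h6 | h6⟩ := h3
    · exact absurd h6.1 (h.noHLF hab)
    · exact Or.inr (Or.inr ⟨a, h6.1, b, h6.2, hab, G.sym _ _ h5, G.sym _ _ h4⟩)
  · obtain ⟨a, b, hab, -⟩ := h3
    exact absurd (h.sat hab) (tw_not_low11 ⟨_, h.t1⟩)
  · obtain ⟨a, b, hab, -⟩ := h3
    exact absurd ⟨_, h.t1⟩ ((stTwHL_5 G).twLL _ _ _ _ hab).1

/-- covers of a twin vertex `y` of `N F` at the low `l` -/
theorem covl (h : C88 G F l v w v' w') {y y' : V} (hy : y ∈ G.N F) (hly : y ∈ G.nb l)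
    (hyy : G.Tw y y') (h1 : ¬ (l ∈ G.nb v ∧ y ∈ G.nb v)) (h2 : ¬ (l ∈ G.nb v' ∧ y ∈ G.nb v')) :
    (∃ d ∈ G.N F, G.Low d ∧ d ∈ G.nb l ∧ y ∈ G.nb d) ∨
    (∃ d ∈ G.N F, ∃ d' ∈ G.N F, G.Tw d d' ∧ d ∈ G.nb l ∧ y ∈ G.nb d ∧ y ∈ G.nb d') ∨
    (∃ a ∈ G.N F, ∃ b ∈ G.N F, G.HL a b l ∧ y ∈ G.nb a ∧ y ∈ G.nb b) := by
  rcases h.h5.1.cov l h.lF y (mem_union_right _ hy) hly with h3 | h3 | h3 | h3 | h3
  · obtain ⟨d, hd, hdl, h4, h5⟩ := h3
    rw [mem_union] at hd
    rcases hd with hd | hd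
    · exfalso
      rcases h.cases hd with rfl | h6
      · exact G.irr _ h4
      · exact tw_not_low11 h6 hdl
    · exact Or.inl ⟨d, hd, hdl, G.sym _ _ h4, h5⟩
  · obtain ⟨a, ha, b, hb, hab, h4, h5, h6, h7⟩ := h3
    rw [mem_union] at ha
    rcases ha with ha | ha
    · exfalso
      rcases h.memF.1 ha with rfl | rfl | rfl | rfl | rfl
      · exact tw_not_low11 ⟨_, hab⟩ h.ll
      · exact h1 ⟨h4, h6⟩
      · have e := (stTwHL_5 G).uniq h.n9 _ _ _ hab h.t1.sym33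
        subst e
        exact h1 ⟨h5, h7⟩
      · exact h2 ⟨h4, h6⟩
      · have e := (stTwHL_5 G).uniq h.n9 _ _ _ hab h.t2.sym33
        subst e
        exact h2 ⟨h5, h7⟩
    · exact Or.inr (Or.inl ⟨a, ha, b, (h.bas.twT F h.h5.1 a b hab).1 ha, hab, G.sym _ _ h4, h6,
        h7⟩)
  · obtain ⟨a, b, hab, -⟩ := h3
    exact absurd (h.sat hab) (tw_not_low11 ⟨_, hyy⟩)
  · obtain ⟨a, b, hab, h4, h5, h6 | h6⟩ := h3
    · exact absurd h6.1 (h.noHLF hab)
    · exact Or.inr (Or.inr ⟨a, h6.1, b, h6.2, hab, h5, h4⟩)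
  · obtain ⟨a, b, hab, -⟩ := h3
    exact absurd ⟨_, hyy⟩ ((stTwHL_5 G).twLL _ _ _ _ hab).2

/-- a low of `N F` adjacent to both pairs -/
theorem low_both (h : C88 G F l v w v' w') (hvv : v' ∈ G.nb v)
    (hc : ((G.N F).filter (fun y => y ∈ G.nb v ∧ y ∈ G.nb v')).card ≤ 1)
    (hl : ¬ (l ∈ G.nb v ∧ l ∈ G.nb v')) :
    ∃ e ∈ G.N F, G.Low e ∧ e ∈ G.nb v ∧ e ∈ G.nb v' := by
  rcases h.h5.1.cov v h.vF v' (mem_union_left _ h.v'F) hvv with h3 | h3 | h3 | h3 | h3
  · obtain ⟨d, hd, hdl, h4, h5⟩ := h3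
    rw [mem_union] at hd
    rcases hd with hd | hd
    · exfalso
      rcases h.cases hd with rfl | h6
      · exact hl ⟨G.sym _ _ h4, G.sym _ _ h5⟩
      · exact tw_not_low11 h6 hdl
    · exact ⟨d, hd, hdl, G.sym _ _ h4, G.sym _ _ h5⟩
  · exfalso
    obtain ⟨a, ha, b, hb, hab, h4, h5, h6, h7⟩ := h3
    rw [mem_union] at ha
    rcases ha with ha | ha
    · rcases h.memF.1 ha with rfl | rfl | rfl | rfl | rfl
      · exact tw_not_low11 ⟨_, hab⟩ h.ll
      · exact G.irr _ h4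
      · have e := (stTwHL_5 G).uniq h.n9 _ _ _ hab h.t1.sym33
        subst e
        exact G.irr _ h5
      · exact G.irr _ h6
      · have e := (stTwHL_5 G).uniq h.n9 _ _ _ hab h.t2.sym33
        subst e
        exact G.irr _ h7
    · have hb' := (h.bas.twT F h.h5.1 a b hab).1 ha
      rw [card_le_one] at hc
      have := hc a (mem_filter.2 ⟨ha, G.sym _ _ h4, G.sym _ _ h6⟩) b
        (mem_filter.2 ⟨hb', G.sym _ _ h5, G.sym _ _ h7⟩)
      exact ne_of_nb5 hab.1 this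
  · obtain ⟨a, b, hab, -⟩ := h3
    exact absurd (h.sat hab) (tw_not_low11 ⟨_, h.t2⟩)
  · obtain ⟨a, b, hab, -⟩ := h3
    exact absurd (h.sat hab) (tw_not_low11 ⟨_, h.t1⟩)
  · obtain ⟨a, b, hab, -⟩ := h3
    exact absurd ⟨_, h.t1⟩ ((stTwHL_5 G).twLL _ _ _ _ hab).1

/-- `HL` inside `N F`: the same neighbours in `F` -/
theorem HL_same (h : C88 G F l v w v' w') {a b y z : V} (h1 : G.HL a b y) (hb : b ∈ G.N F)
    (ha : a ∈ G.N F) (hy : y ∈ G.N F) (hz : z ∈ F) : (a ∈ G.nb z ↔ b ∈ G.nb z) := by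
  constructor
  · intro h2
    rcases HL_sup76 h1 (G.sym _ _ h2) (fun e => h.notN hz hy e.symm) with h3 | h3
    · exact absurd h3 (fun e => h.notN hz hb e.symm)
    · exact G.sym _ _ h3
  · intro h2
    exact G.sym _ _ (HL_sub76 h1 (G.sym _ _ h2) (fun e => h.notN hz ha e.symm))

/-! ### sums -/

theorem nn (h : C88 G F l v w v' w') {y : V} (hy : y ∈ G.N F) : 0 ≤ G.gam5 F y :=
  h.b7.nn F h.h5 y hy

theorem sum2 (h : C88 G F l v w v' w') {x y : V} (hx : x ∈ G.N F) (hy : y ∈ G.N F)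
    (hxy : x ≠ y) : G.gam5 F x + G.gam5 F y ≤ ∑ z ∈ G.N F, G.gam5 F z := by
  rw [← sum_pair hxy]
  refine sum_le_sum_of_subset_of_nonneg ?_ fun z hz _ => h.nn hz
  intro z hz
  rw [mem_insert, mem_singleton] at hz
  rcases hz with rfl | rfl
  · exact hx
  · exact hy

theorem sum3 (h : C88 G F l v w v' w') {x y z : V} (hx : x ∈ G.N F) (hy : y ∈ G.N F)
    (hz : z ∈ G.N F) (hxy : x ≠ y) (hxz : x ≠ z) (hyz : y ≠ z) :
    G.gam5 F x + G.gam5 F y + G.gam5 F z ≤ ∑ u ∈ G.N F, G.gam5 F u := by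
  have e : G.gam5 F x + G.gam5 F y + G.gam5 F z = ∑ u ∈ ({x, y, z} : Finset V), G.gam5 F u := by
    rw [sum_insert (by simp [hxy, hxz]), sum_pair hyz]
    ring
  rw [e]
  refine sum_le_sum_of_subset_of_nonneg ?_ fun u hu _ => h.nn hu
  intro u hu
  simp only [mem_insert, mem_singleton] at hu
  rcases hu with rfl | rfl | rfl
  · exact hx
  · exact hy
  · exact hz

theorem mem_pT (_ : C88 G F l v w v' w') {x y : V} (hy : y ∈ G.N F) (hxy : y ∈ G.nb x) :
    y ∈ G.pT F x := mem_inter.2 ⟨hxy, hy⟩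

/-- a low adjacent to both pairs -/
theorem both (h : C88 G F l v w v' w') {e : V} (he : e ∈ G.N F) (hl : G.Low e)
    (hq : e ∈ G.nb v) (hr : e ∈ G.nb v') :
    10 ≤ G.gam5 F e ∧ (G.pT F e).card ≤ 1 ∧ (e ∈ G.nb l → G.pT F e = ∅) ∧
      (∀ x, G.pT F e = {x} → G.Low x → 12 ≤ G.gam5 F e) := by
  have hd := h.dT he
  rw [if_pos hq, if_pos hr] at hd
  by_cases hp : e ∈ G.nb l
  · rw [if_pos hp] at hd
    obtain ⟨-, h1, h2⟩ := h.b.low5 F h.h5.1 e he hl (by omega)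
    refine ⟨by omega, by rw [h1]; simp, fun _ => h1, fun x hx => ?_⟩
    rw [h1] at hx
    exact absurd hx.symm (singleton_ne_empty x)
  · rw [if_neg hp] at hd
    obtain ⟨h1, h2, h3⟩ := h.b.low4 F h.h5.1 e he hl (by omega)
    refine ⟨h2, h1, fun h4 => absurd h4 hp, fun x hx hxl => ?_⟩
    rcases h3 with h3 | ⟨a, b, -, -, -, h4, h5⟩
    · rw [hx, card_singleton] at h3
      push_cast at h3
      linarith
    · rw [hx] at h4
      rw [← singleton_injective h4] at h5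
      exact absurd hxl h5.1

/-- a low adjacent to one pair only -/
theorem one (h : C88 G F l v w v' w') {z : V} (hz : z ∈ G.N F) (hl : G.Low z)
    (hd : G.d z F = (if z ∈ G.nb l then 1 else 0) + 2) :
    (z ∈ G.nb l → 6 ≤ G.gam5 F z ∧ (G.pT F z).card ≤ 2 ∧
      (G.PairSet (G.pT F z) → 12 ≤ G.gam5 F z)) ∧
    (1 ≤ (G.pT F z).card → 4 ≤ G.gam5 F z) ∧ (3 ≤ (G.pT F z).card → 8 ≤ G.gam5 F z) := by
  by_cases hp : z ∈ G.nb l
  · rw [if_pos hp] at hd
    obtain ⟨h1, h2, -, h3⟩ := h.b.low3 F h.h5.1 z hz hl (by omega)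
    exact ⟨fun _ => ⟨h2, h1, h3⟩, fun _ => by linarith, fun h4 => by omega⟩
  · rw [if_neg hp] at hd
    obtain ⟨h1, h2, h3⟩ := h.b.low2 F h.h5.1 z hz hl (by omega)
    refine ⟨fun h4 => absurd h4 hp, fun h4 => ?_, fun h4 => ?_⟩
    · have h5 : (1 : ℤ) ≤ ((G.pT F z).card : ℤ) := by exact_mod_cast h4
      rw [min_eq_right (by linarith)] at h3
      linarith
    · have h5 : (3 : ℤ) ≤ ((G.pT F z).card : ℤ) := by exact_mod_cast h4
      rcases h2 with h2 | ⟨-, ⟨a, b, -, h6⟩, -⟩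
      · linarith
      · rw [h6] at h4
        have := card_le_two (a := a) (b := b)
        omega

theorem d_one (h : C88 G F l v w v' w') {z : V} (hz : z ∈ G.N F)
    (hqr : (z ∉ G.nb v ∧ z ∈ G.nb v') ∨ (z ∈ G.nb v ∧ z ∉ G.nb v')) :
    G.d z F = (if z ∈ G.nb l then 1 else 0) + 2 := by
  rw [h.dT hz]
  rcases hqr with ⟨h1, h2⟩ | ⟨h1, h2⟩
  · rw [if_neg h1, if_pos h2]
  · rw [if_pos h1, if_neg h2]

/-- the partner has the same neighbours in `F` -/
theorem tw_same (h : C88 G F l v w v' w') {P P' x : V} (hP : P ∈ G.N F) (hPP : G.Tw P P')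
    (hx : x ∈ F) : (P ∈ G.nb x ↔ P' ∈ G.nb x) := by
  have hP' := (h.bas.twT F h.h5.1 P P' hPP).1 hP
  have s : ∀ z : V, (z ∈ G.nb x ↔ x ∈ G.nb z) := fun z => ⟨G.sym _ _, G.sym _ _⟩
  rw [s, s]
  exact ⟨fun h1 => Tw_nb5 hPP h1 (h.notN hx hP').symm,
    fun h1 => Tw_nb5 hPP.sym33 h1 (h.notN hx hP).symm⟩

/-- number of vertices adjacent to both pairs -/
theorem card_qr (h : C88 G F l v w v' w') :
    ((G.N F).filter (fun y => y ∈ G.nb v ∧ y ∈ G.nb v')).card +
      ((G.N F).filter (fun y => y ∉ G.nb v)).card +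
      ((G.N F).filter (fun y => y ∉ G.nb v')).card = 6 := by
  have h6 : (G.N F).card = 6 := h.h5.1.big.1.2.1
  have h1 := card_filter_add_card_filter_not (s := G.N F)
    (fun y => y ∈ G.nb v ∧ y ∈ G.nb v')
  have h2 : (G.N F).filter (fun y => ¬ (y ∈ G.nb v ∧ y ∈ G.nb v')) =
      (G.N F).filter (fun y => y ∉ G.nb v) ∪ (G.N F).filter (fun y => y ∉ G.nb v') := by
    ext y
    simp only [mem_filter, mem_union]
    tauto
  have h3 : Disjoint ((G.N F).filter (fun y => y ∉ G.nb v))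
      ((G.N F).filter (fun y => y ∉ G.nb v')) := by
    rw [disjoint_left]
    intro y hy hy'
    rw [mem_filter] at hy hy'
    rcases h.qr hy.1 with h4 | h4
    · exact hy.2 h4
    · exact hy'.2 h4
  rw [h2, card_union_of_disjoint h3] at h1
  omega

/-! ### triangle -/

theorem caseII (h : C88 G F l v w v' w') (ha : l ∈ G.nb v) (hb : l ∈ G.nb v')
    (hc : v' ∈ G.nb v) : False := by
  have h1 := h.card_qr
  have m1 := h.mv
  have m2 := h.mv'
  have m3 := h.ml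
  simp only [ha, hb, hc, if_true] at m1 m2 m3
  have h2 : ((G.N F).filter (fun y => y ∈ G.nb v ∧ y ∈ G.nb v')) = ∅ := by
    rw [← card_eq_zero]
    omega
  rw [filter_eq_empty_iff] at h2
  have h3 : ((G.N F).filter (fun y => y ∉ G.nb l)) ⊆
      ((G.N F).filter (fun y => y ∉ G.nb l ∧ y ∉ G.nb v)) ∪
      ((G.N F).filter (fun y => y ∉ G.nb l ∧ y ∉ G.nb v')) := by
    intro y hy
    rw [mem_filter] at hy
    have h4 := h2 hy.1
    simp only [mem_union, mem_filter]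
    tauto
  have h4 := (card_le_card h3).trans (card_union_le _ _)
  have h5 : ((G.N F).filter (fun y => y ∉ G.nb l ∧ y ∉ G.nb v)).card ≤ 1 := by
    rw [card_le_one]
    intro x hx y hy
    rw [mem_filter] at hx hy
    exact h.uniq2 hx.1 hy.1 hx.2.1 hy.2.1 hx.2.2 hy.2.2
  have h6 : ((G.N F).filter (fun y => y ∉ G.nb l ∧ y ∉ G.nb v')).card ≤ 1 := by
    rw [card_le_one]
    intro x hx y hy
    rw [mem_filter] at hx hy
    exact h.symm.uniq2 hx.1 hy.1 hx.2.1 hy.2.1 hx.2.2 hy.2.2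
  omega

/-! ### a path with the low at its end -/

section III

variable {e : V}

/-- twins in `Z` -/
theorem caseIIIa (h : C88 G F l v w v' w') (hb : l ∉ G.nb v') (he : e ∈ G.N F) (hel : G.Low e)
    (heq : e ∈ G.nb v) (her : e ∈ G.nb v') {P P' : V} (hP : P ∈ G.N F) (hPv : P ∉ G.nb v)
    (hPP : G.Tw P P') : 20 ≤ ∑ z ∈ G.N F, G.gam5 F z := by
  have hPr : P ∈ G.nb v' := (h.qr hP).resolve_left hPv
  have hP' := (h.bas.twT F h.h5.1 P P' hPP).1 hP
  have hd := h.d_one hP (Or.inl ⟨hPv, hPr⟩)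
  have h3 := (h.b7.tw3 F h.h5 P hP ⟨P', hPP⟩).1
  have hPl : P ∈ G.nb l := by
    by_contra h4
    rw [if_neg h4] at hd
    omega
  rw [if_pos hPl] at hd
  obtain ⟨-, -, -, h4, -⟩ := h.b.tw F h.h5.1 P hP ⟨P', hPP⟩
  have hcard : (G.pT F P).card ≤ 2 := by omega
  have hPP' : P' ∈ G.pT F P := h.mem_pT hP' hPP.1
  have nlP : ¬ G.Low P := tw_not_low11 ⟨P', hPP⟩
  have nlP' : ¬ G.Low P' := tw_not_low11 ⟨P, hPP.sym33⟩
  have two : ∀ x ∈ G.pT F P, ∀ y ∈ G.pT F P, x ≠ P' → y ≠ P' → x = y := by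
    intro x hx y hy hx' hy'
    by_contra hne
    have h5 : ({x, y, P'} : Finset V) ⊆ G.pT F P := by
      intro z hz
      simp only [mem_insert, mem_singleton] at hz
      rcases hz with rfl | rfl | rfl <;> assumption
    have h6 := card_le_card h5
    rw [card_insert_of_notMem (by simp [hne, hx']), card_pair hy'] at h6
    omega
  have nopair : ∀ d d', d ∈ G.N F → d' ∈ G.N F → G.Tw d d' → P ∈ G.nb d → P ∈ G.nb d' →
      False := by
    intro d d' hd hd' hdd h5 h6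
    have k1 : d ≠ P' := by
      rintro rfl
      have := (stTwHL_5 G).uniq h.n9 _ _ _ hdd hPP.sym33
      subst this
      exact G.irr _ h6
    have k2 : d' ≠ P' := by
      rintro rfl
      have := (stTwHL_5 G).uniq h.n9 _ _ _ hdd.sym33 hPP.sym33
      subst this
      exact G.irr _ h5
    exact ne_of_nb5 hdd.1 (two d (h.mem_pT hd (G.sym _ _ h5)) d' (h.mem_pT hd' (G.sym _ _ h6))
      k1 k2)
  -- the low neighbour of the pair
  obtain ⟨d, hdN, hdl, hdr, hPd⟩ : ∃ d ∈ G.N F, G.Low d ∧ d ∈ G.nb v' ∧ P ∈ G.nb d := by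
    rcases h.symm.cov hP hPr (fun h5 => hb h5.1) (fun h5 => hPv h5.2) with h5 | h5 | h5
    · exact h5
    · obtain ⟨d, hd, d', hd', hdd, -, h6, h7⟩ := h5
      exact (nopair d d' hd hd' hdd h6 h7).elim
    · obtain ⟨a, -, b, -, hab, -⟩ := h5
      exact absurd (h.sat hab) nlP
  have hdT : d ∈ G.pT F P := h.mem_pT hdN (G.sym _ _ hPd)
  have hdP' : d ≠ P' := fun e => nlP' (e ▸ hdl)
  have hdp : d ∈ G.nb l := by
    rcases h.covl hP hPl hPP (fun h5 => hPv h5.2) (fun h5 => hb h5.1) with h5 | h5 | h5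
    · obtain ⟨d2, h6, h7, h8, h9⟩ := h5
      have : d2 = d := two d2 (h.mem_pT h6 (G.sym _ _ h9)) d hdT (fun e => nlP' (e ▸ h7)) hdP'
      rwa [this] at h8
    · obtain ⟨a, hd, b, hd', hdd, -, h6, h7⟩ := h5
      exact (nopair a b hd hd' hdd h6 h7).elim
    · exfalso
      obtain ⟨a, h6, b, h7, hab, h8, h9⟩ := h5
      have k1 : a ≠ P' := by
        rintro rfl
        exact (stTwHL_5 G).notHL h.n9 _ _ _ hab ⟨P, hPP.sym33⟩
      have : a = d := two a (h.mem_pT h6 (G.sym _ _ h8)) d hdT k1 hdP'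
      subst this
      exact HL_not_low76 hab hdl
  have hdv : d ∉ G.nb v := by
    intro h5
    have h6 := (h.both hdN hdl h5 hdr).2.2.1 hdp
    have h7 : P ∈ G.pT F d := h.mem_pT hP hPd
    rw [h6] at h7
    simp at h7
  obtain ⟨-, h6, h7⟩ := (h.one hdN hdl (h.d_one hdN (Or.inl ⟨hdv, hdr⟩))).1 hdp
  have h8 : G.PairSet (G.pT F d) := by
    refine ⟨P, P', hPP, ?_⟩
    symm
    apply eq_of_subset_of_card_le
    · intro z hz
      rw [mem_insert, mem_singleton] at hz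
      rcases hz with rfl | rfl
      · exact h.mem_pT hP hPd
      · exact h.mem_pT hP' (hPP.adj33 hPd hdP')
    · rw [card_pair (ne_of_nb5 hPP.1)]
      exact h6
  have h9 := h7 h8
  have h10 := (h.both he hel heq her).1
  have hde : d ≠ e := fun e => hdv (e ▸ heq)
  have := h.sum2 hdN he hde
  linarith

theorem caseIII (h : C88 G F l v w v' w') (ha : l ∈ G.nb v) (hb : l ∉ G.nb v')
    (hc : v' ∈ G.nb v) : 20 ≤ ∑ z ∈ G.N F, G.gam5 F z := by
  have h1 := h.card_qr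
  have m1 := h.mv
  have m2 := h.mv'
  simp only [ha, hb, hc, if_true, if_false] at m1 m2
  have hqr : ((G.N F).filter (fun y => y ∈ G.nb v ∧ y ∈ G.nb v')).card ≤ 1 := by omega
  obtain ⟨e, he, hel, heq, her⟩ := h.low_both hc hqr (fun h2 => hb h2.2)
  have hu : ∀ x ∈ G.N F, x ∈ G.nb v → x ∈ G.nb v' → x = e := by
    intro x hx h2 h3
    exact card_le_one.1 hqr x (mem_filter.2 ⟨hx, h2, h3⟩) e (mem_filter.2 ⟨he, heq, her⟩)
  by_cases htw : ∃ P ∈ G.N F, P ∉ G.nb v ∧ G.IsTw P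
  · obtain ⟨P, hP, hPv, P', hPP⟩ := htw
    exact h.caseIIIa hb he hel heq her hP hPv hPP
  push Not at htw
  set Z := (G.N F).filter (fun y => y ∉ G.nb v) with hZ
  have memZ : ∀ {z}, z ∈ Z ↔ z ∈ G.N F ∧ z ∉ G.nb v := by
    intro z
    rw [hZ, mem_filter]
  have hZ3 : Z.card = 3 := by omega
  have hZr : ∀ z ∈ Z, z ∈ G.nb v' := fun z hz =>
    (h.qr (memZ.1 hz).1).resolve_left (memZ.1 hz).2
  have hcase : ∀ x ∈ G.N F, x ∈ G.nb v' → x = e ∨ x ∈ Z := by
    intro x hx hr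
    by_cases h2 : x ∈ G.nb v
    · exact Or.inl (hu x hx h2 hr)
    · exact Or.inr (memZ.2 ⟨hx, h2⟩)
  obtain ⟨ge, te, te0, te1⟩ := h.both he hel heq her
  -- the covers
  have hcov : ∀ z ∈ Z, (∃ d ∈ G.N F, G.Low d ∧ (d = e ∨ d ∈ Z) ∧ z ∈ G.nb d) ∨
      (G.Low z ∧ ∃ a ∈ G.N F, ∃ b ∈ Z, G.Low b ∧ b ≠ z ∧ z ∈ G.nb a) := by
    intro z hz
    have hz' := memZ.1 hz
    rcases h.symm.cov hz'.1 (hZr z hz) (fun h5 => hb h5.1) (fun h5 => hz'.2 h5.2)
      with h5 | h5 | h5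
    · obtain ⟨d, h6, h7, h8, h9⟩ := h5
      exact Or.inl ⟨d, h6, h7, hcase d h6 h8, h9⟩
    · exfalso
      obtain ⟨d, h6, d', -, h7, h8, -⟩ := h5
      rcases hcase d h6 h8 with h9 | h9
      · exact tw_not_low11 ⟨d', h7⟩ (h9 ▸ hel)
      · exact htw d h6 (memZ.1 h9).2 ⟨d', h7⟩
    · obtain ⟨a, h6, b, h7, hab, h8, h9⟩ := h5
      right
      refine ⟨h.sat hab, a, h6, b, ?_, hab.2.1, (HL_bt76 hab).2.symm, HL_t76 hab⟩
      rcases hcase b h7 h9 with h10 | h10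
      · exfalso
        have h11 : a ∈ G.nb v := (h.HL_same hab h7 h6 hz'.1 h.vF).2 (h10 ▸ heq)
        have h12 := hu a h6 h11 h8
        exact ne_of_nb5 (HL_b76 hab) (h12.trans h10.symm)
      · exact h10
  have heZ : ∀ z ∈ Z, z ≠ e := fun z hz e1 => (memZ.1 hz).2 (e1 ▸ heq)
  have hone : ∀ z ∈ Z, G.Low z → (z ∈ G.nb l → 6 ≤ G.gam5 F z) ∧ 4 ≤ G.gam5 F z := by
    intro z hz hzl
    have hz' := memZ.1 hz
    obtain ⟨k1, k2, -⟩ := h.one hz'.1 hzl (h.d_one hz'.1 (Or.inl ⟨hz'.2, hZr z hz⟩))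
    refine ⟨fun h2 => (k1 h2).1, k2 ?_⟩
    rw [Nat.succ_le_iff, card_pos]
    rcases hcov z hz with ⟨d, h6, -, -, h7⟩ | ⟨-, a, h6, -, -, -, -, h7⟩
    · exact ⟨d, h.mem_pT h6 (G.sym _ _ h7)⟩
    · exact ⟨a, h.mem_pT h6 (G.sym _ _ h7)⟩
  by_cases htwo : ∃ x ∈ Z, ∃ y ∈ Z, x ≠ y ∧ G.Low x ∧ G.Low y
  · obtain ⟨x, hx, y, hy, hxy, hxl, hyl⟩ := htwo
    obtain ⟨x1, x2⟩ := hone x hx hxl
    obtain ⟨y1, y2⟩ := hone y hy hyl
    have hs := h.sum3 (memZ.1 hx).1 (memZ.1 hy).1 he hxy (heZ x hx) (heZ y hy)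
    by_cases hxp : x ∈ G.nb l
    · have := x1 hxp
      linarith
    · have hyp : y ∈ G.nb l := by
        by_contra h2
        exact hxy (h.uniq2 (memZ.1 hx).1 (memZ.1 hy).1 hxp h2 (memZ.1 hx).2 (memZ.1 hy).2)
      have := y1 hyp
      linarith
  have huz : ∀ x ∈ Z, ∀ y ∈ Z, G.Low x → G.Low y → x = y := by
    intro x hx y hy hxl hyl
    by_contra hne
    exact htwo ⟨x, hx, y, hy, hne, hxl, hyl⟩
  by_cases hex : ∃ d ∈ Z, G.Low d
  · obtain ⟨d, hd, hdl⟩ := hex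
    have hd' := memZ.1 hd
    have hde : d ∈ G.nb e := by
      rcases hcov d hd with ⟨d1, h6, h7, h8, h9⟩ | ⟨-, a, -, b, h6, h7, h8, -⟩
      · rcases h8 with h8 | h8
        · rwa [h8] at h9
        · exfalso
          have := huz d1 h8 d hd h7 hdl
          rw [this] at h9
          exact G.irr _ h9
      · exact absurd (huz b h6 d hd h7 hdl) h8
    have hpe : G.pT F e = {d} := by
      symm
      apply eq_of_subset_of_card_le
      · intro z hz
        rw [mem_singleton] at hz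
        subst hz
        exact h.mem_pT hd'.1 hde
      · simpa using te
    have g1 := te1 d hpe hdl
    have hsub : insert e (Z.erase d) ⊆ G.pT F d := by
      intro z hz
      rw [mem_insert, mem_erase] at hz
      rcases hz with rfl | ⟨h6, h7⟩
      · exact h.mem_pT he (G.sym _ _ hde)
      · have h8 : ¬ G.Low z := fun h9 => h6 (huz z h7 d hd h9 hdl)
        rcases hcov z h7 with ⟨d1, k1, k2, k3, k4⟩ | ⟨k1, -⟩
        · rcases k3 with rfl | k3
          · exfalso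
            have : z ∈ G.pT F d1 := h.mem_pT (memZ.1 h7).1 k4
            rw [hpe, mem_singleton] at this
            exact h6 this
          · rw [huz d1 k3 d hd k2 hdl] at k4
            exact h.mem_pT (memZ.1 h7).1 k4
        · exact absurd k1 h8
    have hc3 : 3 ≤ (G.pT F d).card := by
      have := card_le_card hsub
      rw [card_insert_of_notMem (fun h6 => heZ e (mem_erase.1 h6).2 rfl),
        card_erase_of_mem hd, hZ3] at this
      omega
    have g2 := (h.one hd'.1 hdl (h.d_one hd'.1 (Or.inl ⟨hd'.2, hZr d hd⟩))).2.2 hc3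
    have := h.sum2 hd'.1 he (heZ d hd)
    linarith
  · exfalso
    push Not at hex
    have hsub : Z ⊆ G.pT F e := by
      intro z hz
      rcases hcov z hz with ⟨d1, k1, k2, k3, k4⟩ | ⟨k1, -⟩
      · rcases k3 with rfl | k3
        · exact h.mem_pT (memZ.1 hz).1 k4
        · exact absurd k2 (hex d1 k3)
      · exact absurd k1 (hex z hz)
    have := card_le_card hsub
    omega

end III

/-! ### the low between the pairs -/

/-- no twins -/
theorem caseIa (h : C88 G F l v w v' w') (ha : l ∈ G.nb v) (hb : l ∈ G.nb v')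
    (hc : v' ∉ G.nb v) : ∀ P ∈ G.N F, ¬ G.IsTw P := by
  rintro P hP ⟨P', hPP⟩
  have m1 := h.mv
  have m2 := h.mv'
  simp only [ha, hb, hc, if_true, if_false] at m1 m2
  have hP' := (h.bas.twT F h.h5.1 P P' hPP).1 hP
  have hne := ne_of_nb5 hPP.1
  have hq : P ∈ G.nb v := by
    by_contra h1
    have h2 := card_le_one.1 (le_of_eq m1) P (mem_filter.2 ⟨hP, h1⟩) P'
      (mem_filter.2 ⟨hP', fun h2 => h1 ((h.tw_same hP hPP h.vF).2 h2)⟩)
    exact hne h2
  have hr : P ∈ G.nb v' := by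
    by_contra h1
    have h2 := card_le_one.1 (le_of_eq m2) P (mem_filter.2 ⟨hP, h1⟩) P'
      (mem_filter.2 ⟨hP', fun h2 => h1 ((h.tw_same hP hPP h.v'F).2 h2)⟩)
    exact hne h2
  have hd := h.dT hP
  rw [if_pos hq, if_pos hr] at hd
  obtain ⟨-, h3, -, h4, -⟩ := h.b.tw F h.h5.1 P hP ⟨P', hPP⟩
  have hp : P ∉ G.nb l := by
    intro h5
    rw [if_pos h5] at hd
    omega
  rw [if_neg hp] at hd
  have hcard : (G.pT F P).card ≤ 1 := by omega
  rw [card_le_one] at hcard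
  have hPP' : P' ∈ G.pT F P := h.mem_pT hP' hPP.1
  rcases h.cov hP hq (fun h5 => hp h5.2) (fun h5 => hc h5.1) with h5 | h5 | h5
  · obtain ⟨d, h6, h7, -, h8⟩ := h5
    have := hcard d (h.mem_pT h6 (G.sym _ _ h8)) P' hPP'
    subst this
    exact tw_not_low11 ⟨P, hPP.sym33⟩ h7
  · obtain ⟨d, h6, d', h6', h7, -, h8, h9⟩ := h5
    have := hcard d (h.mem_pT h6 (G.sym _ _ h8)) P' hPP'
    subst this
    have := (stTwHL_5 G).uniq h.n9 _ _ _ h7 hPP.sym33
    subst this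
    exact G.irr _ h9
  · obtain ⟨a, -, b, -, hab, -⟩ := h5
    exact absurd (h.sat hab) (tw_not_low11 ⟨P', hPP⟩)

/-- covers without twins -/
theorem covI (h : C88 G F l v w v' w') (ha : l ∈ G.nb v) (hb : l ∈ G.nb v')
    (hc : v' ∉ G.nb v) {y : V} (hy : y ∈ G.N F) (hq : y ∈ G.nb v) (hp : y ∉ G.nb l) :
    (∃ d ∈ G.N F, G.Low d ∧ d ∈ G.nb v ∧ y ∈ G.nb d) ∨
    (∃ a ∈ G.N F, ∃ b ∈ G.N F, G.HL a b y ∧ a ∈ G.nb v ∧ b ∈ G.nb v) := by
  rcases h.cov hy hq (fun h5 => hp h5.2) (fun h5 => hc h5.1) with h5 | h5 | h5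
  · exact Or.inl h5
  · exfalso
    obtain ⟨d, h6, d', h6', h7, -⟩ := h5
    exact h.caseIa ha hb hc d h6 ⟨d', h7⟩
  · exact Or.inr h5

/-- a vertex adjacent to exactly one of the pairs is adjacent to the low -/
theorem caseIb (h : C88 G F l v w v' w') (ha : l ∈ G.nb v) (hb : l ∈ G.nb v')
    (hc : v' ∉ G.nb v) {y : V} (hy : y ∈ G.N F) (hr : y ∉ G.nb v') : y ∈ G.nb l := by
  by_contra hp
  have hq : y ∈ G.nb v := (h.qr hy).resolve_right hr
  have hc' : v ∉ G.nb v' := fun h1 => hc (G.sym _ _ h1)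
  have m2 := h.mv'
  simp only [hb, hc, if_true, if_false] at m2
  have huy : ∀ z ∈ G.N F, z ∉ G.nb v' → z = y := fun z hz hz' =>
    card_le_one.1 (le_of_eq m2) z (mem_filter.2 ⟨hz, hz'⟩) y (mem_filter.2 ⟨hy, hr⟩)
  -- a low adjacent to `y` and to both pairs
  obtain ⟨e, he, hel, heq, her, hye⟩ : ∃ e ∈ G.N F, G.Low e ∧ e ∈ G.nb v ∧ e ∈ G.nb v' ∧
      y ∈ G.nb e := by
    rcases h.covI ha hb hc hy hq hp with h5 | h5
    · obtain ⟨d, h6, h7, h8, h9⟩ := h5
      refine ⟨d, h6, h7, h8, ?_, h9⟩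
      by_contra h10
      have := huy d h6 h10
      subst this
      exact G.irr _ h9
    · exfalso
      obtain ⟨a, h6, b, h7, hab, h8, h9⟩ := h5
      have hbl : G.Low b := hab.2.1
      have hbr : b ∈ G.nb v' := by
        by_contra h10
        exact (HL_bt76 hab).2.symm (huy b h7 h10)
      obtain ⟨-, tb, tb0, -⟩ := h.both h7 hbl h9 hbr
      have hab' : a ∈ G.pT F b := h.mem_pT h6 (G.sym _ _ (HL_b76 hab))
      have hpb : b ∉ G.nb l := by
        intro h10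
        rw [tb0 h10] at hab'
        simp at hab'
      rw [card_le_one] at tb
      rcases h.covI ha hb hc h7 h9 hpb with h10 | h10
      · obtain ⟨d, k1, k2, -, k3⟩ := h10
        have := tb d (h.mem_pT k1 (G.sym _ _ k3)) a hab'
        subst this
        exact HL_not_low76 hab k2
      · obtain ⟨a', k1, b', k2, k3, -⟩ := h10
        have := tb a' (h.mem_pT k1 (G.sym _ _ (HL_t76 k3))) a hab'
        subst this
        exact (stTwHL_5 G).nomut h.n9 _ _ _ _ _ k3 hab rfl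
  obtain ⟨-, te, te0, -⟩ := h.both he hel heq her
  have hyT : y ∈ G.pT F e := h.mem_pT hy hye
  have hpe : e ∉ G.nb l := by
    intro h10
    rw [te0 h10] at hyT
    simp at hyT
  rw [card_le_one] at te
  rcases h.symm.covI hb ha hc' he her hpe with h5 | h5
  · obtain ⟨d, k1, k2, k3, k4⟩ := h5
    have := te d (h.mem_pT k1 (G.sym _ _ k4)) y hyT
    subst this
    exact hr k3
  · obtain ⟨a, k1, b, -, k2, k3, -⟩ := h5
    have := te a (h.mem_pT k1 (G.sym _ _ (HL_t76 k2))) y hyT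
    subst this
    exact hr k3

theorem caseI (h : C88 G F l v w v' w') (ha : l ∈ G.nb v) (hb : l ∈ G.nb v')
    (hc : v' ∉ G.nb v) : 20 ≤ ∑ z ∈ G.N F, G.gam5 F z := by
  by_contra hlt
  push Not at hlt
  have hc' : v ∉ G.nb v' := fun h1 => hc (G.sym _ _ h1)
  have m2 := h.mv'
  have m3 := h.ml
  simp only [ha, hb, hc, if_true, if_false] at m2 m3
  -- at most one low adjacent to both pairs
  have hu : ∀ x ∈ G.N F, ∀ y ∈ G.N F, G.Low x → G.Low y → x ∈ G.nb v → x ∈ G.nb v' →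
      y ∈ G.nb v → y ∈ G.nb v' → x = y := by
    intro x hx y hy hxl hyl h1 h2 h3 h4
    by_contra hne
    have := h.sum2 hx hy hne
    have := (h.both hx hxl h1 h2).1
    have := (h.both hy hyl h3 h4).1
    linarith
  set C := (G.N F).filter (fun y => y ∉ G.nb l) with hC
  have memC : ∀ {y}, y ∈ C ↔ y ∈ G.N F ∧ y ∉ G.nb l := by
    intro y
    rw [hC, mem_filter]
  have hCr : ∀ y ∈ C, y ∈ G.nb v' := by
    intro y hy
    by_contra h1
    exact (memC.1 hy).2 (h.caseIb ha hb hc (memC.1 hy).1 h1)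
  have hCq : ∀ y ∈ C, y ∈ G.nb v := by
    intro y hy
    by_contra h1
    exact (memC.1 hy).2 (h.symm.caseIb hb ha hc' (memC.1 hy).1 h1)
  have hlow : (C.filter (fun y => G.Low y)).card ≤ 1 := by
    rw [card_le_one]
    intro x hx y hy
    rw [mem_filter] at hx hy
    exact hu x (memC.1 hx.1).1 y (memC.1 hy.1).1 hx.2 hy.2 (hCq x hx.1) (hCr x hx.1)
      (hCq y hy.1) (hCr y hy.1)
  have hnl : 3 ≤ (C.filter (fun y => ¬ G.Low y)).card := by
    have := card_filter_add_card_filter_not (s := C) (fun y => G.Low y)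
    omega
  -- the covers of the others
  have key : ∀ y ∈ C.filter (fun y => ¬ G.Low y), ∃ d ∈ G.N F, G.Low d ∧ d ∈ G.nb v ∧
      d ∉ G.nb v' ∧ y ∈ G.nb d := by
    intro y hy
    rw [mem_filter] at hy
    obtain ⟨hyN, hyp⟩ := memC.1 hy.1
    rcases h.covI ha hb hc hyN (hCq y hy.1) hyp with h5 | h5
    · obtain ⟨e, h6, h7, h8, h9⟩ := h5
      refine ⟨e, h6, h7, h8, ?_, h9⟩
      intro her
      obtain ⟨-, te, te0, -⟩ := h.both h6 h7 h8 her
      have hyT : y ∈ G.pT F e := h.mem_pT hyN h9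
      have hpe : e ∉ G.nb l := by
        intro h10
        rw [te0 h10] at hyT
        simp at hyT
      rw [card_le_one] at te
      rcases h.covI ha hb hc h6 h8 hpe with h5 | h5
      · obtain ⟨d, k1, k2, k3, k4⟩ := h5
        have := te d (h.mem_pT k1 (G.sym _ _ k4)) y hyT
        subst this
        exact hy.2 k2
      · obtain ⟨a, k1, b, k0, k2, k3, k4⟩ := h5
        have := te a (h.mem_pT k1 (G.sym _ _ (HL_t76 k2))) y hyT
        subst this
        have k5 : b ∈ G.nb v' := (h.HL_same k2 k0 k1 h6 h.v'F).1 (hCr _ hy.1)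
        exact (HL_bt76 k2).2.symm (hu b k0 e h6 k2.2.1 h7 k4 k5 h8 her)
    · exfalso
      obtain ⟨a, -, b, -, hab, -⟩ := h5
      exact hy.2 (h.sat hab)
  have hne : (C.filter (fun y => ¬ G.Low y)).Nonempty := by
    rw [← card_pos]
    omega
  obtain ⟨y0, hy0⟩ := hne
  obtain ⟨d, k1, k2, k3, k4, -⟩ := key y0 hy0
  have hud : ∀ z ∈ G.N F, z ∉ G.nb v' → z = d := fun z hz hz' =>
    card_le_one.1 (le_of_eq m2) z (mem_filter.2 ⟨hz, hz'⟩) d (mem_filter.2 ⟨k1, k4⟩)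
  have hsub : C.filter (fun y => ¬ G.Low y) ⊆ G.pT F d := by
    intro y hy
    obtain ⟨d', j1, j2, j3, j4, j5⟩ := key y hy
    have := hud d' j1 j4
    subst this
    exact h.mem_pT (memC.1 (mem_filter.1 hy).1).1 j5
  have hdp : d ∈ G.nb l := h.caseIb ha hb hc k1 k4
  have h6 := ((h.one k1 k2 (h.d_one k1 (Or.inr ⟨k3, k4⟩))).1 hdp).2.1
  have := card_le_card hsub
  omega

end C88

/-- J6 -/
theorem st7LQQ_88 (G : CG V) (hBas : G.StLBas) (hB : G.StLB) (h7 : G.St7Bas) : G.St7LQQ := by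
  intro F hF l v w v' w' eF hl ht ht' hn1 hn2
  have h : C88 G F l v w v' w' := ⟨hBas, hB, h7, hF, eF, hl, ht, ht', hn1, hn2⟩
  have s : ∀ a b : V, (a ∈ G.nb b ↔ b ∈ G.nb a) := fun a b => ⟨G.sym _ _, G.sym _ _⟩
  by_cases ha : l ∈ G.nb v
  · by_cases hb : l ∈ G.nb v'
    · by_cases hc : v' ∈ G.nb v
      · exact (h.caseII ha hb hc).elim
      · exact h.caseI ha hb hc
    · by_cases hc : v' ∈ G.nb v
      · exact h.caseIII ha hb hc
      · exfalso
        obtain ⟨x, hx, y, hy, hxy⟩ := h7.conn F hF {v', w'} (by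
          intro z hz
          rw [mem_insert, mem_singleton] at hz
          rw [h.memF]
          tauto) (by simp) (fun e => by
            have := h.lF
            rw [← e, mem_insert, mem_singleton] at this
            rcases this with h1 | h1
            · exact h.lv' h1
            · exact h.lw' h1)
        rw [mem_sdiff, h.memF] at hy
        rw [mem_insert, mem_singleton] at hx hy
        obtain ⟨hy1, hy2⟩ := hy
        push Not at hy2
        have hxy' : y ∈ G.nb v' := by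
          rcases hx with rfl | rfl
          · exact hxy
          · exact Tw_nb5 h.t2.sym33 hxy hy2.1
        rcases hy1 with rfl | rfl | rfl | rfl | rfl
        · exact hb hxy'
        · exact hc (G.sym _ _ hxy')
        · exact hc (Tw_nb5 h.t1.sym33 (G.sym _ _ hxy') h.n1.symm)
        · exact hy2.1 rfl
        · exact hy2.2 rfl
  · have hb : l ∈ G.nb v' := by
      by_contra hb
      have h1 := hBas.inn F hF.1 l h.lF
      rw [h.dl, if_neg ha, if_neg hb] at h1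
      omega
    by_cases hc : v' ∈ G.nb v
    · exact h.symm.caseIII hb ha (G.sym _ _ hc)
    · exfalso
      obtain ⟨x, hx, y, hy, hxy⟩ := h7.conn F hF {v, w} (by
          intro z hz
          rw [mem_insert, mem_singleton] at hz
          rw [h.memF]
          tauto) (by simp) (fun e => by
            have := h.lF
            rw [← e, mem_insert, mem_singleton] at this
            rcases this with h1 | h1
            · exact h.lv h1
            · exact h.lw h1)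
      rw [mem_sdiff, h.memF] at hy
      rw [mem_insert, mem_singleton] at hx hy
      obtain ⟨hy1, hy2⟩ := hy
      push Not at hy2
      have hxy' : y ∈ G.nb v := by
        rcases hx with rfl | rfl
        · exact hxy
        · exact Tw_nb5 h.t1.sym33 hxy hy2.1
      rcases hy1 with rfl | rfl | rfl | rfl | rfl
      · exact ha hxy'
      · exact hy2.1 rfl
      · exact hy2.2 rfl
      · exact hc hxy'
      · exact hc (G.sym _ _ (Tw_nb5 h.t2.sym33 (G.sym _ _ hxy') h.n1))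

end CG

end Pool.Agent.Lib.MP_e95c01_co.N
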