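import Pool.Agent.Lib.MP_e95c01_co.X.StmtsJ76
import Pool.Agent.Lib.MP_e95c01_co.T.Aux76

/-!
# J7: leaves with five hubs
-/

namespace Pool.Agent.Lib.MP_e95c01_co.N

open Finset

variable {V : Type} [Fintype V] [DecidableEq V]

namespace CG

namespace J7h30

variable {G : CG V} {F : Finset V}

/-- the counting lemma for low vertices -/
theorem cntJ (n9 : 9 ≤ Fintype.card V) {S M U : Finset V} {z : V} (hMU : M ⊆ U)
    (hcov : ∀ y ∈ M, (∃ w ∈ S, y ∈ G.nb w) ∨ (∃ a ∈ M, ∃ b ∈ S, y ∈ S ∧ G.HL a b y) ∨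
      (∃ a ∈ S, ∃ b ∈ U \ M, G.LL a b z y)) :
    M.card ≤ ∑ w ∈ S, (G.nb w ∩ U).card := by
  classical
  have TH := stTwHL_5 G
  set A1 : V → Prop := fun y => ∃ w ∈ S, y ∈ G.nb w with hA1
  set A3 : V → Prop := fun y => ∃ a ∈ M, ∃ b ∈ S, y ∈ S ∧ G.HL a b y with hA3
  set c : V → ℕ := fun x => ∑ w ∈ S, (if x ∈ G.nb w then 1 else 0) with hc
  set S0 : Finset V := M.filter fun y => A1 y with hS0
  set E3 : Finset V := M.filter fun y => ¬ A1 y ∧ A3 y with hE3
  set E4 : Finset V := M.filter fun y => ¬ A1 y ∧ ¬ A3 y with hE4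
  have hcard : M.card = S0.card + E3.card + E4.card := by
    have h1 := card_filter_add_card_filter_not (s := M) (fun y => A1 y)
    have h2 := card_filter_add_card_filter_not (s := M.filter fun y => ¬ A1 y) (fun y => A3 y)
    rw [filter_filter, filter_filter] at h2
    rw [hS0, hE3, hE4]
    omega
  have hch : ∀ y, ∃ a, y ∈ E3 → a ∈ M ∧ ∃ b ∈ S, y ∈ S ∧ G.HL a b y := by
    intro y
    by_cases h : y ∈ E3
    · obtain ⟨a, ha, b, hb, h1⟩ := (mem_filter.1 h).2.2
      exact ⟨a, fun _ => ⟨ha, b, hb, h1⟩⟩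
    · exact ⟨y, fun h1 => absurd h1 h⟩
  choose α hα using hch
  have hinj : Set.InjOn α E3 := by
    intro y hy y' hy' he
    by_contra hne
    obtain ⟨-, b, hb, -, h1⟩ := hα y (mem_coe.1 hy)
    obtain ⟨-, b', hb', -, h2⟩ := hα y' (mem_coe.1 hy')
    rw [← he] at h2
    obtain ⟨-, h3, -⟩ := TH.two n9 _ _ _ _ _ h1 h2 hne
    exact (mem_filter.1 (mem_coe.1 hy')).2.1 ⟨b, hb, G.sym _ _ h3⟩
  have him : E3.image α ⊆ S0 := by
    intro a ha
    obtain ⟨y, hy, rfl⟩ := mem_image.1 ha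
    obtain ⟨h1, b, hb, -, h2⟩ := hα y hy
    exact mem_filter.2 ⟨h1, b, hb, G.sym _ _ (HL_b76 h2)⟩
  have I1 : S0.card + E3.card ≤ ∑ x ∈ M, c x := by
    have h1 : ∀ x ∈ S0, 1 + (if x ∈ E3.image α then 1 else 0) ≤ c x := by
      intro x hx
      have hx1 := (mem_filter.1 hx).2
      split_ifs with h2
      · obtain ⟨y, hy, h3⟩ := mem_image.1 h2
        obtain ⟨h4, b, hb, hyS, h5⟩ := hα y hy
        rw [h3] at h5
        have hby : b ≠ y := (HL_bt76 h5).2.symm
        calc 1 + 1 = ∑ w ∈ ({b, y} : Finset V), (if x ∈ G.nb w then 1 else 0) := by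
              rw [sum_pair hby, if_pos (G.sym _ _ (HL_b76 h5)), if_pos (G.sym _ _ (HL_t76 h5))]
          _ ≤ c x := by
              apply sum_le_sum_of_subset
              intro w hw
              rw [mem_insert, mem_singleton] at hw
              rcases hw with rfl | rfl
              · exact hb
              · exact hyS
      · obtain ⟨w, hw, h3⟩ := hx1
        have h4 := single_le_sum (f := fun w => if x ∈ G.nb w then 1 else 0)
          (fun i _ => Nat.zero_le _) hw
        simp only [if_pos h3] at h4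
        exact h4
    calc S0.card + E3.card = ∑ x ∈ S0, (1 + (if x ∈ E3.image α then 1 else 0)) := by
          rw [sum_add_distrib, ← sum_filter, filter_mem_eq_inter, inter_eq_right.2 him]
          simp only [sum_const, smul_eq_mul, mul_one]
          rw [card_image_of_injOn hinj]
      _ ≤ ∑ x ∈ S0, c x := sum_le_sum h1
      _ ≤ ∑ x ∈ M, c x := sum_le_sum_of_subset (filter_subset _ _)
  have eS : ∑ w ∈ S, (G.nb w ∩ M).card = ∑ x ∈ M, c x := by
    rw [hc]
    simp only
    rw [sum_comm]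
    refine sum_congr rfl fun w _ => ?_
    rw [← sum_filter, sum_const, smul_eq_mul, mul_one]
    congr 1
    ext x
    rw [mem_inter, mem_filter]
    tauto
  have hch2 : ∀ y, ∃ p : V × V, y ∈ E4 → p.1 ∈ S ∧ p.2 ∈ U \ M ∧ G.LL p.1 p.2 z y := by
    intro y
    by_cases h : y ∈ E4
    · obtain ⟨h1, h2, h3⟩ := mem_filter.1 h
      rcases hcov y h1 with h4 | h4 | h4
      · exact absurd h4 h2
      · exact absurd h4 h3
      · obtain ⟨a, ha, b, hb, h5⟩ := h4
        exact ⟨(a, b), fun _ => ⟨ha, hb, h5⟩⟩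
    · exact ⟨(y, y), fun h1 => absurd h1 h⟩
  choose β hβ using hch2
  have hinj2 : Set.InjOn β E4 := by
    intro y hy y' hy' he
    obtain ⟨-, -, h1⟩ := hβ y (mem_coe.1 hy)
    obtain ⟨-, -, h2⟩ := hβ y' (mem_coe.1 hy')
    rw [← he] at h2
    have h3 : y ∈ insert y' (G.cl (β y).1) := by
      rw [h2.2.2.2.2.2.2, ← h1.2.2.2.2.2.2]
      exact mem_insert_self _ _
    rcases mem_insert.1 h3 with h4 | h4
    · exact h4
    · exact absurd h4 h1.2.2.2.2.2.1
  have I2 : E4.card ≤ ∑ w ∈ S, (G.nb w ∩ (U \ M)).card := by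
    have h1 : ∑ w ∈ S, (G.nb w ∩ (U \ M)).card
        = ((S ×ˢ (U \ M)).filter (fun p => p.2 ∈ G.nb p.1)).card := by
      rw [card_filter, sum_product]
      refine sum_congr rfl fun w _ => ?_
      rw [← card_filter]
      congr 1
      ext x
      rw [mem_inter, mem_filter]
      tauto
    rw [h1, ← card_image_of_injOn hinj2]
    apply card_le_card
    intro p hp
    obtain ⟨y, hy, rfl⟩ := mem_image.1 hp
    obtain ⟨h3, h4, h5⟩ := hβ y hy
    rw [mem_filter, mem_product]
    exact ⟨⟨h3, h4⟩, LL_ab76 h5⟩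
  have h1 : ∀ w, (G.nb w ∩ U).card = (G.nb w ∩ M).card + (G.nb w ∩ (U \ M)).card := by
    intro w
    rw [← card_union_of_disjoint]
    · congr 1
      ext x
      rw [mem_union, mem_inter, mem_inter, mem_inter, mem_sdiff]
      constructor
      · rintro ⟨h2, h3⟩
        by_cases h4 : x ∈ M
        · exact Or.inl ⟨h2, h4⟩
        · exact Or.inr ⟨h2, h3, h4⟩
      · rintro (⟨h2, h3⟩ | ⟨h2, h3, -⟩)
        · exact ⟨h2, hMU h3⟩
        · exact ⟨h2, h3⟩
    · rw [disjoint_left]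
      intro x h2 h3
      exact (mem_sdiff.1 (mem_inter.1 h3).2).2 (mem_inter.1 h2).2
  rw [sum_congr rfl fun w _ => h1 w, sum_add_distrib, eS]
  omega

/-- the situation -/
structure Hx (G : CG V) (F : Finset V) : Prop where
  hL : G.L5 F
  hH : ∀ z ∈ F, G.Hub z
  hBas : G.StLBas
  hB : G.StLB
  h7 : G.St7Bas

theorem Hx.n9 (c : Hx G F) : 9 ≤ Fintype.card V := by
  have := c.hL.1.n12
  omega

theorem notNF {x : V} (hx : x ∈ F) : x ∉ G.N F := fun h => (mem_sdiff.1 h).2 hx

theorem Hx.cov (c : Hx G F) {h y : V} (hh : h ∈ F) (hy : y ∈ F ∪ G.N F) (hn : y ∈ G.nb h) :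
    (∃ w ∈ G.N F, G.Low w ∧ h ∈ G.nb w ∧ y ∈ G.nb w) ∨
    (∃ v ∈ G.N F, ∃ w ∈ G.N F, G.Tw v w ∧ y ∈ G.nb v ∧ y ∈ G.nb w) ∨
    (∃ a ∈ G.N F, ∃ b ∈ G.N F, G.HL a b y ∧ h ∈ G.nb a ∧ h ∈ G.nb b) ∨
    (∃ a ∈ G.N F, ∃ b ∈ G.N F, G.LL a b h y) := by
  rcases c.hL.1.cov h hh y hy hn with h1 | h1 | h1 | h1 | h1
  · obtain ⟨w, hw, h2, h3, h4⟩ := h1
    rcases mem_union.1 hw with h5 | h5
    · exact absurd h2 (c.hH w h5).1
    · exact Or.inl ⟨w, h5, h2, h3, h4⟩
  · obtain ⟨v, hv, w, hw, h2, h3, h4, h5, h6⟩ := h1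
    rcases mem_union.1 hv with h7 | h7
    · exact absurd ⟨w, h2⟩ (c.hH v h7).2
    · rcases mem_union.1 hw with h8 | h8
      · exact absurd ⟨v, (stTwHL_5 G).symm _ _ h2⟩ (c.hH w h8).2
      · exact Or.inr (Or.inl ⟨v, h7, w, h8, h2, h5, h6⟩)
  · obtain ⟨a, b, h2, h3, h4, h5⟩ := h1
    rcases h5 with h5 | h5
    · exact absurd h2.2.1 (c.hH b h5.2).1
    · exact Or.inr (Or.inr (Or.inl ⟨a, h5.1, b, h5.2, h2, h4, h3⟩))
  · obtain ⟨a, b, h2, -⟩ := h1
    exact absurd (c.hL.1.sat _ _ _ h2) (c.hH h hh).1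
  · obtain ⟨a, b, h2, h5⟩ := h1
    rcases h5 with h5 | h5
    · exact absurd h2.1 (c.hH a h5.1).1
    · exact Or.inr (Or.inr (Or.inr ⟨a, h5.1, b, h5.2, h2⟩))

theorem mem_pT {w x : V} : x ∈ G.pT F w ↔ x ∈ G.nb w ∧ x ∈ G.N F := by
  rw [pT, mem_inter]

/-- no twins -/
theorem Hx.notw (c : Hx G F) {P : V} (hP : P ∈ G.N F) : ¬ G.IsTw P := by
  classical
  have TH := stTwHL_5 G
  rintro ⟨P', hPP⟩
  have hP' : P' ∈ G.N F := (c.hBas.twT F c.hL.1 P P' hPP).1 hP
  have hPl : ¬ G.Low P := by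
    intro h1
    have h2 := hPP.2.1
    have h3 : (G.nb P).card = 6 := h1
    omega
  obtain ⟨h3, h34⟩ := c.h7.tw3 F c.hL P hP ⟨P', hPP⟩
  obtain ⟨-, -, -, hs, -, -⟩ := c.hB.tw F c.hL.1 P hP ⟨P', hPP⟩
  have hPP' : P' ∈ G.pT F P := mem_pT.2 ⟨hPP.1, hP'⟩
  have key : ∀ h ∈ F, P ∈ G.nb h → ∃ w ∈ G.pT F P, G.Low w ∧ h ∈ G.nb w := by
    intro h hh hPh
    rcases c.cov hh (mem_union_right _ hP) hPh with h1 | h1 | h1 | h1
    · obtain ⟨w, hw, h2, h3', h4⟩ := h1
      exact ⟨w, mem_pT.2 ⟨G.sym _ _ h4, hw⟩, h2, h3'⟩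
    · exfalso
      obtain ⟨v, hv, w, hw, h2, h4, h5⟩ := h1
      have hvw : v ≠ w := by
        rintro rfl
        exact G.irr _ h2.1
      have hvP : v ≠ P' := by
        rintro rfl
        have := TH.uniq c.n9 _ _ _ (TH.symm _ _ hPP) h2
        rw [← this] at h5
        exact G.irr _ h5
      have hwP : w ≠ P' := by
        rintro rfl
        have := TH.uniq c.n9 _ _ _ (TH.symm _ _ hPP) (TH.symm _ _ h2)
        rw [← this] at h4
        exact G.irr _ h4
      have h6 : ({v, w, P'} : Finset V) ⊆ G.pT F P := by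
        intro x hx
        rw [mem_insert, mem_insert, mem_singleton] at hx
        rcases hx with rfl | rfl | rfl
        · exact mem_pT.2 ⟨G.sym _ _ h4, hv⟩
        · exact mem_pT.2 ⟨G.sym _ _ h5, hw⟩
        · exact hPP'
      have h7 := card_le_card h6
      rw [card_eq_three.2 ⟨v, w, P', hvw, hvP, hwP, rfl⟩] at h7
      omega
    · obtain ⟨a, ha, b, hb, h2, -⟩ := h1
      exact absurd (c.hL.1.sat _ _ _ h2) hPl
    · obtain ⟨a, ha, b, hb, h2⟩ := h1
      exact absurd ⟨P', hPP⟩ (TH.twLL _ _ _ _ h2).2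
  have hne : (G.nb P ∩ F).Nonempty := card_pos.1 (by
    have : 3 ≤ (G.nb P ∩ F).card := h3
    omega)
  obtain ⟨h0, hh0⟩ := hne
  rw [mem_inter] at hh0
  obtain ⟨d, hd, hdl, hdh⟩ := key h0 hh0.2 (G.sym _ _ hh0.1)
  have hdP' : d ≠ P' := by
    rintro rfl
    have h2 := (TH.symm _ _ hPP).2.1
    have h3' : (G.nb d).card = 6 := hdl
    omega
  have hpT : G.pT F P = {P', d} := by
    symm
    apply eq_of_subset_of_card_le
    · intro x hx
      rw [mem_insert, mem_singleton] at hx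
      rcases hx with rfl | rfl
      · exact hPP'
      · exact hd
    · rw [card_pair hdP'.symm]
      omega
  have hf3 : G.d P F = 3 := by
    have h5 : (G.pT F P).card = 2 := by rw [hpT, card_pair hdP'.symm]
    omega
  have hsub : G.nb P ∩ F ⊆ G.nb d ∩ F := by
    intro h hh
    rw [mem_inter] at hh
    obtain ⟨w, hw, hwl, hwh⟩ := key h hh.2 (G.sym _ _ hh.1)
    rw [hpT, mem_insert, mem_singleton] at hw
    rcases hw with rfl | rfl
    · exfalso
      have h2 := (TH.symm _ _ hPP).2.1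
      have h3' : (G.nb w).card = 6 := hwl
      omega
    · exact mem_inter.2 ⟨hwh, hh.2⟩
  have hdN : d ∈ G.N F := (mem_pT.1 hd).2
  have hPd : P ∈ G.nb d := G.sym _ _ (mem_pT.1 hd).1
  have hP'd : P' ∈ G.nb d := by
    have h1 := (TH.symm _ _ hPP).1
    exact G.sym _ _ (Tw_nb5 hPP (G.sym _ _ hPd) hdP')
  have hpTd : 2 ≤ (G.pT F d).card := by
    have h1 : ({P, P'} : Finset V) ⊆ G.pT F d := by
      intro x hx
      rw [mem_insert, mem_singleton] at hx
      rcases hx with rfl | rfl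
      · exact mem_pT.2 ⟨hPd, hP⟩
      · exact mem_pT.2 ⟨hP'd, hP'⟩
    have h2 := card_le_card h1
    rwa [card_pair (ne_of_nb5 hPP.1)] at h2
  have hfd : G.d d F = 3 := by
    have h1 : 3 ≤ G.d d F := by
      have := card_le_card hsub
      have h2 : (G.nb P ∩ F).card = 3 := hf3
      rw [h2] at this
      exact this
    rcases Nat.lt_or_ge (G.d d F) 5 with h2 | h2
    · rcases (by omega : G.d d F = 3 ∨ G.d d F = 4) with h4 | h4
      · exact h4
      · have := (c.hB.low4 F c.hL.1 d hdN hdl h4).1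
        omega
    · have := (c.hB.low5 F c.hL.1 d hdN hdl h2).2.1
      rw [this] at hpTd
      simp at hpTd
  have heq : G.nb P ∩ F = G.nb d ∩ F := by
    apply eq_of_subset_of_card_le hsub
    have h1 : (G.nb P ∩ F).card = 3 := hf3
    have h2 : (G.nb d ∩ F).card = 3 := hfd
    omega
  have hPd' : P ≠ d := ne_of_nb5 (G.sym _ _ hPd)
  have hZ : G.N ({P, P', d} : Finset V) ∩ F = G.nb P ∩ F := by
    ext x
    rw [mem_inter, mem_inter]
    constructor
    · rintro ⟨h1, h2⟩
      refine ⟨?_, h2⟩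
      rw [N, mem_sdiff, mem_biUnion] at h1
      obtain ⟨⟨y, hy, hxy⟩, -⟩ := h1
      have hxne : ∀ u ∈ G.N F, x ≠ u := by
        rintro u hu rfl
        exact notNF h2 hu
      rw [mem_insert, mem_insert, mem_singleton] at hy
      rcases hy with rfl | rfl | rfl
      · exact hxy
      · exact Tw_nb5 (TH.symm _ _ hPP) hxy (hxne _ hP)
      · have h3' : x ∈ G.nb P ∩ F := by
          rw [heq]
          exact mem_inter.2 ⟨hxy, h2⟩
        exact (mem_inter.1 h3').1
    · rintro ⟨h1, h2⟩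
      refine ⟨?_, h2⟩
      rw [N, mem_sdiff, mem_biUnion]
      refine ⟨⟨P, mem_insert_self _ _, h1⟩, ?_⟩
      rw [mem_insert, mem_insert, mem_singleton]
      rintro (rfl | rfl | rfl)
      · exact notNF h2 hP
      · exact notNF h2 hP'
      · exact notNF h2 hdN
  obtain ⟨x, y, -, hxy, hnn, -⟩ := c.h7.three F c.hL {P, P', d}
    (by
      intro x hx
      rw [mem_insert, mem_insert, mem_singleton] at hx
      rcases hx with rfl | rfl | rfl
      · exact hP
      · exact hP'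
      · exact hdN)
    (card_eq_three.2 ⟨P, P', d, ne_of_nb5 hPP.1, hPd', hdP'.symm, rfl⟩)
    (by rw [hZ]; exact hf3)
  apply hnn
  have hx : x ∈ G.FZ F {P, P', d} := by rw [hxy]; exact mem_insert_self _ _
  have hy : y ∈ G.FZ F {P, P', d} := by
    rw [hxy]
    exact mem_insert_of_mem (mem_singleton_self _)
  exact ⟨c.hH x (mem_sdiff.1 hx).1, c.hH y (mem_sdiff.1 hy).1⟩

/-- every vertex of the neighbourhood is low or a hub -/
theorem Hx.lh (c : Hx G F) {P : V} (hP : P ∈ G.N F) : G.Low P ∨ G.Hub P := by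
  by_cases h : G.Low P
  · exact Or.inl h
  · exact Or.inr ⟨h, c.notw hP⟩

theorem Hx.nopair (c : Hx G F) {w : V} : ¬ G.PairSet (G.pT F w) := by
  rintro ⟨v, v', h1, h2⟩
  have h3 : v ∈ G.pT F w := by rw [h2]; exact mem_insert_self _ _
  exact c.notw (mem_pT.1 h3).2 ⟨v', h1⟩

/-- the low vertices of `N F` adjacent to `h` -/
noncomputable def D (G : CG V) (F : Finset V) (h : V) : Finset V :=
  (G.N F).filter fun w => G.Low w ∧ h ∈ G.nb w

theorem mem_D {h w : V} : w ∈ D G F h ↔ w ∈ G.N F ∧ G.Low w ∧ h ∈ G.nb w := by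
  rw [D, mem_filter]

/-- number of neighbours in `N F` -/
def tt (G : CG V) (F : Finset V) (w : V) : ℕ := (G.pT F w).card

/-- the full value -/
def Full (G : CG V) (F : Finset V) (w : V) : Prop :=
  2 * ((tt G F w : ℤ) + 2 * (G.d w F : ℤ) - 3) ≤ G.gam5 F w

open Classical in
/-- the value -/
noncomputable def vl (G : CG V) (F : Finset V) (w : V) : ℕ :=
  if Full G F w then tt G F w + 2 * G.d w F - 3 else tt G F w + 2 * G.d w F - 4

/-- 60 times the value per neighbour -/
noncomputable def om (G : CG V) (F : Finset V) (w : V) : ℕ := vl G F w * (60 / G.d w F)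

/-- the values -/
theorem Hx.val (c : Hx G F) {w : V} (hw : w ∈ G.N F) (hl : G.Low w) :
    ((2 * vl G F w : ℕ) : ℤ) ≤ G.gam5 F w ∧ om G F w * G.d w F = 60 * vl G F w ∧
    ((G.d w F = 2 ∧ tt G F w ≤ 3 ∧ Full G F w ∧ om G F w = 30 * (1 + tt G F w)) ∨
     (G.d w F = 3 ∧ tt G F w ≤ 2 ∧ Full G F w ∧ om G F w = 20 * (3 + tt G F w)) ∨
     (G.d w F = 3 ∧ tt G F w = 1 ∧ ¬ Full G F w ∧ om G F w = 60 ∧
       ∃ v q q', G.Low v ∧ G.pT F w = {v} ∧ G.Tw q q' ∧ G.pO F w = {q, q'} ∧ q ∈ G.nb v) ∨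
     (G.d w F = 4 ∧ tt G F w ≤ 1 ∧ Full G F w ∧ om G F w = 15 * (5 + tt G F w)) ∨
     (G.d w F = 4 ∧ tt G F w = 1 ∧ ¬ Full G F w ∧ om G F w = 75 ∧
       ∃ a b, G.HL a b w ∧ a ∈ G.N F ∧ b ∈ G.N F ∧ G.pT F w = {a} ∧ G.Hub a) ∨
     (G.d w F = 5 ∧ tt G F w = 0 ∧ Full G F w ∧ om G F w = 84)) := by
  classical
  have hp := c.hBas.pos F c.hL.1 w hw
  rcases (by omega : G.d w F = 2 ∨ G.d w F = 3 ∨ G.d w F = 4 ∨ 5 ≤ G.d w F) with h | h | h | h
  · obtain ⟨h1, h2, -⟩ := c.hB.low2 F c.hL.1 w hw hl h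
    have h3 : 2 + 2 * ((G.pT F w).card : ℤ) ≤ G.gam5 F w := by
      rcases h2 with h2 | h2
      · exact h2
      · exact absurd h2.2.1 c.nopair
    have hf : Full G F w := by
      unfold Full tt
      rw [h]
      push_cast
      linarith
    have hv : vl G F w = tt G F w + 1 := by
      unfold vl
      rw [if_pos hf, h]
      omega
    refine ⟨?_, ?_, Or.inl ⟨h, h1, hf, ?_⟩⟩
    · rw [hv]
      unfold tt
      push_cast
      linarith
    · unfold om
      rw [hv, h]
      omega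
    · unfold om
      rw [hv, h]
      omega
  · obtain ⟨h1, h2, h3, -⟩ := c.hB.low3 F c.hL.1 w hw hl h
    by_cases hf : Full G F w
    · have hv : vl G F w = tt G F w + 3 := by
        unfold vl
        rw [if_pos hf, h]
        omega
      refine ⟨?_, ?_, Or.inr (Or.inl ⟨h, h1, hf, ?_⟩)⟩
      · unfold Full at hf
        rw [h] at hf
        rw [hv]
        push_cast at hf ⊢
        linarith
      · unfold om
        rw [hv, h]
        omega
      · unfold om
        rw [hv, h]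
        omega
    · rcases h3 with h3 | h3
      · exfalso
        apply hf
        unfold Full tt
        rw [h]
        push_cast
        linarith
      · obtain ⟨v, q, q', e1, e2, e3, e4, e5, -⟩ := h3
        have ht : tt G F w = 1 := by
          unfold tt
          rw [e2, card_singleton]
        have hv : vl G F w = 3 := by
          unfold vl
          rw [if_neg hf, h, ht]
        refine ⟨?_, ?_, Or.inr (Or.inr (Or.inl ⟨h, ht, hf, ?_, v, q, q', e1, e2, e3, e4, e5⟩))⟩
        · rw [hv]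
          push_cast
          linarith
        · unfold om
          rw [hv, h]
        · unfold om
          rw [hv, h]
  · obtain ⟨h1, h2, h3⟩ := c.hB.low4 F c.hL.1 w hw hl h
    by_cases hf : Full G F w
    · have hv : vl G F w = tt G F w + 5 := by
        unfold vl
        rw [if_pos hf, h]
        omega
      refine ⟨?_, ?_, Or.inr (Or.inr (Or.inr (Or.inl ⟨h, h1, hf, ?_⟩)))⟩
      · unfold Full at hf
        rw [h] at hf
        rw [hv]
        push_cast at hf ⊢
        linarith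
      · unfold om
        rw [hv, h]
        omega
      · unfold om
        rw [hv, h]
        omega
    · rcases h3 with h3 | h3
      · exfalso
        apply hf
        unfold Full tt
        rw [h]
        push_cast
        linarith
      · obtain ⟨a, b, e1, e2, e3, e4, e5⟩ := h3
        have ht : tt G F w = 1 := by
          unfold tt
          rw [e4, card_singleton]
        have hv : vl G F w = 5 := by
          unfold vl
          rw [if_neg hf, h, ht]
        refine ⟨?_, ?_, Or.inr (Or.inr (Or.inr (Or.inr (Or.inl ⟨h, ht, hf, ?_, a, b, e1, e2, e3, e4, e5⟩))))⟩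
        · rw [hv]
          push_cast
          linarith
        · unfold om
          rw [hv, h]
        · unfold om
          rw [hv, h]
  · obtain ⟨h1, h2, h3⟩ := c.hB.low5 F c.hL.1 w hw hl h
    have ht : tt G F w = 0 := by
      unfold tt
      rw [h2, card_empty]
    have hf : Full G F w := by
      unfold Full
      rw [h1, ht, h3]
      norm_num
    have hv : vl G F w = 7 := by
      unfold vl
      rw [if_pos hf, h1, ht]
    refine ⟨?_, ?_, Or.inr (Or.inr (Or.inr (Or.inr (Or.inr ⟨h1, ht, hf, ?_⟩))))⟩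
    · rw [hv, h3]
      norm_num
    · unfold om
      rw [hv, h1]
    · unfold om
      rw [hv, h1]

/-! ### counting at a hub -/

theorem Hx.nbsub (_ : Hx G F) {h y : V} (hh : h ∈ F) (hy : y ∈ G.nb h) : y ∈ F ∪ G.N F := by
  rw [mem_union]
  by_cases h1 : y ∈ F
  · exact Or.inl h1
  · right
    rw [N, mem_sdiff, mem_biUnion]
    exact ⟨⟨h, hh, hy⟩, h1⟩

theorem Hx.deg (c : Hx G F) {h : V} (hh : h ∈ F) : 7 ≤ (G.nb h).card ∧ G.d h F ≤ 4 ∧
    3 ≤ (G.nb h ∩ G.N F).card := by
  have h1 := G.deg h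
  have h2 := (c.hH h hh).1
  have h3 : (G.nb h).card ≠ 6 := h2
  have h4 := c.hBas.deg F c.hL.1 h hh
  have h5 : G.d h F ≤ 4 := by
    have h6 : G.nb h ∩ F ⊆ F.erase h := by
      intro x hx
      rw [mem_inter] at hx
      refine mem_erase.2 ⟨?_, hx.2⟩
      rintro rfl
      exact G.irr _ hx.1
    have h7 := card_le_card h6
    rw [card_erase_of_mem hh, c.hL.2] at h7
    exact h7
  have h6 : (G.Tz F h).card = (G.nb h ∩ G.N F).card := rfl
  omega

/-- covers at `h` -/
theorem Hx.covD (c : Hx G F) {h y : V} (hh : h ∈ F) (hn : y ∈ G.nb h) :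
    (∃ w ∈ D G F h, y ∈ G.nb w) ∨
    (∃ a ∈ G.nb h ∩ G.N F, ∃ b ∈ D G F h, y ∈ D G F h ∧ G.HL a b y) ∨
    (∃ a ∈ D G F h, ∃ b ∈ G.N F, b ∉ G.nb h ∧ G.LL a b h y) := by
  have hy := c.nbsub hh hn
  rcases c.cov hh hy hn with h1 | h1 | h1 | h1
  · obtain ⟨w, hw, h2, h3, h4⟩ := h1
    exact Or.inl ⟨w, mem_D.2 ⟨hw, h2, h3⟩, h4⟩
  · obtain ⟨v, hv, w, hw, h2, -⟩ := h1
    exact absurd ⟨w, h2⟩ (c.notw hv)
  · obtain ⟨a, ha, b, hb, h2, h3, h4⟩ := h1
    have h5 := c.hL.1.sat _ _ _ h2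
    have h6 : y ∈ G.N F := by
      rcases mem_union.1 hy with h7 | h7
      · exact absurd h5 (c.hH y h7).1
      · exact h7
    exact Or.inr (Or.inl ⟨a, mem_inter.2 ⟨G.sym _ _ h3, ha⟩, b, mem_D.2 ⟨hb, h2.2.1, h4⟩,
      mem_D.2 ⟨h6, h5, G.sym _ _ hn⟩, h2⟩)
  · obtain ⟨a, ha, b, hb, h2⟩ := h1
    refine Or.inr (Or.inr ⟨a, mem_D.2 ⟨ha, h2.1, LL_t76 h2⟩, b, hb, ?_, h2⟩)
    intro h3
    exact (LL_tb76 h2).1 (G.sym _ _ h3)

/-- counting in `N F` -/
theorem Hx.tau (c : Hx G F) {h : V} (hh : h ∈ F) :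
    (G.nb h ∩ G.N F).card ≤ ∑ w ∈ D G F h, tt G F w := by
  have h1 := cntJ (G := G) c.n9 (S := D G F h) (M := G.nb h ∩ G.N F) (U := G.N F) (z := h)
    inter_subset_right (by
      intro y hy
      rw [mem_inter] at hy
      rcases c.covD hh hy.1 with h1 | h1 | h1
      · exact Or.inl h1
      · exact Or.inr (Or.inl h1)
      · obtain ⟨a, ha, b, hb, h2, h3⟩ := h1
        exact Or.inr (Or.inr ⟨a, ha, b, mem_sdiff.2 ⟨hb, fun h4 => h2 (mem_inter.1 h4).1⟩, h3⟩))
  exact h1

/-- counting with the edges in `F` -/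
theorem Hx.tauF (c : Hx G F) {h : V} (hh : h ∈ F) :
    7 + (D G F h).card ≤ ∑ w ∈ D G F h, (tt G F w + G.d w F) := by
  have h1 := cntJ (G := G) c.n9 (S := D G F h) (M := G.nb h) (U := (F ∪ G.N F).erase h) (z := h)
    (by
      intro y hy
      refine mem_erase.2 ⟨?_, c.nbsub hh hy⟩
      rintro rfl
      exact G.irr _ hy) (by
      intro y hy
      rcases c.covD hh hy with h1 | h1 | h1
      · exact Or.inl h1
      · obtain ⟨a, ha, b, hb, h2⟩ := h1
        exact Or.inr (Or.inl ⟨a, (mem_inter.1 ha).1, b, hb, h2⟩)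
      · obtain ⟨a, ha, b, hb, h2, h3⟩ := h1
        refine Or.inr (Or.inr ⟨a, ha, b, mem_sdiff.2 ⟨mem_erase.2 ⟨?_, mem_union_right _ hb⟩, h2⟩, h3⟩)
        rintro rfl
        exact notNF hh hb)
  have h2 : ∑ w ∈ D G F h, ((G.nb w ∩ (F ∪ G.N F).erase h).card + 1)
      = ∑ w ∈ D G F h, (tt G F w + G.d w F) := by
    refine sum_congr rfl fun w hw => ?_
    have e1 : G.nb w ∩ (F ∪ G.N F).erase h = (G.nb w ∩ (F ∪ G.N F)).erase h := by
      ext x
      simp only [mem_inter, mem_erase]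
      tauto
    have e2 : (G.nb w ∩ (F ∪ G.N F)).card = tt G F w + G.d w F := by
      rw [inter_union_distrib_left, card_union_of_disjoint, add_comm]
      · rfl
      · rw [disjoint_left]
        intro x h3 h4
        exact notNF (mem_inter.1 h3).2 (mem_inter.1 h4).2
    have e3 : h ∈ G.nb w ∩ (F ∪ G.N F) :=
      mem_inter.2 ⟨(mem_D.1 hw).2.2, mem_union_left _ hh⟩
    rw [e1, ← e2, card_erase_of_mem e3]
    have : 0 < (G.nb w ∩ (F ∪ G.N F)).card := card_pos.2 ⟨h, e3⟩
    omega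
  rw [sum_add_distrib, sum_const, smul_eq_mul, mul_one] at h2
  have h3 := (c.deg hh).1
  omega

theorem Hx.dT (c : Hx G F) {h w : V} (_ : h ∈ F) (hw : w ∈ D G F h) : G.d w F + tt G F w ≤ 5 := by
  obtain ⟨h1, h2, -⟩ := mem_D.1 hw
  obtain ⟨-, -, h3⟩ := c.val h1 h2
  rcases h3 with h | h | h | h | h | h <;> omega

/-- at least two low vertices at `h` -/
theorem Hx.k2 (c : Hx G F) {h : V} (hh : h ∈ F) : 2 ≤ (D G F h).card := by
  have h1 := c.tau hh
  have h2 := (c.deg hh).2.2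
  by_contra h3
  rcases Nat.lt_or_ge (D G F h).card 1 with h4 | h4
  · rw [card_eq_zero.1 (show (D G F h).card = 0 by omega), sum_empty] at h1
    omega
  · obtain ⟨d, hd⟩ := card_eq_one.1 (show (D G F h).card = 1 by omega)
    have hdD : d ∈ D G F h := by rw [hd]; exact mem_singleton_self _
    have hdn := mem_D.1 hdD
    rcases c.covD hh (G.sym _ _ hdn.2.2) with h5 | h5 | h5
    · obtain ⟨w, hw, h6⟩ := h5
      rw [hd, mem_singleton] at hw
      rw [hw] at h6
      exact G.irr _ h6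
    · obtain ⟨a, -, b, hb, -, h6⟩ := h5
      rw [hd, mem_singleton] at hb
      exact (HL_bt76 h6).2 hb.symm
    · obtain ⟨a, ha, b, -, -, h6⟩ := h5
      rw [hd, mem_singleton] at ha
      exact (LL_ua76 h6).2 ha.symm

/-- exactly two low vertices at `h`: both have the full value -/
theorem Hx.full2 (c : Hx G F) {h d d' : V} (hh : h ∈ F) (hne : d ≠ d') (hD : D G F h = {d, d'}) :
    Full G F d := by
  have TH := stTwHL_5 G
  have hdD : d ∈ D G F h := by rw [hD]; exact mem_insert_self _ _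
  have hd'D : d' ∈ D G F h := by rw [hD]; exact mem_insert_of_mem (mem_singleton_self _)
  obtain ⟨hdN, hdl, hdh⟩ := mem_D.1 hdD
  obtain ⟨hd'N, hd'l, hd'h⟩ := mem_D.1 hd'D
  have hm : ∀ x ∈ D G F h, x = d ∨ x = d' := by
    intro x hx
    rw [hD, mem_insert, mem_singleton] at hx
    exact hx
  have t1 := c.tau hh
  have t2 := (c.deg hh).2.2
  have t3 := c.tauF hh
  rw [hD, sum_pair hne] at t1
  rw [hD, sum_pair hne, card_pair hne] at t3
  by_contra hf
  obtain ⟨-, -, hv⟩ := c.val hdN hdl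
  rcases hv with hv | hv | hv | hv | hv | hv
  · exact hf hv.2.2.1
  · exact hf hv.2.2.1
  · -- S0rev
    obtain ⟨f3, t1', -, -, v, q, q', vl', pv, qq, po, qv⟩ := hv
    have hvN : v ∈ G.N F := by
      have : v ∈ G.pT F d := by rw [pv]; exact mem_singleton_self _
      exact (mem_pT.1 this).2
    have hdv : v ∈ G.nb d := by
      have : v ∈ G.pT F d := by rw [pv]; exact mem_singleton_self _
      exact (mem_pT.1 this).1
    have onlyv : ∀ x, x ∈ G.nb d → x ∈ G.N F → x = v := by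
      intro x h1 h2
      have : x ∈ G.pT F d := mem_pT.2 ⟨h1, h2⟩
      rw [pv, mem_singleton] at this
      exact this
    -- the number of neighbours of `v`
    have hq : q ∈ G.Co F ∧ q' ∈ G.Co F := by
      have h1 : q ∈ G.pO F d := by rw [po]; exact mem_insert_self _ _
      have h2 : q' ∈ G.pO F d := by rw [po]; exact mem_insert_of_mem (mem_singleton_self _)
      rw [pO, mem_inter] at h1 h2
      exact ⟨h1.2, h2.2⟩
    have hvq' : q' ∈ G.nb v := by
      refine G.sym _ _ (Tw_nb5 qq (G.sym _ _ qv) ?_)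
      rintro rfl
      have : v ∉ F ∪ G.N F := by
        have := hq.2
        rw [Co, mem_compl] at this
        exact this
      exact this (mem_union_right _ hvN)
    have hv4 : G.d v F + tt G F v ≤ 4 := by
      have h1 : (G.nb v ∩ F) ∪ (G.pT F v) ∪ {q, q'} ⊆ G.nb v := by
        intro x hx
        rw [mem_union, mem_union, mem_insert, mem_singleton] at hx
        rcases hx with (hx | hx) | rfl | rfl
        · exact (mem_inter.1 hx).1
        · exact (mem_pT.1 hx).1
        · exact qv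
        · exact hvq'
      have h2 := card_le_card h1
      rw [card_union_of_disjoint, card_union_of_disjoint, card_pair (ne_of_nb5 qq.1)] at h2
      · have h3 : (G.nb v).card = 6 := vl'
        have h4 : (G.nb v ∩ F).card = G.d v F := rfl
        have h5 : (G.pT F v).card = tt G F v := rfl
        omega
      · rw [disjoint_left]
        intro x h3 h4
        exact notNF (mem_inter.1 h3).2 (mem_pT.1 h4).2
      · rw [disjoint_left]
        intro x h3 h4
        have h5 : x ∈ F ∪ G.N F := by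
          rcases mem_union.1 h3 with h3 | h3
          · exact mem_union_left _ (mem_inter.1 h3).2
          · exact mem_union_right _ (mem_pT.1 h3).2
        rw [mem_insert, mem_singleton] at h4
        have h6 : x ∈ G.Co F := by
          rcases h4 with rfl | rfl
          · exact hq.1
          · exact hq.2
        rw [Co, mem_compl] at h6
        exact h6 h5
    by_cases hvd : v = d'
    · rw [hvd] at hv4
      omega
    · -- `v` is not adjacent to `h`
      have hvh : h ∉ G.nb v := by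
        intro h1
        rcases hm v (mem_D.2 ⟨hvN, vl', h1⟩) with h2 | h2
        · rw [h2] at hdv
          exact G.irr _ hdv
        · exact hvd h2
      have hdd : d' ∉ G.nb d := fun h1 => hvd (onlyv d' h1 hd'N).symm
      have hdd' : d ∉ G.nb d' := fun h1 => hdd (G.sym _ _ h1)
      -- cover of `d`
      have L1 : G.LL d' v h d := by
        rcases c.covD hh (G.sym _ _ hdh) with h5 | h5 | h5
        · exfalso
          obtain ⟨w, hw, h6⟩ := h5
          rcases hm w hw with rfl | rfl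
          · exact G.irr _ h6
          · exact hdd' h6
        · exfalso
          obtain ⟨a, ha, b, hb, -, h6⟩ := h5
          have h7 := onlyv a (G.sym _ _ (HL_t76 h6)) (mem_inter.1 ha).2
          rw [h7] at h6
          exact HL_not_low76 h6 vl'
        · obtain ⟨a, ha, b, hb, h6, h7⟩ := h5
          have h8 := onlyv b (G.sym _ _ (LL_u76 h7)) hb
          rw [h8] at h7
          rcases hm a ha with rfl | rfl
          · exact absurd rfl (LL_ua76 h7).2
          · exact h7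
      have L2 : G.LL d v h d' := by
        rcases c.covD hh (G.sym _ _ hd'h) with h5 | h5 | h5
        · exfalso
          obtain ⟨w, hw, h6⟩ := h5
          rcases hm w hw with rfl | rfl
          · exact hdd h6
          · exact G.irr _ h6
        · exfalso
          obtain ⟨a, ha, b, hb, -, h6⟩ := h5
          rcases hm b hb with rfl | rfl
          · have h7 := onlyv a (G.sym _ _ (HL_b76 h6)) (mem_inter.1 ha).2
            rw [h7] at h6
            exact HL_not_low76 h6 vl'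
          · exact (HL_bt76 h6).2 rfl
        · obtain ⟨a, ha, b, hb, h6, h7⟩ := h5
          rcases hm a ha with rfl | rfl
          · have h8 := onlyv b (LL_ab76 h7) hb
            rw [h8] at h7
            exact h7
          · exact absurd rfl (LL_ua76 h7).2
      -- so `d'` has only one neighbour in `N F`
      have h1 : tt G F d' ≤ 1 := by
        unfold tt
        have : Nonempty V := ⟨v⟩
        rw [card_le_one_iff_subset_singleton]
        refine ⟨v, fun x hx => ?_⟩
        rw [mem_singleton]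
        rw [mem_pT] at hx
        by_contra hxv
        have hxd : x ≠ d := by
          rintro rfl
          exact hdd' hx.1
        have hxh : x ≠ h := by
          rintro rfl
          exact notNF hh hx.2
        rcases LL_to76 L1 hx.1 hxh with h8 | h8
        · exact hxv h8
        · have hxd' : x ≠ d' := by
            rintro rfl
            exact G.irr _ hx.1
          rcases LL_from76 L2 h8 hxd' with h9 | h9
          · exact hxd h9
          · exact hxv (onlyv x h9 hx.2)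
      omega
  · exact hf hv.2.2.1
  · -- HLrev
    obtain ⟨f4, t1', -, -, a, b, hab, haN, hbN, pa, hah⟩ := hv
    have onlya : ∀ x, x ∈ G.nb d → x ∈ G.N F → x = a := by
      intro x h1 h2
      have : x ∈ G.pT F d := mem_pT.2 ⟨h1, h2⟩
      rw [pa, mem_singleton] at this
      exact this
    have hnlow : ∀ x, x ∈ G.nb d → x ∈ G.N F → ¬ G.Low x := by
      intro x h1 h2
      rw [onlya x h1 h2]
      exact hah.1
    have H1 : G.HL a d' d := by
      rcases c.covD hh (G.sym _ _ hdh) with h5 | h5 | h5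
      · exfalso
        obtain ⟨w, hw, h6⟩ := h5
        have h7 := mem_D.1 hw
        exact hnlow w (G.sym _ _ h6) h7.1 h7.2.1
      · obtain ⟨a', ha', b', hb', -, h6⟩ := h5
        have h7 := onlya a' (G.sym _ _ (HL_t76 h6)) (mem_inter.1 ha').2
        rw [h7] at h6
        rcases hm b' hb' with rfl | rfl
        · exact absurd rfl (HL_bt76 h6).2
        · exact h6
      · exfalso
        obtain ⟨a', ha', b', hb', h6, h7⟩ := h5
        exact hnlow b' (G.sym _ _ (LL_u76 h7)) hb' h7.2.1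
    rcases c.covD hh (G.sym _ _ hd'h) with h5 | h5 | h5
    · obtain ⟨w, hw, h6⟩ := h5
      rcases hm w hw with rfl | rfl
      · exact (HL_bt76 H1).1 (G.sym _ _ h6)
      · exact G.irr _ h6
    · obtain ⟨a', ha', b', hb', -, h6⟩ := h5
      rcases hm b' hb' with rfl | rfl
      · have h7 := onlya a' (G.sym _ _ (HL_b76 h6)) (mem_inter.1 ha').2
        rw [h7] at h6
        exact TH.nomut c.n9 _ _ _ _ _ H1 h6 rfl
      · exact (HL_bt76 h6).2 rfl
    · obtain ⟨a', ha', b', hb', h6, h7⟩ := h5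
      rcases hm a' ha' with rfl | rfl
      · exact hnlow b' (LL_ab76 h7) hb' h7.2.1
      · exact (LL_ua76 h7).2 rfl
  · exact hf hv.2.2.1

/-- three low neighbours only: four incidences -/
theorem Hx.tau4 (c : Hx G F) {h : V} (hh : h ∈ F) (hk : 3 ≤ (D G F h).card) :
    4 ≤ ∑ w ∈ D G F h, tt G F w := by
  classical
  have t1 := c.tau hh
  have t2 := (c.deg hh).2.2
  by_contra hcon
  have hsub : D G F h ⊆ G.nb h ∩ G.N F := by
    intro x hx
    obtain ⟨h1, -, h2⟩ := mem_D.1 hx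
    exact mem_inter.2 ⟨G.sym _ _ h2, h1⟩
  have hT3 : (G.nb h ∩ G.N F).card = 3 := by omega
  have hk3 : (D G F h).card = 3 := by
    have := card_le_card hsub
    omega
  have heq : D G F h = G.nb h ∩ G.N F := eq_of_subset_of_card_le hsub (by omega)
  have inD : ∀ x, x ∈ G.nb h → x ∈ G.N F → x ∈ D G F h := by
    intro x h1 h2
    rw [heq]
    exact mem_inter.2 ⟨h1, h2⟩
  -- covers
  have hcov : ∀ y ∈ D G F h, (∃ w ∈ D G F h, y ∈ G.nb w) ∨
      (∃ a ∈ D G F h, ∃ b ∈ G.N F, b ∉ G.nb h ∧ G.LL a b h y) := by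
    intro y hy
    rcases c.covD hh (G.sym _ _ (mem_D.1 hy).2.2) with h5 | h5 | h5
    · exact Or.inl h5
    · obtain ⟨a, ha, b, hb, -, h6⟩ := h5
      rw [mem_inter] at ha
      exact absurd (mem_D.1 (inD a ha.1 ha.2)).2.1 (HL_not_low76 h6)
    · exact Or.inr h5
  have hpos : ∀ y ∈ D G F h, 1 ≤ tt G F y := by
    intro y hy
    rcases hcov y hy with ⟨w, hw, h1⟩ | ⟨a, ha, b, hb, -, h1⟩
    · exact card_pos.2 ⟨w, mem_pT.2 ⟨G.sym _ _ h1, (mem_D.1 hw).1⟩⟩
    · exact card_pos.2 ⟨b, mem_pT.2 ⟨G.sym _ _ (LL_u76 h1), hb⟩⟩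
  have hone : ∀ y ∈ D G F h, tt G F y = 1 := by
    intro y hy
    by_contra h1
    have h2 := hpos y hy
    have h3 : ∑ w ∈ D G F h, 1 < ∑ w ∈ D G F h, tt G F w :=
      sum_lt_sum hpos ⟨y, hy, by omega⟩
    rw [sum_const, hk3] at h3
    simp only [smul_eq_mul, mul_one] at h3
    omega
  have huniq : ∀ y ∈ D G F h, ∀ x x', x ∈ G.nb y → x ∈ G.N F → x' ∈ G.nb y → x' ∈ G.N F →
      x = x' := by
    intro y hy x x' h1 h2 h3 h4
    have h5 := hone y hy
    exact card_le_one.1 (le_of_eq h5) x (mem_pT.2 ⟨h1, h2⟩) x' (mem_pT.2 ⟨h3, h4⟩)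
  -- a third vertex
  have third : ∀ a y, a ∈ D G F h → y ∈ D G F h → a ≠ y → ∃ e ∈ D G F h, e ≠ a ∧ e ≠ y ∧
      ∀ x ∈ D G F h, x = a ∨ x = y ∨ x = e := by
    intro a y ha hy hay
    have h1 : (((D G F h).erase a).erase y).card = 1 := by
      rw [card_erase_of_mem (mem_erase.2 ⟨hay.symm, hy⟩), card_erase_of_mem ha, hk3]
    obtain ⟨e, he⟩ := card_eq_one.1 h1
    have h2 : e ∈ ((D G F h).erase a).erase y := by rw [he]; exact mem_singleton_self _
    rw [mem_erase, mem_erase] at h2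
    refine ⟨e, h2.2.2, h2.2.1, h2.1, fun x hx => ?_⟩
    by_contra h3
    push Not at h3
    have h4 : x ∈ ((D G F h).erase a).erase y := mem_erase.2 ⟨h3.2.1, mem_erase.2 ⟨h3.1, hx⟩⟩
    rw [he, mem_singleton] at h4
    exact h3.2.2 h4
  have noLL : ∀ y ∈ D G F h, ∀ a ∈ D G F h, ∀ b ∈ G.N F, b ∉ G.nb h → ¬ G.LL a b h y := by
    intro y hy a ha b hb hbh hL
    have hay : a ≠ y := (LL_ua76 hL).2.symm
    have hbD : b ∉ D G F h := by
      intro h1
      exact hbh (G.sym _ _ (mem_D.1 h1).2.2)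
    obtain ⟨e, he, hea, hey, hall⟩ := third a y ha hy hay
    have ua : ∀ x, x ∈ G.nb a → x ∈ G.N F → x = b :=
      fun x h1 h2 => huniq a ha x b h1 h2 (LL_ab76 hL) hb
    have uy : ∀ x, x ∈ G.nb y → x ∈ G.N F → x = b :=
      fun x h1 h2 => huniq y hy x b h1 h2 (G.sym _ _ (LL_u76 hL)) hb
    have heN := (mem_D.1 he).1
    have heb : e ∈ G.nb b := by
      rcases hcov e he with ⟨w, hw, h1⟩ | ⟨a', ha', b', hb', hb'h, h1⟩
      · rcases hall w hw with rfl | rfl | rfl
        · have := ua e h1 heN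
          exact absurd (this ▸ he) hbD
        · have := uy e h1 heN
          exact absurd (this ▸ he) hbD
        · exact absurd h1 (G.irr _)
      · have hb'b : b' = b := by
          rcases hall a' ha' with rfl | rfl | rfl
          · exact ua b' (LL_ab76 h1) hb'
          · exact uy b' (LL_ab76 h1) hb'
          · exact absurd rfl (LL_ua76 h1).2
        rw [← hb'b]
        exact LL_u76 h1
    rcases LL_from76 hL heb hey with h1 | h1
    · exact hea h1
    · have := ua e h1 heN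
      exact hbD (this ▸ he)
  have hin : ∀ y ∈ D G F h, ∃ w ∈ D G F h, y ∈ G.nb w := by
    intro y hy
    rcases hcov y hy with h1 | ⟨a, ha, b, hb, h1, h2⟩
    · exact h1
    · exact absurd h2 (noLL y hy a ha b hb h1)
  obtain ⟨y, hy⟩ : (D G F h).Nonempty := card_pos.1 (by omega)
  obtain ⟨a, ha, hya⟩ := hin y hy
  have hay : a ≠ y := ne_of_nb5 hya
  obtain ⟨e, he, hea, hey, hall⟩ := third a y ha hy hay
  obtain ⟨w, hw, hew⟩ := hin e he
  have heN := (mem_D.1 he).1
  rcases hall w hw with rfl | rfl | rfl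
  · exact hey (huniq w ha e y hew heN hya (mem_D.1 hy).1)
  · exact hea (huniq w hy e a hew heN (G.sym _ _ hya) (mem_D.1 ha).1)
  · exact G.irr _ hew

open Classical in
/-- the types which occur at a hub with weight three -/
noncomputable def ty1 (G : CG V) (F : Finset V) (w : V) : ℕ :=
  if G.d w F = 3 ∧ tt G F w = 1 then 1 else 0

open Classical in
noncomputable def ty2 (G : CG V) (F : Finset V) (w : V) : ℕ :=
  if G.d w F = 4 ∧ tt G F w = 1 then 1 else 0

/-- the weight of a hub -/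
theorem Hx.wt (c : Hx G F) {h : V} (hh : h ∈ F) : 180 ≤ ∑ w ∈ D G F h, om G F w ∧
    (∑ w ∈ D G F h, om G F w ≤ 180 → ∑ w ∈ D G F h, (ty1 G F w + ty2 G F w) = 1) := by
  classical
  have hk := c.k2 hh
  rcases Nat.lt_or_ge 2 (D G F h).card with h3 | h3
  · -- at least three
    have t4 := c.tau4 hh (by omega)
    have h1 : ∀ w ∈ D G F h, 30 * (1 + tt G F w) ≤ om G F w := by
      intro w hw
      obtain ⟨h4, h5, -⟩ := mem_D.1 hw
      obtain ⟨-, -, h6⟩ := c.val h4 h5
      rcases h6 with h | h | h | h | h | h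
      · rw [h.2.2.2]
      · rw [h.2.2.2]
        omega
      · rw [h.2.2.2.1]
        omega
      · rw [h.2.2.2]
        omega
      · rw [h.2.2.2.1]
        omega
      · rw [h.2.2.2]
        omega
    have h2 := sum_le_sum h1
    rw [← mul_sum, sum_add_distrib, sum_const, smul_eq_mul, mul_one] at h2
    constructor
    · omega
    · intro h4
      omega
  · obtain ⟨d, d', hne, hD⟩ := card_eq_two.1 (show (D G F h).card = 2 by omega)
    have f1 := c.full2 hh hne hD
    have f2 := c.full2 hh hne.symm (by rw [hD, pair_comm])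
    have t1 := c.tau hh
    have t2 := (c.deg hh).2.2
    have t3 := c.tauF hh
    have hdD : d ∈ D G F h := by rw [hD]; exact mem_insert_self _ _
    have hd'D : d' ∈ D G F h := by rw [hD]; exact mem_insert_of_mem (mem_singleton_self _)
    obtain ⟨hdN, hdl, -⟩ := mem_D.1 hdD
    obtain ⟨hd'N, hd'l, -⟩ := mem_D.1 hd'D
    obtain ⟨-, -, v1⟩ := c.val hdN hdl
    obtain ⟨-, -, v2⟩ := c.val hd'N hd'l
    rw [hD, sum_pair hne] at t1
    rw [hD, sum_pair hne, card_pair hne] at t3
    rw [hD, sum_pair hne, sum_pair hne]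
    unfold ty1 ty2
    have key : ∀ w, Full G F w → ((G.d w F = 2 ∧ tt G F w ≤ 3 ∧ Full G F w ∧ om G F w = 30 * (1 + tt G F w)) ∨
     (G.d w F = 3 ∧ tt G F w ≤ 2 ∧ Full G F w ∧ om G F w = 20 * (3 + tt G F w)) ∨
     (G.d w F = 3 ∧ tt G F w = 1 ∧ ¬ Full G F w ∧ om G F w = 60 ∧
       ∃ v q q', G.Low v ∧ G.pT F w = {v} ∧ G.Tw q q' ∧ G.pO F w = {q, q'} ∧ q ∈ G.nb v) ∨
     (G.d w F = 4 ∧ tt G F w ≤ 1 ∧ Full G F w ∧ om G F w = 15 * (5 + tt G F w)) ∨
     (G.d w F = 4 ∧ tt G F w = 1 ∧ ¬ Full G F w ∧ om G F w = 75 ∧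
       ∃ a b, G.HL a b w ∧ a ∈ G.N F ∧ b ∈ G.N F ∧ G.pT F w = {a} ∧ G.Hub a) ∨
     (G.d w F = 5 ∧ tt G F w = 0 ∧ Full G F w ∧ om G F w = 84)) →
     ((G.d w F = 2 ∧ tt G F w ≤ 3 ∧ om G F w = 30 * (1 + tt G F w)) ∨
     (G.d w F = 3 ∧ tt G F w ≤ 2 ∧ om G F w = 20 * (3 + tt G F w)) ∨
     (G.d w F = 4 ∧ tt G F w ≤ 1 ∧ om G F w = 15 * (5 + tt G F w)) ∨
     (G.d w F = 5 ∧ tt G F w = 0 ∧ om G F w = 84)) := by
      intro w hf hw
      rcases hw with h | h | h | h | h | h
      · exact Or.inl ⟨h.1, h.2.1, h.2.2.2⟩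
      · exact Or.inr (Or.inl ⟨h.1, h.2.1, h.2.2.2⟩)
      · exact absurd hf h.2.2.1
      · exact Or.inr (Or.inr (Or.inl ⟨h.1, h.2.1, h.2.2.2⟩))
      · exact absurd hf h.2.2.1
      · exact Or.inr (Or.inr (Or.inr ⟨h.1, h.2.1, h.2.2.2⟩))
    have w1 := key d f1 v1
    have w2 := key d' f2 v2
    rcases w1 with h | h | h | h <;> rcases w2 with h' | h' | h' | h' <;>
      (constructor
       · omega
       · intro h9
         split_ifs <;> omega)

end J7h30

open J7h30 in
theorem st7HHHHH_30 {G : CG V} (hBas : G.StLBas) (hB : G.StLB) (h7 : G.St7Bas) : G.St7HHHHH := by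
  classical
  intro F hL hH
  have c : Hx G F := ⟨hL, hH, hBas, hB, h7⟩
  set L := (G.N F).filter fun w => G.Low w with hLd
  have memL : ∀ w, w ∈ L ↔ w ∈ G.N F ∧ G.Low w := fun w => by rw [hLd, mem_filter]
  -- the sum over the low vertices
  have s1 : ((∑ w ∈ L, 2 * vl G F w : ℕ) : ℤ) ≤ ∑ w ∈ G.N F, G.gam5 F w := by
    push_cast
    calc ∑ w ∈ L, 2 * (vl G F w : ℤ) ≤ ∑ w ∈ L, G.gam5 F w := by
          refine sum_le_sum fun w hw => ?_
          have := (c.val ((memL w).1 hw).1 ((memL w).1 hw).2).1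
          push_cast at this
          exact this
      _ ≤ ∑ w ∈ G.N F, G.gam5 F w :=
          sum_le_sum_of_subset_of_nonneg (filter_subset _ _) fun w hw _ => h7.nn F hL w hw
  by_contra hcon
  rw [not_le] at hcon
  have s2 : ∑ w ∈ L, vl G F w ≤ 15 := by
    rw [← mul_sum] at s1
    have : ((2 * ∑ w ∈ L, vl G F w : ℕ) : ℤ) < 32 := lt_of_le_of_lt s1 hcon
    have h2 : 2 * ∑ w ∈ L, vl G F w < 32 := by exact_mod_cast this
    omega
  have swap : ∀ g : V → ℕ, ∑ h ∈ F, ∑ w ∈ D G F h, g w = ∑ w ∈ L, g w * G.d w F := by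
    intro g
    have h1 : ∀ h, ∑ w ∈ D G F h, g w = ∑ w ∈ L, if h ∈ G.nb w then g w else 0 := by
      intro h
      rw [← sum_filter]
      congr 1
      ext w
      rw [mem_D, mem_filter, memL]
      tauto
    rw [sum_congr rfl fun h _ => h1 h, sum_comm]
    refine sum_congr rfl fun w _ => ?_
    rw [← sum_filter, sum_const, smul_eq_mul, mul_comm]
    congr 1
    unfold CG.d
    congr 1
    ext x
    rw [mem_filter, mem_inter]
    tauto
  have s3 : ∑ h ∈ F, ∑ w ∈ D G F h, om G F w ≤ 900 := by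
    rw [swap]
    calc ∑ w ∈ L, om G F w * G.d w F = ∑ w ∈ L, 60 * vl G F w :=
          sum_congr rfl fun w hw => (c.val ((memL w).1 hw).1 ((memL w).1 hw).2).2.1
      _ = 60 * ∑ w ∈ L, vl G F w := by rw [mul_sum]
      _ ≤ 900 := by omega
  have s4 : ∀ h ∈ F, ∑ w ∈ D G F h, om G F w ≤ 180 := by
    intro h hh
    by_contra h1
    have h2 : ∑ h ∈ F, 180 < ∑ h ∈ F, ∑ w ∈ D G F h, om G F w :=
      sum_lt_sum (fun x hx => (c.wt hx).1) ⟨h, hh, by omega⟩
    rw [sum_const, hL.2, smul_eq_mul] at h2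
    omega
  have s5 : ∑ h ∈ F, ∑ w ∈ D G F h, (ty1 G F w + ty2 G F w) = 5 := by
    rw [sum_congr rfl fun h hh => (c.wt hh).2 (s4 h hh), sum_const, hL.2]
    rfl
  rw [swap] at s5
  have s6 : ∑ w ∈ L, (ty1 G F w + ty2 G F w) * G.d w F
      = 3 * ∑ w ∈ L, ty1 G F w + 4 * ∑ w ∈ L, ty2 G F w := by
    rw [mul_sum, mul_sum, ← sum_add_distrib]
    refine sum_congr rfl fun w _ => ?_
    unfold ty1 ty2
    split_ifs <;> omega
  omega

end CG

end Pool.Agent.Lib.MP_e95c01_co.N
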