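import Pool.Agent.Lib.MP_e95c01_co.X.StmtsJ76
import Pool.Agent.Lib.MP_e95c01_co.X.H5_28

/-!
# J8: leaves with three hubs and a pair of twins
-/

namespace Pool.Agent.Lib.MP_e95c01_co.N

open Finset

variable {V : Type} [Fintype V] [DecidableEq V]

namespace CG

variable {G : CG V} {F : Finset V} {v w : V}

open H5c (D mem_D sg Xv wt_low swapD)

/-- the context of J8 -/
structure J8c (G : CG V) (F : Finset V) (v w : V) : Prop where
  bas : G.StLBas
  b : G.StLB
  cnt : G.StLCnt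
  b7 : G.St7Bas
  L : G.L5 F
  hv : v ∈ F
  hw : w ∈ F
  tw : G.Tw v w
  hub : ∀ z ∈ F, z ≠ v → z ≠ w → G.Hub z

namespace J8c

theorem f (K : J8c G F v w) : G.Lf F := K.L.1

theorem c (K : J8c G F v w) : F.card = 5 := K.L.2

theorem n9 (K : J8c G F v w) : 9 ≤ Fintype.card V := le_trans (by norm_num) K.f.n12

theorem c6 (K : J8c G F v w) : (G.N F).card = 6 := K.f.big.1.2.1

theorem symT (G : CG V) {a b : V} (h : G.Tw a b) : G.Tw b a := (stTwHL_5 G).symm _ _ h

theorem twv (K : J8c G F v w) : G.IsTw v := ⟨w, K.tw⟩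

theorem nlow (K : J8c G F v w) {z : V} (hz : z ∈ F) : ¬ G.Low z := by
  by_cases h1 : z = v
  · rw [h1]
    exact tw_not_low11 K.twv
  · by_cases h2 : z = w
    · rw [h2]
      exact tw_not_low11 ⟨v, symT G K.tw⟩
    · exact (K.hub z hz h1 h2).1

theorem twF (K : J8c G F v w) {z : V} (hz : z ∈ F) (h : G.IsTw z) : z = v ∨ z = w := by
  by_contra hcon
  rw [not_or] at hcon
  exact (K.hub z hz hcon.1 hcon.2).2 h

/-- neighbours of the pair -/
theorem vw (K : J8c G F v w) {x : V} (h1 : x ≠ v) (h2 : x ≠ w) : x ∈ G.nb v ↔ x ∈ G.nb w :=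
  ⟨fun h => Tw_nb5 K.tw h h2, fun h => Tw_nb5 (symT G K.tw) h h1⟩

theorem TF {x z : V} (hx : x ∈ G.N F) (hz : z ∈ F) : x ≠ z := by
  rintro rfl
  exact (mem_N76.1 hx).1 hz

/-- covers, seen from `z` -/
theorem cov (K : J8c G F v w) {z y : V} (hz : z ∈ F) (hy : y ∈ F ∪ G.N F) (hzy : y ∈ G.nb z) :
    (∃ x ∈ G.Tz F z, G.Low x ∧ y ∈ G.nb x) ∨
    (∃ a ∈ G.Tz F z, ∃ b ∈ G.Tz F z, G.Tw a b ∧ y ∈ G.nb a ∧ y ∈ G.nb b) ∨
    (z ∈ G.nb v ∧ z ∈ G.nb w ∧ y ∈ G.nb v) ∨
    (∃ a ∈ G.Tz F z, ∃ b ∈ G.Tz F z, G.HL a b y) ∨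
    (∃ a ∈ G.Tz F z, ∃ b ∈ G.N F \ G.Tz F z, G.LL a b z y) := by
  rcases K.f.cov z hz y hy hzy with h | h | h | h | h
  · obtain ⟨x, hx, h1, h2, h4⟩ := h
    rcases mem_union.1 hx with h5 | h5
    · exact absurd h1 (K.nlow h5)
    · exact Or.inl ⟨x, mem_Tz28.2 ⟨G.sym _ _ h2, h5⟩, h1, h4⟩
  · obtain ⟨a, ha, b, hb, h1, h2, h4, h5, h6⟩ := h
    rcases mem_union.1 ha with h7 | h7
    · right; right; left
      rcases K.twF h7 ⟨b, h1⟩ with h8 | h8
      · subst h8
        have h9 := (stTwHL_5 G).uniq K.n9 _ _ _ h1 K.tw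
        subst h9
        exact ⟨h2, h4, h5⟩
      · subst h8
        have h9 := (stTwHL_5 G).uniq K.n9 _ _ _ h1 (symT G K.tw)
        subst h9
        exact ⟨h4, h2, h6⟩
    · right; left
      have h8 : b ∈ G.N F := (K.bas.twT F K.f a b h1).1 h7
      exact ⟨a, mem_Tz28.2 ⟨G.sym _ _ h2, h7⟩, b, mem_Tz28.2 ⟨G.sym _ _ h4, h8⟩, h1, h5, h6⟩
  · obtain ⟨a, b, h1, h2, h4, h5⟩ := h
    rcases h5 with h5 | h5
    · exact absurd h1.2.1 (K.nlow h5.2)
    · exact Or.inr (Or.inr (Or.inr (Or.inl ⟨a, mem_Tz28.2 ⟨G.sym _ _ h4, h5.1⟩, b,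
        mem_Tz28.2 ⟨G.sym _ _ h2, h5.2⟩, h1⟩)))
  · obtain ⟨a, b, h1, -⟩ := h
    exact absurd (K.f.sat _ _ _ h1) (K.nlow hz)
  · obtain ⟨a, b, h1, h2⟩ := h
    rcases h2 with h2 | h2
    · exact absurd h1.1 (K.nlow h2.1)
    · refine Or.inr (Or.inr (Or.inr (Or.inr ⟨a, mem_Tz28.2 ⟨G.sym _ _ (LL_t76 h1), h2.1⟩, b,
        mem_sdiff.2 ⟨h2.2, fun h4 => ?_⟩, h1⟩)))
      exact (LL_tb76 h1).1 (G.sym _ _ (mem_Tz28.1 h4).1)

/-- covers at the pair -/
theorem covQ (K : J8c G F v w) {y : V} (hy : y ∈ F ∪ G.N F) (hvy : y ∈ G.nb v) :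
    (∃ x ∈ G.Tz F v, G.Low x ∧ y ∈ G.nb x) ∨
    (∃ a ∈ G.Tz F v, ∃ b ∈ G.Tz F v, G.Tw a b ∧ y ∈ G.nb a ∧ y ∈ G.nb b) ∨
    (∃ a ∈ G.Tz F v, ∃ b ∈ G.Tz F v, G.HL a b y) := by
  rcases K.cov K.hv hy hvy with h | h | h | h | h
  · exact Or.inl h
  · exact Or.inr (Or.inl h)
  · exact absurd h.1 (G.irr _)
  · exact Or.inr (Or.inr h)
  · obtain ⟨a, -, b, -, h1⟩ := h
    exact absurd K.twv ((stTwHL_5 G).twLL _ _ _ _ h1).1

/-! ### values -/

/-- `f` and `t` of a low vertex of `N F` -/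
theorem fr (K : J8c G F v w) {x : V} (hx : x ∈ G.N F) (hl : G.Low x) :
    2 ≤ G.d x F ∧ G.d x F ≤ 5 ∧ (G.pT F x).card + G.d x F ≤ 5 := by
  have h1 := K.bas.pos F K.f x hx
  have h2 : G.d x F ≤ 5 := by
    rw [← K.c]
    exact card_le_card inter_subset_right
  refine ⟨h1, h2, ?_⟩
  have h3 : G.d x F = 2 ∨ G.d x F = 3 ∨ G.d x F = 4 ∨ G.d x F = 5 := by omega
  rcases h3 with h3 | h3 | h3 | h3
  · have := (K.b.low2 F K.f x hx hl h3).1
    omega
  · have := (K.b.low3 F K.f x hx hl h3).1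
    omega
  · have := (K.b.low4 F K.f x hx hl h3).1
    omega
  · have := (K.b.low5 F K.f x hx hl (by omega)).2.1
    rw [this, card_empty]
    omega

theorem sgv (K : J8c G F v w) {x : V} (hx : x ∈ G.N F) (hl : G.Low x) :
    sg G F x = 0 ∨ (sg G F x = 1 ∧ (G.pT F x).card = 1 ∧
      ((G.d x F = 4 ∧ ∃ a, G.pT F x = {a} ∧ G.Hub a) ∨
      (G.d x F = 3 ∧ ∃ y q q', G.Low y ∧ G.pT F x = {y} ∧ G.Tw q q' ∧ G.pO F x = {q, q'} ∧
        q ∈ G.nb y))) := by
  unfold sg
  split_ifs with h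
  · exact Or.inl rfl
  · right
    refine ⟨rfl, ?_⟩
    have h1 := K.fr hx hl
    have h3 : G.d x F = 2 ∨ G.d x F = 3 ∨ G.d x F = 4 ∨ G.d x F = 5 := by omega
    rcases h3 with h3 | h3 | h3 | h3
    · exfalso
      apply h
      rcases (K.b.low2 F K.f x hx hl h3).2.1 with h4 | h4
      · rw [h3]
        push_cast
        linarith
      · exfalso
        obtain ⟨-, ⟨a, b, h5, h6⟩, -, h7⟩ := h4
        have h8 : a ∈ G.pT F x := by rw [h6]; simp
        have h9 := h7 a h8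
        have h10 := (K.b7.tw3 F K.L a (mem_inter.1 h8).2 ⟨b, h5⟩).1
        omega
    · rcases (K.b.low3 F K.f x hx hl h3).2.2.1 with h4 | h4
      · exfalso
        apply h
        rw [h3]
        push_cast
        linarith
      · obtain ⟨y, q, q', e1, e2, e3, e4, e5, -⟩ := h4
        exact ⟨by rw [e2, card_singleton], Or.inr ⟨h3, y, q, q', e1, e2, e3, e4, e5⟩⟩
    · rcases (K.b.low4 F K.f x hx hl h3).2.2 with h4 | h4
      · exfalso
        apply h
        rw [h3]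
        push_cast
        linarith
      · obtain ⟨a, b, e1, e2, e3, e4, e5⟩ := h4
        exact ⟨by rw [e4, card_singleton], Or.inl ⟨h3, a, e4, e5⟩⟩
    · exfalso
      apply h
      have h4 := (K.b.low5 F K.f x hx hl (by omega)).2
      rw [h3, h4.1, h4.2]
      norm_num

theorem sg0 (K : J8c G F v w) {x : V} (hx : x ∈ G.N F) (hl : G.Low x)
    (h : (G.pT F x).card ≠ 1) : sg G F x = 0 := by
  rcases K.sgv hx hl with h1 | h1
  · exact h1
  · exact absurd h1.2.1 h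

theorem sg1 (K : J8c G F v w) {x : V} (hx : x ∈ G.N F) (hl : G.Low x) :
    0 ≤ sg G F x ∧ sg G F x ≤ 1 := by
  rcases K.sgv hx hl with h1 | h1
  · rw [h1]
    norm_num
  · rw [h1.1]
    norm_num

theorem Xg (K : J8c G F v w) {x : V} (hx : x ∈ G.N F) (hl : G.Low x) :
    2 * Xv G F x ≤ G.gam5 F x := by
  by_cases h : 4 * (G.d x F : ℤ) - 6 + 2 * ((G.pT F x).card : ℤ) ≤ G.gam5 F x
  · have h1 : sg G F x = 0 := by
      unfold sg
      rw [if_pos h]
    unfold Xv
    rw [h1]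
    linarith
  · have h1 : sg G F x = 1 := by
      unfold sg
      rw [if_neg h]
    rcases K.sgv hx hl with h2 | ⟨-, h2, h3⟩
    · omega
    · unfold Xv
      rw [h1, h2]
      rcases h3 with h3 | h3
      · have h4 := (K.b.low4 F K.f x hx hl h3.1).2.1
        rw [h3.1]
        push_cast
        linarith
      · have h4 := (K.b.low3 F K.f x hx hl h3.1).2.1
        rw [h3.1]
        push_cast
        linarith

/-- the excess -/
noncomputable def ee (G : CG V) (F : Finset V) (x : V) : ℤ :=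
  2 * ((G.d x F : ℤ) - 2) - sg G F x

theorem ee0 (K : J8c G F v w) {x : V} (hx : x ∈ G.N F) (hl : G.Low x) : 0 ≤ ee G F x := by
  have h1 := K.fr hx hl
  have h2 : (2 : ℤ) ≤ (G.d x F : ℤ) := by exact_mod_cast h1.1
  unfold ee
  rcases K.sgv hx hl with h3 | ⟨h3, -, h4⟩
  · rw [h3]
    linarith
  · rw [h3]
    rcases h4 with h4 | h4
    · rw [h4.1]
      norm_num
    · rw [h4.1]
      norm_num

/-- the lows of `N F` -/
def Lw (G : CG V) (F : Finset V) : Finset V := (G.N F).filter fun x => G.Low x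

theorem mem_Lw {x : V} : x ∈ Lw G F ↔ x ∈ G.N F ∧ G.Low x := by
  rw [Lw, mem_filter]

/-- low neighbours, minus 1 for vertices that are not low -/
def mu (G : CG V) (F : Finset V) (x : V) : ℤ :=
  ((G.nb x ∩ Lw G F).card : ℤ) - (if G.Low x then 0 else 1)

/-- (F6) -/
theorem F6 (K : J8c G F v w) :
    ∑ x ∈ Lw G F, Xv G F x = 6 + ∑ x ∈ G.N F, mu G F x + ∑ x ∈ Lw G F, ee G F x := by
  classical
  have h1 : ∑ x ∈ Lw G F, Xv G F x =
      ∑ x ∈ Lw G F, 1 + ∑ x ∈ Lw G F, ((G.pT F x).card : ℤ) + ∑ x ∈ Lw G F, ee G F x := by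
    rw [← sum_add_distrib, ← sum_add_distrib]
    refine sum_congr rfl fun x _ => ?_
    unfold Xv ee
    ring
  have h2 : ∑ x ∈ Lw G F, ((G.pT F x).card : ℤ) =
      ∑ x ∈ G.N F, ((G.nb x ∩ Lw G F).card : ℤ) := by
    have e1 : ∀ A : Finset V, ∀ x, ((G.nb x ∩ A).card : ℤ) =
        ∑ y ∈ A, (if y ∈ G.nb x then (1 : ℤ) else 0) := by
      intro A x
      rw [inter_comm, ← filter_mem_eq_inter, card_filter]
      push_cast
      rfl
    have e2 : ∀ x ∈ Lw G F, ((G.pT F x).card : ℤ) =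
        ∑ y ∈ G.N F, (if y ∈ G.nb x then (1 : ℤ) else 0) := fun x _ => e1 (G.N F) x
    rw [sum_congr rfl e2, sum_comm]
    refine sum_congr rfl fun y _ => ?_
    rw [e1 (Lw G F) y]
    refine sum_congr rfl fun x _ => ?_
    by_cases h : y ∈ G.nb x
    · rw [if_pos h, if_pos (G.sym _ _ h)]
    · rw [if_neg h, if_neg (fun h3 => h (G.sym _ _ h3))]
  have h3 : ∑ x ∈ G.N F, mu G F x = ∑ x ∈ G.N F, ((G.nb x ∩ Lw G F).card : ℤ) -
      (6 - ∑ x ∈ Lw G F, 1) := by
    unfold mu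
    rw [sum_sub_distrib]
    congr 1
    have h4 : ∑ x ∈ G.N F, (if G.Low x then (0 : ℤ) else 1) =
        ∑ x ∈ G.N F, 1 - ∑ x ∈ G.N F, (if G.Low x then (1 : ℤ) else 0) := by
      rw [← sum_sub_distrib]
      refine sum_congr rfl fun x _ => ?_
      split_ifs <;> norm_num
    rw [h4, Lw, sum_filter, sum_const, K.c6]
    norm_num
  rw [h1, h2, h3]
  ring

/-- the sum of the values without twins in `N F` -/
theorem sumX (K : J8c G F v w) (hno : ∀ x ∈ G.N F, ¬ G.IsTw x) :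
    2 * ∑ x ∈ Lw G F, Xv G F x ≤ ∑ x ∈ G.N F, G.gam5 F x := by
  classical
  rw [mul_sum, Lw, sum_filter]
  refine sum_le_sum fun x hx => ?_
  by_cases h : G.Low x
  · rw [if_pos h]
    exact K.Xg hx h
  · rw [if_neg h, K.b.hub F K.f x hx ⟨h, hno x hx⟩]

/-- every vertex of `N F` that is not low has a low neighbour in `N F` -/
theorem mu0 (K : J8c G F v w) (hno : ∀ x ∈ G.N F, ¬ G.IsTw x) {x : V} (hx : x ∈ G.N F) :
    0 ≤ mu G F x := by
  unfold mu
  by_cases hl : G.Low x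
  · rw [if_pos hl]
    simp
  · rw [if_neg hl]
    have key : ∃ y ∈ Lw G F, y ∈ G.nb x := by
      by_cases hv : x ∈ G.nb v
      · rcases K.covQ (mem_union_right _ hx) hv with h | h | h
        · obtain ⟨y, hy, h1, h2⟩ := h
          exact ⟨y, mem_Lw.2 ⟨(mem_Tz28.1 hy).2, h1⟩, G.sym _ _ h2⟩
        · obtain ⟨a, ha, b, -, h1, -⟩ := h
          exact absurd ⟨b, h1⟩ (hno a (mem_Tz28.1 ha).2)
        · obtain ⟨a, -, b, -, h1⟩ := h
          exact absurd (K.f.sat _ _ _ h1) hl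
      · have h1 := K.bas.pos F K.f x hx
        have h2 : (G.nb x ∩ F).Nonempty := by
          rw [← card_pos]
          exact lt_of_lt_of_le (by norm_num) h1
        obtain ⟨h, hh⟩ := h2
        rw [mem_inter] at hh
        rcases K.cov hh.2 (mem_union_right _ hx) (G.sym _ _ hh.1) with h | h | h | h | h
        · obtain ⟨y, hy, h1, h2⟩ := h
          exact ⟨y, mem_Lw.2 ⟨(mem_Tz28.1 hy).2, h1⟩, G.sym _ _ h2⟩
        · obtain ⟨a, ha, b, -, h1, -⟩ := h
          exact absurd ⟨b, h1⟩ (hno a (mem_Tz28.1 ha).2)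
        · exact absurd h.2.2 hv
        · obtain ⟨a, -, b, -, h1⟩ := h
          exact absurd (K.f.sat _ _ _ h1) hl
        · obtain ⟨a, -, b, hb, h1⟩ := h
          exact ⟨b, mem_Lw.2 ⟨(mem_sdiff.1 hb).1, h1.2.1⟩, G.sym _ _ (LL_u76 h1)⟩
    obtain ⟨y, hy, hyx⟩ := key
    have h1 : 1 ≤ (G.nb x ∩ Lw G F).card := card_pos.2 ⟨y, mem_inter.2 ⟨hyx, hy⟩⟩
    have h2 : (1 : ℤ) ≤ ((G.nb x ∩ Lw G F).card : ℤ) := by exact_mod_cast h1
    linarith

/-- (F6) for parts of `N F` -/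
theorem low6 (K : J8c G F v w) (hno : ∀ x ∈ G.N F, ¬ G.IsTw x) {S M : Finset V}
    (hS : S ⊆ G.N F) (hM : M ⊆ Lw G F) :
    2 * (6 + ∑ x ∈ S, mu G F x + ∑ x ∈ M, ee G F x) ≤ ∑ x ∈ G.N F, G.gam5 F x := by
  have h1 := K.F6
  have h2 := K.sumX hno
  have h3 := sum_le_sum_of_subset_of_nonneg (f := fun x => mu G F x) hS
    (fun x hx _ => K.mu0 hno hx)
  have h4 := sum_le_sum_of_subset_of_nonneg (f := fun x => ee G F x) hM
    (fun x hx _ => K.ee0 (mem_Lw.1 hx).1 (mem_Lw.1 hx).2)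
  linarith

/-! ### twins in `N F` -/

theorem noPP (K : J8c G F v w) {p p' a b : V} (hp : p ∈ G.N F) (hpp : G.Tw p p')
    (ha : a ∈ G.N F) (hb : b ∈ G.N F) (hab : G.Tw a b) (pa : p ∈ G.nb a) (pb : p ∈ G.nb b) :
    False := by
  have hp' : p' ∈ G.N F := (K.bas.twT F K.f p p' hpp).1 hp
  obtain ⟨-, -, -, t4, -⟩ := K.b.tw F K.f p hp ⟨p', hpp⟩
  have t1 := (K.b7.tw3 F K.L p hp ⟨p', hpp⟩).1
  have h1 : a ≠ p' := by
    rintro rfl
    have h2 := (stTwHL_5 G).uniq K.n9 _ _ _ hab (symT G hpp)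
    subst h2
    exact G.irr _ pb
  have h2 : b ≠ p' := by
    rintro rfl
    have h3 := (stTwHL_5 G).uniq K.n9 _ _ _ (symT G hab) (symT G hpp)
    subst h3
    exact G.irr _ pa
  have h3 : ({p', a, b} : Finset V) ⊆ G.pT F p := by
    intro x hx
    simp only [mem_insert, mem_singleton] at hx
    rcases hx with rfl | rfl | rfl
    · exact mem_inter.2 ⟨hpp.1, hp'⟩
    · exact mem_inter.2 ⟨G.sym _ _ pa, ha⟩
    · exact mem_inter.2 ⟨G.sym _ _ pb, hb⟩
  have h4 := card_le_card h3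
  rw [card_insert_of_notMem (by simp [h1.symm, h2.symm]), card_pair (ne_of_nb5 hab.1)] at h4
  omega

/-- covers of a twin vertex of `N F` -/
theorem covP (K : J8c G F v w) {z p : V} (hz : z ∈ F) (hp : p ∈ G.N F) (htw : G.IsTw p)
    (hzp : p ∈ G.nb z) :
    (∃ x ∈ G.Tz F z, G.Low x ∧ p ∈ G.nb x) ∨ (z ∈ G.nb v ∧ p ∈ G.nb v) := by
  obtain ⟨p', hpp⟩ := htw
  rcases K.cov hz (mem_union_right _ hp) hzp with h | h | h | h | h
  · exact Or.inl h
  · obtain ⟨a, ha, b, hb, h1, h2, h3⟩ := h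
    exact (K.noPP hp hpp (mem_Tz28.1 ha).2 (mem_Tz28.1 hb).2 h1 h2 h3).elim
  · exact Or.inr ⟨h.1, h.2.2⟩
  · obtain ⟨a, -, b, -, h1⟩ := h
    exact absurd (K.f.sat _ _ _ h1) (tw_not_low11 ⟨p', hpp⟩)
  · obtain ⟨a, -, b, -, h1⟩ := h
    exact absurd ⟨p', hpp⟩ ((stTwHL_5 G).twLL _ _ _ _ h1).2

/-- a twin vertex of `N F` with a low neighbour -/
theorem twd (K : J8c G F v w) {p p' d : V} (hp : p ∈ G.N F) (hpp : G.Tw p p') (hd : d ∈ G.N F)
    (hl : G.Low d) (hdp : p ∈ G.nb d) :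
    G.d p F = 3 ∧ G.pT F p = {p', d} ∧ p' ∈ G.N F ∧ p' ∈ G.nb d ∧ G.d d F ≤ 3 ∧
      p' ≠ d ∧ ({p, p'} : Finset V) ⊆ G.pT F d := by
  have hp' : p' ∈ G.N F := (K.bas.twT F K.f p p' hpp).1 hp
  obtain ⟨-, -, -, t4, -⟩ := K.b.tw F K.f p hp ⟨p', hpp⟩
  have t1 := (K.b7.tw3 F K.L p hp ⟨p', hpp⟩).1
  have hne : p' ≠ d := by
    rintro rfl
    exact tw_not_low11 ⟨p, symT G hpp⟩ hl
  have hp'd : p' ∈ G.nb d := G.sym _ _ (Tw_nb5 hpp (G.sym _ _ hdp) hne.symm)
  have h3 : ({p', d} : Finset V) ⊆ G.pT F p := by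
    intro x hx
    simp only [mem_insert, mem_singleton] at hx
    rcases hx with rfl | rfl
    · exact mem_inter.2 ⟨hpp.1, hp'⟩
    · exact mem_inter.2 ⟨G.sym _ _ hdp, hd⟩
  have h4 := card_le_card h3
  rw [card_pair hne] at h4
  have h5 : ({p, p'} : Finset V) ⊆ G.pT F d := by
    intro x hx
    simp only [mem_insert, mem_singleton] at hx
    rcases hx with rfl | rfl
    · exact mem_inter.2 ⟨hdp, hp⟩
    · exact mem_inter.2 ⟨hp'd, hp'⟩
  have h6 := card_le_card h5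
  rw [card_pair (ne_of_nb5 hpp.1)] at h6
  have h7 := (K.fr hd hl).2.2
  refine ⟨by omega, ?_, hp', hp'd, by omega, hne, h5⟩
  symm
  apply eq_of_subset_of_card_le h3
  rw [card_pair hne]
  omega

theorem deg7 (K : J8c G F v w) {z : V} (hz : z ∈ F) : 7 ≤ G.d z F + (G.Tz F z).card := by
  rw [← K.bas.deg F K.f z hz]
  have h1 := G.deg z
  have h2 : (G.nb z).card ≠ 6 := K.nlow hz
  omega

theorem degv (K : J8c G F v w) : G.d v F + (G.Tz F v).card = 7 := by
  rw [← K.bas.deg F K.f v K.hv]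
  exact K.tw.2.1

/-- neighbours of a vertex of `F` in `F` -/
theorem dle (K : J8c G F v w) {z : V} (hz : z ∈ F) : G.d z F ≤ 4 := by
  have h1 : G.nb z ∩ F ⊆ F.erase z := by
    intro x hx
    rw [mem_inter] at hx
    refine mem_erase.2 ⟨?_, hx.2⟩
    rintro rfl
    exact G.irr _ hx.1
  have h2 := card_le_card h1
  rw [card_erase_of_mem hz, K.c] at h2
  exact h2

theorem dall (K : J8c G F v w) {z : V} (hz : z ∈ F) (h4 : 4 ≤ G.d z F) :
    ∀ y ∈ F, y ≠ z → y ∈ G.nb z := by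
  have h1 : G.nb z ∩ F ⊆ F.erase z := by
    intro x hx
    rw [mem_inter] at hx
    refine mem_erase.2 ⟨?_, hx.2⟩
    rintro rfl
    exact G.irr _ hx.1
  have h2 : G.nb z ∩ F = F.erase z := by
    apply eq_of_subset_of_card_le h1
    rw [card_erase_of_mem hz, K.c]
    exact h4
  intro y hy hyz
  have h3 : y ∈ G.nb z ∩ F := by
    rw [h2]
    exact mem_erase.2 ⟨hyz, hy⟩
  exact (mem_inter.1 h3).1

/-- no twins adjacent to the pair -/
theorem noY (K : J8c G F v w) {p : V} (hpY : p ∈ G.Tz F v) : ¬ G.IsTw p := by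
  rintro ⟨p', hpp⟩
  have hpv := (mem_Tz28.1 hpY).1
  have hp := (mem_Tz28.1 hpY).2
  have hvw : v ≠ w := ne_of_nb5 K.tw.1
  have hpw : p ∈ G.nb w := (K.vw (TF hp K.hv) (TF hp K.hw)).1 hpv
  rcases K.covP K.hv hp ⟨p', hpp⟩ hpv with h | h
  swap
  · exact G.irr _ h.1
  obtain ⟨d, hdY, hl, hdp⟩ := h
  have hd := (mem_Tz28.1 hdY).2
  have hdv := (mem_Tz28.1 hdY).1
  have hdw : d ∈ G.nb w := (K.vw (TF hd K.hv) (TF hd K.hw)).1 hdv
  obtain ⟨dp3, hpT, hp', hp'd, hdd, hne, hsub⟩ := K.twd hp hpp hd hl hdp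
  -- the third neighbour of `p`
  have e1 : (((G.nb p ∩ F).erase v).erase w).card = 1 := by
    have h1 : (G.nb p ∩ F).card = 3 := dp3
    rw [card_erase_of_mem (mem_erase.2 ⟨hvw.symm, mem_inter.2 ⟨G.sym _ _ hpw, K.hw⟩⟩),
      card_erase_of_mem (mem_inter.2 ⟨G.sym _ _ hpv, K.hv⟩), h1]
  obtain ⟨hi, hhi⟩ := card_eq_one.1 e1
  have hi1 : hi ∈ ((G.nb p ∩ F).erase v).erase w := by rw [hhi]; simp
  rw [mem_erase, mem_erase, mem_inter] at hi1
  obtain ⟨hiw, hiv, hip, hiF⟩ := hi1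
  have hpF : ∀ z ∈ F, z ∈ G.nb p → z = v ∨ z = w ∨ z = hi := by
    intro z hz hzp
    by_cases h1 : z = v
    · exact Or.inl h1
    · by_cases h2 : z = w
      · exact Or.inr (Or.inl h2)
      · right; right
        have h3 : z ∈ ((G.nb p ∩ F).erase v).erase w :=
          mem_erase.2 ⟨h2, mem_erase.2 ⟨h1, mem_inter.2 ⟨hzp, hz⟩⟩⟩
        rw [hhi, mem_singleton] at h3
        exact h3
  have hp'F : ∀ z ∈ F, z ∈ G.nb p' → z = v ∨ z = w ∨ z = hi := fun z hz hzp =>
    hpF z hz (Tw_nb5 (symT G hpp) hzp (TF hp hz).symm)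
  -- the neighbour of `d`
  obtain ⟨hj, hjF, hjd, hjv, hjw, hji⟩ : ∃ hj ∈ F, hj ∈ G.nb d ∧ hj ≠ v ∧ hj ≠ w ∧ hj ≠ hi := by
    by_contra hcon
    have hall : ∀ z ∈ F, z ∈ G.nb d → z = v ∨ z = w ∨ z = hi := by
      intro z hz hzd
      by_contra h1
      rw [not_or, not_or] at h1
      exact hcon ⟨z, hz, hzd, h1.1, h1.2.1, h1.2.2⟩
    have hZc : ({p, p', d} : Finset V).card = 3 := by
      rw [card_insert_of_notMem (by simp [ne_of_nb5 hpp.1, (ne_of_nb5 hdp).symm]), card_pair hne]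
    have hZs : ({p, p', d} : Finset V) ⊆ G.N F := by
      intro x hx
      simp only [mem_insert, mem_singleton] at hx
      rcases hx with rfl | rfl | rfl
      · exact hp
      · exact hp'
      · exact hd
    have hNZ : G.N {p, p', d} ∩ F ⊆ {v, w, hi} := by
      intro z hz
      rw [mem_inter, mem_N76] at hz
      obtain ⟨⟨-, u, hu, hzu⟩, hzF⟩ := hz
      simp only [mem_insert, mem_singleton] at hu ⊢
      rcases hu with rfl | rfl | rfl
      · exact hpF z hzF hzu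
      · exact hp'F z hzF hzu
      · exact hall z hzF hzu
    have hle := card_le_card hNZ
    have hle3 : ({v, w, hi} : Finset V).card ≤ 3 := card_le_three
    have hge := K.b7.three' F K.L {p, p', d} hZs hZc
    obtain ⟨x, y, hxy, hFZ, hnh, -⟩ := K.b7.three F K.L {p, p', d} hZs hZc (by omega)
    have hin : ∀ x ∈ G.FZ F {p, p', d}, G.Hub x := by
      intro x hx
      have h1 := mem_sdiff.1 hx
      apply K.hub x h1.1
      · rintro rfl
        apply h1.2
        refine mem_N76.2 ⟨?_, p, by simp, G.sym _ _ hpv⟩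
        intro h2
        exact TF (hZs h2) h1.1 rfl
      · rintro rfl
        apply h1.2
        refine mem_N76.2 ⟨?_, p, by simp, G.sym _ _ hpw⟩
        intro h2
        exact TF (hZs h2) h1.1 rfl
    exact hnh ⟨hin x (by rw [hFZ]; simp), hin y (by rw [hFZ]; simp)⟩
  -- `N_F(d)`
  have hdF : G.nb d ∩ F = {v, w, hj} := by
    symm
    apply eq_of_subset_of_card_le
    · intro z hz
      simp only [mem_insert, mem_singleton] at hz
      rcases hz with rfl | rfl | rfl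
      · exact mem_inter.2 ⟨G.sym _ _ hdv, K.hv⟩
      · exact mem_inter.2 ⟨G.sym _ _ hdw, K.hw⟩
      · exact mem_inter.2 ⟨hjd, hjF⟩
    · have h1 : (G.nb d ∩ F).card ≤ 3 := hdd
      rw [card_insert_of_notMem (by simp [hvw, hjv.symm]), card_pair hjw.symm]
      exact h1
  have hd3 : G.d d F = 3 := by
    have h1 : G.d d F = (G.nb d ∩ F).card := rfl
    rw [h1, hdF, card_insert_of_notMem (by simp [hvw, hjv.symm]), card_pair hjw.symm]
  have hdT : G.pT F d = {p, p'} := by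
    symm
    apply eq_of_subset_of_card_le hsub
    have h1 := (K.fr hd hl).2.2
    rw [card_pair (ne_of_nb5 hpp.1)]
    omega
  have hpl : ¬ G.Low p := tw_not_low11 ⟨p', hpp⟩
  have hp'l : ¬ G.Low p' := tw_not_low11 ⟨p, symT G hpp⟩
  -- `hi ~ v`
  have ti : hi ∈ G.nb v := by
    rcases K.covP hiF hp ⟨p', hpp⟩ (G.sym _ _ hip) with h | h
    · exfalso
      obtain ⟨x, hx, hxl, hxp⟩ := h
      have h1 : x ∈ G.pT F p := mem_inter.2 ⟨G.sym _ _ hxp, (mem_Tz28.1 hx).2⟩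
      rw [hpT, mem_insert, mem_singleton] at h1
      rcases h1 with h1 | h1
      · rw [h1] at hxl
        exact hp'l hxl
      · rw [h1] at hx
        have h2 : hi ∈ G.nb d ∩ F := mem_inter.2 ⟨G.sym _ _ (mem_Tz28.1 hx).1, hiF⟩
        rw [hdF] at h2
        simp only [mem_insert, mem_singleton] at h2
        rcases h2 with h2 | h2 | h2
        · exact hiv h2
        · exact hiw h2
        · exact hji h2.symm
    · exact h.1
  -- `hj ~ v`
  have tj : hj ∈ G.nb v := by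
    rcases K.cov hjF (mem_union_right _ hd) (G.sym _ _ hjd) with h | h | h | h | h
    · exfalso
      obtain ⟨x, hx, hxl, hxd⟩ := h
      have h1 : x ∈ G.pT F d := mem_inter.2 ⟨G.sym _ _ hxd, (mem_Tz28.1 hx).2⟩
      rw [hdT, mem_insert, mem_singleton] at h1
      rcases h1 with h1 | h1
      · exact hpl (h1 ▸ hxl)
      · exact hp'l (h1 ▸ hxl)
    · exfalso
      obtain ⟨a, ha, b, hb, h1, h2, h3⟩ := h
      have h4 : a ∈ G.pT F d := mem_inter.2 ⟨G.sym _ _ h2, (mem_Tz28.1 ha).2⟩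
      have h5 : hj ∈ G.nb a := G.sym _ _ (mem_Tz28.1 ha).1
      rw [hdT, mem_insert, mem_singleton] at h4
      have h6 : hj = v ∨ hj = w ∨ hj = hi := by
        rcases h4 with h4 | h4
        · exact hpF hj hjF (h4 ▸ h5)
        · exact hp'F hj hjF (h4 ▸ h5)
      rcases h6 with h6 | h6 | h6
      · exact hjv h6
      · exact hjw h6
      · exact hji h6
    · exact h.1
    · exfalso
      obtain ⟨a, ha, b, hb, h1⟩ := h
      have h4 : a ∈ G.pT F d := mem_inter.2 ⟨G.sym _ _ (HL_t76 h1), (mem_Tz28.1 ha).2⟩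
      rw [hdT, mem_insert, mem_singleton] at h4
      rcases h4 with h4 | h4
      · rw [h4] at h1
        exact (stTwHL_5 G).notHL K.n9 _ _ _ h1 ⟨p', hpp⟩
      · rw [h4] at h1
        exact (stTwHL_5 G).notHL K.n9 _ _ _ h1 ⟨p, symT G hpp⟩
    · exfalso
      obtain ⟨a, ha, b, hb, h1⟩ := h
      have h4 : b ∈ G.pT F d := mem_inter.2 ⟨G.sym _ _ (LL_u76 h1), (mem_sdiff.1 hb).1⟩
      rw [hdT, mem_insert, mem_singleton] at h4
      rcases h4 with h4 | h4
      · rw [h4] at h1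
        exact hpl h1.2.1
      · rw [h4] at h1
        exact hp'l h1.2.1
  -- the third hub
  obtain ⟨hk, hkF, hk4⟩ : ∃ hk ∈ F, hk ∉ ({v, w, hi, hj} : Finset V) := by
    apply exists_mem_notMem_of_card_lt_card
    rw [K.c]
    exact lt_of_le_of_lt card_le_four (by norm_num)
  simp only [mem_insert, mem_singleton, not_or] at hk4
  obtain ⟨hkv, hkw, hki, hkj⟩ := hk4
  have kp : hk ∉ G.nb p := fun h => by
    rcases hpF hk hkF h with h1 | h1 | h1
    · exact hkv h1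
    · exact hkw h1
    · exact hki h1
  have kp' : hk ∉ G.nb p' := fun h => by
    rcases hp'F hk hkF h with h1 | h1 | h1
    · exact hkv h1
    · exact hkw h1
    · exact hki h1
  have kd : hk ∉ G.nb d := fun h => by
    have h2 : hk ∈ G.nb d ∩ F := mem_inter.2 ⟨h, hkF⟩
    rw [hdF] at h2
    simp only [mem_insert, mem_singleton] at h2
    rcases h2 with h2 | h2 | h2
    · exact hkv h2
    · exact hkw h2
    · exact hkj h2
  have hTk : G.Tz F hk ⊆ (((G.N F).erase p).erase p').erase d := by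
    intro x hx
    have hx' := mem_Tz28.1 hx
    refine mem_erase.2 ⟨?_, mem_erase.2 ⟨?_, mem_erase.2 ⟨?_, hx'.2⟩⟩⟩
    · rintro rfl
      exact kd (G.sym _ _ hx'.1)
    · rintro rfl
      exact kp' (G.sym _ _ hx'.1)
    · rintro rfl
      exact kp (G.sym _ _ hx'.1)
  have hcT := card_le_card hTk
  have hpp'ne : p ≠ p' := ne_of_nb5 hpp.1
  have hdpne : d ≠ p := ne_of_nb5 hdp
  rw [card_erase_of_mem (mem_erase.2 ⟨hne.symm, mem_erase.2 ⟨hdpne, hd⟩⟩),
    card_erase_of_mem (mem_erase.2 ⟨hpp'ne.symm, hp'⟩), card_erase_of_mem hp, K.c6] at hcT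
  have h7 := K.deg7 hkF
  have hkv' : v ∈ G.nb hk := K.dall hkF (by omega) v K.hv (Ne.symm hkv)
  -- `Tz F v`
  have hv4 : 4 ≤ G.d v F := by
    have h1 : ({w, hi, hj, hk} : Finset V) ⊆ G.nb v ∩ F := by
      intro z hz
      simp only [mem_insert, mem_singleton] at hz
      rcases hz with rfl | rfl | rfl | rfl
      · exact mem_inter.2 ⟨K.tw.1, K.hw⟩
      · exact mem_inter.2 ⟨ti, hiF⟩
      · exact mem_inter.2 ⟨tj, hjF⟩
      · exact mem_inter.2 ⟨G.sym _ _ hkv', hkF⟩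
    have h2 := card_le_card h1
    rw [card_insert_of_notMem (by simp [hiw.symm, hjw.symm, Ne.symm hkw]),
      card_insert_of_notMem (by simp [hji.symm, Ne.symm hki]), card_pair (Ne.symm hkj)] at h2
    exact h2
  have hdv7 := K.degv
  have hY : G.Tz F v = {p, p', d} := by
    symm
    apply eq_of_subset_of_card_le
    · intro x hx
      simp only [mem_insert, mem_singleton] at hx
      rcases hx with rfl | rfl | rfl
      · exact hpY
      · exact mem_Tz28.2 ⟨G.sym _ _ (Tw_nb5 hpp (G.sym _ _ hpv) (TF hp' K.hv).symm), hp'⟩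
      · exact hdY
    · rw [card_insert_of_notMem (by simp [hpp'ne, hdpne.symm]), card_pair hne]
      omega
  rcases K.covQ (mem_union_left _ hkF) (G.sym _ _ hkv') with h | h | h
  · obtain ⟨x, hx, hxl, hxk⟩ := h
    rw [hY] at hx
    simp only [mem_insert, mem_singleton] at hx
    rcases hx with hx | hx | hx
    · exact hpl (hx ▸ hxl)
    · exact hp'l (hx ▸ hxl)
    · exact kd (hx ▸ hxk)
  · obtain ⟨a, ha, b, hb, h1, h2, h3⟩ := h
    rw [hY] at ha
    simp only [mem_insert, mem_singleton] at ha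
    rcases ha with ha | ha | ha
    · exact kp (ha ▸ h2)
    · exact kp' (ha ▸ h2)
    · rw [ha] at h1
      exact tw_not_low11 ⟨b, h1⟩ hl
  · obtain ⟨a, -, b, -, h1⟩ := h
    exact K.nlow hkF (K.f.sat _ _ _ h1)

/-- twins not adjacent to the pair -/
theorem twA (K : J8c G F v w) {p : V} (hp : p ∈ G.N F) (htw : G.IsTw p) :
    ∃ p' d, p ≠ p' ∧ p ≠ d ∧ p' ≠ d ∧ G.N F \ G.Tz F v = {p, p', d} ∧ 1 ≤ G.gam5 F p ∧
      1 ≤ G.gam5 F p' ∧ 12 ≤ G.gam5 F d ∧ G.d v F = 4 := by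
  obtain ⟨p', hpp⟩ := htw
  have hpv : p ∉ G.nb v := fun h => K.noY (mem_Tz28.2 ⟨h, hp⟩) ⟨p', hpp⟩
  have hvw : v ≠ w := ne_of_nb5 K.tw.1
  have hpw : p ∉ G.nb w := fun h => hpv ((K.vw (TF hp K.hv) (TF hp K.hw)).2 h)
  have t1 := (K.b7.tw3 F K.L p hp ⟨p', hpp⟩).1
  -- `N_F(p)` consists of the hubs
  have hH3 : ((F.erase v).erase w).card = 3 := by
    rw [card_erase_of_mem (mem_erase.2 ⟨hvw.symm, K.hw⟩), card_erase_of_mem K.hv, K.c]
  have hpH : G.nb p ∩ F = (F.erase v).erase w := by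
    apply eq_of_subset_of_card_le
    · intro z hz
      rw [mem_inter] at hz
      refine mem_erase.2 ⟨?_, mem_erase.2 ⟨?_, hz.2⟩⟩
      · rintro rfl
        exact hpw (G.sym _ _ hz.1)
      · rintro rfl
        exact hpv (G.sym _ _ hz.1)
    · rw [hH3]
      exact t1
  have hcovp : ∀ z ∈ (F.erase v).erase w, ∃ x ∈ G.Tz F z, G.Low x ∧ p ∈ G.nb x := by
    intro z hz
    have hzF : z ∈ F := (mem_erase.1 (mem_erase.1 hz).2).2
    have hzp : z ∈ G.nb p := by
      have : z ∈ G.nb p ∩ F := by rw [hpH]; exact hz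
      exact (mem_inter.1 this).1
    rcases K.covP hzF hp ⟨p', hpp⟩ (G.sym _ _ hzp) with h | h
    · exact h
    · exact absurd h.2 hpv
  have hHne : ((F.erase v).erase w).Nonempty := by
    rw [← card_pos, hH3]
    norm_num
  obtain ⟨z0, hz0⟩ := hHne
  obtain ⟨d, hdz, hl, hdp⟩ := hcovp z0 hz0
  have hd := (mem_Tz28.1 hdz).2
  obtain ⟨dp3, hpT, hp', hp'd, hdd, hne, hsub⟩ := K.twd hp hpp hd hl hdp
  have hp'l : ¬ G.Low p' := tw_not_low11 ⟨p, symT G hpp⟩
  have hdH : (F.erase v).erase w ⊆ G.nb d ∩ F := by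
    intro z hz
    have hzF : z ∈ F := (mem_erase.1 (mem_erase.1 hz).2).2
    obtain ⟨x, hx, hxl, hxp⟩ := hcovp z hz
    have h1 : x ∈ G.pT F p := mem_inter.2 ⟨G.sym _ _ hxp, (mem_Tz28.1 hx).2⟩
    rw [hpT, mem_insert, mem_singleton] at h1
    rcases h1 with h1 | h1
    · exact absurd (h1 ▸ hxl) hp'l
    · rw [h1] at hx
      exact mem_inter.2 ⟨G.sym _ _ (mem_Tz28.1 hx).1, hzF⟩
  have hdF : (F.erase v).erase w = G.nb d ∩ F := by
    apply eq_of_subset_of_card_le hdH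
    rw [hH3]
    exact hdd
  have hd3 : G.d d F = 3 := by
    have h1 : G.d d F = (G.nb d ∩ F).card := rfl
    rw [h1, ← hdF, hH3]
  have hdv : d ∉ G.nb v := by
    intro h
    have h1 : v ∈ G.nb d ∩ F := mem_inter.2 ⟨G.sym _ _ h, K.hv⟩
    rw [← hdF] at h1
    exact (mem_erase.1 (mem_erase.1 h1).2).1 rfl
  have hdT : G.pT F d = {p, p'} := by
    symm
    apply eq_of_subset_of_card_le hsub
    have h1 := (K.fr hd hl).2.2
    rw [card_pair (ne_of_nb5 hpp.1)]
    omega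
  have hp'v : p' ∉ G.nb v := fun h => K.noY (mem_Tz28.2 ⟨h, hp'⟩) ⟨p, symT G hpp⟩
  have hpp'ne : p ≠ p' := ne_of_nb5 hpp.1
  have hdpne : d ≠ p := ne_of_nb5 hdp
  have hc3 : ({p, p', d} : Finset V).card = 3 := by
    rw [card_insert_of_notMem (by simp [hpp'ne, hdpne.symm]), card_pair hne]
  have hAs : ({p, p', d} : Finset V) ⊆ G.N F \ G.Tz F v := by
    intro x hx
    simp only [mem_insert, mem_singleton] at hx
    rcases hx with rfl | rfl | rfl
    · exact mem_sdiff.2 ⟨hp, fun h => hpv (mem_Tz28.1 h).1⟩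
    · exact mem_sdiff.2 ⟨hp', fun h => hp'v (mem_Tz28.1 h).1⟩
    · exact mem_sdiff.2 ⟨hd, fun h => hdv (mem_Tz28.1 h).1⟩
  have hAc : (G.N F \ G.Tz F v).card + (G.Tz F v).card = 6 := by
    rw [← K.c6]
    exact card_sdiff_add_card_eq_card inter_subset_right
  have hle := card_le_card hAs
  rw [hc3] at hle
  have h7 := K.degv
  have hd4 := K.dle K.hv
  have hgp : ∀ {x : V}, x ∈ G.N F → G.IsTw x → G.d x F = 3 → 2 ≤ (G.pT F x).card →
      1 ≤ G.gam5 F x := by
    intro x hx htw h3 h2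
    obtain ⟨-, -, -, -, t5, -⟩ := K.b.tw F K.f x hx htw
    have h4 := t5 (by omega)
    rw [h3] at h4
    have h5 : (2 : ℤ) ≤ ((G.pT F x).card : ℤ) := by exact_mod_cast h2
    push_cast at h4
    linarith
  refine ⟨p', d, hpp'ne, hdpne.symm, hne, ?_, ?_, ?_, ?_, by omega⟩
  · symm
    apply eq_of_subset_of_card_le hAs
    omega
  · apply hgp hp ⟨p', hpp⟩ dp3
    rw [hpT, card_pair hne]
  · have h1 := K.twd hp' (symT G hpp) hd hl hp'd
    apply hgp hp' ⟨p, symT G hpp⟩ h1.1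
    rw [h1.2.1, card_pair hdpne.symm]
  · exact (K.b.low3 F K.f d hd hl hd3).2.2.2 ⟨p, p', hpp, hdT⟩

/-! ### counting -/

theorem card_sum (A : Finset V) (x : V) (G : CG V) :
    ((G.nb x ∩ A).card : ℤ) = ∑ y ∈ A, (if y ∈ G.nb x then (1 : ℤ) else 0) := by
  rw [inter_comm, ← filter_mem_eq_inter, card_filter]
  push_cast
  rfl

theorem swapN (A B : Finset V) (G : CG V) :
    ∑ x ∈ A, ((G.nb x ∩ B).card : ℤ) = ∑ y ∈ B, ((G.nb y ∩ A).card : ℤ) := by
  rw [sum_congr rfl fun x _ => card_sum B x G, sum_comm]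
  refine sum_congr rfl fun y _ => ?_
  rw [card_sum A y G]
  refine sum_congr rfl fun x _ => ?_
  by_cases h : y ∈ G.nb x
  · rw [if_pos h, if_pos (G.sym _ _ h)]
  · rw [if_neg h, if_neg (fun h3 => h (G.sym _ _ h3))]

/-- the hubs of `F` -/
def Hb (F : Finset V) (v w : V) : Finset V := (F.erase v).erase w

omit [Fintype V] in
theorem mem_Hb {z : V} : z ∈ Hb F v w ↔ z ≠ w ∧ z ≠ v ∧ z ∈ F := by
  rw [Hb, mem_erase, mem_erase]

theorem vnw (K : J8c G F v w) : v ≠ w := ne_of_nb5 K.tw.1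

theorem Hb3 (K : J8c G F v w) : (Hb F v w).card = 3 := by
  rw [Hb, card_erase_of_mem (mem_erase.2 ⟨K.vnw.symm, K.hw⟩), card_erase_of_mem K.hv, K.c]

theorem Feq (K : J8c G F v w) : F = insert v (insert w (Hb F v w)) := by
  rw [Hb, insert_erase (mem_erase.2 ⟨K.vnw.symm, K.hw⟩), insert_erase K.hv]

omit [Fintype V] in
theorem hvH : v ∉ Hb F v w := fun h => (mem_Hb.1 h).2.1 rfl

omit [Fintype V] in
theorem hwH : w ∉ Hb F v w := fun h => (mem_Hb.1 h).1 rfl

/-- `d y F` for `y ~ v` -/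
theorem dY (K : J8c G F v w) {y : V} (hy : y ∈ G.Tz F v) :
    (G.d y F : ℤ) = 2 + ((G.nb y ∩ Hb F v w).card : ℤ) := by
  rw [mem_Tz28] at hy
  have hyv : v ∈ G.nb y := G.sym _ _ hy.1
  have hyw : w ∈ G.nb y := G.sym _ _ ((K.vw (TF hy.2 K.hv) (TF hy.2 K.hw)).1 hy.1)
  have h0 : (G.d y F : ℤ) = ((G.nb y ∩ F).card : ℤ) := rfl
  rw [h0, card_sum, card_sum]
  conv_lhs => rw [K.Feq]
  rw [sum_insert (by rw [mem_insert, not_or]; exact ⟨K.vnw, hvH⟩), sum_insert hwH, if_pos hyv,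
    if_pos hyw]
  ring

/-- lows adjacent to the pair and to `h` -/
def nn (G : CG V) (F : Finset V) (v h : V) : ℤ := ((G.nb h ∩ D G F v).card : ℤ)

theorem dsum (K : J8c G F v w) :
    ∑ y ∈ D G F v, (G.d y F : ℤ) = 2 * ((D G F v).card : ℤ) + ∑ h ∈ Hb F v w, nn G F v h := by
  have h1 : ∀ y ∈ D G F v, (G.d y F : ℤ) = 2 + ((G.nb y ∩ Hb F v w).card : ℤ) := fun y hy =>
    K.dY (mem_filter.1 hy).1
  rw [sum_congr rfl h1, sum_add_distrib, sum_const, nsmul_eq_mul, swapN]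
  unfold nn
  ring

theorem nn1 (K : J8c G F v w) {h : V} (hh : h ∈ Hb F v w) (hv : h ∈ G.nb v) :
    1 ≤ nn G F v h := by
  have hF := (mem_Hb.1 hh).2.2
  have key : 1 ≤ (G.nb h ∩ D G F v).card := by
    rw [Nat.one_le_iff_ne_zero, ← Nat.pos_iff_ne_zero, card_pos]
    rcases K.covQ (mem_union_left _ hF) hv with h1 | h1 | h1
    · obtain ⟨x, hx, hl, hxh⟩ := h1
      exact ⟨x, mem_inter.2 ⟨G.sym _ _ hxh, mem_filter.2 ⟨hx, hl⟩⟩⟩
    · obtain ⟨a, ha, b, -, h2, -⟩ := h1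
      exact absurd ⟨b, h2⟩ (K.noY ha)
    · obtain ⟨a, -, b, -, h2⟩ := h1
      exact absurd (K.f.sat _ _ _ h2) (K.nlow hF)
  unfold nn
  exact_mod_cast key

theorem nn0 (K : J8c G F v w) {h : V} (hh : h ∈ Hb F v w) (hv : h ∉ G.nb v) :
    ((D G F v).card : ℤ) ≤ nn G F v h + 1 := by
  have hH := mem_Hb.1 hh
  have hF := hH.2.2
  -- `h` has at most two neighbours in `F`
  have hw' : h ∉ G.nb w := fun h1 => hv ((K.vw hH.2.1 hH.1).2 h1)
  have h1 : G.nb h ∩ F ⊆ (Hb F v w).erase h := by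
    intro x hx
    rw [mem_inter] at hx
    refine mem_erase.2 ⟨?_, mem_Hb.2 ⟨?_, ?_, hx.2⟩⟩
    · rintro rfl
      exact G.irr _ hx.1
    · rintro rfl
      exact hw' (G.sym _ _ hx.1)
    · rintro rfl
      exact hv (G.sym _ _ hx.1)
  have h2 := card_le_card h1
  rw [card_erase_of_mem hh, K.Hb3] at h2
  have h3 : G.d h F = (G.nb h ∩ F).card := rfl
  have h4 := K.deg7 hF
  have h5 : (G.N F \ G.Tz F h).card + (G.Tz F h).card = 6 := by
    rw [← K.c6]
    exact card_sdiff_add_card_eq_card inter_subset_right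
  have h6 : (D G F v) \ (G.nb h ∩ D G F v) ⊆ G.N F \ G.Tz F h := by
    intro x hx
    rw [mem_sdiff, mem_inter] at hx
    refine mem_sdiff.2 ⟨(mem_D.1 hx.1).2.1, fun h7 => hx.2 ⟨(mem_Tz28.1 h7).1, hx.1⟩⟩
  have h7 := card_le_card h6
  have h8 : ((D G F v) \ (G.nb h ∩ D G F v)).card + (G.nb h ∩ D G F v).card =
      (D G F v).card := card_sdiff_add_card_eq_card inter_subset_right
  have h9 : (D G F v).card ≤ (G.nb h ∩ D G F v).card + 1 := by omega
  unfold nn
  exact_mod_cast h9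

/-- the number of hubs adjacent to the pair -/
theorem th (K : J8c G F v w) : (G.d v F : ℤ) = 1 + ((G.nb v ∩ Hb F v w).card : ℤ) := by
  have h0 : (G.d v F : ℤ) = ((G.nb v ∩ F).card : ℤ) := rfl
  rw [h0, card_sum, card_sum]
  conv_lhs => rw [K.Feq]
  rw [sum_insert (by rw [mem_insert, not_or]; exact ⟨K.vnw, hvH⟩), sum_insert hwH,
    if_neg (G.irr _), if_pos K.tw.1]
  ring

theorem th1 (K : J8c G F v w) : 2 ≤ G.d v F := by
  obtain ⟨x, hx, y, hy, hyx⟩ := K.b7.conn F K.L {v, w} (by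
    intro z hz
    rw [mem_insert, mem_singleton] at hz
    rcases hz with rfl | rfl
    · exact K.hv
    · exact K.hw) ⟨v, by simp⟩ (by
    intro h
    have h1 := K.c
    rw [← h, card_pair K.vnw] at h1
    omega)
  rw [mem_sdiff, mem_insert, mem_singleton, not_or] at hy
  have hyv : y ∈ G.nb v := by
    rw [mem_insert, mem_singleton] at hx
    rcases hx with rfl | rfl
    · exact hyx
    · exact (K.vw hy.2.1 hy.2.2).2 hyx
  have h1 : ({w, y} : Finset V) ⊆ G.nb v ∩ F := by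
    intro z hz
    rw [mem_insert, mem_singleton] at hz
    rcases hz with rfl | rfl
    · exact mem_inter.2 ⟨K.tw.1, K.hw⟩
    · exact mem_inter.2 ⟨hyv, hy.1⟩
  have h2 := card_le_card h1
  rw [card_pair (Ne.symm hy.2.2)] at h2
  exact h2

/-- the sum of the `nn` -/
theorem nsum (K : J8c G F v w) :
    ((G.d v F : ℤ) - 1) + (4 - (G.d v F : ℤ)) * (((D G F v).card : ℤ) - 1) ≤
      ∑ h ∈ Hb F v w, nn G F v h := by
  have h1 : ∀ h ∈ Hb F v w, (if h ∈ G.nb v then (1 : ℤ) else ((D G F v).card : ℤ) - 1) ≤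
      nn G F v h := by
    intro h hh
    by_cases h2 : h ∈ G.nb v
    · rw [if_pos h2]
      exact K.nn1 hh h2
    · rw [if_neg h2]
      linarith [K.nn0 hh h2]
  have h2 := sum_le_sum h1
  have h3 : ∑ h ∈ Hb F v w, (if h ∈ G.nb v then (1 : ℤ) else ((D G F v).card : ℤ) - 1) =
      ((G.d v F : ℤ) - 1) + (4 - (G.d v F : ℤ)) * (((D G F v).card : ℤ) - 1) := by
    have e1 : ∀ h ∈ Hb F v w, (if h ∈ G.nb v then (1 : ℤ) else ((D G F v).card : ℤ) - 1) =
        (if h ∈ G.nb v then (1 : ℤ) else 0) * (2 - ((D G F v).card : ℤ)) +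
          (((D G F v).card : ℤ) - 1) := by
      intro h _
      split_ifs <;> ring
    rw [sum_congr rfl e1, sum_add_distrib, ← sum_mul, ← card_sum, sum_const, K.Hb3, K.th,
      nsmul_eq_mul]
    push_cast
    ring
  rw [h3] at h2
  exact h2

/-- the counting lemma at the pair -/
theorem cntY (K : J8c G F v w) :
    ((G.Tz F v).card : ℤ) ≤ ∑ y ∈ D G F v, ((G.nb y ∩ G.Tz F v).card : ℤ) := by
  classical
  have h1 := (K.cnt K.f.sat K.n9 F (G.Tz F v) (G.Tz F v) subset_rfl inter_subset_right v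
    (fun y hy => ?_)).2 (fun y _ a _ b _ hLL =>
      ((stTwHL_5 G).twLL _ _ _ _ hLL).1 K.twv)
  · have h2 : ∑ x ∈ G.Tz F v, G.wt3 G.Tw x * ((G.tT G.Tw F x ∩ G.Tz F v).card : ℤ) =
        2 * ∑ x ∈ D G F v, ((G.nb x ∩ G.Tz F v).card : ℤ) := by
      rw [D, sum_filter, mul_sum]
      refine sum_congr rfl fun x hx => ?_
      by_cases hl : G.Low x
      · have h1 : G.tT G.Tw F x = G.pT F x := by
          unfold tT pT
          rw [filter_eq_self]
          intro y _ hy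
          exact tw_not_low11 ⟨y, hy⟩ hl
        have h3 : G.pT F x ∩ G.Tz F v = G.nb x ∩ G.Tz F v := by
          ext y
          rw [mem_inter, pT, mem_inter, mem_inter]
          constructor
          · rintro ⟨⟨a1, -⟩, a3⟩
            exact ⟨a1, a3⟩
          · rintro ⟨a1, a3⟩
            exact ⟨⟨a1, (mem_Tz28.1 a3).2⟩, a3⟩
        rw [if_pos hl, wt3_low28 hl, h1, h3]
      · rw [if_neg hl, wt3_hub28 (q := G.Tw) ⟨hl, K.noY hx⟩]
        ring
    rw [h2] at h1
    linarith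
  · rcases K.covQ (mem_union_right _ (mem_Tz28.1 hy).2) (mem_Tz28.1 hy).1 with h | h | h
    · exact Or.inl h
    · exact Or.inr (Or.inl h)
    · exact Or.inr (Or.inr (Or.inl h))

/-! ### vertices not adjacent to the pair, all covered among themselves -/

/-- vertices of `N F` not adjacent to the pair -/
def Aa (G : CG V) (F : Finset V) (v : V) : Finset V := G.N F \ G.Tz F v

theorem mem_Aa {x : V} : x ∈ Aa G F v ↔ x ∈ G.N F ∧ x ∉ G.nb v := by
  rw [Aa, mem_sdiff, mem_Tz28]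
  tauto

theorem inA (K : J8c G F v w) (hno : ∀ x ∈ G.N F, ¬ G.IsTw x)
    (hw0 : ∀ y ∈ D G F v, ∀ a ∈ Aa G F v, a ∉ G.nb y)
    (Hg : ∀ a b t, G.HL a b t → a ∈ G.N F → b ∈ G.N F → t ∈ Aa G F v → a ∉ G.nb v) {a : V}
    (ha : a ∈ Aa G F v) :
    (∃ b ∈ Aa G F v, G.Low b ∧ b ∈ G.nb a) ∨
      (G.Low a ∧ ∃ a' ∈ Aa G F v, ∃ b' ∈ Aa G F v, G.HL a' b' a) := by
  have ha' := mem_Aa.1 ha
  have hlowA : ∀ b ∈ G.N F, G.Low b → ∀ x ∈ Aa G F v, x ∈ G.nb b → b ∈ Aa G F v := by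
    intro b hb hl x hx hxb
    refine mem_Aa.2 ⟨hb, fun h => hw0 b (mem_D.2 ⟨h, hb, hl⟩) x hx hxb⟩
  have h1 := K.bas.pos F K.f a ha'.1
  have h2 : (G.nb a ∩ F).Nonempty := by
    rw [← card_pos]
    exact lt_of_lt_of_le (by norm_num) h1
  obtain ⟨h, hh⟩ := h2
  rw [mem_inter] at hh
  rcases K.cov hh.2 (mem_union_right _ ha'.1) (G.sym _ _ hh.1) with h | h | h | h | h
  · obtain ⟨y, hy, h1, h2⟩ := h
    exact Or.inl ⟨y, hlowA y (mem_Tz28.1 hy).2 h1 a ha h2, h1, G.sym _ _ h2⟩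
  · obtain ⟨a, ha, b, -, h1, -⟩ := h
    exact absurd ⟨b, h1⟩ (hno a (mem_Tz28.1 ha).2)
  · exact absurd h.2.2 ha'.2
  · obtain ⟨x, hx, b, hb, h1⟩ := h
    have hxA : x ∈ Aa G F v := mem_Aa.2 ⟨(mem_Tz28.1 hx).2,
      Hg x b a h1 (mem_Tz28.1 hx).2 (mem_Tz28.1 hb).2 ha⟩
    exact Or.inr ⟨K.f.sat _ _ _ h1, x, hxA, b,
      hlowA b (mem_Tz28.1 hb).2 h1.2.1 x hxA (G.sym _ _ (HL_b76 h1)), h1⟩
  · obtain ⟨x, -, b, hb, h1⟩ := h
    have hbN := (mem_sdiff.1 hb).1
    exact Or.inl ⟨b, hlowA b hbN h1.2.1 a ha (LL_u76 h1), h1.2.1, G.sym _ _ (LL_u76 h1)⟩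

theorem A2 (K : J8c G F v w) (hno : ∀ x ∈ G.N F, ¬ G.IsTw x)
    (hw0 : ∀ y ∈ D G F v, ∀ a ∈ Aa G F v, a ∉ G.nb y)
    (Hg : ∀ a b t, G.HL a b t → a ∈ G.N F → b ∈ G.N F → t ∈ Aa G F v → a ∉ G.nb v)
    (hc : (Aa G F v).card = 3) :
    ∃ x ∈ Aa G F v, ∃ y ∈ Aa G F v, G.Low x ∧ G.Low y ∧ y ∈ G.nb x := by
  by_contra hcon
  have hA : ∀ a ∈ Aa G F v, G.Low a → ∃ a' ∈ Aa G F v, ∃ b' ∈ Aa G F v, G.HL a' b' a := by
    intro a ha hl
    rcases K.inA hno hw0 Hg ha with h | h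
    · obtain ⟨b, hb, h1, h2⟩ := h
      exact absurd ⟨a, ha, b, hb, hl, h1, h2⟩ hcon
    · exact h.2
  have hlow : ∃ x ∈ Aa G F v, G.Low x := by
    have hne : (Aa G F v).Nonempty := by
      rw [← card_pos, hc]
      norm_num
    obtain ⟨a, ha⟩ := hne
    rcases K.inA hno hw0 Hg ha with h | h
    · obtain ⟨b, hb, h1, -⟩ := h
      exact ⟨b, hb, h1⟩
    · exact ⟨a, ha, h.1⟩
  obtain ⟨x, hx, hxl⟩ := hlow
  obtain ⟨a, ha, b, hb, h1⟩ := hA x hx hxl
  obtain ⟨a', ha', b', hb', h2⟩ := hA b hb h1.2.1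
  have n1 : a ≠ b := ne_of_nb5 (HL_b76 h1)
  have n2 : a ≠ x := ne_of_nb5 (HL_t76 h1)
  have n3 : x ≠ b := (HL_bt76 h1).2
  have hall : ({a, b, x} : Finset V) = Aa G F v := by
    apply eq_of_subset_of_card_le
    · intro z hz
      simp only [mem_insert, mem_singleton] at hz
      rcases hz with rfl | rfl | rfl <;> assumption
    · rw [hc, card_insert_of_notMem (by simp [n1, n2]), card_pair n3.symm]
  rw [← hall] at ha' hb'
  simp only [mem_insert, mem_singleton] at ha' hb'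
  have e1 : a' = a := by
    rcases ha' with h3 | h3 | h3
    · exact h3
    · rw [h3] at h2
      exact absurd h1.2.1 (HL_not_low76 h2)
    · rw [h3] at h2
      exact absurd hxl (HL_not_low76 h2)
  have e2 : b' = x := by
    rcases hb' with h3 | h3 | h3
    · rw [h3] at h2
      exact absurd h2.2.1 (HL_not_low76 h1)
    · exact absurd h3.symm (HL_bt76 h2).2
    · exact h3
  rw [e1, e2] at h2
  exact (stTwHL_5 G).nomut K.n9 _ _ _ _ _ h1 h2 rfl

theorem muA (K : J8c G F v w) (hno : ∀ x ∈ G.N F, ¬ G.IsTw x)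
    (hw0 : ∀ y ∈ D G F v, ∀ a ∈ Aa G F v, a ∉ G.nb y)
    (Hg : ∀ a b t, G.HL a b t → a ∈ G.N F → b ∈ G.N F → t ∈ Aa G F v → a ∉ G.nb v)
    (hc : (Aa G F v).card = 3) : 2 ≤ ∑ x ∈ Aa G F v, mu G F x := by
  obtain ⟨x, hx, y, hy, hxl, hyl, hxy⟩ := K.A2 hno hw0 Hg hc
  have hsub : ({x, y} : Finset V) ⊆ Aa G F v := by
    intro z hz
    rw [mem_insert, mem_singleton] at hz
    rcases hz with rfl | rfl <;> assumption
  have h1 := sum_le_sum_of_subset_of_nonneg (f := fun z => mu G F z) hsub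
    (fun z hz _ => K.mu0 hno (mem_Aa.1 hz).1)
  rw [sum_pair (ne_of_nb5 hxy)] at h1
  have key : ∀ {x y : V}, G.Low x → y ∈ G.N F → G.Low y → y ∈ G.nb x → 1 ≤ mu G F x := by
    intro x y hl hy hyl hxy
    unfold mu
    rw [if_pos hl]
    have h1 : 1 ≤ (G.nb x ∩ Lw G F).card := card_pos.2 ⟨y, mem_inter.2 ⟨hxy, mem_Lw.2 ⟨hy, hyl⟩⟩⟩
    have h2 : (1 : ℤ) ≤ ((G.nb x ∩ Lw G F).card : ℤ) := by exact_mod_cast h1
    linarith
  have h2 := key hxl (mem_Aa.1 hy).1 hyl hxy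
  have h3 := key hyl (mem_Aa.1 hx).1 hxl (G.sym _ _ hxy)
  linarith

/-- the part of `N F` adjacent to the pair -/
theorem muY (G : CG V) (F : Finset V) (v : V) :
    ∑ y ∈ D G F v, ((G.nb y ∩ G.Tz F v).card : ℤ) -
      (((G.Tz F v).card : ℤ) - ((D G F v).card : ℤ)) ≤ ∑ x ∈ G.Tz F v, mu G F x := by
  classical
  have h1 : ∑ x ∈ G.Tz F v, mu G F x = ∑ x ∈ G.Tz F v, ((G.nb x ∩ Lw G F).card : ℤ) -
      (((G.Tz F v).card : ℤ) - ((D G F v).card : ℤ)) := by
    unfold mu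
    rw [sum_sub_distrib]
    congr 1
    have h4 : ∑ x ∈ G.Tz F v, (if G.Low x then (0 : ℤ) else 1) =
        ∑ x ∈ G.Tz F v, 1 - ∑ x ∈ G.Tz F v, (if G.Low x then (1 : ℤ) else 0) := by
      rw [← sum_sub_distrib]
      refine sum_congr rfl fun x _ => ?_
      split_ifs <;> norm_num
    rw [h4, ← sum_filter, sum_const, sum_const, nsmul_eq_mul, nsmul_eq_mul]
    rw [D]
    ring
  rw [h1, swapN]
  have h2 : ∑ x ∈ G.Tz F v, ((G.nb x ∩ D G F v).card : ℤ) ≤
      ∑ x ∈ G.Tz F v, ((G.nb x ∩ Lw G F).card : ℤ) := by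
    refine sum_le_sum fun x _ => ?_
    have h3 : G.nb x ∩ D G F v ⊆ G.nb x ∩ Lw G F := by
      intro y hy
      rw [mem_inter] at hy ⊢
      exact ⟨hy.1, mem_Lw.2 (mem_D.1 hy.2).2⟩
    exact_mod_cast card_le_card h3
  linarith

/-- the main inequality -/
theorem mainI (K : J8c G F v w) (hno : ∀ x ∈ G.N F, ¬ G.IsTw x) :
    2 * (6 + (∑ y ∈ D G F v, ((G.nb y ∩ G.Tz F v).card : ℤ) -
      (((G.Tz F v).card : ℤ) - ((D G F v).card : ℤ))) + ∑ x ∈ Aa G F v, mu G F x +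
      (2 * ∑ h ∈ Hb F v w, nn G F v h - ∑ y ∈ D G F v, sg G F y)) ≤
      ∑ x ∈ G.N F, G.gam5 F x := by
  have h1 := K.low6 hno (S := G.N F) (M := D G F v) subset_rfl (by
    intro x hx
    exact mem_Lw.2 (mem_D.1 hx).2)
  have h2 : ∑ x ∈ Aa G F v, mu G F x + ∑ x ∈ G.Tz F v, mu G F x = ∑ x ∈ G.N F, mu G F x :=
    sum_sdiff inter_subset_right
  have h3 : ∑ x ∈ D G F v, ee G F x =
      2 * ∑ h ∈ Hb F v w, nn G F v h - ∑ y ∈ D G F v, sg G F y := by
    have e1 : ∑ x ∈ D G F v, ee G F x = 2 * ∑ x ∈ D G F v, (G.d x F : ℤ) -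
        4 * ((D G F v).card : ℤ) - ∑ y ∈ D G F v, sg G F y := by
      unfold ee
      rw [sum_sub_distrib, ← mul_sum, sum_sub_distrib, sum_const, nsmul_eq_mul]
      ring
    rw [e1, K.dsum]
    ring
  have h4 := muY G F v
  linarith

/-! ### the cases -/

/-- adjacency as a number -/
def ad (G : CG V) (x y : V) : ℤ := if y ∈ G.nb x then 1 else 0

theorem ad_comm (x y : V) : ad G x y = ad G y x := by
  unfold ad
  by_cases h : y ∈ G.nb x
  · rw [if_pos h, if_pos (G.sym _ _ h)]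
  · rw [if_neg h, if_neg (fun h3 => h (G.sym _ _ h3))]

theorem ad_self (x : V) : ad G x x = 0 := by
  unfold ad
  rw [if_neg (G.irr _)]

theorem ad01 (x y : V) : (ad G x y = 0 ∧ y ∉ G.nb x) ∨ (ad G x y = 1 ∧ y ∈ G.nb x) := by
  unfold ad
  by_cases h : y ∈ G.nb x
  · rw [if_pos h]
    exact Or.inr ⟨rfl, h⟩
  · rw [if_neg h]
    exact Or.inl ⟨rfl, h⟩

theorem ad1 {x y : V} (h : y ∈ G.nb x) : ad G x y = 1 := by
  unfold ad
  rw [if_pos h]

theorem adb (x y : V) : 0 ≤ ad G x y ∧ ad G x y ≤ 1 := by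
  unfold ad
  split_ifs <;> norm_num

theorem tb (K : J8c G F v w) :
    ∑ y ∈ D G F v, ((G.nb y ∩ G.Tz F v).card : ℤ) + ∑ h ∈ Hb F v w, nn G F v h ≤
      3 * ((D G F v).card : ℤ) := by
  have h1 : ∑ y ∈ D G F v, (((G.nb y ∩ G.Tz F v).card : ℤ) + (G.d y F : ℤ)) ≤
      ∑ _y ∈ D G F v, 5 := by
    refine sum_le_sum fun y hy => ?_
    have hy' := (mem_D.1 hy).2
    have h2 := (K.fr hy'.1 hy'.2).2.2
    have h3 : (G.nb y ∩ G.Tz F v).card ≤ (G.pT F y).card := by
      apply card_le_card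
      intro x hx
      rw [mem_inter] at hx
      exact mem_inter.2 ⟨hx.1, (mem_Tz28.1 hx.2).2⟩
    have h4 : (G.nb y ∩ G.Tz F v).card + G.d y F ≤ 5 := by omega
    exact_mod_cast h4
  rw [sum_add_distrib, K.dsum, sum_const, nsmul_eq_mul] at h1
  linarith

theorem sb (K : J8c G F v w) : ∑ y ∈ D G F v, sg G F y ≤ ((D G F v).card : ℤ) := by
  have h1 : ∑ y ∈ D G F v, sg G F y ≤ ∑ _y ∈ D G F v, 1 := by
    refine sum_le_sum fun y hy => ?_
    have hy' := (mem_D.1 hy).2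
    exact (K.sg1 hy'.1 hy'.2).2
  rw [sum_const, nsmul_eq_mul, mul_one] at h1
  exact h1

theorem Dle (G : CG V) (F : Finset V) (v : V) : (D G F v).card ≤ (G.Tz F v).card :=
  card_le_card (filter_subset _ _)

theorem muA0 (K : J8c G F v w) (hno : ∀ x ∈ G.N F, ¬ G.IsTw x) :
    0 ≤ ∑ x ∈ Aa G F v, mu G F x :=
  sum_nonneg fun x hx => K.mu0 hno (mem_Aa.1 hx).1

/-- one hub adjacent to the pair -/
theorem case1 (K : J8c G F v w) (hno : ∀ x ∈ G.N F, ¬ G.IsTw x) (h : G.d v F = 2) :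
    32 ≤ ∑ x ∈ G.N F, G.gam5 F x := by
  have h1 := K.mainI hno
  have h2 := K.nsum
  have h3 := K.cntY
  have h4 := K.tb
  have h5 := K.sb
  have h6 := K.degv
  have h7 := K.muA0 hno
  have h8 : ((G.Tz F v).card : ℤ) = 5 := by
    have : (G.Tz F v).card = 5 := by omega
    rw [this]
    rfl
  rw [h] at h2
  push_cast at h2
  rw [h8] at h1 h3
  linarith

/-- a low of `Y` without low neighbours in `Y` -/
theorem iso (K : J8c G F v w) {y y1 y2 g : V} (hT : G.Tz F v = {y, y1, y2, g}) (l1 : G.Low y1)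
    (l2 : G.Low y2) (lg : ¬ G.Low g) (ly : G.Low y) (n1 : y ∉ G.nb y1) (n2 : y ∉ G.nb y2)
    (n3 : y2 ∈ G.nb y1) : g ∈ G.nb y ∧ g ∈ G.nb y1 ∧ g ∈ G.nb y2 := by
  have hy : y ∈ G.Tz F v := by rw [hT]; simp
  have hgm : g ∈ G.Tz F v := by rw [hT]; simp
  have hy' := mem_Tz28.1 hy
  rcases K.covQ (mem_union_right _ hy'.2) hy'.1 with h | h | h
  · exfalso
    obtain ⟨x, hx, hl, hxy⟩ := h
    rw [hT] at hx
    simp only [mem_insert, mem_singleton] at hx
    rcases hx with rfl | rfl | rfl | rfl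
    · exact G.irr _ hxy
    · exact n1 hxy
    · exact n2 hxy
    · exact lg hl
  · obtain ⟨a, ha, b, -, h1, -⟩ := h
    exact absurd ⟨b, h1⟩ (K.noY ha)
  · obtain ⟨a, ha, b, hb, h1⟩ := h
    have hla := HL_not_low76 h1
    have e1 : a = g := by
      rw [hT] at ha
      simp only [mem_insert, mem_singleton] at ha
      rcases ha with h2 | h2 | h2 | h2
      · exact absurd (h2 ▸ ly) hla
      · exact absurd (h2 ▸ l1) hla
      · exact absurd (h2 ▸ l2) hla
      · exact h2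
    rw [e1] at h1
    have hgl : ∀ x, G.Low x → x ≠ g := by
      rintro x hx rfl
      exact lg hx
    have e2 : b = y1 ∨ b = y2 := by
      rw [hT] at hb
      simp only [mem_insert, mem_singleton] at hb
      rcases hb with h2 | h2 | h2 | h2
      · exact absurd h2.symm (HL_bt76 h1).2
      · exact Or.inl h2
      · exact Or.inr h2
      · exact absurd h2 (hgl b h1.2.1)
    rcases e2 with e2 | e2
    · rw [e2] at h1
      exact ⟨G.sym _ _ (HL_t76 h1), G.sym _ _ (HL_b76 h1),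
        G.sym _ _ (HL_sub76 h1 n3 (hgl y2 l2))⟩
    · rw [e2] at h1
      exact ⟨G.sym _ _ (HL_t76 h1), G.sym _ _ (HL_sub76 h1 (G.sym _ _ n3) (hgl y1 l1)),
        G.sym _ _ (HL_b76 h1)⟩

/-- two hubs adjacent to the pair -/
theorem case2 (K : J8c G F v w) (hno : ∀ x ∈ G.N F, ¬ G.IsTw x) (h : G.d v F = 3) :
    32 ≤ ∑ x ∈ G.N F, G.gam5 F x := by
  classical
  have h1 := K.mainI hno
  have h2 := K.nsum
  have h3 := K.cntY
  have h4 := K.tb
  have h5 := K.sb
  have h6 := K.degv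
  have h7 := K.muA0 hno
  have h8 : ((G.Tz F v).card : ℤ) = 4 := by
    have : (G.Tz F v).card = 4 := by omega
    rw [this]
    rfl
  have h9 := Dle G F v
  rw [h] at h2
  push_cast at h2
  rw [h8] at h1 h3
  have hk : (3 : ℤ) ≤ ((D G F v).card : ℤ) := by linarith
  have hk' : 3 ≤ (D G F v).card := by exact_mod_cast hk
  have hk4 : (D G F v).card = 3 ∨ (D G F v).card = 4 := by omega
  rcases hk4 with hk4 | hk4
  swap
  · rw [hk4] at h1 h2 h4 h5
    push_cast at h1 h2 h4 h5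
    linarith
  -- three lows
  have hTc : (G.Tz F v).card = 4 := by omega
  obtain ⟨y1, y2, y3, n12, n13, n23, hD⟩ := card_eq_three.1 hk4
  have hg1 : (G.Tz F v \ D G F v).card = 1 := by
    have := card_sdiff_add_card_eq_card (filter_subset (fun x => G.Low x) (G.Tz F v))
    have e : (G.Tz F v).filter (fun x => G.Low x) = D G F v := rfl
    rw [e] at this
    omega
  obtain ⟨g, hg⟩ := card_eq_one.1 hg1
  have hgm : g ∈ G.Tz F v \ D G F v := by rw [hg]; simp
  rw [mem_sdiff] at hgm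
  have hgl : ¬ G.Low g := fun h => hgm.2 (mem_filter.2 ⟨hgm.1, h⟩)
  have m1 : y1 ∈ D G F v := by rw [hD]; simp
  have m2 : y2 ∈ D G F v := by rw [hD]; simp
  have m3 : y3 ∈ D G F v := by rw [hD]; simp
  have l1 := (mem_filter.1 m1).2
  have l2 := (mem_filter.1 m2).2
  have l3 := (mem_filter.1 m3).2
  have hgl' : ∀ x, G.Low x → x ≠ g := by
    rintro x hx rfl
    exact hgl hx
  have g1 := hgl' y1 l1
  have g2 := hgl' y2 l2
  have g3 := hgl' y3 l3
  have hT : G.Tz F v = {y1, y2, y3, g} := by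
    have e : D G F v ⊆ G.Tz F v := filter_subset _ _
    rw [← sdiff_union_of_subset e, hg, hD]
    ext x
    simp only [mem_union, mem_insert, mem_singleton]
    tauto
  have hTY : ∀ x, ((G.nb x ∩ G.Tz F v).card : ℤ) = ad G x y1 + (ad G x y2 + (ad G x y3 +
      ad G x g)) := by
    intro x
    rw [card_sum, hT, sum_insert (by simp [n12, n13, g1]), sum_insert (by simp [n23, g2]),
      sum_pair g3]
    rfl
  have hTs : ∑ y ∈ D G F v, ((G.nb y ∩ G.Tz F v).card : ℤ) =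
      2 * (ad G y1 y2 + ad G y1 y3 + ad G y2 y3) + (ad G y1 g + ad G y2 g + ad G y3 g) := by
    rw [sum_congr rfl fun y _ => hTY y, hD, sum_insert (by simp [n12, n13]), sum_pair n23,
      ad_self, ad_self, ad_self, ad_comm y2 y1, ad_comm y3 y1, ad_comm y3 y2]
    ring
  -- `g` has a low neighbour
  have hgY := mem_Tz28.1 hgm.1
  have c1 := adb (G := G) y1 g
  have c2 := adb (G := G) y2 g
  have c3 := adb (G := G) y3 g
  have c4 := adb (G := G) y1 y2
  have c5 := adb (G := G) y1 y3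
  have c6 := adb (G := G) y2 y3
  have hb1 : 1 ≤ ad G y1 g + ad G y2 g + ad G y3 g := by
    rcases K.covQ (mem_union_right _ hgY.2) hgY.1 with h | h | h
    · obtain ⟨x, hx, hl, hxy⟩ := h
      rw [hT] at hx
      simp only [mem_insert, mem_singleton] at hx
      rcases hx with rfl | rfl | rfl | rfl
      · rw [ad1 hxy]
        linarith [c2.1, c3.1]
      · rw [ad1 hxy]
        linarith [c1.1, c3.1]
      · rw [ad1 hxy]
        linarith [c1.1, c2.1]
      · exact absurd hxy (G.irr _)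
    · obtain ⟨a, ha, b, -, h1, -⟩ := h
      exact absurd ⟨b, h1⟩ (K.noY ha)
    · obtain ⟨a, -, b, -, h1⟩ := h
      exact absurd (K.f.sat _ _ _ h1) hgl
  have hT5 : 5 ≤ 2 * (ad G y1 y2 + ad G y1 y3 + ad G y2 y3) +
      (ad G y1 g + ad G y2 g + ad G y3 g) := by
    by_contra hcon
    rw [hTs] at h3
    have hab : ad G y1 g + ad G y2 g + ad G y3 g = 2 ∧ ad G y1 y2 + ad G y1 y3 + ad G y2 y3 = 1 := by
      have e1 : ad G y1 g + ad G y2 g + ad G y3 g ≤ 3 := by linarith [c1.2, c2.2, c3.2]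
      clear h1 h2 h4 h5 h7 c1 c2 c3 c4 c5 c6
      omega
    obtain ⟨hb2, ha1⟩ := hab
    have a4 := ad01 (G := G) y1 y2
    have a5 := ad01 (G := G) y1 y3
    have a6 := ad01 (G := G) y2 y3
    have c6' := adb (G := G) y2 y3
    clear h1 h2 h3 h4 h5 h6 h7 h8 h9 hk hk' hk4 hTc c1 c2 c3 c4 c5 c6 hcon hTs hb1
    rcases a4 with a4 | a4
    · rcases a5 with a5 | a5
      · rcases a6 with a6 | a6
        · linarith [a4.1, a5.1, a6.1]
        · -- `y1` isolated
          have h10 := K.iso (y := y1) (y1 := y2) (y2 := y3) (g := g) hT l2 l3 hgl l1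
            (fun h => a4.2 (G.sym _ _ h)) (fun h => a5.2 (G.sym _ _ h)) a6.2
          rw [ad1 h10.1, ad1 h10.2.1, ad1 h10.2.2] at hb2
          norm_num at hb2
      · rcases a6 with a6 | a6
        · -- `y2` isolated
          have hT' : G.Tz F v = {y2, y1, y3, g} := by
            rw [hT]
            ext x
            simp only [mem_insert, mem_singleton]
            tauto
          have h10 := K.iso (y := y2) (y1 := y1) (y2 := y3) (g := g) hT' l1 l3 hgl l2
            a4.2 (fun h => a6.2 (G.sym _ _ h)) a5.2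
          rw [ad1 h10.1, ad1 h10.2.1, ad1 h10.2.2] at hb2
          norm_num at hb2
        · linarith [a4.1, a5.1, a6.1]
    · rcases a5 with a5 | a5
      · rcases a6 with a6 | a6
        · -- `y3` isolated
          have hT' : G.Tz F v = {y3, y1, y2, g} := by
            rw [hT]
            ext x
            simp only [mem_insert, mem_singleton]
            tauto
          have h10 := K.iso (y := y3) (y1 := y1) (y2 := y2) (g := g) hT' l1 l2 hgl l3
            a5.2 a6.2 a4.2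
          rw [ad1 h10.1, ad1 h10.2.1, ad1 h10.2.2] at hb2
          norm_num at hb2
        · linarith [a4.1, a5.1, a6.1]
      · linarith [a4.1, a5.1, c6'.1]
  have hs2 : ∑ y ∈ D G F v, sg G F y ≤ 2 := by
    have key : ∀ y ∈ D G F v, sg G F y = 0 ∨ (sg G F y = 1 ∧
        ((G.nb y ∩ G.Tz F v).card : ℤ) ≤ 1) := by
      intro y hy
      have hy' := (mem_D.1 hy).2
      rcases K.sgv hy'.1 hy'.2 with h | h
      · exact Or.inl h
      · refine Or.inr ⟨h.1, ?_⟩
        have h3 : (G.nb y ∩ G.Tz F v).card ≤ (G.pT F y).card := by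
          apply card_le_card
          intro x hx
          rw [mem_inter] at hx
          exact mem_inter.2 ⟨hx.1, (mem_Tz28.1 hx.2).2⟩
        rw [h.2.1] at h3
        exact_mod_cast h3
    have k1 := key y1 m1
    have k2 := key y2 m2
    have k3 := key y3 m3
    have hTs' := hTs
    rw [hD, sum_insert (by simp [n12, n13]), sum_pair n23] at hTs' ⊢
    rcases k1 with k1 | k1
    · linarith [(K.sg1 (mem_D.1 m2).2.1 l2).2, (K.sg1 (mem_D.1 m3).2.1 l3).2]
    · rcases k2 with k2 | k2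
      · linarith [(K.sg1 (mem_D.1 m3).2.1 l3).2]
      · rcases k3 with k3 | k3
        · linarith
        · linarith [k1.2, k2.2, k3.2]
  rw [hTs, hk4] at h1
  rw [hk4] at h2
  push_cast at h1 h2
  linarith

theorem TzT {y : V} : ((G.nb y ∩ G.Tz F v).card : ℤ) ≤ ((G.pT F y).card : ℤ) := by
  have h3 : (G.nb y ∩ G.Tz F v).card ≤ (G.pT F y).card := by
    apply card_le_card
    intro x hx
    rw [mem_inter] at hx
    exact mem_inter.2 ⟨hx.1, (mem_Tz28.1 hx.2).2⟩
  exact_mod_cast h3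

theorem Aa3 (K : J8c G F v w) (h : G.d v F = 4) : (Aa G F v).card = 3 := by
  have h1 := K.degv
  have h2 : (G.N F \ G.Tz F v).card + (G.Tz F v).card = 6 := by
    rw [← K.c6]
    exact card_sdiff_add_card_eq_card inter_subset_right
  have h3 : Aa G F v = G.N F \ G.Tz F v := rfl
  rw [h3]
  omega

/-- three hubs adjacent to the pair, two lows in `Y` -/
theorem case32 (K : J8c G F v w) (hno : ∀ x ∈ G.N F, ¬ G.IsTw x) (h : G.d v F = 4)
    {y1 y2 g : V} (hT : G.Tz F v = {y1, y2, g}) (n12 : y1 ≠ y2) (l1 : G.Low y1) (l2 : G.Low y2)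
    (lg : ¬ G.Low g) (a12 : y2 ∈ G.nb y1) (ag1 : g ∈ G.nb y1) (ag2 : g ∉ G.nb y2) :
    32 ≤ ∑ x ∈ G.N F, G.gam5 F x := by
  classical
  have hgl' : ∀ x, G.Low x → x ≠ g := by
    rintro x hx rfl
    exact lg hx
  have g1 := hgl' y1 l1
  have g2 := hgl' y2 l2
  have hD : D G F v = {y1, y2} := by
    ext x
    rw [D, mem_filter, hT]
    simp only [mem_insert, mem_singleton]
    constructor
    · rintro ⟨h1 | h1 | h1, h2⟩
      · exact Or.inl h1
      · exact Or.inr h1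
      · exact absurd h1 (hgl' x h2)
    · rintro (h1 | h1)
      · exact ⟨Or.inl h1, h1 ▸ l1⟩
      · exact ⟨Or.inr (Or.inl h1), h1 ▸ l2⟩
  have m1 : y1 ∈ D G F v := by rw [hD]; simp
  have m2 : y2 ∈ D G F v := by rw [hD]; simp
  have m1' := mem_D.1 m1
  have m2' := mem_D.1 m2
  have hgT : g ∈ G.Tz F v := by rw [hT]; simp
  have hgN := (mem_Tz28.1 hgT).2
  have hk : ((D G F v).card : ℤ) = 2 := by
    rw [hD, card_pair n12]
    rfl
  have hTc : ((G.Tz F v).card : ℤ) = 3 := by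
    rw [hT, card_insert_of_notMem (by simp [n12, g1]), card_pair g2]
    rfl
  have hTY : ∀ x, ((G.nb x ∩ G.Tz F v).card : ℤ) = ad G x y1 + (ad G x y2 + ad G x g) := by
    intro x
    rw [card_sum, hT, sum_insert (by simp [n12, g1]), sum_pair g2]
    rfl
  have e1 : ((G.nb y1 ∩ G.Tz F v).card : ℤ) = 2 := by
    rw [hTY, ad_self, ad1 a12, ad1 ag1]
    norm_num
  have e2 : ((G.nb y2 ∩ G.Tz F v).card : ℤ) = 1 := by
    have : ad G y2 g = 0 := by
      unfold ad
      rw [if_neg ag2]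
    rw [hTY, ad_self, ad_comm, ad1 a12, this]
    norm_num
  have hTs : ∑ y ∈ D G F v, ((G.nb y ∩ G.Tz F v).card : ℤ) = 3 := by
    rw [hD, sum_pair n12, e1, e2]
    norm_num
  have h1 := K.mainI hno
  have h2 := K.nsum
  have h4 := K.tb
  have hds := K.dsum
  rw [h, hk] at h2
  push_cast at h2
  rw [hTs, hk] at h4
  rw [hTs, hTc, hk] at h1
  rw [hk] at hds
  have hds' : (G.d y1 F : ℤ) + (G.d y2 F : ℤ) = 7 := by
    rw [hD, sum_pair n12] at hds
    linarith
  have f1 := K.fr m1'.2.1 m1'.2.2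
  have f2 := K.fr m2'.2.1 m2'.2.2
  have t1 : 2 ≤ (G.pT F y1).card := by
    have h5 := TzT (G := G) (F := F) (v := v) (y := y1)
    rw [e1] at h5
    exact_mod_cast h5
  have t2 : 1 ≤ (G.pT F y2).card := by
    have h5 := TzT (G := G) (F := F) (v := v) (y := y2)
    rw [e2] at h5
    exact_mod_cast h5
  have hds2 : G.d y1 F + G.d y2 F = 7 := by exact_mod_cast hds'
  have d1 : G.d y1 F = 3 := by omega
  have d2 : G.d y2 F = 4 := by omega
  have t1' : (G.pT F y1).card = 2 := by omega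
  have t2' : (G.pT F y2).card = 1 := by omega
  have p1 : G.pT F y1 = {y2, g} := by
    symm
    apply eq_of_subset_of_card_le
    · intro x hx
      rw [mem_insert, mem_singleton] at hx
      rcases hx with rfl | rfl
      · exact mem_inter.2 ⟨a12, m2'.2.1⟩
      · exact mem_inter.2 ⟨ag1, hgN⟩
    · rw [t1', card_pair g2]
  have p2 : G.pT F y2 = {y1} := by
    symm
    apply eq_of_subset_of_card_le
    · intro x hx
      rw [mem_singleton] at hx
      rw [hx]
      exact mem_inter.2 ⟨G.sym _ _ a12, m1'.2.1⟩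
    · rw [t2', card_singleton]
  have s1 : sg G F y1 = 0 := K.sg0 m1'.2.1 m1'.2.2 (by omega)
  have s2 : sg G F y2 = 0 := by
    rcases K.sgv m2'.2.1 m2'.2.2 with h5 | ⟨-, -, h5⟩
    · exact h5
    · exfalso
      rcases h5 with ⟨-, a, h6, h7⟩ | ⟨h6, -⟩
      · rw [p2, singleton_inj] at h6
        rw [← h6] at h7
        exact h7.1 l1
      · omega
  have hS : ∑ y ∈ D G F v, sg G F y = 0 := by
    rw [hD, sum_pair n12, s1, s2]
    norm_num
  have hw0 : ∀ y ∈ D G F v, ∀ a ∈ Aa G F v, a ∉ G.nb y := by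
    intro y hy a ha hay
    have ha' := mem_Aa.1 ha
    have h5 : a ∈ G.pT F y := mem_inter.2 ⟨hay, ha'.1⟩
    rw [hD, mem_insert, mem_singleton] at hy
    rcases hy with rfl | rfl
    · rw [p1, mem_insert, mem_singleton] at h5
      rcases h5 with rfl | rfl
      · exact ha'.2 m2'.1
      · exact ha'.2 (mem_Tz28.1 hgT).1
    · rw [p2, mem_singleton] at h5
      rw [h5] at ha'
      exact ha'.2 m1'.1
  have Hg : ∀ a b t, G.HL a b t → a ∈ G.N F → b ∈ G.N F → t ∈ Aa G F v → a ∉ G.nb v := by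
    intro a b t hHL ha hb ht hav
    have haT : a ∈ G.Tz F v := mem_Tz28.2 ⟨hav, ha⟩
    rw [hT] at haT
    simp only [mem_insert, mem_singleton] at haT
    have hal := HL_not_low76 hHL
    have e : a = g := by
      rcases haT with h5 | h5 | h5
      · exact absurd (h5 ▸ l1) hal
      · exact absurd (h5 ▸ l2) hal
      · exact h5
    rw [e] at hHL
    have ht' := mem_Aa.1 ht
    have hty : y1 ≠ t := by
      rintro rfl
      exact ht'.2 m1'.1
    rcases HL_sup76 hHL (G.sym _ _ ag1) hty with h5 | h5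
    · rw [← h5] at hHL
      exact ag2 (G.sym _ _ (HL_sub76 hHL a12 g2))
    · have h6 : b ∈ G.pT F y1 := mem_inter.2 ⟨G.sym _ _ h5, hb⟩
      rw [p1, mem_insert, mem_singleton] at h6
      rcases h6 with h6 | h6
      · rw [h6] at hHL
        exact ag2 (G.sym _ _ (HL_b76 hHL))
      · exact lg (h6 ▸ hHL.2.1)
  have hA := K.muA hno hw0 Hg (K.Aa3 h)
  rw [hS] at h1
  linarith

/-- three lows in `Y`, a path, one exceptional end -/
theorem case33s (K : J8c G F v w) (hno : ∀ x ∈ G.N F, ¬ G.IsTw x) (h : G.d v F = 4)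
    {y1 y2 y3 : V} (hT : G.Tz F v = {y1, y2, y3}) (n12 : y1 ≠ y2) (n13 : y1 ≠ y3) (n23 : y2 ≠ y3)
    (l1 : G.Low y1) (l2 : G.Low y2) (l3 : G.Low y3) (a12 : y2 ∈ G.nb y1) (a23 : y3 ∈ G.nb y2)
    (hs : sg G F y1 = 1) :
    32 ≤ ∑ x ∈ G.N F, G.gam5 F x := by
  classical
  have hD : D G F v = {y1, y2, y3} := by
    ext x
    rw [D, mem_filter, hT]
    simp only [mem_insert, mem_singleton]
    constructor
    · rintro ⟨h1, -⟩
      exact h1
    · intro h1
      refine ⟨h1, ?_⟩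
      rcases h1 with h1 | h1 | h1
      · exact h1 ▸ l1
      · exact h1 ▸ l2
      · exact h1 ▸ l3
  have m1 : y1 ∈ D G F v := by rw [hD]; simp
  have m2 : y2 ∈ D G F v := by rw [hD]; simp
  have m3 : y3 ∈ D G F v := by rw [hD]; simp
  have m1' := mem_D.1 m1
  have m2' := mem_D.1 m2
  have m3' := mem_D.1 m3
  have hk : ((D G F v).card : ℤ) = 3 := by
    rw [hD, card_insert_of_notMem (by simp [n12, n13]), card_pair n23]
    rfl
  have hTc : ((G.Tz F v).card : ℤ) = 3 := by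
    rw [hT, card_insert_of_notMem (by simp [n12, n13]), card_pair n23]
    rfl
  have f1 := K.fr m1'.2.1 m1'.2.2
  have f2 := K.fr m2'.2.1 m2'.2.2
  have f3 := K.fr m3'.2.1 m3'.2.2
  have t1 : (G.pT F y1).card = 1 := by
    rcases K.sgv m1'.2.1 m1'.2.2 with h5 | h5
    · rw [hs] at h5
      norm_num at h5
    · exact h5.2.1
  have p1 : G.pT F y1 = {y2} := by
    symm
    apply eq_of_subset_of_card_le
    · intro x hx
      rw [mem_singleton] at hx
      rw [hx]
      exact mem_inter.2 ⟨a12, m2'.2.1⟩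
    · rw [t1, card_singleton]
  have hs2 : ({y1, y3} : Finset V) ⊆ G.pT F y2 := by
    intro x hx
    rw [mem_insert, mem_singleton] at hx
    rcases hx with rfl | rfl
    · exact mem_inter.2 ⟨G.sym _ _ a12, m1'.2.1⟩
    · exact mem_inter.2 ⟨a23, m3'.2.1⟩
  have t2 := card_le_card hs2
  rw [card_pair n13] at t2
  have hs3 : ({y2} : Finset V) ⊆ G.pT F y3 := by
    intro x hx
    rw [mem_singleton] at hx
    rw [hx]
    exact mem_inter.2 ⟨G.sym _ _ a23, m2'.2.1⟩
  have t3 := card_le_card hs3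
  rw [card_singleton] at t3
  -- `y1` has three neighbours in `F`, `y2` at least two outside
  have hex : G.d y1 F = 3 ∧ G.d y2 F + (G.pT F y2).card ≤ 4 := by
    rcases K.sgv m1'.2.1 m1'.2.2 with h5 | ⟨-, -, h5⟩
    · rw [hs] at h5
      norm_num at h5
    · rcases h5 with ⟨-, a, h6, h7⟩ | ⟨h6, y, q, q', h7, h8, h9, h10, h11⟩
      · exfalso
        rw [p1, singleton_inj] at h6
        rw [← h6] at h7
        exact h7.1 l2
      · refine ⟨h6, ?_⟩
        rw [p1, singleton_inj] at h8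
        rw [← h8] at h11
        have hq : q ∈ G.pO F y1 := by rw [h10]; simp
        have hq' : q' ∈ G.pO F y1 := by rw [h10]; simp
        have hq'n : q' ∈ G.nb y2 := by
          refine G.sym _ _ (Tw_nb5 h9 (G.sym _ _ h11) ?_)
          rintro rfl
          exact tw_not_low11 ⟨q, symT G h9⟩ l2
        have hs : ({q, q'} : Finset V) ⊆ G.nb y2 ∩ G.Co F := by
          intro x hx
          rw [mem_insert, mem_singleton] at hx
          rcases hx with rfl | rfl
          · exact mem_inter.2 ⟨h11, (mem_inter.1 hq).2⟩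
          · exact mem_inter.2 ⟨hq'n, (mem_inter.1 hq').2⟩
        have h5 := card_le_card hs
        rw [card_pair (ne_of_nb5 h9.1)] at h5
        have h6 : (G.nb y2).card = 6 := l2
        have h7 : (G.nb y2 ∩ G.Co F) ∪ ((G.nb y2 ∩ F) ∪ (G.nb y2 ∩ G.N F)) ⊆ G.nb y2 := by
          intro x hx
          simp only [mem_union, mem_inter] at hx
          tauto
        have h8 := card_le_card h7
        have k1 : Disjoint (G.nb y2 ∩ F) (G.nb y2 ∩ G.N F) := by
          rw [disjoint_left]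
          intro x hx hx'
          exact (mem_N76.1 (mem_inter.1 hx').2).1 (mem_inter.1 hx).2
        have k2 : Disjoint (G.nb y2 ∩ G.Co F) ((G.nb y2 ∩ F) ∪ (G.nb y2 ∩ G.N F)) := by
          rw [disjoint_left]
          intro x hx hx'
          have h9 := mem_Co76.1 (mem_inter.1 hx).2
          rcases mem_union.1 hx' with h10 | h10
          · exact h9.1 (mem_inter.1 h10).2
          · exact h9.2 (mem_inter.1 h10).2
        rw [card_union_of_disjoint k2, card_union_of_disjoint k1] at h8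
        have h9 : (G.nb y2 ∩ F).card = G.d y2 F := rfl
        have h10 : (G.nb y2 ∩ G.N F).card = (G.pT F y2).card := rfl
        omega
  have h1 := K.mainI hno
  have h2 := K.nsum
  have h3 := K.cntY
  have hds := K.dsum
  rw [h, hk] at h2
  push_cast at h2
  rw [hTc] at h3
  rw [hTc, hk] at h1
  rw [hk] at hds
  have hds' : 9 ≤ (G.d y1 F : ℤ) + ((G.d y2 F : ℤ) + (G.d y3 F : ℤ)) := by
    rw [hD, sum_insert (by simp [n12, n13]), sum_pair n23] at hds
    linarith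
  have hds2 : 9 ≤ G.d y1 F + (G.d y2 F + G.d y3 F) := by exact_mod_cast hds'
  have t2' : (G.pT F y2).card = 2 := by omega
  have d3 : G.d y3 F = 4 := by omega
  have t3' : (G.pT F y3).card = 1 := by omega
  have p2 : ({y1, y3} : Finset V) = G.pT F y2 := by
    apply eq_of_subset_of_card_le hs2
    rw [t2', card_pair n13]
  have p3 : ({y2} : Finset V) = G.pT F y3 := by
    apply eq_of_subset_of_card_le hs3
    rw [t3', card_singleton]
  have s2 : sg G F y2 = 0 := K.sg0 m2'.2.1 m2'.2.2 (by omega)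
  have s3 : sg G F y3 = 0 := by
    rcases K.sgv m3'.2.1 m3'.2.2 with h5 | ⟨-, -, h5⟩
    · exact h5
    · exfalso
      rcases h5 with ⟨-, a, h6, h7⟩ | ⟨h6, -⟩
      · rw [← p3, singleton_inj] at h6
        rw [← h6] at h7
        exact h7.1 l2
      · omega
  have hS : ∑ y ∈ D G F v, sg G F y = 1 := by
    rw [hD, sum_insert (by simp [n12, n13]), sum_pair n23, hs, s2, s3]
    norm_num
  have hw0 : ∀ y ∈ D G F v, ∀ a ∈ Aa G F v, a ∉ G.nb y := by
    intro y hy a ha hay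
    have ha' := mem_Aa.1 ha
    have h5 : a ∈ G.pT F y := mem_inter.2 ⟨hay, ha'.1⟩
    rw [hD] at hy
    simp only [mem_insert, mem_singleton] at hy
    rcases hy with rfl | rfl | rfl
    · rw [p1, mem_singleton] at h5
      rw [h5] at ha'
      exact ha'.2 m2'.1
    · rw [← p2, mem_insert, mem_singleton] at h5
      rcases h5 with h5 | h5
      · rw [h5] at ha'
        exact ha'.2 m1'.1
      · rw [h5] at ha'
        exact ha'.2 m3'.1
    · rw [← p3, mem_singleton] at h5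
      rw [h5] at ha'
      exact ha'.2 m2'.1
  have Hg : ∀ a b t, G.HL a b t → a ∈ G.N F → b ∈ G.N F → t ∈ Aa G F v → a ∉ G.nb v := by
    intro a b t hHL ha hb ht hav
    have haT : a ∈ G.Tz F v := mem_Tz28.2 ⟨hav, ha⟩
    rw [hT] at haT
    simp only [mem_insert, mem_singleton] at haT
    have hal := HL_not_low76 hHL
    rcases haT with h5 | h5 | h5
    · exact absurd (h5 ▸ l1) hal
    · exact absurd (h5 ▸ l2) hal
    · exact absurd (h5 ▸ l3) hal
  have hA := K.muA hno hw0 Hg (K.Aa3 h)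
  have hTY4 : 4 ≤ ∑ y ∈ D G F v, ((G.nb y ∩ G.Tz F v).card : ℤ) := by
    have hTY : ∀ x, ((G.nb x ∩ G.Tz F v).card : ℤ) = ad G x y1 + (ad G x y2 + ad G x y3) := by
      intro x
      rw [card_sum, hT, sum_insert (by simp [n12, n13]), sum_pair n23]
      rfl
    rw [sum_congr rfl fun y _ => hTY y, hD, sum_insert (by simp [n12, n13]), sum_pair n23,
      ad_self, ad_self, ad_self, ad_comm y2 y1, ad_comm y3 y1, ad_comm y3 y2, ad1 a12, ad1 a23]
    have := (adb (G := G) y1 y3).1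
    linarith
  rw [hS] at h1
  linarith

/-- three lows in `Y`, a path -/
theorem case33 (K : J8c G F v w) (hno : ∀ x ∈ G.N F, ¬ G.IsTw x) (h : G.d v F = 4)
    {y1 y2 y3 : V} (hT : G.Tz F v = {y1, y2, y3}) (n12 : y1 ≠ y2) (n13 : y1 ≠ y3) (n23 : y2 ≠ y3)
    (l1 : G.Low y1) (l2 : G.Low y2) (l3 : G.Low y3) (a12 : y2 ∈ G.nb y1) (a23 : y3 ∈ G.nb y2) :
    32 ≤ ∑ x ∈ G.N F, G.gam5 F x := by
  classical
  have m1 : y1 ∈ G.N F := by
    have : y1 ∈ G.Tz F v := by rw [hT]; simp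
    exact (mem_Tz28.1 this).2
  have m2 : y2 ∈ G.N F := by
    have : y2 ∈ G.Tz F v := by rw [hT]; simp
    exact (mem_Tz28.1 this).2
  have m3 : y3 ∈ G.N F := by
    have : y3 ∈ G.Tz F v := by rw [hT]; simp
    exact (mem_Tz28.1 this).2
  rcases K.sgv m1 l1 with s1 | ⟨s1, -⟩
  swap
  · exact K.case33s hno h hT n12 n13 n23 l1 l2 l3 a12 a23 s1
  rcases K.sgv m3 l3 with s3 | ⟨s3, -⟩
  swap
  · have hT' : G.Tz F v = {y3, y2, y1} := by
      rw [hT]
      ext x
      simp only [mem_insert, mem_singleton]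
      tauto
    exact K.case33s hno h hT' n23.symm n13.symm n12.symm l3 l2 l1 (G.sym _ _ a23) (G.sym _ _ a12)
      s3
  have hD : D G F v = {y1, y2, y3} := by
    ext x
    rw [D, mem_filter, hT]
    simp only [mem_insert, mem_singleton]
    constructor
    · rintro ⟨h1, -⟩
      exact h1
    · intro h1
      refine ⟨h1, ?_⟩
      rcases h1 with h1 | h1 | h1
      · exact h1 ▸ l1
      · exact h1 ▸ l2
      · exact h1 ▸ l3
  have hk : ((D G F v).card : ℤ) = 3 := by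
    rw [hD, card_insert_of_notMem (by simp [n12, n13]), card_pair n23]
    rfl
  have hTc : ((G.Tz F v).card : ℤ) = 3 := by
    rw [hT, card_insert_of_notMem (by simp [n12, n13]), card_pair n23]
    rfl
  have hs2 : ({y1, y3} : Finset V) ⊆ G.pT F y2 := by
    intro x hx
    rw [mem_insert, mem_singleton] at hx
    rcases hx with rfl | rfl
    · exact mem_inter.2 ⟨G.sym _ _ a12, m1⟩
    · exact mem_inter.2 ⟨a23, m3⟩
  have t2 := card_le_card hs2
  rw [card_pair n13] at t2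
  have s2 : sg G F y2 = 0 := K.sg0 m2 l2 (by omega)
  have hS : ∑ y ∈ D G F v, sg G F y = 0 := by
    rw [hD, sum_insert (by simp [n12, n13]), sum_pair n23, s1, s2, s3]
    norm_num
  have hTY4 : 4 ≤ ∑ y ∈ D G F v, ((G.nb y ∩ G.Tz F v).card : ℤ) := by
    have hTY : ∀ x, ((G.nb x ∩ G.Tz F v).card : ℤ) = ad G x y1 + (ad G x y2 + ad G x y3) := by
      intro x
      rw [card_sum, hT, sum_insert (by simp [n12, n13]), sum_pair n23]
      rfl
    rw [sum_congr rfl fun y _ => hTY y, hD, sum_insert (by simp [n12, n13]), sum_pair n23,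
      ad_self, ad_self, ad_self, ad_comm y2 y1, ad_comm y3 y1, ad_comm y3 y2, ad1 a12, ad1 a23]
    have := (adb (G := G) y1 y3).1
    linarith
  have h1 := K.mainI hno
  have h2 := K.nsum
  have h7 := K.muA0 hno
  rw [h, hk] at h2
  push_cast at h2
  rw [hTc, hk, hS] at h1
  linarith

/-- three hubs adjacent to the pair -/
theorem case3 (K : J8c G F v w) (hno : ∀ x ∈ G.N F, ¬ G.IsTw x) (h : G.d v F = 4) :
    32 ≤ ∑ x ∈ G.N F, G.gam5 F x := by
  classical
  have h2 := K.nsum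
  have h3 := K.cntY
  have h4 := K.tb
  have h6 := K.degv
  have hTc : (G.Tz F v).card = 3 := by omega
  have h8 : ((G.Tz F v).card : ℤ) = 3 := by
    rw [hTc]
    rfl
  have h9 := Dle G F v
  rw [h] at h2
  push_cast at h2
  rw [h8] at h3
  have hk : (2 : ℤ) ≤ ((D G F v).card : ℤ) := by linarith
  have hk' : 2 ≤ (D G F v).card := by exact_mod_cast hk
  have hk4 : (D G F v).card = 2 ∨ (D G F v).card = 3 := by omega
  rcases hk4 with hk4 | hk4
  · obtain ⟨y1, y2, n12, hD⟩ := card_eq_two.1 hk4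
    have hg1 : (G.Tz F v \ D G F v).card = 1 := by
      have := card_sdiff_add_card_eq_card (filter_subset (fun x => G.Low x) (G.Tz F v))
      have e : (G.Tz F v).filter (fun x => G.Low x) = D G F v := rfl
      rw [e] at this
      omega
    obtain ⟨g, hg⟩ := card_eq_one.1 hg1
    have hgm : g ∈ G.Tz F v \ D G F v := by rw [hg]; simp
    rw [mem_sdiff] at hgm
    have hgl : ¬ G.Low g := fun h => hgm.2 (mem_filter.2 ⟨hgm.1, h⟩)
    have m1 : y1 ∈ D G F v := by rw [hD]; simp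
    have m2 : y2 ∈ D G F v := by rw [hD]; simp
    have l1 := (mem_filter.1 m1).2
    have l2 := (mem_filter.1 m2).2
    have hgl' : ∀ x, G.Low x → x ≠ g := by
      rintro x hx rfl
      exact hgl hx
    have g1 := hgl' y1 l1
    have g2 := hgl' y2 l2
    have hT : G.Tz F v = {y1, y2, g} := by
      have e : D G F v ⊆ G.Tz F v := filter_subset _ _
      rw [← sdiff_union_of_subset e, hg, hD]
      ext x
      simp only [mem_union, mem_insert, mem_singleton]
      tauto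
    have hTY : ∀ x, ((G.nb x ∩ G.Tz F v).card : ℤ) = ad G x y1 + (ad G x y2 + ad G x g) := by
      intro x
      rw [card_sum, hT, sum_insert (by simp [n12, g1]), sum_pair g2]
      rfl
    have hTs : ∑ y ∈ D G F v, ((G.nb y ∩ G.Tz F v).card : ℤ) =
        2 * ad G y1 y2 + (ad G y1 g + ad G y2 g) := by
      rw [sum_congr rfl fun y _ => hTY y, hD, sum_pair n12, ad_self, ad_self, ad_comm y2 y1]
      ring
    rw [hTs] at h3 h4
    rw [hk4] at h4
    push_cast at h4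
    rcases ad01 (G := G) y1 y2 with a | a
    · exfalso
      linarith [(adb (G := G) y1 g).2, (adb (G := G) y2 g).2, a.1]
    · rcases ad01 (G := G) y1 g with b | b
      · rcases ad01 (G := G) y2 g with c | c
        · exfalso
          linarith [a.1, b.1, c.1]
        · have hT' : G.Tz F v = {y2, y1, g} := by
            rw [hT]
            ext x
            simp only [mem_insert, mem_singleton]
            tauto
          exact K.case32 hno h hT' n12.symm l2 l1 hgl (G.sym _ _ a.2) c.2 b.2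
      · rcases ad01 (G := G) y2 g with c | c
        · exact K.case32 hno h hT n12 l1 l2 hgl a.2 b.2 c.2
        · exfalso
          linarith [a.1, b.1, c.1]
  · have hDT : D G F v = G.Tz F v := eq_of_subset_of_card_le (filter_subset _ _) (by omega)
    obtain ⟨y1, y2, y3, n12, n13, n23, hT⟩ := card_eq_three.1 hTc
    have hl : ∀ y ∈ G.Tz F v, G.Low y := by
      intro y hy
      rw [← hDT] at hy
      exact (mem_filter.1 hy).2
    have l1 : G.Low y1 := hl y1 (by rw [hT]; simp)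
    have l2 : G.Low y2 := hl y2 (by rw [hT]; simp)
    have l3 : G.Low y3 := hl y3 (by rw [hT]; simp)
    have hTY : ∀ x, ((G.nb x ∩ G.Tz F v).card : ℤ) = ad G x y1 + (ad G x y2 + ad G x y3) := by
      intro x
      rw [card_sum, hT, sum_insert (by simp [n12, n13]), sum_pair n23]
      rfl
    have hTs : ∑ y ∈ D G F v, ((G.nb y ∩ G.Tz F v).card : ℤ) =
        2 * (ad G y1 y2 + ad G y1 y3 + ad G y2 y3) := by
      rw [sum_congr rfl fun y _ => hTY y, hDT, hT, sum_insert (by simp [n12, n13]), sum_pair n23,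
        ad_self, ad_self, ad_self, ad_comm y2 y1, ad_comm y3 y1, ad_comm y3 y2]
      ring
    rw [hTs] at h3
    rcases ad01 (G := G) y1 y2 with a | a
    · rcases ad01 (G := G) y1 y3 with b | b
      · exfalso
        linarith [a.1, b.1, (adb (G := G) y2 y3).2]
      · rcases ad01 (G := G) y2 y3 with c | c
        · exfalso
          linarith [a.1, b.1, c.1]
        · -- centre `y3`
          have hT' : G.Tz F v = {y1, y3, y2} := by
            rw [hT]
            ext x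
            simp only [mem_insert, mem_singleton]
            tauto
          exact K.case33 hno h hT' n13 n12 n23.symm l1 l3 l2 b.2 (G.sym _ _ c.2)
    · rcases ad01 (G := G) y2 y3 with c | c
      · rcases ad01 (G := G) y1 y3 with b | b
        · exfalso
          linarith [a.1, b.1, c.1]
        · -- centre `y1`
          have hT' : G.Tz F v = {y2, y1, y3} := by
            rw [hT]
            ext x
            simp only [mem_insert, mem_singleton]
            tauto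
          exact K.case33 hno h hT' n12.symm n23 n13 l2 l1 l3 (G.sym _ _ a.2) b.2
      · exact K.case33 hno h hT n12 n13 n23 l1 l2 l3 a.2 c.2

/-- twins in `N F` -/
theorem caseP (K : J8c G F v w) {p : V} (hp : p ∈ G.N F) (htw : G.IsTw p) :
    32 ≤ ∑ x ∈ G.N F, G.gam5 F x := by
  classical
  obtain ⟨p', d, n1, n2, n3, hA, g1, g2, g3, h⟩ := K.twA hp htw
  have h2 := K.nsum
  have h3 := K.cntY
  have h5 := K.sb
  have h6 := K.degv
  have hTc : ((G.Tz F v).card : ℤ) = 3 := by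
    have : (G.Tz F v).card = 3 := by omega
    rw [this]
    rfl
  rw [h] at h2
  push_cast at h2
  rw [hTc] at h3
  have hds := K.dsum
  have hY : 18 ≤ ∑ x ∈ G.Tz F v, G.gam5 F x := by
    have e1 : 2 * ∑ x ∈ D G F v, Xv G F x ≤ ∑ x ∈ G.Tz F v, G.gam5 F x := by
      rw [mul_sum, D, sum_filter]
      refine sum_le_sum fun x hx => ?_
      have hx' := (mem_Tz28.1 hx).2
      by_cases hl : G.Low x
      · rw [if_pos hl]
        exact K.Xg hx' hl
      · rw [if_neg hl, K.b.hub F K.f x hx' ⟨hl, K.noY hx⟩]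
    have e2 : ∑ x ∈ D G F v, Xv G F x = 2 * ∑ x ∈ D G F v, (G.d x F : ℤ) -
        3 * ((D G F v).card : ℤ) + ∑ x ∈ D G F v, ((G.pT F x).card : ℤ) -
        ∑ y ∈ D G F v, sg G F y := by
      unfold Xv
      rw [sum_sub_distrib, sum_add_distrib, sum_sub_distrib, ← mul_sum, sum_const, nsmul_eq_mul]
      ring
    have e3 : ∑ y ∈ D G F v, ((G.nb y ∩ G.Tz F v).card : ℤ) ≤
        ∑ x ∈ D G F v, ((G.pT F x).card : ℤ) := sum_le_sum fun y _ => TzT
    linarith
  have hs : ∑ x ∈ G.N F \ G.Tz F v, G.gam5 F x + ∑ x ∈ G.Tz F v, G.gam5 F x =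
      ∑ x ∈ G.N F, G.gam5 F x := sum_sdiff inter_subset_right
  rw [hA, sum_insert (by simp [n1, n2]), sum_pair n3] at hs
  linarith

/-- the bound -/
theorem main (K : J8c G F v w) : 32 ≤ ∑ x ∈ G.N F, G.gam5 F x := by
  by_cases hno : ∀ x ∈ G.N F, ¬ G.IsTw x
  · have h1 := K.th1
    have h2 := K.dle K.hv
    have h3 : G.d v F = 2 ∨ G.d v F = 3 ∨ G.d v F = 4 := by omega
    rcases h3 with h3 | h3 | h3
    · exact K.case1 hno h3
    · exact K.case2 hno h3
    · exact K.case3 hno h3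
  · push Not at hno
    obtain ⟨p, hp, htw⟩ := hno
    exact K.caseP hp htw

end J8c

/-- J8 -/
theorem st7HHHQ_28 (G : CG V) (hBas : G.StLBas) (hB : G.StLB) (hCnt : G.StLCnt)
    (h7 : G.St7Bas) : G.St7HHHQ := by
  intro F hF v hv w hw htw hub
  exact J8c.main (K := ⟨hBas, hB, hCnt, h7, hF, hv, hw, htw, hub⟩)

end CG

end Pool.Agent.Lib.MP_e95c01_co.N
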