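import Pool.Agent.Lib.MP_e95c01_co.X.StmtsJ76
import Pool.Agent.Lib.MP_e95c01_co.T.Aux76

/-!
# `λ = 3`, leaves with five vertices: a hub and two pairs of twins (J9)
-/

namespace Pool.Agent.Lib.MP_e95c01_co.N

open Finset

variable {V : Type} [Fintype V] [DecidableEq V]

namespace CG

variable {G : CG V} {F : Finset V} {h v w v' w' : V}

/-- the situation -/
structure Q9 (G : CG V) (F : Finset V) (h v w v' w' : V) : Prop where
  L : G.L5 F
  e : F = {h, v, w, v', w'}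
  hub : G.Hub h
  t1 : G.Tw v w
  t2 : G.Tw v' w'

theorem Q9.symm (q : G.Q9 F h v w v' w') : G.Q9 F h v' w' v w := by
  refine ⟨q.L, ?_, q.hub, q.t2, q.t1⟩
  rw [q.e]
  ext x
  simp only [mem_insert, mem_singleton]
  tauto

theorem Q9.dist (q : G.Q9 F h v w v' w') : h ≠ v ∧ h ≠ w ∧ h ≠ v' ∧ h ≠ w' ∧ v ≠ w ∧ v ≠ v' ∧
    v ≠ w' ∧ w ≠ v' ∧ w ≠ w' ∧ v' ≠ w' := by
  have h5 : ({h, v, w, v', w'} : Finset V).card = 5 := by
    rw [← q.e]
    exact q.L.2
  have a1 : h ∉ ({v, w, v', w'} : Finset V) := by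
    intro a
    rw [insert_eq_of_mem a] at h5
    have := card_le_four (a := v) (b := w) (c := v') (d := w')
    omega
  rw [card_insert_of_notMem a1] at h5
  have a2 : v ∉ ({w, v', w'} : Finset V) := by
    intro a
    rw [insert_eq_of_mem a] at h5
    have := card_le_three (a := w) (b := v') (c := w')
    omega
  rw [card_insert_of_notMem a2] at h5
  have a3 : w ∉ ({v', w'} : Finset V) := by
    intro a
    rw [insert_eq_of_mem a] at h5
    have := card_le_two (a := v') (b := w')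
    omega
  have a4 : v' ≠ w' := ne_of_nb5 q.t2.1
  simp only [mem_insert, mem_singleton, not_or] at a1 a2 a3
  exact ⟨a1.1, a1.2.1, a1.2.2.1, a1.2.2.2, a2.1, a2.2.1, a2.2.2, a3.1, a3.2, a4⟩

theorem Q9.n9 (q : G.Q9 F h v w v' w') : 9 ≤ Fintype.card V := by
  have := q.L.1.n12
  omega

theorem Q9.mh (q : G.Q9 F h v w v' w') : h ∈ F := by rw [q.e]; simp
theorem Q9.mv (q : G.Q9 F h v w v' w') : v ∈ F := by rw [q.e]; simp
theorem Q9.mw (q : G.Q9 F h v w v' w') : w ∈ F := by rw [q.e]; simp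

theorem notF9 {y : V} (hy : y ∈ G.N F) : y ∉ F := (mem_N76.1 hy).1

/-- twins see the same vertices -/
theorem tw_iff9 {v w y : V} (t : G.Tw v w) (h1 : y ≠ v) (h2 : y ≠ w) :
    v ∈ G.nb y ↔ w ∈ G.nb y := by
  constructor
  · intro a
    exact G.sym _ _ (Tw_nb5 t (G.sym _ _ a) h2)
  · intro a
    exact G.sym _ _ (Tw_nb5 (symm_5 t) (G.sym _ _ a) h1)

open Classical in
theorem Q9.dF (q : G.Q9 F h v w v' w') (x : V) : G.d x F =
    (if h ∈ G.nb x then 1 else 0) + ((if v ∈ G.nb x then 1 else 0) +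
    ((if w ∈ G.nb x then 1 else 0) + ((if v' ∈ G.nb x then 1 else 0) +
      (if w' ∈ G.nb x then 1 else 0)))) := by
  obtain ⟨a1, a2, a3, a4, a5, a6, a7, a8, a9, a10⟩ := q.dist
  have h1 : G.nb x ∩ F = F.filter fun y => y ∈ G.nb x := by
    ext y
    rw [mem_inter, mem_filter, and_comm]
  unfold d
  rw [h1, card_filter, q.e, sum_insert, sum_insert, sum_insert, sum_insert, sum_singleton]
  · simp only [mem_singleton]
    exact a10
  · simp only [mem_insert, mem_singleton, not_or]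
    exact ⟨a8, a9⟩
  · simp only [mem_insert, mem_singleton, not_or]
    exact ⟨a5, a6, a7⟩
  · simp only [mem_insert, mem_singleton, not_or]
    exact ⟨a1, a2, a3, a4⟩

open Classical in
/-- outside of `F` -/
theorem Q9.dT (q : G.Q9 F h v w v' w') {y : V} (hy : y ∈ G.N F) : G.d y F =
    (if h ∈ G.nb y then 1 else 0) + 2 * (if v ∈ G.nb y then 1 else 0) +
    2 * (if v' ∈ G.nb y then 1 else 0) := by
  have hyF := notF9 hy
  have e1 : v ∈ G.nb y ↔ w ∈ G.nb y := tw_iff9 q.t1 (fun e => hyF (e ▸ q.mv)) (fun e => hyF (e ▸ q.mw))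
  have e2 : v' ∈ G.nb y ↔ w' ∈ G.nb y :=
    tw_iff9 q.t2 (fun e => hyF (e ▸ q.symm.mv)) (fun e => hyF (e ▸ q.symm.mw))
  rw [q.dF]
  simp only [← e1, ← e2]
  omega

open Classical in
theorem Q9.dv (q : G.Q9 F h v w v' w') : G.d v F =
    1 + (if h ∈ G.nb v then 1 else 0) + 2 * (if v' ∈ G.nb v then 1 else 0) := by
  obtain ⟨a1, a2, a3, a4, a5, a6, a7, a8, a9, a10⟩ := q.dist
  have e2 : v' ∈ G.nb v ↔ w' ∈ G.nb v := tw_iff9 q.t2 a6 a7
  rw [q.dF, if_neg (G.irr v), if_pos q.t1.1]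
  simp only [← e2]
  omega

open Classical in
theorem Q9.dh (q : G.Q9 F h v w v' w') : G.d h F =
    2 * (if v ∈ G.nb h then 1 else 0) + 2 * (if v' ∈ G.nb h then 1 else 0) := by
  obtain ⟨a1, a2, a3, a4, a5, a6, a7, a8, a9, a10⟩ := q.dist
  have e1 : v ∈ G.nb h ↔ w ∈ G.nb h := tw_iff9 q.t1 a1 a2
  have e2 : v' ∈ G.nb h ↔ w' ∈ G.nb h := tw_iff9 q.t2 a3 a4
  rw [q.dF, if_neg (G.irr h)]
  simp only [← e1, ← e2]
  omega

/-- no low vertices in `F` -/
theorem Q9.nolow (q : G.Q9 F h v w v' w') {x : V} (hx : x ∈ F) : ¬ G.Low x := by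
  have tl : ∀ {a b : V}, G.Tw a b → ¬ G.Low a := by
    intro a b t hl
    have h1 := t.2.1
    have h2 : (G.nb a).card = 6 := hl
    omega
  rw [q.e] at hx
  simp only [mem_insert, mem_singleton] at hx
  rcases hx with rfl | rfl | rfl | rfl | rfl
  · exact q.hub.1
  · exact tl q.t1
  · exact tl (symm_5 q.t1)
  · exact tl q.t2
  · exact tl (symm_5 q.t2)

/-- the pairs of twins in `F` -/
theorem Q9.twF (q : G.Q9 F h v w v' w') {p p' : V} (hp : p ∈ F) (t : G.Tw p p') :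
    (p = v ∧ p' = w) ∨ (p = w ∧ p' = v) ∨ (p = v' ∧ p' = w') ∨ (p = w' ∧ p' = v') := by
  have n9 := q.n9
  rw [q.e] at hp
  simp only [mem_insert, mem_singleton] at hp
  rcases hp with rfl | rfl | rfl | rfl | rfl
  · exact absurd ⟨p', t⟩ q.hub.2
  · exact Or.inl ⟨rfl, uniq_5 n9 t q.t1⟩
  · exact Or.inr (Or.inl ⟨rfl, uniq_5 n9 t (symm_5 q.t1)⟩)
  · exact Or.inr (Or.inr (Or.inl ⟨rfl, uniq_5 n9 t q.t2⟩))
  · exact Or.inr (Or.inr (Or.inr ⟨rfl, uniq_5 n9 t (symm_5 q.t2)⟩))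

/-- covers at `v` come from `N F` -/
theorem Q9.cov (q : G.Q9 F h v w v' w') (hBas : G.StLBas) {y : V} (hy : y ∈ F ∪ G.N F)
    (hvy : y ∈ G.nb v) (hno : v' ∈ G.nb v → v' ∉ G.nb y) :
    (∃ a ∈ G.N F, G.Low a ∧ v ∈ G.nb a ∧ y ∈ G.nb a) ∨
    (∃ a ∈ G.N F, ∃ b ∈ G.N F, G.Tw a b ∧ v ∈ G.nb a ∧ v ∈ G.nb b ∧ y ∈ G.nb a ∧ y ∈ G.nb b) ∨
    (∃ a ∈ G.N F, ∃ b ∈ G.N F, G.HL a b y ∧ v ∈ G.nb a ∧ v ∈ G.nb b) := by
  have n9 := q.n9
  rcases q.L.1.cov v q.mv y hy hvy with ⟨a, h1, h2, h3, h4⟩ | ⟨a, h1, b, h2, h3, h4, h5, h6, h7⟩ |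
    ⟨a, b, h1, h2, h3, h4⟩ | ⟨a, b, h1, -⟩ | ⟨a, b, h1, -⟩
  · rcases mem_union.1 h1 with h5 | h5
    · exact absurd h2 (q.nolow h5)
    · exact Or.inl ⟨a, h5, h2, h3, h4⟩
  · right
    left
    rcases mem_union.1 h1 with h8 | h8
    · exfalso
      rcases q.twF h8 h3 with ⟨rfl, rfl⟩ | ⟨rfl, rfl⟩ | ⟨rfl, rfl⟩ | ⟨rfl, rfl⟩
      · exact G.irr _ h4
      · exact G.irr _ h5
      · exact hno (G.sym _ _ h4) (G.sym _ _ h6)
      · exact hno (G.sym _ _ h5) (G.sym _ _ h7)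
    · exact ⟨a, h8, b, (hBas.twT F q.L.1 a b h3).1 h8, h3, h4, h5, h6, h7⟩
  · right
    right
    rcases h4 with ⟨h4, h5⟩ | ⟨h4, h5⟩
    · exact absurd h1.2.1 (q.nolow h5)
    · exact ⟨a, h4, b, h5, h1, h3, h2⟩
  · exact absurd (q.L.1.sat _ _ _ h1) (q.nolow q.mv)
  · exact absurd ⟨_, q.t1⟩ (twLL_5 h1)

/-- the cover of the edge between the two pairs -/
theorem Q9.covQQ (q : G.Q9 F h v w v' w') (hBas : G.StLBas) (hvv : v' ∈ G.nb v) :
    (∃ a ∈ G.N F, G.Low a ∧ v ∈ G.nb a ∧ v' ∈ G.nb a) ∨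
    (∃ a ∈ G.N F, ∃ b ∈ G.N F, G.Tw a b ∧ v ∈ G.nb a ∧ v ∈ G.nb b ∧ v' ∈ G.nb a ∧ v' ∈ G.nb b) := by
  rcases q.cov hBas (mem_union_left _ q.symm.mv) hvv (fun _ => G.irr _) with h1 | h1 |
    ⟨a, h1, b, h2, h3, -⟩
  · exact Or.inl h1
  · exact Or.inr h1
  · exact absurd (q.L.1.sat _ _ _ h3) (q.nolow q.symm.mv)

/-! ### small sets -/

/-- `a` is covered by `z`, `b`, `c` -/
def Cv9 (G : CG V) (z a b c : V) : Prop :=
  z ∈ G.nb a ∨ (G.Low b ∧ b ∈ G.nb a) ∨ (G.Low c ∧ c ∈ G.nb a) ∨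
    (G.Tw b c ∧ b ∈ G.nb a ∧ c ∈ G.nb a) ∨ (G.Low a ∧ (G.Low b ∨ G.Low c))

theorem Cv9.swap {z a b c : V} (h : G.Cv9 z a b c) : G.Cv9 z a c b := by
  rcases h with h | h | h | ⟨h1, h2, h3⟩ | ⟨h1, h2⟩
  · exact Or.inl h
  · exact Or.inr (Or.inr (Or.inl h))
  · exact Or.inr (Or.inl h)
  · exact Or.inr (Or.inr (Or.inr (Or.inl ⟨symm_5 h1, h3, h2⟩)))
  · exact Or.inr (Or.inr (Or.inr (Or.inr ⟨h1, h2.symm⟩)))

theorem tw_nl9 {a b : V} (t : G.Tw a b) : ¬ G.Low a := by
  intro hl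
  have h1 := t.2.1
  have h2 : (G.nb a).card = 6 := hl
  omega

/-- exactly one low vertex -/
theorem one_low9 (L : G.L5 F) (lb : G.StLB) {z a b c : V} (hz : z ∈ G.N F) (ha : a ∈ G.N F)
    (hb : b ∈ G.N F) (hc : c ∈ G.N F) (ab : a ≠ b) (ac : a ≠ c) (bc : b ≠ c) (zb : z ≠ b)
    (zc : z ≠ c) (f : G.d a F = 3)
    (pz : ∀ x ∈ G.N F, ∀ y ∈ G.N F, x ≠ y → x ∈ G.nb z → y ∈ G.nb z → False)
    (c1 : G.Cv9 z a b c) (c2 : G.Cv9 z b a c) (c3 : G.Cv9 z c a b)
    (la : G.Low a) (nb : ¬ G.Low b) (nc : ¬ G.Low c) : 12 ≤ G.gam5 F a := by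
  have h2 : z ∈ G.nb b ∨ a ∈ G.nb b := by
    rcases c2 with h | h | h | h | h
    · exact Or.inl h
    · exact Or.inr h.2
    · exact absurd h.1 nc
    · exact absurd la (tw_nl9 h.1)
    · exact absurd h.1 nb
  have h3 : z ∈ G.nb c ∨ a ∈ G.nb c := by
    rcases c3 with h | h | h | h | h
    · exact Or.inl h
    · exact Or.inr h.2
    · exact absurd h.1 nb
    · exact absurd la (tw_nl9 h.1)
    · exact absurd h.1 nc
  have hlow := lb.low3 F L.1 a ha la f
  by_cases t : G.Tw b c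
  · have e : b ∈ G.nb z ↔ c ∈ G.nb z := tw_iff9 t zb zc
    have k1 : z ∉ G.nb b := by
      intro k
      have k' := G.sym _ _ k
      exact pz b hb c hc bc k' (e.1 k')
    have k2 : z ∉ G.nb c := by
      intro k
      have k' := G.sym _ _ k
      exact pz b hb c hc bc (e.2 k') k'
    have k3 := h2.resolve_left k1
    have k4 := h3.resolve_left k2
    have k5 : {b, c} ⊆ G.pT F a := by
      intro x hx
      rw [mem_insert, mem_singleton] at hx
      rcases hx with rfl | rfl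
      · exact mem_inter.2 ⟨G.sym _ _ k3, hb⟩
      · exact mem_inter.2 ⟨G.sym _ _ k4, hc⟩
    have k6 : G.pT F a = {b, c} :=
      (eq_of_subset_of_card_le k5 (by rw [card_pair bc]; exact hlow.1)).symm
    exact hlow.2.2.2 ⟨b, c, t, k6⟩
  · exfalso
    have k1 : z ∈ G.nb a := by
      rcases c1 with h | h | h | h | h
      · exact h
      · exact absurd h.1 nb
      · exact absurd h.1 nc
      · exact absurd h.1 t
      · exact absurd h.2 (not_or.2 ⟨nb, nc⟩)
    have k1' := G.sym _ _ k1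
    have k3 := h2.resolve_left fun k => pz a ha b hb ab k1' (G.sym _ _ k)
    have k4 := h3.resolve_left fun k => pz a ha c hc ac k1' (G.sym _ _ k)
    have k5 : {z, b, c} ⊆ G.pT F a := by
      intro x hx
      rw [mem_insert, mem_insert, mem_singleton] at hx
      rcases hx with rfl | rfl | rfl
      · exact mem_inter.2 ⟨k1, hz⟩
      · exact mem_inter.2 ⟨G.sym _ _ k3, hb⟩
      · exact mem_inter.2 ⟨G.sym _ _ k4, hc⟩
    have k6 := card_le_card k5
    rw [card_insert_of_notMem, card_pair bc] at k6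
    · omega
    · rw [mem_insert, mem_singleton, not_or]
      exact ⟨zb, zc⟩

theorem three9 (L : G.L5 F) (lb : G.StLB) (b7 : G.St7Bas) {z a b c : V} (hz : z ∈ G.N F)
    (ha : a ∈ G.N F) (hb : b ∈ G.N F) (hc : c ∈ G.N F) (ab : a ≠ b) (ac : a ≠ c) (bc : b ≠ c)
    (za : z ≠ a) (zb : z ≠ b) (zc : z ≠ c) (fa : G.d a F = 3) (fb : G.d b F = 3)
    (fc : G.d c F = 3)
    (pz : ∀ x ∈ G.N F, ∀ y ∈ G.N F, x ≠ y → x ∈ G.nb z → y ∈ G.nb z → False)
    (c1 : G.Cv9 z a b c) (c2 : G.Cv9 z b a c) (c3 : G.Cv9 z c a b) :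
    12 ≤ G.gam5 F a + (G.gam5 F b + G.gam5 F c) := by
  have n9 : 9 ≤ Fintype.card V := by
    have := L.1.n12
    omega
  have na := b7.nn F L a ha
  have nb := b7.nn F L b hb
  have nc := b7.nn F L c hc
  have la : G.Low a → 6 ≤ G.gam5 F a := fun l => (lb.low3 F L.1 a ha l fa).2.1
  have lb' : G.Low b → 6 ≤ G.gam5 F b := fun l => (lb.low3 F L.1 b hb l fb).2.1
  have lc : G.Low c → 6 ≤ G.gam5 F c := fun l => (lb.low3 F L.1 c hc l fc).2.1
  by_cases hla : G.Low a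
  · have k1 := la hla
    by_cases hlb : G.Low b
    · have k2 := lb' hlb
      omega
    · by_cases hlc : G.Low c
      · have k2 := lc hlc
        omega
      · have := one_low9 L lb hz ha hb hc ab ac bc zb zc fa pz c1 c2 c3 hla hlb hlc
        omega
  · by_cases hlb : G.Low b
    · have k1 := lb' hlb
      by_cases hlc : G.Low c
      · have k2 := lc hlc
        omega
      · have := one_low9 L lb hz hb ha hc ab.symm bc ac za zc fb pz c2 c1 c3.swap hlb hla hlc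
        omega
    · by_cases hlc : G.Low c
      · have := one_low9 L lb hz hc ha hb ac.symm bc.symm ab za zb fc pz c3 c1.swap c2.swap
          hlc hla hlb
        omega
      · exfalso
        have h1 : z ∈ G.nb a ∨ G.Tw b c := by
          rcases c1 with h | h | h | h | h
          · exact Or.inl h
          · exact absurd h.1 hlb
          · exact absurd h.1 hlc
          · exact Or.inr h.1
          · exact absurd h.1 hla
        have h2 : z ∈ G.nb b ∨ G.Tw a c := by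
          rcases c2 with h | h | h | h | h
          · exact Or.inl h
          · exact absurd h.1 hla
          · exact absurd h.1 hlc
          · exact Or.inr h.1
          · exact absurd h.1 hlb
        have h3 : z ∈ G.nb c ∨ G.Tw a b := by
          rcases c3 with h | h | h | h | h
          · exact Or.inl h
          · exact absurd h.1 hla
          · exact absurd h.1 hlb
          · exact Or.inr h.1
          · exact absurd h.1 hlc
        rcases h1 with h1 | h1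
        · rcases h2 with h2 | h2
          · exact pz a ha b hb ab (G.sym _ _ h1) (G.sym _ _ h2)
          · rcases h3 with h3 | h3
            · exact pz a ha c hc ac (G.sym _ _ h1) (G.sym _ _ h3)
            · exact bc (uniq_5 n9 h3 h2)
        · rcases h2 with h2 | h2
          · rcases h3 with h3 | h3
            · exact pz b hb c hc bc (G.sym _ _ h2) (G.sym _ _ h3)
            · exact ac (uniq_5 n9 (symm_5 h3) h1)
          · exact ab (uniq_5 n9 (symm_5 h2) (symm_5 h1))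

/-- one vertex with two neighbours in `F`, `z` without neighbours in `N F` -/
theorem three9' (L : G.L5 F) (lb : G.StLB) (b7 : G.St7Bas) {z a b c x : V}
    (ha : a ∈ G.N F) (hb : b ∈ G.N F) (hc : c ∈ G.N F) (bc : b ≠ c)
    (fa : G.d a F = 2) (fb : G.d b F = 3) (fc : G.d c F = 3)
    (hx : x ∈ F) (xa : x ∉ G.nb a) (xb : x ∈ G.nb b) (xc : x ∈ G.nb c)
    (pz : ∀ x ∈ G.N F, x ∉ G.nb z)
    (c2 : G.Cv9 z b a c) (c3 : G.Cv9 z c a b) :
    6 ≤ G.gam5 F a + (G.gam5 F b + G.gam5 F c) := by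
  have na := b7.nn F L a ha
  have nb := b7.nn F L b hb
  have nc := b7.nn F L c hc
  have lb' : G.Low b → 6 ≤ G.gam5 F b := fun l => (lb.low3 F L.1 b hb l fb).2.1
  have lc : G.Low c → 6 ≤ G.gam5 F c := fun l => (lb.low3 F L.1 c hc l fc).2.1
  have hxa : x ≠ a := by
    rintro rfl
    exact notF9 ha hx
  by_cases hlb : G.Low b
  · have := lb' hlb
    omega
  by_cases hlc : G.Low c
  · have := lc hlc
    omega
  have h2 : G.Low a ∧ a ∈ G.nb b := by
    rcases c2 with h | h | h | h | h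
    · exact absurd (G.sym _ _ h) (pz b hb)
    · exact h
    · exact absurd h.1 hlc
    · exact absurd (Tw_nb5 (symm_5 h.1) xc hxa) xa
    · exact absurd h.1 hlb
  have h3 : a ∈ G.nb c := by
    rcases c3 with h | h | h | h | h
    · exact absurd (G.sym _ _ h) (pz c hc)
    · exact h.2
    · exact absurd h.1 hlb
    · exact absurd (Tw_nb5 (symm_5 h.1) xb hxa) xa
    · exact absurd h.1 hlc
  have k5 : {b, c} ⊆ G.pT F a := by
    intro x hx
    rw [mem_insert, mem_singleton] at hx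
    rcases hx with rfl | rfl
    · exact mem_inter.2 ⟨G.sym _ _ h2.2, hb⟩
    · exact mem_inter.2 ⟨G.sym _ _ h3, hc⟩
  have k6 := card_le_card k5
  rw [card_pair bc] at k6
  rcases (lb.low2 F L.1 a ha h2.1 fa).2.1 with k | ⟨-, -, -, k⟩
  · omega
  · have := (k b (k5 (by simp))).1
    omega

theorem two9 (L : G.L5 F) (lb : G.StLB) (b7 : G.St7Bas) {z a b : V} (hz : z ∈ G.N F)
    (ha : a ∈ G.N F) (hb : b ∈ G.N F) (ab : a ≠ b) (za : z ≠ a) (zb : z ≠ b)
    (fa : G.d a F = 3) (fb : G.d b F = 3)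
    (pz : ∀ x ∈ G.N F, ∀ y ∈ G.N F, x ≠ y → x ∈ G.nb z → y ∈ G.nb z → False)
    (c1 : z ∈ G.nb a ∨ (G.Low b ∧ b ∈ G.nb a)) (c2 : z ∈ G.nb b ∨ (G.Low a ∧ a ∈ G.nb b)) :
    10 ≤ G.gam5 F a + G.gam5 F b := by
  have key : ∀ {a b : V}, a ∈ G.N F → b ∈ G.N F → a ≠ b → z ≠ b → G.d a F = 3 →
      G.Low a → ¬ G.Low b → (z ∈ G.nb a ∨ (G.Low b ∧ b ∈ G.nb a)) →
      (z ∈ G.nb b ∨ (G.Low a ∧ a ∈ G.nb b)) → 10 ≤ G.gam5 F a := by
    intro a b ha hb ab zb fa la lb' c1 c2
    have k1 := c1.resolve_right fun k => lb' k.1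
    have k2 := (c2.resolve_left fun k => pz a ha b hb ab (G.sym _ _ k1) (G.sym _ _ k)).2
    have k5 : {z, b} ⊆ G.pT F a := by
      intro x hx
      rw [mem_insert, mem_singleton] at hx
      rcases hx with rfl | rfl
      · exact mem_inter.2 ⟨k1, hz⟩
      · exact mem_inter.2 ⟨G.sym _ _ k2, hb⟩
    have k6 := card_le_card k5
    rw [card_pair zb] at k6
    have hl := lb.low3 F L.1 a ha la fa
    rcases hl.2.2.1 with k | ⟨v, -, -, -, k, -⟩
    · omega
    · rw [k, card_singleton] at k6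
      omega
  have na := b7.nn F L a ha
  have nb := b7.nn F L b hb
  have la : G.Low a → 6 ≤ G.gam5 F a := fun l => (lb.low3 F L.1 a ha l fa).2.1
  have lb' : G.Low b → 6 ≤ G.gam5 F b := fun l => (lb.low3 F L.1 b hb l fb).2.1
  by_cases hla : G.Low a
  · have k1 := la hla
    by_cases hlb : G.Low b
    · have k2 := lb' hlb
      omega
    · have := key ha hb ab zb fa hla hlb c1 c2
      omega
  · by_cases hlb : G.Low b
    · have := key hb ha ab.symm za fb hlb hla c2 c1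
      omega
    · exfalso
      have k1 := c1.resolve_right fun k => hlb k.1
      have k2 := c2.resolve_right fun k => hla k.1
      exact pz a ha b hb ab (G.sym _ _ k1) (G.sym _ _ k2)

/-! ### the parts of `N F` -/

theorem mem_Tz9 {z y : V} : y ∈ G.Tz F z ↔ y ∈ G.nb z ∧ y ∈ G.N F := mem_inter

/-- vertices of `N F` not adjacent to `z` -/
def Ms (G : CG V) (F : Finset V) (z : V) : Finset V := G.N F \ G.Tz F z

theorem mem_Ms9 {z y : V} : y ∈ G.Ms F z ↔ y ∈ G.N F ∧ z ∉ G.nb y := by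
  unfold Ms
  rw [mem_sdiff, mem_Tz9]
  constructor
  · rintro ⟨h1, h2⟩
    exact ⟨h1, fun h3 => h2 ⟨G.sym _ _ h3, h1⟩⟩
  · rintro ⟨h1, h2⟩
    exact ⟨h1, fun h3 => h2 (G.sym _ _ h3.1)⟩

/-- vertices of `N F` adjacent to both pairs -/
def Bt (G : CG V) (F : Finset V) (v v' : V) : Finset V := G.Tz F v ∩ G.Tz F v'

theorem mem_Bt9 {v v' y : V} : y ∈ G.Bt F v v' ↔ y ∈ G.N F ∧ v ∈ G.nb y ∧ v' ∈ G.nb y := by
  unfold Bt
  rw [mem_inter, mem_Tz9, mem_Tz9]
  constructor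
  · rintro ⟨⟨h1, h2⟩, h3, -⟩
    exact ⟨h2, G.sym _ _ h1, G.sym _ _ h3⟩
  · rintro ⟨h1, h2, h3⟩
    exact ⟨⟨G.sym _ _ h2, h1⟩, G.sym _ _ h3, h1⟩

theorem Q9.cMs (q : G.Q9 F h v w v' w') (hBas : G.StLBas) {x : V} (hx : x ∈ F) :
    (G.Ms F x).card + (G.nb x).card = 6 + G.d x F := by
  have h1 := hBas.deg F q.L.1 x hx
  have h2 : (G.Tz F x) ⊆ G.N F := inter_subset_right
  have h3 := card_sdiff_add_card_eq_card h2
  have h4 := q.L.1.big.1.2.1
  unfold Ms
  omega

theorem Q9.not_both (q : G.Q9 F h v w v' w') (hBas : G.StLBas) {y : V} (hy : y ∈ G.N F) :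
    v ∈ G.nb y ∨ v' ∈ G.nb y := by
  classical
  by_contra hc
  rw [not_or] at hc
  have h1 := hBas.pos F q.L.1 y hy
  rw [q.dT hy, if_neg hc.1, if_neg hc.2] at h1
  split_ifs at h1 <;> omega

theorem Q9.part (q : G.Q9 F h v w v' w') (hBas : G.StLBas) :
    G.N F = G.Ms F v ∪ (G.Ms F v' ∪ G.Bt F v v') ∧ Disjoint (G.Ms F v) (G.Ms F v' ∪ G.Bt F v v') ∧
      Disjoint (G.Ms F v') (G.Bt F v v') := by
  refine ⟨?_, ?_, ?_⟩
  · ext y
    rw [mem_union, mem_union, mem_Ms9, mem_Ms9, mem_Bt9]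
    constructor
    · intro hy
      by_cases h1 : v ∈ G.nb y
      · by_cases h2 : v' ∈ G.nb y
        · exact Or.inr (Or.inr ⟨hy, h1, h2⟩)
        · exact Or.inr (Or.inl ⟨hy, h2⟩)
      · exact Or.inl ⟨hy, h1⟩
    · rintro (h1 | h1 | h1) <;> exact h1.1
  · rw [disjoint_left]
    intro y h1 h2
    rw [mem_Ms9] at h1
    rw [mem_union, mem_Ms9, mem_Bt9] at h2
    rcases h2 with h2 | h2
    · rcases q.not_both hBas h1.1 with h3 | h3
      · exact h1.2 h3
      · exact h2.2 h3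
    · exact h1.2 h2.2.1
  · rw [disjoint_left]
    intro y h1 h2
    rw [mem_Ms9] at h1
    rw [mem_Bt9] at h2
    exact h1.2 h2.2.2

theorem Q9.sum (q : G.Q9 F h v w v' w') (hBas : G.StLBas) (f : V → ℤ) :
    ∑ y ∈ G.N F, f y = ∑ y ∈ G.Ms F v, f y + (∑ y ∈ G.Ms F v', f y + ∑ y ∈ G.Bt F v v', f y) := by
  obtain ⟨h1, h2, h3⟩ := q.part hBas
  rw [h1, sum_union h2, sum_union h3]

theorem Q9.card (q : G.Q9 F h v w v' w') (hBas : G.StLBas) :
    6 = (G.Ms F v).card + ((G.Ms F v').card + (G.Bt F v v').card) := by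
  obtain ⟨h1, h2, h3⟩ := q.part hBas
  have h4 := q.L.1.big.1.2.1
  rw [h1, card_union_of_disjoint h2, card_union_of_disjoint h3] at h4
  omega

theorem Q9.hub7 (q : G.Q9 F h v w v' w') : 7 ≤ (G.nb h).card := by
  have h1 := G.deg h
  have h2 : ¬ (G.nb h).card = 6 := q.hub.1
  omega

/-! ### `h ~ Q1 ~ Q2`, `h` not adjacent to `Q2` -/

theorem Q9.caseC (q : G.Q9 F h v w v' w') (hBas : G.StLBas) (lb : G.StLB) (b7 : G.St7Bas)
    (a1 : h ∈ G.nb v) (a2 : v' ∈ G.nb v) (a3 : h ∉ G.nb v') :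
    32 ≤ ∑ y ∈ G.N F, G.gam5 F y := by
  classical
  have n9 := q.n9
  have cV : (G.Ms F v).card = 3 := by
    have h1 := q.cMs hBas q.mv
    rw [q.dv, if_pos a1, if_pos a2, q.t1.2.1] at h1
    omega
  have cV' : (G.Ms F v').card = 2 := by
    have h1 := q.symm.cMs hBas q.symm.mv
    rw [q.symm.dv, if_neg a3, if_pos (G.sym _ _ a2), q.t2.2.1] at h1
    omega
  have cB : (G.Bt F v v').card = 1 := by
    have h1 := q.card hBas
    omega
  have cH : (G.Ms F h).card ≤ 1 := by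
    have h1 := q.cMs hBas q.mh
    have h2 := q.hub7
    rw [q.dh, if_pos (G.sym _ _ a1), if_neg fun k => a3 (G.sym _ _ k)] at h1
    omega
  obtain ⟨z, hz⟩ := card_eq_one.1 cB
  obtain ⟨y1, y2, yne, hy⟩ := card_eq_two.1 cV'
  obtain ⟨u1, u2, u3, u12, u13, u23, hu⟩ := card_eq_three.1 cV
  have mz : z ∈ G.N F ∧ v ∈ G.nb z ∧ v' ∈ G.nb z := by
    rw [← mem_Bt9, hz]
    exact mem_singleton_self _
  have zU : ∀ y, y ∈ G.N F → v ∈ G.nb y → v' ∈ G.nb y → y = z := by
    intro y k1 k2 k3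
    have : y ∈ G.Bt F v v' := mem_Bt9.2 ⟨k1, k2, k3⟩
    rw [hz, mem_singleton] at this
    exact this
  -- members
  have my1 : y1 ∈ G.N F ∧ v' ∉ G.nb y1 := by
    rw [← mem_Ms9, hy]
    simp
  have my2 : y2 ∈ G.N F ∧ v' ∉ G.nb y2 := by
    rw [← mem_Ms9, hy]
    simp
  have mu1 : u1 ∈ G.N F ∧ v ∉ G.nb u1 := by
    rw [← mem_Ms9, hu]
    simp
  have mu2 : u2 ∈ G.N F ∧ v ∉ G.nb u2 := by
    rw [← mem_Ms9, hu]
    simp
  have mu3 : u3 ∈ G.N F ∧ v ∉ G.nb u3 := by
    rw [← mem_Ms9, hu]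
    simp
  have vy : ∀ {y}, y ∈ G.N F ∧ v' ∉ G.nb y → v ∈ G.nb y := fun k =>
    (q.not_both hBas k.1).resolve_right k.2
  have vu : ∀ {y}, y ∈ G.N F ∧ v ∉ G.nb y → v' ∈ G.nb y := fun k =>
    (q.not_both hBas k.1).resolve_left k.2
  have zy : ∀ {y}, y ∈ G.N F ∧ v' ∉ G.nb y → z ≠ y := fun k e => k.2 (e ▸ mz.2.2)
  have zu : ∀ {y}, y ∈ G.N F ∧ v ∉ G.nb y → z ≠ y := fun k e => k.2 (e ▸ mz.2.1)
  have dy : ∀ {y}, y ∈ G.N F ∧ v' ∉ G.nb y → (h ∈ G.nb y → G.d y F = 3) ∧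
      (h ∉ G.nb y → G.d y F = 2) := by
    intro y k
    constructor
    · intro k1
      rw [q.dT k.1, if_pos k1, if_pos (vy k), if_neg k.2]
    · intro k1
      rw [q.dT k.1, if_neg k1, if_pos (vy k), if_neg k.2]
  have du : ∀ {y}, y ∈ G.N F ∧ v ∉ G.nb y → (h ∈ G.nb y → G.d y F = 3) ∧
      (h ∉ G.nb y → G.d y F = 2) := by
    intro y k
    constructor
    · intro k1
      rw [q.dT k.1, if_pos k1, if_neg k.2, if_pos (vu k)]
    · intro k1
      rw [q.dT k.1, if_neg k1, if_neg k.2, if_pos (vu k)]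
  have uH : ∀ {x y}, x ∈ G.N F → y ∈ G.N F → h ∉ G.nb x → h ∉ G.nb y → x = y := by
    intro x y k1 k2 k3 k4
    exact card_le_one.1 cH x (mem_Ms9.2 ⟨k1, k3⟩) y (mem_Ms9.2 ⟨k2, k4⟩)
  -- `z` is low
  have zl : G.Low z := by
    rcases q.covQQ hBas a2 with ⟨a, k1, k2, k3, k4⟩ | ⟨a, k1, b, k2, k3, k4, k5, k6, k7⟩
    · rw [← zU a k1 k3 k4]
      exact k2
    · exfalso
      exact ne_of_nb5 k3.1 ((zU a k1 k4 k6).trans (zU b k2 k5 k7).symm)
  have pT1 : (G.pT F z).card ≤ 1 := by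
    by_cases k : h ∈ G.nb z
    · have k1 : 5 ≤ G.d z F := by
        rw [q.dT mz.1, if_pos k, if_pos mz.2.1, if_pos mz.2.2]
      rw [(lb.low5 F q.L.1 z mz.1 zl k1).2.1]
      simp
    · have k1 : G.d z F = 4 := by
        rw [q.dT mz.1, if_neg k, if_pos mz.2.1, if_pos mz.2.2]
      exact (lb.low4 F q.L.1 z mz.1 zl k1).1
  have pz : ∀ x ∈ G.N F, ∀ y ∈ G.N F, x ≠ y → x ∈ G.nb z → y ∈ G.nb z → False := by
    intro x k1 y k2 k3 k4 k5
    exact k3 (card_le_one.1 pT1 x (mem_inter.2 ⟨k4, k1⟩) y (mem_inter.2 ⟨k5, k2⟩))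
  have pe : h ∈ G.nb z → ∀ x ∈ G.N F, x ∉ G.nb z := by
    intro k x k1 k2
    have k3 : 5 ≤ G.d z F := by
      rw [q.dT mz.1, if_pos k, if_pos mz.2.1, if_pos mz.2.2]
    have k4 : x ∈ G.pT F z := mem_inter.2 ⟨k2, k1⟩
    rw [(lb.low5 F q.L.1 z mz.1 zl k3).2.1] at k4
    exact absurd k4 (notMem_empty _)
  -- no `HL` with `z`
  have hE : ∀ {a b y}, a ∈ G.N F → b ∈ G.N F → y ∈ G.N F → G.HL a b y → a ≠ z ∧ b ≠ z := by
    intro a b y k1 k2 k3 k4
    refine ⟨fun e => HL_not_low76 k4 (e ▸ zl), fun e => ?_⟩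
    by_cases k : h ∈ G.nb z
    · refine pe k a k1 ?_
      rw [← e]
      exact G.sym _ _ (HL_b76 k4)
    · have k5 : a ≠ z := fun e => HL_not_low76 k4 (e ▸ zl)
      have k6 : h ∈ G.nb a := by
        by_contra k7
        exact k5 (uH k1 mz.1 k7 k)
      have k7 : h ≠ y := by
        rintro rfl
        exact notF9 k3 q.mh
      rcases HL_sup76 k4 k6 k7 with k8 | k8
      · exact notF9 k2 (k8 ▸ q.mh)
      · exact k (e ▸ k8)
  -- covers at `v`
  have cy : ∀ {y x}, (y ∈ G.N F ∧ v' ∉ G.nb y) → (x ∈ G.N F ∧ v' ∉ G.nb x) →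
      (∀ a, a ∈ G.N F → v ∈ G.nb a → a = z ∨ a = y ∨ a = x) →
      z ∈ G.nb y ∨ (G.Low x ∧ x ∈ G.nb y) := by
    intro y x ky kx hall
    rcases q.cov hBas (mem_union_right _ ky.1) (G.sym _ _ (vy ky)) (fun _ => ky.2) with
      ⟨a, k1, k2, k3, k4⟩ | ⟨a, k1, b, k2, k3, k4, k5, k6, k7⟩ | ⟨a, k1, b, k2, k3, k4, k5⟩
    · rcases hall a k1 k3 with e | e | e
      · exact Or.inl (G.sym _ _ (e ▸ k4))
      · exact absurd (e ▸ k4) (G.irr _)
      · exact Or.inr ⟨e ▸ k2, G.sym _ _ (e ▸ k4)⟩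
    · exfalso
      have e1 : a = x := by
        rcases hall a k1 k4 with e | e | e
        · exact absurd zl (e ▸ tw_nl9 k3)
        · exact absurd (e ▸ k6) (G.irr _)
        · exact e
      have e2 : b = x := by
        rcases hall b k2 k5 with e | e | e
        · exact absurd zl (e ▸ tw_nl9 (symm_5 k3))
        · exact absurd (e ▸ k7) (G.irr _)
        · exact e
      exact ne_of_nb5 k3.1 (e1.trans e2.symm)
    · exfalso
      obtain ⟨n1, n2⟩ := hE k1 k2 ky.1 k3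
      have e1 : a = x := by
        rcases hall a k1 k4 with e | e | e
        · exact absurd e n1
        · exact absurd (e ▸ HL_t76 k3) (G.irr _)
        · exact e
      have e2 : b = x := by
        rcases hall b k2 k5 with e | e | e
        · exact absurd e n2
        · exact absurd e.symm (HL_bt76 k3).2
        · exact e
      exact ne_of_nb5 (HL_b76 k3) (e1.trans e2.symm)
  have hally : ∀ a, a ∈ G.N F → v ∈ G.nb a → a = z ∨ a = y1 ∨ a = y2 := by
    intro a k1 k2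
    by_cases k3 : v' ∈ G.nb a
    · exact Or.inl (zU a k1 k2 k3)
    · have k4 : a ∈ G.Ms F v' := mem_Ms9.2 ⟨k1, k3⟩
      rw [hy, mem_insert, mem_singleton] at k4
      exact Or.inr k4
  have c1 := cy my1 my2 hally
  have c2 := cy my2 my1 fun a k1 k2 => by
    rcases hally a k1 k2 with k | k | k
    · exact Or.inl k
    · exact Or.inr (Or.inr k)
    · exact Or.inr (Or.inl k)
  -- covers at `v'`
  have cu : ∀ {y x x'}, (y ∈ G.N F ∧ v ∉ G.nb y) → (x ∈ G.N F ∧ v ∉ G.nb x) →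
      (x' ∈ G.N F ∧ v ∉ G.nb x') →
      (∀ a, a ∈ G.N F → v' ∈ G.nb a → a = z ∨ a = y ∨ a = x ∨ a = x') →
      G.Cv9 z y x x' := by
    intro y x x' ky kx kx' hall
    rcases q.symm.cov hBas (mem_union_right _ ky.1) (G.sym _ _ (vu ky)) (fun _ => ky.2) with
      ⟨a, k1, k2, k3, k4⟩ | ⟨a, k1, b, k2, k3, k4, k5, k6, k7⟩ | ⟨a, k1, b, k2, k3, k4, k5⟩
    · rcases hall a k1 k3 with e | e | e | e
      · exact Or.inl (G.sym _ _ (e ▸ k4))
      · exact absurd (e ▸ k4) (G.irr _)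
      · exact Or.inr (Or.inl ⟨e ▸ k2, G.sym _ _ (e ▸ k4)⟩)
      · exact Or.inr (Or.inr (Or.inl ⟨e ▸ k2, G.sym _ _ (e ▸ k4)⟩))
    · have e1 : a = x ∨ a = x' := by
        rcases hall a k1 k4 with e | e | e
        · exact absurd zl (e ▸ tw_nl9 k3)
        · exact absurd (e ▸ k6) (G.irr _)
        · exact e
      have e2 : b = x ∨ b = x' := by
        rcases hall b k2 k5 with e | e | e
        · exact absurd zl (e ▸ tw_nl9 (symm_5 k3))
        · exact absurd (e ▸ k7) (G.irr _)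
        · exact e
      have e3 := ne_of_nb5 k3.1
      rcases e1 with rfl | rfl
      · rcases e2 with rfl | rfl
        · exact absurd rfl e3
        · exact Or.inr (Or.inr (Or.inr (Or.inl ⟨k3, G.sym _ _ k6, G.sym _ _ k7⟩)))
      · rcases e2 with rfl | rfl
        · exact Or.inr (Or.inr (Or.inr (Or.inl ⟨symm_5 k3, G.sym _ _ k7, G.sym _ _ k6⟩)))
        · exact absurd rfl e3
    · obtain ⟨n1, n2⟩ := hE k1 k2 ky.1 k3
      refine Or.inr (Or.inr (Or.inr (Or.inr ⟨q.L.1.sat _ _ _ k3, ?_⟩)))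
      rcases hall b k2 k5 with e | e | e | e
      · exact absurd e n2
      · exact absurd e.symm (HL_bt76 k3).2
      · exact Or.inl (e ▸ k3.2.1)
      · exact Or.inr (e ▸ k3.2.1)
  have hallu : ∀ a, a ∈ G.N F → v' ∈ G.nb a → a = z ∨ a = u1 ∨ a = u2 ∨ a = u3 := by
    intro a k1 k2
    by_cases k3 : v ∈ G.nb a
    · exact Or.inl (zU a k1 k3 k2)
    · have k4 : a ∈ G.Ms F v := mem_Ms9.2 ⟨k1, k3⟩
      rw [hu, mem_insert, mem_insert, mem_singleton] at k4
      exact Or.inr k4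
  have e1 := cu mu1 mu2 mu3 hallu
  have e2 := cu mu2 mu1 mu3 fun a k1 k2 => by
    rcases hallu a k1 k2 with k | k | k | k
    · exact Or.inl k
    · exact Or.inr (Or.inr (Or.inl k))
    · exact Or.inr (Or.inl k)
    · exact Or.inr (Or.inr (Or.inr k))
  have e3 := cu mu3 mu1 mu2 fun a k1 k2 => by
    rcases hallu a k1 k2 with k | k | k | k
    · exact Or.inl k
    · exact Or.inr (Or.inr (Or.inl k))
    · exact Or.inr (Or.inr (Or.inr k))
    · exact Or.inr (Or.inl k)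
  -- the sum
  rw [q.sum hBas, hu, hy, hz, sum_insert, sum_insert, sum_singleton, sum_pair yne, sum_singleton]
  · have three : h ∈ G.nb u1 → h ∈ G.nb u2 → h ∈ G.nb u3 →
        12 ≤ G.gam5 F u1 + (G.gam5 F u2 + G.gam5 F u3) := fun k1 k2 k3 =>
      three9 q.L lb b7 mz.1 mu1.1 mu2.1 mu3.1 u12 u13 u23 (zu mu1) (zu mu2) (zu mu3)
        ((du mu1).1 k1) ((du mu2).1 k2) ((du mu3).1 k3) pz e1 e2 e3
    by_cases k : h ∈ G.nb z
    · have k5 : 5 ≤ G.d z F := by
        rw [q.dT mz.1, if_pos k, if_pos mz.2.1, if_pos mz.2.2]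
      have gz := (lb.low5 F q.L.1 z mz.1 zl k5).2.2
      have ly2 : G.Low y2 := by
        rcases c1 with c | c
        · exact absurd (G.sym _ _ c) (pe k _ my1.1)
        · exact c.1
      have ly1 : G.Low y1 := by
        rcases c2 with c | c
        · exact absurd (G.sym _ _ c) (pe k _ my2.1)
        · exact c.1
      have n1 := b7.nn F q.L y1 my1.1
      have n2 := b7.nn F q.L y2 my2.1
      have g1 : h ∈ G.nb y1 → 6 ≤ G.gam5 F y1 := fun k =>
        (lb.low3 F q.L.1 y1 my1.1 ly1 ((dy my1).1 k)).2.1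
      have g2 : h ∈ G.nb y2 → 6 ≤ G.gam5 F y2 := fun k =>
        (lb.low3 F q.L.1 y2 my2.1 ly2 ((dy my2).1 k)).2.1
      by_cases m1 : h ∈ G.nb u1
      · by_cases m2 : h ∈ G.nb u2
        · by_cases m3 : h ∈ G.nb u3
          · have t := three m1 m2 m3
            by_cases p1 : h ∈ G.nb y1
            · have := g1 p1
              omega
            · by_cases p2 : h ∈ G.nb y2
              · have := g2 p2
                omega
              · exact absurd (uH my1.1 my2.1 p1 p2) yne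
          · have t := three9' q.L lb b7 mu3.1 mu1.1 mu2.1 u12 ((du mu3).2 m3) ((du mu1).1 m1)
              ((du mu2).1 m2) q.mh m3 m1 m2 (pe k) e1.swap e2.swap
            have p1 : h ∈ G.nb y1 := by
              by_contra p
              exact mu3.2 ((uH my1.1 mu3.1 p m3) ▸ vy my1)
            have p2 : h ∈ G.nb y2 := by
              by_contra p
              exact mu3.2 ((uH my2.1 mu3.1 p m3) ▸ vy my2)
            have := g1 p1
            have := g2 p2
            omega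
        · have m3 : h ∈ G.nb u3 := by
            by_contra p
            exact u23 (uH mu2.1 mu3.1 m2 p)
          have t := three9' q.L lb b7 mu2.1 mu1.1 mu3.1 u13 ((du mu2).2 m2) ((du mu1).1 m1)
            ((du mu3).1 m3) q.mh m2 m1 m3 (pe k) e1 e3.swap
          have p1 : h ∈ G.nb y1 := by
            by_contra p
            exact mu2.2 ((uH my1.1 mu2.1 p m2) ▸ vy my1)
          have p2 : h ∈ G.nb y2 := by
            by_contra p
            exact mu2.2 ((uH my2.1 mu2.1 p m2) ▸ vy my2)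
          have := g1 p1
          have := g2 p2
          omega
      · have m2 : h ∈ G.nb u2 := by
          by_contra p
          exact u12 (uH mu1.1 mu2.1 m1 p)
        have m3 : h ∈ G.nb u3 := by
          by_contra p
          exact u13 (uH mu1.1 mu3.1 m1 p)
        have t := three9' q.L lb b7 mu1.1 mu2.1 mu3.1 u23 ((du mu1).2 m1) ((du mu2).1 m2)
          ((du mu3).1 m3) q.mh m1 m2 m3 (pe k) e2 e3
        have p1 : h ∈ G.nb y1 := by
          by_contra p
          exact mu1.2 ((uH my1.1 mu1.1 p m1) ▸ vy my1)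
        have p2 : h ∈ G.nb y2 := by
          by_contra p
          exact mu1.2 ((uH my2.1 mu1.1 p m1) ▸ vy my2)
        have := g1 p1
        have := g2 p2
        omega
    · have k5 : G.d z F = 4 := by
        rw [q.dT mz.1, if_neg k, if_pos mz.2.1, if_pos mz.2.2]
      have gz := (lb.low4 F q.L.1 z mz.1 zl k5).2.1
      have all : ∀ {y}, y ∈ G.N F → z ≠ y → h ∈ G.nb y := by
        intro y p1 p2
        by_contra p
        exact p2 (uH mz.1 p1 k p)
      have t := three (all mu1.1 (zu mu1)) (all mu2.1 (zu mu2)) (all mu3.1 (zu mu3))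
      have s := two9 q.L lb b7 mz.1 my1.1 my2.1 yne (zy my1) (zy my2)
        ((dy my1).1 (all my1.1 (zy my1))) ((dy my2).1 (all my2.1 (zy my2))) pz c1 c2
      omega
  · rw [mem_singleton]
    exact u23
  · rw [mem_insert, mem_singleton, not_or]
    exact ⟨u12, u13⟩

/-! ### `Q1` and `Q2` not adjacent -/

/-- the contribution of a vertex to the counting lemma -/
noncomputable def f9 (G : CG V) (F : Finset V) (y : V) : ℤ :=
  G.wt3 G.Tw y * ((G.tT G.Tw F y).card : ℤ)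

theorem tT_le9 (y : V) : (G.tT G.Tw F y).card ≤ (G.pT F y).card := by
  classical
  unfold tT
  exact card_filter_le _ _

theorem tT_lt9 {y p : V} (t : G.Tw y p) (hp : p ∈ G.N F) :
    (G.tT G.Tw F y).card + 1 ≤ (G.pT F y).card := by
  classical
  have h1 : G.tT G.Tw F y ⊆ (G.pT F y).erase p := by
    intro x hx
    unfold tT at hx
    rw [mem_filter] at hx
    rw [mem_erase]
    exact ⟨fun e => hx.2 (e ▸ t), hx.1⟩
  have h2 : p ∈ G.pT F y := mem_inter.2 ⟨t.1, hp⟩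
  have h3 := card_le_card h1
  rw [card_erase_of_mem h2] at h3
  have h4 := card_pos.2 ⟨p, h2⟩
  omega

theorem f9_low {y : V} (l : G.Low y) : G.f9 F y = 2 * ((G.tT G.Tw F y).card : ℤ) := by
  classical
  unfold f9 wt3
  rw [if_pos l]

theorem f9_tw {y : V} (l : G.IsTw y) : G.f9 F y = ((G.tT G.Tw F y).card : ℤ) := by
  classical
  have h1 : ¬ G.Low y := by
    obtain ⟨p, hp⟩ := l
    exact tw_nl9 hp
  have h2 : IsQ G.Tw y := l
  unfold f9 wt3
  rw [if_neg h1, if_pos h2, one_mul]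

theorem f9_hub {y : V} (l : G.Hub y) : G.f9 F y = 0 := by
  classical
  have h2 : ¬ IsQ G.Tw y := l.2
  unfold f9 wt3
  rw [if_neg l.1, if_neg h2, zero_mul]

theorem tri9 (G : CG V) (y : V) : G.Low y ∨ G.IsTw y ∨ G.Hub y := by
  by_cases h1 : G.Low y
  · exact Or.inl h1
  · by_cases h2 : G.IsTw y
    · exact Or.inr (Or.inl h2)
    · exact Or.inr (Or.inr ⟨h1, h2⟩)

open Classical in
theorem Q9.fB (q : G.Q9 F h v w v' w') (hBas : G.StLBas) (lb : G.StLB) {y : V}
    (hy : y ∈ G.Bt F v v') : G.f9 F y ≤ 2 * (if G.Low y ∧ h ∉ G.nb y then 1 else 0) := by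
  rw [mem_Bt9] at hy
  have hd := q.dT hy.1
  rw [if_pos hy.2.1, if_pos hy.2.2] at hd
  have hle := tT_le9 (G := G) (F := F) y
  rcases tri9 G y with l | l | l
  · rw [f9_low l]
    by_cases k : h ∈ G.nb y
    · rw [if_pos k] at hd
      have h1 := (lb.low5 F q.L.1 y hy.1 l (by omega)).2.1
      rw [h1, card_empty] at hle
      rw [if_neg fun m => m.2 k]
      omega
    · rw [if_neg k] at hd
      have h1 := (lb.low4 F q.L.1 y hy.1 l (by omega)).1
      rw [if_pos ⟨l, k⟩]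
      omega
  · rw [f9_tw l]
    have h0 := l
    obtain ⟨p, hp⟩ := h0
    have h1 := lb.tw F q.L.1 y hy.1 l
    have h2 := tT_lt9 hp ((hBas.twT F q.L.1 y p hp).1 hy.1)
    rw [if_neg fun m => tw_nl9 hp m.1]
    by_cases k : h ∈ G.nb y
    · rw [if_pos k] at hd
      omega
    · rw [if_neg k] at hd
      omega
  · rw [f9_hub l, if_neg fun m => l.1 m.1]
    norm_num

theorem Q9.fT (q : G.Q9 F h v w v' w') (hBas : G.StLBas) (lb : G.StLB) (b7 : G.St7Bas) {y : V}
    (hy : y ∈ G.Ms F v') : G.f9 F y ≤ 6 ∧ (h ∈ G.nb y → G.f9 F y ≤ 4) ∧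
      (¬ G.Low y → G.f9 F y ≤ 1) := by
  classical
  rw [mem_Ms9] at hy
  have hv : v ∈ G.nb y := (q.not_both hBas hy.1).resolve_right hy.2
  have hd := q.dT hy.1
  rw [if_pos hv, if_neg hy.2] at hd
  have hle := tT_le9 (G := G) (F := F) y
  rcases tri9 G y with l | l | l
  · rw [f9_low l]
    by_cases k : h ∈ G.nb y
    · rw [if_pos k] at hd
      have h1 := (lb.low3 F q.L.1 y hy.1 l (by omega)).1
      exact ⟨by omega, fun _ => by omega, fun n => absurd l n⟩
    · rw [if_neg k] at hd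
      have h1 := (lb.low2 F q.L.1 y hy.1 l (by omega)).1
      exact ⟨by omega, fun m => absurd m k, fun n => absurd l n⟩
  · rw [f9_tw l]
    have h0 := l
    obtain ⟨p, hp⟩ := h0
    have h1 := lb.tw F q.L.1 y hy.1 l
    have h2 := tT_lt9 hp ((hBas.twT F q.L.1 y p hp).1 hy.1)
    have h3 := (b7.tw3 F q.L y hy.1 l).1
    exact ⟨by omega, fun _ => by omega, fun _ => by omega⟩
  · rw [f9_hub l]
    exact ⟨by norm_num, fun _ => by norm_num, fun _ => by norm_num⟩

/-- the low vertices adjacent to both pairs and not to `h` -/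
noncomputable def C9 (G : CG V) (F : Finset V) (h v v' : V) : Finset V :=
  open Classical in (G.Bt F v v').filter fun y => G.Low y ∧ h ∉ G.nb y

theorem Q9.cnt (q : G.Q9 F h v w v' w') (hBas : G.StLBas) (lb : G.StLB) (hC : G.StLCnt)
    (a1 : h ∈ G.nb v) (a2 : v' ∉ G.nb v) {t : V} (ht : G.Ms F v' = {t}) :
    10 ≤ G.f9 F t + 2 * ((G.C9 F h v v').card : ℤ) := by
  classical
  have h1 : (G.Tz F v).card = 5 := by
    have k1 := hBas.deg F q.L.1 v q.mv
    rw [q.dv, if_pos a1, if_neg a2, q.t1.2.1] at k1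
    omega
  have h2 : G.Tz F v = G.Ms F v' ∪ G.Bt F v v' := by
    ext y
    rw [mem_Tz9, mem_union, mem_Ms9, mem_Bt9]
    constructor
    · rintro ⟨k1, k2⟩
      by_cases k3 : v' ∈ G.nb y
      · exact Or.inr ⟨k2, G.sym _ _ k1, k3⟩
      · exact Or.inl ⟨k2, k3⟩
    · rintro (⟨k1, k2⟩ | ⟨k1, k2, -⟩)
      · exact ⟨G.sym _ _ ((q.not_both hBas k1).resolve_right k2), k1⟩
      · exact ⟨G.sym _ _ k2, k1⟩
  have h3 := (hC q.L.1.sat q.n9 F (G.Tz F v) (G.Tz F v) (Subset.refl _) inter_subset_right v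
    (by
      intro y hy
      have hy' := mem_Tz9.1 hy
      rcases q.cov hBas (mem_union_right _ hy'.2) hy'.1 (fun k => absurd k a2) with
        ⟨a, k1, k2, k3, k4⟩ | ⟨a, k1, b, k2, k3, k4, k5, k6, k7⟩ | ⟨a, k1, b, k2, k3, k4, k5⟩
      · exact Or.inl ⟨a, mem_Tz9.2 ⟨G.sym _ _ k3, k1⟩, k2, k4⟩
      · exact Or.inr (Or.inl ⟨a, mem_Tz9.2 ⟨G.sym _ _ k4, k1⟩, b,
          mem_Tz9.2 ⟨G.sym _ _ k5, k2⟩, k3, k6, k7⟩)
      · exact Or.inr (Or.inr (Or.inl ⟨a, mem_Tz9.2 ⟨G.sym _ _ k4, k1⟩, b,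
          mem_Tz9.2 ⟨G.sym _ _ k5, k2⟩, k3⟩)))).1
  rw [h1, h2, sum_union (q.part hBas).2.2, ht, sum_singleton] at h3
  have h4 : ∑ y ∈ G.Bt F v v', G.f9 F y ≤ 2 * ((G.C9 F h v v').card : ℤ) := by
    have k1 : ∑ y ∈ G.Bt F v v', G.f9 F y ≤
        ∑ y ∈ G.Bt F v v', 2 * (if G.Low y ∧ h ∉ G.nb y then (1 : ℤ) else 0) :=
      sum_le_sum fun y hy => q.fB hBas lb hy
    have k2 : ((G.C9 F h v v').card : ℤ) =
        ∑ y ∈ G.Bt F v v', (if G.Low y ∧ h ∉ G.nb y then (1 : ℤ) else 0) := by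
      unfold C9
      rw [card_filter]
      push_cast
      rfl
    rw [← mul_sum, ← k2] at k1
    exact k1
  have h5 : ∑ x ∈ G.Bt F v v', G.wt3 G.Tw x * ((G.tT G.Tw F x).card : ℤ) =
      ∑ y ∈ G.Bt F v v', G.f9 F y := rfl
  have h6 : G.wt3 G.Tw t * ((G.tT G.Tw F t).card : ℤ) = G.f9 F t := rfl
  rw [h5, h6] at h3
  push_cast at h3
  linarith

theorem C9_comm : G.C9 F h v' v = G.C9 F h v v' := by
  unfold C9 Bt
  rw [inter_comm]

theorem mem_C9 {y : V} : y ∈ G.C9 F h v v' ↔ y ∈ G.Bt F v v' ∧ G.Low y ∧ h ∉ G.nb y := by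
  classical
  unfold C9
  rw [mem_filter]

theorem Q9.caseA (q : G.Q9 F h v w v' w') (hBas : G.StLBas) (lb : G.StLB) (b7 : G.St7Bas)
    (hC : G.StLCnt) (a1 : h ∈ G.nb v) (a2 : v' ∉ G.nb v) (a3 : h ∈ G.nb v') :
    32 ≤ ∑ y ∈ G.N F, G.gam5 F y := by
  classical
  have a2' : v ∉ G.nb v' := fun k => a2 (G.sym _ _ k)
  have cV : (G.Ms F v).card = 1 := by
    have h1 := q.cMs hBas q.mv
    rw [q.dv, if_pos a1, if_neg a2, q.t1.2.1] at h1
    omega
  have cV' : (G.Ms F v').card = 1 := by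
    have h1 := q.symm.cMs hBas q.symm.mv
    rw [q.symm.dv, if_pos a3, if_neg a2', q.t2.2.1] at h1
    omega
  have cH : (G.Ms F h).card ≤ 3 := by
    have h1 := q.cMs hBas q.mh
    have h2 := q.hub7
    rw [q.dh, if_pos (G.sym _ _ a1), if_pos (G.sym _ _ a3)] at h1
    omega
  obtain ⟨s, hs⟩ := card_eq_one.1 cV
  obtain ⟨t, ht⟩ := card_eq_one.1 cV'
  have ms : s ∈ G.Ms F v := by rw [hs]; exact mem_singleton_self _
  have mt : t ∈ G.Ms F v' := by rw [ht]; exact mem_singleton_self _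
  have ms' := mem_Ms9.1 ms
  have mt' := mem_Ms9.1 mt
  have k1 := q.cnt hBas lb hC a1 a2 ht
  have k2 := q.symm.cnt hBas lb hC a3 a2' hs
  rw [C9_comm] at k2
  obtain ⟨t1, t2, t3⟩ := q.fT hBas lb b7 mt
  obtain ⟨s1, s2, -⟩ := q.symm.fT hBas lb b7 ms
  have c0 : G.C9 F h v v' ⊆ G.Ms F h := by
    intro y hy
    rw [mem_C9, mem_Bt9] at hy
    exact mem_Ms9.2 ⟨hy.1.1, hy.2.2⟩
  have c1 := card_le_card c0
  have tC : t ∉ G.C9 F h v v' := fun k => mt'.2 (mem_Bt9.1 (mem_C9.1 k).1).2.2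
  have sC : s ∉ G.C9 F h v v' := fun k => ms'.2 (mem_Bt9.1 (mem_C9.1 k).1).2.1
  have st : s ≠ t := by
    rintro rfl
    rcases q.not_both hBas ms'.1 with k | k
    · exact ms'.2 k
    · exact mt'.2 k
  have c2 : h ∉ G.nb t → (G.C9 F h v v').card + 1 ≤ 3 := by
    intro k
    have m1 : insert t (G.C9 F h v v') ⊆ G.Ms F h :=
      insert_subset (mem_Ms9.2 ⟨mt'.1, k⟩) c0
    have m2 := card_le_card m1
    rw [card_insert_of_notMem tC] at m2
    omega
  have c3 : h ∉ G.nb t → h ∉ G.nb s → (G.C9 F h v v').card + 2 ≤ 3 := by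
    intro k k'
    have m1 : insert s (insert t (G.C9 F h v v')) ⊆ G.Ms F h :=
      insert_subset (mem_Ms9.2 ⟨ms'.1, k'⟩) (insert_subset (mem_Ms9.2 ⟨mt'.1, k⟩) c0)
    have m2 := card_le_card m1
    rw [card_insert_of_notMem, card_insert_of_notMem tC] at m2
    · omega
    · rw [mem_insert, not_or]
      exact ⟨st, sC⟩
  have ht1 : h ∈ G.nb t := by
    by_contra k
    have m1 := c2 k
    by_cases k' : h ∈ G.nb s
    · have := s2 k'
      omega
    · have := c3 k k'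
      omega
  have m1 := t2 ht1
  have tl : G.Low t := by
    by_contra k
    have := t3 k
    omega
  have td : G.d t F = 3 := by
    rw [q.dT mt'.1, if_pos ht1, if_neg mt'.2, if_pos ((q.not_both hBas mt'.1).resolve_right mt'.2)]
  have g1 := (lb.low3 F q.L.1 t mt'.1 tl td).2.1
  have g2 := b7.nn F q.L s ms'.1
  have g3 : 10 * ((G.C9 F h v v').card : ℤ) ≤ ∑ y ∈ G.Bt F v v', G.gam5 F y := by
    have n2 : ((G.C9 F h v v').card : ℤ) =
        ∑ y ∈ G.Bt F v v', (if G.Low y ∧ h ∉ G.nb y then (1 : ℤ) else 0) := by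
      unfold C9
      rw [card_filter]
      push_cast
      rfl
    rw [n2, mul_sum]
    apply sum_le_sum
    intro y hy
    have hy' := mem_Bt9.1 hy
    split_ifs with n3
    · have n4 : G.d y F = 4 := by
        rw [q.dT hy'.1, if_neg n3.2, if_pos hy'.2.1, if_pos hy'.2.2]
      have := (lb.low4 F q.L.1 y hy'.1 n3.1 n4).2.1
      omega
    · have := b7.nn F q.L y hy'.1
      omega
  rw [q.sum hBas, hs, ht, sum_singleton, sum_singleton]
  omega

/-- J9 -/
theorem st7HQQ_86 (hBas : G.StLBas) (lb : G.StLB) (b7 : G.St7Bas) (hC : G.StLCnt) :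
    G.St7HQQ := by
  classical
  intro F L h v w v' w' e hub t1 t2 n1 n2
  have q : G.Q9 F h v w v' w' := ⟨L, e, hub, t1, t2⟩
  by_cases a2 : v' ∈ G.nb v
  · by_cases a1 : h ∈ G.nb v
    · by_cases a3 : h ∈ G.nb v'
      · exfalso
        have cV : (G.Ms F v).card = 3 := by
          have h1 := q.cMs hBas q.mv
          rw [q.dv, if_pos a1, if_pos a2, q.t1.2.1] at h1
          omega
        have cV' : (G.Ms F v').card = 3 := by
          have h1 := q.symm.cMs hBas q.symm.mv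
          rw [q.symm.dv, if_pos a3, if_pos (G.sym _ _ a2), q.t2.2.1] at h1
          omega
        have cB : (G.Bt F v v').card = 0 := by
          have h1 := q.card hBas
          omega
        have hB := card_eq_zero.1 cB
        rcases q.covQQ hBas a2 with ⟨a, k1, k2, k3, k4⟩ | ⟨a, k1, b, k2, k3, k4, k5, k6, k7⟩
        · have : a ∈ G.Bt F v v' := mem_Bt9.2 ⟨k1, k3, k4⟩
          rw [hB] at this
          exact absurd this (notMem_empty _)
        · have : a ∈ G.Bt F v v' := mem_Bt9.2 ⟨k1, k4, k6⟩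
          rw [hB] at this
          exact absurd this (notMem_empty _)
      · exact q.caseC hBas lb b7 a1 a2 a3
    · by_cases a3 : h ∈ G.nb v'
      · exact q.symm.caseC hBas lb b7 a3 (G.sym _ _ a2) a1
      · exfalso
        have h1 := hBas.inn F L.1 h q.mh
        rw [q.dh, if_neg fun k => a1 (G.sym _ _ k), if_neg fun k => a3 (G.sym _ _ k)] at h1
        omega
  · have hv : h ∈ G.nb v := by
      by_contra k
      obtain ⟨x, hx, y, hy, hxy⟩ := b7.conn F L {v, w} (by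
        intro x hx
        rw [mem_insert, mem_singleton] at hx
        rcases hx with rfl | rfl
        · exact q.mv
        · exact q.mw) ⟨v, by simp⟩ (by
          intro e
          have h1 := L.2
          rw [← e, card_pair q.dist.2.2.2.2.1] at h1
          omega)
      obtain ⟨d1, d2, d3, d4, d5, d6, d7, d8, d9, d10⟩ := q.dist
      have hy' : y ∈ G.nb v := by
        rw [mem_sdiff, mem_insert, mem_singleton, not_or] at hy
        rw [mem_insert, mem_singleton] at hx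
        rcases hx with rfl | rfl
        · exact hxy
        · exact Tw_nb5 (symm_5 t1) hxy hy.2.1
      rw [mem_sdiff, e] at hy
      simp only [mem_insert, mem_singleton, not_or] at hy
      obtain ⟨hy1, hy2, hy3⟩ := hy
      rcases hy1 with rfl | rfl | rfl | rfl | rfl
      · exact k hy'
      · exact hy2 rfl
      · exact hy3 rfl
      · exact a2 hy'
      · exact a2 ((tw_iff9 t2 d6 d7).2 hy')
    have hv' : h ∈ G.nb v' := by
      by_contra k
      obtain ⟨x, hx, y, hy, hxy⟩ := b7.conn F L {v', w'} (by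
        intro x hx
        rw [mem_insert, mem_singleton] at hx
        rcases hx with rfl | rfl
        · exact q.symm.mv
        · exact q.symm.mw) ⟨v', by simp⟩ (by
          intro e
          have h1 := L.2
          rw [← e, card_pair q.symm.dist.2.2.2.2.1] at h1
          omega)
      obtain ⟨d1, d2, d3, d4, d5, d6, d7, d8, d9, d10⟩ := q.dist
      have hy' : y ∈ G.nb v' := by
        rw [mem_sdiff, mem_insert, mem_singleton, not_or] at hy
        rw [mem_insert, mem_singleton] at hx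
        rcases hx with rfl | rfl
        · exact hxy
        · exact Tw_nb5 (symm_5 t2) hxy hy.2.1
      rw [mem_sdiff, e] at hy
      simp only [mem_insert, mem_singleton, not_or] at hy
      obtain ⟨hy1, hy2, hy3⟩ := hy
      rcases hy1 with rfl | rfl | rfl | rfl | rfl
      · exact k hy'
      · exact a2 (G.sym _ _ hy')
      · exact a2 (G.sym _ _ ((tw_iff9 t1 d6.symm d8.symm).2 hy'))
      · exact hy2 rfl
      · exact hy3 rfl
    exact q.caseA hBas lb b7 hC hv a2 hv'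

end CG

end Pool.Agent.Lib.MP_e95c01_co.N
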