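import Pool.Agent.Lib.MP_e95c01_co.X.G01_16
import Pool.Agent.Lib.MP_e95c01_co.X.G2_30
import Pool.Agent.Lib.MP_e95c01_co.X.G4_30
import Pool.Agent.Lib.MP_e95c01_co.X.G5_28
import Pool.Agent.Lib.MP_e95c01_co.X.G6_89
import Pool.Agent.Lib.MP_e95c01_co.X.G7_33
import Pool.Agent.Lib.MP_e95c01_co.X.G8_76
import Pool.Agent.Lib.MP_e95c01_co.X.H0a_11
import Pool.Agent.Lib.MP_e95c01_co.X.H0b_16
import Pool.Agent.Lib.MP_e95c01_co.X.H0e_30
import Pool.Agent.Lib.MP_e95c01_co.X.H1_44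
import Pool.Agent.Lib.MP_e95c01_co.X.H1b_44
import Pool.Agent.Lib.MP_e95c01_co.X.H2_42
import Pool.Agent.Lib.MP_e95c01_co.X.H3_12
import Pool.Agent.Lib.MP_e95c01_co.X.H4h_50
import Pool.Agent.Lib.MP_e95c01_co.X.H5_28
import Pool.Agent.Lib.MP_e95c01_co.X.H6_33
import Pool.Agent.Lib.MP_e95c01_co.X.H7_53
import Pool.Agent.Lib.MP_e95c01_co.X.H8_76
import Pool.Agent.Lib.MP_e95c01_co.X.J0_11
import Pool.Agent.Lib.MP_e95c01_co.X.J2_44
import Pool.Agent.Lib.MP_e95c01_co.X.J3_89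
import Pool.Agent.Lib.MP_e95c01_co.X.J4e_38
import Pool.Agent.Lib.MP_e95c01_co.X.J5a_96
import Pool.Agent.Lib.MP_e95c01_co.X.J5b_33
import Pool.Agent.Lib.MP_e95c01_co.X.J5c_16
import Pool.Agent.Lib.MP_e95c01_co.X.J5d_53
import Pool.Agent.Lib.MP_e95c01_co.X.J6_88
import Pool.Agent.Lib.MP_e95c01_co.X.J7_30
import Pool.Agent.Lib.MP_e95c01_co.X.J8_28
import Pool.Agent.Lib.MP_e95c01_co.X.J9_86

/-!
# `λ = 3`: leaves with three, four and five vertices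
-/

namespace Pool.Agent.Lib.MP_e95c01_co.N

open Finset

variable {V : Type} [Fintype V] [DecidableEq V]

namespace CG

variable (G : CG V)

/-- three vertices -/
theorem stF5_all76 : G.StF5 :=
  have hB := stBas_33 G G.Tw
  have hC := st11Cnt_30 (G := G) (q := G.Tw)
  stF5_76 G (st5F_16 G) (st5LLL_30 (st5B_16 G)) (st5LLH_30 (st5B_16 G) hB)
    (st5LHH_30 (st5B_16 G) hB) (st5HHH_28 G hB hC (st5B_16 G)) (st5HQ_89 G (st5B_16 G))
    (st5LQ_33 G (st5B_16 G))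

/-- four vertices -/
theorem stF6_all76 : G.StF6 :=
  have a := stLBas_11 G
  have b := stLB_16 G
  have c := stLCnt_30 G
  stF6_76 G (stLSit_11 G) (stLP_16 G) a (st6LLLL_44 G a b) (st6LLLH_44 G a b)
    (st6LLHH_44 G a b) (st6LLQ_42 G a b) (st6LHHH_12 G a b c) (st6LHQ_50 G a b c)
    (st6HHHH_28 G a b c) (st6HHQ_33 G a b c) (st6QQ_53 G a b c)

/-- five vertices -/
theorem stF7_all76 : G.StF7 :=
  have a := stLBas_11 G
  have b := stLB_16 G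
  have c := stLCnt_30 G
  have h := st7Bas_11 G a b
  stF7_76 G (stLSit_11 G) (stLP_16 G) a (st7L3_11 G a b) (st7LLHHH_44 G a b c h)
    (st7LLHQ_89 G a b h) (st7LHHHH_38 G a b h c) (st7LHHQa_96 G a b h) (st7LHHQb_33 G a b h)
    (st7LHHQc_16 G a b h) (st7LHHQd_53 G a h b) (st7LQQ_88 G a b h) (st7HHHHH_30 a b h)
    (st7HHHQ_28 G a b c h) (st7HQQ_86 a b h c)

end CG

end Pool.Agent.Lib.MP_e95c01_co.N
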