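import Pool.Agent.Lib.MP_e95c01_co.X.S9b_50

/-!
# S10b: a pair of twins and a vertex against three other vertices
-/

namespace Pool.Agent.Lib.MP_e95c01_co.N

open Finset

variable {V : Type} [Fintype V] [DecidableEq V]

namespace CG

variable {G : CG V} {A B : Finset V}

/-- number of low neighbours in `K` -/
noncomputable def ld50 (G : CG V) (K : Finset V) (y : V) : ℕ :=
  ((G.nb y ∩ K).filter fun z => G.Low z).card

theorem dcS50 (K : Finset V) : ∑ y ∈ K, (if G.Low y then ((G.nb y ∩ K).card : ℤ) else 0) =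
    ∑ y ∈ K, (G.ld50 K y : ℤ) := by
  have h1 : ∀ y ∈ K, (if G.Low y then ((G.nb y ∩ K).card : ℤ) else 0) =
      ∑ z ∈ K, (if G.Low y ∧ z ∈ G.nb y then 1 else 0) := by
    intro y _
    split_ifs with h
    · rw [sum_boole]
      congr 2
      ext z
      simp only [mem_inter, mem_filter]
      tauto
    · symm
      apply sum_eq_zero
      intro z _
      rw [if_neg (fun h1 => h h1.1)]
  have h2 : ∀ y ∈ K, (G.ld50 K y : ℤ) = ∑ z ∈ K, (if G.Low z ∧ y ∈ G.nb z then 1 else 0) := by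
    intro y _
    rw [sum_boole, ld50]
    congr 2
    ext z
    simp only [mem_inter, mem_filter]
    constructor
    · rintro ⟨⟨h3, h4⟩, h5⟩
      exact ⟨h4, h5, G.sym _ _ h3⟩
    · rintro ⟨h3, h4, h5⟩
      exact ⟨⟨G.sym _ _ h5, h3⟩, h4⟩
  rw [sum_congr rfl h1, sum_congr rfl h2, sum_comm]

/-- a low vertex of `K0 A B` has a nonnegative balance -/
theorem bal_nonneg50 (h : G.Strip A B) {x : V} (hx : x ∈ G.K0 A B) (hl : G.Low x)
    (h2 : 2 ≤ (G.nb x ∩ G.K0 B A).card) (h3 : (G.nb x ∩ G.K0 B A).card ≤ 3) :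
    0 ≤ G.B5 A x + G.phi A x := by
  classical
  have h11 : (0 : ℤ) ≤ ((G.nb x ∩ G.Cc A B).card : ℤ) := Nat.cast_nonneg _
  have h10 : (0 : ℤ) ≤ ((G.nb x ∩ G.K0 A B).card : ℤ) := Nat.cast_nonneg _
  by_cases h4 : (G.nb x ∩ G.K0 B A).card = 3
  · have := (bal_three50 h hx hl h4).1
    linarith
  · have h5 : (G.nb x ∩ G.K0 B A).card = 2 := by omega
    have h6 := phi_ge50 h hx hl h2 h3
    have h7 := B5_low50 h hx hl
    have h8 := s5_nonneg87 (G := G) (G.Co A) x
    have h9 := s5A_50 h hx (by omega)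
    rw [h5] at h7
    push_cast at h7
    by_cases h12 : G.T3 (G.Co A) x
    · rw [if_pos h12] at h6
      have h13 : ((G.nb x ∩ G.K0 A B).card : ℤ) + ((G.nb x ∩ G.Cc A B).card : ℤ) = 2 := by
        exact_mod_cast (T3_50 h hx h12).2.1
      linarith
    · rw [if_neg h12] at h6
      linarith

/-- two adjacent lows in `K0 B A` for a hub of `K0 A B` without free units -/
theorem defic50 (hC : G.StCvS) (hS : G.Sx A B) {x : V} (hx : x ∈ G.K0 A B) (hh : G.Hub x)
    (hb3 : (G.K0 B A).card = 3)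
    (hnl : ∀ b ∈ G.K0 A B, G.Low b → b ∉ G.nb x)
    (hnG : ∀ c ∈ G.Cc A B, ¬ G.Gd A B c x)
    (hntw : ∀ c ∈ G.Cc A B, G.IsTw c → c ∈ G.nb x → G.nb c ∩ G.K0 B A = ∅)
    (hnK : ∀ c ∈ G.K0 A B, G.IsTw c → c ∉ G.nb x)
    (hnt : ∀ y ∈ G.K0 B A, ¬ G.IsTw y) :
    ∃ y ∈ G.K0 B A, ∃ y' ∈ G.K0 B A, G.Low y ∧ G.Low y' ∧ y' ∈ G.nb y := by
  have n9 := hS.st.n9
  have h7 := stTwHL_5 G
  have hPl : G.Pl A B x := ⟨hx, hh, hnl⟩
  by_contra hno
  push Not at hno
  -- covers
  have hcv : ∀ y ∈ G.K0 B A, y ∈ G.nb x →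
      (∃ w ∈ G.K0 B A, G.Low w ∧ w ∈ G.nb x ∧ w ∈ G.nb y) ∨
      (∃ a ∈ G.K0 B A, ∃ b ∈ G.K0 B A, G.HL a b y ∧ G.Low y ∧ b ∈ G.nb x) := by
    intro y hy hxy
    rcases hC A B hS x hx y hy hxy with h | h | h | h | h
    · obtain ⟨w, h1, h2, h3, h4 | h4 | h4⟩ := h
      · exact absurd ⟨hPl, tch_of87 h4 (Or.inl hx) h2, h1, h2, Or.inl ⟨y, mem_inter.2 ⟨h3, hy⟩⟩⟩
          (hnG w h4)
      · exact absurd (G.sym _ _ h2) (hnl w h4 h1)
      · exact Or.inl ⟨w, h4, h1, G.sym _ _ h2, G.sym _ _ h3⟩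
    · obtain ⟨v, w, h1, h2, h3, h4, h5, h6 | h6 | h6⟩ := h
      · have h8 := hntw v h6.1 ⟨_, h1⟩ (G.sym _ _ h2)
        have h9 : y ∈ G.nb v ∩ G.K0 B A := mem_inter.2 ⟨h3, hy⟩
        rw [h8] at h9
        exact absurd h9 (notMem_empty _)
      · exact absurd (G.sym _ _ h2) (hnK v h6.1 ⟨_, h1⟩)
      · exact absurd ⟨_, h1⟩ (hnt v h6.1)
    · obtain ⟨a, b, h1, h2, h3, h4, h5 | h5 | h5⟩ := h
      · exact absurd ⟨hPl, tch_of87 h5.2 (Or.inl hx) h3, h1.2.1, h3,
          Or.inr (Or.inl ⟨a, h5.1, y, hy, h1⟩)⟩ (hnG b h5.2)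
      · exact absurd (G.sym _ _ h3) (hnl b h5.2 h1.2.1)
      · exact Or.inr ⟨a, h5.1, b, h5.2, h1, h2, G.sym _ _ h3⟩
    · obtain ⟨a, b, h1, h2, -⟩ := h
      exact absurd h2 hh.1
    · obtain ⟨u, v, h1, h2⟩ := h
      rcases h2 with h2 | h2 | h2
      · exact absurd ⟨hPl, tch_of87 h2.1 (Or.inl hx) (LL_t76 h1), h1.1, LL_t76 h1,
          Or.inr (Or.inr ⟨v, h2.2, y, hy, h1⟩)⟩ (hnG u h2.1)
      · exact absurd (G.sym _ _ (LL_t76 h1)) (hnl u h2.1 h1.1)
      · exact absurd h1.2.2.1 (hno u h2.1 v h2.2 h1.1 h1.2.1)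
  -- a low neighbour of `x` in `K0 B A` is impossible
  have hlow : ∀ y ∈ G.K0 B A, y ∈ G.nb x → ¬ G.Low y := by
    intro y hy hxy hl
    rcases hcv y hy hxy with h | h
    · obtain ⟨w, hw, hlw, -, h1⟩ := h
      exact hno y hy w hw hl hlw h1
    · obtain ⟨a, ha, b, hb, h1, -, h2⟩ := h
      have hab : a ≠ b := ne_of_nb5 h1.2.2.1
      have hay : a ≠ y := ne_of_nb5 (HL_t76 h1)
      have hby : b ≠ y := (HL_bt76 h1).2.symm
      have hK : G.K0 B A = {a, b, y} := by
        refine (eq_of_subset_of_card_le ?_ ?_).symm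
        · intro z hz
          rw [mem_insert, mem_insert, mem_singleton] at hz
          rcases hz with rfl | rfl | rfl
          · exact ha
          · exact hb
          · exact hy
        · rw [hb3, card_eq_three.2 ⟨a, b, y, hab, hay, hby, rfl⟩]
      have hal := HL_not_low76 h1
      rcases hcv b hb h2 with h3 | h3
      · obtain ⟨w, hw, hlw, -, h4⟩ := h3
        exact hno b hb w hw h1.2.1 hlw h4
      · obtain ⟨a', ha', b', hb', h4, -, -⟩ := h3
        have hab' : a' ≠ b' := ne_of_nb5 h4.2.2.1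
        have hay' : a' ≠ b := ne_of_nb5 (HL_t76 h4)
        have hby' : b' ≠ b := (HL_bt76 h4).2.symm
        have h5 : b' = y := by
          rw [hK, mem_insert, mem_insert, mem_singleton] at hb'
          rcases hb' with h6 | h6 | h6
          · exact absurd (h6 ▸ h4.2.1) hal
          · exact absurd h6 hby'
          · exact h6
        have h6 : a' = a := by
          rw [hK, mem_insert, mem_insert, mem_singleton] at ha'
          rcases ha' with h8 | h8 | h8
          · exact h8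
          · exact absurd h8 hay'
          · exact absurd (h8.trans h5.symm) hab'
        rw [h5, h6] at h4
        exact h7.nomut n9 a b y y b h1 h4 rfl
  have h1 := hS.e1.one x hx
  have h2 : (G.nb x ∩ G.K0 B A).Nonempty := card_pos.1 (by omega)
  obtain ⟨y, hy⟩ := h2
  obtain ⟨hy1, hy2⟩ := mem_inter.1 hy
  rcases hcv y hy2 hy1 with h | h
  · obtain ⟨w, hw, hlw, h3, -⟩ := h
    exact hlow w hw h3 hlw
  · obtain ⟨a, ha, b, hb, h3, h4, -⟩ := h
    exact hlow y hy2 hy1 h4

/-- a pair of twins and a vertex against three other vertices -/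
structure CyS50 (G : CG V) (A B : Finset V) (X X' x : V) : Prop where
  hS : G.Sx A B
  hT : G.Tw X X'
  hK : G.K0 A B = {X, X', x}
  c3 : (G.K0 A B).card = 3
  hnt : ∀ y ∈ G.K0 B A, ¬ G.IsTw y

namespace CyS50

variable {X X' x y : V}

theorem hX (c : CyS50 G A B X X' x) : X ∈ G.K0 A B := by rw [c.hK]; simp

theorem hX' (c : CyS50 G A B X X' x) : X' ∈ G.K0 A B := by rw [c.hK]; simp

theorem hx (c : CyS50 G A B X X' x) : x ∈ G.K0 A B := by rw [c.hK]; simp

theorem nxX' (c : CyS50 G A B X X' x) : x ≠ X' := by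
  intro h
  have h1 := c.c3
  rw [c.hK, h, pair_eq_singleton, card_pair (Tw_ne87 c.hT)] at h1
  omega

theorem nxX (c : CyS50 G A B X X' x) : x ≠ X := by
  intro h
  have h1 := c.c3
  rw [c.hK, h, pair_comm X' X, insert_eq_of_mem (mem_insert_self _ _),
    card_pair (Tw_ne87 c.hT)] at h1
  omega

theorem symX (c : CyS50 G A B X X' x) : CyS50 G A B X' X x :=
  ⟨c.hS, symm_5 c.hT, by rw [c.hK, Finset.insert_comm], c.c3, c.hnt⟩

theorem xt (c : CyS50 G A B X X' x) : ¬ G.IsTw x := by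
  rintro ⟨z, hz⟩
  have h := c.hS.st
  have h1 := mem_K087.1 c.hx
  obtain ⟨-, h2, h3⟩ := tw_part87 h (R_of_NA87 h h1.1) hz
  have h4 : z ∈ G.K0 A B := mem_K087.2 ⟨h2.2 h1.1, fun h5 => h1.2 (h3.1 h5)⟩
  rw [c.hK, mem_insert, mem_insert, mem_singleton] at h4
  rcases h4 with h4 | h4 | h4
  · rw [h4] at hz
    exact c.nxX' (uniq_5 h.n9 (symm_5 hz) c.hT)
  · rw [h4] at hz
    exact c.nxX (uniq_5 h.n9 (symm_5 hz) (symm_5 c.hT))
  · exact Tw_ne87 hz h4.symm

theorem cB (c : CyS50 G A B X X' x) : (G.K0 B A).card = 3 := by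
  rw [← K0_card50 c.hS.st, c.c3]

theorem yX (c : CyS50 G A B X X' x) (hy : y ∈ G.K0 B A) : y ∈ G.nb X := by
  have h1 := c.hS.e1.two (by rw [c.c3]) X c.hX X' c.hX' (Tw_ne87 c.hT) hy
  rcases mem_union.1 h1 with h2 | h2
  · exact h2
  · refine Tw_nb5 (symm_5 c.hT) h2 ?_
    rintro rfl
    exact (mem_K087.1 hy).2 (mem_K087.1 c.hX).1

theorem nX (c : CyS50 G A B X X' x) : G.nb X ∩ G.K0 B A = G.K0 B A :=
  inter_eq_right.2 fun _ hy => c.yX hy

theorem XX [Decidable (x ∈ G.nb X)] (c : CyS50 G A B X X' x) :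
    (G.nb X ∩ G.K0 A B).card = 1 + (if x ∈ G.nb X then 1 else 0) := by
  have h1 : G.nb X ∩ G.K0 A B = ({X, X', x} : Finset V).filter (fun z => z ∈ G.nb X) := by
    rw [c.hK, inter_comm, filter_mem_eq_inter]
  rw [h1, filter_insert, if_neg (self50 _), filter_insert, if_pos c.hT.1, filter_singleton]
  split_ifs
  · rw [card_pair c.nxX'.symm]
  · rw [card_insert_of_notMem (notMem_empty _)]
    rfl

theorem XC (c : CyS50 G A B X X' x) : X ∉ G.Cc A B := fun h =>
  (mem_K087.1 c.hX).2 (mem_Cc87.1 h).2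

theorem D_eq (c : CyS50 G A B X X' x) : G.nb X' ∩ G.Cc A B = G.nb X ∩ G.Cc A B :=
  (nb_tw50 c.hT c.XC c.symX.XC).symm

theorem x_iff (c : CyS50 G A B X X' x) : x ∈ G.nb X' ↔ x ∈ G.nb X :=
  ⟨fun h => Tw_nb5 (symm_5 c.hT) h c.nxX, fun h => Tw_nb5 c.hT h c.nxX'⟩

theorem D_le [Decidable (x ∈ G.nb X)] (c : CyS50 G A B X X' x) :
    (G.nb X ∩ G.Cc A B).card + (if x ∈ G.nb X then 1 else 0) ≤ 1 := by
  have h1 := deg_K0_50 c.hS.st c.hX
  have h2 := Tw_card87 c.hT
  have h3 := pX_tw87 c.hS.st (mem_K087.1 c.hX).1 ⟨_, c.hT⟩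
  rw [c.nX, c.XX, c.cB] at h1
  omega

theorem BX [Decidable (x ∈ G.nb X)] (c : CyS50 G A B X X' x) :
    G.B5 A X = ((G.nb X ∩ G.Cc A B).card : ℤ) + (if x ∈ G.nb X then 1 else 0) - 2 := by
  rw [B5_tw50 c.hS.st c.hX ⟨_, c.hT⟩, c.nX, c.XX, c.cB]
  push_cast
  ring

theorem phX (c : CyS50 G A B X X' x) : 0 ≤ G.phi A X := by
  refine (phi_tw50 c.hS.st c.hX ⟨_, c.hT⟩ ?_).1
  rw [c.nX, c.cB]

theorem Xy (c : CyS50 G A B X X' x) (hy : y ∈ G.K0 B A) : X ∈ G.nb y ∩ G.K0 A B :=
  mem_inter.2 ⟨G.sym _ _ (c.yX hy), c.hX⟩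

theorem yc [Decidable (x ∈ G.nb y)] (c : CyS50 G A B X X' x) (hy : y ∈ G.K0 B A) :
    (G.nb y ∩ G.K0 A B).card = 2 + (if x ∈ G.nb y then 1 else 0) := by
  have h1 : G.nb y ∩ G.K0 A B = ({X, X', x} : Finset V).filter (fun z => z ∈ G.nb y) := by
    rw [c.hK, inter_comm, filter_mem_eq_inter]
  rw [h1, filter_insert, if_pos (mem_inter.1 (c.Xy hy)).1, filter_insert,
    if_pos (mem_inter.1 (c.symX.Xy hy)).1, filter_singleton]
  split_ifs
  · rw [card_eq_three.2 ⟨X, X', x, Tw_ne87 c.hT, c.nxX.symm, c.nxX'.symm, rfl⟩]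
  · exact (card_pair (Tw_ne87 c.hT) : ({X, X'} : Finset V).card = 2)

theorem bal_hub (c : CyS50 G A B X X' x) (hy : y ∈ G.K0 B A) (h : ¬ G.Low y) :
    G.B5 B y + G.phi B y = -2 :=
  bal_hub50 ⟨h, c.hnt y hy⟩

theorem bal_low [Decidable (x ∈ G.nb y)] (c : CyS50 G A B X X' x) (hy : y ∈ G.K0 B A)
    (hl : G.Low y) : 2 * ((G.nb y ∩ G.K0 B A).card : ℤ) + (if x ∈ G.nb y then 2 else 0) ≤
      G.B5 B y + G.phi B y := by
  have h1 := c.yc hy
  by_cases h2 : x ∈ G.nb y
  · rw [if_pos h2] at h1 ⊢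
    have h3 := (bal_three50 c.hS.st.symm72 hy hl h1).1
    linarith
  · rw [if_neg h2] at h1 ⊢
    obtain ⟨h3, h4, -⟩ := bal_two50 c.hS.st.symm72 c.hnt hy hl h1
    rcases Nat.eq_zero_or_pos (G.nb y ∩ G.K0 B A).card with h5 | h5
    · rw [h5]
      push_cast
      linarith
    · have h6 := h4 h5
      have h7 := s5_nonneg87 (G := G) (G.Co B) y
      have h8 : (0 : ℤ) ≤ ((G.nb y ∩ G.Cc B A).card : ℤ) := Nat.cast_nonneg _
      linarith

/-- covers of the edge `X y` -/
theorem cov (hC : G.StCvS) (c : CyS50 G A B X X' x) (hy : y ∈ G.K0 B A) :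
    (∃ w ∈ G.Cc A B, G.Low w ∧ w ∈ G.nb X ∧ w ∈ G.nb y) ∨
    (G.Low x ∧ x ∈ G.nb X ∧ x ∈ G.nb y) ∨
    1 ≤ G.ld50 (G.K0 B A) y ∨
    (∃ a ∈ G.K0 B A, ∃ b ∈ G.K0 B A, G.HL a b y ∧ G.Low y) := by
  classical
  have hXt : G.IsTw X := ⟨_, c.hT⟩
  have hX't : G.IsTw X' := ⟨_, symm_5 c.hT⟩
  have hKt : ∀ v ∈ G.K0 A B, v = X ∨ v = X' ∨ v = x := by
    intro v hv
    rw [c.hK, mem_insert, mem_insert, mem_singleton] at hv
    exact hv
  have hD := c.D_le
  have hD1 : (G.nb X ∩ G.Cc A B).card ≤ 1 := by omega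
  rcases cov_tw50 hC c.hS c.hT c.hX (fun v hv h1 => by
      rcases hKt v hv with h2 | h2 | h2
      · exact Or.inl h2
      · exact Or.inr h2
      · exact absurd (h2 ▸ h1) c.xt)
    (fun v hv w hw h1 h2 => by
      have hv' : v = x := by
        rcases hKt v hv with rfl | rfl | h3
        · exact absurd hXt h1
        · exact absurd hX't h1
        · exact h3
      have hw' : w = x := by
        rcases hKt w hw with rfl | rfl | h3
        · exact absurd hXt h2
        · exact absurd hX't h2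
        · exact h3
      exact hv'.trans hw'.symm) c.hnt hy (c.yX hy) with h | h | h | h | h | h
  · exact Or.inl h
  · obtain ⟨w, hw, h1, h2, h3⟩ := h
    rcases hKt w hw with rfl | rfl | rfl
    · exact absurd hXt (low_not_tw87 h1)
    · exact absurd hX't (low_not_tw87 h1)
    · exact Or.inr (Or.inl ⟨h1, h2, h3⟩)
  · obtain ⟨w, hw, h1, h2⟩ := h
    right; right; left
    rw [ld50, Nat.succ_le_iff, card_pos]
    exact ⟨w, mem_filter.2 ⟨mem_inter.2 ⟨h2, hw⟩, h1⟩⟩
  · exfalso
    obtain ⟨v, hv, w, hw, h1, h2, -⟩ := h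
    have h3 : w ∈ G.nb X := G.sym _ _ (Tw_nb5 h1 (G.sym _ _ h2) (fun h4 => c.XC (h4 ▸ hw)))
    have := two_le5 (mem_inter.2 ⟨h2, hv⟩) (mem_inter.2 ⟨h3, hw⟩) (Tw_ne87 h1)
    omega
  · exfalso
    obtain ⟨a, ha, b, hb, h1, -, h2, h3⟩ := h
    have := two_le5 (mem_inter.2 ⟨h2, ha⟩) (mem_inter.2 ⟨h3, hb⟩) (ne_of_nb5 h1.2.2.1)
    omega
  · exact Or.inr (Or.inr (Or.inr h))

open Classical in
/-- lower bound for the balance of `y` after the double count -/
noncomputable def g50 (G : CG V) (A B : Finset V) (x y : V) : ℤ :=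
  2 * (G.ld50 (G.K0 B A) y : ℤ) + (if G.Low y then (if x ∈ G.nb y then 2 else 0) else -2)

theorem sum_ge (c : CyS50 G A B X X' x) :
    ∑ y ∈ G.K0 B A, CyS50.g50 G A B x y ≤ ∑ y ∈ G.K0 B A, (G.B5 B y + G.phi B y) := by
  classical
  have h1 : ∑ y ∈ G.K0 B A, CyS50.g50 G A B x y = ∑ y ∈ G.K0 B A,
      (2 * (if G.Low y then ((G.nb y ∩ G.K0 B A).card : ℤ) else 0) +
        (if G.Low y then (if x ∈ G.nb y then 2 else 0) else -2)) := by
    rw [sum_add_distrib, ← mul_sum, dcS50, mul_sum, ← sum_add_distrib]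
    rfl
  rw [h1]
  refine sum_le_sum fun y hy => ?_
  by_cases hl : G.Low y
  · rw [if_pos hl, if_pos hl]
    exact c.bal_low hy hl
  · rw [if_neg hl, if_neg hl, c.bal_hub hy hl]
    norm_num

theorem g_ge (y : V) : -2 ≤ CyS50.g50 G A B x y := by
  classical
  have h1 : (0 : ℤ) ≤ (G.ld50 (G.K0 B A) y : ℤ) := Nat.cast_nonneg _
  rw [g50]
  split_ifs <;> linarith

theorem g_low {y : V} (h : G.Low y) :
    2 * (G.ld50 (G.K0 B A) y : ℤ) ≤ CyS50.g50 G A B x y := by
  classical
  rw [g50, if_pos h]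
  split_ifs <;> linarith

theorem g_ld (y : V) :
    2 * (G.ld50 (G.K0 B A) y : ℤ) - 2 ≤ CyS50.g50 G A B x y := by
  classical
  rw [g50]
  split_ifs <;> linarith

theorem g_ld0 {y : V} (h : 1 ≤ G.ld50 (G.K0 B A) y) : 0 ≤ CyS50.g50 G A B x y := by
  have h1 := g_ld (G := G) (A := A) (B := B) (x := x) y
  have h2 : (1 : ℤ) ≤ (G.ld50 (G.K0 B A) y : ℤ) := by exact_mod_cast h
  linarith

theorem ld_of {y z : V} (hz : z ∈ G.K0 B A) (hl : G.Low z) (h : z ∈ G.nb y) :
    1 ≤ G.ld50 (G.K0 B A) y := by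
  rw [ld50, Nat.succ_le_iff, card_pos]
  exact ⟨z, mem_filter.2 ⟨mem_inter.2 ⟨h, hz⟩, hl⟩⟩

omit [Fintype V] in
/-- the sum over three vertices, two of them with known bounds -/
theorem sum3 {K : Finset V} (hK : K.card = 3) {f : V → ℤ} {y y' : V} (hy : y ∈ K) (hy' : y' ∈ K)
    (hne : y ≠ y') {m : ℤ} (hm : ∀ z ∈ K, m ≤ f z) : f y + f y' + m ≤ ∑ z ∈ K, f z := by
  have h1 : ((K.erase y).erase y').card = 1 := by
    rw [card_erase_of_mem (mem_erase.2 ⟨hne.symm, hy'⟩), card_erase_of_mem hy, hK]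
  obtain ⟨z, hz⟩ := card_eq_one.1 h1
  have hzK : z ∈ K := by
    have h2 : z ∈ (K.erase y).erase y' := by rw [hz]; exact mem_singleton_self _
    exact (mem_erase.1 (mem_erase.1 h2).2).2
  rw [← add_sum_erase K f hy, ← add_sum_erase (K.erase y) f (mem_erase.2 ⟨hne.symm, hy'⟩), hz,
    sum_singleton]
  linarith [hm z hzK]

end CyS50

/-- S10b -/
theorem stTh3x_50 (G : CG V) (hTot : G.StTotS) (hL : G.StLoc5) (hN : G.StNet5)
    (hC : G.StCvS) : G.StTh3x := by
  classical
  intro A B hS hc3 ⟨X, X', x, hXX, hK⟩ hnt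
  have h := hS.st
  have c : CyS50 G A B X X' x := ⟨hS, hXX, hK, hc3, hnt⟩
  have hne := Tw_ne87 hXX
  have hT := hTot A B h
  have hsK : ∑ z ∈ G.K0 A B, (G.B5 A z + G.phi A z) = (G.B5 A X + G.phi A X) +
      (G.B5 A X' + G.phi A X') + (G.B5 A x + G.phi A x) := by
    rw [hK, sum_insert, sum_pair c.nxX'.symm]
    · ring
    · rw [mem_insert, mem_singleton]
      rintro (h1 | h1)
      · exact hne h1
      · exact c.nxX h1.symm
  rw [hsK, c.BX, c.symX.BX, c.D_eq] at hT
  have hxi : (if x ∈ G.nb X' then (1 : ℤ) else 0) = if x ∈ G.nb X then 1 else 0 := by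
    by_cases h1 : x ∈ G.nb X
    · rw [if_pos h1, if_pos (c.x_iff.2 h1)]
    · rw [if_neg h1, if_neg (fun h2 => h1 (c.x_iff.1 h2))]
  rw [hxi] at hT
  set T := (G.Cc A B).filter (fun c => G.Tch A B c) with hTdef
  have hpos : ∀ w ∈ T, 0 ≤ G.net5 A B w := fun w hw => hN.pos A B h w (mem_filter.1 hw).2
  have hone : ∀ w ∈ T, G.net5 A B w ≤ ∑ c ∈ T, G.net5 A B c := fun w hw =>
    single_le_sum hpos hw
  have htwo : ∀ w ∈ T, ∀ w' ∈ T, w ≠ w' →
      G.net5 A B w + G.net5 A B w' ≤ ∑ c ∈ T, G.net5 A B c := by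
    intro w hw w' hw' h1
    rw [← sum_pair h1]
    refine sum_le_sum_of_subset_of_nonneg ?_ fun z hz _ => hpos z hz
    intro z hz
    rw [mem_insert, mem_singleton] at hz
    rcases hz with rfl | rfl
    · exact hw
    · exact hw'
  have hS0 : 0 ≤ ∑ c ∈ T, G.net5 A B c := sum_nonneg hpos
  have hpX := c.phX
  have hpX' := c.symX.phX
  have hg := c.sum_ge
  have hDle := c.D_le
  have hB3 := c.cB
  have hxk2 := hS.e1.one x c.hx
  have hxk3 : (G.nb x ∩ G.K0 B A).card ≤ 3 := by
    rw [← hB3]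
    exact card_le_card inter_subset_right
  have hDZ : (0 : ℤ) ≤ ((G.nb X ∩ G.Cc A B).card : ℤ) := Nat.cast_nonneg _
  have hxlow : G.Low x → 0 ≤ G.B5 A x + G.phi A x := fun hl =>
    bal_nonneg50 h c.hx hl hxk2 hxk3
  have hxhub : ¬ G.Low x → G.B5 A x + G.phi A x = -2 := fun hl => bal_hub50 ⟨hl, c.xt⟩
  have hxge : -2 ≤ G.B5 A x + G.phi A x := by
    by_cases hl : G.Low x
    · linarith [hxlow hl]
    · rw [hxhub hl]
  by_cases hlow : ∃ w ∈ G.Cc A B, w ∈ G.nb X ∧ G.Low w
  · obtain ⟨w, hw, hwX, hl⟩ := hlow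
    have hwD : w ∈ G.nb X ∩ G.Cc A B := mem_inter.2 ⟨hwX, hw⟩
    have hD1 : 1 ≤ (G.nb X ∩ G.Cc A B).card := card_pos.2 ⟨w, hwD⟩
    have hxX : x ∉ G.nb X := by
      intro h1
      rw [if_pos h1] at hDle
      omega
    have hDc : (G.nb X ∩ G.Cc A B).card = 1 := by omega
    rw [hDc, if_neg hxX] at hT
    push_cast at hT
    have hwT : w ∈ T := mem_filter.2 ⟨hw, tch_of87 hw (Or.inl c.hX) (G.sym _ _ hwX)⟩
    have he : -2 ≤ G.e5 A B w := by
      refine e5_pair50 hL h hXX hwX c.hX c.hX' hw hl hnt ?_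
      intro a b _ _ _ _ _ h1
      rw [pO_K0_50 h c.hX, c.nX, hB3] at h1
      omega
    have hwne : w ≠ X' := fun h1 => c.symX.XC (h1 ▸ hw)
    have hXw : X ∈ G.nb w := G.sym _ _ hwX
    have hX'w : X' ∈ G.nb w := G.sym _ _ (Tw_nb5 hXX hwX hwne)
    have hwK : (G.nb w ∩ G.K0 A B).card = 2 + (if x ∈ G.nb w then 1 else 0) := by
      have h1 : G.nb w ∩ G.K0 A B = ({X, X', x} : Finset V).filter (fun z => z ∈ G.nb w) := by
        rw [hK, inter_comm, filter_mem_eq_inter]
      rw [h1, filter_insert, if_pos hXw, filter_insert, if_pos hX'w, filter_singleton]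
      split_ifs
      · rw [card_eq_three.2 ⟨X, X', x, hne, c.nxX.symm, c.nxX'.symm, rfl⟩]
      · exact (card_pair hne : ({X, X'} : Finset V).card = 2)
    have hk1 : ((G.nb w ∩ G.K0 B A).card : ℤ) =
        ∑ y ∈ G.K0 B A, (if y ∈ G.nb w then 1 else 0) := by
      rw [sum_boole, inter_comm, filter_mem_eq_inter]
    have hnet : G.net5 A B w = 2 * (2 + (if x ∈ G.nb w then 1 else 0) +
        ∑ y ∈ G.K0 B A, (if y ∈ G.nb w then 1 else 0)) + G.e5 A B w := by
      rw [net5, nbK_card87, hwK, c5, if_pos hl, Nat.cast_add, hk1]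
      push_cast
      ring
    have hDlow : ∀ z ∈ G.Cc A B, z ∈ G.nb X → z = w := by
      intro z hz hzX
      by_contra h1
      have := two_le5 (mem_inter.2 ⟨hzX, hz⟩) hwD h1
      omega
    -- the vertices of `K0 B A`
    set f : V → ℤ := fun y => CyS50.g50 G A B x y + 2 * (if y ∈ G.nb w then 1 else 0) with hf
    have hi : ∀ p : Prop, [Decidable p] → (0 : ℤ) ≤ (if p then 1 else 0) := by
      intro p _
      split_ifs <;> norm_num
    have hf0 : ∀ y ∈ G.K0 B A, 0 ≤ f y := by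
      intro y hy
      have h1 := hi (y ∈ G.nb w)
      by_cases hly : G.Low y
      · have h2 := CyS50.g_low (A := A) (B := B) (x := x) hly
        have h3 : (0 : ℤ) ≤ (G.ld50 (G.K0 B A) y : ℤ) := Nat.cast_nonneg _
        change 0 ≤ CyS50.g50 G A B x y + 2 * (if y ∈ G.nb w then 1 else 0)
        linarith
      · change 0 ≤ CyS50.g50 G A B x y + 2 * (if y ∈ G.nb w then 1 else 0)
        rcases c.cov hC hy with h2 | h2 | h2 | h2
        · obtain ⟨u, hu, -, h3, h4⟩ := h2
          rw [hDlow u hu h3] at h4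
          rw [if_pos (G.sym _ _ h4)]
          have := CyS50.g_ge (G := G) (A := A) (B := B) (x := x) y
          linarith
        · exact absurd h2.2.1 hxX
        · have := CyS50.g_ld0 (A := A) (x := x) h2
          linarith
        · obtain ⟨a, ha, b, hb, h3, h4⟩ := h2
          exact absurd h4 hly
    have hfs : ∑ y ∈ G.K0 B A, f y = ∑ y ∈ G.K0 B A, CyS50.g50 G A B x y +
        2 * ∑ y ∈ G.K0 B A, (if y ∈ G.nb w then 1 else 0) := by
      rw [hf, sum_add_distrib, mul_sum]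
    have hfs0 : 0 ≤ ∑ y ∈ G.K0 B A, f y := sum_nonneg hf0
    have hSw := hone w hwT
    have hix := hi (x ∈ G.nb w)
    by_cases hxl : G.Low x
    · have := hxlow hxl
      linarith
    · have hxb := hxhub hxl
      by_cases hxw : x ∈ G.nb w
      · rw [if_pos hxw] at hnet
        linarith
      · by_cases hGd : ∃ z ∈ G.Cc A B, G.Gd A B z x
        · obtain ⟨z, hz, hzG⟩ := hGd
          have hzw : z ≠ w := by
            rintro rfl
            exact hxw hzG.2.2.2.1
          have hzT : z ∈ T := mem_filter.2 ⟨hz, hzG.2.1⟩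
          have h1 := htwo z hzT w hwT hzw
          have h2 := hN.hub A B h z hzG.2.1 hzG.2.2.1
          have h3 : (1 : ℤ) ≤ (((G.K0 A B).filter fun x => G.Gd A B z x).card : ℤ) := by
            exact_mod_cast card_pos.2 ⟨x, mem_filter.2 ⟨c.hx, hzG⟩⟩
          have h4 : (0 : ℤ) ≤ (((G.K0 B A).filter fun y => G.Gd B A z y).card : ℤ) :=
            Nat.cast_nonneg _
          linarith
        · by_cases htw : ∃ z ∈ G.Cc A B, G.IsTw z ∧ z ∈ G.nb x ∧
            (G.nb z ∩ G.K0 B A).Nonempty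
          · obtain ⟨z, hz, hzt, hzx, hzK⟩ := htw
            have hzw : z ≠ w := by
              rintro rfl
              exact low_not_tw87 hl hzt
            have hzTc : G.Tch A B z := tch_of87 hz (Or.inl c.hx) (G.sym _ _ hzx)
            have hzT : z ∈ T := mem_filter.2 ⟨hz, hzTc⟩
            have h1 := htwo z hzT w hwT hzw
            have h3 : (G.nb z ∩ G.K0 A B).Nonempty :=
              ⟨x, mem_inter.2 ⟨G.sym _ _ hzx, c.hx⟩⟩
            have h2 := hN.tw A B h z hzTc hzt h3 hzK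
            rw [nbK_card87] at h2
            have h4 : 1 ≤ (G.nb z ∩ G.K0 A B).card := card_pos.2 h3
            have h5 : 1 ≤ (G.nb z ∩ G.K0 B A).card := card_pos.2 hzK
            have h6 : (2 : ℤ) ≤ (((G.nb z ∩ G.K0 A B).card + (G.nb z ∩ G.K0 B A).card : ℕ) : ℤ) := by
              exact_mod_cast (by omega : 2 ≤ (G.nb z ∩ G.K0 A B).card + (G.nb z ∩ G.K0 B A).card)
            linarith
          · push Not at hGd htw
            obtain ⟨y, hy, y', hy', l1, l2, h1⟩ := defic50 hC hS c.hx ⟨hxl, c.xt⟩ hB3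
              (fun b hb hlb => by
                exfalso
                rw [hK, mem_insert, mem_insert, mem_singleton] at hb
                rcases hb with rfl | rfl | rfl
                · exact low_not_tw87 hlb ⟨_, hXX⟩
                · exact low_not_tw87 hlb ⟨_, symm_5 hXX⟩
                · exact hxl hlb) hGd
              (fun z hz h1 h2 => htw z hz h1 h2)
              (fun z hz h1 h2 => by
                rw [hK, mem_insert, mem_insert, mem_singleton] at hz
                rcases hz with rfl | rfl | rfl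
                · exact hxX (G.sym _ _ h2)
                · exact hxX (c.x_iff.1 (G.sym _ _ h2))
                · exact c.xt h1) hnt
            have h2 := CyS50.sum3 hB3 hy hy' (ne_of_nb5 h1) hf0
            have h3 := CyS50.g_low (A := A) (B := B) (x := x) l1
            have h4 := CyS50.g_low (A := A) (B := B) (x := x) l2
            have h5 : (1 : ℤ) ≤ (G.ld50 (G.K0 B A) y : ℤ) := by
              exact_mod_cast CyS50.ld_of hy' l2 h1
            have h6 : (1 : ℤ) ≤ (G.ld50 (G.K0 B A) y' : ℤ) := by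
              exact_mod_cast CyS50.ld_of hy l1 (G.sym _ _ h1)
            have h7 := hi (y ∈ G.nb w)
            have h8 := hi (y' ∈ G.nb w)
            have h9 : f y = CyS50.g50 G A B x y + 2 * (if y ∈ G.nb w then 1 else 0) := rfl
            have h10 : f y' = CyS50.g50 G A B x y' + 2 * (if y' ∈ G.nb w then 1 else 0) := rfl
            linarith
  · push Not at hlow
    by_cases hxs : G.Low x ∧ x ∈ G.nb X
    · -- low `x` adjacent to the pair
      obtain ⟨hxl, hxX⟩ := hxs
      have hD0 : (G.nb X ∩ G.Cc A B).card = 0 := by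
        rw [if_pos hxX] at hDle
        omega
      rw [hD0, if_pos hxX] at hT
      push_cast at hT
      have hxK : (G.nb x ∩ G.K0 A B).card = 2 := by
        have h1 : G.nb x ∩ G.K0 A B = {X, X'} := by
          ext z
          rw [mem_inter, hK, mem_insert, mem_insert, mem_singleton, mem_insert, mem_singleton]
          constructor
          · rintro ⟨h1, h2 | h2 | h2⟩
            · exact Or.inl h2
            · exact Or.inr h2
            · rw [h2] at h1
              exact absurd h1 (self50 _)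
          · rintro (rfl | rfl)
            · exact ⟨G.sym _ _ hxX, Or.inl rfl⟩
            · exact ⟨G.sym _ _ (c.x_iff.2 hxX), Or.inr (Or.inl rfl)⟩
        rw [h1, card_pair hne]
      have hxB : 4 * (((G.nb x ∩ G.K0 B A).card : ℤ) - 2) + 4 ≤ G.B5 A x + G.phi A x := by
        have h1 := phi_ge50 h c.hx hxl hxk2 hxk3
        have h2 := s5A_50 h c.hx (by omega)
        have h3 := B5_low50 h c.hx hxl
        have h4 := s5_nonneg87 (G := G) (G.Co A) x
        have h5 : (0 : ℤ) ≤ ((G.nb x ∩ G.Cc A B).card : ℤ) := Nat.cast_nonneg _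
        have h6 : ¬ G.T3 (G.Co A) x := by
          intro h6
          obtain ⟨-, h7, Q, Q', hQ, h8, h9⟩ := T3_50 h c.hx h6
          have h10 : X ∈ G.pT A x := mem_inter.2 ⟨G.sym _ _ hxX, (mem_K087.1 c.hX).1⟩
          have h11 : X' ∈ G.pT A x :=
            mem_inter.2 ⟨G.sym _ _ (c.x_iff.2 hxX), (mem_K087.1 c.hX').1⟩
          rw [h8, mem_insert, mem_singleton] at h10 h11
          have h12 : Q = X ∨ Q = X' := by
            rcases h10 with h10 | h10
            · exact Or.inl h10.symm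
            · rcases h11 with h11 | h11
              · exact Or.inr h11.symm
              · exact absurd (h10.trans h11.symm) hne
          rcases h12 with rfl | rfl
          · rw [pO_K0_50 h c.hX, c.nX, hB3] at h9
            omega
          · rw [pO_K0_50 h c.hX', c.symX.nX, hB3] at h9
            omega
        rw [if_neg h6] at h1
        rw [hxK] at h3
        push_cast at h3
        linarith
      by_cases hk3 : (G.nb x ∩ G.K0 B A).card = 3
      · rw [hk3] at hxB
        push_cast at hxB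
        have h1 : -6 ≤ ∑ y ∈ G.K0 B A, CyS50.g50 G A B x y := by
          have h2 := sum_le_sum (s := G.K0 B A) (f := fun _ => (-2 : ℤ))
            (fun y _ => CyS50.g_ge (G := G) (A := A) (B := B) (x := x) y)
          rw [sum_const, hB3] at h2
          simpa using h2
        linarith
      · have hk2 : (G.nb x ∩ G.K0 B A).card = 2 := by omega
        rw [hk2] at hxB
        push_cast at hxB
        obtain ⟨y, hy, hyx⟩ : ∃ y ∈ G.K0 B A, y ∉ G.nb x := by
          by_contra h1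
          push Not at h1
          have h2 : G.nb x ∩ G.K0 B A = G.K0 B A := inter_eq_right.2 h1
          rw [h2] at hk2
          omega
        have hg2 : ∀ z ∈ G.K0 B A, (-2 : ℤ) ≤ CyS50.g50 G A B x z := fun z _ =>
          CyS50.g_ge (G := G) (A := A) (B := B) (x := x) z
        rcases c.cov hC hy with h2 | h2 | h2 | h2
        · obtain ⟨u, hu, hlu, h3, h4⟩ := h2
          exact absurd hlu (hlow u hu h3)
        · exact absurd (G.sym _ _ h2.2.2) hyx
        · have h3 := CyS50.g_ld0 (A := A) (x := x) h2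
          rw [ld50, Nat.succ_le_iff, card_pos] at h2
          obtain ⟨z, hz⟩ := h2
          obtain ⟨hz1, hzl⟩ := mem_filter.1 hz
          obtain ⟨hzy, hzK⟩ := mem_inter.1 hz1
          have h4 := CyS50.g_low (A := A) (B := B) (x := x) hzl
          have h5 : (0 : ℤ) ≤ (G.ld50 (G.K0 B A) z : ℤ) := Nat.cast_nonneg _
          have h6 := CyS50.sum3 hB3 hy hzK (ne_of_nb5 hzy) hg2
          linarith
        · obtain ⟨a, ha, b, hb, h3, hly⟩ := h2
          have h4 := CyS50.g_low (A := A) (B := B) (x := x) hly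
          have h7 := CyS50.g_low (A := A) (B := B) (x := x) h3.2.1
          have h5 : (0 : ℤ) ≤ (G.ld50 (G.K0 B A) y : ℤ) := Nat.cast_nonneg _
          have h8 : (0 : ℤ) ≤ (G.ld50 (G.K0 B A) b : ℤ) := Nat.cast_nonneg _
          have h6 := CyS50.sum3 hB3 hy hb (HL_bt76 h3).2 hg2
          linarith
    · -- every vertex of `K0 B A` has a low neighbour in `K0 B A`
      have hld : ∀ y ∈ G.K0 B A, 1 ≤ G.ld50 (G.K0 B A) y := by
        intro y hy
        rcases c.cov hC hy with h2 | h2 | h2 | h2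
        · obtain ⟨u, hu, hlu, h3, h4⟩ := h2
          exact absurd hlu (hlow u hu h3)
        · exact absurd ⟨h2.1, h2.2.1⟩ hxs
        · exact h2
        · exfalso
          obtain ⟨a, ha, b, hb, h1, hly⟩ := h2
          have hab : a ≠ b := ne_of_nb5 h1.2.2.1
          have hay : a ≠ y := ne_of_nb5 (HL_t76 h1)
          have hby : b ≠ y := (HL_bt76 h1).2.symm
          have hK1 : G.K0 B A = {a, b, y} := by
            refine (eq_of_subset_of_card_le ?_ ?_).symm
            · intro z hz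
              rw [mem_insert, mem_insert, mem_singleton] at hz
              rcases hz with rfl | rfl | rfl
              · exact ha
              · exact hb
              · exact hy
            · rw [hB3, card_eq_three.2 ⟨a, b, y, hab, hay, hby, rfl⟩]
          have hal := HL_not_low76 h1
          rcases c.cov hC hb with h2 | h2 | h2 | h2
          · obtain ⟨u, hu, hlu, h3, h4⟩ := h2
            exact hlow u hu h3 hlu
          · exact hxs ⟨h2.1, h2.2.1⟩
          · rw [ld50, Nat.succ_le_iff, card_pos] at h2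
            obtain ⟨z, hz⟩ := h2
            obtain ⟨hz1, hzl⟩ := mem_filter.1 hz
            obtain ⟨hzb, hzK⟩ := mem_inter.1 hz1
            rw [hK1, mem_insert, mem_insert, mem_singleton] at hzK
            rcases hzK with h6 | h6 | h6
            · exact hal (h6 ▸ hzl)
            · rw [h6] at hzb
              exact self50 _ hzb
            · rw [h6] at hzb
              exact (HL_bt76 h1).1 hzb
          · obtain ⟨a', ha', b', hb', h4, -⟩ := h2
            have hab' : a' ≠ b' := ne_of_nb5 h4.2.2.1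
            have hay' : a' ≠ b := ne_of_nb5 (HL_t76 h4)
            have hby' : b' ≠ b := (HL_bt76 h4).2.symm
            have h5 : b' = y := by
              rw [hK1, mem_insert, mem_insert, mem_singleton] at hb'
              rcases hb' with h6 | h6 | h6
              · exact absurd (h6 ▸ h4.2.1) hal
              · exact absurd h6 hby'
              · exact h6
            have h6 : a' = a := by
              rw [hK1, mem_insert, mem_insert, mem_singleton] at ha'
              rcases ha' with h8 | h8 | h8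
              · exact h8
              · exact absurd h8 hay'
              · exact absurd (h8.trans h5.symm) hab'
            rw [h5, h6] at h4
            exact (stTwHL_5 G).nomut h.n9 a b y y b h1 h4 rfl
      have hne0 : (G.K0 B A).Nonempty := card_pos.1 (by omega)
      obtain ⟨y0, hy0⟩ := hne0
      have h1 := hld y0 hy0
      rw [ld50, Nat.succ_le_iff, card_pos] at h1
      obtain ⟨y, hy⟩ := h1
      obtain ⟨hy1, hyl⟩ := mem_filter.1 hy
      have hyK := (mem_inter.1 hy1).2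
      have h2 := hld y hyK
      have h2' := h2
      rw [ld50, Nat.succ_le_iff, card_pos] at h2
      obtain ⟨z, hz⟩ := h2
      obtain ⟨hz1, hzl⟩ := mem_filter.1 hz
      obtain ⟨hzy, hzK⟩ := mem_inter.1 hz1
      have hyz : y ≠ z := ne_of_nb5 hzy
      have h3 := hld z hzK
      have h4 : (1 : ℤ) ≤ (G.ld50 (G.K0 B A) y : ℤ) := by exact_mod_cast h2'
      have h5 : (1 : ℤ) ≤ (G.ld50 (G.K0 B A) z : ℤ) := by exact_mod_cast h3
      have h6 := CyS50.sum3 hB3 hyK hzK hyz
        (fun u hu => CyS50.g_ld0 (A := A) (x := x) (hld u hu))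
      have h7 : 6 ≤ CyS50.g50 G A B x y + CyS50.g50 G A B x z := by
        have h8 : x ∈ G.nb y ∪ G.nb z := by
          refine hS.e2.two (by rw [hB3]) y hyK z hzK hyz ?_
          exact c.hx
        rw [CyS50.g50, CyS50.g50, if_pos hyl, if_pos hzl]
        rcases mem_union.1 h8 with h9 | h9
        · rw [if_pos h9]
          split_ifs <;> linarith
        · rw [if_pos h9]
          split_ifs <;> linarith
      have hxi0 : (0 : ℤ) ≤ (if x ∈ G.nb X then 1 else 0) := by split_ifs <;> norm_num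
      linarith

end CG

end Pool.Agent.Lib.MP_e95c01_co.N
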