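import Pool.Agent.Lib.MP_e95c01_co.X.XY86

/-!
# S10c: three vertices on each side, pairs of twins on both sides
-/

namespace Pool.Agent.Lib.MP_e95c01_co.N

open Finset

variable {V : Type} [Fintype V] [DecidableEq V]

namespace CG

variable {G : CG V} {A B : Finset V}

/-- the situation: a pair of twins and a third vertex on each side -/
structure Q3_86 (G : CG V) (A B : Finset V) (X X' x Y Y' y : V) : Prop where
  sx : G.Sx A B
  cA : (G.K0 A B).card = 3
  cB : (G.K0 B A).card = 3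
  tX : G.Tw X X'
  tY : G.Tw Y Y'
  kA : G.K0 A B = {X, X', x}
  kB : G.K0 B A = {Y, Y', y}

variable {X X' x Y Y' y : V}

theorem Q3_86.symm (h : G.Q3_86 A B X X' x Y Y' y) : G.Q3_86 B A Y Y' y X X' x :=
  ⟨sx_symm86 h.sx, h.cB, h.cA, h.tY, h.tX, h.kB, h.kA⟩

theorem Q3_86.swap (h : G.Q3_86 A B X X' x Y Y' y) : G.Q3_86 A B X' X x Y Y' y :=
  ⟨h.sx, h.cA, h.cB, symm_5 h.tX, h.tY, by rw [h.kA, insert_comm], h.kB⟩

theorem Q3_86.mX (h : G.Q3_86 A B X X' x Y Y' y) : X ∈ G.K0 A B := by rw [h.kA]; simp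
theorem Q3_86.mX' (h : G.Q3_86 A B X X' x Y Y' y) : X' ∈ G.K0 A B := by rw [h.kA]; simp
theorem Q3_86.mx (h : G.Q3_86 A B X X' x Y Y' y) : x ∈ G.K0 A B := by rw [h.kA]; simp

theorem Q3_86.ne (h : G.Q3_86 A B X X' x Y Y' y) : X ≠ X' ∧ x ≠ X ∧ x ≠ X' := by
  have h1 := h.cA
  rw [h.kA] at h1
  refine ⟨ne_of_nb5 h.tX.1, ?_, ?_⟩
  · rintro rfl
    have h2 : ({x, X', x} : Finset V) = {X', x} := by
      ext v
      simp only [mem_insert, mem_singleton]
      tauto
    rw [h2] at h1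
    have := card_le_two (a := X') (b := x)
    omega
  · rintro rfl
    have h2 : ({X, x, x} : Finset V) = {X, x} := by
      ext v
      simp only [mem_insert, mem_singleton]
      tauto
    rw [h2] at h1
    have := card_le_two (a := X) (b := x)
    omega

/-- twins are adjacent to the whole other side -/
theorem Q3_86.adj (h : G.Q3_86 A B X X' x Y Y' y) {v : V} (hv : v ∈ G.K0 B A) : v ∈ G.nb X := by
  have h1 := h.sx.e1.two (by rw [h.cA]) X h.mX X' h.mX' h.ne.1 hv
  rcases mem_union.1 h1 with h2 | h2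
  · exact h2
  · refine Tw_nb5 (symm_5 h.tX) h2 ?_
    rintro rfl
    exact disjoint_left.1 disK86 h.mX hv

theorem Q3_86.pO3 (h : G.Q3_86 A B X X' x Y Y' y) : G.pO A X = G.K0 B A := by
  rw [pO_K0_86 h.sx.st h.mX]
  exact inter_eq_right.2 fun v hv => h.adj hv

/-- the third vertex is adjacent to the twins on the other side -/
theorem Q3_86.pOx (h : G.Q3_86 A B X X' x Y Y' y) :
    {Y, Y'} ⊆ G.pO A x ∧ 2 ≤ (G.pO A x).card ∧ (G.pO A x).card ≤ 3 := by
  have h1 : {Y, Y'} ⊆ G.pO A x := by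
    rw [pO_K0_86 h.sx.st h.mx]
    intro v hv
    rw [mem_insert, mem_singleton] at hv
    rcases hv with rfl | rfl
    · exact mem_inter.2 ⟨G.sym _ _ (h.symm.adj h.mx), h.symm.mX⟩
    · exact mem_inter.2 ⟨G.sym _ _ (h.symm.swap.adj h.mx), h.symm.mX'⟩
  refine ⟨h1, ?_, ?_⟩
  · have h2 := card_le_card h1
    rw [card_pair h.symm.ne.1] at h2
    exact h2
  · rw [pO_K0_86 h.sx.st h.mx]
    have h2 := card_le_card (inter_subset_right (s₁ := G.nb x) (s₂ := G.K0 B A))
    rw [h.cB] at h2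
    exact h2

theorem Q3_86.notTw (h : G.Q3_86 A B X X' x Y Y' y) : ¬ G.IsTw x := by
  rintro ⟨z, hz⟩
  have n9 := h.sx.st.n9
  have hst := st86 h.sx.st
  have hx := mem_K0_86.1 h.mx
  have hR : x ∈ R ({A, B} : Finset (Finset V)) := memR2_1.2 (hst.NA hx.1)
  obtain ⟨h1, h2⟩ := twI_5 h.sx.st.reg hR hz
  have h3 : G.I {A, B} x = {A} := St1.IA h.mx
  rw [h3] at h2
  have hzA : z ∈ G.N A := by
    have : A ∈ G.I {A, B} z := by rw [h2]; simp
    exact (memI2_1.1 this).2
  have hzB : z ∉ G.N B := by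
    intro h4
    have : B ∈ G.I {A, B} z := memI2_1.2 ⟨Or.inr rfl, h4⟩
    rw [h2, mem_singleton] at this
    exact h.sx.st.ne this.symm
  have h4 : z ∈ G.K0 A B := mem_K0_86.2 ⟨hzA, hzB⟩
  rw [h.kA] at h4
  simp only [mem_insert, mem_singleton] at h4
  rcases h4 with rfl | rfl | rfl
  · exact h.ne.2.2 (uniq_5 n9 (symm_5 hz) h.tX)
  · exact h.ne.2.1 (uniq_5 n9 (symm_5 hz) (symm_5 h.tX))
  · exact ne_of_nb5 hz.1 rfl

/-- value of a twin vertex -/
theorem Q3_86.valX (h : G.Q3_86 A B X X' x Y Y' y) (ty : G.StTy5) :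
    ((G.pT A X).card : ℤ) - 3 ≤ G.B5 A X + G.phi A X := by
  have h1 : (G.pO A X).card = 3 := by rw [h.pO3, h.cB]
  have h2 := phi_tw86 ty h.sx.st (tw_low86 ⟨X', h.tX⟩) (x := X) (by omega)
  have h3 := B5_tw86 (G := G) (A := A) (x := X) ⟨X', h.tX⟩
  omega

theorem Q3_86.X'_pT (h : G.Q3_86 A B X X' x Y Y' y) : X' ∈ G.pT A X :=
  mem_inter.2 ⟨h.tX.1, (mem_K0_86.1 h.mX').1⟩

theorem Q3_86.pT1 (h : G.Q3_86 A B X X' x Y Y' y) : 1 ≤ (G.pT A X).card :=
  card_pos.2 ⟨X', h.X'_pT⟩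

theorem Q3_86.pT2 (h : G.Q3_86 A B X X' x Y Y' y) {v : V} (hv : v ∈ G.nb X) (hN : v ∈ G.N A)
    (hne : v ≠ X') : 2 ≤ (G.pT A X).card :=
  two_le5 (mem_inter.2 ⟨hv, hN⟩) h.X'_pT hne

theorem Q3_86.hid (h : G.Q3_86 A B X X' x Y Y' y) : 2 ≤ (G.pX A X).card := by
  have hst := st86 h.sx.st
  have hX := mem_K0_86.1 h.mX
  have hR : X ∈ R ({A, B} : Finset (Finset V)) := memR2_1.2 (hst.NA hX.1)
  have hI : G.I {A, B} X = {A} := St1.IA h.mX
  have hbig : ∀ D ∈ ({A, B} : Finset (Finset V)), 3 ≤ D.card := by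
    intro D hD
    rw [mem_insert, mem_singleton] at hD
    rcases hD with rfl | rfl
    · exact h.sx.st.bigA
    · exact h.sx.st.bigB
  exact hid_5 h.sx.st.reg hbig hR ⟨X', h.tX⟩ (by rw [hI]; simp)

/-- the neighbours of `X`, if `X` is adjacent to `x` -/
theorem Q3_86.xx (h : G.Q3_86 A B X X' x Y Y' y) (hx : x ∈ G.nb X) :
    G.pT A X = {X', x} ∧ (G.pX A X).card = 2 ∧ ∀ v ∈ G.Cc A B, v ∉ G.nb X := by
  have h1 : (G.pO A X).card = 3 := by rw [h.pO3, h.cB]
  have h2 := split86 (G := G) (A := A) X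
  have h3 := h.hid
  have h4 := h.tX.2.1
  have h5 : ({X', x} : Finset V) ⊆ G.pT A X := by
    intro v hv
    rw [mem_insert, mem_singleton] at hv
    rcases hv with rfl | rfl
    · exact h.X'_pT
    · exact mem_inter.2 ⟨hx, (mem_K0_86.1 h.mx).1⟩
  have h6 := card_le_card h5
  rw [card_pair h.ne.2.2.symm] at h6
  have h7 : G.pT A X = {X', x} :=
    (eq_of_subset_of_card_le h5 (by rw [card_pair h.ne.2.2.symm]; omega)).symm
  refine ⟨h7, by omega, ?_⟩
  intro v hv h8
  have h9 : v ∈ G.pT A X := mem_inter.2 ⟨h8, (mem_Cc_86.1 hv).1⟩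
  rw [h7, mem_insert, mem_singleton] at h9
  rcases h9 with rfl | rfl
  · exact (mem_K0_86.1 h.mX').2 (mem_Cc_86.1 hv).2
  · exact (mem_K0_86.1 h.mx).2 (mem_Cc_86.1 hv).2

/-- the third vertex, low and adjacent to the twins -/
theorem Q3_86.valx (h : G.Q3_86 A B X X' x Y Y' y) (ty : G.StTy5) (hl : G.Low x)
    (hx : x ∈ G.nb X) : {X, X'} ⊆ G.pT A x ∧ 2 ≤ (G.pT A x).card ∧
    4 * ((G.pO A x).card : ℤ) + 2 * ((G.pT A x).card : ℤ) - 8 +
      2 * (open Classical in if G.T3 A x then 1 else 0) ≤ G.B5 A x + G.phi A x := by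
  classical
  have hst := h.sx.st
  have hx' : x ∈ G.nb X' := Tw_nb5 h.tX hx h.ne.2.2
  have h1 : {X, X'} ⊆ G.pT A x := by
    intro v hv
    rw [mem_insert, mem_singleton] at hv
    rcases hv with rfl | rfl
    · exact mem_inter.2 ⟨G.sym _ _ hx, (mem_K0_86.1 h.mX).1⟩
    · exact mem_inter.2 ⟨G.sym _ _ hx', (mem_K0_86.1 h.mX').1⟩
  have h2 := card_le_card h1
  rw [card_pair h.ne.1] at h2
  refine ⟨h1, h2, ?_⟩
  have h3 := phi_low86 ty hst hl h.pOx.2.1 h.pOx.2.2
  have h4 := B5_low86 (G := G) (A := A) hl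
  have h5 : G.s5 A x = 0 := by
    by_contra h6
    have h7 := (ty.s2 A x h6).2.2.2.1
    omega
  have hco := ty.co A (frag86 hst) x
  have h6 : ¬ G.T3 (G.Co A) x := by
    rintro ⟨-, -, -, Q, Q', r, r', hh, tQ, -, -, k1, -, k2, -⟩
    rw [hco.2.1] at k1
    have k3 : Q = X ∨ Q = X' := by
      have m1 := h1 (show X ∈ ({X, X'} : Finset V) by simp)
      have m2 := h1 (show X' ∈ ({X, X'} : Finset V) by simp)
      rw [k1, mem_insert, mem_singleton] at m1 m2
      rcases m1 with m1 | m1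
      · exact Or.inl m1.symm
      · rcases m2 with m2 | m2
        · exact Or.inr m2.symm
        · exact absurd (m1.trans m2.symm) h.ne.1
    have k4 : (G.pX (G.Co A) Q).card = 3 := by
      rw [(ty.co A (frag86 hst) Q).1]
      rcases k3 with rfl | rfl
      · rw [h.pO3, h.cB]
      · rw [h.swap.pO3, h.cB]
    omega
  rw [if_neg h6, h5] at h3
  linarith

/-- `x` low and adjacent to `X` -/
theorem Q3_86.main (h : G.Q3_86 A B X X' x Y Y' y) (ty : G.StTy5) (tot : G.StTotS)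
    (net : G.StNet5) (cv : G.StCvS) (hl : G.Low x) (hx : x ∈ G.nb X) :
    0 ≤ ∑ z ∈ R {A, B}, G.bal5 {A, B} z := by
  classical
  have hst := h.sx.st
  have n9 := hst.n9
  have hx' : x ∈ G.nb X' := Tw_nb5 h.tX hx h.ne.2.2
  obtain ⟨a1, a2, a3⟩ := h.valx ty hl hx
  obtain ⟨b1, b2, b3⟩ := h.xx hx
  obtain ⟨c1, c2, c3⟩ := h.pOx
  have t1 := tot A B hst
  have t2 := tch_sum86 net hst
  have s1 : ∑ x ∈ G.K0 A B, (G.B5 A x + G.phi A x) = (G.B5 A X + G.phi A X) +
      ((G.B5 A X' + G.phi A X') + (G.B5 A x + G.phi A x)) := by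
    rw [h.kA, sum_insert, sum_insert, sum_singleton]
    · rw [mem_singleton]
      exact h.ne.2.2.symm
    · rw [mem_insert, mem_singleton, not_or]
      exact ⟨h.ne.1, h.ne.2.1.symm⟩
  have s2 : ∑ x ∈ G.K0 B A, (G.B5 B x + G.phi B x) = (G.B5 B Y + G.phi B Y) +
      ((G.B5 B Y' + G.phi B Y') + (G.B5 B y + G.phi B y)) := by
    rw [h.kB, sum_insert, sum_insert, sum_singleton]
    · rw [mem_singleton]
      exact h.symm.ne.2.2.symm
    · rw [mem_insert, mem_singleton, not_or]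
      exact ⟨h.symm.ne.1, h.symm.ne.2.1.symm⟩
  rw [s1, s2] at t1
  have vX : -1 ≤ G.B5 A X + G.phi A X := by
    have h1 := h.valX ty
    have h2 := h.pT2 hx (mem_K0_86.1 h.mx).1 h.ne.2.2
    omega
  have vX' : -1 ≤ G.B5 A X' + G.phi A X' := by
    have h1 := h.swap.valX ty
    have h2 := h.swap.pT2 hx' (mem_K0_86.1 h.mx).1 h.ne.2.1
    omega
  by_cases hy : y ∈ G.nb Y
  · -- both adjacent
    have hy' : y ∈ G.nb Y' := Tw_nb5 h.tY hy h.symm.ne.2.2
    have vY : -1 ≤ G.B5 B Y + G.phi B Y := by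
      have h1 := h.symm.valX ty
      have h2 := h.symm.pT2 hy (mem_K0_86.1 h.symm.mx).1 h.symm.ne.2.2
      omega
    have vY' : -1 ≤ G.B5 B Y' + G.phi B Y' := by
      have h1 := h.symm.swap.valX ty
      have h2 := h.symm.swap.pT2 hy' (mem_K0_86.1 h.symm.mx).1 h.symm.ne.2.1
      omega
    by_cases hyl : G.Low y
    · obtain ⟨d1, d2, d3⟩ := h.symm.valx ty hyl hy
      obtain ⟨e1, e2, e3⟩ := h.symm.pOx
      split_ifs at a3 d3 <;> omega
    · have vy : -2 ≤ G.B5 B y + G.phi B y :=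
        val_any86 ty (strip_symm86 hst) h.symm.notTw h.symm.pOx.2.1 h.symm.pOx.2.2
      by_cases c4 : (G.pO A x).card = 3
      · split_ifs at a3 <;> omega
      · by_cases c5 : 3 ≤ (G.pT A x).card
        · split_ifs at a3 <;> omega
        · have c6 : (G.pO A x).card = 2 := by omega
          have c7 : (G.pT A x).card = 2 := by omega
          have hT3 : G.T3 A x := by
            refine ⟨(mem_K0_86.1 h.mx).1, hl, ?_, X, X', Y, Y', y, h.tX, h.tY,
              ⟨hyl, h.symm.notTw⟩, ?_, ?_, b2, b1, ?_⟩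
            · have h1 := split86 (G := G) (A := A) x
              have h2 : (G.nb x).card = 6 := hl
              omega
            · exact (eq_of_subset_of_card_le a1 (by rw [card_pair h.ne.1]; omega)).symm
            · exact (eq_of_subset_of_card_le c1 (by rw [card_pair h.symm.ne.1]; omega)).symm
            · rw [h.pO3, h.kB]
          rw [if_pos hT3] at a3
          omega
  · -- the edge from `X` to `y`
    have hXy : y ∈ G.nb X := h.adj h.symm.mx
    have key : ∀ {K : Finset V} {X X' v w : V}, G.Tw X X' → X ∈ K → X' ∈ K → K.card ≤ 3 →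
        G.Tw v w → v ∈ K → w ∈ K → X ∈ G.nb v → X ∈ G.nb w → False := by
      intro K X X' v w tX hX hX' cK tv hv hw a1 a2
      have b1 : v ≠ X := (ne_of_nb5 a1)
      have b2 : w ≠ X := (ne_of_nb5 a2)
      have b3 : v ≠ X' := by
        rintro rfl
        exact b2 (uniq_5 n9 tv (symm_5 tX))
      have b4 : w ≠ X' := by
        rintro rfl
        exact b1 (uniq_5 n9 (symm_5 tv) (symm_5 tX))
      have b5 : ({v, w, X, X'} : Finset V) ⊆ K := by
        intro u hu
        simp only [mem_insert, mem_singleton] at hu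
        rcases hu with rfl | rfl | rfl | rfl <;> assumption
      have b6 := card_le_card b5
      rw [card_insert_of_notMem, card_insert_of_notMem, card_pair (ne_of_nb5 tX.1)] at b6
      · omega
      · simp only [mem_insert, mem_singleton, not_or]
        exact ⟨b2, b4⟩
      · simp only [mem_insert, mem_singleton, not_or]
        exact ⟨ne_of_nb5 tv.1, b1, b3⟩
    have hxy : y ∈ G.nb x := by
      rcases cv A B h.sx X h.mX y h.symm.mx hXy with ⟨w, h1, h2, h3, h4⟩ |
        ⟨v, w, tv, h1, h2, h3, h4, h5⟩ | ⟨a, b, h1, h2, h3, h4, h5⟩ | ⟨a, b, -, h1, -⟩ |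
        ⟨u, v, h1, -⟩
      · rcases h4 with h4 | h4 | h4
        · exact absurd (G.sym _ _ h2) (b3 w h4)
        · rw [h.kA] at h4
          simp only [mem_insert, mem_singleton] at h4
          rcases h4 with rfl | rfl | rfl
          · exact absurd h1 (tw_low86 ⟨_, h.tX⟩)
          · exact absurd h1 (tw_low86 ⟨_, symm_5 h.tX⟩)
          · exact h3
        · rw [h.kB] at h4
          simp only [mem_insert, mem_singleton] at h4
          rcases h4 with rfl | rfl | rfl
          · exact absurd h1 (tw_low86 ⟨_, h.tY⟩)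
          · exact absurd h1 (tw_low86 ⟨_, symm_5 h.tY⟩)
          · exact absurd h3 (G.irr _)
      · exfalso
        rcases h5 with ⟨h5, -⟩ | ⟨h5, h6⟩ | ⟨h5, h6⟩
        · exact b3 v h5 (G.sym _ _ h1)
        · exact key h.tX h.mX h.mX' h.cA.le tv h5 h6 h1 h3
        · have k1 : v ≠ y := ne_of_nb5 h2
          rw [h.kB] at h5
          simp only [mem_insert, mem_singleton] at h5
          rcases h5 with rfl | rfl | rfl
          · exact hy h2
          · refine hy (Tw_nb5 (symm_5 h.tY) h2 h.symm.ne.2.1)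
          · exact k1 rfl
      · exfalso
        have k1 : ¬ G.IsTw a := (stTwHL_5 G).notHL n9 _ _ _ h1
        rcases h5 with ⟨h5, -⟩ | ⟨h5, -⟩ | ⟨h5, -⟩
        · exact b3 a h5 (G.sym _ _ h4)
        · rw [h.kA] at h5
          simp only [mem_insert, mem_singleton] at h5
          rcases h5 with rfl | rfl | rfl
          · exact k1 ⟨_, h.tX⟩
          · exact k1 ⟨_, symm_5 h.tX⟩
          · exact HL_not_low76 h1 hl
        · rw [h.kB] at h5
          simp only [mem_insert, mem_singleton] at h5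
          rcases h5 with rfl | rfl | rfl
          · exact k1 ⟨_, h.tY⟩
          · exact k1 ⟨_, symm_5 h.tY⟩
          · exact G.irr _ (HL_t76 h1)
      · exact absurd h1 (tw_low86 ⟨_, h.tX⟩)
      · exact absurd ⟨_, h.tX⟩ (twLL_5 h1)
    have c4 : (G.pO A x).card = 3 := by
      have h1 : G.K0 B A ⊆ G.pO A x := by
        rw [h.kB]
        intro v hv
        simp only [mem_insert, mem_singleton] at hv
        rcases hv with rfl | rfl | rfl
        · exact c1 (by simp)
        · exact c1 (by simp)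
        · rw [pO_K0_86 hst h.mx]
          exact mem_inter.2 ⟨hxy, h.symm.mx⟩
      have h2 := card_le_card h1
      rw [h.cB] at h2
      omega
    have vY : -2 ≤ G.B5 B Y + G.phi B Y := by
      have h1 := h.symm.valX ty
      have h2 := h.symm.pT1
      omega
    have vY' : -2 ≤ G.B5 B Y' + G.phi B Y' := by
      have h1 := h.symm.swap.valX ty
      have h2 := h.symm.swap.pT1
      omega
    have vy : -2 ≤ G.B5 B y + G.phi B y :=
      val_any86 ty (strip_symm86 hst) h.symm.notTw h.symm.pOx.2.1 h.symm.pOx.2.2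
    split_ifs at a3 <;> omega

theorem stTh3xy_86 (ty : G.StTy5) (tot : G.StTotS) (loc : G.StLoc5) (net : G.StNet5)
    (cv : G.StCvS) : G.StTh3xy := by
  classical
  rintro A B hs hc ⟨X, X', x, tX, hK⟩ ⟨Y, Y', y, tY, hL⟩
  have hst := hs.st
  have hc' : (G.K0 B A).card = 3 := by
    have h1 := (st86 hst).card_eq
    exact h1.symm.trans hc
  have h : G.Q3_86 A B X X' x Y Y' y := ⟨hs, hc, hc', tX, tY, hK, hL⟩
  have hXY : Y ∈ G.nb X := h.adj h.symm.mX
  obtain ⟨w, wl, w1, w2, w3⟩ := cover86 cv hs tX tY h.mX h.mX' h.symm.mX h.symm.mX' hXY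
    hc.le hc'.le
  rcases w3 with w3 | w3 | w3
  · have e1 : w ≠ X' := by
      rintro rfl
      exact (mem_K0_86.1 h.mX').2 (mem_Cc_86.1 w3).2
    have e2 : w ≠ Y' := by
      rintro rfl
      exact (mem_K0_86.1 h.symm.mX').2 (mem_Cc_86.1 w3).1
    have w1' := tw_adj86 tX e1 w1
    have w2' := tw_adj86 tY e2 w2
    obtain ⟨hT, hnet⟩ := net_common86 ty loc hst w3 wl tX tY h.mX h.mX' h.symm.mX h.symm.mX'
      w1 w1' w2 w2'
    have t1 := tot A B hst
    have t2 := tch_le86 net hst hT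
    have s1 : ∑ x ∈ G.K0 A B, (G.B5 A x + G.phi A x) = (G.B5 A X + G.phi A X) +
        ((G.B5 A X' + G.phi A X') + (G.B5 A x + G.phi A x)) := by
      rw [h.kA, sum_insert, sum_insert, sum_singleton]
      · rw [mem_singleton]
        exact h.ne.2.2.symm
      · rw [mem_insert, mem_singleton, not_or]
        exact ⟨h.ne.1, h.ne.2.1.symm⟩
    have s2 : ∑ x ∈ G.K0 B A, (G.B5 B x + G.phi B x) = (G.B5 B Y + G.phi B Y) +
        ((G.B5 B Y' + G.phi B Y') + (G.B5 B y + G.phi B y)) := by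
      rw [h.kB, sum_insert, sum_insert, sum_singleton]
      · rw [mem_singleton]
        exact h.symm.ne.2.2.symm
      · rw [mem_insert, mem_singleton, not_or]
        exact ⟨h.symm.ne.1, h.symm.ne.2.1.symm⟩
    rw [s1, s2] at t1
    have vX := h.valX ty
    have vX' := h.swap.valX ty
    have vY := h.symm.valX ty
    have vY' := h.symm.swap.valX ty
    have pX := h.pT2 (G.sym _ _ w1) (mem_Cc_86.1 w3).1 e1
    have pX' := h.swap.pT2 (G.sym _ _ w1') (mem_Cc_86.1 w3).1 (by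
      rintro rfl
      exact (mem_K0_86.1 h.mX).2 (mem_Cc_86.1 w3).2)
    have pY := h.symm.pT2 (G.sym _ _ w2) (mem_Cc_86.1 w3).2 e2
    have pY' := h.symm.swap.pT2 (G.sym _ _ w2') (mem_Cc_86.1 w3).2 (by
      rintro rfl
      exact (mem_K0_86.1 h.symm.mX).2 (mem_Cc_86.1 w3).1)
    have vx : -2 ≤ G.B5 A x + G.phi A x :=
      val_any86 ty hst h.notTw h.pOx.2.1 h.pOx.2.2
    have vy : -2 ≤ G.B5 B y + G.phi B y :=
      val_any86 ty (strip_symm86 hst) h.symm.notTw h.symm.pOx.2.1 h.symm.pOx.2.2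
    omega
  · rw [hK] at w3
    simp only [mem_insert, mem_singleton] at w3
    rcases w3 with rfl | rfl | rfl
    · exact absurd wl (tw_low86 ⟨_, tX⟩)
    · exact absurd wl (tw_low86 ⟨_, symm_5 tX⟩)
    · exact h.main ty tot net cv wl (G.sym _ _ w1)
  · rw [hL] at w3
    simp only [mem_insert, mem_singleton] at w3
    rcases w3 with rfl | rfl | rfl
    · exact absurd wl (tw_low86 ⟨_, tY⟩)
    · exact absurd wl (tw_low86 ⟨_, symm_5 tY⟩)
    · have h1 := h.symm.main ty tot net cv wl (G.sym _ _ w2)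
      rw [pair_comm] at h1
      exact h1

end CG

end Pool.Agent.Lib.MP_e95c01_co.N
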