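import Pool.Agent.Lib.MP_e95c01_co.X.SP_87

/-!
# S2: common vertices without neighbours in `K0`
-/

namespace Pool.Agent.Lib.MP_e95c01_co.N

open Finset

variable {V : Type} [Fintype V] [DecidableEq V]

namespace CG

variable {G : CG V} {A B : Finset V}

/-- an untouched common vertex -/
structure Un87 (G : CG V) (A B : Finset V) (z : V) : Prop where
  mem : z ∈ G.Cc A B
  k0 : G.nb z ∩ G.K0 A B = ∅
  k1 : G.nb z ∩ G.K0 B A = ∅

theorem Un87.symm {z : V} (h : G.Un87 A B z) : G.Un87 B A z :=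
  ⟨by rw [Cc_symm87]; exact h.mem, h.k1, h.k0⟩

theorem Un87.of {z : V} (hz : z ∈ G.Cc A B) (h : ¬ G.Tch A B z) : G.Un87 A B z :=
  ⟨hz, (nb_K_empty87 hz h).1, (nb_K_empty87 hz h).2⟩

theorem Un87.pT {z : V} (h : G.Un87 A B z) : G.pT A z = G.nb z ∩ G.Cc A B := by
  rw [pT_eq87 (B := B), h.k0, empty_union]

theorem Un87.pTB {z : V} (h : G.Un87 A B z) : G.pT B z = G.nb z ∩ G.Cc A B := by
  rw [h.symm.pT, Cc_symm87]

theorem Un87.pO (hs : G.Strip A B) {z : V} (h : G.Un87 A B z) : G.pO A z = G.pX B z := by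
  rw [pO_eq87 hs, h.k1, union_empty]

theorem Un87.pOB (hs : G.Strip A B) {z : V} (h : G.Un87 A B z) : G.pO B z = G.pX A z :=
  h.symm.pO hs.symm72

theorem Un87.NA {z : V} (h : G.Un87 A B z) : z ∈ G.N A := (mem_Cc87.1 h.mem).1

theorem Un87.NB {z : V} (h : G.Un87 A B z) : z ∈ G.N B := (mem_Cc87.1 h.mem).2

theorem Un87.u3 (hs : G.Strip A B) {z : V} (h : G.Un87 A B z) : G.U3 A z ↔ G.U3 (G.Co B) z := by
  rw [U3, U3, NCo87 hs.fB87, pXCo87, pTCo87 hs.fB87, h.pOB hs, h.pTB, h.pT]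
  have h1 := h.NA
  have h2 := h.NB
  tauto

theorem Un87.hf (hs : G.Strip A B) {z : V} (h : G.Un87 A B z) (hf : G.HF (G.Co A) z) :
    G.HF B z := by
  obtain ⟨h1, h2, h3, a, b, h4, h5, h6, h7⟩ := hf
  rw [pXCo87, h.pO hs] at h3
  rw [NCo87 hs.fA87] at h5 h6
  rw [pTCo87 hs.fA87, h.pT] at h7
  refine ⟨h.NB, h2, h3, a, b, h4, ?_, ?_, by rw [h.pTB, h7]⟩
  · have h8 : a ∈ G.nb z ∩ G.Cc A B := by rw [h7]; exact mem_singleton_self a
    exact (mem_Cc87.1 (mem_inter.1 h8).2).2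
  · have h8 : a ∈ G.nb z ∩ G.Cc A B := by rw [h7]; exact mem_singleton_self a
    have h9 := (mem_Cc87.1 (mem_inter.1 h8).2).2
    exact (hl_part87 hs (R_of_NA87 hs h5) (R_of_NA87 hs h6) (R_of_NA87 hs h.NA) h4).2.1 h9

theorem Un87.t3 (hs : G.Strip A B) {z : V} (h : G.Un87 A B z) (hf : G.T3 (G.Co A) z) :
    G.T3 B z := by
  obtain ⟨h1, h2, h3, Q, Q', r, r', k, h4, h5, h6, h7, h8, h9, h10, h11⟩ := hf
  rw [pXCo87] at h3 h9
  rw [pTCo87 hs.fA87] at h7 h10
  rw [pOCo87 hs.fA87] at h8 h11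
  rw [h.pO hs] at h3
  rw [h.pT] at h7
  have hQ : Q ∈ G.nb z ∩ G.Cc A B := by rw [h7]; exact mem_insert_self _ _
  have hQC := (mem_inter.1 hQ).2
  have hQ' : Q' ∈ G.nb z ∩ G.Cc A B := by
    rw [h7]; exact mem_insert_of_mem (mem_singleton_self _)
  have hQt : G.IsTw Q := ⟨Q', h4⟩
  -- `Q` has no neighbour in `K0 A B`
  have hK0 : G.nb Q ∩ G.K0 A B = ∅ := by
    rw [eq_empty_iff_forall_notMem]
    intro v hv
    rw [mem_inter] at hv
    have h12 : v ∈ G.pT A Q := mem_inter.2 ⟨hv.1, (mem_K087.1 hv.2).1⟩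
    rw [h10, mem_insert, mem_singleton] at h12
    rcases h12 with rfl | rfl
    · exact (mem_K087.1 hv.2).2 (mem_Cc87.1 (mem_inter.1 hQ').2).2
    · exact (mem_K087.1 hv.2).2 h.NB
  have hc := pO_card87 hs Q
  have hb := pX_tw87 hs.symm72 (mem_Cc87.1 hQC).2 hQt
  have hK1 : G.nb Q ∩ G.K0 B A = ∅ := by
    rw [← card_eq_zero]
    omega
  have hUQ : G.Un87 A B Q := ⟨hQC, hK0, hK1⟩
  refine ⟨h.NB, h2, h3, Q, Q', r, r', k, h4, h5, h6, by rw [h.pTB, h7], by rw [h.pOB hs, h8],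
    ?_, ?_, ?_⟩
  · rw [← hUQ.pO hs]; exact h9
  · rw [hUQ.pTB, ← hUQ.pT]; exact h10
  · rw [hUQ.pOB hs]; exact h11

theorem Un87.rf (hs : G.Strip A B) {z : V} (h : G.Un87 A B z) (hf : G.RF (G.Co A) z) :
    G.RF B z := by
  obtain ⟨h1, p', m, m', h2, h3, h4, h5, h6, h7⟩ := hf
  rw [pXCo87, h.pO hs] at h5
  rw [pTCo87 hs.fA87, h.pT] at h4
  rw [pOCo87 hs.fA87] at h6
  exact ⟨h.NB, p', m, m', h2, h3, by rw [h.pTB, h4], h5, by rw [h.pOB hs, h6], h7⟩

/-- the flags of an untouched low vertex -/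
theorem Un87.ps_low (hs : G.Strip A B) {z : V} (h : G.Un87 A B z) (hl : G.Low z) :
    (G.s5 (G.Co B) z - G.s5 A z) + (G.s5 (G.Co A) z - G.s5 B z) ≤ G.ps5 A B z := by
  classical
  have h1 := h.u3 hs
  have h2 := h.symm.u3 hs.symm72
  have h3 := h.hf hs
  have h4 := h.symm.hf hs.symm72
  have h5 := h.t3 hs
  have h6 := h.symm.t3 hs.symm72
  rw [ps5, phi_low87 hl, phi_low87 hl]
  have h7 : (if G.U3 A z then (1 : ℤ) else 0) = if G.U3 (G.Co B) z then 1 else 0 := by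
    simp only [h1]
  have h8 : (if G.U3 B z then (1 : ℤ) else 0) = if G.U3 (G.Co A) z then 1 else 0 := by
    simp only [h2]
  have h9 : (if G.HF (G.Co A) z then (1 : ℤ) else 0) ≤ if G.HF B z then 1 else 0 := by
    split_ifs <;> first | omega | exact absurd (h3 ‹_›) ‹_›
  have h10 : (if G.HF (G.Co B) z then (1 : ℤ) else 0) ≤ if G.HF A z then 1 else 0 := by
    split_ifs <;> first | omega | exact absurd (h4 ‹_›) ‹_›
  have h11 : (if G.T3 (G.Co A) z then (1 : ℤ) else 0) ≤ if G.T3 B z then 1 else 0 := by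
    split_ifs <;> first | omega | exact absurd (h5 ‹_›) ‹_›
  have h12 : (if G.T3 (G.Co B) z then (1 : ℤ) else 0) ≤ if G.T3 A z then 1 else 0 := by
    split_ifs <;> first | omega | exact absurd (h6 ‹_›) ‹_›
  linarith

theorem Un87.ps_tw (hs : G.Strip A B) {z : V} (h : G.Un87 A B z) (ht : G.IsTw z) :
    0 ≤ G.ps5 A B z := by
  classical
  have h3 := h.rf hs
  have h4 := h.symm.rf hs.symm72
  rw [ps5, phi_tw87 ht, phi_tw87 ht]
  have h9 : (if G.RF (G.Co A) z then (1 : ℤ) else 0) ≤ if G.RF B z then 1 else 0 := by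
    split_ifs <;> first | omega | exact absurd (h3 ‹_›) ‹_›
  have h10 : (if G.RF (G.Co B) z then (1 : ℤ) else 0) ≤ if G.RF A z then 1 else 0 := by
    split_ifs <;> first | omega | exact absurd (h4 ‹_›) ‹_›
  linarith

theorem s5_type87 {S : Finset V} {z : V} (h : G.s5 S z ≠ 0) :
    (G.pX S z).card = 2 ∧ (G.pT S z).card = 1 ∧ (G.pO S z).card = 3 := by
  obtain ⟨v, hv⟩ := s5_S0_87 h
  exact S0_type87 hv

/-- all flags of type `(2, 1, 3)` -/
theorem phi_213_87 (hf : G.Frag A) {z : V} (hl : G.Low z) (h1 : (G.pX A z).card = 2)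
    (h2 : (G.pT A z).card = 1) : G.phi A z = - G.s5 A z := by
  classical
  have h3 := nb_split87 (G := G) A z
  have h4 : (G.nb z).card = 6 := hl
  have e1 : G.s5 (G.Co A) z = 0 := by
    by_contra h
    have h5 := s5_type87 h
    rw [pXCo87, pOCo87 hf] at h5
    omega
  have e2 : ¬ G.U3 (G.Co A) z := fun h => by
    have h5 := (stTy5_87 G).u3 _ _ h
    rw [pTCo87 hf] at h5
    omega
  have e3 : ¬ G.U3 A z := fun h => by
    have h5 := (stTy5_87 G).u3 _ _ h
    omega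
  have e4 : ¬ G.T3 (G.Co A) z := fun h => by
    have h5 := (stTy5_87 G).t3 _ _ h
    rw [pTCo87 hf] at h5
    omega
  have e5 : ¬ G.T3 A z := fun h => by
    have h5 := (stTy5_87 G).t3 _ _ h
    omega
  have e6 : ¬ G.HF (G.Co A) z := fun h => by
    have h5 := (stTy5_87 G).hf _ _ h
    rw [pXCo87] at h5
    omega
  have e7 : ¬ G.HF A z := fun h => by
    have h5 := (stTy5_87 G).hf _ _ h
    omega
  rw [phi_low87 hl, e1, if_neg e2, if_neg e3, if_neg e4, if_neg e5, if_neg e6, if_neg e7]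
  ring

theorem s5_eq_one87 {S : Finset V} {u v : V} (h : G.S0 S u v) (h1 : G.LLs S u v)
    (h2 : G.pT S v = {u}) : G.s5 S u = 1 := by
  classical
  have h3 : ¬ ∃ w, G.S0 S u w ∧ ¬ G.LLs S u w := by
    rintro ⟨w, h4, h5⟩
    have h6 := h.2.2.2.1
    rw [h4.2.2.2.1, singleton_inj] at h6
    subst h6
    exact h5 h1
  rw [s5, if_neg h3, if_pos ⟨v, h, h2⟩]

theorem s5_eq_two87 {S : Finset V} {u v : V} (h : G.S0 S u v) (h1 : ¬ G.LLs S u v) :
    G.s5 S u = 2 := by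
  classical
  rw [s5, if_pos ⟨v, h, h1⟩]

theorem s5_eq_zero87 {S : Finset V} {u v : V} (h : G.S0 S u v) (h1 : G.LLs S u v)
    (h2 : G.pT S v ≠ {u}) : G.s5 S u = 0 := by
  classical
  have h3 : ¬ ∃ w, G.S0 S u w ∧ ¬ G.LLs S u w := by
    rintro ⟨w, h4, h5⟩
    have h6 := h.2.2.2.1
    rw [h4.2.2.2.1, singleton_inj] at h6
    subst h6
    exact h5 h1
  have h4 : ¬ ∃ w, G.S0 S u w ∧ G.pT S w = {u} := by
    rintro ⟨w, h4, h5⟩
    have h6 := h.2.2.2.1
    rw [h4.2.2.2.1, singleton_inj] at h6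
    subst h6
    exact h2 h5
  rw [s5, if_neg h3, if_neg h4]

theorem LLs_symm87 {S : Finset V} {u v : V} (h : G.LLs S u v) : G.LLs S v u := by
  obtain ⟨⟨x, y, h1⟩, h2⟩ := h
  exact ⟨⟨y, x, LL_symm76 h1⟩, h2.symm⟩

/-- the main case of S2 -/
theorem Un87.main (hs : G.Strip A B) {z : V} (h : G.Un87 A B z)
    (hlt : G.s5 (G.Co B) z < G.s5 A z) : ∃ v, G.Low v ∧ G.nb z ∩ G.Cc A B = {v} ∧
      G.nb v ∩ G.Cc A B = {z} ∧ G.Low z ∧ G.Tch A B v ∧
      ((G.ps5 A B z = -2 ∧ G.nb v ∩ G.K0 B A = ∅ ∧ (G.pX B v).card = 1 ∧ G.pT B v = {z}) ∨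
       (G.ps5 A B z = -1 ∧ G.phi A v = -1 ∧ G.nb v ∩ G.K0 A B = ∅ ∧
          (G.nb v ∩ G.K0 B A).card = 1 ∧ (G.pX A v).card = 2 ∧ (G.pX B v).card = 2)) := by
  classical
  have hpos : G.s5 A z ≠ 0 := by
    have := s5_nonneg87 (G := G) (G.Co B) z
    omega
  obtain ⟨v, hv⟩ := s5_S0_87 hpos
  have hty := S0_type87 hv
  have hS0 := hv
  obtain ⟨-, hl, hlv, hTv, ⟨q, q', hq, hX, hqv⟩, hex⟩ := hv
  have hTz : G.nb z ∩ G.Cc A B = {v} := by rw [← h.pT]; exact hTv
  have hvm : v ∈ G.nb z ∩ G.Cc A B := by rw [hTz]; exact mem_singleton_self v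
  rw [mem_inter] at hvm
  obtain ⟨hvz, hvC⟩ := hvm
  have hzv : z ∈ G.nb v := G.sym _ _ hvz
  have hvA := (mem_Cc87.1 hvC).1
  have hvB := (mem_Cc87.1 hvC).2
  have hzNv : z ∈ G.nb v ∩ G.Cc A B := mem_inter.2 ⟨hzv, h.mem⟩
  -- `ps5`
  have hpsA : G.phi A z = - G.s5 A z := phi_213_87 hs.fA87 hl hty.1 hty.2.1
  have hpsB : G.phi B z = G.s5 (G.Co B) z := by
    have h1 : G.phi (G.Co B) z = - G.s5 (G.Co B) z := by
      refine phi_213_87 ?_ hl ?_ ?_
      · exact ((G.stCo_37 B) hs.fB87).1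
      · rw [pXCo87, h.pOB hs]; exact hty.1
      · rw [pTCo87 hs.fB87, h.pTB, ← h.pT]; exact hty.2.1
    have h2 : G.phi (G.Co B) z = - G.phi B z := by
      rw [phi, phi, CoCo87 hs.fB87]
      ring
    linarith
  have hps : G.ps5 A B z = G.s5 (G.Co B) z - G.s5 A z := by
    rw [ps5, hpsA, hpsB]
    ring
  have hdv : (G.nb v).card = 6 := hlv
  have hdeg := deg_Cc87 hs v
  by_cases hexB : G.pT B v = {z} ∧ (G.pX B v).card = 1
  · obtain ⟨e1, e2⟩ := hexB
    refine ⟨v, hlv, hTz, ?_, hl, ?_, Or.inl ⟨?_, ?_, e2, e1⟩⟩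
    · -- `nb v ∩ Cc = {z}`
      apply Finset.Subset.antisymm
      · intro w hw
        rw [← e1]
        exact mem_inter.2 ⟨(mem_inter.1 hw).1, (mem_Cc87.1 (mem_inter.1 hw).2).2⟩
      · rw [singleton_subset_iff]
        exact hzNv
    · by_contra hT
      have hU := Un87.of hvC hT
      apply hex
      refine ⟨?_, ?_⟩
      · rw [hU.pT, ← hU.pTB, e1]
      · rw [hU.pO hs, e2]
    · -- value
      have h1 : G.s5 (G.Co B) z = 0 := by
        by_contra h1
        obtain ⟨w, hw⟩ := s5_S0_87 h1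
        obtain ⟨-, -, -, w4, -, w6⟩ := hw
        rw [pTCo87 hs.fB87, h.pTB, hTz, singleton_inj] at w4
        subst w4
        apply w6
        rw [pTCo87 hs.fB87, pOCo87 hs.fB87]
        exact ⟨e1, e2⟩
      have h2 : ¬ G.LLs A z v := by
        rintro ⟨⟨x, y, h3⟩, -⟩
        -- two neighbours of `z` in `B` are neighbours of `v`
        have h4 : (G.pX B z).card = 3 := by rw [← h.pO hs]; exact hty.2.2
        have h5 : (G.pX B z).erase x ⊆ G.pX B v := by
          intro w hw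
          rw [mem_erase] at hw
          have h6 := mem_inter.1 hw.2
          rcases LL_to76 h3 h6.1 hw.1 with h7 | h7
          · subst h7
            exact absurd h6.2 (hs.s1_87.symm.NA hvB).1
          · exact mem_inter.2 ⟨h7, h6.2⟩
        have h6 := card_le_card h5
        have h7 := pred_card_le_card_erase (s := G.pX B z) (a := x)
        omega
      rw [hps, h1, s5_eq_two87 hS0 h2]
      norm_num
    · rw [eq_empty_iff_forall_notMem]
      intro w hw
      have h3 : w ∈ G.pT B v := mem_inter.2 ⟨(mem_inter.1 hw).1, (mem_K087.1 (mem_inter.1 hw).2).1⟩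
      rw [e1, mem_singleton] at h3
      subst h3
      exact (mem_K087.1 (mem_inter.1 hw).2).2 h.NA
  · -- `S0 (Co B) z v`
    have hSB : G.S0 (G.Co B) z v := by
      refine ⟨by rw [NCo87 hs.fB87]; exact h.NB, hl, hlv, ?_, ⟨q, q', hq, ?_, hqv⟩, ?_⟩
      · rw [pTCo87 hs.fB87, h.pTB, hTz]
      · rw [pXCo87, h.pOB hs, hX]
      · rw [pTCo87 hs.fB87, pOCo87 hs.fB87]
        exact hexB
    have hLL : G.LLs (G.Co B) z v := by
      by_contra h1
      have h2 := s5_eq_two87 hSB h1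
      have h3 := s5_le87 (G := G) A z
      omega
    have hLLe := hLL
    obtain ⟨⟨x, y, hxy⟩, hXe⟩ := hLL
    rw [pXCo87, pXCo87, pO_eq87 hs.symm72, h.pOB hs] at hXe
    have hK0 : G.nb v ∩ G.K0 A B = ∅ := by
      rw [eq_empty_iff_forall_notMem]
      intro w hw
      have h1 : w ∈ G.pX A z := by rw [← hXe]; exact mem_union_right _ hw
      exact (hs.s1_87.NA (mem_K087.1 (mem_inter.1 hw).2).1).1 (mem_inter.1 h1).2
    rw [hK0, union_empty] at hXe
    have hLA : G.LLs A z v := ⟨⟨x, y, hxy⟩, hXe⟩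
    have hA1 : G.pT A v = {z} := by
      by_contra h1
      have h2 := s5_eq_zero87 hS0 hLA h1
      exact hpos h2
    have hsA := s5_eq_one87 hS0 hLA hA1
    have hB1 : G.pT B v ≠ {z} := by
      intro h1
      have h2 := s5_eq_one87 hSB hLLe (by rw [pTCo87 hs.fB87]; exact h1)
      omega
    have hsB := s5_eq_zero87 hSB hLLe (by rw [pTCo87 hs.fB87]; exact hB1)
    have hCv : G.nb v ∩ G.Cc A B = {z} := by
      rw [← hA1, pT_eq87 (B := B), hK0, empty_union]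
    have hK1 : (G.nb v ∩ G.K0 B A).Nonempty := by
      rw [nonempty_iff_ne_empty]
      intro h1
      apply hB1
      rw [pT_eq87 (A := B) (B := A), h1, empty_union, Cc_symm87, hCv]
    have hK1y : G.nb v ∩ G.K0 B A ⊆ {y} := by
      intro w hw
      rw [mem_singleton]
      by_contra h1
      rcases LL_from76 hxy (mem_inter.1 hw).1 h1 with h2 | h2
      · subst h2
        exact (mem_K087.1 (mem_inter.1 hw).2).2 h.NA
      · have h3 : w ∈ G.nb z ∩ G.K0 B A := mem_inter.2 ⟨h2, (mem_inter.1 hw).2⟩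
        rw [h.k1] at h3
        exact absurd h3 (notMem_empty _)
    have hK1c : (G.nb v ∩ G.K0 B A).card = 1 := by
      have h1 := card_le_card hK1y
      rw [card_singleton] at h1
      have h2 := card_pos.2 hK1
      omega
    have hXAv : (G.pX A v).card = 2 := by rw [hXe]; exact hty.1
    rw [hK0, hCv, hK1c, hXAv, card_empty, card_singleton] at hdeg
    have hXBv : (G.pX B v).card = 2 := by omega
    refine ⟨v, hlv, hTz, hCv, hl, ⟨hvC, ?_⟩, Or.inr ⟨by rw [hps, hsA, hsB]; norm_num, ?_, hK0,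
      hK1c, hXAv, hXBv⟩⟩
    · rw [inter_union_distrib_left]
      exact hK1.mono subset_union_right
    · have hS0v : G.S0 A v z := by
        refine ⟨hvA, hlv, hl, hA1, ⟨q, q', hq, by rw [hXe]; exact hX, ?_⟩, ?_⟩
        · have h1 : q ∈ G.pX A z := by rw [hX]; exact mem_insert_self _ _
          exact (mem_inter.1 h1).1
        · intro h1
          have h2 := h1.2
          rw [hty.2.2] at h2
          omega
      rw [phi_213_87 hs.fA87 hlv hXAv (by rw [hA1, card_singleton]),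
        s5_eq_one87 hS0v (LLs_symm87 hLA) hTv]

/-- S2 -/
theorem stUn5_87 (G : CG V) : G.StUn5 := by
  intro A B hs z hz hT hneg
  have h := Un87.of hz hT
  by_cases hl : G.Low z
  · have h1 := h.ps_low hs hl
    rcases lt_or_ge (G.s5 (G.Co B) z) (G.s5 A z) with h2 | h2
    · obtain ⟨v, c1, c2, c3, c4, c5, c6⟩ := h.main hs h2
      refine ⟨v, c1, c2, c3, c4, c5, ?_⟩
      rcases c6 with c6 | c6
      · exact Or.inl c6
      · exact Or.inr (Or.inr (Or.inl c6))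
    · have h3 : G.s5 (G.Co A) z < G.s5 B z := by linarith
      obtain ⟨v, c1, c2, c3, c4, c5, c6⟩ := h.symm.main hs.symm72 h3
      rw [Cc_symm87] at c2 c3
      rw [ps5_symm87] at c6
      refine ⟨v, c1, c2, c3, c4, Tch_symm87.1 c5, ?_⟩
      rcases c6 with c6 | ⟨k1, k2, k3, k4, k5, k6⟩
      · exact Or.inr (Or.inl c6)
      · exact Or.inr (Or.inr (Or.inr ⟨k1, k2, k3, k4, k6, k5⟩))
  · by_cases ht : G.IsTw z
    · have h1 := h.ps_tw hs ht
      linarith
    · rw [ps5, phi_hub87 hl ht, phi_hub87 hl ht] at hneg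
      linarith

end CG

end Pool.Agent.Lib.MP_e95c01_co.N
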