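import Pool.Agent.Lib.MP_e95c01_co.X.S2_87

/-!
# S3: touched low vertices
-/

namespace Pool.Agent.Lib.MP_e95c01_co.N

open Finset

variable {V : Type} [Fintype V] [DecidableEq V]

namespace CG

variable {G : CG V} {A B : Finset V}

open Classical in
/-- the flags of a low vertex by type -/
theorem phi_range87 (hf : G.Frag A) {z : V} (hl : G.Low z) :
    -2 ≤ G.phi A z ∧ (G.U3 (G.Co A) z → G.phi A z = 2) ∧
    (G.phi A z < 0 → G.s5 A z ≠ 0 ∨ G.U3 A z ∨ G.T3 (G.Co A) z ∨ G.HF (G.Co A) z) := by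
  have a1 := s5_nonneg87 (G := G) A z
  have a2 := s5_le87 (G := G) A z
  have a3 := s5_nonneg87 (G := G) (G.Co A) z
  have a4 := s5_le87 (G := G) (G.Co A) z
  have b1 : G.s5 A z ≠ 0 → (G.pX A z).card = 2 ∧ (G.pT A z).card = 1 ∧ (G.pO A z).card = 3 :=
    s5_type87
  have b2 : G.s5 (G.Co A) z ≠ 0 → (G.pO A z).card = 2 ∧ (G.pT A z).card = 1 ∧
      (G.pX A z).card = 3 := by
    intro h
    have h1 := s5_type87 h
    rwa [pXCo87, pTCo87 hf, pOCo87 hf] at h1
  have b3 := (stTy5_87 G).u3 A z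
  have b4 := (stTy5_87 G).u3 (G.Co A) z
  have b5 := (stTy5_87 G).t3 A z
  have b6 := (stTy5_87 G).t3 (G.Co A) z
  have b7 := (stTy5_87 G).hf A z
  have b8 := (stTy5_87 G).hf (G.Co A) z
  rw [pXCo87, pTCo87 hf, pOCo87 hf] at b4 b6 b8
  have hp := phi_low87 hl A
  by_cases c1 : G.s5 A z = 0
  · by_cases c2 : G.s5 (G.Co A) z = 0
    · rw [c1, c2] at hp
      by_cases c3 : G.U3 A z
      · have d := b3 c3
        have e1 : ¬ G.U3 (G.Co A) z := fun h => by have := b4 h; omega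
        have e2 : ¬ G.T3 A z := fun h => by have := b5 h; omega
        have e3 : ¬ G.T3 (G.Co A) z := fun h => by have := b6 h; omega
        have e4 : ¬ G.HF A z := fun h => by have := b7 h; omega
        have e5 : ¬ G.HF (G.Co A) z := fun h => by have := b8 h; omega
        rw [if_pos c3, if_neg e1, if_neg e2, if_neg e3, if_neg e4, if_neg e5] at hp
        refine ⟨by linarith, fun h => absurd h e1, fun _ => Or.inr (Or.inl c3)⟩
      · by_cases c4 : G.U3 (G.Co A) z
        · have d := b4 c4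
          have e2 : ¬ G.T3 A z := fun h => by have := b5 h; omega
          have e3 : ¬ G.T3 (G.Co A) z := fun h => by have := b6 h; omega
          have e4 : ¬ G.HF A z := fun h => by have := b7 h; omega
          have e5 : ¬ G.HF (G.Co A) z := fun h => by have := b8 h; omega
          rw [if_neg c3, if_pos c4, if_neg e2, if_neg e3, if_neg e4, if_neg e5] at hp
          refine ⟨by linarith, fun _ => by linarith, fun h => by linarith⟩
        · by_cases c5 : G.T3 (G.Co A) z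
          · have d := b6 c5
            have e4 : ¬ G.HF A z := fun h => by have := b7 h; omega
            have e5 : ¬ G.HF (G.Co A) z := fun h => by have := b8 h; omega
            rw [if_neg c3, if_neg c4, if_pos c5, if_neg e4, if_neg e5] at hp
            refine ⟨by split_ifs at hp <;> linarith, fun h => absurd h c4,
              fun _ => Or.inr (Or.inr (Or.inl c5))⟩
          · by_cases c6 : G.HF (G.Co A) z
            · have d := b8 c6
              have e4 : ¬ G.HF A z := fun h => by have := b7 h; omega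
              rw [if_neg c3, if_neg c4, if_neg c5, if_neg e4, if_pos c6] at hp
              refine ⟨by split_ifs at hp <;> linarith, fun h => absurd h c4,
                fun _ => Or.inr (Or.inr (Or.inr c6))⟩
            · rw [if_neg c3, if_neg c4, if_neg c5, if_neg c6] at hp
              refine ⟨by split_ifs at hp <;> linarith, fun h => absurd h c4, fun h => ?_⟩
              exfalso
              split_ifs at hp <;> linarith
    · have d := b2 c2
      have e0 : ¬ G.U3 A z := fun h => by have := b3 h; omega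
      have e1 : ¬ G.U3 (G.Co A) z := fun h => by have := b4 h; omega
      have e2 : ¬ G.T3 A z := fun h => by have := b5 h; omega
      have e3 : ¬ G.T3 (G.Co A) z := fun h => by have := b6 h; omega
      have e4 : ¬ G.HF A z := fun h => by have := b7 h; omega
      have e5 : ¬ G.HF (G.Co A) z := fun h => by have := b8 h; omega
      rw [c1, if_neg e0, if_neg e1, if_neg e2, if_neg e3, if_neg e4, if_neg e5] at hp
      refine ⟨by linarith, fun h => absurd h e1, fun h => by linarith⟩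
  · have d := b1 c1
    have e : G.phi A z = - G.s5 A z := phi_213_87 hf hl d.1 d.2.1
    refine ⟨by linarith, fun h => by have := b4 h; omega, fun _ => Or.inl c1⟩

/-- a cost at `A` has one of the kinds of `KA` -/
theorem kind87 (hs : G.Strip A B) {c : V} (hT : G.Tch A B c) (hl : G.Low c)
    (h : G.phi A c < 0) : G.KA A B c := by
  have hcA := (mem_Cc87.1 hT.1).1
  have hcB := (mem_Cc87.1 hT.1).2
  have hpT := pT_eq87 (A := A) (B := B) (G := G) c
  have hcard := pT_card87 (G := G) A B c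
  have hO := pO_card87 hs c
  have hbp := pX_pos87 hcB
  have hK : (G.nb c ∩ G.K0 A B) = ∅ → (G.nb c ∩ G.K0 B A).Nonempty := by
    intro h1
    have h2 := hT.2
    rwa [inter_union_distrib_left, h1, empty_union] at h2
  -- without neighbours in `K0 A B`
  have first : (G.nb c ∩ G.K0 A B) = ∅ → 1 ≤ (G.pT A c).card → G.KA A B c := by
    intro h1 h2
    left
    refine ⟨h1, hK h1, ?_⟩
    rw [h1, card_empty] at hcard
    rw [← card_pos]
    omega
  -- a single vertex in `pT`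
  have single : ∀ v, G.pT A c = {v} → (G.nb c ∩ G.K0 A B) ≠ ∅ →
      G.nb c ∩ G.K0 A B = {v} ∧ G.nb c ∩ G.Cc A B = ∅ ∧ v ∈ G.K0 A B := by
    intro v hv h1
    rw [hv, card_singleton] at hcard
    have h2 : 0 < (G.nb c ∩ G.K0 A B).card := card_pos.2 (nonempty_iff_ne_empty.2 h1)
    have h3 : (G.nb c ∩ G.Cc A B) = ∅ := by rw [← card_eq_zero]; omega
    rw [h3, union_empty] at hpT
    have h4 : G.nb c ∩ G.K0 A B = {v} := by rw [← hpT]; exact hv
    refine ⟨h4, h3, ?_⟩
    have h5 : v ∈ G.nb c ∩ G.K0 A B := by rw [h4]; exact mem_singleton_self v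
    exact (mem_inter.1 h5).2
  -- a pair of twins in `pT`
  have double : ∀ Q Q', G.Tw Q Q' → G.pT A c = {Q, Q'} → (G.nb c ∩ G.K0 A B) ≠ ∅ →
      G.nb c ∩ G.K0 A B = {Q, Q'} ∧ G.nb c ∩ G.Cc A B = ∅ := by
    intro Q Q' hQ hp h1
    obtain ⟨w, hw⟩ := nonempty_iff_ne_empty.2 h1
    have hQm : Q ∈ G.pT A c := by rw [hp]; exact mem_insert_self _ _
    have hQ'm : Q' ∈ G.pT A c := by rw [hp]; exact mem_insert_of_mem (mem_singleton_self _)
    have hQA : Q ∈ G.N A := (mem_inter.1 hQm).2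
    have hpart := tw_part87 hs (R_of_NA87 hs hQA) hQ
    have hwp : w ∈ G.pT A c := by
      rw [hpT]
      exact mem_union_left _ hw
    have hnB : Q ∉ G.N B ∧ Q' ∉ G.N B := by
      rw [hp, mem_insert, mem_singleton] at hwp
      have h2 := (mem_K087.1 (mem_inter.1 hw).2).2
      rcases hwp with rfl | rfl
      · exact ⟨h2, fun h3 => h2 (hpart.2.2.1 h3)⟩
      · exact ⟨fun h3 => h2 (hpart.2.2.2 h3), h2⟩
    have h3 : (G.nb c ∩ G.Cc A B) = ∅ := by
      rw [eq_empty_iff_forall_notMem]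
      intro u hu
      have hup : u ∈ G.pT A c := by
        rw [hpT]
        exact mem_union_right _ hu
      rw [hp, mem_insert, mem_singleton] at hup
      have h4 := (mem_Cc87.1 (mem_inter.1 hu).2).2
      rcases hup with rfl | rfl
      · exact hnB.1 h4
      · exact hnB.2 h4
    rw [h3, union_empty] at hpT
    exact ⟨by rw [← hpT]; exact hp, h3⟩
  rcases (phi_range87 hs.fA87 hl).2.2 h with h1 | h1 | h1 | h1
  · obtain ⟨v, hv⟩ := s5_S0_87 h1
    have hty := S0_type87 hv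
    obtain ⟨-, -, hlv, hTv, -, hex⟩ := hv
    by_cases h2 : (G.nb c ∩ G.K0 A B) = ∅
    · exact first h2 (by omega)
    · obtain ⟨e1, e2, e3⟩ := single v hTv h2
      exact Or.inr ⟨e2, Or.inl ⟨v, e3, hlv, e1, hty.1, hty.2.2, hex⟩⟩
  · have hty := (stTy5_87 G).u3 _ _ h1
    by_cases h2 : (G.nb c ∩ G.K0 A B) = ∅
    · exact first h2 (by omega)
    · obtain ⟨-, -, -, Q, Q', hQ, hp⟩ := h1
      obtain ⟨e1, e2⟩ := double Q Q' hQ hp h2
      exact Or.inr ⟨e2, Or.inr (Or.inl ⟨⟨Q, Q', hQ, e1⟩, hty.1, hty.2.2⟩)⟩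
  · have hty := (stTy5_87 G).t3 _ _ h1
    rw [pXCo87, pTCo87 hs.fA87, pOCo87 hs.fA87] at hty
    by_cases h2 : (G.nb c ∩ G.K0 A B) = ∅
    · exact first h2 (by omega)
    · obtain ⟨-, -, -, Q, Q', r, r', k, hQ, -, -, hp, -, h3, h4, -⟩ := h1
      rw [pTCo87 hs.fA87] at hp h4
      rw [pXCo87] at h3
      obtain ⟨e1, e2⟩ := double Q Q' hQ hp h2
      exact Or.inr ⟨e2, Or.inr (Or.inr (Or.inl ⟨Q, Q', hQ, e1, hty.2.2, hty.1, h4, h3⟩))⟩
  · have hty := (stTy5_87 G).hf _ _ h1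
    rw [pXCo87, pTCo87 hs.fA87, pOCo87 hs.fA87] at hty
    by_cases h2 : (G.nb c ∩ G.K0 A B) = ∅
    · exact first h2 (by omega)
    · obtain ⟨-, -, -, a, b, hab, haN, hbN, hp⟩ := h1
      rw [NCo87 hs.fA87] at haN hbN
      rw [pTCo87 hs.fA87] at hp
      obtain ⟨e1, e2, e3⟩ := single a hp h2
      have hb : b ∈ G.K0 A B := by
        have h4 := hl_part87 hs (R_of_NA87 hs haN) (R_of_NA87 hs hbN) (R_of_NA87 hs hcA) hab
        exact mem_K087.2 ⟨hbN, fun h5 => (mem_K087.1 e3).2 (h4.2.2 h5)⟩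
      exact Or.inr ⟨e2, Or.inr (Or.inr (Or.inr ⟨a, e3, b, hb, hab, e1, hty.2.2, hty.1⟩))⟩

open Classical in
/-- what `c` pays -/
theorem pay87 (hs : G.Strip A B) (c : V) :
    G.e5 A B c = G.ps5 A B c ∨ ∃ z ∈ G.Cc A B, ¬ G.Tch A B z ∧ G.nb z ∩ G.Cc A B = {c} ∧
      G.nb c ∩ G.Cc A B = {z} ∧ G.Low z ∧ G.Low c ∧ G.Tch A B c ∧ G.ps5 A B z < 0 ∧
      G.e5 A B c = G.ps5 A B c + G.ps5 A B z ∧
    ((G.ps5 A B z = -2 ∧ G.nb c ∩ G.K0 B A = ∅ ∧ (G.pX B c).card = 1 ∧ G.pT B c = {z}) ∨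
     (G.ps5 A B z = -2 ∧ G.nb c ∩ G.K0 A B = ∅ ∧ (G.pX A c).card = 1 ∧ G.pT A c = {z}) ∨
     (G.ps5 A B z = -1 ∧ G.phi A c = -1 ∧ G.nb c ∩ G.K0 A B = ∅ ∧ (G.nb c ∩ G.K0 B A).card = 1 ∧
        (G.pX A c).card = 2 ∧ (G.pX B c).card = 2) ∨
     (G.ps5 A B z = -1 ∧ G.phi B c = -1 ∧ G.nb c ∩ G.K0 B A = ∅ ∧ (G.nb c ∩ G.K0 A B).card = 1 ∧
        (G.pX A c).card = 2 ∧ (G.pX B c).card = 2)) := by
  by_cases h : ∃ z ∈ G.Cc A B, ¬ G.Tch A B z ∧ G.nb z ∩ G.Cc A B = {c} ∧ G.ps5 A B z < 0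
  · obtain ⟨z, hz, hT, hzc, hneg⟩ := h
    right
    obtain ⟨v, c1, c2, c3, c4, c5, c6⟩ := stUn5_87 G A B hs z hz hT hneg
    rw [hzc, singleton_inj] at c2
    subst c2
    refine ⟨z, hz, hT, hzc, c3, c4, c1, c5, hneg, ?_, c6⟩
    rw [e5]
    have h1 : ((G.Cc A B).filter fun w => ¬ G.Tch A B w ∧ G.nb w ∩ G.Cc A B = {c}) = {z} := by
      ext w
      rw [mem_filter, mem_singleton]
      constructor
      · rintro ⟨h2, h3, h4⟩
        have h5 : c ∈ G.nb w ∩ G.Cc A B := by rw [h4]; exact mem_singleton_self c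
        have h6 : w ∈ G.nb c ∩ G.Cc A B := mem_inter.2 ⟨G.sym _ _ (mem_inter.1 h5).1, h2⟩
        rw [c3, mem_singleton] at h6
        exact h6
      · rintro rfl
        exact ⟨hz, hT, hzc⟩
    rw [h1, sum_singleton, min_eq_left hneg.le]
  · left
    push Not at h
    rw [e5]
    have h1 : ∑ z ∈ (G.Cc A B).filter (fun z => ¬ G.Tch A B z ∧ G.nb z ∩ G.Cc A B = {c}),
        min (G.ps5 A B z) 0 = 0 := by
      apply sum_eq_zero
      intro z hz
      rw [mem_filter] at hz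
      exact min_eq_right (h z hz.1 hz.2.1 hz.2.2)
    rw [h1, add_zero]

open Classical in
/-- the common case -/
theorem loc_base87 (hs : G.Strip A B) {c : V} (hT : G.Tch A B c) (hl : G.Low c) :
    ∃ α : ℤ, (α = 0 ∨ α = 1) ∧ (α = 1 → G.KA A B c) ∧
      2 * (if G.U3 (G.Co A) c then (1 : ℤ) else 0) - 2 * α ≤ G.phi A c := by
  have h1 := phi_range87 hs.fA87 hl
  by_cases h2 : G.phi A c < 0
  · refine ⟨1, Or.inr rfl, fun _ => kind87 hs hT hl h2, ?_⟩
    split_ifs with h3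
    · have := h1.2.1 h3
      linarith
    · linarith
  · refine ⟨0, Or.inl rfl, fun h => by norm_num at h, ?_⟩
    split_ifs with h3
    · have := h1.2.1 h3
      linarith
    · linarith

open Classical in
/-- two of the four payments, seen from `A` -/
theorem loc_pay87 (hs : G.Strip A B) {c z : V} (hT : G.Tch A B c) (hl : G.Low c)
    (hzC : z ∈ G.Cc A B) (hzl : G.Low z) (hzc : G.nb c ∩ G.Cc A B = {z})
    (h : (G.ps5 A B z = -2 ∧ G.nb c ∩ G.K0 A B = ∅ ∧ (G.pX A c).card = 1 ∧ G.pT A c = {z}) ∨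
     (G.ps5 A B z = -1 ∧ G.phi A c = -1 ∧ G.nb c ∩ G.K0 A B = ∅ ∧ (G.nb c ∩ G.K0 B A).card = 1 ∧
        (G.pX A c).card = 2 ∧ (G.pX B c).card = 2)) :
    G.KA A B c ∧ 2 * (if G.U3 (G.Co A) c then (1 : ℤ) else 0) - 2 ≤
      G.phi A c + G.ps5 A B z := by
  have hne : (G.nb c ∩ G.Cc A B).Nonempty := by rw [hzc]; exact singleton_nonempty z
  have hK : (G.nb c ∩ G.K0 A B) = ∅ → (G.nb c ∩ G.K0 B A).Nonempty := by
    intro h1
    have h2 := hT.2
    rwa [inter_union_distrib_left, h1, empty_union] at h2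
  rcases h with ⟨h1, h2, h3, h4⟩ | ⟨h1, h2, h3, h4, h5, h6⟩
  · refine ⟨Or.inl ⟨h2, hK h2, hne⟩, ?_⟩
    have h5 : ¬ G.U3 (G.Co A) c := by
      intro h6
      have h7 := (stTy5_87 G).u3 _ _ h6
      rw [pTCo87 hs.fA87, h4, card_singleton] at h7
      omega
    have h6 : 0 ≤ G.phi A c := by
      by_contra h7
      rw [not_le] at h7
      rcases (phi_range87 hs.fA87 hl).2.2 h7 with h8 | h8 | h8 | h8
      · have := s5_type87 h8
        omega
      · have := (stTy5_87 G).u3 _ _ h8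
        omega
      · have h9 := (stTy5_87 G).t3 _ _ h8
        rw [pXCo87, pTCo87 hs.fA87, pOCo87 hs.fA87] at h9
        omega
      · obtain ⟨-, -, -, a, b, hab, -, -, hp⟩ := h8
        rw [pTCo87 hs.fA87, h4, singleton_inj] at hp
        subst hp
        exact HL_a87 hab hzl
    rw [if_neg h5]
    linarith
  · refine ⟨Or.inl ⟨h3, hK h3, hne⟩, ?_⟩
    have h7 : ¬ G.U3 (G.Co A) c := by
      intro h8
      have := (phi_range87 hs.fA87 hl).2.1 h8
      linarith
    rw [if_neg h7]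
    linarith

open Classical in
/-- S3 -/
theorem stLoc5_87 (G : CG V) : G.StLoc5 := by
  intro A B hs c hT hl
  obtain ⟨α, a1, a2, a3⟩ := loc_base87 hs hT hl
  obtain ⟨β, b1, b2, b3⟩ := loc_base87 hs.symm72 (Tch_symm87.1 hT) hl
  rcases pay87 hs c with h | ⟨z, hz, -, -, hcz, hzl, -, -, -, h, hc⟩
  · refine ⟨α, β, a1, b1, a2, b2, ?_⟩
    rw [h, ps5]
    linarith
  · rw [ps5] at h
    rcases hc with hc | hc | hc | hc
    · have hz' : z ∈ G.Cc B A := by rw [Cc_symm87]; exact hz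
      have hcz' : G.nb c ∩ G.Cc B A = {z} := by rw [Cc_symm87]; exact hcz
      have h1 := loc_pay87 hs.symm72 (Tch_symm87.1 hT) hl hz' hzl hcz'
        (Or.inl (by rw [ps5_symm87]; exact hc))
      rw [ps5_symm87] at h1
      refine ⟨α, 1, a1, Or.inr rfl, a2, fun _ => h1.1, ?_⟩
      rw [h]
      linarith [h1.2]
    · have h1 := loc_pay87 hs hT hl hz hzl hcz (Or.inl hc)
      refine ⟨1, β, Or.inr rfl, b1, fun _ => h1.1, b2, ?_⟩
      rw [h]
      linarith [h1.2]
    · have h1 := loc_pay87 hs hT hl hz hzl hcz (Or.inr hc)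
      refine ⟨1, β, Or.inr rfl, b1, fun _ => h1.1, b2, ?_⟩
      rw [h]
      linarith [h1.2]
    · have hz' : z ∈ G.Cc B A := by rw [Cc_symm87]; exact hz
      have hcz' : G.nb c ∩ G.Cc B A = {z} := by rw [Cc_symm87]; exact hcz
      obtain ⟨k1, k2, k3, k4, k5, k6⟩ := hc
      have h1 := loc_pay87 hs.symm72 (Tch_symm87.1 hT) hl hz' hzl hcz'
        (Or.inr (by rw [ps5_symm87]; exact ⟨k1, k2, k3, k4, k6, k5⟩))
      rw [ps5_symm87] at h1
      refine ⟨α, 1, a1, Or.inr rfl, a2, fun _ => h1.1, ?_⟩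
      rw [h]
      linarith [h1.2]

end CG

end Pool.Agent.Lib.MP_e95c01_co.N
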