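import Pool.Agent.Lib.MP_e95c01_co.X.StmtsS87
import Pool.Agent.Lib.MP_e95c01_co.U.StTwHL5
import Pool.Agent.Lib.MP_e95c01_co.T.Aux76

/-!
# Thin torsos, rows S4a, S4b, S5: common vertices of `HL` and `LL`, common twin vertices
-/

namespace Pool.Agent.Lib.MP_e95c01_co.N

open Finset

variable {V : Type} [Fintype V] [DecidableEq V]

namespace CG

variable {G : CG V} {A B : Finset V}

theorem s5_nonneg44 (S : Finset V) (z : V) : 0 ≤ G.s5 S z := by
  unfold s5
  split_ifs <;> norm_num

theorem phi_nonneg44 {z : V} (h1 : G.s5 A z = 0) (h2 : ¬ G.U3 A z)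
    (h3 : ¬ G.T3 (G.Co A) z) (h4 : ¬ G.HF (G.Co A) z) (h5 : ¬ G.RF (G.Co A) z) :
    0 ≤ G.phi A z := by
  have h := s5_nonneg44 (G := G) (G.Co A) z
  unfold phi flv
  rw [h1, if_neg h2, if_neg h3, if_neg h4, if_neg h5]
  split_ifs <;> linarith

theorem isTw_card44 {z : V} (h : G.IsTw z) : (G.nb z).card = 7 := by
  obtain ⟨w, hw⟩ := h
  exact hw.2.1

theorem not_RF_low44 {S : Finset V} {z : V} (h : G.Low z) : ¬ G.RF S z := by
  rintro ⟨-, p', m, m', h1, -⟩
  have h2 := h1.2.1
  have h3 : (G.nb z).card = 6 := h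
  omega

theorem frag_l44 (hS : G.Strip A B) : G.Frag A := hS.reg.frag A (by simp)

theorem frag_r44 (hS : G.Strip A B) : G.Frag B := hS.reg.frag B (by simp)

theorem N_Co44 (h : G.Frag A) : G.N (G.Co A) = G.N A := (G.stCo_37 A h).2.1

theorem Co_Co44 (h : G.Frag A) : G.Co (G.Co A) = A := (G.stCo_37 A h).2.2

theorem pT_Co44 (h : G.Frag A) (z : V) : G.pT (G.Co A) z = G.pT A z := by
  unfold pT
  rw [N_Co44 h]

theorem pO_Co44 (h : G.Frag A) (z : V) : G.pO (G.Co A) z = G.pX A z := by
  unfold pO pX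
  rw [Co_Co44 h]

theorem pX_Co44 (z : V) : G.pX (G.Co A) z = G.pO A z := rfl

theorem disj_l44 (hS : G.Strip A B) : Disjoint A B ∧ Disjoint (G.N A) B :=
  hS.reg.dis A (by simp) B (by simp) hS.ne

theorem disj_r44 (hS : G.Strip A B) : Disjoint B A ∧ Disjoint (G.N B) A :=
  hS.reg.dis B (by simp) A (by simp) hS.ne.symm

theorem strip_symm44 (hS : G.Strip A B) : G.Strip B A where
  ne := hS.ne.symm
  reg := by rw [Finset.pair_comm]; exact hS.reg
  bigA := hS.bigB
  bigB := hS.bigA
  n9 := hS.n9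
  sat := hS.sat
  sub := by rw [Finset.pair_comm, Finset.union_comm]; exact hS.sub

theorem ps5_symm44 (z : V) : G.ps5 A B z = G.ps5 B A z := by
  unfold ps5
  ring

theorem Cc_symm44 : G.Cc A B = G.Cc B A := Finset.inter_comm _ _

theorem Tch_symm44 {c : V} : G.Tch A B c ↔ G.Tch B A c := by
  unfold Tch
  rw [Cc_symm44, Finset.union_comm]

/-- if no untouched vertex of negative value has `c` as its only common neighbour, then only the
flags of `c` are in `e5` -/
theorem e5_eq44 (hUn : G.StUn5) (hS : G.Strip A B) {c : V}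
    (h : ∀ z ∈ G.Cc A B, ¬ G.Tch A B z → G.Low c → G.nb c ∩ G.Cc A B = {z} → False) :
    G.e5 A B c = G.ps5 A B c := by
  classical
  unfold e5
  rw [Finset.sum_eq_zero, add_zero]
  intro z hz
  obtain ⟨hz1, hz2, hz3⟩ := mem_filter.1 hz
  by_contra hne
  have hneg : G.ps5 A B z < 0 := by
    by_contra hge
    push Not at hge
    exact hne (min_eq_right hge)
  obtain ⟨v, hv1, hv2, hv3, -⟩ := hUn A B hS z hz1 hz2 hneg
  have hvc : v = c := by
    have : v ∈ ({c} : Finset V) := by
      rw [← hz3, hv2]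
      exact mem_singleton_self _
    exact mem_singleton.1 this
  subst hvc
  exact h z hz1 hz2 hv1 hv3

theorem Tch_of44 {c x : V} (hc : c ∈ G.Cc A B) (hx : x ∈ G.nb c)
    (h : x ∈ G.K0 A B ∨ x ∈ G.K0 B A) : G.Tch A B c :=
  ⟨hc, x, mem_inter.2 ⟨hx, mem_union.2 h⟩⟩

theorem s5_zero44 {S : Finset V} {z : V} (h : ∀ v, G.S0 S z v → G.LLs S z v)
    (h' : ∀ v, G.S0 S z v → G.pT S v ≠ {z}) : G.s5 S z = 0 := by
  unfold s5
  rw [if_neg, if_neg]
  · rintro ⟨v, h1, h2⟩
    exact h' v h1 h2
  · rintro ⟨v, h1, h2⟩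
    exact h2 (h v h1)

/-- S4a -/
theorem stE2_44 (hUn : G.StUn5) : G.StE2 := by
  intro A B hS a ha c hc t ht x hx hHL hxc
  have h7 := stTwHL_5 G
  have hac : a ∈ G.nb c := G.sym _ _ hHL.2.2.1
  have hlow : G.Low c := hHL.2.1
  have hanl : ¬ G.Low a := HL_not_low76 hHL
  have hant : ¬ G.IsTw a := h7.notHL hS.n9 _ _ _ hHL
  obtain ⟨haA, haB⟩ := mem_inter.1 ha
  obtain ⟨hxA, hxB⟩ := mem_sdiff.1 hx
  have hax : a ≠ x := by
    rintro rfl
    exact hxB haB
  have haxn : x ∈ G.nb a := HL_sub76 hHL hxc hax.symm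
  have haT : G.Tch A B a := Tch_of44 ha haxn (Or.inl hx)
  have haT' : a ∈ G.pT A c := mem_inter.2 ⟨hac, haA⟩
  have hxT' : x ∈ G.pT A c := mem_inter.2 ⟨hxc, hxA⟩
  have haT2 : a ∈ G.pT B c := mem_inter.2 ⟨hac, haB⟩
  have hfA := frag_l44 hS
  have hfB := frag_r44 hS
  rw [e5_eq44 hUn hS]
  · have hA : 0 ≤ G.phi A c := by
      apply phi_nonneg44
      · apply s5_zero44
        · rintro v ⟨-, -, -, h1, -⟩
          rw [h1, mem_singleton] at haT' hxT'
          exact absurd (haT'.trans hxT'.symm) hax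
        · rintro v ⟨-, -, -, h1, -⟩
          rw [h1, mem_singleton] at haT' hxT'
          exact absurd (haT'.trans hxT'.symm) hax
      · rintro ⟨-, -, -, v, w, h1, h2⟩
        rw [h2, mem_insert, mem_singleton] at haT'
        rcases haT' with h | h
        · exact hant (h ▸ ⟨w, h1⟩)
        · exact hant (h ▸ ⟨v, h7.symm _ _ h1⟩)
      · rintro ⟨-, -, -, Q, Q', r, r', h, h1, -, -, h2, -⟩
        rw [pT_Co44 hfA] at h2
        rw [h2, mem_insert, mem_singleton] at haT'
        rcases haT' with h | h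
        · exact hant (h ▸ ⟨Q', h1⟩)
        · exact hant (h ▸ ⟨Q, h7.symm _ _ h1⟩)
      · rintro ⟨-, -, -, a', b', -, -, -, h1⟩
        rw [pT_Co44 hfA] at h1
        rw [h1, mem_singleton] at haT' hxT'
        exact absurd (haT'.trans hxT'.symm) hax
      · exact not_RF_low44 hlow
    have hB : 0 ≤ G.phi B c := by
      apply phi_nonneg44
      · apply s5_zero44
        · rintro v ⟨-, -, h0, h1, -⟩
          rw [h1, mem_singleton] at haT2
          exact absurd (haT2 ▸ h0) hanl
        · rintro v ⟨-, -, h0, h1, -⟩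
          rw [h1, mem_singleton] at haT2
          exact absurd (haT2 ▸ h0) hanl
      · rintro ⟨-, -, -, v, w, h1, h2⟩
        rw [h2, mem_insert, mem_singleton] at haT2
        rcases haT2 with h | h
        · exact hant (h ▸ ⟨w, h1⟩)
        · exact hant (h ▸ ⟨v, h7.symm _ _ h1⟩)
      · rintro ⟨-, -, -, Q, Q', r, r', h, h1, -, -, h2, -⟩
        rw [pT_Co44 hfB] at h2
        rw [h2, mem_insert, mem_singleton] at haT2
        rcases haT2 with h | h
        · exact hant (h ▸ ⟨Q', h1⟩)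
        · exact hant (h ▸ ⟨Q, h7.symm _ _ h1⟩)
      · rintro ⟨-, -, -, a', b', h0, -, -, h1⟩
        rw [pT_Co44 hfB] at h1
        rw [h1, mem_singleton] at haT2
        subst haT2
        exact h7.nomut hS.n9 _ _ _ _ _ h0 hHL rfl
      · exact not_RF_low44 hlow
    unfold ps5
    linarith
  · intro z hz hzT _ hzc
    have h1 : a ∈ G.nb c ∩ G.Cc A B := mem_inter.2 ⟨hac, ha⟩
    rw [hzc, mem_singleton] at h1
    subst h1
    exact hzT haT

/-- one half of S4b -/
theorem e5_LL44 (hUn : G.StUn5) (hS : G.Strip A B) {u v x y : V} (hu : u ∈ G.Cc A B)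
    (hv : v ∈ G.Cc A B) (hx : x ∈ G.K0 A B) (hy : y ∈ G.K0 B A) (hLL : G.LL u v x y) :
    0 ≤ G.e5 A B u := by
  have h7 := stTwHL_5 G
  have hlu : G.Low u := hLL.1
  have hlv : G.Low v := hLL.2.1
  have hvu : v ∈ G.nb u := hLL.2.2.1
  have hxu : x ∈ G.nb u := LL_t76 hLL
  have hyv : y ∈ G.nb v := LL_u76 hLL
  obtain ⟨huA, huB⟩ := mem_inter.1 hu
  obtain ⟨hvA, hvB⟩ := mem_inter.1 hv
  obtain ⟨hxA, hxB⟩ := mem_sdiff.1 hx
  obtain ⟨hyB, hyA⟩ := mem_sdiff.1 hy
  have hvx : v ≠ x := by
    rintro rfl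
    exact hxB hvB
  have huy : u ≠ y := by
    rintro rfl
    exact hyA huA
  have hvT : v ∈ G.pT A u := mem_inter.2 ⟨hvu, hvA⟩
  have hxT : x ∈ G.pT A u := mem_inter.2 ⟨hxu, hxA⟩
  have hvT2 : v ∈ G.pT B u := mem_inter.2 ⟨hvu, hvB⟩
  have hfA := frag_l44 hS
  have hfB := frag_r44 hS
  have hntw : ∀ w, ¬ G.Tw v w := by
    intro w hw
    have h1 := hw.2.1
    have h2 : (G.nb v).card = 6 := hlv
    omega
  have hntw' : ∀ w, ¬ G.Tw w v := fun w hw => hntw w (h7.symm _ _ hw)
  have hv7 : (G.nb v).card ≠ 7 := by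
    have h2 : (G.nb v).card = 6 := hlv
    omega
  rw [e5_eq44 hUn hS]
  · have hA : 0 ≤ G.phi A u := by
      apply phi_nonneg44
      · apply s5_zero44
        · rintro v' ⟨-, -, -, h1, -⟩
          rw [h1, mem_singleton] at hvT hxT
          exact absurd (hvT.trans hxT.symm) hvx
        · rintro v' ⟨-, -, -, h1, -⟩
          rw [h1, mem_singleton] at hvT hxT
          exact absurd (hvT.trans hxT.symm) hvx
      · rintro ⟨-, -, -, v', w, h1, h2⟩
        rw [h2, mem_insert, mem_singleton] at hvT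
        rcases hvT with h | h
        · exact hntw w (h ▸ h1)
        · exact hntw' v' (h ▸ h1)
      · rintro ⟨-, -, -, Q, Q', r, r', h, h1, -, -, h2, -⟩
        rw [pT_Co44 hfA] at h2
        rw [h2, mem_insert, mem_singleton] at hvT
        rcases hvT with h | h
        · exact hntw Q' (h ▸ h1)
        · exact hntw' Q (h ▸ h1)
      · rintro ⟨-, -, -, a', b', -, -, -, h1⟩
        rw [pT_Co44 hfA] at h1
        rw [h1, mem_singleton] at hvT hxT
        exact absurd (hvT.trans hxT.symm) hvx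
      · exact not_RF_low44 hlu
    have hB : 0 ≤ G.phi B u := by
      apply phi_nonneg44
      · apply s5_zero44
        · rintro v' ⟨-, -, h0, h1, -⟩
          have hvv : v = v' := by rwa [h1, mem_singleton] at hvT2
          subst hvv
          refine ⟨⟨x, y, hLL⟩, ?_⟩
          ext z
          have hzx : z ∈ B → z ≠ x := by
            rintro hz rfl
            exact (Finset.disjoint_left.1 (disj_l44 hS).2) hxA hz
          have hzy : z ∈ B → z ≠ y := by
            rintro hz rfl
            exact (mem_N76.1 hyB).1 hz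
          have hzu : z ∈ B → z ≠ u := by
            rintro hz rfl
            exact (mem_N76.1 huB).1 hz
          have hzv : z ∈ B → z ≠ v := by
            rintro hz rfl
            exact (mem_N76.1 hvB).1 hz
          unfold pX
          rw [mem_inter, mem_inter]
          constructor
          · rintro ⟨k1, k2⟩
            refine ⟨?_, k2⟩
            have := LL_from76 hLL k1 (hzy k2)
            first
              | exact this
              | (rcases this with h | h
                 · exact absurd h (hzu k2)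
                 · exact h)
          · rintro ⟨k1, k2⟩
            refine ⟨?_, k2⟩
            have := LL_to76 hLL k1 (hzx k2)
            first
              | exact this
              | (rcases this with h | h
                 · exact absurd h (hzv k2)
                 · exact h)
        · rintro v' ⟨-, -, h0, h1, -⟩ h2
          have hvv : v = v' := by rwa [h1, mem_singleton] at hvT2
          subst hvv
          have h3 : y ∈ G.pT B v := mem_inter.2 ⟨hyv, hyB⟩
          rw [h2, mem_singleton] at h3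
          exact huy h3.symm
      · rintro ⟨-, -, -, v', w, h1, h2⟩
        rw [h2, mem_insert, mem_singleton] at hvT2
        rcases hvT2 with h | h
        · exact hntw w (h ▸ h1)
        · exact hntw' v' (h ▸ h1)
      · rintro ⟨-, -, -, Q, Q', r, r', h, h1, -, -, h2, -⟩
        rw [pT_Co44 hfB] at h2
        rw [h2, mem_insert, mem_singleton] at hvT2
        rcases hvT2 with h | h
        · exact hntw Q' (h ▸ h1)
        · exact hntw' Q (h ▸ h1)
      · rintro ⟨-, -, -, a', b', h0, -, -, h1⟩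
        rw [pT_Co44 hfB] at h1
        rw [h1, mem_singleton] at hvT2
        subst hvT2
        exact hv7 h0.1
      · exact not_RF_low44 hlu
    unfold ps5
    linarith
  · intro z hz hzT _ hzc
    have h1 : v ∈ G.nb u ∩ G.Cc A B := mem_inter.2 ⟨hvu, hv⟩
    rw [hzc, mem_singleton] at h1
    subst h1
    exact hzT (Tch_of44 hv hyv (Or.inr hy))

theorem e5_symm44 (c : V) : G.e5 A B c = G.e5 B A c := by
  classical
  unfold e5
  refine congrArg₂ (fun a b : ℤ => a + b) (ps5_symm44 c) (Finset.sum_congr ?_ fun z _ => ?_)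
  · ext z
    simp only [mem_filter, Cc_symm44 (A := A) (B := B), Tch_symm44 (A := A) (B := B)]
  · rw [ps5_symm44 z]

/-- S4b -/
theorem stE3_44 (hUn : G.StUn5) : G.StE3 := by
  intro A B hS u hu v hv x hx y hy hLL
  refine ⟨e5_LL44 hUn hS hu hv hx hy hLL, ?_⟩
  rw [e5_symm44]
  rw [Cc_symm44] at hu hv
  exact e5_LL44 hUn (strip_symm44 hS) hv hu hy hx (LL_symm5 hLL)

/-- the flags of a twin vertex -/
theorem flv_tw44 {z : V} (h : G.IsTw z) (S : Finset V) :
    G.flv S z = - (open Classical in if G.RF S z then 1 else 0) := by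
  classical
  have h7 := isTw_card44 h
  have hnl : ¬ G.Low z := by
    intro h6
    have h6' : (G.nb z).card = 6 := h6
    omega
  have h1 : G.s5 S z = 0 := by
    apply s5_zero44
    · rintro v ⟨-, h0, -⟩
      exact absurd h0 hnl
    · rintro v ⟨-, h0, -⟩
      exact absurd h0 hnl
  have h2 : ¬ G.U3 S z := fun h0 => hnl h0.2.1
  have h3 : ¬ G.T3 S z := fun h0 => hnl h0.2.1
  have h4 : ¬ G.HF S z := fun h0 => hnl h0.2.1
  unfold flv
  rw [h1, if_neg h2, if_neg h3, if_neg h4]
  ring

/-- S5 -/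
theorem stTwS_44 (hUn : G.StUn5) : G.StTwS := by
  classical
  intro A B hS c hc htw
  have h7 := stTwHL_5 G
  have hc7 := isTw_card44 htw
  have hnl : ¬ G.Low c := by
    intro h6
    have h6' : (G.nb c).card = 6 := h6
    omega
  obtain ⟨hcA, hcB⟩ := mem_inter.1 hc
  have hfA := frag_l44 hS
  have hfB := frag_r44 hS
  have he : G.e5 A B c = G.ps5 A B c :=
    e5_eq44 hUn hS (fun z _ _ h _ => absurd h hnl)
  have hps : G.ps5 A B c = (if G.RF A c then 1 else 0) - (if G.RF (G.Co A) c then 1 else 0) +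
      ((if G.RF B c then 1 else 0) - (if G.RF (G.Co B) c then 1 else 0)) := by
    unfold ps5 phi
    rw [flv_tw44 htw, flv_tw44 htw, flv_tw44 htw, flv_tw44 htw]
    ring
  -- the partner is common
  have hpart : ∀ p', G.Tw c p' → p' ∈ G.N A ∧ p' ∈ G.N B := by
    intro p' hp
    have hcR : c ∈ R {A, B} := N_sub_R76 hS.reg (B := A) (by simp) hcA
    obtain ⟨h1, h2⟩ := h7.twI _ hS.reg c hcR p' hp
    have h3 : A ∈ G.I {A, B} c := mem_I76.2 ⟨by simp, hcA⟩
    have h4 : B ∈ G.I {A, B} c := mem_I76.2 ⟨by simp, hcB⟩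
    rw [← h2] at h3 h4
    exact ⟨(mem_I76.1 h3).2, (mem_I76.1 h4).2⟩
  -- the parts
  have hOA : ∀ {A B : Finset V}, G.Strip A B → c ∈ G.N A → c ∈ G.N B → G.nb c ∩ G.K0 A B = ∅ →
      G.pO B c = G.pX A c := by
    intro A B hS hcA hcB h0
    ext z
    unfold pO pX
    rw [mem_inter, mem_inter]
    constructor
    · rintro ⟨k1, k2⟩
      refine ⟨k1, ?_⟩
      by_contra hzA
      obtain ⟨k3, k4⟩ := mem_Co76.1 k2
      have hzR : z ∈ R {A, B} := by
        rw [mem_R76]
        intro D hD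
        rw [mem_insert, mem_singleton] at hD
        rcases hD with rfl | rfl
        · exact hzA
        · exact k3
      rcases mem_union.1 (hS.sub hzR) with h | h
      · have : z ∈ G.nb c ∩ G.K0 A B := mem_inter.2 ⟨k1, mem_sdiff.2 ⟨h, k4⟩⟩
        rw [h0] at this
        exact absurd this (notMem_empty _)
      · exact k4 h
    · rintro ⟨k1, k2⟩
      refine ⟨k1, mem_Co76.2 ⟨?_, ?_⟩⟩
      · exact fun h => Finset.disjoint_left.1 (disj_l44 hS).1 k2 h
      · exact fun h => Finset.disjoint_left.1 (disj_r44 hS).2 h k2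
  have hSs := strip_symm44 hS
  -- `RF (Co A) c` and no neighbour in `K0 B A` give `RF B c`
  have key : ∀ {A B : Finset V}, G.Strip A B → c ∈ G.N A → c ∈ G.N B →
      (∀ p', G.Tw c p' → p' ∈ G.N B) → G.RF (G.Co A) c →
      G.nb c ∩ G.K0 A B = ∅ ∧ (G.nb c ∩ G.K0 B A = ∅ → G.RF B c) ∧ (G.pX A c).card = 2 ∧
        (G.pO A c).card = 4 := by
    intro A B hS hcA hcB hp hRF
    obtain ⟨h1, p', m, m', h2, h3, h4, h5, h6, h7'⟩ := hRF
    have hfA := frag_l44 hS
    have hfB := frag_r44 hS
    rw [pT_Co44 hfA] at h4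
    rw [pO_Co44 hfA] at h6
    rw [pX_Co44] at h5
    have k0 : G.nb c ∩ G.K0 A B = ∅ := by
      rw [Finset.eq_empty_iff_forall_notMem]
      intro z hz
      obtain ⟨k1, k2⟩ := mem_inter.1 hz
      obtain ⟨k3, k4⟩ := mem_sdiff.1 k2
      have k5 : z ∈ G.pT A c := mem_inter.2 ⟨k1, k3⟩
      rw [h4, mem_singleton] at k5
      subst k5
      exact k4 (hp _ h2)
    refine ⟨k0, ?_, ?_, h5⟩
    · intro k1
      have e1 : G.pO B c = G.pX A c := hOA hS hcA hcB k0
      have e2 : G.pO A c = G.pX B c := hOA (strip_symm44 hS) hcB hcA k1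
      refine ⟨hcB, p', m, m', h2, h3, ?_, ?_, ?_, h7'⟩
      · rw [← h4]
        ext z
        unfold pT
        rw [mem_inter, mem_inter]
        constructor
        · rintro ⟨j1, j2⟩
          refine ⟨j1, ?_⟩
          by_contra j3
          have : z ∈ G.nb c ∩ G.K0 B A := mem_inter.2 ⟨j1, mem_sdiff.2 ⟨j2, j3⟩⟩
          rw [k1] at this
          exact absurd this (notMem_empty _)
        · rintro ⟨j1, j2⟩
          refine ⟨j1, ?_⟩
          by_contra j3
          have : z ∈ G.nb c ∩ G.K0 A B := mem_inter.2 ⟨j1, mem_sdiff.2 ⟨j2, j3⟩⟩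
          rw [k0] at this
          exact absurd this (notMem_empty _)
      · rw [← e2]
        exact h5
      · rw [e1]
        exact h6
    · rw [h6, Finset.card_pair h3]
  have hpA : ∀ p', G.Tw c p' → p' ∈ G.N A := fun p' h => (hpart p' h).1
  have hpB : ∀ p', G.Tw c p' → p' ∈ G.N B := fun p' h => (hpart p' h).2
  have kA := key hS hcA hcB hpB
  have kB := key hSs hcB hcA hpA
  refine ⟨he, ?_, ?_, ?_⟩
  · -- not both costs
    have hnot : ¬ (G.RF (G.Co A) c ∧ G.RF (G.Co B) c) := by
      rintro ⟨r1, r2⟩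
      obtain ⟨k1, k2, k3, k4⟩ := kA r1
      obtain ⟨j1, j2, j3, j4⟩ := kB r2
      have e1 : G.pO B c = G.pX A c := hOA hS hcA hcB k1
      rw [e1, k3] at j4
      omega
    rw [hps]
    by_cases r1 : G.RF (G.Co A) c
    · have r2 : ¬ G.RF (G.Co B) c := fun h => hnot ⟨r1, h⟩
      rw [if_pos r1, if_neg r2]
      split_ifs <;> norm_num
    · rw [if_neg r1]
      split_ifs <;> norm_num
  · intro hnT
    have k0 : G.nb c ∩ G.K0 A B = ∅ := by
      rw [Finset.eq_empty_iff_forall_notMem]
      intro z hz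
      obtain ⟨k1, k2⟩ := mem_inter.1 hz
      exact hnT (Tch_of44 hc k1 (Or.inl k2))
    have k1 : G.nb c ∩ G.K0 B A = ∅ := by
      rw [Finset.eq_empty_iff_forall_notMem]
      intro z hz
      obtain ⟨k1, k2⟩ := mem_inter.1 hz
      exact hnT (Tch_of44 hc k1 (Or.inr k2))
    rw [hps]
    by_cases r1 : G.RF (G.Co A) c
    · have r3 : G.RF B c := (kA r1).2.1 k1
      rw [if_pos r1, if_pos r3]
      by_cases r2 : G.RF (G.Co B) c
      · have r4 : G.RF A c := (kB r2).2.1 k0
        rw [if_pos r2, if_pos r4]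
        norm_num
      · rw [if_neg r2]
        split_ifs <;> norm_num
    · rw [if_neg r1]
      by_cases r2 : G.RF (G.Co B) c
      · have r4 : G.RF A c := (kB r2).2.1 k0
        rw [if_pos r2, if_pos r4]
        split_ifs <;> norm_num
      · rw [if_neg r2]
        split_ifs <;> norm_num
  · intro n0 n1
    have r1 : ¬ G.RF (G.Co A) c := by
      intro h
      rw [(kA h).1] at n0
      exact Finset.not_nonempty_empty n0
    have r2 : ¬ G.RF (G.Co B) c := by
      intro h
      rw [(kB h).1] at n1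
      exact Finset.not_nonempty_empty n1
    rw [hps, if_neg r1, if_neg r2]
    split_ifs <;> norm_num

end CG

end Pool.Agent.Lib.MP_e95c01_co.N
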