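import Pool.Agent.Lib.MP_e95c01_co.X.SP_87

/-!
# S5: common twin vertices of a strip
-/

namespace Pool.Agent.Lib.MP_e95c01_co.N

open Finset

variable {V : Type} [Fintype V] [DecidableEq V]

namespace CG

variable {G : CG V} {A B : Finset V}

/-- only low vertices collect the flags of untouched vertices -/
theorem e5_eq27 (hU : G.StUn5) (h : G.Strip A B) {c : V} (hl : ¬ G.Low c) :
    G.e5 A B c = G.ps5 A B c := by
  classical
  rw [e5, Finset.sum_eq_zero, add_zero]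
  intro z hz
  obtain ⟨h1, h2, h3⟩ := mem_filter.1 hz
  apply min_eq_right
  by_contra hn
  obtain ⟨v, h4, h5, -⟩ := hU A B h z h1 h2 (not_le.1 hn)
  rw [h3, singleton_inj] at h5
  rw [h5] at hl
  exact hl h4

/-- the flag `RQ` seen from the opposite side of `A` -/
theorem rfCo27 (h : G.Strip A B) {c : V} (hc : c ∈ G.Cc A B) (hr : G.RF (G.Co A) c) :
    ∃ p' m m', G.Tw c p' ∧ m ≠ m' ∧ p' ∈ G.Cc A B ∧ G.pT A c = {p'} ∧ G.nb c ∩ G.K0 A B = ∅ ∧
      G.nb c ∩ G.Cc A B = {p'} ∧ (G.pO A c).card = 4 ∧ G.pX A c = {m, m'} ∧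
      ((∃ x y, G.LL m m' x y) ∨ G.K6X m m') := by
  obtain ⟨-, p', m, m', h1, h2, h3, h4, h5, h6⟩ := hr
  rw [pTCo87 h.fA87] at h3
  rw [pXCo87] at h4
  rw [pOCo87 h.fA87] at h5
  obtain ⟨hcA, hcB⟩ := mem_Cc87.1 hc
  obtain ⟨-, h7, h8⟩ := tw_part87 h (R_of_NA87 h hcA) h1
  have h9 : p' ∈ G.Cc A B := mem_Cc87.2 ⟨h7.2 hcA, h8.2 hcB⟩
  have h10 : G.nb c ∩ G.K0 A B = ∅ := by
    rw [eq_empty_iff_forall_notMem]
    intro v hv
    obtain ⟨h11, h12⟩ := mem_inter.1 hv
    have h13 : v ∈ G.pT A c := mem_inter.2 ⟨h11, (mem_K087.1 h12).1⟩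
    rw [h3, mem_singleton] at h13
    rw [h13] at h12
    exact (mem_K087.1 h12).2 (mem_Cc87.1 h9).2
  refine ⟨p', m, m', h1, h2, h9, h3, h10, ?_, h4, h5, h6⟩
  rw [pT_eq87 (B := B), h10, empty_union] at h3
  exact h3

/-- an untouched common vertex with the flag seen from the opposite side of `A` has the flag seen
from `B` -/
theorem rf_of_rfCo27 (h : G.Strip A B) {c : V} (hc : c ∈ G.Cc A B) (ht : G.nb c ∩ G.K0 B A = ∅)
    (hr : G.RF (G.Co A) c) : G.RF B c := by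
  obtain ⟨p', m, m', h1, h2, h9, h3, h10, h11, h4, h5, h6⟩ := rfCo27 h hc hr
  have hs : G.Strip B A := by
    refine ⟨h.ne.symm, ?_, h.bigB, h.bigA, h.n9, h.sat, ?_⟩
    · rw [pair_comm]; exact h.reg
    · rw [pair_comm, union_comm]; exact h.sub
  refine ⟨(mem_Cc87.1 hc).2, p', m, m', h1, h2, ?_, ?_, ?_, h6⟩
  · rw [pT_eq87 (B := A), ht, empty_union, Cc_symm87]
    exact h11
  · have h12 := pO_card87 h c
    rw [ht, card_empty] at h12
    omega
  · rw [pO_eq87 hs c, h10, union_empty]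
    exact h5

theorem strip_symm27 (h : G.Strip A B) : G.Strip B A := by
  refine ⟨h.ne.symm, ?_, h.bigB, h.bigA, h.n9, h.sat, ?_⟩
  · rw [pair_comm]; exact h.reg
  · rw [pair_comm, union_comm]; exact h.sub

/-- S5 -/
theorem stTwS_27 (G : CG V) (hU : G.StUn5) : G.StTwS := by
  classical
  intro A B h c hc ht
  have hs := strip_symm27 h
  have hc' : c ∈ G.Cc B A := by rw [Cc_symm87]; exact hc
  have hps : G.ps5 A B c = ((if G.RF A c then 1 else 0) - (if G.RF (G.Co A) c then 1 else 0)) +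
      ((if G.RF B c then 1 else 0) - (if G.RF (G.Co B) c then 1 else 0)) := by
    rw [ps5, phi_tw87 ht, phi_tw87 ht]
  refine ⟨e5_eq27 hU h (fun hl => low_not_tw87 hl ht), ?_, ?_, ?_⟩
  · rw [hps]
    have hnb : ¬ (G.RF (G.Co A) c ∧ G.RF (G.Co B) c) := by
      rintro ⟨h1, h2⟩
      obtain ⟨p', m, m', -, -, -, -, h3, -, h4, h5, -⟩ := rfCo27 h hc h1
      obtain ⟨q', l, l', -, h6, -, -, h7, -, h8, h9, -⟩ := rfCo27 hs hc' h2
      have h10 := pO_card87 h c
      rw [h7, card_empty, h9, card_pair h6] at h10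
      omega
    by_cases h1 : G.RF (G.Co A) c
    · have h2 : ¬ G.RF (G.Co B) c := fun h2 => hnb ⟨h1, h2⟩
      rw [if_pos h1, if_neg h2]
      split_ifs <;> norm_num
    · rw [if_neg h1]
      split_ifs <;> norm_num
  · intro hn
    obtain ⟨h1, h2⟩ := nb_K_empty87 hc hn
    rw [hps]
    have h3 : G.RF (G.Co A) c → G.RF B c := rf_of_rfCo27 h hc h2
    have h4 : G.RF (G.Co B) c → G.RF A c := rf_of_rfCo27 hs hc' h1
    by_cases h5 : G.RF (G.Co A) c <;> by_cases h6 : G.RF (G.Co B) c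
    · rw [if_pos h5, if_pos h6, if_pos (h3 h5), if_pos (h4 h6)]; norm_num
    · rw [if_pos h5, if_neg h6, if_pos (h3 h5)]
      split_ifs <;> norm_num
    · rw [if_neg h5, if_pos h6, if_pos (h4 h6)]
      split_ifs <;> norm_num
    · rw [if_neg h5, if_neg h6]
      split_ifs <;> norm_num
  · intro h1 h2
    rw [hps]
    have h5 : ¬ G.RF (G.Co A) c := by
      intro h5
      obtain ⟨p', m, m', -, -, -, -, h3, -⟩ := rfCo27 h hc h5
      rw [h3] at h1
      exact not_nonempty_empty h1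
    have h6 : ¬ G.RF (G.Co B) c := by
      intro h5
      obtain ⟨p', m, m', -, -, -, -, h3, -⟩ := rfCo27 hs hc' h5
      rw [h3] at h2
      exact not_nonempty_empty h2
    rw [if_neg h5, if_neg h6]
    split_ifs <;> norm_num

end CG

end Pool.Agent.Lib.MP_e95c01_co.N
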