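import Pool.Agent.Lib.MP_e95c01_co.X.S5_27

/-!
# S6: the net balances of the touched common vertices
-/

namespace Pool.Agent.Lib.MP_e95c01_co.N

open Finset

variable {V : Type} [Fintype V] [DecidableEq V]

namespace CG

variable {G : CG V} {A B : Finset V}

/-- the vertices of `K0 A B` that see a twin or low or bad hub neighbour -/
theorem KA_second27 {c : V} (hk : G.KA A B c) (hne : (G.nb c ∩ G.K0 A B).Nonempty) :
    G.nb c ∩ G.Cc A B = ∅ ∧ ∀ x ∈ G.K0 A B, x ∈ G.nb c → ¬ G.Pl A B x := by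
  rcases hk with ⟨h1, -⟩ | ⟨h1, h2⟩
  · rw [h1] at hne
    exact absurd hne not_nonempty_empty
  · refine ⟨h1, ?_⟩
    intro x hx hxc hP
    have hx' : x ∈ G.nb c ∩ G.K0 A B := mem_inter.2 ⟨hxc, hx⟩
    rcases h2 with ⟨y, hy, hyl, h3, -⟩ | ⟨⟨v, w, h3, h4⟩, -⟩ | ⟨Q, Q', h3, h4, -⟩ |
        ⟨a, ha, b, hb, h3, h4, -⟩
    · rw [h3, mem_singleton] at hx'
      rw [hx'] at hP
      exact hP.2.1.1 hyl
    · rw [h4, mem_insert, mem_singleton] at hx'
      rcases hx' with h5 | h5
      · rw [h5] at hP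
        exact hP.2.1.2 ⟨w, h3⟩
      · rw [h5] at hP
        exact hP.2.1.2 ⟨v, (stTwHL_5 G).symm _ _ h3⟩
    · rw [h4, mem_insert, mem_singleton] at hx'
      rcases hx' with h5 | h5
      · rw [h5] at hP
        exact hP.2.1.2 ⟨Q', h3⟩
      · rw [h5] at hP
        exact hP.2.1.2 ⟨Q, (stTwHL_5 G).symm _ _ h3⟩
    · rw [h4, mem_singleton] at hx'
      rw [hx'] at hP
      exact hP.2.2 b hb h3.2.1 h3.2.2.1

theorem KA_ne27 {c : V} (h1 : G.KA A B c) (h2 : G.KA B A c) :
    (G.nb c ∩ G.K0 A B).Nonempty ∧ (G.nb c ∩ G.K0 B A).Nonempty := by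
  have key : ∀ A B : Finset V, G.KA A B c → G.nb c ∩ G.Cc A B = ∅ →
      (G.nb c ∩ G.K0 A B).Nonempty := by
    intro A B h1 h3
    rcases h1 with ⟨-, -, h4⟩ | ⟨-, h4⟩
    · rw [h3] at h4
      exact absurd h4 not_nonempty_empty
    · rcases h4 with ⟨y, -, -, h5, -⟩ | ⟨⟨v, w, -, h5⟩, -⟩ | ⟨Q, Q', -, h5, -⟩ |
        ⟨a, -, b, -, -, h5, -⟩
      · rw [h5]; exact singleton_nonempty _
      · rw [h5]; exact insert_nonempty _ _
      · rw [h5]; exact insert_nonempty _ _
      · rw [h5]; exact singleton_nonempty _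
  have h3 : G.nb c ∩ G.Cc A B = ∅ := by
    rcases h1 with ⟨h3, h4, h5⟩ | ⟨h3, -⟩
    · rcases h2 with ⟨h6, -, -⟩ | ⟨h6, -⟩
      · rw [h6] at h4
        exact absurd h4 not_nonempty_empty
      · rw [Cc_symm87] at h6
        exact h6
    · exact h3
  exact ⟨key A B h1 h3, key B A h2 (by rw [Cc_symm87]; exact h3)⟩

theorem c5_low27 {c : V} (h : G.Low c) : G.c5 c = 2 := by
  rw [c5, if_pos h]

theorem c5_tw27 {c : V} (h : G.IsTw c) : G.c5 c = 1 := by
  rw [c5, if_neg (fun hl => low_not_tw87 hl h), if_pos h]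

theorem c5_hub27 {c : V} (h1 : ¬ G.Low c) (h2 : ¬ G.IsTw c) : G.c5 c = 0 := by
  rw [c5, if_neg h1, if_neg h2]

/-- S6 -/
theorem stNet5_27 (G : CG V) (hU : G.StUn5) (hL : G.StLoc5) (hE2 : G.StE2) (hE3 : G.StE3)
    (hT : G.StTwS) : G.StNet5 := by
  classical
  have hpos : ∀ A B, G.Strip A B → ∀ c, G.Tch A B c → 0 ≤ G.net5 A B c := by
    intro A B h c hc
    have hcard : 1 ≤ (G.nb c ∩ (G.K0 A B ∪ G.K0 B A)).card := by
      rw [Nat.succ_le_iff, card_pos]; exact hc.2
    have hcard' : (1 : ℤ) ≤ ((G.nb c ∩ (G.K0 A B ∪ G.K0 B A)).card : ℤ) := by exact_mod_cast hcard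
    rw [net5]
    by_cases hl : G.Low c
    · rw [c5_low27 hl]
      obtain ⟨α, β, h1, h2, h3, h4, h5⟩ := hL A B h c hc hl
      have h6 : (0 : ℤ) ≤ 2 * (if G.U3 (G.Co A) c then 1 else 0) := by split_ifs <;> norm_num
      have h7 : (0 : ℤ) ≤ 2 * (if G.U3 (G.Co B) c then 1 else 0) := by split_ifs <;> norm_num
      by_cases h8 : α = 1 ∧ β = 1
      · obtain ⟨h9, h10⟩ := KA_ne27 (h3 h8.1) (h4 h8.2)
        have h11 := nbK_card87 (G := G) A B c
        have h12 : 1 ≤ (G.nb c ∩ G.K0 A B).card := card_pos.2 h9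
        have h13 : 1 ≤ (G.nb c ∩ G.K0 B A).card := card_pos.2 h10
        have h14 : (2 : ℤ) ≤ ((G.nb c ∩ (G.K0 A B ∪ G.K0 B A)).card : ℤ) := by
          have : 2 ≤ (G.nb c ∩ (G.K0 A B ∪ G.K0 B A)).card := by omega
          exact_mod_cast this
        rcases h1 with h1 | h1 <;> rcases h2 with h2 | h2 <;> linarith
      · have h9 : α + β ≤ 1 := by
          rcases h1 with h1 | h1 <;> rcases h2 with h2 | h2
          · rw [h1, h2]; norm_num
          · rw [h1, h2]; norm_num
          · rw [h1, h2]; norm_num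
          · exact absurd ⟨h1, h2⟩ h8
        linarith
    · by_cases ht : G.IsTw c
      · obtain ⟨h1, h2, -⟩ := hT A B h c hc.1 ht
        rw [c5_tw27 ht, h1]
        linarith
      · rw [c5_hub27 hl ht, e5_eq27 hU h hl, ps5, phi_hub87 hl ht, phi_hub87 hl ht]
        norm_num
  refine ⟨hpos, ?_, ?_⟩
  · intro A B h c hc hl
    have hs := strip_symm27 h
    have hc' : G.Tch B A c := Tch_symm87.1 hc
    set gA := ((G.K0 A B).filter fun x => G.Gd A B c x) with hgA
    set gB := ((G.K0 B A).filter fun y => G.Gd B A c y) with hgB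
    have hgA' : gA ⊆ G.nb c ∩ G.K0 A B := by
      intro x hx
      obtain ⟨h1, h2⟩ := mem_filter.1 hx
      exact mem_inter.2 ⟨h2.2.2.2.1, h1⟩
    have hgB' : gB ⊆ G.nb c ∩ G.K0 B A := by
      intro x hx
      obtain ⟨h1, h2⟩ := mem_filter.1 hx
      exact mem_inter.2 ⟨h2.2.2.2.1, h1⟩
    have hnet : G.net5 A B c = 2 * (((G.nb c ∩ G.K0 A B).card : ℤ) +
        ((G.nb c ∩ G.K0 B A).card : ℤ)) + G.e5 A B c := by
      rw [net5, c5_low27 hl, nbK_card87]
      push_cast
      ring
    have hcA : ((gA.card : ℕ) : ℤ) ≤ ((G.nb c ∩ G.K0 A B).card : ℤ) := by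
      exact_mod_cast card_le_card hgA'
    have hcB : ((gB.card : ℕ) : ℤ) ≤ ((G.nb c ∩ G.K0 B A).card : ℤ) := by
      exact_mod_cast card_le_card hgB'
    by_cases he : 0 ≤ G.e5 A B c
    · rw [hnet]; linarith
    -- the free units come from the first clause
    have hA1 : gA.Nonempty → (G.nb c ∩ G.K0 B A).Nonempty := by
      rintro ⟨x, hx⟩
      obtain ⟨h1, h2, h3, h4, h5, h6⟩ := mem_filter.1 hx
      rcases h6 with h6 | ⟨a, ha, t, ht, h7⟩ | ⟨v, hv, y, hy, h7⟩
      · exact h6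
      · exact absurd (hE2 A B h a ha c hc.1 t ht x h1 h7 h5) he
      · exact absurd (hE3 A B h c hc.1 v hv x h1 y hy h7).1 he
    have hB1 : gB.Nonempty → (G.nb c ∩ G.K0 A B).Nonempty := by
      rintro ⟨x, hx⟩
      obtain ⟨h1, h2, h3, h4, h5, h6⟩ := mem_filter.1 hx
      rw [← e5_symm87] at he
      rcases h6 with h6 | ⟨a, ha, t, ht, h7⟩ | ⟨v, hv, y, hy, h7⟩
      · exact h6
      · exact absurd (hE2 B A hs a ha c hc'.1 t ht x h1 h7 h5) he
      · exact absurd (hE3 B A hs c hc'.1 v hv x h1 y hy h7).1 he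
    by_cases hkA : (G.nb c ∩ G.K0 A B).Nonempty
    · by_cases hkB : (G.nb c ∩ G.K0 B A).Nonempty
      · obtain ⟨α, β, h1, h2, h3, h4, h5⟩ := hL A B h c hc hl
        have h6 : (0 : ℤ) ≤ 2 * (if G.U3 (G.Co A) c then 1 else 0) := by split_ifs <;> norm_num
        have h7 : (0 : ℤ) ≤ 2 * (if G.U3 (G.Co B) c then 1 else 0) := by split_ifs <;> norm_num
        have h8 : (gA.card : ℤ) + α ≤ ((G.nb c ∩ G.K0 A B).card : ℤ) := by
          rcases h1 with h1 | h1
          · rw [h1]; linarith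
          · have h9 := (KA_second27 (h3 h1) hkA).2
            have h10 : gA = ∅ := by
              rw [eq_empty_iff_forall_notMem]
              intro x hx
              obtain ⟨h11, h12⟩ := mem_filter.1 hx
              exact h9 x h11 h12.2.2.2.1 h12.1
            have h11 : (1 : ℤ) ≤ ((G.nb c ∩ G.K0 A B).card : ℤ) := by
              exact_mod_cast card_pos.2 hkA
            rw [h10, card_empty, h1, Nat.cast_zero]
            linarith
        have h8' : (gB.card : ℤ) + β ≤ ((G.nb c ∩ G.K0 B A).card : ℤ) := by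
          rcases h2 with h2 | h2
          · rw [h2]; linarith
          · have h9 := (KA_second27 (h4 h2) hkB).2
            have h10 : gB = ∅ := by
              rw [eq_empty_iff_forall_notMem]
              intro x hx
              obtain ⟨h11, h12⟩ := mem_filter.1 hx
              exact h9 x h11 h12.2.2.2.1 h12.1
            have h11 : (1 : ℤ) ≤ ((G.nb c ∩ G.K0 B A).card : ℤ) := by
              exact_mod_cast card_pos.2 hkB
            rw [h10, card_empty, h2, Nat.cast_zero]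
            linarith
        rw [hnet]
        linarith
      · have h1 : gA = ∅ := by
          by_contra hne
          exact hkB (hA1 (nonempty_iff_ne_empty.2 hne))
        have h2 : gB = ∅ := by
          rw [not_nonempty_iff_eq_empty] at hkB
          rw [hkB] at hgB'
          exact subset_empty.1 hgB'
        rw [h1, h2]
        have := hpos A B h c hc
        simpa using this
    · have h1 : gB = ∅ := by
        by_contra hne
        exact hkA (hB1 (nonempty_iff_ne_empty.2 hne))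
      have h2 : gA = ∅ := by
        rw [not_nonempty_iff_eq_empty] at hkA
        rw [hkA] at hgA'
        exact subset_empty.1 hgA'
      rw [h1, h2]
      have := hpos A B h c hc
      simpa using this
  · intro A B h c hc ht h1 h2
    obtain ⟨h3, -, -, h4⟩ := hT A B h c hc.1 ht
    rw [net5, c5_tw27 ht, h3]
    have := h4 h1 h2
    linarith

end CG

end Pool.Agent.Lib.MP_e95c01_co.N
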