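import Pool.Agent.Lib.MP_e95c01_co.X.StmtsS87
import Pool.Agent.Lib.MP_e95c01_co.X.StBal50
import Pool.Agent.Lib.MP_e95c01_co.T.Th1_28
import Pool.Agent.Lib.MP_e95c01_co.U.Bridge76

/-!
# S8: strips with one vertex on each side
-/

namespace Pool.Agent.Lib.MP_e95c01_co.N

open Finset

variable {V : Type} [Fintype V] [DecidableEq V]

namespace CG

variable {G : CG V}

section one

variable {A B : Finset V} {s y : V}

/-- the neighbours of `s` outside `A` and `N A` -/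
theorem St1.pO_s28 (h : G.St1 A B) (hS : G.N A \ G.N B = {s}) (hY : G.N B \ G.N A = {y}) :
    G.pO A s = {y} := by
  have hs : s ∈ G.N A \ G.N B := by rw [hS]; exact mem_singleton_self s
  have hy : y ∈ G.N B \ G.N A := by rw [hY]; exact mem_singleton_self y
  rw [mem_sdiff] at hs hy
  obtain ⟨hsA, hsB⟩ := h.NA hs.1
  ext u
  rw [pO, mem_inter, mem_Co1, mem_singleton]
  constructor
  · rintro ⟨h1, h2, h3⟩
    have huB : u ∉ B := fun h4 => hs.2 (mem_N1.2 ⟨hsB, u, h4, G.sym _ _ h1⟩)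
    rcases h.cases h2 huB with h5 | h5 | h5
    · exact absurd (mem_sdiff.1 h5).1 h3
    · rwa [hY, mem_singleton] at h5
    · exact absurd (mem_inter.1 h5).1 h3
  · rintro rfl
    exact ⟨h.adj hS hY, (h.symm.NA hy.1).2, hy.2⟩

/-- a neighbour of `s` in `N A` is in `C` -/
theorem St1.pT_s28 (hS : G.N A \ G.N B = {s}) {u : V} (hu : u ∈ G.pT A s) :
    u ∈ G.nb s ∧ u ∈ G.N A ∩ G.N B := by
  rw [pT, mem_inter] at hu
  refine ⟨hu.1, mem_inter.2 ⟨hu.2, ?_⟩⟩
  by_contra h1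
  have h2 : u ∈ G.N A \ G.N B := mem_sdiff.2 ⟨hu.2, h1⟩
  rw [hS, mem_singleton] at h2
  subst h2
  exact G.irr _ hu.1

/-- the balance of `s` -/
theorem St1.bal_s28 (hTy : G.StTy5) (h : G.St1 A B) (hS : G.N A \ G.N B = {s})
    (hY : G.N B \ G.N A = {y}) :
    (G.Hub s → G.B5 A s + G.phi A s = -2) ∧
    (G.Low s → (¬ G.U3 A s → 2 * ((G.pT A s).card : ℤ) - 4 ≤ G.B5 A s + G.phi A s) ∧
      (G.U3 A s → -2 ≤ G.B5 A s + G.phi A s) ∧
      (G.HF A s → 2 * ((G.pT A s).card : ℤ) - 2 ≤ G.B5 A s + G.phi A s)) := by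
  classical
  have hO := h.pO_s28 hS hY
  have hOc : (G.pO A s).card = 1 := by rw [hO, card_singleton]
  have hF := h.reg.frag A (by simp)
  constructor
  · intro hh
    rw [B5, phi, flv_hub50 hh, flv_hub50 hh, a5, if_neg hh.1, c5, if_neg hh.1, if_neg hh.2]
    ring
  · intro hl
    have hnt : ¬ G.IsTw s := by
      intro h1
      exact h.notTw hS hY h1
    obtain ⟨co1, co2, co3⟩ := hTy.co A hF s
    have hdg := hTy.dg A hF s
    have h6 : (G.nb s).card = 6 := hl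
    -- flags of the complement
    have f1 := hTy.s1 (G.Co A) s
    have f3 : ¬ G.T3 (G.Co A) s := by
      intro h1
      have h2 := (hTy.t3 _ _ h1).1
      rw [co1] at h2
      omega
    have f4 : ¬ G.HF (G.Co A) s := by
      intro h1
      have h2 := (hTy.hf _ _ h1).1
      rw [co1] at h2
      omega
    have f5 : ¬ G.RF (G.Co A) s := fun h1 => hnt (hTy.rf _ _ h1).1
    -- flags of `A`
    have g1 : G.s5 A s = 0 := by
      by_contra h1
      have h2 := (hTy.s2 _ _ h1).2.2.2.2.1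
      omega
    have g5 : ¬ G.RF A s := fun h1 => hnt (hTy.rf _ _ h1).1
    have e1 : 0 ≤ G.flv (G.Co A) s := by
      rw [flv, if_neg f3, if_neg f4, if_neg f5]
      have h1 : (0 : ℤ) ≤ (if G.U3 (G.Co A) s then 1 else 0) := by split_ifs <;> norm_num
      linarith [f1.1]
    have e2 : G.flv A s = 2 * (if G.U3 A s then 1 else 0) - 2 * (if G.T3 A s then 1 else 0) -
        2 * (if G.HF A s then 1 else 0) := by
      rw [flv, if_neg g5, g1]
      ring
    have e3 : G.B5 A s = 2 * ((G.pT A s).card : ℤ) - 4 := by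
      rw [B5, a5, if_pos hl, c5, if_pos hl]
      have h1 : G.d s (G.Co A) = (G.pO A s).card := rfl
      have h2 : G.d s A = (G.pX A s).card := rfl
      rw [h1, h2, hOc]
      have h3 : ((G.pX A s).card : ℤ) = 5 - ((G.pT A s).card : ℤ) := by
        have h7 : 5 = (G.pX A s).card + (G.pT A s).card := by omega
        have h8 : (5 : ℤ) = ((G.pX A s).card : ℤ) + ((G.pT A s).card : ℤ) := by exact_mod_cast h7
        linarith
      rw [h3]
      push_cast
      ring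
    have t1 : (0 : ℤ) ≤ (if G.T3 A s then 1 else 0) := by split_ifs <;> norm_num
    have t2 : (0 : ℤ) ≤ (if G.HF A s then 1 else 0) := by split_ifs <;> norm_num
    refine ⟨fun hu => ?_, fun hu => ?_, fun hf => ?_⟩
    · rw [if_neg hu] at e2
      rw [e3, phi, e2]
      linarith
    · rw [if_pos hu] at e2
      have hk : (G.pT A s).card = 2 := (hTy.u3 _ _ hu).2.1
      rw [e3, phi, e2, hk]
      push_cast
      linarith
    · have hu : ¬ G.U3 A s := by
        intro h1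
        have h2 := (hTy.u3 _ _ h1).2.1
        have h3 := (hTy.hf _ _ hf).2.1
        omega
      rw [if_neg hu, if_pos hf] at e2
      rw [e3, phi, e2]
      linarith

/-- `s` with a neighbour `w` in `C` that is in no pair -/
theorem St1.bal_ge28 (hTy : G.StTy5) (h : G.St1 A B) (hS : G.N A \ G.N B = {s})
    (hY : G.N B \ G.N A = {y}) {w : V} (hw : w ∈ G.N A ∩ G.N B) (hws : w ∈ G.nb s)
    (hwt : ¬ G.IsTw w) :
    -2 ≤ G.B5 A s + G.phi A s ∧
      (G.Low s → (∃ v ∈ G.N A ∩ G.N B, v ∈ G.nb s ∧ v ≠ w) → 0 ≤ G.B5 A s + G.phi A s) := by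
  obtain ⟨b1, b2⟩ := h.bal_s28 hTy hS hY
  have hwT : w ∈ G.pT A s := mem_inter.2 ⟨hws, (mem_inter.1 hw).1⟩
  have hnu : ¬ G.U3 A s := by
    rintro ⟨-, -, -, v, v', h1, h2⟩
    rw [h2, mem_insert, mem_singleton] at hwT
    rcases hwT with h3 | h3
    · subst h3
      exact hwt ⟨v', h1⟩
    · subst h3
      exact hwt ⟨v, (stTwHL_5 G).symm _ _ h1⟩
  have hc1 : 1 ≤ (G.pT A s).card := card_pos.2 ⟨w, hwT⟩
  constructor
  · by_cases hl : G.Low s
    · have h1 := (b2 hl).1 hnu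
      have h2 : (1 : ℤ) ≤ ((G.pT A s).card : ℤ) := by exact_mod_cast hc1
      linarith
    · have h1 := b1 ⟨hl, fun h1 => h.notTw hS hY h1⟩
      linarith
  · rintro hl ⟨v, hv, hvs, hvw⟩
    have h1 := (b2 hl).1 hnu
    have hvT : v ∈ G.pT A s := mem_inter.2 ⟨hvs, (mem_inter.1 hv).1⟩
    have h2 : 2 ≤ (G.pT A s).card := by
      have h3 : ({v, w} : Finset V) ⊆ G.pT A s := by
        intro u hu
        rw [mem_insert, mem_singleton] at hu
        rcases hu with rfl | rfl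
        · exact hvT
        · exact hwT
      have h4 := card_le_card h3
      rwa [card_pair hvw] at h4
    have h3 : (2 : ℤ) ≤ ((G.pT A s).card : ℤ) := by exact_mod_cast h2
    linarith

/-- `s` in any case -/
theorem St1.bal_all28 (hTy : G.StTy5) (h : G.St1 A B) (hS : G.N A \ G.N B = {s})
    (hY : G.N B \ G.N A = {y}) {w : V} (hw : w ∈ G.N A ∩ G.N B) (hws : w ∈ G.nb s) :
    -2 ≤ G.B5 A s + G.phi A s := by
  obtain ⟨b1, b2⟩ := h.bal_s28 hTy hS hY
  have hwT : w ∈ G.pT A s := mem_inter.2 ⟨hws, (mem_inter.1 hw).1⟩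
  have hc1 : 1 ≤ (G.pT A s).card := card_pos.2 ⟨w, hwT⟩
  by_cases hl : G.Low s
  · by_cases hu : G.U3 A s
    · exact (b2 hl).2.1 hu
    · have h1 := (b2 hl).1 hu
      have h2 : (1 : ℤ) ≤ ((G.pT A s).card : ℤ) := by exact_mod_cast hc1
      linarith
  · exact (b1 ⟨hl, fun h1 => h.notTw hS hY h1⟩).ge

/-- membership in `K0` -/
theorem K0_eq28 (hS : G.N A \ G.N B = {s}) {u : V} : u ∈ G.K0 A B ↔ u = s := by
  rw [K0, hS, mem_singleton]

theorem Tch_iff28 (hS : G.N A \ G.N B = {s}) (hY : G.N B \ G.N A = {y}) {c : V} :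
    G.Tch A B c ↔ c ∈ G.N A ∩ G.N B ∧ (s ∈ G.nb c ∨ y ∈ G.nb c) := by
  rw [Tch, Cc, K0, K0, hS, hY]
  constructor
  · rintro ⟨h1, u, hu⟩
    rw [mem_inter, mem_union, mem_singleton, mem_singleton] at hu
    refine ⟨h1, ?_⟩
    rcases hu with ⟨h2, rfl | rfl⟩
    · exact Or.inl h2
    · exact Or.inr h2
  · rintro ⟨h1, h2⟩
    refine ⟨h1, ?_⟩
    rcases h2 with h2 | h2
    · exact ⟨s, mem_inter.2 ⟨h2, mem_union_left _ (mem_singleton_self _)⟩⟩
    · exact ⟨y, mem_inter.2 ⟨h2, mem_union_right _ (mem_singleton_self _)⟩⟩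

/-- the balance of a touched low vertex -/
theorem net_low28 {c : V} (hl : G.Low c) :
    G.net5 A B c = 2 * ((G.nb c ∩ (G.K0 A B ∪ G.K0 B A)).card : ℤ) + G.e5 A B c := by
  rw [net5, c5, if_pos hl]

theorem card_K28 (hS : G.N A \ G.N B = {s}) (hY : G.N B \ G.N A = {y}) {c : V} (hsy : s ≠ y) :
    (s ∈ G.nb c → 1 ≤ (G.nb c ∩ (G.K0 A B ∪ G.K0 B A)).card) ∧
    (y ∈ G.nb c → 1 ≤ (G.nb c ∩ (G.K0 A B ∪ G.K0 B A)).card) ∧
    (s ∈ G.nb c → y ∈ G.nb c → 2 ≤ (G.nb c ∩ (G.K0 A B ∪ G.K0 B A)).card) := by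
  rw [K0, K0, hS, hY]
  have m1 : s ∈ G.nb c → s ∈ G.nb c ∩ ({s} ∪ {y}) := fun h => by simp [h]
  have m2 : y ∈ G.nb c → y ∈ G.nb c ∩ ({s} ∪ {y}) := fun h => by simp [h]
  refine ⟨fun h1 => card_pos.2 ⟨s, m1 h1⟩, fun h1 => card_pos.2 ⟨y, m2 h1⟩, fun h1 h2 => ?_⟩
  have h3 : ({s, y} : Finset V) ⊆ G.nb c ∩ ({s} ∪ {y}) := by
    intro u hu
    rw [mem_insert, mem_singleton] at hu
    rcases hu with rfl | rfl
    · exact m1 h1
    · exact m2 h2
  have h4 := card_le_card h3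
  rwa [card_pair hsy] at h4

/-- a cost of a common low neighbour of `s` and `y` belongs to a low vertex with two neighbours
in `C` -/
theorem St1.KA28 (h : G.St1 A B) (hS : G.N A \ G.N B = {s})
    (hY : G.N B \ G.N A = {y}) {w : V} (hw : w ∈ G.N A ∩ G.N B) (hws : s ∈ G.nb w)
    (hwy : y ∈ G.nb w) (hk : G.KA A B w) :
    G.Low s ∧ ∃ v ∈ G.N A ∩ G.N B, v ∈ G.nb s ∧ v ≠ w := by
  have hK : G.K0 A B = {s} := hS
  have hsK : G.nb w ∩ G.K0 A B = {s} := by
    rw [hK]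
    ext u
    rw [mem_inter, mem_singleton]
    exact ⟨fun h1 => h1.2, fun h1 => by subst h1; exact ⟨hws, rfl⟩⟩
  rcases hk with ⟨h1, -, -⟩ | ⟨-, h1 | h1 | h1 | h1⟩
  · rw [hsK] at h1
    exact absurd h1 (singleton_ne_empty s)
  · obtain ⟨x, hx, hxl, -, -, -, hn⟩ := h1
    rw [hK, mem_singleton] at hx
    subst hx
    refine ⟨hxl, ?_⟩
    by_contra hcon
    apply hn
    constructor
    · ext u
      rw [mem_singleton]
      constructor
      · intro hu
        obtain ⟨h2, h3⟩ := St1.pT_s28 hS hu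
        by_contra h4
        exact hcon ⟨u, h3, h2, h4⟩
      · rintro rfl
        exact mem_inter.2 ⟨G.sym _ _ hws, (mem_inter.1 hw).1⟩
    · rw [h.pO_s28 hS hY, card_singleton]
  · obtain ⟨⟨v, v', h2, h3⟩, -, -⟩ := h1
    have h4 : (G.nb w ∩ G.K0 A B).card = 2 := by rw [h3, card_pair (ne_of_nb5 h2.1)]
    rw [hsK, card_singleton] at h4
    omega
  · obtain ⟨v, v', h2, h3, -⟩ := h1
    have h4 : (G.nb w ∩ G.K0 A B).card = 2 := by rw [h3, card_pair (ne_of_nb5 h2.1)]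
    rw [hsK, card_singleton] at h4
    omega
  · obtain ⟨a, ha, b, hb, h2, -⟩ := h1
    rw [hK, mem_singleton] at ha hb
    subst ha
    subst hb
    exact absurd (HL_b76 h2) (G.irr _)

/-- the low vertex `y` with `HL a b y` -/
theorem St1.HL_y28 (hTy : G.StTy5) (h : G.St1 A B) (n9 : 9 ≤ Fintype.card V)
    (hS : G.N A \ G.N B = {s}) (hY : G.N B \ G.N A = {y}) {a b : V} (hl : G.HL a b y)
    (hyl : G.Low y) (hsb : s ∈ G.nb b) (hsa : s ≠ a) : 0 ≤ G.B5 B y + G.phi B y := by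
  obtain ⟨haC, hbC, hya, -⟩ := h.hl28 hS hY hl hsb hsa
  have hna : ¬ G.IsTw a := (stTwHL_5 G).notHL n9 _ _ _ hl
  have haC' : a ∈ G.N B ∩ G.N A := by rwa [inter_comm] at haC
  by_cases hex : ∃ v ∈ G.N B ∩ G.N A, v ∈ G.nb y ∧ v ≠ a
  · exact (h.symm.bal_ge28 hTy hY hS haC' (G.sym _ _ hya) hna).2 hyl hex
  · have hT : G.pT B y = {a} := by
      ext u
      rw [mem_singleton]
      constructor
      · intro hu
        obtain ⟨h2, h3⟩ := St1.pT_s28 hY hu
        by_contra h4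
        exact hex ⟨u, h3, h2, h4⟩
      · rintro rfl
        exact mem_inter.2 ⟨G.sym _ _ hya, (mem_inter.1 haC).2⟩
    have hO : (G.pO B y).card = 1 := by rw [h.symm.pO_s28 hY hS, card_singleton]
    have hTc : (G.pT B y).card = 1 := by rw [hT, card_singleton]
    have hdg := hTy.dg B (h.reg.frag B (by simp)) y
    have h6 : (G.nb y).card = 6 := hyl
    have hy : y ∈ G.N B \ G.N A := by rw [hY]; exact mem_singleton_self y
    have hf : G.HF B y := ⟨(mem_sdiff.1 hy).1, hyl, by omega, a, b, hl, (mem_inter.1 haC).2,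
      (mem_inter.1 hbC).2, hT⟩
    have h1 := ((h.symm.bal_s28 hTy hY hS).2 hyl).2.2 hf
    rw [hTc] at h1
    push_cast at h1
    linarith

theorem Cc_comm28 (A B : Finset V) : G.Cc B A = G.Cc A B := inter_comm _ _

theorem Tch_comm28 (A B : Finset V) (c : V) : G.Tch B A c ↔ G.Tch A B c := by
  rw [Tch, Tch, Cc_comm28, union_comm]

theorem ps5_comm28 (A B : Finset V) (z : V) : G.ps5 B A z = G.ps5 A B z := add_comm _ _

theorem e5_comm28 (A B : Finset V) (c : V) : G.e5 B A c = G.e5 A B c := by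
  classical
  unfold e5
  rw [ps5_comm28, Cc_comm28]
  simp only [Tch_comm28, ps5_comm28]

end one

/-- S8 -/
theorem stTh1_5_28 (G : CG V) (hTy : G.StTy5) (hTot : G.StTotS) (hLoc : G.StLoc5)
    (hE2 : G.StE2) (hE3 : G.StE3) (hNet : G.StNet5) : G.StTh1_5 := by
  classical
  intro A B hst hc hcov
  have h : G.St1 A B := ⟨hst.ne, hst.reg, hst.sub⟩
  have hst' : G.Strip B A := ⟨hst.ne.symm, by rw [pair_comm]; exact hst.reg, hst.bigB, hst.bigA,
    hst.n9, hst.sat, by rw [pair_comm, union_comm]; exact hst.sub⟩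
  obtain ⟨s, hS⟩ := card_eq_one.1 hc
  obtain ⟨y, hY⟩ := card_eq_one.1 (h.card_eq.symm.trans hc)
  have hs : s ∈ G.N A \ G.N B := by rw [hS]; exact mem_singleton_self s
  have hy : y ∈ G.N B \ G.N A := by rw [hY]; exact mem_singleton_self y
  have hys := h.adj hS hY
  have hne : y ≠ s := by
    rintro rfl
    exact G.irr _ hys
  have hsK : s ∈ G.K0 A B := hs
  have hyK : y ∈ G.K0 B A := hy
  refine le_trans ?_ (hTot A B hst)
  have k1 : G.K0 A B = {s} := hS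
  have k2 : G.K0 B A = {y} := hY
  have e1 : ∑ x ∈ G.K0 A B, (G.B5 A x + G.phi A x) = G.B5 A s + G.phi A s := by
    rw [k1, sum_singleton]
  have e2 : ∑ y ∈ G.K0 B A, (G.B5 B y + G.phi B y) = G.B5 B y + G.phi B y := by
    rw [k2, sum_singleton]
  rw [e1, e2]
  set T : Finset V := (G.Cc A B).filter (fun c => G.Tch A B c) with hT
  have memT : ∀ {c : V}, c ∈ G.N A ∩ G.N B → (s ∈ G.nb c ∨ y ∈ G.nb c) → c ∈ T := by
    intro c h1 h2
    rw [hT, mem_filter]
    exact ⟨h1, (Tch_iff28 hS hY).2 ⟨h1, h2⟩⟩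
  have hnn : ∀ c ∈ T, 0 ≤ G.net5 A B c := by
    intro c h1
    rw [hT, mem_filter] at h1
    exact hNet.pos A B hst c h1.2
  have one : ∀ {c : V}, c ∈ T → G.net5 A B c ≤ ∑ c ∈ T, G.net5 A B c := fun h1 =>
    single_le_sum hnn h1
  have two : ∀ {a b : V}, a ∈ T → b ∈ T → a ≠ b →
      G.net5 A B a + G.net5 A B b ≤ ∑ c ∈ T, G.net5 A B c := by
    intro a b ha hb hab
    have hsub : ({a, b} : Finset V) ⊆ T := by
      intro x hx
      rw [mem_insert, mem_singleton] at hx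
      rcases hx with rfl | rfl
      · exact ha
      · exact hb
    have h4 := sum_le_sum_of_subset_of_nonneg hsub fun c hc _ => hnn c hc
    rwa [sum_pair hab] at h4
  have notTwLow : ∀ {w : V}, G.Low w → ¬ G.IsTw w := fun hw h1 => tw_not_low11 h1 hw
  -- `e5` of low vertices next to both
  have symB : ∀ {w : V}, w ∈ G.N A ∩ G.N B → w ∈ G.N B ∩ G.N A := fun h1 => by
    rwa [inter_comm] at h1
  -- a low vertex adjacent to both
  have low : ∀ w, G.Low w → y ∈ G.nb w → s ∈ G.nb w →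
      0 ≤ G.B5 A s + G.phi A s + (G.B5 B y + G.phi B y) + ∑ c ∈ T, G.net5 A B c := by
    intro w hw h1 h2
    have hwC := h.inC28 hS hY h1 h2
    have hwT := memT hwC (Or.inl h2)
    have h3 := one hwT
    rw [net_low28 hw] at h3
    have h4 := (card_K28 hS hY (c := w) hne.symm).2.2 h2 h1
    have h4' : (2 : ℤ) ≤ ((G.nb w ∩ (G.K0 A B ∪ G.K0 B A)).card : ℤ) := by exact_mod_cast h4
    obtain ⟨α, β, hα, hβ, hα1, hβ1, h5⟩ := hLoc A B hst w
      ((Tch_iff28 hS hY).2 ⟨hwC, Or.inl h2⟩) hw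
    have h6 : -2 * α - 2 * β ≤ G.e5 A B w := by
      have t1 : (0 : ℤ) ≤ (if G.U3 (G.Co A) w then 1 else 0) := by split_ifs <;> norm_num
      have t2 : (0 : ℤ) ≤ (if G.U3 (G.Co B) w then 1 else 0) := by split_ifs <;> norm_num
      linarith
    obtain ⟨x1, x2⟩ := h.bal_ge28 hTy hS hY hwC (G.sym _ _ h2) (notTwLow hw)
    obtain ⟨y1, y2⟩ := h.symm.bal_ge28 hTy hY hS (symB hwC) (G.sym _ _ h1) (notTwLow hw)
    have xa : -2 + 2 * α ≤ G.B5 A s + G.phi A s := by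
      rcases hα with hα | hα
      · rw [hα]; linarith
      · obtain ⟨h7, h8⟩ := h.KA28 hS hY hwC h2 h1 (hα1 hα)
        have := x2 h7 h8
        rw [hα]; linarith
    have ya : -2 + 2 * β ≤ G.B5 B y + G.phi B y := by
      rcases hβ with hβ | hβ
      · rw [hβ]; linarith
      · obtain ⟨h7, h8⟩ := h.symm.KA28 hY hS (symB hwC) h1 h2 (hβ1 hβ)
        have := y2 h7 h8
        rw [hβ]; linarith
    linarith
  -- the sum of the two balances is at least `-4`, the nets give four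
  have four : ∀ {a b : V}, a ∈ G.N A ∩ G.N B → b ∈ G.N A ∩ G.N B → a ≠ b → a ∈ G.nb s →
      b ∈ G.nb y → 2 ≤ G.net5 A B a → 2 ≤ G.net5 A B b →
      0 ≤ G.B5 A s + G.phi A s + (G.B5 B y + G.phi B y) + ∑ c ∈ T, G.net5 A B c := by
    intro a b ha hb hab has hby h1 h2
    have h3 := two (memT ha (Or.inl (G.sym _ _ has))) (memT hb (Or.inr (G.sym _ _ hby))) hab
    have h4 := h.bal_all28 hTy hS hY ha has
    have h5 := h.symm.bal_all28 hTy hY hS (symB hb) hby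
    linarith
  -- a pair of twins
  have pair : ∀ v w, G.Tw v w → y ∈ G.nb v → y ≠ w → s ∈ G.nb v → s ≠ w →
      0 ≤ G.B5 A s + G.phi A s + (G.B5 B y + G.phi B y) + ∑ c ∈ T, G.net5 A B c := by
    intro v w hvw h1 h2 h3 h4
    have h1' : y ∈ G.nb w := Tw_nb5 hvw h1 h2
    have h3' : s ∈ G.nb w := Tw_nb5 hvw h3 h4
    have hvC := h.inC28 hS hY h1 h3
    have hwC := h.inC28 hS hY h1' h3'
    have key : ∀ {u u' : V}, G.Tw u u' → u ∈ G.N A ∩ G.N B → s ∈ G.nb u → y ∈ G.nb u →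
        2 ≤ G.net5 A B u := by
      intro u u' hu huC h5 h6
      have h7 := hNet.tw A B hst u ((Tch_iff28 hS hY).2 ⟨huC, Or.inl h5⟩) ⟨u', hu⟩
        ⟨s, mem_inter.2 ⟨h5, hsK⟩⟩ ⟨y, mem_inter.2 ⟨h6, hyK⟩⟩
      have h8 := (card_K28 hS hY (c := u) hne.symm).2.2 h5 h6
      have h8' : (2 : ℤ) ≤ ((G.nb u ∩ (G.K0 A B ∪ G.K0 B A)).card : ℤ) := by exact_mod_cast h8
      linarith
    exact four hvC hwC (ne_of_nb5 hvw.1) (G.sym _ _ h3) (G.sym _ _ h1')
      (key hvw hvC h3 h1) (key ((stTwHL_5 G).symm _ _ hvw) hwC h3' h1')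
  -- `HL a b y`, seen from `A`; the low vertex `b` has two free units
  have b2 : ∀ {b : V}, G.Low b → b ∈ G.N A ∩ G.N B → (s ∈ G.nb b ∨ y ∈ G.nb b) →
      0 ≤ G.e5 A B b → 2 ≤ G.net5 A B b := by
    intro b hb hbC hsb he
    rw [net_low28 hb]
    have h1 : 1 ≤ (G.nb b ∩ (G.K0 A B ∪ G.K0 B A)).card := by
      rcases hsb with h2 | h2
      · exact (card_K28 hS hY (c := b) hne.symm).1 h2
      · exact (card_K28 hS hY (c := b) hne.symm).2.1 h2
    have h1' : (1 : ℤ) ≤ ((G.nb b ∩ (G.K0 A B ∪ G.K0 B A)).card : ℤ) := by exact_mod_cast h1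
    linarith
  obtain ⟨E, hE, hEc, hyE, hsE⟩ := hcov y hy s hs (G.sym _ _ hys)
  rcases stSmall_76 G E hE hEc y s hyE hsE hne with h1 | h1 | h1 | h1 | h1
  · obtain ⟨w, -, h2, h3, h4⟩ := h1
    exact low w h2 h3 h4
  · obtain ⟨v, -, w, -, h2, h3, h4, h5, h6⟩ := h1
    exact pair v w h2 h3 h5 h4 h6
  · obtain ⟨a, -, b, -, h2, h3, h4⟩ := h1
    obtain ⟨haC, hbC, hya, hsa'⟩ := h.hl28 hS hY h2 h3 h4
    have h5 := h.HL_y28 hTy hst.n9 hS hY h2 (hst.sat _ _ _ h2) h3 h4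
    have h6 := b2 h2.2.1 hbC (Or.inl h3) (hE2 A B hst a haC b hbC y hyK s hsK h2 h3)
    have h7 := one (memT hbC (Or.inl h3))
    have h8 := h.bal_all28 hTy hS hY hbC (G.sym _ _ h3)
    linarith
  · obtain ⟨a, -, b, -, h2, h3, h4⟩ := h1
    obtain ⟨haC, hbC, hsa', hya⟩ := h.symm.hl28 hY hS h2 h3 h4
    have h5 := h.symm.HL_y28 hTy hst.n9 hY hS h2 (hst.sat _ _ _ h2) h3 h4
    have h9 := hE2 B A hst' a haC b hbC s hsK y hyK h2 h3
    rw [e5_comm28] at h9
    rw [inter_comm] at haC hbC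
    have h6 := b2 h2.2.1 hbC (Or.inr h3) h9
    have h7 := one (memT hbC (Or.inr h3))
    have h8 := h.symm.bal_all28 hTy hY hS (symB hbC) (G.sym _ _ h3)
    linarith
  · obtain ⟨a, -, b, -, h2⟩ := h1
    have haC := h.ll28 hS hY h2
    have hbC : b ∈ G.N A ∩ G.N B := by
      have h3 := h.symm.ll28 hY hS (LL_symm76 h2)
      rwa [inter_comm] at h3
    have h3 := hE3 A B hst b hbC a haC s hsK y hyK (LL_symm76 h2)
    have hab : b ≠ a := by
      rintro rfl
      exact G.irr _ (LL_ab76 h2)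
    exact four hbC haC hab (G.sym _ _ (LL_u76 h2)) (G.sym _ _ (LL_t76 h2))
      (b2 h2.2.1 hbC (Or.inl (LL_u76 h2)) h3.1) (b2 h2.1 haC (Or.inr (LL_t76 h2)) h3.2)

end CG

end Pool.Agent.Lib.MP_e95c01_co.N
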