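import Pool.Agent.Lib.MP_e95c01_co.X.StmtsS87
import Pool.Agent.Lib.MP_e95c01_co.U.StThin2_37
import Pool.Agent.Lib.MP_e95c01_co.U.StTwHL5

/-!
# `λ = 3`: thin strips with two or three vertices on each side, no twins among them (S9a, S10a)
-/

namespace Pool.Agent.Lib.MP_e95c01_co.N

open Finset

variable {V : Type} [Fintype V] [DecidableEq V]

namespace CG

variable {G : CG V} {A B : Finset V}

/-! ### symmetry -/

theorem cc_symm31 : G.Cc A B = G.Cc B A := by
  unfold Cc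
  rw [inter_comm]

theorem tch_symm31 {c : V} : G.Tch A B c ↔ G.Tch B A c := by
  unfold Tch
  rw [cc_symm31, union_comm (G.K0 A B)]

theorem sx_symm31 (h : G.Sx A B) : G.Sx B A := by
  refine ⟨⟨h.st.ne.symm, ?_, h.st.bigB, h.st.bigA, h.st.n9, h.st.sat, ?_⟩, ?_, h.e2, h.e1⟩
  · rw [pair_comm]
    exact h.st.reg
  · rw [pair_comm, union_comm]
    exact h.st.sub
  · rw [pair_comm]
    exact h.cov

/-! ### what the common vertices pay -/

open Classical in
/-- the share of the vertex `x` of `K0 A B` in the net balance of `c` -/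
noncomputable def share31 (G : CG V) (A B : Finset V) (c x : V) : ℤ :=
  if G.Low c then (if G.Gd A B c x then 2 else 0)
  else if G.IsTw c ∧ (G.nb c ∩ G.K0 A B).Nonempty ∧ (G.nb c ∩ G.K0 B A).Nonempty ∧ x ∈ G.nb c
    then 1 else 0

open Classical in
/-- what the vertex `x` of `K0 A B` gets -/
noncomputable def recv31 (G : CG V) (A B : Finset V) (x : V) : ℤ :=
  ∑ c ∈ (G.Cc A B).filter (fun c => G.Tch A B c), share31 G A B c x

theorem share_nonneg31 (c x : V) : 0 ≤ share31 G A B c x := by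
  unfold share31
  split_ifs <;> norm_num

theorem recv_nonneg31 (x : V) : 0 ≤ recv31 G A B x :=
  sum_nonneg fun c _ => share_nonneg31 c x

theorem share_net31 (hN : G.StNet5) (hst : G.Strip A B) {c : V} (hc : G.Tch A B c) :
    ∑ x ∈ G.K0 A B, share31 G A B c x + ∑ y ∈ G.K0 B A, share31 G B A c y ≤ G.net5 A B c := by
  classical
  by_cases hl : G.Low c
  · have h1 := hN.hub A B hst c hc hl
    have h2 : ∀ A B : Finset V, ∑ x ∈ G.K0 A B, share31 G A B c x =
        2 * (((G.K0 A B).filter fun x => G.Gd A B c x).card : ℤ) := by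
      intro A B
      unfold share31
      simp only [if_pos hl]
      rw [← sum_filter, sum_const, nsmul_eq_mul, mul_comm]
    rw [h2, h2]
    convert h1 using 2
  · by_cases ht : G.IsTw c ∧ (G.nb c ∩ G.K0 A B).Nonempty ∧ (G.nb c ∩ G.K0 B A).Nonempty
    · obtain ⟨t1, t2, t3⟩ := ht
      have h1 := hN.tw A B hst c hc t1 t2 t3
      have h2 : ∑ x ∈ G.K0 A B, share31 G A B c x = ((G.nb c ∩ G.K0 A B).card : ℤ) := by
        unfold share31
        simp only [if_neg hl]
        rw [← sum_filter, sum_const, nsmul_eq_mul, mul_one]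
        congr 2
        ext x
        simp only [mem_filter, mem_inter]
        tauto
      have h3 : ∑ x ∈ G.K0 B A, share31 G B A c x = ((G.nb c ∩ G.K0 B A).card : ℤ) := by
        unfold share31
        simp only [if_neg hl]
        rw [← sum_filter, sum_const, nsmul_eq_mul, mul_one]
        congr 2
        ext x
        simp only [mem_filter, mem_inter]
        tauto
      have h4 : (G.nb c ∩ (G.K0 A B ∪ G.K0 B A)).card =
          (G.nb c ∩ G.K0 A B).card + (G.nb c ∩ G.K0 B A).card := by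
        rw [inter_union_distrib_left, card_union_of_disjoint]
        rw [disjoint_left]
        intro x hx hx'
        unfold K0 at hx hx'
        exact (mem_sdiff.1 (mem_inter.1 hx).2).2 (mem_sdiff.1 (mem_inter.1 hx').2).1
      rw [h2, h3]
      rw [h4] at h1
      push_cast at h1
      exact h1
    · have h1 := hN.pos A B hst c hc
      have h2 : ∑ x ∈ G.K0 A B, share31 G A B c x = 0 := by
        apply sum_eq_zero
        intro x _
        unfold share31
        rw [if_neg hl, if_neg]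
        rintro ⟨k1, k2, k3, -⟩
        exact ht ⟨k1, k2, k3⟩
      have h3 : ∑ x ∈ G.K0 B A, share31 G B A c x = 0 := by
        apply sum_eq_zero
        intro x _
        unfold share31
        rw [if_neg hl, if_neg]
        rintro ⟨k1, k2, k3, -⟩
        exact ht ⟨k1, k3, k2⟩
      rw [h2, h3]
      linarith

/-- the value of `x` with what it gets -/
noncomputable def val31 (G : CG V) (A B : Finset V) (x : V) : ℤ :=
  G.B5 A x + G.phi A x + recv31 G A B x

theorem total31 (hT : G.StTotS) (hN : G.StNet5) (hst : G.Strip A B) :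
    ∑ x ∈ G.K0 A B, val31 G A B x + ∑ y ∈ G.K0 B A, val31 G B A y ≤
      ∑ z ∈ R {A, B}, G.bal5 {A, B} z := by
  classical
  have h1 := hT A B hst
  have h2 : ∑ c ∈ (G.Cc A B).filter (fun c => G.Tch A B c),
      (∑ x ∈ G.K0 A B, share31 G A B c x + ∑ y ∈ G.K0 B A, share31 G B A c y) ≤
      ∑ c ∈ (G.Cc A B).filter (fun c => G.Tch A B c), G.net5 A B c :=
    sum_le_sum fun c hc => share_net31 hN hst (mem_filter.1 hc).2
  rw [sum_add_distrib, sum_comm, sum_comm (s := (G.Cc A B).filter (fun c => G.Tch A B c))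
    (t := G.K0 B A)] at h2
  have h3 : ∑ x ∈ G.K0 A B, val31 G A B x = ∑ x ∈ G.K0 A B, (G.B5 A x + G.phi A x) +
      ∑ x ∈ G.K0 A B, ∑ c ∈ (G.Cc A B).filter (fun c => G.Tch A B c), share31 G A B c x := by
    rw [← sum_add_distrib]
    apply sum_congr rfl
    intro x _
    unfold val31 recv31
    congr 1
  have h4 : ∑ x ∈ G.K0 B A, val31 G B A x = ∑ x ∈ G.K0 B A, (G.B5 B x + G.phi B x) +
      ∑ x ∈ G.K0 B A, ∑ c ∈ (G.Cc A B).filter (fun c => G.Tch A B c), share31 G B A c x := by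
    rw [← sum_add_distrib]
    apply sum_congr rfl
    intro x _
    unfold val31 recv31
    congr 1
    apply sum_congr _ fun _ _ => rfl
    ext c
    simp only [mem_filter]
    rw [cc_symm31 (G := G) (A := A), tch_symm31 (G := G) (A := A)]
  rw [h3, h4]
  have h5 : ∑ c ∈ (G.Cc A B).filter (fun c => G.Tch A B c), G.net5 A B c =
      ∑ c ∈ (G.Cc A B).filter (fun c => G.Tch A B c), G.net5 A B c := rfl
  linarith

/-! ### values -/

/-- `K0 A B` and `Co A` -/
theorem pO_K31 (hst : G.Strip A B) {x : V} (hx : x ∈ G.K0 A B) :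
    G.pO A x = G.nb x ∩ G.K0 B A := by
  have h : G.St1 A B := ⟨hst.ne, hst.reg, hst.sub⟩
  unfold K0 at hx
  unfold pO K0
  ext v
  rw [mem_inter, mem_inter, mem_Co1]
  constructor
  · rintro ⟨h1, h2, h3⟩
    refine ⟨h1, ?_⟩
    rcases h.cases h2 (h.notB hx h1) with h4 | h4 | h4
    · exact absurd (mem_sdiff.1 h4).1 h3
    · exact h4
    · exact absurd (mem_inter.1 h4).1 h3
  · rintro ⟨h1, h2⟩
    rw [mem_sdiff] at h2
    exact ⟨h1, (h.symm.NA h2.1).2, h2.2⟩

theorem hub_val31 (hTy : G.StTy5) {x : V} (hx : G.Hub x) : G.B5 A x + G.phi A x = -2 := by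
  classical
  have hf : ∀ S, G.flv S x = 0 := by
    intro S
    have h1 : G.s5 S x = 0 := by
      by_contra h1
      exact hx.1 (hTy.s2 S x h1).2.1
    have h2 : ¬ G.U3 S x := fun h => hx.1 h.2.1
    have h3 : ¬ G.T3 S x := fun h => hx.1 h.2.1
    have h4 : ¬ G.HF S x := fun h => hx.1 h.2.1
    have h5 : ¬ G.RF S x := fun h => hx.2 (hTy.rf S x h).1
    unfold flv
    rw [h1, if_neg h2, if_neg h3, if_neg h4, if_neg h5]
    norm_num
  unfold B5 phi a5 c5
  rw [hf, hf, if_neg hx.1, if_neg hx.1, if_neg hx.2]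
  ring

theorem low_val31 (hTy : G.StTy5) (hst : G.Strip A B) {x : V} (hx : x ∈ G.K0 A B)
    (hl : G.Low x) (hnt : ∀ x ∈ G.K0 A B, ¬ G.IsTw x) (h2 : 2 ≤ (G.nb x ∩ G.K0 B A).card)
    (h3 : (G.nb x ∩ G.K0 B A).card ≤ 3) :
    2 * ((G.nb x ∩ G.K0 A B).card : ℤ) + (if (G.nb x ∩ G.K0 B A).card = 3 then 2 else 0) ≤
      G.B5 A x + G.phi A x := by
  classical
  have hfr : G.Frag A := hst.reg.frag A (by simp)
  obtain ⟨c1, c2, c3⟩ := hTy.co A hfr x
  have hdg := hTy.dg A hfr x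
  have hO := pO_K31 hst hx
  have hO' : (G.pO A x).card = (G.nb x ∩ G.K0 B A).card := by rw [hO]
  have h6 : (G.nb x).card = 6 := hl
  have hK : (G.nb x ∩ G.K0 A B).card ≤ (G.pT A x).card := by
    apply card_le_card
    unfold pT K0
    exact inter_subset_inter_left sdiff_subset
  have hB : G.B5 A x = 4 + 2 * (((G.pO A x).card : ℤ) - ((G.pX A x).card : ℤ)) := by
    unfold B5 a5 c5 d pO pX
    rw [if_pos hl, if_pos hl]
  -- flags at `A`
  have f1 : G.flv A x ≤ if (G.pX A x).card = 2 ∧ (G.pT A x).card = 1 ∧ (G.pO A x).card = 3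
      then 2 else 0 := by
    have k1 : ¬ G.U3 A x := by
      intro h
      have := (hTy.u3 A x h).2.2
      omega
    have k2 : G.s5 A x ≤ if (G.pX A x).card = 2 ∧ (G.pT A x).card = 1 ∧ (G.pO A x).card = 3
        then 2 else 0 := by
      by_cases h : G.s5 A x = 0
      · rw [h]
        split_ifs <;> norm_num
      · obtain ⟨-, -, k3, k4, k5, -⟩ := hTy.s2 A x h
        rw [if_pos ⟨k3, k4, k5⟩]
        exact (hTy.s1 A x).2
    unfold flv
    rw [if_neg k1]
    have k3 : (0 : ℤ) ≤ if G.T3 A x then 1 else 0 := by split_ifs <;> norm_num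
    have k4 : (0 : ℤ) ≤ if G.HF A x then 1 else 0 := by split_ifs <;> norm_num
    have k5 : (0 : ℤ) ≤ if G.RF A x then 1 else 0 := by split_ifs <;> norm_num
    linarith
  -- flags at `Co A`
  have f2 : (if G.T3 (G.Co A) x then -2 else 0 : ℤ) ≤ G.flv (G.Co A) x := by
    have k1 : ¬ G.HF (G.Co A) x := by
      intro h
      have := (hTy.hf (G.Co A) x h).1
      rw [c1] at this
      omega
    have k2 : ¬ G.RF (G.Co A) x := by
      intro h
      exact (hTy.rf (G.Co A) x h).2.1 hl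
    unfold flv
    rw [if_neg k1, if_neg k2]
    have k3 := (hTy.s1 (G.Co A) x).1
    have k4 : (0 : ℤ) ≤ if G.U3 (G.Co A) x then 1 else 0 := by split_ifs <;> norm_num
    by_cases h : G.T3 (G.Co A) x
    · rw [if_pos h, if_pos h]
      linarith
    · rw [if_neg h, if_neg h]
      linarith
  have f3 : G.T3 (G.Co A) x → (G.nb x ∩ G.K0 B A).card = 2 ∧ (G.pT A x).card = 2 ∧
      (G.nb x ∩ G.K0 A B).card = 0 := by
    intro h
    obtain ⟨t1, t2, t3⟩ := hTy.t3 (G.Co A) x h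
    rw [c1] at t1
    rw [c2] at t2
    refine ⟨by omega, t2, ?_⟩
    obtain ⟨-, -, -, Q, Q', r, r', hh, hQ, -, -, hT, -⟩ := h
    rw [c2] at hT
    rw [card_eq_zero, eq_empty_iff_forall_notMem]
    intro z hz
    rw [mem_inter] at hz
    have hz' : z ∈ G.pT A x := by
      unfold pT
      have := hz.2
      unfold K0 at this
      exact mem_inter.2 ⟨hz.1, (mem_sdiff.1 this).1⟩
    rw [hT, mem_insert, mem_singleton] at hz'
    apply hnt z hz.2
    rcases hz' with rfl | rfl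
    · exact ⟨Q', hQ⟩
    · exact ⟨Q, (stTwHL_5 G).symm _ _ hQ⟩
  unfold phi
  rw [hB]
  by_cases hT3 : G.T3 (G.Co A) x
  · obtain ⟨g1, g2, g3⟩ := f3 hT3
    rw [if_pos hT3] at f2
    rw [if_neg (by omega)]
    rw [if_neg (by omega)] at f1
    omega
  · rw [if_neg hT3] at f2
    by_cases h4 : (G.pX A x).card = 2 ∧ (G.pT A x).card = 1 ∧ (G.pO A x).card = 3
    · rw [if_pos h4] at f1
      obtain ⟨g1, g2, g3⟩ := h4
      rw [if_pos (by omega)]
      omega
    · rw [if_neg h4] at f1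
      split_ifs <;> omega

/-! ### the sum over one side -/

/-- number of low neighbours on the same side -/
def lam31 (G : CG V) (A B : Finset V) (x : V) : ℕ :=
  ((G.nb x ∩ G.K0 A B).filter fun v => G.Low v).card

open Classical in
/-- the unpaid vertices -/
noncomputable def U31 (G : CG V) (A B : Finset V) : Finset V :=
  (G.K0 A B).filter fun x => G.Pl A B x ∧ recv31 G A B x < 2

/-- the gain of a low vertex -/
def gain31 (G : CG V) (A B : Finset V) (x : V) : ℤ :=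
  if G.Low x then 2 * (lam31 G A B x : ℤ) + (if (G.nb x ∩ G.K0 B A).card = 3 then 2 else 0) else 0

theorem gain_nonneg31 (x : V) : 0 ≤ gain31 G A B x := by
  unfold gain31
  split_ifs <;> positivity

theorem mem_U31 {x : V} : x ∈ U31 G A B ↔ x ∈ G.K0 A B ∧ G.Pl A B x ∧ recv31 G A B x < 2 := by
  classical
  unfold U31
  rw [mem_filter]

theorem lam_pos31 {x z : V} (hz : z ∈ G.K0 A B) (hl : G.Low z) (h : z ∈ G.nb x) :
    1 ≤ lam31 G A B x :=
  card_pos.2 ⟨z, mem_filter.2 ⟨mem_inter.2 ⟨h, hz⟩, hl⟩⟩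

theorem dc31 : ∑ x ∈ G.K0 A B, (if G.Low x then ((G.nb x ∩ G.K0 A B).card : ℤ) else 0) =
    ∑ x ∈ G.K0 A B, (lam31 G A B x : ℤ) := by
  have h1 : ∀ x, (if G.Low x then ((G.nb x ∩ G.K0 A B).card : ℤ) else 0) =
      ∑ y ∈ G.K0 A B, (if G.Low x ∧ y ∈ G.nb x then 1 else 0) := by
    intro x
    split_ifs with h
    · rw [inter_comm, ← filter_mem_eq_inter, card_filter]
      push_cast
      apply sum_congr rfl
      intro y _
      by_cases h' : y ∈ G.nb x
      · rw [if_pos h', if_pos ⟨h, h'⟩]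
      · rw [if_neg h', if_neg fun k => h' k.2]
    · rw [sum_eq_zero]
      intro y _
      rw [if_neg fun k => h k.1]
  have h2 : ∀ y, (lam31 G A B y : ℤ) =
      ∑ x ∈ G.K0 A B, (if G.Low x ∧ y ∈ G.nb x then 1 else 0) := by
    intro y
    unfold lam31
    rw [inter_comm, ← filter_mem_eq_inter, filter_filter, card_filter]
    push_cast
    apply sum_congr rfl
    intro x _
    by_cases h3 : x ∈ G.nb y ∧ G.Low x
    · rw [if_pos h3, if_pos ⟨h3.2, G.sym _ _ h3.1⟩]
    · rw [if_neg h3, if_neg fun k => h3 ⟨G.sym _ _ k.2, k.1⟩]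
  rw [sum_congr rfl fun x _ => h1 x, sum_congr rfl fun y _ => h2 y, sum_comm]

theorem side31 (hTy : G.StTy5) (hst : G.Strip A B) (hnt : ∀ x ∈ G.K0 A B, ¬ G.IsTw x)
    (h2 : ∀ x ∈ G.K0 A B, 2 ≤ (G.nb x ∩ G.K0 B A).card) (h3 : (G.K0 B A).card ≤ 3) :
    -2 * ((U31 G A B).card : ℤ) + ∑ x ∈ G.K0 A B, gain31 G A B x ≤
      ∑ x ∈ G.K0 A B, val31 G A B x := by
  classical
  have e1 : ∀ x ∈ G.K0 A B, (if G.Low x then 2 * ((G.nb x ∩ G.K0 A B).card : ℤ) +
      (if (G.nb x ∩ G.K0 B A).card = 3 then 2 else 0) else -2 + recv31 G A B x) ≤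
      val31 G A B x := by
    intro x hx
    have hr := recv_nonneg31 (G := G) (A := A) (B := B) x
    unfold val31
    split_ifs with hl h4
    · have := low_val31 hTy hst hx hl hnt (h2 x hx)
        ((card_le_card inter_subset_right).trans h3)
      rw [if_pos h4] at this
      linarith
    · have := low_val31 hTy hst hx hl hnt (h2 x hx)
        ((card_le_card inter_subset_right).trans h3)
      rw [if_neg h4] at this
      linarith
    · rw [hub_val31 hTy ⟨hl, hnt x hx⟩]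
  have e2 := sum_le_sum e1
  have e3 : ∑ x ∈ G.K0 A B, (if G.Low x then 2 * ((G.nb x ∩ G.K0 A B).card : ℤ) +
      (if (G.nb x ∩ G.K0 B A).card = 3 then 2 else 0) else -2 + recv31 G A B x) =
      ∑ x ∈ G.K0 A B, (2 * (lam31 G A B x : ℤ) + (if G.Low x then
        (if (G.nb x ∩ G.K0 B A).card = 3 then 2 else 0) else -2 + recv31 G A B x)) := by
    rw [sum_add_distrib, ← mul_sum, ← dc31, mul_sum, ← sum_add_distrib]
    apply sum_congr rfl
    intro x _
    split_ifs <;> ring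
  have e4 : (-2 * ((U31 G A B).card : ℤ)) = ∑ x ∈ G.K0 A B,
      (if G.Pl A B x ∧ recv31 G A B x < 2 then -2 else 0) := by
    unfold U31
    rw [← sum_filter, sum_const, nsmul_eq_mul, mul_comm]
  rw [e4, ← sum_add_distrib]
  rw [e3] at e2
  refine le_trans (sum_le_sum ?_) e2
  intro x hx
  have hr := recv_nonneg31 (G := G) (A := A) (B := B) x
  unfold gain31
  by_cases hl : G.Low x
  · rw [if_neg (fun h => h.1.2.1.1 hl), if_pos hl, if_pos hl]
    linarith
  · rw [if_neg hl, if_neg hl]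
    by_cases h5 : G.Pl A B x ∧ recv31 G A B x < 2
    · rw [if_pos h5]
      have : (0 : ℤ) ≤ (lam31 G A B x : ℤ) := by positivity
      linarith
    · rw [if_neg h5]
      by_cases h6 : lam31 G A B x = 0
      · have h7 : G.Pl A B x := by
          refine ⟨hx, ⟨hl, hnt x hx⟩, ?_⟩
          intro b hb hbl hbx
          have := lam_pos31 hb hbl hbx
          omega
        have h8 : ¬ recv31 G A B x < 2 := fun h => h5 ⟨h7, h⟩
        rw [h6]
        push_cast
        linarith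
      · have : (1 : ℤ) ≤ (lam31 G A B x : ℤ) := by
          have : 1 ≤ lam31 G A B x := Nat.one_le_iff_ne_zero.2 h6
          exact_mod_cast this
        linarith

/-! ### covers -/

theorem notLow_tw31 {v : V} (h : G.IsTw v) : ¬ G.Low v := by
  obtain ⟨w, hw⟩ := h
  intro hl
  have h1 : (G.nb v).card = 6 := hl
  have h2 := hw.2.1
  omega

theorem recv_low31 {c x : V} (h : G.Gd A B c x) : 2 ≤ recv31 G A B x := by
  classical
  have hm : c ∈ (G.Cc A B).filter (fun c => G.Tch A B c) := mem_filter.2 ⟨h.2.1.1, h.2.1⟩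
  have h1 : share31 G A B c x = 2 := by
    unfold share31
    rw [if_pos h.2.2.1, if_pos h]
  have h2 : share31 G A B c x ≤ recv31 G A B x := by
    unfold recv31
    exact single_le_sum (f := fun c => share31 G A B c x) (fun c _ => share_nonneg31 c x) hm
  linarith

theorem recv_tw31 {v w x y : V} (h : G.Tw v w) (hv : v ∈ G.Cc A B) (hw : w ∈ G.Cc A B)
    (hx : x ∈ G.K0 A B) (hy : y ∈ G.K0 B A) (xv : x ∈ G.nb v) (yv : y ∈ G.nb v)
    (xw : x ∈ G.nb w) (yw : y ∈ G.nb w) : 2 ≤ recv31 G A B x := by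
  classical
  have hne : v ≠ w := by
    rintro rfl
    exact G.irr _ h.1
  have key : ∀ u, G.IsTw u → u ∈ G.Cc A B → x ∈ G.nb u → y ∈ G.nb u →
      u ∈ (G.Cc A B).filter (fun c => G.Tch A B c) ∧ share31 G A B u x = 1 := by
    intro u h1 h2 h3 h4
    constructor
    · exact mem_filter.2 ⟨h2, h2, x, mem_inter.2 ⟨h3, mem_union_left _ hx⟩⟩
    · unfold share31
      rw [if_neg (notLow_tw31 h1), if_pos]
      exact ⟨h1, ⟨x, mem_inter.2 ⟨h3, hx⟩⟩, ⟨y, mem_inter.2 ⟨h4, hy⟩⟩, h3⟩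
  obtain ⟨m1, s1⟩ := key v ⟨w, h⟩ hv xv yv
  obtain ⟨m2, s2⟩ := key w ⟨v, (stTwHL_5 G).symm _ _ h⟩ hw xw yw
  have h1 : ∑ c ∈ ({v, w} : Finset V), share31 G A B c x ≤ recv31 G A B x := by
    unfold recv31
    apply sum_le_sum_of_subset_of_nonneg
    · intro u hu
      rw [mem_insert, mem_singleton] at hu
      rcases hu with rfl | rfl
      · exact m1
      · exact m2
    · intro c _ _
      exact share_nonneg31 c x
  rw [sum_pair hne, s1, s2] at h1
  linarith

theorem hl_ne31 {a b t : V} (h : G.HL a b t) : a ≠ b ∧ t ≠ b ∧ t ≠ a ∧ t ∈ G.nb a := by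
  obtain ⟨h1, h2, h3, h4, h5⟩ := h
  have h6 : a ≠ b := by
    rintro rfl
    exact G.irr _ h3
  have h7 : t ≠ b := by
    rintro rfl
    exact h4 (mem_insert_self _ _)
  have h8 : t ≠ a := by
    rintro rfl
    exact h4 (mem_insert_of_mem (G.sym _ _ h3))
  refine ⟨h6, h7, h8, ?_⟩
  have h9 : t ∈ G.cl a := by
    rw [h5]
    exact mem_insert_self _ _
  exact (mem_insert.1 h9).resolve_left h8

theorem ll_ne31 {u v x y : V} (h : G.LL u v x y) : v ∈ G.nb u ∧ x ∈ G.nb u ∧ y ∈ G.nb v ∧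
    x ≠ u ∧ x ≠ v ∧ y ≠ u ∧ y ≠ v ∧ x ∉ G.nb v ∧ y ∉ G.nb u := by
  obtain ⟨h1, h2, h3, h4, h5, h6, h7⟩ := h
  have k1 : x ≠ u := by
    rintro rfl
    exact h5 (mem_insert_of_mem (G.sym _ _ h3))
  have k2 : x ≠ v := by
    rintro rfl
    exact h5 (mem_insert_self _ _)
  have k3 : y ≠ u := by
    rintro rfl
    exact h6 (mem_insert_self _ _)
  have k4 : y ≠ v := by
    rintro rfl
    exact h6 (mem_insert_of_mem h3)
  have k5 : x ∈ G.cl u := by
    have : x ∈ insert y (G.cl u) := by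
      rw [h7]
      exact mem_insert_self _ _
    exact (mem_insert.1 this).resolve_left h4
  have k6 : y ∈ G.cl v := by
    have : y ∈ insert x (G.cl v) := by
      rw [← h7]
      exact mem_insert_self _ _
    exact (mem_insert.1 this).resolve_left h4.symm
  exact ⟨h3, (mem_insert.1 k5).resolve_left k1, (mem_insert.1 k6).resolve_left k4, k1, k2, k3, k4,
    fun h => h5 (mem_insert_of_mem h), fun h => h6 (mem_insert_of_mem h)⟩

/-- the covers of the edges at an unpaid vertex -/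
theorem cov31 (hCv : G.StCvS) (h : G.Sx A B) (hnB : ∀ y ∈ G.K0 B A, ¬ G.IsTw y)
    (hnA : ∀ x ∈ G.K0 A B, ¬ G.IsTw x) {x y : V} (hx : x ∈ U31 G A B) (hy : y ∈ G.K0 B A)
    (hxy : y ∈ G.nb x) :
    (∃ w ∈ G.K0 B A, G.Low w ∧ x ∈ G.nb w ∧ y ∈ G.nb w) ∨
    (∃ a ∈ G.K0 B A, ∃ b ∈ G.K0 B A, G.HL a b y ∧ G.Low y ∧ x ∈ G.nb b ∧ x ∈ G.nb a) ∨
    (∃ u ∈ G.K0 B A, ∃ v ∈ G.K0 B A, G.LL u v x y) := by
  obtain ⟨hxK, hPl, hr⟩ := mem_U31.1 hx
  have hns : ∀ b ∈ G.K0 A B, G.Low b → x ∈ G.nb b → False := fun b hb hl hn =>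
    hPl.2.2 b hb hl (G.sym _ _ hn)
  have hgd : ∀ c, G.Gd A B c x → False := fun c hc => by
    have := recv_low31 hc
    omega
  have htch : ∀ c ∈ G.Cc A B, x ∈ G.nb c → G.Tch A B c := fun c hc hn =>
    ⟨hc, x, mem_inter.2 ⟨hn, mem_union_left _ hxK⟩⟩
  rcases hCv A B h x hxK y hy hxy with ⟨w, hl, xw, yw, h1 | h1 | h1⟩ |
      ⟨v, w, ht, xv, yv, xw, yw, ⟨h1, h2⟩ | ⟨h1, h2⟩ | ⟨h1, h2⟩⟩ |
      ⟨a, b, hHL, hl, xb, xa, ⟨h1, h2⟩ | ⟨h1, h2⟩ | ⟨h1, h2⟩⟩ |
      ⟨a, b, hHL, hl, yb, ya, -⟩ |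
      ⟨u, v, hLL, ⟨h1, h2⟩ | ⟨h1, h2⟩ | ⟨h1, h2⟩⟩
  · exact (hgd w ⟨hPl, htch w h1 xw, hl, xw, Or.inl ⟨y, mem_inter.2 ⟨yw, hy⟩⟩⟩).elim
  · exact (hns w h1 hl xw).elim
  · exact Or.inl ⟨w, h1, hl, xw, yw⟩
  · have := recv_tw31 ht h1 h2 hxK hy xv yv xw yw
    omega
  · exact (hnA v h1 ⟨w, ht⟩).elim
  · exact (hnB v h1 ⟨w, ht⟩).elim
  · exact (hgd b ⟨hPl, htch b h2 xb, hHL.2.1, xb, Or.inr (Or.inl ⟨a, h1, y, hy, hHL⟩)⟩).elim
  · exact (hns b h2 hHL.2.1 xb).elim
  · exact Or.inr (Or.inl ⟨a, h1, b, h2, hHL, hl, xb, xa⟩)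
  · exact (hPl.2.1.1 hl).elim
  · exact (hgd u ⟨hPl, htch u h1 (ll_ne31 hLL).2.1, hLL.1, (ll_ne31 hLL).2.1,
      Or.inr (Or.inr ⟨v, h2, y, hy, hLL⟩)⟩).elim
  · exact (hns u h1 hLL.1 (ll_ne31 hLL).2.1).elim
  · exact Or.inr (Or.inr ⟨u, h1, v, h2, hLL⟩)

/-- two adjacent lows on one side -/
def Adj31 (G : CG V) (A B : Finset V) : Prop :=
  ∃ u ∈ G.K0 A B, ∃ v ∈ G.K0 A B, G.Low u ∧ G.Low v ∧ v ∈ G.nb u

theorem card4_31 {S : Finset V} (h : S.card ≤ 3) {a b c e : V} (ha : a ∈ S) (hb : b ∈ S)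
    (hc : c ∈ S) (he : e ∈ S) (h1 : a ≠ b) (h2 : a ≠ c) (h3 : b ≠ c) (h4 : e ≠ a) (h5 : e ≠ b)
    (h6 : e ≠ c) : False := by
  have h7 : ({e, a, b, c} : Finset V) ⊆ S := by
    intro z hz
    simp only [mem_insert, mem_singleton] at hz
    rcases hz with rfl | rfl | rfl | rfl <;> assumption
  have h8 := card_le_card h7
  rw [card_insert_of_notMem, card_eq_three.2 ⟨a, b, c, h1, h2, h3, rfl⟩] at h8
  · omega
  · simp only [mem_insert, mem_singleton]
    tauto

theorem adj31 (hCv : G.StCvS) (h : G.Sx A B) (hnB : ∀ y ∈ G.K0 B A, ¬ G.IsTw y)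
    (hnA : ∀ x ∈ G.K0 A B, ¬ G.IsTw x) (hK : (G.K0 B A).card ≤ 3) {x : V}
    (hx : x ∈ U31 G A B) : Adj31 G B A := by
  by_contra hno
  have hlow : ∀ y ∈ G.K0 B A, y ∈ G.nb x → ¬ G.Low y := by
    intro y hy hxy hl
    rcases cov31 hCv h hnB hnA hx hy hxy with ⟨w, h1, h2, h3, h4⟩ |
      ⟨a, h1, b, h2, h3, h4, h5, h6⟩ | ⟨u, h1, v, h2, h3⟩
    · exact hno ⟨w, h1, y, hy, h2, hl, h4⟩
    · obtain ⟨k1, k2, k3, -⟩ := hl_ne31 h3
      rcases cov31 hCv h hnB hnA hx h2 (G.sym _ _ h5) with ⟨w, i1, i2, i3, i4⟩ |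
        ⟨a', i1, b', i2, i3, i4, i5, i6⟩ | ⟨u, i1, v, i2, i3⟩
      · exact hno ⟨w, i1, b, h2, i2, h3.2.1, i4⟩
      · obtain ⟨l1, l2, l3, -⟩ := hl_ne31 i3
        have hb' : b' = y := by
          by_contra h7
          have h8 : b' ≠ a := by
            rintro rfl
            have e1 : (G.nb b').card = 6 := i3.2.1
            have e2 := h3.1
            omega
          exact card4_31 hK h1 h2 hy i2 k1 k3.symm k2.symm h8 l2.symm h7
        subst hb'
        have ha' : a' = a := by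
          by_contra h7
          exact card4_31 hK h1 h2 hy i1 k1 k3.symm k2.symm h7 l3.symm l1
        subst ha'
        exact (stTwHL_5 G).nomut h.st.n9 _ _ _ _ _ h3 i3 rfl
      · exact hno ⟨u, i1, v, i2, i3.1, i3.2.1, (ll_ne31 i3).1⟩
    · exact hno ⟨u, h1, v, h2, h3.1, h3.2.1, (ll_ne31 h3).1⟩
  have hxK := (mem_U31.1 hx).1
  have h1 := h.e1.one x hxK
  obtain ⟨y, hy⟩ := card_pos.1 (by omega : 0 < (G.nb x ∩ G.K0 B A).card)
  rw [mem_inter] at hy
  rcases cov31 hCv h hnB hnA hx hy.2 hy.1 with ⟨w, h1, h2, h3, h4⟩ |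
    ⟨a, h1, b, h2, h3, h4, h5, h6⟩ | ⟨u, h1, v, h2, h3⟩
  · exact hlow w h1 (G.sym _ _ h3) h2
  · exact hlow b h2 (G.sym _ _ h5) h3.2.1
  · exact hno ⟨u, h1, v, h2, h3.1, h3.2.1, (ll_ne31 h3).1⟩

theorem gain_adj31 (h : Adj31 G A B) : 4 ≤ ∑ x ∈ G.K0 A B, gain31 G A B x := by
  obtain ⟨u, hu, v, hv, lu, lv, huv⟩ := h
  have hne : u ≠ v := by
    rintro rfl
    exact G.irr _ huv
  have h1 : ∑ x ∈ ({u, v} : Finset V), gain31 G A B x ≤ ∑ x ∈ G.K0 A B, gain31 G A B x := by
    apply sum_le_sum_of_subset_of_nonneg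
    · intro z hz
      rw [mem_insert, mem_singleton] at hz
      rcases hz with rfl | rfl <;> assumption
    · intro z _ _
      exact gain_nonneg31 z
  rw [sum_pair hne] at h1
  have h2 : ∀ a b : V, a ∈ G.K0 A B → b ∈ G.K0 A B → G.Low a → G.Low b → b ∈ G.nb a →
      2 ≤ gain31 G A B a := by
    intro a b _ hb la lb hab
    have h3 := lam_pos31 hb lb hab
    unfold gain31
    rw [if_pos la]
    have h4 : (1 : ℤ) ≤ (lam31 G A B a : ℤ) := by exact_mod_cast h3
    split_ifs <;> linarith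
  have h3 := h2 u v hu hv lu lv huv
  have h4 := h2 v u hv hu lv lu (G.sym _ _ huv)
  linarith

theorem U_adj31 (h : Adj31 G A B) : (U31 G A B).card + 2 ≤ (G.K0 A B).card := by
  classical
  obtain ⟨u, hu, v, hv, lu, lv, huv⟩ := h
  have hne : u ≠ v := by
    rintro rfl
    exact G.irr _ huv
  have hU : ∀ z ∈ U31 G A B, ¬ G.Low z := fun z hz => (mem_U31.1 hz).2.1.2.1.1
  have hd : Disjoint (U31 G A B) {u, v} := by
    rw [disjoint_left]
    intro z hz hz'
    rw [mem_insert, mem_singleton] at hz'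
    rcases hz' with rfl | rfl
    · exact hU _ hz lu
    · exact hU _ hz lv
  rw [← card_pair hne, ← card_union_of_disjoint hd]
  apply card_le_card
  intro z hz
  rw [mem_union, mem_insert, mem_singleton] at hz
  rcases hz with hz | rfl | rfl
  · exact (mem_U31.1 hz).1
  · exact hu
  · exact hv

theorem gain_three31 (hCv : G.StCvS) (h : G.Sx A B) (hnB : ∀ y ∈ G.K0 B A, ¬ G.IsTw y)
    (hnA : ∀ x ∈ G.K0 A B, ¬ G.IsTw x) (hKA : (G.K0 A B).card = 3) (hKB : (G.K0 B A).card = 3)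
    (hU : (U31 G A B).card = 3) : 6 ≤ ∑ y ∈ G.K0 B A, gain31 G B A y := by
  classical
  have hUK : U31 G A B = G.K0 A B := by
    apply eq_of_subset_of_card_le
    · intro z hz
      exact (mem_U31.1 hz).1
    · omega
  obtain ⟨x0, hx0⟩ := card_pos.1 (by omega : 0 < (U31 G A B).card)
  obtain ⟨y1, hy1, y2, hy2, l1, l2, h12⟩ := adj31 hCv h hnB hnA (by omega) hx0
  have hne : y1 ≠ y2 := by
    rintro rfl
    exact G.irr _ h12
  have g1 : 1 ≤ lam31 G B A y1 := lam_pos31 hy2 l2 h12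
  have g2 : 1 ≤ lam31 G B A y2 := lam_pos31 hy1 l1 (G.sym _ _ h12)
  by_cases hz : ∃ z ∈ G.K0 B A, z ≠ y1 ∧ z ≠ y2 ∧ G.Low z ∧ (z ∈ G.nb y1 ∨ z ∈ G.nb y2)
  · obtain ⟨z, hzK, z1, z2, lz, hzn⟩ := hz
    have g3 : 1 ≤ lam31 G B A z := by
      rcases hzn with h3 | h3
      · exact lam_pos31 hy1 l1 (G.sym _ _ h3)
      · exact lam_pos31 hy2 l2 (G.sym _ _ h3)
    have h1 : ∑ y ∈ ({z, y1, y2} : Finset V), gain31 G B A y ≤
        ∑ y ∈ G.K0 B A, gain31 G B A y := by
      apply sum_le_sum_of_subset_of_nonneg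
      · intro w hw
        simp only [mem_insert, mem_singleton] at hw
        rcases hw with rfl | rfl | rfl <;> assumption
      · intro w _ _
        exact gain_nonneg31 w
    rw [sum_insert (by simp [z1, z2]), sum_pair hne] at h1
    have h2 : ∀ a, G.Low a → 1 ≤ lam31 G B A a → 2 ≤ gain31 G B A a := by
      intro a la hla
      unfold gain31
      rw [if_pos la]
      have h4 : (1 : ℤ) ≤ (lam31 G B A a : ℤ) := by exact_mod_cast hla
      split_ifs <;> linarith
    have := h2 z lz g3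
    have := h2 y1 l1 g1
    have := h2 y2 l2 g2
    linarith
  · have hall : ∀ x ∈ G.K0 A B, x ∈ G.nb y1 := by
      intro x hx
      have h1 := h.e2.two (by omega) y1 hy1 y2 hy2 hne hx
      rcases mem_union.1 h1 with h2 | h2
      · exact h2
      · have hxU : x ∈ U31 G A B := by
          rw [hUK]
          exact hx
        rcases cov31 hCv h hnB hnA hxU hy2 (G.sym _ _ h2) with ⟨w, i1, i2, i3, i4⟩ |
          ⟨a, i1, b, i2, i3, i4, i5, i6⟩ | ⟨u, i1, v, i2, i3⟩
        · by_cases h3 : w = y1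
          · rw [← h3]
            exact i3
          · exfalso
            apply hz
            refine ⟨w, i1, h3, ?_, i2, Or.inr (G.sym _ _ i4)⟩
            rintro rfl
            exact G.irr _ i4
        · exfalso
          obtain ⟨k1, k2, k3, -⟩ := hl_ne31 i3
          have hb1 : b ≠ y1 := by
            rintro rfl
            exact i3.2.2.2.1 (mem_insert_of_mem h12)
          have ha1 : a ≠ y1 := by
            rintro rfl
            have e1 : (G.nb a).card = 6 := l1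
            have e2 := i3.1
            omega
          exact card4_31 (by omega) hy1 hy2 i2 i1 hne hb1.symm k2 ha1 k3.symm k1
        · exfalso
          obtain ⟨k1, k2, k3, k4, k5, k6, k7, k8, k9⟩ := ll_ne31 i3
          have hu1 : u ≠ y1 := by
            rintro rfl
            exact k9 h12
          have hv : v = y1 := by
            by_contra h3
            have huv : v ≠ u := by
              rintro rfl
              exact G.irr _ k1
            exact card4_31 (by omega) hy1 hy2 i1 i2 hne hu1.symm k6 h3 k7.symm huv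
          subst hv
          exact hz ⟨u, i1, hu1, k6.symm, i3.1, Or.inl (G.sym _ _ k1)⟩
    have h3 : (G.nb y1 ∩ G.K0 A B).card = 3 := by
      rw [← hKA]
      congr 1
      exact inter_eq_right.2 hall
    have h1 : ∑ y ∈ ({y1, y2} : Finset V), gain31 G B A y ≤
        ∑ y ∈ G.K0 B A, gain31 G B A y := by
      apply sum_le_sum_of_subset_of_nonneg
      · intro w hw
        simp only [mem_insert, mem_singleton] at hw
        rcases hw with rfl | rfl <;> assumption
      · intro w _ _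
        exact gain_nonneg31 w
    rw [sum_pair hne] at h1
    have h4 : 4 ≤ gain31 G B A y1 := by
      unfold gain31
      rw [if_pos l1, if_pos h3]
      have : (1 : ℤ) ≤ (lam31 G B A y1 : ℤ) := by exact_mod_cast g1
      linarith
    have h5 : 2 ≤ gain31 G B A y2 := by
      unfold gain31
      rw [if_pos l2]
      have : (1 : ℤ) ≤ (lam31 G B A y2 : ℤ) := by exact_mod_cast g2
      split_ifs <;> linarith
    linarith

theorem K0_card31 (hst : G.Strip A B) : (G.K0 B A).card = (G.K0 A B).card := by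
  have h : G.St1 A B := ⟨hst.ne, hst.reg, hst.sub⟩
  unfold K0
  exact h.card_eq.symm

/-- no twins in `K0 A B` and `K0 B A` -/
theorem singles31 (hTy : G.StTy5) (hT : G.StTotS) (hN : G.StNet5) (hCv : G.StCvS)
    (h : G.Sx A B) (hK : (G.K0 A B).card = 2 ∨ (G.K0 A B).card = 3)
    (hnA : ∀ x ∈ G.K0 A B, ¬ G.IsTw x) (hnB : ∀ y ∈ G.K0 B A, ¬ G.IsTw y) :
    0 ≤ ∑ z ∈ R {A, B}, G.bal5 {A, B} z := by
  classical
  have hKB := K0_card31 h.st
  have t := total31 hT hN h.st
  have sA := side31 hTy h.st hnA h.e1.one (by omega)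
  have sB := side31 hTy (sx_symm31 h).st hnB h.e2.one (by omega)
  have gA : 0 ≤ ∑ x ∈ G.K0 A B, gain31 G A B x := sum_nonneg fun x _ => gain_nonneg31 x
  have gB : 0 ≤ ∑ x ∈ G.K0 B A, gain31 G B A x := sum_nonneg fun x _ => gain_nonneg31 x
  have uA : (U31 G A B).card ≤ (G.K0 A B).card := card_le_card fun z hz => (mem_U31.1 hz).1
  have uB : (U31 G B A).card ≤ (G.K0 B A).card := card_le_card fun z hz => (mem_U31.1 hz).1
  have a1 : 1 ≤ (U31 G A B).card → 4 ≤ ∑ x ∈ G.K0 B A, gain31 G B A x ∧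
      (U31 G B A).card + 2 ≤ (G.K0 B A).card := by
    intro h1
    obtain ⟨x, hx⟩ := card_pos.1 h1
    have h2 := adj31 hCv h hnB hnA (by omega) hx
    exact ⟨gain_adj31 h2, U_adj31 h2⟩
  have a2 : 1 ≤ (U31 G B A).card → 4 ≤ ∑ x ∈ G.K0 A B, gain31 G A B x ∧
      (U31 G A B).card + 2 ≤ (G.K0 A B).card := by
    intro h1
    obtain ⟨x, hx⟩ := card_pos.1 h1
    have h2 := adj31 hCv (sx_symm31 h) hnA hnB (by omega) hx
    exact ⟨gain_adj31 h2, U_adj31 h2⟩
  have a3 : (U31 G A B).card = 3 → 6 ≤ ∑ x ∈ G.K0 B A, gain31 G B A x := by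
    intro h1
    exact gain_three31 hCv h hnB hnA (by omega) (by omega) h1
  have a4 : (U31 G B A).card = 3 → 6 ≤ ∑ x ∈ G.K0 A B, gain31 G A B x := by
    intro h1
    exact gain_three31 hCv (sx_symm31 h) hnA hnB (by omega) (by omega) h1
  omega

/-- S9a -/
theorem stTh2s_31 (G : CG V) (hTy : G.StTy5) (hT : G.StTotS) (hN : G.StNet5) (hCv : G.StCvS) :
    G.StTh2s := fun _ _ h hK hnA hnB => singles31 hTy hT hN hCv h (Or.inl hK) hnA hnB

/-- S10a -/
theorem stTh3s_31 (G : CG V) (hTy : G.StTy5) (hT : G.StTotS) (hN : G.StNet5) (hCv : G.StCvS) :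
    G.StTh3s := fun _ _ h hK hnA hnB => singles31 hTy hT hN hCv h (Or.inr hK) hnA hnB

end CG

end Pool.Agent.Lib.MP_e95c01_co.N
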