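import Pool.Agent.Lib.MP_e95c01_co.X.AuxK50

/-!
# S9b: a pair of twins against two other vertices
-/

namespace Pool.Agent.Lib.MP_e95c01_co.N

open Finset

variable {V : Type} [Fintype V] [DecidableEq V]

namespace CG

variable {G : CG V} {A B : Finset V}

theorem self50 (v : V) : v ∉ G.nb v := G.irr v

/-- a twin vertex and its partner have the same neighbours in a set without both -/
theorem nb_tw50 {X X' : V} (h : G.Tw X X') {S : Finset V} (h1 : X ∉ S) (h2 : X' ∉ S) :
    G.nb X ∩ S = G.nb X' ∩ S := by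
  ext z
  rw [mem_inter, mem_inter]
  constructor
  · rintro ⟨h3, h4⟩
    exact ⟨Tw_nb5 h h3 (fun h5 => h2 (h5 ▸ h4)), h4⟩
  · rintro ⟨h3, h4⟩
    exact ⟨Tw_nb5 (symm_5 h) h3 (fun h5 => h1 (h5 ▸ h4)), h4⟩

/-- covers of an edge between a twin vertex of `K0 A B` and a vertex of `K0 B A` -/
theorem cov_tw50 (hC : G.StCvS) (hS : G.Sx A B) {X X' y : V} (hT : G.Tw X X')
    (hX : X ∈ G.K0 A B) (hK : ∀ v ∈ G.K0 A B, G.IsTw v → v = X ∨ v = X')
    (hone : ∀ v ∈ G.K0 A B, ∀ w ∈ G.K0 A B, ¬ G.IsTw v → ¬ G.IsTw w → v = w)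
    (hnt : ∀ y ∈ G.K0 B A, ¬ G.IsTw y) (hy : y ∈ G.K0 B A) (hXy : y ∈ G.nb X) :
    (∃ w ∈ G.Cc A B, G.Low w ∧ w ∈ G.nb X ∧ w ∈ G.nb y) ∨
    (∃ w ∈ G.K0 A B, G.Low w ∧ w ∈ G.nb X ∧ w ∈ G.nb y) ∨
    (∃ w ∈ G.K0 B A, G.Low w ∧ w ∈ G.nb y) ∨
    (∃ v ∈ G.Cc A B, ∃ w ∈ G.Cc A B, G.Tw v w ∧ v ∈ G.nb X ∧ v ∈ G.nb y) ∨
    (∃ a ∈ G.Cc A B, ∃ b ∈ G.Cc A B, G.HL a b y ∧ G.Low y ∧ a ∈ G.nb X ∧ b ∈ G.nb X) ∨
    (∃ a ∈ G.K0 B A, ∃ b ∈ G.K0 B A, G.HL a b y ∧ G.Low y) := by
  have n9 := hS.st.n9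
  have h7 := stTwHL_5 G
  have hXt : G.IsTw X := ⟨_, hT⟩
  rcases hC A B hS X hX y hy hXy with h | h | h | h | h
  · obtain ⟨w, h1, h2, h3, h4 | h4 | h4⟩ := h
    · exact Or.inl ⟨w, h4, h1, G.sym _ _ h2, G.sym _ _ h3⟩
    · exact Or.inr (Or.inl ⟨w, h4, h1, G.sym _ _ h2, G.sym _ _ h3⟩)
    · exact Or.inr (Or.inr (Or.inl ⟨w, h4, h1, G.sym _ _ h3⟩))
  · obtain ⟨v, w, h1, h2, h3, h4, h5, h6 | h6 | h6⟩ := h
    · exact Or.inr (Or.inr (Or.inr (Or.inl ⟨v, h6.1, w, h6.2, h1, G.sym _ _ h2, G.sym _ _ h3⟩)))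
    · exfalso
      have hv : v = X' := by
        rcases hK v h6.1 ⟨_, h1⟩ with rfl | rfl
        · exact absurd h2 (self50 _)
        · rfl
      have hw : w = X' := by
        rcases hK w h6.2 ⟨_, symm_5 h1⟩ with rfl | rfl
        · exact absurd h4 (self50 _)
        · rfl
      exact Tw_ne87 h1 (hv.trans hw.symm)
    · exact absurd ⟨_, h1⟩ (hnt v h6.1)
  · obtain ⟨a, b, h1, h2, h3, h4, h5 | h5 | h5⟩ := h
    · exact Or.inr (Or.inr (Or.inr (Or.inr (Or.inl
        ⟨a, h5.1, b, h5.2, h1, h2, G.sym _ _ h4, G.sym _ _ h3⟩))))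
    · exfalso
      have h6 := hone a h5.1 b h5.2 (h7.notHL n9 a b y h1) (low_not_tw87 h1.2.1)
      have h8 := ne_of_nb5 h1.2.2.1
      exact h8 h6
    · exact Or.inr (Or.inr (Or.inr (Or.inr (Or.inr ⟨a, h5.1, b, h5.2, h1, h2⟩))))
  · obtain ⟨a, b, h1, h2, -⟩ := h
    exact absurd hXt (low_not_tw87 h2)
  · obtain ⟨u, v, h1, -⟩ := h
    exact absurd hXt (twLL_5 h1)

/-- flags of a twin vertex of `K0 A B` with at most three neighbours in `K0 B A` -/
theorem phi_tw50 (h : G.Strip A B) {x : V} (hx : x ∈ G.K0 A B) (ht : G.IsTw x)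
    (h3 : (G.nb x ∩ G.K0 B A).card ≤ 3) : 0 ≤ G.phi A x ∧ (G.RF A x → G.phi A x = 1) := by
  classical
  have h1 : ¬ G.RF (G.Co A) x := by
    intro h2
    obtain ⟨-, -, h4, -⟩ := (stTy5_87 G).rf _ x h2
    rw [pXCo87, pO_K0_50 h hx] at h4
    omega
  rw [phi_tw87 ht, if_neg h1]
  constructor
  · split_ifs <;> norm_num
  · intro h2
    rw [if_pos h2]
    norm_num

/-- the balance of a low common vertex that is adjacent to the pair `X`, `X'` and nothing else
in `K0 A B` -/
theorem e5_pair50 (hL : G.StLoc5) (h : G.Strip A B) {X X' w : V} (hT : G.Tw X X')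
    (hwX : w ∈ G.nb X) (hX : X ∈ G.K0 A B) (hX' : X' ∈ G.K0 A B) (hw : w ∈ G.Cc A B)
    (hl : G.Low w) (hnt : ∀ y ∈ G.K0 B A, ¬ G.IsTw y)
    (hno : ∀ a b, G.HL a b w → G.pT A X = {X', w} → (G.nb w ∩ G.Cc A B) = ∅ → a ∈ G.K0 B A →
      b ∈ G.K0 B A → (G.pO A X).card = 2 → False) :
    -2 ≤ G.e5 A B w := by
  classical
  have hTc : G.Tch A B w := tch_of87 hw (Or.inl hX) (G.sym _ _ hwX)
  have hXw : X ∈ G.nb w := G.sym _ _ hwX
  have hwne : w ≠ X' := by
    rintro rfl
    exact low_not_tw87 hl ⟨_, symm_5 hT⟩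
  have hX'w : X' ∈ G.nb w := G.sym _ _ (Tw_nb5 hT hwX hwne)
  have hne : X ≠ X' := Tw_ne87 hT
  have hk0 : 2 ≤ (G.nb w ∩ G.K0 A B).card :=
    two_le5 (mem_inter.2 ⟨hXw, hX⟩) (mem_inter.2 ⟨hX'w, hX'⟩) hne
  have hdeg := deg_Cc87 h w
  have hl6 : (G.nb w).card = 6 := hl
  have hpA := pX_pos87 (mem_Cc87.1 hw).1
  have hpB := pX_pos87 (mem_Cc87.1 hw).2
  have hpOA := pO_card87 h w
  have hpOB := pO_card87 h.symm72 w
  obtain ⟨α, β, h1, h2, h3, h4, h5⟩ := hL A B h w hTc hl
  have h6 : (0 : ℤ) ≤ (if G.U3 (G.Co A) w then 1 else 0) := by split_ifs <;> norm_num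
  have h7 : (0 : ℤ) ≤ (if G.U3 (G.Co B) w then 1 else 0) := by split_ifs <;> norm_num
  by_cases hab : α = 1 ∧ β = 1
  · exfalso
    have hKA := h3 hab.1
    have hKB := h4 hab.2
    rcases hKA with ⟨hc, -⟩ | ⟨hc, hKA⟩
    · rw [hc, card_empty] at hk0
      omega
    rw [hc, card_empty] at hdeg
    rcases hKB with ⟨-, -, hc'⟩ | ⟨-, hKB⟩
    · rw [Cc_symm87] at hc'
      rw [hc] at hc'
      exact not_nonempty_empty hc'
    rcases hKA with ⟨x, hx, -, hx2, -⟩ | ⟨-, hp, hq⟩ | ⟨Q, Q', hQ, hQ1, hQ2, hQ3, hQ4, hQ5⟩ |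
      ⟨a, ha, b, hb, -, ha2, -⟩
    · rw [hx2, card_singleton] at hk0
      omega
    · rcases hKB with ⟨y, hy, -, hy2, hy3, hy4, -⟩ | ⟨⟨y, y', hy, hy2⟩, -⟩ |
        ⟨y, y', hy, hy2, -⟩ | ⟨a, ha, b, hb, hab2, ha2, ha3, ha4⟩
      · omega
      · have : y ∈ G.nb w ∩ G.K0 B A := by rw [hy2]; simp
        exact hnt y (mem_inter.1 this).2 ⟨_, hy⟩
      · have : y ∈ G.nb w ∩ G.K0 B A := by rw [hy2]; simp
        exact hnt y (mem_inter.1 this).2 ⟨_, hy⟩
      · omega
    · rcases hKB with ⟨y, hy, -, hy2, hy3, hy4, -⟩ | ⟨⟨y, y', hy, hy2⟩, -⟩ |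
        ⟨y, y', hy, hy2, -⟩ | ⟨a, ha, b, hb, hab2, ha2, ha3, ha4⟩
      · omega
      · have : y ∈ G.nb w ∩ G.K0 B A := by rw [hy2]; simp
        exact hnt y (mem_inter.1 this).2 ⟨_, hy⟩
      · have : y ∈ G.nb w ∩ G.K0 B A := by rw [hy2]; simp
        exact hnt y (mem_inter.1 this).2 ⟨_, hy⟩
      · -- `T3` and `HL`
        have hQX : (Q = X ∧ Q' = X') ∨ (Q = X' ∧ Q' = X) := by
          have h8 : X ∈ G.nb w ∩ G.K0 A B := mem_inter.2 ⟨hXw, hX⟩
          rw [hQ1, mem_insert, mem_singleton] at h8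
          have h9 : X' ∈ G.nb w ∩ G.K0 A B := mem_inter.2 ⟨hX'w, hX'⟩
          rw [hQ1, mem_insert, mem_singleton] at h9
          rcases h8 with h8 | h8
          · rcases h9 with h9 | h9
            · exact absurd (h8.trans h9.symm) hne
            · exact Or.inl ⟨h8.symm, h9.symm⟩
          · rcases h9 with h9 | h9
            · exact Or.inr ⟨h9.symm, h8.symm⟩
            · exact absurd (h8.trans h9.symm) hne
        have hXA := (mem_K087.1 hX).1
        have hX'A := (mem_K087.1 hX').1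
        have hwA := (mem_Cc87.1 hw).1
        rcases hQX with ⟨rfl, rfl⟩ | ⟨rfl, rfl⟩
        · exact hno a b hab2 hQ4 hc ha hb hQ5
        · refine hno a b hab2 ?_ hc ha hb ?_
          · ext z
            constructor
            · intro hz
              obtain ⟨hz1, hz2⟩ := mem_inter.1 hz
              rw [mem_insert, mem_singleton]
              by_cases hzQ : z = Q
              · exact Or.inl hzQ
              · right
                have h8 : z ∈ G.pT A Q := mem_inter.2 ⟨Tw_nb5 hT hz1 hzQ, hz2⟩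
                rw [hQ4, mem_insert, mem_singleton] at h8
                rcases h8 with h8 | h8
                · exfalso
                  rw [h8] at hz1
                  exact self50 _ hz1
                · exact h8
            · intro hz
              rw [mem_insert, mem_singleton] at hz
              rcases hz with rfl | rfl
              · exact mem_inter.2 ⟨hT.1, hX'A⟩
              · exact mem_inter.2 ⟨hwX, hwA⟩
          · have h8 : G.pO A Q' = G.pO A Q := by
              apply nb_tw50 hT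
              · intro h9
                exact (mem_Co1.1 h9).2 hXA
              · intro h9
                exact (mem_Co1.1 h9).2 hX'A
            rw [h8]
            exact hQ5
    · have h8 : X ∈ G.nb w ∩ G.K0 A B := mem_inter.2 ⟨hXw, hX⟩
      have h9 : X' ∈ G.nb w ∩ G.K0 A B := mem_inter.2 ⟨hX'w, hX'⟩
      rw [ha2, mem_singleton] at h8 h9
      exact hne (h8.trans h9.symm)
  · have h8 : α + β ≤ 1 := by
      rcases h1 with h1 | h1 <;> rcases h2 with h2 | h2
      · omega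
      · omega
      · omega
      · exact absurd ⟨h1, h2⟩ hab
    linarith

/-- the balance of a low common vertex that is adjacent to the pair `X`, `X'` and to two
vertices of `K0 B A` -/
theorem e5_two50 (hL : G.StLoc5) (h : G.Strip A B) {X X' w : V} (hT : G.Tw X X')
    (hwX : w ∈ G.nb X) (hX : X ∈ G.K0 A B) (hw : w ∈ G.Cc A B)
    (hl : G.Low w) (hk : G.nb w ∩ G.K0 A B = {X, X'}) (h2 : (G.nb w ∩ G.K0 B A).card = 2)
    (hnt : ∀ y ∈ G.K0 B A, ¬ G.IsTw y) : 2 ≤ G.e5 A B w := by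
  classical
  have hTc : G.Tch A B w := tch_of87 hw (Or.inl hX) (G.sym _ _ hwX)
  have hne : X ≠ X' := Tw_ne87 hT
  have hk0 : (G.nb w ∩ G.K0 A B).card = 2 := by rw [hk, card_pair hne]
  have hdeg := deg_Cc87 h w
  have hl6 : (G.nb w).card = 6 := hl
  have hpA := pX_pos87 (mem_Cc87.1 hw).1
  have hpB := pX_pos87 (mem_Cc87.1 hw).2
  have hpOA := pO_card87 h w
  have hpOB := pO_card87 h.symm72 w
  have hc : G.nb w ∩ G.Cc A B = ∅ := by
    rw [← card_eq_zero]
    omega
  have hU : G.U3 (G.Co A) w := by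
    refine ⟨?_, hl, ?_, X, X', hT, ?_⟩
    · rw [NCo87 h.fA87]
      exact (mem_Cc87.1 hw).1
    · rw [pXCo87]
      omega
    · rw [pTCo87 h.fA87, pT_eq87 (B := B), hk, hc, union_empty]
  obtain ⟨α, β, h1, h3, h4, h5, h6⟩ := hL A B h w hTc hl
  have hα : α = 0 := by
    rcases h1 with h1 | h1
    · exact h1
    · exfalso
      rcases h4 h1 with ⟨hc', -⟩ | ⟨-, hKA⟩
      · rw [hc', card_empty] at hk0
        omega
      · rcases hKA with ⟨x, hx, -, hx2, -⟩ | ⟨-, hp, hq⟩ | ⟨Q, Q', hQ, hQ1, hQ2, -⟩ |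
          ⟨a, ha, b, hb, -, ha2, -⟩
        · rw [hx2, card_singleton] at hk0
          omega
        · omega
        · omega
        · rw [ha2, card_singleton] at hk0
          omega
  have hβ : β = 0 := by
    rcases h3 with h3 | h3
    · exact h3
    · exfalso
      rcases h5 h3 with ⟨hc', -⟩ | ⟨-, hKA⟩
      · rw [hc', card_empty] at h2
        omega
      · rcases hKA with ⟨x, hx, -, hx2, -⟩ | ⟨⟨y, y', hy, hy2⟩, -⟩ | ⟨y, y', hy, hy2, -⟩ |
          ⟨a, ha, b, hb, -, ha2, -⟩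
        · rw [hx2, card_singleton] at h2
          omega
        · have : y ∈ G.nb w ∩ G.K0 B A := by rw [hy2]; simp
          exact hnt y (mem_inter.1 this).2 ⟨_, hy⟩
        · have : y ∈ G.nb w ∩ G.K0 B A := by rw [hy2]; simp
          exact hnt y (mem_inter.1 this).2 ⟨_, hy⟩
        · rw [ha2, card_singleton] at h2
          omega
  rw [if_pos hU, hα, hβ] at h6
  have h7 : (0 : ℤ) ≤ (if G.U3 (G.Co B) w then 1 else 0) := by split_ifs <;> norm_num
  linarith

/-- the third vertex of `HL` is unique -/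
theorem HL_t_uniq50 {a b t t' : V} (h : G.HL a b t) (h' : G.HL a b t') : t = t' := by
  have h1 : t ∈ insert t' (G.cl b) := by
    rw [← h'.2.2.2.2, h.2.2.2.2]
    exact mem_insert_self _ _
  rcases mem_insert.1 h1 with h2 | h2
  · exact h2
  · exact absurd h2 h.2.2.2.1

/-- a pair of twins against two other vertices -/
structure Cx50 (G : CG V) (A B : Finset V) (X X' y y' : V) : Prop where
  hS : G.Sx A B
  hT : G.Tw X X'
  hK : G.K0 A B = {X, X'}
  hK1 : G.K0 B A = {y, y'}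
  ne : y ≠ y'
  hnt : ∀ y ∈ G.K0 B A, ¬ G.IsTw y

namespace Cx50

variable {X X' y y' : V}

theorem symm (c : Cx50 G A B X X' y y') : Cx50 G A B X X' y' y :=
  ⟨c.hS, c.hT, c.hK, by rw [c.hK1, pair_comm], c.ne.symm, c.hnt⟩

theorem symX (c : Cx50 G A B X X' y y') : Cx50 G A B X' X y y' :=
  ⟨c.hS, symm_5 c.hT, by rw [c.hK, pair_comm], c.hK1, c.ne, c.hnt⟩

theorem hX (c : Cx50 G A B X X' y y') : X ∈ G.K0 A B := by rw [c.hK]; simp

theorem hX' (c : Cx50 G A B X X' y y') : X' ∈ G.K0 A B := by rw [c.hK]; simp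

theorem hy (c : Cx50 G A B X X' y y') : y ∈ G.K0 B A := by rw [c.hK1]; simp

theorem cA (c : Cx50 G A B X X' y y') : (G.K0 A B).card = 2 := by
  rw [c.hK, card_pair (Tw_ne87 c.hT)]

theorem cB (c : Cx50 G A B X X' y y') : (G.K0 B A).card = 2 := by
  rw [c.hK1, card_pair c.ne]

theorem nX (c : Cx50 G A B X X' y y') : G.nb X ∩ G.K0 B A = G.K0 B A := by
  refine eq_of_subset_of_card_le inter_subset_right ?_
  have := c.hS.e1.one X c.hX
  rw [c.cB]
  exact this

theorem ny (c : Cx50 G A B X X' y y') : G.nb y ∩ G.K0 A B = G.K0 A B := by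
  refine eq_of_subset_of_card_le inter_subset_right ?_
  have := c.hS.e2.one y c.hy
  rw [c.cA]
  exact this

theorem yX (c : Cx50 G A B X X' y y') : y ∈ G.nb X := by
  have h1 : y ∈ G.nb X ∩ G.K0 B A := by rw [c.nX]; exact c.hy
  exact (mem_inter.1 h1).1

theorem XX (c : Cx50 G A B X X' y y') : G.nb X ∩ G.K0 A B = {X'} := by
  ext z
  rw [mem_inter, c.hK, mem_insert, mem_singleton]
  constructor
  · rintro ⟨h1, h2 | h2⟩
    · rw [h2] at h1
      exact absurd h1 (self50 _)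
    · exact h2
  · rintro rfl
    exact ⟨c.hT.1, Or.inr rfl⟩

theorem XC (c : Cx50 G A B X X' y y') : X ∉ G.Cc A B := fun h =>
  (mem_K087.1 c.hX).2 (mem_Cc87.1 h).2

theorem D_eq (c : Cx50 G A B X X' y y') : G.nb X' ∩ G.Cc A B = G.nb X ∩ G.Cc A B :=
  (nb_tw50 c.hT c.XC c.symX.XC).symm

theorem D_le (c : Cx50 G A B X X' y y') : (G.nb X ∩ G.Cc A B).card ≤ 2 := by
  have h1 := deg_K0_50 c.hS.st c.hX
  have h2 := Tw_card87 c.hT
  have h3 := pX_tw87 c.hS.st (mem_K087.1 c.hX).1 ⟨_, c.hT⟩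
  rw [c.nX, c.XX, c.cB, card_singleton] at h1
  omega

theorem BX (c : Cx50 G A B X X' y y') :
    G.B5 A X = ((G.nb X ∩ G.Cc A B).card : ℤ) - 4 := by
  rw [B5_tw50 c.hS.st c.hX ⟨_, c.hT⟩, c.nX, c.XX, c.cB, card_singleton]
  push_cast
  ring

theorem phX (c : Cx50 G A B X X' y y') : 0 ≤ G.phi A X ∧ (G.RF A X → G.phi A X = 1) := by
  refine phi_tw50 c.hS.st c.hX ⟨_, c.hT⟩ ?_
  rw [c.nX, c.cB]
  norm_num

theorem bal_hub (c : Cx50 G A B X X' y y') (h : ¬ G.Low y) : G.B5 B y + G.phi B y = -2 :=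
  bal_hub50 ⟨h, c.hnt y c.hy⟩

theorem bal_low (c : Cx50 G A B X X' y y') (h : G.Low y) : 0 ≤ G.B5 B y + G.phi B y :=
  (bal_two50 c.hS.st.symm72 c.hnt c.hy h (by rw [c.ny, c.cA])).1

theorem bal_ge (c : Cx50 G A B X X' y y') : -2 ≤ G.B5 B y + G.phi B y := by
  by_cases h : G.Low y
  · have := c.bal_low h
    linarith
  · rw [c.bal_hub h]

theorem bal_c (c : Cx50 G A B X X' y y') (h : G.Low y) {z : V} (hz : z ∈ G.Cc A B)
    (hzy : z ∈ G.nb y) : 2 ≤ G.B5 B y + G.phi B y := by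
  refine (bal_two50 c.hS.st.symm72 c.hnt c.hy h (by rw [c.ny, c.cA])).2.2 ?_
  rw [Cc_symm87, Nat.succ_le_iff, card_pos]
  exact ⟨z, mem_inter.2 ⟨hzy, hz⟩⟩

theorem yK (c : Cx50 G A B X X' y y') (h : y' ∈ G.nb y) : (G.nb y ∩ G.K0 B A).card = 1 := by
  have h1 : G.nb y ∩ G.K0 B A = {y'} := by
    ext z
    rw [mem_inter, c.hK1, mem_insert, mem_singleton]
    constructor
    · rintro ⟨h1, h2 | h2⟩
      · rw [h2] at h1
        exact absurd h1 (self50 _)
      · exact h2
    · rintro rfl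
      exact ⟨h, Or.inr rfl⟩
  rw [h1, card_singleton]

theorem bal_adj (c : Cx50 G A B X X' y y') (h : G.Low y) (h1 : y' ∈ G.nb y) :
    2 + 2 * ((G.nb y ∩ G.Cc A B).card : ℤ) + G.s5 (G.Co B) y ≤ G.B5 B y + G.phi B y := by
  have h2 := (bal_two50 c.hS.st.symm72 c.hnt c.hy h (by rw [c.ny, c.cA])).2.1
  rw [c.yK h1, Cc_symm87] at h2
  have h3 := h2 le_rfl
  push_cast at h3
  linarith

theorem bal_adj0 (c : Cx50 G A B X X' y y') (h : G.Low y) (h1 : y' ∈ G.nb y) :
    2 ≤ G.B5 B y + G.phi B y := by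
  have h2 := c.bal_adj h h1
  have h3 := s5_nonneg87 (G := G) (G.Co B) y
  have h4 : (0 : ℤ) ≤ ((G.nb y ∩ G.Cc A B).card : ℤ) := Nat.cast_nonneg _
  linarith

theorem bal_adj1 (c : Cx50 G A B X X' y y') (h : G.Low y) (h1 : y' ∈ G.nb y) {z : V}
    (hz : z ∈ G.Cc A B) (hzy : z ∈ G.nb y) : 4 ≤ G.B5 B y + G.phi B y := by
  have h2 := c.bal_adj h h1
  have h3 := s5_nonneg87 (G := G) (G.Co B) y
  have h4 : (1 : ℤ) ≤ ((G.nb y ∩ G.Cc A B).card : ℤ) := by
    exact_mod_cast card_pos.2 ⟨z, mem_inter.2 ⟨hzy, hz⟩⟩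
  linarith

/-- covers of the edge `X y` -/
theorem cov (hC : G.StCvS) (c : Cx50 G A B X X' y y') :
    (∃ w ∈ G.Cc A B, G.Low w ∧ w ∈ G.nb X ∧ w ∈ G.nb y) ∨
    (G.Low y' ∧ y' ∈ G.nb y) ∨
    (∃ v ∈ G.Cc A B, ∃ w ∈ G.Cc A B, G.Tw v w ∧ v ∈ G.nb X ∧ v ∈ G.nb y) ∨
    (∃ a ∈ G.Cc A B, ∃ b ∈ G.Cc A B, G.HL a b y ∧ G.Low y ∧ a ∈ G.nb X ∧ b ∈ G.nb X) := by
  have hXt : G.IsTw X := ⟨_, c.hT⟩
  have hX't : G.IsTw X' := ⟨_, symm_5 c.hT⟩
  have hKt : ∀ v ∈ G.K0 A B, v = X ∨ v = X' := by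
    intro v hv
    rw [c.hK, mem_insert, mem_singleton] at hv
    exact hv
  have hKt' : ∀ v ∈ G.K0 A B, G.IsTw v := by
    intro v hv
    rcases hKt v hv with rfl | rfl
    · exact hXt
    · exact hX't
  rcases cov_tw50 hC c.hS c.hT c.hX (fun v hv _ => hKt v hv)
    (fun v hv _ _ h1 _ => absurd (hKt' v hv) h1) c.hnt c.hy c.yX with h | h | h | h | h | h
  · exact Or.inl h
  · obtain ⟨w, hw, h1, -⟩ := h
    exact absurd (hKt' w hw) (low_not_tw87 h1)
  · obtain ⟨w, hw, h1, h2⟩ := h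
    rw [c.hK1, mem_insert, mem_singleton] at hw
    rcases hw with rfl | rfl
    · exact absurd h2 (self50 _)
    · exact Or.inr (Or.inl ⟨h1, h2⟩)
  · exact Or.inr (Or.inr (Or.inl h))
  · exact Or.inr (Or.inr (Or.inr h))
  · exfalso
    obtain ⟨a, ha, b, hb, h1, -⟩ := h
    have h2 : a ≠ b := ne_of_nb5 h1.2.2.1
    have h3 : b ≠ y := (HL_bt76 h1).2.symm
    have h4 : a ≠ y := ne_of_nb5 (HL_t76 h1)
    rw [c.hK1, mem_insert, mem_singleton] at ha hb
    rcases ha with ha | ha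
    · exact h4 ha
    · rcases hb with hb | hb
      · exact h3 hb
      · exact h2 (ha.trans hb.symm)

/-- the balance of a low vertex of `D` -/
theorem e5D (hL : G.StLoc5) (hC : G.StCvS) (c : Cx50 G A B X X' y y') {w : V}
    (hw : w ∈ G.Cc A B) (hwX : w ∈ G.nb X) (hl : G.Low w) : -2 ≤ G.e5 A B w := by
  refine e5_pair50 hL c.hS.st c.hT hwX c.hX c.hX' hw hl c.hnt ?_
  intro a b hab hpT hc ha hb _
  have hone : ∀ v ∈ G.Cc A B, v ∈ G.nb X → v = w := by
    intro v hv hvX
    have h1 : v ∈ G.pT A X := mem_inter.2 ⟨hvX, (mem_Cc87.1 hv).1⟩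
    rw [hpT, mem_insert, mem_singleton] at h1
    rcases h1 with h1 | h1
    · exact absurd (h1 ▸ hv) c.symX.XC
    · exact h1
  have hab' : a ≠ b := ne_of_nb5 hab.2.2.1
  have hK1 : G.K0 B A = {b, a} := by
    refine (eq_of_subset_of_card_le ?_ ?_).symm
    · intro z hz
      rw [mem_insert, mem_singleton] at hz
      rcases hz with rfl | rfl
      · exact hb
      · exact ha
    · rw [c.cB, card_pair hab'.symm]
  have c' : Cx50 G A B X X' b a := ⟨c.hS, c.hT, c.hK, hK1, hab'.symm, c.hnt⟩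
  rcases c'.cov hC with h | h | h | h
  · obtain ⟨v, hv, -, h1, h2⟩ := h
    rw [hone v hv h1] at h2
    exact (HL_bt76 hab).1 h2
  · exact HL_not_low76 hab h.1
  · obtain ⟨v, hv, u, hu, h1, h2, -⟩ := h
    rw [hone v hv h2] at h1
    exact low_not_tw87 hl ⟨_, h1⟩
  · obtain ⟨a', ha', b', hb', h1, -, h2, h3⟩ := h
    have h4 : a' ≠ b' := ne_of_nb5 h1.2.2.1
    exact h4 ((hone a' ha' h2).trans (hone b' hb' h3).symm)

theorem wK (c : Cx50 G A B X X' y y') {w : V} (hw : w ∈ G.Cc A B) (hwX : w ∈ G.nb X) :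
    G.nb w ∩ G.K0 A B = {X, X'} := by
  have hwne : w ≠ X' := fun h => c.symX.XC (h ▸ hw)
  have hX'w : X' ∈ G.nb w := G.sym _ _ (Tw_nb5 c.hT hwX hwne)
  rw [← c.hK]
  refine inter_eq_right.2 ?_
  intro z hz
  rw [c.hK, mem_insert, mem_singleton] at hz
  rcases hz with rfl | rfl
  · exact G.sym _ _ hwX
  · exact hX'w

/-- number of neighbours in `K0 B A` -/
theorem k1 (c : Cx50 G A B X X' y y') (w : V) [Decidable (y ∈ G.nb w)]
    [Decidable (y' ∈ G.nb w)] : (G.nb w ∩ G.K0 B A).card =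
    (if y ∈ G.nb w then 1 else 0) + (if y' ∈ G.nb w then 1 else 0) := by
  have h1 : G.nb w ∩ G.K0 B A = ({y, y'} : Finset V).filter (fun z => z ∈ G.nb w) := by
    rw [c.hK1, inter_comm, filter_mem_eq_inter]
  rw [h1, filter_insert, filter_singleton]
  have h2 := c.ne
  split_ifs
  · rw [card_pair h2]
  · rw [card_insert_of_notMem (notMem_empty _)]
    rfl
  · rw [card_singleton]
  · rfl

theorem net (c : Cx50 G A B X X' y y') {w : V} (hw : w ∈ G.Cc A B) (hwX : w ∈ G.nb X)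
    (hl : G.Low w) : G.net5 A B w =
      4 + 2 * ((G.nb w ∩ G.K0 B A).card : ℤ) + G.e5 A B w := by
  rw [net5, nbK_card87, c.wK hw hwX, card_pair (Tw_ne87 c.hT), c5, if_pos hl]
  push_cast
  ring

/-- `S0` at `y` -/
theorem s0y (c : Cx50 G A B X X' y y') (hl : G.Low y) (hl' : G.Low y') (hyy : y' ∈ G.nb y)
    (hc : G.nb y ∩ G.Cc A B = ∅) : G.S0 (G.Co B) y y' := by
  have hf := c.hS.st.fB87
  have hpT : ∀ z, G.pT (G.Co B) z = (G.nb z ∩ G.K0 B A) ∪ (G.nb z ∩ G.Cc A B) := by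
    intro z
    rw [pTCo87 hf, pT_eq87 (B := A), Cc_symm87]
  have hyK : G.nb y ∩ G.K0 B A = {y'} := by
    obtain ⟨z, hz⟩ := card_eq_one.1 (c.yK hyy)
    have h1 : y' ∈ G.nb y ∩ G.K0 B A := mem_inter.2 ⟨hyy, c.symm.hy⟩
    rw [hz, mem_singleton] at h1
    rw [hz, h1]
  refine ⟨?_, hl, hl', ?_, ⟨X, X', c.hT, ?_, ?_⟩, ?_⟩
  · rw [NCo87 hf]
    exact (mem_K087.1 c.hy).1
  · rw [hpT, hyK, hc, union_empty]
  · rw [pXCo87, pO_K0_50 c.hS.st.symm72 c.hy, c.ny, c.hK]
  · exact G.sym _ _ c.symm.yX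
  · rintro ⟨h1, h2⟩
    have h3 := nb_split87 (G := G) (G.Co B) y'
    rw [h1, h2, pXCo87, pO_K0_50 c.hS.st.symm72 c.symm.hy, c.symm.ny, c.cA, card_singleton] at h3
    have h4 : (G.nb y').card = 6 := hl'
    omega

/-- `RF` at `X` -/
theorem rfX (c : Cx50 G A B X X' y y') (hD : G.nb X ∩ G.Cc A B = ∅) {t u : V}
    (hLL : G.LL y y' t u) : G.RF A X := by
  have h1 := deg_K0_50 c.hS.st c.hX
  have h2 := Tw_card87 c.hT
  rw [c.nX, c.XX, c.cB, card_singleton, hD, card_empty] at h1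
  refine ⟨(mem_K087.1 c.hX).1, X', y, y', c.hT, c.ne, ?_, ?_, ?_, Or.inl ⟨t, u, hLL⟩⟩
  · rw [pT_eq87 (B := B), hD, c.XX, union_empty]
  · omega
  · rw [pO_K0_50 c.hS.st c.hX, c.nX, c.hK1]

end Cx50

/-- S9b -/
theorem stTh2x_50 (G : CG V) (hTot : G.StTotS) (hL : G.StLoc5) (hW : G.StTwS) (hN : G.StNet5)
    (hC : G.StCvS) : G.StTh2x := by
  classical
  intro A B hS hc2 ⟨X, X', hXX, hK⟩ hnt
  have h := hS.st
  have hBc : (G.K0 B A).card = 2 := by rw [← K0_card50 h, hc2]
  obtain ⟨y, y', hyy, hK1⟩ := card_eq_two.1 hBc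
  have c : Cx50 G A B X X' y y' := ⟨hS, hXX, hK, hK1, hyy, hnt⟩
  have hne := Tw_ne87 hXX
  have hT := hTot A B h
  rw [hK, hK1, sum_pair hne, sum_pair hyy] at hT
  rw [c.BX, c.symX.BX, c.D_eq] at hT
  set T := (G.Cc A B).filter (fun c => G.Tch A B c) with hTdef
  have hpos : ∀ w ∈ T, 0 ≤ G.net5 A B w := fun w hw => hN.pos A B h w (mem_filter.1 hw).2
  have hmT : ∀ w ∈ G.Cc A B, w ∈ G.nb X → w ∈ T := fun w hw hwX =>
    mem_filter.2 ⟨hw, tch_of87 hw (Or.inl c.hX) (G.sym _ _ hwX)⟩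
  have hone : ∀ w ∈ T, G.net5 A B w ≤ ∑ c ∈ T, G.net5 A B c := fun w hw =>
    single_le_sum hpos hw
  have htwo : ∀ w ∈ T, ∀ w' ∈ T, w ≠ w' →
      G.net5 A B w + G.net5 A B w' ≤ ∑ c ∈ T, G.net5 A B c := by
    intro w hw w' hw' h1
    rw [← sum_pair h1]
    refine sum_le_sum_of_subset_of_nonneg ?_ fun z hz _ => hpos z hz
    intro z hz
    rw [mem_insert, mem_singleton] at hz
    rcases hz with rfl | rfl
    · exact hw
    · exact hw'
  have hS0 : 0 ≤ ∑ c ∈ T, G.net5 A B c := sum_nonneg hpos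
  have hpX := c.phX
  have hpX' := c.symX.phX
  have hb := c.bal_ge
  have hb' := c.symm.bal_ge
  have hDle := c.D_le
  have hyX := c.yX
  by_cases hlow : ∃ w ∈ G.Cc A B, w ∈ G.nb X ∧ G.Low w
  · obtain ⟨w, hw, hwX, hl⟩ := hlow
    have hwD : w ∈ G.nb X ∩ G.Cc A B := mem_inter.2 ⟨hwX, hw⟩
    have he := c.e5D hL hC hw hwX hl
    have hnet := c.net hw hwX hl
    have hk1 := c.k1 w
    have hk2 : (G.nb w ∩ G.K0 B A).card = 2 → 2 ≤ G.e5 A B w := fun h2 =>
      e5_two50 hL h hXX hwX c.hX hw hl (c.wK hw hwX) h2 hnt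
    have hSw := hone w (hmT w hw hwX)
    have hD1 : 1 ≤ (G.nb X ∩ G.Cc A B).card := card_pos.2 ⟨w, hwD⟩
    by_cases hlow2 : ∃ v ∈ G.nb X ∩ G.Cc A B, v ≠ w ∧ G.Low v
    · -- two lows
      obtain ⟨v, hv, hvw, hlv⟩ := hlow2
      obtain ⟨hvX, hvC⟩ := mem_inter.1 hv
      have hD2 : (G.nb X ∩ G.Cc A B).card = 2 := by
        have := two_le5 hv hwD hvw
        omega
      have hDe : ∀ z ∈ G.Cc A B, z ∈ G.nb X → z = v ∨ z = w := by
        intro z hz hzX
        have h1 : ({v, w} : Finset V) = G.nb X ∩ G.Cc A B := by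
          refine eq_of_subset_of_card_le ?_ (by rw [card_pair hvw, hD2])
          intro u hu
          rw [mem_insert, mem_singleton] at hu
          rcases hu with rfl | rfl
          · exact hv
          · exact hwD
        have h2 : z ∈ ({v, w} : Finset V) := by
          rw [h1]
          exact mem_inter.2 ⟨hzX, hz⟩
        rw [mem_insert, mem_singleton] at h2
        exact h2
      have he' := c.e5D hL hC hvC hvX hlv
      have hnet' := c.net hvC hvX hlv
      have hk1' := c.k1 v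
      have hSvw := htwo v (hmT v hvC hvX) w (hmT w hw hwX) hvw
      rw [hD2] at hT
      -- payments to one vertex
      have hkey : ∀ z z', Cx50 G A B X X' z z' → (2 : ℤ) * (if z ∈ G.nb w then 1 else 0) +
          2 * (if z ∈ G.nb v then 1 else 0) ≥ 2 ∨ (G.Low z' ∧ z' ∈ G.nb z) ∨ G.Low z := by
        intro z z' cz
        rcases cz.cov hC with h1 | h1 | h1 | h1
        · left
          obtain ⟨u, hu, -, huX, huz⟩ := h1
          rcases hDe u hu huX with rfl | rfl
          · have : z ∈ G.nb u := G.sym _ _ huz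
            rw [if_pos this]
            split_ifs <;> norm_num
          · have : z ∈ G.nb u := G.sym _ _ huz
            rw [if_pos this]
            split_ifs <;> norm_num
        · exact Or.inr (Or.inl h1)
        · obtain ⟨u, hu, u', hu', h2, h3, -⟩ := h1
          rcases hDe u hu h3 with rfl | rfl
          · exact absurd ⟨_, h2⟩ (low_not_tw87 hlv)
          · exact absurd ⟨_, h2⟩ (low_not_tw87 hl)
        · obtain ⟨a, ha, b, hb, h2, h3, -⟩ := h1
          exact Or.inr (Or.inr h3)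
      have hi : ∀ p : Prop, [Decidable p] → (0 : ℤ) ≤ (if p then 1 else 0) := by
        intro p _
        split_ifs <;> norm_num
      have i1 := hi (y ∈ G.nb w)
      have i2 := hi (y ∈ G.nb v)
      have i3 := hi (y' ∈ G.nb w)
      have i4 := hi (y' ∈ G.nb v)
      have hk1z : ((G.nb w ∩ G.K0 B A).card : ℤ) = (if y ∈ G.nb w then 1 else 0) +
          (if y' ∈ G.nb w then 1 else 0) := by
        rw [hk1]
        push_cast
        rfl
      have hk1z' : ((G.nb v ∩ G.K0 B A).card : ℤ) = (if y ∈ G.nb v then 1 else 0) +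
          (if y' ∈ G.nb v then 1 else 0) := by
        rw [hk1']
        push_cast
        rfl
      rw [hnet, hk1z, hnet', hk1z'] at hSvw
      push_cast at hT
      have hk := hkey y y' c
      have hk' := hkey y' y c.symm
      by_cases l1 : G.Low y
      · have b1 := c.bal_low l1
        by_cases l2 : G.Low y'
        · have b2 := c.symm.bal_low l2
          linarith
        · rcases hk' with h1 | h1 | h1
          · linarith
          · have b3 := c.bal_adj0 l1 (G.sym _ _ h1.2)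
            linarith
          · exact absurd h1 l2
      · rcases hk with h1 | h1 | h1
        · by_cases l2 : G.Low y'
          · have b2 := c.symm.bal_low l2
            linarith
          · rcases hk' with h1 | h1 | h1
            · linarith
            · exact absurd h1.1 l1
            · exact absurd h1 l2
        · have b3 := c.symm.bal_adj0 h1.1 (G.sym _ _ h1.2)
          linarith
        · exact absurd h1 l1
    · -- one low
      push Not at hlow2
      have hDlow : ∀ z ∈ G.Cc A B, z ∈ G.nb X → G.Low z → z = w := by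
        intro z hz hzX hlz
        by_contra h1
        exact hlow2 z (mem_inter.2 ⟨hzX, hz⟩) h1 hlz
      -- no twins in `D`
      have hDtw : ∀ z ∈ G.Cc A B, z ∈ G.nb X → ¬ G.IsTw z := by
        rintro z hz hzX ⟨z', hzz⟩
        have h1 : z' ∈ G.nb X ∩ G.Cc A B := by
          have h2 := tw_part87 h (R_of_NA87 h (mem_Cc87.1 hz).1) hzz
          have h3 : z' ∈ G.Cc A B :=
            mem_Cc87.2 ⟨h2.2.1.2 (mem_Cc87.1 hz).1, h2.2.2.2 (mem_Cc87.1 hz).2⟩
          refine mem_inter.2 ⟨?_, h3⟩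
          exact G.sym _ _ (Tw_nb5 hzz (G.sym _ _ hzX) (fun h4 => c.XC (h4 ▸ h3)))
        have h2 : z ≠ w := fun h3 => low_not_tw87 hl (h3 ▸ ⟨z', hzz⟩)
        have h3 : z' ≠ w := fun h3 => low_not_tw87 hl (h3 ▸ ⟨z, symm_5 hzz⟩)
        have h4 : ({z, z', w} : Finset V) ⊆ G.nb X ∩ G.Cc A B := by
          intro u hu
          rw [mem_insert, mem_insert, mem_singleton] at hu
          rcases hu with rfl | rfl | rfl
          · exact mem_inter.2 ⟨hzX, hz⟩
          · exact h1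
          · exact hwD
        have h5 := card_le_card h4
        rw [card_eq_three.2 ⟨z, z', w, Tw_ne87 hzz, h2, h3, rfl⟩] at h5
        omega
      -- the covers for a vertex that is not adjacent to `w`
      have hcv : ∀ z z', Cx50 G A B X X' z z' → z ∉ G.nb w → (G.Low z' ∧ z' ∈ G.nb z) ∨
          ((G.nb X ∩ G.Cc A B).card = 2 ∧ ∃ a ∈ G.Cc A B, a ∈ G.nb X ∧ G.HL a w z ∧ G.Low z) := by
        intro z z' cz hzw
        rcases cz.cov hC with h1 | h1 | h1 | h1
        · obtain ⟨u, hu, hlu, huX, huz⟩ := h1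
          rw [hDlow u hu huX hlu] at huz
          exact absurd (G.sym _ _ huz) hzw
        · exact Or.inl h1
        · obtain ⟨u, hu, u', hu', h2, h3, -⟩ := h1
          exact absurd ⟨_, h2⟩ (hDtw u hu h3)
        · obtain ⟨a, ha, b, hb, h2, h3, h4, h5⟩ := h1
          right
          have h6 := hDlow b hb h5 h2.2.1
          rw [h6] at h2
          have h7 : a ≠ w := ne_of_nb5 h2.2.2.1
          have h8 := two_le5 (mem_inter.2 ⟨h4, ha⟩) hwD h7
          exact ⟨by omega, a, ha, h4, h2, h3⟩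
      have hDZ : (1 : ℤ) ≤ ((G.nb X ∩ G.Cc A B).card : ℤ) := by exact_mod_cast hD1
      by_cases w1 : y ∈ G.nb w
      · by_cases w2 : y' ∈ G.nb w
        · rw [if_pos w1, if_pos w2] at hk1
          have he2 := hk2 hk1
          rw [hnet, hk1] at hSw
          push_cast at hSw
          linarith
        · rw [if_pos w1, if_neg w2] at hk1
          rw [hnet, hk1] at hSw
          push_cast at hSw
          rcases hcv y' y c.symm w2 with h1 | ⟨h0, a, ha, haX, h1, h2⟩
          · have b1 := c.bal_adj1 h1.1 (G.sym _ _ h1.2) hw (G.sym _ _ w1)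
            linarith
          · rw [h0] at hT
            push_cast at hT
            have b1 := c.symm.bal_c h2 ha (G.sym _ _ (HL_t76 h1))
            linarith
      · by_cases w2 : y' ∈ G.nb w
        · rw [if_neg w1, if_pos w2] at hk1
          rw [hnet, hk1] at hSw
          push_cast at hSw
          rcases hcv y y' c w1 with h1 | ⟨h0, a, ha, haX, h1, h2⟩
          · have b1 := c.symm.bal_adj1 h1.1 (G.sym _ _ h1.2) hw (G.sym _ _ w2)
            linarith
          · rw [h0] at hT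
            push_cast at hT
            have b1 := c.bal_c h2 ha (G.sym _ _ (HL_t76 h1))
            linarith
        · rw [if_neg w1, if_neg w2] at hk1
          rw [hnet, hk1] at hSw
          push_cast at hSw
          rcases hcv y y' c w1 with h1 | ⟨h0, a, ha, haX, h1, h2⟩
          · rcases hcv y' y c.symm w2 with h3 | ⟨h0, a, ha, haX, h3, h4⟩
            · have b1 := c.bal_adj0 h3.1 h1.2
              have b2 := c.symm.bal_adj0 h1.1 (G.sym _ _ h1.2)
              linarith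
            · rw [h0] at hT
              push_cast at hT
              have b1 := c.symm.bal_adj1 h4 (G.sym _ _ h1.2) ha (G.sym _ _ (HL_t76 h3))
              linarith
          · rw [h0] at hT
            push_cast at hT
            rcases hcv y' y c.symm w2 with h3 | ⟨-, a', ha', haX', h3, h4⟩
            · have b1 := c.bal_adj1 h2 (G.sym _ _ h3.2) ha (G.sym _ _ (HL_t76 h1))
              linarith
            · exfalso
              have h5 : a ≠ w := ne_of_nb5 h1.2.2.1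
              have h6 : a' ≠ w := ne_of_nb5 h3.2.2.1
              have h7 : a = a' := by
                by_contra h8
                have h4 : ({a, a', w} : Finset V) ⊆ G.nb X ∩ G.Cc A B := by
                  intro u hu
                  rw [mem_insert, mem_insert, mem_singleton] at hu
                  rcases hu with rfl | rfl | rfl
                  · exact mem_inter.2 ⟨haX, ha⟩
                  · exact mem_inter.2 ⟨haX', ha'⟩
                  · exact hwD
                have h9 := card_le_card h4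
                rw [card_eq_three.2 ⟨a, a', w, h8, h5, h6, rfl⟩] at h9
                omega
              rw [← h7] at h3
              exact hyy (HL_t_uniq50 h1 h3)
  · push Not at hlow
    by_cases htw : ∃ Q ∈ G.Cc A B, Q ∈ G.nb X ∧ G.IsTw Q
    · obtain ⟨Q, hQ, hQX, Q', hQQ⟩ := htw
      have hQne := Tw_ne87 hQQ
      have h2 := tw_part87 h (R_of_NA87 h (mem_Cc87.1 hQ).1) hQQ
      have hQ' : Q' ∈ G.Cc A B :=
        mem_Cc87.2 ⟨h2.2.1.2 (mem_Cc87.1 hQ).1, h2.2.2.2 (mem_Cc87.1 hQ).2⟩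
      have hQ'X : Q' ∈ G.nb X :=
        G.sym _ _ (Tw_nb5 hQQ (G.sym _ _ hQX) (fun h4 => c.XC (h4 ▸ hQ')))
      have hQD : Q ∈ G.nb X ∩ G.Cc A B := mem_inter.2 ⟨hQX, hQ⟩
      have hQ'D : Q' ∈ G.nb X ∩ G.Cc A B := mem_inter.2 ⟨hQ'X, hQ'⟩
      have hD2 : (G.nb X ∩ G.Cc A B).card = 2 := by
        have := two_le5 hQD hQ'D hQne
        omega
      have hDe : ∀ z ∈ G.Cc A B, z ∈ G.nb X → z = Q ∨ z = Q' := by
        intro z hz hzX
        have h1 : ({Q, Q'} : Finset V) = G.nb X ∩ G.Cc A B := by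
          refine eq_of_subset_of_card_le ?_ (by rw [card_pair hQne, hD2])
          intro u hu
          rw [mem_insert, mem_singleton] at hu
          rcases hu with rfl | rfl
          · exact hQD
          · exact hQ'D
        have h2 : z ∈ ({Q, Q'} : Finset V) := by
          rw [h1]
          exact mem_inter.2 ⟨hzX, hz⟩
        rw [mem_insert, mem_singleton] at h2
        exact h2
      have hQt : G.IsTw Q := ⟨Q', hQQ⟩
      have hQ't : G.IsTw Q' := ⟨Q, symm_5 hQQ⟩
      have hQl : ¬ G.Low Q := fun h => low_not_tw87 h hQt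
      have hQ'l : ¬ G.Low Q' := fun h => low_not_tw87 h hQ't
      -- covers
      have hcv : ∀ z z', Cx50 G A B X X' z z' → z ∉ G.nb Q → z ∉ G.nb Q' →
          G.Low z' ∧ z' ∈ G.nb z := by
        intro z z' cz hzQ hzQ'
        rcases cz.cov hC with h1 | h1 | h1 | h1
        · obtain ⟨u, hu, hlu, huX, huz⟩ := h1
          exact absurd hlu (hlow u hu huX)
        · exact h1
        · obtain ⟨u, hu, u', hu', h2, h3, h4⟩ := h1
          rcases hDe u hu h3 with rfl | rfl
          · exact absurd (G.sym _ _ h4) hzQ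
          · exact absurd (G.sym _ _ h4) hzQ'
        · obtain ⟨a, ha, b, hb, h2, h3, h4, h5⟩ := h1
          exact absurd h2.2.1 (hlow b hb h5)
      have hiff : ∀ z ∈ G.K0 B A, z ∈ G.nb Q ↔ z ∈ G.nb Q' := by
        intro z hz
        have h3 : z ∉ G.Cc A B := fun h4 => (mem_K087.1 hz).2 (mem_Cc87.1 h4).1
        constructor
        · intro h4
          exact Tw_nb5 hQQ h4 (fun h5 => h3 (h5 ▸ hQ'))
        · intro h4
          exact Tw_nb5 (symm_5 hQQ) h4 (fun h5 => h3 (h5 ▸ hQ))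
      have hy1 := hiff y c.hy
      have hy2 := hiff y' c.symm.hy
      have hSQ := htwo Q (hmT Q hQ hQX) Q' (hmT Q' hQ' hQ'X) hQne
      have hTQ := (mem_filter.1 (hmT Q hQ hQX)).2
      have hTQ' := (mem_filter.1 (hmT Q' hQ' hQ'X)).2
      -- the balance of a twin vertex of `D`
      have hnet : ∀ u ∈ G.Cc A B, u ∈ G.nb X → G.IsTw u → G.Tch A B u →
          1 ≤ G.net5 A B u ∧ ((G.nb u ∩ G.K0 B A).Nonempty →
            2 + ((G.nb u ∩ G.K0 B A).card : ℤ) ≤ G.net5 A B u) := by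
        intro u hu huX hut huT
        have h3 := hW A B h u hu hut
        have h4 : (G.nb u ∩ (G.K0 A B ∪ G.K0 B A)).card = 2 + (G.nb u ∩ G.K0 B A).card := by
          rw [nbK_card87, c.wK hu huX, card_pair hne]
        have h5 : ¬ G.Low u := fun h => low_not_tw87 h hut
        have h6 : (0 : ℤ) ≤ ((G.nb u ∩ G.K0 B A).card : ℤ) := Nat.cast_nonneg _
        constructor
        · rw [net5, h4, c5, if_neg h5, if_pos hut, h3.1]
          push_cast
          linarith [h3.2.1]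
        · intro h7
          have h8 := hN.tw A B h u huT hut ⟨X, mem_inter.2 ⟨G.sym _ _ huX, c.hX⟩⟩ h7
          rw [h4] at h8
          push_cast at h8
          exact h8
      have n1 := hnet Q hQ hQX hQt hTQ
      have n2 := hnet Q' hQ' hQ'X hQ't hTQ'
      have hkQ := c.k1 Q
      have hkQ' := c.k1 Q'
      rw [hD2] at hT
      push_cast at hT
      by_cases w1 : y ∈ G.nb Q
      · have w1' := hy1.1 w1
        have n3 := n1.2 ⟨y, mem_inter.2 ⟨w1, c.hy⟩⟩
        have n4 := n2.2 ⟨y, mem_inter.2 ⟨w1', c.hy⟩⟩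
        by_cases w2 : y' ∈ G.nb Q
        · have w2' := hy2.1 w2
          rw [if_pos w1, if_pos w2] at hkQ
          rw [if_pos w1', if_pos w2'] at hkQ'
          rw [hkQ] at n3
          rw [hkQ'] at n4
          push_cast at n3 n4
          linarith
        · have w2' : y' ∉ G.nb Q' := fun h3 => w2 (hy2.2 h3)
          rw [if_pos w1, if_neg w2] at hkQ
          rw [if_pos w1', if_neg w2'] at hkQ'
          rw [hkQ] at n3
          rw [hkQ'] at n4
          push_cast at n3 n4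
          have h3 := hcv y' y c.symm w2 w2'
          have b1 := c.bal_adj0 h3.1 (G.sym _ _ h3.2)
          linarith
      · have w1' : y ∉ G.nb Q' := fun h3 => w1 (hy1.2 h3)
        have h3 := hcv y y' c w1 w1'
        have b1 := c.symm.bal_adj0 h3.1 (G.sym _ _ h3.2)
        by_cases w2 : y' ∈ G.nb Q
        · have w2' := hy2.1 w2
          have n3 := n1.2 ⟨y', mem_inter.2 ⟨w2, c.symm.hy⟩⟩
          have n4 := n2.2 ⟨y', mem_inter.2 ⟨w2', c.symm.hy⟩⟩
          rw [if_neg w1, if_pos w2] at hkQ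
          rw [if_neg w1', if_pos w2'] at hkQ'
          rw [hkQ] at n3
          rw [hkQ'] at n4
          push_cast at n3 n4
          linarith
        · have w2' : y' ∉ G.nb Q' := fun h3 => w2 (hy2.2 h3)
          have h4 := hcv y' y c.symm w2 w2'
          have b2 := c.bal_adj0 h4.1 (G.sym _ _ h4.2)
          linarith [n1.1, n2.1]
    · push Not at htw
      have hcv : ∀ z z', Cx50 G A B X X' z z' → G.Low z' ∧ z' ∈ G.nb z := by
        intro z z' cz
        rcases cz.cov hC with h1 | h1 | h1 | h1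
        · obtain ⟨u, hu, hlu, huX, huz⟩ := h1
          exact absurd hlu (hlow u hu huX)
        · exact h1
        · obtain ⟨u, hu, u', hu', h2, h3, h4⟩ := h1
          exact absurd ⟨_, h2⟩ (htw u hu h3)
        · obtain ⟨a, ha, b, hb, h2, h3, h4, h5⟩ := h1
          exact absurd h2.2.1 (hlow b hb h5)
      obtain ⟨l2, a2⟩ := hcv y y' c
      obtain ⟨l1, a1⟩ := hcv y' y c.symm
      have b1 := c.bal_adj l1 a2
      have b2 := c.symm.bal_adj l2 a1
      have s1 := s5_nonneg87 (G := G) (G.Co B) y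
      have s2 := s5_nonneg87 (G := G) (G.Co B) y'
      have hDZ : (0 : ℤ) ≤ ((G.nb X ∩ G.Cc A B).card : ℤ) := Nat.cast_nonneg _
      have z1 : (0 : ℤ) ≤ ((G.nb y ∩ G.Cc A B).card : ℤ) := Nat.cast_nonneg _
      have z2 : (0 : ℤ) ≤ ((G.nb y' ∩ G.Cc A B).card : ℤ) := Nat.cast_nonneg _
      have hcase : ∀ z, G.nb z ∩ G.Cc A B = ∅ ∨ (1 : ℤ) ≤ ((G.nb z ∩ G.Cc A B).card : ℤ) := by
        intro z
        rcases (G.nb z ∩ G.Cc A B).eq_empty_or_nonempty with h3 | h3
        · exact Or.inl h3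
        · right
          exact_mod_cast card_pos.2 h3
      by_cases hLL : ∃ t u, G.LL y y' t u
      · obtain ⟨t, u, hLL⟩ := hLL
        -- `LL` pair
        have hphi : 2 ≤ 2 * ((G.nb X ∩ G.Cc A B).card : ℤ) + G.phi A X + G.phi A X' := by
          rcases hcase X with h3 | h3
          · have h4 := hpX.2 (c.rfX h3 hLL)
            have h5 := hpX'.2 (c.symX.rfX (by rw [c.D_eq]; exact h3) hLL)
            rw [h3, card_empty]
            push_cast
            linarith
          · linarith [hpX.1, hpX'.1]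
        -- both without common neighbours in `Cc`
        have hs1 : ∀ z z', Cx50 G A B X X' z z' → G.Low z → G.Low z' → z' ∈ G.nb z →
            G.nb z ∩ G.Cc A B = ∅ → G.nb z' ∩ G.Cc A B = ∅ → 1 ≤ G.s5 (G.Co B) z := by
          intro z z' cz l3 l4 a3 h3 h4
          have h5 := cz.s0y l3 l4 a3 h3
          have h6 := cz.symm.s0y l4 l3 (G.sym _ _ a3) h4
          rw [s5]
          split_ifs with h7 h8
          · norm_num
          · norm_num
          · exact absurd ⟨z', h5, h6.2.2.2.1⟩ h8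
        rcases hcase y with h3 | h3
        · rcases hcase y' with h4 | h4
          · have h5 := hs1 y y' c l1 l2 a2 h3 h4
            have h6 := hs1 y' y c.symm l2 l1 a1 h4 h3
            linarith
          · linarith
        · linarith
      · have hs1 : ∀ z z', Cx50 G A B X X' z z' → G.Low z → G.Low z' → z' ∈ G.nb z →
            (¬ ∃ t u, G.LL z z' t u) →
            2 ≤ 2 * ((G.nb z ∩ G.Cc A B).card : ℤ) + G.s5 (G.Co B) z := by
          intro z z' cz l3 l4 a3 hno
          rcases hcase z with h3 | h3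
          · have h5 := cz.s0y l3 l4 a3 h3
            have h6 : G.s5 (G.Co B) z = 2 := by
              rw [s5, if_pos]
              refine ⟨z', h5, ?_⟩
              rintro ⟨⟨t, u, h7⟩, -⟩
              exact hno ⟨t, u, h7⟩
            rw [h3, card_empty, h6]
            norm_num
          · have := s5_nonneg87 (G := G) (G.Co B) z
            linarith
        have h3 := hs1 y y' c l1 l2 a2 hLL
        have h4 := hs1 y' y c.symm l2 l1 a1
          (fun ⟨t, u, h5⟩ => hLL ⟨u, t, LL_symm76 h5⟩)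
        linarith [hpX.1, hpX'.1]

end CG

end Pool.Agent.Lib.MP_e95c01_co.N
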