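import Pool.Agent.Lib.MP_e95c01_co.X.S1_53
import Pool.Agent.Lib.MP_e95c01_co.X.S2_87
import Pool.Agent.Lib.MP_e95c01_co.X.S3_87
import Pool.Agent.Lib.MP_e95c01_co.X.S4_44
import Pool.Agent.Lib.MP_e95c01_co.X.S5_27
import Pool.Agent.Lib.MP_e95c01_co.X.S6_27
import Pool.Agent.Lib.MP_e95c01_co.X.S7_38
import Pool.Agent.Lib.MP_e95c01_co.X.S8_28
import Pool.Agent.Lib.MP_e95c01_co.X.S9a_31
import Pool.Agent.Lib.MP_e95c01_co.X.S9b_50
import Pool.Agent.Lib.MP_e95c01_co.X.XY86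
import Pool.Agent.Lib.MP_e95c01_co.X.S10b_50
import Pool.Agent.Lib.MP_e95c01_co.X.S10c_86

/-!
# Thin strips: all cases
-/

namespace Pool.Agent.Lib.MP_e95c01_co.N

open Finset

variable {V : Type} [Fintype V] [DecidableEq V]

namespace CG

variable (G : CG V)

theorem stTotS_50 : G.StTotS := stTotS_53 G (stUn5_87 G)

theorem stNet5_50 : G.StNet5 :=
  stNet5_27 G (stUn5_87 G) (stLoc5_87 G) (stE2_44 (stUn5_87 G)) (stE3_44 (stUn5_87 G))
    (stTwS_27 G (stUn5_87 G))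

/-- strips with one vertex on each side -/
theorem stTh1_5_50 : G.StTh1_5 :=
  stTh1_5_28 G (stTy5_87 G) (stTotS_50 G) (stLoc5_87 G) (stE2_44 (stUn5_87 G))
    (stE3_44 (stUn5_87 G)) (stNet5_50 G)

/-- strips with two or three vertices on each side -/
theorem stTh23_50 : G.StTh23 :=
  stTh23_38 G
    (stTh2s_31 G (stTy5_87 G) (stTotS_50 G) (stNet5_50 G) (stCvS_38 G))
    (stTh2x_50 G (stTotS_50 G) (stLoc5_87 G) (stTwS_27 G (stUn5_87 G)) (stNet5_50 G)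
      (stCvS_38 G))
    (stTh2xy_86 (stTy5_87 G) (stTotS_50 G) (stLoc5_87 G) (stNet5_50 G) (stCvS_38 G))
    (stTh3s_31 G (stTy5_87 G) (stTotS_50 G) (stNet5_50 G) (stCvS_38 G))
    (stTh3x_50 G (stTotS_50 G) (stLoc5_87 G) (stNet5_50 G) (stCvS_38 G))
    (stTh3xy_86 (stTy5_87 G) (stTotS_50 G) (stLoc5_87 G) (stNet5_50 G) (stCvS_38 G))

end CG

end Pool.Agent.Lib.MP_e95c01_co.N
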