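import Pool.Agent.Lib.MP_e95c01_co.X.StmtsV76
import Pool.Agent.Lib.MP_e95c01_co.X.H0b_16

/-!
# `λ = 3`, budgets: the numbers of `K6`'s (V1)
-/

namespace Pool.Agent.Lib.MP_e95c01_co.N

open Finset

variable {V : Type} [Fintype V] [DecidableEq V]

namespace CG

variable {G : CG V}

omit [Fintype V] in
theorem card_two_le16 {S A B : Finset V} (h : Disjoint A B) :
    (S ∩ A).card + (S ∩ B).card ≤ S.card := by
  rw [← card_union_of_disjoint
    (h.mono (inter_subset_right : S ∩ A ⊆ A) (inter_subset_right : S ∩ B ⊆ B))]
  exact card_le_card (union_subset inter_subset_left inter_subset_left)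

/-- V1 -/
theorem stKadd_16 (G : CG V) : G.StKadd := by
  classical
  refine ⟨?_, ?_, ?_, ?_⟩
  · intro F
    unfold kap
    rw [← card_union_of_disjoint]
    · apply card_le_card
      intro S hS
      rw [mem_union, mem_filter, mem_filter] at hS
      rw [mem_filter]
      rcases hS with h | h
      · refine ⟨mem_univ _, h.2.1, ?_⟩
        rw [inter_univ, h.2.1.1]
        omega
      · refine ⟨mem_univ _, h.2.1, ?_⟩
        rw [inter_univ, h.2.1.1]
        omega
    · rw [disjoint_left]
      intro S h1 h2
      rw [mem_filter] at h1 h2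
      have hd : Disjoint F (G.Co F) := by
        rw [disjoint_left]
        intro v h3 h4
        exact (mem_Co76.1 h4).1 h3
      have h5 := card_two_le16 (S := S) hd
      rw [h1.2.1.1] at h5
      have h6 := h1.2.2
      have h7 := h2.2.2
      omega
  · intro F F' hFF
    unfold kap
    apply card_le_card
    intro S hS
    rw [mem_filter] at hS ⊢
    exact ⟨mem_univ _, hS.2.1, hS.2.2.trans (card_le_card (inter_subset_inter_left hFF))⟩
  · intro F hF Fa hFa hdis
    unfold kap cen
    rw [← card_biUnion, ← card_union_of_disjoint]
    · apply card_le_card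
      intro S hS
      rw [mem_union, mem_biUnion, mem_filter] at hS
      rw [mem_filter]
      rcases hS with ⟨B, hB, h⟩ | ⟨-, h1, h2, h3⟩
      · rw [mem_filter] at h
        exact ⟨mem_univ _, h.2.1, h.2.2.trans (card_le_card (inter_subset_inter_left (hFa B hB)))⟩
      · refine ⟨mem_univ _, h1, ?_⟩
        have h4 := h3 (G.Co F) (mem_insert_self _ _)
        rw [(stCo_37 G F hF).2.1] at h4
        have h5 : S ⊆ F ∪ G.N F := by
          intro v hv
          have h6 := mem_R76.1 (h2 hv) (G.Co F) (mem_insert_self _ _)
          rw [mem_Co76] at h6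
          rw [mem_union]
          tauto
        have h7 : S = (S ∩ F) ∪ (S ∩ G.N F) := by
          rw [← inter_union_distrib_left]
          exact (inter_eq_left.2 h5).symm
        have h8 := card_union_le (S ∩ F) (S ∩ G.N F)
        rw [← h7, h1.1] at h8
        omega
    · rw [disjoint_left]
      intro S h1 h2
      rw [mem_biUnion] at h1
      obtain ⟨B, hB, h1⟩ := h1
      rw [mem_filter] at h1 h2
      have h3 : S ∩ B = ∅ := by
        rw [eq_empty_iff_forall_notMem]
        intro v hv
        rw [mem_inter] at hv
        exact mem_R76.1 (h2.2.2.1 hv.1) B (mem_insert_of_mem hB) hv.2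
      have h4 := h1.2.2
      rw [h3, card_empty] at h4
      omega
    · intro B hB B' hB' hne
      rw [Function.onFun, disjoint_left]
      intro S h1 h2
      rw [mem_filter] at h1 h2
      have h5 := card_two_le16 (S := S) (hdis B hB B' hB' hne)
      rw [h1.2.1.1] at h5
      have h6 := h1.2.2
      have h7 := h2.2.2
      omega
  · unfold kap cen
    congr 1
    ext S
    rw [mem_filter, mem_filter]
    constructor
    · rintro ⟨h1, h2, -, -⟩
      refine ⟨h1, h2, ?_⟩
      rw [inter_univ, h2.1]
      omega
    · rintro ⟨h1, h2, -⟩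
      refine ⟨h1, h2, ?_, ?_⟩
      · intro v _
        rw [mem_R76]
        intro B hB
        exact absurd hB (notMem_empty _)
      · intro B hB
        exact absurd hB (notMem_empty _)

end CG

end Pool.Agent.Lib.MP_e95c01_co.N
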