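import Pool.Agent.Lib.MP_e95c01_co.X.V2_16

/-!
# `λ = 3`, the exceptional leaves have a budget (V4)
-/

namespace Pool.Agent.Lib.MP_e95c01_co.N

open Finset

variable {V : Type} [Fintype V] [DecidableEq V]

namespace CG

variable {G : CG V}

theorem kap_pos16 {F S : Finset V} (hS : G.IsK6 S) (h4 : 4 ≤ (S ∩ F).card) : 1 ≤ G.kap F := by
  classical
  unfold kap
  rw [Nat.one_le_iff_ne_zero, ← Nat.pos_iff_ne_zero, card_pos]
  exact ⟨S, mem_filter.2 ⟨mem_univ _, hS, h4⟩⟩

/-- V4 -/
theorem stK4k_16 (G : CG V) : G.StK4k := by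
  intro _ F _ hE
  obtain ⟨htw, hadj, h | ⟨h4, q, q', htq, hq, hq', hsub⟩⟩ := hE
  · refine kap_pos16 (S := F) ⟨h, htw, hadj⟩ ?_
    rw [inter_self, h]
    omega
  · have hqF : q ∉ F := (mem_N76.1 hq).1
    have hqF' : q' ∉ F := (mem_N76.1 hq').1
    have hqq : q ≠ q' := fun h => G.irr q (by have := htq.1; rw [← h] at this; exact this)
    have hxq : ∀ x ∈ F, x ∈ G.nb q ∧ x ∈ G.nb q' := by
      intro x hx
      refine ⟨hsub hx, ?_⟩
      have h1 : x ∈ G.cl q' := by
        rw [← htq.2.2]
        exact mem_insert_of_mem (hsub hx)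
      rcases mem_insert.1 h1 with h2 | h2
      · exact absurd (h2 ▸ hx) hqF'
      · exact h2
    refine kap_pos16 (S := insert q (insert q' F)) ⟨?_, ?_, ?_⟩ ?_
    · rw [card_insert_of_notMem, card_insert_of_notMem hqF', h4]
      rw [mem_insert]
      rintro (h | h)
      · exact hqq h
      · exact hqF h
    · intro x hx
      rw [mem_insert, mem_insert] at hx
      rcases hx with rfl | rfl | hx
      · exact ⟨q', htq⟩
      · exact ⟨q, (stTwHL_5 G).symm _ _ htq⟩
      · exact htw x hx
    · intro x hx y hy hne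
      rw [mem_insert, mem_insert] at hx hy
      rcases hx with rfl | rfl | hx
      · rcases hy with rfl | rfl | hy
        · exact absurd rfl hne
        · exact htq.1
        · exact (hxq y hy).1
      · rcases hy with rfl | rfl | hy
        · exact G.sym _ _ htq.1
        · exact absurd rfl hne
        · exact (hxq y hy).2
      · rcases hy with rfl | rfl | hy
        · exact G.sym _ _ (hxq x hx).1
        · exact G.sym _ _ (hxq x hx).2
        · exact hadj x hx y hy hne
    · have h1 : F ⊆ insert q (insert q' F) ∩ F := fun x hx =>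
        mem_inter.2 ⟨mem_insert_of_mem (mem_insert_of_mem hx), hx⟩
      have h2 := card_le_card h1
      omega

end CG

end Pool.Agent.Lib.MP_e95c01_co.N
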