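import Pool.Agent.Lib.MP_e95c01_co.X.StmtsV76
import Pool.Agent.Lib.MP_e95c01_co.X.StSa42

/-!
# `λ = 3`, budgets: adding an edge (V9)
-/

namespace Pool.Agent.Lib.MP_e95c01_co.N

open Finset

variable {V : Type} [Fintype V] [DecidableEq V]

namespace CG

theorem stSaV_11 (G : CG V) : G.StSaV := by
  classical
  intro hG _ a b t h ht
  have hbt : b ≠ t := (HL_bt76 h).2.symm
  have hmono : ∀ v, G.nb v ⊆ (G.addE5 b t hbt).nb v := fun v x hx => mem_addE5.2 (Or.inl hx)
  have hb6 : (G.nb b).card = 6 := h.2.1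
  have hb7 := cardb_addE96 hbt (HL_bt76 h).1
  refine ⟨G.addE5 b t hbt, crit_addE5 hG h ht hbt, ?_, ?_, ?_⟩
  · rw [l, l]
    refine Finset.card_le_card fun v hv => ?_
    rw [mem_filter] at hv
    rw [mem_filter]
    have h3 : ((G.addE5 b t hbt).nb v).card = 6 := hv.2
    have h1 := Finset.card_le_card (hmono v)
    have h2 := G.deg v
    refine ⟨mem_univ _, ?_⟩
    show (G.nb v).card = 6
    omega
  · refine Finset.sum_lt_sum (fun v _ => Finset.card_le_card (hmono v)) ⟨b, mem_univ _, ?_⟩
    omega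
  · rintro hn ⟨S, hS, hadj, hdeg⟩
    have ht7 : 7 ≤ (G.nb t).card := by
      have h1 := G.deg t
      rcases Nat.lt_or_ge (G.nb t).card 7 with h2 | h2
      · exact absurd (show G.Low t by rw [Low]; omega) ht
      · exact h2
    have ht8 := cardt_addE96 hbt (HL_bt76 h).1
    have htS : t ∉ S := by
      intro h1
      have := hdeg t h1
      omega
    refine hn ⟨S, hS, fun x hx y hy hxy => ?_, fun x hx => ?_⟩
    · rcases mem_addE5.1 (hadj x hx y hy hxy) with h1 | ⟨h1, h2⟩ | ⟨h1, h2⟩
      · exact h1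
      · rw [h2] at hy
        exact absurd hy htS
      · rw [h1] at hx
        exact absurd hx htS
    · exact (Finset.card_le_card (hmono x)).trans (hdeg x hx)

end CG

end Pool.Agent.Lib.MP_e95c01_co.N
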