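import Pool.Agent.Lib.MP_e95c01_co.X.StMnT_96
import Pool.Agent.Lib.MP_e95c01_co.X.Leaf76
import Pool.Agent.Lib.MP_e95c01_co.X.Strips50
import Pool.Agent.Lib.MP_e95c01_co.X.V1_16
import Pool.Agent.Lib.MP_e95c01_co.X.V2_16
import Pool.Agent.Lib.MP_e95c01_co.X.V4_16
import Pool.Agent.Lib.MP_e95c01_co.X.V9_11
import Pool.Agent.Lib.MP_e95c01_co.T.StSt3_96
import Pool.Agent.Lib.MP_e95c01_co.N.StStruct53
import Pool.Agent.Lib.MP_e95c01_co.U.Bridge76

/-!
# `2 n ≤ 7 n_6` for all 6-contraction-critical graphs, `n ≤ 3 n_6` without `K_6` on vertices of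
degree at most 7: from the thick torsos and the small graphs
-/

namespace Pool.Agent.Lib.MP_e95c01_co.N

open Finset

variable {V : Type} [Fintype V] [DecidableEq V]

namespace CG

/-- the main lemma -/
theorem stMnV_of76 (G : CG V) (hM : G.StM9) : G.StMnV :=
  G.stMnT_96 (G.stStruct_53 G.stN6_37 G.stCo_37) G.stSmall_76 G.stCovU_1 G.stId5_50 G.stPs5_50
    G.stKadd_16 G.stK4k_16 G.stTh1_5_50 G.stTh23_50 G.stF5_all76 G.stF6_all76 G.stF7_all76
    G.stLSit_11 G.stLBas_11 hM

/-- saturated graphs -/
theorem stStV_of76 (G : CG V) (hM : G.StM9) (hS : G.StS12) : G.StStV :=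
  G.stStT_96 (G.stMnV_of76 hM) G.stSmall_76 G.stCovU_1 G.stId5_50 G.stPs5_50 G.stTot5_50
    G.stKadd_16 hM hS

/-- graphs without `K_6` on vertices of degree at most 7 have no `K6` -/
theorem kap_zero76 {G : CG V} (h : ¬ G.HasK6) : G.kap univ = 0 := by
  classical
  rw [kap, card_eq_zero, filter_eq_empty_iff]
  rintro S - ⟨hS, -⟩
  refine h ⟨S, hS.1, hS.2.2, ?_⟩
  intro x hx
  obtain ⟨y, hy⟩ := hS.2.1 x hx
  exact hy.2.1.le

/-- at most eight vertices -/
theorem small5_76 {G : CG V} (hcr : G.Crit) (h8 : Fintype.card V ≤ 8) :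
    Fintype.card V ≤ 3 * G.l univ := by
  classical
  have h1 := small_96 (G := G) (q := fun _ _ => False) hcr h8
  have h2 : qcard (fun _ _ : V => False) univ = 0 := by
    rw [qcard, card_eq_zero, filter_eq_empty_iff]
    rintro x - ⟨w, hw⟩
    exact hw
  rw [h2] at h1
  omega

theorem deg_bound76 (G : CG V) :
    ∑ v, (G.nb v).card ≤ Fintype.card V * Fintype.card V := by
  calc ∑ v, (G.nb v).card ≤ ∑ _v : V, Fintype.card V :=
        sum_le_sum fun v _ => card_le_univ _
    _ = Fintype.card V * Fintype.card V := by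
        rw [sum_const, card_univ, smul_eq_mul]

/-- V10: all graphs -/
theorem stFnV_of76 (hM : ∀ G : CG V, G.StM9) (hS : ∀ G : CG V, G.StS12) (G : CG V) :
    G.StFnV := by
  have key : ∀ (m : ℕ) (G : CG V),
      Fintype.card V * Fintype.card V - ∑ v, (G.nb v).card = m → G.Crit →
      2 * Fintype.card V ≤ 7 * G.l univ := by
    intro m
    induction m using Nat.strong_induction_on with
    | _ m ih =>
    intro G hm hcr
    by_cases h8 : Fintype.card V ≤ 8
    · have := small5_76 hcr h8
      omega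
    · have h9 : 9 ≤ Fintype.card V := by omega
      by_cases hsat : G.Sat
      · rcases G.stKap_16 hcr h9 with h | h
        · exact h
        · have h1 := G.stStV_of76 (hM G) (hS G) hcr hsat h9
          have h2 : 3 * (G.kap univ : ℤ) ≤ (G.l univ : ℤ) := by exact_mod_cast h
          have h3 : 4 * (Fintype.card V : ℤ) ≤ 14 * (G.l univ : ℤ) := by linarith
          have h4 : 4 * Fintype.card V ≤ 14 * G.l univ := by exact_mod_cast h3
          omega
      · rw [Sat] at hsat
        push Not at hsat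
        obtain ⟨a, b, t, hl, ht⟩ := hsat
        obtain ⟨G', h1, h3, h4, -⟩ := G.stSaV_11 hcr h9 a b t hl ht
        have h5 := deg_bound76 G'
        have h6 := ih _ (by omega) G' rfl h1
        omega
  intro hcr
  exact key _ G rfl hcr

/-- V11: graphs without `K_6` on vertices of degree at most 7 -/
theorem stFnK_of76 (hM : ∀ G : CG V, G.StM9) (hS : ∀ G : CG V, G.StS12) (G : CG V) :
    G.StFnK := by
  have key : ∀ (m : ℕ) (G : CG V),
      Fintype.card V * Fintype.card V - ∑ v, (G.nb v).card = m → G.Crit → ¬ G.HasK6 →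
      Fintype.card V ≤ 3 * G.l univ := by
    intro m
    induction m using Nat.strong_induction_on with
    | _ m ih =>
    intro G hm hcr hK
    by_cases h8 : Fintype.card V ≤ 8
    · exact small5_76 hcr h8
    · have h9 : 9 ≤ Fintype.card V := by omega
      by_cases hsat : G.Sat
      · have h1 := G.stStV_of76 (hM G) (hS G) hcr hsat h9
        rw [kap_zero76 hK] at h1
        push_cast at h1
        have h3 : (Fintype.card V : ℤ) ≤ 3 * (G.l univ : ℤ) := by linarith
        exact_mod_cast h3
      · rw [Sat] at hsat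
        push Not at hsat
        obtain ⟨a, b, t, hl, ht⟩ := hsat
        obtain ⟨G', h1, h3, h4, h5'⟩ := G.stSaV_11 hcr h9 a b t hl ht
        have h5 := deg_bound76 G'
        have h6 := ih _ (by omega) G' rfl h1 (h5' hK)
        omega
  intro hcr hK
  exact key _ G rfl hcr hK

end CG

end Pool.Agent.Lib.MP_e95c01_co.N
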