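import Pool.Agent.Lib.MP_e95c01_co.X.StmtsF76
import Pool.Agent.Lib.MP_e95c01_co.T.F8_76
import Pool.Agent.Lib.MP_e95c01_co.T.F5_30
import Pool.Agent.Lib.MP_e95c01_co.T.F3_33

/-!
# G6: a hub and a pair of twins, the situation
-/

namespace Pool.Agent.Lib.MP_e95c01_co.N

open Finset

variable {V : Type} [Fintype V] [DecidableEq V]

namespace CG

/-- the situation: `F = {h, v, w}`, `Y` the neighbours of `v` in `N F`, `t` the other vertex -/
structure C89 (G : CG V) (F : Finset V) (h v w t : V) (Y : Finset V) : Prop where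
  hF : G.S5 F
  sub : Y ⊆ G.N F
  all : ∀ y ∈ G.N F, y = t ∨ y ∈ Y
  tT : t ∈ G.N F
  tY : t ∉ Y
  c5 : Y.card = 5
  d3 : ∀ y ∈ Y, h ∈ G.nb y → G.d y F = 3
  d2 : ∀ y ∈ Y, h ∉ G.nb y → G.d y F = 2
  dt : G.d t F = 1
  hnl : ¬ G.Low h
  hT : h ∉ G.N F
  part : ∀ x y, G.Tw x y → x ∈ Y → y ∈ Y
  miss : ∀ x ∈ G.N F, ∀ y ∈ G.N F, x ≠ y → h ∈ G.nb x ∨ h ∈ G.nb y
  c1 : ∀ y ∈ Y, (∃ x ∈ Y, G.Low x ∧ y ∈ G.nb x) ∨
    (∃ x ∈ Y, ∃ x' ∈ Y, G.Tw x x' ∧ y ∈ G.nb x ∧ y ∈ G.nb x') ∨ (∃ a ∈ Y, ∃ b ∈ Y, G.HL a b y)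
  c0 : (∃ x ∈ Y, G.Low x ∧ h ∈ G.nb x ∧ t ∈ G.nb x) ∨
    (∃ x ∈ Y, ∃ x' ∈ Y, G.Tw x x' ∧ h ∈ G.nb x ∧ t ∈ G.nb x ∧ t ∈ G.nb x') ∨
    (∃ a ∈ Y, ∃ b ∈ Y, G.HL a b t ∧ h ∈ G.nb a ∧ h ∈ G.nb b) ∨
    (∃ a ∈ Y, ∃ b ∈ Y, G.LL a b h t)

variable {G : CG V}

theorem exC89 {F : Finset V} (hF : G.S5 F) {h v w : V} (hFe : F = {h, v, w}) (hh : G.Hub h)
    (hvw : G.Tw v w) : ∃ t Y, G.C89 F h v w t Y := by
  classical
  have n9 := F3s_n9_76 hF
  have TH := stTwHL_5 G
  have hBas := stBas_33 G G.Tw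
  have hvF : v ∈ F := by rw [hFe]; simp
  have hwF : w ∈ F := by rw [hFe]; simp
  have hhF : h ∈ F := by rw [hFe]; simp
  have hFm : ∀ x ∈ F, x = v ∨ x = w ∨ x = h := by
    intro x hx
    rw [hFe] at hx
    simp only [mem_insert, mem_singleton] at hx
    tauto
  have hne : v ≠ w := ne_of_nb5 hvw.1
  have hwv : G.Tw w v := TH.symm _ _ hvw
  have tnl : ∀ {x : V}, G.IsTw x → ¬ G.Low x := by
    rintro x ⟨y, hy⟩ hl
    have h1 := hy.2.1
    have h2 : (G.nb x).card = 6 := hl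
    omega
  have hhv : h ≠ v := fun e => hh.2 ⟨w, by rw [e]; exact hvw⟩
  have hhw : h ≠ w := fun e => hh.2 ⟨v, by rw [e]; exact hwv⟩
  have hnolow : ∀ x ∈ F, ¬ G.Low x := by
    intro x hx
    rcases hFm x hx with e | e | e
    · rw [e]; exact tnl ⟨_, hvw⟩
    · rw [e]; exact tnl ⟨_, hwv⟩
    · rw [e]; exact hh.1
  have hnbF : ∀ x ∈ F, ∀ y ∈ G.nb x, y ∈ F ∨ y ∈ G.N F := by
    intro x hx y hy
    by_cases h1 : y ∈ F
    · exact Or.inl h1
    · exact Or.inr (mem_N76.2 ⟨h1, x, hx, hy⟩)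
  have hzv' : h ∈ G.nb v := by
    by_contra hno
    have h1 : h ∉ G.nb w := fun h' => hno (Tw_nb5 hwv h' hhv)
    have h2 : G.nb h ⊆ G.N F := by
      intro y hy
      rcases hnbF h hhF y hy with h' | h'
      · exfalso
        rcases hFm y h' with h3 | h3 | h3
        · rw [h3] at hy
          exact hno (G.sym _ _ hy)
        · rw [h3] at hy
          exact h1 (G.sym _ _ hy)
        · rw [h3] at hy
          exact G.irr _ hy
      · exact h'
    have h3 := Finset.card_le_card h2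
    have h4 : (G.N F).card = 6 := hF.big.1.2.1
    have h5 := G.deg h
    exact hh.1 (by show (G.nb h).card = 6; omega)
  have T6 : (G.N F).card = 6 := hF.big.1.2.1
  have hnF : ∀ {x : V}, x ∈ G.N F → x ∉ F := fun h' => (mem_N76.1 h').1
  set Y := G.nb v ∩ G.N F with hY
  have hYcard : Y.card = 5 := by
    have h1 : (G.nb v).card = 7 := hvw.2.1
    have h2 : G.nb v = insert w (insert h Y) := by
      ext y
      constructor
      · intro hy
        rcases hnbF v hvF y hy with h' | h'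
        · rcases hFm y h' with h3 | h3 | h3
          · rw [h3] at hy
            exact absurd hy (G.irr _)
          · rw [h3]; exact mem_insert_self _ _
          · rw [h3]; exact mem_insert_of_mem (mem_insert_self _ _)
        · exact mem_insert_of_mem (mem_insert_of_mem (mem_inter.2 ⟨hy, h'⟩))
      · intro hy
        rcases mem_insert.1 hy with h' | h'
        · rw [h']; exact hvw.1
        rcases mem_insert.1 h' with h' | h'
        · rw [h']; exact hzv'
        · exact (mem_inter.1 h').1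
    have h3 : h ∉ Y := fun h' => (mem_N76.1 (mem_inter.1 h').2).1 hhF
    have h4 : w ∉ insert h Y := by
      intro h'
      rcases mem_insert.1 h' with h' | h'
      · exact hhw h'.symm
      · exact (mem_N76.1 (mem_inter.1 h').2).1 hwF
    rw [h2, card_insert_of_notMem h4, card_insert_of_notMem h3] at h1
    omega
  have hYN : Y ⊆ G.N F := inter_subset_right
  obtain ⟨t, ht⟩ : ∃ t, G.N F \ Y = {t} := by
    rw [← card_eq_one, card_sdiff_of_subset hYN]
    omega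
  have ht' : t ∈ G.N F \ Y := by rw [ht]; exact mem_singleton_self _
  obtain ⟨htT, htY⟩ := mem_sdiff.1 ht'
  have hall : ∀ y ∈ G.N F, y = t ∨ y ∈ Y := by
    intro y hy
    by_cases h1 : y ∈ Y
    · exact Or.inr h1
    · left
      have h2 : y ∈ G.N F \ Y := mem_sdiff.2 ⟨hy, h1⟩
      rw [ht] at h2
      exact mem_singleton.1 h2
  have hin : ∀ {x : V}, x ∈ G.N F → v ∈ G.nb x → x ∈ Y := fun h1 h2 =>
    mem_inter.2 ⟨G.sym _ _ h2, h1⟩
  have htv : v ∉ G.nb t := fun h1 => htY (hin htT h1)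
  have htw : w ∉ G.nb t := by
    intro h1
    have h2 : t ∈ G.nb v := Tw_nb5 hwv (G.sym _ _ h1) (by
      rintro rfl
      exact hnF htT hvF)
    exact htv (G.sym _ _ h2)
  have hYv : ∀ y ∈ Y, v ∈ G.nb y := fun y hy => G.sym _ _ (mem_inter.1 hy).1
  have hYw : ∀ y ∈ Y, w ∈ G.nb y := by
    intro y hy
    refine G.sym _ _ (Tw_nb5 hvw (mem_inter.1 hy).1 ?_)
    rintro rfl
    exact hnF (mem_inter.1 hy).2 hwF
  have hth : G.nb t ∩ F = {h} := by
    have h1 := hBas.pos F hF t htT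
    rw [d, Nat.succ_le_iff, Finset.card_pos] at h1
    obtain ⟨x, hx⟩ := h1
    have hsub : ∀ y ∈ G.nb t ∩ F, y = h := by
      intro y hy
      obtain ⟨h2, h3⟩ := mem_inter.1 hy
      rcases hFm y h3 with e | e | e
      · rw [e] at h2; exact absurd h2 htv
      · rw [e] at h2; exact absurd h2 htw
      · exact e
    ext y
    rw [mem_singleton]
    refine ⟨hsub y, ?_⟩
    rintro rfl
    rw [hsub x hx] at hx
    exact hx
  have hFc : ∀ y, G.nb y ∩ F ⊆ F := fun y => inter_subset_right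
  have hhN : h ∉ G.N F := fun h1 => hnF h1 hhF
  have hTwF : ∀ x y, G.Tw x y → y ∈ F → x ∈ F := by
    intro x y hxy hy
    rcases hFm y hy with e | e | e
    · rw [e] at hxy
      have := TH.uniq n9 _ _ _ hvw (TH.symm _ _ hxy)
      rw [← this]; exact hwF
    · rw [e] at hxy
      have := TH.uniq n9 _ _ _ hwv (TH.symm _ _ hxy)
      rw [← this]; exact hvF
    · exact absurd ⟨_, by rw [e] at hxy; exact TH.symm _ _ hxy⟩ hh.2
  have hmiss : ∀ x ∈ G.N F, ∀ y ∈ G.N F, x ≠ y → h ∈ G.nb x ∨ h ∈ G.nb y := by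
    intro x hx y hy hxy
    by_contra hcon
    rw [not_or] at hcon
    have h1 := hBas.miss F hF h hhF hh.1
    have h2 : G.Tz F h ⊆ ((G.N F).erase x).erase y := by
      intro z hz
      obtain ⟨h3, h4⟩ := mem_inter.1 hz
      refine mem_erase.2 ⟨?_, mem_erase.2 ⟨?_, h4⟩⟩
      · rintro rfl
        exact hcon.2 (G.sym _ _ h3)
      · rintro rfl
        exact hcon.1 (G.sym _ _ h3)
    have h3 := card_le_card h2
    rw [card_erase_of_mem (mem_erase.2 ⟨hxy.symm, hy⟩), card_erase_of_mem hx] at h3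
    omega
  refine ⟨t, Y, hF, hYN, hall, htT, htY, hYcard, ?_, ?_, ?_, hh.1, hhN, ?_, hmiss, ?_, ?_⟩
  · -- d3
    intro y hy h1
    have h2 : G.nb y ∩ F = F := by
      ext x
      rw [mem_inter]
      refine ⟨fun h => h.2, fun hx => ⟨?_, hx⟩⟩
      rcases hFm x hx with e | e | e
      · rw [e]; exact hYv y hy
      · rw [e]; exact hYw y hy
      · rw [e]; exact h1
    rw [d, h2, hF.c3]
  · -- d2
    intro y hy h1
    have h2 : G.nb y ∩ F = {v, w} := by
      ext x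
      rw [mem_inter, mem_insert, mem_singleton]
      constructor
      · rintro ⟨h3, h4⟩
        rcases hFm x h4 with e | e | e
        · exact Or.inl e
        · exact Or.inr e
        · rw [e] at h3; exact absurd h3 h1
      · rintro (e | e)
        · rw [e]; exact ⟨hYv y hy, hvF⟩
        · rw [e]; exact ⟨hYw y hy, hwF⟩
    rw [d, h2, card_pair hne]
  · -- dt
    rw [d, hth, card_singleton]
  · -- part
    intro x y hxy hx
    have h1 := mem_inter.1 hx
    have h2 : y ∉ F := fun h3 => hnF h1.2 (hTwF _ _ hxy h3)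
    have h3 : v ≠ y := by
      rintro rfl
      exact h2 hvF
    have h4 : v ∈ G.nb y := Tw_nb5 hxy (hYv x hx) h3
    exact mem_inter.2 ⟨G.sym _ _ h4, mem_N76.2 ⟨h2, v, hvF, G.sym _ _ h4⟩⟩
  · -- c1
    intro y hy
    have hy' := mem_inter.1 hy
    rcases hF.cov v hvF y hy'.2 hy'.1 with h1 | h1 | h1 | h1 | h1
    · obtain ⟨w0, h1, h2, h3, h4⟩ := h1
      rcases mem_union.1 h1 with h5 | h5
      · exact absurd h2 (hnolow _ h5)
      · exact Or.inl ⟨w0, hin h5 h3, h2, h4⟩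
    · obtain ⟨v0, h1, w0, h2, h3, h4, h5, h6, h7⟩ := h1
      have key : ∀ v0 w0, v0 ∈ F ∪ G.N F → G.Tw v0 w0 → v ∈ G.nb v0 → v ∈ G.nb w0 → v0 ∈ Y := by
        intro v0 w0 h1 h3 h4 h5
        rcases mem_union.1 h1 with h8 | h8
        · exfalso
          rcases hFm v0 h8 with h9 | h9 | h9
          · rw [h9] at h4
            exact G.irr _ h4
          · have h10 : v = w0 := TH.uniq n9 _ _ _ hwv (by rw [h9] at h3; exact h3)
            rw [← h10] at h5
            exact G.irr _ h5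
          · exact hh.2 ⟨_, by rw [h9] at h3; exact h3⟩
        · exact hin h8 h4
      exact Or.inr (Or.inl ⟨v0, key v0 w0 h1 h3 h4 h5, w0, key w0 v0 h2 (TH.symm _ _ h3) h5 h4,
        h3, h6, h7⟩)
    · obtain ⟨a, b, h1, h2, h3, h4 | h4⟩ := h1
      · exact absurd h1.2.1 (hnolow _ h4.2)
      · exact Or.inr (Or.inr ⟨a, hin h4.1 h3, b, hin h4.2 h2, h1⟩)
    · obtain ⟨a, b, h1, -⟩ := h1
      exact absurd (hF.sat _ _ _ h1) (hnolow v hvF)
    · obtain ⟨a, b, h1, -⟩ := h1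
      exact absurd ⟨_, hvw⟩ (TH.twLL _ _ _ _ h1).1
  · -- c0
    have hht : h ∈ G.nb t := by
      have : h ∈ G.nb t ∩ F := by rw [hth]; exact mem_singleton_self _
      exact (mem_inter.1 this).1
    have inY : ∀ {x : V}, x ∈ G.N F → x ≠ t → x ∈ Y := by
      intro x hx h1
      rcases hall x hx with e | e
      · exact absurd e h1
      · exact e
    have nbT : ∀ {x : V}, t ∈ G.nb x → x ≠ t := fun h1 => ne_of_nb5 h1
    rcases hF.cov h hhF t htT (G.sym _ _ hht) with h1 | h1 | h1 | h1 | h1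
    · obtain ⟨w0, h1, h2, h3, h4⟩ := h1
      rcases mem_union.1 h1 with h5 | h5
      · exact absurd h2 (hnolow _ h5)
      · exact Or.inl ⟨w0, inY h5 (nbT h4), h2, h3, h4⟩
    · obtain ⟨v0, h1, w0, h2, h3, h4, h5, h6, h7⟩ := h1
      have key : ∀ v0, v0 ∈ F ∪ G.N F → h ∈ G.nb v0 → t ∈ G.nb v0 → v0 ∈ Y := by
        intro v0 h1 h4 h6
        rcases mem_union.1 h1 with h8 | h8
        · exfalso
          rcases hFm v0 h8 with h9 | h9 | h9
          · rw [h9] at h6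
            exact htv (G.sym _ _ h6)
          · rw [h9] at h6
            exact htw (G.sym _ _ h6)
          · rw [h9] at h4
            exact G.irr _ h4
        · exact inY h8 (nbT h6)
      exact Or.inr (Or.inl ⟨v0, key v0 h1 h4 h6, w0, key w0 h2 h5 h7, h3, h4, h6, h7⟩)
    · obtain ⟨a, b, h1, h2, h3, h4 | h4⟩ := h1
      · exact absurd h1.2.1 (hnolow _ h4.2)
      · exact Or.inr (Or.inr (Or.inl ⟨a, inY h4.1 (nbT (HL_t76 h1)), b,
          inY h4.2 (HL_bt76 h1).2.symm, h1, h3, h2⟩))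
    · obtain ⟨a, b, h1, -⟩ := h1
      exact absurd (hF.sat _ _ _ h1) hh.1
    · obtain ⟨a, b, h1, h2⟩ := h1
      have hat : t ≠ a := (LL_ua76 h1).2
      have hbt : b ≠ t := nbT (LL_u76 h1)
      rcases h2 with h2 | h2 | h2
      · exact absurd h1.1 (hnolow _ h2.1)
      · rcases mem_union.1 h2.2 with h3 | h3
        · exact absurd h1.2.1 (hnolow _ h3)
        · exact Or.inr (Or.inr (Or.inr ⟨a, inY h2.1 hat.symm, b, inY h3 hbt, h1⟩))
      · exfalso
        have h3 := inY h2.1 hat.symm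
        have h4 : v ∈ G.nb a ∩ F := mem_inter.2 ⟨hYv a h3, hvF⟩
        rw [h2.2.2, mem_singleton] at h4
        exact hhv h4.symm

end CG

end Pool.Agent.Lib.MP_e95c01_co.N
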