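import Pool.Agent.Lib.MP_e95c01_co.X.G6a_89

/-!
# G6: a hub and a pair of twins, no twins in `N F`
-/

namespace Pool.Agent.Lib.MP_e95c01_co.N

open Finset

variable {V : Type} [Fintype V] [DecidableEq V]

namespace CG

variable {G : CG V} {F : Finset V} {h v w t : V} {Y : Finset V}

theorem tnl89 {x : V} (hx : G.IsTw x) : ¬ G.Low x := by
  obtain ⟨y, hy⟩ := hx
  intro hl
  have h1 := hy.2.1
  have h2 : (G.nb x).card = 6 := hl
  omega

theorem mem_pT89 {x y : V} : y ∈ G.pT F x ↔ y ∈ G.nb x ∧ y ∈ G.N F := by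
  rw [pT, mem_inter]

theorem C89.n9 (hC : G.C89 F h v w t Y) : 9 ≤ Fintype.card V := F3s_n9_76 hC.hF

/-- the other vertex -/
theorem C89.g0 (hC : G.C89 F h v w t Y) (hB : G.St5B) : 0 ≤ G.gam5 F t := by
  classical
  by_cases hl : G.Low t
  · obtain ⟨-, h2, h3⟩ := hB.low1 F hC.hF t hC.tT hl hC.dt
    by_cases hp : G.PairSet (G.pT F t)
    · exact h3 hp
    have h4 := h2 hp
    have h5 : ∃ x ∈ Y, t ∈ G.nb x := by
      rcases hC.c0 with h6 | h6 | h6 | h6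
      · obtain ⟨x, hx, -, -, h7⟩ := h6
        exact ⟨x, hx, h7⟩
      · obtain ⟨x, hx, -, -, -, -, h7, -⟩ := h6
        exact ⟨x, hx, h7⟩
      · obtain ⟨a, ha, b, hb, h7, -⟩ := h6
        exact ⟨a, ha, HL_t76 h7⟩
      · obtain ⟨a, ha, b, hb, h7⟩ := h6
        exact ⟨b, hb, LL_u76 h7⟩
    obtain ⟨x, hx, h6⟩ := h5
    have h7 : 0 < (G.pT F t).card :=
      card_pos.2 ⟨x, mem_pT89.2 ⟨G.sym _ _ h6, hC.sub hx⟩⟩
    have h8 : (1 : ℤ) ≤ ((G.pT F t).card : ℤ) := by exact_mod_cast h7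
    linarith
  · by_cases ht : G.IsTw t
    · have h1 := (hB.tw F hC.hF t hC.tT ht).1
      have h2 := hC.dt
      omega
    · exact (hB.hub F hC.hF t hC.tT ⟨hl, ht⟩).ge

/-- low, adjacent to `h` -/
theorem C89.v3 (hC : G.C89 F h v w t Y) (hB : G.St5B) {y : V} (hy : y ∈ Y) (hl : G.Low y)
    (hh : h ∈ G.nb y) : (G.pT F y).card ≤ 2 ∧ 6 ≤ G.gam5 F y ∧
    4 + 2 * ((G.pT F y).card : ℤ) ≤ G.gam5 F y ∧ 2 + 4 * ((G.pT F y).card : ℤ) ≤ G.gam5 F y := by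
  obtain ⟨h1, h2, h3, -, -⟩ := hB.low3 F hC.hF y (hC.sub hy) hl (hC.d3 y hy hh)
  refine ⟨h1, h2, ?_⟩
  by_cases h4 : (G.pT F y).card = 1
  · rw [h4]
    push_cast
    constructor <;> linarith
  · have h5 := h3 h4
    have h6 : ((G.pT F y).card : ℤ) ≤ 2 := by exact_mod_cast h1
    constructor <;> linarith

/-- low, not adjacent to `h` -/
theorem C89.v2 (hC : G.C89 F h v w t Y) (hB : G.St5B) {y : V} (hy : y ∈ Y) (hl : G.Low y)
    (hh : h ∉ G.nb y) (hp : ¬ G.PairSet (G.pT F y)) : (G.pT F y).card ≤ 3 ∧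
    2 + 2 * ((G.pT F y).card : ℤ) ≤ G.gam5 F y := by
  obtain ⟨h1, h2, -⟩ := hB.low2 F hC.hF y (hC.sub hy) hl (hC.d2 y hy hh)
  exact ⟨h1, h2 hp⟩

/-- counting -/
theorem C89.cnt (hC : G.C89 F h v w t Y) (hT : ∀ x ∈ Y, ¬ G.IsTw x) {L : Finset V}
    (hL : ∀ x, x ∈ L ↔ x ∈ Y ∧ G.Low x) : 6 ≤ ∑ x ∈ L, (G.pT F x).card := by
  classical
  have TH := stTwHL_5 G
  have n9 := hC.n9
  have T6 : (G.N F).card = 6 := hC.hF.big.1.2.1
  -- covers
  have cv : ∀ y ∈ G.N F, (∃ x ∈ L, y ∈ G.nb x) ∨ ∃ a ∈ Y, ∃ b ∈ L, G.HL a b y := by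
    intro y hy
    rcases hC.all y hy with e | hy
    · rw [e]
      rcases hC.c0 with h6 | h6 | h6 | h6
      · obtain ⟨x, hx, h7, -, h8⟩ := h6
        exact Or.inl ⟨x, (hL x).2 ⟨hx, h7⟩, h8⟩
      · obtain ⟨x, hx, x', -, h7, -⟩ := h6
        exact absurd ⟨_, h7⟩ (hT x hx)
      · obtain ⟨a, ha, b, hb, h7, -⟩ := h6
        exact Or.inr ⟨a, ha, b, (hL b).2 ⟨hb, h7.2.1⟩, h7⟩
      · obtain ⟨a, ha, b, hb, h7⟩ := h6
        exact Or.inl ⟨b, (hL b).2 ⟨hb, h7.2.1⟩, LL_u76 h7⟩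
    · rcases hC.c1 y hy with h6 | h6 | h6
      · obtain ⟨x, hx, h7, h8⟩ := h6
        exact Or.inl ⟨x, (hL x).2 ⟨hx, h7⟩, h8⟩
      · obtain ⟨x, hx, x', -, h7, -⟩ := h6
        exact absurd ⟨_, h7⟩ (hT x hx)
      · obtain ⟨a, ha, b, hb, h7⟩ := h6
        exact Or.inr ⟨a, ha, b, (hL b).2 ⟨hb, h7.2.1⟩, h7⟩
  set c : V → ℕ := fun y => (L.filter fun x => y ∈ G.nb x).card with hc
  have hsum : ∑ x ∈ L, (G.pT F x).card = ∑ y ∈ G.N F, c y := by
    have h1 := sum_card_bipartiteAbove_eq_sum_card_bipartiteBelow (s := L) (t := G.N F)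
      (fun x y => y ∈ G.nb x)
    rw [hc]
    simp only [bipartiteAbove, bipartiteBelow] at h1
    rw [← h1]
    refine sum_congr rfl fun x _ => ?_
    congr 1
    ext y
    rw [mem_pT89, mem_filter]
    exact and_comm
  set Z := (G.N F).filter fun y => ¬ ∃ x ∈ L, y ∈ G.nb x with hZ
  have hch : ∀ y, ∃ a, y ∈ Z → a ∈ Y ∧ ∃ b ∈ L, G.HL a b y := by
    intro y
    by_cases h1 : y ∈ Z
    · obtain ⟨h2, h3⟩ := mem_filter.1 h1
      rcases cv y h2 with h4 | ⟨a, ha, b, hb, h4⟩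
      · exact absurd h4 h3
      · exact ⟨a, fun _ => ⟨ha, b, hb, h4⟩⟩
    · exact ⟨y, fun h2 => absurd h2 h1⟩
  choose α hα using hch
  have hinj : Set.InjOn α Z := by
    intro y hy y' hy' he
    by_contra hne
    obtain ⟨-, b, hb, h1⟩ := hα y (mem_coe.1 hy)
    obtain ⟨-, b', hb', h2⟩ := hα y' (mem_coe.1 hy')
    rw [← he] at h2
    obtain ⟨-, h3, -⟩ := TH.two n9 _ _ _ _ _ h1 h2 hne
    exact (mem_filter.1 (mem_coe.1 hy')).2 ⟨b, hb, G.sym _ _ h3⟩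
  have hc2 : ∀ y ∈ Z, 2 ≤ c (α y) := by
    intro y hy
    obtain ⟨ha, b, hb, h1⟩ := hα y hy
    have hbY : b ∈ Y := ((hL b).1 hb).1
    have hanl := HL_not_low76 h1
    have m1 : b ∈ L.filter fun x => α y ∈ G.nb x :=
      mem_filter.2 ⟨hb, G.sym _ _ (HL_b76 h1)⟩
    rcases cv b (hC.sub hbY) with ⟨x, hx, h2⟩ | ⟨a', ha', b', hb', h2⟩
    · have h3 : x ≠ α y := by
        rintro rfl
        exact hanl ((hL _).1 hx).2
      have h4 : x ∈ G.nb (α y) := HL_sub76 h1 (G.sym _ _ h2) h3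
      have m2 : x ∈ L.filter fun x => α y ∈ G.nb x := mem_filter.2 ⟨hx, G.sym _ _ h4⟩
      exact two_le5 m1 m2 (ne_of_nb5 h2).symm
    · have h3 : a' ≠ α y := by
        intro e
        rw [e] at h2
        exact TH.nomut n9 _ _ _ _ _ h2 h1 rfl
      have h4 : a' ∈ G.nb (α y) := HL_sub76 h1 (G.sym _ _ (HL_t76 h2)) h3
      have h5 : α y ≠ b := (ne_of_nb5 (HL_b76 h1))
      have h6 : α y = b' ∨ α y ∈ G.nb b' := HL_sup76 h2 (G.sym _ _ h4) h5
      have h7 : α y ≠ b' := by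
        intro e
        rw [e] at hanl
        exact hanl h2.2.1
      have h8 : α y ∈ G.nb b' := h6.resolve_left h7
      have m2 : b' ∈ L.filter fun x => α y ∈ G.nb x := mem_filter.2 ⟨hb', h8⟩
      exact two_le5 m1 m2 (HL_bt76 h2).2
  have hpos : ∀ y ∈ G.N F, y ∉ Z → 1 ≤ c y := by
    intro y hy h1
    have h2 : ∃ x ∈ L, y ∈ G.nb x := by
      by_contra h3
      exact h1 (mem_filter.2 ⟨hy, h3⟩)
    obtain ⟨x, hx, h3⟩ := h2
    exact card_pos.2 ⟨x, mem_filter.2 ⟨hx, h3⟩⟩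
  have hz0 : ∀ y ∈ Z, c y = 0 := by
    intro y hy
    rw [hc]
    simp only
    rw [card_eq_zero, filter_eq_empty_iff]
    intro x hx h1
    exact (mem_filter.1 hy).2 ⟨x, hx, h1⟩
  have him : Z.image α ⊆ (G.N F) \ Z := by
    intro a ha
    obtain ⟨y, hy, rfl⟩ := mem_image.1 ha
    refine mem_sdiff.2 ⟨hC.sub (hα y hy).1, fun h1 => ?_⟩
    have h2 := hz0 _ h1
    have h3 := hc2 y hy
    omega
  have hZT : Z ⊆ G.N F := filter_subset _ _
  have h1 : ∑ y ∈ (G.N F) \ Z, (1 + if y ∈ Z.image α then 1 else 0) ≤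
      ∑ y ∈ (G.N F) \ Z, c y := by
    refine sum_le_sum fun y hy => ?_
    split_ifs with h2
    · obtain ⟨y', hy', rfl⟩ := mem_image.1 h2
      exact hc2 y' hy'
    · rw [add_zero]
      exact hpos y (mem_sdiff.1 hy).1 (mem_sdiff.1 hy).2
  rw [sum_add_distrib, ← sum_filter, filter_mem_eq_inter, inter_eq_right.2 him, sum_const,
    sum_const, card_image_of_injOn hinj, smul_eq_mul, smul_eq_mul, mul_one, mul_one,
    card_sdiff_of_subset hZT] at h1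
  have h2 : ∑ y ∈ (G.N F) \ Z, c y ≤ ∑ y ∈ G.N F, c y :=
    sum_le_sum_of_subset sdiff_subset
  have h3 := card_le_card hZT
  rw [hsum]
  omega

/-- all values are nonnegative if there are no twins -/
theorem C89.g0i (hC : G.C89 F h v w t Y) (hB : G.St5B) (hT : ∀ x ∈ Y, ¬ G.IsTw x) :
    ∀ y ∈ G.N F, 0 ≤ G.gam5 F y := by
  intro y hy
  rcases hC.all y hy with e | hy
  · rw [e]; exact hC.g0 hB
  by_cases hl : G.Low y
  · by_cases hh : h ∈ G.nb y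
    · have := (hC.v3 hB hy hl hh).2.1
      linarith
    · have h1 : ¬ G.PairSet (G.pT F y) := by
        rintro ⟨a, b, hab, h1⟩
        have h2 : a ∈ G.pT F y := by rw [h1]; exact mem_insert_self _ _
        obtain ⟨h3, h4⟩ := mem_pT89.1 h2
        rcases hC.all a h4 with e | h5
        · rw [e] at hab
          have h6 := (hB.tw F hC.hF t hC.tT ⟨_, hab⟩).1
          have h7 := hC.dt
          omega
        · exact hT a h5 ⟨_, hab⟩
      have h2 := (hC.v2 hB hy hl hh h1).2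
      have h3 : (0 : ℤ) ≤ ((G.pT F y).card : ℤ) := Int.natCast_nonneg _
      linarith
  · exact (hB.hub F hC.hF y (hC.sub hy) ⟨hl, hT y hy⟩).ge

/-- case (i): no twins in `N F` -/
theorem C89.case1 (hC : G.C89 F h v w t Y) (hB : G.St5B) (hT : ∀ x ∈ Y, ¬ G.IsTw x) :
    24 ≤ ∑ y ∈ G.N F, G.gam5 F y := by
  classical
  set L := Y.filter fun x => G.Low x with hL
  have hLm : ∀ x, x ∈ L ↔ x ∈ Y ∧ G.Low x := fun x => mem_filter
  have h6 := hC.cnt hT hLm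
  have h6' : (6 : ℤ) ≤ ∑ x ∈ L, ((G.pT F x).card : ℤ) := by exact_mod_cast h6
  have h0 := hC.g0i hB hT
  have hLN : L ⊆ G.N F := fun x hx => hC.sub ((hLm x).1 hx).1
  have hnp : ∀ y, ¬ G.PairSet (G.pT F y) := by
    rintro y ⟨a, b, hab, h1⟩
    have h2 : a ∈ G.pT F y := by rw [h1]; exact mem_insert_self _ _
    obtain ⟨h3, h4⟩ := mem_pT89.1 h2
    rcases hC.all a h4 with e | h5
    · rw [e] at hab
      have h6 := (hB.tw F hC.hF t hC.tT ⟨_, hab⟩).1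
      have h7 := hC.dt
      omega
    · exact hT a h5 ⟨_, hab⟩
  have hsub := sum_le_sum_of_subset_of_nonneg (f := fun y => G.gam5 F y) hLN
    (fun y hy _ => h0 y hy)
  by_cases hA : ∀ x ∈ L, h ∈ G.nb x
  · have h1 : ∑ x ∈ L, (4 * ((G.pT F x).card : ℤ)) ≤ ∑ x ∈ L, G.gam5 F x := by
      refine sum_le_sum fun x hx => ?_
      have h2 := (hC.v3 hB ((hLm x).1 hx).1 ((hLm x).1 hx).2 (hA x hx)).2.2.2
      linarith
    rw [← mul_sum] at h1
    linarith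
  · push Not at hA
    obtain ⟨s, hs, hsh⟩ := hA
    have hsm := (hLm s).1 hs
    obtain ⟨hs3, hs2⟩ := hC.v2 hB hsm.1 hsm.2 hsh (hnp s)
    have hoth : ∀ x ∈ L.erase s, h ∈ G.nb x := by
      intro x hx
      obtain ⟨h1, h2⟩ := mem_erase.1 hx
      exact (hC.miss x (hLN h2) s (hLN hs) h1).resolve_right hsh
    have e1 : ∑ x ∈ L, G.gam5 F x = G.gam5 F s + ∑ x ∈ L.erase s, G.gam5 F x :=
      (add_sum_erase _ _ hs).symm
    have e2 : ∑ x ∈ L, ((G.pT F x).card : ℤ) = ((G.pT F s).card : ℤ) +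
        ∑ x ∈ L.erase s, ((G.pT F x).card : ℤ) := (add_sum_erase _ _ hs).symm
    have b1 : ∑ x ∈ L.erase s, ((2 : ℤ) + 4 * ((G.pT F x).card : ℤ)) ≤
        ∑ x ∈ L.erase s, G.gam5 F x := by
      refine sum_le_sum fun x hx => ?_
      have h2 := (hLm x).1 (mem_erase.1 hx).2
      exact (hC.v3 hB h2.1 h2.2 (hoth x hx)).2.2.2
    have b2 : ∑ x ∈ L.erase s, ((4 : ℤ) + 2 * ((G.pT F x).card : ℤ)) ≤
        ∑ x ∈ L.erase s, G.gam5 F x := by
      refine sum_le_sum fun x hx => ?_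
      have h2 := (hLm x).1 (mem_erase.1 hx).2
      exact (hC.v3 hB h2.1 h2.2 (hoth x hx)).2.2.1
    have b3 : ∑ x ∈ L.erase s, ((G.pT F x).card : ℤ) ≤ ∑ x ∈ L.erase s, (2 : ℤ) := by
      refine sum_le_sum fun x hx => ?_
      have h2 := (hLm x).1 (mem_erase.1 hx).2
      have h3 := (hC.v3 hB h2.1 h2.2 (hoth x hx)).1
      exact_mod_cast h3
    rw [sum_add_distrib, sum_const, ← mul_sum] at b1 b2
    rw [sum_const] at b3
    simp only [nsmul_eq_mul] at b1 b2 b3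
    have hs3' : ((G.pT F s).card : ℤ) ≤ 3 := by exact_mod_cast hs3
    set n : ℤ := ((L.erase s).card : ℤ) with hn
    have hn2 : 2 ≤ n := by
      by_contra hcon
      have : n ≤ 1 := by omega
      linarith
    by_cases hn3 : 3 ≤ n
    · linarith
    · have hn' : n = 2 := by omega
      rw [hn'] at b1 b3
      linarith

end CG

end Pool.Agent.Lib.MP_e95c01_co.N
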