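import Pool.Agent.Lib.MP_e95c01_co.X.StmtsH76
import Pool.Agent.Lib.MP_e95c01_co.T.Aux76
import Pool.Agent.Lib.MP_e95c01_co.U.Leaf33

/-!
# `λ = 3`, H1: leaves with four vertices, at least two of them low, no pair of twins
-/

namespace Pool.Agent.Lib.MP_e95c01_co.N

open Finset

variable {V : Type} [Fintype V] [DecidableEq V]

namespace CG

namespace H1x44

variable {G : CG V} {F : Finset V}

theorem n9 (h : G.Lf F) : 9 ≤ Fintype.card V := by
  have := h.n12
  omega

theorem notF {x : V} (hx : x ∈ G.N F) : x ∉ F := (mem_N76.1 hx).1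

theorem uniq (h : G.Lf F) {x y y' : V} (h1 : G.Tw x y) (h2 : G.Tw x y') : y = y' :=
  (stTwHL_5 G).uniq (n9 h) _ _ _ h1 h2

theorem c6 (h : G.Lf F) : (G.N F).card = 6 := h.big.1.2.1

theorem mpT {F : Finset V} {x y : V} : x ∈ G.pT F y ↔ x ∈ G.nb y ∧ x ∈ G.N F := mem_inter

theorem par (hBa : G.StLBas) (h : G.Lf F) {x y : V} (hx : x ∈ G.N F) (ht : G.Tw x y) :
    y ∈ G.N F := (hBa.twT F h x y ht).1 hx

omit [Fintype V] in
theorem two_le {A : Finset V} {x y : V} (hx : x ∈ A) (hy : y ∈ A) (h : x ≠ y) : 2 ≤ A.card := by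
  have h1 : ({x, y} : Finset V) ⊆ A := by
    intro z hz
    rw [mem_insert, mem_singleton] at hz
    rcases hz with rfl | rfl <;> assumption
  have h2 := card_le_card h1
  rwa [card_pair h] at h2

omit [Fintype V] in
theorem three_le {A : Finset V} {x y z : V} (hx : x ∈ A) (hy : y ∈ A) (hz : z ∈ A) (h : x ≠ y)
    (h1 : x ≠ z) (h2 : y ≠ z) : 3 ≤ A.card := by
  have h3 : ({x, y, z} : Finset V) ⊆ A := by
    intro u hu
    rw [mem_insert, mem_insert, mem_singleton] at hu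
    rcases hu with rfl | rfl | rfl <;> assumption
  have h4 := card_le_card h3
  rw [card_insert_of_notMem (by simp [h, h1]), card_pair h2] at h4
  exact h4

omit [Fintype V] in
theorem four_le {A : Finset V} {x y z u : V} (hx : x ∈ A) (hy : y ∈ A) (hz : z ∈ A) (hu : u ∈ A)
    (h : x ≠ y) (h1 : x ≠ z) (h2 : x ≠ u) (h3 : y ≠ z) (h4 : y ≠ u) (h5 : z ≠ u) :
    4 ≤ A.card := by
  have h6 := three_le (A := A.erase x) (mem_erase.2 ⟨h.symm, hy⟩) (mem_erase.2 ⟨h1.symm, hz⟩)
    (mem_erase.2 ⟨h2.symm, hu⟩) h3 h4 h5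
  rw [card_erase_of_mem hx] at h6
  omega

omit [Fintype V] in
/-- sums with nonnegative rest -/
theorem sum_ge {A B : Finset V} {f : V → ℤ} (hB : B ⊆ A) (h0 : ∀ x ∈ A \ B, 0 ≤ f x) :
    ∑ x ∈ B, f x ≤ ∑ x ∈ A, f x := by
  rw [← sum_sdiff hB]
  have := sum_nonneg h0
  omega

/-- values of lows -/
theorem vlow (hBa : G.StLBas) (hB : G.StLB) (h : G.Lf F) {w : V} (hw : w ∈ G.N F)
    (hl : G.Low w) :
    2 ≤ G.gam5 F w ∧ ((G.pT F w).Nonempty → 4 ≤ G.gam5 F w) ∧ (G.pT F w).card ≤ 3 ∧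
      (2 ≤ (G.pT F w).card → 6 ≤ G.gam5 F w ∨
        (4 ≤ G.gam5 F w ∧ G.PairSet (G.pT F w) ∧ G.d w F = 2)) := by
  have hp := hBa.pos F h w hw
  rcases Nat.lt_or_ge (G.d w F) 5 with h5 | h5
  · rcases Nat.lt_or_ge (G.d w F) 4 with h4 | h4
    · rcases Nat.lt_or_ge (G.d w F) 3 with h3 | h3
      · obtain ⟨a1, a2, a3⟩ := hB.low2 F h w hw hl (by omega)
        have h0 : (0 : ℤ) ≤ ((G.pT F w).card : ℤ) := Int.natCast_nonneg _
        refine ⟨by omega, fun hn => ?_, a1, fun h2 => ?_⟩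
        · have := card_pos.2 hn
          omega
        · rcases a2 with a2 | a2
          · left
            omega
          · exact Or.inr ⟨a2.1, a2.2.1, by omega⟩
      · obtain ⟨a1, a2, a3⟩ := hB.low3 F h w hw hl (by omega)
        exact ⟨by omega, fun _ => by omega, by omega, fun _ => Or.inl a2⟩
    · obtain ⟨a1, a2, a3⟩ := hB.low4 F h w hw hl (by omega)
      exact ⟨by omega, fun _ => by omega, by omega, fun _ => by omega⟩
  · obtain ⟨a1, a2, a3⟩ := hB.low5 F h w hw hl h5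
    rw [a2, card_empty]
    exact ⟨by omega, fun _ => by omega, by omega, fun _ => by omega⟩

/-- a vertex of `N F` is bad: a twin vertex with a negative value -/
def Bad (G : CG V) (F : Finset V) (p : V) : Prop :=
  p ∈ G.N F ∧ G.IsTw p ∧ G.d p F = 2 ∧ (G.pT F p).card ≤ 2

theorem vnn (hBa : G.StLBas) (hB : G.StLB) (h : G.Lf F) {w : V} (hw : w ∈ G.N F)
    (hb : ¬ Bad G F w) : 0 ≤ G.gam5 F w := by
  by_cases hl : G.Low w
  · have := (vlow hBa hB h hw hl).1
    omega
  by_cases ht : G.IsTw w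
  · obtain ⟨a1, a2, a3, a4, a5, a6⟩ := hB.tw F h w hw ht
    by_cases h4 : G.d w F = 4
    · have := a6 h4
      omega
    have a7 := a5 (by omega)
    have h0 : (1 : ℤ) ≤ ((G.pT F w).card : ℤ) := by exact_mod_cast a3
    by_cases h3 : G.d w F = 3
    · rw [h3] at a7
      push_cast at a7
      omega
    · have h2 : G.d w F = 2 := by omega
      have h5 : 3 ≤ (G.pT F w).card := by
        by_contra hc
        exact hb ⟨hw, ht, h2, by omega⟩
      rw [h2] at a7
      push_cast at a7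
      omega
  · exact (hB.hub F h w hw ⟨hl, ht⟩).ge

theorem vtw (hB : G.StLB) (h : G.Lf F) {w : V} (hw : w ∈ G.N F) (ht : G.IsTw w) :
    -2 ≤ G.gam5 F w ∧ (3 ≤ G.d w F → 0 ≤ G.gam5 F w) ∧
      (2 ≤ (G.pT F w).card → -1 ≤ G.gam5 F w) ∧
      (2 ≤ (G.pT F w).card → 3 ≤ G.d w F → 1 ≤ G.gam5 F w) ∧
      (G.d w F = 4 → 1 ≤ G.gam5 F w) := by
  obtain ⟨a1, a2, a3, a4, a5, a6⟩ := hB.tw F h w hw ht
  by_cases h4 : G.d w F = 4
  · have := a6 h4
    exact ⟨by omega, fun _ => by omega, fun _ => by omega, fun _ _ => by omega, fun _ => by omega⟩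
  · have a7 := a5 (by omega)
    exact ⟨by omega, fun _ => by omega, fun _ => by omega, fun _ _ => by omega, fun _ => by omega⟩

/-- twins have the same number of neighbours in `F` -/
theorem dpar (hBa : G.StLBas) (h : G.Lf F) {p p' : V} (hp : p ∈ G.N F) (ht : G.Tw p p') :
    G.d p' F = G.d p F :=
  (ht.d33 (notF hp) (notF (par hBa h hp ht))).symm

/-! ### four lows, three lows and a hub -/

/-- a set closed under partners with five vertices of `N F` is `N F` -/
theorem six_of_five (h : G.Lf F) {A : Finset V} (hA : A ⊆ G.N F)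
    (ht : ∀ x ∈ A, ∃ y ∈ A, G.Tw x y) (h5 : 5 ≤ A.card) : A = G.N F := by
  have h6 := c6 h
  apply eq_of_subset_of_card_le hA
  rw [h6]
  by_contra hc
  have h7 : A.card = 5 := by omega
  obtain ⟨x, hx⟩ : A.Nonempty := card_pos.1 (by omega)
  obtain ⟨x', hx', hxx⟩ := ht x hx
  have hne := hxx.ne33
  have h8 : ((A.erase x).erase x').card = 3 := by
    rw [card_erase_of_mem (mem_erase.2 ⟨hne.symm, hx'⟩), card_erase_of_mem hx]
    omega
  obtain ⟨y, hy⟩ : ((A.erase x).erase x').Nonempty := card_pos.1 (by omega)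
  have hy1 := mem_erase.1 hy
  have hy2 := mem_erase.1 hy1.2
  obtain ⟨y', hy', hyy⟩ := ht y hy2.2
  have hyn := hyy.ne33
  have e1 : y' ≠ x := by
    rintro rfl
    exact hy1.1 (uniq h hyy.sym33 hxx)
  have e2 : y' ≠ x' := by
    rintro rfl
    exact hy2.1 (uniq h hyy.sym33 hxx.sym33)
  have h9 : ((((A.erase x).erase x').erase y).erase y').card = 1 := by
    rw [card_erase_of_mem (mem_erase.2 ⟨hyn.symm, mem_erase.2 ⟨e2, mem_erase.2 ⟨e1, hy'⟩⟩⟩),
      card_erase_of_mem hy]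
    omega
  obtain ⟨z, hz⟩ := card_eq_one.1 h9
  have hz0 : z ∈ (((A.erase x).erase x').erase y).erase y' := by
    rw [hz]
    exact mem_singleton_self _
  have hz1 := mem_erase.1 hz0
  have hz2 := mem_erase.1 hz1.2
  have hz3 := mem_erase.1 hz2.2
  have hz4 := mem_erase.1 hz3.2
  obtain ⟨z', hz', hzz⟩ := ht z hz4.2
  have f1 : z' ≠ x := by
    rintro rfl
    exact hz3.1 (uniq h hzz.sym33 hxx)
  have f2 : z' ≠ x' := by
    rintro rfl
    exact hz4.1 (uniq h hzz.sym33 hxx.sym33)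
  have f3 : z' ≠ y := by
    rintro rfl
    exact hz1.1 (uniq h hzz.sym33 hyy)
  have f4 : z' ≠ y' := by
    rintro rfl
    exact hz2.1 (uniq h hzz.sym33 hyy.sym33)
  have : z' ∈ (((A.erase x).erase x').erase y).erase y' :=
    mem_erase.2 ⟨f4, mem_erase.2 ⟨f3, mem_erase.2 ⟨f2, mem_erase.2 ⟨f1, hz'⟩⟩⟩⟩
  rw [hz, mem_singleton] at this
  exact hzz.ne33 this.symm

theorem neg2 (hBa : G.StLBas) (hB : G.StLB) (h : G.Lf F) {w : V} (hw : w ∈ G.N F) :
    -2 ≤ G.gam5 F w := by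
  by_cases ht : G.IsTw w
  · exact (vtw hB h hw ht).1
  · have := vnn hBa hB h hw (fun hb => ht hb.2.1)
    omega

end H1x44

open H1x44

theorem st6LLLL_44 (G : CG V) (hBa : G.StLBas) (hB : G.StLB) : G.St6LLLL := by
  intro F hF _
  have h1 : ∑ _w ∈ G.N F, (-2 : ℤ) ≤ ∑ w ∈ G.N F, G.gam5 F w :=
    sum_le_sum fun w hw => neg2 hBa hB hF.1 hw
  rw [sum_const, c6 hF.1] at h1
  norm_num at h1
  omega

theorem st6LLLH_44 (G : CG V) (hBa : G.StLBas) (hB : G.StLB) : G.St6LLLH := by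
  classical
  intro F hF h hh hub hlow
  have h6 := c6 hF.1
  set A := (G.N F).filter fun w => G.IsTw w ∧ G.d w F = 2 with hA
  have hAt : ∀ x ∈ A, ∃ y ∈ A, G.Tw x y := by
    intro x hx
    rw [hA, mem_filter] at hx
    obtain ⟨hx1, ⟨y, hy⟩, hx2⟩ := hx
    refine ⟨y, ?_, hy⟩
    rw [hA, mem_filter]
    exact ⟨par hBa hF.1 hx1 hy, ⟨x, hy.sym33⟩, (dpar hBa hF.1 hx1 hy).trans hx2⟩
  have hc : A.card ≤ 4 := by
    by_contra hc
    have h1 : A = G.N F := six_of_five (A := A) hF.1 (filter_subset _ _) hAt (by omega)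
    have h2 : ∑ w ∈ G.N F, G.d w F = 12 := by
      have h3 : ∑ w ∈ G.N F, G.d w F = ∑ _w ∈ G.N F, 2 := by
        apply sum_congr rfl
        intro w hw
        rw [← h1] at hw
        exact (mem_filter.1 hw).2.2
      rw [h3, sum_const, h6]
      rfl
    have h3 : ∑ w ∈ G.N F, G.d w F = ∑ x ∈ F, (G.Tz F x).card := by
      have h4 : ∀ w ∈ G.N F, G.d w F = ∑ x ∈ F, if x ∈ G.nb w then 1 else 0 := by
        intro w _
        rw [← card_filter]
        unfold d
        congr 1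
        ext x
        rw [mem_inter, mem_filter, and_comm]
      have h5 : ∀ x ∈ F, (G.Tz F x).card = ∑ w ∈ G.N F, if x ∈ G.nb w then 1 else 0 := by
        intro x _
        rw [← card_filter]
        unfold Tz
        congr 1
        ext w
        rw [mem_inter, mem_filter, and_comm]
        constructor
        · rintro ⟨a, b⟩
          exact ⟨a, G.sym _ _ b⟩
        · rintro ⟨a, b⟩
          exact ⟨a, G.sym _ _ b⟩
      rw [sum_congr rfl h4, sum_congr rfl h5, sum_comm]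
    have h4 : ∀ x ∈ F, G.d x F ≤ 3 := by
      intro x hx
      have h5 : G.nb x ∩ F ⊆ F.erase x := by
        intro y hy
        rw [mem_inter] at hy
        exact mem_erase.2 ⟨fun e => G.irr x (e ▸ hy.1), hy.2⟩
      have h7 := card_le_card h5
      rw [card_erase_of_mem hx, hF.2] at h7
      exact h7
    have h5 : ∀ x ∈ F.erase h, 3 ≤ (G.Tz F x).card := by
      intro x hx
      rw [mem_erase] at hx
      have h7 := hBa.deg F hF.1 x hx.2
      have h8 := h4 x hx.2
      have h9 : (G.nb x).card = 6 := hlow x hx.2 hx.1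
      omega
    have h7 : 4 ≤ (G.Tz F h).card := by
      have h7 := hBa.deg F hF.1 h hh
      have h8 := h4 h hh
      have h9 := G.deg h
      have h10 : (G.nb h).card ≠ 6 := hub.1
      omega
    have h8 : ∑ x ∈ F.erase h, 3 ≤ ∑ x ∈ F.erase h, (G.Tz F x).card := sum_le_sum h5
    rw [sum_const, card_erase_of_mem hh, hF.2] at h8
    rw [← add_sum_erase _ _ hh] at h3
    norm_num at h8
    omega
  have h1 : ∑ w ∈ G.N F, (if w ∈ A then (-2 : ℤ) else 0) ≤ ∑ w ∈ G.N F, G.gam5 F w := by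
    apply sum_le_sum
    intro w hw
    split_ifs with h2
    · exact neg2 hBa hB hF.1 hw
    · apply vnn hBa hB hF.1 hw
      intro hb
      exact h2 (mem_filter.2 ⟨hw, hb.2.1, hb.2.2.1⟩)
  have h2 : ∑ w ∈ G.N F, (if w ∈ A then (-2 : ℤ) else 0) = -2 * (A.card : ℤ) := by
    rw [← sum_filter]
    have h3 : (G.N F).filter (fun w => w ∈ A) = A := by
      ext w
      rw [mem_filter]
      exact ⟨fun h => h.2, fun h => ⟨(mem_filter.1 h).1, h⟩⟩
    rw [h3, sum_const]
    simp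
    ring
  rw [h2] at h1
  have : (A.card : ℤ) ≤ 4 := by exact_mod_cast hc
  omega

end CG

end Pool.Agent.Lib.MP_e95c01_co.N
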