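import Pool.Agent.Lib.MP_e95c01_co.X.StmtsH76
import Pool.Agent.Lib.MP_e95c01_co.X.G2_30
import Pool.Agent.Lib.MP_e95c01_co.T.F1_42
import Pool.Agent.Lib.MP_e95c01_co.T.F5_30

/-!
# H3: leaves with four vertices, a low vertex and three hubs: preparations
-/

namespace Pool.Agent.Lib.MP_e95c01_co.N

open Finset

variable {V : Type} [Fintype V] [DecidableEq V]

namespace CG

variable {G : CG V}

namespace H3h12

variable {F : Finset V} {l : V}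

/-- the situation -/
structure Cx (G : CG V) (F : Finset V) (l : V) : Prop where
  hBas : G.StLBas
  hB : G.StLB
  hCnt : G.StLCnt
  hL : G.Lf F
  c4 : F.card = 4
  lF : l ∈ F
  ll : G.Low l
  hub : ∀ z ∈ F, z ≠ l → G.Hub z

theorem qsTw (G : CG V) : G.QS G.Tw :=
  ⟨fun _ _ h => h, fun _ _ h => (stTwHL_5 G).symm _ _ h, fun _ _ h h' => absurd h h'⟩

theorem tw_nlow {v w : V} (h : G.Tw v w) : ¬ G.Low v := by
  intro h1
  have h2 := h.2.1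
  have h3 : (G.nb v).card = 6 := h1
  omega

theorem tw_symm {v w : V} (h : G.Tw v w) : G.Tw w v := (stTwHL_5 G).symm _ _ h

/-- the partner of a twin vertex outside of `nb z` is outside of `nb z` -/
theorem tw_out {v v' z : V} (hv : G.Tw v v') (hz : z ≠ v) (h1 : v ∉ G.nb z) :
    v' ∉ G.nb z := by
  intro h2
  exact h1 (G.sym _ _ (Tw_nb5 (tw_symm hv) (G.sym _ _ h2) hz))

theorem tw_in {v v' z : V} (hv : G.Tw v v') (hz : z ≠ v') (h1 : v ∈ G.nb z) :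
    v' ∈ G.nb z := G.sym _ _ (Tw_nb5 hv (G.sym _ _ h1) hz)

theorem memT {z y : V} : y ∈ G.Tz F z ↔ y ∈ G.nb z ∧ y ∈ G.N F := by
  rw [Tz, mem_inter]

theorem three_card {A : Finset V} {a b e : V} (ha : a ∈ A) (hb : b ∈ A) (he : e ∈ A)
    (h1 : a ≠ b) (h2 : a ≠ e) (h3 : b ≠ e) : 3 ≤ A.card := by
  have h4 : ({a, b, e} : Finset V) ⊆ A := by
    intro z hz
    simp only [mem_insert, mem_singleton] at hz
    rcases hz with rfl | rfl | rfl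
    · exact ha
    · exact hb
    · exact he
  have h5 := card_le_card h4
  rwa [card_insert_of_notMem, card_pair h3] at h5
  simp only [mem_insert, mem_singleton, not_or]
  exact ⟨h1, h2⟩

theorem four_card {A : Finset V} {a b e f : V} (ha : a ∈ A) (hb : b ∈ A) (he : e ∈ A) (hf : f ∈ A)
    (h1 : a ≠ b) (h2 : a ≠ e) (h3 : b ≠ e) (h4 : a ≠ f) (h5 : b ≠ f) (h6 : e ≠ f) :
    4 ≤ A.card := by
  have h7 := three_card (A := A.erase f) (mem_erase.2 ⟨h4, ha⟩) (mem_erase.2 ⟨h5, hb⟩)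
    (mem_erase.2 ⟨h6, he⟩) h1 h2 h3
  have h8 := card_erase_of_mem hf
  omega

theorem two_card {A : Finset V} {a b : V} (ha : a ∈ A) (hb : b ∈ A) (h1 : a ≠ b) :
    2 ≤ A.card := by
  have h4 : ({a, b} : Finset V) ⊆ A := by
    intro z hz
    simp only [mem_insert, mem_singleton] at hz
    rcases hz with rfl | rfl
    · exact ha
    · exact hb
  have h5 := card_le_card h4
  rwa [card_pair h1] at h5

section basic

variable (c : Cx G F l)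
include c

theorem Cx.n9 : 9 ≤ Fintype.card V := by
  have := c.hL.n12
  omega

theorem Cx.cN : (G.N F).card = 6 := c.hL.big.1.2.1

theorem Cx.low_eq {x : V} (hx : x ∈ F) (hl : G.Low x) : x = l := by
  by_contra h
  exact (c.hub x hx h).1 hl

theorem Cx.notw {x : V} (hx : x ∈ F) : ¬ G.IsTw x := by
  by_cases h : x = l
  · rintro ⟨w, hw⟩
    exact tw_nlow hw (h ▸ c.ll)
  · exact (c.hub x hx h).2

omit c in
theorem nNF {x : V} (hx : x ∈ F) : x ∉ G.N F := fun h1 => (mem_N76.1 h1).1 hx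

omit c in
theorem ne_FN {x y : V} (hx : x ∈ F) (hy : y ∈ G.N F) : x ≠ y := by
  rintro rfl
  exact nNF hx hy

theorem Cx.cX : G.d l F + (G.Tz F l).card = 6 := by
  rw [← c.hBas.deg F c.hL l c.lF]
  exact c.ll

theorem Cx.cH {h : V} (hF : h ∈ F) (hne : h ≠ l) : 7 ≤ G.d h F + (G.Tz F h).card := by
  rw [← c.hBas.deg F c.hL h hF]
  have h1 := (c.hub h hF hne).1
  have h2 := G.deg h
  have h3 : (G.nb h).card ≠ 6 := h1
  omega

theorem Cx.dF {x : V} (hx : x ∈ F) : G.d x F ≤ 3 := by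
  have h1 : G.nb x ∩ F ⊆ F.erase x := by
    intro y hy
    obtain ⟨h2, h3⟩ := mem_inter.1 hy
    refine mem_erase.2 ⟨?_, h3⟩
    rintro rfl
    exact G.irr _ h2
  have h2 := card_le_card h1
  rw [card_erase_of_mem hx, c.c4] at h2
  exact h2

theorem Cx.dF2 {x : V} (hx : x ∈ F) {y : V} (hy : y ∈ F) (hxy : y ≠ x) (hn : y ∉ G.nb x) :
    G.d x F ≤ 2 := by
  have h1 : G.nb x ∩ F ⊆ (F.erase x).erase y := by
    intro z hz
    obtain ⟨h2, h3⟩ := mem_inter.1 hz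
    refine mem_erase.2 ⟨?_, mem_erase.2 ⟨?_, h3⟩⟩
    · rintro rfl
      exact hn h2
    · rintro rfl
      exact G.irr _ h2
  have h2 := card_le_card h1
  rw [card_erase_of_mem (mem_erase.2 ⟨hxy, hy⟩), card_erase_of_mem hx, c.c4] at h2
  exact h2

theorem Cx.d4 (w : V) : G.d w F ≤ 4 := by
  have h1 : (G.nb w ∩ F).card ≤ F.card := card_le_card inter_subset_right
  rw [c.c4] at h1
  exact h1

/-- vertices of `N F` outside of `nb h` -/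
theorem Cx.miss {h : V} : (G.N F \ G.nb h).card + (G.Tz F h).card = 6 := by
  have h1 : G.N F \ G.nb h = G.N F \ G.Tz F h := by
    ext x
    rw [mem_sdiff, mem_sdiff, memT]
    tauto
  have h2 : G.Tz F h ⊆ G.N F := fun x hx => (memT.1 hx).2
  rw [h1, card_sdiff_add_card_eq_card h2, c.cN]

theorem Cx.no3 {h : V} (hF : h ∈ F) (hne : h ≠ l) {x y z : V} (hx : x ∈ G.N F) (hy : y ∈ G.N F)
    (hz : z ∈ G.N F) (h1 : x ≠ y) (h2 : x ≠ z) (h3 : y ≠ z) (kx : x ∉ G.nb h) (ky : y ∉ G.nb h)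
    (kz : z ∉ G.nb h) : False := by
  have h4 := three_card (mem_sdiff.2 ⟨hx, kx⟩) (mem_sdiff.2 ⟨hy, ky⟩) (mem_sdiff.2 ⟨hz, kz⟩)
    h1 h2 h3
  have h5 := c.miss (h := h)
  have h6 := c.cH hF hne
  have h7 := c.dF hF
  omega

theorem Cx.no2 {h : V} (hF : h ∈ F) (hne : h ≠ l) (hl : l ∉ G.nb h) {x y : V} (hx : x ∈ G.N F)
    (hy : y ∈ G.N F) (h1 : x ≠ y) (kx : x ∉ G.nb h) (ky : y ∉ G.nb h) : False := by
  have h4 := two_card (mem_sdiff.2 ⟨hx, kx⟩) (mem_sdiff.2 ⟨hy, ky⟩) h1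
  have h5 := c.miss (h := h)
  have h6 := c.cH hF hne
  have h7 := c.dF2 hF c.lF (Ne.symm hne) hl
  omega

theorem Cx.partner {v v' : V} (hv : v ∈ G.N F) (h : G.Tw v v') : v' ∈ G.N F :=
  q_N42 (qsTw G) c.hL.big.1 h hv

theorem Cx.partner_pT {v v' : V} (hv : v ∈ G.N F) (h : G.Tw v v') : v' ∈ G.pT F v :=
  mem_pT30.2 ⟨h.1, c.partner hv h⟩

omit c in
/-- twins see the same vertices of `F` -/
theorem tw_F {v v' z : V} (hv : v ∈ G.N F) (hv' : v' ∈ G.N F) (h : G.Tw v v') (hz : z ∈ F) :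
    z ∈ G.nb v ↔ z ∈ G.nb v' :=
  ⟨fun h1 => Tw_nb5 h h1 (ne_FN hz hv'), fun h1 => Tw_nb5 (tw_symm h) h1 (ne_FN hz hv)⟩

theorem Cx.tw_d {v v' : V} (hv : v ∈ G.N F) (h : G.Tw v v') : G.d v F = G.d v' F := by
  have hv' := c.partner hv h
  unfold d
  congr 1
  ext z
  rw [mem_inter, mem_inter]
  constructor
  · rintro ⟨h1, h2⟩
    exact ⟨(tw_F hv hv' h h2).1 h1, h2⟩
  · rintro ⟨h1, h2⟩
    exact ⟨(tw_F hv hv' h h2).2 h1, h2⟩

/-- two vertices of `N F` with the same two neighbours in `F` -/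
theorem Cx.two {u v x y : V} (hu : u ∈ G.N F) (hv : v ∈ G.N F) (_huv : u ≠ v)
    (hs : ∀ z ∈ F, (z ∈ G.nb u ↔ z ∈ G.nb v)) (hd : G.d u F = 2) (hx : x ∈ F) (hy : y ∈ F)
    (hxy : x ≠ y) (hxu : x ∉ G.nb u) (hyu : y ∉ G.nb u) (hxl : x ≠ l) :
    y = l ∧ l ∈ G.nb x ∧ (∀ z ∈ G.N F, z ≠ u → z ≠ v → z ∈ G.nb x) ∧
      (∀ z ∈ F, z ≠ x → z ∈ G.nb x) ∧ ∃ t ∈ G.N F, t ≠ u ∧ t ≠ v ∧ G.HL x l t := by
  have hNZ : ∀ z ∈ F, (z ∈ G.N {u, v} ↔ z ∈ G.nb u) := by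
    intro z hz
    rw [mem_N76]
    constructor
    · rintro ⟨-, w, hw, hzw⟩
      rw [mem_insert, mem_singleton] at hw
      rcases hw with rfl | rfl
      · exact hzw
      · exact (hs z hz).2 hzw
    · intro h1
      refine ⟨?_, u, mem_insert_self _ _, h1⟩
      rw [mem_insert, mem_singleton, not_or]
      exact ⟨ne_FN hz hu, ne_FN hz hv⟩
  have hNF : G.N {u, v} ∩ F = G.nb u ∩ F := by
    ext z
    rw [mem_inter, mem_inter]
    constructor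
    · rintro ⟨h1, h2⟩
      exact ⟨(hNZ z h2).1 h1, h2⟩
    · rintro ⟨h1, h2⟩
      exact ⟨(hNZ z h2).2 h1, h2⟩
  have hFZ : G.FZ F {u, v} = {x, y} := by
    symm
    refine eq_of_subset_of_card_le ?_ ?_
    · intro z hz
      rw [mem_insert, mem_singleton] at hz
      rcases hz with rfl | rfl
      · exact mem_sdiff.2 ⟨hx, fun h => hxu ((hNZ _ hx).1 h)⟩
      · exact mem_sdiff.2 ⟨hy, fun h => hyu ((hNZ _ hy).1 h)⟩
    · rw [card_pair hxy, FZ]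
      have h1 := card_inter_add_card_sdiff F (G.N {u, v})
      rw [inter_comm, hNF, c.c4] at h1
      have h2 : (G.nb u ∩ F).card = 2 := hd
      omega
  have hsub : ({u, v} : Finset V) ⊆ G.N F := by
    intro z hz
    rw [mem_insert, mem_singleton] at hz
    rcases hz with rfl | rfl
    · exact hu
    · exact hv
  have hcard : ({u, v} : Finset V).card = (G.N {u, v} ∩ F).card := by
    rw [hNF, card_pair _huv]
    exact hd.symm
  obtain ⟨k1, k2, k3, k4⟩ := c.hBas.two F c.hL {u, v} hsub ⟨u, mem_insert_self _ _⟩ hcard x y hxy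
    hFZ (c.hub x hx hxl).1
  have hyl : y = l ∧ ∃ t ∈ (G.N F \ {u, v}) ∪ (G.N {u, v} ∩ F), G.HL x y t := by
    rcases k4 with k4 | ⟨k4, k5⟩
    · exact absurd ⟨y, k4⟩ (c.hub x hx hxl).2
    · exact ⟨c.low_eq hy k4, k5⟩
  obtain ⟨rfl, t, ht, hHL⟩ := hyl
  refine ⟨rfl, k1, ?_, ?_, t, ?_⟩
  · intro z hz h1 h2
    refine k2 (mem_sdiff.2 ⟨hz, ?_⟩)
    rw [mem_insert, mem_singleton, not_or]
    exact ⟨h1, h2⟩
  · intro z hz h1
    by_cases h2 : z = y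
    · rw [h2]
      exact k1
    · refine k3 (mem_inter.2 ⟨(hNZ z hz).2 ?_, hz⟩)
      by_contra h3
      have h4 : z ∈ G.FZ F {u, v} := mem_sdiff.2 ⟨hz, fun h => h3 ((hNZ z hz).1 h)⟩
      rw [hFZ, mem_insert, mem_singleton] at h4
      rcases h4 with h4 | h4
      · exact h1 h4
      · exact h2 h4
  · have htl : G.Low t := c.hL.sat _ _ _ hHL
    rcases mem_union.1 ht with h1 | h1
    · obtain ⟨h2, h3⟩ := mem_sdiff.1 h1
      rw [mem_insert, mem_singleton, not_or] at h3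
      exact ⟨h2, h3.1, h3.2, hHL⟩
    · exfalso
      exact (HL_bt76 hHL).2 (c.low_eq (mem_inter.1 h1).2 htl)

/-! ### values -/

theorem Cx.tw_val {w w' : V} (hw : w ∈ G.N F) (h : G.Tw w w') : 2 ≤ G.d w F ∧
    G.d w F + (G.pT F w).card ≤ 5 ∧ (G.tT G.Tw F w).card + 1 = (G.pT F w).card ∧
    (G.d w F = 2 → ((G.tT G.Tw F w).card : ℤ) ≤ G.gam5 F w + 2) ∧
    (3 ≤ G.d w F → ((G.tT G.Tw F w).card : ℤ) ≤ G.gam5 F w ∧ (G.tT G.Tw F w).card ≤ 1 ∧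
      (G.pT F w).card ≤ 2) := by
  obtain ⟨h1, h2, h3, h4, h5, h6⟩ := c.hB.tw F c.hL w hw ⟨w', h⟩
  have h7 : (G.tT G.Tw F w).card + 1 = (G.pT F w).card := tT_q42 (qsTw G) c.n9 c.hL.big.1 h hw
  have h7' : ((G.tT G.Tw F w).card : ℤ) + 1 = ((G.pT F w).card : ℤ) := by exact_mod_cast h7
  refine ⟨h1, h4, h7, fun hd => ?_, fun hd => ?_⟩
  · have := h5 (by omega)
    rw [hd] at this
    push_cast at this
    linarith
  · refine ⟨?_, by omega, by omega⟩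
    rcases (by omega : G.d w F = 3 ∨ G.d w F = 4) with hd' | hd'
    · have := h5 (by omega)
      rw [hd'] at this
      push_cast at this
      linarith
    · have h8 := h6 hd'
      have h9 : (G.tT G.Tw F w).card = 0 := by omega
      rw [h9]
      push_cast
      linarith

theorem Cx.low_val {w : V} (hw : w ∈ G.N F) (h : G.Low w) : 2 ≤ G.d w F ∧
    (G.pT F w).card ≤ 3 ∧ 2 ≤ G.gam5 F w ∧ (1 ≤ (G.pT F w).card → 4 ≤ G.gam5 F w) ∧
    (3 ≤ G.d w F → (G.pT F w).card ≤ 2 ∧ 4 + 2 * ((G.pT F w).card : ℤ) ≤ G.gam5 F w ∧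
      6 ≤ G.gam5 F w) ∧
    (G.d w F = 4 → (G.pT F w).card ≤ 1) ∧
    (G.d w F = 3 → G.PairSet (G.pT F w) → 12 ≤ G.gam5 F w) ∧
    ((∀ v ∈ G.pT F w, G.IsTw v → G.d v F ≠ 2) →
      2 + 2 * ((G.pT F w).card : ℤ) ≤ G.gam5 F w) := by
  have h0 := c.hBas.pos F c.hL w hw
  have h4 := c.d4 w
  rcases (by omega : G.d w F = 2 ∨ G.d w F = 3 ∨ G.d w F = 4) with hd | hd | hd
  · obtain ⟨k1, k2, k3⟩ := c.hB.low2 F c.hL w hw h hd
    have e0 : (0 : ℤ) ≤ ((G.pT F w).card : ℤ) := Int.natCast_nonneg _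
    have e1 : (0 : ℤ) ≤ min (2 * ((G.pT F w).card : ℤ)) 2 := le_min (by linarith) (by norm_num)
    refine ⟨h0, k1, by linarith, fun e2 => ?_, fun e2 => by omega, fun e2 => by omega,
      fun e2 => by omega, fun e2 => ?_⟩
    · have e3 : (1 : ℤ) ≤ ((G.pT F w).card : ℤ) := by exact_mod_cast e2
      have e4 : (2 : ℤ) ≤ min (2 * ((G.pT F w).card : ℤ)) 2 := le_min (by linarith) le_rfl
      linarith
    · rcases k2 with k2 | ⟨-, k4, -, k5⟩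
      · exact k2
      · exfalso
        obtain ⟨p, p', hpp, he⟩ := k4
        have hp : p ∈ G.pT F w := by
          rw [he]
          exact mem_insert_self _ _
        exact e2 p hp ⟨p', hpp⟩ (k5 p hp).1
  · obtain ⟨k1, k2, k3, k4⟩ := c.hB.low3 F c.hL w hw h hd
    have e1 : ((G.pT F w).card : ℤ) ≤ 2 := by exact_mod_cast k1
    refine ⟨h0, by omega, by linarith, fun _ => by linarith, fun _ => ⟨k1, ?_, k2⟩,
      fun e2 => by omega, fun _ => k4, fun _ => by linarith⟩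
    rcases k3 with k3 | ⟨v, q, q', -, k3, -⟩
    · linarith
    · rw [k3, card_singleton]
      push_cast
      linarith
  · obtain ⟨k1, k2, -⟩ := c.hB.low4 F c.hL w hw h hd
    have e1 : ((G.pT F w).card : ℤ) ≤ 1 := by exact_mod_cast k1
    exact ⟨h0, by omega, by linarith, fun _ => by linarith,
      fun _ => ⟨by omega, by linarith, by linarith⟩, fun _ => k1, fun e2 => by omega,
      fun _ => by linarith⟩

theorem Cx.hub_val {w : V} (hw : w ∈ G.N F) (h : ¬ G.Low w) (h' : ¬ G.IsTw w) :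
    G.gam5 F w = 0 := c.hB.hub F c.hL w hw ⟨h, h'⟩

omit c in
theorem wl {w : V} (h : G.Low w) :
    G.wt3 G.Tw w * ((G.tT G.Tw F w).card : ℤ) = 2 * ((G.pT F w).card : ℤ) := by
  rw [wt3_low30 h, tT_low42 (qsTw G) F h]
  rfl

omit c in
theorem wq {w : V} (h : G.IsTw w) :
    G.wt3 G.Tw w * ((G.tT G.Tw F w).card : ℤ) = ((G.tT G.Tw F w).card : ℤ) := by
  rw [wt3_q30 (qsTw G) h, one_mul]

omit c in
theorem wh {w : V} (h : ¬ G.Low w) (h' : ¬ G.IsTw w) :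
    G.wt3 G.Tw w * ((G.tT G.Tw F w).card : ℤ) = 0 := by
  have h4 : G.wt3 G.Tw w = 0 := by
    unfold wt3
    rw [if_neg h, if_neg (show ¬ IsQ G.Tw w from h')]
  rw [h4, zero_mul]

/-! ### covers -/

/-- the covers of the edges between a hub of `F` and `N F` -/
theorem Cx.cov_h {h : V} (hF : h ∈ F) (hne : h ≠ l) {y : V} (hy : y ∈ G.N F)
    (hyh : y ∈ G.nb h) :
    (l ∈ G.nb h ∧ y ∈ G.nb l) ∨
    (∃ w ∈ G.Tz F h, G.Low w ∧ y ∈ G.nb w) ∨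
    (∃ v ∈ G.Tz F h, ∃ w ∈ G.Tz F h, G.Tw v w ∧ y ∈ G.nb v ∧ y ∈ G.nb w) ∨
    (∃ a ∈ F, G.HL a l y ∧ h ∈ G.nb l ∧ h ∈ G.nb a) ∨
    (∃ a ∈ G.Tz F h, ∃ b ∈ G.Tz F h, G.HL a b y) ∨
    (∃ a ∈ G.Tz F h, ∃ b ∈ G.N F \ G.Tz F h, G.LL a b h y) := by
  rcases c.hL.cov h hF y (mem_union_right _ hy) hyh with k | k | k | k | k
  · obtain ⟨w, hw, w1, w2, w3⟩ := k
    rcases mem_union.1 hw with h0 | h0
    · have h1 := c.low_eq h0 w1
      rw [h1] at w2 w3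
      exact Or.inl ⟨G.sym _ _ w2, w3⟩
    · exact Or.inr (Or.inl ⟨w, memT.2 ⟨G.sym _ _ w2, h0⟩, w1, w3⟩)
  · obtain ⟨v, hv, w, hw, vw, v1, w1, v2, w2⟩ := k
    have inX : ∀ {v w : V}, v ∈ F ∪ G.N F → G.Tw v w → h ∈ G.nb v → v ∈ G.Tz F h := by
      intro v w hv hvw h1
      rcases mem_union.1 hv with h0 | h0
      · exact absurd ⟨w, hvw⟩ (c.notw h0)
      · exact memT.2 ⟨G.sym _ _ h1, h0⟩
    exact Or.inr (Or.inr (Or.inl ⟨v, inX hv vw v1, w, inX hw (tw_symm vw) w1, vw, v2, w2⟩))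
  · obtain ⟨a, b, hab, b1, a1, h3⟩ := k
    rcases h3 with ⟨ha, hb⟩ | ⟨ha, hb⟩
    · have h4 := c.low_eq hb hab.2.1
      rw [h4] at hab b1
      exact Or.inr (Or.inr (Or.inr (Or.inl ⟨a, ha, hab, b1, a1⟩)))
    · exact Or.inr (Or.inr (Or.inr (Or.inr (Or.inl ⟨a, memT.2 ⟨G.sym _ _ a1, ha⟩, b,
        memT.2 ⟨G.sym _ _ b1, hb⟩, hab⟩))))
  · obtain ⟨a, b, hab, -⟩ := k
    exact absurd (c.hL.sat _ _ _ hab) (c.hub h hF hne).1
  · obtain ⟨a, b, hab, h3⟩ := k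
    rcases h3 with ⟨ha, hb⟩ | ⟨ha, hb⟩
    · exfalso
      have h4 := LL_ab76 hab
      rw [c.low_eq ha hab.1, c.low_eq hb hab.2.1] at h4
      exact G.irr _ h4
    · refine Or.inr (Or.inr (Or.inr (Or.inr (Or.inr ⟨a, memT.2 ⟨G.sym _ _ (LL_t76 hab), ha⟩, b,
        mem_sdiff.2 ⟨hb, fun h5 => ?_⟩, hab⟩))))
      exact (LL_tb76 hab).1 (G.sym _ _ (memT.1 h5).1)

/-- the covers of the edges at `l` -/
theorem Cx.cov_l {y : V} (hyl : y ∈ G.nb l) (hy : y ∈ F ∪ G.N F) :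
    (∃ w ∈ G.Tz F l, G.Low w ∧ y ∈ G.nb w) ∨
    (∃ v ∈ G.Tz F l, ∃ w ∈ G.Tz F l, G.Tw v w ∧ y ∈ G.nb v ∧ y ∈ G.nb w) ∨
    (∃ a ∈ G.Tz F l, ∃ b ∈ G.Tz F l, G.HL a b y) ∨
    (∃ a ∈ G.Tz F l, ∃ b ∈ G.N F \ G.Tz F l, G.HL a b l ∧ y ∈ G.nb b ∧ y ∈ G.nb a) ∨
    (∃ a ∈ G.Tz F l, ∃ b ∈ G.N F \ G.Tz F l, G.LL a b l y) := by
  rcases c.hL.cov l c.lF y hy hyl with k | k | k | k | k
  · obtain ⟨w, hw, w1, w2, w3⟩ := k
    refine Or.inl ⟨w, ?_, w1, w3⟩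
    rcases mem_union.1 hw with h0 | h0
    · exfalso
      rw [c.low_eq h0 w1] at w2
      exact G.irr _ w2
    · exact memT.2 ⟨G.sym _ _ w2, h0⟩
  · obtain ⟨v, hv, w, hw, vw, v1, w1, v2, w2⟩ := k
    have inX : ∀ {v w : V}, v ∈ F ∪ G.N F → G.Tw v w → l ∈ G.nb v → v ∈ G.Tz F l := by
      intro v w hv hvw h1
      rcases mem_union.1 hv with h0 | h0
      · exact absurd ⟨w, hvw⟩ (c.notw h0)
      · exact memT.2 ⟨G.sym _ _ h1, h0⟩
    exact Or.inr (Or.inl ⟨v, inX hv vw v1, w, inX hw (tw_symm vw) w1, vw, v2, w2⟩)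
  · obtain ⟨a, b, hab, b1, a1, h3⟩ := k
    rcases h3 with ⟨ha, hb⟩ | ⟨ha, hb⟩
    · exfalso
      rw [c.low_eq hb hab.2.1] at b1
      exact G.irr _ b1
    · exact Or.inr (Or.inr (Or.inl ⟨a, memT.2 ⟨G.sym _ _ a1, ha⟩, b,
        memT.2 ⟨G.sym _ _ b1, hb⟩, hab⟩))
  · obtain ⟨a, b, hab, b1, a1, h3⟩ := k
    rcases h3 with ⟨ha, hb⟩ | ⟨ha, hb⟩
    · exfalso
      exact (HL_bt76 hab).2 (c.low_eq hb hab.2.1).symm
    · refine Or.inr (Or.inr (Or.inr (Or.inl ⟨a, memT.2 ⟨G.sym _ _ (HL_t76 hab), ha⟩, b,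
        mem_sdiff.2 ⟨hb, fun h5 => ?_⟩, hab, b1, a1⟩)))
      exact (HL_bt76 hab).1 (G.sym _ _ (memT.1 h5).1)
  · obtain ⟨a, b, hab, h3⟩ := k
    have hal : l ∈ G.nb a := LL_t76 hab
    rcases h3 with ⟨ha, hb⟩ | ⟨ha, hb⟩
    · exfalso
      rw [c.low_eq ha hab.1] at hal
      exact G.irr _ hal
    · refine Or.inr (Or.inr (Or.inr (Or.inr ⟨a, memT.2 ⟨G.sym _ _ hal, ha⟩, b,
        mem_sdiff.2 ⟨hb, fun h5 => ?_⟩, hab⟩)))
      exact (LL_tb76 hab).1 (G.sym _ _ (memT.1 h5).1)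

/-- a pair of twins with at least three neighbours in `F` covers no other vertex of `N F`
together with a third one -/
theorem Cx.tw_pT {v v' y : V} (hv : v ∈ G.N F) (hvv : G.Tw v v') (hd : 3 ≤ G.d v F)
    (hy : y ∈ G.N F) (hyv : y ∈ G.nb v) (hy' : y ≠ v') : ∀ z ∈ G.pT F v, z = v' ∨ z = y := by
  intro z hz
  by_contra h
  push Not at h
  have h1 := three_card hz (c.partner_pT hv hvv) (mem_pT30.2 ⟨hyv, hy⟩) h.1 h.2 hy'.symm
  have h2 := ((c.tw_val hv hvv).2.2.2.2 hd).2.2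
  omega

/-- the edge between `l` and a twin vertex -/
theorem Cx.cov_l_tw (hP : ∀ v ∈ G.N F, G.IsTw v → v ∈ G.nb l → 3 ≤ G.d v F) {y y' : V}
    (hy : y ∈ G.Tz F l) (hyy : G.Tw y y') : ∃ w ∈ G.Tz F l, G.Low w ∧ y ∈ G.nb w := by
  obtain ⟨hyl, hyN⟩ := memT.1 hy
  have TH := stTwHL_5 G
  have hd := hP y hyN ⟨y', hyy⟩ hyl
  have hc := ((c.tw_val hyN hyy).2.2.2.2 hd).2.2
  rcases c.cov_l hyl (mem_union_right _ hyN) with k | k | k | k | k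
  · exact k
  · exfalso
    obtain ⟨v, hv, w, hw, vw, v2, w2⟩ := k
    have h3 : 3 ≤ (G.pT F y).card := by
      refine three_card (mem_pT30.2 ⟨G.sym _ _ v2, (memT.1 hv).2⟩)
        (mem_pT30.2 ⟨G.sym _ _ w2, (memT.1 hw).2⟩) (c.partner_pT hyN hyy) (ne_of_nb5 vw.1) ?_ ?_
      · rintro rfl
        have h4 := TH.uniq c.n9 _ _ _ vw (tw_symm hyy)
        rw [h4] at w2
        exact G.irr _ w2
      · rintro rfl
        have h4 := TH.uniq c.n9 _ _ _ (tw_symm vw) (tw_symm hyy)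
        rw [h4] at v2
        exact G.irr _ v2
    omega
  · exfalso
    obtain ⟨a, ha, b, hb, hab⟩ := k
    exact tw_nlow hyy (c.hL.sat _ _ _ hab)
  · exfalso
    obtain ⟨a, ha, b, hb, hab, y1, y2⟩ := k
    have h3 := three_card (mem_pT30.2 ⟨G.sym _ _ y2, (memT.1 ha).2⟩)
      (mem_pT30.2 ⟨G.sym _ _ y1, (mem_sdiff.1 hb).1⟩) (c.partner_pT hyN hyy)
      (ne_of_nb5 (HL_b76 hab)) (fun h => TH.notHL c.n9 _ _ _ hab ⟨y, h ▸ tw_symm hyy⟩)
      (fun h => tw_nlow (tw_symm hyy) (h ▸ hab.2.1))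
    omega
  · exfalso
    obtain ⟨a, ha, b, hb, hab⟩ := k
    exact (TH.twLL _ _ _ _ hab).2 ⟨_, hyy⟩

/-- the edge between a hub of `F` and a twin vertex -/
theorem Cx.cov_h_tw {h : V} (hF : h ∈ F) (hne : h ≠ l) {y y' : V} (hyN : y ∈ G.N F)
    (hyh : y ∈ G.nb h) (hyy : G.Tw y y') (hP : 3 ≤ G.d y F ∨
      ∀ v ∈ G.N F, G.IsTw v → v = y ∨ v = y') :
    (l ∈ G.nb h ∧ y ∈ G.nb l) ∨ ∃ w ∈ G.Tz F h, G.Low w ∧ y ∈ G.nb w := by
  have TH := stTwHL_5 G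
  rcases c.cov_h hF hne hyN hyh with k | k | k | k | k | k
  · exact Or.inl k
  · exact Or.inr k
  · exfalso
    obtain ⟨v, hv, w, hw, vw, v2, w2⟩ := k
    have e1 : v ≠ y' := by
      rintro rfl
      have h4 := TH.uniq c.n9 _ _ _ vw (tw_symm hyy)
      rw [h4] at w2
      exact G.irr _ w2
    rcases hP with hP | hP
    · have h3 : 3 ≤ (G.pT F y).card := by
        refine three_card (mem_pT30.2 ⟨G.sym _ _ v2, (memT.1 hv).2⟩)
          (mem_pT30.2 ⟨G.sym _ _ w2, (memT.1 hw).2⟩) (c.partner_pT hyN hyy) (ne_of_nb5 vw.1)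
          e1 ?_
        rintro rfl
        have h4 := TH.uniq c.n9 _ _ _ (tw_symm vw) (tw_symm hyy)
        rw [h4] at v2
        exact G.irr _ v2
      have hc := ((c.tw_val hyN hyy).2.2.2.2 hP).2.2
      omega
    · rcases hP v (memT.1 hv).2 ⟨w, vw⟩ with h5 | h5
      · rw [h5] at v2
        exact G.irr _ v2
      · exact e1 h5
  · exfalso
    obtain ⟨a, ha, hab, -⟩ := k
    exact tw_nlow hyy (c.hL.sat _ _ _ hab)
  · exfalso
    obtain ⟨a, ha, b, hb, hab⟩ := k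
    exact tw_nlow hyy (c.hL.sat _ _ _ hab)
  · exfalso
    obtain ⟨a, ha, b, hb, hab⟩ := k
    exact (TH.twLL _ _ _ _ hab).2 ⟨_, hyy⟩

/-- pairs with two neighbours in `F` -/
theorem Cx.pair2 {p p' : V} (hp : p ∈ G.N F) (hpp : G.Tw p p') (hd : G.d p F = 2) :
    p ∉ G.nb l ∧ ∃ h ∈ F, h ≠ l ∧ p ∉ G.nb h ∧ l ∈ G.nb h ∧
      (∀ z ∈ G.N F, z ≠ p → z ≠ p' → z ∈ G.nb h) ∧ (∀ z ∈ F, z ≠ h → z ∈ G.nb h) ∧
      (∀ z ∈ F, z ≠ h → z ≠ l → z ∈ G.nb p) ∧ ∃ t ∈ G.N F, t ≠ p ∧ t ≠ p' ∧ G.HL h l t := by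
  have hp' := c.partner hp hpp
  have h1 : (F \ G.nb p).card = 2 := by
    have h2 := card_inter_add_card_sdiff F (G.nb p)
    rw [inter_comm, c.c4] at h2
    have h3 : (G.nb p ∩ F).card = 2 := hd
    omega
  obtain ⟨x, y, hxy, he⟩ := card_eq_two.1 h1
  have hall : ∀ z ∈ F, z ≠ x → z ≠ y → z ∈ G.nb p := by
    intro z hz h2 h3
    by_contra h4
    have h5 : z ∈ F \ G.nb p := mem_sdiff.2 ⟨hz, h4⟩
    rw [he, mem_insert, mem_singleton] at h5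
    rcases h5 with h5 | h5
    · exact h2 h5
    · exact h3 h5
  have main : ∀ x y : V, x ∈ F \ G.nb p → y ∈ F \ G.nb p → x ≠ y →
      (∀ z ∈ F, z ≠ x → z ≠ y → z ∈ G.nb p) → x ≠ l →
      p ∉ G.nb l ∧ ∃ h ∈ F, h ≠ l ∧ p ∉ G.nb h ∧ l ∈ G.nb h ∧
      (∀ z ∈ G.N F, z ≠ p → z ≠ p' → z ∈ G.nb h) ∧ (∀ z ∈ F, z ≠ h → z ∈ G.nb h) ∧
      (∀ z ∈ F, z ≠ h → z ≠ l → z ∈ G.nb p) ∧ ∃ t ∈ G.N F, t ≠ p ∧ t ≠ p' ∧ G.HL h l t := by
    intro x y hx hy hxy hall hxl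
    obtain ⟨x1, x2⟩ := mem_sdiff.1 hx
    obtain ⟨y1, y2⟩ := mem_sdiff.1 hy
    obtain ⟨rfl, k1, k2, k3, k4⟩ := c.two hp hp' (ne_of_nb5 hpp.1)
      (fun z hz => tw_F hp hp' hpp hz) hd x1 y1 hxy x2 y2 hxl
    exact ⟨fun h => y2 (G.sym _ _ h), x, x1, hxl, fun h => x2 (G.sym _ _ h), k1, k2, k3, hall, k4⟩
  have hx : x ∈ F \ G.nb p := by
    rw [he]
    exact mem_insert_self _ _
  have hy : y ∈ F \ G.nb p := by
    rw [he]
    exact mem_insert_of_mem (mem_singleton_self _)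
  by_cases hxl : x = l
  · exact main y x hy hx hxy.symm (fun z hz h2 h3 => hall z hz h3 h2) (fun h => hxy (hxl.trans h.symm))
  · exact main x y hx hy hxy hall hxl

end basic

end H3h12

end CG

end Pool.Agent.Lib.MP_e95c01_co.N
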