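import Pool.Agent.Lib.MP_e95c01_co.X.H3a_12

/-!
# H3: leaves with four vertices, a low vertex with one or two neighbours in `F`
-/

namespace Pool.Agent.Lib.MP_e95c01_co.N

open Finset

variable {V : Type} [Fintype V] [DecidableEq V]

namespace CG

variable {G : CG V}

namespace H3h12

variable {F : Finset V} {l : V}

omit [Fintype V] in
theorem sum_list (f : V → ℤ) (S : Finset V) (L : List V) (hn : L.Nodup) (hs : ∀ x ∈ L, x ∈ S)
    (h0 : ∀ x ∈ S, 0 ≤ f x) : (L.map f).sum ≤ ∑ x ∈ S, f x := by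
  rw [← List.sum_toFinset f hn]
  exact sum_le_sum_of_subset_of_nonneg (fun x hx => hs x (List.mem_toFinset.1 hx))
    (fun x hx _ => h0 x hx)

/-- a vertex with exactly two neighbours in `F` -/
theorem d2_only {u a b z : V} (hd : G.d u F = 2) (ha : a ∈ F) (hau : a ∈ G.nb u) (hb : b ∈ F)
    (hbu : b ∈ G.nb u) (hab : a ≠ b) (hz : z ∈ F) (hzu : z ∈ G.nb u) : z = a ∨ z = b := by
  by_contra h
  push Not at h
  have h1 : 3 ≤ (G.nb u ∩ F).card := three_card (mem_inter.2 ⟨hzu, hz⟩) (mem_inter.2 ⟨hau, ha⟩)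
    (mem_inter.2 ⟨hbu, hb⟩) h.1 h.2 hab
  have h2 : (G.nb u ∩ F).card = 2 := hd
  omega

section

variable (c : Cx G F l)
include c

/-- the values, when every pair of twins has at least three neighbours in `F` -/
theorem Cx.val0 (hP : ∀ v ∈ G.N F, G.IsTw v → 3 ≤ G.d v F) {w : V} (hw : w ∈ G.N F) :
    (G.Low w → G.wt3 G.Tw w * ((G.tT G.Tw F w).card : ℤ) + 2 ≤ G.gam5 F w ∧
      (3 ≤ G.d w F → G.wt3 G.Tw w * ((G.tT G.Tw F w).card : ℤ) + 4 ≤ G.gam5 F w)) ∧
    (¬ G.Low w → G.wt3 G.Tw w * ((G.tT G.Tw F w).card : ℤ) ≤ G.gam5 F w) := by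
  refine ⟨fun h => ?_, fun h => ?_⟩
  · obtain ⟨-, -, -, -, k5, -, -, k8⟩ := c.low_val hw h
    rw [wl h]
    have h1 := k8 (fun v hv hvt => by
      have := hP v (mem_pT30.1 hv).2 hvt
      omega)
    exact ⟨by linarith, fun h2 => by linarith [(k5 h2).2.1]⟩
  · by_cases ht : G.IsTw w
    · rw [wq ht]
      obtain ⟨w', hww⟩ := ht
      exact ((c.tw_val hw hww).2.2.2.2 (hP w hw ⟨w', hww⟩)).1
    · rw [wh h ht, c.hub_val hw h ht]

theorem Cx.gam_nonneg (hP : ∀ v ∈ G.N F, G.IsTw v → 3 ≤ G.d v F) {w : V} (hw : w ∈ G.N F) :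
    0 ≤ G.gam5 F w := by
  have h0 : 0 ≤ G.wt3 G.Tw w * ((G.tT G.Tw F w).card : ℤ) :=
    mul_nonneg (wt3_nonneg30 w) (Int.natCast_nonneg _)
  by_cases h : G.Low w
  · have := ((c.val0 hP hw).1 h).1
    linarith
  · have := (c.val0 hP hw).2 h
    linarith

/-- the count at a hub that is not adjacent to `l` -/
theorem Cx.count {h : V} (hF : h ∈ F) (hne : h ≠ l) (hl : l ∉ G.nb h) :
    10 ≤ ∑ w ∈ G.Tz F h, G.wt3 G.Tw w * ((G.tT G.Tw F w).card : ℤ) := by
  have h1 := (c.hCnt c.hL.sat c.n9 F (G.Tz F h) (G.Tz F h) (Subset.refl _)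
    (fun x hx => (memT.1 hx).2) h (by
      intro y hy
      obtain ⟨y1, y2⟩ := memT.1 hy
      rcases c.cov_h hF hne y2 y1 with k | k | k | k | k | k
      · exact absurd k.1 hl
      · exact Or.inl k
      · exact Or.inr (Or.inl k)
      · obtain ⟨a, -, -, k, -⟩ := k
        exact absurd (G.sym _ _ k) hl
      · exact Or.inr (Or.inr (Or.inl k))
      · exact Or.inr (Or.inr (Or.inr k)))).1
  have h2 := c.cH hF hne
  have h3 := c.dF2 hF c.lF (Ne.symm hne) hl
  have h4 : (5 : ℤ) ≤ ((G.Tz F h).card : ℤ) := by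
    have : 5 ≤ (G.Tz F h).card := by omega
    exact_mod_cast this
  linarith

theorem Cx.sumh {h : V} (hF : h ∈ F) (hne : h ≠ l) (hl : l ∉ G.nb h) (e : V → ℤ)
    (he : ∀ w ∈ G.N F, (if w ∈ G.Tz F h then G.wt3 G.Tw w * ((G.tT G.Tw F w).card : ℤ) else 0) +
      e w ≤ G.gam5 F w) : 10 + ∑ w ∈ G.N F, e w ≤ ∑ w ∈ G.N F, G.gam5 F w := by
  have h1 := sum_le_sum he
  rw [sum_add_distrib, ← sum_filter] at h1
  have h2 : (G.N F).filter (fun w => w ∈ G.Tz F h) = G.Tz F h := by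
    ext x
    rw [mem_filter]
    exact ⟨fun h => h.2, fun h => ⟨(memT.1 h).2, h⟩⟩
  rw [h2] at h1
  have h3 := c.count hF hne hl
  linarith

/-- two lows at a hub that is not adjacent to `l` -/
theorem Cx.lows2 (hP : ∀ v ∈ G.N F, G.IsTw v → 3 ≤ G.d v F) {h : V} (hF : h ∈ F) (hne : h ≠ l)
    (hl : l ∉ G.nb h) : ∃ u ∈ G.Tz F h, ∃ v ∈ G.Tz F h, u ≠ v ∧ G.Low u ∧ G.Low v := by
  by_contra hno
  push Not at hno
  have h1 := c.count hF hne hl
  have htw : ∀ w ∈ G.Tz F h, G.IsTw w → ∃ u ∈ G.Tz F h, G.Low u ∧ w ∈ G.nb u := by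
    intro w hw ⟨w', hww⟩
    obtain ⟨w1, w2⟩ := memT.1 hw
    rcases c.cov_h_tw hF hne w2 w1 hww (Or.inl (hP w w2 ⟨w', hww⟩)) with k | k
    · exact absurd k.1 hl
    · exact k
  by_cases hu : ∃ u ∈ G.Tz F h, G.Low u
  · obtain ⟨u, u1, u2⟩ := hu
    have huN := (memT.1 u1).2
    have huniq : ∀ w ∈ G.Tz F h, G.Low w → w = u := by
      intro w hw hwl
      by_contra h2
      exact hno w hw u u1 h2 hwl u2
    have hp3 := (c.low_val huN u2).2.1
    have h2 : ∑ w ∈ G.Tz F h, G.wt3 G.Tw w * ((G.tT G.Tw F w).card : ℤ) ≤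
        ∑ w ∈ G.Tz F h, ((if w = u then 6 else 0) + (if w ∈ G.pT F u then 1 else 0)) := by
      refine sum_le_sum fun w hw => ?_
      have i1 : (0 : ℤ) ≤ (if w = u then 6 else 0) := by split_ifs <;> norm_num
      have i2 : (0 : ℤ) ≤ (if w ∈ G.pT F u then 1 else 0) := by split_ifs <;> norm_num
      by_cases hwl : G.Low w
      · have h3 := huniq w hw hwl
        have h4 : G.wt3 G.Tw w * ((G.tT G.Tw F w).card : ℤ) ≤ 6 := by
          rw [wl hwl, h3]
          have : ((G.pT F u).card : ℤ) ≤ 3 := by exact_mod_cast hp3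
          linarith
        rw [if_pos h3]
        linarith
      · by_cases hwt : G.IsTw w
        · obtain ⟨u', k1, k2, k3⟩ := htw w hw hwt
          rw [huniq u' k1 k2] at k3
          have h5 : w ∈ G.pT F u := mem_pT30.2 ⟨k3, (memT.1 hw).2⟩
          rw [wq hwt, if_pos h5]
          obtain ⟨w', hww⟩ := hwt
          have h6 := ((c.tw_val (memT.1 hw).2 hww).2.2.2.2 (hP w (memT.1 hw).2 ⟨w', hww⟩)).2.1
          have h7 : ((G.tT G.Tw F w).card : ℤ) ≤ 1 := by exact_mod_cast h6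
          linarith
        · rw [wh hwl hwt]
          linarith
    rw [sum_add_distrib, sum_ite_eq', if_pos u1, ← sum_filter, sum_const, nsmul_eq_mul,
      mul_one] at h2
    have h3 : ((G.Tz F h).filter (fun w => w ∈ G.pT F u)).card ≤ (G.pT F u).card :=
      card_le_card fun w hw => (mem_filter.1 hw).2
    have h4 : (((G.Tz F h).filter (fun w => w ∈ G.pT F u)).card : ℤ) ≤ 3 := by
      exact_mod_cast h3.trans hp3
    linarith
  · push Not at hu
    have h2 : ∑ w ∈ G.Tz F h, G.wt3 G.Tw w * ((G.tT G.Tw F w).card : ℤ) = 0 := by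
      refine sum_eq_zero fun w hw => ?_
      refine wh (hu w hw) fun hwt => ?_
      obtain ⟨u', k1, k2, -⟩ := htw w hw hwt
      exact hu u' k1 k2
    linarith

/-- three lows -/
theorem Cx.three (hP : ∀ v ∈ G.N F, G.IsTw v → 3 ≤ G.d v F) {h : V} (hF : h ∈ F) (hne : h ≠ l)
    (hl : l ∉ G.nb h) {u v x : V} (hu : u ∈ G.N F) (hv : v ∈ G.N F) (hx : x ∈ G.N F)
    (huv : u ≠ v) (hux : u ≠ x) (hvx : v ≠ x) (lu : G.Low u) (lv : G.Low v) (lx : G.Low x) :
    16 ≤ ∑ w ∈ G.N F, G.gam5 F w := by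
  have h1 := c.sumh hF hne hl
    (fun w => (if w = u then 2 else 0) + (if w = v then 2 else 0) + (if w = x then 2 else 0)) (by
      intro w hw
      have h0 : 0 ≤ G.wt3 G.Tw w * ((G.tT G.Tw F w).card : ℤ) :=
        mul_nonneg (wt3_nonneg30 w) (Int.natCast_nonneg _)
      have h2 : (if w ∈ G.Tz F h then G.wt3 G.Tw w * ((G.tT G.Tw F w).card : ℤ) else 0) ≤
          G.wt3 G.Tw w * ((G.tT G.Tw F w).card : ℤ) := by
        split_ifs
        · exact le_rfl
        · exact h0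
      have h3 := c.val0 hP hw
      by_cases e1 : w = u
      · have e2 : w ≠ v := fun h => huv (e1.symm.trans h)
        have e3 : w ≠ x := fun h => hux (e1.symm.trans h)
        have h4 := (h3.1 (e1 ▸ lu)).1
        simp only [if_pos e1, if_neg e2, if_neg e3]
        linarith
      · by_cases e2 : w = v
        · have e3 : w ≠ x := fun h => hvx (e2.symm.trans h)
          have h4 := (h3.1 (e2 ▸ lv)).1
          simp only [if_neg e1, if_pos e2, if_neg e3]
          linarith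
        · by_cases e3 : w = x
          · have h4 := (h3.1 (e3 ▸ lx)).1
            simp only [if_neg e1, if_neg e2, if_pos e3]
            linarith
          · simp only [if_neg e1, if_neg e2, if_neg e3]
            by_cases hl : G.Low w
            · have := (h3.1 hl).1
              linarith
            · have := h3.2 hl
              linarith)
  rw [sum_add_distrib, sum_add_distrib, sum_ite_eq', sum_ite_eq', sum_ite_eq', if_pos hu,
    if_pos hv, if_pos hx] at h1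
  linarith

/-- two lows, one of them with three neighbours in `F` -/
theorem Cx.twoBig (hP : ∀ v ∈ G.N F, G.IsTw v → 3 ≤ G.d v F) {h : V} (hF : h ∈ F) (hne : h ≠ l)
    (hl : l ∉ G.nb h) {u v : V} (hu : u ∈ G.N F) (hv : v ∈ G.N F)
    (huv : u ≠ v) (lu : G.Low u) (lv : G.Low v) (hd : 3 ≤ G.d u F) :
    16 ≤ ∑ w ∈ G.N F, G.gam5 F w := by
  have h1 := c.sumh hF hne hl
    (fun w => (if w = u then 4 else 0) + (if w = v then 2 else 0)) (by
      intro w hw
      have h0 : 0 ≤ G.wt3 G.Tw w * ((G.tT G.Tw F w).card : ℤ) :=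
        mul_nonneg (wt3_nonneg30 w) (Int.natCast_nonneg _)
      have h2 : (if w ∈ G.Tz F h then G.wt3 G.Tw w * ((G.tT G.Tw F w).card : ℤ) else 0) ≤
          G.wt3 G.Tw w * ((G.tT G.Tw F w).card : ℤ) := by
        split_ifs
        · exact le_rfl
        · exact h0
      have h3 := c.val0 hP hw
      by_cases e1 : w = u
      · have e2 : w ≠ v := fun h => huv (e1.symm.trans h)
        have h4 := (h3.1 (e1 ▸ lu)).2 (e1 ▸ hd)
        simp only [if_pos e1, if_neg e2]
        linarith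
      · by_cases e2 : w = v
        · have h4 := (h3.1 (e2 ▸ lv)).1
          simp only [if_neg e1, if_pos e2]
          linarith
        · simp only [if_neg e1, if_neg e2]
          by_cases hl : G.Low w
          · have := (h3.1 hl).1
            linarith
          · have := h3.2 hl
            linarith)
  rw [sum_add_distrib, sum_ite_eq', sum_ite_eq', if_pos hu, if_pos hv] at h1
  linarith

/-- `l` has one neighbour in `F` -/
theorem Cx.d1 (hd : G.d l F = 1) : 16 ≤ ∑ w ∈ G.N F, G.gam5 F w := by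
  have hX := c.cX
  have no2l : ∀ x ∈ G.N F, ∀ y ∈ G.N F, x ≠ y → x ∉ G.nb l → y ∉ G.nb l → False := by
    intro x hx y hy h1 kx ky
    have h4 := two_card (mem_sdiff.2 ⟨hx, kx⟩) (mem_sdiff.2 ⟨hy, ky⟩) h1
    have h5 := c.miss (h := l)
    omega
  have hP : ∀ v ∈ G.N F, G.IsTw v → 3 ≤ G.d v F := by
    rintro v hv ⟨v', hvv⟩
    by_contra h1
    have h2 := (c.tw_val hv hvv).1
    have h3 := (c.pair2 hv hvv (by omega)).1
    exact no2l v hv v' (c.partner hv hvv) (ne_of_nb5 hvv.1) h3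
      (tw_out hvv (ne_FN c.lF hv) h3)
  have h1 : ((F.erase l) \ G.nb l).card = 2 := by
    have h2 := card_inter_add_card_sdiff (F.erase l) (G.nb l)
    rw [card_erase_of_mem c.lF, c.c4] at h2
    have h3 : F.erase l ∩ G.nb l = G.nb l ∩ F := by
      ext z
      rw [mem_inter, mem_inter, mem_erase]
      constructor
      · rintro ⟨⟨-, h4⟩, h5⟩
        exact ⟨h5, h4⟩
      · rintro ⟨h5, h4⟩
        refine ⟨⟨?_, h4⟩, h5⟩
        rintro rfl
        exact G.irr _ h5
    rw [h3] at h2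
    have h4 : (G.nb l ∩ F).card = 1 := hd
    omega
  obtain ⟨h2, h3, h23, he⟩ := card_eq_two.1 h1
  have m2 : h2 ∈ (F.erase l) \ G.nb l := by
    rw [he]
    exact mem_insert_self _ _
  have m3 : h3 ∈ (F.erase l) \ G.nb l := by
    rw [he]
    exact mem_insert_of_mem (mem_singleton_self _)
  obtain ⟨m2, n2⟩ := mem_sdiff.1 m2
  obtain ⟨m3, n3⟩ := mem_sdiff.1 m3
  rw [mem_erase] at m2 m3
  have n2' : l ∉ G.nb h2 := fun h => n2 (G.sym _ _ h)
  have n3' : l ∉ G.nb h3 := fun h => n3 (G.sym _ _ h)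
  obtain ⟨u, u1, v, v1, huv, lu, lv⟩ := c.lows2 hP m2.2 m2.1 n2'
  obtain ⟨u', u1', v', v1', huv', lu', lv'⟩ := c.lows2 hP m3.2 m3.1 n3'
  by_cases hx : ∃ x ∈ G.N F, G.Low x ∧ x ≠ u ∧ x ≠ v
  · obtain ⟨x, x1, x2, x3, x4⟩ := hx
    exact c.three hP m2.2 m2.1 n2' (memT.1 u1).2 (memT.1 v1).2 x1 huv x3.symm x4.symm lu lv x2
  · push Not at hx
    have hall : ∀ x ∈ G.N F, G.Low x → x = u ∨ x = v := by
      intro x h4 h5
      by_cases h6 : x = u
      · exact Or.inl h6
      · exact Or.inr (hx x h4 h5 h6)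
    have hboth : u ∈ G.Tz F h3 ∧ v ∈ G.Tz F h3 := by
      rcases hall u' (memT.1 u1').2 lu' with h4 | h4 <;>
        rcases hall v' (memT.1 v1').2 lv' with h5 | h5
      · exact absurd (h4.trans h5.symm) huv'
      · exact ⟨h4 ▸ u1', h5 ▸ v1'⟩
      · exact ⟨h5 ▸ v1', h4 ▸ u1'⟩
      · exact absurd (h4.trans h5.symm) huv'
    have big : ∀ x, x ∈ G.Tz F h2 → x ∈ G.Tz F h3 → x ∈ G.nb l → 3 ≤ G.d x F := by
      intro x k1 k2 k3
      exact three_card (mem_inter.2 ⟨G.sym _ _ k3, c.lF⟩)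
        (mem_inter.2 ⟨G.sym _ _ (memT.1 k1).1, m2.2⟩)
        (mem_inter.2 ⟨G.sym _ _ (memT.1 k2).1, m3.2⟩) m2.1.symm m3.1.symm h23
    by_cases hul : u ∈ G.nb l
    · exact c.twoBig hP m2.2 m2.1 n2' (memT.1 u1).2 (memT.1 v1).2 huv lu lv
        (big u u1 hboth.1 hul)
    · have hvl : v ∈ G.nb l := by
        by_contra h4
        exact no2l u (memT.1 u1).2 v (memT.1 v1).2 huv hul h4
      exact c.twoBig hP m2.2 m2.1 n2' (memT.1 v1).2 (memT.1 u1).2 huv.symm lv lu
        (big v v1 hboth.2 hvl)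

end

end H3h12

end CG

end Pool.Agent.Lib.MP_e95c01_co.N
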