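import Pool.Agent.Lib.MP_e95c01_co.X.H3b_12

/-!
# H3: leaves with four vertices, a low vertex with two neighbours in `F`
-/

namespace Pool.Agent.Lib.MP_e95c01_co.N

open Finset

variable {V : Type} [Fintype V] [DecidableEq V]

namespace CG

variable {G : CG V}

namespace H3h12

variable {F : Finset V} {l : V}

section

variable (c : Cx G F l)
include c

/-- the two lows of `N F` are not adjacent to `l` -/
theorem Cx.alpha (hP : ∀ v ∈ G.N F, G.IsTw v → 3 ≤ G.d v F) (hd : G.d l F = 2)
    {u v : V} (hu : u ∈ G.N F) (hv : v ∈ G.N F) (huv : u ≠ v) (lu : G.Low u) (lv : G.Low v)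
    (hall : ∀ x ∈ G.N F, G.Low x → x = u ∨ x = v) (hul : u ∉ G.nb l) (hvl : v ∉ G.nb l) :
    16 ≤ ∑ w ∈ G.N F, G.gam5 F w := by
  have TH := stTwHL_5 G
  have hX := c.cX
  have hX4 : (G.Tz F l).card = 4 := by omega
  have hnol : ∀ x ∈ G.Tz F l, ¬ G.Low x := by
    intro x hx hxl
    obtain ⟨x1, x2⟩ := memT.1 hx
    rcases hall x x2 hxl with h | h
    · exact hul (h ▸ x1)
    · exact hvl (h ▸ x1)
  have hnot : ∀ x ∈ G.Tz F l, ¬ G.IsTw x := by
    rintro x hx ⟨x', hxx⟩
    obtain ⟨w, w1, w2, -⟩ := c.cov_l_tw (fun v h1 h2 _ => hP v h1 h2) hx hxx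
    exact hnol w w1 w2
  have key : ∀ x ∈ G.Tz F l, ∃ a ∈ G.Tz F l, ∃ b, (b = u ∨ b = v) ∧ G.HL a b l ∧
      x ∈ G.nb b ∧ x ∈ G.nb a := by
    intro x hx
    obtain ⟨x1, x2⟩ := memT.1 hx
    rcases c.cov_l x1 (mem_union_right _ x2) with k | k | k | k | k
    · obtain ⟨w, w1, w2, -⟩ := k
      exact absurd w2 (hnol w w1)
    · obtain ⟨w, w1, w', -, w2, -⟩ := k
      exact absurd ⟨w', w2⟩ (hnot w w1)
    · obtain ⟨a, -, b, b1, hab⟩ := k
      exact absurd hab.2.1 (hnol b b1)
    · obtain ⟨a, a1, b, b1, hab, h1, h2⟩ := k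
      exact ⟨a, a1, b, hall b (mem_sdiff.1 b1).1 hab.2.1, hab, h1, h2⟩
    · obtain ⟨a, a1, b, b1, hab⟩ := k
      exact absurd hab.1 (hnol a a1)
  obtain ⟨x0, hx0⟩ := card_pos.1 (show 0 < (G.Tz F l).card by omega)
  obtain ⟨a, a1, b, b1, hab, -, -⟩ := key x0 hx0
  obtain ⟨a', a1', b', b1', hab', e1, e2⟩ := key a a1
  have hbb : b' ≠ b := by
    rintro rfl
    have h1 := TH.one c.n9 _ _ _ _ hab hab'
    rw [h1] at e2
    exact G.irr _ e2
  obtain ⟨a'', a1'', b'', b1'', hab'', e3, e4⟩ := key a' a1'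
  have hbb' : b'' ≠ b' := by
    rintro rfl
    have h1 := TH.one c.n9 _ _ _ _ hab' hab''
    rw [h1] at e4
    exact G.irr _ e4
  have hb'' : b'' = b := by
    rcases b1 with h1 | h1 <;> rcases b1' with h2 | h2 <;> rcases b1'' with h3 | h3
    · exact h3.trans h1.symm
    · exact absurd (h2.trans h1.symm) hbb
    · exact h3.trans h1.symm
    · exact absurd (h3.trans h2.symm) hbb'
    · exact absurd (h3.trans h2.symm) hbb'
    · exact h3.trans h1.symm
    · exact absurd (h2.trans h1.symm) hbb
    · exact h3.trans h1.symm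
  rw [hb''] at e3
  have haa : a ≠ a' := by
    rintro rfl
    exact G.irr _ e2
  have haN := (memT.1 a1).2
  have haN' := (memT.1 a1').2
  have hset : b = u ∧ b' = v ∨ b = v ∧ b' = u := by
    rcases b1 with h1 | h1 <;> rcases b1' with h2 | h2
    · exact absurd (h2.trans h1.symm) hbb
    · exact Or.inl ⟨h1, h2⟩
    · exact Or.inr ⟨h1, h2⟩
    · exact absurd (h2.trans h1.symm) hbb
  have hbN : b ∈ G.N F := by
    rcases b1 with h | h
    · exact h ▸ hu
    · exact h ▸ hv
  have hbN' : b' ∈ G.N F := by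
    rcases b1' with h | h
    · exact h ▸ hu
    · exact h ▸ hv
  have c1 : 2 ≤ (G.pT F b ∩ G.pT F b').card := by
    refine two_card (mem_inter.2 ⟨mem_pT30.2 ⟨G.sym _ _ (HL_b76 hab), haN⟩,
      mem_pT30.2 ⟨e1, haN⟩⟩) (mem_inter.2 ⟨mem_pT30.2 ⟨e3, haN'⟩,
      mem_pT30.2 ⟨G.sym _ _ (HL_b76 hab'), haN'⟩⟩) haa
  have c2 : 4 ≤ (G.pT F b ∪ G.pT F b').card := by
    rw [← hX4]
    refine card_le_card fun x hx => ?_
    obtain ⟨-, -, y, y1, -, y2, -⟩ := key x hx
    have h1 : y = b ∨ y = b' := by
      rcases hset with ⟨k1, k2⟩ | ⟨k1, k2⟩ <;> rcases y1 with y1 | y1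
      · exact Or.inl (y1.trans k1.symm)
      · exact Or.inr (y1.trans k2.symm)
      · exact Or.inr (y1.trans k2.symm)
      · exact Or.inl (y1.trans k1.symm)
    rcases h1 with rfl | rfl
    · exact mem_union_left _ (mem_pT30.2 ⟨y2, (memT.1 hx).2⟩)
    · exact mem_union_right _ (mem_pT30.2 ⟨y2, (memT.1 hx).2⟩)
  have c3 := card_union_add_card_inter (G.pT F b) (G.pT F b')
  have c4 : (6 : ℤ) ≤ ((G.pT F b).card : ℤ) + ((G.pT F b').card : ℤ) := by
    have : 6 ≤ (G.pT F b).card + (G.pT F b').card := by omega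
    exact_mod_cast this
  have hgood : ∀ w, w ∈ G.N F → G.Low w → 2 + 2 * ((G.pT F w).card : ℤ) ≤ G.gam5 F w := by
    intro w h1 h2
    refine (c.low_val h1 h2).2.2.2.2.2.2.2 fun x hx hxt => ?_
    have := hP x (mem_pT30.1 hx).2 hxt
    omega
  have g1 := hgood b hbN hab.2.1
  have g2 := hgood b' hbN' hab'.2.1
  have g3 := sum_list (fun w => G.gam5 F w) (G.N F) [b, b'] (by simp [hbb.symm])
    (by simp [hbN, hbN']) (fun x hx => c.gam_nonneg hP hx)
  simp only [List.map_cons, List.map_nil, List.sum_cons, List.sum_nil, add_zero] at g3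
  linarith

/-- one of the two lows of `N F` is adjacent to `l` -/
theorem Cx.gamma (hP : ∀ v ∈ G.N F, G.IsTw v → 3 ≤ G.d v F) (hd : G.d l F = 2)
    {h u v : V} (hF : h ∈ F) (hne : h ≠ l) (hl : l ∉ G.nb h)
    (hu : u ∈ G.Tz F h) (hv : v ∈ G.Tz F h) (huv : u ≠ v) (lu : G.Low u) (lv : G.Low v)
    (hall : ∀ x ∈ G.N F, G.Low x → x = u ∨ x = v) (hul : u ∈ G.nb l) (hvl : v ∉ G.nb l)
    (du : G.d u F = 2) (dv : G.d v F = 2) :
    16 ≤ ∑ w ∈ G.N F, G.gam5 F w := by
  have TH := stTwHL_5 G
  obtain ⟨hu1, huN⟩ := memT.1 hu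
  obtain ⟨hv1, hvN⟩ := memT.1 hv
  have hval : ∀ w, w ∈ G.N F → G.Low w → 2 + 2 * ((G.pT F w).card : ℤ) ≤ G.gam5 F w := by
    intro w h1 h2
    refine (c.low_val h1 h2).2.2.2.2.2.2.2 fun x hx hxt => ?_
    have := hP x (mem_pT30.1 hx).2 hxt
    omega
  -- the neighbours of `l` in `F`
  have hlF : ∀ z ∈ F, z ≠ l → z ≠ h → z ∈ G.nb l := by
    have h1 : G.nb l ∩ F = (F.erase l).erase h := by
      refine eq_of_subset_of_card_le ?_ ?_
      · intro z hz
        obtain ⟨z1, z2⟩ := mem_inter.1 hz
        refine mem_erase.2 ⟨?_, mem_erase.2 ⟨?_, z2⟩⟩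
        · rintro rfl
          exact hl (G.sym _ _ z1)
        · rintro rfl
          exact G.irr _ z1
      · rw [card_erase_of_mem (mem_erase.2 ⟨hne, hF⟩), card_erase_of_mem c.lF, c.c4]
        exact hd.symm.le
    intro z z1 z2 z3
    have h2 : z ∈ G.nb l ∩ F := by
      rw [h1]
      exact mem_erase.2 ⟨z3, mem_erase.2 ⟨z2, z1⟩⟩
    exact (mem_inter.1 h2).1
  -- the second neighbour of `v` in `F` and the fourth vertex
  obtain ⟨g, g1, g2, g3⟩ : ∃ g ∈ F, g ∈ G.nb v ∧ g ≠ h := by
    by_contra h0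
    push Not at h0
    have h1 : G.nb v ∩ F ⊆ {h} := by
      intro z hz
      obtain ⟨z1, z2⟩ := mem_inter.1 hz
      exact mem_singleton.2 (h0 z z2 z1)
    have h2 := card_le_card h1
    rw [card_singleton] at h2
    have h3 : (G.nb v ∩ F).card = 2 := dv
    omega
  have gl : g ≠ l := by
    rintro rfl
    exact hvl (G.sym _ _ g2)
  obtain ⟨k, k1, kl, kh, kg⟩ : ∃ k ∈ F, k ≠ l ∧ k ≠ h ∧ k ≠ g := by
    have h1 : 0 < (((F.erase l).erase h).erase g).card := by
      rw [card_erase_of_mem (mem_erase.2 ⟨g3, mem_erase.2 ⟨gl, g1⟩⟩),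
        card_erase_of_mem (mem_erase.2 ⟨hne, hF⟩), card_erase_of_mem c.lF, c.c4]
      norm_num
    obtain ⟨k, hk⟩ := card_pos.1 h1
    rw [mem_erase, mem_erase, mem_erase] at hk
    exact ⟨k, hk.2.2.2, hk.2.2.1, hk.2.1, hk.1⟩
  have ku : k ∉ G.nb u := by
    intro h1
    rcases d2_only du c.lF (G.sym _ _ hul) hF (G.sym _ _ hu1) (Ne.symm hne) k1 h1 with h2 | h2
    · exact kl h2
    · exact kh h2
  have kv : k ∉ G.nb v := by
    intro h1
    rcases d2_only dv hF (G.sym _ _ hv1) g1 g2 (Ne.symm g3) k1 h1 with h2 | h2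
    · exact kh h2
    · exact kg h2
  -- the pair that covers `l k`
  obtain ⟨p, hp, p', hp', hpp, kp⟩ : ∃ p ∈ G.Tz F l, ∃ p' ∈ G.Tz F l, G.Tw p p' ∧
      k ∈ G.nb p := by
    rcases c.cov_l (hlF k k1 kl kh) (mem_union_left _ k1) with j | j | j | j | j
    · exfalso
      obtain ⟨w, w1, w2, w3⟩ := j
      rcases hall w (memT.1 w1).2 w2 with h1 | h1
      · exact ku (h1 ▸ w3)
      · exact kv (h1 ▸ w3)
    · obtain ⟨p, p1, p', p1', h1, h2, -⟩ := j
      exact ⟨p, p1, p', p1', h1, h2⟩
    · exfalso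
      obtain ⟨a, -, b, -, hab⟩ := j
      exact (c.hub k k1 kl).1 (c.hL.sat _ _ _ hab)
    · exfalso
      obtain ⟨a, -, b, b1, hab, h1, -⟩ := j
      rcases hall b (mem_sdiff.1 b1).1 hab.2.1 with h2 | h2
      · exact ku (h2 ▸ h1)
      · exact kv (h2 ▸ h1)
    · exfalso
      obtain ⟨a, -, b, b1, hab⟩ := j
      rcases hall b (mem_sdiff.1 b1).1 hab.2.1 with h2 | h2
      · exact ku (h2 ▸ LL_u76 hab)
      · exact kv (h2 ▸ LL_u76 hab)
  have hpN := (memT.1 hp).2
  have hpN' := (memT.1 hp').2
  have hppne := ne_of_nb5 hpp.1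
  have hpu : p ∈ G.nb u := by
    obtain ⟨w, w1, w2, w3⟩ := c.cov_l_tw (fun v h1 h2 _ => hP v h1 h2) hp hpp
    rcases hall w (memT.1 w1).2 w2 with h1 | h1
    · exact h1 ▸ w3
    · exact absurd (h1 ▸ (memT.1 w1).1) hvl
  have hup : u ∈ G.nb p := G.sym _ _ hpu
  have hup' : u ≠ p' := fun h0 => tw_nlow (tw_symm hpp) (h0 ▸ lu)
  have hup0 : u ≠ p := fun h0 => tw_nlow hpp (h0 ▸ lu)
  have hvp' : v ≠ p' := fun h0 => tw_nlow (tw_symm hpp) (h0 ▸ lv)
  have hvp0 : v ≠ p := fun h0 => tw_nlow hpp (h0 ▸ lv)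
  have hpu' : p' ∈ G.nb u := tw_in hpp hup' hpu
  have dp := hP p hpN ⟨p', hpp⟩
  have dp' := hP p' hpN' ⟨p, tw_symm hpp⟩
  have hpT : ∀ z ∈ G.pT F p, z = p' ∨ z = u := c.tw_pT hpN hpp dp huN hup hup'
  have hpT' : ∀ z ∈ G.pT F p', z = p ∨ z = u :=
    c.tw_pT hpN' (tw_symm hpp) dp' huN (G.sym _ _ hpu') hup0
  have gtw : ∀ {q q' x : V}, q ∈ G.N F → G.Tw q q' → x ∈ G.N F → x ∈ G.nb q → x ≠ q' →
      1 ≤ G.gam5 F q := by
    intro q q' x h1 h2 h3 h4 h5
    obtain ⟨-, -, k1, -, k2⟩ := c.tw_val h1 h2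
    have h6 := two_card (c.partner_pT h1 h2) (mem_pT30.2 ⟨h4, h3⟩) (Ne.symm h5)
    have h7 := (k2 (hP q h1 ⟨q', h2⟩)).1
    have h8 : (1 : ℤ) ≤ ((G.tT G.Tw F q).card : ℤ) := by
      have : 1 ≤ (G.tT G.Tw F q).card := by omega
      exact_mod_cast this
    linarith
  have gp := gtw hpN hpp huN hup hup'
  have gp' := gtw hpN' (tw_symm hpp) huN (G.sym _ _ hpu') hup0
  by_cases hph : p ∈ G.nb h
  · by_cases huv' : v ∈ G.nb u
    · -- `v` adjacent to `u`
      have huT : ∀ z ∈ G.pT F u, z = p ∨ z = p' ∨ z = v := by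
        intro z hz
        by_contra h0
        push Not at h0
        have h1 := four_card hz (mem_pT30.2 ⟨hpu, hpN⟩) (mem_pT30.2 ⟨hpu', hpN'⟩)
          (mem_pT30.2 ⟨huv', hvN⟩) h0.1 h0.2.1 hppne h0.2.2 (Ne.symm hvp0) (Ne.symm hvp')
        have h2 := (c.low_val huN lu).2.1
        omega
      by_cases hvy : ∃ y ∈ G.N F, y ∈ G.nb v ∧ y ≠ u
      · obtain ⟨y, y1, y2, y3⟩ := hvy
        have e1 := hval u huN lu
        have e2 := hval v hvN lv
        have e3 : (3 : ℤ) ≤ ((G.pT F u).card : ℤ) := by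
          exact_mod_cast three_card (mem_pT30.2 ⟨hpu, hpN⟩) (mem_pT30.2 ⟨hpu', hpN'⟩)
            (mem_pT30.2 ⟨huv', hvN⟩) hppne (Ne.symm hvp0) (Ne.symm hvp')
        have e4 : (2 : ℤ) ≤ ((G.pT F v).card : ℤ) := by
          exact_mod_cast two_card (mem_pT30.2 ⟨y2, y1⟩) (mem_pT30.2 ⟨G.sym _ _ huv', huN⟩) y3
        have g3 := sum_list (fun w => G.gam5 F w) (G.N F) [u, v, p, p']
          (by simp [huv, hup0, hup', hvp0, hvp', hppne])
          (by simp [huN, hvN, hpN, hpN']) (fun x hx => c.gam_nonneg hP hx)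
        simp only [List.map_cons, List.map_nil, List.sum_cons, List.sum_nil, add_zero] at g3
        linarith
      · exfalso
        push Not at hvy
        obtain ⟨y, hy, yu, yv, yp, yp'⟩ : ∃ y ∈ G.Tz F h, y ≠ u ∧ y ≠ v ∧ y ≠ p ∧ y ≠ p' := by
          have h1 := c.cH hF hne
          have h2 := c.dF2 hF c.lF (Ne.symm hne) hl
          have h3 : 0 < (G.Tz F h \ {u, v, p, p'}).card := by
            have h4 : ({u, v, p, p'} : Finset V).card ≤ 4 := card_le_four
            have h5 := le_card_sdiff ({u, v, p, p'} : Finset V) (G.Tz F h)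
            omega
          obtain ⟨y, hy⟩ := card_pos.1 h3
          obtain ⟨y1, y2⟩ := mem_sdiff.1 hy
          simp only [mem_insert, mem_singleton, not_or] at y2
          exact ⟨y, y1, y2.1, y2.2.1, y2.2.2.1, y2.2.2.2⟩
        obtain ⟨y1, yN⟩ := memT.1 hy
        have ynl : ¬ G.Low y := by
          intro h0
          rcases hall y yN h0 with h1 | h1
          · exact yu h1
          · exact yv h1
        rcases c.cov_h hF hne yN y1 with j | j | j | j | j | j
        · exact hl j.1
        · obtain ⟨w, w1, w2, w3⟩ := j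
          rcases hall w (memT.1 w1).2 w2 with h1 | h1
          · rw [h1] at w3
            rcases huT y (mem_pT30.2 ⟨w3, yN⟩) with h2 | h2 | h2
            · exact yp h2
            · exact yp' h2
            · exact yv h2
          · rw [h1] at w3
            exact yu (hvy y yN w3)
        · obtain ⟨a, a1, b, b1, hab, a2, b2⟩ := j
          have aN := (memT.1 a1).2
          have bN := (memT.1 b1).2
          have ap : a ≠ p := by
            rintro rfl
            rcases hpT y (mem_pT30.2 ⟨a2, yN⟩) with h2 | h2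
            · exact yp' h2
            · exact yu h2
          have ap' : a ≠ p' := by
            rintro rfl
            rcases hpT' y (mem_pT30.2 ⟨a2, yN⟩) with h2 | h2
            · exact yp h2
            · exact yu h2
          have bp : b ≠ p := by
            rintro rfl
            rcases hpT y (mem_pT30.2 ⟨b2, yN⟩) with h2 | h2
            · exact yp' h2
            · exact yu h2
          have bp' : b ≠ p' := by
            rintro rfl
            rcases hpT' y (mem_pT30.2 ⟨b2, yN⟩) with h2 | h2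
            · exact yp h2
            · exact yu h2
          have au : a ≠ u := fun h0 => tw_nlow hab (h0 ▸ lu)
          have av : a ≠ v := fun h0 => tw_nlow hab (h0 ▸ lv)
          have bu : b ≠ u := fun h0 => tw_nlow (tw_symm hab) (h0 ▸ lu)
          have bv : b ≠ v := fun h0 => tw_nlow (tw_symm hab) (h0 ▸ lv)
          have abn := ne_of_nb5 hab.1
          have ya : y ≠ a := (ne_of_nb5 a2).symm
          have yb : y ≠ b := (ne_of_nb5 b2).symm
          have h1 : ([u, v, p, p', a, b, y] : List V).toFinset ⊆ G.N F := by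
            intro z hz
            simp only [List.mem_toFinset, List.mem_cons, List.not_mem_nil, or_false] at hz
            rcases hz with rfl | rfl | rfl | rfl | rfl | rfl | rfl
            · exact huN
            · exact hvN
            · exact hpN
            · exact hpN'
            · exact aN
            · exact bN
            · exact yN
          have h2 := card_le_card h1
          rw [List.toFinset_card_of_nodup (by
            simp [huv, hup0, hup', hvp0, hvp', hppne, au.symm, av.symm, bu.symm, bv.symm, yu.symm,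
              yv.symm, ap.symm, ap'.symm, bp.symm, bp'.symm, yp.symm, yp'.symm, abn, ya.symm,
              yb.symm]), c.cN] at h2
          simp at h2
        · obtain ⟨a, -, -, a1, -⟩ := j
          exact hl (G.sym _ _ a1)
        · obtain ⟨a, -, b, -, hab⟩ := j
          exact ynl (c.hL.sat _ _ _ hab)
        · obtain ⟨a, -, b, b1, hab⟩ := j
          obtain ⟨b2, b3⟩ := mem_sdiff.1 b1
          rcases hall b b2 hab.2.1 with h1 | h1
          · exact b3 (h1 ▸ hu)
          · exact b3 (h1 ▸ hv)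
    · -- `v` not adjacent to `u`
      have hvp : v ∉ G.nb p := by
        intro h0
        rcases hpT v (mem_pT30.2 ⟨h0, hvN⟩) with h1 | h1
        · exact hvp' h1
        · exact huv h1.symm
      have hvpp : v ∉ G.nb p' := by
        intro h0
        rcases hpT' v (mem_pT30.2 ⟨h0, hvN⟩) with h1 | h1
        · exact hvp0 h1
        · exact huv h1.symm
      rcases c.cov_h hF hne hvN hv1 with j | j | j | j | j | j
      · exact absurd j.1 hl
      · exfalso
        obtain ⟨w, w1, w2, w3⟩ := j
        rcases hall w (memT.1 w1).2 w2 with h1 | h1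
        · exact huv' (h1 ▸ w3)
        · exact G.irr _ (h1 ▸ w3)
      · obtain ⟨a, a1, b, b1, hab, a2, b2⟩ := j
        have aN := (memT.1 a1).2
        have bN := (memT.1 b1).2
        have ap : a ≠ p := fun h0 => hvp (h0 ▸ a2)
        have ap' : a ≠ p' := fun h0 => hvpp (h0 ▸ a2)
        have bp : b ≠ p := fun h0 => hvp (h0 ▸ b2)
        have bp' : b ≠ p' := fun h0 => hvpp (h0 ▸ b2)
        have au : a ≠ u := fun h0 => tw_nlow hab (h0 ▸ lu)
        have av : a ≠ v := fun h0 => tw_nlow hab (h0 ▸ lv)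
        have bu : b ≠ u := fun h0 => tw_nlow (tw_symm hab) (h0 ▸ lu)
        have bv : b ≠ v := fun h0 => tw_nlow (tw_symm hab) (h0 ▸ lv)
        have abn := ne_of_nb5 hab.1
        have ga := gtw aN hab hvN a2 (Ne.symm bv)
        have gb := gtw bN (tw_symm hab) hvN b2 (Ne.symm av)
        have e1 := hval u huN lu
        have e2 := hval v hvN lv
        have e3 : (2 : ℤ) ≤ ((G.pT F u).card : ℤ) := by
          exact_mod_cast two_card (mem_pT30.2 ⟨hpu, hpN⟩) (mem_pT30.2 ⟨hpu', hpN'⟩) hppne
        have e4 : (2 : ℤ) ≤ ((G.pT F v).card : ℤ) := by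
          exact_mod_cast two_card (mem_pT30.2 ⟨G.sym _ _ a2, aN⟩) (mem_pT30.2 ⟨G.sym _ _ b2, bN⟩)
            abn
        have g3 := sum_list (fun w => G.gam5 F w) (G.N F) [u, v, p, p', a, b]
          (by simp [huv, hup0, hup', hvp0, hvp', hppne, au.symm, av.symm, bu.symm, bv.symm,
            ap.symm, ap'.symm, bp.symm, bp'.symm, abn])
          (by simp [huN, hvN, hpN, hpN', aN, bN]) (fun x hx => c.gam_nonneg hP hx)
        simp only [List.map_cons, List.map_nil, List.sum_cons, List.sum_nil, add_zero] at g3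
        linarith
      · obtain ⟨a, -, -, a1, -⟩ := j
        exact absurd (G.sym _ _ a1) hl
      · exfalso
        obtain ⟨a, a1, b, b1, hab⟩ := j
        have aN := (memT.1 a1).2
        have hb : b = u := by
          rcases hall b (memT.1 b1).2 hab.2.1 with h1 | h1
          · exact h1
          · exact absurd h1.symm (HL_bt76 hab).2
        rw [hb] at hab
        have ka : k ∉ G.nb a := by
          intro h0
          rcases HL_sup76 hab h0 (ne_FN k1 hvN) with h1 | h1
          · exact ne_FN k1 huN h1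
          · exact ku h1
        exact c.no3 k1 kl huN hvN aN huv (ne_of_nb5 (HL_b76 hab)).symm
          (ne_of_nb5 (HL_t76 hab)).symm (fun h0 => ku (G.sym _ _ h0)) (fun h0 => kv (G.sym _ _ h0))
          (fun h0 => ka (G.sym _ _ h0))
      · exfalso
        obtain ⟨a, -, b, b1, hab⟩ := j
        obtain ⟨b2, b3⟩ := mem_sdiff.1 b1
        rcases hall b b2 hab.2.1 with h1 | h1
        · exact b3 (h1 ▸ hu)
        · exact b3 (h1 ▸ hv)
  · -- the pair is not adjacent to `h`
    have hph' : p' ∉ G.nb h := tw_out hpp (ne_FN hF hpN) hph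
    have h1 := c.sumh hF hne hl
      (fun w => (if w = u then 2 else 0) + (if w = v then 2 else 0) + (if w = p then 1 else 0) +
        (if w = p' then 1 else 0)) (by
        intro w hw
        have h0 : 0 ≤ G.wt3 G.Tw w * ((G.tT G.Tw F w).card : ℤ) :=
          mul_nonneg (wt3_nonneg30 w) (Int.natCast_nonneg _)
        have h2 : (if w ∈ G.Tz F h then G.wt3 G.Tw w * ((G.tT G.Tw F w).card : ℤ) else 0) ≤
            G.wt3 G.Tw w * ((G.tT G.Tw F w).card : ℤ) := by
          split_ifs
          · exact le_rfl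
          · exact h0
        have h3 := c.val0 hP hw
        by_cases e1 : w = u
        · have e2 : w ≠ v := fun h => huv (e1.symm.trans h)
          have e3 : w ≠ p := fun h => hup0 (e1.symm.trans h)
          have e4 : w ≠ p' := fun h => hup' (e1.symm.trans h)
          have h4 := (h3.1 (e1 ▸ lu)).1
          simp only [if_pos e1, if_neg e2, if_neg e3, if_neg e4]
          linarith
        · by_cases e2 : w = v
          · have e3 : w ≠ p := fun h => hvp0 (e2.symm.trans h)
            have e4 : w ≠ p' := fun h => hvp' (e2.symm.trans h)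
            have h4 := (h3.1 (e2 ▸ lv)).1
            simp only [if_neg e1, if_pos e2, if_neg e3, if_neg e4]
            linarith
          · by_cases e3 : w = p
            · have e4 : w ≠ p' := fun h => hppne (e3.symm.trans h)
              have h5 : w ∉ G.Tz F h := fun h6 => hph (e3 ▸ (memT.1 h6).1)
              have h6 : 1 ≤ G.gam5 F w := by
                rw [e3]
                exact gp
              simp only [if_neg e1, if_neg e2, if_pos e3, if_neg e4, if_neg h5]
              linarith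
            · by_cases e4 : w = p'
              · have h5 : w ∉ G.Tz F h := fun h6 => hph' (e4 ▸ (memT.1 h6).1)
                have h6 : 1 ≤ G.gam5 F w := by
                  rw [e4]
                  exact gp'
                simp only [if_neg e1, if_neg e2, if_neg e3, if_pos e4, if_neg h5]
                linarith
              · simp only [if_neg e1, if_neg e2, if_neg e3, if_neg e4]
                by_cases hl : G.Low w
                · have := (h3.1 hl).1
                  linarith
                · have := h3.2 hl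
                  linarith)
    rw [sum_add_distrib, sum_add_distrib, sum_add_distrib, sum_ite_eq', sum_ite_eq', sum_ite_eq',
      sum_ite_eq', if_pos huN, if_pos hvN, if_pos hpN, if_pos hpN'] at h1
    linarith

/-- `l` has two neighbours in `F` -/
theorem Cx.d2 (hd : G.d l F = 2) : 16 ≤ ∑ w ∈ G.N F, G.gam5 F w := by
  -- the hub that is not adjacent to `l`
  obtain ⟨h, hF, hne, hl⟩ : ∃ h ∈ F, h ≠ l ∧ l ∉ G.nb h := by
    by_contra h0
    push Not at h0
    have h1 : F.erase l ⊆ G.nb l ∩ F := by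
      intro z hz
      obtain ⟨z1, z2⟩ := mem_erase.1 hz
      exact mem_inter.2 ⟨G.sym _ _ (h0 z z2 z1), z2⟩
    have h2 := card_le_card h1
    rw [card_erase_of_mem c.lF, c.c4] at h2
    have h3 : (G.nb l ∩ F).card = 2 := hd
    omega
  have hP : ∀ v ∈ G.N F, G.IsTw v → 3 ≤ G.d v F := by
    rintro v hv ⟨v', hvv⟩
    by_contra h1
    have h2 := (c.tw_val hv hvv).1
    obtain ⟨-, k, k1, k2, -, k3, -, k4, -, t, t1, -, -, k5⟩ := c.pair2 hv hvv (by omega)
    have hkh : h ≠ k := by
      rintro rfl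
      exact hl k3
    rcases HL_sup76 k5 (k4 h hF hkh) (ne_FN hF t1) with h3 | h3
    · exact hne h3
    · exact hl (G.sym _ _ h3)
  obtain ⟨u, u1, v, v1, huv, lu, lv⟩ := c.lows2 hP hF hne hl
  have huN := (memT.1 u1).2
  have hvN := (memT.1 v1).2
  by_cases hx : ∃ x ∈ G.N F, G.Low x ∧ x ≠ u ∧ x ≠ v
  · obtain ⟨x, x1, x2, x3, x4⟩ := hx
    exact c.three hP hF hne hl huN hvN x1 huv x3.symm x4.symm lu lv x2
  · push Not at hx
    have hall : ∀ x ∈ G.N F, G.Low x → x = u ∨ x = v := by
      intro x h4 h5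
      by_cases h6 : x = u
      · exact Or.inl h6
      · exact Or.inr (hx x h4 h5 h6)
    by_cases hdu : 3 ≤ G.d u F
    · exact c.twoBig hP hF hne hl huN hvN huv lu lv hdu
    · by_cases hdv : 3 ≤ G.d v F
      · exact c.twoBig hP hF hne hl hvN huN huv.symm lv lu hdv
      · have du : G.d u F = 2 := by
          have := (c.low_val huN lu).1
          omega
        have dv : G.d v F = 2 := by
          have := (c.low_val hvN lv).1
          omega
        by_cases hul : u ∈ G.nb l
        · by_cases hvl : v ∈ G.nb l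
          · exfalso
            have hsame : ∀ z ∈ F, (z ∈ G.nb u ↔ z ∈ G.nb v) := by
              intro z hz
              constructor
              · intro h1
                rcases d2_only du c.lF (G.sym _ _ hul) hF (G.sym _ _ (memT.1 u1).1)
                  (Ne.symm hne) hz h1 with h2 | h2
                · exact h2 ▸ G.sym _ _ hvl
                · exact h2 ▸ G.sym _ _ (memT.1 v1).1
              · intro h1
                rcases d2_only dv c.lF (G.sym _ _ hvl) hF (G.sym _ _ (memT.1 v1).1)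
                  (Ne.symm hne) hz h1 with h2 | h2
                · exact h2 ▸ G.sym _ _ hul
                · exact h2 ▸ G.sym _ _ (memT.1 u1).1
            have h1 : (F \ G.nb u).card = 2 := by
              have h2 := card_inter_add_card_sdiff F (G.nb u)
              rw [inter_comm, c.c4] at h2
              have h3 : (G.nb u ∩ F).card = 2 := du
              omega
            obtain ⟨x, y, hxy, he⟩ := card_eq_two.1 h1
            have hx : x ∈ F \ G.nb u := by
              rw [he]
              exact mem_insert_self _ _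
            have hy : y ∈ F \ G.nb u := by
              rw [he]
              exact mem_insert_of_mem (mem_singleton_self _)
            obtain ⟨x1, x2⟩ := mem_sdiff.1 hx
            obtain ⟨y1, y2⟩ := mem_sdiff.1 hy
            have xl : x ≠ l := by
              rintro rfl
              exact x2 (G.sym _ _ hul)
            obtain ⟨rfl, -⟩ := c.two huN hvN huv hsame du x1 y1 hxy x2 y2 xl
            exact y2 (G.sym _ _ hul)
          · exact c.gamma hP hd hF hne hl u1 v1 huv lu lv hall hul hvl du dv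
        · by_cases hvl : v ∈ G.nb l
          · exact c.gamma hP hd hF hne hl v1 u1 huv.symm lv lu
              (fun x h1 h2 => (hall x h1 h2).symm) hvl hul dv du
          · exact c.alpha hP hd huN hvN huv lu lv hall hul hvl

end

end H3h12

end CG

end Pool.Agent.Lib.MP_e95c01_co.N
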