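import Pool.Agent.Lib.MP_e95c01_co.X.S0_87
import Pool.Agent.Lib.MP_e95c01_co.U.StThin3_72

/-!
# Strips: parts of the neighbourhoods, symmetry
-/

namespace Pool.Agent.Lib.MP_e95c01_co.N

open Finset

variable {V : Type} [Fintype V] [DecidableEq V]

namespace CG

variable {G : CG V} {A B : Finset V}

theorem Strip.fA87 (h : G.Strip A B) : G.Frag A := h.reg.frag A (by simp)

theorem Strip.fB87 (h : G.Strip A B) : G.Frag B := h.reg.frag B (by simp)

theorem Strip.s1_87 (h : G.Strip A B) : G.St1 A B := ⟨h.ne, h.reg, h.sub⟩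

theorem Cc_symm87 (A B : Finset V) : G.Cc B A = G.Cc A B := inter_comm _ _

theorem mem_K087 {x : V} : x ∈ G.K0 A B ↔ x ∈ G.N A ∧ x ∉ G.N B := mem_sdiff

theorem mem_Cc87 {x : V} : x ∈ G.Cc A B ↔ x ∈ G.N A ∧ x ∈ G.N B := mem_inter

theorem NCo87 (h : G.Frag A) : G.N (G.Co A) = G.N A := (G.stCo_37 A h).2.1

theorem CoCo87 (h : G.Frag A) : G.Co (G.Co A) = A := (G.stCo_37 A h).2.2

theorem pXCo87 (z : V) : G.pX (G.Co A) z = G.pO A z := rfl

theorem pTCo87 (h : G.Frag A) (z : V) : G.pT (G.Co A) z = G.pT A z := by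
  rw [pT, pT, NCo87 h]

theorem pOCo87 (h : G.Frag A) (z : V) : G.pO (G.Co A) z = G.pX A z := by
  rw [pO, pX, CoCo87 h]

theorem Tch_symm87 {c : V} : G.Tch A B c ↔ G.Tch B A c := by
  rw [Tch, Tch, Cc_symm87, union_comm]

theorem ps5_symm87 (A B : Finset V) (z : V) : G.ps5 B A z = G.ps5 A B z := by
  rw [ps5, ps5, add_comm]

theorem e5_symm87 (A B : Finset V) (c : V) : G.e5 B A c = G.e5 A B c := by
  classical
  have h1 : ((G.Cc B A).filter fun z => ¬ G.Tch B A z ∧ G.nb z ∩ G.Cc B A = {c}) =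
      (G.Cc A B).filter fun z => ¬ G.Tch A B z ∧ G.nb z ∩ G.Cc A B = {c} := by
    ext z
    rw [mem_filter, mem_filter, Cc_symm87 A B]
    have h2 : G.Tch B A z ↔ G.Tch A B z := Tch_symm87
    rw [h2]
  rw [e5, e5, ps5_symm87, h1]
  have h3 : ∀ z ∈ (G.Cc A B).filter (fun z => ¬ G.Tch A B z ∧ G.nb z ∩ G.Cc A B = {c}),
      min (G.ps5 B A z) 0 = min (G.ps5 A B z) 0 := fun z _ => by rw [ps5_symm87]
  rw [sum_congr rfl h3]

theorem net5_symm87 (A B : Finset V) (c : V) : G.net5 B A c = G.net5 A B c := by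
  rw [net5, net5, e5_symm87, union_comm]

theorem Co_eq87 (h : G.Strip A B) : G.Co A = B ∪ G.K0 B A := by
  ext v
  rw [mem_Co1, mem_union, mem_K087]
  constructor
  · rintro ⟨h1, h2⟩
    by_cases h3 : v ∈ B
    · exact Or.inl h3
    · rcases h.s1_87.cases h1 h3 with h4 | h4 | h4
      · exact absurd (mem_sdiff.1 h4).1 h2
      · exact Or.inr (mem_sdiff.1 h4)
      · exact absurd (mem_inter.1 h4).1 h2
  · rintro (h1 | ⟨h1, h2⟩)
    · have h3 := h.reg.dis A (by simp) B (by simp) h.ne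
      exact ⟨disjoint_right.1 h3.1 h1, disjoint_right.1 h3.2 h1⟩
    · exact ⟨(h.s1_87.symm.NA h1).2, h2⟩

theorem pT_eq87 (z : V) : G.pT A z = (G.nb z ∩ G.K0 A B) ∪ (G.nb z ∩ G.Cc A B) := by
  ext v
  rw [pT, mem_union, mem_inter, mem_inter, mem_inter, mem_K087, mem_Cc87]
  tauto

theorem pO_eq87 (h : G.Strip A B) (z : V) : G.pO A z = G.pX B z ∪ (G.nb z ∩ G.K0 B A) := by
  rw [pO, pX, Co_eq87 h, inter_union_distrib_left]

theorem pT_card87 (A B : Finset V) (z : V) :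
    (G.pT A z).card = (G.nb z ∩ G.K0 A B).card + (G.nb z ∩ G.Cc A B).card := by
  rw [pT_eq87 (B := B) z, card_union_of_disjoint]
  rw [disjoint_left]
  intro v h1 h2
  exact (mem_K087.1 (mem_inter.1 h1).2).2 (mem_Cc87.1 (mem_inter.1 h2).2).2

theorem pO_card87 (h : G.Strip A B) (z : V) :
    (G.pO A z).card = (G.pX B z).card + (G.nb z ∩ G.K0 B A).card := by
  rw [pO_eq87 h z, card_union_of_disjoint]
  rw [disjoint_left]
  intro v h1 h2
  exact (h.s1_87.symm.NA (mem_K087.1 (mem_inter.1 h2).2).1).1 (mem_inter.1 h1).2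

theorem nbK_card87 (A B : Finset V) (z : V) : (G.nb z ∩ (G.K0 A B ∪ G.K0 B A)).card =
    (G.nb z ∩ G.K0 A B).card + (G.nb z ∩ G.K0 B A).card := by
  rw [inter_union_distrib_left, card_union_of_disjoint]
  rw [disjoint_left]
  intro v h1 h2
  exact (mem_K087.1 (mem_inter.1 h1).2).2 (mem_K087.1 (mem_inter.1 h2).2).1

/-- the degree of a common vertex -/
theorem deg_Cc87 (h : G.Strip A B) (z : V) : (G.nb z).card = (G.pX A z).card + (G.pX B z).card +
    (G.nb z ∩ G.Cc A B).card + (G.nb z ∩ G.K0 A B).card + (G.nb z ∩ G.K0 B A).card := by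
  have h1 := nb_split87 (G := G) A z
  rw [pT_card87 A B z, pO_card87 h z] at h1
  omega

theorem pX_pos87 {z : V} (hz : z ∈ G.N A) : 1 ≤ (G.pX A z).card := by
  obtain ⟨-, u, hu, hzu⟩ := mem_N1.1 hz
  rw [Nat.succ_le_iff, card_pos]
  exact ⟨u, mem_inter.2 ⟨G.sym _ _ hzu, hu⟩⟩

theorem pX_tw87 (h : G.Strip A B) {z : V} (hz : z ∈ G.N A) (ht : G.IsTw z) :
    2 ≤ (G.pX A z).card := by
  have h1 : A ∈ G.I {A, B} z := memI2_1.2 ⟨Or.inl rfl, hz⟩
  refine hid_5 h.reg ?_ (memR2_1.2 (h.s1_87.NA hz)) ht h1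
  intro D hD
  rw [mem_insert, mem_singleton] at hD
  rcases hD with rfl | rfl
  · exact h.bigA
  · exact h.bigB

theorem nb_K_empty87 {z : V} (hz : z ∈ G.Cc A B) (h : ¬ G.Tch A B z) :
    G.nb z ∩ G.K0 A B = ∅ ∧ G.nb z ∩ G.K0 B A = ∅ := by
  rw [Tch, not_and, not_nonempty_iff_eq_empty] at h
  have h1 := h hz
  rw [inter_union_distrib_left, union_eq_empty] at h1
  exact h1

theorem tch_of87 {z x : V} (hz : z ∈ G.Cc A B) (hx : x ∈ G.K0 A B ∨ x ∈ G.K0 B A)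
    (h : x ∈ G.nb z) : G.Tch A B z :=
  ⟨hz, x, mem_inter.2 ⟨h, mem_union.2 hx⟩⟩

/-- partners in a strip are in the same part -/
theorem tw_part87 (h : G.Strip A B) {v w : V} (hv : v ∈ R {A, B}) (ht : G.Tw v w) :
    w ∈ R {A, B} ∧ (w ∈ G.N A ↔ v ∈ G.N A) ∧ (w ∈ G.N B ↔ v ∈ G.N B) := by
  obtain ⟨h1, h2⟩ := (stTwHL_5 G).twI _ h.reg v hv w ht
  refine ⟨h1, ?_, ?_⟩
  · have h3 : A ∈ G.I {A, B} w ↔ A ∈ G.I {A, B} v := by rw [h2]
    rw [memI2_1, memI2_1] at h3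
    simpa using h3
  · have h3 : B ∈ G.I {A, B} w ↔ B ∈ G.I {A, B} v := by rw [h2]
    rw [memI2_1, memI2_1] at h3
    simpa using h3

theorem R_of_NA87 (h : G.Strip A B) {z : V} (hz : z ∈ G.N A) : z ∈ R {A, B} :=
  memR2_1.2 (h.s1_87.NA hz)

theorem R_of_NB87 (h : G.Strip A B) {z : V} (hz : z ∈ G.N B) : z ∈ R {A, B} :=
  memR2_1.2 (h.s1_87.symm.NA hz).symm

/-- `HL` in a strip: `a` and `b` are in the same part -/
theorem hl_part87 (_h : G.Strip A B) {a b t : V} (ha : a ∈ R {A, B}) (hb : b ∈ R {A, B})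
    (ht : t ∈ R {A, B}) (hl : G.HL a b t) :
    (a ∈ G.N A ↔ b ∈ G.N A) ∧ (a ∈ G.N B ↔ b ∈ G.N B) := by
  have h2 := HL_I76 hl ha hb ht
  constructor
  · have h3 : A ∈ G.I {A, B} a ↔ A ∈ G.I {A, B} b := by rw [h2]
    rw [memI2_1, memI2_1] at h3
    simpa using h3
  · have h3 : B ∈ G.I {A, B} a ↔ B ∈ G.I {A, B} b := by rw [h2]
    rw [memI2_1, memI2_1] at h3
    simpa using h3

theorem low_not_tw87 {z : V} (h : G.Low z) : ¬ G.IsTw z := by
  rintro ⟨w, h1⟩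
  have h2 := Tw_card87 h1
  have h3 : (G.nb z).card = 6 := h
  omega

theorem HL_a87 {a b t : V} (h : G.HL a b t) : ¬ G.Low a := HL_not_low76 h

theorem flv_low87 {z : V} (hz : G.Low z) (S : Finset V) : ¬ G.RF S z := by
  intro h
  exact ((stTy5_87 G).rf S z h).2.1 hz

theorem flv_hub87 {z : V} (h1 : ¬ G.Low z) (h2 : ¬ G.IsTw z) (S : Finset V) : G.flv S z = 0 := by
  classical
  have h3 : G.s5 S z = 0 := by
    by_contra h
    exact h1 ((stTy5_87 G).s2 S z h).2.1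
  have h4 : ¬ G.U3 S z := fun h => h1 h.2.1
  have h5 : ¬ G.T3 S z := fun h => h1 h.2.1
  have h6 : ¬ G.HF S z := fun h => h1 h.2.1
  have h7 : ¬ G.RF S z := fun h => h2 ((stTy5_87 G).rf S z h).1
  rw [flv, h3, if_neg h4, if_neg h5, if_neg h6, if_neg h7]
  norm_num

open Classical in
theorem phi_low87 {z : V} (hz : G.Low z) (A : Finset V) : G.phi A z =
    G.s5 (G.Co A) z - G.s5 A z + 2 * (if G.U3 (G.Co A) z then 1 else 0) -
      2 * (if G.U3 A z then 1 else 0) - 2 * (if G.T3 (G.Co A) z then 1 else 0) +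
      2 * (if G.T3 A z then 1 else 0) - 2 * (if G.HF (G.Co A) z then 1 else 0) +
      2 * (if G.HF A z then 1 else 0) := by
  rw [phi, flv, flv, if_neg (flv_low87 hz (G.Co A)), if_neg (flv_low87 hz A)]
  ring

open Classical in
theorem phi_tw87 {z : V} (hz : G.IsTw z) (A : Finset V) : G.phi A z =
    (if G.RF A z then 1 else 0) - (if G.RF (G.Co A) z then 1 else 0) := by
  have hl : ¬ G.Low z := fun h => low_not_tw87 h hz
  have h3 : ∀ S, G.s5 S z = 0 := by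
    intro S
    by_contra h
    exact hl ((stTy5_87 G).s2 S z h).2.1
  have h4 : ∀ S, ¬ G.U3 S z := fun S h => hl h.2.1
  have h5 : ∀ S, ¬ G.T3 S z := fun S h => hl h.2.1
  have h6 : ∀ S, ¬ G.HF S z := fun S h => hl h.2.1
  rw [phi, flv, flv, h3, h3, if_neg (h4 _), if_neg (h4 _), if_neg (h5 _), if_neg (h5 _),
    if_neg (h6 _), if_neg (h6 _)]
  ring

theorem phi_hub87 {z : V} (h1 : ¬ G.Low z) (h2 : ¬ G.IsTw z) (A : Finset V) : G.phi A z = 0 := by
  rw [phi, flv_hub87 h1 h2, flv_hub87 h1 h2, sub_zero]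

end CG

end Pool.Agent.Lib.MP_e95c01_co.N
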