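import Pool.Agent.Lib.MP_e95c01_co.X.StmtsH76
import Pool.Agent.Lib.MP_e95c01_co.X.SP_87
import Pool.Agent.Lib.MP_e95c01_co.T.F5_30
import Pool.Agent.Lib.MP_e95c01_co.U.Leaf33

/-!
# Leaves with four vertices, a low vertex, a hub and a pair of twins: context
-/

namespace Pool.Agent.Lib.MP_e95c01_co.N

open Finset

variable {V : Type} [Fintype V] [DecidableEq V]

namespace CG

variable {G : CG V} {F : Finset V} {l h v w : V}

/-- the context -/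
structure Lx (G : CG V) (F : Finset V) (l h v w : V) : Prop where
  hBas : G.StLBas
  hB : G.StLB
  hCnt : G.StLCnt
  hL : G.L4 F
  fe : F = {l, h, v, w}
  lo : G.Low l
  hub : G.Hub h
  tw : G.Tw v w

namespace Lx

theorem hF (c : Lx G F l h v w) : G.Lf F := c.hL.1

theorem symm (c : Lx G F l h v w) : Lx G F l h w v :=
  ⟨c.hBas, c.hB, c.hCnt, c.hL, by rw [c.fe, pair_comm v w], c.lo, c.hub, c.tw.sym33⟩

theorem n9 (c : Lx G F l h v w) : 9 ≤ Fintype.card V := by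
  have := c.hF.n12
  omega

theorem all (c : Lx G F l h v w) {x : V} (hx : x ∈ F) : x = l ∨ x = h ∨ x = v ∨ x = w := by
  rw [c.fe, mem_insert, mem_insert, mem_insert, mem_singleton] at hx
  exact hx

theorem lF (c : Lx G F l h v w) : l ∈ F := by rw [c.fe]; simp

theorem hhF (c : Lx G F l h v w) : h ∈ F := by rw [c.fe]; simp

theorem vF (c : Lx G F l h v w) : v ∈ F := by rw [c.fe]; simp

theorem wF (c : Lx G F l h v w) : w ∈ F := by rw [c.fe]; simp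

theorem vt (c : Lx G F l h v w) : G.IsTw v := ⟨w, c.tw⟩

theorem lv (c : Lx G F l h v w) : l ≠ v := by
  rintro rfl
  exact not_tw33 c.lo c.vt

theorem lw (c : Lx G F l h v w) : l ≠ w := c.symm.lv

theorem lh (c : Lx G F l h v w) : l ≠ h := by
  rintro rfl
  exact c.hub.1 c.lo

theorem hv (c : Lx G F l h v w) : h ≠ v := by
  rintro rfl
  exact c.hub.2 c.vt

theorem hw (c : Lx G F l h v w) : h ≠ w := c.symm.hv

theorem notF (_ : Lx G F l h v w) {x : V} (hx : x ∈ G.N F) : x ∉ F := (mem_N1.1 hx).1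

theorem nel (c : Lx G F l h v w) {x : V} (hx : x ∈ G.N F) : x ≠ l := fun h1 =>
  c.notF hx (h1 ▸ c.lF)

theorem neh (c : Lx G F l h v w) {x : V} (hx : x ∈ G.N F) : x ≠ h := fun h1 =>
  c.notF hx (h1 ▸ c.hhF)

theorem nev (c : Lx G F l h v w) {x : V} (hx : x ∈ G.N F) : x ≠ v := fun h1 =>
  c.notF hx (h1 ▸ c.vF)

theorem new (c : Lx G F l h v w) {x : V} (hx : x ∈ G.N F) : x ≠ w := fun h1 =>
  c.notF hx (h1 ▸ c.wF)

/-- `v` and `w` have the same neighbours -/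
theorem vw (c : Lx G F l h v w) {x : V} (hx : x ≠ w) (h1 : v ∈ G.nb x) : w ∈ G.nb x :=
  G.sym _ _ (Tw_nb5 c.tw (G.sym _ _ h1) hx)

theorem vwi (c : Lx G F l h v w) {x : V} (hx : x ∈ G.N F) : w ∈ G.nb x ↔ v ∈ G.nb x :=
  ⟨fun h1 => c.symm.vw (c.nev hx) h1, fun h1 => c.vw (c.new hx) h1⟩

/-- number of neighbours in `F` -/
theorem d4 (c : Lx G F l h v w) (x : V) [Decidable (l ∈ G.nb x)] [Decidable (h ∈ G.nb x)]
    [Decidable (v ∈ G.nb x)] [Decidable (w ∈ G.nb x)] : G.d x F =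
    (if l ∈ G.nb x then 1 else 0) + (if h ∈ G.nb x then 1 else 0) +
      (if v ∈ G.nb x then 1 else 0) + (if w ∈ G.nb x then 1 else 0) := by
  have h1 : G.nb x ∩ F = ({l, h, v, w} : Finset V).filter (fun z => z ∈ G.nb x) := by
    rw [c.fe, inter_comm, filter_mem_eq_inter]
  have h2 : (({l, h, v, w} : Finset V).filter (fun z => z ∈ G.nb x)).card =
      ∑ z ∈ ({l, h, v, w} : Finset V), (if z ∈ G.nb x then 1 else 0) := by
    rw [card_filter]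
  have hl : l ∉ ({h, v, w} : Finset V) := by
    rw [mem_insert, mem_insert, mem_singleton]
    rintro (h3 | h3 | h3)
    · exact c.lh h3
    · exact c.lv h3
    · exact c.lw h3
  have hh : h ∉ ({v, w} : Finset V) := by
    rw [mem_insert, mem_singleton]
    rintro (h3 | h3)
    · exact c.hv h3
    · exact c.hw h3
  rw [d, h1, h2, sum_insert hl, sum_insert hh, sum_pair c.tw.ne33]
  have e1 : ∀ (p : Prop) (i j : Decidable p), (@ite ℕ p i 1 0) = @ite ℕ p j 1 0 := by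
    intro p i j
    congr
  rw [e1 (l ∈ G.nb x) _ _, e1 (h ∈ G.nb x) _ _, e1 (v ∈ G.nb x) _ _, e1 (w ∈ G.nb x) _ _]
  ring

theorem dT (c : Lx G F l h v w) {x : V} (hx : x ∈ G.N F) [Decidable (l ∈ G.nb x)]
    [Decidable (h ∈ G.nb x)] [Decidable (v ∈ G.nb x)] : G.d x F =
    (if l ∈ G.nb x then 1 else 0) + (if h ∈ G.nb x then 1 else 0) +
      (if v ∈ G.nb x then 2 else 0) := by
  classical
  rw [c.d4 x]
  have h1 := c.vwi hx
  by_cases h2 : v ∈ G.nb x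
  · rw [if_pos h2, if_pos (h1.2 h2), if_pos h2]
  · rw [if_neg h2, if_neg (fun h3 => h2 (h1.1 h3)), if_neg h2]

/-- a vertex of `N F` without `v` is adjacent to `l` and `h` -/
theorem nov (c : Lx G F l h v w) {x : V} (hx : x ∈ G.N F) (h1 : v ∉ G.nb x) :
    l ∈ G.nb x ∧ h ∈ G.nb x ∧ G.d x F = 2 := by
  classical
  have h2 := c.hBas.pos F c.hF x hx
  have h3 := c.dT hx
  rw [if_neg h1] at h3
  by_cases h4 : l ∈ G.nb x
  · by_cases h5 : h ∈ G.nb x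
    · rw [if_pos h4, if_pos h5] at h3
      exact ⟨h4, h5, h3⟩
    · rw [if_pos h4, if_neg h5] at h3
      omega
  · rw [if_neg h4] at h3
    split_ifs at h3 <;> omega

theorem vol (c : Lx G F l h v w) {x : V} (hx : x ∈ G.N F) (h1 : l ∉ G.nb x) : v ∈ G.nb x := by
  by_contra h2
  exact h1 (c.nov hx h2).1

theorem voh (c : Lx G F l h v w) {x : V} (hx : x ∈ G.N F) (h1 : h ∉ G.nb x) : v ∈ G.nb x := by
  by_contra h2
  exact h1 (c.nov hx h2).2.1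

theorem d_lv (c : Lx G F l h v w) {x : V} (hx : x ∈ G.N F) (h1 : l ∉ G.nb x)
    (h2 : h ∉ G.nb x) : G.d x F = 2 := by
  classical
  rw [c.dT hx, if_neg h1, if_neg h2, if_pos (c.vol hx h1)]

theorem d_lV (c : Lx G F l h v w) {x : V} (hx : x ∈ G.N F) (h1 : l ∉ G.nb x)
    (h2 : h ∈ G.nb x) : G.d x F = 3 := by
  classical
  rw [c.dT hx, if_neg h1, if_pos h2, if_pos (c.vol hx h1)]

theorem d_Lh (c : Lx G F l h v w) {x : V} (hx : x ∈ G.N F) (h1 : l ∈ G.nb x)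
    (h2 : h ∉ G.nb x) : G.d x F = 3 := by
  classical
  rw [c.dT hx, if_pos h1, if_neg h2, if_pos (c.voh hx h2)]

theorem d_LH (c : Lx G F l h v w) {x : V} (hx : x ∈ G.N F) (h1 : l ∈ G.nb x)
    (h2 : h ∈ G.nb x) (h3 : v ∈ G.nb x) : G.d x F = 4 := by
  classical
  rw [c.dT hx, if_pos h1, if_pos h2, if_pos h3]

/-- the partner -/
theorem par (c : Lx G F l h v w) {x y : V} (hx : x ∈ G.N F) (h1 : G.Tw x y) : y ∈ G.N F :=
  (c.hBas.twT F c.hF x y h1).1 hx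

theorem parF (c : Lx G F l h v w) {x y u : V} (hx : x ∈ G.N F) (h1 : G.Tw x y) (hu : u ∈ F) :
    u ∈ G.nb y ↔ u ∈ G.nb x := by
  have hy := c.par hx h1
  constructor
  · intro h2
    exact Tw_nb5 h1.sym33 h2 (fun h3 => c.notF hx (h3 ▸ hu))
  · intro h2
    exact Tw_nb5 h1 h2 (fun h3 => c.notF hy (h3 ▸ hu))

theorem uniq (c : Lx G F l h v w) {x y y' : V} (h1 : G.Tw x y) (h2 : G.Tw x y') : y = y' :=
  (stTwHL_5 G).uniq c.n9 _ _ _ h1 h2

theorem mem_pT {F : Finset V} {x y : V} : x ∈ G.pT F y ↔ x ∈ G.nb y ∧ x ∈ G.N F := mem_inter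

/-! ### values -/

theorem gHub (c : Lx G F l h v w) {x : V} (hx : x ∈ G.N F) (h1 : ¬ G.Low x)
    (h2 : ¬ G.IsTw x) : G.gam5 F x = 0 := c.hB.hub F c.hF x hx ⟨h1, h2⟩

theorem gL2 (c : Lx G F l h v w) {x : V} (hx : x ∈ G.N F) (h1 : G.Low x) (h2 : G.d x F = 2) :
    (G.pT F x).card ≤ 3 ∧ 2 ≤ G.gam5 F x ∧ (1 ≤ (G.pT F x).card → 4 ≤ G.gam5 F x) ∧
    (¬ (G.PairSet (G.pT F x) ∧ ∀ y ∈ G.pT F x, G.d y F = 2) →
      2 + 2 * ((G.pT F x).card : ℤ) ≤ G.gam5 F x) := by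
  obtain ⟨h3, h4, h5⟩ := c.hB.low2 F c.hF x hx h1 h2
  refine ⟨h3, ?_, ?_, ?_⟩
  · have h6 : (0 : ℤ) ≤ ((G.pT F x).card : ℤ) := Nat.cast_nonneg _
    have h7 : 0 ≤ min (2 * ((G.pT F x).card : ℤ)) 2 := le_min (by linarith) (by norm_num)
    linarith
  · intro h6
    have h7 : (1 : ℤ) ≤ ((G.pT F x).card : ℤ) := by exact_mod_cast h6
    have h8 : 2 ≤ min (2 * ((G.pT F x).card : ℤ)) 2 := le_min (by linarith) le_rfl
    linarith
  · intro h6
    rcases h4 with h7 | ⟨-, h8, -, h9⟩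
    · exact h7
    · exact absurd ⟨h8, fun y hy => (h9 y hy).1⟩ h6

theorem gL3 (c : Lx G F l h v w) {x : V} (hx : x ∈ G.N F) (h1 : G.Low x) (h2 : G.d x F = 3) :
    (G.pT F x).card ≤ 2 ∧ 6 ≤ G.gam5 F x ∧
    (∀ y ∈ G.pT F x, ¬ G.Low y → 6 + 2 * ((G.pT F x).card : ℤ) ≤ G.gam5 F x) ∧
    ((G.pT F x).card = 2 → 10 ≤ G.gam5 F x) ∧
    4 + 2 * ((G.pT F x).card : ℤ) ≤ G.gam5 F x ∧
    (∀ y y', G.Tw y y' → y ∈ G.pT F x → y' ∈ G.pT F x →
      G.pT F x = {y, y'} ∧ 12 ≤ G.gam5 F x) := by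
  obtain ⟨h3, h4, h5, h6⟩ := c.hB.low3 F c.hF x hx h1 h2
  refine ⟨h3, h4, ?_, ?_, ?_, ?_⟩
  · intro y hy hly
    rcases h5 with h7 | ⟨u, q, q', hu, h8, -⟩
    · exact h7
    · rw [h8, mem_singleton] at hy
      exact absurd (hy ▸ hu) hly
  · intro h7
    rcases h5 with h8 | ⟨u, q, q', hu, h8, -⟩
    · rw [h7] at h8
      push_cast at h8
      linarith
    · rw [h8, card_singleton] at h7
      omega
  · rcases h5 with h8 | ⟨u, q, q', hu, h8, -⟩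
    · linarith
    · rw [h8, card_singleton]
      push_cast
      linarith
  · intro y y' hyy hy hy'
    have h7 : G.pT F x = {y, y'} := by
      refine (eq_of_subset_of_card_le ?_ ?_).symm
      · intro z hz
        rw [mem_insert, mem_singleton] at hz
        rcases hz with rfl | rfl
        · exact hy
        · exact hy'
      · rw [card_pair hyy.ne33]
        exact h3
    exact ⟨h7, h6 ⟨y, y', hyy, h7⟩⟩

theorem gL4 (c : Lx G F l h v w) {x : V} (hx : x ∈ G.N F) (h1 : G.Low x) (h2 : G.d x F = 4) :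
    (G.pT F x).card ≤ 1 ∧ 10 ≤ G.gam5 F x ∧
    8 + 2 * ((G.pT F x).card : ℤ) ≤ G.gam5 F x := by
  obtain ⟨h3, h4, -⟩ := c.hB.low4 F c.hF x hx h1 h2
  refine ⟨h3, h4, ?_⟩
  have h5 : ((G.pT F x).card : ℤ) ≤ 1 := by exact_mod_cast h3
  linarith

theorem gT (c : Lx G F l h v w) {x : V} (hx : x ∈ G.N F) (h1 : G.IsTw x) :
    1 ≤ (G.pT F x).card ∧ G.d x F + (G.pT F x).card ≤ 5 ∧ -2 ≤ G.gam5 F x ∧
    (G.d x F = 2 → ((G.pT F x).card : ℤ) - 3 ≤ G.gam5 F x) ∧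
    (G.d x F = 3 → ((G.pT F x).card : ℤ) - 1 ≤ G.gam5 F x) ∧
    (G.d x F = 4 → 1 ≤ G.gam5 F x) := by
  obtain ⟨h2, h3, h4, h5, h6, h7⟩ := c.hB.tw F c.hF x hx h1
  have h8 : (1 : ℤ) ≤ ((G.pT F x).card : ℤ) := by exact_mod_cast h4
  refine ⟨h4, h5, ?_, ?_, ?_, h7⟩
  · by_cases h9 : G.d x F = 4
    · linarith [h7 h9]
    · have h10 := h6 (by omega)
      have h11 : (2 : ℤ) ≤ (G.d x F : ℤ) := by exact_mod_cast h2
      linarith
  · intro h9
    have h10 := h6 (by omega)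
    rw [h9] at h10
    push_cast at h10
    linarith
  · intro h9
    have h10 := h6 (by omega)
    rw [h9] at h10
    push_cast at h10
    linarith

/-- a vertex of `N F` is nonnegative unless it is a twin with two neighbours in `F` -/
theorem g0 (c : Lx G F l h v w) {x : V} (hx : x ∈ G.N F) (h1 : G.IsTw x → G.d x F ≠ 2) :
    0 ≤ G.gam5 F x := by
  have hd := c.hBas.pos F c.hF x hx
  by_cases hl : G.Low x
  · rcases Nat.lt_or_ge (G.d x F) 5 with h2 | h2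
    · have h3 : G.d x F = 2 ∨ G.d x F = 3 ∨ G.d x F = 4 := by omega
      rcases h3 with h3 | h3 | h3
      · linarith [(c.gL2 hx hl h3).2.1]
      · linarith [(c.gL3 hx hl h3).2.1]
      · linarith [(c.gL4 hx hl h3).2.1]
    · linarith [(c.hB.low5 F c.hF x hx hl h2).2.2]
  by_cases ht : G.IsTw x
  · obtain ⟨h2, h3, -, -, h4, h5⟩ := c.gT hx ht
    have h6 := h1 ht
    have h7 : G.d x F = 3 ∨ G.d x F = 4 := by omega
    rcases h7 with h7 | h7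
    · have h8 : (1 : ℤ) ≤ ((G.pT F x).card : ℤ) := by exact_mod_cast h2
      linarith [h4 h7]
    · linarith [h5 h7]
  · rw [c.gHub hx hl ht]

/-! ### covers -/

/-- covers of the edge `v y` -/
theorem cv (c : Lx G F l h v w) {y : V} (hy : y ∈ G.N F) (hvy : v ∈ G.nb y) :
    (l ∈ G.nb v ∧ l ∈ G.nb y) ∨
    (∃ u ∈ G.N F, G.Low u ∧ v ∈ G.nb u ∧ u ∈ G.nb y) ∨
    (∃ a ∈ G.N F, ∃ b ∈ G.N F, G.Tw a b ∧ v ∈ G.nb a ∧ v ∈ G.nb b ∧ a ∈ G.nb y ∧
      b ∈ G.nb y) ∨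
    (∃ a ∈ G.N F, ∃ b ∈ G.N F, G.HL a b y ∧ v ∈ G.nb a ∧ v ∈ G.nb b) ∨
    (G.HL h l y ∧ h ∈ G.nb v ∧ l ∈ G.nb v) := by
  have hlowF : ∀ x ∈ F, G.Low x → x = l := by
    intro x hx hl
    rcases c.all hx with h1 | h1 | h1 | h1
    · exact h1
    · exact absurd (h1 ▸ hl) c.hub.1
    · exact absurd c.vt (not_tw33 (h1 ▸ hl))
    · exact absurd c.symm.vt (not_tw33 (h1 ▸ hl))
  have htwF : ∀ x ∈ F, G.IsTw x → x = v ∨ x = w := by
    intro x hx ht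
    rcases c.all hx with h1 | h1 | h1 | h1
    · exact absurd (h1 ▸ ht) (not_tw33 c.lo)
    · exact absurd (h1 ▸ ht) c.hub.2
    · exact Or.inl h1
    · exact Or.inr h1
  rcases c.hF.cov v c.vF y (mem_union_right _ hy) (G.sym _ _ hvy) with h1 | h1 | h1 | h1 | h1
  · obtain ⟨u, hu, h2, h3, h4⟩ := h1
    rcases mem_union.1 hu with h5 | h5
    · have h6 := hlowF u h5 h2
      rw [h6] at h3 h4
      exact Or.inl ⟨G.sym _ _ h3, G.sym _ _ h4⟩
    · exact Or.inr (Or.inl ⟨u, h5, h2, h3, G.sym _ _ h4⟩)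
  · obtain ⟨a, ha, b, hb, h2, h3, h4, h5, h6⟩ := h1
    have key : ∀ a b, a ∈ F ∪ G.N F → G.Tw a b → v ∈ G.nb a → v ∈ G.nb b → a ∈ G.N F := by
      intro a b ha h2 h3 h4
      rcases mem_union.1 ha with h5 | h5
      · exfalso
        rcases htwF a h5 ⟨_, h2⟩ with rfl | rfl
        · exact G.irr _ h3
        · rw [← c.uniq c.tw.sym33 h2] at h4
          exact G.irr _ h4
      · exact h5
    exact Or.inr (Or.inr (Or.inl ⟨a, key a b ha h2 h3 h4, b, key b a hb h2.sym33 h4 h3, h2, h3,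
      h4, G.sym _ _ h5, G.sym _ _ h6⟩))
  · obtain ⟨a, b, h2, h3, h4, h5 | h5⟩ := h1
    · have h6 := hlowF b h5.2 h2.2.1
      rcases c.all h5.1 with h7 | h7 | h7 | h7
      · exact absurd (h7 ▸ c.lo) (HL_not_low76 h2)
      · rw [h6, h7] at h2
        rw [h6] at h3
        rw [h7] at h4
        exact Or.inr (Or.inr (Or.inr (Or.inr ⟨h2, G.sym _ _ h4, G.sym _ _ h3⟩)))
      · exact absurd (h7 ▸ c.vt) ((stTwHL_5 G).notHL c.n9 a b y h2)
      · exact absurd (h7 ▸ c.symm.vt) ((stTwHL_5 G).notHL c.n9 a b y h2)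
    · exact Or.inr (Or.inr (Or.inr (Or.inl ⟨a, h5.1, b, h5.2, h2, h4, h3⟩)))
  · obtain ⟨a, b, h2, -⟩ := h1
    exact absurd c.vt (not_tw33 (c.hF.sat _ _ _ h2))
  · obtain ⟨a, b, h2, -⟩ := h1
    exact absurd c.vt (twLL_5 h2)

/-- covers of the edge `l y` -/
theorem cl (c : Lx G F l h v w) {y : V} (hy : y ∈ G.N F) (hly : l ∈ G.nb y) :
    (v ∈ G.nb l ∧ v ∈ G.nb y) ∨
    (∃ u ∈ G.N F, G.Low u ∧ l ∈ G.nb u ∧ u ∈ G.nb y) ∨
    (∃ a ∈ G.N F, ∃ b ∈ G.N F, G.Tw a b ∧ l ∈ G.nb a ∧ l ∈ G.nb b ∧ a ∈ G.nb y ∧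
      b ∈ G.nb y) ∨
    (∃ a ∈ G.N F, ∃ b ∈ G.N F, G.HL a b y ∧ l ∈ G.nb a ∧ l ∈ G.nb b) ∨
    (∃ a ∈ G.N F, ∃ b ∈ G.N F, G.HL a b l ∧ a ∈ G.nb y ∧ b ∈ G.nb y) ∨
    (∃ a ∈ G.N F, ∃ b ∈ G.N F, G.LL a b l y) := by
  have hlowF : ∀ x ∈ F, G.Low x → x = l := by
    intro x hx hl
    rcases c.all hx with h1 | h1 | h1 | h1
    · exact h1
    · exact absurd (h1 ▸ hl) c.hub.1
    · exact absurd c.vt (not_tw33 (h1 ▸ hl))
    · exact absurd c.symm.vt (not_tw33 (h1 ▸ hl))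
  have htwF : ∀ x ∈ F, G.IsTw x → x = v ∨ x = w := by
    intro x hx ht
    rcases c.all hx with h1 | h1 | h1 | h1
    · exact absurd (h1 ▸ ht) (not_tw33 c.lo)
    · exact absurd (h1 ▸ ht) c.hub.2
    · exact Or.inl h1
    · exact Or.inr h1
  rcases c.hF.cov l c.lF y (mem_union_right _ hy) (G.sym _ _ hly) with h1 | h1 | h1 | h1 | h1
  · obtain ⟨u, hu, h2, h3, h4⟩ := h1
    rcases mem_union.1 hu with h5 | h5
    · have h6 := hlowF u h5 h2
      rw [h6] at h3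
      exact absurd h3 (G.irr _)
    · exact Or.inr (Or.inl ⟨u, h5, h2, h3, G.sym _ _ h4⟩)
  · obtain ⟨a, ha, b, hb, h2, h3, h4, h5, h6⟩ := h1
    rcases mem_union.1 ha with h7 | h7
    · left
      rcases htwF a h7 ⟨_, h2⟩ with rfl | rfl
      · exact ⟨G.sym _ _ h3, G.sym _ _ h5⟩
      · rw [← c.uniq c.tw.sym33 h2] at h4 h6
        exact ⟨G.sym _ _ h4, G.sym _ _ h6⟩
    · have h8 := c.par h7 h2
      exact Or.inr (Or.inr (Or.inl ⟨a, h7, b, h8, h2, h3, h4, G.sym _ _ h5, G.sym _ _ h6⟩))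
  · obtain ⟨a, b, h2, h3, h4, h5 | h5⟩ := h1
    · have h6 := hlowF b h5.2 h2.2.1
      rw [h6] at h3
      exact absurd h3 (G.irr _)
    · exact Or.inr (Or.inr (Or.inr (Or.inl ⟨a, h5.1, b, h5.2, h2, h4, h3⟩)))
  · obtain ⟨a, b, h2, h3, h4, h5 | h5⟩ := h1
    · have h6 := hlowF b h5.2 h2.2.1
      exact absurd h6 (HL_bt76 h2).2.symm
    · exact Or.inr (Or.inr (Or.inr (Or.inr (Or.inl
        ⟨a, h5.1, b, h5.2, h2, G.sym _ _ h4, G.sym _ _ h3⟩))))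
  · obtain ⟨a, b, h2, h3 | h3⟩ := h1
    · have h6 := hlowF a h3.1 h2.1
      have h7 := hlowF b h3.2 h2.2.1
      exact absurd (h6.trans h7.symm) (ne_of_nb5 h2.2.2.1)
    · exact Or.inr (Or.inr (Or.inr (Or.inr (Or.inr ⟨a, h3.1, b, h3.2, h2⟩))))

/-- covers of the edge `l v` -/
theorem clv (c : Lx G F l h v w) (hlv : v ∈ G.nb l) :
    (∃ u ∈ G.N F, G.Low u ∧ l ∈ G.nb u ∧ v ∈ G.nb u) ∨
    (∃ a ∈ G.N F, ∃ b ∈ G.N F, G.Tw a b ∧ l ∈ G.nb a ∧ l ∈ G.nb b ∧ v ∈ G.nb a ∧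
      v ∈ G.nb b) ∨
    (∃ a ∈ G.N F, ∃ b ∈ G.N F, G.HL a b l ∧ v ∈ G.nb a ∧ v ∈ G.nb b) := by
  have hlowF : ∀ x ∈ F, G.Low x → x = l := by
    intro x hx hl
    rcases c.all hx with h1 | h1 | h1 | h1
    · exact h1
    · exact absurd (h1 ▸ hl) c.hub.1
    · exact absurd c.vt (not_tw33 (h1 ▸ hl))
    · exact absurd c.symm.vt (not_tw33 (h1 ▸ hl))
  have htwF : ∀ x ∈ F, G.IsTw x → x = v ∨ x = w := by
    intro x hx ht
    rcases c.all hx with h1 | h1 | h1 | h1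
    · exact absurd (h1 ▸ ht) (not_tw33 c.lo)
    · exact absurd (h1 ▸ ht) c.hub.2
    · exact Or.inl h1
    · exact Or.inr h1
  rcases c.hF.cov l c.lF v (mem_union_left _ c.vF) hlv with h1 | h1 | h1 | h1 | h1
  · obtain ⟨u, hu, h2, h3, h4⟩ := h1
    rcases mem_union.1 hu with h5 | h5
    · have h6 := hlowF u h5 h2
      rw [h6] at h3
      exact absurd h3 (G.irr _)
    · exact Or.inl ⟨u, h5, h2, h3, h4⟩
  · obtain ⟨a, ha, b, hb, h2, h3, h4, h5, h6⟩ := h1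
    rcases mem_union.1 ha with h7 | h7
    · exfalso
      rcases htwF a h7 ⟨_, h2⟩ with rfl | rfl
      · exact G.irr _ h5
      · rw [← c.uniq c.tw.sym33 h2] at h6
        exact G.irr _ h6
    · have h8 := c.par h7 h2
      exact Or.inr (Or.inl ⟨a, h7, b, h8, h2, h3, h4, h5, h6⟩)
  · obtain ⟨a, b, h2, -⟩ := h1
    exact absurd c.vt (not_tw33 (c.hF.sat _ _ _ h2))
  · obtain ⟨a, b, h2, h3, h4, h5 | h5⟩ := h1
    · have h6 := hlowF b h5.2 h2.2.1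
      exact absurd h6 (HL_bt76 h2).2.symm
    · exact Or.inr (Or.inr ⟨a, h5.1, b, h5.2, h2, h4, h3⟩)
  · obtain ⟨a, b, h2, -⟩ := h1
    exact absurd c.vt (twLL_5 (LL_symm5 h2))

end Lx

end CG

end Pool.Agent.Lib.MP_e95c01_co.N
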