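import Pool.Agent.Lib.MP_e95c01_co.X.H4a_50

/-!
# Leaves with four vertices, a low vertex, a hub and a pair of twins: not all adjacent
-/

namespace Pool.Agent.Lib.MP_e95c01_co.N

open Finset

variable {V : Type} [Fintype V] [DecidableEq V]

namespace CG

variable {G : CG V} {F : Finset V} {l h v w : V}

/-- vertices of `N F` that are not adjacent to `x` -/
def ms50 (G : CG V) (F : Finset V) (x : V) : Finset V := (G.N F).filter fun y => x ∉ G.nb y

theorem mem_ms50 {x y : V} : y ∈ G.ms50 F x ↔ y ∈ G.N F ∧ x ∉ G.nb y := mem_filter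

omit [Fintype V] [DecidableEq V] in
/-- sums over subsets -/
theorem ge_sub50 {T S : Finset V} {f : V → ℤ} (h0 : ∀ x ∈ T, x ∉ S → 0 ≤ f x) (hS : S ⊆ T) :
    ∑ x ∈ S, f x ≤ ∑ x ∈ T, f x :=
  sum_le_sum_of_subset_of_nonneg hS h0

omit [Fintype V] [DecidableEq V] in
theorem ge1_50 {T : Finset V} {f : V → ℤ} (h0 : ∀ x ∈ T, 0 ≤ f x) {x : V} (hx : x ∈ T) :
    f x ≤ ∑ x ∈ T, f x := single_le_sum h0 hx

omit [Fintype V] in
theorem ge2_50 {T : Finset V} {f : V → ℤ} (h0 : ∀ x ∈ T, 0 ≤ f x) {x y : V} (hx : x ∈ T)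
    (hy : y ∈ T) (hxy : x ≠ y) : f x + f y ≤ ∑ x ∈ T, f x := by
  rw [← sum_pair hxy]
  refine ge_sub50 (fun z hz _ => h0 z hz) ?_
  intro z hz
  rw [mem_insert, mem_singleton] at hz
  rcases hz with rfl | rfl
  · exact hx
  · exact hy

omit [Fintype V] in
theorem ge3_50 {T : Finset V} {f : V → ℤ} (h0 : ∀ x ∈ T, 0 ≤ f x) {x y z : V} (hx : x ∈ T)
    (hy : y ∈ T) (hz : z ∈ T) (hxy : x ≠ y) (hxz : x ≠ z) (hyz : y ≠ z) :
    f x + f y + f z ≤ ∑ x ∈ T, f x := by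
  rw [← add_sum_erase T f hx]
  have := ge2_50 (T := T.erase x) (f := f) (fun u hu => h0 u (mem_erase.1 hu).2)
    (mem_erase.2 ⟨hxy.symm, hy⟩) (mem_erase.2 ⟨hxz.symm, hz⟩) hyz
  linarith

omit [Fintype V] in
theorem ge4_50 {T : Finset V} {f : V → ℤ} (h0 : ∀ x ∈ T, 0 ≤ f x) {x y z u : V} (hx : x ∈ T)
    (hy : y ∈ T) (hz : z ∈ T) (hu : u ∈ T) (hxy : x ≠ y) (hxz : x ≠ z) (hxu : x ≠ u)
    (hyz : y ≠ z) (hyu : y ≠ u) (hzu : z ≠ u) :
    f x + f y + f z + f u ≤ ∑ x ∈ T, f x := by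
  rw [← add_sum_erase T f hx]
  have := ge3_50 (T := T.erase x) (f := f) (fun u hu => h0 u (mem_erase.1 hu).2)
    (mem_erase.2 ⟨hxy.symm, hy⟩) (mem_erase.2 ⟨hxz.symm, hz⟩) (mem_erase.2 ⟨hxu.symm, hu⟩)
    hyz hyu hzu
  linarith

omit [Fintype V] in
/-- taking two elements out of a sum -/
theorem out2_50 {T : Finset V} {f : V → ℤ} {x y : V} (hx : x ∈ T) (hy : y ∈ T) (hxy : x ≠ y) :
    ∑ x ∈ T, f x = f x + f y + ∑ x ∈ (T.erase x).erase y, f x := by
  rw [← add_sum_erase T f hx, ← add_sum_erase (T.erase x) f (mem_erase.2 ⟨hxy.symm, hy⟩)]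
  ring

namespace Lx

theorem cT (c : Lx G F l h v w) : (G.N F).card = 6 := c.hF.big.1.2.1

theorem ms_card (c : Lx G F l h v w) {x : V} (hx : x ∈ F) :
    (G.ms50 F x).card + (G.nb x).card = G.d x F + 6 := by
  have h1 := c.hBas.deg F c.hF x hx
  have h2 : (G.ms50 F x).card + (G.Tz F x).card = 6 := by
    rw [← c.cT, ← card_filter_add_card_filter_not (s := G.N F) (fun y => x ∉ G.nb y), ms50]
    congr 2
    ext y
    rw [Tz, mem_inter, mem_filter, not_not]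
    constructor
    · rintro ⟨h3, h4⟩
      exact ⟨h4, G.sym _ _ h3⟩
    · rintro ⟨h3, h4⟩
      exact ⟨G.sym _ _ h4, h3⟩
  omega

theorem dl (c : Lx G F l h v w) [Decidable (h ∈ G.nb l)] [Decidable (v ∈ G.nb l)] :
    G.d l F = (if h ∈ G.nb l then 1 else 0) + (if v ∈ G.nb l then 2 else 0) := by
  classical
  rw [c.d4 l, if_neg (G.irr l)]
  have h1 : w ∈ G.nb l ↔ v ∈ G.nb l := ⟨fun h2 => c.symm.vw c.lv h2, fun h2 => c.vw c.lw h2⟩
  have h3 : (if w ∈ G.nb l then 1 else 0) = if v ∈ G.nb l then 1 else 0 := by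
    by_cases h2 : v ∈ G.nb l
    · rw [if_pos h2, if_pos (h1.2 h2)]
    · rw [if_neg h2, if_neg (fun h3 => h2 (h1.1 h3))]
  rw [h3]
  split_ifs <;> rfl

theorem dv (c : Lx G F l h v w) [Decidable (l ∈ G.nb v)] [Decidable (h ∈ G.nb v)] :
    G.d v F = (if l ∈ G.nb v then 1 else 0) + (if h ∈ G.nb v then 1 else 0) + 1 := by
  classical
  rw [c.d4 v, if_neg (G.irr v), if_pos c.tw.1]

theorem dh (c : Lx G F l h v w) [Decidable (l ∈ G.nb h)] [Decidable (v ∈ G.nb h)] :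
    G.d h F = (if l ∈ G.nb h then 1 else 0) + (if v ∈ G.nb h then 2 else 0) := by
  classical
  rw [c.d4 h, if_neg (G.irr h)]
  have h1 : w ∈ G.nb h ↔ v ∈ G.nb h := ⟨fun h2 => c.symm.vw c.hv h2, fun h2 => c.vw c.hw h2⟩
  have h3 : (if w ∈ G.nb h then 1 else 0) = if v ∈ G.nb h then 1 else 0 := by
    by_cases h2 : v ∈ G.nb h
    · rw [if_pos h2, if_pos (h1.2 h2)]
    · rw [if_neg h2, if_neg (fun h3 => h2 (h1.1 h3))]
  rw [h3]
  split_ifs <;> rfl

theorem ml (c : Lx G F l h v w) : (G.ms50 F l).card = G.d l F := by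
  have h1 := c.ms_card c.lF
  have h2 : (G.nb l).card = 6 := c.lo
  omega

theorem mv (c : Lx G F l h v w) : (G.ms50 F v).card + 1 = G.d v F := by
  have h1 := c.ms_card c.vF
  have h2 := Tw_card87 c.tw
  omega

theorem mh (c : Lx G F l h v w) : (G.ms50 F h).card + 1 ≤ G.d h F := by
  have h1 := c.ms_card c.hhF
  have h2 := G.deg h
  have h3 : (G.nb h).card ≠ 6 := c.hub.1
  omega

theorem tauL {x : V} (h1 : G.Low x) :
    G.wt3 G.Tw x * ((G.tT G.Tw F x).card : ℤ) = 2 * ((G.pT F x).card : ℤ) := by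
  have h2 : G.tT G.Tw F x = G.pT F x := by
    ext y
    rw [mem_tT30, mem_pT]
    constructor
    · rintro ⟨h3, h4, -⟩
      exact ⟨h3, h4⟩
    · rintro ⟨h3, h4⟩
      exact ⟨h3, h4, fun h5 => not_tw33 h1 ⟨_, h5⟩⟩
  rw [wt3_low30 h1, h2]

theorem tauT (c : Lx G F l h v w) {x : V} (hx : x ∈ G.N F) (h1 : G.IsTw x) :
    G.wt3 G.Tw x * ((G.tT G.Tw F x).card : ℤ) = ((G.pT F x).card : ℤ) - 1 := by
  classical
  obtain ⟨y, hy⟩ := h1
  have h2 : G.tT G.Tw F x = (G.pT F x).erase y := by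
    ext z
    rw [mem_tT30, mem_erase, mem_pT]
    constructor
    · rintro ⟨h3, h4, h5⟩
      exact ⟨fun h6 => h5 (h6 ▸ hy), h3, h4⟩
    · rintro ⟨h3, h4, h5⟩
      exact ⟨h4, h5, fun h6 => h3 (c.uniq h6 hy)⟩
  have h3 : y ∈ G.pT F x := mem_pT.2 ⟨hy.1, c.par hx hy⟩
  have h4 : G.wt3 G.Tw x = 1 := by
    rw [wt3, if_neg (fun h5 => not_tw33 h5 ⟨_, hy⟩), if_pos ⟨y, hy⟩]
  rw [h4, h2, card_erase_of_mem h3, Nat.cast_sub (card_pos.2 ⟨y, h3⟩)]
  push_cast
  ring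

theorem tauH {x : V} (h1 : ¬ G.Low x) (h2 : ¬ G.IsTw x) :
    G.wt3 G.Tw x * ((G.tT G.Tw F x).card : ℤ) = 0 := by
  rw [wt3, if_neg h1, if_neg (show ¬ IsQ G.Tw x from h2), zero_mul]

/-- value minus the counted part -/
noncomputable def ff (G : CG V) (F : Finset V) (x : V) : ℤ :=
  G.gam5 F x - G.wt3 G.Tw x * ((G.tT G.Tw F x).card : ℤ)

theorem ffL2 (c : Lx G F l h v w) {x : V} (hx : x ∈ G.N F) (h1 : G.Low x) (h2 : G.d x F = 2)
    (h3 : ¬ (G.PairSet (G.pT F x) ∧ ∀ y ∈ G.pT F x, G.d y F = 2)) : 2 ≤ ff G F x := by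
  have := (c.gL2 hx h1 h2).2.2.2 h3
  rw [ff, tauL h1]
  linarith

theorem ffL3 (c : Lx G F l h v w) {x : V} (hx : x ∈ G.N F) (h1 : G.Low x) (h2 : G.d x F = 3) :
    4 ≤ ff G F x := by
  have := (c.gL3 hx h1 h2).2.2.2.2.1
  rw [ff, tauL h1]
  linarith

theorem ffL4 (c : Lx G F l h v w) {x : V} (hx : x ∈ G.N F) (h1 : G.Low x) (h2 : G.d x F = 4) :
    8 ≤ ff G F x := by
  have := (c.gL4 hx h1 h2).2.2
  rw [ff, tauL h1]
  linarith

theorem ffT (c : Lx G F l h v w) {x : V} (hx : x ∈ G.N F) (h1 : G.IsTw x)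
    (h2 : G.d x F ≠ 2) : 0 ≤ ff G F x ∧ (G.d x F = 4 → 1 ≤ ff G F x) := by
  have hd := c.hBas.pos F c.hF x hx
  obtain ⟨h3, h4, -, -, h5, h6⟩ := c.gT hx h1
  have h7 : G.d x F = 3 ∨ G.d x F = 4 := by omega
  have h8 : (1 : ℤ) ≤ ((G.pT F x).card : ℤ) := by exact_mod_cast h3
  rw [ff, c.tauT hx h1]
  rcases h7 with h7 | h7
  · constructor
    · linarith [h5 h7]
    · intro h9
      omega
  · have h9 : (G.pT F x).card = 1 := by omega
    rw [h9]
    push_cast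
    constructor
    · linarith [h6 h7]
    · intro _
      linarith [h6 h7]

theorem ffH (c : Lx G F l h v w) {x : V} (hx : x ∈ G.N F) (h1 : ¬ G.Low x)
    (h2 : ¬ G.IsTw x) : ff G F x = 0 := by
  rw [ff, tauH h1 h2, c.gHub hx h1 h2, sub_zero]

/-- nonnegative if there is no twin with two neighbours in `F` -/
theorem ff0 (c : Lx G F l h v w) (hno : ∀ x ∈ G.N F, G.IsTw x → G.d x F ≠ 2) {x : V}
    (hx : x ∈ G.N F) : 0 ≤ ff G F x := by
  have hd := c.hBas.pos F c.hF x hx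
  by_cases hl : G.Low x
  · rcases Nat.lt_or_ge (G.d x F) 5 with h2 | h2
    · have h3 : G.d x F = 2 ∨ G.d x F = 3 ∨ G.d x F = 4 := by omega
      rcases h3 with h3 | h3 | h3
      · have := c.ffL2 hx hl h3 (by
          rintro ⟨⟨a, b, h4, h5⟩, h6⟩
          have h7 : a ∈ G.pT F x := by rw [h5]; simp
          exact hno a (mem_pT.1 h7).2 ⟨_, h4⟩ (h6 a h7))
        linarith
      · linarith [c.ffL3 hx hl h3]
      · linarith [c.ffL4 hx hl h3]
    · obtain ⟨-, h3, h4⟩ := c.hB.low5 F c.hF x hx hl h2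
      rw [ff, tauL hl, h3, card_empty, h4]
      norm_num
  by_cases ht : G.IsTw x
  · exact (c.ffT hx ht (hno x hx ht)).1
  · rw [c.ffH hx hl ht]

theorem pT3 (c : Lx G F l h v w) {x : V} (hx : x ∈ G.N F) (hl : G.Low x) :
    (G.pT F x).card ≤ 3 := by
  have hd := c.hBas.pos F c.hF x hx
  rcases Nat.lt_or_ge (G.d x F) 5 with h2 | h2
  · have h3 : G.d x F = 2 ∨ G.d x F = 3 ∨ G.d x F = 4 := by omega
    rcases h3 with h3 | h3 | h3
    · exact (c.gL2 hx hl h3).1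
    · have := (c.gL3 hx hl h3).1
      omega
    · have := (c.gL4 hx hl h3).1
      omega
  · obtain ⟨-, h3, -⟩ := c.hB.low5 F c.hF x hx hl h2
    rw [h3, card_empty]
    omega

/-- a twin in `N F` with at least three neighbours in `F` has at most one further neighbour -/
theorem tw_one (c : Lx G F l h v w) {x y a b : V} (hx : x ∈ G.N F) (h1 : G.Tw x y)
    (h2 : G.d x F ≠ 2) (ha : a ∈ G.pT F x) (hb : b ∈ G.pT F x) (hay : a ≠ y) (hby : b ≠ y) :
    a = b := by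
  by_contra hab
  have hd := c.hBas.pos F c.hF x hx
  obtain ⟨h3, h4, -⟩ := c.gT hx ⟨_, h1⟩
  have h5 : y ∈ G.pT F x := mem_pT.2 ⟨h1.1, c.par hx h1⟩
  have h6 := three_le33 ha hb h5 hab hay hby
  omega

/-- Case 1: `l` is not adjacent to the pair -/
theorem case1 (c : Lx G F l h v w) (hlv : v ∉ G.nb l) : 16 ≤ ∑ x ∈ G.N F, G.gam5 F x := by
  classical
  have hlv' : l ∉ G.nb v := fun h1 => hlv (G.sym _ _ h1)
  have h1 := c.hBas.inn F c.hF l c.lF
  have hml : (G.ms50 F l).card ≤ 1 := by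
    rw [c.ml, c.dl, if_neg hlv]
    split_ifs <;> norm_num
  have hmv : (G.ms50 F v).card ≤ 1 := by
    have h2 := c.mv
    rw [c.dv, if_neg hlv'] at h2
    split_ifs at h2 <;> omega
  -- no twins with two neighbours in `F`
  have hno : ∀ x ∈ G.N F, G.IsTw x → G.d x F ≠ 2 := by
    rintro x hx ⟨y, hxy⟩ h2
    have hy := c.par hx hxy
    by_cases h3 : v ∈ G.nb x
    · have h4 : l ∉ G.nb x := by
        intro h4
        rw [c.dT hx, if_pos h3, if_pos h4] at h2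
        omega
      have h5 : l ∉ G.nb y := fun h5 => h4 ((c.parF hx hxy c.lF).1 h5)
      have := two_le5 (mem_ms50.2 ⟨hx, h4⟩) (mem_ms50.2 ⟨hy, h5⟩) hxy.ne33
      omega
    · have h5 : v ∉ G.nb y := fun h5 => h3 ((c.parF hx hxy c.vF).1 h5)
      have := two_le5 (mem_ms50.2 ⟨hx, h3⟩) (mem_ms50.2 ⟨hy, h5⟩) hxy.ne33
      omega
  set S := (G.N F).filter (fun y => v ∈ G.nb y) with hS
  have memS : ∀ {x : V}, x ∈ S ↔ x ∈ G.N F ∧ v ∈ G.nb x := fun {x} => mem_filter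
  have hSN : S ⊆ G.N F := filter_subset _ _
  have hScard : 5 ≤ S.card := by
    have h2 : G.N F ⊆ S ∪ G.ms50 F v := by
      intro y hy
      by_cases h3 : v ∈ G.nb y
      · exact mem_union_left _ (memS.2 ⟨hy, h3⟩)
      · exact mem_union_right _ (mem_ms50.2 ⟨hy, h3⟩)
    have h3 := (card_le_card h2).trans (card_union_le _ _)
    rw [c.cT] at h3
    omega
  -- covers
  have hcv : ∀ y ∈ S, (∃ u ∈ S, G.Low u ∧ y ∈ G.nb u) ∨
      (∃ a ∈ S, ∃ b ∈ S, G.Tw a b ∧ y ∈ G.nb a ∧ y ∈ G.nb b) ∨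
      (∃ a ∈ S, ∃ b ∈ S, G.HL a b y) := by
    intro y hy
    obtain ⟨hyN, hyv⟩ := memS.1 hy
    rcases c.cv hyN hyv with h2 | h2 | h2 | h2 | h2
    · exact absurd h2.1 hlv'
    · obtain ⟨u, hu, hul, huv, huy⟩ := h2
      exact Or.inl ⟨u, memS.2 ⟨hu, huv⟩, hul, G.sym _ _ huy⟩
    · obtain ⟨a, ha, b, hb, h3, h4, h5, h6, h7⟩ := h2
      exact Or.inr (Or.inl ⟨a, memS.2 ⟨ha, h4⟩, b, memS.2 ⟨hb, h5⟩, h3, G.sym _ _ h6,
        G.sym _ _ h7⟩)
    · obtain ⟨a, ha, b, hb, h3, h4, h5⟩ := h2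
      exact Or.inr (Or.inr ⟨a, memS.2 ⟨ha, h4⟩, b, memS.2 ⟨hb, h5⟩, h3⟩)
    · exact absurd h2.2.2 hlv'
  have hcnt := (c.hCnt c.hF.sat c.n9 F S S (Subset.refl _) hSN v (fun y hy => by
    rcases hcv y hy with h2 | h2 | h2
    · exact Or.inl h2
    · exact Or.inr (Or.inl h2)
    · exact Or.inr (Or.inr (Or.inl h2)))).1
  -- two lows
  have htwo : ∃ x ∈ S, ∃ y ∈ S, x ≠ y ∧ G.Low x ∧ G.Low y := by
    by_contra hcon
    push Not at hcon
    -- a low vertex
    have hlow : ∃ x ∈ S, G.Low x := by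
      by_contra hn
      push Not at hn
      obtain ⟨y, hy⟩ : S.Nonempty := card_pos.1 (by omega)
      have step : ∀ y ∈ S, ∃ a ∈ S, ∃ b ∈ S, G.Tw a b ∧ y ∈ G.nb a ∧ y ∈ G.nb b := by
        intro y hy
        rcases hcv y hy with h2 | h2 | h2
        · obtain ⟨u, hu, hul, -⟩ := h2
          exact absurd hul (hn u hu)
        · exact h2
        · obtain ⟨a, ha, b, hb, h3⟩ := h2
          exact absurd h3.2.1 (hn b hb)
      obtain ⟨a, ha, b, hb, hab, -, -⟩ := step y hy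
      obtain ⟨a', ha', b', hb', hab', h3, h4⟩ := step a ha
      have haN := (memS.1 ha).1
      have e1 : a' ≠ b := by
        rintro rfl
        have h5 : b' = a := c.uniq hab' hab.sym33
        rw [h5] at h4
        exact G.irr _ h4
      have e2 : b' ≠ b := by
        rintro rfl
        have h5 : a' = a := c.uniq hab'.sym33 hab.sym33
        rw [h5] at h3
        exact G.irr _ h3
      exact hab'.ne33 (c.tw_one haN hab (hno a haN ⟨_, hab⟩)
        (mem_pT.2 ⟨G.sym _ _ h3, (memS.1 ha').1⟩) (mem_pT.2 ⟨G.sym _ _ h4, (memS.1 hb').1⟩)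
        e1 e2)
    obtain ⟨d0, hd0, hl0⟩ := hlow
    have honly : ∀ x ∈ S, G.Low x → x = d0 := by
      intro x hx hxl
      by_contra h2
      exact hcon x hx d0 hd0 h2 hxl hl0
    -- a twin is adjacent to `d0`
    have htw0 : ∀ a ∈ S, ∀ b, G.Tw a b → d0 ∈ G.nb a := by
      intro a ha b hab
      have haN := (memS.1 ha).1
      rcases hcv a ha with h2 | h2 | h2
      · obtain ⟨u, hu, hul, h3⟩ := h2
        rw [honly u hu hul] at h3
        exact G.sym _ _ h3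
      · exfalso
        obtain ⟨a', ha', b', hb', hab', h3, h4⟩ := h2
        have e1 : a' ≠ b := by
          rintro rfl
          have h5 : b' = a := c.uniq hab' hab.sym33
          rw [h5] at h4
          exact G.irr _ h4
        have e2 : b' ≠ b := by
          rintro rfl
          have h5 : a' = a := c.uniq hab'.sym33 hab.sym33
          rw [h5] at h3
          exact G.irr _ h3
        exact hab'.ne33 (c.tw_one haN hab (hno a haN ⟨_, hab⟩)
          (mem_pT.2 ⟨G.sym _ _ h3, (memS.1 ha').1⟩) (mem_pT.2 ⟨G.sym _ _ h4, (memS.1 hb').1⟩)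
          e1 e2)
      · obtain ⟨a', ha', b', hb', h3⟩ := h2
        exact absurd (c.hF.sat _ _ _ h3) (not_low33 ⟨_, hab⟩)
    have hall : ∀ y ∈ S, y ≠ d0 → y ∈ G.nb d0 := by
      intro y hy hne
      rcases hcv y hy with h2 | h2 | h2
      · obtain ⟨u, hu, hul, h3⟩ := h2
        rw [honly u hu hul] at h3
        exact h3
      · obtain ⟨a, ha, b, hb, hab, h3, h4⟩ := h2
        by_cases hyb : y = b
        · rw [hyb] at h4
          exact absurd h4 (G.irr _)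
        · have h5 := htw0 a ha b hab
          have haN := (memS.1 ha).1
          have hd0b : d0 ≠ b := by
            rintro rfl
            exact not_tw33 hl0 ⟨_, hab.sym33⟩
          exact absurd (c.tw_one haN hab (hno a haN ⟨_, hab⟩)
            (mem_pT.2 ⟨h3, (memS.1 hy).1⟩) (mem_pT.2 ⟨h5, (memS.1 hd0).1⟩) hyb hd0b) hne
      · obtain ⟨a, ha, b, hb, h3⟩ := h2
        exfalso
        have h4 := honly b hb h3.2.1
        have h5 := honly y hy (c.hF.sat _ _ _ h3)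
        exact (HL_bt76 h3).2 (h5.trans h4.symm)
    have hsub : S.erase d0 ⊆ G.pT F d0 := by
      intro y hy
      obtain ⟨h2, h3⟩ := mem_erase.1 hy
      exact mem_pT.2 ⟨hall y h3 h2, (memS.1 h3).1⟩
    have h2 := card_le_card hsub
    rw [card_erase_of_mem hd0] at h2
    have h3 := c.pT3 (memS.1 hd0).1 hl0
    omega
  obtain ⟨x, hx, y, hy, hxy, hxl, hyl⟩ := htwo
  have hxN := (memS.1 hx).1
  have hyN := (memS.1 hy).1
  have hff : ∀ z ∈ S, 0 ≤ ff G F z := fun z hz => c.ff0 hno (memS.1 hz).1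
  have hsum := ge2_50 hff hx hy hxy
  have hb : ∀ z ∈ S, G.Low z → 2 ≤ ff G F z ∧ (G.d z F ≠ 2 → 4 ≤ ff G F z) := by
    intro z hz hzl
    have hzN := (memS.1 hz).1
    have hd := c.hBas.pos F c.hF z hzN
    have hd' := c.d4 z
    have h3 : G.d z F = 2 ∨ G.d z F = 3 ∨ G.d z F = 4 := by
      have : G.d z F ≤ 4 := by
        rw [hd']
        split_ifs <;> norm_num
      omega
    rcases h3 with h3 | h3 | h3
    · refine ⟨c.ffL2 hzN hzl h3 (by
          rintro ⟨⟨a, b, h4, h5⟩, h6⟩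
          have h7 : a ∈ G.pT F z := by rw [h5]; simp
          exact hno a (mem_pT.1 h7).2 ⟨_, h4⟩ (h6 a h7)), fun h4 => absurd h3 h4⟩
    · have := c.ffL3 hzN hzl h3
      exact ⟨by linarith, fun _ => this⟩
    · have := c.ffL4 hzN hzl h3
      exact ⟨by linarith, fun _ => by linarith⟩
  have h6 : 6 ≤ ff G F x + ff G F y := by
    have h2 := hb x hx hxl
    have h3 := hb y hy hyl
    by_cases h4 : G.d x F = 2
    · have h5 : G.d y F ≠ 2 := by
        intro h5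
        have key : ∀ z ∈ S, G.d z F = 2 → z ∈ G.ms50 F l := by
          intro z hz hz2
          obtain ⟨hzN, hzv⟩ := memS.1 hz
          refine mem_ms50.2 ⟨hzN, fun h6 => ?_⟩
          rw [c.dT hzN, if_pos hzv, if_pos h6] at hz2
          omega
        have := two_le5 (key x hx h4) (key y hy h5) hxy
        omega
      linarith [h3.2 h5, h2.1]
    · linarith [h2.2 h4, h3.1]
  have hSs : ∑ z ∈ S, ff G F z = ∑ z ∈ S, G.gam5 F z -
      ∑ z ∈ S, G.wt3 G.Tw z * ((G.tT G.Tw F z).card : ℤ) := by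
    rw [← sum_sub_distrib]
    rfl
  have hc5 : (5 : ℤ) ≤ (S.card : ℤ) := by exact_mod_cast hScard
  have hge : ∑ z ∈ S, G.gam5 F z ≤ ∑ z ∈ G.N F, G.gam5 F z :=
    ge_sub50 (fun z hz _ => c.g0 hz (hno z hz)) hSN
  linarith

end Lx

end CG

end Pool.Agent.Lib.MP_e95c01_co.N
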