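import Pool.Agent.Lib.MP_e95c01_co.X.H4b_50

/-!
# Leaves with four vertices, a low vertex, a hub and a pair of twins: the hub is not adjacent to
the pair
-/

namespace Pool.Agent.Lib.MP_e95c01_co.N

open Finset

variable {V : Type} [Fintype V] [DecidableEq V]

namespace CG

variable {G : CG V} {F : Finset V} {l h v w : V}

namespace Lx

/-- a pair adjacent to a low vertex -/
theorem pair_pT (c : Lx G F l h v w) {x y d : V} (hx : x ∈ G.N F) (hxy : G.Tw x y)
    (hd : G.Low d) (h1 : x ∈ G.pT F d) : y ∈ G.pT F d := by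
  obtain ⟨h2, h3⟩ := mem_pT.1 h1
  refine mem_pT.2 ⟨?_, c.par hx hxy⟩
  refine G.sym _ _ (Tw_nb5 hxy (G.sym _ _ h2) ?_)
  rintro rfl
  exact not_low33 ⟨_, hxy.sym33⟩ hd

/-- Case 2a: `h` is not adjacent to the pair -/
theorem case2a (c : Lx G F l h v w) (hlv : v ∈ G.nb l) (hhv : v ∉ G.nb h) :
    16 ≤ ∑ x ∈ G.N F, G.gam5 F x := by
  classical
  have hlv' : l ∈ G.nb v := G.sym _ _ hlv
  have hhv' : h ∉ G.nb v := fun h1 => hhv (G.sym _ _ h1)
  have h1 := c.hBas.inn F c.hF h c.hhF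
  have hdh := c.dh
  rw [if_neg hhv] at hdh
  have hlh : l ∈ G.nb h := by
    by_contra h2
    rw [if_neg h2] at hdh
    omega
  rw [if_pos hlh] at hdh
  have hmh : G.ms50 F h = ∅ := by
    have := c.mh
    rw [← card_eq_zero]
    omega
  have hml : (G.ms50 F l).card = 3 := by
    rw [c.ml, c.dl, if_pos hlv, if_pos (G.sym _ _ hlh)]
  have hmv : (G.ms50 F v).card = 1 := by
    have h2 := c.mv
    rw [c.dv, if_pos hlv', if_neg hhv'] at h2
    omega
  obtain ⟨a0, ha0⟩ := card_eq_one.1 hmv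
  have ha0' : a0 ∈ G.ms50 F v := by rw [ha0]; exact mem_singleton_self _
  obtain ⟨ha0N, ha0v⟩ := mem_ms50.1 ha0'
  have hvof : ∀ x ∈ G.N F, x ≠ a0 → v ∈ G.nb x := by
    intro x hx hne
    by_contra h2
    have h3 : x ∈ G.ms50 F v := mem_ms50.2 ⟨hx, h2⟩
    rw [ha0, mem_singleton] at h3
    exact hne h3
  have hh : ∀ x ∈ G.N F, h ∈ G.nb x := by
    intro x hx
    by_contra h2
    have h3 : x ∈ G.ms50 F h := mem_ms50.2 ⟨hx, h2⟩
    rw [hmh] at h3
    exact absurd h3 (notMem_empty _)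
  have ha0t : ¬ G.IsTw a0 := by
    rintro ⟨y, hy⟩
    have hyN := c.par ha0N hy
    have h2 : y ∈ G.ms50 F v := mem_ms50.2 ⟨hyN, fun h3 => ha0v ((c.parF ha0N hy c.vF).1 h3)⟩
    rw [ha0, mem_singleton] at h2
    exact hy.ne33 h2.symm
  have hd : ∀ x ∈ G.N F, x ≠ a0 → (l ∉ G.nb x → G.d x F = 3) ∧ (l ∈ G.nb x → G.d x F = 4) :=
    fun x hx hne => ⟨fun h2 => c.d_lV hx h2 (hh x hx),
      fun h2 => c.d_LH hx h2 (hh x hx) (hvof x hx hne)⟩
  have hno : ∀ x ∈ G.N F, G.IsTw x → G.d x F ≠ 2 := by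
    intro x hx ht
    have hne : x ≠ a0 := fun h2 => ha0t (h2 ▸ ht)
    by_cases h2 : l ∈ G.nb x
    · rw [(hd x hx hne).2 h2]
      norm_num
    · rw [(hd x hx hne).1 h2]
      norm_num
  have hg0 : ∀ x ∈ G.N F, 0 ≤ G.gam5 F x := fun x hx => c.g0 hx (hno x hx)
  set S := (G.N F).filter (fun y => v ∈ G.nb y) with hS
  have memS : ∀ {x : V}, x ∈ S ↔ x ∈ G.N F ∧ v ∈ G.nb x := fun {x} => mem_filter
  have hSN : S ⊆ G.N F := filter_subset _ _
  have hSa : ∀ x ∈ S, x ≠ a0 := by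
    rintro x hx rfl
    exact ha0v (memS.1 hx).2
  have hUS : ∀ x ∈ G.ms50 F l, x ∈ S := fun x hx =>
    memS.2 ⟨(mem_ms50.1 hx).1, c.vol (mem_ms50.1 hx).1 (mem_ms50.1 hx).2⟩
  -- covers of vertices that are not adjacent to `l`
  have hcv : ∀ y ∈ G.ms50 F l, (∃ u ∈ S, G.Low u ∧ y ∈ G.nb u) ∨
      (∃ a ∈ S, ∃ b ∈ S, G.Tw a b ∧ y ∈ G.nb a ∧ y ∈ G.nb b) ∨
      (∃ a ∈ S, ∃ b ∈ S, G.HL a b y) := by
    intro y hy
    obtain ⟨hyN, hyl⟩ := mem_ms50.1 hy
    have hyv := (memS.1 (hUS y hy)).2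
    rcases c.cv hyN hyv with h2 | h2 | h2 | h2 | h2
    · exact absurd h2.2 hyl
    · obtain ⟨u, hu, hul, huv, huy⟩ := h2
      exact Or.inl ⟨u, memS.2 ⟨hu, huv⟩, hul, G.sym _ _ huy⟩
    · obtain ⟨a, ha, b, hb, h3, h4, h5, h6, h7⟩ := h2
      exact Or.inr (Or.inl ⟨a, memS.2 ⟨ha, h4⟩, b, memS.2 ⟨hb, h5⟩, h3, G.sym _ _ h6,
        G.sym _ _ h7⟩)
    · obtain ⟨a, ha, b, hb, h3, h4, h5⟩ := h2
      exact Or.inr (Or.inr ⟨a, memS.2 ⟨ha, h4⟩, b, memS.2 ⟨hb, h5⟩, h3⟩)
    · exact absurd h2.2.1 hhv'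
  by_cases hUt : ∃ a ∈ G.ms50 F l, G.IsTw a
  · -- a pair of twins that is not adjacent to `l`
    obtain ⟨a, ha, b, hab⟩ := hUt
    obtain ⟨haN, hal⟩ := mem_ms50.1 ha
    have hbN := c.par haN hab
    have hbl : l ∉ G.nb b := fun h2 => hal ((c.parF haN hab c.lF).1 h2)
    have hb : b ∈ G.ms50 F l := mem_ms50.2 ⟨hbN, hbl⟩
    obtain ⟨d0, hd0, hl0, had⟩ : ∃ d0 ∈ S, G.Low d0 ∧ a ∈ G.nb d0 := by
      rcases hcv a ha with h2 | h2 | h2
      · exact h2
      · exfalso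
        obtain ⟨a', ha', b', hb', hab', h3, h4⟩ := h2
        have e1 : a' ≠ b := by
          rintro rfl
          have h5 : b' = a := c.uniq hab' hab.sym33
          rw [h5] at h4
          exact G.irr _ h4
        have e2 : b' ≠ b := by
          rintro rfl
          have h5 : a' = a := c.uniq hab'.sym33 hab.sym33
          rw [h5] at h3
          exact G.irr _ h3
        exact hab'.ne33 (c.tw_one haN hab (hno a haN ⟨_, hab⟩)
          (mem_pT.2 ⟨G.sym _ _ h3, (memS.1 ha').1⟩) (mem_pT.2 ⟨G.sym _ _ h4, (memS.1 hb').1⟩)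
          e1 e2)
      · obtain ⟨a', ha', b', hb', h3⟩ := h2
        exact absurd (c.hF.sat _ _ _ h3) (not_low33 ⟨_, hab⟩)
    have hd0N := (memS.1 hd0).1
    have had' : a ∈ G.pT F d0 := mem_pT.2 ⟨had, haN⟩
    have hbd' : b ∈ G.pT F d0 := c.pair_pT haN hab hl0 had'
    have hd0l : l ∉ G.nb d0 := by
      intro h2
      have h3 := (c.gL4 hd0N hl0 ((hd d0 hd0N (hSa d0 hd0)).2 h2)).1
      have := two_le5 had' hbd' hab.ne33
      omega
    have hd3 := (hd d0 hd0N (hSa d0 hd0)).1 hd0l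
    obtain ⟨-, -, -, -, -, h12⟩ := c.gL3 hd0N hl0 hd3
    obtain ⟨hpd, hgd⟩ := h12 a b hab had' hbd'
    have had0 : a ≠ d0 := ne_of_nb5 (G.sym _ _ had)
    have hbd0 : b ≠ d0 := ne_of_nb5 (G.sym _ _ (mem_pT.1 hbd').1)
    have hga : ∀ x y, G.Tw x y → x ∈ G.ms50 F l → x ∈ G.pT F d0 → 1 ≤ G.gam5 F x := by
      intro x y hxy hx hxd
      obtain ⟨hxN, hxl⟩ := mem_ms50.1 hx
      obtain ⟨h2, h3, -, -, h4, -⟩ := c.gT hxN ⟨_, hxy⟩
      have hxa : x ≠ a0 := hSa x (hUS x hx)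
      have h5 := h4 ((hd x hxN hxa).1 hxl)
      have h6 : y ∈ G.pT F x := mem_pT.2 ⟨hxy.1, c.par hxN hxy⟩
      have h7 : d0 ∈ G.pT F x := mem_pT.2 ⟨G.sym _ _ (mem_pT.1 hxd).1, hd0N⟩
      have h8 : y ≠ d0 := by
        rintro rfl
        exact not_low33 ⟨_, hxy.sym33⟩ hl0
      have h9 : (2 : ℤ) ≤ ((G.pT F x).card : ℤ) := by exact_mod_cast two_le5 h6 h7 h8
      linarith
    have g1 := hga a b hab ha had'
    have g2 := hga b a hab.sym33 hb hbd'
    by_contra hcon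
    push Not at hcon
    have hrest : ∀ x ∈ G.N F, x ≠ a → x ≠ b → x ≠ d0 → ¬ G.Low x ∧ ¬ G.IsTw x := by
      intro x hx e1 e2 e3
      have h2 := ge4_50 hg0 haN hbN hd0N hx hab.ne33 had0 e1.symm hbd0 e2.symm e3.symm
      constructor
      · intro hl
        have h3 : 2 ≤ G.gam5 F x := by
          by_cases h4 : x = a0
          · rw [h4] at hl ⊢
            exact (c.gL2 ha0N hl (c.nov ha0N ha0v).2.2).2.1
          · by_cases h5 : l ∈ G.nb x
            · linarith [(c.gL4 hx hl ((hd x hx h4).2 h5)).2.1]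
            · linarith [(c.gL3 hx hl ((hd x hx h4).1 h5)).2.1]
        linarith
      · rintro ⟨y, hxy⟩
        have hyN := c.par hx hxy
        have hxa : x ≠ a0 := fun h3 => ha0t (h3 ▸ ⟨y, hxy⟩)
        have hya : y ≠ a0 := fun h3 => ha0t (h3 ▸ ⟨x, hxy.sym33⟩)
        have hxl : l ∈ G.nb x := by
          by_contra h3
          have h4 : x ∈ G.ms50 F l := mem_ms50.2 ⟨hx, h3⟩
          have h5 : ({a, b, d0} : Finset V) = G.ms50 F l := by
            refine eq_of_subset_of_card_le ?_ ?_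
            · intro z hz
              rw [mem_insert, mem_insert, mem_singleton] at hz
              rcases hz with rfl | rfl | rfl
              · exact ha
              · exact hb
              · exact mem_ms50.2 ⟨hd0N, hd0l⟩
            · rw [hml, card_eq_three.2 ⟨a, b, d0, hab.ne33, had0, hbd0, rfl⟩]
          rw [← h5, mem_insert, mem_insert, mem_singleton] at h4
          rcases h4 with h4 | h4 | h4
          · exact e1 h4
          · exact e2 h4
          · exact e3 h4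
        have hyl : l ∈ G.nb y := (c.parF hx hxy c.lF).2 hxl
        have h3 := (c.gT hx ⟨_, hxy⟩).2.2.2.2.2 ((hd x hx hxa).2 hxl)
        have h4 := (c.gT hyN ⟨_, hxy.sym33⟩).2.2.2.2.2 ((hd y hyN hya).2 hyl)
        have f1 : y ≠ a := by
          rintro rfl
          exact hal hyl
        have f2 : y ≠ b := by
          rintro rfl
          exact hbl hyl
        have f3 : y ≠ d0 := by
          rintro rfl
          exact hd0l hyl
        have h5 := ge3_50 (T := ((G.N F).erase x).erase y) (f := G.gam5 F)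
          (fun u hu => hg0 u (mem_erase.1 (mem_erase.1 hu).2).2)
          (mem_erase.2 ⟨f1.symm, mem_erase.2 ⟨e1.symm, haN⟩⟩)
          (mem_erase.2 ⟨f2.symm, mem_erase.2 ⟨e2.symm, hbN⟩⟩)
          (mem_erase.2 ⟨f3.symm, mem_erase.2 ⟨e3.symm, hd0N⟩⟩) hab.ne33 had0 hbd0
        have h6 := out2_50 (f := G.gam5 F) hx hyN hxy.ne33
        linarith
    have ha0a : a0 ≠ a := (hSa a (hUS a ha)).symm
    have ha0b : a0 ≠ b := (hSa b (hUS b hb)).symm
    have ha0d : a0 ≠ d0 := (hSa d0 hd0).symm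
    have ha0L := hrest a0 ha0N ha0a ha0b ha0d
    have hlowT : ∀ x ∈ G.N F, G.Low x → x = d0 := by
      intro x hx hl
      by_contra h2
      refine (hrest x hx ?_ ?_ h2).1 hl
      · rintro rfl
        exact not_low33 ⟨_, hab⟩ hl
      · rintro rfl
        exact not_low33 ⟨_, hab.sym33⟩ hl
    rcases c.cl ha0N (c.nov ha0N ha0v).1 with h2 | h2 | h2 | h2 | h2 | h2
    · exact ha0v h2.2
    · obtain ⟨u, hu, hul, hlu, -⟩ := h2
      rw [hlowT u hu hul] at hlu
      exact hd0l hlu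
    · obtain ⟨x, hx, y, hy, hxy, hlx, hly, -, -⟩ := h2
      have e3 : x ≠ d0 := by
        rintro rfl
        exact hd0l hlx
      have e1 : x ≠ a := by
        rintro rfl
        exact hal hlx
      have e2 : x ≠ b := by
        rintro rfl
        exact hbl hlx
      exact (hrest x hx e1 e2 e3).2 ⟨_, hxy⟩
    · obtain ⟨x, hx, y, hy, hxy, -⟩ := h2
      exact ha0L.1 (c.hF.sat _ _ _ hxy)
    · obtain ⟨x, hx, y, hy, hxy, -, h3⟩ := h2
      rw [hlowT y hy hxy.2.1] at h3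
      have h4 : a0 ∈ G.pT F d0 := mem_pT.2 ⟨G.sym _ _ h3, ha0N⟩
      rw [hpd, mem_insert, mem_singleton] at h4
      rcases h4 with h4 | h4
      · exact ha0a h4
      · exact ha0b h4
    · obtain ⟨x, hx, y, hy, hxy⟩ := h2
      have h3 := LL_t76 hxy
      rw [hlowT x hx hxy.1] at h3
      exact hd0l h3
  · push Not at hUt
    -- twins in `S` have no further neighbour
    have hSt : ∀ x ∈ S, G.IsTw x → G.d x F = 4 := by
      intro x hx ht
      have hxN := (memS.1 hx).1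
      have hxl : l ∈ G.nb x := by
        by_contra h2
        exact hUt x (mem_ms50.2 ⟨hxN, h2⟩) ht
      exact (hd x hxN (hSa x hx)).2 hxl
    have htau : ∀ x ∈ S, ¬ G.Low x → G.wt3 G.Tw x * ((G.tT G.Tw F x).card : ℤ) = 0 := by
      intro x hx hl
      by_cases ht : G.IsTw x
      · have hxN := (memS.1 hx).1
        rw [c.tauT hxN ht]
        obtain ⟨h2, h3, -⟩ := c.gT hxN ht
        have h4 := hSt x hx ht
        have h5 : (G.pT F x).card = 1 := by omega
        rw [h5]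
        norm_num
      · exact tauH hl ht
    have hd34 : ∀ x ∈ S, G.d x F = 3 ∨ G.d x F = 4 := by
      intro x hx
      by_cases h2 : l ∈ G.nb x
      · exact Or.inr ((hd x (memS.1 hx).1 (hSa x hx)).2 h2)
      · exact Or.inl ((hd x (memS.1 hx).1 (hSa x hx)).1 h2)
    -- the count
    set M := S.filter (fun y => l ∉ G.nb y ∨ ∃ b ∈ S, G.Low b ∧ y ∈ G.nb b) with hM
    have hMS : M ⊆ S := filter_subset _ _
    have hUM : G.ms50 F l ⊆ M := fun x hx =>
      mem_filter.2 ⟨hUS x hx, Or.inl (mem_ms50.1 hx).2⟩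
    have hcnt := (c.hCnt c.hF.sat c.n9 F M S hMS hSN v (fun y hy => by
      obtain ⟨hyS, hy2⟩ := mem_filter.1 hy
      rcases hy2 with h2 | h2
      · rcases hcv y (mem_ms50.2 ⟨(memS.1 hyS).1, h2⟩) with h3 | h3 | h3
        · exact Or.inl h3
        · exact Or.inr (Or.inl h3)
        · obtain ⟨a, ha, b, hb, h4⟩ := h3
          exact Or.inr (Or.inr (Or.inl ⟨a, mem_filter.2 ⟨ha, Or.inr ⟨b, hb, h4.2.1,
            G.sym _ _ (HL_b76 h4)⟩⟩, b, hb, h4⟩))
      · exact Or.inl h2)).1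
    have hM3 : (3 : ℤ) ≤ (M.card : ℤ) := by
      have := card_le_card hUM
      rw [hml] at this
      exact_mod_cast this
    set Lw := S.filter (fun x => G.Low x) with hLw
    have memL : ∀ {x : V}, x ∈ Lw ↔ x ∈ S ∧ G.Low x := fun {x} => mem_filter
    have hsumL : ∑ z ∈ S, G.wt3 G.Tw z * ((G.tT G.Tw F z).card : ℤ) =
        ∑ z ∈ Lw, 2 * ((G.pT F z).card : ℤ) := by
      have h2 : ∑ z ∈ Lw, 2 * ((G.pT F z).card : ℤ) =
          ∑ z ∈ S, if G.Low z then 2 * ((G.pT F z).card : ℤ) else 0 := sum_filter _ _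
      rw [h2]
      refine sum_congr rfl fun x hx => ?_
      by_cases hl : G.Low x
      · rw [if_pos hl, tauL hl]
      · rw [if_neg hl, htau x hx hl]
    rw [hsumL] at hcnt
    have hff : ∀ z ∈ S, 0 ≤ ff G F z := fun z hz => c.ff0 hno (memS.1 hz).1
    have hSs : ∑ z ∈ S, ff G F z = ∑ z ∈ S, G.gam5 F z -
        ∑ z ∈ S, G.wt3 G.Tw z * ((G.tT G.Tw F z).card : ℤ) := by
      rw [← sum_sub_distrib]
      rfl
    rw [hsumL] at hSs
    have hge : ∑ z ∈ S, G.gam5 F z ≤ ∑ z ∈ G.N F, G.gam5 F z :=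
      ge_sub50 (fun z hz _ => hg0 z hz) hSN
    have hff3 : ∀ x ∈ S, G.Low x → 4 ≤ ff G F x := by
      intro x hx hl
      rcases hd34 x hx with h2 | h2
      · exact c.ffL3 (memS.1 hx).1 hl h2
      · linarith [c.ffL4 (memS.1 hx).1 hl h2]
    have hp2 : ∀ x ∈ S, G.Low x → (G.pT F x).card ≤ 2 := by
      intro x hx hl
      rcases hd34 x hx with h2 | h2
      · exact (c.gL3 (memS.1 hx).1 hl h2).1
      · have := (c.gL4 (memS.1 hx).1 hl h2).1
        omega
    rcases Nat.lt_or_ge Lw.card 3 with hk | hk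
    · have hk' : Lw.card = 0 ∨ Lw.card = 1 ∨ Lw.card = 2 := by omega
      rcases hk' with hk | hk | hk
      · rw [card_eq_zero] at hk
        rw [hk, sum_empty] at hcnt
        linarith
      · obtain ⟨x, hx⟩ := card_eq_one.1 hk
        have hxL : x ∈ Lw := by rw [hx]; exact mem_singleton_self _
        have h2 := hp2 x (memL.1 hxL).1 (memL.1 hxL).2
        have h3 : ((G.pT F x).card : ℤ) ≤ 2 := by exact_mod_cast h2
        rw [hx, sum_singleton] at hcnt
        linarith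
      · obtain ⟨x, y, hxy, hx⟩ := card_eq_two.1 hk
        have hxL : x ∈ Lw := by rw [hx]; simp
        have hyL : y ∈ Lw := by rw [hx]; simp
        obtain ⟨hxS, hxl⟩ := memL.1 hxL
        obtain ⟨hyS, hyl⟩ := memL.1 hyL
        rw [hx, sum_pair hxy] at hcnt
        have h2 := hp2 x hxS hxl
        have h3 := hp2 y hyS hyl
        have h4 : (3 : ℤ) ≤ ((G.pT F x).card : ℤ) + ((G.pT F y).card : ℤ) := by linarith
        have h5 : 3 ≤ (G.pT F x).card + (G.pT F y).card := by exact_mod_cast h4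
        have hg : ∀ z ∈ S, G.Low z → 6 ≤ G.gam5 F z ∧
            ((G.pT F z).card = 2 → 10 ≤ G.gam5 F z) := by
          intro z hz hl
          rcases hd34 z hz with h6 | h6
          · obtain ⟨-, h7, -, h8, -⟩ := c.gL3 (memS.1 hz).1 hl h6
            exact ⟨h7, h8⟩
          · have := (c.gL4 (memS.1 hz).1 hl h6).2.1
            exact ⟨by linarith, fun _ => this⟩
        have h6 := ge2_50 hg0 (memS.1 hxS).1 (memS.1 hyS).1 hxy
        have h7 := hg x hxS hxl
        have h8 := hg y hyS hyl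
        by_cases h9 : (G.pT F x).card = 2
        · linarith [h7.2 h9, h8.1]
        · linarith [h8.2 (by omega), h7.1]
    · obtain ⟨x, hx, y, hy, z, hz, hxy, hxz, hyz⟩ := two_lt_card.1 hk
      have h2 := ge3_50 hff (memL.1 hx).1 (memL.1 hy).1 (memL.1 hz).1 hxy hxz hyz
      have h3 := hff3 x (memL.1 hx).1 (memL.1 hx).2
      have h4 := hff3 y (memL.1 hy).1 (memL.1 hy).2
      have h5 := hff3 z (memL.1 hz).1 (memL.1 hz).2
      linarith

end Lx

end CG

end Pool.Agent.Lib.MP_e95c01_co.N
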