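import Pool.Agent.Lib.MP_e95c01_co.X.H4c_50

/-!
# Leaves with four vertices, a low vertex, a hub and a pair of twins: both adjacent to the pair
-/

namespace Pool.Agent.Lib.MP_e95c01_co.N

open Finset

variable {V : Type} [Fintype V] [DecidableEq V]

namespace CG

variable {G : CG V} {F : Finset V} {l h v w a a' : V}

/-- both `l` and `h` are adjacent to the pair; `a`, `a'` are not -/
structure Mx (G : CG V) (F : Finset V) (l h v w a a' : V) : Prop where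
  c : Lx G F l h v w
  hlv : v ∈ G.nb l
  hhv : v ∈ G.nb h
  aN : a ∈ G.N F
  aN' : a' ∈ G.N F
  av : v ∉ G.nb a
  av' : v ∉ G.nb a'
  ne : a ≠ a'
  allA : ∀ x ∈ G.N F, v ∉ G.nb x → x = a ∨ x = a'

namespace Mx

open Lx (mem_pT)

theorem symm (m : Mx G F l h v w a a') : Mx G F l h v w a' a :=
  ⟨m.c, m.hlv, m.hhv, m.aN', m.aN, m.av', m.av, m.ne.symm, fun x hx h1 =>
    (m.allA x hx h1).symm⟩

theorem al (m : Mx G F l h v w a a') : l ∈ G.nb a := (m.c.nov m.aN m.av).1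

theorem ah (m : Mx G F l h v w a a') : h ∈ G.nb a := (m.c.nov m.aN m.av).2.1

theorem da (m : Mx G F l h v w a a') : G.d a F = 2 := (m.c.nov m.aN m.av).2.2

/-- number of vertices that are not adjacent to `l` -/
theorem cW (m : Mx G F l h v w a a') [Decidable (h ∈ G.nb l)] :
    (G.ms50 F l).card = 2 + (if h ∈ G.nb l then 1 else 0) := by
  classical
  rw [m.c.ml, m.c.dl, if_pos m.hlv, add_comm]

theorem ch (m : Mx G F l h v w a a') [Decidable (h ∈ G.nb l)] :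
    (G.ms50 F h).card ≤ 1 + (if h ∈ G.nb l then 1 else 0) := by
  classical
  have h1 := m.c.mh
  have h2 := m.c.dh
  rw [if_pos m.hhv] at h2
  by_cases h3 : h ∈ G.nb l
  · rw [if_pos (G.sym _ _ h3)] at h2
    rw [if_pos h3]
    omega
  · rw [if_neg (fun h4 => h3 (G.sym _ _ h4))] at h2
    rw [if_neg h3]
    omega

/-- vertices that are adjacent to `l` and to the pair -/
def Zs (G : CG V) (F : Finset V) (l a a' : V) : Finset V := (G.N F \ G.ms50 F l) \ {a, a'}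

theorem memZ (m : Mx G F l h v w a a') {x : V} :
    x ∈ Zs G F l a a' ↔ x ∈ G.N F ∧ l ∈ G.nb x ∧ v ∈ G.nb x := by
  rw [Zs, mem_sdiff, mem_sdiff, mem_ms50, mem_insert, mem_singleton]
  constructor
  · rintro ⟨⟨h1, h2⟩, h3⟩
    refine ⟨h1, ?_, ?_⟩
    · by_contra h4
      exact h2 ⟨h1, h4⟩
    · by_contra h4
      exact h3 (m.allA x h1 h4)
  · rintro ⟨h1, h2, h3⟩
    refine ⟨⟨h1, fun h4 => h4.2 h2⟩, ?_⟩
    rintro (rfl | rfl)
    · exact m.av h3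
    · exact m.av' h3

theorem cZ (m : Mx G F l h v w a a') [Decidable (h ∈ G.nb l)] :
    (Zs G F l a a').card + (if h ∈ G.nb l then 1 else 0) = 2 := by
  have h1 : G.ms50 F l ⊆ G.N F := filter_subset _ _
  have h2 : ({a, a'} : Finset V) ⊆ G.N F \ G.ms50 F l := by
    intro z hz
    rw [mem_insert, mem_singleton] at hz
    rcases hz with rfl | rfl
    · exact mem_sdiff.2 ⟨m.aN, fun h3 => (mem_ms50.1 h3).2 m.al⟩
    · exact mem_sdiff.2 ⟨m.aN', fun h3 => (mem_ms50.1 h3).2 m.symm.al⟩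
  rw [Zs, card_sdiff_of_subset h2, card_sdiff_of_subset h1, m.c.cT, m.cW, card_pair m.ne]
  split_ifs <;> rfl

theorem Z2 (m : Mx G F l h v w a a') {x y : V} (hx : x ∈ G.N F) (hxl : l ∈ G.nb x)
    (hxv : v ∈ G.nb x) (hy : y ∈ G.N F) (hyl : l ∈ G.nb y) (hyv : v ∈ G.nb y) (hxy : x ≠ y) :
    h ∉ G.nb l ∧ (G.ms50 F h).card ≤ 1 := by
  classical
  have h1 := m.cZ
  have h2 := two_le5 (m.memZ.2 ⟨hx, hxl, hxv⟩) (m.memZ.2 ⟨hy, hyl, hyv⟩) hxy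
  have h3 : h ∉ G.nb l := by
    intro h4
    rw [if_pos h4] at h1
    omega
  refine ⟨h3, ?_⟩
  have := m.ch
  rw [if_neg h3] at this
  exact this

/-- at most one vertex is not adjacent to `h` -/
theorem one_h (_ : Mx G F l h v w a a') (h1 : (G.ms50 F h).card ≤ 1) {x y : V}
    (hx : x ∈ G.N F) (hy : y ∈ G.N F) (hxy : x ≠ y) (hxh : h ∉ G.nb x) : h ∈ G.nb y := by
  by_contra h2
  have := two_le5 (mem_ms50.2 ⟨hx, hxh⟩) (mem_ms50.2 ⟨hy, h2⟩) hxy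
  omega

/-- twins that are adjacent to `l` and to the pair -/
theorem Ztw (m : Mx G F l h v w a a') {x x' : V} (hx : x ∈ G.N F) (hxl : l ∈ G.nb x)
    (hxv : v ∈ G.nb x) (hxx : G.Tw x x') : h ∉ G.nb l ∧ h ∈ G.nb x ∧
      ∀ y ∈ G.pT F x, y = x' := by
  have hx' := m.c.par hx hxx
  have hl' : l ∈ G.nb x' := (m.c.parF hx hxx m.c.lF).2 hxl
  have hv' : v ∈ G.nb x' := (m.c.parF hx hxx m.c.vF).2 hxv
  obtain ⟨h1, h2⟩ := m.Z2 hx hxl hxv hx' hl' hv' hxx.ne33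
  have h3 : h ∈ G.nb x := by
    by_contra h3
    have h4 := m.one_h h2 hx hx' hxx.ne33 h3
    exact h3 ((m.c.parF hx hxx m.c.hhF).1 h4)
  refine ⟨h1, h3, ?_⟩
  intro y hy
  by_contra h4
  have h5 := m.c.d_LH hx hxl h3 hxv
  have h6 := (m.c.gT hx ⟨_, hxx⟩).2.1
  have h7 := two_le5 hy (mem_pT.2 ⟨hxx.1, hx'⟩ : x' ∈ G.pT F x) h4
  omega

theorem twa (m : Mx G F l h v w a a') {y : V} (h1 : G.Tw a y) : y = a' := by
  have hy := m.c.par m.aN h1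
  have h2 : v ∉ G.nb y := fun h3 => m.av ((m.c.parF m.aN h1 m.c.vF).1 h3)
  rcases m.allA y hy h2 with h3 | h3
  · exact absurd h3 h1.ne33.symm
  · exact h3

/-- covers of `v y`, `y` not adjacent to `l` -/
theorem covW (m : Mx G F l h v w a a') {y : V} (hy : y ∈ G.N F) (hyl : l ∉ G.nb y) :
    (∃ u ∈ G.N F, G.Low u ∧ v ∈ G.nb u ∧ u ∈ G.nb y) ∨
    (∃ p ∈ G.N F, ∃ p' ∈ G.N F, G.Tw p p' ∧ v ∈ G.nb p ∧ v ∈ G.nb p' ∧ p ∈ G.nb y ∧
      p' ∈ G.nb y) ∨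
    (∃ p ∈ G.N F, ∃ b ∈ G.N F, G.HL p b y ∧ v ∈ G.nb p ∧ v ∈ G.nb b) ∨
    G.HL h l y := by
  rcases m.c.cv hy (m.c.vol hy hyl) with h2 | h2 | h2 | h2 | h2
  · exact absurd h2.2 hyl
  · exact Or.inl h2
  · exact Or.inr (Or.inl h2)
  · exact Or.inr (Or.inr (Or.inl h2))
  · exact Or.inr (Or.inr (Or.inr h2.1))

/-- the covers of `v y` if there is a hub `x` with `HL x y l` -/
theorem CB (m : Mx G F l h v w a a') {x y : V} (hy : y ∈ G.N F) (h1 : G.HL x y l) :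
    (∃ z ∈ G.pT F y, v ∈ G.nb z ∧ z ≠ x) ∨ (G.HL h l y ∧ h ∈ G.nb y) := by
  have hyl : l ∉ G.nb y := (HL_bt76 h1).1
  rcases m.covW hy hyl with h2 | h2 | h2 | h2
  · obtain ⟨u, hu, hul, huv, huy⟩ := h2
    refine Or.inl ⟨u, mem_pT.2 ⟨huy, hu⟩, huv, ?_⟩
    rintro rfl
    exact HL_not_low76 h1 hul
  · obtain ⟨p, hp, p', hp', hpp, h3, -, h4, -⟩ := h2
    refine Or.inl ⟨p, mem_pT.2 ⟨h4, hp⟩, h3, ?_⟩
    rintro rfl
    exact (stTwHL_5 G).notHL m.c.n9 _ _ _ h1 ⟨_, hpp⟩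
  · obtain ⟨p, hp, b, hb, h3, h4, -⟩ := h2
    refine Or.inl ⟨p, mem_pT.2 ⟨G.sym _ _ (HL_t76 h3), hp⟩, h4, ?_⟩
    rintro rfl
    exact (HL_bt76 h3).2 (b_uniq_5 m.c.n9 h3 h1).symm
  · exact Or.inr ⟨h2, G.sym _ _ (HL_t76 h2)⟩

theorem noR (m : Mx G F l h v w a a') {x y : V} (hx : x ∈ G.N F) (hy : y ∈ G.N F)
    (hxv : v ∈ G.nb x) (h1 : G.HL x y l) (h2 : a ∈ G.nb y) (h3 : a' ∈ G.nb y) : False := by
  have hyl : l ∉ G.nb y := (HL_bt76 h1).1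
  have hxy : x ∈ G.nb y := G.sym _ _ (HL_b76 h1)
  have e1 : a ≠ x := fun h4 => m.av (h4 ▸ hxv)
  have e2 : a' ≠ x := fun h4 => m.av' (h4 ▸ hxv)
  have m1 : a ∈ G.pT F y := mem_pT.2 ⟨h2, m.aN⟩
  have m2 : a' ∈ G.pT F y := mem_pT.2 ⟨h3, m.aN'⟩
  have m3 : x ∈ G.pT F y := mem_pT.2 ⟨hxy, hx⟩
  rcases m.CB hy h1 with ⟨z, hz, hzv, hzx⟩ | ⟨-, h4⟩
  · have e3 : a ≠ z := fun h4 => m.av (h4 ▸ hzv)
    have e4 : a' ≠ z := fun h4 => m.av' (h4 ▸ hzv)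
    have h5 := four_le5 m1 m2 m3 hz m.ne e1 e3 e2 e4 hzx.symm
    have h6 := m.c.pT3 hy h1.2.1
    omega
  · have h5 := three_le33 m1 m2 m3 m.ne e1 e2
    have h6 := (m.c.gL3 hy h1.2.1 (m.c.d_lV hy hyl h4)).1
    omega

/-- covers of `l a` -/
theorem covA (m : Mx G F l h v w a a') :
    (G.Low a' ∧ a' ∈ G.nb a) ∨
    (∃ u ∈ G.N F, G.Low u ∧ l ∈ G.nb u ∧ v ∈ G.nb u ∧ u ∈ G.nb a) ∨
    (∃ x ∈ G.N F, ∃ y ∈ G.N F, G.HL x y a ∧ l ∈ G.nb x ∧ l ∈ G.nb y ∧ v ∈ G.nb y) ∨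
    (∃ x ∈ G.N F, ∃ y ∈ G.N F, G.HL x y l ∧ v ∈ G.nb x ∧ v ∈ G.nb y ∧ x ∈ G.nb a ∧
      y ∈ G.nb a) ∨
    (∃ x ∈ G.N F, ∃ y ∈ G.N F, G.LL x y l a ∧ v ∈ G.nb x) := by
  rcases m.c.cl m.aN m.al with h1 | h1 | h1 | h1 | h1 | h1
  · exact absurd h1.2 m.av
  · obtain ⟨u, hu, hul, hlu, hua⟩ := h1
    by_cases h2 : v ∈ G.nb u
    · exact Or.inr (Or.inl ⟨u, hu, hul, hlu, h2, hua⟩)
    · rcases m.allA u hu h2 with rfl | rfl
      · exact absurd hua (G.irr _)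
      · exact Or.inl ⟨hul, hua⟩
  · exfalso
    obtain ⟨p, hp, p', hp', hpp, h2, h3, h4, h5⟩ := h1
    by_cases h6 : v ∈ G.nb p
    · have h7 := (m.Ztw hp h2 h6 hpp).2.2 a (mem_pT.2 ⟨G.sym _ _ h4, m.aN⟩)
      rw [← h7] at h5
      exact G.irr _ h5
    · have h7 : v ∉ G.nb p' := fun h8 => h6 ((m.c.parF hp hpp m.c.vF).1 h8)
      rcases m.allA p hp h6 with h8 | h8
      · rw [h8] at h4
        exact G.irr _ h4
      · rcases m.allA p' hp' h7 with h9 | h9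
        · rw [h9] at h5
          exact G.irr _ h5
        · exact hpp.ne33 (h8.trans h9.symm)
  · obtain ⟨x, hx, y, hy, h2, h3, h4⟩ := h1
    by_cases h5 : v ∈ G.nb y
    · exact Or.inr (Or.inr (Or.inl ⟨x, hx, y, hy, h2, h3, h4, h5⟩))
    · exfalso
      rcases m.allA y hy h5 with h6 | h6
      · exact (HL_bt76 h2).2 h6.symm
      · have h7 : v ∉ G.nb x := by
          intro h7
          rcases HL_sup76 h2 h7 (m.c.nev m.aN).symm with h8 | h8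
          · exact m.c.nev hy h8.symm
          · exact h5 h8
        rcases m.allA x hx h7 with h8 | h8
        · have := HL_t76 h2
          rw [h8] at this
          exact G.irr _ this
        · have := HL_b76 h2
          rw [h8, h6] at this
          exact G.irr _ this
  · obtain ⟨x, hx, y, hy, h2, h3, h4⟩ := h1
    have hyl : l ∉ G.nb y := (HL_bt76 h2).1
    have hyv := m.c.vol hy hyl
    have hxv : v ∈ G.nb x := HL_sub76 h2 hyv (m.c.nev hx).symm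
    exact Or.inr (Or.inr (Or.inr (Or.inl ⟨x, hx, y, hy, h2, hxv, hyv, h3, h4⟩)))
  · obtain ⟨x, hx, y, hy, h2⟩ := h1
    have hyl : l ∉ G.nb y := (LL_tb76 h2).1
    have hyv := m.c.vol hy hyl
    have hxv : v ∈ G.nb x := by
      rcases LL_from76 h2 hyv (m.c.nev m.aN).symm with h3 | h3
      · exact absurd h3.symm (m.c.nev hx)
      · exact h3
    exact Or.inr (Or.inr (Or.inr (Or.inr ⟨x, hx, y, hy, h2, hxv⟩)))

/-- `a`, `a'` are twins -/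
theorem AP (m : Mx G F l h v w a a') (ht : G.Tw a a') :
    ∃ u ∈ G.N F, G.Low u ∧ l ∈ G.nb u ∧ v ∈ G.nb u ∧ h ∉ G.nb u ∧ G.pT F u = {a, a'} ∧
      12 ≤ G.gam5 F u := by
  rcases m.covA with h1 | h1 | h1 | h1 | h1
  · exact absurd h1.1 (not_low33 ⟨_, ht.sym33⟩)
  · obtain ⟨u, hu, hul, hlu, hvu, hua⟩ := h1
    have m1 : a ∈ G.pT F u := mem_pT.2 ⟨G.sym _ _ hua, m.aN⟩
    have m2 := m.c.pair_pT m.aN ht hul m1
    have h2 : h ∉ G.nb u := by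
      intro h2
      have h3 := (m.c.gL4 hu hul (m.c.d_LH hu hlu h2 hvu)).1
      have h4 := two_le5 m1 m2 m.ne
      omega
    have h3 := (m.c.gL3 hu hul (m.c.d_Lh hu hlu h2)).2.2.2.2.2 a a' ht m1 m2
    exact ⟨u, hu, hul, hlu, hvu, h2, h3.1, h3.2⟩
  · obtain ⟨x, hx, y, hy, h2, -⟩ := h1
    exact absurd (m.c.hF.sat _ _ _ h2) (not_low33 ⟨_, ht⟩)
  · exfalso
    obtain ⟨x, hx, y, hy, h2, h3, h4, h5, h6⟩ := h1
    have m1 : a ∈ G.pT F y := mem_pT.2 ⟨G.sym _ _ h6, m.aN⟩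
    have m2 := m.c.pair_pT m.aN ht h2.2.1 m1
    exact m.noR hx hy h3 h2 (mem_pT.1 m1).1 (mem_pT.1 m2).1
  · obtain ⟨x, hx, y, hy, h2, -⟩ := h1
    exact absurd ⟨_, ht⟩ (twLL_5 (LL_symm5 h2))

theorem ga0 (m : Mx G F l h v w a a') (ht : ¬ G.Tw a a') : 0 ≤ G.gam5 F a := by
  refine m.c.g0 m.aN ?_
  rintro ⟨y, hy⟩
  rw [m.twa hy] at hy
  exact absurd hy ht

theorem ga_low (m : Mx G F l h v w a a') (hl : G.Low a) : 2 ≤ G.gam5 F a :=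
  (m.c.gL2 m.aN hl m.da).2.1

/-- A8: no low vertex helps -/
theorem A8 (m : Mx G F l h v w a a')
    (hZl : ∀ u ∈ G.N F, G.Low u → l ∈ G.nb u → v ∈ G.nb u → ∀ y ∈ G.pT F u, l ∉ G.nb y)
    (hLL : (∀ u ∈ G.N F, l ∈ G.nb u → v ∈ G.nb u → ¬ G.Low u) ∨
      (∀ u ∈ G.N F, l ∉ G.nb u → ¬ G.Low u)) :
    ¬ G.Tw a a' ∧ 8 ≤ G.gam5 F a + G.gam5 F a' := by
  have key : ∀ a a', Mx G F l h v w a a' → (G.Low a' ∧ a' ∈ G.nb a) ∨
      (∃ x ∈ G.N F, ∃ y ∈ G.N F, G.HL x y l ∧ v ∈ G.nb x ∧ v ∈ G.nb y ∧ x ∈ G.nb a ∧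
        y ∈ G.nb a) := by
    intro a a' m
    rcases m.covA with h1 | h1 | h1 | h1 | h1
    · exact Or.inl h1
    · obtain ⟨u, hu, hul, hlu, hvu, hua⟩ := h1
      exact absurd m.al (hZl u hu hul hlu hvu a (mem_pT.2 ⟨G.sym _ _ hua, m.aN⟩))
    · obtain ⟨x, hx, y, hy, h2, h3, h4, h5⟩ := h1
      exact absurd h3 (hZl y hy h2.2.1 h4 h5 x (mem_pT.2 ⟨G.sym _ _ (HL_b76 h2), hx⟩))
    · exact Or.inr h1
    · exfalso
      obtain ⟨x, hx, y, hy, h2, h3⟩ := h1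
      rcases hLL with h4 | h4
      · exact h4 x hx (LL_t76 h2) h3 h2.1
      · exact h4 y hy (LL_tb76 h2).1 h2.2.1
  have two : ∀ a a', Mx G F l h v w a a' → G.Low a → a ∈ G.nb a' →
      (∃ x ∈ G.N F, ∃ y ∈ G.N F, G.HL x y l ∧ v ∈ G.nb x ∧ v ∈ G.nb y ∧ x ∈ G.nb a ∧
        y ∈ G.nb a) → ¬ G.Tw a a' ∧ 8 ≤ G.gam5 F a + G.gam5 F a' := by
    intro a a' m hl haa h1
    obtain ⟨x, hx, y, hy, h2, h3, h4, h5, h6⟩ := h1
    have ht : ¬ G.Tw a a' := fun h7 => not_low33 ⟨_, h7⟩ hl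
    refine ⟨ht, ?_⟩
    have m1 : a' ∈ G.pT F a := mem_pT.2 ⟨G.sym _ _ haa, m.aN'⟩
    have m2 : x ∈ G.pT F a := mem_pT.2 ⟨h5, hx⟩
    have m3 : y ∈ G.pT F a := mem_pT.2 ⟨h6, hy⟩
    have e1 : a' ≠ x := fun h7 => m.av' (h7 ▸ h3)
    have e2 : a' ≠ y := fun h7 => m.av' (h7 ▸ h4)
    have e3 : x ≠ y := ne_of_nb5 (HL_b76 h2)
    have h7 := three_le33 m1 m2 m3 e1 e2 e3
    obtain ⟨-, -, -, h8⟩ := m.c.gL2 m.aN hl m.da
    have h9 := h8 (by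
      rintro ⟨h10, -⟩
      have := pair_card87 h10
      omega)
    have h10 : (3 : ℤ) ≤ ((G.pT F a).card : ℤ) := by exact_mod_cast h7
    have h11 := m.symm.ga0 (fun h12 => ht h12.sym33)
    linarith
  rcases key a a' m with h1 | h1
  · rcases key a' a m.symm with h2 | h2
    · refine ⟨fun h3 => not_low33 ⟨_, h3⟩ h2.1, ?_⟩
      have p1 : 1 ≤ (G.pT F a).card := card_pos.2 ⟨a', mem_pT.2 ⟨h1.2, m.aN'⟩⟩
      have p2 : 1 ≤ (G.pT F a').card := card_pos.2 ⟨a, mem_pT.2 ⟨h2.2, m.aN⟩⟩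
      have g1 := (m.c.gL2 m.aN h2.1 m.da).2.2.1 p1
      have g2 := (m.c.gL2 m.aN' h1.1 m.symm.da).2.2.1 p2
      linarith
    · obtain ⟨h3, h4⟩ := two a' a m.symm h1.1 h1.2 h2
      exact ⟨fun h5 => h3 h5.sym33, by linarith⟩
  · rcases key a' a m.symm with h2 | h2
    · exact two a a' m h2.1 h2.2 h1
    · exfalso
      obtain ⟨x, hx, y, hy, f1, f2, f3, f4, f5⟩ := h1
      obtain ⟨x', hx', y', hy', g1, g2, g3, g4, g5⟩ := h2
      by_cases hyy : y = y'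
      · rw [← hyy] at g5
        exact m.noR hx hy f2 f1 (G.sym _ _ f5) (G.sym _ _ g5)
      · have hxx : x ≠ x' := by
          rintro rfl
          exact hyy (b_uniq_5 m.c.n9 f1 g1)
        obtain ⟨h3, h4⟩ := m.Z2 hx (HL_t76 f1) f2 hx' (HL_t76 g1) g2 hxx
        have hyl : l ∉ G.nb y := (HL_bt76 f1).1
        have hyh : h ∈ G.nb y := by
          by_contra h5
          have h6 := m.one_h h4 hy hx (ne_of_nb5 (HL_b76 f1)).symm h5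
          rcases HL_sup76 f1 h6 m.c.lh.symm with h7 | h7
          · exact m.c.neh hy h7.symm
          · exact h5 h7
        have h5 := (m.c.gL3 hy f1.2.1 (m.c.d_lV hy hyl hyh)).1
        have m1 : x ∈ G.pT F y := mem_pT.2 ⟨G.sym _ _ (HL_b76 f1), hx⟩
        have m2 : a ∈ G.pT F y := mem_pT.2 ⟨G.sym _ _ f5, m.aN⟩
        have e1 : x ≠ a := fun h7 => m.av (h7 ▸ f2)
        rcases m.CB hy f1 with ⟨z, hz, hzv, hzx⟩ | ⟨h6, -⟩
        · have h7 := three_le33 m1 m2 hz e1 hzx.symm (fun h8 => m.av (h8 ▸ hzv))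
          omega
        · exact h3 (G.sym _ _ (HL_b76 h6))

end Mx

end CG

end Pool.Agent.Lib.MP_e95c01_co.N
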