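import Pool.Agent.Lib.MP_e95c01_co.X.H4d_50

/-!
# Leaves with four vertices, a low vertex, a hub and a pair of twins, all adjacent
-/

namespace Pool.Agent.Lib.MP_e95c01_co.N

open Finset

variable {V : Type} [Fintype V] [DecidableEq V]

namespace CG

variable {G : CG V} {F : Finset V} {l h v w a a' z : V}

open Lx (mem_pT)

/-- two adjacent vertices `l`, `h` -/
structure Ey (G : CG V) (F : Finset V) (l h v w a a' z : V) : Prop where
  m : Mx G F l h v w a a'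
  hl : h ∈ G.nb l
  zN : z ∈ G.N F
  zl : l ∈ G.nb z
  zv : v ∈ G.nb z
  allZ : ∀ x ∈ G.N F, l ∈ G.nb x → v ∈ G.nb x → x = z

namespace Ey

theorem cW3 (e : Ey G F l h v w a a' z) : (G.ms50 F l).card = 3 := by
  classical
  rw [e.m.cW, if_pos e.hl]

theorem ch2 (e : Ey G F l h v w a a' z) : (G.ms50 F h).card ≤ 2 := by
  classical
  have := e.m.ch
  rw [if_pos e.hl] at this
  exact this

theorem zt (e : Ey G F l h v w a a' z) : ¬ G.IsTw z := by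
  rintro ⟨y, hy⟩
  exact (e.m.Ztw e.zN e.zl e.zv hy).1 e.hl

theorem inWZ (e : Ey G F l h v w a a' z) {x : V} (hx : x ∈ G.N F) (hv : v ∈ G.nb x) :
    l ∉ G.nb x ∨ x = z := by
  by_cases h1 : l ∈ G.nb x
  · exact Or.inr (e.allZ x hx h1 hv)
  · exact Or.inl h1

/-- three different vertices that are not adjacent to `h` do not exist -/
theorem no3 (e : Ey G F l h v w a a' z) {x y u : V} (hx : x ∈ G.N F) (hy : y ∈ G.N F)
    (hu : u ∈ G.N F) (hxy : x ≠ y) (hxu : x ≠ u) (hyu : y ≠ u) (h1 : h ∉ G.nb x)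
    (h2 : h ∉ G.nb y) : h ∈ G.nb u := by
  by_contra h3
  have h4 := three_le33 (mem_ms50.2 ⟨hx, h1⟩) (mem_ms50.2 ⟨hy, h2⟩) (mem_ms50.2 ⟨hu, h3⟩) hxy
    hxu hyu
  have := e.ch2
  omega

theorem clvz (e : Ey G F l h v w a a' z) : G.Low z ∨
    ∃ b ∈ G.N F, G.HL z b l ∧ l ∉ G.nb b ∧ z ∈ G.nb b ∧ v ∈ G.nb b := by
  rcases e.m.c.clv e.m.hlv with h1 | h1 | h1
  · obtain ⟨u, hu, hul, hlu, hvu⟩ := h1
    exact Or.inl (e.allZ u hu hlu hvu ▸ hul)
  · exfalso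
    obtain ⟨p, hp, p', hp', hpp, h2, h3, h4, h5⟩ := h1
    exact hpp.ne33 ((e.allZ p hp h2 h4).trans (e.allZ p' hp' h3 h5).symm)
  · obtain ⟨x, hx, y, hy, h2, h3, h4⟩ := h1
    have h5 := e.allZ x hx (HL_t76 h2) h3
    rw [h5] at h2
    exact Or.inr ⟨y, hy, h2, (HL_bt76 h2).1, G.sym _ _ (HL_b76 h2), h4⟩

/-- a pair that is not adjacent to `l` but adjacent to `h` -/
theorem tws (m : Mx G F l h v w a a') {p p' : V} (hp : p ∈ G.N F) (hpl : l ∉ G.nb p)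
    (hph : h ∈ G.nb p) (hpp : G.Tw p p') :
    ∃ d ∈ G.N F, G.Low d ∧ v ∈ G.nb d ∧ p ∈ G.pT F d ∧ p' ∈ G.pT F d ∧ 1 ≤ G.gam5 F p ∧
      (∀ y ∈ G.pT F p, y = p' ∨ y = d) := by
  have hd3 := m.c.d_lV hp hpl hph
  have hp' := m.c.par hp hpp
  rcases m.covW hp hpl with h1 | h1 | h1 | h1
  · obtain ⟨u, hu, hul, hvu, hup⟩ := h1
    have m1 : p ∈ G.pT F u := mem_pT.2 ⟨G.sym _ _ hup, hp⟩
    have m2 := m.c.pair_pT hp hpp hul m1
    have e1 : u ≠ p' := by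
      rintro rfl
      exact not_low33 ⟨_, hpp.sym33⟩ hul
    have m3 : u ∈ G.pT F p := mem_pT.2 ⟨hup, hu⟩
    have m4 : p' ∈ G.pT F p := mem_pT.2 ⟨hpp.1, hp'⟩
    refine ⟨u, hu, hul, hvu, m1, m2, ?_, ?_⟩
    · have h2 := (m.c.gT hp ⟨_, hpp⟩).2.2.2.2.1 hd3
      have h3 : (2 : ℤ) ≤ ((G.pT F p).card : ℤ) := by exact_mod_cast two_le5 m3 m4 e1
      linarith
    · intro y hy
      by_cases h2 : y = p'
      · exact Or.inl h2
      · exact Or.inr (m.c.tw_one hp hpp (by rw [hd3]; norm_num) hy m3 h2 e1)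
  · exfalso
    obtain ⟨q, hq, q', hq', hqq, -, -, h3, h4⟩ := h1
    have e1 : q ≠ p' := by
      rintro rfl
      have h5 : q' = p := m.c.uniq hqq hpp.sym33
      rw [h5] at h4
      exact G.irr _ h4
    have e2 : q' ≠ p' := by
      rintro rfl
      have h5 : q = p := m.c.uniq hqq.sym33 hpp.sym33
      rw [h5] at h3
      exact G.irr _ h3
    exact hqq.ne33 (m.c.tw_one hp hpp (by rw [hd3]; norm_num) (mem_pT.2 ⟨h3, hq⟩)
      (mem_pT.2 ⟨h4, hq'⟩) e1 e2)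
  · obtain ⟨x, hx, y, hy, h2, -⟩ := h1
    exact absurd (m.c.hF.sat _ _ _ h2) (not_low33 ⟨_, hpp⟩)
  · exact absurd (m.c.hF.sat _ _ _ h1) (not_low33 ⟨_, hpp⟩)

/-- `a`, `a'` are twins -/
theorem caseA (e : Ey G F l h v w a a' z) (ht : G.Tw a a') :
    16 ≤ ∑ x ∈ G.N F, G.gam5 F x := by
  classical
  have m := e.m
  obtain ⟨u, hu, hul, hlu, hvu, hhu, hpT, hg⟩ := m.AP ht
  have huz := e.allZ u hu hlu hvu
  rw [huz] at hul hhu hpT hg
  have hga : ∀ a a', Mx G F l h v w a a' → G.Tw a a' → a ∈ G.pT F z → -1 ≤ G.gam5 F a := by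
    intro a a' m ht h1
    have h2 := (m.c.gT m.aN ⟨_, ht⟩).2.2.2.1 m.da
    have m1 : a' ∈ G.pT F a := mem_pT.2 ⟨ht.1, m.aN'⟩
    have m2 : z ∈ G.pT F a := mem_pT.2 ⟨G.sym _ _ (mem_pT.1 h1).1, e.zN⟩
    have e1 : a' ≠ z := fun h3 => m.av' (h3 ▸ e.zv)
    have h3 : (2 : ℤ) ≤ ((G.pT F a).card : ℤ) := by exact_mod_cast two_le5 m1 m2 e1
    linarith
  have g1 := hga a a' m ht (by rw [hpT]; simp)
  have g2 := hga a' a m.symm ht.sym33 (by rw [hpT]; simp)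
  -- twins that are not adjacent to `l`
  have hWt : ∀ p ∈ G.N F, l ∉ G.nb p → ∀ p', G.Tw p p' → h ∈ G.nb p := by
    intro p hp hpl p' hpp
    by_contra h1
    have hp' := m.c.par hp hpp
    have hpl' : l ∉ G.nb p' := fun h2 => hpl ((m.c.parF hp hpp m.c.lF).1 h2)
    have h2 := e.no3 e.zN hp hp' (fun h3 => hpl (h3 ▸ e.zl)) (fun h3 => hpl' (h3 ▸ e.zl))
      hpp.ne33 hhu h1
    exact h1 ((m.c.parF hp hpp m.c.hhF).1 h2)
  have hzno : ∀ y ∈ G.N F, l ∉ G.nb y → y ∉ G.nb z := by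
    intro y hy hyl h1
    have h2 : y ∈ G.pT F z := mem_pT.2 ⟨h1, hy⟩
    rw [hpT, mem_insert, mem_singleton] at h2
    rcases h2 with h2 | h2
    · exact hyl (h2 ▸ m.al)
    · exact hyl (h2 ▸ m.symm.al)
  have hlow6 : ∀ x ∈ G.N F, l ∉ G.nb x → G.Low x → h ∈ G.nb x → 6 ≤ G.gam5 F x :=
    fun x hx hxl hl hh => (m.c.gL3 hx hl (m.c.d_lV hx hxl hh)).2.1
  have hpair : ∀ x y, x ∈ G.N F → y ∈ G.N F → l ∉ G.nb x → l ∉ G.nb y → G.Low x → G.Low y →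
      x ≠ y → ∃ x ∈ G.N F, l ∉ G.nb x ∧ 6 ≤ G.gam5 F x := by
    intro x y hx hy hxl hyl lx ly hxy
    by_cases h1 : h ∈ G.nb x
    · exact ⟨x, hx, hxl, hlow6 x hx hxl lx h1⟩
    · have h2 := e.no3 e.zN hx hy (fun h3 => hxl (h3 ▸ e.zl)) (fun h3 => hyl (h3 ▸ e.zl)) hxy
        hhu h1
      exact ⟨y, hy, hyl, hlow6 y hy hyl ly h2⟩
  -- one step
  have step : ∀ y ∈ G.N F, l ∉ G.nb y → (∃ x ∈ G.N F, l ∉ G.nb x ∧ 6 ≤ G.gam5 F x) ∨
      ∃ u ∈ G.N F, l ∉ G.nb u ∧ G.Low u ∧ u ≠ y := by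
    intro y hy hyl
    rcases m.covW hy hyl with h1 | h1 | h1 | h1
    · obtain ⟨u, hu, hul, hvu, huy⟩ := h1
      right
      refine ⟨u, hu, ?_, hul, (ne_of_nb5 huy).symm⟩
      rcases e.inWZ hu hvu with h2 | h2
      · exact h2
      · rw [h2] at huy
        exact absurd (G.sym _ _ huy) (hzno y hy hyl)
    · obtain ⟨p, hp, p', hp', hpp, h3, h4, h5, h6⟩ := h1
      left
      have hpl : l ∉ G.nb p := by
        rcases e.inWZ hp h3 with h7 | h7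
        · exact h7
        · exact absurd ⟨_, hpp⟩ (h7 ▸ e.zt)
      obtain ⟨d, hd, hdl, hdv, m1, m2, -, h7⟩ := tws m hp hpl (hWt p hp hpl p' hpp) hpp
      have h8 : y = d := by
        rcases h7 y (mem_pT.2 ⟨G.sym _ _ h5, hy⟩) with h8 | h8
        · rw [h8] at h6
          exact absurd h6 (G.irr _)
        · exact h8
      rw [← h8] at hdl m1 m2
      refine ⟨y, hy, hyl, ?_⟩
      by_cases h9 : h ∈ G.nb y
      · exact hlow6 y hy hyl hdl h9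
      · have h10 := (m.c.gL2 hy hdl (m.c.d_lv hy hyl h9)).2.2.2 (by
          rintro ⟨-, h11⟩
          have h12 := h11 p m1
          rw [m.c.d_lV hp hpl (hWt p hp hpl p' hpp)] at h12
          omega)
        have h11 : (2 : ℤ) ≤ ((G.pT F y).card : ℤ) := by exact_mod_cast two_le5 m1 m2 hpp.ne33
        linarith
    · obtain ⟨p, hp, b, hb, h2, h3, h4⟩ := h1
      left
      have hbl : l ∉ G.nb b := by
        rcases e.inWZ hb h4 with h5 | h5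
        · exact h5
        · exfalso
          have h6 : p ∈ G.pT F z := mem_pT.2 ⟨h5 ▸ G.sym _ _ (HL_b76 h2), hp⟩
          rw [hpT, mem_insert, mem_singleton] at h6
          rcases h6 with h6 | h6
          · exact m.av (h6 ▸ h3)
          · exact m.av' (h6 ▸ h3)
      exact hpair b y hb hy hbl hyl h2.2.1 (m.c.hF.sat _ _ _ h2) (HL_bt76 h2).2.symm
    · exact Or.inl ⟨y, hy, hyl, hlow6 y hy hyl (m.c.hF.sat _ _ _ h1) (G.sym _ _ (HL_t76 h1))⟩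
  have h6 : ∃ x ∈ G.N F, l ∉ G.nb x ∧ 6 ≤ G.gam5 F x := by
    have h1 : (G.ms50 F l).Nonempty := card_pos.1 (by rw [e.cW3]; norm_num)
    obtain ⟨y, hy⟩ := h1
    obtain ⟨hyN, hyl⟩ := mem_ms50.1 hy
    rcases step y hyN hyl with h2 | ⟨u, hu, hul, hu2, -⟩
    · exact h2
    · rcases step u hu hul with h3 | ⟨u', hu', hul', hu2', h4⟩
      · exact h3
      · exact hpair u' u hu' hu hul' hul hu2' hu2 h4
  obtain ⟨x, hx, hxl, hx6⟩ := h6
  have h7 := out2_50 (f := G.gam5 F) m.aN m.aN' m.ne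
  have hxz : x ≠ z := fun h8 => hxl (h8 ▸ e.zl)
  have hxa : x ≠ a := by
    rintro rfl
    exact hxl m.al
  have hxa' : x ≠ a' := by
    rintro rfl
    exact hxl m.symm.al
  have h8 := ge2_50 (T := ((G.N F).erase a).erase a') (f := G.gam5 F) (by
      intro y hy
      obtain ⟨h9, h10⟩ := mem_erase.1 hy
      obtain ⟨h11, h12⟩ := mem_erase.1 h10
      refine m.c.g0 h12 ?_
      rintro ⟨y', hyy⟩ h13
      by_cases h14 : v ∈ G.nb y
      · rcases e.inWZ h12 h14 with h15 | h15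
        · rw [m.c.d_lV h12 h15 (hWt y h12 h15 y' hyy)] at h13
          omega
        · exact e.zt (h15 ▸ ⟨y', hyy⟩)
      · rcases m.allA y h12 h14 with h15 | h15
        · exact h11 h15
        · exact h9 h15)
    (mem_erase.2 ⟨hxa', mem_erase.2 ⟨hxa, hx⟩⟩)
    (mem_erase.2 ⟨fun h9 => m.av' (h9 ▸ e.zv), mem_erase.2 ⟨fun h9 => m.av (h9 ▸ e.zv), e.zN⟩⟩)
    hxz
  linarith

end Ey

end CG

end Pool.Agent.Lib.MP_e95c01_co.N
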