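import Pool.Agent.Lib.MP_e95c01_co.X.H4e_50

/-!
# Leaves with four vertices, a low vertex, a hub and a pair of twins, all adjacent: a pair that is
not adjacent to the low vertex
-/

namespace Pool.Agent.Lib.MP_e95c01_co.N

open Finset

variable {V : Type} [Fintype V] [DecidableEq V]

namespace CG

variable {G : CG V} {F : Finset V} {l h v w a a' z : V}

open Lx (mem_pT)

namespace Ey

/-- `W = {p, p', x}` -/
theorem caseP (e : Ey G F l h v w a a' z) (hA : ¬ G.Tw a a') {p p' : V} (hp : p ∈ G.N F)
    (hpl : l ∉ G.nb p) (hpp : G.Tw p p') : 16 ≤ ∑ x ∈ G.N F, G.gam5 F x := by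
  classical
  have m := e.m
  have ga := m.ga0 hA
  have ga' := m.symm.ga0 (fun h1 => hA h1.sym33)
  have hp' := m.c.par hp hpp
  have hpl' : l ∉ G.nb p' := fun h2 => hpl ((m.c.parF hp hpp m.c.lF).1 h2)
  have hpv := m.c.vol hp hpl
  have hpv' := m.c.vol hp' hpl'
  -- the third vertex
  obtain ⟨x, hx, hxp, hxp'⟩ : ∃ x ∈ G.ms50 F l, x ≠ p ∧ x ≠ p' := by
    by_contra h1
    push Not at h1
    have h2 : G.ms50 F l ⊆ {p, p'} := by
      intro y hy
      rw [mem_insert, mem_singleton]
      by_cases h3 : y = p
      · exact Or.inl h3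
      · exact Or.inr (h1 y hy h3)
    have h3 := card_le_card h2
    rw [e.cW3, card_pair hpp.ne33] at h3
    omega
  obtain ⟨hxN, hxl⟩ := mem_ms50.1 hx
  have hxv := m.c.vol hxN hxl
  have hW : ∀ y ∈ G.N F, l ∉ G.nb y → y = p ∨ y = p' ∨ y = x := by
    intro y hy hyl
    have h1 : ({p, p', x} : Finset V) = G.ms50 F l := by
      refine eq_of_subset_of_card_le ?_ ?_
      · intro u hu
        rw [mem_insert, mem_insert, mem_singleton] at hu
        rcases hu with rfl | rfl | rfl
        · exact mem_ms50.2 ⟨hp, hpl⟩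
        · exact mem_ms50.2 ⟨hp', hpl'⟩
        · exact hx
      · rw [e.cW3, card_eq_three.2 ⟨p, p', x, hpp.ne33, hxp.symm, hxp'.symm, rfl⟩]
    have h2 : y ∈ ({p, p', x} : Finset V) := by
      rw [h1]
      exact mem_ms50.2 ⟨hy, hyl⟩
    rw [mem_insert, mem_insert, mem_singleton] at h2
    exact h2
  have hxt : ¬ G.IsTw x := by
    rintro ⟨y, hxy⟩
    have hy := m.c.par hxN hxy
    have hyl : l ∉ G.nb y := fun h2 => hxl ((m.c.parF hxN hxy m.c.lF).1 h2)
    rcases hW y hy hyl with h1 | h1 | h1
    · rw [h1] at hxy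
      exact hxp' (m.c.uniq hxy.sym33 hpp)
    · rw [h1] at hxy
      exact hxp (m.c.uniq hxy.sym33 hpp.sym33)
    · exact hxy.ne33 h1.symm
  have hxz : x ≠ z := fun h1 => hxl (h1 ▸ e.zl)
  have hpz : p ≠ z := fun h1 => hpl (h1 ▸ e.zl)
  have hpz' : p' ≠ z := fun h1 => hpl' (h1 ▸ e.zl)
  have hxa : x ≠ a := by
    rintro rfl
    exact hxl m.al
  have hxa' : x ≠ a' := by
    rintro rfl
    exact hxl m.symm.al
  have hza : z ≠ a := by
    rintro rfl
    exact m.av e.zv
  have hza' : z ≠ a' := by
    rintro rfl
    exact m.av' e.zv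
  have hpa : p ≠ a := by
    rintro rfl
    exact hpl m.al
  have hpa' : p ≠ a' := by
    rintro rfl
    exact hpl m.symm.al
  have hpa2 : p' ≠ a := by
    rintro rfl
    exact hpl' m.al
  have hpa2' : p' ≠ a' := by
    rintro rfl
    exact hpl' m.symm.al
  have hall : ∀ y ∈ G.N F, y = a ∨ y = a' ∨ y = p ∨ y = p' ∨ y = x ∨ y = z := by
    intro y hy
    by_cases h1 : v ∈ G.nb y
    · rcases e.inWZ hy h1 with h2 | h2
      · rcases hW y hy h2 with h3 | h3 | h3
        · exact Or.inr (Or.inr (Or.inl h3))
        · exact Or.inr (Or.inr (Or.inr (Or.inl h3)))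
        · exact Or.inr (Or.inr (Or.inr (Or.inr (Or.inl h3))))
      · exact Or.inr (Or.inr (Or.inr (Or.inr (Or.inr h2))))
    · rcases m.allA y hy h1 with h2 | h2
      · exact Or.inl h2
      · exact Or.inr (Or.inl h2)
  -- the total
  have hsum : ∑ y ∈ G.N F, G.gam5 F y = G.gam5 F a + G.gam5 F a' + G.gam5 F p + G.gam5 F p' +
      G.gam5 F x + G.gam5 F z := by
    have h1 : G.N F = {a, a', p, p', x, z} := by
      ext y
      simp only [mem_insert, mem_singleton]
      constructor
      · exact hall y
      · rintro (rfl | rfl | rfl | rfl | rfl | rfl)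
        · exact m.aN
        · exact m.aN'
        · exact hp
        · exact hp'
        · exact hxN
        · exact e.zN
    rw [h1, sum_insert, sum_insert, sum_insert, sum_insert, sum_pair hxz]
    · ring
    · simp only [mem_insert, mem_singleton]
      push Not
      exact ⟨hxp'.symm, hpz'⟩
    · simp only [mem_insert, mem_singleton]
      push Not
      exact ⟨hpp.ne33, hxp.symm, hpz⟩
    · simp only [mem_insert, mem_singleton]
      push Not
      exact ⟨hpa'.symm, hpa2'.symm, hxa'.symm, hza'.symm⟩
    · simp only [mem_insert, mem_singleton]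
      push Not
      exact ⟨m.ne, hpa.symm, hpa2.symm, hxa.symm, hza.symm⟩
  rw [hsum]
  -- `z` is low if `x` is not adjacent to `z`
  have hzlow : z ∉ G.nb x → G.Low z := by
    intro h1
    rcases e.clvz with h2 | ⟨b, hb, h2, h3, h4, -⟩
    · exact h2
    · exfalso
      rcases hW b hb h3 with h5 | h5 | h5
      · exact not_low33 ⟨_, hpp⟩ (h5 ▸ h2.2.1)
      · exact not_low33 ⟨_, hpp.sym33⟩ (h5 ▸ h2.2.1)
      · exact h1 (h5 ▸ h4)
  by_cases hph : h ∈ G.nb p
  · have hph' : h ∈ G.nb p' := (m.c.parF hp hpp m.c.hhF).2 hph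
    obtain ⟨d0, hd0, hdl, hdv, m1, m2, gp, honly⟩ := tws m hp hpl hph hpp
    obtain ⟨-, -, -, -, -, -, gp', -⟩ := tws m hp' hpl' hph' hpp.sym33
    have hd0' : d0 = x ∨ d0 = z := by
      rcases e.inWZ hd0 hdv with h1 | h1
      · rcases hW d0 hd0 h1 with h2 | h2 | h2
        · exact absurd (h2 ▸ hdl) (not_low33 ⟨_, hpp⟩)
        · exact absurd (h2 ▸ hdl) (not_low33 ⟨_, hpp.sym33⟩)
        · exact Or.inl h2
      · exact Or.inr h1
    rcases hd0' with rfl | rfl
    · -- the low vertex is `x`
      by_cases hxh : h ∈ G.nb d0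
      · obtain ⟨h1, h2⟩ := (m.c.gL3 hd0 hdl (m.c.d_lV hd0 hxl hxh)).2.2.2.2.2 p p' hpp m1 m2
        have h3 : z ∉ G.nb d0 := by
          intro h3
          have h4 : z ∈ G.pT F d0 := mem_pT.2 ⟨h3, e.zN⟩
          rw [h1, mem_insert, mem_singleton] at h4
          rcases h4 with h4 | h4
          · exact hpz h4.symm
          · exact hpz' h4.symm
        have hzL := hzlow h3
        have h4 : 6 ≤ G.gam5 F z := by
          by_cases h5 : h ∈ G.nb z
          · linarith [(m.c.gL4 e.zN hzL (m.c.d_LH e.zN e.zl h5 e.zv)).2.1]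
          · exact (m.c.gL3 e.zN hzL (m.c.d_Lh e.zN e.zl h5)).2.1
        linarith
      · have hd2 := m.c.d_lv hd0 hxl hxh
        have hx2 : 2 + 2 * ((G.pT F d0).card : ℤ) ≤ G.gam5 F d0 :=
          (m.c.gL2 hd0 hdl hd2).2.2.2 (by
            rintro ⟨-, h1⟩
            have h2 := h1 p m1
            rw [m.c.d_lV hp hpl hph] at h2
            omega)
        have hp2 : 2 ≤ (G.pT F d0).card := two_le5 m1 m2 hpp.ne33
        have hp2' : (2 : ℤ) ≤ ((G.pT F d0).card : ℤ) := by exact_mod_cast hp2
        by_cases hzL : G.Low z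
        · by_cases hzh : h ∈ G.nb z
          · have := (m.c.gL4 e.zN hzL (m.c.d_LH e.zN e.zl hzh e.zv)).2.1
            linarith
          · have hz3 := m.c.gL3 e.zN hzL (m.c.d_Lh e.zN e.zl hzh)
            have hg6 := hz3.2.1
            by_cases l1 : G.Low a
            · linarith [m.ga_low l1]
            by_cases l2 : G.Low a'
            · linarith [m.symm.ga_low l2]
            -- both are adjacent to `z`
            have key : ∀ a a', Mx G F l h v w a a' → ¬ G.Low a → ¬ G.Low a' →
                z ∈ G.nb a := by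
              intro a a' m l1 l2
              rcases m.covA with h1 | h1 | h1 | h1 | h1
              · exact absurd h1.1 l2
              · obtain ⟨u, hu, hul, hlu, hvu, hua⟩ := h1
                rw [e.allZ u hu hlu hvu] at hua
                exact hua
              · obtain ⟨x', hx', y', hy', h2, -⟩ := h1
                exact absurd (m.c.hF.sat _ _ _ h2) l1
              · exfalso
                obtain ⟨x', hx', y', hy', h2, h3, -⟩ := h1
                rw [e.allZ x' hx' (HL_t76 h2) h3] at h2
                exact HL_not_low76 h2 hzL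
              · exfalso
                obtain ⟨x', hx', y', hy', h2, h3⟩ := h1
                have h4 := e.allZ x' hx' (LL_t76 h2) h3
                rw [h4] at h2
                have h5 : y' = d0 := by
                  rcases hW y' hy' (LL_tb76 h2).1 with h6 | h6 | h6
                  · exact absurd (h6 ▸ h2.2.1) (not_low33 ⟨_, hpp⟩)
                  · exact absurd (h6 ▸ h2.2.1) (not_low33 ⟨_, hpp.sym33⟩)
                  · exact h6
                rw [h5] at h2
                have m3 : z ∈ G.pT F d0 := mem_pT.2 ⟨G.sym _ _ (LL_ab76 h2), e.zN⟩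
                have m4 : a ∈ G.pT F d0 := mem_pT.2 ⟨LL_u76 h2, m.aN⟩
                have e1 : p ≠ a := by
                  rintro rfl
                  exact hpl m.al
                have e2 : p' ≠ a := by
                  rintro rfl
                  exact hpl' m.al
                have e3 : z ≠ a := by
                  rintro rfl
                  exact m.av e.zv
                have h6 := four_le5 m1 m2 m3 m4 hpp.ne33 hpz e1 hpz' e2 e3
                have h7 := m.c.pT3 hd0 hdl
                omega
            have k1 := key a a' m l1 l2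
            have k2 := key a' a m.symm l2 l1
            have h2 : (G.pT F z).card = 2 := by
              have := two_le5 (mem_pT.2 ⟨G.sym _ _ k1, m.aN⟩ : a ∈ G.pT F z)
                (mem_pT.2 ⟨G.sym _ _ k2, m.aN'⟩) m.ne
              have := hz3.1
              omega
            have := hz3.2.2.2.1 h2
            linarith
        · -- `z` is a hub
          rcases e.clvz with h1 | ⟨b, hb, h1, h2, h3, -⟩
          · exact absurd h1 hzL
          · have hbx : b = d0 := by
              rcases hW b hb h2 with h6 | h6 | h6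
              · exact absurd (h6 ▸ h1.2.1) (not_low33 ⟨_, hpp⟩)
              · exact absurd (h6 ▸ h1.2.1) (not_low33 ⟨_, hpp.sym33⟩)
              · exact h6
            rw [hbx] at h3
            have m3 : z ∈ G.pT F d0 := mem_pT.2 ⟨h3, e.zN⟩
            have h4 := three_le33 m1 m2 m3 hpp.ne33 hpz hpz'
            have h5 : (3 : ℤ) ≤ ((G.pT F d0).card : ℤ) := by exact_mod_cast h4
            have h6 := (m.A8 (fun u hu hul hlu hvu => absurd (e.allZ u hu hlu hvu ▸ hul) hzL)
              (Or.inl fun u hu hlu hvu hul => hzL (e.allZ u hu hlu hvu ▸ hul))).2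
            have gz := m.c.gHub e.zN hzL e.zt
            linarith
    · -- the low vertex is `z`
      have hzh : h ∉ G.nb d0 := by
        intro h1
        have h2 := (m.c.gL4 hd0 hdl (m.c.d_LH hd0 e.zl h1 e.zv)).1
        have h3 := two_le5 m1 m2 hpp.ne33
        omega
      obtain ⟨h1, h2⟩ := (m.c.gL3 hd0 hdl (m.c.d_Lh hd0 e.zl hzh)).2.2.2.2.2 p p' hpp m1 m2
      have h6 : 6 ≤ G.gam5 F x := by
        rcases m.covW hxN hxl with h3 | h3 | h3 | h3
        · exfalso
          obtain ⟨u, hu, hul, hvu, hux⟩ := h3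
          rcases e.inWZ hu hvu with h4 | h4
          · rcases hW u hu h4 with h5 | h5 | h5
            · exact not_low33 ⟨_, hpp⟩ (h5 ▸ hul)
            · exact not_low33 ⟨_, hpp.sym33⟩ (h5 ▸ hul)
            · rw [h5] at hux
              exact G.irr _ hux
          · rw [h4] at hux
            have h5 : x ∈ G.pT F d0 := mem_pT.2 ⟨G.sym _ _ hux, hxN⟩
            rw [h1, mem_insert, mem_singleton] at h5
            rcases h5 with h5 | h5
            · exact hxp h5
            · exact hxp' h5
        · exfalso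
          obtain ⟨q, hq, q', hq', hqq, h4, h5, h6, h7⟩ := h3
          have hqW : q = p ∨ q = p' := by
            rcases e.inWZ hq h4 with h8 | h8
            · rcases hW q hq h8 with h9 | h9 | h9
              · exact Or.inl h9
              · exact Or.inr h9
              · exact absurd ⟨_, hqq⟩ (h9 ▸ hxt)
            · exact absurd ⟨_, hqq⟩ (h8 ▸ e.zt)
          have hpx : p ∈ G.nb x := by
            rcases hqW with h8 | h8
            · exact h8 ▸ h6
            · rw [h8] at hqq
              have h9 := m.c.uniq hqq hpp.sym33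
              exact h9 ▸ h7
          rcases honly x (mem_pT.2 ⟨G.sym _ _ hpx, hxN⟩) with h8 | h8
          · exact hxp' h8
          · exact hxz h8
        · exfalso
          obtain ⟨q, hq, b, hb, h4, h5, h6⟩ := h3
          rcases e.inWZ hb h6 with h7 | h7
          · rcases hW b hb h7 with h8 | h8 | h8
            · exact not_low33 ⟨_, hpp⟩ (h8 ▸ h4.2.1)
            · exact not_low33 ⟨_, hpp.sym33⟩ (h8 ▸ h4.2.1)
            · exact (HL_bt76 h4).2 h8.symm
          · have h8 : q ∈ G.pT F d0 := mem_pT.2 ⟨h7 ▸ G.sym _ _ (HL_b76 h4), hq⟩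
            rw [h1, mem_insert, mem_singleton] at h8
            have h9 := (stTwHL_5 G).notHL m.c.n9 _ _ _ h4
            rcases h8 with h8 | h8
            · exact h9 (h8 ▸ ⟨_, hpp⟩)
            · exact h9 (h8 ▸ ⟨_, hpp.sym33⟩)
        · exact (m.c.gL3 hxN (m.c.hF.sat _ _ _ h3)
            (m.c.d_lV hxN hxl (G.sym _ _ (HL_t76 h3)))).2.1
      linarith
  · -- the pair is adjacent to the pair in `F` only
    have hph' : h ∉ G.nb p' := fun h1 => hph ((m.c.parF hp hpp m.c.hhF).1 h1)
    have hxh := e.no3 hp hp' hxN hpp.ne33 hxp.symm hxp'.symm hph hph'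
    have hzh := e.no3 hp hp' e.zN hpp.ne33 hpz hpz' hph hph'
    -- the remainder
    have hZN : ({p, p'} : Finset V) ⊆ G.N F := by
      intro u hu
      rw [mem_insert, mem_singleton] at hu
      rcases hu with rfl | rfl
      · exact hp
      · exact hp'
    have hNZ : G.N {p, p'} ∩ F = {v, w} := by
      ext y
      have hvw : y ∈ ({v, w} : Finset V) ↔ y = v ∨ y = w := by
        rw [mem_insert, mem_singleton]
      rw [hvw, mem_inter, mem_N1]
      constructor
      · rintro ⟨⟨h1, u, hu, hyu⟩, hyF⟩
        rw [mem_insert, mem_singleton] at hu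
        have hyp : y ∈ G.nb p := by
          rcases hu with rfl | rfl
          · exact hyu
          · exact (m.c.parF hp hpp hyF).1 hyu
        rcases m.c.all hyF with h2 | h2 | h2 | h2
        · exact absurd (h2 ▸ hyp) hpl
        · exact absurd (h2 ▸ hyp) hph
        · exact Or.inl h2
        · exact Or.inr h2
      · rintro (h1 | h1)
        · rw [h1]
          refine ⟨⟨?_, p, by simp, hpv⟩, m.c.vF⟩
          rw [mem_insert, mem_singleton]
          rintro (h2 | h2)
          · exact m.c.nev hp h2.symm
          · exact m.c.nev hp' h2.symm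
        · rw [h1]
          refine ⟨⟨?_, p, by simp, m.c.vw (m.c.new hp) hpv⟩, m.c.wF⟩
          rw [mem_insert, mem_singleton]
          rintro (h2 | h2)
          · exact m.c.new hp h2.symm
          · exact m.c.new hp' h2.symm
    have hFZ : G.FZ F {p, p'} = {h, l} := by
      ext y
      rw [FZ, mem_sdiff, mem_insert, mem_singleton]
      have h1 : y ∈ F → (y ∈ G.N {p, p'} ↔ y = v ∨ y = w) := by
        intro hyF
        have h2 : y ∈ G.N {p, p'} ∩ F ↔ y ∈ ({v, w} : Finset V) := by rw [hNZ]
        rw [mem_inter, mem_insert, mem_singleton] at h2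
        tauto
      constructor
      · rintro ⟨h2, h3⟩
        rw [h1 h2] at h3
        rcases m.c.all h2 with h4 | h4 | h4 | h4
        · exact Or.inr h4
        · exact Or.inl h4
        · exact absurd (Or.inl h4) h3
        · exact absurd (Or.inr h4) h3
      · rintro (h2 | h2)
        · have h4 := h1 (h2 ▸ m.c.hhF)
          rw [h2] at h4 ⊢
          refine ⟨m.c.hhF, fun h5 => ?_⟩
          rcases h4.1 h5 with h3 | h3
          · exact m.c.hv h3
          · exact m.c.hw h3
        · have h4 := h1 (h2 ▸ m.c.lF)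
          rw [h2] at h4 ⊢
          refine ⟨m.c.lF, fun h5 => ?_⟩
          rcases h4.1 h5 with h3 | h3
          · exact m.c.lv h3
          · exact m.c.lw h3
    have hc2 : ({p, p'} : Finset V).card = (G.N {p, p'} ∩ F).card := by
      rw [hNZ, card_pair hpp.ne33, card_pair m.c.tw.ne33]
    obtain ⟨-, -, -, h5⟩ := m.c.hBas.two F m.c.hF {p, p'} hZN ⟨p, by simp⟩ hc2 h l
      m.c.lh.symm hFZ m.c.hub.1
    have hHLx : G.HL h l x := by
      rcases h5 with h5 | ⟨-, t, ht, h5⟩
      · exact absurd ⟨_, h5⟩ m.c.hub.2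
      · have htl : t ∉ G.nb l := (HL_bt76 h5).1
        rcases mem_union.1 ht with h6 | h6
        · obtain ⟨h7, h8⟩ := mem_sdiff.1 h6
          rw [mem_insert, mem_singleton] at h8
          rcases hW t h7 (fun h9 => htl (G.sym _ _ h9)) with h9 | h9 | h9
          · exact absurd (Or.inl h9) h8
          · exact absurd (Or.inr h9) h8
          · exact h9 ▸ h5
        · exfalso
          rw [hNZ, mem_insert, mem_singleton] at h6
          rcases h6 with h6 | h6
          · exact htl (h6 ▸ e.m.hlv)
          · exact htl (h6 ▸ m.c.vw m.c.lw e.m.hlv)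
    have hxL := m.c.hF.sat _ _ _ hHLx
    have hd3 := m.c.d_lV hxN hxl hxh
    have hd4 := m.c.d_LH e.zN e.zl hzh e.zv
    -- the low neighbour of the pair
    have hpx : p ∈ G.nb x := by
      rcases m.covW hp hpl with h1 | h1 | h1 | h1
      · obtain ⟨u, hu, hul, hvu, hup⟩ := h1
        have m1 : p ∈ G.pT F u := mem_pT.2 ⟨G.sym _ _ hup, hp⟩
        have m2 := m.c.pair_pT hp hpp hul m1
        rcases e.inWZ hu hvu with h2 | h2
        · rcases hW u hu h2 with h3 | h3 | h3
          · exact absurd (h3 ▸ hul) (not_low33 ⟨_, hpp⟩)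
          · exact absurd (h3 ▸ hul) (not_low33 ⟨_, hpp.sym33⟩)
          · exact h3 ▸ (mem_pT.1 m1).1
        · exfalso
          rw [h2] at hul m1 m2
          have h3 := (m.c.gL4 e.zN hul hd4).1
          have h4 := two_le5 m1 m2 hpp.ne33
          omega
      · exfalso
        obtain ⟨q, hq, q', hq', hqq, h4, h5, h6, h7⟩ := h1
        have hqW : q = p ∨ q = p' := by
          rcases e.inWZ hq h4 with h8 | h8
          · rcases hW q hq h8 with h9 | h9 | h9
            · exact Or.inl h9
            · exact Or.inr h9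
            · exact absurd ⟨_, hqq⟩ (h9 ▸ hxt)
          · exact absurd ⟨_, hqq⟩ (h8 ▸ e.zt)
        rcases hqW with h8 | h8
        · rw [h8] at h6
          exact G.irr _ h6
        · rw [h8] at hqq
          have h9 := m.c.uniq hqq hpp.sym33
          rw [h9] at h7
          exact G.irr _ h7
      · obtain ⟨q, hq, b, hb, h4, -⟩ := h1
        exact absurd (m.c.hF.sat _ _ _ h4) (not_low33 ⟨_, hpp⟩)
      · exact absurd (m.c.hF.sat _ _ _ h1) (not_low33 ⟨_, hpp⟩)
    have m1 : p ∈ G.pT F x := mem_pT.2 ⟨hpx, hp⟩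
    have m2 := m.c.pair_pT hp hpp hxL m1
    obtain ⟨h1, h2⟩ := (m.c.gL3 hxN hxL hd3).2.2.2.2.2 p p' hpp m1 m2
    have h3 : z ∉ G.nb x := by
      intro h3
      have h4 : z ∈ G.pT F x := mem_pT.2 ⟨h3, e.zN⟩
      rw [h1, mem_insert, mem_singleton] at h4
      rcases h4 with h4 | h4
      · exact hpz h4.symm
      · exact hpz' h4.symm
    have h4 := (m.c.gL4 e.zN (hzlow h3) hd4).2.1
    have g1 := (m.c.gT hp ⟨_, hpp⟩).2.2.1
    have g2 := (m.c.gT hp' ⟨_, hpp.sym33⟩).2.2.1
    linarith

end Ey

end CG

end Pool.Agent.Lib.MP_e95c01_co.N
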