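import Pool.Agent.Lib.MP_e95c01_co.X.H4f_50

/-!
# Leaves with four vertices, a low vertex, a hub and a pair of twins, all adjacent: no twins
-/

namespace Pool.Agent.Lib.MP_e95c01_co.N

open Finset

variable {V : Type} [Fintype V] [DecidableEq V]

namespace CG

variable {G : CG V} {F : Finset V} {l h v w a a' z : V}

open Lx (mem_pT)

namespace Mx

theorem v0 (m : Mx G F l h v w a a') (nt : ∀ x ∈ G.N F, ¬ G.IsTw x) :
    ∀ x ∈ G.N F, 0 ≤ G.gam5 F x :=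
  fun x hx => m.c.g0 hx (fun h1 => absurd h1 (nt x hx))

theorem v2 (m : Mx G F l h v w a a') (nt : ∀ x ∈ G.N F, ¬ G.IsTw x) {x : V} (hx : x ∈ G.N F)
    (hl : G.Low x) (h2 : G.d x F = 2) : 2 + 2 * ((G.pT F x).card : ℤ) ≤ G.gam5 F x := by
  refine (m.c.gL2 hx hl h2).2.2.2 ?_
  rintro ⟨⟨q, q', hq, he⟩, -⟩
  have h3 : q ∈ G.pT F x := by rw [he]; simp
  exact nt q (mem_pT.1 h3).2 ⟨_, hq⟩

/-- covers of a vertex that is not low -/
theorem covN (m : Mx G F l h v w a a') (nt : ∀ x ∈ G.N F, ¬ G.IsTw x) {y : V} (hy : y ∈ G.N F)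
    (hyl : l ∉ G.nb y) (hn : ¬ G.Low y) :
    ∃ u ∈ G.N F, G.Low u ∧ v ∈ G.nb u ∧ u ∈ G.nb y := by
  rcases m.covW hy hyl with h1 | h1 | h1 | h1
  · exact h1
  · obtain ⟨p, hp, p', hp', hpp, -⟩ := h1
    exact absurd ⟨_, hpp⟩ (nt p hp)
  · obtain ⟨p, hp, b, hb, h2, -⟩ := h1
    exact absurd (m.c.hF.sat _ _ _ h2) hn
  · exact absurd (m.c.hF.sat _ _ _ h1) hn

/-- covers of a vertex that is not adjacent to `h` -/
theorem covH (m : Mx G F l h v w a a') (nt : ∀ x ∈ G.N F, ¬ G.IsTw x) {y : V} (hy : y ∈ G.N F)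
    (hyl : l ∉ G.nb y) (hyh : h ∉ G.nb y) :
    (∃ u ∈ G.N F, G.Low u ∧ v ∈ G.nb u ∧ u ∈ G.nb y) ∨
    (∃ p ∈ G.N F, ∃ b ∈ G.N F, G.HL p b y ∧ v ∈ G.nb p ∧ v ∈ G.nb b) := by
  rcases m.covW hy hyl with h1 | h1 | h1 | h1
  · exact Or.inl h1
  · obtain ⟨p, hp, p', hp', hpp, -⟩ := h1
    exact absurd ⟨_, hpp⟩ (nt p hp)
  · exact Or.inr h1
  · exact absurd (G.sym _ _ (HL_t76 h1)) hyh

/-- a low vertex that is not adjacent to `h` has a value of at least four -/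
theorem four (m : Mx G F l h v w a a') (nt : ∀ x ∈ G.N F, ¬ G.IsTw x) {y : V} (hy : y ∈ G.N F)
    (hyl : l ∉ G.nb y) (hyh : h ∉ G.nb y) (hL : G.Low y) :
    (G.pT F y).Nonempty ∧ 4 ≤ G.gam5 F y := by
  have h1 : (G.pT F y).Nonempty := by
    rcases m.covH nt hy hyl hyh with ⟨u, hu, -, -, h2⟩ | ⟨p, hp, b, hb, h2, -⟩
    · exact ⟨u, mem_pT.2 ⟨h2, hu⟩⟩
    · exact ⟨p, mem_pT.2 ⟨G.sym _ _ (HL_t76 h2), hp⟩⟩
  exact ⟨h1, (m.c.gL2 hy hL (m.c.d_lv hy hyl hyh)).2.2.1 (card_pos.2 h1)⟩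

/-- low, adjacent to `h` and not to `l`: six -/
theorem six (m : Mx G F l h v w a a') {y : V} (hy : y ∈ G.N F) (hyl : l ∉ G.nb y)
    (hyh : h ∈ G.nb y) (hL : G.Low y) : 6 ≤ G.gam5 F y :=
  (m.c.gL3 hy hL (m.c.d_lV hy hyl hyh)).2.1

theorem nWA (m : Mx G F l h v w a a') {x : V} (hxl : l ∉ G.nb x) : x ≠ a ∧ x ≠ a' := by
  constructor
  · rintro rfl
    exact hxl m.al
  · rintro rfl
    exact hxl m.symm.al

theorem nVA (m : Mx G F l h v w a a') {x : V} (hxv : v ∈ G.nb x) : x ≠ a ∧ x ≠ a' := by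
  constructor
  · rintro rfl
    exact m.av hxv
  · rintro rfl
    exact m.av' hxv

end Mx

namespace Ey

/-- `z` is not low -/
theorem b3 (e : Ey G F l h v w a a' z) (nt : ∀ x ∈ G.N F, ¬ G.IsTw x) (hz : ¬ G.Low z) :
    16 ≤ ∑ x ∈ G.N F, G.gam5 F x := by
  have m := e.m
  have hZ : ∀ u ∈ G.N F, l ∈ G.nb u → v ∈ G.nb u → ¬ G.Low u := fun u hu h1 h2 h3 =>
    hz (e.allZ u hu h1 h2 ▸ h3)
  have hA := (m.A8 (fun u hu hul hlu hvu => absurd hul (hZ u hu hlu hvu)) (Or.inl hZ)).2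
  rcases e.clvz with h1 | ⟨b, hb, h1, hbl, hzb, hvb⟩
  · exact absurd h1 hz
  have hbL := h1.2.1
  have mz : z ∈ G.pT F b := mem_pT.2 ⟨hzb, e.zN⟩
  obtain ⟨hba, hba'⟩ := m.nWA hbl
  by_cases hbh : h ∈ G.nb b
  · have h2 := (m.c.gL3 hb hbL (m.c.d_lV hb hbl hbh)).2.2.1 z mz hz
    have h3 : (1 : ℤ) ≤ ((G.pT F b).card : ℤ) := by exact_mod_cast card_pos.2 ⟨z, mz⟩
    have h4 := ge3_50 (m.v0 nt) m.aN m.aN' hb m.ne hba.symm hba'.symm
    linarith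
  · have h2 := (m.c.gL2 hb hbL (m.c.d_lv hb hbl hbh)).2.2.1 (card_pos.2 ⟨z, mz⟩)
    obtain ⟨u, hu, hul, huL, hub, hup⟩ : ∃ u ∈ G.N F, l ∉ G.nb u ∧ G.Low u ∧ u ≠ b ∧
        (G.pT F u).Nonempty := by
      rcases m.covH nt hb hbl hbh with ⟨u, hu, huL, hvu, hub⟩ | ⟨p, hp, y, hy, h3, h4, h5⟩
      · refine ⟨u, hu, ?_, huL, (ne_of_nb5 hub).symm, ⟨b, mem_pT.2 ⟨G.sym _ _ hub, hb⟩⟩⟩
        rcases e.inWZ hu hvu with h6 | h6
        · exact h6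
        · exact absurd (h6 ▸ huL) hz
      · refine ⟨y, hy, ?_, h3.2.1, (HL_bt76 h3).2.symm,
          ⟨p, mem_pT.2 ⟨G.sym _ _ (HL_b76 h3), hp⟩⟩⟩
        rcases e.inWZ hy h5 with h6 | h6
        · exact h6
        · exact absurd (h6 ▸ h3.2.1) hz
    have h3 : 4 ≤ G.gam5 F u := by
      by_cases h4 : h ∈ G.nb u
      · linarith [m.six hu hul h4 huL]
      · exact (m.four nt hu hul h4 huL).2
    obtain ⟨hua, hua'⟩ := m.nWA hul
    have h4 := ge4_50 (m.v0 nt) m.aN m.aN' hb hu m.ne hba.symm hua.symm hba'.symm hua'.symm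
      hub.symm
    linarith

/-- `z` is low and adjacent to `h` -/
theorem b1 (e : Ey G F l h v w a a' z) (nt : ∀ x ∈ G.N F, ¬ G.IsTw x) (hzL : G.Low z)
    (hzh : h ∈ G.nb z) : 16 ≤ ∑ x ∈ G.N F, G.gam5 F x := by
  classical
  have m := e.m
  have hd4 := m.c.d_LH e.zN e.zl hzh e.zv
  have hgz := m.c.gL4 e.zN hzL hd4
  by_cases hx : ∃ x ∈ G.N F, l ∉ G.nb x ∧ G.Low x ∧ h ∈ G.nb x
  · obtain ⟨x, hx, hxl, hxL, hxh⟩ := hx
    have h1 := m.six hx hxl hxh hxL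
    have h2 := ge2_50 (m.v0 nt) hx e.zN (fun h3 => hxl (h3 ▸ e.zl))
    linarith [hgz.2.1]
  push Not at hx
  set S := (G.N F).filter (fun y => v ∈ G.nb y) with hS
  have memS : ∀ {x : V}, x ∈ S ↔ x ∈ G.N F ∧ v ∈ G.nb x := fun {x} => mem_filter
  have hSN : S ⊆ G.N F := filter_subset _ _
  have hWS : G.ms50 F l ⊆ S := by
    intro y hy
    obtain ⟨h1, h2⟩ := mem_ms50.1 hy
    exact memS.2 ⟨h1, m.c.vol h1 h2⟩
  have hcnt := (m.c.hCnt m.c.hF.sat m.c.n9 F (G.ms50 F l) S hWS hSN v (fun y hy => by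
    obtain ⟨hyN, hyl⟩ := mem_ms50.1 hy
    rcases m.covW hyN hyl with h1 | h1 | h1 | h1
    · obtain ⟨u, hu, huL, hvu, huy⟩ := h1
      exact Or.inl ⟨u, memS.2 ⟨hu, hvu⟩, huL, G.sym _ _ huy⟩
    · obtain ⟨p, hp, p', hp', hpp, -⟩ := h1
      exact absurd ⟨_, hpp⟩ (nt p hp)
    · obtain ⟨p, hp, b, hb, h2, h3, h4⟩ := h1
      refine Or.inr (Or.inr (Or.inl ⟨p, mem_ms50.2 ⟨hp, ?_⟩, b, memS.2 ⟨hb, h4⟩, h2⟩))
      rcases e.inWZ hp h3 with h5 | h5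
      · exact h5
      · exact absurd hzL (h5 ▸ HL_not_low76 h2)
    · exact absurd (G.sym _ _ (HL_t76 h1)) (hx y hyN hyl (m.c.hF.sat _ _ _ h1)))).1
  rw [e.cW3] at hcnt
  have hno : ∀ x ∈ G.N F, G.IsTw x → G.d x F ≠ 2 := fun x hx h1 => absurd h1 (nt x hx)
  have hSs : ∑ z ∈ S, Lx.ff G F z = ∑ z ∈ S, G.gam5 F z -
      ∑ z ∈ S, G.wt3 G.Tw z * ((G.tT G.Tw F z).card : ℤ) := by
    rw [← sum_sub_distrib]
    rfl
  have hge : ∑ z ∈ S, G.gam5 F z ≤ ∑ z ∈ G.N F, G.gam5 F z :=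
    ge_sub50 (fun z hz _ => m.v0 nt z hz) hSN
  have hzS : z ∈ S := memS.2 ⟨e.zN, e.zv⟩
  by_cases hb : ∃ b ∈ G.N F, l ∉ G.nb b ∧ G.Low b
  · obtain ⟨b, hb, hbl, hbL⟩ := hb
    have hbh : h ∉ G.nb b := hx b hb hbl hbL
    have h2 : 2 ≤ Lx.ff G F b := m.c.ffL2 hb hbL (m.c.d_lv hb hbl hbh) (by
      rintro ⟨⟨q, q', hq, he⟩, -⟩
      have h3 : q ∈ G.pT F b := by rw [he]; simp
      exact nt q (mem_pT.1 h3).2 ⟨_, hq⟩)
    have h3 : 8 ≤ Lx.ff G F z := m.c.ffL4 e.zN hzL hd4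
    have h4 := ge2_50 (T := S) (f := Lx.ff G F) (fun y hy => m.c.ff0 hno (memS.1 hy).1)
      (hWS (mem_ms50.2 ⟨hb, hbl⟩)) hzS (fun h5 => hbl (h5 ▸ e.zl))
    push_cast at hcnt
    linarith
  · exfalso
    push Not at hb
    have h1 : ∑ y ∈ S, G.wt3 G.Tw y * ((G.tT G.Tw F y).card : ℤ) =
        G.wt3 G.Tw z * ((G.tT G.Tw F z).card : ℤ) := by
      refine sum_eq_single z ?_ (fun h2 => absurd hzS h2)
      intro y hy hyz
      obtain ⟨hyN, hyv⟩ := memS.1 hy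
      have h2 : ¬ G.Low y := by
        rcases e.inWZ hyN hyv with h3 | h3
        · exact hb y hyN h3
        · exact absurd h3 hyz
      exact Lx.tauH h2 (nt y hyN)
    rw [h1, Lx.tauL hzL] at hcnt
    have h2 : ((G.pT F z).card : ℤ) ≤ 1 := by exact_mod_cast hgz.1
    push_cast at hcnt
    linarith

/-- `z` is low and not adjacent to `h` -/
theorem b2 (e : Ey G F l h v w a a' z) (nt : ∀ x ∈ G.N F, ¬ G.IsTw x) (hzL : G.Low z)
    (hzh : h ∉ G.nb z) : 16 ≤ ∑ x ∈ G.N F, G.gam5 F x := by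
  classical
  have m := e.m
  have hd3 := m.c.d_Lh e.zN e.zl hzh
  have hgz := m.c.gL3 e.zN hzL hd3
  have nz : ∀ {x : V}, l ∉ G.nb x → x ≠ z := fun {x} h1 h2 => h1 (h2 ▸ e.zl)
  -- three vertices
  have hW3 : ∀ x ∈ G.ms50 F l, ∃ g g', g ≠ g' ∧ g ≠ x ∧ g' ≠ x ∧ g ∈ G.ms50 F l ∧
      g' ∈ G.ms50 F l ∧ ∀ y ∈ G.ms50 F l, y = x ∨ y = g ∨ y = g' := by
    intro x hx
    have h1 : ((G.ms50 F l).erase x).card = 2 := by
      rw [card_erase_of_mem hx, e.cW3]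
    obtain ⟨g, g', hgg, h2⟩ := card_eq_two.1 h1
    have h3 : g ∈ (G.ms50 F l).erase x := by rw [h2]; simp
    have h4 : g' ∈ (G.ms50 F l).erase x := by rw [h2]; simp
    refine ⟨g, g', hgg, (mem_erase.1 h3).1, (mem_erase.1 h4).1, (mem_erase.1 h3).2,
      (mem_erase.1 h4).2, ?_⟩
    intro y hy
    by_cases h5 : y = x
    · exact Or.inl h5
    · have h6 : y ∈ (G.ms50 F l).erase x := mem_erase.2 ⟨h5, hy⟩
      rw [h2, mem_insert, mem_singleton] at h6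
      exact Or.inr h6
  by_cases H1 : ∃ x ∈ G.N F, l ∉ G.nb x ∧ G.Low x ∧ h ∈ G.nb x
  · obtain ⟨x, hx, hxl, hxL, hxh⟩ := H1
    have hgx := m.c.gL3 hx hxL (m.c.d_lV hx hxl hxh)
    have hx6 := m.six hx hxl hxh hxL
    by_cases H2 : ∃ y ∈ G.N F, l ∉ G.nb y ∧ G.Low y ∧ y ≠ x
    · obtain ⟨y, hy, hyl, hyL, hyx⟩ := H2
      have hy4 : 4 ≤ G.gam5 F y := by
        by_cases h1 : h ∈ G.nb y
        · linarith [m.six hy hyl h1 hyL]
        · exact (m.four nt hy hyl h1 hyL).2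
      have h1 := ge3_50 (m.v0 nt) hx hy e.zN hyx.symm (nz hxl) (nz hyl)
      linarith [hgz.2.1]
    push Not at H2
    obtain ⟨g, g', hgg, hgx1, hgx2, hg, hg', -⟩ := hW3 x (mem_ms50.2 ⟨hx, hxl⟩)
    obtain ⟨hgN, hgl⟩ := mem_ms50.1 hg
    obtain ⟨hgN', hgl'⟩ := mem_ms50.1 hg'
    have key : ∀ y ∈ G.N F, l ∉ G.nb y → y ≠ x → ¬ G.Low y ∧ (y ∈ G.pT F z ∨ y ∈ G.pT F x) := by
      intro y hy hyl hyx
      have h1 : ¬ G.Low y := fun h2 => hyx (H2 y hy hyl h2)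
      refine ⟨h1, ?_⟩
      obtain ⟨u, hu, huL, hvu, huy⟩ := m.covN nt hy hyl h1
      rcases e.inWZ hu hvu with h2 | h2
      · right
        rw [H2 u hu h2 huL] at huy
        exact mem_pT.2 ⟨G.sym _ _ huy, hy⟩
      · left
        rw [h2] at huy
        exact mem_pT.2 ⟨G.sym _ _ huy, hy⟩
    obtain ⟨k1, k2⟩ := key g hgN hgl hgx1
    obtain ⟨k1', k2'⟩ := key g' hgN' hgl' hgx2
    have h1 := ge2_50 (m.v0 nt) hx e.zN (nz hxl)
    have two : ∀ y, g ∈ G.pT F y → g' ∈ G.pT F y → (G.pT F y).card ≤ 2 →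
        (G.pT F y).card = 2 := fun y h2 h3 h4 => by
      have := two_le5 h2 h3 hgg
      omega
    have one : ∀ {y u : V}, u ∈ G.pT F y → (1 : ℤ) ≤ ((G.pT F y).card : ℤ) :=
      fun {y u} h2 => by exact_mod_cast card_pos.2 ⟨u, h2⟩
    rcases k2 with k2 | k2 <;> rcases k2' with k2' | k2'
    · linarith [hgz.2.2.2.1 (two z k2 k2' hgz.1)]
    · linarith [hgz.2.2.1 g k2 k1, hgx.2.2.1 g' k2' k1', one k2, one k2']
    · linarith [hgx.2.2.1 g k2 k1, hgz.2.2.1 g' k2' k1', one k2, one k2']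
    · linarith [hgx.2.2.2.1 (two x k2 k2' hgx.1), hgz.2.1]
  push Not at H1
  -- a low vertex
  have hW3c := e.cW3
  by_cases H3 : ∃ b ∈ G.N F, l ∉ G.nb b ∧ G.Low b
  swap
  · exfalso
    push Not at H3
    have h1 : G.ms50 F l ⊆ G.pT F z := by
      intro y hy
      obtain ⟨hyN, hyl⟩ := mem_ms50.1 hy
      obtain ⟨u, hu, huL, hvu, huy⟩ := m.covN nt hyN hyl (H3 y hyN hyl)
      rcases e.inWZ hu hvu with h2 | h2
      · exact absurd huL (H3 u hu h2)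
      · rw [h2] at huy
        exact mem_pT.2 ⟨G.sym _ _ huy, hyN⟩
    have h2 := card_le_card h1
    have h3 := hgz.1
    omega
  obtain ⟨b, hb, hbl, hbL⟩ := H3
  have hbh := H1 b hb hbl hbL
  have hbd := m.c.d_lv hb hbl hbh
  have hzb : z ≠ b := (nz hbl).symm
  obtain ⟨g, g', hgg, hgb, hgb', hg, hg', hall⟩ := hW3 b (mem_ms50.2 ⟨hb, hbl⟩)
  obtain ⟨hgN, hgl⟩ := mem_ms50.1 hg
  obtain ⟨hgN', hgl'⟩ := mem_ms50.1 hg'
  have hnl : ∀ y ∈ G.N F, l ∉ G.nb y → y ≠ b → ¬ G.Low y := by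
    intro y hy hyl hyb h1
    exact H1 y hy hyl h1 (e.no3 e.zN hb hy hzb (nz hyl).symm hyb.symm hzh hbh)
  -- `z` and `b` are adjacent
  have hzbn : z ∈ G.nb b := by
    rcases m.covH nt hb hbl hbh with ⟨u, hu, huL, hvu, hub⟩ | ⟨p, hp, y, hy, h3, h4, h5⟩
    · rcases e.inWZ hu hvu with h2 | h2
      · exact absurd huL (hnl u hu h2 (ne_of_nb5 hub).symm)
      · exact h2 ▸ hub
    · exfalso
      rcases e.inWZ hy h5 with h2 | h2
      · exact hnl y hy h2 (HL_bt76 h3).2.symm h3.2.1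
      · rw [h2] at h3
        have h6 : l ∈ G.nb p := HL_sub76 h3 e.zl (m.c.nel hp).symm
        have h7 := e.allZ p hp h6 h4
        have h8 := HL_b76 h3
        rw [h7] at h8
        exact G.irr _ h8
  have mzb : z ∈ G.pT F b := mem_pT.2 ⟨hzbn, e.zN⟩
  have mbz : b ∈ G.pT F z := mem_pT.2 ⟨G.sym _ _ hzbn, hb⟩
  have key : ∀ y ∈ G.N F, l ∉ G.nb y → y ≠ b → y ∈ G.pT F z ∨ y ∈ G.pT F b := by
    intro y hy hyl hyb
    obtain ⟨u, hu, huL, hvu, huy⟩ := m.covN nt hy hyl (hnl y hy hyl hyb)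
    rcases e.inWZ hu hvu with h2 | h2
    · right
      have h3 : u = b := by
        by_contra h3
        exact hnl u hu h2 h3 huL
      rw [h3] at huy
      exact mem_pT.2 ⟨G.sym _ _ huy, hy⟩
    · left
      rw [h2] at huy
      exact mem_pT.2 ⟨G.sym _ _ huy, hy⟩
  have hvb := m.v2 nt hb hbL hbd
  have h1 := ge2_50 (m.v0 nt) hb e.zN (nz hbl)
  have fin2 : (G.pT F z).card = 2 → 2 ≤ (G.pT F b).card → 16 ≤ ∑ x ∈ G.N F, G.gam5 F x := by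
    intro h2 h3
    have h4 : (2 : ℤ) ≤ ((G.pT F b).card : ℤ) := by exact_mod_cast h3
    linarith [hgz.2.2.2.1 h2]
  have hz2 := hgz.1
  rcases key g hgN hgl hgb with k | k <;> rcases key g' hgN' hgl' hgb' with k' | k'
  · have := three_le33 mbz k k' hgb.symm hgb'.symm hgg
    omega
  · have h2 := two_le5 mbz k hgb.symm
    exact fin2 (by omega) (two_le5 mzb k' (nz hgl').symm)
  · have h2 := two_le5 mbz k' hgb'.symm
    exact fin2 (by omega) (two_le5 mzb k (nz hgl).symm)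
  · have h2 : (3 : ℤ) ≤ ((G.pT F b).card : ℤ) := by
      exact_mod_cast three_le33 mzb k k' (nz hgl).symm (nz hgl').symm hgg
    have h3 : 8 ≤ G.gam5 F z := by
      obtain ⟨-, -, h5, -⟩ := m.c.hB.low3 F m.c.hF z e.zN hzL hd3
      rcases h5 with h5 | ⟨u, q, q', huL, h8, hqq, hO, hqu, -⟩
      · have h6 : (1 : ℤ) ≤ ((G.pT F z).card : ℤ) := by exact_mod_cast card_pos.2 ⟨b, mbz⟩
        linarith
      · exfalso
        have h9 : b = u := by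
          rw [h8, mem_singleton] at mbz
          exact mbz
        rw [← h9] at hqu
        have hq : q ∈ G.pO F z := by rw [hO]; simp
        have hq' : q' ∈ G.pO F z := by rw [hO]; simp
        have hqb' : q' ∈ G.nb b := by
          refine G.sym _ _ (Tw_nb5 hqq (G.sym _ _ hqu) ?_)
          rintro rfl
          exact not_low33 ⟨_, hqq.sym33⟩ hbL
        have h10 := two_le5 (S := G.pO F b) (mem_inter.2 ⟨hqu, (mem_inter.1 hq).2⟩)
          (mem_inter.2 ⟨hqb', (mem_inter.1 hq').2⟩) hqq.ne33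
        have h11 := nb_split87 (G := G) F b
        have h12 : (G.nb b).card = 6 := hbL
        have h13 : (G.pX F b).card = 2 := hbd
        have h14 : 3 ≤ (G.pT F b).card := by exact_mod_cast h2
        omega
    linarith

/-- no twins -/
theorem caseS (e : Ey G F l h v w a a' z) (nt : ∀ x ∈ G.N F, ¬ G.IsTw x) :
    16 ≤ ∑ x ∈ G.N F, G.gam5 F x := by
  by_cases h1 : G.Low z
  · by_cases h2 : h ∈ G.nb z
    · exact e.b1 nt h1 h2
    · exact e.b2 nt h1 h2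
  · exact e.b3 nt h1

/-- `l` and `h` are adjacent -/
theorem main (e : Ey G F l h v w a a' z) : 16 ≤ ∑ x ∈ G.N F, G.gam5 F x := by
  have m := e.m
  by_cases h1 : G.Tw a a'
  · exact e.caseA h1
  by_cases h2 : ∃ p ∈ G.N F, l ∉ G.nb p ∧ G.IsTw p
  · obtain ⟨p, hp, hpl, p', hpp⟩ := h2
    exact e.caseP h1 hp hpl hpp
  push Not at h2
  refine e.caseS ?_
  intro x hx hxt
  by_cases h3 : l ∈ G.nb x
  · by_cases h4 : v ∈ G.nb x
    · exact e.zt (e.allZ x hx h3 h4 ▸ hxt)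
    · obtain ⟨y, hy⟩ := hxt
      rcases m.allA x hx h4 with h5 | h5
      · rw [h5] at hy
        exact h1 (m.twa hy ▸ hy)
      · rw [h5] at hy
        have h6 := m.symm.twa hy
        rw [h6] at hy
        exact h1 hy.sym33
  · exact h2 x hx h3 hxt

end Ey

end CG

end Pool.Agent.Lib.MP_e95c01_co.N
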