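import Pool.Agent.Lib.MP_e95c01_co.X.StmtsH76
import Pool.Agent.Lib.MP_e95c01_co.X.G01_16
import Pool.Agent.Lib.MP_e95c01_co.T.F5_30

/-!
# H7: leaves with four vertices, two pairs of twins
-/

namespace Pool.Agent.Lib.MP_e95c01_co.N

open Finset

variable {V : Type} [Fintype V] [DecidableEq V]

namespace CG

/-- two adjacent pairs of twins; `A` is adjacent to `v, w` only, `B` to `v', w'` only, `M` to all -/
structure T89 (G : CG V) (F : Finset V) (v w v' w' : V) (A B M : Finset V) : Prop where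
  lf : G.Lf F
  c4 : F.card = 4
  fm : ∀ x ∈ F, x = v ∨ x = w ∨ x = v' ∨ x = w'
  vF : v ∈ F
  wF : w ∈ F
  vF' : v' ∈ F
  wF' : w' ∈ F
  tw : G.Tw v w
  tw' : G.Tw v' w'
  adj : v' ∈ G.nb v
  hA : ∀ y, y ∈ A ↔ y ∈ G.N F ∧ y ∉ G.nb v'
  hB : ∀ y, y ∈ B ↔ y ∈ G.N F ∧ y ∉ G.nb v
  hM : ∀ y, y ∈ M ↔ y ∈ G.N F ∧ y ∈ G.nb v ∧ y ∈ G.nb v'
  cA : A.card = 2
  cB : B.card = 2
  cM : M.card = 2

variable {G : CG V} {F : Finset V} {v w v' w' : V} {A B M : Finset V}

theorem T89.swap (h : G.T89 F v w v' w' A B M) : G.T89 F v' w' v w B A M where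
  lf := h.lf
  c4 := h.c4
  fm x hx := by
    rcases h.fm x hx with e | e | e | e
    · exact Or.inr (Or.inr (Or.inl e))
    · exact Or.inr (Or.inr (Or.inr e))
    · exact Or.inl e
    · exact Or.inr (Or.inl e)
  vF := h.vF'
  wF := h.wF'
  vF' := h.vF
  wF' := h.wF
  tw := h.tw'
  tw' := h.tw
  adj := G.sym _ _ h.adj
  hA := h.hB
  hB := h.hA
  hM y := by
    rw [h.hM y]
    tauto
  cA := h.cB
  cB := h.cA
  cM := h.cM

theorem twnl89 {x : V} (hx : G.IsTw x) : ¬ G.Low x := by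
  obtain ⟨y, hy⟩ := hx
  intro hl
  have h1 := hy.2.1
  have h2 : (G.nb x).card = 6 := hl
  omega

theorem mem_pTh89 {x y : V} : y ∈ G.pT F x ↔ y ∈ G.nb x ∧ y ∈ G.N F := by
  rw [pT, mem_inter]

section

variable (h : G.T89 F v w v' w' A B M)

include h

theorem T89.n9 : 9 ≤ Fintype.card V := by
  have := h.lf.n12
  omega

theorem T89.notF {x : V} (hx : x ∈ G.N F) {y : V} (hy : y ∈ F) : x ≠ y := by
  rintro rfl
  exact (mem_N76.1 hx).1 hy

/-- `x` in `N F` adjacent to `v` is adjacent to `w` -/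
theorem T89.vw {x : V} (hx : x ∈ G.N F) (h1 : x ∈ G.nb v) : x ∈ G.nb w :=
  Tw_nb5 h.tw h1 (h.notF hx h.wF)

theorem T89.wv {x : V} (hx : x ∈ G.N F) (h1 : x ∈ G.nb w) : x ∈ G.nb v :=
  Tw_nb5 ((stTwHL_5 G).symm _ _ h.tw) h1 (h.notF hx h.vF)

theorem T89.all {x : V} (hx : x ∈ G.N F) : x ∈ A ∨ x ∈ B ∨ x ∈ M := by
  by_cases h1 : x ∈ G.nb v'
  · by_cases h2 : x ∈ G.nb v
    · exact Or.inr (Or.inr ((h.hM x).2 ⟨hx, h2, h1⟩))
    · exact Or.inr (Or.inl ((h.hB x).2 ⟨hx, h2⟩))
  · exact Or.inl ((h.hA x).2 ⟨hx, h1⟩)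

/-- vertices of `A` -/
theorem T89.pXA (hBas : G.StLBas) {y : V} (hy : y ∈ A) : G.pX F y = {v, w} := by
  obtain ⟨h1, h2⟩ := (h.hA y).1 hy
  have h3 : y ∉ G.nb w' := fun h4 => h2 (h.swap.wv h1 h4)
  have h4 := hBas.pos F h.lf y h1
  have h5 : G.pX F y ⊆ {v, w} := by
    intro x hx
    rw [pX, mem_inter] at hx
    rw [mem_insert, mem_singleton]
    rcases h.fm x hx.2 with e | e | e | e
    · exact Or.inl e
    · exact Or.inr e
    · exact absurd (G.sym _ _ (by rw [e] at hx; exact hx.1)) h2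
    · exact absurd (G.sym _ _ (by rw [e] at hx; exact hx.1)) h3
  exact eq_of_subset_of_card_le h5 (by
    rw [card_pair (ne_of_nb5 h.tw.1)]
    exact h4)

theorem T89.vA (hBas : G.StLBas) {y : V} (hy : y ∈ A) : y ∈ G.nb v := by
  have h1 : v ∈ G.pX F y := by rw [h.pXA hBas hy]; exact mem_insert_self _ _
  rw [pX, mem_inter] at h1
  exact G.sym _ _ h1.1

theorem T89.dA (hBas : G.StLBas) {y : V} (hy : y ∈ A) : G.d y F = 2 := by
  have h1 : G.d y F = (G.pX F y).card := rfl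
  rw [h1, h.pXA hBas hy, card_pair (ne_of_nb5 h.tw.1)]

theorem T89.dM {y : V} (hy : y ∈ M) : G.d y F = 4 := by
  obtain ⟨h1, h2, h3⟩ := (h.hM y).1 hy
  have h4 : G.nb y ∩ F = F := by
    ext x
    rw [mem_inter]
    refine ⟨fun h => h.2, fun hx => ⟨?_, hx⟩⟩
    rcases h.fm x hx with e | e | e | e <;> rw [e] <;> apply G.sym
    · exact h2
    · exact h.vw h1 h2
    · exact h3
    · exact h.swap.vw h1 h3
  rw [d, h4, h.c4]

theorem T89.AT {y : V} (hy : y ∈ A) : y ∈ G.N F := ((h.hA y).1 hy).1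

theorem T89.MT {y : V} (hy : y ∈ M) : y ∈ G.N F := ((h.hM y).1 hy).1

theorem T89.AM {y : V} (hy : y ∈ A) : y ∉ M := fun h1 => ((h.hA y).1 hy).2 ((h.hM y).1 h1).2.2

theorem T89.AB (hBas : G.StLBas) {y : V} (hy : y ∈ A) : y ∉ B := fun h1 =>
  ((h.hB y).1 h1).2 (h.vA hBas hy)

/-- vertices in `A ∪ M` with the same neighbours outside are in the same set -/
theorem T89.same {x y : V} (hx : x ∈ G.N F) (hy : y ∈ G.N F)
    (h1 : ∀ z ∈ F, z ∈ G.nb x ↔ z ∈ G.nb y) : (x ∈ A ↔ y ∈ A) ∧ (x ∈ M ↔ y ∈ M) := by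
  have h2 := h1 v h.vF
  have h3 := h1 v' h.vF'
  have e2 : x ∈ G.nb v ↔ y ∈ G.nb v :=
    ⟨fun k => G.sym _ _ (h2.1 (G.sym _ _ k)), fun k => G.sym _ _ (h2.2 (G.sym _ _ k))⟩
  have e3 : x ∈ G.nb v' ↔ y ∈ G.nb v' :=
    ⟨fun k => G.sym _ _ (h3.1 (G.sym _ _ k)), fun k => G.sym _ _ (h3.2 (G.sym _ _ k))⟩
  rw [h.hA, h.hA, h.hM, h.hM, e2, e3]
  tauto

/-- the sum -/
theorem T89.sum (hBas : G.StLBas) (f : V → ℤ) :
    ∑ x ∈ G.N F, f x = ∑ x ∈ A, f x + ∑ x ∈ B, f x + ∑ x ∈ M, f x := by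
  classical
  have e : G.N F = A ∪ B ∪ M := by
    ext x
    rw [mem_union, mem_union]
    constructor
    · intro hx
      rcases h.all hx with k | k | k
      · exact Or.inl (Or.inl k)
      · exact Or.inl (Or.inr k)
      · exact Or.inr k
    · rintro ((k | k) | k)
      · exact h.AT k
      · exact h.swap.AT k
      · exact h.MT k
  have d1 : Disjoint A B := disjoint_left.2 fun x hx => h.AB hBas hx
  have d2 : Disjoint (A ∪ B) M := by
    rw [disjoint_left]
    intro x hx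
    rcases mem_union.1 hx with k | k
    · exact h.AM k
    · exact h.swap.AM k
  rw [e, sum_union d2, sum_union d1]

/-- the edge `v v'` -/
theorem T89.e0 : (∃ m ∈ M, G.Low m) ∨ ∃ m ∈ M, ∃ m' ∈ M, G.Tw m m' := by
  have TH := stTwHL_5 G
  have n9 := h.n9
  have nl : ∀ x ∈ F, ¬ G.Low x := by
    intro x hx
    rcases h.fm x hx with e | e | e | e <;> rw [e]
    · exact twnl89 ⟨_, h.tw⟩
    · exact twnl89 ⟨_, TH.symm _ _ h.tw⟩
    · exact twnl89 ⟨_, h.tw'⟩
    · exact twnl89 ⟨_, TH.symm _ _ h.tw'⟩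
  rcases h.lf.cov v h.vF v' (mem_union_left _ h.vF') h.adj with h1 | h1 | h1 | h1 | h1
  · obtain ⟨m, h1, h2, h3, h4⟩ := h1
    rcases mem_union.1 h1 with h5 | h5
    · exact absurd h2 (nl _ h5)
    · exact Or.inl ⟨m, (h.hM m).2 ⟨h5, G.sym _ _ h3, G.sym _ _ h4⟩, h2⟩
  · obtain ⟨m, h1, m', h2, h3, h4, h5, h6, h7⟩ := h1
    have key : ∀ m m', m ∈ F ∪ G.N F → G.Tw m m' → v ∈ G.nb m → v ∈ G.nb m' → v' ∈ G.nb m →
        v' ∈ G.nb m' → m ∈ M := by
      intro m m' h1 h3 h4 h5 h6 h7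
      rcases mem_union.1 h1 with h8 | h8
      · exfalso
        rcases h.fm m h8 with e | e | e | e
        · rw [e] at h4; exact G.irr _ h4
        · rw [e] at h3
          have := TH.uniq n9 _ _ _ (TH.symm _ _ h.tw) h3
          rw [← this] at h5
          exact G.irr _ h5
        · rw [e] at h6; exact G.irr _ h6
        · rw [e] at h3
          have := TH.uniq n9 _ _ _ (TH.symm _ _ h.tw') h3
          rw [← this] at h7
          exact G.irr _ h7
      · exact (h.hM m).2 ⟨h8, G.sym _ _ h4, G.sym _ _ h6⟩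
    exact Or.inr ⟨m, key m m' h1 h3 h4 h5 h6 h7, m', key m' m h2 (TH.symm _ _ h3) h5 h4 h7 h6, h3⟩
  · obtain ⟨a, b, h1, -⟩ := h1
    exact absurd (h.lf.sat _ _ _ h1) (nl _ h.vF')
  · obtain ⟨a, b, h1, -⟩ := h1
    exact absurd (h.lf.sat _ _ _ h1) (nl _ h.vF)
  · obtain ⟨a, b, h1, -⟩ := h1
    exact absurd ⟨_, h.tw⟩ (TH.twLL _ _ _ _ h1).1

end

/-- `x` is covered by `M` -/
def MC89 (G : CG V) (M : Finset V) (x : V) : Prop :=
  (∃ m ∈ M, G.Low m ∧ x ∈ G.nb m) ∨ ∃ m ∈ M, ∃ m' ∈ M, G.HL m' m x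

section

variable (h : G.T89 F v w v' w' A B M)

include h

/-- low vertices of `M` -/
theorem T89.low (hB : G.StLB) {m : V} (hm : m ∈ M) (hl : G.Low m) :
    (G.pT F m).card ≤ 1 ∧ 10 ≤ G.gam5 F m := by
  obtain ⟨h1, h2, -⟩ := hB.low4 F h.lf m (h.MT hm) hl (h.dM hm)
  exact ⟨h1, h2⟩

/-- a low vertex of `M` has at most one neighbour in `N F` -/
theorem T89.one (hB : G.StLB) {m x y : V} (hm : m ∈ M) (hl : G.Low m) (hx : x ∈ G.nb m)
    (hy : y ∈ G.nb m) (hx' : x ∈ G.N F) (hy' : y ∈ G.N F) : x = y := by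
  by_contra h1
  have h2 := (h.low hB hm hl).1
  have h3 := two_le5 (mem_pTh89.2 ⟨hx, hx'⟩) (mem_pTh89.2 ⟨hy, hy'⟩) h1
  omega

/-- covers of the edge `v a`, `a ∈ A` -/
theorem T89.cv (hBas : G.StLBas) (hB : G.StLB) {a : V} (ha : a ∈ A) :
    (∃ x ∈ A, G.Low x ∧ a ∈ G.nb x) ∨ G.MC89 M a := by
  have TH := stTwHL_5 G
  have n9 := h.n9
  have nl : ∀ x ∈ F, ¬ G.Low x := by
    intro x hx
    rcases h.fm x hx with e | e | e | e <;> rw [e]
    · exact twnl89 ⟨_, h.tw⟩
    · exact twnl89 ⟨_, TH.symm _ _ h.tw⟩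
    · exact twnl89 ⟨_, h.tw'⟩
    · exact twnl89 ⟨_, TH.symm _ _ h.tw'⟩
  have hAM : ∀ {x : V}, x ∈ G.N F → v ∈ G.nb x → x ∈ A ∨ x ∈ M := by
    intro x hx h1
    by_cases h2 : x ∈ G.nb v'
    · exact Or.inr ((h.hM x).2 ⟨hx, G.sym _ _ h1, h2⟩)
    · exact Or.inl ((h.hA x).2 ⟨hx, h2⟩)
  have haT := h.AT ha
  have hav' : a ∉ G.nb v' := ((h.hA a).1 ha).2
  have haw' : a ∉ G.nb w' := fun k => hav' (h.swap.wv haT k)
  rcases h.lf.cov v h.vF a (mem_union_right _ haT) (h.vA hBas ha) with h1 | h1 | h1 | h1 | h1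
  · obtain ⟨m, h1, h2, h3, h4⟩ := h1
    rcases mem_union.1 h1 with h5 | h5
    · exact absurd h2 (nl _ h5)
    · rcases hAM h5 h3 with h6 | h6
      · exact Or.inl ⟨m, h6, h2, h4⟩
      · exact Or.inr (Or.inl ⟨m, h6, h2, h4⟩)
  · exfalso
    obtain ⟨m, h1, m', h2, h3, h4, h5, h6, h7⟩ := h1
    have key : ∀ m m', m ∈ F ∪ G.N F → G.Tw m m' → v ∈ G.nb m → v ∈ G.nb m' → a ∈ G.nb m →
        a ∈ G.nb m' → m ∈ A ∨ m ∈ M := by
      intro m m' h1 h3 h4 h5 h6 h7
      rcases mem_union.1 h1 with h8 | h8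
      · exfalso
        rcases h.fm m h8 with e | e | e | e
        · rw [e] at h4; exact G.irr _ h4
        · rw [e] at h3
          have := TH.uniq n9 _ _ _ (TH.symm _ _ h.tw) h3
          rw [← this] at h5
          exact G.irr _ h5
        · rw [e] at h6; exact hav' h6
        · rw [e] at h6; exact haw' h6
      · exact hAM h8 h4
    have k1 := key m m' h1 h3 h4 h5 h6 h7
    have k2 := key m' m h2 (TH.symm _ _ h3) h5 h4 h7 h6
    have mT : m ∈ G.N F := by
      rcases k1 with k | k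
      · exact h.AT k
      · exact h.MT k
    have mT' : m' ∈ G.N F := by
      rcases k2 with k | k
      · exact h.AT k
      · exact h.MT k
    have hs := h.same mT mT' (fun z hz => by
      have z1 : z ≠ m' := (h.notF mT' hz).symm
      have z2 : z ≠ m := (h.notF mT hz).symm
      exact ⟨fun k => Tw_nb5 h3 k z1, fun k => Tw_nb5 (TH.symm _ _ h3) k z2⟩)
    have nam : a ≠ m := by
      rintro rfl
      exact G.irr _ h6
    have nam' : a ≠ m' := by
      rintro rfl
      exact G.irr _ h7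
    rcases k1 with k | k
    · -- three different vertices in `A`
      have k3 := hs.1.1 k
      have h8 : ({a, m, m'} : Finset V) ⊆ A := by
        intro x hx
        simp only [mem_insert, mem_singleton] at hx
        rcases hx with e | e | e <;> rw [e] <;> assumption
      have h9 := card_le_card h8
      rw [card_insert_of_notMem (by simp [nam, nam']), card_pair (ne_of_nb5 h3.1), h.cA] at h9
      omega
    · -- `m` has two neighbours in `N F`
      have h8 := (hB.tw F h.lf m (h.MT k) ⟨_, h3⟩).2.2.2.1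
      rw [h.dM k] at h8
      have h9 := two_le5 (mem_pTh89.2 ⟨h6, haT⟩) (mem_pTh89.2 ⟨h3.1, mT'⟩) nam'
      omega
  · obtain ⟨x, b, h1, h2, h3, h4 | h4⟩ := h1
    · exact absurd h1.2.1 (nl _ h4.2)
    · have hs := h.same h4.1 h4.2 (fun z hz => by
        have z1 : z ≠ b := (h.notF h4.2 hz).symm
        have z2 : z ≠ x := (h.notF h4.1 hz).symm
        have z3 : z ≠ a := (h.notF haT hz).symm
        constructor
        · intro k
          rcases HL_sup76 h1 k z3 with e | e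
          · exact absurd e z1
          · exact e
        · intro k
          exact HL_sub76 h1 k z2)
      have n1 : a ≠ x := (ne_of_nb5 (HL_t76 h1)).symm
      have n2 : a ≠ b := (HL_bt76 h1).2
      rcases hAM h4.1 h3 with k | k
      · exfalso
        have k3 := hs.1.1 k
        have h8 : ({a, x, b} : Finset V) ⊆ A := by
          intro z hz
          simp only [mem_insert, mem_singleton] at hz
          rcases hz with e | e | e <;> rw [e] <;> assumption
        have h9 := card_le_card h8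
        rw [card_insert_of_notMem (by simp [n1, n2]), card_pair (ne_of_nb5 (HL_b76 h1)),
          h.cA] at h9
        omega
      · exact Or.inr (Or.inr ⟨b, hs.2.1 k, x, k, h1⟩)
  · obtain ⟨x, b, h1, -⟩ := h1
    exact absurd (h.lf.sat _ _ _ h1) (nl _ h.vF)
  · obtain ⟨x, b, h1, -⟩ := h1
    exact absurd ⟨_, h.tw⟩ (TH.twLL _ _ _ _ h1).1

/-- no twins in `A` -/
theorem T89.ntA (hBas : G.StLBas) (hB : G.StLB) {a : V} (ha : a ∈ A) : ¬ G.IsTw a := by
  rintro ⟨a', hT⟩
  have TH := stTwHL_5 G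
  have hT' := TH.symm _ _ hT
  have haT := h.AT ha
  have haT' : a' ∈ G.N F := ((hBas.twT F h.lf a a' hT).1 haT)
  have hs := h.same haT haT' (fun z hz => by
    have z1 : z ≠ a' := (h.notF haT' hz).symm
    have z2 : z ≠ a := (h.notF haT hz).symm
    exact ⟨fun k => Tw_nb5 hT k z1, fun k => Tw_nb5 hT' k z2⟩)
  have ha' := hs.1.1 ha
  have hne : a ≠ a' := ne_of_nb5 hT.1
  have hAe : ∀ x ∈ A, x = a ∨ x = a' := by
    intro x hx
    have h1 : ({a, a'} : Finset V) = A := eq_of_subset_of_card_le (by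
      intro y hy
      simp only [mem_insert, mem_singleton] at hy
      rcases hy with e | e <;> rw [e] <;> assumption) (by rw [h.cA, card_pair hne])
    rw [← h1] at hx
    simpa using hx
  rcases h.cv hBas hB ha with h1 | h1 | h1
  · obtain ⟨x, hx, h2, h3⟩ := h1
    rcases hAe x hx with e | e
    · rw [e] at h2; exact twnl89 ⟨_, hT⟩ h2
    · rw [e] at h2; exact twnl89 ⟨_, hT'⟩ h2
  · obtain ⟨m, hm, h2, h3⟩ := h1
    have n1 : m ≠ a' := by
      rintro rfl
      exact twnl89 ⟨_, hT'⟩ h2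
    have h4 : m ∈ G.nb a' := Tw_nb5 hT (G.sym _ _ h3) n1
    exact hne (h.one hB hm h2 h3 (G.sym _ _ h4) haT haT')
  · obtain ⟨m, hm, m', hm', h2⟩ := h1
    exact twnl89 ⟨_, hT⟩ (h.lf.sat _ _ _ h2)

/-- values in `A` -/
theorem T89.gA (hBas : G.StLBas) (hB : G.StLB) {a : V} (ha : a ∈ A) : 0 ≤ G.gam5 F a := by
  by_cases hl : G.Low a
  · obtain ⟨h1, h2, h3⟩ := hB.low2 F h.lf a (h.AT ha) hl (h.dA hBas ha)
    have h4 : (0 : ℤ) ≤ min (2 * ((G.pT F a).card : ℤ)) 2 := le_min (by positivity) (by norm_num)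
    linarith
  · exact (hB.hub F h.lf a (h.AT ha) ⟨hl, h.ntA hBas hB ha⟩).ge

/-- low vertex of `A` with a neighbour -/
theorem T89.gA4 (hBas : G.StLBas) (hB : G.StLB) {a x : V} (ha : a ∈ A) (hl : G.Low a)
    (hx : x ∈ G.pT F a) : 4 ≤ G.gam5 F a := by
  obtain ⟨h1, h2, h3⟩ := hB.low2 F h.lf a (h.AT ha) hl (h.dA hBas ha)
  have h5 : (1 : ℤ) ≤ ((G.pT F a).card : ℤ) := by
    have : 0 < (G.pT F a).card := card_pos.2 ⟨x, hx⟩
    exact_mod_cast this
  have h4 : (2 : ℤ) ≤ min (2 * ((G.pT F a).card : ℤ)) 2 := le_min (by linarith) (le_refl _)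
  linarith

/-- low vertex of `A` with two neighbours, one of them not a twin -/
theorem T89.gA6 (hBas : G.StLBas) (hB : G.StLB) {a x : V} (ha : a ∈ A) (hl : G.Low a)
    (hx : x ∈ G.pT F a) (hxt : ¬ G.IsTw x) (h2 : 2 ≤ (G.pT F a).card) : 6 ≤ G.gam5 F a := by
  obtain ⟨h1, h3, -⟩ := hB.low2 F h.lf a (h.AT ha) hl (h.dA hBas ha)
  rcases h3 with h3 | ⟨-, h3, -⟩
  · have h5 : (2 : ℤ) ≤ ((G.pT F a).card : ℤ) := by exact_mod_cast h2
    linarith
  · exfalso
    obtain ⟨p, q, hpq, h4⟩ := h3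
    rw [h4] at hx
    rcases mem_insert.1 hx with e | e
    · exact hxt ⟨q, by rw [e]; exact hpq⟩
    · rw [mem_singleton] at e
      exact hxt ⟨p, by rw [e]; exact (stTwHL_5 G).symm _ _ hpq⟩

/-- type (i) -/
theorem T89.typ1 (hBas : G.StLBas) (hB : G.StLB) {a b : V} (ha : a ∈ A) (hb : b ∈ A)
    (la : G.Low a) (lb : G.Low b) (hab : b ∈ G.nb a) : 10 ≤ G.gam5 F a + G.gam5 F b := by
  have ma : b ∈ G.pT F a := mem_pTh89.2 ⟨hab, h.AT hb⟩
  have mb : a ∈ G.pT F b := mem_pTh89.2 ⟨G.sym _ _ hab, h.AT ha⟩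
  have hfive : ∀ a b, a ∈ A → b ∈ A → G.Low a → G.Low b → G.pT F a = {b} → G.pT F b = {a} →
      5 ≤ G.gam5 F a := by
    intro a b ha hb la lb ea eb
    have hS0 : G.S0 F a b := by
      refine ⟨h.AT ha, la, lb, ea, ⟨v, w, h.tw, h.pXA hBas ha, G.sym _ _ ?_⟩, ?_⟩
      · exact G.sym _ _ (G.sym _ _ (h.vA hBas hb))
      · rintro ⟨-, h1⟩
        have h2 := dg16 G F b
        have h3 : (G.nb b).card = 6 := lb
        rw [h.pXA hBas hb, card_pair (ne_of_nb5 h.tw.1), eb, card_singleton, h1] at h2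
        omega
    exact (hB.low2s F h.lf a (h.AT ha) b hS0).2.1 eb
  by_cases h1 : 2 ≤ (G.pT F a).card
  · have h2 := h.gA6 hBas hB ha la ma (fun k => twnl89 k lb) h1
    have h3 := h.gA4 hBas hB hb lb mb
    linarith
  by_cases h2 : 2 ≤ (G.pT F b).card
  · have h3 := h.gA6 hBas hB hb lb mb (fun k => twnl89 k la) h2
    have h4 := h.gA4 hBas hB ha la ma
    linarith
  · have ea : G.pT F a = {b} := by
      symm
      exact eq_of_subset_of_card_le (singleton_subset_iff.2 ma) (by rw [card_singleton]; omega)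
    have eb : G.pT F b = {a} := by
      symm
      exact eq_of_subset_of_card_le (singleton_subset_iff.2 mb) (by rw [card_singleton]; omega)
    have h3 := hfive a b ha hb la lb ea eb
    have h4 := hfive b a hb ha lb la eb ea
    linarith

/-- one side: type (i), or some `x` is covered by `M`, and the other vertex is covered by `x` or
by `M` -/
theorem T89.side (hBas : G.StLBas) (hB : G.StLB) : 10 ≤ ∑ x ∈ A, G.gam5 F x ∨
    ∃ x y, x ≠ y ∧ A = {x, y} ∧ G.MC89 M x ∧ ((G.Low x ∧ y ∈ G.nb x) ∨ G.MC89 M y) := by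
  obtain ⟨a, b, hab, hA⟩ := card_eq_two.1 h.cA
  have ha : a ∈ A := by rw [hA]; exact mem_insert_self _ _
  have hb : b ∈ A := by rw [hA]; exact mem_insert_of_mem (mem_singleton_self _)
  have cv : ∀ x y, x ∈ A → (∀ z ∈ A, z = x ∨ z = y) → (G.Low y ∧ x ∈ G.nb y) ∨ G.MC89 M x := by
    intro x y hx hz
    rcases h.cv hBas hB hx with ⟨z, hz', h1, h2⟩ | h1
    · rcases hz z hz' with e | e
      · rw [e] at h2
        exact absurd h2 (G.irr _)
      · rw [e] at h1 h2
        exact Or.inl ⟨h1, h2⟩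
    · exact Or.inr h1
  have hm : ∀ z ∈ A, z = a ∨ z = b := by
    intro z hz
    rw [hA] at hz
    simpa using hz
  have c1 := cv a b ha hm
  have c2 := cv b a hb (fun z hz => (hm z hz).symm)
  rcases c1 with c1 | c1
  · rcases c2 with c2 | c2
    · left
      rw [hA, sum_pair hab]
      exact h.typ1 hBas hB ha hb c2.1 c1.1 c2.2
    · right
      exact ⟨b, a, hab.symm, by rw [hA, pair_comm], c2, Or.inl c1⟩
  · right
    exact ⟨a, b, hab, hA, c1, c2⟩

theorem T89.sumA0 (hBas : G.StLBas) (hB : G.StLB) : 0 ≤ ∑ x ∈ A, G.gam5 F x :=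
  sum_nonneg fun _ hx => h.gA hBas hB hx

/-- value of a low vertex of `M` with a neighbour -/
theorem T89.g12 (hB : G.StLB) {m x : V} (hm : m ∈ M) (hl : G.Low m) (hx : x ∈ G.pT F m)
    (hno : ¬ ∃ a b, G.HL a b m ∧ G.pT F m = {a} ∧ G.Hub a) : 12 ≤ G.gam5 F m := by
  obtain ⟨-, -, h3⟩ := hB.low4 F h.lf m (h.MT hm) hl (h.dM hm)
  rcases h3 with h3 | ⟨a, b, h4, -, -, h5, h6⟩
  · have h5 : (1 : ℤ) ≤ ((G.pT F m).card : ℤ) := by
      have : 0 < (G.pT F m).card := card_pos.2 ⟨x, hx⟩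
      exact_mod_cast this
    linarith
  · exact absurd ⟨a, b, h4, h5, h6⟩ hno

theorem T89.sumA1 (hBas : G.StLBas) (hB : G.StLB) {x : V} (hx : x ∈ A) :
    G.gam5 F x ≤ ∑ x ∈ A, G.gam5 F x :=
  single_le_sum (f := fun x => G.gam5 F x) (fun _ hy => h.gA hBas hB hy) hx

/-- two lows in `M` -/
theorem T89.two (hBas : G.StLBas) (hB : G.StLB) (hl : ∀ m ∈ M, G.Low m) :
    28 ≤ ∑ x ∈ G.N F, G.gam5 F x := by
  have sM : 20 ≤ ∑ x ∈ M, G.gam5 F x := by
    have h1 : ∑ x ∈ M, (10 : ℤ) ≤ ∑ x ∈ M, G.gam5 F x :=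
      sum_le_sum fun m hm => (h.low hB hm (hl m hm)).2
    rw [sum_const, h.cM] at h1
    simpa using h1
  have mc : ∀ x, G.MC89 M x → ∃ m ∈ M, x ∈ G.nb m := by
    rintro x (⟨m, hm, -, h1⟩ | ⟨m, hm, m', hm', h1⟩)
    · exact ⟨m, hm, h1⟩
    · exact absurd (hl m' hm') (HL_not_low76 h1)
  rw [h.sum hBas]
  have sA := h.sumA0 hBas hB
  have sB := h.swap.sumA0 hBas hB
  rcases h.side hBas hB with kA | ⟨x, y, hxy, hA, c1, c2⟩
  · linarith
  rcases h.swap.side hBas hB with kB | ⟨x', y', hxy', hBe, c1', c2'⟩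
  · linarith
  have xA : x ∈ A := by rw [hA]; exact mem_insert_self _ _
  have yA : y ∈ A := by rw [hA]; exact mem_insert_of_mem (mem_singleton_self _)
  have xB : x' ∈ B := by rw [hBe]; exact mem_insert_self _ _
  have yB : y' ∈ B := by rw [hBe]; exact mem_insert_of_mem (mem_singleton_self _)
  obtain ⟨m, hm, hmx⟩ := mc x c1
  obtain ⟨m', hm', hmx'⟩ := mc x' c1'
  have nAB : ∀ {a b : V}, a ∈ A → b ∈ B → a ≠ b := by
    rintro a b ha hb rfl
    exact h.AB hBas ha hb
  have hmm : m ≠ m' := by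
    rintro rfl
    exact nAB xA xB (h.one hB hm (hl m hm) hmx hmx' (h.AT xA) (h.swap.AT xB))
  have hMe : ∀ z ∈ M, z = m ∨ z = m' := by
    intro z hz
    have h1 : ({m, m'} : Finset V) = M := eq_of_subset_of_card_le (by
      intro y hy
      simp only [mem_insert, mem_singleton] at hy
      rcases hy with e | e <;> rw [e] <;> assumption) (by rw [h.cM, card_pair hmm])
    rw [← h1] at hz
    simpa using hz
  have lx : G.Low x := by
    rcases c2 with c2 | c2
    · exact c2.1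
    · exfalso
      obtain ⟨n, hn, hny⟩ := mc y c2
      rcases hMe n hn with e | e
      · rw [e] at hny
        exact hxy (h.one hB hm (hl m hm) hmx hny (h.AT xA) (h.AT yA))
      · rw [e] at hny
        exact nAB yA xB (h.one hB hm' (hl m' hm') hny hmx' (h.AT yA) (h.swap.AT xB))
  have lx' : G.Low x' := by
    rcases c2' with c2 | c2
    · exact c2.1
    · exfalso
      obtain ⟨n, hn, hny⟩ := mc y' c2
      rcases hMe n hn with e | e
      · rw [e] at hny
        exact nAB xA yB (h.one hB hm (hl m hm) hmx hny (h.AT xA) (h.swap.AT yB))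
      · rw [e] at hny
        exact hxy' (h.one hB hm' (hl m' hm') hmx' hny (h.swap.AT xB) (h.swap.AT yB))
  have g12 : ∀ n z, n ∈ M → z ∈ G.nb n → z ∈ G.N F → G.Low z → 12 ≤ G.gam5 F n := by
    intro n z hn hz hzT lz
    have hzp : z ∈ G.pT F n := mem_pTh89.2 ⟨hz, hzT⟩
    refine h.g12 hB hn (hl n hn) hzp ?_
    rintro ⟨a, b, -, h2, h3⟩
    rw [h2, mem_singleton] at hzp
    rw [hzp] at lz
    exact h3.1 lz
  have g1 := g12 m x hm hmx (h.AT xA) lx
  have g2 := g12 m' x' hm' hmx' (h.swap.AT xB) lx'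
  have g3 := h.gA4 hBas hB xA lx (mem_pTh89.2 ⟨G.sym _ _ hmx, h.MT hm⟩)
  have g4 := h.swap.gA4 hBas hB xB lx' (mem_pTh89.2 ⟨G.sym _ _ hmx', h.MT hm'⟩)
  have g5 := h.sumA1 hBas hB xA
  have g6 := h.swap.sumA1 hBas hB xB
  have g7 : G.gam5 F m + G.gam5 F m' = ∑ x ∈ M, G.gam5 F x := by
    have h1 : ({m, m'} : Finset V) = M := eq_of_subset_of_card_le (by
      intro y hy
      simp only [mem_insert, mem_singleton] at hy
      rcases hy with e | e <;> rw [e] <;> assumption) (by rw [h.cM, card_pair hmm])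
    rw [← h1, sum_pair hmm]
  linarith

/-- `M = {m, n}`, `m` low, `n` not low -/
theorem T89.mix (hBas : G.StLBas) (hB : G.StLB) {m n : V} (hm : m ∈ M) (hn : n ∈ M)
    (lm : G.Low m) (ln : ¬ G.Low n) : 28 ≤ ∑ x ∈ G.N F, G.gam5 F x := by
  have TH := stTwHL_5 G
  have n9 := h.n9
  have hmn : m ≠ n := by
    rintro rfl
    exact ln lm
  have hMeq : ({m, n} : Finset V) = M := eq_of_subset_of_card_le (by
    intro y hy
    simp only [mem_insert, mem_singleton] at hy
    rcases hy with e | e <;> rw [e] <;> assumption) (by rw [h.cM, card_pair hmn])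
  have hMe : ∀ z ∈ M, z = m ∨ z = n := by
    intro z hz
    rw [← hMeq] at hz
    simpa using hz
  have nT : ¬ G.IsTw n := by
    rintro ⟨k, hk⟩
    have hkT := (hBas.twT F h.lf n k hk).1 (h.MT hn)
    have hs := h.same (h.MT hn) hkT (fun z hz => by
      have z1 : z ≠ k := (h.notF hkT hz).symm
      have z2 : z ≠ n := (h.notF (h.MT hn) hz).symm
      exact ⟨fun q => Tw_nb5 hk q z1, fun q => Tw_nb5 (TH.symm _ _ hk) q z2⟩)
    rcases hMe k (hs.2.1 hn) with e | e
    · rw [e] at hk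
      exact twnl89 ⟨_, TH.symm _ _ hk⟩ lm
    · rw [e] at hk
      exact G.irr _ hk.1
  have gn : G.gam5 F n = 0 := hB.hub F h.lf n (h.MT hn) ⟨ln, nT⟩
  have gm := (h.low hB hm lm).2
  have sM : ∑ x ∈ M, G.gam5 F x = G.gam5 F m := by
    rw [← hMeq, sum_pair hmn, gn, add_zero]
  have mc : ∀ x, G.MC89 M x → x ∈ G.nb m ∨ G.HL n m x := by
    rintro x (⟨k, hk, lk, h1⟩ | ⟨k, hk, k', hk', h1⟩)
    · rcases hMe k hk with e | e
      · rw [e] at h1; exact Or.inl h1
      · rw [e] at lk; exact absurd lk ln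
    · right
      have lk := h1.2.1
      have nlk := HL_not_low76 h1
      rcases hMe k hk with e | e
      · rcases hMe k' hk' with e' | e'
        · rw [e'] at nlk; exact absurd lm nlk
        · rw [e, e'] at h1; exact h1
      · rw [e] at lk; exact absurd lk ln
  have uq : ∀ x y, x ∈ G.N F → y ∈ G.N F → x ∉ M → y ∉ M → G.MC89 M x → G.MC89 M y → x = y := by
    intro x y hx hy xM yM cx cy
    rcases mc x cx with c1 | c1
    · rcases mc y cy with c2 | c2
      · exact h.one hB hm lm c1 c2 hx hy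
      · exfalso
        have := h.one hB hm lm c1 (G.sym _ _ (HL_b76 c2)) hx (h.MT hn)
        rw [this] at xM
        exact xM hn
    · rcases mc y cy with c2 | c2
      · exfalso
        have := h.one hB hm lm c2 (G.sym _ _ (HL_b76 c1)) hy (h.MT hn)
        rw [this] at yM
        exact yM hn
      · by_contra hne
        rcases HL_sup76 c1 (HL_t76 c2) (Ne.symm hne) with e | e
        · exact (HL_bt76 c2).2 e
        · exact (HL_bt76 c2).1 e
  have one : ∀ {v w v' w' : V} {A B : Finset V}, G.T89 F v w v' w' A B M →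
      (∃ x y, x ≠ y ∧ A = {x, y} ∧ G.MC89 M x ∧ ((G.Low x ∧ y ∈ G.nb x) ∨ G.MC89 M y)) →
      18 ≤ ∑ x ∈ A, G.gam5 F x + G.gam5 F m := by
    intro v w v' w' A B h ⟨x, y, hxy, hA, c1, c2⟩
    have xA : x ∈ A := by rw [hA]; exact mem_insert_self _ _
    have yA : y ∈ A := by rw [hA]; exact mem_insert_of_mem (mem_singleton_self _)
    have c3 : G.Low x ∧ y ∈ G.nb x := by
      rcases c2 with c2 | c2
      · exact c2
      · exact absurd (uq x y (h.AT xA) (h.AT yA) (h.AM xA) (h.AM yA) c1 c2) hxy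
    have yp : y ∈ G.pT F x := mem_pTh89.2 ⟨c3.2, h.AT yA⟩
    have g1 := h.sumA1 hBas hB xA
    rcases mc x c1 with c4 | c4
    · have mp : m ∈ G.pT F x := mem_pTh89.2 ⟨G.sym _ _ c4, h.MT hm⟩
      have hym : m ≠ y := by
        rintro rfl
        exact h.AM yA hm
      have g2 := h.gA6 hBas hB xA c3.1 mp (fun k => twnl89 k lm) (two_le5 mp yp hym)
      have xp : x ∈ G.pT F m := mem_pTh89.2 ⟨c4, h.AT xA⟩
      have g3 := h.g12 hB hm lm xp (by
        rintro ⟨a, b, -, h2, h3⟩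
        rw [h2, mem_singleton] at xp
        have := c3.1
        rw [xp] at this
        exact h3.1 this)
      linarith
    · have np : n ∈ G.pT F x := mem_pTh89.2 ⟨G.sym _ _ (HL_t76 c4), h.MT hn⟩
      have hyn : n ≠ y := by
        rintro rfl
        exact h.AM yA hn
      have g2 := h.gA6 hBas hB xA c3.1 np nT (two_le5 np yp hyn)
      have xp : n ∈ G.pT F m := mem_pTh89.2 ⟨G.sym _ _ (HL_b76 c4), h.MT hn⟩
      have g3 := h.g12 hB hm lm xp (by
        rintro ⟨a, b, h1, h2, h3⟩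
        rw [h2, mem_singleton] at xp
        rw [← xp] at h1
        exact TH.nomut n9 _ _ _ _ _ h1 c4 rfl)
      linarith
  rw [h.sum hBas, sM]
  have kA := h.side hBas hB
  have kB := h.swap.side hBas hB
  rcases kA with kA | kA
  · rcases kB with kB | kB
    · linarith
    · have := one h.swap kB
      linarith
  · rcases kB with kB | kB
    · have := one h kA
      linarith
    · exfalso
      obtain ⟨x, y, -, hA, c1, -⟩ := kA
      obtain ⟨x', y', -, hBe, c1', -⟩ := kB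
      have xA : x ∈ A := by rw [hA]; exact mem_insert_self _ _
      have xB : x' ∈ B := by rw [hBe]; exact mem_insert_self _ _
      have := uq x x' (h.AT xA) (h.swap.AT xB) (h.AM xA) (h.swap.AM xB) c1 c1'
      rw [← this] at xB
      exact h.AB hBas xA xB

/-- `M` a pair of twins -/
theorem T89.pair (hBas : G.StLBas) (hB : G.StLB) {m n : V} (hm : m ∈ M) (hn : n ∈ M)
    (hmn : G.Tw m n) : 22 ≤ ∑ x ∈ G.N F, G.gam5 F x := by
  have TH := stTwHL_5 G
  have hne : m ≠ n := ne_of_nb5 hmn.1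
  have hMeq : ({m, n} : Finset V) = M := eq_of_subset_of_card_le (by
    intro y hy
    simp only [mem_insert, mem_singleton] at hy
    rcases hy with e | e <;> rw [e] <;> assumption) (by rw [h.cM, card_pair hne])
  have hMt : ∀ z ∈ M, G.IsTw z := by
    intro z hz
    rw [← hMeq] at hz
    simp only [mem_insert, mem_singleton] at hz
    rcases hz with e | e <;> rw [e]
    · exact ⟨_, hmn⟩
    · exact ⟨_, TH.symm _ _ hmn⟩
  have mc : ∀ x, ¬ G.MC89 M x := by
    rintro x (⟨k, hk, lk, h1⟩ | ⟨k, hk, k', hk', h1⟩)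
    · exact twnl89 (hMt k hk) lk
    · exact twnl89 (hMt k hk) h1.2.1
  have g : ∀ z ∈ M, 1 ≤ G.gam5 F z := fun z hz =>
    (hB.tw F h.lf z (h.MT hz) (hMt z hz)).2.2.2.2.2 (h.dM hz)
  have sM : 2 ≤ ∑ x ∈ M, G.gam5 F x := by
    rw [← hMeq, sum_pair hne]
    have g1 := g m hm
    have g2 := g n hn
    linarith
  rw [h.sum hBas]
  rcases h.side hBas hB with kA | ⟨x, y, -, -, c1, -⟩
  · rcases h.swap.side hBas hB with kB | ⟨x, y, -, -, c1, -⟩
    · linarith
    · exact absurd c1 (mc x)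
  · exact absurd c1 (mc x)

end

/-- the adjacent case -/
theorem mkT89 (hBas : G.StLBas) (hF : G.Lf F) (c4 : F.card = 4) (hFe : F = {v, w, v', w'})
    (h1 : G.Tw v w) (h2 : G.Tw v' w') (n1 : v ≠ v') (n2 : v ≠ w') (ha : v' ∈ G.nb v) :
    G.T89 F v w v' w' (G.N F \ G.nb v') (G.N F \ G.nb v) (G.N F ∩ (G.nb v ∩ G.nb v')) := by
  have TH := stTwHL_5 G
  have n9 : 9 ≤ Fintype.card V := by
    have := hF.n12
    omega
  have hvF : v ∈ F := by rw [hFe]; simp
  have hwF : w ∈ F := by rw [hFe]; simp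
  have hvF' : v' ∈ F := by rw [hFe]; simp
  have hwF' : w' ∈ F := by rw [hFe]; simp
  have fm : ∀ x ∈ F, x = v ∨ x = w ∨ x = v' ∨ x = w' := by
    intro x hx
    rw [hFe] at hx
    simpa only [mem_insert, mem_singleton] using hx
  have n3 : w ≠ v' := by
    rintro rfl
    exact n2 (TH.uniq n9 _ _ _ (TH.symm _ _ h1) h2)
  have n4 : w ≠ w' := by
    rintro rfl
    exact n1 (TH.uniq n9 _ _ _ (TH.symm _ _ h1) (TH.symm _ _ h2))
  have a1 : w' ∈ G.nb v := G.sym _ _ (Tw_nb5 h2 (G.sym _ _ ha) n2)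
  have a2 : w ∈ G.nb v' := G.sym _ _ (Tw_nb5 h1 ha n3.symm)
  have T6 : (G.N F).card = 6 := hF.big.1.2.1
  have hnF : ∀ {x : V}, x ∈ G.N F → x ∉ F := fun h => (mem_N76.1 h).1
  -- the number of neighbours in `N F`
  have key : ∀ v w v' w' : V, v ∈ F → w ∈ F → v' ∈ F → w' ∈ F →
      (∀ x ∈ F, x = v ∨ x = w ∨ x = v' ∨ x = w') → G.Tw v w → v' ≠ w' → w ≠ v' → w ≠ w' →
      v' ∈ G.nb v → w' ∈ G.nb v → (G.N F ∩ G.nb v).card = 4 := by
    intro v w v' w' hvF hwF hvF' hwF' fm h1 n1 n3 n4 ha a1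
    have e : G.nb v = insert w (insert v' (insert w' (G.N F ∩ G.nb v))) := by
      ext y
      simp only [mem_insert, mem_inter]
      constructor
      · intro hy
        by_cases hyF : y ∈ F
        · rcases fm y hyF with e | e | e | e
          · rw [e] at hy; exact absurd hy (G.irr _)
          · exact Or.inl e
          · exact Or.inr (Or.inl e)
          · exact Or.inr (Or.inr (Or.inl e))
        · exact Or.inr (Or.inr (Or.inr ⟨mem_N76.2 ⟨hyF, v, hvF, hy⟩, hy⟩))
      · rintro (e | e | e | e)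
        · rw [e]; exact h1.1
        · rw [e]; exact ha
        · rw [e]; exact a1
        · exact e.2
    have k1 : w' ∉ G.N F ∩ G.nb v := fun h => hnF (mem_inter.1 h).1 hwF'
    have k2 : v' ∉ insert w' (G.N F ∩ G.nb v) := by
      rw [mem_insert, not_or]
      exact ⟨n1, fun h => hnF (mem_inter.1 h).1 hvF'⟩
    have k3 : w ∉ insert v' (insert w' (G.N F ∩ G.nb v)) := by
      rw [mem_insert, mem_insert, not_or, not_or]
      exact ⟨n3, n4, fun h => hnF (mem_inter.1 h).1 hwF⟩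
    have h7 : (G.nb v).card = 7 := h1.2.1
    rw [e, card_insert_of_notMem k3, card_insert_of_notMem k2, card_insert_of_notMem k1] at h7
    omega
  have q1 := key v w v' w' hvF hwF hvF' hwF' fm h1 (ne_of_nb5 h2.1) n3 n4 ha a1
  have q2 := key v' w' v w hvF' hwF' hvF hwF (fun x hx => by
    rcases fm x hx with e | e | e | e
    · exact Or.inr (Or.inr (Or.inl e))
    · exact Or.inr (Or.inr (Or.inr e))
    · exact Or.inl e
    · exact Or.inr (Or.inl e)) h2 (ne_of_nb5 h1.1) n2.symm n4.symm (G.sym _ _ ha) a2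
  have s1 := card_inter_add_card_sdiff (G.N F) (G.nb v)
  have s2 := card_inter_add_card_sdiff (G.N F) (G.nb v')
  have hdj : ∀ y ∈ G.N F, y ∉ G.nb v → y ∉ G.nb v' → False := by
    intro y hy k1 k2
    have h4 := hBas.pos F hF y hy
    rw [d] at h4
    have h5 : G.nb y ∩ F = ∅ := by
      rw [eq_empty_iff_forall_notMem]
      intro x hx
      obtain ⟨h6, h7⟩ := mem_inter.1 hx
      have h8 := G.sym _ _ h6
      rcases fm x h7 with e | e | e | e <;> rw [e] at h8
      · exact k1 h8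
      · exact k1 (Tw_nb5 (TH.symm _ _ h1) h8 (by
          rintro rfl
          exact hnF hy hvF))
      · exact k2 h8
      · exact k2 (Tw_nb5 (TH.symm _ _ h2) h8 (by
          rintro rfl
          exact hnF hy hvF'))
    rw [h5] at h4
    simp at h4
  have s3 : (G.N F \ G.nb v').card + (G.N F ∩ (G.nb v ∩ G.nb v')).card = 4 := by
    rw [← q1, ← card_union_of_disjoint]
    · congr 1
      ext y
      simp only [mem_union, mem_sdiff, mem_inter]
      constructor
      · rintro (⟨k1, k2⟩ | ⟨k1, k2, k3⟩)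
        · refine ⟨k1, ?_⟩
          by_contra k3
          exact hdj y k1 k3 k2
        · exact ⟨k1, k2⟩
      · rintro ⟨k1, k2⟩
        by_cases k3 : y ∈ G.nb v'
        · exact Or.inr ⟨k1, k2, k3⟩
        · exact Or.inl ⟨k1, k3⟩
    · rw [disjoint_left]
      intro y k1 k2
      simp only [mem_sdiff, mem_inter] at k1 k2
      exact k1.2 k2.2.2
  refine ⟨hF, c4, fm, hvF, hwF, hvF', hwF', h1, h2, ha, ?_, ?_, ?_, by omega, by omega, by omega⟩
  · intro y; rw [mem_sdiff]
  · intro y; rw [mem_sdiff]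
  · intro y; rw [mem_inter, mem_inter]

/-- the other case -/
theorem nadj89 (hB : G.StLB) (hCnt : G.StLCnt) (hF : G.Lf F)
    (c4 : F.card = 4) (hFe : F = {v, w, v', w'})
    (h1 : G.Tw v w) (h2 : G.Tw v' w') (n1 : v ≠ v') (n2 : v ≠ w') (ha : v' ∉ G.nb v) :
    28 ≤ ∑ x ∈ G.N F, G.gam5 F x := by
  classical
  have TH := stTwHL_5 G
  have n9 : 9 ≤ Fintype.card V := by
    have := hF.n12
    omega
  have hvF : v ∈ F := by rw [hFe]; simp
  have hwF : w ∈ F := by rw [hFe]; simp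
  have hvF' : v' ∈ F := by rw [hFe]; simp
  have hwF' : w' ∈ F := by rw [hFe]; simp
  have fm : ∀ x ∈ F, x = v ∨ x = w ∨ x = v' ∨ x = w' := by
    intro x hx
    rw [hFe] at hx
    simpa only [mem_insert, mem_singleton] using hx
  have n3 : w ≠ v' := by
    rintro rfl
    exact n2 (TH.uniq n9 _ _ _ (TH.symm _ _ h1) h2)
  have n4 : w ≠ w' := by
    rintro rfl
    exact n1 (TH.uniq n9 _ _ _ (TH.symm _ _ h1) (TH.symm _ _ h2))
  have nl : ∀ x ∈ F, ¬ G.Low x := by
    intro x hx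
    rcases fm x hx with e | e | e | e <;> rw [e]
    · exact twnl89 ⟨_, h1⟩
    · exact twnl89 ⟨_, TH.symm _ _ h1⟩
    · exact twnl89 ⟨_, h2⟩
    · exact twnl89 ⟨_, TH.symm _ _ h2⟩
  have a1 : w' ∉ G.nb v := fun h =>
    ha (G.sym _ _ (Tw_nb5 (TH.symm _ _ h2) (G.sym _ _ h) n1))
  have a2 : v ∉ G.nb v' := fun h => ha (G.sym _ _ h)
  have a3 : w ∉ G.nb v' := fun h => by
    have := Tw_nb5 (TH.symm _ _ h1) (G.sym _ _ h) n1.symm
    exact ha this
  have T6 : (G.N F).card = 6 := hF.big.1.2.1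
  have hnF : ∀ {x : V}, x ∈ G.N F → x ∉ F := fun h => (mem_N76.1 h).1
  have key : ∀ v w : V, v ∈ F → w ∈ F → (∀ x ∈ F, x ∈ G.nb v → x = w) → G.Tw v w →
      G.N F ⊆ G.nb v := by
    intro v w hvF hwF hx h1
    have e : G.nb v = insert w (G.N F ∩ G.nb v) := by
      ext y
      rw [mem_insert, mem_inter]
      constructor
      · intro hy
        by_cases hyF : y ∈ F
        · exact Or.inl (hx y hyF hy)
        · exact Or.inr ⟨mem_N76.2 ⟨hyF, v, hvF, hy⟩, hy⟩
      · rintro (e | e)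
        · rw [e]; exact h1.1
        · exact e.2
    have h7 : (G.nb v).card = 7 := h1.2.1
    rw [e, card_insert_of_notMem (fun h => hnF (mem_inter.1 h).1 hwF)] at h7
    have h8 : G.N F ∩ G.nb v = G.N F :=
      eq_of_subset_of_card_le inter_subset_left (by omega)
    exact inter_eq_left.1 h8
  have kv := key v w hvF hwF (fun x hx k => by
    rcases fm x hx with e | e | e | e
    · rw [e] at k; exact absurd k (G.irr _)
    · exact e
    · rw [e] at k; exact absurd k ha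
    · rw [e] at k; exact absurd k a1) h1
  have kv' := key v' w' hvF' hwF' (fun x hx k => by
    rcases fm x hx with e | e | e | e
    · rw [e] at k; exact absurd k a2
    · rw [e] at k; exact absurd k a3
    · rw [e] at k; exact absurd k (G.irr _)
    · exact e) h2
  have d4 : ∀ y ∈ G.N F, G.d y F = 4 := by
    intro y hy
    have e : G.nb y ∩ F = F := by
      ext x
      rw [mem_inter]
      refine ⟨fun h => h.2, fun hx => ⟨?_, hx⟩⟩
      have k1 := kv hy
      have k2 := kv' hy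
      rcases fm x hx with e | e | e | e <;> rw [e] <;> apply G.sym
      · exact k1
      · exact Tw_nb5 h1 k1 (by
          rintro rfl
          exact hnF hy hwF)
      · exact k2
      · exact Tw_nb5 h2 k2 (by
          rintro rfl
          exact hnF hy hwF')
    rw [d, e, c4]
  have hcv : ∀ y ∈ G.N F, (∃ x ∈ G.N F, G.Low x ∧ y ∈ G.nb x) ∨
      (∃ x ∈ G.N F, ∃ x' ∈ G.N F, G.Tw x x' ∧ y ∈ G.nb x ∧ y ∈ G.nb x') ∨
      (∃ a ∈ G.N F, ∃ b ∈ G.N F, G.HL a b y) := by
    intro y hy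
    have nyF := hnF hy
    rcases hF.cov v hvF y (mem_union_right _ hy) (kv hy) with k | k | k | k | k
    · obtain ⟨m, k1, k2, k3, k4⟩ := k
      rcases mem_union.1 k1 with k5 | k5
      · exact absurd k2 (nl _ k5)
      · exact Or.inl ⟨m, k5, k2, k4⟩
    · obtain ⟨m, k1, m', k2, k3, k4, k5, k6, k7⟩ := k
      have key2 : ∀ m m', m ∈ F ∪ G.N F → G.Tw m m' → v ∈ G.nb m → v ∈ G.nb m' → m ∈ G.N F := by
        intro m m' h3 h4 h5 h6
        rcases mem_union.1 h3 with h8 | h8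
        · exfalso
          rcases fm m h8 with e | e | e | e
          · rw [e] at h5; exact G.irr _ h5
          · rw [e] at h4
            have := TH.uniq n9 _ _ _ (TH.symm _ _ h1) h4
            rw [← this] at h6
            exact G.irr _ h6
          · rw [e] at h5; exact a2 h5
          · rw [e] at h5; exact a1 (G.sym _ _ h5)
        · exact h8
      exact Or.inr (Or.inl ⟨m, key2 m m' k1 k3 k4 k5, m',
        key2 m' m k2 (TH.symm _ _ k3) k5 k4, k3, k6, k7⟩)
    · obtain ⟨a, b, k1, k2, k3, k4 | k4⟩ := k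
      · exact absurd k1.2.1 (nl _ k4.2)
      · exact Or.inr (Or.inr ⟨a, k4.1, b, k4.2, k1⟩)
    · obtain ⟨a, b, k1, -⟩ := k
      exact absurd (hF.sat _ _ _ k1) (nl _ hvF)
    · obtain ⟨a, b, k1, -⟩ := k
      exact absurd ⟨_, h1⟩ (TH.twLL _ _ _ _ k1).1
  have hcnt := (hCnt hF.sat n9 F (G.N F) (G.N F) (Finset.Subset.refl _) (Finset.Subset.refl _) v
    (fun y hy => by
      rcases hcv y hy with k | k | k
      · exact Or.inl k
      · exact Or.inr (Or.inl k)
      · exact Or.inr (Or.inr (Or.inl k)))).2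
    (fun y _ a _ b hb _ => by
      rw [sdiff_self] at hb
      exact absurd hb (notMem_empty _))
  rw [T6] at hcnt
  have hval : ∀ x ∈ G.N F, 5 * (G.wt3 G.Tw x * ((G.tT G.Tw F x ∩ G.N F).card : ℤ)) ≤
      G.gam5 F x := by
    intro x hx
    by_cases lx : G.Low x
    · obtain ⟨k1, k2, -⟩ := hB.low4 F hF x hx lx (d4 x hx)
      have k3 : (G.tT G.Tw F x ∩ G.N F).card ≤ (G.pT F x).card := by
        refine card_le_card fun y hy => ?_
        have := mem_tT30.1 (mem_inter.1 hy).1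
        exact mem_pTh89.2 ⟨this.1, this.2.1⟩
      have k4 : ((G.tT G.Tw F x ∩ G.N F).card : ℤ) ≤ 1 := by
        have : (G.tT G.Tw F x ∩ G.N F).card ≤ 1 := le_trans k3 k1
        exact_mod_cast this
      rw [wt3_low30 lx]
      linarith
    · by_cases tx : G.IsTw x
      · obtain ⟨x', hxx⟩ := tx
        obtain ⟨-, -, k3, k4, -, k5⟩ := hB.tw F hF x hx ⟨x', hxx⟩
        have k6 := k5 (d4 x hx)
        rw [d4 x hx] at k4
        have hx' : x' ∈ G.N F := by
          refine mem_N76.2 ⟨fun k => ?_, v, hvF, ?_⟩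
          · have hp : G.Tw x' x := TH.symm _ _ hxx
            rcases fm x' k with e | e | e | e <;> rw [e] at hp
            · have := TH.uniq n9 _ _ _ h1 hp
              rw [← this] at hx; exact hnF hx hwF
            · have := TH.uniq n9 _ _ _ (TH.symm _ _ h1) hp
              rw [← this] at hx; exact hnF hx hvF
            · have := TH.uniq n9 _ _ _ h2 hp
              rw [← this] at hx; exact hnF hx hwF'
            · have := TH.uniq n9 _ _ _ (TH.symm _ _ h2) hp
              rw [← this] at hx; exact hnF hx hvF'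
          · refine G.sym _ _ (Tw_nb5 hxx (G.sym _ _ (kv hx)) ?_)
            rintro rfl
            exact ha (by
              have hp : G.Tw v x := TH.symm _ _ hxx
              have := TH.uniq n9 _ _ _ h1 hp
              rw [← this] at hx
              exact absurd hwF (hnF hx))
        have k7 : G.tT G.Tw F x ∩ G.N F = ∅ := by
          rw [eq_empty_iff_forall_notMem]
          intro y hy
          have k8 := mem_tT30.1 (mem_inter.1 hy).1
          have k9 : y ≠ x' := by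
            rintro rfl
            exact k8.2.2 hxx
          have := two_le5 (mem_pTh89.2 ⟨k8.1, k8.2.1⟩) (mem_pTh89.2 ⟨hxx.1, hx'⟩) k9
          omega
        rw [k7, card_empty]
        push_cast
        linarith
      · have k1 := hB.hub F hF x hx ⟨lx, tx⟩
        have k2 : ¬ IsQ G.Tw x := fun k => tx k
        rw [k1, wt3, if_neg lx, if_neg k2]
        simp
  have hs := sum_le_sum hval
  rw [← mul_sum] at hs
  push_cast at hcnt
  linarith

variable (G)

/-- H7 -/
theorem st6QQ_89 (hBas : G.StLBas) (hB : G.StLB) (hCnt : G.StLCnt) : G.St6QQ := by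
  classical
  intro F hF v w v' w' hFe h1 h2 n1 n2
  by_cases ha : v' ∈ G.nb v
  · have hT := mkT89 hBas hF.1 hF.2 hFe h1 h2 n1 n2 ha
    set M := G.N F ∩ (G.nb v ∩ G.nb v') with hM
    by_cases hall : ∀ m ∈ M, G.Low m
    · exact Or.inl (hT.two hBas hB hall)
    by_cases hex : ∃ m ∈ M, G.Low m
    · left
      obtain ⟨m, hm, lm⟩ := hex
      rw [not_forall] at hall
      obtain ⟨n, hn⟩ := hall
      rw [Classical.not_imp] at hn
      exact hT.mix hBas hB hm hn.1 lm hn.2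
    · rcases hT.e0 with h3 | ⟨m, hm, n, hn, hmn⟩
      · exact absurd h3 hex
      · right
        refine ⟨ha, ⟨m, n, hmn, hT.MT hm, hT.MT hn, ?_⟩, hT.pair hBas hB hm hn hmn⟩
        have h4 := hT.dM hm
        intro x hx
        have h5 : G.nb m ∩ F = F := eq_of_subset_of_card_le inter_subset_right (by
          rw [hF.2]
          exact h4.ge)
        rw [← h5] at hx
        exact (mem_inter.1 hx).1
  · exact Or.inl (nadj89 hB hCnt hF.1 hF.2 hFe h1 h2 n1 n2 ha)

end CG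

end Pool.Agent.Lib.MP_e95c01_co.N
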