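import Pool.Agent.Lib.MP_e95c01_co.X.J3b_89

/-!
# J3: two lows, a hub and a pair of twins
-/

namespace Pool.Agent.Lib.MP_e95c01_co.N

open Finset

variable {V : Type} [Fintype V] [DecidableEq V]

namespace CG

variable {G : CG V} {F : Finset V} {l1 l2 h v w : V}

section

variable (J : G.J89 F l1 l2 h v w)

include J

theorem J89.bd {y : V} (hy : y ∈ G.N F) : 2 ≤ G.d y F := J.K.bas.pos F J.K.lf y hy

theorem J89.c00 (h1 : v ∉ G.nb l1) (h2 : v ∉ G.nb l2) : False := by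
  have hm := J.mm.2.2.1
  rw [ad89_zero h1, ad89_zero h2] at hm
  have hs : G.Re89 F ⊆ G.N F \ G.nb v := by
    intro y hy
    rw [mem_sdiff]
    refine ⟨J.ReT hy, fun k => ?_⟩
    rcases J.cB hy k with k | k
    · exact h1 k.2
    · exact h2 k.2
  have h3 := card_le_card hs
  have h4 := J.K.Vs3.2.1
  have h5 := G.ad89_le h v
  omega

theorem J89.lowV {x : V} (hx : x ∈ G.N F) (hl : G.Low x) : x ∈ G.Vs89 F :=
  mem_Vs89.2 ⟨hx, Or.inl hl⟩

theorem J89.subV {x : V} (hR : ∀ y ∈ G.Re89 F, y ∈ G.nb x) : G.N F \ G.nb x ⊆ G.Vs89 F := by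
  intro y hy
  rw [mem_sdiff] at hy
  rcases J.TRV hy.1 with k | k
  · exact absurd (hR y k) hy.2
  · exact k

theorem J89.c10 (h1 : v ∈ G.nb l1) (h2 : v ∉ G.nb l2) : False := by
  have sat := J.K.lf.sat
  have TH := stTwHL_5 G
  obtain ⟨m1, m2, m3, m4⟩ := J.mm
  rw [ad89_one h1] at m1 m3
  rw [ad89_zero h2] at m2 m3
  obtain ⟨c1, c2, c3⟩ := J.K.Vs3
  have hR1 : ∀ y ∈ G.Re89 F, y ∈ G.nb l1 := by
    intro y hy
    by_contra k1
    have k2 : y ∉ G.nb v := by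
      intro k
      rcases J.cB hy k with k | k
      · exact k1 k.1
      · exact h2 k.2
    have k3 := J.dT (J.ReT hy)
    have k4 := J.bd (J.ReT hy)
    rw [ad89_zero k1, ad89_zero k2] at k3
    have a1 := G.ad89_le l2 y
    have a2 := G.ad89_le h y
    have k5 : y ∈ G.nb l2 := ad89_pos (by omega)
    rcases J.swap.cA hy k5 with k | k | k
    · exact k1 k.1
    · exact k2 k.1
    · exact k1 k.2
  have hV1 := J.subV hR1
  have c4 := card_le_card hV1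
  by_cases he : l2 ∈ G.nb l1 <;> by_cases hη : h ∈ G.nb l1
  · rw [ad89_one he, ad89_one hη] at m1
    omega
  · rw [ad89_one he, ad89_zero hη] at m1
    have hV : (G.Vs89 F).card = 3 := by omega
    have hVe : G.N F \ G.nb l1 = G.Vs89 F := eq_of_subset_of_card_le hV1 (by omega)
    have hVl : ∀ x ∈ G.Vs89 F, x ∉ G.nb l1 := by
      intro x hx
      rw [← hVe, mem_sdiff] at hx
      exact hx.2
    have hd2 := (J.K.eq3 hV).1
    refine J.fin hV fun d hd hl => ?_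
    have n1 := hVl d (J.lowV hd hl)
    have k1 := J.dT hd
    rw [hd2 d hd hl, ad89_zero n1] at k1
    by_cases hdv : d ∈ G.nb v
    · rw [ad89_one hdv] at k1
      have n2 : d ∉ G.nb l2 := ad89_neg (by omega)
      have n3 : d ∉ G.nb h := ad89_neg (by omega)
      rcases J.cov J.Fv (mem_union_right _ hd) hdv with
        k | k | k | k | k | k | k | k | k | k | k | k | k
      · exact n1 k.2
      · exact n2 k.2
      · obtain ⟨x, k2, k3, k4, k5⟩ := k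
        exact (J.K.noCN hd hl k2 (G.sym _ _ k5)).1 k3
      · exact G.irr _ k.1
      · obtain ⟨p, k2, p', k3, k4, k5, k6, k7, k8⟩ := k
        exact (J.K.noCN hd hl k2 (G.sym _ _ k7)).2 ⟨_, k4⟩
      · exact n3 (HL_t76 k.1)
      · exact n3 (HL_t76 k.1)
      · obtain ⟨a, k2, b, k3, k4, k5, k6⟩ := k
        have hb := k4.2.1
        have n4 := hVl b (J.lowV k3 hb)
        have k7 := J.dT k3
        rw [hd2 b k3 hb, ad89_zero n4, ad89_one (G.sym _ _ k5)] at k7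
        have n5 : b ∉ G.nb l2 := ad89_neg (by omega)
        have n6 : b ∉ G.nb h := ad89_neg (by omega)
        exact J.twovw hd k3 (HL_bt76 k4).2 n1 n2 n3 n4 n5 n6
      · exact J.nlv.1 (sat _ _ _ k.1)
      · exact J.nlv.1 (sat _ _ _ k.1)
      · obtain ⟨a, k2, b, k3, k4, k5, k6⟩ := k
        exact J.nlv.1 (sat _ _ _ k4)
      · exact (TH.twLL _ _ _ _ k).1 ⟨_, J.tw⟩
      · exact (TH.twLL _ _ _ _ k).1 ⟨_, J.tw⟩
    · rw [ad89_zero hdv] at k1
      have a1 := G.ad89_le l2 d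
      have a2 := G.ad89_le h d
      have n2 : d ∈ G.nb l2 := ad89_pos (by omega)
      rcases J.cov J.F2 (mem_union_right _ hd) n2 with
        k | k | k | k | k | k | k | k | k | k | k | k | k
      · exact n1 k.2
      · exact G.irr _ k.1
      · obtain ⟨x, k2, k3, k4, k5⟩ := k
        exact (J.K.noCN hd hl k2 (G.sym _ _ k5)).1 k3
      · exact h2 (G.sym _ _ k.1)
      · obtain ⟨p, k2, p', k3, k4, k5, k6, k7, k8⟩ := k
        exact (J.K.noCN hd hl k2 (G.sym _ _ k7)).2 ⟨_, k4⟩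
      · exact hη (G.sym _ _ (HL_b76 k.1))
      · exact G.irr _ k.2
      · obtain ⟨a, k2, b, k3, k4, k5, k6⟩ := k
        have hb := k4.2.1
        have n4 := hVl b (J.lowV k3 hb)
        have k7 := J.dT k3
        rw [hd2 b k3 hb, ad89_zero n4, ad89_one (G.sym _ _ k5)] at k7
        have n5 : b ∉ G.nb v := ad89_neg (by omega)
        exact J.swap.two1h hd k3 (HL_bt76 k4).2 n1 hdv n4 n5
      · exact n1 k.2
      · exact (HL_bt76 k.1).2 rfl
      · obtain ⟨a, k2, b, k3, k4, k5, k6⟩ := k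
        exact (J.K.noCN hd hl k3 (G.sym _ _ k5)).1 k4.2.1
      · exact (LL_tb76 k).2 rfl
      · exact G.irr _ (LL_t76 k)
  · rw [ad89_zero he, ad89_one hη] at m1
    rw [ad89_zero he] at m2
    have hV : (G.Vs89 F).card = 3 := by omega
    have hVe : G.N F \ G.nb l1 = G.Vs89 F := eq_of_subset_of_card_le hV1 (by omega)
    have a1 := G.ad89_le l2 h
    obtain ⟨y, hy, hy2⟩ : ∃ y ∈ G.Re89 F, y ∈ G.nb l2 := by
      by_contra hno
      push Not at hno
      have k1 : G.Re89 F ⊆ G.N F \ G.nb l2 := fun y hy => mem_sdiff.2 ⟨J.ReT hy, hno y hy⟩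
      have k2 := card_le_card k1
      omega
    have hHL : G.HL h l1 l2 := by
      rcases J.swap.cA hy hy2 with k | k | k
      · exact absurd k.2 he
      · exact absurd (G.sym _ _ k.2) h2
      · exact k.1
    have hθ : v ∈ G.nb h := HL_sub76 hHL h1 J.nes.2.2.2.2.2.2.1.symm
    rw [ad89_one hθ] at m3
    have hRv : ∀ y ∈ G.Re89 F, y ∈ G.nb v := by
      intro y hy
      rcases J.cA hy (hR1 y hy) with k | k | k
      · exact absurd (G.sym _ _ k.2) he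
      · exact k.1
      · exact absurd rfl (TH.nomut J.K.n9 _ _ _ _ _ hHL k.1)
    have hVv := J.subV hRv
    obtain ⟨x, y, k1, k2, k3⟩ := one_lt_card_iff.1 (show 1 < (G.N F \ G.nb v).card by omega)
    have k4 := hVv k1
    have k5 := hVv k2
    rw [← hVe] at k4 k5
    rw [mem_sdiff] at k1 k2 k4 k5
    exact J.swap.two1h k1.1 k2.1 k3 k4.2 k1.2 k5.2 k2.2
  · rw [ad89_zero he] at m2
    have a1 := G.ad89_le l2 h
    have hs : G.Re89 F ⊆ G.N F \ G.nb l2 := by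
      intro y hy
      rw [mem_sdiff]
      refine ⟨J.ReT hy, fun k => ?_⟩
      rcases J.swap.cA hy k with k | k | k
      · exact he k.2
      · exact h2 (G.sym _ _ k.2)
      · exact hη (G.sym _ _ (HL_b76 k.1))
    have k1 := card_le_card hs
    omega

/-- the number of vertices `l1, l2, v` that are missed -/
theorem J89.miss_sum (x : V) : (G.N F \ G.nb x).card = ∑ y ∈ G.N F, (1 - G.ad89 x y) := by
  have h1 : G.N F \ G.nb x = (G.N F).filter fun y => y ∉ G.nb x := by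
    ext y
    rw [mem_sdiff, mem_filter]
  rw [h1, card_filter]
  refine sum_congr rfl fun y _ => ?_
  rw [ad89]
  by_cases h2 : y ∈ G.nb x
  · rw [if_pos h2, if_neg (not_not.2 h2)]
  · rw [if_neg h2, if_pos h2]

theorem J89.eq11 (h1 : v ∈ G.nb l1) (h2 : v ∈ G.nb l2) (he : l2 ∈ G.nb l1) :
    (G.Vs89 F).card = 3 ∧ G.ad89 l1 h + G.ad89 l2 h + G.ad89 h v = 1 ∧
    (∀ y ∈ G.Re89 F, (1 - G.ad89 l1 y) + (1 - G.ad89 l2 y) + (1 - G.ad89 v y) = 1) ∧
    (∀ y ∈ G.Vs89 F, (1 - G.ad89 l1 y) + (1 - G.ad89 l2 y) + (1 - G.ad89 v y) = 2) := by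
  obtain ⟨m1, m2, m3, m4⟩ := J.mm
  rw [ad89_one h1] at m1 m3
  rw [ad89_one h2] at m2 m3
  rw [ad89_one he] at m1 m2
  obtain ⟨c1, c2, c3⟩ := J.K.Vs3
  set c : V → ℕ := fun y => (1 - G.ad89 l1 y) + (1 - G.ad89 l2 y) + (1 - G.ad89 v y) with hc
  have hs : ∑ y ∈ G.N F, c y = 8 + (G.ad89 l1 h + G.ad89 l2 h + G.ad89 h v) := by
    rw [hc]
    simp only
    rw [sum_add_distrib, sum_add_distrib, ← J.miss_sum l1, ← J.miss_sum l2, ← J.miss_sum v]
    omega
  have hsub : G.Vs89 F ⊆ G.N F := fun x hx => (mem_Vs89.1 hx).1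
  have hsp : ∑ y ∈ G.N F, c y = ∑ y ∈ G.Re89 F, c y + ∑ y ∈ G.Vs89 F, c y :=
    (sum_sdiff hsub).symm
  have hR : ∀ y ∈ G.Re89 F, c y ≤ 1 := by
    intro y hy
    have a1 := G.ad89_le l1 y
    have a2 := G.ad89_le l2 y
    have a3 := G.ad89_le h y
    have a4 := G.ad89_le v y
    have k1 := J.dT (J.ReT hy)
    have k2 := J.bd (J.ReT hy)
    have k3 : 1 ≤ G.ad89 v y → 1 ≤ G.ad89 l1 y ∨ 1 ≤ G.ad89 l2 y := by
      intro k
      rcases J.cB hy (ad89_pos k) with k | k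
      · exact Or.inl (by rw [ad89_one k.1])
      · exact Or.inr (by rw [ad89_one k.1])
    have k4 : 1 ≤ G.ad89 l1 y → 1 ≤ G.ad89 l2 y ∨ 1 ≤ G.ad89 v y := by
      intro k
      rcases J.cA hy (ad89_pos k) with k | k | k
      · exact Or.inl (by rw [ad89_one k.1])
      · exact Or.inr (by rw [ad89_one k.1])
      · exact Or.inl (by rw [ad89_one k.2])
    have k5 : 1 ≤ G.ad89 l2 y → 1 ≤ G.ad89 l1 y ∨ 1 ≤ G.ad89 v y := by
      intro k
      rcases J.swap.cA hy (ad89_pos k) with k | k | k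
      · exact Or.inl (by rw [ad89_one k.1])
      · exact Or.inr (by rw [ad89_one k.1])
      · exact Or.inl (by rw [ad89_one k.2])
    rw [hc]
    simp only
    omega
  have hV : ∀ y ∈ G.Vs89 F, c y ≤ 2 := by
    intro y hy
    have a3 := G.ad89_le h y
    have k1 := J.dT (hsub hy)
    have k2 := J.bd (hsub hy)
    rw [hc]
    simp only
    omega
  have sR : ∑ y ∈ G.Re89 F, c y ≤ ∑ _y ∈ G.Re89 F, 1 := sum_le_sum hR
  have sV : ∑ y ∈ G.Vs89 F, c y ≤ ∑ _y ∈ G.Vs89 F, 2 := sum_le_sum hV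
  have eR : ∑ _y ∈ G.Re89 F, 1 = (G.Re89 F).card := by simp
  have eV : ∑ _y ∈ G.Vs89 F, 2 = 2 * (G.Vs89 F).card := by
    rw [sum_const, smul_eq_mul, mul_comm]
  refine ⟨by omega, by omega, ?_, ?_⟩
  · exact (sum_eq_sum_iff_of_le hR).1 (by omega)
  · exact (sum_eq_sum_iff_of_le hV).1 (by omega)

theorem J89.c11a (h1 : v ∈ G.nb l1) (h2 : v ∈ G.nb l2) (he : l2 ∈ G.nb l1)
    (hη : h ∈ G.nb l1) (hη2 : h ∉ G.nb l2) (hθ : v ∉ G.nb h) : False := by
  obtain ⟨m1, m2, m3, m4⟩ := J.mm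
  rw [ad89_one h1, ad89_one he, ad89_one hη] at m1
  rw [ad89_one h2, ad89_one he, ad89_zero hη2] at m2
  rw [ad89_one hη, ad89_zero hη2, ad89_zero hθ] at m4
  obtain ⟨c1, c2, c3⟩ := J.K.Vs3
  obtain ⟨hV, -, -, qV⟩ := J.eq11 h1 h2 he
  have hh : ∀ y ∈ G.N F, y ∈ G.nb h := by
    intro y hy
    by_contra k
    have k1 : (G.N F \ G.nb h).card = 0 := by omega
    rw [card_eq_zero] at k1
    have k2 : y ∈ G.N F \ G.nb h := mem_sdiff.2 ⟨hy, k⟩
    rw [k1] at k2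
    exact absurd k2 (notMem_empty _)
  have hR : ∀ y ∈ G.Re89 F, y ∉ G.nb l1 → G.LL l1 l2 h y := by
    intro y hy hy1
    rcases J.cC hy (hh y (J.ReT hy)) with k | k | k | k | k
    · exact absurd k.1 hy1
    · exact absurd k.2 hη2
    · exact absurd (G.sym _ _ k.2) hθ
    · exact k
    · exact absurd (LL_t76 k) hη2
  have hR1 : (G.Re89 F \ G.nb l1).card ≤ 1 := by
    rw [card_le_one]
    intro y hy y' hy'
    rw [mem_sdiff] at hy hy'
    have k1 := hR y hy.1 hy.2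
    have k2 := hR y' hy'.1 hy'.2
    by_contra hne
    rcases LL_from76 k2 (LL_u76 k1) hne with k | k
    · exact (LL_ua76 k1).2 k
    · exact (LL_ua76 k1).1 k
  have hsp : G.N F \ G.nb l1 ⊆ (G.Vs89 F \ G.nb l1) ∪ (G.Re89 F \ G.nb l1) := by
    intro y hy
    rw [mem_sdiff] at hy
    rw [mem_union, mem_sdiff, mem_sdiff]
    rcases J.TRV hy.1 with k | k
    · exact Or.inr ⟨k, hy.2⟩
    · exact Or.inl ⟨k, hy.2⟩
  have k1 := card_le_card hsp
  have k2 := card_union_le (G.Vs89 F \ G.nb l1) (G.Re89 F \ G.nb l1)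
  have k3 := card_le_card (sdiff_subset (s := G.Vs89 F) (t := G.nb l1))
  have hVe : G.Vs89 F \ G.nb l1 = G.Vs89 F := eq_of_subset_of_card_le sdiff_subset (by omega)
  have hVl : ∀ x ∈ G.Vs89 F, x ∉ G.nb l1 := by
    intro x hx
    rw [← hVe, mem_sdiff] at hx
    exact hx.2
  obtain ⟨y0, hy0⟩ : (G.Re89 F \ G.nb l1).Nonempty := by
    rw [← card_pos]
    omega
  rw [mem_sdiff] at hy0
  have hL := hR y0 hy0.1 hy0.2
  have hR2 : ∀ y ∈ G.Re89 F, y ∈ G.nb l2 := by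
    intro y hy
    by_cases k4 : y ∈ G.nb l1
    · rcases LL_to76 hL k4 (J.K.notF (J.ReT hy) J.Fh) with k | k
      · exact absurd k (J.K.notF (J.ReT hy) J.F2)
      · exact k
    · exact LL_u76 (hR y hy k4)
  have hVe2 : G.N F \ G.nb l2 = G.Vs89 F := eq_of_subset_of_card_le (J.subV hR2) (by omega)
  refine J.fin hV fun x hx hl => ?_
  have hxV := J.lowV hx hl
  have n1 := hVl x hxV
  have n2 : x ∉ G.nb l2 := by
    have k := hxV
    rw [← hVe2, mem_sdiff] at k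
    exact k.2
  have k4 := qV x hxV
  rw [ad89_zero n1, ad89_zero n2] at k4
  have k5 := J.dT hx
  rw [(J.K.eq3 hV).1 x hx hl, ad89_zero n1, ad89_zero n2, ad89_one (hh x hx)] at k5
  omega

/-- a twin class neighbour -/
theorem J89.tw1 (h1 : v ∈ G.nb l1) (h2 : v ∈ G.nb l2) (he : l2 ∈ G.nb l1)
    (hη : h ∉ G.nb l1) (hη2 : h ∉ G.nb l2) {x : V} (hx : x ∈ G.Vs89 F)
    (x1 : x ∈ G.nb l1) (x2 : x ∉ G.nb l2) (x3 : x ∉ G.nb v) :
    ∃ p ∈ G.N F, G.IsTw p ∧ x ∈ G.nb p ∧ ¬ G.Tw p x := by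
  obtain ⟨hV, -, -, qV⟩ := J.eq11 h1 h2 he
  have hxT := (mem_Vs89.1 hx).1
  have hlow : ∀ y ∈ G.N F, G.Low y → y ∈ G.nb l1 → y ≠ x → False := by
    intro y hy hl k1 hne
    have k2 := J.dT hy
    rw [(J.K.eq3 hV).1 y hy hl, ad89_one k1] at k2
    have k3 : y ∉ G.nb v := ad89_neg (by omega)
    have k4 := qV y (J.lowV hy hl)
    rw [ad89_one k1, ad89_zero k3] at k4
    have k5 : y ∉ G.nb l2 := ad89_neg (by omega)
    exact J.two1h hy hxT hne k5 k3 x2 x3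
  rcases J.cov J.F1 (mem_union_right _ hxT) x1 with
    k | k | k | k | k | k | k | k | k | k | k | k | k
  · exact absurd k.1 (G.irr _)
  · exact absurd k.2 x2
  · obtain ⟨y, k2, k3, k4, k5⟩ := k
    exact absurd (hlow y k2 k3 (G.sym _ _ k4) (ne_of_nb5 k5)) id
  · exact absurd k.2.1 x3
  · obtain ⟨p, k2, p', k3, k4, k5, k6, k7, k8⟩ := k
    exact ⟨p, k2, ⟨_, k4⟩, k7, J.pair k4 k8⟩
  · exact absurd k.2 (G.irr _)
  · exact absurd (G.sym _ _ (HL_b76 k.1)) hη2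
  · obtain ⟨a, k2, b, k3, k4, k5, k6⟩ := k
    exact absurd (hlow b k3 k4.2.1 (G.sym _ _ k5) (HL_bt76 k4).2.symm) id
  · exact absurd rfl (HL_bt76 k.1).2
  · exact absurd (G.sym _ _ (HL_t76 k.1)) hη
  · exfalso
    obtain ⟨a, k2, b, k3, k4, k5, k6⟩ := k
    have k7 : a ∈ G.nb l1 := G.sym _ _ (HL_t76 k4)
    have k8 : a ∈ G.Vs89 F :=
      mem_Vs89.2 ⟨k2, Or.inr ⟨b, k3, G.sym _ _ (HL_b76 k4), Or.inl k4.2.1⟩⟩
    have k9 := qV a k8
    rw [ad89_one k7] at k9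
    have n1 : a ∉ G.nb v := ad89_neg (by omega)
    have n2 : a ∉ G.nb l2 := ad89_neg (by omega)
    exact J.two1h k2 hxT (ne_of_nb5 k6) n2 n1 x2 x3
  · exact absurd (LL_t76 k) (G.irr _)
  · exact absurd rfl (LL_tb76 k).2

theorem J89.c11b (h1 : v ∈ G.nb l1) (h2 : v ∈ G.nb l2) (he : l2 ∈ G.nb l1)
    (hη : h ∉ G.nb l1) (hη2 : h ∉ G.nb l2) (hθ : v ∈ G.nb h) : False := by
  obtain ⟨m1, m2, m3, m4⟩ := J.mm
  rw [ad89_one h1, ad89_one h2, ad89_one hθ] at m3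
  rw [ad89_zero hη, ad89_zero hη2, ad89_one hθ] at m4
  obtain ⟨c1, c2, c3⟩ := J.K.Vs3
  obtain ⟨hV, -, -, qV⟩ := J.eq11 h1 h2 he
  have hR1 : G.Re89 F \ G.nb v ⊆ G.N F \ G.nb h := by
    intro y hy
    rw [mem_sdiff] at hy ⊢
    refine ⟨J.ReT hy.1, fun hyh => ?_⟩
    rcases J.cC hy.1 hyh with k | k | k | k | k
    · exact hη k.2
    · exact hη2 k.2
    · exact hy.2 k.1
    · exact hη (LL_t76 k)
    · exact hη2 (LL_t76 k)
  have hsp : G.N F \ G.nb v ⊆ (G.Vs89 F \ G.nb v) ∪ (G.Re89 F \ G.nb v) := by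
    intro y hy
    rw [mem_sdiff] at hy
    rw [mem_union, mem_sdiff, mem_sdiff]
    rcases J.TRV hy.1 with k | k
    · exact Or.inr ⟨k, hy.2⟩
    · exact Or.inl ⟨k, hy.2⟩
  have k0 := card_le_card hR1
  have k1 := card_le_card hsp
  have k2 := card_union_le (G.Vs89 F \ G.nb v) (G.Re89 F \ G.nb v)
  obtain ⟨x1, x2, b1, b2, b3⟩ :=
    one_lt_card_iff.1 (show 1 < (G.Vs89 F \ G.nb v).card by omega)
  rw [mem_sdiff] at b1 b2
  have T1 := (mem_Vs89.1 b1.1).1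
  have T2 := (mem_Vs89.1 b2.1).1
  have q1 := qV x1 b1.1
  have q2 := qV x2 b2.1
  rw [ad89_zero b1.2] at q1
  rw [ad89_zero b2.2] at q2
  have fin : ∀ x1 ∈ G.N F, ∀ x2 ∈ G.N F, x1 ≠ x2 → (∃ p ∈ G.N F, G.IsTw p ∧ x1 ∈ G.nb p ∧
      ¬ G.Tw p x1) → (∃ p ∈ G.N F, G.IsTw p ∧ x2 ∈ G.nb p ∧ ¬ G.Tw p x2) → False := by
    rintro x1 hx1 x2 hx2 hne ⟨p1, k4, k5, k6, k7⟩ ⟨p2, k8, k9, k10, k11⟩
    exact J.K.N0 (by omega) hx1 hx2 hne k4 k8 k5 k9 k6 k10 k7 k11
  have he' := G.sym _ _ he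
  by_cases e1 : x1 ∈ G.nb l1
  · rw [ad89_one e1] at q1
    have e2 : x1 ∉ G.nb l2 := ad89_neg (by omega)
    by_cases e3 : x2 ∈ G.nb l1
    · rw [ad89_one e3] at q2
      have e4 : x2 ∉ G.nb l2 := ad89_neg (by omega)
      exact J.two1h T1 T2 b3 e2 b1.2 e4 b2.2
    · rw [ad89_zero e3] at q2
      have a1 := G.ad89_le l2 x2
      have e4 : x2 ∈ G.nb l2 := ad89_pos (by omega)
      exact fin x1 T1 x2 T2 b3 (J.tw1 h1 h2 he hη hη2 b1.1 e1 e2 b1.2)
        (J.swap.tw1 h2 h1 he' hη2 hη b2.1 e4 e3 b2.2)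
  · rw [ad89_zero e1] at q1
    have a1 := G.ad89_le l2 x1
    have e2 : x1 ∈ G.nb l2 := ad89_pos (by omega)
    by_cases e3 : x2 ∈ G.nb l2
    · rw [ad89_one e3] at q2
      have e4 : x2 ∉ G.nb l1 := ad89_neg (by omega)
      exact J.swap.two1h T1 T2 b3 e1 b1.2 e4 b2.2
    · rw [ad89_zero e3] at q2
      have a2 := G.ad89_le l1 x2
      have e4 : x2 ∈ G.nb l1 := ad89_pos (by omega)
      exact fin x1 T1 x2 T2 b3 (J.swap.tw1 h2 h1 he' hη2 hη b1.1 e2 e1 b1.2)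
        (J.tw1 h1 h2 he hη hη2 b2.1 e4 e3 b2.2)

/-- the edge `l1 v` -/
theorem J89.ed (h1 : v ∈ G.nb l1) (he : l2 ∉ G.nb l1)
    (H1 : ∀ x ∈ G.N F, G.Low x → x ∈ G.nb v → x ∈ G.nb l1 → False)
    (H2 : ∀ a ∈ G.Vs89 F, ∀ b ∈ G.Vs89 F, a ≠ b → a ∈ G.nb v → b ∈ G.nb v → False) :
    (∃ p ∈ G.N F, ∃ p' ∈ G.N F, G.Tw p p' ∧ p ∈ G.nb l1 ∧ p' ∈ G.nb l1 ∧ p ∈ G.nb v ∧
      p' ∈ G.nb v) ∨ G.HL h l2 l1 := by
  have sat := J.K.lf.sat
  rcases J.cov J.F1 (mem_union_left _ J.Fv) h1 with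
    k | k | k | k | k | k | k | k | k | k | k | k | k
  · exact absurd k.1 (G.irr _)
  · exact absurd (G.sym _ _ k.1) he
  · obtain ⟨y, k2, k3, k4, k5⟩ := k
    exact absurd (H1 y k2 k3 (G.sym _ _ k5) (G.sym _ _ k4)) id
  · exact absurd k.2.1 (G.irr _)
  · obtain ⟨p, k2, p', k3, k4, k5, k6, k7, k8⟩ := k
    exact Or.inl ⟨p, k2, p', k3, k4, G.sym _ _ k5, G.sym _ _ k6, G.sym _ _ k7, G.sym _ _ k8⟩
  · exact absurd (sat _ _ _ k.1) J.nlv.1
  · exact absurd (sat _ _ _ k.1) J.nlv.1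
  · obtain ⟨a, k2, b, k3, k4, k5, k6⟩ := k
    exact absurd (sat _ _ _ k4) J.nlv.1
  · exact absurd rfl (HL_bt76 k.1).2
  · exact Or.inr k.1
  · exfalso
    obtain ⟨a, k2, b, k3, k4, k5, k6⟩ := k
    refine H2 a ?_ b ?_ (ne_of_nb5 (HL_b76 k4)) (G.sym _ _ k6) (G.sym _ _ k5)
    · exact mem_Vs89.2 ⟨k2, Or.inr ⟨b, k3, G.sym _ _ (HL_b76 k4), Or.inl k4.2.1⟩⟩
    · exact J.lowV k3 k4.2.1
  · exact absurd (LL_t76 k) (G.irr _)
  · exact absurd rfl (LL_tb76 k).2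

/-- four vertices -/
theorem J89.P4 {p p' r r' : V} (hp : p ∈ G.N F) (hp' : p' ∈ G.N F) (t1 : G.Tw p p')
    (t2 : G.Tw r r') (h1 : p ∉ G.nb l2) (h2 : r ∈ G.nb l2) (h3 : r' ∈ G.nb l2)
    {S : Finset V} (s1 : p ∈ S) (s2 : p' ∈ S) (s3 : r ∈ S) (s4 : r' ∈ S) : 4 ≤ S.card := by
  have TH := stTwHL_5 G
  have h4 : p' ∉ G.nb l2 := fun k => h1 (G.sym _ _
    (Tw_nb5 (TH.symm _ _ t1) (G.sym _ _ k) (J.K.notF hp J.F2).symm))
  refine four_le5 s1 s2 s3 s4 (ne_of_nb5 t1.1) ?_ ?_ ?_ ?_ (ne_of_nb5 t2.1)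
  · rintro rfl; exact h1 h2
  · rintro rfl; exact h1 h3
  · rintro rfl; exact h4 h2
  · rintro rfl; exact h4 h3

theorem J89.c11n (h1 : v ∈ G.nb l1) (h2 : v ∈ G.nb l2) (he : l2 ∉ G.nb l1) : False := by
  have TH := stTwHL_5 G
  have n9 := J.K.n9
  have he' : l1 ∉ G.nb l2 := fun k => he (G.sym _ _ k)
  obtain ⟨m1, m2, m3, m4⟩ := J.mm
  rw [ad89_one h1, ad89_one h2] at m3
  obtain ⟨c1, c2, c3⟩ := J.K.Vs3
  have hRv : ∀ y ∈ G.Re89 F, y ∈ G.nb v := by
    intro y hy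
    by_contra k1
    have k2 := J.dT (J.ReT hy)
    have k3 := J.bd (J.ReT hy)
    rw [ad89_zero k1] at k2
    have a1 := G.ad89_le l1 y
    have a2 := G.ad89_le l2 y
    have a3 := G.ad89_le h y
    have e1 : y ∈ G.nb l1 → G.HL h l2 l1 ∧ y ∈ G.nb l2 := by
      intro k
      rcases J.cA hy k with k | k | k
      · exact absurd k.2 he'
      · exact absurd k.1 k1
      · exact k
    have e2 : y ∈ G.nb l2 → G.HL h l1 l2 ∧ y ∈ G.nb l1 := by
      intro k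
      rcases J.swap.cA hy k with k | k | k
      · exact absurd k.2 he
      · exact absurd k.1 k1
      · exact k
    by_cases k4 : y ∈ G.nb l1
    · obtain ⟨k5, k6⟩ := e1 k4
      exact TH.nomut n9 _ _ _ _ _ k5 (e2 k6).1 rfl
    · rw [ad89_zero k4] at k2
      exact k4 (e2 (ad89_pos (by omega))).2
  have hVv := J.subV hRv
  have c4 := card_le_card hVv
  have a5 := G.ad89_le h v
  have sV : G.Vs89 F ⊆ G.N F := fun x hx => (mem_Vs89.1 hx).1
  by_cases hθ : v ∈ G.nb h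
  · rw [ad89_one hθ] at m3
    have hV : (G.Vs89 F).card = 3 := by omega
    have hVe : G.N F \ G.nb v = G.Vs89 F := eq_of_subset_of_card_le hVv (by omega)
    have nv : ∀ x ∈ G.Vs89 F, x ∉ G.nb v := by
      intro x hx
      rw [← hVe, mem_sdiff] at hx
      exact hx.2
    have hd3 := (J.K.eq3 hV).2
    have E1 := J.ed h1 he (fun x hx hl k _ => nv x (J.lowV hx hl) k)
      (fun a ha _ _ _ k _ => nv a ha k)
    have E2 := J.swap.ed h2 he' (fun x hx hl k _ => nv x (J.lowV hx hl) k)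
      (fun a ha _ _ _ k _ => nv a ha k)
    rcases E1 with ⟨p, k1, p', k2, k3, k4, k5, k6, k7⟩ | E1 <;>
      rcases E2 with ⟨r, b1, r', b2, b3, b4, b5, b6, b7⟩ | E2
    · have k8 := J.dT k1
      rw [hd3 p k1 ⟨_, k3⟩, ad89_one k4, ad89_one k6] at k8
      have k9 : p ∉ G.nb l2 := ad89_neg (by omega)
      have := J.P4 k1 k2 k3 b3 k9 b4 b5 (J.K.twR k1 ⟨_, k3⟩)
        (J.K.twR k2 ⟨_, TH.symm _ _ k3⟩) (J.K.twR b1 ⟨_, b3⟩) (J.K.twR b2 ⟨_, TH.symm _ _ b3⟩)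
      omega
    · have k8 := J.dT k1
      rw [hd3 p k1 ⟨_, k3⟩, ad89_one k4, ad89_one k6,
        ad89_one (HL_sub76 E2 k4 (J.K.notF k1 J.Fh))] at k8
      omega
    · have k8 := J.dT b1
      rw [hd3 r b1 ⟨_, b3⟩, ad89_one b4, ad89_one b6,
        ad89_one (HL_sub76 E1 b4 (J.K.notF b1 J.Fh))] at k8
      omega
    · exact TH.nomut n9 _ _ _ _ _ E1 E2 rfl
  · rw [ad89_zero hθ] at m3 m4
    have nHL : ¬ G.HL h l2 l1 := fun k => hθ (HL_sub76 k h2 J.nes.2.2.2.2.2.2.1.symm)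
    have nHL' : ¬ G.HL h l1 l2 := fun k => hθ (HL_sub76 k h1 J.nes.2.2.2.2.2.2.1.symm)
    rcases Nat.lt_or_ge (G.Vs89 F).card 3 with hV | hV
    · have hVe : G.N F \ G.nb v = G.Vs89 F := eq_of_subset_of_card_le hVv (by omega)
      have nv : ∀ x ∈ G.Vs89 F, x ∉ G.nb v := by
        intro x hx
        rw [← hVe, mem_sdiff] at hx
        exact hx.2
      have E1 := J.ed h1 he (fun x hx hl k _ => nv x (J.lowV hx hl) k)
        (fun a ha _ _ _ k _ => nv a ha k)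
      have E2 := J.swap.ed h2 he' (fun x hx hl k _ => nv x (J.lowV hx hl) k)
        (fun a ha _ _ _ k _ => nv a ha k)
      obtain ⟨p, k1, p', k2, k3, k4, k5, k6, k7⟩ := E1.resolve_right nHL
      obtain ⟨r, b1, r', b2, b3, b4, b5, b6, b7⟩ := E2.resolve_right nHL'
      -- class neighbours
      have key : ∀ l1 l2, G.J89 F l1 l2 h v w → l2 ∉ G.nb l1 → ¬ G.HL h l2 l1 →
          ∀ x ∈ G.Vs89 F, x ∈ G.nb l1 → G.CN89 F x := by
        intro l1 l2 J he nHL x hx x1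
        have hxT := sV hx
        rcases J.cov J.F1 (mem_union_right _ hxT) x1 with
          k | k | k | k | k | k | k | k | k | k | k | k | k
        · exact absurd k.1 (G.irr _)
        · exact absurd (G.sym _ _ k.1) he
        · obtain ⟨y, k2, k3, k4, k5⟩ := k
          exact ⟨y, k2, k5, Or.inl k3⟩
        · exact absurd k.2.1 (nv x hx)
        · obtain ⟨p, k2, p', k3, k4, k5, k6, k7, k8⟩ := k
          exact ⟨p, k2, k7, Or.inr ⟨⟨_, k4⟩, J.pair k4 k8⟩⟩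
        · exact absurd k.2 (G.irr _)
        · exact absurd (G.sym _ _ k.2) he
        · exfalso
          obtain ⟨a, k2, b, k3, k4, k5, k6⟩ := k
          have k7 : ({x, a, b} : Finset V) ⊆ G.Vs89 F := by
            intro u hu
            simp only [mem_insert, mem_singleton] at hu
            rcases hu with e | e | e <;> rw [e]
            · exact hx
            · exact mem_Vs89.2 ⟨k2, Or.inr ⟨b, k3, G.sym _ _ (HL_b76 k4), Or.inl k4.2.1⟩⟩
            · exact J.lowV k3 k4.2.1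
          have k8 := card_le_card k7
          rw [card_insert_of_notMem (by
            simp [(ne_of_nb5 (HL_t76 k4)).symm, (HL_bt76 k4).2]),
            card_pair (ne_of_nb5 (HL_b76 k4))] at k8
          omega
        · exact absurd rfl (HL_bt76 k.1).2
        · exact absurd k.1 nHL
        · obtain ⟨a, k2, b, k3, k4, k5, k6⟩ := k
          exact ⟨b, k3, k5, Or.inl k4.2.1⟩
        · exact absurd (LL_t76 k) (G.irr _)
        · exact absurd rfl (LL_tb76 k).2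
      have hCN : ∀ x ∈ G.Vs89 F, G.CN89 F x := by
        intro x hx
        have e1 := J.dT (sV hx)
        have e2 := J.bd (sV hx)
        have a3 := G.ad89_le h x
        rw [ad89_zero (nv x hx)] at e1
        by_cases e3 : x ∈ G.nb l1
        · exact key l1 l2 J he nHL x hx e3
        · rw [ad89_zero e3] at e1
          exact key l2 l1 J.swap he' nHL' x hx (ad89_pos (by omega))
      have hnl : ∀ x ∈ G.N F, ¬ G.Low x := by
        intro x hx hl
        obtain ⟨y, e1, e2, e3 | e3⟩ := hCN x (J.lowV hx hl)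
        · exact (J.K.noCN hx hl e1 (G.sym _ _ e2)).1 e3
        · exact (J.K.noCN hx hl e1 (G.sym _ _ e2)).2 e3.1
      have hTw : ∀ x ∈ G.Vs89 F, ∃ p ∈ G.N F, G.IsTw p ∧ x ∈ G.nb p ∧ ¬ G.Tw p x := by
        intro x hx
        obtain ⟨y, e1, e2, e3 | e3⟩ := hCN x hx
        · exact absurd e3 (hnl y e1)
        · exact ⟨y, e1, e3.1, e2, e3.2⟩
      obtain ⟨x1, x2, d1, d2, d3⟩ :=
        one_lt_card_iff.1 (show 1 < (G.Vs89 F).card by omega)
      obtain ⟨p1, f1, f2, f3, f4⟩ := hTw x1 d1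
      obtain ⟨p2, g1, g2, g3, g4⟩ := hTw x2 d2
      obtain ⟨q1, q2, t1, t2, u1, u2, w1, w2, w3, w4, w5, w6⟩ :=
        J.K.N1 (sV d1) (sV d2) d3 f1 g1 f2 g2 f3 g3 f4 g4
      have s1 := TH.symm _ _ t1
      have s2 := TH.symm _ _ t2
      have hRe : ({p1, q1, p2, q2} : Finset V) = G.Re89 F := by
        refine eq_of_subset_of_card_le ?_ ?_
        · intro u hu
          simp only [mem_insert, mem_singleton] at hu
          rcases hu with e | e | e | e <;> rw [e]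
          · exact J.K.twR f1 ⟨_, t1⟩
          · exact J.K.twR u1 ⟨_, s1⟩
          · exact J.K.twR g1 ⟨_, t2⟩
          · exact J.K.twR u2 ⟨_, s2⟩
        · rw [card_insert_of_notMem (by simp [ne_of_nb5 t1.1, w1, w2]),
            card_insert_of_notMem (by simp [w3, w4]), card_pair (ne_of_nb5 t2.1)]
          omega
      have hpT : ∀ y ∈ G.N F, G.IsTw y → G.d y F = 3 := by
        intro y hy ht
        have o1 : 2 ≤ (G.pT F y).card := by
          have o2 := J.K.twR hy ht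
          rw [← hRe] at o2
          simp only [mem_insert, mem_singleton] at o2
          rcases o2 with e | e | e | e <;> rw [e]
          · exact J.K.pT2 t1.1 f3 u1 (sV d1) w5.symm
          · exact J.K.pT2 s1.1 (Tw_nb5 t1 f3 w5) f1 (sV d1) (ne_of_nb5 f3)
          · exact J.K.pT2 t2.1 g3 u2 (sV d2) w6.symm
          · exact J.K.pT2 s2.1 (Tw_nb5 t2 g3 w6) g1 (sV d2) (ne_of_nb5 g3)
        obtain ⟨o3, o4 | o4⟩ := J.K.J0.tw3 F J.K.L5 y hy ht
        · exact o4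
        · have := ((J.K.twin hy ht).2.2.2 o4).1
          omega
      have nh1 : ∀ p ∈ G.N F, G.IsTw p → p ∈ G.nb l1 → p ∈ G.nb v →
          p ∉ G.nb l2 ∧ p ∉ G.nb h := by
        intro p k1 k3 k4 k6
        have k8 := J.dT k1
        rw [hpT p k1 k3, ad89_one k4, ad89_one k6] at k8
        exact ⟨ad89_neg (by omega), ad89_neg (by omega)⟩
      have nh2 : ∀ p ∈ G.N F, G.IsTw p → p ∈ G.nb l2 → p ∈ G.nb v → p ∉ G.nb h := by
        intro p k1 k3 k4 k6
        have k8 := J.dT k1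
        rw [hpT p k1 k3, ad89_one k4, ad89_one k6] at k8
        exact ad89_neg (by omega)
      have k3' := TH.symm _ _ k3
      have b3' := TH.symm _ _ b3
      have := J.P4 k1 k2 k3 b3 (nh1 p k1 ⟨_, k3⟩ k4 k6).1 b4 b5 (S := G.N F \ G.nb h)
        (mem_sdiff.2 ⟨k1, (nh1 p k1 ⟨_, k3⟩ k4 k6).2⟩)
        (mem_sdiff.2 ⟨k2, (nh1 p' k2 ⟨_, k3'⟩ k5 k7).2⟩)
        (mem_sdiff.2 ⟨b1, nh2 r b1 ⟨_, b3⟩ b4 b6⟩)
        (mem_sdiff.2 ⟨b2, nh2 r' b2 ⟨_, b3'⟩ b5 b7⟩)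
      have a6 := G.ad89_le l1 h
      have a7 := G.ad89_le l2 h
      omega
    · have hV : (G.Vs89 F).card = 3 := by omega
      obtain ⟨hd2, hd3⟩ := J.K.eq3 hV
      have H1 : ∀ l1 l2, G.J89 F l1 l2 h v w → ∀ x ∈ G.N F, G.Low x → x ∈ G.nb v →
          x ∈ G.nb l1 → False := by
        intro l1 l2 J x hx hl k1 k2
        have k3 := J.dT hx
        rw [hd2 x hx hl, ad89_one k1, ad89_one k2] at k3
        omega
      have H2 : ∀ a ∈ G.Vs89 F, ∀ b ∈ G.Vs89 F, a ≠ b → a ∈ G.nb v → b ∈ G.nb v → False := by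
        intro a ha b hb hab k1 k2
        have k3 : 2 ≤ (G.Vs89 F \ (G.N F \ G.nb v)).card := by
          refine two_le5 (mem_sdiff.2 ⟨ha, fun k => ?_⟩) (mem_sdiff.2 ⟨hb, fun k => ?_⟩) hab
          · exact (mem_sdiff.1 k).2 k1
          · exact (mem_sdiff.1 k).2 k2
        have k4 := card_sdiff_add_card_eq_card hVv
        omega
      have E1 := J.ed h1 he (H1 l1 l2 J) H2
      have E2 := J.swap.ed h2 he' (H1 l2 l1 J.swap) H2
      obtain ⟨p, k1, p', k2, k3, k4, k5, k6, k7⟩ := E1.resolve_right nHL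
      obtain ⟨r, b1, r', b2, b3, b4, b5, b6, b7⟩ := E2.resolve_right nHL'
      have k8 := J.dT k1
      rw [hd3 p k1 ⟨_, k3⟩, ad89_one k4, ad89_one k6] at k8
      have k9 : p ∉ G.nb l2 := ad89_neg (by omega)
      have := J.P4 k1 k2 k3 b3 k9 b4 b5 (J.K.twR k1 ⟨_, k3⟩)
        (J.K.twR k2 ⟨_, TH.symm _ _ k3⟩) (J.K.twR b1 ⟨_, b3⟩) (J.K.twR b2 ⟨_, TH.symm _ _ b3⟩)
      omega

theorem J89.false : False := by
  by_cases h1 : v ∈ G.nb l1 <;> by_cases h2 : v ∈ G.nb l2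
  · by_cases he : l2 ∈ G.nb l1
    · obtain ⟨-, h3, -, -⟩ := J.eq11 h1 h2 he
      have he' := G.sym _ _ he
      by_cases hη : h ∈ G.nb l1
      · rw [ad89_one hη] at h3
        exact J.c11a h1 h2 he hη (ad89_neg (by omega)) (ad89_neg (by omega))
      · rw [ad89_zero hη] at h3
        by_cases hη2 : h ∈ G.nb l2
        · rw [ad89_one hη2] at h3
          exact J.swap.c11a h2 h1 he' hη2 hη (ad89_neg (by omega))
        · rw [ad89_zero hη2] at h3
          exact J.c11b h1 h2 he hη hη2 (ad89_pos (by omega))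
    · exact J.c11n h1 h2 he
  · exact J.c10 h1 h2
  · exact J.swap.c10 h2 h1
  · exact J.c00 h1 h2

end

/-- J3 -/
theorem st7LLHQ_89 (G : CG V) (hBas : G.StLBas) (hB : G.StLB) (h7 : G.St7Bas) :
    G.St7LLHQ := by
  intro F hF l l' h v w hFe hne hl hl' hh ht
  by_contra hlt
  have J : G.J89 F l l' h v w :=
    { K := ⟨hF.1, hF.2, hBas, hB, h7, by linarith⟩
      fm := by
        intro x hx
        rw [hFe] at hx
        simpa using hx
      F1 := by rw [hFe]; simp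
      F2 := by rw [hFe]; simp
      Fh := by rw [hFe]; simp
      Fv := by rw [hFe]; simp
      Fw := by rw [hFe]; simp
      n12 := hne
      low1 := hl
      low2 := hl'
      hub := hh
      tw := ht }
  exact J.false

end CG

end Pool.Agent.Lib.MP_e95c01_co.N
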