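import Pool.Agent.Lib.MP_e95c01_co.X.StmtsJ76
import Pool.Agent.Lib.MP_e95c01_co.X.H7_89

/-!
# J3: two lows, a hub and a pair of twins: counting
-/

namespace Pool.Agent.Lib.MP_e95c01_co.N

open Finset

variable {V : Type} [Fintype V] [DecidableEq V]

namespace CG

/-- a leaf with five vertices and a small sum -/
structure K89 (G : CG V) (F : Finset V) : Prop where
  lf : G.Lf F
  c5 : F.card = 5
  bas : G.StLBas
  B : G.StLB
  J0 : G.St7Bas
  le7 : ∑ x ∈ G.N F, G.gam5 F x ≤ 7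

/-- class neighbour: low, or a twin vertex other than the partner -/
def CN89 (G : CG V) (F : Finset V) (y : V) : Prop :=
  ∃ x ∈ G.N F, y ∈ G.nb x ∧ (G.Low x ∨ (G.IsTw x ∧ ¬ G.Tw x y))

open Classical in
/-- low vertices and vertices with a class neighbour -/
noncomputable def Vs89 (G : CG V) (F : Finset V) : Finset V :=
  (G.N F).filter fun y => G.Low y ∨ G.CN89 F y

theorem mem_Vs89 {G : CG V} {F : Finset V} {y : V} :
    y ∈ G.Vs89 F ↔ y ∈ G.N F ∧ (G.Low y ∨ G.CN89 F y) := by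
  classical
  rw [Vs89, mem_filter]

/-- the other vertices of `N F` -/
noncomputable def Re89 (G : CG V) (F : Finset V) : Finset V := G.N F \ G.Vs89 F

theorem mem_Re89 {G : CG V} {F : Finset V} {y : V} :
    y ∈ G.Re89 F ↔ y ∈ G.N F ∧ ¬ G.Low y ∧ ¬ G.CN89 F y := by
  rw [Re89, mem_sdiff, mem_Vs89]
  tauto

variable {G : CG V} {F : Finset V}

section

variable (K : G.K89 F)

include K

theorem K89.n9 : 9 ≤ Fintype.card V := by
  have := K.lf.n12
  omega

theorem K89.L5 : G.L5 F := ⟨K.lf, K.c5⟩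

theorem K89.notF {x : V} (hx : x ∈ G.N F) {y : V} (hy : y ∈ F) : x ≠ y := by
  rintro rfl
  exact (mem_N76.1 hx).1 hy

theorem K89.nn {x : V} (hx : x ∈ G.N F) : 0 ≤ G.gam5 F x := K.J0.nn F K.L5 x hx

theorem K89.T6 : (G.N F).card = 6 := K.lf.big.1.2.1

/-- low vertices -/
theorem K89.low {y : V} (hy : y ∈ G.N F) (hl : G.Low y) :
    2 + 2 * ((G.pT F y).card : ℤ) ≤ G.gam5 F y ∧
      (3 ≤ G.d y F → 4 + 2 * ((G.pT F y).card : ℤ) ≤ G.gam5 F y) := by
  have h2 := K.bas.pos F K.lf y hy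
  rcases Nat.lt_or_ge (G.d y F) 3 with h3 | h3
  · have e : G.d y F = 2 := by omega
    obtain ⟨-, h4, -⟩ := K.B.low2 F K.lf y hy hl e
    refine ⟨?_, fun h => by omega⟩
    rcases h4 with h4 | ⟨-, ⟨v, w, h5, h6⟩, -, h7⟩
    · exact h4
    · exfalso
      have h8 : v ∈ G.pT F y := by
        rw [h6]
        exact mem_insert_self _ _
      have h9 := (K.J0.tw3 F K.L5 v (mem_pTh89.1 h8).2 ⟨_, h5⟩).1
      have := (h7 v h8).1
      omega
  · suffices h : 4 + 2 * ((G.pT F y).card : ℤ) ≤ G.gam5 F y from ⟨by linarith, fun _ => h⟩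
    rcases Nat.lt_or_ge (G.d y F) 4 with h4 | h4
    · have e : G.d y F = 3 := by omega
      obtain ⟨-, h5, h6 | ⟨v, q, q', -, h7, -⟩, -⟩ := K.B.low3 F K.lf y hy hl e
      · linarith
      · rw [h7, card_singleton]
        push_cast
        linarith
    · rcases Nat.lt_or_ge (G.d y F) 5 with h5 | h5
      · have e : G.d y F = 4 := by omega
        obtain ⟨h6, h7, -⟩ := K.B.low4 F K.lf y hy hl e
        have h8 : ((G.pT F y).card : ℤ) ≤ 1 := by exact_mod_cast h6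
        linarith
      · obtain ⟨-, h6, h7⟩ := K.B.low5 F K.lf y hy hl h5
        rw [h6, card_empty, h7]
        norm_num

/-- twin vertices -/
theorem K89.twin {y : V} (hy : y ∈ G.N F) (ht : G.IsTw y) :
    (G.pT F y).card ≤ 2 ∧ 1 ≤ (G.pT F y).card ∧ ((G.pT F y).card : ℤ) - 1 ≤ G.gam5 F y ∧
      (G.d y F = 4 → (G.pT F y).card = 1 ∧ 1 ≤ G.gam5 F y) := by
  obtain ⟨h1, h2⟩ := K.J0.tw3 F K.L5 y hy ht
  obtain ⟨-, -, h3, h4, h5, h6⟩ := K.B.tw F K.lf y hy ht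
  refine ⟨by omega, h3, ?_, fun h => ⟨by omega, h6 h⟩⟩
  rcases h2 with h2 | h2
  · have h7 := h5 (by omega)
    rw [h2] at h7
    push_cast at h7
    linarith
  · have h7 := h6 h2
    have h8 : ((G.pT F y).card : ℤ) ≤ 1 := by
      have : (G.pT F y).card ≤ 1 := by omega
      exact_mod_cast this
    linarith

theorem K89.sum2 {x y : V} (hx : x ∈ G.N F) (hy : y ∈ G.N F) (hxy : x ≠ y) :
    G.gam5 F x + G.gam5 F y ≤ 7 :=
  (two_terms30 (fun z hz => K.nn hz) hx hy hxy).trans K.le7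

/-- two vertices in `pT` -/
theorem K89.pT2 {x y z : V} (hy : y ∈ G.nb x) (hz : z ∈ G.nb x) (hy' : y ∈ G.N F)
    (hz' : z ∈ G.N F) (hyz : y ≠ z) : 2 ≤ (G.pT F x).card :=
  two_le5 (mem_pTh89.2 ⟨hy, hy'⟩) (mem_pTh89.2 ⟨hz, hz'⟩) hyz

/-- no low vertex of `N F` has a class neighbour -/
theorem K89.noCN {y z : V} (hy : y ∈ G.N F) (hl : G.Low y) (hz : z ∈ G.N F) (hzy : z ∈ G.nb y) :
    ¬ G.Low z ∧ ¬ G.IsTw z := by
  have hne : y ≠ z := ne_of_nb5 hzy
  have h1 : (1 : ℤ) ≤ ((G.pT F y).card : ℤ) := by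
    have : 0 < (G.pT F y).card := card_pos.2 ⟨z, mem_pTh89.2 ⟨hzy, hz⟩⟩
    exact_mod_cast this
  have h2 := (K.low hy hl).1
  constructor
  · intro hzl
    have h3 : (1 : ℤ) ≤ ((G.pT F z).card : ℤ) := by
      have : 0 < (G.pT F z).card := card_pos.2 ⟨y, mem_pTh89.2 ⟨G.sym _ _ hzy, hy⟩⟩
      exact_mod_cast this
    have h4 := (K.low hz hzl).1
    have h5 := K.sum2 hy hz hne
    linarith
  · rintro ⟨z', hT⟩
    have TH := stTwHL_5 G
    have hz' := (K.bas.twT F K.lf z z' hT).1 hz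
    have n1 : y ≠ z' := by
      rintro rfl
      exact twnl89 ⟨_, TH.symm _ _ hT⟩ hl
    have h3 : z' ∈ G.nb y := G.sym _ _ (Tw_nb5 hT (G.sym _ _ hzy) n1)
    have n2 : z ≠ z' := ne_of_nb5 hT.1
    have h4 : (2 : ℤ) ≤ ((G.pT F y).card : ℤ) := by
      have := K.pT2 hzy h3 hz hz' n2
      exact_mod_cast this
    have h5 : (2 : ℤ) ≤ ((G.pT F z).card : ℤ) := by
      have := K.pT2 (G.sym _ _ hzy) hT.1 hy hz' n1
      exact_mod_cast this
    have h6 : (2 : ℤ) ≤ ((G.pT F z').card : ℤ) := by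
      have := K.pT2 (G.sym _ _ h3) (TH.symm _ _ hT).1 hy hz hne
      exact_mod_cast this
    have h7 := (K.twin hz ⟨_, hT⟩).2.2.1
    have h8 := (K.twin hz' ⟨_, TH.symm _ _ hT⟩).2.2.1
    have h9 : ∑ x ∈ ({y, z, z'} : Finset V), G.gam5 F x ≤ ∑ x ∈ G.N F, G.gam5 F x := by
      refine sum_le_sum_of_subset_of_nonneg ?_ fun x hx _ => K.nn hx
      intro x hx
      simp only [mem_insert, mem_singleton] at hx
      rcases hx with e | e | e <;> rw [e] <;> assumption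
    rw [sum_insert (by simp [hne, n1]), sum_pair n2] at h9
    have := K.le7
    linarith

/-- twin vertices of `N F` have no class neighbour -/
theorem K89.twR {x : V} (hx : x ∈ G.N F) (ht : G.IsTw x) : x ∈ G.Re89 F := by
  have TH := stTwHL_5 G
  rw [mem_Re89]
  refine ⟨hx, twnl89 ht, ?_⟩
  rintro ⟨z, hz, h1, h2 | ⟨⟨z', h2⟩, h3⟩⟩
  · exact (K.noCN hz h2 hx h1).2 ht
  · obtain ⟨x', hx'⟩ := ht
    have hz' := (K.bas.twT F K.lf z z' h2).1 hz
    have hxN := (K.bas.twT F K.lf x x' hx').1 hx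
    have h4 := (K.twin hx ⟨_, hx'⟩).1
    have n1 : x ≠ z' := by
      rintro rfl
      exact h3 h2
    have h5 : x ∈ G.nb z' := Tw_nb5 h2 h1 n1
    have n2 : z ≠ z' := ne_of_nb5 h2.1
    have n3 : x' ≠ z := by
      rintro rfl
      exact h3 (TH.symm _ _ hx')
    have n4 : x' ≠ z' := by
      rintro rfl
      have := TH.uniq K.n9 _ _ _ (TH.symm _ _ hx') (TH.symm _ _ h2)
      rw [this] at h1
      exact G.irr _ h1
    have h6 : ({x', z, z'} : Finset V) ⊆ G.pT F x := by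
      intro u hu
      simp only [mem_insert, mem_singleton] at hu
      rcases hu with e | e | e <;> rw [e] <;> apply mem_pTh89.2
      · exact ⟨hx'.1, hxN⟩
      · exact ⟨G.sym _ _ h1, hz⟩
      · exact ⟨G.sym _ _ h5, hz'⟩
    have h7 := card_le_card h6
    rw [card_insert_of_notMem (by simp [n3, n4]), card_pair n2] at h7
    omega

/-- the counting lemma -/
theorem K89.cnt : ∃ g : V → ℤ, (∀ x ∈ G.N F, 0 ≤ g x) ∧
    (∀ x ∈ G.N F, G.Low x → 3 ≤ G.d x F → 2 ≤ g x) ∧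
    (∀ x ∈ G.N F, G.IsTw x → G.d x F = 4 → 1 ≤ g x) ∧
    2 * ((G.Vs89 F).card : ℤ) + ∑ x ∈ G.N F, g x ≤ 7 := by
  classical
  have TH := stTwHL_5 G
  set q := G.Tw with hq
  have QS := qs16 G
  have tlow : ∀ x ∈ G.N F, G.Low x → G.tT q F x = G.pT F x := by
    intro x hx hl
    ext y
    rw [mem_tT30, mem_pTh89]
    constructor
    · rintro ⟨h1, h2, -⟩
      exact ⟨h1, h2⟩
    · rintro ⟨h1, h2⟩
      exact ⟨h1, h2, fun h => twnl89 ⟨_, h⟩ hl⟩
  have ttw : ∀ x ∈ G.N F, G.IsTw x → ((G.tT q F x).card : ℤ) = ((G.pT F x).card : ℤ) - 1 := by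
    rintro x hx ⟨x', hx'⟩
    have h1 : G.tT q F x = (G.pT F x).erase x' := by
      ext y
      rw [mem_tT30, mem_erase, mem_pTh89]
      constructor
      · rintro ⟨h1, h2, h3⟩
        refine ⟨?_, h1, h2⟩
        rintro rfl
        exact h3 hx'
      · rintro ⟨h1, h2, h3⟩
        exact ⟨h2, h3, fun h => h1 (TH.uniq K.n9 _ _ _ h hx')⟩
    have h2 : x' ∈ G.pT F x := mem_pTh89.2 ⟨hx'.1, (K.bas.twT F K.lf x x' hx').1 hx⟩
    have h3 : 0 < (G.pT F x).card := card_pos.2 ⟨_, h2⟩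
    rw [h1, card_erase_of_mem h2]
    omega
  set a : V → ℤ := fun x => G.wt3 q x * ((G.tT q F x).card : ℤ) with ha
  set b : V → ℤ := fun x => if G.Low x then 2 else 0 with hb
  have hub : ∀ x ∈ G.N F, ¬ G.Low x → ¬ G.IsTw x → a x = 0 ∧ b x = 0 := by
    intro x hx h1 h2
    rw [ha, hb]
    simp only
    rw [wt3, if_neg h1, if_neg h1]
    have h3 : ¬ IsQ q x := h2
    rw [if_neg h3]
    simp
  have alow : ∀ x ∈ G.N F, G.Low x → a x = 2 * ((G.pT F x).card : ℤ) ∧ b x = 2 := by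
    intro x hx h1
    rw [ha, hb]
    simp only
    rw [wt3_low30 h1, tlow x hx h1, if_pos h1]
    exact ⟨rfl, rfl⟩
  have atw : ∀ x ∈ G.N F, G.IsTw x → a x = ((G.pT F x).card : ℤ) - 1 ∧ b x = 0 := by
    intro x hx h1
    have h2 := twnl89 h1
    rw [ha, hb]
    simp only
    rw [wt3_q30 QS h1, ttw x hx h1, if_neg h2]
    exact ⟨by ring, rfl⟩
  refine ⟨fun x => G.gam5 F x - a x - b x, ?_, ?_, ?_, ?_⟩
  · intro x hx
    simp only
    by_cases h1 : G.Low x
    · obtain ⟨e1, e2⟩ := alow x hx h1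
      have := (K.low hx h1).1
      rw [e1, e2]
      linarith
    · by_cases h2 : G.IsTw x
      · obtain ⟨e1, e2⟩ := atw x hx h2
        have := (K.twin hx h2).2.2.1
        rw [e1, e2]
        linarith
      · obtain ⟨e1, e2⟩ := hub x hx h1 h2
        have := K.nn hx
        rw [e1, e2]
        linarith
  · intro x hx h1 h2
    simp only
    obtain ⟨e1, e2⟩ := alow x hx h1
    have := (K.low hx h1).2 h2
    rw [e1, e2]
    linarith
  · intro x hx h1 h2
    simp only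
    obtain ⟨e1, e2⟩ := atw x hx h1
    obtain ⟨e3, e4⟩ := (K.twin hx h1).2.2.2 h2
    rw [e1, e2, e3]
    push_cast
    linarith
  · -- the sum
    set U : Finset V := (G.N F).filter fun y => ¬ G.Low y ∧ G.CN89 F y with hU
    have hVs : (G.Vs89 F).card = ((G.N F).filter fun y => G.Low y).card + U.card := by
      rw [hU, ← card_union_of_disjoint]
      · congr 1
        ext y
        rw [mem_Vs89, mem_union, mem_filter, mem_filter]
        tauto
      · rw [disjoint_left]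
        intro y h1 h2
        exact (mem_filter.1 h2).2.1 (mem_filter.1 h1).2
    have hb' : ∑ x ∈ G.N F, b x = 2 * (((G.N F).filter fun y => G.Low y).card : ℤ) := by
      rw [hb]
      simp only
      rw [← sum_filter, sum_const, nsmul_eq_mul, mul_comm]
    have hUa : 2 * (U.card : ℤ) ≤ ∑ x ∈ G.N F, a x := by
      have h1 : ∑ w ∈ G.N F, G.wt3 q w * ((G.tT q F w ∩ U).card : ℤ) ≤ ∑ x ∈ G.N F, a x := by
        refine sum_le_sum fun w _ => ?_
        refine mul_le_mul_of_nonneg_left ?_ (wt3_nonneg30 w)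
        have := card_le_card (inter_subset_left (s₁ := G.tT q F w) (s₂ := U))
        exact_mod_cast this
      refine le_trans ?_ h1
      rw [swap30]
      have h2 : ∑ _x ∈ U, (2 : ℤ) = 2 * (U.card : ℤ) := by
        rw [sum_const, nsmul_eq_mul, mul_comm]
      rw [← h2]
      refine sum_le_sum fun y hy => ?_
      obtain ⟨hyT, hyl, w, hw, hwy, h3⟩ := mem_filter.1 hy
      set t : V → ℤ := fun w => if y ∈ G.tT q F w then G.wt3 q w else 0 with ht
      have t0 : ∀ w, 0 ≤ t w := by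
        intro w
        rw [ht]
        simp only
        split_ifs
        · exact wt3_nonneg30 w
        · exact le_refl _
      rcases h3 with h3 | ⟨⟨w', h3⟩, h4⟩
      · have h5 : t w = 2 := by
          rw [ht]
          simp only
          rw [if_pos, wt3_low30 h3]
          exact mem_tT30.2 ⟨hwy, hyT, fun h => twnl89 ⟨_, h⟩ h3⟩
        have h6 : t w ≤ ∑ x ∈ G.N F, t x := single_le_sum (fun x _ => t0 x) hw
        rw [h5] at h6
        exact h6
      · have hw' := (K.bas.twT F K.lf w w' h3).1 hw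
        have h3' := TH.symm _ _ h3
        have n1 : y ≠ w' := by
          rintro rfl
          exact h4 h3
        have hwy' : y ∈ G.nb w' := Tw_nb5 h3 hwy n1
        have h5 : t w = 1 := by
          rw [ht]
          simp only
          rw [if_pos, wt3_q30 QS ⟨_, h3⟩]
          exact mem_tT30.2 ⟨hwy, hyT, h4⟩
        have h6 : t w' = 1 := by
          rw [ht]
          simp only
          rw [if_pos, wt3_q30 QS ⟨_, h3'⟩]
          refine mem_tT30.2 ⟨hwy', hyT, fun h => ?_⟩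
          have := TH.uniq K.n9 _ _ _ h3' h
          rw [this] at hwy
          exact G.irr _ hwy
        have h7 := two_terms30 (f := t) (fun x _ => t0 x) hw hw' (ne_of_nb5 h3.1)
        rw [h5, h6] at h7
        exact h7
    have h8 := K.le7
    rw [sum_sub_distrib, sum_sub_distrib, hVs, hb']
    push_cast
    linarith

theorem K89.Vs3 : (G.Vs89 F).card ≤ 3 ∧ 3 ≤ (G.Re89 F).card ∧
    (G.Vs89 F).card + (G.Re89 F).card = 6 := by
  obtain ⟨g, h1, -, -, h2⟩ := K.cnt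
  have h3 : 0 ≤ ∑ x ∈ G.N F, g x := sum_nonneg h1
  have h4 : 2 * ((G.Vs89 F).card : ℤ) ≤ 7 := by linarith
  have h5 : (G.Vs89 F).card ≤ 3 := by omega
  have h6 : G.Vs89 F ⊆ G.N F := fun x hx => (mem_Vs89.1 hx).1
  have h7 := card_sdiff_add_card_eq_card h6
  rw [K.T6] at h7
  have h8 : (G.Re89 F).card = (G.N F \ G.Vs89 F).card := rfl
  omega

/-- three vertices: no low vertex with three neighbours in `F`, no twin with four -/
theorem K89.eq3 (h3 : (G.Vs89 F).card = 3) :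
    (∀ x ∈ G.N F, G.Low x → G.d x F = 2) ∧ (∀ x ∈ G.N F, G.IsTw x → G.d x F = 3) := by
  obtain ⟨g, g0, g1, g2, h2⟩ := K.cnt
  rw [h3] at h2
  push_cast at h2
  constructor
  · intro x hx hl
    have h4 := K.bas.pos F K.lf x hx
    by_contra h5
    have h6 := g1 x hx hl (by omega)
    have h7 : g x ≤ ∑ x ∈ G.N F, g x := single_le_sum (fun x hx => g0 x hx) hx
    linarith
  · intro x hx ht
    obtain ⟨h4, h5 | h5⟩ := K.J0.tw3 F K.L5 x hx ht
    · exact h5
    · exfalso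
      obtain ⟨x', hx'⟩ := ht
      have hxN := (K.bas.twT F K.lf x x' hx').1 hx
      have TH := stTwHL_5 G
      have h6 : G.d x' F = 4 := by
        rw [← h5, d, d]
        congr 1
        ext z
        rw [mem_inter, mem_inter]
        constructor
        · rintro ⟨h6, h7⟩
          exact ⟨Tw_nb5 (TH.symm _ _ hx') h6 (K.notF hx h7).symm, h7⟩
        · rintro ⟨h6, h7⟩
          exact ⟨Tw_nb5 hx' h6 (K.notF hxN h7).symm, h7⟩
      have h7 := g2 x hx ⟨_, hx'⟩ h5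
      have h8 := g2 x' hxN ⟨_, TH.symm _ _ hx'⟩ h6
      have h9 := two_terms30 (f := g) g0 hx hxN (ne_of_nb5 hx'.1)
      linarith

/-- two vertices with twin class neighbours: two pairs -/
theorem K89.N1 {x1 x2 p1 p2 : V} (hx1 : x1 ∈ G.N F)
    (hx2 : x2 ∈ G.N F) (hne : x1 ≠ x2) (hp1 : p1 ∈ G.N F) (hp2 : p2 ∈ G.N F) (ht1 : G.IsTw p1)
    (ht2 : G.IsTw p2) (h1 : x1 ∈ G.nb p1) (h2 : x2 ∈ G.nb p2) (k1 : ¬ G.Tw p1 x1)
    (k2 : ¬ G.Tw p2 x2) : ∃ q1 q2, G.Tw p1 q1 ∧ G.Tw p2 q2 ∧ q1 ∈ G.N F ∧ q2 ∈ G.N F ∧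
      p1 ≠ p2 ∧ p1 ≠ q2 ∧ q1 ≠ p2 ∧ q1 ≠ q2 ∧ x1 ≠ q1 ∧ x2 ≠ q2 := by
  have TH := stTwHL_5 G
  obtain ⟨q1, t1⟩ := ht1
  obtain ⟨q2, t2⟩ := ht2
  have hq1 := (K.bas.twT F K.lf p1 q1 t1).1 hp1
  have hq2 := (K.bas.twT F K.lf p2 q2 t2).1 hp2
  have s1 := TH.symm _ _ t1
  have s2 := TH.symm _ _ t2
  have n1 : x1 ≠ q1 := by
    rintro rfl
    exact k1 t1
  have n2 : x2 ≠ q2 := by
    rintro rfl
    exact k2 t2
  have key : x2 ∈ G.nb p1 → x2 ≠ q1 → False := by
    intro h4 h5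
    have h6 : ({q1, x1, x2} : Finset V) ⊆ G.pT F p1 := by
      intro u hu
      simp only [mem_insert, mem_singleton] at hu
      rcases hu with e | e | e <;> rw [e] <;> apply mem_pTh89.2
      · exact ⟨t1.1, hq1⟩
      · exact ⟨h1, hx1⟩
      · exact ⟨h4, hx2⟩
    have h7 := card_le_card h6
    rw [card_insert_of_notMem (by simp [n1.symm, h5.symm]), card_pair hne] at h7
    have := (K.twin hp1 ⟨_, t1⟩).1
    omega
  refine ⟨q1, q2, t1, t2, hq1, hq2, ?_⟩
  have e1 : p2 ≠ p1 := by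
    rintro rfl
    refine key h2 fun h => k2 ?_
    rw [h]
    exact t1
  have e2 : p2 ≠ q1 := by
    rintro rfl
    have e3 : q2 = p1 := TH.uniq K.n9 _ _ _ t2 s1
    have h4 : x2 ≠ p1 := by
      rintro rfl
      exact k2 s1
    exact key (Tw_nb5 s1 h2 h4) (ne_of_nb5 h2).symm
  have e3 : q2 ≠ p1 := by
    rintro rfl
    exact e2 (TH.uniq K.n9 _ _ _ s2 t1)
  have e4 : q2 ≠ q1 := by
    rintro rfl
    exact e1 (TH.uniq K.n9 _ _ _ s2 s1)
  exact ⟨e1.symm, e3.symm, e2.symm, e4.symm, n1, n2⟩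

/-- `N0` -/
theorem K89.N0 (h3 : (G.Re89 F).card ≤ 3) {x1 x2 p1 p2 : V} (hx1 : x1 ∈ G.N F)
    (hx2 : x2 ∈ G.N F) (hne : x1 ≠ x2) (hp1 : p1 ∈ G.N F) (hp2 : p2 ∈ G.N F) (ht1 : G.IsTw p1)
    (ht2 : G.IsTw p2) (h1 : x1 ∈ G.nb p1) (h2 : x2 ∈ G.nb p2) (k1 : ¬ G.Tw p1 x1)
    (k2 : ¬ G.Tw p2 x2) : False := by
  have TH := stTwHL_5 G
  obtain ⟨q1, q2, t1, t2, hq1, hq2, e1, e2, e3, e4, -, -⟩ :=
    K.N1 hx1 hx2 hne hp1 hp2 ht1 ht2 h1 h2 k1 k2
  have s1 := TH.symm _ _ t1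
  have s2 := TH.symm _ _ t2
  have h4 := four_le5 (K.twR hp1 ⟨_, t1⟩) (K.twR hq1 ⟨_, s1⟩) (K.twR hp2 ⟨_, t2⟩)
    (K.twR hq2 ⟨_, s2⟩) (ne_of_nb5 t1.1) e1 e2 e3 e4 (ne_of_nb5 t2.1)
  omega

end

end CG

end Pool.Agent.Lib.MP_e95c01_co.N
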