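import Pool.Agent.Lib.MP_e95c01_co.X.J3a_89

/-!
# J3: two lows, a hub and a pair of twins: covers
-/

namespace Pool.Agent.Lib.MP_e95c01_co.N

open Finset

variable {V : Type} [Fintype V] [DecidableEq V]

namespace CG

/-- the situation of J3 under the assumption that the sum is at most 7 -/
structure J89 (G : CG V) (F : Finset V) (l1 l2 h v w : V) : Prop where
  K : G.K89 F
  fm : ∀ x ∈ F, x = l1 ∨ x = l2 ∨ x = h ∨ x = v ∨ x = w
  F1 : l1 ∈ F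
  F2 : l2 ∈ F
  Fh : h ∈ F
  Fv : v ∈ F
  Fw : w ∈ F
  n12 : l1 ≠ l2
  low1 : G.Low l1
  low2 : G.Low l2
  hub : G.Hub h
  tw : G.Tw v w

variable {G : CG V} {F : Finset V} {l1 l2 h v w : V}

theorem J89.swap (J : G.J89 F l1 l2 h v w) : G.J89 F l2 l1 h v w where
  K := J.K
  fm x hx := by
    rcases J.fm x hx with e | e | e
    · exact Or.inr (Or.inl e)
    · exact Or.inl e
    · exact Or.inr (Or.inr e)
  F1 := J.F2
  F2 := J.F1
  Fh := J.Fh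
  Fv := J.Fv
  Fw := J.Fw
  n12 := J.n12.symm
  low1 := J.low2
  low2 := J.low1
  hub := J.hub
  tw := J.tw

/-- indicator -/
def ad89 (G : CG V) (x y : V) : ℕ := if y ∈ G.nb x then 1 else 0

theorem ad89_comm (G : CG V) (x y : V) : G.ad89 x y = G.ad89 y x := by
  rw [ad89, ad89]
  by_cases h : y ∈ G.nb x
  · rw [if_pos h, if_pos (G.sym _ _ h)]
  · rw [if_neg h, if_neg (fun h' => h (G.sym _ _ h'))]

theorem ad89_self (G : CG V) (x : V) : G.ad89 x x = 0 := by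
  rw [ad89, if_neg (G.irr x)]

theorem ad89_le (G : CG V) (x y : V) : G.ad89 x y ≤ 1 := by
  rw [ad89]
  split_ifs <;> omega

theorem ad89_one {x y : V} (hxy : y ∈ G.nb x) : G.ad89 x y = 1 := if_pos hxy

theorem ad89_zero {x y : V} (hxy : y ∉ G.nb x) : G.ad89 x y = 0 := if_neg hxy

theorem ad89_pos {x y : V} (hxy : 1 ≤ G.ad89 x y) : y ∈ G.nb x := by
  by_contra hn
  rw [ad89_zero hn] at hxy
  omega

theorem ad89_neg {x y : V} (hxy : G.ad89 x y = 0) : y ∉ G.nb x := fun hn => by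
  rw [ad89_one hn] at hxy
  omega

section

variable (J : G.J89 F l1 l2 h v w)

include J

theorem J89.nlv : ¬ G.Low v ∧ ¬ G.Low w ∧ ¬ G.Low h :=
  ⟨twnl89 ⟨_, J.tw⟩, twnl89 ⟨_, (stTwHL_5 G).symm _ _ J.tw⟩, J.hub.1⟩

theorem J89.nes : l1 ≠ h ∧ l1 ≠ v ∧ l1 ≠ w ∧ l2 ≠ h ∧ l2 ≠ v ∧ l2 ≠ w ∧ h ≠ v ∧ h ≠ w ∧
    v ≠ w := by
  obtain ⟨h1, h2, h3⟩ := J.nlv
  have TH := stTwHL_5 G
  refine ⟨?_, ?_, ?_, ?_, ?_, ?_, ?_, ?_, ne_of_nb5 J.tw.1⟩
  · rintro rfl; exact h3 J.low1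
  · rintro rfl; exact h1 J.low1
  · rintro rfl; exact h2 J.low1
  · rintro rfl; exact h3 J.low2
  · rintro rfl; exact h1 J.low2
  · rintro rfl; exact h2 J.low2
  · rintro rfl; exact J.hub.2 ⟨_, J.tw⟩
  · rintro rfl; exact J.hub.2 ⟨_, TH.symm _ _ J.tw⟩

theorem J89.F_eq : F = {l1, l2, h, v, w} := by
  ext x
  simp only [mem_insert, mem_singleton]
  constructor
  · exact J.fm x
  · rintro (e | e | e | e | e) <;> rw [e]
    · exact J.F1
    · exact J.F2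
    · exact J.Fh
    · exact J.Fv
    · exact J.Fw

theorem J89.dx (x : V) : G.d x F =
    G.ad89 x l1 + G.ad89 x l2 + G.ad89 x h + G.ad89 x v + G.ad89 x w := by
  obtain ⟨n1, n2, n3, n4, n5, n6, n7, n8, n9⟩ := J.nes
  have h1 : G.nb x ∩ F = F.filter fun y => y ∈ G.nb x := by
    ext y
    rw [mem_inter, mem_filter]
    exact and_comm
  rw [d, h1, card_filter, J.F_eq, sum_insert (by simp [J.n12, n1, n2, n3]),
    sum_insert (by simp [n4, n5, n6]), sum_insert (by simp [n7, n8]), sum_pair n9]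
  simp only [ad89]
  omega

/-- the partner -/
theorem J89.adw {x : V} (h1 : x ≠ v) (h2 : x ≠ w) : G.ad89 x w = G.ad89 x v := by
  rw [G.ad89_comm x w, G.ad89_comm x v, ad89, ad89]
  have TH := stTwHL_5 G
  by_cases h3 : x ∈ G.nb v
  · rw [if_pos h3, if_pos (Tw_nb5 J.tw h3 h2)]
  · rw [if_neg h3, if_neg (fun h4 => h3 (Tw_nb5 (TH.symm _ _ J.tw) h4 h1))]

/-- neighbours in `F` of a vertex of `N F` -/
theorem J89.dT {x : V} (hx : x ∈ G.N F) : G.d x F =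
    G.ad89 l1 x + G.ad89 l2 x + G.ad89 h x + 2 * G.ad89 v x := by
  rw [J.dx, J.adw (J.K.notF hx J.Fv) (J.K.notF hx J.Fw), G.ad89_comm x l1, G.ad89_comm x l2,
    G.ad89_comm x h, G.ad89_comm x v]
  ring

theorem J89.miss {x : V} (hx : x ∈ F) : (G.nb x).card + (G.N F \ G.nb x).card =
    G.d x F + 6 := by
  have h1 := J.K.bas.deg F J.K.lf x hx
  have h2 := card_sdiff_add_card_inter (G.N F) (G.nb x)
  have h3 := J.K.T6
  have h4 : G.Tz F x = G.N F ∩ G.nb x := by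
    rw [Tz, inter_comm]
  rw [h4] at h1
  omega

/-- misses -/
theorem J89.mm : (G.N F \ G.nb l1).card = G.ad89 l1 l2 + G.ad89 l1 h + 2 * G.ad89 l1 v ∧
    (G.N F \ G.nb l2).card = G.ad89 l1 l2 + G.ad89 l2 h + 2 * G.ad89 l2 v ∧
    (G.N F \ G.nb v).card = G.ad89 l1 v + G.ad89 l2 v + G.ad89 h v ∧
    (G.N F \ G.nb h).card + 1 ≤ G.ad89 l1 h + G.ad89 l2 h + 2 * G.ad89 h v := by
  obtain ⟨n1, n2, n3, n4, n5, n6, n7, n8, n9⟩ := J.nes
  refine ⟨?_, ?_, ?_, ?_⟩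
  · have h1 := J.miss J.F1
    have h2 : (G.nb l1).card = 6 := J.low1
    rw [J.dx, J.adw n2 n3, ad89_self] at h1
    omega
  · have h1 := J.miss J.F2
    have h2 : (G.nb l2).card = 6 := J.low2
    rw [J.dx, J.adw n5 n6, ad89_self, G.ad89_comm l2 l1] at h1
    omega
  · have h1 := J.miss J.Fv
    have h2 : (G.nb v).card = 7 := J.tw.2.1
    rw [J.dx, ad89_self, ad89_one J.tw.1, G.ad89_comm v l1, G.ad89_comm v l2,
      G.ad89_comm v h] at h1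
    omega
  · have h1 := J.miss J.Fh
    have h2 := G.deg h
    have h3 : (G.nb h).card ≠ 6 := J.hub.1
    rw [J.dx, J.adw n7 n8, ad89_self, G.ad89_comm h l1, G.ad89_comm h l2] at h1
    omega

/-- two vertices of `N F` have at least three neighbours in `F` together -/
theorem J89.two2 {x y a b : V} (hx : x ∈ G.N F) (hy : y ∈ G.N F) (hne : x ≠ y)
    (h1 : ∀ u ∈ F, x ∈ G.nb u ∨ y ∈ G.nb u → u = a ∨ u = b) : False := by
  have h2 := J.K.J0.two F J.K.L5 x hx y hy hne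
  have h3 : (G.nb x ∪ G.nb y) ∩ F ⊆ {a, b} := by
    intro u hu
    rw [mem_inter, mem_union] at hu
    rw [mem_insert, mem_singleton]
    refine h1 u hu.2 ?_
    rcases hu.1 with k | k
    · exact Or.inl (G.sym _ _ k)
    · exact Or.inr (G.sym _ _ k)
  have h4 := card_le_card h3
  have h5 := card_le_two (a := a) (b := b)
  omega

theorem J89.vw {x : V} (hx : x ∈ G.N F) (h1 : x ∈ G.nb v) : x ∈ G.nb w :=
  Tw_nb5 J.tw h1 (J.K.notF hx J.Fw)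

theorem J89.wv {x : V} (hx : x ∈ G.N F) (h1 : x ∈ G.nb w) : x ∈ G.nb v :=
  Tw_nb5 ((stTwHL_5 G).symm _ _ J.tw) h1 (J.K.notF hx J.Fv)

/-- not both with neighbours only `l1, h` -/
theorem J89.two1h {x y : V} (hx : x ∈ G.N F) (hy : y ∈ G.N F) (hne : x ≠ y)
    (h1 : x ∉ G.nb l2) (h2 : x ∉ G.nb v) (h3 : y ∉ G.nb l2) (h4 : y ∉ G.nb v) : False := by
  refine J.two2 (a := l1) (b := h) hx hy hne fun u hu k => ?_
  rcases J.fm u hu with e | e | e | e | e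
  · exact Or.inl e
  · rw [e] at k
    rcases k with k | k
    · exact absurd k h1
    · exact absurd k h3
  · exact Or.inr e
  · rw [e] at k
    rcases k with k | k
    · exact absurd k h2
    · exact absurd k h4
  · rw [e] at k
    rcases k with k | k
    · exact absurd (J.wv hx k) h2
    · exact absurd (J.wv hy k) h4

/-- not both with neighbours only `v, w` -/
theorem J89.twovw {x y : V} (hx : x ∈ G.N F) (hy : y ∈ G.N F) (hne : x ≠ y)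
    (h1 : x ∉ G.nb l1) (h2 : x ∉ G.nb l2) (h3 : x ∉ G.nb h) (h1' : y ∉ G.nb l1)
    (h2' : y ∉ G.nb l2) (h3' : y ∉ G.nb h) : False := by
  refine J.two2 (a := v) (b := w) hx hy hne fun u hu k => ?_
  rcases J.fm u hu with e | e | e | e | e
  · rw [e] at k
    rcases k with k | k
    · exact absurd k h1
    · exact absurd k h1'
  · rw [e] at k
    rcases k with k | k
    · exact absurd k h2
    · exact absurd k h2'
  · rw [e] at k
    rcases k with k | k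
    · exact absurd k h3
    · exact absurd k h3'
  · exact Or.inl e
  · exact Or.inr e

/-- a low or twin class neighbour -/
theorem J89.pair {y p p' : V} (h1 : G.Tw p p') (h2 : y ∈ G.nb p') : ¬ G.Tw p y := by
  intro h3
  have := (stTwHL_5 G).uniq J.K.n9 _ _ _ h1 h3
  rw [this] at h2
  exact G.irr _ h2

/-- the covers -/
theorem J89.cov {z y : V} (hz : z ∈ F) (hy : y ∈ F ∪ G.N F) (hzy : y ∈ G.nb z) :
    (z ∈ G.nb l1 ∧ y ∈ G.nb l1) ∨ (z ∈ G.nb l2 ∧ y ∈ G.nb l2) ∨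
    (∃ x ∈ G.N F, G.Low x ∧ z ∈ G.nb x ∧ y ∈ G.nb x) ∨
    (z ∈ G.nb v ∧ y ∈ G.nb v ∧ z ∈ G.nb w ∧ y ∈ G.nb w) ∨
    (∃ p ∈ G.N F, ∃ p' ∈ G.N F, G.Tw p p' ∧ z ∈ G.nb p ∧ z ∈ G.nb p' ∧ y ∈ G.nb p ∧
      y ∈ G.nb p') ∨
    (G.HL h l1 y ∧ z ∈ G.nb l1) ∨ (G.HL h l2 y ∧ z ∈ G.nb l2) ∨
    (∃ a ∈ G.N F, ∃ b ∈ G.N F, G.HL a b y ∧ z ∈ G.nb b ∧ z ∈ G.nb a) ∨
    (G.HL h l1 z ∧ y ∈ G.nb l1) ∨ (G.HL h l2 z ∧ y ∈ G.nb l2) ∨
    (∃ a ∈ G.N F, ∃ b ∈ G.N F, G.HL a b z ∧ y ∈ G.nb b ∧ y ∈ G.nb a) ∨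
    G.LL l1 l2 z y ∨ G.LL l2 l1 z y := by
  have TH := stTwHL_5 G
  have n9 := J.K.n9
  obtain ⟨nv, nw, nh⟩ := J.nlv
  have hlF : ∀ x ∈ F, G.Low x → x = l1 ∨ x = l2 := by
    intro x hx hl
    rcases J.fm x hx with e | e | e | e | e
    · exact Or.inl e
    · exact Or.inr e
    · rw [e] at hl; exact absurd hl nh
    · rw [e] at hl; exact absurd hl nv
    · rw [e] at hl; exact absurd hl nw
  have hHL : ∀ a b t, a ∈ F → b ∈ F → G.HL a b t → a = h ∧ (b = l1 ∨ b = l2) := by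
    intro a b t ha hb hab
    refine ⟨?_, hlF b hb hab.2.1⟩
    have h1 := HL_not_low76 hab
    have h2 := TH.notHL n9 _ _ _ hab
    rcases J.fm a ha with e | e | e | e | e
    · rw [e] at h1; exact absurd J.low1 h1
    · rw [e] at h1; exact absurd J.low2 h1
    · exact e
    · rw [e] at h2; exact absurd ⟨_, J.tw⟩ h2
    · rw [e] at h2; exact absurd ⟨_, TH.symm _ _ J.tw⟩ h2
  rcases J.K.lf.cov z hz y hy hzy with k | k | k | k | k
  · obtain ⟨x, h1, h2, h3, h4⟩ := k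
    rcases mem_union.1 h1 with h5 | h5
    · rcases hlF x h5 h2 with e | e
      · rw [e] at h3 h4
        exact Or.inl ⟨h3, h4⟩
      · rw [e] at h3 h4
        exact Or.inr (Or.inl ⟨h3, h4⟩)
    · exact Or.inr (Or.inr (Or.inl ⟨x, h5, h2, h3, h4⟩))
  · obtain ⟨p, h1, p', h2, h3, h4, h5, h6, h7⟩ := k
    rcases mem_union.1 h1 with h8 | h8
    · have h8' := (J.K.bas.twT F J.K.lf p p' h3).2 h8
      have hp : p = v ∨ p = w := by
        rcases J.fm p h8 with e | e | e | e | e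
        · rw [e] at h3; exact absurd J.low1 (twnl89 ⟨_, h3⟩)
        · rw [e] at h3; exact absurd J.low2 (twnl89 ⟨_, h3⟩)
        · rw [e] at h3; exact absurd ⟨_, h3⟩ J.hub.2
        · exact Or.inl e
        · exact Or.inr e
      refine Or.inr (Or.inr (Or.inr (Or.inl ?_)))
      rcases hp with e | e
      · subst e
        have e' := TH.uniq n9 _ _ _ h3 J.tw
        subst e'
        exact ⟨h4, h6, h5, h7⟩
      · subst e
        have e' := TH.uniq n9 _ _ _ h3 (TH.symm _ _ J.tw)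
        subst e'
        exact ⟨h5, h7, h4, h6⟩
    · exact Or.inr (Or.inr (Or.inr (Or.inr (Or.inl
        ⟨p, h8, p', (J.K.bas.twT F J.K.lf p p' h3).1 h8, h3, h4, h5, h6, h7⟩))))
  · obtain ⟨a, b, h1, h2, h3, h4 | h4⟩ := k
    · obtain ⟨e1, e2 | e2⟩ := hHL a b y h4.1 h4.2 h1
      · rw [e1, e2] at h1
        rw [e2] at h2
        exact Or.inr (Or.inr (Or.inr (Or.inr (Or.inr (Or.inl ⟨h1, h2⟩)))))
      · rw [e1, e2] at h1
        rw [e2] at h2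
        exact Or.inr (Or.inr (Or.inr (Or.inr (Or.inr (Or.inr (Or.inl ⟨h1, h2⟩))))))
    · exact Or.inr (Or.inr (Or.inr (Or.inr (Or.inr (Or.inr (Or.inr (Or.inl
        ⟨a, h4.1, b, h4.2, h1, h2, h3⟩)))))))
  · obtain ⟨a, b, h1, h2, h3, h4 | h4⟩ := k
    · obtain ⟨e1, e2 | e2⟩ := hHL a b z h4.1 h4.2 h1
      · rw [e1, e2] at h1
        rw [e2] at h2
        exact Or.inr (Or.inr (Or.inr (Or.inr (Or.inr (Or.inr (Or.inr (Or.inr 
          (Or.inl ⟨h1, h2⟩))))))))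
      · rw [e1, e2] at h1
        rw [e2] at h2
        exact Or.inr (Or.inr (Or.inr (Or.inr (Or.inr (Or.inr (Or.inr (Or.inr (Or.inr 
          (Or.inl ⟨h1, h2⟩)))))))))
    · exact Or.inr (Or.inr (Or.inr (Or.inr (Or.inr (Or.inr (Or.inr (Or.inr (Or.inr (Or.inr
        (Or.inl ⟨a, h4.1, b, h4.2, h1, h2, h3⟩))))))))))
  · obtain ⟨a, b, h1, h2 | h2⟩ := k
    · have ea := hlF a h2.1 h1.1
      have eb := hlF b h2.2 h1.2.1
      have nab := ne_of_nb5 (LL_ab76 h1)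
      rcases ea with ea | ea <;> rcases eb with eb | eb
      · exact absurd (ea.trans eb.symm) nab
      · rw [ea, eb] at h1
        exact Or.inr (Or.inr (Or.inr (Or.inr (Or.inr (Or.inr (Or.inr (Or.inr (Or.inr (Or.inr 
          (Or.inr (Or.inl h1)))))))))))
      · rw [ea, eb] at h1
        exact Or.inr (Or.inr (Or.inr (Or.inr (Or.inr (Or.inr (Or.inr (Or.inr (Or.inr (Or.inr 
          (Or.inr (Or.inr (h1))))))))))))
      · exact absurd (ea.trans eb.symm) nab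
    · exact absurd h1.2.1 (J.K.noCN h2.1 h1.1 h2.2 (LL_ab76 h1)).1

theorem J89.ReT {y : V} (hy : y ∈ G.Re89 F) : y ∈ G.N F := (mem_Re89.1 hy).1

/-- covers of an edge at a vertex of the rest -/
theorem J89.covR {z y : V} (hz : z ∈ F) (hy : y ∈ G.Re89 F) (hzy : y ∈ G.nb z) :
    (z ∈ G.nb l1 ∧ y ∈ G.nb l1) ∨ (z ∈ G.nb l2 ∧ y ∈ G.nb l2) ∨ (z ∈ G.nb v ∧ y ∈ G.nb v) ∨
    (G.HL h l1 z ∧ y ∈ G.nb l1) ∨ (G.HL h l2 z ∧ y ∈ G.nb l2) ∨
    G.LL l1 l2 z y ∨ G.LL l2 l1 z y := by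
  obtain ⟨yT, yl, yC⟩ := mem_Re89.1 hy
  have sat := J.K.lf.sat
  rcases J.cov hz (mem_union_right _ yT) hzy with k | k | k | k | k | k | k | k | k | k | k | k | k
  · exact Or.inl k
  · exact Or.inr (Or.inl k)
  · obtain ⟨x, h1, h2, h3, h4⟩ := k
    exact absurd ⟨x, h1, h4, Or.inl h2⟩ yC
  · exact Or.inr (Or.inr (Or.inl ⟨k.1, k.2.1⟩))
  · obtain ⟨p, h1, p', h2, h3, h4, h5, h6, h7⟩ := k
    exact absurd ⟨p, h1, h6, Or.inr ⟨⟨_, h3⟩, J.pair h3 h7⟩⟩ yC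
  · exact absurd (sat _ _ _ k.1) yl
  · exact absurd (sat _ _ _ k.1) yl
  · obtain ⟨a, h1, b, h2, h3, h4⟩ := k
    exact absurd (sat _ _ _ h3) yl
  · exact Or.inr (Or.inr (Or.inr (Or.inl k)))
  · exact Or.inr (Or.inr (Or.inr (Or.inr (Or.inl k))))
  · obtain ⟨a, h1, b, h2, h3, h4, h5⟩ := k
    exact absurd ⟨b, h2, h4, Or.inl h3.2.1⟩ yC
  · exact Or.inr (Or.inr (Or.inr (Or.inr (Or.inr (Or.inl k)))))
  · exact Or.inr (Or.inr (Or.inr (Or.inr (Or.inr (Or.inr k)))))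

theorem J89.cA {y : V} (hy : y ∈ G.Re89 F) (h1 : y ∈ G.nb l1) :
    (y ∈ G.nb l2 ∧ l1 ∈ G.nb l2) ∨ (y ∈ G.nb v ∧ l1 ∈ G.nb v) ∨
    (G.HL h l2 l1 ∧ y ∈ G.nb l2) := by
  rcases J.covR J.F1 hy h1 with k | k | k | k | k | k | k
  · exact absurd k.1 (G.irr _)
  · exact Or.inl k.symm
  · exact Or.inr (Or.inl k.symm)
  · exact absurd rfl (HL_bt76 k.1).2
  · exact Or.inr (Or.inr k)
  · exact absurd (LL_t76 k) (G.irr _)
  · exact absurd rfl (LL_tb76 k).2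

theorem J89.cB {y : V} (hy : y ∈ G.Re89 F) (h1 : y ∈ G.nb v) :
    (y ∈ G.nb l1 ∧ v ∈ G.nb l1) ∨ (y ∈ G.nb l2 ∧ v ∈ G.nb l2) := by
  have sat := J.K.lf.sat
  have TH := stTwHL_5 G
  rcases J.covR J.Fv hy h1 with k | k | k | k | k | k | k
  · exact Or.inl k.symm
  · exact Or.inr k.symm
  · exact absurd k.1 (G.irr _)
  · exact absurd (sat _ _ _ k.1) J.nlv.1
  · exact absurd (sat _ _ _ k.1) J.nlv.1
  · exact absurd ⟨_, J.tw⟩ (TH.twLL _ _ _ _ k).1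
  · exact absurd ⟨_, J.tw⟩ (TH.twLL _ _ _ _ k).1

theorem J89.cC {y : V} (hy : y ∈ G.Re89 F) (h1 : y ∈ G.nb h) :
    (y ∈ G.nb l1 ∧ h ∈ G.nb l1) ∨ (y ∈ G.nb l2 ∧ h ∈ G.nb l2) ∨ (y ∈ G.nb v ∧ h ∈ G.nb v) ∨
    G.LL l1 l2 h y ∨ G.LL l2 l1 h y := by
  rcases J.covR J.Fh hy h1 with k | k | k | k | k | k | k
  · exact Or.inl k.symm
  · exact Or.inr (Or.inl k.symm)
  · exact Or.inr (Or.inr (Or.inl k.symm))
  · exact absurd (HL_t76 k.1) (G.irr _)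
  · exact absurd (HL_t76 k.1) (G.irr _)
  · exact Or.inr (Or.inr (Or.inr (Or.inl k)))
  · exact Or.inr (Or.inr (Or.inr (Or.inr k)))

/-- a vertex of `Vs` is not of the rest -/
theorem J89.RV {y : V} (h1 : y ∈ G.Re89 F) (h2 : y ∈ G.Vs89 F) : False := by
  obtain ⟨-, k1, k2⟩ := mem_Re89.1 h1
  rcases (mem_Vs89.1 h2).2 with k | k
  · exact k1 k
  · exact k2 k

theorem J89.TRV {y : V} (hy : y ∈ G.N F) : y ∈ G.Re89 F ∨ y ∈ G.Vs89 F := by
  rw [mem_Re89, mem_Vs89]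
  tauto

/-- no lows, three vertices in `Vs`: impossible -/
theorem J89.fin (h3 : (G.Vs89 F).card = 3) (hl : ∀ x ∈ G.N F, ¬ G.Low x) : False := by
  have h4 := J.K.Vs3.2.2
  obtain ⟨x1, x2, h5, h6, h7⟩ : ∃ x1 x2, x1 ∈ G.Vs89 F ∧ x2 ∈ G.Vs89 F ∧ x1 ≠ x2 := by
    obtain ⟨x1, x2, h5, h6, h7⟩ := one_lt_card_iff.1 (show 1 < (G.Vs89 F).card by omega)
    exact ⟨x1, x2, h5, h6, h7⟩
  have key : ∀ x ∈ G.Vs89 F, ∃ p ∈ G.N F, G.IsTw p ∧ x ∈ G.nb p ∧ ¬ G.Tw p x := by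
    intro x hx
    obtain ⟨k1, k2 | ⟨p, k2, k3, k4 | k4⟩⟩ := mem_Vs89.1 hx
    · exact absurd k2 (hl x k1)
    · exact absurd k4 (hl p k2)
    · exact ⟨p, k2, k4.1, k3, k4.2⟩
  obtain ⟨p1, a1, a2, a3, a4⟩ := key x1 h5
  obtain ⟨p2, b1, b2, b3, b4⟩ := key x2 h6
  exact J.K.N0 (by omega) (mem_Vs89.1 h5).1 (mem_Vs89.1 h6).1 h7 a1 b1 a2 b2 a3 b3 a4 b4

end

end CG

end Pool.Agent.Lib.MP_e95c01_co.N
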