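import Pool.Agent.Lib.MP_e95c01_co.X.F6x_38
import Pool.Agent.Lib.MP_e95c01_co.X.H0a_11
import Pool.Agent.Lib.MP_e95c01_co.X.H0e_30

/-!
# J4: leaves with a low vertex and four hubs, covers
-/

namespace Pool.Agent.Lib.MP_e95c01_co.N

open Finset

variable {V : Type} [Fintype V] [DecidableEq V]

namespace CG

variable {G : CG V} {F : Finset V} {l : V}

/-- a low vertex and four hubs -/
structure S4_38 (G : CG V) (F : Finset V) (l : V) : Prop where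
  h : G.L5 F
  lF : l ∈ F
  low : G.Low l
  hub : ∀ z ∈ F, z ≠ l → G.Hub z

namespace S4_38

theorem lowF (s : S4_38 G F l) {w : V} (hw : w ∈ F) (h : G.Low w) : w = l := by
  by_contra h1
  exact (s.hub w hw h1).1 h

theorem twF (s : S4_38 G F l) {w : V} (hw : w ∈ F) : ¬ G.IsTw w := by
  by_cases h : w = l
  · subst h
    exact not_tw33 s.low
  · exact (s.hub w hw h).2

theorem n9 (s : S4_38 G F l) : 9 ≤ Fintype.card V := le_trans (by norm_num) s.h.1.n12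

/-- covers of the edges at `l` -/
theorem covl (s : S4_38 G F l) {y : V} (hyF : y ∈ F ∪ G.N F) (hy : y ∈ G.nb l) :
    (∃ w ∈ G.N F, G.Low w ∧ l ∈ G.nb w ∧ y ∈ G.nb w) ∨
    (∃ v ∈ G.N F, ∃ w ∈ G.N F, G.Tw v w ∧ l ∈ G.nb v ∧ y ∈ G.nb v ∧ y ∈ G.nb w) ∨
    (∃ a ∈ G.N F, ∃ b ∈ G.N F, G.HL a b y ∧ l ∈ G.nb b ∧ l ∈ G.nb a) ∨
    (∃ a ∈ G.N F, ∃ b ∈ G.N F, G.HL a b l ∧ y ∈ G.nb b ∧ y ∈ G.nb a) ∨
    (∃ a ∈ G.N F, ∃ b ∈ G.N F, G.LL a b l y) := by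
  have htw : ∀ {x w : V}, x ∈ F ∪ G.N F → G.IsTw x → x ∈ G.N F := by
    intro x _ hx ht
    rcases mem_union.1 hx with h1 | h1
    · exact absurd ht (s.twF h1)
    · exact h1
  rcases s.h.1.cov l s.lF y hyF hy with c | c | c | c | c
  · obtain ⟨w, hw, h1, h2, h3⟩ := c
    left
    refine ⟨w, ?_, h1, h2, h3⟩
    rcases mem_union.1 hw with h4 | h4
    · exact absurd (s.lowF h4 h1 ▸ h2) (G.irr _)
    · exact h4
  · obtain ⟨v, hv, w, hw, h1, h3, -, h4, h5⟩ := c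
    right
    left
    exact ⟨v, htw (w := w) hv ⟨w, h1⟩, w, htw (w := v) hw ⟨v, (stTwHL_5 G).symm _ _ h1⟩, h1, h3,
      h4, h5⟩
  · obtain ⟨a, b, h1, h2, h3, ⟨-, h4⟩ | ⟨h4, h5⟩⟩ := c
    · exact absurd (s.lowF h4 h1.2.1 ▸ h2) (G.irr _)
    · exact Or.inr (Or.inr (Or.inl ⟨a, h4, b, h5, h1, h2, h3⟩))
  · obtain ⟨a, b, h1, h2, h3, ⟨-, h4⟩ | ⟨h4, h5⟩⟩ := c
    · exact absurd (s.lowF h4 h1.2.1).symm (HL_bt76 h1).2
    · exact Or.inr (Or.inr (Or.inr (Or.inl ⟨a, h4, b, h5, h1, h2, h3⟩)))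
  · obtain ⟨a, b, h1, ⟨h4, h5⟩ | ⟨h4, h5⟩⟩ := c
    · have e1 := s.lowF h4 h1.1
      have e2 := s.lowF h5 h1.2.1
      exact absurd (LL_ab76 h1) (by rw [e1, e2]; exact G.irr _)
    · exact Or.inr (Or.inr (Or.inr (Or.inr ⟨a, h4, b, h5, h1⟩)))

/-- covers of the edges at a hub of `F` -/
theorem covh (s : S4_38 G F l) {z y : V} (hz : z ∈ F) (hzl : z ≠ l) (hyF : y ∈ G.N F)
    (hy : y ∈ G.nb z) :
    (∃ w ∈ G.N F, G.Low w ∧ z ∈ G.nb w ∧ y ∈ G.nb w) ∨ (z ∈ G.nb l ∧ y ∈ G.nb l) ∨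
    (∃ v ∈ G.N F, ∃ w ∈ G.N F, G.Tw v w ∧ y ∈ G.nb v ∧ y ∈ G.nb w) ∨
    (∃ a ∈ G.N F, ∃ b ∈ G.N F, G.HL a b y ∧ z ∈ G.nb b ∧ z ∈ G.nb a) ∨
    (∃ a ∈ F, G.HL a l y ∧ z ∈ G.nb l ∧ z ∈ G.nb a) ∨
    (∃ a ∈ G.N F, ∃ b ∈ G.N F, G.LL a b z y) := by
  have htw : ∀ {x w : V}, x ∈ F ∪ G.N F → G.IsTw x → x ∈ G.N F := by
    intro x _ hx ht
    rcases mem_union.1 hx with h1 | h1
    · exact absurd ht (s.twF h1)
    · exact h1
  have hzh := s.hub z hz hzl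
  rcases s.h.1.cov z hz y (mem_union_right _ hyF) hy with c | c | c | c | c
  · obtain ⟨w, hw, h1, h2, h3⟩ := c
    rcases mem_union.1 hw with h4 | h4
    · have e1 := s.lowF h4 h1
      subst e1
      exact Or.inr (Or.inl ⟨h2, h3⟩)
    · exact Or.inl ⟨w, h4, h1, h2, h3⟩
  · obtain ⟨v, hv, w, hw, h1, -, -, h4, h5⟩ := c
    exact Or.inr (Or.inr (Or.inl ⟨v, htw (w := w) hv ⟨w, h1⟩, w,
      htw (w := v) hw ⟨v, (stTwHL_5 G).symm _ _ h1⟩, h1, h4, h5⟩))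
  · obtain ⟨a, b, h1, h2, h3, ⟨h4, h5⟩ | ⟨h4, h5⟩⟩ := c
    · have e1 := s.lowF h5 h1.2.1
      subst e1
      exact Or.inr (Or.inr (Or.inr (Or.inr (Or.inl ⟨a, h4, h1, h2, h3⟩))))
    · exact Or.inr (Or.inr (Or.inr (Or.inl ⟨a, h4, b, h5, h1, h2, h3⟩)))
  · obtain ⟨a, b, h1, -⟩ := c
    exact absurd (s.h.1.sat _ _ _ h1) hzh.1
  · obtain ⟨a, b, h1, ⟨h4, h5⟩ | ⟨h4, h5⟩⟩ := c
    · have e1 := s.lowF h4 h1.1
      have e2 := s.lowF h5 h1.2.1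
      exact absurd (LL_ab76 h1) (by rw [e1, e2]; exact G.irr _)
    · exact Or.inr (Or.inr (Or.inr (Or.inr (Or.inr ⟨a, h4, b, h5, h1⟩))))

/-- a vertex of `N F` which is not low has a low neighbour or a pair of twins as neighbours -/
theorem cls (s : S4_38 G F l) (hb : G.StLBas) {v : V} (hv : v ∈ G.N F) (hn : ¬ G.Low v) :
    (∃ w ∈ G.N F, G.Low w ∧ v ∈ G.nb w) ∨
    (∃ x ∈ G.N F, ∃ w ∈ G.N F, G.Tw x w ∧ v ∈ G.nb x ∧ v ∈ G.nb w) := by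
  by_cases hvl : v ∈ G.nb l
  · rcases s.covl (mem_union_right _ hv) hvl with c | c | c | c | c
    · obtain ⟨w, h1, h2, -, h3⟩ := c
      exact Or.inl ⟨w, h1, h2, h3⟩
    · obtain ⟨x, h1, w, h2, h3, -, h4, h5⟩ := c
      exact Or.inr ⟨x, h1, w, h2, h3, h4, h5⟩
    · obtain ⟨a, -, b, -, h1, -⟩ := c
      exact absurd (s.h.1.sat _ _ _ h1) hn
    · obtain ⟨a, -, b, h1, h2, h3, -⟩ := c
      exact Or.inl ⟨b, h1, h2.2.1, h3⟩
    · obtain ⟨a, -, b, h1, h2⟩ := c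
      exact Or.inl ⟨b, h1, h2.2.1, LL_u76 h2⟩
  · have h2 := hb.pos F s.h.1 v hv
    obtain ⟨z, hz⟩ := card_pos.1 (show 0 < (G.nb v ∩ F).card by
      have : (G.nb v ∩ F).card = G.d v F := rfl
      omega)
    obtain ⟨hz1, hz2⟩ := mem_inter.1 hz
    have hzl : z ≠ l := by
      rintro rfl
      exact hvl (G.sym _ _ hz1)
    rcases s.covh hz2 hzl hv (G.sym _ _ hz1) with c | c | c | c | c | c
    · obtain ⟨w, h1, h2, -, h3⟩ := c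
      exact Or.inl ⟨w, h1, h2, h3⟩
    · exact absurd c.2 hvl
    · exact Or.inr c
    · obtain ⟨a, -, b, -, h1, -⟩ := c
      exact absurd (s.h.1.sat _ _ _ h1) hn
    · obtain ⟨a, -, h1, -⟩ := c
      exact absurd (s.h.1.sat _ _ _ h1) hn
    · obtain ⟨a, -, b, h1, h2⟩ := c
      exact Or.inl ⟨b, h1, h2.2.1, LL_u76 h2⟩

/-- twins of `N F`: three neighbours in `F`, one low neighbour in `N F` -/
theorem tw (s : S4_38 G F l) (hb : G.StLBas) (hB : G.StLB) (h7 : G.St7Bas) {P P' : V}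
    (hP : P ∈ G.N F) (ht : G.Tw P P') : ∃ w ∈ G.N F, G.Low w ∧ w ∈ G.nb P ∧
      G.pT F P = {P', w} ∧ G.d P F = 3 := by
  have hP' := (hb.twT F s.h.1 P P' ht).1 hP
  obtain ⟨g1, -⟩ := h7.tw3 F s.h P hP ⟨P', ht⟩
  obtain ⟨-, -, -, g2, -⟩ := hB.tw F s.h.1 P hP ⟨P', ht⟩
  have hPn : ¬ G.Low P := not_low33 ⟨P', ht⟩
  have hm : P' ∈ G.pT F P := mem_inter.2 ⟨ht.1, hP'⟩
  have key : ∀ w ∈ G.N F, w ∈ G.nb P → w ≠ P' → G.pT F P = {P', w} ∧ G.d P F = 3 := by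
    intro w hw h1 h2
    have hsub : ({P', w} : Finset V) ⊆ G.pT F P := by
      intro x hx
      rw [mem_insert, mem_singleton] at hx
      rcases hx with rfl | rfl
      · exact hm
      · exact mem_inter.2 ⟨h1, hw⟩
    have h3 := card_le_card hsub
    rw [card_pair h2.symm] at h3
    refine ⟨(eq_of_subset_of_card_le hsub ?_).symm, by omega⟩
    rw [card_pair h2.symm]
    omega
  rcases s.cls hb hP hPn with ⟨w, h1, h2, h3⟩ | ⟨x, h1, w, h2, h3, h4, h5⟩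
  · have h4 : w ≠ P' := by
      rintro rfl
      exact not_low33 ⟨P, (stTwHL_5 G).symm _ _ ht⟩ h2
    exact ⟨w, h1, h2, G.sym _ _ h3, key w h1 (G.sym _ _ h3) h4⟩
  · exfalso
    have hx : x ≠ P' := by
      rintro rfl
      have := (stTwHL_5 G).uniq s.n9 _ _ _ ((stTwHL_5 G).symm _ _ ht) h3
      subst this
      exact G.irr _ h5
    have hw : w ≠ P' := by
      rintro rfl
      have := (stTwHL_5 G).uniq s.n9 _ _ _ ((stTwHL_5 G).symm _ _ ht)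
        ((stTwHL_5 G).symm _ _ h3)
      subst this
      exact G.irr _ h4
    have k1 := (key x h1 (G.sym _ _ h4) hx).1
    have k2 : w ∈ G.pT F P := mem_inter.2 ⟨G.sym _ _ h5, h2⟩
    rw [k1, mem_insert, mem_singleton] at k2
    rcases k2 with k2 | k2
    · exact hw k2
    · exact (ne_of_nb5 h3.1) k2.symm

/-- (N) -/
theorem ln (s : S4_38 G F l) (hb : G.StLBas) (hB : G.StLB) (h7 : G.St7Bas) :
    ∀ v ∈ G.NoT F, 1 ≤ G.Ln F v := by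
  intro v hv
  obtain ⟨hvN, hvl⟩ := mem_NoT38.1 hv
  rw [Ln, Nat.succ_le_iff, card_pos]
  rcases s.cls hb hvN hvl with ⟨w, h1, h2, h3⟩ | ⟨x, h1, w, h2, h3, h4, h5⟩
  · exact ⟨w, mem_inter.2 ⟨G.sym _ _ h3, mem_LoT38.2 ⟨h1, h2⟩⟩⟩
  · exfalso
    obtain ⟨d0, -, k2, -, k4, -⟩ := s.tw hb hB h7 h1 h3
    have k5 : v ∈ G.pT F x := mem_inter.2 ⟨h4, hvN⟩
    rw [k4, mem_insert, mem_singleton] at k5
    rcases k5 with k5 | k5
    · subst k5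
      exact G.irr _ h5
    · exact hvl (k5 ▸ k2)

end S4_38

end CG

end Pool.Agent.Lib.MP_e95c01_co.N
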