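import Pool.Agent.Lib.MP_e95c01_co.X.J4a_38

/-!
# J4: leaves with a low vertex and four hubs, twins in the neighbourhood
-/

namespace Pool.Agent.Lib.MP_e95c01_co.N

open Finset

variable {V : Type} [Fintype V] [DecidableEq V]

namespace CG

variable {G : CG V} {F : Finset V} {l : V}

namespace S4_38

/-- the excess of a vertex of `N F` -/
noncomputable def ex (G : CG V) (F : Finset V) (w : V) : ℤ :=
  G.gam5 F w - 2 - 2 * ((G.pT F w).card : ℤ)

theorem ex_nn (s : S4_38 G F l) (hb : G.StLBas) (hB : G.StLB) (h7 : G.St7Bas) {w : V}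
    (hw : w ∈ G.LoT F) : 0 ≤ ex G F w := by
  obtain ⟨h1, h2⟩ := mem_LoT38.1 hw
  have h3 := (low5_38 hB hb h7 s.h h1 h2).2.1
  rw [ex]
  split_ifs at h3 <;> linarith

/-- (F6) -/
theorem f6 (s : S4_38 G F l) (hb : G.StLBas) (hB : G.StLB) (h7 : G.St7Bas) :
    12 + ∑ w ∈ G.LoT F, ex G F w + 2 * ∑ w ∈ G.LoT F, (G.Ln F w : ℤ) +
      2 * ∑ v ∈ G.NoT F, ((G.Ln F v : ℤ) - 1) + ∑ v ∈ G.NoT F, G.gam5 F v ≤
      ∑ w ∈ G.N F, G.gam5 F w := by
  refine F6_38 F s.h.1.big.1.2.1 _ (fun w _ _ => ?_) (s.ln hb hB h7)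
  rw [ex]
  linarith

theorem sums_nn (s : S4_38 G F l) (hb : G.StLBas) (hB : G.StLB) (h7 : G.St7Bas) :
    0 ≤ ∑ w ∈ G.LoT F, ex G F w ∧ 0 ≤ ∑ w ∈ G.LoT F, (G.Ln F w : ℤ) ∧
      0 ≤ ∑ v ∈ G.NoT F, ((G.Ln F v : ℤ) - 1) ∧ 0 ≤ ∑ v ∈ G.NoT F, G.gam5 F v := by
  refine ⟨sum_nonneg fun w hw => s.ex_nn hb hB h7 hw, sum_nonneg fun w _ => by positivity,
    sum_nonneg fun v hv => ?_, sum_nonneg fun v hv => h7.nn F s.h v (mem_NoT38.1 hv).1⟩
  have := s.ln hb hB h7 v hv
  have h1 : (1 : ℤ) ≤ G.Ln F v := by exact_mod_cast this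
  linarith

/-- degree of `l` -/
theorem degl (s : S4_38 G F l) (hb : G.StLBas) : G.d l F + (G.Tz F l).card = 6 := by
  have h1 := hb.deg F s.h.1 l s.lF
  have h2 : (G.nb l).card = 6 := s.low
  omega

/-- degree of a hub of `F` -/
theorem degh (s : S4_38 G F l) (hb : G.StLBas) {z : V} (hz : z ∈ F) (hzl : z ≠ l) :
    7 ≤ G.d z F + (G.Tz F z).card := by
  have h1 := hb.deg F s.h.1 z hz
  have h2 := G.deg z
  have h3 : (G.nb z).card ≠ 6 := (s.hub z hz hzl).1
  omega

/-- twins in `N F` -/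
theorem pairs (s : S4_38 G F l) (hb : G.StLBas) (hB : G.StLB) (h7 : G.St7Bas) {P P' : V}
    (hP : P ∈ G.N F) (ht : G.Tw P P') : 20 ≤ ∑ w ∈ G.N F, G.gam5 F w := by
  have ht' := (stTwHL_5 G).symm _ _ ht
  have hP' := (hb.twT F s.h.1 P P' ht).1 hP
  obtain ⟨d0, m0, l0, a0, e0, f0⟩ := s.tw hb hB h7 hP ht
  have hPP : P ≠ P' := ne_of_nb5 ht.1
  have nd0 : d0 ≠ P' := by
    rintro rfl
    exact not_low33 ⟨P, ht'⟩ l0
  have nd0' : d0 ≠ P := by
    rintro rfl
    exact not_low33 ⟨P', ht⟩ l0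
  have a0' : d0 ∈ G.nb P' := Tw_nb5 ht a0 nd0
  -- neighbours of `P` in `N F`
  have nP : ∀ w ∈ G.N F, P ∈ G.nb w → G.Low w → w = d0 := by
    intro w hw h1 h2
    have h3 : w ∈ G.pT F P := mem_inter.2 ⟨G.sym _ _ h1, hw⟩
    rw [e0, mem_insert, mem_singleton] at h3
    rcases h3 with h3 | h3
    · exact absurd h2 (h3 ▸ not_low33 ⟨P, ht'⟩)
    · exact h3
  have nP2 : ∀ w ∈ G.N F, P ∈ G.nb w → w = P' ∨ w = d0 := by
    intro w hw h1
    have h3 : w ∈ G.pT F P := mem_inter.2 ⟨G.sym _ _ h1, hw⟩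
    rw [e0, mem_insert, mem_singleton] at h3
    exact h3
  have hd0 := low5_38 hB hb h7 s.h m0 l0
  have p1 : P ∈ G.pT F d0 := mem_inter.2 ⟨G.sym _ _ a0, hP⟩
  have p2 : P' ∈ G.pT F d0 := mem_inter.2 ⟨G.sym _ _ a0', hP'⟩
  have p3 : ({P, P'} : Finset V) ⊆ G.pT F d0 := by
    intro x hx
    rw [mem_insert, mem_singleton] at hx
    rcases hx with rfl | rfl <;> assumption
  have p4 := card_le_card p3
  rw [card_pair hPP] at p4
  obtain ⟨⟨q1, q2, q3⟩, q4, q5⟩ := hd0
  have hdd : G.d d0 F = 3 ∨ G.d d0 F = 2 := by omega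
  rcases hdd with hdd | hdd
  · -- the excess of `d0`
    have h1 : G.pT F d0 = {P, P'} := by
      symm
      apply eq_of_subset_of_card_le p3
      rw [card_pair hPP]
      omega
    have h2 := q5 hdd ⟨P, P', ht, h1⟩
    have h3 : 6 ≤ ex G F d0 := by
      rw [ex, h1, card_pair hPP]
      push_cast
      linarith
    have h4 := term1_38 (g := fun w => ex G F w) (fun v hv => s.ex_nn hb hB h7 hv)
      (mem_LoT38.2 ⟨m0, l0⟩)
    have h5 : ∀ x y : V, G.Tw x y → x ∈ G.N F → G.d x F = 3 → G.pT F x = {y, d0} →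
        d0 ≠ y → 1 ≤ G.gam5 F x := by
      intro x y hxy hx hd hp hn
      have h6 := (hB.tw F s.h.1 x hx ⟨y, hxy⟩).2.2.2.2.1 (by omega)
      rw [hd, hp, card_pair hn.symm] at h6
      push_cast at h6
      linarith
    obtain ⟨d1, -, l1, -, e1, f1⟩ := s.tw hb hB h7 hP' ht'
    have h6 : d1 = d0 := by
      have : d0 ∈ G.pT F P' := mem_inter.2 ⟨a0', m0⟩
      rw [e1, mem_insert, mem_singleton] at this
      rcases this with h | h
      · exact absurd h nd0'
      · exact h.symm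
    subst h6
    have h7' := h5 P P' ht hP f0 e0 nd0
    have h8 := h5 P' P ht' hP' f1 e1 nd0'
    have h9 := term2_38 (S := G.NoT F) (g := fun w => G.gam5 F w)
      (fun v hv => h7.nn F s.h v (mem_NoT38.1 hv).1)
      (mem_NoT38.2 ⟨hP, not_low33 ⟨P', ht⟩⟩) (mem_NoT38.2 ⟨hP', not_low33 ⟨P, ht'⟩⟩) hPP
    have h10 := s.f6 hb hB h7
    obtain ⟨-, n2, n3, -⟩ := s.sums_nn hb hB h7
    linarith
  · exfalso
    -- hubs of `F` adjacent to `P` and not to `l`
    have hub1 : ∀ z ∈ F, z ≠ l → P ∈ G.nb z → ¬ (z ∈ G.nb l ∧ P ∈ G.nb l) → z ∈ G.nb d0 := by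
      intro z hz hzl hzP hno
      rcases s.covh hz hzl hP hzP with c | c | c | c | c | c
      · obtain ⟨w, h1, h2, h3, h4⟩ := c
        rw [← nP w h1 h4 h2]
        exact h3
      · exact absurd c hno
      · obtain ⟨x, h1, w, h2, h3, h4, h5⟩ := c
        exfalso
        rcases nP2 x h1 h4 with h6 | h6
        · subst h6
          have := (stTwHL_5 G).uniq s.n9 _ _ _ ht' h3
          subst this
          exact G.irr _ h5
        · subst h6
          exact not_low33 ⟨w, h3⟩ l0
      · obtain ⟨a, -, b, -, h1, -⟩ := c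
        exact absurd (s.h.1.sat _ _ _ h1) (not_low33 ⟨P', ht⟩)
      · obtain ⟨a, -, h1, -⟩ := c
        exact absurd (s.h.1.sat _ _ _ h1) (not_low33 ⟨P', ht⟩)
      · obtain ⟨a, -, b, -, h1⟩ := c
        exact absurd ⟨P', ht⟩ ((stTwHL_5 G).twLL _ _ _ _ h1).2
    have hdF : (G.nb P ∩ F).card = 3 := f0
    have hdF0 : (G.nb d0 ∩ F).card = 2 := hdd
    have hPl : P ∈ G.nb l := by
      by_contra hno
      have hsub : G.nb P ∩ F ⊆ G.nb d0 ∩ F := by
        intro z hz
        obtain ⟨h1, h2⟩ := mem_inter.1 hz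
        refine mem_inter.2 ⟨hub1 z h2 ?_ (G.sym _ _ h1) fun h => hno h.2, h2⟩
        rintro rfl
        exact hno (G.sym _ _ h1)
      have := card_le_card hsub
      omega
    have hdl : l ∈ G.nb d0 := by
      rcases s.covl (mem_union_right _ hP) hPl with c | c | c | c | c
      · obtain ⟨w, h1, h2, h3, h4⟩ := c
        rw [← nP w h1 h4 h2]
        exact h3
      · obtain ⟨x, h1, w, h2, h3, -, h4, h5⟩ := c
        exfalso
        rcases nP2 x h1 h4 with h6 | h6
        · subst h6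
          have := (stTwHL_5 G).uniq s.n9 _ _ _ ht' h3
          subst this
          exact G.irr _ h5
        · subst h6
          exact not_low33 ⟨w, h3⟩ l0
      · obtain ⟨a, -, b, -, h1, -⟩ := c
        exact absurd (s.h.1.sat _ _ _ h1) (not_low33 ⟨P', ht⟩)
      · obtain ⟨a, h1, b, h2, h3, h4, h5⟩ := c
        exfalso
        rcases nP2 a h1 h5 with h6 | h6
        · subst h6
          exact (stTwHL_5 G).notHL s.n9 _ _ _ h3 ⟨P, ht'⟩
        · subst h6
          exact HL_not_low76 h3 l0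
      · obtain ⟨a, -, b, -, h1⟩ := c
        exact absurd ⟨P', ht⟩ ((stTwHL_5 G).twLL _ _ _ _ h1).2
    -- expansion of `{P, P', d0}`
    have hex : ∃ z ∈ G.nb d0 ∩ F, z ∉ G.nb P := by
      by_contra hno
      push Not at hno
      have hZ : ({P, P', d0} : Finset V) ⊆ G.N F := by
        intro x hx
        simp only [mem_insert, mem_singleton] at hx
        rcases hx with rfl | rfl | rfl <;> assumption
      have hZc : ({P, P', d0} : Finset V).card = 3 := by
        rw [card_insert_of_notMem, card_pair nd0.symm]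
        simp only [mem_insert, mem_singleton, not_or]
        exact ⟨hPP, nd0'.symm⟩
      have hsub : G.N {P, P', d0} ∩ F ⊆ G.nb P ∩ F := by
        intro x hx
        obtain ⟨h1, h2⟩ := mem_inter.1 hx
        obtain ⟨-, y, h3, h4⟩ := mem_N76.1 h1
        simp only [mem_insert, mem_singleton] at h3
        rcases h3 with rfl | rfl | rfl
        · exact mem_inter.2 ⟨h4, h2⟩
        · refine mem_inter.2 ⟨Tw_nb5 ht' h4 ?_, h2⟩
          rintro rfl
          exact (mem_N76.1 hP).1 h2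
        · exact mem_inter.2 ⟨hno x (mem_inter.2 ⟨h4, h2⟩), h2⟩
      have hc := card_le_card hsub
      have hc' := h7.three' F s.h _ hZ hZc
      obtain ⟨x, y, hxy, h1, h2, -⟩ := h7.three F s.h _ hZ hZc (by omega)
      have hlN : l ∈ G.N {P, P', d0} := by
        refine mem_N76.2 ⟨?_, P, by simp, G.sym _ _ hPl⟩
        intro hl
        exact (mem_N76.1 (hZ hl)).1 s.lF
      have hFZ : ∀ x ∈ G.FZ F {P, P', d0}, G.Hub x := by
        intro x hx
        rw [FZ, mem_sdiff] at hx
        refine s.hub x hx.1 ?_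
        rintro rfl
        exact hx.2 hlN
      exact h2 ⟨hFZ x (by rw [h1]; exact mem_insert_self _ _),
        hFZ y (by rw [h1]; exact mem_insert_of_mem (mem_singleton_self _))⟩
    obtain ⟨h, hh, hhP⟩ := hex
    obtain ⟨hh1, hhF⟩ := mem_inter.1 hh
    have hlh : l ≠ h := by
      rintro rfl
      exact hhP (G.sym _ _ hPl)
    have hd0F : G.nb d0 ∩ F = {l, h} := by
      symm
      apply eq_of_subset_of_card_le
      · intro x hx
        rw [mem_insert, mem_singleton] at hx
        rcases hx with rfl | rfl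
        · exact mem_inter.2 ⟨hdl, s.lF⟩
        · exact hh
      · rw [card_pair hlh, hdF0]
    -- the fifth vertex
    have hlP : l ∈ G.nb P ∩ F := mem_inter.2 ⟨G.sym _ _ hPl, s.lF⟩
    have hcF : (insert h (G.nb P ∩ F)).card = 4 := by
      rw [card_insert_of_notMem, hdF]
      intro h1
      exact hhP (mem_inter.1 h1).1
    have hsF : insert h (G.nb P ∩ F) ⊆ F := by
      intro x hx
      rcases mem_insert.1 hx with rfl | hx
      · exact hhF
      · exact (mem_inter.1 hx).2
    obtain ⟨g, hg⟩ := card_eq_one.1 (show (F \ insert h (G.nb P ∩ F)).card = 1 by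
      rw [card_sdiff_of_subset hsF, hcF, s.h.2])
    have hgm : g ∈ F \ insert h (G.nb P ∩ F) := by rw [hg]; exact mem_singleton_self _
    obtain ⟨hgF, hgn⟩ := mem_sdiff.1 hgm
    rw [mem_insert, not_or] at hgn
    have hgP : g ∉ G.nb P := fun h1 => hgn.2 (mem_inter.2 ⟨h1, hgF⟩)
    have hgl : g ≠ l := by
      rintro rfl
      exact hgP (G.sym _ _ hPl)
    have hgP' : g ∉ G.nb P' := by
      intro h1
      refine hgP (Tw_nb5 ht' h1 ?_)
      rintro rfl
      exact (mem_N76.1 hP).1 hgF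
    have hgd : g ∉ G.nb d0 := by
      intro h1
      have h2 : g ∈ G.nb d0 ∩ F := mem_inter.2 ⟨h1, hgF⟩
      rw [hd0F, mem_insert, mem_singleton] at h2
      rcases h2 with h2 | h2
      · exact hgl h2
      · exact hgn.1 h2
    have hZ3 : ({P, P', d0} : Finset V) ⊆ G.N F := by
      intro x hx
      simp only [mem_insert, mem_singleton] at hx
      rcases hx with rfl | rfl | rfl <;> assumption
    have hZc : ({P, P', d0} : Finset V).card = 3 := by
      rw [card_insert_of_notMem, card_pair nd0.symm]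
      simp only [mem_insert, mem_singleton, not_or]
      exact ⟨hPP, nd0'.symm⟩
    have hTg : (G.Tz F g).card ≤ 3 := by
      have h1 : G.Tz F g ⊆ G.N F \ {P, P', d0} := by
        intro x hx
        obtain ⟨h2, h3⟩ := mem_inter.1 hx
        refine mem_sdiff.2 ⟨h3, ?_⟩
        simp only [mem_insert, mem_singleton, not_or]
        refine ⟨?_, ?_, ?_⟩
        · rintro rfl
          exact hgP (G.sym _ _ h2)
        · rintro rfl
          exact hgP' (G.sym _ _ h2)
        · rintro rfl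
          exact hgd (G.sym _ _ h2)
      have h2 := card_le_card h1
      rw [card_sdiff_of_subset hZ3, hZc, s.h.1.big.1.2.1] at h2
      exact h2
    have hg7 := s.degh hb hgF hgl
    have hgF4 : G.nb g ∩ F = F.erase g := by
      apply eq_of_subset_of_card_le
      · intro x hx
        obtain ⟨h2, h3⟩ := mem_inter.1 hx
        exact mem_erase.2 ⟨(ne_of_nb5 h2).symm, h3⟩
      · rw [card_erase_of_mem hgF, s.h.2]
        have : (G.nb g ∩ F).card = G.d g F := rfl
        omega
    have hgl2 : g ∈ G.nb l := by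
      have : l ∈ G.nb g ∩ F := by rw [hgF4]; exact mem_erase.2 ⟨hgl.symm, s.lF⟩
      exact G.sym _ _ (mem_inter.1 this).1
    -- `l` has three neighbours in `F`
    have hl3 : 3 ≤ G.d l F := by
      have h1 : insert g ((G.nb P ∩ F).erase l) ⊆ G.nb l ∩ F := by
        intro x hx
        rcases mem_insert.1 hx with rfl | hx
        · exact mem_inter.2 ⟨hgl2, hgF⟩
        · obtain ⟨h2, h3⟩ := mem_erase.1 hx
          obtain ⟨h4, h5⟩ := mem_inter.1 h3
          refine mem_inter.2 ⟨?_, h5⟩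
          by_contra h6
          have h7 := hub1 x h5 h2 (G.sym _ _ h4) fun h => h6 h.1
          have h8 : x ∈ G.nb d0 ∩ F := mem_inter.2 ⟨h7, h5⟩
          rw [hd0F, mem_insert, mem_singleton] at h8
          rcases h8 with h8 | h8
          · exact h2 h8
          · exact hhP (h8 ▸ h4)
      have h2 := card_le_card h1
      rw [card_insert_of_notMem, card_erase_of_mem hlP, hdF] at h2
      · exact h2
      · intro h3
        exact hgP (mem_inter.1 (mem_erase.1 h3).2).1
    have hX3 : ({P, P', d0} : Finset V) ⊆ G.Tz F l := by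
      intro x hx
      refine mem_inter.2 ⟨?_, hZ3 hx⟩
      simp only [mem_insert, mem_singleton] at hx
      rcases hx with rfl | rfl | rfl
      · exact hPl
      · refine G.sym _ _ (Tw_nb5 ht (G.sym _ _ hPl) ?_)
        rintro rfl
        exact (mem_N76.1 hP').1 s.lF
      · exact G.sym _ _ hdl
    have hl6 := s.degl hb
    have hX : G.Tz F l = {P, P', d0} := by
      symm
      apply eq_of_subset_of_card_le hX3
      rw [hZc]
      omega
    have memX : ∀ w ∈ G.N F, l ∈ G.nb w → w = P ∨ w = P' ∨ w = d0 := by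
      intro w hw h1
      have : w ∈ G.Tz F l := mem_inter.2 ⟨G.sym _ _ h1, hw⟩
      rw [hX] at this
      simpa only [mem_insert, mem_singleton] using this
    rcases s.covl (mem_union_left _ hgF) hgl2 with c | c | c | c | c
    · obtain ⟨w, h1, h2, h3, h4⟩ := c
      rcases memX w h1 h3 with rfl | rfl | rfl
      · exact not_low33 ⟨P', ht⟩ h2
      · exact not_low33 ⟨P, ht'⟩ h2
      · exact hgd h4
    · obtain ⟨x, h1, w, h2, h3, h4, h5, h6⟩ := c
      rcases memX x h1 h4 with rfl | rfl | rfl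
      · exact hgP h5
      · exact hgP' h5
      · exact not_low33 ⟨w, h3⟩ l0
    · obtain ⟨a, -, b, -, h1, -⟩ := c
      exact (s.hub g hgF hgl).1 (s.h.1.sat _ _ _ h1)
    · obtain ⟨a, h1, b, h2, h3, h4, h5⟩ := c
      rcases memX a h1 (HL_t76 h3) with rfl | rfl | rfl
      · exact (stTwHL_5 G).notHL s.n9 _ _ _ h3 ⟨P', ht⟩
      · exact (stTwHL_5 G).notHL s.n9 _ _ _ h3 ⟨P, ht'⟩
      · exact HL_not_low76 h3 l0
    · obtain ⟨a, h1, b, h2, h3⟩ := c
      rcases memX a h1 (LL_t76 h3) with rfl | rfl | rfl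
      · exact not_low33 ⟨P', ht⟩ h3.1
      · exact not_low33 ⟨P, ht'⟩ h3.1
      · have hPl' : P ≠ l := by
          rintro rfl
          exact (mem_N76.1 hP).1 s.lF
        rcases LL_to76 h3 (G.sym _ _ a0) hPl' with h4 | h4
        · exact not_low33 ⟨P', ht⟩ (h4 ▸ h3.2.1)
        · have := nP b h2 h4 h3.2.1
          subst this
          exact G.irr _ (LL_ab76 h3)

end S4_38

end CG

end Pool.Agent.Lib.MP_e95c01_co.N
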