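import Pool.Agent.Lib.MP_e95c01_co.X.J4b_38

/-!
# J4: leaves with a low vertex and four hubs, no twins in the neighbourhood
-/

namespace Pool.Agent.Lib.MP_e95c01_co.N

open Finset

variable {V : Type} [Fintype V] [DecidableEq V]

namespace CG

variable {G : CG V} {F : Finset V} {l : V}

/-- two different edges between low vertices of `N F` -/
theorem twoE38 {p q r s : V} (hp : p ∈ G.LoT F) (hq : q ∈ G.LoT F) (hr : r ∈ G.LoT F)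
    (hs : s ∈ G.LoT F) (hpq : q ∈ G.nb p) (hrs : s ∈ G.nb r) (h1 : ¬ (p = r ∧ q = s))
    (h2 : ¬ (p = s ∧ q = r)) : 4 ≤ ∑ w ∈ G.LoT F, (G.Ln F w : ℤ) := by
  have e1 : ∑ w ∈ G.LoT F, G.Ln F w =
      ((G.LoT F ×ˢ G.LoT F).filter fun x => x.2 ∈ G.nb x.1).card := by
    rw [card_filter, sum_product]
    refine sum_congr rfl fun w _ => ?_
    rw [Ln, inter_comm, ← filter_mem_eq_inter, card_filter]
  have hne1 := ne_of_nb5 hpq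
  have hne2 := ne_of_nb5 hrs
  have e2 : ({(p, q), (q, p), (r, s), (s, r)} : Finset (V × V)).card = 4 := by
    rw [card_insert_of_notMem, card_insert_of_notMem, card_pair]
    · intro h
      rw [Prod.mk.injEq] at h
      exact hne2 h.1
    · simp only [mem_insert, mem_singleton, Prod.mk.injEq, not_or]
      exact ⟨fun h => h2 ⟨h.2, h.1⟩, fun h => h1 ⟨h.2, h.1⟩⟩
    · simp only [mem_insert, mem_singleton, Prod.mk.injEq, not_or]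
      exact ⟨fun h => hne1 h.1, h1, h2⟩
  have e3 : ({(p, q), (q, p), (r, s), (s, r)} : Finset (V × V)) ⊆
      (G.LoT F ×ˢ G.LoT F).filter fun x => x.2 ∈ G.nb x.1 := by
    intro x hx
    simp only [mem_insert, mem_singleton] at hx
    rcases hx with rfl | rfl | rfl | rfl
    · exact mem_filter.2 ⟨mem_product.2 ⟨hp, hq⟩, hpq⟩
    · exact mem_filter.2 ⟨mem_product.2 ⟨hq, hp⟩, G.sym _ _ hpq⟩
    · exact mem_filter.2 ⟨mem_product.2 ⟨hr, hs⟩, hrs⟩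
    · exact mem_filter.2 ⟨mem_product.2 ⟨hs, hr⟩, G.sym _ _ hrs⟩
  have e4 := card_le_card e3
  rw [e2, ← e1] at e4
  exact_mod_cast e4

namespace S4_38

/-- covers at `l`, no twins -/
theorem covl' (s : S4_38 G F l) (nt : ∀ v ∈ G.N F, ¬ G.IsTw v) {y : V} (hyF : y ∈ F ∪ G.N F)
    (hy : y ∈ G.nb l) :
    (∃ w ∈ G.LoT F, l ∈ G.nb w ∧ y ∈ G.nb w) ∨
    (∃ a ∈ G.N F, ∃ b ∈ G.LoT F, G.HL a b y ∧ l ∈ G.nb b ∧ l ∈ G.nb a) ∨
    (∃ a ∈ G.N F, ∃ b ∈ G.LoT F, G.HL a b l ∧ y ∈ G.nb b ∧ y ∈ G.nb a) ∨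
    (∃ a ∈ G.LoT F, ∃ b ∈ G.LoT F, G.LL a b l y) := by
  rcases s.covl hyF hy with c | c | c | c | c
  · obtain ⟨w, h1, h2, h3⟩ := c
    exact Or.inl ⟨w, mem_LoT38.2 ⟨h1, h2⟩, h3⟩
  · obtain ⟨v, h1, w, -, h2, -⟩ := c
    exact absurd ⟨w, h2⟩ (nt v h1)
  · obtain ⟨a, h1, b, h2, h3, h4⟩ := c
    exact Or.inr (Or.inl ⟨a, h1, b, mem_LoT38.2 ⟨h2, h3.2.1⟩, h3, h4⟩)
  · obtain ⟨a, h1, b, h2, h3, h4⟩ := c
    exact Or.inr (Or.inr (Or.inl ⟨a, h1, b, mem_LoT38.2 ⟨h2, h3.2.1⟩, h3, h4⟩))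
  · obtain ⟨a, h1, b, h2, h3⟩ := c
    exact Or.inr (Or.inr (Or.inr ⟨a, mem_LoT38.2 ⟨h1, h3.1⟩, b, mem_LoT38.2 ⟨h2, h3.2.1⟩, h3⟩))

/-- covers at a hub of `F`, no twins -/
theorem covh' (s : S4_38 G F l) (nt : ∀ v ∈ G.N F, ¬ G.IsTw v) {z y : V} (hz : z ∈ F)
    (hzl : z ≠ l) (hyF : y ∈ G.N F) (hy : y ∈ G.nb z) :
    (∃ w ∈ G.LoT F, z ∈ G.nb w ∧ y ∈ G.nb w) ∨ (z ∈ G.nb l ∧ y ∈ G.nb l) ∨
    (∃ a ∈ G.N F, ∃ b ∈ G.LoT F, G.HL a b y ∧ z ∈ G.nb b ∧ z ∈ G.nb a) ∨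
    (∃ a ∈ F, G.HL a l y ∧ z ∈ G.nb l ∧ z ∈ G.nb a) ∨
    (∃ a ∈ G.LoT F, ∃ b ∈ G.LoT F, G.LL a b z y) := by
  rcases s.covh hz hzl hyF hy with c | c | c | c | c | c
  · obtain ⟨w, h1, h2, h3⟩ := c
    exact Or.inl ⟨w, mem_LoT38.2 ⟨h1, h2⟩, h3⟩
  · exact Or.inr (Or.inl c)
  · obtain ⟨v, h1, w, -, h2, -⟩ := c
    exact absurd ⟨w, h2⟩ (nt v h1)
  · obtain ⟨a, h1, b, h2, h3, h4⟩ := c
    exact Or.inr (Or.inr (Or.inl ⟨a, h1, b, mem_LoT38.2 ⟨h2, h3.2.1⟩, h3, h4⟩))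
  · exact Or.inr (Or.inr (Or.inr (Or.inl c)))
  · obtain ⟨a, h1, b, h2, h3⟩ := c
    exact Or.inr (Or.inr (Or.inr (Or.inr ⟨a, mem_LoT38.2 ⟨h1, h3.1⟩, b,
      mem_LoT38.2 ⟨h2, h3.2.1⟩, h3⟩)))

/-- a neighbour in `N F` -/
theorem pT1 {w x : V} (hx : x ∈ G.N F) (h : x ∈ G.nb w) : 1 ≤ (G.pT F w).card := by
  rw [Nat.succ_le_iff, card_pos]
  exact ⟨x, mem_inter.2 ⟨h, hx⟩⟩

theorem LoN {w : V} (h : w ∈ G.LoT F) : w ∈ G.N F := (mem_LoT38.1 h).1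

theorem LoL {w : V} (h : w ∈ G.LoT F) : G.Low w := (mem_LoT38.1 h).2

/-- (g) the lows adjacent to `l` have a neighbour in `N F` -/
theorem tpos (s : S4_38 G F l) (nt : ∀ v ∈ G.N F, ¬ G.IsTw v) {w : V} (hw : w ∈ G.LoT F)
    (h : w ∈ G.nb l) : 1 ≤ (G.pT F w).card := by
  rcases s.covl' nt (mem_union_right _ (LoN hw)) h with c | c | c | c
  · obtain ⟨x, h1, -, h3⟩ := c
    exact pT1 (LoN h1) (G.sym _ _ h3)
  · obtain ⟨a, h1, b, -, h3, -⟩ := c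
    exact pT1 h1 (G.sym _ _ (HL_t76 h3))
  · obtain ⟨a, -, b, h1, -, h3, -⟩ := c
    exact pT1 (LoN h1) (G.sym _ _ h3)
  · obtain ⟨a, -, b, h1, h3⟩ := c
    exact pT1 (LoN h1) (G.sym _ _ (LL_u76 h3))

/-- numbers of a low vertex -/
theorem t3 (s : S4_38 G F l) (hb : G.StLBas) (hB : G.StLB) (h7 : G.St7Bas) {w : V}
    (hw : w ∈ G.LoT F) : 2 ≤ G.d w F ∧ G.d w F + (G.pT F w).card ≤ 5 := by
  obtain ⟨⟨h1, -, h2⟩, -⟩ := low5_38 hB hb h7 s.h (LoN hw) (LoL hw)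
  exact ⟨h1, h2⟩

/-- (i) the counting lemma at a hub of `F` that is not adjacent to `l` -/
theorem tau (s : S4_38 G F l) (hc : G.StLCnt) (nt : ∀ v ∈ G.N F, ¬ G.IsTw v) {z : V}
    (hz : z ∈ F) (hzl : z ≠ l) (hn : z ∉ G.nb l) :
    (G.Tz F z).card ≤ ∑ w ∈ G.nb z ∩ G.LoT F, (G.pT F w).card := by
  have key := (hc s.h.1.sat s.n9 F (G.Tz F z) (G.Tz F z) (Subset.refl _) inter_subset_right z
    (by
      intro y hy
      obtain ⟨hy1, hy2⟩ := mem_inter.1 hy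
      rcases s.covh' nt hz hzl hy2 hy1 with c | c | c | c | c
      · obtain ⟨w, h1, h2, h3⟩ := c
        exact Or.inl ⟨w, mem_inter.2 ⟨G.sym _ _ h2, LoN h1⟩, LoL h1, h3⟩
      · exact absurd c.1 hn
      · obtain ⟨a, h1, b, h2, h3, h4, h5⟩ := c
        exact Or.inr (Or.inr (Or.inl ⟨a, mem_inter.2 ⟨G.sym _ _ h5, h1⟩, b,
          mem_inter.2 ⟨G.sym _ _ h4, LoN h2⟩, h3⟩))
      · obtain ⟨a, -, -, h3, -⟩ := c
        exact absurd h3 hn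
      · obtain ⟨a, h1, b, h2, h3⟩ := c
        refine Or.inr (Or.inr (Or.inr ⟨a, mem_inter.2 ⟨G.sym _ _ (LL_t76 h3), LoN h1⟩, b,
          mem_sdiff.2 ⟨LoN h2, fun h4 => ?_⟩, h3⟩))
        exact (LL_tb76 h3).1 (G.sym _ _ (mem_inter.1 h4).1))).1
  have h1 : ∑ w ∈ G.Tz F z, G.wt3 G.Tw w * ((G.tT G.Tw F w).card : ℤ) ≤
      ∑ w ∈ G.Tz F z, (if G.Low w then 2 * ((G.pT F w).card : ℤ) else 0) := by
    refine sum_le_sum fun w hw => ?_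
    have h2 : ((G.tT G.Tw F w).card : ℤ) ≤ ((G.pT F w).card : ℤ) := by
      have : (G.tT G.Tw F w).card ≤ (G.pT F w).card := card_le_card fun x hx =>
        mem_inter.2 ⟨(mem_tT30.1 hx).1, (mem_tT30.1 hx).2.1⟩
      exact_mod_cast this
    by_cases hl : G.Low w
    · rw [wt3_low30 hl, if_pos hl]
      linarith
    · have hq : ¬ IsQ G.Tw w := nt w (mem_inter.1 hw).2
      rw [if_neg hl, wt3, if_neg hl, if_neg hq, zero_mul]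
  have h2 : ∑ w ∈ G.Tz F z, (if G.Low w then 2 * ((G.pT F w).card : ℤ) else 0) =
      ∑ w ∈ G.nb z ∩ G.LoT F, 2 * ((G.pT F w).card : ℤ) := by
    rw [← sum_filter]
    refine sum_congr ?_ fun _ _ => rfl
    ext w
    rw [mem_filter, mem_inter, Tz, mem_inter, mem_LoT38]
    tauto
  rw [h2, ← mul_sum] at h1
  have h3 : ((G.Tz F z).card : ℤ) ≤ ∑ w ∈ G.nb z ∩ G.LoT F, ((G.pT F w).card : ℤ) := by
    linarith
  exact_mod_cast h3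

/-- at a hub of `F` that is not adjacent to `l`: two lows -/
theorem farh (s : S4_38 G F l) (hb : G.StLBas) (hB : G.StLB) (h7 : G.St7Bas) (hc : G.StLCnt)
    (nt : ∀ v ∈ G.N F, ¬ G.IsTw v) {z : V} (hz : z ∈ F) (hzl : z ≠ l) (hn : z ∉ G.nb l) :
    2 ≤ (G.nb z ∩ G.LoT F).card ∧ 4 ≤ ∑ w ∈ G.nb z ∩ G.LoT F, (G.pT F w).card := by
  have h1 := s.tau hc nt hz hzl hn
  have h2 := s.degh hb hz hzl
  have h3 : G.d z F ≤ 3 := by
    have h4 : G.nb z ∩ F ⊆ (F.erase z).erase l := by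
      intro x hx
      obtain ⟨h5, h6⟩ := mem_inter.1 hx
      refine mem_erase.2 ⟨?_, mem_erase.2 ⟨(ne_of_nb5 h5).symm, h6⟩⟩
      rintro rfl
      exact hn (G.sym _ _ h5)
    have h5 := card_le_card h4
    rw [card_erase_of_mem (mem_erase.2 ⟨hzl.symm, s.lF⟩), card_erase_of_mem hz, s.h.2] at h5
    exact h5
  have h4 : ∑ w ∈ G.nb z ∩ G.LoT F, (G.pT F w).card ≤ (G.nb z ∩ G.LoT F).card * 3 := by
    refine sum_le_card_nsmul _ _ 3 fun w hw => ?_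
    have := s.t3 hb hB h7 (mem_inter.1 hw).2
    omega
  constructor
  · omega
  · omega

/-- (h) a low vertex of `N F` which is not adjacent to `l` -/
theorem vlow (s : S4_38 G F l) (hb : G.StLBas) (nt : ∀ v ∈ G.N F, ¬ G.IsTw v) {v : V}
    (hv : v ∈ G.LoT F) (hn : v ∉ G.nb l) :
    (∃ w ∈ G.LoT F, v ∈ G.nb w) ∨ ∃ y ∈ G.N F, ∃ b ∈ G.LoT F, G.HL y b v := by
  have h2 := hb.pos F s.h.1 v (LoN hv)
  obtain ⟨z, hz⟩ := card_pos.1 (show 0 < (G.nb v ∩ F).card by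
    have : (G.nb v ∩ F).card = G.d v F := rfl
    omega)
  obtain ⟨hz1, hz2⟩ := mem_inter.1 hz
  have hzl : z ≠ l := by
    rintro rfl
    exact hn (G.sym _ _ hz1)
  rcases s.covh' nt hz2 hzl (LoN hv) (G.sym _ _ hz1) with c | c | c | c | c
  · obtain ⟨w, h1, -, h3⟩ := c
    exact Or.inl ⟨w, h1, h3⟩
  · exact absurd c.2 hn
  · obtain ⟨a, h1, b, h3, h4, -⟩ := c
    exact Or.inr ⟨a, h1, b, h3, h4⟩
  · obtain ⟨a, ha, h1, h3, h4⟩ := c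
    have hal : a ≠ l := by
      rintro rfl
      exact HL_not_low76 h1 s.low
    rcases s.covh' nt ha hal (LoN hv) (HL_t76 h1) with c | c | c | c | c
    · obtain ⟨w, h5, -, h6⟩ := c
      exact Or.inl ⟨w, h5, h6⟩
    · exact absurd c.2 hn
    · obtain ⟨a, h5, b, h6, h7, -⟩ := c
      exact Or.inr ⟨a, h5, b, h6, h7⟩
    · obtain ⟨a', ha', h5, h6, h8⟩ := c
      have := (stTwHL_5 G).one s.n9 _ _ _ _ h1 h5
      subst this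
      exact absurd h8 (G.irr _)
    · obtain ⟨a, -, b, h5, h6⟩ := c
      exact Or.inl ⟨b, h5, LL_u76 h6⟩
  · obtain ⟨a, -, b, h5, h6⟩ := c
    exact Or.inl ⟨b, h5, LL_u76 h6⟩

/-- no low vertex adjacent to `l`: two covers (3) -/
theorem nx0 (s : S4_38 G F l) (nt : ∀ v ∈ G.N F, ¬ G.IsTw v) (h0 : G.nb l ∩ G.LoT F = ∅)
    (hX : (G.Tz F l).Nonempty) : ∃ a1 ∈ G.N F, ∃ b1 ∈ G.LoT F, ∃ a2 ∈ G.N F, ∃ b2 ∈ G.LoT F,
      G.HL a1 b1 l ∧ G.HL a2 b2 l ∧ a1 ∈ G.nb b2 ∧ a1 ∈ G.nb a2 ∧ a2 ∈ G.nb b1 ∧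
      b2 ∈ G.nb b1 := by
  have nD : ∀ w ∈ G.LoT F, l ∉ G.nb w := by
    intro w hw h
    have : w ∈ G.nb l ∩ G.LoT F := mem_inter.2 ⟨G.sym _ _ h, hw⟩
    rw [h0] at this
    exact notMem_empty _ this
  have key : ∀ y ∈ G.N F, y ∈ G.nb l → ∃ a ∈ G.N F, ∃ b ∈ G.LoT F,
      G.HL a b l ∧ y ∈ G.nb b ∧ y ∈ G.nb a := by
    intro y hy hyl
    rcases s.covl' nt (mem_union_right _ hy) hyl with c | c | c | c
    · obtain ⟨w, h1, h2, -⟩ := c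
      exact absurd h2 (nD w h1)
    · obtain ⟨a, -, b, h1, -, h2, -⟩ := c
      exact absurd h2 (nD b h1)
    · exact c
    · obtain ⟨a, h1, b, -, h2⟩ := c
      exact absurd (LL_t76 h2) (nD a h1)
  obtain ⟨y, hy⟩ := hX
  obtain ⟨hy1, hy2⟩ := mem_inter.1 hy
  obtain ⟨a1, m1, b1, n1, k1, -, -⟩ := key y hy2 hy1
  obtain ⟨a2, m2, b2, n2, k2, k3, k4⟩ := key a1 m1 (G.sym _ _ (HL_t76 k1))
  have hb2 : b2 ≠ b1 := by
    rintro rfl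
    have := (stTwHL_5 G).one s.n9 _ _ _ _ k1 k2
    subst this
    exact G.irr _ k4
  have hb2l : b2 ≠ l := (HL_bt76 k2).2.symm
  have ha2l : a2 ≠ l := by
    rintro rfl
    exact (mem_N76.1 m2).1 s.lF
  refine ⟨a1, m1, b1, n1, a2, m2, b2, n2, k1, k2, k3, k4, ?_, ?_⟩
  · rcases HL_sup76 k1 (G.sym _ _ k4) ha2l with h | h
    · exact absurd (LoL n1) (h ▸ HL_not_low76 k2)
    · exact h
  · rcases HL_sup76 k1 (G.sym _ _ k3) hb2l with h | h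
    · exact absurd h hb2
    · exact h

/-- one low vertex adjacent to `l`: a cover (3) -/
theorem nx1 (s : S4_38 G F l) (nt : ∀ v ∈ G.N F, ¬ G.IsTw v) {x : V}
    (h0 : G.nb l ∩ G.LoT F = {x}) : x ∈ G.LoT F ∧ x ∈ G.nb l ∧
      ∃ a ∈ G.N F, ∃ b ∈ G.LoT F, G.HL a b l ∧ x ∈ G.nb b ∧ x ∈ G.nb a := by
  have hx : x ∈ G.nb l ∩ G.LoT F := by rw [h0]; exact mem_singleton_self _
  obtain ⟨hxl, hxL⟩ := mem_inter.1 hx
  have D : ∀ w ∈ G.LoT F, l ∈ G.nb w → w = x := by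
    intro w hw h
    have : w ∈ G.nb l ∩ G.LoT F := mem_inter.2 ⟨G.sym _ _ h, hw⟩
    rw [h0, mem_singleton] at this
    exact this
  refine ⟨hxL, hxl, ?_⟩
  rcases s.covl' nt (mem_union_right _ (LoN hxL)) hxl with c | c | c | c
  · obtain ⟨w, h1, h2, h3⟩ := c
    rw [D w h1 h2] at h3
    exact absurd h3 (G.irr _)
  · obtain ⟨a, -, b, h1, h2, h3, -⟩ := c
    exact absurd (D b h1 h3).symm (HL_bt76 h2).2
  · exact c
  · obtain ⟨a, h1, b, -, h2⟩ := c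
    exact absurd (D a h1 (LL_t76 h2)).symm (LL_ua76 h2).2

end S4_38

end CG

end Pool.Agent.Lib.MP_e95c01_co.N
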