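import Pool.Agent.Lib.MP_e95c01_co.X.J4c_38

/-!
# J4: leaves with a low vertex and four hubs, the low vertex has at most two neighbours in `F`
-/

namespace Pool.Agent.Lib.MP_e95c01_co.N

open Finset

variable {V : Type} [Fintype V] [DecidableEq V]

namespace CG

variable {G : CG V} {F : Finset V} {l : V}

namespace S4_38

/-- the sum at a vertex of `F` -/
noncomputable def W (G : CG V) (F : Finset V) (x : V) : ℤ :=
  ∑ w ∈ G.nb x ∩ G.LoT F, (1 + ((G.pT F w).card : ℤ))

theorem W_one {x w : V} (hw : w ∈ G.LoT F) (h : w ∈ G.nb x) :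
    1 + ((G.pT F w).card : ℤ) ≤ W G F x :=
  term1_38 (g := fun w => 1 + ((G.pT F w).card : ℤ)) (fun v _ => by positivity)
    (mem_inter.2 ⟨h, hw⟩)

theorem W_two {x w w' : V} (hw : w ∈ G.LoT F) (h : w ∈ G.nb x) (hw' : w' ∈ G.LoT F)
    (h' : w' ∈ G.nb x) (hne : w ≠ w') :
    1 + ((G.pT F w).card : ℤ) + (1 + ((G.pT F w').card : ℤ)) ≤ W G F x :=
  term2_38 (g := fun w => 1 + ((G.pT F w).card : ℤ)) (fun v _ => by positivity)
    (mem_inter.2 ⟨h, hw⟩) (mem_inter.2 ⟨h', hw'⟩) hne

/-- far hubs -/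
theorem W_far (s : S4_38 G F l) (hb : G.StLBas) (hB : G.StLB) (h7 : G.St7Bas) (hc : G.StLCnt)
    (nt : ∀ v ∈ G.N F, ¬ G.IsTw v) {z : V} (hz : z ∈ F) (hzl : z ≠ l) (hn : z ∉ G.nb l) :
    6 ≤ W G F z := by
  obtain ⟨h1, h2⟩ := s.farh hb hB h7 hc nt hz hzl hn
  rw [W, sum_add_distrib, sum_const, nsmul_eq_mul, mul_one]
  have h3 : (4 : ℤ) ≤ ∑ w ∈ G.nb z ∩ G.LoT F, ((G.pT F w).card : ℤ) := by exact_mod_cast h2
  have h4 : (2 : ℤ) ≤ ((G.nb z ∩ G.LoT F).card : ℤ) := by exact_mod_cast h1
  linarith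

/-- neighbours of `l` in `F` -/
theorem W_near (s : S4_38 G F l) (nt : ∀ v ∈ G.N F, ¬ G.IsTw v) {z : V} (hz : z ∈ F)
    (hn : z ∈ G.nb l) : 2 ≤ W G F z := by
  have hzl : z ≠ l := (ne_of_nb5 hn).symm
  have aux : ∀ w ∈ G.LoT F, z ∈ G.nb w → 1 ≤ (G.pT F w).card → 2 ≤ W G F z := by
    intro w hw h1 h2
    have h3 := W_one hw (G.sym _ _ h1)
    have h4 : (1 : ℤ) ≤ ((G.pT F w).card : ℤ) := by exact_mod_cast h2
    linarith
  rcases s.covl' nt (mem_union_left _ hz) hn with c | c | c | c
  · obtain ⟨w, h1, h2, h3⟩ := c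
    exact aux w h1 h3 (s.tpos nt h1 (G.sym _ _ h2))
  · obtain ⟨a, -, b, -, h1, -⟩ := c
    exact absurd (s.h.1.sat _ _ _ h1) (s.hub z hz hzl).1
  · obtain ⟨a, h1, b, h2, h3, h4, -⟩ := c
    exact aux b h2 h4 (pT1 h1 (G.sym _ _ (HL_b76 h3)))
  · obtain ⟨a, h1, b, h2, h3⟩ := c
    exact aux b h2 (LL_u76 h3) (pT1 (LoN h1) (G.sym _ _ (LL_ab76 h3)))

/-- the sum over `F` -/
theorem total (s : S4_38 G F l) (hb : G.StLBas) (hB : G.StLB) (h7 : G.St7Bas) (hc : G.StLCnt)
    (nt : ∀ v ∈ G.N F, ¬ G.IsTw v) :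
    W G F l + 2 * (G.d l F : ℤ) + 6 * (4 - (G.d l F : ℤ)) ≤ ∑ w ∈ G.N F, G.gam5 F w := by
  have h1 := sumW5_38 hB hb h7 s.h
  have hlnot : l ∉ G.nb l ∩ F := fun h => G.irr _ (mem_inter.1 h).1
  have h2 : ∑ x ∈ F, W G F x = W G F l + (∑ x ∈ G.nb l ∩ F, W G F x +
      ∑ x ∈ F \ insert l (G.nb l ∩ F), W G F x) := by
    have e1 : insert l (G.nb l ∩ F) ⊆ F := by
      intro x hx
      rcases mem_insert.1 hx with rfl | hx
      · exact s.lF
      · exact (mem_inter.1 hx).2
    rw [← sum_sdiff e1, sum_insert hlnot]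
    ring
  have h3 : 2 * (G.d l F : ℤ) ≤ ∑ x ∈ G.nb l ∩ F, W G F x := by
    have := card_nsmul_le_sum (G.nb l ∩ F) (fun x => W G F x) 2 fun x hx =>
      s.W_near nt (mem_inter.1 hx).2 (mem_inter.1 hx).1
    rw [nsmul_eq_mul] at this
    have e : (G.nb l ∩ F).card = G.d l F := rfl
    rw [e] at this
    linarith
  have h4 : 6 * (4 - (G.d l F : ℤ)) ≤ ∑ x ∈ F \ insert l (G.nb l ∩ F), W G F x := by
    have := card_nsmul_le_sum (F \ insert l (G.nb l ∩ F)) (fun x => W G F x) 6 fun x hx => by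
      obtain ⟨g1, g2⟩ := mem_sdiff.1 hx
      rw [mem_insert, not_or] at g2
      exact s.W_far hb hB h7 hc nt g1 g2.1 fun g3 => g2.2 (mem_inter.2 ⟨g3, g1⟩)
    rw [nsmul_eq_mul] at this
    have e1 : insert l (G.nb l ∩ F) ⊆ F := by
      intro x hx
      rcases mem_insert.1 hx with rfl | hx
      · exact s.lF
      · exact (mem_inter.1 hx).2
    have e2 : (F \ insert l (G.nb l ∩ F)).card + G.d l F = 4 := by
      have e3 : (insert l (G.nb l ∩ F)).card = G.d l F + 1 := by
        rw [card_insert_of_notMem hlnot]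
        rfl
      have e4 := card_le_card e1
      rw [card_sdiff_of_subset e1, s.h.2]
      rw [s.h.2] at e4
      omega
    have e5 : ((F \ insert l (G.nb l ∩ F)).card : ℤ) = 4 - (G.d l F : ℤ) := by
      have : (((F \ insert l (G.nb l ∩ F)).card + G.d l F : ℕ) : ℤ) = 4 := by rw [e2]; rfl
      push_cast at this
      linarith
    rw [e5] at this
    linarith
  have h5 : ∑ x ∈ F, ∑ w ∈ G.nb x ∩ G.LoT F, (1 + ((G.pT F w).card : ℤ)) =
      ∑ x ∈ F, W G F x := rfl
  rw [h5] at h1
  linarith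

/-- two neighbours of `l` in `F`: at `l` -/
theorem two_l (s : S4_38 G F l) (hb : G.StLBas) (hB : G.StLB) (h7 : G.St7Bas)
    (nt : ∀ v ∈ G.N F, ¬ G.IsTw v) (hd : G.d l F = 2) : 4 ≤ W G F l := by
  have hX : (G.Tz F l).card = 4 := by
    have := s.degl hb
    omega
  have hVc : (G.N F \ G.Tz F l).card = 2 := by
    have h1 : G.Tz F l ⊆ G.N F := inter_subset_right
    rw [card_sdiff_of_subset h1, hX, s.h.1.big.1.2.1]
  have tl : ∀ w ∈ G.LoT F, (G.pT F w).card ≤ 3 := by
    intro w hw
    have := s.t3 hb hB h7 hw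
    omega
  -- lows outside of `X`
  have outX : ∀ b ∈ G.N F, l ∉ G.nb b → b ∈ G.N F \ G.Tz F l := by
    intro b hb1 hb2
    exact mem_sdiff.2 ⟨hb1, fun h => hb2 (G.sym _ _ (mem_inter.1 h).1)⟩
  by_cases h2 : 2 ≤ (G.nb l ∩ G.LoT F).card
  · obtain ⟨x, hx, y, hy, hxy⟩ := one_lt_card.1 (show 1 < (G.nb l ∩ G.LoT F).card by omega)
    obtain ⟨x1, x2⟩ := mem_inter.1 hx
    obtain ⟨y1, y2⟩ := mem_inter.1 hy
    have h3 := W_two x2 x1 y2 y1 hxy
    have h4 := s.tpos nt x2 x1
    have h5 := s.tpos nt y2 y1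
    have h6 : (1 : ℤ) ≤ ((G.pT F x).card : ℤ) := by exact_mod_cast h4
    have h7 : (1 : ℤ) ≤ ((G.pT F y).card : ℤ) := by exact_mod_cast h5
    linarith
  · -- contradiction unless the only low has three neighbours
    have h3 : (G.nb l ∩ G.LoT F).card = 0 ∨ (G.nb l ∩ G.LoT F).card = 1 := by omega
    rcases h3 with h3 | h3
    · exfalso
      rw [Finset.card_eq_zero] at h3
      obtain ⟨a1, m1, b1, n1, a2, m2, b2, n2, k1, k2, k3, k4, k5, k6⟩ :=
        s.nx0 nt h3 (card_pos.1 (by omega))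
      have nD : ∀ w ∈ G.LoT F, l ∉ G.nb w := by
        intro w hw h
        have : w ∈ G.nb l ∩ G.LoT F := mem_inter.2 ⟨G.sym _ _ h, hw⟩
        rw [h3] at this
        exact notMem_empty _ this
      have hne : b1 ≠ b2 := ne_of_nb5 k6
      have hV : ∀ b ∈ G.LoT F, b = b1 ∨ b = b2 := by
        intro b hb'
        by_contra hno
        rw [not_or] at hno
        have := three_le33 (outX b (LoN hb') (nD b hb')) (outX b1 (LoN n1) (nD b1 n1))
          (outX b2 (LoN n2) (nD b2 n2)) hno.1 hno.2 hne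
        omega
      have na : a1 ≠ a2 := ne_of_nb5 (G.sym _ _ k4)
      have a1l := HL_not_low76 k1
      have a2l := HL_not_low76 k2
      have a1X : a1 ∈ G.Tz F l := mem_inter.2 ⟨G.sym _ _ (HL_t76 k1), m1⟩
      have a2X : a2 ∈ G.Tz F l := mem_inter.2 ⟨G.sym _ _ (HL_t76 k2), m2⟩
      have hsub : ({a1, a2} : Finset V) ⊆ G.Tz F l := by
        intro x hx
        rw [mem_insert, mem_singleton] at hx
        rcases hx with rfl | rfl <;> assumption
      have hc2 : 0 < (G.Tz F l \ {a1, a2}).card := by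
        rw [card_sdiff_of_subset hsub, card_pair na]
        omega
      obtain ⟨x3, hx3⟩ := card_pos.1 hc2
      obtain ⟨y1, y2⟩ := mem_sdiff.1 hx3
      rw [mem_insert, mem_singleton, not_or] at y2
      obtain ⟨y3, y4⟩ := mem_inter.1 y1
      have x3l : ¬ G.Low x3 := by
        intro h
        exact nD x3 (mem_LoT38.2 ⟨y4, h⟩) (G.sym _ _ y3)
      rcases s.covl' nt (mem_union_right _ y4) y3 with c | c | c | c
      · obtain ⟨w, h1, h2, -⟩ := c
        exact nD w h1 h2
      · obtain ⟨a, -, b, h1, -, h2, -⟩ := c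
        exact nD b h1 h2
      · obtain ⟨a, -, b, h1, -, h2, -⟩ := c
        rcases hV b h1 with rfl | rfl
        · have := four_le5 (S := G.pT F b) (a := a1) (b := a2) (c := b2) (d := x3)
            (mem_inter.2 ⟨G.sym _ _ (HL_b76 k1), m1⟩) (mem_inter.2 ⟨k5, m2⟩)
            (mem_inter.2 ⟨k6, LoN n2⟩) (mem_inter.2 ⟨h2, y4⟩) na
            (fun h => a1l (h ▸ LoL n2)) (fun h => y2.1 h.symm)
            (fun h => a2l (h ▸ LoL n2)) (fun h => y2.2 h.symm) (fun h => x3l (h ▸ LoL n2))
          have := tl b h1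
          omega
        · have := four_le5 (S := G.pT F b) (a := a1) (b := a2) (c := b1) (d := x3)
            (mem_inter.2 ⟨k3, m1⟩) (mem_inter.2 ⟨G.sym _ _ (HL_b76 k2), m2⟩)
            (mem_inter.2 ⟨G.sym _ _ k6, LoN n1⟩) (mem_inter.2 ⟨h2, y4⟩) na
            (fun h => a1l (h ▸ LoL n1)) (fun h => y2.1 h.symm)
            (fun h => a2l (h ▸ LoL n1)) (fun h => y2.2 h.symm) (fun h => x3l (h ▸ LoL n1))
          have := tl b h1
          omega
      · obtain ⟨a, h1, b, -, h2⟩ := c
        exact nD a h1 (LL_t76 h2)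
    · obtain ⟨x, hx⟩ := card_eq_one.1 h3
      obtain ⟨hxL, hxl, a, ma, b, nb, k1, k2, k3⟩ := s.nx1 nt hx
      by_cases ht : (G.pT F x).card = 3
      · have := W_one hxL hxl
        rw [ht] at this
        push_cast at this
        linarith
      · exfalso
        have D : ∀ w ∈ G.LoT F, l ∈ G.nb w → w = x := by
          intro w hw h
          have : w ∈ G.nb l ∩ G.LoT F := mem_inter.2 ⟨G.sym _ _ h, hw⟩
          rw [hx, mem_singleton] at this
          exact this
        have hal := HL_not_low76 k1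
        have hab : a ≠ b := ne_of_nb5 (HL_b76 k1)
        have hax : a ≠ x := fun h => hal (h ▸ LoL hxL)
        have haX : a ∈ G.Tz F l := mem_inter.2 ⟨G.sym _ _ (HL_t76 k1), ma⟩
        have hxX : x ∈ G.Tz F l := mem_inter.2 ⟨hxl, LoN hxL⟩
        have hpx : G.pT F x = {a, b} := by
          symm
          apply eq_of_subset_of_card_le
          · intro y hy
            rw [mem_insert, mem_singleton] at hy
            rcases hy with rfl | rfl
            · exact mem_inter.2 ⟨G.sym _ _ k3, ma⟩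
            · exact mem_inter.2 ⟨G.sym _ _ k2, LoN nb⟩
          · rw [card_pair hab]
            have := tl x hxL
            omega
        have hsub : ({x, a} : Finset V) ⊆ G.Tz F l := by
          intro y hy
          rw [mem_insert, mem_singleton] at hy
          rcases hy with rfl | rfl <;> assumption
        have hc2 : (G.Tz F l \ {x, a}).card = 2 := by
          rw [card_sdiff_of_subset hsub, card_pair hax.symm]
          omega
        obtain ⟨x3, x4, h34, hXX⟩ := card_eq_two.1 hc2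
        have bl : l ∉ G.nb b := (HL_bt76 k1).1
        have key : ∀ y ∈ G.Tz F l \ {x, a}, y ∈ G.N F ∧ ¬ G.Low y ∧ y ≠ a ∧ (y ∈ G.nb b ∨
            ∃ a' ∈ G.Tz F l \ {x, a}, ∃ b' ∈ G.LoT F, G.HL a' b' l ∧ y ≠ a' ∧ b' ≠ b) := by
          intro y hy
          obtain ⟨y1, y2⟩ := mem_sdiff.1 hy
          rw [mem_insert, mem_singleton, not_or] at y2
          obtain ⟨y3, y4⟩ := mem_inter.1 y1
          have yl : ¬ G.Low y := fun h => y2.1 (D y (mem_LoT38.2 ⟨y4, h⟩) (G.sym _ _ y3))
          refine ⟨y4, yl, y2.2, ?_⟩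
          rcases s.covl' nt (mem_union_right _ y4) y3 with c | c | c | c
          · obtain ⟨w, g1, g2, g3⟩ := c
            have := D w g1 g2
            subst this
            have g4 : y ∈ G.pT F w := mem_inter.2 ⟨g3, y4⟩
            rw [hpx, mem_insert, mem_singleton] at g4
            rcases g4 with g4 | g4
            · exact absurd g4 y2.2
            · exact absurd (G.sym _ _ y3) (g4 ▸ bl)
          · obtain ⟨a', -, b', -, g1, -⟩ := c
            exact absurd (s.h.1.sat _ _ _ g1) yl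
          · obtain ⟨a', g0, b', g1, g2, g3, g4⟩ := c
            by_cases hbb : b' = b
            · subst hbb
              exact Or.inl g3
            · refine Or.inr ⟨a', mem_sdiff.2 ⟨mem_inter.2 ⟨G.sym _ _ (HL_t76 g2), g0⟩, ?_⟩, b', g1,
                g2, (ne_of_nb5 g4).symm, hbb⟩
              rw [mem_insert, mem_singleton, not_or]
              refine ⟨fun h => HL_not_low76 g2 (h ▸ LoL hxL), ?_⟩
              rintro rfl
              exact hbb (b_uniq_5 s.n9 g2 k1)
          · obtain ⟨a', g0, b', g1, g2⟩ := c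
            have := D a' g0 (LL_t76 g2)
            subst this
            have g4 : b' ∈ G.pT F a' := mem_inter.2 ⟨LL_ab76 g2, LoN g1⟩
            rw [hpx, mem_insert, mem_singleton] at g4
            rcases g4 with g4 | g4
            · exact absurd (LoL g1) (g4 ▸ hal)
            · exact Or.inl (g4 ▸ LL_u76 g2)
        have xb : x ∈ G.pT F b := mem_inter.2 ⟨k2, LoN hxL⟩
        have ab : a ∈ G.pT F b := mem_inter.2 ⟨G.sym _ _ (HL_b76 k1), ma⟩
        have mem34 : ∀ y, y ∈ G.Tz F l \ {x, a} ↔ y = x3 ∨ y = x4 := by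
          intro y
          rw [hXX, mem_insert, mem_singleton]
        have tb := tl b nb
        have half : ∀ y z : V, y ∈ G.Tz F l \ {x, a} → z ∈ G.Tz F l \ {x, a} → y ≠ z →
            y ∈ G.nb b → False := by
          intro y z hy hz hyz hyb
          obtain ⟨y1, y2, y3, -⟩ := key y hy
          obtain ⟨z1, z2, z3, z4⟩ := key z hz
          have yx : x ≠ y := fun h => y2 (h ▸ LoL hxL)
          have zx : x ≠ z := fun h => z2 (h ▸ LoL hxL)
          rcases z4 with z4 | ⟨a', g1, b', g2, g3, g4, g5⟩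
          · have := four_le5 xb ab (mem_inter.2 ⟨hyb, y1⟩) (mem_inter.2 ⟨z4, z1⟩) hax.symm yx zx
              y3.symm z3.symm hyz
            omega
          · have ha' : a' = y := by
              rcases (mem34 a').1 g1 with e | e <;> rcases (mem34 z).1 hz with e' | e' <;>
                rcases (mem34 y).1 hy with e'' | e''
              all_goals first
                | exact absurd (e'.trans e.symm) g4
                | exact e.trans e''.symm
                | exact absurd (e''.trans e'.symm) hyz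
            subst ha'
            have hbl : b ≠ l := by
              rintro rfl
              exact (mem_N76.1 (LoN nb)).1 s.lF
            have g6 : b' ∈ G.nb b := by
              rcases HL_sup76 g3 (G.sym _ _ hyb) hbl with h | h
              · exact absurd h.symm g5
              · exact G.sym _ _ h
            have g7 : x ≠ b' := by
              rintro rfl
              exact (HL_bt76 g3).1 (G.sym _ _ hxl)
            have := four_le5 xb ab (mem_inter.2 ⟨hyb, y1⟩) (mem_inter.2 ⟨g6, LoN g2⟩) hax.symm yx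
              g7 y3.symm (fun h => hal (h ▸ LoL g2)) (fun h => y2 (h ▸ LoL g2))
            omega
        have m3 : x3 ∈ G.Tz F l \ {x, a} := (mem34 _).2 (Or.inl rfl)
        have m4 : x4 ∈ G.Tz F l \ {x, a} := (mem34 _).2 (Or.inr rfl)
        obtain ⟨-, -, -, c3⟩ := key x3 m3
        obtain ⟨-, -, -, c4⟩ := key x4 m4
        rcases c3 with c3 | ⟨a', g1, b', g2, g3, g4, g5⟩
        · exact half x3 x4 m3 m4 h34 c3
        rcases c4 with c4 | ⟨a'', g1', b'', g2', g3', g4', g5'⟩
        · exact half x4 x3 m4 m3 h34.symm c4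
        have ha' : a' = x4 := by
          rcases (mem34 a').1 g1 with e | e
          · exact absurd e.symm g4
          · exact e
        have ha'' : a'' = x3 := by
          rcases (mem34 a'').1 g1' with e | e
          · exact e
          · exact absurd e.symm g4'
        subst ha' ha''
        have hbb : b' ≠ b'' := by
          rintro rfl
          exact h34 ((stTwHL_5 G).one s.n9 _ _ _ _ g3' g3)
        have := three_le33 (outX b (LoN nb) bl) (outX b' (LoN g2) (HL_bt76 g3).1)
          (outX b'' (LoN g2') (HL_bt76 g3').1) g5.symm g5'.symm hbb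
        omega

end S4_38

end CG

end Pool.Agent.Lib.MP_e95c01_co.N
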