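import Pool.Agent.Lib.MP_e95c01_co.X.StmtsJ76
import Pool.Agent.Lib.MP_e95c01_co.X.H6_33
import Pool.Agent.Lib.MP_e95c01_co.X.H0b_16

/-!
# `λ = 3`, fragments with five vertices: a low, two hubs and a pair that are
adjacent: degrees, covers, values
-/

namespace Pool.Agent.Lib.MP_e95c01_co.N

open Finset

variable {V : Type} [Fintype V] [DecidableEq V]

namespace CG

namespace J5c16

open H6x33 (ch1 ch0 ch_le ch_iff ch_eq0 card_ch)


variable {G : CG V} {F : Finset V} {l h h' v w : V}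

/-- a low, two hubs and a pair; the low is adjacent to the pair -/
structure Cx (G : CG V) (F : Finset V) (l h h' v w : V) : Prop where
  bas : G.StLBas
  b : G.StLB
  s7 : G.St7Bas
  L : G.L5 F
  Feq : F = {l, h, h', v, w}
  ne : h ≠ h'
  low : G.Low l
  hh : G.Hub h
  hh' : G.Hub h'
  tw : G.Tw v w
  lv : l ∈ G.nb v

namespace Cx

theorem symm (c : Cx G F l h h' v w) : Cx G F l h' h v w where
  bas := c.bas
  b := c.b
  s7 := c.s7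
  L := c.L
  Feq := by
    rw [c.Feq]
    ext x
    simp only [mem_insert, mem_singleton]
    tauto
  ne := c.ne.symm
  low := c.low
  hh := c.hh'
  hh' := c.hh
  tw := c.tw
  lv := c.lv

theorem all (c : Cx G F l h h' v w) {x : V} (hx : x ∈ F) :
    x = l ∨ x = h ∨ x = h' ∨ x = v ∨ x = w := by
  rw [c.Feq] at hx
  simpa using hx

theorem lF (c : Cx G F l h h' v w) : l ∈ F := by
  rw [c.Feq]
  simp

theorem hF (c : Cx G F l h h' v w) : h ∈ F := by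
  rw [c.Feq]
  simp

theorem hF' (c : Cx G F l h h' v w) : h' ∈ F := c.symm.hF

theorem vF (c : Cx G F l h h' v w) : v ∈ F := by
  rw [c.Feq]
  simp

theorem wF (c : Cx G F l h h' v w) : w ∈ F := by
  rw [c.Feq]
  simp

theorem n9 (c : Cx G F l h h' v w) : 9 ≤ Fintype.card V := by
  have := c.L.1.n12
  omega

theorem uniq (c : Cx G F l h h' v w) {x y y' : V} (h : G.Tw x y) (h' : G.Tw x y') : y = y' :=
  (stTwHL_5 G).uniq c.n9 _ _ _ h h'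

theorem notF (_ : Cx G F l h h' v w) {x : V} (hx : x ∈ G.N F) : x ∉ F := (mem_N76.1 hx).1

theorem lh (c : Cx G F l h h' v w) : l ≠ h := fun e => c.hh.1 (e ▸ c.low)

theorem lv' (c : Cx G F l h h' v w) : l ≠ v := fun e => not_low33 ⟨_, c.tw⟩ (e ▸ c.low)

theorem lw (c : Cx G F l h h' v w) : l ≠ w := fun e => not_low33 ⟨_, c.tw.sym33⟩ (e ▸ c.low)

theorem hv (c : Cx G F l h h' v w) : h ≠ v := by
  rintro rfl
  exact c.hh.2 ⟨_, c.tw⟩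

theorem hw (c : Cx G F l h h' v w) : h ≠ w := by
  rintro rfl
  exact c.hh.2 ⟨_, c.tw.sym33⟩

theorem lowF (c : Cx G F l h h' v w) {x : V} (hx : x ∈ F) (hl : G.Low x) : x = l := by
  rcases c.all hx with h1 | h1 | h1 | h1 | h1
  · exact h1
  · exact absurd hl (h1 ▸ c.hh.1)
  · exact absurd hl (h1 ▸ c.hh'.1)
  · exact absurd hl (h1 ▸ not_low33 ⟨_, c.tw⟩)
  · exact absurd hl (h1 ▸ not_low33 ⟨_, c.tw.sym33⟩)

theorem twF (c : Cx G F l h h' v w) {x y : V} (hx : x ∈ F) (ht : G.Tw x y) :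
    (x = v ∧ y = w) ∨ (x = w ∧ y = v) := by
  rcases c.all hx with h1 | h1 | h1 | h1 | h1
  · exact absurd (h1 ▸ c.low) (not_low33 ⟨_, ht⟩)
  · exact absurd ⟨_, h1 ▸ ht⟩ c.hh.2
  · exact absurd ⟨_, h1 ▸ ht⟩ c.hh'.2
  · refine Or.inl ⟨h1, ?_⟩
    rw [h1] at ht
    exact c.uniq ht c.tw
  · refine Or.inr ⟨h1, ?_⟩
    rw [h1] at ht
    exact c.uniq ht c.tw.sym33

theorem nev (c : Cx G F l h h' v w) {x : V} (hx : x ∈ G.N F) : x ≠ v := by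
  rintro rfl
  exact c.notF hx c.vF

theorem new (c : Cx G F l h h' v w) {x : V} (hx : x ∈ G.N F) : x ≠ w := by
  rintro rfl
  exact c.notF hx c.wF

/-- `v` and `w` have the same neighbours -/
theorem vw (c : Cx G F l h h' v w) {x : V} (hx : x ≠ v) (hx' : x ≠ w) :
    v ∈ G.nb x ↔ w ∈ G.nb x :=
  ⟨fun h => G.sym _ _ (Tw_nb5 c.tw (G.sym _ _ h) hx'),
    fun h => G.sym _ _ (Tw_nb5 c.tw.sym33 (G.sym _ _ h) hx)⟩

theorem sumF (c : Cx G F l h h' v w) (f : V → ℕ) :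
    ∑ x ∈ F, f x = f l + (f h + (f h' + (f v + f w))) := by
  rw [c.Feq, sum_insert, sum_insert, sum_insert, sum_insert, sum_singleton]
  · rw [mem_singleton]
    exact c.tw.ne33
  · rw [mem_insert, mem_singleton, not_or]
    exact ⟨c.symm.hv, c.symm.hw⟩
  · rw [mem_insert, mem_insert, mem_singleton, not_or, not_or]
    exact ⟨c.ne, c.hv, c.hw⟩
  · rw [mem_insert, mem_insert, mem_insert, mem_singleton, not_or, not_or, not_or]
    exact ⟨c.lh, c.symm.lh, c.lv', c.lw⟩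

theorem dF (c : Cx G F l h h' v w) {y : V} (hy : y ≠ v) (hy' : y ≠ w) :
    G.d y F = H6x33.ch (l ∈ G.nb y) + H6x33.ch (h ∈ G.nb y) + H6x33.ch (h' ∈ G.nb y) + 2 * H6x33.ch (v ∈ G.nb y) := by
  rw [d, card_ch, c.sumF, show H6x33.ch (w ∈ G.nb y) = H6x33.ch (v ∈ G.nb y) by
    by_cases h1 : v ∈ G.nb y
    · rw [ch1 h1, ch1 ((c.vw hy hy').1 h1)]
    · rw [ch0 h1, ch0 (fun h2 => h1 ((c.vw hy hy').2 h2))]]
  ring

theorem dN (c : Cx G F l h h' v w) {y : V} (hy : y ∈ G.N F) :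
    G.d y F = H6x33.ch (l ∈ G.nb y) + H6x33.ch (h ∈ G.nb y) + H6x33.ch (h' ∈ G.nb y) + 2 * H6x33.ch (v ∈ G.nb y) :=
  c.dF (c.nev hy) (c.new hy)

theorem card6 (c : Cx G F l h h' v w) : (G.N F).card = 6 := c.L.1.big.1.2.1

/-- number of the vertices of `N F` that are not adjacent to `x` -/
theorem miss (c : Cx G F l h h' v w) {x : V} (hx : x ∈ F) :
    (G.nb x).card + (G.N F \ G.nb x).card = G.d x F + 6 := by
  have h2 : (G.nb x).card = G.d x F + (G.N F ∩ G.nb x).card := by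
    have h3 : G.nb x = (G.nb x ∩ F) ∪ (G.N F ∩ G.nb x) := by
      ext y
      constructor
      · intro hy
        rcases nbF42 hx hy with h4 | h4
        · exact mem_union_left _ (mem_inter.2 ⟨hy, h4⟩)
        · exact mem_union_right _ (mem_inter.2 ⟨h4, hy⟩)
      · intro hy
        rcases mem_union.1 hy with h4 | h4
        · exact (mem_inter.1 h4).1
        · exact (mem_inter.1 h4).2
    have h4 : Disjoint (G.nb x ∩ F) (G.N F ∩ G.nb x) := by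
      rw [Finset.disjoint_left]
      intro y h5 h6
      exact c.notF (mem_inter.1 h6).1 (mem_inter.1 h5).2
    have h5 := card_union_of_disjoint h4
    rw [← h3] at h5
    exact h5
  have h3 := card_sdiff_add_card_inter (G.N F) (G.nb x)
  have h4 := c.card6
  omega

theorem missl (c : Cx G F l h h' v w) :
    (G.N F \ G.nb l).card = 2 + H6x33.ch (h ∈ G.nb l) + H6x33.ch (h' ∈ G.nb l) := by
  have h1 := c.miss c.lF
  have h2 : (G.nb l).card = 6 := c.low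
  rw [c.dF c.lv' c.lw, ch0 (G.irr l), ch1 (G.sym _ _ c.lv)] at h1
  omega

theorem missh (c : Cx G F l h h' v w) :
    (G.N F \ G.nb h).card + 1 ≤ H6x33.ch (l ∈ G.nb h) + H6x33.ch (h' ∈ G.nb h) + 2 * H6x33.ch (v ∈ G.nb h) := by
  have h1 := c.miss c.hF
  rw [c.dF c.hv c.hw, ch0 (G.irr h)] at h1
  have h5 := G.deg h
  have h6 : (G.nb h).card ≠ 6 := c.hh.1
  omega

theorem missv (c : Cx G F l h h' v w) :
    (G.N F \ G.nb v).card = 1 + H6x33.ch (h ∈ G.nb v) + H6x33.ch (h' ∈ G.nb v) := by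
  have h1 := c.miss c.vF
  have h2 : (G.nb v).card = 7 := c.tw.2.1
  have h3 : G.d v F = H6x33.ch (h ∈ G.nb v) + H6x33.ch (h' ∈ G.nb v) + 2 := by
    rw [d, card_ch, c.sumF, ch0 (G.irr v), ch1 c.tw.1, ch1 c.lv]
    ring
  omega

/-! ### covers -/

theorem cov (c : Cx G F l h h' v w) {x y : V} (hx : x ∈ F) (hy : y ∈ G.nb x) : G.CvL F x y := by
  refine c.L.1.cov x hx y ?_ hy
  rcases nbF42 hx hy with h4 | h4
  · exact mem_union_left _ h4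
  · exact mem_union_right _ h4

/-- covers at `v` -/
theorem covv (c : Cx G F l h h' v w) {y : V} (hy : y ∈ G.nb v) :
    (∃ u ∈ G.N F, G.Low u ∧ v ∈ G.nb u ∧ y ∈ G.nb u) ∨ (y ∈ G.nb l) ∨
    (∃ a ∈ G.N F, ∃ b ∈ G.N F, G.Tw a b ∧ y ∈ G.nb a ∧ y ∈ G.nb b) ∨
    (∃ a ∈ F, G.HL a l y) ∨
    (∃ a ∈ G.N F, ∃ b ∈ G.N F, G.HL a b y ∧ v ∈ G.nb b ∧ v ∈ G.nb a) := by
  rcases c.cov c.vF hy with h1 | h1 | h1 | h1 | h1
  · obtain ⟨u, hu, h1, h2, h3⟩ := h1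
    rcases mem_union.1 hu with h4 | h4
    · rw [c.lowF h4 h1] at h3
      exact Or.inr (Or.inl h3)
    · exact Or.inl ⟨u, h4, h1, h2, h3⟩
  · obtain ⟨a, ha, b, hb, h1, h2, h3, h4, h5⟩ := h1
    have key : ∀ a b, a ∈ F ∪ G.N F → G.Tw a b → v ∈ G.nb a → v ∈ G.nb b → a ∈ G.N F := by
      intro a b ha h1 h2 h3
      rcases mem_union.1 ha with h4 | h4
      · exfalso
        rcases c.twF h4 h1 with ⟨rfl, rfl⟩ | ⟨rfl, rfl⟩
        · exact G.irr _ h2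
        · exact G.irr _ h3
      · exact h4
    exact Or.inr (Or.inr (Or.inl ⟨a, key a b ha h1 h2 h3, b, key b a hb h1.sym33 h3 h2, h1, h4,
      h5⟩))
  · obtain ⟨a, b, h1, h2, h3, h4 | h4⟩ := h1
    · rw [c.lowF h4.2 h1.2.1] at h1
      exact Or.inr (Or.inr (Or.inr (Or.inl ⟨a, h4.1, h1⟩)))
    · exact Or.inr (Or.inr (Or.inr (Or.inr ⟨a, h4.1, b, h4.2, h1, h2, h3⟩)))
  · obtain ⟨a, b, h1, -⟩ := h1
    exact absurd (c.L.1.sat _ _ _ h1) (not_low33 ⟨_, c.tw⟩)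
  · obtain ⟨a, b, h1, -⟩ := h1
    exact absurd ⟨_, c.tw⟩ ((stTwHL_5 G).twLL _ _ _ _ h1).1

/-- covers at `l` -/
theorem covl (c : Cx G F l h h' v w) {y : V} (hy : y ∈ G.nb l) (hyv : y ∉ G.nb v) :
    (∃ u ∈ G.N F, G.Low u ∧ l ∈ G.nb u ∧ y ∈ G.nb u) ∨
    (∃ a ∈ G.N F, ∃ b ∈ G.N F, G.Tw a b ∧ l ∈ G.nb a ∧ l ∈ G.nb b ∧ y ∈ G.nb a ∧ y ∈ G.nb b) ∨
    (∃ a ∈ G.N F, ∃ b ∈ G.N F, G.HL a b y ∧ l ∈ G.nb b ∧ l ∈ G.nb a) ∨
    (∃ a ∈ G.N F, ∃ b ∈ G.N F, G.HL a b l ∧ y ∈ G.nb b ∧ y ∈ G.nb a) ∨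
    (∃ a ∈ G.N F, ∃ b ∈ G.N F, G.LL a b l y) := by
  rcases c.cov c.lF hy with h1 | h1 | h1 | h1 | h1
  · obtain ⟨u, hu, h1, h2, h3⟩ := h1
    rcases mem_union.1 hu with h4 | h4
    · rw [c.lowF h4 h1] at h2
      exact absurd h2 (G.irr _)
    · exact Or.inl ⟨u, h4, h1, h2, h3⟩
  · obtain ⟨a, ha, b, hb, h1, h2, h3, h4, h5⟩ := h1
    have key : ∀ a b, a ∈ F ∪ G.N F → G.Tw a b → y ∈ G.nb a → y ∈ G.nb b → a ∈ G.N F := by
      intro a b ha h1 h2 h3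
      rcases mem_union.1 ha with h4 | h4
      · exfalso
        rcases c.twF h4 h1 with ⟨rfl, rfl⟩ | ⟨rfl, rfl⟩
        · exact hyv h2
        · exact hyv h3
      · exact h4
    exact Or.inr (Or.inl ⟨a, key a b ha h1 h4 h5, b, key b a hb h1.sym33 h5 h4, h1, h2, h3, h4,
      h5⟩)
  · obtain ⟨a, b, h1, h2, h3, h4 | h4⟩ := h1
    · rw [c.lowF h4.2 h1.2.1] at h2
      exact absurd h2 (G.irr _)
    · exact Or.inr (Or.inr (Or.inl ⟨a, h4.1, b, h4.2, h1, h2, h3⟩))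
  · obtain ⟨a, b, h1, h2, h3, h4 | h4⟩ := h1
    · have h5 := h1.2.2.2.1
      rw [c.lowF h4.2 h1.2.1] at h5
      exact absurd (mem_insert_self _ _) h5
    · exact Or.inr (Or.inr (Or.inr (Or.inl ⟨a, h4.1, b, h4.2, h1, h2, h3⟩)))
  · obtain ⟨a, b, h1, h4 | h4⟩ := h1
    · have h5 := h1.2.2.1
      rw [c.lowF h4.2 h1.2.1, c.lowF h4.1 h1.1] at h5
      exact absurd h5 (G.irr _)
    · exact Or.inr (Or.inr (Or.inr (Or.inr ⟨a, h4.1, b, h4.2, h1⟩)))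

/-- covers at `h` -/
theorem covh (c : Cx G F l h h' v w) {y : V} (hy : y ∈ G.nb h) :
    (∃ u ∈ G.N F, G.Low u ∧ h ∈ G.nb u ∧ y ∈ G.nb u) ∨
    (h ∈ G.nb l ∧ y ∈ G.nb l) ∨ (h ∈ G.nb v ∧ y ∈ G.nb v) ∨
    (∃ a ∈ G.N F, ∃ b ∈ G.N F, G.Tw a b ∧ h ∈ G.nb a ∧ h ∈ G.nb b ∧ y ∈ G.nb a ∧ y ∈ G.nb b) ∨
    (∃ a ∈ F, G.HL a l y ∧ h ∈ G.nb a) ∨
    (∃ a ∈ G.N F, ∃ b ∈ G.N F, G.HL a b y ∧ h ∈ G.nb b ∧ h ∈ G.nb a) ∨
    (∃ a ∈ G.N F, ∃ b ∈ G.N F, G.LL a b h y) := by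
  rcases c.cov c.hF hy with h1 | h1 | h1 | h1 | h1
  · obtain ⟨u, hu, h1, h2, h3⟩ := h1
    rcases mem_union.1 hu with h4 | h4
    · rw [c.lowF h4 h1] at h2 h3
      exact Or.inr (Or.inl ⟨h2, h3⟩)
    · exact Or.inl ⟨u, h4, h1, h2, h3⟩
  · obtain ⟨a, ha, b, hb, h1, h2, h3, h4, h5⟩ := h1
    have key : ∀ a b, a ∈ F ∪ G.N F → G.Tw a b → h ∈ G.nb a → h ∈ G.nb b → y ∈ G.nb a →
        y ∈ G.nb b → a ∈ G.N F ∨ (h ∈ G.nb v ∧ y ∈ G.nb v) := by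
      intro a b ha h1 h2 h3 h4 h5
      rcases mem_union.1 ha with h6 | h6
      · right
        rcases c.twF h6 h1 with ⟨rfl, rfl⟩ | ⟨rfl, rfl⟩
        · exact ⟨h2, h4⟩
        · exact ⟨h3, h5⟩
      · exact Or.inl h6
    rcases key a b ha h1 h2 h3 h4 h5 with h6 | h6
    · rcases key b a hb h1.sym33 h3 h2 h5 h4 with h7 | h7
      · exact Or.inr (Or.inr (Or.inr (Or.inl ⟨a, h6, b, h7, h1, h2, h3, h4, h5⟩)))
      · exact Or.inr (Or.inr (Or.inl h7))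
    · exact Or.inr (Or.inr (Or.inl h6))
  · obtain ⟨a, b, h1, h2, h3, h4 | h4⟩ := h1
    · rw [c.lowF h4.2 h1.2.1] at h1
      exact Or.inr (Or.inr (Or.inr (Or.inr (Or.inl ⟨a, h4.1, h1, h3⟩))))
    · exact Or.inr (Or.inr (Or.inr (Or.inr (Or.inr (Or.inl ⟨a, h4.1, b, h4.2, h1, h2, h3⟩)))))
  · obtain ⟨a, b, h1, -⟩ := h1
    exact absurd (c.L.1.sat _ _ _ h1) c.hh.1
  · obtain ⟨a, b, h1, h4 | h4⟩ := h1
    · have h5 := h1.2.2.1
      rw [c.lowF h4.2 h1.2.1, c.lowF h4.1 h1.1] at h5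
      exact absurd h5 (G.irr _)
    · exact Or.inr (Or.inr (Or.inr (Or.inr (Or.inr (Or.inr ⟨a, h4.1, b, h4.2, h1⟩)))))

/-- the first vertex of `HL` in `F` is `h` or `h'` -/
theorem HLF (c : Cx G F l h h' v w) {a b t : V} (ha : a ∈ F) (h1 : G.HL a b t) :
    a = h ∨ a = h' := by
  rcases c.all ha with h2 | h2 | h2 | h2 | h2
  · have := h1.1
    rw [h2, show (G.nb l).card = 6 from c.low] at this
    omega
  · exact Or.inl h2
  · exact Or.inr h2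
  · exact absurd ⟨_, h2 ▸ c.tw⟩ ((stTwHL_5 G).notHL c.n9 _ _ _ h1)
  · exact absurd ⟨_, h2 ▸ c.tw.sym33⟩ ((stTwHL_5 G).notHL c.n9 _ _ _ h1)

/-- `y` is covered from `N F` -/
def TC (G : CG V) (F : Finset V) (y : V) : Prop :=
  (∃ u ∈ G.N F, G.Low u ∧ y ∈ G.nb u) ∨
  (∃ a ∈ G.N F, ∃ b ∈ G.N F, G.Tw a b ∧ y ∈ G.nb a ∧ y ∈ G.nb b) ∨
  (∃ a ∈ G.N F, ∃ b ∈ G.N F, G.HL a b y)

theorem tcov (c : Cx G F l h h' v w) {y : V} (hy : y ∈ G.N F) (h1 : l ∉ G.nb y ∨ v ∉ G.nb y)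
    (h2 : G.Low y → v ∈ G.nb y → h ∉ G.nb y ∧ h' ∉ G.nb y) : TC G F y := by
  by_cases hv : v ∈ G.nb y
  · have hl : l ∉ G.nb y := by
      rcases h1 with h1 | h1
      · exact h1
      · exact absurd hv h1
    rcases c.covv (G.sym _ _ hv) with ⟨u, hu, k1, -, k2⟩ | k | k | ⟨a, ha, k⟩ |
      ⟨a, ha, b, hb, k, -⟩
    · exact Or.inl ⟨u, hu, k1, k2⟩
    · exact absurd (G.sym _ _ k) hl
    · exact Or.inr (Or.inl k)
    · exfalso
      have h3 := h2 (c.L.1.sat _ _ _ k) hv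
      have h4 : a ∈ G.nb y := G.sym _ _ (HL_nb5 k)
      rcases c.HLF ha k with rfl | rfl
      · exact h3.1 h4
      · exact h3.2 h4
    · exact Or.inr (Or.inr ⟨a, ha, b, hb, k⟩)
  · have hv' : y ∉ G.nb v := fun h => hv (G.sym _ _ h)
    by_cases hl : l ∈ G.nb y
    · rcases c.covl (G.sym _ _ hl) hv' with ⟨u, hu, k1, -, k2⟩ |
        ⟨a, ha, b, hb, k, -, -, k1, k2⟩ | ⟨a, ha, b, hb, k, -⟩ | ⟨a, ha, b, hb, k, k1, -⟩ |
        ⟨a, ha, b, hb, k⟩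
      · exact Or.inl ⟨u, hu, k1, k2⟩
      · exact Or.inr (Or.inl ⟨a, ha, b, hb, k, k1, k2⟩)
      · exact Or.inr (Or.inr ⟨a, ha, b, hb, k⟩)
      · exact Or.inl ⟨b, hb, k.2.1, k1⟩
      · exact Or.inl ⟨b, hb, k.2.1, LL_u76 k⟩
    · have hl' : y ∉ G.nb l := fun h => hl (G.sym _ _ h)
      have h3 := c.bas.pos F c.L.1 y hy
      rw [c.dN hy, ch0 hl, ch0 hv] at h3
      have h4 := ch_le (h ∈ G.nb y)
      have h5 := ch_le (h' ∈ G.nb y)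
      have hh : h ∈ G.nb y := ch_iff.1 (by omega)
      have hh' : h' ∈ G.nb y := ch_iff.1 (by omega)
      have key : ∀ {h h' : V}, Cx G F l h h' v w → y ∈ G.nb h → TC G F y ∨ G.HL h' l y := by
        intro h h' c hh
        rcases c.covh hh with ⟨u, hu, k1, -, k2⟩ | ⟨-, k⟩ | ⟨-, k⟩ |
          ⟨a, ha, b, hb, k, -, -, k1, k2⟩ | ⟨a, ha, k, k1⟩ | ⟨a, ha, b, hb, k, -⟩ |
          ⟨a, ha, b, hb, k⟩
        · exact Or.inl (Or.inl ⟨u, hu, k1, k2⟩)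
        · exact absurd k hl'
        · exact absurd k hv'
        · exact Or.inl (Or.inr (Or.inl ⟨a, ha, b, hb, k, k1, k2⟩))
        · rcases c.HLF ha k with rfl | rfl
          · exact absurd k1 (G.irr _)
          · exact Or.inr k
        · exact Or.inl (Or.inr (Or.inr ⟨a, ha, b, hb, k⟩))
        · exact Or.inl (Or.inl ⟨b, hb, k.2.1, LL_u76 k⟩)
      rcases key c (G.sym _ _ hh) with k | k
      · exact k
      · rcases key c.symm (G.sym _ _ hh') with k' | k'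
        · exact k'
        · exact absurd ((stTwHL_5 G).one c.n9 _ _ _ _ k k').symm c.ne

/-! ### values -/

theorem nn (c : Cx G F l h h' v w) {y : V} (hy : y ∈ G.N F) : 0 ≤ G.gam5 F y :=
  c.s7.nn F c.L y hy

theorem val3 (c : Cx G F l h h' v w) {y : V} (hy : y ∈ G.N F) (hl : G.Low y)
    (h3 : 3 ≤ G.d y F) : 6 ≤ G.gam5 F y := by
  by_cases h5 : 5 ≤ G.d y F
  · have := (c.b.low5 F c.L.1 y hy hl h5).2.2
    omega
  · by_cases h4 : G.d y F = 4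
    · have := (c.b.low4 F c.L.1 y hy hl h4).2.1
      omega
    · exact (c.b.low3 F c.L.1 y hy hl (by omega)).2.1

theorem val4 (c : Cx G F l h h' v w) {y : V} (hy : y ∈ G.N F) (hl : G.Low y)
    (h3 : 4 ≤ G.d y F) : 10 ≤ G.gam5 F y := by
  by_cases h5 : 5 ≤ G.d y F
  · have := (c.b.low5 F c.L.1 y hy hl h5).2.2
    omega
  · exact (c.b.low4 F c.L.1 y hy hl (by omega)).2.1

theorem val2 (c : Cx G F l h h' v w) {y : V} (hy : y ∈ G.N F) (hl : G.Low y)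
    (h2 : G.d y F = 2) : 2 + 2 * ((G.pT F y).card : ℤ) ≤ G.gam5 F y := by
  rcases (c.b.low2 F c.L.1 y hy hl h2).2.1 with k | ⟨-, ⟨p, p', hp, k1⟩, -, k2⟩
  · exact k
  · exfalso
    have h3 : p ∈ G.pT F y := by
      rw [k1]
      exact mem_insert_self _ _
    have h4 := (k2 p h3).1
    have h5 := (c.s7.tw3 F c.L p (mem_inter.1 h3).2 ⟨_, hp⟩).1
    omega

theorem valt (c : Cx G F l h h' v w) {y : V} (hy : y ∈ G.N F) (ht : G.IsTw y) : 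
    0 ≤ G.gam5 F y ∧ (2 ≤ (G.pT F y).card → 1 ≤ G.gam5 F y) := by
  refine ⟨c.nn hy, fun h2 => ?_⟩
  obtain ⟨h1, h3⟩ := c.s7.tw3 F c.L y hy ht
  obtain ⟨-, -, -, k1, k2, k3⟩ := c.b.tw F c.L.1 y hy ht
  rcases h3 with h3 | h3
  · have := k2 (by omega)
    rw [h3] at this
    omega
  · exact k3 h3

end Cx

end J5c16

end CG

end Pool.Agent.Lib.MP_e95c01_co.N
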