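import Pool.Agent.Lib.MP_e95c01_co.X.StmtsV76

/-!
# `λ = 3`, thick torsos: first payments and charges, statements

A low vertex pays every twin vertex in at most one neighbourhood 2 (1 if it is in a common
neighbourhood) and every hub `x` in at most one neighbourhood 2, but nothing if `HL x b z`. A twin
vertex pays every hub in at most one neighbourhood 1. A vertex in two or more neighbourhoods pays
only if it can take part in a cover (`Us5`).
-/

namespace Pool.Agent.Lib.MP_e95c01_co.N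

open Finset

variable {V : Type} [Fintype V] [DecidableEq V] (G : CG V)

namespace CG

/-- `w` pays `x` -/
def Us5 (Fa : Finset (Finset V)) (w x : V) : Prop :=
  (G.I Fa w).card ≤ 1 ∨ G.m Fa x w = 0 ∨ ∃ u ∈ G.nR Fa x, G.m Fa x u = 0 ∧
    (u ∈ G.nb w ∨ (∃ b ∈ R Fa, G.LL w b x u) ∨ ∃ a ∈ R Fa, G.HL a w u ∧ x ∈ G.nb a)

open Classical in
/-- what `w` pays to `x` -/
noncomputable def pay5 (Fa : Finset (Finset V)) (w x : V) : ℤ :=
  if 2 ≤ (G.I Fa x).card ∨ ¬ G.Us5 Fa w x then 0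
  else if G.Low w then
    (if G.Low x then 0 else if G.IsTw x then (if G.m Fa x w = 0 then 2 else 1)
      else if ∃ b, G.HL x b w then 0 else 2)
  else if G.IsTw w then (if G.Hub x then 1 else 0) else 0

/-- the charge after the first payments -/
noncomputable def ch5 (Fa : Finset (Finset V)) (z : V) : ℤ :=
  G.bal5 Fa z + ∑ x ∈ G.nR Fa z, (G.pay5 Fa x z - G.pay5 Fa z x)

open Classical in
/-- the neighbours in `R` which the low vertex `z` (in at most one neighbourhood) does not pay -/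
noncomputable def NF (Fa : Finset (Finset V)) (z : V) : Finset V :=
  (G.nR Fa z).filter fun x => G.Low x ∨ 2 ≤ (G.I Fa x).card ∨ ∃ b, G.HL x b z

open Classical in
/-- the twin neighbours in `R` that get 1 only -/
noncomputable def NP (Fa : Finset (Finset V)) (z : V) : Finset V :=
  (G.nR Fa z).filter fun x => G.IsTw x ∧ (G.I Fa x).card ≤ 1 ∧ G.m Fa x z ≠ 0

open Classical in
/-- the hubs in at most one neighbourhood -/
noncomputable def NH (Fa : Finset (Finset V)) (z : V) : Finset V :=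
  (G.nR Fa z).filter fun x => G.Hub x ∧ (G.I Fa x).card ≤ 1

open Classical in
/-- the low neighbours without a common neighbourhood -/
noncomputable def NO (Fa : Finset (Finset V)) (z : V) : Finset V :=
  (G.nR Fa z).filter fun x => G.Low x ∧ G.m Fa x z = 0

open Classical in
/-- the low neighbours with a common neighbourhood that pay 1 to the twin vertex `z` -/
noncomputable def NT (Fa : Finset (Finset V)) (z : V) : Finset V :=
  (G.nR Fa z).filter fun x => G.Low x ∧ G.m Fa x z ≠ 0 ∧ G.Us5 Fa x z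

open Classical in
/-- the low vertices that pay the hub `z` -/
noncomputable def HPl (Fa : Finset (Finset V)) (z : V) : Finset V :=
  (G.nR Fa z).filter fun x => G.Low x ∧ (¬ ∃ b, G.HL z b x) ∧ G.Us5 Fa x z

open Classical in
/-- the twin vertices that pay the hub `z` -/
noncomputable def HPt (Fa : Finset (Finset V)) (z : V) : Finset V :=
  (G.nR Fa z).filter fun x => G.IsTw x ∧ G.Us5 Fa x z

/-- the flags -/
noncomputable def fg5 (Fa : Finset (Finset V)) (z : V) : ℤ :=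
  ∑ B ∈ G.I Fa z, (G.flv (G.Co B) z - G.flv B z)

/-- weight of the neighbour `x` at the low vertex `z` in two neighbourhoods -/
noncomputable def w5 (Fa : Finset (Finset V)) (x z : V) : ℤ :=
  4 - 2 * (G.m Fa x z : ℤ) - G.pay5 Fa z x

/-- weight of the neighbour `x` at the twin vertex `z` in two neighbourhoods -/
noncomputable def v5 (Fa : Finset (Finset V)) (x z : V) : ℤ :=
  2 - (G.m Fa x z : ℤ) + G.pay5 Fa x z - G.pay5 Fa z x

/-- K1: the charges -/
structure StCh5 : Prop where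
  sum : ∀ Fa : Finset (Finset V), ∑ z ∈ R Fa, G.ch5 Fa z = ∑ z ∈ R Fa, G.bal5 Fa z
  low0 : 9 ≤ Fintype.card V → ∀ Fa : Finset (Finset V), G.Reg Fa → ∀ z ∈ R Fa, G.Low z →
    G.I Fa z = ∅ → G.ch5 Fa z = 2 * ((G.NF Fa z).card : ℤ) - 4
  low1 : 9 ≤ Fintype.card V → ∀ Fa : Finset (Finset V), G.Reg Fa → ∀ z ∈ R Fa, G.Low z →
    ∀ B, G.I Fa z = {B} → G.ch5 Fa z = 2 * (G.d z (G.Co B) : ℤ) + 2 * ((G.NF Fa z).card : ℤ) +
      ((G.NP Fa z).card : ℤ) - 8 + G.fg5 Fa z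
  low2 : 9 ≤ Fintype.card V → ∀ Fa : Finset (Finset V), G.Reg Fa → ∀ z ∈ R Fa, G.Low z →
    G.ch5 Fa z = 8 * (((G.I Fa z).card : ℤ) - 2) + ∑ x ∈ G.nR Fa z, G.w5 Fa x z + G.fg5 Fa z
  tw0 : 9 ≤ Fintype.card V → ∀ Fa : Finset (Finset V), G.Reg Fa → ∀ z ∈ R Fa, G.IsTw z →
    G.I Fa z = ∅ → G.ch5 Fa z = 2 * (G.tl Fa z : ℤ) - ((G.NH Fa z).card : ℤ) - 4
  tw1 : 9 ≤ Fintype.card V → ∀ Fa : Finset (Finset V), G.Reg Fa → ∀ z ∈ R Fa, G.IsTw z →
    ∀ B, G.I Fa z = {B} → G.ch5 Fa z = 2 * (G.d z (G.Co B) : ℤ) + (G.d z (G.N B) : ℤ) - 9 +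
      2 * ((G.NO Fa z).card : ℤ) + ((G.NT Fa z).card : ℤ) - ((G.NH Fa z).card : ℤ) + G.fg5 Fa z
  tw2 : 9 ≤ Fintype.card V → ∀ Fa : Finset (Finset V), G.Reg Fa → ∀ z ∈ R Fa, G.IsTw z →
    G.ch5 Fa z = 9 * (((G.I Fa z).card : ℤ) - 2) + ∑ x ∈ G.nR Fa z, G.v5 Fa x z + G.fg5 Fa z
  hub0 : ∀ Fa : Finset (Finset V), ∀ z ∈ R Fa, G.Hub z → (G.I Fa z).card ≤ 1 →
    G.ch5 Fa z = 2 * ((G.I Fa z).card : ℤ) - 4 + 2 * ((G.HPl Fa z).card : ℤ) +
      ((G.HPt Fa z).card : ℤ)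
  hub2 : ∀ Fa : Finset (Finset V), ∀ z ∈ R Fa, G.Hub z → 2 ≤ (G.I Fa z).card →
    G.ch5 Fa z = 2 * ((G.I Fa z).card : ℤ) - 4

end CG

end Pool.Agent.Lib.MP_e95c01_co.N
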