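import Pool.Agent.Lib.MP_e95c01_co.X.StmtsV76
import Pool.Agent.Lib.MP_e95c01_co.X.G01_16
import Pool.Agent.Lib.MP_e95c01_co.T.Aux76
import Pool.Agent.Lib.MP_e95c01_co.N.Basic37

/-!
# Thick torsos: structure lemmas

Common neighbours, sets without a common member of the family, expansion, covers.
-/

namespace Pool.Agent.Lib.MP_e95c01_co.N

open Finset

variable {V : Type} [Fintype V] [DecidableEq V]

namespace CG

variable {G : CG V} {Fa : Finset (Finset V)}

/-! ### small sets -/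

/-- the number of vertices outside of `S` and `N S` -/
theorem card_Co86 (G : CG V) (S : Finset V) :
    (G.Co S).card + (S.card + (G.N S).card) = Fintype.card V := by
  have h1 : Disjoint S (G.N S) := by
    rw [disjoint_left]
    intro x hx h2
    exact (mem_N76.1 h2).1 hx
  have h2 := card_union_of_disjoint h1
  have h3 := card_compl (S ∪ G.N S)
  have h4 : (S ∪ G.N S).card ≤ Fintype.card V := card_le_univ _
  rw [Co]
  omega

/-- a set with few neighbours -/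
theorem six_le86 (G : CG V) {S : Finset V} (hS : S.Nonempty)
    (h : S.card + (G.N S).card < Fintype.card V) : 6 ≤ (G.N S).card := by
  refine stN6_37 G S hS ?_
  have := card_Co86 G S
  rw [← card_pos]
  omega

/-- the neighbourhood of two adjacent vertices -/
theorem N_pair86 {a b : V} (h : b ∈ G.nb a) :
    (G.N {a, b}).card + 2 + (G.nb a ∩ G.nb b).card = (G.nb a).card + (G.nb b).card := by
  have hab : a ≠ b := ne_of_nb5 h
  have h1 : G.N {a, b} = ((G.nb a ∪ G.nb b).erase a).erase b := by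
    ext x
    rw [mem_N76, mem_erase, mem_erase, mem_union, mem_insert, mem_singleton]
    constructor
    · rintro ⟨h1, u, hu, hx⟩
      rw [mem_insert, mem_singleton] at hu
      refine ⟨fun e => h1 (Or.inr e), fun e => h1 (Or.inl e), ?_⟩
      rcases hu with rfl | rfl
      · exact Or.inl hx
      · exact Or.inr hx
    · rintro ⟨h1, h2, h3⟩
      refine ⟨fun h4 => h4.elim h2 h1, ?_⟩
      rcases h3 with h3 | h3
      · exact ⟨a, by simp, h3⟩
      · exact ⟨b, by simp, h3⟩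
  have ha : a ∈ G.nb a ∪ G.nb b := mem_union_right _ (G.sym _ _ h)
  have hb : b ∈ (G.nb a ∪ G.nb b).erase a := mem_erase.2 ⟨hab.symm, mem_union_left _ h⟩
  have h2 := card_union_add_card_inter (G.nb a) (G.nb b)
  have h3 := card_erase_of_mem ha
  have h4 := card_erase_of_mem hb
  have h5 : 0 < (G.nb a ∪ G.nb b).card := card_pos.2 ⟨a, ha⟩
  have h6 : 0 < ((G.nb a ∪ G.nb b).erase a).card := card_pos.2 ⟨b, hb⟩
  rw [h1]
  omega

/-- the neighbourhood of a pair of twins -/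
theorem N_tw86 {v w : V} (h : G.Tw v w) : G.N {v, w} = (G.nb v).erase w := by
  ext x
  rw [mem_N76, mem_erase, mem_insert, mem_singleton]
  constructor
  · rintro ⟨h1, u, hu, hx⟩
    rw [mem_insert, mem_singleton] at hu
    refine ⟨fun e => h1 (Or.inr e), ?_⟩
    rcases hu with rfl | rfl
    · exact hx
    · have h2 : x ∈ G.cl u := mem_insert_of_mem hx
      rw [← h.2.2, cl, mem_insert] at h2
      exact h2.resolve_left fun e => h1 (Or.inl e)
  · rintro ⟨h1, h2⟩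
    refine ⟨fun h3 => h3.elim (fun e => G.irr v (e ▸ h2)) h1, v, by simp, h2⟩

/-- two adjacent low vertices have at most four common neighbours -/
theorem ll_le86 (n9 : 9 ≤ Fintype.card V) {a b : V} (ha : G.Low a) (hb : G.Low b)
    (h : b ∈ G.nb a) : (G.nb a ∩ G.nb b).card ≤ 4 := by
  by_contra hc
  have h1 := N_pair86 h
  have h2 : (G.nb a).card = 6 := ha
  have h3 : (G.nb b).card = 6 := hb
  have h4 : ({a, b} : Finset V).card ≤ 2 := card_le_two
  have h5 := six_le86 G (S := {a, b}) ⟨a, by simp⟩ (by omega)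
  omega

/-- four common neighbours: an `LL` pair -/
theorem ll_four86 {a b : V} (ha : G.Low a) (hb : G.Low b) (h : b ∈ G.nb a)
    (h4 : (G.nb a ∩ G.nb b).card = 4) : ∃ t u, G.LL a b t u := by
  have hab : a ≠ b := ne_of_nb5 h
  have h2 : (G.nb a).card = 6 := ha
  have h3 : (G.nb b).card = 6 := hb
  have key : ∀ {a b : V}, (G.nb a).card = 6 → b ∈ G.nb a → (G.nb a ∩ G.nb b).card = 4 →
      ∃ t, t ∈ G.nb a ∧ t ≠ b ∧ t ∉ G.nb b ∧ ∀ x ∈ G.nb a, x = t ∨ x = b ∨ x ∈ G.nb b := by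
    intro a b h2 h h4
    have h5 : ((G.nb a \ G.nb b).erase b).card = 1 := by
      have h6 := card_sdiff_add_card_inter (G.nb a) (G.nb b)
      have h7 : b ∈ G.nb a \ G.nb b := mem_sdiff.2 ⟨h, G.irr b⟩
      rw [card_erase_of_mem h7]
      omega
    obtain ⟨t, ht⟩ := card_eq_one.1 h5
    have ht' : t ∈ (G.nb a \ G.nb b).erase b := ht.symm ▸ mem_singleton_self t
    rw [mem_erase, mem_sdiff] at ht'
    refine ⟨t, ht'.2.1, ht'.1, ht'.2.2, fun x hx => ?_⟩
    by_cases hxb : x = b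
    · exact Or.inr (Or.inl hxb)
    by_cases hxn : x ∈ G.nb b
    · exact Or.inr (Or.inr hxn)
    left
    have : x ∈ (G.nb a \ G.nb b).erase b := mem_erase.2 ⟨hxb, mem_sdiff.2 ⟨hx, hxn⟩⟩
    rw [ht] at this
    exact mem_singleton.1 this
  obtain ⟨t, t1, t2, t3, t4⟩ := key h2 h h4
  obtain ⟨u, u1, u2, u3, u4⟩ := key h3 (G.sym _ _ h) (by rw [inter_comm]; exact h4)
  have hta : t ≠ a := fun e => G.irr a (e ▸ t1)
  have hub : u ≠ b := fun e => G.irr b (e ▸ u1)
  refine ⟨t, u, ha, hb, h, ?_, ?_, ?_, ?_⟩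
  · rintro rfl
    exact t3 u1
  · rw [cl, mem_insert]
    rintro (e | e)
    exacts [t2 e, t3 e]
  · rw [cl, mem_insert]
    rintro (e | e)
    exacts [u2 e, u3 e]
  · ext x
    rw [mem_insert, mem_insert, cl, cl, mem_insert, mem_insert]
    constructor
    · rintro (rfl | rfl | hx)
      · exact Or.inr (Or.inr u1)
      · exact Or.inr (Or.inr (G.sym _ _ h))
      · rcases t4 x hx with e | e | e
        exacts [Or.inl e, Or.inr (Or.inl e), Or.inr (Or.inr e)]
    · rintro (rfl | rfl | hx)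
      · exact Or.inr (Or.inr t1)
      · exact Or.inr (Or.inr h)
      · rcases u4 x hx with e | e | e
        exacts [Or.inl e, Or.inr (Or.inl e), Or.inr (Or.inr e)]

/-- a low vertex and a pair of twins, the neighbourhood of the three vertices -/
theorem N_lq86 {l v w : V} (ht : G.Tw v w) (h : v ∈ G.nb l) (hlw : l ≠ w) :
    (G.N {l, v, w}).card + 2 + (G.nb l ∩ G.nb v).card = (G.nb l).card + 6 := by
  have hw : w ∈ G.nb l := G.sym _ _ (Tw_nb5 ht (G.sym _ _ h) hlw)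
  have hvl : l ∈ G.nb v := G.sym _ _ h
  have hlv : l ≠ v := ne_of_nb5 h
  have hvw : w ∈ G.nb v := ht.1
  have hvw' : v ≠ w := ne_of_nb5 hvw
  have h1 : G.N {l, v, w} = (((G.nb l ∪ G.nb v).erase l).erase v).erase w := by
    ext x
    rw [mem_N76, mem_erase, mem_erase, mem_erase, mem_union, mem_insert, mem_insert,
      mem_singleton]
    constructor
    · rintro ⟨h1, u, hu, hx⟩
      rw [mem_insert, mem_insert, mem_singleton] at hu
      refine ⟨fun e => h1 (Or.inr (Or.inr e)), fun e => h1 (Or.inr (Or.inl e)),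
        fun e => h1 (Or.inl e), ?_⟩
      rcases hu with rfl | rfl | rfl
      · exact Or.inl hx
      · exact Or.inr hx
      · have h2 : x ∈ G.cl u := mem_insert_of_mem hx
        rw [← ht.2.2, cl, mem_insert] at h2
        exact Or.inr (h2.resolve_left fun e => h1 (Or.inr (Or.inl e)))
    · rintro ⟨h1, h2, h3, h4⟩
      refine ⟨fun h5 => h5.elim h3 (fun h6 => h6.elim h2 h1), ?_⟩
      rcases h4 with h4 | h4
      · exact ⟨l, by simp, h4⟩
      · exact ⟨v, by simp, h4⟩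
  have e1 : l ∈ G.nb l ∪ G.nb v := mem_union_right _ hvl
  have e2 : v ∈ (G.nb l ∪ G.nb v).erase l := mem_erase.2 ⟨hlv.symm, mem_union_left _ h⟩
  have e3 : w ∈ ((G.nb l ∪ G.nb v).erase l).erase v :=
    mem_erase.2 ⟨hvw'.symm, mem_erase.2 ⟨hlw.symm, mem_union_left _ hw⟩⟩
  have h2 := card_union_add_card_inter (G.nb l) (G.nb v)
  have h3 := card_erase_of_mem e1
  have h4 := card_erase_of_mem e2
  have h5 := card_erase_of_mem e3
  have p1 : 0 < (G.nb l ∪ G.nb v).card := card_pos.2 ⟨l, e1⟩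
  have p2 : 0 < ((G.nb l ∪ G.nb v).erase l).card := card_pos.2 ⟨v, e2⟩
  have p3 : 0 < (((G.nb l ∪ G.nb v).erase l).erase v).card := card_pos.2 ⟨w, e3⟩
  have h7 : (G.nb v).card = 7 := ht.2.1
  rw [h1]
  omega

/-- a low vertex and a pair of twins (the partner is counted) -/
theorem lq_le86 (n9 : 9 ≤ Fintype.card V) {l v w : V} (hl : G.Low l) (ht : G.Tw v w)
    (h : v ∈ G.nb l) : (G.nb l ∩ G.nb v).card ≤ 4 := by
  have hlw : l ≠ w := by
    rintro rfl
    have h1 : (G.nb l).card = 6 := hl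
    have h2 : (G.cl v).card = 8 := by rw [cl, card_insert_of_notMem (G.irr v), ht.2.1]
    have h3 : (G.cl l).card = 7 := by rw [cl, card_insert_of_notMem (G.irr l), h1]
    rw [ht.2.2] at h2
    omega
  by_contra hc
  have h1 := N_lq86 ht h hlw
  have h2 : (G.nb l).card = 6 := hl
  have h4 : ({l, v, w} : Finset V).card ≤ 3 := card_le_three
  have h5 := six_le86 G (S := {l, v, w}) ⟨l, by simp⟩ (by omega)
  omega

/-- two adjacent pairs of twins -/
theorem N_qq86 (n9 : 9 ≤ Fintype.card V) {v w v' w' : V} (ht : G.Tw v w) (ht' : G.Tw v' w')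
    (h : v' ∈ G.nb v) (hn : v' ≠ w) :
    (G.N {v, w, v', w'}).card + (G.nb v ∩ G.nb v').card = 10 ∧
      ({v, w, v', w'} : Finset V).card = 4 := by
  have hq := qs16 G
  have hvv : v ≠ v' := ne_of_nb5 h
  have e0 : v ≠ w := ne_of_nb5 ht.1
  have e0' : v' ≠ w' := ne_of_nb5 ht'.1
  have hvw' : v ≠ w' := by
    rintro rfl
    exact hn (q_uniq76 hq n9 (hq.symm _ _ ht') ht)
  have hww : w ≠ w' := by
    rintro rfl
    exact hvv (q_uniq76 hq n9 (hq.symm _ _ ht) (hq.symm _ _ ht'))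
  have hw' : w' ∈ G.nb v := G.sym _ _ (Tw_nb5 ht' (G.sym _ _ h) hvw')
  have hw : w ∈ G.nb v' := G.sym _ _ (Tw_nb5 ht h hn)
  have h1 : G.N {v, w, v', w'} =
      ((((G.nb v ∪ G.nb v').erase v).erase w).erase v').erase w' := by
    ext x
    rw [mem_N76, mem_erase, mem_erase, mem_erase, mem_erase, mem_union, mem_insert, mem_insert,
      mem_insert, mem_singleton]
    constructor
    · rintro ⟨h1, u, hu, hx⟩
      rw [mem_insert, mem_insert, mem_insert, mem_singleton] at hu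
      refine ⟨fun e => h1 (Or.inr (Or.inr (Or.inr e))), fun e => h1 (Or.inr (Or.inr (Or.inl e))),
        fun e => h1 (Or.inr (Or.inl e)), fun e => h1 (Or.inl e), ?_⟩
      rcases hu with rfl | rfl | rfl | rfl
      · exact Or.inl hx
      · have h2 : x ∈ G.cl u := mem_insert_of_mem hx
        rw [← ht.2.2, cl, mem_insert] at h2
        exact Or.inl (h2.resolve_left fun e => h1 (Or.inl e))
      · exact Or.inr hx
      · have h2 : x ∈ G.cl u := mem_insert_of_mem hx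
        rw [← ht'.2.2, cl, mem_insert] at h2
        exact Or.inr (h2.resolve_left fun e => h1 (Or.inr (Or.inr (Or.inl e))))
    · rintro ⟨h1, h2, h3, h4, h5⟩
      refine ⟨fun h6 => h6.elim h4 (fun h7 => h7.elim h3 (fun h8 => h8.elim h2 h1)), ?_⟩
      rcases h5 with h5 | h5
      · exact ⟨v, by simp, h5⟩
      · exact ⟨v', by simp, h5⟩
  have e1 : v ∈ G.nb v ∪ G.nb v' := mem_union_right _ (G.sym _ _ h)
  have e2 : w ∈ (G.nb v ∪ G.nb v').erase v := mem_erase.2 ⟨e0.symm, mem_union_left _ ht.1⟩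
  have e3 : v' ∈ ((G.nb v ∪ G.nb v').erase v).erase w :=
    mem_erase.2 ⟨hn, mem_erase.2 ⟨hvv.symm, mem_union_left _ h⟩⟩
  have e4 : w' ∈ (((G.nb v ∪ G.nb v').erase v).erase w).erase v' :=
    mem_erase.2 ⟨e0'.symm, mem_erase.2 ⟨hww.symm, mem_erase.2 ⟨hvw'.symm, mem_union_left _ hw'⟩⟩⟩
  have h2 := card_union_add_card_inter (G.nb v) (G.nb v')
  have h3 := card_erase_of_mem e1
  have h4 := card_erase_of_mem e2
  have h5 := card_erase_of_mem e3
  have h6 := card_erase_of_mem e4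
  have p1 : 0 < (G.nb v ∪ G.nb v').card := card_pos.2 ⟨v, e1⟩
  have p2 : 0 < ((G.nb v ∪ G.nb v').erase v).card := card_pos.2 ⟨w, e2⟩
  have p3 : 0 < (((G.nb v ∪ G.nb v').erase v).erase w).card := card_pos.2 ⟨v', e3⟩
  have p4 : 0 < ((((G.nb v ∪ G.nb v').erase v).erase w).erase v').card := card_pos.2 ⟨w', e4⟩
  have h7 : (G.nb v).card = 7 := ht.2.1
  have h8 : (G.nb v').card = 7 := ht'.2.1
  constructor
  · rw [h1]
    omega
  · rw [card_insert_of_notMem, card_insert_of_notMem, card_insert_of_notMem, card_singleton]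
    · rw [mem_singleton]; exact e0'
    · rw [mem_insert, mem_singleton]
      exact fun e => e.elim (fun e => hn e.symm) hww
    · rw [mem_insert, mem_insert, mem_singleton]
      exact fun e => e.elim e0 (fun e => e.elim hvv hvw')

/-- two adjacent pairs of twins (the partners are counted) -/
theorem qq_le86 (n10 : 10 ≤ Fintype.card V) {v w v' w' : V} (ht : G.Tw v w)
    (ht' : G.Tw v' w') (h : v' ∈ G.nb v) (hn : v' ≠ w) : (G.nb v ∩ G.nb v').card ≤ 4 := by
  by_contra hc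
  obtain ⟨h1, h2⟩ := N_qq86 (by omega) ht ht' h hn
  have h5 := six_le86 G (S := {v, w, v', w'}) ⟨v, by simp⟩ (by omega)
  omega

/-! ### vertices in no neighbourhood of the family -/

/-- E0 -/
theorem E0_86 (hG : G.Gen5 Fa) {S : Finset V} (h3 : 3 ≤ S.card) (h5 : S.card ≤ 5)
    (hS : ∀ z ∈ S, z ∈ R Fa ∧ G.I Fa z = ∅) (hc : 3 ≤ (G.Co S).card) : 7 ≤ (G.N S).card := by
  have hne : S.Nonempty := card_pos.1 (by omega)
  have h6 := stN6_37 G S hne (card_pos.1 (by omega))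
  by_contra h7
  have hb : G.Big S := ⟨⟨hne, by omega, card_pos.1 (by omega)⟩, h3, hc⟩
  have := (hG.nobig S hb hS).1
  omega

/-- E0 for three vertices and at least twelve vertices in all -/
theorem E03_86 (hG : G.Gen5 Fa) (n12 : 12 ≤ Fintype.card V) {S : Finset V} (h3 : S.card = 3)
    (hS : ∀ z ∈ S, z ∈ R Fa ∧ G.I Fa z = ∅) : 7 ≤ (G.N S).card := by
  by_contra h7
  have h1 := card_Co86 G S
  exact h7 (E0_86 hG (by omega) (by omega) hS (by omega))

/-- a vertex in no neighbourhood and a member of the family: at least twelve vertices -/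
theorem n12_86 (hG : G.Gen5 Fa) {B : Finset V} (hB : B ∈ Fa) {S : Finset V} (h3 : 3 ≤ S.card)
    (hS : S ⊆ G.Co B) : 12 ≤ Fintype.card V := by
  have h1 := card_Co86 G B
  have h2 := (hG.reg.frag B hB).2.1
  have h4 := hG.big B hB
  have h5 := card_le_card hS
  omega

/-- a low vertex and a pair of twins in no neighbourhood (the partner is counted) -/
theorem lq_D0_86 (hG : G.Gen5 Fa) (n12 : 12 ≤ Fintype.card V) {l v w : V} (hl : G.Low l)
    (ht : G.Tw v w) (h : v ∈ G.nb l) (h1 : l ∈ R Fa ∧ G.I Fa l = ∅)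
    (h2 : v ∈ R Fa ∧ G.I Fa v = ∅) (h3 : w ∈ R Fa ∧ G.I Fa w = ∅) :
    (G.nb l ∩ G.nb v).card ≤ 3 := by
  have hlw : l ≠ w := by
    rintro rfl
    have h1 : (G.nb l).card = 6 := hl
    have h2 : (G.cl v).card = 8 := by rw [cl, card_insert_of_notMem (G.irr v), ht.2.1]
    have h3 : (G.cl l).card = 7 := by rw [cl, card_insert_of_notMem (G.irr l), h1]
    rw [ht.2.2] at h2
    omega
  have hlv : l ≠ v := ne_of_nb5 h
  have hvw' : v ≠ w := ne_of_nb5 ht.1
  have hc : ({l, v, w} : Finset V).card = 3 := by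
    rw [card_insert_of_notMem, card_insert_of_notMem, card_singleton]
    · rw [mem_singleton]; exact hvw'
    · rw [mem_insert, mem_singleton]
      exact fun e => e.elim hlv hlw
  have h4 := E03_86 hG n12 hc (by
    intro z hz
    rw [mem_insert, mem_insert, mem_singleton] at hz
    rcases hz with rfl | rfl | rfl
    exacts [h1, h2, h3])
  have h5 := N_lq86 ht h hlw
  have h6 : (G.nb l).card = 6 := hl
  omega

/-- two adjacent pairs of twins in no neighbourhood (the partners are counted) -/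
theorem qq_D0_86 (hG : G.Gen5 Fa) (n13 : 13 ≤ Fintype.card V) {v w v' w' : V} (ht : G.Tw v w)
    (ht' : G.Tw v' w') (h : v' ∈ G.nb v) (hn : v' ≠ w) (h1 : v ∈ R Fa ∧ G.I Fa v = ∅)
    (h2 : w ∈ R Fa ∧ G.I Fa w = ∅) (h3 : v' ∈ R Fa ∧ G.I Fa v' = ∅)
    (h4 : w' ∈ R Fa ∧ G.I Fa w' = ∅) : (G.nb v ∩ G.nb v').card ≤ 3 := by
  obtain ⟨e1, e2⟩ := N_qq86 hG.n9 ht ht' h hn
  by_contra hc
  have e3 := card_Co86 G {v, w, v', w'}
  have e4 := E0_86 hG (S := {v, w, v', w'}) (by omega) (by omega) (by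
    intro z hz
    rw [mem_insert, mem_insert, mem_insert, mem_singleton] at hz
    rcases hz with rfl | rfl | rfl | rfl
    exacts [h1, h2, h3, h4]) (by omega)
  omega

/-! ### expansion -/

/-- E1 for one vertex -/
theorem e1_86 (hG : G.Gen5 Fa) {z : V} (hz : z ∈ R Fa) {B : Finset V} (hI : G.I Fa z = {B}) :
    2 ≤ G.d z (G.Co B) := by
  have hB : B ∈ Fa := (mem_I76.1 (hI.symm ▸ mem_singleton_self B : B ∈ G.I Fa z)).1
  have h1 := hG.exp B hB {z} ⟨z, by simp⟩ (by simp) (by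
    intro y hy
    rw [mem_singleton] at hy
    subst hy
    exact ⟨hz, hI⟩)
  rw [card_singleton] at h1
  have h2 : G.N {z} ∩ G.Co B ⊆ G.nb z ∩ G.Co B := by
    intro x hx
    rw [mem_inter, mem_N76] at hx
    obtain ⟨⟨-, u, hu, hx1⟩, hx2⟩ := hx
    rw [mem_singleton] at hu
    subst hu
    exact mem_inter.2 ⟨hx1, hx2⟩
  have h3 := card_le_card h2
  rw [d]
  omega

/-- the neighbours of a set in `Co B` -/
theorem N_Co86 {B Z : Finset V} (hZ : ∀ y ∈ Z, y ∈ G.N B) :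
    G.N Z ∩ G.Co B = Z.biUnion G.nb ∩ G.Co B := by
  ext x
  rw [mem_inter, mem_inter, mem_N76, mem_biUnion]
  constructor
  · rintro ⟨⟨-, u, hu, hx⟩, h2⟩
    exact ⟨⟨u, hu, hx⟩, h2⟩
  · rintro ⟨⟨u, hu, hx⟩, h2⟩
    refine ⟨⟨fun h3 => ?_, u, hu, hx⟩, h2⟩
    exact (mem_Co76.1 h2).2 (hZ x h3)

/-- E1 -/
theorem exp_86 (hG : G.Gen5 Fa) {B Z : Finset V} (hZ : Z.Nonempty) (h3 : Z.card ≤ 3)
    (hI : ∀ y ∈ Z, y ∈ R Fa ∧ G.I Fa y = {B}) :
    Z.card < (Z.biUnion G.nb ∩ G.Co B).card := by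
  obtain ⟨y, hy⟩ := hZ
  have hB : B ∈ Fa := (mem_I76.1 ((hI y hy).2.symm ▸ mem_singleton_self B : B ∈ G.I Fa y)).1
  have h1 := hG.exp B hB Z ⟨y, hy⟩ h3 hI
  rwa [N_Co86 (fun z hz => (mem_I76.1 ((hI z hz).2.symm ▸ mem_singleton_self B :
    B ∈ G.I Fa z)).2)] at h1

/-- E1 for a twin vertex -/
theorem e1q_86 (hG : G.Gen5 Fa) {v w : V} (ht : G.Tw v w) (hv : v ∈ R Fa) {B : Finset V}
    (hI : G.I Fa v = {B}) : 3 ≤ G.d v (G.Co B) := by
  have hw := q_I76 (qs16 G) hG.reg hv ht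
  have hvw : v ≠ w := ne_of_nb5 ht.1
  have hwN : w ∈ G.N B := (mem_I76.1 ((hw.2.trans hI).symm ▸ mem_singleton_self B :
    B ∈ G.I Fa w)).2
  have h1 := exp_86 hG (B := B) (Z := {v, w}) ⟨v, by simp⟩ (by
      have := card_le_two (a := v) (b := w)
      omega) (by
    intro y hy
    rw [mem_insert, mem_singleton] at hy
    rcases hy with rfl | rfl
    · exact ⟨hv, hI⟩
    · exact ⟨hw.1, hw.2.trans hI⟩)
  have h2 : ({v, w} : Finset V).card = 2 := card_pair hvw
  have h3 : ({v, w} : Finset V).biUnion G.nb ∩ G.Co B ⊆ G.nb v ∩ G.Co B := by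
    intro x hx
    rw [mem_inter, mem_biUnion] at hx
    obtain ⟨⟨u, hu, hx1⟩, hx2⟩ := hx
    rw [mem_insert, mem_singleton] at hu
    refine mem_inter.2 ⟨?_, hx2⟩
    rcases hu with rfl | rfl
    · exact hx1
    · have h4 : x ∈ G.cl u := mem_insert_of_mem hx1
      rw [← ht.2.2, cl, mem_insert] at h4
      rcases h4 with rfl | h4
      · exact absurd (mem_I76.1 (hI.symm ▸ mem_singleton_self B : B ∈ G.I Fa x)).2
          (mem_Co76.1 hx2).2
      · exact h4
  have h5 := card_le_card h3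
  rw [d]
  omega

/-- E1 for two vertices -/
theorem e2_86 (hG : G.Gen5 Fa) {y z : V} (hyz : y ≠ z) (hy : y ∈ R Fa) (hz : z ∈ R Fa)
    {B : Finset V} (hIy : G.I Fa y = {B}) (hIz : G.I Fa z = {B}) :
    3 ≤ ((G.nb y ∪ G.nb z) ∩ G.Co B).card := by
  have h1 := exp_86 hG (B := B) (Z := {y, z}) ⟨y, by simp⟩ (by
      have := card_le_two (a := y) (b := z)
      omega) (by
    intro x hx
    rw [mem_insert, mem_singleton] at hx
    rcases hx with rfl | rfl
    exacts [⟨hy, hIy⟩, ⟨hz, hIz⟩])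
  have h2 : ({y, z} : Finset V).card = 2 := card_pair hyz
  have h3 : ({y, z} : Finset V).biUnion G.nb = G.nb y ∪ G.nb z := by
    rw [biUnion_insert, singleton_biUnion]
  rw [h3] at h1
  omega

/-- E1 for three vertices -/
theorem e3_86 (hG : G.Gen5 Fa) {x y z : V} (hxy : x ≠ y) (hxz : x ≠ z) (hyz : y ≠ z)
    (hx : x ∈ R Fa) (hy : y ∈ R Fa) (hz : z ∈ R Fa) {B : Finset V} (hIx : G.I Fa x = {B})
    (hIy : G.I Fa y = {B}) (hIz : G.I Fa z = {B}) :
    4 ≤ ((G.nb x ∪ G.nb y ∪ G.nb z) ∩ G.Co B).card := by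
  have h2 : ({x, y, z} : Finset V).card = 3 := by
    rw [card_insert_of_notMem, card_pair hyz]
    rw [mem_insert, mem_singleton]
    exact fun e => e.elim hxy hxz
  have h1 := exp_86 hG (B := B) (Z := {x, y, z}) ⟨x, by simp⟩ (by omega) (by
    intro u hu
    rw [mem_insert, mem_insert, mem_singleton] at hu
    rcases hu with rfl | rfl | rfl
    exacts [⟨hx, hIx⟩, ⟨hy, hIy⟩, ⟨hz, hIz⟩])
  have h3 : ({x, y, z} : Finset V).biUnion G.nb = G.nb x ∪ G.nb y ∪ G.nb z := by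
    rw [biUnion_insert, biUnion_insert, singleton_biUnion, union_assoc]
  rw [h3] at h1
  omega

/-- E1 for a vertex and a pair of twins -/
theorem e3q_86 (hG : G.Gen5 Fa) {z v w : V} (ht : G.Tw v w) (hzv : z ≠ v) (hzw : z ≠ w)
    (hz : z ∈ R Fa) (hv : v ∈ R Fa) {B : Finset V} (hIz : G.I Fa z = {B})
    (hIv : G.I Fa v = {B}) : 4 ≤ ((G.nb z ∪ G.nb v) ∩ G.Co B).card := by
  have hw := q_I76 (qs16 G) hG.reg hv ht
  have h1 := e3_86 hG hzv hzw (ne_of_nb5 ht.1) hz hv hw.1 hIz hIv (hw.2.trans hIv)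
  refine h1.trans (card_le_card ?_)
  intro x hx
  rw [mem_inter, mem_union, mem_union] at hx
  rw [mem_inter, mem_union]
  refine ⟨?_, hx.2⟩
  rcases hx.1 with (h2 | h2) | h2
  · exact Or.inl h2
  · exact Or.inr h2
  · have h4 : x ∈ G.cl w := mem_insert_of_mem h2
    rw [← ht.2.2, cl, mem_insert] at h4
    rcases h4 with rfl | h4
    · exact absurd (mem_I76.1 (hIv.symm ▸ mem_singleton_self B : B ∈ G.I Fa x)).2
        (mem_Co76.1 hx.2).2
    · exact Or.inr h4

/-! ### covers -/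

/-- the torso with all pairs of twins -/
theorem tor86 (hG : G.Gen5 Fa) : G.Torso3 G.Tw Fa where
  reg := hG.reg
  big := hG.big
  n9 := hG.n9
  sat := hG.sat
  cov := hG.cov

/-- a common low vertex or a common pair of twins of `z` and `x`, in `R` -/
def Cc86 (G : CG V) (Fa : Finset (Finset V)) (z x : V) : Prop :=
  (∃ w, w ∈ G.nR Fa z ∧ w ∈ G.nR Fa x ∧ G.Low w) ∨
  (∃ v w, v ∈ G.nR Fa z ∧ w ∈ G.nR Fa z ∧ v ∈ G.nR Fa x ∧ w ∈ G.nR Fa x ∧ G.Tw v w)

/-- cover of the edge `z x`, `z` low, `x` a hub -/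
theorem cov_lh86 (hG : G.Gen5 Fa) {z x : V} (hz : z ∈ R Fa) (hx : x ∈ G.nR Fa z)
    (hm : G.m Fa z x = 0) (hxl : ¬ G.Low x) : G.Cc86 Fa z x ∨
    (∃ a b, a ∈ G.nR Fa z ∧ b ∈ R Fa ∧ G.HL a b z ∧ x ∈ G.nb b ∧ x ∈ G.nb a ∧ x ≠ a) ∨
    (∃ a b, a ∈ G.nR Fa z ∧ b ∈ R Fa ∧ x ∈ G.nb b ∧ G.LL a b z x) := by
  have hxR := (mem_nR76.1 hx).2
  rcases cov3_76 (qs16 G) (tor86 hG) hz hx hm with h | h | h | h | h
  · obtain ⟨w, h1, h2, h3, -⟩ := h
    exact Or.inl (Or.inl ⟨w, h1, h2, h3⟩)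
  · obtain ⟨v, w, h1, h2, h3, h4, h5⟩ := h
    exact Or.inl (Or.inr ⟨v, w, h1, h2, mem_nR76.2 ⟨G.sym _ _ h4, (mem_nR76.1 h1).2⟩,
      mem_nR76.2 ⟨G.sym _ _ h5, (mem_nR76.1 h2).2⟩, h3⟩)
  · obtain ⟨a, b, h1, h2, -, h3, h4, h5⟩ := h
    exact Or.inr (Or.inl ⟨a, b, h1, h2, h3, h4, HL_sub76 h3 h4 h5, h5⟩)
  · obtain ⟨a, b, h1, h2, h3, -⟩ := h
    exact absurd h3 hxl
  · obtain ⟨a, b, h1, h2, h3, h4⟩ := h
    exact Or.inr (Or.inr ⟨a, b, h1, h2, h3, h4⟩)

/-- cover of the edge `z x`, `z` a twin vertex, `x` not low -/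
theorem cov_qh86 (hG : G.Gen5 Fa) {z x : V} (hz : z ∈ R Fa) (hzt : G.IsTw z)
    (hx : x ∈ G.nR Fa z) (hm : G.m Fa z x = 0) (hxl : ¬ G.Low x) : G.Cc86 Fa z x := by
  have hzl : ¬ G.Low z := q_not_low76 (qs16 G) hzt
  rcases cov_lh86 hG hz hx hm hxl with h | h | h
  · exact h
  · obtain ⟨a, b, h1, h2, h3, -⟩ := h
    exact absurd (hG.sat _ _ _ h3) hzl
  · obtain ⟨a, b, h1, h2, h3, h4⟩ := h
    exact absurd hzt (twLL_5 h4)

end CG

end Pool.Agent.Lib.MP_e95c01_co.N
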