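import Pool.Agent.Lib.MP_e95c01_co.X.K1_28
import Pool.Agent.Lib.MP_e95c01_co.X.K2_86

/-!
# `λ = 3`, thick torsos: vertices in two or more neighbourhoods, weights and flags
-/

namespace Pool.Agent.Lib.MP_e95c01_co.N

open Finset

variable {V : Type} [Fintype V] [DecidableEq V]

namespace CG

namespace K28

variable {G : CG V} {Fa : Finset (Finset V)}

/-! ### weights -/

theorem pay_le_two (z x : V) : G.pay5 Fa z x ≤ 2 := by
  unfold pay5
  split_ifs <;> norm_num

theorem pay_nonneg (z x : V) : 0 ≤ G.pay5 Fa z x := by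
  unfold pay5
  split_ifs <;> norm_num

theorem w5_many {x z : V} (h : 2 ≤ (G.I Fa x).card) :
    G.w5 Fa x z = 4 - 2 * (G.m Fa x z : ℤ) := by
  rw [w5, pay_to_many h, sub_zero]

theorem w5_low {x z : V} (h : G.Low x) : G.w5 Fa x z = 4 - 2 * (G.m Fa x z : ℤ) := by
  rw [w5, pay_to_low h, sub_zero]

theorem m_le_left (x z : V) : G.m Fa x z ≤ (G.I Fa x).card := card_le_card inter_subset_left

theorem w5_zero {x z : V} (h : G.m Fa x z = 0) : 2 ≤ G.w5 Fa x z := by
  have := pay_le_two (G := G) (Fa := Fa) z x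
  rw [w5, h]
  push_cast
  linarith

/-- general lower bound -/
theorem w5_ge {x z : V} (c : ℤ) (hc : 0 ≤ c) (h : (G.m Fa x z : ℤ) ≤ 2 + c) :
    - (2 * c) ≤ G.w5 Fa x z := by
  by_cases h2 : 2 ≤ (G.I Fa x).card
  · rw [w5_many h2]
    linarith
  · have h3 := m_le_left (G := G) (Fa := Fa) x z
    have h4 : (G.m Fa x z : ℤ) ≤ 1 := by exact_mod_cast (show G.m Fa x z ≤ 1 by omega)
    have h5 := pay_le_two (G := G) (Fa := Fa) z x
    rw [w5]
    linarith

theorem w5_nonneg {x z : V} (h : G.m Fa x z ≤ 2) : 0 ≤ G.w5 Fa x z := by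
  have := w5_ge (G := G) (Fa := Fa) (x := x) (z := z) 0 le_rfl (by
    have : (G.m Fa x z : ℤ) ≤ 2 := by exact_mod_cast h
    linarith)
  linarith

theorem w5_tw {x z : V} (ht : G.IsTw x) (h : G.m Fa x z ≤ 1) : 1 ≤ G.w5 Fa x z := by
  classical
  rcases Nat.le_one_iff_eq_zero_or_eq_one.1 h with h0 | h1
  · have := w5_zero h0
    linarith
  · by_cases h2 : 2 ≤ (G.I Fa x).card
    · rw [w5_many h2, h1]
      norm_num
    · have h3 : G.pay5 Fa z x ≤ 1 := by
        have hl : ¬ G.Low x := tw_not_low11 ht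
        unfold pay5
        by_cases a1 : 2 ≤ (G.I Fa x).card ∨ ¬ G.Us5 Fa z x
        · rw [if_pos a1]
          norm_num
        · rw [if_neg a1]
          by_cases a2 : G.Low z
          · rw [if_pos a2, if_neg hl, if_pos ht, if_neg (by omega)]
          · rw [if_neg a2]
            split_ifs <;> norm_num
      rw [w5, h1]
      push_cast
      linarith

/-- a hub which is not paid -/
theorem w5_unpaid {x z : V} (h : G.m Fa x z ≤ 1) (hp : G.pay5 Fa z x = 0) :
    2 ≤ G.w5 Fa x z := by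
  have h4 : (G.m Fa x z : ℤ) ≤ 1 := by exact_mod_cast h
  rw [w5, hp]
  linarith

/-- a low vertex pays nothing to the hub `a` with `HL a b z` -/
theorem pay_HL (h9 : 9 ≤ Fintype.card V) {a b z : V} (hz : G.Low z) (h : G.HL a b z) :
    G.pay5 Fa z a = 0 := by
  classical
  have h1 : ¬ G.Low a := HL_not_low76 h
  have h2 : ¬ G.IsTw a := (stTwHL_5 G).notHL h9 _ _ _ h
  unfold pay5
  by_cases a1 : 2 ≤ (G.I Fa a).card ∨ ¬ G.Us5 Fa z a
  · rw [if_pos a1]
  · rw [if_neg a1, if_pos hz, if_neg h1, if_neg h2, if_pos ⟨b, h⟩]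

/-! ### flags of a low vertex -/

theorem s5_le (S : Finset V) (z : V) : G.s5 S z ≤ 2 := by
  unfold s5
  split_ifs <;> norm_num

theorem s5_nonneg (S : Finset V) (z : V) : 0 ≤ G.s5 S z := by
  unfold s5
  split_ifs <;> norm_num

theorem s5_zero {S : Finset V} {z : V} (h : ∀ v, ¬ G.S0 S z v) : G.s5 S z = 0 := by
  classical
  unfold s5
  rw [if_neg (fun ⟨v, h1, _⟩ => h v h1), if_neg (fun ⟨v, h1, _⟩ => h v h1)]

theorem s5_LLs {S : Finset V} {z : V} (h : ∀ v, G.S0 S z v → G.LLs S z v) : G.s5 S z ≤ 1 := by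
  classical
  unfold s5
  rw [if_neg (fun ⟨v, h1, h2⟩ => h2 (h v h1))]
  split_ifs <;> norm_num

theorem s5_LLs' {S : Finset V} {z : V} (h : ∀ v, G.S0 S z v → G.LLs S z v ∧ G.pT S v ≠ {z}) :
    G.s5 S z = 0 := by
  classical
  unfold s5
  rw [if_neg (fun ⟨v, h1, h2⟩ => h2 (h v h1).1), if_neg (fun ⟨v, h1, h2⟩ => (h v h1).2 h2)]

theorem s5_two {S : Finset V} {z v : V} (h1 : G.S0 S z v) (h2 : ¬ G.LLs S z v) :
    G.s5 S z = 2 := by
  classical
  unfold s5
  rw [if_pos ⟨v, h1, h2⟩]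

theorem s5_one {S : Finset V} {z v : V} (h1 : G.S0 S z v) (h2 : G.pT S v = {z}) :
    1 ≤ G.s5 S z := by
  classical
  unfold s5
  split_ifs with a1 a2
  · norm_num
  · norm_num
  · exact absurd ⟨v, h1, h2⟩ a2

/-- the flag is the partner in `T` -/
theorem S0_uniq {S : Finset V} {z v w : V} (h : G.S0 S z v) (h' : w ∈ G.pT S z) : w = v := by
  have h1 := h.2.2.2.1
  rw [h1, mem_singleton] at h'
  exact h'

/-- the value of the flags of a low vertex -/
theorem flv_low {S : Finset V} {z : V} (hz : G.Low z) : G.flv S z = G.s5 S z +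
    2 * (by classical exact if G.U3 S z then (1 : ℤ) else 0) -
    2 * (by classical exact if G.T3 S z then (1 : ℤ) else 0) -
    2 * (by classical exact if G.HF S z then (1 : ℤ) else 0) := by
  classical
  have h : ¬ G.RF S z := fun ⟨_, p', _, _, h, _⟩ => tw_not_low11 ⟨p', h⟩ hz
  rw [flv, if_neg h]
  simp only [sub_zero]

/-- the contribution of `B` to the flags -/
noncomputable def ff (G : CG V) (B : Finset V) (z : V) : ℤ := G.flv (G.Co B) z - G.flv B z

theorem fg_eq (z : V) : G.fg5 Fa z = ∑ B ∈ G.I Fa z, ff G B z := rfl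

theorem flv_up {S : Finset V} {z : V} (hz : G.Low z) : G.flv S z ≤ G.s5 S z +
    2 * (by classical exact if G.U3 S z then (1 : ℤ) else 0) := by
  classical
  rw [flv_low hz]
  have h1 : (0 : ℤ) ≤ (if G.T3 S z then (1 : ℤ) else 0) := by split_ifs <;> norm_num
  have h2 : (0 : ℤ) ≤ (if G.HF S z then (1 : ℤ) else 0) := by split_ifs <;> norm_num
  linarith

end K28

end CG

end Pool.Agent.Lib.MP_e95c01_co.N
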