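import Pool.Agent.Lib.MP_e95c01_co.X.K3b_28

/-!
# `λ = 3`, thick torsos: low vertices in three or more neighbourhoods, twins in two or more
-/

namespace Pool.Agent.Lib.MP_e95c01_co.N

open Finset

variable {V : Type} [Fintype V] [DecidableEq V]

namespace CG

namespace K28

variable {G : CG V} {Fa : Finset (Finset V)}

theorem blob_Co (h : G.Reg Fa) {B B' : Finset V} (hB : B ∈ Fa) (hB' : B' ∈ Fa) (hne : B ≠ B')
    {x : V} (hx : x ∈ B') : x ∈ G.Co B := by
  have h1 := h.dis B hB B' hB' hne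
  exact mem_Co76.2 ⟨fun h2 => disjoint_left.1 h1.1 h2 hx, fun h2 => disjoint_left.1 h1.2 h2 hx⟩

theorem N_R (h : G.Reg Fa) {B : Finset V} (hB : B ∈ Fa) {x : V} (hx : x ∈ G.N B) : x ∈ R Fa :=
  N_sub_R76 h hB hx

theorem hid1 {z : V} {B : Finset V} (hB : B ∈ G.I Fa z) : 1 ≤ (G.nb z ∩ B).card :=
  d_pos76 (mem_I76.1 hB).2

/-- neighbours in all neighbourhoods of `z` -/
theorem m_full {x z : V} (h : (G.I Fa z).card ≤ G.m Fa x z) : ∀ B ∈ G.I Fa z, x ∈ G.N B := by
  have h1 : G.I Fa x ∩ G.I Fa z = G.I Fa z := eq_of_subset_of_card_le inter_subset_right h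
  intro B hB
  rw [← h1] at hB
  exact (mem_I76.1 (mem_of_mem_inter_left hB)).2

/-- bound for the sum of the flags -/
theorem fg_ge (h : G.Reg Fa) {z : V} (hz : G.Low z) :
    -2 * ((G.I Fa z).card : ℤ) ≤ G.fg5 Fa z := by
  rw [fg_eq]
  have h1 : ∑ B ∈ G.I Fa z, (-2 : ℤ) = -2 * ((G.I Fa z).card : ℤ) := by
    rw [sum_const, nsmul_eq_mul]
    ring
  rw [← h1]
  exact sum_le_sum fun B hB => ff_ge (h.frag B (mem_I76.1 hB).1) hz

theorem sum_w5_ge {z : V} (T : Finset V) (c : ℤ) (hc : 0 ≤ c)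
    (h : ∀ x ∈ G.nR Fa z, x ∉ T → G.m Fa x z ≤ 2)
    (h' : ∀ x ∈ G.nR Fa z, (G.m Fa x z : ℤ) ≤ 2 + c) :
    - (2 * c * ((T ∩ G.nR Fa z).card : ℤ)) ≤ ∑ x ∈ G.nR Fa z, G.w5 Fa x z := by
  classical
  have h1 : ∀ x ∈ G.nR Fa z, (if x ∈ T then - (2 * c) else 0) ≤ G.w5 Fa x z := by
    intro x hx
    by_cases hT : x ∈ T
    · rw [if_pos hT]
      exact w5_ge c hc (h' x hx)
    · rw [if_neg hT]
      exact w5_nonneg (h x hx hT)
  refine le_trans (le_of_eq ?_) (sum_le_sum h1)
  rw [← sum_filter, sum_const, nsmul_eq_mul]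
  have h2 : (G.nR Fa z).filter (fun x => x ∈ T) = T ∩ G.nR Fa z := by
    ext x
    simp only [mem_filter, mem_inter]
    tauto
  rw [h2]
  ring

/-- four or more neighbourhoods -/
theorem low_four (h9 : 9 ≤ Fintype.card V) (h : G.Reg Fa) {z : V} (hzR : z ∈ R Fa)
    (hz : G.Low z) (hk : 4 ≤ (G.I Fa z).card) : 0 ≤ G.ch5 Fa z ∧
      ((G.I Fa z).card ≤ 4 → 8 + ∑ x ∈ G.nR Fa z, G.w5 Fa x z ≤ G.ch5 Fa z) := by
  have h1 := (G.stCh5_28).low2 h9 Fa h z hzR hz
  have h2 := nR_card76 h hzR hz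
  have h3 := fg_ge h hz
  have h4 := sum_w5_ge (G := G) (Fa := Fa) (z := z) univ (((G.I Fa z).card : ℤ) - 2)
    (by have : (4 : ℤ) ≤ ((G.I Fa z).card : ℤ) := by exact_mod_cast hk
        linarith)
    (fun x _ hx => absurd (mem_univ x) hx)
    (fun x _ => by
      have : (G.m Fa x z : ℤ) ≤ ((G.I Fa z).card : ℤ) := by exact_mod_cast m_le11 x z
      linarith)
  rw [univ_inter] at h4
  have hk' : (4 : ℤ) ≤ ((G.I Fa z).card : ℤ) := by exact_mod_cast hk
  have h2' : ((G.nR Fa z).card : ℤ) + ((G.I Fa z).card : ℤ) ≤ 6 := by exact_mod_cast h2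
  have h5 : (((G.I Fa z).card : ℤ) - 2) * ((G.nR Fa z).card : ℤ) ≤
      (((G.I Fa z).card : ℤ) - 2) * (6 - ((G.I Fa z).card : ℤ)) :=
    mul_le_mul_of_nonneg_left (by linarith) (by linarith)
  constructor
  · nlinarith
  · intro h6
    have h6' : ((G.I Fa z).card : ℤ) ≤ 4 := by exact_mod_cast h6
    have h7 : ((G.I Fa z).card : ℤ) = 4 := by linarith
    rw [h7] at h1 h3
    linarith

/-- three neighbourhoods: the number of common neighbourhoods is three only in every `N B` -/
theorem three_T {z x : V} {B : Finset V} (hB : B ∈ G.I Fa z) (hk : (G.I Fa z).card = 3)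
    (hx : x ∈ G.nR Fa z) (hT : x ∉ G.nb z ∩ G.N B) : G.m Fa x z ≤ 2 := by
  by_contra hc
  refine hT (mem_inter.2 ⟨(mem_nR76.1 hx).1, ?_⟩)
  exact m_full (G := G) (Fa := Fa) (x := x) (z := z) (by omega) B hB

/-- three or more neighbourhoods -/
theorem low_three (h9 : 9 ≤ Fintype.card V) (h : G.Reg Fa) {z : V} (hzR : z ∈ R Fa)
    (hz : G.Low z) (hk : 3 ≤ (G.I Fa z).card) : 0 ≤ G.ch5 Fa z := by
  classical
  by_cases hk4 : 4 ≤ (G.I Fa z).card
  · exact (low_four h9 h hzR hz hk4).1
  have hk3 : (G.I Fa z).card = 3 := by omega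
  have h1 := (G.stCh5_28).low2 h9 Fa h z hzR hz
  have h2 := nR_card76 h hzR hz
  have h3 := fg_ge h hz
  have hm : ∀ x ∈ G.nR Fa z, (G.m Fa x z : ℤ) ≤ 2 + 1 := by
    intro x _
    have := m_le11 (G := G) (Fa := Fa) x z
    rw [hk3] at this
    have h5 : (G.m Fa x z : ℤ) ≤ 3 := by exact_mod_cast this
    linarith
  rw [hk3] at h1 h3 h2
  push_cast at h1 h3
  by_cases hf : ∃ B ∈ G.I Fa z, ff G B z < 0
  · obtain ⟨B, hB, hneg⟩ := hf
    have hBF := (mem_I76.1 hB).1
    have hfr := h.frag B hBF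
    have h4 := sum_w5_ge (G := G) (Fa := Fa) (z := z) (G.nb z ∩ G.N B) 1 (by norm_num)
      (fun x hx hT => three_T hB hk3 hx hT) hm
    have h5 : (((G.nb z ∩ G.N B) ∩ G.nR Fa z).card : ℤ) ≤ ((G.nb z ∩ G.N B).card : ℤ) := by
      exact_mod_cast card_le_card inter_subset_left
    have h6 := six_low hz B
    -- the two other neighbourhoods
    obtain ⟨B1, B2, hne, hI⟩ : ∃ B1 B2, B1 ≠ B2 ∧ (G.I Fa z).erase B = {B1, B2} := by
      have : ((G.I Fa z).erase B).card = 2 := by
        rw [card_erase_of_mem hB, hk3]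
      exact card_eq_two.1 this
    have m1 : B1 ∈ (G.I Fa z).erase B := by rw [hI]; exact mem_insert_self _ _
    have m2 : B2 ∈ (G.I Fa z).erase B := by
      rw [hI]
      exact mem_insert_of_mem (mem_singleton_self _)
    rw [mem_erase] at m1 m2
    have d1 := hid1 m1.2
    have d2 := hid1 m2.2
    have hF1 := (mem_I76.1 m1.2).1
    have hF2 := (mem_I76.1 m2.2).1
    have hsub : (G.nb z ∩ B1) ∪ (G.nb z ∩ B2) ⊆ G.nb z ∩ G.Co B := by
      intro x hx
      rw [mem_union, mem_inter, mem_inter] at hx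
      rcases hx with hx | hx
      · exact mem_inter.2 ⟨hx.1, blob_Co h hBF hF1 (Ne.symm m1.1) hx.2⟩
      · exact mem_inter.2 ⟨hx.1, blob_Co h hBF hF2 (Ne.symm m2.1) hx.2⟩
    have hdis : Disjoint (G.nb z ∩ B1) (G.nb z ∩ B2) := by
      rw [disjoint_left]
      intro x hx hx'
      exact disjoint_left.1 (h.dis B1 hF1 B2 hF2 hne).1 (mem_inter.1 hx).2 (mem_inter.1 hx').2
    have h7 := card_le_card hsub
    rw [card_union_of_disjoint hdis] at h7
    rcases ff_cases hfr hz with h8 | ⟨h8, h9' | h9' | h9' | h9'⟩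
    · linarith
    · obtain ⟨v, hv, -⟩ := h9'
      have h10 : (G.nb z ∩ G.N B).card = 1 := (S0_card hv).2
      rw [h10] at h5
      push_cast at h5
      linarith
    · have h10 := U3_card h9'
      have h11 : (G.nb z ∩ B).card = 3 := h10.1
      have h12 : (G.nb z ∩ G.N B).card = 2 := h10.2
      omega
    · have h10 := T3_card h9'
      rw [pT_Co hfr, pO_Co hfr] at h10
      have h11 : (G.nb z ∩ G.Co B).card = 2 := h10.1
      have h12 : (G.nb z ∩ G.N B).card = 2 := h10.2.1
      have h13 : (G.nb z ∩ B).card = 2 := h10.2.2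
      rw [h12] at h5
      push_cast at h5
      -- the other flags
      have hoth : ∀ D ∈ (G.I Fa z).erase B, 0 ≤ ff G D z := by
        intro D hD
        have hDI := (mem_erase.1 hD).2
        have hDF := (mem_I76.1 hDI).1
        have hD1 : (G.nb z ∩ D).card = 1 := by
          rw [hI, mem_insert, mem_singleton] at hD
          rcases hD with rfl | rfl <;> omega
        rcases ff_cases (h.frag D hDF) hz with k1 | ⟨-, k2 | k2 | k2 | k2⟩
        · exact k1
        · obtain ⟨v, hv, -⟩ := k2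
          have : (G.nb z ∩ D).card = 2 := (S0_card hv).1
          omega
        · have : (G.nb z ∩ D).card = 3 := (U3_card k2).1
          omega
        · have k3 := (T3_card k2).2.2
          rw [pO_Co (h.frag D hDF)] at k3
          omega
        · exfalso
          obtain ⟨-, -, -, a, b, k3, -, -, k4⟩ := k2
          rw [pT_Co (h.frag D hDF)] at k4
          have k5 : a ∈ G.nb z ∩ G.N D := by
            have : a ∈ G.pT D z := by rw [k4]; exact mem_singleton_self _
            exact this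
          rw [mem_inter] at k5
          -- `a` is visible, so it is in `N B`
          have k6 : a ∈ R Fa := N_R h hDF k5.2
          have k7 : a ∈ G.nb z ∩ G.N B := by
            by_contra hc
            have k8 : a ∈ G.nb z ∩ G.Co B := by
              refine mem_inter.2 ⟨k5.1, mem_Co76.2 ⟨mem_R76.1 k6 B hBF, fun hN => ?_⟩⟩
              exact hc (mem_inter.2 ⟨k5.1, hN⟩)
            have k9 : insert a ((G.nb z ∩ B1) ∪ (G.nb z ∩ B2)) ⊆ G.nb z ∩ G.Co B :=
              insert_subset k8 hsub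
            have k10 := card_le_card k9
            rw [card_insert_of_notMem, card_union_of_disjoint hdis] at k10
            · omega
            · rw [mem_union, mem_inter, mem_inter]
              rintro (hh | hh)
              · exact mem_R76.1 k6 B1 hF1 hh.2
              · exact mem_R76.1 k6 B2 hF2 hh.2
          have k11 := T3_pair h9'
          rw [pT_Co hfr] at k11
          exact (stTwHL_5 G).notHL h9 _ _ _ k3 (PairSet_tw h9 k11 k7)
      have h14 : 0 ≤ ∑ D ∈ (G.I Fa z).erase B, ff G D z := sum_nonneg hoth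
      have h15 : G.fg5 Fa z = ff G B z + ∑ D ∈ (G.I Fa z).erase B, ff G D z := by
        rw [fg_eq]
        exact (add_sum_erase (G.I Fa z) (fun D => ff G D z) hB).symm
      rw [h15] at h1
      linarith
    · have h10 := HF_card h9'
      rw [pT_Co hfr] at h10
      have h12 : (G.nb z ∩ G.N B).card = 1 := h10.2
      rw [h12] at h5
      push_cast at h5
      linarith
  · push Not at hf
    have h4 := sum_w5_ge (G := G) (Fa := Fa) (z := z) univ 1 (by norm_num)
      (fun x _ hx => absurd (mem_univ x) hx) hm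
    rw [univ_inter] at h4
    have h5 : 0 ≤ G.fg5 Fa z := by
      rw [fg_eq]
      exact sum_nonneg hf
    have h6 : ((G.nR Fa z).card : ℤ) ≤ 3 := by
      have : (G.nR Fa z).card ≤ 3 := by omega
      exact_mod_cast this
    linarith

end K28

end CG

end Pool.Agent.Lib.MP_e95c01_co.N
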