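import Pool.Agent.Lib.MP_e95c01_co.X.K3f_28

/-!
# `λ = 3`, thick torsos: low vertices in two neighbourhoods, the flag `S0`, first part
-/

namespace Pool.Agent.Lib.MP_e95c01_co.N

open Finset

variable {V : Type} [Fintype V] [DecidableEq V]

namespace CG

namespace K28

variable {G : CG V} {Fa : Finset (Finset V)} {z v : V} {B B' : Finset V}

/-- a neighbour in a member of the family: the member contains a neighbour -/
theorem I_two (h : G.Reg Fa) {B B' : Finset V} (hB : B ∈ G.I Fa v) (hB' : B' ∈ G.I Fa v)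
    (hcov : ∀ x ∈ G.nb v, x ∈ B ∨ x ∈ B' ∨ x ∈ R Fa) : G.I Fa v = {B, B'} := by
  ext D
  rw [mem_insert, mem_singleton]
  constructor
  · intro hD
    obtain ⟨x, hx⟩ := card_pos.1 (hid1 hD)
    rw [mem_inter] at hx
    have hDF := (mem_I76.1 hD).1
    rcases hcov x hx.1 with h1 | h1 | h1
    · left
      by_contra hne
      exact disjoint_left.1 (h.dis D hDF B (mem_I76.1 hB).1 hne).1 hx.2 h1
    · right
      by_contra hne
      exact disjoint_left.1 (h.dis D hDF B' (mem_I76.1 hB').1 hne).1 hx.2 h1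
    · exact absurd hx.2 (mem_R76.1 h1 D hDF)
  · rintro (rfl | rfl)
    · exact hB
    · exact hB'

/-- what is exported about the donor `v` of `z` -/
structure Don (G : CG V) (Fa : Finset (Finset V)) (v z : V) : Prop where
  few : (G.nR Fa v).card ≤ 3
  noHL : ∀ a ∈ R Fa, ∀ t ∈ R Fa, ¬ G.HL a v t
  noLL : ∀ l ∈ R Fa, ∀ y ∈ R Fa, G.LL v z l y → G.m Fa l v = 0
  cap : ((G.I Fa v).card = 2 ∧ G.I Fa v = G.I Fa z ∧ - G.ch5 Fa z ≤ G.ch5 Fa v ∧
      ∀ z' ∈ G.nR Fa v, G.I Fa z' = G.I Fa v → z' = z) ∨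
    (3 ≤ (G.I Fa v).card ∧ 4 ≤ G.ch5 Fa v ∧ (G.nR Fa v).card ≤ 2)

/-- the situation: flag `S0` with the partner in both neighbourhoods -/
structure S2 (G : CG V) (Fa : Finset (Finset V)) (z v : V) (B B' : Finset V) : Prop where
  c : Tw2 G Fa z B B'
  s : G.S0 B z v
  v2 : v ∈ G.N B'
  neg : G.ch5 Fa z < 0

namespace S2

theorem vlow (d : S2 G Fa z v B B') : G.Low v := d.s.2.2.1

theorem pT (d : S2 G Fa z v B B') : G.pT B z = {v} := d.s.2.2.2.1

theorem vT (d : S2 G Fa z v B B') : v ∈ G.pT B z := by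
  rw [d.pT]
  exact mem_singleton_self _

theorem v1 (d : S2 G Fa z v B B') : v ∈ G.N B := (mem_inter.1 d.vT).2

theorem vnb (d : S2 G Fa z v B B') : v ∈ G.nb z := (mem_inter.1 d.vT).1

theorem znb (d : S2 G Fa z v B B') : z ∈ G.nb v := G.sym _ _ d.vnb

theorem vR (d : S2 G Fa z v B B') : v ∈ R Fa := N_R d.c.reg d.c.F1 d.v1

theorem vT' (d : S2 G Fa z v B B') : v ∈ G.pT B' z := mem_inter.2 ⟨d.vnb, d.v2⟩

theorem mem1 (d : S2 G Fa z v B B') : B ∈ G.I Fa v := mem_I76.2 ⟨d.c.F1, d.v1⟩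

theorem mem2 (d : S2 G Fa z v B B') : B' ∈ G.I Fa v := mem_I76.2 ⟨d.c.F2, d.v2⟩

theorem z1 (d : S2 G Fa z v B B') : z ∈ G.N B := (mem_I76.1 d.c.mem1).2

theorem z2 (d : S2 G Fa z v B B') : z ∈ G.N B' := (mem_I76.1 d.c.mem2).2

theorem zT (d : S2 G Fa z v B B') : z ∈ G.pT B v := mem_inter.2 ⟨d.znb, d.z1⟩

theorem zT' (d : S2 G Fa z v B B') : z ∈ G.pT B' v := mem_inter.2 ⟨d.znb, d.z2⟩

theorem ne (d : S2 G Fa z v B B') : z ≠ v := ne_of_nb5 d.vnb

theorem cB (d : S2 G Fa z v B B') : (G.nb z ∩ B).card = 2 := (S0_card d.s).1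

theorem cO (d : S2 G Fa z v B B') : (G.nb z ∩ G.Co B).card = 3 := by
  have h1 := six_low d.c.low B
  have h2 : (G.nb z ∩ G.N B).card = 1 := (S0_card d.s).2
  have h3 := d.cB
  omega

theorem cX (d : S2 G Fa z v B B') :
    (G.nb z ∩ B').card + ((G.nR Fa z).filter fun x => x ∉ G.N B).card = 3 := by
  rw [← d.c.split_card, d.cO]

/-- the neighbours of `z` in `B` are neighbours of `v` -/
theorem sub (d : S2 G Fa z v B B') : G.nb z ∩ B ⊆ G.nb v ∩ B := by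
  obtain ⟨q, q', h1, h2, h3⟩ := d.s.2.2.2.2.1
  intro x hx
  have hx' : x ∈ G.pX B z := hx
  rw [h2, mem_insert, mem_singleton] at hx'
  refine mem_inter.2 ⟨?_, (mem_inter.1 hx).2⟩
  rcases hx' with rfl | rfl
  · exact h3
  · have h4 : v ∈ G.nb q := G.sym _ _ h3
    refine G.sym _ _ (Tw_nb5 h1 h4 ?_)
    rintro rfl
    exact mem_R76.1 d.vR B d.c.F1 (mem_inter.1 hx).2

theorem cBv (d : S2 G Fa z v B B') : 2 ≤ (G.nb v ∩ B).card := by
  rw [← d.cB]
  exact card_le_card d.sub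

theorem mv (d : S2 G Fa z v B B') : G.m Fa v z = 2 := by
  have h1 := d.c.m_le v
  have h2 : G.I Fa z ⊆ G.I Fa v ∩ G.I Fa z := by
    intro D hD
    refine mem_inter.2 ⟨?_, hD⟩
    rw [d.c.I, mem_insert, mem_singleton] at hD
    rcases hD with rfl | rfl
    · exact d.mem1
    · exact d.mem2
  have h3 := card_le_card h2
  rw [d.c.k2] at h3
  have h4 : G.m Fa v z = (G.I Fa v ∩ G.I Fa z).card := rfl
  omega

theorem wv (d : S2 G Fa z v B B') : G.w5 Fa v z = 0 := by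
  rw [w5_low d.vlow, d.mv]
  norm_num

theorem wz (d : S2 G Fa z v B B') : G.w5 Fa z v = 0 := by
  rw [w5_low d.c.low, m_comm76, d.mv]
  norm_num

theorem nR_eq (d : S2 G Fa z v B B') :
    G.nR Fa z = insert v ((G.nR Fa z).filter fun x => x ∉ G.N B) := by
  ext x
  rw [mem_insert, mem_filter]
  constructor
  · intro hx
    by_cases h : x ∈ G.N B
    · left
      have : x ∈ G.pT B z := mem_inter.2 ⟨(mem_nR76.1 hx).1, h⟩
      rw [d.pT, mem_singleton] at this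
      exact this
    · exact Or.inr ⟨hx, h⟩
  · rintro (rfl | h)
    · exact mem_nR76.2 ⟨d.vnb, d.vR⟩
    · exact h.1

theorem sumX (d : S2 G Fa z v B B') : ∑ x ∈ G.nR Fa z, G.w5 Fa x z =
    ∑ x ∈ (G.nR Fa z).filter (fun x => x ∉ G.N B), G.w5 Fa x z := by
  conv_lhs => rw [d.nR_eq]
  rw [sum_insert, d.wv, zero_add]
  rw [mem_filter, not_and_or]
  exact Or.inr (fun h => h d.v1)

theorem f1 (d : S2 G Fa z v B B') : G.s5 (G.Co B) z - G.s5 B z ≤ ff G B z :=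
  ff_low d.c.h9 d.c.fr1 d.c.low d.vlow d.vT

theorem f2 (d : S2 G Fa z v B B') : G.s5 (G.Co B') z - G.s5 B' z ≤ ff G B' z :=
  ff_low d.c.h9 d.c.fr2 d.c.low d.vlow d.vT'

theorem g1 (d : S2 G Fa z v B B') : G.s5 (G.Co B) v - G.s5 B v ≤ ff G B v :=
  ff_low d.c.h9 d.c.fr1 d.vlow d.c.low d.zT

theorem g2 (d : S2 G Fa z v B B') : G.s5 (G.Co B') v - G.s5 B' v ≤ ff G B' v :=
  ff_low d.c.h9 d.c.fr2 d.vlow d.c.low d.zT'

/-- `S0` at `v` -/
theorem S0v (d : S2 G Fa z v B B') {w : V} (h : G.S0 B v w) : w = z ∧ G.pT B v = {z} := by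
  have h1 := S0_uniq h d.zT
  refine ⟨h1.symm, ?_⟩
  rw [h1]
  exact h.2.2.2.1

theorem S0v' (d : S2 G Fa z v B B') {w : V} (h : G.S0 B' v w) : w = z ∧ G.pT B' v = {z} := by
  have h1 := S0_uniq h d.zT'
  refine ⟨h1.symm, ?_⟩
  rw [h1]
  exact h.2.2.2.1

theorem S0z (d : S2 G Fa z v B B') {w : V} (h : G.S0 B z w) : w = v := (S0_uniq h d.vT).symm

theorem S0z' (d : S2 G Fa z v B B') {w : V} (h : G.S0 B' z w) : w = v := (S0_uniq h d.vT').symm

/-- `LL z v` -/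
theorem LLv (d : S2 G Fa z v B B') {t u : V} (h : G.LL z v t u) {S : Finset V}
    (hS : G.pX S z = G.pX S v) : G.LLs S v z := ⟨⟨u, t, LL_symm76 h⟩, hS⟩

theorem ge (d : S2 G Fa z v B B') : -2 - G.s5 B' z ≤ G.ch5 Fa z := by
  have h0 : 0 ≤ ∑ x ∈ G.nR Fa z, G.w5 Fa x z := sum_nonneg fun x _ => d.c.w_nonneg x
  have h1 := d.f1
  have h2 := d.f2
  have h3 := s5_nonneg (G := G) (G.Co B) z
  have h4 := s5_nonneg (G := G) (G.Co B') z
  have h5 := s5_le (G := G) B z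
  have h6 := d.c.ch
  linarith

/-- no `HL a v t` if no hub of `N v` is in both neighbourhoods -/
theorem noHL_of (d : S2 G Fa z v B B')
    (h : ∀ a ∈ G.nR Fa v, a ∈ G.N B → a ∈ G.N B' → G.Low a) :
    ∀ a ∈ R Fa, ∀ t ∈ R Fa, ¬ G.HL a v t := by
  intro a ha t ht hh
  have h1 := HL_I76 hh ha d.vR ht
  have h2 : a ∈ G.nR Fa v := mem_nR76.2 ⟨G.sym _ _ (HL_b76 hh), ha⟩
  have h3 : B ∈ G.I Fa a := by rw [h1]; exact d.mem1
  have h4 : B' ∈ G.I Fa a := by rw [h1]; exact d.mem2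
  exact HL_not_low76 hh (h a h2 (mem_I76.1 h3).2 (mem_I76.1 h4).2)

end S2

end K28

end CG

end Pool.Agent.Lib.MP_e95c01_co.N
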