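import Pool.Agent.Lib.MP_e95c01_co.X.K3g_28

/-!
# `λ = 3`, thick torsos: low vertices in two neighbourhoods, two flags `S0`
-/

namespace Pool.Agent.Lib.MP_e95c01_co.N

open Finset

variable {V : Type} [Fintype V] [DecidableEq V]

namespace CG

namespace K28

variable {G : CG V} {Fa : Finset (Finset V)} {z v : V} {B B' : Finset V}

namespace S2

/-- flags on both sides, the one of `B` has the value 2 -/
theorem caseI (d : S2 G Fa z v B B') (hs : G.S0 B' z v) (h2 : G.s5 B z = 2) :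
    Don G Fa v z := by
  have c := d.c
  have e1 : (G.nb z ∩ B').card = 2 := (S0_card hs).1
  have hT' : G.pT B' z = {v} := hs.2.2.2.1
  -- the neighbours in `B'`
  have sub' : G.nb z ∩ B' ⊆ G.nb v ∩ B' := by
    obtain ⟨q, q', h1, h2, h3⟩ := hs.2.2.2.2.1
    intro x hx
    have hx' : x ∈ G.pX B' z := hx
    rw [h2, mem_insert, mem_singleton] at hx'
    refine mem_inter.2 ⟨?_, (mem_inter.1 hx).2⟩
    rcases hx' with rfl | rfl
    · exact h3
    · have h4 : v ∈ G.nb q := G.sym _ _ h3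
      refine G.sym _ _ (Tw_nb5 h1 h4 ?_)
      rintro rfl
      exact mem_R76.1 d.vR B' c.F2 (mem_inter.1 hx).2
  have hdis : Disjoint (G.nb z ∩ B) (G.nb z ∩ B') := by
    rw [disjoint_left]
    intro x hx hx'
    exact disjoint_left.1 (c.reg.dis B c.F1 B' c.F2 c.ne).1 (mem_inter.1 hx).2 (mem_inter.1 hx').2
  have hC : (G.nb z ∩ B) ∪ (G.nb z ∩ B') ⊆ G.nb z ∩ G.nb v := by
    intro x hx
    rw [mem_union] at hx
    rcases hx with hx | hx
    · exact mem_inter.2 ⟨(mem_inter.1 hx).1, (mem_inter.1 (d.sub hx)).1⟩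
    · exact mem_inter.2 ⟨(mem_inter.1 hx).1, (mem_inter.1 (sub' hx)).1⟩
  have hC4 : (G.nb z ∩ G.nb v).card = 4 := by
    have h3 := card_le_card hC
    rw [card_union_of_disjoint hdis, d.cB, e1] at h3
    have h4 := ll_le86 c.h9 c.low d.vlow d.vnb
    omega
  obtain ⟨t, u, hLL⟩ := ll_four86 c.low d.vlow d.vnb hC4
  -- not the same neighbours in `B`
  have hne : G.pX B v ≠ G.pX B z := by
    intro he
    have : G.s5 B z ≤ 1 := s5_LLs fun w hw => by
      rw [d.S0z hw]
      exact ⟨⟨t, u, hLL⟩, he⟩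
    linarith
  have h3 : 3 ≤ (G.nb v ∩ B).card := by
    by_contra hc
    have h4 : G.nb z ∩ B = G.nb v ∩ B := eq_of_subset_of_card_le d.sub (by rw [d.cB]; omega)
    exact hne h4.symm
  have hsB' : G.nb z ∩ B' ⊆ G.nb v ∩ G.Co B := fun x hx =>
    mem_inter.2 ⟨(mem_inter.1 (sub' hx)).1, blob_Co c.reg c.F1 c.F2 c.ne (mem_inter.1 hx).2⟩
  have h4 := card_le_card hsB'
  have h5 : 1 ≤ (G.nb v ∩ G.N B).card := card_pos.2 ⟨z, d.zT⟩
  have h6 := six_low d.vlow B
  have h7 : (G.nb v ∩ B).card = 3 := by omega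
  have h8 : G.nb v ∩ G.N B = {z} := by
    have : (G.nb v ∩ G.N B).card = 1 := by omega
    obtain ⟨y, hy⟩ := card_eq_one.1 this
    have h9 : z ∈ G.nb v ∩ G.N B := d.zT
    rw [hy, mem_singleton] at h9
    rw [hy, h9]
  have h9 : G.nb v ∩ G.Co B = G.nb z ∩ B' := (eq_of_subset_of_card_le hsB' (by omega)).symm
  have hcov : ∀ x ∈ G.nb v, x ∈ B ∨ x ∈ B' ∨ x = z := by
    intro x hx
    by_cases h10 : x ∈ B
    · exact Or.inl h10
    · by_cases h11 : x ∈ G.N B
      · have : x ∈ G.nb v ∩ G.N B := mem_inter.2 ⟨hx, h11⟩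
        rw [h8, mem_singleton] at this
        exact Or.inr (Or.inr this)
      · have : x ∈ G.nb v ∩ G.Co B := mem_inter.2 ⟨hx, mem_Co76.2 ⟨h10, h11⟩⟩
        rw [h9] at this
        exact Or.inr (Or.inl (mem_inter.1 this).2)
  have hI : G.I Fa v = {B, B'} := I_two c.reg d.mem1 d.mem2 fun x hx => by
    rcases hcov x hx with k | k | k
    · exact Or.inl k
    · exact Or.inr (Or.inl k)
    · rw [k]
      exact Or.inr (Or.inr c.zR)
  have hnR : G.nR Fa v = {z} := by
    ext x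
    rw [mem_singleton, mem_nR76]
    constructor
    · rintro ⟨x1, x2⟩
      rcases hcov x x1 with k | k | k
      · exact absurd k (mem_R76.1 x2 B c.F1)
      · exact absurd k (mem_R76.1 x2 B' c.F2)
      · exact k
    · rintro rfl
      exact ⟨d.znb, c.zR⟩
  have cv : Tw2 G Fa v B B' := ⟨c.h9, c.reg, c.big, d.vR, d.vlow, c.ne, hI⟩
  have hch := cv.ch
  rw [hnR, sum_singleton, d.wz] at hch
  -- the flags of `v`
  have k1 : G.s5 B v = 0 := s5_zero fun w hw => by
    have : (G.nb v ∩ B).card = 2 := (S0_card hw).1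
    omega
  have k2 : G.s5 (G.Co B) v = 2 := by
    refine s5_two (v := z) ⟨?_, d.vlow, c.low, ?_, ?_, ?_⟩ ?_
    · rw [(G.stCo_37 B c.fr1).2.1]
      exact d.v1
    · rw [pT_Co c.fr1]
      exact h8
    · obtain ⟨r, r', t1, t2, t3⟩ := hs.2.2.2.2.1
      refine ⟨r, r', t1, ?_, ?_⟩
      · show G.nb v ∩ G.Co B = {r, r'}
        rw [h9]
        exact t2
      · have : r ∈ G.pX B' z := by rw [t2]; exact mem_insert_self _ _
        exact (mem_inter.1 this).1
    · rintro ⟨-, h10⟩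
      rw [pO_Co c.fr1, d.cB] at h10
      omega
    · rintro ⟨-, h10⟩
      have h11 := congrArg card h10
      have h12 : (G.pX (G.Co B) z).card = 3 := d.cO
      have h13 : (G.pX (G.Co B) v).card = 2 := by
        show (G.nb v ∩ G.Co B).card = 2
        rw [h9, e1]
      omega
  have hX' : G.nb v ∩ B' = G.nb z ∩ B' := by
    refine Subset.antisymm ?_ sub'
    rw [← h9]
    intro x hx
    exact mem_inter.2 ⟨(mem_inter.1 hx).1, blob_Co c.reg c.F1 c.F2 c.ne (mem_inter.1 hx).2⟩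
  have k3 : G.s5 B' v ≤ 1 := s5_LLs fun w hw => by
    rw [(d.S0v' hw).1]
    exact d.LLv hLL hX'.symm
  have k4 : G.s5 B' z ≤ 1 := s5_LLs fun w hw => by
    rw [d.S0z' hw]
    exact ⟨⟨t, u, hLL⟩, hX'⟩
  have k5 := d.g1
  have k6 := d.g2
  have k7 := s5_nonneg (G := G) (G.Co B') v
  have k8 := s5_nonneg (G := G) (G.Co B') z
  have k9 := s5_nonneg (G := G) (G.Co B) z
  have hv1 : 1 ≤ G.ch5 Fa v := by linarith
  -- the value of `z`
  have hX1 : 2 ≤ ∑ x ∈ (G.nR Fa z).filter (fun x => x ∉ G.N B), G.w5 Fa x z := by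
    have h10 := d.cX
    rw [e1] at h10
    have h11 : ((G.nR Fa z).filter fun x => x ∉ G.N B).card = 1 := by omega
    obtain ⟨x, hx⟩ := card_eq_one.1 h11
    rw [hx, sum_singleton]
    have hxm : x ∈ (G.nR Fa z).filter fun x => x ∉ G.N B := by
      rw [hx]
      exact mem_singleton_self _
    rw [mem_filter] at hxm
    refine w5_zero (c.m_zero hxm.2 fun hc => ?_)
    have : x ∈ G.pT B' z := mem_inter.2 ⟨(mem_nR76.1 hxm.1).1, hc⟩
    rw [hT', mem_singleton] at this
    rw [this] at hxm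
    exact hxm.2 d.v1
  have hz1 : -1 ≤ G.ch5 Fa z := by
    have h10 := c.ch
    rw [d.sumX] at h10
    have h11 := d.f1
    have h12 := d.f2
    linarith
  refine ⟨by rw [hnR]; simp, d.noHL_of fun a ha _ _ => ?_, fun l hl y _ hh => ?_, Or.inl
    ⟨cv.k2, by rw [hI, c.I], by linarith, fun z' hz' _ => ?_⟩⟩
  · rw [hnR, mem_singleton] at ha
    rw [ha]
    exact c.low
  · exfalso
    have h10 : l ∈ G.nR Fa v := mem_nR76.2 ⟨LL_t76 hh, hl⟩
    rw [hnR, mem_singleton] at h10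
    exact (LL_tb76 hh).2 h10
  · rw [hnR, mem_singleton] at hz'
    exact hz'

end S2

end K28

end CG

end Pool.Agent.Lib.MP_e95c01_co.N
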