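import Pool.Agent.Lib.MP_e95c01_co.X.K3h_28

/-!
# `λ = 3`, thick torsos: one flag `S0`, another visible neighbour
-/

namespace Pool.Agent.Lib.MP_e95c01_co.N

open Finset

variable {V : Type} [Fintype V] [DecidableEq V]

namespace CG

namespace K28

variable {G : CG V} {Fa : Finset (Finset V)} {z v : V} {B B' : Finset V}

theorem m_ne0 {x u : V} {D : Finset V} (hD : D ∈ Fa) (hx : x ∈ G.N D) (hu : u ∈ G.N D) :
    G.m Fa x u ≠ 0 := by
  intro h
  rw [m, card_eq_zero] at h
  have : D ∈ G.I Fa x ∩ G.I Fa u := mem_inter.2 ⟨mem_I76.2 ⟨hD, hx⟩, mem_I76.2 ⟨hD, hu⟩⟩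
  rw [h] at this
  exact absurd this (notMem_empty _)

namespace S2

theorem bound (d : S2 G Fa z v B B') (h0 : G.s5 B' z = 0) :
    ∑ x ∈ (G.nR Fa z).filter (fun x => x ∉ G.N B), G.w5 Fa x z + G.s5 (G.Co B') z -
      G.s5 B z ≤ G.ch5 Fa z := by
  have h1 := d.f1
  have h2 := d.f2
  have h3 := s5_nonneg (G := G) (G.Co B) z
  have h6 := d.c.ch
  rw [d.sumX] at h6
  linarith

/-- another visible neighbour of `z` -/
theorem vertexX (d : S2 G Fa z v B B') (h0 : G.s5 B' z = 0) :
    ∀ x ∈ (G.nR Fa z).filter (fun x => x ∉ G.N B), x ∈ G.N B' ∧ G.Hub x ∧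
      ∃ u ∈ G.nR Fa x, G.m Fa x u = 0 ∧ G.LL z v x u := by
  have c := d.c
  set X := (G.nR Fa z).filter (fun x => x ∉ G.N B) with hXdef
  have hb := d.bound h0
  have h4 := s5_nonneg (G := G) (G.Co B') z
  have h5 := s5_le (G := G) B z
  have hneg := d.neg
  have hS : ∑ x ∈ X, G.w5 Fa x z < 2 := by linarith
  have hone : ∀ x ∈ X, G.w5 Fa x z < 2 := fun x hx =>
    lt_of_le_of_lt (single_le_sum (f := fun x => G.w5 Fa x z) (fun x _ => c.w_nonneg x) hx) hS
  have hm : ∀ x ∈ X, G.m Fa x z ≤ 1 := fun x hx => c.m_le1 (mem_filter.1 hx).2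
  have hl : ∀ x ∈ X, ¬ G.Low x := by
    intro x hx h
    have h1 := hone x hx
    rw [w5_low h] at h1
    have : (G.m Fa x z : ℤ) ≤ 1 := by exact_mod_cast hm x hx
    linarith
  have hB' : ∀ x ∈ X, x ∈ G.N B' := by
    intro x hx
    by_contra h
    have h1 := w5_zero (c.m_zero (mem_filter.1 hx).2 h)
    have h2 := hone x hx
    linarith
  intro x hx
  have hx0 := mem_filter.1 hx
  have hxR := (mem_nR76.1 hx0.1).2
  refine ⟨hB' x hx, ⟨hl x hx, ?_⟩, ?_⟩
  · rintro ⟨y, hy⟩
    obtain ⟨hyR, hyI⟩ := (stTwHL_5 G).twI Fa c.reg x hxR y hy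
    have hyt : G.IsTw y := ⟨x, (stTwHL_5 G).symm _ _ hy⟩
    have hzy : z ≠ y := by
      rintro rfl
      exact tw_not_low11 hyt c.low
    have hyX : y ∈ X := by
      refine mem_filter.2 ⟨mem_nR76.2 ⟨G.sym _ _ (Tw_nb5 hy (G.sym _ _ (mem_nR76.1 hx0.1).1) hzy),
        hyR⟩, fun hyB => hx0.2 ?_⟩
      have : B ∈ G.I Fa x := by rw [← hyI]; exact mem_I76.2 ⟨c.F1, hyB⟩
      exact (mem_I76.1 this).2
    have h1 := w5_tw (G := G) (Fa := Fa) (x := x) (z := z) ⟨y, hy⟩ (hm x hx)
    have h2 := w5_tw (G := G) (Fa := Fa) (x := y) (z := z) hyt (hm y hyX)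
    have hsub : ({x, y} : Finset V) ⊆ X := by
      intro a ha
      rw [mem_insert, mem_singleton] at ha
      rcases ha with rfl | rfl
      · exact hx
      · exact hyX
    have h3 := sum_le_sum_of_subset_of_nonneg (f := fun a => G.w5 Fa a z) hsub
      fun a _ _ => c.w_nonneg a
    rw [sum_pair (tw_ne hy)] at h3
    linarith
  · by_contra hcon
    have hpay : G.pay5 Fa z x = 0 := by
      refine pay_useless (by rw [c.k2]) (c.m_ne (hB' x hx)) ?_ ?_ ?_
      · intro u hu hu'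
        have h1 : u ∈ G.nR Fa z := mem_nR76.2 ⟨hu', (mem_nR76.1 hu).2⟩
        rw [d.nR_eq, mem_insert] at h1
        rcases h1 with rfl | h1
        · exact m_ne0 c.F2 (hB' x hx) d.v2
        · exact m_ne0 c.F2 (hB' x hx) (hB' u h1)
      · intro b hb u hu hmu hLL
        apply hcon
        have h1 : b ∈ G.nR Fa z := mem_nR76.2 ⟨LL_ab76 hLL, hb⟩
        rw [d.nR_eq, mem_insert] at h1
        rcases h1 with rfl | h1
        · exact ⟨u, hu, hmu, hLL⟩
        · exact absurd hLL.2.1 (hl b h1)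
      · intro a ha u hu _ hHL
        have h1 := HL_I76 hHL ha c.zR (mem_nR76.1 hu).2
        have h2 : a ∈ G.N B := by
          have : B ∈ G.I Fa a := by rw [h1]; exact c.mem1
          exact (mem_I76.1 this).2
        have h3 : a ∈ G.pT B z := mem_inter.2 ⟨G.sym _ _ (HL_b76 hHL), h2⟩
        rw [d.pT, mem_singleton] at h3
        rw [h3] at hHL
        exact HL_not_low76 hHL d.vlow
    have h1 := w5_unpaid (hm x hx) hpay
    have h2 := hone x hx
    linarith

/-- one flag, another visible neighbour -/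
theorem caseX (d : S2 G Fa z v B B') (h0 : G.s5 B' z = 0)
    (hX : ((G.nR Fa z).filter fun x => x ∉ G.N B).Nonempty) : Don G Fa v z := by
  have c := d.c
  have hV := d.vertexX h0
  obtain ⟨x, hx⟩ := hX
  obtain ⟨hxB', hxh, u, hu, hmu, hLL⟩ := hV x hx
  have hx0 := mem_filter.1 hx
  have hxR := (mem_nR76.1 hx0.1).2
  have huR := (mem_nR76.1 hu).2
  have huB' : u ∉ G.N B' := fun h => m_ne0 c.F2 hxB' h hmu
  have hX1 : (G.nR Fa z).filter (fun x => x ∉ G.N B) = {x} := by
    ext y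
    rw [mem_singleton]
    constructor
    · intro hy
      by_contra hne
      obtain ⟨-, -, u', -, -, hLL'⟩ := hV y hy
      have h1 := LL_tb76 hLL'
      rcases LL_to76 hLL (mem_nR76.1 (mem_filter.1 hy).1).1 hne with h2 | h2
      · exact h1.2 h2
      · exact h1.1 h2
    · rintro rfl
      exact hx
  have hzR2 : ∀ y ∈ G.nR Fa z, y = v ∨ y = x := by
    intro y hy
    rw [d.nR_eq, hX1, mem_insert, mem_singleton] at hy
    exact hy
  have hcov : ∀ y ∈ G.nb v, y ∈ B ∨ y ∈ B' ∨ y = z ∨ y = u := by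
    intro y hy
    by_cases h1 : y = u
    · exact Or.inr (Or.inr (Or.inr h1))
    rcases LL_from76 hLL hy h1 with h2 | h2
    · exact Or.inr (Or.inr (Or.inl h2))
    · by_cases h3 : y ∈ R Fa
      · rcases hzR2 y (mem_nR76.2 ⟨h2, h3⟩) with h4 | h4
        · exact absurd hy (by rw [h4]; exact G.irr _)
        · exact absurd hy (by rw [h4]; exact (LL_tb76 hLL).1)
      · rw [mem_R76] at h3
        push Not at h3
        obtain ⟨D, hD, hyD⟩ := h3
        have hDI := I_of_nb76 c.zR hD h2 hyD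
        rw [c.I, mem_insert, mem_singleton] at hDI
        rcases hDI with rfl | rfl
        · exact Or.inl hyD
        · exact Or.inr (Or.inl hyD)
  have hI : G.I Fa v = {B, B'} := I_two c.reg d.mem1 d.mem2 fun y hy => by
    rcases hcov y hy with k | k | k | k
    · exact Or.inl k
    · exact Or.inr (Or.inl k)
    · rw [k]
      exact Or.inr (Or.inr c.zR)
    · rw [k]
      exact Or.inr (Or.inr huR)
  have huz : z ≠ u := (LL_ua76 hLL).2.symm
  have hnR : G.nR Fa v = {z, u} := by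
    ext y
    rw [mem_insert, mem_singleton, mem_nR76]
    constructor
    · rintro ⟨x1, x2⟩
      rcases hcov y x1 with k | k | k
      · exact absurd k (mem_R76.1 x2 B c.F1)
      · exact absurd k (mem_R76.1 x2 B' c.F2)
      · exact k
    · rintro (rfl | rfl)
      · exact ⟨d.znb, c.zR⟩
      · exact ⟨LL_u76 hLL, huR⟩
  have eB : G.nb v ∩ B = G.nb z ∩ B := by
    refine Subset.antisymm (fun y hy => ?_) d.sub
    rw [mem_inter] at hy ⊢
    refine ⟨?_, hy.2⟩
    rcases LL_from76 hLL hy.1 (by rintro rfl; exact mem_R76.1 huR B c.F1 hy.2) with h2 | h2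
    · rw [h2] at hy
      exact absurd hy.2 (mem_R76.1 c.zR B c.F1)
    · exact h2
  have eB' : G.nb v ∩ B' = G.nb z ∩ B' := by
    ext y
    rw [mem_inter, mem_inter]
    constructor
    · rintro ⟨y1, y2⟩
      refine ⟨?_, y2⟩
      rcases LL_from76 hLL y1 (by rintro rfl; exact mem_R76.1 huR B' c.F2 y2) with h2 | h2
      · rw [h2] at y2
        exact absurd y2 (mem_R76.1 c.zR B' c.F2)
      · exact h2
    · rintro ⟨y1, y2⟩
      refine ⟨?_, y2⟩
      rcases LL_to76 hLL y1 (by rintro rfl; exact mem_R76.1 hxR B' c.F2 y2) with h2 | h2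
      · rw [h2] at y2
        exact absurd y2 (mem_R76.1 d.vR B' c.F2)
      · exact h2
  have cv : Tw2 G Fa v B B' := ⟨c.h9, c.reg, c.big, d.vR, d.vlow, c.ne, hI⟩
  have hb := d.bound h0
  rw [hX1, sum_singleton] at hb
  have hw0 := c.w_nonneg x
  have n1 := s5_nonneg (G := G) (G.Co B') z
  have hneg := d.neg
  have s1 : G.s5 B z ≤ 1 := s5_LLs fun w hw => by
    rw [d.S0z hw]
    exact ⟨⟨x, u, hLL⟩, eB⟩
  have hTv : G.pT B v = {z} := by
    by_contra hne
    have : G.s5 B z = 0 := s5_LLs' fun w hw => by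
      rw [d.S0z hw]
      exact ⟨⟨⟨x, u, hLL⟩, eB⟩, hne⟩
    linarith
  have huB : u ∉ G.N B := by
    intro h
    have : u ∈ G.pT B v := mem_inter.2 ⟨LL_u76 hLL, h⟩
    rw [hTv, mem_singleton] at this
    exact huz this.symm
  have hmuv : G.m Fa u v = 0 := cv.m_zero huB huB'
  have hch := cv.ch
  rw [hnR, sum_pair huz, d.wz] at hch
  have hw2 := w5_zero (z := v) (x := u) hmuv
  have s2 : G.s5 B v ≤ 1 := s5_LLs fun w hw => by
    rw [(d.S0v hw).1]
    exact d.LLv hLL eB.symm
  have s3 : G.s5 B' v = 0 := s5_LLs' fun w hw => by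
    rw [(d.S0v' hw).1]
    refine ⟨d.LLv hLL eB'.symm, fun h => ?_⟩
    have : x ∈ G.pT B' z := mem_inter.2 ⟨(mem_nR76.1 hx0.1).1, hxB'⟩
    rw [h, mem_singleton] at this
    rw [this] at hx0
    exact hx0.2 d.v1
  have k5 := d.g1
  have k6 := d.g2
  have k7 := s5_nonneg (G := G) (G.Co B') v
  have k8 := s5_nonneg (G := G) (G.Co B) v
  refine ⟨by rw [hnR]; exact le_trans card_le_two (by norm_num),
    d.noHL_of fun a ha haB _ => ?_, fun l hl y _ hh => ?_,
    Or.inl ⟨cv.k2, by rw [hI, c.I], by linarith, fun z' hz' hI' => ?_⟩⟩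
  · rw [hnR, mem_insert, mem_singleton] at ha
    rcases ha with rfl | rfl
    · exact c.low
    · exact absurd haB huB
  · have h10 : l ∈ G.nR Fa v := mem_nR76.2 ⟨LL_t76 hh, hl⟩
    rw [hnR, mem_insert, mem_singleton] at h10
    rcases h10 with h10 | h10
    · exact absurd h10 (LL_tb76 hh).2
    · rw [h10]
      exact hmuv
  · rw [hnR, mem_insert, mem_singleton] at hz'
    rcases hz' with rfl | rfl
    · rfl
    · exfalso
      have : B ∈ G.I Fa z' := by rw [hI']; exact d.mem1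
      exact huB (mem_I76.1 this).2

end S2

end K28

end CG

end Pool.Agent.Lib.MP_e95c01_co.N
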