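import Pool.Agent.Lib.MP_e95c01_co.X.K3i_28

/-!
# `λ = 3`, thick torsos: one flag `S0`, no other visible neighbour
-/

namespace Pool.Agent.Lib.MP_e95c01_co.N

open Finset

variable {V : Type} [Fintype V] [DecidableEq V]

namespace CG

namespace K28

variable {G : CG V} {Fa : Finset (Finset V)} {z v : V} {B B' : Finset V}

namespace S2

theorem nR_single (d : S2 G Fa z v B B')
    (hX : (G.nR Fa z).filter (fun x => x ∉ G.N B) = ∅) : ∀ y ∈ G.nR Fa z, y = v := by
  intro y hy
  rw [d.nR_eq, hX, mem_insert] at hy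
  rcases hy with h | h
  · exact h
  · exact absurd h (notMem_empty _)

theorem three (d : S2 G Fa z v B B')
    (hX : (G.nR Fa z).filter (fun x => x ∉ G.N B) = ∅) : (G.nb z ∩ B').card = 3 := by
  have h := d.cX
  rw [hX, card_empty] at h
  omega

/-- no `LL v z` if `v` has only one neighbour in `B'` -/
theorem not_LL (d : S2 G Fa z v B B')
    (hX : (G.nR Fa z).filter (fun x => x ∉ G.N B) = ∅) (h1 : (G.nb v ∩ B').card = 1)
    {l y : V} (hy : y ∈ R Fa) : ¬ G.LL v z l y := by
  intro hh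
  have h3 := d.three hX
  have hsub : G.nb z ∩ B' ⊆ G.nb v ∩ B' := by
    intro w hw
    rw [mem_inter] at hw ⊢
    refine ⟨?_, hw.2⟩
    rcases LL_from76 hh hw.1 (by rintro rfl; exact mem_R76.1 hy B' d.c.F2 hw.2) with h2 | h2
    · rw [h2] at hw
      exact absurd hw.2 (mem_R76.1 d.vR B' d.c.F2)
    · exact h2
  have := card_le_card hsub
  omega

/-- `v` has two neighbours in `N B'` -/
theorem caseB (d : S2 G Fa z v B B') (h0 : G.s5 B' z = 0)
    (hX : (G.nR Fa z).filter (fun x => x ∉ G.N B) = ∅)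
    (hex : ¬ (G.pT B' v = {z} ∧ (G.nb v ∩ B').card = 1)) : Don G Fa v z := by
  have c := d.c
  have hz1 := d.nR_single hX
  have hall : ∀ x ∈ G.nR Fa z, x ∈ G.N B' := fun x hx => by
    rw [hz1 x hx]
    exact d.v2
  have eCo := c.eq_Co hall
  have hTz : G.pT B' z = {v} := by
    ext y
    rw [mem_singleton]
    constructor
    · intro hy
      exact hz1 y (c.symm.T_vis hy)
    · rintro rfl
      exact d.vT'
  have hS : G.S0 (G.Co B') z v := by
    refine ⟨?_, c.low, d.vlow, ?_, ?_, ?_⟩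
    · rw [(G.stCo_37 B' c.fr2).2.1]
      exact d.z2
    · rw [pT_Co c.fr2]
      exact hTz
    · obtain ⟨q, q', t1, t2, t3⟩ := d.s.2.2.2.2.1
      refine ⟨q, q', t1, ?_, t3⟩
      show G.nb z ∩ G.Co B' = {q, q'}
      rw [eCo]
      exact t2
    · rintro ⟨k1, k2⟩
      rw [pT_Co c.fr2] at k1
      rw [pO_Co c.fr2] at k2
      exact hex ⟨k1, k2⟩
  have hb := d.bound h0
  rw [hX, sum_empty] at hb
  have hneg := d.neg
  have hle := s5_le (G := G) B z
  have hLLs : G.LLs (G.Co B') z v := by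
    by_contra hn
    have := s5_two hS hn
    linarith
  obtain ⟨⟨t, u, hLL⟩, hpx⟩ := hLLs
  have hpx' : G.nb v ∩ G.Co B' = G.nb z ∩ B := by
    have : G.nb v ∩ G.Co B' = G.nb z ∩ G.Co B' := hpx
    rw [this, eCo]
  have eB : G.nb v ∩ B = G.nb z ∩ B := by
    refine Subset.antisymm (fun y hy => ?_) d.sub
    rw [← hpx']
    exact mem_inter.2 ⟨(mem_inter.1 hy).1,
      blob_Co c.reg c.F2 c.F1 c.ne.symm (mem_inter.1 hy).2⟩
  have s1 : G.s5 B z ≤ 1 := s5_LLs fun w hw => by
    rw [d.S0z hw]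
    exact ⟨⟨t, u, hLL⟩, eB⟩
  have n1 := s5_nonneg (G := G) (G.Co B') z
  have hTv : G.pT B v = {z} := by
    by_contra hne
    have : G.s5 B z = 0 := s5_LLs' fun w hw => by
      rw [d.S0z hw]
      exact ⟨⟨⟨t, u, hLL⟩, eB⟩, hne⟩
    linarith
  have hTv' : G.pT B' v ≠ {z} := by
    intro he
    have := s5_one hS (by rw [pT_Co c.fr2]; exact he)
    linarith
  -- the private neighbour of `v`
  have huz : z ≠ u := (LL_ua76 hLL).2.symm
  have huB' : u ∈ G.N B' := by
    obtain ⟨y, hy, hyz⟩ : ∃ y ∈ G.pT B' v, y ≠ z := by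
      by_contra hcon
      push Not at hcon
      apply hTv'
      ext y
      rw [mem_singleton]
      exact ⟨hcon y, fun h => by rw [h]; exact d.zT'⟩
    replace hy : y ∈ G.nb v ∩ G.N B' := hy
    rw [mem_inter] at hy
    by_cases h1 : y = u
    · rw [← h1]
      exact hy.2
    · exfalso
      rcases LL_from76 hLL hy.1 h1 with h2 | h2
      · exact hyz h2
      · have := hz1 y (mem_nR76.2 ⟨h2, N_R c.reg c.F2 hy.2⟩)
        rw [this] at hy
        exact G.irr _ hy.1
  have huR : u ∈ R Fa := N_R c.reg c.F2 huB'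
  have hcov : ∀ y ∈ G.nb v, y ∈ B ∨ y ∈ B' ∨ y = z ∨ y = u := by
    intro y hy
    by_cases h1 : y = u
    · exact Or.inr (Or.inr (Or.inr h1))
    rcases LL_from76 hLL hy h1 with h2 | h2
    · exact Or.inr (Or.inr (Or.inl h2))
    · by_cases h3 : y ∈ R Fa
      · exact absurd hy (by rw [hz1 y (mem_nR76.2 ⟨h2, h3⟩)]; exact G.irr _)
      · rw [mem_R76] at h3
        push Not at h3
        obtain ⟨D, hD, hyD⟩ := h3
        have hDI := I_of_nb76 c.zR hD h2 hyD
        rw [c.I, mem_insert, mem_singleton] at hDI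
        rcases hDI with rfl | rfl
        · exact Or.inl hyD
        · exact Or.inr (Or.inl hyD)
  have hI : G.I Fa v = {B, B'} := I_two c.reg d.mem1 d.mem2 fun y hy => by
    rcases hcov y hy with k | k | k | k
    · exact Or.inl k
    · exact Or.inr (Or.inl k)
    · rw [k]
      exact Or.inr (Or.inr c.zR)
    · rw [k]
      exact Or.inr (Or.inr huR)
  have hnR : G.nR Fa v = {z, u} := by
    ext y
    rw [mem_insert, mem_singleton, mem_nR76]
    constructor
    · rintro ⟨x1, x2⟩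
      rcases hcov y x1 with k | k | k
      · exact absurd k (mem_R76.1 x2 B c.F1)
      · exact absurd k (mem_R76.1 x2 B' c.F2)
      · exact k
    · rintro (rfl | rfl)
      · exact ⟨d.znb, c.zR⟩
      · exact ⟨LL_u76 hLL, huR⟩
  have cv : Tw2 G Fa v B B' := ⟨c.h9, c.reg, c.big, d.vR, d.vlow, c.ne, hI⟩
  have huB : u ∉ G.N B := by
    intro h
    have : u ∈ G.pT B v := mem_inter.2 ⟨LL_u76 hLL, h⟩
    rw [hTv, mem_singleton] at this
    exact huz this.symm
  have hnoHL : ∀ a ∈ R Fa, ∀ t ∈ R Fa, ¬ G.HL a v t := d.noHL_of fun a ha haB _ => by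
    rw [hnR, mem_insert, mem_singleton] at ha
    rcases ha with rfl | rfl
    · exact c.low
    · exact absurd haB huB
  have hw2 : 2 ≤ G.w5 Fa u v := by
    by_cases hl : G.Low u
    · rw [w5_low hl]
      have : (G.m Fa u v : ℤ) ≤ 1 := by exact_mod_cast cv.m_le1 huB
      linarith
    · refine w5_unpaid (cv.m_le1 huB) (pay_useless (by rw [cv.k2]) (m_ne0 c.F2 huB' d.v2) ?_ ?_ ?_)
      · intro w hw hw'
        have h1 : w ∈ G.nR Fa v := mem_nR76.2 ⟨hw', (mem_nR76.1 hw).2⟩
        rw [hnR, mem_insert, mem_singleton] at h1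
        rcases h1 with rfl | rfl
        · exact m_ne0 c.F2 huB' d.z2
        · exact m_ne0 c.F2 huB' huB'
      · intro b hb w hw _ hh
        have h1 : b ∈ G.nR Fa v := mem_nR76.2 ⟨LL_ab76 hh, hb⟩
        rw [hnR, mem_insert, mem_singleton] at h1
        rcases h1 with rfl | rfl
        · have h2 := hz1 w (mem_nR76.2 ⟨LL_u76 hh, (mem_nR76.1 hw).2⟩)
          exact (LL_ua76 hh).2 h2
        · exact (LL_tb76 hh).2 rfl
      · intro a ha w hw _ hh
        exact hnoHL a ha w (mem_nR76.1 hw).2 hh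
  have hch := cv.ch
  rw [hnR, sum_pair huz, d.wz] at hch
  have s2 : G.s5 B v ≤ 1 := s5_LLs fun w hw => by
    rw [(d.S0v hw).1]
    exact d.LLv hLL eB.symm
  have s3 : G.s5 B' v = 0 := s5_zero fun w hw => hTv' (d.S0v' hw).2
  have k5 := d.g1
  have k6 := d.g2
  have k7 := s5_nonneg (G := G) (G.Co B') v
  have k8 := s5_nonneg (G := G) (G.Co B) v
  refine ⟨by rw [hnR]; exact le_trans card_le_two (by norm_num), hnoHL, fun l hl y hy hh => ?_,
    Or.inl ⟨cv.k2, by rw [hI, c.I], by linarith, fun z' hz' hI' => ?_⟩⟩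
  · exfalso
    have h2 := hz1 y (mem_nR76.2 ⟨LL_u76 hh, hy⟩)
    exact (LL_ua76 hh).2 h2
  · rw [hnR, mem_insert, mem_singleton] at hz'
    rcases hz' with rfl | rfl
    · rfl
    · exfalso
      have : B ∈ G.I Fa z' := by rw [hI']; exact d.mem1
      exact huB (mem_I76.1 this).2

end S2

end K28

end CG

end Pool.Agent.Lib.MP_e95c01_co.N
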