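import Pool.Agent.Lib.MP_e95c01_co.X.K3j_28

/-!
# `λ = 3`, thick torsos: vertices in two or more neighbourhoods, result
-/

namespace Pool.Agent.Lib.MP_e95c01_co.N

open Finset

variable {V : Type} [Fintype V] [DecidableEq V]

namespace CG

namespace K28

variable {G : CG V} {Fa : Finset (Finset V)} {z v : V} {B B' : Finset V}

namespace S2

/-- `v` has one neighbour in `B'` and `z` only in `N B'`, `v` in two neighbourhoods -/
theorem caseA2 (d : S2 G Fa z v B B') (h0 : G.s5 B' z = 0)
    (hX : (G.nR Fa z).filter (fun x => x ∉ G.N B) = ∅)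
    (hT : G.pT B' v = {z}) (h1 : (G.nb v ∩ B').card = 1) (hk : (G.I Fa v).card = 2) :
    Don G Fa v z := by
  have c := d.c
  have hI : G.I Fa v = {B, B'} := by
    symm
    refine eq_of_subset_of_card_le ?_ (by rw [hk, card_pair c.ne])
    intro D hD
    rw [mem_insert, mem_singleton] at hD
    rcases hD with rfl | rfl
    · exact d.mem1
    · exact d.mem2
  have cv : Tw2 G Fa v B B' := ⟨c.h9, c.reg, c.big, d.vR, d.vlow, c.ne, hI⟩
  set Y := (G.nR Fa v).filter (fun x => x ∉ G.N B') with hYd
  have hT1 : (G.nb v ∩ G.N B').card = 1 := by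
    have : G.nb v ∩ G.N B' = {z} := hT
    rw [this, card_singleton]
  have h6 := six_low d.vlow B'
  have hsp := cv.symm.split_card
  rw [← hYd] at hsp
  have hcB := d.cBv
  have hYc : (G.nb v ∩ B).card + Y.card = 4 := by omega
  have hzY : z ∉ Y := fun h => (mem_filter.1 h).2 d.z2
  have hnR : ∀ x ∈ G.nR Fa v, x = z ∨ x ∈ Y := by
    intro x hx
    by_cases h : x ∈ G.N B'
    · left
      have : x ∈ G.pT B' v := mem_inter.2 ⟨(mem_nR76.1 hx).1, h⟩
      rw [hT, mem_singleton] at this
      exact this
    · exact Or.inr (mem_filter.2 ⟨hx, h⟩)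
  have hnoHL : ∀ a ∈ R Fa, ∀ t ∈ R Fa, ¬ G.HL a v t := d.noHL_of fun a ha _ haB' => by
    have : a ∈ G.pT B' v := mem_inter.2 ⟨(mem_nR76.1 ha).1, haB'⟩
    rw [hT, mem_singleton] at this
    rw [this]
    exact c.low
  have hch := cv.ch
  have hsum := cv.sum_ge (S := Y) (filter_subset _ _)
  have k2 := d.g2
  have k1 := d.g1
  have s1 : G.s5 B' v = 0 := s5_zero fun w hw => by
    have : (G.nb v ∩ B').card = 2 := (S0_card hw).1
    omega
  have n1 := s5_nonneg (G := G) (G.Co B') v
  have n2 := s5_nonneg (G := G) (G.Co B) v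
  have hm : ∀ y ∈ Y, G.m Fa y v ≤ 1 := fun y hy => cv.symm.m_le1 (mem_filter.1 hy).2
  -- the value of `v`
  have hv : 2 ≤ G.ch5 Fa v := by
    by_cases hS : ∃ w, G.S0 B v w
    · obtain ⟨w, hw⟩ := hS
      have hTv := (d.S0v hw).2
      have h2 : (G.nb v ∩ B).card = 2 := (S0_card hw).1
      have h3 : Y.card = 2 := by omega
      have h4 : ∀ y ∈ Y, 2 ≤ G.w5 Fa y v := by
        intro y hy
        refine w5_zero (cv.m_zero (fun hyB => ?_) (mem_filter.1 hy).2)
        have : y ∈ G.pT B v := mem_inter.2 ⟨(mem_nR76.1 (mem_filter.1 hy).1).1, hyB⟩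
        rw [hTv, mem_singleton] at this
        rw [this] at hy
        exact hzY hy
      have h5 := sum_le_sum h4
      rw [sum_const, h3, nsmul_eq_mul] at h5
      have h6 := s5_le (G := G) B v
      push_cast at h5
      linarith
    · have s2 : G.s5 B v = 0 := s5_zero fun w hw => hS ⟨w, hw⟩
      have hYne : Y.Nonempty := by
        rw [nonempty_iff_ne_empty]
        intro hY
        rw [hY, card_empty] at hYc
        have hzz : ∀ x ∈ G.nR Fa v, x = z := by
          intro x hx
          rcases hnR x hx with h | h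
          · exact h
          · rw [hY] at h
            exact absurd h (notMem_empty _)
        have hTv : G.pT B v = {z} := by
          ext x
          rw [mem_singleton]
          constructor
          · intro hx
            exact hzz x (cv.T_vis hx)
          · rintro rfl
            exact d.zT
        have h7 := six_low d.vlow B
        have h8 : (G.nb v ∩ G.N B).card = 1 := by
          have : G.nb v ∩ G.N B = {z} := hTv
          rw [this, card_singleton]
        refine d.s.2.2.2.2.2 ⟨hTv, ?_⟩
        show (G.nb v ∩ G.Co B).card = 1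
        omega
      have hY2 : 2 ≤ ∑ y ∈ Y, G.w5 Fa y v := by
        by_contra hcon
        push Not at hcon
        have hone : ∀ y ∈ Y, G.w5 Fa y v < 2 := fun y hy =>
          lt_of_le_of_lt
            (single_le_sum (f := fun y => G.w5 Fa y v) (fun y _ => cv.w_nonneg y) hy) hcon
        have hYB : ∀ y ∈ Y, y ∈ G.N B := by
          intro y hy
          by_contra h
          have h1 := w5_zero (cv.m_zero h (mem_filter.1 hy).2)
          have h2 := hone y hy
          linarith
        have hl : ∀ y ∈ Y, ¬ G.Low y := by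
          intro y hy h
          have h1 := hone y hy
          rw [w5_low h] at h1
          have : (G.m Fa y v : ℤ) ≤ 1 := by exact_mod_cast hm y hy
          linarith
        obtain ⟨y, hy⟩ := hYne
        have hy0 := mem_filter.1 hy
        have hyR := (mem_nR76.1 hy0.1).2
        by_cases ht : G.IsTw y
        · obtain ⟨y', hyy⟩ := ht
          obtain ⟨hy'R, hy'I⟩ := (stTwHL_5 G).twI Fa c.reg y hyR y' hyy
          have hy't : G.IsTw y' := ⟨y, (stTwHL_5 G).symm _ _ hyy⟩
          have hvy : v ≠ y' := by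
            rintro rfl
            exact tw_not_low11 hy't d.vlow
          have hy'Y : y' ∈ Y := by
            refine mem_filter.2 ⟨mem_nR76.2
              ⟨G.sym _ _ (Tw_nb5 hyy (G.sym _ _ (mem_nR76.1 hy0.1).1) hvy), hy'R⟩,
              fun hyB => hy0.2 ?_⟩
            have : B' ∈ G.I Fa y := by rw [← hy'I]; exact mem_I76.2 ⟨c.F2, hyB⟩
            exact (mem_I76.1 this).2
          have h1 := w5_tw (G := G) (Fa := Fa) (x := y) (z := v) ⟨y', hyy⟩ (hm y hy)
          have h2 := w5_tw (G := G) (Fa := Fa) (x := y') (z := v) hy't (hm y' hy'Y)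
          have hsub : ({y, y'} : Finset V) ⊆ Y := by
            intro a ha
            rw [mem_insert, mem_singleton] at ha
            rcases ha with rfl | rfl
            · exact hy
            · exact hy'Y
          have h3 := sum_le_sum_of_subset_of_nonneg (f := fun a => G.w5 Fa a v) hsub
            fun a _ _ => cv.w_nonneg a
          rw [sum_pair (tw_ne hyy)] at h3
          linarith
        · have hpay : G.pay5 Fa v y = 0 := by
            refine pay_useless (by rw [cv.k2]) (m_ne0 c.F1 (hYB y hy) d.v1) ?_ ?_ ?_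
            · intro u hu hu'
              rcases hnR u (mem_nR76.2 ⟨hu', (mem_nR76.1 hu).2⟩) with rfl | h
              · exact m_ne0 c.F1 (hYB y hy) d.z1
              · exact m_ne0 c.F1 (hYB y hy) (hYB u h)
            · intro b hb u hu _ hh
              rcases hnR b (mem_nR76.2 ⟨LL_ab76 hh, hb⟩) with rfl | h
              · exact d.not_LL hX h1 (mem_nR76.1 hu).2 hh
              · exact hl b h hh.2.1
            · intro a ha u hu _ hh
              exact hnoHL a ha u (mem_nR76.1 hu).2 hh
          have h1 := w5_unpaid (hm y hy) hpay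
          have h2 := hone y hy
          linarith
      linarith
  have hb := d.bound h0
  rw [hX, sum_empty] at hb
  have hle := s5_le (G := G) B z
  have n3 := s5_nonneg (G := G) (G.Co B') z
  refine ⟨?_, hnoHL, fun l _ y hy hh => absurd hh (d.not_LL hX h1 hy),
    Or.inl ⟨hk, by rw [hI, c.I], by linarith, fun z' hz' hI' => ?_⟩⟩
  · have h2 : G.nR Fa v ⊆ insert z Y := fun x hx => mem_insert.2 (hnR x hx)
    have h3 := card_le_card h2
    rw [card_insert_of_notMem hzY] at h3
    omega
  · have h2 : B' ∈ G.I Fa z' := by rw [hI']; exact d.mem2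
    have h3 : z' ∈ G.pT B' v := mem_inter.2 ⟨(mem_nR76.1 hz').1, (mem_I76.1 h2).2⟩
    rw [hT, mem_singleton] at h3
    exact h3

/-- the same, `v` in three or more neighbourhoods -/
theorem caseA3 (d : S2 G Fa z v B B')
    (hX : (G.nR Fa z).filter (fun x => x ∉ G.N B) = ∅)
    (hT : G.pT B' v = {z}) (h1 : (G.nb v ∩ B').card = 1) (hk : 3 ≤ (G.I Fa v).card) :
    Don G Fa v z := by
  have c := d.c
  have hnoHL : ∀ a ∈ R Fa, ∀ t ∈ R Fa, ¬ G.HL a v t := d.noHL_of fun a ha _ haB' => by
    have : a ∈ G.pT B' v := mem_inter.2 ⟨(mem_nR76.1 ha).1, haB'⟩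
    rw [hT, mem_singleton] at this
    rw [this]
    exact c.low
  have hB'e : B' ∈ (G.I Fa v).erase B := mem_erase.2 ⟨c.ne.symm, d.mem2⟩
  have hcard : (((G.I Fa v).erase B).erase B').card = (G.I Fa v).card - 2 := by
    rw [card_erase_of_mem hB'e, card_erase_of_mem d.mem1]
    omega
  -- hidden neighbours
  have hsp := nb_split76 c.reg d.vR
  have h6 : (G.nb v).card = 6 := d.vlow
  have e1 : ∑ D ∈ G.I Fa v, (G.d v D : ℤ) = (G.d v B : ℤ) + ((G.d v B' : ℤ) +
      ∑ D ∈ ((G.I Fa v).erase B).erase B', (G.d v D : ℤ)) := by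
    rw [add_sum_erase ((G.I Fa v).erase B) (fun D => (G.d v D : ℤ)) hB'e,
      add_sum_erase (G.I Fa v) (fun D => (G.d v D : ℤ)) d.mem1]
  have e2 : (((G.I Fa v).card : ℤ) - 2) ≤
      ∑ D ∈ ((G.I Fa v).erase B).erase B', (G.d v D : ℤ) := by
    have h2 : ∑ D ∈ ((G.I Fa v).erase B).erase B', (1 : ℤ) = ((G.I Fa v).card : ℤ) - 2 := by
      rw [sum_const, hcard, nsmul_eq_mul, mul_one]
      push_cast [Nat.cast_sub (show 2 ≤ (G.I Fa v).card by omega)]
      ring
    rw [← h2]
    refine sum_le_sum fun D hD => ?_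
    have := hid1 (mem_erase.1 (mem_erase.1 hD).2).2
    exact_mod_cast this
  have e3 : (2 : ℤ) ≤ (G.d v B : ℤ) := by
    have := d.cBv
    exact_mod_cast this
  have e4 : (G.d v B' : ℤ) = 1 := by
    have : G.d v B' = 1 := h1
    exact_mod_cast this
  rw [h6, e1] at hsp
  push_cast at hsp
  have hk' : (3 : ℤ) ≤ ((G.I Fa v).card : ℤ) := by exact_mod_cast hk
  have hzn : z ∈ G.nR Fa v := mem_nR76.2 ⟨d.znb, c.zR⟩
  have hn1 : (1 : ℤ) ≤ ((G.nR Fa v).card : ℤ) := by
    exact_mod_cast (card_pos.2 ⟨z, hzn⟩ : 0 < (G.nR Fa v).card)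
  have hfew : (G.nR Fa v).card ≤ 2 := by
    have : ((G.nR Fa v).card : ℤ) ≤ 2 := by linarith
    exact_mod_cast this
  have hk4 : (G.I Fa v).card ≤ 4 := by
    have : ((G.I Fa v).card : ℤ) ≤ 4 := by linarith
    exact_mod_cast this
  -- common neighbourhoods
  have hm2 : ∀ x ∈ G.nR Fa v, G.m Fa x v ≤ 2 := by
    intro x hx
    by_cases hxz : x = z
    · rw [hxz, m_comm76, d.mv]
    · have hxB' : B' ∉ G.I Fa x := by
        intro h
        have : x ∈ G.pT B' v := mem_inter.2 ⟨(mem_nR76.1 hx).1, (mem_I76.1 h).2⟩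
        rw [hT, mem_singleton] at this
        exact hxz this
      have hk3 : (G.I Fa v).card = 3 := by
        by_contra hne
        have h4 : (4 : ℤ) ≤ ((G.I Fa v).card : ℤ) := by
          exact_mod_cast (show 4 ≤ (G.I Fa v).card by omega)
        have h5 : ((G.nR Fa v).card : ℤ) ≤ 1 := by linarith
        have h5' : (G.nR Fa v).card ≤ 1 := by exact_mod_cast h5
        exact hxz (card_le_one.1 h5' x hx z hzn)
      have hsub : G.I Fa x ∩ G.I Fa v ⊆ (G.I Fa v).erase B' := by
        intro D hD
        rw [mem_inter] at hD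
        refine mem_erase.2 ⟨?_, hD.2⟩
        rintro rfl
        exact hxB' hD.1
      have := card_le_card hsub
      rw [card_erase_of_mem d.mem2, hk3] at this
      exact this
  have hS : 0 ≤ ∑ x ∈ G.nR Fa v, G.w5 Fa x v := sum_nonneg fun x hx => w5_nonneg (hm2 x hx)
  have hv4 : 4 ≤ G.ch5 Fa v := by
    by_cases hk4' : 4 ≤ (G.I Fa v).card
    · have := (low_four c.h9 c.reg d.vR d.vlow hk4').2 hk4
      linarith
    · have hk3 : (G.I Fa v).card = 3 := by omega
      have h2 := (G.stCh5_28).low2 c.h9 Fa c.reg v d.vR d.vlow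
      have s1 : G.s5 B' v = 0 := s5_zero fun w hw => by
        have : (G.nb v ∩ B').card = 2 := (S0_card hw).1
        omega
      have n1 := s5_nonneg (G := G) (G.Co B') v
      have k2 := d.g2
      have e5 : G.fg5 Fa v = ff G B v + (ff G B' v +
          ∑ D ∈ ((G.I Fa v).erase B).erase B', ff G D v) := by
        rw [add_sum_erase ((G.I Fa v).erase B) (fun D => ff G D v) hB'e,
          add_sum_erase (G.I Fa v) (fun D => ff G D v) d.mem1, fg_eq]
      have e6 : -2 ≤ ∑ D ∈ ((G.I Fa v).erase B).erase B', ff G D v := by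
        have h3 : ∑ D ∈ ((G.I Fa v).erase B).erase B', (-2 : ℤ) = -2 := by
          rw [sum_const, hcard, hk3, nsmul_eq_mul]
          norm_num
        rw [← h3]
        refine sum_le_sum fun D hD => ?_
        exact ff_ge (c.reg.frag D (mem_I76.1 (mem_erase.1 (mem_erase.1 hD).2).2).1) d.vlow
      have e7 := ff_ge (G := G) c.fr1 d.vlow
      rw [hk3, e5] at h2
      push_cast at h2
      linarith
  exact ⟨by omega, hnoHL, fun l _ y hy hh => absurd hh (d.not_LL hX h1 hy),
    Or.inr ⟨hk, hv4, hfew⟩⟩

theorem don (d : S2 G Fa z v B B') (h0 : G.s5 B' z = 0) : Don G Fa v z := by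
  by_cases hX : (G.nR Fa z).filter (fun x => x ∉ G.N B) = ∅
  · by_cases hex : G.pT B' v = {z} ∧ (G.nb v ∩ B').card = 1
    · by_cases hk : (G.I Fa v).card = 2
      · exact d.caseA2 h0 hX hex.1 hex.2 hk
      · have h2 : 2 ≤ (G.I Fa v).card := by
          have h3 : ({B, B'} : Finset (Finset V)) ⊆ G.I Fa v := by
            intro D hD
            rw [mem_insert, mem_singleton] at hD
            rcases hD with rfl | rfl
            · exact d.mem1
            · exact d.mem2
          have := card_le_card h3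
          rwa [card_pair d.c.ne] at this
        exact d.caseA3 hX hex.1 hex.2 (by omega)
    · exact d.caseB h0 hX hex
  · exact d.caseX h0 (nonempty_iff_ne_empty.2 hX)

/-- both flags: one of them has the value 2 -/
theorem both (d : S2 G Fa z v B B') (hs : G.S0 B' z v) : G.s5 B z = 2 ∨ G.s5 B' z = 2 := by
  have c := d.c
  have h1 := d.cX
  have e1 : (G.nb z ∩ B').card = 2 := (S0_card hs).1
  have hT' : G.pT B' z = {v} := hs.2.2.2.1
  have hX1 : 2 ≤ ∑ x ∈ (G.nR Fa z).filter (fun x => x ∉ G.N B), G.w5 Fa x z := by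
    rw [e1] at h1
    have h11 : ((G.nR Fa z).filter fun x => x ∉ G.N B).card = 1 := by omega
    obtain ⟨x, hx⟩ := card_eq_one.1 h11
    rw [hx, sum_singleton]
    have hxm : x ∈ (G.nR Fa z).filter fun x => x ∉ G.N B := by
      rw [hx]
      exact mem_singleton_self _
    rw [mem_filter] at hxm
    refine w5_zero (c.m_zero hxm.2 fun hc => ?_)
    have : x ∈ G.pT B' z := mem_inter.2 ⟨(mem_nR76.1 hxm.1).1, hc⟩
    rw [hT', mem_singleton] at this
    rw [this] at hxm
    exact hxm.2 d.v1
  have h10 := c.ch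
  rw [d.sumX] at h10
  have h11 := d.f1
  have h12 := d.f2
  have n1 := s5_nonneg (G := G) (G.Co B) z
  have n2 := s5_nonneg (G := G) (G.Co B') z
  have n3 := s5_le (G := G) B z
  have n4 := s5_le (G := G) B' z
  have hneg := d.neg
  by_contra hcon
  rw [not_or] at hcon
  omega

/-- the partner is a good donor -/
theorem result (d : S2 G Fa z v B B') : Don G Fa v z ∧ -2 ≤ G.ch5 Fa z := by
  have hge : -2 ≤ G.ch5 Fa z := by
    by_cases hs : ∃ w, G.S0 B' z w
    · obtain ⟨w, hw⟩ := hs
      rw [d.S0z' hw] at hw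
      have c := d.c
      have h1 := d.cX
      have e1 : (G.nb z ∩ B').card = 2 := (S0_card hw).1
      have hT' : G.pT B' z = {v} := hw.2.2.2.1
      have hX1 : 2 ≤ ∑ x ∈ (G.nR Fa z).filter (fun x => x ∉ G.N B), G.w5 Fa x z := by
        rw [e1] at h1
        have h11 : ((G.nR Fa z).filter fun x => x ∉ G.N B).card = 1 := by omega
        obtain ⟨x, hx⟩ := card_eq_one.1 h11
        rw [hx, sum_singleton]
        have hxm : x ∈ (G.nR Fa z).filter fun x => x ∉ G.N B := by
          rw [hx]
          exact mem_singleton_self _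
        rw [mem_filter] at hxm
        refine w5_zero (c.m_zero hxm.2 fun hc => ?_)
        have : x ∈ G.pT B' z := mem_inter.2 ⟨(mem_nR76.1 hxm.1).1, hc⟩
        rw [hT', mem_singleton] at this
        rw [this] at hxm
        exact hxm.2 d.v1
      have h10 := c.ch
      rw [d.sumX] at h10
      have h11 := d.f1
      have h12 := d.f2
      have n1 := s5_nonneg (G := G) (G.Co B) z
      have n2 := s5_nonneg (G := G) (G.Co B') z
      have n3 := s5_le (G := G) B z
      have n4 := s5_le (G := G) B' z
      linarith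
    · have h0 : G.s5 B' z = 0 := s5_zero fun w hw => hs ⟨w, hw⟩
      have := d.ge
      rw [h0] at this
      linarith
  refine ⟨?_, hge⟩
  by_cases h0 : G.s5 B' z = 0
  · exact d.don h0
  · obtain ⟨w, hw⟩ : ∃ w, G.S0 B' z w := by
      by_contra hcon
      push Not at hcon
      exact h0 (s5_zero hcon)
    rw [d.S0z' hw] at hw
    rcases d.both hw with h2 | h2
    · exact d.caseI hw h2
    · have d' : S2 G Fa z v B' B := ⟨d.c.symm, hw, d.v1, d.neg⟩
      exact d'.caseI d.s h2

end S2

end K28

end CG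

end Pool.Agent.Lib.MP_e95c01_co.N
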