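import Pool.Agent.Lib.MP_e95c01_co.X.K1_28
import Pool.Agent.Lib.MP_e95c01_co.X.K2_86

/-!
# `λ = 3`, thick torsos: types of poor vertices, donations, statements

All donations are counted in halves of the unit of `bal5`: a deficit `-1` of `ch5` is 2.
-/

namespace Pool.Agent.Lib.MP_e95c01_co.N

open Finset

variable {V : Type} [Fintype V] [DecidableEq V] (G : CG V)

namespace CG

/-- thick torsos with at least 13 vertices -/
structure Gen6 (Fa : Finset (Finset V)) : Prop where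
  g5 : G.Gen5 Fa
  n13 : 13 ≤ Fintype.card V

/-- the low vertex `l` (in at most one neighbourhood) pays the hub `x` -/
def PH (Fa : Finset (Finset V)) (l x : V) : Prop :=
  G.Hub x ∧ (G.I Fa x).card ≤ 1 ∧ ¬ ∃ b, G.HL x b l

/-- the twin vertex `q` has the flag `RF` -/
def RFt (Fa : Finset (Finset V)) (q : V) : Prop := ∃ B ∈ G.I Fa q, G.RF (G.Co B) q

/-- `q` lies in a `K6` inside `R` -/
def InK6 (Fa : Finset (Finset V)) (q : V) : Prop :=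
  ∃ S : Finset V, G.IsK6 S ∧ S ⊆ R Fa ∧ (∀ B ∈ Fa, (S ∩ G.N B).card ≤ 2) ∧ q ∈ S

/-! ### lows in no neighbourhood -/

/-- common part of the types -/
structure L0 (Fa : Finset (Finset V)) (l : V) : Prop where
  lR : l ∈ R Fa
  low : G.Low l
  I0 : G.I Fa l = ∅

/-- `T3`: a low vertex, two pairs of twins, a hub -/
structure T3s (Fa : Finset (Finset V)) (l l' q p q' p' x : V) : Prop extends G.L0 Fa l where
  nb : G.nb l = {l', q, p, q', p', x}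
  low' : G.Low l'
  t : G.Tw q p
  t' : G.Tw q' p'
  kq : (G.I Fa q).card ≤ 1
  kq' : (G.I Fa q').card ≤ 1
  hx : G.PH Fa l x

/-- `T4`: two pairs of twins, two hubs (in any number of neighbourhoods) -/
structure T4s (Fa : Finset (Finset V)) (l q p q' p' x y : V) : Prop extends G.L0 Fa l where
  nb : G.nb l = {q, p, q', p', x, y}
  t : G.Tw q p
  t' : G.Tw q' p'
  hx : G.Hub x
  hy : G.Hub y
  nx : ¬ ∃ b, G.HL x b l
  ny : ¬ ∃ b, G.HL y b l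
  adj : q' ∈ G.nb q
  blobs : ∃ B B', G.I Fa q = {B} ∧ G.I Fa q' = {B'} ∧ B ≠ B'
  nq : G.nR Fa q = {p, l, q', p', x}
  nq' : G.nR Fa q' = {p', l, q, p, y}

/-- `T6`: a low vertex, a pair of twins, three hubs -/
structure T6s (Fa : Finset (Finset V)) (l l' q p x y z : V) : Prop extends G.L0 Fa l where
  nb : G.nb l = {l', q, p, x, y, z}
  low' : G.Low l'
  t : G.Tw q p
  kq : (G.I Fa q).card ≤ 1
  hx : G.PH Fa l x
  hy : G.PH Fa l y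
  hz : G.PH Fa l z

/-! ### lows in one neighbourhood -/

/-- common part of the types -/
structure L1 (Fa : Finset (Finset V)) (B : Finset V) (l : V) : Prop where
  lR : l ∈ R Fa
  low : G.Low l
  I1 : G.I Fa l = {B}

/-- GAMMA -/
structure Gam (Fa : Finset (Finset V)) (B : Finset V) (l d x y : V) : Prop
    extends G.L1 Fa B l where
  out : G.pO B l = {x, y}
  ne : x ≠ y
  hx : G.PH Fa l x
  hy : G.PH Fa l y
  dT : d ∈ G.pT B l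
  dl : G.Low d
  nf : G.NF Fa l = {d}
  np : G.NP Fa l = ∅
  covx : x ∈ G.nb d ∨ ∃ b ∈ R Fa, G.LL d b l x
  covy : y ∈ G.nb d ∨ ∃ b ∈ R Fa, G.LL d b l y

/-- THETA -/
structure The (Fa : Finset (Finset V)) (B : Finset V) (l a b x y : V) : Prop
    extends G.L1 Fa B l where
  out : G.pO B l = {x, y}
  ne : x ≠ y
  hx : G.PH Fa l x
  hy : G.PH Fa l y
  aT : a ∈ G.pT B l
  bR : b ∈ R Fa
  hl : G.HL a b l
  nf : G.NF Fa l = {a}
  np : G.NP Fa l = ∅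
  bx : x ∈ G.nb b
  by' : y ∈ G.nb b

/-- EPS -/
structure Eps (Fa : Finset (Finset V)) (B : Finset V) (l d q p : V) : Prop
    extends G.L1 Fa B l where
  out : G.pO B l = {q, p}
  t : G.Tw q p
  kq : (G.I Fa q).card ≤ 1
  dT : d ∈ G.pT B l
  dl : G.Low d
  nf : G.NF Fa l = {d}
  np : G.NP Fa l = ∅
  dq : q ∈ G.nb d
  flag : G.fg5 Fa l = 0

/-- ETA -/
structure Eta (Fa : Finset (Finset V)) (B : Finset V) (l a b q p : V) : Prop
    extends G.L1 Fa B l where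
  out : G.pO B l = {q, p}
  t : G.Tw q p
  kq : (G.I Fa q).card ≤ 1
  aT : a ∈ G.pT B l
  bR : b ∈ R Fa
  hl : G.HL a b l
  nf : G.NF Fa l = {a}
  np : G.NP Fa l = ∅
  bq : q ∈ G.nb b

/-- S0- : `l = (pair; v; pair, hub)` -/
structure S0s (Fa : Finset (Finset V)) (B : Finset V) (l v q p y : V) : Prop
    extends G.L1 Fa B l where
  s0 : G.S0 B l v
  out : G.pO B l = {q, p, y}
  t : G.Tw q p
  kq : (G.I Fa q).card ≤ 1
  hy : G.PH Fa l y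
  vq : q ∈ G.nb v

/-- ALPHA: the twin vertex `q = (2; y; pair, hub)` -/
structure Alp (Fa : Finset (Finset V)) (B : Finset V) (q p y e f h : V) : Prop where
  qR : q ∈ R Fa
  t : G.Tw q p
  I1 : G.I Fa q = {B}
  nT : G.pT B q = {p, y}
  yl : G.Low y
  out : G.pO B q = {e, f, h}
  t' : G.Tw e f
  hub : G.Hub h
  kh : (G.I Fa h).card ≤ 1
  ye : e ∈ G.nb y

/-! ### donations -/

/-- no hub adjacent to `l` and `q` is in exactly one neighbourhood (if `q` is in one) -/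
def NoSk (Fa : Finset (Finset V)) (l q : V) : Prop :=
  (G.I Fa q).card = 1 → ∀ g ∈ G.nb l, g ∈ G.nb q → G.Hub g → (G.I Fa g).card ≠ 1

/-- the pair `q` does not help `l` -/
def NoQ (Fa : Finset (Finset V)) (l q : V) : Prop :=
  G.NoSk Fa l q ∧ (G.I Fa q = ∅ ∨ G.ch5 Fa q ≤ 0)

/-- a hub in one neighbourhood that is adjacent to `l` and is paid by `l'` -/
def Good (Fa : Finset (Finset V)) (l l' g : V) : Prop :=
  g ∈ G.nb l ∧ g ∈ G.nb l' ∧ G.PH Fa l' g ∧ (G.I Fa g).card = 1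

/-- DOUBLE with `RF`: `l` and `l'` both ask `q` -/
def Dbl (Fa : Finset (Finset V)) (l l' q : V) : Prop :=
  G.RFt Fa q ∧ (∃ p x y z, G.T6s Fa l' l q p x y z) ∧ G.NoSk Fa l' q

/-- the low vertex `d` pays the whole deficit of the low vertex `l` -/
inductive DL (Fa : Finset (Finset V)) : V → V → Prop
  | gam {B : Finset V} {l d x y : V} : G.Gam Fa B l d x y → G.ch5 Fa l < 0 →
      ((G.I Fa d).card ≤ 1 ∨
        ((x ∈ G.nb d → (G.I Fa x).card ≠ 1) ∧ (y ∈ G.nb d → (G.I Fa y).card ≠ 1))) → DL Fa l d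
  | the {B : Finset V} {l a b x y : V} : G.The Fa B l a b x y → G.ch5 Fa l < 0 →
      (G.I Fa x).card ≠ 1 → (G.I Fa y).card ≠ 1 → DL Fa l b
  | eps {B : Finset V} {l d q p : V} : G.Eps Fa B l d q p → G.ch5 Fa l < 0 →
      2 ≤ G.ch5 Fa d → DL Fa l d
  | eta {B : Finset V} {l a b q p : V} : G.Eta Fa B l a b q p → G.ch5 Fa l < 0 →
      2 ≤ G.ch5 Fa b → DL Fa l b
  | s0 {B : Finset V} {l v q p y : V} : G.S0s Fa B l v q p y → G.ch5 Fa l < 0 →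
      1 ≤ G.ch5 Fa v → DL Fa l v
  | t3 {l l' q p q' p' x : V} : G.T3s Fa l l' q p q' p' x → q' ∉ G.nb q →
      (G.I Fa l').Nonempty → DL Fa l l'
  | t6 {l l' q p x y z : V} : G.T6s Fa l l' q p x y z → G.NoQ Fa l q →
      (∀ g, ¬ G.Good Fa l l' g) → 2 ≤ G.ch5 Fa l' → DL Fa l l'
  | k2 {B : Finset V} {l v : V} : 2 ≤ (G.I Fa l).card → B ∈ G.I Fa l → G.S0 B l v →
      G.ch5 Fa l < 0 → DL Fa l v

/-- the twin vertex `q` pays half of the deficit of the low vertex `l` -/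
inductive PD (Fa : Finset (Finset V)) : V → V → Prop
  | t3 {l l' q p q' p' x : V} : G.T3s Fa l l' q p q' p' x → q' ∈ G.nb q → l' ∈ G.nb q →
      PD Fa l q
  | t6 {l l' q p x y z : V} : G.T6s Fa l l' q p x y z → (G.I Fa q).card = 1 →
      G.NoSk Fa l q → 1 ≤ G.ch5 Fa q → ¬ G.Dbl Fa l l' q → PD Fa l q
  | eps {B : Finset V} {l d q p : V} : G.Eps Fa B l d q p → G.ch5 Fa l < 0 →
      G.ch5 Fa d < 2 → PD Fa l q
  | s0 {B : Finset V} {l v q p y : V} : G.S0s Fa B l v q p y → G.ch5 Fa l < 0 →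
      G.ch5 Fa v < 1 → PD Fa l q

/-- the twin vertex `q` pays 2 to `l` of type `T4` -/
inductive PF (Fa : Finset (Finset V)) : V → V → Prop
  | t4 {l q p q' p' x y : V} : G.T4s Fa l q p q' p' x y → G.I Fa x = ∅ → ¬ G.RFt Fa q →
      PF Fa l q

/-- the twin vertex `q` pays 1 to `l` -/
inductive PS (Fa : Finset (Finset V)) : V → V → Prop
  | t3 {l l' q p q' p' x : V} : G.T3s Fa l l' q p q' p' x → q' ∉ G.nb q → G.I Fa l' = ∅ →
      PS Fa l q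
  | t6 {l l' q p x y z : V} : G.T6s Fa l l' q p x y z → (G.I Fa q).card = 1 →
      G.NoSk Fa l q → 1 ≤ G.ch5 Fa q → G.Dbl Fa l l' q → PS Fa l q

/-- `l` skips the hub `x` -/
inductive SK (Fa : Finset (Finset V)) : V → V → Prop
  | t4 {l q p q' p' x y : V} : G.T4s Fa l q p q' p' x y →
      ((G.I Fa x).card = 1 ∨ (G.I Fa x = ∅ ∧ G.RFt Fa q)) → SK Fa l x
  | t6q {l l' q p x y z : V} (g : V) : G.T6s Fa l l' q p x y z → (G.I Fa q).card = 1 →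
      g ∈ G.nb l → g ∈ G.nb q → G.Hub g → (G.I Fa g).card = 1 → SK Fa l g
  | t6l {l l' q p x y z : V} (g : V) : G.T6s Fa l l' q p x y z → G.NoQ Fa l q →
      G.Good Fa l l' g → SK Fa l g
  | gam {B : Finset V} {l d x y : V} (g : V) : G.Gam Fa B l d x y → G.ch5 Fa l < 0 →
      2 ≤ (G.I Fa d).card → g = x ∨ g = y → g ∈ G.nb d → (G.I Fa g).card = 1 → SK Fa l g
  | the {B : Finset V} {l a b x y : V} (g : V) : G.The Fa B l a b x y → G.ch5 Fa l < 0 →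
      g = x ∨ g = y → (G.I Fa g).card = 1 → SK Fa l g

/-- the hub `h` pays 4 to `l` -/
inductive HD (Fa : Finset (Finset V)) : V → V → Prop
  | eta {B : Finset V} {l a b q p : V} : G.Eta Fa B l a b q p → G.ch5 Fa l < 0 →
      G.ch5 Fa b < 2 → HD Fa l a
  | ast {l l' q p x y z : V} (g : V) : G.T6s Fa l l' q p x y z → (G.I Fa q).card = 1 →
      G.NoQ Fa l q → G.ch5 Fa l' < 2 → (∀ h, ¬ G.Good Fa l l' h) → g ∈ G.nb l → g ∈ G.nb q →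
      G.Hub g → G.I Fa g = ∅ → HD Fa l g

/-- the hub `h` pays 2 to `l` -/
inductive HS (Fa : Finset (Finset V)) : V → V → Prop
  | dbl {l l' q p x y z : V} (g : V) : G.T6s Fa l l' q p x y z → (G.I Fa q).card = 1 →
      G.NoSk Fa l q → 1 ≤ G.ch5 Fa q → G.Dbl Fa l l' q → g ∈ G.nb l → g ∈ G.nb l' →
      G.Hub g → HS Fa l g

/-- the hub `x` gives 2 back to the poor twin vertex `q` -/
def PQ (Fa : Finset (Finset V)) (q x : V) : Prop :=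
  q ∈ R Fa ∧ G.IsTw q ∧ G.I Fa q = ∅ ∧ (G.ch5 Fa q < 0 ∨ (G.tl Fa q = 3 ∧ G.tt Fa q = 0)) ∧
    x ∈ G.NH Fa q

/-- the low vertex `y` gives 2 to the twin vertex `q` of type ALPHA -/
def AL (Fa : Finset (Finset V)) (q y : V) : Prop := ∃ B p e f h, G.Alp Fa B q p y e f h

open Classical in
/-- what `x` gives to `z` (second payments, halves of the unit of `bal5`) -/
noncomputable def dn5 (Fa : Finset (Finset V)) (x z : V) : ℤ :=
  (if G.DL Fa z x then -2 * G.ch5 Fa z else 0) + (if G.PD Fa z x then -G.ch5 Fa z else 0) +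
    (if G.PF Fa z x then 2 else 0) + (if G.PS Fa z x then 1 else 0) +
    (if G.SK Fa z x then 4 else 0) + (if G.HD Fa z x then 4 else 0) +
    (if G.HS Fa z x then 2 else 0) + (if G.PQ Fa z x then 2 else 0) +
    (if G.AL Fa z x then 2 else 0)

/-! ## Statements -/

/-- M1: pairs of twins in no neighbourhood -/
structure StM1 : Prop where
  two : ∀ Fa, G.Gen6 Fa → ∀ q ∈ R Fa, G.IsTw q → G.I Fa q = ∅ → 2 ≤ G.tl Fa q
  /-- the poor pairs: two lows and four hubs; two lows, a pair of twins and two hubs; three lows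
  and three hubs -/
  poor : ∀ Fa, G.Gen6 Fa → ∀ q ∈ R Fa, ∀ p, G.Tw q p → G.I Fa q = ∅ →
    (G.ch5 Fa q < 0 ∨ (G.tl Fa q = 3 ∧ G.tt Fa q = 0)) →
    (∃ l l' x y z w, G.nb q = {p, l, l', x, y, z, w} ∧ G.Low l ∧ G.Low l' ∧ G.Hub x ∧ G.Hub y ∧
      G.Hub z ∧ G.Hub w) ∨
    (∃ l l' e f x y, G.nb q = {p, l, l', e, f, x, y} ∧ G.Low l ∧ G.Low l' ∧ G.Tw e f ∧ G.Hub x ∧
      G.Hub y) ∨
    (∃ l l' l'' x y z, G.nb q = {p, l, l', l'', x, y, z} ∧ G.Low l ∧ G.Low l' ∧ G.Low l'' ∧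
      G.Hub x ∧ G.Hub y ∧ G.Hub z)
  /-- two lows and four hubs: three common neighbours besides the partner -/
  t204 : ∀ Fa, G.Gen6 Fa → ∀ q ∈ R Fa, ∀ p, G.Tw q p → G.I Fa q = ∅ → ∀ l l' x y z w,
    G.nb q = {p, l, l', x, y, z, w} → G.Low l → G.Low l' → G.Hub x → G.Hub y → G.Hub z →
    G.Hub w → (G.nb l ∩ G.nb q).card = 4 ∧ (G.nb l' ∩ G.nb q).card = 4 ∧
      ∀ u ∈ ({x, y, z, w} : Finset V), u ∈ G.nb l ∨ u ∈ G.nb l'
  /-- two lows, a pair of twins and two hubs -/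
  t212 : ∀ Fa, G.Gen6 Fa → ∀ q ∈ R Fa, ∀ p, G.Tw q p → G.I Fa q = ∅ → ∀ l l' e f x y,
    G.nb q = {p, l, l', e, f, x, y} → G.Low l → G.Low l' → G.Tw e f → G.Hub x → G.Hub y →
    ((G.nb l ∩ G.nb q).card = 4 ∧ (G.nb l' ∩ G.nb q).card = 4 ∧ (e ∈ G.nb l ∨ e ∈ G.nb l')) ∨
    (∃ l1 l2 y1 y2, ((l1 = l ∧ l2 = l') ∨ (l1 = l' ∧ l2 = l)) ∧
      ((y1 = x ∧ y2 = y) ∨ (y1 = y ∧ y2 = x)) ∧ (G.I Fa e).card = 1 ∧
      G.nR Fa e = {f, q, p, l1, y1} ∧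
      ((G.nR Fa l1 = {q, p, e, f, l2} ∧ l1 ∈ G.nb l2 ∧ y2 ∈ G.nb l2 ∧ y1 ∉ G.nb l2) ∨
        (G.nR Fa l1 = {q, p, e, f, y1} ∧ G.HL y1 l1 l2 ∧ y1 ∈ G.nb l2 ∧ y2 ∈ G.nb l2 ∧
          l1 ∉ G.nb l2)) ∧ e ∉ G.nb l2)
  /-- a low vertex with three common neighbours besides the partner -/
  tight : ∀ Fa, G.Gen6 Fa → ∀ q ∈ R Fa, G.IsTw q → G.I Fa q = ∅ → ∀ l ∈ G.nb q, G.Low l →
    (G.nb l ∩ G.nb q).card = 4 → (G.I Fa l).card = 1 ∧ (G.nR Fa l).card = 5 ∧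
      G.nR Fa l ⊆ G.cl q
  /-- a pair of twins that covers a hub of the pair `q` -/
  cov1 : ∀ Fa, G.Gen6 Fa → ∀ q ∈ R Fa, G.IsTw q → G.I Fa q = ∅ → ∀ e f x, G.Tw e f →
    e ∈ G.nb q → ¬ G.Tw q e → G.Hub x → x ∈ G.nb q → x ∈ G.nb e → (G.I Fa e).card = 1

/-- M2: pairs of twins in one neighbourhood -/
structure StM2 : Prop where
  cls : ∀ Fa, G.Gen6 Fa → ∀ q ∈ R Fa, ∀ B, G.IsTw q → G.I Fa q = {B} → G.ch5 Fa q < 0 →
    -1 ≤ G.ch5 Fa q ∧ (G.InK6 Fa q ∨ ∃ p y e f h, G.Alp Fa B q p y e f h)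
  alp : ∀ Fa, G.Gen6 Fa → ∀ B q p y e f h, G.Alp Fa B q p y e f h → 2 ≤ G.ch5 Fa y ∧
    ((G.I Fa y = {B} ∧ ∃ z, G.nR Fa y = {q, p, e, f, z} ∧ z ∈ G.Co B ∧ z ∉ ({e, f, h} : Finset V)) ∨
      (G.nR Fa y = {q, p, e, f} ∧ (G.I Fa y).card = 2))
  two : ∀ Fa, G.Gen6 Fa → ∀ q ∈ R Fa, G.IsTw q → 2 ≤ (G.I Fa q).card → 0 ≤ G.ch5 Fa q

/-- M3a: lows in no neighbourhood -/
def StM3 : Prop := ∀ Fa, G.Gen6 Fa → ∀ l, G.L0 Fa l → G.ch5 Fa l < 0 →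
  (∃ l' q p q' p' x, G.T3s Fa l l' q p q' p' x) ∨ (∃ q p q' p' x y, G.T4s Fa l q p q' p' x y) ∨
  (∃ l' q p x y z, G.T6s Fa l l' q p x y z)

/-- M3b: the structure of `T4` -/
def StM3b : Prop := ∀ Fa, G.Gen6 Fa → ∀ l, G.L0 Fa l → ∀ q p q' p' x y,
  G.nb l = {q, p, q', p', x, y} → G.Tw q p → G.Tw q' p' → G.Hub x → G.Hub y →
  (¬ ∃ b, G.HL x b l) → (¬ ∃ b, G.HL y b l) → (G.I Fa q).card ≤ 1 → (G.I Fa q').card ≤ 1 →
  G.T4s Fa l q p q' p' x y ∨ G.T4s Fa l q p q' p' y x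

/-- M3c: a pair of twins and a hub `a` with `HL a b l`, no low vertex, two or three other hubs -/
def StM3c : Prop := ∀ Fa, G.Gen6 Fa → ∀ l, G.L0 Fa l → ∀ a b q p, G.HL a b l → G.Tw q p →
  q ∈ G.nb l → (G.I Fa q).card ≤ 1 → (∀ u ∈ G.nb l, ¬ G.Low u) →
  (∀ u ∈ G.nb l, u ≠ a → G.IsTw u ∨ G.PH Fa l u) →
  (∀ u ∈ G.nb l, G.IsTw u → (G.I Fa u).card ≤ 1) → False

/-- M4: lows in one neighbourhood -/
def StM4 : Prop := ∀ Fa, G.Gen6 Fa → ∀ B l, G.L1 Fa B l → G.ch5 Fa l < 0 →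
  (∃ d x y, G.Gam Fa B l d x y) ∨ (∃ a b x y, G.The Fa B l a b x y) ∨
  (∃ d q p, G.Eps Fa B l d q p) ∨ (∃ a b q p, G.Eta Fa B l a b q p) ∨
  (∃ v q p y, G.S0s Fa B l v q p y)

/-- K3: lows in two or more neighbourhoods (28) -/
structure StK3 : Prop where
  hub : ∀ Fa, G.Gen6 Fa → ∀ z ∈ R Fa, G.Hub z → 2 ≤ (G.I Fa z).card → 0 ≤ G.ch5 Fa z
  low : ∀ Fa, G.Gen6 Fa → ∀ z ∈ R Fa, G.Low z → 2 ≤ (G.I Fa z).card → G.ch5 Fa z < 0 →
    ∃ B ∈ G.I Fa z, ∃ v, G.S0 B z v ∧ v ∈ R Fa ∧ 2 ≤ (G.I Fa v).card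

/-- M5: the poor lows in no neighbourhood get enough -/
def StM5 : Prop := ∀ Fa, G.Gen6 Fa → ∀ l, G.L0 Fa l → G.ch5 Fa l < 0 →
  0 ≤ 2 * G.ch5 Fa l + ∑ x ∈ R Fa, G.dn5 Fa x l

/-- M6: the poor lows in one neighbourhood get enough -/
def StM6 : Prop := ∀ Fa, G.Gen6 Fa → ∀ B l, G.L1 Fa B l → G.ch5 Fa l < 0 →
  0 ≤ 2 * G.ch5 Fa l + ∑ x ∈ R Fa, G.dn5 Fa x l

/-- M6c: low vertices can pay -/
def StC6 : Prop := ∀ Fa, G.Gen6 Fa → ∀ d ∈ R Fa, G.Low d →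
  ∑ z ∈ R Fa, G.dn5 Fa d z ≤ max 0 (2 * G.ch5 Fa d)

open Classical in
/-- M7: twin vertices can pay -/
def StC7 : Prop := ∀ Fa, G.Gen6 Fa → ∀ q ∈ R Fa, G.IsTw q →
  ∑ z ∈ R Fa, G.dn5 Fa q z ≤ 2 * G.ch5 Fa q + ∑ x ∈ R Fa, G.dn5 Fa x q +
    (if G.InK6 Fa q then 2 else 0)

/-- M8: hubs can pay -/
def StC8 : Prop := ∀ Fa, G.Gen6 Fa → ∀ x ∈ R Fa, G.Hub x →
  ∑ z ∈ R Fa, G.dn5 Fa x z ≤ 2 * G.ch5 Fa x

/-- M9: the sum -/
def StM9 : Prop := ∀ Fa : Finset (Finset V), G.Gen6 Fa →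
  -6 * (G.cen Fa : ℤ) ≤ ∑ z ∈ R Fa, G.bal5 Fa z

/-- small graphs without big fragments -/
def StS12 : Prop := G.Crit → G.Sat → 9 ≤ Fintype.card V → Fintype.card V ≤ 12 →
  (∀ F, ¬ G.Big F) → 4 * (Fintype.card V : ℤ) ≤ 12 * (G.l univ : ℤ) + 6 * (G.kap univ : ℤ)

end CG

end Pool.Agent.Lib.MP_e95c01_co.N
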