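import Pool.Agent.Lib.MP_e95c01_co.X.K3_28
import Pool.Agent.Lib.MP_e95c01_co.X.StmtsT76

/-!
# `λ = 3`, thick torsos: row K3
-/

namespace Pool.Agent.Lib.MP_e95c01_co.N

open Finset

variable {V : Type} [Fintype V] [DecidableEq V]

namespace CG

open K28

/-- K3 -/
theorem stK3_28 (G : CG V) : G.StK3 where
  hub := by
    intro Fa _ z hz hh hk
    have h1 := (G.stCh5_28).hub2 Fa z hz hh hk
    have h2 : (2 : ℤ) ≤ ((G.I Fa z).card : ℤ) := by exact_mod_cast hk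
    linarith
  low := by
    intro Fa hG z hz _ hk hneg
    obtain ⟨-, -, v, hv⟩ := neg2 hG.g5 hz hk hneg
    obtain ⟨h1, h2, h3, h4, h5, h6, -⟩ := don2_prop hG.g5 hv
    obtain ⟨-, -, -, B, B', -, k1, k2, -⟩ := hv
    refine ⟨B, ?_, v, k2, (mem_nR76.1 h2).2, h6⟩
    rw [k1]
    exact mem_insert_self _ _

namespace K28

variable {G : CG V} {Fa : Finset (Finset V)}

/-- the partner of a flagged low vertex with a negative charge is its donor -/
theorem don2_of (hG : G.Gen5 Fa) {z v : V} {B : Finset V} (hz : z ∈ R Fa)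
    (hk : 2 ≤ (G.I Fa z).card) (hB : B ∈ G.I Fa z) (hS : G.S0 B z v)
    (hneg : G.ch5 Fa z < 0) : G.Don2 Fa v z := by
  obtain ⟨-, -, v', hv'⟩ := neg2 hG hz hk hneg
  obtain ⟨h1, h2, h3, h4, -⟩ := don2_prop hG hv'
  have h5 : v' ∈ G.pT B z := mem_inter.2 ⟨(mem_nR76.1 h2).1, (mem_I76.1 (h4 hB)).2⟩
  rw [← S0_uniq hS h5]
  exact hv'

end K28

end CG

end Pool.Agent.Lib.MP_e95c01_co.N
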