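import Pool.Agent.Lib.MP_e95c01_co.X.AuxT76
import Pool.Agent.Lib.MP_e95c01_co.X.K3f_28

/-!
# `λ = 3`, thick torsos, M2: pairs of twins in one neighbourhood
-/

namespace Pool.Agent.Lib.MP_e95c01_co.N

open Finset

variable {V : Type} [Fintype V] [DecidableEq V]

namespace CG

namespace M38

open K28

variable {G : CG V} {Fa : Finset (Finset V)}

/-- the situation: the pair `q p` of twins is in the neighbourhood of `B` only -/
structure Q1 (G : CG V) (Fa : Finset (Finset V)) (q p : V) (B : Finset V) : Prop where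
  g : G.Gen5 Fa
  t : G.Tw q p
  qR : q ∈ R Fa
  I : G.I Fa q = {B}

variable {q p : V} {B : Finset V}

namespace Q1

theorem isTw (c : Q1 G Fa q p B) : G.IsTw q := ⟨p, c.t⟩

theorem mI (c : Q1 G Fa q p B) : B ∈ G.I Fa q := by
  rw [c.I]
  exact mem_singleton_self _

theorem BF (c : Q1 G Fa q p B) : B ∈ Fa := (mem_I76.1 c.mI).1

theorem qN (c : Q1 G Fa q p B) : q ∈ G.N B := (mem_I76.1 c.mI).2

theorem fr (c : Q1 G Fa q p B) : G.Frag B := c.g.reg.frag B c.BF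

theorem twI (c : Q1 G Fa q p B) : p ∈ R Fa ∧ G.I Fa p = {B} := by
  have h := (stTwHL_5 G).twI Fa c.g.reg q c.qR p c.t
  exact ⟨h.1, h.2.trans c.I⟩

theorem symm (c : Q1 G Fa q p B) : Q1 G Fa p q B :=
  ⟨c.g, tw_symm76 c.t, c.twI.1, c.twI.2⟩

theorem pN (c : Q1 G Fa q p B) : p ∈ G.N B := c.symm.qN

/-- `p` is a neighbour of `q` in `N B` -/
theorem pT (c : Q1 G Fa q p B) : p ∈ G.nb q ∩ G.N B := mem_inter.2 ⟨c.t.1, c.pN⟩

theorem h2 (c : Q1 G Fa q p B) : 2 ≤ (G.nb q ∩ B).card :=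
  two_hid c.g.n9 c.g.reg c.g.big c.qR c.isTw c.mI

theorem r3 (c : Q1 G Fa q p B) : 3 ≤ (G.nb q ∩ G.Co B).card := e1q_86 c.g c.t c.qR c.I

theorem seven (c : Q1 G Fa q p B) :
    (G.nb q ∩ B).card + (G.nb q ∩ G.N B).card + (G.nb q ∩ G.Co B).card = 7 := by
  have h1 := d_split76 (G := G) q B
  rw [c.t.2.1] at h1
  exact h1

theorem tpos (c : Q1 G Fa q p B) : 1 ≤ (G.nb q ∩ G.N B).card := card_pos.2 ⟨p, c.pT⟩

/-- visible neighbours -/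
theorem vis (c : Q1 G Fa q p B) {x : V} (hx : x ∈ G.nR Fa q) :
    x ∈ G.nb q ∩ G.N B ∨ x ∈ G.nb q ∩ G.Co B := by
  obtain ⟨h1, h2⟩ := mem_nR76.1 hx
  have h3 := mem_R76.1 h2 B c.BF
  by_cases h4 : x ∈ G.N B
  · exact Or.inl (mem_inter.2 ⟨h1, h4⟩)
  · exact Or.inr (mem_inter.2 ⟨h1, mem_Co76.2 ⟨h3, h4⟩⟩)

theorem O_nR (c : Q1 G Fa q p B) {x : V} (hx : x ∈ G.nb q ∩ G.Co B) : x ∈ G.nR Fa q :=
  nR_Co5 c.qR c.I hx

theorem T_nR (c : Q1 G Fa q p B) {x : V} (hx : x ∈ G.nb q ∩ G.N B) : x ∈ G.nR Fa q :=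
  mem_nR76.2 ⟨(mem_inter.1 hx).1, N_R c.g.reg c.BF (mem_inter.1 hx).2⟩

theorem O_I (c : Q1 G Fa q p B) {x : V} (hx : x ∈ G.nb q ∩ G.Co B) : B ∉ G.I Fa x :=
  ((mem_X76 c.qR c.I).1 hx).2

theorem O_m (c : Q1 G Fa q p B) {x : V} (hx : x ∈ G.nb q ∩ G.Co B) :
    G.m Fa q x = 0 ∧ G.m Fa x q = 0 := m_X76 c.I (c.O_I hx)

/-- the partner of a twin vertex in `T` or `O` -/
theorem part_O (c : Q1 G Fa q p B) {v w : V} (hv : v ∈ G.nb q ∩ G.Co B) (t : G.Tw v w) :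
    w ∈ G.nb q ∩ G.Co B := by
  have hvR := (mem_nR76.1 (c.O_nR hv)).2
  have h := (stTwHL_5 G).twI Fa c.g.reg v hvR w t
  have hqw : q ≠ w := by
    rintro rfl
    have h1 : v = p := (stTwHL_5 G).uniq c.g.n9 _ _ _ (tw_symm76 t) c.t
    rw [h1] at hv
    exact (mem_Co76.1 (mem_inter.1 hv).2).2 c.pN
  have h1 : w ∈ G.nR Fa q :=
    mem_nR76.2 ⟨G.sym _ _ (Tw_nb5 t (G.sym _ _ (mem_inter.1 hv).1) hqw), h.1⟩
  refine (c.vis h1).resolve_left fun h2 => c.O_I hv ?_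
  rw [← h.2]
  exact mem_I76.2 ⟨c.BF, (mem_inter.1 h2).2⟩

theorem part_T (c : Q1 G Fa q p B) {v w : V} (hv : v ∈ G.nb q ∩ G.N B) (t : G.Tw v w)
    (hvp : v ≠ p) : w ∈ G.nb q ∩ G.N B := by
  have hvR := (mem_nR76.1 (c.T_nR hv)).2
  have h := (stTwHL_5 G).twI Fa c.g.reg v hvR w t
  have hqw : q ≠ w := by
    rintro rfl
    exact hvp ((stTwHL_5 G).uniq c.g.n9 _ _ _ (tw_symm76 t) c.t)
  have h1 : w ∈ G.nb q := G.sym _ _ (Tw_nb5 t (G.sym _ _ (mem_inter.1 hv).1) hqw)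
  refine mem_inter.2 ⟨h1, (mem_I76.1 (?_ : B ∈ G.I Fa w)).2⟩
  rw [h.2]
  exact mem_I76.2 ⟨c.BF, (mem_inter.1 hv).2⟩

theorem t2 (c : Q1 G Fa q p B) : (G.nb q ∩ G.N B).card ≤ 2 := by
  have := c.h2
  have := c.r3
  have := c.seven
  omega

/-- the only twin vertex in `T` is the partner -/
theorem T_tw (c : Q1 G Fa q p B) {v : V} (hv : v ∈ G.nb q ∩ G.N B) (ht : G.IsTw v) : v = p := by
  by_contra hvp
  obtain ⟨w, t⟩ := ht
  have hw := c.part_T hv t hvp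
  have hwp : w ≠ p := by
    rintro rfl
    have h1 : v = q := (stTwHL_5 G).uniq c.g.n9 _ _ _ (tw_symm76 t) (tw_symm76 c.t)
    rw [h1] at hv
    exact G.irr _ (mem_inter.1 hv).1
  have hvw : v ≠ w := ne_of_nb5 t.1
  have h3 : ({v, w, p} : Finset V).card = 3 := by
    rw [card_insert_of_notMem, card_pair hwp]
    rw [mem_insert, mem_singleton]
    exact fun h => h.elim hvw hvp
  have h4 : ({v, w, p} : Finset V) ⊆ G.nb q ∩ G.N B := by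
    intro x hx
    rw [mem_insert, mem_insert, mem_singleton] at hx
    rcases hx with rfl | rfl | rfl
    exacts [hv, hw, c.pT]
  have := card_le_card h4
  have := c.t2
  omega

/-- covers at `q` of the neighbours outside of `N B` -/
theorem cover (c : Q1 G Fa q p B) {x : V} (hx : x ∈ G.nb q ∩ G.Co B) :
    (∃ u ∈ G.nR Fa q, G.Low u ∧ x ∈ G.nb u) ∨
    (∃ v w, G.Tw v w ∧ v ∈ G.nb q ∩ G.Co B ∧ w ∈ G.nb q ∩ G.Co B ∧ x ∈ G.nb v ∧ x ∈ G.nb w) ∨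
    (∃ a b, b ∈ G.nR Fa q ∧ b ≠ x ∧ a ∈ R Fa ∧ G.HL a b x ∧ q ∈ G.nb a) := by
  rcases cov3_76 (qs16 G) (tor86 c.g) c.qR (c.O_nR hx) (c.O_m hx).1 with h | h | h | h | h
  · obtain ⟨u, h1, h2, h3, h4⟩ := h
    exact Or.inl ⟨u, h1, h3, h4⟩
  · obtain ⟨v, w, h1, h2, h3, h4, h5⟩ := h
    have hvp : v ≠ p := by
      rintro rfl
      have h6 : w = q := (stTwHL_5 G).uniq c.g.n9 _ _ _ h3 (tw_symm76 c.t)
      rw [h6] at h2
      exact G.irr _ (mem_nR76.1 h2).1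
    have hv : v ∈ G.nb q ∩ G.Co B :=
      (c.vis h1).resolve_left fun h6 => hvp (c.T_tw h6 ⟨w, h3⟩)
    exact Or.inr (Or.inl ⟨v, w, h3, hv, c.part_O hv h3, h4, h5⟩)
  · obtain ⟨a, b, -, -, h3, -⟩ := h
    exact absurd h3 (tw_not_low76 c.isTw)
  · obtain ⟨a, b, h1, h2, h3, h4, h5⟩ := h
    refine Or.inr (Or.inr ⟨a, b, h1, fun e => (HL_bt76 h4).2 e.symm, h2, h4, ?_⟩)
    exact HL_sub76 h4 (G.sym _ _ (mem_nR76.1 h1).1) h5
  · obtain ⟨a, b, -, -, -, h5⟩ := h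
    exact absurd c.isTw (twLL_5 h5)

end Q1

end M38

end CG

end Pool.Agent.Lib.MP_e95c01_co.N
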