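import Pool.Agent.Lib.MP_e95c01_co.X.M2a_38

/-!
# `λ = 3`, thick torsos, M2: the charge of a pair of twins in one neighbourhood
-/

namespace Pool.Agent.Lib.MP_e95c01_co.N

open Finset

variable {V : Type} [Fintype V] [DecidableEq V]

namespace CG

namespace M38

open K28

variable {G : CG V} {Fa : Finset (Finset V)}

open Classical in
theorem split3 (S : Finset V) : (S.filter fun x => G.Low x).card +
    (S.filter fun x => G.IsTw x).card + (S.filter fun x => G.Hub x).card = S.card := by
  have h1 : S = (S.filter fun x => G.Low x) ∪ ((S.filter fun x => G.IsTw x) ∪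
      (S.filter fun x => G.Hub x)) := by
    ext x
    simp only [mem_union, mem_filter]
    have := trich76 (G := G) x
    tauto
  have h2 : Disjoint (S.filter fun x => G.Low x) ((S.filter fun x => G.IsTw x) ∪
      (S.filter fun x => G.Hub x)) := by
    rw [disjoint_left]
    intro x hx hx'
    rw [mem_filter] at hx
    rw [mem_union, mem_filter, mem_filter] at hx'
    rcases hx' with h | h
    · exact tw_not_low76 h.2 hx.2
    · exact h.2.1 hx.2
  have h3 : Disjoint (S.filter fun x => G.IsTw x) (S.filter fun x => G.Hub x) := by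
    rw [disjoint_left]
    intro x hx hx'
    rw [mem_filter] at hx hx'
    exact hx'.2.2 hx.2
  have h4 := congrArg Finset.card h1
  rw [card_union_of_disjoint h2, card_union_of_disjoint h3] at h4
  omega

variable {q p : V} {B : Finset V}

namespace Q1

theorem ch (c : Q1 G Fa q p B) : G.ch5 Fa q = 2 * ((G.nb q ∩ G.Co B).card : ℤ) +
    ((G.nb q ∩ G.N B).card : ℤ) - 9 + 2 * ((G.NO Fa q).card : ℤ) + ((G.NT Fa q).card : ℤ) -
      ((G.NH Fa q).card : ℤ) + G.fg5 Fa q :=
  (G.stCh5_28).tw1 c.g.n9 Fa c.g.reg q c.qR c.isTw B c.I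

theorem fg (c : Q1 G Fa q p B) : -1 ≤ G.fg5 Fa q ∧
    ((G.nb q ∩ G.Co B).card = 3 → 0 ≤ G.fg5 Fa q) := by
  have h1 : G.fg5 Fa q = ff G B q := by rw [fg_eq, c.I, sum_singleton]
  have h2 := ff_tw (G := G) (B := B) c.isTw
  rw [h1]
  refine ⟨h2.1, fun h3 => ?_⟩
  by_contra hc
  obtain ⟨-, p', w, w', -, -, -, h4, -⟩ := h2.2.1 (not_le.1 hc)
  have h5 : (G.nb q ∩ G.Co B).card = 4 := h4
  omega

open Classical in
theorem NO_ge (c : Q1 G Fa q p B) :
    ((G.nb q ∩ G.Co B).filter fun x => G.Low x).card ≤ (G.NO Fa q).card := by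
  refine card_le_card ?_
  intro x hx
  rw [mem_filter] at hx
  rw [NO, mem_filter]
  exact ⟨c.O_nR hx.1, hx.2, (c.O_m hx.1).2⟩

open Classical in
theorem NH_le (c : Q1 G Fa q p B) : (G.NH Fa q).card ≤
    ((G.nb q ∩ G.Co B).filter fun x => G.Hub x ∧ (G.I Fa x).card ≤ 1).card +
      ((G.nb q ∩ G.N B).filter fun x => G.Hub x).card := by
  refine le_trans (card_le_card (t := ((G.nb q ∩ G.Co B).filter fun x => G.Hub x ∧
    (G.I Fa x).card ≤ 1) ∪ ((G.nb q ∩ G.N B).filter fun x => G.Hub x)) ?_)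
    (card_union_le _ _)
  intro x hx
  rw [NH, mem_filter] at hx
  rw [mem_union, mem_filter, mem_filter]
  rcases c.vis hx.1 with h | h
  · exact Or.inr ⟨h, hx.2.1⟩
  · exact Or.inl ⟨h, hx.2⟩

open Classical in
theorem NH_le' (c : Q1 G Fa q p B) : (G.NH Fa q).card ≤
    ((G.nb q ∩ G.Co B).filter fun x => G.Hub x).card +
      ((G.nb q ∩ G.N B).filter fun x => G.Hub x).card := by
  have h1 := c.NH_le
  have h2 : ((G.nb q ∩ G.Co B).filter fun x => G.Hub x ∧ (G.I Fa x).card ≤ 1).card ≤
      ((G.nb q ∩ G.Co B).filter fun x => G.Hub x).card := by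
    refine card_le_card ?_
    intro x hx
    rw [mem_filter] at hx ⊢
    exact ⟨hx.1, hx.2.1⟩
  omega

open Classical in
theorem T_hub (c : Q1 G Fa q p B) : ((G.nb q ∩ G.N B).filter fun x => G.Hub x).card + 1 ≤
    (G.nb q ∩ G.N B).card := by
  have h1 : ((G.nb q ∩ G.N B).filter fun x => G.Hub x) ⊆ (G.nb q ∩ G.N B).erase p := by
    intro x hx
    rw [mem_filter] at hx
    rw [mem_erase]
    refine ⟨?_, hx.1⟩
    rintro rfl
    exact hx.2.2 c.symm.isTw
  have h2 := card_le_card h1
  rw [card_erase_of_mem c.pT] at h2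
  have := c.tpos
  omega

/-- the low vertex of `T` that takes part in a cover pays -/
theorem NT_ge (c : Q1 G Fa q p B) {y x : V} (hy : y ∈ G.nb q ∩ G.N B) (yl : G.Low y)
    (hx : x ∈ G.nb q ∩ G.Co B) (h : x ∈ G.nb y ∨ ∃ a ∈ R Fa, G.HL a y x ∧ q ∈ G.nb a) :
    1 ≤ (G.NT Fa q).card := by
  classical
  refine card_pos.2 ⟨y, ?_⟩
  rw [NT, mem_filter]
  refine ⟨c.T_nR hy, yl, fun h1 => ?_, Or.inr (Or.inr ⟨x, c.O_nR hx, (c.O_m hx).1, ?_⟩)⟩
  · rw [m, card_eq_zero] at h1
    have h2 : B ∈ G.I Fa y ∩ G.I Fa q :=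
      mem_inter.2 ⟨mem_I76.2 ⟨c.BF, (mem_inter.1 hy).2⟩, c.mI⟩
    rw [h1] at h2
    exact absurd h2 (notMem_empty _)
  · rcases h with h | h
    · exact Or.inl h
    · exact Or.inr (Or.inr h)

/-- two twin vertices if there is one -/
theorem two_tw (c : Q1 G Fa q p B) {v : V} (hv : v ∈ G.nb q ∩ G.Co B) (ht : G.IsTw v) :
    by classical exact 2 ≤ ((G.nb q ∩ G.Co B).filter fun x => G.IsTw x).card := by
  classical
  obtain ⟨w, t⟩ := ht
  exact two_le5 (mem_filter.2 ⟨hv, ⟨w, t⟩⟩) (mem_filter.2 ⟨c.part_O hv t, tw_of76' t⟩)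
    (ne_of_nb5 t.1)

/-- three adjacent pairs -/
def Tri (G : CG V) (q : V) (B : Finset V) : Prop := ∃ e f e' f', G.Tw e f ∧ G.Tw e' f' ∧
  e' ∈ G.nb e ∧ e' ≠ f ∧ G.nb q ∩ G.Co B = {e, f, e', f'} ∧ (G.nb q ∩ G.Co B).card = 4

/-- the classification -/
theorem main (c : Q1 G Fa q p B) : 0 ≤ G.ch5 Fa q ∨ (-1 ≤ G.ch5 Fa q ∧
    (Tri G q B ∨ ∃ y e f h, G.Alp Fa B q p y e f h)) := by
  classical
  have h2 := c.h2
  have r3 := c.r3
  have s7 := c.seven
  have tp := c.tpos
  have hch := c.ch
  obtain ⟨fg1, fg3⟩ := c.fg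
  have n1 := c.NO_ge
  have n2 := c.NH_le'
  have n3 := c.T_hub
  have n4 := split3 (G := G) (G.nb q ∩ G.Co B)
  have z1 : (0 : ℤ) ≤ ((G.NT Fa q).card : ℤ) := by positivity
  set L := ((G.nb q ∩ G.Co B).filter fun x => G.Low x) with hL
  set P := ((G.nb q ∩ G.Co B).filter fun x => G.IsTw x) with hP
  set H := ((G.nb q ∩ G.Co B).filter fun x => G.Hub x) with hH
  set TH := ((G.nb q ∩ G.N B).filter fun x => G.Hub x) with hTH
  by_cases l2 : 2 ≤ L.card
  · -- at least two lows
    left
    rcases (show (G.nb q ∩ G.Co B).card = 3 ∨ (G.nb q ∩ G.Co B).card = 4 by omega) with e | e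
    · have := fg3 e
      omega
    · omega
  by_cases l1 : L.card = 1
  · -- one low
    obtain ⟨l, hl⟩ := card_eq_one.1 l1
    have hlL : l ∈ L := by rw [hl]; exact mem_singleton_self _
    have hlL' := hlL
    rw [hL, mem_filter] at hlL'
    have only : ∀ u ∈ G.nb q ∩ G.Co B, G.Low u → u = l := fun u hu hlu => by
      have : u ∈ L := by rw [hL, mem_filter]; exact ⟨hu, hlu⟩
      rw [hl] at this
      exact mem_singleton.1 this
    -- the low in `T` which covers `l`
    have key : ∀ u ∈ G.nR Fa q, G.Low u → u ≠ l → (l ∈ G.nb u ∨ ∃ a ∈ R Fa, G.HL a u l ∧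
        q ∈ G.nb a) → 0 ≤ G.ch5 Fa q := by
      intro u hu ul hne h
      have huT : u ∈ G.nb q ∩ G.N B := (c.vis hu).resolve_right fun h1 => hne (only u h1 ul)
      have nt := c.NT_ge huT ul hlL'.1 h
      have hup : u ≠ p := by
        rintro rfl
        exact tw_not_low76 c.symm.isTw ul
      have t2 : 2 ≤ (G.nb q ∩ G.N B).card := two_le5 huT c.pT hup
      have th0 : TH.card + 2 ≤ (G.nb q ∩ G.N B).card := by
        have h1 : TH ⊆ ((G.nb q ∩ G.N B).erase p).erase u := by
          intro x hx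
          rw [hTH, mem_filter] at hx
          rw [mem_erase, mem_erase]
          refine ⟨?_, ?_, hx.1⟩
          · rintro rfl
            exact hx.2.1 ul
          · rintro rfl
            exact hx.2.2 c.symm.isTw
        have h2 := card_le_card h1
        rw [card_erase_of_mem (mem_erase.2 ⟨hup, huT⟩), card_erase_of_mem c.pT] at h2
        omega
      have e : (G.nb q ∩ G.Co B).card = 3 := by omega
      have := fg3 e
      omega
    rcases c.cover hlL'.1 with ⟨u, hu, ul, h⟩ | ⟨v, w, t, hv, hw, h3, h4⟩ | ⟨a, b, hb, hbl, ha, h, hqa⟩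
    · left
      refine key u hu ul ?_ (Or.inl h)
      rintro rfl
      exact G.irr _ h
    · left
      have := c.two_tw hv ⟨w, t⟩
      have hP2 : 2 ≤ P.card := this
      rcases (show (G.nb q ∩ G.Co B).card = 3 ∨ (G.nb q ∩ G.Co B).card = 4 by omega) with e | e
      · have := fg3 e
        omega
      · omega
    · left
      exact key b hb h.2.1 hbl (Or.inr ⟨a, ha, h, hqa⟩)
  -- no low
  have l0 : L = ∅ := card_eq_zero.1 (by omega)
  have noL : ∀ u ∈ G.nb q ∩ G.Co B, ¬ G.Low u := fun u hu hlu => by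
    have : u ∈ L := by rw [hL, mem_filter]; exact ⟨hu, hlu⟩
    rw [l0] at this
    exact absurd this (notMem_empty _)
  have cov : ∀ x ∈ G.nb q ∩ G.Co B, (∃ y ∈ G.nb q ∩ G.N B, G.Low y ∧ x ∈ G.nb y) ∨
      (∃ v w, G.Tw v w ∧ v ∈ G.nb q ∩ G.Co B ∧ w ∈ G.nb q ∩ G.Co B ∧ x ∈ G.nb v ∧
        x ∈ G.nb w) := by
    intro x hx
    rcases c.cover hx with ⟨u, hu, ul, h⟩ | h | ⟨a, b, hb, hbl, ha, h, hqa⟩
    · exact Or.inl ⟨u, (c.vis hu).resolve_right fun h1 => noL u h1 ul, ul, h⟩
    · exact Or.inr h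
    · exact absurd (c.g.sat _ _ _ h) (noL x hx)
  by_cases T1 : (G.nb q ∩ G.N B).card = 1
  · -- only the partner
    have hTp : ∀ y ∈ G.nb q ∩ G.N B, ¬ G.Low y := by
      intro y hy yl
      obtain ⟨p', hp'⟩ := card_eq_one.1 T1
      have h1 := c.pT
      rw [hp', mem_singleton] at h1 hy
      rw [hy, ← h1] at yl
      exact tw_not_low76 c.symm.isTw yl
    have cov' : ∀ x ∈ G.nb q ∩ G.Co B, ∃ v w, G.Tw v w ∧ v ∈ G.nb q ∩ G.Co B ∧
        w ∈ G.nb q ∩ G.Co B ∧ x ∈ G.nb v ∧ x ∈ G.nb w := fun x hx =>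
      (cov x hx).resolve_left fun ⟨y, hy, yl, _⟩ => hTp y hy yl
    obtain ⟨x0, hx0⟩ : (G.nb q ∩ G.Co B).Nonempty := card_pos.1 (by omega)
    obtain ⟨e, f, t, he, hf, -, -⟩ := cov' x0 hx0
    obtain ⟨e', f', t', he', hf', k1, k2⟩ := cov' e he
    have a1 : e' ≠ e := by rintro rfl; exact G.irr _ k1
    have a2 : f' ≠ e := by rintro rfl; exact G.irr _ k2
    have a3 : e' ≠ f := by
      rintro rfl
      have : f' = e := (stTwHL_5 G).uniq c.g.n9 _ _ _ t' (tw_symm76 t)
      exact a2 this
    have a4 : f' ≠ f := by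
      rintro rfl
      have : e' = e := (stTwHL_5 G).uniq c.g.n9 _ _ _ (tw_symm76 t') (tw_symm76 t)
      exact a1 this
    have a5 : e ≠ f := ne_of_nb5 t.1
    have a6 : e' ≠ f' := ne_of_nb5 t'.1
    have c4 : ({e, f, e', f'} : Finset V).card = 4 := by
      rw [card_insert_of_notMem, card_insert_of_notMem, card_pair a6]
      · rw [mem_insert, mem_singleton]
        exact fun h => h.elim (fun h => a3 h.symm) fun h => a4 h.symm
      · rw [mem_insert, mem_insert, mem_singleton]
        exact fun h => h.elim a5 fun h => h.elim (fun h => a1 h.symm) fun h => a2 h.symm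
    have hsub : ({e, f, e', f'} : Finset V) ⊆ G.nb q ∩ G.Co B := by
      intro x hx
      rw [mem_insert, mem_insert, mem_insert, mem_singleton] at hx
      rcases hx with rfl | rfl | rfl | rfl
      exacts [he, hf, he', hf']
    have hle := card_le_card hsub
    have hO4 : (G.nb q ∩ G.Co B).card = 4 := by omega
    have hEq : G.nb q ∩ G.Co B = {e, f, e', f'} :=
      (eq_of_subset_of_card_le hsub (by omega)).symm
    have hP4 : P.card = 4 := by
      have h1 : ({e, f, e', f'} : Finset V) ⊆ P := by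
        intro x hx
        have hx1 := hsub hx
        rw [mem_insert, mem_insert, mem_insert, mem_singleton] at hx
        rw [hP, mem_filter]
        refine ⟨hx1, ?_⟩
        rcases hx with rfl | rfl | rfl | rfl
        exacts [⟨_, t⟩, ⟨_, tw_symm76 t⟩, ⟨_, t'⟩, ⟨_, tw_symm76 t'⟩]
      have h2 := card_le_card h1
      omega
    right
    refine ⟨by omega, Or.inl ⟨e, f, e', f', t, t', G.sym _ _ k1, a3, hEq, hO4⟩⟩
  · -- one more vertex
    have T2 : (G.nb q ∩ G.N B).card = 2 := by
      have := c.t2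
      omega
    have hO3 : (G.nb q ∩ G.Co B).card = 3 := by omega
    have hB2 : (G.nb q ∩ B).card = 2 := by omega
    have hf0 := fg3 hO3
    obtain ⟨y, hyp, hTy⟩ : ∃ y, y ≠ p ∧ G.nb q ∩ G.N B = {p, y} := by
      obtain ⟨y, hy⟩ : ((G.nb q ∩ G.N B).erase p).Nonempty := by
        rw [← card_pos, card_erase_of_mem c.pT]
        omega
      rw [mem_erase] at hy
      refine ⟨y, hy.1, (eq_of_subset_of_card_le ?_ ?_).symm⟩
      · intro x hx
        rw [mem_insert, mem_singleton] at hx
        rcases hx with rfl | rfl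
        exacts [c.pT, hy.2]
      · rw [card_pair hy.1.symm]
        omega
    have hyT : y ∈ G.nb q ∩ G.N B := by rw [hTy]; simp
    have lowT : ∀ u ∈ G.nb q ∩ G.N B, G.Low u → u = y := by
      intro u hu ul
      rw [hTy, mem_insert, mem_singleton] at hu
      rcases hu with rfl | rfl
      · exact absurd ul (tw_not_low76 c.symm.isTw)
      · rfl
    by_cases hP0 : P.card = 0
    · -- three hubs
      exfalso
      have noP : ∀ v ∈ G.nb q ∩ G.Co B, ¬ G.IsTw v := fun v hv ht => by
        have : v ∈ P := by rw [hP, mem_filter]; exact ⟨hv, ht⟩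
        rw [card_eq_zero.1 hP0] at this
        exact absurd this (notMem_empty _)
      have hall : ∀ x ∈ G.nb q ∩ G.Co B, G.Low y ∧ x ∈ G.nb y := by
        intro x hx
        rcases cov x hx with ⟨u, hu, ul, h⟩ | ⟨v, w, t, hv, -⟩
        · have e1 : u = y := lowT u hu ul
          rw [e1] at ul h
          exact ⟨ul, h⟩
        · exact absurd ⟨w, t⟩ (noP v hv)
      obtain ⟨x0, hx0⟩ : (G.nb q ∩ G.Co B).Nonempty := card_pos.1 (by omega)
      have yl := (hall x0 hx0).1
      have yR := (mem_nR76.1 (c.T_nR hyT)).2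
      have yI : B ∈ G.I Fa y := mem_I76.2 ⟨c.BF, (mem_inter.1 hyT).2⟩
      have y6 := six_low yl B
      have yh := hid1 yI
      have yq : q ∈ G.nb y := G.sym _ _ (mem_inter.1 hyT).1
      have yp : p ∈ G.nb y := G.sym _ _ (Tw_nb5 c.t (mem_inter.1 hyT).1 hyp)
      have yT : 2 ≤ (G.nb y ∩ G.N B).card :=
        two_le5 (mem_inter.2 ⟨yq, c.qN⟩) (mem_inter.2 ⟨yp, c.pN⟩) (ne_of_nb5 c.t.1)
      have hsub : G.nb q ∩ G.Co B ⊆ G.nb y ∩ G.Co B := fun x hx =>
        mem_inter.2 ⟨(hall x hx).2, (mem_inter.1 hx).2⟩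
      have yO := card_le_card hsub
      by_cases k1 : (G.I Fa y).card = 1
      · have hIy : G.I Fa y = {B} := by
          obtain ⟨D, hD⟩ := card_eq_one.1 k1
          rw [hD, mem_singleton] at yI
          rw [hD, yI]
        have yq' : y ≠ q := ne_of_nb5 yq
        have h4 := e3q_86 c.g c.t yq' hyp yR c.qR hIy c.I
        rw [union_inter_distrib_right, union_eq_left.2 hsub] at h4
        omega
      · -- a second neighbourhood
        obtain ⟨D, hD, hDB⟩ : ∃ D ∈ G.I Fa y, D ≠ B := by
          by_contra hc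
          push Not at hc
          have : G.I Fa y ⊆ {B} := fun D hD => mem_singleton.2 (hc D hD)
          have h1 := card_le_card this
          rw [card_singleton] at h1
          have : 0 < (G.I Fa y).card := card_pos.2 ⟨B, yI⟩
          omega
        obtain ⟨b, hb⟩ := card_pos.1 (hid1 hD)
        have hbO : b ∈ G.nb y ∩ G.Co B :=
          mem_inter.2 ⟨(mem_inter.1 hb).1, blob_Co c.g.reg c.BF (mem_I76.1 hD).1 hDB.symm
            (mem_inter.1 hb).2⟩
        have hbn : b ∉ G.nb q ∩ G.Co B := fun h1 =>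
          mem_R76.1 (mem_nR76.1 (c.O_nR h1)).2 D (mem_I76.1 hD).1 (mem_inter.1 hb).2
        have h1 : insert b (G.nb q ∩ G.Co B) ⊆ G.nb y ∩ G.Co B := by
          intro x hx
          rw [mem_insert] at hx
          rcases hx with rfl | hx
          exacts [hbO, hsub hx]
        have h2 := card_le_card h1
        rw [card_insert_of_notMem hbn] at h2
        omega
    · -- a pair of twins
      obtain ⟨e, heP⟩ := card_pos.1 (Nat.pos_of_ne_zero hP0)
      rw [hP, mem_filter] at heP
      obtain ⟨he, f, t⟩ := heP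
      have hf := c.part_O he t
      have hef : e ≠ f := ne_of_nb5 t.1
      obtain ⟨h, hh⟩ : (((G.nb q ∩ G.Co B).erase e).erase f).Nonempty := by
        rw [← card_pos, card_erase_of_mem (mem_erase.2 ⟨hef.symm, hf⟩), card_erase_of_mem he]
        omega
      rw [mem_erase, mem_erase] at hh
      obtain ⟨hhf, hhe, hhO⟩ := hh
      have hEq : G.nb q ∩ G.Co B = {e, f, h} := by
        refine (eq_of_subset_of_card_le ?_ ?_).symm
        · intro x hx
          rw [mem_insert, mem_insert, mem_singleton] at hx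
          rcases hx with rfl | rfl | rfl
          exacts [he, hf, hhO]
        · rw [hO3, card_insert_of_notMem, card_pair hhf.symm]
          rw [mem_insert, mem_singleton]
          exact fun h1 => h1.elim hef fun h1 => hhe h1.symm
      have hTwh : ¬ G.IsTw h := by
        rintro ⟨w, t'⟩
        have hw := c.part_O hhO t'
        rw [hEq, mem_insert, mem_insert, mem_singleton] at hw
        rcases hw with rfl | rfl | rfl
        · exact hhf ((stTwHL_5 G).uniq c.g.n9 _ _ _ (tw_symm76 t') t)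
        · exact hhe ((stTwHL_5 G).uniq c.g.n9 _ _ _ (tw_symm76 t') (tw_symm76 t))
        · exact G.irr _ t'.1
      have hHub : G.Hub h := ⟨noL h hhO, hTwh⟩
      have hye : G.Low y ∧ e ∈ G.nb y := by
        rcases cov e he with ⟨u, hu, ul, h1⟩ | ⟨v, w, t', hv, hw, k1, k2⟩
        · have e1 : u = y := lowT u hu ul
          rw [e1] at ul h1
          exact ⟨ul, h1⟩
        · exfalso
          rw [hEq, mem_insert, mem_insert, mem_singleton] at hv
          rcases hv with rfl | rfl | rfl
          · exact G.irr _ k1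
          · have : w = e := (stTwHL_5 G).uniq c.g.n9 _ _ _ t' (tw_symm76 t)
            rw [this] at k2
            exact G.irr _ k2
          · exact hTwh ⟨w, t'⟩
      have nt := c.NT_ge hyT hye.1 he (Or.inl hye.2)
      have TH0 : TH.card = 0 := by
        rw [card_eq_zero, hTH, filter_eq_empty_iff]
        intro x hx hxh
        rw [hTy, mem_insert, mem_singleton] at hx
        rcases hx with rfl | rfl
        · exact hxh.2 c.symm.isTw
        · exact hxh.1 hye.1
      have hNH := c.NH_le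
      rw [hTH] at TH0
      have hH1 : ((G.nb q ∩ G.Co B).filter fun x => G.Hub x ∧ (G.I Fa x).card ≤ 1) ⊆
          ({h} : Finset V).filter fun x => (G.I Fa x).card ≤ 1 := by
        intro x hx
        rw [mem_filter] at hx
        have hx1 := hx.1
        rw [hEq, mem_insert, mem_insert, mem_singleton] at hx1
        rcases hx1 with rfl | rfl | rfl
        · exact absurd ⟨_, t⟩ hx.2.1.2
        · exact absurd ⟨_, tw_symm76 t⟩ hx.2.1.2
        · rw [mem_filter]
          exact ⟨mem_singleton_self _, hx.2.2⟩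
      have hH2 := card_le_card hH1
      by_cases kh : (G.I Fa h).card ≤ 1
      · right
        have h1 : (({h} : Finset V).filter fun x => (G.I Fa x).card ≤ 1).card ≤ 1 := by
          refine le_trans (card_filter_le _ _) ?_
          rw [card_singleton]
        refine ⟨by omega, Or.inr ⟨y, e, f, h, c.qR, c.t, c.I, hTy, hye.1, hEq, t, hHub, kh,
          hye.2⟩⟩
      · left
        have h1 : (({h} : Finset V).filter fun x => (G.I Fa x).card ≤ 1).card = 0 := by
          rw [card_eq_zero, filter_eq_empty_iff]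
          intro x hx
          rw [mem_singleton.1 hx]
          exact kh
        omega

end Q1

end M38

end CG

end Pool.Agent.Lib.MP_e95c01_co.N
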