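import Pool.Agent.Lib.MP_e95c01_co.X.C6b_53

/-!
# M4: low vertices in one neighbourhood, general facts and four or more outer neighbours
-/

namespace Pool.Agent.Lib.MP_e95c01_co.N

open Finset

variable {V : Type} [Fintype V] [DecidableEq V]

namespace CG

variable {G : CG V} {Fa : Finset (Finset V)}

/-- a vertex whose neighbours are in `R` or in `B` -/
theorem I_sub53 (hr : G.Reg Fa) {B : Finset V} (hB : B ∈ Fa) {z : V}
    (h : ∀ u ∈ G.nb z, u ∈ R Fa ∨ u ∈ B) : G.I Fa z ⊆ {B} := by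
  intro C hC
  obtain ⟨hC1, hC2⟩ := mem_I76.1 hC
  obtain ⟨-, u, hu, hzu⟩ := mem_N76.1 hC2
  rw [mem_singleton]
  by_contra hne
  rcases h u (G.sym _ _ hzu) with h1 | h1
  · exact mem_R76.1 h1 C hC1 hu
  · exact disjoint_left.1 (hr.dis C hC1 B hB hne).1 hu h1

namespace L1

variable {B : Finset V} {l : V}

theorem hB_m53 (h : G.L1 Fa B l) : B ∈ Fa := (mem_I_L1_53 h.I1).1

theorem lN_m53 (h : G.L1 Fa B l) : l ∈ G.N B := (mem_I_L1_53 h.I1).2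

theorem visT_m53 (h : G.L1 Fa B l) {u : V} (hu : u ∈ G.pT B l) : u ∈ G.nR Fa l := by
  obtain ⟨h1, h2⟩ := mem_inter.1 hu
  refine mem_nR76.2 ⟨h1, mem_R76.2 fun C hC huC => ?_⟩
  have h3 : C ∈ G.I Fa l := I_of_nb76 h.lR hC h1 huC
  rw [h.I1, mem_singleton] at h3
  subst h3
  exact (mem_N76.1 h2).1 huC

theorem visO_m53 (h : G.L1 Fa B l) {u : V} (hu : u ∈ G.pO B l) : u ∈ G.nR Fa l := by
  obtain ⟨h1, h2⟩ := mem_inter.1 hu
  refine mem_nR76.2 ⟨h1, mem_R76.2 fun C hC huC => ?_⟩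
  have h3 : C ∈ G.I Fa l := I_of_nb76 h.lR hC h1 huC
  rw [h.I1, mem_singleton] at h3
  subst h3
  exact (mem_Co76.1 h2).1 huC

theorem vis_m53 (h : G.L1 Fa B l) {u : V} (hu : u ∈ G.nR Fa l) : u ∈ G.pT B l ∨ u ∈ G.pO B l := by
  obtain ⟨h1, h2⟩ := mem_nR76.1 hu
  by_cases h3 : u ∈ G.N B
  · exact Or.inl (mem_inter.2 ⟨h1, h3⟩)
  · exact Or.inr (mem_inter.2 ⟨h1, mem_Co76.2 ⟨mem_R76.1 h2 B h.hB_m53, h3⟩⟩)

theorem m0_m53 (h : G.L1 Fa B l) {u : V} (hu : u ∈ G.pO B l) : G.m Fa l u = 0 := by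
  rw [m, h.I1, card_eq_zero, eq_empty_iff_forall_notMem]
  intro C hC
  rw [mem_inter, mem_singleton] at hC
  obtain ⟨rfl, h2⟩ := hC
  exact (mem_Co76.1 (mem_inter.1 hu).2).2 (mem_I76.1 h2).2

theorem mT_m53 (h : G.L1 Fa B l) {u : V} (hu : u ∈ G.pT B l) : G.m Fa u l ≠ 0 := by
  have h1 : B ∈ G.I Fa u ∩ G.I Fa l := by
    rw [mem_inter, h.I1]
    exact ⟨mem_I_pT53 h.hB_m53 hu, mem_singleton_self _⟩
  rw [m]
  exact (card_pos.2 ⟨B, h1⟩).ne'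

theorem TO_m53 (h : G.L1 Fa B l) {u : V} (h1 : u ∈ G.pT B l) (h2 : u ∈ G.pO B l) : False :=
  h.mT_m53 h1 (by rw [m_comm76]; exact h.m0_m53 h2)

/-- a pair of twins with a vertex in `T` -/
theorem pairT_m53 (hr : G.Reg Fa) (h : G.L1 Fa B l) {v w : V} (ht : G.Tw v w)
    (hv : v ∈ G.pT B l) : w ∈ G.pT B l ∧
      ((v ∈ G.NF Fa l ∧ w ∈ G.NF Fa l) ∨ (v ∈ G.NP Fa l ∧ w ∈ G.NP Fa l)) := by
  have hvR := (mem_nR76.1 (h.visT_m53 hv)).2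
  obtain ⟨hwR, hwI⟩ := q_I76 (qs16 G) hr hvR ht
  have hlw : l ≠ w := fun e => tw_not_low11 (tw_of76' ht) (e ▸ h.low)
  have hwl : w ∈ G.nb l := G.sym _ _ (Tw_nb5 ht (G.sym _ _ (mem_inter.1 hv).1) hlw)
  have hBw : B ∈ G.I Fa w := hwI ▸ mem_I_pT53 h.hB_m53 hv
  have hwT : w ∈ G.pT B l := mem_inter.2 ⟨hwl, (mem_I76.1 hBw).2⟩
  refine ⟨hwT, ?_⟩
  by_cases hk : 2 ≤ (G.I Fa v).card
  · left
    exact ⟨mem_NF53.2 ⟨h.visT_m53 hv, Or.inr (Or.inl hk)⟩,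
      mem_NF53.2 ⟨h.visT_m53 hwT, Or.inr (Or.inl (hwI ▸ hk))⟩⟩
  · right
    exact ⟨mem_NP53.2 ⟨h.visT_m53 hv, tw_of76 ht, by omega, h.mT_m53 hv⟩,
      mem_NP53.2 ⟨h.visT_m53 hwT, tw_of76' ht, by rw [hwI]; omega, h.mT_m53 hwT⟩⟩

/-- the partner of a twin vertex of `O` -/
theorem pairO_m53 (hr : G.Reg Fa) (h : G.L1 Fa B l) {v w : V} (ht : G.Tw v w)
    (hv : v ∈ G.pO B l) : w ∈ G.pO B l := by
  have hvR := (mem_nR76.1 (h.visO_m53 hv)).2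
  obtain ⟨hwR, hwI⟩ := q_I76 (qs16 G) hr hvR ht
  have hlw : l ≠ w := fun e => tw_not_low11 (tw_of76' ht) (e ▸ h.low)
  have hwl : w ∈ G.nb l := G.sym _ _ (Tw_nb5 ht (G.sym _ _ (mem_inter.1 hv).1) hlw)
  rcases h.vis_m53 (mem_nR76.2 ⟨hwl, hwR⟩) with h1 | h1
  · exact (h.TO_m53 (h.pairT_m53 hr (tw_symm76 ht) h1).1 hv).elim
  · exact h1

/-- covers of `l x`, `x` in `O`, not low -/
theorem cover_m53 (hG : G.Gen5 Fa) (h : G.L1 Fa B l) {x : V} (hx : x ∈ G.pO B l)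
    (hxl : ¬ G.Low x) : (∃ w ∈ G.NF Fa l, G.Low w ∧ x ∈ G.nb w) ∨
    (∃ v w, G.Tw v w ∧ v ∈ G.pT B l ∧ w ∈ G.pT B l ∧ v ∈ G.nb x ∧ w ∈ G.nb x) ∨
    (∃ v w, G.Tw v w ∧ v ∈ G.pO B l ∧ w ∈ G.pO B l ∧ v ∈ G.nb x ∧ w ∈ G.nb x) ∨
    (∃ a ∈ G.NF Fa l, ∃ b ∈ R Fa, G.HL a b l ∧ x ∈ G.nb b ∧ x ∈ G.nb a ∧ x ≠ a) ∨
    (∃ a ∈ G.NF Fa l, ∃ b ∈ R Fa, G.LL a b l x) := by
  rcases cov_lh86 hG h.lR (h.visO_m53 hx) (h.m0_m53 hx) hxl with
    (⟨w, h1, h2, h3⟩ | ⟨v, w, h1, h2, h3, h4, h5⟩) | ⟨a, b, h1, h2, h3, h4, h5, h6⟩ |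
    ⟨a, b, h1, h2, h3, h4⟩
  · exact Or.inl ⟨w, mem_NF53.2 ⟨h1, Or.inl h3⟩, h3, G.sym _ _ (mem_nR76.1 h2).1⟩
  · right
    rcases h.vis_m53 h1 with h6 | h6
    · exact Or.inl ⟨v, w, h5, h6, (h.pairT_m53 hG.reg h5 h6).1, (mem_nR76.1 h3).1,
        (mem_nR76.1 h4).1⟩
    · exact Or.inr (Or.inl ⟨v, w, h5, h6, h.pairO_m53 hG.reg h5 h6, (mem_nR76.1 h3).1,
        (mem_nR76.1 h4).1⟩)
  · exact Or.inr (Or.inr (Or.inr (Or.inl ⟨a, mem_NF53.2 ⟨h1, Or.inr (Or.inr ⟨b, h3⟩)⟩, b, h2,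
      h3, h4, h5, h6⟩)))
  · exact Or.inr (Or.inr (Or.inr (Or.inr ⟨a, mem_NF53.2 ⟨h1, Or.inl h4.1⟩, b, h2, h4⟩)))

/-- the numbers -/
theorem num_m53 (hG : G.Gen5 Fa) (h : G.L1 Fa B l) :
    1 ≤ (G.pX B l).card ∧ 2 ≤ (G.pO B l).card ∧
      (G.pX B l).card + (G.pT B l).card + (G.pO B l).card = 6 ∧
      G.ch5 Fa l = 2 * ((G.pO B l).card : ℤ) + 2 * ((G.NF Fa l).card : ℤ) +
        ((G.NP Fa l).card : ℤ) - 8 + (G.flv (G.Co B) l - G.flv B l) := by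
  have h1 := dg16 G B l
  have h2 : (G.nb l).card = 6 := h.low
  have h3 : 2 ≤ (G.pO B l).card := e1_86 hG h.lR h.I1
  have h4 := (G.stCh5_28).low1 hG.n9 Fa hG.reg l h.lR h.low B h.I1
  rw [K28.fg_single h.I1] at h4
  exact ⟨d_pos76 h.lN_m53, h3, by omega, h4⟩

/-- flags seen from `B`, `r ≥ 2` -/
theorem flB_m53 (hG : G.Gen5 Fa) (h : G.L1 Fa B l) : G.flv B l =
    G.s5 B l - 2 * (open Classical in if G.T3 B l then 1 else 0) := by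
  classical
  obtain ⟨-, h2, -, -⟩ := h.num_m53 hG
  have h3 : ¬ G.U3 B l := fun e => by
    have := (U3_type16 e).2.2.2
    omega
  have h4 : ¬ G.HF B l := fun e => by
    have := (HF_type16 e).2.2.2
    omega
  rw [flv_low16 h.low, if_neg h3, if_neg h4]
  ring

/-- flags seen from `Co B` -/
theorem flC_m53 (h : G.L1 Fa B l) : G.flv (G.Co B) l =
    G.s5 (G.Co B) l + 2 * (open Classical in if G.U3 (G.Co B) l then 1 else 0) -
      2 * (open Classical in if G.T3 (G.Co B) l then 1 else 0) -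
      2 * (open Classical in if G.HF (G.Co B) l then 1 else 0) := flv_low16 h.low

theorem s5B_m53 (h3 : (G.pO B l).card ≠ 3) : G.s5 B l = 0 := by
  by_contra hc
  obtain ⟨v, hv⟩ := s5_type16 hc
  exact h3 (S0_type16 hv).2.2.2.2

theorem s5C_m53 (h2 : (G.pO B l).card ≠ 2) : G.s5 (G.Co B) l = 0 := by
  by_contra hc
  obtain ⟨v, hv⟩ := s5_type16 hc
  exact h2 (S0_type16 hv).2.2.1

theorem T3B_m53 (h2 : (G.pO B l).card ≠ 2) : ¬ G.T3 B l := fun e => h2 (T3_type16 e).2.2.2.2.1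

theorem T3C_m53 (h2 : (G.pO B l).card ≠ 2) : ¬ G.T3 (G.Co B) l := fun e => h2 (T3_type16 e).2.1

theorem U3C_m53 (h2 : (G.pO B l).card ≠ 3) : ¬ G.U3 (G.Co B) l := fun e => h2 (U3_type16 e).2.1

theorem HFC_m53 (h2 : (G.pO B l).card ≠ 4) : ¬ G.HF (G.Co B) l := fun e => h2 (HF_type16 e).2.1

/-- at least four outer neighbours -/
theorem r4_m53 (hG : G.Gen5 Fa) (h : G.L1 Fa B l) (hr : 4 ≤ (G.pO B l).card) :
    0 ≤ G.ch5 Fa l := by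
  classical
  obtain ⟨-, -, -, h4⟩ := h.num_m53 hG
  have h2 : (G.pO B l).card ≠ 2 := by omega
  have h3 : (G.pO B l).card ≠ 3 := by omega
  rw [h.flB_m53 hG, h.flC_m53, s5B_m53 h3, s5C_m53 h2, if_neg (T3B_m53 h2), if_neg (T3C_m53 h2), if_neg (U3C_m53 h3)] at h4
  have h5 : (4 : ℤ) ≤ ((G.pO B l).card : ℤ) := by exact_mod_cast hr
  have h6 : (0 : ℤ) ≤ ((G.NP Fa l).card : ℤ) := by positivity
  by_cases h7 : G.HF (G.Co B) l
  · rw [if_pos h7] at h4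
    obtain ⟨-, -, -, a, b, h8, -, -, h9⟩ := h7
    rw [pT_co16 (hG.reg.frag B h.hB_m53)] at h9
    have h10 : a ∈ G.NF Fa l := mem_NF53.2 ⟨h.visT_m53 (h9.symm ▸ mem_singleton_self a),
      Or.inr (Or.inr ⟨b, h8⟩)⟩
    have h11 : 0 < (G.NF Fa l).card := card_pos.2 ⟨a, h10⟩
    have h12 : (1 : ℤ) ≤ ((G.NF Fa l).card : ℤ) := by exact_mod_cast h11
    linarith
  · rw [if_neg h7] at h4
    have h12 : (0 : ℤ) ≤ ((G.NF Fa l).card : ℤ) := by positivity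
    linarith

/-- a vertex of `NP` comes with its partner -/
theorem NP2_m53 (hr : G.Reg Fa) (h : G.L1 Fa B l) (hne : (G.NP Fa l).card ≤ 1) :
    G.NP Fa l = ∅ := by
  rw [eq_empty_iff_forall_notMem]
  intro v hv
  obtain ⟨h1, ⟨w, h2⟩, h3, h4⟩ := mem_NP53.1 hv
  have h5 : v ∈ G.pT B l := by
    rcases h.vis_m53 h1 with h5 | h5
    · exact h5
    · exact absurd (by rw [m_comm76]; exact h.m0_m53 h5) h4
  rcases (h.pairT_m53 hr h2 h5).2 with h6 | h6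
  · rcases (mem_NF53.1 h6.1).2 with h7 | h7 | ⟨b, h7⟩
    · exact tw_not_low11 (tw_of76 h2) h7
    · omega
    · have h8 : ({v, w} : Finset V) ⊆ G.NP Fa l := by
        intro u hu
        rw [mem_insert, mem_singleton] at hu
        rcases hu with rfl | rfl
        · exact hv
        · have h9 := q_I76 (qs16 G) hr (mem_nR76.1 h1).2 h2
          have h10 := (h.pairT_m53 hr h2 h5).1
          exact mem_NP53.2 ⟨h.visT_m53 h10, tw_of76' h2, by rw [h9.2]; exact h3, h.mT_m53 h10⟩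
      have h9 := card_le_card h8
      rw [card_pair (ne_of_nb5 h2.1)] at h9
      omega
  · have h8 : ({v, w} : Finset V) ⊆ G.NP Fa l := by
      intro u hu
      rw [mem_insert, mem_singleton] at hu
      rcases hu with rfl | rfl
      exacts [h6.1, h6.2]
    have h9 := card_le_card h8
    rw [card_pair (ne_of_nb5 h2.1)] at h9
    omega

/-- two pairs of twins among three vertices -/
theorem three_m53 {S : Finset V} (n9 : 9 ≤ Fintype.card V) (hS : S.card ≤ 3) {v w v' w' : V}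
    (h1 : G.Tw v w) (h2 : G.Tw v' w') (a1 : v ∈ S) (a2 : w ∈ S) (a3 : v' ∈ S) (a4 : w' ∈ S) :
    (v' = v ∧ w' = w) ∨ (v' = w ∧ w' = v) := by
  have hvw := ne_of_nb5 h1.1
  have hvw' := ne_of_nb5 h2.1
  by_cases e1 : v' = v
  · exact Or.inl ⟨e1, (stTwHL_5 G).uniq n9 _ _ _ (e1 ▸ h2) h1⟩
  by_cases e2 : v' = w
  · exact Or.inr ⟨e2, (stTwHL_5 G).uniq n9 _ _ _ (e2 ▸ h2) (tw_symm76 h1)⟩
  by_cases e3 : w' = v
  · exact absurd ((stTwHL_5 G).uniq n9 _ _ _ (tw_symm76 (e3 ▸ h2)) h1) e2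
  by_cases e4 : w' = w
  · exact absurd ((stTwHL_5 G).uniq n9 _ _ _ (tw_symm76 (e4 ▸ h2)) (tw_symm76 h1)) e1
  exfalso
  have h3 : [v, w, v', w'].toFinset.card = 4 := by
    rw [List.toFinset_card_of_nodup]
    · rfl
    · simp [hvw, hvw', Ne.symm e1, Ne.symm e2, Ne.symm e3, Ne.symm e4]
  have h4 : [v, w, v', w'].toFinset ⊆ S := by
    intro u hu
    simp only [List.mem_toFinset, List.mem_cons, List.not_mem_nil, or_false] at hu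
    rcases hu with rfl | rfl | rfl | rfl
    exacts [a1, a2, a3, a4]
  have h5 := card_le_card h4
  omega

end L1

end CG

end Pool.Agent.Lib.MP_e95c01_co.N
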