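import Pool.Agent.Lib.MP_e95c01_co.X.M4a_53

/-!
# M4: low vertices in one neighbourhood, three outer neighbours
-/

namespace Pool.Agent.Lib.MP_e95c01_co.N

open Finset

variable {V : Type} [Fintype V] [DecidableEq V]

namespace CG

variable {G : CG V} {Fa : Finset (Finset V)}

namespace L1

variable {B : Finset V} {l : V}

/-- three outer neighbours, no `S0` -/
theorem r3a_m53 (hG : G.Gen5 Fa) (h : G.L1 Fa B l) (hr : (G.pO B l).card = 3)
    (hs : G.s5 B l = 0) : 0 ≤ G.ch5 Fa l := by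
  classical
  by_contra hc
  have hc : G.ch5 Fa l < 0 := lt_of_not_ge hc
  obtain ⟨-, -, -, h4⟩ := h.num_m53 hG
  have h2 : (G.pO B l).card ≠ 2 := by omega
  have h4' : (G.pO B l).card ≠ 4 := by omega
  rw [h.flB_m53 hG, h.flC_m53, hs, s5C_m53 h2, if_neg (T3B_m53 h2), if_neg (T3C_m53 h2), if_neg (HFC_m53 h4'), hr] at h4
  have h5 : (0 : ℤ) ≤ (if G.U3 (G.Co B) l then (1 : ℤ) else 0) := by split_ifs <;> norm_num
  have h6 : (0 : ℤ) ≤ ((G.NP Fa l).card : ℤ) := by positivity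
  have h7 : (0 : ℤ) ≤ ((G.NF Fa l).card : ℤ) := by positivity
  push_cast at h4
  have hNF : G.NF Fa l = ∅ := by
    rw [← card_eq_zero]
    have : ((G.NF Fa l).card : ℤ) < 1 := by linarith
    have : (G.NF Fa l).card < 1 := by exact_mod_cast this
    omega
  have hNP : G.NP Fa l = ∅ := by
    refine h.NP2_m53 hG.reg ?_
    have : ((G.NP Fa l).card : ℤ) < 2 := by linarith
    have : (G.NP Fa l).card < 2 := by exact_mod_cast this
    omega
  have hnl : ∀ {o : V}, o ∈ G.pO B l → ¬ G.Low o := fun {o} ho hol => by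
    have : o ∈ G.NF Fa l := mem_NF53.2 ⟨h.visO_m53 ho, Or.inl hol⟩
    rw [hNF] at this
    exact absurd this (notMem_empty _)
  have cov : ∀ {o : V}, o ∈ G.pO B l → ∃ v w, G.Tw v w ∧ v ∈ G.pO B l ∧ w ∈ G.pO B l ∧
      v ∈ G.nb o ∧ w ∈ G.nb o := by
    intro o ho
    rcases h.cover_m53 hG ho (hnl ho) with ⟨w, hw, -⟩ | ⟨v, w, h8, h9, -⟩ | h8 | ⟨a, ha, -⟩ |
      ⟨a, ha, -⟩
    · rw [hNF] at hw
      exact absurd hw (notMem_empty _)
    · rcases (h.pairT_m53 hG.reg h8 h9).2 with h10 | h10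
      · have h11 := h10.1
        rw [hNF] at h11
        exact absurd h11 (notMem_empty _)
      · have h11 := h10.1
        rw [hNP] at h11
        exact absurd h11 (notMem_empty _)
    · exact h8
    · rw [hNF] at ha
      exact absurd ha (notMem_empty _)
    · rw [hNF] at ha
      exact absurd ha (notMem_empty _)
  obtain ⟨o, ho⟩ := card_pos.1 (show 0 < (G.pO B l).card by omega)
  obtain ⟨v, w, k1, k2, k3, -, -⟩ := cov ho
  obtain ⟨v', w', m1, m2, m3, m4, m5⟩ := cov k2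
  rcases three_m53 hG.n9 hr.le k1 m1 k2 k3 m2 m3 with ⟨e, -⟩ | ⟨-, e⟩
  · exact G.irr v (e ▸ m4)
  · exact G.irr v (e ▸ m5)

/-- three hubs in `O`, `S0` -/
theorem r3b_m53 (hG : G.Gen5 Fa) (h : G.L1 Fa B l) (hr : (G.pO B l).card = 3) {v : V}
    (hs : G.S0 B l v) (hNF : G.NF Fa l = {v}) (hh : ∀ y ∈ G.pO B l, G.Hub y) : False := by
  obtain ⟨-, -, hvl, hT, ⟨Q, Q', hQ, hX, hQv⟩, -⟩ := hs
  have hvT : v ∈ G.pT B l := hT.symm ▸ mem_singleton_self v
  have hvn := h.visT_m53 hvT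
  obtain ⟨hvnb, hvR⟩ := mem_nR76.1 hvn
  have hQl : Q ∈ G.pX B l := hX.symm ▸ mem_insert_self _ _
  have hQl' : Q' ∈ G.pX B l := hX.symm ▸ mem_insert_of_mem (mem_singleton_self _)
  obtain ⟨q1, q2⟩ := mem_inter.1 hQl
  obtain ⟨q3, q4⟩ := mem_inter.1 hQl'
  have hvQ' : v ≠ Q' := fun e => tw_not_low11 (tw_of76' hQ) (e ▸ hvl)
  have hQv' : Q' ∈ G.nb v := G.sym _ _ (Tw_nb5 hQ (G.sym _ _ hQv) hvQ')
  have hlv : l ∈ G.nb v := G.sym _ _ hvnb
  have hl6 : (G.nb l).card = 6 := h.low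
  have hv6 : (G.nb v).card = 6 := hvl
  have hQQ := ne_of_nb5 hQ.1
  -- covers
  have cov : ∀ {y : V}, y ∈ G.pO B l → y ∉ G.nb v → ∃ b ∈ R Fa, G.LL v b l y := by
    intro y hy hyv
    rcases h.cover_m53 hG hy (hh y hy).1 with ⟨w, hw, -, h1⟩ | ⟨w, w', h1, h2, -⟩ |
      ⟨w, w', h1, h2, -⟩ | ⟨a, ha, b, -, h1, -⟩ | ⟨a, ha, b, h1, h2⟩
    · rw [hNF, mem_singleton] at hw
      exact absurd (hw ▸ h1) hyv
    · rw [hT, mem_singleton] at h2
      exact absurd (tw_of76 h1) (fun e => tw_not_low11 (h2 ▸ e) hvl)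
    · exact absurd (tw_of76 h1) (hh w h2).2
    · rw [hNF, mem_singleton] at ha
      exact absurd hvl (ha ▸ HL_not_low76 h1)
    · rw [hNF, mem_singleton] at ha
      exact ⟨b, h1, ha ▸ h2⟩
  -- facts about `b`
  have bf : ∀ {y b : V}, y ∈ G.pO B l → b ∈ R Fa → G.LL v b l y → b ∈ G.nb v ∧ G.Low b ∧
      b ∈ G.N B ∧ b ≠ l := by
    intro y b hy hb hLL
    refine ⟨LL_ab76 hLL, hLL.2.1, ?_, fun e => (LL_tb76 hLL).2 e.symm⟩
    have h1 : Q ≠ l := (ne_of_nb5 q1).symm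
    rcases LL_to76 hLL hQv h1 with e | e
    · exact absurd q2 (e ▸ mem_R76.1 hb B h.hB_m53)
    · exact mem_N76.2 ⟨mem_R76.1 hb B h.hB_m53, Q, q2, G.sym _ _ e⟩
  -- a vertex of `O` that is not adjacent to `v`
  obtain ⟨y3, hy3, hy3v⟩ : ∃ y ∈ G.pO B l, y ∉ G.nb v := by
    by_contra hc
    have hc' : ∀ y ∈ G.pO B l, y ∈ G.nb v := fun y hy => by
      by_contra h1
      exact hc ⟨y, hy, h1⟩
    have h1 := ll_le86 hG.n9 h.low hvl hvnb
    have h2 : insert Q (insert Q' (G.pO B l)) ⊆ G.nb l ∩ G.nb v := by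
      intro u hu
      rw [mem_insert, mem_insert] at hu
      rcases hu with rfl | rfl | hu
      · exact mem_inter.2 ⟨q1, hQv⟩
      · exact mem_inter.2 ⟨q3, hQv'⟩
      · exact mem_inter.2 ⟨(mem_inter.1 hu).1, hc' u hu⟩
    have h3 := card_le_card h2
    rw [card_insert_of_notMem, card_insert_of_notMem, hr] at h3
    · omega
    · intro e
      exact (mem_Co76.1 (mem_inter.1 e).2).1 q4
    · rw [mem_insert]
      rintro (e | e)
      · exact hQQ e
      · exact (mem_Co76.1 (mem_inter.1 e).2).1 q2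
  obtain ⟨b, hbR, hLL⟩ := cov hy3 hy3v
  obtain ⟨hbv, hbl, hbN, hbl'⟩ := bf hy3 hbR hLL
  -- the two other vertices
  have hc2 : ((G.pO B l).erase y3).card = 2 := by
    rw [card_erase_of_mem hy3, hr]
  obtain ⟨y1, y2, hy12, he⟩ := card_eq_two.1 hc2
  have hy1e : y1 ∈ (G.pO B l).erase y3 := he.symm ▸ mem_insert_self _ _
  have hy2e : y2 ∈ (G.pO B l).erase y3 := he.symm ▸ mem_insert_of_mem (mem_singleton_self _)
  obtain ⟨h13, hy1⟩ := mem_erase.1 hy1e
  obtain ⟨h23, hy2⟩ := mem_erase.1 hy2e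
  have hOO : ∀ {u : V}, u ∈ G.pO B l → u = y1 ∨ u = y2 ∨ u = y3 := by
    intro u hu
    by_cases e : u = y3
    · exact Or.inr (Or.inr e)
    · have : u ∈ (G.pO B l).erase y3 := mem_erase.2 ⟨e, hu⟩
      rw [he, mem_insert, mem_singleton] at this
      exact this.elim Or.inl fun e => Or.inr (Or.inl e)
  -- the images
  have img : ∀ {y : V}, y ∈ G.pO B l → y ≠ y3 → ∃ g ∈ G.nb v, g ∈ R Fa ∧ g ≠ l ∧ g ≠ b ∧
      g ≠ Q ∧ g ≠ Q' ∧ ((g = y ∧ ¬ G.Low g) ∨ (G.Low g ∧ g ∈ G.N B ∧ G.LL v g l y)) := by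
    intro y hy hne
    by_cases hyv : y ∈ G.nb v
    · refine ⟨y, hyv, (mem_nR76.1 (h.visO_m53 hy)).2, ?_, ?_, ?_, ?_, Or.inl ⟨rfl, (hh y hy).1⟩⟩
      · rintro rfl
        exact G.irr _ (mem_inter.1 hy).1
      · rintro rfl
        exact (hh _ hy).1 hbl
      · rintro rfl
        exact (mem_Co76.1 (mem_inter.1 hy).2).1 q2
      · rintro rfl
        exact (mem_Co76.1 (mem_inter.1 hy).2).1 q4
    · obtain ⟨g, hgR, hg⟩ := cov hy hyv
      obtain ⟨g1, g2, g3, g4⟩ := bf hy hgR hg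
      refine ⟨g, g1, hgR, g4, ?_, ?_, ?_, Or.inr ⟨g2, g3, hg⟩⟩
      · intro e
        have e1 := hg
        rw [e] at e1
        have e2 : insert y (G.cl v) = insert y3 (G.cl v) :=
          e1.2.2.2.2.2.2.trans hLL.2.2.2.2.2.2.symm
        have e3 : y ∈ insert y3 (G.cl v) := e2 ▸ mem_insert_self _ _
        rcases mem_insert.1 e3 with e4 | e4
        · exact hne e4
        · exact e1.2.2.2.2.2.1 e4
      · intro e
        exact mem_R76.1 (e ▸ hgR) B h.hB_m53 q2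
      · intro e
        exact mem_R76.1 (e ▸ hgR) B h.hB_m53 q4
  obtain ⟨g1, a1, a2, a3, a4, a5, a6, a7⟩ := img hy1 h13
  obtain ⟨g2, b1, b2, b3, b4, b5, b6, b7⟩ := img hy2 h23
  have hg12 : g1 ≠ g2 := by
    intro e
    rcases a7 with ⟨c1, c2⟩ | ⟨c1, c2, c3⟩
    · rcases b7 with ⟨d1, d2⟩ | ⟨d1, d2, d3⟩
      · exact hy12 (c1.symm.trans (e.trans d1))
      · exact c2 (e ▸ d1)
    · rcases b7 with ⟨d1, d2⟩ | ⟨d1, d2, d3⟩
      · exact d2 (e ▸ c1)
      · rw [← e] at d3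
        have e2 : insert y1 (G.cl v) = insert y2 (G.cl v) :=
          c3.2.2.2.2.2.2.trans d3.2.2.2.2.2.2.symm
        have e3 : y1 ∈ insert y2 (G.cl v) := e2 ▸ mem_insert_self _ _
        rcases mem_insert.1 e3 with e4 | e4
        · exact hy12 e4
        · exact c3.2.2.2.2.2.1 e4
  have hlb : l ≠ b := fun e => hbl' e.symm
  have hQR : Q ∉ R Fa := fun e => mem_R76.1 e B h.hB_m53 q2
  have hQR' : Q' ∉ R Fa := fun e => mem_R76.1 e B h.hB_m53 q4
  have hnv : G.nb v = {l, b, Q, Q', g1, g2} := by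
    symm
    refine eq_of_subset_of_card_le ?_ ?_
    · intro u hu
      simp only [mem_insert, mem_singleton] at hu
      rcases hu with rfl | rfl | rfl | rfl | rfl | rfl
      exacts [hlv, hbv, hQv, hQv', a1, b1]
    · have h1 : [l, b, Q, Q', g1, g2].toFinset.card = 6 := by
        rw [List.toFinset_card_of_nodup]
        · rfl
        · have c1 : l ≠ Q := ne_of_nb5 q1
          have c2 : l ≠ Q' := ne_of_nb5 q3
          have c3 : b ≠ Q := fun e => hQR (e ▸ hbR)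
          have c4 : b ≠ Q' := fun e => hQR' (e ▸ hbR)
          simp [hlb, c1, c2, c3, c4, hQQ, a3.symm, b3.symm, a4.symm, b4.symm, a5.symm, b5.symm,
            a6.symm, b6.symm, hg12]
      rw [hv6]
      have h2 : [l, b, Q, Q', g1, g2].toFinset = ({l, b, Q, Q', g1, g2} : Finset V) := by
        ext u
        simp
      rw [← h2, h1]
  have hIv : G.I Fa v = {B} := by
    have h1 : G.I Fa v ⊆ {B} := by
      refine I_sub53 hG.reg h.hB_m53 fun u hu => ?_
      rw [hnv] at hu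
      simp only [mem_insert, mem_singleton] at hu
      rcases hu with rfl | rfl | rfl | rfl | rfl | rfl
      exacts [Or.inl h.lR, Or.inl hbR, Or.inr q2, Or.inr q4, Or.inl a2, Or.inl b2]
    exact (subset_singleton_iff.1 h1).resolve_left fun e =>
      absurd (mem_I_pT53 h.hB_m53 hvT) (e ▸ notMem_empty _)
  have hIb : G.I Fa b = {B} := by
    rw [← hIv]
    exact (LL_I76 (Fa := Fa) hLL hvR hbR h.lR (mem_nR76.1 (h.visO_m53 hy3)).2).symm
  have hvN : v ∈ G.N B := (mem_inter.1 hvT).2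
  have h1 := e3_86 hG (ne_of_nb5 hvnb) hlb (ne_of_nb5 hbv) h.lR hvR hbR h.I1 hIv hIb
  have hvO : ∀ {u : V}, u ∈ G.nb v → u ∈ G.Co B → u ∈ G.pO B l := by
    intro u hu huC
    have key : ∀ {g y : V}, y ∈ G.pO B l → ((g = y ∧ ¬ G.Low g) ∨ (G.Low g ∧ g ∈ G.N B ∧
        G.LL v g l y)) → u = g → u ∈ G.pO B l := by
      rintro g y hy (⟨e1, -⟩ | ⟨-, e1, -⟩) rfl
      · exact e1 ▸ hy
      · exact absurd e1 (mem_Co76.1 huC).2
    rw [hnv] at hu
    simp only [mem_insert, mem_singleton] at hu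
    rcases hu with rfl | rfl | rfl | rfl | hu | hu
    · exact absurd h.lN_m53 (mem_Co76.1 huC).2
    · exact absurd hbN (mem_Co76.1 huC).2
    · exact absurd q2 (mem_Co76.1 huC).1
    · exact absurd q4 (mem_Co76.1 huC).1
    · exact key hy1 a7 hu
    · exact key hy2 b7 hu
  have h2 : (G.nb l ∪ G.nb v ∪ G.nb b) ∩ G.Co B ⊆ G.pO B l := by
    intro u hu
    rw [mem_inter, mem_union, mem_union] at hu
    obtain ⟨hu, huC⟩ := hu
    rcases hu with (hu | hu) | hu
    · exact mem_inter.2 ⟨hu, huC⟩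
    · exact hvO hu huC
    · by_cases e : u = y3
      · exact e ▸ hy3
      · rcases LL_from76 hLL hu e with e1 | e1
        · exact absurd hvN (e1 ▸ (mem_Co76.1 huC).2)
        · exact hvO e1 huC
  have h3 := card_le_card h2
  omega

/-- three outer neighbours -/
theorem r3_m53 (hG : G.Gen5 Fa) (h : G.L1 Fa B l) (hr : (G.pO B l).card = 3)
    (hc : G.ch5 Fa l < 0) : ∃ v q p y, G.S0s Fa B l v q p y := by
  classical
  have n9 := hG.n9
  have hs : G.s5 B l ≠ 0 := fun e => by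
    have := h.r3a_m53 hG hr e
    linarith
  obtain ⟨v, hv⟩ := s5_type16 hs
  have hT : G.pT B l = {v} := hv.2.2.2.1
  have hvl : G.Low v := hv.2.2.1
  have hvT : v ∈ G.pT B l := hT.symm ▸ mem_singleton_self v
  have hvF : v ∈ G.NF Fa l := mem_NF53.2 ⟨h.visT_m53 hvT, Or.inl hvl⟩
  obtain ⟨-, -, -, h4⟩ := h.num_m53 hG
  have h2 : (G.pO B l).card ≠ 2 := by omega
  have h4' : (G.pO B l).card ≠ 4 := by omega
  rw [h.flB_m53 hG, h.flC_m53, s5C_m53 h2, if_neg (T3B_m53 h2), if_neg (T3C_m53 h2), if_neg (HFC_m53 h4'), hr] at h4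
  have h5 : (0 : ℤ) ≤ (if G.U3 (G.Co B) l then (1 : ℤ) else 0) := by split_ifs <;> norm_num
  have h6 : (0 : ℤ) ≤ ((G.NP Fa l).card : ℤ) := by positivity
  have h7 := (s5_nn16 G B l).2
  push_cast at h4
  have hNF : G.NF Fa l = {v} := by
    have h8 : (G.NF Fa l).card ≤ 1 := by
      have : ((G.NF Fa l).card : ℤ) < 2 := by linarith
      have : (G.NF Fa l).card < 2 := by exact_mod_cast this
      omega
    refine (eq_of_subset_of_card_le (singleton_subset_iff.2 hvF) ?_).symm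
    rw [card_singleton]
    exact h8
  have hOF : ∀ {o : V}, o ∈ G.pO B l → o ∉ G.NF Fa l := fun {o} ho hoF => by
    rw [hNF, mem_singleton] at hoF
    exact h.TO_m53 (hoF ▸ hvT) ho
  have hnl : ∀ {o : V}, o ∈ G.pO B l → ¬ G.Low o := fun {o} ho hol =>
    hOF ho (mem_NF53.2 ⟨h.visO_m53 ho, Or.inl hol⟩)
  have hk : ∀ {o : V}, o ∈ G.pO B l → (G.I Fa o).card ≤ 1 := fun {o} ho => by
    by_contra h8
    exact hOF ho (mem_NF53.2 ⟨h.visO_m53 ho, Or.inr (Or.inl (by omega))⟩)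
  have hHL : ∀ {o : V}, o ∈ G.pO B l → ¬ ∃ b, G.HL o b l := fun {o} ho h8 =>
    hOF ho (mem_NF53.2 ⟨h.visO_m53 ho, Or.inr (Or.inr h8)⟩)
  have hNP : G.NP Fa l = ∅ := by
    rw [eq_empty_iff_forall_notMem]
    intro u hu
    obtain ⟨h8, h9, -, h10⟩ := mem_NP53.1 hu
    rcases h.vis_m53 h8 with h11 | h11
    · rw [hT, mem_singleton] at h11
      exact tw_not_low11 h9 (h11 ▸ hvl)
    · exact h10 (by rw [m_comm76]; exact h.m0_m53 h11)
  by_cases htw : ∃ q ∈ G.pO B l, G.IsTw q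
  · obtain ⟨q, hq, p, hqp⟩ := htw
    have hp := h.pairO_m53 hG.reg hqp hq
    have hne := ne_of_nb5 hqp.1
    obtain ⟨y, hy, hyq, hyp⟩ : ∃ y ∈ G.pO B l, y ≠ q ∧ y ≠ p := by
      by_contra hc'
      have h8 : G.pO B l ⊆ {q, p} := by
        intro u hu
        by_contra h9
        rw [mem_insert, mem_singleton, not_or] at h9
        exact hc' ⟨u, hu, h9.1, h9.2⟩
      have h9 := card_le_card h8
      rw [card_pair hne, hr] at h9
      omega
    have hO : G.pO B l = {q, p, y} := by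
      symm
      refine eq_of_subset_of_card_le ?_ ?_
      · intro u hu
        simp only [mem_insert, mem_singleton] at hu
        rcases hu with rfl | rfl | rfl
        exacts [hq, hp, hy]
      · rw [hr, card_insert_of_notMem, card_pair hyp.symm]
        rw [mem_insert, mem_singleton]
        exact fun e => e.elim hne fun e => hyq e.symm
    have hyh : G.Hub y := by
      refine ⟨hnl hy, ?_⟩
      rintro ⟨y', hyy⟩
      have hy' := h.pairO_m53 hG.reg hyy hy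
      rcases three_m53 n9 hr.le hqp hyy hq hp hy hy' with ⟨e, -⟩ | ⟨e, -⟩
      · exact hyq e
      · exact hyp e
    have hvq : q ∈ G.nb v := by
      rcases h.cover_m53 hG hq (hnl hq) with ⟨w, hw, -, h8⟩ | ⟨u, w, h8, h9, -⟩ |
        ⟨u, w, h8, h9, h10, h11, h12⟩ | ⟨a, ha, b, -, h8, -⟩ | ⟨a, ha, b, -, h8⟩
      · rw [hNF, mem_singleton] at hw
        exact hw ▸ h8
      · rw [hT, mem_singleton] at h9
        exact absurd (tw_of76 h8) (fun e => tw_not_low11 (h9 ▸ e) hvl)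
      · exfalso
        rcases three_m53 n9 hr.le hqp h8 hq hp h9 h10 with ⟨e, -⟩ | ⟨-, e⟩
        · exact G.irr q (e ▸ h11)
        · exact G.irr q (e ▸ h12)
      · rw [hNF, mem_singleton] at ha
        exact absurd hvl (ha ▸ HL_not_low76 h8)
      · exact absurd (tw_of76 hqp) (twLL_5 (LL_symm5 h8))
    exact ⟨v, q, p, y, ⟨h, hv, hO, hqp, hk hq, ⟨hyh, hk hy, hHL hy⟩, hvq⟩⟩
  · exfalso
    refine h.r3b_m53 hG hr hv hNF fun y hy => ⟨hnl hy, fun ht => htw ⟨y, hy, ht⟩⟩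

end L1

end CG

end Pool.Agent.Lib.MP_e95c01_co.N
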