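import Pool.Agent.Lib.MP_e95c01_co.X.StmtsS87
import Pool.Agent.Lib.MP_e95c01_co.U.StThin1_1
import Pool.Agent.Lib.MP_e95c01_co.T.Aux76

/-!
# S0: types of the flags; the parts of the neighbourhoods in a strip
-/

namespace Pool.Agent.Lib.MP_e95c01_co.N

open Finset

variable {V : Type} [Fintype V] [DecidableEq V]

namespace CG

variable {G : CG V} {A B S : Finset V}

theorem Tw_ne87 {v w : V} (h : G.Tw v w) : v ≠ w := ne_of_nb5 h.1

theorem Tw_card87 {v w : V} (h : G.Tw v w) : (G.nb v).card = 7 := h.2.1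

theorem pair_card87 {D : Finset V} (h : G.PairSet D) : D.card = 2 := by
  obtain ⟨v, w, h1, rfl⟩ := h
  exact card_pair (Tw_ne87 h1)

theorem nb_split87 (S : Finset V) (z : V) :
    (G.nb z).card = (G.pX S z).card + (G.pT S z).card + (G.pO S z).card := by
  have h1 : G.nb z = (G.pX S z ∪ G.pT S z) ∪ G.pO S z := by
    ext v
    simp only [pX, pT, pO, mem_union, mem_inter, mem_Co1]
    tauto
  have h2 : Disjoint (G.pX S z) (G.pT S z) := by
    rw [disjoint_left]
    intro v hv hv'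
    exact (mem_N1.1 (mem_inter.1 hv').2).1 (mem_inter.1 hv).2
  have h3 : Disjoint (G.pX S z ∪ G.pT S z) (G.pO S z) := by
    rw [disjoint_left]
    intro v hv hv'
    have h4 := mem_Co1.1 (mem_inter.1 hv').2
    rcases mem_union.1 hv with h5 | h5
    · exact h4.1 (mem_inter.1 h5).2
    · exact h4.2 (mem_inter.1 h5).2
  conv_lhs => rw [h1]
  rw [card_union_of_disjoint h3, card_union_of_disjoint h2]

theorem s5_nonneg87 (S : Finset V) (z : V) : 0 ≤ G.s5 S z := by
  classical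
  rw [s5]
  split_ifs <;> norm_num

theorem s5_le87 (S : Finset V) (z : V) : G.s5 S z ≤ 2 := by
  classical
  rw [s5]
  split_ifs <;> norm_num

theorem s5_S0_87 {z : V} (h : G.s5 S z ≠ 0) : ∃ v, G.S0 S z v := by
  classical
  rw [s5] at h
  split_ifs at h with h1 h2
  · obtain ⟨v, h3, -⟩ := h1
    exact ⟨v, h3⟩
  · obtain ⟨v, h3, -⟩ := h2
    exact ⟨v, h3⟩
  · exact absurd rfl h

theorem S0_type87 {z v : V} (h : G.S0 S z v) : (G.pX S z).card = 2 ∧ (G.pT S z).card = 1 ∧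
    (G.pO S z).card = 3 := by
  obtain ⟨-, h2, -, h4, ⟨q, q', h5, h6, -⟩, -⟩ := h
  have h7 : (G.pX S z).card = 2 := by rw [h6, card_pair (Tw_ne87 h5)]
  have h8 : (G.pT S z).card = 1 := by rw [h4, card_singleton]
  have h9 := nb_split87 (G := G) S z
  have h10 : (G.nb z).card = 6 := h2
  omega

/-- S0 -/
theorem stTy5_87 (G : CG V) : G.StTy5 where
  s1 := fun S z => ⟨s5_nonneg87 S z, s5_le87 S z⟩
  s2 := by
    intro S z h
    obtain ⟨v, hv⟩ := s5_S0_87 h
    obtain ⟨h1, h2, h3⟩ := S0_type87 hv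
    exact ⟨hv.1, hv.2.1, h1, h2, h3, v, hv⟩
  u3 := by
    rintro S z ⟨-, h1, h2, h3⟩
    have h4 := pair_card87 h3
    have h9 := nb_split87 (G := G) S z
    have h10 : (G.nb z).card = 6 := h1
    omega
  t3 := by
    rintro S z ⟨-, h1, h2, Q, Q', r, r', h, h3, h4, -, h5, h6, -⟩
    refine ⟨h2, ?_, ?_⟩
    · rw [h5, card_pair (Tw_ne87 h3)]
    · rw [h6, card_pair (Tw_ne87 h4)]
  hf := by
    rintro S z ⟨-, h1, h2, a, b, -, -, -, h3⟩
    have h4 : (G.pT S z).card = 1 := by rw [h3, card_singleton]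
    have h9 := nb_split87 (G := G) S z
    have h10 : (G.nb z).card = 6 := h1
    omega
  rf := by
    rintro S z ⟨-, p', m, m', h1, h2, h3, h4, h5, -⟩
    refine ⟨⟨p', h1⟩, ?_, h4, ?_, ?_⟩
    · intro h6
      have h7 : (G.nb z).card = 6 := h6
      have h8 := Tw_card87 h1
      omega
    · rw [h3, card_singleton]
    · rw [h5, card_pair h2]
  nt := by
    intro F hF
    exact ⟨(G.stCo_37 F hF).2.1, (G.stCo_37 F hF).2.2⟩
  co := by
    intro F hF z
    rw [pX, pT, pO, pX, pT, pO, (G.stCo_37 F hF).2.1, (G.stCo_37 F hF).2.2]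
    exact ⟨rfl, rfl, rfl⟩
  dg := fun F _ z => nb_split87 F z

end CG

end Pool.Agent.Lib.MP_e95c01_co.N
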