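import Pool.Agent.Lib.MP_e95c01_co.X.K2_86
import Pool.Agent.Lib.MP_e95c01_co.X.V2_16
import Pool.Agent.Lib.MP_e95c01_co.T.Fin96

/-!
# Graphs with 11 or 12 vertices, three low vertices and no big fragment: basic facts
-/

namespace Pool.Agent.Lib.MP_e95c01_co.N

open Finset

variable {V : Type} [Fintype V] [DecidableEq V]

namespace CG

/-- exactly three low vertices, 11 or 12 vertices, no big fragment -/
structure Sm33 (G : CG V) : Prop where
  crit : G.Crit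
  sat : G.Sat
  n11 : 11 ≤ Fintype.card V
  n12 : Fintype.card V ≤ 12
  nobig : ∀ F, ¬ G.Big F
  l3 : G.l univ = 3

/-- a pair of twins that sees a hub sees all low vertices, 11 vertices -/
def St1a (G : CG V) : Prop := G.Sm33 → Fintype.card V = 11 → ∀ q x l, G.IsTw q → G.Hub x →
  x ∈ G.nb q → G.Low l → l ∈ G.nb q

/-- the same with 12 vertices -/
def St1b (G : CG V) : Prop := G.Sm33 → Fintype.card V = 12 → ∀ q x l, G.IsTw q → G.Hub x →
  x ∈ G.nb q → G.Low l → l ∈ G.nb q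

/-- all pairs see all lows and no other pair -/
def St5a (G : CG V) : Prop := G.Sm33 → (∀ q l, G.IsTw q → G.Low l → l ∈ G.nb q) →
  (∀ q v, G.IsTw q → G.IsTw v → v ∈ G.nb q → G.Tw q v) → False

variable {G : CG V}

namespace Sm33

theorem n9 (h : G.Sm33) : 9 ≤ Fintype.card V := by
  have := h.n11
  omega

theorem n10 (h : G.Sm33) : 10 ≤ Fintype.card V := by
  have := h.n11
  omega

theorem tor (h : G.Sm33) : G.Torso3 G.Tw ∅ :=
  torso_empty96 h.crit (qs16 G) h.sat h.n9 h.nobig G.stSmall_76 G.stCovU_1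
    (G.stCov3_11 G.Tw)

/-- covers -/
theorem cov (h : G.Sm33) {z x : V} (hx : x ∈ G.nb z) :
    (∃ w, w ∈ G.nb z ∧ G.Low w ∧ x ∈ G.nb w) ∨
    (∃ v w, v ∈ G.nb z ∧ w ∈ G.nb z ∧ G.Tw v w ∧ x ∈ G.nb v ∧ x ∈ G.nb w) ∨
    (∃ a b, a ∈ G.nb z ∧ G.Low z ∧ G.HL a b z ∧ x ∈ G.nb b ∧ x ≠ a) ∨
    (∃ a b, b ∈ G.nb z ∧ G.Low x ∧ G.HL a b x ∧ z ≠ a) ∨
    (∃ a b, a ∈ G.nb z ∧ x ∈ G.nb b ∧ G.LL a b z x) := by
  have hxR : x ∈ G.nR ∅ z := mem_nR76.2 ⟨hx, R_empty96 x⟩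
  rcases cov3_76 (qs16 G) h.tor (R_empty96 z) hxR (m_empty5 (I_empty96 z)) with
    h1 | h1 | h1 | h1 | h1
  · obtain ⟨w, h2, -, h3, h4⟩ := h1
    exact Or.inl ⟨w, (mem_nR76.1 h2).1, h3, h4⟩
  · obtain ⟨v, w, h2, h3, h4, h5, h6⟩ := h1
    exact Or.inr (Or.inl ⟨v, w, (mem_nR76.1 h2).1, (mem_nR76.1 h3).1, h4, h5, h6⟩)
  · obtain ⟨a, b, h2, -, h3, h4, h5, h6⟩ := h1
    exact Or.inr (Or.inr (Or.inl ⟨a, b, (mem_nR76.1 h2).1, h3, h4, h5, h6⟩))
  · obtain ⟨a, b, h2, -, h3, h4, h5⟩ := h1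
    exact Or.inr (Or.inr (Or.inr (Or.inl ⟨a, b, (mem_nR76.1 h2).1, h3, h4, h5⟩)))
  · obtain ⟨a, b, h2, -, h3, h4⟩ := h1
    exact Or.inr (Or.inr (Or.inr (Or.inr ⟨a, b, (mem_nR76.1 h2).1, h3, h4⟩)))

/-- the three low vertices -/
theorem lows (h : G.Sm33) : ∃ a b c, a ≠ b ∧ a ≠ c ∧ b ≠ c ∧ G.Low a ∧ G.Low b ∧ G.Low c ∧
    ∀ x, G.Low x → x = a ∨ x = b ∨ x = c := by
  have h1 : (univ.filter fun v => G.Low v).card = 3 := h.l3
  obtain ⟨a, b, c, hab, hac, hbc, hS⟩ := card_eq_three.1 h1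
  have mem : ∀ x, G.Low x ↔ (x = a ∨ x = b ∨ x = c) := by
    intro x
    have h2 : x ∈ (univ.filter fun v => G.Low v) ↔ x ∈ ({a, b, c} : Finset V) := by rw [hS]
    simpa using h2
  exact ⟨a, b, c, hab, hac, hbc, (mem a).2 (by simp), (mem b).2 (by simp), (mem c).2 (by simp),
    fun x hx => (mem x).1 hx⟩

/-- there is a twin vertex -/
theorem tw (h : G.Sm33) : ∃ q, G.IsTw q := by
  classical
  have h1 := fn96 G G.Tw h.crit (qs16 G)
  have h2 := h.l3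
  have h3 := h.n11
  rw [h2] at h1
  have h4 : 0 < qcard G.Tw univ := by omega
  rw [qcard, card_pos] at h4
  obtain ⟨q, hq⟩ := h4
  rw [mem_filter] at hq
  exact ⟨q, hq.2⟩

/-- two types `HL` in a row -/
theorem rule (h : G.Sm33) {y a z y' b' : V} (h1 : G.HL y a z) (h2 : G.HL y' b' a) : b' = z := by
  by_contra hne
  have hy : y' ≠ y := by
    rintro rfl
    exact (stTwHL_5 G).nomut h.n9 _ _ _ _ _ h2 h1 rfl
  have h3 : y' ∈ G.nb y := HL_sub76 h1 (G.sym _ _ (HL_t76 h2)) hy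
  have h4 : y ≠ a := ne_of_nb5 (HL_b76 h1)
  rcases HL_sup76 h2 (G.sym _ _ h3) h4 with h5 | h5
  · exact HL_not_low76 h1 (h5 ▸ h2.2.1)
  · rcases HL_sup76 h1 (G.sym _ _ h5) hne with h6 | h6
    · exact (HL_bt76 h2).2 h6.symm
    · exact (HL_bt76 h2).1 (G.sym _ _ h6)

/-- no three mutually adjacent pairs of twins -/
theorem k6 (h : G.Sm33) {q p v w s t : V} (h1 : G.Tw q p) (h2 : G.Tw v w) (h3 : G.Tw s t)
    (e1 : v ∈ G.nb q) (e2 : v ≠ p) (e3 : s ∈ G.nb q) (e4 : s ≠ p) (e5 : s ∈ G.nb v)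
    (e6 : s ≠ w) : False := by
  have n9 := h.n9
  have hT := stTwHL_5 G
  have d1 : q ≠ p := ne_of_nb5 h1.1
  have d2 : v ≠ w := ne_of_nb5 h2.1
  have d3 : s ≠ t := ne_of_nb5 h3.1
  have key : ∀ {a b c d : V}, G.Tw a b → G.Tw c d → c ∈ G.nb a → c ≠ b →
      (a ≠ c ∧ a ≠ d ∧ b ≠ c ∧ b ≠ d) ∧ (d ∈ G.nb a ∧ c ∈ G.nb b ∧ d ∈ G.nb b) := by
    intro a b c d k1 k2 k3 k4
    have k5 : a ≠ c := ne_of_nb5 k3
    have k6 : a ≠ d := by
      rintro rfl
      exact k4 (hT.uniq n9 _ _ _ (hT.symm _ _ k2) k1)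
    have k7 : b ≠ d := by
      rintro rfl
      exact k5 (hT.uniq n9 _ _ _ (hT.symm _ _ k1) (hT.symm _ _ k2))
    have k8 : d ∈ G.nb a := G.sym _ _ (Tw_nb5 k2 (G.sym _ _ k3) k6)
    exact ⟨⟨k5, k6, k4.symm, k7⟩, k8, Tw_nb5 k1 k3 k4, Tw_nb5 k1 k8 k7.symm⟩
  obtain ⟨⟨f1, f2, f3, f4⟩, g1, g2, g3⟩ := key h1 h2 e1 e2
  obtain ⟨⟨f5, f6, f7, f8⟩, g4, g5, g6⟩ := key h1 h3 e3 e4
  obtain ⟨⟨f9, f10, f11, f12⟩, g7, g8, g9⟩ := key h2 h3 e5 e6
  have nd : [q, p, v, w, s, t].Nodup := by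
    simp only [List.nodup_cons, List.mem_cons, List.not_mem_nil, or_false, not_or,
      not_false_iff, List.nodup_nil, and_true]
    exact ⟨⟨d1, f1, f2, f5, f6⟩, ⟨f3, f4, f7, f8⟩, ⟨d2, f9, f10⟩, ⟨f11, f12⟩, d3⟩
  have hS : G.IsK6 {q, p, v, w, s, t} := by
    refine ⟨?_, ?_, ?_⟩
    · have h4 := List.toFinset_card_of_nodup nd
      simpa using h4
    · intro x hx
      simp only [mem_insert, mem_singleton] at hx
      rcases hx with rfl | rfl | rfl | rfl | rfl | rfl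
      exacts [⟨_, h1⟩, ⟨_, hT.symm _ _ h1⟩, ⟨_, h2⟩, ⟨_, hT.symm _ _ h2⟩, ⟨_, h3⟩,
        ⟨_, hT.symm _ _ h3⟩]
    · have sy : ∀ {a b : V}, a ∈ G.nb b → b ∈ G.nb a := fun {a b} h => G.sym _ _ h
      intro x hx y hy hxy
      simp only [mem_insert, mem_singleton] at hx hy
      rcases hx with rfl | rfl | rfl | rfl | rfl | rfl <;>
        rcases hy with rfl | rfl | rfl | rfl | rfl | rfl <;>
        first
        | exact absurd rfl hxy
        | exact h1.1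
        | exact sy h1.1
        | exact h2.1
        | exact sy h2.1
        | exact h3.1
        | exact sy h3.1
        | assumption
        | (apply G.sym; assumption)
  have hN : G.N {q, p, v, w, s, t} ⊆ univ.filter fun v => G.Low v := by
    intro x hx
    rw [mem_filter]
    exact ⟨mem_univ _, (k6_low16 h.crit n9 hS hx).1⟩
  have h4 := card_le_card hN
  have h5 : (univ.filter fun v => G.Low v).card = 3 := h.l3
  have h6 := hS.1
  have h7 := h.n11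
  have h8 := six_le86 G (S := {q, p, v, w, s, t}) ⟨q, by simp⟩ (by omega)
  omega

/-- covers at a twin vertex -/
theorem covq (h : G.Sm33) {q p y : V} (ht : G.Tw q p) (hy : y ∈ G.nb q) :
    (∃ w, w ∈ G.nb q ∧ G.Low w ∧ y ∈ G.nb w) ∨
    (∃ v w, v ∈ G.nb q ∧ w ∈ G.nb q ∧ G.Tw v w ∧ v ≠ p ∧ w ≠ p ∧ y ∈ G.nb v ∧ y ∈ G.nb w) ∨
    (G.Low y ∧ ∃ a b, b ∈ G.nb q ∧ G.HL a b y ∧ a ∈ G.nb q) := by
  have hT := stTwHL_5 G
  have hql : ¬ G.Low q := q_not_low76 (qs16 G) ⟨p, ht⟩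
  rcases h.cov hy with h1 | h1 | h1 | h1 | h1
  · exact Or.inl h1
  · obtain ⟨v, w, h2, h3, h4, h5, h6⟩ := h1
    refine Or.inr (Or.inl ⟨v, w, h2, h3, h4, ?_, ?_, h5, h6⟩)
    · rintro rfl
      have h7 := hT.uniq h.n9 _ _ _ h4 (hT.symm _ _ ht)
      exact G.irr q (h7 ▸ h3)
    · rintro rfl
      have h7 := hT.uniq h.n9 _ _ _ (hT.symm _ _ h4) (hT.symm _ _ ht)
      exact G.irr q (h7 ▸ h2)
  · obtain ⟨a, b, -, h2, -⟩ := h1
    exact absurd h2 hql
  · obtain ⟨a, b, h2, h3, h4, h5⟩ := h1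
    exact Or.inr (Or.inr ⟨h3, a, b, h2, h4,
      G.sym _ _ (HL_sub76 h4 (G.sym _ _ h2) h5)⟩)
  · obtain ⟨a, b, -, -, h2⟩ := h1
    exact absurd ⟨p, ht⟩ (twLL_5 h2)

/-- every pair of twins sees two low vertices -/
theorem two (h : G.Sm33) {q p : V} (ht : G.Tw q p) :
    ∃ l l', l ≠ l' ∧ G.Low l ∧ G.Low l' ∧ l ∈ G.nb q ∧ l' ∈ G.nb q := by
  have n9 := h.n9
  have hT := stTwHL_5 G
  have ht' := hT.symm _ _ ht
  by_contra hc
  have one : ∀ {l l' : V}, G.Low l → G.Low l' → l ∈ G.nb q → l' ∈ G.nb q → l = l' := by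
    intro l l' h1 h2 h3 h4
    by_contra h5
    exact hc ⟨l, l', h5, h1, h2, h3, h4⟩
  have h7 : (G.nb q).card = 7 := ht.2.1
  have cv : ∀ y ∈ G.nb q, (∃ w, w ∈ G.nb q ∧ G.Low w ∧ y ∈ G.nb w) ∨
      (∃ v w, v ∈ G.nb q ∧ w ∈ G.nb q ∧ G.Tw v w ∧ v ≠ p ∧ w ≠ p ∧ y ∈ G.nb v ∧
        y ∈ G.nb w) := by
    intro y hy
    rcases h.covq ht hy with h1 | h1 | ⟨h1, a, b, h2, h3, -⟩
    · exact Or.inl h1
    · exact Or.inr h1
    · exact absurd (one h1 h3.2.1 hy h2) (HL_bt76 h3).2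
  have nop : ∀ {v w : V}, v ∈ G.nb q → G.Tw v w → v ≠ p → ∃ l, l ∈ G.nb q ∧ G.Low l ∧
      v ∈ G.nb l := by
    intro v w h1 h2 h3
    rcases cv v h1 with h4 | h4
    · exact h4
    · obtain ⟨v2, w2, k1, k2, k3, k4, k5, k6, k7⟩ := h4
      exfalso
      refine h.k6 ht h2 k3 h1 h3 k1 k4 (G.sym _ _ k6) ?_
      rintro rfl
      have h8 := hT.uniq n9 _ _ _ k3 (hT.symm _ _ h2)
      exact G.irr v (h8 ▸ k7)
  -- the low vertex
  obtain ⟨l, hl, hll⟩ : ∃ l, l ∈ G.nb q ∧ G.Low l := by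
    have h1 : 0 < ((G.nb q).erase p).card := by
      rw [card_erase_of_mem ht.1]
      omega
    obtain ⟨y, hy⟩ := card_pos.1 h1
    rcases cv y (mem_erase.1 hy).2 with h2 | h2
    · obtain ⟨w, h3, h4, -⟩ := h2
      exact ⟨w, h3, h4⟩
    · obtain ⟨v, w, k1, k2, k3, k4, -⟩ := h2
      obtain ⟨l, h5, h6, -⟩ := nop k1 k3 k4
      exact ⟨l, h5, h6⟩
  -- a pair at it
  obtain ⟨v, w, hv, hw, hvw, hvp, hwp, hlv, hlw⟩ : ∃ v w, v ∈ G.nb q ∧ w ∈ G.nb q ∧
      G.Tw v w ∧ v ≠ p ∧ w ≠ p ∧ l ∈ G.nb v ∧ l ∈ G.nb w := by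
    rcases cv l hl with h2 | h2
    · obtain ⟨l', h3, h4, h5⟩ := h2
      exact absurd (one h4 hll h3 hl) (ne_of_nb5 h5)
    · exact h2
  have hwv := hT.symm _ _ hvw
  have hlp : l ∈ G.nb p := Tw_nb5 ht hl (by
    rintro rfl
    exact q_not_low76 (qs16 G) ⟨q, ht'⟩ hll)
  have lv : l ≠ v := (ne_of_nb5 hlv).symm
  have lw : l ≠ w := (ne_of_nb5 hlw).symm
  have vw : v ≠ w := ne_of_nb5 hvw.1
  have lp : l ≠ p := (ne_of_nb5 hlp).symm
  have cl := lq_le86 n9 hll ht (G.sym _ _ hl)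
  have cq := qq_le86 h.n10 ht hvw hv hvp
  -- the only pair
  have only : ∀ v2 w2, v2 ∈ G.nb q → G.Tw v2 w2 → v2 ≠ p → v2 = v ∨ v2 = w := by
    intro v2 w2 h1 h2 h3
    by_contra hne
    rw [not_or] at hne
    obtain ⟨l2, h4, h5, h6⟩ := nop h1 h2 h3
    have h8 := one h5 hll h4 hl
    subst h8
    have w2v : w2 ≠ v := by
      rintro rfl
      exact hne.2 (hT.uniq n9 _ _ _ (hT.symm _ _ h2) hvw)
    have w2w : w2 ≠ w := by
      rintro rfl
      exact hne.1 (hT.uniq n9 _ _ _ (hT.symm _ _ h2) hwv)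
    have w2p : w2 ≠ p := by
      rintro rfl
      exact ne_of_nb5 h1 (hT.uniq n9 _ _ _ ht' (hT.symm _ _ h2))
    have h9 : w2 ∈ G.nb q := by
      refine G.sym _ _ (Tw_nb5 h2 (G.sym _ _ h1) ?_)
      rintro rfl
      exact h3 (hT.uniq n9 _ _ _ (hT.symm _ _ h2) ht)
    have h10 : w2 ∈ G.nb l2 := by
      refine G.sym _ _ (Tw_nb5 h2 (G.sym _ _ h6) ?_)
      rintro rfl
      exact q_not_low76 (qs16 G) ⟨v2, hT.symm _ _ h2⟩ hll
    have h11 : 5 ≤ (G.nb l2 ∩ G.nb q).card := by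
      have nd : [p, v, w, v2, w2].Nodup := by
        simp only [List.nodup_cons, List.mem_cons, List.not_mem_nil, or_false, not_or,
          not_false_iff, List.nodup_nil, and_true]
        exact ⟨⟨hvp.symm, hwp.symm, Ne.symm h3, w2p.symm⟩, ⟨vw, Ne.symm hne.1, w2v.symm⟩,
          ⟨Ne.symm hne.2, w2w.symm⟩, ne_of_nb5 h2.1⟩
      have h12 : [p, v, w, v2, w2].toFinset ⊆ G.nb l2 ∩ G.nb q := by
        intro x hx
        simp only [List.mem_toFinset, List.mem_cons, List.not_mem_nil, or_false] at hx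
        rw [mem_inter]
        rcases hx with rfl | rfl | rfl | rfl | rfl
        exacts [⟨G.sym _ _ hlp, ht.1⟩, ⟨G.sym _ _ hlv, hv⟩, ⟨G.sym _ _ hlw, hw⟩, ⟨h6, h1⟩,
          ⟨h10, h9⟩]
      have h13 := card_le_card h12
      rw [List.toFinset_card_of_nodup nd] at h13
      exact h13
    omega
  -- the other neighbours
  have hS : (((((G.nb q).erase p).erase l).erase v).erase w).card = 3 := by
    rw [card_erase_of_mem, card_erase_of_mem, card_erase_of_mem, card_erase_of_mem ht.1]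
    · omega
    · exact mem_erase.2 ⟨lp, hl⟩
    · exact mem_erase.2 ⟨lv.symm, mem_erase.2 ⟨hvp, hv⟩⟩
    · exact mem_erase.2 ⟨vw.symm, mem_erase.2 ⟨lw.symm, mem_erase.2 ⟨hwp, hw⟩⟩⟩
  have hmem : ∀ x ∈ ((((G.nb q).erase p).erase l).erase v).erase w, x ∈ G.nb q ∧ x ≠ p ∧
      x ≠ l ∧ x ≠ v ∧ x ≠ w := by
    intro x hx
    simp only [mem_erase] at hx
    tauto
  have hsub : ((((G.nb q).erase p).erase l).erase v).erase w ⊆
      ((((((G.nb q).erase p).erase l).erase v).erase w).filter fun x => x ∈ G.nb l) ∪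
      ((((((G.nb q).erase p).erase l).erase v).erase w).filter fun x => x ∈ G.nb v) := by
    intro x hx
    obtain ⟨k1, k2, k3, k4, k5⟩ := hmem x hx
    rw [mem_union, mem_filter, mem_filter]
    rcases cv x k1 with h2 | h2
    · obtain ⟨l', h3, h4, h5⟩ := h2
      have h6 := one h4 hll h3 hl
      subst h6
      exact Or.inl ⟨hx, h5⟩
    · obtain ⟨v2, w2, g1, g2, g3, g4, g5, g6, g7⟩ := h2
      right
      refine ⟨hx, ?_⟩
      rcases only v2 w2 g1 g3 g4 with rfl | rfl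
      · exact g6
      · exact Tw_nb5 hwv g6 k4
  have c1 := card_le_card hsub
  have c2 := card_union_le
    ((((((G.nb q).erase p).erase l).erase v).erase w).filter fun x => x ∈ G.nb l)
    ((((((G.nb q).erase p).erase l).erase v).erase w).filter fun x => x ∈ G.nb v)
  have d1 : ((((((G.nb q).erase p).erase l).erase v).erase w).filter
      fun x => x ∈ G.nb l).card + 3 ≤ (G.nb l ∩ G.nb q).card := by
    have e1 : ({p, v, w} : Finset V).card = 3 := by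
      rw [card_insert_of_notMem, card_pair vw]
      rw [mem_insert, mem_singleton]
      exact fun e => e.elim (fun e => hvp e.symm) (fun e => hwp e.symm)
    have e2 : Disjoint ((((((G.nb q).erase p).erase l).erase v).erase w).filter
        fun x => x ∈ G.nb l) {p, v, w} := by
      rw [disjoint_left]
      intro x hx hx'
      obtain ⟨k1, k2, k3, k4, k5⟩ := hmem x (mem_filter.1 hx).1
      rw [mem_insert, mem_insert, mem_singleton] at hx'
      tauto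
    rw [← e1, ← card_union_of_disjoint e2]
    refine card_le_card (union_subset ?_ ?_)
    · intro x hx
      rw [mem_filter] at hx
      exact mem_inter.2 ⟨hx.2, (hmem x hx.1).1⟩
    · intro x hx
      rw [mem_insert, mem_insert, mem_singleton] at hx
      rw [mem_inter]
      rcases hx with rfl | rfl | rfl
      exacts [⟨G.sym _ _ hlp, ht.1⟩, ⟨G.sym _ _ hlv, hv⟩, ⟨G.sym _ _ hlw, hw⟩]
  have d2 : ((((((G.nb q).erase p).erase l).erase v).erase w).filter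
      fun x => x ∈ G.nb v).card + 3 ≤ (G.nb q ∩ G.nb v).card := by
    have e1 : ({p, l, w} : Finset V).card = 3 := by
      rw [card_insert_of_notMem, card_pair lw]
      rw [mem_insert, mem_singleton]
      exact fun e => e.elim (fun e => lp e.symm) (fun e => hwp e.symm)
    have e2 : Disjoint ((((((G.nb q).erase p).erase l).erase v).erase w).filter
        fun x => x ∈ G.nb v) {p, l, w} := by
      rw [disjoint_left]
      intro x hx hx'
      obtain ⟨k1, k2, k3, k4, k5⟩ := hmem x (mem_filter.1 hx).1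
      rw [mem_insert, mem_insert, mem_singleton] at hx'
      tauto
    have hpv : p ∈ G.nb v := G.sym _ _ (Tw_nb5 ht hv hvp)
    rw [← e1, ← card_union_of_disjoint e2]
    refine card_le_card (union_subset ?_ ?_)
    · intro x hx
      rw [mem_filter] at hx
      exact mem_inter.2 ⟨(hmem x hx.1).1, hx.2⟩
    · intro x hx
      rw [mem_insert, mem_insert, mem_singleton] at hx
      rw [mem_inter]
      rcases hx with rfl | rfl | rfl
      exacts [⟨ht.1, hpv⟩, ⟨hl, hlv⟩, ⟨hw, hvw.1⟩]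
  omega

/-- 12 vertices: a low vertex and a pair of twins have at most two common neighbours, the partner
not counted -/
theorem c12 (h : G.Sm33) (hn : Fintype.card V = 12) {l v w : V} (hl : G.Low l) (ht : G.Tw v w)
    (hv : v ∈ G.nb l) : (G.nb l ∩ G.nb v).card ≤ 3 := by
  by_contra hc
  have hlw : l ≠ w := by
    rintro rfl
    exact q_not_low76 (qs16 G) ⟨v, (stTwHL_5 G).symm _ _ ht⟩ hl
  have hlv : l ≠ v := ne_of_nb5 hv
  have hvw : v ≠ w := ne_of_nb5 ht.1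
  have h1 := N_lq86 ht hv hlw
  have h2 : (G.nb l).card = 6 := hl
  have h3 : ({l, v, w} : Finset V).card = 3 := by
    rw [card_insert_of_notMem, card_pair hvw]
    rw [mem_insert, mem_singleton]
    exact fun e => e.elim hlv hlw
  have h4 := card_Co86 G {l, v, w}
  have h5 := six_le86 G (S := {l, v, w}) ⟨l, by simp⟩ (by omega)
  refine h.nobig {l, v, w} ⟨⟨⟨l, by simp⟩, by omega, card_pos.1 (by omega)⟩, by omega, by omega⟩

end Sm33

end CG

end Pool.Agent.Lib.MP_e95c01_co.N
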