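import Pool.Agent.Lib.MP_e95c01_co.X.S12a_33

/-!
# Graphs with 11 or 12 vertices and three low vertices: all pairs of twins see all low vertices
-/

namespace Pool.Agent.Lib.MP_e95c01_co.N

open Finset

variable {V : Type} [Fintype V] [DecidableEq V]

namespace CG

variable {G : CG V}

namespace Sm33

omit [Fintype V] in
/-- a list without repetition -/
theorem len_le {S : Finset V} (L : List V) (hL : L.Nodup) (h : ∀ x ∈ L, x ∈ S) :
    L.length ≤ S.card := by
  rw [← List.toFinset_card_of_nodup hL]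
  exact card_le_card fun x hx => h x (List.mem_toFinset.1 hx)

theorem lows3 (h : G.Sm33) {a b c : V} (hab : a ≠ b) (hac : a ≠ c) (hbc : b ≠ c)
    (ha : G.Low a) (hb : G.Low b) (hc : G.Low c) {x : V} (hx : G.Low x) :
    x = a ∨ x = b ∨ x = c := by
  by_contra hne
  rw [not_or, not_or] at hne
  have h1 := len_le (S := univ.filter fun v => G.Low v) [x, a, b, c] (by
    simp only [List.nodup_cons, List.mem_cons, List.not_mem_nil, or_false, not_or,
      not_false_iff, List.nodup_nil, and_true]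
    exact ⟨⟨hne.1, hne.2.1, hne.2.2⟩, ⟨hab, hac⟩, hbc⟩) (by
    intro y hy
    simp only [List.mem_cons, List.not_mem_nil, or_false] at hy
    rw [mem_filter]
    refine ⟨mem_univ _, ?_⟩
    rcases hy with rfl | rfl | rfl | rfl <;> assumption)
  have h2 : (univ.filter fun v => G.Low v).card = 3 := h.l3
  simp only [List.length_cons, List.length_nil] at h1
  omega

theorem tw_ne_low {v l : V} (hv : G.IsTw v) (hl : G.Low l) : v ≠ l := by
  rintro rfl
  exact q_not_low76 (qs16 G) hv hl

/-- the partner sees the same vertices -/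
theorem part (h : G.Sm33) {q v w : V} (ht : G.Tw v w) (hv : v ∈ G.nb q) (hq : q ≠ w) :
    w ∈ G.nb q := G.sym _ _ (Tw_nb5 ht (G.sym _ _ hv) hq)

/-- the third low vertex -/
theorem third (h : G.Sm33) {a b : V} (hab : a ≠ b) (ha : G.Low a) (hb : G.Low b) :
    ∃ c, G.Low c ∧ a ≠ c ∧ b ≠ c := by
  have h1 : (univ.filter fun v => G.Low v).card = 3 := h.l3
  obtain ⟨c, hc⟩ : ∃ c, c ∈ ((univ.filter fun v => G.Low v).erase a).erase b := by
    apply card_pos.1
    rw [card_erase_of_mem, card_erase_of_mem, h1]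
    · omega
    · exact mem_filter.2 ⟨mem_univ _, ha⟩
    · exact mem_erase.2 ⟨hab.symm, mem_filter.2 ⟨mem_univ _, hb⟩⟩
  rw [mem_erase, mem_erase, mem_filter] at hc
  exact ⟨c, hc.2.2.2, hc.2.1.symm, hc.1.symm⟩

end Sm33

open Sm33 in
/-- a pair of twins that sees a hub sees all low vertices, 12 vertices -/
theorem st1b_33 (G : CG V) : G.St1b := by
  intro h hn q x l ⟨p, ht⟩ hx hxq hl
  by_contra hlq
  have n9 := h.n9
  have hT := stTwHL_5 G
  have ht' := hT.symm _ _ ht
  obtain ⟨l1, l2, h12, L1, L2, m1, m2⟩ := h.two ht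
  have e1 : l1 ≠ l := fun e => hlq (e ▸ m1)
  have e2 : l2 ≠ l := fun e => hlq (e ▸ m2)
  have lowq : ∀ z ∈ G.nb q, G.Low z → z = l1 ∨ z = l2 := by
    intro z hz hzl
    rcases h.lows3 h12 e1 e2 L1 L2 hl hzl with h1 | h1 | h1
    · exact Or.inl h1
    · exact Or.inr h1
    · exact absurd (h1 ▸ hz) hlq
  have h7 : (G.nb q).card = 7 := ht.2.1
  have pl1 : p ≠ l1 := tw_ne_low ⟨q, ht'⟩ L1
  have pl2 : p ≠ l2 := tw_ne_low ⟨q, ht'⟩ L2
  have p1 : p ∈ G.nb l1 := G.sym _ _ (Tw_nb5 ht m1 pl1.symm)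
  have p2 : p ∈ G.nb l2 := G.sym _ _ (Tw_nb5 ht m2 pl2.symm)
  have c1 := h.c12 hn L1 ht (G.sym _ _ m1)
  have c2 := h.c12 hn L2 ht (G.sym _ _ m2)
  have hO : ((((G.nb q).erase p).erase l1).erase l2).card = 4 := by
    rw [card_erase_of_mem, card_erase_of_mem, card_erase_of_mem ht.1]
    · omega
    · exact mem_erase.2 ⟨pl1.symm, m1⟩
    · exact mem_erase.2 ⟨h12.symm, mem_erase.2 ⟨pl2.symm, m2⟩⟩
  have hOm : ∀ y, y ∈ (((G.nb q).erase p).erase l1).erase l2 ↔
      y ≠ l2 ∧ y ≠ l1 ∧ y ≠ p ∧ y ∈ G.nb q := by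
    intro y
    rw [mem_erase, mem_erase, mem_erase]
  have nolow : ∀ y ∈ (((G.nb q).erase p).erase l1).erase l2, ¬ G.Low y := by
    intro y hy hyl
    rw [hOm] at hy
    rcases lowq y hy.2.2.2 hyl with h1 | h1
    · exact hy.2.1 h1
    · exact hy.1 h1
  have hxp : x ≠ p := fun e => hx.2 (e ▸ ⟨q, ht'⟩)
  have hxO : x ∈ (((G.nb q).erase p).erase l1).erase l2 := (hOm x).2
    ⟨fun e => hx.1 (e ▸ L2), fun e => hx.1 (e ▸ L1), hxp, hxq⟩
  by_cases hp : ∃ v ∈ (((G.nb q).erase p).erase l1).erase l2, G.IsTw v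
  · obtain ⟨v, hv, w, hvw⟩ := hp
    have hwv := hT.symm _ _ hvw
    rw [hOm] at hv
    obtain ⟨v1, v2, v3, hv⟩ := hv
    have qw : q ≠ w := by
      rintro rfl
      exact v3 (hT.uniq n9 _ _ _ hwv ht)
    have hw : w ∈ G.nb q := h.part hvw hv qw
    have w3 : w ≠ p := by
      rintro rfl
      exact ne_of_nb5 hv (hT.uniq n9 _ _ _ ht' hwv)
    have w1 : w ≠ l2 := tw_ne_low ⟨v, hwv⟩ L2
    have w2 : w ≠ l1 := tw_ne_low ⟨v, hwv⟩ L1
    have vw : v ≠ w := ne_of_nb5 hvw.1
    have xv : x ≠ v := fun e => hx.2 (e ▸ ⟨w, hvw⟩)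
    have xw : x ≠ w := fun e => hx.2 (e ▸ ⟨v, hwv⟩)
    rw [hOm] at hxO
    -- the last neighbour
    have hS : ((((((G.nb q).erase p).erase l1).erase l2).erase v).erase w).card = 2 := by
      rw [card_erase_of_mem, card_erase_of_mem, hO]
      · exact (hOm v).2 ⟨v1, v2, v3, hv⟩
      · exact mem_erase.2 ⟨vw.symm, (hOm w).2 ⟨w1, w2, w3, hw⟩⟩
    have hxS : x ∈ (((((G.nb q).erase p).erase l1).erase l2).erase v).erase w :=
      mem_erase.2 ⟨xw, mem_erase.2 ⟨xv, (hOm x).2 hxO⟩⟩
    obtain ⟨y, hy⟩ : ∃ y, y ∈ ((((((G.nb q).erase p).erase l1).erase l2).erase v).erase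
        w).erase x := by
      apply card_pos.1
      rw [card_erase_of_mem hxS, hS]
      omega
    rw [mem_erase, mem_erase, mem_erase, hOm] at hy
    obtain ⟨yx, yw, yv, y2, y1, y3, hy⟩ := hy
    have hall : ∀ z ∈ G.nb q, z = p ∨ z = l1 ∨ z = l2 ∨ z = v ∨ z = w ∨ z = x ∨ z = y := by
      intro z hz
      by_contra hne
      rw [not_or, not_or, not_or, not_or, not_or, not_or] at hne
      obtain ⟨z1, z2, z3, z4, z5, z6, z7⟩ := hne
      have h1 := len_le (S := (((((G.nb q).erase p).erase l1).erase l2).erase v).erase w)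
        [x, y, z] (by
        simp only [List.nodup_cons, List.mem_cons, List.not_mem_nil, or_false, not_or,
          not_false_iff, List.nodup_nil, and_true]
        exact ⟨⟨Ne.symm yx, Ne.symm z6⟩, Ne.symm z7⟩) (by
        intro u hu
        simp only [List.mem_cons, List.not_mem_nil, or_false] at hu
        rw [mem_erase, mem_erase, hOm]
        rcases hu with rfl | rfl | rfl
        · exact ⟨xw, xv, hxO⟩
        · exact ⟨yw, yv, y2, y1, y3, hy⟩
        · exact ⟨z5, z4, z3, z2, z1, hz⟩)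
      simp only [List.length_cons, List.length_nil] at h1
      omega
    have ynl : ¬ G.Low y := nolow y ((hOm y).2 ⟨y2, y1, y3, hy⟩)
    have ynt : ¬ G.IsTw y := by
      rintro ⟨y', hyy⟩
      have k1 : y' ∈ G.nb q := h.part hyy hy (by
        rintro rfl
        exact y3 (hT.uniq n9 _ _ _ (hT.symm _ _ hyy) ht))
      have k2 : G.IsTw y' := ⟨y, hT.symm _ _ hyy⟩
      rcases hall y' k1 with e | e | e | e | e | e | e
      · exact ne_of_nb5 hy (hT.uniq n9 _ _ _ ht' (e ▸ hT.symm _ _ hyy))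
      · exact tw_ne_low k2 L1 e
      · exact tw_ne_low k2 L2 e
      · exact yw (hT.uniq n9 _ _ _ (hT.symm _ _ hyy) (e ▸ hvw))
      · exact yv (hT.uniq n9 _ _ _ (hT.symm _ _ hyy) (e ▸ hwv))
      · exact hx.2 (e ▸ k2)
      · exact ne_of_nb5 hyy.1 e.symm
    -- the only pair
    have only : ∀ v2 w2, v2 ∈ G.nb q → G.Tw v2 w2 → v2 ≠ p → v2 = v ∨ v2 = w := by
      intro v2 w2 k1 k2 k3
      rcases hall v2 k1 with e | e | e | e | e | e | e
      · exact absurd e k3
      · exact absurd e (tw_ne_low ⟨w2, k2⟩ L1)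
      · exact absurd e (tw_ne_low ⟨w2, k2⟩ L2)
      · exact Or.inl e
      · exact Or.inr e
      · exact absurd (e ▸ ⟨w2, k2⟩) hx.2
      · exact absurd (e ▸ ⟨w2, k2⟩) ynt
    -- the pair is covered by a low vertex
    have lowv : ∃ z, z ∈ G.nb q ∧ G.Low z ∧ v ∈ G.nb z := by
      rcases h.covq ht hv with k | k | k
      · exact k
      · exfalso
        obtain ⟨v2, w2', k1, k2, k3, k4, k5, k6, k7⟩ := k
        rcases only v2 w2' k1 k3 k4 with rfl | rfl
        · exact G.irr _ k6
        · have := hT.uniq n9 _ _ _ k3 hwv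
          subst this
          exact G.irr _ k7
      · exact absurd k.1 (q_not_low76 (qs16 G) ⟨w, hvw⟩)
    -- at both low vertices
    have step : ∀ {a b : V}, (a = l1 ∧ b = l2 ∨ a = l2 ∧ b = l1) → v ∈ G.nb a → False := by
      intro a b hab hva
      have La : G.Low a := by rcases hab with ⟨rfl, -⟩ | ⟨rfl, -⟩ <;> assumption
      have Lb : G.Low b := by rcases hab with ⟨-, rfl⟩ | ⟨-, rfl⟩ <;> assumption
      have ma : a ∈ G.nb q := by rcases hab with ⟨rfl, -⟩ | ⟨rfl, -⟩ <;> assumption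
      have mb : b ∈ G.nb q := by rcases hab with ⟨-, rfl⟩ | ⟨-, rfl⟩ <;> assumption
      have ca : (G.nb a ∩ G.nb q).card ≤ 3 := by
        rcases hab with ⟨rfl, -⟩ | ⟨rfl, -⟩ <;> assumption
      have cb : (G.nb b ∩ G.nb q).card ≤ 3 := by
        rcases hab with ⟨-, rfl⟩ | ⟨-, rfl⟩ <;> assumption
      have pa : p ∈ G.nb a := by rcases hab with ⟨rfl, -⟩ | ⟨rfl, -⟩ <;> assumption
      have pb : p ∈ G.nb b := by rcases hab with ⟨-, rfl⟩ | ⟨-, rfl⟩ <;> assumption
      have dab : a ≠ b := by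
        rcases hab with ⟨rfl, rfl⟩ | ⟨rfl, rfl⟩
        exacts [h12, h12.symm]
      have lowab : ∀ z ∈ G.nb q, G.Low z → z = a ∨ z = b := by
        intro z k1 k2
        have := lowq z k1 k2
        rcases hab with ⟨rfl, rfl⟩ | ⟨rfl, rfl⟩ <;> tauto
      have full : ∀ {c : V}, G.Low c → (G.nb c ∩ G.nb q).card ≤ 3 → p ∈ G.nb c → v ∈ G.nb c →
          ∀ z ∈ G.nb q, z ≠ p → z ≠ v → z ≠ w → z ∉ G.nb c := by
        intro c Lc cc pc vc z k1 k2 k3 k4 k5
        have wc : w ∈ G.nb c := h.part hvw vc (tw_ne_low ⟨v, hwv⟩ Lc).symm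
        have h1 := len_le (S := G.nb c ∩ G.nb q) [p, v, w, z] (by
          simp only [List.nodup_cons, List.mem_cons, List.not_mem_nil, or_false, not_or,
            not_false_iff, List.nodup_nil, and_true]
          exact ⟨⟨v3.symm, w3.symm, Ne.symm k2⟩, ⟨vw, Ne.symm k3⟩, Ne.symm k4⟩) (by
          intro u hu
          simp only [List.mem_cons, List.not_mem_nil, or_false] at hu
          rw [mem_inter]
          rcases hu with rfl | rfl | rfl | rfl
          exacts [⟨pc, ht.1⟩, ⟨vc, hv⟩, ⟨wc, hw⟩, ⟨k5, k1⟩])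
        simp only [List.length_cons, List.length_nil] at h1
        omega
      have fa := full La ca pa hva
      have bp : b ≠ p := (tw_ne_low ⟨q, ht'⟩ Lb).symm
      have bv : b ≠ v := (tw_ne_low ⟨w, hvw⟩ Lb).symm
      have bw : b ≠ w := (tw_ne_low ⟨v, hwv⟩ Lb).symm
      have nab : b ∉ G.nb a := fa b mb bp bv bw
      -- the other low vertex
      have vb : v ∈ G.nb b := by
        rcases h.covq ht mb with k | k | k
        · obtain ⟨z, k1, k2, k3⟩ := k
          rcases lowab z k1 k2 with rfl | rfl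
          · exact absurd k3 nab
          · exact absurd k3 (G.irr _)
        · obtain ⟨v2, w2', k1, k2, k3, k4, k5, k6, k7⟩ := k
          rcases only v2 w2' k1 k3 k4 with rfl | rfl
          · exact G.sym _ _ k6
          · exact G.sym _ _ (Tw_nb5 hwv k6 bv)
        · obtain ⟨-, a', b', k1, k2, k3⟩ := k
          exfalso
          rcases lowab b' k1 k2.2.1 with rfl | rfl
          · refine fa a' k3 ?_ ?_ ?_ (G.sym _ _ (HL_b76 k2))
            · rintro rfl
              exact hT.notHL n9 _ _ _ k2 ⟨q, ht'⟩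
            · rintro rfl
              exact hT.notHL n9 _ _ _ k2 ⟨w, hvw⟩
            · rintro rfl
              exact hT.notHL n9 _ _ _ k2 ⟨v, hwv⟩
          · exact (HL_bt76 k2).2 rfl
      have fb := full Lb cb pb vb
      -- the hubs are covered by the pair
      have hub : ∀ z ∈ G.nb q, z ≠ p → z ≠ v → z ≠ w → ¬ G.Low z → z ∈ G.nb v := by
        intro z k1 k2 k3 k4 k5
        rcases h.covq ht k1 with k | k | k
        · obtain ⟨z', g1, g2, g3⟩ := k
          rcases lowab z' g1 g2 with rfl | rfl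
          · exact absurd g3 (fa z k1 k2 k3 k4)
          · exact absurd g3 (fb z k1 k2 k3 k4)
        · obtain ⟨v2, w2', g1, g2, g3, g4, g5, g6, g7⟩ := k
          rcases only v2 w2' g1 g3 g4 with rfl | rfl
          · exact g6
          · exact Tw_nb5 hwv g6 k3
        · exact absurd k.1 k5
      have hxv := hub x hxq hxp xv xw hx.1
      have hyv := hub y hy y3 yv yw ynl
      have cq := qq_le86 h.n10 ht hvw hv v3
      have hpv : p ∈ G.nb v := G.sym _ _ (Tw_nb5 ht hv v3)
      have h1 := len_le (S := G.nb q ∩ G.nb v) [p, w, a, x, y] (by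
        simp only [List.nodup_cons, List.mem_cons, List.not_mem_nil, or_false, not_or,
          not_false_iff, List.nodup_nil, and_true]
        exact ⟨⟨w3.symm, tw_ne_low ⟨q, ht'⟩ La, hxp.symm, Ne.symm y3⟩,
          ⟨tw_ne_low ⟨v, hwv⟩ La, xw.symm, Ne.symm yw⟩,
          ⟨fun e => hx.1 (e ▸ La), fun e => ynl (e ▸ La)⟩, Ne.symm yx⟩) (by
        intro u hu
        simp only [List.mem_cons, List.not_mem_nil, or_false] at hu
        rw [mem_inter]
        rcases hu with rfl | rfl | rfl | rfl | rfl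
        exacts [⟨ht.1, hpv⟩, ⟨hw, hvw.1⟩, ⟨ma, G.sym _ _ hva⟩, ⟨hxq, hxv⟩, ⟨hy, hyv⟩])
      simp only [List.length_cons, List.length_nil] at h1
      omega
    obtain ⟨z, k1, k2, k3⟩ := lowv
    rcases lowq z k1 k2 with rfl | rfl
    · exact step (Or.inl ⟨rfl, rfl⟩) k3
    · exact step (Or.inr ⟨rfl, rfl⟩) k3
  · -- no pair
    have nopair : ∀ v w, v ∈ G.nb q → G.Tw v w → v ≠ p → False := by
      intro v w k1 k2 k3
      exact hp ⟨v, (hOm v).2 ⟨tw_ne_low ⟨w, k2⟩ L2, tw_ne_low ⟨w, k2⟩ L1, k3, k1⟩, w, k2⟩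
    have covO : ∀ y ∈ (((G.nb q).erase p).erase l1).erase l2, y ∈ G.nb l1 ∨ y ∈ G.nb l2 := by
      intro y hy
      have hyl := nolow y hy
      rw [hOm] at hy
      rcases h.covq ht hy.2.2.2 with k | k | k
      · obtain ⟨z, k1, k2, k3⟩ := k
        rcases lowq z k1 k2 with rfl | rfl
        · exact Or.inl k3
        · exact Or.inr k3
      · obtain ⟨v2, w2', k1, k2, k3, k4, -⟩ := k
        exact (nopair v2 w2' k1 k3 k4).elim
      · exact absurd k.1 hyl
    have bound : ∀ {c d : V}, (G.nb c ∩ G.nb q).card ≤ 3 → p ∈ G.nb c → d ∈ G.nb c →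
        d ∈ G.nb q → d ≠ p → (∀ y ∈ (((G.nb q).erase p).erase l1).erase l2, y ≠ d) →
        ((((((G.nb q).erase p).erase l1).erase l2)).filter fun y => y ∈ G.nb c).card ≤ 1 := by
      intro c d k1 k2 k3 k4 k5 k6
      have e1 : ({p, d} : Finset V).card = 2 := card_pair k5.symm
      have e2 : Disjoint ((((((G.nb q).erase p).erase l1).erase l2)).filter
          fun y => y ∈ G.nb c) {p, d} := by
        rw [disjoint_left]
        intro y hy hy'
        rw [mem_filter] at hy
        rw [mem_insert, mem_singleton] at hy'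
        rcases hy' with e | e
        · exact ((hOm y).1 hy.1).2.2.1 e
        · exact k6 y hy.1 e
      have e3 : ((((((G.nb q).erase p).erase l1).erase l2)).filter fun y => y ∈ G.nb c) ∪
          {p, d} ⊆ G.nb c ∩ G.nb q := by
        intro y hy
        rw [mem_inter]
        rcases mem_union.1 hy with hy | hy
        · rw [mem_filter] at hy
          exact ⟨hy.2, ((hOm y).1 hy.1).2.2.2⟩
        · rw [mem_insert, mem_singleton] at hy
          rcases hy with rfl | rfl
          exacts [⟨k2, ht.1⟩, ⟨k3, k4⟩]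
      have e4 := card_le_card e3
      rw [card_union_of_disjoint e2, e1] at e4
      omega
    have bound2 : ∀ {c : V}, (G.nb c ∩ G.nb q).card ≤ 3 → p ∈ G.nb c →
        ((((((G.nb q).erase p).erase l1).erase l2)).filter fun y => y ∈ G.nb c).card ≤ 2 := by
      intro c k1 k2
      have e2 : Disjoint ((((((G.nb q).erase p).erase l1).erase l2)).filter
          fun y => y ∈ G.nb c) {p} := by
        rw [disjoint_left]
        intro y hy hy'
        rw [mem_filter] at hy
        rw [mem_singleton] at hy'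
        exact ((hOm y).1 hy.1).2.2.1 hy'
      have e3 : ((((((G.nb q).erase p).erase l1).erase l2)).filter fun y => y ∈ G.nb c) ∪
          {p} ⊆ G.nb c ∩ G.nb q := by
        intro y hy
        rw [mem_inter]
        rcases mem_union.1 hy with hy | hy
        · rw [mem_filter] at hy
          exact ⟨hy.2, ((hOm y).1 hy.1).2.2.2⟩
        · rw [mem_singleton] at hy
          subst hy
          exact ⟨k2, ht.1⟩
      have e4 := card_le_card e3
      rw [card_union_of_disjoint e2, card_singleton] at e4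
      omega
    have hun : (((G.nb q).erase p).erase l1).erase l2 ⊆
        (((((G.nb q).erase p).erase l1).erase l2).filter fun y => y ∈ G.nb l1) ∪
        (((((G.nb q).erase p).erase l1).erase l2).filter fun y => y ∈ G.nb l2) := by
      intro y hy
      rw [mem_union, mem_filter, mem_filter]
      exact (covO y hy).imp (fun e => ⟨hy, e⟩) (fun e => ⟨hy, e⟩)
    have f0 := card_le_card hun
    have f1 := card_union_add_card_inter
      (((((G.nb q).erase p).erase l1).erase l2).filter fun y => y ∈ G.nb l1)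
      (((((G.nb q).erase p).erase l1).erase l2).filter fun y => y ∈ G.nb l2)
    have b1 := bound2 c1 p1
    have b2 := bound2 c2 p2
    have hdis : (((((G.nb q).erase p).erase l1).erase l2).filter fun y => y ∈ G.nb l1) ∩
        (((((G.nb q).erase p).erase l1).erase l2).filter fun y => y ∈ G.nb l2) = ∅ := by
      rw [← Finset.card_eq_zero]
      omega
    have nadj : l2 ∉ G.nb l1 := by
      intro k
      have := bound c1 p1 k m2 pl2.symm (fun y hy => ((hOm y).1 hy).1)
      omega
    rcases h.covq ht m1 with k | k | k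
    · obtain ⟨z, k1, k2, k3⟩ := k
      rcases lowq z k1 k2 with rfl | rfl
      · exact G.irr _ k3
      · exact nadj (G.sym _ _ k3)
    · obtain ⟨v2, w2', k1, k2, k3, k4, -⟩ := k
      exact nopair v2 w2' k1 k3 k4
    · obtain ⟨-, a, b, k1, k2, k3⟩ := k
      rcases lowq b k1 k2.2.1 with rfl | rfl
      · exact (HL_bt76 k2).2 rfl
      · have g1 : a ∈ (((G.nb q).erase p).erase l1).erase b := (hOm a).2
          ⟨fun e => HL_not_low76 k2 (e ▸ L2), fun e => HL_not_low76 k2 (e ▸ L1), by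
            rintro rfl
            exact hT.notHL n9 _ _ _ k2 ⟨q, ht'⟩, k3⟩
        have g2 : a ∈ (((((G.nb q).erase p).erase l1).erase b).filter fun y => y ∈ G.nb l1) ∩
            (((((G.nb q).erase p).erase l1).erase b).filter fun y => y ∈ G.nb b) := by
          rw [mem_inter, mem_filter, mem_filter]
          exact ⟨⟨g1, G.sym _ _ (HL_t76 k2)⟩, g1, G.sym _ _ (HL_b76 k2)⟩
        rw [hdis] at g2
        exact notMem_empty _ g2

end CG

end Pool.Agent.Lib.MP_e95c01_co.N
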