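import Pool.Agent.Lib.MP_e95c01_co.X.StmtsS87
import Pool.Agent.Lib.MP_e95c01_co.X.StBal50
import Pool.Agent.Lib.MP_e95c01_co.U.StThin1_1

/-!
# S1: the sum of the balances of a thin torso
-/

namespace Pool.Agent.Lib.MP_e95c01_co.N

open Finset

variable {V : Type} [Fintype V] [DecidableEq V]

namespace CG

variable {G : CG V} {A B : Finset V}

theorem Strip.st1_53 (h : G.Strip A B) : G.St1 A B := ⟨h.ne, h.reg, h.sub⟩

/-- balance of a vertex of `K0 A B` -/
theorem St1.balK53 (h : G.St1 A B) {x : V} (hx : x ∈ G.K0 A B) :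
    G.bal5 {A, B} x = G.B5 A x + G.phi A x := by
  have hI := St1.IA hx
  have hR : x ∈ R ({A, B} : Finset (Finset V)) := memR2_1.2 (h.NA (mem_sdiff.1 hx).1)
  rw [bal_single50 h.reg hR hI]
  rfl

/-- sum over the neighbours of a common vertex -/
theorem St1.sumC53 (h : G.St1 A B) {c : V} (hc : c ∈ G.Cc A B) :
    ∑ x ∈ G.nR {A, B} c, (2 - (G.m {A, B} x c : ℤ)) =
      ((G.nb c ∩ (G.K0 A B ∪ G.K0 B A)).card : ℤ) := by
  have hI := St1.IC hc
  have hnR : G.nR {A, B} c = (G.nb c ∩ (G.K0 A B ∪ G.K0 B A)) ∪ (G.nb c ∩ G.Cc A B) := by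
    unfold nR K0 Cc
    rw [h.R_eq, inter_union_distrib_left]
  have hdis : Disjoint (G.nb c ∩ (G.K0 A B ∪ G.K0 B A)) (G.nb c ∩ G.Cc A B) := by
    rw [disjoint_left]
    intro v h1 h2
    have h3 := mem_inter.1 (mem_inter.1 h2).2
    rcases mem_union.1 (mem_inter.1 h1).2 with h4 | h4
    · exact (mem_sdiff.1 h4).2 h3.2
    · exact (mem_sdiff.1 h4).2 h3.1
  have h1 : ∀ x ∈ G.nb c ∩ G.Cc A B, (2 - (G.m {A, B} x c : ℤ)) = 0 := by
    intro x hx
    have h3 : G.m {A, B} x c = 2 := by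
      unfold m
      rw [St1.IC (mem_inter.1 hx).2, hI, inter_self, card_pair h.ne]
    rw [h3]
    norm_num
  have h2 : ∀ x ∈ G.nb c ∩ (G.K0 A B ∪ G.K0 B A), (2 - (G.m {A, B} x c : ℤ)) = 1 := by
    intro x hx
    have h3 : G.m {A, B} x c = 1 := by
      unfold m
      rcases mem_union.1 (mem_inter.1 hx).2 with h4 | h4
      · rw [St1.IA h4, hI, singleton_inter_of_mem (mem_insert_self _ _), card_singleton]
      · have h6 : G.I {A, B} x = {B} := by
          rw [pair_comm]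
          exact St1.IA h4
        rw [h6, hI, singleton_inter_of_mem (by simp), card_singleton]
    rw [h3]
    norm_num
  rw [hnR, sum_union hdis, sum_congr rfl h1, sum_congr rfl h2, sum_const, sum_const]
  simp

/-- balance of a common vertex -/
theorem St1.balC53 (h : G.St1 A B) {c : V} (hc : c ∈ G.Cc A B) :
    G.bal5 {A, B} c = G.c5 c * ((G.nb c ∩ (G.K0 A B ∪ G.K0 B A)).card : ℤ) + G.ps5 A B c := by
  have hI := St1.IC hc
  have h1 := h.sumC53 hc
  unfold bal5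
  rw [h1, hI, card_pair h.ne, sum_pair h.ne]
  unfold ps5 phi
  push_cast
  ring

theorem pair_sum53 (h : G.St1 A B) : ∑ z ∈ R ({A, B} : Finset (Finset V)), G.bal5 {A, B} z =
    ∑ x ∈ G.K0 A B, (G.B5 A x + G.phi A x) + ∑ y ∈ G.K0 B A, (G.B5 B y + G.phi B y) +
      ∑ c ∈ G.Cc A B, (G.c5 c * ((G.nb c ∩ (G.K0 A B ∪ G.K0 B A)).card : ℤ) + G.ps5 A B c) := by
  rw [h.sum]
  congr 1
  · congr 1
    · exact sum_congr rfl fun x hx => h.balK53 hx
    · refine sum_congr rfl fun x hx => ?_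
      rw [pair_comm]
      exact h.symm.balK53 hx
  · exact sum_congr rfl fun x hx => h.balC53 hx

/-- S1 -/
theorem stTotS_53 (G : CG V) (hUn : G.StUn5) : G.StTotS := by
  classical
  intro A B hst
  have h := hst.st1_53
  rw [pair_sum53 h]
  have hsplit : ∑ c ∈ G.Cc A B, (G.c5 c * ((G.nb c ∩ (G.K0 A B ∪ G.K0 B A)).card : ℤ) +
      G.ps5 A B c) =
      ∑ c ∈ (G.Cc A B).filter (fun c => G.Tch A B c),
        (G.c5 c * ((G.nb c ∩ (G.K0 A B ∪ G.K0 B A)).card : ℤ) + G.ps5 A B c) +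
      ∑ c ∈ (G.Cc A B).filter (fun c => ¬ G.Tch A B c), G.ps5 A B c := by
    rw [← sum_filter_add_sum_filter_not (G.Cc A B) (fun c => G.Tch A B c)]
    congr 1
    refine sum_congr rfl fun c hc => ?_
    rw [mem_filter] at hc
    have h1 : G.nb c ∩ (G.K0 A B ∪ G.K0 B A) = ∅ := by
      rw [← not_nonempty_iff_eq_empty]
      exact fun h2 => hc.2 ⟨hc.1, h2⟩
    rw [h1, card_empty]
    push_cast
    ring
  have hnet : ∑ c ∈ (G.Cc A B).filter (fun c => G.Tch A B c), G.net5 A B c =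
      ∑ c ∈ (G.Cc A B).filter (fun c => G.Tch A B c),
        (G.c5 c * ((G.nb c ∩ (G.K0 A B ∪ G.K0 B A)).card : ℤ) + G.ps5 A B c) +
      ∑ c ∈ (G.Cc A B).filter (fun c => G.Tch A B c),
        ∑ z ∈ (G.Cc A B).filter (fun z => ¬ G.Tch A B z ∧ G.nb z ∩ G.Cc A B = {c}),
          min (G.ps5 A B z) 0 := by
    rw [← sum_add_distrib]
    refine sum_congr rfl fun c _ => ?_
    unfold net5 e5
    ring
  have hswap : ∑ c ∈ (G.Cc A B).filter (fun c => G.Tch A B c),
        ∑ z ∈ (G.Cc A B).filter (fun z => ¬ G.Tch A B z ∧ G.nb z ∩ G.Cc A B = {c}),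
          min (G.ps5 A B z) 0 =
      ∑ z ∈ (G.Cc A B).filter (fun z => ¬ G.Tch A B z),
        ∑ c ∈ (G.Cc A B).filter (fun c => G.Tch A B c ∧ G.nb z ∩ G.Cc A B = {c}),
          min (G.ps5 A B z) 0 := by
    apply sum_comm'
    intro c z
    simp only [mem_filter]
    tauto
  have hle : ∑ z ∈ (G.Cc A B).filter (fun z => ¬ G.Tch A B z),
        ∑ c ∈ (G.Cc A B).filter (fun c => G.Tch A B c ∧ G.nb z ∩ G.Cc A B = {c}),
          min (G.ps5 A B z) 0 ≤
      ∑ z ∈ (G.Cc A B).filter (fun z => ¬ G.Tch A B z), G.ps5 A B z := by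
    refine sum_le_sum fun z hz => ?_
    rw [mem_filter] at hz
    rw [sum_const, nsmul_eq_mul]
    by_cases h0 : 0 ≤ G.ps5 A B z
    · rw [min_eq_right h0, mul_zero]
      exact h0
    · push Not at h0
      obtain ⟨v, -, hv, -, -, hvt, -⟩ := hUn A B hst z hz.1 hz.2 h0
      have hmem : v ∈ (G.Cc A B).filter
          (fun c => G.Tch A B c ∧ G.nb z ∩ G.Cc A B = {c}) :=
        mem_filter.2 ⟨hvt.1, hvt, hv⟩
      have h1 : (1 : ℤ) ≤ (((G.Cc A B).filter
          (fun c => G.Tch A B c ∧ G.nb z ∩ G.Cc A B = {c})).card : ℤ) := by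
        exact_mod_cast card_pos.2 ⟨v, hmem⟩
      rw [min_eq_left h0.le]
      nlinarith
  rw [hsplit, hnet, hswap]
  linarith

end CG

end Pool.Agent.Lib.MP_e95c01_co.N
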