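import Pool.Agent.Lib.MP_e95c01_co.X.StMnV_96
import Pool.Agent.Lib.MP_e95c01_co.X.StmtsT76

/-!
# V7, V8 from the thick torsos with at least 13 vertices
-/

set_option autoImplicit false

namespace Pool.Agent.Lib.MP_e95c01_co.N

open Finset

variable {V : Type} [Fintype V] [DecidableEq V]

namespace CG

/-- V5 for graphs with at least 13 vertices -/
theorem stThV_of13_96 (G : CG V) (hM : G.StM9) (h13 : 13 ≤ Fintype.card V) : G.StThV :=
  fun Fa hG => hM Fa ⟨hG, h13⟩

/-- V7: the main lemma -/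
theorem stMnT_96 (G : CG V) (hst : G.StStruct) (hsm : G.StSmall) (hcovU : G.StCovU)
    (hid : G.StId5) (hps : G.StPs5) (hK : G.StKadd) (hK4 : G.StK4k) (ht1 : G.StTh1_5)
    (ht23 : G.StTh23) (h3 : G.StF5) (h4' : G.StF6) (h5' : G.StF7) (hLs : G.StLSit)
    (hLB : G.StLBas) (hM : G.StM9) : G.StMnV := by
  by_cases h13 : 13 ≤ Fintype.card V
  · exact G.stMnV_96 hst hsm hcovU hid hps hK hK4 ht1 ht23 h3 h4' h5' hLs hLB
      (G.stThV_of13_96 hM h13)
  · intro hcr hsat F hF
    have hcardV := G.card_V37 hF.1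
    have hF3 := hF.2.1
    have hCF3 := hF.2.2
    have hc3 : F.card = 3 := by omega
    have hkap : (0 : ℤ) ≤ (G.kap F : ℤ) := Int.natCast_nonneg _
    have h := h3 hsat F hF hc3 (by
      intro z hz v hv hvF
      by_contra hcov
      rcases hst hcr F hF z hz v hv hcov with ⟨B, hB, hBF, -⟩ | ⟨-, h⟩
      · have h1 := card_lt_card hBF
        have h2 := hB.2.1
        omega
      · exact hvF h)
    linarith

/-- V8: saturated graphs -/
theorem stStT_96 (G : CG V) (hm : G.StMnV) (hsm : G.StSmall) (hcovU : G.StCovU)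
    (hid : G.StId5) (hps : G.StPs5) (htot : G.StTot5) (hK : G.StKadd) (hM : G.StM9)
    (hS : G.StS12) : G.StStV := by
  by_cases h13 : 13 ≤ Fintype.card V
  · exact G.stStV_96 hm hsm hcovU hid hps htot hK (G.stThV_of13_96 hM h13)
  · intro hcr hsat h9
    by_cases hex : ∃ F, G.Big F
    · suffices h : -6 * (G.kap univ : ℤ) ≤ ∑ v : V, 2 * G.a5 v by
        rw [htot] at h
        linarith
      obtain ⟨F, hF⟩ := hex
      obtain ⟨hCf, hCN, hCC⟩ := G.stCo_37 F hF.1
      have hC : G.Big (G.Co F) := ⟨hCf, hF.2.2, by rw [hCC]; exact hF.2.1⟩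
      have h1 := hm hcr hsat F hF
      have h2 := hm hcr hsat _ hC
      have h3 : (G.kap F : ℤ) + (G.kap (G.Co F) : ℤ) ≤ (G.kap univ : ℤ) := by
        exact_mod_cast hK.co F
      rw [← hps F hF.1]
      linarith
    · push Not at hex
      exact hS hcr hsat h9 (by omega) hex

end CG

end Pool.Agent.Lib.MP_e95c01_co.N
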