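import Pool.Agent.Lib.MP_e95c01_co.X.StmtsV76
import Pool.Agent.Lib.MP_e95c01_co.U.MainU37
import Pool.Agent.Lib.MP_e95c01_co.T.Aux76

/-!
# V7, V8: the main lemma with budgets, saturated graphs
-/

set_option autoImplicit false

namespace Pool.Agent.Lib.MP_e95c01_co.N

open Finset

variable {V : Type} [Fintype V] [DecidableEq V]

namespace CG

/-- V7: the main lemma -/
theorem stMnV_96 (G : CG V) (hst : G.StStruct) (hsm : G.StSmall) (hcovU : G.StCovU)
    (hid : G.StId5) (hps : G.StPs5) (hK : G.StKadd) (hK4 : G.StK4k) (ht1 : G.StTh1_5)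
    (ht23 : G.StTh23) (h3 : G.StF5) (h4' : G.StF6) (h5' : G.StF7) (hLs : G.StLSit)
    (hLB : G.StLBas) (hV : G.StThV) : G.StMnV := by
  classical
  have h6 := G.stN6_37
  have hco := G.stCo_37
  have hfam := G.stFamE_37 h6 G.stUnion_37 hst
  intro hcr hsat F
  induction hn : F.card using Nat.strong_induction_on generalizing F with
  | _ n ih =>
  intro hF
  subst hn
  have hcardV := G.card_V37 hF.1
  have hF3 := hF.2.1
  have hCF3 := hF.2.2
  have hn9 : 9 ≤ Fintype.card V := by omega
  have hkap : (0 : ℤ) ≤ (G.kap F : ℤ) := Int.natCast_nonneg _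
  by_cases hc3 : F.card = 3
  · have h := h3 hsat F hF hc3 (by
      intro z hz v hv hvF
      by_contra hcov
      rcases hst hcr F hF z hz v hv hcov with ⟨B, hB, hBF, -⟩ | ⟨-, h⟩
      · have h1 := card_lt_card hBF
        have h2 := hB.2.1
        omega
      · exact hvF h)
    linarith
  have h4 : 4 ≤ F.card := by omega
  obtain ⟨Fa, a1, a2, a3, a4, a5, a6, a7⟩ := hfam hcr F hF h4
  -- leaves
  have hcovL : Fa = ∅ → ∀ z ∈ F, ∀ v ∈ G.nb z, G.SCov z v := by
    intro hFa z hz v hv
    by_contra hcov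
    obtain ⟨A, hA, -⟩ := a3 z hz (by simp [hFa]) v hv hcov
    simp [hFa] at hA
  by_cases hsml : Fa = ∅ ∧ F.card ≤ 5
  · obtain ⟨hFa, h5⟩ := hsml
    have hcov := hcovL hFa
    rcases (by omega : F.card = 4 ∨ F.card = 5) with h | h
    · rcases h4' hsat F hF h (a6 hFa) hcov with h7 | ⟨h7, h8⟩
      · linarith
      · have h9 : (1 : ℤ) ≤ (G.kap F : ℤ) := by exact_mod_cast hK4 hn9 F hF.1 h7
        linarith
    · have := h5' hsat F hF h (a6 hFa) hcov
      linarith
  have hlf : Fa = ∅ → 6 ≤ F.card ∧ G.Lf F := by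
    intro hFa
    refine ⟨?_, hLs hsat F hF h4 (a6 hFa) (hcovL hFa)⟩
    by_contra h
    exact hsml ⟨hFa, by omega⟩
  -- the family with the opposite side
  obtain ⟨hCf, hCN, hCC⟩ := hco F hF.1
  have hCoF : ∀ A ∈ Fa, Disjoint (G.Co F) A := by
    intro A hA
    rw [disjoint_left]
    intro v hv hvA
    exact (mem_Co37.1 hv).1 ((a1 A hA).2.1 hvA)
  have hCne : ∀ A ∈ Fa, G.Co F ≠ A := by
    intro A hA h
    obtain ⟨v, hv⟩ := (a1 A hA).1.1.1
    exact (disjoint_left.1 (hCoF A hA)) (by rw [h]; exact hv) hv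
  have hCnot : G.Co F ∉ Fa := fun h => hCne _ h rfl
  have hNCo : ∀ A ∈ Fa, Disjoint (G.N A) (G.Co F) := by
    intro A hA
    rw [disjoint_left]
    intro v hv hvC
    rcases mem_union.1 (N_subset37 (a1 A hA).2.1 hv) with h | h
    · exact (mem_Co37.1 hvC).1 h
    · exact (mem_Co37.1 hvC).2 h
  set Fb := insert (G.Co F) Fa with hFb
  have hreg : G.Reg Fb := by
    constructor
    · intro B hB
      rcases mem_insert.1 hB with rfl | hB
      · exact hCf
      · exact (a1 B hB).1.1
    · intro B hB B' hB' hne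
      rcases mem_insert.1 hB with h1 | h1
      · rcases mem_insert.1 hB' with h2 | h2
        · exact absurd (h1.trans h2.symm) hne
        · rw [h1, hCN]
          refine ⟨hCoF B' h2, ?_⟩
          rw [disjoint_left]
          intro v hv hvB
          exact (mem_N37.1 hv).1 ((a1 B' h2).2.1 hvB)
      · rcases mem_insert.1 hB' with h2 | h2
        · rw [h2]
          exact ⟨(hCoF B h1).symm, hNCo B h1⟩
        · exact a2 B h1 B' h2 hne
  have hbig3 : ∀ B ∈ Fb, 3 ≤ B.card := by
    intro B hB
    rcases mem_insert.1 hB with rfl | hB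
    · exact hCF3
    · exact (a1 B hB).1.2.1
  have hR : ∀ z, z ∈ R Fb ↔ z ∉ G.Co F ∧ ∀ A ∈ Fa, z ∉ A := by
    intro z
    rw [R, mem_compl, mem_biUnion]
    constructor
    · intro h
      refine ⟨fun h1 => h ⟨G.Co F, mem_insert_self _ _, h1⟩, fun A hA h1 => ?_⟩
      exact h ⟨A, mem_insert_of_mem hA, h1⟩
    · rintro ⟨h1, h2⟩ ⟨A, hA, h3⟩
      rcases mem_insert.1 hA with rfl | hA
      · exact h1 h3
      · exact h2 A hA h3
  have hIC : ∀ z, G.Co F ∈ G.I Fb z ↔ z ∈ G.N F := by
    intro z
    rw [I, mem_filter, hCN]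
    simp [hFb]
  have hIA : ∀ z, ∀ A ∈ Fa, (A ∈ G.I Fb z ↔ z ∈ G.N A) := by
    intro z A hA
    rw [I, mem_filter]
    simp [hFb, hA]
  have hinF : ∀ z ∈ R Fb, G.Co F ∉ G.I Fb z → z ∈ F := by
    intro z hz h
    rw [hIC] at h
    by_contra hzF
    exact ((hR z).1 hz).1 (mem_Co37.2 ⟨hzF, h⟩)
  -- expansion, with one exception
  have hexp : ∀ B ∈ Fb, ∀ Z : Finset V, Z.Nonempty → Z.card ≤ 3 →
      (∀ y ∈ Z, y ∈ R Fb ∧ G.I Fb y = {B}) →
      Z.card < (G.N Z ∩ G.Co B).card ∨
        ∃ B1, Fa = {B1} ∧ F \ B1 = G.N B1 ∩ F ∧ Z.card = (F \ B1).card := by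
    intro B hB Z hZ hZ3 hK
    rcases mem_insert.1 hB with h1 | h1
    · rw [h1, hCC]
      have hZF : Z ⊆ G.N F := by
        intro z hz
        rw [← hIC z, (hK z hz).2, h1]
        exact mem_singleton_self _
      by_cases hFa : Fa = ∅
      · -- a leaf
        left
        obtain ⟨hF6, hL⟩ := hlf hFa
        by_cases hne : (G.FZ F Z).Nonempty
        · obtain ⟨e1, e2⟩ := hLB.exp F hL Z hZF hZ hne
          rcases Nat.lt_or_ge Z.card (G.N Z ∩ F).card with e3 | e3
          · exact e3
          · exfalso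
            have e4 : Z.card = (G.N Z ∩ F).card := le_antisymm e1 e3
            obtain ⟨e5, -, -⟩ := e2 e4
            have e6 : (F \ G.N Z).card + (F ∩ G.N Z).card = F.card :=
              card_sdiff_add_card_inter _ _
            have e7 : (F ∩ G.N Z).card = (G.N Z ∩ F).card := by rw [inter_comm]
            have e8 : (G.FZ F Z).card = (F \ G.N Z).card := rfl
            omega
        · have e1 : F \ G.N Z = ∅ := not_nonempty_iff_eq_empty.1 hne
          have e2 : F ⊆ G.N Z ∩ F := fun v hv =>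
            mem_inter.2 ⟨sdiff_eq_empty_iff_subset.1 e1 hv, hv⟩
          have e3 := card_le_card e2
          omega
      have hFane : Fa.Nonempty := nonempty_iff_ne_empty.2 hFa
      have hZA : ∀ z ∈ Z, ∀ A ∈ Fa, z ∉ G.N A := by
        intro z hz A hA h
        have h2 := (hIA z A hA).2 h
        rw [(hK z hz).2, h1, mem_singleton] at h2
        exact hCne A hA h2.symm
      rcases a5 hFane Z hZ hZF hZA with h2 | ⟨B1, hB1, h2, h3⟩
      · exact Or.inl h2
      right
      refine ⟨B1, hB1, ?_, h3.symm⟩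
      have hB1m : B1 ∈ Fa := by rw [hB1]; exact mem_singleton_self _
      symm
      apply eq_of_subset_of_card_le
      · intro v hv
        rw [mem_inter] at hv
        exact mem_sdiff.2 ⟨hv.2, (mem_N37.1 hv.1).1⟩
      · rw [h3]
        have h4 : Z ⊆ G.N F \ G.N B1 := fun z hz =>
          mem_sdiff.2 ⟨hZF hz, hZA z hz B1 hB1m⟩
        have h5 := card_le_card h4
        have h7 : (G.N F \ G.N B1).card + (G.N F ∩ G.N B1).card = 6 := by
          rw [← hF.1.2.1]
          exact card_sdiff_add_card_inter _ _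
        have h8 : (G.N B1 ∩ F).card + (G.N F ∩ G.N B1).card = 6 := by
          rw [← (a1 B1 hB1m).1.1.2.1, ← card_union_of_disjoint]
          · congr 1
            ext v
            rw [mem_union, mem_inter, mem_inter]
            constructor
            · rintro (h | h)
              · exact h.1
              · exact h.2
            · intro h
              rcases mem_union.1 (N_subset37 (a1 B1 hB1m).2.1 h) with h9 | h9
              · exact Or.inl ⟨h, h9⟩
              · exact Or.inr ⟨h9, h⟩
          · rw [disjoint_left]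
            intro v hv hv'
            rw [mem_inter] at hv hv'
            exact (mem_N37.1 hv'.1).1 hv.2
        omega
    · have hzF : Z ⊆ F := by
        intro z hz
        apply hinF z (hK z hz).1
        rw [(hK z hz).2, mem_singleton]
        exact hCne B h1
      have hzB : Z ⊆ G.N B := by
        intro z hz
        rw [← hIA z B h1, (hK z hz).2]
        exact mem_singleton_self _
      have hzA : ∀ z ∈ Z, ∀ A ∈ Fa, A ≠ B → z ∉ G.N A := by
        intro z hz A hA hAB h
        have h2 := (hIA z A hA).2 h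
        rw [(hK z hz).2, mem_singleton] at h2
        exact hAB h2
      rcases a4 B h1 Z hZ hzF hzB hzA with h2 | ⟨h2, h3⟩
      · exact Or.inl h2
      right
      refine ⟨B, h2, ?_, by rw [h3]⟩
      ext v
      rw [mem_inter, ← h3]
      constructor
      · intro h
        exact ⟨hzB h, hzF h⟩
      · rintro ⟨h5, h7⟩
        rw [h3, mem_sdiff]
        exact ⟨h7, (mem_N37.1 h5).1⟩
  -- every edge of `R` with `m = 0` is small-covered
  have hscov : ∀ x ∈ R Fb, ∀ z ∈ R Fb, z ∈ G.nb x → G.m Fb x z = 0 → G.SCov x z := by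
    intro x hx z hz hxz hm
    rw [m, card_eq_zero] at hm
    have key : ∀ x' ∈ R Fb, ∀ z' ∈ R Fb, z' ∈ G.nb x' → G.I Fb x' ∩ G.I Fb z' = ∅ → x' ∈ F →
        G.SCov x' z' := by
      intro x' hx' z' hz' hxz' hm' hxF
      by_contra hc
      obtain ⟨A, hA, h1, h2⟩ := a3 x' hxF ((hR x').1 hx').2 z' hxz' hc
      rcases h2 with h2 | h2
      · exact ((hR z').1 hz').2 A hA h2
      · have h3 : A ∈ G.I Fb x' ∩ G.I Fb z' :=
          mem_inter.2 ⟨(hIA x' A hA).2 h1, (hIA z' A hA).2 h2⟩
        rw [hm'] at h3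
        exact notMem_empty _ h3
    by_cases hxF : x ∈ F
    · exact key x hx z hz hxz hm hxF
    by_cases hzF : z ∈ F
    · have hs := key z hz x hx (G.sym _ _ hxz) (by rw [inter_comm]; exact hm) hzF
      obtain ⟨E, h1, h2, h3, h4⟩ := hs
      exact ⟨E, h1, h2, h4, h3⟩
    · exfalso
      have h1 : G.Co F ∈ G.I Fb x ∩ G.I Fb z := by
        refine mem_inter.2 ⟨?_, ?_⟩
        · by_contra h
          exact hxF (hinF x hx h)
        · by_contra h
          exact hzF (hinF z hz h)
      rw [hm] at h1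
      exact notMem_empty _ h1
  have hIB : ∀ z, ∀ B, G.I Fb z = {B} → B ∈ Fb := by
    intro z B hI
    have : B ∈ G.I Fb z := by rw [hI]; exact mem_singleton_self _
    exact (mem_filter.1 this).1
  -- the identity
  have hid' := hid Fb hreg
  rw [hFb, sum_insert hCnot, ← hFb] at hid'
  have hps' := hps F hF.1
  have hnn : -6 * ∑ A ∈ Fa, (G.kap A : ℤ) ≤ ∑ A ∈ Fa, G.P5 A := by
    rw [mul_sum]
    apply sum_le_sum
    intro A hA
    exact ih A.card (card_lt_card (a1 A hA).2) A rfl (a1 A hA).1
  have hsum : (∑ A ∈ Fa, (G.kap A : ℤ)) + (G.cen Fb : ℤ) ≤ (G.kap F : ℤ) := by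
    have h := hK.sum F hF.1 Fa (fun A hA => (a1 A hA).2.1)
      (fun A hA A' hA' hne => (a2 A hA A' hA' hne).1)
    exact_mod_cast h
  -- the generic case
  by_cases hthin : ∃ B1, Fa = {B1} ∧ F \ B1 = G.N B1 ∩ F ∧ (F \ B1).card ≤ 3
  swap
  · have hall : ∀ B ∈ Fb, ∀ Z : Finset V, Z.Nonempty → Z.card ≤ 3 →
        (∀ y ∈ Z, y ∈ R Fb ∧ G.I Fb y = {B}) → Z.card < (G.N Z ∩ G.Co B).card := by
      intro B hB Z hZ hZ3 hK
      rcases hexp B hB Z hZ hZ3 hK with h | ⟨B1, h1, h2, h3'⟩
      · exact h
      · exact absurd ⟨B1, h1, h2, by omega⟩ hthin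
    have hw : ∀ z ∈ R Fb, ∀ B, G.I Fb z = {B} → 2 ≤ G.d z (G.Co B) := by
      intro z hz B hI
      have h1 := hall B (hIB z B hI) {z} (singleton_nonempty _) (by simp) (by
        intro y hy
        rw [mem_singleton] at hy
        rw [hy]
        exact ⟨hz, hI⟩)
      rw [card_singleton, N_single37] at h1
      exact h1
    have hG : G.Gen5 Fb := by
      refine ⟨hreg, hbig3, hn9, hcr, hsat, fun x hx z hz hxz hm =>
        hcovU hsm Fb hreg hw x hx z hz hxz hm (hscov x hx z hz hxz hm), hall, ?_⟩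
      intro B hB hBI
      have hBF : B ⊆ F := by
        intro z hz
        obtain ⟨h1, h2⟩ := hBI z hz
        apply hinF z h1
        rw [h2]
        exact notMem_empty _
      by_cases hFa : Fa = ∅
      · have hBe : B = F := by
          by_contra hne
          exact a6 hFa B hB (hBF.ssubset_of_ne hne)
        refine ⟨by rw [hBe]; exact (hlf hFa).1, G.Co F, mem_insert_self _ _, ?_⟩
        rw [hCC]
        exact hBe
      · exfalso
        obtain ⟨A, hA, h1⟩ := a7 (nonempty_iff_ne_empty.2 hFa) B hB hBF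
        apply h1
        rw [disjoint_left]
        intro v hv hv'
        obtain ⟨h2, h3'⟩ := hBI v hv
        rcases mem_union.1 hv' with h7 | h7
        · exact ((hR v).1 h2).2 A hA h7
        · have h8 := (hIA v A hA).2 h7
          rw [h3'] at h8
          exact notMem_empty _ h8
    have := hV Fb hG
    linarith
  obtain ⟨B1, hB1, hth, hth3⟩ := hthin
  have hB1m : B1 ∈ Fa := by rw [hB1]; exact mem_singleton_self _
  have hFb2 : Fb = {G.Co F, B1} := by rw [hFb, hB1]
  have hexp' : ∀ B ∈ Fb, ∀ Z : Finset V, Z.Nonempty → Z.card < (F \ B1).card →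
      (∀ y ∈ Z, y ∈ R Fb ∧ G.I Fb y = {B}) → Z.card < (G.N Z ∩ G.Co B).card := by
    intro B hB Z hZ hlt hK
    rcases hexp B hB Z hZ (by omega) hK with h | ⟨B2, h1, h2, h3'⟩
    · exact h
    · exfalso
      have : B2 = B1 := by
        have h5 : B1 ∈ ({B2} : Finset (Finset V)) := by rw [← h1]; exact hB1m
        exact (mem_singleton.1 h5).symm
      rw [this] at h3'
      omega
  have h7 : (G.N F \ G.N B1).card + (G.N F ∩ G.N B1).card = 6 := by
    rw [← hF.1.2.1]
    exact card_sdiff_add_card_inter _ _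
  have h8 : (G.N B1 ∩ F).card + (G.N F ∩ G.N B1).card = 6 := by
    rw [← (a1 B1 hB1m).1.1.2.1, ← card_union_of_disjoint]
    · congr 1
      ext v
      rw [mem_union, mem_inter, mem_inter]
      constructor
      · rintro (h | h)
        · exact h.1
        · exact h.2
      · intro h
        rcases mem_union.1 (N_subset37 (a1 B1 hB1m).2.1 h) with h9 | h9
        · exact Or.inl ⟨h, h9⟩
        · exact Or.inr ⟨h9, h⟩
    · rw [disjoint_left]
      intro v hv hv'
      rw [mem_inter] at hv hv'
      exact (mem_N37.1 hv'.1).1 hv.2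
  have hstrip : G.Strip (G.Co F) B1 := by
    refine ⟨hCne B1 hB1m, by rw [← hFb2]; exact hreg, hCF3, (a1 B1 hB1m).1.2.1, hn9, hsat, ?_⟩
    intro z hz
    rw [← hFb2, hR] at hz
    rw [hCN, mem_union]
    by_cases hzF : z ∈ F
    · right
      have : z ∈ F \ B1 := mem_sdiff.2 ⟨hzF, hz.2 B1 hB1m⟩
      rw [hth] at this
      exact (mem_inter.1 this).1
    · left
      by_contra h
      exact hz.1 (mem_Co37.2 ⟨hzF, h⟩)
  have hP4 : G.P5 F = G.P5 B1 + ∑ z ∈ R {G.Co F, B1}, G.bal5 {G.Co F, B1} z := by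
    rw [← hFb2]
    rw [hB1, sum_singleton] at hid'
    linarith
  have hB1nn : -6 * (G.kap B1 : ℤ) ≤ G.P5 B1 := by
    rw [hB1, sum_singleton, sum_singleton] at hnn
    exact hnn
  have hmono : (G.kap B1 : ℤ) ≤ (G.kap F : ℤ) := by
    exact_mod_cast hK.mono B1 F (a1 B1 hB1m).2.1
  suffices hbal : 0 ≤ ∑ z ∈ R {G.Co F, B1}, G.bal5 {G.Co F, B1} z by linarith
  have hane : (F \ B1).card ≠ 0 := by
    intro h
    rw [card_eq_zero, sdiff_eq_empty_iff_subset] at h
    exact (a1 B1 hB1m).2.2 h
  have ha : (G.N (G.Co F) \ G.N B1).card = (F \ B1).card := by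
    rw [hCN, hth]
    omega
  -- the two sides
  have hK0A : ∀ y, y ∈ G.K0 (G.Co F) B1 ↔ y ∈ G.N F ∧ y ∉ G.N B1 := by
    intro y
    rw [K0, mem_sdiff, hCN]
  have hK0B : ∀ y, y ∈ G.K0 B1 (G.Co F) ↔ y ∈ F ∧ y ∉ B1 := by
    intro y
    rw [K0, mem_sdiff, hCN]
    constructor
    · rintro ⟨h1, h2⟩
      rcases mem_union.1 (N_subset37 (a1 B1 hB1m).2.1 h1) with h9 | h9
      · exact ⟨h9, (mem_N37.1 h1).1⟩
      · exact absurd h9 h2
    · rintro ⟨h1, h2⟩
      have h3' : y ∈ F \ B1 := mem_sdiff.2 ⟨h1, h2⟩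
      rw [hth, mem_inter] at h3'
      exact ⟨h3'.1, fun h => (mem_N37.1 h).1 h1⟩
  have hIa : ∀ y ∈ G.K0 (G.Co F) B1, y ∈ R Fb ∧ G.I Fb y = {G.Co F} := by
    intro y hy
    obtain ⟨h1, h2⟩ := (hK0A y).1 hy
    refine ⟨(hR y).2 ⟨fun h => (mem_Co37.1 h).2 h1, fun A hA h => ?_⟩, ?_⟩
    · exact (mem_N37.1 h1).1 ((a1 A hA).2.1 h)
    · ext A
      rw [mem_singleton]
      constructor
      · intro h
        rcases mem_insert.1 (mem_filter.1 h).1 with h9 | h9
        · exact h9
        · have h10 : A = B1 := by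
            rw [hB1, mem_singleton] at h9
            exact h9
          exact absurd ((hIA y B1 hB1m).1 (by rw [← h10]; exact h)) h2
      · rintro rfl
        exact (hIC y).2 h1
  have hIb : ∀ y ∈ G.K0 B1 (G.Co F), y ∈ R Fb ∧ G.I Fb y = {B1} := by
    intro y hy
    obtain ⟨h1, h2⟩ := (hK0B y).1 hy
    have h3' : y ∈ F \ B1 := mem_sdiff.2 ⟨h1, h2⟩
    rw [hth, mem_inter] at h3'
    refine ⟨(hR y).2 ⟨fun h => (mem_Co37.1 h).1 h1, fun A hA h => ?_⟩, ?_⟩
    · rw [hB1, mem_singleton] at hA
      rw [hA] at h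
      exact h2 h
    · ext A
      rw [mem_singleton]
      constructor
      · intro h
        rcases mem_insert.1 (mem_filter.1 h).1 with h9 | h9
        · exfalso
          rw [h9] at h
          exact (mem_N37.1 ((hIC y).1 h)).1 h1
        · rw [hB1, mem_singleton] at h9
          exact h9
      · rintro rfl
        exact (hIA y _ hB1m).2 h3'.1
  have hNa : ∀ Z : Finset V, Z ⊆ G.K0 (G.Co F) B1 → G.N Z ∩ G.Co (G.Co F) ⊆
      G.K0 B1 (G.Co F) := by
    intro Z hZ v hv
    rw [mem_inter, hCC] at hv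
    rw [hK0B]
    refine ⟨hv.2, fun hvB => ?_⟩
    obtain ⟨-, u, hu, hvu⟩ := mem_N37.1 hv.1
    obtain ⟨h1, h2⟩ := (hK0A u).1 (hZ hu)
    exact h2 (mem_N37.2 ⟨fun h => (mem_N37.1 h1).1 ((a1 B1 hB1m).2.1 h), v, hvB,
      G.sym _ _ hvu⟩)
  have hNb : ∀ Z : Finset V, Z ⊆ G.K0 B1 (G.Co F) → G.N Z ∩ G.Co B1 ⊆
      G.K0 (G.Co F) B1 := by
    intro Z hZ v hv
    rw [mem_inter] at hv
    rw [hK0A]
    obtain ⟨h1, h2⟩ := mem_Co37.1 hv.2
    refine ⟨?_, h2⟩
    obtain ⟨-, u, hu, hvu⟩ := mem_N37.1 hv.1
    obtain ⟨h5, h9⟩ := (hK0B u).1 (hZ hu)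
    refine mem_N37.2 ⟨fun hvF => ?_, u, h5, hvu⟩
    have h10 : v ∈ F \ B1 := mem_sdiff.2 ⟨hvF, h1⟩
    rw [hth, mem_inter] at h10
    exact h2 h10.1
  rcases (by omega : (F \ B1).card = 1 ∨ 2 ≤ (F \ B1).card) with hc | hc
  · -- one vertex
    have hcov1 : ∀ y ∈ G.N B1 \ G.N (G.Co F), ∀ s ∈ G.N (G.Co F) \ G.N B1, s ∈ G.nb y →
        G.SCov y s := by
      intro y hy s hs hys
      obtain ⟨hyR, hyI⟩ := hIb y hy
      obtain ⟨hsR, hsI⟩ := hIa s hs
      apply hscov y hyR s hsR hys
      rw [m, hyI, hsI, card_eq_zero, eq_empty_iff_forall_notMem]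
      intro A hA
      rw [mem_inter, mem_singleton, mem_singleton] at hA
      exact hCne B1 hB1m (hA.2.symm.trans hA.1)
    exact ht1 (G.Co F) B1 hstrip (by rw [ha]; exact hc) hcov1
  · -- two or three vertices
    have hcA : (G.K0 (G.Co F) B1).card = (F \ B1).card := ha
    have hcB : (G.K0 B1 (G.Co F)).card = (F \ B1).card := by
      congr 1
      ext y
      rw [hK0B, mem_sdiff]
    have e1 : G.Exps (G.Co F) B1 := by
      constructor
      · intro x hx
        have h1 := hexp' _ (mem_insert_self _ _) {x} (singleton_nonempty _) (by simp; omega) (by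
          intro y hy
          rw [mem_singleton] at hy
          rw [hy]
          exact hIa x hx)
        rw [card_singleton] at h1
        refine le_trans h1 (card_le_card ?_)
        intro v hv
        have h2 := hNa {x} (by simpa using hx) hv
        rw [N_single37] at hv
        exact mem_inter.2 ⟨(mem_inter.1 hv).1, h2⟩
      · intro hc3' x hx x' hx' hne
        have h1 := hexp' _ (mem_insert_self _ _) {x, x'} (insert_nonempty _ _)
          (by rw [card_pair hne]; omega) (by
          intro y hy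
          rw [mem_insert, mem_singleton] at hy
          rcases hy with rfl | rfl
          · exact hIa _ hx
          · exact hIa _ hx')
        rw [card_pair hne] at h1
        have h2 : G.N {x, x'} ∩ G.Co (G.Co F) = G.K0 B1 (G.Co F) := by
          apply eq_of_subset_of_card_le
          · apply hNa
            intro y hy
            rw [mem_insert, mem_singleton] at hy
            rcases hy with rfl | rfl
            · exact hx
            · exact hx'
          · omega
        intro v hv
        rw [← h2, mem_inter] at hv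
        obtain ⟨-, u, hu, hvu⟩ := mem_N37.1 hv.1
        rw [mem_insert, mem_singleton] at hu
        rw [mem_union]
        rcases hu with rfl | rfl
        · exact Or.inl hvu
        · exact Or.inr hvu
    have e2 : G.Exps B1 (G.Co F) := by
      constructor
      · intro x hx
        have h1 := hexp' B1 (mem_insert_of_mem hB1m) {x} (singleton_nonempty _)
          (by simp; omega) (by
          intro y hy
          rw [mem_singleton] at hy
          rw [hy]
          exact hIb x hx)
        rw [card_singleton] at h1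
        refine le_trans h1 (card_le_card ?_)
        intro v hv
        have h2 := hNb {x} (by simpa using hx) hv
        rw [N_single37] at hv
        exact mem_inter.2 ⟨(mem_inter.1 hv).1, h2⟩
      · intro hc3' x hx x' hx' hne
        have h1 := hexp' B1 (mem_insert_of_mem hB1m) {x, x'} (insert_nonempty _ _)
          (by rw [card_pair hne]; omega) (by
          intro y hy
          rw [mem_insert, mem_singleton] at hy
          rcases hy with rfl | rfl
          · exact hIb _ hx
          · exact hIb _ hx')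
        rw [card_pair hne] at h1
        have h2 : G.N {x, x'} ∩ G.Co B1 = G.K0 (G.Co F) B1 := by
          apply eq_of_subset_of_card_le
          · apply hNb
            intro y hy
            rw [mem_insert, mem_singleton] at hy
            rcases hy with rfl | rfl
            · exact hx
            · exact hx'
          · omega
        intro v hv
        rw [← h2, mem_inter] at hv
        obtain ⟨-, u, hu, hvu⟩ := mem_N37.1 hv.1
        rw [mem_insert, mem_singleton] at hu
        rw [mem_union]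
        rcases hu with rfl | rfl
        · exact Or.inl hvu
        · exact Or.inr hvu
    have hk : ∀ z ∈ R Fb, ∀ B, G.I Fb z = {B} → 2 ≤ G.d z (G.Co B) := by
      intro z hz B hI
      have h1 := hexp' B (hIB z B hI) {z} (singleton_nonempty _) (by simp; omega) (by
        intro y hy
        rw [mem_singleton] at hy
        rw [hy]
        exact ⟨hz, hI⟩)
      rw [card_singleton, N_single37] at h1
      exact h1
    refine ht23 (G.Co F) B1 ⟨hstrip, ?_, e1, e2⟩ (by omega)
    rw [← hFb2]
    intro x hx z hz hxz hm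
    exact hcovU hsm Fb hreg hk x hx z hz hxz hm (hscov x hx z hz hxz hm)

/-- V8: saturated graphs -/
theorem stStV_96 (G : CG V) (hm : G.StMnV) (hsm : G.StSmall) (hcovU : G.StCovU)
    (hid : G.StId5) (hps : G.StPs5) (htot : G.StTot5) (hK : G.StKadd) (hV : G.StThV) :
    G.StStV := by
  intro hcr hsat h9
  suffices h : -6 * (G.kap univ : ℤ) ≤ ∑ v : V, 2 * G.a5 v by
    rw [htot] at h
    linarith
  by_cases hex : ∃ F, G.Big F
  · obtain ⟨F, hF⟩ := hex
    obtain ⟨hCf, hCN, hCC⟩ := G.stCo_37 F hF.1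
    have hC : G.Big (G.Co F) := ⟨hCf, hF.2.2, by rw [hCC]; exact hF.2.1⟩
    have h1 := hm hcr hsat F hF
    have h2 := hm hcr hsat _ hC
    have h3 : (G.kap F : ℤ) + (G.kap (G.Co F) : ℤ) ≤ (G.kap univ : ℤ) := by
      exact_mod_cast hK.co F
    rw [← hps F hF.1]
    linarith
  · push Not at hex
    have hI : ∀ z, G.I (∅ : Finset (Finset V)) z = ∅ := by
      intro z
      rw [I, filter_empty]
    have hreg : G.Reg (∅ : Finset (Finset V)) := by
      constructor
      · intro B hB
        exact absurd hB (notMem_empty _)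
      · intro B hB
        exact absurd hB (notMem_empty _)
    have hG : G.Gen5 ∅ := by
      refine ⟨hreg, fun B hB => absurd hB (notMem_empty _), h9, hcr, hsat, ?_,
        fun B hB => absurd hB (notMem_empty _), fun B hB => absurd hB (hex B)⟩
      intro x hx z hz hxz hm'
      refine hcovU hsm ∅ hreg ?_ x hx z hz hxz hm' ?_
      · intro y _ B hIB
        rw [hI] at hIB
        exact absurd hIB.symm (singleton_ne_empty _)
      · obtain ⟨E, hE, h1, h2⟩ := hcr x z hxz
        obtain ⟨h3, h4, -⟩ := G.stCo_37 E hE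
        by_cases h5 : E.card ≤ 2
        · exact ⟨E, hE, h5, h1, h2⟩
        · refine ⟨G.Co E, h3, ?_, by rw [h4]; exact h1, by rw [h4]; exact h2⟩
          by_contra h7
          exact hex E ⟨hE, by omega, by omega⟩
    have h1 := hid ∅ hreg
    rw [sum_empty, sub_zero] at h1
    have h2 := hV ∅ hG
    rw [hK.emp] at h2
    rw [h1]
    exact h2

end CG

end Pool.Agent.Lib.MP_e95c01_co.N
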