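import Pool.Agent.Lib.MP_e95c01_co.X.Defs76
import Pool.Agent.Lib.MP_e95c01_co.T.StmtsF76

/-!
# `λ = 3`: fragments with three vertices, statements

The situation `F3s` and the covers `CvF` of `T/StmtsF76` are used with all pairs of twins chosen
(`q = G.Tw`); then `HubQ` is the same as `Hub`.
-/

namespace Pool.Agent.Lib.MP_e95c01_co.N

open Finset

variable {V : Type} [Fintype V] [DecidableEq V] (G : CG V)

namespace CG

open Classical in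
/-- value of a vertex of `N F` with the flags (twice `gamma*`; for a twin vertex the value of the pair
is the sum over the two vertices) -/
noncomputable def gam5 (F : Finset V) (w : V) : ℤ :=
  (if G.Low w then 4 * (G.d w F : ℤ) + 2 * ((G.pT F w).card : ℤ) - 6
    else if G.IsTw w then 2 * (G.d w F : ℤ) + ((G.pT F w).card : ℤ) - 7 else 0) +
    (G.flv F w - G.flv (G.Co F) w)

/-- the situation: three vertices, every edge between `F` and `N F` covered -/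
abbrev S5 (F : Finset V) : Prop := G.F3s G.Tw F

/-- G0: the situation and the functional -/
structure St5F : Prop where
  sit : G.Sat → ∀ F, G.Big F → F.card = 3 → (∀ z ∈ F, ∀ v ∈ G.nb z, v ∉ F → G.SCov z v) → G.S5 F
  P : ∀ F, G.Big F → F.card = 3 → G.P5 F = 12 * (G.l F : ℤ) - 24 + ∑ w ∈ G.N F, G.gam5 F w

/-- G1: bounds for the values -/
structure St5B : Prop where
  hub : ∀ F, G.S5 F → ∀ w ∈ G.N F, G.Hub w → G.gam5 F w = 0
  /-- low, adjacent to all of `F` -/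
  low3 : ∀ F, G.S5 F → ∀ w ∈ G.N F, G.Low w → G.d w F = 3 → (G.pT F w).card ≤ 2 ∧
    6 ≤ G.gam5 F w ∧ ((G.pT F w).card ≠ 1 → 6 + 2 * ((G.pT F w).card : ℤ) ≤ G.gam5 F w) ∧
    (∀ v ∈ G.pT F w, ¬ G.Low v → 6 + 2 * ((G.pT F w).card : ℤ) ≤ G.gam5 F w) ∧
    (G.PairSet (G.pT F w) → 12 ≤ G.gam5 F w)
  /-- low, two neighbours in `F` -/
  low2 : ∀ F, G.S5 F → ∀ w ∈ G.N F, G.Low w → G.d w F = 2 → (G.pT F w).card ≤ 3 ∧
    (¬ G.PairSet (G.pT F w) → 2 + 2 * ((G.pT F w).card : ℤ) ≤ G.gam5 F w) ∧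
    (G.PairSet (G.pT F w) → 4 ≤ G.gam5 F w) ∧
    (G.PairSet (G.pT F w) → (∀ v ∈ G.pT F w, G.d v F ≠ 2) → 6 ≤ G.gam5 F w)
  /-- low, exactly a pair of twins in `F` -/
  low2s : ∀ F, G.S5 F → ∀ w ∈ G.N F, ∀ v, G.S0 F w v → 4 ≤ G.gam5 F w ∧
    (G.pT F v = {w} → 5 ≤ G.gam5 F w) ∧ (¬ G.LLs F w v → 6 ≤ G.gam5 F w)
  /-- low, one neighbour in `F` -/
  low1 : ∀ F, G.S5 F → ∀ w ∈ G.N F, G.Low w → G.d w F = 1 → (G.pT F w).card ≤ 4 ∧
    (¬ G.PairSet (G.pT F w) → 2 * ((G.pT F w).card : ℤ) - 2 ≤ G.gam5 F w) ∧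
    (G.PairSet (G.pT F w) → 0 ≤ G.gam5 F w)
  /-- twin vertices; the partner is in `pT` -/
  tw : ∀ F, G.S5 F → ∀ w ∈ G.N F, G.IsTw w → 2 ≤ G.d w F ∧ G.d w F + (G.pT F w).card ≤ 5 ∧
    2 * (G.d w F : ℤ) + ((G.pT F w).card : ℤ) - 7 ≤ G.gam5 F w

/-- G2: three lows -/
def St5LLL : Prop := ∀ F, G.S5 F → (∀ z ∈ F, G.Low z) → -12 ≤ ∑ w ∈ G.N F, G.gam5 F w

/-- G3: two lows and a hub -/
def St5LLH : Prop := ∀ F, G.S5 F → ∀ l l' h, F = {l, l', h} → l ≠ l' → G.Low l → G.Low l' →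
  G.Hub h → 0 ≤ ∑ w ∈ G.N F, G.gam5 F w

/-- G4: a low and two hubs -/
def St5LHH : Prop := ∀ F, G.S5 F → ∀ l h h', F = {l, h, h'} → h ≠ h' → G.Low l → G.Hub h →
  G.Hub h' → 12 ≤ ∑ w ∈ G.N F, G.gam5 F w

/-- G5: three hubs -/
def St5HHH : Prop := ∀ F, G.S5 F → (∀ z ∈ F, G.Hub z) → 24 ≤ ∑ w ∈ G.N F, G.gam5 F w

/-- G6: a hub and a pair of twins -/
def St5HQ : Prop := ∀ F, G.S5 F → ∀ h v w, F = {h, v, w} → G.Hub h → G.Tw v w →
  24 ≤ ∑ w ∈ G.N F, G.gam5 F w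

/-- G7: a low and a pair of twins -/
def St5LQ : Prop := ∀ F, G.S5 F → ∀ l v w, F = {l, v, w} → G.Low l → G.Tw v w →
  12 ≤ ∑ w ∈ G.N F, G.gam5 F w

/-- G8: fragments with three vertices -/
def StF5 : Prop := G.Sat → ∀ F, G.Big F → F.card = 3 →
  (∀ z ∈ F, ∀ v ∈ G.nb z, v ∉ F → G.SCov z v) → 0 ≤ G.P5 F

end CG

end Pool.Agent.Lib.MP_e95c01_co.N
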