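import Pool.Agent.Lib.MP_e95c01_co.X.StmtsH76

/-!
# `n ≤ 3.5 n_6` for all 6-contraction-critical graphs, `n ≤ 3 n_6` without `K_6`: statements

A `K6` is a set of six mutually adjacent twin vertices. Every `K6` has the budget 6.
-/

namespace Pool.Agent.Lib.MP_e95c01_co.N

open Finset

variable {V : Type} [Fintype V] [DecidableEq V] (G : CG V)

namespace CG

/-- six mutually adjacent twin vertices -/
def IsK6 (S : Finset V) : Prop :=
  S.card = 6 ∧ (∀ x ∈ S, G.IsTw x) ∧ ∀ x ∈ S, ∀ y ∈ S, x ≠ y → y ∈ G.nb x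

open Classical in
/-- number of `K6`'s with at least four vertices in `F` -/
noncomputable def kap (F : Finset V) : ℕ :=
  (univ.filter fun S : Finset V => G.IsK6 S ∧ 4 ≤ (S ∩ F).card).card

open Classical in
/-- number of `K6`'s inside `R` with at most two vertices in each neighbourhood -/
noncomputable def cen (Fa : Finset (Finset V)) : ℕ :=
  (univ.filter fun S : Finset V => G.IsK6 S ∧ S ⊆ R Fa ∧ ∀ B ∈ Fa, (S ∩ G.N B).card ≤ 2).card

/-- six mutually adjacent vertices of degree at most 7 -/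
def HasK6 : Prop := ∃ S : Finset V, S.card = 6 ∧ (∀ x ∈ S, ∀ y ∈ S, x ≠ y → y ∈ G.nb x) ∧
  ∀ x ∈ S, (G.nb x).card ≤ 7

/-- torsos with expansion -/
structure Gen5 (Fa : Finset (Finset V)) : Prop where
  reg : G.Reg Fa
  big : ∀ B ∈ Fa, 3 ≤ B.card
  n9 : 9 ≤ Fintype.card V
  crit : G.Crit
  sat : G.Sat
  cov : G.CovU Fa
  /-- sets of at most three vertices that are in the neighbourhood of `B` only -/
  exp : ∀ B ∈ Fa, ∀ Z : Finset V, Z.Nonempty → Z.card ≤ 3 →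
    (∀ y ∈ Z, y ∈ R Fa ∧ G.I Fa y = {B}) → Z.card < (G.N Z ∩ G.Co B).card
  /-- no big fragment among the vertices that are in no neighbourhood (in a leaf only the leaf) -/
  nobig : ∀ B, G.Big B → (∀ z ∈ B, z ∈ R Fa ∧ G.I Fa z = ∅) → 6 ≤ B.card ∧ ∃ A ∈ Fa, B = G.Co A

/-! ## Statements -/

/-- V1: the budgets -/
structure StKadd : Prop where
  co : ∀ F, G.kap F + G.kap (G.Co F) ≤ G.kap univ
  mono : ∀ F F', F ⊆ F' → G.kap F ≤ G.kap F'
  /-- family inside `F`; `Fa` together with `Co F` -/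
  sum : ∀ F, G.Frag F → ∀ Fa : Finset (Finset V), (∀ B ∈ Fa, B ⊆ F) →
    (∀ B ∈ Fa, ∀ B' ∈ Fa, B ≠ B' → Disjoint B B') →
    ∑ B ∈ Fa, G.kap B + G.cen (insert (G.Co F) Fa) ≤ G.kap F
  emp : G.cen ∅ = G.kap univ

/-- V2: ports of a `K6` -/
def StPort : Prop := G.Crit → 9 ≤ Fintype.card V → ∀ S, G.IsK6 S →
  ∀ q ∈ S, ∀ u ∈ G.nb q, u ∉ S → G.Low u ∧ ∃ v ∈ G.nb q, v ∉ S ∧ v ≠ u ∧ G.Low v ∧
    v ∈ G.nb u ∧ G.nb q = insert u (insert v (S.erase q))

/-- V3: number of the `K6`'s -/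
def StKap : Prop := G.Crit → 9 ≤ Fintype.card V →
  2 * Fintype.card V ≤ 7 * G.l univ ∨ 3 * G.kap univ ≤ G.l univ

/-- V4: the exceptional leaf has a `K6` with four vertices in it -/
def StK4k : Prop := 9 ≤ Fintype.card V → ∀ F, G.Frag F → G.Ex5 F → 1 ≤ G.kap F

/-- V5: torsos with expansion -/
def StThV : Prop := ∀ Fa : Finset (Finset V), G.Gen5 Fa →
  -6 * (G.cen Fa : ℤ) ≤ ∑ z ∈ R Fa, G.bal5 Fa z

/-- V6: leaves with five vertices -/
def StF7 : Prop := G.Sat → ∀ F, G.Big F → F.card = 5 → (∀ B, G.Big B → ¬ B ⊂ F) →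
  (∀ z ∈ F, ∀ v ∈ G.nb z, G.SCov z v) → 0 ≤ G.P5 F

/-- V7: main lemma -/
def StMnV : Prop := G.Crit → G.Sat → ∀ F, G.Big F → -6 * (G.kap F : ℤ) ≤ G.P5 F

/-- V8: saturated graphs -/
def StStV : Prop := G.Crit → G.Sat → 9 ≤ Fintype.card V →
  4 * (Fintype.card V : ℤ) ≤ 12 * (G.l univ : ℤ) + 6 * (G.kap univ : ℤ)

/-- V9: no edge needs to be added -/
def StSaV : Prop := G.Crit → 9 ≤ Fintype.card V → ∀ a b t, G.HL a b t → ¬ G.Low t →
  ∃ G' : CG V, G'.Crit ∧ G'.l univ ≤ G.l univ ∧ ∑ v, (G.nb v).card < ∑ v, (G'.nb v).card ∧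
    (¬ G.HasK6 → ¬ G'.HasK6)

/-- V10: all graphs -/
def StFnV : Prop := G.Crit → 2 * Fintype.card V ≤ 7 * G.l univ

/-- V11: graphs without `K_6` on vertices of degree at most 7 -/
def StFnK : Prop := G.Crit → ¬ G.HasK6 → Fintype.card V ≤ 3 * G.l univ

end CG

end Pool.Agent.Lib.MP_e95c01_co.N
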