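import Pool.Agent.Lib.MP_e95c01_co.X.AuxT76
import Pool.Agent.Lib.MP_e95c01_co.X.M3_33

/-!
# `λ = 3`, thick torsos: the type `T6`

The low vertex `l` in no neighbourhood has the neighbours `l'` (low), `q`, `p` (twins) and three
hubs `x`, `y`, `z`. The pair is adjacent to `l'`; `q` and `l'` are not both in no neighbourhood;
if `q` is in no neighbourhood, then `l'` is in one and can pay or pays a hub of `l`.
-/

namespace Pool.Agent.Lib.MP_e95c01_co.N

open Finset

variable {V : Type} [Fintype V] [DecidableEq V]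

namespace CG

variable {G : CG V} {Fa : Finset (Finset V)} {l l' q p x y z : V}

/-- the neighbour `u` of `l` is covered at `l` by `l'` -/
def Cl42 (G : CG V) (Fa : Finset (Finset V)) (l l' u : V) : Prop :=
  u ∈ G.nb l' ∨ ∃ b ∈ R Fa, G.LL l' b l u

omit [Fintype V] in
theorem nd6_42 {S : Finset V} {a b c d e f : V} (h : S = {a, b, c, d, e, f}) (hc : S.card = 6) :
    [a, b, c, d, e, f].Nodup := by
  have h1 : [a, b, c, d, e, f].toFinset = S := by
    rw [h]
    ext u
    simp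
  have h3 : [a, b, c, d, e, f].dedup.length = [a, b, c, d, e, f].length := by
    rw [← List.card_toFinset, h1, hc]
    rfl
  rw [← List.dedup_eq_self]
  exact (List.dedup_sublist _).eq_of_length h3

/-! ### basic facts -/

theorem T6s.mem42 (h : G.T6s Fa l l' q p x y z) (u : V) :
    u ∈ G.nb l ↔ u = l' ∨ u = q ∨ u = p ∨ u = x ∨ u = y ∨ u = z := by
  rw [h.nb]
  simp

theorem T6s.ne42 (h : G.T6s Fa l l' q p x y z) :
    (l' ≠ q ∧ l' ≠ p ∧ l' ≠ x ∧ l' ≠ y ∧ l' ≠ z) ∧ (q ≠ p ∧ q ≠ x ∧ q ≠ y ∧ q ≠ z) ∧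
    (p ≠ x ∧ p ≠ y ∧ p ≠ z) ∧ (x ≠ y ∧ x ≠ z) ∧ y ≠ z := by
  have nd := nd6_42 h.nb h.low
  simp only [List.nodup_cons, List.mem_cons, List.not_mem_nil, or_false, not_or,
    not_false_iff, List.nodup_nil, and_true] at nd
  exact nd

theorem T6s.ml42 (h : G.T6s Fa l l' q p x y z) : l' ∈ G.nb l := (h.mem42 _).2 (by tauto)

theorem T6s.mq42 (h : G.T6s Fa l l' q p x y z) : q ∈ G.nb l := (h.mem42 _).2 (by tauto)

theorem T6s.mp42 (h : G.T6s Fa l l' q p x y z) : p ∈ G.nb l := (h.mem42 _).2 (by tauto)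

theorem T6s.mx42 (h : G.T6s Fa l l' q p x y z) : x ∈ G.nb l := (h.mem42 _).2 (by tauto)

theorem T6s.my42 (h : G.T6s Fa l l' q p x y z) : y ∈ G.nb l := (h.mem42 _).2 (by tauto)

theorem T6s.mz42 (h : G.T6s Fa l l' q p x y z) : z ∈ G.nb l := (h.mem42 _).2 (by tauto)

/-- the only low neighbour -/
theorem T6s.lown42 (h : G.T6s Fa l l' q p x y z) {u : V} (hu : u ∈ G.nb l) (hl : G.Low u) :
    u = l' := by
  rcases (h.mem42 u).1 hu with e | e | e | e | e | e
  · exact e
  · exact absurd hl (e ▸ tw_not_low76 ⟨_, h.t⟩)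
  · exact absurd hl (e ▸ tw_not_low76 (tw_of76' h.t))
  · exact absurd hl (e ▸ h.hx.1.1)
  · exact absurd hl (e ▸ h.hy.1.1)
  · exact absurd hl (e ▸ h.hz.1.1)

/-- the only twin neighbours -/
theorem T6s.twn42 (h : G.T6s Fa l l' q p x y z) {u : V} (hu : u ∈ G.nb l) (ht : G.IsTw u) :
    u = q ∨ u = p := by
  rcases (h.mem42 u).1 hu with e | e | e | e | e | e
  · exact absurd h.low' (tw_not_low76 (e ▸ ht))
  · exact Or.inl e
  · exact Or.inr e
  · exact absurd ht (e ▸ h.hx.1.2)
  · exact absurd ht (e ▸ h.hy.1.2)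
  · exact absurd ht (e ▸ h.hz.1.2)

/-- no common neighbour is a hub with `HL a b l'` -/
theorem T6s.noHL42 (h : G.T6s Fa l l' q p x y z) {a b : V} (ha : a ∈ G.nb l)
    (hab : G.HL a b l') : False := by
  have hla : l ∈ G.nb a := G.sym _ _ ha
  have hll : l ≠ l' := ne_of_nb5 h.ml42
  have h2 := HL_bt76 hab
  rcases HL_sup76 hab hla hll with h1 | h1
  · exact h2.1 (h1 ▸ h.ml42)
  · exact h2.2 (h.lown42 (G.sym _ _ h1) hab.2.1).symm

theorem T6s.l'R42 (h : G.T6s Fa l l' q p x y z) : l' ∈ R Fa := nb_R76 h.lR h.I0 h.ml42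

theorem T6s.qR42 (h : G.T6s Fa l l' q p x y z) : q ∈ R Fa := nb_R76 h.lR h.I0 h.mq42

/-- how a neighbour is covered at `l` -/
theorem T6s.cov42 (hG : G.Gen6 Fa) (h : G.T6s Fa l l' q p x y z) {u : V} (hu : u ∈ G.nb l) :
    (u ≠ l' ∧ Cl42 G Fa l l' u) ∨ (u ∈ G.nb q ∧ u ∈ G.nb p) := by
  have n9 := hG.g5.n9
  have n13 := hG.n13
  have hc : (G.NF Fa l).card ≤ 1 := by rw [h.NF_eq n9 hG.g5.reg, card_singleton]
  rcases L0cov33 hG.g5 (by omega) h.lR h.low h.I0 hc hu with h1 | h1
  · obtain ⟨l1, h2, h3, h4, h5⟩ := h1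
    have h6 := h.lown42 h2 h3
    subst h6
    exact Or.inl ⟨h4.symm, h5⟩
  · obtain ⟨v, w, h2, h3, h4, h5, h6⟩ := h1
    right
    have h7 := h.twn42 h2 ⟨w, h4⟩
    have h8 := h.twn42 h3 (tw_of76' h4)
    rcases h7 with e | e
    · rcases h8 with f | f
      · subst e
        subst f
        exact absurd h4.1 (G.irr _)
      · subst e
        subst f
        exact ⟨h5, h6⟩
    · rcases h8 with f | f
      · subst e
        subst f
        exact ⟨h6, h5⟩
      · subst e
        subst f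
        exact absurd h4.1 (G.irr _)

/-- the pair is adjacent to `l'` -/
theorem T6s.adj42 (hG : G.Gen6 Fa) (h : G.T6s Fa l l' q p x y z) :
    q ∈ G.nb l' ∧ p ∈ G.nb l' := by
  rcases h.cov42 hG h.ml42 with h2 | h2
  · exact absurd rfl h2.1
  · exact ⟨G.sym _ _ h2.1, G.sym _ _ h2.2⟩

/-- if the pair is in no neighbourhood, it is adjacent to at most one hub -/
theorem T6s.oneq42 (hG : G.Gen6 Fa) (h : G.T6s Fa l l' q p x y z) (hq : G.I Fa q = ∅)
    {u v : V} (hu : u ∈ G.nb l) (hv : v ∈ G.nb l) (huv : u ≠ v) (h1 : u ≠ l') (h2 : v ≠ l')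
    (h3 : u ≠ p) (h4 : v ≠ p) (h5 : u ∈ G.nb q) (h6 : v ∈ G.nb q) : False := by
  have n13 := hG.n13
  have hI := (stTwHL_5 G).twI Fa hG.g5.reg q h.qR42 p h.t
  have h7 := lq_D0_86 hG.g5 (by omega) h.low h.t h.mq42 ⟨h.lR, h.I0⟩ ⟨h.qR42, hq⟩
    ⟨hI.1, hI.2.trans hq⟩
  have h8 := h.adj42 hG
  have h9 := h.ne42
  have h10 := len_le33 (S := G.nb l ∩ G.nb q) [p, l', u, v] (by
    simp only [List.nodup_cons, List.mem_cons, List.not_mem_nil, or_false, not_or,
      not_false_iff, List.nodup_nil, and_true]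
    exact ⟨⟨h9.1.2.1.symm, h3.symm, h4.symm⟩, ⟨h1.symm, h2.symm⟩, huv⟩) (by
    intro w hw
    simp only [List.mem_cons, List.not_mem_nil, or_false] at hw
    rw [mem_inter]
    rcases hw with rfl | rfl | rfl | rfl
    exacts [⟨h.mp42, h.t.1⟩, ⟨h.ml42, G.sym _ _ h8.1⟩, ⟨hu, h5⟩, ⟨hv, h6⟩])
  simp only [List.length_cons, List.length_nil] at h10
  omega

theorem T6s.twoA42 (hG : G.Gen6 Fa) (h : G.T6s Fa l l' q p x y z) (hq : G.I Fa q = ∅)
    (hx : ¬ Cl42 G Fa l l' x) :
    Cl42 G Fa l l' y ∧ Cl42 G Fa l l' z ∧ x ∈ G.nb q ∧ y ∉ G.nb q ∧ z ∉ G.nb q := by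
  obtain ⟨⟨a1, a2, a3, a4, a5⟩, ⟨b1, b2, b3, b4⟩, ⟨c1, c2, c3⟩, ⟨d1, d2⟩, e1⟩ := h.ne42
  have hxq : x ∈ G.nb q := by
    rcases h.cov42 hG h.mx42 with h1 | h1
    · exact absurd h1.2 hx
    · exact h1.1
  have hy : y ∉ G.nb q := fun h1 => h.oneq42 hG hq h.mx42 h.my42 d1 a3.symm a4.symm c1.symm
    c2.symm hxq h1
  have hz : z ∉ G.nb q := fun h1 => h.oneq42 hG hq h.mx42 h.mz42 d2 a3.symm a5.symm c1.symm
    c3.symm hxq h1
  refine ⟨?_, ?_, hxq, hy, hz⟩
  · rcases h.cov42 hG h.my42 with h1 | h1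
    · exact h1.2
    · exact absurd h1.1 hy
  · rcases h.cov42 hG h.mz42 with h1 | h1
    · exact h1.2
    · exact absurd h1.1 hz

/-- if the pair is in no neighbourhood, two hubs are covered by `l'` -/
theorem T6s.two42 (hG : G.Gen6 Fa) (h : G.T6s Fa l l' q p x y z) (hq : G.I Fa q = ∅) :
    ∃ x' y' z', G.T6s Fa l l' q p x' y' z' ∧ Cl42 G Fa l l' y' ∧ Cl42 G Fa l l' z' ∧
      (Cl42 G Fa l l' x' ∨
        (¬ Cl42 G Fa l l' x' ∧ x' ∈ G.nb q ∧ y' ∉ G.nb q ∧ z' ∉ G.nb q)) := by
  by_cases hx : Cl42 G Fa l l' x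
  · by_cases hy : Cl42 G Fa l l' y
    · by_cases hz : Cl42 G Fa l l' z
      · exact ⟨x, y, z, h, hy, hz, Or.inl hx⟩
      · have h1 := h.perm2.perm1
        obtain ⟨h2, h3, h4⟩ := h1.twoA42 hG hq hz
        exact ⟨z, x, y, h1, h2, h3, Or.inr ⟨hz, h4⟩⟩
    · have h1 := h.perm1
      obtain ⟨h2, h3, h4⟩ := h1.twoA42 hG hq hy
      exact ⟨y, x, z, h1, h2, h3, Or.inr ⟨hy, h4⟩⟩
  · obtain ⟨h2, h3, h4⟩ := h.twoA42 hG hq hx
    exact ⟨x, y, z, h, h2, h3, Or.inr ⟨hx, h4⟩⟩

/-! ### `q` and `l'` are not both in no neighbourhood -/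

/-- `LL l' b l u`: then no hub is adjacent to `l'` -/
theorem T6s.LLj42 (hG : G.Gen6 Fa) (h : G.T6s Fa l l' q p x y z) (hl' : G.I Fa l' = ∅)
    {b u w : V} (hb : b ∈ R Fa) (hu : u = x ∨ u = y ∨ u = z) (hLL : G.LL l' b l u)
    (hw : w = x ∨ w = y ∨ w = z) (hwl : w ∈ G.nb l') : False := by
  have n13 := hG.n13
  have hll : l ≠ l' := ne_of_nb5 h.ml42
  have huR : u ∈ R Fa := nb_R76 h.lR h.I0 ((h.mem42 u).2 (by tauto))
  have hIb := (LL_I76 hLL h.l'R42 hb h.lR huR).symm.trans hl'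
  have hbl : G.Low b := hLL.2.1
  have hlb : l ≠ b := (LL_tb76 hLL).2
  have hl'b : b ∈ G.nb l' := LL_ab76 hLL
  have hul' : u ∉ G.nb l' := (LL_ua76 hLL).1
  have hadj := h.adj42 hG
  have hubw : ∀ v, (v = x ∨ v = y ∨ v = z) → G.Hub v := by
    rintro v (rfl | rfl | rfl)
    exacts [h.hx.1, h.hy.1, h.hz.1]
  have hc : ({l, l', b} : Finset V).card = 3 := by
    rw [card_insert_of_notMem, card_pair (ne_of_nb5 hl'b)]
    rw [mem_insert, mem_singleton]
    exact fun e => e.elim hll hlb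
  have h7 := E03_86 hG.g5 (by omega) hc (by
    intro v hv
    rw [mem_insert, mem_insert, mem_singleton] at hv
    rcases hv with rfl | rfl | rfl
    exacts [⟨h.lR, h.I0⟩, ⟨h.l'R42, hl'⟩, ⟨hb, hIb⟩])
  set A : Finset V := ((G.nb l').erase l).erase b with hA
  have hsub : G.N {l, l', b} ⊆ A ∪ {x, y, z} := by
    intro v hv
    obtain ⟨h1, a, ha, hva⟩ := mem_N76.1 hv
    have e1 : v ≠ l := fun e => h1 (by simp [e])
    have e2 : v ≠ l' := fun e => h1 (by simp [e])
    have e3 : v ≠ b := fun e => h1 (by simp [e])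
    have inA : v ∈ G.nb l' → v ∈ A := fun h2 => mem_erase.2 ⟨e3, mem_erase.2 ⟨e1, h2⟩⟩
    have inX : (v = x ∨ v = y ∨ v = z) → v ∈ A ∪ {x, y, z} := fun h2 =>
      mem_union_right _ (by rw [mem_insert, mem_insert, mem_singleton]; exact h2)
    rw [mem_insert, mem_insert, mem_singleton] at ha
    rcases ha with rfl | rfl | rfl
    · rcases (h.mem42 v).1 hva with e | e | e | e | e | e
      · exact absurd e e2
      · exact mem_union_left _ (inA (e ▸ hadj.1))
      · exact mem_union_left _ (inA (e ▸ hadj.2))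
      · exact inX (by tauto)
      · exact inX (by tauto)
      · exact inX (by tauto)
    · exact mem_union_left _ (inA hva)
    · by_cases hvu : v = u
      · exact inX (by rw [hvu]; exact hu)
      · rcases LL_from76 hLL hva hvu with e | e
        · exact absurd e e2
        · exact mem_union_left _ (inA e)
  have h8 := card_le_card hsub
  have h9 := card_union_add_card_inter A {x, y, z}
  have h10 : 0 < (A ∩ {x, y, z}).card := by
    refine card_pos.2 ⟨w, mem_inter.2 ⟨mem_erase.2 ⟨?_, mem_erase.2 ⟨?_, hwl⟩⟩, ?_⟩⟩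
    · rintro rfl
      exact (hubw _ hw).1 hbl
    · rintro rfl
      exact (hubw _ hw).1 h.low
    · rw [mem_insert, mem_insert, mem_singleton]
      exact hw
  have h11 : A.card = 4 := by
    rw [hA, card_erase_of_mem (mem_erase.2 ⟨hlb.symm, hl'b⟩),
      card_erase_of_mem (G.sym _ _ h.ml42)]
    have h12 : (G.nb l').card = 6 := h.low'
    omega
  have h13 : ({x, y, z} : Finset V).card ≤ 3 := card_le_three
  omega

/-- `LL l' b l u` and `LL l' b' l u'` -/
theorem T6s.LL2_42 (_h : G.T6s Fa l l' q p x y z) {b b' u u' : V} (h1 : G.LL l' b l u)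
    (h2 : G.LL l' b' l u') (huu : u ≠ u') (hul : u ≠ l') : b ≠ b' := by
  rintro rfl
  rcases LL_from76 h2 (LL_u76 h1) huu with e | e
  · exact hul e
  · exact (LL_ua76 h1).1 e

theorem T6s.d0_42 (hG : G.Gen6 Fa) (h0 : G.T6s Fa l l' q p x y z) :
    (G.I Fa q).Nonempty ∨ (G.I Fa l').Nonempty := by
  by_contra hc
  rw [not_or, not_nonempty_iff_eq_empty, not_nonempty_iff_eq_empty] at hc
  obtain ⟨hq, hl'⟩ := hc
  have n9 := hG.g5.n9
  have n13 := hG.n13
  obtain ⟨x', y', z', h, cy, cz, cx⟩ := h0.two42 hG hq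
  obtain ⟨⟨a1, a2, a3, a4, a5⟩, ⟨b1, b2, b3, b4⟩, ⟨c1, c2, c3⟩, ⟨d1, d2⟩, e1⟩ := h.ne42
  have hadj := h.adj42 hG
  have hll : l ≠ l' := ne_of_nb5 h.ml42
  have hI := (stTwHL_5 G).twI Fa hG.g5.reg q h.qR42 p h.t
  have hlow' : (G.nb l').card = 6 := h.low'
  have hlq : l ≠ q := ne_of_nb5 h.mq42
  have hlp : l ≠ p := ne_of_nb5 h.mp42
  have hly : l ≠ y' := ne_of_nb5 h.my42
  have hlz : l ≠ z' := ne_of_nb5 h.mz42
  have hlx : l ≠ x' := ne_of_nb5 h.mx42
  rcases cy with cy | ⟨b, hb, cy⟩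
  · rcases cz with cz | ⟨b, hb, cz⟩
    · rcases cx with (cx | ⟨b, hb, cx⟩) | cx
      · -- three common hubs
        have h1 := ll_le86 n9 h.low h.low' h.ml42
        have h2 := len_le33 (S := G.nb l ∩ G.nb l') [q, p, x', y', z'] (by
          simp only [List.nodup_cons, List.mem_cons, List.not_mem_nil, or_false, not_or,
            not_false_iff, List.nodup_nil, and_true]
          exact ⟨⟨b1, b2, b3, b4⟩, ⟨c1, c2, c3⟩, ⟨d1, d2⟩, e1⟩) (by
          intro w hw
          simp only [List.mem_cons, List.not_mem_nil, or_false] at hw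
          rw [mem_inter]
          rcases hw with rfl | rfl | rfl | rfl | rfl
          exacts [⟨h.mq42, hadj.1⟩, ⟨h.mp42, hadj.2⟩, ⟨h.mx42, cx⟩, ⟨h.my42, cy⟩,
            ⟨h.mz42, cz⟩])
        simp only [List.length_cons, List.length_nil] at h2
        omega
      · exact h.LLj42 hG hl' hb (Or.inl rfl) cx (Or.inr (Or.inl rfl)) cy
      · obtain ⟨hx, hxq, hyq, hzq⟩ := cx
        have hxl' : x' ∉ G.nb l' := fun e => hx (Or.inl e)
        -- the sixth neighbour of `l'`
        have nd5 : [l, q, p, y', z'].Nodup := by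
          simp only [List.nodup_cons, List.mem_cons, List.not_mem_nil, or_false, not_or,
            not_false_iff, List.nodup_nil, and_true]
          exact ⟨⟨hlq, hlp, hly, hlz⟩, ⟨b1, b3, b4⟩, ⟨c2, c3⟩, e1⟩
        obtain ⟨w, hw, hwn⟩ : ∃ w ∈ G.nb l', w ∉ [l, q, p, y', z'] := by
          by_contra hc1
          have h1 : G.nb l' ⊆ [l, q, p, y', z'].toFinset := by
            intro w hw
            by_contra h2
            exact hc1 ⟨w, hw, fun h3 => h2 (List.mem_toFinset.2 h3)⟩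
          have h2 := card_le_card h1
          have h3 := List.toFinset_card_le [l, q, p, y', z']
          simp only [List.length_cons, List.length_nil] at h3
          omega
        simp only [List.mem_cons, List.not_mem_nil, or_false, not_or] at hwn
        obtain ⟨w1, w2, w3, w4, w5⟩ := hwn
        have hwx : w ≠ x' := fun e => hxl' (e ▸ hw)
        have hwl' : w ≠ l' := fun e => G.irr _ (e ▸ hw)
        have hwl : w ∉ G.nb l := by
          intro e
          rcases (h.mem42 w).1 e with e | e | e | e | e | e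
          exacts [hwl' e, w2 e, w3 e, hwx e, w4 e, w5 e]
        have mem' : ∀ v ∈ G.nb l', v = l ∨ v = q ∨ v = p ∨ v = y' ∨ v = z' ∨ v = w := by
          have h1 : [l, q, p, y', z', w].toFinset = G.nb l' := by
            apply Finset.eq_of_subset_of_card_le
            · intro v hv
              rw [List.mem_toFinset] at hv
              simp only [List.mem_cons, List.not_mem_nil, or_false] at hv
              rcases hv with rfl | rfl | rfl | rfl | rfl | rfl
              exacts [G.sym _ _ h.ml42, hadj.1, hadj.2, cy, cz, hw]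
            · rw [List.toFinset_card_of_nodup, hlow']
              · rfl
              · simp only [List.nodup_cons, List.mem_cons, List.not_mem_nil, or_false, not_or,
                  not_false_iff, List.nodup_nil, and_true]
                exact ⟨⟨hlq, hlp, hly, hlz, Ne.symm w1⟩, ⟨b1, b3, b4, Ne.symm w2⟩,
                  ⟨c2, c3, Ne.symm w3⟩, ⟨e1, Ne.symm w4⟩, Ne.symm w5⟩
          intro v hv
          rw [← h1, List.mem_toFinset] at hv
          simpa only [List.mem_cons, List.not_mem_nil, or_false] using hv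
        -- `w` is not adjacent to the pair
        have hwq : w ∉ G.nb q := by
          intro hwq
          have hS : ({l, l', q, p} : Finset V).card = 4 := by
            rw [card_insert_of_notMem, card_insert_of_notMem, card_pair b1]
            · rw [mem_insert, mem_singleton]
              exact fun e => e.elim a1 a2
            · rw [mem_insert, mem_insert, mem_singleton]
              exact fun e => e.elim hll (fun e => e.elim hlq hlp)
          have hsub : G.N {l, l', q, p} ⊆ {y', z'} ∪ (((G.nb q).erase p).erase l).erase l' := by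
            intro v hv
            obtain ⟨h1, a, ha, hva⟩ := mem_N76.1 hv
            have f1 : v ≠ l := fun e => h1 (by simp [e])
            have f2 : v ≠ l' := fun e => h1 (by simp [e])
            have f3 : v ≠ q := fun e => h1 (by simp [e])
            have f4 : v ≠ p := fun e => h1 (by simp [e])
            have inQ : v ∈ G.nb q →
                v ∈ {y', z'} ∪ (((G.nb q).erase p).erase l).erase l' := fun h2 =>
              mem_union_right _ (mem_erase.2 ⟨f2, mem_erase.2 ⟨f1, mem_erase.2 ⟨f4, h2⟩⟩⟩)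
            have inY : (v = y' ∨ v = z') →
                v ∈ {y', z'} ∪ (((G.nb q).erase p).erase l).erase l' := fun h2 =>
              mem_union_left _ (by rw [mem_insert, mem_singleton]; exact h2)
            rw [mem_insert, mem_insert, mem_insert, mem_singleton] at ha
            rcases ha with rfl | rfl | rfl | rfl
            · rcases (h.mem42 v).1 hva with e | e | e | e | e | e
              · exact absurd e f2
              · exact absurd e f3
              · exact absurd e f4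
              · exact inQ (e ▸ hxq)
              · exact inY (Or.inl e)
              · exact inY (Or.inr e)
            · rcases mem' v hva with e | e | e | e | e | e
              · exact absurd e f1
              · exact absurd e f3
              · exact absurd e f4
              · exact inY (Or.inl e)
              · exact inY (Or.inr e)
              · exact inQ (e ▸ hwq)
            · exact inQ hva
            · exact inQ (Tw_nb5 (tw_symm76 h.t) hva f3)
          have h1 := card_le_card hsub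
          have h2 := card_union_le {y', z'} ((((G.nb q).erase p).erase l).erase l')
          have h3 : ({y', z'} : Finset V).card ≤ 2 := card_le_two
          have h4 : ((((G.nb q).erase p).erase l).erase l').card = 4 := by
            rw [card_erase_of_mem, card_erase_of_mem, card_erase_of_mem h.t.1]
            · have h5 : (G.nb q).card = 7 := h.t.2.1
              omega
            · exact mem_erase.2 ⟨hlp, G.sym _ _ h.mq42⟩
            · exact mem_erase.2 ⟨hll.symm, mem_erase.2 ⟨a2, G.sym _ _ hadj.1⟩⟩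
          have h5 := card_Co86 G {l, l', q, p}
          have h6 := E0_86 hG.g5 (S := {l, l', q, p}) (by omega) (by omega) (by
            intro v hv
            rw [mem_insert, mem_insert, mem_insert, mem_singleton] at hv
            rcases hv with rfl | rfl | rfl | rfl
            exacts [⟨h.lR, h.I0⟩, ⟨h.l'R42, hl'⟩, ⟨h.qR42, hq⟩, ⟨hI.1, hI.2.trans hq⟩])
            (by omega)
          omega
        -- the edge `l' w` has no cover
        have hwR : w ∈ G.nR Fa l' := (nRall33 h.l'R42 hl').symm ▸ hw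
        have notw : ∀ v ∈ G.nb l', G.IsTw v → w ∈ G.nb v → False := by
          intro v hv ht hwv
          rcases mem' v hv with e | e | e | e | e | e
          · exact tw_not_low76 (e ▸ ht) h.low
          · exact hwq (e ▸ hwv)
          · exact hwq (Tw_nb5 (tw_symm76 h.t) (e ▸ hwv) w2)
          · exact h.hy.1.2 (e ▸ ht)
          · exact h.hz.1.2 (e ▸ ht)
          · exact G.irr w (by rw [e] at hwv; exact hwv)
        have lows : ∀ v ∈ G.nb l', G.Low v → v = l ∨ v = w := by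
          intro v hv hlv
          rcases mem' v hv with e | e | e | e | e | e
          · exact Or.inl e
          · exact absurd (e ▸ hlv) (tw_not_low76 ⟨_, h.t⟩)
          · exact absurd (e ▸ hlv) (tw_not_low76 (tw_of76' h.t))
          · exact absurd (e ▸ hlv) h.hy.1.1
          · exact absurd (e ▸ hlv) h.hz.1.1
          · exact Or.inr e
        rcases cov3_76 (qs16 G) (tor86 hG.g5) h.l'R42 hwR (m_empty5 hl') with
          h1 | h1 | h1 | h1 | h1
        · obtain ⟨c, h2, -, h3, h4⟩ := h1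
          rcases lows c (mem_nR76.1 h2).1 h3 with rfl | rfl
          · exact hwl h4
          · exact G.irr _ h4
        · obtain ⟨v, v', h2, -, h3, h4, -⟩ := h1
          exact notw v (mem_nR76.1 h2).1 ⟨v', h3⟩ h4
        · obtain ⟨a, b, h2, -, -, h3, -, h4⟩ := h1
          have h5 := (mem_nR76.1 h2).1
          rcases mem' a h5 with e | e | e | e | e | e
          · exact HL_not_low76 h3 (e ▸ h.low)
          · exact (stTwHL_5 G).notHL n9 _ _ _ h3 (e ▸ ⟨_, h.t⟩)
          · exact (stTwHL_5 G).notHL n9 _ _ _ h3 (e ▸ tw_of76' h.t)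
          · exact h.noHL42 (e ▸ h.my42) h3
          · exact h.noHL42 (e ▸ h.mz42) h3
          · exact h4 e.symm
        · obtain ⟨a, b, h2, -, -, h3, h4⟩ := h1
          rcases lows b (mem_nR76.1 h2).1 h3.2.1 with rfl | rfl
          · have h5 : l' ∈ G.nb a := HL_sub76 h3 h.ml42 h4
            have hqa : q ≠ a := by
              rintro rfl
              exact (stTwHL_5 G).notHL n9 _ _ _ h3 ⟨_, h.t⟩
            have h6 : q ∈ G.nb a := HL_sub76 h3 h.mq42 hqa
            rcases (h.mem42 a).1 (G.sym _ _ (HL_b76 h3)) with e | e | e | e | e | e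
            · exact h4 e.symm
            · exact hqa e.symm
            · exact (stTwHL_5 G).notHL n9 _ _ _ h3 (e ▸ tw_of76' h.t)
            · exact hxl' (G.sym _ _ (e ▸ h5))
            · exact hyq (G.sym _ _ (e ▸ h6))
            · exact hzq (G.sym _ _ (e ▸ h6))
          · exact (HL_bt76 h3).2 rfl
        · obtain ⟨a, b, h2, -, -, h3⟩ := h1
          rcases lows a (mem_nR76.1 h2).1 h3.1 with rfl | rfl
          · exact (LL_tb76 h3).2 (h.lown42 (LL_ab76 h3) h3.2.1).symm
          · exact (LL_ua76 h3).2 rfl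
    · exact h.LLj42 hG hl' hb (Or.inr (Or.inr rfl)) cz (Or.inr (Or.inl rfl)) cy
  · rcases cz with cz | ⟨b', hb', cz⟩
    · exact h.LLj42 hG hl' hb (Or.inr (Or.inl rfl)) cy (Or.inr (Or.inr rfl)) cz
    · have hbb := h.LL2_42 cy cz e1 a4.symm
      have h1 := lq_D0_86 hG.g5 (by omega) h.low' h.t hadj.1 ⟨h.l'R42, hl'⟩ ⟨h.qR42, hq⟩
        ⟨hI.1, hI.2.trans hq⟩
      have inq : ∀ {c u : V}, G.LL l' c l u → c ∈ G.nb l' ∩ G.nb q ∧ p ≠ c ∧ l ≠ c := by
        intro c u h2
        have h3 : G.Low c := h2.2.1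
        rcases LL_to76 h2 hadj.1 hlq.symm with e | e
        · exact absurd h3 (e ▸ tw_not_low76 ⟨_, h.t⟩)
        · refine ⟨mem_inter.2 ⟨LL_ab76 h2, G.sym _ _ e⟩, ?_, (LL_tb76 h2).2⟩
          rintro rfl
          exact tw_not_low76 (tw_of76' h.t) h3
      have i1 := inq cy
      have i2 := inq cz
      have h2 := len_le33 (S := G.nb l' ∩ G.nb q) [p, l, b, b'] (by
        simp only [List.nodup_cons, List.mem_cons, List.not_mem_nil, or_false, not_or,
          not_false_iff, List.nodup_nil, and_true]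
        exact ⟨⟨hlp.symm, i1.2.1, i2.2.1⟩, ⟨i1.2.2, i2.2.2⟩, hbb⟩) (by
        intro w hw
        simp only [List.mem_cons, List.not_mem_nil, or_false] at hw
        rcases hw with rfl | rfl | rfl | rfl
        exacts [mem_inter.2 ⟨hadj.2, h.t.1⟩,
          mem_inter.2 ⟨G.sym _ _ h.ml42, G.sym _ _ h.mq42⟩, i1.1, i2.1])
      simp only [List.length_cons, List.length_nil] at h2
      omega

/-! ### `q` is in no neighbourhood -/

/-- two members of `I u`: two hidden neighbours -/
theorem hid2_42 {u : V} (hk : 2 ≤ (G.I Fa u).card) (hr : G.Reg Fa) :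
    (G.nR Fa u).card + 2 ≤ (G.nb u).card := by
  obtain ⟨B, hB, B', hB', hne⟩ := one_lt_card.1 (show 1 < (G.I Fa u).card by omega)
  obtain ⟨h1, h2⟩ := mem_I76.1 hB
  obtain ⟨h3, h4⟩ := mem_I76.1 hB'
  obtain ⟨-, v, hv, huv⟩ := mem_N76.1 h2
  obtain ⟨-, w, hw, huw⟩ := mem_N76.1 h4
  have hvw : v ≠ w := by
    rintro rfl
    exact disjoint_left.1 (hr.dis B h1 B' h3 hne).1 hv hw
  have hd : Disjoint (G.nR Fa u) {v, w} := by
    rw [disjoint_left]
    intro a ha ha'
    rw [mem_insert, mem_singleton] at ha'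
    have h5 := (mem_nR76.1 ha).2
    rcases ha' with rfl | rfl
    · exact mem_R76.1 h5 B h1 hv
    · exact mem_R76.1 h5 B' h3 hw
  have h6 := card_union_of_disjoint hd
  have h7 : G.nR Fa u ∪ {v, w} ⊆ G.nb u := by
    refine union_subset inter_subset_left ?_
    intro a ha
    rw [mem_insert, mem_singleton] at ha
    rcases ha with rfl | rfl
    · exact G.sym _ _ huv
    · exact G.sym _ _ huw
  have h8 := card_le_card h7
  rw [h6, card_pair hvw] at h8
  exact h8

/-- one member of `I u`: a hidden neighbour -/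
theorem hid1_42 {u : V} {B : Finset V} (hB : B ∈ G.I Fa u) :
    (G.nR Fa u).card + (G.nb u ∩ B).card ≤ (G.nb u).card ∧ 1 ≤ (G.nb u ∩ B).card := by
  obtain ⟨h1, h2⟩ := mem_I76.1 hB
  obtain ⟨-, v, hv, huv⟩ := mem_N76.1 h2
  have hd : Disjoint (G.nR Fa u) (G.nb u ∩ B) := by
    rw [disjoint_left]
    intro a ha ha'
    exact mem_R76.1 (mem_nR76.1 ha).2 B h1 (mem_inter.1 ha').2
  constructor
  · rw [← card_union_of_disjoint hd]
    exact card_le_card (union_subset inter_subset_left inter_subset_left)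
  · exact card_pos.2 ⟨v, mem_inter.2 ⟨G.sym _ _ huv, hv⟩⟩

/-- the vertex that covers `u` at `l`, a neighbour of `l'`: `u` itself or a low vertex -/
theorem T6s.wit42 (h : G.T6s Fa l l' q p x y z) {u : V} (huR : u ∈ R Fa) (hu : G.Hub u)
    (hul : u ∈ G.nb l) (hc : Cl42 G Fa l l' u) :
    ∃ e ∈ G.nR Fa l', e ≠ l ∧ e ≠ q ∧ e ≠ p ∧ (e = u ∨ (G.Low e ∧ G.LL l' e l u)) := by
  rcases hc with hc | ⟨b, hb, hc⟩
  · refine ⟨u, mem_nR76.2 ⟨hc, huR⟩, ?_, ?_, ?_, Or.inl rfl⟩
    · rintro rfl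
      exact hu.1 h.low
    · rintro rfl
      exact hu.2 ⟨_, h.t⟩
    · rintro rfl
      exact hu.2 (tw_of76' h.t)
  · have hbl : G.Low b := hc.2.1
    refine ⟨b, mem_nR76.2 ⟨LL_ab76 hc, hb⟩, (LL_tb76 hc).2.symm, ?_, ?_, Or.inr ⟨hbl, hc⟩⟩
    · rintro rfl
      exact tw_not_low76 ⟨_, h.t⟩ hbl
    · rintro rfl
      exact tw_not_low76 (tw_of76' h.t) hbl

/-- the flags of `l'` if `l'` has one hidden neighbour and three outer neighbours -/
theorem T6s.flag42 (hG : G.Gen6 Fa) (h : G.T6s Fa l l' q p x y z) {B : Finset V}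
    (hI : G.I Fa l' = {B}) (h1 : (G.nb l' ∩ B).card ≤ 1) (h3 : 3 ≤ G.d l' (G.Co B))
    (ha : ∀ a ∈ G.nR Fa l', a = q ∨ a = p ∨ a ∈ G.nb l ∨ G.Low a) : 0 ≤ G.fg5 Fa l' := by
  have n9 := hG.g5.n9
  have hBI : B ∈ G.I Fa l' := hI.symm ▸ mem_singleton_self B
  have hB := (mem_I76.1 hBI).1
  have hfr := hG.g5.reg.frag B hB
  have hco := stCo_37 G B hfr
  have hnt : ¬ G.IsTw l' := fun e => tw_not_low76 e h.low'
  rw [K28.fg_single hI]
  have s0 : ∀ v, ¬ G.S0 B l' v := by
    rintro v ⟨-, -, -, -, ⟨r, r', h4, h5, -⟩, -⟩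
    have h6 : (G.pX B l').card = 2 := by rw [h5, card_pair (ne_of_nb5 h4.1)]
    rw [pX] at h6
    omega
  have e1 : G.flv B l' ≤ 0 := by
    rw [flv, s5, if_neg (fun ⟨v, hv, _⟩ => s0 v hv), if_neg (fun ⟨v, hv, _⟩ => s0 v hv),
      if_neg (show ¬ G.U3 B l' from fun h4 => by
        have h5 := h4.2.2.1
        rw [pX] at h5
        omega)]
    split_ifs <;> norm_num
  have e2 : 0 ≤ G.flv (G.Co B) l' := by
    rw [flv, if_neg (show ¬ G.T3 (G.Co B) l' from fun h4 => by
        have h5 := h4.2.2.1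
        rw [pX] at h5
        rw [d] at h3
        omega),
      if_neg (show ¬ G.HF (G.Co B) l' from ?_),
      if_neg (show ¬ G.RF (G.Co B) l' from fun h4 => by
        obtain ⟨-, p', -, -, h5, -⟩ := h4
        exact hnt ⟨p', h5⟩)]
    · have e3 : 0 ≤ G.s5 (G.Co B) l' := by
        rw [s5]
        split_ifs <;> norm_num
      split_ifs <;> linarith
    · rintro ⟨-, -, -, a, b, h4, h5, -, h6⟩
      have h7 : a ∈ G.pT (G.Co B) l' := h6.symm ▸ mem_singleton_self a
      have h8 : a ∈ G.nb l' := (mem_inter.1 h7).1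
      rw [hco.2.1] at h5
      have haR : a ∈ R Fa := by
        refine mem_R76.2 fun B' hB' haB => ?_
        by_cases hBB : B = B'
        · exact (mem_N76.1 h5).1 (hBB ▸ haB)
        · exact disjoint_left.1 (hG.g5.reg.dis B hB B' hB' hBB).2 h5 haB
      rcases ha a (mem_nR76.2 ⟨h8, haR⟩) with e | e | e | e
      · exact (stTwHL_5 G).notHL n9 _ _ _ h4 (e ▸ ⟨_, h.t⟩)
      · exact (stTwHL_5 G).notHL n9 _ _ _ h4 (e ▸ tw_of76' h.t)
      · exact h.noHL42 e h4
      · exact HL_not_low76 h4 e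
  linarith

/-- a common hub in one neighbourhood is good -/
theorem T6s.good42 (h : G.T6s Fa l l' q p x y z) {g : V} (h1 : g ∈ G.nb l) (h2 : g ∈ G.nb l')
    (h3 : G.Hub g) (h4 : (G.I Fa g).card = 1) : G.Good Fa l l' g :=
  ⟨h1, h2, ⟨h3, h4.le, fun ⟨_, hb⟩ => h.noHL42 h1 hb⟩, h4⟩

theorem T6s.b42 (hG : G.Gen6 Fa) (h0 : G.T6s Fa l l' q p x y z) (hq : G.I Fa q = ∅) :
    (G.I Fa l').card = 1 ∧ 0 ≤ G.ch5 Fa l' ∧
      ((∃ g, G.Good Fa l l' g) ∨ 2 ≤ G.ch5 Fa l') := by
  classical
  have n9 := hG.g5.n9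
  have hne : (G.I Fa l').Nonempty := by
    rcases h0.d0_42 hG with h1 | h1
    · exact absurd h1 (by rw [hq]; exact not_nonempty_empty)
    · exact h1
  obtain ⟨x', y', z', h, cy, cz, -⟩ := h0.two42 hG hq
  obtain ⟨⟨a1, a2, a3, a4, a5⟩, ⟨b1, b2, b3, b4⟩, ⟨c1, c2, c3⟩, ⟨d1, d2⟩, e1⟩ := h.ne42
  have hadj := h.adj42 hG
  have hll : l ≠ l' := ne_of_nb5 h.ml42
  have hI := (stTwHL_5 G).twI Fa hG.g5.reg q h.qR42 p h.t
  have hlow' : (G.nb l').card = 6 := h.low'
  have hlq : l ≠ q := ne_of_nb5 h.mq42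
  have hlp : l ≠ p := ne_of_nb5 h.mp42
  obtain ⟨e, he, el, eq, ep, e2⟩ := h.wit42 (nb_R76 h.lR h.I0 h.my42) h.hy.1 h.my42 cy
  obtain ⟨f, hf, fl, fq, fp, f2⟩ := h.wit42 (nb_R76 h.lR h.I0 h.mz42) h.hz.1 h.mz42 cz
  have hef : e ≠ f := by
    rintro rfl
    rcases e2 with e2 | e2
    · rcases f2 with f2 | f2
      · exact e1 (e2.symm.trans f2)
      · exact h.hy.1.1 (e2 ▸ f2.1)
    · rcases f2 with f2 | f2
      · exact h.hz.1.1 (f2 ▸ e2.1)
      · exact h.LL2_42 e2.2 f2.2 e1 a4.symm rfl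
  have hlR : l ∈ G.nR Fa l' := mem_nR76.2 ⟨G.sym _ _ h.ml42, h.lR⟩
  have hqR : q ∈ G.nR Fa l' := mem_nR76.2 ⟨hadj.1, h.qR42⟩
  have hpR : p ∈ G.nR Fa l' := mem_nR76.2 ⟨hadj.2, hI.1⟩
  have nd5 : [l, q, p, e, f].Nodup := by
    simp only [List.nodup_cons, List.mem_cons, List.not_mem_nil, or_false, not_or,
      not_false_iff, List.nodup_nil, and_true]
    exact ⟨⟨hlq, hlp, el.symm, fl.symm⟩, ⟨b1, eq.symm, fq.symm⟩, ⟨ep.symm, fp.symm⟩, hef⟩
  have hmem5 : ∀ w ∈ [l, q, p, e, f], w ∈ G.nR Fa l' := by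
    intro w hw
    simp only [List.mem_cons, List.not_mem_nil, or_false] at hw
    rcases hw with rfl | rfl | rfl | rfl | rfl
    exacts [hlR, hqR, hpR, he, hf]
  have h5 := len_le33 _ nd5 hmem5
  simp only [List.length_cons, List.length_nil] at h5
  have hk : (G.I Fa l').card = 1 := by
    have h6 := card_pos.2 hne
    by_contra h7
    have h8 := hid2_42 (G := G) (Fa := Fa) (u := l') (by omega) hG.g5.reg
    omega
  obtain ⟨B, hB⟩ := card_eq_one.1 hk
  have hBI : B ∈ G.I Fa l' := hB.symm ▸ mem_singleton_self B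
  have hhid := hid1_42 hBI
  -- all visible neighbours
  have hall : ∀ a ∈ G.nR Fa l', a = l ∨ a = q ∨ a = p ∨ a = e ∨ a = f := by
    have h6 : [l, q, p, e, f].toFinset = G.nR Fa l' := by
      apply Finset.eq_of_subset_of_card_le
      · intro v hv
        exact hmem5 v (List.mem_toFinset.1 hv)
      · rw [List.toFinset_card_of_nodup nd5]
        simp only [List.length_cons, List.length_nil]
        omega
    intro a ha
    rw [← h6, List.mem_toFinset] at ha
    simpa only [List.mem_cons, List.not_mem_nil, or_false] using ha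
  have outm : ∀ a ∈ G.nR Fa l', B ∉ G.I Fa a → a ∈ G.nb l' ∩ G.Co B := fun a ha h6 =>
    (mem_X76 h.l'R42 hB).2 ⟨ha, h6⟩
  have ol := outm l hlR (by rw [h.I0]; exact notMem_empty B)
  have oq := outm q hqR (by rw [hq]; exact notMem_empty B)
  have op := outm p hpR (by rw [hI.2, hq]; exact notMem_empty B)
  have h3 : 3 ≤ G.d l' (G.Co B) := by
    have h6 := len_le33 (S := G.nb l' ∩ G.Co B) [l, q, p] (by
      simp only [List.nodup_cons, List.mem_cons, List.not_mem_nil, or_false, not_or,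
        not_false_iff, List.nodup_nil, and_true]
      exact ⟨⟨hlq, hlp⟩, b1⟩) (by
      intro w hw
      simp only [List.mem_cons, List.not_mem_nil, or_false] at hw
      rcases hw with rfl | rfl | rfl
      exacts [ol, oq, op])
    exact h6
  have hfg := h.flag42 hG hB (by omega) h3 (by
    intro a ha
    rcases hall a ha with e3 | e3 | e3 | e3 | e3
    · exact Or.inr (Or.inr (Or.inr (e3 ▸ h.low)))
    · exact Or.inl e3
    · exact Or.inr (Or.inl e3)
    · rcases e2 with e4 | e4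
      · exact Or.inr (Or.inr (Or.inl (by rw [e3, e4]; exact h.my42)))
      · exact Or.inr (Or.inr (Or.inr (e3 ▸ e4.1)))
    · rcases f2 with e4 | e4
      · exact Or.inr (Or.inr (Or.inl (by rw [e3, e4]; exact h.mz42)))
      · exact Or.inr (Or.inr (Or.inr (e3 ▸ e4.1))))
  have hch := (stCh5_28 G).low1 n9 Fa hG.g5.reg l' h.l'R42 h.low' B hB
  have nf1 : l ∈ G.NF Fa l' := mem_NF33.2 ⟨hlR, Or.inl h.low⟩
  have nf1' : 1 ≤ (G.NF Fa l').card := card_pos.2 ⟨l, nf1⟩
  have nf2 : ∀ b ∈ G.nR Fa l', b ≠ l → G.Low b → 2 ≤ (G.NF Fa l').card := by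
    intro b hb hbl hblow
    have h6 := len_le33 (S := G.NF Fa l') [l, b] (by
      simp only [List.nodup_cons, List.mem_cons, List.not_mem_nil, or_false, not_or,
        not_false_iff, List.nodup_nil, and_true]
      exact hbl.symm) (by
      intro w hw
      simp only [List.mem_cons, List.not_mem_nil, or_false] at hw
      rcases hw with rfl | rfl
      exacts [nf1, mem_NF33.2 ⟨hb, Or.inl hblow⟩])
    exact h6
  refine ⟨hk, by omega, ?_⟩
  rcases e2 with e2 | e2
  · by_cases hBy : B ∈ G.I Fa y'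
    · left
      refine ⟨y', h.good42 h.my42 (e2 ▸ (mem_nR76.1 he).1) h.hy.1 ?_⟩
      have h6 := h.hy.2.1
      have h7 := card_pos.2 ⟨B, hBy⟩
      omega
    · right
      have h6 := len_le33 (S := G.nb l' ∩ G.Co B) [l, q, p, e] (by
        simp only [List.nodup_cons, List.mem_cons, List.not_mem_nil, or_false, not_or,
          not_false_iff, List.nodup_nil, and_true]
        exact ⟨⟨hlq, hlp, el.symm⟩, ⟨b1, eq.symm⟩, ep.symm⟩) (by
        intro w hw
        simp only [List.mem_cons, List.not_mem_nil, or_false] at hw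
        rcases hw with rfl | rfl | rfl | rfl
        exacts [ol, oq, op, outm w he (e2 ▸ hBy)])
      simp only [List.length_cons, List.length_nil] at h6
      rw [d] at hch
      omega
  · right
    have h6 := nf2 e he el e2.1
    omega

/-! ### the rows -/

theorem stT6_adj42 (G : CG V) : ∀ Fa, G.Gen6 Fa → ∀ l l' q p x y z,
    G.T6s Fa l l' q p x y z → q ∈ G.nb l' := fun _ hG _ _ _ _ _ _ _ h => (h.adj42 hG).1

theorem stT6_d0_42 (G : CG V) : ∀ Fa, G.Gen6 Fa → ∀ l l' q p x y z,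
    G.T6s Fa l l' q p x y z → (G.I Fa q).Nonempty ∨ (G.I Fa l').Nonempty :=
  fun _ hG _ _ _ _ _ _ _ h => h.d0_42 hG

theorem stT6_b42 (G : CG V) : ∀ Fa, G.Gen6 Fa → ∀ l l' q p x y z,
    G.T6s Fa l l' q p x y z → G.I Fa q = ∅ →
    (G.I Fa l').card = 1 ∧ ((∃ g, G.Good Fa l l' g) ∨ 2 ≤ G.ch5 Fa l') :=
  fun _ hG _ _ _ _ _ _ _ h hq => ⟨(h.b42 hG hq).1, (h.b42 hG hq).2.2⟩

/-- `np` if the pair is in no neighbourhood -/
theorem stT6_np0_42 (G : CG V) : ∀ Fa, G.Gen6 Fa → ∀ l l' q p x y z,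
    G.T6s Fa l l' q p x y z → G.I Fa q = ∅ → 0 ≤ G.ch5 Fa l' :=
  fun _ hG _ _ _ _ _ _ _ h hq => (h.b42 hG hq).2.1

end CG

end Pool.Agent.Lib.MP_e95c01_co.N
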