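import Pool.Agent.Lib.MP_e95c01_co.Six
import Pool.Agent.Lib.MP_e95c01_co.N.Transfer53
import Pool.Agent.Lib.MP_e95c01_co.X.StmtsV76

/-!
# Transfer to graphs
-/

namespace Pool.Agent.Lib.MP_e95c01_co

/-- `G` has six mutually adjacent vertices, all of degree at most 7 -/
def SixClique {V : Type} (G : SimpleGraph V) : Prop :=
  ∃ f : Fin 6 → V, (∀ i j, i ≠ j → G.Adj (f i) (f j)) ∧ ∀ i, (G.neighborSet (f i)).ncard ≤ 7

/-- `G` has no six mutually adjacent vertices -/
def NoK6 {V : Type} (G : SimpleGraph V) : Prop :=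
  ∀ f : Fin 6 → V, ∃ i j, i ≠ j ∧ ¬ G.Adj (f i) (f j)

/-- the graphs `G6 m`, `m ≥ 5`, have no six mutually adjacent vertices -/
theorem noK6_G6 {m : ℕ} (hm : 5 ≤ m) : NoK6 (G6 m) := by
  intro f
  by_contra hcon
  push Not at hcon
  have hadj : ∀ i j, i ≠ j → ∃ e : ℤ, |e| ≤ 4 ∧ e ≠ 0 ∧ f j = f i + e := by
    intro i j hij
    obtain ⟨hne, e, he, h1⟩ := hcon i j hij
    refine ⟨e, ?_, ?_, he⟩
    · rcases h1 with h1 | h1 | h1
      · linarith
      · rw [h1.1]; norm_num
      · rw [h1.1]; norm_num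
    · rintro rfl
      apply hne
      rw [he]
      simp
  -- differences to the first vertex
  have h0 : ∀ i : Fin 6, ∃ d : ℤ, |d| ≤ 4 ∧ (d = 0 ↔ i = 0) ∧ f i = f 0 + d := by
    intro i
    by_cases hi : i = 0
    · subst hi
      exact ⟨0, by norm_num, by simp, by simp⟩
    · obtain ⟨e, h1, h2, h3⟩ := hadj 0 i (Ne.symm hi)
      exact ⟨e, h1, ⟨fun h => absurd h h2, fun h => absurd h hi⟩, h3⟩
  choose d hd1 hd2 hd3 using h0
  have hdiff : ∀ i j, i ≠ j → |d j - d i| ≤ 4 ∧ d i ≠ d j := by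
    intro i j hij
    obtain ⟨e, h1, h2, h3⟩ := hadj i j hij
    have h4 : (((d j - d i - e : ℤ)) : ZMod (3 * m)) = 0 := by
      have h5 := hd3 i
      have h6 := hd3 j
      rw [h3, h5] at h6
      push_cast
      have h7 : (d i : ZMod (3 * m)) + e = d j := by
        have h8 : f 0 + ((d i : ZMod (3 * m)) + e) = f 0 + d j := by rw [← h6]; ring
        exact add_left_cancel h8
      rw [← h7]
      ring
    rw [ZMod.intCast_zmod_eq_zero_iff_dvd] at h4
    have h9 : |d j - d i - e| < ((3 * m : ℕ) : ℤ) := by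
      have a1 := hd1 i
      have a2 := hd1 j
      rw [abs_le] at a1 a2 h1
      have h10 : (15 : ℤ) ≤ ((3 * m : ℕ) : ℤ) := by exact_mod_cast (by omega : 15 ≤ 3 * m)
      rw [abs_lt]
      constructor <;> linarith [a1.1, a1.2, a2.1, a2.2, h1.1, h1.2]
    have h11 := Int.eq_zero_of_abs_lt_dvd h4 h9
    have h12 : d j - d i = e := by linarith
    exact ⟨by rw [h12]; exact h1, fun h => h2 (by rw [← h12, h]; ring)⟩
  have hinj : Function.Injective d := by
    intro i j h
    by_contra hij
    exact (hdiff i j hij).2 h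
  have hcard : (Finset.univ.image d).card = 6 := by
    rw [Finset.card_image_of_injective _ hinj]
    simp
  have hne : (Finset.univ.image d).Nonempty := ⟨d 0, Finset.mem_image_of_mem _ (Finset.mem_univ _)⟩
  obtain ⟨i0, -, hi0⟩ := Finset.mem_image.1 (Finset.min'_mem _ hne)
  have hsub : Finset.univ.image d ⊆ Finset.Icc (d i0) (d i0 + 4) := by
    intro z hz
    obtain ⟨j, -, rfl⟩ := Finset.mem_image.1 hz
    rw [Finset.mem_Icc]
    have h1 : d i0 ≤ d j := by
      rw [hi0]
      exact Finset.min'_le _ _ hz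
    refine ⟨h1, ?_⟩
    by_cases hj : i0 = j
    · subst hj; linarith
    · have := (hdiff i0 j hj).1
      rw [abs_le] at this
      linarith [this.2]
  have h1 := Finset.card_le_card hsub
  rw [hcard, Int.card_Icc] at h1
  have : (d i0 + 4 + 1 - d i0).toNat = 5 := by
    rw [show d i0 + 4 + 1 - d i0 = 5 by ring]
    rfl
  omega

/-- a graph without six mutually adjacent vertices has no `SixClique` -/
theorem NoK6.noClique {V : Type} {G : SimpleGraph V} (h : NoK6 G) : ¬ SixClique G := by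
  rintro ⟨f, h1, -⟩
  obtain ⟨i, j, h2, h3⟩ := h f
  exact h3 (h1 i j h2)

namespace N

namespace Text5

/-- transfer of the bound for all graphs -/
theorem all (hF : ∀ (V : Type) [Fintype V] [DecidableEq V] (C : CG V), C.StFnV)
    {V : Type} [Finite V] (G : SimpleGraph V) (hG : Critical 6 G) :
    2 * Nat.card V ≤ 7 * numDeg 6 G := by
  classical
  have := Fintype.ofFinite V
  by_cases hn : Nat.card V ≤ 7
  · rw [Transfer53.seven G hG.1 hn]; omega
  · have h3 := hF V (Transfer53.cg G hG.1) (Transfer53.crit G hG (by omega))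
    rw [Transfer53.l_univ, ← Nat.card_eq_fintype_card] at h3
    exact h3

/-- transfer of the bound for graphs without `SixClique` -/
theorem free (hF : ∀ (V : Type) [Fintype V] [DecidableEq V] (C : CG V), C.StFnK)
    {V : Type} [Finite V] (G : SimpleGraph V) (hG : Critical 6 G) (hK : ¬ SixClique G) :
    Nat.card V ≤ 3 * numDeg 6 G := by
  classical
  have := Fintype.ofFinite V
  by_cases hn : Nat.card V ≤ 7
  · rw [Transfer53.seven G hG.1 hn]; omega
  · have h3 := hF V (Transfer53.cg G hG.1) (Transfer53.crit G hG (by omega)) (by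
      rintro ⟨S, h1, h2, h3⟩
      apply hK
      have e := S.equivFinOfCardEq h1
      refine ⟨fun i => (e.symm i : V), ?_, ?_⟩
      · intro i j hij
        rw [← Transfer53.cg_nb G hG.1]
        refine h2 _ (e.symm i).2 _ (e.symm j).2 fun h => hij ?_
        exact e.symm.injective (Subtype.ext h)
      · intro i
        have h4 := h3 _ (e.symm i).2
        have h5 : ((Transfer53.cg G hG.1).nb (e.symm i : V)).card =
            (G.neighborSet (e.symm i : V)).ncard := Transfer53.card_nbs G _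
        rw [← h5]
        exact h4)
    rw [Transfer53.l_univ, ← Nat.card_eq_fintype_card] at h3
    exact h3

/-- the lower bound for `c_6` -/
theorem bound (h : ∀ (V : Type) [Finite V] (G : SimpleGraph V), Critical 6 G →
    2 * Nat.card V ≤ 7 * numDeg 6 G) : 2 / 7 ≤ cc 6 := by
  have hb : ∀ c ∈ {c : ℝ | 0 ≤ c ∧ Admissible 6 c}, c ≤ 1 / 3 := by
    rintro c ⟨-, hc⟩
    have hn : NeZero (3 * 3) := ⟨by omega⟩
    have h3 := hc (ZMod (3 * 3)) (G6 3) (critical6 (le_refl _))
    rw [Nat.card_zmod, numDeg6 (le_refl _)] at h3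
    push_cast at h3
    linarith
  apply le_csSup ⟨1 / 3, hb⟩
  refine ⟨by norm_num, ?_⟩
  intro V _ G hG
  have h1 := h V G hG
  have h2 : 2 * (Nat.card V : ℝ) ≤ 7 * (numDeg 6 G : ℝ) := by exact_mod_cast h1
  linarith

/-- the extremal graphs -/
theorem sharp (m : ℕ) (hm : 5 ≤ m) : ∃ (V : Type) (_ : Finite V) (G : SimpleGraph V),
    Nat.card V = 3 * m ∧ Critical 6 G ∧ NoK6 G ∧ numDeg 6 G = m := by
  have hn : NeZero (3 * m) := ⟨by omega⟩
  exact ⟨ZMod (3 * m), inferInstance, G6 m, by rw [Nat.card_zmod], critical6 (by omega),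
    noK6_G6 hm, numDeg6 (by omega)⟩

end Text5

end N

end Pool.Agent.Lib.MP_e95c01_co
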