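import Pool.Agent.Lib.MP_e95c01_co.X.StmtsV76

/-!
# V4: the exceptional leaf has a `K6` with four vertices in it
-/

namespace Pool.Agent.Lib.MP_e95c01_co.N

open Finset

variable {V : Type} [Fintype V] [DecidableEq V] (G : CG V)

namespace CG

theorem stK4k_88 : G.StK4k := by
  classical
  intro _ F _ h
  obtain ⟨h1, h2, h3⟩ := h
  have key : ∀ S, G.IsK6 S → 4 ≤ (S ∩ F).card → 1 ≤ G.kap F := by
    intro S hS hF
    unfold kap
    exact Finset.card_pos.2 ⟨S, by simpa using ⟨hS, hF⟩⟩
  rcases h3 with h3 | ⟨h3, q, q', hq, hqF, hqF', hsub⟩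
  · refine key F ⟨h3, h1, h2⟩ ?_
    rw [Finset.inter_self]
    omega
  · have hqq : q' ∈ G.nb q := hq.1
    have hne : q ≠ q' := fun h => G.irr q (by rw [← h] at hqq; exact hqq)
    have hq1 : q ∉ F := (Finset.mem_sdiff.1 hqF).2
    have hq2 : q' ∉ F := (Finset.mem_sdiff.1 hqF').2
    have hcl : G.cl q = G.cl q' := hq.2.2
    have hn7 : (G.nb q').card = 7 := by
      have e1 : (G.cl q).card = (G.nb q).card + 1 := by
        unfold cl
        exact Finset.card_insert_of_notMem (G.irr q)
      have e2 : (G.cl q').card = (G.nb q').card + 1 := by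
        unfold cl
        exact Finset.card_insert_of_notMem (G.irr q')
      have e3 := hq.2.1
      rw [hcl] at e1
      omega
    have hq' : G.Tw q' q := ⟨G.sym _ _ hqq, hn7, hcl.symm⟩
    have hx' : ∀ x ∈ F, x ∈ G.nb q' := by
      intro x hx
      have h4 : x ∈ G.cl q := Finset.mem_insert_of_mem (hsub hx)
      rw [hcl] at h4
      rcases Finset.mem_insert.1 h4 with h5 | h5
      · exact absurd (h5 ▸ hx) hq2
      · exact h5
    refine key (insert q (insert q' F)) ⟨?_, ?_, ?_⟩ ?_
    · rw [Finset.card_insert_of_notMem, Finset.card_insert_of_notMem hq2, h3]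
      rw [Finset.mem_insert, not_or]
      exact ⟨hne, hq1⟩
    · intro x hx
      rw [Finset.mem_insert, Finset.mem_insert] at hx
      rcases hx with rfl | rfl | hx
      · exact ⟨_, hq⟩
      · exact ⟨_, hq'⟩
      · exact h1 x hx
    · intro x hx y hy hxy
      rw [Finset.mem_insert, Finset.mem_insert] at hx hy
      rcases hx with rfl | rfl | hx <;> rcases hy with rfl | rfl | hy
      · exact absurd rfl hxy
      · exact hqq
      · exact hsub hy
      · exact G.sym _ _ hqq
      · exact absurd rfl hxy
      · exact hx' y hy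
      · exact G.sym _ _ (hsub hx)
      · exact G.sym _ _ (hx' x hx)
      · exact h2 x hx y hy hxy
    · have h4 : F ⊆ insert q (insert q' F) ∩ F :=
        Finset.subset_inter (fun x hx => Finset.mem_insert_of_mem (Finset.mem_insert_of_mem hx))
          (Finset.Subset.refl F)
      have := Finset.card_le_card h4
      omega

end CG

end Pool.Agent.Lib.MP_e95c01_co.N
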