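import Pool.Agent.Lib.MP_e95c01_co.X.StmtsS87
import Pool.Agent.Lib.MP_e95c01_co.X.StBal50
import Pool.Agent.Lib.MP_e95c01_co.U.StThin2_37
import Pool.Agent.Lib.MP_e95c01_co.T.Aux76

/-!
# Thin torsos with pairs of twins on both sides
-/

namespace Pool.Agent.Lib.MP_e95c01_co.N

open Finset

variable {V : Type} [Fintype V] [DecidableEq V]

namespace CG

variable {G : CG V} {A B : Finset V}

theorem st86 (h : G.Strip A B) : G.St1 A B := ⟨h.ne, h.reg, h.sub⟩

theorem strip_symm86 (h : G.Strip A B) : G.Strip B A := by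
  have hp : ({B, A} : Finset (Finset V)) = {A, B} := pair_comm B A
  exact ⟨h.ne.symm, by rw [hp]; exact h.reg, h.bigB, h.bigA, h.n9, h.sat,
    by rw [hp, union_comm]; exact h.sub⟩

theorem sx_symm86 (h : G.Sx A B) : G.Sx B A :=
  ⟨strip_symm86 h.st, by rw [pair_comm]; exact h.cov, h.e2, h.e1⟩

theorem frag86 (h : G.Strip A B) : G.Frag A := h.reg.frag A (by simp)

theorem mem_K0_86 {x : V} : x ∈ G.K0 A B ↔ x ∈ G.N A ∧ x ∉ G.N B := mem_sdiff

theorem mem_Cc_86 {x : V} : x ∈ G.Cc A B ↔ x ∈ G.N A ∧ x ∈ G.N B := mem_inter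

theorem Cc_comm86 : G.Cc A B = G.Cc B A := inter_comm _ _

/-- the opposite side of `A` -/
theorem Co_eq86 (h : G.Strip A B) : G.Co A = B ∪ G.K0 B A := by
  have hs := st86 h
  have hd := h.reg.dis A (by simp) B (by simp) h.ne
  ext v
  rw [mem_Co1, mem_union, mem_K0_86]
  constructor
  · rintro ⟨h1, h2⟩
    by_cases h3 : v ∈ B
    · exact Or.inl h3
    · rcases hs.cases h1 h3 with h4 | h4 | h4
      · exact absurd (mem_sdiff.1 h4).1 h2
      · exact Or.inr (mem_sdiff.1 h4)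
      · exact absurd (mem_inter.1 h4).1 h2
  · rintro (h1 | ⟨h1, h2⟩)
    · exact ⟨fun h2 => disjoint_left.1 hd.1 h2 h1, fun h2 => disjoint_left.1 hd.2 h2 h1⟩
    · exact ⟨(hs.symm.NA h1).2, h2⟩

theorem pO_card86 (h : G.Strip A B) (z : V) :
    (G.pO A z).card = (G.nb z ∩ B).card + (G.nb z ∩ G.K0 B A).card := by
  have hs := st86 h
  unfold pO
  rw [Co_eq86 h, inter_union_distrib_left, card_union_of_disjoint]
  rw [disjoint_left]
  intro v h1 h2
  exact (hs.symm.NA (mem_K0_86.1 (mem_inter.1 h2).2).1).1 (mem_inter.1 h1).2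

theorem pO_K0_86 (h : G.Strip A B) {x : V} (hx : x ∈ G.K0 A B) :
    G.pO A x = G.nb x ∩ G.K0 B A := by
  have hs := st86 h
  unfold pO
  rw [Co_eq86 h, inter_union_distrib_left]
  have h1 : G.nb x ∩ B = ∅ := by
    rw [eq_empty_iff_forall_notMem]
    intro v hv
    exact hs.notB hx (mem_inter.1 hv).1 (mem_inter.1 hv).2
  rw [h1, empty_union]

theorem pT_card86 (x : V) :
    (G.pT A x).card = (G.nb x ∩ G.K0 A B).card + (G.nb x ∩ G.Cc A B).card := nA_split2 x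

theorem split86 (x : V) : (G.nb x).card = (G.pX A x).card + (G.pO A x).card + (G.pT A x).card :=
  deg_split2 A x

/-! ### values -/

theorem B5_low86 {x : V} (hl : G.Low x) :
    G.B5 A x = 4 * ((G.pO A x).card : ℤ) + 2 * ((G.pT A x).card : ℤ) - 8 := by
  have h1 := split86 (G := G) (A := A) x
  have h2 : (G.nb x).card = 6 := hl
  have h3 : G.a5 x = 4 := if_pos hl
  have h4 : G.c5 x = 2 := by
    classical
    unfold c5
    rw [if_pos hl]
  unfold B5
  rw [h3, h4]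
  change 4 + 2 * (((G.pO A x).card : ℤ) - ((G.pX A x).card : ℤ)) = _
  omega

theorem tw7_86 {x : V} (ht : G.IsTw x) : (G.nb x).card = 7 := by
  obtain ⟨w, hw⟩ := ht
  exact hw.2.1

theorem tw_low86 {x : V} (ht : G.IsTw x) : ¬ G.Low x := by
  intro h
  have h1 := tw7_86 ht
  have h2 : (G.nb x).card = 6 := h
  omega

theorem B5_tw86 {x : V} (ht : G.IsTw x) :
    G.B5 A x = 2 * ((G.pO A x).card : ℤ) + ((G.pT A x).card : ℤ) - 9 := by
  have h1 := split86 (G := G) (A := A) x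
  have h2 := tw7_86 ht
  have hl := tw_low86 ht
  have h3 : G.a5 x = -2 := if_neg hl
  have h4 : G.c5 x = 1 := by
    classical
    unfold c5
    rw [if_neg hl, if_pos ht]
  unfold B5
  rw [h3, h4]
  change -2 + 1 * (((G.pO A x).card : ℤ) - ((G.pX A x).card : ℤ)) = _
  omega

theorem B5_hub86 {x : V} (hl : ¬ G.Low x) (ht : ¬ G.IsTw x) : G.B5 A x = -2 := by
  have h3 : G.a5 x = -2 := if_neg hl
  have h4 : G.c5 x = 0 := by
    classical
    unfold c5
    rw [if_neg hl, if_neg ht]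
  unfold B5
  rw [h3, h4]
  ring

theorem phi_hub86 {x : V} (hl : ¬ G.Low x) (ht : ¬ G.IsTw x) : G.phi A x = 0 := by
  unfold phi
  rw [flv_hub50 ⟨hl, ht⟩, flv_hub50 ⟨hl, ht⟩]
  ring

open Classical in
theorem flv_tw86 {z : V} (hz : ¬ G.Low z) (S : Finset V) :
    G.flv S z = - (if G.RF S z then 1 else 0) := by
  have h1 : ¬ ∃ v, G.S0 S z v ∧ ¬ G.LLs S z v := fun ⟨_, h, _⟩ => hz h.2.1
  have h2 : ¬ ∃ v, G.S0 S z v ∧ G.pT S v = {z} := fun ⟨_, h, _⟩ => hz h.2.1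
  have h3 : ¬ G.U3 S z := fun h => hz h.2.1
  have h4 : ¬ G.T3 S z := fun h => hz h.2.1
  have h5 : ¬ G.HF S z := fun h => hz h.2.1
  rw [flv, s5, if_neg h1, if_neg h2, if_neg h3, if_neg h4, if_neg h5]
  ring

theorem phi_tw86 (ty : G.StTy5) (h : G.Strip A B) {x : V} (hl : ¬ G.Low x)
    (h3 : (G.pO A x).card ≤ 3) : 0 ≤ G.phi A x := by
  classical
  unfold phi
  rw [flv_tw86 hl, flv_tw86 hl]
  have h1 : ¬ G.RF (G.Co A) x := by
    intro h2
    have h4 := (ty.rf _ _ h2).2.2.1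
    rw [(ty.co A (frag86 h) x).1] at h4
    omega
  rw [if_neg h1]
  split_ifs <;> norm_num

open Classical in
theorem phi_low86 (ty : G.StTy5) (h : G.Strip A B) {x : V} (hl : G.Low x)
    (h2 : 2 ≤ (G.pO A x).card) (h3 : (G.pO A x).card ≤ 3) :
    -2 * (if G.T3 (G.Co A) x then 1 else 0) - G.s5 A x + 2 * (if G.T3 A x then 1 else 0) ≤
      G.phi A x := by
  have hco := ty.co A (frag86 h) x
  have h4 : ¬ G.HF (G.Co A) x := by
    intro h5
    have h6 := (ty.hf _ _ h5).1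
    rw [hco.1] at h6
    omega
  have h5 : ¬ G.RF (G.Co A) x := fun h5 => (ty.rf _ _ h5).2.1 hl
  have h6 : ¬ G.U3 A x := by
    intro h5
    have h6 := (ty.u3 _ _ h5).2.2
    omega
  have h7 := (ty.s1 (G.Co A) x).1
  unfold phi flv
  rw [if_neg h4, if_neg h5, if_neg h6]
  split_ifs <;> omega

/-- a low vertex of `K0 A B` -/
theorem val_low86 (ty : G.StTy5) (h : G.Strip A B) {x : V} (hl : G.Low x)
    (h2 : 2 ≤ (G.pO A x).card) (h3 : (G.pO A x).card ≤ 3) :
    0 ≤ G.B5 A x + G.phi A x ∧ ((G.pO A x).card = 3 → 4 ≤ G.B5 A x + G.phi A x) := by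
  classical
  have h4 := phi_low86 ty h hl h2 h3
  have h5 := B5_low86 (G := G) (A := A) hl
  have hco := ty.co A (frag86 h) x
  have h6 := ty.s1 A x
  have h7 : G.s5 A x ≠ 0 → (G.pT A x).card = 1 ∧ (G.pO A x).card = 3 := by
    intro h8
    have h9 := ty.s2 A x h8
    exact ⟨h9.2.2.2.1, h9.2.2.2.2.1⟩
  have h8 : G.T3 (G.Co A) x → (G.pO A x).card = 2 ∧ (G.pT A x).card = 2 := by
    intro h9
    have h10 := ty.t3 _ _ h9
    rw [hco.1, hco.2.1] at h10
    exact ⟨h10.1, h10.2.1⟩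
  by_cases h9 : G.s5 A x = 0
  · by_cases h10 : G.T3 (G.Co A) x
    · obtain ⟨k1, k2⟩ := h8 h10
      rw [if_pos h10, h9] at h4
      constructor
      · split_ifs at h4 <;> omega
      · intro h11
        omega
    · rw [if_neg h10, h9] at h4
      constructor
      · split_ifs at h4 <;> omega
      · intro h11
        split_ifs at h4 <;> omega
  · obtain ⟨k1, k2⟩ := h7 h9
    have h10 : ¬ G.T3 (G.Co A) x := fun h10 => by
      have := h8 h10
      omega
    rw [if_neg h10] at h4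
    constructor
    · split_ifs at h4 <;> omega
    · intro h11
      split_ifs at h4 <;> omega

/-- a vertex of `K0 A B` that is not a twin -/
theorem val_any86 (ty : G.StTy5) (h : G.Strip A B) {x : V} (ht : ¬ G.IsTw x)
    (h2 : 2 ≤ (G.pO A x).card) (h3 : (G.pO A x).card ≤ 3) : -2 ≤ G.B5 A x + G.phi A x := by
  by_cases hl : G.Low x
  · have := (val_low86 ty h hl h2 h3).1
    omega
  · rw [B5_hub86 hl ht, phi_hub86 hl ht]
    norm_num

/-! ### common vertices adjacent to a pair on each side -/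

theorem disK86 : Disjoint (G.K0 A B) (G.K0 B A) := by
  rw [disjoint_left]
  intro v h1 h2
  exact (mem_K0_86.1 h1).2 (mem_K0_86.1 h2).1

/-- the neighbours of a low common vertex adjacent to a pair on each side -/
theorem common86 (h : G.Strip A B) {w X X' Y Y' : V} (hw : w ∈ G.Cc A B) (hl : G.Low w)
    (hX : X ∈ G.K0 A B) (hX' : X' ∈ G.K0 A B) (hY : Y ∈ G.K0 B A) (hY' : Y' ∈ G.K0 B A)
    (hXX : X ≠ X') (hYY : Y ≠ Y') (aX : X ∈ G.nb w) (aX' : X' ∈ G.nb w) (aY : Y ∈ G.nb w)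
    (aY' : Y' ∈ G.nb w) :
    (G.nb w ∩ A).card = 1 ∧ (G.nb w ∩ B).card = 1 ∧ G.nb w ∩ G.K0 A B = {X, X'} ∧
      G.nb w ∩ G.K0 B A = {Y, Y'} ∧ G.nb w ∩ G.Cc A B = ∅ := by
  have hc := mem_Cc_86.1 hw
  have h1 := split86 (G := G) (A := A) w
  have h2 := pO_card86 h w
  have h3 := pT_card86 (G := G) (A := A) (B := B) w
  have h4 : 1 ≤ (G.nb w ∩ A).card := d_pos76 hc.1
  have h5 : 1 ≤ (G.nb w ∩ B).card := d_pos76 hc.2
  have h6 : ({X, X'} : Finset V) ⊆ G.nb w ∩ G.K0 A B := by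
    intro v hv
    rw [mem_insert, mem_singleton] at hv
    rcases hv with rfl | rfl
    · exact mem_inter.2 ⟨aX, hX⟩
    · exact mem_inter.2 ⟨aX', hX'⟩
  have h7 : ({Y, Y'} : Finset V) ⊆ G.nb w ∩ G.K0 B A := by
    intro v hv
    rw [mem_insert, mem_singleton] at hv
    rcases hv with rfl | rfl
    · exact mem_inter.2 ⟨aY, hY⟩
    · exact mem_inter.2 ⟨aY', hY'⟩
  have h8 := card_le_card h6
  have h9 := card_le_card h7
  rw [card_pair hXX] at h8
  rw [card_pair hYY] at h9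
  have h10 : (G.nb w).card = 6 := hl
  have h11 : (G.pX A w).card = (G.nb w ∩ A).card := rfl
  refine ⟨by omega, by omega, ?_, ?_, ?_⟩
  · exact (eq_of_subset_of_card_le h6 (by rw [card_pair hXX]; omega)).symm
  · exact (eq_of_subset_of_card_le h7 (by rw [card_pair hYY]; omega)).symm
  · rw [← card_eq_zero]
    omega

/-- a twin vertex in the common part is not adjacent to a pair on each side -/
theorem no_tw86 (h : G.Strip A B) {w w' X X' Y Y' : V} (hw : w ∈ G.Cc A B) (hw' : w' ∈ G.Cc A B)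
    (ht : G.Tw w w')
    (hX : X ∈ G.K0 A B) (hX' : X' ∈ G.K0 A B) (hY : Y ∈ G.K0 B A) (hY' : Y' ∈ G.K0 B A)
    (hXX : X ≠ X') (hYY : Y ≠ Y') (aX : X ∈ G.nb w) (aX' : X' ∈ G.nb w) (aY : Y ∈ G.nb w)
    (aY' : Y' ∈ G.nb w) : False := by
  have hc := mem_Cc_86.1 hw
  have hR : w ∈ R ({A, B} : Finset (Finset V)) := memR2_1.2 ((st86 h).NA hc.1)
  have hI : G.I {A, B} w = {A, B} := St1.IC hw
  have hbig : ∀ D ∈ ({A, B} : Finset (Finset V)), 3 ≤ D.card := by
    intro D hD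
    rw [mem_insert, mem_singleton] at hD
    rcases hD with rfl | rfl
    · exact h.bigA
    · exact h.bigB
  have h1 := split86 (G := G) (A := A) w
  have h2 := pO_card86 h w
  have h3 := pT_card86 (G := G) (A := A) (B := B) w
  have h4 : 2 ≤ (G.nb w ∩ A).card :=
    hid_5 h.reg hbig hR ⟨w', ht⟩ (by rw [hI]; simp)
  have h5 : 2 ≤ (G.nb w ∩ B).card :=
    hid_5 h.reg hbig hR ⟨w', ht⟩ (by rw [hI]; simp)
  have h6 : 2 ≤ (G.nb w ∩ G.K0 A B).card :=
    two_le5 (mem_inter.2 ⟨aX, hX⟩) (mem_inter.2 ⟨aX', hX'⟩) hXX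
  have h7 : 2 ≤ (G.nb w ∩ G.K0 B A).card :=
    two_le5 (mem_inter.2 ⟨aY, hY⟩) (mem_inter.2 ⟨aY', hY'⟩) hYY
  have h10 := ht.2.1
  have h11 : (G.pX A w).card = (G.nb w ∩ A).card := rfl
  omega

theorem tw_adj86 {X X' w : V} (h : G.Tw X X') (hw : w ≠ X') (a : X ∈ G.nb w) : X' ∈ G.nb w :=
  G.sym _ _ (Tw_nb5 h (G.sym _ _ a) hw)

/-- the balance of such a low vertex -/
theorem net_common86 (ty : G.StTy5) (loc : G.StLoc5) (h : G.Strip A B) {w X X' Y Y' : V}
    (hw : w ∈ G.Cc A B) (hl : G.Low w) (tX : G.Tw X X') (tY : G.Tw Y Y')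
    (hX : X ∈ G.K0 A B) (hX' : X' ∈ G.K0 A B) (hY : Y ∈ G.K0 B A) (hY' : Y' ∈ G.K0 B A)
    (aX : X ∈ G.nb w) (aX' : X' ∈ G.nb w) (aY : Y ∈ G.nb w)
    (aY' : Y' ∈ G.nb w) : G.Tch A B w ∧ 12 ≤ G.net5 A B w := by
  classical
  have hXX := ne_of_nb5 tX.1
  have hYY := ne_of_nb5 tY.1
  obtain ⟨k1, k2, k3, k4, k5⟩ := common86 h hw hl hX hX' hY hY' hXX hYY aX aX' aY aY'
  have hT : G.Tch A B w :=
    ⟨hw, X, mem_inter.2 ⟨aX, mem_union_left _ hX⟩⟩
  refine ⟨hT, ?_⟩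
  have hc := mem_Cc_86.1 hw
  have hnotA : ¬ G.KA A B w := by
    rintro (⟨h1, -⟩ | ⟨-, ⟨x, -, -, h1, -⟩ | ⟨-, h1, -⟩ | ⟨Q, Q', -, -, h1, -⟩ |
      ⟨a, -, b, -, -, h1, -⟩⟩)
    · rw [k3] at h1
      exact absurd h1 (insert_ne_empty _ _)
    · rw [k3] at h1
      have h2 := congrArg Finset.card h1
      rw [card_pair hXX, card_singleton] at h2
      omega
    · have h2 : (G.pX A w).card = (G.nb w ∩ A).card := rfl
      omega
    · have h2 : (G.pX A w).card = (G.nb w ∩ A).card := rfl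
      omega
    · rw [k3] at h1
      have h2 := congrArg Finset.card h1
      rw [card_pair hXX, card_singleton] at h2
      omega
  have hnotB : ¬ G.KA B A w := by
    rintro (⟨h1, -⟩ | ⟨-, ⟨x, -, -, h1, -⟩ | ⟨-, h1, -⟩ | ⟨Q, Q', -, -, h1, -⟩ |
      ⟨a, -, b, -, -, h1, -⟩⟩)
    · rw [k4] at h1
      exact absurd h1 (insert_ne_empty _ _)
    · rw [k4] at h1
      have h2 := congrArg Finset.card h1
      rw [card_pair hYY, card_singleton] at h2
      omega
    · have h2 : (G.pX B w).card = (G.nb w ∩ B).card := rfl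
      omega
    · have h2 : (G.pX B w).card = (G.nb w ∩ B).card := rfl
      omega
    · rw [k4] at h1
      have h2 := congrArg Finset.card h1
      rw [card_pair hYY, card_singleton] at h2
      omega
  obtain ⟨α, β, h1, h2, h3, h4, h5⟩ := loc A B h w hT hl
  have hα : α = 0 := h1.resolve_right fun h6 => hnotA (h3 h6)
  have hβ : β = 0 := h2.resolve_right fun h6 => hnotB (h4 h6)
  have hU : ∀ {A B : Finset V} {X X' : V}, G.Strip A B → w ∈ G.N A → (G.nb w ∩ B).card = 1 →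
      (G.nb w ∩ G.K0 B A).card = 2 → G.Tw X X' → G.nb w ∩ G.K0 A B = {X, X'} →
      G.nb w ∩ G.Cc A B = ∅ → G.U3 (G.Co A) w := by
    intro A B X X' h hwA m1 m2 tX m3 m4
    have hco := ty.co A (frag86 h) w
    refine ⟨?_, hl, ?_, ?_⟩
    · rw [(ty.nt A (frag86 h)).1]
      exact hwA
    · rw [hco.1, pO_card86 h w]
      omega
    · rw [hco.2.1]
      refine ⟨X, X', tX, ?_⟩
      rw [← m3]
      ext v
      unfold pT
      rw [mem_inter, mem_inter, mem_K0_86]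
      constructor
      · rintro ⟨n1, n2⟩
        refine ⟨n1, n2, fun n3 => ?_⟩
        have n4 : v ∈ G.nb w ∩ G.Cc A B := mem_inter.2 ⟨n1, mem_Cc_86.2 ⟨n2, n3⟩⟩
        rw [m4] at n4
        exact absurd n4 (notMem_empty _)
      · rintro ⟨n1, n2, -⟩
        exact ⟨n1, n2⟩
  have hUA : G.U3 (G.Co A) w := hU h hc.1 k2 (by rw [k4, card_pair hYY]) tX k3 k5
  have hUB : G.U3 (G.Co B) w := by
    refine hU (strip_symm86 h) hc.2 k1 (by rw [k3, card_pair hXX]) tY k4 ?_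
    rw [← Cc_comm86]
    exact k5
  rw [if_pos hUA, if_pos hUB, hα, hβ] at h5
  have h6 : G.c5 w = 2 := by
    unfold c5
    rw [if_pos hl]
  have h7 : 4 ≤ (G.nb w ∩ (G.K0 A B ∪ G.K0 B A)).card := by
    rw [inter_union_distrib_left, card_union_of_disjoint, k3, k4, card_pair hXX, card_pair hYY]
    exact disK86.mono inter_subset_right inter_subset_right
  unfold net5
  rw [h6]
  omega

/-- the covers of an edge between two twin vertices -/
theorem cover86 (cv : G.StCvS) (h : G.Sx A B) {X X' Y Y' : V} (tX : G.Tw X X')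
    (tY : G.Tw Y Y') (hX : X ∈ G.K0 A B) (hX' : X' ∈ G.K0 A B) (hY : Y ∈ G.K0 B A)
    (hY' : Y' ∈ G.K0 B A) (hXY : Y ∈ G.nb X) (cA : (G.K0 A B).card ≤ 3)
    (cB : (G.K0 B A).card ≤ 3) :
    ∃ w, G.Low w ∧ X ∈ G.nb w ∧ Y ∈ G.nb w ∧
      (w ∈ G.Cc A B ∨ w ∈ G.K0 A B ∨ w ∈ G.K0 B A) := by
  have n9 := h.st.n9
  have hXX := ne_of_nb5 tX.1
  have hYY := ne_of_nb5 tY.1
  have key : ∀ {K : Finset V} {X X' v w : V}, G.Tw X X' → X ∈ K → X' ∈ K → K.card ≤ 3 →
      G.Tw v w → v ∈ K → w ∈ K → X ∈ G.nb v → X ∈ G.nb w → False := by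
    intro K X X' v w tX hX hX' cK tv hv hw a1 a2
    have b1 : v ≠ X := (ne_of_nb5 a1)
    have b2 : w ≠ X := (ne_of_nb5 a2)
    have b3 : v ≠ X' := by
      rintro rfl
      exact b2 (uniq_5 n9 tv (symm_5 tX))
    have b4 : w ≠ X' := by
      rintro rfl
      exact b1 (uniq_5 n9 (symm_5 tv) (symm_5 tX))
    have b5 : ({v, w, X, X'} : Finset V) ⊆ K := by
      intro u hu
      simp only [mem_insert, mem_singleton] at hu
      rcases hu with rfl | rfl | rfl | rfl <;> assumption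
    have b6 := card_le_card b5
    rw [card_insert_of_notMem, card_insert_of_notMem, card_pair (ne_of_nb5 tX.1)] at b6
    · omega
    · simp only [mem_insert, mem_singleton, not_or]
      exact ⟨b2, b4⟩
    · simp only [mem_insert, mem_singleton, not_or]
      exact ⟨ne_of_nb5 tv.1, b1, b3⟩
  rcases cv A B h X hX Y hY hXY with h1 | ⟨v, w, tv, a1, a2, a3, a4, h1⟩ |
    ⟨a, b, -, h1, -⟩ | ⟨a, b, -, h1, -⟩ | ⟨u, v, h1, -⟩
  · obtain ⟨w, h2, h3, h4, h5⟩ := h1
    exact ⟨w, h2, h3, h4, h5⟩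
  · exfalso
    rcases h1 with ⟨h1, h2⟩ | ⟨h1, h2⟩ | ⟨h1, h2⟩
    · have e1 : v ≠ X' := by
        rintro rfl
        exact (mem_K0_86.1 hX').2 (mem_Cc_86.1 h1).2
      have e2 : v ≠ Y' := by
        rintro rfl
        exact (mem_K0_86.1 hY').2 (mem_Cc_86.1 h1).1
      exact no_tw86 h.st h1 h2 tv hX hX' hY hY' hXX hYY a1 (tw_adj86 tX e1 a1) a2
        (tw_adj86 tY e2 a2)
    · exact key tX hX hX' cA tv h1 h2 a1 a3
    · exact key tY hY hY' cB tv h1 h2 a2 a4
  · exact absurd h1 (tw_low86 ⟨Y', tY⟩)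
  · exact absurd h1 (tw_low86 ⟨X', tX⟩)
  · exact absurd ⟨X', tX⟩ (twLL_5 h1)

open Classical in
/-- the touched vertices -/
theorem tch_sum86 (net : G.StNet5) (h : G.Strip A B) :
    0 ≤ ∑ c ∈ (G.Cc A B).filter (fun c => G.Tch A B c), G.net5 A B c :=
  sum_nonneg fun c hc => net.pos A B h c (mem_filter.1 hc).2

open Classical in
theorem tch_le86 (net : G.StNet5) (h : G.Strip A B) {w : V} (hw : G.Tch A B w) :
    G.net5 A B w ≤ ∑ c ∈ (G.Cc A B).filter (fun c => G.Tch A B c), G.net5 A B c :=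
  single_le_sum (f := fun c => G.net5 A B c) (fun c hc => net.pos A B h c (mem_filter.1 hc).2)
    (mem_filter.2 ⟨hw.1, hw⟩)

/-! ### S9c -/

theorem stTh2xy_86 (ty : G.StTy5) (tot : G.StTotS) (loc : G.StLoc5) (net : G.StNet5)
    (cv : G.StCvS) : G.StTh2xy := by
  classical
  rintro A B h hc ⟨X, X', tX, hK⟩ ⟨Y, Y', tY, hL⟩
  have hst := h.st
  have hXX := ne_of_nb5 tX.1
  have hYY := ne_of_nb5 tY.1
  have hX : X ∈ G.K0 A B := by rw [hK]; simp
  have hX' : X' ∈ G.K0 A B := by rw [hK]; simp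
  have hY : Y ∈ G.K0 B A := by rw [hL]; simp
  have hY' : Y' ∈ G.K0 B A := by rw [hL]; simp
  have adjA : ∀ x ∈ G.K0 A B, G.nb x ∩ G.K0 B A = G.K0 B A := by
    intro x hx
    refine eq_of_subset_of_card_le inter_subset_right ?_
    have h1 := h.e1.one x hx
    rw [hL, card_pair hYY]
    rw [hL] at h1
    exact h1
  have adjB : ∀ x ∈ G.K0 B A, G.nb x ∩ G.K0 A B = G.K0 A B := by
    intro x hx
    refine eq_of_subset_of_card_le inter_subset_right ?_
    have h1 := h.e2.one x hx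
    rw [hK, card_pair hXX]
    rw [hK] at h1
    exact h1
  have hXY : Y ∈ G.nb X := by
    have h1 := adjA X hX
    rw [← h1] at hY
    exact (mem_inter.1 hY).1
  obtain ⟨w, wl, w1, w2, w3⟩ := cover86 cv h tX tY hX hX' hY hY' hXY
    (by rw [hK, card_pair hXX]; norm_num) (by rw [hL, card_pair hYY]; norm_num)
  have hwC : w ∈ G.Cc A B := by
    rcases w3 with w3 | w3 | w3
    · exact w3
    · exfalso
      rw [hK, mem_insert, mem_singleton] at w3
      rcases w3 with rfl | rfl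
      · exact tw_low86 ⟨_, tX⟩ wl
      · exact tw_low86 ⟨_, symm_5 tX⟩ wl
    · exfalso
      rw [hL, mem_insert, mem_singleton] at w3
      rcases w3 with rfl | rfl
      · exact tw_low86 ⟨_, tY⟩ wl
      · exact tw_low86 ⟨_, symm_5 tY⟩ wl
  have e1 : w ≠ X' := by
    rintro rfl
    exact (mem_K0_86.1 hX').2 (mem_Cc_86.1 hwC).2
  have e2 : w ≠ Y' := by
    rintro rfl
    exact (mem_K0_86.1 hY').2 (mem_Cc_86.1 hwC).1
  have w1' := tw_adj86 tX e1 w1
  have w2' := tw_adj86 tY e2 w2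
  obtain ⟨hT, hnet⟩ := net_common86 ty loc hst hwC wl tX tY hX hX' hY hY' w1 w1' w2 w2'
  -- the four twin vertices
  have val : ∀ {A B : Finset V} {x x' : V}, G.Strip A B → G.Tw x x' → x ∈ G.K0 A B →
      x' ∈ G.K0 A B → (G.nb x ∩ G.K0 B A).card = 2 → w ∈ G.Cc A B → x ∈ G.nb w →
      -3 ≤ G.B5 A x + G.phi A x := by
    intro A B x x' hst tx hx hx' hk hwc aw
    have h1 : (G.pO A x).card = 2 := by
      rw [pO_K0_86 hst hx]
      exact hk
    have h2 := phi_tw86 ty hst (tw_low86 ⟨x', tx⟩) (x := x) (by omega)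
    have h3 := B5_tw86 (G := G) (A := A) (x := x) ⟨x', tx⟩
    have h4 := pT_card86 (G := G) (A := A) (B := B) x
    have h5 : 1 ≤ (G.nb x ∩ G.K0 A B).card :=
      card_pos.2 ⟨x', mem_inter.2 ⟨tx.1, hx'⟩⟩
    have h6 : 1 ≤ (G.nb x ∩ G.Cc A B).card :=
      card_pos.2 ⟨w, mem_inter.2 ⟨G.sym _ _ aw, hwc⟩⟩
    omega
  have cL : (G.K0 B A).card = 2 := by rw [hL, card_pair hYY]
  have cK : (G.K0 A B).card = 2 := hc
  have hwC' : w ∈ G.Cc B A := by rw [← Cc_comm86]; exact hwC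
  have v1 := val hst tX hX hX' (by rw [adjA X hX, cL]) hwC w1
  have v2 := val hst (symm_5 tX) hX' hX (by rw [adjA X' hX', cL]) hwC w1'
  have v3 := val (strip_symm86 hst) tY hY hY' (by rw [adjB Y hY, cK]) hwC' w2
  have v4 := val (strip_symm86 hst) (symm_5 tY) hY' hY (by rw [adjB Y' hY', cK]) hwC' w2'
  have t1 := tot A B hst
  have t2 := tch_le86 net hst hT
  rw [hK, hL, sum_pair hXX, sum_pair hYY] at t1
  linarith

end CG

end Pool.Agent.Lib.MP_e95c01_co.N
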